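import Pool.Agent.Lib.MP_69b2e4_nt.GH.Defs
import Pool.Agent.Lib.MP_69b2e4_nt.GH.Basic

section

/-! TASK ExBound. The truncated exponential.
Proof. `exp z = sum z^i/i!` (`NormedSpace.expSeries` / `Complex.exp` as a HasSum: `NormedSpace.exp_eq_tsum`, or
`Complex.hasSum_exp`?). `‖Ex l z - exp z‖ ≤ ∑_{i>l} ‖z‖^i/i! ≤ 2^{-l} ∑_i (2‖z‖)^i/i! = 2^{-l} exp(2‖z‖)` since `1 ≤ 2^{i-l}`
for `i > l`. `‖Ex l z‖ ≤ ∑_{i≤l} ‖z‖^i/i! ≤ exp ‖z‖` (`Real.sum_le_exp_of_nonneg`).
`norm_Ex_le_mul`: `‖Ex l z‖ ≤ ‖exp z‖ + 2^{-l} exp(2‖z‖) ≤ ‖exp z‖ (1 + 2^{-l} exp(3‖z‖))` as `‖exp z‖ ≥ exp(-‖z‖)`. -/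

set_option autoImplicit false

namespace Pool.Agent.GH

open Complex MeasureTheory Finset
open scoped Real ComplexConjugate

private theorem ExBound_tail (l : ℕ) (t : ℝ) (ht : 0 ≤ t) :
    Real.exp t - ∑ m ∈ Finset.range (l + 1), t ^ m / (m.factorial : ℝ) ≤
      (2 : ℝ)⁻¹ ^ l * Real.exp (2 * t) := by
  have hs1 : Summable (fun m : ℕ => t ^ m / (m.factorial : ℝ)) := Real.summable_pow_div_factorial t
  have hs2 : Summable (fun m : ℕ => (2 * t) ^ m / (m.factorial : ℝ)) :=
    Real.summable_pow_div_factorial (2 * t)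
  have he1 : Real.exp t = ∑' m : ℕ, t ^ m / (m.factorial : ℝ) := by
    rw [Real.exp_eq_exp_ℝ, NormedSpace.exp_eq_tsum_div]
  have he2 : Real.exp (2 * t) = ∑' m : ℕ, (2 * t) ^ m / (m.factorial : ℝ) := by
    rw [Real.exp_eq_exp_ℝ, NormedSpace.exp_eq_tsum_div]
  have h1 := hs1.sum_add_tsum_nat_add (l + 1)
  have h2 := hs2.sum_add_tsum_nat_add (l + 1)
  have h3 : ∑' m : ℕ, t ^ (m + (l + 1)) / ((m + (l + 1)).factorial : ℝ) ≤
      ∑' m : ℕ, (2 : ℝ)⁻¹ ^ l * ((2 * t) ^ (m + (l + 1)) / ((m + (l + 1)).factorial : ℝ)) := by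
    refine Summable.tsum_le_tsum ?_ ((summable_nat_add_iff (l + 1)).2 hs1)
      (((summable_nat_add_iff (l + 1)).2 hs2).mul_left _)
    intro m
    rw [← mul_div_assoc]
    apply div_le_div_of_nonneg_right _ (by positivity)
    rw [mul_pow, ← mul_assoc]
    have h4 : (1 : ℝ) ≤ (2 : ℝ)⁻¹ ^ l * 2 ^ (m + (l + 1)) := by
      rw [show m + (l + 1) = l + (m + 1) by ring, pow_add, ← mul_assoc, ← mul_pow]
      norm_num
      exact one_le_pow₀ (by norm_num)
    have h5 : 0 ≤ t ^ (m + (l + 1)) := by positivity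
    nlinarith
  rw [tsum_mul_left] at h3
  have h6 : 0 ≤ ∑ m ∈ Finset.range (l + 1), (2 * t) ^ m / (m.factorial : ℝ) :=
    Finset.sum_nonneg fun m _ => by positivity
  rw [← he1] at h1
  rw [← he2] at h2
  have h7 : (0 : ℝ) ≤ (2 : ℝ)⁻¹ ^ l := by positivity
  calc Real.exp t - ∑ m ∈ Finset.range (l + 1), t ^ m / (m.factorial : ℝ)
      = ∑' m : ℕ, t ^ (m + (l + 1)) / ((m + (l + 1)).factorial : ℝ) := by linarith
    _ ≤ _ := h3
    _ ≤ (2 : ℝ)⁻¹ ^ l * Real.exp (2 * t) := by
        apply mul_le_mul_of_nonneg_left _ h7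
        linarith

theorem norm_Ex_sub_exp (l : ℕ) (z : ℂ) : ‖Ex l z - cexp z‖ ≤ (2 : ℝ)⁻¹ ^ l * Real.exp (2 * ‖z‖) := by
  rw [norm_sub_rev]
  exact (Complex.norm_exp_sub_sum_le_exp_norm_sub_sum z (l + 1)).trans
    (ExBound_tail l ‖z‖ (norm_nonneg z))

theorem norm_Ex_le (l : ℕ) (z : ℂ) : ‖Ex l z‖ ≤ Real.exp ‖z‖ := by
  unfold Ex
  refine (norm_sum_le _ _).trans ?_
  refine le_trans (le_of_eq ?_) (Real.sum_le_exp_of_nonneg (norm_nonneg z) (l + 1))
  refine Finset.sum_congr rfl fun i _ => ?_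
  rw [norm_div, norm_pow, Complex.norm_natCast]

theorem norm_Ex_le_mul (l : ℕ) (z : ℂ) :
    ‖Ex l z‖ ≤ ‖cexp z‖ * (1 + (2 : ℝ)⁻¹ ^ l * Real.exp (3 * ‖z‖)) := by
  have h1 := norm_Ex_sub_exp l z
  have h2 : ‖Ex l z‖ ≤ ‖cexp z‖ + ‖Ex l z - cexp z‖ := by
    calc ‖Ex l z‖ = ‖cexp z + (Ex l z - cexp z)‖ := by congr 1; ring
      _ ≤ _ := norm_add_le _ _
  have h3 : Real.exp (-‖z‖) ≤ ‖cexp z‖ := by
    rw [Complex.norm_exp]
    apply Real.exp_le_exp.2
    have := Complex.abs_re_le_norm z
    have := neg_abs_le z.re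
    linarith
  have h4 : Real.exp (2 * ‖z‖) = Real.exp (-‖z‖) * Real.exp (3 * ‖z‖) := by
    rw [← Real.exp_add]; congr 1; ring
  have h5 : (2 : ℝ)⁻¹ ^ l * Real.exp (2 * ‖z‖) ≤
      ‖cexp z‖ * ((2 : ℝ)⁻¹ ^ l * Real.exp (3 * ‖z‖)) := by
    rw [h4]
    calc (2 : ℝ)⁻¹ ^ l * (Real.exp (-‖z‖) * Real.exp (3 * ‖z‖))
        = Real.exp (-‖z‖) * ((2 : ℝ)⁻¹ ^ l * Real.exp (3 * ‖z‖)) := by ring
      _ ≤ _ := mul_le_mul_of_nonneg_right h3 (by positivity)
  calc ‖Ex l z‖ ≤ ‖cexp z‖ + ‖cexp z‖ * ((2 : ℝ)⁻¹ ^ l * Real.exp (3 * ‖z‖)) := by linarith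
    _ = _ := by ring

end Pool.Agent.GH
end

section

/-! TASK Indep. Independence of the coordinates, over disjoint blocks.
Proof. The coordinates are independent: `ProbabilityTheory.iIndepFun_infinitePi` with `X i = id`.
`indep_primes`: `iIndepFun.integral_fun_prod_eq_prod_integral` for the family indexed by the subtype `R`
(or induction on `R`), then `MeasureTheory.measurePreserving_eval_infinitePi` for the one-coordinate integrals.
`indep_blocks`: induction on `I`. For `i` not in `I`: `f i` is a measurable function of the restriction of `w` to `R i`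
(compose with the map which extends a restricted point by 0), the product over `I` is a measurable function of the
restriction to the finset `I.biUnion R`, the two finsets are disjoint, so the two functions are independent
(`iIndepFun.indepFun_finset`), and the integral of the product is the product of the integrals
(`IndepFun.integral_fun_mul_eq_mul_integral` or similar; AEStronglyMeasurable from Measurable).
Integrability is not needed in the Mathlib statements (only a.e. strong measurability). -/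

set_option autoImplicit false

namespace Pool.Agent.GH

open Complex MeasureTheory Finset
open scoped Real ComplexConjugate

private theorem Indep_coord : ProbabilityTheory.iIndepFun (fun (i : ℕ) (w : Om) => w i) mu := by
  unfold mu
  exact ProbabilityTheory.iIndepFun_infinitePi
    (P := fun _ : ℕ => (AddCircle.haarAddCircle : Measure UnitAddCircle)) (X := fun _ x => x)
    (fun _ => measurable_id)

private theorem Indep_eval {𝕜 : Type*} [RCLike 𝕜] (g : UnitAddCircle → 𝕜) (hg : Measurable g) (p : ℕ) :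
    ∫ w, g (w p) ∂mu = ∫ x, g x ∂(AddCircle.haarAddCircle : Measure UnitAddCircle) := by
  have h := (_root_.measurePreserving_eval_infinitePi
    (fun _ : ℕ => (AddCircle.haarAddCircle : Measure UnitAddCircle)) p).map_eq
  have h2 := MeasureTheory.integral_map (μ := mu) (φ := fun w : Om => w p) (f := g)
    (measurable_pi_apply p).aemeasurable hg.aestronglyMeasurable
  rw [← h2]
  unfold mu
  rw [show (fun w : Om => w p) = Function.eval p from rfl, h]

theorem indep_primes {𝕜 : Type*} [RCLike 𝕜] (R : Finset ℕ) (f : ℕ → UnitAddCircle → 𝕜)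
    (hf : ∀ p ∈ R, Measurable (f p)) :
    ∫ w, ∏ p ∈ R, f p (w p) ∂mu =
      ∏ p ∈ R, ∫ x, f p x ∂(AddCircle.haarAddCircle : Measure UnitAddCircle) := by
  have h1 : ProbabilityTheory.iIndepFun (fun (p : R) (w : Om) => f p (w p)) mu :=
    (Indep_coord.precomp (g := fun p : R => (p : ℕ)) Subtype.val_injective).comp
      (fun p : R => f p) (fun p => hf p p.2)
  have h2 := h1.integral_fun_prod_eq_prod_integral
    (fun p => ((hf p p.2).comp (measurable_pi_apply (p : ℕ))).aestronglyMeasurable)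
  have h3 : ∀ w : Om, ∏ p ∈ R, f p (w p) = ∏ p : R, f p (w p) := fun w =>
    (Finset.prod_coe_sort R (fun p => f p (w p))).symm
  simp_rw [h3]
  rw [h2, ← Finset.prod_coe_sort R (fun p => ∫ x, f p x ∂(AddCircle.haarAddCircle : Measure UnitAddCircle))]
  refine Finset.prod_congr rfl fun p _ => ?_
  exact Indep_eval (f p) (hf p p.2) p

private noncomputable def Indep_ext (S : Finset ℕ) (x : (i : S) → UnitAddCircle) : Om :=
  fun i => if h : i ∈ S then x ⟨i, h⟩ else 0

private theorem Indep_ext_meas (S : Finset ℕ) : Measurable (Indep_ext S) := by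
  refine measurable_pi_lambda _ fun i => ?_
  unfold Indep_ext
  by_cases h : i ∈ S
  · simp only [h, dite_true]
    exact measurable_pi_apply _
  · simp only [h, dite_false]
    exact measurable_const

private theorem Indep_ext_apply (S : Finset ℕ) (w : Om) {p : ℕ} (hp : p ∈ S) :
    w p = Indep_ext S (fun i : S => w i) p := by
  unfold Indep_ext
  rw [dif_pos hp]

theorem indep_blocks {𝕜 : Type*} [RCLike 𝕜] (I : Finset ℕ) (R : ℕ → Finset ℕ)
    (hR : ∀ i ∈ I, ∀ j ∈ I, i ≠ j → Disjoint (R i) (R j)) (f : ℕ → Om → 𝕜)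
    (hm : ∀ i ∈ I, Measurable (f i))
    (hf : ∀ i ∈ I, ∀ w w' : Om, (∀ p ∈ R i, w p = w' p) → f i w = f i w') :
    ∫ w, ∏ i ∈ I, f i w ∂mu = ∏ i ∈ I, ∫ w, f i w ∂mu := by
  classical
  induction I using Finset.induction_on with
  | empty => simp
  | insert a I ha ih =>
    have hI := ih (fun i hi j hj hij => hR i (Finset.mem_insert_of_mem hi) j (Finset.mem_insert_of_mem hj) hij)
      (fun i hi => hm i (Finset.mem_insert_of_mem hi))
      (fun i hi => hf i (Finset.mem_insert_of_mem hi))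
    rw [Finset.prod_insert ha, ← hI]
    simp_rw [Finset.prod_insert ha]
    have hma := hm a (Finset.mem_insert_self a I)
    have hmI : Measurable (fun w : Om => ∏ i ∈ I, f i w) :=
      Finset.measurable_prod I fun i hi => hm i (Finset.mem_insert_of_mem hi)
    have hdis : Disjoint (R a) (I.biUnion R) := by
      rw [Finset.disjoint_biUnion_right]
      intro i hi
      exact hR a (Finset.mem_insert_self a I) i (Finset.mem_insert_of_mem hi)
        (fun h => ha (h ▸ hi))
    have h0 := Indep_coord.indepFun_finset (R a) (I.biUnion R) hdis (fun i => measurable_pi_apply i)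
    have h1 := h0.comp (φ := fun x => f a (Indep_ext (R a) x))
      (ψ := fun x => ∏ i ∈ I, f i (Indep_ext (I.biUnion R) x))
      (hma.comp (Indep_ext_meas _)) (hmI.comp (Indep_ext_meas _))
    have ea : ((fun x => f a (Indep_ext (R a) x)) ∘ fun (w : Om) (i : (R a : Finset ℕ)) => w i) = f a := by
      funext w
      exact hf a (Finset.mem_insert_self a I) _ _ (fun p hp => (Indep_ext_apply (R a) w hp).symm)
    have eI : ((fun x => ∏ i ∈ I, f i (Indep_ext (I.biUnion R) x)) ∘
        fun (w : Om) (i : (I.biUnion R : Finset ℕ)) => w i) = fun w => ∏ i ∈ I, f i w := by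
      funext w
      refine Finset.prod_congr rfl fun i hi => ?_
      exact hf i (Finset.mem_insert_of_mem hi) _ _
        (fun p hp => (Indep_ext_apply (I.biUnion R) w (Finset.mem_biUnion.mpr ⟨i, hi, hp⟩)).symm)
    rw [ea, eI] at h1
    exact h1.integral_fun_mul_eq_mul_integral hma.aestronglyMeasurable hmI.aestronglyMeasurable

end Pool.Agent.GH
end

section

/-! TASK ExpMoment. Exponential moments of the random prime polynomials.
Proof. Write `u_p = (p:ℂ)^(-(1/2+z))`, so `‖u_p‖ ≤ e / √p` because `‖z‖ log p ≤ 1`. `PX R z w = ∑ u_p X_p` (`PX_eq`).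
`‖P‖ ≤ |Re P| + |Im P|` and `exp(c|x|) ≤ exp(cx) + exp(-cx)`, so `exp(c‖P‖)` is at most the sum over the four signs of
`exp(±c Re P) exp(±c Im P)`, and `exp(a) exp(b) ≤ (exp(2a) + exp(2b))/2`. So it suffices to bound
`E exp(2c Re(κ P))` for `κ ∈ {1,-1,i,-i}` by `exp(C s)`: by `indep_primes` this is `∏ E exp(2c Re(κ u_p X_p))`, and for
a real number `r` (`r = 2c‖u_p‖`) and `x` on the circle `E exp(Re(v X)) ≤ exp(‖v‖²)`: indeed
`exp t ≤ 1 + t + t² exp|t|`...; simplest: `exp t + exp(-t) = 2 cosh t ≤ 2 exp(t²/2)` (`Real.cosh_le_exp_half_sq`) and the law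
of `X` is symmetric (`x ↦ x + 1/2` preserves the Haar measure and changes `X` into `-X`), so
`E exp(Re(vX)) = E cosh(Re(vX)) ≤ exp(‖v‖²/2)`. Hence `E exp(2c Re(κP)) ≤ exp(2 c² e² s)`. Total: `4 exp(2c²e² s)`. -/

set_option autoImplicit false

namespace Pool.Agent.GH

open Complex MeasureTheory Finset
open scoped Real ComplexConjugate

private theorem exp_moment_half :
    AddCircle.toCircle (((1 / 2 : ℝ)) : UnitAddCircle) = -1 := by
  apply Circle.ext
  rw [AddCircle.toCircle_apply_mk, Circle.coe_exp]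
  have : (((2 * π / 1 * (1 / 2) : ℝ)) : ℂ) * I = π * I := by
    push_cast
    ring
  rw [this, Complex.exp_pi_mul_I]
  simp

private theorem exp_moment_one (v : ℂ) :
    ∫ x, Real.exp (v * (AddCircle.toCircle x : ℂ)).re
      ∂(AddCircle.haarAddCircle : Measure UnitAddCircle) ≤ Real.exp (‖v‖ ^ 2 / 2) := by
  set g : UnitAddCircle → ℝ := fun x => Real.exp (v * (AddCircle.toCircle x : ℂ)).re with hg
  have hc : Continuous fun x : UnitAddCircle => ((AddCircle.toCircle x : Circle) : ℂ) :=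
    continuous_subtype_val.comp AddCircle.continuous_toCircle
  have hgc : Continuous g := Real.continuous_exp.comp
    (Complex.continuous_re.comp (continuous_const.mul hc))
  have hint : ∀ f : UnitAddCircle → ℝ, Continuous f →
      Integrable f (AddCircle.haarAddCircle : Measure UnitAddCircle) := fun f hf =>
    hf.integrable_of_hasCompactSupport (HasCompactSupport.of_compactSpace f)
  have hsh : ∫ x, g (x + ((1 / 2 : ℝ) : UnitAddCircle))
      ∂(AddCircle.haarAddCircle : Measure UnitAddCircle) =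
      ∫ x, g x ∂(AddCircle.haarAddCircle : Measure UnitAddCircle) :=
    integral_add_right_eq_self g _
  have hneg : ∀ x, g (x + ((1 / 2 : ℝ) : UnitAddCircle)) =
      Real.exp (-(v * (AddCircle.toCircle x : ℂ)).re) := by
    intro x
    simp only [hg]
    rw [AddCircle.toCircle_add, exp_moment_half]
    simp
  have hgc' : Continuous fun x => g (x + ((1 / 2 : ℝ) : UnitAddCircle)) :=
    hgc.comp (continuous_id.add continuous_const)
  have hsum : 2 * ∫ x, g x ∂(AddCircle.haarAddCircle : Measure UnitAddCircle) =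
      ∫ x, (g x + g (x + ((1 / 2 : ℝ) : UnitAddCircle)))
        ∂(AddCircle.haarAddCircle : Measure UnitAddCircle) := by
    rw [integral_add (hint _ hgc) (hint _ hgc'), hsh]
    ring
  have hle : ∫ x, (g x + g (x + ((1 / 2 : ℝ) : UnitAddCircle)))
        ∂(AddCircle.haarAddCircle : Measure UnitAddCircle) ≤
      ∫ x, 2 * Real.exp (‖v‖ ^ 2 / 2) ∂(AddCircle.haarAddCircle : Measure UnitAddCircle) := by
    refine integral_mono (hint _ (hgc.add hgc')) (integrable_const _) fun x => ?_
    simp only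
    rw [hneg]
    have h1 : g x + Real.exp (-(v * (AddCircle.toCircle x : ℂ)).re) =
        2 * Real.cosh (v * (AddCircle.toCircle x : ℂ)).re := by
      rw [Real.cosh_eq]
      ring
    rw [h1]
    refine mul_le_mul_of_nonneg_left ((Real.cosh_le_exp_half_sq _).trans ?_) (by norm_num)
    refine Real.exp_le_exp.mpr ?_
    have h2 : |(v * (AddCircle.toCircle x : ℂ)).re| ≤ ‖v‖ := by
      refine (Complex.abs_re_le_norm _).trans ?_
      rw [norm_mul, Circle.norm_coe, mul_one]
    have h3 : (v * (AddCircle.toCircle x : ℂ)).re ^ 2 ≤ ‖v‖ ^ 2 := by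
      rw [← sq_abs]
      exact pow_le_pow_left₀ (abs_nonneg _) h2 2
    linarith
  rw [integral_const] at hle
  rw [probReal_univ, one_smul] at hle
  linarith

private theorem exp_moment_norm {p : ℕ} (hp : p.Prime) (z : ℂ) (hz : ‖z‖ * Real.log p ≤ 1) :
    ‖(p : ℂ) ^ (-(1 / 2 + z))‖ ^ 2 ≤ Real.exp 2 * (1 / p) := by
  have hp0 : (0 : ℝ) < p := by exact_mod_cast hp.pos
  have hlog : 0 ≤ Real.log p := Real.log_nonneg (by exact_mod_cast hp.one_lt.le)
  rw [Complex.norm_natCast_cpow_of_pos hp.pos]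
  have h1 : (-(1 / 2 + z)).re = -(1 / 2 + z.re) := by simp
  rw [h1, ← Real.rpow_natCast, ← Real.rpow_mul hp0.le, Real.rpow_def_of_pos hp0]
  have h2 : (1 : ℝ) / p = Real.exp (-Real.log p) := by
    rw [Real.exp_neg, Real.exp_log hp0, one_div]
  rw [h2, ← Real.exp_add]
  refine Real.exp_le_exp.mpr ?_
  have h3 : -z.re * Real.log p ≤ 1 := by
    refine le_trans (mul_le_mul_of_nonneg_right ?_ hlog) hz
    exact (neg_le_abs _).trans (Complex.abs_re_le_norm z)
  push_cast
  nlinarith

private theorem exp_moment_dir (c : ℝ) (κ : ℂ) (hκ : ‖κ‖ ≤ 1) (R : Finset ℕ) (z : ℂ)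
    (hR : ∀ p ∈ R, p.Prime) (hz : ∀ p ∈ R, ‖z‖ * Real.log p ≤ 1) :
    ∫ w, Real.exp (2 * c * (κ * PX R z w).re) ∂mu ≤
      Real.exp (2 * c ^ 2 * Real.exp 2 * sR R) := by
  set v : ℕ → ℂ := fun p => 2 * c * κ * (p : ℂ) ^ (-(1 / 2 + z)) with hv
  have h1 : ∀ w, Real.exp (2 * c * (κ * PX R z w).re) =
      ∏ p ∈ R, Real.exp (v p * (AddCircle.toCircle (w p) : ℂ)).re := by
    intro w
    rw [← Real.exp_sum, PX_eq R hR z w]
    congr 1
    rw [← Complex.re_sum]
    have h2 : (2 * c * (κ * ∑ p ∈ R, (p : ℂ) ^ (-(1 / 2 + z)) * X p w).re) =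
        (((2 * c : ℝ) : ℂ) * (κ * ∑ p ∈ R, (p : ℂ) ^ (-(1 / 2 + z)) * X p w)).re := by
      rw [Complex.re_ofReal_mul]
    rw [h2]
    congr 1
    rw [Finset.mul_sum, Finset.mul_sum]
    refine Finset.sum_congr rfl fun p _ => ?_
    simp only [hv, X]
    push_cast
    ring
  have hc : Continuous fun x : UnitAddCircle => ((AddCircle.toCircle x : Circle) : ℂ) :=
    continuous_subtype_val.comp AddCircle.continuous_toCircle
  have h2 : ∫ w, Real.exp (2 * c * (κ * PX R z w).re) ∂mu =
      ∏ p ∈ R, ∫ x, Real.exp (v p * (AddCircle.toCircle x : ℂ)).re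
        ∂(AddCircle.haarAddCircle : Measure UnitAddCircle) := by
    simp_rw [h1]
    exact indep_primes (𝕜 := ℝ) R
      (fun p x => Real.exp (v p * (AddCircle.toCircle x : ℂ)).re) fun p _ =>
        (Real.continuous_exp.comp (Complex.continuous_re.comp
          (continuous_const.mul hc))).measurable
  rw [h2]
  have h3 : ∏ p ∈ R, ∫ x, Real.exp (v p * (AddCircle.toCircle x : ℂ)).re
        ∂(AddCircle.haarAddCircle : Measure UnitAddCircle) ≤
      ∏ p ∈ R, Real.exp (2 * c ^ 2 * Real.exp 2 * (1 / p)) := by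
    refine Finset.prod_le_prod (fun p _ => integral_nonneg fun x => (Real.exp_pos _).le)
      fun p hp => ?_
    refine (exp_moment_one (v p)).trans (Real.exp_le_exp.mpr ?_)
    have h4 := exp_moment_norm (hR p hp) z (hz p hp)
    have h5 : ‖v p‖ = 2 * |c| * ‖κ‖ * ‖(p : ℂ) ^ (-(1 / 2 + z))‖ := by
      simp only [hv, norm_mul, Complex.norm_ofNat, Complex.norm_real, Real.norm_eq_abs]
    rw [h5, mul_pow, mul_pow, mul_pow, sq_abs]
    have h6 : ‖κ‖ ^ 2 ≤ 1 := pow_le_one₀ (norm_nonneg _) hκ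
    have h7 : ‖κ‖ ^ 2 * ‖(p : ℂ) ^ (-(1 / 2 + z))‖ ^ 2 ≤ 1 * (Real.exp 2 * (1 / p)) :=
      mul_le_mul h6 h4 (by positivity) (by norm_num)
    have h8 : 0 ≤ c ^ 2 := sq_nonneg c
    nlinarith [mul_le_mul_of_nonneg_left h7 h8]
  refine h3.trans ?_
  rw [← Real.exp_sum, ← Finset.mul_sum, sR]

theorem exp_moment (c : ℝ) (hc : 0 ≤ c) : ∃ C : ℝ, 0 ≤ C ∧ ∀ (R : Finset ℕ) (z : ℂ),
    (∀ p ∈ R, p.Prime) → (∀ p ∈ R, ‖z‖ * Real.log p ≤ 1) →
    ∫ w, Real.exp (c * ‖PX R z w‖) ∂mu ≤ 4 * Real.exp (C * sR R) := by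
  refine ⟨2 * c ^ 2 * Real.exp 2, by positivity, fun R z hR hz => ?_⟩
  have hcont : ∀ κ : ℂ, Continuous fun w => Real.exp (2 * c * (κ * PX R z w).re) := fun κ =>
    Real.continuous_exp.comp (continuous_const.mul (Complex.continuous_re.comp
      (continuous_const.mul (continuous_PX R z))))
  have hi : ∀ κ : ℂ, Integrable (fun w => Real.exp (2 * c * (κ * PX R z w).re)) mu := fun κ =>
    integrable_of_continuous (hcont κ)
  have hcn : Continuous fun w => Real.exp (c * ‖PX R z w‖) :=
    Real.continuous_exp.comp (continuous_const.mul (continuous_norm.comp (continuous_PX R z)))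
  have hpt : ∀ w, Real.exp (c * ‖PX R z w‖) ≤
      ((Real.exp (2 * c * (1 * PX R z w).re) + Real.exp (2 * c * (-1 * PX R z w).re)) +
      (Real.exp (2 * c * (I * PX R z w).re) + Real.exp (2 * c * (-I * PX R z w).re))) := by
    intro w
    set P := PX R z w
    have e1 : (1 * P).re = P.re := by simp
    have e2 : (-1 * P).re = -P.re := by simp
    have e3 : (I * P).re = -P.im := by simp
    have e4 : (-I * P).re = P.im := by simp
    rw [e1, e2, e3, e4]
    have h1 : ‖P‖ ≤ |P.re| + |P.im| := Complex.norm_le_abs_re_add_abs_im P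
    have h2 : Real.exp (c * ‖P‖) ≤ Real.exp (c * |P.re|) * Real.exp (c * |P.im|) := by
      rw [← Real.exp_add]
      refine Real.exp_le_exp.mpr ?_
      nlinarith
    have h3 : Real.exp (c * |P.re|) * Real.exp (c * |P.im|) ≤
        Real.exp (2 * c * |P.re|) + Real.exp (2 * c * |P.im|) := by
      have a1 : Real.exp (2 * c * |P.re|) = Real.exp (c * |P.re|) ^ 2 := by
        rw [← Real.exp_nat_mul]
        congr 1
        push_cast
        ring
      have a2 : Real.exp (2 * c * |P.im|) = Real.exp (c * |P.im|) ^ 2 := by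
        rw [← Real.exp_nat_mul]
        congr 1
        push_cast
        ring
      rw [a1, a2]
      nlinarith [sq_nonneg (Real.exp (c * |P.re|) - Real.exp (c * |P.im|)),
        sq_nonneg (Real.exp (c * |P.re|)), sq_nonneg (Real.exp (c * |P.im|))]
    have h4 : ∀ x : ℝ, Real.exp (2 * c * |x|) ≤
        Real.exp (2 * c * x) + Real.exp (2 * c * -x) := by
      intro x
      rcases abs_cases x with ⟨h, _⟩ | ⟨h, _⟩
      · rw [h]
        linarith [Real.exp_pos (2 * c * -x)]
      · rw [h]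
        linarith [Real.exp_pos (2 * c * x)]
    have h5 := h4 P.re
    have h6 := h4 P.im
    linarith
  calc ∫ w, Real.exp (c * ‖PX R z w‖) ∂mu
      ≤ ∫ w, ((Real.exp (2 * c * (1 * PX R z w).re) + Real.exp (2 * c * (-1 * PX R z w).re)) +
      (Real.exp (2 * c * (I * PX R z w).re) + Real.exp (2 * c * (-I * PX R z w).re))) ∂mu := by
        refine integral_mono (integrable_of_continuous hcn)
          (((hi 1).add (hi (-1))).add ((hi I).add (hi (-I)))) hpt
    _ = (∫ w, Real.exp (2 * c * (1 * PX R z w).re) ∂mu +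
          ∫ w, Real.exp (2 * c * (-1 * PX R z w).re) ∂mu) +
        (∫ w, Real.exp (2 * c * (I * PX R z w).re) ∂mu +
          ∫ w, Real.exp (2 * c * (-I * PX R z w).re) ∂mu) := by
        have q1 := integral_add ((hi 1).add (hi (-1))) ((hi I).add (hi (-I)))
        have q2 := integral_add (hi 1) (hi (-1))
        have q3 := integral_add (hi I) (hi (-I))
        simp only [Pi.add_apply] at q1
        rw [q1, q2, q3]
    _ ≤ 4 * Real.exp (2 * c ^ 2 * Real.exp 2 * sR R) := by
        have k1 := exp_moment_dir c 1 (by simp) R z hR hz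
        have k2 := exp_moment_dir c (-1) (by simp) R z hR hz
        have k3 := exp_moment_dir c I (by simp) R z hR hz
        have k4 := exp_moment_dir c (-I) (by simp) R z hR hz
        linarith

end Pool.Agent.GH
end

section

/-! TASK Orth. Orthogonality of the random multiplicative function.
Proof. For `m, n` nonzero let `R = m.primeFactors ∪ n.primeFactors`. By `XX_apply`,
`XX w m * conj (XX w n) = ∏ p ∈ R, X p w ^ v_p(m) * conj (X p w) ^ v_p(n)`; by `indep_primes` the integral is the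
product over `p ∈ R` of the integrals of `toCircle x ^ a * conj (toCircle x) ^ b` over the circle, which is
`1` if `a = b` and `0` otherwise (`fourier (a - b)`, `integral of fourier n` = 0 for `n ≠ 0`:
use `orthonormal_fourier` or `integral_eq_zero_of_add_right_eq_neg` as in Mathlib's proof of `orthonormal_fourier`).
If `m ≠ n` some exponent differs (`Nat.eq_of_factorization_eq`). `orth_circle` is the one-variable fact.
`sum_sq`: expand the square and use `orth`. -/

set_option autoImplicit false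

namespace Pool.Agent.GH

open Complex MeasureTheory Finset
open scoped Real ComplexConjugate

private theorem Orth_fourier (a b : ℕ) (x : UnitAddCircle) :
    (AddCircle.toCircle x : ℂ) ^ a * conj ((AddCircle.toCircle x : ℂ)) ^ b =
      fourier ((a : ℤ) - b) x := by
  rw [sub_eq_add_neg, fourier_add, fourier_neg, fourier_apply, fourier_apply, ← map_pow]
  congr 1
  · rw [natCast_zsmul, AddCircle.toCircle_nsmul]
    simp
  · congr 1
    rw [natCast_zsmul, AddCircle.toCircle_nsmul]
    simp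

theorem orth_circle (a b : ℕ) :
    ∫ x : UnitAddCircle, (AddCircle.toCircle x : ℂ) ^ a * conj ((AddCircle.toCircle x : ℂ)) ^ b
      ∂(AddCircle.haarAddCircle : Measure UnitAddCircle) = if a = b then 1 else 0 := by
  simp_rw [Orth_fourier]
  split_ifs with h
  · subst h
    simp
  · have hij : (a : ℤ) - b ≠ 0 := by omega
    exact integral_eq_zero_of_add_right_eq_neg (μ := AddCircle.haarAddCircle)
      (fourier_add_half_inv_index hij (by norm_num))

theorem orth {m n : ℕ} (hm : m ≠ 0) (hn : n ≠ 0) :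
    ∫ w, XX w m * conj (XX w n) ∂mu = if m = n then 1 else 0 := by
  classical
  set R : Finset ℕ := m.primeFactors ∪ n.primeFactors with hR
  have hprod : ∀ w : Om, XX w m * conj (XX w n) =
      ∏ p ∈ R, ((AddCircle.toCircle (w p) : ℂ) ^ (m.factorization p) *
        conj ((AddCircle.toCircle (w p) : ℂ)) ^ (n.factorization p)) := by
    intro w
    have h1 : ∀ k : ℕ, k ≠ 0 → k.primeFactors ⊆ R →
        XX w k = ∏ p ∈ R, (AddCircle.toCircle (w p) : ℂ) ^ (k.factorization p) := by
      intro k hk hkR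
      rw [XX_apply w hk, Finsupp.prod_of_support_subset _ (s := R)]
      · rfl
      · exact hkR
      · intro i _; exact pow_zero _
    rw [h1 m hm subset_union_left, h1 n hn subset_union_right, map_prod, ← Finset.prod_mul_distrib]
    refine Finset.prod_congr rfl fun p _ => ?_
    rw [map_pow]
  simp_rw [hprod]
  have hmeas : ∀ p ∈ R, Measurable (fun x : UnitAddCircle =>
      (AddCircle.toCircle x : ℂ) ^ (m.factorization p) *
        conj ((AddCircle.toCircle x : ℂ)) ^ (n.factorization p)) := by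
    intro p _
    apply Continuous.measurable
    have hc : Continuous (fun x : UnitAddCircle => (AddCircle.toCircle x : ℂ)) :=
      continuous_subtype_val.comp AddCircle.continuous_toCircle
    exact (hc.pow _).mul ((Complex.continuous_conj.comp hc).pow _)
  rw [indep_primes R (fun p x => (AddCircle.toCircle x : ℂ) ^ (m.factorization p) *
    conj ((AddCircle.toCircle x : ℂ)) ^ (n.factorization p)) hmeas]
  simp_rw [orth_circle]
  split_ifs with h
  · subst h
    simp
  · have hne : ∃ p, m.factorization p ≠ n.factorization p := by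
      by_contra hcon
      push Not at hcon
      exact h (Nat.eq_of_factorization_eq hm hn hcon)
    obtain ⟨p, hp⟩ := hne
    refine Finset.prod_eq_zero (i := p) ?_ (if_neg hp)
    by_contra hpR
    rw [hR, Finset.mem_union, not_or] at hpR
    apply hp
    rw [← Nat.support_factorization, ← Nat.support_factorization] at hpR
    rw [Finsupp.notMem_support_iff.1 hpR.1, Finsupp.notMem_support_iff.1 hpR.2]

theorem sum_sq (F : Finset ℕ) (hF : ∀ n ∈ F, n ≠ 0) (c : ℕ → ℂ) :
    ∫ w, ‖∑ n ∈ F, c n * XX w n‖ ^ 2 ∂mu = ∑ n ∈ F, ‖c n‖ ^ 2 := by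
  have h1 : (∫ w, (((‖∑ n ∈ F, c n * XX w n‖ ^ 2 : ℝ)) : ℂ) ∂mu) = ∑ n ∈ F, ((‖c n‖ ^ 2 : ℝ) : ℂ) := by
    have h2 : ∀ w : Om, (((‖∑ n ∈ F, c n * XX w n‖ ^ 2 : ℝ)) : ℂ) =
        ∑ m ∈ F, ∑ n ∈ F, (c m * conj (c n)) * (XX w m * conj (XX w n)) := by
      intro w
      push_cast
      rw [← Complex.mul_conj', map_sum, Finset.sum_mul_sum]
      refine Finset.sum_congr rfl fun m _ => Finset.sum_congr rfl fun n _ => ?_
      rw [map_mul]; ring
    simp_rw [h2]
    have hint : ∀ m n : ℕ, Integrable (fun w : Om => (c m * conj (c n)) * (XX w m * conj (XX w n))) mu :=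
      fun m n => integrable_of_continuous (continuous_const.mul
        ((continuous_XX m).mul (Complex.continuous_conj.comp (continuous_XX n))))
    rw [integral_finsetSum _ (fun m _ => integrable_finsetSum _ fun n _ => hint m n)]
    refine Finset.sum_congr rfl fun m hm => ?_
    rw [integral_finsetSum _ (fun n _ => hint m n)]
    have h3 : ∀ n ∈ F, ∫ w, (c m * conj (c n)) * (XX w m * conj (XX w n)) ∂mu =
        if m = n then ((‖c m‖ ^ 2 : ℝ) : ℂ) else 0 := by
      intro n hn
      rw [integral_const_mul, orth (hF m hm) (hF n hn)]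
      split_ifs with h
      · subst h
        rw [mul_one, Complex.mul_conj']
        push_cast; rfl
      · rw [mul_zero]
    rw [Finset.sum_congr rfl h3, Finset.sum_ite_eq, if_pos hm]
  rw [integral_complex_ofReal] at h1
  exact_mod_cast h1

end Pool.Agent.GH
end

section

/-! TASK MV0. Mean values of short Dirichlet polynomials.
Proof. `f χ = ∑_{n∈F} a_n χ(n)`. `‖f(nC(1/2+it))‖² = ∑_{m,n} a_m a_n (mn)^{-1/2} (n/m)^{it}` (`nC_apply`). Integrate over `[T,2T]`: the terms `m = n` give
`T ∑ a_n²/n = T ∫ ‖f(nX 0 w)‖²` (`sum_sq`); for `m ≠ n`: `|∫ (n/m)^{it} dt| ≤ 2/|log(n/m)| ≤ 4Q`, because for `n > m`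
`log(n/m) ≥ 1 - m/n ≥ 1/n ≥ 1/Q`. So the off-diagonal part is at most `4 Q (∑|a_n|)² ≤ 4 Q B²` (as `(mn)^{-1/2} ≤ 1`). -/

set_option autoImplicit false

namespace Pool.Agent.GH

open Complex MeasureTheory Finset
open scoped Real ComplexConjugate

/-- the difference of logarithms of different positive integers at most `Q` -/
private lemma MV0_log {Q : ℝ} {m n : ℕ} (hm : m ≠ 0) (hn : n ≠ 0) (hmQ : (m : ℝ) ≤ Q)
    (hnQ : (n : ℝ) ≤ Q) (h : m ≠ n) : 1 ≤ Q * |Real.log n - Real.log m| := by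
  wlog hlt : m < n generalizing m n with H
  · have h1 := H hn hm hnQ hmQ h.symm (lt_of_le_of_ne (not_lt.1 hlt) h.symm)
    rw [abs_sub_comm] at h1
    exact h1
  have hm0 : (0 : ℝ) < m := by exact_mod_cast Nat.pos_of_ne_zero hm
  have hn0 : (0 : ℝ) < n := by exact_mod_cast Nat.pos_of_ne_zero hn
  have h2 : (m : ℝ) + 1 ≤ n := by exact_mod_cast hlt
  have h3 : 1 - ((n : ℝ) / m)⁻¹ ≤ Real.log ((n : ℝ) / m) :=
    Real.one_sub_inv_le_log_of_pos (div_pos hn0 hm0)
  rw [Real.log_div hn0.ne' hm0.ne', inv_div] at h3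
  have h4 : 1 / (n : ℝ) ≤ 1 - (m : ℝ) / n := by
    rw [div_le_iff₀ hn0, sub_mul, div_mul_cancel₀ _ hn0.ne']
    linarith
  have h5 : 1 / (n : ℝ) ≤ |Real.log n - Real.log m| := (h4.trans h3).trans (le_abs_self _)
  have h6 : 1 ≤ (n : ℝ) * |Real.log n - Real.log m| := by
    have := mul_le_mul_of_nonneg_left h5 hn0.le
    rwa [mul_one_div_cancel hn0.ne'] at this
  exact h6.trans (mul_le_mul_of_nonneg_right hnQ (abs_nonneg _))

private lemma MV0_osc {μ : ℝ} (hμ : μ ≠ 0) (a b : ℝ) :
    ‖∫ t in a..b, cexp (((μ : ℂ) * I) * t)‖ ≤ 2 / |μ| := by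
  have hc : (μ : ℂ) * I ≠ 0 := mul_ne_zero (by exact_mod_cast hμ) I_ne_zero
  rw [integral_exp_mul_complex hc, norm_div, norm_mul, norm_I, mul_one, Complex.norm_real,
    Real.norm_eq_abs]
  refine div_le_div_of_nonneg_right ?_ (abs_nonneg _)
  refine (norm_sub_le _ _).trans ?_
  have h1 : ∀ x : ℝ, ‖cexp ((μ : ℂ) * I * x)‖ = 1 := by
    intro x
    have h2 : (μ : ℂ) * I * x = ((μ * x : ℝ) : ℂ) * I := by
      push_cast
      ring
    rw [h2, Complex.norm_exp_ofReal_mul_I]
  rw [h1, h1]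
  norm_num

theorem mv0 {S : Set ℕ} {Q B : ℝ} {f : (ℕ →*₀ ℂ) → ℂ} (hf : IsDP S Q B f) (hQ : 1 ≤ Q)
    {T : ℝ} (hT : 0 ≤ T) :
    |(∫ t in T..(2 * T), ‖f (nC (1 / 2 + t * I))‖ ^ 2) - T * ∫ w, ‖f (nX 0 w)‖ ^ 2 ∂mu| ≤
      4 * Q * B ^ 2 := by
  classical
  obtain ⟨F, a, h1, h2, h3⟩ := hf
  set c : ℕ → ℝ := fun n => a n * (n : ℝ) ^ (-(1 / 2 : ℝ)) with hc
  -- the mean value of the random model
  have hX : ∫ w, ‖f (nX 0 w)‖ ^ 2 ∂mu = ∑ n ∈ F, c n ^ 2 := by
    have h4 : ∀ w : Om, f (nX 0 w) = ∑ n ∈ F, (c n : ℂ) * XX w n := by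
      intro w
      rw [h3]
      refine Finset.sum_congr rfl fun n hn => ?_
      rw [nX_apply 0 w (h1 n hn).1, hc]
      push_cast
      rw [Complex.ofReal_cpow (Nat.cast_nonneg n)]
      push_cast
      rw [add_zero]
      ring
    simp_rw [h4]
    rw [sum_sq F (fun n hn => (h1 n hn).1) (fun n => (c n : ℂ))]
    refine Finset.sum_congr rfl fun n _ => ?_
    rw [Complex.norm_real, Real.norm_eq_abs, sq_abs]
  -- the values on the critical line
  have hC : ∀ t : ℝ, f (nC (1 / 2 + t * I)) =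
      ∑ n ∈ F, (c n : ℂ) * cexp (((-Real.log n : ℝ) : ℂ) * I * t) := by
    intro t
    rw [h3]
    refine Finset.sum_congr rfl fun n hn => ?_
    have hn0 : (n : ℂ) ≠ 0 := by exact_mod_cast (h1 n hn).1
    rw [nC_apply _ (h1 n hn).1, hc]
    push_cast
    rw [Complex.ofReal_cpow (Nat.cast_nonneg n)]
    push_cast
    rw [neg_add, Complex.cpow_add _ _ hn0, mul_assoc]
    congr 2
    rw [Complex.cpow_def_of_ne_zero hn0, ← Complex.natCast_log]
    congr 1
    ring
  have hsq : ∀ t : ℝ, ((‖f (nC (1 / 2 + t * I))‖ ^ 2 : ℝ) : ℂ) =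
      ∑ m ∈ F, ∑ n ∈ F, ((c m * c n : ℝ) : ℂ) *
        cexp (((Real.log n - Real.log m : ℝ) : ℂ) * I * t) := by
    intro t
    rw [Complex.ofReal_pow, ← Complex.mul_conj', hC, map_sum, Finset.sum_mul_sum]
    refine Finset.sum_congr rfl fun m _ => Finset.sum_congr rfl fun n _ => ?_
    rw [map_mul, Complex.conj_ofReal, ← Complex.exp_conj]
    have h5 : conj (((-Real.log n : ℝ) : ℂ) * I * t) = ((Real.log n : ℝ) : ℂ) * I * t := by
      rw [map_mul, map_mul, Complex.conj_ofReal, Complex.conj_I, Complex.conj_ofReal]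
      push_cast
      ring
    rw [h5]
    have h6 : ((Real.log n - Real.log m : ℝ) : ℂ) * I * t =
        ((-Real.log m : ℝ) : ℂ) * I * t + ((Real.log n : ℝ) : ℂ) * I * t := by
      push_cast
      ring
    rw [h6, Complex.exp_add]
    push_cast
    ring
  have hcont : ∀ m n : ℕ, Continuous fun t : ℝ => ((c m * c n : ℝ) : ℂ) *
      cexp (((Real.log n - Real.log m : ℝ) : ℂ) * I * t) := by
    intro m n
    fun_prop
  have hint : ((∫ t in T..(2 * T), ‖f (nC (1 / 2 + t * I))‖ ^ 2 : ℝ) : ℂ) =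
      ∑ m ∈ F, ∑ n ∈ F, ((c m * c n : ℝ) : ℂ) *
        ∫ t in T..(2 * T), cexp (((Real.log n - Real.log m : ℝ) : ℂ) * I * t) := by
    rw [← intervalIntegral.integral_ofReal]
    simp_rw [hsq]
    rw [intervalIntegral.integral_finsetSum]
    · refine Finset.sum_congr rfl fun m _ => ?_
      rw [intervalIntegral.integral_finsetSum]
      · refine Finset.sum_congr rfl fun n _ => ?_
        rw [intervalIntegral.integral_const_mul]
      · intro n _
        exact (hcont m n).intervalIntegrable _ _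
    · intro m _
      exact (continuous_finsetSum _ fun n _ => hcont m n).intervalIntegrable _ _
  have hdiag : ((T * ∑ n ∈ F, c n ^ 2 : ℝ) : ℂ) =
      ∑ m ∈ F, ∑ n ∈ F, ((c m * c n : ℝ) : ℂ) * (if m = n then (T : ℂ) else 0) := by
    push_cast
    rw [Finset.mul_sum]
    refine Finset.sum_congr rfl fun m hm => ?_
    rw [Finset.sum_eq_single m]
    · rw [if_pos rfl]
      ring
    · intro n _ hne
      rw [if_neg (Ne.symm hne), mul_zero]
    · intro h
      exact absurd hm h
  have hB : 0 ≤ B := le_trans (Finset.sum_nonneg fun n _ => abs_nonneg (a n)) h2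
  have hcn : ∀ n ∈ F, |c n| ≤ |a n| := by
    intro n hn
    rw [hc]
    beta_reduce
    rw [abs_mul]
    have h4 : (1 : ℝ) ≤ n := by exact_mod_cast Nat.one_le_iff_ne_zero.2 (h1 n hn).1
    have h5 : |(n : ℝ) ^ (-(1 / 2 : ℝ))| ≤ 1 := by
      rw [abs_of_nonneg (by positivity)]
      exact Real.rpow_le_one_of_one_le_of_nonpos h4 (by norm_num)
    exact mul_le_of_le_one_right (abs_nonneg _) h5
  have hcS : ∑ n ∈ F, |c n| ≤ B := (Finset.sum_le_sum hcn).trans h2
  have hkey : ‖((∫ t in T..(2 * T), ‖f (nC (1 / 2 + t * I))‖ ^ 2 : ℝ) : ℂ) -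
      ((T * ∑ n ∈ F, c n ^ 2 : ℝ) : ℂ)‖ ≤ 2 * Q * B ^ 2 := by
    rw [hint, hdiag, ← Finset.sum_sub_distrib]
    simp_rw [← Finset.sum_sub_distrib, ← mul_sub]
    calc ‖∑ m ∈ F, ∑ n ∈ F, ((c m * c n : ℝ) : ℂ) *
          ((∫ t in T..(2 * T), cexp (((Real.log n - Real.log m : ℝ) : ℂ) * I * t)) -
            if m = n then (T : ℂ) else 0)‖
        ≤ ∑ m ∈ F, ∑ n ∈ F, |c m| * |c n| * (2 * Q) := by
          refine (norm_sum_le _ _).trans (Finset.sum_le_sum fun m hm => ?_)
          refine (norm_sum_le _ _).trans (Finset.sum_le_sum fun n hn => ?_)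
          rw [norm_mul, Complex.norm_real, Real.norm_eq_abs, abs_mul]
          refine mul_le_mul_of_nonneg_left ?_ (mul_nonneg (abs_nonneg _) (abs_nonneg _))
          by_cases hmn : m = n
          · subst hmn
            rw [if_pos rfl]
            simp only [sub_self, Complex.ofReal_zero, zero_mul, Complex.exp_zero,
              intervalIntegral.integral_const, Complex.real_smul, mul_one]
            have h7 : (((2 * T - T : ℝ) : ℂ) - (T : ℂ)) = 0 := by
              push_cast
              ring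
            rw [h7, norm_zero]
            linarith
          · rw [if_neg hmn, sub_zero]
            have h8 := MV0_log (h1 m hm).1 (h1 n hn).1 (h1 m hm).2.2 (h1 n hn).2.2 hmn
            have h9 : 0 < |Real.log n - Real.log m| := by
              rcases (abs_nonneg (Real.log n - Real.log m)).eq_or_lt with h0 | h0
              · rw [← h0, mul_zero] at h8
                linarith
              · exact h0
            refine (MV0_osc (abs_pos.1 h9) _ _).trans ?_
            rw [div_le_iff₀ h9]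
            nlinarith
      _ = (∑ n ∈ F, |c n|) ^ 2 * (2 * Q) := by
          rw [sq, Finset.sum_mul_sum, Finset.sum_mul]
          refine Finset.sum_congr rfl fun m _ => ?_
          rw [Finset.sum_mul]
      _ ≤ B ^ 2 * (2 * Q) := by
          refine mul_le_mul_of_nonneg_right ?_ (by linarith)
          exact pow_le_pow_left₀ (Finset.sum_nonneg fun n _ => abs_nonneg _) hcS 2
      _ = 2 * Q * B ^ 2 := by ring
  rw [← Complex.ofReal_sub, Complex.norm_real, Real.norm_eq_abs] at hkey
  rw [hX]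
  refine hkey.trans ?_
  have : 0 ≤ Q * B ^ 2 := by positivity
  linarith

end Pool.Agent.GH
end
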