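import Pool.Agent.Lib.MP_69b2e4_nt.GH.Defs
import Pool.Agent.Lib.MP_69b2e4_nt.GH.Basic

section

/-! TASK Grow. Growth of the zeta function.
Proof. For `Re s > 0`, `s ≠ 1` and every integer `N ≥ 1`: `ζ(s) = ∑_{n≤N} n^{-s} + N^{1-s}/(s-1) - s ∫_N^∞ {x} x^{-s-1} dx`. For `Re s > 1` this is Abel summation
(Mathlib: `LSeries_eq_mul_integral`, `ZetaAsymptotics`, or sum over `n > N` of `∫_n^{n+1} (x^{-s} - n^{-s}) dx`), and both sides are analytic in `Re s > 0` minus `{1}` (identity theorem;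
the integral is `∑_{n≥N} ∫_n^{n+1} (x-n) x^{-s-1} dx`, locally uniformly convergent). With `σ = Re s ∈ [1/2,2]`, `|t| ≥ 1`, `N = ⌈|t|⌉`:
`∑ n^{-σ} ≤ ∑ n^{-1/2} ≤ 2 N^{1/2}`, `N^{1-σ}/|s-1| ≤ N^{1/2}`, `|s| N^{-σ}/σ ≤ C |t| N^{-1/2}`. Total `≤ C |t|^{1/2}`.
(Any bound `≤ C|t|^{4/5}` would also be enough for the applications; keep the statement if possible, otherwise tell helper14.) -/

set_option autoImplicit false

namespace Pool.Agent.GH

open Complex MeasureTheory Finset
open scoped Real ComplexConjugate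

/-- The terms of the error series. -/
private noncomputable def Grow_u (n : ℕ) (s : ℂ) : ℂ :=
  ((n : ℂ) + 1) ^ (-s) - (((n : ℂ) + 1) ^ (1 - s) - (n : ℂ) ^ (1 - s)) / (1 - s)

private lemma Grow_deriv (c : ℂ) {x : ℝ} (hx : 0 < x) :
    HasDerivAt (fun y : ℝ => (y : ℂ) ^ c) (c * (x : ℂ) ^ (c - 1)) x := by
  have h0 : (x : ℂ) ∈ slitPlane := by
    rw [Complex.mem_slitPlane_iff]
    left
    simpa using hx
  have h1 := ((hasDerivAt_id (x : ℂ)).cpow_const (c := c) (by simpa using h0)).comp_ofReal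
  simpa using h1

private lemma Grow_u_bound (n : ℕ) (hn : 1 ≤ n) (s : ℂ) (hs0 : 0 < s.re) (hs1 : s ≠ 1) :
    ‖Grow_u n s‖ ≤ ‖s‖ * (n : ℝ) ^ (-s.re - 1) := by
  have hn' : (0 : ℝ) < n := by exact_mod_cast hn
  have h1s : (1 : ℂ) - s ≠ 0 := sub_ne_zero.mpr hs1.symm
  have hconv : Convex ℝ (Set.Icc (n : ℝ) (n + 1)) := convex_Icc _ _
  have hpos : ∀ x ∈ Set.Icc (n : ℝ) (n + 1), 0 < x := fun x hx => hn'.trans_le hx.1
  -- the first function
  have hf : ∀ x ∈ Set.Icc (n : ℝ) (n + 1),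
      ‖(((n + 1 : ℝ) : ℂ)) ^ (-s) - (x : ℂ) ^ (-s)‖ ≤ ‖s‖ * (n : ℝ) ^ (-s.re - 1) := by
    intro x hx
    have h1 := Convex.norm_image_sub_le_of_norm_hasDerivWithin_le
      (f := fun y : ℝ => (y : ℂ) ^ (-s)) (f' := fun y : ℝ => (-s) * (y : ℂ) ^ (-s - 1))
      (C := ‖s‖ * (n : ℝ) ^ (-s.re - 1)) (s := Set.Icc (n : ℝ) (n + 1))
      (fun y hy => (Grow_deriv (-s) (hpos y hy)).hasDerivWithinAt)
      (fun y hy => by
        rw [norm_mul, norm_neg, Complex.norm_cpow_eq_rpow_re_of_pos (hpos y hy)]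
        refine mul_le_mul_of_nonneg_left ?_ (norm_nonneg _)
        have h2 : (-s - 1).re = -s.re - 1 := by simp
        rw [h2]
        exact Real.rpow_le_rpow_of_nonpos hn' hy.1 (by linarith))
      hconv hx (Set.right_mem_Icc.mpr (by linarith))
    refine h1.trans ?_
    have h3 : ‖(n + 1 : ℝ) - x‖ ≤ 1 := by
      rw [Real.norm_eq_abs, abs_le]
      constructor <;> linarith [hx.1, hx.2]
    calc ‖s‖ * (n : ℝ) ^ (-s.re - 1) * ‖(n + 1 : ℝ) - x‖
        ≤ ‖s‖ * (n : ℝ) ^ (-s.re - 1) * 1 := mul_le_mul_of_nonneg_left h3 (by positivity)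
      _ = _ := mul_one _
  have h2 := Convex.norm_image_sub_le_of_norm_hasDerivWithin_le
    (f := fun y : ℝ => (y : ℂ) * (((n + 1 : ℝ) : ℂ)) ^ (-s) - (y : ℂ) ^ (1 - s) / (1 - s))
    (f' := fun y : ℝ => (((n + 1 : ℝ) : ℂ)) ^ (-s) - (y : ℂ) ^ (-s))
    (C := ‖s‖ * (n : ℝ) ^ (-s.re - 1)) (s := Set.Icc (n : ℝ) (n + 1))
    (fun y hy => by
      have h3 := (Grow_deriv (1 - s) (hpos y hy)).div_const (1 - s)
      have h4 : (1 - s) * (y : ℂ) ^ (1 - s - 1) / (1 - s) = (y : ℂ) ^ (-s) := by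
        rw [mul_comm, mul_div_assoc, div_self h1s, mul_one]
        congr 1
        ring
      rw [h4] at h3
      have h5 : HasDerivAt (fun y : ℝ => (y : ℂ) * (((n + 1 : ℝ) : ℂ)) ^ (-s))
          ((((n + 1 : ℝ) : ℂ)) ^ (-s)) y := by
        have h6 := ((hasDerivAt_id (y : ℂ)).mul_const ((((n + 1 : ℝ) : ℂ)) ^ (-s))).comp_ofReal
        simpa using h6
      exact (h5.sub h3).hasDerivWithinAt)
    hf hconv (Set.left_mem_Icc.mpr (by linarith)) (Set.right_mem_Icc.mpr (by linarith))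
  have h7 : ((((n + 1 : ℝ) : ℝ) : ℂ) * (((n + 1 : ℝ) : ℂ)) ^ (-s) -
      (((n + 1 : ℝ) : ℝ) : ℂ) ^ (1 - s) / (1 - s)) - (((n : ℝ) : ℂ) * (((n + 1 : ℝ) : ℂ)) ^ (-s) -
        ((n : ℝ) : ℂ) ^ (1 - s) / (1 - s)) = Grow_u n s := by
    unfold Grow_u
    push_cast
    ring
  have h8 : ‖(n + 1 : ℝ) - n‖ = 1 := by
    rw [add_sub_cancel_left, norm_one]
  rw [h8, mul_one] at h2
  rw [← h7]
  exact h2

/-- The continued formula. -/
private noncomputable def Grow_G (N : ℕ) (s : ℂ) : ℂ :=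
  ∑ n ∈ range N, 1 / ((n : ℂ) + 1) ^ s + (N : ℂ) ^ (1 - s) / (s - 1) + ∑' k : ℕ, Grow_u (k + N) s

private lemma Grow_summable (N : ℕ) (R : ℝ) {a : ℝ} (ha : 0 < a) :
    Summable (fun k : ℕ => R * (((k + N : ℕ) : ℝ)) ^ (-a - 1)) := by
  have h1 : Summable (fun n : ℕ => (n : ℝ) ^ (-a - 1)) := by
    rw [Real.summable_nat_rpow]
    linarith
  exact ((summable_nat_add_iff N).mpr h1).mul_left R

private lemma Grow_id (N : ℕ) (hN : 1 ≤ N) (s : ℂ) (hs : 1 < s.re) :
    riemannZeta s = Grow_G N s := by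
  have hs1 : s ≠ 1 := by
    rintro rfl
    simp at hs
  have h1s : (1 : ℂ) - s ≠ 0 := sub_ne_zero.mpr hs1.symm
  have hsum : Summable (fun n : ℕ => 1 / ((n : ℂ) + 1) ^ s) := by
    have h1 := (Complex.summable_one_div_nat_cpow (p := s)).mpr hs
    have h2 := (summable_nat_add_iff 1).mpr h1
    refine h2.congr fun n => ?_
    push_cast
    rfl
  rw [zeta_eq_tsum_one_div_nat_add_one_cpow hs, ← hsum.sum_add_tsum_nat_add N]
  unfold Grow_G
  rw [add_assoc]
  congr 1
  have hsum1 : Summable (fun k : ℕ => 1 / (((k + N : ℕ) : ℂ) + 1) ^ s) :=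
    (summable_nat_add_iff N).mpr hsum
  have hsum2 : Summable (fun k : ℕ => Grow_u (k + N) s) := by
    refine Summable.of_norm_bounded (Grow_summable N ‖s‖ (a := s.re) (by linarith)) fun k => ?_
    exact Grow_u_bound (k + N) (by omega) s (by linarith) hs1
  have hdiff : ∀ k : ℕ, 1 / (((k + N : ℕ) : ℂ) + 1) ^ s - Grow_u (k + N) s =
      (fun k : ℕ => (((k + N : ℕ) : ℂ)) ^ (1 - s) / (1 - s)) (k + 1) -
        (fun k : ℕ => (((k + N : ℕ) : ℂ)) ^ (1 - s) / (1 - s)) k := by
    intro k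
    unfold Grow_u
    rw [Complex.cpow_neg]
    push_cast
    have h1 : (k : ℂ) + 1 + N = k + N + 1 := by ring
    rw [h1]
    ring
  have hsum3 := hsum1.sub hsum2
  have ht1 := hsum3.hasSum.tendsto_sum_nat
  have ht2 : Filter.Tendsto (fun n : ℕ => ∑ k ∈ range n,
      (1 / (((k + N : ℕ) : ℂ) + 1) ^ s - Grow_u (k + N) s)) Filter.atTop
      (nhds (0 / (1 - s) - (N : ℂ) ^ (1 - s) / (1 - s))) := by
    have h1 : (fun n : ℕ => ∑ k ∈ range n,
        (1 / (((k + N : ℕ) : ℂ) + 1) ^ s - Grow_u (k + N) s)) =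
        fun n : ℕ => (((n + N : ℕ) : ℂ)) ^ (1 - s) / (1 - s) - (N : ℂ) ^ (1 - s) / (1 - s) := by
      funext n
      rw [Finset.sum_congr rfl fun k _ => hdiff k]
      refine (Finset.sum_range_sub
        (fun k : ℕ => (((k + N : ℕ) : ℂ)) ^ (1 - s) / (1 - s)) n).trans ?_
      simp
    rw [h1]
    refine Filter.Tendsto.sub_const (Filter.Tendsto.div_const ?_ _) _
    rw [tendsto_zero_iff_norm_tendsto_zero]
    have h2 : ∀ n : ℕ, ‖(((n + N : ℕ) : ℂ)) ^ (1 - s)‖ = (((n + N : ℕ) : ℝ)) ^ (-(s.re - 1)) := by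
      intro n
      have h3 : (0 : ℝ) < ((n + N : ℕ) : ℝ) := by
        have : 0 < n + N := by omega
        exact_mod_cast this
      have h4 := Complex.norm_cpow_eq_rpow_re_of_pos h3 (1 - s)
      have h5 : (1 - s).re = -(s.re - 1) := by simp
      rw [h5] at h4
      rw [← h4]
      push_cast
      rfl
    simp_rw [h2]
    exact (tendsto_rpow_neg_atTop (by linarith : 0 < s.re - 1)).comp
      (tendsto_natCast_atTop_atTop.comp (Filter.tendsto_add_atTop_nat N))
  have heq := tendsto_nhds_unique ht1 ht2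
  rw [hsum1.tsum_sub hsum2] at heq
  have h9 : (N : ℂ) ^ (1 - s) / (s - 1) = 0 / (1 - s) - (N : ℂ) ^ (1 - s) / (1 - s) := by
    have h10 : s - 1 ≠ 0 := sub_ne_zero.mpr hs1
    field_simp
    ring
  rw [h9, ← heq]
  ring

private lemma Grow_diff_u (n : ℕ) (hn : 1 ≤ n) (U : Set ℂ) (hU : ∀ s ∈ U, s ≠ 1) :
    DifferentiableOn ℂ (Grow_u n) U := by
  have hn0 : (n : ℂ) ≠ 0 := by
    have : n ≠ 0 := by omega
    exact_mod_cast this
  have hn1 : (n : ℂ) + 1 ≠ 0 := by exact_mod_cast Nat.succ_ne_zero n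
  intro s hs
  apply DifferentiableAt.differentiableWithinAt
  have h1s : (1 : ℂ) - s ≠ 0 := sub_ne_zero.mpr (hU s hs).symm
  unfold Grow_u
  have hid : DifferentiableAt ℂ (fun s : ℂ => s) s := differentiableAt_id
  refine DifferentiableAt.sub ?_ (DifferentiableAt.div (DifferentiableAt.sub ?_ ?_) ?_ h1s)
  · exact (hid.neg).const_cpow (Or.inl hn1)
  · exact (hid.const_sub 1).const_cpow (Or.inl hn1)
  · exact (hid.const_sub 1).const_cpow (Or.inl hn0)
  · exact hid.const_sub 1

private lemma Grow_eq (N : ℕ) (hN : 1 ≤ N) (s : ℂ) (hs : 1 / 4 < s.re) (ht : s.im ≠ 0) :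
    riemannZeta s = Grow_G N s := by
  -- the sign of the imaginary part
  obtain ⟨e, he, hes⟩ : ∃ e : ℝ, (e = 1 ∨ e = -1) ∧ 0 < e * s.im := by
    rcases lt_or_gt_of_ne ht with h | h
    · exact ⟨-1, Or.inr rfl, by linarith⟩
    · exact ⟨1, Or.inl rfl, by linarith⟩
  set R : ℝ := ‖s‖ + 4 with hR
  set U : Set ℂ := ({z | 1 / 4 < z.re} ∩ {z | 0 < e * z.im}) ∩ Metric.ball 0 R with hU
  have hUo : IsOpen U := by
    refine IsOpen.inter (IsOpen.inter ?_ ?_) Metric.isOpen_ball
    · exact isOpen_lt continuous_const Complex.continuous_re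
    · exact isOpen_lt continuous_const (continuous_const.mul Complex.continuous_im)
  have hUc : Convex ℝ U := by
    refine Convex.inter (Convex.inter ?_ ?_) (convex_ball _ _)
    · exact convex_halfSpace_re_gt _
    · intro x hx y hy a b ha hb hab
      simp only [Set.mem_setOf_eq] at hx hy ⊢
      rw [Complex.add_im, Complex.smul_im, Complex.smul_im, smul_eq_mul, smul_eq_mul]
      have h1 : e * (a * x.im + b * y.im) = a * (e * x.im) + b * (e * y.im) := by ring
      rw [h1]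
      rcases ha.eq_or_lt with rfl | ha'
      · have : b = 1 := by linarith
        rw [this]
        linarith
      · have h2 : 0 < a * (e * x.im) := mul_pos ha' hx
        have h3 : 0 ≤ b * (e * y.im) := mul_nonneg hb hy.le
        linarith
  have hne : ∀ z ∈ U, z ≠ 1 := by
    rintro z hz rfl
    have := hz.1.2
    simp at this
  have hzU : DifferentiableOn ℂ riemannZeta U := fun z hz =>
    (differentiableAt_riemannZeta (hne z hz)).differentiableWithinAt
  have hGU : DifferentiableOn ℂ (Grow_G N) U := by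
    unfold Grow_G
    have hN0 : (N : ℂ) ≠ 0 := by
      have : N ≠ 0 := by omega
      exact_mod_cast this
    refine DifferentiableOn.add (DifferentiableOn.add ?_ ?_) ?_
    · refine DifferentiableOn.fun_sum fun n _ => ?_
      have hn1 : (n : ℂ) + 1 ≠ 0 := by exact_mod_cast Nat.succ_ne_zero n
      intro z _
      apply DifferentiableAt.differentiableWithinAt
      refine DifferentiableAt.div (differentiableAt_const _) ?_ ?_
      · exact (differentiableAt_id).const_cpow (Or.inl hn1)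
      · rw [Complex.cpow_def_of_ne_zero hn1]
        exact Complex.exp_ne_zero _
    · intro z hz
      apply DifferentiableAt.differentiableWithinAt
      have hid : DifferentiableAt ℂ (fun s : ℂ => s) z := differentiableAt_id
      refine DifferentiableAt.div ((hid.const_sub 1).const_cpow (Or.inl hN0)) (hid.sub_const 1) ?_
      exact sub_ne_zero.mpr (hne z hz)
    · refine differentiableOn_tsum_of_summable_norm
        (Grow_summable N R (a := 1 / 4) (by norm_num))
        (fun k => Grow_diff_u (k + N) (by omega) U hne) hUo fun k z hz => ?_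
      have h1 : (1 : ℝ) / 4 < z.re := hz.1.1
      have h2 : ‖z‖ < R := by simpa using hz.2
      refine (Grow_u_bound (k + N) (by omega) z (by linarith) (hne z hz)).trans ?_
      refine mul_le_mul h2.le ?_ (by positivity) (by positivity)
      refine Real.rpow_le_rpow_of_exponent_le ?_ (by linarith)
      have : 1 ≤ k + N := by omega
      exact_mod_cast this
  have hz0 : (2 + e * I : ℂ) ∈ U := by
    refine ⟨⟨?_, ?_⟩, ?_⟩
    · simp
      norm_num
    · simp only [Set.mem_setOf_eq]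
      simp
      rcases he with rfl | rfl <;> norm_num
    · rw [mem_ball_zero_iff]
      have h1 : ‖(2 + e * I : ℂ)‖ ≤ 2 + 1 := by
        refine (norm_add_le _ _).trans ?_
        have h2 : ‖(e : ℂ) * I‖ = 1 := by
          rw [norm_mul, Complex.norm_I, mul_one, Complex.norm_real]
          rcases he with rfl | rfl <;> simp
        rw [h2]
        norm_num
      have h3 := norm_nonneg s
      linarith
  have hev : riemannZeta =ᶠ[nhds (2 + e * I : ℂ)] Grow_G N := by
    have h1 : {z : ℂ | 1 < z.re} ∈ nhds (2 + e * I : ℂ) := by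
      refine (isOpen_lt continuous_const Complex.continuous_re).mem_nhds ?_
      simp
    filter_upwards [h1] with z hz
    exact Grow_id N hN z hz
  have hfin := (hzU.analyticOnNhd hUo).eqOn_of_preconnected_of_eventuallyEq
    (hGU.analyticOnNhd hUo) hUc.isPreconnected hz0 hev
  refine hfin ⟨⟨hs, hes⟩, ?_⟩
  rw [mem_ball_zero_iff]
  linarith

private lemma Grow_sum1 (N : ℕ) : ∑ n ∈ range N, 1 / √((n : ℝ) + 1) ≤ 2 * √(N : ℝ) := by
  induction N with
  | zero => simp
  | succ n ih =>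
    rw [Finset.sum_range_succ]
    have h0 : (0 : ℝ) ≤ n := Nat.cast_nonneg n
    set a := √(n : ℝ) with ha
    set b := √((n : ℝ) + 1) with hb
    have hb0 : 0 < b := Real.sqrt_pos.mpr (by linarith)
    have ha0 : 0 ≤ a := Real.sqrt_nonneg _
    have ha2 : a * a = n := Real.mul_self_sqrt h0
    have hb2 : b * b = n + 1 := Real.mul_self_sqrt (by linarith)
    push_cast
    rw [← hb]
    have h1 : 1 / b ≤ 2 * b - 2 * a := by
      rw [div_le_iff₀ hb0]
      nlinarith [sq_nonneg (a - b)]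
    linarith

private lemma Grow_step (n : ℝ) (hn : 1 ≤ n) :
    n ^ (-(3 / 2) : ℝ) ≤ 6 * (1 / √n) - 6 * (1 / √(n + 1)) := by
  set a := √n with ha
  set b := √(n + 1) with hb
  have ha0 : 0 < a := Real.sqrt_pos.mpr (by linarith)
  have hb0 : 0 < b := Real.sqrt_pos.mpr (by linarith)
  have ha2 : a * a = n := Real.mul_self_sqrt (by linarith)
  have hb2 : b * b = n + 1 := Real.mul_self_sqrt (by linarith)
  have h1 : n ^ (-(3 / 2) : ℝ) = 1 / (a * a * a) := by
    rw [ha2, Real.rpow_neg (by linarith), one_div]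
    congr 1
    have h2 : (3 / 2 : ℝ) = 1 + 1 / 2 := by norm_num
    rw [h2, Real.rpow_add (by linarith), Real.rpow_one, ← Real.sqrt_eq_rpow]
  rw [h1]
  have hb3 : b ≤ 3 / 2 * a := by
    have : b * b ≤ 3 / 2 * a * (3 / 2 * a) := by nlinarith
    exact abs_le_of_sq_le_sq' (by nlinarith) (by positivity) |>.2
  have h3 : 6 * (1 / a) - 6 * (1 / b) = 6 / (a * b * (a + b)) := by
    have hab : 0 < a + b := by linarith
    have h4 : (b - a) * (a + b) = 1 := by nlinarith
    field_simp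
    nlinarith
  rw [h3, div_le_div_iff₀ (by positivity) (by positivity)]
  have h5 : a * b * (a + b) ≤ a * (3 / 2 * a) * (a + 3 / 2 * a) := by gcongr
  nlinarith [mul_pos (mul_pos ha0 ha0) ha0]

private lemma Grow_tail (N : ℕ) (hN : 1 ≤ N) :
    ∑' k : ℕ, (((k + N : ℕ) : ℝ)) ^ (-(3 / 2) : ℝ) ≤ 6 / √(N : ℝ) := by
  refine Real.tsum_le_of_sum_range_le (fun k => by positivity) fun n => ?_
  have h1 : ∀ k ∈ range n, (((k + N : ℕ) : ℝ)) ^ (-(3 / 2) : ℝ) ≤
      (fun k : ℕ => 6 * (1 / √(((k + N : ℕ) : ℝ)))) k -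
        (fun k : ℕ => 6 * (1 / √(((k + N : ℕ) : ℝ)))) (k + 1) := by
    intro k _
    have h2 := Grow_step (((k + N : ℕ) : ℝ)) (by
      have : 1 ≤ k + N := by omega
      exact_mod_cast this)
    have h3 : (((k + 1 + N : ℕ) : ℝ)) = ((k + N : ℕ) : ℝ) + 1 := by push_cast; ring
    simp only []
    rw [h3]
    exact h2
  refine (Finset.sum_le_sum h1).trans ?_
  rw [Finset.sum_range_sub']
  have h4 : 0 ≤ 6 * (1 / √(((n + N : ℕ) : ℝ))) := by positivity
  simp only [Nat.zero_add]
  rw [mul_one_div] at *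
  linarith [mul_one_div (6 : ℝ) (√((n + N : ℕ) : ℝ))]

theorem zeta_growth : ∃ C : ℝ, 1 ≤ C ∧ ∀ s : ℂ, 1 / 2 ≤ s.re → s.re ≤ 2 → 1 ≤ |s.im| →
    ‖riemannZeta s‖ ≤ C * |s.im| ^ (1 / 2 : ℝ) := by
  refine ⟨24, by norm_num, fun s hs1 hs2 ht => ?_⟩
  have hne : s ≠ 1 := by
    rintro rfl
    simp at ht
    linarith
  set t := |s.im| with hT
  set N := ⌈t⌉₊ with hN
  have hN1 : 1 ≤ N := Nat.one_le_iff_ne_zero.mpr (by
    rw [hN, Ne, Nat.ceil_eq_zero]
    linarith)
  have hNt : t ≤ N := Nat.le_ceil t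
  have hNt2 : (N : ℝ) < t + 1 := Nat.ceil_lt_add_one (by linarith)
  rw [Grow_eq N hN1 s (by linarith) (by
    intro h
    rw [hT, h, abs_zero] at ht
    linarith)]
  have hN0 : (0 : ℝ) < N := by linarith
  have hsqN : √(N : ℝ) ≤ 3 / 2 * √t := by
    rw [Real.sqrt_le_left (by positivity)]
    rw [mul_pow, Real.sq_sqrt (by linarith)]
    linarith
  have hsqt : 0 < √t := Real.sqrt_pos.mpr (by linarith)
  have hsqt2 : √t * √t = t := Real.mul_self_sqrt (by linarith)
  rw [← Real.sqrt_eq_rpow]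
  -- first part
  have hA : ‖∑ n ∈ range N, 1 / ((n : ℂ) + 1) ^ s‖ ≤ 3 * √t := by
    refine (norm_sum_le _ _).trans ?_
    have h1 : ∀ n ∈ range N, ‖1 / ((n : ℂ) + 1) ^ s‖ ≤ 1 / √((n : ℝ) + 1) := by
      intro n _
      have h2 : (0 : ℝ) < (n : ℝ) + 1 := by positivity
      have h3 := Complex.norm_cpow_eq_rpow_re_of_pos h2 s
      rw [norm_div, norm_one]
      have h4 : ((n : ℂ) + 1) = (((n : ℝ) + 1 : ℝ) : ℂ) := by push_cast; rfl
      rw [h4, h3, Real.sqrt_eq_rpow]
      refine one_div_le_one_div_of_le (by positivity) ?_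
      exact Real.rpow_le_rpow_of_exponent_le (by linarith [(Nat.cast_nonneg n : (0 : ℝ) ≤ n)]) hs1
    refine (Finset.sum_le_sum h1).trans ((Grow_sum1 N).trans ?_)
    linarith
  -- second part
  have hB : ‖(N : ℂ) ^ (1 - s) / (s - 1)‖ ≤ 3 / 2 * √t := by
    rw [norm_div]
    have h1 := Complex.norm_cpow_eq_rpow_re_of_pos hN0 (1 - s)
    have h2 : ((N : ℕ) : ℂ) = (((N : ℝ)) : ℂ) := by push_cast; rfl
    rw [h2, h1]
    have h3 : (1 - s).re = 1 - s.re := by simp
    rw [h3]
    have h4 : (N : ℝ) ^ (1 - s.re) ≤ √(N : ℝ) := by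
      rw [Real.sqrt_eq_rpow]
      exact Real.rpow_le_rpow_of_exponent_le (by exact_mod_cast hN1) (by linarith)
    have h5 : 1 ≤ ‖s - 1‖ := by
      have h6 := Complex.abs_im_le_norm (s - 1)
      have h7 : (s - 1).im = s.im := by simp
      rw [h7] at h6
      linarith
    rw [div_le_iff₀ (by linarith)]
    have h8 : 3 / 2 * √t * 1 ≤ 3 / 2 * √t * ‖s - 1‖ := mul_le_mul_of_nonneg_left h5 (by positivity)
    linarith
  -- third part
  have hC : ‖∑' k : ℕ, Grow_u (k + N) s‖ ≤ 18 * √t := by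
    have hs0 : ‖s‖ ≤ 3 * t := by
      have h1 := Complex.norm_le_abs_re_add_abs_im s
      rw [abs_of_nonneg (by linarith : 0 ≤ s.re)] at h1
      linarith
    have h1 : ∀ k : ℕ, ‖Grow_u (k + N) s‖ ≤ 3 * t * (((k + N : ℕ) : ℝ)) ^ (-(3 / 2) : ℝ) := by
      intro k
      refine (Grow_u_bound (k + N) (by omega) s (by linarith) hne).trans ?_
      refine mul_le_mul hs0 ?_ (by positivity) (by linarith)
      refine Real.rpow_le_rpow_of_exponent_le ?_ (by linarith)
      have : 1 ≤ k + N := by omega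
      exact_mod_cast this
    have h2 : Summable (fun k : ℕ => 3 * t * (((k + N : ℕ) : ℝ)) ^ (-(3 / 2) : ℝ)) := by
      have := Grow_summable N (3 * t) (a := 1 / 2) (by norm_num)
      refine this.congr fun k => ?_
      norm_num
    have h3 := tsum_of_norm_bounded h2.hasSum h1
    refine h3.trans ?_
    rw [tsum_mul_left]
    have h4 := Grow_tail N hN1
    have h5 : √t ≤ √(N : ℝ) := Real.sqrt_le_sqrt hNt
    calc 3 * t * ∑' k : ℕ, (((k + N : ℕ) : ℝ)) ^ (-(3 / 2) : ℝ)
        ≤ 3 * t * (6 / √(N : ℝ)) := mul_le_mul_of_nonneg_left h4 (by linarith)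
      _ ≤ 3 * t * (6 / √t) := by
          refine mul_le_mul_of_nonneg_left ?_ (by linarith)
          exact div_le_div_of_nonneg_left (by norm_num) hsqt h5
      _ = 18 * √t := by
          rw [mul_div_assoc', div_eq_iff hsqt.ne']
          nlinarith
  unfold Grow_G
  refine (norm_add_le _ _).trans ?_
  have h6 := norm_add_le (∑ n ∈ range N, 1 / ((n : ℂ) + 1) ^ s) ((N : ℂ) ^ (1 - s) / (s - 1))
  linarith

end Pool.Agent.GH
end

section

/-! TASK OnePrime2. The one-prime expectation of the lower bound.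
Proof. `(1-uX)^{-1} e^{cX} = ∑_n A_n X^n`, `A_n = ∑_{i+j=n} u^i c^j/j!`, `e^{dX} = ∑ d^n/n! X^n`, both absolutely convergent, so the
integral is `∑_n A_n conj(d)^n/n!`, with `A_0 = 1`, `A_1 = u + c`. For `n ≥ 2`: `‖A_n‖ ≤ ∑_{i+j=n} u^i ‖c‖^j / j!
≤ (u+‖c‖)^2 · K` with `K = K(C0)` (for `n ≥ 2` one factor of total degree 2 can be taken out: `u^i ‖c‖^j/j! ≤ (u+‖c‖)^2 · u^{i'} C0^{j'} / j'!·..`),
and `‖d‖^n/n! ≤ ‖d‖² C0^{n-2}/(n-2)!`. Sum over `n`. Only the existence of some constant `C = C(C0)` is needed.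
(Any other proof is fine, e.g. write `(1-uX)^{-1} e^{cX} = 1 + (u+c)X + X² r(X)` with `‖r‖ ≤ K (u+‖c‖)²` on the circle and
`e^{dX} = 1 + dX + X² s(X)`, `‖s‖ ≤ K‖d‖²`, `s` a power series: the cross terms `∫ (1 + (u+c) X) conj(X² s(X))` vanish and
`∫ X² r(X) conj(1 + dX)` vanish.) -/

set_option autoImplicit false

namespace Pool.Agent.GH

open Complex MeasureTheory Finset
open scoped Real ComplexConjugate

private theorem op2_mv {f : ℂ → ℂ} (hf : DifferentiableOn ℂ f (Metric.closedBall 0 1)) :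
    ∫ x : UnitAddCircle, f (AddCircle.toCircle x : ℂ)
      ∂(AddCircle.haarAddCircle : Measure UnitAddCircle) = f 0 := by
  have hd : DiffContOnCl ℂ f (Metric.ball 0 |(1 : ℝ)|) := by
    apply DifferentiableOn.diffContOnCl
    rw [abs_one, closure_ball _ one_ne_zero]
    exact hf
  have h1 := hd.circleAverage
  rw [Real.circleAverage_def] at h1
  rw [AddCircle.integral_haarAddCircle, ← UnitAddCircle.intervalIntegral_preimage 0]
  rw [← h1]
  have h2 : ∀ a : ℝ, f ((AddCircle.toCircle (a : UnitAddCircle) : Circle) : ℂ) =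
      f (circleMap 0 1 (2 * π * a)) := by
    intro a
    rw [AddCircle.toCircle_apply_mk, Circle.coe_exp, circleMap]
    congr 1
    rw [div_one]
    push_cast
    ring
  simp_rw [h2]
  rw [intervalIntegral.integral_comp_mul_left (fun θ => f (circleMap 0 1 θ)) (by positivity)]
  simp

private theorem op2_cont : Continuous fun x : UnitAddCircle => (AddCircle.toCircle x : ℂ) :=
  continuous_subtype_val.comp AddCircle.continuous_toCircle

private theorem op2_int {f : UnitAddCircle → ℂ} (hf : Continuous f) :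
    Integrable f (AddCircle.haarAddCircle : Measure UnitAddCircle) :=
  hf.integrable_of_hasCompactSupport (HasCompactSupport.of_compactSpace f)

private theorem op2_norm (x : UnitAddCircle) : ‖(AddCircle.toCircle x : ℂ)‖ = 1 := Circle.norm_coe _

private theorem op2_der {f : ℂ → ℂ} {f' : ℂ} (hf : DifferentiableOn ℂ f (Metric.closedBall 0 1))
    (h0 : f 0 = 0) (hd : HasDerivAt f f' 0) :
    ∫ x : UnitAddCircle, f (AddCircle.toCircle x : ℂ) * conj (AddCircle.toCircle x : ℂ)
      ∂(AddCircle.haarAddCircle : Measure UnitAddCircle) = f' := by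
  have h1 : DifferentiableOn ℂ (dslope f 0) (Metric.closedBall 0 1) :=
    (Complex.differentiableOn_dslope (Metric.closedBall_mem_nhds 0 one_pos)).2 hf
  have h2 := op2_mv h1
  rw [dslope_same, hd.deriv] at h2
  rw [← h2]
  refine integral_congr_ae (Filter.Eventually.of_forall fun x => ?_)
  have hne : (AddCircle.toCircle x : ℂ) ≠ 0 := by
    intro h
    have := op2_norm x
    rw [h, norm_zero] at this
    exact zero_ne_one this
  have hc : conj (AddCircle.toCircle x : ℂ) = (AddCircle.toCircle x : ℂ)⁻¹ := by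
    rw [Complex.inv_def, Complex.normSq_eq_norm_sq, op2_norm]
    simp
  change f (AddCircle.toCircle x : ℂ) * conj (AddCircle.toCircle x : ℂ) = dslope f 0 _
  rw [dslope_of_ne _ hne, slope_def_field, h0, hc, sub_zero, sub_zero, div_eq_mul_inv]

private theorem op2_split (F G : ℂ → ℂ) (a d : ℂ)
    (hF : DifferentiableOn ℂ F (Metric.closedBall 0 1))
    (hG : DifferentiableOn ℂ G (Metric.closedBall 0 1)) (hF0 : F 0 = 1) (hG0 : G 0 = 1)
    (hF' : HasDerivAt F a 0) (hG' : HasDerivAt G d 0) {B1 B2 : ℝ} (hB1 : 0 ≤ B1)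
    (hFb : ∀ z : ℂ, ‖z‖ = 1 → ‖F z - 1 - a * z‖ ≤ B1)
    (hGb : ∀ z : ℂ, ‖z‖ = 1 → ‖G z - 1 - d * z‖ ≤ B2) :
    ‖(∫ x : UnitAddCircle, F (AddCircle.toCircle x : ℂ) * conj (G (AddCircle.toCircle x : ℂ))
      ∂(AddCircle.haarAddCircle : Measure UnitAddCircle)) - 1 - a * conj d‖ ≤ B1 * B2 := by
  have hmaps : ∀ x : UnitAddCircle, (AddCircle.toCircle x : ℂ) ∈ Metric.closedBall (0 : ℂ) 1 := by
    intro x
    rw [mem_closedBall_zero_iff, op2_norm]
  have hcomp : ∀ {H : ℂ → ℂ}, DifferentiableOn ℂ H (Metric.closedBall 0 1) →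
      Continuous fun x : UnitAddCircle => H (AddCircle.toCircle x : ℂ) := fun hH =>
    hH.continuousOn.comp_continuous op2_cont hmaps
  have hR : DifferentiableOn ℂ (fun z => F z - 1 - a * z) (Metric.closedBall 0 1) :=
    (hF.sub (differentiableOn_const _)).sub (differentiableOn_id.const_mul a)
  have hS : DifferentiableOn ℂ (fun z => G z - 1 - d * z) (Metric.closedBall 0 1) :=
    (hG.sub (differentiableOn_const _)).sub (differentiableOn_id.const_mul d)
  have hR0 : (fun z => F z - 1 - a * z) 0 = 0 := by simp [hF0]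
  have hS0 : (fun z => G z - 1 - d * z) 0 = 0 := by simp [hG0]
  have hR' : HasDerivAt (fun z => F z - 1 - a * z) 0 0 := by
    have h := (hF'.sub_const 1).sub ((hasDerivAt_id (0 : ℂ)).const_mul a)
    rw [mul_one, sub_self] at h
    exact h
  have hS' : HasDerivAt (fun z => G z - 1 - d * z) 0 0 := by
    have h := (hG'.sub_const 1).sub ((hasDerivAt_id (0 : ℂ)).const_mul d)
    rw [mul_one, sub_self] at h
    exact h
  have eR0 := (op2_mv hR).trans hR0
  have eR1 := op2_der hR hR0 hR'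
  have eS0 := (op2_mv hS).trans hS0
  have eS1 := op2_der hS hS0 hS'
  have eX := op2_mv (f := fun z => z) differentiableOn_id
  have cR := hcomp hR
  have cS := hcomp hS
  beta_reduce at eR0 eR1 eS0 eS1 eX cR cS
  have cX := op2_cont
  -- the conjugate integrals
  have eS0c : ∫ x : UnitAddCircle, conj (G (AddCircle.toCircle x : ℂ) - 1 -
      d * (AddCircle.toCircle x : ℂ)) ∂(AddCircle.haarAddCircle : Measure UnitAddCircle) = 0 := by
    rw [integral_conj, eS0, map_zero]
  have eS1c : ∫ x : UnitAddCircle, (AddCircle.toCircle x : ℂ) *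
      conj (G (AddCircle.toCircle x : ℂ) - 1 - d * (AddCircle.toCircle x : ℂ))
      ∂(AddCircle.haarAddCircle : Measure UnitAddCircle) = 0 := by
    have h : ∀ x : UnitAddCircle, (AddCircle.toCircle x : ℂ) *
      conj (G (AddCircle.toCircle x : ℂ) - 1 - d * (AddCircle.toCircle x : ℂ)) =
      conj ((G (AddCircle.toCircle x : ℂ) - 1 - d * (AddCircle.toCircle x : ℂ)) *
        conj (AddCircle.toCircle x : ℂ)) := by
      intro x
      rw [map_mul, Complex.conj_conj, mul_comm]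
    simp_rw [h]
    rw [integral_conj, eS1, map_zero]
  have eXc : ∫ x : UnitAddCircle, conj (AddCircle.toCircle x : ℂ)
      ∂(AddCircle.haarAddCircle : Measure UnitAddCircle) = 0 := by
    rw [integral_conj, eX, map_zero]
  have hXX : ∀ x : UnitAddCircle, (AddCircle.toCircle x : ℂ) * conj (AddCircle.toCircle x : ℂ) = 1 := by
    intro x
    rw [Complex.mul_conj, Complex.normSq_eq_norm_sq, op2_norm]
    simp
  obtain ⟨k, hk⟩ : ∃ k : ℂ, k = 1 + a * conj d := ⟨_, rfl⟩
  have hexp : ∀ x : UnitAddCircle, F (AddCircle.toCircle x : ℂ) *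
      conj (G (AddCircle.toCircle x : ℂ)) =
      k + (a * (AddCircle.toCircle x : ℂ) + (conj d * conj (AddCircle.toCircle x : ℂ) +
      (conj (G (AddCircle.toCircle x : ℂ) - 1 - d * (AddCircle.toCircle x : ℂ)) +
      (a * ((AddCircle.toCircle x : ℂ) *
        conj (G (AddCircle.toCircle x : ℂ) - 1 - d * (AddCircle.toCircle x : ℂ))) +
      ((F (AddCircle.toCircle x : ℂ) - 1 - a * (AddCircle.toCircle x : ℂ)) +
      (conj d * ((F (AddCircle.toCircle x : ℂ) - 1 - a * (AddCircle.toCircle x : ℂ)) *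
        conj (AddCircle.toCircle x : ℂ)) +
      (F (AddCircle.toCircle x : ℂ) - 1 - a * (AddCircle.toCircle x : ℂ)) *
        conj (G (AddCircle.toCircle x : ℂ) - 1 - d * (AddCircle.toCircle x : ℂ)))))))) := by
    intro x
    simp only [map_sub, map_mul, map_one]
    rw [hk]
    linear_combination (a * conj d) * hXX x
  have hprob : ∫ _x : UnitAddCircle, k
      ∂(AddCircle.haarAddCircle : Measure UnitAddCircle) = k := by
    simp
  have hmain : (∫ x : UnitAddCircle, F (AddCircle.toCircle x : ℂ) *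
      conj (G (AddCircle.toCircle x : ℂ)) ∂(AddCircle.haarAddCircle : Measure UnitAddCircle)) =
      k + ∫ x : UnitAddCircle,
        (F (AddCircle.toCircle x : ℂ) - 1 - a * (AddCircle.toCircle x : ℂ)) *
        conj (G (AddCircle.toCircle x : ℂ) - 1 - d * (AddCircle.toCircle x : ℂ))
        ∂(AddCircle.haarAddCircle : Measure UnitAddCircle) := by
    simp_rw [hexp]
    have c1 : Continuous fun x : UnitAddCircle => conj (AddCircle.toCircle x : ℂ) :=
      Complex.continuous_conj.comp cX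
    have c2 : Continuous fun x : UnitAddCircle => conj (G (AddCircle.toCircle x : ℂ) - 1 -
      d * (AddCircle.toCircle x : ℂ)) := Complex.continuous_conj.comp cS
    rw [integral_add (by fun_prop) (op2_int (by fun_prop)),
      integral_add (op2_int (by fun_prop)) (op2_int (by fun_prop)),
      integral_add (op2_int (by fun_prop)) (op2_int (by fun_prop)),
      integral_add (op2_int (by fun_prop)) (op2_int (by fun_prop)),
      integral_add (op2_int (by fun_prop)) (op2_int (by fun_prop)),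
      integral_add (op2_int (by fun_prop)) (op2_int (by fun_prop)),
      integral_add (op2_int (by fun_prop)) (op2_int (by fun_prop)),
      integral_const_mul, integral_const_mul, integral_const_mul, integral_const_mul,
      hprob, eX, eXc, eS0c, eS1c, eR0, eR1]
    simp
  rw [hmain]
  have h1 : ∀ z : ℂ, k + z - 1 - a * conj d = z := fun z => by rw [hk]; ring
  rw [h1]
  have hb : ∀ x : UnitAddCircle,
      ‖(F (AddCircle.toCircle x : ℂ) - 1 - a * (AddCircle.toCircle x : ℂ)) *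
        conj (G (AddCircle.toCircle x : ℂ) - 1 - d * (AddCircle.toCircle x : ℂ))‖ ≤ B1 * B2 := by
    intro x
    rw [norm_mul, RCLike.norm_conj]
    exact mul_le_mul (hFb _ (op2_norm x)) (hGb _ (op2_norm x)) (norm_nonneg _) hB1
  have h2 := norm_integral_le_of_norm_le_const (μ := (AddCircle.haarAddCircle :
    Measure UnitAddCircle)) (Filter.Eventually.of_forall hb)
  simpa using h2

private theorem op2_exp (x : ℂ) : ‖cexp x - 1 - x‖ ≤ ‖x‖ ^ 2 * Real.exp ‖x‖ := by
  have h := Complex.norm_exp_sub_sum_le_norm_mul_exp x 2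
  rw [Finset.sum_range_succ, Finset.sum_range_one] at h
  simp only [pow_zero, Nat.factorial_zero, Nat.cast_one, div_one, pow_one, Nat.factorial_one] at h
  rw [sub_sub]
  exact h

theorem one_prime2 (C0 : ℝ) : ∃ C : ℝ, 0 ≤ C ∧ ∀ (u : ℝ) (c d : ℂ), 0 ≤ u → u ≤ 17 / 20 →
    ‖c‖ ≤ C0 → ‖d‖ ≤ C0 →
    ‖(∫ x : UnitAddCircle, (1 - (u : ℂ) * (AddCircle.toCircle x : ℂ))⁻¹ *
      cexp (c * (AddCircle.toCircle x : ℂ)) * conj (cexp (d * (AddCircle.toCircle x : ℂ)))
      ∂(AddCircle.haarAddCircle : Measure UnitAddCircle)) - 1 - ((u : ℂ) + c) * conj d‖ ≤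
    C * (u + ‖c‖) ^ 2 * ‖d‖ ^ 2 := by
  refine ⟨(10 * Real.exp C0 + 1) * Real.exp C0, by positivity, ?_⟩
  intro u c d hu0 hu1 hc hd
  have hu : ∀ z : ℂ, ‖z‖ ≤ 1 → (3 / 20 : ℝ) ≤ ‖1 - (u : ℂ) * z‖ := by
    intro z hz
    have h1 : ‖(u : ℂ) * z‖ ≤ 17 / 20 := by
      rw [norm_mul, Complex.norm_real, Real.norm_of_nonneg hu0]
      calc u * ‖z‖ ≤ 17 / 20 * 1 := mul_le_mul hu1 hz (norm_nonneg _) (by norm_num)
        _ = 17 / 20 := mul_one _
    have h2 := norm_sub_norm_le (1 : ℂ) ((u : ℂ) * z)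
    rw [norm_one] at h2
    linarith
  have hne : ∀ z : ℂ, ‖z‖ ≤ 1 → 1 - (u : ℂ) * z ≠ 0 := by
    intro z hz h
    have := hu z hz
    rw [h, norm_zero] at this
    norm_num at this
  have hexpc : ∀ z : ℂ, ‖z‖ = 1 → ‖cexp (c * z)‖ ≤ Real.exp C0 := by
    intro z hz
    refine (Complex.norm_exp_le_exp_norm _).trans (Real.exp_le_exp.2 ?_)
    rw [norm_mul, hz, mul_one]
    exact hc
  have key := op2_split (fun z => (1 - (u : ℂ) * z)⁻¹ * cexp (c * z)) (fun z => cexp (d * z))
    ((u : ℂ) + c) d ?_ ?_ (by simp) (by simp) ?_ ?_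
    (B1 := (10 * Real.exp C0 + 1) * (u + ‖c‖) ^ 2) (B2 := Real.exp C0 * ‖d‖ ^ 2)
    (by positivity) ?_ ?_
  · refine key.trans (le_of_eq ?_)
    ring
  · intro z hz
    rw [mem_closedBall_zero_iff] at hz
    have := hne z hz
    have h1 : DifferentiableAt ℂ (fun z : ℂ => (1 - (u : ℂ) * z)⁻¹ * cexp (c * z)) z := by
      fun_prop (disch := assumption)
    exact h1.differentiableWithinAt
  · intro z _
    have h1 : DifferentiableAt ℂ (fun z : ℂ => cexp (d * z)) z := by fun_prop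
    exact h1.differentiableWithinAt
  · have h1 : HasDerivAt (fun z : ℂ => 1 - (u : ℂ) * z) (-(u : ℂ)) 0 := by
      have h := ((hasDerivAt_id (0 : ℂ)).const_mul (u : ℂ)).const_sub 1
      rw [mul_one] at h
      exact h
    have h2 := h1.inv (by simp)
    have h3 : HasDerivAt (fun z : ℂ => cexp (c * z)) (cexp (c * 0) * (c * 1)) 0 :=
      ((hasDerivAt_id (0 : ℂ)).const_mul c).cexp
    have h4 := h2.mul h3
    have h5 : -(-(u : ℂ)) / (1 - (u : ℂ) * 0) ^ 2 * cexp (c * 0) +
        (1 - (u : ℂ) * 0)⁻¹ * (cexp (c * 0) * (c * 1)) = (u : ℂ) + c := by simp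
    rw [← h5]
    exact h4
  · have h3 : HasDerivAt (fun z : ℂ => cexp (d * z)) (cexp (d * 0) * (d * 1)) 0 :=
      ((hasDerivAt_id (0 : ℂ)).const_mul d).cexp
    have h5 : cexp (d * 0) * (d * 1) = d := by simp
    rw [h5] at h3
    exact h3
  · intro z hz
    have hz1 : ‖z‖ ≤ 1 := hz.le
    have hnz := hne z hz1
    have h1 : (1 - (u : ℂ) * z)⁻¹ * cexp (c * z) - 1 - ((u : ℂ) + c) * z =
        ((u : ℂ) * z) ^ 2 * (1 - (u : ℂ) * z)⁻¹ * cexp (c * z) +
        (1 + (u : ℂ) * z) * (cexp (c * z) - 1 - c * z) + (u : ℂ) * c * z ^ 2 := by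
      field_simp
      ring
    rw [h1]
    have huz : ‖(u : ℂ) * z‖ = u := by
      rw [norm_mul, hz, mul_one, Complex.norm_real, Real.norm_of_nonneg hu0]
    have hcz : ‖c * z‖ = ‖c‖ := by rw [norm_mul, hz, mul_one]
    have n1 : ‖((u : ℂ) * z) ^ 2 * (1 - (u : ℂ) * z)⁻¹ * cexp (c * z)‖ ≤
        u ^ 2 * (20 / 3) * Real.exp C0 := by
      rw [norm_mul, norm_mul, norm_pow, huz, norm_inv]
      have h2 : ‖1 - (u : ℂ) * z‖⁻¹ ≤ 20 / 3 := by
        rw [inv_le_comm₀ (lt_of_lt_of_le (by norm_num) (hu z hz1)) (by norm_num)]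
        refine le_trans (by norm_num) (hu z hz1)
      gcongr
      exact hexpc z hz
    have n2 : ‖(1 + (u : ℂ) * z) * (cexp (c * z) - 1 - c * z)‖ ≤ 2 * (‖c‖ ^ 2 * Real.exp C0) := by
      rw [norm_mul]
      have h2 : ‖1 + (u : ℂ) * z‖ ≤ 2 := by
        refine (norm_add_le _ _).trans ?_
        rw [norm_one, huz]
        linarith
      have h3 : ‖cexp (c * z) - 1 - c * z‖ ≤ ‖c‖ ^ 2 * Real.exp C0 := by
        refine (op2_exp _).trans ?_
        rw [hcz]
        gcongr
      gcongr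
    have n3 : ‖(u : ℂ) * c * z ^ 2‖ = u * ‖c‖ := by
      rw [norm_mul, norm_mul, norm_pow, hz, one_pow, mul_one, Complex.norm_real,
        Real.norm_of_nonneg hu0]
    refine (norm_add₃_le).trans ?_
    rw [n3]
    have he : 0 < Real.exp C0 := Real.exp_pos _
    have hc0 := norm_nonneg c
    have p1 : 0 ≤ u * ‖c‖ := mul_nonneg hu0 hc0
    have p2 : 0 ≤ Real.exp C0 * (u * ‖c‖) := by positivity
    have p3 : 0 ≤ Real.exp C0 * u ^ 2 := by positivity
    have p4 : 0 ≤ Real.exp C0 * ‖c‖ ^ 2 := by positivity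
    nlinarith [sq_nonneg u, sq_nonneg ‖c‖]
  · intro z hz
    have hdz : ‖d * z‖ = ‖d‖ := by rw [norm_mul, hz, mul_one]
    refine (op2_exp _).trans ?_
    rw [hdz, mul_comm]
    gcongr

end Pool.Agent.GH
end

section

/-! TASK ThBasic. Elementary facts about the theta series and `gg`.
`om_re`: `Re om = cos(π/2 - 1/T) = sin(1/T)`; `om_im`: `Im om = cos(1/T)`. For `T ≥ 1`: `sin(1/T) ≥ 1/(2T)` (`Real.mul_le_sin` or `Real.sin_gt_sub_cube`), `≤ 1/T`,
`cos(1/T) ≥ 1/2`.
`norm_th_le`: `(n+1)² ≥ n+1`, geometric series; `summable_th` likewise (compare with `exp(-π Re z)^(n+1)`).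
`continuousOn_th`: locally uniformly convergent (`continuousOn_tsum` on `{Re z ≥ ε}`) or `differentiableOn_tsum_of_summable_norm`.
`continuous_gg`: composition (`Re(e^{2y} om) > 0`).
`norm_gg_le` (for `y ≥ 0`): `‖gg T y‖ ≤ 2 e^{y/2} E/(1-E) + e^{-y/2}`, `E = exp(-π e^{2y} sin(1/T))`; from this
`gg_decay`: for `y ≥ 0` `E/(1-E) ≤ C_T e^{-y}` since `1-E ≥ 1 - exp(-π sin(1/T))` and `exp(-π e^{2y} s) ≤ C e^{-y}` (any decay).
`gg_large`: if moreover `e^{2y} sin(1/T) ≥ 1` then `1 - E ≥ 1/2`. -/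

set_option autoImplicit false

namespace Pool.Agent.GH

open Complex MeasureTheory Finset
open scoped Real ComplexConjugate

theorem om_re (T : ℝ) : (om T).re = Real.sin (1 / T) := by
  unfold om ang
  rw [Complex.exp_ofReal_mul_I_re, Real.cos_pi_div_two_sub]

theorem om_im (T : ℝ) : (om T).im = Real.cos (1 / T) := by
  unfold om ang
  rw [Complex.exp_ofReal_mul_I_im, Real.sin_pi_div_two_sub]

theorem norm_om (T : ℝ) : ‖om T‖ = 1 := by
  unfold om
  exact Complex.norm_exp_ofReal_mul_I _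

theorem norm_omh (T : ℝ) : ‖omh T‖ = 1 := by
  unfold omh
  have h : (-((ang T : ℂ) / 2) * I) = (((-(ang T / 2) : ℝ) : ℂ) * I) := by push_cast; ring
  rw [h]
  exact Complex.norm_exp_ofReal_mul_I _

theorem sin_bounds {T : ℝ} (hT : 1 ≤ T) : 1 / (2 * T) ≤ Real.sin (1 / T) ∧ Real.sin (1 / T) ≤ 1 / T ∧
    1 / 2 ≤ Real.cos (1 / T) := by
  have hT0 : 0 < T := by linarith
  have hx0 : 0 ≤ 1 / T := by positivity
  have hx1 : 1 / T ≤ 1 := by rw [div_le_one hT0]; exact hT
  refine ⟨?_, Real.sin_le hx0, ?_⟩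
  · have h1 := Real.mul_le_sin hx0 (by linarith [Real.pi_gt_three])
    refine le_trans ?_ h1
    have h2 : (1 : ℝ) / 2 ≤ 2 / π := by
      rw [div_le_div_iff₀ (by norm_num) Real.pi_pos]
      linarith [Real.pi_le_four]
    have h3 : 1 / (2 * T) = 1 / 2 * (1 / T) := by field_simp
    rw [h3]
    exact mul_le_mul_of_nonneg_right h2 hx0
  · have h1 := Real.one_sub_sq_div_two_le_cos (x := 1 / T)
    nlinarith

private theorem ThBasic_norm (z : ℂ) (n : ℕ) :
    ‖cexp (-π * ((n : ℂ) + 1) ^ 2 * z)‖ = Real.exp (-π * ((n : ℝ) + 1) ^ 2 * z.re) := by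
  rw [Complex.norm_exp]
  congr 1
  have h : (-(π : ℂ) * ((n : ℂ) + 1) ^ 2) = ((-π * ((n : ℝ) + 1) ^ 2 : ℝ) : ℂ) := by
    push_cast; ring
  rw [h, Complex.re_ofReal_mul]

private theorem ThBasic_norm_le {z : ℂ} {e : ℝ} (he : 0 < e) (hz : e ≤ z.re) (n : ℕ) :
    ‖cexp (-π * ((n : ℂ) + 1) ^ 2 * z)‖ ≤ Real.exp (-π * e) * Real.exp (-π * e) ^ n := by
  rw [ThBasic_norm, ← Real.exp_nat_mul, ← Real.exp_add, Real.exp_le_exp]
  have hn : (0 : ℝ) ≤ n := Nat.cast_nonneg n
  have h1 : ((n : ℝ) + 1) * e ≤ ((n : ℝ) + 1) ^ 2 * z.re := by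
    have h2 : ((n : ℝ) + 1) * e ≤ ((n : ℝ) + 1) ^ 2 * e := by
      apply mul_le_mul_of_nonneg_right _ he.le
      nlinarith
    exact h2.trans (mul_le_mul_of_nonneg_left hz (by positivity))
  have h3 := mul_le_mul_of_nonneg_left h1 Real.pi_pos.le
  linarith

private theorem ThBasic_exp_lt {e : ℝ} (he : 0 < e) : Real.exp (-π * e) < 1 := by
  rw [Real.exp_lt_one_iff]
  have := mul_pos Real.pi_pos he
  linarith

private theorem ThBasic_summable {e : ℝ} (he : 0 < e) :
    Summable fun n : ℕ => Real.exp (-π * e) * Real.exp (-π * e) ^ n :=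
  (summable_geometric_of_lt_one (Real.exp_pos _).le (ThBasic_exp_lt he)).mul_left _

theorem summable_th {z : ℂ} (hz : 0 < z.re) :
    Summable fun n : ℕ => ‖cexp (-π * ((n : ℂ) + 1) ^ 2 * z)‖ :=
  Summable.of_nonneg_of_le (fun _ => norm_nonneg _) (fun n => ThBasic_norm_le hz le_rfl n)
    (ThBasic_summable hz)

theorem norm_th_le {z : ℂ} (hz : 0 < z.re) :
    ‖th z‖ ≤ Real.exp (-π * z.re) / (1 - Real.exp (-π * z.re)) := by
  have h1 : ‖th z‖ ≤ ∑' n : ℕ, ‖cexp (-π * ((n : ℂ) + 1) ^ 2 * z)‖ :=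
    norm_tsum_le_tsum_norm (summable_th hz)
  have h2 : ∑' n : ℕ, ‖cexp (-π * ((n : ℂ) + 1) ^ 2 * z)‖ ≤
      ∑' n : ℕ, Real.exp (-π * z.re) * Real.exp (-π * z.re) ^ n :=
    (summable_th hz).tsum_le_tsum (fun n => ThBasic_norm_le hz le_rfl n) (ThBasic_summable hz)
  rw [tsum_mul_left, tsum_geometric_of_lt_one (Real.exp_pos _).le (ThBasic_exp_lt hz)] at h2
  rw [div_eq_mul_inv]
  exact h1.trans h2

theorem continuousOn_th : ContinuousOn th {z : ℂ | 0 < z.re} := by
  intro z0 hz0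
  have hz0' : 0 < z0.re := hz0
  have h1 : ContinuousOn th {z : ℂ | z0.re / 2 < z.re} := by
    unfold th
    refine continuousOn_tsum (u := fun n : ℕ => Real.exp (-π * (z0.re / 2)) *
      Real.exp (-π * (z0.re / 2)) ^ n) ?_ (ThBasic_summable (half_pos hz0')) ?_
    · intro n
      exact (Complex.continuous_exp.comp (continuous_const.mul continuous_id)).continuousOn
    · intro n z hz
      exact ThBasic_norm_le (half_pos hz0') (le_of_lt hz) n
  have h2 : IsOpen {z : ℂ | z0.re / 2 < z.re} := isOpen_lt continuous_const Complex.continuous_re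
  have h3 : z0 ∈ {z : ℂ | z0.re / 2 < z.re} := by
    simp only [Set.mem_setOf_eq]
    linarith
  exact (h1.continuousAt (h2.mem_nhds h3)).continuousWithinAt

private theorem ThBasic_arg_re (T y : ℝ) :
    ((Real.exp (2 * y) : ℂ) * om T).re = Real.exp (2 * y) * Real.sin (1 / T) := by
  rw [Complex.re_ofReal_mul, om_re]

private theorem ThBasic_sin_pos {T : ℝ} (hT : 1 ≤ T) : 0 < Real.sin (1 / T) := by
  have h1 := (sin_bounds hT).1
  have h2 : 0 < 1 / (2 * T) := by
    have : 0 < T := by linarith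
    positivity
  linarith

theorem continuous_gg {T : ℝ} (hT : 1 ≤ T) : Continuous (gg T) := by
  unfold gg
  have h1 : Continuous fun y : ℝ => th ((Real.exp (2 * y) : ℂ) * om T) := by
    refine continuousOn_th.comp_continuous ?_ ?_
    · fun_prop
    · intro y
      simp only [Set.mem_setOf_eq]
      rw [ThBasic_arg_re]
      exact mul_pos (Real.exp_pos _) (ThBasic_sin_pos hT)
  refine Continuous.sub ?_ ?_
  · refine Continuous.mul ?_ h1
    fun_prop
  · fun_prop

private theorem ThBasic_gg_le {T : ℝ} (hT : 1 ≤ T) (y : ℝ) :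
    ‖gg T y‖ ≤ 2 * Real.exp (y / 2) *
      (Real.exp (-π * (Real.exp (2 * y) * Real.sin (1 / T))) /
        (1 - Real.exp (-π * (Real.exp (2 * y) * Real.sin (1 / T))))) + Real.exp (-y / 2) := by
  unfold gg
  refine (norm_sub_le _ _).trans ?_
  rw [norm_mul, norm_mul, norm_mul, norm_omh, mul_one, Complex.norm_real, Complex.norm_real,
    Real.norm_of_nonneg (Real.exp_pos _).le, Real.norm_of_nonneg (Real.exp_pos _).le,
    Complex.norm_two]
  have h1 : 0 < ((Real.exp (2 * y) : ℂ) * om T).re := by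
    rw [ThBasic_arg_re]
    exact mul_pos (Real.exp_pos _) (ThBasic_sin_pos hT)
  have h2 := norm_th_le h1
  rw [ThBasic_arg_re] at h2
  exact add_le_add_left (mul_le_mul_of_nonneg_left h2 (by positivity)) _

theorem gg_decay {T : ℝ} (hT : 1 ≤ T) : ∃ C : ℝ, ∀ y : ℝ, 0 ≤ y → ‖gg T y‖ ≤ C * Real.exp (-y / 2) := by
  have hs := ThBasic_sin_pos hT
  obtain ⟨s, hsd⟩ : ∃ s, s = Real.sin (1 / T) := ⟨_, rfl⟩
  rw [← hsd] at hs
  obtain ⟨d, hd⟩ : ∃ d, d = 1 - Real.exp (-π * s) := ⟨_, rfl⟩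
  have hd0 : 0 < d := by
    rw [hd]
    linarith [ThBasic_exp_lt hs]
  refine ⟨2 / (π * s * d) + 1, fun y hy => ?_⟩
  have h1 := ThBasic_gg_le hT y
  rw [← hsd] at h1
  refine h1.trans ?_
  have hE1 : 1 ≤ Real.exp (2 * y) := Real.one_le_exp (by linarith)
  have hπs : 0 < π * s := mul_pos Real.pi_pos hs
  have h2 : Real.exp (-π * (Real.exp (2 * y) * s)) ≤ Real.exp (-π * s) := by
    rw [Real.exp_le_exp]
    have : π * s * 1 ≤ π * s * Real.exp (2 * y) := mul_le_mul_of_nonneg_left hE1 hπs.le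
    linarith
  have h3 : d ≤ 1 - Real.exp (-π * (Real.exp (2 * y) * s)) := by
    rw [hd]
    linarith
  have h4 : Real.exp (-π * (Real.exp (2 * y) * s)) ≤ 1 / (π * s * Real.exp (2 * y)) := by
    have h5 : -π * (Real.exp (2 * y) * s) = -(π * s * Real.exp (2 * y)) := by ring
    have h6 : 0 < π * s * Real.exp (2 * y) := mul_pos hπs (Real.exp_pos _)
    rw [h5, Real.exp_neg, ← one_div]
    refine one_div_le_one_div_of_le h6 ?_
    linarith [Real.add_one_le_exp (π * s * Real.exp (2 * y))]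
  have h7 : Real.exp (-π * (Real.exp (2 * y) * s)) / (1 - Real.exp (-π * (Real.exp (2 * y) * s))) ≤
      (1 / (π * s * Real.exp (2 * y))) / d := by
    refine div_le_div₀ ?_ h4 hd0 h3
    have h6 : 0 < π * s * Real.exp (2 * y) := mul_pos hπs (Real.exp_pos _)
    positivity
  have h8 : 2 * Real.exp (y / 2) * ((1 / (π * s * Real.exp (2 * y))) / d) ≤
      2 / (π * s * d) * Real.exp (-y / 2) := by
    have h9 : 2 * Real.exp (y / 2) * ((1 / (π * s * Real.exp (2 * y))) / d) =
        2 / (π * s * d) * (Real.exp (y / 2) / Real.exp (2 * y)) := by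
      have : Real.exp (2 * y) ≠ 0 := (Real.exp_pos _).ne'
      field_simp
    rw [h9, ← Real.exp_sub]
    refine mul_le_mul_of_nonneg_left ?_ (by positivity)
    rw [Real.exp_le_exp]
    linarith
  have h10 : 2 * Real.exp (y / 2) * (Real.exp (-π * (Real.exp (2 * y) * s)) /
      (1 - Real.exp (-π * (Real.exp (2 * y) * s)))) ≤ 2 / (π * s * d) * Real.exp (-y / 2) :=
    (mul_le_mul_of_nonneg_left h7 (by positivity)).trans h8
  linarith

theorem gg_large {T : ℝ} (hT : 1 ≤ T) {y : ℝ} (hy : 1 ≤ Real.exp (2 * y) * Real.sin (1 / T)) :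
    ‖gg T y‖ ≤ 4 * Real.exp (y / 2) * Real.exp (-(Real.exp (2 * y) * Real.sin (1 / T))) +
      Real.exp (-y / 2) := by
  refine (ThBasic_gg_le hT y).trans ?_
  obtain ⟨u, hu⟩ : ∃ u, u = Real.exp (2 * y) * Real.sin (1 / T) := ⟨_, rfl⟩
  rw [← hu] at hy ⊢
  have h1 : Real.exp (-π * u) ≤ Real.exp (-u) := by
    rw [Real.exp_le_exp]
    nlinarith [Real.pi_gt_three]
  have h2 : Real.exp (-π * u) ≤ 1 / 2 := by
    have h3 : Real.exp (-π * u) ≤ Real.exp (-1) := by
      rw [Real.exp_le_exp]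
      nlinarith [Real.pi_gt_three]
    refine h3.trans ?_
    rw [Real.exp_neg, ← one_div]
    refine one_div_le_one_div_of_le (by norm_num) ?_
    linarith [Real.add_one_le_exp (1 : ℝ)]
  have h4 : Real.exp (-π * u) / (1 - Real.exp (-π * u)) ≤ 2 * Real.exp (-u) := by
    rw [div_le_iff₀ (by linarith)]
    have h5 : Real.exp (-u) * (1 / 2) ≤ Real.exp (-u) * (1 - Real.exp (-π * u)) :=
      mul_le_mul_of_nonneg_left (by linarith) (Real.exp_pos _).le
    linarith
  have h6 : 2 * Real.exp (y / 2) * (Real.exp (-π * u) / (1 - Real.exp (-π * u))) ≤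
      2 * Real.exp (y / 2) * (2 * Real.exp (-u)) :=
    mul_le_mul_of_nonneg_left h4 (by positivity)
  linarith

end Pool.Agent.GH
end

section

/-! TASK Jacobi. The functional equation of the theta function.
Mathlib: `Complex.tsum_exp_neg_mul_int_sq (ha : 0 < a.re) : ∑' n : ℤ, cexp (-π * a * n ^ 2) = 1 / a ^ (1/2) * ∑' n : ℤ, cexp (-π / a * n ^ 2)`.
The sum over `ℤ` is `1 + 2 th a` (split `ℤ` into `0`, positive and negative integers: `HasSum.of_nat_of_neg_add_one` or `tsum_of_nat_of_neg_add_one`),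
so `1 + 2 th z = z^(-1/2) (1 + 2 th (1/z))` for `Re z > 0` (`th_fe`).
`gg_neg`: with `z = e^{2y} om T` (`‖om‖ = 1`): the point for `-y` is `e^{-2y} om = conj (1/z)`, and `th (conj v) = conj (th v)`. So
`gg T (-y) = e^{-y/2} conj(2 th(1/z) - e^{y} conj(omh)) `; here `conj(omh) = om^{1/2} = exp(i ang/2)`, and `e^y exp(i ang/2) = z^{1/2}` (principal branch, `|ang| ≤ π/2`).
By `th_fe`, `2 th(1/z) - z^{1/2} = z^{1/2}(1 + 2 th z) - 1 - z^{1/2} = 2 z^{1/2} th z - 1 = z^{1/2}(2 th z - z^{-1/2})`. Hence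
`gg T (-y) = e^{-y/2} conj(z^{1/2}) conj(2 th z - z^{-1/2}) = e^{-y/2} e^{y} omh conj(..) = omh * conj(e^{y/2}(2 th z - e^{-y} omh)) = omh * conj(gg T y)`.
`gg_bound`, `integrable_gg`: from `gg_decay` for `y ≥ 0` and `gg_neg` (`‖omh‖ = 1`) for `y < 0`; continuity. -/

set_option autoImplicit false

namespace Pool.Agent.GH

open Complex MeasureTheory Finset
open scoped Real ComplexConjugate

private theorem Jacobi_tsum {z : ℂ} (hz : 0 < z.re) :
    ∑' n : ℤ, cexp (-π * z * (n : ℂ) ^ 2) = 1 + 2 * th z := by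
  have hs1 : Summable fun n : ℕ => cexp (-π * ((n : ℂ) + 1) ^ 2 * z) := (summable_th hz).of_norm
  have e1 : ∀ n : ℕ, cexp (-π * z * (((n + 1 : ℕ) : ℤ) : ℂ) ^ 2) =
      cexp (-π * ((n : ℂ) + 1) ^ 2 * z) := by
    intro n
    congr 1
    push_cast
    ring
  have e2 : ∀ n : ℕ, cexp (-π * z * ((-((n : ℤ) + 1) : ℤ) : ℂ) ^ 2) =
      cexp (-π * ((n : ℂ) + 1) ^ 2 * z) := by
    intro n
    congr 1
    push_cast
    ring
  have hs2 : Summable fun n : ℕ => cexp (-π * z * ((n : ℤ) : ℂ) ^ 2) := by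
    rw [← summable_nat_add_iff 1]
    simpa only [e1] using hs1
  have hs3 : Summable fun n : ℕ => cexp (-π * z * ((-((n : ℤ) + 1) : ℤ) : ℂ) ^ 2) := by
    simpa only [e2] using hs1
  rw [tsum_of_nat_of_neg_add_one (f := fun n : ℤ => cexp (-π * z * (n : ℂ) ^ 2)) hs2 hs3]
  rw [hs2.tsum_eq_zero_add]
  simp only [e1, e2]
  unfold th
  simp
  ring

theorem th_fe {z : ℂ} (hz : 0 < z.re) :
    1 + 2 * th z = 1 / z ^ (1 / 2 : ℂ) * (1 + 2 * th (1 / z)) := by
  have hz0 : z ≠ 0 := by rintro rfl; simp at hz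
  have hz1 : 0 < (1 / z).re := by
    rw [one_div, Complex.inv_re]
    exact div_pos hz (Complex.normSq_pos.mpr hz0)
  rw [← Jacobi_tsum hz, ← Jacobi_tsum hz1, Complex.tsum_exp_neg_mul_int_sq hz]
  congr 2
  funext n
  congr 1
  ring

private theorem Jacobi_conj (v : ℂ) : th (conj v) = conj (th v) := by
  unfold th
  rw [Complex.conj_tsum]
  congr 1
  funext n
  rw [← Complex.exp_conj]
  congr 1
  simp

theorem gg_neg {T : ℝ} (hT : 1 ≤ T) (y : ℝ) : gg T (-y) = omh T * conj (gg T y) := by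
  have hsin := (sin_bounds hT).1
  have hang : |ang T| ≤ π / 2 := by
    have h1 : 0 < 1 / T := by positivity
    have h2 : 1 / T ≤ 1 := by rw [div_le_one (by linarith)]; exact hT
    have h3 := Real.pi_gt_three
    unfold ang
    rw [abs_le]
    constructor <;> linarith
  set z : ℂ := (Real.exp (2 * y) : ℂ) * om T with hz
  have hzexp : z = cexp (((2 * y : ℝ) : ℂ) + ang T * I) := by
    rw [hz, om, Complex.exp_add, Complex.ofReal_exp]
  have hzre : 0 < z.re := by
    rw [hz, Complex.re_ofReal_mul, om_re]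
    have : 0 < 1 / (2 * T) := by positivity
    exact mul_pos (Real.exp_pos _) (by linarith)
  have hz0 : z ≠ 0 := by rintro h; rw [h] at hzre; simp at hzre
  have hlog : Complex.log z = ((2 * y : ℝ) : ℂ) + ang T * I := by
    rw [hzexp, Complex.log_exp]
    · have := (abs_le.mp hang).1
      have h3 := Real.pi_pos
      simp
      linarith
    · have := (abs_le.mp hang).2
      have h3 := Real.pi_pos
      simp
      linarith
  have hs : z ^ (1 / 2 : ℂ) = cexp ((y : ℂ) + (ang T / 2) * I) := by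
    rw [Complex.cpow_def_of_ne_zero hz0, hlog]
    congr 1
    push_cast
    ring
  have hs0 : z ^ (1 / 2 : ℂ) ≠ 0 := by rw [hs]; exact Complex.exp_ne_zero _
  have hsbar : conj (z ^ (1 / 2 : ℂ)) = cexp (y : ℂ) * omh T := by
    rw [hs, ← Complex.exp_conj, omh, ← Complex.exp_add]
    congr 1
    simp [Complex.conj_ofNat]
  have hinv : conj (1 / z) = ((Real.exp (2 * -y) : ℝ) : ℂ) * om T := by
    rw [hzexp, one_div, ← Complex.exp_neg, ← Complex.exp_conj, om, Complex.ofReal_exp,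
      ← Complex.exp_add]
    congr 1
    simp [Complex.conj_ofNat]
    ring
  have hfe := th_fe hzre
  have h1 : z ^ (1 / 2 : ℂ) * (1 + 2 * th z) = 1 + 2 * th (1 / z) := by
    rw [hfe, ← mul_assoc, mul_one_div_cancel hs0, one_mul]
  have h2 := congrArg conj h1
  rw [map_mul, hsbar, map_add, map_add, map_mul, map_mul, map_one, ← Jacobi_conj (1 / z), hinv,
    Complex.conj_ofNat] at h2
  have homh : omh T * conj (omh T) = 1 := by
    rw [Complex.mul_conj, Complex.normSq_eq_norm_sq, norm_omh]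
    simp
  have e1 : ((Real.exp (-y / 2) : ℝ) : ℂ) * cexp y = ((Real.exp (y / 2) : ℝ) : ℂ) := by
    rw [Complex.ofReal_exp, Complex.ofReal_exp, ← Complex.exp_add]
    congr 1
    push_cast
    ring
  have e2 : ((Real.exp (- -y / 2) : ℝ) : ℂ) = ((Real.exp (y / 2) : ℝ) : ℂ) := by
    rw [neg_neg]
  have h3 : gg T (-y) = ((Real.exp (-y / 2) : ℝ) : ℂ) *
      (2 * th (((Real.exp (2 * -y) : ℝ) : ℂ) * om T)) - ((Real.exp (y / 2) : ℝ) : ℂ) * omh T := by
    unfold gg
    rw [e2]
    ring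
  have h4 : 2 * th (((Real.exp (2 * -y) : ℝ) : ℂ) * om T) =
      cexp y * omh T * (1 + 2 * conj (th z)) - 1 := by
    rw [h2]; ring
  rw [h3, h4]
  have h5 : gg T y = 2 * ((Real.exp (y / 2) : ℝ) : ℂ) * th z -
      ((Real.exp (-y / 2) : ℝ) : ℂ) * omh T := rfl
  rw [h5, map_sub, map_mul, map_mul, map_mul, Complex.conj_ofReal, Complex.conj_ofReal,
    Complex.conj_ofNat]
  linear_combination (omh T * (1 + 2 * conj (th z))) * e1 +
    ((Real.exp (-y / 2) : ℝ) : ℂ) * homh

theorem gg_bound {T : ℝ} (hT : 1 ≤ T) : ∃ C : ℝ, ∀ y : ℝ, ‖gg T y‖ ≤ C * Real.exp (-|y| / 2) := by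
  obtain ⟨C, hC⟩ := gg_decay hT
  refine ⟨C, fun y => ?_⟩
  rcases le_total 0 y with hy | hy
  · rw [abs_of_nonneg hy]
    exact hC y hy
  · have h1 := gg_neg hT (-y)
    rw [neg_neg] at h1
    rw [h1, norm_mul, norm_omh, one_mul, RCLike.norm_conj, abs_of_nonpos hy]
    exact hC (-y) (by linarith)

theorem integrable_gg {T : ℝ} (hT : 1 ≤ T) {a : ℝ} (ha : |a| < 1 / 2) :
    Integrable fun y : ℝ => (Real.exp (a * y) : ℂ) * gg T y := by
  obtain ⟨C, hC⟩ := gg_bound hT
  set b : ℝ := 1 / 2 - |a| with hb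
  have hb0 : 0 < b := by linarith
  have hint : Integrable fun y : ℝ => Real.exp (-b * |y|) := by
    rw [← integrableOn_univ, ← Set.Iic_union_Ioi (a := (0 : ℝ))]
    refine IntegrableOn.union ?_ ?_
    · refine (integrableOn_exp_mul_Iic hb0 0).congr_fun ?_ measurableSet_Iic
      intro y hy
      simp only [Set.mem_Iic] at hy
      simp only
      rw [abs_of_nonpos hy]
      congr 1
      ring
    · refine (integrableOn_exp_mul_Ioi (show -b < 0 by linarith) 0).congr_fun ?_ measurableSet_Ioi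
      intro y hy
      simp only [Set.mem_Ioi] at hy
      simp only
      rw [abs_of_pos hy]
  have hC0 : 0 ≤ C := by
    have := (norm_nonneg _).trans (hC 0)
    simpa using this
  refine (hint.const_mul C).mono' ?_ ?_
  · apply Continuous.aestronglyMeasurable
    have := continuous_gg hT
    fun_prop
  · refine Filter.Eventually.of_forall fun y => ?_
    rw [norm_mul, Complex.norm_real, Real.norm_eq_abs, abs_of_pos (Real.exp_pos _)]
    calc Real.exp (a * y) * ‖gg T y‖ ≤ Real.exp (|a| * |y|) * (C * Real.exp (-|y| / 2)) := by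
          refine mul_le_mul ?_ (hC y) (norm_nonneg _) (Real.exp_pos _).le
          rw [Real.exp_le_exp, ← abs_mul]
          exact le_abs_self _
      _ = C * Real.exp (-b * |y|) := by
          rw [mul_left_comm, ← Real.exp_add]
          congr 2
          rw [hb]
          ring

end Pool.Agent.GH
end

section

/-! TASK Mellin1. The Mellin transform of the rotated theta series for `Re s > 1`.
Termwise: for `n ≥ 1`, `∫_0^∞ x^{s/2-1} e^{-π n² z x} dx = Γ(s/2) (π n² z)^{-s/2}` (`Complex.integral_cpow_mul_exp_neg_mul_Ioi`, `Re(π n² z) > 0`), and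
`(π n² z)^{-s/2} = π^{-s/2} n^{-s} z^{-s/2}` (positive reals can be taken out of `cpow`: `Complex.log_ofReal_mul`, or `Complex.mul_cpow_ofReal_nonneg` for the reals).
Sum and integral: `hasSum_integral_of_summable_integral_norm` with
`∫ ‖x^{s/2-1} e^{-π n² z x}‖ = Γ(σ/2) (π n² Re z)^{-σ/2}`, summable as `σ > 1`. `∑ n^{-s} = ζ(s)` (`zeta_eq_tsum_one_div_nat_add_one_cpow`), and
`completedRiemannZeta s = π^{-s/2} Γ(s/2) ζ(s)` (`riemannZeta_def_of_ne_zero`, `Complex.Gammaℝ_def`).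
The same lemma gives the integrability (the limit function is the sum; or bound `‖th(xz)‖ ≤ C x^{-1/2}·..`).
`th_zero`: `th` near `0`: by termwise comparison `‖th z‖ ≤ ∑ e^{-π n² Re z} ≤ 1/(2 (Re z)^{1/2})` (integral comparison), or anything of this shape.
(The complex `r` version of `∫ t^{a-1} e^{-rt} dt = r^{-a} Γ(a)` is `Mellin1_gamma` below, proved by the identity theorem.) -/

set_option autoImplicit false

namespace Pool.Agent.GH

open Complex MeasureTheory Finset
open scoped Real ComplexConjugate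

private theorem Mellin1_real {s b : ℝ} (hs : -1 < s) (hb : 0 < b) :
    IntegrableOn (fun x : ℝ => x ^ s * Real.exp (-(b * x))) (Set.Ioi 0) := by
  have := integrableOn_rpow_mul_exp_neg_mul_rpow (p := 1) hs one_pos hb
  refine this.congr_fun (fun x hx => ?_) measurableSet_Ioi
  simp only [Real.rpow_one, neg_mul]

private theorem Mellin1_meas (a r : ℂ) :
    AEStronglyMeasurable (fun t : ℝ => (t : ℂ) ^ (a - 1) * cexp (-(r * t)))
      (volume.restrict (Set.Ioi 0)) := by
  refine ContinuousOn.aestronglyMeasurable ?_ measurableSet_Ioi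
  refine ContinuousOn.mul ?_ (by fun_prop)
  intro t ht
  have ht' : (t : ℂ) ∈ slitPlane := by
    rw [Complex.ofReal_mem_slitPlane]; exact ht
  exact ((continuousAt_id (x := (t : ℂ))).cpow continuousAt_const ht').comp
    (f := fun t : ℝ => (t : ℂ)) (x := t) (Complex.continuous_ofReal.continuousAt)
    |>.continuousWithinAt

private theorem Mellin1_norm (a r : ℂ) {t : ℝ} (ht : 0 < t) :
    ‖(t : ℂ) ^ (a - 1) * cexp (-(r * t))‖ = t ^ (a.re - 1) * Real.exp (-(r.re * t)) := by
  rw [norm_mul, Complex.norm_cpow_eq_rpow_re_of_pos ht, Complex.norm_exp]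
  simp

private theorem Mellin1_int {a r : ℂ} (ha : 0 < a.re) (hr : 0 < r.re) :
    IntegrableOn (fun t : ℝ => (t : ℂ) ^ (a - 1) * cexp (-(r * t))) (Set.Ioi 0) := by
  refine Integrable.mono' (Mellin1_real (s := a.re - 1) (by linarith) hr) (Mellin1_meas a r) ?_
  refine (ae_restrict_iff' measurableSet_Ioi).mpr (Filter.Eventually.of_forall fun t ht => ?_)
  exact (Mellin1_norm a r ht).le

theorem Mellin1_gamma {a r : ℂ} (ha : 0 < a.re) (hr : 0 < r.re) :
    ∫ t : ℝ in Set.Ioi 0, (t : ℂ) ^ (a - 1) * cexp (-(r * t)) = r ^ (-a) * Gamma a := by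
  set U : Set ℂ := {z : ℂ | 0 < z.re} with hU
  have hUo : IsOpen U := isOpen_lt continuous_const Complex.continuous_re
  have hUc : Convex ℝ U := convex_halfSpace_re_gt 0
  have hd1 : DifferentiableOn ℂ (fun r : ℂ => ∫ t : ℝ in Set.Ioi 0,
      (t : ℂ) ^ (a - 1) * cexp (-(r * t))) U := by
    intro r0 hr0
    have hr0' : 0 < r0.re := hr0
    have hs : {z : ℂ | r0.re / 2 < z.re} ∈ nhds r0 :=
      (isOpen_lt continuous_const Complex.continuous_re).mem_nhds (by
        change r0.re / 2 < r0.re; linarith)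
    have key := hasDerivAt_integral_of_dominated_loc_of_deriv_le
      (μ := volume.restrict (Set.Ioi (0 : ℝ)))
      (F := fun (r : ℂ) (t : ℝ) => (t : ℂ) ^ (a - 1) * cexp (-(r * t)))
      (F' := fun (r : ℂ) (t : ℝ) => (t : ℂ) ^ (a - 1) * (cexp (-(r * t)) * (-(1 * t))))
      (bound := fun t : ℝ => t ^ a.re * Real.exp (-(r0.re / 2 * t))) (x₀ := r0) hs
      (Filter.Eventually.of_forall fun z => Mellin1_meas a z) (Mellin1_int ha hr0') (by
        have h1 := (Mellin1_meas a r0).mul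
          (g := fun t : ℝ => (-(1 * (t : ℂ)))) (by
            exact Continuous.aestronglyMeasurable (by fun_prop))
        refine h1.congr (Filter.Eventually.of_forall fun t => ?_)
        simp only [Pi.mul_apply]
        ring) (by
        refine (ae_restrict_iff' measurableSet_Ioi).mpr
          (Filter.Eventually.of_forall fun t ht z hz => ?_)
        have ht' : (0 : ℝ) < t := ht
        have hz' : r0.re / 2 < z.re := hz
        rw [← mul_assoc, norm_mul, Mellin1_norm a z ht, norm_neg, one_mul, Complex.norm_real,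
          Real.norm_of_nonneg ht'.le]
        have e1 : t ^ a.re = t ^ (a.re - 1) * t := by
          rw [Real.rpow_sub_one ht'.ne']; field_simp
        rw [e1]
        have e2 : Real.exp (-(z.re * t)) ≤ Real.exp (-(r0.re / 2 * t)) := by
          apply Real.exp_le_exp.mpr
          nlinarith
        calc t ^ (a.re - 1) * Real.exp (-(z.re * t)) * t
            = t ^ (a.re - 1) * t * Real.exp (-(z.re * t)) := by ring
          _ ≤ t ^ (a.re - 1) * t * Real.exp (-(r0.re / 2 * t)) := by gcongr)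
      (Mellin1_real (by linarith) (by linarith)) (by
        refine Filter.Eventually.of_forall fun t z _ => ?_
        refine HasDerivAt.const_mul _ ?_
        exact (((hasDerivAt_id z).mul_const (t : ℂ)).neg).cexp)
    exact key.2.differentiableAt.differentiableWithinAt
  have hd2 : DifferentiableOn ℂ (fun r : ℂ => r ^ (-a) * Gamma a) U := by
    intro z hz
    have hz' : z ∈ slitPlane := Or.inl hz
    exact ((differentiableAt_id.cpow (differentiableAt_const _) hz').mul_const _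
      ).differentiableWithinAt
  have ha1 := hd1.analyticOnNhd hUo
  have ha2 := hd2.analyticOnNhd hUo
  refine ha1.eqOn_of_preconnected_of_frequently_eq ha2 hUc.isPreconnected
    (z₀ := 1) (by change (0 : ℝ) < (1 : ℂ).re; simp) ?_ hr
  -- frequently equal near 1: at the points 1 + 1/(n+1)
  have hreal : ∀ x : ℝ, 0 < x → ∫ t : ℝ in Set.Ioi 0, (t : ℂ) ^ (a - 1) * cexp (-((x : ℂ) * t)) =
      (x : ℂ) ^ (-a) * Gamma a := by
    intro x hx
    rw [Complex.integral_cpow_mul_exp_neg_mul_Ioi ha hx]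
    congr 1
    rw [one_div, Complex.inv_cpow_ofReal_nonneg hx.le, Complex.cpow_neg]
  have htend : Filter.Tendsto (fun n : ℕ => (1 : ℂ) + 1 / ((n : ℂ) + 1)) Filter.atTop
      (nhdsWithin 1 {1}ᶜ) := by
    rw [tendsto_nhdsWithin_iff]
    constructor
    · have := tendsto_one_div_add_atTop_nhds_zero_nat (𝕜 := ℂ)
      simpa using this.const_add 1
    · refine Filter.Eventually.of_forall fun n => ?_
      have : ((n : ℂ) + 1) ≠ 0 := Nat.cast_add_one_ne_zero n
      simp [this]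
  refine htend.frequently (Filter.Frequently.of_forall fun n => ?_)
  have h2 : (1 : ℂ) + 1 / ((n : ℂ) + 1) = ((1 + 1 / ((n : ℝ) + 1) : ℝ) : ℂ) := by push_cast; rfl
  rw [h2]
  exact hreal _ (by positivity)

theorem norm_th_le_rpow {z : ℂ} (hz : 0 < z.re) : ‖th z‖ ≤ (z.re) ^ (-(1 / 2 : ℝ)) := by
  have hs := summable_th hz
  have h1 : ‖th z‖ ≤ ∑' n : ℕ, ‖cexp (-π * ((n : ℂ) + 1) ^ 2 * z)‖ := norm_tsum_le_tsum_norm hs
  have hn : ∀ n : ℕ, ‖cexp (-π * ((n : ℂ) + 1) ^ 2 * z)‖ =
      Real.exp (-(π * z.re) * (0 + ((n + 1 : ℕ) : ℝ)) ^ 2) := by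
    intro n
    rw [Complex.norm_exp]
    congr 1
    have : (-(π : ℂ) * ((n : ℂ) + 1) ^ 2 * z) = ((-(π * ((n : ℝ) + 1) ^ 2) : ℝ) : ℂ) * z := by
      push_cast; ring
    rw [this, Complex.re_ofReal_mul]
    push_cast
    ring
  refine h1.trans ?_
  refine Real.tsum_le_of_sum_range_le (fun n => norm_nonneg _) fun n => ?_
  simp_rw [hn]
  have hb : 0 < π * z.re := mul_pos Real.pi_pos hz
  have hanti : AntitoneOn (fun t : ℝ => Real.exp (-(π * z.re) * t ^ 2)) (Set.Icc (0 : ℝ) (0 + n)) := by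
    intro x hx y hy hxy
    apply Real.exp_le_exp.mpr
    have h2 : x ^ 2 ≤ y ^ 2 := pow_le_pow_left₀ hx.1 hxy 2
    nlinarith
  have h2 := hanti.sum_le_integral
  refine h2.trans ?_
  have h3 : ∫ x in (0 : ℝ)..(0 + n), Real.exp (-(π * z.re) * x ^ 2) ≤
      ∫ x in Set.Ioi (0 : ℝ), Real.exp (-(π * z.re) * x ^ 2) := by
    rw [intervalIntegral.integral_of_le (by simp)]
    exact setIntegral_mono_set ((integrable_exp_neg_mul_sq hb).integrableOn)
      (Filter.Eventually.of_forall fun x => (Real.exp_pos _).le)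
      (Filter.Eventually.of_forall fun x hx => hx.1)
  refine h3.trans ?_
  rw [integral_gaussian_Ioi, div_mul_eq_div_div, div_self Real.pi_pos.ne', one_div,
    Real.sqrt_inv, Real.sqrt_eq_rpow, ← Real.rpow_neg hz.le]
  have : 0 ≤ z.re ^ (-(1 / 2 : ℝ)) := Real.rpow_nonneg hz.le _
  linarith

theorem mellin_th {s z : ℂ} (hs : 1 < s.re) (hz : 0 < z.re) :
    IntegrableOn (fun x : ℝ => (x : ℂ) ^ (s / 2 - 1) * th (x * z)) (Set.Ioi 0) ∧
    ∫ x in Set.Ioi (0 : ℝ), (x : ℂ) ^ (s / 2 - 1) * th (x * z) =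
      z ^ (-s / 2) * completedRiemannZeta s := by
  have ha : (s / 2).re = s.re / 2 := by
    have := Complex.div_ofReal_re s 2
    simpa using this
  have ha0 : 0 < (s / 2).re := by rw [ha]; linarith
  set r : ℕ → ℂ := fun n => ((π * ((n : ℝ) + 1) ^ 2 : ℝ) : ℂ) * z with hr
  have hrre : ∀ n, (r n).re = π * ((n : ℝ) + 1) ^ 2 * z.re := by
    intro n
    rw [hr]
    exact Complex.re_ofReal_mul _ _
  have hr0 : ∀ n, 0 < (r n).re := by
    intro n
    rw [hrre]
    have := Real.pi_pos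
    positivity
  set F : ℕ → ℝ → ℂ := fun n t => (t : ℂ) ^ (s / 2 - 1) * cexp (-(r n * t)) with hF
  have hFint : ∀ n, Integrable (F n) (volume.restrict (Set.Ioi (0 : ℝ))) := fun n =>
    Mellin1_int ha0 (hr0 n)
  have hFnorm : ∀ n, ∫ t : ℝ in Set.Ioi (0 : ℝ), ‖F n t‖ =
      (1 / (π * z.re)) ^ (s.re / 2) * Real.Gamma (s.re / 2) * (1 / ((n : ℝ) + 1) ^ s.re) := by
    intro n
    have h1 : ∫ t : ℝ in Set.Ioi (0 : ℝ), ‖F n t‖ =
        ∫ t : ℝ in Set.Ioi (0 : ℝ), t ^ (s.re / 2 - 1) * Real.exp (-((r n).re * t)) := by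
      refine setIntegral_congr_fun measurableSet_Ioi fun t ht => ?_
      rw [hF]
      simp only []
      rw [Mellin1_norm _ _ ht, ha]
    rw [h1, Real.integral_rpow_mul_exp_neg_mul_Ioi (by linarith) (hr0 n), hrre]
    have hpz : 0 < π * z.re := mul_pos Real.pi_pos hz
    have hn0 : (0 : ℝ) < (n : ℝ) + 1 := by positivity
    have h2 : 1 / (π * ((n : ℝ) + 1) ^ 2 * z.re) = 1 / (π * z.re) * (1 / ((n : ℝ) + 1) ^ 2) := by
      field_simp
    rw [h2, Real.mul_rpow (by positivity) (by positivity)]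
    have h3 : (1 / ((n : ℝ) + 1) ^ 2) ^ (s.re / 2) = 1 / ((n : ℝ) + 1) ^ s.re := by
      rw [one_div, Real.inv_rpow (by positivity), ← Real.rpow_natCast, ← Real.rpow_mul hn0.le,
        one_div]
      congr 2
      push_cast
      ring
    rw [h3]
    ring
  have hFsum : Summable fun n => ∫ t : ℝ in Set.Ioi (0 : ℝ), ‖F n t‖ := by
    simp_rw [hFnorm]
    refine Summable.mul_left _ ?_
    have h1 : Summable fun n : ℕ => 1 / (n : ℝ) ^ s.re := Real.summable_one_div_nat_rpow.mpr hs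
    have h2 := (summable_nat_add_iff 1).mpr h1
    simpa using h2
  have hth : ∀ t : ℝ, (t : ℂ) ^ (s / 2 - 1) * th (t * z) = ∑' n, F n t := by
    intro t
    rw [th, ← tsum_mul_left]
    refine tsum_congr fun n => ?_
    rw [hF, hr]
    simp only []
    congr 2
    push_cast
    ring
  have hsum := hasSum_integral_of_summable_integral_norm hFint hFsum
  constructor
  · -- integrability
    constructor
    · refine ContinuousOn.aestronglyMeasurable ?_ measurableSet_Ioi
      refine ContinuousOn.mul ?_ ?_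
      · intro t ht
        have ht' : (t : ℂ) ∈ slitPlane := by
          rw [Complex.ofReal_mem_slitPlane]; exact ht
        exact ((continuousAt_id (x := (t : ℂ))).cpow continuousAt_const ht').comp
          (f := fun t : ℝ => (t : ℂ)) (x := t) (Complex.continuous_ofReal.continuousAt)
          |>.continuousWithinAt
      · refine continuousOn_th.comp (by fun_prop) ?_
        intro t ht
        have ht' : (0 : ℝ) < t := ht
        change 0 < ((t : ℂ) * z).re
        rw [Complex.re_ofReal_mul]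
        positivity
    · unfold HasFiniteIntegral
      calc ∫⁻ t in Set.Ioi (0 : ℝ), ‖(t : ℂ) ^ (s / 2 - 1) * th (t * z)‖ₑ
          ≤ ∫⁻ t in Set.Ioi (0 : ℝ), ∑' n, ‖F n t‖ₑ := by
            refine lintegral_mono fun t => ?_
            rw [hth]
            exact enorm_tsum_le_tsum_enorm
        _ = ∑' n, ∫⁻ t in Set.Ioi (0 : ℝ), ‖F n t‖ₑ :=
            lintegral_tsum fun n => (hFint n).1.enorm
        _ = ∑' n, ENNReal.ofReal (∫ t : ℝ in Set.Ioi (0 : ℝ), ‖F n t‖) := by
            refine tsum_congr fun n => ?_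
            rw [ofReal_integral_norm_eq_lintegral_enorm (hFint n)]
        _ = ENNReal.ofReal (∑' n, ∫ t : ℝ in Set.Ioi (0 : ℝ), ‖F n t‖) :=
            (ENNReal.ofReal_tsum_of_nonneg (fun n => integral_nonneg fun t => norm_nonneg _)
              hFsum).symm
        _ < ⊤ := ENNReal.ofReal_lt_top
  · simp_rw [hth]
    refine hsum.unique ?_
    have hterm : ∀ n, ∫ t : ℝ in Set.Ioi (0 : ℝ), F n t =
        z ^ (-s / 2) * (Gammaℝ s * (1 / ((n : ℂ) + 1) ^ s)) := by
      intro n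
      rw [hF]
      simp only []
      rw [Mellin1_gamma ha0 (hr0 n), hr, Gammaℝ_def]
      simp only []
      have hn0 : (0 : ℝ) < (n : ℝ) + 1 := by positivity
      have hp0 : (0 : ℝ) < π * ((n : ℝ) + 1) ^ 2 := by
        have := Real.pi_pos
        positivity
      have hz0 : z ≠ 0 := by rintro rfl; simp at hz
      have h1 : (((π * ((n : ℝ) + 1) ^ 2 : ℝ) : ℂ) * z) ^ (-(s / 2)) =
          ((π * ((n : ℝ) + 1) ^ 2 : ℝ) : ℂ) ^ (-(s / 2)) * z ^ (-(s / 2)) := by
        have hne : ((π * ((n : ℝ) + 1) ^ 2 : ℝ) : ℂ) ≠ 0 := by exact_mod_cast hp0.ne'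
        rw [Complex.cpow_def_of_ne_zero (mul_ne_zero hne hz0), Complex.cpow_def_of_ne_zero hne,
          Complex.cpow_def_of_ne_zero hz0, ← Complex.exp_add, Complex.log_ofReal_mul hp0 hz0,
          Complex.ofReal_log hp0.le]
        congr 1
        ring
      have h2 : ((π * ((n : ℝ) + 1) ^ 2 : ℝ) : ℂ) ^ (-(s / 2)) =
          (π : ℂ) ^ (-s / 2) * (1 / ((n : ℂ) + 1) ^ s) := by
        rw [Complex.ofReal_mul, Complex.mul_cpow_ofReal_nonneg Real.pi_pos.le (by positivity)]
        congr 1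
        · congr 1; ring
        · rw [Complex.cpow_neg, one_div, pow_two, Complex.ofReal_mul,
            Complex.mul_cpow_ofReal_nonneg hn0.le hn0.le, ← Complex.cpow_add _ _ (by
              exact_mod_cast hn0.ne')]
          congr 2
          · push_cast; rfl
          · ring
      rw [h1, h2]
      have h3 : -(s / 2) = -s / 2 := by ring
      rw [h3]
      ring
    simp_rw [hterm]
    refine HasSum.mul_left _ ?_
    have hs0 : s ≠ 0 := by rintro rfl; simp at hs; linarith
    have hG : Gammaℝ s ≠ 0 := Gammaℝ_ne_zero_of_re_pos (by linarith)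
    have hz1 : completedRiemannZeta s = Gammaℝ s * riemannZeta s := by
      rw [riemannZeta_def_of_ne_zero hs0]; field_simp
    rw [hz1]
    refine HasSum.mul_left _ ?_
    rw [zeta_eq_tsum_one_div_nat_add_one_cpow hs]
    apply Summable.hasSum
    have := (Complex.summable_one_div_nat_cpow.mpr hs)
    have h2 := (summable_nat_add_iff 1).mpr this
    simpa using h2

end Pool.Agent.GH
end
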