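import Pool.Agent.Lib.MP_69b2e4_nt.GH.Defs
import Pool.Agent.Lib.MP_69b2e4_nt.GH.Sys
import Pool.Agent.Lib.MP_69b2e4_nt.Mg.G037
import Pool.Agent.Lib.MP_69b2e4_nt.Mg.G038

section

/-! TASK Planch. Plancherel inequality for an integrable function (values in `[0,∞]`).
Proof. Let `F(t) = ∫ f(y) e^{ity} dy` (continuous). If the right side is infinite there is nothing to prove; so `f ∈ L¹ ∩ L²`. For `ε > 0`:
`∫ ‖F(t)‖² e^{-εt²} dt = ∫∫ f(y) conj f(y') k(y-y') dy dy'`, `k(u) = ∫ e^{itu-εt²} dt = (π/ε)^{1/2} e^{-u²/(4ε)} ≥ 0` (Fubini: `f ⊗ f ⊗ e^{-εt²}` is integrable;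
Mathlib: `fourierIntegral_gaussian` / `integral_cexp_neg_mul_sq_add_const`), `∫ k = 2π`. Since `|f(y)||f(y')| ≤ (|f(y)|²+|f(y')|²)/2`, it is at most `2π ∫|f|²`.
Let `ε → 0` (monotone convergence / Fatou: `MeasureTheory.lintegral_liminf_le`, with `ε = 1/n`).
(Mathlib also has Plancherel on `L²` as `MeasureTheory.Lp.fourierTransformₗᵢ`, but the identification with the integral for `L¹ ∩ L²` is missing.) -/

set_option autoImplicit false

namespace Pool.Agent.GH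

open Complex MeasureTheory Finset
open scoped Real ComplexConjugate

private theorem Planch_norm (t y : ℝ) : ‖cexp (t * y * I)‖ = 1 := by
  rw [← Complex.ofReal_mul, Complex.norm_exp_ofReal_mul_I]

private theorem Planch_flip {f g : ℝ → ℂ} (hf : Integrable f) (hg : Integrable g) :
    ∫ t : ℝ, (∫ y : ℝ, cexp (t * y * I) * f y) * g t =
      ∫ y : ℝ, f y * ∫ t : ℝ, cexp (t * y * I) * g t := by
  have hint : Integrable (Function.uncurry fun (t y : ℝ) => cexp (t * y * I) * (g t * f y))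
      (volume.prod volume) := by
    have h1 := hg.mul_prod hf
    refine Integrable.bdd_mul (c := 1) h1 (Continuous.aestronglyMeasurable (by fun_prop))
      (ae_of_all _ fun z => (Planch_norm z.1 z.2).le)
  calc ∫ t : ℝ, (∫ y : ℝ, cexp (t * y * I) * f y) * g t
      = ∫ t : ℝ, ∫ y : ℝ, cexp (t * y * I) * (g t * f y) := by
        congr 1
        ext t
        rw [← integral_mul_const]
        congr 1
        ext y
        ring
    _ = ∫ y : ℝ, ∫ t : ℝ, cexp (t * y * I) * (g t * f y) := integral_integral_swap hint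
    _ = ∫ y : ℝ, f y * ∫ t : ℝ, cexp (t * y * I) * g t := by
        congr 1
        ext y
        rw [← integral_const_mul]
        congr 1
        ext t
        ring

private theorem Planch_cont {f : ℝ → ℂ} (hf : Integrable f) :
    Continuous fun t : ℝ => ∫ y : ℝ, cexp (t * y * I) * f y := by
  refine continuous_of_dominated (bound := fun y => ‖f y‖) ?_ ?_ hf.norm ?_
  · intro t
    exact (Continuous.aestronglyMeasurable (by fun_prop)).mul hf.1
  · intro t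
    refine ae_of_all _ fun y => ?_
    rw [norm_mul, Planch_norm, one_mul]
  · refine ae_of_all _ fun y => ?_
    fun_prop

private theorem Planch_bdd {f : ℝ → ℂ} (t : ℝ) :
    ‖∫ y : ℝ, cexp (t * y * I) * f y‖ ≤ ∫ y : ℝ, ‖f y‖ := by
  refine (norm_integral_le_integral_norm _).trans (le_of_eq ?_)
  congr 1
  ext y
  rw [norm_mul, Planch_norm, one_mul]

/-- The kernel. -/
private noncomputable def Planch_k (ε : ℝ) (v : ℝ) : ℂ :=
  (π / ε : ℂ) ^ (1 / 2 : ℂ) * cexp (-(v : ℂ) ^ 2 / (4 * ε))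

private theorem Planch_k_norm {ε : ℝ} (hε : 0 < ε) (v : ℝ) :
    ‖Planch_k ε v‖ = √(π / ε) * Real.exp (-(1 / (4 * ε)) * v ^ 2) := by
  unfold Planch_k
  rw [norm_mul]
  congr 1
  · rw [← Complex.ofReal_div, Complex.norm_cpow_eq_rpow_re_of_pos (by positivity)]
    rw [Real.sqrt_eq_rpow]
    norm_num
  · rw [show (-(v : ℂ) ^ 2 / (4 * ε)) = ((-(1 / (4 * ε)) * v ^ 2 : ℝ) : ℂ) by
      push_cast
      field_simp, Complex.norm_exp_ofReal]

private theorem Planch_k_cont (ε : ℝ) : Continuous (Planch_k ε) := by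
  unfold Planch_k
  fun_prop

private theorem Planch_k_int {ε : ℝ} (hε : 0 < ε) :
    ∫⁻ v : ℝ, ‖Planch_k ε v‖ₑ = ENNReal.ofReal (2 * π) := by
  have h1 : ∀ v : ℝ, ‖Planch_k ε v‖ₑ =
      ENNReal.ofReal (√(π / ε) * Real.exp (-(1 / (4 * ε)) * v ^ 2)) := by
    intro v
    rw [← Planch_k_norm hε, ofReal_norm]
  simp_rw [h1]
  rw [← ofReal_integral_eq_lintegral_ofReal
    ((integrable_exp_neg_mul_sq (by positivity)).const_mul _)
    (ae_of_all _ fun v => by positivity), integral_const_mul, integral_gaussian]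
  congr 1
  rw [← Real.sqrt_mul (by positivity)]
  rw [show π / ε * (π / (1 / (4 * ε))) = (2 * π) ^ 2 by
    field_simp
    ring, Real.sqrt_sq (by positivity)]

private theorem Planch_gauss {ε : ℝ} (hε : 0 < ε) (u y : ℝ) :
    ∫ t : ℝ, cexp (t * u * I) * (cexp (t * y * I) * cexp (-ε * t ^ 2)) = Planch_k ε (u + y) := by
  unfold Planch_k
  have h := fourierIntegral_gaussian (b := (ε : ℂ)) (by simpa using hε) ((u + y : ℝ) : ℂ)
  rw [← h]
  congr 1
  ext t
  rw [← mul_assoc, ← Complex.exp_add]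
  congr 2
  push_cast
  ring

private theorem Planch_dbl {f : ℝ → ℂ} (hm : Measurable f) {ε : ℝ} (hε : 0 < ε) :
    ∫⁻ y : ℝ, ∫⁻ u : ℝ, ‖f y‖ₑ * ‖f u‖ₑ * ‖Planch_k ε (y - u)‖ₑ ≤
      ENNReal.ofReal (2 * π) * ∫⁻ y : ℝ, ENNReal.ofReal (‖f y‖ ^ 2) := by
  obtain ⟨K, hK⟩ : ∃ K : ℝ → ENNReal, K = fun v => ‖Planch_k ε v‖ₑ := ⟨_, rfl⟩
  have hKv : ∀ v : ℝ, ‖Planch_k ε v‖ₑ = K v := fun v => by rw [hK]
  have hKm : Measurable K := by
    rw [hK]
    exact (Planch_k_cont ε).measurable.enorm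
  have hKi : ∫⁻ v : ℝ, K v = ENNReal.ofReal (2 * π) := by
    rw [hK]
    exact Planch_k_int hε
  simp_rw [hKv]
  obtain ⟨A, hA⟩ : ∃ A : ℝ → ENNReal, A = fun y : ℝ => ENNReal.ofReal (‖f y‖ ^ 2) := ⟨_, rfl⟩
  have hAv : ∀ y : ℝ, ENNReal.ofReal (‖f y‖ ^ 2) = A y := fun y => by rw [hA]
  have hAm : Measurable A := by
    rw [hA]
    fun_prop
  simp_rw [hAv]
  have h6 : ∀ y u : ℝ, 2 * (‖f y‖ₑ * ‖f u‖ₑ * K (y - u)) ≤
      A y * K (y - u) + A u * K (y - u) := by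
    intro y u
    rw [← add_mul, ← mul_assoc]
    gcongr
    rw [← hAv, ← hAv, ← ENNReal.ofReal_add (by positivity) (by positivity), ← ofReal_norm,
      ← ofReal_norm, ← ENNReal.ofReal_mul (norm_nonneg _),
      show (2 : ENNReal) = ENNReal.ofReal 2 by norm_num, ← ENNReal.ofReal_mul (by norm_num)]
    refine ENNReal.ofReal_le_ofReal ?_
    nlinarith [sq_nonneg (‖f y‖ - ‖f u‖)]
  have hK1 : ∀ y : ℝ, Measurable fun u : ℝ => K (y - u) := fun y =>
    hKm.comp (measurable_const.sub measurable_id)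
  have hK2 : ∀ u : ℝ, Measurable fun y : ℝ => K (y - u) := fun u =>
    hKm.comp (measurable_id.sub measurable_const)
  have hK3 : Measurable fun z : ℝ × ℝ => K (z.1 - z.2) :=
    hKm.comp (measurable_fst.sub measurable_snd)
  have h7 : ∫⁻ y : ℝ, ∫⁻ u : ℝ, A y * K (y - u) =
      ENNReal.ofReal (2 * π) * ∫⁻ y : ℝ, A y := by
    rw [← lintegral_const_mul _ hAm]
    refine lintegral_congr fun y => ?_
    rw [lintegral_const_mul _ (hK1 y), lintegral_sub_left_eq_self K y, hKi, mul_comm]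
  have h8 : ∫⁻ y : ℝ, ∫⁻ u : ℝ, A u * K (y - u) =
      ENNReal.ofReal (2 * π) * ∫⁻ y : ℝ, A y := by
    have hj : AEMeasurable (Function.uncurry fun (y u : ℝ) => A u * K (y - u))
        (volume.prod volume) := ((hAm.comp measurable_snd).mul hK3).aemeasurable
    rw [lintegral_lintegral_swap hj, ← lintegral_const_mul _ hAm]
    refine lintegral_congr fun u => ?_
    rw [lintegral_const_mul _ (hK2 u), lintegral_sub_right_eq_self K u, hKi, mul_comm]
  have hin : ∀ y : ℝ, Measurable fun u : ℝ => A y * K (y - u) := fun y =>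
    measurable_const.mul (hK1 y)
  have hout : Measurable fun y : ℝ => ∫⁻ u : ℝ, A y * K (y - u) :=
    Measurable.lintegral_prod_right' (f := fun z : ℝ × ℝ => A z.1 * K (z.1 - z.2))
      ((hAm.comp measurable_fst).mul hK3)
  have h9 : 2 * ∫⁻ y : ℝ, ∫⁻ u : ℝ, ‖f y‖ₑ * ‖f u‖ₑ * K (y - u) ≤
      2 * (ENNReal.ofReal (2 * π) * ∫⁻ y : ℝ, A y) := by
    calc 2 * ∫⁻ y : ℝ, ∫⁻ u : ℝ, ‖f y‖ₑ * ‖f u‖ₑ * K (y - u)
        = ∫⁻ y : ℝ, ∫⁻ u : ℝ, 2 * (‖f y‖ₑ * ‖f u‖ₑ * K (y - u)) := by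
          rw [← lintegral_const_mul' _ _ (by norm_num)]
          refine lintegral_congr fun y => ?_
          rw [← lintegral_const_mul' _ _ (by norm_num)]
      _ ≤ ∫⁻ y : ℝ, ∫⁻ u : ℝ, (A y * K (y - u) + A u * K (y - u)) :=
          lintegral_mono fun y => lintegral_mono fun u => h6 y u
      _ = ∫⁻ y : ℝ, ((∫⁻ u : ℝ, A y * K (y - u)) + ∫⁻ u : ℝ, A u * K (y - u)) := by
          refine lintegral_congr fun y => ?_
          rw [lintegral_add_left (hin y)]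
      _ = 2 * (ENNReal.ofReal (2 * π) * ∫⁻ y : ℝ, A y) := by
          rw [lintegral_add_left hout, h7, h8, ← two_mul]
  exact (ENNReal.mul_le_mul_iff_right (by norm_num) (by norm_num)).mp h9

private theorem Planch_kern {f : ℝ → ℂ} (hf : Integrable f) {ε : ℝ} (hε : 0 < ε) {F : ℝ → ℂ}
    (hFt : ∀ t : ℝ, ∫ y : ℝ, cexp (t * y * I) * f y = F t) (y : ℝ) :
    ∫ t : ℝ, cexp (t * y * I) * ((starRingEnd ℂ) (F t) * cexp (-(ε : ℂ) * (t : ℂ) ^ 2)) =
      ∫ u : ℝ, (starRingEnd ℂ) (f (-u)) * Planch_k ε (u + y) := by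
  have hE : Integrable fun t : ℝ => cexp (-(ε : ℂ) * (t : ℂ) ^ 2) :=
    integrable_cexp_neg_mul_sq (by simpa using hε)
  have hconj : ∀ t : ℝ, (starRingEnd ℂ) (F t) =
      ∫ u : ℝ, cexp (t * u * I) * (starRingEnd ℂ) (f (-u)) := by
    intro t
    rw [← hFt, ← integral_conj]
    rw [← integral_neg_eq_self]
    congr 1
    ext u
    rw [map_mul, ← Complex.exp_conj]
    congr 2
    simp
  have hft : Integrable fun u : ℝ => (starRingEnd ℂ) (f (-u)) := by
    have h2 := hf.comp_neg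
    exact (Complex.conjCLE.toContinuousLinearMap.integrable_comp h2 : _)
  have hg2 : Integrable fun t : ℝ => cexp (t * y * I) * cexp (-(ε : ℂ) * (t : ℂ) ^ 2) := by
    refine hE.bdd_mul (c := 1) (Continuous.aestronglyMeasurable (by fun_prop))
      (ae_of_all _ fun t => (Planch_norm t y).le)
  have h3 := Planch_flip hft hg2
  have hgk : ∫ u : ℝ, (starRingEnd ℂ) (f (-u)) * (∫ t : ℝ, cexp (t * u * I) *
      (cexp (t * y * I) * cexp (-(ε : ℂ) * (t : ℂ) ^ 2))) =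
      ∫ u : ℝ, (starRingEnd ℂ) (f (-u)) * Planch_k ε (u + y) := by
    congr 1
    ext u
    rw [Planch_gauss hε]
  rw [← hgk, ← h3]
  congr 1
  ext t
  rw [hconj t]
  ring

private theorem Planch_eps {f : ℝ → ℂ} (hf : Integrable f) (hm : Measurable f) {ε : ℝ}
    (hε : 0 < ε) :
    ∫⁻ t : ℝ, ENNReal.ofReal (‖∫ y : ℝ, cexp (t * y * I) * f y‖ ^ 2 * Real.exp (-ε * t ^ 2)) ≤
      ENNReal.ofReal (2 * π) * ∫⁻ y : ℝ, ENNReal.ofReal (‖f y‖ ^ 2) := by
  obtain ⟨F, hF⟩ : ∃ F : ℝ → ℂ, F = fun t : ℝ => ∫ y : ℝ, cexp (t * y * I) * f y := ⟨_, rfl⟩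
  have hFt : ∀ t : ℝ, ∫ y : ℝ, cexp (t * y * I) * f y = F t := fun t => by rw [hF]
  have hFc : Continuous F := by
    rw [hF]
    exact Planch_cont hf
  have hFb : ∀ t, ‖F t‖ ≤ ∫ y : ℝ, ‖f y‖ := fun t => by
    rw [← hFt]
    exact Planch_bdd t
  simp_rw [hFt]
  have hE : Integrable fun t : ℝ => cexp (-(ε : ℂ) * (t : ℂ) ^ 2) :=
    integrable_cexp_neg_mul_sq (by simpa using hε)
  have hg : Integrable fun t : ℝ => (starRingEnd ℂ) (F t) * cexp (-(ε : ℂ) * (t : ℂ) ^ 2) := by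
    refine hE.bdd_mul (c := ∫ y : ℝ, ‖f y‖) (Continuous.aestronglyMeasurable ?_)
      (ae_of_all _ fun t => ?_)
    · exact Complex.continuous_conj.comp hFc
    · rw [RCLike.norm_conj]
      exact hFb t
  -- the identity
  have h1 := Planch_flip hf hg
  simp_rw [Planch_kern hf hε hFt] at h1
  -- the left side
  have hreal : Integrable fun t : ℝ => ‖F t‖ ^ 2 * Real.exp (-ε * t ^ 2) := by
    refine (integrable_exp_neg_mul_sq hε).bdd_mul (c := (∫ y : ℝ, ‖f y‖) ^ 2)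
      (Continuous.aestronglyMeasurable (by fun_prop)) (ae_of_all _ fun t => ?_)
    rw [norm_pow, norm_norm]
    exact pow_le_pow_left₀ (norm_nonneg _) (hFb t) 2
  have hl : ∫⁻ t : ℝ, ENNReal.ofReal (‖F t‖ ^ 2 * Real.exp (-ε * t ^ 2)) =
      ‖∫ y : ℝ, f y * ∫ u : ℝ, (starRingEnd ℂ) (f (-u)) * Planch_k ε (u + y)‖ₑ := by
    rw [← ofReal_integral_eq_lintegral_ofReal hreal (ae_of_all _ fun t => by positivity),
      ← h1]
    have h4 : ∫ t : ℝ, (∫ y : ℝ, cexp (t * y * I) * f y) *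
        ((starRingEnd ℂ) (F t) * cexp (-(ε : ℂ) * (t : ℂ) ^ 2)) =
        ((∫ t : ℝ, ‖F t‖ ^ 2 * Real.exp (-ε * t ^ 2) : ℝ) : ℂ) := by
      rw [← integral_complex_ofReal]
      congr 1
      ext t
      rw [hFt, ← mul_assoc, Complex.mul_conj, Complex.normSq_eq_norm_sq]
      push_cast
      rfl
    rw [h4, ← ofReal_norm, Complex.norm_real, Real.norm_of_nonneg
      (integral_nonneg fun t => by positivity)]
  rw [hl]
  -- the double integral
  have h5 : ‖∫ y : ℝ, f y * ∫ u : ℝ, (starRingEnd ℂ) (f (-u)) * Planch_k ε (u + y)‖ₑ ≤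
      ∫⁻ y : ℝ, ∫⁻ u : ℝ, ‖f y‖ₑ * ‖f u‖ₑ * ‖Planch_k ε (y - u)‖ₑ := by
    refine (enorm_integral_le_lintegral_enorm _).trans (lintegral_mono fun y => ?_)
    rw [enorm_mul]
    calc ‖f y‖ₑ * ‖∫ u : ℝ, (starRingEnd ℂ) (f (-u)) * Planch_k ε (u + y)‖ₑ
        ≤ ‖f y‖ₑ * ∫⁻ u : ℝ, ‖(starRingEnd ℂ) (f (-u)) * Planch_k ε (u + y)‖ₑ := by
          gcongr
          exact enorm_integral_le_lintegral_enorm _
      _ = ‖f y‖ₑ * ∫⁻ u : ℝ, ‖f u‖ₑ * ‖Planch_k ε (y - u)‖ₑ := by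
          congr 1
          rw [← lintegral_neg_eq_self]
          refine lintegral_congr fun u => ?_
          rw [enorm_mul, neg_neg, RCLike.enorm_conj, neg_add_eq_sub]
      _ = ∫⁻ u : ℝ, ‖f y‖ₑ * ‖f u‖ₑ * ‖Planch_k ε (y - u)‖ₑ := by
          rw [← lintegral_const_mul' _ _ enorm_ne_top]
          refine lintegral_congr fun u => ?_
          rw [mul_assoc]
  exact h5.trans (Planch_dbl hm hε)

private theorem Planch_core {f : ℝ → ℂ} (hf : Integrable f) (hm : Measurable f) :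
    ∫⁻ t : ℝ, ENNReal.ofReal (‖∫ y : ℝ, cexp (t * y * I) * f y‖ ^ 2) ≤
      ENNReal.ofReal (2 * π) * ∫⁻ y : ℝ, ENNReal.ofReal (‖f y‖ ^ 2) := by
  have hc := Planch_cont hf
  have h1 : ∀ t : ℝ, Filter.liminf (fun n : ℕ => ENNReal.ofReal
      (‖∫ y : ℝ, cexp (t * y * I) * f y‖ ^ 2 * Real.exp (-(1 / ((n : ℝ) + 1)) * t ^ 2)))
        Filter.atTop = ENNReal.ofReal (‖∫ y : ℝ, cexp (t * y * I) * f y‖ ^ 2) := by
    intro t
    apply Filter.Tendsto.liminf_eq
    have h2 : Filter.Tendsto (fun n : ℕ => ‖∫ y : ℝ, cexp (t * y * I) * f y‖ ^ 2 *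
        Real.exp (-(1 / ((n : ℝ) + 1)) * t ^ 2)) Filter.atTop
        (nhds (‖∫ y : ℝ, cexp (t * y * I) * f y‖ ^ 2 * Real.exp (-0 * t ^ 2))) := by
      refine Filter.Tendsto.const_mul _ ?_
      exact (Real.continuous_exp.tendsto _).comp
        ((tendsto_one_div_add_atTop_nhds_zero_nat.neg).mul_const _)
    rw [neg_zero, zero_mul, Real.exp_zero, mul_one] at h2
    exact ENNReal.tendsto_ofReal h2
  calc ∫⁻ t : ℝ, ENNReal.ofReal (‖∫ y : ℝ, cexp (t * y * I) * f y‖ ^ 2)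
      = ∫⁻ t : ℝ, Filter.liminf (fun n : ℕ => ENNReal.ofReal
          (‖∫ y : ℝ, cexp (t * y * I) * f y‖ ^ 2 * Real.exp (-(1 / ((n : ℝ) + 1)) * t ^ 2)))
          Filter.atTop := by
        refine lintegral_congr fun t => (h1 t).symm
    _ ≤ Filter.liminf (fun n : ℕ => ∫⁻ t : ℝ, ENNReal.ofReal
          (‖∫ y : ℝ, cexp (t * y * I) * f y‖ ^ 2 * Real.exp (-(1 / ((n : ℝ) + 1)) * t ^ 2)))
          Filter.atTop := lintegral_liminf_le fun n => by
            have := hc.measurable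
            fun_prop
    _ ≤ ENNReal.ofReal (2 * π) * ∫⁻ y : ℝ, ENNReal.ofReal (‖f y‖ ^ 2) := by
        refine Filter.liminf_le_of_le (by isBoundedDefault) fun b hb => ?_
        obtain ⟨n, hn⟩ := hb.exists
        exact hn.trans (Planch_eps hf hm (by positivity))

theorem plancherel_le (f : ℝ → ℂ) (hf : Integrable f) :
    ∫⁻ t : ℝ, ENNReal.ofReal (‖∫ y : ℝ, cexp (t * y * I) * f y‖ ^ 2) ≤
      ENNReal.ofReal (2 * π) * ∫⁻ y : ℝ, ENNReal.ofReal (‖f y‖ ^ 2) := by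
  have hae := hf.1.ae_eq_mk
  have hm : Measurable (hf.1.mk f) := hf.1.stronglyMeasurable_mk.measurable
  have hi : Integrable (hf.1.mk f) := hf.congr hae
  have h := Planch_core hi hm
  have h1 : ∀ t : ℝ, ∫ y : ℝ, cexp (t * y * I) * f y =
      ∫ y : ℝ, cexp (t * y * I) * hf.1.mk f y := by
    intro t
    refine integral_congr_ae ?_
    filter_upwards [hae] with y hy
    rw [hy]
  have h2 : ∫⁻ y : ℝ, ENNReal.ofReal (‖f y‖ ^ 2) =
      ∫⁻ y : ℝ, ENNReal.ofReal (‖hf.1.mk f y‖ ^ 2) := by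
    refine lintegral_congr_ae ?_
    filter_upwards [hae] with y hy
    rw [hy]
  simp_rw [h1, h2]
  exact h

end Pool.Agent.GH
end

section

/-! TASK Part. The primes below `M` are the disjoint union of the small, coarse and fine blocks.
`L > 0` by `L_ge`, `θ ≤ 1/100`, so `θ^5 L < θ L`, and `M = ⌊T^θ⌋ + 1` with `T = exp L > 0`; a coarse prime satisfies `p ≤ exp(θ^5 L) ≤ T^θ < M`. A prime `p < M` with `p ≤ p0` is in `R0` (and not in `Rf`, by `p0_le`, nor in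
`R j`); one with `p > p0` and `log p ≤ θ^5 L` is in exactly one `R j` (`cover`, `disj`); the others are in `Rf`. `prod_parts`: product over the disjoint union (`Finset.prod_union`, `Finset.prod_biUnion`).
`Zt_parts`: apply it to the definition of `Zt`. `blocks_expect`: `indep_blocks` with `I = range (J+3)` and the family `R j` (`j ≤ J`), `R0` (index `J+1`), `Rf` (index `J+2`).
`depends_*`: a function of the form `G (PX R z w)` or `Zt R σ w` only depends on the coordinates `p ∈ R` (for `PX` use `PX_eq`, the elements of `R` are primes). -/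

set_option autoImplicit false

namespace Pool.Agent.GH

open Complex MeasureTheory Finset
open scoped Real ComplexConjugate

private lemma Part_facts {S : Sys} {C c : ℝ} (hS : Good S C c) :
    Nat.primesBelow S.M = S.R0 ∪ (Finset.range (S.J + 1)).biUnion S.R ∪ S.Rf ∧
      Disjoint S.R0 ((Finset.range (S.J + 1)).biUnion S.R) ∧
      Disjoint (S.R0 ∪ (Finset.range (S.J + 1)).biUnion S.R) S.Rf ∧
      (∀ p ∈ (Finset.range (S.J + 1)).biUnion S.R, p.Prime ∧ S.p0 < p ∧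
        Real.log p ≤ S.θ ^ 5 * S.L) ∧ Disjoint S.R0 S.Rf := by
  classical
  have hL : 0 < S.L := lt_of_lt_of_le (by have := hS.θ_pos; positivity) hS.L_ge
  have hθ := hS.θ_pos
  have hθ1 : S.θ ≤ 1 := hS.θ_le.trans (by norm_num)
  have hT : 0 < S.T := lt_of_lt_of_le one_pos hS.T_ge
  have hB : ∀ p ∈ (Finset.range (S.J + 1)).biUnion S.R, p.Prime ∧ S.p0 < p ∧
      Real.log p ≤ S.θ ^ 5 * S.L := by
    intro p hp
    obtain ⟨j, hj, hp⟩ := Finset.mem_biUnion.1 hp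
    have h1 := hS.prime j (by rw [Finset.mem_range] at hj; omega) p hp
    exact ⟨h1.1, h1.2.1, h1.2.2.1⟩
  have hsmall : ∀ p : ℕ, p.Prime → Real.log p ≤ S.θ ^ 5 * S.L → p < S.M := by
    intro p hp hlog
    have hp0 : (0 : ℝ) < p := by exact_mod_cast hp.pos
    have h1 : S.θ ^ 5 * S.L ≤ S.θ * S.L := by
      refine mul_le_mul_of_nonneg_right ?_ hL.le
      calc S.θ ^ 5 ≤ S.θ ^ 1 := pow_le_pow_of_le_one hθ.le hθ1 (by norm_num)
        _ = S.θ := pow_one _
    have h2 : (p : ℝ) ≤ S.T ^ S.θ := by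
      rw [Real.rpow_def_of_pos hT, ← Real.log_le_iff_le_exp hp0]
      refine (hlog.trans h1).trans (le_of_eq ?_)
      unfold Sys.L
      ring
    have h3 : p ≤ ⌊S.T ^ S.θ⌋₊ := Nat.le_floor h2
    unfold Sys.M Mof
    omega
  have hR0log : ∀ p ∈ S.R0, Real.log p ≤ S.θ ^ 5 * S.L := by
    intro p hp
    unfold Sys.R0 at hp
    obtain ⟨h1, h2⟩ := Finset.mem_filter.1 hp
    have hp0 : (0 : ℝ) < p := by
      exact_mod_cast (Nat.mem_primesBelow.1 h1).2.pos
    refine le_trans ?_ hS.p0_le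
    exact Real.log_le_log hp0 (by exact_mod_cast h2)
  have hRflog : ∀ p ∈ S.Rf, S.θ ^ 5 * S.L < Real.log p := by
    intro p hp
    unfold Sys.Rf at hp
    exact (Finset.mem_filter.1 hp).2
  have hd : Disjoint S.R0 S.Rf := by
    rw [Finset.disjoint_left]
    intro p h1 h2
    exact absurd (hR0log p h1) (not_le.2 (hRflog p h2))
  refine ⟨?_, ?_, ?_, hB, hd⟩
  · ext p
    rw [Finset.mem_union, Finset.mem_union]
    constructor
    · intro hp
      have hp' := Nat.mem_primesBelow.1 hp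
      by_cases h1 : p ≤ S.p0
      · left; left
        unfold Sys.R0
        exact Finset.mem_filter.2 ⟨hp, h1⟩
      · by_cases h2 : S.θ ^ 5 * S.L < Real.log p
        · right
          unfold Sys.Rf
          exact Finset.mem_filter.2 ⟨hp, h2⟩
        · left; right
          obtain ⟨j, hj, hpj⟩ := hS.cover p hp'.2 (not_le.1 h1) (not_lt.1 h2)
          exact Finset.mem_biUnion.2 ⟨j, Finset.mem_range.2 (by omega), hpj⟩
    · rintro ((h | h) | h)
      · unfold Sys.R0 at h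
        exact (Finset.mem_filter.1 h).1
      · obtain ⟨h1, h2, h3⟩ := hB p h
        exact Nat.mem_primesBelow.2 ⟨hsmall p h1 h3, h1⟩
      · unfold Sys.Rf at h
        exact (Finset.mem_filter.1 h).1
  · rw [Finset.disjoint_left]
    intro p h1 h2
    unfold Sys.R0 at h1
    exact absurd (Finset.mem_filter.1 h1).2 (not_le.2 (hB p h2).2.1)
  · rw [Finset.disjoint_left]
    intro p h1 h2
    rcases Finset.mem_union.1 h1 with h1 | h1
    · exact absurd (hR0log p h1) (not_le.2 (hRflog p h2))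
    · exact absurd (hB p h1).2.2 (not_le.2 (hRflog p h2))

private lemma Part_disj {S : Sys} {C c : ℝ} (hS : Good S C c) :
    (↑(Finset.range (S.J + 1)) : Set ℕ).PairwiseDisjoint S.R := by
  intro i hi j hj hij
  have hi' := Finset.mem_range.1 (Finset.mem_coe.1 hi)
  have hj' := Finset.mem_range.1 (Finset.mem_coe.1 hj)
  exact hS.disj i (by omega) j (by omega) hij

theorem prod_parts {S : Sys} {C c : ℝ} (hS : Good S C c) {β : Type*} [CommMonoid β] (f : ℕ → β) :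
    ∏ p ∈ Nat.primesBelow S.M, f p =
      (∏ p ∈ S.R0, f p) * (∏ j ∈ Finset.range (S.J + 1), ∏ p ∈ S.R j, f p) * ∏ p ∈ S.Rf, f p := by
  classical
  obtain ⟨h1, h2, h3, -, -⟩ := Part_facts hS
  rw [h1, Finset.prod_union h3, Finset.prod_union h2, Finset.prod_biUnion (Part_disj hS)]

theorem sum_parts {S : Sys} {C c : ℝ} (hS : Good S C c) (f : ℕ → ℝ) :
    ∑ p ∈ Nat.primesBelow S.M, f p =
      (∑ p ∈ S.R0, f p) + (∑ j ∈ Finset.range (S.J + 1), ∑ p ∈ S.R j, f p) + ∑ p ∈ S.Rf, f p := by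
  classical
  obtain ⟨h1, h2, h3, -, -⟩ := Part_facts hS
  rw [h1, Finset.sum_union h3, Finset.sum_union h2, Finset.sum_biUnion (Part_disj hS)]

theorem Zt_parts {S : Sys} {C c : ℝ} (hS : Good S C c) (σ : ℝ) (w : Om) :
    Zt (Nat.primesBelow S.M) σ w =
      Zt S.R0 σ w * (∏ j ∈ Finset.range (S.J + 1), Zt (S.R j) σ w) * Zt S.Rf σ w := by
  unfold Zt
  exact prod_parts hS _

theorem depends_PX {R : Finset ℕ} (hR : ∀ p ∈ R, p.Prime) (z : ℂ) {w w' : Om}
    (h : ∀ p ∈ R, w p = w' p) : PX R z w = PX R z w' := by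
  rw [PX_eq R hR, PX_eq R hR]
  refine Finset.sum_congr rfl fun p hp => ?_
  unfold X
  rw [h p hp]

theorem depends_Zt {R : Finset ℕ} (σ : ℝ) {w w' : Om} (h : ∀ p ∈ R, w p = w' p) :
    Zt R σ w = Zt R σ w' := by
  unfold Zt X
  refine Finset.prod_congr rfl fun p hp => ?_
  rw [h p hp]

theorem blocks_expect {𝕜 : Type*} [RCLike 𝕜] {S : Sys} {C c : ℝ} (hS : Good S C c)
    (g0 gf : Om → 𝕜) (g : ℕ → Om → 𝕜) (m0 : Measurable g0) (mf : Measurable gf)
    (m : ∀ j ≤ S.J, Measurable (g j))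
    (h0 : ∀ w w' : Om, (∀ p ∈ S.R0, w p = w' p) → g0 w = g0 w')
    (hf : ∀ w w' : Om, (∀ p ∈ S.Rf, w p = w' p) → gf w = gf w')
    (h : ∀ j ≤ S.J, ∀ w w' : Om, (∀ p ∈ S.R j, w p = w' p) → g j w = g j w') :
    ∫ w, g0 w * (∏ j ∈ Finset.range (S.J + 1), g j w) * gf w ∂mu =
      (∫ w, g0 w ∂mu) * (∏ j ∈ Finset.range (S.J + 1), ∫ w, g j w ∂mu) * ∫ w, gf w ∂mu := by
  classical
  obtain ⟨-, h2, h3, -, h5⟩ := Part_facts hS
  have h4 : Disjoint ((Finset.range (S.J + 1)).biUnion S.R) S.Rf :=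
    Finset.disjoint_of_subset_left Finset.subset_union_right h3
  set R' : ℕ → Finset ℕ := fun i => if i ≤ S.J then S.R i else if i = S.J + 1 then S.R0 else S.Rf
    with hR'
  set g' : ℕ → Om → 𝕜 := fun i => if i ≤ S.J then g i else if i = S.J + 1 then g0 else gf with hg'
  have hRj : ∀ j, j ≤ S.J → R' j = S.R j := fun j hj => if_pos hj
  have hR1 : R' (S.J + 1) = S.R0 := by
    rw [hR']
    beta_reduce
    rw [if_neg (by omega), if_pos rfl]
  have hR2 : R' (S.J + 2) = S.Rf := by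
    rw [hR']
    beta_reduce
    rw [if_neg (by omega), if_neg (by omega)]
  have hgj : ∀ j, j ≤ S.J → g' j = g j := fun j hj => if_pos hj
  have hg1 : g' (S.J + 1) = g0 := by
    rw [hg']
    beta_reduce
    rw [if_neg (by omega), if_pos rfl]
  have hg2 : g' (S.J + 2) = gf := by
    rw [hg']
    beta_reduce
    rw [if_neg (by omega), if_neg (by omega)]
  have hcase : ∀ i ∈ Finset.range (S.J + 3), i ≤ S.J ∨ i = S.J + 1 ∨ i = S.J + 2 := by
    intro i hi
    rw [Finset.mem_range] at hi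
    omega
  have hsub : ∀ j, j ≤ S.J → S.R j ⊆ (Finset.range (S.J + 1)).biUnion S.R := fun j hj =>
    Finset.subset_biUnion_of_mem S.R (Finset.mem_range.2 (by omega))
  have key := indep_blocks (𝕜 := 𝕜) (Finset.range (S.J + 3)) R' (by
    intro i hi j hj hij
    rcases hcase i hi with hi' | hi' | hi' <;> rcases hcase j hj with hj' | hj' | hj'
    · rw [hRj i hi', hRj j hj']
      exact hS.disj i hi' j hj' hij
    · rw [hRj i hi', hj', hR1]
      exact (Finset.disjoint_of_subset_right (hsub i hi') h2).symm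
    · rw [hRj i hi', hj', hR2]
      exact Finset.disjoint_of_subset_left (hsub i hi') h4
    · rw [hRj j hj', hi', hR1]
      exact Finset.disjoint_of_subset_right (hsub j hj') h2
    · exact absurd (hi'.trans hj'.symm) hij
    · rw [hi', hj', hR1, hR2]
      exact h5
    · rw [hRj j hj', hi', hR2]
      exact (Finset.disjoint_of_subset_left (hsub j hj') h4).symm
    · rw [hi', hj', hR1, hR2]
      exact h5.symm
    · exact absurd (hi'.trans hj'.symm) hij) g' (by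
    intro i hi
    rcases hcase i hi with hi' | hi' | hi'
    · rw [hgj i hi']
      exact m i hi'
    · rw [hi', hg1]
      exact m0
    · rw [hi', hg2]
      exact mf) (by
    intro i hi w w' hw
    rcases hcase i hi with hi' | hi' | hi'
    · rw [hgj i hi']
      rw [hRj i hi'] at hw
      exact h i hi' w w' hw
    · rw [hi', hg1]
      rw [hi', hR1] at hw
      exact h0 w w' hw
    · rw [hi', hg2]
      rw [hi', hR2] at hw
      exact hf w w' hw)
  have hprod : ∀ w : Om, ∏ i ∈ Finset.range (S.J + 3), g' i w =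
      g0 w * (∏ j ∈ Finset.range (S.J + 1), g j w) * gf w := by
    intro w
    rw [Finset.prod_range_succ, Finset.prod_range_succ, hg1, hg2, mul_comm (g0 w)]
    congr 2
    refine Finset.prod_congr rfl fun j hj => ?_
    rw [hgj j (by rw [Finset.mem_range] at hj; omega)]
  have hprod2 : ∏ i ∈ Finset.range (S.J + 3), ∫ w, g' i w ∂mu =
      (∫ w, g0 w ∂mu) * (∏ j ∈ Finset.range (S.J + 1), ∫ w, g j w ∂mu) * ∫ w, gf w ∂mu := by
    rw [Finset.prod_range_succ, Finset.prod_range_succ, hg1, hg2, mul_comm (∫ w, g0 w ∂mu)]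
    congr 2
    refine Finset.prod_congr rfl fun j hj => ?_
    rw [hgj j (by rw [Finset.mem_range] at hj; omega)]
  rw [← hprod2, ← key]
  exact integral_congr_ae (Filter.Eventually.of_forall fun w => (hprod w).symm)

end Pool.Agent.GH
end

section

/-! TASK SR. Smooth rationals times rough integers.
Every `n ≥ 1` is uniquely `n = l r` with `l` smooth (`l ∈ Nat.smoothNumbers M`) and `r` rough (`Rough M r`): `l = ∏_{p<M} p^{v_p(n)}`.
`cs_pos`: if `cs M F w ρ ≠ 0` some `q ∈ F` has `l q1 = ρ q2` with `l ≥ 1`, so `ρ > 0`, and `ρ = l q1/q2` is a quotient of smooth integers.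
`cs_inj`: if `ρ r = ρ' r'`, write `ρ = a/b`, `ρ' = a'/b'` with smooth `a,b,a',b'`: `a b' r = a' b r'`, and comparing the smooth and rough parts
`a b' = a' b`, `r = r'`.
`hasSum_SS`: for fixed `q ∈ F` the map `n ↦ (l q1/q2, r)`, `n+1 = l r`, is injective; push the sum over `n` forward along it and sum over `q`. -/

set_option autoImplicit false

namespace Pool.Agent.GH

open Complex MeasureTheory Finset
open scoped Real ComplexConjugate

private theorem SR_exists (M : ℕ) (n : ℕ) (hn : n ≠ 0) :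
    ∃ l r : ℕ, l ∈ Nat.smoothNumbers M ∧ Rough M r ∧ l * r = n := by
  induction n using Nat.strong_induction_on with
  | _ n ih =>
    by_cases h : ∃ p : ℕ, p.Prime ∧ p ∣ n ∧ p < M
    · obtain ⟨p, hp, ⟨m, rfl⟩, hpM⟩ := h
      have hm : m ≠ 0 := by rintro rfl; simp at hn
      have hlt : m < p * m := by
        have := hp.two_le
        have hmpos := Nat.pos_of_ne_zero hm
        nlinarith
      obtain ⟨l, r, hl, hr, rfl⟩ := ih m hlt hm
      refine ⟨p * l, r, Nat.mul_mem_smoothNumbers ?_ hl, hr, by ring⟩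
      rw [Nat.mem_smoothNumbers']
      intro q hq hqp
      rw [(Nat.prime_dvd_prime_iff_eq hq hp).mp hqp]
      exact hpM
    · refine ⟨1, n, ?_, ⟨hn, fun p hp hpn => ?_⟩, by ring⟩
      · rw [Nat.mem_smoothNumbers']
        intro q hq hq1
        exact absurd (Nat.dvd_one.mp hq1) hq.one_lt.ne'
      · by_contra hlt
        exact h ⟨p, hp, hpn, not_le.mp hlt⟩

private theorem SR_coprime {M l r : ℕ} (hl : l ∈ Nat.smoothNumbers M) (hr : Rough M r) :
    Nat.Coprime l r := by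
  rw [Nat.coprime_iff_gcd_eq_one]
  by_contra h
  obtain ⟨p, hp, hpd⟩ := Nat.exists_prime_and_dvd h
  have h1 := (Nat.mem_smoothNumbers'.mp hl) p hp (hpd.trans (Nat.gcd_dvd_left _ _))
  have h2 := hr.2 p hp (hpd.trans (Nat.gcd_dvd_right _ _))
  omega

private theorem SR_unique {M l r l' r' : ℕ} (hl : l ∈ Nat.smoothNumbers M) (hr : Rough M r)
    (hl' : l' ∈ Nat.smoothNumbers M) (hr' : Rough M r') (h : l * r = l' * r') :
    l = l' ∧ r = r' := by
  have h1 : l ∣ l' := by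
    have : l ∣ l' * r' := h ▸ Dvd.intro _ rfl
    exact (SR_coprime hl hr').dvd_of_dvd_mul_right this
  have h2 : l' ∣ l := by
    have : l' ∣ l * r := h ▸ Dvd.intro _ rfl
    exact (SR_coprime hl' hr).dvd_of_dvd_mul_right this
  have h3 : l = l' := Nat.dvd_antisymm h1 h2
  subst h3
  exact ⟨rfl, Nat.eq_of_mul_eq_mul_left (Nat.pos_of_ne_zero hl.1) h⟩

theorem cs_pos {M : ℕ} {F : Finset (ℕ × ℕ)} {w : ℕ × ℕ → ℂ}
    (hF : ∀ q ∈ F, q.1 ∈ Nat.smoothNumbers M ∧ q.2 ∈ Nat.smoothNumbers M) {ρ : ℚ}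
    (h : cs M F w ρ ≠ 0) : 0 < ρ ∧ ∃ a ∈ Nat.smoothNumbers M, ∃ b ∈ Nat.smoothNumbers M, ρ * b = a := by
  classical
  unfold cs at h
  obtain ⟨q, hq, hq'⟩ := Finset.exists_ne_zero_of_sum_ne_zero h
  by_cases hl : ∃ l ∈ Nat.smoothNumbers M, (l : ℚ) * q.1 = ρ * q.2
  · obtain ⟨l, hl, hl'⟩ := hl
    obtain ⟨h1, h2⟩ := hF q hq
    have e0 : (0 : ℚ) < l := by exact_mod_cast Nat.pos_of_ne_zero hl.1
    have e1 : (0 : ℚ) < q.1 := by exact_mod_cast Nat.pos_of_ne_zero h1.1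
    have e2 : (0 : ℚ) < q.2 := by exact_mod_cast Nat.pos_of_ne_zero h2.1
    refine ⟨?_, l * q.1, Nat.mul_mem_smoothNumbers hl h1, q.2, h2, ?_⟩
    · have : 0 < ρ * q.2 := hl' ▸ mul_pos e0 e1
      exact (pos_iff_pos_of_mul_pos this).mpr e2
    · push_cast; exact hl'.symm
  · exact absurd (if_neg hl) hq'

theorem cs_inj {M : ℕ} {F : Finset (ℕ × ℕ)} {w : ℕ × ℕ → ℂ}
    (hF : ∀ q ∈ F, q.1 ∈ Nat.smoothNumbers M ∧ q.2 ∈ Nat.smoothNumbers M) {ρ ρ' : ℚ} {r r' : ℕ}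
    (h : cs M F w ρ ≠ 0) (h' : cs M F w ρ' ≠ 0) (hr : Rough M r) (hr' : Rough M r')
    (he : ρ * r = ρ' * r') : ρ = ρ' ∧ r = r' := by
  obtain ⟨-, a, ha, b, hb, hab⟩ := cs_pos hF h
  obtain ⟨-, a', ha', b', hb', hab'⟩ := cs_pos hF h'
  have e1 : ((a * b') * r : ℕ) = (a' * b) * r' := by
    have : (((a * b') * r : ℕ) : ℚ) = ((a' * b) * r' : ℕ) := by
      push_cast
      rw [← hab, ← hab']
      linear_combination (b * b' : ℚ) * he
    exact_mod_cast this
  obtain ⟨h1, h2⟩ := SR_unique (Nat.mul_mem_smoothNumbers ha hb') hr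
    (Nat.mul_mem_smoothNumbers ha' hb) hr' e1
  refine ⟨?_, h2⟩
  have h3 : (a * b' : ℚ) = a' * b := by exact_mod_cast h1
  rw [← hab, ← hab'] at h3
  have hb0 : (b : ℚ) ≠ 0 := by exact_mod_cast hb.1
  have hb0' : (b' : ℚ) ≠ 0 := by exact_mod_cast hb'.1
  have : (ρ - ρ') * (b * b') = 0 := by linear_combination h3
  rcases mul_eq_zero.mp this with h4 | h4
  · exact sub_eq_zero.mp h4
  · exact absurd h4 (mul_ne_zero hb0 hb0')

/-- the injection `n ↦ (l q1 / q2, r)` where `n + 1 = l r` -/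
private noncomputable def SR_g (M : ℕ) (q : ℕ × ℕ) (n : ℕ) : ℚ × ℕ :=
  (((SR_exists M (n + 1) n.succ_ne_zero).choose : ℚ) * q.1 / q.2,
    (SR_exists M (n + 1) n.succ_ne_zero).choose_spec.choose)

private theorem SR_g_spec (M : ℕ) (q : ℕ × ℕ) (n : ℕ) :
    ∃ l r : ℕ, l ∈ Nat.smoothNumbers M ∧ Rough M r ∧ l * r = n + 1 ∧
      SR_g M q n = ((l : ℚ) * q.1 / q.2, r) := by
  have h := (SR_exists M (n + 1) n.succ_ne_zero).choose_spec.choose_spec
  exact ⟨_, _, h.1, h.2.1, h.2.2, rfl⟩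

private theorem SR_g_inj (M : ℕ) {q : ℕ × ℕ} (h1 : q.1 ≠ 0) (h2 : q.2 ≠ 0) :
    Function.Injective (SR_g M q) := by
  intro n n' h
  obtain ⟨l, r, hl, hr, e, g⟩ := SR_g_spec M q n
  obtain ⟨l', r', hl', hr', e', g'⟩ := SR_g_spec M q n'
  rw [g, g'] at h
  have ha := (Prod.mk.inj h).1
  have hb := (Prod.mk.inj h).2
  have e1 : (q.1 : ℚ) ≠ 0 := by exact_mod_cast h1
  have e2 : (q.2 : ℚ) ≠ 0 := by exact_mod_cast h2
  have hl0 : (l : ℚ) = l' := by
    field_simp at ha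
    exact ha
  have hl1 : l = l' := by exact_mod_cast hl0
  subst hl1 hb
  omega

private theorem SR_g_range (M : ℕ) {q : ℕ × ℕ} (h1 : q.1 ≠ 0) (h2 : q.2 ≠ 0) (k : ℚ × ℕ) :
    k ∈ Set.range (SR_g M q) ↔
      Rough M k.2 ∧ ∃ l ∈ Nat.smoothNumbers M, (l : ℚ) * q.1 = k.1 * q.2 := by
  have e2 : (q.2 : ℚ) ≠ 0 := by exact_mod_cast h2
  constructor
  · rintro ⟨n, rfl⟩
    obtain ⟨l, r, hl, hr, e, g⟩ := SR_g_spec M q n
    rw [g]
    refine ⟨hr, l, hl, ?_⟩
    field_simp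
  · rintro ⟨hk, l, hl, hlk⟩
    have hne : l * k.2 ≠ 0 := mul_ne_zero hl.1 hk.1
    obtain ⟨n, hn⟩ := Nat.exists_eq_succ_of_ne_zero hne
    refine ⟨n, ?_⟩
    obtain ⟨l', r', hl', hr', e, g⟩ := SR_g_spec M q n
    obtain ⟨ha, hb⟩ := SR_unique hl' hr' hl hk (by rw [e, hn])
    rw [g, ha, hb]
    refine Prod.ext ?_ rfl
    change (l : ℚ) * q.1 / q.2 = k.1
    rw [hlk]
    field_simp

open Classical in
theorem hasSum_SS {T : ℝ} (hT : 1 ≤ T) {M : ℕ} {F : Finset (ℕ × ℕ)} {w : ℕ × ℕ → ℂ}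
    (hF : ∀ q ∈ F, q.1 ∈ Nat.smoothNumbers M ∧ q.2 ∈ Nat.smoothNumbers M) {x : ℝ} (hx : 0 < x) :
    Summable (fun k : ℚ × ℕ => if Rough M k.2 then
      ‖cs M F w k.1‖ * Real.exp (-π * ((k.1 : ℝ) * k.2 * x) ^ 2 * Real.sin (1 / T)) else 0) ∧
    HasSum (fun k : ℚ × ℕ => if Rough M k.2 then
      cs M F w k.1 * cexp (-π * (((k.1 : ℝ) * k.2 * x) ^ 2 : ℝ) * om T) else 0) (SS T F w x) := by
  have hsin : 0 < Real.sin (1 / T) := by
    have h1 := (sin_bounds hT).1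
    have h2 : 0 < 1 / (2 * T) := by positivity
    linarith
  -- the value at the image point
  have hval : ∀ q ∈ F, ∀ n : ℕ, (((SR_g M q n).1 : ℝ) * (SR_g M q n).2 * x) =
      ((n + 1 : ℕ) : ℝ) * q.1 / q.2 * x := by
    intro q hq n
    obtain ⟨l, r, hl, hr, e, g⟩ := SR_g_spec M q n
    rw [g, ← e]
    push_cast
    ring
  have hexp : ∀ y : ℝ, ‖cexp (-π * ((y ^ 2 : ℝ) : ℂ) * om T)‖ =
      Real.exp (-π * y ^ 2 * Real.sin (1 / T)) := by
    intro y
    rw [Complex.norm_exp, ← om_re T]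
    congr 1
    have : (-(π : ℂ) * ((y ^ 2 : ℝ) : ℂ)) = ((-π * y ^ 2 : ℝ) : ℂ) := by push_cast; ring
    rw [this, Complex.re_ofReal_mul]
  have hsum0 : ∀ q ∈ F, Summable fun n : ℕ =>
      ‖cexp (-π * (((((n + 1 : ℕ) : ℝ) * q.1 / q.2 * x) ^ 2 : ℝ) : ℂ) * om T)‖ := by
    intro q hq
    have h1 : (0 : ℝ) < q.1 := by exact_mod_cast Nat.pos_of_ne_zero (hF q hq).1.1
    have h2 : (0 : ℝ) < q.2 := by exact_mod_cast Nat.pos_of_ne_zero (hF q hq).2.1
    have hz : 0 < ((((((q.1 : ℝ) / q.2 * x) ^ 2 : ℝ) : ℂ)) * om T).re := by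
      rw [Complex.re_ofReal_mul, om_re]
      positivity
    refine (summable_th hz).congr fun n => ?_
    congr 2
    push_cast
    ring
  have hfsum : ∀ q ∈ F, HasSum (fun n : ℕ => wa (1 / 2) w q *
      cexp (-π * (((((n + 1 : ℕ) : ℝ) * q.1 / q.2 * x) ^ 2 : ℝ) : ℂ) * om T))
      (∑' n : ℕ, wa (1 / 2) w q *
      cexp (-π * (((((n + 1 : ℕ) : ℝ) * q.1 / q.2 * x) ^ 2 : ℝ) : ℂ) * om T)) := by
    intro q hq
    exact ((hsum0 q hq).of_norm.mul_left _).hasSum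
  -- push forward
  have hpush : ∀ q ∈ F, HasSum (fun k : ℚ × ℕ => if k ∈ Set.range (SR_g M q) then
      wa (1 / 2) w q * cexp (-π * (((k.1 : ℝ) * k.2 * x) ^ 2 : ℝ) * om T) else 0)
      (∑' n : ℕ, wa (1 / 2) w q *
      cexp (-π * (((((n + 1 : ℕ) : ℝ) * q.1 / q.2 * x) ^ 2 : ℝ) : ℂ) * om T)) := by
    intro q hq
    rw [← Function.Injective.hasSum_iff (SR_g_inj M (hF q hq).1.1 (hF q hq).2.1)
      (fun k hk => if_neg hk)]
    have hfun : ((fun k : ℚ × ℕ => if k ∈ Set.range (SR_g M q) then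
        wa (1 / 2) w q * cexp (-π * (((k.1 : ℝ) * k.2 * x) ^ 2 : ℝ) * om T) else 0) ∘ SR_g M q) =
        fun n : ℕ => wa (1 / 2) w q *
          cexp (-π * (((((n + 1 : ℕ) : ℝ) * q.1 / q.2 * x) ^ 2 : ℝ) : ℂ) * om T) := by
      funext n
      simp only [Function.comp_apply, Set.mem_range_self, if_true]
      rw [hval q hq n]
    rw [hfun]
    exact hfsum q hq
  have hpushn : ∀ q ∈ F, Summable (fun k : ℚ × ℕ => if k ∈ Set.range (SR_g M q) then
      ‖wa (1 / 2) w q‖ * Real.exp (-π * ((k.1 : ℝ) * k.2 * x) ^ 2 * Real.sin (1 / T)) else 0) := by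
    intro q hq
    rw [← Function.Injective.summable_iff (SR_g_inj M (hF q hq).1.1 (hF q hq).2.1)
      (fun k hk => if_neg hk)]
    have hfun : ((fun k : ℚ × ℕ => if k ∈ Set.range (SR_g M q) then
        ‖wa (1 / 2) w q‖ * Real.exp (-π * ((k.1 : ℝ) * k.2 * x) ^ 2 * Real.sin (1 / T)) else 0)
        ∘ SR_g M q) = fun n : ℕ => ‖wa (1 / 2) w q‖ *
          ‖cexp (-π * (((((n + 1 : ℕ) : ℝ) * q.1 / q.2 * x) ^ 2 : ℝ) : ℂ) * om T)‖ := by
      funext n
      simp only [Function.comp_apply, Set.mem_range_self, if_true]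
      rw [hval q hq n, hexp]
    rw [hfun]
    exact (hsum0 q hq).mul_left _
  have hcond : ∀ q ∈ F, ∀ k : ℚ × ℕ, k ∈ Set.range (SR_g M q) ↔
      Rough M k.2 ∧ ∃ l ∈ Nat.smoothNumbers M, (l : ℚ) * q.1 = k.1 * q.2 := fun q hq k =>
    SR_g_range M (hF q hq).1.1 (hF q hq).2.1 k
  have hcs : ∀ k : ℚ × ℕ, (∑ q ∈ F, if k ∈ Set.range (SR_g M q) then
      wa (1 / 2) w q * cexp (-π * (((k.1 : ℝ) * k.2 * x) ^ 2 : ℝ) * om T) else 0) =
      if Rough M k.2 then
      cs M F w k.1 * cexp (-π * (((k.1 : ℝ) * k.2 * x) ^ 2 : ℝ) * om T) else 0 := by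
    intro k
    by_cases hk : Rough M k.2
    · rw [if_pos hk]
      unfold cs
      rw [Finset.sum_mul]
      refine Finset.sum_congr rfl fun q hq => ?_
      by_cases hl : ∃ l ∈ Nat.smoothNumbers M, (l : ℚ) * q.1 = k.1 * q.2
      · rw [if_pos ((hcond q hq k).mpr ⟨hk, hl⟩), if_pos hl]
      · rw [if_neg (fun h => hl ((hcond q hq k).mp h).2), if_neg hl, zero_mul]
    · rw [if_neg hk]
      refine Finset.sum_eq_zero fun q hq => ?_
      rw [if_neg (fun h => hk ((hcond q hq k).mp h).1)]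
  refine ⟨?_, ?_⟩
  · refine Summable.of_nonneg_of_le (fun k => ?_) (fun k => ?_) (summable_sum hpushn)
    · split_ifs
      · positivity
      · exact le_rfl
    · by_cases hk : Rough M k.2
      · rw [if_pos hk]
        unfold cs
        calc ‖∑ q ∈ F, if ∃ l ∈ Nat.smoothNumbers M, (l : ℚ) * q.1 = k.1 * q.2 then
                wa (1 / 2) w q else 0‖ *
              Real.exp (-π * ((k.1 : ℝ) * k.2 * x) ^ 2 * Real.sin (1 / T))
            ≤ (∑ q ∈ F, ‖if ∃ l ∈ Nat.smoothNumbers M, (l : ℚ) * q.1 = k.1 * q.2 then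
                wa (1 / 2) w q else 0‖) *
              Real.exp (-π * ((k.1 : ℝ) * k.2 * x) ^ 2 * Real.sin (1 / T)) :=
              mul_le_mul_of_nonneg_right (norm_sum_le _ _) (Real.exp_nonneg _)
          _ = _ := by
              rw [Finset.sum_mul]
              refine Finset.sum_congr rfl fun q hq => ?_
              by_cases hl : ∃ l ∈ Nat.smoothNumbers M, (l : ℚ) * q.1 = k.1 * q.2
              · rw [if_pos hl, if_pos ((hcond q hq k).mpr ⟨hk, hl⟩)]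
              · rw [if_neg hl, if_neg (fun h => hl ((hcond q hq k).mp h).2), norm_zero, zero_mul]
      · rw [if_neg hk]
        refine Finset.sum_nonneg fun q _ => ?_
        split_ifs
        · positivity
        · exact le_rfl
  · have h1 : HasSum (fun k : ℚ × ℕ => ∑ q ∈ F, if k ∈ Set.range (SR_g M q) then
        wa (1 / 2) w q * cexp (-π * (((k.1 : ℝ) * k.2 * x) ^ 2 : ℝ) * om T) else 0)
        (∑ q ∈ F, ∑' n : ℕ, wa (1 / 2) w q *
        cexp (-π * (((((n + 1 : ℕ) : ℝ) * q.1 / q.2 * x) ^ 2 : ℝ) : ℂ) * om T)) :=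
      hasSum_sum hpush
    have h2 : SS T F w x = ∑ q ∈ F, ∑' n : ℕ, wa (1 / 2) w q *
        cexp (-π * (((((n + 1 : ℕ) : ℝ) * q.1 / q.2 * x) ^ 2 : ℝ) : ℂ) * om T) := by
      unfold SS
      exact (hasSum_sum hfsum).tsum_eq
    rw [h2]
    rw [← funext hcs]
    exact h1

end Pool.Agent.GH
end

section

/-! TASK Bessel. Bessel inequality for the coefficients `cs`.
Let `σ = 1/2 - η/2 ≥ 1/4`, `Z(v) = Zt (primesBelow M) σ v`, `Φ(v) = Z(v) ∑_{q∈F} wa (η/2) w q XX v q1 conj(XX v q2)`, so `BB M F w η = ∫ ‖Φ‖²`.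
Euler product (`EulerProduct.summable_and_hasSum_smoothNumbers_prod_primesBelow_geometric` with the completely multiplicative `n ↦ n^{-σ} X_n`):
`Z(v) = ∑_{l smooth} l^{-σ} X_l(v)`, absolutely and uniformly convergent. For `ρ = a/b > 0` (`a, b ≥ 1`) put `e_ρ = X_a conj X_b` (depends only on `ρ` since `|X_n| = 1` and `X` is
multiplicative: use numerator and denominator of `ρ`). `∫ Φ conj(e_ρ) = ∑_{q} wa (η/2) w q ∑_{l smooth} l^{-σ} ∫ X_{l q1 b} conj(X_{q2 a}) = ∑_{q, l : l q1 = ρ q2} wa (η/2) w q l^{-σ}` (`orth`), and for such `l`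
`(q1/q2)^{η/2} l^{-1/2+η/2} = (q1/q2)^{1/2} ρ^{-1/2+η/2}` (as `l = ρ q2/q1`). So `∫ Φ conj(e_ρ) = ρ^{-1/2+η/2} cs M F w ρ`.
The `e_ρ` are orthonormal (`orth`), so for every finite set `K` of positive rationals `0 ≤ ∫ ‖Φ - ∑_{ρ∈K} c_ρ e_ρ‖² = ∫‖Φ‖² - ∑_K |c_ρ|²` with `c_ρ = ρ^{-1/2+η/2} cs ρ`.
For `ρ ≤ 0` `cs M F w ρ = 0` (`cs_pos`). Sum over finite sets: `ENNReal.tsum_eq_iSup_sum`. -/

set_option autoImplicit false

namespace Pool.Agent.GH

open Complex MeasureTheory Finset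
open scoped Real ComplexConjugate

open Classical in
private theorem Bessel_Z {M : ℕ} {σ : ℝ} (hσ : 0 < σ) {A B : ℕ} (hA : A ≠ 0) (hB : B ≠ 0) :
    ∫ v, Zt (Nat.primesBelow M) σ v * (XX v A * conj (XX v B)) ∂mu =
      if ∃ l ∈ Nat.smoothNumbers M, l * A = B then ((((B : ℝ) / A) ^ (-σ) : ℝ) : ℂ) else 0 := by
  -- the completely multiplicative function
  have hfn : ∀ (v : Om) (n : ℕ), n ≠ 0 → (nC (σ : ℂ) * XX v) n = (((n : ℝ) ^ (-σ) : ℝ) : ℂ) * XX v n := by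
    intro v n hn
    change nC (σ : ℂ) n * XX v n = _
    rw [nC_apply _ hn, Complex.ofReal_cpow (Nat.cast_nonneg n)]
    push_cast
    rfl
  have hnorm : ∀ (v : Om) (n : ℕ), n ≠ 0 → ‖(nC (σ : ℂ) * XX v) n‖ = (n : ℝ) ^ (-σ) := by
    intro v n hn
    rw [hfn v n hn, norm_mul, norm_XX v hn, mul_one, Complex.norm_real,
      Real.norm_of_nonneg (by positivity)]
  have hlt : ∀ (v : Om) {p : ℕ}, p.Prime → ‖(nC (σ : ℂ) * XX v) p‖ < 1 := by
    intro v p hp
    rw [hnorm v p hp.ne_zero]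
    exact rpow_neg_lt_one hp.two_le hσ
  have hEP : ∀ v : Om, Summable (fun m : Nat.smoothNumbers M => ‖(nC (σ : ℂ) * XX v) m‖) ∧
      HasSum (fun m : Nat.smoothNumbers M => (nC (σ : ℂ) * XX v) m)
        (∏ p ∈ Nat.primesBelow M, (1 - (nC (σ : ℂ) * XX v) p)⁻¹) := fun v =>
    EulerProduct.summable_and_hasSum_smoothNumbers_prod_primesBelow_geometric
      (f := (nC (σ : ℂ) * XX v).toMonoidHom) (fun {p} hp => hlt v hp) M
  have hZ : ∀ v : Om, Zt (Nat.primesBelow M) σ v = ∑' m : Nat.smoothNumbers M, (nC (σ : ℂ) * XX v) m := by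
    intro v
    rw [(hEP v).2.tsum_eq]
    unfold Zt
    refine Finset.prod_congr rfl fun p hp => ?_
    have hpp : p.Prime := Nat.prime_of_mem_primesBelow hp
    rw [hfn v p hpp.ne_zero, XX_prime v hpp]
  have hsum0 : Summable fun m : Nat.smoothNumbers M => ((m : ℕ) : ℝ) ^ (-σ) := by
    obtain ⟨v⟩ : Nonempty Om := ⟨fun _ => 0⟩
    refine (hEP v).1.congr fun m => ?_
    exact hnorm v m (Nat.ne_zero_of_mem_smoothNumbers m.2)
  -- the terms
  have hterm : ∀ (m : Nat.smoothNumbers M) (v : Om),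
      (nC (σ : ℂ) * XX v) m * (XX v A * conj (XX v B)) =
      ((((m : ℕ) : ℝ) ^ (-σ) : ℝ) : ℂ) * (XX v ((m : ℕ) * A) * conj (XX v B)) := by
    intro m v
    rw [hfn v m (Nat.ne_zero_of_mem_smoothNumbers m.2), map_mul]
    ring
  have hcont : ∀ m : Nat.smoothNumbers M,
      Continuous fun v => (nC (σ : ℂ) * XX v) m * (XX v A * conj (XX v B)) := by
    intro m
    have : (fun v => (nC (σ : ℂ) * XX v) m * (XX v A * conj (XX v B))) = fun v =>
      ((((m : ℕ) : ℝ) ^ (-σ) : ℝ) : ℂ) * (XX v ((m : ℕ) * A) * conj (XX v B)) := by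
      funext v; exact hterm m v
    rw [this]
    exact continuous_const.mul ((continuous_XX _).mul
      (Complex.continuous_conj.comp (continuous_XX _)))
  have hint : ∀ m : Nat.smoothNumbers M,
      Integrable (fun v => (nC (σ : ℂ) * XX v) m * (XX v A * conj (XX v B))) mu :=
    fun m => integrable_of_continuous (hcont m)
  have hnt : ∀ (m : Nat.smoothNumbers M) (v : Om),
      ‖(nC (σ : ℂ) * XX v) m * (XX v A * conj (XX v B))‖ = ((m : ℕ) : ℝ) ^ (-σ) := by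
    intro m v
    rw [norm_mul, norm_mul, hnorm v m (Nat.ne_zero_of_mem_smoothNumbers m.2), norm_XX v hA,
      RCLike.norm_conj, norm_XX v hB, mul_one, mul_one]
  have hsum1 : Summable fun m : Nat.smoothNumbers M =>
      ∫ v, ‖(nC (σ : ℂ) * XX v) m * (XX v A * conj (XX v B))‖ ∂mu := by
    refine hsum0.congr fun m => ?_
    simp_rw [hnt m]
    simp
  have hHS := hasSum_integral_of_summable_integral_norm hint hsum1
  have hL : ∫ v, Zt (Nat.primesBelow M) σ v * (XX v A * conj (XX v B)) ∂mu =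
      ∫ v, ∑' m : Nat.smoothNumbers M, (nC (σ : ℂ) * XX v) m * (XX v A * conj (XX v B)) ∂mu := by
    refine integral_congr_ae (Filter.Eventually.of_forall fun v => ?_)
    show Zt (Nat.primesBelow M) σ v * (XX v A * conj (XX v B)) = _
    rw [hZ v]
    exact tsum_mul_right.symm
  rw [hL, ← hHS.tsum_eq]
  have hval : ∀ m : Nat.smoothNumbers M,
      ∫ v, (nC (σ : ℂ) * XX v) m * (XX v A * conj (XX v B)) ∂mu =
      if (m : ℕ) * A = B then ((((m : ℕ) : ℝ) ^ (-σ) : ℝ) : ℂ) else 0 := by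
    intro m
    simp_rw [hterm m]
    rw [integral_const_mul, orth (mul_ne_zero (Nat.ne_zero_of_mem_smoothNumbers m.2) hA) hB]
    split_ifs <;> simp
  simp_rw [hval]
  split_ifs with h
  · obtain ⟨l, hl, hlAB⟩ := h
    rw [tsum_eq_single (⟨l, hl⟩ : Nat.smoothNumbers M)]
    · rw [if_pos hlAB]
      congr 2
      rw [← hlAB]
      have : (A : ℝ) ≠ 0 := by exact_mod_cast hA
      push_cast
      field_simp
    · intro m hm
      rw [if_neg]
      intro h2
      apply hm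
      apply Subtype.ext
      exact Nat.eq_of_mul_eq_mul_right (Nat.pos_of_ne_zero hA) (h2.trans hlAB.symm)
  · have : ∀ m : Nat.smoothNumbers M, (if (m : ℕ) * A = B then ((((m : ℕ) : ℝ) ^ (-σ) : ℝ) : ℂ) else 0) = 0 := by
      intro m
      rw [if_neg]
      intro h2
      exact h ⟨m, m.2, h2⟩
    simp_rw [this]
    simp

/-- the character of a positive rational number -/
private noncomputable def Bessel_e (ρ : ℚ) (v : Om) : ℂ := XX v ρ.num.natAbs * conj (XX v ρ.den)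

private theorem Bessel_num {ρ : ℚ} (hρ : 0 < ρ) : ρ.num.natAbs ≠ 0 ∧ (ρ.num.natAbs : ℚ) = ρ * ρ.den := by
  have h1 : 0 < ρ.num := Rat.num_pos.2 hρ
  refine ⟨by omega, ?_⟩
  rw [Rat.mul_den_eq_num]
  have h : ((ρ.num.natAbs : ℤ) : ℚ) = (ρ.num : ℚ) := by rw [Int.natAbs_of_nonneg h1.le]
  rw [← h, Int.cast_natCast]

private theorem Bessel_cont (ρ : ℚ) : Continuous (Bessel_e ρ) := by
  unfold Bessel_e
  exact (continuous_XX _).mul (Complex.continuous_conj.comp (continuous_XX _))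

private theorem Bessel_orth {ρ ρ' : ℚ} (hρ : 0 < ρ) (hρ' : 0 < ρ') :
    ∫ v, Bessel_e ρ v * conj (Bessel_e ρ' v) ∂mu = if ρ = ρ' then 1 else 0 := by
  obtain ⟨h1, h2⟩ := Bessel_num hρ
  obtain ⟨h3, h4⟩ := Bessel_num hρ'
  have e1 : ∀ v, Bessel_e ρ v * conj (Bessel_e ρ' v) =
      XX v (ρ.num.natAbs * ρ'.den) * conj (XX v (ρ'.num.natAbs * ρ.den)) := by
    intro v
    unfold Bessel_e
    simp only [map_mul, Complex.conj_conj]
    ring
  simp_rw [e1]
  rw [orth (mul_ne_zero h1 ρ'.den_nz) (mul_ne_zero h3 ρ.den_nz)]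
  have hd : (ρ.den : ℚ) ≠ 0 := by exact_mod_cast ρ.den_nz
  have hd' : (ρ'.den : ℚ) ≠ 0 := by exact_mod_cast ρ'.den_nz
  by_cases h : ρ = ρ'
  · subst h
    rw [if_pos rfl, if_pos rfl]
  · rw [if_neg h, if_neg]
    intro h5
    have h6 : ((ρ.num.natAbs * ρ'.den : ℕ) : ℚ) = ((ρ'.num.natAbs * ρ.den : ℕ) : ℚ) := by
      exact_mod_cast h5
    push_cast at h6
    rw [h2, h4] at h6
    apply h
    have h7 : (ρ - ρ') * (ρ.den * ρ'.den) = 0 := by linear_combination h6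
    rcases mul_eq_zero.1 h7 with h8 | h8
    · linarith
    · exact absurd h8 (mul_ne_zero hd hd')

/-- the function `Φ` -/
private noncomputable def Bessel_P (M : ℕ) (F : Finset (ℕ × ℕ)) (w : ℕ × ℕ → ℂ) (η : ℝ) (v : Om) : ℂ :=
  Zt (Nat.primesBelow M) (1 / 2 - η / 2) v * ∑ q ∈ F, wa (η / 2) w q * XX v q.1 * conj (XX v q.2)

private theorem Bessel_Pcont (M : ℕ) (F : Finset (ℕ × ℕ)) (w : ℕ × ℕ → ℂ) {η : ℝ} (h1 : η ≤ 1 / 4) :
    Continuous (Bessel_P M F w η) := by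
  unfold Bessel_P
  refine (continuous_Zt _ (fun p hp => Nat.prime_of_mem_primesBelow hp) (by linarith)).mul ?_
  refine continuous_finsetSum _ fun q _ => ?_
  exact (continuous_const.mul (continuous_XX _)).mul (Complex.continuous_conj.comp (continuous_XX _))

private theorem Bessel_coef {M : ℕ} {F : Finset (ℕ × ℕ)} {w : ℕ × ℕ → ℂ} {η : ℝ} (h1 : η ≤ 1 / 4)
    (hF : ∀ q ∈ F, q.1 ∈ Nat.smoothNumbers M ∧ q.2 ∈ Nat.smoothNumbers M) {ρ : ℚ} (hρ : 0 < ρ) :
    ∫ v, Bessel_P M F w η v * conj (Bessel_e ρ v) ∂mu =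
      (((ρ : ℝ) ^ (-(1 / 2 - η / 2)) : ℝ) : ℂ) * cs M F w ρ := by
  classical
  obtain ⟨ha, hab⟩ := Bessel_num hρ
  have hb : ρ.den ≠ 0 := ρ.den_nz
  have hbQ : (ρ.den : ℚ) ≠ 0 := by exact_mod_cast hb
  have hσ : 0 < 1 / 2 - η / 2 := by linarith
  have e1 : ∀ v, Bessel_P M F w η v * conj (Bessel_e ρ v) =
      ∑ q ∈ F, wa (η / 2) w q * (Zt (Nat.primesBelow M) (1 / 2 - η / 2) v *
        (XX v (q.1 * ρ.den) * conj (XX v (q.2 * ρ.num.natAbs)))) := by
    intro v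
    unfold Bessel_P Bessel_e
    rw [Finset.mul_sum, Finset.sum_mul]
    refine Finset.sum_congr rfl fun q _ => ?_
    simp only [map_mul, Complex.conj_conj]
    ring
  simp_rw [e1]
  rw [integral_finsetSum]
  · unfold cs
    rw [Finset.mul_sum]
    refine Finset.sum_congr rfl fun q hq => ?_
    have hq1 : q.1 ≠ 0 := Nat.ne_zero_of_mem_smoothNumbers (hF q hq).1
    have hq2 : q.2 ≠ 0 := Nat.ne_zero_of_mem_smoothNumbers (hF q hq).2
    rw [integral_const_mul, Bessel_Z hσ (mul_ne_zero hq1 hb) (mul_ne_zero hq2 ha)]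
    have hiff : (∃ l ∈ Nat.smoothNumbers M, l * (q.1 * ρ.den) = q.2 * ρ.num.natAbs) ↔
        ∃ l ∈ Nat.smoothNumbers M, (l : ℚ) * q.1 = ρ * q.2 := by
      constructor
      · rintro ⟨l, hl, h⟩
        refine ⟨l, hl, ?_⟩
        have h2 : ((l * (q.1 * ρ.den) : ℕ) : ℚ) = ((q.2 * ρ.num.natAbs : ℕ) : ℚ) := by rw [h]
        push_cast at h2
        rw [hab] at h2
        have h3 : ((l : ℚ) * q.1) * ρ.den = (ρ * q.2) * ρ.den := by linear_combination h2
        exact mul_right_cancel₀ hbQ h3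
      · rintro ⟨l, hl, h⟩
        refine ⟨l, hl, ?_⟩
        have h2 : ((l * (q.1 * ρ.den) : ℕ) : ℚ) = ((q.2 * ρ.num.natAbs : ℕ) : ℚ) := by
          push_cast
          rw [hab]
          linear_combination ρ.den * h
        exact_mod_cast h2
    simp only [hiff]
    split_ifs with h
    · unfold wa
      have hq1R : (0 : ℝ) < q.1 := by exact_mod_cast Nat.pos_of_ne_zero hq1
      have hq2R : (0 : ℝ) < q.2 := by exact_mod_cast Nat.pos_of_ne_zero hq2
      have hbR : (0 : ℝ) < ρ.den := by exact_mod_cast Nat.pos_of_ne_zero hb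
      have hρR : (0 : ℝ) < ρ := by exact_mod_cast hρ
      have haR : (ρ.num.natAbs : ℝ) = ρ * ρ.den := by exact_mod_cast hab
      have h3 : (((q.2 * ρ.num.natAbs : ℕ) : ℝ) / ((q.1 * ρ.den : ℕ) : ℝ)) = ρ / (q.1 / q.2) := by
        push_cast
        rw [haR]
        field_simp
      rw [h3]
      have hrr : (0 : ℝ) < (q.1 : ℝ) / q.2 := by positivity
      have h4 : (((q.1 : ℝ) / q.2) ^ (η / 2)) * (((ρ : ℝ) / (q.1 / q.2)) ^ (-(1 / 2 - η / 2))) =
          (ρ : ℝ) ^ (-(1 / 2 - η / 2)) * ((q.1 : ℝ) / q.2) ^ (1 / 2 : ℝ) := by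
        rw [Real.div_rpow hρR.le hrr.le, mul_comm, div_mul_eq_mul_div, mul_div_assoc,
          ← Real.rpow_sub hrr]
        congr 2
        ring
      have h5 := congrArg (fun x : ℝ => (x : ℂ)) h4
      simp only [Complex.ofReal_mul] at h5
      linear_combination w q * h5
    · simp
  · intro q _
    refine integrable_of_continuous (continuous_const.mul ?_)
    refine (continuous_Zt _ (fun p hp => Nat.prime_of_mem_primesBelow hp) hσ).mul ?_
    exact (continuous_XX _).mul (Complex.continuous_conj.comp (continuous_XX _))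

/-- Bessel's inequality for finitely many characters -/
private theorem Bessel_fin {Φ : Om → ℂ} (hΦ : Continuous Φ) (K : Finset ℚ) (hK : ∀ ρ ∈ K, 0 < ρ)
    (c : ℚ → ℂ) (hc : ∀ ρ ∈ K, ∫ v, Φ v * conj (Bessel_e ρ v) ∂mu = c ρ) :
    ∑ ρ ∈ K, ‖c ρ‖ ^ 2 ≤ ∫ v, ‖Φ v‖ ^ 2 ∂mu := by
  classical
  obtain ⟨S, hS⟩ : ∃ S : Om → ℂ, S = fun v => ∑ ρ ∈ K, c ρ * Bessel_e ρ v := ⟨_, rfl⟩
  have hScont : Continuous S := by
    rw [hS]
    exact continuous_finsetSum _ fun ρ _ => continuous_const.mul (Bessel_cont ρ)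
  have hcj : ∀ {f : Om → ℂ}, Continuous f → Continuous fun v => conj (f v) := fun hf =>
    Complex.continuous_conj.comp hf
  -- ∫ Φ conj S
  have i1 : ∫ v, Φ v * conj (S v) ∂mu = ((∑ ρ ∈ K, ‖c ρ‖ ^ 2 : ℝ) : ℂ) := by
    have : ∀ v, Φ v * conj (S v) = ∑ ρ ∈ K, conj (c ρ) * (Φ v * conj (Bessel_e ρ v)) := by
      intro v
      rw [hS]
      simp only [map_sum, map_mul, Finset.mul_sum]
      refine Finset.sum_congr rfl fun ρ _ => ?_
      ring
    simp_rw [this]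
    rw [integral_finsetSum]
    · push_cast
      refine Finset.sum_congr rfl fun ρ hρ => ?_
      rw [integral_const_mul, hc ρ hρ, mul_comm, Complex.mul_conj, Complex.normSq_eq_norm_sq]
      push_cast
      rfl
    · intro ρ _
      exact integrable_of_continuous (continuous_const.mul (hΦ.mul (hcj (Bessel_cont ρ))))
  -- ∫ S conj S
  have i2 : ∫ v, S v * conj (S v) ∂mu = ((∑ ρ ∈ K, ‖c ρ‖ ^ 2 : ℝ) : ℂ) := by
    have : ∀ v, S v * conj (S v) = ∑ ρ ∈ K, ∑ ρ' ∈ K,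
        (c ρ * conj (c ρ')) * (Bessel_e ρ v * conj (Bessel_e ρ' v)) := by
      intro v
      rw [hS]
      simp only [map_sum, map_mul, Finset.sum_mul_sum]
      refine Finset.sum_congr rfl fun ρ _ => Finset.sum_congr rfl fun ρ' _ => ?_
      ring
    simp_rw [this]
    rw [integral_finsetSum]
    · push_cast
      refine Finset.sum_congr rfl fun ρ hρ => ?_
      rw [integral_finsetSum]
      · have : ∀ ρ' ∈ K, ∫ v, (c ρ * conj (c ρ')) * (Bessel_e ρ v * conj (Bessel_e ρ' v)) ∂mu =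
            if ρ = ρ' then c ρ * conj (c ρ') else 0 := by
          intro ρ' hρ'
          rw [integral_const_mul, Bessel_orth (hK ρ hρ) (hK ρ' hρ')]
          split_ifs <;> simp
        rw [Finset.sum_congr rfl this, Finset.sum_ite_eq, if_pos hρ, Complex.mul_conj,
          Complex.normSq_eq_norm_sq]
        push_cast
        rfl
      · intro ρ' _
        exact integrable_of_continuous (continuous_const.mul
          ((Bessel_cont ρ).mul (hcj (Bessel_cont ρ'))))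
    · intro ρ _
      refine integrable_finsetSum _ fun ρ' _ => ?_
      exact integrable_of_continuous (continuous_const.mul
          ((Bessel_cont ρ).mul (hcj (Bessel_cont ρ'))))
  have i3 : ∫ v, S v * conj (Φ v) ∂mu = ((∑ ρ ∈ K, ‖c ρ‖ ^ 2 : ℝ) : ℂ) := by
    have h1 : ∀ v, S v * conj (Φ v) = conj (Φ v * conj (S v)) := by
      intro v
      rw [map_mul, Complex.conj_conj, mul_comm]
    simp_rw [h1]
    rw [integral_conj, i1, Complex.conj_ofReal]
  have i4 : ∫ v, Φ v * conj (Φ v) ∂mu = ((∫ v, ‖Φ v‖ ^ 2 ∂mu : ℝ) : ℂ) := by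
    rw [← integral_complex_ofReal]
    refine integral_congr_ae (Filter.Eventually.of_forall fun v => ?_)
    show Φ v * conj (Φ v) = ((‖Φ v‖ ^ 2 : ℝ) : ℂ)
    rw [Complex.mul_conj, Complex.normSq_eq_norm_sq]
  have i5 : ∫ v, (Φ v - S v) * conj (Φ v - S v) ∂mu = ((∫ v, ‖Φ v - S v‖ ^ 2 ∂mu : ℝ) : ℂ) := by
    rw [← integral_complex_ofReal]
    refine integral_congr_ae (Filter.Eventually.of_forall fun v => ?_)
    show (Φ v - S v) * conj (Φ v - S v) = ((‖Φ v - S v‖ ^ 2 : ℝ) : ℂ)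
    rw [Complex.mul_conj, Complex.normSq_eq_norm_sq]
  have g1 : Integrable (fun v => Φ v * conj (Φ v)) mu := integrable_of_continuous (hΦ.mul (hcj hΦ))
  have g2 : Integrable (fun v => Φ v * conj (S v)) mu :=
    integrable_of_continuous (hΦ.mul (hcj hScont))
  have g3 : Integrable (fun v => S v * conj (Φ v)) mu :=
    integrable_of_continuous (hScont.mul (hcj hΦ))
  have g4 : Integrable (fun v => S v * conj (S v)) mu :=
    integrable_of_continuous (hScont.mul (hcj hScont))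
  have i6 : ∫ v, (Φ v - S v) * conj (Φ v - S v) ∂mu =
      ∫ v, Φ v * conj (Φ v) ∂mu - ∫ v, Φ v * conj (S v) ∂mu - ∫ v, S v * conj (Φ v) ∂mu +
        ∫ v, S v * conj (S v) ∂mu := by
    have g12 : Integrable (fun v => Φ v * conj (Φ v) - Φ v * conj (S v)) mu := g1.sub g2
    have g123 : Integrable (fun v => Φ v * conj (Φ v) - Φ v * conj (S v) - S v * conj (Φ v)) mu :=
      g12.sub g3
    rw [← integral_sub g1 g2, ← integral_sub g12 g3, ← integral_add g123 g4]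
    refine integral_congr_ae (Filter.Eventually.of_forall fun v => ?_)
    simp only [map_sub, Pi.sub_apply]
    ring
  rw [i5, i4, i1, i3, i2] at i6
  have i7 : ∫ v, ‖Φ v - S v‖ ^ 2 ∂mu = ∫ v, ‖Φ v‖ ^ 2 ∂mu - ∑ ρ ∈ K, ‖c ρ‖ ^ 2 := by
    have h := i6
    norm_cast at h
    linarith
  have i8 : 0 ≤ ∫ v, ‖Φ v - S v‖ ^ 2 ∂mu := integral_nonneg fun v => by positivity
  linarith

theorem bessel {M : ℕ} {F : Finset (ℕ × ℕ)} {w : ℕ × ℕ → ℂ} {η : ℝ} (h0 : 0 ≤ η) (h1 : η ≤ 1 / 4)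
    (hF : ∀ q ∈ F, q.1 ∈ Nat.smoothNumbers M ∧ q.2 ∈ Nat.smoothNumbers M) :
    ∑' ρ : ℚ, ENNReal.ofReal (‖cs M F w ρ‖ ^ 2 * (ρ : ℝ) ^ (-1 + η)) ≤
      ENNReal.ofReal (BB M F w η) := by
  classical
  rw [ENNReal.tsum_eq_iSup_sum]
  refine iSup_le fun K => ?_
  have hBB : BB M F w η = ∫ v, ‖Bessel_P M F w η v‖ ^ 2 ∂mu := by
    unfold BB
    refine integral_congr_ae (Filter.Eventually.of_forall fun v => ?_)
    show _ = ‖Bessel_P M F w η v‖ ^ 2
    unfold Bessel_P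
    rw [norm_mul, mul_pow]
  have h2 : ∑ ρ ∈ K, ENNReal.ofReal (‖cs M F w ρ‖ ^ 2 * (ρ : ℝ) ^ (-1 + η)) =
      ∑ ρ ∈ K.filter (fun ρ => 0 < ρ), ENNReal.ofReal (‖cs M F w ρ‖ ^ 2 * (ρ : ℝ) ^ (-1 + η)) := by
    rw [Finset.sum_filter]
    refine Finset.sum_congr rfl fun ρ _ => ?_
    split_ifs with h
    · rfl
    · have : cs M F w ρ = 0 := by
        by_contra hne
        exact h (cs_pos hF hne).1
      rw [this]
      simp
  rw [h2, ← ENNReal.ofReal_sum_of_nonneg]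
  · apply ENNReal.ofReal_le_ofReal
    rw [hBB]
    have h3 := Bessel_fin (Bessel_Pcont M F w h1) (K.filter (fun ρ => 0 < ρ))
      (fun ρ hρ => (Finset.mem_filter.1 hρ).2)
      (fun ρ => (((ρ : ℝ) ^ (-(1 / 2 - η / 2)) : ℝ) : ℂ) * cs M F w ρ)
      (fun ρ hρ => Bessel_coef h1 hF (Finset.mem_filter.1 hρ).2)
    refine le_trans (le_of_eq ?_) h3
    refine Finset.sum_congr rfl fun ρ hρ => ?_
    have hρ0 : (0 : ℝ) < ρ := by exact_mod_cast (Finset.mem_filter.1 hρ).2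
    rw [norm_mul, mul_pow, Complex.norm_real, Real.norm_of_nonneg (by positivity), mul_comm]
    congr 1
    rw [← Real.rpow_natCast, ← Real.rpow_mul hρ0.le]
    congr 1
    push_cast
    ring
  · intro ρ hρ
    have hρ0 : (0 : ℝ) < ρ := by exact_mod_cast (Finset.mem_filter.1 hρ).2
    positivity

end Pool.Agent.GH
end

section

/-! TASK GS. `GG` in terms of the series `SS`.
Proof. `gg T (y + log r) = 2 e^{y/2} r^{1/2} th(r² e^{2y} om) - e^{-y/2} r^{-1/2} omh` for `r = q1/q2 > 0`. Multiply by `w q` and sum over `q`; exchange the finite sum with the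
series `th` (`summable_th`): `GG T F w y = 2 e^{y/2} SS T F w (e^y) - e^{-y/2} omh ∑ wa (-1/2) w q`. Then `(a+b)² ≤ 2a²+2b²`.
`SS_bound`: for `x ≥ 1` (and `q1, q2 ≥ 1`) the series of the norms converges; `continuousOn_SS`: `SS T F w` is continuous on `(0,∞)` (it is a finite sum of `th(r²x² om)`). -/

set_option autoImplicit false

namespace Pool.Agent.GH

open Complex MeasureTheory Finset
open scoped Real ComplexConjugate

private theorem GS_re_pos {T : ℝ} (hT : 1 ≤ T) {x : ℝ} (hx : 0 < x) :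
    0 < (((x ^ 2 : ℝ) : ℂ) * om T).re := by
  rw [Complex.re_ofReal_mul, om_re]
  have h1 := (sin_bounds hT).1
  have h2 : 0 < 1 / (2 * T) := by positivity
  have h3 : 0 < Real.sin (1 / T) := lt_of_lt_of_le h2 h1
  positivity

private theorem GS_SS_eq {T : ℝ} (hT : 1 ≤ T) (F : Finset (ℕ × ℕ)) (w : ℕ × ℕ → ℂ)
    (hF : ∀ q ∈ F, q.1 ≠ 0 ∧ q.2 ≠ 0) {x : ℝ} (hx : 0 < x) :
    SS T F w x = ∑ q ∈ F, wa (1 / 2) w q * th (((((q.1 : ℝ) / q.2 * x) ^ 2 : ℝ) : ℂ) * om T) := by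
  unfold SS
  have hterm : ∀ q ∈ F, ∀ l : ℕ,
      cexp (-π * ((((l + 1 : ℕ) : ℝ) * q.1 / q.2 * x) ^ 2 : ℝ) * om T) =
      cexp (-π * ((l : ℂ) + 1) ^ 2 * (((((q.1 : ℝ) / q.2 * x) ^ 2 : ℝ) : ℂ) * om T)) := by
    intro q hq l
    congr 1
    push_cast
    ring
  have hsum : ∀ q ∈ F, Summable fun l : ℕ =>
      wa (1 / 2) w q * cexp (-π * ((((l + 1 : ℕ) : ℝ) * q.1 / q.2 * x) ^ 2 : ℝ) * om T) := by
    intro q hq
    refine Summable.mul_left _ ?_
    have hq' := hF q hq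
    have hr : 0 < (q.1 : ℝ) / q.2 * x := by
      have h1 : (0 : ℝ) < q.1 := by exact_mod_cast Nat.pos_of_ne_zero hq'.1
      have h2 : (0 : ℝ) < q.2 := by exact_mod_cast Nat.pos_of_ne_zero hq'.2
      positivity
    have := (summable_th (GS_re_pos hT hr)).of_norm
    refine this.congr ?_
    intro l
    exact (hterm q hq l).symm
  rw [Summable.tsum_finsetSum hsum]
  refine Finset.sum_congr rfl ?_
  intro q hq
  rw [tsum_mul_left]
  congr 1
  unfold th
  exact tsum_congr (hterm q hq)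

theorem GG_eq {T : ℝ} (hT : 1 ≤ T) (F : Finset (ℕ × ℕ)) (w : ℕ × ℕ → ℂ)
    (hF : ∀ q ∈ F, q.1 ≠ 0 ∧ q.2 ≠ 0) (y : ℝ) :
    GG T F w y = 2 * (Real.exp (y / 2) : ℂ) * SS T F w (Real.exp y) -
      (Real.exp (-y / 2) : ℂ) * omh T * ∑ q ∈ F, wa (-1 / 2) w q := by
  rw [GS_SS_eq hT F w hF (Real.exp_pos y)]
  unfold GG
  rw [Finset.mul_sum, Finset.mul_sum, ← Finset.sum_sub_distrib]
  refine Finset.sum_congr rfl ?_
  intro q hq
  have hq' := hF q hq
  have h1 : (0 : ℝ) < q.1 := by exact_mod_cast Nat.pos_of_ne_zero hq'.1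
  have h2 : (0 : ℝ) < q.2 := by exact_mod_cast Nat.pos_of_ne_zero hq'.2
  have hr : 0 < (q.1 : ℝ) / q.2 := by positivity
  have hlog : Real.log q.1 - Real.log q.2 = Real.log ((q.1 : ℝ) / q.2) :=
    (Real.log_div h1.ne' h2.ne').symm
  rw [hlog]
  set r : ℝ := (q.1 : ℝ) / q.2 with hrdef
  have e1 : Real.exp ((y + Real.log r) / 2) = Real.exp (y / 2) * r ^ (1 / 2 : ℝ) := by
    rw [Real.rpow_def_of_pos hr, ← Real.exp_add]
    congr 1; ring
  have e2 : Real.exp (2 * (y + Real.log r)) = (r * Real.exp y) ^ 2 := by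
    rw [show 2 * (y + Real.log r) = (Real.log r + y) + (Real.log r + y) by ring, Real.exp_add,
      Real.exp_add, Real.exp_log hr]
    ring
  have e3 : Real.exp (-(y + Real.log r) / 2) = Real.exp (-y / 2) * r ^ (-1 / 2 : ℝ) := by
    rw [Real.rpow_def_of_pos hr, ← Real.exp_add]
    congr 1; ring
  unfold gg wa
  rw [e1, e2, e3, ← hrdef]
  push_cast
  ring

theorem GG_sq_le {T : ℝ} (hT : 1 ≤ T) (F : Finset (ℕ × ℕ)) (w : ℕ × ℕ → ℂ)
    (hF : ∀ q ∈ F, q.1 ≠ 0 ∧ q.2 ≠ 0) (y : ℝ) :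
    ‖GG T F w y‖ ^ 2 ≤ 8 * Real.exp y * ‖SS T F w (Real.exp y)‖ ^ 2 +
      2 * Real.exp (-y) * (∑ q ∈ F, ‖wa (-1 / 2) w q‖) ^ 2 := by
  rw [GG_eq hT F w hF y]
  set A : ℂ := 2 * (Real.exp (y / 2) : ℂ) * SS T F w (Real.exp y) with hA
  set B : ℂ := (Real.exp (-y / 2) : ℂ) * omh T * ∑ q ∈ F, wa (-1 / 2) w q with hB
  have nA : ‖A‖ = 2 * Real.exp (y / 2) * ‖SS T F w (Real.exp y)‖ := by
    rw [hA, norm_mul, norm_mul, Complex.norm_real, Real.norm_eq_abs, abs_of_pos (Real.exp_pos _)]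
    norm_num
  have nB : ‖B‖ ≤ Real.exp (-y / 2) * ∑ q ∈ F, ‖wa (-1 / 2) w q‖ := by
    rw [hB, norm_mul, norm_mul, Complex.norm_real, Real.norm_eq_abs, abs_of_pos (Real.exp_pos _),
      norm_omh, mul_one]
    exact mul_le_mul_of_nonneg_left (norm_sum_le _ _) (Real.exp_pos _).le
  have hsub : ‖A - B‖ ≤ ‖A‖ + ‖B‖ := norm_sub_le _ _
  have h1 : ‖A - B‖ ^ 2 ≤ 2 * ‖A‖ ^ 2 + 2 * ‖B‖ ^ 2 := by
    have : ‖A - B‖ ^ 2 ≤ (‖A‖ + ‖B‖) ^ 2 := pow_le_pow_left₀ (norm_nonneg _) hsub 2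
    nlinarith [sq_nonneg (‖A‖ - ‖B‖)]
  have h2 : ‖A‖ ^ 2 = 4 * Real.exp y * ‖SS T F w (Real.exp y)‖ ^ 2 := by
    rw [nA, mul_pow, mul_pow, ← Real.exp_nat_mul]
    congr 1
    rw [show ((2 : ℕ) : ℝ) * (y / 2) = y by push_cast; ring]
    norm_num
  have h3 : ‖B‖ ^ 2 ≤ Real.exp (-y) * (∑ q ∈ F, ‖wa (-1 / 2) w q‖) ^ 2 := by
    have := pow_le_pow_left₀ (norm_nonneg _) nB 2
    refine this.trans (le_of_eq ?_)
    rw [mul_pow, ← Real.exp_nat_mul]
    congr 2
    push_cast; ring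
  calc ‖A - B‖ ^ 2 ≤ 2 * ‖A‖ ^ 2 + 2 * ‖B‖ ^ 2 := h1
    _ ≤ 2 * (4 * Real.exp y * ‖SS T F w (Real.exp y)‖ ^ 2) +
        2 * (Real.exp (-y) * (∑ q ∈ F, ‖wa (-1 / 2) w q‖) ^ 2) := by
        rw [h2]; linarith
    _ = _ := by ring

theorem continuousOn_SS {T : ℝ} (hT : 1 ≤ T) (F : Finset (ℕ × ℕ)) (w : ℕ × ℕ → ℂ)
    (hF : ∀ q ∈ F, q.1 ≠ 0 ∧ q.2 ≠ 0) : ContinuousOn (SS T F w) (Set.Ioi 0) := by
  have hc : ContinuousOn (fun x : ℝ => ∑ q ∈ F, wa (1 / 2) w q *
      th (((((q.1 : ℝ) / q.2 * x) ^ 2 : ℝ) : ℂ) * om T)) (Set.Ioi 0) := by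
    refine continuousOn_finsetSum _ ?_
    intro q hq
    refine ContinuousOn.mul continuousOn_const ?_
    refine ContinuousOn.comp continuousOn_th (t := {z : ℂ | 0 < z.re}) ?_ ?_
    · exact Continuous.continuousOn (by fun_prop)
    · intro x hx
      have hq' := hF q hq
      have h1 : (0 : ℝ) < q.1 := by exact_mod_cast Nat.pos_of_ne_zero hq'.1
      have h2 : (0 : ℝ) < q.2 := by exact_mod_cast Nat.pos_of_ne_zero hq'.2
      have hx' : (0 : ℝ) < x := hx
      exact GS_re_pos hT (by positivity)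
  refine hc.congr ?_
  intro x hx
  exact GS_SS_eq hT F w hF hx

end Pool.Agent.GH
end
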