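import Pool.Agent.Lib.MP_69b2e4_nt.GH.Basic

section

/-! TASK OnePrime. The one-prime second moment.
Let `x` be on the circle, `Xx = toCircle x`, `W(x) = 2 Re( -log(1 - u Xx) + c Xx )`, so the integrand is `exp W`. With
`-log(1-z) = z + z²/2 + O(‖z‖³)` for `‖z‖ ≤ 0.85` (constant `1/(3(1-0.85))`; Mathlib: `Complex.norm_log_one_sub_inv_sub_self_le`-type lemmas,
or the Taylor series `Complex.hasSum_taylorSeries_neg_log`):
`W = 2 Re((u+c) X) + Re(u² X²) + E`, `|E| ≤ C u³`, `|W| ≤ C1 (u + ‖c‖)`.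
`exp W ≤ 1 + W + W²/2 + |W|³ exp|W|`. Integrate: `∫ W ≤ C u³` since the integrals of `X`, `X²` vanish;
`∫ W²/2 ≤ ‖u+c‖² + C (u+‖c‖)(u² + u³)`, because `∫ (2 Re(vX))² = 2‖v‖²` and the other terms are `O((u+‖c‖)·u²)`;
`∫ |W|³ exp|W| ≤ C (u+‖c‖)³`. Since `(u+‖c‖)³ ≤ 4(u³+‖c‖³)` and `(u+‖c‖)u² ≤ 2(u³+‖c‖³)`, the integral is at most
`1 + ‖u+c‖² + C(u³+‖c‖³) ≤ exp(‖u+c‖² + C(u³+‖c‖³))`.
Alternative without logarithms: `(1-uX)^{-1} e^{cX} = ∑ A_n X^n`, Parseval: `∑‖A_n‖² `, `A_0 = 1, A_1 = u+c`, `‖A_n‖ ≤ C (u+‖c‖)^n·..` for `n ≥ 2`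
gives `1 + ‖u+c‖² + C (u+‖c‖)^4`, which is also fine: `(u+‖c‖)^4 ≤ C(u³+‖c‖³)` as everything is bounded.
(With `A_n = ∑_{i+j=n} u^i c^j/j!`, `‖A_n‖ ≤ ∑ u^i ‖c‖^j/j!`; for `n ≥ 2` and `‖c‖ ≤ C0`: `∑_{n≥2}‖A_n‖² ≤ C(u+‖c‖)^4`.) -/

set_option autoImplicit false

namespace Pool.Agent.GH

open Complex MeasureTheory Finset
open scoped Real ComplexConjugate

private theorem OnePrime_exp (w : ℂ) :
    ‖exp w - (1 + w + w ^ 2 / 2)‖ ≤ ‖w‖ ^ 3 * Real.exp ‖w‖ := by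
  have h := Complex.norm_exp_sub_sum_le_norm_mul_exp w 3
  have h1 : ∑ m ∈ range 3, w ^ m / (m.factorial : ℂ) = 1 + w + w ^ 2 / 2 := by
    simp [Finset.sum_range_succ, Nat.factorial]
  rw [h1] at h
  exact h

private theorem OnePrime_rem {S : ℝ} {z w : ℂ} {s : ℝ} (hz : ‖z‖ ≤ s) (hz1 : ‖z‖ ≤ 17 / 20)
    (hw : ‖w‖ ≤ s) (hwS : ‖w‖ ≤ S) :
    ‖(1 - z)⁻¹ * exp w - (1 + (z + w) + (z ^ 2 + z * w + w ^ 2 / 2))‖ ≤
      (10 * Real.exp S + 2) * s ^ 3 := by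
  have hs0 : 0 ≤ s := (norm_nonneg _).trans hz
  have h0 : (3 / 20 : ℝ) ≤ ‖1 - z‖ := by
    have h1 : ‖(1 : ℂ)‖ - ‖z‖ ≤ ‖1 - z‖ := norm_sub_norm_le _ _
    rw [norm_one] at h1
    linarith
  have hne : (1 : ℂ) - z ≠ 0 := by
    intro h
    rw [h, norm_zero] at h0
    norm_num at h0
  obtain ⟨r, hr⟩ : ∃ r : ℂ, r = exp w - (1 + w + w ^ 2 / 2) := ⟨_, rfl⟩
  have hE : ‖exp w‖ ≤ Real.exp S := (Complex.norm_exp_le_exp_norm w).trans
    (Real.exp_le_exp.mpr hwS)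
  have hr1 : ‖r‖ ≤ s ^ 3 * Real.exp S := by
    rw [hr]
    exact (OnePrime_exp w).trans (mul_le_mul (pow_le_pow_left₀ (norm_nonneg _) hw 3)
      (Real.exp_le_exp.mpr hwS) (Real.exp_pos _).le (by positivity))
  have hid : (1 - z)⁻¹ * exp w - (1 + (z + w) + (z ^ 2 + z * w + w ^ 2 / 2)) =
      z ^ 3 * (1 - z)⁻¹ * exp w + (1 + z + z ^ 2) * r + z ^ 2 * w + z * w ^ 2 / 2 +
        z ^ 2 * w ^ 2 / 2 := by
    have h2 : (1 - z)⁻¹ = 1 + z + z ^ 2 + z ^ 3 * (1 - z)⁻¹ := by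
      field_simp
      ring
    have h3 : exp w = 1 + w + w ^ 2 / 2 + r := by
      rw [hr]
      ring
    have h4 : (1 - z)⁻¹ * exp w = (1 + z + z ^ 2) * exp w + z ^ 3 * (1 - z)⁻¹ * exp w := by
      nth_rewrite 1 [h2]
      ring
    rw [h4]
    nth_rewrite 1 [h3]
    ring
  have hinv : ‖(1 - z)⁻¹‖ ≤ 7 := by
    rw [norm_inv]
    refine (inv_anti₀ (by norm_num) h0).trans ?_
    norm_num
  have t1 : ‖z ^ 3 * (1 - z)⁻¹ * exp w‖ ≤ s ^ 3 * 7 * Real.exp S := by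
    rw [norm_mul, norm_mul, norm_pow]
    exact mul_le_mul (mul_le_mul (pow_le_pow_left₀ (norm_nonneg _) hz 3) hinv (norm_nonneg _)
      (by positivity)) hE (norm_nonneg _) (by positivity)
  have hz' : ‖z‖ ≤ 1 := by linarith
  have hz2 : ‖z‖ ^ 2 ≤ 1 := pow_le_one₀ (norm_nonneg _) hz'
  have t2 : ‖(1 + z + z ^ 2) * r‖ ≤ 3 * (s ^ 3 * Real.exp S) := by
    rw [norm_mul]
    refine mul_le_mul ?_ hr1 (norm_nonneg _) (by norm_num)
    have h5 : ‖1 + z + z ^ 2‖ ≤ ‖(1 : ℂ)‖ + ‖z‖ + ‖z ^ 2‖ := norm_add₃_le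
    rw [norm_one, norm_pow] at h5
    linarith
  have t3 : ‖z ^ 2 * w‖ ≤ s ^ 3 := by
    rw [norm_mul, norm_pow]
    calc ‖z‖ ^ 2 * ‖w‖ ≤ s ^ 2 * s :=
          mul_le_mul (pow_le_pow_left₀ (norm_nonneg _) hz 2) hw (norm_nonneg _) (by positivity)
      _ = s ^ 3 := by ring
  have t4 : ‖z * w ^ 2 / 2‖ ≤ s ^ 3 / 2 := by
    rw [norm_div, norm_mul, norm_pow, RCLike.norm_ofNat]
    have : ‖z‖ * ‖w‖ ^ 2 ≤ s * s ^ 2 :=
      mul_le_mul hz (pow_le_pow_left₀ (norm_nonneg _) hw 2) (by positivity) hs0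
    nlinarith
  have t5 : ‖z ^ 2 * w ^ 2 / 2‖ ≤ s ^ 3 / 2 := by
    rw [norm_div, norm_mul, norm_pow, norm_pow, RCLike.norm_ofNat]
    have h6 : ‖z‖ ^ 2 ≤ s := by
      nlinarith [norm_nonneg z]
    have : ‖z‖ ^ 2 * ‖w‖ ^ 2 ≤ s * s ^ 2 :=
      mul_le_mul h6 (pow_le_pow_left₀ (norm_nonneg _) hw 2) (by positivity) hs0
    nlinarith
  rw [hid]
  refine (norm_add_le _ _).trans ((add_le_add ((norm_add_le _ _).trans (add_le_add
    ((norm_add_le _ _).trans (add_le_add ((norm_add_le _ _).trans (add_le_add t1 t2)) t3)) t4))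
    t5).trans (le_of_eq ?_))
  ring

private theorem OnePrime_sq (v a X : ℂ) (hX : ‖X‖ = 1) :
    ‖1 + v * X + a * X ^ 2‖ ^ 2 = 1 + ‖v‖ ^ 2 + ‖a‖ ^ 2 + 2 * (v * X).re + 2 * (a * X ^ 2).re +
      2 * (conj v * a * X).re := by
  have hXX : normSq X = 1 := by
    rw [Complex.normSq_eq_norm_sq, hX]
    norm_num
  have hc : conj X * X = 1 := by
    rw [← Complex.normSq_eq_conj_mul_self, hXX]
    norm_num
  have h1 : ∀ y : ℂ, ‖y‖ ^ 2 = normSq y := fun y => (Complex.normSq_eq_norm_sq y).symm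
  rw [h1, h1, h1, Complex.normSq_add, Complex.normSq_add, map_one, Complex.normSq_mul,
    Complex.normSq_mul, map_pow, hXX]
  have h2 : ((1 : ℂ) * conj (v * X)).re = (v * X).re := by
    rw [one_mul, Complex.conj_re]
  have h3 : ((1 + v * X) * conj (a * X ^ 2)).re = (a * X ^ 2).re + (conj v * a * X).re := by
    have h4 : (1 + v * X) * conj (a * X ^ 2) =
        conj (a * X ^ 2) + conj (conj v * a * X) := by
      simp only [map_mul, map_pow, Complex.conj_conj]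
      linear_combination (v * conj a * conj X) * hc
    rw [h4, Complex.add_re, Complex.conj_re, Complex.conj_re]
  rw [h2, h3]
  ring

private theorem OnePrime_pt (S : ℝ) (hS : 0 ≤ S) : ∃ K : ℝ, 0 ≤ K ∧ ∀ (u : ℝ) (c X : ℂ),
    ‖X‖ = 1 → 0 ≤ u → u ≤ 17 / 20 → ‖c‖ ≤ S →
    ‖(1 - (u : ℂ) * X)⁻¹‖ ^ 2 * Real.exp (2 * (c * X).re) ≤
      1 + ‖(u : ℂ) + c‖ ^ 2 + K * (u + ‖c‖) ^ 3 + 2 * (((u : ℂ) + c) * X).re +
      2 * ((((u : ℂ) ^ 2 + u * c + c ^ 2 / 2)) * X ^ 2).re +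
      2 * (conj ((u : ℂ) + c) * ((u : ℂ) ^ 2 + u * c + c ^ 2 / 2) * X).re := by
  obtain ⟨K, hK⟩ : ∃ K : ℝ, K = 10 * Real.exp S + 2 := ⟨_, rfl⟩
  have hK0 : 0 ≤ K := by
    rw [hK]
    positivity
  refine ⟨(1 + S) + 2 * (1 + (1 + S) + (1 + S) ^ 2) * K + K ^ 2 * (1 + S) ^ 3, by positivity,
    fun u c X hX hu0 hu hc => ?_⟩
  obtain ⟨s, hs⟩ : ∃ s : ℝ, s = u + ‖c‖ := ⟨_, rfl⟩
  have hc0 := norm_nonneg c
  have hs0 : 0 ≤ s := by linarith
  have hsS : s ≤ 1 + S := by linarith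
  have hz : ‖(u : ℂ) * X‖ = u := by
    rw [norm_mul, hX, mul_one, Complex.norm_real, Real.norm_of_nonneg hu0]
  have hw : ‖c * X‖ = ‖c‖ := by rw [norm_mul, hX, mul_one]
  have h1 := OnePrime_rem (S := S) (z := (u : ℂ) * X) (w := c * X) (s := s) (by rw [hz]; linarith)
    (by rw [hz]; exact hu) (by rw [hw]; linarith) (by rw [hw]; exact hc)
  rw [← hK] at h1
  obtain ⟨v, hv⟩ : ∃ v : ℂ, v = (u : ℂ) + c := ⟨_, rfl⟩
  obtain ⟨a, ha⟩ : ∃ a : ℂ, a = (u : ℂ) ^ 2 + u * c + c ^ 2 / 2 := ⟨_, rfl⟩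
  have hP : 1 + ((u : ℂ) * X + c * X) +
      (((u : ℂ) * X) ^ 2 + (u : ℂ) * X * (c * X) + (c * X) ^ 2 / 2) =
      1 + v * X + a * X ^ 2 := by
    rw [hv, ha]
    ring
  rw [hP] at h1
  rw [← hs, ← hv, ← ha]
  have hvs : ‖v‖ ≤ s := by
    rw [hv, hs]
    refine (norm_add_le _ _).trans ?_
    rw [Complex.norm_real, Real.norm_of_nonneg hu0]
  have has : ‖a‖ ≤ s ^ 2 := by
    rw [ha, hs]
    have h5 : ‖(u : ℂ) ^ 2 + u * c + c ^ 2 / 2‖ ≤ ‖(u : ℂ) ^ 2‖ + ‖(u : ℂ) * c‖ + ‖c ^ 2 / 2‖ :=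
      norm_add₃_le
    rw [norm_pow, norm_mul, norm_div, norm_pow, Complex.norm_real, Real.norm_of_nonneg hu0,
      RCLike.norm_ofNat] at h5
    nlinarith [mul_nonneg hu0 hc0]
  obtain ⟨f, hf⟩ : ∃ f : ℂ, f = (1 - (u : ℂ) * X)⁻¹ * exp (c * X) := ⟨_, rfl⟩
  have hint : ‖(1 - (u : ℂ) * X)⁻¹‖ ^ 2 * Real.exp (2 * (c * X).re) = ‖f‖ ^ 2 := by
    rw [hf, norm_mul, mul_pow, Complex.norm_exp, ← Real.exp_nat_mul]
    norm_num
  rw [hint]
  rw [← hf] at h1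
  obtain ⟨P, hPd⟩ : ∃ P : ℂ, P = 1 + v * X + a * X ^ 2 := ⟨_, rfl⟩
  have hsq := OnePrime_sq v a X hX
  rw [← hPd] at h1 hsq
  have hPn : ‖P‖ ≤ 1 + s + s ^ 2 := by
    rw [hPd]
    have h5 : ‖1 + v * X + a * X ^ 2‖ ≤ ‖(1 : ℂ)‖ + ‖v * X‖ + ‖a * X ^ 2‖ := norm_add₃_le
    rw [norm_one, norm_mul, norm_mul, norm_pow, hX, one_pow, mul_one, mul_one] at h5
    linarith
  have hfn : ‖f‖ ≤ ‖P‖ + K * s ^ 3 := by
    have h6 : ‖f‖ ≤ ‖f - P‖ + ‖P‖ := by
      have := norm_add_le (f - P) P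
      rwa [sub_add_cancel] at this
    linarith
  have h7 : ‖f‖ ^ 2 ≤ (‖P‖ + K * s ^ 3) ^ 2 := pow_le_pow_left₀ (norm_nonneg _) hfn 2
  have h8 : (‖P‖ + K * s ^ 3) ^ 2 = ‖P‖ ^ 2 + 2 * ‖P‖ * (K * s ^ 3) + K ^ 2 * (s ^ 3 * s ^ 3) := by
    ring
  have hs3 : 0 ≤ s ^ 3 := by positivity
  have hKs : 0 ≤ K * s ^ 3 := by positivity
  have h9 : s ^ 3 ≤ (1 + S) ^ 3 := pow_le_pow_left₀ hs0 hsS 3
  have h10 : s ^ 3 * s ^ 3 ≤ s ^ 3 * (1 + S) ^ 3 := mul_le_mul_of_nonneg_left h9 hs3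
  have h11 : K ^ 2 * (s ^ 3 * s ^ 3) ≤ K ^ 2 * (s ^ 3 * (1 + S) ^ 3) :=
    mul_le_mul_of_nonneg_left h10 (by positivity)
  have h12 : ‖P‖ ≤ 1 + (1 + S) + (1 + S) ^ 2 := by
    have : s ^ 2 ≤ (1 + S) ^ 2 := pow_le_pow_left₀ hs0 hsS 2
    linarith
  have h13 : 2 * ‖P‖ * (K * s ^ 3) ≤ 2 * (1 + (1 + S) + (1 + S) ^ 2) * (K * s ^ 3) :=
    mul_le_mul_of_nonneg_right (by linarith) hKs
  have h14 : ‖a‖ ^ 2 ≤ (1 + S) * s ^ 3 := by
    have h15 : ‖a‖ ^ 2 ≤ (s ^ 2) ^ 2 := pow_le_pow_left₀ (norm_nonneg _) has 2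
    have h16 : s * s ^ 3 ≤ (1 + S) * s ^ 3 := mul_le_mul_of_nonneg_right hsS hs3
    nlinarith
  rw [hsq] at h8
  nlinarith

private theorem OnePrime_int (n : ℤ) (hn : n ≠ 0) :
    ∫ x : UnitAddCircle, fourier n x ∂(AddCircle.haarAddCircle : Measure UnitAddCircle) = 0 := by
  have h := congrFun (fourierCoeff_fourier (T := (1 : ℝ)) n) 0
  rw [fourierCoeff] at h
  simp only [neg_zero, fourier_zero, one_smul] at h
  rw [h]
  simp [hn.symm]

private theorem OnePrime_re (n : ℤ) (hn : n ≠ 0) (k : ℂ) :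
    Integrable (fun x : UnitAddCircle => (k * fourier n x).re)
      (AddCircle.haarAddCircle : Measure UnitAddCircle) ∧
    ∫ x : UnitAddCircle, (k * fourier n x).re
      ∂(AddCircle.haarAddCircle : Measure UnitAddCircle) = 0 := by
  have hc : Continuous fun x : UnitAddCircle => k * fourier n x := by fun_prop
  have hi : Integrable (fun x : UnitAddCircle => k * fourier n x)
      (AddCircle.haarAddCircle : Measure UnitAddCircle) :=
    hc.integrable_of_hasCompactSupport (HasCompactSupport.of_compactSpace _)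
  refine ⟨hi.re, ?_⟩
  have h := Complex.reCLM.integral_comp_comm hi
  have h1 : ∫ x : UnitAddCircle, (k * fourier n x).re
      ∂(AddCircle.haarAddCircle : Measure UnitAddCircle) =
      (∫ x : UnitAddCircle, k * fourier n x
        ∂(AddCircle.haarAddCircle : Measure UnitAddCircle)).re := h
  rw [h1, integral_const_mul, OnePrime_int n hn, mul_zero, Complex.zero_re]

theorem one_prime (C0 : ℝ) : ∃ C : ℝ, 0 ≤ C ∧ ∀ (u : ℝ) (c : ℂ), 0 ≤ u → u ≤ 17 / 20 → ‖c‖ ≤ C0 →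
    ∫ x : UnitAddCircle, ‖(1 - (u : ℂ) * (AddCircle.toCircle x : ℂ))⁻¹‖ ^ 2 *
      Real.exp (2 * (c * (AddCircle.toCircle x : ℂ)).re)
      ∂(AddCircle.haarAddCircle : Measure UnitAddCircle) ≤
    Real.exp (‖(u : ℂ) + c‖ ^ 2 + C * (u ^ 3 + ‖c‖ ^ 3)) := by
  obtain ⟨K, hK0, hK⟩ := OnePrime_pt |C0| (abs_nonneg _)
  refine ⟨4 * K, by positivity, fun u c hu0 hu hc => ?_⟩
  obtain ⟨v, hv⟩ : ∃ v : ℂ, v = (u : ℂ) + c := ⟨_, rfl⟩
  obtain ⟨a, ha⟩ : ∃ a : ℂ, a = (u : ℂ) ^ 2 + u * c + c ^ 2 / 2 := ⟨_, rfl⟩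
  obtain ⟨i1, e1⟩ := OnePrime_re 1 (by norm_num) v
  obtain ⟨i2, e2⟩ := OnePrime_re 2 (by norm_num) a
  obtain ⟨i3, e3⟩ := OnePrime_re 1 (by norm_num) (conj v * a)
  have hf1 : ∀ x : UnitAddCircle, (fourier 1 x : ℂ) = (AddCircle.toCircle x : ℂ) :=
    fun x => fourier_one
  have hf2 : ∀ x : UnitAddCircle, (fourier 2 x : ℂ) = (AddCircle.toCircle x : ℂ) ^ 2 := by
    intro x
    have h1 : (2 : ℤ) = 1 + 1 := by norm_num
    rw [h1, fourier_add, fourier_one, sq]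
  have hpt : ∀ x : UnitAddCircle, ‖(1 - (u : ℂ) * (AddCircle.toCircle x : ℂ))⁻¹‖ ^ 2 *
      Real.exp (2 * (c * (AddCircle.toCircle x : ℂ)).re) ≤
      (1 + ‖v‖ ^ 2 + K * (u + ‖c‖) ^ 3) + 2 * (v * fourier 1 x).re + 2 * (a * fourier 2 x).re +
        2 * (conj v * a * fourier 1 x).re := by
    intro x
    have h1 := hK u c (AddCircle.toCircle x : ℂ) (Circle.norm_coe _) hu0 hu
      (hc.trans (le_abs_self _))
    rw [hf1, hf2, hv, ha]
    exact h1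
  have hne : ∀ x : UnitAddCircle, (1 : ℂ) - (u : ℂ) * (AddCircle.toCircle x : ℂ) ≠ 0 := by
    intro x h
    have h1 : (u : ℂ) * (AddCircle.toCircle x : ℂ) = 1 := (sub_eq_zero.mp h).symm
    have h2 := congrArg norm h1
    rw [norm_mul, Circle.norm_coe, mul_one, norm_one, Complex.norm_real,
      Real.norm_of_nonneg hu0] at h2
    linarith
  have hcont : Continuous fun x : UnitAddCircle =>
      ‖(1 - (u : ℂ) * (AddCircle.toCircle x : ℂ))⁻¹‖ ^ 2 *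
      Real.exp (2 * (c * (AddCircle.toCircle x : ℂ)).re) := by
    have hX : Continuous fun x : UnitAddCircle => (AddCircle.toCircle x : ℂ) :=
      continuous_subtype_val.comp AddCircle.continuous_toCircle
    have h1 : Continuous fun x : UnitAddCircle => (1 - (u : ℂ) * (AddCircle.toCircle x : ℂ))⁻¹ :=
      (continuous_const.sub (continuous_const.mul hX)).inv₀ hne
    exact (h1.norm.pow 2).mul (Real.continuous_exp.comp (continuous_const.mul
      (Complex.continuous_re.comp (continuous_const.mul hX))))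
  have hint := hcont.integrable_of_hasCompactSupport
    (μ := (AddCircle.haarAddCircle : Measure UnitAddCircle)) (HasCompactSupport.of_compactSpace _)
  have j0 : Integrable (fun _ : UnitAddCircle => 1 + ‖v‖ ^ 2 + K * (u + ‖c‖) ^ 3)
      (AddCircle.haarAddCircle : Measure UnitAddCircle) := integrable_const _
  have hle := integral_mono hint
    (((j0.add (i1.const_mul 2)).add (i2.const_mul 2)).add (i3.const_mul 2)) hpt
  rw [integral_add' ((j0.add (i1.const_mul 2)).add (i2.const_mul 2)) (i3.const_mul 2),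
    integral_add' (j0.add (i1.const_mul 2)) (i2.const_mul 2),
    integral_add' j0 (i1.const_mul 2), integral_const_mul, integral_const_mul,
    integral_const_mul, e1, e2, e3, integral_const, probReal_univ, one_smul, mul_zero, add_zero,
    add_zero, add_zero] at hle
  refine hle.trans ?_
  have h20 : (u + ‖c‖) ^ 3 ≤ 4 * (u ^ 3 + ‖c‖ ^ 3) := by
    have hc0 := norm_nonneg c
    nlinarith [mul_nonneg (add_nonneg hu0 hc0) (sq_nonneg (u - ‖c‖))]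
  have h21 := mul_le_mul_of_nonneg_left h20 hK0
  have h22 := Real.add_one_le_exp (‖v‖ ^ 2 + 4 * K * (u ^ 3 + ‖c‖ ^ 3))
  rw [← hv]
  linarith

end Pool.Agent.GH
end

section

/-! TASK RightLine. The integral on the line Re s = 2.
`u, c` are finitely supported real coefficients. On `Re s = 2`: `ζ(s+iv) ∑_m u_m m^{-(s+iv)} ∑_n c_n n^{s-1} = ∑_{l≥1} ∑_m ∑_n u_m c_n (lm)^{-(s+iv)} n^{s-1}` (`zeta_eq_tsum_one_div_nat_cpow`, absolutely convergent, uniformly in `t`).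
Integrate over `t ∈ [T,2T]`, `s = 2+it`: the terms with `lm = n` are `u_m c_n n^{-(2+it+iv)} n^{1+it} = u_m c_n n^{-1-iv}`, each gives `T u_m c_n n^{-1-iv}` (these are the pairs `m ∣ n`);
the others: `|∫ ((n/(lm))^{it}) dt| ≤ 2/|log(n/(lm))|`, with `1/|log(n/(lm))| ≤ 2Q` (if `lm < 2n`, `|log| ≥ |lm-n|/max ≥ 1/(2n)`; else `|log| ≥ log 2 ≥ 1/2`), so together at most
`∑_l ∑_{m,n} |u_m||c_n| (lm)^{-2} n · 4Q ≤ 8 Q² (∑|u|)(∑|c|)` as `∑_l l^{-2} ≤ 2`, `n ≤ Q`. -/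

set_option autoImplicit false

namespace Pool.Agent.GH

open Complex MeasureTheory Finset
open scoped Real ComplexConjugate

/-- separation of logarithms -/
private theorem RL_log {K n : ℕ} (hK : K ≠ 0) (hn : n ≠ 0) (hne : K ≠ n) {Q : ℝ} (hQ : 1 ≤ Q)
    (hnQ : (n : ℝ) ≤ Q) : 1 / (2 * Q) ≤ |Real.log n - Real.log K| := by
  have hK0 : (0 : ℝ) < K := by exact_mod_cast Nat.pos_of_ne_zero hK
  have hn0 : (0 : ℝ) < n := by exact_mod_cast Nat.pos_of_ne_zero hn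
  rcases lt_or_gt_of_ne hne with h | h
  · -- K < n : log n - log K = - log (K/n) ≥ 1 - K/n ≥ 1/n
    have h1 : (K : ℝ) + 1 ≤ n := by exact_mod_cast h
    have h2 : Real.log ((K : ℝ) / n) ≤ (K : ℝ) / n - 1 := Real.log_le_sub_one_of_pos (by positivity)
    rw [Real.log_div hK0.ne' hn0.ne'] at h2
    have h3 : (K : ℝ) / n - 1 ≤ -(1 / Q) := by
      have h4 : (K : ℝ) / n ≤ ((n : ℝ) - 1) / n := by gcongr; linarith
      have h5 : ((n : ℝ) - 1) / n = 1 - 1 / n := by field_simp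
      have h6 : 1 / Q ≤ 1 / n := by gcongr
      linarith
    have h7 : 1 / (2 * Q) ≤ 1 / Q := by
      apply one_div_le_one_div_of_le <;> linarith
    calc 1 / (2 * Q) ≤ Real.log n - Real.log K := by linarith
      _ ≤ _ := le_abs_self _
  · have h1 : (n : ℝ) + 1 ≤ K := by exact_mod_cast h
    -- log K - log n = - log (n/K) ≥ 1 - n/K
    have h2 : Real.log ((n : ℝ) / K) ≤ (n : ℝ) / K - 1 := Real.log_le_sub_one_of_pos (by positivity)
    rw [Real.log_div hn0.ne' hK0.ne'] at h2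
    have h3 : (n : ℝ) / K - 1 ≤ -(1 / (2 * Q)) := by
      have h4 : (n : ℝ) / K ≤ (n : ℝ) / (n + 1) := by gcongr
      have h5 : (n : ℝ) / (n + 1) = 1 - 1 / (n + 1) := by field_simp; ring
      have h6 : 1 / (2 * Q) ≤ 1 / ((n : ℝ) + 1) := by gcongr; linarith
      linarith
    rw [abs_sub_comm]
    calc 1 / (2 * Q) ≤ Real.log K - Real.log n := by linarith
      _ ≤ _ := le_abs_self _

private theorem RL_cpow {n : ℕ} (hn : n ≠ 0) (a : ℂ) (t : ℝ) :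
    (n : ℂ) ^ (a + t * I) = (n : ℂ) ^ a * cexp ((Real.log n : ℝ) * I * t) := by
  have hn' : (n : ℂ) ≠ 0 := by exact_mod_cast hn
  rw [Complex.cpow_add _ _ hn']
  congr 1
  rw [Complex.cpow_def_of_ne_zero hn', Complex.natCast_log]
  congr 1
  ring

/-- the integral of one term -/
private theorem RL_term {l m n : ℕ} (hm : m ≠ 0) (hn : n ≠ 0) {Q : ℝ} (hQ : 1 ≤ Q)
    (hnQ : (n : ℝ) ≤ Q) {T v : ℝ} :
    ‖(∫ t in T..(2 * T), 1 / ((l : ℂ) + 1) ^ (2 + ((t : ℂ) + v) * I) *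
        ((m : ℂ) ^ (-(2 + ((t : ℂ) + v) * I)) * (n : ℂ) ^ (1 + t * I))) -
      T * (if (l + 1) * m = n then (n : ℂ) ^ (-(1 + v * I)) else 0)‖ ≤
      4 * Q ^ 2 * (1 / ((l : ℝ) + 1) ^ 2) := by
  set K : ℕ := (l + 1) * m with hK
  have hK0 : K ≠ 0 := mul_ne_zero (Nat.succ_ne_zero l) hm
  have hKc : (K : ℂ) ≠ 0 := by exact_mod_cast hK0
  have h1 : ∀ t : ℝ, 1 / ((l : ℂ) + 1) ^ (2 + ((t : ℂ) + v) * I) *
        ((m : ℂ) ^ (-(2 + ((t : ℂ) + v) * I)) * (n : ℂ) ^ (1 + t * I)) =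
      ((K : ℂ) ^ (-(2 + v * I)) * n) * cexp (((Real.log n - Real.log K : ℝ) : ℂ) * I * t) := by
    intro t
    have e1 : 1 / ((l : ℂ) + 1) ^ (2 + ((t : ℂ) + v) * I) =
        ((l + 1 : ℕ) : ℂ) ^ (-(2 + ((t : ℂ) + v) * I)) := by
      rw [Complex.cpow_neg, one_div]; push_cast; rfl
    rw [e1, ← mul_assoc, ← Complex.natCast_mul_natCast_cpow, ← Nat.cast_mul, ← hK]
    have e2 : -(2 + ((t : ℂ) + v) * I) = -(2 + v * I) + ((-t : ℝ) : ℂ) * I := by
      push_cast; ring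
    rw [e2, RL_cpow hK0, RL_cpow hn, Complex.cpow_one]
    have e3 : cexp ((Real.log K : ℝ) * I * ((-t : ℝ) : ℂ)) * cexp ((Real.log n : ℝ) * I * t) =
        cexp (((Real.log n - Real.log K : ℝ) : ℂ) * I * t) := by
      rw [← Complex.exp_add]
      congr 1
      push_cast
      ring
    rw [← e3]
    ring
  simp_rw [h1]
  rw [intervalIntegral.integral_const_mul]
  by_cases hKn : K = n
  · rw [if_pos hKn, hKn]
    simp only [sub_self, Complex.ofReal_zero, zero_mul, Complex.exp_zero]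
    have e4 : (n : ℂ) ^ (-(2 + v * I)) * n = (n : ℂ) ^ (-(1 + v * I)) := by
      have hnc : (n : ℂ) ≠ 0 := by exact_mod_cast hn
      have : (n : ℂ) ^ (-(1 + v * I)) = (n : ℂ) ^ (-(2 + v * I) + 1) := by
        congr 1; ring
      rw [this, Complex.cpow_add _ _ hnc, Complex.cpow_one]
    rw [e4]
    rw [intervalIntegral.integral_const]
    have e5 : (n : ℂ) ^ (-(1 + v * I)) * ((2 * T - T : ℝ) • (1 : ℂ)) -
        T * (n : ℂ) ^ (-(1 + v * I)) = 0 := by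
      rw [Complex.real_smul]; push_cast; ring
    rw [e5, norm_zero]
    positivity
  · rw [if_neg hKn, mul_zero, sub_zero, norm_mul, norm_mul]
    have hlog := RL_log hK0 hn hKn hQ hnQ
    set c : ℝ := Real.log n - Real.log K with hc
    have hQ0 : 0 < Q := by linarith
    have hcpos : 0 < |c| := lt_of_lt_of_le (by positivity) hlog
    have hc0 : c ≠ 0 := abs_pos.mp hcpos
    have hcI : ((c : ℂ) * I) ≠ 0 := mul_ne_zero (by exact_mod_cast hc0) Complex.I_ne_zero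
    rw [integral_exp_mul_complex hcI, norm_div]
    have n1 : ‖cexp ((c : ℂ) * I * ((2 * T : ℝ) : ℂ)) - cexp ((c : ℂ) * I * (T : ℂ))‖ ≤ 2 := by
      have f1 : ∀ x : ℝ, ‖cexp ((c : ℂ) * I * (x : ℂ))‖ = 1 := by
        intro x
        have : (c : ℂ) * I * (x : ℂ) = ((c * x : ℝ) : ℂ) * I := by push_cast; ring
        rw [this, Complex.norm_exp_ofReal_mul_I]
      calc _ ≤ ‖cexp ((c : ℂ) * I * ((2 * T : ℝ) : ℂ))‖ + ‖cexp ((c : ℂ) * I * (T : ℂ))‖ :=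
            norm_sub_le _ _
        _ = 2 := by rw [f1, f1]; norm_num
    have n2 : ‖(c : ℂ) * I‖ = |c| := by simp
    rw [n2]
    have n3 : ‖cexp ((c : ℂ) * I * ((2 * T : ℝ) : ℂ)) - cexp ((c : ℂ) * I * (T : ℂ))‖ / |c| ≤
        4 * Q := by
      rw [div_le_iff₀ hcpos]
      have : 2 ≤ 4 * Q * |c| := by
        have := mul_le_mul_of_nonneg_left hlog (by positivity : (0 : ℝ) ≤ 4 * Q)
        have e6 : 4 * Q * (1 / (2 * Q)) = 2 := by field_simp; norm_num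
        linarith
      linarith
    have n4 : ‖(K : ℂ) ^ (-(2 + v * I))‖ ≤ 1 / ((l : ℝ) + 1) ^ 2 := by
      rw [Complex.norm_natCast_cpow_of_pos (Nat.pos_of_ne_zero hK0)]
      have e7 : (-(2 + (v : ℂ) * I)).re = -2 := by simp
      rw [e7, Real.rpow_neg (Nat.cast_nonneg _), ← one_div]
      have e8 : (K : ℝ) ^ (2 : ℝ) = (K : ℝ) ^ 2 := by norm_cast
      rw [e8]
      apply one_div_le_one_div_of_le (by positivity)
      apply pow_le_pow_left₀ (by positivity)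
      rw [hK]
      push_cast
      have : (1 : ℝ) ≤ m := by exact_mod_cast Nat.one_le_iff_ne_zero.mpr hm
      nlinarith [Nat.cast_nonneg (α := ℝ) l]
    have n5 : ‖(n : ℂ)‖ ≤ Q := by rw [Complex.norm_natCast]; exact hnQ
    calc ‖(K : ℂ) ^ (-(2 + v * I))‖ * ‖(n : ℂ)‖ *
          (‖cexp ((c : ℂ) * I * ((2 * T : ℝ) : ℂ)) - cexp ((c : ℂ) * I * (T : ℂ))‖ / |c|)
        ≤ (1 / ((l : ℝ) + 1) ^ 2) * Q * (4 * Q) := by gcongr
      _ = _ := by ring

private theorem RL_continuous {k : ℕ} (hk : k ≠ 0) {f : ℝ → ℂ} (hf : Continuous f) :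
    Continuous fun t : ℝ => (k : ℂ) ^ f t := by
  have hk' : (k : ℂ) ≠ 0 := by exact_mod_cast hk
  exact hf.const_cpow (Or.inl hk')

/-- one pair of coefficients -/
private theorem RL_pair {m n : ℕ} (hm : m ≠ 0) (hn : n ≠ 0) {Q : ℝ} (hQ : 1 ≤ Q)
    (hnQ : (n : ℝ) ≤ Q) {T v : ℝ} :
    IntervalIntegrable (fun t : ℝ => riemannZeta (2 + (t + v) * I) *
        ((m : ℂ) ^ (-(2 + ((t : ℂ) + v) * I)) * (n : ℂ) ^ (1 + t * I))) volume T (2 * T) ∧
    ‖(∫ t in T..(2 * T), riemannZeta (2 + (t + v) * I) *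
        ((m : ℂ) ^ (-(2 + ((t : ℂ) + v) * I)) * (n : ℂ) ^ (1 + t * I))) -
      T * (if m ∣ n then (n : ℂ) ^ (-(1 + v * I)) else 0)‖ ≤ 8 * Q ^ 2 := by
  have hc1 : Continuous fun t : ℝ => (m : ℂ) ^ (-(2 + ((t : ℂ) + v) * I)) :=
    RL_continuous hm (by fun_prop)
  have hc2 : Continuous fun t : ℝ => (n : ℂ) ^ (1 + (t : ℂ) * I) :=
    RL_continuous hn (by fun_prop)
  have hc0 : Continuous fun t : ℝ => riemannZeta (2 + ((t : ℂ) + v) * I) := by
    rw [continuous_iff_continuousAt]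
    intro t
    have h1 : DifferentiableAt ℂ riemannZeta (2 + ((t : ℂ) + v) * I) := by
      apply differentiableAt_riemannZeta
      intro h
      have := congrArg Complex.re h
      simp at this
    exact ContinuousAt.comp (f := fun t : ℝ => 2 + ((t : ℂ) + v) * I) h1.continuousAt
      (by fun_prop)
  have hcont : Continuous fun t : ℝ => riemannZeta (2 + (t + v) * I) *
        ((m : ℂ) ^ (-(2 + ((t : ℂ) + v) * I)) * (n : ℂ) ^ (1 + t * I)) := hc0.mul (hc1.mul hc2)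
  refine ⟨hcont.intervalIntegrable _ _, ?_⟩
  have hz2 : HasSum (fun l : ℕ => (1 : ℝ) / ((l : ℝ) + 1) ^ 2) (π ^ 2 / 6) := by
    have h0 : HasSum (fun n : ℕ => (1 : ℝ) / ((n + 1 : ℕ) : ℝ) ^ 2) (π ^ 2 / 6) := by
      rw [hasSum_nat_add_iff (f := fun n : ℕ => (1 : ℝ) / (n : ℝ) ^ 2) 1]
      simpa using hasSum_zeta_two
    simpa using h0
  have hsum : HasSum (fun l : ℕ => ∫ t in T..(2 * T), 1 / ((l : ℂ) + 1) ^ (2 + ((t : ℂ) + v) * I) *
        ((m : ℂ) ^ (-(2 + ((t : ℂ) + v) * I)) * (n : ℂ) ^ (1 + t * I)))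
      (∫ t in T..(2 * T), riemannZeta (2 + (t + v) * I) *
        ((m : ℂ) ^ (-(2 + ((t : ℂ) + v) * I)) * (n : ℂ) ^ (1 + t * I))) := by
    apply intervalIntegral.hasSum_integral_of_dominated_convergence
      (fun (l : ℕ) (_ : ℝ) => (1 : ℝ) / ((l : ℝ) + 1) ^ 2 * Q)
    · intro l
      have : Continuous fun t : ℝ => 1 / ((l : ℂ) + 1) ^ (2 + ((t : ℂ) + v) * I) *
        ((m : ℂ) ^ (-(2 + ((t : ℂ) + v) * I)) * (n : ℂ) ^ (1 + t * I)) := by
        refine Continuous.mul ?_ (hc1.mul hc2)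
        refine continuous_const.div ?_ ?_
        · have := RL_continuous (Nat.succ_ne_zero l) (f := fun t : ℝ => 2 + ((t : ℂ) + v) * I)
            (by fun_prop)
          simpa using this
        · intro t
          have h0 : ((l : ℂ) + 1) ≠ 0 := Nat.cast_add_one_ne_zero l
          rw [Complex.cpow_def_of_ne_zero h0]
          exact Complex.exp_ne_zero _
      exact this.aestronglyMeasurable
    · intro l
      refine Filter.Eventually.of_forall fun t _ => ?_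
      rw [norm_mul, norm_mul, norm_div, norm_one]
      have e1 : ‖((l : ℂ) + 1) ^ (2 + ((t : ℂ) + v) * I)‖ = ((l : ℝ) + 1) ^ 2 := by
        have := Complex.norm_natCast_cpow_of_pos (Nat.succ_pos l) (2 + ((t : ℂ) + v) * I)
        have e2 : (2 + ((t : ℂ) + v) * I).re = 2 := by simp
        rw [e2] at this
        push_cast at this
        rw [this]
        norm_cast
      have e3 : ‖(m : ℂ) ^ (-(2 + ((t : ℂ) + v) * I))‖ ≤ 1 := by
        rw [Complex.norm_natCast_cpow_of_pos (Nat.pos_of_ne_zero hm)]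
        apply Real.rpow_le_one_of_one_le_of_nonpos
        · exact_mod_cast Nat.one_le_iff_ne_zero.mpr hm
        · simp
      have e4 : ‖(n : ℂ) ^ (1 + (t : ℂ) * I)‖ ≤ Q := by
        rw [Complex.norm_natCast_cpow_of_pos (Nat.pos_of_ne_zero hn)]
        have : (1 + (t : ℂ) * I).re = 1 := by simp
        rw [this, Real.rpow_one]
        exact hnQ
      rw [e1]
      gcongr
      calc _ ≤ 1 * Q := by gcongr
        _ = Q := one_mul Q
    · exact Filter.Eventually.of_forall fun t _ => hz2.summable.mul_right Q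
    · exact intervalIntegrable_const
    · refine Filter.Eventually.of_forall fun t _ => ?_
      refine HasSum.mul_right _ ?_
      have hre : 1 < (2 + ((t : ℂ) + v) * I).re := by simp
      rw [zeta_eq_tsum_one_div_nat_add_one_cpow hre]
      apply Summable.hasSum
      have := (Complex.summable_one_div_nat_cpow.mpr hre)
      have h2 := (summable_nat_add_iff 1).mpr this
      simpa using h2
  have hmain : HasSum (fun l : ℕ => (T : ℂ) * (if (l + 1) * m = n then (n : ℂ) ^ (-(1 + v * I))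
      else 0)) (T * (if m ∣ n then (n : ℂ) ^ (-(1 + v * I)) else 0)) := by
    refine HasSum.mul_left _ ?_
    by_cases hmn : m ∣ n
    · obtain ⟨k, hk⟩ := hmn
      have hk0 : k ≠ 0 := by rintro rfl; exact hn (by rw [hk]; simp)
      obtain ⟨j, rfl⟩ := Nat.exists_eq_succ_of_ne_zero hk0
      have hmn' : m ∣ n := Dvd.intro _ hk.symm
      rw [if_pos hmn']
      have h5 := hasSum_single (f := fun l : ℕ =>
        (if (l + 1) * m = n then (n : ℂ) ^ (-(1 + v * I)) else 0)) j (by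
          intro l hl
          refine if_neg fun h => hl ?_
          have h6 : (l + 1) * m = (j + 1) * m := by rw [h, hk]; simp [Nat.succ_eq_add_one]; ring
          have := Nat.eq_of_mul_eq_mul_right (Nat.pos_of_ne_zero hm) h6
          omega)
      have h6 : (j + 1) * m = n := by rw [hk]; simp [Nat.succ_eq_add_one]; ring
      simp only [h6, if_true] at h5
      exact h5
    · rw [if_neg hmn]
      have h5 : ∀ l : ℕ, (if (l + 1) * m = n then (n : ℂ) ^ (-(1 + v * I)) else 0) = 0 := by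
        intro l
        refine if_neg fun h => hmn ⟨l + 1, by rw [← h]; ring⟩
      simp_rw [h5]
      exact hasSum_zero
  have h1 := hsum.sub hmain
  have h2 : HasSum (fun l : ℕ => 4 * Q ^ 2 * (1 / ((l : ℝ) + 1) ^ 2)) (4 * Q ^ 2 * (π ^ 2 / 6)) :=
    hz2.mul_left _
  refine (h1.norm_le_of_bounded h2 fun l => RL_term hm hn hQ hnQ).trans ?_
  have hpi : π ^ 2 / 6 ≤ 2 := by
    have := Real.pi_lt_d2
    have := Real.pi_pos
    nlinarith
  calc 4 * Q ^ 2 * (π ^ 2 / 6) ≤ 4 * Q ^ 2 * 2 := by gcongr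
    _ = 8 * Q ^ 2 := by ring

theorem right_line {Q : ℝ} (hQ : 1 ≤ Q) (F G : Finset ℕ) (u c : ℕ → ℝ)
    (hF : ∀ m ∈ F, m ≠ 0 ∧ (m : ℝ) ≤ Q) (hG : ∀ n ∈ G, n ≠ 0 ∧ (n : ℝ) ≤ Q) {T v : ℝ} (hT : 0 ≤ T) :
    ‖(∫ t in T..(2 * T), riemannZeta (2 + (t + v) * I) *
        (∑ m ∈ F, (u m : ℂ) * (m : ℂ) ^ (-(2 + (t + v) * I))) *
        (∑ n ∈ G, (c n : ℂ) * (n : ℂ) ^ (1 + t * I))) -
      T * ∑ m ∈ F, ∑ n ∈ G, (if m ∣ n then (u m : ℂ) * c n * (n : ℂ) ^ (-(1 + v * I)) else 0)‖ ≤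
    8 * Q ^ 2 * (∑ m ∈ F, |u m|) * ∑ n ∈ G, |c n| := by
  have h1 : ∀ t : ℝ, riemannZeta (2 + (t + v) * I) *
        (∑ m ∈ F, (u m : ℂ) * (m : ℂ) ^ (-(2 + (t + v) * I))) *
        (∑ n ∈ G, (c n : ℂ) * (n : ℂ) ^ (1 + t * I)) =
      ∑ m ∈ F, ∑ n ∈ G, ((u m : ℂ) * c n) * (riemannZeta (2 + (t + v) * I) *
        ((m : ℂ) ^ (-(2 + ((t : ℂ) + v) * I)) * (n : ℂ) ^ (1 + t * I))) := by
    intro t
    rw [mul_assoc, Finset.sum_mul_sum, Finset.mul_sum]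
    refine Finset.sum_congr rfl fun m _ => ?_
    rw [Finset.mul_sum]
    refine Finset.sum_congr rfl fun n _ => ?_
    ring
  simp_rw [h1]
  have hI : ∀ m ∈ F, ∀ n ∈ G, IntervalIntegrable (fun t : ℝ => ((u m : ℂ) * c n) *
      (riemannZeta (2 + (t + v) * I) *
        ((m : ℂ) ^ (-(2 + ((t : ℂ) + v) * I)) * (n : ℂ) ^ (1 + t * I)))) volume T (2 * T) :=
    fun m hm n hn => (RL_pair (hF m hm).1 (hG n hn).1 hQ (hG n hn).2).1.const_mul _
  rw [intervalIntegral.integral_finsetSum fun m hm => by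
    have := IntervalIntegrable.sum (μ := volume) (a := T) (b := 2 * T) G (f := fun n (t : ℝ) =>
      ((u m : ℂ) * c n) * (riemannZeta (2 + (t + v) * I) *
        ((m : ℂ) ^ (-(2 + ((t : ℂ) + v) * I)) * (n : ℂ) ^ (1 + t * I)))) (fun n hn => hI m hm n hn)
    have e : (fun t : ℝ => ∑ n ∈ G, ((u m : ℂ) * c n) * (riemannZeta (2 + (t + v) * I) *
        ((m : ℂ) ^ (-(2 + ((t : ℂ) + v) * I)) * (n : ℂ) ^ (1 + t * I)))) =
        ∑ n ∈ G, fun t : ℝ => ((u m : ℂ) * c n) * (riemannZeta (2 + (t + v) * I) *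
        ((m : ℂ) ^ (-(2 + ((t : ℂ) + v) * I)) * (n : ℂ) ^ (1 + t * I))) := by
      funext t
      rw [Finset.sum_apply]
    rw [e]
    exact this]
  rw [Finset.mul_sum, ← Finset.sum_sub_distrib]
  have h2 : ∀ m ∈ F, ‖(∫ t in T..(2 * T), ∑ n ∈ G, ((u m : ℂ) * c n) *
      (riemannZeta (2 + (t + v) * I) *
        ((m : ℂ) ^ (-(2 + ((t : ℂ) + v) * I)) * (n : ℂ) ^ (1 + t * I)))) -
      T * ∑ n ∈ G, (if m ∣ n then (u m : ℂ) * c n * (n : ℂ) ^ (-(1 + v * I)) else 0)‖ ≤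
      |u m| * (8 * Q ^ 2 * ∑ n ∈ G, |c n|) := by
    intro m hm
    rw [intervalIntegral.integral_finsetSum (hI m hm), Finset.mul_sum, ← Finset.sum_sub_distrib]
    refine (norm_sum_le _ _).trans ?_
    rw [Finset.mul_sum, Finset.mul_sum]
    refine Finset.sum_le_sum fun n hn => ?_
    rw [intervalIntegral.integral_const_mul]
    have e1 : (T : ℂ) * (if m ∣ n then (u m : ℂ) * c n * (n : ℂ) ^ (-(1 + v * I)) else 0) =
        ((u m : ℂ) * c n) * (T * (if m ∣ n then (n : ℂ) ^ (-(1 + v * I)) else 0)) := by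
      split_ifs
      · ring
      · simp
    rw [e1, ← mul_sub, norm_mul]
    have e2 := (RL_pair (T := T) (v := v) (hF m hm).1 (hG n hn).1 hQ (hG n hn).2).2
    calc _ ≤ ‖(u m : ℂ) * c n‖ * (8 * Q ^ 2) := by gcongr
      _ = |u m| * (8 * Q ^ 2 * |c n|) := by
        rw [norm_mul, Complex.norm_real, Complex.norm_real, Real.norm_eq_abs, Real.norm_eq_abs]
        ring
  refine (norm_sum_le _ _).trans ?_
  refine (Finset.sum_le_sum h2).trans (le_of_eq ?_)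
  rw [← Finset.sum_mul]
  ring

end Pool.Agent.GH
end
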