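import Pool.Agent.Lib.MP_69b2e4_nt.GH.Sys
import Pool.Agent.Lib.MP_69b2e4_nt.Mg.G037

section

/-! TASK Len. The lengths of the Dirichlet polynomials.
`isDP_PS`: `PS R` for a finite set `R` of primes `p ≤ N`, `p < M`: support `R`, coefficients 1, `∑ = card R ≤ N`. `isDP_pow`: by induction with `IsDP.mul` (`smooth_mul`, `isDP_one`; `1` is smooth).
`isDP_Ex`: `Ex l (-a PS R χ) = ∑_{i≤l} ((-a)^i/i!) PS R χ^i`: support in `[1, N^l]`, sum of the absolute values `≤ ∑ a^i N^i/i! ≤ e^a N^l` (`N ≥ 1`); sums of `IsDP` with the same `S, Q` add the `B`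
(prove an `IsDP.add`/`IsDP.sum` lemma: union of the supports, add the coefficients extended by 0).
`V_c, Y`: product over `j`: `Q = ∏ N_j^{l_j} ≤ exp(L/4000)`, `B ≤ ∏ e^{al} N_j^{l_j} ≤ exp(L/4000)` by `len` (`al, be ≤ k + 10`). Fine factor: the primes are `≤ T^θ` (`< M = ⌊T^θ⌋+1`), so `Q ≤ T^{θ lf} ≤ T^{1/1000}` (`lf ≤ 1/(1000θ)`), `B ≤ e^{1/2} T^{1/1000}`.
`V`: `Q, B ≤ exp(L/4000 + L/1000 + 1/2) ≤ T^{1/250}` (`T = exp L`, `L ≥ 1/θ^10` is huge). Coarse primes are `< M` as `p ≤ exp(θ^5 L) ≤ T^θ`. `PS (R j)^{l_j}`: `Q, B ≤ N_j^{l_j} ≤ exp(L/4000)`.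
`pow_two`-versions: multiply. -/

set_option autoImplicit false

namespace Pool.Agent.GH

open Complex MeasureTheory Finset
open scoped Real ComplexConjugate

private theorem len_zero (S : Set ℕ) (Q : ℝ) : IsDP S Q 0 (fun _ => 0) :=
  ⟨∅, fun _ => 0, by simp, by simp, fun χ => by simp⟩

private theorem len_add {S : Set ℕ} {Q B B' : ℝ} {f g : (ℕ →*₀ ℂ) → ℂ} (hf : IsDP S Q B f)
    (hg : IsDP S Q B' g) : IsDP S Q (B + B') (fun χ => f χ + g χ) := by
  classical
  obtain ⟨F, a, h1, h2, h3⟩ := hf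
  obtain ⟨G, b, g1, g2, g3⟩ := hg
  have e1 : ∀ (c : ℕ → ℂ), ∑ n ∈ F ∪ G, (if n ∈ F then c n else 0) = ∑ n ∈ F, c n := by
    intro c
    rw [← Finset.sum_filter]
    congr 1
    ext n
    simp only [Finset.mem_filter, Finset.mem_union]
    tauto
  have e2 : ∀ (c : ℕ → ℂ), ∑ n ∈ F ∪ G, (if n ∈ G then c n else 0) = ∑ n ∈ G, c n := by
    intro c
    rw [← Finset.sum_filter]
    congr 1
    ext n
    simp only [Finset.mem_filter, Finset.mem_union]
    tauto
  have e1' : ∀ (c : ℕ → ℝ), ∑ n ∈ F ∪ G, (if n ∈ F then c n else 0) = ∑ n ∈ F, c n := by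
    intro c
    rw [← Finset.sum_filter]
    congr 1
    ext n
    simp only [Finset.mem_filter, Finset.mem_union]
    tauto
  have e2' : ∀ (c : ℕ → ℝ), ∑ n ∈ F ∪ G, (if n ∈ G then c n else 0) = ∑ n ∈ G, c n := by
    intro c
    rw [← Finset.sum_filter]
    congr 1
    ext n
    simp only [Finset.mem_filter, Finset.mem_union]
    tauto
  refine ⟨F ∪ G, fun n => (if n ∈ F then a n else 0) + (if n ∈ G then b n else 0), ?_, ?_, ?_⟩
  · intro n hn
    rcases Finset.mem_union.1 hn with h | h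
    · exact h1 n h
    · exact g1 n h
  · calc ∑ n ∈ F ∪ G, |(if n ∈ F then a n else 0) + (if n ∈ G then b n else 0)|
        ≤ ∑ n ∈ F ∪ G, ((if n ∈ F then |a n| else 0) + (if n ∈ G then |b n| else 0)) := by
          refine Finset.sum_le_sum fun n _ => (abs_add_le _ _).trans (le_of_eq ?_)
          congr 1 <;> split_ifs <;> simp
      _ = ∑ n ∈ F, |a n| + ∑ n ∈ G, |b n| := by rw [Finset.sum_add_distrib, e1', e2']
      _ ≤ B + B' := add_le_add h2 g2
  · intro χ
    beta_reduce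
    rw [h3, g3, ← e1 (fun n => (a n : ℂ) * χ n), ← e2 (fun n => (b n : ℂ) * χ n),
      ← Finset.sum_add_distrib]
    refine Finset.sum_congr rfl fun n _ => ?_
    push_cast
    split_ifs <;> simp [add_mul]

private theorem len_smul {S : Set ℕ} {Q B : ℝ} {f : (ℕ →*₀ ℂ) → ℂ} (hf : IsDP S Q B f) (c : ℝ) :
    IsDP S Q (|c| * B) (fun χ => (c : ℂ) * f χ) := by
  obtain ⟨F, a, h1, h2, h3⟩ := hf
  refine ⟨F, fun n => c * a n, h1, ?_, fun χ => ?_⟩
  · simp_rw [abs_mul]
    rw [← Finset.mul_sum]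
    exact mul_le_mul_of_nonneg_left h2 (abs_nonneg _)
  · beta_reduce
    rw [h3, Finset.mul_sum]
    refine Finset.sum_congr rfl fun n _ => ?_
    push_cast
    ring

private theorem len_sum {S : Set ℕ} {Q : ℝ} (n : ℕ) (B : ℕ → ℝ) (f : ℕ → (ℕ →*₀ ℂ) → ℂ)
    (hf : ∀ i < n, IsDP S Q (B i) (f i)) :
    IsDP S Q (∑ i ∈ Finset.range n, B i) (fun χ => ∑ i ∈ Finset.range n, f i χ) := by
  induction n with
  | zero => simpa using len_zero S Q
  | succ n ih =>
    simp_rw [Finset.sum_range_succ]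
    exact len_add (ih fun i hi => hf i (by omega)) (hf n (by omega))

private theorem len_one {M : ℕ} : (1 : ℕ) ∈ Nat.smoothNumbers M := by
  simp [Nat.mem_smoothNumbers]

private theorem len_pow {M : ℕ} {Q B : ℝ} {f : (ℕ →*₀ ℂ) → ℂ}
    (hf : IsDP (Nat.smoothNumbers M) Q B f) (hQ : 0 ≤ Q) (hB : 0 ≤ B) (n : ℕ) :
    IsDP (Nat.smoothNumbers M) (Q ^ n) (B ^ n) (fun χ => f χ ^ n) := by
  induction n with
  | zero => simpa using isDP_one (Nat.smoothNumbers M) len_one
  | succ n ih =>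
    simp_rw [pow_succ]
    exact IsDP.mul smooth_mul ih hf (by positivity) (by positivity)

private theorem len_prod {M : ℕ} (n : ℕ) (Q B : ℕ → ℝ) (f : ℕ → (ℕ →*₀ ℂ) → ℂ)
    (hf : ∀ i < n, IsDP (Nat.smoothNumbers M) (Q i) (B i) (f i)) (hQ : ∀ i < n, 0 ≤ Q i)
    (hB : ∀ i < n, 0 ≤ B i) :
    IsDP (Nat.smoothNumbers M) (∏ i ∈ Finset.range n, Q i) (∏ i ∈ Finset.range n, B i)
      (fun χ => ∏ i ∈ Finset.range n, f i χ) := by
  induction n with
  | zero => simpa using isDP_one (Nat.smoothNumbers M) len_one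
  | succ n ih =>
    simp_rw [Finset.prod_range_succ]
    exact IsDP.mul smooth_mul
      (ih (fun i hi => hf i (by omega)) (fun i hi => hQ i (by omega)) fun i hi => hB i (by omega))
      (hf n (by omega))
      (Finset.prod_nonneg fun i hi => hQ i (by rw [Finset.mem_range] at hi; omega))
      (Finset.prod_nonneg fun i hi => hB i (by rw [Finset.mem_range] at hi; omega))

private theorem len_PS {M : ℕ} {R : Finset ℕ} {N : ℝ} (hR : ∀ p ∈ R, p.Prime ∧ (p : ℝ) ≤ N ∧ p < M) :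
    IsDP (Nat.smoothNumbers M) N (max N 0) (PS R) := by
  refine ⟨R, fun _ => 1, fun p hp => ⟨(hR p hp).1.ne_zero, ?_, (hR p hp).2.1⟩, ?_, fun χ => ?_⟩
  · exact Nat.mem_smoothNumbers_of_lt (hR p hp).1.pos (hR p hp).2.2
  · have h1 : R ⊆ Finset.Icc 1 ⌊N⌋₊ := by
      intro p hp
      rw [Finset.mem_Icc]
      exact ⟨(hR p hp).1.one_le, Nat.le_floor (hR p hp).2.1⟩
    have h2 := Finset.card_le_card h1
    rw [Nat.card_Icc, Nat.add_sub_cancel] at h2
    simp only [abs_one, Finset.sum_const, nsmul_eq_mul, mul_one]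
    rcases le_or_gt 0 N with h3 | h3
    · exact (Nat.cast_le.2 h2).trans ((Nat.floor_le h3).trans (le_max_left _ _))
    · rw [Nat.floor_of_nonpos h3.le] at h2
      have : ((R.card : ℕ) : ℝ) = 0 := by
        rw [Nat.cast_eq_zero]
        omega
      rw [this]
      exact le_max_right _ _
  · unfold PS
    simp

private theorem len_PSpow {M : ℕ} {R : Finset ℕ} {N : ℝ} (hN : 1 ≤ N)
    (hR : ∀ p ∈ R, p.Prime ∧ (p : ℝ) ≤ N ∧ p < M) (i : ℕ) :
    IsDP (Nat.smoothNumbers M) (N ^ i) (N ^ i) (fun χ => PS R χ ^ i) := by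
  have h := len_PS hR
  rw [max_eq_left (by linarith)] at h
  exact len_pow h (by linarith) (by linarith) i

private theorem len_Ex {M : ℕ} {R : Finset ℕ} {N : ℝ} (hN : 1 ≤ N)
    (hR : ∀ p ∈ R, p.Prime ∧ (p : ℝ) ≤ N ∧ p < M) {a : ℝ} (ha : 0 ≤ a) (l : ℕ) :
    IsDP (Nat.smoothNumbers M) (N ^ l) (Real.exp a * N ^ l)
      (fun χ => Ex l (-(a : ℂ) * PS R χ)) := by
  have h1 : ∀ i < l + 1, IsDP (Nat.smoothNumbers M) (N ^ l) (|(-a) ^ i / (i.factorial : ℝ)| * N ^ l)
      (fun χ => (((-a) ^ i / (i.factorial : ℝ) : ℝ) : ℂ) * PS R χ ^ i) := by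
    intro i hi
    have h2 := pow_le_pow_right₀ hN (show i ≤ l by omega)
    exact len_smul ((len_PSpow hN hR i).mono subset_rfl h2 h2) _
  have h2 := len_sum (l + 1) _ _ h1
  have h3 : (fun χ : ℕ →*₀ ℂ => ∑ i ∈ Finset.range (l + 1),
      (((-a) ^ i / (i.factorial : ℝ) : ℝ) : ℂ) * PS R χ ^ i) =
      fun χ => Ex l (-(a : ℂ) * PS R χ) := by
    funext χ
    unfold Ex
    refine Finset.sum_congr rfl fun i _ => ?_
    push_cast
    rw [mul_pow]
    ring
  rw [h3] at h2
  refine h2.mono subset_rfl le_rfl ?_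
  rw [← Finset.sum_mul]
  refine mul_le_mul_of_nonneg_right ?_ (by positivity)
  have h4 : ∀ i ∈ Finset.range (l + 1), |(-a) ^ i / (i.factorial : ℝ)| = a ^ i / (i.factorial : ℝ) := by
    intro i _
    rw [abs_div, abs_pow, abs_neg, abs_of_nonneg ha, abs_of_nonneg (by positivity)]
  rw [Finset.sum_congr rfl h4]
  exact Real.sum_le_exp_of_nonneg ha _

private theorem len_T {S : Sys} {C c : ℝ} (hS : Good S C c) (x : ℝ) :
    S.T ^ x = Real.exp (x * S.L) := by
  have hT : 0 < S.T := lt_of_lt_of_le one_pos hS.T_ge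
  rw [Real.rpow_def_of_pos hT, mul_comm]
  rfl

private theorem len_L {S : Sys} {C c : ℝ} (hS : Good S C c) : 1000 ≤ S.L := by
  refine le_trans ?_ hS.L_ge
  have h1 : S.θ ^ 10 ≤ (1 / 100) ^ 10 := pow_le_pow_left₀ hS.θ_pos.le hS.θ_le 10
  have h2 : 0 < S.θ ^ 10 := pow_pos hS.θ_pos 10
  rw [le_div_iff₀ h2]
  calc 1000 * S.θ ^ 10 ≤ 1000 * (1 / 100) ^ 10 := mul_le_mul_of_nonneg_left h1 (by norm_num)
    _ ≤ 1 := by norm_num

private theorem len_lt_M {S : Sys} {p : ℕ} (hp : (p : ℝ) ≤ S.T ^ S.θ) : p < S.M := by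
  unfold Sys.M Mof
  have := Nat.le_floor hp
  omega

private theorem len_coarse {S : Sys} {C c : ℝ} (hS : Good S C c) {j : ℕ} (hj : j ≤ S.J) :
    ∀ p ∈ S.R j, p.Prime ∧ (p : ℝ) ≤ S.N j ∧ p < S.M := by
  intro p hp
  obtain ⟨h1, h2, h3, h4⟩ := hS.prime j hj p hp
  refine ⟨h1, h4, len_lt_M ?_⟩
  rw [len_T hS]
  have hp0 : (0 : ℝ) < p := by exact_mod_cast h1.pos
  rw [← Real.log_le_iff_le_exp hp0]
  refine h3.trans ?_
  have hL := len_L hS
  refine mul_le_mul_of_nonneg_right ?_ (by linarith)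
  have hθ := hS.θ_pos
  have hθ1 := hS.θ_le
  calc S.θ ^ 5 = S.θ ^ 4 * S.θ := by ring
    _ ≤ 1 * S.θ := mul_le_mul_of_nonneg_right (pow_le_one₀ hθ.le (by linarith)) hθ.le
    _ = S.θ := one_mul _

private theorem len_term {S : Sys} {C c : ℝ} (hS : Good S C c) {j : ℕ} (hj : j ≤ S.J) :
    0 ≤ (S.l j : ℝ) * Real.log (S.N j) :=
  mul_nonneg (Nat.cast_nonneg _) (Real.log_nonneg (hS.N_ge j hj))

private theorem len_block {S : Sys} {C c : ℝ} (hS : Good S C c) {a : ℝ} (ha : 0 ≤ a)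
    (hak : a ≤ S.k + 10) :
    IsDP (Nat.smoothNumbers S.M) (Real.exp (S.L / 4000)) (Real.exp (S.L / 4000))
      (fun χ => ∏ j ∈ Finset.range (S.J + 1), Ex (S.l j) (-(a : ℂ) * PS (S.R j) χ)) := by
  have h1 := len_prod (M := S.M) (S.J + 1) (fun j => S.N j ^ S.l j)
    (fun j => Real.exp a * S.N j ^ S.l j) (fun j χ => Ex (S.l j) (-(a : ℂ) * PS (S.R j) χ))
    (fun j hj => len_Ex (hS.N_ge j (by omega)) (len_coarse hS (by omega)) ha _)
    (fun j hj => by have := hS.N_ge j (by omega); positivity)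
    (fun j hj => by have := hS.N_ge j (by omega); positivity)
  have hN : ∀ j ∈ Finset.range (S.J + 1), S.N j ^ S.l j =
      Real.exp ((S.l j : ℝ) * Real.log (S.N j)) := by
    intro j hj
    rw [Finset.mem_range] at hj
    have h2 : 0 < S.N j := lt_of_lt_of_le one_pos (hS.N_ge j (by omega))
    rw [Real.exp_nat_mul, Real.exp_log h2]
  have hterm : ∀ j ∈ Finset.range (S.J + 1), 0 ≤ (S.l j : ℝ) * Real.log (S.N j) := fun j hj =>
    len_term hS (by rw [Finset.mem_range] at hj; omega)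
  refine h1.mono subset_rfl ?_ ?_
  · rw [Finset.prod_congr rfl hN, ← Real.exp_sum]
    apply Real.exp_le_exp.2
    refine le_trans (Finset.sum_le_sum fun j _ => ?_) hS.len
    have := hS.k_pos
    linarith
  · have h2 : ∀ j ∈ Finset.range (S.J + 1), Real.exp a * S.N j ^ S.l j =
        Real.exp ((S.l j : ℝ) * Real.log (S.N j) + a) := by
      intro j hj
      rw [hN j hj, Real.exp_add, mul_comm]
    rw [Finset.prod_congr rfl h2, ← Real.exp_sum]
    apply Real.exp_le_exp.2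
    refine le_trans (Finset.sum_le_sum fun j _ => ?_) hS.len
    linarith

private theorem len_fine {S : Sys} {C c : ℝ} (hS : Good S C c) :
    IsDP (Nat.smoothNumbers S.M) (Real.exp (S.L / 1000)) (Real.exp (S.L / 1000 + 1 / 2))
      (fun χ => Ex S.lf (-((1 / 2 : ℝ) : ℂ) * PS S.Rf χ)) := by
  have hL := len_L hS
  have hθ := hS.θ_pos
  have hN : (1 : ℝ) ≤ S.T ^ S.θ := by
    rw [len_T hS]
    exact Real.one_le_exp (by positivity)
  have hR : ∀ p ∈ S.Rf, p.Prime ∧ (p : ℝ) ≤ S.T ^ S.θ ∧ p < S.M := by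
    intro p hp
    unfold Sys.Rf at hp
    rw [Finset.mem_filter, Nat.mem_primesBelow] at hp
    refine ⟨hp.1.2, ?_, hp.1.1⟩
    have h1 : p ≤ ⌊S.T ^ S.θ⌋₊ := by
      have := hp.1.1
      unfold Sys.M Mof at this
      omega
    exact (Nat.cast_le.2 h1).trans (Nat.floor_le (by linarith))
  have h1 := len_Ex (M := S.M) hN hR (a := 1 / 2) (by norm_num) S.lf
  have h2 : (S.T ^ S.θ) ^ S.lf ≤ Real.exp (S.L / 1000) := by
    rw [len_T hS, ← Real.exp_nat_mul]
    apply Real.exp_le_exp.2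
    have h3 : (S.lf : ℝ) ≤ 1 / (1000 * S.θ) := Nat.floor_le (by positivity)
    calc (S.lf : ℝ) * (S.θ * S.L) ≤ 1 / (1000 * S.θ) * (S.θ * S.L) :=
          mul_le_mul_of_nonneg_right h3 (by positivity)
      _ = S.L / 1000 := by
          field_simp
  refine h1.mono subset_rfl h2 ?_
  rw [Real.exp_add, mul_comm]
  exact mul_le_mul_of_nonneg_right h2 (Real.exp_pos _).le

theorem len_V {S : Sys} {C c : ℝ} (hS : Good S C c) :
    IsDP (Nat.smoothNumbers S.M) (S.T ^ (1 / 250 : ℝ)) (S.T ^ (1 / 250 : ℝ)) S.V := by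
  have hk := hS.k_pos
  have hL := len_L hS
  have h1 := len_block hS (a := S.al) (by unfold Sys.al; positivity)
    (by unfold Sys.al; linarith)
  have h2 := IsDP.mul smooth_mul h1 (len_fine hS) (Real.exp_pos _).le (Real.exp_pos _).le
  have h3 : (fun χ : ℕ →*₀ ℂ => (∏ j ∈ Finset.range (S.J + 1),
      Ex (S.l j) (-(S.al : ℂ) * PS (S.R j) χ)) * Ex S.lf (-((1 / 2 : ℝ) : ℂ) * PS S.Rf χ)) = S.V := by
    funext χ
    rfl
  rw [h3] at h2
  rw [len_T hS]
  refine h2.mono subset_rfl ?_ ?_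
  · rw [← Real.exp_add]
    apply Real.exp_le_exp.2
    linarith
  · rw [← Real.exp_add]
    apply Real.exp_le_exp.2
    linarith

theorem len_Vc {S : Sys} {C c : ℝ} (hS : Good S C c) :
    IsDP (Nat.smoothNumbers S.M) (S.T ^ (1 / 250 : ℝ)) (S.T ^ (1 / 250 : ℝ)) S.Vc := by
  have hk := hS.k_pos
  have hL := len_L hS
  have h1 := len_block hS (a := S.al) (by unfold Sys.al; positivity)
    (by unfold Sys.al; linarith)
  have h3 : (fun χ : ℕ →*₀ ℂ => ∏ j ∈ Finset.range (S.J + 1),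
      Ex (S.l j) (-(S.al : ℂ) * PS (S.R j) χ)) = S.Vc := rfl
  rw [h3] at h1
  rw [len_T hS]
  have h4 : Real.exp (S.L / 4000) ≤ Real.exp (1 / 250 * S.L) := by
    apply Real.exp_le_exp.2
    linarith
  exact h1.mono subset_rfl h4 h4

theorem len_V2 {S : Sys} {C c : ℝ} (hS : Good S C c) :
    IsDP (Nat.smoothNumbers S.M) (S.T ^ (1 / 100 : ℝ)) (S.T ^ (1 / 100 : ℝ)) (fun χ => S.V χ ^ 2) := by
  have hL := len_L hS
  have h1 := len_pow (len_V hS) (Real.rpow_nonneg (by linarith [hS.T_ge]) _)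
    (Real.rpow_nonneg (by linarith [hS.T_ge]) _) 2
  have h2 : (S.T ^ (1 / 250 : ℝ)) ^ 2 ≤ S.T ^ (1 / 100 : ℝ) := by
    rw [len_T hS, len_T hS, ← Real.exp_nat_mul]
    apply Real.exp_le_exp.2
    push_cast
    linarith
  exact h1.mono subset_rfl h2 h2

private theorem len_Y {S : Sys} {C c : ℝ} (hS : Good S C c) :
    IsDP (Nat.smoothNumbers S.M) (Real.exp (S.L / 4000)) (Real.exp (S.L / 4000)) S.Y := by
  have hk := hS.k_pos
  exact len_block hS (a := S.be) (by unfold Sys.be; positivity) (by unfold Sys.be; linarith)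

theorem len_Y2 {S : Sys} {C c : ℝ} (hS : Good S C c) :
    IsDP (Nat.smoothNumbers S.M) (S.T ^ (1 / 100 : ℝ)) (S.T ^ (1 / 100 : ℝ)) (fun χ => S.Y χ ^ 2) := by
  have hL := len_L hS
  have h1 := len_pow (len_Y hS) (Real.exp_pos _).le (Real.exp_pos _).le 2
  have h2 : Real.exp (S.L / 4000) ^ 2 ≤ S.T ^ (1 / 100 : ℝ) := by
    rw [len_T hS, ← Real.exp_nat_mul]
    apply Real.exp_le_exp.2
    push_cast
    linarith
  exact h1.mono subset_rfl h2 h2

theorem len_Y2P {S : Sys} {C c : ℝ} (hS : Good S C c) {j : ℕ} (hj : j ≤ S.J) :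
    IsDP (Nat.smoothNumbers S.M) (S.T ^ (1 / 100 : ℝ)) (S.T ^ (1 / 100 : ℝ))
      (fun χ => S.Y χ ^ 2 * PS (S.R j) χ ^ (S.l j)) := by
  have hL := len_L hS
  have hk := hS.k_pos
  have h1 := len_pow (len_Y hS) (Real.exp_pos _).le (Real.exp_pos _).le 2
  have h2 := len_PSpow (hS.N_ge j hj) (len_coarse hS hj) (S.l j)
  have h3 := IsDP.mul smooth_mul h1 h2 (by positivity) (by positivity)
  have hN0 : 0 < S.N j := lt_of_lt_of_le one_pos (hS.N_ge j hj)
  have h4 : S.N j ^ S.l j ≤ Real.exp (S.L / 4000) := by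
    have e1 : S.N j ^ S.l j = Real.exp ((S.l j : ℝ) * Real.log (S.N j)) := by
      rw [Real.exp_nat_mul, Real.exp_log hN0]
    rw [e1]
    apply Real.exp_le_exp.2
    refine le_trans ?_ hS.len
    have e2 : ∀ i ∈ Finset.range (S.J + 1), 0 ≤ (S.l i : ℝ) * Real.log (S.N i) + S.k + 10 := by
      intro i hi
      have := len_term hS (j := i) (by rw [Finset.mem_range] at hi; omega)
      linarith
    have e3 := Finset.single_le_sum e2 (Finset.mem_range.2 (show j < S.J + 1 by omega))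
    linarith
  have h5 : Real.exp (S.L / 4000) ^ 2 * S.N j ^ S.l j ≤ S.T ^ (1 / 100 : ℝ) := by
    calc Real.exp (S.L / 4000) ^ 2 * S.N j ^ S.l j
        ≤ Real.exp (S.L / 4000) ^ 2 * Real.exp (S.L / 4000) :=
          mul_le_mul_of_nonneg_left h4 (by positivity)
      _ = Real.exp (S.L / 4000) ^ 3 := by ring
      _ ≤ S.T ^ (1 / 100 : ℝ) := by
          rw [len_T hS, ← Real.exp_nat_mul]
          apply Real.exp_le_exp.2
          push_cast
          linarith
  exact h3.mono subset_rfl h5 h5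

/-- continuity on the critical line of a Dirichlet polynomial -/
theorem continuous_dp_line {S : Set ℕ} {Q B : ℝ} {f : (ℕ →*₀ ℂ) → ℂ} (hf : IsDP S Q B f) :
    Continuous fun t : ℝ => f (nC (1 / 2 + t * I)) := by
  obtain ⟨F, a, h1, -, h3⟩ := hf
  have h4 : (fun t : ℝ => f (nC (1 / 2 + t * I))) =
      fun t : ℝ => ∑ n ∈ F, (a n : ℂ) * (n : ℂ) ^ (-(1 / 2 + (t : ℂ) * I)) := by
    funext t
    rw [h3]
    refine Finset.sum_congr rfl fun n hn => ?_
    rw [nC_apply _ (h1 n hn).1]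
  rw [h4]
  refine continuous_finsetSum _ fun n hn => continuous_const.mul ?_
  have hc : Continuous fun t : ℝ => -(1 / 2 + (t : ℂ) * I) := by fun_prop
  exact hc.const_cpow (Or.inl (by exact_mod_cast (h1 n hn).1))

theorem continuous_zeta_line (a : ℝ) (ha : a < 1 / 2) :
    Continuous fun t : ℝ => riemannZeta (1 / 2 + a + t * I) := by
  rw [continuous_iff_continuousAt]
  intro t
  have hne : (1 / 2 + (a : ℂ) + (t : ℂ) * I) ≠ 1 := by
    intro h
    have := congrArg Complex.re h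
    simp at this
    linarith
  have hc : Continuous fun t : ℝ => (1 / 2 + (a : ℂ) + (t : ℂ) * I) := by fun_prop
  exact ContinuousAt.comp (f := fun t : ℝ => (1 / 2 + (a : ℂ) + (t : ℂ) * I))
    (differentiableAt_riemannZeta hne).continuousAt hc.continuousAt

end Pool.Agent.GH
end

section

/-! TASK Moment. Power moments of the random prime polynomial.
Proof. Expand `(∑_{p∈R} p^{-1/2} X_p)^r` by the multinomial theorem (or as a sum over `Fin r → R`,
`Finset.sum_pow'`/`Finset.prod_univ_sum`): it is `∑_n c(n) n^{-1/2} X_n` over the products `n` of `r` primes of `R`, where `c(n)` is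
the number of functions `f : Fin r → R` with product `n`, and `c(n) ≤ r!` (two such functions differ by a permutation of `Fin r`).
By `sum_sq` the moment is `∑_n c(n)²/n ≤ r! ∑_n c(n)/n = r! (∑ 1/p)^r`.
Alternative (also fine): induction on `R` with independence, using `E|a+bX|^{2r}`-expansion. -/

set_option autoImplicit false

namespace Pool.Agent.GH

open Complex MeasureTheory Finset
open scoped Real ComplexConjugate

private lemma moment_perm (R : Finset ℕ) (hR : ∀ p ∈ R, p.Prime) (r n : ℕ) (f : Fin r → ℕ)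
    (hf : f ∈ (Fintype.piFinset fun _ : Fin r => R).filter fun f => ∏ i, f i = n) :
    (List.ofFn f).Perm n.primeFactorsList := by
  rw [Finset.mem_filter, Fintype.mem_piFinset] at hf
  refine Nat.primeFactorsList_unique ?_ ?_
  · rw [List.prod_ofFn]
    exact hf.2
  · intro p hp
    rw [List.mem_ofFn] at hp
    obtain ⟨i, rfl⟩ := hp
    exact hR _ (hf.1 i)

private lemma moment_card (R : Finset ℕ) (hR : ∀ p ∈ R, p.Prime) (r n : ℕ) :
    ((Fintype.piFinset fun _ : Fin r => R).filter fun f => ∏ i, f i = n).card ≤ r.factorial := by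
  classical
  rcases ((Fintype.piFinset fun _ : Fin r => R).filter fun f => ∏ i, f i = n).eq_empty_or_nonempty
    with h | ⟨f0, hf0⟩
  · rw [h]
    simp
  · have hlen : n.primeFactorsList.length = r := by
      rw [← (moment_perm R hR r n f0 hf0).length_eq, List.length_ofFn]
    calc ((Fintype.piFinset fun _ : Fin r => R).filter fun f => ∏ i, f i = n).card
        ≤ (n.primeFactorsList.permutations.toFinset).card := by
          refine Finset.card_le_card_of_injOn List.ofFn ?_ ?_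
          · intro f hf
            rw [Finset.mem_coe, List.mem_toFinset, List.mem_permutations]
            exact moment_perm R hR r n f (Finset.mem_coe.mp hf)
          · intro f _ g _ hfg
            exact List.ofFn_injective hfg
      _ ≤ n.primeFactorsList.permutations.length := List.toFinset_card_le _
      _ = r.factorial := by rw [List.length_permutations, hlen]

theorem moment (R : Finset ℕ) (hR : ∀ p ∈ R, p.Prime) (r : ℕ) :
    ∫ w, ‖PX R 0 w‖ ^ (2 * r) ∂mu ≤ r.factorial * sR R ^ r := by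
  classical
  set P : Finset (Fin r → ℕ) := Fintype.piFinset fun _ : Fin r => R with hP
  set F : Finset ℕ := P.image fun f => ∏ i, f i with hF
  have hmem : ∀ f ∈ P, ∀ i, f i ∈ R := fun f hf => by
    rw [hP, Fintype.mem_piFinset] at hf
    exact hf
  have hne : ∀ f ∈ P, ∏ i, f i ≠ 0 := fun f hf =>
    Finset.prod_ne_zero_iff.mpr fun i _ => (hR _ (hmem f hf i)).ne_zero
  have hF0 : ∀ n ∈ F, n ≠ 0 := by
    intro n hn
    rw [hF, Finset.mem_image] at hn
    obtain ⟨f, hf, rfl⟩ := hn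
    exact hne f hf
  let c : ℕ → ℕ := fun n => (P.filter fun f => ∏ i, f i = n).card
  have hc : ∀ n, c n ≤ r.factorial := fun n => moment_card R hR r n
  have hexp : ∀ w, PX R 0 w ^ r =
      ∑ n ∈ F, ((c n : ℂ) * (n : ℂ) ^ (-(1 / 2 + 0) : ℂ)) * XX w n := by
    intro w
    have h1 : PX R 0 w ^ r = ∑ f ∈ P, nX 0 w (∏ i, f i) := by
      unfold PX PS
      rw [Finset.sum_pow']
      refine Finset.sum_congr rfl fun f _ => ?_
      rw [map_prod]
    rw [h1, ← Finset.sum_fiberwise_of_maps_to (t := F) (g := fun f : Fin r → ℕ => ∏ i, f i)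
      (fun f hf => Finset.mem_image_of_mem _ hf)]
    refine Finset.sum_congr rfl fun n hn => ?_
    have h2 : ∀ f ∈ P.filter (fun f => ∏ i, f i = n), nX 0 w (∏ i, f i) =
        (n : ℂ) ^ (-(1 / 2 + 0) : ℂ) * XX w n := by
      intro f hf
      rw [Finset.mem_filter] at hf
      rw [hf.2, nX_apply 0 w (hF0 n hn)]
    rw [Finset.sum_congr rfl h2, Finset.sum_const, nsmul_eq_mul]
    ring
  have hint : ∫ w, ‖PX R 0 w‖ ^ (2 * r) ∂mu =
      ∑ n ∈ F, ‖(c n : ℂ) * (n : ℂ) ^ (-(1 / 2 + 0) : ℂ)‖ ^ 2 := by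
    rw [← sum_sq F hF0]
    refine integral_congr_ae (Filter.Eventually.of_forall fun w => ?_)
    simp only
    rw [← hexp w, norm_pow, ← pow_mul, mul_comm r 2]
  have hterm : ∀ n ∈ F, ‖(c n : ℂ) * (n : ℂ) ^ (-(1 / 2 + 0) : ℂ)‖ ^ 2 =
      (c n : ℝ) * ((c n : ℝ) * (1 / n)) := by
    intro n hn
    have hn0 : (0 : ℝ) < n := by exact_mod_cast Nat.pos_of_ne_zero (hF0 n hn)
    rw [norm_mul, Complex.norm_natCast, Complex.norm_natCast_cpow_of_pos
      (Nat.pos_of_ne_zero (hF0 n hn)), mul_pow]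
    have h3 : ((n : ℝ) ^ (-(1 / 2 + 0) : ℂ).re) ^ 2 = 1 / n := by
      have h4 : (-(1 / 2 + 0) : ℂ).re = -(1 / 2) := by simp
      rw [h4, ← Real.rpow_natCast, ← Real.rpow_mul hn0.le]
      norm_num
      rw [Real.rpow_neg_one]
    rw [h3]
    ring
  have hsum : ∑ n ∈ F, (c n : ℝ) * (1 / n) = sR R ^ r := by
    have h1 : sR R ^ r = ∑ f ∈ P, (1 : ℝ) / ((∏ i, f i : ℕ) : ℝ) := by
      unfold sR
      rw [Finset.sum_pow']
      refine Finset.sum_congr rfl fun f _ => ?_
      rw [Nat.cast_prod, one_div, ← Finset.prod_inv_distrib]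
      exact Finset.prod_congr rfl fun i _ => one_div _
    rw [h1, ← Finset.sum_fiberwise_of_maps_to (t := F) (g := fun f : Fin r → ℕ => ∏ i, f i)
      (fun f hf => Finset.mem_image_of_mem _ hf)]
    refine Finset.sum_congr rfl fun n hn => ?_
    have h2 : ∀ f ∈ P.filter (fun f => ∏ i, f i = n), (1 : ℝ) / ((∏ i, f i : ℕ) : ℝ) = 1 / n := by
      intro f hf
      rw [Finset.mem_filter] at hf
      rw [hf.2]
    rw [Finset.sum_congr rfl h2, Finset.sum_const, nsmul_eq_mul]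
  rw [hint, Finset.sum_congr rfl hterm, ← hsum, Finset.mul_sum]
  refine Finset.sum_le_sum fun n hn => ?_
  refine mul_le_mul_of_nonneg_right (by exact_mod_cast hc n) ?_
  positivity

end Pool.Agent.GH
end

section

/-! TASK RM4. Large values of the prime polynomial.
Proof. Cauchy-Schwarz: `E ‖Ex‖⁴ (‖P‖/lam)^{2r} ≤ (E ‖Ex‖⁸)^{1/2} (E ‖P‖^{4r})^{1/2} lam^{-2r}`. `‖Ex l (-bP)‖⁸ ≤ exp(8b‖P‖)` (`norm_Ex_le`), so the first factor
is at most `2 exp(C s)` (`exp_moment`, `z = 0`). By `moment` (with `2r`): `E ‖P‖^{4r} ≤ (2r)! s^{2r} ≤ (2r)^{2r} s^{2r}`, square root `(2 r s)^r`.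
So the total is `≤ 2 exp(C s) (2 r s/lam²)^r ≤ exp(C'(s+1)) (2rs/lam²)^r`. -/

set_option autoImplicit false

namespace Pool.Agent.GH

open Complex MeasureTheory Finset
open scoped Real ComplexConjugate

private theorem RM4_cs {f g : Om → ℝ} (hf : Continuous f) (hg : Continuous g) (hf0 : ∀ w, 0 ≤ f w)
    (hg0 : ∀ w, 0 ≤ g w) :
    ∫ w, f w * g w ∂mu ≤ Real.sqrt (∫ w, f w ^ 2 ∂mu) * Real.sqrt (∫ w, g w ^ 2 ∂mu) := by
  have h := integral_mul_le_Lp_mul_Lq_of_nonneg (μ := mu) (p := 2) (q := 2)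
    Real.HolderConjugate.two_two (f := f) (g := g) (Filter.Eventually.of_forall hf0)
    (Filter.Eventually.of_forall hg0)
    (hf.memLp_of_hasCompactSupport (HasCompactSupport.of_compactSpace f))
    (hg.memLp_of_hasCompactSupport (HasCompactSupport.of_compactSpace g))
  simp only [Real.rpow_two] at h
  rw [← Real.sqrt_eq_rpow, ← Real.sqrt_eq_rpow] at h
  exact h

theorem rm4 (b : ℝ) (hb : 0 ≤ b) : ∃ C : ℝ, 0 ≤ C ∧ ∀ (R : Finset ℕ) (l r : ℕ) (lam : ℝ),
    (∀ p ∈ R, p.Prime) → 0 < lam →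
    ∫ w, ‖Ex l (-b * PX R 0 w)‖ ^ 4 * (‖PX R 0 w‖ / lam) ^ (2 * r) ∂mu ≤
      Real.exp (C * (sR R + 1)) * (2 * r * sR R / lam ^ 2) ^ r := by
  obtain ⟨C, hC, hexp⟩ := exp_moment (8 * b) (by positivity)
  refine ⟨C + 1, by linarith, fun R l r lam hR hlam => ?_⟩
  have hs : 0 ≤ sR R := by
    unfold sR
    exact Finset.sum_nonneg fun p _ => by positivity
  have hP : Continuous fun w => PX R 0 w := continuous_PX R 0
  have hcs := RM4_cs (f := fun w => ‖Ex l (-b * PX R 0 w)‖ ^ 4)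
    (g := fun w => (‖PX R 0 w‖ / lam) ^ (2 * r))
    (((continuous_Ex l).comp (continuous_const.mul hP)).norm.pow 4)
    ((hP.norm.div_const lam).pow (2 * r)) (fun w => by positivity) (fun w => by positivity)
  refine hcs.trans ?_
  have h1 : ∫ w, (‖Ex l (-b * PX R 0 w)‖ ^ 4) ^ 2 ∂mu ≤ 4 * Real.exp (C * sR R) := by
    refine le_trans (integral_mono ?_ ?_ fun w => ?_) (hexp R 0 hR fun p _ => by simp)
    · exact integrable_of_continuous
        ((((continuous_Ex l).comp (continuous_const.mul hP)).norm.pow 4).pow 2)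
    · exact integrable_of_continuous (Real.continuous_exp.comp (continuous_const.mul hP.norm))
    · have h2 := norm_Ex_le l (-b * PX R 0 w)
      have h3 : ‖-(b : ℂ) * PX R 0 w‖ = b * ‖PX R 0 w‖ := by
        rw [norm_mul, norm_neg, Complex.norm_real, Real.norm_of_nonneg hb]
      rw [h3] at h2
      change (‖Ex l (-b * PX R 0 w)‖ ^ 4) ^ 2 ≤ Real.exp (8 * b * ‖PX R 0 w‖)
      rw [← pow_mul]
      refine (pow_le_pow_left₀ (norm_nonneg _) h2 (4 * 2)).trans (le_of_eq ?_)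
      rw [← Real.exp_nat_mul]
      congr 1
      push_cast
      ring
  have h2 : ∫ w, ((‖PX R 0 w‖ / lam) ^ (2 * r)) ^ 2 ∂mu ≤ ((2 * r * sR R / lam ^ 2) ^ r) ^ 2 := by
    have h3 := moment R hR (2 * r)
    have h4 : ∀ w, ((‖PX R 0 w‖ / lam) ^ (2 * r)) ^ 2 =
        (lam ^ (4 * r))⁻¹ * ‖PX R 0 w‖ ^ (2 * (2 * r)) := by
      intro w
      rw [← pow_mul, div_pow, div_eq_inv_mul, show 2 * r * 2 = 4 * r by ring,
        show 2 * (2 * r) = 4 * r by ring]
    simp only [h4]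
    rw [integral_const_mul]
    have h5 : ((2 * r : ℕ).factorial : ℝ) ≤ (2 * r) ^ (2 * r) := by
      have h6 := Nat.factorial_le_pow (2 * r)
      exact_mod_cast h6
    have h6 : 0 < lam ^ (4 * r) := by positivity
    calc (lam ^ (4 * r))⁻¹ * ∫ w, ‖PX R 0 w‖ ^ (2 * (2 * r)) ∂mu
        ≤ (lam ^ (4 * r))⁻¹ * ((2 * r : ℕ).factorial * sR R ^ (2 * r)) :=
          mul_le_mul_of_nonneg_left h3 (by positivity)
      _ ≤ (lam ^ (4 * r))⁻¹ * ((2 * r) ^ (2 * r) * sR R ^ (2 * r)) := by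
          refine mul_le_mul_of_nonneg_left ?_ (by positivity)
          exact mul_le_mul_of_nonneg_right h5 (by positivity)
      _ = ((2 * r * sR R / lam ^ 2) ^ r) ^ 2 := by
          rw [← pow_mul, div_pow, mul_pow, ← pow_mul, div_eq_inv_mul, mul_comm r 2,
            show 2 * (2 * r) = 4 * r by ring]
          congr 1
          rw [mul_pow (2 * (r : ℝ)), mul_pow 2]
  calc Real.sqrt (∫ w, (‖Ex l (-b * PX R 0 w)‖ ^ 4) ^ 2 ∂mu) *
        Real.sqrt (∫ w, ((‖PX R 0 w‖ / lam) ^ (2 * r)) ^ 2 ∂mu)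
      ≤ Real.sqrt (4 * Real.exp (C * sR R)) * Real.sqrt (((2 * r * sR R / lam ^ 2) ^ r) ^ 2) :=
        mul_le_mul (Real.sqrt_le_sqrt h1) (Real.sqrt_le_sqrt h2) (Real.sqrt_nonneg _)
          (Real.sqrt_nonneg _)
    _ ≤ Real.exp ((C + 1) * (sR R + 1)) * (2 * r * sR R / lam ^ 2) ^ r := by
        rw [Real.sqrt_sq (by positivity)]
        refine mul_le_mul_of_nonneg_right ?_ (by positivity)
        rw [Real.sqrt_le_left (by positivity), ← Real.exp_nat_mul]
        have h7 : (4 : ℝ) ≤ Real.exp 2 := by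
          have h8 := Real.exp_one_gt_d9
          have h9 : Real.exp 2 = Real.exp 1 * Real.exp 1 := by rw [← Real.exp_add]; norm_num
          rw [h9]
          nlinarith
        calc 4 * Real.exp (C * sR R) ≤ Real.exp 2 * Real.exp (C * sR R) :=
              mul_le_mul_of_nonneg_right h7 (Real.exp_pos _).le
          _ = Real.exp (2 + C * sR R) := (Real.exp_add _ _).symm
          _ ≤ Real.exp ((2 : ℕ) * ((C + 1) * (sR R + 1))) := by
              apply Real.exp_le_exp.2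
              push_cast
              nlinarith [mul_nonneg hC hs]

end Pool.Agent.GH
end

section

/-! TASK Step5. The pointwise comparison on the good set.
Let `t ∉ bad`, `P_j = PS (R j) (nC (1/2+it))`, `‖P_j‖ ≤ lam_j = l_j/(10(k+1))`, so for `x ∈ {al, be}`, `x ≤ (k+1)/2`: `‖xP_j‖ ≤ l_j/20`. By `norm_Ex_sub_exp`:
`‖Ex l (-xP) - exp(-xP)‖ ≤ 2^{-l} e^{2‖xP‖} ≤ 2^{-l} e^{3‖xP‖} ‖exp(-xP)‖ ≤ 2^{-l} e^{3l/20} ‖exp(-xP)‖ ≤ 2^{-l/2} ‖exp(-xP)‖` (`e^{3/20} ≤ √2`).
So with `x_j = 2^{-l_j/2} ≤ 1/2` (`half`): `(1 - x_j) ‖exp(-xP_j)‖ ≤ ‖Ex l_j (-xP_j)‖ ≤ (1 + x_j) ‖exp(-xP_j)‖`.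
Then `yf^{(2k+2)/k} = ∏ ‖Ex(-be P_j)‖^{4(k+1)/k} ≤ ∏ (1+x_j)^{4(k+1)/k} ‖exp(-be P_j)‖^{4(k+1)/k}`, and
`‖exp(-be P)‖^{4(k+1)/k} = exp(-2(k+1) Re P) = ‖exp(-al P)‖^4 ≤ (1-x_j)^{-4} ‖Ex(-al P_j)‖^4`. The product of the constants is at most `exp(C ∑ x_j) ≤ e^{C/2}` (`1/(1-x) ≤ e^{2x}` for `x ≤ 1/2`).
So `yf^{(2k+2)/k} ≤ C5' kf`, take the power `k/(2k+2)`. -/

set_option autoImplicit false

namespace Pool.Agent.GH

open Complex MeasureTheory Finset
open scoped Real ComplexConjugate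

private theorem Step5_pow (l : ℕ) : (2 : ℝ)⁻¹ ^ l * Real.exp (3 * ((l : ℝ) / 20)) ≤
    (2 : ℝ)⁻¹ ^ ((l : ℝ) / 2) := by
  have h2 : (2 : ℝ)⁻¹ = Real.exp (-Real.log 2) := by
    rw [Real.exp_neg, Real.exp_log (by norm_num)]
  have hl : (0 : ℝ) ≤ l := Nat.cast_nonneg l
  have h3 : (0.69 : ℝ) < Real.log 2 := by
    have := Real.log_two_gt_d9
    linarith
  rw [← Real.rpow_natCast, h2, ← Real.exp_mul, ← Real.exp_mul, ← Real.exp_add]
  apply Real.exp_le_exp.2
  nlinarith

private theorem Step5_bd (l : ℕ) (z : ℂ) (hz : ‖z‖ ≤ (l : ℝ) / 20) :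
    ‖Ex l z - cexp z‖ ≤ (2 : ℝ)⁻¹ ^ ((l : ℝ) / 2) * ‖cexp z‖ := by
  have h1 := norm_Ex_sub_exp l z
  have h2 : Real.exp (-‖z‖) ≤ ‖cexp z‖ := by
    rw [Complex.norm_exp]
    apply Real.exp_le_exp.2
    have := Complex.abs_re_le_norm z
    exact (abs_le.1 this).1
  have h3 : Real.exp (2 * ‖z‖) ≤ Real.exp (3 * ((l : ℝ) / 20)) * ‖cexp z‖ := by
    calc Real.exp (2 * ‖z‖) = Real.exp (3 * ‖z‖) * Real.exp (-‖z‖) := by
          rw [← Real.exp_add]; congr 1; ring
      _ ≤ Real.exp (3 * ((l : ℝ) / 20)) * ‖cexp z‖ := by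
          apply mul_le_mul _ h2 (Real.exp_pos _).le (Real.exp_pos _).le
          apply Real.exp_le_exp.2
          linarith
  have h4 : (0 : ℝ) ≤ (2 : ℝ)⁻¹ ^ l := by positivity
  calc ‖Ex l z - cexp z‖ ≤ (2 : ℝ)⁻¹ ^ l * Real.exp (2 * ‖z‖) := h1
    _ ≤ (2 : ℝ)⁻¹ ^ l * (Real.exp (3 * ((l : ℝ) / 20)) * ‖cexp z‖) :=
        mul_le_mul_of_nonneg_left h3 h4
    _ = (2 : ℝ)⁻¹ ^ l * Real.exp (3 * ((l : ℝ) / 20)) * ‖cexp z‖ := by ring
    _ ≤ _ := mul_le_mul_of_nonneg_right (Step5_pow l) (norm_nonneg _)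

theorem step5 (k : ℝ) (hk : 0 < k) : ∃ C5 : ℝ, 0 < C5 ∧ ∀ (S : Sys) (C c t : ℝ), S.k = k → Good S C c →
    t ∉ S.bad → S.yf t ≤ C5 * S.kf t ^ (k / (2 * k + 2)) := by
  refine ⟨Real.exp 3, Real.exp_pos 3, fun S C c t hSk hS ht => ?_⟩
  set P : ℕ → ℂ := fun j => PS (S.R j) (nC (1 / 2 + t * I)) with hP
  set x : ℕ → ℝ := fun j => (2 : ℝ)⁻¹ ^ ((S.l j : ℝ) / 2) with hx
  have hx0 : ∀ j, 0 ≤ x j := fun j => by simp only [hx]; positivity
  have hxs : ∑ j ∈ Finset.range (S.J + 1), x j ≤ 1 / 2 := hS.half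
  have hx1 : ∀ j ∈ Finset.range (S.J + 1), x j ≤ 1 / 2 := fun j hj =>
    (Finset.single_le_sum (fun i _ => hx0 i) hj).trans hxs
  have hPle : ∀ j ∈ Finset.range (S.J + 1), ‖P j‖ ≤ (S.l j : ℝ) / (10 * (k + 1)) := by
    intro j hj
    by_contra hc
    apply ht
    refine ⟨j, Nat.lt_succ_iff.1 (Finset.mem_range.1 hj), ?_⟩
    rw [Sys.lam, hSk]
    exact not_le.1 hc
  -- the comparison for one block
  have key : ∀ a : ℝ, 0 ≤ a → a ≤ (k + 1) / 2 → ∀ j ∈ Finset.range (S.J + 1),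
      ‖Ex (S.l j) (-a * P j)‖ ≤ (1 + x j) * Real.exp (-a * (P j).re) ∧
      (1 - x j) * Real.exp (-a * (P j).re) ≤ ‖Ex (S.l j) (-a * P j)‖ := by
    intro a ha0 ha1 j hj
    have h1 : ‖(-a * P j : ℂ)‖ ≤ (S.l j : ℝ) / 20 := by
      rw [norm_mul, norm_neg, Complex.norm_real, Real.norm_of_nonneg ha0]
      have h2 := hPle j hj
      have h3 : (0 : ℝ) ≤ (S.l j : ℝ) / (10 * (k + 1)) := by positivity
      calc a * ‖P j‖ ≤ (k + 1) / 2 * ((S.l j : ℝ) / (10 * (k + 1))) :=
            mul_le_mul ha1 h2 (norm_nonneg _) (by positivity)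
        _ = (S.l j : ℝ) / 20 := by
            field_simp
            ring
    have h2 := Step5_bd (S.l j) _ h1
    have h3 : ‖cexp (-a * P j)‖ = Real.exp (-a * (P j).re) := by
      rw [Complex.norm_exp]
      congr 1
      rw [← Complex.ofReal_neg, Complex.re_ofReal_mul]
    rw [h3] at h2
    have h4 : ‖Ex (S.l j) (-a * P j)‖ ≤ ‖Ex (S.l j) (-a * P j) - cexp (-a * P j)‖ + ‖cexp (-a * P j)‖ := by
      have := norm_add_le (Ex (S.l j) (-a * P j) - cexp (-a * P j)) (cexp (-a * P j))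
      rwa [sub_add_cancel] at this
    have h5 : ‖cexp (-a * P j)‖ ≤ ‖Ex (S.l j) (-a * P j) - cexp (-a * P j)‖ + ‖Ex (S.l j) (-a * P j)‖ := by
      have := norm_sub_le (Ex (S.l j) (-a * P j)) (Ex (S.l j) (-a * P j) - cexp (-a * P j))
      rw [sub_sub_cancel] at this
      linarith
    rw [h3] at h4 h5
    constructor
    · calc _ ≤ _ := h4
        _ ≤ x j * Real.exp (-a * (P j).re) + Real.exp (-a * (P j).re) := by
            simpa using h2
        _ = _ := by ring
    · have : (1 - x j) * Real.exp (-a * (P j).re) =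
          Real.exp (-a * (P j).re) - x j * Real.exp (-a * (P j).re) := by ring
      rw [this]
      have h6 : ‖Ex (S.l j) (-a * P j) - cexp (-a * P j)‖ ≤ x j * Real.exp (-a * (P j).re) := h2
      linarith
  have hSal : S.al = (k + 1) / 2 := by rw [Sys.al, hSk]
  have hSbe : S.be = k / 2 := by rw [Sys.be, hSk]
  set R : ℝ := ∑ j ∈ Finset.range (S.J + 1), (P j).re with hR
  -- upper bound for yf
  have hy : S.yf t ≤ Real.exp 1 * Real.exp (-k * R) := by
    have h1 : ‖S.Y (nC (1 / 2 + t * I))‖ ≤ Real.exp (1 / 2) * Real.exp (-(k / 2) * R) := by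
      rw [Sys.Y, norm_prod]
      calc ∏ j ∈ Finset.range (S.J + 1), ‖Ex (S.l j) (-S.be * PS (S.R j) (nC (1 / 2 + t * I)))‖
          ≤ ∏ j ∈ Finset.range (S.J + 1), (Real.exp (x j) * Real.exp (-(k / 2) * (P j).re)) := by
            apply Finset.prod_le_prod (fun j _ => norm_nonneg _)
            intro j hj
            rw [hSbe]
            refine ((key (k / 2) (by positivity) (by linarith) j hj).1).trans ?_
            apply mul_le_mul_of_nonneg_right _ (Real.exp_pos _).le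
            have := Real.add_one_le_exp (x j)
            linarith
        _ = Real.exp (∑ j ∈ Finset.range (S.J + 1), x j) * Real.exp (-(k / 2) * R) := by
            rw [Finset.prod_mul_distrib, ← Real.exp_sum, ← Real.exp_sum, hR, Finset.mul_sum]
        _ ≤ _ := by
            apply mul_le_mul_of_nonneg_right _ (Real.exp_pos _).le
            exact Real.exp_le_exp.2 hxs
    rw [Sys.yf]
    calc ‖S.Y (nC (1 / 2 + t * I))‖ ^ 2 ≤ (Real.exp (1 / 2) * Real.exp (-(k / 2) * R)) ^ 2 :=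
          pow_le_pow_left₀ (norm_nonneg _) h1 2
      _ = _ := by
          rw [mul_pow, ← Real.exp_nat_mul, ← Real.exp_nat_mul]
          congr 2
          · norm_num
          · push_cast; ring
  -- lower bound for kf
  have hkf : Real.exp (-4) * Real.exp (-(2 * (k + 1)) * R) ≤ S.kf t := by
    have h1 : Real.exp (-1) * Real.exp (-((k + 1) / 2) * R) ≤ ‖S.Vc (nC (1 / 2 + t * I))‖ := by
      rw [Sys.Vc, norm_prod]
      calc Real.exp (-1) * Real.exp (-((k + 1) / 2) * R)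
          ≤ Real.exp (∑ j ∈ Finset.range (S.J + 1), -2 * x j) * Real.exp (-((k + 1) / 2) * R) := by
            apply mul_le_mul_of_nonneg_right _ (Real.exp_pos _).le
            apply Real.exp_le_exp.2
            rw [← Finset.mul_sum]
            linarith
        _ = ∏ j ∈ Finset.range (S.J + 1), (Real.exp (-2 * x j) *
              Real.exp (-((k + 1) / 2) * (P j).re)) := by
            rw [Finset.prod_mul_distrib, ← Real.exp_sum, ← Real.exp_sum, hR, Finset.mul_sum]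
        _ ≤ ∏ j ∈ Finset.range (S.J + 1), ‖Ex (S.l j) (-S.al * PS (S.R j) (nC (1 / 2 + t * I)))‖ := by
            apply Finset.prod_le_prod (fun j _ => by positivity)
            intro j hj
            rw [hSal]
            refine le_trans ?_ ((key ((k + 1) / 2) (by positivity) le_rfl j hj).2)
            apply mul_le_mul_of_nonneg_right _ (Real.exp_pos _).le
            -- exp(-2x) ≤ 1 - x for 0 ≤ x ≤ 1/2
            have hxj := hx1 j hj
            have hxj0 := hx0 j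
            have h2 : 1 + 2 * x j ≤ Real.exp (2 * x j) := by
              have := Real.add_one_le_exp (2 * x j)
              linarith
            have h3 : (1 : ℝ) ≤ (1 - x j) * Real.exp (2 * x j) := by
              calc (1 : ℝ) ≤ (1 - x j) * (1 + 2 * x j) := by nlinarith
                _ ≤ _ := mul_le_mul_of_nonneg_left h2 (by linarith)
            calc Real.exp (-2 * x j) = Real.exp (-2 * x j) * 1 := by ring
              _ ≤ Real.exp (-2 * x j) * ((1 - x j) * Real.exp (2 * x j)) :=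
                  mul_le_mul_of_nonneg_left h3 (Real.exp_pos _).le
              _ = (1 - x j) * (Real.exp (-2 * x j) * Real.exp (2 * x j)) := by ring
              _ = 1 - x j := by
                  rw [← Real.exp_add]
                  have : -2 * x j + 2 * x j = 0 := by ring
                  rw [this, Real.exp_zero, mul_one]
    rw [Sys.kf]
    calc Real.exp (-4) * Real.exp (-(2 * (k + 1)) * R)
        = (Real.exp (-1) * Real.exp (-((k + 1) / 2) * R)) ^ 4 := by
          rw [mul_pow, ← Real.exp_nat_mul, ← Real.exp_nat_mul]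
          congr 2
          · norm_num
          · push_cast; ring
      _ ≤ _ := pow_le_pow_left₀ (by positivity) h1 4
  have he : 0 ≤ k / (2 * k + 2) := by positivity
  have hkp : Real.exp (-2) * Real.exp (-k * R) ≤ S.kf t ^ (k / (2 * k + 2)) := by
    calc Real.exp (-2) * Real.exp (-k * R)
        ≤ Real.exp (-4 * (k / (2 * k + 2))) * Real.exp (-k * R) := by
          apply mul_le_mul_of_nonneg_right _ (Real.exp_pos _).le
          apply Real.exp_le_exp.2
          have : k / (2 * k + 2) ≤ 1 / 2 := by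
            rw [div_le_div_iff₀ (by positivity) (by norm_num)]
            linarith
          linarith
      _ = (Real.exp (-4) * Real.exp (-(2 * (k + 1)) * R)) ^ (k / (2 * k + 2)) := by
          rw [Real.mul_rpow (Real.exp_pos _).le (Real.exp_pos _).le, ← Real.exp_mul, ← Real.exp_mul]
          congr 2
          field_simp
      _ ≤ _ := Real.rpow_le_rpow (by positivity) hkf he
  calc S.yf t ≤ Real.exp 1 * Real.exp (-k * R) := hy
    _ = Real.exp 3 * (Real.exp (-2) * Real.exp (-k * R)) := by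
        have h0 : Real.exp 1 = Real.exp 3 * Real.exp (-2) := by
          rw [← Real.exp_add]
          norm_num
        rw [h0, mul_assoc]
    _ ≤ _ := mul_le_mul_of_nonneg_left hkp (Real.exp_pos _).le

end Pool.Agent.GH
end
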