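import Pool.Agent.Lib.MP_69b2e4_nt.Mg.G038
import Pool.Agent.Lib.MP_69b2e4_nt.Mg.G040

section

/-! TASK Mellin2. The Mellin transform in the critical strip.
Fix `z`, `Re z > 0`. Let `f(x) = th(xz) - (1/2)(xz)^{-1/2} 1_{x<1}` and `F(s) = ∫_0^∞ x^{s/2-1} f(x) dx` (= `mellin f (s/2)`).
By the functional equation `th_fe` (applied to `xz`): `th(xz) - (1/2)(xz)^{-1/2} = -1/2 + (xz)^{-1/2} th(1/(xz))` is bounded for `0 < x < 1`; and `th(xz)` decays
exponentially as `x → ∞` (`norm_th_le`). So `f = O(x^0)` at `0`, `f = O(e^{-ax})` at `∞`, `f` locally integrable, and `F` is holomorphic in `Re s > 0`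
(`mellin_differentiableAt_of_isBigO_rpow_exp`, `mellinConvergent_of_isBigO_rpow_exp`, with `a = π Re z / 2`, `b = 0`).
For `Re s > 1`: `F(s) = z^{-s/2} Λ(s) - (1/2) z^{-1/2} ∫_0^1 x^{s/2-3/2} dx = z^{-s/2} Λ(s) - z^{-1/2}/(s-1)`.
Both sides times `(s-1)` are holomorphic in `Re s > 0` (`(s-1) completedRiemannZeta s`: `completedRiemannZeta = completedRiemannZeta₀ - 1/s - 1/(1-s)`; the value at `s = 1` may be
chosen), the half plane is connected: identity theorem (`AnalyticOnNhd.eqOn_of_preconnected_of_eventuallyEq`), so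
`F(s) + z^{-1/2}/(s-1) = z^{-s/2} Λ(s)` for `Re s > 0`, `s ≠ 1`.
For `0 < Re s < 1`: `-(1/2) z^{-1/2} ∫_1^∞ x^{s/2-3/2} dx = z^{-1/2}/(s-1)` (`integral_Ioi_cpow_of_lt`), so the left side is
`∫_0^∞ x^{s/2-1} (th(xz) - (1/2)(xz)^{-1/2}) dx`. (`(xz)^{-1/2} = x^{-1/2} z^{-1/2}` for `x > 0`.) -/

set_option autoImplicit false

namespace Pool.Agent.GH

open Complex MeasureTheory Finset
open scoped Real ComplexConjugate

/-- The function whose Mellin transform is continued. -/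
private noncomputable def Mellin2_f (z : ℂ) (x : ℝ) : ℂ :=
  th (x * z) - 1 / 2 * z ^ (-(1 / 2) : ℂ) •
    Set.indicator (Set.Ioc 0 1) (fun t : ℝ => (t : ℂ) ^ (-(1 / 2) : ℂ)) x

private theorem Mellin2_mul_cpow {z : ℂ} (hz : 0 < z.re) {x : ℝ} (hx : 0 < x) (a : ℂ) :
    ((x : ℂ) * z) ^ a = (x : ℂ) ^ a * z ^ a := by
  have hz0 : z ≠ 0 := by
    rintro rfl
    simp at hz
  have hx0 : (x : ℂ) ≠ 0 := by exact_mod_cast hx.ne'
  rw [Complex.cpow_def_of_ne_zero (mul_ne_zero hx0 hz0), Complex.log_ofReal_mul hx hz0,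
    Complex.cpow_def_of_ne_zero hx0, Complex.cpow_def_of_ne_zero hz0, ← Complex.exp_add,
    Complex.ofReal_log hx.le, add_mul]

private theorem Mellin2_re {z : ℂ} (hz : 0 < z.re) {x : ℝ} (hx : 0 < x) :
    0 < ((x : ℂ) * z).re := by
  rw [Complex.re_ofReal_mul]
  positivity

private theorem Mellin2_contth {z : ℂ} (hz : 0 < z.re) :
    ContinuousOn (fun x : ℝ => th (x * z)) (Set.Ioi 0) := by
  refine continuousOn_th.comp (Continuous.continuousOn (by fun_prop)) ?_
  intro x hx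
  exact Mellin2_re hz hx

private theorem Mellin2_loc {z : ℂ} (hz : 0 < z.re) :
    LocallyIntegrableOn (Mellin2_f z) (Set.Ioi 0) := by
  have h1 : LocallyIntegrableOn (fun x : ℝ => th (x * z)) (Set.Ioi 0) :=
    (Mellin2_contth hz).locallyIntegrableOn measurableSet_Ioi
  have h2 : LocallyIntegrableOn (fun x : ℝ => (x : ℂ) ^ (-(1 / 2) : ℂ)) (Set.Ioi 0) := by
    refine ContinuousOn.locallyIntegrableOn (fun t ht => ?_) measurableSet_Ioi
    exact (Complex.continuousAt_ofReal_cpow_const _ _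
      (Or.inr (ne_of_gt ht))).continuousWithinAt
  have h3 : LocallyIntegrableOn (Set.indicator (Set.Ioc (0 : ℝ) 1)
      (fun t : ℝ => (t : ℂ) ^ (-(1 / 2) : ℂ))) (Set.Ioi 0) := by
    intro x hx
    obtain ⟨U, hU, hi⟩ := h2 x hx
    exact ⟨U, hU, hi.indicator measurableSet_Ioc⟩
  have h4 : LocallyIntegrableOn (fun x : ℝ => 1 / 2 * z ^ (-(1 / 2) : ℂ) •
      Set.indicator (Set.Ioc 0 1) (fun t : ℝ => (t : ℂ) ^ (-(1 / 2) : ℂ)) x) (Set.Ioi 0) := by
    intro x hx
    obtain ⟨U, hU, hi⟩ := h3 x hx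
    refine ⟨U, hU, ?_⟩
    have h5 := (hi.smul (z ^ (-(1 / 2) : ℂ))).const_mul (1 / 2 : ℂ)
    exact h5
  exact h1.sub h4

private theorem Mellin2_top {z : ℂ} (hz : 0 < z.re) :
    Mellin2_f z =O[Filter.atTop] fun t : ℝ => Real.exp (-(π * z.re) * t) := by
  refine Asymptotics.IsBigO.of_bound (1 / (1 - Real.exp (-π * z.re))) ?_
  filter_upwards [Filter.eventually_gt_atTop (1 : ℝ)] with x hx
  have hx0 : 0 < x := by linarith
  have hf : Mellin2_f z x = th (x * z) := by
    unfold Mellin2_f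
    rw [Set.indicator_of_notMem (fun h => absurd h.2 (not_le.mpr hx)), smul_zero, mul_zero,
      sub_zero]
  rw [hf]
  refine (norm_th_le (Mellin2_re hz hx0)).trans ?_
  rw [Complex.re_ofReal_mul, Real.norm_of_nonneg (Real.exp_pos _).le]
  have h1 : Real.exp (-π * z.re) < 1 := by
    rw [Real.exp_lt_one_iff]
    nlinarith [Real.pi_pos]
  have h2 : Real.exp (-π * (x * z.re)) ≤ Real.exp (-π * z.re) := by
    rw [Real.exp_le_exp]
    nlinarith [mul_pos Real.pi_pos hz]
  rw [show -(π * z.re) * x = -π * (x * z.re) by ring, div_eq_mul_one_div, mul_comm]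
  refine mul_le_mul_of_nonneg_right ?_ (Real.exp_pos _).le
  exact one_div_le_one_div_of_le (by linarith) (by linarith)

private theorem Mellin2_bot {z : ℂ} (hz : 0 < z.re) :
    Mellin2_f z =O[nhdsWithin 0 (Set.Ioi 0)] fun t : ℝ => t ^ (-(0 : ℝ)) := by
  have hz0 : z ≠ 0 := by
    rintro rfl
    simp at hz
  refine Asymptotics.IsBigO.of_bound
    (1 / 2 + ‖z‖ ^ (-(1 / 2) : ℝ) * (z.re / ‖z‖ ^ 2) ^ (-(1 / 2) : ℝ)) ?_
  have hmem : Set.Ioc (0 : ℝ) 1 ∈ nhdsWithin 0 (Set.Ioi 0) := Ioc_mem_nhdsGT one_pos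
  filter_upwards [hmem] with x hx
  have hx0 : 0 < x := hx.1
  have hw := Mellin2_re hz hx0
  have hw0 : (x : ℂ) * z ≠ 0 := by
    intro h
    rw [h] at hw
    simp at hw
  have hf : Mellin2_f z x = -(1 / 2) + ((x : ℂ) * z) ^ (-(1 / 2) : ℂ) * th (1 / (x * z)) := by
    unfold Mellin2_f
    rw [Set.indicator_of_mem hx, smul_eq_mul]
    have h1 := th_fe hw
    rw [one_div, ← Complex.cpow_neg] at h1
    have h2 := Mellin2_mul_cpow hz hx0 (-(1 / 2) : ℂ)
    rw [h2] at h1 ⊢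
    linear_combination (1 / 2) * h1
  rw [hf, neg_zero, Real.rpow_zero, norm_one, mul_one]
  refine (norm_add_le _ _).trans (add_le_add (by norm_num) ?_)
  have hre : (1 / ((x : ℂ) * z)).re = z.re / ‖z‖ ^ 2 / x := by
    rw [one_div, Complex.inv_re, Complex.re_ofReal_mul, Complex.normSq_mul, Complex.normSq_ofReal,
      Complex.normSq_eq_norm_sq]
    have : ‖z‖ ≠ 0 := norm_ne_zero_iff.mpr hz0
    field_simp
  have hr : 0 < z.re / ‖z‖ ^ 2 := by positivity
  have h3 : ‖th (1 / (x * z))‖ ≤ (z.re / ‖z‖ ^ 2 / x) ^ (-(1 / 2) : ℝ) := by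
    have h := norm_th_le_rpow (z := 1 / ((x : ℂ) * z)) (by rw [hre]; positivity)
    rwa [hre] at h
  rw [norm_mul]
  have h4 : ‖((x : ℂ) * z) ^ (-(1 / 2) : ℂ)‖ = x ^ (-(1 / 2) : ℝ) * ‖z‖ ^ (-(1 / 2) : ℝ) := by
    have h5 := Complex.norm_cpow_real ((x : ℂ) * z) (-(1 / 2))
    push_cast at h5
    rw [h5, norm_mul, Complex.norm_real, Real.norm_of_nonneg hx0.le,
      Real.mul_rpow hx0.le (norm_nonneg _)]
  rw [h4]
  refine (mul_le_mul_of_nonneg_left h3 (by positivity)).trans (le_of_eq ?_)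
  rw [Real.div_rpow hr.le hx0.le]
  have h6 : x ^ (-(1 / 2) : ℝ) ≠ 0 := (Real.rpow_pos_of_pos hx0 _).ne'
  field_simp

private theorem Mellin2_conv {s z : ℂ} (hs : 0 < s.re) (hz : 0 < z.re) :
    MellinConvergent (Mellin2_f z) (s / 2) := by
  refine mellinConvergent_of_isBigO_rpow_exp (a := π * z.re) (b := 0) (by positivity)
    (Mellin2_loc hz) (Mellin2_top hz) (Mellin2_bot hz) ?_
  rw [Complex.div_ofNat_re]
  positivity

private theorem Mellin2_diff {s z : ℂ} (hs : 0 < s.re) (hz : 0 < z.re) :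
    DifferentiableAt ℂ (fun s => mellin (Mellin2_f z) (s / 2)) s := by
  have h := mellin_differentiableAt_of_isBigO_rpow_exp (a := π * z.re) (b := 0) (s := s / 2)
    (by positivity) (Mellin2_loc hz) (Mellin2_top hz) (Mellin2_bot hz) (by
      rw [Complex.div_ofNat_re]
      positivity)
  exact DifferentiableAt.comp (g := mellin (Mellin2_f z)) (f := fun s : ℂ => s / 2) s h
    (differentiableAt_id.div_const 2)

private theorem Mellin2_ne_one {s : ℂ} (hs : s.re ≠ 1) : s - 1 ≠ 0 := by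
  intro h
  have := congrArg Complex.re h
  simp only [Complex.sub_re, Complex.one_re, Complex.zero_re] at this
  exact hs (by linarith)

private theorem Mellin2_right {s z : ℂ} (hs : 1 < s.re) (hz : 0 < z.re) :
    mellin (Mellin2_f z) (s / 2) =
      z ^ (-s / 2) * completedRiemannZeta s - z ^ (-(1 / 2) : ℂ) / (s - 1) := by
  obtain ⟨hi, he⟩ := mellin_th hs hz
  have h1 := hasMellin_cpow_Ioc (-(1 / 2) : ℂ) (s := s / 2) (by
    rw [Complex.div_ofNat_re]
    norm_num
    linarith)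
  have h2 := hasMellin_const_smul h1.1 (z ^ (-(1 / 2) : ℂ))
  have h3 := hasMellin_const_smul h2.1 (1 / 2 : ℂ)
  have hc : MellinConvergent (fun x : ℝ => th (x * z)) (s / 2) := hi
  have h4 := (hasMellin_sub hc h3.1).2
  have h5 : mellin (fun x : ℝ => th (x * z)) (s / 2) = z ^ (-s / 2) * completedRiemannZeta s := by
    rw [← he]
    rfl
  rw [h3.2, h2.2, h1.2, h5] at h4
  have hs1 : s - 1 ≠ 0 := Mellin2_ne_one (ne_of_gt hs)
  have h6 : mellin (Mellin2_f z) (s / 2) = z ^ (-s / 2) * completedRiemannZeta s -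
      (1 / 2 : ℂ) • z ^ (-(1 / 2) : ℂ) • (1 / (s / 2 + -(1 / 2))) := h4
  rw [h6]
  have h7 : s / 2 + -(1 / 2) = (s - 1) / 2 := by ring
  rw [h7, smul_eq_mul, smul_eq_mul]
  field_simp

/-- The continuation. -/
private theorem Mellin2_all {s z : ℂ} (hs : 0 < s.re) (hz : 0 < z.re) :
    (s - 1) * mellin (Mellin2_f z) (s / 2) + z ^ (-(1 / 2) : ℂ) =
      z ^ (-s / 2) * ((s - 1) * completedRiemannZeta₀ s - (s - 1) / s + 1) := by
  have hz0 : z ≠ 0 := by
    rintro rfl
    simp at hz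
  obtain ⟨U, hU⟩ : ∃ U : Set ℂ, U = {s : ℂ | 0 < s.re} := ⟨_, rfl⟩
  have hUo : IsOpen U := by
    rw [hU]
    exact isOpen_lt continuous_const Complex.continuous_re
  have hUc : IsPreconnected U := by
    rw [hU]
    exact (convex_halfSpace_re_gt 0).isPreconnected
  have hG : AnalyticOnNhd ℂ (fun s : ℂ => (s - 1) * mellin (Mellin2_f z) (s / 2) +
      z ^ (-(1 / 2) : ℂ)) U := by
    refine DifferentiableOn.analyticOnNhd (fun s hs => ?_) hUo
    rw [hU] at hs
    have h1 : DifferentiableAt ℂ (fun s : ℂ => s - 1) s := by fun_prop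
    exact ((h1.mul (Mellin2_diff hs hz)).add_const _).differentiableWithinAt
  have hH : AnalyticOnNhd ℂ (fun s : ℂ => z ^ (-s / 2) *
      ((s - 1) * completedRiemannZeta₀ s - (s - 1) / s + 1)) U := by
    refine DifferentiableOn.analyticOnNhd (fun s hs => ?_) hUo
    rw [hU] at hs
    have hs0 : s ≠ 0 := by
      rintro rfl
      simp at hs
    have h1 : DifferentiableAt ℂ (fun s : ℂ => s - 1) s := by fun_prop
    have h2 : DifferentiableAt ℂ (fun s : ℂ => z ^ (-s / 2)) s := by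
      refine DifferentiableAt.const_cpow (by fun_prop) (Or.inl hz0)
    have h3 := differentiable_completedZeta₀ s
    have h4 : DifferentiableAt ℂ (fun s : ℂ => (s - 1) / s) s := h1.div differentiableAt_id hs0
    exact (h2.mul (((h1.mul h3).sub h4).add_const 1)).differentiableWithinAt
  have h2U : (2 : ℂ) ∈ U := by
    rw [hU]
    simp
  have hev : (fun s : ℂ => (s - 1) * mellin (Mellin2_f z) (s / 2) + z ^ (-(1 / 2) : ℂ))
      =ᶠ[nhds 2] fun s : ℂ => z ^ (-s / 2) *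
      ((s - 1) * completedRiemannZeta₀ s - (s - 1) / s + 1) := by
    have hopen : IsOpen {s : ℂ | 1 < s.re} := isOpen_lt continuous_const Complex.continuous_re
    filter_upwards [hopen.mem_nhds (show (2 : ℂ) ∈ {s : ℂ | 1 < s.re} by simp)] with s hs
    have hs' : 1 < s.re := hs
    rw [Mellin2_right hs' hz, completedRiemannZeta_eq]
    have hs1 : s - 1 ≠ 0 := Mellin2_ne_one (ne_of_gt hs')
    have hs1' : 1 - s ≠ 0 := by
      intro h
      exact hs1 (by linear_combination -h)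
    have hs0 : s ≠ 0 := by
      rintro rfl
      simp at hs'
      linarith
    field_simp
    ring
  have h := hG.eqOn_of_preconnected_of_eventuallyEq hH hUc h2U hev
  exact h (by rw [hU]; exact hs)

theorem mellin_strip {s z : ℂ} (hs : 0 < s.re) (hs1 : s.re < 1) (hz : 0 < z.re) :
    ∫ x in Set.Ioi (0 : ℝ), (x : ℂ) ^ (s / 2 - 1) *
      (th (x * z) - 1 / 2 * ((x : ℂ) ^ (-(1 / 2) : ℂ) * z ^ (-(1 / 2) : ℂ))) =
      z ^ (-s / 2) * completedRiemannZeta s := by
  have hne : s - 1 ≠ 0 := Mellin2_ne_one (ne_of_lt hs1)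
  have hne' : 1 - s ≠ 0 := by
    intro h
    exact hne (by linear_combination -h)
  have hs0 : s ≠ 0 := by
    rintro rfl
    simp at hs
  have hconv := Mellin2_conv hs hz
  have hre : ((s - 3) / 2).re < -1 := by
    rw [Complex.div_ofNat_re, Complex.sub_re]
    norm_num
    linarith
  have hio := integrableOn_Ioi_cpow_of_lt hre one_pos
  have hiv := integral_Ioi_cpow_of_lt hre one_pos
  -- the second function
  obtain ⟨k, hk⟩ : ∃ k : ℝ → ℂ, k = fun x : ℝ => 1 / 2 * z ^ (-(1 / 2) : ℂ) *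
      (x : ℂ) ^ ((s - 3) / 2) := ⟨_, rfl⟩
  have hki : IntegrableOn k (Set.Ioi 1) := by
    rw [hk]
    exact hio.const_mul _
  have hkv : ∫ x in Set.Ioi (1 : ℝ), k x = -(z ^ (-(1 / 2) : ℂ) / (s - 1)) := by
    rw [hk, integral_const_mul, hiv, Complex.ofReal_one, Complex.one_cpow]
    have : (s - 3) / 2 + 1 = (s - 1) / 2 := by ring
    rw [this]
    field_simp
  have hind : ∫ x in Set.Ioi (0 : ℝ), Set.indicator (Set.Ioi 1) k x =
      -(z ^ (-(1 / 2) : ℂ) / (s - 1)) := by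
    rw [setIntegral_indicator measurableSet_Ioi, ← hkv]
    congr 2
    exact Set.inter_eq_right.mpr (Set.Ioi_subset_Ioi zero_le_one)
  have hindi : IntegrableOn (Set.indicator (Set.Ioi 1) k) (Set.Ioi 0) :=
    (integrable_indicator_iff measurableSet_Ioi).mpr hki |>.integrableOn
  have hpt : ∀ x ∈ Set.Ioi (0 : ℝ), (x : ℂ) ^ (s / 2 - 1) *
      (th (x * z) - 1 / 2 * ((x : ℂ) ^ (-(1 / 2) : ℂ) * z ^ (-(1 / 2) : ℂ))) =
      (x : ℂ) ^ (s / 2 - 1) • Mellin2_f z x - Set.indicator (Set.Ioi 1) k x := by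
    intro x hx
    have hx0 : (0 : ℝ) < x := hx
    have hx0' : (x : ℂ) ≠ 0 := by exact_mod_cast hx0.ne'
    have hpow : (x : ℂ) ^ ((s - 3) / 2) = (x : ℂ) ^ (s / 2 - 1) * (x : ℂ) ^ (-(1 / 2) : ℂ) := by
      rw [← Complex.cpow_add _ _ hx0']
      congr 1
      ring
    unfold Mellin2_f
    rcases le_or_gt x 1 with h | h
    · rw [Set.indicator_of_mem (show x ∈ Set.Ioc (0 : ℝ) 1 from ⟨hx0, h⟩),
        Set.indicator_of_notMem (show x ∉ Set.Ioi (1 : ℝ) from not_lt.mpr h), smul_eq_mul,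
        smul_eq_mul]
      ring
    · rw [Set.indicator_of_notMem (fun h' => absurd h'.2 (not_le.mpr h)),
        Set.indicator_of_mem (show x ∈ Set.Ioi (1 : ℝ) from h), smul_zero, mul_zero, sub_zero,
        smul_eq_mul, hk]
      simp only []
      rw [hpow]
      ring
  rw [setIntegral_congr_fun measurableSet_Ioi hpt, integral_sub hconv hindi, hind]
  have hm : ∫ x in Set.Ioi (0 : ℝ), (x : ℂ) ^ (s / 2 - 1) • Mellin2_f z x =
      mellin (Mellin2_f z) (s / 2) := rfl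
  rw [hm, completedRiemannZeta_eq]
  have h := Mellin2_all hs hz
  have h8 : mellin (Mellin2_f z) (s / 2) = (z ^ (-s / 2) *
      ((s - 1) * completedRiemannZeta₀ s - (s - 1) / s + 1) - z ^ (-(1 / 2) : ℂ)) / (s - 1) := by
    rw [← h]
    field_simp
    ring
  rw [h8]
  field_simp
  ring

end Pool.Agent.GH
end

section

/-! TASK FT. The Fourier transform of `gg`.
Proof. In `mellin_strip` put `z = om T`, `s = 1/2 + a + it`, `x = e^{2y}` (`dx = 2 e^{2y} dy`): `x^{s/2-1} dx = 2 e^{sy} dy`, `x^{-1/2} = e^{-y}`, and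
`2 e^{sy} (th(e^{2y} om) - (1/2) e^{-y} om^{-1/2}) = e^{(a+it)y} gg T y`. `om^{-1/2} = omh` and `om^{-s/2} = exp(-i ang s/2)` since `log(om T) = i ang T`
(`|ang| < π`). Change of variables: `MeasureTheory.integral_image_eq_integral_abs_deriv_smul` for `exp ∘ (2·)` from `ℝ` onto `(0,∞)`
(or `integral_comp_rpow_Ioi` + `integral_exp`; compare Mathlib's `mellin_eq_fourier`).
`norm` version: `‖exp(-i ang s/2)‖ = exp(ang t/2)`. -/

set_option autoImplicit false

namespace Pool.Agent.GH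

open Complex MeasureTheory Finset
open scoped Real ComplexConjugate

private theorem FT_ang {T : ℝ} (hT : 1 ≤ T) : -π < ang T ∧ ang T ≤ π := by
  have h1 : 0 < 1 / T := by positivity
  have h2 : 1 / T ≤ 1 := by
    rw [div_le_iff₀ (by linarith)]; linarith
  have hπ := Real.pi_gt_three
  unfold ang
  constructor <;> linarith

private theorem FT_log {T : ℝ} (hT : 1 ≤ T) : Complex.log (om T) = ang T * I := by
  obtain ⟨h1, h2⟩ := FT_ang hT
  unfold om
  apply Complex.log_exp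
  · simpa using h1
  · simpa using h2

private theorem FT_cpow {T : ℝ} (hT : 1 ≤ T) (u : ℂ) : om T ^ u = cexp (ang T * I * u) := by
  have h0 : om T ≠ 0 := by unfold om; exact Complex.exp_ne_zero _
  rw [Complex.cpow_def_of_ne_zero h0, FT_log hT]

private theorem FT_cpow_exp (y : ℝ) (u : ℂ) : ((Real.exp (2 * y) : ℝ) : ℂ) ^ u = cexp (2 * y * u) := by
  have h0 : ((Real.exp (2 * y) : ℝ) : ℂ) ≠ 0 := by
    exact_mod_cast (Real.exp_pos _).ne'
  rw [Complex.cpow_def_of_ne_zero h0, ← Complex.ofReal_log (Real.exp_pos _).le, Real.log_exp]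
  push_cast
  rfl

theorem gg_ft {T : ℝ} (hT : 1 ≤ T) {a : ℝ} (ha : |a| < 1 / 2) (t : ℝ) :
    ∫ y : ℝ, cexp ((a + t * I) * y) * gg T y =
      cexp (-(ang T / 2) * I * (1 / 2 + a)) * xi T a t := by
  obtain ⟨ha1, ha2⟩ := abs_lt.1 ha
  obtain ⟨s, hs⟩ : ∃ s : ℂ, s = 1 / 2 + a + t * I := ⟨_, rfl⟩
  have hsre : s.re = 1 / 2 + a := by rw [hs]; simp
  have hz : 0 < (om T).re := by
    rw [om_re]
    have := (sin_bounds hT).1
    have h2 : 0 < 1 / (2 * T) := by positivity
    linarith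
  have hM := mellin_strip (s := s) (z := om T) (by rw [hsre]; linarith) (by rw [hsre]; linarith) hz
  -- change of variables
  have himg : (fun y : ℝ => Real.exp (2 * y)) '' Set.univ = Set.Ioi (0 : ℝ) := by
    ext x
    simp only [Set.mem_image, Set.mem_univ, true_and, Set.mem_Ioi]
    constructor
    · rintro ⟨y, rfl⟩; exact Real.exp_pos _
    · intro hx
      exact ⟨Real.log x / 2, by rw [mul_div_cancel₀ _ two_ne_zero, Real.exp_log hx]⟩
  have hder : ∀ y ∈ (Set.univ : Set ℝ), HasDerivWithinAt (fun y : ℝ => Real.exp (2 * y))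
      (2 * Real.exp (2 * y)) Set.univ y := by
    intro y _
    have h1 : HasDerivAt (fun y : ℝ => 2 * y) 2 y := by
      simpa using (hasDerivAt_id y).const_mul 2
    have h2 := h1.exp
    exact (h2.congr_deriv (by ring)).hasDerivWithinAt
  have hinj : Set.InjOn (fun y : ℝ => Real.exp (2 * y)) Set.univ := by
    intro x _ y _ hxy
    have := Real.exp_injective hxy
    linarith
  have hcv := integral_image_eq_integral_abs_deriv_smul MeasurableSet.univ hder hinj
    (fun x : ℝ => (x : ℂ) ^ (s / 2 - 1) *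
      (th (x * om T) - 1 / 2 * ((x : ℂ) ^ (-(1 / 2) : ℂ) * om T ^ (-(1 / 2) : ℂ))))
  rw [himg, hM] at hcv
  rw [Measure.restrict_univ] at hcv
  have hfun : (fun y : ℝ => cexp ((a + t * I) * y) * gg T y) = fun y : ℝ =>
      |2 * Real.exp (2 * y)| • (((Real.exp (2 * y) : ℝ) : ℂ) ^ (s / 2 - 1) *
      (th (((Real.exp (2 * y) : ℝ) : ℂ) * om T) -
        1 / 2 * (((Real.exp (2 * y) : ℝ) : ℂ) ^ (-(1 / 2) : ℂ) * om T ^ (-(1 / 2) : ℂ)))) := by
    funext y
    have h1 : |2 * Real.exp (2 * y)| = 2 * Real.exp (2 * y) := abs_of_pos (by positivity)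
    rw [h1, Complex.real_smul, FT_cpow_exp, FT_cpow_exp, FT_cpow hT]
    have h2 : cexp (ang T * I * (-(1 / 2))) = omh T := by
      unfold omh
      congr 1
      ring
    rw [h2]
    unfold gg
    generalize th (((Real.exp (2 * y) : ℝ) : ℂ) * om T) = θ
    generalize omh T = ω
    have e1 : (((2 * Real.exp (2 * y) : ℝ)) : ℂ) * cexp (2 * y * (s / 2 - 1)) =
        2 * cexp (s * y) := by
      push_cast
      rw [mul_assoc, ← Complex.exp_add]
      congr 2
      ring
    have e2 : cexp ((a + t * I) * y) * ((Real.exp (y / 2) : ℝ) : ℂ) = cexp (s * y) := by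
      push_cast
      rw [← Complex.exp_add, hs]
      congr 1
      ring
    have e3 : cexp ((a + t * I) * y) * ((Real.exp (-y / 2) : ℝ) : ℂ) =
        cexp (s * y) * cexp (2 * y * (-(1 / 2))) := by
      push_cast
      rw [← Complex.exp_add, ← Complex.exp_add, hs]
      congr 1
      ring
    calc cexp ((a + t * I) * y) * (2 * ((Real.exp (y / 2) : ℝ) : ℂ) * θ -
          ((Real.exp (-y / 2) : ℝ) : ℂ) * ω)
        = 2 * (cexp ((a + t * I) * y) * ((Real.exp (y / 2) : ℝ) : ℂ)) * θ -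
          (cexp ((a + t * I) * y) * ((Real.exp (-y / 2) : ℝ) : ℂ)) * ω := by ring
      _ = 2 * cexp (s * y) * θ - (cexp (s * y) * cexp (2 * y * (-(1 / 2)))) * ω := by
          rw [e2, e3]
      _ = (2 * cexp (s * y)) * (θ - 1 / 2 * (cexp (2 * y * (-(1 / 2))) * ω)) := by ring
      _ = ((((2 * Real.exp (2 * y) : ℝ)) : ℂ) * cexp (2 * y * (s / 2 - 1))) *
          (θ - 1 / 2 * (cexp (2 * y * (-(1 / 2))) * ω)) := by rw [e1]
      _ = _ := by ring
  rw [hfun, ← hcv, FT_cpow hT]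
  unfold xi
  rw [← hs, ← mul_assoc]
  congr 1
  push_cast
  rw [← Complex.exp_add]
  congr 1
  rw [hs]
  have hI : I * I = -1 := Complex.I_mul_I
  linear_combination (-(ang T : ℂ) * t / 2) * hI

end Pool.Agent.GH
end

section

/-! TASK PSh. The shifted mean square.
Proof. Let `f(y) = e^{ay} ∑_{q∈F} wa a w q * gg T (y + log(q1/q2))`; integrable (`integrable_gg`, translation). Substituting `y ↦ y - log(q1/q2)` in each term and `gg_ft`:
`∫ f(y) e^{ity} dy = ∑_q w q (q1/q2)^a e^{-(a+it) log(q1/q2)} ∫ e^{(a+it)y} gg T y dy = WW F w t * exp(..) * xi T a t`, with `‖exp(..)‖ = 1`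
(`-(ang/2) I (1/2+a)` is purely imaginary). `plancherel_le`: the left side is at most `2π ∫ ‖f‖²`. Split at `0`: for `y > 0` this is the first term.
For `y < 0`, `y = -v`: `f(-v) = e^{-av} ∑ wa a w q gg T (-(v - log(q1/q2))) = e^{-av} omh ∑ wa a w q conj(gg T (v + log(q2/q1)))` (`gg_neg`), and the norm is that of
`e^{-av} ∑ conj(wa a w q) gg T (v + log(q2/q1))`; substitute `q ↦ q.swap` (a bijection of `F` by `herm`): `conj(wa a w q.swap) = wa (-a) w q`. So
`‖f(-v)‖ = e^{-av} ‖GG T F (wa (-a) w) v‖`. -/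

set_option autoImplicit false

namespace Pool.Agent.GH

open Complex MeasureTheory Finset
open scoped Real ComplexConjugate

/-- The integrand of one term. -/
theorem PSh_int_term {T : ℝ} (hT : 1 ≤ T) {a : ℝ} (ha : |a| < 1 / 2) (b : ℝ) :
    Integrable fun y : ℝ => (Real.exp (a * y) : ℂ) * gg T (y + b) := by
  have h := (integrable_gg hT ha).comp_add_right b
  have h2 := h.const_mul ((Real.exp (-(a * b)) : ℝ) : ℂ)
  refine h2.congr (Filter.Eventually.of_forall fun y => ?_)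
  show ((Real.exp (-(a * b)) : ℝ) : ℂ) * ((Real.exp (a * (y + b)) : ℂ) * gg T (y + b)) = _
  rw [← mul_assoc, ← Complex.ofReal_mul, ← Real.exp_add]
  congr 3
  ring

/-- The Fourier transform of one term. -/
theorem PSh_ft_term {T : ℝ} (hT : 1 ≤ T) {a : ℝ} (ha : |a| < 1 / 2) (b t : ℝ) :
    ∫ y : ℝ, cexp (t * y * I) * ((Real.exp (a * y) : ℂ) * gg T (y + b)) =
      cexp (-(a + t * I) * b) * (cexp (-(ang T / 2) * I * (1 / 2 + a)) * xi T a t) := by
  rw [← gg_ft hT ha t, ← integral_const_mul]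
  rw [← integral_add_right_eq_self (fun y : ℝ => cexp (-(a + t * I) * b) *
    (cexp ((a + t * I) * y) * gg T y)) b]
  refine integral_congr_ae (Filter.Eventually.of_forall fun y => ?_)
  show cexp (t * y * I) * ((Real.exp (a * y) : ℂ) * gg T (y + b)) =
    cexp (-(a + t * I) * b) * (cexp ((a + t * I) * ((y + b : ℝ) : ℂ)) * gg T (y + b))
  rw [← mul_assoc, ← mul_assoc, Complex.ofReal_exp, ← Complex.exp_add, ← Complex.exp_add]
  congr 2
  push_cast
  ring

/-- The weighted sum. -/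
theorem PSh_int {T : ℝ} (hT : 1 ≤ T) {a : ℝ} (ha : |a| < 1 / 2) (F : Finset (ℕ × ℕ))
    (w : ℕ × ℕ → ℂ) :
    Integrable fun y : ℝ => (Real.exp (a * y) : ℂ) * GG T F w y := by
  have h : (fun y : ℝ => (Real.exp (a * y) : ℂ) * GG T F w y) =
      fun y : ℝ => ∑ q ∈ F, w q * ((Real.exp (a * y) : ℂ) *
        gg T (y + (Real.log q.1 - Real.log q.2))) := by
    funext y
    unfold GG
    rw [Finset.mul_sum]
    refine Finset.sum_congr rfl fun q _ => ?_
    ring
  rw [h]
  exact integrable_finsetSum _ fun q _ => (PSh_int_term hT ha _).const_mul _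

theorem PSh_ft {T : ℝ} (hT : 1 ≤ T) {a : ℝ} (ha : |a| < 1 / 2) (F : Finset (ℕ × ℕ))
    (w : ℕ × ℕ → ℂ) (hF : ∀ q ∈ F, q.1 ≠ 0 ∧ q.2 ≠ 0) (t : ℝ) :
    ∫ y : ℝ, cexp (t * y * I) * ((Real.exp (a * y) : ℂ) * GG T F (wa a w) y) =
      cexp (-(ang T / 2) * I * (1 / 2 + a)) * (xi T a t * WW F w t) := by
  have h : (fun y : ℝ => cexp (t * y * I) * ((Real.exp (a * y) : ℂ) * GG T F (wa a w) y)) =
      fun y : ℝ => ∑ q ∈ F, wa a w q * (cexp (t * y * I) * ((Real.exp (a * y) : ℂ) *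
        gg T (y + (Real.log q.1 - Real.log q.2)))) := by
    funext y
    unfold GG
    rw [Finset.mul_sum, Finset.mul_sum]
    refine Finset.sum_congr rfl fun q _ => ?_
    ring
  rw [h, integral_finsetSum]
  · unfold WW
    rw [Finset.mul_sum, Finset.mul_sum]
    refine Finset.sum_congr rfl fun q hq => ?_
    rw [integral_const_mul, PSh_ft_term hT ha]
    obtain ⟨h1, h2⟩ := hF q hq
    have h1' : (0 : ℝ) < q.1 := by exact_mod_cast Nat.pos_of_ne_zero h1
    have h2' : (0 : ℝ) < q.2 := by exact_mod_cast Nat.pos_of_ne_zero h2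
    have h3 : ((((q.1 : ℝ) / q.2) ^ a : ℝ) : ℂ) = cexp (a * (Real.log q.1 - Real.log q.2)) := by
      rw [Real.rpow_def_of_pos (div_pos h1' h2'), Real.log_div h1'.ne' h2'.ne']
      push_cast
      rw [mul_comm]
    unfold wa
    rw [h3]
    have h4 : cexp (a * (Real.log q.1 - Real.log q.2)) *
        cexp (-(a + t * I) * ((Real.log q.1 - Real.log q.2 : ℝ) : ℂ)) =
        cexp ((t * (Real.log q.2 - Real.log q.1) : ℝ) * I) := by
      rw [← Complex.exp_add]
      congr 1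
      push_cast
      ring
    calc w q * cexp (a * (Real.log q.1 - Real.log q.2)) *
        (cexp (-(a + t * I) * ((Real.log q.1 - Real.log q.2 : ℝ) : ℂ)) *
          (cexp (-(ang T / 2) * I * (1 / 2 + a)) * xi T a t)) =
        w q * (cexp (a * (Real.log q.1 - Real.log q.2)) *
        cexp (-(a + t * I) * ((Real.log q.1 - Real.log q.2 : ℝ) : ℂ))) *
          (cexp (-(ang T / 2) * I * (1 / 2 + a)) * xi T a t) := by ring
      _ = _ := by rw [h4]; ring
  · intro q _
    refine Integrable.const_mul ?_ _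
    refine ((PSh_int_term hT ha (Real.log q.1 - Real.log q.2)).bdd_mul (c := 1) ?_ ?_)
    · exact (by fun_prop : Continuous fun y : ℝ => cexp (t * y * I)).aestronglyMeasurable
    · refine Filter.Eventually.of_forall fun y => ?_
      have : (t * y * I : ℂ) = ((t * y : ℝ) : ℂ) * I := by push_cast; ring
      rw [this, Complex.norm_exp_ofReal_mul_I]

theorem PSh_norm_exp (T a : ℝ) : ‖cexp (-(ang T / 2) * I * (1 / 2 + a))‖ = 1 := by
  have : (-(ang T / 2) * I * (1 / 2 + a) : ℂ) = ((-(ang T / 2) * (1 / 2 + a) : ℝ) : ℂ) * I := by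
    push_cast; ring
  rw [this, Complex.norm_exp_ofReal_mul_I]

/-- The reflection. -/
theorem PSh_neg {T : ℝ} (hT : 1 ≤ T) (a : ℝ) (F : Finset (ℕ × ℕ))
    (w : ℕ × ℕ → ℂ) (h : Herm F w) (v : ℝ) :
    ‖GG T F (wa a w) (-v)‖ = ‖GG T F (wa (-a) w) v‖ := by
  have h1 : GG T F (wa a w) (-v) = omh T * conj (GG T F (wa (-a) w) v) := by
    unfold GG
    rw [map_sum, Finset.mul_sum]
    refine Finset.sum_nbij' Prod.swap Prod.swap (fun q hq => (h.1 q hq).2.2)
      (fun q hq => (h.1 q hq).2.2) (fun q _ => Prod.swap_swap q) (fun q _ => Prod.swap_swap q) ?_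
    intro q hq
    have h2 : -v + (Real.log q.1 - Real.log q.2) =
        -(v + (Real.log q.swap.1 - Real.log q.swap.2)) := by
      rw [Prod.fst_swap, Prod.snd_swap]; ring
    rw [h2, gg_neg hT, map_mul]
    have h3 : wa a w q = conj (wa (-a) w q.swap) := by
      unfold wa
      rw [map_mul, h.2 q hq, Complex.conj_conj, Complex.conj_ofReal, Prod.fst_swap, Prod.snd_swap,
        Real.rpow_neg (by positivity), ← Real.inv_rpow (by positivity), inv_div]
    rw [h3]
    ring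
  rw [h1, norm_mul, norm_omh, one_mul, Complex.norm_conj]

theorem shift_planch {T : ℝ} (hT : 1 ≤ T) {a : ℝ} (ha : |a| < 1 / 2) (F : Finset (ℕ × ℕ))
    (w : ℕ × ℕ → ℂ) (h : Herm F w) :
    ∫⁻ t : ℝ, ENNReal.ofReal (‖xi T a t‖ ^ 2 * ‖WW F w t‖ ^ 2) ≤
      ENNReal.ofReal (2 * π) *
        ((∫⁻ y in Set.Ioi (0 : ℝ), ENNReal.ofReal (Real.exp (2 * a * y) * ‖GG T F (wa a w) y‖ ^ 2)) +
        ∫⁻ y in Set.Ioi (0 : ℝ), ENNReal.ofReal (Real.exp (-(2 * a * y)) * ‖GG T F (wa (-a) w) y‖ ^ 2)) := by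
  have hF : ∀ q ∈ F, q.1 ≠ 0 ∧ q.2 ≠ 0 := fun q hq => ⟨(h.1 q hq).1, (h.1 q hq).2.1⟩
  have hpl := plancherel_le _ (PSh_int hT ha F (wa a w))
  have h1 : ∀ t : ℝ, ‖xi T a t‖ ^ 2 * ‖WW F w t‖ ^ 2 =
      ‖∫ y : ℝ, cexp (t * y * I) * ((Real.exp (a * y) : ℂ) * GG T F (wa a w) y)‖ ^ 2 := by
    intro t
    rw [PSh_ft hT ha F w hF t, norm_mul, PSh_norm_exp, one_mul, norm_mul, mul_pow]
  simp_rw [h1]
  refine hpl.trans ?_
  gcongr
  have h2 : ∀ y : ℝ, ‖(Real.exp (a * y) : ℂ) * GG T F (wa a w) y‖ ^ 2 =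
      Real.exp (2 * a * y) * ‖GG T F (wa a w) y‖ ^ 2 := by
    intro y
    rw [norm_mul, mul_pow, Complex.norm_real, Real.norm_eq_abs, abs_of_pos (Real.exp_pos _),
      ← Real.exp_nat_mul]
    congr 2
    push_cast; ring
  simp_rw [h2]
  rw [← lintegral_add_compl _ (measurableSet_Ioi (a := (0 : ℝ)))]
  refine add_le_add le_rfl ?_
  rw [Set.compl_Ioi]
  have h3 : ∫⁻ y in Set.Iic (0 : ℝ), ENNReal.ofReal (Real.exp (2 * a * y) * ‖GG T F (wa a w) y‖ ^ 2) =
      ∫⁻ y in Set.Ici (0 : ℝ), ENNReal.ofReal (Real.exp (2 * a * (-y)) *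
        ‖GG T F (wa a w) (-y)‖ ^ 2) := by
    have hmp : MeasurePreserving (fun x : ℝ => -x) volume volume :=
      Measure.measurePreserving_neg volume
    have he : MeasurableEmbedding (fun x : ℝ => -x) := (MeasurableEquiv.neg ℝ).measurableEmbedding
    have := hmp.setLIntegral_comp_preimage_emb he
      (fun y => ENNReal.ofReal (Real.exp (2 * a * y) * ‖GG T F (wa a w) y‖ ^ 2)) (Set.Iic (0 : ℝ))
    rw [← this]
    congr 2
    ext x
    simp
  rw [h3, setLIntegral_congr Ioi_ae_eq_Ici.symm]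
  refine lintegral_mono fun y => ?_
  rw [PSh_neg hT a F w h y]
  refine le_of_eq ?_
  congr 3
  ring

end Pool.Agent.GH
end
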