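import Pool.Agent.Lib.MP_69b2e4_nt.GH.Defs

section

/-! TASK Osc. The oscillatory integral.
Proof. Let `κ = c + di ≠ 0`. `d/dx (e^{-κx²}/(-2κx)) = e^{-κx²} + e^{-κx²}/(2κx²)`, so
`∫_1^X e^{-κx²} dx = [e^{-κx²}/(-2κx)]_1^X - ∫_1^X e^{-κx²}/(2κx²) dx`; norms: `(1/(2|κ|)) (e^{-c} + e^{-cX²}/X + e^{-c} ∫_1^X x^{-2} dx) ≤ (3/2) e^{-c}/|κ| ≤ 2 e^{-c}/|d|`. -/

set_option autoImplicit false

namespace Pool.Agent.GH

open Complex MeasureTheory Finset
open scoped Real ComplexConjugate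

theorem osc {c d X : ℝ} (hc : 0 ≤ c) (hd : d ≠ 0) (hX : 1 ≤ X) :
    ‖∫ x in (1 : ℝ)..X, cexp (-(c + d * I) * (x ^ 2 : ℝ))‖ ≤ 2 * Real.exp (-c) / |d| := by
  obtain ⟨κ, hκ⟩ : ∃ κ : ℂ, κ = c + d * I := ⟨_, rfl⟩
  rw [← hκ]
  have hre : κ.re = c := by rw [hκ]; simp
  have him : κ.im = d := by rw [hκ]; simp
  have hκd : |d| ≤ ‖κ‖ := by rw [← him]; exact Complex.abs_im_le_norm κ
  have hd0 : 0 < |d| := abs_pos.2 hd
  have hκ0 : 0 < ‖κ‖ := lt_of_lt_of_le hd0 hκd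
  have hκne : κ ≠ 0 := norm_pos_iff.1 hκ0
  have hcont : Continuous fun x : ℝ => cexp (-κ * ((x ^ 2 : ℝ) : ℂ)) := by fun_prop
  -- norm of the integrand
  have hnorm : ∀ x : ℝ, 1 ≤ x → ‖cexp (-κ * ((x ^ 2 : ℝ) : ℂ))‖ ≤ Real.exp (-c) := by
    intro x hx
    rw [Complex.norm_exp]
    apply Real.exp_le_exp.2
    have : (-κ * ((x ^ 2 : ℝ) : ℂ)).re = -c * x ^ 2 := by
      rw [Complex.mul_re]
      simp only [Complex.neg_re, Complex.ofReal_re, Complex.ofReal_im, mul_zero, sub_zero, hre]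
    rw [this]
    have h1 : 0 ≤ c * (x ^ 2 - 1) := mul_nonneg hc (by nlinarith)
    nlinarith
  -- derivative
  have hderiv : ∀ x ∈ Set.uIcc (1 : ℝ) X, HasDerivAt
      (fun x : ℝ => cexp (-κ * ((x ^ 2 : ℝ) : ℂ)) / (-2 * κ * (x : ℂ)))
      (cexp (-κ * ((x ^ 2 : ℝ) : ℂ)) + cexp (-κ * ((x ^ 2 : ℝ) : ℂ)) / (2 * κ * (x : ℂ) ^ 2)) x := by
    intro x hx
    rw [Set.uIcc_of_le hX] at hx
    have hx0 : (x : ℂ) ≠ 0 := by
      have : x ≠ 0 := by linarith [hx.1]
      exact_mod_cast this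
    have h1 : HasDerivAt (fun x : ℝ => (x : ℂ)) 1 x := Complex.ofRealCLM.hasDerivAt
    have h2 : HasDerivAt (fun x : ℝ => -κ * ((x ^ 2 : ℝ) : ℂ)) (-κ * (2 * (x : ℂ))) x := by
      have h3 : HasDerivAt (fun x : ℝ => (x : ℂ) ^ 2) (2 * (x : ℂ)) x := by
        have h := h1.fun_pow 2
        refine h.congr_deriv ?_
        simp
      have h4 := h3.const_mul (-κ)
      refine h4.congr_of_eventuallyEq (Filter.Eventually.of_forall fun y => ?_)
      simp
    have h5 := h2.cexp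
    have h6 : HasDerivAt (fun x : ℝ => -2 * κ * (x : ℂ)) (-2 * κ) x := by
      simpa using h1.const_mul (-2 * κ)
    have hne : -2 * κ * (x : ℂ) ≠ 0 := by
      simp [hκne, hx0]
    have h7 := h5.div h6 hne
    refine h7.congr_deriv ?_
    field_simp
    ring
  have hcont2 : ContinuousOn (fun x : ℝ => cexp (-κ * ((x ^ 2 : ℝ) : ℂ)) / (2 * κ * (x : ℂ) ^ 2))
      (Set.uIcc (1 : ℝ) X) := by
    refine hcont.continuousOn.div (by fun_prop) ?_
    intro x hx
    rw [Set.uIcc_of_le hX] at hx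
    have : x ≠ 0 := by linarith [hx.1]
    have hx0 : (x : ℂ) ≠ 0 := by exact_mod_cast this
    simp [hκne, hx0]
  have hint1 : IntervalIntegrable (fun x : ℝ => cexp (-κ * ((x ^ 2 : ℝ) : ℂ))) volume 1 X :=
    hcont.intervalIntegrable _ _
  have hint2 : IntervalIntegrable (fun x : ℝ => cexp (-κ * ((x ^ 2 : ℝ) : ℂ)) / (2 * κ * (x : ℂ) ^ 2))
      volume 1 X := hcont2.intervalIntegrable
  have hftc := intervalIntegral.integral_eq_sub_of_hasDerivAt hderiv (hint1.add hint2)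
  rw [intervalIntegral.integral_add hint1 hint2] at hftc
  have heq : ∫ x in (1 : ℝ)..X, cexp (-κ * ((x ^ 2 : ℝ) : ℂ)) =
      cexp (-κ * ((X ^ 2 : ℝ) : ℂ)) / (-2 * κ * (X : ℂ)) -
      cexp (-κ * (((1 : ℝ) ^ 2 : ℝ) : ℂ)) / (-2 * κ * ((1 : ℝ) : ℂ)) -
      ∫ x in (1 : ℝ)..X, cexp (-κ * ((x ^ 2 : ℝ) : ℂ)) / (2 * κ * (x : ℂ) ^ 2) := by
    rw [← hftc]; ring
  rw [heq]
  obtain ⟨K, hK⟩ : ∃ K : ℝ, K = Real.exp (-c) / (2 * ‖κ‖) := ⟨_, rfl⟩
  have hK0 : 0 ≤ K := by rw [hK]; positivity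
  have hX0 : 0 < X := by linarith
  have b1 : ‖cexp (-κ * ((X ^ 2 : ℝ) : ℂ)) / (-2 * κ * (X : ℂ))‖ ≤ K / X := by
    rw [norm_div, norm_mul, norm_mul, norm_neg, Complex.norm_ofNat, Complex.norm_real,
      Real.norm_of_nonneg hX0.le, hK, div_div]
    exact div_le_div_of_nonneg_right (hnorm X hX) (by positivity)
  have b2 : ‖cexp (-κ * (((1 : ℝ) ^ 2 : ℝ) : ℂ)) / (-2 * κ * ((1 : ℝ) : ℂ))‖ ≤ K := by
    rw [norm_div, norm_mul, norm_mul, norm_neg, Complex.norm_ofNat, Complex.norm_real,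
      Real.norm_of_nonneg zero_le_one, hK, mul_one]
    exact div_le_div_of_nonneg_right (hnorm 1 le_rfl) (by positivity)
  have b3 : ‖∫ x in (1 : ℝ)..X, cexp (-κ * ((x ^ 2 : ℝ) : ℂ)) / (2 * κ * (x : ℂ) ^ 2)‖ ≤
      K - K / X := by
    have hg : ∀ x ∈ Set.uIcc (1 : ℝ) X, HasDerivAt (fun x : ℝ => -(K / x)) (K / x ^ 2) x := by
      intro x hx
      rw [Set.uIcc_of_le hX] at hx
      have hx0 : x ≠ 0 := by linarith [hx.1]
      have h1 := (hasDerivAt_inv hx0).const_mul (-K)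
      refine (h1.congr_deriv ?_).congr_of_eventuallyEq (Filter.Eventually.of_forall fun y => ?_)
      · field_simp
      · show -(K / y) = -K * y⁻¹
        rw [div_eq_mul_inv]; ring
    have hgc : ContinuousOn (fun x : ℝ => K / x ^ 2) (Set.uIcc (1 : ℝ) X) := by
      refine continuousOn_const.div (by fun_prop) ?_
      intro x hx
      rw [Set.uIcc_of_le hX] at hx
      have hx0 : x ≠ 0 := by linarith [hx.1]
      positivity
    have hgi : IntervalIntegrable (fun x : ℝ => K / x ^ 2) volume 1 X := hgc.intervalIntegrable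
    have h1 := intervalIntegral.norm_integral_le_of_norm_le hX
      (f := fun x : ℝ => cexp (-κ * ((x ^ 2 : ℝ) : ℂ)) / (2 * κ * (x : ℂ) ^ 2))
      (g := fun x : ℝ => K / x ^ 2) (μ := volume) ?_ hgi
    · refine h1.trans (le_of_eq ?_)
      rw [intervalIntegral.integral_eq_sub_of_hasDerivAt hg hgi]
      ring
    · refine Filter.Eventually.of_forall fun x hx => ?_
      have hx1 : 1 ≤ x := hx.1.le
      have hx0 : 0 < x := by linarith
      rw [norm_div, norm_mul, norm_mul, norm_pow, Complex.norm_ofNat, Complex.norm_real,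
        Real.norm_of_nonneg hx0.le, hK, div_div]
      exact div_le_div_of_nonneg_right (hnorm x hx1) (by positivity)
  have hfin : K + K ≤ 2 * Real.exp (-c) / |d| := by
    have h1 : K + K = Real.exp (-c) / ‖κ‖ := by rw [hK]; field_simp; ring
    rw [h1]
    have h2 : Real.exp (-c) / ‖κ‖ ≤ Real.exp (-c) / |d| :=
      div_le_div_of_nonneg_left (Real.exp_pos _).le hd0 hκd
    have h3 : 0 ≤ Real.exp (-c) / |d| := by positivity
    have h4 : 2 * Real.exp (-c) / |d| = Real.exp (-c) / |d| + Real.exp (-c) / |d| := by ring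
    linarith
  refine (norm_sub_le _ _).trans ?_
  have := norm_sub_le (cexp (-κ * ((X ^ 2 : ℝ) : ℂ)) / (-2 * κ * (X : ℂ)))
    (cexp (-κ * (((1 : ℝ) ^ 2 : ℝ) : ℂ)) / (-2 * κ * ((1 : ℝ) : ℂ)))
  linarith

end Pool.Agent.GH
end

section

/-! TASK Gam. A sharp lower bound for the Gamma function near the line 1/4.
Step 1. `‖Γ(1/2+iy)‖² = π/cosh(πy)` (reflection `Complex.Gamma_mul_Gamma_one_sub` at `1/2+iy`; `Γ(conj z) = conj Γ(z)`), so `‖Γ(1/2+iy)‖ ≤ C e^{-π|y|/2}`, and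
`‖Γ(3/2+iy)‖ = ‖1/2+iy‖ ‖Γ(1/2+iy)‖ ≤ C (1+|y|) e^{-π|y|/2}`.
Step 2 (`gamma_upper_strip`). Fix `y0` and consider on the strip `1/2 ≤ Re w ≤ 3/2` the function `F(w) = Γ(w + i y0) exp((w-1/2)²)`; it is bounded (`‖Γ(w)‖ ≤ Γ(Re w)`, `|exp((w-1/2)²)| = exp(x²-v²)`).
On `Re w = 1/2`, `w = 1/2+iv`: `‖F‖ ≤ C e^{-π|y0+v|/2 - v²} ≤ C e^{-π|y0|/2} e^{π|v|/2 - v²} ≤ C' e^{-π|y0|/2}`; on `Re w = 3/2`: `‖F‖ ≤ C (1+|y0+v|) e^{1-v²} e^{-π|y0+v|/2} ≤ C' (1+|y0|) e^{-π|y0|/2}`.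
Three lines theorem (`Complex.HadamardThreeLines.norm_le_interp_of_mem_verticalClosedStrip'` or similar): `‖F(1/2+τ)‖ ≤ C' (1+|y0|)^τ e^{-π|y0|/2}` for `0 ≤ τ ≤ 1`. So
`‖Γ(1/2+τ+iy)‖ ≤ C (1+|y|)^τ e^{-π|y|/2}`.
Step 3. Reflection: `‖Γ(x+iy)‖ ‖Γ(1-x-iy)‖ = π/‖sin π(x+iy)‖ ≥ π e^{-π|y|}`, and `1-x = 1/2+τ` with `τ = 1/2-x ∈ [1/8,3/8]`: `‖Γ(x+iy)‖ ≥ c (1+|y|)^{x-1/2} e^{-π|y|/2}`. -/

set_option autoImplicit false

namespace Pool.Agent.GH

open Complex MeasureTheory Finset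
open scoped Real ComplexConjugate

private theorem Gam_norm_le {w : ℂ} (hw : 0 < w.re) : ‖Complex.Gamma w‖ ≤ Real.Gamma w.re := by
  rw [Complex.Gamma_eq_integral hw, Real.Gamma_eq_integral hw, Complex.GammaIntegral]
  refine (norm_integral_le_integral_norm _).trans (le_of_eq ?_)
  refine setIntegral_congr_fun measurableSet_Ioi fun x hx => ?_
  have hx' : (0 : ℝ) < x := hx
  show ‖((Real.exp (-x) : ℝ) : ℂ) * (x : ℂ) ^ (w - 1)‖ = Real.exp (-x) * x ^ (w.re - 1)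
  rw [norm_mul, Complex.norm_real, Real.norm_of_nonneg (Real.exp_pos _).le,
    Complex.norm_cpow_eq_rpow_re_of_pos hx']
  simp

private theorem Gam_bdd : ∃ M : ℝ, 0 ≤ M ∧ ∀ w : ℂ, 1 / 2 ≤ w.re → w.re ≤ 3 / 2 →
    ‖Complex.Gamma w‖ ≤ M := by
  have hc : ContinuousOn Real.Gamma (Set.Icc (1 / 2) (3 / 2)) := fun x hx => by
    refine (Real.differentiableAt_Gamma fun m => ?_).continuousAt.continuousWithinAt
    have h1 : (1 / 2 : ℝ) ≤ x := hx.1
    have h2 : (0 : ℝ) ≤ m := Nat.cast_nonneg m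
    intro h
    linarith
  obtain ⟨M, hM⟩ := isCompact_Icc.exists_bound_of_continuousOn hc
  refine ⟨|M|, abs_nonneg _, fun w h1 h2 => ?_⟩
  have h3 := hM w.re ⟨h1, h2⟩
  rw [Real.norm_eq_abs] at h3
  exact (Gam_norm_le (by linarith)).trans ((le_abs_self _).trans (h3.trans (le_abs_self _)))

private theorem Gam_half (y : ℝ) :
    ‖Complex.Gamma (1 / 2 + y * I)‖ ≤ 3 * Real.exp (-(π * |y| / 2)) := by
  have h1 := Complex.Gamma_mul_Gamma_one_sub (1 / 2 + y * I)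
  have h2 : (1 : ℂ) - (1 / 2 + y * I) = conj (1 / 2 + y * I : ℂ) := by
    simp only [map_add, map_mul, Complex.conj_ofReal, Complex.conj_I, map_div₀, map_one, map_ofNat]
    ring
  rw [h2, Complex.Gamma_conj] at h1
  have h3 := congrArg norm h1
  rw [norm_mul, RCLike.norm_conj, norm_div, Complex.norm_real, Real.norm_of_nonneg Real.pi_pos.le]
    at h3
  have h4 : Complex.sin (π * (1 / 2 + y * I)) = ((Real.cosh (π * y) : ℝ) : ℂ) := by
    rw [show (π : ℂ) * (1 / 2 + y * I) = ((π * y : ℝ) : ℂ) * I + π / 2 by push_cast; ring,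
      Complex.sin_add_pi_div_two, Complex.cos_mul_I, Complex.ofReal_cosh]
  rw [h4, Complex.norm_real, Real.norm_of_nonneg (Real.cosh_pos _).le, ← sq] at h3
  have h5 : Real.exp (π * |y|) / 2 ≤ Real.cosh (π * y) := by
    rw [← Real.cosh_abs, abs_mul, abs_of_pos Real.pi_pos, Real.cosh_eq]
    have := Real.exp_pos (-(π * |y|))
    linarith
  have h6 : π / Real.cosh (π * y) ≤ 9 * Real.exp (-(π * |y|)) := by
    rw [div_le_iff₀ (Real.cosh_pos _)]
    have e1 : Real.exp (-(π * |y|)) * Real.exp (π * |y|) = 1 := by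
      rw [← Real.exp_add]; simp
    have := Real.pi_lt_d2
    have e2 : 9 * Real.exp (-(π * |y|)) * (Real.exp (π * |y|) / 2) ≤
        9 * Real.exp (-(π * |y|)) * Real.cosh (π * y) :=
      mul_le_mul_of_nonneg_left h5 (by positivity)
    nlinarith
  have h7 : (3 * Real.exp (-(π * |y| / 2))) ^ 2 = 9 * Real.exp (-(π * |y|)) := by
    rw [mul_pow, ← Real.exp_nat_mul]
    norm_num
    ring_nf
  refine le_of_sq_le_sq ?_ (by positivity)
  rw [h7, h3]
  exact h6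

private theorem Gam_three_half (y : ℝ) :
    ‖Complex.Gamma (3 / 2 + y * I)‖ ≤ 3 * (1 + |y|) * Real.exp (-(π * |y| / 2)) := by
  have h0 : (1 / 2 + y * I : ℂ) ≠ 0 := by
    intro h
    have := congrArg Complex.re h
    simp at this
  rw [show (3 / 2 + y * I : ℂ) = (1 / 2 + y * I) + 1 by ring, Complex.Gamma_add_one _ h0, norm_mul]
  have h1 : ‖(1 / 2 + y * I : ℂ)‖ ≤ 1 + |y| := by
    refine (norm_add_le _ _).trans ?_
    rw [norm_mul, Complex.norm_I, Complex.norm_real, mul_one, Real.norm_eq_abs]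
    have : ‖(1 / 2 : ℂ)‖ ≤ 1 := by norm_num
    linarith
  calc _ ≤ (1 + |y|) * (3 * Real.exp (-(π * |y| / 2))) :=
        mul_le_mul h1 (Gam_half y) (norm_nonneg _) (by positivity)
    _ = _ := by ring

private theorem Gam_upper (y τ : ℝ) (h0 : 0 ≤ τ) (h1 : τ ≤ 1) :
    ‖Complex.Gamma (1 / 2 + τ + y * I)‖ ≤
      3 * Real.exp 3 * (1 + |y|) ^ τ * Real.exp (-(π * |y| / 2)) := by
  obtain ⟨M, hM0, hM⟩ := Gam_bdd
  set F : ℂ → ℂ := fun w => Complex.Gamma (w + (1 / 2 + y * I)) * Complex.exp (w ^ 2) with hF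
  have hnexp : ∀ w : ℂ, ‖Complex.exp (w ^ 2)‖ = Real.exp (w.re ^ 2 - w.im ^ 2) := by
    intro w
    rw [Complex.norm_exp]
    congr 1
    simp [sq]
  set A : ℝ := 3 * Real.exp 3 * Real.exp (-(π * |y| / 2)) with hA
  have hA0 : 0 < A := by positivity
  have hcl : closure (Complex.HadamardThreeLines.verticalStrip 0 1) ⊆ {w : ℂ | 0 ≤ w.re} := by
    refine closure_minimal (fun w hw => ?_) (isClosed_le continuous_const Complex.continuous_re)
    exact (Set.mem_preimage.1 hw).1.le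
  have hd : DiffContOnCl ℂ F (Complex.HadamardThreeLines.verticalStrip 0 1) := by
    refine DifferentiableOn.diffContOnCl fun w hw => ?_
    have hw' : 0 ≤ w.re := hcl hw
    have hG : DifferentiableAt ℂ Complex.Gamma (w + (1 / 2 + y * I)) := by
      refine Complex.differentiableAt_Gamma _ fun m => ?_
      intro h
      have := congrArg Complex.re h
      simp at this
      have hm : (0 : ℝ) ≤ m := Nat.cast_nonneg m
      linarith
    refine DifferentiableAt.differentiableWithinAt ?_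
    have e1 : DifferentiableAt ℂ (fun w : ℂ => Complex.Gamma (w + (1 / 2 + y * I))) w :=
      DifferentiableAt.fun_comp' w hG (by fun_prop)
    exact e1.mul (by fun_prop)
  have hB : BddAbove ((norm ∘ F) '' Complex.HadamardThreeLines.verticalClosedStrip 0 1) := by
    refine ⟨M * Real.exp 1, ?_⟩
    rintro _ ⟨w, hw, rfl⟩
    have hw' : w.re ∈ Set.Icc (0 : ℝ) 1 := hw
    show ‖F w‖ ≤ _
    rw [hF]
    simp only [norm_mul]
    refine mul_le_mul (hM _ ?_ ?_) ?_ (norm_nonneg _) hM0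
    · simp; exact hw'.1
    · simp; linarith [hw'.2]
    · rw [hnexp]
      refine Real.exp_le_exp.2 ?_
      have := hw'.1
      have := hw'.2
      nlinarith [sq_nonneg w.im]
  have key : ∀ v : ℝ, Real.exp (-(π * |v + y| / 2)) ≤
      Real.exp (-(π * |y| / 2)) * Real.exp (π * |v| / 2) := by
    intro v
    rw [← Real.exp_add]
    refine Real.exp_le_exp.2 ?_
    have h1 : |y| ≤ |v + y| + |v| := by
      have := abs_sub (v + y) v
      simpa using this
    have := mul_le_mul_of_nonneg_left h1 Real.pi_pos.le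
    linarith
  have ha : ∀ w ∈ Complex.re ⁻¹' {(0 : ℝ)}, ‖F w‖ ≤ A := by
    intro w hw
    have hw0 : w.re = 0 := hw
    have e : w + (1 / 2 + y * I) = 1 / 2 + ((w.im + y : ℝ) : ℂ) * I := by
      conv_lhs => rw [← Complex.re_add_im w, hw0]
      push_cast
      ring
    rw [hF]
    simp only [norm_mul]
    rw [hnexp, e, hw0]
    have h2 := Gam_half (w.im + y)
    have h3 := key w.im
    have h4 : Real.exp (π * |w.im| / 2) * Real.exp (0 ^ 2 - w.im ^ 2) ≤ Real.exp 3 := by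
      rw [← Real.exp_add]
      refine Real.exp_le_exp.2 ?_
      have := Real.pi_lt_d2
      rw [← sq_abs w.im]
      nlinarith [sq_nonneg (|w.im| - 1), abs_nonneg w.im]
    calc _ ≤ (3 * Real.exp (-(π * |w.im + y| / 2))) * Real.exp (0 ^ 2 - w.im ^ 2) :=
          mul_le_mul_of_nonneg_right h2 (Real.exp_pos _).le
      _ ≤ (3 * (Real.exp (-(π * |y| / 2)) * Real.exp (π * |w.im| / 2))) *
          Real.exp (0 ^ 2 - w.im ^ 2) := by gcongr
      _ = 3 * Real.exp (-(π * |y| / 2)) *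
          (Real.exp (π * |w.im| / 2) * Real.exp (0 ^ 2 - w.im ^ 2)) := by ring
      _ ≤ 3 * Real.exp (-(π * |y| / 2)) * Real.exp 3 := by gcongr
      _ = A := by rw [hA]; ring
  have hb : ∀ w ∈ Complex.re ⁻¹' {(1 : ℝ)}, ‖F w‖ ≤ A * (1 + |y|) := by
    intro w hw
    have hw0 : w.re = 1 := hw
    have e : w + (1 / 2 + y * I) = 3 / 2 + ((w.im + y : ℝ) : ℂ) * I := by
      conv_lhs => rw [← Complex.re_add_im w, hw0]
      push_cast
      ring
    rw [hF]
    simp only [norm_mul]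
    rw [hnexp, e, hw0]
    have h2 := Gam_three_half (w.im + y)
    have h3 := key w.im
    have h5 : 1 + |w.im + y| ≤ (1 + |y|) * Real.exp |w.im| := by
      have e1 : |w.im + y| ≤ |w.im| + |y| := abs_add_le _ _
      have e2 : |w.im| + 1 ≤ Real.exp |w.im| := Real.add_one_le_exp _
      nlinarith [abs_nonneg y, abs_nonneg w.im]
    have h4 : Real.exp |w.im| * Real.exp (π * |w.im| / 2) * Real.exp (1 ^ 2 - w.im ^ 2) ≤
        Real.exp 3 := by
      rw [← Real.exp_add, ← Real.exp_add]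
      refine Real.exp_le_exp.2 ?_
      have := Real.pi_lt_d2
      rw [← sq_abs w.im]
      nlinarith [sq_nonneg (|w.im| - 1.3), abs_nonneg w.im]
    calc _ ≤ (3 * (1 + |w.im + y|) * Real.exp (-(π * |w.im + y| / 2))) *
          Real.exp (1 ^ 2 - w.im ^ 2) :=
          mul_le_mul_of_nonneg_right h2 (Real.exp_pos _).le
      _ ≤ (3 * ((1 + |y|) * Real.exp |w.im|) *
            (Real.exp (-(π * |y| / 2)) * Real.exp (π * |w.im| / 2))) *
          Real.exp (1 ^ 2 - w.im ^ 2) := by gcongr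
      _ = 3 * (1 + |y|) * Real.exp (-(π * |y| / 2)) *
          (Real.exp |w.im| * Real.exp (π * |w.im| / 2) * Real.exp (1 ^ 2 - w.im ^ 2)) := by ring
      _ ≤ 3 * (1 + |y|) * Real.exp (-(π * |y| / 2)) * Real.exp 3 := by gcongr
      _ = A * (1 + |y|) := by rw [hA]; ring
  have hz : ((τ : ℝ) : ℂ) ∈ Complex.HadamardThreeLines.verticalClosedStrip 0 1 := by
    show ((τ : ℝ) : ℂ).re ∈ Set.Icc (0 : ℝ) 1
    rw [Complex.ofReal_re]
    exact ⟨h0, h1⟩
  have h := Complex.HadamardThreeLines.norm_le_interp_of_mem_verticalClosedStrip₀₁' F hz hd hB ha hb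
  rw [Complex.ofReal_re, Real.mul_rpow hA0.le (by positivity), ← mul_assoc,
    ← Real.rpow_add hA0, show 1 - τ + τ = 1 by ring, Real.rpow_one] at h
  have h8 : ‖Complex.Gamma (1 / 2 + τ + y * I)‖ ≤ ‖F τ‖ := by
    rw [hF]
    simp only [norm_mul]
    rw [hnexp, show (τ : ℂ) + (1 / 2 + y * I) = 1 / 2 + τ + y * I by ring]
    refine le_mul_of_one_le_right (norm_nonneg _) (Real.one_le_exp ?_)
    simp
    positivity
  refine h8.trans (h.trans (le_of_eq ?_))
  rw [hA]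
  ring

theorem gamma_lb : ∃ c : ℝ, 0 < c ∧ ∀ x y : ℝ, 1 / 8 ≤ x → x ≤ 3 / 8 →
    c * (1 + |y|) ^ (x - 1 / 2) * Real.exp (-(π * |y| / 2)) ≤ ‖Complex.Gamma (x + y * I)‖ := by
  refine ⟨π / (3 * Real.exp 3), by positivity, fun x y hx hx' => ?_⟩
  have h1 := Complex.Gamma_mul_Gamma_one_sub (x + y * I)
  have h2 := congrArg norm h1
  rw [norm_mul, norm_div, Complex.norm_real, Real.norm_of_nonneg Real.pi_pos.le] at h2
  -- the sine
  have h3 : ‖Complex.sin (π * (x + y * I))‖ ≤ Real.exp (π * |y|) := by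
    have e1 : Complex.sin (π * (x + y * I)) =
        (Complex.exp (-((π * (x + y * I)) * I)) - Complex.exp ((π * (x + y * I)) * I)) * I / 2 := by
      rw [Complex.sin]
      ring_nf
    rw [e1, norm_div, norm_mul, Complex.norm_I, mul_one]
    have e2 : ‖Complex.exp (-((π * (x + y * I)) * I))‖ ≤ Real.exp (π * |y|) := by
      rw [Complex.norm_exp]
      refine Real.exp_le_exp.2 ?_
      simp
      have := le_abs_self y
      nlinarith [Real.pi_pos]
    have e3 : ‖Complex.exp ((π * (x + y * I)) * I)‖ ≤ Real.exp (π * |y|) := by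
      rw [Complex.norm_exp]
      refine Real.exp_le_exp.2 ?_
      simp
      have := neg_abs_le y
      nlinarith [Real.pi_pos]
    have e4 := norm_sub_le (Complex.exp (-((π * (x + y * I)) * I)))
      (Complex.exp ((π * (x + y * I)) * I))
    rw [Complex.norm_ofNat]
    linarith
  have hs0 : Complex.sin (π * (x + y * I)) ≠ 0 := by
    intro h
    rw [Complex.sin_eq_zero_iff] at h
    obtain ⟨k, hk⟩ := h
    have := congrArg Complex.re hk
    simp at this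
    have h5 : x = k := by
      have hp := Real.pi_pos
      nlinarith
    have h6 : (0 : ℝ) < k := by rw [← h5]; linarith
    have h7 : (k : ℝ) < 1 := by rw [← h5]; linarith
    have h8 : (0 : ℤ) < k := by exact_mod_cast h6
    have h9 : k < (1 : ℤ) := by exact_mod_cast h7
    omega
  have h4 : (1 : ℂ) - (x + y * I) = 1 / 2 + ((1 / 2 - x : ℝ) : ℂ) + ((-y : ℝ) : ℂ) * I := by
    push_cast
    ring
  have h5 := Gam_upper (-y) (1 / 2 - x) (by linarith) (by linarith)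
  rw [← h4, abs_neg] at h5
  have h6 : π * Real.exp (-(π * |y|)) ≤ π / ‖Complex.sin (π * (x + y * I))‖ := by
    rw [le_div_iff₀ (norm_pos_iff.2 hs0)]
    have e1 : Real.exp (-(π * |y|)) * Real.exp (π * |y|) = 1 := by
      rw [← Real.exp_add]; simp
    calc π * Real.exp (-(π * |y|)) * ‖Complex.sin (π * (x + y * I))‖ ≤
        π * Real.exp (-(π * |y|)) * Real.exp (π * |y|) := by gcongr
      _ = π := by rw [mul_assoc, e1, mul_one]
  rw [← h2] at h6
  set G := ‖Complex.Gamma (x + y * I)‖ with hG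
  have hG0 : 0 ≤ G := norm_nonneg _
  have h7 : π * Real.exp (-(π * |y|)) ≤
      G * (3 * Real.exp 3 * (1 + |y|) ^ (1 / 2 - x) * Real.exp (-(π * |y| / 2))) :=
    h6.trans (mul_le_mul_of_nonneg_left h5 hG0)
  have hpos : 0 < 3 * Real.exp 3 * (1 + |y|) ^ (1 / 2 - x) * Real.exp (-(π * |y| / 2)) := by
    positivity
  refine le_of_mul_le_mul_right (le_trans (le_of_eq ?_) h7) hpos
  have e1 : (1 + |y|) ^ (x - 1 / 2) * (1 + |y|) ^ (1 / 2 - x) = 1 := by
    rw [← Real.rpow_add (by positivity)]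
    simp
  have e2 : Real.exp (-(π * |y| / 2)) * Real.exp (-(π * |y| / 2)) = Real.exp (-(π * |y|)) := by
    rw [← Real.exp_add]
    congr 1
    ring
  have e3 : Real.exp 3 ≠ 0 := (Real.exp_pos _).ne'
  calc π / (3 * Real.exp 3) * (1 + |y|) ^ (x - 1 / 2) * Real.exp (-(π * |y| / 2)) *
      (3 * Real.exp 3 * (1 + |y|) ^ (1 / 2 - x) * Real.exp (-(π * |y| / 2)))
      = (π / (3 * Real.exp 3) * (3 * Real.exp 3)) *
        ((1 + |y|) ^ (x - 1 / 2) * (1 + |y|) ^ (1 / 2 - x)) *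
        (Real.exp (-(π * |y| / 2)) * Real.exp (-(π * |y| / 2))) := by ring
    _ = π * Real.exp (-(π * |y|)) := by
        rw [e1, e2, div_mul_cancel₀ _ (by positivity)]
        ring

end Pool.Agent.GH
end

section

/-! TASK XiLow. The zeta function is bounded by the rotated completed zeta function.
Proof. `s = 1/2+a+it`, `Λ(s) = π^{-s/2} Γ(s/2) ζ(s)` (`riemannZeta_def_of_ne_zero`, `Complex.Gammaℝ_def`), `‖π^{-s/2}‖ ≥ π^{-1}`, `s/2 = x + i t/2` with `x = 1/4+a/2 ∈ [1/8,3/8]`: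
`‖Λ(s)‖ ≥ c (1+t/2)^{-1/4+a/2} e^{-πt/4} ‖ζ(s)‖`. Since `ang T * t/2 = πt/4 - t/(2T)` and `t ≤ 3T`: `‖xi T a t‖ = e^{ang t/2}‖Λ(s)‖ ≥ c e^{-3/2} (1+t/2)^{-1/4+a/2} ‖ζ(s)‖`, and
`(1+t/2)^{1/4-a/2} ≤ (3T)^{1/4+|a|/2} ≤ 3 T^{1/4+|a|/2}` (`T ≥ 2`, `T ≤ t ≤ 3T`). -/

set_option autoImplicit false

namespace Pool.Agent.GH

open Complex MeasureTheory Finset
open scoped Real ComplexConjugate

theorem zeta_le_xi : ∃ C : ℝ, 1 ≤ C ∧ ∀ T a t : ℝ, 2 ≤ T → |a| ≤ 1 / 4 → T ≤ t → t ≤ 3 * T →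
    ‖riemannZeta (1 / 2 + a + t * I)‖ ≤ C * T ^ (1 / 4 + |a| / 2) * ‖xi T a t‖ := by
  obtain ⟨c, hc, hG⟩ := gamma_lb
  refine ⟨max 1 (3 * π * Real.exp (3 / 2) / c), le_max_left _ _, ?_⟩
  intro T a t hT ha hTt htT
  have ht0 : 0 < t := by linarith
  have hT0 : 0 < T := by linarith
  have ha1 := (abs_le.mp ha).1
  have ha2 := (abs_le.mp ha).2
  set s : ℂ := 1 / 2 + a + t * I with hs
  have hsre : s.re = 1 / 2 + a := by
    rw [hs]; simp
  have hsim : s.im = t := by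
    rw [hs]; simp
  have hs0 : s ≠ 0 := by
    intro h
    rw [h] at hsim
    simp only [Complex.zero_im] at hsim
    linarith
  have hs2 : s / 2 = ((1 / 4 + a / 2 : ℝ) : ℂ) + ((t / 2 : ℝ) : ℂ) * I := by
    apply Complex.ext
    · rw [Complex.div_ofNat_re, hsre]; simp; ring
    · rw [Complex.div_ofNat_im, hsim]; simp
  -- the archimedean factor
  have hg1 : c * (1 + t / 2) ^ (a / 2 - 1 / 4) * Real.exp (-(π * t / 4)) ≤
      ‖Complex.Gamma (s / 2)‖ := by
    have h := hG (1 / 4 + a / 2) (t / 2) (by linarith) (by linarith)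
    rw [abs_of_pos (by linarith : 0 < t / 2)] at h
    rw [hs2]
    have e1 : (1 / 4 + a / 2 - 1 / 2 : ℝ) = a / 2 - 1 / 4 := by ring
    have e2 : -(π * (t / 2) / 2) = -(π * t / 4) := by ring
    rw [e1, e2] at h
    exact h
  have hpi : (π : ℝ)⁻¹ ≤ ‖(π : ℂ) ^ (-s / 2)‖ := by
    rw [Complex.norm_cpow_eq_rpow_re_of_pos Real.pi_pos]
    have e : (-s / 2).re = -(1 / 4 + a / 2) := by
      rw [Complex.div_ofNat_re, Complex.neg_re, hsre]; ring
    rw [e, ← Real.rpow_neg_one]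
    exact Real.rpow_le_rpow_of_exponent_le (by linarith [Real.pi_gt_three]) (by linarith)
  have hg : (π : ℝ)⁻¹ * (c * (1 + t / 2) ^ (a / 2 - 1 / 4) * Real.exp (-(π * t / 4))) ≤
      ‖Complex.Gammaℝ s‖ := by
    rw [Complex.Gammaℝ_def, norm_mul]
    exact mul_le_mul hpi hg1 (by positivity) (norm_nonneg _)
  have hL : ‖completedRiemannZeta s‖ = ‖riemannZeta s‖ * ‖Complex.Gammaℝ s‖ := by
    have hne : Complex.Gammaℝ s ≠ 0 := by
      intro h
      rw [h, norm_zero] at hg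
      have : 0 < (π : ℝ)⁻¹ * (c * (1 + t / 2) ^ (a / 2 - 1 / 4) * Real.exp (-(π * t / 4))) := by
        positivity
      linarith
    rw [riemannZeta_def_of_ne_zero hs0, norm_div, div_mul_cancel₀ _ (norm_ne_zero_iff.mpr hne)]
  have hxi : ‖xi T a t‖ = Real.exp (ang T * t / 2) * ‖completedRiemannZeta s‖ := by
    unfold xi
    rw [norm_mul, Complex.norm_real, Real.norm_eq_abs, abs_of_pos (Real.exp_pos _)]
  have hexp : Real.exp (π * t / 4 - 3 / 2) ≤ Real.exp (ang T * t / 2) := by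
    apply Real.exp_le_exp.mpr
    unfold ang
    have h1 : t / (2 * T) ≤ 3 / 2 := by
      rw [div_le_iff₀ (by linarith)]; linarith
    have h2 : (π / 2 - 1 / T) * t / 2 = π * t / 4 - t / (2 * T) := by
      field_simp
      ring
    rw [h2]; linarith
  -- lower bound for xi
  have hlow : ‖riemannZeta s‖ * ((π : ℝ)⁻¹ * c * Real.exp (-(3 / 2)) *
      (1 + t / 2) ^ (a / 2 - 1 / 4)) ≤ ‖xi T a t‖ := by
    rw [hxi, hL]
    calc ‖riemannZeta s‖ * ((π : ℝ)⁻¹ * c * Real.exp (-(3 / 2)) * (1 + t / 2) ^ (a / 2 - 1 / 4))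
        = Real.exp (π * t / 4 - 3 / 2) * (‖riemannZeta s‖ *
          ((π : ℝ)⁻¹ * (c * (1 + t / 2) ^ (a / 2 - 1 / 4) * Real.exp (-(π * t / 4))))) := by
          have : Real.exp (π * t / 4 - 3 / 2) * Real.exp (-(π * t / 4)) = Real.exp (-(3 / 2)) := by
            rw [← Real.exp_add]; congr 1; ring
          rw [← this]; ring
      _ ≤ Real.exp (ang T * t / 2) * (‖riemannZeta s‖ * ‖Complex.Gammaℝ s‖) := by
          apply mul_le_mul hexp _ (by positivity) (Real.exp_pos _).le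
          exact mul_le_mul_of_nonneg_left hg (norm_nonneg _)
  -- upper bound for the power
  have hpow : (1 + t / 2) ^ (1 / 4 - a / 2) ≤ 3 * T ^ (1 / 4 + |a| / 2) := by
    have h1 : (1 + t / 2) ^ (1 / 4 - a / 2) ≤ (3 * T) ^ (1 / 4 - a / 2) := by
      apply Real.rpow_le_rpow (by positivity) (by linarith) (by linarith)
    have h2 : (3 * T) ^ (1 / 4 - a / 2) ≤ (3 * T) ^ (1 / 4 + |a| / 2) := by
      apply Real.rpow_le_rpow_of_exponent_le (by linarith)
      have := neg_abs_le a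
      linarith
    have h3 : (3 * T) ^ (1 / 4 + |a| / 2) = 3 ^ (1 / 4 + |a| / 2) * T ^ (1 / 4 + |a| / 2) :=
      Real.mul_rpow (by norm_num) hT0.le
    have h4 : (3 : ℝ) ^ (1 / 4 + |a| / 2) ≤ 3 := by
      calc (3 : ℝ) ^ (1 / 4 + |a| / 2) ≤ 3 ^ (1 : ℝ) := by
            apply Real.rpow_le_rpow_of_exponent_le (by norm_num)
            linarith
        _ = 3 := Real.rpow_one _
    calc (1 + t / 2) ^ (1 / 4 - a / 2) ≤ (3 * T) ^ (1 / 4 + |a| / 2) := h1.trans h2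
      _ = 3 ^ (1 / 4 + |a| / 2) * T ^ (1 / 4 + |a| / 2) := h3
      _ ≤ 3 * T ^ (1 / 4 + |a| / 2) := mul_le_mul_of_nonneg_right h4 (by positivity)
  have hinv : (1 + t / 2) ^ (a / 2 - 1 / 4) * (1 + t / 2) ^ (1 / 4 - a / 2) = 1 := by
    rw [← Real.rpow_add (by positivity)]
    have : a / 2 - 1 / 4 + (1 / 4 - a / 2) = 0 := by ring
    rw [this, Real.rpow_zero]
  have hxi0 : 0 ≤ ‖xi T a t‖ := norm_nonneg _
  have hT14 : 0 < T ^ (1 / 4 + |a| / 2) := by positivity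
  have hee : Real.exp (-(3 / 2)) * Real.exp (3 / 2) = 1 := by
    rw [← Real.exp_add]; norm_num
  calc ‖riemannZeta s‖ = (‖riemannZeta s‖ * ((π : ℝ)⁻¹ * c * Real.exp (-(3 / 2)) *
      (1 + t / 2) ^ (a / 2 - 1 / 4))) * ((π * Real.exp (3 / 2) / c) *
        (1 + t / 2) ^ (1 / 4 - a / 2)) := by
        have hpi0 : (π : ℝ)⁻¹ * π = 1 := inv_mul_cancel₀ Real.pi_pos.ne'
        have hcc : c / c = 1 := div_self hc.ne'
        calc ‖riemannZeta s‖ = ‖riemannZeta s‖ * (((π : ℝ)⁻¹ * π) * (c / c) *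
              (Real.exp (-(3 / 2)) * Real.exp (3 / 2)) *
              ((1 + t / 2) ^ (a / 2 - 1 / 4) * (1 + t / 2) ^ (1 / 4 - a / 2))) := by
              rw [hpi0, hcc, hee, hinv]; ring
          _ = _ := by ring
    _ ≤ ‖xi T a t‖ * ((π * Real.exp (3 / 2) / c) * (3 * T ^ (1 / 4 + |a| / 2))) := by
        apply mul_le_mul hlow _ (by positivity) hxi0
        exact mul_le_mul_of_nonneg_left hpow (by positivity)
    _ = (3 * π * Real.exp (3 / 2) / c) * T ^ (1 / 4 + |a| / 2) * ‖xi T a t‖ := by ring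
    _ ≤ max 1 (3 * π * Real.exp (3 / 2) / c) * T ^ (1 / 4 + |a| / 2) * ‖xi T a t‖ := by
        apply mul_le_mul_of_nonneg_right _ hxi0
        exact mul_le_mul_of_nonneg_right (le_max_right _ _) hT14.le

end Pool.Agent.GH
end
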