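import Pool.Agent.Lib.MP_69b2e4_nt.Mg.G041
import Pool.Agent.Lib.MP_69b2e4_nt.Mg.G038
import Pool.Agent.Lib.MP_69b2e4_nt.Mg.G040
import Pool.Agent.Lib.MP_69b2e4_nt.GH.OffSum
import Pool.Agent.Lib.MP_69b2e4_nt.Mg.G043

section

/-! TASK DG2. The diagonal on a bounded range.
Proof. `M = Mof θ T`, `log M ≥ θ log T`. Substitute `u = ρ r x`: `∫_1^{T²} e^{-2π(ρ r x)² s} dx = (1/(ρr)) ∫_{ρr}^{ρrT²} e^{-2πu² s} du`; sum over `r`:
`= (1/ρ) ∫_{u>0} e^{-2πu² s} ∑_{r rough, u/(ρT²) ≤ r ≤ u/ρ} 1/r du`, and by `rough_window` the inner sum is at most `1 + C(2 log T + 2)/(θ log T) ≤ C/θ`.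
`∫_0^∞ e^{-2πu² s} du = (1/2)(2s)^{-1/2} ≤ T^{1/2}` (`s ≥ 1/(2T)`). -/

set_option autoImplicit false

namespace Pool.Agent.GH

open Complex MeasureTheory Finset
open scoped Real ComplexConjugate

private theorem DG2_scale {c : ℝ} (hc : 0 < c) (g : ℝ → ENNReal) (hg : Measurable g) :
    ∫⁻ x, g (c * x) = ENNReal.ofReal c⁻¹ * ∫⁻ u, g u := by
  have h1 : ∫⁻ x, g (c * x) = ∫⁻ u, g u ∂(Measure.map (fun x => c * x) volume) := by
    rw [lintegral_map hg (measurable_const_mul c)]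
  rw [h1, Real.map_volume_mul_left hc.ne', lintegral_smul_measure, abs_of_pos (inv_pos.mpr hc)]
  rfl

open Classical in
theorem dg2 : ∃ C : ℝ, 1 ≤ C ∧ ∀ θ : ℝ, 0 < θ → θ ≤ 1 / 10 → ∃ T0 : ℝ, 1 ≤ T0 ∧
    ∀ T ρ : ℝ, T0 ≤ T → 0 < ρ →
    ∑' r : ℕ, (if Rough (Mof θ T) r then ∫⁻ x in Set.Ioc (1 : ℝ) (T ^ 2), ENNReal.ofReal
      (Real.exp (-2 * π * (ρ * r * x) ^ 2 * Real.sin (1 / T))) else 0) ≤
    ENNReal.ofReal (C * T ^ (1 / 2 : ℝ) / (θ * ρ)) := by
  obtain ⟨C, hC1, hC⟩ := rough_window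
  refine ⟨1 + 4 * C, by linarith, fun θ hθ hθ1 => ⟨Real.exp 1, Real.one_le_exp (by norm_num), ?_⟩⟩
  intro T ρ hT hρ
  have hT1 : 1 ≤ T := le_trans (Real.one_le_exp (by norm_num)) hT
  have hT0 : 0 < T := by linarith
  have hlogT : 1 ≤ Real.log T := by
    rw [Real.le_log_iff_exp_le hT0]; exact hT
  obtain ⟨hs1, hs2, -⟩ := sin_bounds hT1
  set s := Real.sin (1 / T) with hs
  have hspos : 0 < s := lt_of_lt_of_le (by positivity) hs1
  set M := Mof θ T with hM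
  have hTθ : 1 ≤ T ^ θ := Real.one_le_rpow hT1 hθ.le
  have hM2 : 2 ≤ M := by
    rw [hM, Mof]
    have : 1 ≤ ⌊T ^ θ⌋₊ := by
      rw [Nat.one_le_floor_iff]; exact hTθ
    omega
  have hMge : T ^ θ ≤ (M : ℝ) := by
    rw [hM, Mof]; push_cast
    exact (Nat.lt_floor_add_one _).le
  have hlogM : θ * Real.log T ≤ Real.log M := by
    rw [← Real.log_rpow hT0]
    exact Real.log_le_log (by positivity) hMge
  have hlogMpos : 0 < Real.log M := lt_of_lt_of_le (by positivity) hlogM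
  -- the function
  set f : ℝ → ENNReal := fun u => ENNReal.ofReal (Real.exp (-2 * π * u ^ 2 * s)) with hf
  have hfm : Measurable f := by
    rw [hf]; fun_prop
  set K : ℝ := (1 / ρ) * (1 + C * (2 * Real.log T + 2) / Real.log M) with hK
  have hK0 : 0 ≤ K := by
    rw [hK]
    have : 0 ≤ C := by linarith
    positivity
  -- each term
  have hterm : ∀ r : ℕ, (if Rough M r then ∫⁻ x in Set.Ioc (1 : ℝ) (T ^ 2), ENNReal.ofReal
      (Real.exp (-2 * π * (ρ * r * x) ^ 2 * s)) else 0) =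
      ∫⁻ u, (if Rough M r ∧ u ∈ Set.Ioc (ρ * r) (ρ * r * T ^ 2) then
        ENNReal.ofReal (1 / (ρ * r)) else 0) * f u := by
    intro r
    by_cases hr : Rough M r
    · have hr0 : 0 < (r : ℝ) := by
        have := hr.1
        exact_mod_cast Nat.pos_of_ne_zero this
      have hc : 0 < ρ * r := by positivity
      rw [if_pos hr]
      have e1 : ∫⁻ x in Set.Ioc (1 : ℝ) (T ^ 2), ENNReal.ofReal
          (Real.exp (-2 * π * (ρ * r * x) ^ 2 * s)) =
          ∫⁻ x, (Set.Ioc (ρ * r) (ρ * r * T ^ 2)).indicator f (ρ * r * x) := by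
        rw [← lintegral_indicator measurableSet_Ioc]
        refine lintegral_congr fun x => ?_
        have hiff : x ∈ Set.Ioc (1 : ℝ) (T ^ 2) ↔ ρ * r * x ∈ Set.Ioc (ρ * r) (ρ * r * T ^ 2) := by
          simp only [Set.mem_Ioc]
          constructor
          · rintro ⟨h1, h2⟩
            exact ⟨by nlinarith, by nlinarith⟩
          · rintro ⟨h1, h2⟩
            refine ⟨?_, ?_⟩
            · by_contra hcon
              push Not at hcon
              nlinarith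
            · exact le_of_mul_le_mul_left h2 hc
        by_cases hx : x ∈ Set.Ioc (1 : ℝ) (T ^ 2)
        · rw [Set.indicator_of_mem hx, Set.indicator_of_mem (hiff.mp hx)]
        · rw [Set.indicator_of_notMem hx, Set.indicator_of_notMem (fun h => hx (hiff.mpr h))]
      rw [e1, DG2_scale hc _ (hfm.indicator measurableSet_Ioc), ← lintegral_const_mul]
      · refine lintegral_congr fun u => ?_
        by_cases hu : u ∈ Set.Ioc (ρ * r) (ρ * r * T ^ 2)
        · rw [Set.indicator_of_mem hu, if_pos ⟨hr, hu⟩, one_div]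
        · rw [Set.indicator_of_notMem hu, if_neg (fun h => hu h.2)]; simp
      · exact hfm.indicator measurableSet_Ioc
    · rw [if_neg hr]
      simp [hr]
  rw [tsum_congr hterm, ← lintegral_tsum]
  swap
  · intro r
    refine Measurable.aemeasurable (Measurable.mul ?_ hfm)
    by_cases hr : Rough M r
    · simp only [hr, true_and]
      exact Measurable.ite measurableSet_Ioc measurable_const measurable_const
    · simp [hr]
  -- pointwise bound
  have hpt : ∀ u : ℝ, ∑' r : ℕ, (if Rough M r ∧ u ∈ Set.Ioc (ρ * r) (ρ * r * T ^ 2) then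
        ENNReal.ofReal (1 / (ρ * r)) else 0) * f u ≤
        (Set.Ioi (0:ℝ)).indicator (fun u => ENNReal.ofReal K * f u) u := by
    intro u
    rw [ENNReal.tsum_mul_right]
    by_cases hu : 0 < u
    · rw [Set.indicator_of_mem (show u ∈ Set.Ioi (0:ℝ) from hu)]
      refine mul_le_mul_left ?_ _
      refine ENNReal.summable.tsum_le_of_sum_le ?_
      intro F
      rw [← Finset.sum_filter, ← ENNReal.ofReal_sum_of_nonneg]
      · refine ENNReal.ofReal_le_ofReal ?_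
        have h1 : ∑ r ∈ F with Rough M r ∧ u ∈ Set.Ioc (ρ * r) (ρ * r * T ^ 2), 1 / (ρ * (r:ℝ)) =
            (1 / ρ) * ∑ r ∈ F with Rough M r ∧ u ∈ Set.Ioc (ρ * r) (ρ * r * T ^ 2), 1 / (r:ℝ) := by
          rw [Finset.mul_sum]
          refine Finset.sum_congr rfl fun r _ => ?_
          rw [one_div_mul_one_div]
        rw [h1, hK]
        refine mul_le_mul_of_nonneg_left ?_ (by positivity)
        have h2 := hC M (u / (ρ * T ^ 2)) (u / ρ)
          (F.filter fun r => Rough M r ∧ u ∈ Set.Ioc (ρ * r) (ρ * r * T ^ 2)) hM2 (by positivity) ?_ ?_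
        · refine h2.trans_eq ?_
          have : u / ρ / (u / (ρ * T ^ 2)) = T ^ 2 := by
            field_simp
          rw [this, Real.log_pow]
          push_cast
          ring
        · refine div_le_div_of_nonneg_left hu.le hρ ?_
          nlinarith [one_le_pow₀ hT1 (n := 2)]
        · intro r hr
          rw [Finset.mem_filter] at hr
          obtain ⟨-, hr, h3, h4⟩ := hr
          refine ⟨?_, ?_, hr⟩
          · rw [div_le_iff₀ (by positivity)]
            linarith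
          · rw [le_div_iff₀ hρ]
            linarith
      · intro r _
        positivity
    · rw [Set.indicator_of_notMem (by simpa using hu)]
      have : ∑' r : ℕ, (if Rough M r ∧ u ∈ Set.Ioc (ρ * r) (ρ * r * T ^ 2) then
        ENNReal.ofReal (1 / (ρ * r)) else 0) = 0 := by
        rw [ENNReal.tsum_eq_zero]
        intro r
        rw [if_neg]
        rintro ⟨hr, h1, -⟩
        have : 0 ≤ ρ * (r:ℝ) := by positivity
        linarith
      rw [this]; simp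
  refine (lintegral_mono hpt).trans ?_
  rw [lintegral_indicator measurableSet_Ioi, lintegral_const_mul _ hfm]
  have hgauss : ∫⁻ u in Set.Ioi (0:ℝ), f u = ENNReal.ofReal (√(π / (2 * π * s)) / 2) := by
    rw [← integral_gaussian_Ioi]
    have hint : Integrable (fun x : ℝ => Real.exp (-(2 * π * s) * x ^ 2)) :=
      integrable_exp_neg_mul_sq (by positivity)
    rw [ofReal_integral_eq_lintegral_ofReal hint.integrableOn
      (Filter.Eventually.of_forall fun x => (Real.exp_pos _).le)]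
    refine lintegral_congr fun u => ?_
    have : -2 * π * u ^ 2 * s = -(2 * π * s) * u ^ 2 := by ring
    rw [hf]
    simp only [this]
  rw [hgauss, ← ENNReal.ofReal_mul hK0]
  refine ENNReal.ofReal_le_ofReal ?_
  -- final estimate
  have hsq : √(π / (2 * π * s)) / 2 ≤ T ^ (1 / 2 : ℝ) := by
    have h1 : π / (2 * π * s) ≤ T := by
      have : π / (2 * π * s) = 1 / (2 * s) := by
        field_simp
      rw [this, div_le_iff₀ (by positivity)]
      rw [div_le_iff₀ (by positivity)] at hs1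
      linarith
    have h2 : √(π / (2 * π * s)) ≤ √T := Real.sqrt_le_sqrt h1
    rw [← Real.sqrt_eq_rpow]
    have : 0 ≤ √(π / (2 * π * s)) := Real.sqrt_nonneg _
    linarith
  have hKle : K ≤ (1 + 4 * C) / (θ * ρ) := by
    rw [hK]
    have h1 : C * (2 * Real.log T + 2) / Real.log M ≤ 4 * C / θ := by
      rw [div_le_div_iff₀ hlogMpos hθ]
      have h3 : C * (2 * Real.log T + 2) ≤ 4 * C * Real.log T := by nlinarith
      calc C * (2 * Real.log T + 2) * θ ≤ 4 * C * Real.log T * θ := by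
            exact mul_le_mul_of_nonneg_right h3 hθ.le
        _ = 4 * C * (θ * Real.log T) := by ring
        _ ≤ 4 * C * Real.log M := by
            refine mul_le_mul_of_nonneg_left hlogM (by linarith)
    have h2 : (1:ℝ) ≤ 1 / θ := by
      rw [le_div_iff₀ hθ]; linarith
    calc 1 / ρ * (1 + C * (2 * Real.log T + 2) / Real.log M) ≤ 1 / ρ * (1 / θ + 4 * C / θ) := by
          refine mul_le_mul_of_nonneg_left (by linarith) (by positivity)
      _ = (1 + 4 * C) / (θ * ρ) := by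
          field_simp
  calc K * (√(π / (2 * π * s)) / 2) ≤ (1 + 4 * C) / (θ * ρ) * T ^ (1 / 2 : ℝ) :=
        mul_le_mul hKle hsq (by positivity) (hK0.trans hKle)
    _ = (1 + 4 * C) * T ^ (1 / 2 : ℝ) / (θ * ρ) := by ring

end Pool.Agent.GH
end

section

/-! TASK Off. The mean square of the theta series: diagonal plus a small error.
Proof. Let `T0` be that of `off_sum`. For a finite set `K` of pairs `k = (ρ, r)` with `Rough M r` and `cs ρ ≠ 0` (`u_k = ρ r > 0`, pairwise different by `cs_inj`), put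
`S_K(x) = ∑_{k∈K} cs(ρ) exp(-π u_k² x² om)`. Expanding the square and integrating over `[1,X]`: the diagonal terms give
`∑_{k∈K} ‖cs ρ‖² ∫_1^X exp(-2π u_k² x² sin(1/T)) dx`, and for `k ≠ k'` the integral of `exp(-π u_k² x² om - π u_{k'}² x² conj om) = exp(-(c+di)x²)` with
`c = π(u_k²+u_{k'}²) sin(1/T)`, `d = π(u_k²-u_{k'}²) cos(1/T) ≠ 0` is at most `2 e^{-c}/|d|` in norm (`osc`). So
`∫_1^X ‖S_K‖² ≤ (diagonal sum over all k) + T^{1/10}` by `off_sum`. As `K` grows, `S_K → SS T F w` uniformly on `[1,X]` (`hasSum_SS`: the tail is bounded by the tail of the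
summable family at `x = 1`, since the exponential is decreasing in `x`); hence the integrals converge (bounded interval) and the inequality passes to the limit
(or Fatou's lemma along an exhausting sequence of finite sets). -/

set_option autoImplicit false

namespace Pool.Agent.GH

open Complex MeasureTheory Finset
open scoped Real ComplexConjugate

private theorem Off_om (T : ℝ) : om T = (Real.sin (1 / T) : ℝ) + (Real.cos (1 / T) : ℝ) * I := by
  unfold om ang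
  rw [Complex.exp_mul_I, ← Complex.ofReal_cos, ← Complex.ofReal_sin, Real.cos_pi_div_two_sub,
    Real.sin_pi_div_two_sub]

private theorem Off_norm (T r : ℝ) :
    ‖cexp (-π * ((r : ℝ) : ℂ) * om T)‖ = Real.exp (-π * r * Real.sin (1 / T)) := by
  rw [Complex.norm_exp, Off_om]
  congr 1
  have h : -(π : ℂ) * ((r : ℝ) : ℂ) * (((Real.sin (1 / T) : ℝ) : ℂ) +
      ((Real.cos (1 / T) : ℝ) : ℂ) * I) =
      ((-π * r * Real.sin (1 / T) : ℝ) : ℂ) + ((-π * r * Real.cos (1 / T) : ℝ) : ℂ) * I := by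
    push_cast; ring
  rw [h]
  simp only [Complex.add_re, Complex.ofReal_re, Complex.mul_re, Complex.I_re, Complex.ofReal_im,
    Complex.I_im]
  ring

private theorem Off_prod (T u u' x : ℝ) :
    cexp (-π * ((u * x) ^ 2 : ℝ) * om T) * conj (cexp (-π * ((u' * x) ^ 2 : ℝ) * om T)) =
    cexp (-(((π * (u ^ 2 + u' ^ 2) * Real.sin (1 / T) : ℝ) : ℂ) +
      ((π * (u ^ 2 - u' ^ 2) * Real.cos (1 / T) : ℝ) : ℂ) * I) * (x ^ 2 : ℝ)) := by
  rw [← Complex.exp_conj, ← Complex.exp_add, Off_om]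
  congr 1
  simp only [map_mul, map_neg, map_add, Complex.conj_ofReal, Complex.conj_I]
  push_cast
  ring

open Classical in
private noncomputable def Off_a (M : ℕ) (F : Finset (ℕ × ℕ)) (w : ℕ × ℕ → ℂ) (k : ℚ × ℕ) : ℂ :=
  if Rough M k.2 then cs M F w k.1 else 0

private noncomputable def Off_u (k : ℚ × ℕ) : ℝ := (k.1 : ℝ) * k.2

private noncomputable def Off_f (T : ℝ) (M : ℕ) (F : Finset (ℕ × ℕ)) (w : ℕ × ℕ → ℂ) (k : ℚ × ℕ)
    (x : ℝ) : ℂ :=
  Off_a M F w k * cexp (-π * ((Off_u k * x) ^ 2 : ℝ) * om T)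

private theorem Off_cont (T : ℝ) (M : ℕ) (F : Finset (ℕ × ℕ)) (w : ℕ × ℕ → ℂ) (k : ℚ × ℕ) :
    Continuous (Off_f T M F w k) := by
  unfold Off_f
  fun_prop

/-- the off-diagonal term -/
private theorem Off_term {T : ℝ} (hT : 1 ≤ T) {M : ℕ} {F : Finset (ℕ × ℕ)} {w : ℕ × ℕ → ℂ} {X : ℝ}
    (hX : 1 ≤ X)
    (hF : ∀ q ∈ F, q.1 ∈ Nat.smoothNumbers M ∧ q.2 ∈ Nat.smoothNumbers M) {k k' : ℚ × ℕ}
    (hk : k ≠ k') (ha : Off_a M F w k ≠ 0) (ha' : Off_a M F w k' ≠ 0) :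
    (Rough M k.2 ∧ Rough M k'.2 ∧ k.1 * k.2 ≠ k'.1 * k'.2) ∧
    ‖∫ x in (1 : ℝ)..X, Off_f T M F w k x * conj (Off_f T M F w k' x)‖ ≤
      ‖cs M F w k.1‖ * ‖cs M F w k'.1‖ *
        (2 * Real.exp (-π * (((k.1 : ℝ) * k.2) ^ 2 + ((k'.1 : ℝ) * k'.2) ^ 2) * Real.sin (1 / T)) /
          (π * |((k.1 : ℝ) * k.2) ^ 2 - ((k'.1 : ℝ) * k'.2) ^ 2| * Real.cos (1 / T))) := by
  have hr : Rough M k.2 := by
    by_contra h; exact ha (by simp [Off_a, h])
  have hr' : Rough M k'.2 := by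
    by_contra h; exact ha' (by simp [Off_a, h])
  have hae : Off_a M F w k = cs M F w k.1 := by simp [Off_a, hr]
  have hae' : Off_a M F w k' = cs M F w k'.1 := by simp [Off_a, hr']
  rw [hae] at ha
  rw [hae'] at ha'
  have hne : k.1 * k.2 ≠ k'.1 * k'.2 := by
    intro he
    obtain ⟨h1, h2⟩ := cs_inj hF ha ha' hr hr' he
    exact hk (Prod.ext h1 h2)
  refine ⟨⟨hr, hr', hne⟩, ?_⟩
  have hpos : (0 : ℝ) < (k.1 : ℝ) * k.2 := by
    have h1 := (cs_pos hF ha).1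
    have h2 : 0 < k.2 := Nat.pos_of_ne_zero hr.1
    have h3 : (0 : ℝ) < (k.1 : ℝ) := by exact_mod_cast h1
    have h4 : (0 : ℝ) < (k.2 : ℝ) := by exact_mod_cast h2
    positivity
  have hpos' : (0 : ℝ) < (k'.1 : ℝ) * k'.2 := by
    have h1 := (cs_pos hF ha').1
    have h2 : 0 < k'.2 := Nat.pos_of_ne_zero hr'.1
    have h3 : (0 : ℝ) < (k'.1 : ℝ) := by exact_mod_cast h1
    have h4 : (0 : ℝ) < (k'.2 : ℝ) := by exact_mod_cast h2
    positivity
  have hne' : (k.1 : ℝ) * k.2 ≠ (k'.1 : ℝ) * k'.2 := by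
    intro h; exact hne (by exact_mod_cast h)
  have hsq : ((k.1 : ℝ) * k.2) ^ 2 - ((k'.1 : ℝ) * k'.2) ^ 2 ≠ 0 := by
    intro h
    apply hne'
    have : ((k.1 : ℝ) * k.2) ^ 2 = ((k'.1 : ℝ) * k'.2) ^ 2 := by linarith
    exact (pow_left_inj₀ hpos.le hpos'.le two_ne_zero).mp this
  have hT0 : 0 < T := by linarith
  have h1T : 0 < 1 / T := by positivity
  have h1T1 : 1 / T ≤ 1 := by rw [div_le_one hT0]; exact hT
  have hpi := Real.pi_gt_three
  have hcos : 0 < Real.cos (1 / T) := Real.cos_pos_of_mem_Ioo ⟨by linarith, by linarith⟩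
  have hsin : 0 ≤ Real.sin (1 / T) := Real.sin_nonneg_of_nonneg_of_le_pi h1T.le (by linarith)
  have hint : ∀ x : ℝ, Off_f T M F w k x * conj (Off_f T M F w k' x) =
      (cs M F w k.1 * conj (cs M F w k'.1)) *
        cexp (-(((π * (((k.1 : ℝ) * k.2) ^ 2 + ((k'.1 : ℝ) * k'.2) ^ 2) * Real.sin (1 / T) : ℝ) : ℂ) +
      ((π * (((k.1 : ℝ) * k.2) ^ 2 - ((k'.1 : ℝ) * k'.2) ^ 2) * Real.cos (1 / T) : ℝ) : ℂ) * I) *
        (x ^ 2 : ℝ)) := by
    intro x
    rw [← Off_prod T ((k.1 : ℝ) * k.2) ((k'.1 : ℝ) * k'.2) x]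
    unfold Off_f Off_u
    rw [hae, hae', map_mul]
    ring
  simp_rw [hint]
  rw [intervalIntegral.integral_const_mul, norm_mul, norm_mul, RCLike.norm_conj]
  refine mul_le_mul_of_nonneg_left ?_ (by positivity)
  have h := osc (c := π * (((k.1 : ℝ) * k.2) ^ 2 + ((k'.1 : ℝ) * k'.2) ^ 2) * Real.sin (1 / T))
    (d := π * (((k.1 : ℝ) * k.2) ^ 2 - ((k'.1 : ℝ) * k'.2) ^ 2) * Real.cos (1 / T)) (X := X)
    (by positivity) (by
      refine mul_ne_zero (mul_ne_zero Real.pi_ne_zero hsq) hcos.ne') hX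
  refine h.trans (le_of_eq ?_)
  rw [abs_mul, abs_mul, abs_of_pos Real.pi_pos, abs_of_pos hcos]
  congr 3
  ring

open Classical in
theorem off_diag : ∃ T0 : ℝ, 1 ≤ T0 ∧ ∀ (T : ℝ) (M : ℕ) (F : Finset (ℕ × ℕ)) (w : ℕ × ℕ → ℂ) (X : ℝ),
    T0 ≤ T → 1 ≤ X → (∀ q ∈ F, q.1 ∈ Nat.smoothNumbers M ∧ q.2 ∈ Nat.smoothNumbers M) →
    (∀ q ∈ F, (q.1 : ℝ) ≤ T ^ (1 / 100 : ℝ) ∧ (q.2 : ℝ) ≤ T ^ (1 / 100 : ℝ)) →
    ∑ q ∈ F, ‖w q‖ ≤ T ^ (1 / 100 : ℝ) →
    ∫⁻ x in Set.Ioc 1 X, ENNReal.ofReal (‖SS T F w x‖ ^ 2) ≤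
      (∑' k : ℚ × ℕ, if Rough M k.2 then ENNReal.ofReal (‖cs M F w k.1‖ ^ 2) *
        ∫⁻ x in Set.Ioc 1 X, ENNReal.ofReal
          (Real.exp (-2 * π * ((k.1 : ℝ) * k.2 * x) ^ 2 * Real.sin (1 / T))) else 0) +
      ENNReal.ofReal (T ^ (1 / 10 : ℝ)) := by
  obtain ⟨T0, hT0, hoff⟩ := off_sum
  refine ⟨T0, hT0, fun T M F w X hT hX hF hQ hl => ?_⟩
  have hT1 : 1 ≤ T := hT0.trans hT
  have hoff' := hoff T M F w hT hF hQ hl
  set off : ℚ × ℕ → ℚ × ℕ → ENNReal := fun k k' =>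
    (if Rough M k.2 ∧ Rough M k'.2 ∧ k.1 * k.2 ≠ k'.1 * k'.2 then
      ENNReal.ofReal (‖cs M F w k.1‖ * ‖cs M F w k'.1‖ *
        (2 * Real.exp (-π * (((k.1 : ℝ) * k.2) ^ 2 + ((k'.1 : ℝ) * k'.2) ^ 2) * Real.sin (1 / T)) /
          (π * |((k.1 : ℝ) * k.2) ^ 2 - ((k'.1 : ℝ) * k'.2) ^ 2| * Real.cos (1 / T)))) else 0)
    with hoffdef
  set dg : ℚ × ℕ → ENNReal := fun k => if Rough M k.2 then ENNReal.ofReal (‖cs M F w k.1‖ ^ 2) *
        ∫⁻ x in Set.Ioc 1 X, ENNReal.ofReal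
          (Real.exp (-2 * π * ((k.1 : ℝ) * k.2 * x) ^ 2 * Real.sin (1 / T))) else 0 with hdg
  have hterm : ∀ k k' : ℚ × ℕ,
      ENNReal.ofReal ‖∫ x in (1 : ℝ)..X, Off_f T M F w k x * conj (Off_f T M F w k' x)‖ ≤
        (if k = k' then dg k else 0) + off k k' := by
    intro k k'
    by_cases hkk : k = k'
    · subst hkk
      refine le_trans ?_ le_self_add
      rw [if_pos rfl]
      rw [intervalIntegral.integral_of_le hX]
      have h1 : ENNReal.ofReal ‖∫ x in Set.Ioc 1 X, Off_f T M F w k x * conj (Off_f T M F w k x)‖ ≤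
          ∫⁻ x in Set.Ioc 1 X, ‖Off_f T M F w k x * conj (Off_f T M F w k x)‖ₑ := by
        rw [ofReal_norm]
        exact enorm_integral_le_lintegral_enorm _
      refine h1.trans ?_
      by_cases hr : Rough M k.2
      · rw [hdg]
        simp only [if_pos hr]
        rw [← lintegral_const_mul' _ _ ENNReal.ofReal_ne_top]
        refine lintegral_mono fun x => ?_
        rw [← ENNReal.ofReal_mul (by positivity), ← ofReal_norm]
        refine ENNReal.ofReal_le_ofReal (le_of_eq ?_)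
        rw [norm_mul, RCLike.norm_conj]
        unfold Off_f Off_u
        rw [norm_mul, Off_norm]
        have hae : Off_a M F w k = cs M F w k.1 := by simp [Off_a, hr]
        rw [hae]
        have : Real.exp (-2 * π * ((k.1 : ℝ) * k.2 * x) ^ 2 * Real.sin (1 / T)) =
            Real.exp (-π * ((k.1 : ℝ) * k.2 * x) ^ 2 * Real.sin (1 / T)) *
            Real.exp (-π * ((k.1 : ℝ) * k.2 * x) ^ 2 * Real.sin (1 / T)) := by
          rw [← Real.exp_add]; congr 1; ring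
        rw [this]; ring
      · have : ∀ x, Off_f T M F w k x = 0 := by intro x; simp [Off_f, Off_a, hr]
        simp [this]
    · rw [if_neg hkk, zero_add]
      by_cases ha : Off_a M F w k = 0
      · have : ∀ x, Off_f T M F w k x = 0 := by intro x; simp [Off_f, ha]
        simp [this]
      by_cases ha' : Off_a M F w k' = 0
      · have : ∀ x, Off_f T M F w k' x = 0 := by intro x; simp [Off_f, ha']
        simp [this]
      obtain ⟨h1, h2⟩ := Off_term hT1 hX hF hkk ha ha'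
      rw [hoffdef]
      simp only [if_pos h1]
      exact ENNReal.ofReal_le_ofReal h2
  -- finite sums
  have hfin : ∀ K : Finset (ℚ × ℕ),
      ∫⁻ x in Set.Ioc 1 X, ENNReal.ofReal (‖∑ k ∈ K, Off_f T M F w k x‖ ^ 2) ≤
        (∑' k, dg k) + ENNReal.ofReal (T ^ (1 / 10 : ℝ)) := by
    intro K
    have hcont : Continuous fun x => ∑ k ∈ K, Off_f T M F w k x :=
      continuous_finsetSum _ fun k _ => Off_cont T M F w k
    have hintg : IntegrableOn (fun x => ‖∑ k ∈ K, Off_f T M F w k x‖ ^ 2) (Set.Ioc 1 X) := by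
      have : IntegrableOn (fun x => ‖∑ k ∈ K, Off_f T M F w k x‖ ^ 2) (Set.Icc 1 X) :=
        (hcont.norm.pow 2).continuousOn.integrableOn_Icc
      exact this.mono_set Set.Ioc_subset_Icc_self
    have hexp : ∀ x, ((‖∑ k ∈ K, Off_f T M F w k x‖ ^ 2 : ℝ) : ℂ) =
        ∑ k ∈ K, ∑ k' ∈ K, Off_f T M F w k x * conj (Off_f T M F w k' x) := by
      intro x
      rw [← Complex.normSq_eq_norm_sq, ← Complex.mul_conj, map_sum, Finset.sum_mul_sum]
    have hI : ∫ x in Set.Ioc 1 X, ‖∑ k ∈ K, Off_f T M F w k x‖ ^ 2 ≤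
        ∑ k ∈ K, ∑ k' ∈ K, ‖∫ x in (1 : ℝ)..X, Off_f T M F w k x * conj (Off_f T M F w k' x)‖ := by
      have h1 : ((∫ x in Set.Ioc 1 X, ‖∑ k ∈ K, Off_f T M F w k x‖ ^ 2 : ℝ) : ℂ) =
          ∑ k ∈ K, ∑ k' ∈ K, ∫ x in (1 : ℝ)..X, Off_f T M F w k x * conj (Off_f T M F w k' x) := by
        rw [← integral_complex_ofReal]
        simp_rw [hexp]
        rw [← intervalIntegral.integral_of_le hX]
        have hii : ∀ k k', IntervalIntegrable (fun x => Off_f T M F w k x * conj (Off_f T M F w k' x))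
            volume 1 X := by
          intro k k'
          apply Continuous.intervalIntegrable
          exact (Off_cont T M F w k).mul (Complex.continuous_conj.comp (Off_cont T M F w k'))
        rw [intervalIntegral.integral_finsetSum]
        · refine Finset.sum_congr rfl fun k _ => ?_
          rw [intervalIntegral.integral_finsetSum]
          intro k' _
          exact hii k k'
        · intro k _
          have : (fun x => ∑ k' ∈ K, Off_f T M F w k x * conj (Off_f T M F w k' x)) =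
              ∑ k' ∈ K, fun x => Off_f T M F w k x * conj (Off_f T M F w k' x) := by
            funext x; simp
          apply Continuous.intervalIntegrable
          exact continuous_finsetSum _ fun k' _ =>
            (Off_cont T M F w k).mul (Complex.continuous_conj.comp (Off_cont T M F w k'))
      have h2 : 0 ≤ ∫ x in Set.Ioc 1 X, ‖∑ k ∈ K, Off_f T M F w k x‖ ^ 2 :=
        integral_nonneg fun x => by positivity
      have h3 : ∫ x in Set.Ioc 1 X, ‖∑ k ∈ K, Off_f T M F w k x‖ ^ 2 =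
          ‖((∫ x in Set.Ioc 1 X, ‖∑ k ∈ K, Off_f T M F w k x‖ ^ 2 : ℝ) : ℂ)‖ := by
        rw [Complex.norm_real, Real.norm_of_nonneg h2]
      rw [h3, h1]
      refine (norm_sum_le _ _).trans (Finset.sum_le_sum fun k _ => norm_sum_le _ _)
    have hle : ∫⁻ x in Set.Ioc 1 X, ENNReal.ofReal (‖∑ k ∈ K, Off_f T M F w k x‖ ^ 2) =
        ENNReal.ofReal (∫ x in Set.Ioc 1 X, ‖∑ k ∈ K, Off_f T M F w k x‖ ^ 2) := by
      rw [ofReal_integral_eq_lintegral_ofReal hintg (Filter.Eventually.of_forall fun x => by positivity)]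
    rw [hle]
    refine (ENNReal.ofReal_le_ofReal hI).trans ?_
    rw [ENNReal.ofReal_sum_of_nonneg (fun k _ => Finset.sum_nonneg fun k' _ => norm_nonneg _)]
    have h4 : ∀ k ∈ K, ENNReal.ofReal (∑ k' ∈ K,
        ‖∫ x in (1 : ℝ)..X, Off_f T M F w k x * conj (Off_f T M F w k' x)‖) ≤
        dg k + ∑ k' ∈ K, off k k' := by
      intro k hk
      rw [ENNReal.ofReal_sum_of_nonneg (fun k' _ => norm_nonneg _)]
      refine (Finset.sum_le_sum fun k' _ => hterm k k').trans ?_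
      rw [Finset.sum_add_distrib, Finset.sum_ite_eq, if_pos hk]
    refine (Finset.sum_le_sum h4).trans ?_
    rw [Finset.sum_add_distrib]
    refine add_le_add (ENNReal.sum_le_tsum K) ?_
    refine le_trans ?_ hoff'
    refine (Finset.sum_le_sum fun k _ => ENNReal.sum_le_tsum (f := off k) K).trans ?_
    exact ENNReal.sum_le_tsum K
  obtain ⟨K, hK⟩ := Filter.exists_seq_tendsto (Filter.atTop : Filter (Finset (ℚ × ℕ)))
  have hlim : ∀ x ∈ Set.Ioc (1 : ℝ) X, Filter.Tendsto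
      (fun n => ENNReal.ofReal (‖∑ k ∈ K n, Off_f T M F w k x‖ ^ 2)) Filter.atTop
      (nhds (ENNReal.ofReal (‖SS T F w x‖ ^ 2))) := by
    intro x hx
    have h1 := (hasSum_SS hT1 hF (x := x) (w := w) (by linarith [hx.1])).2
    have h2 : HasSum (fun k => Off_f T M F w k x) (SS T F w x) := by
      have he : (fun k => Off_f T M F w k x) = fun k : ℚ × ℕ => if Rough M k.2 then
          cs M F w k.1 * cexp (-π * (((k.1 : ℝ) * k.2 * x) ^ 2 : ℝ) * om T) else 0 := by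
        funext k
        unfold Off_f Off_a Off_u
        split_ifs
        · rfl
        · simp
      rw [he]
      exact h1
    have h3 := h2.comp hK
    exact ENNReal.tendsto_ofReal ((h3.norm).pow 2)
  calc ∫⁻ x in Set.Ioc 1 X, ENNReal.ofReal (‖SS T F w x‖ ^ 2)
      = ∫⁻ x in Set.Ioc 1 X, Filter.liminf
          (fun n => ENNReal.ofReal (‖∑ k ∈ K n, Off_f T M F w k x‖ ^ 2)) Filter.atTop :=
        setLIntegral_congr_fun measurableSet_Ioc fun x hx => (hlim x hx).liminf_eq.symm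
    _ ≤ Filter.liminf (fun n => ∫⁻ x in Set.Ioc 1 X,
          ENNReal.ofReal (‖∑ k ∈ K n, Off_f T M F w k x‖ ^ 2)) Filter.atTop := by
        refine lintegral_liminf_le fun n => ?_
        refine ENNReal.measurable_ofReal.comp ?_
        exact ((continuous_finsetSum _ fun k _ => Off_cont T M F w k).norm.pow 2).measurable
    _ ≤ Filter.liminf (fun _ : ℕ => (∑' k, dg k) + ENNReal.ofReal (T ^ (1 / 10 : ℝ)))
          Filter.atTop :=
        Filter.liminf_le_liminf (Filter.Eventually.of_forall fun n => hfin (K n))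
    _ = _ := Filter.liminf_const _

end Pool.Agent.GH
end

section

/-! TASK R2. The mean square of `GG` on a bounded range, and the tail.
`r2`: as R1, with `off_diag` for `X = T²`, `dg2` and `bessel` with `η = 0`; `y ≤ 2 log T` corresponds to `x ≤ T²`.
`r2_tail`: for `y > 2 log T` and `q ∈ F` the point `y' = y + log(q1/q2)` satisfies `e^{2y'} sin(1/T) ≥ e^{2y} T^{-1/50}/(2T) ≥ e^{y} ≥ 1` (for `T ≥ T0`, as `e^y ≥ T²`), so by `gg_large`
`‖gg T y'‖ ≤ 4 e^{y'/2} exp(-e^{y}) + e^{-y'/2} ≤ T^{1/100}(4 e^{y/2} exp(-e^y) + e^{-y/2}) ≤ 2 T^{1/100} e^{-y/2}`. Hence `‖GG‖ ≤ 2 T^{1/50} e^{-y/2}` and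
`∫_{y>2 log T} e^{|2ay|} ‖GG‖² dy ≤ 4 T^{1/25} ∫ e^{y/2 - y} dy = 8 T^{1/25} T^{-1} ≤ 1` for `|a| ≤ 1/4`. -/

set_option autoImplicit false

namespace Pool.Agent.GH

open Complex MeasureTheory Finset
open scoped Real ComplexConjugate

theorem R2_ratio {T a b : ℝ} (hT : 1 ≤ T) (ha : 1 ≤ a) (hb : 1 ≤ b) (ha' : a ≤ T ^ (1 / 100 : ℝ)) :
    (a / b) ^ (1 / 2 : ℝ) ≤ T ^ (1 / 200 : ℝ) := by
  have h1 : a / b ≤ T ^ (1 / 100 : ℝ) := (div_le_self (by linarith) hb).trans ha'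
  calc (a / b) ^ (1 / 2 : ℝ) ≤ (T ^ (1 / 100 : ℝ)) ^ (1 / 2 : ℝ) :=
        Real.rpow_le_rpow (by positivity) h1 (by norm_num)
    _ = T ^ (1 / 200 : ℝ) := by rw [← Real.rpow_mul (by linarith)]; norm_num

theorem R2_wa {T : ℝ} (hT : 1 ≤ T) {F : Finset (ℕ × ℕ)} {w : ℕ × ℕ → ℂ}
    (hF : ∀ q ∈ F, q.1 ≠ 0 ∧ q.2 ≠ 0)
    (hsz : ∀ q ∈ F, (q.1 : ℝ) ≤ T ^ (1 / 100 : ℝ) ∧ (q.2 : ℝ) ≤ T ^ (1 / 100 : ℝ))
    (hl : ∑ q ∈ F, ‖w q‖ ≤ T ^ (1 / 100 : ℝ)) :
    ∑ q ∈ F, ‖wa (-1 / 2) w q‖ ≤ T ^ (3 / 200 : ℝ) := by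
  have h1 : ∀ q ∈ F, ‖wa (-1 / 2) w q‖ ≤ ‖w q‖ * T ^ (1 / 200 : ℝ) := by
    intro q hq
    have ha : (1 : ℝ) ≤ q.1 := by exact_mod_cast Nat.one_le_iff_ne_zero.mpr (hF q hq).1
    have hb : (1 : ℝ) ≤ q.2 := by exact_mod_cast Nat.one_le_iff_ne_zero.mpr (hF q hq).2
    unfold wa
    rw [norm_mul, Complex.norm_real, Real.norm_eq_abs, abs_of_nonneg (by positivity)]
    refine mul_le_mul_of_nonneg_left ?_ (norm_nonneg _)
    have h2 : ((q.1 : ℝ) / q.2) ^ (-1 / 2 : ℝ) = ((q.2 : ℝ) / q.1) ^ (1 / 2 : ℝ) := by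
      rw [show (-1 / 2 : ℝ) = -(1 / 2) by norm_num, Real.rpow_neg (by positivity),
        ← Real.inv_rpow (by positivity), inv_div]
    rw [h2]
    exact R2_ratio hT hb ha (hsz q hq).2
  calc ∑ q ∈ F, ‖wa (-1 / 2) w q‖ ≤ ∑ q ∈ F, ‖w q‖ * T ^ (1 / 200 : ℝ) := Finset.sum_le_sum h1
    _ = (∑ q ∈ F, ‖w q‖) * T ^ (1 / 200 : ℝ) := by rw [Finset.sum_mul]
    _ ≤ T ^ (1 / 100 : ℝ) * T ^ (1 / 200 : ℝ) := by gcongr
    _ = T ^ (3 / 200 : ℝ) := by rw [← Real.rpow_add (by linarith)]; norm_num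

/-- Change of variables. -/
theorem R2_subst {T : ℝ} (hT : 1 ≤ T) (f : ℝ → ENNReal) :
    ∫⁻ y in Set.Ioc (0 : ℝ) (2 * Real.log T), ENNReal.ofReal (Real.exp y) * f (Real.exp y) =
      ∫⁻ x in Set.Ioc 1 (T ^ 2), f x := by
  have hT0 : 0 < T := by linarith
  have h1 : Real.exp '' Set.Ioc 0 (2 * Real.log T) = Set.Ioc 1 (T ^ 2) := by
    ext x
    constructor
    · rintro ⟨y, hy, rfl⟩
      refine ⟨Real.one_lt_exp_iff.mpr hy.1, ?_⟩
      calc Real.exp y ≤ Real.exp (2 * Real.log T) := Real.exp_le_exp.mpr hy.2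
        _ = T ^ 2 := by rw [two_mul, Real.exp_add, Real.exp_log hT0, sq]
    · rintro ⟨hx1, hx2⟩
      have hx0 : 0 < x := by linarith
      refine ⟨Real.log x, ⟨Real.log_pos hx1, ?_⟩, Real.exp_log hx0⟩
      calc Real.log x ≤ Real.log (T ^ 2) := Real.log_le_log hx0 hx2
        _ = 2 * Real.log T := by rw [Real.log_pow]; norm_num
  rw [← h1, lintegral_image_eq_lintegral_abs_deriv_mul measurableSet_Ioc
    (fun x _ => (Real.hasDerivAt_exp x).hasDerivWithinAt) (Real.exp_injective.injOn)]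
  refine lintegral_congr fun y => ?_
  rw [abs_of_pos (Real.exp_pos y)]

theorem R2_small {T : ℝ} (hT : (48 : ℝ) ^ (9 : ℕ) ≤ T) :
    8 * T ^ (1 / 10 : ℝ) + 4 * (T ^ (3 / 200 : ℝ)) ^ 2 * Real.log T ≤ T ^ (1 / 4 : ℝ) := by
  have h48 : (1 : ℝ) ≤ 48 ^ (9 : ℕ) := by norm_num
  have hT1 : 1 ≤ T := h48.trans hT
  have hT0 : 0 < T := by linarith
  have hlog : Real.log T ≤ T ^ (1 / 10 : ℝ) / (1 / 10) := Real.log_le_rpow_div hT0.le (by norm_num)
  have h1 : (T ^ (3 / 200 : ℝ)) ^ 2 = T ^ (3 / 100 : ℝ) := by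
    rw [← Real.rpow_natCast, ← Real.rpow_mul hT0.le]; norm_num
  have h2 : T ^ (3 / 100 : ℝ) * T ^ (1 / 10 : ℝ) = T ^ (13 / 100 : ℝ) := by
    rw [← Real.rpow_add hT0]; norm_num
  have h3 : T ^ (1 / 10 : ℝ) ≤ T ^ (13 / 100 : ℝ) := Real.rpow_le_rpow_of_exponent_le hT1 (by norm_num)
  have h4 : T ^ (13 / 100 : ℝ) * T ^ (12 / 100 : ℝ) = T ^ (1 / 4 : ℝ) := by
    rw [← Real.rpow_add hT0]; norm_num
  have h5 : (48 : ℝ) ≤ T ^ (12 / 100 : ℝ) := by
    calc (48 : ℝ) ≤ (48 : ℝ) ^ (108 / 100 : ℝ) := by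
          conv_lhs => rw [← Real.rpow_one 48]
          exact Real.rpow_le_rpow_of_exponent_le (by norm_num) (by norm_num)
      _ = ((48 : ℝ) ^ (9 : ℕ)) ^ (12 / 100 : ℝ) := by
          rw [← Real.rpow_natCast, ← Real.rpow_mul (by norm_num)]; norm_num
      _ ≤ T ^ (12 / 100 : ℝ) := Real.rpow_le_rpow (by norm_num) hT (by norm_num)
  have h6 : 0 < T ^ (13 / 100 : ℝ) := by positivity
  have h7 : 0 < T ^ (3 / 100 : ℝ) := by positivity
  calc 8 * T ^ (1 / 10 : ℝ) + 4 * (T ^ (3 / 200 : ℝ)) ^ 2 * Real.log T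
      ≤ 8 * T ^ (13 / 100 : ℝ) + 4 * T ^ (3 / 100 : ℝ) * (T ^ (1 / 10 : ℝ) / (1 / 10)) := by
        rw [h1]; gcongr
    _ = 48 * T ^ (13 / 100 : ℝ) := by rw [← h2]; ring
    _ ≤ T ^ (12 / 100 : ℝ) * T ^ (13 / 100 : ℝ) := by gcongr
    _ = T ^ (1 / 4 : ℝ) := by rw [mul_comm, h4]

theorem r2 : ∃ C : ℝ, 1 ≤ C ∧ ∀ θ : ℝ, 0 < θ → θ ≤ 1 / 10 → ∃ T0 : ℝ, 1 ≤ T0 ∧
    ∀ (T : ℝ) (F : Finset (ℕ × ℕ)) (w : ℕ × ℕ → ℂ), T0 ≤ T →
    (∀ q ∈ F, q.1 ∈ Nat.smoothNumbers (Mof θ T) ∧ q.2 ∈ Nat.smoothNumbers (Mof θ T)) →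
    (∀ q ∈ F, (q.1 : ℝ) ≤ T ^ (1 / 100 : ℝ) ∧ (q.2 : ℝ) ≤ T ^ (1 / 100 : ℝ)) →
    ∑ q ∈ F, ‖w q‖ ≤ T ^ (1 / 100 : ℝ) →
    ∫⁻ y in Set.Ioc (0 : ℝ) (2 * Real.log T), ENNReal.ofReal (‖GG T F w y‖ ^ 2) ≤
    ENNReal.ofReal (C / θ * T ^ (1 / 2 : ℝ) * BB (Mof θ T) F w 0 + T ^ (1 / 4 : ℝ)) := by
  classical
  obtain ⟨C, hC, H⟩ := dg2
  obtain ⟨T1, hT1, H1⟩ := off_diag
  refine ⟨8 * C, by linarith, ?_⟩
  intro θ hθ hθ'
  obtain ⟨T2, hT2, H2⟩ := H θ hθ hθ'
  refine ⟨max (max T1 T2) ((48 : ℝ) ^ (9 : ℕ)), le_max_of_le_left (le_max_of_le_left hT1), ?_⟩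
  intro T F w hT hsm hsz hl
  have hTa : T1 ≤ T := (le_max_left _ _).trans ((le_max_left _ _).trans hT)
  have hTb : T2 ≤ T := (le_max_right _ _).trans ((le_max_left _ _).trans hT)
  have hTc : (48 : ℝ) ^ (9 : ℕ) ≤ T := (le_max_right _ _).trans hT
  have hT' : 1 ≤ T := hT1.trans hTa
  have hT0 : 0 < T := by linarith
  have hF : ∀ q ∈ F, q.1 ≠ 0 ∧ q.2 ≠ 0 := fun q hq =>
    ⟨Nat.ne_zero_of_mem_smoothNumbers (hsm q hq).1, Nat.ne_zero_of_mem_smoothNumbers (hsm q hq).2⟩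
  have hlogT : 0 ≤ Real.log T := Real.log_nonneg hT'
  set M := Mof θ T with hM
  set W := T ^ (3 / 200 : ℝ) with hW
  have hWa : ∑ q ∈ F, ‖wa (-1 / 2) w q‖ ≤ W := R2_wa hT' hF hsz hl
  have hWn : 0 ≤ ∑ q ∈ F, ‖wa (-1 / 2) w q‖ := Finset.sum_nonneg fun _ _ => norm_nonneg _
  have hBB : 0 ≤ BB M F w 0 := by
    unfold BB
    exact integral_nonneg fun v => by positivity
  -- the diagonal
  have hdiag : ∫⁻ x in Set.Ioc 1 (T ^ 2), ENNReal.ofReal (‖SS T F w x‖ ^ 2) ≤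
      ENNReal.ofReal (C * T ^ (1 / 2 : ℝ) / θ * BB M F w 0 + T ^ (1 / 10 : ℝ)) := by
    refine (H1 T M F w (T ^ 2) hTa (one_le_pow₀ hT') hsm hsz hl).trans ?_
    rw [ENNReal.ofReal_add (by positivity) (by positivity)]
    refine add_le_add ?_ le_rfl
    rw [ENNReal.tsum_prod (f := fun (ρ : ℚ) (r : ℕ) => if Rough M r then
      ENNReal.ofReal (‖cs M F w ρ‖ ^ 2) * ∫⁻ x in Set.Ioc 1 (T ^ 2), ENNReal.ofReal
          (Real.exp (-2 * π * ((ρ : ℝ) * r * x) ^ 2 * Real.sin (1 / T))) else 0)]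
    have hb := bessel (M := M) (F := F) (w := w) (η := 0) le_rfl (by norm_num) hsm
    calc ∑' (ρ : ℚ) (r : ℕ), (if Rough M r then
          ENNReal.ofReal (‖cs M F w ρ‖ ^ 2) * ∫⁻ x in Set.Ioc 1 (T ^ 2), ENNReal.ofReal
          (Real.exp (-2 * π * ((ρ : ℝ) * r * x) ^ 2 * Real.sin (1 / T))) else 0)
        ≤ ∑' ρ : ℚ, ENNReal.ofReal (C * T ^ (1 / 2 : ℝ) / θ) *
            ENNReal.ofReal (‖cs M F w ρ‖ ^ 2 * (ρ : ℝ) ^ (-1 + 0 : ℝ)) := by
          refine ENNReal.tsum_le_tsum fun ρ => ?_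
          by_cases hρ : cs M F w ρ = 0
          · simp [hρ]
          · have hρ0 : 0 < ρ := (cs_pos hsm hρ).1
            have hρ1 : (0 : ℝ) < ρ := by exact_mod_cast hρ0
            have h2 := H2 T ρ hTb hρ1
            have h3 : ∀ r : ℕ, (if Rough M r then
                ENNReal.ofReal (‖cs M F w ρ‖ ^ 2) * ∫⁻ x in Set.Ioc 1 (T ^ 2), ENNReal.ofReal
                (Real.exp (-2 * π * ((ρ : ℝ) * r * x) ^ 2 * Real.sin (1 / T))) else 0) =
                ENNReal.ofReal (‖cs M F w ρ‖ ^ 2) * (if Rough M r then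
                ∫⁻ x in Set.Ioc 1 (T ^ 2), ENNReal.ofReal
                (Real.exp (-2 * π * ((ρ : ℝ) * r * x) ^ 2 * Real.sin (1 / T))) else 0) := by
              intro r
              split_ifs
              · rfl
              · rw [mul_zero]
            simp_rw [h3]
            rw [ENNReal.tsum_mul_left]
            calc ENNReal.ofReal (‖cs M F w ρ‖ ^ 2) * _
                ≤ ENNReal.ofReal (‖cs M F w ρ‖ ^ 2) *
                  ENNReal.ofReal (C * T ^ (1 / 2 : ℝ) / (θ * ρ)) := by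
                  gcongr
              _ = ENNReal.ofReal (C * T ^ (1 / 2 : ℝ) / θ) *
                ENNReal.ofReal (‖cs M F w ρ‖ ^ 2 * (ρ : ℝ) ^ (-1 + 0 : ℝ)) := by
                  rw [← ENNReal.ofReal_mul (by positivity), ← ENNReal.ofReal_mul (by positivity)]
                  congr 1
                  rw [add_zero, Real.rpow_neg_one]
                  field_simp
      _ = ENNReal.ofReal (C * T ^ (1 / 2 : ℝ) / θ) *
            ∑' ρ : ℚ, ENNReal.ofReal (‖cs M F w ρ‖ ^ 2 * (ρ : ℝ) ^ (-1 + 0 : ℝ)) :=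
          ENNReal.tsum_mul_left
      _ ≤ ENNReal.ofReal (C * T ^ (1 / 2 : ℝ) / θ) * ENNReal.ofReal (BB M F w 0) := by
          gcongr
      _ = ENNReal.ofReal (C * T ^ (1 / 2 : ℝ) / θ * BB M F w 0) :=
          (ENNReal.ofReal_mul (by positivity)).symm
  -- the reduction
  have hpt : ∀ y ∈ Set.Ioc (0 : ℝ) (2 * Real.log T), ENNReal.ofReal (‖GG T F w y‖ ^ 2) ≤
      8 * (ENNReal.ofReal (Real.exp y) * ENNReal.ofReal (‖SS T F w (Real.exp y)‖ ^ 2)) +
        ENNReal.ofReal (2 * W ^ 2) := by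
    intro y hy
    have h1 := GG_sq_le hT' F w hF y
    have h2 : 2 * Real.exp (-y) * (∑ q ∈ F, ‖wa (-1 / 2) w q‖) ^ 2 ≤ 2 * W ^ 2 := by
      have h3 : Real.exp (-y) ≤ 1 := Real.exp_le_one_iff.mpr (by linarith [hy.1])
      have h4 : (∑ q ∈ F, ‖wa (-1 / 2) w q‖) ^ 2 ≤ W ^ 2 := pow_le_pow_left₀ hWn hWa 2
      calc 2 * Real.exp (-y) * (∑ q ∈ F, ‖wa (-1 / 2) w q‖) ^ 2 ≤ 2 * 1 * W ^ 2 := by gcongr
        _ = 2 * W ^ 2 := by ring
    calc ENNReal.ofReal (‖GG T F w y‖ ^ 2)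
        ≤ ENNReal.ofReal (8 * (Real.exp y * ‖SS T F w (Real.exp y)‖ ^ 2) + 2 * W ^ 2) :=
          ENNReal.ofReal_le_ofReal (by linarith)
      _ = _ := by
          rw [ENNReal.ofReal_add (by positivity) (by positivity), ENNReal.ofReal_mul (by norm_num),
            ENNReal.ofReal_mul (by positivity), ENNReal.ofReal_ofNat]
  calc ∫⁻ y in Set.Ioc (0 : ℝ) (2 * Real.log T), ENNReal.ofReal (‖GG T F w y‖ ^ 2)
      ≤ ∫⁻ y in Set.Ioc (0 : ℝ) (2 * Real.log T),
        (8 * (ENNReal.ofReal (Real.exp y) * ENNReal.ofReal (‖SS T F w (Real.exp y)‖ ^ 2)) +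
        ENNReal.ofReal (2 * W ^ 2)) := setLIntegral_mono' measurableSet_Ioc hpt
    _ = 8 * (∫⁻ x in Set.Ioc 1 (T ^ 2), ENNReal.ofReal (‖SS T F w x‖ ^ 2)) +
        ENNReal.ofReal (2 * W ^ 2) * ENNReal.ofReal (2 * Real.log T) := by
        rw [lintegral_add_right _ measurable_const, lintegral_const_mul' _ _ (by norm_num),
          R2_subst hT' (fun x => ENNReal.ofReal (‖SS T F w x‖ ^ 2)), lintegral_const,
          Measure.restrict_apply_univ, Real.volume_Ioc, sub_zero]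
    _ ≤ 8 * ENNReal.ofReal (C * T ^ (1 / 2 : ℝ) / θ * BB M F w 0 + T ^ (1 / 10 : ℝ)) +
        ENNReal.ofReal (2 * W ^ 2) * ENNReal.ofReal (2 * Real.log T) := by gcongr
    _ = ENNReal.ofReal (8 * (C * T ^ (1 / 2 : ℝ) / θ * BB M F w 0 + T ^ (1 / 10 : ℝ)) +
        2 * W ^ 2 * (2 * Real.log T)) := by
        have hD : 0 ≤ C * T ^ (1 / 2 : ℝ) / θ * BB M F w 0 + T ^ (1 / 10 : ℝ) := by positivity
        generalize C * T ^ (1 / 2 : ℝ) / θ * BB M F w 0 + T ^ (1 / 10 : ℝ) = D at hD ⊢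
        have hW2 : 0 ≤ 2 * W ^ 2 := by positivity
        have hlT : 0 ≤ 2 * Real.log T := by positivity
        rw [ENNReal.ofReal_add (p := 8 * D) (by positivity) (by positivity),
          ENNReal.ofReal_mul (p := 8) (by norm_num),
          ENNReal.ofReal_mul (p := 2 * W ^ 2) hW2, ENNReal.ofReal_ofNat]
    _ ≤ _ := by
        apply ENNReal.ofReal_le_ofReal
        have hs := R2_small hTc
        have e1 : 8 * C / θ * T ^ (1 / 2 : ℝ) * BB M F w 0 =
          8 * (C * T ^ (1 / 2 : ℝ) / θ * BB M F w 0) := by ring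
        rw [e1]
        nlinarith [hs]

theorem R2_exp_int (c : ℝ) : ∫⁻ y in Set.Ioi c, ENNReal.ofReal (Real.exp (-y / 2)) =
    ENNReal.ofReal (2 * Real.exp (-c / 2)) := by
  have hd : ∀ x ∈ Set.Ici c, HasDerivAt (fun y => -2 * Real.exp (-y / 2)) (Real.exp (-x / 2)) x := by
    intro x _
    have h1 : HasDerivAt (fun y : ℝ => -y / 2) (-1 / 2) x := (hasDerivAt_id x).neg.div_const 2
    have h2 := (h1.exp).const_mul (-2)
    refine h2.congr_deriv ?_
    ring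
  have hn : ∀ x ∈ Set.Ioi c, 0 ≤ Real.exp (-x / 2) := fun x _ => (Real.exp_pos _).le
  have ht : Filter.Tendsto (fun y : ℝ => -2 * Real.exp (-y / 2)) Filter.atTop (nhds 0) := by
    have h1 : Filter.Tendsto (fun y : ℝ => -y / 2) Filter.atTop Filter.atBot := by
      have : (fun y : ℝ => -y / 2) = fun y => -(y / 2) := by funext y; ring
      rw [this]
      exact Filter.tendsto_neg_atTop_atBot.comp (Filter.tendsto_id.atTop_div_const (by norm_num))
    have h2 := (Real.tendsto_exp_atBot.comp h1).const_mul (-2)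
    rw [mul_zero] at h2
    exact h2
  have hint := integrableOn_Ioi_deriv_of_nonneg' hd hn ht
  have hval := integral_Ioi_of_hasDerivAt_of_nonneg' hd hn ht
  rw [← ofReal_integral_eq_lintegral_ofReal hint
    ((ae_restrict_mem measurableSet_Ioi).mono fun x hx => hn x hx), hval]
  congr 1
  ring

theorem R2_exp_exp {x : ℝ} (hx : 16 ≤ x) : 8 * (x * Real.exp (-x)) ≤ 1 := by
  have h1 := Real.quadratic_le_exp_of_nonneg (by linarith : 0 ≤ x)
  have h2 : 8 * x ≤ Real.exp x := by nlinarith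
  rw [Real.exp_neg]
  have h3 := Real.exp_pos x
  rw [← mul_assoc, ← div_eq_mul_inv, div_le_one h3]
  exact h2

theorem R2_gg {T : ℝ} (hT : 16 ≤ T) {a b : ℝ} (ha : 1 ≤ a) (hb : 1 ≤ b)
    (ha' : a ≤ T ^ (1 / 100 : ℝ)) (hb' : b ≤ T ^ (1 / 100 : ℝ)) {y : ℝ} (hy : 2 * Real.log T < y) :
    ‖gg T (y + (Real.log a - Real.log b))‖ ≤ 2 * T ^ (1 / 200 : ℝ) * Real.exp (-y / 2) := by
  have hT1 : 1 ≤ T := by linarith
  have hT0 : 0 < T := by linarith
  have ha0 : 0 < a := by linarith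
  have hb0 : 0 < b := by linarith
  have hsin := (sin_bounds hT1).1
  have hey : T ^ 2 ≤ Real.exp y := by
    calc T ^ 2 = Real.exp (2 * Real.log T) := by rw [two_mul, Real.exp_add, Real.exp_log hT0, sq]
      _ ≤ Real.exp y := Real.exp_le_exp.mpr hy.le
  have hey16 : 16 ≤ Real.exp y := by nlinarith
  have hey0 := Real.exp_pos y
  have e1 : Real.exp (2 * (y + (Real.log a - Real.log b))) = Real.exp y ^ 2 * (a / b) ^ 2 := by
    rw [← Real.log_div ha0.ne' hb0.ne', mul_add, Real.exp_add, two_mul, Real.exp_add, two_mul,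
      Real.exp_add, Real.exp_log (div_pos ha0 hb0)]
    ring
  -- the lower bound for the real part
  have hba : (b / a) ≤ T ^ (1 / 100 : ℝ) := (div_le_self hb0.le ha).trans hb'
  have hab : 1 / T ^ (1 / 50 : ℝ) ≤ (a / b) ^ 2 := by
    have h1 : T ^ (1 / 50 : ℝ) = (T ^ (1 / 100 : ℝ)) ^ 2 := by
      rw [← Real.rpow_natCast, ← Real.rpow_mul hT0.le]; norm_num
    rw [h1, div_pow, div_le_div_iff₀ (by positivity) (by positivity), one_mul]
    calc b ^ 2 ≤ (T ^ (1 / 100 : ℝ)) ^ 2 := pow_le_pow_left₀ hb0.le hb' 2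
      _ ≤ a ^ 2 * (T ^ (1 / 100 : ℝ)) ^ 2 := by
          have : (1 : ℝ) ≤ a ^ 2 := one_le_pow₀ ha
          nlinarith [sq_nonneg (T ^ (1 / 100 : ℝ))]
  have hT49 : 2 * T ^ (1 / 50 : ℝ) ≤ T := by
    have h1 : T ^ (1 / 50 : ℝ) * T ^ (49 / 50 : ℝ) = T := by
      rw [← Real.rpow_add hT0]; norm_num
    have h2 : (2 : ℝ) ≤ T ^ (49 / 50 : ℝ) := by
      calc (2 : ℝ) ≤ (16 : ℝ) ^ (1 / 4 : ℝ) := by
            rw [show (16 : ℝ) = 2 ^ (4 : ℝ) by norm_num, ← Real.rpow_mul (by norm_num)]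
            norm_num
        _ ≤ (16 : ℝ) ^ (49 / 50 : ℝ) := Real.rpow_le_rpow_of_exponent_le (by norm_num) (by norm_num)
        _ ≤ T ^ (49 / 50 : ℝ) := Real.rpow_le_rpow (by norm_num) hT (by norm_num)
    have h3 : 0 < T ^ (1 / 50 : ℝ) := by positivity
    nlinarith
  have hmain : Real.exp y ≤ Real.exp (2 * (y + (Real.log a - Real.log b))) * Real.sin (1 / T) := by
    rw [e1]
    have h50 : 0 < T ^ (1 / 50 : ℝ) := by positivity
    calc Real.exp y = Real.exp y * 1 := (mul_one _).symm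
      _ ≤ Real.exp y * (T ^ 2 * (1 / T ^ (1 / 50 : ℝ)) * (1 / (2 * T))) := by
          refine mul_le_mul_of_nonneg_left ?_ hey0.le
          rw [show T ^ 2 * (1 / T ^ (1 / 50 : ℝ)) * (1 / (2 * T)) = T / (2 * T ^ (1 / 50 : ℝ)) by
            field_simp]
          rw [le_div_iff₀ (by positivity), one_mul]
          exact hT49
      _ ≤ Real.exp y * (Real.exp y * (a / b) ^ 2 * Real.sin (1 / T)) := by
          gcongr
      _ = _ := by ring
  have hl := gg_large hT1 (y := y + (Real.log a - Real.log b)) (by linarith)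
  refine hl.trans ?_
  have e2 : Real.exp ((y + (Real.log a - Real.log b)) / 2) = Real.exp (y / 2) * (a / b) ^ (1 / 2 : ℝ) := by
    rw [← Real.log_div ha0.ne' hb0.ne', add_div, Real.exp_add, Real.rpow_def_of_pos (div_pos ha0 hb0)]
    congr 2
    ring
  have e3 : Real.exp (-(y + (Real.log a - Real.log b)) / 2) =
      Real.exp (-y / 2) * (b / a) ^ (1 / 2 : ℝ) := by
    rw [Real.rpow_def_of_pos (div_pos hb0 ha0), Real.log_div hb0.ne' ha0.ne', ← Real.exp_add]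
    congr 1
    ring
  rw [e2, e3]
  have r1 := R2_ratio hT1 ha hb ha'
  have r2 := R2_ratio hT1 hb ha hb'
  have hee : Real.exp (-(Real.exp (2 * (y + (Real.log a - Real.log b))) * Real.sin (1 / T))) ≤
      Real.exp (-Real.exp y) := Real.exp_le_exp.mpr (by linarith)
  have h8 := R2_exp_exp hey16
  have e4 : Real.exp (y / 2) = Real.exp y * Real.exp (-y / 2) := by
    rw [← Real.exp_add]; congr 1; ring
  calc 4 * (Real.exp (y / 2) * (a / b) ^ (1 / 2 : ℝ)) *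
        Real.exp (-(Real.exp (2 * (y + (Real.log a - Real.log b))) * Real.sin (1 / T))) +
        Real.exp (-y / 2) * (b / a) ^ (1 / 2 : ℝ)
      ≤ 4 * (Real.exp (y / 2) * T ^ (1 / 200 : ℝ)) * Real.exp (-Real.exp y) +
        Real.exp (-y / 2) * T ^ (1 / 200 : ℝ) := by gcongr
    _ = T ^ (1 / 200 : ℝ) * Real.exp (-y / 2) * (4 * (Real.exp y * Real.exp (-Real.exp y)) + 1) := by
        rw [e4]; ring
    _ ≤ T ^ (1 / 200 : ℝ) * Real.exp (-y / 2) * 2 := by
        refine mul_le_mul_of_nonneg_left (by linarith) (by positivity)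
    _ = _ := by ring

theorem r2_tail : ∃ T0 : ℝ, 1 ≤ T0 ∧ ∀ (T a : ℝ) (F : Finset (ℕ × ℕ)) (w : ℕ × ℕ → ℂ), T0 ≤ T →
    |a| ≤ 1 / 4 → (∀ q ∈ F, q.1 ≠ 0 ∧ q.2 ≠ 0) →
    (∀ q ∈ F, (q.1 : ℝ) ≤ T ^ (1 / 100 : ℝ) ∧ (q.2 : ℝ) ≤ T ^ (1 / 100 : ℝ)) →
    ∑ q ∈ F, ‖w q‖ ≤ T ^ (1 / 100 : ℝ) →
    ∫⁻ y in Set.Ioi (2 * Real.log T), ENNReal.ofReal (Real.exp (2 * a * y) * ‖GG T F w y‖ ^ 2) ≤ 1 := by
  refine ⟨16, by norm_num, ?_⟩
  intro T a F w hT ha hF hsz hl
  have hT1 : 1 ≤ T := by linarith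
  have hT0 : 0 < T := by linarith
  have hlogT : 0 ≤ Real.log T := Real.log_nonneg hT1
  have hGG : ∀ y ∈ Set.Ioi (2 * Real.log T), ‖GG T F w y‖ ≤ 2 * T ^ (3 / 200 : ℝ) * Real.exp (-y / 2) := by
    intro y hy
    unfold GG
    calc ‖∑ q ∈ F, w q * gg T (y + (Real.log q.1 - Real.log q.2))‖
        ≤ ∑ q ∈ F, ‖w q‖ * (2 * T ^ (1 / 200 : ℝ) * Real.exp (-y / 2)) := by
          refine (norm_sum_le _ _).trans (Finset.sum_le_sum fun q hq => ?_)
          rw [norm_mul]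
          refine mul_le_mul_of_nonneg_left ?_ (norm_nonneg _)
          exact R2_gg hT (by exact_mod_cast Nat.one_le_iff_ne_zero.mpr (hF q hq).1)
            (by exact_mod_cast Nat.one_le_iff_ne_zero.mpr (hF q hq).2) (hsz q hq).1 (hsz q hq).2 hy
      _ = (∑ q ∈ F, ‖w q‖) * (2 * T ^ (1 / 200 : ℝ) * Real.exp (-y / 2)) := by rw [Finset.sum_mul]
      _ ≤ T ^ (1 / 100 : ℝ) * (2 * T ^ (1 / 200 : ℝ) * Real.exp (-y / 2)) := by gcongr
      _ = 2 * (T ^ (1 / 100 : ℝ) * T ^ (1 / 200 : ℝ)) * Real.exp (-y / 2) := by ring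
      _ = _ := by rw [← Real.rpow_add hT0]; norm_num
  have hpt : ∀ y ∈ Set.Ioi (2 * Real.log T), ENNReal.ofReal (Real.exp (2 * a * y) * ‖GG T F w y‖ ^ 2) ≤
      ENNReal.ofReal (4 * T ^ (3 / 100 : ℝ)) * ENNReal.ofReal (Real.exp (-y / 2)) := by
    intro y hy
    rw [← ENNReal.ofReal_mul (by positivity)]
    apply ENNReal.ofReal_le_ofReal
    have hy0 : 0 < y := lt_of_le_of_lt (by positivity) hy
    have h1 : Real.exp (2 * a * y) ≤ Real.exp (y / 2) := by
      apply Real.exp_le_exp.mpr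
      have := (abs_le.mp ha).2
      nlinarith
    have h2 : ‖GG T F w y‖ ^ 2 ≤ (2 * T ^ (3 / 200 : ℝ) * Real.exp (-y / 2)) ^ 2 :=
      pow_le_pow_left₀ (norm_nonneg _) (hGG y hy) 2
    calc Real.exp (2 * a * y) * ‖GG T F w y‖ ^ 2
        ≤ Real.exp (y / 2) * (2 * T ^ (3 / 200 : ℝ) * Real.exp (-y / 2)) ^ 2 := by gcongr
      _ = 4 * (T ^ (3 / 200 : ℝ)) ^ 2 * (Real.exp (y / 2) * Real.exp (-y / 2) * Real.exp (-y / 2)) := by
          ring
      _ = 4 * T ^ (3 / 100 : ℝ) * Real.exp (-y / 2) := by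
          rw [← Real.exp_add, show y / 2 + -y / 2 = 0 by ring, Real.exp_zero, one_mul,
            ← Real.rpow_natCast, ← Real.rpow_mul hT0.le]
          norm_num
  calc ∫⁻ y in Set.Ioi (2 * Real.log T), ENNReal.ofReal (Real.exp (2 * a * y) * ‖GG T F w y‖ ^ 2)
      ≤ ∫⁻ y in Set.Ioi (2 * Real.log T),
        ENNReal.ofReal (4 * T ^ (3 / 100 : ℝ)) * ENNReal.ofReal (Real.exp (-y / 2)) :=
        setLIntegral_mono' measurableSet_Ioi hpt
    _ = ENNReal.ofReal (4 * T ^ (3 / 100 : ℝ)) * ENNReal.ofReal (2 * Real.exp (-(2 * Real.log T) / 2)) := by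
        rw [lintegral_const_mul' _ _ ENNReal.ofReal_ne_top, R2_exp_int]
    _ ≤ 1 := by
        rw [← ENNReal.ofReal_mul (by positivity), ENNReal.ofReal_le_one]
        have h1 : Real.exp (-(2 * Real.log T) / 2) = T⁻¹ := by
          rw [show -(2 * Real.log T) / 2 = -Real.log T by ring, Real.exp_neg, Real.exp_log hT0]
        rw [h1]
        have h2 : T ^ (3 / 100 : ℝ) * T ^ (97 / 100 : ℝ) = T := by
          rw [← Real.rpow_add hT0]; norm_num
        have h3 : (8 : ℝ) ≤ T ^ (97 / 100 : ℝ) := by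
          calc (8 : ℝ) = (16 : ℝ) ^ (3 / 4 : ℝ) := by
                rw [show (16 : ℝ) = 2 ^ (4 : ℝ) by norm_num, ← Real.rpow_mul (by norm_num)]
                norm_num
            _ ≤ (16 : ℝ) ^ (97 / 100 : ℝ) := Real.rpow_le_rpow_of_exponent_le (by norm_num) (by norm_num)
            _ ≤ T ^ (97 / 100 : ℝ) := Real.rpow_le_rpow (by norm_num) hT (by norm_num)
        have h4 : 0 < T ^ (3 / 100 : ℝ) := by positivity
        rw [show 4 * T ^ (3 / 100 : ℝ) * (2 * T⁻¹) = 8 * T ^ (3 / 100 : ℝ) / T by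
          rw [div_eq_mul_inv]; ring]
        rw [div_le_one hT0]
        nlinarith

end Pool.Agent.GH
end
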