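import Pool.Agent.Lib.MP_69b2e4_nt.Mg.G050
import Pool.Agent.Lib.MP_69b2e4_nt.Mg.G042
import Pool.Agent.Lib.MP_69b2e4_nt.Mg.G039
import Pool.Agent.Lib.MP_69b2e4_nt.GH.PW
import Pool.Agent.Lib.MP_69b2e4_nt.Mg.G043
import Pool.Agent.Lib.MP_69b2e4_nt.Mg.G048

section

/-! TASK Fun. The mean value theorems for a Dirichlet polynomial.
Let `f χ = ∑_{n∈F0} a_n χ(n)` (`IsDP`), `F = F0 ×ˢ F0`, `w(m,n) = a_m a_n (mn)^{-1/2} (m/n)^{ib}` (real `b`). Then `Herm F w`; `∑‖w‖ ≤ B² = T^{1/125}`;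
`WW F w t = ‖f (nC (1/2 + (t-b) I))‖²` [`(m)^{-1/2-i(t-b)} conj(n^{-1/2-i(t-b)}) = (mn)^{-1/2} (n/m)^{i(t-b)}`];
`∑_q wa a w q XX q1 conj(XX q2) = f(nX (-(a+ib))) conj(f(nX (a - ib)))` [`m^{-1/2+a+ib} X_m · n^{-1/2-a-ib} conj X_n`, and `conj(n^{-1/2-a+ib}) = n^{-1/2-a-ib}`]. So
`BB M F (wa a w) 0 = BF M f (1/2) (a+ib)` and, for `b = 0`, `BB M F w η = BF M f (1/2-η/2) (η/2)`.
`e2fun`: `window_planch` with `b = 0`, `h = A/log T`, then `r1` (`θ ≤ 1/10`).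
`hfun`: `zeta_le_xi`: `‖ζ(1/2+a+it)‖² ≤ C T^{1/2+|a|} ‖xi T a t‖²` on `[T,3T]`; `shift_planch`; for both signs split `(0,∞)` at `2 log T`: on `(0, 2 log T]` `e^{±2ay} ≤ e^{4|a| log T}` and `r2` for the weights
`wa (±a) w` (their ℓ¹ norm is at most `T^{1/125} · T^{|a|/100}`; `T^{|a|} = e^{|a| log T} ≤ e^{3A}`, so `≤ T^{1/100}` for `T ≥ T0(A)`, because `∑ ‖w‖ ≤ B² = T^{1/125}`);
the tail is at most `1` (`r2_tail`). Total `≤ C T^{1/2+|a|} e^{4|a|log T} ((C/θ) T^{1/2} (BF(a+ib) + BF(-a+ib)) + 2T^{1/4} + 2)`, and `T^{|a|} = e^{|a| log T}`. -/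

set_option autoImplicit false

namespace Pool.Agent.GH

open Complex MeasureTheory Finset
open scoped Real ComplexConjugate

/-- the coefficient `a_n n^{-1/2+ib}` -/
noncomputable def Fun_c (a : ℕ → ℝ) (b : ℝ) (n : ℕ) : ℂ :=
  (a n : ℂ) * cexp ((Real.log n : ℂ) * (-(1 / 2) + b * I))

/-- the weights -/
noncomputable def Fun_w (a : ℕ → ℝ) (b : ℝ) (q : ℕ × ℕ) : ℂ :=
  Fun_c a b q.1 * conj (Fun_c a b q.2)

private lemma nC_exp (s : ℂ) {n : ℕ} (hn : n ≠ 0) : nC s n = cexp ((Real.log n : ℂ) * (-s)) := by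
  rw [nC_apply s hn, Complex.cpow_def_of_ne_zero (by exact_mod_cast hn)]
  congr 2
  exact (Complex.natCast_log).symm

private lemma Fun_herm (a : ℕ → ℝ) (b : ℝ) (F0 : Finset ℕ) (h0 : ∀ n ∈ F0, n ≠ 0) :
    Herm (F0 ×ˢ F0) (Fun_w a b) := by
  constructor
  · intro q hq
    obtain ⟨h1, h2⟩ := Finset.mem_product.mp hq
    exact ⟨h0 _ h1, h0 _ h2, Finset.mem_product.mpr ⟨h2, h1⟩⟩
  · intro q _
    unfold Fun_w
    simp only [Prod.fst_swap, Prod.snd_swap, map_mul, Complex.conj_conj]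
    ring

private lemma Fun_WW (a : ℕ → ℝ) (b : ℝ) (F0 : Finset ℕ) (h0 : ∀ n ∈ F0, n ≠ 0) (t : ℝ) :
    WW (F0 ×ˢ F0) (Fun_w a b) t =
      ((‖∑ n ∈ F0, (a n : ℂ) * nC (1 / 2 + (t - b) * I) n‖ ^ 2 : ℝ) : ℂ) := by
  have h1 : ((‖∑ n ∈ F0, (a n : ℂ) * nC (1 / 2 + (t - b) * I) n‖ ^ 2 : ℝ) : ℂ) =
      (∑ n ∈ F0, (a n : ℂ) * nC (1 / 2 + (t - b) * I) n) *
        conj (∑ n ∈ F0, (a n : ℂ) * nC (1 / 2 + (t - b) * I) n) := by
    rw [Complex.mul_conj']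
    push_cast
    rfl
  rw [h1, map_sum, Finset.sum_mul_sum, ← Finset.sum_product']
  unfold WW
  refine Finset.sum_congr rfl fun q hq => ?_
  obtain ⟨hq1, hq2⟩ := Finset.mem_product.mp hq
  rw [nC_exp _ (h0 _ hq1), nC_exp _ (h0 _ hq2)]
  unfold Fun_w Fun_c
  simp only [map_mul, Complex.conj_ofReal, ← Complex.exp_conj, map_add, map_neg, map_div₀, map_one,
    map_ofNat, Complex.conj_I, map_sub]
  have e : ∀ x y z u v w' : ℂ, x * cexp y * (z * cexp u) * cexp v = x * z * cexp (y + u + v) := by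
    intro x y z u v w'
    rw [Complex.exp_add, Complex.exp_add]; ring
  have e2 : ∀ x y z u : ℂ, x * cexp y * (z * cexp u) = x * z * cexp (y + u) := by
    intro x y z u
    rw [Complex.exp_add]; ring
  rw [e _ _ _ _ _ 0, e2]
  congr 2
  push_cast
  ring

private lemma Fun_sum (a : ℕ → ℝ) (b α : ℝ) (F0 : Finset ℕ) (h0 : ∀ n ∈ F0, n ≠ 0) (v : Om) :
    ∑ q ∈ F0 ×ˢ F0, wa α (Fun_w a b) q * XX v q.1 * conj (XX v q.2) =
      (∑ n ∈ F0, (a n : ℂ) * nX (-(α + b * I)) v n) *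
        conj (∑ n ∈ F0, (a n : ℂ) * nX (conj ((α : ℂ) + b * I)) v n) := by
  rw [map_sum, Finset.sum_mul_sum, ← Finset.sum_product']
  refine Finset.sum_congr rfl fun q hq => ?_
  obtain ⟨hq1, hq2⟩ := Finset.mem_product.mp hq
  have hp1 : (0 : ℝ) < q.1 := by exact_mod_cast Nat.pos_of_ne_zero (h0 _ hq1)
  have hp2 : (0 : ℝ) < q.2 := by exact_mod_cast Nat.pos_of_ne_zero (h0 _ hq2)
  change wa α (Fun_w a b) q * XX v q.1 * conj (XX v q.2) =
    (a q.1 : ℂ) * (nC (1 / 2 + -(α + b * I)) q.1 * XX v q.1) *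
      conj ((a q.2 : ℂ) * (nC (1 / 2 + conj ((α : ℂ) + b * I)) q.2 * XX v q.2))
  rw [nC_exp _ (h0 _ hq1), nC_exp _ (h0 _ hq2)]
  unfold wa Fun_w Fun_c
  have h3 : ((((q.1 : ℝ) / q.2) ^ α : ℝ) : ℂ) =
      cexp (((Real.log q.1 : ℂ) - (Real.log q.2 : ℂ)) * α) := by
    rw [Real.rpow_def_of_pos (by positivity), Real.log_div hp1.ne' hp2.ne']
    push_cast
    rfl
  rw [h3]
  simp only [map_mul, Complex.conj_ofReal, ← Complex.exp_conj, map_add, map_neg, map_div₀, map_one,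
    map_ofNat, Complex.conj_I]
  have e : ∀ x y z u v r s : ℂ, x * cexp y * (z * cexp u) * cexp v * r * s =
      x * z * cexp (y + u + v) * r * s := by
    intro x y z u v r s
    rw [Complex.exp_add, Complex.exp_add]; ring
  have e2 : ∀ x y z u r s : ℂ, x * (cexp y * r) * (z * (cexp u * s)) =
      x * z * cexp (y + u) * r * s := by
    intro x y z u r s
    rw [Complex.exp_add]; ring
  rw [e, e2]
  congr 4
  ring

private lemma Fun_BF {a : ℕ → ℝ} {F0 : Finset ℕ} (h0 : ∀ n ∈ F0, n ≠ 0)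
    {f : (ℕ →*₀ ℂ) → ℂ} (hf : ∀ χ, f χ = ∑ n ∈ F0, (a n : ℂ) * χ n) (b α : ℝ) (v : Om) :
    ‖∑ q ∈ F0 ×ˢ F0, wa α (Fun_w a b) q * XX v q.1 * conj (XX v q.2)‖ ^ 2 =
      ‖f (nX (-(α + b * I)) v)‖ ^ 2 * ‖f (nX (conj ((α : ℂ) + b * I)) v)‖ ^ 2 := by
  rw [Fun_sum a b α F0 h0 v, hf, hf, norm_mul, RCLike.norm_conj]
  ring

private lemma Fun_BB {a : ℕ → ℝ} {F0 : Finset ℕ} (h0 : ∀ n ∈ F0, n ≠ 0)
    {f : (ℕ →*₀ ℂ) → ℂ} (hf : ∀ χ, f χ = ∑ n ∈ F0, (a n : ℂ) * χ n) (b α : ℝ) (M : ℕ) :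
    BB M (F0 ×ˢ F0) (wa α (Fun_w a b)) 0 = BF M f (1 / 2) (α + b * I) := by
  unfold BB BF
  refine integral_congr_ae (Filter.Eventually.of_forall fun v => ?_)
  beta_reduce
  have e : ∀ q : ℕ × ℕ, wa (0 / 2) (wa α (Fun_w a b)) q = wa α (Fun_w a b) q := by
    intro q
    conv_lhs => unfold wa
    simp [wa]
  simp only [e]
  rw [Fun_BF h0 hf b α v, mul_assoc]
  norm_num

private lemma Fun_BB2 {a : ℕ → ℝ} {F0 : Finset ℕ} (h0 : ∀ n ∈ F0, n ≠ 0)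
    {f : (ℕ →*₀ ℂ) → ℂ} (hf : ∀ χ, f χ = ∑ n ∈ F0, (a n : ℂ) * χ n) (M : ℕ) (η : ℝ) :
    BB M (F0 ×ˢ F0) (Fun_w a 0) η = BF M f (1 / 2 - η / 2) ((η / 2 : ℝ) : ℂ) := by
  unfold BB BF
  refine integral_congr_ae (Filter.Eventually.of_forall fun v => ?_)
  beta_reduce
  rw [Fun_BF h0 hf 0 (η / 2) v, mul_assoc]
  simp only [Complex.ofReal_zero, zero_mul, add_zero]

private lemma Fun_norm (a : ℕ → ℝ) (b : ℝ) {n : ℕ} (hn : n ≠ 0) : ‖Fun_c a b n‖ ≤ |a n| := by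
  unfold Fun_c
  rw [norm_mul, Complex.norm_real, Real.norm_eq_abs, Complex.norm_exp]
  have h1 : ((Real.log n : ℂ) * (-(1 / 2) + b * I)).re = -(Real.log n / 2) := by
    rw [Complex.re_ofReal_mul]
    have : (-(1 / 2) + (b : ℂ) * I).re = -(1 / 2) := by simp
    rw [this]
    ring
  rw [h1]
  have h2 : Real.exp (-(Real.log n / 2)) ≤ 1 := by
    apply Real.exp_le_one_iff.mpr
    have : 0 ≤ Real.log n := Real.log_nonneg (by exact_mod_cast Nat.one_le_iff_ne_zero.mpr hn)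
    linarith
  nlinarith [abs_nonneg (a n)]

private lemma Fun_l1 (a : ℕ → ℝ) (b : ℝ) (F0 : Finset ℕ) (h0 : ∀ n ∈ F0, n ≠ 0) {B : ℝ}
    (hB : ∑ n ∈ F0, |a n| ≤ B) : ∑ q ∈ F0 ×ˢ F0, ‖Fun_w a b q‖ ≤ B ^ 2 := by
  calc ∑ q ∈ F0 ×ˢ F0, ‖Fun_w a b q‖ ≤ ∑ q ∈ F0 ×ˢ F0, |a q.1| * |a q.2| := by
        refine Finset.sum_le_sum fun q hq => ?_
        obtain ⟨hq1, hq2⟩ := Finset.mem_product.mp hq
        unfold Fun_w
        rw [norm_mul, RCLike.norm_conj]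
        exact mul_le_mul (Fun_norm a b (h0 _ hq1)) (Fun_norm a b (h0 _ hq2)) (norm_nonneg _)
          (abs_nonneg _)
    _ = (∑ n ∈ F0, |a n|) * (∑ n ∈ F0, |a n|) := by
        rw [Finset.sum_product, Finset.sum_mul_sum]
    _ ≤ B * B := by
        have := Finset.sum_nonneg (s := F0) (f := fun n => |a n|) fun _ _ => abs_nonneg _
        exact mul_le_mul hB hB this (this.trans hB)
    _ = B ^ 2 := by ring

theorem e2fun : ∃ C : ℝ, 1 ≤ C ∧ ∀ θ A : ℝ, 0 < θ → θ ≤ 1 / 10 → 1 ≤ A → ∃ T0 : ℝ, 2 ≤ T0 ∧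
    ∀ (T : ℝ) (f : (ℕ →*₀ ℂ) → ℂ), T0 ≤ T →
    IsDP (Nat.smoothNumbers (Mof θ T)) (T ^ (1 / 100 : ℝ)) (T ^ (1 / 250 : ℝ)) f →
    ∫⁻ t : ℝ, ENNReal.ofReal (‖∫ u in t..(t + A / Real.log T),
        xi T 0 u * ((‖f (nC (1 / 2 + u * I))‖ ^ 2 : ℝ) : ℂ)‖ ^ 2) ≤
    ENNReal.ofReal (C * ((A / Real.log T) ^ 2 * T ^ (1 / 2 : ℝ) *
      ((1 / (θ * A) + 1 / (θ * A) ^ 2) * BF (Mof θ T) f (1 / 2) 0 +
        Real.exp (2 - 1 / (2 * θ)) *
          BF (Mof θ T) f (1 / 2 - 1 / (θ * Real.log T) / 2) ((1 / (θ * Real.log T) / 2 : ℝ) : ℂ)) +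
      (A / Real.log T) ^ 2 * T ^ (1 / 4 : ℝ))) := by
  obtain ⟨C, hC, hr⟩ := r1
  refine ⟨4 * π * C, ?_, ?_⟩
  · nlinarith [Real.pi_gt_three]
  intro θ A hθ hθ1 hA
  obtain ⟨T1, hT1, h1⟩ := hr θ A hθ hθ1 hA
  refine ⟨max T1 2, le_max_right _ _, ?_⟩
  intro T f hT hf
  obtain ⟨F0, a, g1, g2, g3⟩ := hf
  have h0 : ∀ n ∈ F0, n ≠ 0 := fun n hn => (g1 n hn).1
  have hT2 : 2 ≤ T := (le_max_right _ _).trans hT
  have hTT1 : T1 ≤ T := (le_max_left _ _).trans hT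
  have hlog : 0 < Real.log T := Real.log_pos (by linarith)
  have hh : 0 < A / Real.log T := by positivity
  have hT0 : 0 < T := by linarith
  have hl1 : ∑ q ∈ F0 ×ˢ F0, ‖Fun_w a 0 q‖ ≤ T ^ (1 / 100 : ℝ) := by
    refine (Fun_l1 a 0 F0 h0 g2).trans ?_
    rw [← Real.rpow_natCast, ← Real.rpow_mul hT0.le]
    exact Real.rpow_le_rpow_of_exponent_le (by linarith) (by norm_num)
  have h2 := h1 T (F0 ×ˢ F0) (Fun_w a 0) hTT1
    (fun q hq => ⟨(g1 _ (Finset.mem_product.mp hq).1).2.1, (g1 _ (Finset.mem_product.mp hq).2).2.1⟩)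
    (fun q hq => ⟨(g1 _ (Finset.mem_product.mp hq).1).2.2, (g1 _ (Finset.mem_product.mp hq).2).2.2⟩)
    hl1
  have h3 := window_planch (T := T) (by linarith) hh (F0 ×ˢ F0) (Fun_w a 0) (Fun_herm a 0 F0 h0)
  have hWW : ∀ u : ℝ, WW (F0 ×ˢ F0) (Fun_w a 0) u =
      ((‖f (nC (1 / 2 + u * I))‖ ^ 2 : ℝ) : ℂ) := by
    intro u
    rw [Fun_WW a 0 F0 h0 u, g3]
    simp only [Complex.ofReal_zero, sub_zero]
  simp only [hWW] at h3
  have e0 : BB (Mof θ T) (F0 ×ˢ F0) (Fun_w a 0) 0 = BF (Mof θ T) f (1 / 2) 0 := by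
    rw [Fun_BB2 h0 g3 (Mof θ T) 0]
    norm_num
  rw [Fun_BB2 h0 g3 (Mof θ T) (1 / (θ * Real.log T)), e0] at h2
  refine h3.trans ?_
  refine (mul_le_mul_right h2 _).trans ?_
  rw [← ENNReal.ofReal_mul (by positivity)]
  apply ENNReal.ofReal_le_ofReal
  apply le_of_eq
  ring

private lemma Fun_log_nonneg {T : ℝ} (hT : 2 ≤ T) : 0 < Real.log T := Real.log_pos (by linarith)

private lemma Fun_wa_norm {a : ℕ → ℝ} {b α T : ℝ} (hT : 2 ≤ T) {q : ℕ × ℕ}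
    (h1 : q.1 ≠ 0) (h2 : q.2 ≠ 0) (g1 : (q.1 : ℝ) ≤ T ^ (1 / 100 : ℝ))
    (g2 : (q.2 : ℝ) ≤ T ^ (1 / 100 : ℝ)) :
    ‖wa α (Fun_w a b) q‖ ≤ ‖Fun_w a b q‖ * Real.exp (|α| * Real.log T / 100) := by
  have hT0 : 0 < T := by linarith
  have hp1 : (1 : ℝ) ≤ q.1 := by exact_mod_cast Nat.one_le_iff_ne_zero.mpr h1
  have hp2 : (1 : ℝ) ≤ q.2 := by exact_mod_cast Nat.one_le_iff_ne_zero.mpr h2
  have hl1 : Real.log q.1 ≤ Real.log T / 100 := by
    have := Real.log_le_log (by linarith) g1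
    rw [Real.log_rpow hT0] at this
    linarith
  have hl2 : Real.log q.2 ≤ Real.log T / 100 := by
    have := Real.log_le_log (by linarith) g2
    rw [Real.log_rpow hT0] at this
    linarith
  have hl3 : 0 ≤ Real.log q.1 := Real.log_nonneg hp1
  have hl4 : 0 ≤ Real.log q.2 := Real.log_nonneg hp2
  unfold wa
  rw [norm_mul, Complex.norm_real, Real.norm_of_nonneg (by positivity),
    Real.rpow_def_of_pos (by positivity), Real.log_div (by positivity) (by positivity)]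
  refine mul_le_mul_of_nonneg_left (Real.exp_le_exp.mpr ?_) (norm_nonneg _)
  have h3 : |Real.log q.1 - Real.log q.2| ≤ Real.log T / 100 := by
    rw [abs_le]; constructor <;> linarith
  calc (Real.log q.1 - Real.log q.2) * α ≤ |(Real.log q.1 - Real.log q.2) * α| := le_abs_self _
    _ = |Real.log q.1 - Real.log q.2| * |α| := abs_mul _ _
    _ ≤ (Real.log T / 100) * |α| := mul_le_mul_of_nonneg_right h3 (abs_nonneg _)
    _ = |α| * Real.log T / 100 := by ring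

/-- one of the two halves -/
private lemma Fun_half {C2 θ : ℝ} (hC2 : 1 ≤ C2) (hθ : 0 < θ) {T1 T2 T A α b : ℝ}
    (hT : 2 ≤ T) (hA : 1 ≤ A) (hTA : Real.exp (15 * A) ≤ T) (hα : |α| ≤ 3 * A / Real.log T)
    (hTT1 : T1 ≤ T) (hTT2 : T2 ≤ T)
    (hr2 : ∀ (T : ℝ) (F : Finset (ℕ × ℕ)) (w : ℕ × ℕ → ℂ), T1 ≤ T →
      (∀ q ∈ F, q.1 ∈ Nat.smoothNumbers (Mof θ T) ∧ q.2 ∈ Nat.smoothNumbers (Mof θ T)) →
      (∀ q ∈ F, (q.1 : ℝ) ≤ T ^ (1 / 100 : ℝ) ∧ (q.2 : ℝ) ≤ T ^ (1 / 100 : ℝ)) →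
      ∑ q ∈ F, ‖w q‖ ≤ T ^ (1 / 100 : ℝ) →
      ∫⁻ y in Set.Ioc (0 : ℝ) (2 * Real.log T), ENNReal.ofReal (‖GG T F w y‖ ^ 2) ≤
      ENNReal.ofReal (C2 / θ * T ^ (1 / 2 : ℝ) * BB (Mof θ T) F w 0 + T ^ (1 / 4 : ℝ)))
    (ht : ∀ (T a : ℝ) (F : Finset (ℕ × ℕ)) (w : ℕ × ℕ → ℂ), T2 ≤ T →
      |a| ≤ 1 / 4 → (∀ q ∈ F, q.1 ≠ 0 ∧ q.2 ≠ 0) →
      (∀ q ∈ F, (q.1 : ℝ) ≤ T ^ (1 / 100 : ℝ) ∧ (q.2 : ℝ) ≤ T ^ (1 / 100 : ℝ)) →
      ∑ q ∈ F, ‖w q‖ ≤ T ^ (1 / 100 : ℝ) →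
      ∫⁻ y in Set.Ioi (2 * Real.log T),
        ENNReal.ofReal (Real.exp (2 * a * y) * ‖GG T F w y‖ ^ 2) ≤ 1)
    {F0 : Finset ℕ} {a : ℕ → ℝ} {f : (ℕ →*₀ ℂ) → ℂ}
    (g1 : ∀ n ∈ F0, n ≠ 0 ∧ n ∈ Nat.smoothNumbers (Mof θ T) ∧ (n : ℝ) ≤ T ^ (1 / 100 : ℝ))
    (g2 : ∑ n ∈ F0, |a n| ≤ T ^ (1 / 250 : ℝ)) (g3 : ∀ χ, f χ = ∑ n ∈ F0, (a n : ℂ) * χ n) :
    ∫⁻ y in Set.Ioi (0 : ℝ), ENNReal.ofReal (Real.exp (2 * α * y) *
        ‖GG T (F0 ×ˢ F0) (wa α (Fun_w a b)) y‖ ^ 2) ≤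
      ENNReal.ofReal (Real.exp (4 * (|α| * Real.log T)) *
        (C2 / θ * T ^ (1 / 2 : ℝ) * BF (Mof θ T) f (1 / 2) (α + b * I) + T ^ (1 / 4 : ℝ)) + 1) := by
  have hT0 : 0 < T := by linarith
  have hlog := Fun_log_nonneg hT
  have h0 : ∀ n ∈ F0, n ≠ 0 := fun n hn => (g1 n hn).1
  have hlA : 15 * A ≤ Real.log T := by
    rw [← Real.log_exp (15 * A)]
    exact Real.log_le_log (Real.exp_pos _) hTA
  have hα4 : |α| ≤ 1 / 4 := by
    refine hα.trans ?_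
    rw [div_le_iff₀ hlog]
    linarith
  have hαL : |α| * Real.log T ≤ 3 * A := by
    rwa [le_div_iff₀ hlog] at hα
  have hq : ∀ q ∈ F0 ×ˢ F0, (q.1 ≠ 0 ∧ q.2 ≠ 0) ∧
      ((q.1 : ℝ) ≤ T ^ (1 / 100 : ℝ) ∧ (q.2 : ℝ) ≤ T ^ (1 / 100 : ℝ)) ∧
      (q.1 ∈ Nat.smoothNumbers (Mof θ T) ∧ q.2 ∈ Nat.smoothNumbers (Mof θ T)) := by
    intro q hq
    obtain ⟨hq1, hq2⟩ := Finset.mem_product.mp hq
    exact ⟨⟨(g1 _ hq1).1, (g1 _ hq2).1⟩, ⟨(g1 _ hq1).2.2, (g1 _ hq2).2.2⟩,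
      (g1 _ hq1).2.1, (g1 _ hq2).2.1⟩
  have hl1 : ∑ q ∈ F0 ×ˢ F0, ‖wa α (Fun_w a b) q‖ ≤ T ^ (1 / 100 : ℝ) := by
    calc ∑ q ∈ F0 ×ˢ F0, ‖wa α (Fun_w a b) q‖
        ≤ ∑ q ∈ F0 ×ˢ F0, ‖Fun_w a b q‖ * Real.exp (|α| * Real.log T / 100) :=
          Finset.sum_le_sum fun q h => Fun_wa_norm hT (hq q h).1.1 (hq q h).1.2 (hq q h).2.1.1
            (hq q h).2.1.2
      _ = (∑ q ∈ F0 ×ˢ F0, ‖Fun_w a b q‖) * Real.exp (|α| * Real.log T / 100) := by
          rw [Finset.sum_mul]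
      _ ≤ (T ^ (1 / 250 : ℝ)) ^ 2 * Real.exp (Real.log T * (1 / 500)) := by
          refine mul_le_mul (Fun_l1 a b F0 h0 g2) (Real.exp_le_exp.mpr ?_) (Real.exp_pos _).le
            (by positivity)
          linarith
      _ = T ^ (1 / 100 : ℝ) := by
          rw [← Real.rpow_def_of_pos hT0, ← Real.rpow_natCast, ← Real.rpow_mul hT0.le,
            ← Real.rpow_add hT0]
          norm_num
  have hm := hr2 T (F0 ×ˢ F0) (wa α (Fun_w a b)) hTT1 (fun q h => (hq q h).2.2)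
    (fun q h => (hq q h).2.1) hl1
  rw [Fun_BB h0 g3 b α (Mof θ T)] at hm
  have htl := ht T α (F0 ×ˢ F0) (wa α (Fun_w a b)) hTT2 hα4 (fun q h => (hq q h).1)
    (fun q h => (hq q h).2.1) hl1
  have hBF : 0 ≤ BF (Mof θ T) f (1 / 2) (α + b * I) := by
    unfold BF
    exact integral_nonneg fun v => by positivity
  have hsplit : Set.Ioi (0 : ℝ) = Set.Ioc 0 (2 * Real.log T) ∪ Set.Ioi (2 * Real.log T) :=
    (Set.Ioc_union_Ioi_eq_Ioi (by linarith)).symm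
  have hdisj : Disjoint (Set.Ioc 0 (2 * Real.log T)) (Set.Ioi (2 * Real.log T)) := by
    rw [Set.disjoint_left]
    intro x hx hx'
    exact absurd hx.2 (not_le.mpr hx')
  rw [hsplit, lintegral_union measurableSet_Ioi hdisj, ENNReal.ofReal_add (by positivity)
    zero_le_one, ENNReal.ofReal_one]
  refine add_le_add ?_ htl
  calc ∫⁻ y in Set.Ioc (0 : ℝ) (2 * Real.log T), ENNReal.ofReal (Real.exp (2 * α * y) *
        ‖GG T (F0 ×ˢ F0) (wa α (Fun_w a b)) y‖ ^ 2)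
      ≤ ∫⁻ y in Set.Ioc (0 : ℝ) (2 * Real.log T),
          ENNReal.ofReal (Real.exp (4 * (|α| * Real.log T))) *
          ENNReal.ofReal (‖GG T (F0 ×ˢ F0) (wa α (Fun_w a b)) y‖ ^ 2) := by
        refine setLIntegral_mono' measurableSet_Ioc fun y hy => ?_
        rw [← ENNReal.ofReal_mul (Real.exp_pos _).le]
        apply ENNReal.ofReal_le_ofReal
        refine mul_le_mul_of_nonneg_right (Real.exp_le_exp.mpr ?_) (by positivity)
        have h5 : α * y ≤ |α| * y := mul_le_mul_of_nonneg_right (le_abs_self _) hy.1.le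
        have h6 : |α| * y ≤ |α| * (2 * Real.log T) := mul_le_mul_of_nonneg_left hy.2 (abs_nonneg _)
        linarith
    _ = ENNReal.ofReal (Real.exp (4 * (|α| * Real.log T))) *
          ∫⁻ y in Set.Ioc (0 : ℝ) (2 * Real.log T),
          ENNReal.ofReal (‖GG T (F0 ×ˢ F0) (wa α (Fun_w a b)) y‖ ^ 2) := by
        rw [lintegral_const_mul' _ _ ENNReal.ofReal_ne_top]
    _ ≤ ENNReal.ofReal (Real.exp (4 * (|α| * Real.log T))) *
        ENNReal.ofReal (C2 / θ * T ^ (1 / 2 : ℝ) * BF (Mof θ T) f (1 / 2) (α + b * I) +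
          T ^ (1 / 4 : ℝ)) := mul_le_mul_right hm _
    _ = _ := by rw [← ENNReal.ofReal_mul (Real.exp_pos _).le]

theorem hfun : ∃ C : ℝ, 1 ≤ C ∧ ∀ θ A : ℝ, 0 < θ → θ ≤ 1 / 10 → 1 ≤ A → ∃ T0 : ℝ, 2 ≤ T0 ∧
    ∀ (T a b : ℝ) (f : (ℕ →*₀ ℂ) → ℂ), T0 ≤ T → |a| ≤ 3 * A / Real.log T → |b| ≤ 3 * A / Real.log T →
    IsDP (Nat.smoothNumbers (Mof θ T)) (T ^ (1 / 100 : ℝ)) (T ^ (1 / 250 : ℝ)) f →
    ∫⁻ t in Set.Icc T (3 * T), ENNReal.ofReal (‖riemannZeta (1 / 2 + a + t * I)‖ ^ 2 *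
        ‖f (nC (1 / 2 + (t - b) * I))‖ ^ 4) ≤
    ENNReal.ofReal (C * Real.exp (C * (|a| * Real.log T)) / θ *
      (T * (BF (Mof θ T) f (1 / 2) (a + b * I) + BF (Mof θ T) f (1 / 2) (-a + b * I)) +
        T ^ (9 / 10 : ℝ))) := by
  obtain ⟨C1, hC1, hz⟩ := zeta_le_xi
  obtain ⟨C2, hC2, hr2⟩ := r2
  obtain ⟨T2, hT2, ht⟩ := r2_tail
  refine ⟨5 + 8 * π * C1 ^ 2 * C2, ?_, ?_⟩
  · have : 0 ≤ 8 * π * C1 ^ 2 * C2 := by positivity
    linarith
  intro θ A hθ hθ1 hA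
  obtain ⟨T1, hT1, hr⟩ := hr2 θ hθ hθ1
  refine ⟨max (max T1 T2) (max 2 (Real.exp (15 * A))), (le_max_left _ _).trans (le_max_right _ _), ?_⟩
  intro T α b f hT hα hb hf
  have hTT1 : T1 ≤ T := (le_max_left _ _).trans ((le_max_left _ _).trans hT)
  have hTT2 : T2 ≤ T := (le_max_right _ _).trans ((le_max_left _ _).trans hT)
  have hT2' : 2 ≤ T := (le_max_left _ _).trans ((le_max_right _ _).trans hT)
  have hTA : Real.exp (15 * A) ≤ T := (le_max_right _ _).trans ((le_max_right _ _).trans hT)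
  obtain ⟨F0, a, g1, g2, g3⟩ := hf
  have h0 : ∀ n ∈ F0, n ≠ 0 := fun n hn => (g1 n hn).1
  have hT0 : 0 < T := by linarith
  have hlog := Fun_log_nonneg hT2'
  have hlA : 15 * A ≤ Real.log T := by
    rw [← Real.log_exp (15 * A)]
    exact Real.log_le_log (Real.exp_pos _) hTA
  have hα4 : |α| ≤ 1 / 4 := by
    refine hα.trans ?_
    rw [div_le_iff₀ hlog]
    linarith
  have hp := Fun_half (b := b) hC2 hθ hT2' hA hTA hα hTT1 hTT2 hr ht g1 g2 g3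
  have hm := Fun_half (b := b) hC2 hθ hT2' hA hTA ((abs_neg α).le.trans hα) hTT1 hTT2 hr ht g1 g2 g3
  have hs := shift_planch (T := T) (by linarith) (a := α) (by linarith) (F0 ×ˢ F0) (Fun_w a b)
    (Fun_herm a b F0 h0)
  rw [abs_neg] at hm
  have hcast : ((-α : ℝ) : ℂ) = -(α : ℂ) := Complex.ofReal_neg α
  rw [hcast] at hm
  set L := Real.log T with hL
  set P := BF (Mof θ T) f (1 / 2) (α + b * I) with hP
  set N := BF (Mof θ T) f (1 / 2) (-α + b * I) with hN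
  have hP0 : 0 ≤ P := by
    rw [hP]; unfold BF; exact integral_nonneg fun v => by positivity
  have hN0 : 0 ≤ N := by
    rw [hN]; unfold BF; exact integral_nonneg fun v => by positivity
  have hWW : ∀ t : ℝ, ‖WW (F0 ×ˢ F0) (Fun_w a b) t‖ = ‖f (nC (1 / 2 + (t - b) * I))‖ ^ 2 := by
    intro t
    rw [Fun_WW a b F0 h0 t, ← g3, Complex.norm_real, Real.norm_of_nonneg (by positivity)]
  have hE : ∀ y : ℝ, -(2 * α * y) = 2 * -α * y := fun y => by ring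
  simp only [hE] at hs
  calc ∫⁻ t in Set.Icc T (3 * T), ENNReal.ofReal (‖riemannZeta (1 / 2 + α + t * I)‖ ^ 2 *
        ‖f (nC (1 / 2 + (t - b) * I))‖ ^ 4)
      ≤ ∫⁻ t in Set.Icc T (3 * T), ENNReal.ofReal ((C1 * T ^ (1 / 4 + |α| / 2)) ^ 2) *
          ENNReal.ofReal (‖xi T α t‖ ^ 2 * ‖WW (F0 ×ˢ F0) (Fun_w a b) t‖ ^ 2) := by
        refine setLIntegral_mono' measurableSet_Icc fun t h => ?_
        rw [← ENNReal.ofReal_mul (by positivity)]
        apply ENNReal.ofReal_le_ofReal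
        rw [hWW t]
        have h7 := hz T α t hT2' hα4 h.1 h.2
        calc ‖riemannZeta (1 / 2 + α + t * I)‖ ^ 2 * ‖f (nC (1 / 2 + (t - b) * I))‖ ^ 4
            ≤ (C1 * T ^ (1 / 4 + |α| / 2) * ‖xi T α t‖) ^ 2 *
              ‖f (nC (1 / 2 + (t - b) * I))‖ ^ 4 := by
              refine mul_le_mul_of_nonneg_right ?_ (by positivity)
              exact pow_le_pow_left₀ (norm_nonneg _) h7 2
          _ = _ := by ring
    _ ≤ ∫⁻ t : ℝ, ENNReal.ofReal ((C1 * T ^ (1 / 4 + |α| / 2)) ^ 2) *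
          ENNReal.ofReal (‖xi T α t‖ ^ 2 * ‖WW (F0 ×ˢ F0) (Fun_w a b) t‖ ^ 2) :=
        setLIntegral_le_lintegral _ _
    _ = ENNReal.ofReal ((C1 * T ^ (1 / 4 + |α| / 2)) ^ 2) * ∫⁻ t : ℝ,
          ENNReal.ofReal (‖xi T α t‖ ^ 2 * ‖WW (F0 ×ˢ F0) (Fun_w a b) t‖ ^ 2) := by
        rw [lintegral_const_mul' _ _ ENNReal.ofReal_ne_top]
    _ ≤ ENNReal.ofReal ((C1 * T ^ (1 / 4 + |α| / 2)) ^ 2) * (ENNReal.ofReal (2 * π) *
          (ENNReal.ofReal (Real.exp (4 * (|α| * L)) * (C2 / θ * T ^ (1 / 2 : ℝ) * P +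
            T ^ (1 / 4 : ℝ)) + 1) +
          ENNReal.ofReal (Real.exp (4 * (|α| * L)) * (C2 / θ * T ^ (1 / 2 : ℝ) * N +
            T ^ (1 / 4 : ℝ)) + 1))) := by
        refine mul_le_mul_right (hs.trans ?_) _
        exact mul_le_mul_right (add_le_add hp hm) _
    _ = ENNReal.ofReal ((C1 * T ^ (1 / 4 + |α| / 2)) ^ 2 * (2 * π *
          ((Real.exp (4 * (|α| * L)) * (C2 / θ * T ^ (1 / 2 : ℝ) * P + T ^ (1 / 4 : ℝ)) + 1) +
          (Real.exp (4 * (|α| * L)) * (C2 / θ * T ^ (1 / 2 : ℝ) * N + T ^ (1 / 4 : ℝ)) + 1)))) := by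
        rw [← ENNReal.ofReal_add (by positivity) (by positivity),
          ← ENNReal.ofReal_mul (by positivity), ← ENNReal.ofReal_mul (by positivity)]
    _ ≤ _ := by
        apply ENNReal.ofReal_le_ofReal
        have hα0 : 0 ≤ |α| := abs_nonneg _
        have hαL0 : 0 ≤ |α| * L := by positivity
        set E := Real.exp (|α| * L) with hEdef
        have hE1 : 1 ≤ E := Real.one_le_exp hαL0
        have hE4 : Real.exp (4 * (|α| * L)) = E ^ 4 := by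
          rw [hEdef, ← Real.exp_nat_mul]; norm_num
        have hsq : (C1 * T ^ (1 / 4 + |α| / 2)) ^ 2 = C1 ^ 2 * (T ^ (1 / 2 : ℝ) * E) := by
          rw [mul_pow, ← Real.rpow_natCast (T ^ (1 / 4 + |α| / 2)) 2, ← Real.rpow_mul hT0.le]
          congr 1
          have : (1 / 4 + |α| / 2) * ((2 : ℕ) : ℝ) = 1 / 2 + |α| := by push_cast; ring
          rw [this, Real.rpow_add hT0, hEdef, Real.rpow_def_of_pos hT0 |α|, mul_comm |α| L]
        have hTT : T ^ (1 / 2 : ℝ) * T ^ (1 / 2 : ℝ) = T := by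
          rw [← Real.rpow_add hT0]; norm_num
        have hT14 : 1 ≤ T ^ (1 / 4 : ℝ) := Real.one_le_rpow (by linarith) (by norm_num)
        have hT34 : T ^ (1 / 2 : ℝ) * T ^ (1 / 4 : ℝ) ≤ T ^ (9 / 10 : ℝ) := by
          rw [← Real.rpow_add hT0]
          exact Real.rpow_le_rpow_of_exponent_le (by linarith) (by norm_num)
        have hT12 : 0 < T ^ (1 / 2 : ℝ) := by positivity
        set K := 5 + 8 * π * C1 ^ 2 * C2 with hK
        have hKE : E ^ 5 ≤ Real.exp (K * (|α| * L)) := by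
          rw [hEdef, ← Real.exp_nat_mul]
          apply Real.exp_le_exp.mpr
          have : (5 : ℝ) ≤ K := by rw [hK]; have : 0 ≤ 8 * π * C1 ^ 2 * C2 := by positivity
                                   linarith
          push_cast
          exact mul_le_mul_of_nonneg_right this hαL0
        have hθ' : 1 ≤ 1 / θ := by rw [le_div_iff₀ hθ]; linarith
        rw [hsq, hE4]
        have hE5 : E ≤ E ^ 5 := by
          calc E = E ^ 1 := (pow_one E).symm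
            _ ≤ E ^ 5 := pow_le_pow_right₀ hE1 (by norm_num)
        have hX : C1 ^ 2 * (T ^ (1 / 2 : ℝ) * E) * (2 * π *
            ((E ^ 4 * (C2 / θ * T ^ (1 / 2 : ℝ) * P + T ^ (1 / 4 : ℝ)) + 1) +
            (E ^ 4 * (C2 / θ * T ^ (1 / 2 : ℝ) * N + T ^ (1 / 4 : ℝ)) + 1))) =
            2 * π * C1 ^ 2 * C2 / θ * E ^ 5 * (T ^ (1 / 2 : ℝ) * T ^ (1 / 2 : ℝ)) * (P + N) +
            4 * π * C1 ^ 2 * E ^ 5 * (T ^ (1 / 2 : ℝ) * T ^ (1 / 4 : ℝ)) +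
            4 * π * C1 ^ 2 * E * T ^ (1 / 2 : ℝ) := by ring
        rw [hX, hTT]
        have h9 : 4 * π * C1 ^ 2 * E ^ 5 * (T ^ (1 / 2 : ℝ) * T ^ (1 / 4 : ℝ)) +
            4 * π * C1 ^ 2 * E * T ^ (1 / 2 : ℝ) ≤
            8 * π * C1 ^ 2 * C2 / θ * E ^ 5 * T ^ (9 / 10 : ℝ) := by
          have i1 : 4 * π * C1 ^ 2 * E * T ^ (1 / 2 : ℝ) ≤
              4 * π * C1 ^ 2 * E ^ 5 * (T ^ (1 / 2 : ℝ) * T ^ (1 / 4 : ℝ)) := by
            have : T ^ (1 / 2 : ℝ) ≤ T ^ (1 / 2 : ℝ) * T ^ (1 / 4 : ℝ) := by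
              nlinarith
            have j1 : 4 * π * C1 ^ 2 * E ≤ 4 * π * C1 ^ 2 * E ^ 5 :=
              mul_le_mul_of_nonneg_left hE5 (by positivity)
            exact mul_le_mul j1 this hT12.le (by positivity)
          have i2 : 8 * π * C1 ^ 2 * E ^ 5 * (T ^ (1 / 2 : ℝ) * T ^ (1 / 4 : ℝ)) ≤
              8 * π * C1 ^ 2 * E ^ 5 * T ^ (9 / 10 : ℝ) :=
            mul_le_mul_of_nonneg_left hT34 (by positivity)
          have i3 : 8 * π * C1 ^ 2 * E ^ 5 * T ^ (9 / 10 : ℝ) ≤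
              8 * π * C1 ^ 2 * C2 / θ * E ^ 5 * T ^ (9 / 10 : ℝ) := by
            have : 8 * π * C1 ^ 2 * C2 / θ * E ^ 5 * T ^ (9 / 10 : ℝ) =
                8 * π * C1 ^ 2 * E ^ 5 * T ^ (9 / 10 : ℝ) * (C2 * (1 / θ)) := by ring
            rw [this]
            have h11 : 1 ≤ C2 * (1 / θ) := by nlinarith
            exact le_mul_of_one_le_right (by positivity) h11
          linarith
        have h10 : 2 * π * C1 ^ 2 * C2 / θ * E ^ 5 * T * (P + N) ≤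
            8 * π * C1 ^ 2 * C2 / θ * E ^ 5 * (T * (P + N)) := by
          have i4 : 0 ≤ π * C1 ^ 2 * C2 / θ * E ^ 5 * (T * (P + N)) := by positivity
          have i5 : 2 * π * C1 ^ 2 * C2 / θ * E ^ 5 * T * (P + N) =
              2 * (π * C1 ^ 2 * C2 / θ * E ^ 5 * (T * (P + N))) := by ring
          have i6 : 8 * π * C1 ^ 2 * C2 / θ * E ^ 5 * (T * (P + N)) =
              8 * (π * C1 ^ 2 * C2 / θ * E ^ 5 * (T * (P + N))) := by ring
          rw [i5, i6]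
          linarith
        have h12 : 8 * π * C1 ^ 2 * C2 / θ * E ^ 5 * (T * (P + N)) +
            8 * π * C1 ^ 2 * C2 / θ * E ^ 5 * T ^ (9 / 10 : ℝ) ≤
            K * Real.exp (K * (|α| * L)) / θ * (T * (P + N) + T ^ (9 / 10 : ℝ)) := by
          have h13 : 8 * π * C1 ^ 2 * C2 * E ^ 5 ≤ K * Real.exp (K * (|α| * L)) := by
            have : 8 * π * C1 ^ 2 * C2 ≤ K := by rw [hK]; linarith
            exact mul_le_mul this hKE (by positivity) (by rw [hK]; positivity)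
          have h14 : 8 * π * C1 ^ 2 * C2 / θ * E ^ 5 * (T * (P + N)) +
              8 * π * C1 ^ 2 * C2 / θ * E ^ 5 * T ^ (9 / 10 : ℝ) =
              8 * π * C1 ^ 2 * C2 * E ^ 5 / θ * (T * (P + N) + T ^ (9 / 10 : ℝ)) := by ring
          rw [h14]
          refine mul_le_mul_of_nonneg_right ?_ (by positivity)
          exact div_le_div_of_nonneg_right h13 hθ.le
        linarith

end Pool.Agent.GH
end

section

/-! TASK Step3. The second moment of the window integral.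
`step3a` (windows without zeros). `Λ(s) = completedRiemannZeta s` is real on the critical line (`completedRiemannZeta_one_sub` and `conj`: e.g. from `riemannZeta_conj` and `Gammaℝ`, or `Λ(1/2+iu) = conj Λ(1/2-iu)`...), continuous in `u`, and vanishes exactly at the zeros of `ζ(1/2+iu)`. If `t ∈ noz h`, it has constant
sign on `(t,t+h)` (intermediate value theorem), and so has `xi S.T 0 u * vf u` (`vf ≥ 0`), hence by `zeta_le_xi` (`a = 0`, `T ≤ u ≤ 3T`): `Jf t = ∫ ‖ζ‖ vf ≤ C T^{1/4} ∫ ‖xi T 0 u‖ vf u du = C T^{1/4} ‖∫_t^{t+h} xi T 0 u * vf u du‖`. Square and integrate: `e2fun` for `f = V`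
(`len_V`; `Q ≤ T^{1/100}`), `A = 1/θ³`: `≤ C T^{1/2} (h² T^{1/2} (θ² + θ⁴ + e^{2-1/(2θ)}) C1 Lam + h² T^{1/4})` with `BF_V_le` for `η = 0` and `η = 1/(θL)`; `e^{2-1/(2θ)} ≤ θ²` for `θ ≤ 1/100`, `T^{3/4} h² ≤ θ² h² T Lam` for `T ≥ T0`.
`step3b`: Cauchy-Schwarz `Jf(t)² ≤ h ∫_t^{t+h} ‖ζ‖² vf²`, Fubini: `∫_T^{2T} Jf² ≤ h² ∫_T^{3T} ‖ζ‖² ‖V‖⁴` (`h ≤ 1 ≤ T`), and `hfun` with `a = b = 0` (`exp 0 = 1`): `≤ (C/θ)(2 T C1 Lam + T^{9/10})`.
Measurability of `noz h`: its complement is open (a zero `u` in `(t,t+h)` stays in the window for nearby `t`). -/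

set_option autoImplicit false

namespace Pool.Agent.GH

open Complex MeasureTheory Finset
open scoped Real ComplexConjugate

theorem measurableSet_noz (h : ℝ) : MeasurableSet (noz h) := by
  have h1 : (noz h)ᶜ = ⋃ u ∈ {u : ℝ | riemannZeta (1 / 2 + u * I) = 0}, Set.Ioo (u - h) u := by
    ext t
    simp only [noz, Set.mem_compl_iff, Set.mem_ofPred_eq, Set.mem_iUnion, Set.mem_Ioo, exists_prop,
      not_forall, not_not]
    constructor
    · rintro ⟨u, h1, h2, h3⟩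
      exact ⟨u, h3, by linarith, h1⟩
    · rintro ⟨u, h3, h1, h2⟩
      exact ⟨u, h2, by linarith, h3⟩
  rw [← MeasurableSet.compl_iff, h1]
  exact (isOpen_biUnion fun u _ => isOpen_Ioo).measurableSet

private theorem Step3_Gr_conj (s : ℂ) : Gammaℝ (conj s) = conj (Gammaℝ s) := by
  rw [Gammaℝ_def, Gammaℝ_def, map_mul, ← Complex.Gamma_conj]
  have e1 : conj s / 2 = conj (s / 2) := by rw [map_div₀, map_ofNat]
  have e2 : -conj s / 2 = conj (-s / 2) := by rw [map_div₀, map_ofNat, map_neg]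
  rw [e1, e2, Complex.cpow_conj _ _ (by
    rw [Complex.arg_ofReal_of_nonneg Real.pi_pos.le]
    exact Real.pi_pos.ne), Complex.conj_ofReal]

private theorem Step3_ne_zero (u : ℝ) : (1 / 2 + u * I : ℂ) ≠ 0 := by
  intro h
  have := congrArg Complex.re h
  simp at this

private theorem Step3_ne_one (u : ℝ) : (1 / 2 + u * I : ℂ) ≠ 1 := by
  intro h
  have := congrArg Complex.re h
  simp at this

private theorem Step3_Gr_ne (s : ℂ) (hs : 0 < s.re) : Gammaℝ s ≠ 0 :=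
  Gammaℝ_ne_zero_of_re_pos hs

private theorem Step3_Lambda (s : ℂ) (hs : 0 < s.re) (h0 : s ≠ 0) :
    completedRiemannZeta s = riemannZeta s * Gammaℝ s := by
  rw [riemannZeta_def_of_ne_zero h0, div_mul_cancel₀ _ (Step3_Gr_ne s hs)]

private theorem Step3_re (u : ℝ) : (1 / 2 + u * I : ℂ).re = 1 / 2 := by simp

private theorem Step3_conj (u : ℝ) : conj (1 / 2 + u * I : ℂ) = 1 - (1 / 2 + u * I) := by
  apply Complex.ext
  · simp
    norm_num
  · simp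

private theorem Step3_real (u : ℝ) :
    conj (completedRiemannZeta (1 / 2 + u * I)) = completedRiemannZeta (1 / 2 + u * I) := by
  have h1 : 0 < (1 / 2 + u * I : ℂ).re := by rw [Step3_re]; norm_num
  have h2 : 0 < (conj (1 / 2 + u * I : ℂ)).re := by rw [Complex.conj_re, Step3_re]; norm_num
  have h3 : conj (1 / 2 + u * I : ℂ) ≠ 0 := by
    intro h
    rw [h] at h2
    simp at h2
  rw [Step3_Lambda _ h1 (Step3_ne_zero u), map_mul, ← riemannZeta_conj, ← Step3_Gr_conj,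
    ← Step3_Lambda _ h2 h3, Step3_conj, completedRiemannZeta_one_sub,
    Step3_Lambda _ h1 (Step3_ne_zero u)]

private theorem Step3_xi (T u : ℝ) : xi T 0 u = (((xi T 0 u).re : ℝ) : ℂ) := by
  rw [eq_comm, ← Complex.conj_eq_iff_re]
  unfold xi
  rw [map_mul, Complex.conj_ofReal, Complex.ofReal_zero, add_zero, Step3_real]

private theorem Step3_xi_zero (T u : ℝ) (h : xi T 0 u = 0) : riemannZeta (1 / 2 + u * I) = 0 := by
  unfold xi at h
  rw [Complex.ofReal_zero, add_zero] at h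
  rcases mul_eq_zero.1 h with h1 | h1
  · exact absurd (Complex.ofReal_eq_zero.1 h1) (Real.exp_pos _).ne'
  · rw [riemannZeta_def_of_ne_zero (Step3_ne_zero u), h1, zero_div]

private theorem Step3_xi_cont (T : ℝ) : Continuous (xi T 0) := by
  rw [continuous_iff_continuousAt]
  intro u
  have h1 : DifferentiableAt ℂ completedRiemannZeta (1 / 2 + ((0 : ℝ) : ℂ) + u * I) := by
    rw [Complex.ofReal_zero, add_zero]
    exact differentiableAt_completedZeta (Step3_ne_zero u) (Step3_ne_one u)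
  have h2 : ContinuousAt (fun u : ℝ => (1 / 2 + ((0 : ℝ) : ℂ) + u * I : ℂ)) u := by fun_prop
  have h3 : ContinuousAt (fun u : ℝ => completedRiemannZeta (1 / 2 + ((0 : ℝ) : ℂ) + u * I)) u :=
    ContinuousAt.comp (g := completedRiemannZeta)
      (f := fun u : ℝ => (1 / 2 + ((0 : ℝ) : ℂ) + u * I : ℂ)) h1.continuousAt h2
  have h4 : ContinuousAt (fun u : ℝ => (Real.exp (ang T * u / 2) : ℂ)) u := by fun_prop
  exact h4.mul h3

private theorem Step3_zeta_cont : Continuous fun u : ℝ => riemannZeta (1 / 2 + u * I) := by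
  have h1 := continuous_zeta_line 0 (by norm_num)
  simpa using h1

private theorem Step3_vf_cont {S : Sys} {C c : ℝ} (hS : Good S C c) : Continuous S.vf := by
  have h1 := continuous_dp_line (len_V hS)
  exact h1.norm.pow 2

private theorem Step3_vf_nonneg (S : Sys) (u : ℝ) : 0 ≤ S.vf u := by
  unfold Sys.vf
  positivity

/-- continuity of window integrals -/
private theorem Step3_win {E : Type*} [NormedAddCommGroup E] [NormedSpace ℝ E] [CompleteSpace E]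
    {f : ℝ → E} (hf : Continuous f) (h : ℝ) : Continuous fun t => ∫ u in t..(t + h), f u := by
  have hi : ∀ a b : ℝ, IntervalIntegrable f volume a b := fun a b => hf.intervalIntegrable a b
  have h1 : (fun t => ∫ u in t..(t + h), f u) =
      fun t => (∫ u in (0 : ℝ)..(t + h), f u) - ∫ u in (0 : ℝ)..t, f u := by
    funext t
    rw [intervalIntegral.integral_interval_sub_left (hi _ _) (hi _ _)]
  rw [h1]
  have h2 := intervalIntegral.continuous_primitive hi 0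
  exact (h2.comp (continuous_id.add continuous_const)).sub h2

private theorem Step3_sign {r : ℝ → ℝ} (hr : Continuous r) {a b : ℝ}
    (h : ∀ u, a < u → u < b → r u ≠ 0) :
    (∀ u ∈ Set.Icc a b, 0 ≤ r u) ∨ (∀ u ∈ Set.Icc a b, r u ≤ 0) := by
  by_contra hcon
  push Not at hcon
  obtain ⟨⟨u1, hu1, h1⟩, ⟨u2, hu2, h2⟩⟩ := hcon
  have h3 := intermediate_value_uIcc (f := r) (a := u1) (b := u2) hr.continuousOn
  have h4 : (0 : ℝ) ∈ Set.uIcc (r u1) (r u2) := Set.mem_uIcc.2 (Or.inl ⟨h1.le, h2.le⟩)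
  obtain ⟨u, hu, hu0⟩ := h3 h4
  have hne1 : u ≠ u1 := by
    rintro rfl
    linarith
  have hne2 : u ≠ u2 := by
    rintro rfl
    linarith
  rcases Set.mem_uIcc.1 hu with ⟨h5, h6⟩ | ⟨h5, h6⟩
  · exact h u (lt_of_le_of_lt hu1.1 (lt_of_le_of_ne h5 hne1.symm))
      (lt_of_lt_of_le (lt_of_le_of_ne h6 hne2) hu2.2) hu0
  · exact h u (lt_of_le_of_lt hu2.1 (lt_of_le_of_ne h5 hne2.symm))
      (lt_of_lt_of_le (lt_of_le_of_ne h6 hne1) hu1.2) hu0

private theorem Step3_abs {r v : ℝ → ℝ} (hr : Continuous r) (hv : Continuous v)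
    (hv0 : ∀ u, 0 ≤ v u) {a b : ℝ} (hab : a ≤ b) (h : ∀ u, a < u → u < b → r u ≠ 0) :
    ∫ u in a..b, |r u| * v u ≤ |∫ u in a..b, r u * v u| := by
  rcases Step3_sign hr h with h1 | h1
  · have h2 : ∫ u in a..b, |r u| * v u = ∫ u in a..b, r u * v u := by
      refine intervalIntegral.integral_congr fun u hu => ?_
      rw [Set.uIcc_of_le hab] at hu
      show |r u| * v u = r u * v u
      rw [abs_of_nonneg (h1 u hu)]
    rw [h2]
    exact le_abs_self _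
  · have h2 : ∫ u in a..b, |r u| * v u = -∫ u in a..b, r u * v u := by
      rw [← intervalIntegral.integral_neg]
      refine intervalIntegral.integral_congr fun u hu => ?_
      rw [Set.uIcc_of_le hab] at hu
      show |r u| * v u = -(r u * v u)
      rw [abs_of_nonpos (h1 u hu)]
      ring
    rw [h2]
    exact neg_le_abs _

private theorem Step3_L {S : Sys} {C c : ℝ} (hS : Good S C c) : 1 ≤ S.L := by
  have h1 := hS.L_ge
  have h2 : S.θ ^ 10 ≤ 1 := pow_le_one₀ hS.θ_pos.le (hS.θ_le.trans (by norm_num))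
  have h3 : 0 < S.θ ^ 10 := pow_pos hS.θ_pos 10
  have h4 : (1 : ℝ) ≤ 1 / S.θ ^ 10 := by
    rw [le_div_iff₀ h3]
    linarith
  exact h4.trans h1

private theorem Step3_Lam {S : Sys} {C c : ℝ} (hS : Good S C c) : c ≤ S.Lam := by
  have h1 := hS.lam_ge
  have h2 : 1 ≤ S.L ^ (S.k ^ 2) := Real.one_le_rpow (Step3_L hS) (by positivity)
  calc c = c * 1 := (mul_one c).symm
    _ ≤ c * S.L ^ (S.k ^ 2) := mul_le_mul_of_nonneg_left h2 hS.c_pos.le
    _ ≤ _ := h1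

private theorem Step3_h {S : Sys} {C c : ℝ} (hS : Good S C c) : 0 < S.h ∧ S.h ≤ 1 := by
  have hθ := hS.θ_pos
  have hθ1 : S.θ ≤ 1 := hS.θ_le.trans (by norm_num)
  have hL := Step3_L hS
  have h1 : S.h = 1 / (S.θ ^ 3 * S.L) := by
    unfold Sys.h Sys.A
    field_simp
  have h2 : 1 ≤ S.θ ^ 3 * S.L := by
    have h3 : S.θ ^ 3 * (1 / S.θ ^ 10) ≤ S.θ ^ 3 * S.L :=
      mul_le_mul_of_nonneg_left hS.L_ge (by positivity)
    have h4 : S.θ ^ 3 * (1 / S.θ ^ 10) = 1 / S.θ ^ 7 := by field_simp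
    have h5 : (1 : ℝ) ≤ 1 / S.θ ^ 7 := by
      rw [le_div_iff₀ (by positivity)]
      have := pow_le_one₀ (n := 7) hθ.le hθ1
      linarith
    linarith
  rw [h1]
  refine ⟨by positivity, ?_⟩
  rw [div_le_one (by linarith)]
  exact h2

private theorem Step3_quarter {T E : ℝ} (hE : 0 ≤ E) (hT : E ^ 4 ≤ T) : E ≤ T ^ (1 / 4 : ℝ) := by
  have h1 : E = (E ^ 4) ^ (1 / 4 : ℝ) := by
    rw [← Real.rpow_natCast, ← Real.rpow_mul hE]
    norm_num
  rw [h1]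
  exact Real.rpow_le_rpow (by positivity) hT (by norm_num)

private theorem Step3_pows {T : ℝ} (hT : 0 < T) : T ^ (1 / 2 : ℝ) = (T ^ (1 / 4 : ℝ)) ^ 2 ∧
    T = (T ^ (1 / 4 : ℝ)) ^ 4 := by
  constructor
  · rw [← Real.rpow_natCast, ← Real.rpow_mul hT.le]
    norm_num
  · rw [← Real.rpow_natCast, ← Real.rpow_mul hT.le]
    norm_num

private theorem Step3_exp {θ : ℝ} (h0 : 0 < θ) (h1 : θ ≤ 1 / 100) :
    Real.exp (2 - 1 / (2 * θ)) ≤ θ ^ 2 := by
  obtain ⟨x, hx⟩ : ∃ x, x = 1 / θ := ⟨_, rfl⟩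
  have hx0 : 0 < x := by rw [hx]; positivity
  have hx1 : 100 ≤ x := by
    rw [hx, le_div_iff₀ h0]
    linarith
  have hθ : θ = 1 / x := by rw [hx, one_div_one_div]
  have e1 : 1 / (2 * θ) = x / 2 := by
    rw [hθ]
    field_simp
  rw [e1, hθ, Real.exp_sub, div_pow, one_pow, div_le_div_iff₀ (Real.exp_pos _) (by positivity),
    one_mul]
  have h2 : x / 8 ≤ Real.exp (x / 8) := by
    have := Real.add_one_le_exp (x / 8)
    linarith
  have h3 : Real.exp 25 ≤ Real.exp (x / 4) := Real.exp_le_exp.2 (by linarith)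
  have h4 : Real.exp (x / 2) = Real.exp (x / 4) * (Real.exp (x / 8) * Real.exp (x / 8)) := by
    rw [← Real.exp_add, ← Real.exp_add]
    congr 1
    ring
  have h5 : Real.exp 2 * 64 ≤ Real.exp 25 := by
    have h6 : Real.exp 25 = Real.exp 2 * Real.exp 23 := by
      rw [← Real.exp_add]
      norm_num
    have h7 : Real.exp 23 = Real.exp 1 ^ 23 := by
      rw [← Real.exp_nat_mul]
      norm_num
    have h8 : (2 : ℝ) ≤ Real.exp 1 := by
      have := Real.add_one_le_exp (1 : ℝ)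
      linarith
    have h9 : (2 : ℝ) ^ 23 ≤ Real.exp 1 ^ 23 := pow_le_pow_left₀ (by norm_num) h8 _
    rw [h6, h7]
    apply mul_le_mul_of_nonneg_left _ (Real.exp_pos _).le
    have : (64 : ℝ) ≤ 2 ^ 23 := by norm_num
    linarith
  rw [h4]
  have h10 : x / 8 * (x / 8) ≤ Real.exp (x / 8) * Real.exp (x / 8) :=
    mul_le_mul h2 h2 (by positivity) (Real.exp_pos _).le
  calc Real.exp 2 * x ^ 2 = (Real.exp 2 * 64) * (x / 8 * (x / 8)) := by ring
    _ ≤ Real.exp (x / 4) * (Real.exp (x / 8) * Real.exp (x / 8)) :=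
      mul_le_mul (h5.trans h3) h10 (by positivity) (Real.exp_pos _).le

private theorem Step3_lint {f : ℝ → ℝ} (hf : Continuous f) (h0 : ∀ t, 0 ≤ f t) {a b B : ℝ}
    (hB : 0 ≤ B) (A : Set ℝ) (hA : A ⊆ Set.Icc a b)
    (h : ∫⁻ t in A, ENNReal.ofReal (f t) ≤ ENNReal.ofReal B) : ∫ t in A, f t ≤ B := by
  have h1 : IntegrableOn f A := (hf.continuousOn.integrableOn_Icc (a := a) (b := b)).mono_set hA
  have h2 := ofReal_integral_eq_lintegral_ofReal h1 (Filter.Eventually.of_forall h0)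
  rw [← h2] at h
  exact (ENNReal.ofReal_le_ofReal_iff hB).1 h

theorem step3a (k : ℝ) (p0 : ℕ) : ∃ C0 C3 : ℝ, 0 < C3 ∧ ∀ c θ : ℝ, 0 < c → 0 < θ → ∃ T0 : ℝ,
    ∀ (S : Sys) (C : ℝ), S.k = k → S.p0 = p0 → S.θ = θ → Good S C c → C0 ≤ C → T0 ≤ S.T →
    ∫ t in Set.Icc S.T (2 * S.T) ∩ noz S.h, S.Jf t ^ 2 ≤ C3 * S.θ ^ 2 * S.h ^ 2 * S.T * S.Lam := by
  obtain ⟨C0, C1, hC1, hBF⟩ := BF_V_le k p0
  obtain ⟨Cx, hCx, hxi⟩ := zeta_le_xi
  obtain ⟨Ce, hCe, he⟩ := e2fun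
  refine ⟨C0, Cx ^ 2 * Ce * (3 * C1 + 1), by positivity, ?_⟩
  intro c θ hc hθ
  by_cases hθ2 : θ ≤ 1 / 100
  swap
  · refine ⟨0, fun S C _ _ hSθ hS => ?_⟩
    exact absurd (hSθ ▸ hS.θ_le) hθ2
  have hA1 : (1 : ℝ) ≤ 1 / θ ^ 3 := by
    rw [le_div_iff₀ (by positivity)]
    have := pow_le_one₀ (n := 3) hθ.le (hθ2.trans (by norm_num))
    linarith
  obtain ⟨T1, hT12, hT1⟩ := he θ (1 / θ ^ 3) hθ (hθ2.trans (by norm_num)) hA1
  refine ⟨max T1 ((1 / (θ ^ 2 * c)) ^ 4), ?_⟩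
  intro S C hSk hSp hSθ hS hC hT
  have hTT1 : T1 ≤ S.T := (le_max_left _ _).trans hT
  have hTE : (1 / (θ ^ 2 * c)) ^ 4 ≤ S.T := (le_max_right _ _).trans hT
  have hT2 : 2 ≤ S.T := hT12.trans hTT1
  have hT0 : 0 < S.T := by linarith
  obtain ⟨hh0, hh1⟩ := Step3_h hS
  have hLam := Step3_Lam hS
  -- the window function
  obtain ⟨W, hW⟩ : ∃ W : ℝ → ℝ, W = fun t => ‖∫ u in t..(t + S.h), xi S.T 0 u *
    ((S.vf u : ℝ) : ℂ)‖ ^ 2 := ⟨_, rfl⟩
  have hvc := Step3_vf_cont hS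
  have hWc : Continuous W := by
    rw [hW]
    exact (Step3_win ((Step3_xi_cont S.T).mul (Complex.continuous_ofReal.comp hvc)) S.h).norm.pow 2
  have hW0 : ∀ t, 0 ≤ W t := fun t => by rw [hW]; positivity
  have hrc : Continuous fun u => (xi S.T 0 u).re := Complex.continuous_re.comp (Step3_xi_cont S.T)
  -- pointwise bound
  have hpt : ∀ t ∈ Set.Icc S.T (2 * S.T) ∩ noz S.h,
      S.Jf t ^ 2 ≤ (Cx * S.T ^ (1 / 4 : ℝ)) ^ 2 * W t := by
    rintro t ⟨ht, htn⟩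
    have h1 : S.Jf t ≤ Cx * S.T ^ (1 / 4 : ℝ) * ∫ u in t..(t + S.h), |(xi S.T 0 u).re| * S.vf u := by
      rw [← intervalIntegral.integral_const_mul]
      unfold Sys.Jf
      refine intervalIntegral.integral_mono_on (by linarith)
        ((Step3_zeta_cont.norm.mul hvc).intervalIntegrable _ _)
        ((continuous_const.mul (hrc.abs.mul hvc)).intervalIntegrable _ _) ?_
      intro u hu
      have h2 := hxi S.T 0 u hT2 (by norm_num) (ht.1.trans hu.1) (by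
        have h3 := hu.2
        have h4 := ht.2
        linarith)
      rw [Complex.ofReal_zero, add_zero, abs_zero, zero_div, add_zero] at h2
      have h5 : ‖xi S.T 0 u‖ = |(xi S.T 0 u).re| := by
        conv_lhs => rw [Step3_xi]
        rw [Complex.norm_real, Real.norm_eq_abs]
      rw [h5] at h2
      calc ‖riemannZeta (1 / 2 + u * I)‖ * S.vf u
          ≤ (Cx * S.T ^ (1 / 4 : ℝ) * |(xi S.T 0 u).re|) * S.vf u :=
            mul_le_mul_of_nonneg_right h2 (Step3_vf_nonneg S u)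
        _ = _ := by ring
    have h2 : ∫ u in t..(t + S.h), |(xi S.T 0 u).re| * S.vf u ≤
        |∫ u in t..(t + S.h), (xi S.T 0 u).re * S.vf u| := by
      refine Step3_abs hrc hvc (Step3_vf_nonneg S) (by linarith) ?_
      intro u h3 h4 h5
      refine htn u h3 h4 (Step3_xi_zero S.T u ?_)
      rw [Step3_xi, h5, Complex.ofReal_zero]
    have h3 : |∫ u in t..(t + S.h), (xi S.T 0 u).re * S.vf u| =
        ‖∫ u in t..(t + S.h), xi S.T 0 u * ((S.vf u : ℝ) : ℂ)‖ := by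
      have h4 : ∫ u in t..(t + S.h), xi S.T 0 u * ((S.vf u : ℝ) : ℂ) =
          ((∫ u in t..(t + S.h), (xi S.T 0 u).re * S.vf u : ℝ) : ℂ) := by
        rw [← intervalIntegral.integral_ofReal]
        refine intervalIntegral.integral_congr fun u _ => ?_
        show xi S.T 0 u * ((S.vf u : ℝ) : ℂ) = (((xi S.T 0 u).re * S.vf u : ℝ) : ℂ)
        rw [Complex.ofReal_mul, ← Step3_xi]
      rw [h4, Complex.norm_real, Real.norm_eq_abs]
    have h4 : 0 ≤ S.Jf t := by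
      unfold Sys.Jf
      refine intervalIntegral.integral_nonneg (by linarith) fun u _ => ?_
      exact mul_nonneg (norm_nonneg _) (Step3_vf_nonneg S u)
    have h5 : S.Jf t ≤ Cx * S.T ^ (1 / 4 : ℝ) *
        ‖∫ u in t..(t + S.h), xi S.T 0 u * ((S.vf u : ℝ) : ℂ)‖ := by
      refine h1.trans ?_
      apply mul_le_mul_of_nonneg_left _ (by positivity)
      rw [← h3]
      exact h2
    calc S.Jf t ^ 2 ≤ (Cx * S.T ^ (1 / 4 : ℝ) *
        ‖∫ u in t..(t + S.h), xi S.T 0 u * ((S.vf u : ℝ) : ℂ)‖) ^ 2 := pow_le_pow_left₀ h4 h5 2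
      _ = (Cx * S.T ^ (1 / 4 : ℝ)) ^ 2 * W t := by
        rw [hW, mul_pow]
  have hJc : Continuous S.Jf := Step3_win (Step3_zeta_cont.norm.mul hvc) S.h
  have hm : MeasurableSet (Set.Icc S.T (2 * S.T) ∩ noz S.h) :=
    measurableSet_Icc.inter (measurableSet_noz _)
  have hstep : ∫ t in Set.Icc S.T (2 * S.T) ∩ noz S.h, S.Jf t ^ 2 ≤
      (Cx * S.T ^ (1 / 4 : ℝ)) ^ 2 * ∫ t in Set.Icc S.T (2 * S.T) ∩ noz S.h, W t := by
    rw [← integral_const_mul]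
    refine setIntegral_mono_on ?_ ?_ hm hpt
    · exact ((hJc.pow 2).continuousOn.integrableOn_Icc).mono_set Set.inter_subset_left
    · exact ((continuous_const.mul hWc).continuousOn.integrableOn_Icc).mono_set
        Set.inter_subset_left
  -- the mean value theorem
  have hM : S.M = Mof θ S.T := by
    unfold Sys.M
    rw [hSθ]
  have hhA : S.h = 1 / θ ^ 3 / Real.log S.T := by
    unfold Sys.h Sys.A Sys.L
    rw [hSθ]
  have hdp : IsDP (Nat.smoothNumbers (Mof θ S.T)) (S.T ^ (1 / 100 : ℝ)) (S.T ^ (1 / 250 : ℝ)) S.V := by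
    rw [← hM]
    exact (len_V hS).mono (le_refl _)
      (Real.rpow_le_rpow_of_exponent_le (by linarith) (by norm_num)) le_rfl
  have h1 := hT1 S.T S.V hTT1 hdp
  rw [← hhA, ← hM] at h1
  obtain ⟨B, hB⟩ : ∃ B : ℝ, B = Ce * (S.h ^ 2 * S.T ^ (1 / 2 : ℝ) *
      (3 * θ ^ 2 * (C1 * S.Lam)) + S.h ^ 2 * S.T ^ (1 / 4 : ℝ)) := ⟨_, rfl⟩
  have hLam0 : 0 < S.Lam := lt_of_lt_of_le hc hLam
  have hB0 : 0 ≤ B := by
    rw [hB]
    positivity
  have hbf0 : BF S.M S.V (1 / 2) 0 ≤ C1 * S.Lam := by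
    have h2 := hBF S C c 0 hSk hSp hS hC le_rfl (by
      have h3 := Step3_L hS
      have h4 := hS.θ_pos
      positivity)
    simpa using h2
  have hbf1 : BF S.M S.V (1 / 2 - 1 / (θ * Real.log S.T) / 2)
      ((1 / (θ * Real.log S.T) / 2 : ℝ) : ℂ) ≤ C1 * S.Lam := by
    have h2 := hBF S C c (1 / (S.θ * S.L)) hSk hSp hS hC (by
      have h3 := Step3_L hS
      have h4 := hS.θ_pos
      positivity) le_rfl
    unfold Sys.L at h2
    rw [hSθ] at h2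
    exact h2
  have hle : Ce * (S.h ^ 2 * S.T ^ (1 / 2 : ℝ) *
      ((1 / (θ * (1 / θ ^ 3)) + 1 / (θ * (1 / θ ^ 3)) ^ 2) * BF S.M S.V (1 / 2) 0 +
        Real.exp (2 - 1 / (2 * θ)) *
          BF S.M S.V (1 / 2 - 1 / (θ * Real.log S.T) / 2) ((1 / (θ * Real.log S.T) / 2 : ℝ) : ℂ)) +
      S.h ^ 2 * S.T ^ (1 / 4 : ℝ)) ≤ B := by
    rw [hB]
    apply mul_le_mul_of_nonneg_left _ (by linarith)
    apply add_le_add _ le_rfl
    apply mul_le_mul_of_nonneg_left _ (by positivity)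
    have e1 : 1 / (θ * (1 / θ ^ 3)) = θ ^ 2 := by field_simp
    have e2 : 1 / (θ * (1 / θ ^ 3)) ^ 2 = θ ^ 4 := by field_simp
    rw [e1, e2]
    have h2 : θ ^ 4 ≤ θ ^ 2 := pow_le_pow_of_le_one hθ.le (hθ2.trans (by norm_num)) (by norm_num)
    have h3 : 0 ≤ C1 * S.Lam := by positivity
    calc (θ ^ 2 + θ ^ 4) * BF S.M S.V (1 / 2) 0 + Real.exp (2 - 1 / (2 * θ)) *
          BF S.M S.V (1 / 2 - 1 / (θ * Real.log S.T) / 2) ((1 / (θ * Real.log S.T) / 2 : ℝ) : ℂ)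
        ≤ (θ ^ 2 + θ ^ 4) * (C1 * S.Lam) + Real.exp (2 - 1 / (2 * θ)) * (C1 * S.Lam) :=
          add_le_add (mul_le_mul_of_nonneg_left hbf0 (by positivity))
            (mul_le_mul_of_nonneg_left hbf1 (Real.exp_pos _).le)
      _ ≤ (θ ^ 2 + θ ^ 2) * (C1 * S.Lam) + θ ^ 2 * (C1 * S.Lam) :=
          add_le_add (mul_le_mul_of_nonneg_right (by linarith) h3)
            (mul_le_mul_of_nonneg_right (Step3_exp hθ hθ2) h3)
      _ = _ := by ring
  have h2 : ∫⁻ t in Set.Icc S.T (2 * S.T) ∩ noz S.h, ENNReal.ofReal (W t) ≤ ENNReal.ofReal B := by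
    refine (setLIntegral_le_lintegral _ _).trans ?_
    rw [hW]
    exact h1.trans (ENNReal.ofReal_le_ofReal hle)
  have h3 : ∫ t in Set.Icc S.T (2 * S.T) ∩ noz S.h, W t ≤ B :=
    Step3_lint hWc hW0 hB0 _ Set.inter_subset_left h2
  refine hstep.trans ?_
  -- numbers
  obtain ⟨q, hq⟩ : ∃ q, q = S.T ^ (1 / 4 : ℝ) := ⟨_, rfl⟩
  obtain ⟨hp1, hp2⟩ := Step3_pows hT0
  rw [← hq] at hp1 hp2
  have hq0 : 0 < q := by rw [hq]; exact Real.rpow_pos_of_pos hT0 _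
  have hqE : 1 ≤ q * (θ ^ 2 * c) := by
    have h4 := Step3_quarter (by positivity) hTE
    rw [← hq, div_le_iff₀ (by positivity)] at h4
    exact h4
  calc (Cx * S.T ^ (1 / 4 : ℝ)) ^ 2 * ∫ t in Set.Icc S.T (2 * S.T) ∩ noz S.h, W t
      ≤ (Cx * S.T ^ (1 / 4 : ℝ)) ^ 2 * B := mul_le_mul_of_nonneg_left h3 (by positivity)
    _ = Cx ^ 2 * Ce * S.h ^ 2 * (3 * C1 * θ ^ 2 * q ^ 4 * S.Lam + q ^ 3 * 1) := by
        rw [hB, ← hq, hp1]
        ring
    _ ≤ Cx ^ 2 * Ce * S.h ^ 2 * (3 * C1 * θ ^ 2 * q ^ 4 * S.Lam + q ^ 3 * (q * (θ ^ 2 * S.Lam))) := by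
        apply mul_le_mul_of_nonneg_left _ (by positivity)
        apply add_le_add le_rfl
        apply mul_le_mul_of_nonneg_left _ (by positivity)
        refine hqE.trans ?_
        apply mul_le_mul_of_nonneg_left _ hq0.le
        exact mul_le_mul_of_nonneg_left hLam (by positivity)
    _ = Cx ^ 2 * Ce * (3 * C1 + 1) * θ ^ 2 * S.h ^ 2 * q ^ 4 * S.Lam := by ring
    _ = Cx ^ 2 * Ce * (3 * C1 + 1) * S.θ ^ 2 * S.h ^ 2 * S.T * S.Lam := by rw [← hp2, hSθ]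

/-- Cauchy-Schwarz on a window -/
private theorem Step3_CS {f : ℝ → ℝ} (hf : Continuous f) {a h : ℝ} (hh : 0 < h) :
    (∫ u in a..(a + h), f u) ^ 2 ≤ h * ∫ u in a..(a + h), f u ^ 2 := by
  obtain ⟨J, hJ⟩ : ∃ J, J = ∫ u in a..(a + h), f u := ⟨_, rfl⟩
  have h1 : 0 ≤ ∫ u in a..(a + h), (f u - J / h) ^ 2 :=
    intervalIntegral.integral_nonneg (by linarith) fun u _ => sq_nonneg _
  have h2 : ∫ u in a..(a + h), (f u - J / h) ^ 2 =
      (∫ u in a..(a + h), f u ^ 2) - J ^ 2 / h := by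
    have e1 : ∀ u, (f u - J / h) ^ 2 = f u ^ 2 - 2 * (J / h) * f u + (J / h) ^ 2 := by
      intro u
      ring
    simp only [e1]
    rw [intervalIntegral.integral_add, intervalIntegral.integral_sub,
      intervalIntegral.integral_const_mul, intervalIntegral.integral_const, ← hJ]
    · have hh' : h ≠ 0 := hh.ne'
      rw [smul_eq_mul]
      field_simp
      ring
    · exact (hf.pow 2).intervalIntegrable _ _
    · exact (continuous_const.mul hf).intervalIntegrable _ _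
    · exact ((hf.pow 2).sub (continuous_const.mul hf)).intervalIntegrable _ _
    · exact continuous_const.intervalIntegrable _ _
  rw [h2] at h1
  rw [← hJ]
  have h3 : J ^ 2 / h ≤ ∫ u in a..(a + h), f u ^ 2 := by linarith
  rw [div_le_iff₀ hh] at h3
  linarith

private theorem Step3_fub {f : ℝ → ℝ} (hf : Continuous f) (h0 : ∀ u, 0 ≤ f u) {T h : ℝ}
    (hh : 0 < h) (hhT : h ≤ T) :
    ∫ t in T..(2 * T), ∫ u in t..(t + h), f u ≤ h * ∫ u in T..(3 * T), f u := by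
  have hi : ∀ a b : ℝ, IntervalIntegrable f volume a b := fun a b => hf.intervalIntegrable a b
  obtain ⟨Φ, hΦ⟩ : ∃ Φ : ℝ → ℝ, Φ = fun x => ∫ u in T..x, f u := ⟨_, rfl⟩
  have hΦc : Continuous Φ := by rw [hΦ]; exact intervalIntegral.continuous_primitive hi T
  have hIΦ : ∀ a b : ℝ, IntervalIntegrable Φ volume a b := fun a b => hΦc.intervalIntegrable a b
  have hΦ0 : ∀ x, T ≤ x → 0 ≤ Φ x := by
    intro x hx
    rw [hΦ]
    exact intervalIntegral.integral_nonneg hx fun u _ => h0 u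
  have hΦm : ∀ x, x ≤ 3 * T → Φ x ≤ Φ (3 * T) := by
    intro x hx
    have h1 : Φ (3 * T) - Φ x = ∫ u in x..(3 * T), f u := by
      rw [hΦ]
      exact intervalIntegral.integral_interval_sub_left (hi _ _) (hi _ _)
    have h2 : 0 ≤ ∫ u in x..(3 * T), f u := intervalIntegral.integral_nonneg hx fun u _ => h0 u
    linarith
  have h1 : ∀ t, ∫ u in t..(t + h), f u = Φ (t + h) - Φ t := by
    intro t
    rw [hΦ]
    exact (intervalIntegral.integral_interval_sub_left (hi _ _) (hi _ _)).symm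
  simp only [h1]
  have h6 : IntervalIntegrable (fun t => Φ (t + h)) volume T (2 * T) :=
    (hΦc.comp (continuous_id.add continuous_const)).intervalIntegrable _ _
  rw [intervalIntegral.integral_sub h6 (hIΦ _ _), intervalIntegral.integral_comp_add_right (fun x => Φ x),
    intervalIntegral.integral_interval_sub_interval_comm (hIΦ _ _) (hIΦ _ _) (hIΦ _ _)]
  have h2 : 0 ≤ ∫ x in T..(T + h), Φ x :=
    intervalIntegral.integral_nonneg (by linarith) fun x hx => hΦ0 x hx.1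
  have h3 : ∫ x in (2 * T)..(2 * T + h), Φ x ≤ ∫ x in (2 * T)..(2 * T + h), Φ (3 * T) := by
    refine intervalIntegral.integral_mono_on (by linarith) (hIΦ _ _)
      (continuous_const.intervalIntegrable _ _) fun x hx => hΦm x ?_
    have := hx.2
    linarith
  rw [intervalIntegral.integral_const, smul_eq_mul] at h3
  rw [intervalIntegral.integral_symm T (T + h), intervalIntegral.integral_symm (2 * T) (2 * T + h)]
  have h4 : Φ (3 * T) = ∫ u in T..(3 * T), f u := by rw [hΦ]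
  rw [← h4]
  have h5 : (2 * T + h - 2 * T) * Φ (3 * T) = h * Φ (3 * T) := by ring
  linarith

theorem step3b (k : ℝ) (p0 : ℕ) : ∃ C0 C3 : ℝ, 0 < C3 ∧ ∀ c θ : ℝ, 0 < c → 0 < θ → ∃ T0 : ℝ,
    ∀ (S : Sys) (C : ℝ), S.k = k → S.p0 = p0 → S.θ = θ → Good S C c → C0 ≤ C → T0 ≤ S.T →
    ∫ t in S.T..(2 * S.T), S.Jf t ^ 2 ≤ C3 / S.θ * S.h ^ 2 * S.T * S.Lam := by
  obtain ⟨C0, C1, hC1, hBF⟩ := BF_V_le k p0
  obtain ⟨Ch, hCh, hf⟩ := hfun
  refine ⟨C0, Ch * (2 * C1 + 1), by positivity, ?_⟩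
  intro c θ hc hθ
  by_cases hθ2 : θ ≤ 1 / 100
  swap
  · refine ⟨0, fun S C _ _ hSθ hS => ?_⟩
    exact absurd (hSθ ▸ hS.θ_le) hθ2
  have hA1 : (1 : ℝ) ≤ 1 / θ ^ 3 := by
    rw [le_div_iff₀ (by positivity)]
    have := pow_le_one₀ (n := 3) hθ.le (hθ2.trans (by norm_num))
    linarith
  obtain ⟨T1, hT12, hT1⟩ := hf θ (1 / θ ^ 3) hθ (hθ2.trans (by norm_num)) hA1
  refine ⟨max T1 ((1 / c) ^ 10), ?_⟩
  intro S C hSk hSp hSθ hS hC hT
  have hTT1 : T1 ≤ S.T := (le_max_left _ _).trans hT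
  have hTE : (1 / c) ^ 10 ≤ S.T := (le_max_right _ _).trans hT
  have hT2 : 2 ≤ S.T := hT12.trans hTT1
  have hT0 : 0 < S.T := by linarith
  obtain ⟨hh0, hh1⟩ := Step3_h hS
  have hLam := Step3_Lam hS
  have hLam0 : 0 < S.Lam := lt_of_lt_of_le hc hLam
  have hvc := Step3_vf_cont hS
  obtain ⟨f, hfd⟩ : ∃ f : ℝ → ℝ, f = fun u : ℝ => ‖riemannZeta (1 / 2 + u * I)‖ * S.vf u := ⟨_, rfl⟩
  have hfc : Continuous f := by
    rw [hfd]
    exact Step3_zeta_cont.norm.mul hvc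
  have hJf : ∀ t, S.Jf t = ∫ u in t..(t + S.h), f u := by
    intro t
    rw [hfd]
    rfl
  have hJc : Continuous S.Jf := Step3_win (Step3_zeta_cont.norm.mul hvc) S.h
  have step1 : ∫ t in S.T..(2 * S.T), S.Jf t ^ 2 ≤ S.h * (S.h * ∫ u in S.T..(3 * S.T), f u ^ 2) := by
    calc ∫ t in S.T..(2 * S.T), S.Jf t ^ 2
        ≤ ∫ t in S.T..(2 * S.T), S.h * ∫ u in t..(t + S.h), f u ^ 2 := by
          refine intervalIntegral.integral_mono_on (by linarith)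
            ((hJc.pow 2).intervalIntegrable _ _)
            ((continuous_const.mul (Step3_win (hfc.pow 2) S.h)).intervalIntegrable _ _) ?_
          intro t _
          rw [hJf]
          exact Step3_CS hfc hh0
      _ = S.h * ∫ t in S.T..(2 * S.T), ∫ u in t..(t + S.h), f u ^ 2 := by
          rw [intervalIntegral.integral_const_mul]
      _ ≤ _ := by
          apply mul_le_mul_of_nonneg_left _ hh0.le
          exact Step3_fub (hfc.pow 2) (fun u => sq_nonneg _) hh0 (by linarith)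
  have hM : S.M = Mof θ S.T := by
    unfold Sys.M
    rw [hSθ]
  have hdp : IsDP (Nat.smoothNumbers (Mof θ S.T)) (S.T ^ (1 / 100 : ℝ)) (S.T ^ (1 / 250 : ℝ)) S.V := by
    rw [← hM]
    exact (len_V hS).mono (le_refl _)
      (Real.rpow_le_rpow_of_exponent_le (by linarith) (by norm_num)) le_rfl
  have hlog : 0 ≤ Real.log S.T := Real.log_nonneg (by linarith)
  have h1 := hT1 S.T 0 0 S.V hTT1 (by rw [abs_zero]; positivity) (by rw [abs_zero]; positivity) hdp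
  have hbf0 : BF S.M S.V (1 / 2) 0 ≤ C1 * S.Lam := by
    have h2 := hBF S C c 0 hSk hSp hS hC le_rfl (by
      have h3 := Step3_L hS
      have h4 := hS.θ_pos
      positivity)
    simpa using h2
  simp only [Complex.ofReal_zero, add_zero, sub_zero, abs_zero, zero_mul, mul_zero, Real.exp_zero,
    mul_one, neg_zero] at h1
  rw [← hM] at h1
  have hT10 : S.T ^ (9 / 10 : ℝ) ≤ S.T * S.Lam := by
    have e1 : (1 / c) ≤ S.T ^ (1 / 10 : ℝ) := by
      have h2 : (1 / c) = ((1 / c) ^ 10) ^ (1 / 10 : ℝ) := by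
        rw [← Real.rpow_natCast, ← Real.rpow_mul (by positivity)]
        norm_num
      rw [h2]
      exact Real.rpow_le_rpow (by positivity) hTE (by norm_num)
    have e2 : 1 ≤ S.T ^ (1 / 10 : ℝ) * c := by
      rw [div_le_iff₀ hc] at e1
      exact e1
    have e3 : S.T ^ (9 / 10 : ℝ) * S.T ^ (1 / 10 : ℝ) = S.T := by
      rw [← Real.rpow_add hT0]
      norm_num
    calc S.T ^ (9 / 10 : ℝ) = S.T ^ (9 / 10 : ℝ) * 1 := (mul_one _).symm
      _ ≤ S.T ^ (9 / 10 : ℝ) * (S.T ^ (1 / 10 : ℝ) * c) := mul_le_mul_of_nonneg_left e2 (by positivity)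
      _ = S.T * c := by rw [← mul_assoc, e3]
      _ ≤ _ := mul_le_mul_of_nonneg_left hLam hT0.le
  obtain ⟨B, hB⟩ : ∃ B : ℝ, B = Ch / θ * ((2 * C1 + 1) * S.T * S.Lam) := ⟨_, rfl⟩
  have hB0 : 0 ≤ B := by
    rw [hB]
    positivity
  have hle : Ch / θ * (S.T * (BF S.M S.V (1 / 2) 0 + BF S.M S.V (1 / 2) 0) + S.T ^ (9 / 10 : ℝ)) ≤ B := by
    rw [hB]
    apply mul_le_mul_of_nonneg_left _ (by positivity)
    have h2 : S.T * (BF S.M S.V (1 / 2) 0 + BF S.M S.V (1 / 2) 0) ≤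
        S.T * (C1 * S.Lam + C1 * S.Lam) :=
      mul_le_mul_of_nonneg_left (add_le_add hbf0 hbf0) hT0.le
    calc S.T * (BF S.M S.V (1 / 2) 0 + BF S.M S.V (1 / 2) 0) + S.T ^ (9 / 10 : ℝ)
        ≤ S.T * (C1 * S.Lam + C1 * S.Lam) + S.T * S.Lam := add_le_add h2 hT10
      _ = _ := by ring
  have h2 : ∫⁻ t in Set.Icc S.T (3 * S.T), ENNReal.ofReal (f t ^ 2) ≤ ENNReal.ofReal B := by
    have e1 : ∀ t, f t ^ 2 = ‖riemannZeta (1 / 2 + t * I)‖ ^ 2 * ‖S.V (nC (1 / 2 + t * I))‖ ^ 4 := by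
      intro t
      rw [hfd]
      unfold Sys.vf
      ring
    simp only [e1]
    exact h1.trans (ENNReal.ofReal_le_ofReal hle)
  have h3 : ∫ t in Set.Icc S.T (3 * S.T), f t ^ 2 ≤ B :=
    Step3_lint (hfc.pow 2) (fun t => sq_nonneg _) hB0 _ (le_refl _) h2
  have h4 : ∫ u in S.T..(3 * S.T), f u ^ 2 = ∫ t in Set.Icc S.T (3 * S.T), f t ^ 2 := by
    rw [integral_Icc_eq_integral_Ioc, intervalIntegral.integral_of_le (by linarith)]
  refine step1.trans ?_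
  rw [h4]
  calc S.h * (S.h * ∫ t in Set.Icc S.T (3 * S.T), f t ^ 2) ≤ S.h * (S.h * B) :=
        mul_le_mul_of_nonneg_left (mul_le_mul_of_nonneg_left h3 hh0.le) hh0.le
    _ = Ch * (2 * C1 + 1) / S.θ * S.h ^ 2 * S.T * S.Lam := by
        rw [hB, hSθ]
        ring

end Pool.Agent.GH
end
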