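import Pool.Agent.Lib.MP_69b2e4_nt.GH.Defs
import Pool.Agent.Lib.MP_514065_nt.R3F.P_E6
import Pool.Agent.Lib.MP_bae66e_nt.AP3.Mert

section

/-! Facts about primes from the library. -/

set_option autoImplicit false

namespace Pool.Agent.GH

open Complex MeasureTheory Finset
open scoped Real ComplexConjugate

theorem mertens_inv : ∃ C : ℝ, 0 ≤ C ∧ ∀ y z : ℕ, 2 ≤ y → y ≤ z →
    |∑ p ∈ (Finset.Ioc y z).filter Nat.Prime, 1 / (p : ℝ) - Real.log (Real.log z / Real.log y)| ≤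
      C / Real.log y := by
  obtain ⟨C, h0, h⟩ := Lib.MP_bae66e_nt.AP3.exists_sum_inv_le
  exact ⟨C, h0, h⟩

theorem mertens_log : ∃ C : ℝ, 0 ≤ C ∧ ∀ y z : ℕ, 1 ≤ y → y ≤ z →
    |∑ p ∈ (Finset.Ioc y z).filter Nat.Prime, Real.log p / p - (Real.log z - Real.log y)| ≤ C := by
  obtain ⟨C, h0, h⟩ := Lib.MP_bae66e_nt.AP3.exists_mertens
  exact ⟨C, h0, h⟩

theorem rough_count : ∃ C : ℝ, 1 ≤ C ∧ ∀ (M : ℕ) (x : ℝ) (F : Finset ℕ), 2 ≤ M → (M : ℝ) ≤ x →
    (∀ t ∈ F, (t : ℝ) ≤ x ∧ Rough M t) → (F.card : ℝ) ≤ C * x / Real.log M := by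
  obtain ⟨C, hC1, hC⟩ := Lib.MP_514065_nt.R3.P_E6.rough_count
  refine ⟨2 * C + 1, by linarith, ?_⟩
  intro M x F hM hMx hF
  have hM2 : (2 : ℝ) ≤ M := by exact_mod_cast hM
  have hx : 0 < x := by linarith
  have hlM : 0 < Real.log M := Real.log_pos (by linarith)
  have hpos : ∀ t ∈ F, 0 < t := fun t ht => Nat.pos_of_ne_zero (hF t ht).2.1
  rcases Nat.lt_or_ge M 3 with h3 | h3
  · have hMe : M = 2 := by omega
    have hcard : (F.card : ℝ) ≤ x := by
      have h1 : F ⊆ Finset.Icc 1 ⌊x⌋₊ := by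
        intro t ht
        rw [Finset.mem_Icc]
        exact ⟨hpos t ht, Nat.le_floor (hF t ht).1⟩
      have h2 := Finset.card_le_card h1
      rw [Nat.card_Icc] at h2
      have h4 : F.card ≤ ⌊x⌋₊ := by omega
      calc (F.card : ℝ) ≤ (⌊x⌋₊ : ℝ) := by exact_mod_cast h4
        _ ≤ x := Nat.floor_le hx.le
    have hl1 : Real.log M ≤ 1 := by
      rw [hMe]
      have := Real.log_two_lt_d9
      push_cast
      linarith
    rw [le_div_iff₀ hlM]
    nlinarith [mul_nonneg hx.le (sub_nonneg.mpr hl1), mul_nonneg hx.le (sub_nonneg.mpr hC1),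
      mul_le_mul_of_nonneg_right hcard hlM.le]
  · have h1 := hC (M - 1) x F (by omega) (by
      have : ((M - 1 : ℕ) : ℝ) ≤ (M : ℝ) := by exact_mod_cast Nat.sub_le M 1
      linarith) (by
      intro t ht
      refine ⟨hpos t ht, (hF t ht).1, ?_⟩
      intro p hp hpt
      have := (hF t ht).2.2 p hp hpt
      omega)
    have h2 : Real.log M ≤ 2 * Real.log ((M - 1 : ℕ) : ℝ) := by
      have h4 : (M : ℝ) ≤ (((M - 1 : ℕ) : ℝ)) ^ 2 := by
        have h5 : M ≤ (M - 1) ^ 2 := by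
          obtain ⟨m, rfl⟩ : ∃ m, M = m + 3 := ⟨M - 3, by omega⟩
          simp only [Nat.add_sub_cancel_right, show m + 3 - 1 = m + 2 by omega]
          nlinarith
        exact_mod_cast h5
      calc Real.log M ≤ Real.log ((((M - 1 : ℕ) : ℝ)) ^ 2) := Real.log_le_log (by linarith) h4
        _ = 2 * Real.log ((M - 1 : ℕ) : ℝ) := by rw [Real.log_pow]; push_cast; ring
    have h6 : 0 < Real.log ((M - 1 : ℕ) : ℝ) := by linarith
    calc (F.card : ℝ) ≤ C * x / Real.log ((M - 1 : ℕ) : ℝ) := h1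
      _ ≤ (2 * C + 1) * x / Real.log M := by
          rw [div_le_div_iff₀ h6 hlM]
          nlinarith [mul_nonneg (by linarith : 0 ≤ C) hx.le, mul_pos hx hlM,
            mul_nonneg (mul_nonneg (by linarith : (0:ℝ) ≤ C) hx.le) (sub_nonneg.mpr h2), mul_pos hx h6]

end Pool.Agent.GH
end

section

set_option autoImplicit false

namespace Pool.Agent.GH

open Complex MeasureTheory Finset
open scoped Real ComplexConjugate

theorem rough_block : ∃ C : ℝ, 1 ≤ C ∧ ∀ (M : ℕ) (x : ℝ) (F : Finset ℕ), 2 ≤ M → 0 < x →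
    (∀ r ∈ F, x < (r : ℝ) ∧ (r : ℝ) ≤ Real.exp 1 * x ∧ r ≠ 1 ∧ Rough M r) →
    ∑ r ∈ F, 1 / (r : ℝ) ≤ C / Real.log M := by
  obtain ⟨C, hC1, hC⟩ := rough_count
  have he : (1 : ℝ) ≤ Real.exp 1 := Real.one_le_exp (by norm_num)
  refine ⟨C * Real.exp 1, by nlinarith, ?_⟩
  intro M x F hM hx hF
  have hlM : 0 < Real.log M := Real.log_pos (by exact_mod_cast (by omega : 1 < M))
  rcases F.eq_empty_or_nonempty with rfl | ⟨r0, hr0⟩
  · simp only [Finset.sum_empty]; positivity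
  have hMx : (M : ℝ) ≤ Real.exp 1 * x := by
    obtain ⟨h1, h2, h3, h4, h5⟩ := hF r0 hr0
    obtain ⟨p, hp, hpr⟩ := Nat.exists_prime_and_dvd h3
    have h6 := h5 p hp hpr
    have h7 := Nat.le_of_dvd (Nat.pos_of_ne_zero h4) hpr
    have h8 : (M : ℝ) ≤ (r0 : ℝ) := by exact_mod_cast h6.trans h7
    linarith
  have hcard := hC M (Real.exp 1 * x) F hM hMx (fun t ht => ⟨(hF t ht).2.1, (hF t ht).2.2.2⟩)
  calc ∑ r ∈ F, 1 / (r : ℝ) ≤ ∑ r ∈ F, 1 / x := by
        refine Finset.sum_le_sum fun r hr => ?_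
        exact one_div_le_one_div_of_le hx (hF r hr).1.le
    _ = F.card * (1 / x) := by rw [Finset.sum_const, nsmul_eq_mul]
    _ ≤ (C * (Real.exp 1 * x) / Real.log M) * (1 / x) := by
        exact mul_le_mul_of_nonneg_right hcard (by positivity)
    _ = C * Real.exp 1 / Real.log M := by field_simp

theorem rough_window : ∃ C : ℝ, 1 ≤ C ∧ ∀ (M : ℕ) (y z : ℝ) (F : Finset ℕ), 2 ≤ M → 0 < y → y ≤ z →
    (∀ r ∈ F, y ≤ (r : ℝ) ∧ (r : ℝ) ≤ z ∧ Rough M r) →
    ∑ r ∈ F, 1 / (r : ℝ) ≤ 1 + C * (Real.log (z / y) + 2) / Real.log M := by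
  obtain ⟨C, hC1, hC⟩ := rough_block
  refine ⟨C, hC1, ?_⟩
  intro M y z F hM hy hyz hF
  have hlM : 0 < Real.log M := Real.log_pos (by exact_mod_cast (by omega : 1 < M))
  have hlz : 0 ≤ Real.log (z / y) := Real.log_nonneg (by rw [le_div_iff₀ hy]; linarith)
  set N : ℕ := ⌈Real.log (z / y)⌉₊ with hN
  have hN1 : (N : ℝ) < Real.log (z / y) + 1 := Nat.ceil_lt_add_one hlz
  set G : Finset ℕ := F.filter (fun r => r ≠ 1) with hG
  have hsplit : ∑ r ∈ F, 1 / (r : ℝ) ≤ 1 + ∑ r ∈ G, 1 / (r : ℝ) := by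
    rw [← Finset.sum_filter_add_sum_filter_not F (fun r => r = 1)]
    have h1 : ∑ r ∈ F.filter (fun r => r = 1), 1 / (r : ℝ) ≤ 1 := by
      calc ∑ r ∈ F.filter (fun r => r = 1), 1 / (r : ℝ) ≤ ∑ r ∈ ({1} : Finset ℕ), 1 / (r : ℝ) := by
            refine Finset.sum_le_sum_of_subset_of_nonneg ?_ ?_
            · intro r hr
              rw [Finset.mem_filter] at hr
              rw [Finset.mem_singleton]; exact hr.2
            · intro r _ _; positivity
        _ = 1 := by simp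
    exact add_le_add h1 (le_refl _)
  refine hsplit.trans ?_
  have hmap : ∀ r ∈ G, ⌈Real.log ((r : ℝ) / y)⌉₊ ∈ Finset.range (N + 1) := by
    intro r hr
    rw [hG, Finset.mem_filter] at hr
    obtain ⟨h1, h2, h3⟩ := hF r hr.1
    rw [Finset.mem_range]
    refine Nat.lt_succ_of_le (Nat.ceil_le_ceil ?_)
    refine Real.log_le_log (div_pos (lt_of_lt_of_le hy h1) hy) ?_
    gcongr
  rw [← Finset.sum_fiberwise_of_maps_to hmap]
  have hblock : ∀ i ∈ Finset.range (N + 1),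
      ∑ r ∈ G.filter (fun r : ℕ => ⌈Real.log ((r : ℝ) / y)⌉₊ = i), 1 / (r : ℝ) ≤ C / Real.log M := by
    intro i _
    refine hC M (y * Real.exp ((i : ℝ) - 1)) _ hM (by positivity) ?_
    intro r hr
    rw [Finset.mem_filter, hG, Finset.mem_filter] at hr
    obtain ⟨⟨hrF, hr1⟩, hri⟩ := hr
    obtain ⟨h1, h2, h3⟩ := hF r hrF
    have hr0 : 0 < (r : ℝ) := lt_of_lt_of_le hy h1
    have hl : 0 ≤ Real.log ((r : ℝ) / y) := Real.log_nonneg (by rw [le_div_iff₀ hy]; linarith)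
    have h5 : (i : ℝ) < Real.log ((r : ℝ) / y) + 1 := by
      rw [← hri]; exact Nat.ceil_lt_add_one hl
    have h6 : Real.log ((r : ℝ) / y) ≤ i := by
      rw [← hri]; exact Nat.le_ceil _
    have h7 : Real.exp (Real.log ((r : ℝ) / y)) = (r : ℝ) / y := Real.exp_log (div_pos hr0 hy)
    refine ⟨?_, ?_, hr1, h3⟩
    · have h8 : Real.exp ((i : ℝ) - 1) < (r : ℝ) / y := by
        rw [← h7]; exact Real.exp_lt_exp.mpr (by linarith)
      rw [lt_div_iff₀ hy] at h8
      linarith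
    · have h8 : (r : ℝ) / y ≤ Real.exp i := by
        rw [← h7]; exact Real.exp_le_exp.mpr h6
      rw [div_le_iff₀ hy] at h8
      have h9 : Real.exp 1 * (y * Real.exp ((i : ℝ) - 1)) = Real.exp i * y := by
        have : Real.exp (i : ℝ) = Real.exp 1 * Real.exp ((i : ℝ) - 1) := by
          rw [← Real.exp_add]; congr 1; ring
        rw [this]; ring
      rw [h9]; exact h8
  have hsum := Finset.sum_le_sum hblock
  rw [Finset.sum_const, Finset.card_range, nsmul_eq_mul] at hsum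
  have h10 : ((N + 1 : ℕ) : ℝ) * (C / Real.log M) ≤ C * (Real.log (z / y) + 2) / Real.log M := by
    have h11 : ((N + 1 : ℕ) : ℝ) ≤ Real.log (z / y) + 2 := by push_cast; linarith
    calc ((N + 1 : ℕ) : ℝ) * (C / Real.log M) ≤ (Real.log (z / y) + 2) * (C / Real.log M) := by
          exact mul_le_mul_of_nonneg_right h11 (by positivity)
      _ = C * (Real.log (z / y) + 2) / Real.log M := by ring
  linarith

end Pool.Agent.GH
end
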