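import Pool.Agent.Lib.MP_69b2e4_nt.GH.Sys
import Pool.Agent.Lib.MP_69b2e4_nt.Mg.G037

section

/-! Cauchy-Schwarz on bounded sets. -/

set_option autoImplicit false

namespace Pool.Agent.GH

open Complex MeasureTheory Finset
open scoped Real ComplexConjugate

theorem integrableOn_cont {a b : ℝ} {E : Set ℝ} (hE : E ⊆ Set.Icc a b) {f : ℝ → ℝ}
    (cf : Continuous f) : IntegrableOn f E :=
  (cf.continuousOn.integrableOn_compact isCompact_Icc).mono_set hE

theorem memLp_cont {a b : ℝ} {E : Set ℝ} (hEm : MeasurableSet E) (hE : E ⊆ Set.Icc a b) {f : ℝ → ℝ}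
    (cf : Continuous f) (p : ENNReal) : MemLp f p (volume.restrict E) := by
  obtain ⟨C, hC⟩ := isCompact_Icc.exists_bound_of_continuousOn (cf.continuousOn (s := Set.Icc a b))
  have : IsFiniteMeasure (volume.restrict E) := by
    refine ⟨?_⟩
    rw [Measure.restrict_apply_univ]
    exact (measure_mono hE).trans_lt measure_Icc_lt_top
  refine MemLp.of_bound cf.aestronglyMeasurable C ?_
  exact ae_restrict_of_forall_mem hEm fun t ht => hC t (hE ht)

theorem cs_set {a b : ℝ} {E : Set ℝ} (hEm : MeasurableSet E) (hE : E ⊆ Set.Icc a b) {f g : ℝ → ℝ}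
    (cf : Continuous f) (cg : Continuous g) (hf : ∀ t, 0 ≤ f t) (hg : ∀ t, 0 ≤ g t) :
    ∫ t in E, f t * g t ≤ (∫ t in E, f t ^ 2) ^ (1 / 2 : ℝ) * (∫ t in E, g t ^ 2) ^ (1 / 2 : ℝ) := by
  have h := integral_mul_le_Lp_mul_Lq_of_nonneg (μ := volume.restrict E) (f := f) (g := g)
    Real.HolderConjugate.two_two (Filter.Eventually.of_forall hf) (Filter.Eventually.of_forall hg)
    (memLp_cont hEm hE cf _) (memLp_cont hEm hE cg _)
  simpa using h

end Pool.Agent.GH
end

section

/-! TASK Hoelder3. The three-function Hoelder inequality.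
Pointwise on `E`: `κ^{k/(2k+2)} J = (m^{-k})^{1/(2k+2)} (m κ)^{k/(2k+2)} (J²)^{1/2}` (`m > 0`), and the exponents `1/(2k+2) + k/(2k+2) + 1/2 = 1`. Use Hoelder twice
(`MeasureTheory.integral_mul_le_Lp_mul_Lq_of_nonneg`; first with exponents 2, 2: `∫ κ^{k/(2k+2)} J ≤ (∫ κ^{k/(k+1)})^{1/2} (∫ J²)^{1/2}`, then with `k+1` and `(k+1)/k`:
`∫ κ^{k/(k+1)} = ∫ m^{-k/(k+1)} (mκ)^{k/(k+1)} ≤ (∫ m^{-k})^{1/(k+1)} (∫ mκ)^{k/(k+1)}`). All functions are bounded and measurable on the bounded set `E` (`m^{-k} ≤ δ^{-k}`), so they are in every `L^p`. -/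

set_option autoImplicit false

namespace Pool.Agent.GH

open Complex MeasureTheory Finset
open scoped Real ComplexConjugate

private theorem memLp_aux {a b : ℝ} {E : Set ℝ} (hE : MeasurableSet E) (hEs : E ⊆ Set.Icc a b)
    {f : ℝ → ℝ} (hf : Measurable f) {C : ℝ} (hC : ∀ t ∈ E, |f t| ≤ C) (p : ENNReal) :
    MemLp f p (volume.restrict E) := by
  have : IsFiniteMeasure (volume.restrict E) := by
    refine ⟨?_⟩
    rw [Measure.restrict_apply_univ]
    exact lt_of_le_of_lt (measure_mono hEs) (by simp)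
  refine MemLp.of_bound hf.aestronglyMeasurable C ?_
  rw [ae_restrict_iff' hE]
  exact Filter.Eventually.of_forall fun t ht => by simpa using hC t ht

private theorem bdd_aux {a b : ℝ} {E : Set ℝ} (hEs : E ⊆ Set.Icc a b) {f : ℝ → ℝ}
    (cf : Continuous f) : ∃ C : ℝ, 0 ≤ C ∧ ∀ t ∈ E, |f t| ≤ C := by
  obtain ⟨C, hC⟩ := (isCompact_Icc (a := a) (b := b)).exists_bound_of_continuousOn cf.continuousOn
  refine ⟨max C 0, le_max_right _ _, fun t ht => ?_⟩
  have := hC t (hEs ht)
  rw [Real.norm_eq_abs] at this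
  exact this.trans (le_max_left _ _)

theorem hoelder3 {a b k : ℝ} (hk : 0 < k) {E : Set ℝ} (hE : MeasurableSet E) (hEs : E ⊆ Set.Icc a b)
    {m κ J : ℝ → ℝ} (cm : Continuous m) (cκ : Continuous κ) (cJ : Continuous J)
    (hκ : ∀ t, 0 ≤ κ t) (hJ : ∀ t, 0 ≤ J t) (hm : ∃ δ : ℝ, 0 < δ ∧ ∀ t ∈ E, δ ≤ m t) :
    ∫ t in E, κ t ^ (k / (2 * k + 2)) * J t ≤
      (∫ t in E, m t ^ (-k)) ^ (1 / (2 * k + 2)) * (∫ t in E, m t * κ t) ^ (k / (2 * k + 2)) *
        (∫ t in E, J t ^ 2) ^ (1 / 2 : ℝ) := by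
  obtain ⟨δ, hδ, hmδ⟩ := hm
  obtain ⟨Cκ, hCκ0, hCκ⟩ := bdd_aux hEs cκ
  obtain ⟨CJ, hCJ0, hCJ⟩ := bdd_aux hEs cJ
  obtain ⟨Cm, hCm0, hCm⟩ := bdd_aux hEs cm
  have hk1 : 0 < k + 1 := by linarith
  have hmpos : ∀ t ∈ E, 0 < m t := fun t ht => lt_of_lt_of_le hδ (hmδ t ht)
  -- first Hoelder
  have h22 : (2 : ℝ).HolderConjugate 2 := by
    rw [Real.holderConjugate_iff]
    norm_num
  have e1 : 0 ≤ k / (2 * k + 2) := by positivity
  have H1 : ∫ t in E, κ t ^ (k / (2 * k + 2)) * J t ≤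
      (∫ t in E, (κ t ^ (k / (2 * k + 2))) ^ (2 : ℝ)) ^ (1 / (2 : ℝ)) *
        (∫ t in E, J t ^ (2 : ℝ)) ^ (1 / (2 : ℝ)) := by
    apply integral_mul_le_Lp_mul_Lq_of_nonneg h22
    · exact Filter.Eventually.of_forall fun t => Real.rpow_nonneg (hκ t) _
    · exact Filter.Eventually.of_forall fun t => hJ t
    · refine memLp_aux hE hEs (cκ.measurable.pow_const _) (C := Cκ ^ (k / (2 * k + 2))) ?_ _
      intro t ht
      rw [abs_of_nonneg (Real.rpow_nonneg (hκ t) _)]
      exact Real.rpow_le_rpow (hκ t) ((le_abs_self _).trans (hCκ t ht)) e1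
    · exact memLp_aux hE hEs cJ.measurable (C := CJ) hCJ _
  have hq : (k + 1).HolderConjugate ((k + 1) / k) := by
    rw [Real.holderConjugate_iff]
    refine ⟨by linarith, ?_⟩
    field_simp
    ring
  have e2 : 0 ≤ k / (k + 1) := by positivity
  have H2 : ∫ t in E, m t ^ (-(k / (k + 1))) * (m t * κ t) ^ (k / (k + 1)) ≤
      (∫ t in E, (m t ^ (-(k / (k + 1)))) ^ (k + 1)) ^ (1 / (k + 1)) *
        (∫ t in E, ((m t * κ t) ^ (k / (k + 1))) ^ ((k + 1) / k)) ^ (1 / ((k + 1) / k)) := by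
    apply integral_mul_le_Lp_mul_Lq_of_nonneg hq
    · rw [Filter.EventuallyLE, ae_restrict_iff' hE]
      exact Filter.Eventually.of_forall fun t ht => Real.rpow_nonneg (hmpos t ht).le _
    · rw [Filter.EventuallyLE, ae_restrict_iff' hE]
      exact Filter.Eventually.of_forall fun t ht =>
        Real.rpow_nonneg (mul_nonneg (hmpos t ht).le (hκ t)) _
    · refine memLp_aux hE hEs (cm.measurable.pow_const _) (C := δ ^ (-(k / (k + 1)))) ?_ _
      intro t ht
      rw [abs_of_nonneg (Real.rpow_nonneg (hmpos t ht).le _)]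
      exact Real.rpow_le_rpow_of_nonpos hδ (hmδ t ht) (by linarith)
    · refine memLp_aux hE hEs ((cm.mul cκ).measurable.pow_const _)
        (C := (Cm * Cκ) ^ (k / (k + 1))) ?_ _
      intro t ht
      have h0 : 0 ≤ m t * κ t := mul_nonneg (hmpos t ht).le (hκ t)
      change |(m t * κ t) ^ (k / (k + 1))| ≤ _
      rw [abs_of_nonneg (Real.rpow_nonneg h0 _)]
      refine Real.rpow_le_rpow h0 ?_ e2
      exact mul_le_mul ((le_abs_self _).trans (hCm t ht)) ((le_abs_self _).trans (hCκ t ht))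
        (hκ t) hCm0
  -- rewrite the integrands
  have I1 : ∫ t in E, (κ t ^ (k / (2 * k + 2))) ^ (2 : ℝ) =
      ∫ t in E, m t ^ (-(k / (k + 1))) * (m t * κ t) ^ (k / (k + 1)) := by
    refine setIntegral_congr_fun hE fun t ht => ?_
    have hmt := hmpos t ht
    rw [← Real.rpow_mul (hκ t), Real.mul_rpow hmt.le (hκ t), ← mul_assoc, ← Real.rpow_add hmt]
    have : -(k / (k + 1)) + k / (k + 1) = 0 := by ring
    rw [this, Real.rpow_zero, one_mul]
    congr 1
    field_simp
  have I2 : ∫ t in E, (m t ^ (-(k / (k + 1)))) ^ (k + 1) = ∫ t in E, m t ^ (-k) := by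
    refine setIntegral_congr_fun hE fun t ht => ?_
    have hmt := hmpos t ht
    rw [← Real.rpow_mul hmt.le]
    congr 1
    field_simp
  have I3 : ∫ t in E, ((m t * κ t) ^ (k / (k + 1))) ^ ((k + 1) / k) = ∫ t in E, m t * κ t := by
    refine setIntegral_congr_fun hE fun t ht => ?_
    have h0 : 0 ≤ m t * κ t := mul_nonneg (hmpos t ht).le (hκ t)
    rw [← Real.rpow_mul h0]
    have : k / (k + 1) * ((k + 1) / k) = 1 := by field_simp
    rw [this, Real.rpow_one]
  have I4 : ∫ t in E, J t ^ (2 : ℝ) = ∫ t in E, J t ^ 2 := by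
    refine setIntegral_congr_fun hE fun t _ => ?_
    exact Real.rpow_two _
  have n1 : 0 ≤ ∫ t in E, m t ^ (-k) :=
    setIntegral_nonneg hE fun t ht => Real.rpow_nonneg (hmpos t ht).le _
  have n2 : 0 ≤ ∫ t in E, m t * κ t :=
    setIntegral_nonneg hE fun t ht => mul_nonneg (hmpos t ht).le (hκ t)
  have n3 : 0 ≤ ∫ t in E, J t ^ 2 := setIntegral_nonneg hE fun t _ => sq_nonneg _
  have n4 : 0 ≤ ∫ t in E, (κ t ^ (k / (2 * k + 2))) ^ (2 : ℝ) :=
    setIntegral_nonneg hE fun t _ => Real.rpow_nonneg (Real.rpow_nonneg (hκ t) _) _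
  rw [I2, I3] at H2
  refine H1.trans ?_
  rw [I4]
  refine mul_le_mul_of_nonneg_right ?_ (Real.rpow_nonneg n3 _)
  refine (Real.rpow_le_rpow n4 (I1.le.trans H2) (by norm_num)).trans (le_of_eq ?_)
  rw [Real.mul_rpow (Real.rpow_nonneg n1 _) (Real.rpow_nonneg n2 _), ← Real.rpow_mul n1,
    ← Real.rpow_mul n2]
  congr 2
  · field_simp
  · field_simp

end Pool.Agent.GH
end

section

/-! TASK RM3c. Blocks which do not occur in the second polynomial contribute exactly 1.
Proof. `Ex l (-a PX R 0 w)^2` is a polynomial in the variables `X_p` (`p ∈ R`) with constant term 1, and `Zt R (1/2) w` is the sum of the absolutely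
convergent series `∑_{n factored over R} n^{-1/2} X_n` (`EulerProduct.summable_and_hasSum_factoredNumbers_prod_filter_prime_geometric` applied to the
completely multiplicative function `nX 0 w`; `R` consists of primes so the filter is trivial). Expand: the square is a finite sum `∑_m b_m X_m` with
`b_1 = 1` (`m` factored over `R`), so the product is `∑_{n,m} n^{-1/2} b_m X_{nm}` and its expectation is the sum of the terms with `nm = 1`
(`orth` with `n = 1`: `E X_N = 0` for `N ≠ 1`), i.e. `1`. Interchange of sum and integral: dominated by `∑ n^{-1/2} < ∞` (over factored numbers).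
Alternative: induction on `R` with Fubini/`indep_primes` after expanding the finite polynomial into monomials `∏ X_p^{k_p}`:
`E_p (1-uX)^{-1} X^k = 1` if `k = 0` and `0` if `k > 0` (geometric series), so every monomial except the constant one has expectation 0. This is
probably the shortest way: `Ex l (-a PX)^2 = ∑ over multi-indices`. Or use: for `|ζ|`-rotation invariance: the measure `mu` is invariant under
`w ↦ w + t` (the same angle `t` added to all coordinates); the integrand becomes `∑_k e^{2πikt} h_k(w)` with `h_0 = 1`. -/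

set_option autoImplicit false

namespace Pool.Agent.GH

open Complex MeasureTheory Finset
open scoped Real ComplexConjugate

private lemma RM3c_nX (w : Om) {n : ℕ} (hn : n ≠ 0) :
    nX 0 w n = (((n : ℝ) ^ (-(1 / 2 : ℝ)) : ℝ) : ℂ) * XX w n := by
  rw [nX_apply 0 w hn, Complex.ofReal_cpow (Nat.cast_nonneg n)]
  push_cast
  rw [add_zero]

private lemma RM3c_int (R : Finset ℕ) (hR : ∀ p ∈ R, p.Prime) (m : ℕ) (hm : m ≠ 0) :
    ∫ w, Zt R (1 / 2) w * XX w m ∂mu = if m = 1 then 1 else 0 := by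
  classical
  have hlt : ∀ w : Om, ∀ {p : ℕ}, p.Prime → ‖(nX 0 w : ℕ →* ℂ) p‖ < 1 := by
    intro w p hp
    change ‖nX 0 w p‖ < 1
    rw [norm_nX 0 w hp.ne_zero]
    refine rpow_neg_lt_one hp.two_le ?_
    norm_num
  have hE : ∀ w : Om, Summable (fun n : Nat.factoredNumbers R => ‖nX 0 w n‖) ∧
      HasSum (fun n : Nat.factoredNumbers R => nX 0 w n) (Zt R (1 / 2) w) := by
    intro w
    have h := EulerProduct.summable_and_hasSum_factoredNumbers_prod_filter_prime_geometric
      (f := (nX 0 w : ℕ →* ℂ)) (hlt w) R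
    refine ⟨h.1, ?_⟩
    have h2 := h.2
    rw [Finset.filter_true_of_mem hR] at h2
    have h3 : ∏ p ∈ R, (1 - (nX 0 w : ℕ →* ℂ) p)⁻¹ = Zt R (1 / 2) w := by
      unfold Zt
      refine Finset.prod_congr rfl fun p hp => ?_
      change (1 - nX 0 w p)⁻¹ = _
      rw [RM3c_nX w (hR p hp).ne_zero, XX_prime w (hR p hp)]
    rw [h3] at h2
    exact h2
  have hne : ∀ n : Nat.factoredNumbers R, (n : ℕ) ≠ 0 := fun n =>
    Nat.ne_zero_of_mem_factoredNumbers n.2
  have hs := hasSum_integral_of_summable_integral_norm (μ := mu)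
    (F := fun (n : Nat.factoredNumbers R) (w : Om) => nX 0 w n * XX w m)
    (fun n => integrable_of_continuous ((continuous_nX 0 n).mul (continuous_XX m))) (by
      have h1 : (fun n : Nat.factoredNumbers R => ∫ w : Om, ‖nX 0 w n * XX w m‖ ∂mu) =
          fun n : Nat.factoredNumbers R => ‖nX 0 (fun _ => 0) n‖ := by
        funext n
        have h2 : ∀ w : Om, ‖nX 0 w n * XX w m‖ = ‖nX 0 (fun _ => 0) n‖ := by
          intro w
          rw [norm_mul, norm_XX w hm, mul_one, norm_nX 0 w (hne n), norm_nX 0 _ (hne n)]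
        simp_rw [h2]
        simp
      rw [h1]
      exact (hE _).1)
  have h4 : ∀ w : Om, ∑' n : Nat.factoredNumbers R, nX 0 w n * XX w m =
      Zt R (1 / 2) w * XX w m := by
    intro w
    rw [tsum_mul_right, (hE w).2.tsum_eq]
  simp_rw [h4] at hs
  have h5 : ∀ n : Nat.factoredNumbers R, ∫ w, nX 0 w n * XX w m ∂mu =
      if (n : ℕ) * m = 1 then 1 else 0 := by
    intro n
    have h6 : ∀ w : Om, nX 0 w n * XX w m =
        (((n : ℕ) : ℝ) ^ (-(1 / 2 : ℝ)) : ℝ) * (XX w (n * m) * conj (XX w 1)) := by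
      intro w
      rw [RM3c_nX w (hne n), map_mul, map_one, map_one, mul_one, mul_assoc]
    simp_rw [h6]
    rw [integral_const_mul, orth (mul_ne_zero (hne n) hm) one_ne_zero]
    by_cases h7 : (n : ℕ) * m = 1
    · rw [if_pos h7, Nat.eq_one_of_mul_eq_one_right h7]
      simp
    · rw [if_neg h7, mul_zero]
  rw [show (fun n : Nat.factoredNumbers R => ∫ w, nX 0 w n * XX w m ∂mu) =
    fun n : Nat.factoredNumbers R => if (n : ℕ) * m = 1 then (1 : ℂ) else 0 from funext h5] at hs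
  refine hs.unique ?_
  have h1mem : 1 ∈ Nat.factoredNumbers R :=
    Nat.mem_factoredNumbers_of_primeFactors_subset one_ne_zero (by simp)
  by_cases h8 : m = 1
  · subst h8
    have h9 : (fun n : Nat.factoredNumbers R => if (n : ℕ) * 1 = 1 then (1 : ℂ) else 0) =
        fun n => if n = ⟨1, h1mem⟩ then 1 else 0 := by
      funext n
      rw [mul_one]
      by_cases h10 : (n : ℕ) = 1
      · rw [if_pos h10, if_pos (Subtype.ext h10)]
      · rw [if_neg h10, if_neg (fun h => h10 (congrArg Subtype.val h))]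
    rw [h9, if_pos rfl]
    exact hasSum_ite_eq _ _
  · rw [if_neg h8]
    have h9 : (fun n : Nat.factoredNumbers R => if (n : ℕ) * m = 1 then (1 : ℂ) else 0) =
        fun _ => 0 := by
      funext n
      rw [if_neg]
      intro h10
      exact h8 (Nat.eq_one_of_mul_eq_one_left h10)
    rw [h9]
    exact hasSum_zero

private noncomputable def RM3c_V : Submodule ℂ (Om → ℂ) :=
  Submodule.span ℂ {f | ∃ m : ℕ, 1 < m ∧ f = fun w => XX w m}

private lemma RM3c_mul {f g : Om → ℂ} (hf : f ∈ RM3c_V) (hg : g ∈ RM3c_V) :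
    f * g ∈ RM3c_V := by
  have h1 := Submodule.mul_mem_mul hf hg
  unfold RM3c_V at h1
  rw [Submodule.span_mul_span] at h1
  refine (Submodule.span_mono ?_) h1
  rintro _ ⟨_, ⟨m, hm, rfl⟩, _, ⟨n, hn, rfl⟩, rfl⟩
  refine ⟨m * n, by nlinarith, ?_⟩
  funext w
  exact (map_mul (XX w) m n).symm

private lemma RM3c_pow {f : Om → ℂ} (hf : f ∈ RM3c_V) (i : ℕ) : f ^ (i + 1) ∈ RM3c_V := by
  induction i with
  | zero => rw [zero_add, pow_one]; exact hf
  | succ i ih => rw [pow_succ]; exact RM3c_mul ih hf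

private lemma RM3c_Ex {f : Om → ℂ} (hf : f ∈ RM3c_V) (l : ℕ) :
    (fun w => Ex l (f w) - 1) ∈ RM3c_V := by
  have h1 : (fun w => Ex l (f w) - 1) =
      ∑ i ∈ Finset.range l, ((((i + 1).factorial : ℂ))⁻¹) • f ^ (i + 1) := by
    funext w
    unfold Ex
    rw [Finset.sum_range_succ', Finset.sum_apply]
    simp only [pow_zero, Nat.factorial_zero, Nat.cast_one, div_one, add_sub_cancel_right,
      Pi.smul_apply, Pi.pow_apply, smul_eq_mul]
    refine Finset.sum_congr rfl fun i _ => ?_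
    rw [div_eq_inv_mul]
  rw [h1]
  exact Submodule.sum_mem _ fun i _ => Submodule.smul_mem _ _ (RM3c_pow hf i)

private lemma RM3c_zero (R : Finset ℕ) (hR : ∀ p ∈ R, p.Prime) {f : Om → ℂ} (hf : f ∈ RM3c_V) :
    Continuous f ∧ ∫ w, Zt R (1 / 2) w * f w ∂mu = 0 := by
  have hZ : Continuous (Zt R (1 / 2)) := continuous_Zt R hR (by norm_num)
  unfold RM3c_V at hf
  induction hf using Submodule.span_induction with
  | mem x h =>
    obtain ⟨m, hm, rfl⟩ := h
    refine ⟨continuous_XX m, ?_⟩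
    beta_reduce
    rw [RM3c_int R hR m (by omega), if_neg (by omega)]
  | zero =>
    refine ⟨continuous_const, ?_⟩
    simp
  | add x y _ _ hx hy =>
    refine ⟨hx.1.add hy.1, ?_⟩
    simp only [Pi.add_apply, mul_add]
    have h1 : Integrable (fun w => Zt R (1 / 2) w * x w) mu :=
      integrable_of_continuous (hZ.mul hx.1)
    have h2 : Integrable (fun w => Zt R (1 / 2) w * y w) mu :=
      integrable_of_continuous (hZ.mul hy.1)
    rw [integral_add h1 h2, hx.2, hy.2, add_zero]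
  | smul c x _ hx =>
    refine ⟨hx.1.const_smul c, ?_⟩
    have h1 : ∀ w, Zt R (1 / 2) w * (c • x) w = c * (Zt R (1 / 2) w * x w) := by
      intro w
      rw [Pi.smul_apply, smul_eq_mul]
      ring
    simp_rw [h1]
    rw [integral_const_mul, hx.2, mul_zero]

theorem rm3c (a : ℝ) (R : Finset ℕ) (hR : ∀ p ∈ R, p.Prime) (l : ℕ) :
    ∫ w, Zt R (1 / 2) w * Ex l (-a * PX R 0 w) ^ 2 ∂mu = 1 := by
  have hZ : Continuous (Zt R (1 / 2)) := continuous_Zt R hR (by norm_num)
  have h1 : (fun w => -(a : ℂ) * PX R 0 w) ∈ RM3c_V := by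
    have h2 : (fun w => -(a : ℂ) * PX R 0 w) =
        ∑ p ∈ R, (-(a : ℂ) * (((p : ℝ) ^ (-(1 / 2 : ℝ)) : ℝ) : ℂ)) • (fun w => XX w p) := by
      funext w
      rw [Finset.sum_apply]
      unfold PX PS
      rw [Finset.mul_sum]
      refine Finset.sum_congr rfl fun p hp => ?_
      rw [RM3c_nX w (hR p hp).ne_zero, Pi.smul_apply, smul_eq_mul]
      ring
    rw [h2]
    exact Submodule.sum_mem _ fun p hp => Submodule.smul_mem _ _
      (Submodule.subset_span ⟨p, (hR p hp).one_lt, rfl⟩)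
  have h3 := RM3c_Ex h1 l
  have h4 : (fun w => Ex l (-a * PX R 0 w) ^ 2 - 1) ∈ RM3c_V := by
    have h5 : (fun w => Ex l (-a * PX R 0 w) ^ 2 - 1) =
        (2 : ℂ) • (fun w => Ex l (-a * PX R 0 w) - 1) +
          (fun w => Ex l (-a * PX R 0 w) - 1) * (fun w => Ex l (-a * PX R 0 w) - 1) := by
      funext w
      simp only [Pi.add_apply, Pi.smul_apply, Pi.mul_apply, smul_eq_mul]
      ring
    rw [h5]
    exact Submodule.add_mem _ (Submodule.smul_mem _ _ h3) (RM3c_mul h3 h3)
  obtain ⟨h5, h6⟩ := RM3c_zero R hR h4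
  have h7 : ∀ w, Zt R (1 / 2) w * Ex l (-a * PX R 0 w) ^ 2 =
      Zt R (1 / 2) w * (Ex l (-a * PX R 0 w) ^ 2 - 1) + Zt R (1 / 2) w * XX w 1 := by
    intro w
    rw [map_one]
    ring
  simp_rw [h7]
  have h8 : Integrable (fun w => Zt R (1 / 2) w * (Ex l (-a * PX R 0 w) ^ 2 - 1)) mu :=
    integrable_of_continuous (hZ.mul h5)
  have h9 : Integrable (fun w => Zt R (1 / 2) w * XX w 1) mu :=
    integrable_of_continuous (hZ.mul (continuous_XX 1))
  rw [integral_add h8 h9, h6, RM3c_int R hR 1 one_ne_zero, if_pos rfl, zero_add]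

end Pool.Agent.GH
end

section

/-! TASK DiagE. The diagonal as an expectation.
Proof. `Zt (primesBelow M) (1/2) = ∑_{l smooth} l^{-1/2} X_l` (Euler product as in TASK Bessel), `∑_F u_m (nX 0 w m) = ∑ u_m m^{-1/2} X_m`, and
`conj(∑_G c_n nX (-iv) w n) = ∑ c_n n^{-1/2-iv} conj X_n` (`conj(n^{-(1/2-iv)}) = n^{-1/2-iv}`). By `orth` only `l m = n` remains, with the factor `(lm)^{-1/2} n^{-1/2-iv} = n^{-1-iv}`; since `n ∈ G` is smooth,
for `m ∣ n` the quotient `l = n/m` is smooth, so the sum is over the pairs `m ∣ n`. (Sum and integral: uniform absolute convergence, `∑_{l smooth} l^{-1/2} < ∞`.) -/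

set_option autoImplicit false

namespace Pool.Agent.GH

open Complex MeasureTheory Finset
open scoped Real ComplexConjugate

private theorem DiagE_prime (w : Om) {p : ℕ} (hp : p.Prime) :
    nX 0 w p = (((p : ℝ) ^ (-(1 / 2 : ℝ)) : ℝ) : ℂ) * X p w := by
  rw [nX_apply 0 w hp.ne_zero, XX_prime w hp]
  congr 1
  rw [Complex.ofReal_cpow (Nat.cast_nonneg p)]
  push_cast
  congr 1
  ring

private theorem DiagE_euler (M : ℕ) (w : Om) :
    Summable (fun m : Nat.smoothNumbers M => ‖nX 0 w m‖) ∧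
      HasSum (fun m : Nat.smoothNumbers M => nX 0 w m) (Zt (Nat.primesBelow M) (1 / 2) w) := by
  have h : ∀ {p : ℕ}, p.Prime → ‖(nX 0 w : ℕ →*₀ ℂ).toMonoidHom p‖ < 1 := by
    intro p hp
    change ‖nX 0 w p‖ < 1
    rw [norm_nX 0 w hp.ne_zero]
    have := rpow_neg_lt_one hp.two_le (σ := 1 / 2) (by norm_num)
    simpa using this
  have h1 := EulerProduct.summable_and_hasSum_smoothNumbers_prod_primesBelow_geometric h M
  refine ⟨h1.1, ?_⟩
  have h2 : Zt (Nat.primesBelow M) (1 / 2) w =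
      ∏ p ∈ Nat.primesBelow M, (1 - (nX 0 w : ℕ →*₀ ℂ).toMonoidHom p)⁻¹ := by
    unfold Zt
    refine Finset.prod_congr rfl fun p hp => ?_
    have hp' : p.Prime := Nat.prime_of_mem_primesBelow hp
    have h3 : (nX 0 w : ℕ →*₀ ℂ).toMonoidHom p = nX 0 w p := rfl
    rw [h3, DiagE_prime w hp']
  rw [h2]
  exact h1.2

private theorem DiagE_term {l m n : ℕ} (hl : l ≠ 0) (hm : m ≠ 0) (hn : n ≠ 0) (v : ℝ) :
    ∫ w, nX 0 w l * nX 0 w m * conj (nX (-(v * I)) w n) ∂mu =
      if l * m = n then (n : ℂ) ^ (-(1 + v * I)) else 0 := by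
  have h1 : ∀ w, nX 0 w l * nX 0 w m * conj (nX (-(v * I)) w n) =
      ((l * m : ℕ) : ℂ) ^ (-(1 / 2 : ℂ)) * (n : ℂ) ^ (-(1 / 2 + v * I)) *
        (XX w (l * m) * conj (XX w n)) := by
    intro w
    rw [nX_apply _ w hl, nX_apply _ w hm, nX_apply _ w hn, map_mul (starRingEnd ℂ), map_mul (XX w)]
    have h2 : conj ((n : ℂ) ^ (-(1 / 2 + -(v * I)))) = (n : ℂ) ^ (-(1 / 2 + v * I)) := by
      have h3 : (n : ℂ) ^ (conj (-(1 / 2 + -((v : ℂ) * I)))) =
          conj ((n : ℂ) ^ (-(1 / 2 + -((v : ℂ) * I)))) := by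
        rw [Complex.cpow_conj _ _ (by rw [Complex.natCast_arg]; exact Real.pi_pos.ne),
          Complex.conj_natCast]
      rw [← h3]
      congr 1
      apply Complex.ext <;> simp
    rw [h2, Nat.cast_mul, Complex.natCast_mul_natCast_cpow, add_zero]
    ring
  simp_rw [h1]
  rw [integral_const_mul, orth (mul_ne_zero hl hm) hn]
  split_ifs with h
  · rw [mul_one, h, ← Complex.cpow_add _ _ (by exact_mod_cast hn)]
    congr 1
    ring
  · rw [mul_zero]

theorem diag_expect (M : ℕ) (F G : Finset ℕ) (u c : ℕ → ℝ) (hF : ∀ m ∈ F, m ≠ 0)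
    (hG : ∀ n ∈ G, n ∈ Nat.smoothNumbers M) (v : ℝ) :
    ∫ w, Zt (Nat.primesBelow M) (1 / 2) w * (∑ m ∈ F, (u m : ℂ) * nX 0 w m) *
      conj (∑ n ∈ G, (c n : ℂ) * nX (-(v * I)) w n) ∂mu =
    ∑ m ∈ F, ∑ n ∈ G, (if m ∣ n then (u m : ℂ) * c n * (n : ℂ) ^ (-(1 + v * I)) else 0) := by
  set A : Om → ℂ := fun w => ∑ m ∈ F, (u m : ℂ) * nX 0 w m with hA
  set B : Om → ℂ := fun w => ∑ n ∈ G, (c n : ℂ) * nX (-(v * I)) w n with hB
  have hAc : Continuous A := continuous_finsetSum _ fun m _ =>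
    continuous_const.mul (continuous_nX 0 m)
  have hBc : Continuous B := continuous_finsetSum _ fun m _ =>
    continuous_const.mul (continuous_nX _ m)
  have hcont : Continuous fun w => A w * conj (B w) := hAc.mul (Complex.continuous_conj.comp hBc)
  obtain ⟨C, hC⟩ := exists_bound_of_continuous hcont
  have hw0 : ∀ w w' : Om, ∀ l : Nat.smoothNumbers M, ‖nX 0 w l‖ = ‖nX 0 w' l‖ := by
    intro w w' l
    rw [norm_nX 0 w (Nat.ne_zero_of_mem_smoothNumbers l.2),
      norm_nX 0 w' (Nat.ne_zero_of_mem_smoothNumbers l.2)]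
  have hint : ∀ l : Nat.smoothNumbers M,
      Integrable (fun w => nX 0 w l * (A w * conj (B w))) mu := fun l =>
    integrable_of_continuous ((continuous_nX 0 l).mul hcont)
  have hsum : Summable fun l : Nat.smoothNumbers M =>
      ∫ w, ‖nX 0 w l * (A w * conj (B w))‖ ∂mu := by
    refine Summable.of_nonneg_of_le (fun l => integral_nonneg fun w => norm_nonneg _)
      (fun l => ?_) ((DiagE_euler M 0).1.mul_right C)
    calc ∫ w, ‖nX 0 w l * (A w * conj (B w))‖ ∂mu
        ≤ ∫ w, ‖nX 0 0 (l : ℕ)‖ * C ∂mu := by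
          refine integral_mono (hint l).norm (integrable_const _) fun w => ?_
          simp only []
          rw [norm_mul, hw0 w 0 l]
          exact mul_le_mul_of_nonneg_left (hC w) (norm_nonneg _)
      _ = ‖nX 0 0 (l : ℕ)‖ * C := by simp
  have h1 := hasSum_integral_of_summable_integral_norm hint hsum
  have h2 : ∀ w, ∑' l : Nat.smoothNumbers M, nX 0 w l * (A w * conj (B w)) =
      Zt (Nat.primesBelow M) (1 / 2) w * A w * conj (B w) := by
    intro w
    rw [mul_assoc]
    exact ((DiagE_euler M w).2.mul_right _).tsum_eq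
  simp_rw [h2] at h1
  refine h1.unique ?_
  have h3 : ∀ l : Nat.smoothNumbers M, ∫ w, nX 0 w l * (A w * conj (B w)) ∂mu =
      ∑ m ∈ F, ∑ n ∈ G, (if (l : ℕ) * m = n then (u m : ℂ) * c n * (n : ℂ) ^ (-(1 + v * I))
        else 0) := by
    intro l
    have hl : (l : ℕ) ≠ 0 := Nat.ne_zero_of_mem_smoothNumbers l.2
    have h4 : ∀ w, nX 0 w l * (A w * conj (B w)) = ∑ m ∈ F, ∑ n ∈ G,
        ((u m : ℂ) * c n) * (nX 0 w l * nX 0 w m * conj (nX (-(v * I)) w n)) := by
      intro w
      rw [hA, hB]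
      simp only [map_sum, map_mul, Complex.conj_ofReal]
      rw [Finset.sum_mul_sum, Finset.mul_sum]
      refine Finset.sum_congr rfl fun m _ => ?_
      rw [Finset.mul_sum]
      refine Finset.sum_congr rfl fun n _ => ?_
      ring
    have hterm : ∀ m n : ℕ, Integrable (fun w => ((u m : ℂ) * c n) *
        (nX 0 w l * nX 0 w m * conj (nX (-(v * I)) w n))) mu := fun m n =>
      integrable_of_continuous (continuous_const.mul (((continuous_nX 0 l).mul
        (continuous_nX 0 m)).mul (Complex.continuous_conj.comp (continuous_nX _ n))))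
    simp_rw [h4]
    rw [integral_finsetSum _ fun m _ => integrable_finsetSum _ fun n _ => hterm m n]
    refine Finset.sum_congr rfl fun m hm => ?_
    rw [integral_finsetSum _ fun n _ => hterm m n]
    refine Finset.sum_congr rfl fun n hn => ?_
    rw [integral_const_mul, DiagE_term hl (hF m hm) (Nat.ne_zero_of_mem_smoothNumbers (hG n hn))]
    split_ifs <;> simp
  simp_rw [h3]
  refine hasSum_sum fun m hm => hasSum_sum fun n hn => ?_
  by_cases hmn : m ∣ n
  · obtain ⟨k, hk⟩ := hmn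
    have hnM := hG n hn
    have hn0 : n ≠ 0 := Nat.ne_zero_of_mem_smoothNumbers hnM
    have hk0 : k ∈ Nat.smoothNumbers M := by
      have hkd : k ∣ n := ⟨m, by rw [hk]; ring⟩
      exact Nat.mem_smoothNumbers_of_dvd hnM hkd
    have hmn' : m ∣ n := ⟨k, hk⟩
    rw [if_pos hmn']
    have h5 := hasSum_single (f := fun l : Nat.smoothNumbers M =>
      (if (l : ℕ) * m = n then (u m : ℂ) * c n * (n : ℂ) ^ (-(1 + v * I)) else 0)) ⟨k, hk0⟩ (by
        intro l hl
        refine if_neg fun h => hl ?_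
        apply Subtype.ext
        change (l : ℕ) = k
        have : (l : ℕ) * m = k * m := by rw [h, hk]; ring
        exact Nat.eq_of_mul_eq_mul_right (Nat.pos_of_ne_zero (hF m hm)) this)
    have h6 : k * m = n := by rw [hk]; ring
    simp only [h6, if_true] at h5
    exact h5
  · rw [if_neg hmn]
    have h5 : ∀ l : Nat.smoothNumbers M, (if (l : ℕ) * m = n then
        (u m : ℂ) * c n * (n : ℂ) ^ (-(1 + v * I)) else 0) = 0 := by
      intro l
      refine if_neg fun h => hmn ⟨l, by rw [← h]; ring⟩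
    simp_rw [h5]
    exact hasSum_zero

end Pool.Agent.GH
end
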