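import Pool.Agent.Lib.MP_69b2e4_nt.Mg.G038
import Pool.Agent.Lib.MP_69b2e4_nt.Mg.G045
import Pool.Agent.Lib.MP_69b2e4_nt.Mg.G044
import Pool.Agent.Lib.MP_69b2e4_nt.Mg.G037
import Pool.Agent.Lib.MP_69b2e4_nt.Mg.G040
import Pool.Agent.Lib.MP_69b2e4_nt.Mg.G048

section

/-! TASK E1. The twisted first moment.
Write `U χ = ∑_F u_m χ m`, `W χ = ∑_G c_n χ n` (`IsDP`). With `s = 1/2+it`: `U(nC(1/2+(t+v)i)) = ∑ u_m m^{-(s+iv)}`, `conj W(nC(1/2+it)) = ∑ c_n n^{-1/2+it} = ∑ c_n n^{s-1}`.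
`Φ(s) = ζ(s+iv) ∑ u_m m^{-(s+iv)} ∑ c_n n^{s-1}` is holomorphic near the rectangle `1/2 ≤ Re s ≤ 2`, `T ≤ Im s ≤ 2T` (`T ≥ 2 > 0`, so `s + iv ≠ 1`). Cauchy
(`Complex.integral_boundary_rect_eq_zero_of_differentiableOn`): `∫_T^{2T} Φ(1/2+it) dt - ∫_T^{2T} Φ(2+it) dt` is at most the two horizontal integrals,
each `≤ (3/2) C (2T+1)^{1/2} (∑|u|) Q (∑|c|) ≤ C T^{1/2} T^{3/100}` (`|n^{s-1}| ≤ Q`). Then `right_line` (error `8 Q² B² ≤ T^{1/10}`) and `diag_expect`. For `T ≥ T0` everything is at most `T^{9/10}`. -/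

set_option autoImplicit false

namespace Pool.Agent.GH

open Complex MeasureTheory Finset
open scoped Real ComplexConjugate

private theorem E1_conj {n : ℕ} (hn : n ≠ 0) (t : ℝ) :
    conj (nC (1 / 2 + t * I) n) = (n : ℂ) ^ ((1 / 2 : ℂ) + t * I - 1) := by
  rw [nC_apply _ hn]
  have h3 : (n : ℂ) ^ (conj (-(1 / 2 + (t : ℂ) * I))) =
      conj ((n : ℂ) ^ (-(1 / 2 + (t : ℂ) * I))) := by
    rw [Complex.cpow_conj _ _ (by rw [Complex.natCast_arg]; exact Real.pi_pos.ne),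
      Complex.conj_natCast]
  rw [← h3]
  congr 1
  apply Complex.ext <;> simp
  norm_num

/-- the analytic function -/
private noncomputable def E1_Phi (F G : Finset ℕ) (u c : ℕ → ℝ) (v : ℝ) (s : ℂ) : ℂ :=
  riemannZeta (s + v * I) * (∑ m ∈ F, (u m : ℂ) * (m : ℂ) ^ (-(s + v * I))) *
    (∑ n ∈ G, (c n : ℂ) * (n : ℂ) ^ (s - 1))

private theorem E1_diff {F G : Finset ℕ} {u c : ℕ → ℝ} {v : ℝ} (hv : 0 ≤ v)
    (hF : ∀ m ∈ F, m ≠ 0) (hG : ∀ n ∈ G, n ≠ 0) {s : ℂ} (hs : 0 < s.im) :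
    DifferentiableAt ℂ (E1_Phi F G u c v) s := by
  unfold E1_Phi
  have h1 : DifferentiableAt ℂ riemannZeta (s + v * I) := by
    apply differentiableAt_riemannZeta
    intro h
    have := congrArg Complex.im h
    simp at this
    linarith
  refine ((h1.comp (f := fun s : ℂ => s + v * I) s (by fun_prop)).mul ?_).mul ?_
  · refine DifferentiableAt.fun_sum fun m hm => ?_
    have hm' : (m : ℂ) ≠ 0 := by exact_mod_cast hF m hm
    refine DifferentiableAt.const_mul ?_ _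
    exact DifferentiableAt.const_cpow (by fun_prop) (Or.inl hm')
  · refine DifferentiableAt.fun_sum fun m hm => ?_
    have hm' : (m : ℂ) ≠ 0 := by exact_mod_cast hG m hm
    refine DifferentiableAt.const_mul ?_ _
    exact DifferentiableAt.const_cpow (by fun_prop) (Or.inl hm')

private theorem E1_bound {C : ℝ} (hC1 : 1 ≤ C)
    (hC : ∀ s : ℂ, 1 / 2 ≤ s.re → s.re ≤ 2 → 1 ≤ |s.im| →
      ‖riemannZeta s‖ ≤ C * |s.im| ^ (1 / 2 : ℝ))
    {F G : Finset ℕ} {u c : ℕ → ℝ} {v Q B T : ℝ} (hv : 0 ≤ v) (hv1 : v ≤ 1) (hT : 1 ≤ T)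
    (hQ : 0 ≤ Q)
    (hF : ∀ m ∈ F, m ≠ 0) (hG : ∀ n ∈ G, n ≠ 0 ∧ (n : ℝ) ≤ Q) (hu : ∑ n ∈ F, |u n| ≤ B)
    (hc : ∑ n ∈ G, |c n| ≤ B) {x τ : ℝ} (hx : 1 / 2 ≤ x) (hx2 : x ≤ 2) (hτ : T ≤ τ)
    (hτ2 : τ ≤ 2 * T) :
    ‖E1_Phi F G u c v (x + τ * I)‖ ≤ C * (2 * T ^ (1 / 2 : ℝ)) * B * (Q * B) := by
  unfold E1_Phi
  rw [norm_mul, norm_mul]
  have hB : 0 ≤ B := le_trans (Finset.sum_nonneg fun _ _ => abs_nonneg _) hu
  have him : ((x : ℂ) + τ * I + v * I).im = τ + v := by simp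
  have hre : ((x : ℂ) + τ * I + v * I).re = x := by simp
  have h1 : ‖riemannZeta ((x : ℂ) + τ * I + v * I)‖ ≤ C * (2 * T ^ (1 / 2 : ℝ)) := by
    have h0 : |τ + v| = τ + v := abs_of_nonneg (by linarith)
    refine (hC _ (by rw [hre]; exact hx) (by rw [hre]; exact hx2) (by
      rw [him, h0]; linarith)).trans ?_
    rw [him, h0]
    have h2 : (τ + v) ^ (1 / 2 : ℝ) ≤ (4 * T) ^ (1 / 2 : ℝ) :=
      Real.rpow_le_rpow (by linarith) (by linarith) (by norm_num)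
    have h3 : (4 * T) ^ (1 / 2 : ℝ) = 2 * T ^ (1 / 2 : ℝ) := by
      rw [Real.mul_rpow (by norm_num) (by linarith)]
      congr 1
      rw [show (4 : ℝ) = 2 ^ (2 : ℝ) by norm_num, ← Real.rpow_mul (by norm_num)]
      norm_num
    rw [h3] at h2
    gcongr
  have h2 : ‖∑ m ∈ F, (u m : ℂ) * (m : ℂ) ^ (-((x : ℂ) + τ * I + v * I))‖ ≤ B := by
    refine (norm_sum_le _ _).trans (le_trans (Finset.sum_le_sum fun m hm => ?_) hu)
    rw [norm_mul, Complex.norm_real, Real.norm_eq_abs,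
      Complex.norm_natCast_cpow_of_pos (Nat.pos_of_ne_zero (hF m hm))]
    have : (m : ℝ) ^ (-((x : ℂ) + τ * I + v * I)).re ≤ 1 := by
      apply Real.rpow_le_one_of_one_le_of_nonpos
      · exact_mod_cast Nat.one_le_iff_ne_zero.mpr (hF m hm)
      · simp; linarith
    exact mul_le_of_le_one_right (abs_nonneg _) this
  have h3 : ‖∑ n ∈ G, (c n : ℂ) * (n : ℂ) ^ ((x : ℂ) + τ * I - 1)‖ ≤ Q * B := by
    refine (norm_sum_le _ _).trans ?_
    have : ∀ n ∈ G, ‖(c n : ℂ) * (n : ℂ) ^ ((x : ℂ) + τ * I - 1)‖ ≤ Q * |c n| := by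
      intro n hn
      rw [norm_mul, Complex.norm_real, Real.norm_eq_abs,
        Complex.norm_natCast_cpow_of_pos (Nat.pos_of_ne_zero (hG n hn).1), mul_comm]
      have hn1 : (1 : ℝ) ≤ n := by exact_mod_cast Nat.one_le_iff_ne_zero.mpr (hG n hn).1
      have h4 : (n : ℝ) ^ ((x : ℂ) + τ * I - 1).re ≤ Q := by
        calc (n : ℝ) ^ ((x : ℂ) + τ * I - 1).re ≤ (n : ℝ) ^ (1 : ℝ) := by
              apply Real.rpow_le_rpow_of_exponent_le hn1
              simp; linarith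
          _ = n := Real.rpow_one _
          _ ≤ Q := (hG n hn).2
      gcongr
    refine (Finset.sum_le_sum this).trans ?_
    rw [← Finset.mul_sum]
    gcongr
  have hT0 : 0 ≤ T ^ (1 / 2 : ℝ) := Real.rpow_nonneg (by linarith) _
  gcongr

theorem first_moment : ∃ T0 : ℝ, 2 ≤ T0 ∧ ∀ (T v : ℝ) (M : ℕ) (U W : (ℕ →*₀ ℂ) → ℂ), T0 ≤ T →
    0 ≤ v → v ≤ 1 →
    IsDP Set.univ (T ^ (1 / 100 : ℝ)) (T ^ (1 / 100 : ℝ)) U →
    IsDP (Nat.smoothNumbers M) (T ^ (1 / 100 : ℝ)) (T ^ (1 / 100 : ℝ)) W →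
    ‖(∫ t in T..(2 * T), riemannZeta (1 / 2 + (t + v) * I) * U (nC (1 / 2 + (t + v) * I)) *
        conj (W (nC (1 / 2 + t * I)))) -
      T * ∫ w, Zt (Nat.primesBelow M) (1 / 2) w * U (nX 0 w) * conj (W (nX (-(v * I)) w)) ∂mu‖ ≤
    T ^ (9 / 10 : ℝ) := by
  obtain ⟨C, hC1, hC⟩ := zeta_growth
  refine ⟨(6 * C + 8) ^ 4, ?_, ?_⟩
  · have : (2 : ℝ) ≤ 6 * C + 8 := by linarith
    nlinarith [pow_le_pow_left₀ (by norm_num : (0 : ℝ) ≤ 2) this 4]
  intro T v M U W hT hv hv1 hU hW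
  obtain ⟨F, u, hF, hu, hUe⟩ := hU
  obtain ⟨G, c, hG, hc, hWe⟩ := hW
  have hT1 : 1 ≤ T := by
    have h14 : (14 : ℝ) ≤ 6 * C + 8 := by linarith
    have := pow_le_pow_left₀ (by norm_num : (0 : ℝ) ≤ 14) h14 4
    linarith
  have hT0 : 0 < T := by linarith
  set Q : ℝ := T ^ (1 / 100 : ℝ) with hQdef
  have hQ1 : 1 ≤ Q := Real.one_le_rpow hT1 (by norm_num)
  have hQ0 : 0 ≤ Q := by linarith
  -- the left integral
  have hleft : ∀ t : ℝ, riemannZeta (1 / 2 + (t + v) * I) * U (nC (1 / 2 + (t + v) * I)) *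
        conj (W (nC (1 / 2 + t * I))) = E1_Phi F G u c v (((1 / 2 : ℝ) : ℂ) + t * I) := by
    intro t
    have e0 : (((1 / 2 : ℝ) : ℂ) + t * I) + v * I = 1 / 2 + (t + v) * I := by push_cast; ring
    have e1 : (((1 / 2 : ℝ) : ℂ) + t * I) - 1 = (1 / 2 : ℂ) + t * I - 1 := by push_cast; ring
    unfold E1_Phi
    rw [hUe, hWe, e0, e1]
    congr 1
    · congr 1
      refine Finset.sum_congr rfl fun m hm => ?_
      rw [nC_apply _ (hF m hm).1]
    · rw [map_sum]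
      refine Finset.sum_congr rfl fun n hn => ?_
      rw [map_mul, Complex.conj_ofReal, E1_conj (hG n hn).1]
  have hright : ∀ t : ℝ, riemannZeta (2 + (t + v) * I) *
        (∑ m ∈ F, (u m : ℂ) * (m : ℂ) ^ (-(2 + (t + v) * I))) *
        (∑ n ∈ G, (c n : ℂ) * (n : ℂ) ^ (1 + t * I)) =
      E1_Phi F G u c v (((2 : ℝ) : ℂ) + t * I) := by
    intro t
    have e0 : (((2 : ℝ) : ℂ) + t * I) + v * I = 2 + (t + v) * I := by push_cast; ring
    have e1 : (((2 : ℝ) : ℂ) + t * I) - 1 = 1 + t * I := by push_cast; ring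
    unfold E1_Phi
    rw [e0, e1]
  simp_rw [hleft]
  have hR := right_line hQ1 F G u c (fun m hm => ⟨(hF m hm).1, (hF m hm).2.2⟩)
    (fun n hn => ⟨(hG n hn).1, (hG n hn).2.2⟩) (T := T) (v := v) hT0.le
  simp_rw [hright] at hR
  have hD := diag_expect M F G u c (fun m hm => (hF m hm).1) (fun n hn => (hG n hn).2.1) v
  have hD' : ∫ w, Zt (Nat.primesBelow M) (1 / 2) w * U (nX 0 w) *
      conj (W (nX (-(v * I)) w)) ∂mu =
      ∑ m ∈ F, ∑ n ∈ G, (if m ∣ n then (u m : ℂ) * c n * (n : ℂ) ^ (-(1 + v * I)) else 0) := by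
    rw [← hD]
    simp_rw [hUe, hWe]
  rw [hD']
  -- Cauchy
  have hrect := Complex.integral_boundary_rect_eq_zero_of_differentiableOn
    (E1_Phi F G u c v) (((1 / 2 : ℝ) : ℂ) + T * I) (((2 : ℝ) : ℂ) + (2 * T : ℝ) * I) (by
      intro s hs
      refine (E1_diff hv (fun m hm => (hF m hm).1) (fun n hn => (hG n hn).1) ?_).differentiableWithinAt
      have him : s.im ∈ Set.uIcc T (2 * T) := by
        have := hs.2
        simpa using this
      rw [Set.uIcc_of_le (by linarith)] at him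
      linarith [him.1])
  have z1 : (((1 / 2 : ℝ) : ℂ) + T * I).re = 1 / 2 := by simp
  have z2 : (((1 / 2 : ℝ) : ℂ) + T * I).im = T := by simp
  have z3 : (((2 : ℝ) : ℂ) + (2 * T : ℝ) * I).re = 2 := by simp
  have z4 : (((2 : ℝ) : ℂ) + (2 * T : ℝ) * I).im = 2 * T := by simp
  rw [z1, z2, z3, z4] at hrect
  set L : ℂ := ∫ y : ℝ in T..(2 * T), E1_Phi F G u c v (((1 / 2 : ℝ) : ℂ) + y * I) with hL
  set R : ℂ := ∫ y : ℝ in T..(2 * T), E1_Phi F G u c v (((2 : ℝ) : ℂ) + y * I) with hRR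
  set H1 : ℂ := ∫ x : ℝ in (1 / 2 : ℝ)..2, E1_Phi F G u c v (x + T * I) with hH1
  set H2 : ℂ := ∫ x : ℝ in (1 / 2 : ℝ)..2, E1_Phi F G u c v (x + (2 * T : ℝ) * I) with hH2
  have hrect' : L - R = -(I * (H1 - H2)) := by
    have h0 : H1 - H2 + I * R - I * L = 0 := by simpa only [smul_eq_mul] using hrect
    have h1 : I * (H1 - H2 + I * R - I * L) = 0 := by rw [h0, mul_zero]
    have h2 : I * I = -1 := Complex.I_mul_I
    linear_combination h1 - (R - L) * h2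
  set K : ℝ := C * (2 * T ^ (1 / 2 : ℝ)) * Q * (Q * Q) with hK
  have hHb : ∀ τ : ℝ, T ≤ τ → τ ≤ 2 * T →
      ‖∫ x : ℝ in (1 / 2 : ℝ)..2, E1_Phi F G u c v (x + τ * I)‖ ≤ K * (3 / 2) := by
    intro τ h1 h2
    have := intervalIntegral.norm_integral_le_of_norm_le_const (a := (1 / 2 : ℝ)) (b := 2)
      (f := fun x : ℝ => E1_Phi F G u c v (x + τ * I)) (C := K) (by
        intro x hx
        rw [Set.uIoc_of_le (by norm_num)] at hx
        exact E1_bound hC1 hC hv hv1 hT1 hQ0 (fun m hm => (hF m hm).1)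
          (fun n hn => ⟨(hG n hn).1, (hG n hn).2.2⟩) hu hc hx.1.le hx.2 h1 h2)
    refine this.trans (le_of_eq ?_)
    norm_num
  have hb1 := hHb T le_rfl (by linarith)
  have hb2 := hHb (2 * T) (by linarith) le_rfl
  have hLR : ‖L - R‖ ≤ 3 * K := by
    rw [hrect', norm_neg, norm_mul, Complex.norm_I, one_mul]
    calc ‖H1 - H2‖ ≤ ‖H1‖ + ‖H2‖ := norm_sub_le _ _
      _ ≤ K * (3 / 2) + K * (3 / 2) := add_le_add hb1 hb2
      _ = 3 * K := by ring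
  set D : ℂ := ∑ m ∈ F, ∑ n ∈ G,
    (if m ∣ n then (u m : ℂ) * c n * (n : ℂ) ^ (-(1 + v * I)) else 0) with hDD
  have hRD : ‖R - T * D‖ ≤ 8 * Q ^ 2 * Q * Q := by
    refine hR.trans ?_
    gcongr
  have htot : ‖L - T * D‖ ≤ 3 * K + 8 * Q ^ 2 * Q * Q := by
    have : L - T * D = (L - R) + (R - T * D) := by ring
    rw [this]
    exact (norm_add_le _ _).trans (add_le_add hLR hRD)
  refine htot.trans ?_
  -- numerics
  have hQ3 : T ^ (1 / 2 : ℝ) * (Q * (Q * Q)) = T ^ (53 / 100 : ℝ) := by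
    rw [hQdef, ← Real.rpow_add hT0, ← Real.rpow_add hT0, ← Real.rpow_add hT0]
    norm_num
  have hQ4 : Q ^ 2 * Q * Q ≤ T ^ (53 / 100 : ℝ) := by
    have : Q ^ 2 * Q * Q = T ^ (4 / 100 : ℝ) := by
      rw [pow_two, hQdef, ← Real.rpow_add hT0, ← Real.rpow_add hT0, ← Real.rpow_add hT0]
      norm_num
    rw [this]
    exact Real.rpow_le_rpow_of_exponent_le hT1 (by norm_num)
  have h1 : 3 * K + 8 * Q ^ 2 * Q * Q ≤ (6 * C + 8) * T ^ (53 / 100 : ℝ) := by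
    have e1 : 3 * K = 6 * C * (T ^ (1 / 2 : ℝ) * (Q * (Q * Q))) := by rw [hK]; ring
    rw [e1, hQ3]
    have e2 : 8 * Q ^ 2 * Q * Q = 8 * (Q ^ 2 * Q * Q) := by ring
    rw [e2, add_mul]
    gcongr
  have h2 : 6 * C + 8 ≤ T ^ (1 / 4 : ℝ) := by
    have h3 : ((6 * C + 8) ^ 4) ^ (1 / 4 : ℝ) ≤ T ^ (1 / 4 : ℝ) :=
      Real.rpow_le_rpow (by positivity) hT (by norm_num)
    have h4 : ((6 * C + 8) ^ 4) ^ (1 / 4 : ℝ) = 6 * C + 8 := by
      have h5 : (0 : ℝ) ≤ 6 * C + 8 := by linarith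
      rw [← Real.rpow_natCast, ← Real.rpow_mul h5]
      norm_num
    linarith
  calc 3 * K + 8 * Q ^ 2 * Q * Q ≤ (6 * C + 8) * T ^ (53 / 100 : ℝ) := h1
    _ ≤ T ^ (1 / 4 : ℝ) * T ^ (53 / 100 : ℝ) := by gcongr
    _ = T ^ (78 / 100 : ℝ) := by rw [← Real.rpow_add hT0]; norm_num
    _ ≤ T ^ (9 / 10 : ℝ) := Real.rpow_le_rpow_of_exponent_le hT1 (by norm_num)

end Pool.Agent.GH
end

section

/-! TASK RM2. The fourth moment of the truncated exponential.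
Proof. As RM1 without the Euler product. `‖exp(-bP)‖⁴ = exp(-4b Re P) = ∏ exp(2Re(c_p X_p))`, `c_p = -2b p^{-1/2-z}`; `one_prime` with `u = 0` gives
`E ≤ ∏ exp(‖c_p‖² + C‖c_p‖³) ≤ exp(4b² s + C e)`, since `‖c_p‖² = 4b² |p^{-z}|²/p ≤ 4b²/p + C δ log p/p` (`δ log p ≤ 1`).
Truncation: `norm_Ex_le_mul`, `(1+ε)⁴ ≤ 1 + 15·2^{-l} exp(12 b‖P‖)`, `E ‖exp(-bP)‖⁴ exp(12b‖P‖) ≤ E exp(16 b‖P‖) ≤ 4 exp(C s)` (`exp_moment`). -/

set_option autoImplicit false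

namespace Pool.Agent.GH

open Complex MeasureTheory Finset
open scoped Real ComplexConjugate

private theorem rm2_factor {b : ℝ} (hb : 0 ≤ b) {p : ℕ} (hp : p.Prime) {δ : ℝ} {z : ℂ}
    (hz : ‖z‖ ≤ δ) (hδ : δ * Real.log p ≤ 1) :
    ‖(-2 * b : ℂ) * (p : ℂ) ^ (-(1 / 2 + z))‖ ^ 2 ≤
      4 * b ^ 2 * (1 / p) + 8 * b ^ 2 * Real.exp 2 * (δ * (Real.log p / p)) ∧
    ‖(-2 * b : ℂ) * (p : ℂ) ^ (-(1 / 2 + z))‖ ^ 3 ≤
      (2 * b * Real.exp 1) ^ 3 * (p : ℝ) ^ (-(3 / 2 : ℝ)) ∧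
    ‖(-2 * b : ℂ) * (p : ℂ) ^ (-(1 / 2 + z))‖ ≤ 2 * b * Real.exp 1 := by
  have hp0 : (0 : ℝ) < p := by exact_mod_cast hp.pos
  have hp1 : (1 : ℝ) ≤ p := by exact_mod_cast hp.one_le
  have hδ0 : 0 ≤ δ := (norm_nonneg z).trans hz
  have hlog : 0 ≤ Real.log p := Real.log_nonneg hp1
  have hn : ‖(-2 * b : ℂ) * (p : ℂ) ^ (-(1 / 2 + z))‖ = 2 * b * (p : ℝ) ^ (-(1 / 2 : ℝ)) *
      Real.exp (-z.re * Real.log p) := by
    rw [norm_mul, Complex.norm_natCast_cpow_of_pos hp.pos]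
    have h1 : ‖(-2 * b : ℂ)‖ = 2 * b := by
      rw [norm_mul, norm_neg, Complex.norm_real, Real.norm_of_nonneg hb]
      norm_num
    have h2 : (-(1 / 2 + z)).re = -(1 / 2 : ℝ) + (-z.re) := by
      simp
      ring
    rw [h1, h2, Real.rpow_add hp0, Real.rpow_def_of_pos hp0 (-z.re), mul_comm (Real.log p)]
    ring
  have hre : -z.re * Real.log p ≤ δ * Real.log p := by
    refine mul_le_mul_of_nonneg_right ?_ hlog
    have := (abs_le.1 (Complex.abs_re_le_norm z)).1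
    linarith
  have hE : Real.exp (-z.re * Real.log p) ≤ Real.exp (δ * Real.log p) := Real.exp_le_exp.2 hre
  have hE1 : Real.exp (δ * Real.log p) ≤ Real.exp 1 := Real.exp_le_exp.2 hδ
  have hE0 : 0 < Real.exp (-z.re * Real.log p) := Real.exp_pos _
  have hr0 : 0 < (p : ℝ) ^ (-(1 / 2 : ℝ)) := Real.rpow_pos_of_pos hp0 _
  have hr1 : (p : ℝ) ^ (-(1 / 2 : ℝ)) ≤ 1 :=
    Real.rpow_le_one_of_one_le_of_nonpos hp1 (by norm_num)
  have hr2 : ((p : ℝ) ^ (-(1 / 2 : ℝ))) ^ 2 = 1 / p := by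
    rw [← Real.rpow_natCast, ← Real.rpow_mul hp0.le]
    norm_num
    exact Real.rpow_neg_one _
  have hr3 : ((p : ℝ) ^ (-(1 / 2 : ℝ))) ^ 3 = (p : ℝ) ^ (-(3 / 2 : ℝ)) := by
    rw [← Real.rpow_natCast, ← Real.rpow_mul hp0.le]
    norm_num
  rw [hn]
  refine ⟨?_, ?_, ?_⟩
  · have h1 : Real.exp (-z.re * Real.log p) ^ 2 ≤
        1 + 2 * Real.exp 2 * (δ * Real.log p) := by
      have h2 : Real.exp (-z.re * Real.log p) ^ 2 ≤ Real.exp (2 * (δ * Real.log p)) := by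
        rw [two_mul, Real.exp_add, ← sq]
        exact pow_le_pow_left₀ hE0.le hE 2
      refine h2.trans ?_
      have h3 : 0 ≤ 2 * (δ * Real.log p) := by positivity
      have h4 : Real.exp (2 * (δ * Real.log p)) ≤ Real.exp 2 := Real.exp_le_exp.2 (by linarith)
      have h5 := Real.add_one_le_exp (-(2 * (δ * Real.log p)))
      have h6 : Real.exp (2 * (δ * Real.log p)) * Real.exp (-(2 * (δ * Real.log p))) = 1 := by
        rw [← Real.exp_add, add_neg_cancel, Real.exp_zero]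
      have h7 := Real.exp_pos (2 * (δ * Real.log p))
      have h8 : Real.exp (2 * (δ * Real.log p)) * (-(2 * (δ * Real.log p)) + 1) ≤ 1 :=
        (mul_le_mul_of_nonneg_left h5 h7.le).trans h6.le
      have h9 : Real.exp (2 * (δ * Real.log p)) * (2 * (δ * Real.log p)) ≤
          Real.exp 2 * (2 * (δ * Real.log p)) := mul_le_mul_of_nonneg_right h4 h3
      linarith
    rw [mul_pow, mul_pow, hr2]
    calc (2 * b) ^ 2 * (1 / (p : ℝ)) * Real.exp (-z.re * Real.log p) ^ 2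
        ≤ (2 * b) ^ 2 * (1 / (p : ℝ)) * (1 + 2 * Real.exp 2 * (δ * Real.log p)) :=
          mul_le_mul_of_nonneg_left h1 (by positivity)
      _ = _ := by
          field_simp
          ring
  · rw [mul_pow, mul_pow, hr3, mul_pow (2 * b) (Real.exp 1)]
    have h1 : Real.exp (-z.re * Real.log p) ^ 3 ≤ Real.exp 1 ^ 3 :=
      pow_le_pow_left₀ hE0.le (hE.trans hE1) 3
    calc (2 * b) ^ 3 * (p : ℝ) ^ (-(3 / 2 : ℝ)) * Real.exp (-z.re * Real.log p) ^ 3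
        ≤ (2 * b) ^ 3 * (p : ℝ) ^ (-(3 / 2 : ℝ)) * Real.exp 1 ^ 3 :=
          mul_le_mul_of_nonneg_left h1 (by positivity)
      _ = _ := by ring
  · calc 2 * b * (p : ℝ) ^ (-(1 / 2 : ℝ)) * Real.exp (-z.re * Real.log p)
        ≤ 2 * b * 1 * Real.exp 1 := by
          refine mul_le_mul ?_ (hE.trans hE1) hE0.le (by positivity)
          exact mul_le_mul_of_nonneg_left hr1 (by positivity)
      _ = _ := by ring

private theorem rm2_exp (b : ℝ) (hb : 0 ≤ b) : ∃ C : ℝ, 0 ≤ C ∧ ∀ (R : Finset ℕ) (δ : ℝ) (z : ℂ),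
    (∀ p ∈ R, p.Prime) → ‖z‖ ≤ δ → (∀ p ∈ R, δ * Real.log p ≤ 1) →
    ∫ w, ‖cexp (-b * PX R z w)‖ ^ 4 ∂mu ≤ Real.exp (4 * b ^ 2 * sR R + C * eR R δ) := by
  obtain ⟨C1, hC1, h1⟩ := one_prime (2 * b * Real.exp 1)
  refine ⟨8 * b ^ 2 * Real.exp 2 + C1 * (2 * b * Real.exp 1) ^ 3, by positivity, ?_⟩
  intro R δ z hR hz hδ
  have hδ0 : 0 ≤ δ := (norm_nonneg z).trans hz
  have hpt : ∀ w : Om, ‖cexp (-b * PX R z w)‖ ^ 4 =
      ∏ p ∈ R, Real.exp (2 * (((-2 * b : ℂ) * (p : ℂ) ^ (-(1 / 2 + z))) *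
        (AddCircle.toCircle (w p) : ℂ)).re) := by
    intro w
    rw [Complex.norm_exp, ← Real.exp_nat_mul, ← Real.exp_sum, PX_eq R hR, Finset.mul_sum,
      Complex.re_sum, Finset.mul_sum]
    congr 1
    refine Finset.sum_congr rfl fun p _ => ?_
    have h2 : ((-2 * b : ℂ) * (p : ℂ) ^ (-(1 / 2 + z))) * (AddCircle.toCircle (w p) : ℂ) =
        (2 : ℝ) * (-b * ((p : ℂ) ^ (-(1 / 2 + z)) * X p w)) := by
      unfold X
      push_cast
      ring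
    rw [h2, Complex.re_ofReal_mul]
    push_cast
    ring
  simp_rw [hpt]
  rw [indep_primes R (fun p x => Real.exp (2 * (((-2 * b : ℂ) * (p : ℂ) ^ (-(1 / 2 + z))) *
        (AddCircle.toCircle x : ℂ)).re)) ?_]
  · have h3 : ∀ p ∈ R, ∫ x : UnitAddCircle, Real.exp (2 * (((-2 * b : ℂ) *
        (p : ℂ) ^ (-(1 / 2 + z))) * (AddCircle.toCircle x : ℂ)).re)
        ∂(AddCircle.haarAddCircle : Measure UnitAddCircle) ≤
        Real.exp (4 * b ^ 2 * (1 / p) + (8 * b ^ 2 * Real.exp 2 +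
          C1 * (2 * b * Real.exp 1) ^ 3) * ((p : ℝ) ^ (-(3 / 2 : ℝ)) + δ * (Real.log p / p))) := by
      intro p hp
      obtain ⟨f1, f2, f3⟩ := rm2_factor hb (hR p hp) hz (hδ p hp)
      have h4 := h1 0 ((-2 * b : ℂ) * (p : ℂ) ^ (-(1 / 2 + z))) le_rfl (by norm_num) f3
      have h5 : ∀ x : UnitAddCircle, ‖(1 - ((0 : ℝ) : ℂ) * (AddCircle.toCircle x : ℂ))⁻¹‖ ^ 2 *
          Real.exp (2 * (((-2 * b : ℂ) * (p : ℂ) ^ (-(1 / 2 + z))) *
            (AddCircle.toCircle x : ℂ)).re) =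
          Real.exp (2 * (((-2 * b : ℂ) * (p : ℂ) ^ (-(1 / 2 + z))) *
            (AddCircle.toCircle x : ℂ)).re) := by
        intro x
        simp
      simp_rw [h5] at h4
      refine h4.trans (Real.exp_le_exp.2 ?_)
      rw [Complex.ofReal_zero, zero_add]
      have hp0 : (0 : ℝ) < p := by exact_mod_cast (hR p hp).pos
      have hlog : 0 ≤ Real.log p := Real.log_nonneg (by exact_mod_cast (hR p hp).one_le)
      have h6 : 0 ≤ δ * (Real.log p / p) := by positivity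
      have h7 : 0 ≤ (p : ℝ) ^ (-(3 / 2 : ℝ)) := by positivity
      have h8 : C1 * ((0 : ℝ) ^ 3 + ‖(-2 * b : ℂ) * (p : ℂ) ^ (-(1 / 2 + z))‖ ^ 3) ≤
          C1 * ((2 * b * Real.exp 1) ^ 3 * (p : ℝ) ^ (-(3 / 2 : ℝ))) := by
        refine mul_le_mul_of_nonneg_left ?_ hC1
        rw [zero_pow (by norm_num), zero_add]
        exact f2
      have h9 : 0 ≤ 8 * b ^ 2 * Real.exp 2 * (p : ℝ) ^ (-(3 / 2 : ℝ)) := by positivity
      have h10 : 0 ≤ C1 * (2 * b * Real.exp 1) ^ 3 * (δ * (Real.log p / p)) := by positivity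
      linarith
    have h4 : ∏ p ∈ R, (∫ x : UnitAddCircle, Real.exp (2 * (((-2 * b : ℂ) *
        (p : ℂ) ^ (-(1 / 2 + z))) * (AddCircle.toCircle x : ℂ)).re)
        ∂(AddCircle.haarAddCircle : Measure UnitAddCircle)) ≤
        ∏ p ∈ R, Real.exp (4 * b ^ 2 * (1 / p) + (8 * b ^ 2 * Real.exp 2 +
          C1 * (2 * b * Real.exp 1) ^ 3) * ((p : ℝ) ^ (-(3 / 2 : ℝ)) + δ * (Real.log p / p))) :=
      Finset.prod_le_prod (fun p _ => integral_nonneg fun x => (Real.exp_pos _).le) h3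
    refine h4.trans (le_of_eq ?_)
    rw [← Real.exp_sum, Finset.sum_add_distrib, ← Finset.mul_sum, ← Finset.mul_sum]
    rfl
  · intro p _
    have h2 : Continuous fun x : UnitAddCircle => (AddCircle.toCircle x : ℂ) :=
      continuous_subtype_val.comp AddCircle.continuous_toCircle
    have h3 : Continuous fun x : UnitAddCircle => Real.exp (2 * (((-2 * b : ℂ) *
        (p : ℂ) ^ (-(1 / 2 + z))) * (AddCircle.toCircle x : ℂ)).re) :=
      Real.continuous_exp.comp (continuous_const.mul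
        (Complex.continuous_re.comp (continuous_const.mul h2)))
    exact h3.measurable

theorem rm2 (b : ℝ) (hb : 0 ≤ b) : ∃ C : ℝ, 0 ≤ C ∧ ∀ (R : Finset ℕ) (l : ℕ) (δ : ℝ) (z : ℂ),
    (∀ p ∈ R, p.Prime) → ‖z‖ ≤ δ → (∀ p ∈ R, δ * Real.log p ≤ 1) →
    ∫ w, ‖Ex l (-b * PX R z w)‖ ^ 4 ∂mu ≤
      Real.exp (4 * b ^ 2 * sR R + C * eR R δ) *
        (1 + (2 : ℝ)⁻¹ ^ l * Real.exp (C * (sR R + 1))) := by
  obtain ⟨Ca, hCa, ha⟩ := rm2_exp b hb
  obtain ⟨C1, hC1, h1⟩ := exp_moment (16 * b) (by positivity)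
  refine ⟨Ca + C1 + 5, by positivity, ?_⟩
  intro R l δ z hR hz hδ
  have hδ0 : 0 ≤ δ := (norm_nonneg z).trans hz
  have hs : 0 ≤ sR R := Finset.sum_nonneg fun p _ => by positivity
  have he : 0 ≤ eR R δ := Finset.sum_nonneg fun p hp => by
    have hlog : 0 ≤ Real.log p := Real.log_nonneg (by exact_mod_cast (hR p hp).one_le)
    positivity
  have hzl : ∀ p ∈ R, ‖z‖ * Real.log p ≤ 1 := fun p hp => by
    have hlog : 0 ≤ Real.log p := Real.log_nonneg (by exact_mod_cast (hR p hp).one_le)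
    exact (mul_le_mul_of_nonneg_right hz hlog).trans (hδ p hp)
  have hbn : ∀ w, ‖(-b * PX R z w : ℂ)‖ = b * ‖PX R z w‖ := by
    intro w
    rw [norm_mul, norm_neg, Complex.norm_real, Real.norm_of_nonneg hb]
  have hc := continuous_PX R z
  have hq0 : (0 : ℝ) ≤ (2 : ℝ)⁻¹ ^ l := by positivity
  have hq1 : (2 : ℝ)⁻¹ ^ l ≤ 1 := pow_le_one₀ (by norm_num) (by norm_num)
  have hpt : ∀ w, ‖Ex l (-b * PX R z w)‖ ^ 4 ≤ ‖cexp (-b * PX R z w)‖ ^ 4 +
      15 * (2 : ℝ)⁻¹ ^ l * Real.exp (16 * b * ‖PX R z w‖) := by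
    intro w
    have h2 := norm_Ex_le_mul l (-b * PX R z w)
    rw [hbn] at h2
    have h3 : ‖cexp (-b * PX R z w)‖ ≤ Real.exp (b * ‖PX R z w‖) := by
      rw [← hbn]
      exact Complex.norm_exp_le_exp_norm _
    have hx1 : 1 ≤ Real.exp (3 * (b * ‖PX R z w‖)) := Real.one_le_exp (by positivity)
    have hy0 : 0 ≤ ‖cexp (-b * PX R z w)‖ := norm_nonneg _
    have hprod : Real.exp (16 * b * ‖PX R z w‖) =
        Real.exp (b * ‖PX R z w‖) ^ 4 * Real.exp (3 * (b * ‖PX R z w‖)) ^ 4 := by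
      rw [← Real.exp_nat_mul, ← Real.exp_nat_mul, ← Real.exp_add]
      congr 1
      push_cast
      ring
    rw [hprod]
    generalize Real.exp (3 * (b * ‖PX R z w‖)) = x at h2 hx1 ⊢
    generalize ‖cexp (-b * PX R z w)‖ = y at h2 h3 hy0 ⊢
    generalize Real.exp (b * ‖PX R z w‖) = Y at h3 ⊢
    generalize (2 : ℝ)⁻¹ ^ l = q at h2 hq0 hq1 ⊢
    have hq2 : q * x ≤ q * x ^ 4 := mul_le_mul_of_nonneg_left (by
      calc x = x * 1 := (mul_one x).symm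
        _ ≤ x * x ^ 3 := mul_le_mul_of_nonneg_left (one_le_pow₀ hx1) (by linarith)
        _ = x ^ 4 := by ring) hq0
    have hq3 : (q * x) ^ 2 ≤ q * x ^ 4 := by
      have e1 : q ^ 2 ≤ q := by nlinarith
      have e2 : x ^ 2 ≤ x ^ 4 := pow_le_pow_right₀ hx1 (by norm_num)
      rw [mul_pow]
      exact mul_le_mul e1 e2 (by positivity) hq0
    have hq4 : (q * x) ^ 3 ≤ q * x ^ 4 := by
      have e1 : q ^ 3 ≤ q := by
        calc q ^ 3 = q * q ^ 2 := by ring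
          _ ≤ q * 1 := mul_le_mul_of_nonneg_left (pow_le_one₀ hq0 hq1) hq0
          _ = q := mul_one q
      have e2 : x ^ 3 ≤ x ^ 4 := pow_le_pow_right₀ hx1 (by norm_num)
      rw [mul_pow]
      exact mul_le_mul e1 e2 (by positivity) hq0
    have hq5 : (q * x) ^ 4 ≤ q * x ^ 4 := by
      have e1 : q ^ 4 ≤ q := by
        calc q ^ 4 = q * q ^ 3 := by ring
          _ ≤ q * 1 := mul_le_mul_of_nonneg_left (pow_le_one₀ hq0 hq1) hq0
          _ = q := mul_one q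
      rw [mul_pow]
      exact mul_le_mul_of_nonneg_right e1 (by positivity)
    have h4 : (1 + q * x) ^ 4 ≤ 1 + 15 * q * x ^ 4 := by
      have : (1 + q * x) ^ 4 = 1 + 4 * (q * x) + 6 * (q * x) ^ 2 + 4 * (q * x) ^ 3 +
        (q * x) ^ 4 := by ring
      rw [this]
      linarith
    calc ‖Ex l (-b * PX R z w)‖ ^ 4 ≤ (y * (1 + q * x)) ^ 4 :=
          pow_le_pow_left₀ (norm_nonneg _) h2 4
      _ = y ^ 4 * (1 + q * x) ^ 4 := mul_pow _ _ _
      _ ≤ y ^ 4 * (1 + 15 * q * x ^ 4) := mul_le_mul_of_nonneg_left h4 (by positivity)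
      _ = y ^ 4 + 15 * q * x ^ 4 * y ^ 4 := by ring
      _ ≤ y ^ 4 + 15 * q * x ^ 4 * Y ^ 4 := by
          have := pow_le_pow_left₀ hy0 h3 4
          have h5 : 0 ≤ 15 * q * x ^ 4 := by positivity
          have := mul_le_mul_of_nonneg_left this h5
          linarith
      _ = y ^ 4 + 15 * q * (Y ^ 4 * x ^ 4) := by ring
  have hi1 : Integrable (fun w => ‖Ex l (-b * PX R z w)‖ ^ 4) mu :=
    integrable_of_continuous (((continuous_Ex l).comp (continuous_const.mul hc)).norm.pow 4)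
  have hi2 : Integrable (fun w => ‖cexp (-b * PX R z w)‖ ^ 4) mu :=
    integrable_of_continuous ((Complex.continuous_exp.comp (continuous_const.mul hc)).norm.pow 4)
  have hi3 : Integrable (fun w => 15 * (2 : ℝ)⁻¹ ^ l * Real.exp (16 * b * ‖PX R z w‖)) mu :=
    integrable_of_continuous (continuous_const.mul
      (Real.continuous_exp.comp (continuous_const.mul hc.norm)))
  have h2 : ∫ w, ‖Ex l (-b * PX R z w)‖ ^ 4 ∂mu ≤ ∫ w, (‖cexp (-b * PX R z w)‖ ^ 4 +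
      15 * (2 : ℝ)⁻¹ ^ l * Real.exp (16 * b * ‖PX R z w‖)) ∂mu :=
    integral_mono hi1 (hi2.add hi3) hpt
  rw [integral_add hi2 hi3, integral_const_mul] at h2
  have h3 := ha R δ z hR hz hδ
  have h4 := h1 R z hR hzl
  refine h2.trans ?_
  have h5 : Real.exp (4 * b ^ 2 * sR R + Ca * eR R δ) ≤
      Real.exp (4 * b ^ 2 * sR R + (Ca + C1 + 5) * eR R δ) := by
    apply Real.exp_le_exp.2
    have : 0 ≤ (C1 + 5) * eR R δ := by positivity
    linarith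
  have h6 : 1 ≤ Real.exp (4 * b ^ 2 * sR R + (Ca + C1 + 5) * eR R δ) :=
    Real.one_le_exp (by positivity)
  have h7 : 60 * Real.exp (C1 * sR R) ≤ Real.exp ((Ca + C1 + 5) * (sR R + 1)) := by
    have e1 : (60 : ℝ) ≤ Real.exp 5 := by
      have := Real.exp_one_gt_d9
      have h8 : Real.exp 5 = Real.exp 1 ^ 5 := by
        rw [← Real.exp_nat_mul]
        norm_num
      rw [h8]
      calc (60 : ℝ) ≤ 2.7 ^ 5 := by norm_num
        _ ≤ Real.exp 1 ^ 5 := pow_le_pow_left₀ (by norm_num) (by linarith) 5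
    calc 60 * Real.exp (C1 * sR R) ≤ Real.exp 5 * Real.exp (C1 * sR R) :=
          mul_le_mul_of_nonneg_right e1 (Real.exp_pos _).le
      _ = Real.exp (5 + C1 * sR R) := (Real.exp_add _ _).symm
      _ ≤ _ := by
          apply Real.exp_le_exp.2
          have : 0 ≤ (Ca + 5) * sR R := by positivity
          nlinarith
  have h8 : 15 * (2 : ℝ)⁻¹ ^ l * ∫ w, Real.exp (16 * b * ‖PX R z w‖) ∂mu ≤
      (2 : ℝ)⁻¹ ^ l * Real.exp ((Ca + C1 + 5) * (sR R + 1)) := by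
    calc 15 * (2 : ℝ)⁻¹ ^ l * ∫ w, Real.exp (16 * b * ‖PX R z w‖) ∂mu
        ≤ 15 * (2 : ℝ)⁻¹ ^ l * (4 * Real.exp (C1 * sR R)) :=
          mul_le_mul_of_nonneg_left h4 (by positivity)
      _ = (2 : ℝ)⁻¹ ^ l * (60 * Real.exp (C1 * sR R)) := by ring
      _ ≤ _ := mul_le_mul_of_nonneg_left h7 hq0
  have h9 : 0 ≤ (2 : ℝ)⁻¹ ^ l * Real.exp ((Ca + C1 + 5) * (sR R + 1)) := by positivity
  have h10 : (2 : ℝ)⁻¹ ^ l * Real.exp ((Ca + C1 + 5) * (sR R + 1)) ≤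
      Real.exp (4 * b ^ 2 * sR R + (Ca + C1 + 5) * eR R δ) *
        ((2 : ℝ)⁻¹ ^ l * Real.exp ((Ca + C1 + 5) * (sR R + 1))) := by
    calc (2 : ℝ)⁻¹ ^ l * Real.exp ((Ca + C1 + 5) * (sR R + 1))
        = 1 * ((2 : ℝ)⁻¹ ^ l * Real.exp ((Ca + C1 + 5) * (sR R + 1))) := (one_mul _).symm
      _ ≤ _ := mul_le_mul_of_nonneg_right h6 h9
  rw [mul_add, mul_one]
  exact add_le_add (h3.trans h5) (h8.trans h10)

end Pool.Agent.GH
end

section

set_option autoImplicit false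

namespace Pool.Agent.GH

open Complex MeasureTheory Finset
open scoped Real ComplexConjugate

private theorem by_Z : ∃ Z : ℝ, 0 ≤ Z ∧
    ∀ R : Finset ℕ, ∑ p ∈ R, (p : ℝ) ^ (-(3 / 2 : ℝ)) ≤ Z := by
  have hs : Summable (fun n : ℕ => (n : ℝ) ^ (-(3 / 2 : ℝ))) :=
    Real.summable_nat_rpow.2 (by norm_num)
  exact ⟨∑' n : ℕ, (n : ℝ) ^ (-(3 / 2 : ℝ)), tsum_nonneg fun n => by positivity,
    fun R => hs.sum_le_tsum R fun n _ => by positivity⟩

private theorem by_split {S : Sys} {C c : ℝ} (hS : Good S C c)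
    (gx : ℕ → Om → ℝ) (hgx : ∀ j ≤ S.J, Continuous (gx j))
    (hd : ∀ j ≤ S.J, ∀ w w' : Om, (∀ p ∈ S.R j, w p = w' p) → gx j w = gx j w') :
    ∫ w, ‖S.Y (nX 0 w)‖ ^ 4 * ∏ j ∈ Finset.range (S.J + 1), gx j w ∂mu =
    ∏ j ∈ Finset.range (S.J + 1), ∫ w, ‖Ex (S.l j) (-S.be * PX (S.R j) 0 w)‖ ^ 4 * gx j w ∂mu := by
  have hRj : ∀ j ≤ S.J, ∀ p ∈ S.R j, p.Prime := fun j hj p hp => (hS.prime j hj p hp).1
  have hc : ∀ j ≤ S.J, Continuous fun w => ‖Ex (S.l j) (-S.be * PX (S.R j) 0 w)‖ ^ 4 * gx j w := by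
    intro j hj
    exact ((((continuous_Ex _).comp (continuous_const.mul (continuous_PX _ _))).norm.pow 4)).mul
      (hgx j hj)
  have h := blocks_expect hS (fun _ => (1 : ℝ)) (fun _ => (1 : ℝ))
    (fun j w => ‖Ex (S.l j) (-S.be * PX (S.R j) 0 w)‖ ^ 4 * gx j w)
    measurable_const measurable_const (fun j hj => (hc j hj).measurable)
    (fun w w' _ => rfl) (fun w w' _ => rfl)
    (fun j hj w w' h => by
      rw [depends_PX (hRj j hj) 0 h, hd j hj w w' h])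
  have hmu : mu.real Set.univ = 1 := probReal_univ
  simp only [one_mul, mul_one, integral_const, hmu, smul_eq_mul] at h
  rw [← h]
  refine integral_congr_ae (Filter.Eventually.of_forall fun w => ?_)
  beta_reduce
  rw [Finset.prod_mul_distrib]
  congr 1
  unfold Sys.Y
  rw [norm_prod, ← Finset.prod_pow]
  rfl

private theorem by_est (k : ℝ) (hk : 0 < k) : ∃ Ca C1 : ℝ, 0 ≤ Ca ∧ 0 < C1 ∧
    ∀ (S : Sys) (C c : ℝ), S.k = k → Good S C c → Ca ≤ C →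
    ∀ G : Finset ℕ, G ⊆ Finset.range (S.J + 1) →
    ∏ j ∈ G, ∫ w, ‖Ex (S.l j) (-S.be * PX (S.R j) 0 w)‖ ^ 4 ∂mu ≤ C1 * S.Lam := by
  obtain ⟨Z, hZ0, hZ⟩ := by_Z
  obtain ⟨Ca, hCa, h⟩ := rm2 (k / 2) (by positivity)
  refine ⟨Ca, Real.exp (Ca * Z + 1), hCa, Real.exp_pos _, ?_⟩
  intro S C c hSk hS hC G hG
  have hbe : S.be = k / 2 := by unfold Sys.be; rw [hSk]
  rw [hbe]
  have hle : ∀ j ∈ G, j ≤ S.J := fun j hj => by
    have := Finset.mem_range.1 (hG hj); omega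
  have hs : ∀ j, 0 ≤ sR (S.R j) := fun j => Finset.sum_nonneg fun p _ => by positivity
  have h1 : ∏ j ∈ G, ∫ w, ‖Ex (S.l j) (-((k / 2 : ℝ) : ℂ) * PX (S.R j) 0 w)‖ ^ 4 ∂mu ≤
      ∏ j ∈ G, Real.exp ((k ^ 2 * sR (S.R j) + Ca * eR (S.R j) 0) +
        (2 : ℝ)⁻¹ ^ (S.l j) * Real.exp (Ca * (sR (S.R j) + 1))) := by
    refine Finset.prod_le_prod (fun j _ => integral_nonneg fun w => by positivity) fun j hj => ?_
    have h2 := h (S.R j) (S.l j) 0 0 (fun p hp => (hS.prime j (hle j hj) p hp).1)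
      (by rw [norm_zero]) (fun p _ => by rw [zero_mul]; norm_num)
    have h3 : 4 * (k / 2) ^ 2 = k ^ 2 := by ring
    rw [h3] at h2
    refine h2.trans ?_
    rw [Real.exp_add (k ^ 2 * sR (S.R j) + Ca * eR (S.R j) 0)]
    refine mul_le_mul_of_nonneg_left ?_ (Real.exp_pos _).le
    rw [add_comm]
    exact Real.add_one_le_exp _
  refine h1.trans ?_
  rw [← Real.exp_sum, Finset.sum_add_distrib, Finset.sum_add_distrib, ← Finset.mul_sum,
    ← Finset.mul_sum]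
  unfold Sys.Lam
  rw [hSk, ← Real.exp_add]
  apply Real.exp_le_exp.2
  have h4 : ∑ j ∈ G, sR (S.R j) ≤ ∑ j ∈ Finset.range (S.J + 1), sR (S.R j) :=
    Finset.sum_le_sum_of_subset_of_nonneg hG fun j _ _ => hs j
  have h5 : ∑ j ∈ G, eR (S.R j) 0 ≤ Z := by
    unfold eR
    simp only [zero_mul, add_zero]
    rw [← Finset.sum_biUnion]
    · exact hZ _
    · intro i hi j hj hij
      exact hS.disj i (hle i hi) j (hle j hj) hij
  have h6 : ∑ j ∈ G, (2 : ℝ)⁻¹ ^ (S.l j) * Real.exp (Ca * (sR (S.R j) + 1)) ≤ 1 := by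
    calc ∑ j ∈ G, (2 : ℝ)⁻¹ ^ (S.l j) * Real.exp (Ca * (sR (S.R j) + 1))
        ≤ ∑ j ∈ Finset.range (S.J + 1), (2 : ℝ)⁻¹ ^ (S.l j) * Real.exp (Ca * (sR (S.R j) + 1)) :=
          Finset.sum_le_sum_of_subset_of_nonneg hG fun j _ _ => by positivity
      _ ≤ ∑ j ∈ Finset.range (S.J + 1), (2 : ℝ)⁻¹ ^ (S.l j) * Real.exp (C * (sR (S.R j) + 1)) := by
          refine Finset.sum_le_sum fun j _ => ?_
          refine mul_le_mul_of_nonneg_left (Real.exp_le_exp.2 ?_) (by positivity)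
          exact mul_le_mul_of_nonneg_right hC (by linarith [hs j])
      _ ≤ S.θ ^ 2 := hS.trunc
      _ ≤ 1 := pow_le_one₀ hS.θ_pos.le (by linarith [hS.θ_le])
  have h7 := mul_le_mul_of_nonneg_left h4 (sq_nonneg k)
  have h8 := mul_le_mul_of_nonneg_left h5 hCa
  linarith

theorem Y_moment (k : ℝ) : ∃ C0 C1 : ℝ, 0 < C1 ∧ ∀ (S : Sys) (C c : ℝ), S.k = k →
    Good S C c → C0 ≤ C → ∫ w, ‖S.Y (nX 0 w)‖ ^ 4 ∂mu ≤ C1 * S.Lam := by
  by_cases hk : 0 < k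
  swap
  · exact ⟨0, 1, one_pos, fun S C c h1 h3 => absurd (h1 ▸ h3.k_pos) hk⟩
  obtain ⟨Ca, C1, hCa, hC1, h⟩ := by_est k hk
  refine ⟨Ca, C1, hC1, ?_⟩
  intro S C c hSk hS hC
  have h1 := by_split hS (fun _ _ => (1 : ℝ)) (fun _ _ => continuous_const)
    (fun _ _ _ _ _ => rfl)
  simp only [Finset.prod_const_one, mul_one] at h1
  rw [h1]
  exact h S C c hSk hS hC _ (Finset.Subset.refl _)

theorem Y_bad (k : ℝ) : ∃ C0 C1 : ℝ, 0 < C1 ∧ ∀ (S : Sys) (C c : ℝ), S.k = k →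
    Good S C c → C0 ≤ C → ∀ j ≤ S.J,
    ∫ w, ‖S.Y (nX 0 w)‖ ^ 4 * (‖PX (S.R j) 0 w‖ / S.lam j) ^ (2 * S.l j) ∂mu ≤
      C1 * S.Lam * (Real.exp (C * (sR (S.R j) + 1)) *
        (2 * S.l j * sR (S.R j) / S.lam j ^ 2) ^ (S.l j)) := by
  by_cases hk : 0 < k
  swap
  · exact ⟨0, 1, one_pos, fun S C c h1 h3 => absurd (h1 ▸ h3.k_pos) hk⟩
  obtain ⟨Ca, C1, hCa, hC1, h⟩ := by_est k hk
  obtain ⟨Cb, hCb, hb⟩ := rm4 (k / 2) (by positivity)
  refine ⟨max Ca Cb, C1, hC1, ?_⟩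
  intro S C c hSk hS hC j hj
  have hbe : S.be = k / 2 := by unfold Sys.be; rw [hSk]
  have hRj : ∀ p ∈ S.R j, p.Prime := fun p hp => (hS.prime j hj p hp).1
  have hs : 0 ≤ sR (S.R j) := Finset.sum_nonneg fun p _ => by positivity
  have hjm : j ∈ Finset.range (S.J + 1) := Finset.mem_range.2 (by omega)
  have hl : (1 : ℝ) ≤ S.l j := by exact_mod_cast hS.l_ge j hj
  have hlam : 0 < S.lam j := by
    unfold Sys.lam
    have := hS.k_pos
    positivity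
  have h1 := by_split hS
    (fun i w => if i = j then (‖PX (S.R j) 0 w‖ / S.lam j) ^ (2 * S.l j) else 1)
    (fun i hi => by
      by_cases hij : i = j
      · simp only [hij, if_true]
        exact ((continuous_PX _ _).norm.div_const _).pow _
      · simp only [hij, if_false]
        exact continuous_const)
    (fun i hi w w' hw => by
      by_cases hij : i = j
      · subst hij
        simp only [if_true]
        rw [depends_PX hRj 0 hw]
      · simp only [hij, if_false])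
  have h2 : ∀ w, ∏ i ∈ Finset.range (S.J + 1),
      (if i = j then (‖PX (S.R j) 0 w‖ / S.lam j) ^ (2 * S.l j) else (1 : ℝ)) =
      (‖PX (S.R j) 0 w‖ / S.lam j) ^ (2 * S.l j) := by
    intro w
    rw [Finset.prod_ite_eq' (Finset.range (S.J + 1)) j
      (fun _ => (‖PX (S.R j) 0 w‖ / S.lam j) ^ (2 * S.l j)), if_pos hjm]
  simp only [h2] at h1
  rw [h1, ← Finset.mul_prod_erase _ _ hjm]
  have h3 : ∫ w, ‖Ex (S.l j) (-S.be * PX (S.R j) 0 w)‖ ^ 4 *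
      (if j = j then (‖PX (S.R j) 0 w‖ / S.lam j) ^ (2 * S.l j) else (1 : ℝ)) ∂mu ≤
      Real.exp (C * (sR (S.R j) + 1)) * (2 * S.l j * sR (S.R j) / S.lam j ^ 2) ^ (S.l j) := by
    simp only [if_true]
    rw [hbe]
    refine (hb (S.R j) (S.l j) (S.l j) (S.lam j) hRj hlam).trans ?_
    refine mul_le_mul_of_nonneg_right (Real.exp_le_exp.2 ?_) (by positivity)
    exact mul_le_mul_of_nonneg_right ((le_max_right _ _).trans hC) (by linarith)
  have h4 : ∏ i ∈ (Finset.range (S.J + 1)).erase j, ∫ w, ‖Ex (S.l i) (-S.be * PX (S.R i) 0 w)‖ ^ 4 *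
      (if i = j then (‖PX (S.R j) 0 w‖ / S.lam j) ^ (2 * S.l j) else (1 : ℝ)) ∂mu =
      ∏ i ∈ (Finset.range (S.J + 1)).erase j, ∫ w, ‖Ex (S.l i) (-S.be * PX (S.R i) 0 w)‖ ^ 4 ∂mu := by
    refine Finset.prod_congr rfl fun i hi => ?_
    have : i ≠ j := (Finset.mem_erase.1 hi).1
    simp only [this, if_false, mul_one]
  rw [h4]
  have h5 := h S C c hSk hS ((le_max_left _ _).trans hC) _ (Finset.erase_subset j _)
  rw [mul_comm (C1 * S.Lam)]
  refine mul_le_mul h3 h5 (Finset.prod_nonneg fun i _ => integral_nonneg fun w => by positivity)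
    (by positivity)

end Pool.Agent.GH
end
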