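import Pool.Agent.Lib.MP_69b2e4_nt.Mg.G040
import Pool.Agent.Lib.MP_69b2e4_nt.GH.RM3
import Pool.Agent.Lib.MP_69b2e4_nt.Mg.G044
import Pool.Agent.Lib.MP_69b2e4_nt.Mg.G048
import Pool.Agent.Lib.MP_69b2e4_nt.Mg.G047

section

/-! TASK BX. The lower bound for the mixed expectation.
`blocks_expect` with complex functions: small block: `∫ Zt R0 (1/2) = 1` and fine block `∫ Zt Rf (1/2) * Ex lf (-(1/2) PX Rf 0)^2 = 1` (`rm3c`, with `l = 0` for the small block: `Ex 0 = 1`); coarse blocks: `rm3` with `z = -(v I)`, `δ = h`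
(`h log p ≤ θ^{-3} θ^5 = θ² ≤ 1`): norm `≥ exp(k² s_j - C' e_j)(1 - 2^{-l_j} e^{C'(s_j+1)})`, all factors `≥ 0` by `trunc`; `∑ e_j ≤ 3 + h ∑∑ log p/p ≤ 3 + 2θ²` (`logc`) and `∏(1-x_j) ≥ 1 - ∑ x_j ≥ 1/2`.
(`Y` has no factor for the small and fine primes.) `Y(..)^2` is a product of squares, `conj` of a product is the product of the `conj`. -/

set_option autoImplicit false

namespace Pool.Agent.GH

open Complex MeasureTheory Finset
open scoped Real ComplexConjugate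

private theorem BX_prod_one_sub (n : ℕ) (x : ℕ → ℝ) (h0 : ∀ j ∈ Finset.range n, 0 ≤ x j)
    (h1 : ∑ j ∈ Finset.range n, x j ≤ 1) :
    1 - ∑ j ∈ Finset.range n, x j ≤ ∏ j ∈ Finset.range n, (1 - x j) := by
  induction n with
  | zero => simp
  | succ n ih =>
    rw [Finset.sum_range_succ] at h1 ⊢
    rw [Finset.prod_range_succ]
    have hxn : 0 ≤ x n := h0 n (Finset.self_mem_range_succ n)
    have hs0 : 0 ≤ ∑ j ∈ Finset.range n, x j := Finset.sum_nonneg fun j hj =>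
      h0 j (Finset.mem_range.2 (Nat.lt_succ_of_lt (Finset.mem_range.1 hj)))
    have h2 := ih (fun j hj => h0 j (Finset.mem_range.2 (Nat.lt_succ_of_lt (Finset.mem_range.1 hj))))
      (by linarith)
    have h3 : 0 ≤ 1 - x n := by linarith
    calc 1 - (∑ j ∈ Finset.range n, x j + x n)
        ≤ (1 - ∑ j ∈ Finset.range n, x j) * (1 - x n) := by nlinarith
      _ ≤ (∏ j ∈ Finset.range n, (1 - x j)) * (1 - x n) := mul_le_mul_of_nonneg_right h2 h3

private theorem BX_Ex0 (x : ℂ) : Ex 0 x = 1 := by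
  simp [Ex]

theorem cross_lower (k : ℝ) (hk : 0 < k) : ∃ (p00 : ℕ) (C0 c1 : ℝ), 0 < c1 ∧
    ∀ (S : Sys) (C c v : ℝ), S.k = k → p00 ≤ S.p0 → Good S C c → C0 ≤ C → |v| ≤ S.h →
    c1 * S.Lam ≤ ‖∫ w, Zt (Nat.primesBelow S.M) (1 / 2) w * S.V (nX 0 w) ^ 2 *
      conj (S.Y (nX (-(v * I)) w) ^ 2) ∂mu‖ := by
  obtain ⟨C₁, q0, hC₁, hrm⟩ := rm3 k hk
  have hsumm : Summable fun n : ℕ => (n : ℝ) ^ (-(3 / 2 : ℝ)) :=
    Real.summable_nat_rpow.2 (by norm_num)
  obtain ⟨K, hK⟩ : ∃ K : ℝ, K = ∑' n : ℕ, (n : ℝ) ^ (-(3 / 2 : ℝ)) := ⟨_, rfl⟩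
  refine ⟨q0, C₁, Real.exp (-(C₁ * (K + 1))) / 2, by positivity, ?_⟩
  intro S C c v hSk hp0 hS hC hv
  obtain ⟨z, hz⟩ : ∃ z : ℂ, z = -(v * I) := ⟨_, rfl⟩
  have hθ := hS.θ_pos
  have hθ1 := hS.θ_le
  have hL : 0 < S.L := lt_of_lt_of_le (by positivity) hS.L_ge
  have hh : S.h = 1 / (S.θ ^ 3 * S.L) := by
    unfold Sys.h Sys.A
    field_simp
  have hh0 : 0 ≤ S.h := by rw [hh]; positivity
  have hz1 : ‖z‖ ≤ S.h := by
    rw [hz, norm_neg, norm_mul, norm_I, mul_one, Complex.norm_real]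
    exact hv
  have hR0 : ∀ p ∈ S.R0, p.Prime := by
    intro p hp
    unfold Sys.R0 at hp
    exact Nat.prime_of_mem_primesBelow (Finset.mem_filter.1 hp).1
  have hRf : ∀ p ∈ S.Rf, p.Prime := by
    classical
    intro p hp
    unfold Sys.Rf at hp
    exact Nat.prime_of_mem_primesBelow (Finset.mem_filter.1 hp).1
  have hRj : ∀ j ≤ S.J, ∀ p ∈ S.R j, p.Prime := fun j hj p hp => (hS.prime j hj p hp).1
  -- the blocks
  obtain ⟨g0, hg0⟩ : ∃ g0 : Om → ℂ, g0 = fun w => Zt S.R0 (1 / 2) w := ⟨_, rfl⟩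
  obtain ⟨gf, hgf⟩ : ∃ gf : Om → ℂ, gf = fun w => Zt S.Rf (1 / 2) w *
    Ex S.lf (-(1 / 2 : ℝ) * PX S.Rf 0 w) ^ 2 := ⟨_, rfl⟩
  obtain ⟨g, hg⟩ : ∃ g : ℕ → Om → ℂ, g = fun j w => Zt (S.R j) (1 / 2) w *
    Ex (S.l j) (-((k + 1) / 2 : ℝ) * PX (S.R j) 0 w) ^ 2 *
      conj (Ex (S.l j) (-(k / 2 : ℝ) * PX (S.R j) z w) ^ 2) := ⟨_, rfl⟩
  have c0 : Continuous g0 := by
    rw [hg0]
    exact continuous_Zt _ hR0 (by norm_num)
  have cf : Continuous gf := by
    rw [hgf]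
    exact (continuous_Zt _ hRf (by norm_num)).mul
      (((continuous_Ex _).comp (continuous_const.mul (continuous_PX _ _))).pow 2)
  have cg : ∀ j ≤ S.J, Continuous (g j) := by
    intro j hj
    rw [hg]
    exact ((continuous_Zt _ (hRj j hj) (by norm_num)).mul
      (((continuous_Ex _).comp (continuous_const.mul (continuous_PX _ _))).pow 2)).mul
      (Complex.continuous_conj.comp
        (((continuous_Ex _).comp (continuous_const.mul (continuous_PX _ _))).pow 2))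
  have hblock := blocks_expect hS g0 gf g c0.measurable cf.measurable
    (fun j hj => (cg j hj).measurable)
    (by
      intro w w' h
      rw [hg0]
      exact depends_Zt _ h)
    (by
      intro w w' h
      rw [hgf]
      show Zt S.Rf (1 / 2) w * Ex S.lf (-(1 / 2 : ℝ) * PX S.Rf 0 w) ^ 2 =
        Zt S.Rf (1 / 2) w' * Ex S.lf (-(1 / 2 : ℝ) * PX S.Rf 0 w') ^ 2
      rw [depends_Zt _ h, depends_PX hRf 0 h])
    (by
      intro j hj w w' h
      rw [hg]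
      show Zt (S.R j) (1 / 2) w * Ex (S.l j) (-((k + 1) / 2 : ℝ) * PX (S.R j) 0 w) ^ 2 *
        conj (Ex (S.l j) (-(k / 2 : ℝ) * PX (S.R j) z w) ^ 2) =
        Zt (S.R j) (1 / 2) w' * Ex (S.l j) (-((k + 1) / 2 : ℝ) * PX (S.R j) 0 w') ^ 2 *
        conj (Ex (S.l j) (-(k / 2 : ℝ) * PX (S.R j) z w') ^ 2)
      rw [depends_Zt _ h, depends_PX (hRj j hj) 0 h, depends_PX (hRj j hj) z h])
  have hint : ∀ w, Zt (Nat.primesBelow S.M) (1 / 2) w * S.V (nX 0 w) ^ 2 *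
      conj (S.Y (nX z w) ^ 2) = g0 w * (∏ j ∈ Finset.range (S.J + 1), g j w) * gf w := by
    intro w
    have hV : S.V (nX 0 w) = (∏ j ∈ Finset.range (S.J + 1),
        Ex (S.l j) (-((k + 1) / 2 : ℝ) * PX (S.R j) 0 w)) *
        Ex S.lf (-(1 / 2 : ℝ) * PX S.Rf 0 w) := by
      unfold Sys.V Sys.Vc Sys.al PX
      rw [hSk]
    have hY : S.Y (nX z w) = ∏ j ∈ Finset.range (S.J + 1),
        Ex (S.l j) (-(k / 2 : ℝ) * PX (S.R j) z w) := by
      unfold Sys.Y Sys.be PX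
      rw [hSk]
    rw [Zt_parts hS, hV, hY, hg0, hgf, hg]
    simp only [Finset.prod_mul_distrib, map_pow, map_prod, Finset.prod_pow]
    ring
  have hE0 : ∫ w, g0 w ∂mu = 1 := by
    have h1 := rm3c 0 S.R0 hR0 0
    rw [← h1, hg0]
    congr 1
    funext w
    rw [BX_Ex0]
    ring
  have hEf : ∫ w, gf w ∂mu = 1 := by
    rw [hgf]
    exact rm3c (1 / 2) S.Rf hRf S.lf
  rw [← hz]
  have heq : ∫ w, Zt (Nat.primesBelow S.M) (1 / 2) w * S.V (nX 0 w) ^ 2 *
      conj (S.Y (nX z w) ^ 2) ∂mu = ∏ j ∈ Finset.range (S.J + 1), ∫ w, g j w ∂mu := by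
    rw [integral_congr_ae (Filter.Eventually.of_forall hint), hblock, hE0, hEf]
    ring
  rw [heq, norm_prod]
  -- the numbers
  obtain ⟨x, hx⟩ : ∃ x : ℕ → ℝ, x = fun j => (2 : ℝ)⁻¹ ^ (S.l j) *
    Real.exp (C₁ * (sR (S.R j) + 1)) := ⟨_, rfl⟩
  have hsR : ∀ j, 0 ≤ sR (S.R j) := fun j => Finset.sum_nonneg fun p _ => by positivity
  have hx0 : ∀ j, 0 ≤ x j := fun j => by rw [hx]; positivity
  have hxs : ∑ j ∈ Finset.range (S.J + 1), x j ≤ S.θ ^ 2 := by
    refine le_trans (Finset.sum_le_sum fun j _ => ?_) hS.trunc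
    rw [hx]
    apply mul_le_mul_of_nonneg_left _ (by positivity)
    apply Real.exp_le_exp.2
    apply mul_le_mul_of_nonneg_right hC
    have := hsR j
    linarith
  have hθ2 : S.θ ^ 2 ≤ 1 / 2 := by nlinarith
  have hx1 : ∀ j ∈ Finset.range (S.J + 1), x j ≤ 1 := by
    intro j hj
    have h1 := Finset.single_le_sum (f := x) (fun i _ => hx0 i) hj
    linarith
  have hlow : ∀ j ∈ Finset.range (S.J + 1),
      Real.exp (k ^ 2 * sR (S.R j) - C₁ * eR (S.R j) S.h) * (1 - x j) ≤ ‖∫ w, g j w ∂mu‖ := by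
    intro j hj
    have hjJ : j ≤ S.J := Nat.lt_succ_iff.1 (Finset.mem_range.1 hj)
    rw [hx, hg]
    refine hrm (S.R j) (S.l j) S.h z ?_ hz1 ?_
    · intro p hp
      have h1 := hS.prime j hjJ p hp
      exact ⟨h1.1, by omega⟩
    · intro p hp
      have h1 := (hS.prime j hjJ p hp).2.2.1
      calc S.h * Real.log p ≤ S.h * (S.θ ^ 5 * S.L) := mul_le_mul_of_nonneg_left h1 hh0
        _ = S.θ ^ 2 := by
          rw [hh]
          field_simp
        _ ≤ 1 := by linarith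
  have hprod : (∏ j ∈ Finset.range (S.J + 1),
      Real.exp (k ^ 2 * sR (S.R j) - C₁ * eR (S.R j) S.h)) *
      ∏ j ∈ Finset.range (S.J + 1), (1 - x j) ≤ ∏ j ∈ Finset.range (S.J + 1), ‖∫ w, g j w ∂mu‖ := by
    rw [← Finset.prod_mul_distrib]
    refine Finset.prod_le_prod (fun j hj => ?_) hlow
    have h1 := hx1 j hj
    exact mul_nonneg (Real.exp_pos _).le (by linarith)
  refine le_trans ?_ hprod
  rw [← Real.exp_sum]
  have hlow2 : (1 : ℝ) / 2 ≤ ∏ j ∈ Finset.range (S.J + 1), (1 - x j) := by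
    have h1 := BX_prod_one_sub (S.J + 1) x (fun j _ => hx0 j) (by linarith)
    linarith
  -- the errors
  have herr : ∑ j ∈ Finset.range (S.J + 1), eR (S.R j) S.h ≤ K + 1 := by
    have h1 : ∑ j ∈ Finset.range (S.J + 1), eR (S.R j) S.h =
        (∑ j ∈ Finset.range (S.J + 1), ∑ p ∈ S.R j, (p : ℝ) ^ (-(3 / 2 : ℝ))) +
        S.h * ∑ j ∈ Finset.range (S.J + 1), ∑ p ∈ S.R j, Real.log p / p := by
      unfold eR
      simp only [Finset.sum_add_distrib, Finset.mul_sum]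
    have h2 : ∑ j ∈ Finset.range (S.J + 1), ∑ p ∈ S.R j, (p : ℝ) ^ (-(3 / 2 : ℝ)) ≤ K := by
      have h3 := sum_parts hS (fun p : ℕ => (p : ℝ) ^ (-(3 / 2 : ℝ)))
      have h4 : (0 : ℝ) ≤ ∑ p ∈ S.R0, (p : ℝ) ^ (-(3 / 2 : ℝ)) :=
        Finset.sum_nonneg fun p _ => by positivity
      have h5 : (0 : ℝ) ≤ ∑ p ∈ S.Rf, (p : ℝ) ^ (-(3 / 2 : ℝ)) :=
        Finset.sum_nonneg fun p _ => by positivity
      have h6 : ∑ p ∈ Nat.primesBelow S.M, (p : ℝ) ^ (-(3 / 2 : ℝ)) ≤ K := by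
        rw [hK]
        exact hsumm.sum_le_tsum _ (fun n _ => by positivity)
      linarith
    have h3 : S.h * ∑ j ∈ Finset.range (S.J + 1), ∑ p ∈ S.R j, Real.log p / p ≤ 1 := by
      calc S.h * ∑ j ∈ Finset.range (S.J + 1), ∑ p ∈ S.R j, Real.log p / p
          ≤ S.h * (2 * S.θ ^ 5 * S.L) := mul_le_mul_of_nonneg_left hS.logc hh0
        _ = 2 * S.θ ^ 2 := by
          rw [hh]
          field_simp
        _ ≤ 1 := by linarith
    rw [h1]
    linarith
  have hsum : ∑ j ∈ Finset.range (S.J + 1), (k ^ 2 * sR (S.R j) - C₁ * eR (S.R j) S.h) =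
      k ^ 2 * ∑ j ∈ Finset.range (S.J + 1), sR (S.R j) -
        C₁ * ∑ j ∈ Finset.range (S.J + 1), eR (S.R j) S.h := by
    rw [Finset.sum_sub_distrib, Finset.mul_sum, Finset.mul_sum]
  rw [hsum]
  have hLam : S.Lam = Real.exp (k ^ 2 * ∑ j ∈ Finset.range (S.J + 1), sR (S.R j)) := by
    unfold Sys.Lam
    rw [hSk]
  calc Real.exp (-(C₁ * (K + 1))) / 2 * S.Lam
      = Real.exp (k ^ 2 * ∑ j ∈ Finset.range (S.J + 1), sR (S.R j) - C₁ * (K + 1)) * (1 / 2) := by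
        rw [hLam, sub_eq_add_neg, Real.exp_add]
        ring
    _ ≤ _ := by
        apply mul_le_mul _ hlow2 (by norm_num) (Real.exp_pos _).le
        apply Real.exp_le_exp.2
        have := mul_le_mul_of_nonneg_left herr hC₁
        linarith

end Pool.Agent.GH
end

section

/-! TASK Step1. The lower bound of the weighted integral.
For `t ∈ [T,2T]`: `yf t * Jf t = ∫_0^h ‖ζ(1/2+i(t+v))‖ ‖V(t+v)‖² ‖Y(t)‖² dv` (substitute `u = t+v`). Fubini (continuous functions) and the triangle inequality: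
`∫_T^{2T} yf Jf ≥ ∫_0^h ‖∫_T^{2T} ζ(1/2+i(t+v)) V(..)^2 conj(Y(..)^2) dt‖ dv`. By `first_moment` (with `U = V²`, `W = Y²`, `len_V2`, `len_Y2`, `h ≤ 1`) and `cross_lower` the inner norm is at least
`T c1 Lam - T^{9/10} ≥ (c1/2) T Lam` for `T ≥ T0` (`Lam ≥ c L^{k²} ≥ c`, so `T0` depends on `c, k`). (`IsDP Set.univ` for `U` by `IsDP.mono`.) -/

set_option autoImplicit false

namespace Pool.Agent.GH

open Complex MeasureTheory Finset
open scoped Real ComplexConjugate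

private theorem Step1_hbound {S : Sys} {C c : ℝ} (hS : Good S C c) :
    1 ≤ S.L ∧ 0 < S.h ∧ S.h ≤ 1 := by
  have hθ := hS.θ_pos
  have hθ1 : S.θ ≤ 1 := hS.θ_le.trans (by norm_num)
  have h1 : 1 ≤ 1 / S.θ ^ 10 := by
    rw [le_div_iff₀ (by positivity), one_mul]
    exact pow_le_one₀ hθ.le hθ1
  have hL : 1 ≤ S.L := h1.trans hS.L_ge
  have hL0 : 0 < S.L := by linarith
  refine ⟨hL, ?_, ?_⟩
  · unfold Sys.h Sys.A
    positivity
  · unfold Sys.h Sys.A
    rw [div_le_one hL0]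
    refine le_trans ?_ hS.L_ge
    apply one_div_le_one_div_of_le (by positivity)
    exact pow_le_pow_of_le_one hθ.le hθ1 (by norm_num)

private theorem Step1_window {f g : ℝ → ℝ} (hf : Continuous f) (hg : Continuous g) {a b h m : ℝ}
    (hh : 0 ≤ h)
    (hm : ∀ v : ℝ, 0 ≤ v → v ≤ h → m ≤ ∫ t in a..b, f t * g (t + v)) :
    h * m ≤ ∫ t in a..b, f t * ∫ u in t..(t + h), g u := by
  have h1 : (∫ t in a..b, f t * ∫ u in t..(t + h), g u) =
      ∫ t in a..b, ∫ v in (0 : ℝ)..h, f t * g (t + v) := by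
    refine intervalIntegral.integral_congr fun t _ => ?_
    rw [intervalIntegral.integral_const_mul]
    congr 1
    have h2 := intervalIntegral.integral_comp_add_left (fun u => g u) t (a := 0) (b := h)
    rw [h2, add_zero]
  have h3 : (∫ t in a..b, ∫ v in (0 : ℝ)..h, f t * g (t + v)) =
      ∫ v in (0 : ℝ)..h, ∫ t in a..b, f t * g (t + v) := by
    refine MeasureTheory.intervalIntegral_intervalIntegral_swap (F := fun t v => f t * g (t + v)) ?_
    have hc : Continuous (Function.uncurry fun t v => f t * g (t + v)) := by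
      unfold Function.uncurry
      fun_prop
    refine IntegrableOn.mono_set (t := Set.uIcc a b ×ˢ Set.uIcc 0 h) ?_
      (Set.prod_mono Set.uIoc_subset_uIcc Set.uIoc_subset_uIcc)
    exact hc.continuousOn.integrableOn_compact (isCompact_uIcc.prod isCompact_uIcc)
  rw [h1, h3]
  have hc2 : Continuous fun v => ∫ t in a..b, f t * g (t + v) := by
    apply intervalIntegral.continuous_parametric_intervalIntegral_of_continuous'
    unfold Function.uncurry
    fun_prop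
  have h4 : ∫ _v in (0 : ℝ)..h, m ≤ ∫ v in (0 : ℝ)..h, ∫ t in a..b, f t * g (t + v) := by
    refine intervalIntegral.integral_mono_on hh (continuous_const.intervalIntegrable _ _)
      (hc2.intervalIntegrable _ _) fun v hv => hm v hv.1 hv.2
  rw [intervalIntegral.integral_const, sub_zero, smul_eq_mul] at h4
  exact h4

theorem step1 (k : ℝ) (hk : 0 < k) : ∃ (p00 : ℕ) (C0 c1 : ℝ), 0 < c1 ∧ ∀ c : ℝ, 0 < c → ∃ T0 : ℝ,
    ∀ (S : Sys) (C : ℝ), S.k = k → p00 ≤ S.p0 → Good S C c → C0 ≤ C → T0 ≤ S.T →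
    c1 * S.h * S.T * S.Lam ≤ ∫ t in S.T..(2 * S.T), S.yf t * S.Jf t := by
  obtain ⟨p00, C0, c1, hc1, hcross⟩ := cross_lower k hk
  obtain ⟨T1, hT1, hfm⟩ := first_moment
  refine ⟨p00, C0, c1 / 2, by positivity, fun c hc => ?_⟩
  refine ⟨max T1 ((2 / (c1 * c)) ^ 10), fun S C hSk hp hS hC hT => ?_⟩
  obtain ⟨hL, hh0, hh1⟩ := Step1_hbound hS
  have hTT1 : T1 ≤ S.T := (le_max_left _ _).trans hT
  have hTT2 : (2 / (c1 * c)) ^ 10 ≤ S.T := (le_max_right _ _).trans hT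
  have hT0 : 0 < S.T := by linarith
  have hLam : c ≤ S.Lam := by
    refine le_trans ?_ hS.lam_ge
    have h1 : 1 ≤ S.L ^ (S.k ^ 2) := Real.one_le_rpow hL (sq_nonneg _)
    nlinarith
  have hpow : S.T ^ (9 / 10 : ℝ) ≤ c1 / 2 * S.T * S.Lam := by
    have h1 : 2 / (c1 * c) ≤ S.T ^ (1 / 10 : ℝ) := by
      have h2 := Real.rpow_le_rpow (by positivity) hTT2 (show (0 : ℝ) ≤ 1 / 10 by norm_num)
      have h3 : ((2 / (c1 * c)) ^ 10 : ℝ) ^ (1 / 10 : ℝ) = 2 / (c1 * c) := by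
        rw [← Real.rpow_natCast, ← Real.rpow_mul (by positivity)]
        norm_num
      rwa [h3] at h2
    have h4 : S.T = S.T ^ (9 / 10 : ℝ) * S.T ^ (1 / 10 : ℝ) := by
      rw [← Real.rpow_add hT0]
      norm_num
    have h5 : 0 < S.T ^ (9 / 10 : ℝ) := Real.rpow_pos_of_pos hT0 _
    have h6 : 1 ≤ c1 / 2 * c * S.T ^ (1 / 10 : ℝ) := by
      have h7 := mul_le_mul_of_nonneg_left h1 (show 0 ≤ c1 / 2 * c by positivity)
      have h8 : c1 / 2 * c * (2 / (c1 * c)) = 1 := by field_simp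
      linarith
    calc S.T ^ (9 / 10 : ℝ) ≤ S.T ^ (9 / 10 : ℝ) * (c1 / 2 * c * S.T ^ (1 / 10 : ℝ)) :=
          le_mul_of_one_le_right h5.le h6
      _ = c1 / 2 * (S.T ^ (9 / 10 : ℝ) * S.T ^ (1 / 10 : ℝ)) * c := by ring
      _ = c1 / 2 * S.T * c := by rw [← h4]
      _ ≤ c1 / 2 * S.T * S.Lam := mul_le_mul_of_nonneg_left hLam (by positivity)
  have hcY : Continuous S.yf := by
    have h1 := continuous_dp_line (len_Y2 hS)
    have h2 : S.yf = fun t : ℝ => ‖S.Y (nC (1 / 2 + t * I)) ^ 2‖ := by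
      funext t
      unfold Sys.yf
      rw [norm_pow]
    rw [h2]
    exact h1.norm
  have hcV : Continuous S.vf := by
    have h1 := continuous_dp_line (len_V hS)
    exact (h1.norm).pow 2
  have hcZ : Continuous fun u : ℝ => ‖riemannZeta (1 / 2 + u * I)‖ := by
    have h1 := continuous_zeta_line 0 (by norm_num)
    have h2 : (fun u : ℝ => ‖riemannZeta (1 / 2 + u * I)‖) =
        fun u : ℝ => ‖riemannZeta (1 / 2 + ((0 : ℝ) : ℂ) + u * I)‖ := by
      funext u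
      simp
    rw [h2]
    exact h1.norm
  have hcG : Continuous fun u : ℝ => ‖riemannZeta (1 / 2 + u * I)‖ * S.vf u := hcZ.mul hcV
  have hmain := Step1_window (f := S.yf)
    (g := fun u : ℝ => ‖riemannZeta (1 / 2 + u * I)‖ * S.vf u) hcY hcG (a := S.T) (b := 2 * S.T)
    (h := S.h) (m := c1 / 2 * S.T * S.Lam) hh0.le fun v hv0 hvh => ?_
  · calc c1 / 2 * S.h * S.T * S.Lam = S.h * (c1 / 2 * S.T * S.Lam) := by ring
      _ ≤ _ := hmain
  · have hv1 : v ≤ 1 := hvh.trans hh1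
    have hf := hfm S.T v S.M (fun χ => S.V χ ^ 2) (fun χ => S.Y χ ^ 2) hTT1 hv0 hv1
      ((len_V2 hS).mono (Set.subset_univ _) le_rfl le_rfl) (len_Y2 hS)
    have hcr := hcross S C c v hSk hp hS hC (by rwa [abs_of_nonneg hv0])
    set E : ℂ := ∫ w, Zt (Nat.primesBelow S.M) (1 / 2) w * S.V (nX 0 w) ^ 2 *
      conj (S.Y (nX (-(v * I)) w) ^ 2) ∂mu with hE
    set Gv : ℂ := ∫ t in S.T..(2 * S.T), riemannZeta (1 / 2 + (t + v) * I) *
      S.V (nC (1 / 2 + (t + v) * I)) ^ 2 * conj (S.Y (nC (1 / 2 + t * I)) ^ 2) with hGv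
    have h1 : ‖(S.T : ℂ) * E‖ ≤ ‖Gv‖ + S.T ^ (9 / 10 : ℝ) := by
      have h2 : (S.T : ℂ) * E = Gv - (Gv - S.T * E) := by ring
      rw [h2]
      exact (norm_sub_le _ _).trans (by linarith)
    have h2 : c1 * S.Lam * S.T ≤ ‖(S.T : ℂ) * E‖ := by
      rw [norm_mul, Complex.norm_real, Real.norm_of_nonneg hT0.le, mul_comm S.T]
      exact mul_le_mul_of_nonneg_right hcr hT0.le
    have h3 : ‖Gv‖ ≤ ∫ t in S.T..(2 * S.T),
        S.yf t * (‖riemannZeta (1 / 2 + ((t + v : ℝ) : ℂ) * I)‖ * S.vf (t + v)) := by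
      refine (intervalIntegral.norm_integral_le_integral_norm (by linarith)).trans (le_of_eq ?_)
      refine intervalIntegral.integral_congr fun t _ => ?_
      unfold Sys.yf Sys.vf
      rw [norm_mul, norm_mul, norm_pow, RCLike.norm_conj, norm_pow]
      push_cast
      ring
    have h4 : c1 / 2 * S.T * S.Lam = c1 * S.Lam * S.T - c1 / 2 * S.T * S.Lam := by ring
    linarith

end Pool.Agent.GH
end
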