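import Pool.Agent.Lib.MP_69b2e4_nt.Mg.G047
import Pool.Agent.Lib.MP_69b2e4_nt.Mg.G048
import Pool.Agent.Lib.MP_69b2e4_nt.Mg.G037
import Pool.Agent.Lib.MP_69b2e4_nt.Mg.G042

section

/-! TASK Step2. The second moment of `yf`, also on the bad set.
`step2a`: `yf² = ‖Y²‖²`; `mv0` for `f = Y²` (`len_Y2`): `∫_T^{2T} yf² ≤ T E‖Y(nX 0)‖⁴ + 4 T^{3/100} ≤ C1 T Lam` (`Y_moment`; `Lam ≥ c`, `T ≥ T0(c)`).
`step2b`: on the bad set `1 ≤ ∑_{j≤J} (‖P_j‖/lam_j)^{2 l_j}` (`lam j > 0`), so the integral is at most `∑_j lam_j^{-2l_j} ∫_T^{2T} ‖Y² P_j^{l_j}‖²`, and by `mv0` (`len_Y2P`) each is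
`≤ T E‖Y‖⁴ ‖PX_j‖^{2l_j} + 4 T^{3/100}`. With `Y_bad` and `large`: the main terms sum to `≤ C1 T Lam θ²`. Errors: `∑_j lam_j^{-2l_j} 4T^{3/100}`; `lam_j = l_j/(10(k+1))` may be `< 1`, but `lam_j^{-2 l_j} = (10(k+1)/l_j)^{2 l_j} ≤ exp(2·10(k+1)/e ·..)`:
`(a/x)^{2x} ≤ e^{2a/e}` for all `x > 0`, so each is at most `e^{8(k+1)}`; and `J + 1 ≤ L/4000` (by `len`, each term there is `≥ 10`). So the errors are `≤ L e^{8(k+1)} T^{3/100} ≤ θ² T Lam` for `T ≥ T0(θ,k,c)`. -/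

set_option autoImplicit false

namespace Pool.Agent.GH

open Complex MeasureTheory Finset
open scoped Real ComplexConjugate

private theorem Step2_L {S : Sys} {C c : ℝ} (hS : Good S C c) : 1 ≤ S.L := by
  have h1 := hS.L_ge
  have h2 : S.θ ^ 10 ≤ 1 := pow_le_one₀ hS.θ_pos.le (hS.θ_le.trans (by norm_num))
  have h3 : 0 < S.θ ^ 10 := pow_pos hS.θ_pos 10
  have h4 : (1 : ℝ) ≤ 1 / S.θ ^ 10 := by
    rw [le_div_iff₀ h3]
    linarith
  exact h4.trans h1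

private theorem Step2_Lam {S : Sys} {C c : ℝ} (hS : Good S C c) : c ≤ S.Lam := by
  have h1 := hS.lam_ge
  have h2 : 1 ≤ S.L ^ (S.k ^ 2) := Real.one_le_rpow (Step2_L hS) (by positivity)
  calc c = c * 1 := (mul_one c).symm
    _ ≤ c * S.L ^ (S.k ^ 2) := mul_le_mul_of_nonneg_left h2 hS.c_pos.le
    _ ≤ _ := h1

private theorem Step2_pow {T : ℝ} (hT : 1 ≤ T) :
    4 * T ^ (1 / 100 : ℝ) * (T ^ (1 / 100 : ℝ)) ^ 2 ≤ 4 * T ^ (1 / 4 : ℝ) := by
  have h0 : 0 < T := by linarith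
  have h1 : T ^ (1 / 100 : ℝ) * (T ^ (1 / 100 : ℝ)) ^ 2 = T ^ (3 / 100 : ℝ) := by
    rw [← Real.rpow_natCast, ← Real.rpow_mul h0.le, ← Real.rpow_add h0]
    norm_num
  rw [mul_assoc, h1]
  apply mul_le_mul_of_nonneg_left _ (by norm_num)
  exact Real.rpow_le_rpow_of_exponent_le hT (by norm_num)

private theorem Step2_quarter {T E : ℝ} (hE : 0 ≤ E) (hT : E ^ 4 ≤ T) : E ≤ T ^ (1 / 4 : ℝ) := by
  have h1 : E = (E ^ 4) ^ (1 / 4 : ℝ) := by
    rw [← Real.rpow_natCast, ← Real.rpow_mul hE]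
    norm_num
  rw [h1]
  exact Real.rpow_le_rpow (by positivity) hT (by norm_num)

private theorem Step2_split {T : ℝ} (hT : 0 < T) :
    T ^ (1 / 4 : ℝ) * (T ^ (1 / 4 : ℝ) * T ^ (1 / 2 : ℝ)) = T := by
  rw [← Real.rpow_add hT, ← Real.rpow_add hT]
  norm_num

theorem step2a (k : ℝ) : ∃ C0 C2 : ℝ, 0 < C2 ∧ ∀ c : ℝ, 0 < c → ∃ T0 : ℝ,
    ∀ (S : Sys) (C : ℝ), S.k = k → Good S C c → C0 ≤ C → T0 ≤ S.T →
    ∫ t in S.T..(2 * S.T), S.yf t ^ 2 ≤ C2 * S.T * S.Lam := by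
  obtain ⟨C0, C1, hC1, hY⟩ := Y_moment k
  refine ⟨C0, C1 + 1, by positivity, ?_⟩
  intro c hc
  refine ⟨(4 / c) ^ 4, ?_⟩
  intro S C hSk hS hC hT
  have hT1 := hS.T_ge
  have hT0 : 0 < S.T := by linarith
  have h1 := mv0 (len_Y2 hS) (Real.one_le_rpow hT1 (by norm_num)) hT0.le
  have h2 : ∀ χ, ‖S.Y χ ^ 2‖ ^ 2 = ‖S.Y χ‖ ^ 4 := by
    intro χ
    rw [norm_pow, ← pow_mul]
  simp only [h2] at h1
  have h3 : ∀ t : ℝ, S.yf t ^ 2 = ‖S.Y (nC (1 / 2 + t * I))‖ ^ 4 := by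
    intro t
    unfold Sys.yf
    rw [← pow_mul]
  simp only [h3]
  have h4 := (abs_le.1 h1).2
  have h5 := hY S C c hSk hS hC
  have h6 := Step2_pow hT1
  have h7 := Step2_quarter (by positivity : (0 : ℝ) ≤ 4 / c) hT
  have h8 := Step2_Lam hS
  have h9 := Step2_split hT0
  have hq : 0 < S.T ^ (1 / 4 : ℝ) := Real.rpow_pos_of_pos hT0 _
  have hq1 : 1 ≤ S.T ^ (1 / 4 : ℝ) := Real.one_le_rpow hT1 (by norm_num)
  have hs : 1 ≤ S.T ^ (1 / 2 : ℝ) := Real.one_le_rpow hT1 (by norm_num)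
  have h10 : 4 * S.T ^ (1 / 4 : ℝ) ≤ S.T * S.Lam := by
    rw [div_le_iff₀ hc] at h7
    calc 4 * S.T ^ (1 / 4 : ℝ) ≤ (S.T ^ (1 / 4 : ℝ) * c) * S.T ^ (1 / 4 : ℝ) :=
          mul_le_mul_of_nonneg_right h7 hq.le
      _ = (S.T ^ (1 / 4 : ℝ) * (S.T ^ (1 / 4 : ℝ) * 1)) * c := by ring
      _ ≤ (S.T ^ (1 / 4 : ℝ) * (S.T ^ (1 / 4 : ℝ) * S.T ^ (1 / 2 : ℝ))) * c := by
          apply mul_le_mul_of_nonneg_right _ hc.le
          apply mul_le_mul_of_nonneg_left _ hq.le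
          exact mul_le_mul_of_nonneg_left hs hq.le
      _ = S.T * c := by rw [h9]
      _ ≤ _ := mul_le_mul_of_nonneg_left h8 hT0.le
  have h11 : S.T * ∫ w, ‖S.Y (nX 0 w)‖ ^ 4 ∂mu ≤ S.T * (C1 * S.Lam) :=
    mul_le_mul_of_nonneg_left h5 hT0.le
  calc ∫ t in S.T..(2 * S.T), ‖S.Y (nC (1 / 2 + t * I))‖ ^ 4
      ≤ S.T * (C1 * S.Lam) + S.T * S.Lam := by linarith
    _ = (C1 + 1) * S.T * S.Lam := by ring

theorem step2b (k : ℝ) : ∃ C0 C2 : ℝ, 0 < C2 ∧ ∀ c θ : ℝ, 0 < c → 0 < θ → ∃ T0 : ℝ,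
    ∀ (S : Sys) (C : ℝ), S.k = k → S.θ = θ → Good S C c → C0 ≤ C → T0 ≤ S.T →
    ∫ t in Set.Icc S.T (2 * S.T) ∩ S.bad, S.yf t ^ 2 ≤ C2 * S.θ ^ 2 * S.T * S.Lam := by
  obtain ⟨C0, C1, hC1, hY⟩ := Y_bad k
  refine ⟨C0, C1 + 1, by positivity, ?_⟩
  intro c θ hc hθ
  refine ⟨(8 * Real.exp (20 * (k + 1)) / (θ ^ 2 * c)) ^ 4, ?_⟩
  intro S C hSk hSθ hS hC hT
  have hT1 := hS.T_ge
  have hT0 : 0 < S.T := by linarith
  have hk : 0 < k := by rw [← hSk]; exact hS.k_pos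
  have hlam : ∀ j ≤ S.J, 0 < S.lam j := by
    intro j hj
    unfold Sys.lam
    rw [hSk]
    have h1 : (1 : ℝ) ≤ S.l j := by exact_mod_cast hS.l_ge j hj
    positivity
  -- continuity
  have hcP : ∀ j ≤ S.J, Continuous fun t : ℝ => PS (S.R j) (nC (1 / 2 + t * I)) := by
    intro j hj
    unfold PS
    refine continuous_finsetSum _ fun p hp => ?_
    have hp0 : p ≠ 0 := (hS.prime j hj p hp).1.ne_zero
    have h1 : (fun t : ℝ => nC (1 / 2 + t * I) p) = fun t : ℝ => (p : ℂ) ^ (-(1 / 2 + t * I)) := by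
      funext t
      exact nC_apply _ hp0
    rw [h1]
    refine Continuous.const_cpow (by fun_prop) (Or.inl ?_)
    exact_mod_cast hp0
  have hcY : Continuous fun t : ℝ => S.Y (nC (1 / 2 + t * I)) ^ 2 := continuous_dp_line (len_Y2 hS)
  have hyf : ∀ t : ℝ, S.yf t ^ 2 = ‖S.Y (nC (1 / 2 + t * I)) ^ 2‖ ^ 2 := by
    intro t
    unfold Sys.yf
    rw [norm_pow]
  have hmeas : MeasurableSet S.bad := by
    have h1 : S.bad = ⋃ j ∈ Finset.range (S.J + 1),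
        {t : ℝ | S.lam j < ‖PS (S.R j) (nC (1 / 2 + t * I))‖} := by
      ext t
      simp only [Sys.bad, Set.mem_setOf_eq, Set.mem_iUnion, Finset.mem_range, exists_prop,
        Nat.lt_succ_iff]
    rw [h1]
    refine Finset.measurableSet_biUnion _ fun j hj => ?_
    exact (isOpen_lt continuous_const
      (hcP j (Nat.lt_succ_iff.1 (Finset.mem_range.1 hj))).norm).measurableSet
  -- the majorant
  obtain ⟨g, hg⟩ : ∃ g : ℕ → ℝ → ℝ, g = fun (j : ℕ) (t : ℝ) => ‖S.Y (nC (1 / 2 + t * I)) ^ 2 *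
    PS (S.R j) (nC (1 / 2 + t * I)) ^ (S.l j)‖ ^ 2 := ⟨_, rfl⟩
  have hgc : ∀ j ≤ S.J, Continuous (g j) := by
    intro j hj
    rw [hg]
    exact ((hcY.mul ((hcP j hj).pow _)).norm).pow 2
  obtain ⟨G, hG⟩ : ∃ G : ℝ → ℝ, G = fun t => ∑ j ∈ Finset.range (S.J + 1),
    (S.lam j ^ (2 * S.l j))⁻¹ * g j t := ⟨_, rfl⟩
  have hGc : Continuous G := by
    rw [hG]
    refine continuous_finsetSum _ fun j hj => ?_
    exact continuous_const.mul (hgc j (Nat.lt_succ_iff.1 (Finset.mem_range.1 hj)))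
  have hterm0 : ∀ j ∈ Finset.range (S.J + 1), ∀ t, 0 ≤ (S.lam j ^ (2 * S.l j))⁻¹ * g j t := by
    intro j hj t
    have h1 := hlam j (Nat.lt_succ_iff.1 (Finset.mem_range.1 hj))
    rw [hg]
    positivity
  have hG0 : ∀ t, 0 ≤ G t := by
    intro t
    rw [hG]
    exact Finset.sum_nonneg fun j hj => hterm0 j hj t
  have hle : ∀ t ∈ S.bad, S.yf t ^ 2 ≤ G t := by
    rintro t ⟨j, hj, h1⟩
    have hj' : j ∈ Finset.range (S.J + 1) := Finset.mem_range.2 (Nat.lt_succ_iff.2 hj)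
    have h2 : (S.lam j ^ (2 * S.l j))⁻¹ * g j t ≤ G t := by
      rw [hG]
      exact Finset.single_le_sum (f := fun j => (S.lam j ^ (2 * S.l j))⁻¹ * g j t)
        (fun i hi => hterm0 i hi t) hj'
    refine le_trans ?_ h2
    rw [hyf, hg]
    have h3 : ‖S.Y (nC (1 / 2 + t * I)) ^ 2 * PS (S.R j) (nC (1 / 2 + t * I)) ^ (S.l j)‖ ^ 2 =
        ‖S.Y (nC (1 / 2 + t * I)) ^ 2‖ ^ 2 * ‖PS (S.R j) (nC (1 / 2 + t * I))‖ ^ (2 * S.l j) := by
      rw [norm_mul, mul_pow, norm_pow (PS (S.R j) (nC (1 / 2 + t * I))), ← pow_mul,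
        mul_comm (S.l j) 2]
    have hl := hlam j hj
    have h4 : S.lam j ^ (2 * S.l j) ≤ ‖PS (S.R j) (nC (1 / 2 + t * I))‖ ^ (2 * S.l j) :=
      pow_le_pow_left₀ hl.le h1.le _
    have h5 : 0 < S.lam j ^ (2 * S.l j) := pow_pos hl _
    show ‖S.Y (nC (1 / 2 + t * I)) ^ 2‖ ^ 2 ≤ (S.lam j ^ (2 * S.l j))⁻¹ *
      ‖S.Y (nC (1 / 2 + t * I)) ^ 2 * PS (S.R j) (nC (1 / 2 + t * I)) ^ (S.l j)‖ ^ 2
    rw [h3, inv_mul_eq_div, le_div_iff₀ h5]
    exact mul_le_mul_of_nonneg_left h4 (by positivity)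
  have hyc : Continuous fun t => S.yf t ^ 2 := by
    have h1 : (fun t : ℝ => S.yf t ^ 2) = fun t : ℝ => ‖S.Y (nC (1 / 2 + t * I)) ^ 2‖ ^ 2 := by
      funext t
      exact hyf t
    rw [h1]
    exact hcY.norm.pow 2
  have hI1 : IntegrableOn (fun t => S.yf t ^ 2) (Set.Icc S.T (2 * S.T)) :=
    hyc.continuousOn.integrableOn_Icc
  have hI2 : IntegrableOn G (Set.Icc S.T (2 * S.T)) := hGc.continuousOn.integrableOn_Icc
  have step1 : ∫ t in Set.Icc S.T (2 * S.T) ∩ S.bad, S.yf t ^ 2 ≤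
      ∫ t in S.T..(2 * S.T), G t := by
    calc ∫ t in Set.Icc S.T (2 * S.T) ∩ S.bad, S.yf t ^ 2
        ≤ ∫ t in Set.Icc S.T (2 * S.T) ∩ S.bad, G t :=
          setIntegral_mono_on (hI1.mono_set Set.inter_subset_left)
            (hI2.mono_set Set.inter_subset_left) (measurableSet_Icc.inter hmeas)
            (fun t ht => hle t ht.2)
      _ ≤ ∫ t in Set.Icc S.T (2 * S.T), G t :=
          setIntegral_mono_set hI2 (Filter.Eventually.of_forall hG0)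
            (Filter.Eventually.of_forall Set.inter_subset_left)
      _ = ∫ t in S.T..(2 * S.T), G t := by
          rw [integral_Icc_eq_integral_Ioc, intervalIntegral.integral_of_le (by linarith)]
  have step2 : ∫ t in S.T..(2 * S.T), G t = ∑ j ∈ Finset.range (S.J + 1),
      (S.lam j ^ (2 * S.l j))⁻¹ * ∫ t in S.T..(2 * S.T), g j t := by
    rw [hG, intervalIntegral.integral_finset_sum]
    · refine Finset.sum_congr rfl fun j _ => ?_
      rw [intervalIntegral.integral_const_mul]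
    · intro j hj
      exact (continuous_const.mul
        (hgc j (Nat.lt_succ_iff.1 (Finset.mem_range.1 hj)))).intervalIntegrable _ _
  have hinv : ∀ j ≤ S.J, (S.lam j ^ (2 * S.l j))⁻¹ ≤ Real.exp (20 * (k + 1)) := by
    intro j hj
    have h1 : (1 : ℝ) ≤ S.l j := by exact_mod_cast hS.l_ge j hj
    have hl0 : (S.l j : ℝ) ≠ 0 := by positivity
    have h2 : (S.lam j)⁻¹ = 10 * (k + 1) / S.l j := by
      unfold Sys.lam
      rw [hSk, inv_div]
    rw [← inv_pow, h2]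
    have h3 : 10 * (k + 1) / S.l j ≤ Real.exp (10 * (k + 1) / S.l j) := by
      have := Real.add_one_le_exp (10 * (k + 1) / S.l j)
      linarith
    calc (10 * (k + 1) / (S.l j : ℝ)) ^ (2 * S.l j)
        ≤ Real.exp (10 * (k + 1) / S.l j) ^ (2 * S.l j) := pow_le_pow_left₀ (by positivity) h3 _
      _ = Real.exp (20 * (k + 1)) := by
          rw [← Real.exp_nat_mul]
          congr 1
          push_cast
          field_simp
          ring
  have hbound : ∀ j ∈ Finset.range (S.J + 1),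
      (S.lam j ^ (2 * S.l j))⁻¹ * ∫ t in S.T..(2 * S.T), g j t ≤
      S.T * (C1 * S.Lam) * (Real.exp (C * (sR (S.R j) + 1)) *
        (2 * S.l j * sR (S.R j) / S.lam j ^ 2) ^ (S.l j)) +
      Real.exp (20 * (k + 1)) * (4 * S.T ^ (1 / 4 : ℝ)) := by
    intro j hj'
    have hj : j ≤ S.J := Nat.lt_succ_iff.1 (Finset.mem_range.1 hj')
    have hl := hlam j hj
    have h5 : 0 < S.lam j ^ (2 * S.l j) := pow_pos hl _
    have h1 := mv0 (len_Y2P hS hj) (Real.one_le_rpow hT1 (by norm_num)) hT0.le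
    have h2 := (abs_le.1 h1).2
    have h3 : ∀ w, ‖S.Y (nX 0 w) ^ 2 * PS (S.R j) (nX 0 w) ^ (S.l j)‖ ^ 2 =
        S.lam j ^ (2 * S.l j) * (‖S.Y (nX 0 w)‖ ^ 4 *
          (‖PX (S.R j) 0 w‖ / S.lam j) ^ (2 * S.l j)) := by
      intro w
      rw [norm_mul, mul_pow, norm_pow, norm_pow, ← pow_mul, ← pow_mul, div_pow]
      unfold PX
      have e1 : 2 * 2 = 4 := rfl
      rw [e1, mul_comm (S.l j) 2]
      field_simp
    simp only [h3] at h2
    rw [integral_const_mul] at h2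
    have h4 := hY S C c hSk hS hC j hj
    have h6 := Step2_pow hT1
    have h7 : ∫ t in S.T..(2 * S.T), g j t ≤ S.T * (S.lam j ^ (2 * S.l j) * (C1 * S.Lam *
        (Real.exp (C * (sR (S.R j) + 1)) * (2 * S.l j * sR (S.R j) / S.lam j ^ 2) ^ (S.l j)))) +
        4 * S.T ^ (1 / 4 : ℝ) := by
      have h8 := mul_le_mul_of_nonneg_left (mul_le_mul_of_nonneg_left h4 h5.le) hT0.le
      rw [hg]
      linarith
    calc (S.lam j ^ (2 * S.l j))⁻¹ * ∫ t in S.T..(2 * S.T), g j t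
        ≤ (S.lam j ^ (2 * S.l j))⁻¹ * (S.T * (S.lam j ^ (2 * S.l j) * (C1 * S.Lam *
        (Real.exp (C * (sR (S.R j) + 1)) * (2 * S.l j * sR (S.R j) / S.lam j ^ 2) ^ (S.l j)))) +
        4 * S.T ^ (1 / 4 : ℝ)) := mul_le_mul_of_nonneg_left h7 (by positivity)
      _ = S.T * (C1 * S.Lam) * (Real.exp (C * (sR (S.R j) + 1)) *
        (2 * S.l j * sR (S.R j) / S.lam j ^ 2) ^ (S.l j)) +
        (S.lam j ^ (2 * S.l j))⁻¹ * (4 * S.T ^ (1 / 4 : ℝ)) := by
          rw [mul_add]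
          congr 1
          have h9 : S.lam j ^ (2 * S.l j) ≠ 0 := h5.ne'
          rw [mul_left_comm S.T, inv_mul_cancel_left₀ h9]
          ring
      _ ≤ _ := by
          have h9 := mul_le_mul_of_nonneg_right (hinv j hj)
            (by positivity : (0 : ℝ) ≤ 4 * S.T ^ (1 / 4 : ℝ))
          linarith
  have hJ : ((S.J + 1 : ℕ) : ℝ) ≤ S.L := by
    have h1 : ∑ j ∈ Finset.range (S.J + 1), (10 : ℝ) ≤
        ∑ j ∈ Finset.range (S.J + 1), ((S.l j : ℝ) * Real.log (S.N j) + S.k + 10) := by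
      refine Finset.sum_le_sum fun j hj => ?_
      have h2 := Real.log_nonneg (hS.N_ge j (Nat.lt_succ_iff.1 (Finset.mem_range.1 hj)))
      have h3 : 0 ≤ (S.l j : ℝ) * Real.log (S.N j) := mul_nonneg (Nat.cast_nonneg _) h2
      have h4 := hS.k_pos
      linarith
    rw [Finset.sum_const, Finset.card_range, nsmul_eq_mul] at h1
    have h2 := hS.len
    have h3 := Step2_L hS
    linarith
  have hL2 : S.L ≤ 2 * S.T ^ (1 / 2 : ℝ) := by
    unfold Sys.L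
    have h1 := Real.log_le_rpow_div hT0.le (by norm_num : (0 : ℝ) < 1 / 2)
    linarith
  have hE : 8 * Real.exp (20 * (k + 1)) ≤ S.T ^ (1 / 4 : ℝ) * (θ ^ 2 * c) := by
    have h1 := Step2_quarter (by positivity) hT
    rwa [div_le_iff₀ (by positivity)] at h1
  have hq : 0 < S.T ^ (1 / 4 : ℝ) := Real.rpow_pos_of_pos hT0 _
  have hs : 0 < S.T ^ (1 / 2 : ℝ) := Real.rpow_pos_of_pos hT0 _
  have herr : ((S.J + 1 : ℕ) : ℝ) * (Real.exp (20 * (k + 1)) * (4 * S.T ^ (1 / 4 : ℝ))) ≤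
      S.θ ^ 2 * S.T * S.Lam := by
    calc ((S.J + 1 : ℕ) : ℝ) * (Real.exp (20 * (k + 1)) * (4 * S.T ^ (1 / 4 : ℝ)))
        ≤ (2 * S.T ^ (1 / 2 : ℝ)) * (Real.exp (20 * (k + 1)) * (4 * S.T ^ (1 / 4 : ℝ))) :=
          mul_le_mul_of_nonneg_right (hJ.trans hL2) (by positivity)
      _ = (8 * Real.exp (20 * (k + 1))) * (S.T ^ (1 / 4 : ℝ) * S.T ^ (1 / 2 : ℝ)) := by ring
      _ ≤ (S.T ^ (1 / 4 : ℝ) * (θ ^ 2 * c)) * (S.T ^ (1 / 4 : ℝ) * S.T ^ (1 / 2 : ℝ)) :=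
          mul_le_mul_of_nonneg_right hE (by positivity)
      _ = (S.T ^ (1 / 4 : ℝ) * (S.T ^ (1 / 4 : ℝ) * S.T ^ (1 / 2 : ℝ))) * (θ ^ 2 * c) := by ring
      _ = S.T * (θ ^ 2 * c) := by rw [Step2_split hT0]
      _ = (S.θ ^ 2 * S.T) * c := by rw [hSθ]; ring
      _ ≤ (S.θ ^ 2 * S.T) * S.Lam := by
          apply mul_le_mul_of_nonneg_left (Step2_Lam hS)
          positivity
  have hLam0 : 0 ≤ S.Lam := by unfold Sys.Lam; positivity
  calc ∫ t in Set.Icc S.T (2 * S.T) ∩ S.bad, S.yf t ^ 2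
      ≤ ∑ j ∈ Finset.range (S.J + 1),
      (S.lam j ^ (2 * S.l j))⁻¹ * ∫ t in S.T..(2 * S.T), g j t := by rw [← step2]; exact step1
    _ ≤ ∑ j ∈ Finset.range (S.J + 1), (S.T * (C1 * S.Lam) * (Real.exp (C * (sR (S.R j) + 1)) *
        (2 * S.l j * sR (S.R j) / S.lam j ^ 2) ^ (S.l j)) +
      Real.exp (20 * (k + 1)) * (4 * S.T ^ (1 / 4 : ℝ))) := Finset.sum_le_sum hbound
    _ = S.T * (C1 * S.Lam) * (∑ j ∈ Finset.range (S.J + 1), Real.exp (C * (sR (S.R j) + 1)) *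
        (2 * S.l j * sR (S.R j) / S.lam j ^ 2) ^ (S.l j)) +
      ((S.J + 1 : ℕ) : ℝ) * (Real.exp (20 * (k + 1)) * (4 * S.T ^ (1 / 4 : ℝ))) := by
        rw [Finset.sum_add_distrib, ← Finset.mul_sum, Finset.sum_const, Finset.card_range,
          nsmul_eq_mul]
    _ ≤ S.T * (C1 * S.Lam) * S.θ ^ 2 + S.θ ^ 2 * S.T * S.Lam := by
        apply add_le_add _ herr
        apply mul_le_mul_of_nonneg_left hS.large
        positivity
    _ = (C1 + 1) * S.θ ^ 2 * S.T * S.Lam := by ring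

end Pool.Agent.GH
end

section

/-! TASK WT. The same with the window weight.
Proof. `KK h y = ∫_y^∞ k(z) dz`, `k(z) = 10 h⁴ z/(1+h²z²)² ≥ 0` (`z ≥ 0`). By Tonelli
`∫_{x>1} ‖SS‖² KK h (log x) dx = ∫_0^∞ k(z) (∫_{1<x<e^z} ‖SS‖² dx) dz`. Apply `off_diag` with `X = e^z`, and Tonelli back (also for each term of the sum over `k`:
`∫_0^∞ k(z) ∫_{1<x≤e^z} E(x) dx dz = ∫_{x>1} E(x) KK h (log x) dx`); the error is `T^{1/10} ∫_0^∞ k = T^{1/10} KK h 0 = 5h² T^{1/10}`.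
(All in `[0,∞]`: `lintegral_lintegral_swap`, `lintegral_tsum`; measurability of `SS` on `(0,∞)` from `continuousOn_SS`.) -/

set_option autoImplicit false

namespace Pool.Agent.GH

open Complex MeasureTheory Finset
open scoped Real ComplexConjugate

/-- The density of the window kernel. -/
noncomputable def WT_k (h z : ℝ) : ℝ := 10 * h ^ 4 * z / (1 + h ^ 2 * z ^ 2) ^ 2

theorem WT_deriv (h z : ℝ) : HasDerivAt (fun y => -KK h y) (WT_k h z) z := by
  have hpos : (1 + h ^ 2 * z ^ 2) ≠ 0 := by positivity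
  have h1 : HasDerivAt (fun y : ℝ => 1 + h ^ 2 * y ^ 2) (h ^ 2 * (2 * z)) z := by
    have := ((hasDerivAt_pow 2 z).const_mul (h ^ 2)).const_add 1
    simpa using this
  have h2 := ((hasDerivAt_const z (5 * h ^ 2)).div h1 hpos).neg
  have h3 : (fun y => -KK h y) = -((fun _ : ℝ => 5 * h ^ 2) / fun y : ℝ => 1 + h ^ 2 * y ^ 2) := by
    funext y
    rfl
  rw [h3]
  refine h2.congr_deriv ?_
  unfold WT_k
  field_simp
  ring

theorem WT_tendsto {h : ℝ} (hh : 0 < h) :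
    Filter.Tendsto (fun y => -KK h y) Filter.atTop (nhds 0) := by
  have h1 : Filter.Tendsto (fun y : ℝ => 1 + h ^ 2 * y ^ 2) Filter.atTop Filter.atTop := by
    apply Filter.tendsto_atTop_add_const_left
    apply Filter.Tendsto.const_mul_atTop (by positivity)
    exact Filter.tendsto_pow_atTop (by norm_num)
  have h2 := (h1.const_div_atTop (5 * h ^ 2)).neg
  rw [neg_zero] at h2
  exact h2

theorem WT_k_nonneg {h z : ℝ} (hz : 0 ≤ z) : 0 ≤ WT_k h z := by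
  unfold WT_k; positivity

theorem WT_lint {h : ℝ} (hh : 0 < h) {y : ℝ} (hy : 0 ≤ y) :
    ∫⁻ z in Set.Ioi y, ENNReal.ofReal (WT_k h z) = ENNReal.ofReal (KK h y) := by
  have hd : ∀ x ∈ Set.Ici y, HasDerivAt (fun y => -KK h y) (WT_k h x) x := fun x _ => WT_deriv h x
  have hn : ∀ x ∈ Set.Ioi y, 0 ≤ WT_k h x := fun x hx => WT_k_nonneg (hy.trans (le_of_lt hx))
  have hint := integrableOn_Ioi_deriv_of_nonneg' hd hn (WT_tendsto hh)
  have hval := integral_Ioi_of_hasDerivAt_of_nonneg' hd hn (WT_tendsto hh)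
  rw [← ofReal_integral_eq_lintegral_ofReal hint
    ((ae_restrict_mem measurableSet_Ioi).mono fun x hx => hn x hx), hval]
  congr 1
  ring

theorem WT_k_meas (h : ℝ) : Measurable fun z => ENNReal.ofReal (WT_k h z) := by
  unfold WT_k
  fun_prop

/-- Tonelli. -/
theorem WT_tonelli {h : ℝ} (hh : 0 < h) (f : ℝ → ENNReal)
    (hf : AEMeasurable f (volume.restrict (Set.Ioi 1))) :
    ∫⁻ x in Set.Ioi (1 : ℝ), f x * ENNReal.ofReal (KK h (Real.log x)) =
      ∫⁻ z in Set.Ioi (0 : ℝ), ENNReal.ofReal (WT_k h z) * ∫⁻ x in Set.Ioc 1 (Real.exp z), f x := by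
  classical
  have hset : MeasurableSet {p : ℝ × ℝ | p.1 ≤ Real.exp p.2} :=
    measurableSet_le measurable_fst (Real.measurable_exp.comp measurable_snd)
  set g : ℝ → ℝ → ENNReal := fun x z =>
    f x * ({p : ℝ × ℝ | p.1 ≤ Real.exp p.2}.indicator
      (fun p => ENNReal.ofReal (WT_k h p.2)) (x, z)) with hg
  have hL : ∀ x ∈ Set.Ioi (1 : ℝ), ∫⁻ z in Set.Ioi (0 : ℝ), g x z =
      f x * ENNReal.ofReal (KK h (Real.log x)) := by
    intro x hx
    have hx0 : (0 : ℝ) < x := lt_trans one_pos hx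
    have hlog : 0 < Real.log x := Real.log_pos hx
    have hm : Measurable fun z => ({p : ℝ × ℝ | p.1 ≤ Real.exp p.2}.indicator
      (fun p => ENNReal.ofReal (WT_k h p.2)) (x, z)) :=
      (((WT_k_meas h).comp measurable_snd).indicator hset).comp measurable_prodMk_left
    simp only [hg]
    rw [lintegral_const_mul _ hm]
    congr 1
    rw [← WT_lint hh hlog.le]
    have h1 : ∀ z, ({p : ℝ × ℝ | p.1 ≤ Real.exp p.2}.indicator
      (fun p => ENNReal.ofReal (WT_k h p.2)) (x, z)) =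
      (Set.Ici (Real.log x)).indicator (fun z => ENNReal.ofReal (WT_k h z)) z := by
      intro z
      simp only [Set.indicator, Set.mem_ofPred_eq, Set.mem_Ici]
      by_cases hc : x ≤ Real.exp z
      · rw [if_pos hc, if_pos ((Real.log_le_iff_le_exp hx0).mpr hc)]
      · rw [if_neg hc, if_neg (fun h' => hc ((Real.log_le_iff_le_exp hx0).mp h'))]
    simp_rw [h1]
    have hs : Set.Ici (Real.log x) ∩ Set.Ioi 0 = Set.Ici (Real.log x) := by
      ext z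
      simp only [Set.mem_inter_iff, Set.mem_Ici, Set.mem_Ioi]
      constructor
      · exact fun h' => h'.1
      · intro h'; exact ⟨h', lt_of_lt_of_le hlog h'⟩
    rw [lintegral_indicator measurableSet_Ici, Measure.restrict_restrict measurableSet_Ici, hs,
      setLIntegral_congr Ioi_ae_eq_Ici.symm]
  have hR : ∀ z, ∫⁻ x in Set.Ioi (1 : ℝ), g x z =
      ENNReal.ofReal (WT_k h z) * ∫⁻ x in Set.Ioc 1 (Real.exp z), f x := by
    intro z
    have h1 : ∀ x, g x z = (Set.Iic (Real.exp z)).indicator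
        (fun x => ENNReal.ofReal (WT_k h z) * f x) x := by
      intro x
      simp only [hg, Set.indicator, Set.mem_ofPred_eq, Set.mem_Iic]
      by_cases hc : x ≤ Real.exp z
      · rw [if_pos hc, if_pos hc, mul_comm]
      · rw [if_neg hc, if_neg hc, mul_zero]
    simp_rw [h1]
    rw [lintegral_indicator measurableSet_Iic, Measure.restrict_restrict measurableSet_Iic]
    have h2 : Set.Iic (Real.exp z) ∩ Set.Ioi 1 = Set.Ioc 1 (Real.exp z) := by
      ext x; simp only [Set.mem_inter_iff, Set.mem_Iic, Set.mem_Ioi, Set.mem_Ioc]; tauto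
    rw [h2, lintegral_const_mul'' _ (hf.mono_measure (Measure.restrict_mono (fun x hx => hx.1) le_rfl))]
  have hjoint : AEMeasurable (Function.uncurry g)
      ((volume.restrict (Set.Ioi (1 : ℝ))).prod (volume.restrict (Set.Ioi (0 : ℝ)))) := by
    have h1 : AEMeasurable (fun p : ℝ × ℝ => f p.1)
        ((volume.restrict (Set.Ioi (1 : ℝ))).prod (volume.restrict (Set.Ioi (0 : ℝ)))) :=
      hf.comp_quasiMeasurePreserving Measure.quasiMeasurePreserving_fst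
    have h2 : Measurable ({p : ℝ × ℝ | p.1 ≤ Real.exp p.2}.indicator
      (fun p => ENNReal.ofReal (WT_k h p.2))) := ((WT_k_meas h).comp measurable_snd).indicator hset
    exact h1.mul h2.aemeasurable
  rw [← setLIntegral_congr_fun measurableSet_Ioi hL, lintegral_lintegral_swap hjoint]
  exact lintegral_congr hR

open Classical in
theorem window_diag : ∃ T0 : ℝ, 1 ≤ T0 ∧ ∀ (T : ℝ) (M : ℕ) (F : Finset (ℕ × ℕ)) (w : ℕ × ℕ → ℂ) (h : ℝ),
    T0 ≤ T → 0 < h → (∀ q ∈ F, q.1 ∈ Nat.smoothNumbers M ∧ q.2 ∈ Nat.smoothNumbers M) →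
    (∀ q ∈ F, (q.1 : ℝ) ≤ T ^ (1 / 100 : ℝ) ∧ (q.2 : ℝ) ≤ T ^ (1 / 100 : ℝ)) →
    ∑ q ∈ F, ‖w q‖ ≤ T ^ (1 / 100 : ℝ) →
    ∫⁻ x in Set.Ioi (1 : ℝ), ENNReal.ofReal (‖SS T F w x‖ ^ 2 * KK h (Real.log x)) ≤
      (∑' k : ℚ × ℕ, if Rough M k.2 then ENNReal.ofReal (‖cs M F w k.1‖ ^ 2) *
        ∫⁻ x in Set.Ioi (1 : ℝ), ENNReal.ofReal
          (Real.exp (-2 * π * ((k.1 : ℝ) * k.2 * x) ^ 2 * Real.sin (1 / T)) * KK h (Real.log x)) else 0) +
      ENNReal.ofReal (5 * h ^ 2 * T ^ (1 / 10 : ℝ)) := by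
  obtain ⟨T0, hT0, H⟩ := off_diag
  refine ⟨T0, hT0, ?_⟩
  intro T M F w h hT hh hsm hsz hl1
  have hT1 : 1 ≤ T := hT0.trans hT
  have hF : ∀ q ∈ F, q.1 ≠ 0 ∧ q.2 ≠ 0 := fun q hq =>
    ⟨Nat.ne_zero_of_mem_smoothNumbers (hsm q hq).1, Nat.ne_zero_of_mem_smoothNumbers (hsm q hq).2⟩
  have hSm : AEMeasurable (fun x => ENNReal.ofReal (‖SS T F w x‖ ^ 2)) (volume.restrict (Set.Ioi 1)) := by
    have h1 : ContinuousOn (SS T F w) (Set.Ioi 1) :=
      (continuousOn_SS hT1 F w hF).mono (Set.Ioi_subset_Ioi zero_le_one)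
    have h2 : ContinuousOn (fun x => ‖SS T F w x‖ ^ 2) (Set.Ioi 1) := (h1.norm).pow 2
    exact (h2.aemeasurable measurableSet_Ioi).ennreal_ofReal
  have hEm : ∀ k : ℚ × ℕ, Measurable fun x : ℝ => ENNReal.ofReal
      (Real.exp (-2 * π * ((k.1 : ℝ) * k.2 * x) ^ 2 * Real.sin (1 / T))) := by
    intro k; fun_prop
  have hmono : ∀ f : ℝ → ENNReal, Measurable fun z => ∫⁻ x in Set.Ioc 1 (Real.exp z), f x := by
    intro f
    apply Monotone.measurable
    intro a b hab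
    exact lintegral_mono_set (Set.Ioc_subset_Ioc_right (Real.exp_le_exp.mpr hab))
  have hsplit : ∀ (a b : ℝ), 0 ≤ a → ENNReal.ofReal (a * KK h b) = ENNReal.ofReal a *
      ENNReal.ofReal (KK h b) := fun a b ha => ENNReal.ofReal_mul ha
  simp_rw [hsplit _ _ (sq_nonneg _), hsplit _ _ (Real.exp_pos _).le]
  rw [WT_tonelli hh _ hSm]
  calc ∫⁻ z in Set.Ioi (0 : ℝ), ENNReal.ofReal (WT_k h z) *
        ∫⁻ x in Set.Ioc 1 (Real.exp z), ENNReal.ofReal (‖SS T F w x‖ ^ 2)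
      ≤ ∫⁻ z in Set.Ioi (0 : ℝ), ENNReal.ofReal (WT_k h z) *
        ((∑' k : ℚ × ℕ, if Rough M k.2 then ENNReal.ofReal (‖cs M F w k.1‖ ^ 2) *
        ∫⁻ x in Set.Ioc 1 (Real.exp z), ENNReal.ofReal
          (Real.exp (-2 * π * ((k.1 : ℝ) * k.2 * x) ^ 2 * Real.sin (1 / T))) else 0) +
        ENNReal.ofReal (T ^ (1 / 10 : ℝ))) := by
        refine setLIntegral_mono' measurableSet_Ioi fun z hz => ?_
        gcongr
        exact H T M F w (Real.exp z) hT (Real.one_le_exp (le_of_lt hz)) hsm hsz hl1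
    _ = ∫⁻ z in Set.Ioi (0 : ℝ), ((∑' k : ℚ × ℕ, if Rough M k.2 then
        ENNReal.ofReal (‖cs M F w k.1‖ ^ 2) * (ENNReal.ofReal (WT_k h z) *
        ∫⁻ x in Set.Ioc 1 (Real.exp z), ENNReal.ofReal
          (Real.exp (-2 * π * ((k.1 : ℝ) * k.2 * x) ^ 2 * Real.sin (1 / T)))) else 0) +
        ENNReal.ofReal (WT_k h z) * ENNReal.ofReal (T ^ (1 / 10 : ℝ))) := by
        refine lintegral_congr fun z => ?_
        rw [mul_add, ← ENNReal.tsum_mul_left]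
        congr 2
        funext k
        split_ifs
        · ring
        · rw [mul_zero]
    _ = (∑' k : ℚ × ℕ, ∫⁻ z in Set.Ioi (0 : ℝ), if Rough M k.2 then
        ENNReal.ofReal (‖cs M F w k.1‖ ^ 2) * (ENNReal.ofReal (WT_k h z) *
        ∫⁻ x in Set.Ioc 1 (Real.exp z), ENNReal.ofReal
          (Real.exp (-2 * π * ((k.1 : ℝ) * k.2 * x) ^ 2 * Real.sin (1 / T)))) else 0) +
        (∫⁻ z in Set.Ioi (0 : ℝ), ENNReal.ofReal (WT_k h z)) * ENNReal.ofReal (T ^ (1 / 10 : ℝ)) := by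
        rw [lintegral_add_right _ ((WT_k_meas h).mul_const _), lintegral_mul_const _ (WT_k_meas h),
          lintegral_tsum]
        intro k
        by_cases hk : Rough M k.2
        · simp only [hk, if_true]
          exact (((WT_k_meas h).mul (hmono _)).const_mul _).aemeasurable
        · simp only [hk, if_false]
          exact aemeasurable_const
    _ = _ := by
        congr 1
        · refine tsum_congr fun k => ?_
          by_cases hk : Rough M k.2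
          · simp only [hk, if_true]
            rw [lintegral_const_mul _ (by exact (WT_k_meas h).mul (hmono _)),
              WT_tonelli hh _ (hEm k).aemeasurable]
          · simp only [hk, if_false, lintegral_zero]
        · rw [WT_lint hh le_rfl, ← ENNReal.ofReal_mul (by unfold KK; positivity)]
          congr 1
          unfold KK
          ring

end Pool.Agent.GH
end
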