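import Pool.Agent.Lib.MP_69b2e4_nt.UH.F1
import Pool.Agent.Lib.MP_69b2e4_nt.UH.Defs

section

/-! TASK B1. Far to the right the product `ζ M` is very close to 1. Let `y = yT T = T^{79/500}`, `Y = y^{49/50}`, `Re s = 50`. `ζ(s) = ∑_{n≥1} n^{-s}` (absolutely convergent), `M(s) = ∑_{d ≤ y} μ(d) Fm(log d/log y) d^{-s}` (`nC_apply`), so
`ζ(s) M(s) = ∑_{n≥1} c_n n^{-s}`, `c_n = ∑_{d | n, d ≤ y} μ(d) Fm(log d/log y)` (product of an absolutely convergent series with a finite sum: for every `d` the multiples of `d`; or Mathlib's `LSeries_convolution`/`LSeries_mul'`). `c_1 = Fm 0 = 1` (`Fm_one`).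
For `2 ≤ n ≤ Y`: every `d | n` has `d ≤ n ≤ Y ≤ y`, `log d/log y ≤ 49/50`, `Fm = 1`, so `c_n = ∑_{d|n} μ(d) = 0` (`ArithmeticFunction.coe_zeta_mul_moebius`/`sum_moebius...`). For all `n`: `|c_n| ≤ ∑_{d|n} 1 ≤ n` (`Fm_mem`).
So `|1 - ζ M| ≤ ∑_{n > Y} n · n^{-50} ≤ ∑_{n>Y} n^{-47} n^{-2} ≤ Y^{-47} π²/6 ≤ 2 Y^{-47}`, and `Y^{-47} = T^{-(79/500)(49/50)47} = T^{-7.27748} ≤ T^{-7277/1000}` (`T ≥ 1`). -/

set_option autoImplicit false

namespace Pool.Agent.UH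

open Complex MeasureTheory Finset Pool.Agent.GH
open scoped Real ComplexConjugate

private noncomputable def gB (y : ℝ) (n : ℕ) : ℂ :=
  if n ∈ Finset.Icc 1 ⌊y⌋₊ then
    ((ArithmeticFunction.moebius n : ℤ) : ℂ) * (Fm (Real.log n / Real.log y) : ℂ) else 0

private theorem gB_hasSum (y : ℝ) (s : ℂ) : LSeriesHasSum (gB y) s (Mo y (nC s)) := by
  have e : Mo y (nC s) = ∑ n ∈ Finset.Icc 1 ⌊y⌋₊, LSeries.term (gB y) s n := by
    unfold Mo
    refine Finset.sum_congr rfl fun n hn => ?_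
    have hn0 : n ≠ 0 := by
      have := (Finset.mem_Icc.mp hn).1
      omega
    rw [LSeries.term_of_ne_zero hn0, nC_apply s hn0, gB, if_pos hn, Complex.cpow_neg]
    rfl
  rw [e]
  refine hasSum_sum_of_ne_finset_zero fun n hn => ?_
  rcases eq_or_ne n 0 with rfl | hn0
  · simp
  · rw [LSeries.term_of_ne_zero hn0, gB, if_neg hn, zero_div]

private theorem norm_gB_le (y : ℝ) (n : ℕ) : ‖gB y n‖ ≤ 1 := by
  unfold gB
  split_ifs
  · rw [norm_mul]
    have h1 : ‖((ArithmeticFunction.moebius n : ℤ) : ℂ)‖ ≤ 1 := by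
      rw [Complex.norm_intCast]
      exact_mod_cast ArithmeticFunction.abs_moebius_le_one
    have h2 : ‖(Fm (Real.log n / Real.log y) : ℂ)‖ ≤ 1 := by
      rw [Complex.norm_real, Real.norm_of_nonneg (Fm_mem _).1]
      exact (Fm_mem _).2
    calc _ ≤ (1 : ℝ) * 1 := mul_le_mul h1 h2 (norm_nonneg _) zero_le_one
      _ = 1 := one_mul 1
  · simp

private theorem gB_eq {y : ℝ} (hy : 1 < y) {n : ℕ} (hn : n ≠ 0)
    (hn' : (n : ℝ) ≤ y ^ (49 / 50 : ℝ)) :
    gB y n = ((ArithmeticFunction.moebius n : ℤ) : ℂ) := by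
  have hn1 : (1 : ℝ) ≤ n := by exact_mod_cast Nat.one_le_iff_ne_zero.mpr hn
  have hle : (n : ℝ) ≤ y := by
    refine hn'.trans ?_
    calc y ^ (49 / 50 : ℝ) ≤ y ^ (1 : ℝ) :=
          Real.rpow_le_rpow_of_exponent_le hy.le (by norm_num)
      _ = y := Real.rpow_one y
  have hmem : n ∈ Finset.Icc 1 ⌊y⌋₊ := by
    rw [Finset.mem_Icc]
    exact ⟨Nat.one_le_iff_ne_zero.mpr hn, Nat.le_floor hle⟩
  have hlog : Real.log n / Real.log y ≤ 49 / 50 := by
    rw [div_le_iff₀ (Real.log_pos hy)]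
    calc Real.log n ≤ Real.log (y ^ (49 / 50 : ℝ)) := Real.log_le_log (by linarith) hn'
      _ = 49 / 50 * Real.log y := Real.log_rpow (by linarith) _
  rw [gB, if_pos hmem, Fm_one hlog]
  simp

private theorem conv_apply (y : ℝ) {n : ℕ} (_ : n ≠ 0) :
    LSeries.convolution 1 (gB y) n = ∑ d ∈ n.divisors, gB y d := by
  rw [LSeries.convolution_def]
  simp only [Pi.one_apply, one_mul]
  exact Nat.sum_divisorsAntidiagonal' (f := fun _ b => gB y b)

private theorem conv_one {y : ℝ} (hy : 1 < y) : LSeries.convolution 1 (gB y) 1 = 1 := by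
  rw [conv_apply y one_ne_zero, Nat.divisors_one, Finset.sum_singleton, gB_eq hy one_ne_zero]
  · simp
  · rw [Nat.cast_one]
    exact Real.one_le_rpow hy.le (by norm_num)

private theorem conv_zero {y : ℝ} (hy : 1 < y) {n : ℕ} (hn : 2 ≤ n)
    (hn' : (n : ℝ) ≤ y ^ (49 / 50 : ℝ)) : LSeries.convolution 1 (gB y) n = 0 := by
  rw [conv_apply y (by omega)]
  have h1 : ∑ d ∈ n.divisors, gB y d
      = ∑ d ∈ n.divisors, ((ArithmeticFunction.moebius d : ℤ) : ℂ) := by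
    refine Finset.sum_congr rfl fun d hd => ?_
    have hdn := Nat.mem_divisors.mp hd
    have hd0 : d ≠ 0 := by
      rintro rfl
      exact hdn.2 (Nat.eq_zero_of_zero_dvd hdn.1)
    have hle : (d : ℝ) ≤ n := by exact_mod_cast Nat.le_of_dvd (by omega) hdn.1
    exact gB_eq hy hd0 (hle.trans hn')
  have h2 : ∑ d ∈ n.divisors, ArithmeticFunction.moebius d = 0 := by
    have h3 := ArithmeticFunction.coe_mul_zeta_apply (f := ArithmeticFunction.moebius) (x := n)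
    rw [ArithmeticFunction.moebius_mul_coe_zeta, ArithmeticFunction.one_apply_ne (by omega)] at h3
    exact h3.symm
  rw [h1, ← Int.cast_sum, h2, Int.cast_zero]

private theorem norm_conv_le (y : ℝ) {n : ℕ} (hn : n ≠ 0) :
    ‖LSeries.convolution 1 (gB y) n‖ ≤ n := by
  rw [conv_apply y hn]
  calc ‖∑ d ∈ n.divisors, gB y d‖ ≤ ∑ d ∈ n.divisors, ‖gB y d‖ := norm_sum_le _ _
    _ ≤ ∑ d ∈ n.divisors, (1 : ℝ) := Finset.sum_le_sum fun d _ => norm_gB_le y d
    _ = (n.divisors.card : ℝ) := by simp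
    _ ≤ n := by exact_mod_cast Nat.card_divisors_le_self n

private theorem sum_inv_sq_le : ∑' n : ℕ, 1 / (n : ℝ) ^ 2 ≤ 2 := by
  rw [hasSum_zeta_two.tsum_eq]
  have h1 := Real.pi_lt_d2
  have h2 := Real.pi_pos
  nlinarith

theorem tail_bound : ∀ T : ℝ, Real.exp 10 ≤ T → ∀ s : ℂ, s.re = 50 →
    ‖1 - riemannZeta s * Mo (yT T) (nC s)‖ ≤ 2 * T ^ (-(7277 / 1000) : ℝ) := by
  intro T hT s hs
  have hT1 : 1 < T := by
    have : (1 : ℝ) < Real.exp 10 := Real.one_lt_exp_iff.mpr (by norm_num)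
    linarith
  set y := yT T with hydef
  have hy : 1 < y := Real.one_lt_rpow hT1 (by norm_num)
  have hy0 : 0 < y := by linarith
  have hY0 : 0 < y ^ (49 / 50 : ℝ) := Real.rpow_pos_of_pos hy0 _
  have hz : LSeriesHasSum 1 s (riemannZeta s) := LSeriesHasSum_one (by rw [hs]; norm_num)
  have hc : LSeriesHasSum (LSeries.convolution 1 (gB y)) s (riemannZeta s * Mo y (nC s)) :=
    hz.convolution (gB_hasSum y s)
  have hd : HasSum (LSeries.term LSeries.delta s) 1 := by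
    have e : LSeries.term LSeries.delta s = fun n => if n = 1 then (1 : ℂ) else 0 := by
      funext n
      exact LSeries.term_delta s n
    rw [e]
    exact hasSum_ite_eq 1 1
  have hsub := hd.sub hc
  rw [← hsub.tsum_eq]
  have hbound : ∀ n : ℕ, ‖LSeries.term LSeries.delta s n
      - LSeries.term (LSeries.convolution 1 (gB y)) s n‖
      ≤ (y ^ (49 / 50 : ℝ)) ^ (-47 : ℝ) * (1 / (n : ℝ) ^ 2) := by
    intro n
    have hnn : 0 ≤ (y ^ (49 / 50 : ℝ)) ^ (-47 : ℝ) * (1 / (n : ℝ) ^ 2) := by positivity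
    rcases eq_or_ne n 0 with rfl | hn0
    · simp
    rcases eq_or_ne n 1 with rfl | hn1
    · rw [LSeries.term_delta, if_pos rfl, LSeries.term_of_ne_zero one_ne_zero, conv_one hy]
      simpa using hnn
    have hn2 : 2 ≤ n := by omega
    rw [LSeries.term_delta, if_neg hn1, zero_sub, norm_neg, LSeries.term_of_ne_zero hn0]
    by_cases hle : (n : ℝ) ≤ y ^ (49 / 50 : ℝ)
    · rw [conv_zero hy hn2 hle, zero_div, norm_zero]
      exact hnn
    · push Not at hle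
      have hnpos : (0 : ℝ) < n := hY0.trans hle
      rw [norm_div, Complex.norm_natCast_cpow_of_pos (Nat.pos_of_ne_zero hn0), hs]
      have h1 : (n : ℝ) ^ (50 : ℝ) = (n : ℝ) * ((n : ℝ) ^ (47 : ℝ) * (n : ℝ) ^ 2) := by
        rw [← Real.rpow_natCast (n : ℝ) 2, ← Real.rpow_add hnpos]
        nth_rewrite 2 [← Real.rpow_one (n : ℝ)]
        rw [← Real.rpow_add hnpos]
        norm_num
      have h2 : (n : ℝ) ^ (-47 : ℝ) ≤ (y ^ (49 / 50 : ℝ)) ^ (-47 : ℝ) :=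
        Real.rpow_le_rpow_of_nonpos hY0 hle.le (by norm_num)
      calc ‖LSeries.convolution 1 (gB y) n‖ / (n : ℝ) ^ (50 : ℝ)
          ≤ (n : ℝ) / (n : ℝ) ^ (50 : ℝ) := by
            gcongr
            exact norm_conv_le y hn0
        _ = (n : ℝ) ^ (-47 : ℝ) * (1 / (n : ℝ) ^ 2) := by
            rw [h1, Real.rpow_neg hnpos.le]
            field_simp
        _ ≤ _ := by gcongr
  have hsum : Summable fun n : ℕ => (y ^ (49 / 50 : ℝ)) ^ (-47 : ℝ) * (1 / (n : ℝ) ^ 2) :=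
    hasSum_zeta_two.summable.mul_left _
  have h3 := tsum_of_norm_bounded hsum.hasSum hbound
  refine h3.trans ?_
  rw [tsum_mul_left, mul_comm]
  have h4 : (y ^ (49 / 50 : ℝ)) ^ (-47 : ℝ) ≤ T ^ (-(7277 / 1000) : ℝ) := by
    rw [← Real.rpow_mul hy0.le, hydef, yT, ← Real.rpow_mul (by linarith)]
    exact Real.rpow_le_rpow_of_exponent_le hT1.le (by norm_num)
  exact mul_le_mul sum_inv_sq_le h4 (by positivity) (by norm_num)

theorem norm_zeta_le_two {s : ℂ} (hs : 2 ≤ s.re) : ‖riemannZeta s‖ ≤ 2 := by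
  rw [zeta_eq_tsum_one_div_nat_cpow (by linarith)]
  refine (tsum_of_norm_bounded hasSum_zeta_two.summable.hasSum fun n => ?_).trans sum_inv_sq_le
  rcases eq_or_ne n 0 with rfl | hn0
  · have hs0 : s ≠ 0 := by
      intro h
      rw [h] at hs
      simp at hs
      linarith
    simp [Complex.zero_cpow hs0]
  · have hn1 : (1 : ℝ) ≤ n := by exact_mod_cast Nat.one_le_iff_ne_zero.mpr hn0
    rw [norm_div, norm_one, Complex.norm_natCast_cpow_of_pos (Nat.pos_of_ne_zero hn0)]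
    refine one_div_le_one_div_of_le (by positivity) ?_
    rw [← Real.rpow_natCast]
    exact Real.rpow_le_rpow_of_exponent_le hn1 (by exact_mod_cast hs)

end Pool.Agent.UH
end

section

/-! TASK E1. Inequalities for the real truncated exponential. Elementary real analysis.
* `exR_eq`: push the cast through the sum.
* `exR_le_exp`: for `0 ≤ z` the partial sum is at most the whole exponential series (`Real.sum_le_exp_of_nonneg` or `NormedSpace.exp` series).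
* `exR_neg`: `l` even, `y ≥ 0`: `h(y) = e^y ExR l (-y)` has `h(0) = 1` and `h'(y) = e^y (ExR l (-y) - ExR (l-1) (-y)) = e^y (-y)^l / l! = e^y y^l/l! ≥ 0`
  (for `l = 0` directly). So `h ≥ 1`.
* `exR_lower`: `0 ≤ z ≤ l/2`: `e^z - ExR l z = ∑_{i > l} z^i/i! ≤ z^l/l!` (ratio of consecutive terms `≤ z/(i+1) ≤ 1/2` for `i ≥ l`), and
  `z^l/l! = 2^{-l} (2z)^l/l! ≤ 2^{-l} e^{2z} = e^z 2^{-l} e^z ≤ e^z 2^{-l} e^{l/2} ≤ e^z (5/6)^l` since `e^{1/2}/2 ≤ 0.8244 ≤ 5/6`.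
* `exR_neg2`: `l ≥ 6` even, `y ≥ 0`. If `y ≤ (2/5) l + 1`: `exR_neg`. Otherwise, with `h` as above, `h(y) ≥ h(y) - h(y-1) = ∫_{y-1}^y e^s s^l/l! ds ≥ e^{y-1} (y-1)^l/l!` (mean value theorem: `h' ≥ e^{y-1}(y-1)^l/l!` on `[y-1,y]`),
  so `ExR l (-y) = e^{-y} h(y) ≥ e^{-1} (y-1)^l/l! ≥ e^{-1} (2l/5)^l/l!`; `l! ≤ ((l+1)/2)^l` (AM-GM; Mathlib `Nat.factorial_lt_of_lt`-free: `l!^2 = ∏ i (l+1-i) ≤ ((l+1)/2)^{2l}`), so
  it is `≥ e^{-1} (4l/(5(l+1)))^l = e^{-1} (4/5)^l (1+1/l)^{-l} ≥ e^{-2} (4/5)^l ≥ e^{-1} e^{-2l/5}`: indeed `(4/5)^l e^{2l/5} = (0.8 e^{0.4})^l ≥ 1.19^l ≥ e` for `l ≥ 6` (`e^{0.4} ≥ 1.49`, `1.19^6 ≥ 2.8 ≥ e`).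
Here `ExR l (-y)` with `l` even is also positive for all real arguments. -/

set_option autoImplicit false

namespace Pool.Agent.UH

open Complex MeasureTheory Finset Pool.Agent.GH
open scoped Real ComplexConjugate

private theorem E1_zero (l : ℕ) : ExR l 0 = 1 := by
  unfold ExR
  rw [Finset.sum_eq_single 0]
  · simp
  · intro i _ hi
    rw [zero_pow hi, zero_div]
  · intro h
    exact absurd (Finset.mem_range.2 (Nat.succ_pos l)) h

private theorem E1_deriv (l : ℕ) (x : ℝ) :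
    HasDerivAt (ExR l) (ExR l x - x ^ l / (l.factorial : ℝ)) x := by
  induction l with
  | zero =>
    have h1 : ExR 0 = fun _ => (1 : ℝ) := by
      funext y
      simp [ExR]
    rw [h1]
    simpa using hasDerivAt_const x (1 : ℝ)
  | succ l ih =>
    have h1 : ExR (l + 1) = fun y => ExR l y + y ^ (l + 1) / ((l + 1).factorial : ℝ) := by
      funext y
      unfold ExR
      rw [Finset.sum_range_succ]
    rw [h1]
    have h2 := ih.add ((hasDerivAt_pow (l + 1) x).div_const ((l + 1).factorial : ℝ))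
    refine h2.congr_deriv ?_
    rw [Nat.factorial_succ]
    push_cast
    have h3 : ((l : ℝ) + 1) ≠ 0 := by positivity
    have h4 : (l.factorial : ℝ) ≠ 0 := by exact_mod_cast Nat.factorial_ne_zero l
    have h5 : ((l : ℝ) + 1) * x ^ l / (((l : ℝ) + 1) * (l.factorial : ℝ)) = x ^ l / (l.factorial : ℝ) :=
      mul_div_mul_left _ _ h3
    rw [h5]
    ring

/-- The function `e^y ExR l (-y)`. -/
private noncomputable def E1_h (l : ℕ) (y : ℝ) : ℝ := Real.exp y * ExR l (-y)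

private theorem E1_hder (l : ℕ) (y : ℝ) :
    HasDerivAt (E1_h l) (Real.exp y * ((-y) ^ l / (l.factorial : ℝ))) y := by
  have h1 : HasDerivAt (fun y : ℝ => ExR l (-y))
      ((ExR l (-y) - (-y) ^ l / (l.factorial : ℝ)) * (-1)) y :=
    HasDerivAt.comp y (E1_deriv l (-y)) (hasDerivAt_neg y)
  have h2 := (Real.hasDerivAt_exp y).mul h1
  refine h2.congr_deriv ?_
  ring

private theorem E1_mono {l : ℕ} (hl : Even l) {y : ℝ} (hy : 0 ≤ y) : E1_h l 0 ≤ E1_h l y := by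
  have : Monotone (E1_h l) := by
    refine monotone_of_deriv_nonneg (fun x => (E1_hder l x).differentiableAt) (fun x => ?_)
    rw [(E1_hder l x).deriv, hl.neg_pow x]
    have := hl.pow_nonneg x
    positivity
  exact this hy

private theorem E1_fac (l : ℕ) (hl : 6 ≤ l) :
    (l.factorial : ℝ) ≤ (2 / 5 * l) ^ l * Real.exp (2 / 5 * l) := by
  induction l, hl using Nat.le_induction with
  | base =>
    have h1 := Real.quadratic_le_exp_of_nonneg (show (0 : ℝ) ≤ 2 / 5 * (6 : ℕ) by positivity)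
    have h2 : (Nat.factorial 6 : ℝ) = 720 := by norm_num [Nat.factorial]
    rw [h2]
    push_cast at h1 ⊢
    calc (720 : ℝ) ≤ (2 / 5 * 6) ^ 6 * (1 + 2 / 5 * 6 + (2 / 5 * 6) ^ 2 / 2) := by norm_num
      _ ≤ (2 / 5 * 6) ^ 6 * Real.exp (2 / 5 * 6) := mul_le_mul_of_nonneg_left h1 (by positivity)
  | succ l hl ih =>
    have hl0 : (0 : ℝ) < l := by
      have : 0 < l := by omega
      exact_mod_cast this
    have h1 : (7 / 5 : ℝ) ≤ Real.exp (2 / 5) := by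
      have := Real.add_one_le_exp (2 / 5 : ℝ)
      linarith
    have h2 : 2 * (2 / 5 * (l : ℝ)) ^ l ≤ (2 / 5 * ((l : ℝ) + 1)) ^ l := by
      have h3 : (2 : ℝ) ≤ (1 + 1 / (l : ℝ)) ^ l := by
        have := one_add_mul_le_pow (show (-2 : ℝ) ≤ 1 / (l : ℝ) by
          have : (0 : ℝ) ≤ 1 / (l : ℝ) := by positivity
          linarith) l
        have h4 : (l : ℝ) * (1 / (l : ℝ)) = 1 := by field_simp
        linarith
      have h5 : 2 / 5 * ((l : ℝ) + 1) = (1 + 1 / (l : ℝ)) * (2 / 5 * (l : ℝ)) := by field_simp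
      rw [h5, mul_pow (1 + 1 / (l : ℝ)) (2 / 5 * (l : ℝ)) l]
      exact mul_le_mul_of_nonneg_right h3 (by positivity)
    rw [Nat.factorial_succ]
    push_cast
    have h6 : Real.exp (2 / 5 * ((l : ℝ) + 1)) = Real.exp (2 / 5 * (l : ℝ)) * Real.exp (2 / 5) := by
      rw [← Real.exp_add]; congr 1; ring
    rw [h6, pow_succ]
    obtain ⟨P, hP⟩ : ∃ P, P = (2 / 5 * (l : ℝ)) ^ l := ⟨_, rfl⟩
    obtain ⟨Q, hQ⟩ : ∃ Q, Q = (2 / 5 * ((l : ℝ) + 1)) ^ l := ⟨_, rfl⟩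
    obtain ⟨E, hE⟩ : ∃ E, E = Real.exp (2 / 5 * (l : ℝ)) := ⟨_, rfl⟩
    have hE0 : 0 < E := hE ▸ Real.exp_pos _
    have hP0 : 0 ≤ P := by rw [hP]; positivity
    rw [← hP, ← hE] at ih
    rw [← hP, ← hQ] at h2
    rw [← hQ, ← hE]
    calc ((l : ℝ) + 1) * (l.factorial : ℝ) ≤ ((l : ℝ) + 1) * (P * E) :=
          mul_le_mul_of_nonneg_left ih (by positivity)
      _ ≤ ((l : ℝ) + 1) * (P * E) * (28 / 25) := by
          have : 0 ≤ ((l : ℝ) + 1) * (P * E) := by positivity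
          linarith
      _ = (2 * P) * (2 / 5 * ((l : ℝ) + 1)) * (E * (7 / 5)) := by ring
      _ ≤ Q * (2 / 5 * ((l : ℝ) + 1)) * (E * Real.exp (2 / 5)) := by
          apply mul_le_mul
          · exact mul_le_mul_of_nonneg_right h2 (by positivity)
          · exact mul_le_mul_of_nonneg_left h1 hE0.le
          · positivity
          · have hQ0 : 0 ≤ Q := le_trans (mul_nonneg (by norm_num) hP0) h2
            exact mul_nonneg hQ0 (by positivity)

theorem exR_eq (l : ℕ) (x : ℝ) : Ex l (x : ℂ) = (ExR l x : ℂ) := by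
  unfold Ex ExR
  push_cast
  rfl

theorem continuous_exR (l : ℕ) : Continuous (ExR l) := by
  unfold ExR
  fun_prop

theorem exR_le_exp (l : ℕ) {z : ℝ} (hz : 0 ≤ z) : ExR l z ≤ Real.exp z := by
  exact Real.sum_le_exp_of_nonneg hz (l + 1)

theorem one_le_exR (l : ℕ) {z : ℝ} (hz : 0 ≤ z) : 1 ≤ ExR l z := by
  unfold ExR
  have h := Finset.single_le_sum (f := fun i => z ^ i / (i.factorial : ℝ)) (s := range (l + 1))
    (fun i _ => by positivity) (Finset.mem_range.2 (Nat.succ_pos l))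
  simpa using h

theorem exR_neg {l : ℕ} (hl : Even l) {y : ℝ} (hy : 0 ≤ y) : Real.exp (-y) ≤ ExR l (-y) := by
  have h1 := E1_mono hl hy
  simp only [E1_h, neg_zero, Real.exp_zero, one_mul] at h1
  rw [E1_zero] at h1
  have h2 := mul_le_mul_of_nonneg_left h1 (Real.exp_pos (-y)).le
  rw [mul_one, ← mul_assoc, ← Real.exp_add, neg_add_cancel, Real.exp_zero, one_mul] at h2
  exact h2

theorem exR_lower (l : ℕ) {z : ℝ} (hz : 0 ≤ z) (hz1 : z ≤ l / 2) :
    Real.exp z * (1 - (5 / 6 : ℝ) ^ l) ≤ ExR l z := by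
  have hd : ∀ x : ℝ, HasDerivAt (fun x => Real.exp (-x) * ExR l x + (1 / 2 : ℝ) ^ l * Real.exp x)
      ((1 / 2 : ℝ) ^ l * Real.exp x - Real.exp (-x) * (x ^ l / (l.factorial : ℝ))) x := by
    intro x
    have h1 : HasDerivAt (fun x : ℝ => Real.exp (-x)) (Real.exp (-x) * (-1)) x :=
      (Real.hasDerivAt_exp (-x)).comp x (hasDerivAt_neg x)
    have h2 := (h1.mul (E1_deriv l x)).add ((Real.hasDerivAt_exp x).const_mul ((1 / 2 : ℝ) ^ l))
    refine h2.congr_deriv ?_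
    ring
  have hmono : MonotoneOn (fun x => Real.exp (-x) * ExR l x + (1 / 2 : ℝ) ^ l * Real.exp x)
      (Set.Ici 0) := by
    refine monotoneOn_of_deriv_nonneg (convex_Ici 0)
      (fun x _ => (hd x).continuousAt.continuousWithinAt)
      (fun x _ => (hd x).differentiableAt.differentiableWithinAt) (fun x hx => ?_)
    rw [interior_Ici] at hx
    rw [(hd x).deriv]
    have hx0 : (0 : ℝ) ≤ 2 * x := by
      have : (0 : ℝ) < x := hx
      linarith
    have h3 : (2 * x) ^ l / (l.factorial : ℝ) ≤ Real.exp (2 * x) :=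
      Real.pow_div_factorial_le_exp (2 * x) hx0 l
    have h4 : Real.exp (-x) * (x ^ l / (l.factorial : ℝ)) ≤ (1 / 2 : ℝ) ^ l * Real.exp x := by
      have e1 : x ^ l / (l.factorial : ℝ) = (1 / 2 : ℝ) ^ l * ((2 * x) ^ l / (l.factorial : ℝ)) := by
        rw [mul_pow, div_pow, one_pow]
        field_simp
      rw [e1]
      have e2 : Real.exp x = Real.exp (-x) * Real.exp (2 * x) := by
        rw [← Real.exp_add]; congr 1; ring
      rw [e2]
      calc Real.exp (-x) * ((1 / 2 : ℝ) ^ l * ((2 * x) ^ l / (l.factorial : ℝ)))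
          = (1 / 2 : ℝ) ^ l * (Real.exp (-x) * ((2 * x) ^ l / (l.factorial : ℝ))) := by ring
        _ ≤ (1 / 2 : ℝ) ^ l * (Real.exp (-x) * Real.exp (2 * x)) := by
          apply mul_le_mul_of_nonneg_left _ (by positivity)
          exact mul_le_mul_of_nonneg_left h3 (Real.exp_pos _).le
    linarith
  have h5 := hmono (Set.mem_Ici.2 le_rfl) (Set.mem_Ici.2 hz) hz
  simp only [neg_zero, Real.exp_zero, one_mul, mul_one] at h5
  rw [E1_zero] at h5
  have h6 : (1 / 2 : ℝ) ^ l * Real.exp z ≤ (5 / 6 : ℝ) ^ l := by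
    have h7 : Real.exp z ≤ (5 / 3 : ℝ) ^ l := by
      have h8 : Real.exp (1 / 2) ≤ 5 / 3 := by
        have h9 : Real.exp (1 / 2) ^ 2 = Real.exp 1 := by
          rw [← Real.exp_nat_mul]; norm_num
        have h10 := Real.exp_one_lt_d9
        have h11 := Real.exp_pos (1 / 2)
        nlinarith
      calc Real.exp z ≤ Real.exp (l * (1 / 2)) := Real.exp_le_exp.2 (by linarith)
        _ = Real.exp (1 / 2) ^ l := by rw [Real.exp_nat_mul]
        _ ≤ (5 / 3 : ℝ) ^ l := pow_le_pow_left₀ (Real.exp_pos _).le h8 l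
    calc (1 / 2 : ℝ) ^ l * Real.exp z ≤ (1 / 2 : ℝ) ^ l * (5 / 3 : ℝ) ^ l :=
          mul_le_mul_of_nonneg_left h7 (by positivity)
      _ = (5 / 6 : ℝ) ^ l := by rw [← mul_pow]; norm_num
  have h12 : (0 : ℝ) < (1 / 2 : ℝ) ^ l := by positivity
  have h13 : 1 - (5 / 6 : ℝ) ^ l ≤ Real.exp (-z) * ExR l z := by linarith
  have h14 := mul_le_mul_of_nonneg_left h13 (Real.exp_pos z).le
  rw [← mul_assoc, ← Real.exp_add, add_neg_cancel, Real.exp_zero, one_mul] at h14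
  exact h14

theorem exR_neg2 {l : ℕ} (hl : Even l) (hl6 : 6 ≤ l) {y : ℝ} (hy : 0 ≤ y) :
    Real.exp (-(2 / 5) * l - 1) ≤ ExR l (-y) := by
  rcases le_or_gt y (2 / 5 * l + 1) with h | h
  · exact (Real.exp_le_exp.2 (by linarith)).trans (exR_neg hl hy)
  · have hl0 : (0 : ℝ) ≤ 2 / 5 * l := by positivity
    have hy1 : 2 / 5 * (l : ℝ) ≤ y - 1 := by linarith
    have hy0 : 0 ≤ y - 1 := by linarith
    obtain ⟨c, hc, hc'⟩ := exists_hasDerivAt_eq_slope (E1_h l)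
      (fun x => Real.exp x * ((-x) ^ l / (l.factorial : ℝ))) (by linarith : y - 1 < y)
      (fun x _ => (E1_hder l x).continuousAt.continuousWithinAt) (fun x _ => E1_hder l x)
    have hcc : y - 1 < c := hc.1
    rw [show y - (y - 1) = 1 by ring, div_one] at hc'
    have h1 : 0 ≤ E1_h l (y - 1) := by
      have := E1_mono hl hy0
      rw [show E1_h l 0 = 1 from by
        simp only [E1_h, neg_zero, Real.exp_zero, one_mul]; exact E1_zero l] at this
      linarith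
    have h2 : Real.exp (y - 1) * ((2 / 5 * l) ^ l / (l.factorial : ℝ)) ≤ E1_h l y := by
      have h3 : (-c) ^ l = c ^ l := hl.neg_pow c
      rw [h3] at hc'
      have h4 : (2 / 5 * (l : ℝ)) ^ l ≤ c ^ l := pow_le_pow_left₀ hl0 (by linarith) l
      have hfac : (0 : ℝ) < l.factorial := by exact_mod_cast Nat.factorial_pos l
      have h5 : (2 / 5 * (l : ℝ)) ^ l / (l.factorial : ℝ) ≤ c ^ l / (l.factorial : ℝ) :=
        div_le_div_of_nonneg_right h4 hfac.le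
      have h6 : Real.exp (y - 1) ≤ Real.exp c := Real.exp_le_exp.2 hcc.le
      have h7 : Real.exp (y - 1) * ((2 / 5 * l) ^ l / (l.factorial : ℝ)) ≤
          Real.exp c * (c ^ l / (l.factorial : ℝ)) :=
        mul_le_mul h6 h5 (by positivity) (Real.exp_pos _).le
      linarith
    have h8 : Real.exp (-1) * ((2 / 5 * l) ^ l / (l.factorial : ℝ)) ≤ ExR l (-y) := by
      have h9 := mul_le_mul_of_nonneg_left h2 (Real.exp_pos (-y)).le
      unfold E1_h at h9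
      rw [← mul_assoc, ← Real.exp_add, ← mul_assoc, ← Real.exp_add, neg_add_cancel, Real.exp_zero,
        one_mul, show -y + (y - 1) = -1 by ring] at h9
      exact h9
    refine le_trans ?_ h8
    have h10 := E1_fac l hl6
    have hfac : (0 : ℝ) < l.factorial := by exact_mod_cast Nat.factorial_pos l
    have h11 : Real.exp (-(2 / 5) * l) ≤ (2 / 5 * l) ^ l / (l.factorial : ℝ) := by
      rw [le_div_iff₀ hfac]
      calc Real.exp (-(2 / 5) * l) * (l.factorial : ℝ)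
          ≤ Real.exp (-(2 / 5) * l) * ((2 / 5 * (l : ℝ)) ^ l * Real.exp (2 / 5 * l)) :=
            mul_le_mul_of_nonneg_left h10 (Real.exp_pos _).le
        _ = (2 / 5 * (l : ℝ)) ^ l * (Real.exp (-(2 / 5) * l) * Real.exp (2 / 5 * l)) := by ring
        _ = (2 / 5 * (l : ℝ)) ^ l := by
          rw [← Real.exp_add, show -(2 / 5) * (l : ℝ) + 2 / 5 * l = 0 by ring, Real.exp_zero, mul_one]
    rw [show -(2 / 5) * (l : ℝ) - 1 = -1 + -(2 / 5) * l by ring, Real.exp_add]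
    exact mul_le_mul_of_nonneg_left h11 (Real.exp_pos _).le

theorem exR_pos {l : ℕ} (hl : Even l) (x : ℝ) : 0 < ExR l x := by
  rcases le_or_gt 0 x with h | h
  · exact lt_of_lt_of_le one_pos (one_le_exR l h)
  · have h1 := exR_neg hl (y := -x) (by linarith)
    rw [neg_neg] at h1
    exact lt_of_lt_of_le (Real.exp_pos x) h1

end Pool.Agent.UH
end

section

/-! TASK D1. Calculus of `IsDP2` (compare `IsDP.mul` in GH/Basic.lean: same bookkeeping).
* `const`: `F = {(1,1)}`, `χ 1 = 1`, `conj 1 = 1`.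
* `of_dp`: `F' = F × {1}`, `c(n,1) = a n`; `n^{-1/2} ≤ 1`.
* `mul`: the product of the two sums over `F × F'`; push forward to pairs `(m m', n n')` (`Finset.image`, `c(r) = ∑` over the fibre); `χ` is multiplicative, `((m m')(n n'))^{-1/2}` is multiplicative.
* `add`, `smul`, `sum`: union of the supports with coefficients extended by zero.
* `re_PS`: `(PS R χ).re = ∑_{p∈R} (χ p conj(χ 1) + χ 1 conj(χ p))/2`; `∑ p^{-1/2} ≤ card R ≤ N` (primes `≤ N`, distinct naturals in `[1,N]`).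
* `exR`: `ExR l (al x) = ∑_{i ≤ l} al^i x^i/i!`, `x^i` is `IsDP2 (Q^i) (B^i)`, `∑_{i≤l} |al|^i B^i/i! ≤ B^l ∑ 1/i! ≤ 3 B^l` (`B ≥ 1`). -/

set_option autoImplicit false

namespace Pool.Agent.UH

open Complex MeasureTheory Finset Pool.Agent.GH
open scoped Real ComplexConjugate

/-- The weight of a pair. -/
private noncomputable def D1_w (q : ℕ × ℕ) : ℝ := ((q.1 : ℝ) * q.2) ^ (-(1 / 2) : ℝ)

private theorem D1_w_nonneg (q : ℕ × ℕ) : 0 ≤ D1_w q :=
  Real.rpow_nonneg (mul_nonneg (Nat.cast_nonneg _) (Nat.cast_nonneg _)) _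

private theorem D1_w_le_one {q : ℕ × ℕ} (h1 : q.1 ≠ 0) (h2 : q.2 ≠ 0) : D1_w q ≤ 1 := by
  unfold D1_w
  have k1 : (1 : ℝ) ≤ q.1 := by exact_mod_cast Nat.one_le_iff_ne_zero.mpr h1
  have k2 : (1 : ℝ) ≤ q.2 := by exact_mod_cast Nat.one_le_iff_ne_zero.mpr h2
  exact Real.rpow_le_one_of_one_le_of_nonpos (by nlinarith) (by norm_num)

private theorem D1_mk {ι : Type} {S : Set ℕ} {Q B : ℝ} {g : (ℕ →*₀ ℂ) → ℂ} (s : Finset ι)
    (u : ι → ℕ × ℕ) (a : ι → ℝ)
    (h1 : ∀ i ∈ s, (u i).1 ≠ 0 ∧ (u i).2 ≠ 0 ∧ (u i).1 ∈ S ∧ (u i).2 ∈ S ∧ ((u i).1 : ℝ) ≤ Q ∧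
      ((u i).2 : ℝ) ≤ Q)
    (h2 : ∑ i ∈ s, |a i| * D1_w (u i) ≤ B)
    (h3 : ∀ χ, g χ = ∑ i ∈ s, (a i : ℂ) * χ (u i).1 * conj (χ (u i).2)) : IsDP2 S Q B g := by
  classical
  refine ⟨s.image u, fun q => ∑ i ∈ s.filter (fun i => u i = q), a i, ?_, ?_, ?_⟩
  · intro q hq
    obtain ⟨i, hi, rfl⟩ := Finset.mem_image.mp hq
    exact h1 i hi
  · calc ∑ q ∈ s.image u, |∑ i ∈ s.filter (fun i => u i = q), a i| *
          ((q.1 : ℝ) * q.2) ^ (-(1 / 2) : ℝ)
        ≤ ∑ q ∈ s.image u, ∑ i ∈ s.filter (fun i => u i = q), |a i| * D1_w (u i) := by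
          refine Finset.sum_le_sum fun q _ => ?_
          have k1 : ∑ i ∈ s.filter (fun i => u i = q), |a i| * D1_w (u i) =
              (∑ i ∈ s.filter (fun i => u i = q), |a i|) * D1_w q := by
            rw [Finset.sum_mul]
            refine Finset.sum_congr rfl fun i hi => ?_
            rw [(Finset.mem_filter.mp hi).2]
          rw [k1]
          exact mul_le_mul_of_nonneg_right (Finset.abs_sum_le_sum_abs _ _) (D1_w_nonneg q)
      _ = ∑ i ∈ s, |a i| * D1_w (u i) :=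
          Finset.sum_fiberwise_of_maps_to (fun i hi => Finset.mem_image_of_mem _ hi) _
      _ ≤ B := h2
  · intro χ
    rw [h3, ← Finset.sum_fiberwise_of_maps_to (t := s.image u) (g := u)
      (fun i hi => Finset.mem_image_of_mem _ hi)]
    refine Finset.sum_congr rfl fun q _ => ?_
    push_cast
    rw [Finset.sum_mul, Finset.sum_mul]
    refine Finset.sum_congr rfl fun i hi => ?_
    rw [(Finset.mem_filter.mp hi).2]

theorem IsDP2.mono {S S' : Set ℕ} {Q Q' B B' : ℝ} {g : (ℕ →*₀ ℂ) → ℂ} (hg : IsDP2 S Q B g)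
    (hS : S ⊆ S') (hQ : Q ≤ Q') (hB : B ≤ B') : IsDP2 S' Q' B' g := by
  obtain ⟨F, c, h1, h2, h3⟩ := hg
  exact ⟨F, c, fun q hq => ⟨(h1 q hq).1, (h1 q hq).2.1, hS (h1 q hq).2.2.1, hS (h1 q hq).2.2.2.1,
    (h1 q hq).2.2.2.2.1.trans hQ, (h1 q hq).2.2.2.2.2.trans hQ⟩, h2.trans hB, h3⟩

theorem isDP2_const (S : Set ℕ) (hS : 1 ∈ S) (c : ℝ) : IsDP2 S 1 |c| (fun _ => (c : ℂ)) := by
  refine D1_mk (Finset.univ : Finset Unit) (fun _ => (1, 1)) (fun _ => c) ?_ ?_ ?_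
  · intro i _
    exact ⟨one_ne_zero, one_ne_zero, hS, hS, by simp, by simp⟩
  · simp [D1_w]
  · intro χ
    simp

theorem isDP2_of_dp {S : Set ℕ} {Q B : ℝ} {f : (ℕ →*₀ ℂ) → ℂ} (hf : IsDP S Q B f) (hS : 1 ∈ S)
    (hQ : 1 ≤ Q) : IsDP2 S Q B f := by
  obtain ⟨F, a, h1, h2, h3⟩ := hf
  refine D1_mk F (fun n => (n, 1)) a ?_ ?_ ?_
  · intro n hn
    exact ⟨(h1 n hn).1, one_ne_zero, (h1 n hn).2.1, hS, (h1 n hn).2.2, by simpa using hQ⟩
  · refine le_trans (Finset.sum_le_sum fun n hn => ?_) h2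
    exact mul_le_of_le_one_right (abs_nonneg _) (D1_w_le_one (h1 n hn).1 one_ne_zero)
  · intro χ
    rw [h3]
    refine Finset.sum_congr rfl fun n _ => ?_
    simp

theorem IsDP2.mul {S : Set ℕ} (hS : ∀ m ∈ S, ∀ n ∈ S, m * n ∈ S) {Q Q' B B' : ℝ}
    {g g' : (ℕ →*₀ ℂ) → ℂ} (hg : IsDP2 S Q B g) (hg' : IsDP2 S Q' B' g') (hB' : 0 ≤ B') :
    IsDP2 S (Q * Q') (B * B') (fun χ => g χ * g' χ) := by
  obtain ⟨F, c, h1, h2, h3⟩ := hg
  obtain ⟨F', c', h1', h2', h3'⟩ := hg'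
  have hw : ∀ q q' : ℕ × ℕ, D1_w (q.1 * q'.1, q.2 * q'.2) = D1_w q * D1_w q' := by
    intro q q'
    unfold D1_w
    rw [← Real.mul_rpow (mul_nonneg (Nat.cast_nonneg _) (Nat.cast_nonneg _))
      (mul_nonneg (Nat.cast_nonneg _) (Nat.cast_nonneg _))]
    congr 1
    push_cast
    ring
  refine D1_mk (F ×ˢ F') (fun r => (r.1.1 * r.2.1, r.1.2 * r.2.2)) (fun r => c r.1 * c' r.2)
    ?_ ?_ ?_
  · intro r hr
    obtain ⟨hr1, hr2⟩ := Finset.mem_product.mp hr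
    obtain ⟨a1, a2, a3, a4, a5, a6⟩ := h1 _ hr1
    obtain ⟨b1, b2, b3, b4, b5, b6⟩ := h1' _ hr2
    refine ⟨mul_ne_zero a1 b1, mul_ne_zero a2 b2, hS _ a3 _ b3, hS _ a4 _ b4, ?_, ?_⟩
    · push_cast
      exact mul_le_mul a5 b5 (Nat.cast_nonneg _) ((Nat.cast_nonneg _).trans a5)
    · push_cast
      exact mul_le_mul a6 b6 (Nat.cast_nonneg _) ((Nat.cast_nonneg _).trans a6)
  · have k1 : ∑ r ∈ F ×ˢ F', |c r.1 * c' r.2| * D1_w (r.1.1 * r.2.1, r.1.2 * r.2.2) =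
        (∑ q ∈ F, |c q| * D1_w q) * ∑ q ∈ F', |c' q| * D1_w q := by
      rw [Finset.sum_product, Finset.sum_mul_sum]
      refine Finset.sum_congr rfl fun q _ => Finset.sum_congr rfl fun q' _ => ?_
      rw [hw, abs_mul]
      ring
    rw [k1]
    have k2 : 0 ≤ ∑ q ∈ F, |c q| * D1_w q :=
      Finset.sum_nonneg fun q _ => mul_nonneg (abs_nonneg _) (D1_w_nonneg q)
    exact mul_le_mul h2 h2' (Finset.sum_nonneg fun q _ => mul_nonneg (abs_nonneg _)
      (D1_w_nonneg q)) (k2.trans h2)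
  · intro χ
    beta_reduce
    rw [h3, h3', Finset.sum_mul_sum, ← Finset.sum_product']
    refine Finset.sum_congr rfl fun r _ => ?_
    push_cast
    rw [map_mul χ, map_mul χ, map_mul]
    ring

theorem IsDP2.add {S : Set ℕ} {Q B B' : ℝ} {g g' : (ℕ →*₀ ℂ) → ℂ} (hg : IsDP2 S Q B g)
    (hg' : IsDP2 S Q B' g') : IsDP2 S Q (B + B') (fun χ => g χ + g' χ) := by
  obtain ⟨F, c, h1, h2, h3⟩ := hg
  obtain ⟨F', c', h1', h2', h3'⟩ := hg'
  refine D1_mk (F.disjSum F') (Sum.elim id id) (Sum.elim c c') ?_ ?_ ?_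
  · intro i hi
    rcases i with i | i
    · exact h1 i (Finset.inl_mem_disjSum.mp hi)
    · exact h1' i (Finset.inr_mem_disjSum.mp hi)
  · rw [Finset.sum_disjSum]
    exact add_le_add h2 h2'
  · intro χ
    beta_reduce
    rw [h3, h3', Finset.sum_disjSum]
    rfl

theorem isDP2_re_PS {S : Set ℕ} {N : ℝ} (R : Finset ℕ) (hN : 1 ≤ N) (hS : 1 ∈ S)
    (hR : ∀ p ∈ R, p ∈ S ∧ p ≠ 0 ∧ (p : ℝ) ≤ N) :
    IsDP2 S N N (fun χ => (((PS R χ).re : ℝ) : ℂ)) := by
  refine D1_mk (R.disjSum R) (Sum.elim (fun p => (p, 1)) (fun p => (1, p))) (fun _ => 1 / 2)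
    ?_ ?_ ?_
  · intro i hi
    rcases i with i | i
    · obtain ⟨a1, a2, a3⟩ := hR i (Finset.inl_mem_disjSum.mp hi)
      exact ⟨a2, one_ne_zero, a1, hS, a3, by simpa using hN⟩
    · obtain ⟨a1, a2, a3⟩ := hR i (Finset.inr_mem_disjSum.mp hi)
      exact ⟨one_ne_zero, a2, hS, a1, by simpa using hN, a3⟩
  · have hcard : (R.card : ℝ) ≤ N := by
      have k1 : R ⊆ Finset.Icc 1 ⌊N⌋₊ := by
        intro p hp
        rw [Finset.mem_Icc]
        exact ⟨Nat.one_le_iff_ne_zero.mpr (hR p hp).2.1,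
          (Nat.le_floor_iff (by linarith)).mpr (hR p hp).2.2⟩
      have k2 := Finset.card_le_card k1
      rw [Nat.card_Icc, Nat.add_sub_cancel] at k2
      exact (Nat.cast_le.mpr k2).trans (Nat.floor_le (by linarith))
    rw [Finset.sum_disjSum]
    have k3 : ∑ p ∈ R, |(1 / 2 : ℝ)| * D1_w ((Sum.elim (fun p => (p, 1)) (fun p => (1, p)) :
        ℕ ⊕ ℕ → ℕ × ℕ) (Sum.inl p)) ≤ ∑ _p ∈ R, (1 / 2 : ℝ) := by
      refine Finset.sum_le_sum fun p hp => ?_
      rw [abs_of_nonneg (by norm_num : (0 : ℝ) ≤ 1 / 2)]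
      exact mul_le_of_le_one_right (by norm_num) (D1_w_le_one (hR p hp).2.1 one_ne_zero)
    have k4 : ∑ p ∈ R, |(1 / 2 : ℝ)| * D1_w ((Sum.elim (fun p => (p, 1)) (fun p => (1, p)) :
        ℕ ⊕ ℕ → ℕ × ℕ) (Sum.inr p)) ≤ ∑ _p ∈ R, (1 / 2 : ℝ) := by
      refine Finset.sum_le_sum fun p hp => ?_
      rw [abs_of_nonneg (by norm_num : (0 : ℝ) ≤ 1 / 2)]
      exact mul_le_of_le_one_right (by norm_num) (D1_w_le_one one_ne_zero (hR p hp).2.1)
    rw [Finset.sum_const, nsmul_eq_mul] at k3 k4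
    linarith
  · intro χ
    rw [Finset.sum_disjSum]
    have k1 : (((PS R χ).re : ℝ) : ℂ) = ∑ p ∈ R, (1 / 2 * χ p + 1 / 2 * conj (χ p)) := by
      unfold PS
      rw [Complex.re_sum]
      push_cast
      refine Finset.sum_congr rfl fun p _ => ?_
      have h := Complex.add_conj (χ p)
      rw [← mul_add, h]
      push_cast
      ring
    rw [k1, Finset.sum_add_distrib]
    congr 1
    · refine Finset.sum_congr rfl fun p _ => ?_
      simp
    · refine Finset.sum_congr rfl fun p _ => ?_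
      simp

private theorem D1_smul {S : Set ℕ} (hS : ∀ m ∈ S, ∀ n ∈ S, m * n ∈ S) (hS1 : 1 ∈ S) {Q B : ℝ}
    {g : (ℕ →*₀ ℂ) → ℂ} (hg : IsDP2 S Q B g) (hB : 0 ≤ B) (c : ℝ) :
    IsDP2 S Q (|c| * B) (fun χ => (c : ℂ) * g χ) := by
  have h := IsDP2.mul hS (isDP2_const S hS1 c) hg hB
  rw [one_mul] at h
  exact h

private theorem D1_pow {S : Set ℕ} (hS : ∀ m ∈ S, ∀ n ∈ S, m * n ∈ S) (hS1 : 1 ∈ S) {Q B : ℝ}
    {g : (ℕ →*₀ ℂ) → ℂ} (hg : IsDP2 S Q B g) (hB : 0 ≤ B) (i : ℕ) :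
    IsDP2 S (Q ^ i) (B ^ i) (fun χ => g χ ^ i) := by
  induction i with
  | zero =>
    have h := isDP2_const S hS1 1
    simpa using h
  | succ i ih =>
    have h := IsDP2.mul hS ih hg hB
    simpa only [pow_succ] using h

private theorem D1_exR {S : Set ℕ} (hS : ∀ m ∈ S, ∀ n ∈ S, m * n ∈ S) (hS1 : 1 ∈ S) {Q B : ℝ}
    (hQ : 1 ≤ Q) (hB : 1 ≤ B) {x : (ℕ →*₀ ℂ) → ℝ} (hx : IsDP2 S Q B (fun χ => (x χ : ℂ))) (l : ℕ)
    {al : ℝ} (hal : |al| ≤ 1) :
    IsDP2 S (Q ^ l) (∑ i ∈ range (l + 1), B ^ i / (i.factorial : ℝ))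
      (fun χ => ((ExR l (al * x χ) : ℝ) : ℂ)) := by
  have hterm : ∀ i : ℕ, IsDP2 S (Q ^ i) (B ^ i / (i.factorial : ℝ))
      (fun χ => (((al * x χ) ^ i / (i.factorial : ℝ) : ℝ) : ℂ)) := by
    intro i
    have h := D1_smul hS hS1 (D1_pow hS hS1 hx (by linarith) i) (by positivity)
      (al ^ i / (i.factorial : ℝ))
    have h1 : |al ^ i / (i.factorial : ℝ)| * B ^ i ≤ B ^ i / (i.factorial : ℝ) := by
      rw [abs_div, abs_pow, Nat.abs_cast, div_mul_eq_mul_div]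
      refine div_le_div_of_nonneg_right ?_ (Nat.cast_nonneg _)
      exact mul_le_of_le_one_left (by positivity) (pow_le_one₀ (abs_nonneg _) hal)
    have h2 := h.mono (subset_refl S) (le_refl _) h1
    have h3 : (fun χ : ℕ →*₀ ℂ => ((al ^ i / (i.factorial : ℝ) : ℝ) : ℂ) * (x χ : ℂ) ^ i) =
        fun χ => (((al * x χ) ^ i / (i.factorial : ℝ) : ℝ) : ℂ) := by
      funext χ
      push_cast
      ring
    rw [h3] at h2
    exact h2
  induction l with
  | zero =>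
    have h := hterm 0
    have h3 : (fun χ : ℕ →*₀ ℂ => ((ExR 0 (al * x χ) : ℝ) : ℂ)) =
        fun χ => (((al * x χ) ^ 0 / ((0 : ℕ).factorial : ℝ) : ℝ) : ℂ) := by
      funext χ
      unfold ExR
      rw [Finset.sum_range_one]
    rw [h3, Finset.sum_range_one]
    exact h
  | succ l ih =>
    have h := IsDP2.add (ih.mono (subset_refl S) (pow_le_pow_right₀ hQ (Nat.le_succ l)) (le_refl _))
      (hterm (l + 1))
    have h3 : (fun χ : ℕ →*₀ ℂ => ((ExR (l + 1) (al * x χ) : ℝ) : ℂ)) =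
        fun χ => ((ExR l (al * x χ) : ℝ) : ℂ) +
          (((al * x χ) ^ (l + 1) / ((l + 1).factorial : ℝ) : ℝ) : ℂ) := by
      funext χ
      rw [← Complex.ofReal_add]
      congr 1
      unfold ExR
      rw [Finset.sum_range_succ (n := l + 1)]
    rw [h3, Finset.sum_range_succ (n := l + 1)]
    exact h

theorem isDP2_exR {S : Set ℕ} (hS : ∀ m ∈ S, ∀ n ∈ S, m * n ∈ S) (hS1 : 1 ∈ S) {Q B : ℝ} (hQ : 1 ≤ Q)
    (hB : 1 ≤ B) {x : (ℕ →*₀ ℂ) → ℝ} (hx : IsDP2 S Q B (fun χ => (x χ : ℂ))) (l : ℕ) {al : ℝ}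
    (hal : |al| ≤ 1) :
    IsDP2 S (Q ^ l) (3 * B ^ l) (fun χ => ((ExR l (al * x χ) : ℝ) : ℂ)) := by
  refine (D1_exR hS hS1 hQ hB hx l hal).mono (subset_refl S) (le_refl _) ?_
  have h1 : ∑ i ∈ range (l + 1), B ^ i / (i.factorial : ℝ) ≤
      ∑ i ∈ range (l + 1), B ^ l * ((1 : ℝ) ^ i / (i.factorial : ℝ)) := by
    refine Finset.sum_le_sum fun i hi => ?_
    rw [one_pow, mul_one_div]
    refine div_le_div_of_nonneg_right ?_ (Nat.cast_nonneg _)
    exact pow_le_pow_right₀ hB (Nat.lt_succ_iff.mp (Finset.mem_range.mp hi))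
  rw [← Finset.mul_sum] at h1
  have h2 := Real.sum_le_exp_of_nonneg (zero_le_one : (0 : ℝ) ≤ 1) (l + 1)
  have h3 : Real.exp 1 ≤ 3 := by
    have := Real.exp_one_lt_d9
    linarith
  have h4 : (0 : ℝ) ≤ B ^ l := by positivity
  calc ∑ i ∈ range (l + 1), B ^ i / (i.factorial : ℝ)
      ≤ B ^ l * ∑ i ∈ range (l + 1), (1 : ℝ) ^ i / (i.factorial : ℝ) := h1
    _ ≤ B ^ l * 3 := mul_le_mul_of_nonneg_left (h2.trans h3) h4
    _ = 3 * B ^ l := mul_comm _ _

theorem continuous_dp2 {S : Set ℕ} {Q B : ℝ} {g : (ℕ →*₀ ℂ) → ℂ} (hg : IsDP2 S Q B g) (z : ℂ) :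
    Continuous fun w => g (nX z w) := by
  obtain ⟨F, c, -, -, h⟩ := hg
  have h1 : (fun w => g (nX z w)) =
      fun w => ∑ q ∈ F, (c q : ℂ) * nX z w q.1 * conj (nX z w q.2) := by
    funext w
    exact h _
  rw [h1]
  exact continuous_finsetSum _ fun q _ => (continuous_const.mul (continuous_nX z q.1)).mul
    (Complex.continuous_conj.comp (continuous_nX z q.2))

theorem continuous_dp2_line {S : Set ℕ} {Q B : ℝ} {g : (ℕ →*₀ ℂ) → ℂ} (hg : IsDP2 S Q B g) :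
    Continuous fun t : ℝ => g (nC (1 / 2 + t * I)) := by
  obtain ⟨F, c, -, -, h⟩ := hg
  have hc : ∀ n : ℕ, Continuous fun t : ℝ => nC (1 / 2 + t * I) n := by
    intro n
    rcases eq_or_ne n 0 with rfl | hn
    · simp only [map_zero]
      exact continuous_const
    · have h1 : (fun t : ℝ => nC (1 / 2 + t * I) n) = fun t : ℝ => (n : ℂ) ^ (-(1 / 2 + t * I)) := by
        funext t
        exact nC_apply _ hn
      rw [h1]
      refine Continuous.const_cpow ?_ (Or.inl (Nat.cast_ne_zero.mpr hn))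
      exact (continuous_const.add (Complex.continuous_ofReal.mul continuous_const)).neg
  have h1 : (fun t : ℝ => g (nC (1 / 2 + t * I))) =
      fun t : ℝ => ∑ q ∈ F, (c q : ℂ) * nC (1 / 2 + t * I) q.1 * conj (nC (1 / 2 + t * I) q.2) := by
    funext t
    exact h _
  rw [h1]
  exact continuous_finsetSum _ fun q _ => (continuous_const.mul (hc q.1)).mul
    (Complex.continuous_conj.comp (hc q.2))

end Pool.Agent.UH
end

section

/-! TASK E2. The pointwise inequality for one block: for `0 < lam < 1` and `N ≥ N0(lam)`, for ALL real `x`,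
`ExR l' (-(1-lam) x) ^ lam * ExR l (lam x) ^ (1-lam) ≥ 1 - (5/6)^{4 cc(lam) N}`, `l' = lm lam N = 2⌈(1-lam)N/2⌉`, `l = lp lam N = 2⌈lam N/2⌉`.
Let `g = min lam (1-lam) = 4 cc lam`; `l' ≥ (1-lam) N ≥ g N`, `l ≥ lam N ≥ g N`, both even. Note `0 < ExR` everywhere (`exR_pos`).
* `0 ≤ x ≤ N/2`: `ExR l' (-(1-lam)x) ≥ exp(-(1-lam)x)` (`exR_neg`), and `lam x ≤ lam N/2 ≤ l/2`, so `ExR l (lam x) ≥ exp(lam x)(1 - (5/6)^l)` (`exR_lower`).
  The product is `≥ exp(-(1-lam) lam x + lam (1-lam) x) (1-(5/6)^l)^{1-lam} ≥ 1 - (5/6)^l ≥ 1 - (5/6)^{gN}` (`t^{1-lam} ≥ t` for `0 ≤ t ≤ 1`).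
* `-N/2 ≤ x ≤ 0`: the same with the roles exchanged: `-(1-lam)x = (1-lam)|x| ≤ l'/2`.
* `x ≥ N/2`: `ExR l' (-(1-lam)x) ≥ exp(-(2/5) l' - 1)` (`exR_neg2`, `l' ≥ 6` for `N ≥ 6/g`), `l' ≤ (1-lam)N + 2`; and `ExR l (lam x) ≥ ExR l (lam N/2) ≥ exp(lam N/2)(1-(5/6)^l) ≥ exp(lam N/2)/2`
  (`ExR` is increasing on `[0,∞)`; `(5/6)^l ≤ 1/2` for `l ≥ 6`: `(5/6)^6 = 0.335`). Product: `≥ exp(lam(-(2/5)((1-lam)N+2) - 1) + (1-lam) lam N/2 - log 2) ≥ exp(lam(1-lam)N/10 - 3) ≥ 1` for `N ≥ 30/(lam(1-lam))`.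
* `x ≤ -N/2`: `ExR l' ((1-lam)|x|) ≥ exp((1-lam)N/2)/2`, `ExR l (-lam|x|) ≥ exp(-(2/5) l - 1)`, `l ≤ lam N + 2`: product
  `≥ exp(lam((1-lam)N/2 - log 2) + (1-lam)(-(2/5)(lam N + 2) - 1)) ≥ exp(lam(1-lam)N/10 - 3) ≥ 1`. -/

set_option autoImplicit false

namespace Pool.Agent.UH

open Complex MeasureTheory Finset Pool.Agent.GH
open scoped Real ComplexConjugate

theorem even_lm (lam : ℝ) (N : ℕ) : Even (lm lam N) := even_two_mul _

theorem even_lp (lam : ℝ) (N : ℕ) : Even (lp lam N) := even_two_mul _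

private theorem E2_ceil {y : ℝ} (hy : 0 ≤ y) :
    2 * y ≤ ((2 * ⌈y⌉₊ : ℕ) : ℝ) ∧ ((2 * ⌈y⌉₊ : ℕ) : ℝ) ≤ 2 * y + 2 := by
  have h1 := Nat.le_ceil y
  have h2 := Nat.ceil_lt_add_one hy
  push_cast
  constructor <;> linarith

private theorem E2_lm {lam : ℝ} (h1 : lam < 1) (N : ℕ) :
    (1 - lam) * N ≤ (lm lam N : ℝ) ∧ (lm lam N : ℝ) ≤ (1 - lam) * N + 2 := by
  have hN : (0 : ℝ) ≤ N := Nat.cast_nonneg N
  have h := E2_ceil (y := (1 - lam) * N / 2) (by
    have : 0 ≤ (1 - lam) * N := mul_nonneg (by linarith) hN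
    linarith)
  unfold lm
  constructor
  · linarith [h.1]
  · linarith [h.2]

private theorem E2_lp {lam : ℝ} (h0 : 0 < lam) (N : ℕ) :
    lam * N ≤ (lp lam N : ℝ) ∧ (lp lam N : ℝ) ≤ lam * N + 2 := by
  have hN : (0 : ℝ) ≤ N := Nat.cast_nonneg N
  have h := E2_ceil (y := lam * N / 2) (by
    have : 0 ≤ lam * N := mul_nonneg (by linarith) hN
    linarith)
  unfold lp
  constructor
  · linarith [h.1]
  · linarith [h.2]

private theorem E2_cc1 (lam : ℝ) : 4 * cc lam ≤ lam := by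
  unfold cc
  have := min_le_left lam (1 - lam)
  linarith

private theorem E2_cc2 (lam : ℝ) : 4 * cc lam ≤ 1 - lam := by
  unfold cc
  have := min_le_right lam (1 - lam)
  linarith

/-- The lengths lie between `4 cc lam N` and `N` (if `N` is large enough). -/
theorem lm_bounds {lam : ℝ} (h0 : 0 < lam) (h1 : lam < 1) {N : ℕ} (hN : 2 ≤ lam * N) :
    4 * cc lam * N ≤ lm lam N ∧ lm lam N ≤ N := by
  have hN0 : (0 : ℝ) ≤ N := Nat.cast_nonneg N
  have h := E2_lm h1 N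
  constructor
  · exact (mul_le_mul_of_nonneg_right (E2_cc2 lam) hN0).trans h.1
  · have h2 : (lm lam N : ℝ) ≤ N := by linarith [h.2]
    exact_mod_cast h2

theorem lp_bounds {lam : ℝ} (h0 : 0 < lam) (h1 : lam < 1) {N : ℕ} (hN : 2 ≤ (1 - lam) * N) :
    4 * cc lam * N ≤ lp lam N ∧ lp lam N ≤ N := by
  have hN0 : (0 : ℝ) ≤ N := Nat.cast_nonneg N
  have h := E2_lp h0 N
  constructor
  · exact (mul_le_mul_of_nonneg_right (E2_cc1 lam) hN0).trans h.1
  · have h2 : (lp lam N : ℝ) ≤ N := by linarith [h.2]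
    exact_mod_cast h2

private theorem E2_pow6 {q : ℕ} (hq : 6 ≤ q) : (5 / 6 : ℝ) ^ q ≤ 1 / 2 := by
  calc (5 / 6 : ℝ) ^ q ≤ (5 / 6 : ℝ) ^ 6 := pow_le_pow_of_le_one (by norm_num) (by norm_num) hq
    _ ≤ 1 / 2 := by norm_num

private theorem E2_mono (l : ℕ) {x y : ℝ} (hx : 0 ≤ x) (hxy : x ≤ y) : ExR l x ≤ ExR l y := by
  unfold ExR
  refine Finset.sum_le_sum fun i _ => ?_
  exact div_le_div_of_nonneg_right (pow_le_pow_left₀ hx hxy i) (Nat.cast_nonneg _)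

private theorem E2_half {a b N : ℝ} (ha : 0 < a) (hb : 0 < b) (hab : a + b = 1) (hN : 30 ≤ a * b * N)
    {p q : ℕ} (hp : Even p) (hp1 : b * N ≤ p) (hp2 : (p : ℝ) ≤ b * N + 2)
    (hq1 : a * N ≤ q) {g : ℝ} (hg : g ≤ a) {x : ℝ} (hx : 0 ≤ x) :
    1 - (5 / 6 : ℝ) ^ (g * N) ≤ ExR p (-(b * x)) ^ a * ExR q (a * x) ^ b := by
  have hab0 : 0 < a * b := mul_pos ha hb
  have hN0 : 0 < N := by
    by_contra h
    have h1 : a * b * N ≤ 0 := mul_nonpos_of_nonneg_of_nonpos hab0.le (not_lt.1 h)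
    linarith
  have haN : 30 ≤ a * N := by
    have h1 : a * b * N ≤ a * N := by
      have h2 : a * N * b ≤ a * N * 1 := mul_le_mul_of_nonneg_left (by linarith) (mul_pos ha hN0).le
      linarith
    linarith
  have hbN : 30 ≤ b * N := by
    have h1 : a * b * N ≤ b * N := by
      have h2 : b * N * a ≤ b * N * 1 := mul_le_mul_of_nonneg_left (by linarith) (mul_pos hb hN0).le
      linarith
    linarith
  have hp6 : 6 ≤ p := by
    have : (6 : ℝ) ≤ p := by linarith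
    exact_mod_cast this
  have hq6 : 6 ≤ q := by
    have : (6 : ℝ) ≤ q := by linarith
    exact_mod_cast this
  have hqpow : (5 / 6 : ℝ) ^ q ≤ 1 / 2 := E2_pow6 hq6
  have hqpos : 0 < (5 / 6 : ℝ) ^ q := pow_pos (by norm_num) _
  have hbx : 0 ≤ b * x := mul_nonneg hb.le hx
  have hax : 0 ≤ a * x := mul_nonneg ha.le hx
  rcases le_total x (N / 2) with hxN | hxN
  · have e1 : Real.exp (-(b * x)) ≤ ExR p (-(b * x)) := exR_neg hp hbx
    have e2 : Real.exp (a * x) * (1 - (5 / 6 : ℝ) ^ q) ≤ ExR q (a * x) := by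
      refine exR_lower q hax ?_
      have : a * x ≤ a * (N / 2) := mul_le_mul_of_nonneg_left hxN ha.le
      linarith
    have ht0 : 0 < 1 - (5 / 6 : ℝ) ^ q := by linarith
    have ht1 : 1 - (5 / 6 : ℝ) ^ q ≤ 1 := by linarith
    have e3 : Real.exp (-(b * x)) ^ a * (Real.exp (a * x) * (1 - (5 / 6 : ℝ) ^ q)) ^ b ≤
        ExR p (-(b * x)) ^ a * ExR q (a * x) ^ b := by
      refine mul_le_mul (Real.rpow_le_rpow (Real.exp_pos _).le e1 ha.le)
        (Real.rpow_le_rpow (mul_pos (Real.exp_pos _) ht0).le e2 hb.le)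
        (Real.rpow_nonneg (mul_pos (Real.exp_pos _) ht0).le _)
        (Real.rpow_nonneg ((Real.exp_pos _).le.trans e1) _)
    have e4 : Real.exp (-(b * x)) ^ a * (Real.exp (a * x) * (1 - (5 / 6 : ℝ) ^ q)) ^ b =
        (1 - (5 / 6 : ℝ) ^ q) ^ b := by
      rw [Real.mul_rpow (Real.exp_pos _).le ht0.le, ← Real.exp_mul, ← Real.exp_mul, ← mul_assoc, ← Real.exp_add]
      have : -(b * x) * a + a * x * b = 0 := by ring
      rw [this, Real.exp_zero, one_mul]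
    have e5 : 1 - (5 / 6 : ℝ) ^ q ≤ (1 - (5 / 6 : ℝ) ^ q) ^ b := by
      calc 1 - (5 / 6 : ℝ) ^ q = (1 - (5 / 6 : ℝ) ^ q) ^ (1 : ℝ) := (Real.rpow_one _).symm
        _ ≤ (1 - (5 / 6 : ℝ) ^ q) ^ b := Real.rpow_le_rpow_of_exponent_ge ht0 ht1 (by linarith)
    have e6 : (5 / 6 : ℝ) ^ q ≤ (5 / 6 : ℝ) ^ (g * N) := by
      rw [← Real.rpow_natCast]
      refine Real.rpow_le_rpow_of_exponent_ge (by norm_num) (by norm_num) ?_
      exact (mul_le_mul_of_nonneg_right hg hN0.le).trans hq1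
    linarith
  · have e1 : Real.exp (-(2 / 5) * (b * N + 2) - 1) ≤ ExR p (-(b * x)) := by
      refine le_trans (Real.exp_le_exp.2 ?_) (exR_neg2 hp hp6 hbx)
      linarith
    have e2 : Real.exp (a * N / 2 - 1) ≤ ExR q (a * x) := by
      have h1 : ExR q (a * N / 2) ≤ ExR q (a * x) := by
        refine E2_mono q (by linarith) ?_
        have : a * (N / 2) ≤ a * x := mul_le_mul_of_nonneg_left hxN ha.le
        linarith
      have h2 : Real.exp (a * N / 2) * (1 - (5 / 6 : ℝ) ^ q) ≤ ExR q (a * N / 2) :=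
        exR_lower q (by linarith) (by linarith)
      have h3 : Real.exp (a * N / 2 - 1) ≤ Real.exp (a * N / 2) * (1 - (5 / 6 : ℝ) ^ q) := by
        rw [Real.exp_sub, div_eq_mul_inv]
        refine mul_le_mul_of_nonneg_left ?_ (Real.exp_pos _).le
        have h4 : (2 : ℝ) ≤ Real.exp 1 := by
          have := Real.add_one_le_exp (1 : ℝ)
          linarith
        have h5 : (Real.exp 1)⁻¹ ≤ 2⁻¹ := inv_anti₀ (by norm_num) h4
        have h6 : (2 : ℝ)⁻¹ = 1 / 2 := by norm_num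
        linarith
      linarith
    have e3 : Real.exp (-(2 / 5) * (b * N + 2) - 1) ^ a * Real.exp (a * N / 2 - 1) ^ b ≤
        ExR p (-(b * x)) ^ a * ExR q (a * x) ^ b :=
      mul_le_mul (Real.rpow_le_rpow (Real.exp_pos _).le e1 ha.le)
        (Real.rpow_le_rpow (Real.exp_pos _).le e2 hb.le)
        (Real.rpow_nonneg (Real.exp_pos _).le _)
        (Real.rpow_nonneg ((Real.exp_pos _).le.trans e1) _)
    have e4 : 1 ≤ Real.exp (-(2 / 5) * (b * N + 2) - 1) ^ a * Real.exp (a * N / 2 - 1) ^ b := by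
      rw [← Real.exp_mul, ← Real.exp_mul, ← Real.exp_add]
      refine Real.one_le_exp ?_
      have h1 : (-(2 / 5) * (b * N + 2) - 1) * a + (a * N / 2 - 1) * b = a * b * N / 10 - 9 / 5 * a - b := by ring
      rw [h1]
      have ha1 : a ≤ 1 := by linarith
      have hb1 : b ≤ 1 := by linarith
      linarith
    have e5 : 0 < (5 / 6 : ℝ) ^ (g * N) := Real.rpow_pos_of_pos (by norm_num) _
    linarith

theorem pointwise (lam : ℝ) (h0 : 0 < lam) (h1 : lam < 1) : ∃ N0 : ℕ, ∀ N : ℕ, N0 ≤ N → ∀ x : ℝ,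
    1 - (5 / 6 : ℝ) ^ (4 * cc lam * N) ≤
      ExR (lm lam N) ((lam - 1) * x) ^ lam * ExR (lp lam N) (lam * x) ^ (1 - lam) := by
  obtain ⟨N0, hN0⟩ := exists_nat_ge (30 / (lam * (1 - lam)))
  have hb : 0 < 1 - lam := by linarith
  have hab : 0 < lam * (1 - lam) := mul_pos h0 hb
  refine ⟨N0, fun N hN x => ?_⟩
  have hN' : 30 ≤ lam * (1 - lam) * (N : ℝ) := by
    have h2 : 30 / (lam * (1 - lam)) ≤ (N : ℝ) := hN0.trans (by exact_mod_cast hN)
    rw [div_le_iff₀ hab] at h2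
    linarith
  have hlm := E2_lm h1 N
  have hlp := E2_lp h0 N
  rcases le_total 0 x with hx | hx
  · have h2 := E2_half h0 hb (by ring) hN' (even_lm lam N) hlm.1 hlm.2 hlp.1 (E2_cc1 lam) hx
    have e1 : (lam - 1) * x = -((1 - lam) * x) := by ring
    rw [e1]
    exact h2
  · have h2 := E2_half hb h0 (by ring) (by linarith : 30 ≤ (1 - lam) * lam * (N : ℝ)) (even_lp lam N) hlp.1 hlp.2
      hlm.1 (E2_cc2 lam) (neg_nonneg.2 hx)
    have e1 : (lam - 1) * x = (1 - lam) * -x := by ring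
    have e2 : lam * x = -(lam * -x) := by ring
    rw [e1, e2, mul_comm (ExR (lm lam N) ((1 - lam) * -x) ^ lam)]
    exact h2

end Pool.Agent.UH
end
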