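import Pool.Agent.Lib.MP_69b2e4_nt.Mg.G003
import Pool.Agent.Lib.MP_69b2e4_nt.Mg.G040
import Pool.Agent.Lib.MP_69b2e4_nt.Mg.G001

section

/-! TASK R4. The expectation with the whole weight. Let `R_j`, `j ≤ J`, be the blocks and `R_{J+1} := primesBelow (M1 T) \ S.P` the remaining primes; these sets are pairwise disjoint with union `primesBelow (M1 T)` (`BGood.prime`, `BGood.disj`).
The integrand is the product over `i ≤ J+1` of `f_i(w)`, `f_j = ‖Zt (R j) (1/2) w‖² ∏_{p∈R j} ‖1-b_pX_p‖² ExR (l' j) (al Re PX (R j) 0 w)²` (`PS (R j) (nX 0 w) = PX (R j) 0 w` by definition), and without the last factor for `i = J+1`;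
each depends only on `w p`, `p ∈ R_i` (`depends_PX`, `depends_Zt` of GH/Part.lean). `indep_blocks` (GH/Indep.lean): the expectation is the product of the `E f_i`. `block_b` for `i ≤ J`, `main_block` with `al = 0` for `i = J+1`.
Product of the bounds: `exp(∑_{p∈P} ... + ∑_{others} ... + C₀ ∑_{p<M1} p^{-2}) ∏_{j≤J} (1 + 2^{-l'_j} exp(C₀(s_j+1)))`; `∑_p p^{-2} ≤ 2`, and `∏ (1+t_j) ≤ exp(∑ t_j)`, `∑_j 2^{-l'_j} exp(C₀(s_j+1)) ≤ ∑_j 2^{-cc l_j} exp(C(s_j+1)) ≤ 1` (`BGood.trunc`, `C ≥ C₀`,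
`l'_j ≥ cc lam l_j`). So the constant is `exp(2 C₀ + 1)`. -/

set_option autoImplicit false

namespace Pool.Agent.UH

open Complex MeasureTheory Finset Pool.Agent.GH
open scoped Real ComplexConjugate

theorem full_b : ∃ C0 K : ℝ, 0 ≤ C0 ∧ 1 ≤ K ∧ ∀ {S : BS} {lam C D : ℝ} {N0 : ℕ}, C0 ≤ C →
    BGood S lam C N0 D → ∀ (b : ℕ → ℂ) (al : ℝ) (l' : ℕ → ℕ),
    (∀ p ∈ Nat.primesBelow (M1 S.T), ‖b p‖ ≤ (p : ℝ) ^ (-(1 / 2) : ℝ)) → |al| ≤ 1 →
    (∀ j ≤ S.J, cc lam * S.l j ≤ l' j) →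
    ∫ w, ‖Zt (Nat.primesBelow (M1 S.T)) (1 / 2) w‖ ^ 2 *
      (∏ p ∈ Nat.primesBelow (M1 S.T), ‖1 - b p * X p w‖ ^ 2) * S.W al l' (nX 0 w) ^ 2 ∂mu ≤
    K * Real.exp ((∑ p ∈ S.P, ‖((((1 + al) * (p : ℝ) ^ (-(1 / 2) : ℝ) : ℝ)) : ℂ) - b p‖ ^ 2) +
      ∑ p ∈ Nat.primesBelow (M1 S.T) \ S.P, ‖((((p : ℝ) ^ (-(1 / 2) : ℝ) : ℝ)) : ℂ) - b p‖ ^ 2) := by
  classical
  obtain ⟨Cm, hCm0, hCm⟩ := main_block
  obtain ⟨Cb, hCb0, hCb⟩ := block_b
  have hC00 : 0 ≤ max Cm Cb := hCm0.trans (le_max_left _ _)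
  refine ⟨max Cm Cb, Real.exp (2 * max Cm Cb + 1), hC00, ?_, ?_⟩
  · exact Real.one_le_exp (by linarith)
  intro S lam C D N0 hC hB b al l' hb hal hl'
  set C0 : ℝ := max Cm Cb with hC0
  have hCmC : Cm ≤ C0 := le_max_left _ _
  have hCbC : Cb ≤ C0 := le_max_right _ _
  obtain ⟨rest, hrest⟩ : ∃ rest, rest = Nat.primesBelow (M1 S.T) \ S.P := ⟨_, rfl⟩
  rw [← hrest]
  have hRp : ∀ j ∈ range (S.J + 1), ∀ p ∈ S.R j, p ∈ Nat.primesBelow (M1 S.T) := by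
    intro j hj p hp
    have h1 := hB.prime j (by rw [Finset.mem_range] at hj; omega) p hp
    exact Nat.mem_primesBelow.2 ⟨h1.2.1, h1.1⟩
  have hrp : ∀ p ∈ rest, p ∈ Nat.primesBelow (M1 S.T) := by
    intro p hp
    rw [hrest] at hp
    exact (Finset.mem_sdiff.1 hp).1
  have hPsub : S.P ⊆ Nat.primesBelow (M1 S.T) := by
    intro p hp
    obtain ⟨j, hj, hpj⟩ := Finset.mem_biUnion.1 hp
    exact hRp j hj p hpj
  have hPrest : Disjoint S.P rest := by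
    rw [hrest]
    exact Finset.disjoint_sdiff
  have hun : Nat.primesBelow (M1 S.T) = S.P ∪ rest := by
    rw [hrest, Finset.union_sdiff_of_subset hPsub]
  have hPD : (↑(range (S.J + 1)) : Set ℕ).PairwiseDisjoint S.R := by
    intro i hi j hj hij
    have hi' := Finset.mem_range.1 (Finset.mem_coe.1 hi)
    have hj' := Finset.mem_range.1 (Finset.mem_coe.1 hj)
    exact hB.disj i (by omega) j (by omega) hij
  have hsumP : ∀ f : ℕ → ℝ, ∑ p ∈ S.P, f p = ∑ j ∈ range (S.J + 1), ∑ p ∈ S.R j, f p := by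
    intro f
    unfold BS.P
    exact Finset.sum_biUnion hPD
  have hprodR : ∀ f : ℕ → ℝ, ∏ p ∈ Nat.primesBelow (M1 S.T), f p =
      (∏ j ∈ range (S.J + 1), ∏ p ∈ S.R j, f p) * ∏ p ∈ rest, f p := by
    intro f
    rw [hun, Finset.prod_union hPrest]
    unfold BS.P
    rw [Finset.prod_biUnion hPD]
  have hprodC : ∀ f : ℕ → ℂ, ∏ p ∈ Nat.primesBelow (M1 S.T), f p =
      (∏ j ∈ range (S.J + 1), ∏ p ∈ S.R j, f p) * ∏ p ∈ rest, f p := by
    intro f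
    rw [hun, Finset.prod_union hPrest]
    unfold BS.P
    rw [Finset.prod_biUnion hPD]
  have hprime : ∀ p ∈ Nat.primesBelow (M1 S.T), p.Prime := fun p hp => (Nat.mem_primesBelow.1 hp).2
  -- the factors
  obtain ⟨g, hg⟩ : ∃ g : ℕ → Om → ℝ, ∀ j w, g j w = ‖Zt (S.R j) (1 / 2) w‖ ^ 2 *
      (∏ p ∈ S.R j, ‖1 - b p * X p w‖ ^ 2) * ExR (l' j) (al * (PX (S.R j) 0 w).re) ^ 2 :=
    ⟨_, fun _ _ => rfl⟩
  obtain ⟨gf, hgf⟩ : ∃ gf : Om → ℝ, ∀ w, gf w = ‖Zt rest (1 / 2) w‖ ^ 2 *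
      ∏ p ∈ rest, ‖1 - b p * X p w‖ ^ 2 := ⟨_, fun _ => rfl⟩
  obtain ⟨F, hF⟩ : ∃ F : ℕ → Om → ℝ, ∀ i, F i = if i < S.J + 1 then g i else gf := ⟨_, fun _ => rfl⟩
  obtain ⟨Q, hQ⟩ : ∃ Q : ℕ → Finset ℕ, ∀ i, Q i = if i < S.J + 1 then S.R i else rest :=
    ⟨_, fun _ => rfl⟩
  have hint : ∀ w, ‖Zt (Nat.primesBelow (M1 S.T)) (1 / 2) w‖ ^ 2 *
      (∏ p ∈ Nat.primesBelow (M1 S.T), ‖1 - b p * X p w‖ ^ 2) * S.W al l' (nX 0 w) ^ 2 =
      ∏ i ∈ range (S.J + 2), F i w := by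
    intro w
    rw [Finset.prod_range_succ, hF (S.J + 1), if_neg (lt_irrefl _)]
    have h1 : ∏ i ∈ range (S.J + 1), F i w = ∏ i ∈ range (S.J + 1), g i w := by
      refine Finset.prod_congr rfl fun i hi => ?_
      rw [hF i, if_pos (Finset.mem_range.1 hi)]
    rw [h1]
    have h2 : Zt (Nat.primesBelow (M1 S.T)) (1 / 2) w =
        (∏ j ∈ range (S.J + 1), Zt (S.R j) (1 / 2) w) * Zt rest (1 / 2) w := by
      unfold Zt
      exact hprodC _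
    have h3 : ∏ i ∈ range (S.J + 1), g i w = (∏ i ∈ range (S.J + 1), ‖Zt (S.R i) (1 / 2) w‖ ^ 2) *
        (∏ i ∈ range (S.J + 1), ∏ p ∈ S.R i, ‖1 - b p * X p w‖ ^ 2) *
        ∏ i ∈ range (S.J + 1), ExR (l' i) (al * (PX (S.R i) 0 w).re) ^ 2 := by
      rw [← Finset.prod_mul_distrib, ← Finset.prod_mul_distrib]
      exact Finset.prod_congr rfl fun i _ => hg i w
    have h4 : S.W al l' (nX 0 w) ^ 2 =
        ∏ i ∈ range (S.J + 1), ExR (l' i) (al * (PX (S.R i) 0 w).re) ^ 2 := by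
      unfold BS.W PX
      rw [Finset.prod_pow]
    have h5 : (∏ i ∈ range (S.J + 1), ‖Zt (S.R i) (1 / 2) w‖) ^ 2 =
        ∏ i ∈ range (S.J + 1), ‖Zt (S.R i) (1 / 2) w‖ ^ 2 := (Finset.prod_pow _ _ _).symm
    rw [h2, hprodR, h3, h4, norm_mul, norm_prod, mul_pow, hgf, h5]
    ring
  -- continuity
  have hcX : ∀ R : Finset ℕ, Continuous fun w => ∏ p ∈ R, ‖1 - b p * X p w‖ ^ 2 := by
    intro R
    refine continuous_finsetProd _ fun p _ => ?_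
    have := continuous_X p
    fun_prop
  have hcE : ∀ l : ℕ, Continuous (ExR l) := by
    intro l
    unfold ExR
    fun_prop
  have hcg : ∀ j ∈ range (S.J + 1), Continuous (g j) := by
    intro j hj
    have e : g j = fun w => ‖Zt (S.R j) (1 / 2) w‖ ^ 2 *
      (∏ p ∈ S.R j, ‖1 - b p * X p w‖ ^ 2) * ExR (l' j) (al * (PX (S.R j) 0 w).re) ^ 2 := funext (hg j)
    rw [e]
    have h1 : Continuous (Zt (S.R j) (1 / 2)) :=
      continuous_Zt (S.R j) (fun p hp => hprime p (hRp j hj p hp)) (by norm_num)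
    have h2 : Continuous fun w => ExR (l' j) (al * (PX (S.R j) 0 w).re) :=
      (hcE (l' j)).comp (continuous_const.mul (Complex.continuous_re.comp (continuous_PX (S.R j) 0)))
    exact ((h1.norm.pow 2).mul (hcX _)).mul (h2.pow 2)
  have hcgf : Continuous gf := by
    have e : gf = fun w => ‖Zt rest (1 / 2) w‖ ^ 2 * ∏ p ∈ rest, ‖1 - b p * X p w‖ ^ 2 := funext hgf
    rw [e]
    have h1 : Continuous (Zt rest (1 / 2)) :=
      continuous_Zt rest (fun p hp => hprime p (hrp p hp)) (by norm_num)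
    exact (h1.norm.pow 2).mul (hcX _)
  -- independence
  have hind : ∫ w, ∏ i ∈ range (S.J + 2), F i w ∂mu = ∏ i ∈ range (S.J + 2), ∫ w, F i w ∂mu := by
    refine indep_blocks (range (S.J + 2)) Q ?_ F ?_ ?_
    · intro i hi j hj hij
      have hi' := Finset.mem_range.1 hi
      have hj' := Finset.mem_range.1 hj
      have hd : ∀ i, i < S.J + 1 → Disjoint (S.R i) rest := fun i hi =>
        Finset.disjoint_of_subset_left (Finset.subset_biUnion_of_mem S.R (Finset.mem_range.2 hi)) hPrest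
      rw [hQ i, hQ j]
      by_cases h1 : i < S.J + 1
      · by_cases h2 : j < S.J + 1
        · rw [if_pos h1, if_pos h2]
          exact hB.disj i (by omega) j (by omega) hij
        · rw [if_pos h1, if_neg h2]
          exact hd i h1
      · by_cases h2 : j < S.J + 1
        · rw [if_neg h1, if_pos h2]
          exact (hd j h2).symm
        · exact absurd (by omega) hij
    · intro i hi
      rw [hF i]
      by_cases h1 : i < S.J + 1
      · rw [if_pos h1]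
        exact (hcg i (Finset.mem_range.2 h1)).measurable
      · rw [if_neg h1]
        exact hcgf.measurable
    · intro i hi w w' hww
      rw [hQ i] at hww
      rw [hF i]
      have hXd : ∀ R : Finset ℕ, (∀ p ∈ R, w p = w' p) →
          ∏ p ∈ R, ‖1 - b p * X p w‖ ^ 2 = ∏ p ∈ R, ‖1 - b p * X p w'‖ ^ 2 := by
        intro R hR
        refine Finset.prod_congr rfl fun p hp => ?_
        unfold X
        rw [hR p hp]
      by_cases h1 : i < S.J + 1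
      · rw [if_pos h1] at hww ⊢
        rw [hg, hg, hXd _ hww, depends_Zt (1 / 2) hww,
          depends_PX (fun p hp => hprime p (hRp i (Finset.mem_range.2 h1) p hp)) 0 hww]
      · rw [if_neg h1] at hww ⊢
        rw [hgf, hgf, hXd _ hww, depends_Zt (1 / 2) hww]
  simp_rw [hint]
  rw [hind, Finset.prod_range_succ, hF (S.J + 1), if_neg (lt_irrefl _)]
  have hgnn : ∀ j w, 0 ≤ g j w := by
    intro j w
    rw [hg]
    positivity
  have hgfnn : ∀ w, 0 ≤ gf w := by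
    intro w
    rw [hgf]
    positivity
  -- the bounds
  obtain ⟨t, ht⟩ : ∃ t : ℕ → ℝ, ∀ j, t j =
      (2 : ℝ)⁻¹ ^ (cc lam * S.l j) * Real.exp (C * (sR (S.R j) + 1)) := ⟨_, fun _ => rfl⟩
  have ht0 : ∀ j, 0 ≤ t j := by
    intro j
    rw [ht]
    positivity
  have hb1 : ∀ j ∈ range (S.J + 1), ∫ w, g j w ∂mu ≤
      Real.exp (∑ p ∈ S.R j, ‖((((1 + al) * (p : ℝ) ^ (-(1 / 2) : ℝ) : ℝ)) : ℂ) - b p‖ ^ 2 +
        C0 * ∑ p ∈ S.R j, (p : ℝ) ^ (-2 : ℝ)) * (1 + t j) := by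
    intro j hj
    have hj' : j ≤ S.J := by
      rw [Finset.mem_range] at hj
      omega
    have h1 := hCb (S.R j) b al (l' j) (fun p hp => hprime p (hRp j hj p hp))
      (fun p hp => hb p (hRp j hj p hp)) hal
    simp_rw [hg]
    refine h1.trans ?_
    have hp2 : 0 ≤ ∑ p ∈ S.R j, (p : ℝ) ^ (-2 : ℝ) := Finset.sum_nonneg fun p _ => by positivity
    have hsR : 0 ≤ sR (S.R j) := by
      unfold sR
      exact Finset.sum_nonneg fun p _ => by positivity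
    refine mul_le_mul ?_ ?_ (by positivity) (by positivity)
    · refine Real.exp_le_exp.2 ?_
      have := mul_le_mul_of_nonneg_right hCbC hp2
      linarith
    · have h2 : (2 : ℝ)⁻¹ ^ (l' j) ≤ (2 : ℝ)⁻¹ ^ (cc lam * S.l j) := by
        rw [← Real.rpow_natCast]
        exact Real.rpow_le_rpow_of_exponent_ge (by norm_num) (by norm_num) (hl' j hj')
      have h3 : Real.exp (Cb * (sR (S.R j) + 1)) ≤ Real.exp (C * (sR (S.R j) + 1)) :=
        Real.exp_le_exp.2 (mul_le_mul_of_nonneg_right (hCbC.trans hC) (by linarith))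
      have h4 := mul_le_mul h2 h3 (Real.exp_pos _).le (by positivity)
      rw [ht]
      linarith
  have hb2 : ∫ w, gf w ∂mu ≤
      Real.exp (∑ p ∈ rest, ‖((((p : ℝ) ^ (-(1 / 2) : ℝ) : ℝ)) : ℂ) - b p‖ ^ 2 +
        C0 * ∑ p ∈ rest, (p : ℝ) ^ (-2 : ℝ)) := by
    have h1 := hCm rest b 0 (fun p hp => hprime p (hrp p hp)) (fun p hp => hb p (hrp p hp))
      (by norm_num)
    have h2 : ∀ w, gf w = ‖Zt rest (1 / 2) w‖ ^ 2 * (∏ p ∈ rest, ‖1 - b p * X p w‖ ^ 2) *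
        Real.exp (2 * (0 * (PX rest 0 w).re)) := by
      intro w
      rw [hgf, zero_mul, mul_zero, Real.exp_zero, mul_one]
    simp_rw [h2]
    refine h1.trans ?_
    have hp2 : 0 ≤ ∑ p ∈ rest, (p : ℝ) ^ (-2 : ℝ) := Finset.sum_nonneg fun p _ => by positivity
    refine Real.exp_le_exp.2 ?_
    have h3 := mul_le_mul_of_nonneg_right hCmC hp2
    have h4 : ∑ p ∈ rest, ‖((((1 + 0) * (p : ℝ) ^ (-(1 / 2) : ℝ) : ℝ)) : ℂ) - b p‖ ^ 2 =
        ∑ p ∈ rest, ‖((((p : ℝ) ^ (-(1 / 2) : ℝ) : ℝ)) : ℂ) - b p‖ ^ 2 := by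
      refine Finset.sum_congr rfl fun p _ => ?_
      rw [add_zero, one_mul]
    rw [h4]
    linarith
  have hb3 : ∏ i ∈ range (S.J + 1), ∫ w, F i w ∂mu ≤
      ∏ j ∈ range (S.J + 1), (Real.exp (∑ p ∈ S.R j,
        ‖((((1 + al) * (p : ℝ) ^ (-(1 / 2) : ℝ) : ℝ)) : ℂ) - b p‖ ^ 2 +
        C0 * ∑ p ∈ S.R j, (p : ℝ) ^ (-2 : ℝ)) * (1 + t j)) := by
    refine Finset.prod_le_prod ?_ ?_
    · intro i hi
      rw [hF i, if_pos (Finset.mem_range.1 hi)]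
      exact integral_nonneg (hgnn i)
    · intro i hi
      rw [hF i, if_pos (Finset.mem_range.1 hi)]
      exact hb1 i hi
  have hb4 : ∏ j ∈ range (S.J + 1), (1 + t j) ≤ Real.exp 1 := by
    calc ∏ j ∈ range (S.J + 1), (1 + t j) ≤ ∏ j ∈ range (S.J + 1), Real.exp (t j) := by
          refine Finset.prod_le_prod (fun j _ => by have := ht0 j; linarith) fun j _ => ?_
          have := Real.add_one_le_exp (t j)
          linarith
      _ = Real.exp (∑ j ∈ range (S.J + 1), t j) := (Real.exp_sum _ _).symm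
      _ ≤ Real.exp 1 := by
          refine Real.exp_le_exp.2 ?_
          have h5 := hB.trunc
          simp_rw [ht]
          exact h5
  have hp2 : ∑ p ∈ Nat.primesBelow (M1 S.T), (p : ℝ) ^ (-2 : ℝ) ≤ 2 := by
    have h1 : Nat.primesBelow (M1 S.T) ⊆ Ioo 1 (M1 S.T) := by
      intro p hp
      have := Nat.mem_primesBelow.1 hp
      exact Finset.mem_Ioo.2 ⟨this.2.one_lt, this.1⟩
    calc ∑ p ∈ Nat.primesBelow (M1 S.T), (p : ℝ) ^ (-2 : ℝ)
        ≤ ∑ p ∈ Ioo 1 (M1 S.T), (p : ℝ) ^ (-2 : ℝ) :=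
          Finset.sum_le_sum_of_subset_of_nonneg h1 fun p _ _ => by positivity
      _ = ∑ p ∈ Ioo 1 (M1 S.T), ((p : ℝ) ^ 2)⁻¹ := by
          refine Finset.sum_congr rfl fun p _ => ?_
          rw [Real.rpow_neg (Nat.cast_nonneg p), ← Real.rpow_natCast]
          norm_num
      _ ≤ 2 / ((1 : ℕ) + 1) := sum_Ioo_inv_sq_le 1 (M1 S.T)
      _ ≤ 2 := by norm_num
  have hp2s : ∑ p ∈ Nat.primesBelow (M1 S.T), (p : ℝ) ^ (-2 : ℝ) =
      (∑ j ∈ range (S.J + 1), ∑ p ∈ S.R j, (p : ℝ) ^ (-2 : ℝ)) + ∑ p ∈ rest, (p : ℝ) ^ (-2 : ℝ) := by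
    rw [hun, Finset.sum_union hPrest, hsumP]
  rw [Finset.prod_mul_distrib, ← Real.exp_sum, Finset.sum_add_distrib, ← Finset.mul_sum] at hb3
  have hnn1 : 0 ≤ ∫ w, gf w ∂mu := integral_nonneg hgfnn
  calc (∏ i ∈ range (S.J + 1), ∫ w, F i w ∂mu) * ∫ w, gf w ∂mu
      ≤ (Real.exp ((∑ j ∈ range (S.J + 1), ∑ p ∈ S.R j,
          ‖((((1 + al) * (p : ℝ) ^ (-(1 / 2) : ℝ) : ℝ)) : ℂ) - b p‖ ^ 2) +
          C0 * ∑ j ∈ range (S.J + 1), ∑ p ∈ S.R j, (p : ℝ) ^ (-2 : ℝ)) * Real.exp 1) *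
        Real.exp (∑ p ∈ rest, ‖((((p : ℝ) ^ (-(1 / 2) : ℝ) : ℝ)) : ℂ) - b p‖ ^ 2 +
          C0 * ∑ p ∈ rest, (p : ℝ) ^ (-2 : ℝ)) := by
        refine mul_le_mul (hb3.trans ?_) hb2 hnn1 (by positivity)
        exact mul_le_mul_of_nonneg_left hb4 (Real.exp_pos _).le
    _ = Real.exp ((∑ j ∈ range (S.J + 1), ∑ p ∈ S.R j,
          ‖((((1 + al) * (p : ℝ) ^ (-(1 / 2) : ℝ) : ℝ)) : ℂ) - b p‖ ^ 2) +
          C0 * (∑ j ∈ range (S.J + 1), ∑ p ∈ S.R j, (p : ℝ) ^ (-2 : ℝ)) + 1 +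
          (∑ p ∈ rest, ‖((((p : ℝ) ^ (-(1 / 2) : ℝ) : ℝ)) : ℂ) - b p‖ ^ 2 +
          C0 * ∑ p ∈ rest, (p : ℝ) ^ (-2 : ℝ))) := by
        rw [← Real.exp_add, ← Real.exp_add]
    _ ≤ Real.exp (2 * C0 + 1 + ((∑ p ∈ S.P,
          ‖((((1 + al) * (p : ℝ) ^ (-(1 / 2) : ℝ) : ℝ)) : ℂ) - b p‖ ^ 2) +
          ∑ p ∈ rest, ‖((((p : ℝ) ^ (-(1 / 2) : ℝ) : ℝ)) : ℂ) - b p‖ ^ 2)) := by
        refine Real.exp_le_exp.2 ?_
        rw [hsumP]
        have h6 := mul_le_mul_of_nonneg_left hp2 hC00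
        rw [hp2s, mul_add] at h6
        linarith
    _ = Real.exp (2 * C0 + 1) * Real.exp ((∑ p ∈ S.P,
          ‖((((1 + al) * (p : ℝ) ^ (-(1 / 2) : ℝ) : ℝ)) : ℂ) - b p‖ ^ 2) +
          ∑ p ∈ rest, ‖((((p : ℝ) ^ (-(1 / 2) : ℝ) : ℝ)) : ℂ) - b p‖ ^ 2) := by
        rw [Real.exp_add]

end Pool.Agent.UH
end

section

/-! TASK R5. The expectations (a) and (c). `L = log T ≥ 1` (`BGood.T_ge`).
`sum_P`: the blocks are disjoint (`Finset.sum_biUnion`), so `∑_{p∈S.P} 1/p = ∑_j sR (R j) ≤ log L + D` (`BGood.inn`).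
`exp_a` (negative weight): `full_b` with `b = 0`, `al = lam - 1`, `l' = lm`: `‖(1+al)p^{-1/2}‖² = lam²/p`; exponent `≤ lam²(log L + D) + D` (`BGood.out`), so the expectation is at most `K e^{(lam²+1) D} L^{lam²}`. (The product over `‖1 - 0‖²` is 1.)
`exp_c` (positive weight): `full_b` with `b_p = p^{-1/2}`, `al = lam`, `l' = lp`: `‖Zt‖² ∏ ‖1-b_pX_p‖² = 1` (`Zt` is the product of `(1 - p^{-1/2} X_p)^{-1}`, factors nonzero: `Zt_factor_ne_zero`), exponent `∑_{p∈P} lam²/p + 0`.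
The lengths: `lm_bounds`, `lp_bounds` with `BGood.l_big` (`cc lam l_j ≤ 4 cc lam l_j ≤ l'_j`). -/

set_option autoImplicit false

namespace Pool.Agent.UH

open Complex MeasureTheory Finset Pool.Agent.GH
open scoped Real ComplexConjugate

theorem sum_P {S : BS} {lam C D : ℝ} {N0 : ℕ} (hS : BGood S lam C N0 D) :
    ∑ p ∈ S.P, 1 / (p : ℝ) ≤ Real.log (Real.log S.T) + D := by
  have h1 : ∑ p ∈ S.P, 1 / (p : ℝ) = ∑ j ∈ range (S.J + 1), sR (S.R j) := by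
    unfold BS.P
    rw [Finset.sum_biUnion]
    · rfl
    · intro i hi j hj hij
      have hi' := Finset.mem_range.1 (Finset.mem_coe.1 hi)
      have hj' := Finset.mem_range.1 (Finset.mem_coe.1 hj)
      exact hS.disj i (by omega) j (by omega) hij
  rw [h1]
  exact hS.inn

private theorem R5_sq (p : ℕ) : ((p : ℝ) ^ (-(1 / 2) : ℝ)) ^ 2 = 1 / (p : ℝ) := by
  rw [← Real.rpow_natCast, ← Real.rpow_mul (Nat.cast_nonneg p)]
  rw [show (-(1 / 2) : ℝ) * ((2 : ℕ) : ℝ) = -1 by norm_num, Real.rpow_neg_one, one_div]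

private theorem R5_cc {lam : ℝ} (h0 : 0 < lam) (h1 : lam < 1) : 0 ≤ cc lam := by
  unfold cc
  have : 0 ≤ min lam (1 - lam) := le_min h0.le (by linarith)
  linarith

private theorem R5_exp {L lam D s t : ℝ} (hL : 1 ≤ L) (h0 : 0 < lam) (h1 : lam < 1) (hs : s ≤ Real.log L + D)
    (ht : t ≤ |D|) : Real.exp (lam ^ 2 * s + t) ≤ Real.exp (2 * |D|) * L ^ (lam ^ 2) := by
  have h2 : lam ^ 2 ≤ 1 := by nlinarith
  have h3 : lam ^ 2 * s ≤ lam ^ 2 * (Real.log L + D) := mul_le_mul_of_nonneg_left hs (sq_nonneg _)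
  have h4 : lam ^ 2 * D ≤ |D| := by
    calc lam ^ 2 * D ≤ lam ^ 2 * |D| := mul_le_mul_of_nonneg_left (le_abs_self D) (sq_nonneg _)
      _ ≤ 1 * |D| := mul_le_mul_of_nonneg_right h2 (abs_nonneg _)
      _ = |D| := one_mul _
  rw [Real.rpow_def_of_pos (by linarith), ← Real.exp_add]
  refine Real.exp_le_exp.2 ?_
  nlinarith

theorem exp_a : ∃ C0 : ℝ, ∀ D : ℝ, ∃ K : ℝ, 1 ≤ K ∧ ∀ {S : BS} {lam C : ℝ} {N0 : ℕ}, C0 ≤ C →
    BGood S lam C N0 D →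
    ∫ w, ‖Zt (Nat.primesBelow (M1 S.T)) (1 / 2) w‖ ^ 2 * S.Wm lam (nX 0 w) ^ 2 ∂mu ≤
      K * Real.log S.T ^ (lam ^ 2) := by
  obtain ⟨C0, K0, hC0, hK0, H⟩ := full_b
  refine ⟨C0, fun D => ⟨K0 * Real.exp (2 * |D|), ?_, ?_⟩⟩
  · have h1 : 1 ≤ Real.exp (2 * |D|) := Real.one_le_exp (by positivity)
    exact one_le_mul_of_one_le_of_one_le hK0 h1
  · intro S lam C N0 hC hS
    have hcc := R5_cc hS.lam_pos hS.lam_lt
    have hL : 1 ≤ Real.log S.T := by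
      rw [Real.le_log_iff_exp_le (lt_of_lt_of_le (Real.exp_pos 1) hS.T_ge)]
      exact hS.T_ge
    have h1 := H hC hS (fun _ => 0) (lam - 1) (fun j => lm lam (S.l j))
      (fun p _ => by
        rw [norm_zero]
        exact Real.rpow_nonneg (Nat.cast_nonneg p) _)
      (by rw [abs_le]; constructor <;> linarith [hS.lam_pos, hS.lam_lt])
      (fun j hj => by
        have h2 := (lm_bounds hS.lam_pos hS.lam_lt (hS.l_big j hj).1).1
        have h3 : 0 ≤ cc lam * (S.l j : ℝ) := mul_nonneg hcc (Nat.cast_nonneg _)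
        linarith)
    have h2 : ∀ w : Om, ‖Zt (Nat.primesBelow (M1 S.T)) (1 / 2) w‖ ^ 2 *
        (∏ p ∈ Nat.primesBelow (M1 S.T), ‖1 - (0 : ℂ) * X p w‖ ^ 2) *
          S.W (lam - 1) (fun j => lm lam (S.l j)) (nX 0 w) ^ 2
        = ‖Zt (Nat.primesBelow (M1 S.T)) (1 / 2) w‖ ^ 2 * S.Wm lam (nX 0 w) ^ 2 := by
      intro w
      have h3 : ∏ p ∈ Nat.primesBelow (M1 S.T), ‖1 - (0 : ℂ) * X p w‖ ^ 2 = 1 := by
        refine Finset.prod_eq_one fun p _ => ?_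
        rw [zero_mul, sub_zero, norm_one, one_pow]
      rw [h3, mul_one]
      rfl
    simp only [h2] at h1
    refine h1.trans ?_
    rw [mul_assoc]
    refine mul_le_mul_of_nonneg_left ?_ (by linarith)
    have e1 : ∑ p ∈ S.P, ‖((((1 + (lam - 1)) * (p : ℝ) ^ (-(1 / 2) : ℝ) : ℝ)) : ℂ) - 0‖ ^ 2
        = lam ^ 2 * ∑ p ∈ S.P, 1 / (p : ℝ) := by
      rw [Finset.mul_sum]
      refine Finset.sum_congr rfl fun p _ => ?_
      rw [sub_zero, Complex.norm_real, Real.norm_eq_abs, sq_abs, mul_pow, R5_sq]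
      ring
    have e2 : ∑ p ∈ Nat.primesBelow (M1 S.T) \ S.P, ‖((((p : ℝ) ^ (-(1 / 2) : ℝ) : ℝ)) : ℂ) - 0‖ ^ 2
        = ∑ p ∈ Nat.primesBelow (M1 S.T) \ S.P, 1 / (p : ℝ) := by
      refine Finset.sum_congr rfl fun p _ => ?_
      rw [sub_zero, Complex.norm_real, Real.norm_eq_abs, sq_abs, R5_sq]
    rw [e1, e2]
    exact R5_exp hL hS.lam_pos hS.lam_lt (sum_P hS) (hS.out.trans (le_abs_self D))

theorem exp_c : ∃ C0 : ℝ, ∀ D : ℝ, ∃ K : ℝ, 1 ≤ K ∧ ∀ {S : BS} {lam C : ℝ} {N0 : ℕ}, C0 ≤ C →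
    BGood S lam C N0 D → ∫ w, S.Wp lam (nX 0 w) ^ 2 ∂mu ≤ K * Real.log S.T ^ (lam ^ 2) := by
  obtain ⟨C0, K0, hC0, hK0, H⟩ := full_b
  refine ⟨C0, fun D => ⟨K0 * Real.exp (2 * |D|), ?_, ?_⟩⟩
  · have h1 : 1 ≤ Real.exp (2 * |D|) := Real.one_le_exp (by positivity)
    exact one_le_mul_of_one_le_of_one_le hK0 h1
  · intro S lam C N0 hC hS
    have hcc := R5_cc hS.lam_pos hS.lam_lt
    have hL : 1 ≤ Real.log S.T := by
      rw [Real.le_log_iff_exp_le (lt_of_lt_of_le (Real.exp_pos 1) hS.T_ge)]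
      exact hS.T_ge
    have h1 := H hC hS (fun p => (((p : ℝ) ^ (-(1 / 2) : ℝ) : ℝ) : ℂ)) lam (fun j => lp lam (S.l j))
      (fun p _ => by
        rw [Complex.norm_real, Real.norm_of_nonneg (Real.rpow_nonneg (Nat.cast_nonneg p) _)])
      (by rw [abs_le]; constructor <;> linarith [hS.lam_pos, hS.lam_lt])
      (fun j hj => by
        have h2 := (lp_bounds hS.lam_pos hS.lam_lt (hS.l_big j hj).2).1
        have h3 : 0 ≤ cc lam * (S.l j : ℝ) := mul_nonneg hcc (Nat.cast_nonneg _)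
        linarith)
    have h2 : ∀ w : Om, ‖Zt (Nat.primesBelow (M1 S.T)) (1 / 2) w‖ ^ 2 *
        (∏ p ∈ Nat.primesBelow (M1 S.T), ‖1 - (((p : ℝ) ^ (-(1 / 2) : ℝ) : ℝ) : ℂ) * X p w‖ ^ 2) *
          S.W lam (fun j => lp lam (S.l j)) (nX 0 w) ^ 2
        = S.Wp lam (nX 0 w) ^ 2 := by
      intro w
      have h3 : ‖Zt (Nat.primesBelow (M1 S.T)) (1 / 2) w‖ ^ 2 *
          (∏ p ∈ Nat.primesBelow (M1 S.T), ‖1 - (((p : ℝ) ^ (-(1 / 2) : ℝ) : ℝ) : ℂ) * X p w‖ ^ 2) = 1 := by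
        unfold Zt
        rw [norm_prod, ← Finset.prod_pow, ← Finset.prod_mul_distrib]
        refine Finset.prod_eq_one fun p hp => ?_
        have h4 := Zt_factor_ne_zero (Nat.prime_of_mem_primesBelow hp).two_le (σ := 1 / 2) (by norm_num) w
        rw [← mul_pow, norm_inv, inv_mul_cancel₀ (norm_ne_zero_iff.2 h4), one_pow]
      rw [h3, one_mul]
      rfl
    simp only [h2] at h1
    refine h1.trans ?_
    rw [mul_assoc]
    refine mul_le_mul_of_nonneg_left ?_ (by linarith)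
    have e1 : ∑ p ∈ S.P, ‖((((1 + lam) * (p : ℝ) ^ (-(1 / 2) : ℝ) : ℝ)) : ℂ) - (((p : ℝ) ^ (-(1 / 2) : ℝ) : ℝ) : ℂ)‖ ^ 2
        = lam ^ 2 * ∑ p ∈ S.P, 1 / (p : ℝ) := by
      rw [Finset.mul_sum]
      refine Finset.sum_congr rfl fun p _ => ?_
      rw [← Complex.ofReal_sub, Complex.norm_real, Real.norm_eq_abs, sq_abs,
        show (1 + lam) * (p : ℝ) ^ (-(1 / 2) : ℝ) - (p : ℝ) ^ (-(1 / 2) : ℝ) = lam * (p : ℝ) ^ (-(1 / 2) : ℝ) by ring,
        mul_pow, R5_sq]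
    have e2 : ∑ p ∈ Nat.primesBelow (M1 S.T) \ S.P, ‖((((p : ℝ) ^ (-(1 / 2) : ℝ) : ℝ)) : ℂ) - (((p : ℝ) ^ (-(1 / 2) : ℝ) : ℝ) : ℂ)‖ ^ 2
        = 0 := by
      refine Finset.sum_eq_zero fun p _ => ?_
      rw [sub_self, norm_zero]
      norm_num
    rw [e1, e2]
    exact R5_exp hL hS.lam_pos hS.lam_lt (sum_P hS) (abs_nonneg D)

end Pool.Agent.UH
end
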