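import Pool.Agent.Lib.MP_69b2e4_nt.LB.M2
import Pool.Agent.Lib.MP_69b2e4_nt.UV.R4
import Pool.Agent.Lib.MP_69b2e4_nt.Mg.G037
import Pool.Agent.Lib.MP_69b2e4_nt.Mg.G041
import Pool.Agent.Lib.MP_69b2e4_nt.LB.F1

section

/-! TASK M3. All blocks: the master lemma. Template: UV/R4.lean (`full4`).
Facts: the blocks `R j` (`j ≤ J`) and `U = primesBelow M \ P` are pairwise disjoint with union `primesBelow M` (`P_lt`). The integrand of `full5` is a product of functions of the blocks; `indep_blocks` (GH/Indep, index set `range (J+2)`, or use it for `J+1` blocks and treat `U` as one more), `block5 A` for `j ≤ J`, `main_block5 A` for `U`. Product of the bounds: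
`exp(∑ ‖y-b+s+c1_P‖² + C ∑_p p^{-2}) ∏_j (1 + x_j)`, `x_j = 2^{-l_j} exp(C(s_j+1)) ≤ 2^{-l_j} exp(Ct(s_j+1))` for `C ≤ Ct`, `∏(1+x_j) ≤ exp ∑ x_j ≤ e` (`TG.trunc`), `∑_p p^{-2} ≤ 2`.
`RT_nX`: `PS (R j) (nX z w) = ∑ p^{-(1/2+z)} X_p` (`PX_eq`).
`full5_bad`: for fixed `j`: independence, the factors `i ≠ j` by `block5` with `y = b = s = 0`, `c_p = lam p^{-1/2}` (`≤ exp(lam² s_i + ..)(1+x_i)`), the factor `j` by `block5_bad` with `κ = 8(lam+2)`: in total `≤ K exp(lam² ∑_{i≠j} s_i) 2^{-2 l_j} exp(C(s_j+1)) ≤ K Lam 2^{-l_j} [2^{-l_j} exp(Ct(s_j+1))]`; sum over `j`, `l_j ≥ N0`, `TG.trunc`.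
(`∑_{p∈P} 1/p = ∑_j sR (R j)`, disjoint blocks.) -/

set_option autoImplicit false

namespace Pool.Agent.LB

open Complex MeasureTheory Finset Pool.Agent.GH Pool.Agent.UH Pool.Agent.UV
open scoped Real ComplexConjugate

private theorem M3_PD {S : BS} {Ct θ D1 : ℝ} {N0 : ℕ} (hS : TG S Ct θ D1 N0) :
    (↑(range (S.J + 1)) : Set ℕ).PairwiseDisjoint S.R := by
  intro i hi j hj hij
  have hi' := Finset.mem_range.1 (Finset.mem_coe.1 hi)
  have hj' := Finset.mem_range.1 (Finset.mem_coe.1 hj)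
  exact hS.disj i (by omega) j (by omega) hij

theorem sum_P {S : BS} {Ct θ D1 : ℝ} {N0 : ℕ} (hS : TG S Ct θ D1 N0) (f : ℕ → ℝ) :
    ∑ p ∈ S.P, f p = ∑ j ∈ range (S.J + 1), ∑ p ∈ S.R j, f p := by
  classical
  unfold BS.P
  exact Finset.sum_biUnion (M3_PD hS)

private theorem M3_prod {S : BS} {Ct θ D1 : ℝ} {N0 : ℕ} (hS : TG S Ct θ D1 N0) (f : ℕ → ℝ) :
    ∏ p ∈ S.P, f p = ∏ j ∈ range (S.J + 1), ∏ p ∈ S.R j, f p := by
  classical
  unfold BS.P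
  exact Finset.prod_biUnion (M3_PD hS)

private theorem M3_sumC {S : BS} {Ct θ D1 : ℝ} {N0 : ℕ} (hS : TG S Ct θ D1 N0) (f : ℕ → ℂ) :
    ∑ p ∈ S.P, f p = ∑ j ∈ range (S.J + 1), ∑ p ∈ S.R j, f p := by
  classical
  unfold BS.P
  exact Finset.sum_biUnion (M3_PD hS)

/-- the primes of the blocks: prime, `log p ≤ θ^5 log T` -/
theorem P_prime {S : BS} {Ct θ D1 : ℝ} {N0 : ℕ} (hS : TG S Ct θ D1 N0) {p : ℕ} (hp : p ∈ S.P) :
    p.Prime ∧ Real.log p ≤ θ ^ 5 * Real.log S.T := by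
  obtain ⟨j, hj, hpj⟩ := Finset.mem_biUnion.1 hp
  have hj' : j ≤ S.J := by
    rw [Finset.mem_range] at hj
    omega
  obtain ⟨h1, h2⟩ := hS.prime j hj' p hpj
  refine ⟨h1, le_trans ?_ (hS.N_le j hj')⟩
  have hp0 : (0 : ℝ) < p := by exact_mod_cast h1.pos
  exact Real.log_le_log hp0 h2

theorem P_lt {S : BS} {Ct θ D1 : ℝ} {N0 : ℕ} (hS : TG S Ct θ D1 N0) {M : ℕ}
    (hM : S.T ^ (1 / 10 : ℝ) ≤ M) : S.P ⊆ Nat.primesBelow M := by
  intro p hp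
  obtain ⟨h1, h2⟩ := P_prime hS hp
  have hp0 : (0 : ℝ) < p := by exact_mod_cast h1.pos
  have hT0 : 0 < S.T := lt_of_lt_of_le (Real.exp_pos _) hS.T_ge
  have hL : 1000 ≤ Real.log S.T := by
    rw [Real.le_log_iff_exp_le hT0]
    exact hS.T_ge
  have hth : θ ^ 5 ≤ (1 / 100 : ℝ) ^ 5 := pow_le_pow_left₀ hS.th_pos.le hS.th_le 5
  have h3 : Real.log p < Real.log (S.T ^ (1 / 10 : ℝ)) := by
    rw [Real.log_rpow hT0]
    have h4 : θ ^ 5 * Real.log S.T ≤ (1 / 100 : ℝ) ^ 5 * Real.log S.T :=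
      mul_le_mul_of_nonneg_right hth (by linarith)
    have h5 : (1 / 100 : ℝ) ^ 5 * Real.log S.T < 1 / 10 * Real.log S.T :=
      mul_lt_mul_of_pos_right (by norm_num) (by linarith)
    linarith
  have h4 : (p : ℝ) < S.T ^ (1 / 10 : ℝ) := (Real.log_lt_log_iff hp0 (by positivity)).1 h3
  have h5 : (p : ℝ) < M := h4.trans_le hM
  exact Nat.mem_primesBelow.2 ⟨by exact_mod_cast h5, h1⟩

theorem RT_nX {S : BS} {Ct θ D1 : ℝ} {N0 : ℕ} (hS : TG S Ct θ D1 N0) (κ : ℝ) (z : ℂ) (w : Om) :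
    RT S κ (nX z w) = ∏ j ∈ range (S.J + 1),
      Ex (S.l j) (∑ p ∈ S.R j, (κ * (p : ℂ) ^ (-(1 / 2 + z))) * X p w) := by
  unfold RT
  refine Finset.prod_congr rfl fun j hj => ?_
  have hj' : j ≤ S.J := by
    rw [Finset.mem_range] at hj
    omega
  congr 1
  have h1 := PX_eq (S.R j) (fun p hp => (hS.prime j hj' p hp).1) z w
  unfold PX at h1
  rw [h1, Finset.mul_sum]
  refine Finset.sum_congr rfl fun p _ => ?_
  ring

private theorem M3_cY (R : Finset ℕ) (y : ℕ → ℝ)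
    (hy : ∀ p ∈ R, p.Prime ∧ 0 ≤ y p ∧ y p ≤ (p : ℝ) ^ (-(1 / 2) : ℝ)) :
    Continuous fun w => ∏ p ∈ R, ‖(1 - (y p : ℂ) * X p w)⁻¹‖ ^ 2 := by
  refine continuous_finsetProd _ fun p hp => ?_
  have h1 := continuous_X p
  have hne : ∀ w, 1 - (y p : ℂ) * X p w ≠ 0 := by
    intro w h0
    have h1 : ‖(y p : ℂ) * X p w‖ = 1 := by
      have : (y p : ℂ) * X p w = 1 := by linear_combination -h0
      rw [this]
      simp
    obtain ⟨hp1, hp2, hp3⟩ := hy p hp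
    rw [norm_mul, norm_X, mul_one, Complex.norm_real, Real.norm_of_nonneg hp2] at h1
    have h3 := rpow_neg_lt_one hp1.two_le (show (0 : ℝ) < 1 / 2 by norm_num)
    rw [h1] at hp3
    linarith
  have h2 : Continuous fun w => (1 - (y p : ℂ) * X p w)⁻¹ :=
    Continuous.inv₀ (continuous_const.sub (continuous_const.mul h1)) hne
  exact h2.norm.pow 2

private theorem M3_cX (R : Finset ℕ) (b : ℕ → ℂ) :
    Continuous fun w => ∏ p ∈ R, ‖1 - b p * X p w‖ ^ 2 := by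
  refine continuous_finsetProd _ fun p _ => ?_
  have := continuous_X p
  fun_prop

private theorem M3_cS (R : Finset ℕ) (s : ℕ → ℂ) :
    Continuous fun w => ∑ p ∈ R, s p * X p w :=
  continuous_finsetSum _ fun p _ => continuous_const.mul (continuous_X p)

private theorem M3_cE (R : Finset ℕ) (s : ℕ → ℂ) :
    Continuous fun w => Real.exp (2 * (∑ p ∈ R, s p * X p w).re) :=
  Real.continuous_exp.comp (continuous_const.mul (Complex.continuous_re.comp (M3_cS R s)))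

private theorem M3_Xe {R : Finset ℕ} {w w' : Om} (h : ∀ p ∈ R, w p = w' p) :
    ∀ p ∈ R, X p w = X p w' := by
  intro p hp
  unfold X
  rw [h p hp]

private theorem M3_sR (R : Finset ℕ) : 0 ≤ sR R := by
  unfold sR
  exact Finset.sum_nonneg fun p _ => by positivity

private theorem M3_p2 {R : Finset ℕ} (hR : ∀ p ∈ R, p.Prime) :
    ∑ p ∈ R, (p : ℝ) ^ (-2 : ℝ) ≤ 2 := by
  have h1 : R ⊆ Ioo 1 (R.sup id + 1) := by
    intro p hp
    refine Finset.mem_Ioo.2 ⟨(hR p hp).one_lt, ?_⟩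
    have : p ≤ R.sup id := Finset.le_sup (f := id) hp
    omega
  calc ∑ p ∈ R, (p : ℝ) ^ (-2 : ℝ)
      ≤ ∑ p ∈ Ioo 1 (R.sup id + 1), (p : ℝ) ^ (-2 : ℝ) :=
        Finset.sum_le_sum_of_subset_of_nonneg h1 fun p _ _ => by positivity
    _ = ∑ p ∈ Ioo 1 (R.sup id + 1), ((p : ℝ) ^ 2)⁻¹ := by
        refine Finset.sum_congr rfl fun p _ => ?_
        rw [Real.rpow_neg (Nat.cast_nonneg p), ← Real.rpow_natCast]
        norm_num
    _ ≤ 2 / ((1 : ℕ) + 1) := sum_Ioo_inv_sq_le 1 _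
    _ ≤ 2 := by norm_num

private theorem M3_trunc {S : BS} {Ct θ D1 : ℝ} {N0 : ℕ} (hS : TG S Ct θ D1 N0) {C : ℝ}
    (hC : C ≤ Ct) : ∏ j ∈ range (S.J + 1),
      (1 + (2 : ℝ)⁻¹ ^ (S.l j) * Real.exp (C * (sR (S.R j) + 1))) ≤ Real.exp 1 := by
  calc ∏ j ∈ range (S.J + 1), (1 + (2 : ℝ)⁻¹ ^ (S.l j) * Real.exp (C * (sR (S.R j) + 1)))
      ≤ ∏ j ∈ range (S.J + 1), Real.exp ((2 : ℝ)⁻¹ ^ (S.l j) * Real.exp (Ct * (sR (S.R j) + 1))) := by
        refine Finset.prod_le_prod (fun j _ => by positivity) fun j _ => ?_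
        have h1 := Real.add_one_le_exp ((2 : ℝ)⁻¹ ^ (S.l j) * Real.exp (Ct * (sR (S.R j) + 1)))
        have h2 : (2 : ℝ)⁻¹ ^ (S.l j) * Real.exp (C * (sR (S.R j) + 1)) ≤
            (2 : ℝ)⁻¹ ^ (S.l j) * Real.exp (Ct * (sR (S.R j) + 1)) := by
          refine mul_le_mul_of_nonneg_left (Real.exp_le_exp.2 ?_) (by positivity)
          have := M3_sR (S.R j)
          exact mul_le_mul_of_nonneg_right hC (by linarith)
        linarith
    _ = Real.exp (∑ j ∈ range (S.J + 1),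
          (2 : ℝ)⁻¹ ^ (S.l j) * Real.exp (Ct * (sR (S.R j) + 1))) := (Real.exp_sum _ _).symm
    _ ≤ Real.exp 1 := Real.exp_le_exp.2 hS.trunc

theorem full5 (A : ℝ) (hA : 0 ≤ A) : ∃ C0 K : ℝ, 1 ≤ K ∧ ∀ {S : BS} {Ct θ D1 : ℝ} {N0 : ℕ},
    TG S Ct θ D1 N0 → C0 ≤ Ct → ∀ (M : ℕ), S.P ⊆ Nat.primesBelow M →
    ∀ (y : ℕ → ℝ) (b s c : ℕ → ℂ),
    (∀ p ∈ Nat.primesBelow M, 0 ≤ y p ∧ y p ≤ (p : ℝ) ^ (-(1 / 2) : ℝ) ∧
      ‖b p‖ ≤ A * (p : ℝ) ^ (-(1 / 2) : ℝ) ∧ ‖s p‖ ≤ A * (p : ℝ) ^ (-(1 / 2) : ℝ) ∧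
      (p ∈ S.P → ‖c p‖ ≤ A * (p : ℝ) ^ (-(1 / 2) : ℝ))) →
    ∫ w, (∏ p ∈ Nat.primesBelow M, ‖(1 - (y p : ℂ) * X p w)⁻¹‖ ^ 2) *
      (∏ p ∈ Nat.primesBelow M, ‖1 - b p * X p w‖ ^ 2) *
      Real.exp (2 * (∑ p ∈ Nat.primesBelow M, s p * X p w).re) *
      (∏ j ∈ range (S.J + 1), ‖Ex (S.l j) (∑ p ∈ S.R j, c p * X p w)‖ ^ 2) ∂mu ≤
    K * Real.exp (∑ p ∈ Nat.primesBelow M,
      ‖(y p : ℂ) - b p + s p + (if p ∈ S.P then c p else 0)‖ ^ 2) := by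
  classical
  obtain ⟨Cm, hCm0, hCm⟩ := main_block5 A hA
  obtain ⟨Cb, hCb0, hCb⟩ := block5 A hA
  refine ⟨max Cm Cb, Real.exp (2 * max Cm Cb + 1), Real.one_le_exp (by
    have := hCm0.trans (le_max_left Cm Cb)
    linarith), ?_⟩
  intro S Ct θ D1 N0 hS hC M hPM y b s c hyp
  obtain ⟨C0, hC0⟩ : ∃ C0 : ℝ, C0 = max Cm Cb := ⟨_, rfl⟩
  rw [← hC0] at hC ⊢
  have hCmC : Cm ≤ C0 := hC0 ▸ le_max_left _ _
  have hCbC : Cb ≤ C0 := hC0 ▸ le_max_right _ _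
  have hC00 : 0 ≤ C0 := hCm0.trans hCmC
  obtain ⟨PB, hPB⟩ : ∃ PB, PB = Nat.primesBelow M := ⟨_, rfl⟩
  rw [← hPB] at hyp hPM ⊢
  obtain ⟨rest, hrest⟩ : ∃ rest, rest = PB \ S.P := ⟨_, rfl⟩
  have hRp : ∀ j ∈ range (S.J + 1), ∀ p ∈ S.R j, p ∈ S.P := by
    intro j hj p hp
    exact Finset.mem_biUnion.2 ⟨j, hj, hp⟩
  have hrp : ∀ p ∈ rest, p ∈ PB ∧ p ∉ S.P := by
    intro p hp
    rw [hrest] at hp
    exact Finset.mem_sdiff.1 hp
  have hPrest : Disjoint S.P rest := by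
    rw [hrest]
    exact Finset.disjoint_sdiff
  have hun : PB = S.P ∪ rest := by
    rw [hrest, Finset.union_sdiff_of_subset hPM]
  have hprime : ∀ p ∈ PB, p.Prime := fun p hp => by
    rw [hPB] at hp
    exact (Nat.mem_primesBelow.1 hp).2
  have hprodR : ∀ f : ℕ → ℝ, ∏ p ∈ PB, f p =
      (∏ j ∈ range (S.J + 1), ∏ p ∈ S.R j, f p) * ∏ p ∈ rest, f p := by
    intro f
    rw [hun, Finset.prod_union hPrest, M3_prod hS]
  have hsumC : ∀ f : ℕ → ℂ, ∑ p ∈ PB, f p =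
      (∑ j ∈ range (S.J + 1), ∑ p ∈ S.R j, f p) + ∑ p ∈ rest, f p := by
    intro f
    rw [hun, Finset.sum_union hPrest, M3_sumC hS]
  have hsumR : ∀ f : ℕ → ℝ, ∑ p ∈ PB, f p =
      (∑ j ∈ range (S.J + 1), ∑ p ∈ S.R j, f p) + ∑ p ∈ rest, f p := by
    intro f
    rw [hun, Finset.sum_union hPrest, sum_P hS]
  -- the factors
  obtain ⟨g, hg⟩ : ∃ g : ℕ → Om → ℝ, ∀ j w, g j w =
      (∏ p ∈ S.R j, ‖(1 - (y p : ℂ) * X p w)⁻¹‖ ^ 2) * (∏ p ∈ S.R j, ‖1 - b p * X p w‖ ^ 2) *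
      Real.exp (2 * (∑ p ∈ S.R j, s p * X p w).re) *
      ‖Ex (S.l j) (∑ p ∈ S.R j, c p * X p w)‖ ^ 2 := ⟨_, fun _ _ => rfl⟩
  obtain ⟨gf, hgf⟩ : ∃ gf : Om → ℝ, ∀ w, gf w =
      (∏ p ∈ rest, ‖(1 - (y p : ℂ) * X p w)⁻¹‖ ^ 2) * (∏ p ∈ rest, ‖1 - b p * X p w‖ ^ 2) *
      Real.exp (2 * (∑ p ∈ rest, s p * X p w).re) := ⟨_, fun _ => rfl⟩
  obtain ⟨F, hF⟩ : ∃ F : ℕ → Om → ℝ, ∀ i, F i = if i < S.J + 1 then g i else gf := ⟨_, fun _ => rfl⟩
  obtain ⟨Q, hQ⟩ : ∃ Q : ℕ → Finset ℕ, ∀ i, Q i = if i < S.J + 1 then S.R i else rest :=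
    ⟨_, fun _ => rfl⟩
  have hint : ∀ w, (∏ p ∈ PB, ‖(1 - (y p : ℂ) * X p w)⁻¹‖ ^ 2) *
      (∏ p ∈ PB, ‖1 - b p * X p w‖ ^ 2) *
      Real.exp (2 * (∑ p ∈ PB, s p * X p w).re) *
      (∏ j ∈ range (S.J + 1), ‖Ex (S.l j) (∑ p ∈ S.R j, c p * X p w)‖ ^ 2) =
      ∏ i ∈ range (S.J + 2), F i w := by
    intro w
    rw [show ∏ i ∈ range (S.J + 2), F i w = (∏ i ∈ range (S.J + 1), F i w) * F (S.J + 1) w from
      Finset.prod_range_succ _ _, hF (S.J + 1), if_neg (lt_irrefl _)]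
    have h1 : ∏ i ∈ range (S.J + 1), F i w = ∏ i ∈ range (S.J + 1), g i w := by
      refine Finset.prod_congr rfl fun i hi => ?_
      rw [hF i, if_pos (Finset.mem_range.1 hi)]
    rw [h1]
    have h3 : ∏ i ∈ range (S.J + 1), g i w =
        (∏ i ∈ range (S.J + 1), ∏ p ∈ S.R i, ‖(1 - (y p : ℂ) * X p w)⁻¹‖ ^ 2) *
        (∏ i ∈ range (S.J + 1), ∏ p ∈ S.R i, ‖1 - b p * X p w‖ ^ 2) *
        (∏ i ∈ range (S.J + 1), Real.exp (2 * (∑ p ∈ S.R i, s p * X p w).re)) *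
        ∏ i ∈ range (S.J + 1), ‖Ex (S.l i) (∑ p ∈ S.R i, c p * X p w)‖ ^ 2 := by
      rw [← Finset.prod_mul_distrib, ← Finset.prod_mul_distrib, ← Finset.prod_mul_distrib]
      exact Finset.prod_congr rfl fun i _ => hg i w
    have h4 : Real.exp (2 * (∑ p ∈ PB, s p * X p w).re) =
        (∏ i ∈ range (S.J + 1), Real.exp (2 * (∑ p ∈ S.R i, s p * X p w).re)) *
          Real.exp (2 * (∑ p ∈ rest, s p * X p w).re) := by
      rw [hsumC, ← Real.exp_sum, ← Real.exp_add, Complex.add_re, Complex.re_sum, mul_add,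
        Finset.mul_sum]
    rw [hprodR, hprodR, h3, h4, hgf]
    ring
  -- continuity
  have hyR : ∀ R : Finset ℕ, (∀ p ∈ R, p ∈ PB) →
      ∀ p ∈ R, p.Prime ∧ 0 ≤ y p ∧ y p ≤ (p : ℝ) ^ (-(1 / 2) : ℝ) := by
    intro R hR p hp
    obtain ⟨h1, h2, -⟩ := hyp p (hR p hp)
    exact ⟨hprime p (hR p hp), h1, h2⟩
  have hcg : ∀ j ∈ range (S.J + 1), Continuous (g j) := by
    intro j hj
    rw [show g j = fun w =>
      (∏ p ∈ S.R j, ‖(1 - (y p : ℂ) * X p w)⁻¹‖ ^ 2) * (∏ p ∈ S.R j, ‖1 - b p * X p w‖ ^ 2) *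
      Real.exp (2 * (∑ p ∈ S.R j, s p * X p w).re) *
      ‖Ex (S.l j) (∑ p ∈ S.R j, c p * X p w)‖ ^ 2 from funext (hg j)]
    have h1 := M3_cY (S.R j) y (hyR _ fun p hp => hPM (hRp j hj p hp))
    have h2 : Continuous fun w => Ex (S.l j) (∑ p ∈ S.R j, c p * X p w) :=
      (continuous_Ex (S.l j)).comp (M3_cS (S.R j) c)
    exact ((h1.mul (M3_cX _ b)).mul (M3_cE _ s)).mul (h2.norm.pow 2)
  have hcgf : Continuous gf := by
    rw [show gf = fun w =>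
      (∏ p ∈ rest, ‖(1 - (y p : ℂ) * X p w)⁻¹‖ ^ 2) * (∏ p ∈ rest, ‖1 - b p * X p w‖ ^ 2) *
      Real.exp (2 * (∑ p ∈ rest, s p * X p w).re) from funext hgf]
    have h1 := M3_cY rest y (hyR _ fun p hp => (hrp p hp).1)
    exact (h1.mul (M3_cX _ b)).mul (M3_cE _ s)
  -- independence
  have hind : ∫ w, ∏ i ∈ range (S.J + 2), F i w ∂mu = ∏ i ∈ range (S.J + 2), ∫ w, F i w ∂mu := by
    refine indep_blocks (range (S.J + 2)) Q ?_ F ?_ ?_
    · intro i hi j hj hij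
      have hi' := Finset.mem_range.1 hi
      have hj' := Finset.mem_range.1 hj
      have hd : ∀ i, i < S.J + 1 → Disjoint (S.R i) rest := fun i hi =>
        Finset.disjoint_of_subset_left (Finset.subset_biUnion_of_mem S.R (Finset.mem_range.2 hi)) hPrest
      rw [hQ i, hQ j]
      by_cases h1 : i < S.J + 1
      · by_cases h2 : j < S.J + 1
        · rw [if_pos h1, if_pos h2]
          exact hS.disj i (by omega) j (by omega) hij
        · rw [if_pos h1, if_neg h2]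
          exact hd i h1
      · by_cases h2 : j < S.J + 1
        · rw [if_neg h1, if_pos h2]
          exact (hd j h2).symm
        · exact absurd (by omega) hij
    · intro i hi
      rw [hF i]
      by_cases h1 : i < S.J + 1
      · rw [if_pos h1]
        exact (hcg i (Finset.mem_range.2 h1)).measurable
      · rw [if_neg h1]
        exact hcgf.measurable
    · intro i hi w w' hww
      rw [hQ i] at hww
      rw [hF i]
      by_cases h1 : i < S.J + 1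
      · rw [if_pos h1] at hww ⊢
        have hX := M3_Xe hww
        rw [hg, hg]
        have e1 : ∏ p ∈ S.R i, ‖(1 - (y p : ℂ) * X p w)⁻¹‖ ^ 2 =
            ∏ p ∈ S.R i, ‖(1 - (y p : ℂ) * X p w')⁻¹‖ ^ 2 :=
          Finset.prod_congr rfl fun p hp => by rw [hX p hp]
        have e2 : ∏ p ∈ S.R i, ‖1 - b p * X p w‖ ^ 2 = ∏ p ∈ S.R i, ‖1 - b p * X p w'‖ ^ 2 :=
          Finset.prod_congr rfl fun p hp => by rw [hX p hp]
        have e3 : ∑ p ∈ S.R i, s p * X p w = ∑ p ∈ S.R i, s p * X p w' :=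
          Finset.sum_congr rfl fun p hp => by rw [hX p hp]
        have e4 : ∑ p ∈ S.R i, c p * X p w = ∑ p ∈ S.R i, c p * X p w' :=
          Finset.sum_congr rfl fun p hp => by rw [hX p hp]
        rw [e1, e2, e3, e4]
      · rw [if_neg h1] at hww ⊢
        have hX := M3_Xe hww
        rw [hgf, hgf]
        have e1 : ∏ p ∈ rest, ‖(1 - (y p : ℂ) * X p w)⁻¹‖ ^ 2 =
            ∏ p ∈ rest, ‖(1 - (y p : ℂ) * X p w')⁻¹‖ ^ 2 :=
          Finset.prod_congr rfl fun p hp => by rw [hX p hp]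
        have e2 : ∏ p ∈ rest, ‖1 - b p * X p w‖ ^ 2 = ∏ p ∈ rest, ‖1 - b p * X p w'‖ ^ 2 :=
          Finset.prod_congr rfl fun p hp => by rw [hX p hp]
        have e3 : ∑ p ∈ rest, s p * X p w = ∑ p ∈ rest, s p * X p w' :=
          Finset.sum_congr rfl fun p hp => by rw [hX p hp]
        rw [e1, e2, e3]
  simp_rw [hint]
  rw [hind, Finset.prod_range_succ, hF (S.J + 1), if_neg (lt_irrefl _)]
  have hgnn : ∀ j w, 0 ≤ g j w := by
    intro j w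
    rw [hg]
    positivity
  have hgfnn : ∀ w, 0 ≤ gf w := by
    intro w
    rw [hgf]
    positivity
  -- the bounds
  obtain ⟨q, hq⟩ : ∃ q : ℕ → ℝ, ∀ p, q p = ‖(y p : ℂ) - b p + s p + c p‖ ^ 2 := ⟨_, fun _ => rfl⟩
  obtain ⟨q', hq'⟩ : ∃ q' : ℕ → ℝ, ∀ p, q' p = ‖(y p : ℂ) - b p + s p‖ ^ 2 := ⟨_, fun _ => rfl⟩
  have hb1 : ∀ j ∈ range (S.J + 1), ∫ w, g j w ∂mu ≤
      Real.exp (∑ p ∈ S.R j, q p + C0 * ∑ p ∈ S.R j, (p : ℝ) ^ (-2 : ℝ)) *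
        (1 + (2 : ℝ)⁻¹ ^ (S.l j) * Real.exp (Cb * (sR (S.R j) + 1))) := by
    intro j hj
    have h1 := hCb (S.R j) y b s c (S.l j) (fun p hp => by
      have hpP := hRp j hj p hp
      obtain ⟨h1, h2, h3, h4, h5⟩ := hyp p (hPM hpP)
      exact ⟨hprime p (hPM hpP), h1, h2, h3, h4, h5 hpP⟩)
    simp_rw [hg]
    refine h1.trans ?_
    have hp2 : 0 ≤ ∑ p ∈ S.R j, (p : ℝ) ^ (-2 : ℝ) := Finset.sum_nonneg fun p _ => by positivity
    refine mul_le_mul_of_nonneg_right ?_ (by positivity)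
    refine Real.exp_le_exp.2 ?_
    have := mul_le_mul_of_nonneg_right hCbC hp2
    simp_rw [hq]
    linarith
  have hb2 : ∫ w, gf w ∂mu ≤
      Real.exp (∑ p ∈ rest, q' p + C0 * ∑ p ∈ rest, (p : ℝ) ^ (-2 : ℝ)) := by
    have h1 := hCm rest y b s (fun p hp => by
      obtain ⟨h1, h2, h3, h4, -⟩ := hyp p (hrp p hp).1
      exact ⟨hprime p (hrp p hp).1, h1, h2, h3, h4⟩)
    simp_rw [hgf]
    refine h1.trans ?_
    have hp2 : 0 ≤ ∑ p ∈ rest, (p : ℝ) ^ (-2 : ℝ) := Finset.sum_nonneg fun p _ => by positivity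
    refine Real.exp_le_exp.2 ?_
    have h3 := mul_le_mul_of_nonneg_right hCmC hp2
    simp_rw [hq']
    linarith
  have hb3 : ∏ i ∈ range (S.J + 1), ∫ w, F i w ∂mu ≤
      ∏ j ∈ range (S.J + 1), (Real.exp (∑ p ∈ S.R j, q p +
        C0 * ∑ p ∈ S.R j, (p : ℝ) ^ (-2 : ℝ)) *
        (1 + (2 : ℝ)⁻¹ ^ (S.l j) * Real.exp (Cb * (sR (S.R j) + 1)))) := by
    refine Finset.prod_le_prod ?_ ?_
    · intro i hi
      rw [hF i, if_pos (Finset.mem_range.1 hi)]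
      exact integral_nonneg (hgnn i)
    · intro i hi
      rw [hF i, if_pos (Finset.mem_range.1 hi)]
      exact hb1 i hi
  have hb4 := M3_trunc hS (hCbC.trans hC)
  have hp2 : ∑ p ∈ PB, (p : ℝ) ^ (-2 : ℝ) ≤ 2 := M3_p2 hprime
  rw [hsumR] at hp2
  rw [Finset.prod_mul_distrib, ← Real.exp_sum, Finset.sum_add_distrib, ← Finset.mul_sum] at hb3
  have hnn1 : 0 ≤ ∫ w, gf w ∂mu := integral_nonneg hgfnn
  have hfin : ∑ p ∈ PB, ‖(y p : ℂ) - b p + s p + (if p ∈ S.P then c p else 0)‖ ^ 2 =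
      (∑ j ∈ range (S.J + 1), ∑ p ∈ S.R j, q p) + ∑ p ∈ rest, q' p := by
    rw [hsumR]
    congr 1
    · refine Finset.sum_congr rfl fun j hj => Finset.sum_congr rfl fun p hp => ?_
      rw [if_pos (hRp j hj p hp), hq]
    · refine Finset.sum_congr rfl fun p hp => ?_
      rw [if_neg (hrp p hp).2, add_zero, hq']
  calc (∏ i ∈ range (S.J + 1), ∫ w, F i w ∂mu) * ∫ w, gf w ∂mu
      ≤ (Real.exp ((∑ j ∈ range (S.J + 1), ∑ p ∈ S.R j, q p) +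
          C0 * ∑ j ∈ range (S.J + 1), ∑ p ∈ S.R j, (p : ℝ) ^ (-2 : ℝ)) * Real.exp 1) *
        Real.exp (∑ p ∈ rest, q' p + C0 * ∑ p ∈ rest, (p : ℝ) ^ (-2 : ℝ)) := by
        refine mul_le_mul (hb3.trans ?_) hb2 hnn1 (by positivity)
        exact mul_le_mul_of_nonneg_left hb4 (Real.exp_pos _).le
    _ = Real.exp ((∑ j ∈ range (S.J + 1), ∑ p ∈ S.R j, q p) +
          C0 * (∑ j ∈ range (S.J + 1), ∑ p ∈ S.R j, (p : ℝ) ^ (-2 : ℝ)) + 1 +
          (∑ p ∈ rest, q' p + C0 * ∑ p ∈ rest, (p : ℝ) ^ (-2 : ℝ))) := by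
        rw [← Real.exp_add, ← Real.exp_add]
    _ ≤ Real.exp ((2 * C0 + 1) +
          ((∑ j ∈ range (S.J + 1), ∑ p ∈ S.R j, q p) + ∑ p ∈ rest, q' p)) := by
        refine Real.exp_le_exp.2 ?_
        have h6 := mul_le_mul_of_nonneg_left hp2 hC00
        rw [mul_add] at h6
        linarith
    _ = Real.exp (2 * C0 + 1) * Real.exp (∑ p ∈ PB,
          ‖(y p : ℂ) - b p + s p + (if p ∈ S.P then c p else 0)‖ ^ 2) := by
        rw [hfin, Real.exp_add]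

theorem full5_bad (lam : ℝ) (h0 : 0 < lam) : ∃ C0 K : ℝ, 1 ≤ K ∧
    ∀ {S : BS} {Ct θ D1 : ℝ} {N0 : ℕ}, TG S Ct θ D1 N0 → C0 ≤ Ct →
    ∑ j ∈ range (S.J + 1), ∫ w, ‖RT S lam (nX 0 w)‖ ^ 2 *
      (8 * (lam + 2) * ‖PX (S.R j) 0 w‖ / S.l j) ^ (2 * S.l j) ∂mu ≤
    K * (2 : ℝ)⁻¹ ^ N0 * Lam S lam := by
  classical
  obtain ⟨Cb, hCb0, hCb⟩ := block5 lam h0.le
  obtain ⟨Cd, hCd0, hCd⟩ := block5_bad lam (8 * (lam + 2)) h0.le (by positivity)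
  refine ⟨max Cb Cd, Real.exp (2 * Cb + 1), Real.one_le_exp (by linarith), ?_⟩
  intro S Ct θ D1 N0 hS hC
  have hCbC : Cb ≤ Ct := (le_max_left _ _).trans hC
  have hCdC : Cd ≤ Ct := (le_max_right _ _).trans hC
  obtain ⟨c, hc⟩ : ∃ c : ℕ → ℂ, ∀ p, c p = (lam : ℂ) * (p : ℂ) ^ (-(1 / 2 + (0 : ℂ))) :=
    ⟨_, fun _ => rfl⟩
  have hprime : ∀ j ∈ range (S.J + 1), ∀ p ∈ S.R j, p.Prime := by
    intro j hj p hp
    exact (hS.prime j (by rw [Finset.mem_range] at hj; omega) p hp).1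
  have hcn : ∀ p : ℕ, p.Prime → ‖c p‖ = lam * (p : ℝ) ^ (-(1 / 2) : ℝ) := by
    intro p hp
    rw [hc, norm_mul, Complex.norm_real, Real.norm_of_nonneg h0.le,
      Complex.norm_natCast_cpow_of_pos hp.pos]
    congr 2
    simp
  have hc2 : ∀ p : ℕ, p.Prime → ‖c p‖ ^ 2 = lam ^ 2 * (1 / (p : ℝ)) := by
    intro p hp
    rw [hcn p hp, mul_pow]
    congr 1
    rw [← Real.rpow_natCast, ← Real.rpow_mul (Nat.cast_nonneg p)]
    rw [show (-(1 / 2) : ℝ) * ((2 : ℕ) : ℝ) = -1 by norm_num, Real.rpow_neg_one, one_div]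
  obtain ⟨t, ht⟩ : ∃ t : ℕ → ℝ, ∀ j, t j =
      (2 : ℝ)⁻¹ ^ (S.l j) * Real.exp (Ct * (sR (S.R j) + 1)) := ⟨_, fun _ => rfl⟩
  have ht0 : ∀ j, 0 ≤ t j := by
    intro j
    rw [ht]
    positivity
  have hp2 : ∑ p ∈ S.P, (p : ℝ) ^ (-2 : ℝ) ≤ 2 := M3_p2 fun p hp => (P_prime hS hp).1
  rw [sum_P hS] at hp2
  have hone : ∀ j ∈ range (S.J + 1), ∫ w, ‖RT S lam (nX 0 w)‖ ^ 2 *
      (8 * (lam + 2) * ‖PX (S.R j) 0 w‖ / S.l j) ^ (2 * S.l j) ∂mu ≤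
      Real.exp (2 * Cb + 1) * (2 : ℝ)⁻¹ ^ N0 * Lam S lam * t j := by
    intro j hj
    have hj' : j ≤ S.J := by
      rw [Finset.mem_range] at hj
      omega
    obtain ⟨h, hh⟩ : ∃ h : ℕ → Om → ℝ, ∀ i w, h i w =
        ‖Ex (S.l i) (∑ p ∈ S.R i, c p * X p w)‖ ^ 2 *
        (if i = j then (8 * (lam + 2) * ‖PX (S.R i) 0 w‖ / S.l i) ^ (2 * S.l i) else 1) :=
      ⟨_, fun _ _ => rfl⟩
    have hint : ∀ w, ‖RT S lam (nX 0 w)‖ ^ 2 *
        (8 * (lam + 2) * ‖PX (S.R j) 0 w‖ / S.l j) ^ (2 * S.l j) =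
        ∏ i ∈ range (S.J + 1), h i w := by
      intro w
      simp_rw [hh]
      rw [Finset.prod_mul_distrib, Finset.prod_ite_eq' (range (S.J + 1)) j
        (fun i => (8 * (lam + 2) * ‖PX (S.R i) 0 w‖ / S.l i) ^ (2 * S.l i)), if_pos hj]
      congr 1
      rw [RT_nX hS, norm_prod, Finset.prod_pow]
      simp_rw [hc]
    have hch : ∀ i ∈ range (S.J + 1), Continuous (h i) := by
      intro i hi
      rw [show h i = fun w => ‖Ex (S.l i) (∑ p ∈ S.R i, c p * X p w)‖ ^ 2 *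
        (if i = j then (8 * (lam + 2) * ‖PX (S.R i) 0 w‖ / S.l i) ^ (2 * S.l i) else 1)
        from funext (hh i)]
      have h2 : Continuous fun w => Ex (S.l i) (∑ p ∈ S.R i, c p * X p w) :=
        (continuous_Ex (S.l i)).comp (M3_cS (S.R i) c)
      refine (h2.norm.pow 2).mul ?_
      by_cases hij : i = j
      · simp only [if_pos hij]
        exact (((continuous_const.mul (continuous_PX (S.R i) 0).norm)).div_const _).pow _
      · simp only [if_neg hij]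
        exact continuous_const
    have hind : ∫ w, ∏ i ∈ range (S.J + 1), h i w ∂mu =
        ∏ i ∈ range (S.J + 1), ∫ w, h i w ∂mu := by
      refine indep_blocks (range (S.J + 1)) S.R ?_ h ?_ ?_
      · intro i hi i' hi' hii
        have h1 := Finset.mem_range.1 hi
        have h2 := Finset.mem_range.1 hi'
        exact hS.disj i (by omega) i' (by omega) hii
      · intro i hi
        exact (hch i hi).measurable
      · intro i hi w w' hww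
        have hX := M3_Xe hww
        have e4 : ∑ p ∈ S.R i, c p * X p w = ∑ p ∈ S.R i, c p * X p w' :=
          Finset.sum_congr rfl fun p hp => by rw [hX p hp]
        rw [hh, hh, e4, depends_PX (hprime i hi) 0 hww]
    simp_rw [hint]
    rw [hind]
    have hb : ∀ i ∈ range (S.J + 1), ∫ w, h i w ∂mu ≤
        (Real.exp (lam ^ 2 * (∑ p ∈ S.R i, 1 / (p : ℝ)) + Cb * ∑ p ∈ S.R i, (p : ℝ) ^ (-2 : ℝ)) *
          (1 + (2 : ℝ)⁻¹ ^ (S.l i) * Real.exp (Cb * (sR (S.R i) + 1)))) *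
          (if i = j then (2 : ℝ)⁻¹ ^ (S.l i) * t i else 1) := by
      intro i hi
      have hp2' : 0 ≤ ∑ p ∈ S.R i, (p : ℝ) ^ (-2 : ℝ) :=
        Finset.sum_nonneg fun p _ => by positivity
      have hs0 : 0 ≤ ∑ p ∈ S.R i, 1 / (p : ℝ) := Finset.sum_nonneg fun p _ => by positivity
      by_cases hij : i = j
      · simp_rw [hh, if_pos hij]
        have h1 := hCd (S.R i) c (S.l i) (hS.l_ge i (by omega)).2
          (fun p hp => ⟨hprime i hi p hp, (hcn p (hprime i hi p hp)).le⟩)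
        refine h1.trans ?_
        have h2 : (2 : ℝ)⁻¹ ^ (2 * S.l i) * Real.exp (Cd * (sR (S.R i) + 1)) ≤
            (2 : ℝ)⁻¹ ^ (S.l i) * t i := by
          rw [ht, two_mul, pow_add, mul_assoc]
          refine mul_le_mul_of_nonneg_left ?_ (by positivity)
          refine mul_le_mul_of_nonneg_left (Real.exp_le_exp.2 ?_) (by positivity)
          have := M3_sR (S.R i)
          exact mul_le_mul_of_nonneg_right hCdC (by linarith)
        refine h2.trans ?_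
        refine le_mul_of_one_le_left (by have := ht0 i; positivity) ?_
        have h3 : 1 ≤ Real.exp (lam ^ 2 * (∑ p ∈ S.R i, 1 / (p : ℝ)) +
            Cb * ∑ p ∈ S.R i, (p : ℝ) ^ (-2 : ℝ)) := by
          refine Real.one_le_exp ?_
          have := mul_nonneg hCb0 hp2'
          have := mul_nonneg (sq_nonneg lam) hs0
          linarith
        have h4 : 1 ≤ 1 + (2 : ℝ)⁻¹ ^ (S.l i) * Real.exp (Cb * (sR (S.R i) + 1)) := by
          have : 0 ≤ (2 : ℝ)⁻¹ ^ (S.l i) * Real.exp (Cb * (sR (S.R i) + 1)) := by positivity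
          linarith
        nlinarith
      · simp_rw [hh, if_neg hij, mul_one]
        have h1 := hCb (S.R i) (fun _ => 0) (fun _ => 0) (fun _ => 0) c (S.l i) (fun p hp => by
          have hpp := hprime i hi p hp
          refine ⟨hpp, le_rfl, by positivity, ?_, ?_, (hcn p hpp).le⟩
          · rw [norm_zero]
            positivity
          · rw [norm_zero]
            positivity)
        have e1 : ∀ w, (∏ p ∈ S.R i, ‖(1 - (((0 : ℝ)) : ℂ) * X p w)⁻¹‖ ^ 2) *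
            (∏ p ∈ S.R i, ‖1 - (0 : ℂ) * X p w‖ ^ 2) *
            Real.exp (2 * (∑ p ∈ S.R i, (0 : ℂ) * X p w).re) *
            ‖Ex (S.l i) (∑ p ∈ S.R i, c p * X p w)‖ ^ 2 =
            ‖Ex (S.l i) (∑ p ∈ S.R i, c p * X p w)‖ ^ 2 := by
          intro w
          simp
        simp_rw [e1] at h1
        refine h1.trans (le_of_eq ?_)
        congr 3
        rw [Finset.mul_sum]
        refine Finset.sum_congr rfl fun p hp => ?_
        rw [← hc2 p (hprime i hi p hp)]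
        simp
    have hb' : ∏ i ∈ range (S.J + 1), ∫ w, h i w ∂mu ≤
        ∏ i ∈ range (S.J + 1), ((Real.exp (lam ^ 2 * (∑ p ∈ S.R i, 1 / (p : ℝ)) +
          Cb * ∑ p ∈ S.R i, (p : ℝ) ^ (-2 : ℝ)) *
          (1 + (2 : ℝ)⁻¹ ^ (S.l i) * Real.exp (Cb * (sR (S.R i) + 1)))) *
          (if i = j then (2 : ℝ)⁻¹ ^ (S.l i) * t i else 1)) := by
      refine Finset.prod_le_prod ?_ hb
      intro i _
      refine integral_nonneg fun w => ?_
      rw [hh]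
      refine mul_nonneg (by positivity) ?_
      split_ifs
      · rw [pow_mul]
        positivity
      · exact zero_le_one
    rw [Finset.prod_mul_distrib, Finset.prod_mul_distrib, ← Real.exp_sum,
      Finset.sum_add_distrib, ← Finset.mul_sum, ← Finset.mul_sum,
      Finset.prod_ite_eq' (range (S.J + 1)) j (fun i => (2 : ℝ)⁻¹ ^ (S.l i) * t i), if_pos hj] at hb'
    refine hb'.trans ?_
    have hLam : Lam S lam = Real.exp (lam ^ 2 * ∑ i ∈ range (S.J + 1), ∑ p ∈ S.R i, 1 / (p : ℝ)) := by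
      unfold Lam
      rw [sum_P hS]
    have h1 : Real.exp (lam ^ 2 * (∑ i ∈ range (S.J + 1), ∑ p ∈ S.R i, 1 / (p : ℝ)) +
        Cb * ∑ i ∈ range (S.J + 1), ∑ p ∈ S.R i, (p : ℝ) ^ (-2 : ℝ)) ≤
        Real.exp (2 * Cb) * Lam S lam := by
      rw [hLam, ← Real.exp_add]
      refine Real.exp_le_exp.2 ?_
      have := mul_le_mul_of_nonneg_left hp2 hCb0
      linarith
    have h2 := M3_trunc hS hCbC
    have h3 : (2 : ℝ)⁻¹ ^ (S.l j) ≤ (2 : ℝ)⁻¹ ^ N0 :=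
      pow_le_pow_of_le_one (by norm_num) (by norm_num) (hS.l_ge j hj').1
    have hL0 : 0 ≤ Lam S lam := (Real.exp_pos _).le
    calc _ ≤ ((Real.exp (2 * Cb) * Lam S lam) * Real.exp 1) * ((2 : ℝ)⁻¹ ^ N0 * t j) := by
          refine mul_le_mul (mul_le_mul h1 h2 ?_ ?_) ?_ ?_ ?_
          · exact Finset.prod_nonneg fun i _ => by positivity
          · positivity
          · exact mul_le_mul_of_nonneg_right h3 (ht0 j)
          · have := ht0 j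
            positivity
          · positivity
      _ = Real.exp (2 * Cb + 1) * (2 : ℝ)⁻¹ ^ N0 * Lam S lam * t j := by
          rw [Real.exp_add]
          ring
  calc _ ≤ ∑ j ∈ range (S.J + 1), Real.exp (2 * Cb + 1) * (2 : ℝ)⁻¹ ^ N0 * Lam S lam * t j :=
        Finset.sum_le_sum hone
    _ = Real.exp (2 * Cb + 1) * (2 : ℝ)⁻¹ ^ N0 * Lam S lam * ∑ j ∈ range (S.J + 1), t j := by
        rw [Finset.mul_sum]
    _ ≤ Real.exp (2 * Cb + 1) * (2 : ℝ)⁻¹ ^ N0 * Lam S lam * 1 := by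
        refine mul_le_mul_of_nonneg_left ?_ ?_
        · simp_rw [ht]
          exact hS.trunc
        · have hL0 : 0 ≤ Lam S lam := (Real.exp_pos _).le
          positivity
    _ = _ := mul_one _

end Pool.Agent.LB
end

section

/-! TASK GD. The tilt on the good set. One block, `y = κ P_j`, `‖y‖ ≤ (lam+1) l/(8(lam+2)) ≤ l/8`: `‖Ex l y - e^y‖ ≤ ∑_{i>l} ‖y‖^i/i! ≤ 4^{-l} e^{4‖y‖}` (COPY `ExBound_tail` with 4 in place of 2), `‖e^y‖ ≥ e^{-‖y‖}`, so `‖Ex l y‖ = ‖e^y‖ (1 + ε)`, `|ε| ≤ 4^{-l} e^{5‖y‖} ≤ (e^{5/8}/4)^l ≤ 2^{-l}`.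
Product over `j ≤ J`: `∏ (1 ± 2^{-l_j})`, `∑_j 2^{-l_j} ≤ e^{-Ct} ≤ e^{-10}` (`TG.trunc`, `s_j ≥ 0`, `Ct ≥ 10`), so the product lies in `[1/2, 2]`; `∏ ‖e^{κ P_j}‖ = e^{κ x0}`.
`gd_uu`: `uu = ‖RT lam‖² ≤ 4 e^{2 lam x0}`, and `e^{2κ x0} ≤ 4 ‖RT κ‖²` for `κ = lam ± 1`. -/

set_option autoImplicit false

namespace Pool.Agent.LB

open Complex MeasureTheory Finset Pool.Agent.GH Pool.Agent.UH Pool.Agent.UV
open scoped Real ComplexConjugate

private theorem GD_tail (l : ℕ) (t : ℝ) (ht : 0 ≤ t) :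
    Real.exp t - ∑ m ∈ Finset.range (l + 1), t ^ m / (m.factorial : ℝ) ≤
      (4 : ℝ)⁻¹ ^ l * Real.exp (4 * t) := by
  have hs1 : Summable (fun m : ℕ => t ^ m / (m.factorial : ℝ)) := Real.summable_pow_div_factorial t
  have hs2 : Summable (fun m : ℕ => (4 * t) ^ m / (m.factorial : ℝ)) :=
    Real.summable_pow_div_factorial (4 * t)
  have he1 : Real.exp t = ∑' m : ℕ, t ^ m / (m.factorial : ℝ) := by
    rw [Real.exp_eq_exp_ℝ, NormedSpace.exp_eq_tsum_div]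
  have he2 : Real.exp (4 * t) = ∑' m : ℕ, (4 * t) ^ m / (m.factorial : ℝ) := by
    rw [Real.exp_eq_exp_ℝ, NormedSpace.exp_eq_tsum_div]
  have h1 := hs1.sum_add_tsum_nat_add (l + 1)
  have h2 := hs2.sum_add_tsum_nat_add (l + 1)
  have h3 : ∑' m : ℕ, t ^ (m + (l + 1)) / ((m + (l + 1)).factorial : ℝ) ≤
      ∑' m : ℕ, (4 : ℝ)⁻¹ ^ l * ((4 * t) ^ (m + (l + 1)) / ((m + (l + 1)).factorial : ℝ)) := by
    refine Summable.tsum_le_tsum ?_ ((summable_nat_add_iff (l + 1)).2 hs1)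
      (((summable_nat_add_iff (l + 1)).2 hs2).mul_left _)
    intro m
    rw [← mul_div_assoc]
    apply div_le_div_of_nonneg_right _ (by positivity)
    rw [mul_pow, ← mul_assoc]
    have h4 : (1 : ℝ) ≤ (4 : ℝ)⁻¹ ^ l * 4 ^ (m + (l + 1)) := by
      rw [show m + (l + 1) = l + (m + 1) by ring, pow_add, ← mul_assoc, ← mul_pow]
      norm_num
      exact one_le_pow₀ (by norm_num)
    have h5 : 0 ≤ t ^ (m + (l + 1)) := by positivity
    nlinarith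
  rw [tsum_mul_left] at h3
  have h6 : 0 ≤ ∑ m ∈ Finset.range (l + 1), (4 * t) ^ m / (m.factorial : ℝ) :=
    Finset.sum_nonneg fun m _ => by positivity
  rw [← he1] at h1
  rw [← he2] at h2
  have h7 : (0 : ℝ) ≤ (4 : ℝ)⁻¹ ^ l := by positivity
  calc Real.exp t - ∑ m ∈ Finset.range (l + 1), t ^ m / (m.factorial : ℝ)
      = ∑' m : ℕ, t ^ (m + (l + 1)) / ((m + (l + 1)).factorial : ℝ) := by linarith
    _ ≤ _ := h3
    _ ≤ (4 : ℝ)⁻¹ ^ l * Real.exp (4 * t) := by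
        apply mul_le_mul_of_nonneg_left _ h7
        linarith

private theorem GD_sub (l : ℕ) (z : ℂ) : ‖Ex l z - cexp z‖ ≤ (4 : ℝ)⁻¹ ^ l * Real.exp (4 * ‖z‖) := by
  rw [norm_sub_rev]
  exact (Complex.norm_exp_sub_sum_le_exp_norm_sub_sum z (l + 1)).trans
    (GD_tail l ‖z‖ (norm_nonneg z))

/-- one block: relative error `2^{-l}` -/
private theorem GD_block (l : ℕ) (z : ℂ) (hz : ‖z‖ ≤ l / 8) :
    (1 - (2 : ℝ)⁻¹ ^ l) * ‖cexp z‖ ≤ ‖Ex l z‖ ∧ ‖Ex l z‖ ≤ (1 + (2 : ℝ)⁻¹ ^ l) * ‖cexp z‖ := by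
  have h1 := GD_sub l z
  have h3 : Real.exp (-‖z‖) ≤ ‖cexp z‖ := by
    rw [Complex.norm_exp]
    apply Real.exp_le_exp.2
    have := Complex.abs_re_le_norm z
    have := neg_abs_le z.re
    linarith
  have h4 : Real.exp (4 * ‖z‖) = Real.exp (-‖z‖) * Real.exp (5 * ‖z‖) := by
    rw [← Real.exp_add]; congr 1; ring
  have h8 : Real.exp (5 / 8) ≤ 2 := by
    have h9 : Real.exp (5 / 8) ^ 8 ≤ 2 ^ 8 := by
      rw [← Real.exp_nat_mul]
      have h10 : Real.exp ((8 : ℕ) * (5 / 8)) = Real.exp 1 ^ 5 := by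
        rw [← Real.exp_nat_mul]; norm_num
      rw [h10]
      calc Real.exp 1 ^ 5 ≤ (2.7182818286 : ℝ) ^ 5 :=
            pow_le_pow_left₀ (Real.exp_pos _).le Real.exp_one_lt_d9.le 5
        _ ≤ 2 ^ 8 := by norm_num
    exact le_of_pow_le_pow_left₀ (by norm_num) (by norm_num) h9
  have h5 : (4 : ℝ)⁻¹ ^ l * Real.exp (5 * ‖z‖) ≤ (2 : ℝ)⁻¹ ^ l := by
    have h6 : Real.exp (5 * ‖z‖) ≤ 2 ^ l := by
      calc Real.exp (5 * ‖z‖) ≤ Real.exp (l * (5 / 8)) := Real.exp_le_exp.2 (by linarith)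
        _ = Real.exp (5 / 8) ^ l := by rw [Real.exp_nat_mul]
        _ ≤ 2 ^ l := pow_le_pow_left₀ (Real.exp_pos _).le h8 l
    calc (4 : ℝ)⁻¹ ^ l * Real.exp (5 * ‖z‖) ≤ (4 : ℝ)⁻¹ ^ l * 2 ^ l :=
          mul_le_mul_of_nonneg_left h6 (by positivity)
      _ = (2 : ℝ)⁻¹ ^ l := by rw [← mul_pow]; norm_num
  have h6 : ‖Ex l z - cexp z‖ ≤ (2 : ℝ)⁻¹ ^ l * ‖cexp z‖ := by
    calc ‖Ex l z - cexp z‖ ≤ (4 : ℝ)⁻¹ ^ l * Real.exp (4 * ‖z‖) := h1
      _ = ((4 : ℝ)⁻¹ ^ l * Real.exp (5 * ‖z‖)) * Real.exp (-‖z‖) := by rw [h4]; ring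
      _ ≤ (2 : ℝ)⁻¹ ^ l * ‖cexp z‖ :=
          mul_le_mul h5 h3 (Real.exp_pos _).le (by positivity)
  have h7 : ‖Ex l z‖ ≤ ‖cexp z‖ + ‖Ex l z - cexp z‖ := by
    calc ‖Ex l z‖ = ‖cexp z + (Ex l z - cexp z)‖ := by congr 1; ring
      _ ≤ _ := norm_add_le _ _
  have h9 : ‖cexp z‖ ≤ ‖Ex l z‖ + ‖Ex l z - cexp z‖ := by
    calc ‖cexp z‖ = ‖Ex l z - (Ex l z - cexp z)‖ := by congr 1; ring
      _ ≤ _ := norm_sub_le _ _
  constructor
  · linarith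
  · linarith

private theorem GD_prod_ge (s : Finset ℕ) (x : ℕ → ℝ) (h0 : ∀ j, 0 ≤ x j) (h1 : ∀ j, x j ≤ 1) :
    1 - ∑ j ∈ s, x j ≤ ∏ j ∈ s, (1 - x j) := by
  induction s using Finset.induction_on with
  | empty => simp
  | insert a s ha ih =>
    rw [Finset.sum_insert ha, Finset.prod_insert ha]
    have h2 : ∏ j ∈ s, (1 - x j) ≤ 1 :=
      Finset.prod_le_one (fun j _ => by linarith [h1 j]) (fun j _ => by linarith [h0 j])
    nlinarith [h0 a, h1 a]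

private theorem GD_prod_le (s : Finset ℕ) (x : ℕ → ℝ) (h0 : ∀ j, 0 ≤ x j) :
    ∏ j ∈ s, (1 + x j) ≤ Real.exp (∑ j ∈ s, x j) := by
  rw [Real.exp_sum]
  refine Finset.prod_le_prod (fun j _ => by linarith [h0 j]) fun j _ => ?_
  have := Real.add_one_le_exp (x j)
  linarith

private theorem GD_sum {S : BS} {Ct θ D1 : ℝ} {N0 : ℕ} (hS : TG S Ct θ D1 N0) :
    ∑ j ∈ range (S.J + 1), (2 : ℝ)⁻¹ ^ (S.l j) ≤ 1 / 2 := by
  have h1 : ∀ j ∈ range (S.J + 1), 2 * (2 : ℝ)⁻¹ ^ (S.l j) ≤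
      (2 : ℝ)⁻¹ ^ (S.l j) * Real.exp (Ct * (sR (S.R j) + 1)) := by
    intro j _
    have hs : 0 ≤ sR (S.R j) := by
      unfold sR
      exact Finset.sum_nonneg fun p _ => by positivity
    have h2 : (2 : ℝ) ≤ Real.exp (Ct * (sR (S.R j) + 1)) := by
      have h3 : (1 : ℝ) ≤ Ct * (sR (S.R j) + 1) := by nlinarith [hS.Ct_ge]
      have h4 := Real.add_one_le_exp (Ct * (sR (S.R j) + 1))
      linarith
    have h5 : (0 : ℝ) ≤ (2 : ℝ)⁻¹ ^ (S.l j) := by positivity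
    nlinarith
  have h2 := (Finset.sum_le_sum h1).trans hS.trunc
  rw [← Finset.mul_sum] at h2
  linarith

theorem gd_RT {S : BS} {Ct θ D1 : ℝ} {N0 : ℕ} (hS : TG S Ct θ D1 N0) {lam κ t : ℝ} (h0 : 0 ≤ lam)
    (hg : Gd S lam t) (hκ : |κ| ≤ lam + 1) :
    1 / 2 * Real.exp (κ * x0 S t) ≤ ‖RT S κ (nC (1 / 2 + t * I))‖ ∧
    ‖RT S κ (nC (1 / 2 + t * I))‖ ≤ 2 * Real.exp (κ * x0 S t) := by
  have hb : ∀ j ∈ range (S.J + 1),
      (1 - (2 : ℝ)⁻¹ ^ (S.l j)) * Real.exp (κ * (PS (S.R j) (nC (1 / 2 + t * I))).re) ≤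
        ‖Ex (S.l j) ((κ : ℂ) * PS (S.R j) (nC (1 / 2 + t * I)))‖ ∧
      ‖Ex (S.l j) ((κ : ℂ) * PS (S.R j) (nC (1 / 2 + t * I)))‖ ≤
        (1 + (2 : ℝ)⁻¹ ^ (S.l j)) * Real.exp (κ * (PS (S.R j) (nC (1 / 2 + t * I))).re) := by
    intro j hj
    have hj' : j ≤ S.J := Nat.lt_succ_iff.1 (Finset.mem_range.1 hj)
    have h1 := hg j hj'
    have h2 : ‖(κ : ℂ) * PS (S.R j) (nC (1 / 2 + t * I))‖ ≤ (S.l j : ℝ) / 8 := by
      rw [norm_mul, Complex.norm_real, Real.norm_eq_abs]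
      have hl : (0 : ℝ) ≤ S.l j := Nat.cast_nonneg _
      calc |κ| * ‖PS (S.R j) (nC (1 / 2 + t * I))‖ ≤ (lam + 2) * (S.l j / (8 * (lam + 2))) :=
            mul_le_mul (by linarith) h1 (norm_nonneg _) (by linarith)
        _ = (S.l j : ℝ) / 8 := by
            have : lam + 2 ≠ 0 := by linarith
            field_simp
    have h3 := GD_block (S.l j) _ h2
    rw [Complex.norm_exp, Complex.re_ofReal_mul] at h3
    exact h3
  have he : Real.exp (κ * x0 S t) = ∏ j ∈ range (S.J + 1),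
      Real.exp (κ * (PS (S.R j) (nC (1 / 2 + t * I))).re) := by
    rw [← Real.exp_sum, x0, Finset.mul_sum]
  have hx0 : ∀ j : ℕ, (0 : ℝ) ≤ (2 : ℝ)⁻¹ ^ (S.l j) := fun j => by positivity
  have hx1 : ∀ j : ℕ, (2 : ℝ)⁻¹ ^ (S.l j) ≤ 1 := fun j =>
    pow_le_one₀ (by norm_num) (by norm_num)
  have hs := GD_sum hS
  have hge := GD_prod_ge (range (S.J + 1)) (fun j => (2 : ℝ)⁻¹ ^ (S.l j)) hx0 hx1
  have hle := GD_prod_le (range (S.J + 1)) (fun j => (2 : ℝ)⁻¹ ^ (S.l j)) hx0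
  have he2 : Real.exp (∑ j ∈ range (S.J + 1), (2 : ℝ)⁻¹ ^ (S.l j)) ≤ 2 := by
    have h1 : Real.exp (1 / 2) ≤ 2 := by
      have h9 : Real.exp (1 / 2) ^ 2 ≤ 2 ^ 2 := by
        rw [← Real.exp_nat_mul]
        norm_num
        linarith [Real.exp_one_lt_d9]
      exact le_of_pow_le_pow_left₀ (by norm_num) (by norm_num) h9
    exact (Real.exp_le_exp.2 hs).trans h1
  have hpos : 0 ≤ ∏ j ∈ range (S.J + 1),
      Real.exp (κ * (PS (S.R j) (nC (1 / 2 + t * I))).re) :=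
    Finset.prod_nonneg fun j _ => (Real.exp_pos _).le
  rw [he, RT, norm_prod]
  constructor
  · calc 1 / 2 * ∏ j ∈ range (S.J + 1), Real.exp (κ * (PS (S.R j) (nC (1 / 2 + t * I))).re)
        ≤ (∏ j ∈ range (S.J + 1), (1 - (2 : ℝ)⁻¹ ^ (S.l j))) *
          ∏ j ∈ range (S.J + 1), Real.exp (κ * (PS (S.R j) (nC (1 / 2 + t * I))).re) :=
          mul_le_mul_of_nonneg_right (by linarith) hpos
      _ = ∏ j ∈ range (S.J + 1), ((1 - (2 : ℝ)⁻¹ ^ (S.l j)) *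
          Real.exp (κ * (PS (S.R j) (nC (1 / 2 + t * I))).re)) := by
          rw [Finset.prod_mul_distrib]
      _ ≤ _ := Finset.prod_le_prod
          (fun j _ => mul_nonneg (by linarith [hx1 j]) (Real.exp_pos _).le)
          (fun j hj => (hb j hj).1)
  · calc ∏ j ∈ range (S.J + 1), ‖Ex (S.l j) ((κ : ℂ) * PS (S.R j) (nC (1 / 2 + t * I)))‖
        ≤ ∏ j ∈ range (S.J + 1), ((1 + (2 : ℝ)⁻¹ ^ (S.l j)) *
          Real.exp (κ * (PS (S.R j) (nC (1 / 2 + t * I))).re)) :=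
          Finset.prod_le_prod (fun j _ => norm_nonneg _) (fun j hj => (hb j hj).2)
      _ = (∏ j ∈ range (S.J + 1), (1 + (2 : ℝ)⁻¹ ^ (S.l j))) *
          ∏ j ∈ range (S.J + 1), Real.exp (κ * (PS (S.R j) (nC (1 / 2 + t * I))).re) := by
          rw [Finset.prod_mul_distrib]
      _ ≤ _ := mul_le_mul_of_nonneg_right (hle.trans he2) hpos

theorem gd_uu {S : BS} {Ct θ D1 : ℝ} {N0 : ℕ} (hS : TG S Ct θ D1 N0) {lam t : ℝ} (h0 : 0 < lam)
    (hg : Gd S lam t) :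
    uu S lam t ≤ 4 * Real.exp (2 * lam * x0 S t) ∧
    Real.exp (2 * x0 S t) * uu S lam t ≤ 16 * ‖RT S (lam + 1) (nC (1 / 2 + t * I))‖ ^ 2 ∧
    Real.exp (-(2 * x0 S t)) * uu S lam t ≤ 16 * ‖RT S (lam - 1) (nC (1 / 2 + t * I))‖ ^ 2 := by
  have h1 := (gd_RT hS h0.le hg (κ := lam) (by rw [abs_of_pos h0]; linarith)).2
  have h2 := (gd_RT hS h0.le hg (κ := lam + 1) (by rw [abs_of_pos (by linarith)])).1
  have h3 := (gd_RT hS h0.le hg (κ := lam - 1) (by rw [abs_le]; constructor <;> linarith)).1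
  have hu : uu S lam t ≤ 4 * Real.exp (2 * lam * x0 S t) := by
    have h4 : ‖RT S lam (nC (1 / 2 + t * I))‖ ^ 2 ≤ (2 * Real.exp (lam * x0 S t)) ^ 2 :=
      pow_le_pow_left₀ (norm_nonneg _) h1 2
    have h5 : Real.exp (2 * lam * x0 S t) = Real.exp (lam * x0 S t) ^ 2 := by
      rw [← Real.exp_nat_mul]; congr 1; push_cast; ring
    rw [uu, h5]
    calc _ ≤ _ := h4
      _ = _ := by ring
  have hk : ∀ κ : ℝ, 1 / 2 * Real.exp (κ * x0 S t) ≤ ‖RT S κ (nC (1 / 2 + t * I))‖ →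
      Real.exp (2 * κ * x0 S t) ≤ 4 * ‖RT S κ (nC (1 / 2 + t * I))‖ ^ 2 := by
    intro κ hκ
    have h4 : (1 / 2 * Real.exp (κ * x0 S t)) ^ 2 ≤ ‖RT S κ (nC (1 / 2 + t * I))‖ ^ 2 :=
      pow_le_pow_left₀ (by positivity) hκ 2
    have h5 : Real.exp (2 * κ * x0 S t) = Real.exp (κ * x0 S t) ^ 2 := by
      rw [← Real.exp_nat_mul]; congr 1; push_cast; ring
    rw [h5]
    nlinarith
  refine ⟨hu, ?_, ?_⟩
  · have h4 := hk _ h2
    calc Real.exp (2 * x0 S t) * uu S lam t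
        ≤ Real.exp (2 * x0 S t) * (4 * Real.exp (2 * lam * x0 S t)) :=
          mul_le_mul_of_nonneg_left hu (Real.exp_pos _).le
      _ = 4 * Real.exp (2 * (lam + 1) * x0 S t) := by
          rw [show 2 * (lam + 1) * x0 S t = 2 * x0 S t + 2 * lam * x0 S t by ring, Real.exp_add]
          ring
      _ ≤ _ := by linarith
  · have h4 := hk _ h3
    calc Real.exp (-(2 * x0 S t)) * uu S lam t
        ≤ Real.exp (-(2 * x0 S t)) * (4 * Real.exp (2 * lam * x0 S t)) :=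
          mul_le_mul_of_nonneg_left hu (Real.exp_pos _).le
      _ = 4 * Real.exp (2 * (lam - 1) * x0 S t) := by
          rw [show 2 * (lam - 1) * x0 S t = -(2 * x0 S t) + 2 * lam * x0 S t by ring,
            Real.exp_add]
          ring
      _ ≤ _ := by linarith

private theorem GD_PS_continuous (R : Finset ℕ) (hR : ∀ p ∈ R, p ≠ 0) :
    Continuous fun t : ℝ => PS R (nC (1 / 2 + t * I)) := by
  unfold PS
  refine continuous_finsetSum _ fun p hp => ?_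
  have hp0 : (p : ℂ) ≠ 0 := by exact_mod_cast hR p hp
  have h : (fun t : ℝ => nC (1 / 2 + t * I) p) =
      fun t : ℝ => (p : ℂ) ^ (-(1 / 2 + t * I)) := by
    funext t; exact nC_apply _ (hR p hp)
  rw [h]
  refine Continuous.const_cpow ?_ (Or.inl hp0)
  fun_prop

theorem uu_continuous (S : BS) (lam : ℝ) (hR : ∀ j ≤ S.J, ∀ p ∈ S.R j, p ≠ 0) :
    Continuous (uu S lam) := by
  unfold uu RT
  refine Continuous.pow (Continuous.norm ?_) 2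
  refine continuous_finsetProd _ fun j hj => ?_
  have hj' : j ≤ S.J := Nat.lt_succ_iff.1 (Finset.mem_range.1 hj)
  exact (continuous_Ex (S.l j)).comp (continuous_const.mul (GD_PS_continuous _ (hR j hj')))

theorem x0_continuous (S : BS) (hR : ∀ j ≤ S.J, ∀ p ∈ S.R j, p ≠ 0) : Continuous (x0 S) := by
  unfold x0
  refine continuous_finsetSum _ fun j hj => ?_
  have hj' : j ≤ S.J := Nat.lt_succ_iff.1 (Finset.mem_range.1 hj)
  exact Complex.continuous_re.comp (GD_PS_continuous _ (hR j hj'))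

theorem EE_measurable (S : BS) (lam η : ℝ) (hR : ∀ j ≤ S.J, ∀ p ∈ S.R j, p ≠ 0) :
    MeasurableSet (EE S lam η) := by
  have h : EE S lam η = Dm η S.T ∩ ⋂ j : ℕ, ⋂ _ : j ≤ S.J,
      {t : ℝ | ‖PS (S.R j) (nC (1 / 2 + t * I))‖ ≤ S.l j / (8 * (lam + 2))} := by
    ext t
    simp only [EE, Gd, Set.mem_ofPred_eq, Set.mem_inter_iff, Set.mem_iInter]
  rw [h]
  refine IsClosed.measurableSet ?_
  refine IsClosed.inter isClosed_Icc (isClosed_iInter fun j => isClosed_iInter fun hj => ?_)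
  exact isClosed_le (GD_PS_continuous _ (hR j hj)).norm continuous_const

end Pool.Agent.LB
end

section

/-! TASK M4. The size of `ER`.
`ER_upper`: `full5` with `A = lam`, `M = ⌈T^{1/10}⌉₊` (`P_lt`), `y = b = s = 0`, `c_p = lam p^{-1/2}`; `RT_nX` with `z = 0`: the exponent is `∑_{p∈P} lam²/p`.
`ER_lower`: independence (`indep_blocks`) and `block5_low` with `C = C(lam)`: `ER = ∏_j ∫ ‖Ex‖² ≥ exp(lam² ∑_P 1/p - C ∑ p^{-2}) ∏_j (1 - x_j)`, `x_j = 2^{-l_j} exp(C(s_j+1)) ≤ e^{-(Ct-C)} 2^{-l_j} exp(Ct(s_j+1))`, so `∑ x_j ≤ e^{-(Ct - C)} ≤ 1/2` for `Ct ≥ C + 1`, `∏(1-x_j) ≥ 1/2`. `Lam ≥ 1` is clear.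
`Lam_ge`: `∑_{p<M} 1/p ≥ log log M - C'` (`mertens_inv` with `y = 2`) for `M = ⌊T⌋₊`, and `∑_{p<M, p∉P} 1/p ≤ D1 + 5 log(1/θ)` (`TG.out`): `Lam ≥ exp(lam² (log log T - C'' - D1 - 5 log(1/θ)))`.
`Lam_le`: `∑_P 1/p ≤ ∑_{p ≤ T} 1/p ≤ log log T + C'`. -/

set_option autoImplicit false

namespace Pool.Agent.LB

open Complex MeasureTheory Finset Pool.Agent.GH Pool.Agent.UH Pool.Agent.UV
open scoped Real ComplexConjugate

private theorem M4_mert : ∃ C : ℝ, 0 ≤ C ∧ ∀ T : ℝ, Real.exp 1000 ≤ T →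
    |∑ p ∈ Nat.primesBelow (⌊T⌋₊ + 1), 1 / (p : ℝ) - Real.log (Real.log T)| ≤ C := by
  obtain ⟨C, hC0, hC⟩ := mertens_inv
  have hl2 : 0 < Real.log 2 := Real.log_pos (by norm_num)
  refine ⟨1 / 2 + C / Real.log 2 + |Real.log (Real.log 2)| + Real.log 2, by positivity,
    fun T hT => ?_⟩
  have hT4 : (4 : ℝ) ≤ T := by
    have := Real.add_one_le_exp (1000 : ℝ)
    linarith
  have hT0 : 0 < T := by linarith
  obtain ⟨z, hz⟩ : ∃ z : ℕ, z = ⌊T⌋₊ := ⟨_, rfl⟩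
  rw [← hz]
  have hzT : (z : ℝ) ≤ T := by rw [hz]; exact Nat.floor_le hT0.le
  have hTz : T < z + 1 := by rw [hz]; exact Nat.lt_floor_add_one T
  have hz2' : T / 2 ≤ z := by linarith
  have hz2 : 2 ≤ z := by
    have : (2 : ℝ) ≤ z := by linarith
    exact_mod_cast this
  have hz2r : (2 : ℝ) ≤ z := by exact_mod_cast hz2
  have h1 := hC 2 z le_rfl hz2
  have hset : Nat.primesBelow (z + 1) = insert 2 ((Finset.Ioc 2 z).filter Nat.Prime) := by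
    ext p
    rw [Nat.mem_primesBelow, Finset.mem_insert, Finset.mem_filter, Finset.mem_Ioc]
    constructor
    · rintro ⟨h1, h2⟩
      rcases h2.two_le.eq_or_lt with h3 | h3
      · left; exact h3.symm
      · right; exact ⟨⟨h3, by omega⟩, h2⟩
    · rintro (h1 | ⟨⟨h1, h2⟩, h3⟩)
      · subst h1; exact ⟨by omega, Nat.prime_two⟩
      · exact ⟨by omega, h3⟩
  have hsum : ∑ p ∈ Nat.primesBelow (z + 1), 1 / (p : ℝ) =
      1 / 2 + ∑ p ∈ (Finset.Ioc 2 z).filter Nat.Prime, 1 / (p : ℝ) := by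
    rw [hset, Finset.sum_insert (by simp)]
    norm_num
  rw [hsum]
  have hlT : 0 < Real.log T := Real.log_pos (by linarith)
  have hlz : 0 < Real.log z := Real.log_pos (by linarith)
  have h2 : Real.log z ≤ Real.log T := Real.log_le_log (by linarith) hzT
  have h3 : Real.log T / 2 ≤ Real.log z := by
    have e1 : Real.log (T / 2) ≤ Real.log z := Real.log_le_log (by linarith) hz2'
    rw [Real.log_div (by linarith) (by norm_num)] at e1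
    have e2 : Real.log 4 ≤ Real.log T := Real.log_le_log (by norm_num) hT4
    have e3 : Real.log 4 = 2 * Real.log 2 := by
      rw [show (4 : ℝ) = 2 ^ 2 by norm_num, Real.log_pow]; norm_num
    linarith
  have h4 : Real.log (Real.log z) ≤ Real.log (Real.log T) := Real.log_le_log hlz h2
  have h5 : Real.log (Real.log T) - Real.log 2 ≤ Real.log (Real.log z) := by
    rw [← Real.log_div hlT.ne' (by norm_num)]
    exact Real.log_le_log (by linarith) h3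
  rw [Real.log_div hlz.ne' (by exact_mod_cast hl2.ne')] at h1
  have h6 := abs_le.1 h1
  have h7 := le_abs_self (Real.log (Real.log 2))
  have h8 := neg_abs_le (Real.log (Real.log 2))
  push_cast at h6
  clear h1
  rw [abs_le]
  constructor
  · linarith [h6.1, h6.2]
  · linarith [h6.1, h6.2]

theorem one_le_Lam (S : BS) (lam : ℝ) : 1 ≤ Lam S lam := by
  unfold Lam
  exact Real.one_le_exp (mul_nonneg (sq_nonneg _)
    (Finset.sum_nonneg fun p _ => by positivity))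

private theorem M4_exp_Lam {S : BS} {lam : ℝ} (h0 : 0 < lam) (a b : ℝ)
    (h : a + Real.log (Real.log S.T) ≤ b + ∑ p ∈ S.P, 1 / (p : ℝ)) (hT : 1 < S.T) :
    Real.exp (lam ^ 2 * a) * Real.log S.T ^ (lam ^ 2) ≤ Real.exp (lam ^ 2 * b) * Lam S lam := by
  have hlT : 0 < Real.log S.T := Real.log_pos hT
  unfold Lam
  rw [Real.rpow_def_of_pos hlT, ← Real.exp_add, ← Real.exp_add]
  apply Real.exp_le_exp.2
  have h1 : 0 < lam ^ 2 := by positivity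
  nlinarith

private theorem M4_prod (s : Finset ℕ) (x : ℕ → ℝ) (h0 : ∀ j ∈ s, 0 ≤ x j) (h1 : ∀ j ∈ s, x j ≤ 1) :
    1 - ∑ j ∈ s, x j ≤ ∏ j ∈ s, (1 - x j) := by
  induction s using Finset.induction_on with
  | empty => simp
  | insert a s ha ih =>
    have ih' := ih (fun j hj => h0 j (Finset.mem_insert_of_mem hj))
      (fun j hj => h1 j (Finset.mem_insert_of_mem hj))
    rw [Finset.sum_insert ha, Finset.prod_insert ha]
    have ha0 := h0 a (Finset.mem_insert_self a s)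
    have ha1 := h1 a (Finset.mem_insert_self a s)
    have hs : 0 ≤ ∑ j ∈ s, x j :=
      Finset.sum_nonneg fun j hj => h0 j (Finset.mem_insert_of_mem hj)
    have h2 := mul_le_mul_of_nonneg_left ih' (by linarith : 0 ≤ 1 - x a)
    nlinarith [mul_nonneg ha0 hs]

theorem ER_bounds (lam : ℝ) (h0 : 0 < lam) : ∃ C0 c K : ℝ, 0 < c ∧ 1 ≤ K ∧
    ∀ {S : BS} {Ct θ D1 : ℝ} {N0 : ℕ}, TG S Ct θ D1 N0 → C0 ≤ Ct →
    c * Lam S lam ≤ ER S lam ∧ ER S lam ≤ K * Lam S lam := by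
  obtain ⟨C0, K, hK, hU⟩ := full5 lam h0.le
  obtain ⟨C, hC, hL⟩ := block5_low lam h0.le
  have hsm : Summable fun n : ℕ => (n : ℝ) ^ (-2 : ℝ) :=
    Real.summable_nat_rpow.2 (by norm_num)
  refine ⟨max C0 (C + 1), Real.exp (-(C * ∑' n : ℕ, (n : ℝ) ^ (-2 : ℝ))) / 2, K, by positivity, hK,
    ?_⟩
  intro S Ct θ D1 N0 hS hCt
  have hC0 : C0 ≤ Ct := (le_max_left _ _).trans hCt
  have hC1 : C + 1 ≤ Ct := (le_max_right _ _).trans hCt
  -- the coefficients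
  obtain ⟨c, hc⟩ : ∃ c : ℕ → ℂ, c = fun p : ℕ => (lam : ℂ) * (p : ℂ) ^ (-(1 / 2 + (0 : ℂ))) :=
    ⟨_, rfl⟩
  have hcn : ∀ p : ℕ, p.Prime → ‖c p‖ = lam * (p : ℝ) ^ (-(1 / 2) : ℝ) := by
    intro p hp
    rw [hc]
    simp only
    rw [norm_mul, Complex.norm_real, Real.norm_of_nonneg h0.le,
      Complex.norm_natCast_cpow_of_pos hp.pos]
    simp
  have hcn2 : ∀ p : ℕ, p.Prime → ‖c p‖ ^ 2 = lam ^ 2 * (1 / (p : ℝ)) := by
    intro p hp
    have hp0 : (0 : ℝ) ≤ p := Nat.cast_nonneg p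
    have e1 : ((p : ℝ) ^ (-(1 / 2) : ℝ)) ^ 2 = 1 / (p : ℝ) := by
      rw [← Real.rpow_natCast ((p : ℝ) ^ (-(1 / 2) : ℝ)) 2, ← Real.rpow_mul hp0]
      have : (-(1 / 2) : ℝ) * ((2 : ℕ) : ℝ) = -1 := by norm_num
      rw [this, Real.rpow_neg_one, one_div]
    rw [hcn p hp, mul_pow, e1]
  have hER : ER S lam = ∫ w, ∏ j ∈ range (S.J + 1), ‖Ex (S.l j) (∑ p ∈ S.R j, c p * X p w)‖ ^ 2 ∂mu := by
    unfold ER
    refine integral_congr_ae (Filter.Eventually.of_forall fun w => ?_)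
    simp only
    rw [RT_nX hS, norm_prod, ← Finset.prod_pow, hc]
  constructor
  · -- the lower bound
    have hind : ER S lam = ∏ j ∈ range (S.J + 1), ∫ w, ‖Ex (S.l j) (∑ p ∈ S.R j, c p * X p w)‖ ^ 2 ∂mu := by
      rw [hER]
      refine indep_blocks (range (S.J + 1)) S.R ?_ _ ?_ ?_
      · intro i hi j hj hij
        exact hS.disj i (by simpa [Nat.lt_succ_iff] using hi) j (by simpa [Nat.lt_succ_iff] using hj) hij
      · intro j _
        refine Continuous.measurable ?_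
        refine (Continuous.norm ?_).pow 2
        exact (continuous_Ex _).comp (continuous_finsetSum _ fun p _ =>
          continuous_const.mul (continuous_X p))
      · intro j _ w w' h
        have : ∀ p ∈ S.R j, c p * X p w = c p * X p w' := by
          intro p hp
          unfold X
          rw [h p hp]
        rw [Finset.sum_congr rfl this]
    have hblock : ∀ j ∈ range (S.J + 1),
        Real.exp (∑ p ∈ S.R j, ‖c p‖ ^ 2 - C * ∑ p ∈ S.R j, (p : ℝ) ^ (-2 : ℝ)) *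
        (1 - (2 : ℝ)⁻¹ ^ (S.l j) * Real.exp (C * (sR (S.R j) + 1))) ≤
        ∫ w, ‖Ex (S.l j) (∑ p ∈ S.R j, c p * X p w)‖ ^ 2 ∂mu := by
      intro j hj
      have hj' : j ≤ S.J := by simpa [Nat.lt_succ_iff] using hj
      apply hL
      intro p hp
      have hpp := (hS.prime j hj' p hp).1
      exact ⟨hpp, (hcn p hpp).le⟩
    have hs0 : ∀ j, 0 ≤ sR (S.R j) := fun j => Finset.sum_nonneg fun p _ => by positivity
    have hx : ∀ j, (2 : ℝ)⁻¹ ^ (S.l j) * Real.exp (C * (sR (S.R j) + 1)) ≤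
        1 / 2 * ((2 : ℝ)⁻¹ ^ (S.l j) * Real.exp (Ct * (sR (S.R j) + 1))) := by
      intro j
      have e1 : Real.exp (C * (sR (S.R j) + 1)) ≤ 1 / 2 * Real.exp (Ct * (sR (S.R j) + 1)) := by
        have e2 : C * (sR (S.R j) + 1) ≤ Ct * (sR (S.R j) + 1) - 1 := by
          nlinarith [hs0 j]
        have e3 : Real.exp (-1) ≤ 1 / 2 := by
          rw [Real.exp_neg]
          rw [inv_eq_one_div]
          apply one_div_le_one_div_of_le (by norm_num)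
          have := Real.add_one_le_exp (1 : ℝ)
          linarith
        calc Real.exp (C * (sR (S.R j) + 1)) ≤ Real.exp (Ct * (sR (S.R j) + 1) - 1) :=
              Real.exp_le_exp.2 e2
          _ = Real.exp (-1) * Real.exp (Ct * (sR (S.R j) + 1)) := by
              rw [← Real.exp_add]; congr 1; ring
          _ ≤ _ := mul_le_mul_of_nonneg_right e3 (Real.exp_pos _).le
      calc (2 : ℝ)⁻¹ ^ (S.l j) * Real.exp (C * (sR (S.R j) + 1)) ≤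
            (2 : ℝ)⁻¹ ^ (S.l j) * (1 / 2 * Real.exp (Ct * (sR (S.R j) + 1))) :=
            mul_le_mul_of_nonneg_left e1 (by positivity)
        _ = _ := by ring
    have hxs : ∑ j ∈ range (S.J + 1), (2 : ℝ)⁻¹ ^ (S.l j) * Real.exp (C * (sR (S.R j) + 1)) ≤ 1 / 2 := by
      refine (Finset.sum_le_sum fun j _ => hx j).trans ?_
      rw [← Finset.mul_sum]
      have := hS.trunc
      linarith
    have hx1 : ∀ j ∈ range (S.J + 1),
        (2 : ℝ)⁻¹ ^ (S.l j) * Real.exp (C * (sR (S.R j) + 1)) ≤ 1 := by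
      intro j hj
      have := Finset.single_le_sum (f := fun j =>
        (2 : ℝ)⁻¹ ^ (S.l j) * Real.exp (C * (sR (S.R j) + 1))) (fun i _ => by positivity) hj
      linarith
    have hprod : 1 / 2 ≤ ∏ j ∈ range (S.J + 1),
        (1 - (2 : ℝ)⁻¹ ^ (S.l j) * Real.exp (C * (sR (S.R j) + 1))) := by
      have h1 := M4_prod (range (S.J + 1)) (fun j =>
        (2 : ℝ)⁻¹ ^ (S.l j) * Real.exp (C * (sR (S.R j) + 1))) (fun j _ => by positivity) hx1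
      linarith
    have hsum2 : ∑ p ∈ S.P, (p : ℝ) ^ (-2 : ℝ) ≤ ∑' n : ℕ, (n : ℝ) ^ (-2 : ℝ) :=
      hsm.sum_le_tsum _ (fun n _ => by positivity)
    have hexp : Real.exp (-(C * ∑' n : ℕ, (n : ℝ) ^ (-2 : ℝ))) * Lam S lam ≤
        ∏ j ∈ range (S.J + 1),
          Real.exp (∑ p ∈ S.R j, ‖c p‖ ^ 2 - C * ∑ p ∈ S.R j, (p : ℝ) ^ (-2 : ℝ)) := by
      rw [← Real.exp_sum, Finset.sum_sub_distrib, ← Finset.mul_sum,
        ← sum_P hS (fun p => (p : ℝ) ^ (-2 : ℝ)), ← sum_P hS (fun p => ‖c p‖ ^ 2),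
        Finset.sum_congr rfl (fun p hp => hcn2 p (P_prime hS hp).1), ← Finset.mul_sum]
      unfold Lam
      rw [← Real.exp_add]
      apply Real.exp_le_exp.2
      have := mul_le_mul_of_nonneg_left hsum2 hC
      linarith
    rw [hind]
    refine le_trans ?_ (Finset.prod_le_prod (fun j hj => ?_) hblock)
    · rw [Finset.prod_mul_distrib]
      calc Real.exp (-(C * ∑' n : ℕ, (n : ℝ) ^ (-2 : ℝ))) / 2 * Lam S lam =
          (Real.exp (-(C * ∑' n : ℕ, (n : ℝ) ^ (-2 : ℝ))) * Lam S lam) * (1 / 2) := by ring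
        _ ≤ _ := mul_le_mul hexp hprod (by norm_num)
            (Finset.prod_nonneg fun j _ => (Real.exp_pos _).le)
    · have := hx1 j hj
      exact mul_nonneg (Real.exp_pos _).le (by linarith)
  · -- the upper bound
    have hM := Nat.le_ceil (S.T ^ (1 / 10 : ℝ))
    have hsub := P_lt hS hM
    obtain ⟨M, hMdef⟩ : ∃ M : ℕ, M = ⌈S.T ^ (1 / 10 : ℝ)⌉₊ := ⟨_, rfl⟩
    rw [← hMdef] at hsub
    have h1 := hU hS hC0 M hsub (fun _ => 0) (fun _ => 0) (fun _ => 0) c (by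
      intro p hp
      have hp' := Nat.prime_of_mem_primesBelow hp
      refine ⟨le_rfl, by positivity, by rw [norm_zero]; positivity,
        by rw [norm_zero]; positivity, fun _ => (hcn p hp').le⟩)
    have h2 : ER S lam = ∫ w, (∏ p ∈ Nat.primesBelow M, ‖(1 - ((0 : ℝ) : ℂ) * X p w)⁻¹‖ ^ 2) *
      (∏ p ∈ Nat.primesBelow M, ‖1 - (0 : ℂ) * X p w‖ ^ 2) *
      Real.exp (2 * (∑ p ∈ Nat.primesBelow M, (0 : ℂ) * X p w).re) *
      (∏ j ∈ range (S.J + 1), ‖Ex (S.l j) (∑ p ∈ S.R j, c p * X p w)‖ ^ 2) ∂mu := by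
      rw [hER]
      refine integral_congr_ae (Filter.Eventually.of_forall fun w => ?_)
      simp
    rw [h2]
    refine h1.trans (le_of_eq ?_)
    congr 1
    unfold Lam
    congr 1
    rw [Finset.mul_sum]
    have h3 : ∀ p ∈ Nat.primesBelow M, ‖((0 : ℝ) : ℂ) - 0 + 0 + (if p ∈ S.P then c p else 0)‖ ^ 2 =
        if p ∈ S.P then lam ^ 2 * (1 / (p : ℝ)) else 0 := by
      intro p hp
      have hp' := Nat.prime_of_mem_primesBelow hp
      by_cases hpP : p ∈ S.P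
      · rw [if_pos hpP, if_pos hpP, ← hcn2 p hp']
        simp
      · rw [if_neg hpP, if_neg hpP]
        simp
    rw [Finset.sum_congr rfl h3, ← Finset.sum_filter]
    congr 1
    ext p
    rw [Finset.mem_filter]
    exact ⟨fun h => h.2, fun h => ⟨hsub h, h⟩⟩

theorem Lam_ge (lam : ℝ) (h0 : 0 < lam) : ∃ c : ℝ, 0 < c ∧
    ∀ {S : BS} {Ct θ D1 : ℝ} {N0 : ℕ}, TG S Ct θ D1 N0 →
    c * Real.exp (-(lam ^ 2 * (D1 + 5 * Real.log (1 / θ)))) * Real.log S.T ^ (lam ^ 2) ≤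
      Lam S lam := by
  obtain ⟨C, hC0, hC⟩ := M4_mert
  refine ⟨Real.exp (-(lam ^ 2 * C)), Real.exp_pos _, ?_⟩
  intro S Ct θ D1 N0 hS
  have hT4 : (4 : ℝ) ≤ S.T := by
    have := Real.add_one_le_exp (1000 : ℝ)
    linarith [hS.T_ge]
  have hM : (((⌊S.T⌋₊ + 1 : ℕ)) : ℝ) ≤ S.T ^ 2 := by
    push_cast
    have := Nat.floor_le (by linarith : 0 ≤ S.T)
    nlinarith
  have h1 := hS.out _ hM
  have h2 := (abs_le.1 (hC S.T hS.T_ge)).1
  have h3 : ∑ p ∈ Nat.primesBelow (⌊S.T⌋₊ + 1), 1 / (p : ℝ) ≤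
      ∑ p ∈ Nat.primesBelow (⌊S.T⌋₊ + 1) \ S.P, 1 / (p : ℝ) + ∑ p ∈ S.P, 1 / (p : ℝ) := by
    rw [← Finset.sum_inter_add_sum_sdiff (Nat.primesBelow (⌊S.T⌋₊ + 1)) S.P, add_comm]
    have e1 : ∑ p ∈ Nat.primesBelow (⌊S.T⌋₊ + 1) ∩ S.P, 1 / (p : ℝ) ≤ ∑ p ∈ S.P, 1 / (p : ℝ) :=
      Finset.sum_le_sum_of_subset_of_nonneg Finset.inter_subset_right fun p _ _ => by positivity
    linarith
  have h4 := M4_exp_Lam h0 (-(C + (D1 + 5 * Real.log (1 / θ)))) 0 (by linarith) (by linarith)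
  rw [mul_zero, Real.exp_zero, one_mul] at h4
  refine le_trans (le_of_eq ?_) h4
  rw [← Real.exp_add]
  congr 2
  ring

theorem Lam_le (lam : ℝ) (h0 : 0 < lam) : ∃ K : ℝ, 1 ≤ K ∧
    ∀ {S : BS} {Ct θ D1 : ℝ} {N0 : ℕ}, TG S Ct θ D1 N0 →
    Lam S lam ≤ K * Real.log S.T ^ (lam ^ 2) := by
  obtain ⟨C, hC0, hC⟩ := M4_mert
  refine ⟨Real.exp (lam ^ 2 * C), Real.one_le_exp (by positivity), ?_⟩
  intro S Ct θ D1 N0 hS
  have hT4 : (4 : ℝ) ≤ S.T := by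
    have := Real.add_one_le_exp (1000 : ℝ)
    linarith [hS.T_ge]
  have hM : S.T ^ (1 / 10 : ℝ) ≤ (((⌊S.T⌋₊ + 1 : ℕ)) : ℝ) := by
    have e1 : S.T ^ (1 / 10 : ℝ) ≤ S.T ^ (1 : ℝ) :=
      Real.rpow_le_rpow_of_exponent_le (by linarith) (by norm_num)
    rw [Real.rpow_one] at e1
    push_cast
    exact e1.trans (Nat.lt_floor_add_one S.T).le
  have h1 : ∑ p ∈ S.P, 1 / (p : ℝ) ≤ ∑ p ∈ Nat.primesBelow (⌊S.T⌋₊ + 1), 1 / (p : ℝ) :=
    Finset.sum_le_sum_of_subset_of_nonneg (P_lt hS hM) fun p _ _ => by positivity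
  have h2 := (abs_le.1 (hC S.T hS.T_ge)).2
  have hlT : 0 < Real.log S.T := Real.log_pos (by linarith)
  unfold Lam
  rw [Real.rpow_def_of_pos hlT, ← Real.exp_add]
  apply Real.exp_le_exp.2
  have h3 : 0 < lam ^ 2 := by positivity
  nlinarith

end Pool.Agent.LB
end

section

/-! TASK P4. The coefficients of the tilt and of its product with the mollifiers. `Y = ⌊T^{1/100}⌋₊`.
`rp_exists`: let `Pol Q B f` mean: there is `r : ℕ → ℝ` with finite support in `1 ≤ n ≤ Q`, `∑ |r| ≤ B`, `f χ = ∑ r(n) χ(n)` for all `χ`. `PS R χ`: `r = 1_R`, `Q = N`, `B = #R ≤ N`. Products: `Pol Q B f`, `Pol Q' B' g` give `Pol (QQ') (BB') (fg)` (convolution, `χ` completely multiplicative), so `PS^i`: `Pol (N^i) (N^i)`, `Ex l (κ PS)`: `Pol (N^l) (e^{|κ|} N^l)`;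
 product over the blocks: `Q = B = T^{7θ³}` (`TG.len`, `|κ| ≤ Ct`), and `7θ³ ≤ 7/1000 ≤ 1/100`.
`cv_support`: `n = ab`, `a ≤ T^{9/20}` (`am_zero`), `b ≤ T^{7θ³} ≤ T^{7/1000}`: `n ≤ T^{457/1000}`. The sums: `∑_n |cv f g n| ≤ (∑|f|)(∑|g|)`, `∑_n |cv f g n|/n ≤ (∑ |f|/n)(∑ |g|/n)`; `∑ |am|/n ≤ 1 + log T`, `∑ |am| ≤ T^{9/20}`.
`DPo_bt`: `∑_n (cv f g)(n) χ(n) = (∑ f χ)(∑ g χ)` for finitely supported `f, g` (all `n` with `cv ≠ 0` are in `GT T` as `457/1000 < 23/50`).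
`bt_log`: `log n = log a + log b` for `n = ab`. -/

set_option autoImplicit false

namespace Pool.Agent.LB

open Complex MeasureTheory Finset Pool.Agent.GH Pool.Agent.UH Pool.Agent.UV
open scoped Real ComplexConjugate

/-! ### Dirichlet polynomials with a length and an `l¹` bound -/

private def P4Pol (Q B : ℝ) (f : (ℕ →*₀ ℂ) → ℂ) : Prop :=
  ∃ (ι : Type) (F : Finset ι) (c : ι → ℝ) (m : ι → ℕ),
    (∀ i ∈ F, m i ≠ 0 ∧ (m i : ℝ) ≤ Q) ∧ ∑ i ∈ F, |c i| ≤ B ∧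
    ∀ χ, f χ = ∑ i ∈ F, ((c i : ℝ) : ℂ) * χ (m i)

private theorem P4Pol.mono {Q B Q' B' : ℝ} {f : (ℕ →*₀ ℂ) → ℂ} (h : P4Pol Q B f) (hQ : Q ≤ Q')
    (hB : B ≤ B') : P4Pol Q' B' f := by
  obtain ⟨ι, F, c, m, h1, h2, h3⟩ := h
  exact ⟨ι, F, c, m, fun i hi => ⟨(h1 i hi).1, (h1 i hi).2.trans hQ⟩, h2.trans hB, h3⟩

private theorem P4Pol.one : P4Pol 1 1 (fun _ => 1) :=
  ⟨Unit, {()}, fun _ => 1, fun _ => 1, fun i _ => by simp, by simp, fun χ => by simp⟩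

private theorem P4Pol.zero (Q : ℝ) : P4Pol Q 0 (fun _ => 0) :=
  ⟨Unit, ∅, fun _ => 1, fun _ => 1, fun i hi => by simp at hi, by simp, fun χ => by simp⟩

private theorem P4Pol.smul {Q B : ℝ} {f : (ℕ →*₀ ℂ) → ℂ} (h : P4Pol Q B f) (a : ℝ) :
    P4Pol Q (|a| * B) (fun χ => (a : ℂ) * f χ) := by
  obtain ⟨ι, F, c, m, h1, h2, h3⟩ := h
  refine ⟨ι, F, fun i => a * c i, m, h1, ?_, fun χ => ?_⟩
  · simp only [abs_mul]
    rw [← Finset.mul_sum]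
    exact mul_le_mul_of_nonneg_left h2 (abs_nonneg a)
  · simp only [h3]
    rw [Finset.mul_sum]
    exact Finset.sum_congr rfl fun i _ => by push_cast; ring

private theorem P4Pol.add {Q B B' : ℝ} {f g : (ℕ →*₀ ℂ) → ℂ} (h : P4Pol Q B f)
    (h' : P4Pol Q B' g) : P4Pol Q (B + B') (fun χ => f χ + g χ) := by
  obtain ⟨ι, F, c, m, h1, h2, h3⟩ := h
  obtain ⟨ι', F', c', m', h1', h2', h3'⟩ := h'
  refine ⟨ι ⊕ ι', F.disjSum F', Sum.elim c c', Sum.elim m m', ?_, ?_, fun χ => ?_⟩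
  · intro i hi
    rcases Finset.mem_disjSum.1 hi with ⟨a, ha, rfl⟩ | ⟨a, ha, rfl⟩
    · exact h1 a ha
    · exact h1' a ha
  · rw [Finset.sum_disjSum]
    exact add_le_add h2 h2'
  · rw [Finset.sum_disjSum]
    simp only [h3, h3', Sum.elim_inl, Sum.elim_inr]

private theorem P4Pol.mul {Q B Q' B' : ℝ} {f g : (ℕ →*₀ ℂ) → ℂ} (h : P4Pol Q B f)
    (h' : P4Pol Q' B' g) (hB : 0 ≤ B) : P4Pol (Q * Q') (B * B') (fun χ => f χ * g χ) := by
  obtain ⟨ι, F, c, m, h1, h2, h3⟩ := h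
  obtain ⟨ι', F', c', m', h1', h2', h3'⟩ := h'
  refine ⟨ι × ι', F ×ˢ F', fun x => c x.1 * c' x.2, fun x => m x.1 * m' x.2, ?_, ?_, fun χ => ?_⟩
  · intro i hi
    obtain ⟨ha, hb⟩ := Finset.mem_product.1 hi
    refine ⟨mul_ne_zero (h1 _ ha).1 (h1' _ hb).1, ?_⟩
    push_cast
    exact mul_le_mul (h1 _ ha).2 (h1' _ hb).2 (Nat.cast_nonneg _) ((Nat.cast_nonneg _).trans (h1 _ ha).2)
  · have h4 : ∑ i ∈ F ×ˢ F', |c i.1 * c' i.2| = (∑ i ∈ F, |c i|) * ∑ j ∈ F', |c' j| := by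
      rw [Finset.sum_mul_sum, ← Finset.sum_product']
      exact Finset.sum_congr rfl fun i _ => abs_mul _ _
    rw [h4]
    exact mul_le_mul h2 h2' (Finset.sum_nonneg fun i _ => abs_nonneg _) hB
  · change f χ * g χ = _
    rw [h3, h3', Finset.sum_mul_sum, ← Finset.sum_product']
    refine Finset.sum_congr rfl fun i _ => ?_
    simp only [map_mul]
    push_cast
    ring

private theorem P4Pol.pow {Q B : ℝ} {f : (ℕ →*₀ ℂ) → ℂ} (h : P4Pol Q B f) (hB : 0 ≤ B) (k : ℕ) :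
    P4Pol (Q ^ k) (B ^ k) (fun χ => f χ ^ k) := by
  induction k with
  | zero => simpa using P4Pol.one
  | succ k ih => simpa [pow_succ] using ih.mul h (pow_nonneg hB k)

private theorem P4Pol.sum {Q : ℝ} (k : ℕ) (B : ℕ → ℝ) (f : ℕ → (ℕ →*₀ ℂ) → ℂ)
    (h : ∀ i < k, P4Pol Q (B i) (f i)) :
    P4Pol Q (∑ i ∈ range k, B i) (fun χ => ∑ i ∈ range k, f i χ) := by
  induction k with
  | zero => simpa using P4Pol.zero Q
  | succ k ih =>
    simp only [Finset.sum_range_succ]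
    exact (ih fun i hi => h i (Nat.lt_succ_of_lt hi)).add (h k (Nat.lt_succ_self k))

private theorem P4Pol.prod (k : ℕ) (Q B : ℕ → ℝ) (f : ℕ → (ℕ →*₀ ℂ) → ℂ)
    (h : ∀ i < k, P4Pol (Q i) (B i) (f i)) (hB : ∀ i < k, 0 ≤ B i) :
    P4Pol (∏ i ∈ range k, Q i) (∏ i ∈ range k, B i) (fun χ => ∏ i ∈ range k, f i χ) := by
  induction k with
  | zero => simpa using P4Pol.one
  | succ k ih =>
    simp only [Finset.prod_range_succ]
    exact (ih (fun i hi => h i (Nat.lt_succ_of_lt hi)) fun i hi => hB i (Nat.lt_succ_of_lt hi)).mul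
      (h k (Nat.lt_succ_self k))
      (Finset.prod_nonneg fun i hi => hB i (Nat.lt_succ_of_lt (Finset.mem_range.1 hi)))

private theorem P4Pol.ps {N : ℝ} (hN : 1 ≤ N) {R : Finset ℕ} (hR : ∀ p ∈ R, p ≠ 0 ∧ (p : ℝ) ≤ N) :
    P4Pol N N (PS R) := by
  refine ⟨ℕ, R, fun _ => 1, fun p => p, hR, ?_, fun χ => ?_⟩
  · have h1 : R ⊆ Finset.Icc 1 ⌊N⌋₊ := fun p hp =>
      Finset.mem_Icc.2 ⟨Nat.one_le_iff_ne_zero.2 (hR p hp).1, Nat.le_floor (hR p hp).2⟩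
    have h2 := Finset.card_le_card h1
    rw [Nat.card_Icc, Nat.add_sub_cancel] at h2
    have h3 : (⌊N⌋₊ : ℝ) ≤ N := Nat.floor_le (by linarith)
    simp only [abs_one, Finset.sum_const, nsmul_eq_mul, mul_one]
    exact (Nat.cast_le.2 h2).trans h3
  · rw [PS]
    exact Finset.sum_congr rfl fun p _ => by push_cast; ring

private theorem P4Pol.ex {N κ : ℝ} (hN : 1 ≤ N) {R : Finset ℕ} (hR : ∀ p ∈ R, p ≠ 0 ∧ (p : ℝ) ≤ N)
    (l : ℕ) : P4Pol (N ^ l) (Real.exp |κ| * N ^ l) (fun χ => Ex l ((κ : ℂ) * PS R χ)) := by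
  have h1 : ∀ i < l + 1, P4Pol (N ^ l) (|κ| ^ i / (i.factorial : ℝ) * N ^ l)
      (fun χ => ((κ ^ i / (i.factorial : ℝ) : ℝ) : ℂ) * PS R χ ^ i) := by
    intro i hi
    have h2 := ((P4Pol.ps hN hR).pow (by linarith) i).smul (κ ^ i / (i.factorial : ℝ))
    refine h2.mono (pow_le_pow_right₀ hN (Nat.lt_succ_iff.1 hi)) ?_
    rw [abs_div, abs_pow, Nat.abs_cast]
    exact mul_le_mul_of_nonneg_left (pow_le_pow_right₀ hN (Nat.lt_succ_iff.1 hi))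
      (div_nonneg (pow_nonneg (abs_nonneg _) _) (Nat.cast_nonneg _))
  have h2 := P4Pol.sum (l + 1) _ _ h1
  have h3 : (fun χ : ℕ →*₀ ℂ => Ex l ((κ : ℂ) * PS R χ)) =
      fun χ => ∑ i ∈ range (l + 1), ((κ ^ i / (i.factorial : ℝ) : ℝ) : ℂ) * PS R χ ^ i := by
    funext χ
    rw [Ex]
    refine Finset.sum_congr rfl fun i _ => ?_
    rw [mul_pow]
    push_cast
    ring
  rw [h3]
  refine h2.mono le_rfl ?_
  rw [← Finset.sum_mul]
  exact mul_le_mul_of_nonneg_right (Real.sum_le_exp_of_nonneg (abs_nonneg κ) _)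
    (pow_nonneg (by linarith) _)

private theorem P4_T {S : BS} {Ct θ D1 : ℝ} {N0 : ℕ} (hS : TG S Ct θ D1 N0) :
    1 < S.T ∧ 0 < Real.log S.T ∧ 7 * θ ^ 3 ≤ 7 / 1000 ∧ 0 ≤ 7 * θ ^ 3 := by
  have h0 : (1 : ℝ) < Real.exp 1000 := by
    rw [Real.one_lt_exp_iff]; norm_num
  have h1 : 1 < S.T := h0.trans_le hS.T_ge
  have h2 := hS.th_pos
  have h3 := hS.th_le
  refine ⟨h1, Real.log_pos h1, ?_, by positivity⟩
  have h4 : θ ^ 3 ≤ (1 / 100) ^ 3 := pow_le_pow_left₀ h2.le h3 3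
  linarith

theorem rp_exists {S : BS} {Ct θ D1 : ℝ} {N0 : ℕ} (hS : TG S Ct θ D1 N0) {lam : ℝ}
    (hl : |lam| ≤ Ct) : ∃ r : ℕ → ℝ, Rp S lam θ r := by
  classical
  obtain ⟨hT, hlog, ht1, ht0⟩ := P4_T hS
  have hT0 : 0 < S.T := by linarith
  have hlen : ∀ g : ℕ → ℝ, (∀ j ≤ S.J, 0 ≤ g j) →
      (∀ j ≤ S.J, g j ≤ Real.exp ((S.l j : ℝ) * Real.log (S.N j) + Ct)) →
      ∏ j ∈ range (S.J + 1), g j ≤ S.T ^ (7 * θ ^ 3) := fun g h0 h1 =>
    calc ∏ j ∈ range (S.J + 1), g j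
        ≤ ∏ j ∈ range (S.J + 1), Real.exp ((S.l j : ℝ) * Real.log (S.N j) + Ct) :=
          Finset.prod_le_prod (fun j hj => h0 j (Nat.lt_succ_iff.1 (Finset.mem_range.1 hj)))
            fun j hj => h1 j (Nat.lt_succ_iff.1 (Finset.mem_range.1 hj))
      _ = Real.exp (∑ j ∈ range (S.J + 1), ((S.l j : ℝ) * Real.log (S.N j) + Ct)) :=
          (Real.exp_sum _ _).symm
      _ ≤ Real.exp (7 * θ ^ 3 * Real.log S.T) := Real.exp_le_exp.2 hS.len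
      _ = S.T ^ (7 * θ ^ 3) := by rw [Real.rpow_def_of_pos hT0, mul_comm]
  have hNl : ∀ j ≤ S.J, S.N j ^ S.l j = Real.exp ((S.l j : ℝ) * Real.log (S.N j)) := fun j hj => by
    rw [← Real.log_pow, Real.exp_log (pow_pos (by linarith [hS.N_ge j hj]) _)]
  have hCt : 0 ≤ Ct := by linarith [hS.Ct_ge]
  have hRT : P4Pol (S.T ^ (7 * θ ^ 3)) (S.T ^ (7 * θ ^ 3)) (RT S lam) := by
    have h1 := P4Pol.prod (S.J + 1) (fun j => S.N j ^ S.l j)
      (fun j => Real.exp |lam| * S.N j ^ S.l j)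
      (fun j χ => Ex (S.l j) ((lam : ℂ) * PS (S.R j) χ)) (fun j hj => by
        have hj' : j ≤ S.J := Nat.lt_succ_iff.1 hj
        exact P4Pol.ex (hS.N_ge j hj') (fun p hp => ⟨(hS.prime j hj' p hp).1.ne_zero,
          (hS.prime j hj' p hp).2⟩) (S.l j)) (fun j hj => by
        have hj' : j ≤ S.J := Nat.lt_succ_iff.1 hj
        have := hS.N_ge j hj'
        positivity)
    refine h1.mono (hlen _ (fun j hj => ?_) fun j hj => ?_) (hlen _ (fun j hj => ?_) fun j hj => ?_)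
    · have := hS.N_ge j hj
      positivity
    · rw [hNl j hj]
      exact Real.exp_le_exp.2 (by linarith)
    · have := hS.N_ge j hj
      positivity
    · rw [hNl j hj, ← Real.exp_add]
      exact Real.exp_le_exp.2 (by linarith)
  obtain ⟨ι, F, c, m, h1, h2, h3⟩ := hRT
  have hmaps : ∀ i ∈ F, m i ∈ Finset.Icc 1 ⌊S.T ^ (1 / 100 : ℝ)⌋₊ := fun i hi => by
    refine Finset.mem_Icc.2 ⟨Nat.one_le_iff_ne_zero.2 (h1 i hi).1, Nat.le_floor ?_⟩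
    exact (h1 i hi).2.trans (Real.rpow_le_rpow_of_exponent_le hT.le (by linarith))
  refine ⟨fun n => ∑ i ∈ F with m i = n, c i, ⟨fun n hn => ?_, ?_, fun χ => ?_⟩⟩
  · obtain ⟨i, hi, -⟩ := Finset.exists_ne_zero_of_sum_ne_zero hn
    obtain ⟨hi1, rfl⟩ := Finset.mem_filter.1 hi
    exact h1 i hi1
  · refine le_trans (Finset.sum_le_sum fun n _ => Finset.abs_sum_le_sum_abs _ _) ?_
    rw [Finset.sum_fiberwise_of_maps_to hmaps (fun i => |c i|)]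
    exact h2
  · rw [h3, ← Finset.sum_fiberwise_of_maps_to hmaps]
    refine Finset.sum_congr rfl fun n _ => ?_
    push_cast
    rw [Finset.sum_mul]
    exact Finset.sum_congr rfl fun i hi => by rw [(Finset.mem_filter.1 hi).2]

/-! ### The convolution -/

private theorem P4_sum {M : Type*} [AddCommMonoid M] {f g : ℕ → ℝ} {A B G : Finset ℕ}
    (hA : ∀ a, f a ≠ 0 → a ∈ A) (hB : ∀ b, g b ≠ 0 → b ∈ B) (hG0 : 0 ∉ G)
    (hG : ∀ a b, f a ≠ 0 → g b ≠ 0 → a * b ∈ G) (F : ℕ × ℕ → M)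
    (hF : ∀ x, f x.1 * g x.2 = 0 → F x = 0) :
    ∑ n ∈ G, ∑ x ∈ n.divisorsAntidiagonal, F x = ∑ x ∈ A ×ˢ B, F x := by
  classical
  have h1 : ∑ x ∈ A ×ˢ B, F x = ∑ x ∈ (A ×ˢ B).filter (fun x => f x.1 * g x.2 ≠ 0), F x := by
    symm
    refine Finset.sum_subset (Finset.filter_subset _ _) fun x hx hx' => hF x ?_
    by_contra h
    exact hx' (Finset.mem_filter.2 ⟨hx, h⟩)
  have hmaps : ∀ x ∈ (A ×ˢ B).filter (fun x => f x.1 * g x.2 ≠ 0), x.1 * x.2 ∈ G := fun x hx => by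
    have h2 := (Finset.mem_filter.1 hx).2
    exact hG _ _ (left_ne_zero_of_mul h2) (right_ne_zero_of_mul h2)
  rw [h1, ← Finset.sum_fiberwise_of_maps_to hmaps]
  refine Finset.sum_congr rfl fun n hn => ?_
  have hn0 : n ≠ 0 := fun h => hG0 (h ▸ hn)
  symm
  refine Finset.sum_subset (fun x hx => ?_) fun x hx hx' => hF x ?_
  · obtain ⟨-, hx2⟩ := Finset.mem_filter.1 hx
    exact Nat.mem_divisorsAntidiagonal.2 ⟨hx2, hn0⟩
  · by_contra h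
    refine hx' (Finset.mem_filter.2 ⟨Finset.mem_filter.2 ⟨Finset.mem_product.2
      ⟨hA _ (left_ne_zero_of_mul h), hB _ (right_ne_zero_of_mul h)⟩, h⟩, ?_⟩)
    exact (Nat.mem_divisorsAntidiagonal.1 hx).1

private theorem P4_bound {f g w : ℕ → ℝ} {A B G : Finset ℕ}
    (hA : ∀ a, f a ≠ 0 → a ∈ A) (hB : ∀ b, g b ≠ 0 → b ∈ B) (hG0 : 0 ∉ G)
    (hG : ∀ a b, f a ≠ 0 → g b ≠ 0 → a * b ∈ G) (hw0 : ∀ n, 0 ≤ w n)
    (hw : ∀ a b, w (a * b) = w a * w b) :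
    ∑ n ∈ G, |cv f g n| * w n ≤ (∑ a ∈ A, |f a| * w a) * ∑ b ∈ B, |g b| * w b := by
  rw [Finset.sum_mul_sum, ← Finset.sum_product']
  rw [← P4_sum hA hB hG0 hG (fun x => |f x.1| * w x.1 * (|g x.2| * w x.2)) (fun x hx => by
    rcases mul_eq_zero.1 hx with h | h <;> simp [h])]
  refine Finset.sum_le_sum fun n _ => ?_
  rw [cv]
  refine (mul_le_mul_of_nonneg_right (Finset.abs_sum_le_sum_abs _ _) (hw0 n)).trans ?_
  rw [Finset.sum_mul]
  refine Finset.sum_le_sum fun x hx => ?_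
  rw [← (Nat.mem_divisorsAntidiagonal.1 hx).1, hw, abs_mul]
  exact le_of_eq (by ring)

private theorem P4_eq {f g : ℕ → ℝ} {A B G : Finset ℕ}
    (hA : ∀ a, f a ≠ 0 → a ∈ A) (hB : ∀ b, g b ≠ 0 → b ∈ B) (hG0 : 0 ∉ G)
    (hG : ∀ a b, f a ≠ 0 → g b ≠ 0 → a * b ∈ G) (χ : ℕ →*₀ ℂ) :
    ∑ n ∈ G, ((cv f g n : ℝ) : ℂ) * χ n =
      (∑ a ∈ A, ((f a : ℝ) : ℂ) * χ a) * ∑ b ∈ B, ((g b : ℝ) : ℂ) * χ b := by
  rw [Finset.sum_mul_sum, ← Finset.sum_product']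
  rw [← P4_sum hA hB hG0 hG (fun x => ((f x.1 : ℝ) : ℂ) * χ x.1 * (((g x.2 : ℝ) : ℂ) * χ x.2))
    (fun x hx => by rcases mul_eq_zero.1 hx with h | h <;> simp [h])]
  refine Finset.sum_congr rfl fun n _ => ?_
  rw [cv]
  push_cast
  rw [Finset.sum_mul]
  refine Finset.sum_congr rfl fun x hx => ?_
  rw [← (Nat.mem_divisorsAntidiagonal.1 hx).1, map_mul]
  ring

/-! ### The supports -/

private theorem P4_am {S : BS} {Ct θ D1 : ℝ} {N0 : ℕ} (hS : TG S Ct θ D1 N0) (i a : ℕ)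
    (h : am i S.T a ≠ 0) : a ≠ 0 ∧ (a : ℝ) ≤ S.T ^ (9 / 20 : ℝ) := by
  refine ⟨fun h0 => h ?_, ?_⟩
  · rw [am, h0]; simp
  · by_contra h1
    exact h (am_zero (P4_T hS).1 (not_le.1 h1).le)

private theorem P4_r {S : BS} {Ct θ D1 lam : ℝ} {N0 : ℕ} (hS : TG S Ct θ D1 N0) {r : ℕ → ℝ}
    (hr : Rp S lam θ r) (b : ℕ) (h : r b ≠ 0) : b ≠ 0 ∧ (b : ℝ) ≤ S.T ^ (7 / 1000 : ℝ) := by
  obtain ⟨h1, h2⟩ := hr.supp b h
  exact ⟨h1, h2.trans (Real.rpow_le_rpow_of_exponent_le (P4_T hS).1.le (P4_T hS).2.2.1)⟩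

private theorem P4_len {T : ℝ} (hT : 1 < T) {a b : ℕ} (ha : (a : ℝ) ≤ T ^ (9 / 20 : ℝ))
    (hb : (b : ℝ) ≤ T ^ (7 / 1000 : ℝ)) : ((a * b : ℕ) : ℝ) ≤ T ^ (457 / 1000 : ℝ) := by
  have hT0 : 0 < T := by linarith
  push_cast
  calc (a : ℝ) * b ≤ T ^ (9 / 20 : ℝ) * T ^ (7 / 1000 : ℝ) :=
        mul_le_mul ha hb (Nat.cast_nonneg _) (Real.rpow_nonneg hT0.le _)
    _ = T ^ (457 / 1000 : ℝ) := by rw [← Real.rpow_add hT0]; norm_num

private theorem P4_mem {T x : ℝ} {n : ℕ} (h0 : n ≠ 0) (h : (n : ℝ) ≤ T ^ x) :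
    n ∈ Finset.Icc 1 ⌊T ^ x⌋₊ :=
  Finset.mem_Icc.2 ⟨Nat.one_le_iff_ne_zero.2 h0, Nat.le_floor h⟩

private theorem P4_mem' {T x y : ℝ} (hT : 1 < T) (hxy : x ≤ y) {n : ℕ} (h0 : n ≠ 0)
    (h : (n : ℝ) ≤ T ^ x) : n ∈ Finset.Icc 1 ⌊T ^ y⌋₊ :=
  P4_mem h0 (h.trans (Real.rpow_le_rpow_of_exponent_le hT.le hxy))

private theorem P4_G {T : ℝ} (hT : 1 < T) {a b : ℕ} (ha0 : a ≠ 0) (hb0 : b ≠ 0)
    (ha : (a : ℝ) ≤ T ^ (9 / 20 : ℝ)) (hb : (b : ℝ) ≤ T ^ (7 / 1000 : ℝ)) : a * b ∈ GT T :=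
  P4_mem' hT (by norm_num : (457 / 1000 : ℝ) ≤ 23 / 50) (mul_ne_zero ha0 hb0) (P4_len hT ha hb)

private theorem P4_G0 (T : ℝ) : 0 ∉ GT T := by
  rw [GT, Finset.mem_Icc]
  omega

/-- the second factor of `bt2` -/
private theorem P4_r2 {T : ℝ} {r : ℕ → ℝ} {n : ℕ} (h : r n * (Real.log n / Real.log T) ≠ 0) :
    r n ≠ 0 := left_ne_zero_of_mul h

theorem bt_support {S : BS} {Ct θ D1 lam : ℝ} {N0 : ℕ} (hS : TG S Ct θ D1 N0) {r : ℕ → ℝ}
    (hr : Rp S lam θ r) (c d : ℝ) (n : ℕ)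
    (hn : c * bt 0 S.T r n + d * bt 1 S.T r n ≠ 0 ∨ bt2 S.T r n ≠ 0) :
    n ≠ 0 ∧ (n : ℝ) ≤ S.T ^ (457 / 1000 : ℝ) := by
  have hT := (P4_T hS).1
  have key : ∀ (i : ℕ) (g : ℕ → ℝ), (∀ b, g b ≠ 0 → r b ≠ 0) → cv (am i S.T) g n ≠ 0 →
      n ≠ 0 ∧ (n : ℝ) ≤ S.T ^ (457 / 1000 : ℝ) := fun i g hg h => by
    rw [cv] at h
    obtain ⟨x, hx, hx1⟩ := Finset.exists_ne_zero_of_sum_ne_zero h
    obtain ⟨ha0, ha⟩ := P4_am hS i _ (left_ne_zero_of_mul hx1)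
    obtain ⟨hb0, hb⟩ := P4_r hS hr _ (hg _ (right_ne_zero_of_mul hx1))
    obtain ⟨hx2, hx3⟩ := Nat.mem_divisorsAntidiagonal.1 hx
    refine ⟨hx3, ?_⟩
    rw [← hx2]
    exact P4_len hT ha hb
  rcases hn with h | h
  · by_cases h0 : bt 0 S.T r n = 0
    · have h1 : bt 1 S.T r n ≠ 0 := fun h1 => h (by rw [h0, h1]; ring)
      exact key 1 r (fun _ hb => hb) h1
    · exact key 0 r (fun _ hb => hb) h0
  · exact key 0 _ (fun b hb => P4_r2 hb) h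

private theorem P4_am_sum {T : ℝ} (hT : 1 < T) (i : ℕ) :
    ∑ a ∈ Finset.Icc 1 ⌊T ^ (9 / 20 : ℝ)⌋₊, |am i T a| * 1 ≤ T ^ (9 / 20 : ℝ) ∧
    ∑ a ∈ Finset.Icc 1 ⌊T ^ (9 / 20 : ℝ)⌋₊, |am i T a| * (1 / (a : ℝ)) ≤ 1 + Real.log T := by
  have hT0 : 0 < T := by linarith
  have hle : ∀ a ∈ Finset.Icc 1 ⌊T ^ (9 / 20 : ℝ)⌋₊, |am i T a| ≤ 1 := fun a ha => by
    refine am_le hT ?_
    have h1 : (a : ℝ) ≤ T ^ (9 / 20 : ℝ) :=
      (Nat.cast_le.2 (Finset.mem_Icc.1 ha).2).trans (Nat.floor_le (Real.rpow_nonneg hT0.le _))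
    have h2 : T ^ (9 / 20 : ℝ) ≤ T ^ (1 : ℝ) := Real.rpow_le_rpow_of_exponent_le hT.le (by norm_num)
    rw [Real.rpow_one] at h2
    exact h1.trans h2
  constructor
  · calc ∑ a ∈ Finset.Icc 1 ⌊T ^ (9 / 20 : ℝ)⌋₊, |am i T a| * 1
        ≤ ∑ a ∈ Finset.Icc 1 ⌊T ^ (9 / 20 : ℝ)⌋₊, (1 : ℝ) :=
          Finset.sum_le_sum fun a ha => by rw [mul_one]; exact hle a ha
      _ = (⌊T ^ (9 / 20 : ℝ)⌋₊ : ℝ) := by simp
      _ ≤ T ^ (9 / 20 : ℝ) := Nat.floor_le (Real.rpow_nonneg hT0.le _)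
  · have h1 : ∑ a ∈ Finset.Icc 1 ⌊T ^ (9 / 20 : ℝ)⌋₊, |am i T a| * (1 / (a : ℝ)) ≤
        ∑ a ∈ Finset.Icc 1 ⌊T ^ (9 / 20 : ℝ)⌋₊, (a : ℝ)⁻¹ :=
      Finset.sum_le_sum fun a ha => by
        rw [one_div]
        exact mul_le_of_le_one_left (inv_nonneg.2 (Nat.cast_nonneg a)) (hle a ha)
    have h2 : ∑ a ∈ Finset.Icc 1 ⌊T ^ (9 / 20 : ℝ)⌋₊, (a : ℝ)⁻¹ =
        ((harmonic ⌊T ^ (9 / 20 : ℝ)⌋₊ : ℚ) : ℝ) := by
      rw [harmonic_eq_sum_Icc]; push_cast; rfl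
    have h3 := harmonic_floor_le_one_add_log (T ^ (9 / 20 : ℝ)) (Real.one_le_rpow hT.le (by norm_num))
    have h4 : Real.log (T ^ (9 / 20 : ℝ)) ≤ Real.log T := by
      rw [Real.log_rpow hT0]
      have := Real.log_pos hT
      linarith
    rw [h2] at h1
    linarith

private theorem P4_r_sum {S : BS} {Ct θ D1 lam : ℝ} {N0 : ℕ} (hS : TG S Ct θ D1 N0) {r : ℕ → ℝ}
    (hr : Rp S lam θ r) {g : ℕ → ℝ}
    (hg : ∀ b ∈ Finset.Icc 1 ⌊S.T ^ (1 / 100 : ℝ)⌋₊, |g b| ≤ |r b|) :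
    ∑ b ∈ Finset.Icc 1 ⌊S.T ^ (1 / 100 : ℝ)⌋₊, |g b| * 1 ≤ S.T ^ (7 * θ ^ 3) ∧
    ∑ b ∈ Finset.Icc 1 ⌊S.T ^ (1 / 100 : ℝ)⌋₊, |g b| * (1 / (b : ℝ)) ≤ S.T ^ (7 * θ ^ 3) := by
  constructor
  · refine (Finset.sum_le_sum fun b hb => ?_).trans hr.l1
    rw [mul_one]; exact hg b hb
  · refine (Finset.sum_le_sum fun b hb => ?_).trans hr.l1
    have h1 : (1 : ℝ) ≤ b := by exact_mod_cast (Finset.mem_Icc.1 hb).1
    have h2 : (1 : ℝ) / b ≤ 1 := by rw [div_le_one (by linarith)]; exact h1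
    exact (mul_le_of_le_one_right (abs_nonneg _) h2).trans (hg b hb)

theorem bt_l1 {S : BS} {Ct θ D1 lam : ℝ} {N0 : ℕ} (hS : TG S Ct θ D1 N0) {r : ℕ → ℝ}
    (hr : Rp S lam θ r) {i : ℕ} (hi : i ≤ 1) :
    ∑ n ∈ GT S.T, |bt i S.T r n| ≤ S.T ^ (457 / 1000 : ℝ) ∧
    ∑ n ∈ GT S.T, |bt2 S.T r n| ≤ S.T ^ (457 / 1000 : ℝ) ∧
    ∑ n ∈ GT S.T, |bt i S.T r n| / (n : ℝ) ≤ (1 + Real.log S.T) * S.T ^ (7 * θ ^ 3) ∧
    ∑ n ∈ GT S.T, |bt2 S.T r n| / (n : ℝ) ≤ (1 + Real.log S.T) * S.T ^ (7 * θ ^ 3) := by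
  obtain ⟨hT, hlog, ht1, ht0⟩ := P4_T hS
  have hT0 : 0 < S.T := by linarith
  have key : ∀ (i : ℕ) (g : ℕ → ℝ), (∀ b, g b ≠ 0 → r b ≠ 0) →
      (∀ b ∈ Finset.Icc 1 ⌊S.T ^ (1 / 100 : ℝ)⌋₊, |g b| ≤ |r b|) →
      ∑ n ∈ GT S.T, |cv (am i S.T) g n| ≤ S.T ^ (457 / 1000 : ℝ) ∧
      ∑ n ∈ GT S.T, |cv (am i S.T) g n| / (n : ℝ) ≤ (1 + Real.log S.T) * S.T ^ (7 * θ ^ 3) := by
    intro i g hg hg1
    have hA : ∀ a, am i S.T a ≠ 0 → a ∈ Finset.Icc 1 ⌊S.T ^ (9 / 20 : ℝ)⌋₊ := fun a ha =>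
      P4_mem (P4_am hS i a ha).1 (P4_am hS i a ha).2
    have hB : ∀ b, g b ≠ 0 → b ∈ Finset.Icc 1 ⌊S.T ^ (1 / 100 : ℝ)⌋₊ := fun b hb =>
      P4_mem' hT (by norm_num) (P4_r hS hr b (hg b hb)).1 (P4_r hS hr b (hg b hb)).2
    have hG : ∀ a b, am i S.T a ≠ 0 → g b ≠ 0 → a * b ∈ GT S.T := fun a b ha hb =>
      P4_G hT (P4_am hS i a ha).1 (P4_r hS hr b (hg b hb)).1 (P4_am hS i a ha).2
        (P4_r hS hr b (hg b hb)).2
    have b1 := P4_bound (w := fun _ => 1) hA hB (P4_G0 S.T) hG (fun _ => zero_le_one)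
      (fun _ _ => by norm_num)
    have b2 := P4_bound (w := fun n => 1 / (n : ℝ)) hA hB (P4_G0 S.T) hG (fun n => by positivity)
      (fun a b => by push_cast; rw [div_mul_div_comm, one_mul])
    obtain ⟨s1, s2⟩ := P4_am_sum hT i
    obtain ⟨s3, s4⟩ := P4_r_sum hS hr hg1
    refine ⟨?_, ?_⟩
    · calc ∑ n ∈ GT S.T, |cv (am i S.T) g n| = ∑ n ∈ GT S.T, |cv (am i S.T) g n| * 1 := by
            simp only [mul_one]
        _ ≤ _ := b1
        _ ≤ S.T ^ (9 / 20 : ℝ) * S.T ^ (7 * θ ^ 3) :=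
            mul_le_mul s1 s3 (Finset.sum_nonneg fun b _ => by positivity)
              (Real.rpow_nonneg hT0.le _)
        _ = S.T ^ (9 / 20 + 7 * θ ^ 3) := (Real.rpow_add hT0 _ _).symm
        _ ≤ S.T ^ (457 / 1000 : ℝ) := Real.rpow_le_rpow_of_exponent_le hT.le (by linarith)
    · calc ∑ n ∈ GT S.T, |cv (am i S.T) g n| / (n : ℝ) =
            ∑ n ∈ GT S.T, |cv (am i S.T) g n| * (1 / (n : ℝ)) := by
            simp only [mul_one_div]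
        _ ≤ _ := b2
        _ ≤ (1 + Real.log S.T) * S.T ^ (7 * θ ^ 3) :=
            mul_le_mul s2 s4 (Finset.sum_nonneg fun b _ => by positivity) (by linarith)
  obtain ⟨k1, k2⟩ := key i r (fun _ hb => hb) fun b _ => le_rfl
  obtain ⟨k3, k4⟩ := key 0 (fun n => r n * (Real.log n / Real.log S.T)) (fun b hb => P4_r2 hb)
    fun b hb => by
      rw [abs_mul]
      refine mul_le_of_le_one_right (abs_nonneg _) ?_
      have h1 : (1 : ℝ) ≤ b := by exact_mod_cast (Finset.mem_Icc.1 hb).1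
      have h2 : (b : ℝ) ≤ S.T ^ (1 / 100 : ℝ) :=
        (Nat.cast_le.2 (Finset.mem_Icc.1 hb).2).trans (Nat.floor_le (Real.rpow_nonneg hT0.le _))
      have h3 : S.T ^ (1 / 100 : ℝ) ≤ S.T ^ (1 : ℝ) :=
        Real.rpow_le_rpow_of_exponent_le hT.le (by norm_num)
      rw [Real.rpow_one] at h3
      have h4 : 0 ≤ Real.log (b : ℝ) := Real.log_nonneg h1
      have h5 : Real.log (b : ℝ) ≤ Real.log S.T := Real.log_le_log (by linarith) (h2.trans h3)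
      rw [abs_of_nonneg (by positivity), div_le_one hlog]
      exact h5
  exact ⟨k1, k3, k2, k4⟩

theorem DPo_bt {S : BS} {Ct θ D1 lam : ℝ} {N0 : ℕ} (hS : TG S Ct θ D1 N0) {r : ℕ → ℝ}
    (hr : Rp S lam θ r) (i : ℕ) (χ : ℕ →*₀ ℂ) :
    DPo S.T (bt i S.T r) χ = MO i S.T χ * RT S lam χ := by
  have hT := (P4_T hS).1
  rw [DPo, MO, hr.eq]
  exact P4_eq (fun a ha => P4_mem (P4_am hS i a ha).1 (P4_am hS i a ha).2)
    (fun b hb => P4_mem' hT (by norm_num) (P4_r hS hr b hb).1 (P4_r hS hr b hb).2) (P4_G0 S.T)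
    (fun a b ha hb => P4_G hT (P4_am hS i a ha).1 (P4_r hS hr b hb).1 (P4_am hS i a ha).2
        (P4_r hS hr b hb).2) χ

theorem DPo_bt2 {S : BS} {Ct θ D1 lam : ℝ} {N0 : ℕ} (hS : TG S Ct θ D1 N0) {r : ℕ → ℝ}
    (hr : Rp S lam θ r) (χ : ℕ →*₀ ℂ) :
    DPo S.T (bt2 S.T r) χ = MO 0 S.T χ *
      ∑ n ∈ Finset.Icc 1 ⌊S.T ^ (1 / 100 : ℝ)⌋₊, ((r n * (Real.log n / Real.log S.T) : ℝ) : ℂ) * χ n := by
  have hT := (P4_T hS).1
  rw [DPo, MO]
  exact P4_eq (fun a ha => P4_mem (P4_am hS 0 a ha).1 (P4_am hS 0 a ha).2)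
    (fun b hb => P4_mem' hT (by norm_num) (P4_r hS hr b (P4_r2 hb)).1
      (P4_r hS hr b (P4_r2 hb)).2) (P4_G0 S.T)
    (fun a b ha hb => P4_G hT (P4_am hS 0 a ha).1 (P4_r hS hr b (P4_r2 hb)).1 (P4_am hS 0 a ha).2
        (P4_r hS hr b (P4_r2 hb)).2) χ

theorem bt_log {T : ℝ} (r : ℕ → ℝ) (n : ℕ) :
    bt 0 T r n * (Real.log n / Real.log T) = bt 1 T r n + bt2 T r n := by
  rw [bt, bt, bt2, cv, cv, cv, Finset.sum_mul, ← Finset.sum_add_distrib]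
  refine Finset.sum_congr rfl fun x hx => ?_
  obtain ⟨h1, h2⟩ := Nat.mem_divisorsAntidiagonal.1 hx
  have h3 : x.1 ≠ 0 := fun h => h2 (by rw [← h1, h, zero_mul])
  have h4 : x.2 ≠ 0 := fun h => h2 (by rw [← h1, h, mul_zero])
  have h5 : Real.log (n : ℝ) = Real.log x.1 + Real.log x.2 := by
    rw [← h1]
    push_cast
    exact Real.log_mul (Nat.cast_ne_zero.2 h3) (Nat.cast_ne_zero.2 h4)
  rw [h5, am, am]
  ring

end Pool.Agent.LB
end
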