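import Pool.Agent.Lib.MP_69b2e4_nt.UV.R6
import Pool.Agent.Lib.MP_69b2e4_nt.UV.R4
import Pool.Agent.Lib.MP_69b2e4_nt.UV.F2
import Pool.Agent.Lib.MP_69b2e4_nt.Mg.G001

section

/-! TASK RE. Elementary bounds for the coefficients. `u = p^{-1/2}`, `L = log T ≥ 1`, `y = yy N T i = T^{iη}`, `1 ≤ i ≤ N`, `log y = iη L ≤ L/2` (`Nη = N/(2(N+1)) ≤ 1/2`), `log y > 0`. Facts: `‖e^{-z} - 1‖ ≤ min 2 ‖z‖` for `Re z ≥ 0` (mean value inequality, or `1 - e^{-z} = ∫_0^1 z e^{-tz} dt`);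
`‖e^z - 1‖ ≤ ‖z‖ e^{‖z‖}` for all `z`.
`bx` (UH/F2: `bx y ξ p = u e^{-(1-2πiξ) log p/log y}`): `‖bx‖ ≤ u`, `‖u - bx‖ ≤ u min(2, (1+2π|ξ|) log p/log y) ≤ u dp4` (`1 + 2π|ξ| ≤ 8(1+|ξ|)`).
`dx`: `Re (h + (1-2πiξ)/log y) ≥ 1/log y - 1/L ≥ 2/L - 1/L > 0`, so `‖dx‖ ≤ u`, and `‖h + (1-2πiξ)/log y‖ ≤ (1 + 1 + 2π|ξ|)/log y ≤ 8(1+|ξ|)/log y` (`‖h‖ ≤ 1/L ≤ 1/log y`), so `‖u - dx‖ ≤ u dp4`.
`ccp h p = u (p^h + p^{-conj h})/2`: `‖p^h - 1‖, ‖p^{-conj h} - 1‖ ≤ ‖h‖ log p e^{‖h‖ log p} ≤ e log p/L` for `p ≤ T`. `0 ≤ dp4 ≤ 2`. `MM T ≤ T` for `T ≥ 16`. -/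

set_option autoImplicit false

namespace Pool.Agent.UV

open Complex MeasureTheory Finset Pool.Agent.GH Pool.Agent.UH
open scoped Real ComplexConjugate

private theorem RE_mvt {z : ℂ} (hz : 0 ≤ z.re) : ‖cexp (-z) - 1‖ ≤ ‖z‖ := by
  have h := norm_image_sub_le_of_norm_deriv_le_segment_01' (f := fun t : ℝ => cexp ((t : ℂ) * (-z)))
    (f' := fun t : ℝ => cexp ((t : ℂ) * (-z)) * (1 * (-z))) (C := ‖z‖) ?_ ?_
  · simpa using h
  · intro t _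
    have h1 : HasDerivAt (fun t : ℝ => (t : ℂ)) 1 t := Complex.ofRealCLM.hasDerivAt
    exact ((h1.mul_const (-z)).cexp).hasDerivWithinAt
  · intro t ht
    rw [one_mul, norm_mul, norm_neg, Complex.norm_exp]
    have h1 : ((t : ℂ) * (-z)).re ≤ 0 := by
      rw [Complex.re_ofReal_mul, Complex.neg_re]
      have := mul_nonneg ht.1 hz
      linarith
    have h2 : Real.exp ((t : ℂ) * (-z)).re ≤ 1 := Real.exp_le_one_iff.2 h1
    exact mul_le_of_le_one_left (norm_nonneg _) h2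

private theorem RE_two {z : ℂ} (hz : 0 ≤ z.re) : ‖cexp (-z) - 1‖ ≤ 2 := by
  refine (norm_sub_le _ _).trans ?_
  rw [norm_one, Complex.norm_exp]
  have h2 : Real.exp (-z).re ≤ 1 := Real.exp_le_one_iff.2 (by rw [Complex.neg_re]; linarith)
  linarith

private theorem RE_exp (z : ℂ) : ‖cexp z - 1‖ ≤ ‖z‖ * Real.exp ‖z‖ := by
  have h := Complex.norm_exp_sub_sum_le_norm_mul_exp z 1
  simpa using h

private theorem RE_u {p : ℕ} (hp : p.Prime) : 0 < (p : ℝ) ^ (-(1 / 2) : ℝ) :=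
  Real.rpow_pos_of_pos (Nat.cast_pos.2 hp.pos) _

private theorem RE_un {p : ℕ} (hp : p.Prime) :
    ‖(((p : ℝ) ^ (-(1 / 2) : ℝ) : ℝ) : ℂ)‖ = (p : ℝ) ^ (-(1 / 2) : ℝ) := by
  rw [Complex.norm_real, Real.norm_of_nonneg (RE_u hp).le]

private theorem RE_logp {p : ℕ} (hp : p.Prime) : 0 ≤ Real.log p :=
  Real.log_nonneg (by exact_mod_cast hp.one_lt.le)

private theorem RE_L {T : ℝ} (hT : Real.exp 1 ≤ T) : 1 ≤ Real.log T := by
  have h := Real.log_le_log (Real.exp_pos 1) hT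
  rwa [Real.log_exp] at h

private theorem RE_T {T : ℝ} (hT : Real.exp 1 ≤ T) : 0 < T := (Real.exp_pos 1).trans_le hT

private theorem RE_y {N : ℕ} {T : ℝ} (hT : Real.exp 1 ≤ T) (i : ℕ) :
    Real.log (yy N T i) = (i : ℝ) * et N * Real.log T := by
  unfold yy
  rw [Real.log_rpow (RE_T hT)]

private theorem RE_et (N : ℕ) : 0 < et N := by
  unfold et
  positivity

private theorem RE_ypos {N : ℕ} {T : ℝ} (hT : Real.exp 1 ≤ T) {i : ℕ} (hi : 1 ≤ i) :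
    0 < Real.log (yy N T i) := by
  rw [RE_y hT]
  have h1 : (0 : ℝ) < i := by exact_mod_cast hi
  have h2 := RE_et N
  have h3 := RE_L hT
  positivity

private theorem RE_yle {N : ℕ} {T : ℝ} (hT : Real.exp 1 ≤ T) {i : ℕ} (hiN : i ≤ N) :
    Real.log (yy N T i) ≤ Real.log T / 2 := by
  rw [RE_y hT]
  have h3 := RE_L hT
  have h1 : (i : ℝ) ≤ N := by exact_mod_cast hiN
  have h2 : (i : ℝ) * et N ≤ 1 / 2 := by
    unfold et
    rw [mul_one_div, div_le_div_iff₀ (by positivity) (by norm_num)]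
    linarith
  calc (i : ℝ) * et N * Real.log T ≤ 1 / 2 * Real.log T :=
        mul_le_mul_of_nonneg_right h2 (by linarith)
    _ = Real.log T / 2 := by ring

private theorem RE_w (ξ : ℝ) : ‖(1 - 2 * π * ξ * I : ℂ)‖ ≤ 1 + 2 * π * |ξ| := by
  refine (norm_sub_le _ _).trans ?_
  rw [norm_one, norm_mul, norm_mul, norm_mul, Complex.norm_I, mul_one, Complex.norm_ofNat,
    Complex.norm_real, Complex.norm_real, Real.norm_of_nonneg Real.pi_pos.le, Real.norm_eq_abs]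

private theorem RE_wre (ξ : ℝ) : (1 - 2 * π * ξ * I : ℂ).re = 1 := by
  simp

private theorem RE_pi : 2 * π ≤ 7 := by
  have := Real.pi_lt_d2
  linarith

private theorem RE_cpow {p : ℕ} (hp : p.Prime) (z : ℂ) :
    (p : ℂ) ^ (-(1 / 2) + z) = (((p : ℝ) ^ (-(1 / 2) : ℝ) : ℝ) : ℂ) * cexp (z * (Real.log p : ℝ)) := by
  have hp0 : (p : ℂ) ≠ 0 := Nat.cast_ne_zero.2 hp.ne_zero
  rw [Complex.cpow_add _ _ hp0, Complex.ofReal_cpow (Nat.cast_nonneg p), Complex.cpow_def_of_ne_zero hp0 z,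
    ← Complex.natCast_log, mul_comm z]
  push_cast
  rfl

theorem ccp_zero {p : ℕ} (hp : p.Prime) : ccp 0 p = (((p : ℝ) ^ (-(1 / 2) : ℝ) : ℝ) : ℂ) := by
  unfold ccp
  have h1 : (-(1 / 2 - 0) : ℂ) = -(1 / 2) + 0 := by ring
  have h2 : (-(1 / 2 + conj (0 : ℂ)) : ℂ) = -(1 / 2) + 0 := by
    rw [map_zero]
    ring
  rw [h1, h2, RE_cpow hp, zero_mul, Complex.exp_zero]
  ring

theorem ccp_sub {T : ℝ} (hT : Real.exp 1 ≤ T) {h : ℂ} (hh : ‖h‖ ≤ 1 / Real.log T) {p : ℕ} (hp : p.Prime)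
    (hpT : (p : ℝ) ≤ T) :
    ‖ccp h p - (((p : ℝ) ^ (-(1 / 2) : ℝ) : ℝ) : ℂ)‖ ≤
      3 * (Real.log p / Real.log T) * (p : ℝ) ^ (-(1 / 2) : ℝ) := by
  have hL := RE_L hT
  have hl0 := RE_logp hp
  have hu := RE_u hp
  have hlT : Real.log p ≤ Real.log T := Real.log_le_log (Nat.cast_pos.2 hp.pos) hpT
  have hr0 : 0 ≤ Real.log p / Real.log T := div_nonneg hl0 (by linarith)
  have hr1 : Real.log p / Real.log T ≤ 1 := (div_le_one (by linarith)).2 hlT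
  have h1 : (-(1 / 2 - h) : ℂ) = -(1 / 2) + h := by ring
  have h2 : (-(1 / 2 + conj h) : ℂ) = -(1 / 2) + (-conj h) := by ring
  have key : ∀ z : ℂ, ‖z‖ ≤ 1 / Real.log T →
      ‖cexp (z * (Real.log p : ℝ)) - 1‖ ≤ 3 * (Real.log p / Real.log T) := by
    intro z hz
    have hn : ‖z * (Real.log p : ℝ)‖ ≤ Real.log p / Real.log T := by
      rw [norm_mul, Complex.norm_real, Real.norm_of_nonneg hl0]
      calc ‖z‖ * Real.log p ≤ 1 / Real.log T * Real.log p := mul_le_mul_of_nonneg_right hz hl0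
        _ = Real.log p / Real.log T := by ring
    refine (RE_exp _).trans ?_
    have he : Real.exp ‖z * (Real.log p : ℝ)‖ ≤ 3 := by
      refine (Real.exp_le_exp.2 (hn.trans hr1)).trans ?_
      have := Real.exp_one_lt_d9
      linarith
    calc ‖z * (Real.log p : ℝ)‖ * Real.exp ‖z * (Real.log p : ℝ)‖
        ≤ Real.log p / Real.log T * 3 := mul_le_mul hn he (Real.exp_pos _).le hr0
      _ = 3 * (Real.log p / Real.log T) := by ring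
  have k1 := key h hh
  have k2 := key (-conj h) (by rw [norm_neg, RCLike.norm_conj]; exact hh)
  unfold ccp
  rw [h1, h2, RE_cpow hp, RE_cpow hp]
  obtain ⟨u, hu'⟩ : ∃ u : ℝ, u = (p : ℝ) ^ (-(1 / 2) : ℝ) := ⟨_, rfl⟩
  rw [← hu'] at hu ⊢
  have e : ((u : ℂ) * cexp (h * (Real.log p : ℝ)) + (u : ℂ) * cexp (-conj h * (Real.log p : ℝ))) / 2 -
      (u : ℂ) = (u : ℂ) * (((cexp (h * (Real.log p : ℝ)) - 1) +
        (cexp (-conj h * (Real.log p : ℝ)) - 1)) / 2) := by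
    ring
  rw [e, norm_mul, norm_div, Complex.norm_real, Real.norm_of_nonneg hu.le, Complex.norm_ofNat]
  have h3 := norm_add_le (cexp (h * (Real.log p : ℝ)) - 1) (cexp (-conj h * (Real.log p : ℝ)) - 1)
  calc _ ≤ u * (3 * (Real.log p / Real.log T)) := by
        refine mul_le_mul_of_nonneg_left ?_ hu.le
        rw [div_le_iff₀ (by norm_num)]
        linarith
    _ = _ := by ring

theorem bx_le {y : ℝ} (hy : 1 ≤ y) (ξ : ℝ) {p : ℕ} (hp : p.Prime) :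
    ‖bx y ξ p‖ ≤ (p : ℝ) ^ (-(1 / 2) : ℝ) := by
  have hu := RE_u hp
  unfold bx
  rw [norm_mul, RE_un hp, Complex.norm_exp, Complex.neg_re, Complex.re_mul_ofReal, RE_wre, one_mul]
  have h1 : 0 ≤ Real.log p / Real.log y := div_nonneg (RE_logp hp) (Real.log_nonneg hy)
  have h2 : Real.exp (-(Real.log p / Real.log y)) ≤ 1 := Real.exp_le_one_iff.2 (by linarith)
  exact mul_le_of_le_one_right hu.le h2

theorem bx_sub {N : ℕ} {T : ℝ} (hT : Real.exp 1 ≤ T) {i : ℕ} (hi : 1 ≤ i) (ξ : ℝ) {p : ℕ} (hp : p.Prime) :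
    ‖(((p : ℝ) ^ (-(1 / 2) : ℝ) : ℝ) : ℂ) - bx (yy N T i) ξ p‖ ≤
      dp4 N T i ξ p * (p : ℝ) ^ (-(1 / 2) : ℝ) := by
  have hu := RE_u hp
  have hY := RE_ypos (N := N) hT hi
  have ht : 0 ≤ Real.log p / Real.log (yy N T i) := div_nonneg (RE_logp hp) hY.le
  obtain ⟨t, ht'⟩ : ∃ t : ℝ, t = Real.log p / Real.log (yy N T i) := ⟨_, rfl⟩
  have hre : (0 : ℝ) ≤ ((1 - 2 * π * ξ * I) * (t : ℂ) : ℂ).re := by
    rw [Complex.re_mul_ofReal, RE_wre, one_mul, ht']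
    exact ht
  have h1 := RE_mvt hre
  have h2 := RE_two hre
  unfold bx dp4
  rw [← ht'] at ht ⊢
  have e : (((p : ℝ) ^ (-(1 / 2) : ℝ) : ℝ) : ℂ) - (((p : ℝ) ^ (-(1 / 2) : ℝ) : ℝ) : ℂ) *
      cexp (-((1 - 2 * π * ξ * I) * (t : ℂ))) =
      (((p : ℝ) ^ (-(1 / 2) : ℝ) : ℝ) : ℂ) * (-(cexp (-((1 - 2 * π * ξ * I) * (t : ℂ))) - 1)) := by
    ring
  rw [e, norm_mul, norm_neg, RE_un hp, mul_comm]
  refine mul_le_mul_of_nonneg_right (le_min h2 (h1.trans ?_)) hu.le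
  rw [norm_mul, Complex.norm_real, Real.norm_of_nonneg ht]
  refine mul_le_mul_of_nonneg_right ((RE_w ξ).trans ?_) ht
  have h3 := RE_pi
  have h4 := abs_nonneg ξ
  have h5 := mul_le_mul_of_nonneg_right h3 h4
  linarith

private theorem RE_dx {N : ℕ} {T : ℝ} (hT : Real.exp 1 ≤ T) {i : ℕ} (hi : 1 ≤ i) (hiN : i ≤ N) {h : ℂ}
    (hh : ‖h‖ ≤ 1 / Real.log T) (ξ : ℝ) {p : ℕ} (hp : p.Prime) :
    0 ≤ ((h + (1 - 2 * π * ξ * I) / (Real.log (yy N T i) : ℝ)) * (Real.log p : ℝ) : ℂ).re := by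
  have hY := RE_ypos (N := N) hT hi
  have hYL := RE_yle (N := N) hT hiN
  have hL := RE_L hT
  rw [Complex.re_mul_ofReal, Complex.add_re, Complex.div_ofReal_re, RE_wre]
  refine mul_nonneg ?_ (RE_logp hp)
  have h1 : -(1 / Real.log T) ≤ h.re := by
    have := (abs_le.1 ((Complex.abs_re_le_norm h).trans hh)).1
    exact this
  have h2 : 1 / Real.log T ≤ 1 / Real.log (yy N T i) :=
    one_div_le_one_div_of_le hY (by linarith)
  linarith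

theorem dx_le {N : ℕ} {T : ℝ} (hT : Real.exp 1 ≤ T) {i : ℕ} (hi : 1 ≤ i) (hiN : i ≤ N) {h : ℂ}
    (hh : ‖h‖ ≤ 1 / Real.log T) (ξ : ℝ) {p : ℕ} (hp : p.Prime) :
    ‖dx (yy N T i) ξ h p‖ ≤ (p : ℝ) ^ (-(1 / 2) : ℝ) := by
  have hu := RE_u hp
  have h1 := RE_dx hT hi hiN hh ξ hp
  unfold dx
  rw [norm_mul, RE_un hp, Complex.norm_exp, Complex.neg_re]
  have h2 : Real.exp (-((h + (1 - 2 * π * ξ * I) / (Real.log (yy N T i) : ℝ)) *
      (Real.log p : ℝ) : ℂ).re) ≤ 1 := Real.exp_le_one_iff.2 (by linarith)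
  exact mul_le_of_le_one_right hu.le h2

theorem dx_sub {N : ℕ} {T : ℝ} (hT : Real.exp 1 ≤ T) {i : ℕ} (hi : 1 ≤ i) (hiN : i ≤ N) {h : ℂ}
    (hh : ‖h‖ ≤ 1 / Real.log T) (ξ : ℝ) {p : ℕ} (hp : p.Prime) :
    ‖dx (yy N T i) ξ h p - (((p : ℝ) ^ (-(1 / 2) : ℝ) : ℝ) : ℂ)‖ ≤
      dp4 N T i ξ p * (p : ℝ) ^ (-(1 / 2) : ℝ) := by
  have hu := RE_u hp
  have hY := RE_ypos (N := N) hT hi
  have hYL := RE_yle (N := N) hT hiN
  have hL := RE_L hT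
  have hl0 := RE_logp hp
  have hre := RE_dx hT hi hiN hh ξ hp
  have h1 := RE_mvt hre
  have h2 := RE_two hre
  unfold dx dp4
  obtain ⟨Y, hY'⟩ : ∃ Y : ℝ, Y = Real.log (yy N T i) := ⟨_, rfl⟩
  rw [← hY'] at hY hYL h1 h2 ⊢
  have e : (((p : ℝ) ^ (-(1 / 2) : ℝ) : ℝ) : ℂ) *
      cexp (-((h + (1 - 2 * π * ξ * I) / (Y : ℝ)) * (Real.log p : ℝ))) -
      (((p : ℝ) ^ (-(1 / 2) : ℝ) : ℝ) : ℂ) =
      (((p : ℝ) ^ (-(1 / 2) : ℝ) : ℝ) : ℂ) *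
        (cexp (-((h + (1 - 2 * π * ξ * I) / (Y : ℝ)) * (Real.log p : ℝ))) - 1) := by
    ring
  rw [e, norm_mul, RE_un hp, mul_comm]
  refine mul_le_mul_of_nonneg_right (le_min h2 (h1.trans ?_)) hu.le
  rw [norm_mul, Complex.norm_real, Real.norm_of_nonneg hl0]
  have h3 : ‖h + (1 - 2 * π * ξ * I) / (Y : ℝ)‖ ≤ 8 * (1 + |ξ|) / Y := by
    refine (norm_add_le _ _).trans ?_
    rw [norm_div, Complex.norm_real, Real.norm_of_nonneg hY.le]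
    have k1 : ‖h‖ ≤ 1 / Y := hh.trans (one_div_le_one_div_of_le hY (by linarith))
    have k2 : ‖(1 - 2 * π * ξ * I : ℂ)‖ / Y ≤ (1 + 2 * π * |ξ|) / Y :=
      div_le_div_of_nonneg_right (RE_w ξ) hY.le
    refine (add_le_add k1 k2).trans ?_
    rw [← add_div]
    refine div_le_div_of_nonneg_right ?_ hY.le
    have h3 := RE_pi
    have h4 := abs_nonneg ξ
    have h5 := mul_le_mul_of_nonneg_right h3 h4
    linarith
  calc _ ≤ 8 * (1 + |ξ|) / Y * Real.log p := mul_le_mul_of_nonneg_right h3 hl0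
    _ = 8 * (1 + |ξ|) * (Real.log p / Y) := by ring

theorem dp4_mem {N : ℕ} {T : ℝ} (hT : Real.exp 1 ≤ T) {i : ℕ} (hi : 1 ≤ i) (ξ : ℝ) {p : ℕ}
    (hp : p.Prime) : 0 ≤ dp4 N T i ξ p ∧ dp4 N T i ξ p ≤ 2 := by
  have hY := RE_ypos (N := N) hT hi
  have ht : 0 ≤ Real.log p / Real.log (yy N T i) := div_nonneg (RE_logp hp) hY.le
  unfold dp4
  refine ⟨le_min (by norm_num) ?_, min_le_left _ _⟩
  have := abs_nonneg ξ
  positivity

theorem MM_le {T : ℝ} (hT : 16 ≤ T) : (MM T : ℝ) ≤ T := by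
  unfold MM Mof
  have h0 : 0 ≤ T := by linarith
  rw [← Real.sqrt_eq_rpow]
  have h1 : ((⌊Real.sqrt T⌋₊ : ℕ) : ℝ) ≤ Real.sqrt T := Nat.floor_le (Real.sqrt_nonneg _)
  have h2 : (4 : ℝ) ≤ Real.sqrt T := Real.le_sqrt_of_sq_le (by linarith)
  have h3 := Real.mul_self_sqrt h0
  push_cast
  nlinarith

end Pool.Agent.UV
end

section

/-! TASK R7. The expectation with a complex shift of the weight (first moment): `full4` with `b = d = 0`, `al = lam - 1`, `l' = lm`. `full4` needs: `‖b p‖, ‖d p‖ ≤ u`, `0 ≤ Dp ≤ 5`, `‖u - b p + d p + al ccp h p - lam u‖ ≤ Dp p u`, `∑ Dp p/p ≤ V`, `|al| ≤ 1` (`0 < lam < 1`), `cc lam l_j ≤ l'_j` (`lm_bounds`, `lp_bounds` of UH/E2 with `BGood.l_big`), `‖h‖ ≤ 1/L`. (`u = p^{-1/2}`, `L = log T`; `BG` contains `BGood`; `S.T ≥ e`.)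
`u + (lam-1) ccp h p - lam u = (lam-1)(ccp h p - u)`, `ccp_sub`: `Dp p = 3 log p/L ≤ 5`: for `p < MM T` we have `log p ≤ L` (`MM_le`), so `Dp ≤ 3`; `V = 3 C` by `sum_logp`. The products over `‖1 - 0‖²` and `‖(1-0)⁻¹‖²` are 1. -/

set_option autoImplicit false

namespace Pool.Agent.UV

open Complex MeasureTheory Finset Pool.Agent.GH Pool.Agent.UH
open scoped Real ComplexConjugate

theorem exp4_1 : ∃ C0 : ℝ, ∀ D : ℝ, ∃ K T0 : ℝ, 1 ≤ K ∧ ∀ {S : BS} {lam C ε : ℝ} {N0 : ℕ}, C0 ≤ C →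
    T0 ≤ S.T → BG S lam C N0 D ε → ∀ h : ℂ, ‖h‖ ≤ 1 / Real.log S.T →
    ∫ w, ‖Zt (Nat.primesBelow (MM S.T)) (1 / 2) w‖ ^ 2 *
      ‖W2 S (lam - 1) (fun j => lm lam (S.l j)) (nX (-h) w) (cj (nX (conj h) w))‖ ^ 2 ∂mu ≤
    K * Real.log S.T ^ (lam ^ 2) := by
  obtain ⟨C0, h4⟩ := full4
  obtain ⟨Cl, Tl, hCl, hlog⟩ := sum_logp
  refine ⟨C0, fun D => ?_⟩
  obtain ⟨K, T0, hK, h5⟩ := h4 D
  have hE : 1 ≤ Real.exp (7 * (3 * Cl)) := Real.one_le_exp (by positivity)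
  refine ⟨K * Real.exp (7 * (3 * Cl)), max T0 (max Tl 16), ?_, ?_⟩
  · calc (1 : ℝ) = 1 * 1 := (one_mul 1).symm
      _ ≤ K * Real.exp (7 * (3 * Cl)) := mul_le_mul hK hE zero_le_one (by linarith)
  intro S lam C ε N0 hC hT hBG h hh
  have hT0 : T0 ≤ S.T := (le_max_left _ _).trans hT
  have hTl : Tl ≤ S.T := (le_max_left _ _).trans ((le_max_right _ _).trans hT)
  have hT16 : (16 : ℝ) ≤ S.T := (le_max_right _ _).trans ((le_max_right _ _).trans hT)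
  have hG : BGood S lam C N0 D := hBG.1
  have hTe : Real.exp 1 ≤ S.T := hG.T_ge
  have hL1 : 1 ≤ Real.log S.T := by
    rw [Real.le_log_iff_exp_le (by linarith)]
    exact hTe
  have hMM : (MM S.T : ℝ) ≤ S.T := MM_le hT16
  have hp1 : ∀ p ∈ Nat.primesBelow (MM S.T), p.Prime ∧ (p : ℝ) ≤ S.T := by
    intro p hp
    have h1 := Nat.lt_of_mem_primesBelow hp
    refine ⟨Nat.prime_of_mem_primesBelow hp, ?_⟩
    have h2 : (p : ℝ) ≤ (MM S.T : ℝ) := by exact_mod_cast h1.le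
    exact h2.trans hMM
  have h0 := hG.lam_pos
  have h1 := hG.lam_lt
  have hcc : 0 ≤ cc lam := by
    unfold cc
    have : 0 ≤ min lam (1 - lam) := le_min h0.le (by linarith)
    linarith
  have hal : |lam - 1| ≤ 1 := by
    rw [abs_le]
    constructor <;> linarith
  have key := h5 hC hT0 hBG (fun _ => 0) (fun _ => 0) (lam - 1) (3 * Cl)
    (fun j => lm lam (S.l j)) h (fun p => 3 * (Real.log p / Real.log S.T))
    (fun p _ => by rw [norm_zero]; positivity) (fun p _ => by rw [norm_zero]; positivity)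
    (fun p hp => by
      obtain ⟨hpp, hpT⟩ := hp1 p hp
      have hp0 : (0 : ℝ) < p := by exact_mod_cast hpp.pos
      have hlp : 0 ≤ Real.log p := Real.log_natCast_nonneg p
      have hlT : Real.log p ≤ Real.log S.T := Real.log_le_log hp0 hpT
      have hq : Real.log p / Real.log S.T ≤ 1 := by
        rw [div_le_one (by linarith)]
        exact hlT
      have hq0 : 0 ≤ Real.log p / Real.log S.T := div_nonneg hlp (by linarith)
      refine ⟨by positivity, by linarith, ?_⟩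
      have e1 : (((p : ℝ) ^ (-(1 / 2) : ℝ) : ℝ) : ℂ) - 0 + 0 + ((lam - 1 : ℝ) : ℂ) * ccp h p -
          lam * (((p : ℝ) ^ (-(1 / 2) : ℝ) : ℝ) : ℂ) =
          ((lam - 1 : ℝ) : ℂ) * (ccp h p - (((p : ℝ) ^ (-(1 / 2) : ℝ) : ℝ) : ℂ)) := by
        push_cast
        ring
      rw [e1, norm_mul, Complex.norm_real, Real.norm_eq_abs]
      have e2 := ccp_sub hTe hh hpp hpT
      calc |lam - 1| * ‖ccp h p - (((p : ℝ) ^ (-(1 / 2) : ℝ) : ℝ) : ℂ)‖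
          ≤ 1 * ‖ccp h p - (((p : ℝ) ^ (-(1 / 2) : ℝ) : ℝ) : ℂ)‖ :=
            mul_le_mul_of_nonneg_right hal (norm_nonneg _)
        _ ≤ _ := by rw [one_mul]; exact e2)
    (by
      have e3 : ∑ p ∈ Nat.primesBelow (MM S.T), 3 * (Real.log p / Real.log S.T) / (p : ℝ) =
          3 * ∑ p ∈ Nat.primesBelow (MM S.T), (Real.log p / Real.log S.T) / (p : ℝ) := by
        rw [Finset.mul_sum]
        exact Finset.sum_congr rfl fun p _ => by rw [mul_div_assoc]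
      rw [e3]
      exact mul_le_mul_of_nonneg_left (hlog S.T hTl) (by norm_num))
    hal
    (fun j hj => by
      have e4 := (lm_bounds h0 h1 (hG.l_big j hj).1).1
      have e5 : 0 ≤ cc lam * (S.l j : ℝ) := mul_nonneg hcc (Nat.cast_nonneg _)
      linarith)
    hh
  simpa using key

end Pool.Agent.UV
end

section

/-! TASK R7b. Expectations for one frequency. `full4` needs: `‖b p‖, ‖d p‖ ≤ u`, `0 ≤ Dp ≤ 5`, `‖u - b p + d p + al ccp h p - lam u‖ ≤ Dp p u`, `∑ Dp p/p ≤ V`, `|al| ≤ 1` (`0 < lam < 1`), `cc lam l_j ≤ l'_j` (`lm_bounds`, `lp_bounds` of UH/E2 with `BGood.l_big`), `‖h‖ ≤ 1/L`. (`u = p^{-1/2}`, `L = log T`; `BG` contains `BGood`; `S.T ≥ e`.)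
`exp4_2` (no `ζ`, weight at `h = 0`, `al = lam - 1`, `l' = lm`): `b p = u`, so `‖Zt‖² ∏ ‖1 - u X_p‖² = 1` (`Zt` is the product of the inverses, factors nonzero: `Zt_factor_ne_zero`), `d = dx (yy i) ξ h`: `u - u + d + (lam-1) u - lam u = d - u` (`ccp_zero`), `dx_le`, `dx_sub`: `Dp = dp4 N T i ξ`.
`exp4_4` (`al = lam`, `l' = lp`, `h = 0`): `b = bx (yy N) ξ`, `d = 0`: `u - b`, `Dp = dp4 N T N ξ`. `V = C + 2 log(1+|ξ|)` (`sum_dp4`), so `e^{7V} = e^{7C} (1+|ξ|)^14`. (`full4` at `h = 0` has the weight at `nX (-0)`, `cj (nX (conj 0))`.) -/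

set_option autoImplicit false

namespace Pool.Agent.UV

open Complex MeasureTheory Finset Pool.Agent.GH Pool.Agent.UH
open scoped Real ComplexConjugate

private theorem R7b_exp (Cs ξ : ℝ) :
    Real.exp (7 * (Cs + 2 * Real.log (1 + |ξ|))) = Real.exp (7 * Cs) * (1 + |ξ|) ^ 14 := by
  have h1 : 0 < 1 + |ξ| := by positivity
  have h2 : 7 * (Cs + 2 * Real.log (1 + |ξ|)) = 7 * Cs + ((14 : ℕ) : ℝ) * Real.log (1 + |ξ|) := by
    push_cast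
    ring
  rw [h2, Real.exp_add, ← Real.log_pow, Real.exp_log (pow_pos h1 _)]

private theorem R7b_cc {lam : ℝ} (h0 : 0 < lam) (h1 : lam < 1) : 0 ≤ cc lam := by
  unfold cc
  have : 0 < min lam (1 - lam) := lt_min h0 (by linarith)
  linarith

theorem exp4_2 (N : ℕ) (hN : 1 ≤ N) : ∃ C0 : ℝ, ∀ D : ℝ, ∃ K T0 : ℝ, 1 ≤ K ∧
    ∀ {S : BS} {lam C ε : ℝ} {N0 : ℕ}, C0 ≤ C → T0 ≤ S.T → BG S lam C N0 D ε →
    ∀ h : ℂ, ‖h‖ ≤ 1 / Real.log S.T → ∀ i : ℕ, 1 ≤ i → i ≤ N → ∀ ξ : ℝ,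
    ∫ w, (∏ p ∈ Nat.primesBelow (MM S.T), ‖(1 - dx (yy N S.T i) ξ h p * X p w)⁻¹‖ ^ 2) *
      ‖W2 S (lam - 1) (fun j => lm lam (S.l j)) (nX 0 w) (cj (nX 0 w))‖ ^ 2 ∂mu ≤
    K * (1 + |ξ|) ^ 14 * Real.log S.T ^ (lam ^ 2) := by
  obtain ⟨C0, hfull⟩ := full4
  obtain ⟨Cs, T0s, hCs, hs⟩ := sum_dp4 N hN
  refine ⟨C0, fun D => ?_⟩
  obtain ⟨K, T0, hK, hmain⟩ := hfull D
  refine ⟨K * Real.exp (7 * Cs), max T0 T0s, ?_, ?_⟩
  · have h1 : 1 ≤ Real.exp (7 * Cs) := Real.one_le_exp (by linarith)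
    nlinarith
  intro S lam C ε N0 hC hT hBG h hh i hi hiN ξ
  have hB := hBG.1
  have hlam0 := hB.lam_pos
  have hlam1 := hB.lam_lt
  have hTe := hB.T_ge
  have hlogT : 1 ≤ Real.log S.T := by
    rw [Real.le_log_iff_exp_le (lt_of_lt_of_le (Real.exp_pos 1) hTe)]
    exact hTe
  have hpr : ∀ p ∈ Nat.primesBelow (MM S.T), p.Prime := fun p hp => Nat.prime_of_mem_primesBelow hp
  have key := hmain hC ((le_max_left _ _).trans hT) hBG
    (fun p => (((p : ℝ) ^ (-(1 / 2) : ℝ) : ℝ) : ℂ)) (dx (yy N S.T i) ξ h) (lam - 1)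
    (Cs + 2 * Real.log (1 + |ξ|)) (fun j => lm lam (S.l j)) 0 (dp4 N S.T i ξ)
    (fun p _ => by
      rw [Complex.norm_real, Real.norm_of_nonneg (by positivity)])
    (fun p hp => dx_le hTe hi hiN hh ξ (hpr p hp))
    (fun p hp => by
      have hm := dp4_mem (N := N) hTe hi ξ (hpr p hp)
      refine ⟨hm.1, by linarith [hm.2], ?_⟩
      rw [ccp_zero (hpr p hp)]
      have e1 : (((p : ℝ) ^ (-(1 / 2) : ℝ) : ℝ) : ℂ) - (((p : ℝ) ^ (-(1 / 2) : ℝ) : ℝ) : ℂ) +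
          dx (yy N S.T i) ξ h p + ((lam - 1 : ℝ) : ℂ) * (((p : ℝ) ^ (-(1 / 2) : ℝ) : ℝ) : ℂ) -
          (lam : ℂ) * (((p : ℝ) ^ (-(1 / 2) : ℝ) : ℝ) : ℂ) =
          dx (yy N S.T i) ξ h p - (((p : ℝ) ^ (-(1 / 2) : ℝ) : ℝ) : ℂ) := by
        push_cast
        ring
      rw [e1]
      exact dx_sub hTe hi hiN hh ξ (hpr p hp))
    (hs S.T ξ ((le_max_right _ _).trans hT) i hi hiN)
    (by rw [abs_le]; constructor <;> linarith)
    (fun j hj => by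
      have hb := (lm_bounds hlam0 hlam1 (hB.l_big j hj).1).1
      have hc := R7b_cc hlam0 hlam1
      have h1 : 0 ≤ cc lam * (S.l j : ℝ) := mul_nonneg hc (Nat.cast_nonneg _)
      have h2 : 4 * cc lam * (S.l j : ℝ) = 4 * (cc lam * (S.l j : ℝ)) := by ring
      show cc lam * (S.l j : ℝ) ≤ ((lm lam (S.l j) : ℕ) : ℝ)
      linarith)
    (by rw [norm_zero]; positivity)
  rw [R7b_exp] at key
  have hint : (fun w => (∏ p ∈ Nat.primesBelow (MM S.T), ‖(1 - dx (yy N S.T i) ξ h p * X p w)⁻¹‖ ^ 2) *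
      ‖W2 S (lam - 1) (fun j => lm lam (S.l j)) (nX 0 w) (cj (nX 0 w))‖ ^ 2) =
      fun w => ‖Zt (Nat.primesBelow (MM S.T)) (1 / 2) w‖ ^ 2 *
      (∏ p ∈ Nat.primesBelow (MM S.T), ‖1 - (((p : ℝ) ^ (-(1 / 2) : ℝ) : ℝ) : ℂ) * X p w‖ ^ 2) *
      (∏ p ∈ Nat.primesBelow (MM S.T), ‖(1 - dx (yy N S.T i) ξ h p * X p w)⁻¹‖ ^ 2) *
      ‖W2 S (lam - 1) (fun j => lm lam (S.l j)) (nX (-0) w) (cj (nX (conj 0) w))‖ ^ 2 := by
    funext w
    have e1 : ‖Zt (Nat.primesBelow (MM S.T)) (1 / 2) w‖ ^ 2 *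
        (∏ p ∈ Nat.primesBelow (MM S.T), ‖1 - (((p : ℝ) ^ (-(1 / 2) : ℝ) : ℝ) : ℂ) * X p w‖ ^ 2) = 1 := by
      unfold Zt
      rw [norm_prod, ← Finset.prod_pow, ← Finset.prod_mul_distrib]
      refine Finset.prod_eq_one fun p hp => ?_
      have hne := Zt_factor_ne_zero (hpr p hp).two_le (by norm_num : (0 : ℝ) < 1 / 2) w
      rw [norm_inv, ← mul_pow, inv_mul_cancel₀ (norm_ne_zero_iff.2 hne), one_pow]
    rw [e1, one_mul, neg_zero, map_zero]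
  rw [hint]
  refine key.trans (le_of_eq ?_)
  ring

theorem exp4_4 (N : ℕ) (hN : 1 ≤ N) : ∃ C0 : ℝ, ∀ D : ℝ, ∃ K T0 : ℝ, 1 ≤ K ∧
    ∀ {S : BS} {lam C ε : ℝ} {N0 : ℕ}, C0 ≤ C → T0 ≤ S.T → BG S lam C N0 D ε → ∀ ξ : ℝ,
    ∫ w, ‖Zt (Nat.primesBelow (MM S.T)) (1 / 2) w‖ ^ 2 *
      (∏ p ∈ Nat.primesBelow (MM S.T), ‖1 - bx (yy N S.T N) ξ p * X p w‖ ^ 2) *
      ‖W2 S lam (fun j => lp lam (S.l j)) (nX 0 w) (cj (nX 0 w))‖ ^ 2 ∂mu ≤
    K * (1 + |ξ|) ^ 14 * Real.log S.T ^ (lam ^ 2) := by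
  obtain ⟨C0, hfull⟩ := full4
  obtain ⟨Cs, T0s, hCs, hs⟩ := sum_dp4 N hN
  refine ⟨C0, fun D => ?_⟩
  obtain ⟨K, T0, hK, hmain⟩ := hfull D
  refine ⟨K * Real.exp (7 * Cs), max T0 T0s, ?_, ?_⟩
  · have h1 : 1 ≤ Real.exp (7 * Cs) := Real.one_le_exp (by linarith)
    nlinarith
  intro S lam C ε N0 hC hT hBG ξ
  have hB := hBG.1
  have hlam0 := hB.lam_pos
  have hlam1 := hB.lam_lt
  have hTe := hB.T_ge
  have hlogT : 1 ≤ Real.log S.T := by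
    rw [Real.le_log_iff_exp_le (lt_of_lt_of_le (Real.exp_pos 1) hTe)]
    exact hTe
  have hT1 : 1 ≤ S.T := (Real.one_le_exp zero_le_one).trans hTe
  have hy1 : 1 ≤ yy N S.T N := by
    unfold yy
    refine Real.one_le_rpow hT1 ?_
    unfold et
    positivity
  have hpr : ∀ p ∈ Nat.primesBelow (MM S.T), p.Prime := fun p hp => Nat.prime_of_mem_primesBelow hp
  have key := hmain hC ((le_max_left _ _).trans hT) hBG
    (bx (yy N S.T N) ξ) (fun _ => 0) lam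
    (Cs + 2 * Real.log (1 + |ξ|)) (fun j => lp lam (S.l j)) 0 (dp4 N S.T N ξ)
    (fun p hp => bx_le hy1 ξ (hpr p hp))
    (fun p _ => by
      rw [norm_zero]; positivity)
    (fun p hp => by
      have hm := dp4_mem (N := N) hTe hN ξ (hpr p hp)
      refine ⟨hm.1, by linarith [hm.2], ?_⟩
      rw [ccp_zero (hpr p hp)]
      have e1 : (((p : ℝ) ^ (-(1 / 2) : ℝ) : ℝ) : ℂ) - bx (yy N S.T N) ξ p + 0 +
          (lam : ℂ) * (((p : ℝ) ^ (-(1 / 2) : ℝ) : ℝ) : ℂ) -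
          (lam : ℂ) * (((p : ℝ) ^ (-(1 / 2) : ℝ) : ℝ) : ℂ) =
          (((p : ℝ) ^ (-(1 / 2) : ℝ) : ℝ) : ℂ) - bx (yy N S.T N) ξ p := by
        ring
      rw [e1]
      exact bx_sub hTe hN ξ (hpr p hp))
    (hs S.T ξ ((le_max_right _ _).trans hT) N hN le_rfl)
    (by rw [abs_le]; constructor <;> linarith)
    (fun j hj => by
      have hb := (lp_bounds hlam0 hlam1 (hB.l_big j hj).2).1
      have hc := R7b_cc hlam0 hlam1
      have h1 : 0 ≤ cc lam * (S.l j : ℝ) := mul_nonneg hc (Nat.cast_nonneg _)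
      have h2 : 4 * cc lam * (S.l j : ℝ) = 4 * (cc lam * (S.l j : ℝ)) := by ring
      show cc lam * (S.l j : ℝ) ≤ ((lp lam (S.l j) : ℕ) : ℝ)
      linarith)
    (by rw [norm_zero]; positivity)
  rw [R7b_exp] at key
  have hint : (fun w => ‖Zt (Nat.primesBelow (MM S.T)) (1 / 2) w‖ ^ 2 *
      (∏ p ∈ Nat.primesBelow (MM S.T), ‖1 - bx (yy N S.T N) ξ p * X p w‖ ^ 2) *
      ‖W2 S lam (fun j => lp lam (S.l j)) (nX 0 w) (cj (nX 0 w))‖ ^ 2) =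
      fun w => ‖Zt (Nat.primesBelow (MM S.T)) (1 / 2) w‖ ^ 2 *
      (∏ p ∈ Nat.primesBelow (MM S.T), ‖1 - bx (yy N S.T N) ξ p * X p w‖ ^ 2) *
      (∏ p ∈ Nat.primesBelow (MM S.T), ‖(1 - (0 : ℂ) * X p w)⁻¹‖ ^ 2) *
      ‖W2 S lam (fun j => lp lam (S.l j)) (nX (-0) w) (cj (nX (conj 0) w))‖ ^ 2 := by
    funext w
    have e1 : (∏ p ∈ Nat.primesBelow (MM S.T), ‖(1 - (0 : ℂ) * X p w)⁻¹‖ ^ 2) = 1 :=
      Finset.prod_eq_one fun p _ => by simp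
    rw [e1, mul_one, neg_zero, map_zero]
  rw [hint]
  refine key.trans (le_of_eq ?_)
  ring

end Pool.Agent.UV
end

section

/-! TASK R8. The expectations with the mollifier or the sum: integration over the frequency. (Template: UH/R8.lean.) `Mx_eq`, `Gx_eq` (F2) for `y = yy N T i = T^{iη} ≥ 2` (`i ≥ 1`, `T ≥ T0(N)`), `M = MM T ≥ T^{1/2} ≥ y` (`i ≤ N`), with the `φ` of `fourier_kernel4`; the hypothesis `|Re h| log y ≤ 1/2` of `Gx_eq` holds because `|Re h| ≤ ‖h‖ ≤ 1/log T` and `log y = iη log T ≤ (1/2) log T`.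
Cauchy-Schwarz: `‖∫ φ g‖² ≤ (∫ ‖φ‖)(∫ ‖φ‖ ‖g‖²)` for continuous bounded `g`. Multiply by the remaining nonnegative factors, integrate over `w`, exchange the integrals (everything is continuous in `(w, ξ)` and bounded by a constant times `‖φ(ξ)‖`, finite products over the fixed finite set of primes; `mu` is a probability measure; or `lintegral` and Tonelli)
and use `exp4_2`, `exp4_4`: e.g. `E[..] ≤ (∫‖φ‖) ∫ ‖φ(ξ)‖ K (1+|ξ|)^14 L^{lam²} dξ`. -/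

set_option autoImplicit false

namespace Pool.Agent.UV

open Complex MeasureTheory Finset Pool.Agent.GH Pool.Agent.UH
open scoped Real ComplexConjugate

private lemma R8_cs {φ g : ℝ → ℂ} (hφ : Continuous φ) (hi : Integrable (fun ξ => ‖φ ξ‖))
    (hg : Continuous g) {B : ℝ} (hB : ∀ ξ, ‖g ξ‖ ≤ B) :
    ‖∫ ξ, φ ξ * g ξ‖ ^ 2 ≤ (∫ ξ, ‖φ ξ‖) * ∫ ξ, ‖φ ξ‖ * ‖g ξ‖ ^ 2 := by
  have hB0 : 0 ≤ B := (norm_nonneg _).trans (hB 0)
  have i1 : Integrable (fun ξ => ‖φ ξ‖ * ‖g ξ‖) := by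
    refine (hi.mul_const B).mono' (by fun_prop) (Filter.Eventually.of_forall fun ξ => ?_)
    rw [Real.norm_of_nonneg (by positivity)]
    exact mul_le_mul_of_nonneg_left (hB ξ) (norm_nonneg _)
  have i2 : Integrable (fun ξ => ‖φ ξ‖ * ‖g ξ‖ ^ 2) := by
    refine (hi.mul_const (B ^ 2)).mono' (by fun_prop) (Filter.Eventually.of_forall fun ξ => ?_)
    rw [Real.norm_of_nonneg (by positivity)]
    exact mul_le_mul_of_nonneg_left (pow_le_pow_left₀ (norm_nonneg _) (hB ξ) 2) (norm_nonneg _)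
  have h1 : ‖∫ ξ, φ ξ * g ξ‖ ≤ ∫ ξ, ‖φ ξ‖ * ‖g ξ‖ := by
    refine (norm_integral_le_integral_norm _).trans (le_of_eq ?_)
    simp only [norm_mul]
  have h2 : ∀ t : ℝ, 0 ≤ (∫ ξ, ‖φ ξ‖) * (t * t) + (-(2 * ∫ ξ, ‖φ ξ‖ * ‖g ξ‖)) * t +
      ∫ ξ, ‖φ ξ‖ * ‖g ξ‖ ^ 2 := by
    intro t
    have h3 : 0 ≤ ∫ ξ, ‖φ ξ‖ * (t - ‖g ξ‖) ^ 2 :=
      integral_nonneg fun ξ => by positivity
    have h4 : ∫ ξ, ‖φ ξ‖ * (t - ‖g ξ‖) ^ 2 =
        ∫ ξ, (‖φ ξ‖ * (t * t) - (2 * t) * (‖φ ξ‖ * ‖g ξ‖) + ‖φ ξ‖ * ‖g ξ‖ ^ 2) := by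
      congr 1
      funext ξ
      ring
    have e1 : Integrable (fun ξ => ‖φ ξ‖ * (t * t) - (2 * t) * (‖φ ξ‖ * ‖g ξ‖)) :=
      (hi.mul_const _).sub (i1.const_mul _)
    rw [h4, integral_add e1 i2, integral_sub (hi.mul_const _) (i1.const_mul _),
      integral_mul_const, integral_const_mul] at h3
    linarith
  have h5 := discrim_le_zero h2
  unfold discrim at h5
  have h6 : (∫ ξ, ‖φ ξ‖ * ‖g ξ‖) ^ 2 ≤ (∫ ξ, ‖φ ξ‖) * ∫ ξ, ‖φ ξ‖ * ‖g ξ‖ ^ 2 := by nlinarith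
  exact (pow_le_pow_left₀ (norm_nonneg _) h1 2).trans h6

/-- Cauchy-Schwarz and Fubini for an integral over the frequency. -/
theorem R8_gen {φ : ℝ → ℂ} (hφ : Continuous φ)
    (hφi : Integrable (fun ξ : ℝ => (1 + |ξ|) ^ 14 * ‖φ ξ‖)) {g : ℝ → Om → ℂ}
    (hg : Continuous (fun q : Om × ℝ => g q.2 q.1)) {B : ℝ} (hB : ∀ ξ w, ‖g ξ w‖ ≤ B)
    {Y : Om → ℝ} (hY : Continuous Y) (hY0 : ∀ w, 0 ≤ Y w) {E : ℝ}
    (hE : ∀ ξ : ℝ, ∫ w, Y w * ‖g ξ w‖ ^ 2 ∂mu ≤ E * (1 + |ξ|) ^ 14) :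
    ∫ w, Y w * ‖∫ ξ : ℝ, φ ξ * g ξ w‖ ^ 2 ∂mu ≤
      (∫ ξ, ‖φ ξ‖) * (E * ∫ ξ : ℝ, (1 + |ξ|) ^ 14 * ‖φ ξ‖) := by
  have hi : Integrable (fun ξ => ‖φ ξ‖) := by
    refine hφi.mono' (by fun_prop) (Filter.Eventually.of_forall fun ξ => ?_)
    rw [Real.norm_of_nonneg (norm_nonneg _)]
    have h1 : (1 : ℝ) ≤ (1 + |ξ|) ^ 14 := one_le_pow₀ (by linarith [abs_nonneg ξ])
    exact le_mul_of_one_le_left (norm_nonneg _) h1
  let F : Om → ℝ → ℝ := fun w ξ => ‖φ ξ‖ * (Y w * ‖g ξ w‖ ^ 2)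
  have hF0 : ∀ w ξ, 0 ≤ F w ξ := by
    intro w ξ
    have := hY0 w
    positivity
  have hFc : Continuous (Function.uncurry F) := by
    have h5 : Continuous fun q : Om × ℝ => Y q.1 := hY.comp continuous_fst
    have h6 : Continuous fun q : Om × ℝ => ‖φ q.2‖ := (hφ.comp continuous_snd).norm
    exact h6.mul (h5.mul (hg.norm.pow 2))
  obtain ⟨B2, hB2⟩ := exists_bound_of_continuous hY
  have hFi : Integrable (Function.uncurry F) (mu.prod volume) := by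
    have h1 : Integrable (fun q : Om × ℝ => ‖φ q.2‖) (mu.prod volume) := hi.comp_snd mu
    refine (h1.mul_const (B2 * B ^ 2)).mono' hFc.aestronglyMeasurable
      (Filter.Eventually.of_forall fun q => ?_)
    have h0 : 0 ≤ Function.uncurry F q := hF0 q.1 q.2
    rw [Real.norm_of_nonneg h0]
    change ‖φ q.2‖ * (Y q.1 * ‖g q.2 q.1‖ ^ 2) ≤ _
    refine mul_le_mul_of_nonneg_left ?_ (norm_nonneg _)
    have e2 : ‖g q.2 q.1‖ ^ 2 ≤ B ^ 2 := pow_le_pow_left₀ (norm_nonneg _) (hB _ _) 2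
    have e3 : Y q.1 ≤ B2 := (le_abs_self _).trans (hB2 q.1)
    exact mul_le_mul e3 e2 (by positivity) ((hY0 q.1).trans e3)
  have hpt : ∀ w, Y w * ‖∫ ξ : ℝ, φ ξ * g ξ w‖ ^ 2 ≤ (∫ ξ, ‖φ ξ‖) * ∫ ξ, F w ξ := by
    intro w
    have hgc : Continuous fun ξ : ℝ => g ξ w := by
      have h1 : Continuous fun ξ : ℝ => ((w, ξ) : Om × ℝ) := by fun_prop
      exact hg.comp h1
    have h1 := R8_cs hφ hi hgc (fun ξ => hB ξ w)
    have h2 : ∫ ξ, F w ξ = Y w * ∫ ξ, ‖φ ξ‖ * ‖g ξ w‖ ^ 2 := by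
      rw [← integral_const_mul]
      congr 1
      funext ξ
      change ‖φ ξ‖ * (Y w * ‖g ξ w‖ ^ 2) = _
      ring
    rw [h2]
    have h4 := mul_le_mul_of_nonneg_left h1 (hY0 w)
    calc _ ≤ _ := h4
      _ = _ := by ring
  have hA : 0 ≤ ∫ ξ, ‖φ ξ‖ := integral_nonneg fun ξ => norm_nonneg _
  calc _ ≤ ∫ w, ((∫ ξ, ‖φ ξ‖) * (∫ ξ, F w ξ)) ∂mu := by
        refine integral_mono_of_nonneg (Filter.Eventually.of_forall fun w => ?_)
          (hFi.integral_prod_left.const_mul _) (Filter.Eventually.of_forall hpt)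
        exact mul_nonneg (hY0 w) (sq_nonneg _)
    _ = (∫ ξ, ‖φ ξ‖) * (∫ w, (∫ ξ, F w ξ) ∂mu) := by rw [integral_const_mul]
    _ = (∫ ξ, ‖φ ξ‖) * (∫ ξ, (∫ w, F w ξ ∂mu)) := by rw [integral_integral_swap hFi]
    _ ≤ (∫ ξ, ‖φ ξ‖) * (∫ ξ : ℝ, E * ((1 + |ξ|) ^ 14 * ‖φ ξ‖)) := by
        refine mul_le_mul_of_nonneg_left ?_ hA
        refine integral_mono_of_nonneg (Filter.Eventually.of_forall fun ξ => ?_)
          (hφi.const_mul _) (Filter.Eventually.of_forall fun ξ => ?_)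
        · exact integral_nonneg fun w => hF0 w ξ
        · change ∫ w, ‖φ ξ‖ * (Y w * ‖g ξ w‖ ^ 2) ∂mu ≤ _
          rw [integral_const_mul]
          have h1 := mul_le_mul_of_nonneg_left (hE ξ) (norm_nonneg (φ ξ))
          linarith
    _ = (∫ ξ, ‖φ ξ‖) * (E * ∫ ξ : ℝ, (1 + |ξ|) ^ 14 * ‖φ ξ‖) := by rw [integral_const_mul]

private lemma R8_cbx (y : ℝ) (p : ℕ) : Continuous fun ξ : ℝ => bx y ξ p := by
  unfold bx
  fun_prop

private lemma R8_cdx (y : ℝ) (h : ℂ) (p : ℕ) : Continuous fun ξ : ℝ => dx y ξ h p := by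
  unfold dx
  fun_prop

private lemma R8_cW (S : BS) (al : ℝ) (l : ℕ → ℕ) :
    Continuous fun w : Om => ‖W2 S al l (nX 0 w) (cj (nX 0 w))‖ ^ 2 := by
  refine (Continuous.norm ?_).pow 2
  unfold W2
  refine continuous_finsetProd _ fun j _ => ?_
  have h1 : Continuous fun w : Om => PS (S.R j) (nX 0 w) := continuous_PX (S.R j) 0
  have h2 : Continuous fun w : Om => PS (S.R j) (cj (nX 0 w)) := by
    unfold PS
    refine continuous_finsetSum _ fun p _ => ?_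
    have h3 : Continuous fun w : Om => conj (nX 0 w p) :=
      Complex.continuous_conj.comp (continuous_nX 0 p)
    exact h3
  exact (continuous_Ex (l j)).comp (continuous_const.mul ((h1.add h2).div_const 2))

private lemma R8_two {p : ℕ} (hp : p.Prime) : (p : ℝ) ^ (-(1 / 2) : ℝ) ≤ 3 / 4 := by
  have h2 : (2 : ℝ) ≤ p := by exact_mod_cast hp.two_le
  have h3 : (p : ℝ) ^ (-(1 / 2) : ℝ) ≤ (2 : ℝ) ^ (-(1 / 2) : ℝ) :=
    Real.rpow_le_rpow_of_nonpos (by norm_num) h2 (by norm_num)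
  have h4 : (4 / 3 : ℝ) ≤ (2 : ℝ) ^ (1 / 2 : ℝ) := by
    rw [← Real.sqrt_eq_rpow]
    exact Real.le_sqrt_of_sq_le (by norm_num)
  refine h3.trans ?_
  rw [Real.rpow_neg (by norm_num), inv_le_comm₀ (by positivity) (by norm_num)]
  norm_num at h4 ⊢
  exact h4

private lemma R8_inv {z : ℂ} (hz : ‖z‖ ≤ 3 / 4) : 1 - z ≠ 0 ∧ ‖(1 - z)⁻¹‖ ≤ 4 := by
  have h1 : 1 / 4 ≤ ‖1 - z‖ := by
    have h2 := norm_sub_norm_le (1 : ℂ) z
    rw [norm_one] at h2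
    linarith
  constructor
  · intro h
    rw [h, norm_zero] at h1
    norm_num at h1
  · rw [norm_inv, inv_le_comm₀ (by linarith) (by norm_num)]
    linarith

private lemma R8_yy {N : ℕ} {T : ℝ} (hT : (2 : ℝ) ^ (2 * (N + 1)) ≤ T) {i : ℕ} (hi : 1 ≤ i)
    (hiN : i ≤ N) : 2 ≤ yy N T i ∧ yy N T i ≤ (MM T : ℝ) ∧
    Real.log (yy N T i) ≤ 1 / 2 * Real.log T := by
  have h1 : (1 : ℝ) ≤ T := (one_le_pow₀ (by norm_num)).trans hT
  have h0 : 0 < T := by linarith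
  have hN : (0 : ℝ) < 2 * (N + 1) := by positivity
  have hi' : (1 : ℝ) ≤ i := by exact_mod_cast hi
  have hiN' : (i : ℝ) ≤ N := by exact_mod_cast hiN
  have he : (i : ℝ) * et N ≤ 1 / 2 := by
    unfold et
    rw [mul_one_div, div_le_iff₀ hN]
    linarith
  have he0 : et N ≤ (i : ℝ) * et N := by
    have : 0 ≤ et N := by unfold et; positivity
    nlinarith
  refine ⟨?_, ?_, ?_⟩
  · unfold yy
    calc (2 : ℝ) = (((2 : ℝ) ^ (2 * (N + 1))) : ℝ) ^ et N := by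
          rw [← Real.rpow_natCast, ← Real.rpow_mul (by norm_num)]
          unfold et
          push_cast
          rw [mul_one_div, div_self hN.ne', Real.rpow_one]
      _ ≤ T ^ et N := Real.rpow_le_rpow (by positivity) hT (by unfold et; positivity)
      _ ≤ T ^ ((i : ℝ) * et N) := Real.rpow_le_rpow_of_exponent_le h1 he0
  · unfold yy MM Mof
    have h2 : T ^ ((i : ℝ) * et N) ≤ T ^ (1 / 2 : ℝ) := Real.rpow_le_rpow_of_exponent_le h1 he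
    have h3 := Nat.lt_floor_add_one (T ^ (1 / 2 : ℝ))
    push_cast
    linarith
  · unfold yy
    rw [Real.log_rpow h0]
    exact mul_le_mul_of_nonneg_right he (Real.log_nonneg h1)

theorem exp4b_2 (N : ℕ) (hN : 1 ≤ N) : ∃ C0 : ℝ, ∀ D : ℝ, ∃ K T0 : ℝ, 1 ≤ K ∧
    ∀ {S : BS} {lam C ε : ℝ} {N0 : ℕ}, C0 ≤ C → T0 ≤ S.T → BG S lam C N0 D ε →
    ∀ h : ℂ, ‖h‖ ≤ 1 / Real.log S.T → ∀ i : ℕ, 1 ≤ i → i ≤ N →
    ∫ w, ‖Gx N (yy N S.T i) (nX h w) *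
      W2 S (lam - 1) (fun j => lm lam (S.l j)) (nX 0 w) (cj (nX 0 w))‖ ^ 2 ∂mu ≤
    K * Real.log S.T ^ (lam ^ 2) := by
  obtain ⟨φ, hφ, hφi, hF⟩ := fourier_kernel4 N hN
  obtain ⟨C0, hC0⟩ := exp4_2 N hN
  refine ⟨C0, fun D => ?_⟩
  obtain ⟨K', T0, hK', hxi⟩ := hC0 D
  set A : ℝ := ∫ ξ, ‖φ ξ‖ with hA
  set A8 : ℝ := ∫ ξ : ℝ, (1 + |ξ|) ^ 14 * ‖φ ξ‖ with hA8
  refine ⟨max 1 (A * (K' * A8)), max T0 ((2 : ℝ) ^ (2 * (N + 1))), le_max_left _ _, ?_⟩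
  intro S lam C ε N0 hC hT hS h hh i hi hiN
  have hT0 : T0 ≤ S.T := (le_max_left _ _).trans hT
  have hT1 : (2 : ℝ) ^ (2 * (N + 1)) ≤ S.T := (le_max_right _ _).trans hT
  obtain ⟨hy, hM, hly⟩ := R8_yy hT1 hi hiN
  have hTe : Real.exp 1 ≤ S.T := hS.1.T_ge
  have hTpos : 0 < S.T := (Real.exp_pos 1).trans_le hTe
  have hL1 : 1 ≤ Real.log S.T := by
    rw [Real.le_log_iff_exp_le hTpos]
    exact hTe
  have hhr : |h.re| * Real.log (yy N S.T i) ≤ 1 / 2 := by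
    have h1 : |h.re| ≤ 1 / Real.log S.T := (Complex.abs_re_le_norm h).trans hh
    have h2 : 0 ≤ Real.log (yy N S.T i) := Real.log_nonneg (by linarith)
    calc |h.re| * Real.log (yy N S.T i) ≤ 1 / Real.log S.T * (1 / 2 * Real.log S.T) :=
          mul_le_mul h1 hly h2 (by positivity)
      _ = 1 / 2 := by
          field_simp
  have hGx : ∀ w, Gx N (yy N S.T i) (nX h w) = ∫ ξ : ℝ, φ ξ *
      ∏ p ∈ Nat.primesBelow (MM S.T), (1 - dx (yy N S.T i) ξ h p * X p w)⁻¹ :=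
    fun w => Gx_eq N φ hφ hφi hF hy hM hhr w
  have hL : 0 ≤ Real.log S.T ^ (lam ^ 2) := Real.rpow_nonneg (by linarith) _
  have hpr : ∀ p ∈ Nat.primesBelow (MM S.T), p.Prime := fun p hp => (Nat.mem_primesBelow.1 hp).2
  have hd : ∀ (ξ : ℝ) (w : Om), ∀ p ∈ Nat.primesBelow (MM S.T),
      ‖dx (yy N S.T i) ξ h p * X p w‖ ≤ 3 / 4 := by
    intro ξ w p hp
    rw [norm_mul, norm_X, mul_one]
    exact (dx_le hTe hi hiN hh ξ (hpr p hp)).trans (R8_two (hpr p hp))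
  have key := R8_gen hφ hφi
    (g := fun ξ w => ∏ p ∈ Nat.primesBelow (MM S.T), (1 - dx (yy N S.T i) ξ h p * X p w)⁻¹)
    (B := 4 ^ (Nat.primesBelow (MM S.T)).card)
    (Y := fun w => ‖W2 S (lam - 1) (fun j => lm lam (S.l j)) (nX 0 w) (cj (nX 0 w))‖ ^ 2)
    (E := K' * Real.log S.T ^ (lam ^ 2)) (by
      refine continuous_finsetProd _ fun p hp => ?_
      have h2 : Continuous fun q : Om × ℝ => dx (yy N S.T i) q.2 h p :=
        (R8_cdx _ h p).comp continuous_snd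
      have h3 : Continuous fun q : Om × ℝ => X p q.1 := (continuous_X p).comp continuous_fst
      exact (continuous_const.sub (h2.mul h3)).inv₀ fun q => (R8_inv (hd q.2 q.1 p hp)).1) (by
      intro ξ w
      rw [norm_prod, ← Finset.prod_const]
      exact Finset.prod_le_prod (fun _ _ => norm_nonneg _) fun p hp => (R8_inv (hd ξ w p hp)).2)
    (R8_cW S _ _) (fun w => sq_nonneg _) (by
      intro ξ
      have h1 := hxi hC hT0 hS h hh i hi hiN ξ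
      refine le_trans (le_of_eq ?_) (h1.trans (le_of_eq ?_))
      · congr 1
        funext w
        rw [norm_prod, ← Finset.prod_pow]
        ring
      · ring)
  calc _ = ∫ w, ‖W2 S (lam - 1) (fun j => lm lam (S.l j)) (nX 0 w) (cj (nX 0 w))‖ ^ 2 *
      ‖∫ ξ : ℝ, φ ξ * ∏ p ∈ Nat.primesBelow (MM S.T),
        (1 - dx (yy N S.T i) ξ h p * X p w)⁻¹‖ ^ 2 ∂mu := by
        congr 1
        funext w
        rw [hGx w, norm_mul]
        ring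
    _ ≤ A * (K' * Real.log S.T ^ (lam ^ 2) * A8) := key
    _ = A * (K' * A8) * Real.log S.T ^ (lam ^ 2) := by ring
    _ ≤ _ := mul_le_mul_of_nonneg_right (le_max_right _ _) hL

theorem exp4b_4 (N : ℕ) (hN : 1 ≤ N) : ∃ C0 : ℝ, ∀ D : ℝ, ∃ K T0 : ℝ, 1 ≤ K ∧
    ∀ {S : BS} {lam C ε : ℝ} {N0 : ℕ}, C0 ≤ C → T0 ≤ S.T → BG S lam C N0 D ε →
    ∫ w, ‖Zt (Nat.primesBelow (MM S.T)) (1 / 2) w‖ ^ 2 *
      ‖Mx N (yy N S.T N) (nX 0 w) *
      W2 S lam (fun j => lp lam (S.l j)) (nX 0 w) (cj (nX 0 w))‖ ^ 2 ∂mu ≤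
    K * Real.log S.T ^ (lam ^ 2) := by
  obtain ⟨φ, hφ, hφi, hF⟩ := fourier_kernel4 N hN
  obtain ⟨C0, hC0⟩ := exp4_4 N hN
  refine ⟨C0, fun D => ?_⟩
  obtain ⟨K', T0, hK', hxi⟩ := hC0 D
  set A : ℝ := ∫ ξ, ‖φ ξ‖ with hA
  set A8 : ℝ := ∫ ξ : ℝ, (1 + |ξ|) ^ 14 * ‖φ ξ‖ with hA8
  refine ⟨max 1 (A * (K' * A8)), max T0 ((2 : ℝ) ^ (2 * (N + 1))), le_max_left _ _, ?_⟩
  intro S lam C ε N0 hC hT hS
  have hT0 : T0 ≤ S.T := (le_max_left _ _).trans hT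
  have hT1 : (2 : ℝ) ^ (2 * (N + 1)) ≤ S.T := (le_max_right _ _).trans hT
  obtain ⟨hy, hM, hly⟩ := R8_yy hT1 hN le_rfl
  have hTe : Real.exp 1 ≤ S.T := hS.1.T_ge
  have hTpos : 0 < S.T := (Real.exp_pos 1).trans_le hTe
  have hL1 : 1 ≤ Real.log S.T := by
    rw [Real.le_log_iff_exp_le hTpos]
    exact hTe
  have hMx : ∀ w, Mx N (yy N S.T N) (nX 0 w) = ∫ ξ : ℝ, φ ξ *
      ∏ p ∈ Nat.primesBelow (MM S.T), (1 - bx (yy N S.T N) ξ p * X p w) :=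
    fun w => Mx_eq N φ hφ hφi hF hy hM w
  have hL : 0 ≤ Real.log S.T ^ (lam ^ 2) := Real.rpow_nonneg (by linarith) _
  have hpr : ∀ p ∈ Nat.primesBelow (MM S.T), p.Prime := fun p hp => (Nat.mem_primesBelow.1 hp).2
  have hcZ := continuous_Zt (Nat.primesBelow (MM S.T)) hpr (σ := 1 / 2) (by norm_num)
  have key := R8_gen hφ hφi
    (g := fun ξ w => ∏ p ∈ Nat.primesBelow (MM S.T), (1 - bx (yy N S.T N) ξ p * X p w))
    (B := 2 ^ (Nat.primesBelow (MM S.T)).card)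
    (Y := fun w => ‖Zt (Nat.primesBelow (MM S.T)) (1 / 2) w‖ ^ 2 *
      ‖W2 S lam (fun j => lp lam (S.l j)) (nX 0 w) (cj (nX 0 w))‖ ^ 2)
    (E := K' * Real.log S.T ^ (lam ^ 2)) (by
      refine continuous_finsetProd _ fun p hp => ?_
      have h2 : Continuous fun q : Om × ℝ => bx (yy N S.T N) q.2 p :=
        (R8_cbx _ p).comp continuous_snd
      have h3 : Continuous fun q : Om × ℝ => X p q.1 := (continuous_X p).comp continuous_fst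
      exact continuous_const.sub (h2.mul h3)) (by
      intro ξ w
      rw [norm_prod, ← Finset.prod_const]
      refine Finset.prod_le_prod (fun _ _ => norm_nonneg _) fun p hp => ?_
      calc ‖1 - bx (yy N S.T N) ξ p * X p w‖ ≤ ‖(1 : ℂ)‖ + ‖bx (yy N S.T N) ξ p * X p w‖ :=
            norm_sub_le _ _
        _ ≤ 1 + 1 := by
          rw [norm_one, norm_mul, norm_X, mul_one]
          have h1 := bx_le (y := yy N S.T N) (by linarith) ξ (hpr p hp)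
          have h2 := R8_two (hpr p hp)
          linarith
        _ = 2 := by norm_num)
    ((hcZ.norm.pow 2).mul (R8_cW S _ _)) (fun w => by positivity) (by
      intro ξ
      have h1 := hxi hC hT0 hS ξ
      refine le_trans (le_of_eq ?_) (h1.trans (le_of_eq ?_))
      · congr 1
        funext w
        rw [norm_prod, ← Finset.prod_pow]
        ring
      · ring)
  calc _ = ∫ w, ‖Zt (Nat.primesBelow (MM S.T)) (1 / 2) w‖ ^ 2 *
      ‖W2 S lam (fun j => lp lam (S.l j)) (nX 0 w) (cj (nX 0 w))‖ ^ 2 *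
      ‖∫ ξ : ℝ, φ ξ * ∏ p ∈ Nat.primesBelow (MM S.T),
        (1 - bx (yy N S.T N) ξ p * X p w)‖ ^ 2 ∂mu := by
        congr 1
        funext w
        rw [hMx w, norm_mul]
        ring
    _ ≤ A * (K' * Real.log S.T ^ (lam ^ 2) * A8) := key
    _ = A * (K' * A8) * Real.log S.T ^ (lam ^ 2) := by ring
    _ ≤ _ := mul_le_mul_of_nonneg_right (le_max_right _ _) hL

end Pool.Agent.UV
end

section

/-! TASK R7c. The expectation for two frequencies (third moment, weight at `h = 0`). `full4` needs: `‖b p‖, ‖d p‖ ≤ u`, `0 ≤ Dp ≤ 5`, `‖u - b p + d p + al ccp h p - lam u‖ ≤ Dp p u`, `∑ Dp p/p ≤ V`, `|al| ≤ 1` (`0 < lam < 1`), `cc lam l_j ≤ l'_j` (`lm_bounds`, `lp_bounds` of UH/E2 with `BGood.l_big`), `‖h‖ ≤ 1/L`. (`u = p^{-1/2}`, `L = log T`; `BG` contains `BGood`; `S.T ≥ e`.)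
`b = bx (yy k) ξ'`, `d = dx (yy i) ξ h`, `al = lam - 1`, `l' = lm`: `u - b + d + (lam-1)u - lam u = (u - b) + (d - u)` (`ccp_zero`), `bx_le`, `bx_sub`, `dx_le`, `dx_sub`: `Dp = dp4 N T k ξ' + dp4 N T i ξ ≤ 4`. `V = 2C + 2 log(1+|ξ|) + 2 log(1+|ξ'|)` (`sum_dp4` twice), so
`e^{7V} = e^{14C} (1+|ξ|)^14 (1+|ξ'|)^14`. (`full4` at `h = 0` has the weight at `nX (-0)`, `cj (nX (conj 0))`.) -/

set_option autoImplicit false

namespace Pool.Agent.UV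

open Complex MeasureTheory Finset Pool.Agent.GH Pool.Agent.UH
open scoped Real ComplexConjugate

theorem exp4_3 (N : ℕ) (hN : 1 ≤ N) : ∃ C0 : ℝ, ∀ D : ℝ, ∃ K T0 : ℝ, 1 ≤ K ∧
    ∀ {S : BS} {lam C ε : ℝ} {N0 : ℕ}, C0 ≤ C → T0 ≤ S.T → BG S lam C N0 D ε →
    ∀ h : ℂ, ‖h‖ ≤ 1 / Real.log S.T → ∀ i k : ℕ, 1 ≤ i → 1 ≤ k → i + k ≤ N → ∀ ξ ξ' : ℝ,
    ∫ w, ‖Zt (Nat.primesBelow (MM S.T)) (1 / 2) w‖ ^ 2 *
      (∏ p ∈ Nat.primesBelow (MM S.T), ‖1 - bx (yy N S.T k) ξ' p * X p w‖ ^ 2) *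
      (∏ p ∈ Nat.primesBelow (MM S.T), ‖(1 - dx (yy N S.T i) ξ h p * X p w)⁻¹‖ ^ 2) *
      ‖W2 S (lam - 1) (fun j => lm lam (S.l j)) (nX 0 w) (cj (nX 0 w))‖ ^ 2 ∂mu ≤
    K * ((1 + |ξ|) ^ 14 * (1 + |ξ'|) ^ 14) * Real.log S.T ^ (lam ^ 2) := by
  obtain ⟨C0, H⟩ := full4
  obtain ⟨C1, T1, hC1, H1⟩ := sum_dp4 N hN
  refine ⟨C0, fun D => ?_⟩
  obtain ⟨K, T0, hK, H2⟩ := H D
  refine ⟨K * Real.exp (14 * C1), max T0 T1, ?_, ?_⟩
  · exact one_le_mul_of_one_le_of_one_le hK (Real.one_le_exp (by positivity))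
  intro S lam C ε N0 hC hT hBG h hh i k hi hk hik ξ ξ'
  have hB := hBG.1
  have hTe := hB.T_ge
  have hT1 : 1 ≤ S.T := (Real.one_le_exp zero_le_one).trans hTe
  have hL : 1 ≤ Real.log S.T := by
    rw [Real.le_log_iff_exp_le (by linarith)]
    exact hTe
  have hiN : i ≤ N := by omega
  have hkN : k ≤ N := by omega
  have hyk : 1 ≤ yy N S.T k := by
    unfold yy et
    exact Real.one_le_rpow hT1 (by positivity)
  have hpr : ∀ p ∈ Nat.primesBelow (MM S.T), p.Prime := fun p hp =>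
    Nat.prime_of_mem_primesBelow hp
  have hlam0 := hB.lam_pos
  have hlam1 := hB.lam_lt
  have hcc : 0 ≤ cc lam := by
    unfold cc
    have : 0 ≤ min lam (1 - lam) := le_min hlam0.le (by linarith)
    positivity
  have h1 := H2 hC (le_trans (le_max_left _ _) hT) hBG (bx (yy N S.T k) ξ')
    (dx (yy N S.T i) ξ h) (lam - 1)
    ((C1 + 2 * Real.log (1 + |ξ'|)) + (C1 + 2 * Real.log (1 + |ξ|)))
    (fun j => lm lam (S.l j)) 0 (fun p => dp4 N S.T k ξ' p + dp4 N S.T i ξ p)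
    (fun p hp => bx_le hyk ξ' (hpr p hp)) (fun p hp => dx_le hTe hi hiN hh ξ (hpr p hp))
    (fun p hp => by
      have hd1 := dp4_mem (N := N) hTe hk ξ' (hpr p hp)
      have hd2 := dp4_mem (N := N) hTe hi ξ (hpr p hp)
      refine ⟨add_nonneg hd1.1 hd2.1, by linarith [hd1.2, hd2.2], ?_⟩
      rw [ccp_zero (hpr p hp)]
      have e1 : (((p : ℝ) ^ (-(1 / 2) : ℝ) : ℝ) : ℂ) - bx (yy N S.T k) ξ' p +
          dx (yy N S.T i) ξ h p + ((lam - 1 : ℝ) : ℂ) * (((p : ℝ) ^ (-(1 / 2) : ℝ) : ℝ) : ℂ) -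
          lam * (((p : ℝ) ^ (-(1 / 2) : ℝ) : ℝ) : ℂ) =
          ((((p : ℝ) ^ (-(1 / 2) : ℝ) : ℝ) : ℂ) - bx (yy N S.T k) ξ' p) +
          (dx (yy N S.T i) ξ h p - (((p : ℝ) ^ (-(1 / 2) : ℝ) : ℝ) : ℂ)) := by
        push_cast
        ring
      rw [e1, add_mul]
      exact (norm_add_le _ _).trans (add_le_add (bx_sub hTe hk ξ' (hpr p hp))
        (dx_sub hTe hi hiN hh ξ (hpr p hp))))
    (by
      have hs : ∑ p ∈ Nat.primesBelow (MM S.T), (dp4 N S.T k ξ' p + dp4 N S.T i ξ p) / (p : ℝ) =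
          ∑ p ∈ Nat.primesBelow (MM S.T), dp4 N S.T k ξ' p / p +
          ∑ p ∈ Nat.primesBelow (MM S.T), dp4 N S.T i ξ p / p := by
        rw [← Finset.sum_add_distrib]
        exact Finset.sum_congr rfl fun p _ => add_div _ _ _
      rw [hs]
      exact add_le_add (H1 S.T ξ' (le_trans (le_max_right _ _) hT) k hk hkN)
        (H1 S.T ξ (le_trans (le_max_right _ _) hT) i hi hiN))
    (by rw [abs_le]; constructor <;> linarith)
    (fun j hj => by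
      have h3 := (lm_bounds hlam0 hlam1 (hB.l_big j hj).1).1
      have h4 : 0 ≤ cc lam * (S.l j : ℝ) := mul_nonneg hcc (Nat.cast_nonneg _)
      show cc lam * (S.l j : ℝ) ≤ (lm lam (S.l j) : ℝ)
      linarith)
    (by
      rw [norm_zero]
      exact div_nonneg zero_le_one (zero_le_one.trans hL))
  rw [neg_zero, map_zero] at h1
  refine h1.trans (le_of_eq ?_)
  have e2 : ∀ x : ℝ, Real.exp (14 * Real.log (1 + |x|)) = (1 + |x|) ^ 14 := by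
    intro x
    have h5 := Real.exp_nat_mul (Real.log (1 + |x|)) 14
    rw [Real.exp_log (by positivity)] at h5
    exact_mod_cast h5
  have e3 : Real.exp (7 * ((C1 + 2 * Real.log (1 + |ξ'|)) + (C1 + 2 * Real.log (1 + |ξ|)))) =
      Real.exp (14 * C1) * ((1 + |ξ|) ^ 14 * (1 + |ξ'|) ^ 14) := by
    rw [← e2 ξ, ← e2 ξ', ← Real.exp_add, ← Real.exp_add]
    congr 1
    ring
  rw [e3]
  ring

end Pool.Agent.UV
end

section

/-! TASK R8b. The expectation with the mollifier and the sum: integration over two frequencies. (Template: UH/R8.lean.) `Mx_eq`, `Gx_eq` (F2) for `y = yy N T i = T^{iη} ≥ 2` (`i ≥ 1`, `T ≥ T0(N)`), `M = MM T ≥ T^{1/2} ≥ y` (`i ≤ N`), with the `φ` of `fourier_kernel4`; the hypothesis `|Re h| log y ≤ 1/2` of `Gx_eq` holds because `|Re h| ≤ ‖h‖ ≤ 1/log T` and `log y = iη log T ≤ (1/2) log T`.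
Cauchy-Schwarz: `‖∫ φ g‖² ≤ (∫ ‖φ‖)(∫ ‖φ‖ ‖g‖²)` for continuous bounded `g`. Multiply by the remaining nonnegative factors, integrate over `w`, exchange the integrals (everything is continuous in `(w, ξ)` and bounded by a constant times `‖φ(ξ)‖`, finite products over the fixed finite set of primes; `mu` is a probability measure; or `lintegral` and Tonelli)
and use `exp4_3`: `E[..] ≤ (∫‖φ‖)² ∫∫ ‖φ(ξ)‖ ‖φ(ξ')‖ K (1+|ξ|)^14 (1+|ξ'|)^14 L^{lam²} dξ dξ'`. It may be convenient to prove first a general lemma: for continuous `g : ℝ → Om → ℂ`, `‖g ξ w‖ ≤ B`, and a continuous weight `ω ≥ 0`: `∫ ω ‖∫ φ(ξ) g ξ w dξ‖² dμ ≤ (∫‖φ‖) ∫ ‖φ(ξ)‖ (∫ ω ‖g ξ w‖² dμ) dξ`, and use it twice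
(first for the frequency `ξ'` of `Mx` with `ω = ‖Zt‖² ‖Gx‖² ‖W2‖²`, then for `ξ` with `ω = ‖Zt‖² ∏‖1 - bx ξ' X‖² ‖W2‖²`). -/

set_option autoImplicit false

namespace Pool.Agent.UV

open Complex MeasureTheory Finset Pool.Agent.GH Pool.Agent.UH
open scoped Real ComplexConjugate

private lemma R8b_cs {φ g : ℝ → ℂ} (hφ : Continuous φ) (hi : Integrable (fun ξ => ‖φ ξ‖))
    (hg : Continuous g) {B : ℝ} (hB : ∀ ξ, ‖g ξ‖ ≤ B) :
    ‖∫ ξ, φ ξ * g ξ‖ ^ 2 ≤ (∫ ξ, ‖φ ξ‖) * ∫ ξ, ‖φ ξ‖ * ‖g ξ‖ ^ 2 := by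
  have hB0 : 0 ≤ B := (norm_nonneg _).trans (hB 0)
  have i1 : Integrable (fun ξ => ‖φ ξ‖ * ‖g ξ‖) := by
    refine (hi.mul_const B).mono' (by fun_prop) (Filter.Eventually.of_forall fun ξ => ?_)
    rw [Real.norm_of_nonneg (by positivity)]
    exact mul_le_mul_of_nonneg_left (hB ξ) (norm_nonneg _)
  have i2 : Integrable (fun ξ => ‖φ ξ‖ * ‖g ξ‖ ^ 2) := by
    refine (hi.mul_const (B ^ 2)).mono' (by fun_prop) (Filter.Eventually.of_forall fun ξ => ?_)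
    rw [Real.norm_of_nonneg (by positivity)]
    exact mul_le_mul_of_nonneg_left (pow_le_pow_left₀ (norm_nonneg _) (hB ξ) 2) (norm_nonneg _)
  have h1 : ‖∫ ξ, φ ξ * g ξ‖ ≤ ∫ ξ, ‖φ ξ‖ * ‖g ξ‖ := by
    refine (norm_integral_le_integral_norm _).trans (le_of_eq ?_)
    simp only [norm_mul]
  have h2 : ∀ t : ℝ, 0 ≤ (∫ ξ, ‖φ ξ‖) * (t * t) + (-(2 * ∫ ξ, ‖φ ξ‖ * ‖g ξ‖)) * t +
      ∫ ξ, ‖φ ξ‖ * ‖g ξ‖ ^ 2 := by
    intro t
    have h3 : 0 ≤ ∫ ξ, ‖φ ξ‖ * (t - ‖g ξ‖) ^ 2 :=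
      integral_nonneg fun ξ => by positivity
    have h4 : ∫ ξ, ‖φ ξ‖ * (t - ‖g ξ‖) ^ 2 =
        ∫ ξ, (‖φ ξ‖ * (t * t) - (2 * t) * (‖φ ξ‖ * ‖g ξ‖) + ‖φ ξ‖ * ‖g ξ‖ ^ 2) := by
      congr 1
      funext ξ
      ring
    have e1 : Integrable (fun ξ => ‖φ ξ‖ * (t * t) - (2 * t) * (‖φ ξ‖ * ‖g ξ‖)) :=
      (hi.mul_const _).sub (i1.const_mul _)
    rw [h4, integral_add e1 i2, integral_sub (hi.mul_const _) (i1.const_mul _),
      integral_mul_const, integral_const_mul] at h3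
    linarith
  have h5 := discrim_le_zero h2
  unfold discrim at h5
  have h6 : (∫ ξ, ‖φ ξ‖ * ‖g ξ‖) ^ 2 ≤ (∫ ξ, ‖φ ξ‖) * ∫ ξ, ‖φ ξ‖ * ‖g ξ‖ ^ 2 := by nlinarith
  exact (pow_le_pow_left₀ (norm_nonneg _) h1 2).trans h6

private lemma R8b_gen {φ : ℝ → ℂ} (hφ : Continuous φ)
    (hφi : Integrable (fun ξ : ℝ => (1 + |ξ|) ^ 14 * ‖φ ξ‖))
    {g : ℝ → Om → ℂ} (hg : Continuous fun q : Om × ℝ => g q.2 q.1) {B : ℝ}
    (hB : ∀ ξ w, ‖g ξ w‖ ≤ B) {ω : Om → ℝ} (hω : Continuous ω) (hω0 : ∀ w, 0 ≤ ω w) {E : ℝ}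
    (hE : ∀ ξ : ℝ, ∫ w, ω w * ‖g ξ w‖ ^ 2 ∂mu ≤ E * (1 + |ξ|) ^ 14) :
    ∫ w, ω w * ‖∫ ξ : ℝ, φ ξ * g ξ w‖ ^ 2 ∂mu ≤
      (∫ ξ, ‖φ ξ‖) * (E * ∫ ξ : ℝ, (1 + |ξ|) ^ 14 * ‖φ ξ‖) := by
  have hi : Integrable (fun ξ => ‖φ ξ‖) := by
    refine hφi.mono' (by fun_prop) (Filter.Eventually.of_forall fun ξ => ?_)
    rw [Real.norm_of_nonneg (norm_nonneg _)]
    have h1 : (1 : ℝ) ≤ (1 + |ξ|) ^ 14 := one_le_pow₀ (by linarith [abs_nonneg ξ])
    exact le_mul_of_one_le_left (norm_nonneg _) h1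
  let F : Om → ℝ → ℝ := fun w ξ => ‖φ ξ‖ * (ω w * ‖g ξ w‖ ^ 2)
  have hF0 : ∀ w ξ, 0 ≤ F w ξ := by
    intro w ξ
    exact mul_nonneg (norm_nonneg _) (mul_nonneg (hω0 w) (by positivity))
  have hFc : Continuous (Function.uncurry F) := by
    have h6 : Continuous fun q : Om × ℝ => ‖φ q.2‖ := (hφ.comp continuous_snd).norm
    exact h6.mul ((hω.comp continuous_fst).mul (hg.norm.pow 2))
  obtain ⟨B1, hB1⟩ := exists_bound_of_continuous hω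
  have hFi : Integrable (Function.uncurry F) (mu.prod volume) := by
    have h1 : Integrable (fun q : Om × ℝ => ‖φ q.2‖) (mu.prod volume) := hi.comp_snd mu
    refine (h1.mul_const (B1 * B ^ 2)).mono' hFc.aestronglyMeasurable
      (Filter.Eventually.of_forall fun q => ?_)
    have h0 : 0 ≤ Function.uncurry F q := hF0 q.1 q.2
    rw [Real.norm_of_nonneg h0]
    change ‖φ q.2‖ * (ω q.1 * ‖g q.2 q.1‖ ^ 2) ≤ _
    refine mul_le_mul_of_nonneg_left ?_ (norm_nonneg _)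
    have e1 : ω q.1 ≤ B1 := by
      have := hB1 q.1
      rw [Real.norm_eq_abs] at this
      exact (le_abs_self _).trans this
    have e2 : ‖g q.2 q.1‖ ^ 2 ≤ B ^ 2 := pow_le_pow_left₀ (norm_nonneg _) (hB _ _) 2
    exact mul_le_mul e1 e2 (by positivity) ((hω0 q.1).trans e1)
  have hpt : ∀ w, ω w * ‖∫ ξ : ℝ, φ ξ * g ξ w‖ ^ 2 ≤ (∫ ξ, ‖φ ξ‖) * ∫ ξ, F w ξ := by
    intro w
    have hgc : Continuous fun ξ : ℝ => g ξ w :=
      hg.comp (continuous_const.prodMk continuous_id)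
    have h1 := R8b_cs hφ hi hgc (fun ξ => hB ξ w)
    have h2 : ∫ ξ, F w ξ = ω w * ∫ ξ, ‖φ ξ‖ * ‖g ξ w‖ ^ 2 := by
      rw [← integral_const_mul]
      congr 1
      funext ξ
      change ‖φ ξ‖ * (ω w * ‖g ξ w‖ ^ 2) = _
      ring
    rw [h2]
    calc ω w * ‖∫ ξ : ℝ, φ ξ * g ξ w‖ ^ 2 ≤
        ω w * ((∫ ξ, ‖φ ξ‖) * ∫ ξ, ‖φ ξ‖ * ‖g ξ w‖ ^ 2) :=
          mul_le_mul_of_nonneg_left h1 (hω0 w)
      _ = _ := by ring
  have hA : 0 ≤ ∫ ξ, ‖φ ξ‖ := integral_nonneg fun ξ => norm_nonneg _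
  calc _ ≤ ∫ w, ((∫ ξ, ‖φ ξ‖) * (∫ ξ, F w ξ)) ∂mu := by
        refine integral_mono_of_nonneg (Filter.Eventually.of_forall fun w => ?_)
          (hFi.integral_prod_left.const_mul _) (Filter.Eventually.of_forall hpt)
        exact mul_nonneg (hω0 w) (by positivity)
    _ = (∫ ξ, ‖φ ξ‖) * (∫ w, (∫ ξ, F w ξ) ∂mu) := by rw [integral_const_mul]
    _ = (∫ ξ, ‖φ ξ‖) * (∫ ξ, (∫ w, F w ξ ∂mu)) := by rw [integral_integral_swap hFi]
    _ ≤ (∫ ξ, ‖φ ξ‖) * (∫ ξ : ℝ, E * ((1 + |ξ|) ^ 14 * ‖φ ξ‖)) := by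
        refine mul_le_mul_of_nonneg_left ?_ hA
        refine integral_mono_of_nonneg (Filter.Eventually.of_forall fun ξ => ?_)
          (hφi.const_mul _) (Filter.Eventually.of_forall fun ξ => ?_)
        · exact integral_nonneg fun w => hF0 w ξ
        · change ∫ w, ‖φ ξ‖ * (ω w * ‖g ξ w‖ ^ 2) ∂mu ≤ _
          rw [integral_const_mul]
          have h1 := mul_le_mul_of_nonneg_left (hE ξ) (norm_nonneg (φ ξ))
          linarith
    _ = (∫ ξ, ‖φ ξ‖) * (E * ∫ ξ : ℝ, (1 + |ξ|) ^ 14 * ‖φ ξ‖) := by rw [integral_const_mul]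

private lemma R8b_bx {y ξ : ℝ} (hy : 1 ≤ y) {p : ℕ} (hp : 1 ≤ p) : ‖bx y ξ p‖ ≤ 1 := by
  unfold bx
  have hp' : (1 : ℝ) ≤ p := by exact_mod_cast hp
  rw [norm_mul, Complex.norm_exp, Complex.norm_real, Real.norm_of_nonneg (by positivity)]
  have h1 : (p : ℝ) ^ (-(1 / 2) : ℝ) ≤ 1 := Real.rpow_le_one_of_one_le_of_nonpos hp' (by norm_num)
  have h2 : Real.exp (-((1 - 2 * π * ξ * I) * ((Real.log p / Real.log y : ℝ) : ℂ))).re ≤ 1 := by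
    rw [Real.exp_le_one_iff]
    have h3 : (-((1 - 2 * π * ξ * I) * ((Real.log p / Real.log y : ℝ) : ℂ))).re =
        -(Real.log p / Real.log y) := by
      rw [Complex.neg_re, Complex.re_mul_ofReal]
      simp
    rw [h3]
    have : 0 ≤ Real.log p / Real.log y := div_nonneg (Real.log_nonneg hp') (Real.log_nonneg hy)
    linarith
  exact mul_le_one₀ h1 (Real.exp_pos _).le h2

private lemma R8b_cbx (y : ℝ) (p : ℕ) : Continuous fun ξ : ℝ => bx y ξ p := by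
  unfold bx
  fun_prop

private lemma R8b_cdx (y : ℝ) (h : ℂ) (p : ℕ) : Continuous fun ξ : ℝ => dx y ξ h p := by
  unfold dx
  fun_prop

private lemma R8b_dx {y ξ : ℝ} {h : ℂ} (hy : 1 < y) (hh : |h.re| * Real.log y ≤ 1 / 2) {p : ℕ}
    (hp : 2 ≤ p) : ‖dx y ξ h p‖ ≤ 3 / 4 := by
  unfold dx
  have hp' : (2 : ℝ) ≤ p := by exact_mod_cast hp
  have hY : 0 < Real.log y := Real.log_pos hy
  rw [norm_mul, Complex.norm_exp, Complex.norm_real, Real.norm_of_nonneg (by positivity)]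
  have h1 : (p : ℝ) ^ (-(1 / 2) : ℝ) ≤ 3 / 4 := by
    calc (p : ℝ) ^ (-(1 / 2) : ℝ) ≤ (2 : ℝ) ^ (-(1 / 2) : ℝ) :=
          Real.rpow_le_rpow_of_nonpos (by norm_num) hp' (by norm_num)
      _ ≤ 3 / 4 := by
          rw [Real.rpow_neg (by norm_num), ← Real.sqrt_eq_rpow]
          rw [inv_le_comm₀ (by positivity) (by norm_num)]
          apply Real.le_sqrt_of_sq_le
          norm_num
  have h2 : Real.exp (-((h + (1 - 2 * π * ξ * I) / (Real.log y : ℝ)) * (Real.log p : ℝ))).re ≤ 1 := by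
    rw [Real.exp_le_one_iff]
    have h3 : (-((h + (1 - 2 * π * ξ * I) / (Real.log y : ℝ)) * (Real.log p : ℝ)) : ℂ).re =
        -((h.re + 1 / Real.log y) * Real.log p) := by
      rw [Complex.neg_re, Complex.re_mul_ofReal, Complex.add_re, Complex.div_ofReal_re]
      simp
    rw [h3]
    have h4 : 0 ≤ Real.log p := Real.log_nonneg (by linarith)
    have h5 : 0 ≤ h.re + 1 / Real.log y := by
      have h6 : |h.re| ≤ 1 / Real.log y := by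
        rw [le_div_iff₀ hY]
        linarith
      have h7 := neg_abs_le h.re
      linarith
    have := mul_nonneg h5 h4
    linarith
  calc _ ≤ 3 / 4 * 1 := mul_le_mul h1 h2 (Real.exp_pos _).le (by norm_num)
    _ = 3 / 4 := by norm_num

private lemma R8b_fac {z : ℂ} (hz : ‖z‖ ≤ 3 / 4) : 1 - z ≠ 0 ∧ ‖(1 - z)⁻¹‖ ≤ 4 := by
  have h1 : 1 / 4 ≤ ‖1 - z‖ := by
    have := norm_sub_norm_le (1 : ℂ) z
    rw [norm_one] at this
    linarith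
  refine ⟨norm_pos_iff.1 (by linarith), ?_⟩
  rw [norm_inv, inv_le_comm₀ (by linarith) (by norm_num)]
  linarith

private lemma R8b_pp (s : Finset ℕ) (f : ℕ → ℂ) : ∏ p ∈ s, ‖f p‖ ^ 2 = ‖∏ p ∈ s, f p‖ ^ 2 := by
  rw [norm_prod, Finset.prod_pow]

private lemma R8b_two {φ : ℝ → ℂ} (hφ : Continuous φ)
    (hφi : Integrable (fun ξ : ℝ => (1 + |ξ|) ^ 14 * ‖φ ξ‖))
    {gM gG : ℝ → Om → ℂ} (hgMc : Continuous fun q : Om × ℝ => gM q.2 q.1)
    (hgGc : Continuous fun q : Om × ℝ => gG q.2 q.1) {B B' : ℝ}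
    (hgMb : ∀ ξ w, ‖gM ξ w‖ ≤ B) (hgGb : ∀ ξ w, ‖gG ξ w‖ ≤ B')
    {Z W G Q : Om → ℂ} (hZ : Continuous Z) (hW : Continuous W) (hGc : Continuous G)
    (hG : ∀ w, G w = ∫ ξ : ℝ, φ ξ * gG ξ w) (hQ : ∀ w, Q w = ∫ ξ : ℝ, φ ξ * gM ξ w) {E : ℝ}
    (hE : ∀ ξ ξ' : ℝ, ∫ w, ‖Z w‖ ^ 2 * ‖gM ξ' w‖ ^ 2 * ‖gG ξ w‖ ^ 2 * ‖W w‖ ^ 2 ∂mu ≤
      E * ((1 + |ξ|) ^ 14 * (1 + |ξ'|) ^ 14)) :
    ∫ w, ‖Z w‖ ^ 2 * ‖Q w * G w * W w‖ ^ 2 ∂mu ≤
      (∫ ξ, ‖φ ξ‖) * (((∫ ξ, ‖φ ξ‖) * (E * ∫ ξ : ℝ, (1 + |ξ|) ^ 14 * ‖φ ξ‖)) *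
        ∫ ξ : ℝ, (1 + |ξ|) ^ 14 * ‖φ ξ‖) := by
  have inner : ∀ ξ' : ℝ, ∫ w, (‖Z w‖ ^ 2 * ‖G w‖ ^ 2 * ‖W w‖ ^ 2) * ‖gM ξ' w‖ ^ 2 ∂mu ≤
      ((∫ ξ, ‖φ ξ‖) * (E * ∫ ξ : ℝ, (1 + |ξ|) ^ 14 * ‖φ ξ‖)) * (1 + |ξ'|) ^ 14 := by
    intro ξ'
    have hc : Continuous fun w : Om => ‖Z w‖ ^ 2 * ‖gM ξ' w‖ ^ 2 * ‖W w‖ ^ 2 := by
      have h1 : Continuous fun w : Om => gM ξ' w :=
        hgMc.comp (continuous_id.prodMk continuous_const)
      exact ((hZ.norm.pow 2).mul (h1.norm.pow 2)).mul (hW.norm.pow 2)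
    have key := R8b_gen hφ hφi hgGc hgGb hc (fun w => by positivity)
      (E := E * (1 + |ξ'|) ^ 14) (by
        intro ξ
        have h1 := hE ξ ξ'
        have h2 : ∫ w, ‖Z w‖ ^ 2 * ‖gM ξ' w‖ ^ 2 * ‖W w‖ ^ 2 * ‖gG ξ w‖ ^ 2 ∂mu =
            ∫ w, ‖Z w‖ ^ 2 * ‖gM ξ' w‖ ^ 2 * ‖gG ξ w‖ ^ 2 * ‖W w‖ ^ 2 ∂mu := by
          congr 1
          funext w
          ring
        rw [h2]
        linarith)
    have h3 : ∫ w, (‖Z w‖ ^ 2 * ‖G w‖ ^ 2 * ‖W w‖ ^ 2) * ‖gM ξ' w‖ ^ 2 ∂mu =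
        ∫ w, ‖Z w‖ ^ 2 * ‖gM ξ' w‖ ^ 2 * ‖W w‖ ^ 2 * ‖∫ ξ : ℝ, φ ξ * gG ξ w‖ ^ 2 ∂mu := by
      congr 1
      funext w
      rw [← hG w]
      ring
    rw [h3]
    linarith
  have hc : Continuous fun w : Om => ‖Z w‖ ^ 2 * ‖G w‖ ^ 2 * ‖W w‖ ^ 2 :=
    ((hZ.norm.pow 2).mul (hGc.norm.pow 2)).mul (hW.norm.pow 2)
  have key := R8b_gen hφ hφi hgMc hgMb hc (fun w => by positivity) inner
  have h3 : ∫ w, ‖Z w‖ ^ 2 * ‖Q w * G w * W w‖ ^ 2 ∂mu =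
      ∫ w, (‖Z w‖ ^ 2 * ‖G w‖ ^ 2 * ‖W w‖ ^ 2) * ‖∫ ξ : ℝ, φ ξ * gM ξ w‖ ^ 2 ∂mu := by
    congr 1
    funext w
    rw [← hQ w, norm_mul, norm_mul]
    ring
  rw [h3]
  exact key

theorem exp4b_3 (N : ℕ) (hN : 1 ≤ N) : ∃ C0 : ℝ, ∀ D : ℝ, ∃ K T0 : ℝ, 1 ≤ K ∧
    ∀ {S : BS} {lam C ε : ℝ} {N0 : ℕ}, C0 ≤ C → T0 ≤ S.T → BG S lam C N0 D ε →
    ∀ h : ℂ, ‖h‖ ≤ 1 / Real.log S.T → ∀ i k : ℕ, 1 ≤ i → 1 ≤ k → i + k ≤ N →
    ∫ w, ‖Zt (Nat.primesBelow (MM S.T)) (1 / 2) w‖ ^ 2 *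
      ‖Mx N (yy N S.T k) (nX 0 w) * Gx N (yy N S.T i) (nX h w) *
      W2 S (lam - 1) (fun j => lm lam (S.l j)) (nX 0 w) (cj (nX 0 w))‖ ^ 2 ∂mu ≤
    K * Real.log S.T ^ (lam ^ 2) := by
  obtain ⟨φ, hφ, hφi, hF⟩ := fourier_kernel4 N hN
  obtain ⟨C0, hC0⟩ := exp4_3 N hN
  refine ⟨C0, fun D => ?_⟩
  obtain ⟨K', T0, hK', hxi⟩ := hC0 D
  set A : ℝ := ∫ ξ, ‖φ ξ‖ with hA
  set A14 : ℝ := ∫ ξ : ℝ, (1 + |ξ|) ^ 14 * ‖φ ξ‖ with hA14
  have het : 0 < et N := by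
    unfold et
    positivity
  refine ⟨max 1 (A * (A * (K' * A14) * A14)), max T0 (2 ^ (1 / et N) + 1), le_max_left _ _, ?_⟩
  intro S lam C ε N0 hC hT hS h hh i k hi hk hik
  have hT0 : T0 ≤ S.T := (le_max_left _ _).trans hT
  have hT1 : (2 : ℝ) ^ (1 / et N) + 1 ≤ S.T := (le_max_right _ _).trans hT
  have h2e : (1 : ℝ) ≤ 2 ^ (1 / et N) := Real.one_le_rpow (by norm_num) (by positivity)
  have hT2 : (2 : ℝ) ≤ S.T := by linarith
  have hTpos : 0 < S.T := by linarith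
  have hlog : 0 < Real.log S.T := Real.log_pos (by linarith)
  have hyy : ∀ j : ℕ, 1 ≤ j → 2 ≤ yy N S.T j := by
    intro j hj
    unfold yy
    have hj' : (1 : ℝ) ≤ j := by exact_mod_cast hj
    calc (2 : ℝ) = (2 ^ (1 / et N)) ^ (et N) := by
          rw [← Real.rpow_mul (by norm_num), one_div, inv_mul_cancel₀ het.ne', Real.rpow_one]
      _ ≤ S.T ^ (et N) := Real.rpow_le_rpow (by positivity) (by linarith) het.le
      _ ≤ S.T ^ ((j : ℝ) * et N) := by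
          apply Real.rpow_le_rpow_of_exponent_le (by linarith)
          nlinarith
  have hex : ∀ j : ℕ, j ≤ N → (j : ℝ) * et N ≤ 1 / 2 := by
    intro j hj
    have hj' : (j : ℝ) ≤ N := by exact_mod_cast hj
    unfold et
    rw [mul_one_div, div_le_iff₀ (by positivity)]
    linarith
  have hyM : ∀ j : ℕ, j ≤ N → yy N S.T j ≤ (MM S.T : ℝ) := by
    intro j hj
    unfold yy MM Mof
    have h1 : S.T ^ ((j : ℝ) * et N) ≤ S.T ^ (1 / 2 : ℝ) :=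
      Real.rpow_le_rpow_of_exponent_le (by linarith) (hex j hj)
    have h2 := Nat.lt_floor_add_one (S.T ^ (1 / 2 : ℝ))
    push_cast
    linarith
  have hiN : i ≤ N := by omega
  have hkN : k ≤ N := by omega
  have hyi := hyy i hi
  have hyk := hyy k hk
  have hhre : |h.re| * Real.log (yy N S.T i) ≤ 1 / 2 := by
    have h1 : Real.log (yy N S.T i) = (i : ℝ) * et N * Real.log S.T := by
      unfold yy
      rw [Real.log_rpow hTpos]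
    have h2 : |h.re| ≤ 1 / Real.log S.T := (Complex.abs_re_le_norm h).trans hh
    rw [h1]
    have h3 : 0 ≤ (i : ℝ) * et N := by positivity
    calc |h.re| * ((i : ℝ) * et N * Real.log S.T) ≤
        1 / Real.log S.T * ((i : ℝ) * et N * Real.log S.T) :=
          mul_le_mul_of_nonneg_right h2 (by positivity)
      _ = (i : ℝ) * et N := by field_simp
      _ ≤ 1 / 2 := hex i hiN
  set M := MM S.T with hM
  have hpr : ∀ p ∈ Nat.primesBelow M, p.Prime := fun p hp => (Nat.mem_primesBelow.1 hp).2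
  have hcZ := continuous_Zt (Nat.primesBelow M) hpr (σ := 1 / 2) (by norm_num)
  let gM : ℝ → Om → ℂ := fun ξ w => ∏ p ∈ Nat.primesBelow M, (1 - bx (yy N S.T k) ξ p * X p w)
  let gG : ℝ → Om → ℂ := fun ξ w => ∏ p ∈ Nat.primesBelow M, (1 - dx (yy N S.T i) ξ h p * X p w)⁻¹
  have hMx : ∀ w, Mx N (yy N S.T k) (nX 0 w) = ∫ ξ : ℝ, φ ξ * gM ξ w :=
    fun w => Mx_eq N φ hφ hφi hF hyk (hyM k hkN) w
  have hGx : ∀ w, Gx N (yy N S.T i) (nX h w) = ∫ ξ : ℝ, φ ξ * gG ξ w :=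
    fun w => Gx_eq N φ hφ hφi hF hyi (hyM i hiN) hhre w
  have hgMc : Continuous fun q : Om × ℝ => gM q.2 q.1 := by
    refine continuous_finsetProd _ fun p _ => ?_
    have h2 : Continuous fun q : Om × ℝ => bx (yy N S.T k) q.2 p :=
      (R8b_cbx _ p).comp continuous_snd
    have h3 : Continuous fun q : Om × ℝ => X p q.1 := (continuous_X p).comp continuous_fst
    exact continuous_const.sub (h2.mul h3)
  have hdn : ∀ (ξ : ℝ) (w : Om), ∀ p ∈ Nat.primesBelow M,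
      ‖dx (yy N S.T i) ξ h p * X p w‖ ≤ 3 / 4 := by
    intro ξ w p hp
    rw [norm_mul, norm_X, mul_one]
    exact R8b_dx (by linarith) hhre (hpr p hp).two_le
  have hgGc : Continuous fun q : Om × ℝ => gG q.2 q.1 := by
    refine continuous_finsetProd _ fun p hp => ?_
    have h2 : Continuous fun q : Om × ℝ => dx (yy N S.T i) q.2 h p :=
      (R8b_cdx _ h p).comp continuous_snd
    have h3 : Continuous fun q : Om × ℝ => X p q.1 := (continuous_X p).comp continuous_fst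
    exact (continuous_const.sub (h2.mul h3)).inv₀ fun q => (R8b_fac (hdn q.2 q.1 p hp)).1
  have hgMb : ∀ ξ w, ‖gM ξ w‖ ≤ 2 ^ (Nat.primesBelow M).card := by
    intro ξ w
    change ‖∏ p ∈ Nat.primesBelow M, (1 - bx (yy N S.T k) ξ p * X p w)‖ ≤ _
    rw [norm_prod, ← Finset.prod_const]
    refine Finset.prod_le_prod (fun _ _ => norm_nonneg _) fun p hp => ?_
    calc ‖1 - bx (yy N S.T k) ξ p * X p w‖ ≤ ‖(1 : ℂ)‖ + ‖bx (yy N S.T k) ξ p * X p w‖ :=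
          norm_sub_le _ _
      _ ≤ 1 + 1 := by
        rw [norm_one, norm_mul, norm_X, mul_one]
        linarith [R8b_bx (ξ := ξ) (show 1 ≤ yy N S.T k by linarith) (hpr p hp).one_le]
      _ = 2 := by norm_num
  have hgGb : ∀ ξ w, ‖gG ξ w‖ ≤ 4 ^ (Nat.primesBelow M).card := by
    intro ξ w
    change ‖∏ p ∈ Nat.primesBelow M, (1 - dx (yy N S.T i) ξ h p * X p w)⁻¹‖ ≤ _
    rw [norm_prod, ← Finset.prod_const]
    exact Finset.prod_le_prod (fun _ _ => norm_nonneg _) fun p hp =>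
      (R8b_fac (hdn ξ w p hp)).2
  have hWc : Continuous fun w : Om =>
      W2 S (lam - 1) (fun j => lm lam (S.l j)) (nX 0 w) (cj (nX 0 w)) := by
    unfold W2
    refine continuous_finsetProd _ fun j _ => ?_
    have h1 : Continuous fun w : Om => PS (S.R j) (nX 0 w) := continuous_PX (S.R j) 0
    have h2 : Continuous fun w : Om => PS (S.R j) (cj (nX 0 w)) := by
      unfold PS
      refine continuous_finsetSum _ fun p _ => ?_
      exact Complex.continuous_conj.comp (continuous_nX 0 p)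
    exact (continuous_Ex _).comp (continuous_const.mul ((h1.add h2).div_const 2))
  have hGc : Continuous fun w : Om => Gx N (yy N S.T i) (nX h w) := by
    unfold Gx
    refine continuous_finsetSum _ fun n _ => ?_
    exact continuous_const.mul (continuous_nX h n)
  have hL : 0 ≤ Real.log S.T ^ (lam ^ 2) := Real.rpow_nonneg hlog.le _
  have key := R8b_two hφ hφi hgMc hgGc hgMb hgGb hcZ hWc hGc hGx hMx
    (E := K' * Real.log S.T ^ (lam ^ 2)) (by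
      intro ξ ξ'
      have h1 := hxi hC hT0 hS h hh i k hi hk hik ξ ξ'
      simp only [R8b_pp] at h1
      refine h1.trans (le_of_eq ?_)
      ring)
  refine key.trans ?_
  calc _ = A * (A * (K' * A14) * A14) * Real.log S.T ^ (lam ^ 2) := by ring
    _ ≤ _ := mul_le_mul_of_nonneg_right (le_max_right _ _) hL

end Pool.Agent.UV
end
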