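import Pool.Agent.Lib.MP_69b2e4_nt.Mg.G014
import Pool.Agent.Lib.MP_69b2e4_nt.Mg.G001
import Pool.Agent.Lib.MP_69b2e4_nt.UV.F1
import Pool.Agent.Lib.MP_69b2e4_nt.UV.Defs
import Pool.Agent.Lib.MP_69b2e4_nt.Mg.G039

section

/-! TASK P1b. Calculus of `IsP2`, second part (compare UH/D1.lean: same bookkeeping).
* `left`: a polynomial in the first character only, `F' = F × {1}`, `c (n, 1) = a n`.
* `PS`: `(PS R χ + PS R χ')/2 = ∑_{p∈R} (χ p χ' 1 + χ 1 χ' p)/2`; `∑ |c|/q.1 ≤ ∑_{p∈R} (1/2)(1/p + 1) ≤ card R ≤ N` (distinct naturals in `[1,N]`). (Use `isP2_left` and its mirror image, or directly.)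
* `Ex`: `Ex l (al x) = ∑_{i ≤ l} al^i x^i/i!`, `x^i` is `IsP2 (Q1^i) (Q2^i) (B^i)`, `∑_{i≤l} |al|^i B^i/i! ≤ B^l ∑ 1/i! ≤ 3 B^l` (`B ≥ 1`). `prod`: induction.
* `shift`: coefficients `c q * nC h q.1 * nC h' q.2` with `‖nC h m‖ = m^{-Re h} ≤ Q1^{|Re h|}` for `1 ≤ m ≤ Q1`.
* continuity: finite sums of continuous functions (`continuous_nX`/`continuous_XX` of GH; `nC (1/2 + t I) n = n^{-(1/2+ti)}` for `n ≠ 0`). -/

set_option autoImplicit false

namespace Pool.Agent.UV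

open Complex MeasureTheory Finset Pool.Agent.GH Pool.Agent.UH
open scoped Real ComplexConjugate

private theorem P1b_mk {ι : Type} {Q1 Q2 B : ℝ} {g : (ℕ →*₀ ℂ) → (ℕ →*₀ ℂ) → ℂ} (s : Finset ι)
    (u : ι → ℕ × ℕ) (a : ι → ℂ)
    (h1 : ∀ i ∈ s, (u i).1 ≠ 0 ∧ (u i).2 ≠ 0 ∧ ((u i).1 : ℝ) ≤ Q1 ∧ ((u i).2 : ℝ) ≤ Q2)
    (h2 : ∑ i ∈ s, ‖a i‖ / ((u i).1 : ℝ) ≤ B)
    (h3 : ∀ χ χ', g χ χ' = ∑ i ∈ s, a i * χ (u i).1 * χ' (u i).2) : IsP2 Q1 Q2 B g := by
  classical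
  refine ⟨s.image u, fun q => ∑ i ∈ s.filter (fun i => u i = q), a i, ?_, ?_, ?_⟩
  · intro q hq
    obtain ⟨i, hi, rfl⟩ := Finset.mem_image.mp hq
    exact h1 i hi
  · calc ∑ q ∈ s.image u, ‖∑ i ∈ s.filter (fun i => u i = q), a i‖ / (q.1 : ℝ)
        ≤ ∑ q ∈ s.image u, ∑ i ∈ s.filter (fun i => u i = q), ‖a i‖ / ((u i).1 : ℝ) := by
          refine Finset.sum_le_sum fun q _ => ?_
          have k1 : ∑ i ∈ s.filter (fun i => u i = q), ‖a i‖ / ((u i).1 : ℝ) =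
              (∑ i ∈ s.filter (fun i => u i = q), ‖a i‖) / (q.1 : ℝ) := by
            rw [Finset.sum_div]
            refine Finset.sum_congr rfl fun i hi => ?_
            rw [(Finset.mem_filter.mp hi).2]
          rw [k1]
          exact div_le_div_of_nonneg_right (norm_sum_le _ _) (Nat.cast_nonneg _)
      _ = ∑ i ∈ s, ‖a i‖ / ((u i).1 : ℝ) :=
          Finset.sum_fiberwise_of_maps_to (fun i hi => Finset.mem_image_of_mem _ hi) _
      _ ≤ B := h2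
  · intro χ χ'
    rw [h3, ← Finset.sum_fiberwise_of_maps_to (t := s.image u) (g := u)
      (fun i hi => Finset.mem_image_of_mem _ hi)]
    refine Finset.sum_congr rfl fun q _ => ?_
    rw [Finset.sum_mul, Finset.sum_mul]
    refine Finset.sum_congr rfl fun i hi => ?_
    rw [(Finset.mem_filter.mp hi).2]

theorem isP2_left (F : Finset ℕ) (a : ℕ → ℂ) {Q : ℝ} (hF : ∀ n ∈ F, n ≠ 0 ∧ (n : ℝ) ≤ Q) :
    IsP2 Q 1 (∑ n ∈ F, ‖a n‖ / (n : ℝ)) (fun χ _ => ∑ n ∈ F, a n * χ n) := by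
  refine P1b_mk F (fun n => (n, 1)) a ?_ (le_refl _) ?_
  · intro n hn
    exact ⟨(hF n hn).1, one_ne_zero, (hF n hn).2, by simp⟩
  · intro χ χ'
    refine Finset.sum_congr rfl fun n _ => ?_
    simp

theorem isP2_PS (R : Finset ℕ) {N : ℝ} (hN : 1 ≤ N) (hR : ∀ p ∈ R, p ≠ 0 ∧ (p : ℝ) ≤ N) :
    IsP2 N N N (fun χ χ' => (PS R χ + PS R χ') / 2) := by
  refine P1b_mk (R.disjSum R) (Sum.elim (fun p => (p, 1)) (fun p => (1, p))) (fun _ => 1 / 2)
    ?_ ?_ ?_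
  · intro i hi
    rcases i with i | i
    · obtain ⟨a1, a2⟩ := hR i (Finset.inl_mem_disjSum.mp hi)
      exact ⟨a1, one_ne_zero, a2, by simpa using hN⟩
    · obtain ⟨a1, a2⟩ := hR i (Finset.inr_mem_disjSum.mp hi)
      exact ⟨one_ne_zero, a1, by simpa using hN, a2⟩
  · have hcard : (R.card : ℝ) ≤ N := by
      have k1 : R ⊆ Finset.Icc 1 ⌊N⌋₊ := by
        intro p hp
        rw [Finset.mem_Icc]
        exact ⟨Nat.one_le_iff_ne_zero.mpr (hR p hp).1,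
          (Nat.le_floor_iff (by linarith)).mpr (hR p hp).2⟩
      have k2 := Finset.card_le_card k1
      rw [Nat.card_Icc, Nat.add_sub_cancel] at k2
      exact (Nat.cast_le.mpr k2).trans (Nat.floor_le (by linarith))
    have hn : ‖(1 / 2 : ℂ)‖ = 1 / 2 := by simp
    rw [Finset.sum_disjSum]
    have k3 : ∑ p ∈ R, ‖(1 / 2 : ℂ)‖ / (((Sum.elim (fun p => (p, 1)) (fun p => (1, p)) :
        ℕ ⊕ ℕ → ℕ × ℕ) (Sum.inl p)).1 : ℝ) ≤ ∑ _p ∈ R, (1 / 2 : ℝ) := by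
      refine Finset.sum_le_sum fun p hp => ?_
      rw [hn]
      have hp1 : (1 : ℝ) ≤ p := by exact_mod_cast Nat.one_le_iff_ne_zero.mpr (hR p hp).1
      exact div_le_self (by norm_num) hp1
    have k4 : ∑ p ∈ R, ‖(1 / 2 : ℂ)‖ / (((Sum.elim (fun p => (p, 1)) (fun p => (1, p)) :
        ℕ ⊕ ℕ → ℕ × ℕ) (Sum.inr p)).1 : ℝ) ≤ ∑ _p ∈ R, (1 / 2 : ℝ) := by
      refine Finset.sum_le_sum fun p hp => ?_
      rw [hn]
      simp
    rw [Finset.sum_const, nsmul_eq_mul] at k3 k4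
    linarith
  · intro χ χ'
    rw [Finset.sum_disjSum]
    unfold PS
    rw [add_div, Finset.sum_div, Finset.sum_div]
    congr 1
    · refine Finset.sum_congr rfl fun p _ => ?_
      simp
      ring
    · refine Finset.sum_congr rfl fun p _ => ?_
      simp
      ring

private theorem P1b_pow {Q1 Q2 B : ℝ} {g : (ℕ →*₀ ℂ) → (ℕ →*₀ ℂ) → ℂ} (hg : IsP2 Q1 Q2 B g)
    (i : ℕ) : IsP2 (Q1 ^ i) (Q2 ^ i) (B ^ i) (fun χ χ' => g χ χ' ^ i) := by
  induction i with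
  | zero =>
    have h := isP2_const 1
    simpa using h
  | succ i ih =>
    have h := IsP2.mul ih hg
    simpa only [pow_succ] using h

private theorem P1b_smul {Q1 Q2 B : ℝ} {g : (ℕ →*₀ ℂ) → (ℕ →*₀ ℂ) → ℂ} (hg : IsP2 Q1 Q2 B g)
    (c : ℂ) : IsP2 Q1 Q2 (‖c‖ * B) (fun χ χ' => c * g χ χ') := by
  have h := IsP2.mul (isP2_const c) hg
  rw [one_mul, one_mul] at h
  exact h

private theorem P1b_Ex {Q1 Q2 B : ℝ} (h1 : 1 ≤ Q1) (h2 : 1 ≤ Q2) (hB : 1 ≤ B)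
    {x : (ℕ →*₀ ℂ) → (ℕ →*₀ ℂ) → ℂ} (hx : IsP2 Q1 Q2 B x) (l : ℕ) {al : ℝ} (hal : |al| ≤ 1) :
    IsP2 (Q1 ^ l) (Q2 ^ l) (∑ i ∈ range (l + 1), B ^ i / (i.factorial : ℝ))
      (fun χ χ' => Ex l (al * x χ χ')) := by
  have hterm : ∀ i : ℕ, IsP2 (Q1 ^ i) (Q2 ^ i) (B ^ i / (i.factorial : ℝ))
      (fun χ χ' => (al * x χ χ') ^ i / (i.factorial : ℂ)) := by
    intro i
    have h := P1b_smul (P1b_pow hx i) ((al : ℂ) ^ i / (i.factorial : ℂ))
    have h1 : ‖(al : ℂ) ^ i / (i.factorial : ℂ)‖ * B ^ i ≤ B ^ i / (i.factorial : ℝ) := by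
      rw [norm_div, norm_pow, Complex.norm_real, Real.norm_eq_abs, Complex.norm_natCast,
        div_mul_eq_mul_div]
      refine div_le_div_of_nonneg_right ?_ (Nat.cast_nonneg _)
      exact mul_le_of_le_one_left (by positivity) (pow_le_one₀ (abs_nonneg _) hal)
    have h2 := h.mono (le_refl _) (le_refl _) h1
    have h3 : (fun χ χ' : ℕ →*₀ ℂ => (al : ℂ) ^ i / (i.factorial : ℂ) * x χ χ' ^ i) =
        fun χ χ' => (al * x χ χ') ^ i / (i.factorial : ℂ) := by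
      funext χ χ'
      ring
    rw [h3] at h2
    exact h2
  induction l with
  | zero =>
    have h := hterm 0
    have h3 : (fun χ χ' : ℕ →*₀ ℂ => Ex 0 (al * x χ χ')) =
        fun χ χ' => (al * x χ χ') ^ 0 / ((0 : ℕ).factorial : ℂ) := by
      funext χ χ'
      unfold Ex
      rw [Finset.sum_range_one]
    rw [h3, Finset.sum_range_one]
    exact h
  | succ l ih =>
    have h := IsP2.add (ih.mono (pow_le_pow_right₀ h1 (Nat.le_succ l))
      (pow_le_pow_right₀ h2 (Nat.le_succ l)) (le_refl _)) (hterm (l + 1))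
    have h3 : (fun χ χ' : ℕ →*₀ ℂ => Ex (l + 1) (al * x χ χ')) =
        fun χ χ' => Ex l (al * x χ χ') + (al * x χ χ') ^ (l + 1) / ((l + 1).factorial : ℂ) := by
      funext χ χ'
      unfold Ex
      rw [Finset.sum_range_succ (n := l + 1)]
    rw [h3, Finset.sum_range_succ (n := l + 1)]
    exact h

theorem isP2_Ex {Q1 Q2 B : ℝ} (h1 : 1 ≤ Q1) (h2 : 1 ≤ Q2) (hB : 1 ≤ B)
    {x : (ℕ →*₀ ℂ) → (ℕ →*₀ ℂ) → ℂ} (hx : IsP2 Q1 Q2 B x) (l : ℕ) {al : ℝ} (hal : |al| ≤ 1) :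
    IsP2 (Q1 ^ l) (Q2 ^ l) (3 * B ^ l) (fun χ χ' => Ex l (al * x χ χ')) := by
  refine (P1b_Ex h1 h2 hB hx l hal).mono (le_refl _) (le_refl _) ?_
  have k1 : ∑ i ∈ range (l + 1), B ^ i / (i.factorial : ℝ) ≤
      ∑ i ∈ range (l + 1), B ^ l * ((1 : ℝ) ^ i / (i.factorial : ℝ)) := by
    refine Finset.sum_le_sum fun i hi => ?_
    rw [one_pow, mul_one_div]
    refine div_le_div_of_nonneg_right ?_ (Nat.cast_nonneg _)
    exact pow_le_pow_right₀ hB (Nat.lt_succ_iff.mp (Finset.mem_range.mp hi))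
  rw [← Finset.mul_sum] at k1
  have k2 := Real.sum_le_exp_of_nonneg (zero_le_one : (0 : ℝ) ≤ 1) (l + 1)
  have k3 : Real.exp 1 ≤ 3 := by
    have := Real.exp_one_lt_d9
    linarith
  have k4 : (0 : ℝ) ≤ B ^ l := by positivity
  calc ∑ i ∈ range (l + 1), B ^ i / (i.factorial : ℝ)
      ≤ B ^ l * ∑ i ∈ range (l + 1), (1 : ℝ) ^ i / (i.factorial : ℝ) := k1
    _ ≤ B ^ l * 3 := mul_le_mul_of_nonneg_left (k2.trans k3) k4
    _ = 3 * B ^ l := mul_comm _ _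

theorem isP2_prod (n : ℕ) (Q1 Q2 B : ℕ → ℝ) (g : ℕ → (ℕ →*₀ ℂ) → (ℕ →*₀ ℂ) → ℂ)
    (hg : ∀ j < n, IsP2 (Q1 j) (Q2 j) (B j) (g j)) :
    IsP2 (∏ j ∈ range n, Q1 j) (∏ j ∈ range n, Q2 j) (∏ j ∈ range n, B j)
      (fun χ χ' => ∏ j ∈ range n, g j χ χ') := by
  induction n with
  | zero =>
    have h := isP2_const 1
    simpa using h
  | succ n ih =>
    have h := IsP2.mul (ih fun j hj => hg j (hj.trans (Nat.lt_succ_self n)))
      (hg n (Nat.lt_succ_self n))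
    simpa only [Finset.prod_range_succ] using h

private theorem P1b_nC_le {Q : ℝ} (h : ℂ) {m : ℕ} (hm : m ≠ 0) (hmQ : (m : ℝ) ≤ Q) :
    ‖nC h m‖ ≤ Q ^ |h.re| := by
  rw [norm_nC h hm]
  have hm1 : (1 : ℝ) ≤ m := by exact_mod_cast Nat.one_le_iff_ne_zero.mpr hm
  exact (Real.rpow_le_rpow_of_exponent_le hm1 (neg_le_abs _)).trans
    (Real.rpow_le_rpow (Nat.cast_nonneg _) hmQ (abs_nonneg _))

theorem IsP2.shift {Q1 Q2 B : ℝ} {g : (ℕ →*₀ ℂ) → (ℕ →*₀ ℂ) → ℂ} (hg : IsP2 Q1 Q2 B g)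
    (hQ1 : 1 ≤ Q1) (hQ2 : 1 ≤ Q2) (h h' : ℂ) :
    IsP2 Q1 Q2 (B * (Q1 ^ |h.re| * Q2 ^ |h'.re|)) (fun χ χ' => g (χ * nC h) (χ' * nC h')) := by
  obtain ⟨F, c, h1, h2, h3⟩ := hg
  refine ⟨F, fun q => c q * nC h q.1 * nC h' q.2, h1, ?_, ?_⟩
  · have hnn : 0 ≤ Q1 ^ |h.re| * Q2 ^ |h'.re| :=
      mul_nonneg (Real.rpow_nonneg (by linarith) _) (Real.rpow_nonneg (by linarith) _)
    refine le_trans ?_ (mul_le_mul_of_nonneg_right h2 hnn)
    rw [Finset.sum_mul]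
    refine Finset.sum_le_sum fun q hq => ?_
    obtain ⟨a1, a2, a3, a4⟩ := h1 q hq
    rw [norm_mul, norm_mul, mul_assoc, div_mul_eq_mul_div]
    refine div_le_div_of_nonneg_right ?_ (Nat.cast_nonneg _)
    refine mul_le_mul_of_nonneg_left ?_ (norm_nonneg _)
    exact mul_le_mul (P1b_nC_le h a1 a3) (P1b_nC_le h' a2 a4) (norm_nonneg _)
      (Real.rpow_nonneg (by linarith) _)
  · intro χ χ'
    beta_reduce
    rw [h3]
    refine Finset.sum_congr rfl fun q _ => ?_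
    have e1 : (χ * nC h) q.1 = χ q.1 * nC h q.1 := rfl
    have e2 : (χ' * nC h') q.2 = χ' q.2 * nC h' q.2 := rfl
    rw [e1, e2]
    ring

theorem IsP2.continuous {Q1 Q2 B : ℝ} {g : (ℕ →*₀ ℂ) → (ℕ →*₀ ℂ) → ℂ} (hg : IsP2 Q1 Q2 B g)
    (z z' : ℂ) : Continuous fun v => g (nX z v) (cj (nX z' v)) := by
  obtain ⟨F, c, -, -, h⟩ := hg
  have h1 : (fun v => g (nX z v) (cj (nX z' v))) =
      fun v => ∑ q ∈ F, c q * nX z v q.1 * conj (nX z' v q.2) := by
    funext v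
    exact h _ _
  rw [h1]
  exact continuous_finsetSum _ fun q _ => (continuous_const.mul (continuous_nX z q.1)).mul
    (Complex.continuous_conj.comp (continuous_nX z' q.2))

theorem IsP2.continuous_line {Q1 Q2 B : ℝ} {g : (ℕ →*₀ ℂ) → (ℕ →*₀ ℂ) → ℂ} (hg : IsP2 Q1 Q2 B g) :
    Continuous fun t : ℝ => g (nC (1 / 2 + t * I)) (nC (1 / 2 - t * I)) := by
  obtain ⟨F, c, -, -, h⟩ := hg
  have hc : ∀ n : ℕ, Continuous fun t : ℝ => nC (1 / 2 + t * I) n := by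
    intro n
    rcases eq_or_ne n 0 with rfl | hn
    · simp only [map_zero]
      exact continuous_const
    · have h1 : (fun t : ℝ => nC (1 / 2 + t * I) n) = fun t : ℝ => (n : ℂ) ^ (-(1 / 2 + t * I)) := by
        funext t
        exact nC_apply _ hn
      rw [h1]
      refine Continuous.const_cpow ?_ (Or.inl (Nat.cast_ne_zero.mpr hn))
      exact (continuous_const.add (Complex.continuous_ofReal.mul continuous_const)).neg
  have hc' : ∀ n : ℕ, Continuous fun t : ℝ => nC (1 / 2 - t * I) n := by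
    intro n
    rcases eq_or_ne n 0 with rfl | hn
    · simp only [map_zero]
      exact continuous_const
    · have h1 : (fun t : ℝ => nC (1 / 2 - t * I) n) = fun t : ℝ => (n : ℂ) ^ (-(1 / 2 - t * I)) := by
        funext t
        exact nC_apply _ hn
      rw [h1]
      refine Continuous.const_cpow ?_ (Or.inl (Nat.cast_ne_zero.mpr hn))
      exact (continuous_const.sub (Complex.continuous_ofReal.mul continuous_const)).neg
  have h1 : (fun t : ℝ => g (nC (1 / 2 + t * I)) (nC (1 / 2 - t * I))) =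
      fun t : ℝ => ∑ q ∈ F, c q * nC (1 / 2 + t * I) q.1 * nC (1 / 2 - t * I) q.2 := by
    funext t
    exact h _ _
  rw [h1]
  exact continuous_finsetSum _ fun q _ => (continuous_const.mul (hc q.1)).mul (hc' q.2)

end Pool.Agent.UV
end

section

/-! TASK P2. The weights as polynomials in two characters.
`W2_cj`: `PS R (cj χ) = conj (PS R χ)`, `(z + conj z)/2 = Re z`, `Ex l (x : ℂ) = ExR l x` (`exR_eq` of UH/E1); product over `j`.
`W2_dp`: each factor `j ≤ J` is `IsP2 (N_j^{l'_j}) (N_j^{l'_j}) (3 N_j^{l'_j})` (`isP2_PS`, `isP2_Ex`, `al * ((PS χ + PS χ')/2)`), multiply (`isP2_prod`): `∏ N_j^{l'_j} ≤ exp(∑ l_j log N_j) ≤ T^ε`, `∏ 3 N_j^{l'_j} ≤ exp(∑ (l_j log N_j + 10)) ≤ T^ε`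
(second part of `BG`; `l'_j ≤ l_j`, `N_j ≥ 1` (`BGood.N_ge`), `log 3 ≤ 10`; primes `≤ N_j`: `BGood.prime`). -/

set_option autoImplicit false

namespace Pool.Agent.UV

open Complex MeasureTheory Finset Pool.Agent.GH Pool.Agent.UH
open scoped Real ComplexConjugate

theorem W2_cj (S : BS) (al : ℝ) (l' : ℕ → ℕ) (χ : ℕ →*₀ ℂ) :
    W2 S al l' χ (cj χ) = ((S.W al l' χ : ℝ) : ℂ) := by
  have h1 : ∀ R : Finset ℕ, PS R (cj χ) = conj (PS R χ) := by
    intro R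
    rw [PS, PS, map_sum]
    rfl
  have h2 : ∀ R : Finset ℕ, (PS R χ + PS R (cj χ)) / 2 = (((PS R χ).re : ℝ) : ℂ) := by
    intro R
    rw [h1, Complex.add_conj]
    push_cast
    ring
  rw [W2, BS.W, Complex.ofReal_prod]
  refine Finset.prod_congr rfl fun j _ => ?_
  rw [h2, ← Complex.ofReal_mul, exR_eq]

private theorem P2_pow {N : ℝ} (hN : 1 ≤ N) {l l' : ℕ} (hl : l' ≤ l) :
    3 * N ^ l' ≤ Real.exp ((l : ℝ) * Real.log N + 10) := by
  have h0 : 0 ≤ Real.log N := Real.log_nonneg hN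
  have h1 : N ^ l' ≤ Real.exp ((l : ℝ) * Real.log N) := by
    calc N ^ l' ≤ N ^ l := pow_le_pow_right₀ hN hl
      _ = Real.exp ((l : ℝ) * Real.log N) := by
          rw [← Real.log_pow, Real.exp_log (pow_pos (by linarith) l)]
  have h2 : (3 : ℝ) ≤ Real.exp 10 := by
    have := Real.add_one_le_exp (10 : ℝ)
    linarith
  rw [Real.exp_add, mul_comm]
  exact mul_le_mul h1 h2 (by norm_num) (Real.exp_pos _).le

private theorem P2_prod {S : BS} {lam C D ε : ℝ} {N0 : ℕ} (hS : BG S lam C N0 D ε) {g : ℕ → ℝ}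
    (h0 : ∀ j ≤ S.J, 0 ≤ g j) (h1 : ∀ j ≤ S.J, g j ≤ Real.exp ((S.l j : ℝ) * Real.log (S.N j) + 10)) :
    ∏ j ∈ range (S.J + 1), g j ≤ S.T ^ ε := by
  have hT : 0 < S.T := (Real.exp_pos 1).trans_le hS.1.T_ge
  calc ∏ j ∈ range (S.J + 1), g j
      ≤ ∏ j ∈ range (S.J + 1), Real.exp ((S.l j : ℝ) * Real.log (S.N j) + 10) := by
        refine Finset.prod_le_prod (fun j hj => h0 j ?_) fun j hj => h1 j ?_
        · exact Nat.lt_succ_iff.1 (Finset.mem_range.1 hj)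
        · exact Nat.lt_succ_iff.1 (Finset.mem_range.1 hj)
    _ = Real.exp (∑ j ∈ range (S.J + 1), ((S.l j : ℝ) * Real.log (S.N j) + 10)) := (Real.exp_sum _ _).symm
    _ ≤ Real.exp (ε * Real.log S.T) := Real.exp_le_exp.2 hS.2
    _ = S.T ^ ε := by rw [Real.rpow_def_of_pos hT, mul_comm]

theorem W2_dp {S : BS} {lam C D ε : ℝ} {N0 : ℕ} (hS : BG S lam C N0 D ε) {al : ℝ} (hal : |al| ≤ 1)
    {l' : ℕ → ℕ} (hl : ∀ j ≤ S.J, l' j ≤ S.l j) :
    IsP2 (S.T ^ ε) (S.T ^ ε) (S.T ^ ε) (W2 S al l') := by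
  have h1 := isP2_prod (S.J + 1) (fun j => S.N j ^ l' j) (fun j => S.N j ^ l' j)
    (fun j => 3 * S.N j ^ l' j)
    (fun j χ χ' => Ex (l' j) (al * ((PS (S.R j) χ + PS (S.R j) χ') / 2))) (by
      intro j hj
      have hj' : j ≤ S.J := Nat.lt_succ_iff.1 hj
      have hN := hS.1.N_ge j hj'
      refine isP2_Ex hN hN hN (isP2_PS (S.R j) hN fun p hp => ?_) (l' j) hal
      obtain ⟨h2, -, h3⟩ := hS.1.prime j hj' p hp
      exact ⟨h2.ne_zero, h3⟩)
  have h3 : ∀ j ≤ S.J, 1 ≤ S.N j ^ l' j := fun j hj => one_le_pow₀ (hS.1.N_ge j hj)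
  have h4 : ∀ j ≤ S.J, 3 * S.N j ^ l' j ≤ Real.exp ((S.l j : ℝ) * Real.log (S.N j) + 10) :=
    fun j hj => P2_pow (hS.1.N_ge j hj) (hl j hj)
  have h5 : ∏ j ∈ range (S.J + 1), S.N j ^ l' j ≤ S.T ^ ε := by
    refine P2_prod hS (fun j hj => ?_) fun j hj => ?_
    · linarith [h3 j hj]
    · linarith [h3 j hj, h4 j hj]
  have h6 : ∏ j ∈ range (S.J + 1), (3 * S.N j ^ l' j) ≤ S.T ^ ε := by
    refine P2_prod hS (fun j hj => ?_) fun j hj => h4 j hj
    linarith [h3 j hj]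
  exact h1.mono h5 h5 h6

end Pool.Agent.UV
end

section

/-! TASK P3. The products are admissible polynomials. `η = et N = 1/(2(N+1))`, `kp N = η/4`, `ep N = η/96`.
`Gx N y (χ * nC h) = ∑_{n ≤ y} Fd(..) n^{-h} χ n` (`isP2_left`, `‖nC h n‖ = n^{-Re h} ≤ y^{|Re h|} ≤ T^{1/log T} = e` for `n ≤ y ≤ T`): `IsP2 y 1 (e ∑_{n≤y} 1/n)`, `∑_{n ≤ y} 1/n ≤ 1 + log T`, and `e (1 + log T) ≤ T^{ep N}` for `T ≥ T0(N)`. In the same way `Mx N y χ` is `IsP2 y 1 (T^{ep N})`.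
Product with `W2_dp` (`ε = ep N`): `Q1 = yy k · yy i · T^{ep N} = T^{(i+k)η + η/96} ≤ T^{Nη + η/96} ≤ T^{1/2 - η/2} = T^{1/2 - 2 kp N}` (`Nη = 1/2 - η`), `Q2 = T^{ep N} ≤ T^{kp N/8}` (`η/96 ≤ η/32`), `B ≤ T^{3 ep N} = T^{kp N/8}` (`3η/96 = η/32`). -/

set_option autoImplicit false

namespace Pool.Agent.UV

open Complex MeasureTheory Finset Pool.Agent.GH Pool.Agent.UH
open scoped Real ComplexConjugate

private theorem P3_et_pos (N : ℕ) : 0 < et N := by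
  unfold et
  positivity

/-- The length `y = T^(i η)` is between `1` and `T`. -/
private theorem P3_yy {N i : ℕ} (hi : i ≤ N) {T : ℝ} (hT : 1 ≤ T) : 1 ≤ yy N T i ∧ yy N T i ≤ T := by
  have h1 := P3_et_pos N
  have h2 : (i : ℝ) ≤ N := by exact_mod_cast hi
  refine ⟨Real.one_le_rpow hT (by positivity), ?_⟩
  have h3 : (i : ℝ) * et N ≤ 1 := by
    unfold et
    rw [mul_one_div, div_le_one (by positivity)]
    have : (0 : ℝ) ≤ N := Nat.cast_nonneg N
    linarith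
  calc yy N T i ≤ T ^ (1 : ℝ) := Real.rpow_le_rpow_of_exponent_le hT h3
    _ = T := Real.rpow_one T

/-- The harmonic sum. -/
private theorem P3_harm {y : ℝ} (hy : 1 ≤ y) : ∑ n ∈ Finset.Icc 1 ⌊y⌋₊, 1 / (n : ℝ) ≤ 1 + Real.log y := by
  have h1 := harmonic_floor_le_one_add_log y hy
  rw [harmonic_eq_sum_Icc] at h1
  push_cast at h1
  refine le_trans (le_of_eq ?_) h1
  exact Finset.sum_congr rfl fun n _ => one_div _

private theorem P3_bound {y A : ℝ} (hy : 1 ≤ y) (hA : 0 ≤ A) (a : ℕ → ℂ)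
    (ha : ∀ n ∈ Finset.Icc 1 ⌊y⌋₊, ‖a n‖ ≤ A) :
    ∑ n ∈ Finset.Icc 1 ⌊y⌋₊, ‖a n‖ / (n : ℝ) ≤ A * (1 + Real.log y) := by
  refine le_trans ?_ (mul_le_mul_of_nonneg_left (P3_harm hy) hA)
  rw [Finset.mul_sum]
  refine Finset.sum_le_sum fun n hn => ?_
  rw [div_eq_mul_one_div]
  exact mul_le_mul_of_nonneg_right (ha n hn) (by positivity)

private theorem P3_mem {y : ℝ} (hy : 1 ≤ y) : ∀ n ∈ Finset.Icc 1 ⌊y⌋₊, n ≠ 0 ∧ (n : ℝ) ≤ y := by
  intro n hn
  rw [Finset.mem_Icc] at hn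
  exact ⟨by omega, (Nat.le_floor_iff (by linarith)).1 hn.2⟩

private theorem P3_Mx (N : ℕ) {y T : ℝ} (hy : 1 ≤ y) (hyT : y ≤ T) :
    IsP2 y 1 (Real.exp 1 * (1 + Real.log T)) (fun χ _ => Mx N y χ) := by
  have h0 := isP2_left (Finset.Icc 1 ⌊y⌋₊) (fun n => ((ArithmeticFunction.moebius n : ℤ) : ℂ) *
    (Fd N (Real.log n / Real.log y) : ℂ)) (P3_mem hy)
  refine h0.mono le_rfl le_rfl ?_
  have hlog : Real.log y ≤ Real.log T := Real.log_le_log (by linarith) hyT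
  have hlog0 : 0 ≤ Real.log y := Real.log_nonneg hy
  have h1 := P3_bound hy zero_le_one (fun n => ((ArithmeticFunction.moebius n : ℤ) : ℂ) *
    (Fd N (Real.log n / Real.log y) : ℂ)) (by
      intro n _
      rw [norm_mul, Complex.norm_real, Complex.norm_intCast]
      have h2 : |((ArithmeticFunction.moebius n : ℤ) : ℝ)| ≤ 1 := by
        exact_mod_cast ArithmeticFunction.abs_moebius_le_one
      have h3 := Fd_mem N (Real.log n / Real.log y)
      have h4 : ‖Fd N (Real.log n / Real.log y)‖ ≤ 1 := by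
        rw [Real.norm_of_nonneg h3.1]
        exact h3.2
      exact mul_le_one₀ h2 (norm_nonneg _) h4)
  have h5 : (1 : ℝ) ≤ Real.exp 1 := Real.one_le_exp zero_le_one
  calc _ ≤ 1 * (1 + Real.log y) := h1
    _ ≤ Real.exp 1 * (1 + Real.log T) := mul_le_mul h5 (by linarith) (by linarith) (Real.exp_pos 1).le

private theorem P3_Gx (N : ℕ) {y T : ℝ} (hT : 1 < T) (hy : 1 ≤ y) (hyT : y ≤ T) {h : ℂ}
    (hh : |h.re| ≤ 1 / Real.log T) :
    IsP2 y 1 (Real.exp 1 * (1 + Real.log T)) (fun χ _ => Gx N y (χ * nC h)) := by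
  have h0 := isP2_left (Finset.Icc 1 ⌊y⌋₊) (fun n => (Fd N (Real.log n / Real.log y) : ℂ) * nC h n)
    (P3_mem hy)
  have hlog : Real.log y ≤ Real.log T := Real.log_le_log (by linarith) hyT
  have hlog0 : 0 ≤ Real.log y := Real.log_nonneg hy
  have hlT : 0 < Real.log T := Real.log_pos hT
  have h1 := P3_bound hy (Real.exp_pos 1).le (fun n => (Fd N (Real.log n / Real.log y) : ℂ) * nC h n) (by
      intro n hn
      obtain ⟨hn0, hny⟩ := P3_mem hy n hn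
      have hn1 : (1 : ℝ) ≤ n := by exact_mod_cast Nat.one_le_iff_ne_zero.2 hn0
      rw [norm_mul, Complex.norm_real, norm_nC h hn0]
      have h3 := Fd_mem N (Real.log n / Real.log y)
      have h4 : ‖Fd N (Real.log n / Real.log y)‖ ≤ 1 := by
        rw [Real.norm_of_nonneg h3.1]
        exact h3.2
      have h5 : (n : ℝ) ^ (-h.re) ≤ Real.exp 1 := by
        rw [Real.rpow_def_of_pos (by linarith)]
        refine Real.exp_le_exp.2 ?_
        have h6 : 0 ≤ Real.log n := Real.log_nonneg hn1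
        have h7 : Real.log n ≤ Real.log T := Real.log_le_log (by linarith) (hny.trans hyT)
        calc Real.log n * -h.re ≤ Real.log n * |h.re| :=
              mul_le_mul_of_nonneg_left (neg_le_abs _) h6
          _ ≤ Real.log T * (1 / Real.log T) := mul_le_mul h7 hh (abs_nonneg _) hlT.le
          _ = 1 := mul_one_div_cancel hlT.ne'
      calc ‖Fd N (Real.log n / Real.log y)‖ * (n : ℝ) ^ (-h.re) ≤ 1 * Real.exp 1 :=
            mul_le_mul h4 h5 (Real.rpow_nonneg (by linarith) _) zero_le_one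
        _ = Real.exp 1 := one_mul _)
  have h2 : IsP2 y 1 (∑ n ∈ Finset.Icc 1 ⌊y⌋₊, ‖(Fd N (Real.log n / Real.log y) : ℂ) * nC h n‖ / (n : ℝ))
      (fun χ _ => Gx N y (χ * nC h)) := by
    have e1 : (fun (χ : ℕ →*₀ ℂ) (_ : ℕ →*₀ ℂ) => Gx N y (χ * nC h)) =
        fun χ _ => ∑ n ∈ Finset.Icc 1 ⌊y⌋₊, ((Fd N (Real.log n / Real.log y) : ℂ) * nC h n) * χ n := by
      funext χ _
      unfold Gx
      refine Finset.sum_congr rfl fun n _ => ?_
      have e2 : (χ * nC h) n = χ n * nC h n := rfl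
      rw [e2]
      ring
    rw [e1]
    exact h0
  refine h2.mono le_rfl le_rfl (h1.trans ?_)
  exact mul_le_mul_of_nonneg_left (by linarith) (Real.exp_pos 1).le

theorem MGW_dp (N : ℕ) (hN : 1 ≤ N) : ∃ T0 : ℝ, 2 ≤ T0 ∧ ∀ {S : BS} {lam C D : ℝ} {N0 : ℕ}, T0 ≤ S.T →
    BG S lam C N0 D (ep N) → ∀ (i k : ℕ), i + k ≤ N → ∀ (h : ℂ), |h.re| ≤ 1 / Real.log S.T →
    ∀ (al : ℝ), |al| ≤ 1 → ∀ (l' : ℕ → ℕ), (∀ j ≤ S.J, l' j ≤ S.l j) →
    IsP2 (S.T ^ (1 / 2 - 2 * kp N)) (S.T ^ (kp N / 8)) (S.T ^ (kp N / 8))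
      (fun χ χ' => Mx N (yy N S.T k) χ * Gx N (yy N S.T i) (χ * nC h) * W2 S al l' χ χ') := by
  have het := P3_et_pos N
  have hep : 0 < ep N := by
    unfold ep
    positivity
  obtain ⟨T1, hT1⟩ : ∃ T1 : ℝ, ∀ T, T1 ≤ T → Real.exp 1 * (1 + Real.log T) ≤ T ^ ep N := by
    have h1 : (fun T : ℝ => Real.exp 1 * (1 + Real.log T)) =o[Filter.atTop] fun T => T ^ ep N := by
      refine Asymptotics.IsLittleO.const_mul_left ?_ _
      refine Asymptotics.IsLittleO.add ?_ (isLittleO_log_rpow_atTop hep)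
      rw [Asymptotics.isLittleO_const_left]
      right
      exact Filter.tendsto_abs_atTop_atTop.comp (tendsto_rpow_atTop hep)
    have h2 := h1.bound (c := 1) one_pos
    rw [Filter.eventually_atTop] at h2
    obtain ⟨T1, hT1⟩ := h2
    refine ⟨max T1 0, fun T hT => ?_⟩
    have h3 := hT1 T ((le_max_left _ _).trans hT)
    rw [one_mul, Real.norm_of_nonneg (Real.rpow_nonneg ((le_max_right _ _).trans hT) _)] at h3
    exact (le_abs_self _).trans h3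
  refine ⟨max T1 2, le_max_right _ _, ?_⟩
  intro S lam C D N0 hT hS i k hik h hh al hal l' hl
  have hT2 : 2 ≤ S.T := (le_max_right _ _).trans hT
  have hTb := hT1 S.T ((le_max_left _ _).trans hT)
  have hT1' : 1 ≤ S.T := by linarith
  have hT0 : 0 < S.T := by linarith
  obtain ⟨hk1, hk2⟩ := P3_yy (N := N) (i := k) (by omega) hT1'
  obtain ⟨hi1, hi2⟩ := P3_yy (N := N) (i := i) (by omega) hT1'
  have hM := (P3_Mx N hk1 hk2).mono le_rfl le_rfl hTb
  have hG := (P3_Gx N (by linarith) hi1 hi2 hh).mono le_rfl le_rfl hTb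
  have hW := W2_dp hS hal hl
  have hprod := (hM.mul hG).mul hW
  have hN0' : (0 : ℝ) ≤ N := Nat.cast_nonneg N
  have hik' : (k : ℝ) + i ≤ N := by
    have : ((k + i : ℕ) : ℝ) ≤ N := by exact_mod_cast (by omega : k + i ≤ N)
    push_cast at this
    exact this
  have hNe : (N : ℝ) * et N = 1 / 2 - et N := by
    unfold et
    field_simp
    ring
  refine hprod.mono ?_ ?_ ?_
  · rw [yy, yy, ← Real.rpow_add hT0, ← Real.rpow_add hT0]
    refine Real.rpow_le_rpow_of_exponent_le hT1' ?_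
    have h1 : ((k : ℝ) + i) * et N ≤ N * et N := mul_le_mul_of_nonneg_right hik' het.le
    unfold kp ep
    nlinarith
  · rw [one_mul, one_mul]
    refine Real.rpow_le_rpow_of_exponent_le hT1' ?_
    unfold kp ep
    linarith
  · rw [← Real.rpow_add hT0, ← Real.rpow_add hT0]
    refine Real.rpow_le_rpow_of_exponent_le hT1' ?_
    unfold kp ep
    linarith

end Pool.Agent.UV
end

section

/-! TASK PL. Plancherel without Hermitian weights, with a cut at `y0`. (`shift_planch` in GH/PSh.lean is the Hermitian case with `y0 = 0`; `PSh_int`, `PSh_ft`, `PSh_norm_exp`, `plancherel_le`, `gg_neg` can be cited or copied.)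
`plancherel_le` and `PSh_ft` give `∫ ‖xi T a t‖² ‖WW F w t‖² dt ≤ 2π ∫_ℝ e^{2ay} ‖GG T F (wa a w) y‖² dy` as in the proof of `shift_planch`. Split `ℝ = (-∞, y0] ∪ (y0, ∞)` and put `y = -v` in the first part (`v ≥ -y0`; the point `-y0` is a null set).
Reflection: `GG T F w' (-v) = omh T * conj (GG T (F.image swap) (wst w') v)` for every `w'`, with `wst w' q = conj (w' q.swap)`: by `gg_neg` (`gg T (-x) = omh T * conj (gg T x)`), as in `PSh_neg`; `‖omh T‖ = 1`. -/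

set_option autoImplicit false

namespace Pool.Agent.UV

open Complex MeasureTheory Finset Pool.Agent.GH
open scoped Real ComplexConjugate

/-- the reflected weights -/
noncomputable def wst (w : ℕ × ℕ → ℂ) (q : ℕ × ℕ) : ℂ := conj (w q.swap)

/-- The reflection. -/
private theorem PL_neg {T : ℝ} (hT : 1 ≤ T) (F : Finset (ℕ × ℕ)) (w : ℕ × ℕ → ℂ) (v : ℝ) :
    GG T F w (-v) = omh T * conj (GG T (F.image Prod.swap) (wst w) v) := by
  unfold GG
  rw [Finset.sum_image fun x _ y _ h => Prod.swap_injective h, map_sum, Finset.mul_sum]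
  refine Finset.sum_congr rfl fun q _ => ?_
  have h2 : -v + (Real.log q.1 - Real.log q.2) =
      -(v + (Real.log q.swap.1 - Real.log q.swap.2)) := by
    rw [Prod.fst_swap, Prod.snd_swap]; ring
  rw [h2, gg_neg hT, map_mul]
  unfold wst
  rw [Prod.swap_swap, Complex.conj_conj]
  ring

theorem planch4 {T : ℝ} (hT : 1 ≤ T) {a : ℝ} (ha : |a| < 1 / 2) (F : Finset (ℕ × ℕ))
    (w : ℕ × ℕ → ℂ) (hF : ∀ q ∈ F, q.1 ≠ 0 ∧ q.2 ≠ 0) (y0 : ℝ) :
    ∫⁻ t : ℝ, ENNReal.ofReal (‖xi T a t‖ ^ 2 * ‖WW F w t‖ ^ 2) ≤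
      ENNReal.ofReal (2 * π) *
        ((∫⁻ y in Set.Ioi y0, ENNReal.ofReal (Real.exp (2 * a * y) * ‖GG T F (wa a w) y‖ ^ 2)) +
        ∫⁻ y in Set.Ioi (-y0), ENNReal.ofReal (Real.exp (-(2 * a * y)) *
          ‖GG T (F.image Prod.swap) (wst (wa a w)) y‖ ^ 2)) := by
  have hpl := plancherel_le _ (PSh_int hT ha F (wa a w))
  have h1 : ∀ t : ℝ, ‖xi T a t‖ ^ 2 * ‖WW F w t‖ ^ 2 =
      ‖∫ y : ℝ, cexp (t * y * I) * ((Real.exp (a * y) : ℂ) * GG T F (wa a w) y)‖ ^ 2 := by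
    intro t
    rw [PSh_ft hT ha F w hF t, norm_mul, PSh_norm_exp, one_mul, norm_mul, mul_pow]
  simp_rw [h1]
  refine hpl.trans ?_
  gcongr
  have h2 : ∀ y : ℝ, ‖(Real.exp (a * y) : ℂ) * GG T F (wa a w) y‖ ^ 2 =
      Real.exp (2 * a * y) * ‖GG T F (wa a w) y‖ ^ 2 := by
    intro y
    rw [norm_mul, mul_pow, Complex.norm_real, Real.norm_eq_abs, abs_of_pos (Real.exp_pos _),
      ← Real.exp_nat_mul]
    congr 2
    push_cast; ring
  simp_rw [h2]
  rw [← lintegral_add_compl _ (measurableSet_Ioi (a := y0))]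
  refine add_le_add le_rfl ?_
  rw [Set.compl_Ioi]
  have h3 : ∫⁻ y in Set.Iic y0, ENNReal.ofReal (Real.exp (2 * a * y) * ‖GG T F (wa a w) y‖ ^ 2) =
      ∫⁻ y in Set.Ici (-y0), ENNReal.ofReal (Real.exp (2 * a * (-y)) *
        ‖GG T F (wa a w) (-y)‖ ^ 2) := by
    have hmp : MeasurePreserving (fun x : ℝ => -x) volume volume :=
      Measure.measurePreserving_neg volume
    have he : MeasurableEmbedding (fun x : ℝ => -x) := (MeasurableEquiv.neg ℝ).measurableEmbedding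
    have := hmp.setLIntegral_comp_preimage_emb he
      (fun y => ENNReal.ofReal (Real.exp (2 * a * y) * ‖GG T F (wa a w) y‖ ^ 2)) (Set.Iic y0)
    rw [← this]
    congr 2
    ext x
    simp only [Set.mem_preimage, Set.mem_Iic, Set.mem_Ici]
    exact neg_le
  rw [h3, setLIntegral_congr Ioi_ae_eq_Ici.symm]
  refine lintegral_mono fun y => ?_
  rw [PL_neg hT F (wa a w) y, norm_mul, norm_omh, one_mul, Complex.norm_conj]
  refine le_of_eq ?_
  congr 3
  ring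

/-- the random side of the reflected weights -/
theorem BB_wst (M : ℕ) (F : Finset (ℕ × ℕ)) (w : ℕ × ℕ → ℂ) :
    BB M (F.image Prod.swap) (wst w) 0 = BB M F w 0 := by
  unfold BB
  refine integral_congr_ae (Filter.Eventually.of_forall fun v => ?_)
  show _ * _ = _ * _
  congr 1
  rw [Finset.sum_image fun x _ y _ h => Prod.swap_injective h]
  have h1 : ∑ q ∈ F, wa (0 / 2) (wst w) q.swap * XX v q.swap.1 * conj (XX v q.swap.2) =
      conj (∑ q ∈ F, wa (0 / 2) w q * XX v q.1 * conj (XX v q.2)) := by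
    rw [map_sum]
    refine Finset.sum_congr rfl fun q _ => ?_
    unfold wa wst
    rw [zero_div, Real.rpow_zero, Real.rpow_zero, Prod.swap_swap, Prod.fst_swap, Prod.snd_swap,
      map_mul, map_mul, map_mul, Complex.conj_conj, Complex.conj_ofReal]
    ring
  rw [h1, Complex.norm_conj]

end Pool.Agent.UV
end
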