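import Mathlib

section

/-! TASK B3. The sub-mean value property of `|f|^q`, over circles and over discs.
`submean`: if `f c = 0` the left side is 0 (`q > 0`). Otherwise Jensen's formula (`AnalyticOnNhd.circleAverage_log_norm` in Mathlib/Analysis/Complex/JensenFormula.lean; there is also a version with a finite sum; all terms of the sum over the zeros are `≥ 0`) gives
`log ‖f c‖ ≤ circleAverage (log ‖f ·‖) c R`. Jensen's inequality for the convex function `exp` (`ConvexOn.map_average_le` or `ConvexOn.map_integral_le` for the probability measure `dθ/2π` on `(0, 2π]`):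
`‖f c‖^q = exp(q log ‖f c‖) ≤ exp(average of q log ‖f‖) ≤ average of exp(q log ‖f‖) = average of ‖f‖^q`; the last equality because `f ≠ 0` outside finitely many points of the circle (`f` is analytic near the disc and not identically 0; a finite set
of angles has measure zero; at a zero Lean's `log 0 = 0`, so only almost everywhere). (Alternative without Jensen's formula: see TASK C1, division by Blaschke factors, then `‖g‖^q = ‖e^{q h}‖` for a zero free `g = e^h`.)
`area_mean`: `submean` for all radii `0 < ρ ≤ r`, multiply by `2πρ`, integrate over `(0,r)`, polar coordinates (`Complex.integral_comp_polarCoord_symm` / `Complex.lintegral_comp_polarCoord_symm`): `πr² ‖f c‖^q ≤ ∫_{disc} ‖f‖^q`, and the disc of radius `r` around `c`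
is contained in the square of half side `r`; `ℂ ≅ ℝ × ℝ` (`Complex.measurableEquivRealProd`, `Complex.volume_preserving_equiv_real_prod`), Tonelli. (Only `f` analytic near the closed disc is assumed, so outside of the disc measurability of `f` is not given: restrict first.
To avoid this the statement assumes that `f` is analytic in a neighbourhood of the closed square.) -/

set_option autoImplicit false

namespace Pool.Agent.UH

open Complex MeasureTheory Finset
open scoped Real ComplexConjugate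

theorem submean {f : ℂ → ℂ} {c : ℂ} {R q : ℝ} (hR : 0 < R) (hq : 0 < q)
    (hf : AnalyticOnNhd ℂ f (Metric.closedBall c R)) :
    ‖f c‖ ^ q ≤ Real.circleAverage (fun z => ‖f z‖ ^ q) c R := by
  by_cases hc : f c = 0
  · rw [hc, norm_zero, Real.zero_rpow hq.ne']
    apply Real.circleAverage_nonneg_of_nonneg
    intro x _
    positivity
  · have habs : |R| = R := abs_of_pos hR
    have hfR : AnalyticOnNhd ℂ f (Metric.closedBall c |R|) := by rwa [habs]
    have hfS : AnalyticOnNhd ℂ f (Metric.sphere c |R|) := hfR.mono Metric.sphere_subset_closedBall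
    have J := hfR.circleAverage_log_norm hR.ne' hc
    have hlog : Real.log ‖f c‖ ≤ Real.circleAverage (fun z => Real.log ‖f z‖) c R := by
      have h1 : 0 ≤ ∑ᶠ u, (MeromorphicOn.divisor f (Metric.closedBall c |R|) u : ℝ) * Real.log (R * ‖c - u‖⁻¹) := by
        apply finsum_nonneg
        intro u
        by_cases hu : u ∈ Metric.closedBall c |R|
        · apply mul_nonneg
          · exact_mod_cast MeromorphicOn.AnalyticOnNhd.divisor_nonneg hfR u
          · by_cases hcu : c = u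
            · subst hcu
              simp
            · apply Real.log_nonneg
              have h2 : 0 < ‖c - u‖ := norm_pos_iff.2 (sub_ne_zero.2 hcu)
              rw [← div_eq_mul_inv, one_le_div h2]
              rw [habs, Metric.mem_closedBall, dist_comm, dist_eq_norm] at hu
              exact hu
        · rw [Function.locallyFinsuppWithin.apply_eq_zero_of_notMem _ hu]
          simp
      rw [J]
      linarith
    have hint : CircleIntegrable (fun z => Real.log ‖f z‖) c R := hfS.meromorphicOn.circleIntegrable_log_norm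
    obtain ⟨m, hm⟩ : ∃ m, m = q * Real.log ‖f c‖ := ⟨_, rfl⟩
    have hpow : ∀ z, f z ≠ 0 → ‖f z‖ ^ q = Real.exp (q * Real.log ‖f z‖) := by
      intro z hz
      rw [Real.rpow_def_of_pos (norm_pos_iff.2 hz), mul_comm]
    have hcod : {z | f z ≠ 0} ∈ Filter.codiscreteWithin (Metric.sphere c |R|) := by
      have h1 : f ⁻¹' {0}ᶜ ∈ Filter.codiscreteWithin (Metric.closedBall c |R|) := by
        refine hfR.preimage_zero_mem_codiscreteWithin (x := c) hc (by simp) ?_
        exact ⟨⟨c, by simp⟩, (convex_closedBall c |R|).isPreconnected⟩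
      exact Filter.codiscreteWithin_mono Metric.sphere_subset_closedBall h1
    have hF1 : CircleIntegrable (fun z => Real.exp m * (1 + q * Real.log ‖f z‖ - m)) c R := by
      have h1 : CircleIntegrable (fun z => Real.exp m * q * Real.log ‖f z‖ + Real.exp m * (1 - m)) c R := by
        refine CircleIntegrable.add ?_ ?_
        · exact IntervalIntegrable.const_mul hint (Real.exp m * q)
        · exact circleIntegrable_const _ _ _
      refine h1.congr_codiscreteWithin ?_
      refine Filter.Eventually.of_forall fun z => ?_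
      simp only
      ring
    have hF3 : CircleIntegrable (fun z => ‖f z‖ ^ q) c R := by
      apply ContinuousOn.circleIntegrable hR.le
      intro z hz
      have h1 : ContinuousAt f z := (hf z (Metric.sphere_subset_closedBall hz)).continuousAt
      exact (h1.norm.rpow_const (Or.inr hq.le)).continuousWithinAt
    have heq : (fun z => ‖f z‖ ^ q) =ᶠ[Filter.codiscreteWithin (Metric.sphere c |R|)]
        (fun z => if f z = 0 then Real.exp m * (1 + q * Real.log ‖f z‖ - m) else ‖f z‖ ^ q) := by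
      filter_upwards [hcod] with z hz
      rw [if_neg hz]
    rw [Real.circleAverage_congr_codiscreteWithin heq hR.ne']
    have hF2 : CircleIntegrable (fun z => if f z = 0 then Real.exp m * (1 + q * Real.log ‖f z‖ - m) else ‖f z‖ ^ q) c R :=
      hF3.congr_codiscreteWithin heq
    have hmono : Real.circleAverage (fun z => Real.exp m * (1 + q * Real.log ‖f z‖ - m)) c R ≤
        Real.circleAverage (fun z => if f z = 0 then Real.exp m * (1 + q * Real.log ‖f z‖ - m) else ‖f z‖ ^ q) c R := by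
      apply Real.circleAverage_mono hF1 hF2
      intro z _
      by_cases hz : f z = 0
      · simp [hz]
      · rw [if_neg hz, hpow z hz]
        have h1 := Real.add_one_le_exp (q * Real.log ‖f z‖ - m)
        have h2 : Real.exp (q * Real.log ‖f z‖) = Real.exp m * Real.exp (q * Real.log ‖f z‖ - m) := by
          rw [← Real.exp_add]
          ring_nf
        rw [h2]
        apply mul_le_mul_of_nonneg_left _ (Real.exp_pos m).le
        linarith
    have hval : Real.circleAverage (fun z => Real.exp m * (1 + q * Real.log ‖f z‖ - m)) c R =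
        Real.exp m * q * Real.circleAverage (fun z => Real.log ‖f z‖) c R + Real.exp m * (1 - m) := by
      have h1 : (fun z => Real.exp m * (1 + q * Real.log ‖f z‖ - m)) =
          (fun z => (Real.exp m * q) • Real.log ‖f z‖ + Real.exp m * (1 - m)) := by
        funext z
        simp only [smul_eq_mul]
        ring
      rw [h1, Real.circleAverage_fun_add, Real.circleAverage_fun_smul, Real.circleAverage_const, smul_eq_mul]
      · exact IntervalIntegrable.const_mul hint (Real.exp m * q)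
      · exact circleIntegrable_const _ _ _
    have hpc : ‖f c‖ ^ q = Real.exp m := by
      rw [hpow c hc, hm]
    rw [hpc]
    refine le_trans ?_ hmono
    rw [hval]
    have h3 : m ≤ q * Real.circleAverage (fun z => Real.log ‖f z‖) c R := by
      rw [hm]
      exact mul_le_mul_of_nonneg_left hlog hq.le
    have h4 := mul_le_mul_of_nonneg_left h3 (Real.exp_pos m).le
    nlinarith [h4]

private theorem B3_inner {f : ℂ → ℂ} {c : ℂ} {ρ q : ℝ} (hρ : 0 < ρ) (hq : 0 < q)
    (hf : AnalyticOnNhd ℂ f (Metric.closedBall c ρ)) :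
    ENNReal.ofReal (2 * π * ‖f c‖ ^ q) ≤
      ∫⁻ θ in Set.Ioo (-π) π, ENNReal.ofReal (‖f (circleMap c ρ θ)‖ ^ q) := by
  have h1 := submean hρ hq hf
  rw [Real.circleAverage_eq_integral_add (-π)] at h1
  have hcont : Continuous (fun θ : ℝ => ‖f (circleMap c ρ θ)‖ ^ q) := by
    refine continuous_iff_continuousAt.2 fun θ => ?_
    have h2 : circleMap c ρ θ ∈ Metric.closedBall c ρ :=
      Metric.sphere_subset_closedBall (circleMap_mem_sphere c hρ.le θ)
    have h3 : ContinuousAt f (circleMap c ρ θ) := (hf _ h2).continuousAt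
    have h4 : ContinuousAt (fun θ : ℝ => f (circleMap c ρ θ)) θ :=
      h3.comp (continuous_circleMap c ρ).continuousAt
    exact h4.norm.rpow_const (Or.inr hq.le)
  have h2 : (∫ θ in (0:ℝ)..2 * π, ‖f (circleMap c ρ (θ + -π))‖ ^ q) = ∫ θ in (-π)..π, ‖f (circleMap c ρ θ)‖ ^ q := by
    rw [intervalIntegral.integral_comp_add_right (fun θ => ‖f (circleMap c ρ θ)‖ ^ q)]
    congr 1 <;> ring
  rw [h2, smul_eq_mul] at h1
  have h3 : 2 * π * ‖f c‖ ^ q ≤ ∫ θ in (-π)..π, ‖f (circleMap c ρ θ)‖ ^ q := by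
    have h4 := mul_le_mul_of_nonneg_left h1 (by positivity : (0:ℝ) ≤ 2 * π)
    have h5 : 2 * π * ((2 * π)⁻¹ * ∫ θ in (-π)..π, ‖f (circleMap c ρ θ)‖ ^ q) = ∫ θ in (-π)..π, ‖f (circleMap c ρ θ)‖ ^ q := by
      field_simp
    linarith
  refine (ENNReal.ofReal_le_ofReal h3).trans ?_
  rw [intervalIntegral.integral_of_le (by linarith [Real.pi_pos]), integral_Ioc_eq_integral_Ioo,
    ofReal_integral_eq_lintegral_ofReal]
  · exact (hcont.integrableOn_Icc).mono_set Set.Ioo_subset_Icc_self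
  · exact Filter.Eventually.of_forall fun θ => by positivity

theorem area_mean {f : ℂ → ℂ} {c : ℂ} {r q : ℝ} (hr : 0 < r) (hq : 0 < q)
    (hf : ∀ z : ℂ, |z.re - c.re| ≤ r → |z.im - c.im| ≤ r → AnalyticAt ℂ f z) :
    ENNReal.ofReal (π * r ^ 2 * ‖f c‖ ^ q) ≤
      ∫⁻ x in Set.Icc (c.re - r) (c.re + r), ∫⁻ y in Set.Icc (c.im - r) (c.im + r),
        ENNReal.ofReal (‖f (x + y * I)‖ ^ q) := by
  classical
  obtain ⟨S, hS⟩ : ∃ S : Set ℂ, S = {z | |z.re - c.re| ≤ r ∧ |z.im - c.im| ≤ r} := ⟨_, rfl⟩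
  have hSc : IsClosed S := by
    rw [hS]
    exact (isClosed_le (Complex.continuous_re.sub continuous_const).abs continuous_const).inter
      (isClosed_le (Complex.continuous_im.sub continuous_const).abs continuous_const)
  obtain ⟨g, hg⟩ : ∃ g : ℂ → ENNReal, g = S.piecewise (fun z => ENNReal.ofReal (‖f z‖ ^ q)) (fun _ => 0) := ⟨_, rfl⟩
  have hgm : Measurable g := by
    rw [hg]
    apply ContinuousOn.measurable_piecewise _ _ hSc.measurableSet
    · intro z hz
      rw [hS] at hz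
      have h1 : ContinuousAt f z := (hf z hz.1 hz.2).continuousAt
      exact (ENNReal.continuous_ofReal.continuousAt.comp (h1.norm.rpow_const (Or.inr hq.le))).continuousWithinAt
    · exact continuousOn_const
  have hgS : ∀ z ∈ S, g z = ENNReal.ofReal (‖f z‖ ^ q) := by
    intro z hz
    rw [hg, Set.piecewise_eq_of_mem _ _ _ hz]
  have hgn : ∀ z, z ∉ S → g z = 0 := by
    intro z hz
    rw [hg, Set.piecewise_eq_of_notMem _ _ _ hz]
  have hR : (∫⁻ x in Set.Icc (c.re - r) (c.re + r), ∫⁻ y in Set.Icc (c.im - r) (c.im + r),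
        ENNReal.ofReal (‖f (x + y * I)‖ ^ q)) = ∫⁻ z : ℂ, g z := by
    have h1 : (∫⁻ z : ℂ, g z) = ∫⁻ p : ℝ × ℝ, g (Complex.measurableEquivRealProd.symm p) := by
      rw [(Complex.volume_preserving_equiv_real_prod.symm).lintegral_comp hgm]
    rw [h1]
    have hm2 : Measurable (fun p : ℝ × ℝ => g (Complex.measurableEquivRealProd.symm p)) :=
      hgm.comp Complex.measurableEquivRealProd.symm.measurable
    rw [Measure.volume_eq_prod, lintegral_prod _ hm2.aemeasurable]
    rw [← lintegral_indicator measurableSet_Icc]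
    apply lintegral_congr
    intro x
    by_cases hx : x ∈ Set.Icc (c.re - r) (c.re + r)
    · rw [Set.indicator_of_mem hx, ← lintegral_indicator measurableSet_Icc]
      apply lintegral_congr
      intro y
      have hz : (Complex.measurableEquivRealProd.symm (x, y) : ℂ) = x + y * I := by
        apply Complex.ext <;> simp [Complex.measurableEquivRealProd]
      rw [hz]
      by_cases hy : y ∈ Set.Icc (c.im - r) (c.im + r)
      · rw [Set.indicator_of_mem hy, hgS]
        rw [hS]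
        simp only [Set.mem_ofPred_eq, Complex.add_re, Complex.ofReal_re, Complex.mul_re, Complex.I_re, Complex.ofReal_im,
          Complex.I_im, Complex.add_im, Complex.mul_im]
        constructor
        · rw [abs_le]
          constructor <;> linarith [hx.1, hx.2]
        · rw [abs_le]
          constructor <;> linarith [hy.1, hy.2]
      · rw [Set.indicator_of_notMem hy, hgn]
        intro hmem
        apply hy
        rw [hS] at hmem
        have h2 := hmem.2
        simp only [Complex.add_im, Complex.ofReal_im, Complex.mul_im, Complex.ofReal_re, Complex.I_im, Complex.I_re] at h2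
        rw [abs_le] at h2
        exact ⟨by linarith [h2.1], by linarith [h2.2]⟩
    · rw [Set.indicator_of_notMem hx]
      symm
      rw [← lintegral_zero (α := ℝ) (μ := volume)]
      apply lintegral_congr
      intro y
      have hz : (Complex.measurableEquivRealProd.symm (x, y) : ℂ) = x + y * I := by
        apply Complex.ext <;> simp [Complex.measurableEquivRealProd]
      rw [hz, hgn]
      intro hmem
      apply hx
      rw [hS] at hmem
      have h2 := hmem.1
      simp only [Complex.add_re, Complex.ofReal_re, Complex.mul_re, Complex.I_re, Complex.ofReal_im, Complex.I_im] at h2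
      rw [abs_le] at h2
      exact ⟨by linarith [h2.1], by linarith [h2.2]⟩
  rw [hR]
  have hT : (∫⁻ z : ℂ, g z) = ∫⁻ z : ℂ, g (c + z) := (lintegral_add_left_eq_self g c).symm
  rw [hT, ← Complex.lintegral_comp_polarCoord_symm]
  have hgm2 : Measurable (fun p : ℝ × ℝ => ENNReal.ofReal p.1 • g (c + Complex.polarCoord.symm p)) := by
    have h1 : Measurable (fun p : ℝ × ℝ => (Complex.polarCoord.symm p : ℂ)) := by
      have : (fun p : ℝ × ℝ => (Complex.polarCoord.symm p : ℂ)) = fun p : ℝ × ℝ => (p.1 : ℂ) * (Real.cos p.2 + Real.sin p.2 * I) := by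
        funext p
        exact Complex.polarCoord_symm_apply p
      rw [this]
      fun_prop
    simp only [smul_eq_mul]
    exact (ENNReal.measurable_ofReal.comp measurable_fst).mul (hgm.comp (h1.const_add c))
  have hsub : Set.Ioo (0:ℝ) r ×ˢ Set.Ioo (-π) π ⊆ polarCoord.target := by
    rw [polarCoord_target]
    exact Set.prod_mono (fun x hx => hx.1) (le_refl _)
  refine le_trans ?_ (lintegral_mono_set hsub)
  rw [Measure.volume_eq_prod, ← Measure.prod_restrict, lintegral_prod _ hgm2.aemeasurable]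
  have hin : ∀ ρ ∈ Set.Ioo (0:ℝ) r, ENNReal.ofReal (ρ * (2 * π * ‖f c‖ ^ q)) ≤
      ∫⁻ θ in Set.Ioo (-π) π, ENNReal.ofReal ρ • g (c + Complex.polarCoord.symm (ρ, θ)) := by
    intro ρ hρ
    have hball : ∀ z ∈ Metric.closedBall c ρ, |z.re - c.re| ≤ r ∧ |z.im - c.im| ≤ r := by
      intro z hz
      rw [Metric.mem_closedBall, dist_eq_norm] at hz
      have h1 := Complex.abs_re_le_norm (z - c)
      have h2 := Complex.abs_im_le_norm (z - c)
      rw [Complex.sub_re] at h1
      rw [Complex.sub_im] at h2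
      exact ⟨by linarith [hρ.2], by linarith [hρ.2]⟩
    have h1 := B3_inner hρ.1 hq (fun z hz => hf z (hball z hz).1 (hball z hz).2)
    have h2 : ∀ θ : ℝ, c + Complex.polarCoord.symm (ρ, θ) = circleMap c ρ θ := by
      intro θ
      rw [Complex.polarCoord_symm_apply]
      unfold circleMap
      rw [Complex.exp_mul_I]
      push_cast
      ring
    rw [ENNReal.ofReal_mul hρ.1.le]
    simp only [smul_eq_mul]
    rw [lintegral_const_mul']
    · gcongr
      refine h1.trans (le_of_eq ?_)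
      apply lintegral_congr
      intro θ
      rw [h2, hgS]
      rw [hS]
      exact hball _ (Metric.sphere_subset_closedBall (circleMap_mem_sphere c hρ.1.le θ))
    · exact ENNReal.ofReal_ne_top
  refine le_trans ?_ (setLIntegral_mono' measurableSet_Ioo hin)
  have hfin : (∫⁻ ρ in Set.Ioo (0:ℝ) r, ENNReal.ofReal (ρ * (2 * π * ‖f c‖ ^ q))) =
      ENNReal.ofReal (π * r ^ 2 * ‖f c‖ ^ q) := by
    rw [← ofReal_integral_eq_lintegral_ofReal]
    · rw [← integral_Ioc_eq_integral_Ioo, ← intervalIntegral.integral_of_le hr.le,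
        intervalIntegral.integral_mul_const, integral_id]
      congr 1
      ring
    · have h1 : Continuous (fun ρ : ℝ => ρ * (2 * π * ‖f c‖ ^ q)) := by fun_prop
      exact (h1.integrableOn_Icc).mono_set Set.Ioo_subset_Icc_self
    · refine (ae_restrict_iff' measurableSet_Ioo).2 (Filter.Eventually.of_forall fun ρ hρ => ?_)
      have := hρ.1
      simp only [Pi.zero_apply]
      positivity
  rw [hfin]

end Pool.Agent.UH
end

section

/-! TASK B4. Convexity of the mean values (Gabriel). Put `n(σ) = ∫⁻ ‖Φ(σ+it)‖^q dt`, finite for `A ≤ σ ≤ B` by `hb` (`∫ K^q e^{-q|t|} dt = 2K^q/q`), and `n` is continuous on `[A,B]` (dominated convergence with the same majorant; work with real integrals `n(σ) = ∫ ‖Φ(σ+it)‖^q dt`).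
Step 1. For real `k` put `n_k(σ) = e^{q k σ} n(σ) = ∫ ‖Φ(s) e^{ks}‖^q dt`. For `A < σ < B` and `0 < r < min(σ-A, B-σ)`: `submean` for `z ↦ Φ(z) e^{kz}` at `c = σ+it` gives `‖Φ e^{k·}‖^q(σ+it) ≤ (2π)^{-1} ∫_0^{2π} ‖Φ e^{k·}‖^q(σ + r cos θ + i(t + r sin θ)) dθ`
(`Real.circleAverage_def`, `circleMap`). Integrate over `t` (Tonelli, translation invariance in `t`): `n_k(σ) ≤ (2π)^{-1} ∫_0^{2π} n_k(σ + r cos θ) dθ`.
Step 2. `n_k ≤ max(n_k(A), n_k(B)) =: m` on `[A,B]`. Otherwise the maximum `m' > m` of the continuous function `n_k` on `[A,B]` is attained, let `σ0` be the smallest point where it is attained (closed set); `A < σ0 < B`. With `r = min(σ0-A, B-σ0)/2`: `n_k(σ0 + r cos θ) ≤ m'` always and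
`< m'` for `cos θ < 0`, so the average over `θ` is `< m'` (continuous function, `≤ m'`, `< m'` on an open set), contradiction with Step 1.
Step 3. Let `a0 > n(A)`, `b0 > n(B)` be positive reals and choose `k` with `e^{qk(B-A)} = a0/b0`. Then `e^{qkσ} n(σ) ≤ max(e^{qkA} n(A), e^{qkB} n(B)) ≤ e^{qkA} a0`, so `n(σ) ≤ a0 e^{-qk(σ-A)} = a0 (b0/a0)^{(σ-A)/(B-A)} = a0^{1-η} b0^{η}`, `η = (σ-A)/(B-A)`.
Let `a0 → n(A)`, `b0 → n(B)` (continuity of `x ↦ x^{1-η}`, `x^η` on `[0,∞)`; for `η = 0` or `1` the claim is trivial). Then translate to `∫⁻`. -/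

set_option autoImplicit false

namespace Pool.Agent.UH

open Complex MeasureTheory Finset
open scoped Real ComplexConjugate

private theorem B4_int {q : ℝ} (hq : 0 < q) : Integrable (fun t : ℝ => Real.exp (-(q * |t|))) := by
  have h1 : Integrable (fun t : ℝ => (1 + 2 / q ^ 2) * (1 + t ^ 2)⁻¹) :=
    integrable_inv_one_add_sq.const_mul _
  refine h1.mono' (by fun_prop) (Filter.Eventually.of_forall fun t => ?_)
  rw [Real.norm_of_nonneg (Real.exp_pos _).le, Real.exp_neg]
  have h2 : 0 ≤ q * |t| := by positivity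
  have h3 := Real.quadratic_le_exp_of_nonneg h2
  have h4 : (0 : ℝ) < 1 + t ^ 2 := by positivity
  rw [← div_eq_mul_inv, inv_eq_one_div, div_le_div_iff₀ (Real.exp_pos _) h4, one_mul]
  have h5 : (q * |t|) ^ 2 = q ^ 2 * t ^ 2 := by rw [mul_pow, sq_abs]
  have h6 : 1 + q ^ 2 * t ^ 2 / 2 ≤ Real.exp (q * |t|) := by
    rw [← h5]
    linarith
  have h7 : 1 ≤ Real.exp (q * |t|) := by
    have : 0 ≤ q ^ 2 * t ^ 2 / 2 := by positivity
    linarith
  have h8 : t ^ 2 ≤ 2 / q ^ 2 * Real.exp (q * |t|) := by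
    have h9 : 2 / q ^ 2 * (q ^ 2 * t ^ 2 / 2) = t ^ 2 := by
      field_simp
    calc t ^ 2 = 2 / q ^ 2 * (q ^ 2 * t ^ 2 / 2) := h9.symm
      _ ≤ 2 / q ^ 2 * Real.exp (q * |t|) :=
        mul_le_mul_of_nonneg_left (by linarith) (by positivity)
  linarith

private theorem B4_bd {Φ : ℂ → ℂ} {A B q K : ℝ} (hq : 0 < q) (hK : 0 ≤ K)
    (hb : ∀ s : ℂ, A ≤ s.re → s.re ≤ B → ‖Φ s‖ ≤ K * Real.exp (-|s.im|))
    {σ t : ℝ} (h1 : A ≤ σ) (h2 : σ ≤ B) :
    ‖Φ (σ + t * I)‖ ^ q ≤ K ^ q * Real.exp (-(q * |t|)) := by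
  have hre : ((σ : ℂ) + t * I).re = σ := by simp
  have him : ((σ : ℂ) + t * I).im = t := by simp
  have h3 := hb (σ + t * I) (by rw [hre]; exact h1) (by rw [hre]; exact h2)
  rw [him] at h3
  have h4 := Real.rpow_le_rpow (norm_nonneg _) h3 hq.le
  refine h4.trans (le_of_eq ?_)
  rw [Real.mul_rpow hK (Real.exp_pos _).le, ← Real.exp_mul]
  congr 2
  ring

private theorem B4_cont {Φ : ℂ → ℂ} {A B q : ℝ} (hq : 0 < q)
    (hd : ∀ s : ℂ, A ≤ s.re → s.re ≤ B → AnalyticAt ℂ Φ s)
    {σ t : ℝ} (h1 : A ≤ σ) (h2 : σ ≤ B) :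
    ContinuousAt (fun z : ℂ => ‖Φ z‖ ^ q) (σ + t * I) := by
  have hre : ((σ : ℂ) + t * I).re = σ := by simp
  have h3 := (hd (σ + t * I) (by rw [hre]; exact h1) (by rw [hre]; exact h2)).continuousAt
  exact h3.norm.rpow_const (Or.inr hq.le)

private theorem B4_step {Φ : ℂ → ℂ} {A B q K : ℝ} (hq : 0 < q) (hK : 0 ≤ K)
    (hd : ∀ s : ℂ, A ≤ s.re → s.re ≤ B → AnalyticAt ℂ Φ s)
    (hb : ∀ s : ℂ, A ≤ s.re → s.re ≤ B → ‖Φ s‖ ≤ K * Real.exp (-|s.im|))
    {σ r : ℝ} (hr : 0 < r) (h1 : A ≤ σ - r) (h2 : σ + r ≤ B) :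
    ∫ t : ℝ, ‖Φ (σ + t * I)‖ ^ q ≤
      (2 * π)⁻¹ * ∫ θ in (0 : ℝ)..(2 * π), ∫ t : ℝ, ‖Φ (((σ + r * Real.cos θ : ℝ) : ℂ) + t * I)‖ ^ q := by
  have hstr : ∀ θ : ℝ, A ≤ σ + r * Real.cos θ ∧ σ + r * Real.cos θ ≤ B := by
    intro θ
    have h3 := Real.neg_one_le_cos θ
    have h4 := Real.cos_le_one θ
    constructor <;> nlinarith
  have hpi : (0 : ℝ) < 2 * π := by positivity
  set G : ℝ → ℝ → ℝ := fun t θ =>
    ‖Φ (((σ + r * Real.cos θ : ℝ) : ℂ) + ((t + r * Real.sin θ : ℝ) : ℂ) * I)‖ ^ q with hG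
  have hGc : Continuous (fun x : ℝ × ℝ => G x.1 x.2) := by
    rw [continuous_iff_continuousAt]
    rintro ⟨t, θ⟩
    have h3 := B4_cont (Φ := Φ) (t := t + r * Real.sin θ) hq hd (hstr θ).1 (hstr θ).2
    have h4 : ContinuousAt (fun x : ℝ × ℝ => (((σ + r * Real.cos x.2 : ℝ) : ℂ) +
        ((x.1 + r * Real.sin x.2 : ℝ) : ℂ) * I)) (t, θ) := by
      apply Continuous.continuousAt
      fun_prop
    exact ContinuousAt.comp (f := fun x : ℝ × ℝ => (((σ + r * Real.cos x.2 : ℝ) : ℂ) +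
        ((x.1 + r * Real.sin x.2 : ℝ) : ℂ) * I)) (g := fun z : ℂ => ‖Φ z‖ ^ q) h3 h4
  have hGb : ∀ t θ, ‖G t θ‖ ≤ K ^ q * Real.exp (q * r) * Real.exp (-(q * |t|)) := by
    intro t θ
    rw [Real.norm_of_nonneg (Real.rpow_nonneg (norm_nonneg _) _)]
    refine (B4_bd (t := t + r * Real.sin θ) hq hK hb (hstr θ).1 (hstr θ).2).trans ?_
    rw [mul_assoc, ← Real.exp_add]
    refine mul_le_mul_of_nonneg_left (Real.exp_le_exp.2 ?_) (Real.rpow_nonneg hK _)
    have h3 : |t| ≤ |t + r * Real.sin θ| + r := by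
      have h4 : |t| ≤ |t + r * Real.sin θ| + |r * Real.sin θ| := by
        have := abs_sub (t + r * Real.sin θ) (r * Real.sin θ)
        simpa using this
      have h5 : |r * Real.sin θ| ≤ r := by
        rw [abs_mul, abs_of_pos hr]
        have := Real.abs_sin_le_one θ
        nlinarith
      linarith
    nlinarith
  have hGi : Integrable (fun x : ℝ × ℝ => G x.1 x.2)
      ((volume : Measure ℝ).prod (volume.restrict (Set.Ioc (0 : ℝ) (2 * π)))) := by
    have h3 : Integrable (fun x : ℝ × ℝ => (K ^ q * Real.exp (q * r) * Real.exp (-(q * |x.1|))) * 1)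
        ((volume : Measure ℝ).prod (volume.restrict (Set.Ioc (0 : ℝ) (2 * π)))) :=
      Integrable.mul_prod (f := fun t : ℝ => K ^ q * Real.exp (q * r) * Real.exp (-(q * |t|)))
        (g := fun _ : ℝ => (1 : ℝ)) ((B4_int hq).const_mul _) (integrable_const 1)
    refine h3.mono' hGc.aestronglyMeasurable (Filter.Eventually.of_forall fun x => ?_)
    rw [mul_one]
    exact hGb x.1 x.2
  have hpt : ∀ t : ℝ, ‖Φ (σ + t * I)‖ ^ q ≤
      (2 * π)⁻¹ * ∫ θ in Set.Ioc (0 : ℝ) (2 * π), G t θ := by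
    intro t
    have h3 := submean (f := Φ) (c := σ + t * I) (R := r) hr hq (by
      intro z hz
      have h4 : |(z - (σ + t * I)).re| ≤ r := (Complex.abs_re_le_norm _).trans
        (by rw [Metric.mem_closedBall, dist_eq_norm] at hz; exact hz)
      have h5 : (z - (σ + t * I)).re = z.re - σ := by simp
      rw [h5, abs_le] at h4
      exact hd z (by linarith [h4.1]) (by linarith [h4.2]))
    rw [Real.circleAverage_def, intervalIntegral.integral_of_le hpi.le, smul_eq_mul] at h3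
    refine h3.trans (le_of_eq ?_)
    congr 1
    refine integral_congr_ae (Filter.Eventually.of_forall fun θ => ?_)
    show ‖Φ (circleMap (σ + t * I) r θ)‖ ^ q = G t θ
    have h6 : circleMap (σ + t * I) r θ = ((σ + r * Real.cos θ : ℝ) : ℂ) +
        ((t + r * Real.sin θ : ℝ) : ℂ) * I := by
      rw [circleMap, Complex.exp_mul_I]
      push_cast
      ring
    rw [h6]
  have hi1 : Integrable (fun t : ℝ => ‖Φ (σ + t * I)‖ ^ q) := by
    have h3 := hstr (π / 2)
    rw [Real.cos_pi_div_two, mul_zero, add_zero] at h3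
    refine ((B4_int hq).const_mul (K ^ q)).mono' ?_ (Filter.Eventually.of_forall fun t => ?_)
    · apply Continuous.aestronglyMeasurable
      rw [continuous_iff_continuousAt]
      intro t
      have h4 := B4_cont (Φ := Φ) (t := t) hq hd h3.1 h3.2
      exact ContinuousAt.comp (f := fun t : ℝ => ((σ : ℂ) + t * I))
        (g := fun z : ℂ => ‖Φ z‖ ^ q) h4 (by apply Continuous.continuousAt; fun_prop)
    · rw [Real.norm_of_nonneg (Real.rpow_nonneg (norm_nonneg _) _)]
      exact B4_bd hq hK hb h3.1 h3.2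
  calc ∫ t : ℝ, ‖Φ (σ + t * I)‖ ^ q
      ≤ ∫ t : ℝ, (2 * π)⁻¹ * ∫ θ in Set.Ioc (0 : ℝ) (2 * π), G t θ :=
        integral_mono hi1 (hGi.integral_prod_left.const_mul _) hpt
    _ = (2 * π)⁻¹ * ∫ t : ℝ, ∫ θ in Set.Ioc (0 : ℝ) (2 * π), G t θ := by
        rw [integral_const_mul]
    _ = (2 * π)⁻¹ * ∫ θ in Set.Ioc (0 : ℝ) (2 * π), ∫ t : ℝ, G t θ := by
        rw [integral_integral_swap hGi]
    _ = _ := by
        rw [intervalIntegral.integral_of_le hpi.le]
        congr 1
        refine integral_congr_ae (Filter.Eventually.of_forall fun θ => ?_)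
        show ∫ t : ℝ, G t θ = ∫ t : ℝ, ‖Φ (((σ + r * Real.cos θ : ℝ) : ℂ) + t * I)‖ ^ q
        exact integral_add_right_eq_self
          (fun t : ℝ => ‖Φ (((σ + r * Real.cos θ : ℝ) : ℂ) + (t : ℂ) * I)‖ ^ q) (r * Real.sin θ)

private theorem B4_contn {Φ : ℂ → ℂ} {A B q K : ℝ} (hq : 0 < q) (hK : 0 ≤ K)
    (hd : ∀ s : ℂ, A ≤ s.re → s.re ≤ B → AnalyticAt ℂ Φ s)
    (hb : ∀ s : ℂ, A ≤ s.re → s.re ≤ B → ‖Φ s‖ ≤ K * Real.exp (-|s.im|)) :
    ContinuousOn (fun σ : ℝ => ∫ t : ℝ, ‖Φ (σ + t * I)‖ ^ q) (Set.Icc A B) := by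
  refine continuousOn_of_dominated (bound := fun t => K ^ q * Real.exp (-(q * |t|))) ?_ ?_ ?_ ?_
  · intro σ hσ
    apply Continuous.aestronglyMeasurable
    rw [continuous_iff_continuousAt]
    intro t
    have h4 := B4_cont (Φ := Φ) (t := t) hq hd hσ.1 hσ.2
    exact ContinuousAt.comp (f := fun t : ℝ => ((σ : ℂ) + t * I))
      (g := fun z : ℂ => ‖Φ z‖ ^ q) h4 (by apply Continuous.continuousAt; fun_prop)
  · intro σ hσ
    refine Filter.Eventually.of_forall fun t => ?_
    rw [Real.norm_of_nonneg (Real.rpow_nonneg (norm_nonneg _) _)]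
    exact B4_bd hq hK hb hσ.1 hσ.2
  · exact (B4_int hq).const_mul _
  · refine Filter.Eventually.of_forall fun t => ?_
    intro σ hσ
    have h4 := B4_cont (Φ := Φ) (t := t) hq hd hσ.1 hσ.2
    exact (ContinuousAt.comp (f := fun σ : ℝ => ((σ : ℂ) + t * I))
      (g := fun z : ℂ => ‖Φ z‖ ^ q) h4
      (by apply Continuous.continuousAt; fun_prop)).continuousWithinAt

private theorem B4_avg (a r : ℝ) :
    ∫ θ in (0 : ℝ)..(2 * π), (a + r * Real.cos θ) ^ 2 = 2 * π * a ^ 2 + π * r ^ 2 := by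
  have h1 : ∀ θ : ℝ, (a + r * Real.cos θ) ^ 2 =
      a ^ 2 + 2 * a * r * Real.cos θ + r ^ 2 * Real.cos θ ^ 2 := fun θ => by ring
  simp_rw [h1]
  rw [intervalIntegral.integral_add (by apply Continuous.intervalIntegrable; fun_prop)
      (by apply Continuous.intervalIntegrable; fun_prop),
    intervalIntegral.integral_add (by apply Continuous.intervalIntegrable; fun_prop)
      (by apply Continuous.intervalIntegrable; fun_prop),
    intervalIntegral.integral_const_mul, intervalIntegral.integral_const_mul, integral_cos,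
    integral_cos_sq]
  simp [Real.sin_two_pi]
  ring

private theorem B4_max {Φ : ℂ → ℂ} {A B q K : ℝ} (_ : A < B) (hq : 0 < q) (hK : 0 ≤ K)
    (hd : ∀ s : ℂ, A ≤ s.re → s.re ≤ B → AnalyticAt ℂ Φ s)
    (hb : ∀ s : ℂ, A ≤ s.re → s.re ≤ B → ‖Φ s‖ ≤ K * Real.exp (-|s.im|))
    {σ : ℝ} (h1 : A ≤ σ) (h2 : σ ≤ B) :
    ∫ t : ℝ, ‖Φ (σ + t * I)‖ ^ q ≤
      max (∫ t : ℝ, ‖Φ (A + t * I)‖ ^ q) (∫ t : ℝ, ‖Φ (B + t * I)‖ ^ q) := by
  set n : ℝ → ℝ := fun σ => ∫ t : ℝ, ‖Φ (σ + t * I)‖ ^ q with hn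
  have hnc : ContinuousOn n (Set.Icc A B) := B4_contn hq hK hd hb
  have key : ∀ ε : ℝ, 0 < ε → ∀ s ∈ Set.Icc A B, n s + ε * s ^ 2 ≤
      max (n A + ε * A ^ 2) (n B + ε * B ^ 2) := by
    intro ε hε s hs
    have hhc : ContinuousOn (fun s => n s + ε * s ^ 2) (Set.Icc A B) :=
      hnc.add (by fun_prop)
    obtain ⟨s0, hs0, hmax⟩ := isCompact_Icc.exists_isMaxOn ⟨s, hs⟩ hhc
    have hm : ∀ s ∈ Set.Icc A B, n s + ε * s ^ 2 ≤ n s0 + ε * s0 ^ 2 := fun s hs => hmax hs
    refine (hm s hs).trans ?_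
    by_cases hA : s0 = A
    · rw [hA]; exact le_max_left _ _
    by_cases hB : s0 = B
    · rw [hB]; exact le_max_right _ _
    exfalso
    have hA' : A < s0 := lt_of_le_of_ne hs0.1 (Ne.symm hA)
    have hB' : s0 < B := lt_of_le_of_ne hs0.2 hB
    set r := min (s0 - A) (B - s0) with hrdef
    have hr : 0 < r := lt_min (by linarith) (by linarith)
    have hr1 : A ≤ s0 - r := by
      have := min_le_left (s0 - A) (B - s0)
      linarith
    have hr2 : s0 + r ≤ B := by
      have := min_le_right (s0 - A) (B - s0)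
      linarith
    have hstr : ∀ θ : ℝ, s0 + r * Real.cos θ ∈ Set.Icc A B := by
      intro θ
      have h3 := Real.neg_one_le_cos θ
      have h4 := Real.cos_le_one θ
      constructor <;> nlinarith
    have hstep := B4_step hq hK hd hb hr hr1 hr2
    have hpi : (0 : ℝ) < 2 * π := by positivity
    have hle : ∫ θ in (0 : ℝ)..(2 * π), n (s0 + r * Real.cos θ) ≤
        ∫ θ in (0 : ℝ)..(2 * π), ((n s0 + ε * s0 ^ 2) - ε * (s0 + r * Real.cos θ) ^ 2) := by
      refine intervalIntegral.integral_mono_on hpi.le ?_ ?_ ?_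
      · apply Continuous.intervalIntegrable
        exact hnc.comp_continuous (by fun_prop) hstr
      · apply Continuous.intervalIntegrable
        fun_prop
      · intro θ _
        have := hm _ (hstr θ)
        linarith
    rw [intervalIntegral.integral_sub (by apply Continuous.intervalIntegrable; fun_prop)
        (by apply Continuous.intervalIntegrable; fun_prop),
      intervalIntegral.integral_const, intervalIntegral.integral_const_mul, B4_avg,
      smul_eq_mul, sub_zero] at hle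
    have hstep' : n s0 ≤ (2 * π)⁻¹ * ∫ θ in (0 : ℝ)..(2 * π), n (s0 + r * Real.cos θ) := hstep
    have h5 : (2 * π)⁻¹ * ∫ θ in (0 : ℝ)..(2 * π), n (s0 + r * Real.cos θ) ≤
        (2 * π)⁻¹ * (2 * π * (n s0 + ε * s0 ^ 2) - ε * (2 * π * s0 ^ 2 + π * r ^ 2)) :=
      mul_le_mul_of_nonneg_left hle (by positivity)
    have h6 : (2 * π)⁻¹ * (2 * π * (n s0 + ε * s0 ^ 2) - ε * (2 * π * s0 ^ 2 + π * r ^ 2)) =
        n s0 - ε * r ^ 2 / 2 := by
      have := Real.pi_ne_zero
      field_simp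
      ring
    have h7 : 0 < ε * r ^ 2 / 2 := by positivity
    linarith
  refine le_of_forall_pos_le_add fun δ hδ => ?_
  have hε : 0 < δ / (A ^ 2 + B ^ 2 + 1) := by positivity
  have h3 := key _ hε σ ⟨h1, h2⟩
  have h4 : δ / (A ^ 2 + B ^ 2 + 1) * A ^ 2 ≤ δ := by
    rw [div_mul_eq_mul_div, div_le_iff₀ (by positivity)]
    nlinarith [sq_nonneg A, sq_nonneg B]
  have h5 : δ / (A ^ 2 + B ^ 2 + 1) * B ^ 2 ≤ δ := by
    rw [div_mul_eq_mul_div, div_le_iff₀ (by positivity)]
    nlinarith [sq_nonneg A, sq_nonneg B]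
  have h6 : 0 ≤ δ / (A ^ 2 + B ^ 2 + 1) * σ ^ 2 := by positivity
  have h7 : max (n A + δ / (A ^ 2 + B ^ 2 + 1) * A ^ 2)
      (n B + δ / (A ^ 2 + B ^ 2 + 1) * B ^ 2) ≤ max (n A) (n B) + δ :=
    max_le (add_le_add (le_max_left _ _) h4) (add_le_add (le_max_right _ _) h5)
  have h8 : n σ ≤ max (n A) (n B) + δ := by linarith
  exact h8

theorem gabriel {Φ : ℂ → ℂ} {A B q K : ℝ} (hAB : A < B) (hq : 0 < q)
    (hd : ∀ s : ℂ, A ≤ s.re → s.re ≤ B → AnalyticAt ℂ Φ s)
    (hb : ∀ s : ℂ, A ≤ s.re → s.re ≤ B → ‖Φ s‖ ≤ K * Real.exp (-|s.im|))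
    {σ : ℝ} (h1 : A ≤ σ) (h2 : σ ≤ B) :
    ∫⁻ t : ℝ, ENNReal.ofReal (‖Φ (σ + t * I)‖ ^ q) ≤
      (∫⁻ t : ℝ, ENNReal.ofReal (‖Φ (A + t * I)‖ ^ q)) ^ ((B - σ) / (B - A)) *
      (∫⁻ t : ℝ, ENNReal.ofReal (‖Φ (B + t * I)‖ ^ q)) ^ ((σ - A) / (B - A)) := by
  have hK : 0 ≤ K := by
    have h3 := hb (A : ℂ) (by simp) (by simpa using hAB.le)
    have h4 : |(A : ℂ).im| = 0 := by simp
    rw [h4, neg_zero, Real.exp_zero, mul_one] at h3
    exact (norm_nonneg _).trans h3
  set n : ℝ → ℝ := fun σ => ∫ t : ℝ, ‖Φ (σ + t * I)‖ ^ q with hn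
  have hn0 : ∀ s, 0 ≤ n s := fun s =>
    integral_nonneg fun t => Real.rpow_nonneg (norm_nonneg _) _
  have hlin : ∀ s : ℝ, A ≤ s → s ≤ B →
      ∫⁻ t : ℝ, ENNReal.ofReal (‖Φ (s + t * I)‖ ^ q) = ENNReal.ofReal (n s) := by
    intro s hs1 hs2
    have hi : Integrable (fun t : ℝ => ‖Φ (s + t * I)‖ ^ q) := by
      refine ((B4_int hq).const_mul (K ^ q)).mono' ?_ (Filter.Eventually.of_forall fun t => ?_)
      · apply Continuous.aestronglyMeasurable
        rw [continuous_iff_continuousAt]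
        intro t
        have h4 := B4_cont (Φ := Φ) (t := t) hq hd hs1 hs2
        exact ContinuousAt.comp (f := fun t : ℝ => ((s : ℂ) + t * I))
          (g := fun z : ℂ => ‖Φ z‖ ^ q) h4 (by apply Continuous.continuousAt; fun_prop)
      · rw [Real.norm_of_nonneg (Real.rpow_nonneg (norm_nonneg _) _)]
        exact B4_bd hq hK hb hs1 hs2
    exact (ofReal_integral_eq_lintegral_ofReal hi
      (Filter.Eventually.of_forall fun t => Real.rpow_nonneg (norm_nonneg _) _)).symm
  have hBA : 0 < B - A := by linarith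
  -- the weighted maximum principle
  have hk : ∀ k : ℝ, Real.exp (q * k * σ) * n σ ≤
      max (Real.exp (q * k * A) * n A) (Real.exp (q * k * B) * n B) := by
    intro k
    have hnk : ∀ s : ℝ, ∫ t : ℝ, ‖Φ (s + t * I) * Complex.exp (k * (s + t * I))‖ ^ q =
        Real.exp (q * k * s) * n s := by
      intro s
      rw [hn]
      show _ = Real.exp (q * k * s) * ∫ t : ℝ, ‖Φ (s + t * I)‖ ^ q
      rw [← integral_const_mul]
      refine integral_congr_ae (Filter.Eventually.of_forall fun t => ?_)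
      show ‖Φ (s + t * I) * Complex.exp (k * (s + t * I))‖ ^ q =
        Real.exp (q * k * s) * ‖Φ (s + t * I)‖ ^ q
      rw [norm_mul, Complex.norm_exp, Real.mul_rpow (norm_nonneg _) (Real.exp_pos _).le,
        ← Real.exp_mul, mul_comm]
      congr 2
      have : ((k : ℂ) * (s + t * I)).re = k * s := by simp
      rw [this]
      ring
    have h3 := B4_max (Φ := fun z => Φ z * Complex.exp (k * z))
      (K := K * Real.exp (|k| * (|A| + |B|))) hAB hq (by positivity)
      (fun s hs1 hs2 => (hd s hs1 hs2).mul (by fun_prop))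
      (by
        intro s hs1 hs2
        rw [norm_mul, Complex.norm_exp]
        have h4 : ((k : ℂ) * s).re ≤ |k| * (|A| + |B|) := by
          have h5 : ((k : ℂ) * s).re = k * s.re := by simp
          rw [h5]
          refine (le_abs_self _).trans ?_
          rw [abs_mul]
          refine mul_le_mul_of_nonneg_left ?_ (abs_nonneg _)
          rw [abs_le]
          constructor
          · have := neg_abs_le A
            have := abs_nonneg B
            linarith
          · have := le_abs_self B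
            have := abs_nonneg A
            linarith
        calc ‖Φ s‖ * Real.exp ((k : ℂ) * s).re
            ≤ (K * Real.exp (-|s.im|)) * Real.exp (|k| * (|A| + |B|)) :=
              mul_le_mul (hb s hs1 hs2) (Real.exp_le_exp.2 h4) (Real.exp_pos _).le
                (by positivity)
          _ = K * Real.exp (|k| * (|A| + |B|)) * Real.exp (-|s.im|) := by ring) h1 h2
    rw [hnk σ, hnk A, hnk B] at h3
    exact h3
  -- approximations
  have happ : ∀ ε : ℝ, 0 < ε → n σ ≤
      (n A + ε) ^ ((B - σ) / (B - A)) * (n B + ε) ^ ((σ - A) / (B - A)) := by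
    intro ε hε
    have ha : 0 < n A + ε := by have := hn0 A; linarith
    have hbb : 0 < n B + ε := by have := hn0 B; linarith
    set k : ℝ := (Real.log (n A + ε) - Real.log (n B + ε)) / (q * (B - A)) with hkdef
    have hkk : q * k * (B - A) = Real.log (n A + ε) - Real.log (n B + ε) := by
      rw [hkdef]
      field_simp
    have h3 := hk k
    have h4 : Real.exp (q * k * B) * (n B + ε) = Real.exp (q * k * A) * (n A + ε) := by
      have h5 : Real.exp (q * k * B) = Real.exp (q * k * A) * ((n A + ε) / (n B + ε)) := by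
        have h6 : (n A + ε) / (n B + ε) = Real.exp (q * k * (B - A)) := by
          rw [hkk, Real.exp_sub, Real.exp_log ha, Real.exp_log hbb]
        rw [h6, ← Real.exp_add]
        congr 1
        ring
      rw [h5]
      field_simp
    have h7 : Real.exp (q * k * σ) * n σ ≤ Real.exp (q * k * A) * (n A + ε) := by
      refine h3.trans (max_le ?_ ?_)
      · exact mul_le_mul_of_nonneg_left (by linarith) (Real.exp_pos _).le
      · rw [← h4]
        exact mul_le_mul_of_nonneg_left (by linarith) (Real.exp_pos _).le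
    have h8 : n σ ≤ Real.exp (-(q * k * (σ - A))) * (n A + ε) := by
      have h9 : Real.exp (-(q * k * σ)) * (Real.exp (q * k * σ) * n σ) ≤
          Real.exp (-(q * k * σ)) * (Real.exp (q * k * A) * (n A + ε)) :=
        mul_le_mul_of_nonneg_left h7 (Real.exp_pos _).le
      rw [← mul_assoc, ← Real.exp_add, neg_add_cancel, Real.exp_zero, one_mul, ← mul_assoc,
        ← Real.exp_add] at h9
      refine h9.trans (le_of_eq ?_)
      congr 2
      ring
    refine h8.trans (le_of_eq ?_)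
    have h11 : Real.exp (-(q * k * (σ - A))) * (n A + ε) =
        Real.exp (-(q * k * (σ - A)) + Real.log (n A + ε)) := by
      rw [Real.exp_add, Real.exp_log ha]
    rw [h11, Real.rpow_def_of_pos ha, Real.rpow_def_of_pos hbb, ← Real.exp_add]
    congr 1
    have h10 : q * k * (σ - A) = (Real.log (n A + ε) - Real.log (n B + ε)) *
        ((σ - A) / (B - A)) := by
      rw [← hkk]
      field_simp
    rw [h10]
    field_simp
    ring
  have hlim : n σ ≤ n A ^ ((B - σ) / (B - A)) * n B ^ ((σ - A) / (B - A)) := by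
    have he1 : 0 ≤ (B - σ) / (B - A) := div_nonneg (by linarith) hBA.le
    have he2 : 0 ≤ (σ - A) / (B - A) := div_nonneg (by linarith) hBA.le
    have hc : Filter.Tendsto (fun ε : ℝ => (n A + ε) ^ ((B - σ) / (B - A)) *
        (n B + ε) ^ ((σ - A) / (B - A))) (nhdsWithin 0 (Set.Ioi 0))
        (nhds (n A ^ ((B - σ) / (B - A)) * n B ^ ((σ - A) / (B - A)))) := by
      have h3 : Continuous (fun ε : ℝ => (n A + ε) ^ ((B - σ) / (B - A)) *
          (n B + ε) ^ ((σ - A) / (B - A))) :=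
        ((continuous_const.add continuous_id).rpow_const fun _ => Or.inr he1).mul
          ((continuous_const.add continuous_id).rpow_const fun _ => Or.inr he2)
      have h4 := h3.tendsto 0
      simp only [add_zero] at h4
      exact h4.mono_left nhdsWithin_le_nhds
    exact ge_of_tendsto hc (Filter.eventually_of_mem self_mem_nhdsWithin happ)
  rw [hlin σ h1 h2, hlin A le_rfl hAB.le, hlin B hAB.le le_rfl,
    ENNReal.ofReal_rpow_of_nonneg (hn0 A) (div_nonneg (by linarith) hBA.le),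
    ENNReal.ofReal_rpow_of_nonneg (hn0 B) (div_nonneg (by linarith) hBA.le),
    ← ENNReal.ofReal_mul (Real.rpow_nonneg (hn0 A) _)]
  exact ENNReal.ofReal_le_ofReal hlim

end Pool.Agent.UH
end

section

/-! TASK C1. Derivatives at the zeros of a cluster (Blaschke products), normalised to the unit disc.
For `‖ρ‖ ≤ 1/2` let `b_ρ(z) = (z-ρ)/(1 - conj ρ z)`: analytic near the closed unit disc, `‖b_ρ‖ = 1` on the circle, zero only at `ρ`, `b_ρ'(ρ) = 1/(1-‖ρ‖²)`, so `‖b_ρ'(ρ)‖ ≤ 4/3`; and `‖b_ρ(ρ')‖ ≤ 4/5` for `‖ρ'‖ ≤ 1/2`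
(`1 - ‖b_ρ(ρ')‖² = (1-‖ρ‖²)(1-‖ρ'‖²)/‖1 - conj ρ ρ'‖² ≥ (3/4)²/(5/4)² = 9/25`).
Factorisation (induction on the finite set `Z`): there is `g` analytic near the closed disc with `f = (∏_{ρ∈Z} b_ρ) g` on the closed disc (and near it). Step: `f = b_ρ g₁` with `g₁ = dslope f ρ · (1 - conj ρ z)` (`f ρ = 0`); for `ρ' ∈ Z`, `ρ' ≠ ρ`: `g₁(ρ') = 0` because
`b_ρ(ρ') ≠ 0`. (`dslope` of an analytic function is analytic: `AnalyticAt.dslope`... or `DifferentiableOn.dslope`/`Complex.differentiableOn_dslope`; one may work with `DifferentiableOn` on an open ball of radius slightly larger than 1, or only with `DiffContOnCl ℂ f (ball 0 1)`.)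
On the circle `‖g‖ = ‖f‖ ≤ M`, so `‖g‖ ≤ M` on the disc (`Complex.norm_le_of_forall_mem_frontier_norm_le`). At `ρ ∈ Z`: `f' (ρ) = b_ρ'(ρ) ∏_{ρ'≠ρ} b_{ρ'}(ρ) g(ρ)` (product rule, `b_ρ(ρ) = 0`), hence `‖f'(ρ)‖ ≤ (4/3) (4/5)^{card Z - 1} M`. -/

set_option autoImplicit false

namespace Pool.Agent.UH

open Complex MeasureTheory Finset
open scoped Real ComplexConjugate

private noncomputable def C1_b (ρ z : ℂ) : ℂ := (z - ρ) / (1 - conj ρ * z)

private theorem C1_den_ne {ρ z : ℂ} (hρ : ‖ρ‖ ≤ 1 / 2) (hz : ‖z‖ ≤ 1) : 1 - conj ρ * z ≠ 0 := by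
  intro h
  have h1 : conj ρ * z = 1 := (sub_eq_zero.1 h).symm
  have h2 : ‖ρ‖ * ‖z‖ = 1 := by
    rw [← Complex.norm_conj ρ, ← norm_mul, h1, norm_one]
  nlinarith [norm_nonneg ρ, norm_nonneg z]

private theorem C1_id (ρ z : ℂ) :
    ‖1 - conj ρ * z‖ ^ 2 - ‖z - ρ‖ ^ 2 = (1 - ‖ρ‖ ^ 2) * (1 - ‖z‖ ^ 2) := by
  rw [← Complex.normSq_eq_norm_sq, ← Complex.normSq_eq_norm_sq, ← Complex.normSq_eq_norm_sq,
    ← Complex.normSq_eq_norm_sq]
  simp only [Complex.normSq_apply, Complex.sub_re, Complex.sub_im, Complex.mul_re, Complex.mul_im,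
    Complex.one_re, Complex.one_im, Complex.conj_re, Complex.conj_im]
  ring

private theorem C1_circle {ρ z : ℂ} (hρ : ‖ρ‖ ≤ 1 / 2) (hz : ‖z‖ = 1) : ‖C1_b ρ z‖ = 1 := by
  unfold C1_b
  have h := C1_id ρ z
  rw [hz] at h
  have h1 : ‖z - ρ‖ ^ 2 = ‖1 - conj ρ * z‖ ^ 2 := by linarith
  have h2 : ‖z - ρ‖ = ‖1 - conj ρ * z‖ :=
    (sq_eq_sq₀ (norm_nonneg _) (norm_nonneg _)).1 h1
  rw [norm_div, h2]
  exact div_self (norm_ne_zero_iff.2 (C1_den_ne hρ hz.le))

private theorem C1_half {ρ z : ℂ} (hρ : ‖ρ‖ ≤ 1 / 2) (hz : ‖z‖ ≤ 1 / 2) : ‖C1_b ρ z‖ ≤ 4 / 5 := by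
  unfold C1_b
  have h := C1_id ρ z
  have hD : 0 < ‖1 - conj ρ * z‖ := norm_pos_iff.2 (C1_den_ne hρ (by linarith))
  have hD2 : ‖1 - conj ρ * z‖ ≤ 5 / 4 := by
    calc ‖1 - conj ρ * z‖ ≤ ‖(1 : ℂ)‖ + ‖conj ρ * z‖ := norm_sub_le _ _
      _ = 1 + ‖ρ‖ * ‖z‖ := by rw [norm_one, norm_mul, Complex.norm_conj]
      _ ≤ 5 / 4 := by nlinarith [norm_nonneg ρ, norm_nonneg z]
  rw [norm_div, div_le_iff₀ hD]
  have h3 : (1 - ‖ρ‖ ^ 2) * (1 - ‖z‖ ^ 2) ≥ 9 / 16 := by
    have h4 : ‖ρ‖ ^ 2 ≤ 1 / 4 := by nlinarith [norm_nonneg ρ]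
    have h5 : ‖z‖ ^ 2 ≤ 1 / 4 := by nlinarith [norm_nonneg z]
    nlinarith
  by_contra hc
  push Not at hc
  have h6 : (4 / 5 * ‖1 - conj ρ * z‖) ^ 2 < ‖z - ρ‖ ^ 2 := by
    apply pow_lt_pow_left₀ hc (by positivity) (by norm_num)
  have h7 : ‖1 - conj ρ * z‖ ^ 2 ≤ 25 / 16 := by nlinarith
  nlinarith

private theorem C1_b_ne {ρ z : ℂ} (hρ : ‖ρ‖ ≤ 1 / 2) (hz : ‖z‖ ≤ 1) (h : z ≠ ρ) : C1_b ρ z ≠ 0 :=
  div_ne_zero (sub_ne_zero.2 h) (C1_den_ne hρ hz)

private theorem C1_dslope {f : ℂ → ℂ} {S : Set ℂ} (hf : AnalyticOnNhd ℂ f S) {ρ : ℂ} (hρ : ρ ∈ S) :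
    AnalyticOnNhd ℂ (dslope f ρ) S := by
  intro z hz
  by_cases h : z = ρ
  · rw [h]
    obtain ⟨p, hp⟩ := hf ρ hρ
    exact ⟨_, hp.has_fpower_series_dslope_fslope⟩
  · have h1 : AnalyticAt ℂ (fun z => (z - ρ)⁻¹ * (f z - f ρ)) z := by
      apply AnalyticAt.mul
      · exact (analyticAt_id.sub analyticAt_const).inv (sub_ne_zero.2 h)
      · exact (hf z hz).sub analyticAt_const
    refine h1.congr ?_
    filter_upwards [isOpen_ne.mem_nhds h] with w hw
    rw [dslope_of_ne _ hw, slope_def_module, smul_eq_mul]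

private theorem C1_fact (Z : Finset ℂ) : ∀ f : ℂ → ℂ,
    AnalyticOnNhd ℂ f (Metric.closedBall 0 1) → (∀ ρ ∈ Z, ‖ρ‖ ≤ 1 / 2 ∧ f ρ = 0) →
    ∃ g : ℂ → ℂ, AnalyticOnNhd ℂ g (Metric.closedBall 0 1) ∧
      ∀ z ∈ Metric.closedBall (0 : ℂ) 1, f z = (∏ ρ ∈ Z, C1_b ρ z) * g z := by
  classical
  induction Z using Finset.induction_on with
  | empty =>
    intro f hf _
    exact ⟨f, hf, fun z _ => by rw [Finset.prod_empty, one_mul]⟩
  | insert ρ Z hρZ ih =>
    intro f hf hZ
    have hρ := hZ ρ (Finset.mem_insert_self _ _)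
    have hρS : ρ ∈ Metric.closedBall (0 : ℂ) 1 := by
      rw [mem_closedBall_zero_iff]
      linarith [hρ.1]
    have hg1 : AnalyticOnNhd ℂ (fun z => dslope f ρ z * (1 - conj ρ * z))
        (Metric.closedBall 0 1) := by
      intro z hz
      exact (C1_dslope hf hρS z hz).mul
        (analyticAt_const.sub (analyticAt_const.mul analyticAt_id))
    have hfg : ∀ z ∈ Metric.closedBall (0 : ℂ) 1,
        f z = C1_b ρ z * (dslope f ρ z * (1 - conj ρ * z)) := by
      intro z hz
      rw [mem_closedBall_zero_iff] at hz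
      have hne := C1_den_ne hρ.1 hz
      have h1 : (z - ρ) * dslope f ρ z = f z := by
        have := sub_smul_dslope f ρ z
        rw [hρ.2, sub_zero, smul_eq_mul] at this
        exact this
      unfold C1_b
      rw [div_mul_eq_mul_div, eq_div_iff hne, ← h1]
      ring
    obtain ⟨g, hg, hgf⟩ := ih (fun z => dslope f ρ z * (1 - conj ρ * z)) hg1 (by
      intro ρ' hρ'
      have h1 := hZ ρ' (Finset.mem_insert_of_mem hρ')
      refine ⟨h1.1, ?_⟩
      have hS : ρ' ∈ Metric.closedBall (0 : ℂ) 1 := by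
        rw [mem_closedBall_zero_iff]
        linarith [h1.1]
      have h2 := hfg ρ' hS
      rw [h1.2] at h2
      have h3 : C1_b ρ ρ' ≠ 0 := C1_b_ne hρ.1 (by linarith [h1.1])
        (fun h => hρZ (h ▸ hρ'))
      exact (mul_eq_zero.1 h2.symm).resolve_left h3)
    refine ⟨g, hg, ?_⟩
    intro z hz
    rw [Finset.prod_insert hρZ, hfg z hz, mul_assoc]
    congr 1
    exact hgf z hz

theorem cluster_deriv {f : ℂ → ℂ} {M : ℝ} (Z : Finset ℂ)
    (hf : AnalyticOnNhd ℂ f (Metric.closedBall 0 1)) (hM : ∀ z : ℂ, ‖z‖ = 1 → ‖f z‖ ≤ M)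
    (hZ : ∀ ρ ∈ Z, ‖ρ‖ ≤ 1 / 2 ∧ f ρ = 0) :
    ∀ ρ ∈ Z, ‖deriv f ρ‖ ≤ 4 / 3 * (4 / 5 : ℝ) ^ (Z.card - 1) * M := by
  classical
  intro ρ hρ
  obtain ⟨g, hg, hfg⟩ := C1_fact Z f hf hZ
  have hM0 : 0 ≤ M := le_trans (norm_nonneg _) (hM 1 norm_one)
  -- the bound for `g`
  have hgM : ∀ z ∈ Metric.closedBall (0 : ℂ) 1, ‖g z‖ ≤ M := by
    intro z hz
    have hcl : closure (Metric.ball (0 : ℂ) 1) = Metric.closedBall 0 1 := closure_ball 0 one_ne_zero
    have hd : DiffContOnCl ℂ g (Metric.ball (0 : ℂ) 1) := by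
      apply DifferentiableOn.diffContOnCl
      rw [hcl]
      exact hg.differentiableOn
    refine Complex.norm_le_of_forall_mem_frontier_norm_le Metric.isBounded_ball hd ?_
      (by rw [hcl]; exact hz)
    intro w hw
    rw [frontier_ball (0 : ℂ) one_ne_zero, mem_sphere_zero_iff_norm] at hw
    have h1 := hfg w (by rw [mem_closedBall_zero_iff]; exact hw.le)
    have h2 : ‖f w‖ = ‖g w‖ := by
      rw [h1, norm_mul, norm_prod, Finset.prod_congr rfl (fun ρ' hρ' => C1_circle (hZ ρ' hρ').1 hw),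
        Finset.prod_const_one, one_mul]
    rw [← h2]
    exact hM w hw
  have hρ1 := (hZ ρ hρ).1
  have hρS : ρ ∈ Metric.closedBall (0 : ℂ) 1 := by
    rw [mem_closedBall_zero_iff]
    linarith
  have hdb : ∀ ρ' : ℂ, ‖ρ'‖ ≤ 1 / 2 → DifferentiableAt ℂ (fun z => 1 - conj ρ' * z) ρ := by
    intro ρ' _
    fun_prop
  -- the other factor
  have hk : DifferentiableAt ℂ (fun z => (∏ ρ' ∈ Z.erase ρ, C1_b ρ' z) * g z / (1 - conj ρ * z)) ρ := by
    apply DifferentiableAt.div
    · apply DifferentiableAt.mul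
      · apply DifferentiableAt.fun_finsetProd
        intro ρ' hρ'
        have hρ'1 := (hZ ρ' (Finset.mem_of_mem_erase hρ')).1
        unfold C1_b
        apply DifferentiableAt.div
        · fun_prop
        · exact hdb ρ' hρ'1
        · exact C1_den_ne hρ'1 (by linarith)
      · exact (hg ρ hρS).differentiableAt
    · exact hdb ρ hρ1
    · exact C1_den_ne hρ1 (by linarith)
  have hderiv : HasDerivAt (fun z => (z - ρ) * ((∏ ρ' ∈ Z.erase ρ, C1_b ρ' z) * g z / (1 - conj ρ * z)))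
      ((∏ ρ' ∈ Z.erase ρ, C1_b ρ' ρ) * g ρ / (1 - conj ρ * ρ)) ρ := by
    have h1 := ((hasDerivAt_id ρ).sub_const ρ).mul hk.hasDerivAt
    have h2 : (1 : ℂ) * ((∏ ρ' ∈ Z.erase ρ, C1_b ρ' ρ) * g ρ / (1 - conj ρ * ρ)) +
        (id ρ - ρ) * deriv (fun z => (∏ ρ' ∈ Z.erase ρ, C1_b ρ' z) * g z / (1 - conj ρ * z)) ρ =
        (∏ ρ' ∈ Z.erase ρ, C1_b ρ' ρ) * g ρ / (1 - conj ρ * ρ) := by
      simp only [id_eq]
      ring
    rw [← h2]
    exact h1
  have hev : f =ᶠ[nhds ρ]
      (fun z => (z - ρ) * ((∏ ρ' ∈ Z.erase ρ, C1_b ρ' z) * g z / (1 - conj ρ * z))) := by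
    have hball : Metric.ball (0 : ℂ) 1 ∈ nhds ρ := by
      apply Metric.isOpen_ball.mem_nhds
      rw [mem_ball_zero_iff]
      linarith
    filter_upwards [hball] with z hz
    have hz' : z ∈ Metric.closedBall (0 : ℂ) 1 := Metric.ball_subset_closedBall hz
    rw [hfg z hz', ← Finset.mul_prod_erase Z _ hρ]
    unfold C1_b
    ring
  rw [hev.deriv_eq, hderiv.deriv, norm_div, norm_mul, norm_prod]
  have h1 : ∏ ρ' ∈ Z.erase ρ, ‖C1_b ρ' ρ‖ ≤ (4 / 5 : ℝ) ^ (Z.card - 1) := by
    rw [← Finset.card_erase_of_mem hρ, ← Finset.prod_const]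
    apply Finset.prod_le_prod
    · intro i _
      exact norm_nonneg _
    · intro i hi
      exact C1_half (hZ i (Finset.mem_of_mem_erase hi)).1 hρ1
  have h2 : (3 : ℝ) / 4 ≤ ‖1 - conj ρ * ρ‖ := by
    have h3 : ‖(1 : ℂ)‖ - ‖conj ρ * ρ‖ ≤ ‖1 - conj ρ * ρ‖ := norm_sub_norm_le _ _
    rw [norm_one, norm_mul, Complex.norm_conj] at h3
    nlinarith [norm_nonneg ρ]
  rw [div_le_iff₀ (by linarith)]
  have h4 : (∏ ρ' ∈ Z.erase ρ, ‖C1_b ρ' ρ‖) * ‖g ρ‖ ≤ (4 / 5 : ℝ) ^ (Z.card - 1) * M :=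
    mul_le_mul h1 (hgM ρ hρS) (norm_nonneg _) (by positivity)
  have h5 : 0 ≤ (4 / 5 : ℝ) ^ (Z.card - 1) * M := by positivity
  calc (∏ ρ' ∈ Z.erase ρ, ‖C1_b ρ' ρ‖) * ‖g ρ‖ ≤ (4 / 5 : ℝ) ^ (Z.card - 1) * M := h4
    _ = 4 / 3 * (4 / 5 : ℝ) ^ (Z.card - 1) * M * (3 / 4) := by ring
    _ ≤ 4 / 3 * (4 / 5 : ℝ) ^ (Z.card - 1) * M * ‖1 - conj ρ * ρ‖ := by
      apply mul_le_mul_of_nonneg_left h2
      positivity

end Pool.Agent.UH
end

section

/-! TASK G1. Upper bound for the Gamma function in the strip `1/2 ≤ σ ≤ 1`.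
On the two lines (reflection formula `Complex.Gamma_mul_Gamma_one_sub`, `Complex.Gamma_conj`): `|Γ(1/2+iy)|² = π/cosh(πy) ≤ 2π e^{-π|y|}` and `|Γ(1+iy)|² = |y|² Γ(iy)Γ(-iy)... = πy/sinh(πy) ≤ 4π... (1+|y|) e^{-π|y|}` (for `y ≠ 0`: `Γ(1+iy) = iy Γ(iy)`, `Γ(iy)Γ(1-iy) = π/sin(πiy)`, so
`Γ(1+iy) Γ(1-iy) = iy π/sin(πiy) = πy/sinh(πy)`; `y/sinh(πy) ≤ C(1+|y|)e^{-π|y|}`; `y = 0`: `Γ(1) = 1`). (See also GH/Gam.lean for similar computations.)
Three lines: fix `y0` and let `g(w) = Γ(w + iy0) e^{w²}` on `1/2 ≤ Re w ≤ 1` (differentiable, bounded: `‖Γ(x+iy)‖ ≤ Γ(x)` (`Complex.norm_Gamma_le...`/from the integral; or use any bound), `‖e^{w²}‖ = e^{u²-v²} ≤ e`). On `Re w = 1/2`: `‖g‖ ≤ C e^{-π|v+y0|/2 + 1/4 - v²} ≤ C' e^{-π|y0|/2}`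
(`|v+y0| ≥ |y0|-|v|`, `sup_v e^{π|v|/2 - v²} < ∞`); on `Re w = 1`: `‖g‖ ≤ C (1+|v|+|y0|)^{1/2} e^{1-v²+π|v|/2} e^{-π|y0|/2} ≤ C' (1+|y0|)^{1/2} e^{-π|y0|/2}` (`1+|v|+|y0| ≤ (1+|v|)(1+|y0|)`).
`Complex.HadamardThreeLines.norm_le_interp_of_mem_verticalClosedStrip'` (Mathlib/Analysis/Complex/Hadamard.lean) with `l = 1/2, u = 1` at the real point `w = σ`: `‖Γ(σ+iy0)‖ e^{σ²} ≤ (C' e^{..})^{1-θ} (C' (1+|y0|)^{1/2} e^{..})^{θ}`, `θ = (σ-1/2)/(1/2) = 2σ-1`,
`= C' (1+|y0|)^{σ-1/2} e^{-π|y0|/2}`. -/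

set_option autoImplicit false

namespace Pool.Agent.UH

open Complex MeasureTheory Finset
open scoped Real ComplexConjugate

private theorem Gam_norm_le {w : ℂ} (hw : 0 < w.re) : ‖Complex.Gamma w‖ ≤ Real.Gamma w.re := by
  rw [Complex.Gamma_eq_integral hw, Real.Gamma_eq_integral hw, Complex.GammaIntegral]
  refine (norm_integral_le_integral_norm _).trans (le_of_eq ?_)
  refine setIntegral_congr_fun measurableSet_Ioi fun x hx => ?_
  have hx' : (0 : ℝ) < x := hx
  show ‖((Real.exp (-x) : ℝ) : ℂ) * (x : ℂ) ^ (w - 1)‖ = Real.exp (-x) * x ^ (w.re - 1)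
  rw [norm_mul, Complex.norm_real, Real.norm_of_nonneg (Real.exp_pos _).le,
    Complex.norm_cpow_eq_rpow_re_of_pos hx']
  simp

private theorem Gam_bdd : ∃ M : ℝ, 0 ≤ M ∧ ∀ w : ℂ, 1 / 2 ≤ w.re → w.re ≤ 3 / 2 →
    ‖Complex.Gamma w‖ ≤ M := by
  have hc : ContinuousOn Real.Gamma (Set.Icc (1 / 2) (3 / 2)) := fun x hx => by
    refine (Real.differentiableAt_Gamma fun m => ?_).continuousAt.continuousWithinAt
    have h1 : (1 / 2 : ℝ) ≤ x := hx.1
    have h2 : (0 : ℝ) ≤ m := Nat.cast_nonneg m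
    intro h
    linarith
  obtain ⟨M, hM⟩ := isCompact_Icc.exists_bound_of_continuousOn hc
  refine ⟨|M|, abs_nonneg _, fun w h1 h2 => ?_⟩
  have h3 := hM w.re ⟨h1, h2⟩
  rw [Real.norm_eq_abs] at h3
  exact (Gam_norm_le (by linarith)).trans ((le_abs_self _).trans (h3.trans (le_abs_self _)))

private theorem Gam_half (y : ℝ) :
    ‖Complex.Gamma (1 / 2 + y * I)‖ ≤ 3 * Real.exp (-(π * |y| / 2)) := by
  have h1 := Complex.Gamma_mul_Gamma_one_sub (1 / 2 + y * I)
  have h2 : (1 : ℂ) - (1 / 2 + y * I) = conj (1 / 2 + y * I : ℂ) := by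
    simp only [map_add, map_mul, Complex.conj_ofReal, Complex.conj_I, map_div₀, map_one, map_ofNat]
    ring
  rw [h2, Complex.Gamma_conj] at h1
  have h3 := congrArg norm h1
  rw [norm_mul, RCLike.norm_conj, norm_div, Complex.norm_real, Real.norm_of_nonneg Real.pi_pos.le]
    at h3
  have h4 : Complex.sin (π * (1 / 2 + y * I)) = ((Real.cosh (π * y) : ℝ) : ℂ) := by
    rw [show (π : ℂ) * (1 / 2 + y * I) = ((π * y : ℝ) : ℂ) * I + π / 2 by push_cast; ring,
      Complex.sin_add_pi_div_two, Complex.cos_mul_I, Complex.ofReal_cosh]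
  rw [h4, Complex.norm_real, Real.norm_of_nonneg (Real.cosh_pos _).le, ← sq] at h3
  have h5 : Real.exp (π * |y|) / 2 ≤ Real.cosh (π * y) := by
    rw [← Real.cosh_abs, abs_mul, abs_of_pos Real.pi_pos, Real.cosh_eq]
    have := Real.exp_pos (-(π * |y|))
    linarith
  have h6 : π / Real.cosh (π * y) ≤ 9 * Real.exp (-(π * |y|)) := by
    rw [div_le_iff₀ (Real.cosh_pos _)]
    have e1 : Real.exp (-(π * |y|)) * Real.exp (π * |y|) = 1 := by
      rw [← Real.exp_add]; simp
    have := Real.pi_lt_d2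
    have e2 : 9 * Real.exp (-(π * |y|)) * (Real.exp (π * |y|) / 2) ≤
        9 * Real.exp (-(π * |y|)) * Real.cosh (π * y) :=
      mul_le_mul_of_nonneg_left h5 (by positivity)
    nlinarith
  have h7 : (3 * Real.exp (-(π * |y| / 2))) ^ 2 = 9 * Real.exp (-(π * |y|)) := by
    rw [mul_pow, ← Real.exp_nat_mul]
    norm_num
    ring_nf
  refine le_of_sq_le_sq ?_ (by positivity)
  rw [h7, h3]
  exact h6

private theorem Gam_three_half (y : ℝ) :
    ‖Complex.Gamma (3 / 2 + y * I)‖ ≤ 3 * (1 + |y|) * Real.exp (-(π * |y| / 2)) := by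
  have h0 : (1 / 2 + y * I : ℂ) ≠ 0 := by
    intro h
    have := congrArg Complex.re h
    simp at this
  rw [show (3 / 2 + y * I : ℂ) = (1 / 2 + y * I) + 1 by ring, Complex.Gamma_add_one _ h0, norm_mul]
  have h1 : ‖(1 / 2 + y * I : ℂ)‖ ≤ 1 + |y| := by
    refine (norm_add_le _ _).trans ?_
    rw [norm_mul, Complex.norm_I, Complex.norm_real, mul_one, Real.norm_eq_abs]
    have : ‖(1 / 2 : ℂ)‖ ≤ 1 := by norm_num
    linarith
  calc _ ≤ (1 + |y|) * (3 * Real.exp (-(π * |y| / 2))) :=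
        mul_le_mul h1 (Gam_half y) (norm_nonneg _) (by positivity)
    _ = _ := by ring

private theorem Gam_upper (y τ : ℝ) (h0 : 0 ≤ τ) (h1 : τ ≤ 1) :
    ‖Complex.Gamma (1 / 2 + τ + y * I)‖ ≤
      3 * Real.exp 3 * (1 + |y|) ^ τ * Real.exp (-(π * |y| / 2)) := by
  obtain ⟨M, hM0, hM⟩ := Gam_bdd
  set F : ℂ → ℂ := fun w => Complex.Gamma (w + (1 / 2 + y * I)) * Complex.exp (w ^ 2) with hF
  have hnexp : ∀ w : ℂ, ‖Complex.exp (w ^ 2)‖ = Real.exp (w.re ^ 2 - w.im ^ 2) := by
    intro w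
    rw [Complex.norm_exp]
    congr 1
    simp [sq]
  set A : ℝ := 3 * Real.exp 3 * Real.exp (-(π * |y| / 2)) with hA
  have hA0 : 0 < A := by positivity
  have hcl : closure (Complex.HadamardThreeLines.verticalStrip 0 1) ⊆ {w : ℂ | 0 ≤ w.re} := by
    refine closure_minimal (fun w hw => ?_) (isClosed_le continuous_const Complex.continuous_re)
    exact (Set.mem_preimage.1 hw).1.le
  have hd : DiffContOnCl ℂ F (Complex.HadamardThreeLines.verticalStrip 0 1) := by
    refine DifferentiableOn.diffContOnCl fun w hw => ?_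
    have hw' : 0 ≤ w.re := hcl hw
    have hG : DifferentiableAt ℂ Complex.Gamma (w + (1 / 2 + y * I)) := by
      refine Complex.differentiableAt_Gamma _ fun m => ?_
      intro h
      have := congrArg Complex.re h
      simp at this
      have hm : (0 : ℝ) ≤ m := Nat.cast_nonneg m
      linarith
    refine DifferentiableAt.differentiableWithinAt ?_
    have e1 : DifferentiableAt ℂ (fun w : ℂ => Complex.Gamma (w + (1 / 2 + y * I))) w :=
      DifferentiableAt.fun_comp' w hG (by fun_prop)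
    exact e1.mul (by fun_prop)
  have hB : BddAbove ((norm ∘ F) '' Complex.HadamardThreeLines.verticalClosedStrip 0 1) := by
    refine ⟨M * Real.exp 1, ?_⟩
    rintro _ ⟨w, hw, rfl⟩
    have hw' : w.re ∈ Set.Icc (0 : ℝ) 1 := hw
    show ‖F w‖ ≤ _
    rw [hF]
    simp only [norm_mul]
    refine mul_le_mul (hM _ ?_ ?_) ?_ (norm_nonneg _) hM0
    · simp; exact hw'.1
    · simp; linarith [hw'.2]
    · rw [hnexp]
      refine Real.exp_le_exp.2 ?_
      have := hw'.1
      have := hw'.2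
      nlinarith [sq_nonneg w.im]
  have key : ∀ v : ℝ, Real.exp (-(π * |v + y| / 2)) ≤
      Real.exp (-(π * |y| / 2)) * Real.exp (π * |v| / 2) := by
    intro v
    rw [← Real.exp_add]
    refine Real.exp_le_exp.2 ?_
    have h1 : |y| ≤ |v + y| + |v| := by
      have := abs_sub (v + y) v
      simpa using this
    have := mul_le_mul_of_nonneg_left h1 Real.pi_pos.le
    linarith
  have ha : ∀ w ∈ Complex.re ⁻¹' {(0 : ℝ)}, ‖F w‖ ≤ A := by
    intro w hw
    have hw0 : w.re = 0 := hw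
    have e : w + (1 / 2 + y * I) = 1 / 2 + ((w.im + y : ℝ) : ℂ) * I := by
      conv_lhs => rw [← Complex.re_add_im w, hw0]
      push_cast
      ring
    rw [hF]
    simp only [norm_mul]
    rw [hnexp, e, hw0]
    have h2 := Gam_half (w.im + y)
    have h3 := key w.im
    have h4 : Real.exp (π * |w.im| / 2) * Real.exp (0 ^ 2 - w.im ^ 2) ≤ Real.exp 3 := by
      rw [← Real.exp_add]
      refine Real.exp_le_exp.2 ?_
      have := Real.pi_lt_d2
      rw [← sq_abs w.im]
      nlinarith [sq_nonneg (|w.im| - 1), abs_nonneg w.im]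
    calc _ ≤ (3 * Real.exp (-(π * |w.im + y| / 2))) * Real.exp (0 ^ 2 - w.im ^ 2) :=
          mul_le_mul_of_nonneg_right h2 (Real.exp_pos _).le
      _ ≤ (3 * (Real.exp (-(π * |y| / 2)) * Real.exp (π * |w.im| / 2))) *
          Real.exp (0 ^ 2 - w.im ^ 2) := by gcongr
      _ = 3 * Real.exp (-(π * |y| / 2)) *
          (Real.exp (π * |w.im| / 2) * Real.exp (0 ^ 2 - w.im ^ 2)) := by ring
      _ ≤ 3 * Real.exp (-(π * |y| / 2)) * Real.exp 3 := by gcongr
      _ = A := by rw [hA]; ring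
  have hb : ∀ w ∈ Complex.re ⁻¹' {(1 : ℝ)}, ‖F w‖ ≤ A * (1 + |y|) := by
    intro w hw
    have hw0 : w.re = 1 := hw
    have e : w + (1 / 2 + y * I) = 3 / 2 + ((w.im + y : ℝ) : ℂ) * I := by
      conv_lhs => rw [← Complex.re_add_im w, hw0]
      push_cast
      ring
    rw [hF]
    simp only [norm_mul]
    rw [hnexp, e, hw0]
    have h2 := Gam_three_half (w.im + y)
    have h3 := key w.im
    have h5 : 1 + |w.im + y| ≤ (1 + |y|) * Real.exp |w.im| := by
      have e1 : |w.im + y| ≤ |w.im| + |y| := abs_add_le _ _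
      have e2 : |w.im| + 1 ≤ Real.exp |w.im| := Real.add_one_le_exp _
      nlinarith [abs_nonneg y, abs_nonneg w.im]
    have h4 : Real.exp |w.im| * Real.exp (π * |w.im| / 2) * Real.exp (1 ^ 2 - w.im ^ 2) ≤
        Real.exp 3 := by
      rw [← Real.exp_add, ← Real.exp_add]
      refine Real.exp_le_exp.2 ?_
      have := Real.pi_lt_d2
      rw [← sq_abs w.im]
      nlinarith [sq_nonneg (|w.im| - 1.3), abs_nonneg w.im]
    calc _ ≤ (3 * (1 + |w.im + y|) * Real.exp (-(π * |w.im + y| / 2))) *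
          Real.exp (1 ^ 2 - w.im ^ 2) :=
          mul_le_mul_of_nonneg_right h2 (Real.exp_pos _).le
      _ ≤ (3 * ((1 + |y|) * Real.exp |w.im|) *
            (Real.exp (-(π * |y| / 2)) * Real.exp (π * |w.im| / 2))) *
          Real.exp (1 ^ 2 - w.im ^ 2) := by gcongr
      _ = 3 * (1 + |y|) * Real.exp (-(π * |y| / 2)) *
          (Real.exp |w.im| * Real.exp (π * |w.im| / 2) * Real.exp (1 ^ 2 - w.im ^ 2)) := by ring
      _ ≤ 3 * (1 + |y|) * Real.exp (-(π * |y| / 2)) * Real.exp 3 := by gcongr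
      _ = A * (1 + |y|) := by rw [hA]; ring
  have hz : ((τ : ℝ) : ℂ) ∈ Complex.HadamardThreeLines.verticalClosedStrip 0 1 := by
    show ((τ : ℝ) : ℂ).re ∈ Set.Icc (0 : ℝ) 1
    rw [Complex.ofReal_re]
    exact ⟨h0, h1⟩
  have h := Complex.HadamardThreeLines.norm_le_interp_of_mem_verticalClosedStrip₀₁' F hz hd hB ha hb
  rw [Complex.ofReal_re, Real.mul_rpow hA0.le (by positivity), ← mul_assoc,
    ← Real.rpow_add hA0, show 1 - τ + τ = 1 by ring, Real.rpow_one] at h
  have h8 : ‖Complex.Gamma (1 / 2 + τ + y * I)‖ ≤ ‖F τ‖ := by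
    rw [hF]
    simp only [norm_mul]
    rw [hnexp, show (τ : ℂ) + (1 / 2 + y * I) = 1 / 2 + τ + y * I by ring]
    refine le_mul_of_one_le_right (norm_nonneg _) (Real.one_le_exp ?_)
    simp
    positivity
  refine h8.trans (h.trans (le_of_eq ?_))
  rw [hA]
  ring

theorem gamma_ub : ∃ C : ℝ, 1 ≤ C ∧ ∀ σ y : ℝ, 1 / 2 ≤ σ → σ ≤ 1 →
    ‖Complex.Gamma (σ + y * I)‖ ≤ C * (1 + |y|) ^ (σ - 1 / 2) * Real.exp (-(π * |y| / 2)) := by
  refine ⟨3 * Real.exp 3, ?_, fun σ y h1 h2 => ?_⟩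
  · have := Real.one_le_exp (by norm_num : (0 : ℝ) ≤ 3)
    linarith
  · have h := Gam_upper y (σ - 1 / 2) (by linarith) (by linarith)
    have e : (1 / 2 + ((σ - 1 / 2 : ℝ) : ℂ) + y * I) = (σ + y * I : ℂ) := by
      push_cast
      ring
    rw [e] at h
    exact h

end Pool.Agent.UH
end

section

/-! TASK G2. The functional equation as inequalities. `riemannZeta_one_sub`: `ζ(1-s) = H(s) ζ(s)`, `H(s) = 2 (2π)^{-s} Γ(s) cos(πs/2)` (`s ≠ -n`, `s ≠ 1`; true for `Im s ≠ 0`).
`‖(2π)^{-s}‖ ≤ 1` (`Re s ≥ 1/2`), `‖cos(πs/2)‖ ≤ e^{π|t|/2}`, `gamma_ub`: `‖H(s)‖ ≤ 2C (1+|t|)^{σ-1/2} ≤ 4C |t|^{σ-1/2}` for `|t| ≥ 1`, `1/2 ≤ σ ≤ 1`.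
`zeta_left`: for `0 ≤ σ ≤ 1/2`, `t ≥ 1`: `s = 1-σ-it...`: put `s' = 1 - σ - it`... precisely `ζ(σ+it) = ζ(1 - s)` with `s = 1-σ-it`, `‖ζ(σ+it)‖ = ‖H(s)‖ ‖ζ(1-σ-it)‖ ≤ C t^{1/2-σ} ‖ζ(1-σ+it)‖` by `riemannZeta_conj`.
`deriv_left`: `ρ` a zero with `Re ρ < 1/2`, `Im ρ ≥ 1`, `0 < Re ρ`. Put `ρ1 = 1 - conj ρ` (`Re ρ1 = 1 - Re ρ ∈ (1/2, 1)`, `Im ρ1 = Im ρ`). `ζ(ρ1) = 0` and `‖ζ'(ρ)‖ ≤ C (Im ρ)^{1/2 - Re ρ} ‖ζ'(ρ1)‖`. Proof: let `s1 = conj ρ1 = 1 - ρ`; `ζ(ρ) = ζ(1 - s1) = H(s1) ζ(s1)`; `H(s1) ≠ 0`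
(`Γ` has no zeros, `cos(πs1/2) ≠ 0` since `Im s1 ≠ 0`), so `ζ(s1) = 0`, `ζ(ρ1) = conj ζ(s1) = 0`. Differentiate `ζ(1-s) = H(s) ζ(s)` at `s1` (both sides analytic near `s1`; `H` differentiable there): `-ζ'(ρ) = H'(s1) ζ(s1) + H(s1) ζ'(s1) = H(s1) ζ'(s1)`, and `‖ζ'(s1)‖ = ‖ζ'(ρ1)‖`
(differentiate `ζ(conj s) = conj ζ(s)`; Mathlib: `deriv_conj_conj` or `HasDerivAt.conj_conj`, `HasDerivAt.star_star`). -/

set_option autoImplicit false

namespace Pool.Agent.UH

open Complex MeasureTheory Finset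
open scoped Real ComplexConjugate

theorem norm_deriv_conj (s : ℂ) (hs : s ≠ 1) :
    ‖deriv riemannZeta (conj s)‖ = ‖deriv riemannZeta s‖ := by
  have h1 : HasDerivAt riemannZeta (deriv riemannZeta s) s :=
    (differentiableAt_riemannZeta hs).hasDerivAt
  have h2 := h1.conj_conj
  have h3 : (conj ∘ riemannZeta ∘ conj : ℂ → ℂ) = riemannZeta := by
    funext z
    simp only [Function.comp_apply, riemannZeta_conj, Complex.conj_conj]
  rw [h3] at h2
  rw [h2.deriv, Complex.norm_conj]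

/-- the factor of the functional equation -/
private noncomputable def G2_H (s : ℂ) : ℂ := 2 * (2 * π) ^ (-s) * Complex.Gamma s * Complex.cos (π * s / 2)

private theorem G2_eq {s : ℂ} (hs : s.im ≠ 0) :
    riemannZeta (1 - s) = G2_H s * riemannZeta s := by
  rw [G2_H]
  apply riemannZeta_one_sub
  · intro n h
    apply hs
    rw [h]; simp
  · intro h
    apply hs
    rw [h]; simp

private theorem G2_cos (z : ℂ) : ‖Complex.cos z‖ ≤ Real.exp |z.im| := by
  rw [Complex.cos]
  have h1 : ‖Complex.exp (z * I)‖ ≤ Real.exp |z.im| := by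
    rw [Complex.norm_exp]
    apply Real.exp_le_exp.2
    have : (z * I).re = -z.im := by simp
    rw [this]; exact neg_le_abs _
  have h2 : ‖Complex.exp (-z * I)‖ ≤ Real.exp |z.im| := by
    rw [Complex.norm_exp]
    apply Real.exp_le_exp.2
    have : (-z * I).re = z.im := by simp
    rw [this]; exact le_abs_self _
  rw [norm_div, Complex.norm_ofNat]
  have h3 := norm_add_le (Complex.exp (z * I)) (Complex.exp (-z * I))
  rw [div_le_iff₀ (by norm_num)]
  linarith

private theorem G2_bound : ∃ C : ℝ, 1 ≤ C ∧ ∀ s : ℂ, 1 / 2 ≤ s.re → s.re ≤ 1 → 1 ≤ |s.im| →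
    ‖G2_H s‖ ≤ C * |s.im| ^ (s.re - 1 / 2) := by
  obtain ⟨C, hC1, hC⟩ := gamma_ub
  refine ⟨4 * C, by linarith, fun s h1 h2 h3 => ?_⟩
  have hg := hC s.re s.im h1 h2
  rw [Complex.re_add_im] at hg
  have hp : ‖((2 : ℂ) * π) ^ (-s)‖ ≤ 1 := by
    have e : ((2 : ℂ) * π) = ((2 * π : ℝ) : ℂ) := by push_cast; rfl
    rw [e, Complex.norm_cpow_eq_rpow_re_of_pos (by positivity)]
    apply Real.rpow_le_one_of_one_le_of_nonpos
    · have := Real.pi_gt_three; linarith
    · rw [Complex.neg_re]; linarith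
  have hc : ‖Complex.cos (π * s / 2)‖ ≤ Real.exp (π * |s.im| / 2) := by
    refine (G2_cos _).trans_eq ?_
    congr 1
    have e : ((π : ℂ) * s / 2).im = π * s.im / 2 := by
      have : ((π : ℂ) * s / 2) = ((π / 2 : ℝ) : ℂ) * s := by push_cast; ring
      rw [this, Complex.im_ofReal_mul]
      ring
    rw [e, abs_div, abs_mul, abs_of_pos Real.pi_pos]
    norm_num
  have hy : (1 + |s.im|) ^ (s.re - 1 / 2) ≤ 2 * |s.im| ^ (s.re - 1 / 2) := by
    have hy0 : 0 < |s.im| := by linarith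
    calc (1 + |s.im|) ^ (s.re - 1 / 2) ≤ (2 * |s.im|) ^ (s.re - 1 / 2) :=
          Real.rpow_le_rpow (by linarith) (by linarith) (by linarith)
      _ = 2 ^ (s.re - 1 / 2) * |s.im| ^ (s.re - 1 / 2) := Real.mul_rpow (by norm_num) hy0.le
      _ ≤ 2 * |s.im| ^ (s.re - 1 / 2) := by
          apply mul_le_mul_of_nonneg_right _ (Real.rpow_nonneg hy0.le _)
          calc (2 : ℝ) ^ (s.re - 1 / 2) ≤ 2 ^ (1 : ℝ) :=
                Real.rpow_le_rpow_of_exponent_le (by norm_num) (by linarith)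
            _ = 2 := Real.rpow_one 2
  rw [G2_H, norm_mul, norm_mul, norm_mul, Complex.norm_ofNat]
  have hexp : Real.exp (-(π * |s.im| / 2)) * Real.exp (π * |s.im| / 2) = 1 := by
    rw [← Real.exp_add]; simp
  have hA : 0 ≤ |s.im| ^ (s.re - 1 / 2) := Real.rpow_nonneg (abs_nonneg _) _
  calc 2 * ‖((2 : ℂ) * π) ^ (-s)‖ * ‖Complex.Gamma s‖ * ‖Complex.cos (π * s / 2)‖
      ≤ 2 * 1 * (C * (1 + |s.im|) ^ (s.re - 1 / 2) * Real.exp (-(π * |s.im| / 2))) *
          Real.exp (π * |s.im| / 2) := by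
        gcongr
    _ = 2 * C * (1 + |s.im|) ^ (s.re - 1 / 2) *
          (Real.exp (-(π * |s.im| / 2)) * Real.exp (π * |s.im| / 2)) := by ring
    _ = 2 * C * (1 + |s.im|) ^ (s.re - 1 / 2) := by rw [hexp, mul_one]
    _ ≤ 2 * C * (2 * |s.im| ^ (s.re - 1 / 2)) := by gcongr
    _ = 4 * C * |s.im| ^ (s.re - 1 / 2) := by ring

theorem zeta_left : ∃ C : ℝ, 1 ≤ C ∧ ∀ σ t : ℝ, 0 ≤ σ → σ ≤ 1 / 2 → 1 ≤ t →
    ‖riemannZeta (σ + t * I)‖ ≤ C * t ^ (1 / 2 - σ) * ‖riemannZeta (((1 - σ : ℝ) : ℂ) + t * I)‖ := by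
  obtain ⟨C, hC1, hC⟩ := G2_bound
  refine ⟨C, hC1, fun σ t h0 h1 ht => ?_⟩
  set s : ℂ := ((1 - σ : ℝ) : ℂ) - t * I with hs
  have hre : s.re = 1 - σ := by simp [hs]
  have him : s.im = -t := by simp [hs]
  have habs : |s.im| = t := by rw [him, abs_neg, abs_of_pos (by linarith)]
  have h2 : (σ : ℂ) + t * I = 1 - s := by rw [hs]; push_cast; ring
  have h3 : s = conj (((1 - σ : ℝ) : ℂ) + t * I) := by
    rw [hs, map_add, map_mul, Complex.conj_ofReal, Complex.conj_ofReal, Complex.conj_I]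
    ring
  have h4 := hC s (by rw [hre]; linarith) (by rw [hre]; linarith) (by rw [habs]; exact ht)
  rw [habs, hre] at h4
  have h5 : (1 - σ - 1 / 2 : ℝ) = 1 / 2 - σ := by ring
  rw [h5] at h4
  have h6 : ‖riemannZeta s‖ = ‖riemannZeta (((1 - σ : ℝ) : ℂ) + t * I)‖ := by
    rw [h3, riemannZeta_conj, Complex.norm_conj]
  rw [h2, G2_eq (by rw [him]; linarith), norm_mul, h6]
  exact mul_le_mul_of_nonneg_right h4 (norm_nonneg _)

theorem deriv_left : ∃ C : ℝ, 1 ≤ C ∧ ∀ ρ : ℂ, riemannZeta ρ = 0 → 0 < ρ.re → ρ.re ≤ 1 / 2 →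
    1 ≤ ρ.im → riemannZeta (1 - conj ρ) = 0 ∧
      ‖deriv riemannZeta ρ‖ ≤ C * ρ.im ^ (1 / 2 - ρ.re) * ‖deriv riemannZeta (1 - conj ρ)‖ := by
  obtain ⟨C, hC1, hC⟩ := G2_bound
  refine ⟨C, hC1, fun ρ hρ h0 h1 h2 => ?_⟩
  have him0 : ρ.im ≠ 0 := by linarith
  have hz1 : riemannZeta (1 - ρ) = 0 := by rw [G2_eq him0, hρ, mul_zero]
  have hconj : (1 : ℂ) - conj ρ = conj (1 - ρ) := by rw [map_sub, map_one]
  have hz2 : riemannZeta (1 - conj ρ) = 0 := by
    rw [hconj, riemannZeta_conj, hz1, map_zero]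
  refine ⟨hz2, ?_⟩
  set s : ℂ := 1 - ρ with hs
  have hre : s.re = 1 - ρ.re := by simp [hs]
  have him : s.im = -ρ.im := by simp [hs]
  have hsim : s.im ≠ 0 := by rw [him]; exact neg_ne_zero.2 him0
  have habs : |s.im| = ρ.im := by rw [him, abs_neg, abs_of_pos (by linarith)]
  have hs1 : s ≠ 1 := by
    intro h; apply hsim; rw [h]; simp
  have h1s : (1 : ℂ) - s = ρ := by rw [hs]; ring
  have hρ1 : ρ ≠ 1 := by
    intro h; apply him0; rw [h]; simp
  -- the derivative of the functional equation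
  have hHd : DifferentiableAt ℂ G2_H s := by
    unfold G2_H
    have hG : DifferentiableAt ℂ Complex.Gamma s := by
      apply Complex.differentiableAt_Gamma
      intro m h
      apply hsim
      rw [h]; simp
    have h2p : (2 * π : ℂ) ≠ 0 := by
      have : (π : ℂ) ≠ 0 := Complex.ofReal_ne_zero.2 Real.pi_ne_zero
      simp [this]
    have hp : DifferentiableAt ℂ (fun s : ℂ => (2 * π : ℂ) ^ (-s)) s :=
      (differentiableAt_id.neg).const_cpow (Or.inl h2p)
    have hc : DifferentiableAt ℂ (fun s : ℂ => Complex.cos (π * s / 2)) s := by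
      fun_prop
    exact ((hp.const_mul 2).mul hG).mul hc
  have hzd : HasDerivAt riemannZeta (deriv riemannZeta s) s :=
    (differentiableAt_riemannZeta hs1).hasDerivAt
  have hR : HasDerivAt (fun w => G2_H w * riemannZeta w)
      (deriv G2_H s * riemannZeta s + G2_H s * deriv riemannZeta s) s :=
    hHd.hasDerivAt.mul hzd
  have hLz : HasDerivAt riemannZeta (deriv riemannZeta ρ) (1 - s) := by
    rw [h1s]; exact (differentiableAt_riemannZeta hρ1).hasDerivAt
  have hL : HasDerivAt (fun w => riemannZeta (1 - w)) (-deriv riemannZeta ρ) s :=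
    hLz.comp_const_sub 1 s
  have heq : (fun w => riemannZeta (1 - w)) =ᶠ[nhds s] fun w => G2_H w * riemannZeta w := by
    have hopen : IsOpen {w : ℂ | w.im ≠ 0} := isOpen_ne_fun Complex.continuous_im continuous_const
    filter_upwards [hopen.mem_nhds hsim] with w hw
    exact G2_eq hw
  have hder := (hL.congr_of_eventuallyEq heq.symm).unique hR
  rw [hz1, mul_zero, zero_add] at hder
  have hn : ‖deriv riemannZeta ρ‖ = ‖G2_H s‖ * ‖deriv riemannZeta s‖ := by
    rw [← norm_mul, ← hder, norm_neg]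
  have h4 := hC s (by rw [hre]; linarith) (by rw [hre]; linarith) (by rw [habs]; exact h2)
  rw [habs, hre] at h4
  have h5 : (1 - ρ.re - 1 / 2 : ℝ) = 1 / 2 - ρ.re := by ring
  rw [h5] at h4
  rw [hn, hconj, norm_deriv_conj s hs1]
  exact mul_le_mul_of_nonneg_right h4 (norm_nonneg _)

/-- the reflected point of a zero is a zero -/
theorem zero_reflect {ρ : ℂ} (h : riemannZeta ρ = 0) (h0 : 0 < ρ.re) (h1 : ρ.re < 1) (h2 : 0 < ρ.im) :
    riemannZeta (1 - ρ) = 0 ∧ riemannZeta (1 - conj ρ) = 0 ∧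
      ‖deriv riemannZeta (1 - ρ)‖ = ‖deriv riemannZeta (1 - conj ρ)‖ := by
  have him0 : ρ.im ≠ 0 := by linarith
  have hz1 : riemannZeta (1 - ρ) = 0 := by rw [G2_eq him0, h, mul_zero]
  have hconj : (1 : ℂ) - conj ρ = conj (1 - ρ) := by rw [map_sub, map_one]
  have hs1 : (1 : ℂ) - ρ ≠ 1 := by
    intro hh
    apply him0
    have : ρ = 0 := by linear_combination -hh
    rw [this]; simp
  refine ⟨hz1, ?_, ?_⟩
  · rw [hconj, riemannZeta_conj, hz1, map_zero]
  · rw [hconj, norm_deriv_conj _ hs1]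

end Pool.Agent.UH
end

section

/-! TASK B3. The sub-mean value property of `‖f‖^p ‖g‖^q ‖k‖^r`. COPY UH/B3.lean (there one function `‖f‖^q`).
`submean3`: if one of `f c, g c, k c` is 0 the left side is 0. Otherwise Jensen's formula (as in UH/B3) gives `log ‖f c‖ ≤ circleAverage (log ‖f ·‖) c R` and the same for `g`, `k`; so `p log‖f c‖ + q log‖g c‖ + r log‖k c‖ ≤` average of the same combination, and by Jensen's inequality for `exp` the left side
is at most the average of `exp(p log‖f‖ + q log‖g‖ + r log‖k‖) = ‖f‖^p ‖g‖^q ‖k‖^r` outside finitely many points of the circle (zeros; none of the functions vanishes identically near the disc).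
`area_mean3`: from `submean3` exactly as `area_mean` from `submean`. -/

set_option autoImplicit false

namespace Pool.Agent.UV

open Complex MeasureTheory Finset
open scoped Real ComplexConjugate

private theorem B3_log {f : ℂ → ℂ} {c : ℂ} {R : ℝ} (hR : 0 < R)
    (hf : AnalyticOnNhd ℂ f (Metric.closedBall c R)) (hc : f c ≠ 0) :
    Real.log ‖f c‖ ≤ Real.circleAverage (fun z => Real.log ‖f z‖) c R := by
  have habs : |R| = R := abs_of_pos hR
  have hfR : AnalyticOnNhd ℂ f (Metric.closedBall c |R|) := by rwa [habs]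
  have J := hfR.circleAverage_log_norm hR.ne' hc
  have h1 : 0 ≤ ∑ᶠ u, (MeromorphicOn.divisor f (Metric.closedBall c |R|) u : ℝ) * Real.log (R * ‖c - u‖⁻¹) := by
    apply finsum_nonneg
    intro u
    by_cases hu : u ∈ Metric.closedBall c |R|
    · apply mul_nonneg
      · exact_mod_cast MeromorphicOn.AnalyticOnNhd.divisor_nonneg hfR u
      · by_cases hcu : c = u
        · subst hcu
          simp
        · apply Real.log_nonneg
          have h2 : 0 < ‖c - u‖ := norm_pos_iff.2 (sub_ne_zero.2 hcu)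
          rw [← div_eq_mul_inv, one_le_div h2]
          rw [habs, Metric.mem_closedBall, dist_comm, dist_eq_norm] at hu
          exact hu
    · rw [Function.locallyFinsuppWithin.apply_eq_zero_of_notMem _ hu]
      simp
  rw [J]
  linarith

private theorem B3_int {f : ℂ → ℂ} {c : ℂ} {R : ℝ} (hR : 0 < R)
    (hf : AnalyticOnNhd ℂ f (Metric.closedBall c R)) :
    CircleIntegrable (fun z => Real.log ‖f z‖) c R := by
  have habs : |R| = R := abs_of_pos hR
  have hfR : AnalyticOnNhd ℂ f (Metric.closedBall c |R|) := by rwa [habs]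
  have hfS : AnalyticOnNhd ℂ f (Metric.sphere c |R|) := hfR.mono Metric.sphere_subset_closedBall
  exact hfS.meromorphicOn.circleIntegrable_log_norm

private theorem B3_cod {f : ℂ → ℂ} {c : ℂ} {R : ℝ} (hR : 0 < R)
    (hf : AnalyticOnNhd ℂ f (Metric.closedBall c R)) (hc : f c ≠ 0) :
    {z | f z ≠ 0} ∈ Filter.codiscreteWithin (Metric.sphere c |R|) := by
  have habs : |R| = R := abs_of_pos hR
  have hfR : AnalyticOnNhd ℂ f (Metric.closedBall c |R|) := by rwa [habs]
  have h1 : f ⁻¹' {0}ᶜ ∈ Filter.codiscreteWithin (Metric.closedBall c |R|) := by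
    refine hfR.preimage_zero_mem_codiscreteWithin (x := c) hc (by simp) ?_
    exact ⟨⟨c, by simp⟩, (convex_closedBall c |R|).isPreconnected⟩
  exact Filter.codiscreteWithin_mono Metric.sphere_subset_closedBall h1

private theorem B3_cont {f g k : ℂ → ℂ} {z : ℂ} {p q r : ℝ} (hp : 0 < p) (hq : 0 < q) (hr : 0 < r)
    (hf : AnalyticAt ℂ f z) (hg : AnalyticAt ℂ g z) (hk : AnalyticAt ℂ k z) :
    ContinuousAt (fun z => ‖f z‖ ^ p * ‖g z‖ ^ q * ‖k z‖ ^ r) z :=
  ((hf.continuousAt.norm.rpow_const (Or.inr hp.le)).mul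
    (hg.continuousAt.norm.rpow_const (Or.inr hq.le))).mul
    (hk.continuousAt.norm.rpow_const (Or.inr hr.le))

theorem submean3 {f g k : ℂ → ℂ} {c : ℂ} {R p q r : ℝ} (hR : 0 < R) (hp : 0 < p) (hq : 0 < q)
    (hr : 0 < r) (hf : AnalyticOnNhd ℂ f (Metric.closedBall c R))
    (hg : AnalyticOnNhd ℂ g (Metric.closedBall c R)) (hk : AnalyticOnNhd ℂ k (Metric.closedBall c R)) :
    ‖f c‖ ^ p * ‖g c‖ ^ q * ‖k c‖ ^ r ≤
      Real.circleAverage (fun z => ‖f z‖ ^ p * ‖g z‖ ^ q * ‖k z‖ ^ r) c R := by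
  have hnn : ∀ z, 0 ≤ ‖f z‖ ^ p * ‖g z‖ ^ q * ‖k z‖ ^ r := fun z => by positivity
  by_cases hc : f c = 0 ∨ g c = 0 ∨ k c = 0
  · have h0 : ‖f c‖ ^ p * ‖g c‖ ^ q * ‖k c‖ ^ r = 0 := by
      rcases hc with hc | hc | hc
      · rw [hc, norm_zero, Real.zero_rpow hp.ne', zero_mul, zero_mul]
      · rw [hc, norm_zero, Real.zero_rpow hq.ne', mul_zero, zero_mul]
      · rw [hc, norm_zero, Real.zero_rpow hr.ne', mul_zero]
    rw [h0]
    apply Real.circleAverage_nonneg_of_nonneg
    intro x _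
    exact hnn x
  · push Not at hc
    obtain ⟨hcf, hcg, hck⟩ := hc
    have hlf := B3_log hR hf hcf
    have hlg := B3_log hR hg hcg
    have hlk := B3_log hR hk hck
    have hif := B3_int hR hf
    have hig := B3_int hR hg
    have hik := B3_int hR hk
    obtain ⟨m, hm⟩ : ∃ m, m = p * Real.log ‖f c‖ + q * Real.log ‖g c‖ + r * Real.log ‖k c‖ := ⟨_, rfl⟩
    have hpow : ∀ z, f z ≠ 0 → g z ≠ 0 → k z ≠ 0 → ‖f z‖ ^ p * ‖g z‖ ^ q * ‖k z‖ ^ r =
        Real.exp (p * Real.log ‖f z‖ + q * Real.log ‖g z‖ + r * Real.log ‖k z‖) := by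
      intro z hzf hzg hzk
      rw [Real.rpow_def_of_pos (norm_pos_iff.2 hzf), Real.rpow_def_of_pos (norm_pos_iff.2 hzg),
        Real.rpow_def_of_pos (norm_pos_iff.2 hzk), ← Real.exp_add, ← Real.exp_add]
      congr 1
      ring
    have hdec : ∀ z, (Real.exp m * p) • Real.log ‖f z‖ + (Real.exp m * q) • Real.log ‖g z‖ +
        ((Real.exp m * r) • Real.log ‖k z‖ + Real.exp m * (1 - m)) =
        Real.exp m * (1 + (p * Real.log ‖f z‖ + q * Real.log ‖g z‖ + r * Real.log ‖k z‖) - m) := by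
      intro z
      simp only [smul_eq_mul]
      ring
    have hI1 : CircleIntegrable (fun z => (Real.exp m * p) • Real.log ‖f z‖) c R :=
      IntervalIntegrable.const_mul hif (Real.exp m * p)
    have hI2 : CircleIntegrable (fun z => (Real.exp m * q) • Real.log ‖g z‖) c R :=
      IntervalIntegrable.const_mul hig (Real.exp m * q)
    have hI3 : CircleIntegrable (fun z => (Real.exp m * r) • Real.log ‖k z‖) c R :=
      IntervalIntegrable.const_mul hik (Real.exp m * r)
    have hI4 : CircleIntegrable (fun _ => Real.exp m * (1 - m)) c R := circleIntegrable_const _ _ _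
    have hI12 : CircleIntegrable (fun z => (Real.exp m * p) • Real.log ‖f z‖ +
        (Real.exp m * q) • Real.log ‖g z‖) c R := CircleIntegrable.add hI1 hI2
    have hI34 : CircleIntegrable (fun z => (Real.exp m * r) • Real.log ‖k z‖ +
        Real.exp m * (1 - m)) c R := CircleIntegrable.add hI3 hI4
    have hF1 : CircleIntegrable (fun z =>
        Real.exp m * (1 + (p * Real.log ‖f z‖ + q * Real.log ‖g z‖ + r * Real.log ‖k z‖) - m)) c R := by
      have h1 : CircleIntegrable (fun z => (Real.exp m * p) • Real.log ‖f z‖ +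
          (Real.exp m * q) • Real.log ‖g z‖ + ((Real.exp m * r) • Real.log ‖k z‖ +
            Real.exp m * (1 - m))) c R := CircleIntegrable.add hI12 hI34
      refine h1.congr_codiscreteWithin ?_
      exact Filter.Eventually.of_forall fun z => hdec z
    have hF3 : CircleIntegrable (fun z => ‖f z‖ ^ p * ‖g z‖ ^ q * ‖k z‖ ^ r) c R := by
      apply ContinuousOn.circleIntegrable hR.le
      intro z hz
      have hz' := Metric.sphere_subset_closedBall hz
      exact (B3_cont hp hq hr (hf z hz') (hg z hz') (hk z hz')).continuousWithinAt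
    have heq : (fun z => ‖f z‖ ^ p * ‖g z‖ ^ q * ‖k z‖ ^ r) =ᶠ[Filter.codiscreteWithin (Metric.sphere c |R|)]
        (fun z => open Classical in if f z = 0 ∨ g z = 0 ∨ k z = 0 then
          Real.exp m * (1 + (p * Real.log ‖f z‖ + q * Real.log ‖g z‖ + r * Real.log ‖k z‖) - m)
          else ‖f z‖ ^ p * ‖g z‖ ^ q * ‖k z‖ ^ r) := by
      filter_upwards [B3_cod hR hf hcf, B3_cod hR hg hcg, B3_cod hR hk hck] with z hzf hzg hzk
      have hz : ¬ (f z = 0 ∨ g z = 0 ∨ k z = 0) := by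
        rintro (h | h | h)
        · exact hzf h
        · exact hzg h
        · exact hzk h
      rw [if_neg hz]
    rw [Real.circleAverage_congr_codiscreteWithin heq hR.ne']
    have hF2 := hF3.congr_codiscreteWithin heq
    have hmono : Real.circleAverage (fun z =>
        Real.exp m * (1 + (p * Real.log ‖f z‖ + q * Real.log ‖g z‖ + r * Real.log ‖k z‖) - m)) c R ≤
        Real.circleAverage (fun z => open Classical in if f z = 0 ∨ g z = 0 ∨ k z = 0 then
          Real.exp m * (1 + (p * Real.log ‖f z‖ + q * Real.log ‖g z‖ + r * Real.log ‖k z‖) - m)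
          else ‖f z‖ ^ p * ‖g z‖ ^ q * ‖k z‖ ^ r) c R := by
      apply Real.circleAverage_mono hF1 hF2
      intro z _
      by_cases hz : f z = 0 ∨ g z = 0 ∨ k z = 0
      · simp only [if_pos hz]
        exact le_rfl
      · simp only [if_neg hz]
        push Not at hz
        rw [hpow z hz.1 hz.2.1 hz.2.2]
        have h1 := Real.add_one_le_exp (p * Real.log ‖f z‖ + q * Real.log ‖g z‖ + r * Real.log ‖k z‖ - m)
        have h2 : Real.exp (p * Real.log ‖f z‖ + q * Real.log ‖g z‖ + r * Real.log ‖k z‖) =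
            Real.exp m * Real.exp (p * Real.log ‖f z‖ + q * Real.log ‖g z‖ + r * Real.log ‖k z‖ - m) := by
          rw [← Real.exp_add]
          congr 1
          ring
        rw [h2]
        apply mul_le_mul_of_nonneg_left _ (Real.exp_pos m).le
        linarith
    have hval : Real.circleAverage (fun z =>
        Real.exp m * (1 + (p * Real.log ‖f z‖ + q * Real.log ‖g z‖ + r * Real.log ‖k z‖) - m)) c R =
        Real.exp m * p * Real.circleAverage (fun z => Real.log ‖f z‖) c R +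
        Real.exp m * q * Real.circleAverage (fun z => Real.log ‖g z‖) c R +
        (Real.exp m * r * Real.circleAverage (fun z => Real.log ‖k z‖) c R + Real.exp m * (1 - m)) := by
      have h1 : (fun z =>
          Real.exp m * (1 + (p * Real.log ‖f z‖ + q * Real.log ‖g z‖ + r * Real.log ‖k z‖) - m)) =
          (fun z => (Real.exp m * p) • Real.log ‖f z‖ + (Real.exp m * q) • Real.log ‖g z‖ +
        ((Real.exp m * r) • Real.log ‖k z‖ + Real.exp m * (1 - m))) := by
        funext z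
        exact (hdec z).symm
      rw [h1, Real.circleAverage_fun_add hI12 hI34, Real.circleAverage_fun_add hI1 hI2,
        Real.circleAverage_fun_add hI3 hI4, Real.circleAverage_fun_smul, Real.circleAverage_fun_smul,
        Real.circleAverage_fun_smul, Real.circleAverage_const, smul_eq_mul, smul_eq_mul, smul_eq_mul]
    have hpc : ‖f c‖ ^ p * ‖g c‖ ^ q * ‖k c‖ ^ r = Real.exp m := by
      rw [hpow c hcf hcg hck, hm]
    rw [hpc]
    refine le_trans ?_ hmono
    rw [hval]
    have h3 : m ≤ p * Real.circleAverage (fun z => Real.log ‖f z‖) c R +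
        q * Real.circleAverage (fun z => Real.log ‖g z‖) c R +
        r * Real.circleAverage (fun z => Real.log ‖k z‖) c R := by
      rw [hm]
      exact add_le_add (add_le_add (mul_le_mul_of_nonneg_left hlf hp.le)
        (mul_le_mul_of_nonneg_left hlg hq.le)) (mul_le_mul_of_nonneg_left hlk hr.le)
    have h4 := mul_le_mul_of_nonneg_left h3 (Real.exp_pos m).le
    nlinarith [h4]

private theorem B3_inner {F : ℂ → ℝ} {c : ℂ} {ρ : ℝ} (hρ : 0 < ρ) (hF0 : ∀ z, 0 ≤ F z)
    (hf : ∀ z ∈ Metric.closedBall c ρ, ContinuousAt F z) (h1 : F c ≤ Real.circleAverage F c ρ) :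
    ENNReal.ofReal (2 * π * F c) ≤
      ∫⁻ θ in Set.Ioo (-π) π, ENNReal.ofReal (F (circleMap c ρ θ)) := by
  rw [Real.circleAverage_eq_integral_add (-π)] at h1
  have hcont : Continuous (fun θ : ℝ => F (circleMap c ρ θ)) := by
    refine continuous_iff_continuousAt.2 fun θ => ?_
    have h2 : circleMap c ρ θ ∈ Metric.closedBall c ρ :=
      Metric.sphere_subset_closedBall (circleMap_mem_sphere c hρ.le θ)
    have h3 : ContinuousAt F (circleMap c ρ θ) := hf _ h2
    exact h3.comp (continuous_circleMap c ρ).continuousAt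
  have h2 : (∫ θ in (0:ℝ)..2 * π, F (circleMap c ρ (θ + -π))) = ∫ θ in (-π)..π, F (circleMap c ρ θ) := by
    rw [intervalIntegral.integral_comp_add_right (fun θ => F (circleMap c ρ θ))]
    congr 1 <;> ring
  rw [h2, smul_eq_mul] at h1
  have h3 : 2 * π * F c ≤ ∫ θ in (-π)..π, F (circleMap c ρ θ) := by
    have h4 := mul_le_mul_of_nonneg_left h1 (by positivity : (0:ℝ) ≤ 2 * π)
    have h5 : 2 * π * ((2 * π)⁻¹ * ∫ θ in (-π)..π, F (circleMap c ρ θ)) = ∫ θ in (-π)..π, F (circleMap c ρ θ) := by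
      field_simp
    linarith
  refine (ENNReal.ofReal_le_ofReal h3).trans ?_
  rw [intervalIntegral.integral_of_le (by linarith [Real.pi_pos]), integral_Ioc_eq_integral_Ioo,
    ofReal_integral_eq_lintegral_ofReal]
  · exact (hcont.integrableOn_Icc).mono_set Set.Ioo_subset_Icc_self
  · exact Filter.Eventually.of_forall fun θ => hF0 _

private theorem B3_area {F : ℂ → ℝ} {c : ℂ} {r : ℝ} (hr : 0 < r) (hF0 : ∀ z, 0 ≤ F z)
    (hf : ∀ z : ℂ, |z.re - c.re| ≤ r → |z.im - c.im| ≤ r → ContinuousAt F z)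
    (hsm : ∀ ρ, 0 < ρ → ρ < r → F c ≤ Real.circleAverage F c ρ) :
    ENNReal.ofReal (π * r ^ 2 * F c) ≤
      ∫⁻ x in Set.Icc (c.re - r) (c.re + r), ∫⁻ y in Set.Icc (c.im - r) (c.im + r),
        ENNReal.ofReal (F (x + y * I)) := by
  classical
  obtain ⟨S, hS⟩ : ∃ S : Set ℂ, S = {z | |z.re - c.re| ≤ r ∧ |z.im - c.im| ≤ r} := ⟨_, rfl⟩
  have hSc : IsClosed S := by
    rw [hS]
    exact (isClosed_le (Complex.continuous_re.sub continuous_const).abs continuous_const).inter
      (isClosed_le (Complex.continuous_im.sub continuous_const).abs continuous_const)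
  obtain ⟨g, hg⟩ : ∃ g : ℂ → ENNReal, g = S.piecewise (fun z => ENNReal.ofReal (F z)) (fun _ => 0) := ⟨_, rfl⟩
  have hgm : Measurable g := by
    rw [hg]
    apply ContinuousOn.measurable_piecewise _ _ hSc.measurableSet
    · intro z hz
      rw [hS] at hz
      have h1 : ContinuousAt F z := hf z hz.1 hz.2
      exact (ENNReal.continuous_ofReal.continuousAt.comp h1).continuousWithinAt
    · exact continuousOn_const
  have hgS : ∀ z ∈ S, g z = ENNReal.ofReal (F z) := by
    intro z hz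
    rw [hg, Set.piecewise_eq_of_mem _ _ _ hz]
  have hgn : ∀ z, z ∉ S → g z = 0 := by
    intro z hz
    rw [hg, Set.piecewise_eq_of_notMem _ _ _ hz]
  have hR : (∫⁻ x in Set.Icc (c.re - r) (c.re + r), ∫⁻ y in Set.Icc (c.im - r) (c.im + r),
        ENNReal.ofReal (F (x + y * I))) = ∫⁻ z : ℂ, g z := by
    have h1 : (∫⁻ z : ℂ, g z) = ∫⁻ p : ℝ × ℝ, g (Complex.measurableEquivRealProd.symm p) := by
      rw [(Complex.volume_preserving_equiv_real_prod.symm).lintegral_comp hgm]
    rw [h1]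
    have hm2 : Measurable (fun p : ℝ × ℝ => g (Complex.measurableEquivRealProd.symm p)) :=
      hgm.comp Complex.measurableEquivRealProd.symm.measurable
    rw [Measure.volume_eq_prod, lintegral_prod _ hm2.aemeasurable]
    rw [← lintegral_indicator measurableSet_Icc]
    apply lintegral_congr
    intro x
    by_cases hx : x ∈ Set.Icc (c.re - r) (c.re + r)
    · rw [Set.indicator_of_mem hx, ← lintegral_indicator measurableSet_Icc]
      apply lintegral_congr
      intro y
      have hz : (Complex.measurableEquivRealProd.symm (x, y) : ℂ) = x + y * I := by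
        apply Complex.ext <;> simp [Complex.measurableEquivRealProd]
      rw [hz]
      by_cases hy : y ∈ Set.Icc (c.im - r) (c.im + r)
      · rw [Set.indicator_of_mem hy, hgS]
        rw [hS]
        simp only [Set.mem_ofPred_eq, Complex.add_re, Complex.ofReal_re, Complex.mul_re, Complex.I_re, Complex.ofReal_im,
          Complex.I_im, Complex.add_im, Complex.mul_im]
        constructor
        · rw [abs_le]
          constructor <;> linarith [hx.1, hx.2]
        · rw [abs_le]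
          constructor <;> linarith [hy.1, hy.2]
      · rw [Set.indicator_of_notMem hy, hgn]
        intro hmem
        apply hy
        rw [hS] at hmem
        have h2 := hmem.2
        simp only [Complex.add_im, Complex.ofReal_im, Complex.mul_im, Complex.ofReal_re, Complex.I_im, Complex.I_re] at h2
        rw [abs_le] at h2
        exact ⟨by linarith [h2.1], by linarith [h2.2]⟩
    · rw [Set.indicator_of_notMem hx]
      symm
      rw [← lintegral_zero (α := ℝ) (μ := volume)]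
      apply lintegral_congr
      intro y
      have hz : (Complex.measurableEquivRealProd.symm (x, y) : ℂ) = x + y * I := by
        apply Complex.ext <;> simp [Complex.measurableEquivRealProd]
      rw [hz, hgn]
      intro hmem
      apply hx
      rw [hS] at hmem
      have h2 := hmem.1
      simp only [Complex.add_re, Complex.ofReal_re, Complex.mul_re, Complex.I_re, Complex.ofReal_im, Complex.I_im] at h2
      rw [abs_le] at h2
      exact ⟨by linarith [h2.1], by linarith [h2.2]⟩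
  rw [hR]
  have hT : (∫⁻ z : ℂ, g z) = ∫⁻ z : ℂ, g (c + z) := (lintegral_add_left_eq_self g c).symm
  rw [hT, ← Complex.lintegral_comp_polarCoord_symm]
  have hgm2 : Measurable (fun p : ℝ × ℝ => ENNReal.ofReal p.1 • g (c + Complex.polarCoord.symm p)) := by
    have h1 : Measurable (fun p : ℝ × ℝ => (Complex.polarCoord.symm p : ℂ)) := by
      have : (fun p : ℝ × ℝ => (Complex.polarCoord.symm p : ℂ)) = fun p : ℝ × ℝ => (p.1 : ℂ) * (Real.cos p.2 + Real.sin p.2 * I) := by
        funext p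
        exact Complex.polarCoord_symm_apply p
      rw [this]
      fun_prop
    simp only [smul_eq_mul]
    exact (ENNReal.measurable_ofReal.comp measurable_fst).mul (hgm.comp (h1.const_add c))
  have hsub : Set.Ioo (0:ℝ) r ×ˢ Set.Ioo (-π) π ⊆ polarCoord.target := by
    rw [polarCoord_target]
    exact Set.prod_mono (fun x hx => hx.1) (le_refl _)
  refine le_trans ?_ (lintegral_mono_set hsub)
  rw [Measure.volume_eq_prod, ← Measure.prod_restrict, lintegral_prod _ hgm2.aemeasurable]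
  have hin : ∀ ρ ∈ Set.Ioo (0:ℝ) r, ENNReal.ofReal (ρ * (2 * π * F c)) ≤
      ∫⁻ θ in Set.Ioo (-π) π, ENNReal.ofReal ρ • g (c + Complex.polarCoord.symm (ρ, θ)) := by
    intro ρ hρ
    have hball : ∀ z ∈ Metric.closedBall c ρ, |z.re - c.re| ≤ r ∧ |z.im - c.im| ≤ r := by
      intro z hz
      rw [Metric.mem_closedBall, dist_eq_norm] at hz
      have h1 := Complex.abs_re_le_norm (z - c)
      have h2 := Complex.abs_im_le_norm (z - c)
      rw [Complex.sub_re] at h1
      rw [Complex.sub_im] at h2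
      exact ⟨by linarith [hρ.2], by linarith [hρ.2]⟩
    have h1 := B3_inner hρ.1 hF0 (fun z hz => hf z (hball z hz).1 (hball z hz).2) (hsm ρ hρ.1 hρ.2)
    have h2 : ∀ θ : ℝ, c + Complex.polarCoord.symm (ρ, θ) = circleMap c ρ θ := by
      intro θ
      rw [Complex.polarCoord_symm_apply]
      unfold circleMap
      rw [Complex.exp_mul_I]
      push_cast
      ring
    rw [ENNReal.ofReal_mul hρ.1.le]
    simp only [smul_eq_mul]
    rw [lintegral_const_mul']
    · gcongr
      refine h1.trans (le_of_eq ?_)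
      apply lintegral_congr
      intro θ
      rw [h2, hgS]
      rw [hS]
      exact hball _ (Metric.sphere_subset_closedBall (circleMap_mem_sphere c hρ.1.le θ))
    · exact ENNReal.ofReal_ne_top
  refine le_trans ?_ (setLIntegral_mono' measurableSet_Ioo hin)
  have hfin : (∫⁻ ρ in Set.Ioo (0:ℝ) r, ENNReal.ofReal (ρ * (2 * π * F c))) =
      ENNReal.ofReal (π * r ^ 2 * F c) := by
    rw [← ofReal_integral_eq_lintegral_ofReal]
    · rw [← integral_Ioc_eq_integral_Ioo, ← intervalIntegral.integral_of_le hr.le,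
        intervalIntegral.integral_mul_const, integral_id]
      congr 1
      ring
    · have h1 : Continuous (fun ρ : ℝ => ρ * (2 * π * F c)) := by fun_prop
      exact (h1.integrableOn_Icc).mono_set Set.Ioo_subset_Icc_self
    · refine (ae_restrict_iff' measurableSet_Ioo).2 (Filter.Eventually.of_forall fun ρ hρ => ?_)
      have h5 := hρ.1
      have h6 := hF0 c
      simp only [Pi.zero_apply]
      positivity
  rw [hfin]

theorem area_mean3 {f g k : ℂ → ℂ} {c : ℂ} {R p q r : ℝ} (hR : 0 < R) (hp : 0 < p) (hq : 0 < q)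
    (hr : 0 < r)
    (hf : ∀ z : ℂ, |z.re - c.re| ≤ R → |z.im - c.im| ≤ R → AnalyticAt ℂ f z ∧ AnalyticAt ℂ g z ∧
      AnalyticAt ℂ k z) :
    ENNReal.ofReal (π * R ^ 2 * (‖f c‖ ^ p * ‖g c‖ ^ q * ‖k c‖ ^ r)) ≤
      ∫⁻ x in Set.Icc (c.re - R) (c.re + R), ∫⁻ y in Set.Icc (c.im - R) (c.im + R),
        ENNReal.ofReal (‖f (x + y * I)‖ ^ p * ‖g (x + y * I)‖ ^ q * ‖k (x + y * I)‖ ^ r) := by
  refine B3_area (F := fun z => ‖f z‖ ^ p * ‖g z‖ ^ q * ‖k z‖ ^ r) hR (fun z => by positivity)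
    (fun z h1 h2 => B3_cont hp hq hr (hf z h1 h2).1 (hf z h1 h2).2.1 (hf z h1 h2).2.2) ?_
  intro ρ hρ hρR
  have hball : ∀ z ∈ Metric.closedBall c ρ, |z.re - c.re| ≤ R ∧ |z.im - c.im| ≤ R := by
    intro z hz
    rw [Metric.mem_closedBall, dist_eq_norm] at hz
    have h1 := Complex.abs_re_le_norm (z - c)
    have h2 := Complex.abs_im_le_norm (z - c)
    rw [Complex.sub_re] at h1
    rw [Complex.sub_im] at h2
    exact ⟨by linarith, by linarith⟩
  exact submean3 hρ hp hq hr (fun z hz => (hf z (hball z hz).1 (hball z hz).2).1)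
    (fun z hz => (hf z (hball z hz).1 (hball z hz).2).2.1)
    (fun z hz => (hf z (hball z hz).1 (hball z hz).2).2.2)

end Pool.Agent.UV
end
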