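import Pool.Agent.Lib.MP_69b2e4_nt.UH.Defs
import Pool.Agent.Lib.MP_69b2e4_nt.Mg.G038
import Pool.Agent.Lib.MP_69b2e4_nt.Mg.G037
import Pool.Agent.Lib.MP_69b2e4_nt.Mg.G002

section

/-! TASK R1. The one-prime expectation.
The integrand is `‖F(x)‖²` with `F(z) = (1 - u z)^{-1} (1 - b z) e^{al u z}`, holomorphic on the closed unit disc (`u ≤ 3/4`), `F(0) = 1`, `F'(0) = f₁ = (1+al) u - b`. On `‖z‖ = 1`:
`(1-uz)^{-1} = 1 + uz + r₁`, `‖r₁‖ = u²/‖1-uz‖ ≤ 4u²`; `e^{al u z} = 1 + al u z + r₂`, `‖r₂‖ ≤ u²` (`|al| u ≤ 1`, `Complex.norm_exp_sub_one_sub_id_le`); `‖b‖ ≤ u ≤ 1`. Multiplying out,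
`F(z) - 1 - f₁ z` is a sum of products each of size `≤ K u²` (absolute `K`, e.g. 40). Apply `op2_split` of GH/OnePrime2.lean (private: COPY it with `op2_mv, op2_cont, op2_int, op2_norm, op2_der`) with `F = G`, `a = d = f₁`, `B1 = B2 = K u²`:
`∫ ‖F‖² = ∫ F conj F ≤ 1 + ‖f₁‖² + K² u⁴ ≤ exp(‖f₁‖² + K² u⁴)`. Note `‖e^{al u x}‖² = exp(2 al u Re x)`. -/

set_option autoImplicit false

namespace Pool.Agent.UH

open Complex MeasureTheory Finset Pool.Agent.GH
open scoped Real ComplexConjugate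

private theorem R1_mv {f : ℂ → ℂ} (hf : DifferentiableOn ℂ f (Metric.closedBall 0 1)) :
    ∫ x : UnitAddCircle, f (AddCircle.toCircle x : ℂ)
      ∂(AddCircle.haarAddCircle : Measure UnitAddCircle) = f 0 := by
  have hd : DiffContOnCl ℂ f (Metric.ball 0 |(1 : ℝ)|) := by
    apply DifferentiableOn.diffContOnCl
    rw [abs_one, closure_ball _ one_ne_zero]
    exact hf
  have h1 := hd.circleAverage
  rw [Real.circleAverage_def] at h1
  rw [AddCircle.integral_haarAddCircle, ← UnitAddCircle.intervalIntegral_preimage 0]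
  rw [← h1]
  have h2 : ∀ a : ℝ, f ((AddCircle.toCircle (a : UnitAddCircle) : Circle) : ℂ) =
      f (circleMap 0 1 (2 * π * a)) := by
    intro a
    rw [AddCircle.toCircle_apply_mk, Circle.coe_exp, circleMap]
    congr 1
    rw [div_one]
    push_cast
    ring
  simp_rw [h2]
  rw [intervalIntegral.integral_comp_mul_left (fun θ => f (circleMap 0 1 θ)) (by positivity)]
  simp

private theorem R1_cont : Continuous fun x : UnitAddCircle => (AddCircle.toCircle x : ℂ) :=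
  continuous_subtype_val.comp AddCircle.continuous_toCircle

private theorem R1_int {f : UnitAddCircle → ℂ} (hf : Continuous f) :
    Integrable f (AddCircle.haarAddCircle : Measure UnitAddCircle) :=
  hf.integrable_of_hasCompactSupport (HasCompactSupport.of_compactSpace f)

private theorem R1_norm (x : UnitAddCircle) : ‖(AddCircle.toCircle x : ℂ)‖ = 1 := Circle.norm_coe _

private theorem R1_der {f : ℂ → ℂ} {f' : ℂ} (hf : DifferentiableOn ℂ f (Metric.closedBall 0 1))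
    (h0 : f 0 = 0) (hd : HasDerivAt f f' 0) :
    ∫ x : UnitAddCircle, f (AddCircle.toCircle x : ℂ) * conj (AddCircle.toCircle x : ℂ)
      ∂(AddCircle.haarAddCircle : Measure UnitAddCircle) = f' := by
  have h1 : DifferentiableOn ℂ (dslope f 0) (Metric.closedBall 0 1) :=
    (Complex.differentiableOn_dslope (Metric.closedBall_mem_nhds 0 one_pos)).2 hf
  have h2 := R1_mv h1
  rw [dslope_same, hd.deriv] at h2
  rw [← h2]
  refine integral_congr_ae (Filter.Eventually.of_forall fun x => ?_)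
  have hne : (AddCircle.toCircle x : ℂ) ≠ 0 := by
    intro h
    have := R1_norm x
    rw [h, norm_zero] at this
    exact zero_ne_one this
  have hc : conj (AddCircle.toCircle x : ℂ) = (AddCircle.toCircle x : ℂ)⁻¹ := by
    rw [Complex.inv_def, Complex.normSq_eq_norm_sq, R1_norm]
    simp
  change f (AddCircle.toCircle x : ℂ) * conj (AddCircle.toCircle x : ℂ) = dslope f 0 _
  rw [dslope_of_ne _ hne, slope_def_field, h0, hc, sub_zero, sub_zero, div_eq_mul_inv]

private theorem R1_split (F G : ℂ → ℂ) (a d : ℂ)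
    (hF : DifferentiableOn ℂ F (Metric.closedBall 0 1))
    (hG : DifferentiableOn ℂ G (Metric.closedBall 0 1)) (hF0 : F 0 = 1) (hG0 : G 0 = 1)
    (hF' : HasDerivAt F a 0) (hG' : HasDerivAt G d 0) {B1 B2 : ℝ} (hB1 : 0 ≤ B1)
    (hFb : ∀ z : ℂ, ‖z‖ = 1 → ‖F z - 1 - a * z‖ ≤ B1)
    (hGb : ∀ z : ℂ, ‖z‖ = 1 → ‖G z - 1 - d * z‖ ≤ B2) :
    ‖(∫ x : UnitAddCircle, F (AddCircle.toCircle x : ℂ) * conj (G (AddCircle.toCircle x : ℂ))
      ∂(AddCircle.haarAddCircle : Measure UnitAddCircle)) - 1 - a * conj d‖ ≤ B1 * B2 := by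
  have hmaps : ∀ x : UnitAddCircle, (AddCircle.toCircle x : ℂ) ∈ Metric.closedBall (0 : ℂ) 1 := by
    intro x
    rw [mem_closedBall_zero_iff, R1_norm]
  have hcomp : ∀ {H : ℂ → ℂ}, DifferentiableOn ℂ H (Metric.closedBall 0 1) →
      Continuous fun x : UnitAddCircle => H (AddCircle.toCircle x : ℂ) := fun hH =>
    hH.continuousOn.comp_continuous R1_cont hmaps
  have hR : DifferentiableOn ℂ (fun z => F z - 1 - a * z) (Metric.closedBall 0 1) :=
    (hF.sub (differentiableOn_const _)).sub (differentiableOn_id.const_mul a)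
  have hS : DifferentiableOn ℂ (fun z => G z - 1 - d * z) (Metric.closedBall 0 1) :=
    (hG.sub (differentiableOn_const _)).sub (differentiableOn_id.const_mul d)
  have hR0 : (fun z => F z - 1 - a * z) 0 = 0 := by simp [hF0]
  have hS0 : (fun z => G z - 1 - d * z) 0 = 0 := by simp [hG0]
  have hR' : HasDerivAt (fun z => F z - 1 - a * z) 0 0 := by
    have h := (hF'.sub_const 1).sub ((hasDerivAt_id (0 : ℂ)).const_mul a)
    rw [mul_one, sub_self] at h
    exact h
  have hS' : HasDerivAt (fun z => G z - 1 - d * z) 0 0 := by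
    have h := (hG'.sub_const 1).sub ((hasDerivAt_id (0 : ℂ)).const_mul d)
    rw [mul_one, sub_self] at h
    exact h
  have eR0 := (R1_mv hR).trans hR0
  have eR1 := R1_der hR hR0 hR'
  have eS0 := (R1_mv hS).trans hS0
  have eS1 := R1_der hS hS0 hS'
  have eX := R1_mv (f := fun z => z) differentiableOn_id
  have cR := hcomp hR
  have cS := hcomp hS
  beta_reduce at eR0 eR1 eS0 eS1 eX cR cS
  have cX := R1_cont
  -- the conjugate integrals
  have eS0c : ∫ x : UnitAddCircle, conj (G (AddCircle.toCircle x : ℂ) - 1 -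
      d * (AddCircle.toCircle x : ℂ)) ∂(AddCircle.haarAddCircle : Measure UnitAddCircle) = 0 := by
    rw [integral_conj, eS0, map_zero]
  have eS1c : ∫ x : UnitAddCircle, (AddCircle.toCircle x : ℂ) *
      conj (G (AddCircle.toCircle x : ℂ) - 1 - d * (AddCircle.toCircle x : ℂ))
      ∂(AddCircle.haarAddCircle : Measure UnitAddCircle) = 0 := by
    have h : ∀ x : UnitAddCircle, (AddCircle.toCircle x : ℂ) *
      conj (G (AddCircle.toCircle x : ℂ) - 1 - d * (AddCircle.toCircle x : ℂ)) =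
      conj ((G (AddCircle.toCircle x : ℂ) - 1 - d * (AddCircle.toCircle x : ℂ)) *
        conj (AddCircle.toCircle x : ℂ)) := by
      intro x
      rw [map_mul, Complex.conj_conj, mul_comm]
    simp_rw [h]
    rw [integral_conj, eS1, map_zero]
  have eXc : ∫ x : UnitAddCircle, conj (AddCircle.toCircle x : ℂ)
      ∂(AddCircle.haarAddCircle : Measure UnitAddCircle) = 0 := by
    rw [integral_conj, eX, map_zero]
  have hXX : ∀ x : UnitAddCircle, (AddCircle.toCircle x : ℂ) * conj (AddCircle.toCircle x : ℂ) = 1 := by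
    intro x
    rw [Complex.mul_conj, Complex.normSq_eq_norm_sq, R1_norm]
    simp
  obtain ⟨k, hk⟩ : ∃ k : ℂ, k = 1 + a * conj d := ⟨_, rfl⟩
  have hexp : ∀ x : UnitAddCircle, F (AddCircle.toCircle x : ℂ) *
      conj (G (AddCircle.toCircle x : ℂ)) =
      k + (a * (AddCircle.toCircle x : ℂ) + (conj d * conj (AddCircle.toCircle x : ℂ) +
      (conj (G (AddCircle.toCircle x : ℂ) - 1 - d * (AddCircle.toCircle x : ℂ)) +
      (a * ((AddCircle.toCircle x : ℂ) *
        conj (G (AddCircle.toCircle x : ℂ) - 1 - d * (AddCircle.toCircle x : ℂ))) +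
      ((F (AddCircle.toCircle x : ℂ) - 1 - a * (AddCircle.toCircle x : ℂ)) +
      (conj d * ((F (AddCircle.toCircle x : ℂ) - 1 - a * (AddCircle.toCircle x : ℂ)) *
        conj (AddCircle.toCircle x : ℂ)) +
      (F (AddCircle.toCircle x : ℂ) - 1 - a * (AddCircle.toCircle x : ℂ)) *
        conj (G (AddCircle.toCircle x : ℂ) - 1 - d * (AddCircle.toCircle x : ℂ)))))))) := by
    intro x
    simp only [map_sub, map_mul, map_one]
    rw [hk]
    linear_combination (a * conj d) * hXX x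
  have hprob : ∫ _x : UnitAddCircle, k
      ∂(AddCircle.haarAddCircle : Measure UnitAddCircle) = k := by
    simp
  have hmain : (∫ x : UnitAddCircle, F (AddCircle.toCircle x : ℂ) *
      conj (G (AddCircle.toCircle x : ℂ)) ∂(AddCircle.haarAddCircle : Measure UnitAddCircle)) =
      k + ∫ x : UnitAddCircle,
        (F (AddCircle.toCircle x : ℂ) - 1 - a * (AddCircle.toCircle x : ℂ)) *
        conj (G (AddCircle.toCircle x : ℂ) - 1 - d * (AddCircle.toCircle x : ℂ))
        ∂(AddCircle.haarAddCircle : Measure UnitAddCircle) := by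
    simp_rw [hexp]
    have c1 : Continuous fun x : UnitAddCircle => conj (AddCircle.toCircle x : ℂ) :=
      Complex.continuous_conj.comp cX
    have c2 : Continuous fun x : UnitAddCircle => conj (G (AddCircle.toCircle x : ℂ) - 1 -
      d * (AddCircle.toCircle x : ℂ)) := Complex.continuous_conj.comp cS
    rw [integral_add (by fun_prop) (R1_int (by fun_prop)),
      integral_add (R1_int (by fun_prop)) (R1_int (by fun_prop)),
      integral_add (R1_int (by fun_prop)) (R1_int (by fun_prop)),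
      integral_add (R1_int (by fun_prop)) (R1_int (by fun_prop)),
      integral_add (R1_int (by fun_prop)) (R1_int (by fun_prop)),
      integral_add (R1_int (by fun_prop)) (R1_int (by fun_prop)),
      integral_add (R1_int (by fun_prop)) (R1_int (by fun_prop)),
      integral_const_mul, integral_const_mul, integral_const_mul, integral_const_mul,
      hprob, eX, eXc, eS0c, eS1c, eR0, eR1]
    simp
  rw [hmain]
  have h1 : ∀ z : ℂ, k + z - 1 - a * conj d = z := fun z => by rw [hk]; ring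
  rw [h1]
  have hb : ∀ x : UnitAddCircle,
      ‖(F (AddCircle.toCircle x : ℂ) - 1 - a * (AddCircle.toCircle x : ℂ)) *
        conj (G (AddCircle.toCircle x : ℂ) - 1 - d * (AddCircle.toCircle x : ℂ))‖ ≤ B1 * B2 := by
    intro x
    rw [norm_mul, RCLike.norm_conj]
    exact mul_le_mul (hFb _ (R1_norm x)) (hGb _ (R1_norm x)) (norm_nonneg _) hB1
  have h2 := norm_integral_le_of_norm_le_const (μ := (AddCircle.haarAddCircle :
    Measure UnitAddCircle)) (Filter.Eventually.of_forall hb)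
  simpa using h2

theorem one_prime_b : ∃ C : ℝ, 0 ≤ C ∧ ∀ (u al : ℝ) (b : ℂ), 0 ≤ u → u ≤ 3 / 4 → |al| ≤ 1 → ‖b‖ ≤ u →
    ∫ x : UnitAddCircle, ‖(1 - (u : ℂ) * (AddCircle.toCircle x : ℂ))⁻¹‖ ^ 2 *
      ‖1 - b * (AddCircle.toCircle x : ℂ)‖ ^ 2 *
      Real.exp (2 * (al * u * (AddCircle.toCircle x : ℂ).re))
      ∂(AddCircle.haarAddCircle : Measure UnitAddCircle) ≤
    Real.exp (‖(((1 + al) * u : ℝ) : ℂ) - b‖ ^ 2 + C * u ^ 4) := by
  refine ⟨1024, by norm_num, ?_⟩
  intro u al b hu0 hu1 hal hb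
  have hu : ∀ z : ℂ, ‖z‖ ≤ 1 → (1 / 4 : ℝ) ≤ ‖1 - (u : ℂ) * z‖ := by
    intro z hz
    have h1 : ‖(u : ℂ) * z‖ ≤ 3 / 4 := by
      rw [norm_mul, Complex.norm_real, Real.norm_of_nonneg hu0]
      calc u * ‖z‖ ≤ 3 / 4 * 1 := mul_le_mul hu1 hz (norm_nonneg _) (by norm_num)
        _ = 3 / 4 := mul_one _
    have h2 := norm_sub_norm_le (1 : ℂ) ((u : ℂ) * z)
    rw [norm_one] at h2
    linarith
  have hne : ∀ z : ℂ, ‖z‖ ≤ 1 → 1 - (u : ℂ) * z ≠ 0 := by
    intro z hz h
    have := hu z hz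
    rw [h, norm_zero] at this
    norm_num at this
  -- the exponent
  obtain ⟨c, hc⟩ : ∃ c : ℝ, c = al * u := ⟨_, rfl⟩
  have hcu : |c| ≤ u := by
    rw [hc, abs_mul, abs_of_nonneg hu0]
    calc |al| * u ≤ 1 * u := mul_le_mul_of_nonneg_right hal hu0
      _ = u := one_mul u
  have hcn : ‖(c : ℂ)‖ ≤ u := by rw [Complex.norm_real]; exact hcu
  obtain ⟨f, hf⟩ : ∃ f : ℂ, f = (((1 + al) * u : ℝ) : ℂ) - b := ⟨_, rfl⟩
  have hf2 : f = (u : ℂ) + c - b := by
    rw [hf, hc]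
    push_cast
    ring
  have hdiff : DifferentiableOn ℂ (fun z : ℂ => (1 - (u : ℂ) * z)⁻¹ * (1 - b * z) * cexp (c * z))
      (Metric.closedBall 0 1) := by
    intro z hz
    rw [mem_closedBall_zero_iff] at hz
    have := hne z hz
    have h1 : DifferentiableAt ℂ (fun z : ℂ => (1 - (u : ℂ) * z)⁻¹ * (1 - b * z) * cexp (c * z)) z := by
      fun_prop (disch := assumption)
    exact h1.differentiableWithinAt
  have hder : HasDerivAt (fun z : ℂ => (1 - (u : ℂ) * z)⁻¹ * (1 - b * z) * cexp (c * z)) f 0 := by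
    have h1 : HasDerivAt (fun z : ℂ => 1 - (u : ℂ) * z) (-(u : ℂ)) 0 := by
      have h := ((hasDerivAt_id (0 : ℂ)).const_mul (u : ℂ)).const_sub 1
      rw [mul_one] at h
      exact h
    have h1b : HasDerivAt (fun z : ℂ => 1 - b * z) (-b) 0 := by
      have h := ((hasDerivAt_id (0 : ℂ)).const_mul b).const_sub 1
      rw [mul_one] at h
      exact h
    have h2 := h1.inv (by simp)
    have h3 : HasDerivAt (fun z : ℂ => cexp (c * z)) (cexp (c * 0) * (c * 1)) 0 :=
      ((hasDerivAt_id (0 : ℂ)).const_mul (c : ℂ)).cexp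
    have h4 := (h2.mul h1b).mul h3
    have h5 : (-(-(u : ℂ)) / (1 - (u : ℂ) * 0) ^ 2 * (1 - b * 0) + (1 - (u : ℂ) * 0)⁻¹ * (-b)) *
        cexp (c * 0) + ((1 - (u : ℂ) * 0)⁻¹ * (1 - b * 0)) * (cexp (c * 0) * (c * 1)) = f := by
      rw [hf2]
      simp
      ring
    rw [← h5]
    exact h4
  have hbd : ∀ z : ℂ, ‖z‖ = 1 →
      ‖(fun z : ℂ => (1 - (u : ℂ) * z)⁻¹ * (1 - b * z) * cexp (c * z)) z - 1 - f * z‖ ≤ 32 * u ^ 2 := by
    intro z hz
    have hz1 : ‖z‖ ≤ 1 := hz.le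
    have hnz := hne z hz1
    have huz : ‖(u : ℂ) * z‖ = u := by
      rw [norm_mul, hz, mul_one, Complex.norm_real, Real.norm_of_nonneg hu0]
    have hcz : ‖(c : ℂ) * z‖ ≤ u := by rw [norm_mul, hz, mul_one]; exact hcn
    have hbz : ‖b * z‖ ≤ u := by rw [norm_mul, hz, mul_one]; exact hb
    have e1 : (fun z : ℂ => (1 - (u : ℂ) * z)⁻¹ * (1 - b * z) * cexp (c * z)) z - 1 - f * z =
        ((u : ℂ) * z) ^ 2 * (1 - (u : ℂ) * z)⁻¹ * ((1 - b * z) * cexp (c * z)) +
        (1 + (u : ℂ) * z) * (1 - b * z) * (cexp (c * z) - 1 - c * z) +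
        ((u : ℂ) * c - u * b - b * c - u * b * c * z) * z ^ 2 := by
      rw [hf2]
      beta_reduce
      field_simp
      ring
    rw [e1]
    have h1b : ‖1 - b * z‖ ≤ 2 := by
      refine (norm_sub_le _ _).trans ?_
      rw [norm_one]
      linarith
    have hE : ‖cexp (c * z)‖ ≤ 3 := by
      refine (Complex.norm_exp_le_exp_norm _).trans ?_
      refine (Real.exp_le_exp.2 (hcz.trans (by linarith : u ≤ 1))).trans ?_
      have := Real.exp_one_lt_d9
      linarith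
    have n1 : ‖((u : ℂ) * z) ^ 2 * (1 - (u : ℂ) * z)⁻¹ * ((1 - b * z) * cexp (c * z))‖ ≤
        u ^ 2 * 4 * (2 * 3) := by
      rw [norm_mul, norm_mul, norm_mul, norm_pow, huz, norm_inv]
      have h2 : ‖1 - (u : ℂ) * z‖⁻¹ ≤ 4 := by
        rw [inv_le_comm₀ (lt_of_lt_of_le (by norm_num) (hu z hz1)) (by norm_num)]
        refine le_trans (by norm_num) (hu z hz1)
      gcongr
    have n2 : ‖(1 + (u : ℂ) * z) * (1 - b * z) * (cexp (c * z) - 1 - c * z)‖ ≤ 2 * 2 * u ^ 2 := by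
      rw [norm_mul, norm_mul]
      have h2 : ‖1 + (u : ℂ) * z‖ ≤ 2 := by
        refine (norm_add_le _ _).trans ?_
        rw [norm_one, huz]
        linarith
      have h3 : ‖cexp (c * z) - 1 - c * z‖ ≤ u ^ 2 := by
        refine (Complex.norm_exp_sub_one_sub_id_le (hcz.trans (by linarith))).trans ?_
        gcongr
      gcongr
    have n3 : ‖((u : ℂ) * c - u * b - b * c - u * b * c * z) * z ^ 2‖ ≤ 4 * u ^ 2 := by
      rw [norm_mul, norm_pow, hz, one_pow, mul_one]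
      have hun : ‖(u : ℂ)‖ = u := by rw [Complex.norm_real, Real.norm_of_nonneg hu0]
      have m1 : ‖(u : ℂ) * c‖ ≤ u * u := by
        rw [norm_mul, hun]
        gcongr
      have m2 : ‖(u : ℂ) * b‖ ≤ u * u := by
        rw [norm_mul, hun]
        gcongr
      have m3 : ‖b * (c : ℂ)‖ ≤ u * u := by
        rw [norm_mul]
        gcongr
      have m4 : ‖(u : ℂ) * b * c * z‖ ≤ u * u * 1 * 1 := by
        rw [norm_mul, norm_mul, norm_mul, hun, hz]
        gcongr
        exact hcn.trans (by linarith)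
      calc _ ≤ ‖(u : ℂ) * c‖ + ‖(u : ℂ) * b‖ + ‖b * (c : ℂ)‖ + ‖(u : ℂ) * b * c * z‖ := by
            refine (norm_sub_le _ _).trans (add_le_add_left ?_ _)
            refine (norm_sub_le _ _).trans (add_le_add_left ?_ _)
            exact norm_sub_le _ _
        _ ≤ u * u + u * u + u * u + u * u * 1 * 1 := by gcongr
        _ = 4 * u ^ 2 := by ring
    refine (norm_add₃_le).trans ?_
    calc _ ≤ u ^ 2 * 4 * (2 * 3) + 2 * 2 * u ^ 2 + 4 * u ^ 2 := by gcongr
      _ = 32 * u ^ 2 := by ring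
  have key := R1_split (fun z => (1 - (u : ℂ) * z)⁻¹ * (1 - b * z) * cexp (c * z))
    (fun z => (1 - (u : ℂ) * z)⁻¹ * (1 - b * z) * cexp (c * z)) f f hdiff hdiff (by simp) (by simp)
    hder hder (B1 := 32 * u ^ 2) (B2 := 32 * u ^ 2) (by positivity) hbd hbd
  have hint : (∫ x : UnitAddCircle,
      (fun z : ℂ => (1 - (u : ℂ) * z)⁻¹ * (1 - b * z) * cexp (c * z)) (AddCircle.toCircle x : ℂ) *
      conj ((fun z : ℂ => (1 - (u : ℂ) * z)⁻¹ * (1 - b * z) * cexp (c * z)) (AddCircle.toCircle x : ℂ))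
      ∂(AddCircle.haarAddCircle : Measure UnitAddCircle)) =
      ((∫ x : UnitAddCircle, ‖(1 - (u : ℂ) * (AddCircle.toCircle x : ℂ))⁻¹‖ ^ 2 *
      ‖1 - b * (AddCircle.toCircle x : ℂ)‖ ^ 2 *
      Real.exp (2 * (al * u * (AddCircle.toCircle x : ℂ).re))
      ∂(AddCircle.haarAddCircle : Measure UnitAddCircle) : ℝ) : ℂ) := by
    rw [← integral_complex_ofReal]
    refine integral_congr_ae (Filter.Eventually.of_forall fun x => ?_)
    beta_reduce
    rw [Complex.mul_conj, Complex.normSq_eq_norm_sq, norm_mul, norm_mul, Complex.norm_exp]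
    congr 1
    have e2 : ((c : ℂ) * (AddCircle.toCircle x : ℂ)).re = c * (AddCircle.toCircle x : ℂ).re := by
      rw [Complex.re_ofReal_mul]
    rw [e2, mul_pow, mul_pow, ← Real.exp_nat_mul, hc]
    norm_num
  rw [hint] at key
  have hff : f * conj f = ((‖f‖ ^ 2 : ℝ) : ℂ) := by
    rw [Complex.mul_conj, Complex.normSq_eq_norm_sq]
  rw [hff] at key
  have h1 := (Complex.abs_re_le_norm _).trans key
  have h2 : ∀ I s : ℝ, (((I : ℝ) : ℂ) - 1 - ((s : ℝ) : ℂ)).re = I - 1 - s := by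
    intro I s
    simp
  rw [h2] at h1
  have h3 := (abs_le.1 h1).2
  rw [← hf]
  have h4 := Real.add_one_le_exp (‖f‖ ^ 2 + 1024 * u ^ 4)
  have h5 : 32 * u ^ 2 * (32 * u ^ 2) = 1024 * u ^ 4 := by ring
  linarith

end Pool.Agent.UH
end

section

/-! TASK R2. Exponential moment of a linear form in the independent unit numbers `X p`.
One variable: `∫ exp(Re(a x)) ≤ exp(‖a‖²)` over the circle, because `e^y ≤ y + e^{y²}` for all real `y` (Mathlib has `Real.exp_le_...`? otherwise: for `|y| ≤ 1` `e^y ≤ 1 + y + y² ≤ y + e^{y²}` by `Real.exp_bound_div_one_sub_of_interval` or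
`Real.quadratic...`/`Real.norm_exp_sub_one_sub_id_le`; for `|y| > 1`, `e^y ≤ e^{|y|} ≤ e^{y²}`, which gives the claim for `y > 0`; for `y < -1`: `e^{y} + |y| ≤ 1 + |y| ≤ 1 + y² ≤ e^{y²}`), and `∫ Re(a x) = 0`, `Re(a x)² ≤ ‖a‖²`.
(`∫ x = 0` over the circle: `orth_circle 1 0` of GH/Orth.lean.) Then `exp(Re ∑_{p∈R} a_p X_p) = ∏_{p∈R} exp(Re(a_p X_p))`, and `indep_primes` (GH/Indep.lean) with `f p x = exp(Re(a_p toCircle x))` (continuous, real-valued). -/

set_option autoImplicit false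

namespace Pool.Agent.UH

open Complex MeasureTheory Finset Pool.Agent.GH
open scoped Real ComplexConjugate

private theorem R2_exp_le (y : ℝ) : Real.exp y ≤ y + Real.exp (y ^ 2) := by
  have h0 := Real.add_one_le_exp (y ^ 2)
  rcases le_or_gt |y| 1 with h | h
  · have h1 := Real.abs_exp_sub_one_sub_id_le h
    have h2 := (abs_le.1 h1).2
    linarith
  · rcases lt_abs.1 h with h1 | h1
    · have h2 : Real.exp y ≤ Real.exp (y ^ 2) := Real.exp_le_exp.2 (by nlinarith)
      linarith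
    · have h2 : Real.exp y ≤ Real.exp 0 := Real.exp_le_exp.2 (by linarith)
      rw [Real.exp_zero] at h2
      nlinarith

private theorem R2_int {f : UnitAddCircle → ℝ} (hf : Continuous f) :
    Integrable f (AddCircle.haarAddCircle : Measure UnitAddCircle) :=
  hf.integrable_of_hasCompactSupport (HasCompactSupport.of_compactSpace f)

private theorem R2_intc {f : UnitAddCircle → ℂ} (hf : Continuous f) :
    Integrable f (AddCircle.haarAddCircle : Measure UnitAddCircle) :=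
  hf.integrable_of_hasCompactSupport (HasCompactSupport.of_compactSpace f)

private theorem R2_cont : Continuous (fun x : UnitAddCircle => (AddCircle.toCircle x : ℂ)) :=
  Continuous.comp continuous_subtype_val AddCircle.continuous_toCircle

private theorem R2_mean (a : ℂ) :
    ∫ x : UnitAddCircle, (a * (AddCircle.toCircle x : ℂ)).re
      ∂(AddCircle.haarAddCircle : Measure UnitAddCircle) = 0 := by
  have h1 := Complex.reCLM.integral_comp_comm
    (R2_intc (f := fun x : UnitAddCircle => a * (AddCircle.toCircle x : ℂ))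
      (continuous_const.mul R2_cont))
  have h2 := orth_circle 1 0
  rw [if_neg one_ne_zero] at h2
  have h3 : ∫ x : UnitAddCircle, a * (AddCircle.toCircle x : ℂ)
      ∂(AddCircle.haarAddCircle : Measure UnitAddCircle) = 0 := by
    rw [MeasureTheory.integral_const_mul]
    have h4 : ∫ x : UnitAddCircle, (AddCircle.toCircle x : ℂ)
        ∂(AddCircle.haarAddCircle : Measure UnitAddCircle) = 0 := by
      rw [← h2]
      refine MeasureTheory.integral_congr_ae (Filter.Eventually.of_forall (fun x => ?_))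
      show (AddCircle.toCircle x : ℂ) = (AddCircle.toCircle x : ℂ) ^ 1 * conj ((AddCircle.toCircle x : ℂ)) ^ 0
      rw [pow_one, pow_zero, mul_one]
    rw [h4, mul_zero]
  rw [h3] at h1
  rw [← Complex.zero_re]
  exact h1

private theorem R2_one (a : ℂ) :
    ∫ x : UnitAddCircle, Real.exp ((a * (AddCircle.toCircle x : ℂ)).re)
      ∂(AddCircle.haarAddCircle : Measure UnitAddCircle) ≤ Real.exp (‖a‖ ^ 2) := by
  have hc : Continuous (fun x : UnitAddCircle => (a * (AddCircle.toCircle x : ℂ)).re) :=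
    Complex.continuous_re.comp (continuous_const.mul R2_cont)
  have h1 : ∫ x : UnitAddCircle, Real.exp ((a * (AddCircle.toCircle x : ℂ)).re)
      ∂(AddCircle.haarAddCircle : Measure UnitAddCircle) ≤
      ∫ x : UnitAddCircle, ((a * (AddCircle.toCircle x : ℂ)).re + Real.exp (‖a‖ ^ 2))
      ∂(AddCircle.haarAddCircle : Measure UnitAddCircle) := by
    refine MeasureTheory.integral_mono (R2_int (Real.continuous_exp.comp hc))
      (R2_int (hc.add continuous_const)) (fun x => ?_)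
    have h2 := R2_exp_le ((a * (AddCircle.toCircle x : ℂ)).re)
    have h3 : |(a * (AddCircle.toCircle x : ℂ)).re| ≤ ‖a‖ := by
      refine (Complex.abs_re_le_norm _).trans ?_
      rw [norm_mul, Circle.norm_coe, mul_one]
    have h4 : (a * (AddCircle.toCircle x : ℂ)).re ^ 2 ≤ ‖a‖ ^ 2 := by
      rw [← sq_abs]
      exact pow_le_pow_left₀ (abs_nonneg _) h3 2
    have h5 := Real.exp_le_exp.2 h4
    show Real.exp ((a * (AddCircle.toCircle x : ℂ)).re) ≤
      (a * (AddCircle.toCircle x : ℂ)).re + Real.exp (‖a‖ ^ 2)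
    linarith
  rw [MeasureTheory.integral_add (R2_int hc) (R2_int continuous_const), R2_mean] at h1
  rw [MeasureTheory.integral_const, MeasureTheory.probReal_univ, one_smul, zero_add] at h1
  exact h1

theorem lin_exp (R : Finset ℕ) (a : ℕ → ℂ) :
    ∫ w, Real.exp ((∑ p ∈ R, a p * X p w).re) ∂mu ≤ Real.exp (∑ p ∈ R, ‖a p‖ ^ 2) := by
  have h1 : ∀ w : Om, Real.exp ((∑ p ∈ R, a p * X p w).re) =
      ∏ p ∈ R, Real.exp ((a p * (AddCircle.toCircle (w p) : ℂ)).re) := by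
    intro w
    rw [Complex.re_sum, Real.exp_sum]
    rfl
  rw [MeasureTheory.integral_congr_ae (Filter.Eventually.of_forall h1)]
  have hm : ∀ p ∈ R, Measurable (fun x : UnitAddCircle =>
      Real.exp ((a p * (AddCircle.toCircle x : ℂ)).re)) := fun p _ =>
    (Real.continuous_exp.comp (Complex.continuous_re.comp (continuous_const.mul R2_cont))).measurable
  have h2 := indep_primes R (fun (p : ℕ) (x : UnitAddCircle) =>
    Real.exp ((a p * (AddCircle.toCircle x : ℂ)).re)) hm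
  rw [h2, Real.exp_sum]
  refine Finset.prod_le_prod (fun p _ => ?_) (fun p _ => R2_one (a p))
  exact MeasureTheory.integral_nonneg (fun x => (Real.exp_pos _).le)

end Pool.Agent.UH
end

section

/-! TASK C2. The cluster lemma. Scaling `F(z) = f(c + 2r z)`: analytic near the closed unit disc (the disc `|s-c| ≤ 2r` lies in the square of half side `3r`), zeros `(ρ-c)/(2r)` of norm `≤ 1/2`, `F' = 2r f'(c+2rz)`. With `n = card Z`, `M = max_{|s-c|=2r} ‖f‖` (compact circle, attained at some `s0`) `cluster_deriv` gives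
`‖f'(ρ)‖ ≤ (2/(3r)) (4/5)^{n-1} M`, so `∑_{ρ∈Z} ‖f'(ρ)‖^q ≤ n (4/5)^{q(n-1)} (2/(3r))^q M^q ≤ C_q r^{-q} M^q` (`n x^{n-1} ≤ 1/(1-x)²`..., bounded for `x = (4/5)^q < 1`: e.g. `n x^{n-1} ≤ ∑_{k} x^k·... ≤ 1/(1-x)`: indeed `n x^{n-1} ≤ 1 + x + ... + x^{n-1}`).
`M^q = ‖f s0‖^q ≤ (πr²)^{-1} ∫_{square of half side r around s0} ‖f‖^q` (`area_mean`), and this square is contained in the square of half side `3r` around `c` (`|Re s0 - Re c| ≤ 2r`). -/

set_option autoImplicit false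

namespace Pool.Agent.UH

open Complex MeasureTheory Finset
open scoped Real ComplexConjugate

private theorem C2_geom {x : ℝ} (h0 : 0 ≤ x) (h1 : x < 1) {n : ℕ} (hn : 1 ≤ n) :
    (n : ℝ) * x ^ (n - 1) ≤ (1 - x)⁻¹ := by
  have h2 : (n : ℝ) * x ^ (n - 1) ≤ ∑ k ∈ range n, x ^ k := by
    have h3 : (n : ℝ) * x ^ (n - 1) = ∑ _k ∈ range n, x ^ (n - 1) := by
      rw [sum_const, card_range, nsmul_eq_mul]
    rw [h3]
    refine sum_le_sum fun k hk => ?_
    have := mem_range.mp hk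
    exact pow_le_pow_of_le_one h0 h1.le (by omega)
  have h4 : (∑ k ∈ range n, x ^ k) * (x - 1) = x ^ n - 1 := geom_sum_mul x n
  have h5 : 0 < 1 - x := by linarith
  have h6 : 0 ≤ x ^ n := by positivity
  refine h2.trans ?_
  rw [← one_div, le_div_iff₀ h5]
  linarith

private theorem C2_deriv {f : ℂ → ℂ} {c : ℂ} {r M : ℝ} {Z : Finset ℂ} (hr : 0 < r)
    (hf : ∀ z : ℂ, |z.re - c.re| ≤ 3 * r → |z.im - c.im| ≤ 3 * r → AnalyticAt ℂ f z)
    (hM : ∀ z : ℂ, ‖z‖ = 1 → ‖f (c + 2 * r * z)‖ ≤ M)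
    (hZ : ∀ ρ ∈ Z, ‖ρ - c‖ ≤ r ∧ f ρ = 0) :
    ∀ ρ ∈ Z, ‖deriv f ρ‖ ≤ 2 / 3 / r * (4 / 5 : ℝ) ^ (Z.card - 1) * M := by
  have hr' : (2 * r : ℂ) ≠ 0 := by
    have : (r : ℂ) ≠ 0 := by exact_mod_cast hr.ne'
    simp [this]
  have hn2 : ‖(2 * r : ℂ)‖ = 2 * r := by
    rw [norm_mul, Complex.norm_real, Real.norm_of_nonneg hr.le]
    norm_num
  have han : AnalyticOnNhd ℂ (fun z => f (c + 2 * r * z)) (Metric.closedBall 0 1) := by
    intro z hz
    have hz1 : ‖z‖ ≤ 1 := by simpa using hz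
    have hb : ‖(2 * r : ℂ) * z‖ ≤ 2 * r := by
      rw [norm_mul, hn2]
      nlinarith
    have h1 : AnalyticAt ℂ f (c + 2 * r * z) := by
      apply hf
      · have := Complex.abs_re_le_norm ((2 * r : ℂ) * z)
        rw [Complex.add_re, add_sub_cancel_left]
        linarith
      · have := Complex.abs_im_le_norm ((2 * r : ℂ) * z)
        rw [Complex.add_im, add_sub_cancel_left]
        linarith
    have h2 : AnalyticAt ℂ (fun z : ℂ => c + 2 * r * z) z := by fun_prop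
    exact AnalyticAt.comp (f := fun z : ℂ => c + 2 * r * z) h1 h2
  set Z' : Finset ℂ := Z.image fun ρ => (ρ - c) / (2 * r) with hZ'
  have hcard : Z'.card = Z.card := by
    apply Finset.card_image_of_injective
    intro a b hab
    have h1 : (a - c) / (2 * r) = (b - c) / (2 * r) := hab
    rw [div_left_inj' hr'] at h1
    linear_combination h1
  have hback : ∀ ρ : ℂ, c + 2 * r * ((ρ - c) / (2 * r)) = ρ := by
    intro ρ
    rw [mul_div_cancel₀ _ hr']
    ring
  have h := cluster_deriv (f := fun z => f (c + 2 * r * z)) (M := M) Z' han hM (by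
    intro ρ' hρ'
    obtain ⟨ρ, hρ, rfl⟩ := Finset.mem_image.mp hρ'
    refine ⟨?_, ?_⟩
    · rw [norm_div, hn2, div_le_iff₀ (by positivity)]
      have := (hZ ρ hρ).1
      linarith
    · show f (c + 2 * r * ((ρ - c) / (2 * r))) = 0
      rw [hback]
      exact (hZ ρ hρ).2)
  intro ρ hρ
  have h1 := h ((ρ - c) / (2 * r)) (Finset.mem_image_of_mem _ hρ)
  have hd : deriv (fun z => f (c + 2 * r * z)) ((ρ - c) / (2 * r)) = 2 * r * deriv f ρ := by
    have hρn := (hZ ρ hρ).1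
    have h2 : AnalyticAt ℂ f ρ := by
      apply hf
      · have := Complex.abs_re_le_norm (ρ - c)
        rw [Complex.sub_re] at this
        linarith
      · have := Complex.abs_im_le_norm (ρ - c)
        rw [Complex.sub_im] at this
        linarith
    have h3 : HasDerivAt (fun z : ℂ => c + 2 * r * z) (2 * r) ((ρ - c) / (2 * r)) := by
      have := ((hasDerivAt_id ((ρ - c) / (2 * r))).const_mul (2 * r : ℂ)).const_add c
      simpa using this
    have h4 : HasDerivAt f (deriv f ρ) (c + 2 * r * ((ρ - c) / (2 * r))) := by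
      rw [hback]
      exact h2.differentiableAt.hasDerivAt
    have h5 := h4.comp ((ρ - c) / (2 * r)) h3
    rw [← h5.deriv.trans (mul_comm _ _)]
    rfl
  rw [hd, norm_mul, hn2, hcard] at h1
  have h6 : ‖deriv f ρ‖ = (2 * r * ‖deriv f ρ‖) / (2 * r) := by field_simp
  rw [h6, div_le_iff₀ (by positivity)]
  refine h1.trans (le_of_eq ?_)
  field_simp
  ring

theorem cluster {q : ℝ} (hq : 0 < q) : ∃ C : ℝ, 1 ≤ C ∧ ∀ (f : ℂ → ℂ) (c : ℂ) (r : ℝ) (Z : Finset ℂ),
    0 < r → (∀ z : ℂ, |z.re - c.re| ≤ 3 * r → |z.im - c.im| ≤ 3 * r → AnalyticAt ℂ f z) →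
    (∀ ρ ∈ Z, ‖ρ - c‖ ≤ r ∧ f ρ = 0) →
    ∑ ρ ∈ Z, ENNReal.ofReal (‖deriv f ρ‖ ^ q) ≤ ENNReal.ofReal (C * r ^ (-q - 2)) *
      ∫⁻ x in Set.Icc (c.re - 3 * r) (c.re + 3 * r), ∫⁻ y in Set.Icc (c.im - 3 * r) (c.im + 3 * r),
        ENNReal.ofReal (‖f (x + y * I)‖ ^ q) := by
  have hx0 : (0 : ℝ) < (4 / 5) ^ q := by positivity
  have hx1 : ((4 : ℝ) / 5) ^ q < 1 := Real.rpow_lt_one (by norm_num) (by norm_num) hq
  have h1x : (0 : ℝ) < 1 - (4 / 5) ^ q := by linarith
  have hpi := Real.pi_pos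
  set K : ℝ := (1 - (4 / 5 : ℝ) ^ q)⁻¹ * (2 / 3) ^ q / π with hK
  have hK0 : 0 ≤ K := by positivity
  refine ⟨max 1 K, le_max_left _ _, fun f c r Z hr hf hZ => ?_⟩
  rcases Z.eq_empty_or_nonempty with rfl | hne
  · simp
  -- the maximum on the circle
  have hn2 : ‖(2 * r : ℂ)‖ = 2 * r := by
    rw [norm_mul, Complex.norm_real, Real.norm_of_nonneg hr.le]
    norm_num
  have hcomp : IsCompact (Metric.sphere (0 : ℂ) 1) := isCompact_sphere 0 1
  have hcne : (Metric.sphere (0 : ℂ) 1).Nonempty := ⟨1, by simp⟩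
  have hcont : ContinuousOn (fun z : ℂ => ‖f (c + 2 * r * z)‖) (Metric.sphere (0 : ℂ) 1) := by
    intro z hz
    have hz1 : ‖z‖ = 1 := by simpa using hz
    have hb : ‖(2 * r : ℂ) * z‖ = 2 * r := by rw [norm_mul, hn2, hz1, mul_one]
    have h1 : AnalyticAt ℂ f (c + 2 * r * z) := by
      apply hf
      · have := Complex.abs_re_le_norm ((2 * r : ℂ) * z)
        rw [Complex.add_re, add_sub_cancel_left]
        linarith
      · have := Complex.abs_im_le_norm ((2 * r : ℂ) * z)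
        rw [Complex.add_im, add_sub_cancel_left]
        linarith
    have h2 : ContinuousAt (fun z : ℂ => c + 2 * r * z) z := by fun_prop
    exact (ContinuousAt.comp (f := fun z : ℂ => c + 2 * r * z) h1.continuousAt h2).norm.continuousWithinAt
  obtain ⟨z0, hz0, hmax⟩ := hcomp.exists_isMaxOn hcne hcont
  have hz01 : ‖z0‖ = 1 := by simpa using hz0
  set s0 : ℂ := c + 2 * r * z0 with hs0
  have hM : ∀ z : ℂ, ‖z‖ = 1 → ‖f (c + 2 * r * z)‖ ≤ ‖f s0‖ := fun z hz =>
    hmax (show z ∈ Metric.sphere (0 : ℂ) 1 by simpa using hz)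
  have hder := C2_deriv hr hf hM hZ
  have hb0 : ‖(2 * r : ℂ) * z0‖ = 2 * r := by rw [norm_mul, hn2, hz01, mul_one]
  have hre0 : |s0.re - c.re| ≤ 2 * r := by
    have := Complex.abs_re_le_norm ((2 * r : ℂ) * z0)
    rw [hs0, Complex.add_re, add_sub_cancel_left]
    linarith
  have him0 : |s0.im - c.im| ≤ 2 * r := by
    have := Complex.abs_im_le_norm ((2 * r : ℂ) * z0)
    rw [hs0, Complex.add_im, add_sub_cancel_left]
    linarith
  rw [abs_le] at hre0 him0
  have harea := area_mean (f := f) (c := s0) (r := r) (q := q) hr hq (by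
    intro z h1 h2
    rw [abs_le] at h1 h2
    apply hf
    · rw [abs_le]
      constructor <;> linarith [h1.1, h1.2, hre0.1, hre0.2]
    · rw [abs_le]
      constructor <;> linarith [h2.1, h2.2, him0.1, him0.2])
  have hbig : (∫⁻ x in Set.Icc (s0.re - r) (s0.re + r), ∫⁻ y in Set.Icc (s0.im - r) (s0.im + r),
        ENNReal.ofReal (‖f (x + y * I)‖ ^ q)) ≤
      ∫⁻ x in Set.Icc (c.re - 3 * r) (c.re + 3 * r), ∫⁻ y in Set.Icc (c.im - 3 * r) (c.im + 3 * r),
        ENNReal.ofReal (‖f (x + y * I)‖ ^ q) := by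
    have e1 : Set.Icc (s0.re - r) (s0.re + r) ⊆ Set.Icc (c.re - 3 * r) (c.re + 3 * r) :=
      Set.Icc_subset_Icc (by linarith [hre0.1]) (by linarith [hre0.2])
    have e2 : Set.Icc (s0.im - r) (s0.im + r) ⊆ Set.Icc (c.im - 3 * r) (c.im + 3 * r) :=
      Set.Icc_subset_Icc (by linarith [him0.1]) (by linarith [him0.2])
    refine (lintegral_mono_set e1).trans (lintegral_mono fun x => ?_)
    exact lintegral_mono_set e2
  -- the sum
  have hn1 : 1 ≤ Z.card := hne.card_pos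
  have hnum : (Z.card : ℝ) * (2 / 3 / r * (4 / 5 : ℝ) ^ (Z.card - 1) * ‖f s0‖) ^ q ≤
      K * r ^ (-q - 2) * (π * r ^ 2 * ‖f s0‖ ^ q) := by
    have g1 := C2_geom hx0.le hx1 hn1
    have g2 : (2 / 3 / r * (4 / 5 : ℝ) ^ (Z.card - 1) * ‖f s0‖) ^ q =
        (2 / 3) ^ q * r ^ (-q) * ((4 / 5 : ℝ) ^ q) ^ (Z.card - 1) * ‖f s0‖ ^ q := by
      rw [Real.mul_rpow (by positivity) (norm_nonneg _), Real.mul_rpow (by positivity) (by positivity),
        Real.div_rpow (by norm_num) hr.le, Real.rpow_neg hr.le, ← div_eq_mul_inv]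
      congr 2
      rw [← Real.rpow_natCast, ← Real.rpow_natCast, ← Real.rpow_mul (by norm_num),
        ← Real.rpow_mul (by norm_num), mul_comm]
    have g3 : r ^ (-q - 2) * r ^ 2 = r ^ (-q) := by
      rw [← Real.rpow_natCast r 2, ← Real.rpow_add hr]
      congr 1
      push_cast
      ring
    rw [g2]
    have g4 : K * r ^ (-q - 2) * (π * r ^ 2 * ‖f s0‖ ^ q) =
        (1 - (4 / 5 : ℝ) ^ q)⁻¹ * ((2 / 3) ^ q * (r ^ (-q - 2) * r ^ 2) * ‖f s0‖ ^ q) := by
      rw [hK]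
      field_simp
    rw [g4, g3]
    have g5 : 0 ≤ (2 / 3 : ℝ) ^ q * r ^ (-q) * ‖f s0‖ ^ q := by positivity
    calc (Z.card : ℝ) * ((2 / 3) ^ q * r ^ (-q) * ((4 / 5 : ℝ) ^ q) ^ (Z.card - 1) * ‖f s0‖ ^ q)
        = ((Z.card : ℝ) * ((4 / 5 : ℝ) ^ q) ^ (Z.card - 1)) *
            ((2 / 3 : ℝ) ^ q * r ^ (-q) * ‖f s0‖ ^ q) := by ring
      _ ≤ _ := mul_le_mul_of_nonneg_right g1 g5
  calc ∑ ρ ∈ Z, ENNReal.ofReal (‖deriv f ρ‖ ^ q)
      ≤ ∑ _ρ ∈ Z, ENNReal.ofReal ((2 / 3 / r * (4 / 5 : ℝ) ^ (Z.card - 1) * ‖f s0‖) ^ q) :=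
        Finset.sum_le_sum fun ρ hρ => ENNReal.ofReal_le_ofReal
          (Real.rpow_le_rpow (norm_nonneg _) (hder ρ hρ) hq.le)
    _ = ENNReal.ofReal ((Z.card : ℝ) *
          (2 / 3 / r * (4 / 5 : ℝ) ^ (Z.card - 1) * ‖f s0‖) ^ q) := by
        rw [Finset.sum_const, nsmul_eq_mul, ENNReal.ofReal_mul (by positivity),
          ENNReal.ofReal_natCast]
    _ ≤ ENNReal.ofReal (K * r ^ (-q - 2) * (π * r ^ 2 * ‖f s0‖ ^ q)) :=
        ENNReal.ofReal_le_ofReal hnum
    _ = ENNReal.ofReal (K * r ^ (-q - 2)) * ENNReal.ofReal (π * r ^ 2 * ‖f s0‖ ^ q) :=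
        ENNReal.ofReal_mul (by positivity)
    _ ≤ _ := by
        refine mul_le_mul' (ENNReal.ofReal_le_ofReal ?_) (harea.trans hbig)
        exact mul_le_mul_of_nonneg_right (le_max_right _ _) (by positivity)

end Pool.Agent.UH
end

section

/-! TASK C3. Zeros in a row (a vertical strip of width `δ`). For an integer `k` let `Z_k = {ρ ∈ Z : ⌊ρ.im/δ⌋ = k}`, `c_k = σ0 + δ/2 + i(k+1/2)δ`; for `ρ ∈ Z_k` both coordinates of `ρ - c_k` are at most `δ/2`, so `‖ρ - c_k‖ ≤ δ`. `cluster` with `r = δ`: the square of half side `3δ` around `c_k` is contained in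
`[σ0 - 3δ, σ0 + 4δ] × [(k-5/2)δ, (k+7/2)δ]`, in the domain `Im > 0` (`A ≥ 8δ`, and `(k+1)δ > ρ.im ≥ A` if `Z_k` is nonempty). Sum over the finitely many `k` with `Z_k ≠ ∅` (`Finset.sum_fiberwise_of_maps_to` with `k ∈ Z.image (⌊·.im/δ⌋)`):
`∑_{Z} ≤ C δ^{-q-2} ∫_x ∑_k ∫_{y ∈ I_k} ‖f‖^q dy dx`, `I_k = [(k-5/2)δ, (k+7/2)δ] ⊆ [A - 4δ, B + 4δ]`, and every `y` lies in at most 7 of the intervals `I_k`
(the integers `k` with `y/δ - 7/2 ≤ k ≤ y/δ + 5/2`). So `∑_k ∫_{I_k} h ≤ 7 ∫_{[A-4δ,B+4δ]} h` (`lintegral_finsetSum` with indicator functions; pointwise `∑_k 1_{I_k}(y) ≤ 7·1`). The constant is `7C`.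
(Measurability in `x` of the inner integrals: to exchange the finite sum with the outer `∫⁻` one needs it for all but one summand; `f` is continuous on the open upper half plane, so `(x,y) ↦ ‖f‖^q` is continuous on the relevant product set; or use `lintegral_add_left` etc. after replacing `f` by
its restriction extended by 0. Alternatively `MeasureTheory.lintegral_finsetSum'`.) -/

set_option autoImplicit false

namespace Pool.Agent.UH

open Complex MeasureTheory Finset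
open scoped Real ComplexConjugate

private lemma card7 (K : Finset ℤ) (δ y : ℝ) (hδ : 0 < δ) :
    ((K.filter (fun k : ℤ => y ∈ Set.Icc (((k : ℝ) - 5 / 2) * δ) (((k : ℝ) + 7 / 2) * δ))).card : ℝ) ≤ 7 := by
  have hsub : K.filter (fun k : ℤ => y ∈ Set.Icc (((k : ℝ) - 5 / 2) * δ) (((k : ℝ) + 7 / 2) * δ)) ⊆
      Finset.Icc ⌈y / δ - 7 / 2⌉ ⌊y / δ + 5 / 2⌋ := by
    intro k hk
    rw [Finset.mem_filter, Set.mem_Icc] at hk
    obtain ⟨-, h1, h2⟩ := hk
    rw [Finset.mem_Icc, Int.ceil_le, Int.le_floor]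
    constructor
    · have : y / δ ≤ (k : ℝ) + 7 / 2 := by rw [div_le_iff₀ hδ]; exact h2
      linarith
    · have : (k : ℝ) - 5 / 2 ≤ y / δ := by rw [le_div_iff₀ hδ]; exact h1
      linarith
  have h1 := Finset.card_le_card hsub
  rw [Int.card_Icc] at h1
  have h2 : (⌊y / δ + 5 / 2⌋ + 1 - ⌈y / δ - 7 / 2⌉) ≤ 7 := by
    have h3 : ((⌊y / δ + 5 / 2⌋ : ℤ) : ℝ) ≤ y / δ + 5 / 2 := Int.floor_le _
    have h4 : y / δ - 7 / 2 ≤ ((⌈y / δ - 7 / 2⌉ : ℤ) : ℝ) := Int.le_ceil _
    have h5 : (((⌊y / δ + 5 / 2⌋ + 1 - ⌈y / δ - 7 / 2⌉) : ℤ) : ℝ) ≤ ((7 : ℤ) : ℝ) := by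
      push_cast
      linarith
    exact_mod_cast h5
  have h3 : (⌊y / δ + 5 / 2⌋ + 1 - ⌈y / δ - 7 / 2⌉).toNat ≤ 7 := by omega
  exact_mod_cast h1.trans h3

private lemma key (g : ℝ → ℝ → ENNReal) (hg : Measurable (Function.uncurry g)) (D : Set ℝ)
    (δ A B : ℝ) (hδ : 0 < δ) (K : Finset ℤ) (hK : ∀ k ∈ K, A ≤ ((k : ℝ) + 1) * δ ∧ (k : ℝ) * δ ≤ B) :
    ∑ k ∈ K, ∫⁻ x in D, ∫⁻ y in Set.Icc (((k : ℝ) - 5 / 2) * δ) (((k : ℝ) + 7 / 2) * δ), g x y ≤
      7 * ∫⁻ x in D, ∫⁻ y in Set.Icc (A - 4 * δ) (B + 4 * δ), g x y := by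
  have hgx : ∀ x, Measurable (g x) := fun x => hg.comp measurable_prodMk_left
  rw [← lintegral_finsetSum]
  · rw [← lintegral_const_mul' _ _ (by norm_num)]
    refine lintegral_mono fun x => ?_
    simp only
    have h1 : ∀ k : ℤ, ∫⁻ y in Set.Icc (((k : ℝ) - 5 / 2) * δ) (((k : ℝ) + 7 / 2) * δ), g x y =
        ∫⁻ y, (Set.Icc (((k : ℝ) - 5 / 2) * δ) (((k : ℝ) + 7 / 2) * δ)).indicator (g x) y := fun k => by
      rw [lintegral_indicator measurableSet_Icc]
    have h2 : ∫⁻ y in Set.Icc (A - 4 * δ) (B + 4 * δ), g x y =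
        ∫⁻ y, (Set.Icc (A - 4 * δ) (B + 4 * δ)).indicator (g x) y := by
      rw [lintegral_indicator measurableSet_Icc]
    rw [Finset.sum_congr rfl fun k _ => h1 k, h2, ← lintegral_finsetSum _
      (fun k _ => (hgx x).indicator measurableSet_Icc), ← lintegral_const_mul' _ _ (by norm_num)]
    refine lintegral_mono fun y => ?_
    simp only
    have h3 : ∑ k ∈ K, (Set.Icc (((k : ℝ) - 5 / 2) * δ) (((k : ℝ) + 7 / 2) * δ)).indicator (g x) y =
        ((K.filter (fun k : ℤ => y ∈ Set.Icc (((k : ℝ) - 5 / 2) * δ) (((k : ℝ) + 7 / 2) * δ))).card : ENNReal)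
          * g x y := by
      rw [← nsmul_eq_mul, ← Finset.sum_const, Finset.sum_filter]
      refine Finset.sum_congr rfl fun k _ => ?_
      rw [Set.indicator_apply]
    rw [h3]
    by_cases hy : y ∈ Set.Icc (A - 4 * δ) (B + 4 * δ)
    · rw [Set.indicator_of_mem hy]
      have h4 := card7 K δ y hδ
      have h5 : (K.filter (fun k : ℤ => y ∈ Set.Icc (((k : ℝ) - 5 / 2) * δ) (((k : ℝ) + 7 / 2) * δ))).card ≤ 7 := by
        exact_mod_cast h4
      have h6 : ((K.filter (fun k : ℤ => y ∈ Set.Icc (((k : ℝ) - 5 / 2) * δ) (((k : ℝ) + 7 / 2) * δ))).card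
          : ENNReal) ≤ ((7 : ℕ) : ENNReal) := Nat.cast_le.2 h5
      have h7 : ((7 : ℕ) : ENNReal) = 7 := by norm_num
      rw [h7] at h6
      gcongr
    · have h4 : K.filter (fun k : ℤ => y ∈ Set.Icc (((k : ℝ) - 5 / 2) * δ) (((k : ℝ) + 7 / 2) * δ)) = ∅ := by
        rw [Finset.filter_eq_empty_iff]
        intro k hk hky
        apply hy
        obtain ⟨h5, h6⟩ := hK k hk
        rw [Set.mem_Icc] at hky ⊢
        constructor
        · have := hky.1
          nlinarith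
        · have := hky.2
          nlinarith
      rw [h4]
      simp
  · intro k _
    exact Measurable.lintegral_prod_right' (f := fun p : ℝ × ℝ => g p.1 p.2) hg

theorem row {q : ℝ} (hq : 0 < q) : ∃ C : ℝ, 1 ≤ C ∧ ∀ (f : ℂ → ℂ) (σ0 δ A B : ℝ) (Z : Finset ℂ),
    0 < δ → 8 * δ ≤ A → (∀ s : ℂ, 0 < s.im → AnalyticAt ℂ f s) →
    (∀ ρ ∈ Z, f ρ = 0 ∧ σ0 ≤ ρ.re ∧ ρ.re ≤ σ0 + δ ∧ A ≤ ρ.im ∧ ρ.im ≤ B) →
    ∑ ρ ∈ Z, ENNReal.ofReal (‖deriv f ρ‖ ^ q) ≤ ENNReal.ofReal (C * δ ^ (-q - 2)) *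
      ∫⁻ x in Set.Icc (σ0 - 3 * δ) (σ0 + 4 * δ), ∫⁻ y in Set.Icc (A - 4 * δ) (B + 4 * δ),
        ENNReal.ofReal (‖f (x + y * I)‖ ^ q) := by
  obtain ⟨C, hC1, hC⟩ := cluster hq
  refine ⟨7 * C, by linarith, ?_⟩
  intro f σ0 δ A B Z hδ hA hf hZ
  classical
  -- the measurable modification of `f`
  set F : ℂ → ℂ := fun z => if 0 < z.im then f z else 0 with hFdef
  have hopen : IsOpen {z : ℂ | 0 < z.im} := isOpen_lt continuous_const Complex.continuous_im
  have hFm : Measurable F := by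
    have h1 : ContinuousOn f {z : ℂ | 0 < z.im} := fun z hz => (hf z hz).continuousAt.continuousWithinAt
    have h2 : ContinuousOn (fun _ : ℂ => (0 : ℂ)) {z : ℂ | 0 < z.im}ᶜ := continuousOn_const
    have h3 := ContinuousOn.measurable_piecewise h1 h2 hopen.measurableSet
    have h4 : F = Set.piecewise {z : ℂ | 0 < z.im} f (fun _ => (0 : ℂ)) := by
      funext z
      simp [hFdef, Set.piecewise]
    rw [h4]; exact h3
  have hFeq : ∀ x y : ℝ, 0 < y → F (x + y * I) = f (x + y * I) := by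
    intro x y hy
    simp [hFdef, hy]
  set g : ℝ → ℝ → ENNReal := fun x y => ENNReal.ofReal (‖F (x + y * I)‖ ^ q) with hg
  have hgm : Measurable (Function.uncurry g) := by
    have h1 : Measurable (fun p : ℝ × ℝ => F ((p.1 : ℂ) + p.2 * I)) := by
      refine hFm.comp ?_
      exact (Complex.measurable_ofReal.comp measurable_fst).add
        ((Complex.measurable_ofReal.comp measurable_snd).mul_const I)
    exact ENNReal.measurable_ofReal.comp (h1.norm.pow_const q)
  have hgx : ∀ (x a b : ℝ), 0 < a → ∫⁻ y in Set.Icc a b, ENNReal.ofReal (‖f (x + y * I)‖ ^ q) =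
      ∫⁻ y in Set.Icc a b, g x y := by
    intro x a b ha
    refine setLIntegral_congr_fun measurableSet_Icc fun y hy => ?_
    simp only [hg]
    rw [hFeq x y (lt_of_lt_of_le ha hy.1)]
  -- the fibres
  set K : Finset ℤ := Z.image (fun ρ => ⌊ρ.im / δ⌋) with hKdef
  have hfl : ∀ ρ : ℂ, ((⌊ρ.im / δ⌋ : ℤ) : ℝ) * δ ≤ ρ.im ∧ ρ.im < (((⌊ρ.im / δ⌋ : ℤ) : ℝ) + 1) * δ := by
    intro ρ
    constructor
    · have := Int.floor_le (ρ.im / δ)
      rwa [le_div_iff₀ hδ] at this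
    · have := Int.lt_floor_add_one (ρ.im / δ)
      rwa [div_lt_iff₀ hδ] at this
  have hK : ∀ k ∈ K, A ≤ ((k : ℝ) + 1) * δ ∧ (k : ℝ) * δ ≤ B := by
    intro k hk
    rw [hKdef, Finset.mem_image] at hk
    obtain ⟨ρ, hρ, rfl⟩ := hk
    obtain ⟨-, -, -, h4, h5⟩ := hZ ρ hρ
    obtain ⟨h6, h7⟩ := hfl ρ
    exact ⟨by linarith, by linarith⟩
  have hsum : ∑ ρ ∈ Z, ENNReal.ofReal (‖deriv f ρ‖ ^ q) =
      ∑ k ∈ K, ∑ ρ ∈ Z.filter (fun ρ => ⌊ρ.im / δ⌋ = k), ENNReal.ofReal (‖deriv f ρ‖ ^ q) := by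
    rw [Finset.sum_fiberwise_of_maps_to]
    intro ρ hρ
    exact Finset.mem_image_of_mem _ hρ
  have hfib : ∀ k ∈ K, ∑ ρ ∈ Z.filter (fun ρ => ⌊ρ.im / δ⌋ = k), ENNReal.ofReal (‖deriv f ρ‖ ^ q) ≤
      ENNReal.ofReal (C * δ ^ (-q - 2)) * ∫⁻ x in Set.Icc (σ0 - 3 * δ) (σ0 + 4 * δ),
        ∫⁻ y in Set.Icc (((k : ℝ) - 5 / 2) * δ) (((k : ℝ) + 7 / 2) * δ), g x y := by
    intro k hk
    obtain ⟨hkA, hkB⟩ := hK k hk
    set c : ℂ := ⟨σ0 + δ / 2, ((k : ℝ) + 1 / 2) * δ⟩ with hc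
    have hkpos : 0 < ((k : ℝ) - 5 / 2) * δ := by nlinarith
    have h1 := hC f c δ (Z.filter (fun ρ => ⌊ρ.im / δ⌋ = k)) hδ
      (by
        intro z _ hz
        apply hf
        have h2 := (abs_le.1 hz).1
        simp only [hc] at h2
        nlinarith)
      (by
        intro ρ hρ
        rw [Finset.mem_filter] at hρ
        obtain ⟨h3, h4⟩ := hρ
        obtain ⟨h5, h6, h7, h8, h9⟩ := hZ ρ h3
        obtain ⟨h10, h11⟩ := hfl ρ
        rw [h4] at h10 h11
        refine ⟨?_, h5⟩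
        have h12 := Complex.norm_le_abs_re_add_abs_im (ρ - c)
        have h13 : |(ρ - c).re| ≤ δ / 2 := by
          rw [Complex.sub_re, abs_le]
          simp only [hc]
          constructor <;> linarith
        have h14 : |(ρ - c).im| ≤ δ / 2 := by
          rw [Complex.sub_im, abs_le]
          simp only [hc]
          constructor <;> nlinarith
        linarith)
    refine h1.trans ?_
    gcongr ENNReal.ofReal (C * δ ^ (-q - 2)) * ?_
    have e1 : c.im - 3 * δ = ((k : ℝ) - 5 / 2) * δ := by simp only [hc]; ring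
    have e2 : c.im + 3 * δ = ((k : ℝ) + 7 / 2) * δ := by simp only [hc]; ring
    rw [e1, e2]
    have e3 : Set.Icc (c.re - 3 * δ) (c.re + 3 * δ) ⊆ Set.Icc (σ0 - 3 * δ) (σ0 + 4 * δ) := by
      apply Set.Icc_subset_Icc
      · simp only [hc]; linarith
      · simp only [hc]; linarith
    refine (lintegral_mono_set e3).trans (le_of_eq ?_)
    refine lintegral_congr fun x => ?_
    exact hgx x _ _ hkpos
  rw [hsum]
  refine (Finset.sum_le_sum hfib).trans ?_
  rw [← Finset.mul_sum]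
  refine (mul_le_mul_right (key g hgm _ δ A B hδ K hK) _).trans (le_of_eq ?_)
  have h7 : ENNReal.ofReal (7 * C * δ ^ (-q - 2)) = ENNReal.ofReal (C * δ ^ (-q - 2)) * 7 := by
    rw [mul_assoc, ENNReal.ofReal_mul (by norm_num), mul_comm]
    norm_num
  rw [h7, mul_assoc]
  congr 2
  refine lintegral_congr fun x => ?_
  exact (hgx x _ _ (by linarith)).symm


end Pool.Agent.UH
end
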