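import Pool.Agent.Lib.MP_69b2e4_nt.UV.Defs
import Pool.Agent.Lib.MP_69b2e4_nt.Mg.G038
import Pool.Agent.Lib.MP_69b2e4_nt.Mg.G040
import Pool.Agent.Lib.MP_69b2e4_nt.Mg.G043
import Pool.Agent.Lib.MP_69b2e4_nt.Mg.G037
import Pool.Agent.Lib.MP_69b2e4_nt.Mg.G004
import Pool.Agent.Lib.MP_69b2e4_nt.Mg.G002

section

/-! TASK R1. The one-prime expectation. (COPY UH/R1.lean and add the factor `(1 - d x)⁻¹` and the complex number `c`.)
The integrand is `‖F(x)‖²` with `F(z) = (1 - u z)⁻¹ (1 - b z) (1 - d z)⁻¹ e^{al c z}`, holomorphic near the closed unit disc (`u, ‖d‖ ≤ 3/4`), `F(0) = 1`, `F'(0) = f₁ = u - b + d + al c`. On `‖z‖ = 1`: `(1-uz)⁻¹ = 1 + uz + r₁`, `‖r₁‖ ≤ 4u²`; `(1-dz)⁻¹ = 1 + dz + r₂`, `‖r₂‖ ≤ 4u²`;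
`e^{al c z} = 1 + al c z + r₃`, `‖r₃‖ ≤ ‖c‖² e^{‖c‖} ≤ 16 u² e³ ≤ 400 u²` (`‖c‖ ≤ 4u ≤ 3`); `‖b‖ ≤ u ≤ 1`. Multiplying out, `F(z) - 1 - f₁ z` is a sum of products each of size `≤ K u²` with an absolute `K`. Apply the lemma of UH/R1.lean (`op2_split`):
`∫ ‖F‖² ≤ 1 + ‖f₁‖² + K² u⁴ ≤ exp(‖f₁‖² + K² u⁴)`. Note `‖e^{al c x}‖² = exp(2 Re(al c x))`. -/

set_option autoImplicit false

namespace Pool.Agent.UV

open Complex MeasureTheory Finset Pool.Agent.GH
open scoped Real ComplexConjugate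

private theorem R1_mv {f : ℂ → ℂ} (hf : DifferentiableOn ℂ f (Metric.closedBall 0 1)) :
    ∫ x : UnitAddCircle, f (AddCircle.toCircle x : ℂ)
      ∂(AddCircle.haarAddCircle : Measure UnitAddCircle) = f 0 := by
  have hd : DiffContOnCl ℂ f (Metric.ball 0 |(1 : ℝ)|) := by
    apply DifferentiableOn.diffContOnCl
    rw [abs_one, closure_ball _ one_ne_zero]
    exact hf
  have h1 := hd.circleAverage
  rw [Real.circleAverage_def] at h1
  rw [AddCircle.integral_haarAddCircle, ← UnitAddCircle.intervalIntegral_preimage 0]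
  rw [← h1]
  have h2 : ∀ a : ℝ, f ((AddCircle.toCircle (a : UnitAddCircle) : Circle) : ℂ) =
      f (circleMap 0 1 (2 * π * a)) := by
    intro a
    rw [AddCircle.toCircle_apply_mk, Circle.coe_exp, circleMap]
    congr 1
    rw [div_one]
    push_cast
    ring
  simp_rw [h2]
  rw [intervalIntegral.integral_comp_mul_left (fun θ => f (circleMap 0 1 θ)) (by positivity)]
  simp

private theorem R1_cont : Continuous fun x : UnitAddCircle => (AddCircle.toCircle x : ℂ) :=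
  continuous_subtype_val.comp AddCircle.continuous_toCircle

private theorem R1_int {f : UnitAddCircle → ℂ} (hf : Continuous f) :
    Integrable f (AddCircle.haarAddCircle : Measure UnitAddCircle) :=
  hf.integrable_of_hasCompactSupport (HasCompactSupport.of_compactSpace f)

private theorem R1_norm (x : UnitAddCircle) : ‖(AddCircle.toCircle x : ℂ)‖ = 1 := Circle.norm_coe _

private theorem R1_der {f : ℂ → ℂ} {f' : ℂ} (hf : DifferentiableOn ℂ f (Metric.closedBall 0 1))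
    (h0 : f 0 = 0) (hd : HasDerivAt f f' 0) :
    ∫ x : UnitAddCircle, f (AddCircle.toCircle x : ℂ) * conj (AddCircle.toCircle x : ℂ)
      ∂(AddCircle.haarAddCircle : Measure UnitAddCircle) = f' := by
  have h1 : DifferentiableOn ℂ (dslope f 0) (Metric.closedBall 0 1) :=
    (Complex.differentiableOn_dslope (Metric.closedBall_mem_nhds 0 one_pos)).2 hf
  have h2 := R1_mv h1
  rw [dslope_same, hd.deriv] at h2
  rw [← h2]
  refine integral_congr_ae (Filter.Eventually.of_forall fun x => ?_)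
  have hne : (AddCircle.toCircle x : ℂ) ≠ 0 := by
    intro h
    have := R1_norm x
    rw [h, norm_zero] at this
    exact zero_ne_one this
  have hc : conj (AddCircle.toCircle x : ℂ) = (AddCircle.toCircle x : ℂ)⁻¹ := by
    rw [Complex.inv_def, Complex.normSq_eq_norm_sq, R1_norm]
    simp
  change f (AddCircle.toCircle x : ℂ) * conj (AddCircle.toCircle x : ℂ) = dslope f 0 _
  rw [dslope_of_ne _ hne, slope_def_field, h0, hc, sub_zero, sub_zero, div_eq_mul_inv]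

private theorem R1_split (F G : ℂ → ℂ) (a d : ℂ)
    (hF : DifferentiableOn ℂ F (Metric.closedBall 0 1))
    (hG : DifferentiableOn ℂ G (Metric.closedBall 0 1)) (hF0 : F 0 = 1) (hG0 : G 0 = 1)
    (hF' : HasDerivAt F a 0) (hG' : HasDerivAt G d 0) {B1 B2 : ℝ} (hB1 : 0 ≤ B1)
    (hFb : ∀ z : ℂ, ‖z‖ = 1 → ‖F z - 1 - a * z‖ ≤ B1)
    (hGb : ∀ z : ℂ, ‖z‖ = 1 → ‖G z - 1 - d * z‖ ≤ B2) :
    ‖(∫ x : UnitAddCircle, F (AddCircle.toCircle x : ℂ) * conj (G (AddCircle.toCircle x : ℂ))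
      ∂(AddCircle.haarAddCircle : Measure UnitAddCircle)) - 1 - a * conj d‖ ≤ B1 * B2 := by
  have hmaps : ∀ x : UnitAddCircle, (AddCircle.toCircle x : ℂ) ∈ Metric.closedBall (0 : ℂ) 1 := by
    intro x
    rw [mem_closedBall_zero_iff, R1_norm]
  have hcomp : ∀ {H : ℂ → ℂ}, DifferentiableOn ℂ H (Metric.closedBall 0 1) →
      Continuous fun x : UnitAddCircle => H (AddCircle.toCircle x : ℂ) := fun hH =>
    hH.continuousOn.comp_continuous R1_cont hmaps
  have hR : DifferentiableOn ℂ (fun z => F z - 1 - a * z) (Metric.closedBall 0 1) :=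
    (hF.sub (differentiableOn_const _)).sub (differentiableOn_id.const_mul a)
  have hS : DifferentiableOn ℂ (fun z => G z - 1 - d * z) (Metric.closedBall 0 1) :=
    (hG.sub (differentiableOn_const _)).sub (differentiableOn_id.const_mul d)
  have hR0 : (fun z => F z - 1 - a * z) 0 = 0 := by simp [hF0]
  have hS0 : (fun z => G z - 1 - d * z) 0 = 0 := by simp [hG0]
  have hR' : HasDerivAt (fun z => F z - 1 - a * z) 0 0 := by
    have h := (hF'.sub_const 1).sub ((hasDerivAt_id (0 : ℂ)).const_mul a)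
    rw [mul_one, sub_self] at h
    exact h
  have hS' : HasDerivAt (fun z => G z - 1 - d * z) 0 0 := by
    have h := (hG'.sub_const 1).sub ((hasDerivAt_id (0 : ℂ)).const_mul d)
    rw [mul_one, sub_self] at h
    exact h
  have eR0 := (R1_mv hR).trans hR0
  have eR1 := R1_der hR hR0 hR'
  have eS0 := (R1_mv hS).trans hS0
  have eS1 := R1_der hS hS0 hS'
  have eX := R1_mv (f := fun z => z) differentiableOn_id
  have cR := hcomp hR
  have cS := hcomp hS
  beta_reduce at eR0 eR1 eS0 eS1 eX cR cS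
  have cX := R1_cont
  -- the conjugate integrals
  have eS0c : ∫ x : UnitAddCircle, conj (G (AddCircle.toCircle x : ℂ) - 1 -
      d * (AddCircle.toCircle x : ℂ)) ∂(AddCircle.haarAddCircle : Measure UnitAddCircle) = 0 := by
    rw [integral_conj, eS0, map_zero]
  have eS1c : ∫ x : UnitAddCircle, (AddCircle.toCircle x : ℂ) *
      conj (G (AddCircle.toCircle x : ℂ) - 1 - d * (AddCircle.toCircle x : ℂ))
      ∂(AddCircle.haarAddCircle : Measure UnitAddCircle) = 0 := by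
    have h : ∀ x : UnitAddCircle, (AddCircle.toCircle x : ℂ) *
      conj (G (AddCircle.toCircle x : ℂ) - 1 - d * (AddCircle.toCircle x : ℂ)) =
      conj ((G (AddCircle.toCircle x : ℂ) - 1 - d * (AddCircle.toCircle x : ℂ)) *
        conj (AddCircle.toCircle x : ℂ)) := by
      intro x
      rw [map_mul, Complex.conj_conj, mul_comm]
    simp_rw [h]
    rw [integral_conj, eS1, map_zero]
  have eXc : ∫ x : UnitAddCircle, conj (AddCircle.toCircle x : ℂ)
      ∂(AddCircle.haarAddCircle : Measure UnitAddCircle) = 0 := by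
    rw [integral_conj, eX, map_zero]
  have hXX : ∀ x : UnitAddCircle, (AddCircle.toCircle x : ℂ) * conj (AddCircle.toCircle x : ℂ) = 1 := by
    intro x
    rw [Complex.mul_conj, Complex.normSq_eq_norm_sq, R1_norm]
    simp
  obtain ⟨k, hk⟩ : ∃ k : ℂ, k = 1 + a * conj d := ⟨_, rfl⟩
  have hexp : ∀ x : UnitAddCircle, F (AddCircle.toCircle x : ℂ) *
      conj (G (AddCircle.toCircle x : ℂ)) =
      k + (a * (AddCircle.toCircle x : ℂ) + (conj d * conj (AddCircle.toCircle x : ℂ) +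
      (conj (G (AddCircle.toCircle x : ℂ) - 1 - d * (AddCircle.toCircle x : ℂ)) +
      (a * ((AddCircle.toCircle x : ℂ) *
        conj (G (AddCircle.toCircle x : ℂ) - 1 - d * (AddCircle.toCircle x : ℂ))) +
      ((F (AddCircle.toCircle x : ℂ) - 1 - a * (AddCircle.toCircle x : ℂ)) +
      (conj d * ((F (AddCircle.toCircle x : ℂ) - 1 - a * (AddCircle.toCircle x : ℂ)) *
        conj (AddCircle.toCircle x : ℂ)) +
      (F (AddCircle.toCircle x : ℂ) - 1 - a * (AddCircle.toCircle x : ℂ)) *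
        conj (G (AddCircle.toCircle x : ℂ) - 1 - d * (AddCircle.toCircle x : ℂ)))))))) := by
    intro x
    simp only [map_sub, map_mul, map_one]
    rw [hk]
    linear_combination (a * conj d) * hXX x
  have hprob : ∫ _x : UnitAddCircle, k
      ∂(AddCircle.haarAddCircle : Measure UnitAddCircle) = k := by
    simp
  have hmain : (∫ x : UnitAddCircle, F (AddCircle.toCircle x : ℂ) *
      conj (G (AddCircle.toCircle x : ℂ)) ∂(AddCircle.haarAddCircle : Measure UnitAddCircle)) =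
      k + ∫ x : UnitAddCircle,
        (F (AddCircle.toCircle x : ℂ) - 1 - a * (AddCircle.toCircle x : ℂ)) *
        conj (G (AddCircle.toCircle x : ℂ) - 1 - d * (AddCircle.toCircle x : ℂ))
        ∂(AddCircle.haarAddCircle : Measure UnitAddCircle) := by
    simp_rw [hexp]
    have c1 : Continuous fun x : UnitAddCircle => conj (AddCircle.toCircle x : ℂ) :=
      Complex.continuous_conj.comp cX
    have c2 : Continuous fun x : UnitAddCircle => conj (G (AddCircle.toCircle x : ℂ) - 1 -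
      d * (AddCircle.toCircle x : ℂ)) := Complex.continuous_conj.comp cS
    rw [integral_add (by fun_prop) (R1_int (by fun_prop)),
      integral_add (R1_int (by fun_prop)) (R1_int (by fun_prop)),
      integral_add (R1_int (by fun_prop)) (R1_int (by fun_prop)),
      integral_add (R1_int (by fun_prop)) (R1_int (by fun_prop)),
      integral_add (R1_int (by fun_prop)) (R1_int (by fun_prop)),
      integral_add (R1_int (by fun_prop)) (R1_int (by fun_prop)),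
      integral_add (R1_int (by fun_prop)) (R1_int (by fun_prop)),
      integral_const_mul, integral_const_mul, integral_const_mul, integral_const_mul,
      hprob, eX, eXc, eS0c, eS1c, eR0, eR1]
    simp
  rw [hmain]
  have h1 : ∀ z : ℂ, k + z - 1 - a * conj d = z := fun z => by rw [hk]; ring
  rw [h1]
  have hb : ∀ x : UnitAddCircle,
      ‖(F (AddCircle.toCircle x : ℂ) - 1 - a * (AddCircle.toCircle x : ℂ)) *
        conj (G (AddCircle.toCircle x : ℂ) - 1 - d * (AddCircle.toCircle x : ℂ))‖ ≤ B1 * B2 := by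
    intro x
    rw [norm_mul, RCLike.norm_conj]
    exact mul_le_mul (hFb _ (R1_norm x)) (hGb _ (R1_norm x)) (norm_nonneg _) hB1
  have h2 := norm_integral_le_of_norm_le_const (μ := (AddCircle.haarAddCircle :
    Measure UnitAddCircle)) (Filter.Eventually.of_forall hb)
  simpa using h2

theorem one_prime4 : ∃ C : ℝ, 0 ≤ C ∧ ∀ (u al : ℝ) (b d c : ℂ), 0 ≤ u → u ≤ 3 / 4 → |al| ≤ 1 →
    ‖b‖ ≤ u → ‖d‖ ≤ u → ‖c‖ ≤ 4 * u →
    ∫ x : UnitAddCircle, ‖(1 - (u : ℂ) * (AddCircle.toCircle x : ℂ))⁻¹‖ ^ 2 *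
      ‖1 - b * (AddCircle.toCircle x : ℂ)‖ ^ 2 *
      ‖(1 - d * (AddCircle.toCircle x : ℂ))⁻¹‖ ^ 2 *
      Real.exp (2 * (al * (c * (AddCircle.toCircle x : ℂ)).re))
      ∂(AddCircle.haarAddCircle : Measure UnitAddCircle) ≤
    Real.exp (‖(u : ℂ) - b + d + al * c‖ ^ 2 + C * u ^ 4) := by
  refine ⟨3728 ^ 2, by norm_num, ?_⟩
  intro u al b d c0 hu0 hu1 hal hb hd hc0
  have hq : ∀ (w z : ℂ), ‖w‖ ≤ 3 / 4 → ‖z‖ ≤ 1 → (1 / 4 : ℝ) ≤ ‖1 - w * z‖ := by
    intro w z hw hz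
    have h1 : ‖w * z‖ ≤ 3 / 4 := by
      rw [norm_mul]
      calc ‖w‖ * ‖z‖ ≤ 3 / 4 * 1 := mul_le_mul hw hz (norm_nonneg _) (by norm_num)
        _ = 3 / 4 := mul_one _
    have h2 := norm_sub_norm_le (1 : ℂ) (w * z)
    rw [norm_one] at h2
    linarith
  have hun : ‖(u : ℂ)‖ = u := by rw [Complex.norm_real, Real.norm_of_nonneg hu0]
  have hu34 : ‖(u : ℂ)‖ ≤ 3 / 4 := by rw [hun]; exact hu1
  have hd34 : ‖d‖ ≤ 3 / 4 := hd.trans hu1
  have hne : ∀ z : ℂ, ‖z‖ ≤ 1 → 1 - (u : ℂ) * z ≠ 0 := by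
    intro z hz h
    have := hq _ z hu34 hz
    rw [h, norm_zero] at this
    norm_num at this
  have hned : ∀ z : ℂ, ‖z‖ ≤ 1 → 1 - d * z ≠ 0 := by
    intro z hz h
    have := hq _ z hd34 hz
    rw [h, norm_zero] at this
    norm_num at this
  -- the exponent
  obtain ⟨c, hc⟩ : ∃ c : ℂ, c = al * c0 := ⟨_, rfl⟩
  have hcn : ‖c‖ ≤ 4 * u := by
    rw [hc, norm_mul, Complex.norm_real, Real.norm_eq_abs]
    calc |al| * ‖c0‖ ≤ 1 * (4 * u) := mul_le_mul hal hc0 (norm_nonneg _) (by norm_num)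
      _ = 4 * u := one_mul _
  obtain ⟨f, hf⟩ : ∃ f : ℂ, f = (u : ℂ) - b + d + al * c0 := ⟨_, rfl⟩
  have hf2 : f = (u : ℂ) - b + d + c := by
    rw [hf, hc]
  have hdiff : DifferentiableOn ℂ
      (fun z : ℂ => (1 - (u : ℂ) * z)⁻¹ * (1 - b * z) * (1 - d * z)⁻¹ * cexp (c * z))
      (Metric.closedBall 0 1) := by
    intro z hz
    rw [mem_closedBall_zero_iff] at hz
    have := hne z hz
    have h2 := hned z hz
    have h1 : DifferentiableAt ℂ
        (fun z : ℂ => (1 - (u : ℂ) * z)⁻¹ * (1 - b * z) * (1 - d * z)⁻¹ * cexp (c * z)) z := by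
      fun_prop (disch := assumption)
    exact h1.differentiableWithinAt
  have hder : HasDerivAt
      (fun z : ℂ => (1 - (u : ℂ) * z)⁻¹ * (1 - b * z) * (1 - d * z)⁻¹ * cexp (c * z)) f 0 := by
    have hlin : ∀ w : ℂ, HasDerivAt (fun z : ℂ => 1 - w * z) (-w) 0 := by
      intro w
      have h := ((hasDerivAt_id (0 : ℂ)).const_mul w).const_sub 1
      rw [mul_one] at h
      exact h
    have h1 := hlin (u : ℂ)
    have h1b := hlin b
    have h1d := hlin d
    have h2 := h1.inv (by simp)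
    have h2d := h1d.inv (by simp)
    have h3 : HasDerivAt (fun z : ℂ => cexp (c * z)) (cexp (c * 0) * (c * 1)) 0 :=
      ((hasDerivAt_id (0 : ℂ)).const_mul (c : ℂ)).cexp
    have h4 := ((h2.mul h1b).mul h2d).mul h3
    have h5 : ((-(-(u : ℂ)) / (1 - (u : ℂ) * 0) ^ 2 * (1 - b * 0) + (1 - (u : ℂ) * 0)⁻¹ * (-b)) *
        (1 - d * 0)⁻¹ + ((1 - (u : ℂ) * 0)⁻¹ * (1 - b * 0)) * (-(-d) / (1 - d * 0) ^ 2)) *
        cexp (c * 0) + ((1 - (u : ℂ) * 0)⁻¹ * (1 - b * 0) * (1 - d * 0)⁻¹) *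
          (cexp (c * 0) * (c * 1)) = f := by
      rw [hf2]
      simp
      ring
    rw [← h5]
    exact h4
  have hbd : ∀ z : ℂ, ‖z‖ = 1 →
      ‖(fun z : ℂ => (1 - (u : ℂ) * z)⁻¹ * (1 - b * z) * (1 - d * z)⁻¹ * cexp (c * z)) z - 1 -
        f * z‖ ≤ 3728 * u ^ 2 := by
    intro z hz
    have hz1 : ‖z‖ ≤ 1 := hz.le
    have hnz := hne z hz1
    have hnd := hned z hz1
    have huz : ‖(u : ℂ) * z‖ = u := by
      rw [norm_mul, hz, mul_one, hun]
    have hcz : ‖(c : ℂ) * z‖ ≤ 4 * u := by rw [norm_mul, hz, mul_one]; exact hcn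
    have hbz : ‖b * z‖ ≤ u := by rw [norm_mul, hz, mul_one]; exact hb
    have hdz : ‖d * z‖ ≤ u := by rw [norm_mul, hz, mul_one]; exact hd
    obtain ⟨A, hA⟩ : ∃ A : ℂ, A = (1 - (u : ℂ) * z)⁻¹ := ⟨_, rfl⟩
    obtain ⟨D, hD⟩ : ∃ D : ℂ, D = (1 - d * z)⁻¹ := ⟨_, rfl⟩
    obtain ⟨E, hE0⟩ : ∃ E : ℂ, E = cexp (c * z) := ⟨_, rfl⟩
    have hA1 : A * (1 - (u : ℂ) * z) = 1 := by rw [hA]; exact inv_mul_cancel₀ hnz
    have hD1 : D * (1 - d * z) = 1 := by rw [hD]; exact inv_mul_cancel₀ hnd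
    have hA2 : A = 1 + (u : ℂ) * z + ((u : ℂ) * z) ^ 2 * A := by
      linear_combination (1 + (u : ℂ) * z) * hA1
    have hD2 : D = 1 + d * z + (d * z) ^ 2 * D := by
      linear_combination (1 + d * z) * hD1
    have e1 : (fun z : ℂ => (1 - (u : ℂ) * z)⁻¹ * (1 - b * z) * (1 - d * z)⁻¹ * cexp (c * z)) z -
          1 - f * z =
        ((u : ℂ) * z) ^ 2 * A * (1 - b * z) * D * E +
        (1 + (u : ℂ) * z) * (1 - b * z) * ((d * z) ^ 2 * D) * E +
        (1 + (u : ℂ) * z) * (1 - b * z) * (1 + d * z) * (E - 1 - c * z) +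
        ((u * (-b) + u * d + u * c + (-b) * d + (-b) * c + d * c) * z ^ 2 +
          (u * (-b) * d + u * (-b) * c + u * d * c + (-b) * d * c) * z ^ 3 +
          u * (-b) * d * c * z ^ 4) := by
      rw [hf2]
      beta_reduce
      rw [← hA, ← hD, ← hE0]
      linear_combination (1 - b * z) * D * E * hA2 + (1 + (u : ℂ) * z) * (1 - b * z) * E * hD2
    rw [e1]
    have h1b : ‖1 - b * z‖ ≤ 2 := by
      refine (norm_sub_le _ _).trans ?_
      rw [norm_one]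
      linarith
    have h1u : ‖1 + (u : ℂ) * z‖ ≤ 2 := by
      refine (norm_add_le _ _).trans ?_
      rw [norm_one, huz]
      linarith
    have h1d : ‖1 + d * z‖ ≤ 2 := by
      refine (norm_add_le _ _).trans ?_
      rw [norm_one]
      linarith
    have hAn : ‖A‖ ≤ 4 := by
      rw [hA, norm_inv]
      have := hq _ z hu34 hz1
      rw [inv_le_comm₀ (lt_of_lt_of_le (by norm_num) this) (by norm_num)]
      exact le_trans (by norm_num) this
    have hDn : ‖D‖ ≤ 4 := by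
      rw [hD, norm_inv]
      have := hq _ z hd34 hz1
      rw [inv_le_comm₀ (lt_of_lt_of_le (by norm_num) this) (by norm_num)]
      exact le_trans (by norm_num) this
    have hcz3 : ‖c * z‖ ≤ 3 := hcz.trans (by linarith)
    have hexp3 : Real.exp ‖c * z‖ ≤ 21 := by
      have h1 : Real.exp ‖c * z‖ ≤ Real.exp 3 := Real.exp_le_exp.2 hcz3
      have h2 : Real.exp 3 = Real.exp 1 ^ 3 := by
        rw [← Real.exp_nat_mul]
        norm_num
      have h3 := Real.exp_one_lt_d9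
      have h4 : Real.exp 1 ^ 3 ≤ 2.7182818286 ^ 3 :=
        pow_le_pow_left₀ (Real.exp_pos 1).le h3.le 3
      have h5 : (2.7182818286 : ℝ) ^ 3 ≤ 21 := by norm_num
      linarith
    have hE : ‖E‖ ≤ 21 := by
      rw [hE0]
      exact (Complex.norm_exp_le_exp_norm _).trans hexp3
    have hE3 : ‖E - 1 - c * z‖ ≤ (4 * u) ^ 2 * 21 := by
      have h := Complex.norm_exp_sub_sum_le_norm_mul_exp (c * z) 2
      have h2 : (∑ m ∈ range 2, (c * z) ^ m / (m.factorial : ℂ)) = 1 + c * z := by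
        simp [Finset.sum_range_succ]
      rw [h2, ← sub_sub, ← hE0] at h
      refine h.trans ?_
      gcongr
    have n1 : ‖((u : ℂ) * z) ^ 2 * A * (1 - b * z) * D * E‖ ≤ u ^ 2 * 4 * 2 * 4 * 21 := by
      rw [norm_mul, norm_mul, norm_mul, norm_mul, norm_pow, huz]
      gcongr
    have n2 : ‖(1 + (u : ℂ) * z) * (1 - b * z) * ((d * z) ^ 2 * D) * E‖ ≤
        2 * 2 * (u ^ 2 * 4) * 21 := by
      rw [norm_mul, norm_mul, norm_mul, norm_mul, norm_pow]
      gcongr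
    have n3 : ‖(1 + (u : ℂ) * z) * (1 - b * z) * (1 + d * z) * (E - 1 - c * z)‖ ≤
        2 * 2 * 2 * ((4 * u) ^ 2 * 21) := by
      rw [norm_mul, norm_mul, norm_mul]
      gcongr
    have hbn : ‖-b‖ ≤ u := by rw [norm_neg]; exact hb
    have hunl : ‖(u : ℂ)‖ ≤ u := hun.le
    have hu1' : u ≤ 1 := by linarith
    have m2 : ∀ {x y : ℂ} {s t : ℝ}, ‖x‖ ≤ s → ‖y‖ ≤ t → 0 ≤ s → ‖x * y‖ ≤ s * t := by
      intro x y s t hx hy hs
      rw [norm_mul]
      exact mul_le_mul hx hy (norm_nonneg _) hs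
    have huu : (0 : ℝ) ≤ u * u := by positivity
    have huuu : (0 : ℝ) ≤ u * u * u := by positivity
    have hu3 : u * u * u ≤ u * u := by
      have := mul_le_mul_of_nonneg_left hu1' huu
      linarith
    have hu4 : u * u * u * u ≤ u * u := by
      have := mul_le_mul_of_nonneg_left hu1' huuu
      linarith
    have k1 : ‖u * (-b) + u * d + u * c + (-b) * d + (-b) * c + d * c‖ ≤ 15 * (u * u) := by
      calc _ ≤ ‖u * (-b)‖ + ‖u * d‖ + ‖u * c‖ + ‖(-b) * d‖ + ‖(-b) * c‖ + ‖d * c‖ := by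
            refine (norm_add_le _ _).trans (add_le_add_left ?_ _)
            refine (norm_add_le _ _).trans (add_le_add_left ?_ _)
            refine (norm_add_le _ _).trans (add_le_add_left ?_ _)
            refine (norm_add_le _ _).trans (add_le_add_left ?_ _)
            exact norm_add_le _ _
        _ ≤ u * u + u * u + u * (4 * u) + u * u + u * (4 * u) + u * (4 * u) :=
            add_le_add (add_le_add (add_le_add (add_le_add (add_le_add (m2 hunl hbn hu0)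
              (m2 hunl hd hu0)) (m2 hunl hcn hu0)) (m2 hbn hd hu0)) (m2 hbn hcn hu0))
              (m2 hd hcn hu0)
        _ = 15 * (u * u) := by ring
    have k2 : ‖u * (-b) * d + u * (-b) * c + u * d * c + (-b) * d * c‖ ≤ 13 * (u * u) := by
      calc _ ≤ ‖u * (-b) * d‖ + ‖u * (-b) * c‖ + ‖u * d * c‖ + ‖(-b) * d * c‖ := by
            refine (norm_add_le _ _).trans (add_le_add_left ?_ _)
            refine (norm_add_le _ _).trans (add_le_add_left ?_ _)
            exact norm_add_le _ _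
        _ ≤ u * u * u + u * u * (4 * u) + u * u * (4 * u) + u * u * (4 * u) :=
            add_le_add (add_le_add (add_le_add (m2 (m2 hunl hbn hu0) hd huu)
              (m2 (m2 hunl hbn hu0) hcn huu)) (m2 (m2 hunl hd hu0) hcn huu))
              (m2 (m2 hbn hd hu0) hcn huu)
        _ = 13 * (u * u * u) := by ring
        _ ≤ 13 * (u * u) := by linarith
    have k3 : ‖u * (-b) * d * c‖ ≤ 4 * (u * u) := by
      refine (m2 (m2 (m2 hunl hbn hu0) hd huu) hcn huuu).trans ?_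
      calc u * u * u * (4 * u) = 4 * (u * u * u * u) := by ring
        _ ≤ 4 * (u * u) := by linarith
    have n4 : ‖(u * (-b) + u * d + u * c + (-b) * d + (-b) * c + d * c) * z ^ 2 +
          (u * (-b) * d + u * (-b) * c + u * d * c + (-b) * d * c) * z ^ 3 +
          u * (-b) * d * c * z ^ 4‖ ≤ 32 * u ^ 2 := by
      refine (norm_add₃_le).trans ?_
      rw [norm_mul _ (z ^ 2), norm_mul _ (z ^ 3), norm_mul _ (z ^ 4), norm_pow, norm_pow, norm_pow,
        hz, one_pow, one_pow, one_pow, mul_one, mul_one, mul_one]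
      calc _ ≤ 15 * (u * u) + 13 * (u * u) + 4 * (u * u) := add_le_add (add_le_add k1 k2) k3
        _ = 32 * u ^ 2 := by ring
    calc _ ≤ ‖((u : ℂ) * z) ^ 2 * A * (1 - b * z) * D * E‖ +
          ‖(1 + (u : ℂ) * z) * (1 - b * z) * ((d * z) ^ 2 * D) * E‖ +
          ‖(1 + (u : ℂ) * z) * (1 - b * z) * (1 + d * z) * (E - 1 - c * z)‖ +
          ‖(u * (-b) + u * d + u * c + (-b) * d + (-b) * c + d * c) * z ^ 2 +
          (u * (-b) * d + u * (-b) * c + u * d * c + (-b) * d * c) * z ^ 3 +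
          u * (-b) * d * c * z ^ 4‖ := by
          refine (norm_add_le _ _).trans (add_le_add_left ?_ _)
          exact norm_add₃_le
      _ ≤ u ^ 2 * 4 * 2 * 4 * 21 + 2 * 2 * (u ^ 2 * 4) * 21 +
          2 * 2 * 2 * ((4 * u) ^ 2 * 21) + 32 * u ^ 2 :=
          add_le_add (add_le_add (add_le_add n1 n2) n3) n4
      _ = 3728 * u ^ 2 := by ring
  have key := R1_split
    (fun z => (1 - (u : ℂ) * z)⁻¹ * (1 - b * z) * (1 - d * z)⁻¹ * cexp (c * z))
    (fun z => (1 - (u : ℂ) * z)⁻¹ * (1 - b * z) * (1 - d * z)⁻¹ * cexp (c * z)) f f hdiff hdiff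
    (by simp) (by simp)
    hder hder (B1 := 3728 * u ^ 2) (B2 := 3728 * u ^ 2) (by positivity) hbd hbd
  have hint : (∫ x : UnitAddCircle,
      (fun z : ℂ => (1 - (u : ℂ) * z)⁻¹ * (1 - b * z) * (1 - d * z)⁻¹ * cexp (c * z))
        (AddCircle.toCircle x : ℂ) *
      conj ((fun z : ℂ => (1 - (u : ℂ) * z)⁻¹ * (1 - b * z) * (1 - d * z)⁻¹ * cexp (c * z))
        (AddCircle.toCircle x : ℂ))
      ∂(AddCircle.haarAddCircle : Measure UnitAddCircle)) =
      ((∫ x : UnitAddCircle, ‖(1 - (u : ℂ) * (AddCircle.toCircle x : ℂ))⁻¹‖ ^ 2 *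
      ‖1 - b * (AddCircle.toCircle x : ℂ)‖ ^ 2 *
      ‖(1 - d * (AddCircle.toCircle x : ℂ))⁻¹‖ ^ 2 *
      Real.exp (2 * (al * (c0 * (AddCircle.toCircle x : ℂ)).re))
      ∂(AddCircle.haarAddCircle : Measure UnitAddCircle) : ℝ) : ℂ) := by
    rw [← integral_complex_ofReal]
    refine integral_congr_ae (Filter.Eventually.of_forall fun x => ?_)
    beta_reduce
    rw [Complex.mul_conj, Complex.normSq_eq_norm_sq, norm_mul, norm_mul, norm_mul, Complex.norm_exp]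
    congr 1
    have e2 : ((c : ℂ) * (AddCircle.toCircle x : ℂ)).re =
        al * (c0 * (AddCircle.toCircle x : ℂ)).re := by
      rw [hc, mul_assoc, Complex.re_ofReal_mul]
    rw [e2, mul_pow, mul_pow, mul_pow, ← Real.exp_nat_mul]
    norm_num
  rw [hint] at key
  have hff : f * conj f = ((‖f‖ ^ 2 : ℝ) : ℂ) := by
    rw [Complex.mul_conj, Complex.normSq_eq_norm_sq]
  rw [hff] at key
  have h1 := (Complex.abs_re_le_norm _).trans key
  have h2 : ∀ I s : ℝ, (((I : ℝ) : ℂ) - 1 - ((s : ℝ) : ℂ)).re = I - 1 - s := by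
    intro I s
    simp
  rw [h2] at h1
  have h3 := (abs_le.1 h1).2
  rw [← hf]
  have h4 := Real.add_one_le_exp (‖f‖ ^ 2 + 3728 ^ 2 * u ^ 4)
  have h5 : 3728 * u ^ 2 * (3728 * u ^ 2) = 3728 ^ 2 * u ^ 4 := by ring
  rw [h5, sub_sub, sub_le_iff_le_add] at h3
  refine h3.trans (le_trans (le_of_eq ?_) h4)
  ring

end Pool.Agent.UV
end

section

/-! TASK OD. The mean square of the theta series on `(x0, X]`: diagonal plus off-diagonal double sum. COPY UH/TB.lean (its lemmas are private) with two changes.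
1. The interval `(1, X]` becomes `(x0, X]`, and `off_sum2` is not used: the double sum stays on the right side (so no hypothesis on the size of `F`, and `T ≥ 1` is enough).
2. The oscillatory integral: `osc` (GH/Osc.lean) is for the lower limit 1: `‖∫_1^X e^{-(c+di)x²} dx‖ ≤ 2 e^{-c}/|d|`. For the lower limit `x0` substitute `x = x0 y` (`intervalIntegral.integral_comp_mul_left` or `mul_integral_comp_mul_left`):
`‖∫_{x0}^X e^{-(c+di)x²} dx‖ = x0 ‖∫_1^{X/x0} e^{-(c x0² + d x0² i) y²} dy‖ ≤ 2 x0 e^{-c x0²}/(|d| x0²) = 2 e^{-c x0²}/(|d| x0)`. -/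

set_option autoImplicit false

namespace Pool.Agent.UV

open Complex MeasureTheory Finset Pool.Agent.GH
open scoped Real ComplexConjugate

private theorem OD_om (T : ℝ) : om T = (Real.sin (1 / T) : ℝ) + (Real.cos (1 / T) : ℝ) * I := by
  unfold om ang
  rw [Complex.exp_mul_I, ← Complex.ofReal_cos, ← Complex.ofReal_sin, Real.cos_pi_div_two_sub,
    Real.sin_pi_div_two_sub]

private theorem OD_norm (T r : ℝ) :
    ‖cexp (-π * ((r : ℝ) : ℂ) * om T)‖ = Real.exp (-π * r * Real.sin (1 / T)) := by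
  rw [Complex.norm_exp, OD_om]
  congr 1
  have h : -(π : ℂ) * ((r : ℝ) : ℂ) * (((Real.sin (1 / T) : ℝ) : ℂ) +
      ((Real.cos (1 / T) : ℝ) : ℂ) * I) =
      ((-π * r * Real.sin (1 / T) : ℝ) : ℂ) + ((-π * r * Real.cos (1 / T) : ℝ) : ℂ) * I := by
    push_cast; ring
  rw [h]
  simp only [Complex.add_re, Complex.ofReal_re, Complex.mul_re, Complex.I_re, Complex.ofReal_im,
    Complex.I_im]
  ring

private theorem OD_prod (T u u' x : ℝ) :
    cexp (-π * ((u * x) ^ 2 : ℝ) * om T) * conj (cexp (-π * ((u' * x) ^ 2 : ℝ) * om T)) =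
    cexp (-(((π * (u ^ 2 + u' ^ 2) * Real.sin (1 / T) : ℝ) : ℂ) +
      ((π * (u ^ 2 - u' ^ 2) * Real.cos (1 / T) : ℝ) : ℂ) * I) * (x ^ 2 : ℝ)) := by
  rw [← Complex.exp_conj, ← Complex.exp_add, OD_om]
  congr 1
  simp only [map_mul, map_neg, map_add, Complex.conj_ofReal, Complex.conj_I]
  push_cast
  ring

open Classical in
private noncomputable def OD_a (M : ℕ) (F : Finset (ℕ × ℕ)) (w : ℕ × ℕ → ℂ) (k : ℚ × ℕ) : ℂ :=
  if Rough M k.2 then cs M F w k.1 else 0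

private noncomputable def OD_u (k : ℚ × ℕ) : ℝ := (k.1 : ℝ) * k.2

private noncomputable def OD_f (T : ℝ) (M : ℕ) (F : Finset (ℕ × ℕ)) (w : ℕ × ℕ → ℂ) (k : ℚ × ℕ)
    (x : ℝ) : ℂ :=
  OD_a M F w k * cexp (-π * ((OD_u k * x) ^ 2 : ℝ) * om T)

private theorem OD_cont (T : ℝ) (M : ℕ) (F : Finset (ℕ × ℕ)) (w : ℕ × ℕ → ℂ) (k : ℚ × ℕ) :
    Continuous (OD_f T M F w k) := by
  unfold OD_f
  fun_prop

/-- `osc` of GH/Osc.lean for the lower limit `x0` -/
private theorem OD_osc {c d x0 X : ℝ} (hc : 0 ≤ c) (hd : d ≠ 0) (hx0 : 0 < x0) (hX : x0 ≤ X) :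
    ‖∫ x in x0..X, cexp (-(c + d * I) * (x ^ 2 : ℝ))‖ ≤ 2 * Real.exp (-(c * x0 ^ 2)) / (|d| * x0) := by
  have h1 := intervalIntegral.smul_integral_comp_mul_left (a := 1) (b := X / x0)
    (fun x : ℝ => cexp (-(c + d * I) * (x ^ 2 : ℝ))) x0
  have e1 : x0 * (X / x0) = X := mul_div_cancel₀ X hx0.ne'
  rw [mul_one, e1] at h1
  have e2 : ∀ x : ℝ, cexp (-(c + d * I) * (((x0 * x) ^ 2 : ℝ) : ℂ)) =
      cexp (-(((c * x0 ^ 2 : ℝ) : ℂ) + ((d * x0 ^ 2 : ℝ) : ℂ) * I) * ((x ^ 2 : ℝ) : ℂ)) := by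
    intro x
    congr 1
    push_cast
    ring
  have hX1 : 1 ≤ X / x0 := by
    rw [one_le_div hx0]
    exact hX
  have h2 := osc (c := c * x0 ^ 2) (d := d * x0 ^ 2) (X := X / x0) (by positivity)
    (mul_ne_zero hd (pow_ne_zero 2 hx0.ne')) hX1
  simp_rw [e2] at h1
  rw [← h1, norm_smul, Real.norm_of_nonneg hx0.le]
  refine (mul_le_mul_of_nonneg_left h2 hx0.le).trans (le_of_eq ?_)
  rw [abs_mul, abs_of_pos (pow_pos hx0 2)]
  have hd' : |d| ≠ 0 := abs_ne_zero.2 hd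
  field_simp

/-- the off-diagonal term -/
private theorem OD_term {T : ℝ} (hT : 1 ≤ T) {M : ℕ} {F : Finset (ℕ × ℕ)} {w : ℕ × ℕ → ℂ} {x0 X : ℝ}
    (hx0 : 0 < x0) (hX : x0 ≤ X)
    (hF : ∀ q ∈ F, q.1 ∈ Nat.smoothNumbers M ∧ q.2 ∈ Nat.smoothNumbers M) {k k' : ℚ × ℕ}
    (hk : k ≠ k') (ha : OD_a M F w k ≠ 0) (ha' : OD_a M F w k' ≠ 0) :
    (Rough M k.2 ∧ Rough M k'.2 ∧ k.1 * k.2 ≠ k'.1 * k'.2) ∧
    ‖∫ x in x0..X, OD_f T M F w k x * conj (OD_f T M F w k' x)‖ ≤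
      ‖cs M F w k.1‖ * ‖cs M F w k'.1‖ *
        (2 * Real.exp (-π * (((k.1 : ℝ) * k.2) ^ 2 + ((k'.1 : ℝ) * k'.2) ^ 2) * x0 ^ 2 *
            Real.sin (1 / T)) /
          (π * |((k.1 : ℝ) * k.2) ^ 2 - ((k'.1 : ℝ) * k'.2) ^ 2| * x0 * Real.cos (1 / T))) := by
  have hr : Rough M k.2 := by
    by_contra h; exact ha (by simp [OD_a, h])
  have hr' : Rough M k'.2 := by
    by_contra h; exact ha' (by simp [OD_a, h])
  have hae : OD_a M F w k = cs M F w k.1 := by simp [OD_a, hr]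
  have hae' : OD_a M F w k' = cs M F w k'.1 := by simp [OD_a, hr']
  rw [hae] at ha
  rw [hae'] at ha'
  have hne : k.1 * k.2 ≠ k'.1 * k'.2 := by
    intro he
    obtain ⟨h1, h2⟩ := cs_inj hF ha ha' hr hr' he
    exact hk (Prod.ext h1 h2)
  refine ⟨⟨hr, hr', hne⟩, ?_⟩
  have hpos : (0 : ℝ) < (k.1 : ℝ) * k.2 := by
    have h1 := (cs_pos hF ha).1
    have h2 : 0 < k.2 := Nat.pos_of_ne_zero hr.1
    have h3 : (0 : ℝ) < (k.1 : ℝ) := by exact_mod_cast h1
    have h4 : (0 : ℝ) < (k.2 : ℝ) := by exact_mod_cast h2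
    positivity
  have hpos' : (0 : ℝ) < (k'.1 : ℝ) * k'.2 := by
    have h1 := (cs_pos hF ha').1
    have h2 : 0 < k'.2 := Nat.pos_of_ne_zero hr'.1
    have h3 : (0 : ℝ) < (k'.1 : ℝ) := by exact_mod_cast h1
    have h4 : (0 : ℝ) < (k'.2 : ℝ) := by exact_mod_cast h2
    positivity
  have hne' : (k.1 : ℝ) * k.2 ≠ (k'.1 : ℝ) * k'.2 := by
    intro h; exact hne (by exact_mod_cast h)
  have hsq : ((k.1 : ℝ) * k.2) ^ 2 - ((k'.1 : ℝ) * k'.2) ^ 2 ≠ 0 := by
    intro h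
    apply hne'
    have : ((k.1 : ℝ) * k.2) ^ 2 = ((k'.1 : ℝ) * k'.2) ^ 2 := by linarith
    exact (pow_left_inj₀ hpos.le hpos'.le two_ne_zero).mp this
  have hT0 : 0 < T := by linarith
  have h1T : 0 < 1 / T := by positivity
  have h1T1 : 1 / T ≤ 1 := by rw [div_le_one hT0]; exact hT
  have hpi := Real.pi_gt_three
  have hcos : 0 < Real.cos (1 / T) := Real.cos_pos_of_mem_Ioo ⟨by linarith, by linarith⟩
  have hsin : 0 ≤ Real.sin (1 / T) := Real.sin_nonneg_of_nonneg_of_le_pi h1T.le (by linarith)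
  have hint : ∀ x : ℝ, OD_f T M F w k x * conj (OD_f T M F w k' x) =
      (cs M F w k.1 * conj (cs M F w k'.1)) *
        cexp (-(((π * (((k.1 : ℝ) * k.2) ^ 2 + ((k'.1 : ℝ) * k'.2) ^ 2) * Real.sin (1 / T) : ℝ) : ℂ) +
      ((π * (((k.1 : ℝ) * k.2) ^ 2 - ((k'.1 : ℝ) * k'.2) ^ 2) * Real.cos (1 / T) : ℝ) : ℂ) * I) *
        (x ^ 2 : ℝ)) := by
    intro x
    rw [← OD_prod T ((k.1 : ℝ) * k.2) ((k'.1 : ℝ) * k'.2) x]
    unfold OD_f OD_u
    rw [hae, hae', map_mul]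
    ring
  simp_rw [hint]
  rw [intervalIntegral.integral_const_mul, norm_mul, norm_mul, RCLike.norm_conj]
  refine mul_le_mul_of_nonneg_left ?_ (by positivity)
  have h := OD_osc (c := π * (((k.1 : ℝ) * k.2) ^ 2 + ((k'.1 : ℝ) * k'.2) ^ 2) * Real.sin (1 / T))
    (d := π * (((k.1 : ℝ) * k.2) ^ 2 - ((k'.1 : ℝ) * k'.2) ^ 2) * Real.cos (1 / T)) (X := X)
    (by positivity) (by
      refine mul_ne_zero (mul_ne_zero Real.pi_ne_zero hsq) hcos.ne') hx0 hX
  refine h.trans (le_of_eq ?_)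
  rw [abs_mul, abs_mul, abs_of_pos Real.pi_pos, abs_of_pos hcos]
  congr 1
  · congr 2
    ring
  · ring

open Classical in
theorem off_diag4 (T x0 X : ℝ) (M : ℕ) (F : Finset (ℕ × ℕ)) (w : ℕ × ℕ → ℂ) (hT : 1 ≤ T)
    (hx0 : 0 < x0) (hX : x0 ≤ X)
    (hF : ∀ q ∈ F, q.1 ∈ Nat.smoothNumbers M ∧ q.2 ∈ Nat.smoothNumbers M) :
    ∫⁻ x in Set.Ioc x0 X, ENNReal.ofReal (‖SS T F w x‖ ^ 2) ≤
      (∑' k : ℚ × ℕ, if Rough M k.2 then ENNReal.ofReal (‖cs M F w k.1‖ ^ 2) *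
        ∫⁻ x in Set.Ioc x0 X, ENNReal.ofReal
          (Real.exp (-2 * π * ((k.1 : ℝ) * k.2 * x) ^ 2 * Real.sin (1 / T))) else 0) +
      ∑' k : ℚ × ℕ, ∑' k' : ℚ × ℕ, (if Rough M k.2 ∧ Rough M k'.2 ∧ k.1 * k.2 ≠ k'.1 * k'.2 then
      ENNReal.ofReal (‖cs M F w k.1‖ * ‖cs M F w k'.1‖ *
        (2 * Real.exp (-π * (((k.1 : ℝ) * k.2) ^ 2 + ((k'.1 : ℝ) * k'.2) ^ 2) * x0 ^ 2 *
            Real.sin (1 / T)) /
          (π * |((k.1 : ℝ) * k.2) ^ 2 - ((k'.1 : ℝ) * k'.2) ^ 2| * x0 * Real.cos (1 / T)))) else 0) := by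
  set off : ℚ × ℕ → ℚ × ℕ → ENNReal := fun k k' =>
    (if Rough M k.2 ∧ Rough M k'.2 ∧ k.1 * k.2 ≠ k'.1 * k'.2 then
      ENNReal.ofReal (‖cs M F w k.1‖ * ‖cs M F w k'.1‖ *
        (2 * Real.exp (-π * (((k.1 : ℝ) * k.2) ^ 2 + ((k'.1 : ℝ) * k'.2) ^ 2) * x0 ^ 2 *
            Real.sin (1 / T)) /
          (π * |((k.1 : ℝ) * k.2) ^ 2 - ((k'.1 : ℝ) * k'.2) ^ 2| * x0 * Real.cos (1 / T)))) else 0)
    with hoffdef
  set dg : ℚ × ℕ → ENNReal := fun k => if Rough M k.2 then ENNReal.ofReal (‖cs M F w k.1‖ ^ 2) *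
        ∫⁻ x in Set.Ioc x0 X, ENNReal.ofReal
          (Real.exp (-2 * π * ((k.1 : ℝ) * k.2 * x) ^ 2 * Real.sin (1 / T))) else 0 with hdg
  have hterm : ∀ k k' : ℚ × ℕ,
      ENNReal.ofReal ‖∫ x in x0..X, OD_f T M F w k x * conj (OD_f T M F w k' x)‖ ≤
        (if k = k' then dg k else 0) + off k k' := by
    intro k k'
    by_cases hkk : k = k'
    · subst hkk
      refine le_trans ?_ le_self_add
      rw [if_pos rfl]
      rw [intervalIntegral.integral_of_le hX]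
      have h1 : ENNReal.ofReal ‖∫ x in Set.Ioc x0 X, OD_f T M F w k x * conj (OD_f T M F w k x)‖ ≤
          ∫⁻ x in Set.Ioc x0 X, ‖OD_f T M F w k x * conj (OD_f T M F w k x)‖ₑ := by
        rw [ofReal_norm]
        exact enorm_integral_le_lintegral_enorm _
      refine h1.trans ?_
      by_cases hr : Rough M k.2
      · rw [hdg]
        simp only [if_pos hr]
        rw [← lintegral_const_mul' _ _ ENNReal.ofReal_ne_top]
        refine lintegral_mono fun x => ?_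
        rw [← ENNReal.ofReal_mul (by positivity), ← ofReal_norm]
        refine ENNReal.ofReal_le_ofReal (le_of_eq ?_)
        rw [norm_mul, RCLike.norm_conj]
        unfold OD_f OD_u
        rw [norm_mul, OD_norm]
        have hae : OD_a M F w k = cs M F w k.1 := by simp [OD_a, hr]
        rw [hae]
        have : Real.exp (-2 * π * ((k.1 : ℝ) * k.2 * x) ^ 2 * Real.sin (1 / T)) =
            Real.exp (-π * ((k.1 : ℝ) * k.2 * x) ^ 2 * Real.sin (1 / T)) *
            Real.exp (-π * ((k.1 : ℝ) * k.2 * x) ^ 2 * Real.sin (1 / T)) := by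
          rw [← Real.exp_add]; congr 1; ring
        rw [this]; ring
      · have : ∀ x, OD_f T M F w k x = 0 := by intro x; simp [OD_f, OD_a, hr]
        simp [this]
    · rw [if_neg hkk, zero_add]
      by_cases ha : OD_a M F w k = 0
      · have : ∀ x, OD_f T M F w k x = 0 := by intro x; simp [OD_f, ha]
        simp [this]
      by_cases ha' : OD_a M F w k' = 0
      · have : ∀ x, OD_f T M F w k' x = 0 := by intro x; simp [OD_f, ha']
        simp [this]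
      obtain ⟨h1, h2⟩ := OD_term hT hx0 hX hF hkk ha ha'
      rw [hoffdef]
      simp only [if_pos h1]
      exact ENNReal.ofReal_le_ofReal h2
  -- finite sums
  have hfin : ∀ K : Finset (ℚ × ℕ),
      ∫⁻ x in Set.Ioc x0 X, ENNReal.ofReal (‖∑ k ∈ K, OD_f T M F w k x‖ ^ 2) ≤
        (∑' k, dg k) + ∑' k, ∑' k', off k k' := by
    intro K
    have hcont : Continuous fun x => ∑ k ∈ K, OD_f T M F w k x :=
      continuous_finsetSum _ fun k _ => OD_cont T M F w k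
    have hintg : IntegrableOn (fun x => ‖∑ k ∈ K, OD_f T M F w k x‖ ^ 2) (Set.Ioc x0 X) := by
      have : IntegrableOn (fun x => ‖∑ k ∈ K, OD_f T M F w k x‖ ^ 2) (Set.Icc x0 X) :=
        (hcont.norm.pow 2).continuousOn.integrableOn_Icc
      exact this.mono_set Set.Ioc_subset_Icc_self
    have hexp : ∀ x, ((‖∑ k ∈ K, OD_f T M F w k x‖ ^ 2 : ℝ) : ℂ) =
        ∑ k ∈ K, ∑ k' ∈ K, OD_f T M F w k x * conj (OD_f T M F w k' x) := by
      intro x
      rw [← Complex.normSq_eq_norm_sq, ← Complex.mul_conj, map_sum, Finset.sum_mul_sum]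
    have hI : ∫ x in Set.Ioc x0 X, ‖∑ k ∈ K, OD_f T M F w k x‖ ^ 2 ≤
        ∑ k ∈ K, ∑ k' ∈ K, ‖∫ x in x0..X, OD_f T M F w k x * conj (OD_f T M F w k' x)‖ := by
      have h1 : ((∫ x in Set.Ioc x0 X, ‖∑ k ∈ K, OD_f T M F w k x‖ ^ 2 : ℝ) : ℂ) =
          ∑ k ∈ K, ∑ k' ∈ K, ∫ x in x0..X, OD_f T M F w k x * conj (OD_f T M F w k' x) := by
        rw [← integral_complex_ofReal]
        simp_rw [hexp]
        rw [← intervalIntegral.integral_of_le hX]
        have hii : ∀ k k', IntervalIntegrable (fun x => OD_f T M F w k x * conj (OD_f T M F w k' x))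
            volume x0 X := by
          intro k k'
          apply Continuous.intervalIntegrable
          exact (OD_cont T M F w k).mul (Complex.continuous_conj.comp (OD_cont T M F w k'))
        rw [intervalIntegral.integral_finsetSum]
        · refine Finset.sum_congr rfl fun k _ => ?_
          rw [intervalIntegral.integral_finsetSum]
          intro k' _
          exact hii k k'
        · intro k _
          have : (fun x => ∑ k' ∈ K, OD_f T M F w k x * conj (OD_f T M F w k' x)) =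
              ∑ k' ∈ K, fun x => OD_f T M F w k x * conj (OD_f T M F w k' x) := by
            funext x; simp
          apply Continuous.intervalIntegrable
          exact continuous_finsetSum _ fun k' _ =>
            (OD_cont T M F w k).mul (Complex.continuous_conj.comp (OD_cont T M F w k'))
      have h2 : 0 ≤ ∫ x in Set.Ioc x0 X, ‖∑ k ∈ K, OD_f T M F w k x‖ ^ 2 :=
        integral_nonneg fun x => by positivity
      have h3 : ∫ x in Set.Ioc x0 X, ‖∑ k ∈ K, OD_f T M F w k x‖ ^ 2 =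
          ‖((∫ x in Set.Ioc x0 X, ‖∑ k ∈ K, OD_f T M F w k x‖ ^ 2 : ℝ) : ℂ)‖ := by
        rw [Complex.norm_real, Real.norm_of_nonneg h2]
      rw [h3, h1]
      refine (norm_sum_le _ _).trans (Finset.sum_le_sum fun k _ => norm_sum_le _ _)
    have hle : ∫⁻ x in Set.Ioc x0 X, ENNReal.ofReal (‖∑ k ∈ K, OD_f T M F w k x‖ ^ 2) =
        ENNReal.ofReal (∫ x in Set.Ioc x0 X, ‖∑ k ∈ K, OD_f T M F w k x‖ ^ 2) := by
      rw [ofReal_integral_eq_lintegral_ofReal hintg (Filter.Eventually.of_forall fun x => by positivity)]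
    rw [hle]
    refine (ENNReal.ofReal_le_ofReal hI).trans ?_
    rw [ENNReal.ofReal_sum_of_nonneg (fun k _ => Finset.sum_nonneg fun k' _ => norm_nonneg _)]
    have h4 : ∀ k ∈ K, ENNReal.ofReal (∑ k' ∈ K,
        ‖∫ x in x0..X, OD_f T M F w k x * conj (OD_f T M F w k' x)‖) ≤
        dg k + ∑ k' ∈ K, off k k' := by
      intro k hk
      rw [ENNReal.ofReal_sum_of_nonneg (fun k' _ => norm_nonneg _)]
      refine (Finset.sum_le_sum fun k' _ => hterm k k').trans ?_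
      rw [Finset.sum_add_distrib, Finset.sum_ite_eq, if_pos hk]
    refine (Finset.sum_le_sum h4).trans ?_
    rw [Finset.sum_add_distrib]
    refine add_le_add (ENNReal.sum_le_tsum K) ?_
    refine (Finset.sum_le_sum fun k _ => ENNReal.sum_le_tsum (f := off k) K).trans ?_
    exact ENNReal.sum_le_tsum K
  obtain ⟨K, hK⟩ := Filter.exists_seq_tendsto (Filter.atTop : Filter (Finset (ℚ × ℕ)))
  have hlim : ∀ x ∈ Set.Ioc x0 X, Filter.Tendsto
      (fun n => ENNReal.ofReal (‖∑ k ∈ K n, OD_f T M F w k x‖ ^ 2)) Filter.atTop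
      (nhds (ENNReal.ofReal (‖SS T F w x‖ ^ 2))) := by
    intro x hx
    have h1 := (hasSum_SS hT hF (x := x) (w := w) (by linarith [hx.1])).2
    have h2 : HasSum (fun k => OD_f T M F w k x) (SS T F w x) := by
      have he : (fun k => OD_f T M F w k x) = fun k : ℚ × ℕ => if Rough M k.2 then
          cs M F w k.1 * cexp (-π * (((k.1 : ℝ) * k.2 * x) ^ 2 : ℝ) * om T) else 0 := by
        funext k
        unfold OD_f OD_a OD_u
        split_ifs
        · rfl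
        · simp
      rw [he]
      exact h1
    have h3 := h2.comp hK
    exact ENNReal.tendsto_ofReal ((h3.norm).pow 2)
  calc ∫⁻ x in Set.Ioc x0 X, ENNReal.ofReal (‖SS T F w x‖ ^ 2)
      = ∫⁻ x in Set.Ioc x0 X, Filter.liminf
          (fun n => ENNReal.ofReal (‖∑ k ∈ K n, OD_f T M F w k x‖ ^ 2)) Filter.atTop :=
        setLIntegral_congr_fun measurableSet_Ioc fun x hx => (hlim x hx).liminf_eq.symm
    _ ≤ Filter.liminf (fun n => ∫⁻ x in Set.Ioc x0 X,
          ENNReal.ofReal (‖∑ k ∈ K n, OD_f T M F w k x‖ ^ 2)) Filter.atTop := by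
        refine lintegral_liminf_le fun n => ?_
        refine ENNReal.measurable_ofReal.comp ?_
        exact ((continuous_finsetSum _ fun k _ => OD_cont T M F w k).norm.pow 2).measurable
    _ ≤ Filter.liminf (fun _ : ℕ => (∑' k, dg k) + ∑' k, ∑' k', off k k')
          Filter.atTop :=
        Filter.liminf_le_liminf (Filter.Eventually.of_forall fun n => hfin (K n))
    _ = _ := Filter.liminf_const _

end Pool.Agent.UV
end

section

/-! TASK MV. Mean value of a polynomial in two characters (compare `mean2` in UH/D4.lean and `mv0` in GH/MV0.lean; copy what is useful).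
On the line `g (nC (1/2+ti)) (nC (1/2-ti)) = ∑_q w_q (q.2/q.1)^{it}`, `w_q = c_q (q.1 q.2)^{-1/2}`, and `∑ |w_q| = ∑ (|c_q|/q.1) (q.1/q.2)^{1/2} ≤ Q1^{1/2} B`. Expand the square: `∑_{q,q'} w_q conj(w_{q'}) ∫_T^{3T} (q.2 q'.1/(q.1 q'.2))^{it} dt`.
If `q.2 q'.1 = q.1 q'.2` the integral is `2T`; otherwise it is at most `2/|log(q.2 q'.1/(q.1 q'.2))| ≤ 2 Q1 Q2` in absolute value (two different naturals `a, b ≤ Q1 Q2`: `|log(a/b)| ≥ 1/max(a,b)`), total `≤ 2 Q1 Q2 (Q1^{1/2} B)² = 2 Q1² Q2 B²`.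
In the random model `g (nX 0 v) (cj (nX 0 v)) = ∑_q w_q XX(q.1) conj XX(q.2)`, and `E[XX(q.1) conj XX(q.2) conj(XX(q'.1)) XX(q'.2)] = E[XX(q.1 q'.2) conj XX(q.2 q'.1)]` is `1` if `q.1 q'.2 = q.2 q'.1` and `0` otherwise (`orth`), so
`E ‖g‖² = ∑ w_q conj(w_{q'})` over the same pairs. -/

set_option autoImplicit false

namespace Pool.Agent.UV

open Complex MeasureTheory Finset Pool.Agent.GH Pool.Agent.UH
open scoped Real ComplexConjugate

private lemma MV_log {Q : ℝ} {m n : ℕ} (hm : m ≠ 0) (hn : n ≠ 0) (hmQ : (m : ℝ) ≤ Q)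
    (hnQ : (n : ℝ) ≤ Q) (h : m ≠ n) : 1 ≤ Q * |Real.log n - Real.log m| := by
  wlog hlt : m < n generalizing m n with H
  · have h1 := H hn hm hnQ hmQ h.symm (lt_of_le_of_ne (not_lt.1 hlt) h.symm)
    rw [abs_sub_comm] at h1
    exact h1
  have hm0 : (0 : ℝ) < m := by exact_mod_cast Nat.pos_of_ne_zero hm
  have hn0 : (0 : ℝ) < n := by exact_mod_cast Nat.pos_of_ne_zero hn
  have h2 : (m : ℝ) + 1 ≤ n := by exact_mod_cast hlt
  have h3 : 1 - ((n : ℝ) / m)⁻¹ ≤ Real.log ((n : ℝ) / m) :=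
    Real.one_sub_inv_le_log_of_pos (div_pos hn0 hm0)
  rw [Real.log_div hn0.ne' hm0.ne', inv_div] at h3
  have h4 : 1 / (n : ℝ) ≤ 1 - (m : ℝ) / n := by
    rw [div_le_iff₀ hn0, sub_mul, div_mul_cancel₀ _ hn0.ne']
    linarith
  have h5 : 1 / (n : ℝ) ≤ |Real.log n - Real.log m| := (h4.trans h3).trans (le_abs_self _)
  have h6 : 1 ≤ (n : ℝ) * |Real.log n - Real.log m| := by
    have := mul_le_mul_of_nonneg_left h5 hn0.le
    rwa [mul_one_div_cancel hn0.ne'] at this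
  exact h6.trans (mul_le_mul_of_nonneg_right hnQ (abs_nonneg _))

private lemma MV_osc {μ : ℝ} (hμ : μ ≠ 0) (a b : ℝ) :
    ‖∫ t in a..b, cexp (((μ : ℂ) * I) * t)‖ ≤ 2 / |μ| := by
  have hc : (μ : ℂ) * I ≠ 0 := mul_ne_zero (by exact_mod_cast hμ) I_ne_zero
  rw [integral_exp_mul_complex hc, norm_div, norm_mul, norm_I, mul_one, Complex.norm_real,
    Real.norm_eq_abs]
  refine div_le_div_of_nonneg_right ?_ (abs_nonneg _)
  refine (norm_sub_le _ _).trans ?_
  have h1 : ∀ x : ℝ, ‖cexp ((μ : ℂ) * I * x)‖ = 1 := by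
    intro x
    have h2 : (μ : ℂ) * I * x = ((μ * x : ℝ) : ℂ) * I := by
      push_cast
      ring
    rw [h2, Complex.norm_exp_ofReal_mul_I]
  rw [h1, h1]
  norm_num

private lemma MV_cpow {n : ℕ} (hn : n ≠ 0) (z : ℂ) :
    (n : ℂ) ^ (-(1 / 2 + z)) = (((n : ℝ) ^ (-(1 / 2) : ℝ) : ℝ) : ℂ) * (n : ℂ) ^ (-z) := by
  have hn0 : (n : ℂ) ≠ 0 := by exact_mod_cast hn
  rw [Complex.ofReal_cpow (Nat.cast_nonneg n)]
  push_cast
  rw [neg_add, Complex.cpow_add _ _ hn0]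

theorem mean4 {Q1 Q2 B : ℝ} {g : (ℕ →*₀ ℂ) → (ℕ →*₀ ℂ) → ℂ} (hg : IsP2 Q1 Q2 B g) (hQ1 : 1 ≤ Q1)
    (hQ2 : 1 ≤ Q2) {T : ℝ} (hT : 0 ≤ T) :
    ∫ t in T..(3 * T), ‖g (nC (1 / 2 + t * I)) (nC (1 / 2 - t * I))‖ ^ 2 ≤
      2 * T * (∫ v, ‖g (nX 0 v) (cj (nX 0 v))‖ ^ 2 ∂mu) + 4 * Q1 ^ 2 * Q2 * B ^ 2 := by
  classical
  obtain ⟨F, c, h1, h2, h3⟩ := hg
  set k : ℕ × ℕ → ℂ := fun q => c q * ((((q.1 : ℝ) ^ (-(1 / 2) : ℝ) : ℝ) : ℂ) *
      ((((q.2 : ℝ) ^ (-(1 / 2) : ℝ) : ℝ) : ℂ))) with hk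
  have hkq : ∀ q : ℕ × ℕ, k q = c q * ((((q.1 : ℝ) ^ (-(1 / 2) : ℝ) : ℝ) : ℂ) *
      ((((q.2 : ℝ) ^ (-(1 / 2) : ℝ) : ℝ) : ℂ))) := fun q => rfl
  -- the mean value of the random model
  have hX : ((∫ v, ‖g (nX 0 v) (cj (nX 0 v))‖ ^ 2 ∂mu : ℝ) : ℂ) =
      ∑ q ∈ F, ∑ r ∈ F, (k q * conj (k r)) * (if q.1 * r.2 = q.2 * r.1 then 1 else 0) := by
    have h4 : ∀ w : Om, g (nX 0 w) (cj (nX 0 w)) = ∑ q ∈ F, k q * (XX w q.1 * conj (XX w q.2)) := by
      intro w
      rw [h3]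
      refine Finset.sum_congr rfl fun q hq => ?_
      obtain ⟨hq1, hq2, -⟩ := h1 q hq
      have hcj : cj (nX 0 w) q.2 = conj (nX 0 w q.2) := rfl
      rw [hcj, nX_apply 0 w hq1, nX_apply 0 w hq2, MV_cpow hq1, MV_cpow hq2, hkq q]
      rw [neg_zero, Complex.cpow_zero, Complex.cpow_zero, mul_one, mul_one, map_mul,
        Complex.conj_ofReal]
      ring
    have h5 : ∀ w : Om, ((‖g (nX 0 w) (cj (nX 0 w))‖ ^ 2 : ℝ) : ℂ) = ∑ q ∈ F, ∑ r ∈ F,
        (k q * conj (k r)) * (XX w (q.1 * r.2) * conj (XX w (q.2 * r.1))) := by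
      intro w
      rw [Complex.ofReal_pow, ← Complex.mul_conj', h4, map_sum, Finset.sum_mul_sum]
      refine Finset.sum_congr rfl fun q _ => Finset.sum_congr rfl fun r _ => ?_
      have e1 : XX w (q.1 * r.2) = XX w q.1 * XX w r.2 := map_mul _ _ _
      have e2 : XX w (q.2 * r.1) = XX w q.2 * XX w r.1 := map_mul _ _ _
      have e3 : conj (k r * (XX w r.1 * conj (XX w r.2))) = conj (k r) * (conj (XX w r.1) * XX w r.2) := by
        generalize k r = z
        rw [map_mul, map_mul, Complex.conj_conj]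
      have e4 : conj (XX w q.2 * XX w r.1) = conj (XX w q.2) * conj (XX w r.1) := map_mul _ _ _
      rw [e1, e2, e3, e4]
      ring
    have hint : ∀ q r : ℕ × ℕ, Integrable (fun w : Om => (k q * conj (k r)) *
        (XX w (q.1 * r.2) * conj (XX w (q.2 * r.1)))) mu :=
      fun q r => integrable_of_continuous (continuous_const.mul
        ((continuous_XX _).mul (Complex.continuous_conj.comp (continuous_XX _))))
    rw [← integral_complex_ofReal]
    simp_rw [h5]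
    rw [integral_finsetSum _ (fun q _ => integrable_finsetSum _ fun r _ => hint q r)]
    refine Finset.sum_congr rfl fun q hq => ?_
    rw [integral_finsetSum _ (fun r _ => hint q r)]
    refine Finset.sum_congr rfl fun r hr => ?_
    rw [integral_const_mul, orth (mul_ne_zero (h1 q hq).1 (h1 r hr).2.1)
      (mul_ne_zero (h1 q hq).2.1 (h1 r hr).1)]
  -- the values on the critical line
  set θ : ℕ × ℕ → ℝ := fun q => Real.log q.2 - Real.log q.1 with hθ
  have hnC : ∀ (n : ℕ) (t : ℝ), n ≠ 0 → nC (1 / 2 + t * I) n =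
      (((n : ℝ) ^ (-(1 / 2) : ℝ) : ℝ) : ℂ) * cexp (((-Real.log n : ℝ) : ℂ) * I * t) := by
    intro n t hn
    have hn0 : (n : ℂ) ≠ 0 := by exact_mod_cast hn
    rw [nC_apply _ hn, MV_cpow hn, Complex.cpow_def_of_ne_zero hn0, ← Complex.natCast_log]
    congr 2
    push_cast
    ring
  have hnC' : ∀ (n : ℕ) (t : ℝ), n ≠ 0 → nC (1 / 2 - t * I) n =
      (((n : ℝ) ^ (-(1 / 2) : ℝ) : ℝ) : ℂ) * cexp (((Real.log n : ℝ) : ℂ) * I * t) := by
    intro n t hn
    have h0 := hnC n (-t) hn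
    have e1 : (1 / 2 + ((-t : ℝ) : ℂ) * I : ℂ) = 1 / 2 - t * I := by
      push_cast
      ring
    rw [e1] at h0
    rw [h0]
    congr 2
    push_cast
    ring
  have hC : ∀ t : ℝ, g (nC (1 / 2 + t * I)) (nC (1 / 2 - t * I)) =
      ∑ q ∈ F, k q * cexp ((θ q : ℂ) * I * t) := by
    intro t
    rw [h3]
    refine Finset.sum_congr rfl fun q hq => ?_
    obtain ⟨hq1, hq2, -⟩ := h1 q hq
    rw [hnC q.1 t hq1, hnC' q.2 t hq2, hkq q]
    have h6 : (θ q : ℂ) * I * t = ((-Real.log q.1 : ℝ) : ℂ) * I * t +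
        ((Real.log q.2 : ℝ) : ℂ) * I * t := by
      rw [hθ]
      push_cast
      ring
    rw [h6, Complex.exp_add]
    ring
  have hsq : ∀ t : ℝ, ((‖g (nC (1 / 2 + t * I)) (nC (1 / 2 - t * I))‖ ^ 2 : ℝ) : ℂ) =
      ∑ q ∈ F, ∑ r ∈ F, (k q * conj (k r)) * cexp (((θ q - θ r : ℝ) : ℂ) * I * t) := by
    intro t
    rw [Complex.ofReal_pow, ← Complex.mul_conj', hC, map_sum, Finset.sum_mul_sum]
    refine Finset.sum_congr rfl fun q _ => Finset.sum_congr rfl fun r _ => ?_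
    rw [map_mul, ← Complex.exp_conj]
    have h5 : conj ((θ r : ℂ) * I * t) = -((θ r : ℂ) * I * t) := by
      rw [map_mul, map_mul, Complex.conj_ofReal, Complex.conj_I, Complex.conj_ofReal]
      ring
    have h6 : ((θ q - θ r : ℝ) : ℂ) * I * t = (θ q : ℂ) * I * t + -((θ r : ℂ) * I * t) := by
      push_cast
      ring
    rw [h5, h6, Complex.exp_add]
    ring
  have hcont : ∀ q r : ℕ × ℕ, Continuous fun t : ℝ => (k q * conj (k r)) *
      cexp (((θ q - θ r : ℝ) : ℂ) * I * t) := by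
    intro q r
    fun_prop
  have hint : ((∫ t in T..(3 * T), ‖g (nC (1 / 2 + t * I)) (nC (1 / 2 - t * I))‖ ^ 2 : ℝ) : ℂ) =
      ∑ q ∈ F, ∑ r ∈ F, (k q * conj (k r)) *
        ∫ t in T..(3 * T), cexp (((θ q - θ r : ℝ) : ℂ) * I * t) := by
    rw [← intervalIntegral.integral_ofReal]
    simp_rw [hsq]
    rw [intervalIntegral.integral_finsetSum]
    · refine Finset.sum_congr rfl fun q _ => ?_
      rw [intervalIntegral.integral_finsetSum]
      · refine Finset.sum_congr rfl fun r _ => ?_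
        rw [intervalIntegral.integral_const_mul]
      · intro r _
        exact (hcont q r).intervalIntegrable _ _
    · intro q _
      exact (continuous_finsetSum _ fun r _ => hcont q r).intervalIntegrable _ _
  have hB : 0 ≤ B := le_trans (Finset.sum_nonneg fun q _ =>
    div_nonneg (norm_nonneg (c q)) (Nat.cast_nonneg _)) h2
  have hkS : ∑ q ∈ F, ‖k q‖ ≤ Q1 ^ (1 / 2 : ℝ) * B := by
    refine le_trans ?_ (mul_le_mul_of_nonneg_left h2 (Real.rpow_nonneg (by linarith) _))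
    rw [Finset.mul_sum]
    refine Finset.sum_le_sum fun q hq => ?_
    obtain ⟨hq1, hq2, hqQ1, hqQ2⟩ := h1 q hq
    have hp1 : (1 : ℝ) ≤ q.1 := by exact_mod_cast Nat.one_le_iff_ne_zero.2 hq1
    have hp2 : (1 : ℝ) ≤ q.2 := by exact_mod_cast Nat.one_le_iff_ne_zero.2 hq2
    have hp0 : (0 : ℝ) < q.1 := by linarith
    have e1 : ‖k q‖ = ‖c q‖ * ((q.1 : ℝ) ^ (-(1 / 2) : ℝ) * (q.2 : ℝ) ^ (-(1 / 2) : ℝ)) := by
      rw [hkq q, norm_mul, norm_mul, Complex.norm_real, Complex.norm_real,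
        Real.norm_of_nonneg (Real.rpow_nonneg (Nat.cast_nonneg _) _),
        Real.norm_of_nonneg (Real.rpow_nonneg (Nat.cast_nonneg _) _)]
    have e2 : (q.2 : ℝ) ^ (-(1 / 2) : ℝ) ≤ 1 :=
      Real.rpow_le_one_of_one_le_of_nonpos hp2 (by norm_num)
    have e3 : (q.1 : ℝ) ^ (-(1 / 2) : ℝ) = (q.1 : ℝ) ^ (1 / 2 : ℝ) / q.1 := by
      rw [eq_div_iff hp0.ne']
      nth_rewrite 2 [← Real.rpow_one (q.1 : ℝ)]
      rw [← Real.rpow_add hp0]
      norm_num
    have e4 : (q.1 : ℝ) ^ (1 / 2 : ℝ) ≤ Q1 ^ (1 / 2 : ℝ) :=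
      Real.rpow_le_rpow hp0.le hqQ1 (by norm_num)
    have e5 : (q.1 : ℝ) ^ (-(1 / 2) : ℝ) * (q.2 : ℝ) ^ (-(1 / 2) : ℝ) ≤ Q1 ^ (1 / 2 : ℝ) / q.1 := by
      calc (q.1 : ℝ) ^ (-(1 / 2) : ℝ) * (q.2 : ℝ) ^ (-(1 / 2) : ℝ)
          ≤ (q.1 : ℝ) ^ (-(1 / 2) : ℝ) * 1 :=
            mul_le_mul_of_nonneg_left e2 (Real.rpow_nonneg hp0.le _)
        _ = (q.1 : ℝ) ^ (1 / 2 : ℝ) / q.1 := by rw [mul_one, e3]
        _ ≤ Q1 ^ (1 / 2 : ℝ) / q.1 := div_le_div_of_nonneg_right e4 hp0.le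
    rw [e1]
    calc ‖c q‖ * ((q.1 : ℝ) ^ (-(1 / 2) : ℝ) * (q.2 : ℝ) ^ (-(1 / 2) : ℝ))
        ≤ ‖c q‖ * (Q1 ^ (1 / 2 : ℝ) / q.1) := mul_le_mul_of_nonneg_left e5 (norm_nonneg _)
      _ = Q1 ^ (1 / 2 : ℝ) * (‖c q‖ / q.1) := by ring
  have hkey : ‖((∫ t in T..(3 * T), ‖g (nC (1 / 2 + t * I)) (nC (1 / 2 - t * I))‖ ^ 2 : ℝ) : ℂ) -
      ((2 * T * ∫ v, ‖g (nX 0 v) (cj (nX 0 v))‖ ^ 2 ∂mu : ℝ) : ℂ)‖ ≤ 2 * Q1 ^ 2 * Q2 * B ^ 2 := by
    rw [hint, Complex.ofReal_mul, hX, Finset.mul_sum, ← Finset.sum_sub_distrib]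
    simp_rw [Finset.mul_sum, ← Finset.sum_sub_distrib]
    calc ‖∑ q ∈ F, ∑ r ∈ F, ((k q * conj (k r)) *
          (∫ t in T..(3 * T), cexp (((θ q - θ r : ℝ) : ℂ) * I * t)) -
            ((2 * T : ℝ) : ℂ) * ((k q * conj (k r)) *
              (if q.1 * r.2 = q.2 * r.1 then 1 else 0)))‖
        ≤ ∑ q ∈ F, ∑ r ∈ F, ‖k q‖ * ‖k r‖ * (2 * (Q1 * Q2)) := by
          refine (norm_sum_le _ _).trans (Finset.sum_le_sum fun q hq => ?_)
          refine (norm_sum_le _ _).trans (Finset.sum_le_sum fun r hr => ?_)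
          have e0 : (k q * conj (k r)) *
              (∫ t in T..(3 * T), cexp (((θ q - θ r : ℝ) : ℂ) * I * t)) -
              ((2 * T : ℝ) : ℂ) * ((k q * conj (k r)) *
              (if q.1 * r.2 = q.2 * r.1 then 1 else 0)) = (k q * conj (k r)) *
              ((∫ t in T..(3 * T), cexp (((θ q - θ r : ℝ) : ℂ) * I * t)) -
                ((2 * T : ℝ) : ℂ) * (if q.1 * r.2 = q.2 * r.1 then 1 else 0)) := by ring
          rw [e0, norm_mul, norm_mul, RCLike.norm_conj]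
          refine mul_le_mul_of_nonneg_left ?_ (mul_nonneg (norm_nonneg _) (norm_nonneg _))
          obtain ⟨hq1, hq2, hqQ1, hqQ2⟩ := h1 q hq
          obtain ⟨hr1, hr2, hrQ1, hrQ2⟩ := h1 r hr
          have hpos : ∀ n : ℕ, n ≠ 0 → (n : ℝ) ≠ 0 := fun n hn => by exact_mod_cast hn
          have hdiff : θ q - θ r = Real.log ((q.2 * r.1 : ℕ) : ℝ) - Real.log ((q.1 * r.2 : ℕ) : ℝ) := by
            rw [hθ]
            push_cast
            rw [Real.log_mul (hpos _ hq2) (hpos _ hr1), Real.log_mul (hpos _ hq1) (hpos _ hr2)]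
            ring
          by_cases hqr : q.1 * r.2 = q.2 * r.1
          · rw [if_pos hqr, mul_one]
            have h0 : θ q - θ r = 0 := by rw [hdiff, hqr, sub_self]
            rw [h0]
            simp only [Complex.ofReal_zero, zero_mul, Complex.exp_zero,
              intervalIntegral.integral_const, Complex.real_smul, mul_one]
            have h7 : (((3 * T - T : ℝ) : ℂ) - ((2 * T : ℝ) : ℂ)) = 0 := by
              push_cast
              ring
            rw [h7, norm_zero]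
            have : 0 ≤ Q1 * Q2 := mul_nonneg (by linarith) (by linarith)
            linarith
          · rw [if_neg hqr, mul_zero, sub_zero]
            have hb1 : ((q.1 * r.2 : ℕ) : ℝ) ≤ Q1 * Q2 := by
              push_cast
              exact mul_le_mul hqQ1 hrQ2 (Nat.cast_nonneg _) (by linarith)
            have hb2 : ((q.2 * r.1 : ℕ) : ℝ) ≤ Q1 * Q2 := by
              push_cast
              rw [mul_comm]
              exact mul_le_mul hrQ1 hqQ2 (Nat.cast_nonneg _) (by linarith)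
            have h8 := MV_log (mul_ne_zero hq1 hr2) (mul_ne_zero hq2 hr1) hb1 hb2 hqr
            rw [← hdiff] at h8
            have h9 : 0 < |θ q - θ r| := by
              rcases (abs_nonneg (θ q - θ r)).eq_or_lt with h0 | h0
              · rw [← h0, mul_zero] at h8
                linarith
              · exact h0
            refine (MV_osc (abs_pos.1 h9) _ _).trans ?_
            rw [div_le_iff₀ h9]
            nlinarith
      _ = (∑ q ∈ F, ‖k q‖) ^ 2 * (2 * (Q1 * Q2)) := by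
          rw [sq (∑ q ∈ F, ‖k q‖), Finset.sum_mul_sum, Finset.sum_mul]
          refine Finset.sum_congr rfl fun q _ => ?_
          rw [Finset.sum_mul]
      _ ≤ (Q1 ^ (1 / 2 : ℝ) * B) ^ 2 * (2 * (Q1 * Q2)) := by
          refine mul_le_mul_of_nonneg_right ?_
            (mul_nonneg (by norm_num) (mul_nonneg (by linarith) (by linarith)))
          exact pow_le_pow_left₀ (Finset.sum_nonneg fun q _ => norm_nonneg _) hkS 2
      _ = 2 * Q1 ^ 2 * Q2 * B ^ 2 := by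
          have e6 : (Q1 ^ (1 / 2 : ℝ)) ^ 2 = Q1 := by
            rw [← Real.rpow_natCast, ← Real.rpow_mul (by linarith)]
            norm_num
          rw [mul_pow, e6]
          ring
  rw [← Complex.ofReal_sub, Complex.norm_real, Real.norm_eq_abs] at hkey
  have h10 := (abs_le.1 hkey).2
  have : 0 ≤ Q1 ^ 2 * Q2 * B ^ 2 := by
    have : 0 ≤ Q2 := by linarith
    positivity
  linarith

end Pool.Agent.UV
end

section

/-! TASK C2. The cluster lemma for a sum of pieces with joint factors. Template: UH/C2.lean. If `Z` is empty there is nothing to prove; otherwise fix `ρ1 ∈ Z`. As in UH/C2 (`cluster_deriv` for `F(z) = f(c+2rz)`): `∑_{ρ∈Z} ‖f'(ρ)‖^q ≤ C_q r^{-q} M^q`, `M = max_{|s-c|=2r} ‖f‖ = ‖f s0‖`, `|s0 - c| = 2r`.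
Put `h0 = s0 - ρ1`, `‖h0‖ ≤ 3r`. `M = ‖f s0‖ ≤ ∑_{i<n} ‖P i (ρ1 + h0)‖`, so `M^q ≤ C(n,q) ∑_i ‖P i (ρ1+h0)‖^q` (`C(n,q) = max(1, n^q)·…`: `(∑ a_i)^q ≤ n^q max a_i^q ≤ n^q ∑ a_i^q`). (`n = 0`: then `f = 0` near `c` and the left side is 0.)
For each `i`: `area_mean` (UH/B3) for `h ↦ P i (ρ1 + h)` at `h0` with radius `r`: `π r² ‖P i (ρ1+h0)‖^q ≤ ∫_{|a|,|b| ≤ 4r} ‖P i (ρ1 + a + bi)‖^q` (the square of half side `r` around `h0` lies in `[-4r,4r]²`; points `ρ1 + h` stay in the square of half side `6r` around `c`).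
For each `h = a+bi` with `|a|, |b| ≤ 4r`: `‖P i (ρ1+h)‖^q = ‖P i (ρ1+h)‖^q ‖A i ρ1‖^q ‖B ρ1‖^{r'}` (`‖A i ρ1‖ = ‖B ρ1‖ = 1`), and `area_mean3` for `s ↦ P i (s+h)`, `A i`, `B` at `ρ1` with radius `r`: `π r² (..) ≤ ∫_{square of half side r around ρ1} ‖P i (s+h)‖^q ‖A i s‖^q ‖B s‖^{r'}`, and this square lies in the square
of half side `2r` around `c`. Together `∑_Z ‖f'‖^q ≤ C r^{-q-4} ∑_i ∫_a ∫_b ∫_x ∫_y ..`. (Write `x + y I + (a + b I)` for `s + h`.) -/

set_option autoImplicit false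

namespace Pool.Agent.UV

open Complex MeasureTheory Finset
open scoped Real ComplexConjugate

private theorem C2_geom4 {x : ℝ} (h0 : 0 ≤ x) (h1 : x < 1) {n : ℕ} (hn : 1 ≤ n) :
    (n : ℝ) * x ^ (n - 1) ≤ (1 - x)⁻¹ := by
  have h2 : (n : ℝ) * x ^ (n - 1) ≤ ∑ k ∈ range n, x ^ k := by
    have h3 : (n : ℝ) * x ^ (n - 1) = ∑ _k ∈ range n, x ^ (n - 1) := by
      rw [sum_const, card_range, nsmul_eq_mul]
    rw [h3]
    refine sum_le_sum fun k hk => ?_
    have := mem_range.mp hk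
    exact pow_le_pow_of_le_one h0 h1.le (by omega)
  have h4 : (∑ k ∈ range n, x ^ k) * (x - 1) = x ^ n - 1 := geom_sum_mul x n
  have h5 : 0 < 1 - x := by linarith
  have h6 : 0 ≤ x ^ n := by positivity
  refine h2.trans ?_
  rw [← one_div, le_div_iff₀ h5]
  linarith

private theorem C2_deriv4 {f : ℂ → ℂ} {c : ℂ} {r M : ℝ} {Z : Finset ℂ} (hr : 0 < r)
    (hf : ∀ z : ℂ, |z.re - c.re| ≤ 3 * r → |z.im - c.im| ≤ 3 * r → AnalyticAt ℂ f z)
    (hM : ∀ z : ℂ, ‖z‖ = 1 → ‖f (c + 2 * r * z)‖ ≤ M)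
    (hZ : ∀ ρ ∈ Z, ‖ρ - c‖ ≤ r ∧ f ρ = 0) :
    ∀ ρ ∈ Z, ‖deriv f ρ‖ ≤ 2 / 3 / r * (4 / 5 : ℝ) ^ (Z.card - 1) * M := by
  have hr' : (2 * r : ℂ) ≠ 0 := by
    have : (r : ℂ) ≠ 0 := by exact_mod_cast hr.ne'
    simp [this]
  have hn2 : ‖(2 * r : ℂ)‖ = 2 * r := by
    rw [norm_mul, Complex.norm_real, Real.norm_of_nonneg hr.le]
    norm_num
  have han : AnalyticOnNhd ℂ (fun z => f (c + 2 * r * z)) (Metric.closedBall 0 1) := by
    intro z hz
    have hz1 : ‖z‖ ≤ 1 := by simpa using hz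
    have hb : ‖(2 * r : ℂ) * z‖ ≤ 2 * r := by
      rw [norm_mul, hn2]
      nlinarith
    have h1 : AnalyticAt ℂ f (c + 2 * r * z) := by
      apply hf
      · have := Complex.abs_re_le_norm ((2 * r : ℂ) * z)
        rw [Complex.add_re, add_sub_cancel_left]
        linarith
      · have := Complex.abs_im_le_norm ((2 * r : ℂ) * z)
        rw [Complex.add_im, add_sub_cancel_left]
        linarith
    have h2 : AnalyticAt ℂ (fun z : ℂ => c + 2 * r * z) z := by fun_prop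
    exact AnalyticAt.comp (f := fun z : ℂ => c + 2 * r * z) h1 h2
  set Z' : Finset ℂ := Z.image fun ρ => (ρ - c) / (2 * r) with hZ'
  have hcard : Z'.card = Z.card := by
    apply Finset.card_image_of_injective
    intro a b hab
    have h1 : (a - c) / (2 * r) = (b - c) / (2 * r) := hab
    rw [div_left_inj' hr'] at h1
    linear_combination h1
  have hback : ∀ ρ : ℂ, c + 2 * r * ((ρ - c) / (2 * r)) = ρ := by
    intro ρ
    rw [mul_div_cancel₀ _ hr']
    ring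
  have h := Pool.Agent.UH.cluster_deriv (f := fun z => f (c + 2 * r * z)) (M := M) Z' han hM (by
    intro ρ' hρ'
    obtain ⟨ρ, hρ, rfl⟩ := Finset.mem_image.mp hρ'
    refine ⟨?_, ?_⟩
    · rw [norm_div, hn2, div_le_iff₀ (by positivity)]
      have := (hZ ρ hρ).1
      linarith
    · show f (c + 2 * r * ((ρ - c) / (2 * r))) = 0
      rw [hback]
      exact (hZ ρ hρ).2)
  intro ρ hρ
  have h1 := h ((ρ - c) / (2 * r)) (Finset.mem_image_of_mem _ hρ)
  have hd : deriv (fun z => f (c + 2 * r * z)) ((ρ - c) / (2 * r)) = 2 * r * deriv f ρ := by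
    have hρn := (hZ ρ hρ).1
    have h2 : AnalyticAt ℂ f ρ := by
      apply hf
      · have := Complex.abs_re_le_norm (ρ - c)
        rw [Complex.sub_re] at this
        linarith
      · have := Complex.abs_im_le_norm (ρ - c)
        rw [Complex.sub_im] at this
        linarith
    have h3 : HasDerivAt (fun z : ℂ => c + 2 * r * z) (2 * r) ((ρ - c) / (2 * r)) := by
      have := ((hasDerivAt_id ((ρ - c) / (2 * r))).const_mul (2 * r : ℂ)).const_add c
      simpa using this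
    have h4 : HasDerivAt f (deriv f ρ) (c + 2 * r * ((ρ - c) / (2 * r))) := by
      rw [hback]
      exact h2.differentiableAt.hasDerivAt
    have h5 := h4.comp ((ρ - c) / (2 * r)) h3
    rw [← h5.deriv.trans (mul_comm _ _)]
    rfl
  rw [hd, norm_mul, hn2, hcard] at h1
  have h6 : ‖deriv f ρ‖ = (2 * r * ‖deriv f ρ‖) / (2 * r) := by field_simp
  rw [h6, div_le_iff₀ (by positivity)]
  refine h1.trans (le_of_eq ?_)
  field_simp
  ring

private theorem C2_sum4 {q : ℝ} (hq : 0 < q) (n : ℕ) (a : ℕ → ℝ) (ha : ∀ i, 0 ≤ a i) :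
    (∑ i ∈ range n, a i) ^ q ≤ (n : ℝ) ^ q * ∑ i ∈ range n, a i ^ q := by
  rcases Nat.eq_zero_or_pos n with rfl | hn
  · simp [Real.zero_rpow hq.ne']
  · obtain ⟨i0, hi0, hmax⟩ := Finset.exists_max_image (range n) a ⟨0, mem_range.mpr hn⟩
    have h1 : ∑ i ∈ range n, a i ≤ (n : ℝ) * a i0 := by
      refine (Finset.sum_le_card_nsmul _ _ _ hmax).trans (le_of_eq ?_)
      rw [card_range, nsmul_eq_mul]
    have h2 : a i0 ^ q ≤ ∑ i ∈ range n, a i ^ q :=
      Finset.single_le_sum (f := fun i => a i ^ q) (fun i _ => Real.rpow_nonneg (ha i) q) hi0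
    calc (∑ i ∈ range n, a i) ^ q ≤ ((n : ℝ) * a i0) ^ q :=
          Real.rpow_le_rpow (Finset.sum_nonneg fun i _ => ha i) h1 hq.le
      _ = (n : ℝ) ^ q * a i0 ^ q := Real.mul_rpow (Nat.cast_nonneg n) (ha i0)
      _ ≤ _ := mul_le_mul_of_nonneg_left h2 (Real.rpow_nonneg (Nat.cast_nonneg n) q)

/-- One piece. -/
private theorem C2_piece4 {q r' : ℝ} (hq : 0 < q) (hr' : 0 < r') {P A B : ℂ → ℂ} {c ρ1 s0 : ℂ} {r : ℝ}
    (hr : 0 < r)
    (hf : ∀ z : ℂ, |z.re - c.re| ≤ 6 * r → |z.im - c.im| ≤ 6 * r → AnalyticAt ℂ P z ∧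
      AnalyticAt ℂ A z ∧ AnalyticAt ℂ B z)
    (hρ : ‖ρ1 - c‖ ≤ r) (hs0 : ‖s0 - c‖ ≤ 2 * r) (hA : ‖A ρ1‖ = 1) (hB : ‖B ρ1‖ = 1) :
    ENNReal.ofReal (π * r ^ 2 * (π * r ^ 2 * ‖P s0‖ ^ q)) ≤
      ∫⁻ a in Set.Icc (-(4 * r)) (4 * r), ∫⁻ b in Set.Icc (-(4 * r)) (4 * r),
        ∫⁻ x in Set.Icc (c.re - 2 * r) (c.re + 2 * r), ∫⁻ y in Set.Icc (c.im - 2 * r) (c.im + 2 * r),
        ENNReal.ofReal (‖P (x + y * I + (a + b * I))‖ ^ q * ‖A (x + y * I)‖ ^ q *
          ‖B (x + y * I)‖ ^ r') := by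
  have hpi := Real.pi_pos
  have hρre : |ρ1.re - c.re| ≤ r := by
    have := Complex.abs_re_le_norm (ρ1 - c)
    rw [Complex.sub_re] at this
    linarith
  have hρim : |ρ1.im - c.im| ≤ r := by
    have := Complex.abs_im_le_norm (ρ1 - c)
    rw [Complex.sub_im] at this
    linarith
  have hsre : |s0.re - c.re| ≤ 2 * r := by
    have := Complex.abs_re_le_norm (s0 - c)
    rw [Complex.sub_re] at this
    linarith
  have hsim : |s0.im - c.im| ≤ 2 * r := by
    have := Complex.abs_im_le_norm (s0 - c)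
    rw [Complex.sub_im] at this
    linarith
  rw [abs_le] at hρre hρim hsre hsim
  have h1 := Pool.Agent.UH.area_mean (f := fun h => P (ρ1 + h)) (c := s0 - ρ1) (r := r) (q := q) hr hq (by
    intro z h1 h2
    rw [Complex.sub_re, abs_le] at h1
    rw [Complex.sub_im, abs_le] at h2
    have h3 : AnalyticAt ℂ P (ρ1 + z) := by
      refine (hf _ ?_ ?_).1
      · rw [Complex.add_re, abs_le]
        constructor <;> linarith [h1.1, h1.2, hsre.1, hsre.2]
      · rw [Complex.add_im, abs_le]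
        constructor <;> linarith [h2.1, h2.2, hsim.1, hsim.2]
    have h4 : AnalyticAt ℂ (fun z : ℂ => ρ1 + z) z := by fun_prop
    exact AnalyticAt.comp (f := fun z : ℂ => ρ1 + z) h3 h4)
  rw [add_sub_cancel] at h1
  set κ : ENNReal := ENNReal.ofReal (π * r ^ 2) with hκ
  have hκt : κ ≠ ⊤ := ENNReal.ofReal_ne_top
  have h2 : (∫⁻ a in Set.Icc ((s0 - ρ1).re - r) ((s0 - ρ1).re + r),
      ∫⁻ b in Set.Icc ((s0 - ρ1).im - r) ((s0 - ρ1).im + r),
        ENNReal.ofReal (‖P (ρ1 + (a + b * I))‖ ^ q)) ≤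
      ∫⁻ a in Set.Icc (-(4 * r)) (4 * r), ∫⁻ b in Set.Icc (-(4 * r)) (4 * r),
        ENNReal.ofReal (‖P (ρ1 + (a + b * I))‖ ^ q) := by
    have e1 : Set.Icc ((s0 - ρ1).re - r) ((s0 - ρ1).re + r) ⊆ Set.Icc (-(4 * r)) (4 * r) := by
      rw [Complex.sub_re]
      exact Set.Icc_subset_Icc (by linarith [hρre.2, hsre.1]) (by linarith [hρre.1, hsre.2])
    have e2 : Set.Icc ((s0 - ρ1).im - r) ((s0 - ρ1).im + r) ⊆ Set.Icc (-(4 * r)) (4 * r) := by
      rw [Complex.sub_im]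
      exact Set.Icc_subset_Icc (by linarith [hρim.2, hsim.1]) (by linarith [hρim.1, hsim.2])
    refine (lintegral_mono_set e1).trans (lintegral_mono fun x => ?_)
    exact lintegral_mono_set e2
  have h3 : ENNReal.ofReal (π * r ^ 2 * (π * r ^ 2 * ‖P s0‖ ^ q)) =
      κ * ENNReal.ofReal (π * r ^ 2 * ‖P s0‖ ^ q) := ENNReal.ofReal_mul (by positivity)
  rw [h3]
  refine (mul_le_mul' le_rfl (h1.trans h2)).trans ?_
  rw [← lintegral_const_mul' _ _ hκt]
  refine setLIntegral_mono' measurableSet_Icc fun a ha => ?_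
  rw [← lintegral_const_mul' _ _ hκt]
  refine setLIntegral_mono' measurableSet_Icc fun b hb => ?_
  have h4 := area_mean3 (f := fun s => P (s + ((a : ℂ) + (b : ℂ) * I))) (g := A) (k := B) (c := ρ1) (R := r)
    (p := q) (q := q) (r := r') hr hq hq hr' (by
    intro z h5 h6
    rw [abs_le] at h5 h6
    have h7 : AnalyticAt ℂ P (z + ((a : ℂ) + (b : ℂ) * I)) := by
      refine (hf _ ?_ ?_).1
      · rw [abs_le]
        simp only [Complex.add_re, Complex.ofReal_re, Complex.mul_re, Complex.I_re, mul_zero,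
          Complex.ofReal_im, Complex.I_im, mul_one, sub_self, add_zero]
        constructor <;> linarith [h5.1, h5.2, hρre.1, hρre.2, ha.1, ha.2]
      · rw [abs_le]
        simp only [Complex.add_im, Complex.ofReal_re, Complex.mul_im, Complex.I_re, mul_zero,
          Complex.ofReal_im, Complex.I_im, mul_one, zero_add, add_zero]
        constructor <;> linarith [h6.1, h6.2, hρim.1, hρim.2, hb.1, hb.2]
    have h8 : AnalyticAt ℂ (fun z : ℂ => z + ((a : ℂ) + (b : ℂ) * I)) z := by fun_prop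
    have h9 := hf z (by
        rw [abs_le]
        constructor <;> linarith [h5.1, h5.2, hρre.1, hρre.2]) (by
        rw [abs_le]
        constructor <;> linarith [h6.1, h6.2, hρim.1, hρim.2])
    exact ⟨AnalyticAt.comp (f := fun z : ℂ => z + ((a : ℂ) + (b : ℂ) * I)) h7 h8, h9.2.1, h9.2.2⟩)
  rw [hA, hB, Real.one_rpow, Real.one_rpow, mul_one, mul_one, ENNReal.ofReal_mul (by positivity)] at h4
  refine h4.trans ?_
  have e1 : Set.Icc (ρ1.re - r) (ρ1.re + r) ⊆ Set.Icc (c.re - 2 * r) (c.re + 2 * r) :=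
    Set.Icc_subset_Icc (by linarith [hρre.1]) (by linarith [hρre.2])
  have e2 : Set.Icc (ρ1.im - r) (ρ1.im + r) ⊆ Set.Icc (c.im - 2 * r) (c.im + 2 * r) :=
    Set.Icc_subset_Icc (by linarith [hρim.1]) (by linarith [hρim.2])
  refine (lintegral_mono_set e1).trans (lintegral_mono fun x => ?_)
  exact lintegral_mono_set e2

theorem cluster4 {q r' : ℝ} (hq : 0 < q) (hr' : 0 < r') (n : ℕ) : ∃ C : ℝ, 1 ≤ C ∧
    ∀ (f : ℂ → ℂ) (P A : ℕ → ℂ → ℂ) (B : ℂ → ℂ) (c : ℂ) (r : ℝ) (Z : Finset ℂ), 0 < r →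
    (∀ z : ℂ, |z.re - c.re| ≤ 6 * r → |z.im - c.im| ≤ 6 * r → AnalyticAt ℂ f z ∧
      (∀ i < n, AnalyticAt ℂ (P i) z ∧ AnalyticAt ℂ (A i) z) ∧ AnalyticAt ℂ B z ∧
      f z = ∑ i ∈ range n, P i z) →
    (∀ ρ ∈ Z, ‖ρ - c‖ ≤ r ∧ f ρ = 0 ∧ (∀ i < n, ‖A i ρ‖ = 1) ∧ ‖B ρ‖ = 1) →
    ∑ ρ ∈ Z, ENNReal.ofReal (‖deriv f ρ‖ ^ q) ≤ ENNReal.ofReal (C * r ^ (-q - 4)) *
      ∑ i ∈ range n, ∫⁻ a in Set.Icc (-(4 * r)) (4 * r), ∫⁻ b in Set.Icc (-(4 * r)) (4 * r),
        ∫⁻ x in Set.Icc (c.re - 2 * r) (c.re + 2 * r), ∫⁻ y in Set.Icc (c.im - 2 * r) (c.im + 2 * r),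
        ENNReal.ofReal (‖P i (x + y * I + (a + b * I))‖ ^ q * ‖A i (x + y * I)‖ ^ q *
          ‖B (x + y * I)‖ ^ r') := by
  have hx0 : (0 : ℝ) < (4 / 5) ^ q := by positivity
  have hx1 : ((4 : ℝ) / 5) ^ q < 1 := Real.rpow_lt_one (by norm_num) (by norm_num) hq
  have h1x : (0 : ℝ) < 1 - (4 / 5) ^ q := by linarith
  have hpi := Real.pi_pos
  set K0 : ℝ := (1 - (4 / 5 : ℝ) ^ q)⁻¹ * (2 / 3) ^ q with hK0
  have hK00 : 0 ≤ K0 := by positivity
  refine ⟨max 1 (K0 * (n : ℝ) ^ q / π ^ 2), le_max_left _ _, fun f P A B c r Z hr hf hZ => ?_⟩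
  rcases Z.eq_empty_or_nonempty with rfl | hne
  · simp
  have hf3 : ∀ z : ℂ, |z.re - c.re| ≤ 3 * r → |z.im - c.im| ≤ 3 * r → AnalyticAt ℂ f z :=
    fun z h1 h2 => (hf z (h1.trans (by linarith)) (h2.trans (by linarith))).1
  -- the maximum on the circle
  have hn2 : ‖(2 * r : ℂ)‖ = 2 * r := by
    rw [norm_mul, Complex.norm_real, Real.norm_of_nonneg hr.le]
    norm_num
  have hcomp : IsCompact (Metric.sphere (0 : ℂ) 1) := isCompact_sphere 0 1
  have hcne : (Metric.sphere (0 : ℂ) 1).Nonempty := ⟨1, by simp⟩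
  have hcont : ContinuousOn (fun z : ℂ => ‖f (c + 2 * r * z)‖) (Metric.sphere (0 : ℂ) 1) := by
    intro z hz
    have hz1 : ‖z‖ = 1 := by simpa using hz
    have hb : ‖(2 * r : ℂ) * z‖ = 2 * r := by rw [norm_mul, hn2, hz1, mul_one]
    have h1 : AnalyticAt ℂ f (c + 2 * r * z) := by
      apply hf3
      · have := Complex.abs_re_le_norm ((2 * r : ℂ) * z)
        rw [Complex.add_re, add_sub_cancel_left]
        linarith
      · have := Complex.abs_im_le_norm ((2 * r : ℂ) * z)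
        rw [Complex.add_im, add_sub_cancel_left]
        linarith
    have h2 : ContinuousAt (fun z : ℂ => c + 2 * r * z) z := by fun_prop
    exact (ContinuousAt.comp (f := fun z : ℂ => c + 2 * r * z) h1.continuousAt h2).norm.continuousWithinAt
  obtain ⟨z0, hz0, hmax⟩ := hcomp.exists_isMaxOn hcne hcont
  have hz01 : ‖z0‖ = 1 := by simpa using hz0
  set s0 : ℂ := c + 2 * r * z0 with hs0
  have hM : ∀ z : ℂ, ‖z‖ = 1 → ‖f (c + 2 * r * z)‖ ≤ ‖f s0‖ := fun z hz =>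
    hmax (show z ∈ Metric.sphere (0 : ℂ) 1 by simpa using hz)
  have hder := C2_deriv4 hr hf3 hM (fun ρ hρ => ⟨(hZ ρ hρ).1, (hZ ρ hρ).2.1⟩)
  have hs0c : ‖s0 - c‖ ≤ 2 * r := by
    rw [hs0, add_sub_cancel_left, norm_mul, hn2, hz01, mul_one]
  obtain ⟨ρ1, hρ1⟩ := hne
  obtain ⟨hρ1c, _, hA1, hB1⟩ := hZ ρ1 hρ1
  have hpiece : ∀ i ∈ range n, ENNReal.ofReal (π * r ^ 2 * (π * r ^ 2 * ‖P i s0‖ ^ q)) ≤
      ∫⁻ a in Set.Icc (-(4 * r)) (4 * r), ∫⁻ b in Set.Icc (-(4 * r)) (4 * r),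
        ∫⁻ x in Set.Icc (c.re - 2 * r) (c.re + 2 * r), ∫⁻ y in Set.Icc (c.im - 2 * r) (c.im + 2 * r),
        ENNReal.ofReal (‖P i (x + y * I + (a + b * I))‖ ^ q * ‖A i (x + y * I)‖ ^ q *
          ‖B (x + y * I)‖ ^ r') := by
    intro i hi
    have hi' := mem_range.mp hi
    exact C2_piece4 hq hr' hr (fun z h1 h2 => ⟨((hf z h1 h2).2.1 i hi').1, ((hf z h1 h2).2.1 i hi').2,
      (hf z h1 h2).2.2.1⟩) hρ1c hs0c (hA1 i hi') hB1
  have hsum : ‖f s0‖ ^ q ≤ (n : ℝ) ^ q * ∑ i ∈ range n, ‖P i s0‖ ^ q := by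
    have h1 : ‖f s0‖ ≤ ∑ i ∈ range n, ‖P i s0‖ := by
      have h2 : f s0 = ∑ i ∈ range n, P i s0 := by
        refine (hf s0 ?_ ?_).2.2.2
        · have := Complex.abs_re_le_norm (s0 - c)
          rw [Complex.sub_re] at this
          linarith
        · have := Complex.abs_im_le_norm (s0 - c)
          rw [Complex.sub_im] at this
          linarith
      rw [h2]
      exact norm_sum_le _ _
    exact (Real.rpow_le_rpow (norm_nonneg _) h1 hq.le).trans
      (C2_sum4 hq n (fun i => ‖P i s0‖) fun i => norm_nonneg _)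
  -- the sum
  have hn1 : 1 ≤ Z.card := Finset.card_pos.mpr ⟨ρ1, hρ1⟩
  have hnum : (Z.card : ℝ) * (2 / 3 / r * (4 / 5 : ℝ) ^ (Z.card - 1) * ‖f s0‖) ^ q ≤
      K0 * r ^ (-q) * ‖f s0‖ ^ q := by
    have g1 := C2_geom4 hx0.le hx1 hn1
    have g2 : (2 / 3 / r * (4 / 5 : ℝ) ^ (Z.card - 1) * ‖f s0‖) ^ q =
        (2 / 3) ^ q * r ^ (-q) * ((4 / 5 : ℝ) ^ q) ^ (Z.card - 1) * ‖f s0‖ ^ q := by
      rw [Real.mul_rpow (by positivity) (norm_nonneg _), Real.mul_rpow (by positivity) (by positivity),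
        Real.div_rpow (by norm_num) hr.le, Real.rpow_neg hr.le, ← div_eq_mul_inv]
      congr 2
      rw [← Real.rpow_natCast, ← Real.rpow_natCast, ← Real.rpow_mul (by norm_num),
        ← Real.rpow_mul (by norm_num), mul_comm]
    rw [g2]
    have g5 : 0 ≤ (2 / 3 : ℝ) ^ q * r ^ (-q) * ‖f s0‖ ^ q := by positivity
    calc (Z.card : ℝ) * ((2 / 3) ^ q * r ^ (-q) * ((4 / 5 : ℝ) ^ q) ^ (Z.card - 1) * ‖f s0‖ ^ q)
        = ((Z.card : ℝ) * ((4 / 5 : ℝ) ^ q) ^ (Z.card - 1)) *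
            ((2 / 3 : ℝ) ^ q * r ^ (-q) * ‖f s0‖ ^ q) := by ring
      _ ≤ (1 - (4 / 5 : ℝ) ^ q)⁻¹ * ((2 / 3 : ℝ) ^ q * r ^ (-q) * ‖f s0‖ ^ q) :=
        mul_le_mul_of_nonneg_right g1 g5
      _ = K0 * r ^ (-q) * ‖f s0‖ ^ q := by rw [hK0]; ring
  have hnum2 : K0 * r ^ (-q) * ‖f s0‖ ^ q ≤
      ∑ i ∈ range n, K0 * (n : ℝ) ^ q / π ^ 2 * r ^ (-q - 4) *
        (π * r ^ 2 * (π * r ^ 2 * ‖P i s0‖ ^ q)) := by
    have g3 : r ^ (-q - 4) * (r ^ 2 * r ^ 2) = r ^ (-q) := by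
      rw [← pow_add, ← Real.rpow_natCast r (2 + 2), ← Real.rpow_add hr]
      congr 1
      push_cast
      ring
    refine (mul_le_mul_of_nonneg_left hsum (by positivity)).trans (le_of_eq ?_)
    rw [Finset.mul_sum, Finset.mul_sum]
    refine Finset.sum_congr rfl fun i _ => ?_
    rw [← g3]
    field_simp
  calc ∑ ρ ∈ Z, ENNReal.ofReal (‖deriv f ρ‖ ^ q)
      ≤ ∑ _ρ ∈ Z, ENNReal.ofReal ((2 / 3 / r * (4 / 5 : ℝ) ^ (Z.card - 1) * ‖f s0‖) ^ q) :=
        Finset.sum_le_sum fun ρ hρ => ENNReal.ofReal_le_ofReal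
          (Real.rpow_le_rpow (norm_nonneg _) (hder ρ hρ) hq.le)
    _ = ENNReal.ofReal ((Z.card : ℝ) *
          (2 / 3 / r * (4 / 5 : ℝ) ^ (Z.card - 1) * ‖f s0‖) ^ q) := by
        rw [Finset.sum_const, nsmul_eq_mul, ENNReal.ofReal_mul (by positivity),
          ENNReal.ofReal_natCast]
    _ ≤ ENNReal.ofReal (∑ i ∈ range n, K0 * (n : ℝ) ^ q / π ^ 2 * r ^ (-q - 4) *
        (π * r ^ 2 * (π * r ^ 2 * ‖P i s0‖ ^ q))) :=
        ENNReal.ofReal_le_ofReal (hnum.trans hnum2)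
    _ = ∑ i ∈ range n, ENNReal.ofReal (K0 * (n : ℝ) ^ q / π ^ 2 * r ^ (-q - 4)) *
          ENNReal.ofReal (π * r ^ 2 * (π * r ^ 2 * ‖P i s0‖ ^ q)) := by
        rw [ENNReal.ofReal_sum_of_nonneg fun i _ => by positivity]
        exact Finset.sum_congr rfl fun i _ => ENNReal.ofReal_mul (by positivity)
    _ ≤ _ := by
        rw [Finset.mul_sum]
        refine Finset.sum_le_sum fun i hi => mul_le_mul' (ENNReal.ofReal_le_ofReal ?_) (hpiece i hi)
        exact mul_le_mul_of_nonneg_right (le_max_right _ _) (by positivity)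

end Pool.Agent.UV
end
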