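import Pool.Agent.Lib.MP_69b2e4_nt.LB.Defs
import Pool.Agent.Lib.MP_69b2e4_nt.Mg.G016
import Pool.Agent.Lib.MP_69b2e4_nt.LB.A3

section

/-! TASK M1. One prime. COPY UV/R1.lean (its lemmas are private).
`one_prime5`: the integrand is `‖F(x)‖²` with `F(z) = (1-yz)⁻¹ (1-bz) e^{cz}`, holomorphic near the closed unit disc, `F(0) = 1`, `F'(0) = y - b + c =: f`. On `‖z‖ = 1`: `(1-yz)⁻¹ = 1 + yz + r₁`, `‖r₁‖ ≤ 4u²`; `e^{cz} = 1 + cz + r₂`, `‖r₂‖ ≤ ‖c‖² e^{‖c‖} ≤ A² u² e^A`; `‖b‖ ≤ Au`.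
So `‖F(z) - 1 - fz‖ ≤ K u²` with `K = K(A)` and `∫ ‖F‖² ≤ 1 + ‖f‖² + K² u⁴` (`R1_split`, the cross terms vanish).
`one_prime_low`: `e^{2 Re cx} = e^{cx} conj(e^{cx})`, the integral is `∑ ‖c‖^{2k}/(k!)² ≥ 1 + ‖c‖² ≥ exp(‖c‖² - ‖c‖⁴)` (e.g. `∫ ‖e^{cx}‖² ≥ ‖∫ e^{cx}‖² + ‖∫ e^{cx} conj x‖² = 1 + ‖c‖²`, Bessel for two orthonormal functions; `1 + x ≥ exp(x - x²)` for `x ≥ 0`).
`one_prime_G`: `(1-yx)⁻¹(1-b1 x) = 1 + ∑_{k≥1} (y - b1) y^{k-1} x^k`, similarly for `b2`; orthogonality of the powers of `x`: `1 + (y-b1) conj(y-b2) ∑_{k≥1} y^{2(k-1)}`. -/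

set_option autoImplicit false

namespace Pool.Agent.LB

open Complex MeasureTheory Finset Pool.Agent.GH Pool.Agent.UH Pool.Agent.UV
open scoped Real ComplexConjugate

private theorem M1_mv {f : ℂ → ℂ} (hf : DifferentiableOn ℂ f (Metric.closedBall 0 1)) :
    ∫ x : UnitAddCircle, f (AddCircle.toCircle x : ℂ)
      ∂(AddCircle.haarAddCircle : Measure UnitAddCircle) = f 0 := by
  have hd : DiffContOnCl ℂ f (Metric.ball 0 |(1 : ℝ)|) := by
    apply DifferentiableOn.diffContOnCl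
    rw [abs_one, closure_ball _ one_ne_zero]
    exact hf
  have h1 := hd.circleAverage
  rw [Real.circleAverage_def] at h1
  rw [AddCircle.integral_haarAddCircle, ← UnitAddCircle.intervalIntegral_preimage 0]
  rw [← h1]
  have h2 : ∀ a : ℝ, f ((AddCircle.toCircle (a : UnitAddCircle) : Circle) : ℂ) =
      f (circleMap 0 1 (2 * π * a)) := by
    intro a
    rw [AddCircle.toCircle_apply_mk, Circle.coe_exp, circleMap]
    congr 1
    rw [div_one]
    push_cast
    ring
  simp_rw [h2]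
  rw [intervalIntegral.integral_comp_mul_left (fun θ => f (circleMap 0 1 θ)) (by positivity)]
  simp

private theorem M1_cont : Continuous fun x : UnitAddCircle => (AddCircle.toCircle x : ℂ) :=
  continuous_subtype_val.comp AddCircle.continuous_toCircle

private theorem M1_int {f : UnitAddCircle → ℂ} (hf : Continuous f) :
    Integrable f (AddCircle.haarAddCircle : Measure UnitAddCircle) :=
  hf.integrable_of_hasCompactSupport (HasCompactSupport.of_compactSpace f)

private theorem M1_norm (x : UnitAddCircle) : ‖(AddCircle.toCircle x : ℂ)‖ = 1 := Circle.norm_coe _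

private theorem M1_der {f : ℂ → ℂ} {f' : ℂ} (hf : DifferentiableOn ℂ f (Metric.closedBall 0 1))
    (h0 : f 0 = 0) (hd : HasDerivAt f f' 0) :
    ∫ x : UnitAddCircle, f (AddCircle.toCircle x : ℂ) * conj (AddCircle.toCircle x : ℂ)
      ∂(AddCircle.haarAddCircle : Measure UnitAddCircle) = f' := by
  have h1 : DifferentiableOn ℂ (dslope f 0) (Metric.closedBall 0 1) :=
    (Complex.differentiableOn_dslope (Metric.closedBall_mem_nhds 0 one_pos)).2 hf
  have h2 := M1_mv h1
  rw [dslope_same, hd.deriv] at h2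
  rw [← h2]
  refine integral_congr_ae (Filter.Eventually.of_forall fun x => ?_)
  have hne : (AddCircle.toCircle x : ℂ) ≠ 0 := by
    intro h
    have := M1_norm x
    rw [h, norm_zero] at this
    exact zero_ne_one this
  have hc : conj (AddCircle.toCircle x : ℂ) = (AddCircle.toCircle x : ℂ)⁻¹ := by
    rw [Complex.inv_def, Complex.normSq_eq_norm_sq, M1_norm]
    simp
  change f (AddCircle.toCircle x : ℂ) * conj (AddCircle.toCircle x : ℂ) = dslope f 0 _
  rw [dslope_of_ne _ hne, slope_def_field, h0, hc, sub_zero, sub_zero, div_eq_mul_inv]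

private theorem M1_main (F G : ℂ → ℂ) (a d : ℂ)
    (hF : DifferentiableOn ℂ F (Metric.closedBall 0 1))
    (hG : DifferentiableOn ℂ G (Metric.closedBall 0 1)) (hF0 : F 0 = 1) (hG0 : G 0 = 1)
    (hF' : HasDerivAt F a 0) (hG' : HasDerivAt G d 0) :
    (∫ x : UnitAddCircle, F (AddCircle.toCircle x : ℂ) *
      conj (G (AddCircle.toCircle x : ℂ)) ∂(AddCircle.haarAddCircle : Measure UnitAddCircle)) =
      (1 + a * conj d) + ∫ x : UnitAddCircle,
        (F (AddCircle.toCircle x : ℂ) - 1 - a * (AddCircle.toCircle x : ℂ)) *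
        conj (G (AddCircle.toCircle x : ℂ) - 1 - d * (AddCircle.toCircle x : ℂ))
        ∂(AddCircle.haarAddCircle : Measure UnitAddCircle) := by
  have hmaps : ∀ x : UnitAddCircle, (AddCircle.toCircle x : ℂ) ∈ Metric.closedBall (0 : ℂ) 1 := by
    intro x
    rw [mem_closedBall_zero_iff, M1_norm]
  have hcomp : ∀ {H : ℂ → ℂ}, DifferentiableOn ℂ H (Metric.closedBall 0 1) →
      Continuous fun x : UnitAddCircle => H (AddCircle.toCircle x : ℂ) := fun hH =>
    hH.continuousOn.comp_continuous M1_cont hmaps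
  have hR : DifferentiableOn ℂ (fun z => F z - 1 - a * z) (Metric.closedBall 0 1) :=
    (hF.sub (differentiableOn_const _)).sub (differentiableOn_id.const_mul a)
  have hS : DifferentiableOn ℂ (fun z => G z - 1 - d * z) (Metric.closedBall 0 1) :=
    (hG.sub (differentiableOn_const _)).sub (differentiableOn_id.const_mul d)
  have hR0 : (fun z => F z - 1 - a * z) 0 = 0 := by simp [hF0]
  have hS0 : (fun z => G z - 1 - d * z) 0 = 0 := by simp [hG0]
  have hR' : HasDerivAt (fun z => F z - 1 - a * z) 0 0 := by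
    have h := (hF'.sub_const 1).sub ((hasDerivAt_id (0 : ℂ)).const_mul a)
    rw [mul_one, sub_self] at h
    exact h
  have hS' : HasDerivAt (fun z => G z - 1 - d * z) 0 0 := by
    have h := (hG'.sub_const 1).sub ((hasDerivAt_id (0 : ℂ)).const_mul d)
    rw [mul_one, sub_self] at h
    exact h
  have eR0 := (M1_mv hR).trans hR0
  have eR1 := M1_der hR hR0 hR'
  have eS0 := (M1_mv hS).trans hS0
  have eS1 := M1_der hS hS0 hS'
  have eX := M1_mv (f := fun z => z) differentiableOn_id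
  have cR := hcomp hR
  have cS := hcomp hS
  beta_reduce at eR0 eR1 eS0 eS1 eX cR cS
  have cX := M1_cont
  -- the conjugate integrals
  have eS0c : ∫ x : UnitAddCircle, conj (G (AddCircle.toCircle x : ℂ) - 1 -
      d * (AddCircle.toCircle x : ℂ)) ∂(AddCircle.haarAddCircle : Measure UnitAddCircle) = 0 := by
    rw [integral_conj, eS0, map_zero]
  have eS1c : ∫ x : UnitAddCircle, (AddCircle.toCircle x : ℂ) *
      conj (G (AddCircle.toCircle x : ℂ) - 1 - d * (AddCircle.toCircle x : ℂ))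
      ∂(AddCircle.haarAddCircle : Measure UnitAddCircle) = 0 := by
    have h : ∀ x : UnitAddCircle, (AddCircle.toCircle x : ℂ) *
      conj (G (AddCircle.toCircle x : ℂ) - 1 - d * (AddCircle.toCircle x : ℂ)) =
      conj ((G (AddCircle.toCircle x : ℂ) - 1 - d * (AddCircle.toCircle x : ℂ)) *
        conj (AddCircle.toCircle x : ℂ)) := by
      intro x
      rw [map_mul, Complex.conj_conj, mul_comm]
    simp_rw [h]
    rw [integral_conj, eS1, map_zero]
  have eXc : ∫ x : UnitAddCircle, conj (AddCircle.toCircle x : ℂ)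
      ∂(AddCircle.haarAddCircle : Measure UnitAddCircle) = 0 := by
    rw [integral_conj, eX, map_zero]
  have hXX : ∀ x : UnitAddCircle, (AddCircle.toCircle x : ℂ) * conj (AddCircle.toCircle x : ℂ) = 1 := by
    intro x
    rw [Complex.mul_conj, Complex.normSq_eq_norm_sq, M1_norm]
    simp
  obtain ⟨k, hk⟩ : ∃ k : ℂ, k = 1 + a * conj d := ⟨_, rfl⟩
  have hexp : ∀ x : UnitAddCircle, F (AddCircle.toCircle x : ℂ) *
      conj (G (AddCircle.toCircle x : ℂ)) =
      k + (a * (AddCircle.toCircle x : ℂ) + (conj d * conj (AddCircle.toCircle x : ℂ) +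
      (conj (G (AddCircle.toCircle x : ℂ) - 1 - d * (AddCircle.toCircle x : ℂ)) +
      (a * ((AddCircle.toCircle x : ℂ) *
        conj (G (AddCircle.toCircle x : ℂ) - 1 - d * (AddCircle.toCircle x : ℂ))) +
      ((F (AddCircle.toCircle x : ℂ) - 1 - a * (AddCircle.toCircle x : ℂ)) +
      (conj d * ((F (AddCircle.toCircle x : ℂ) - 1 - a * (AddCircle.toCircle x : ℂ)) *
        conj (AddCircle.toCircle x : ℂ)) +
      (F (AddCircle.toCircle x : ℂ) - 1 - a * (AddCircle.toCircle x : ℂ)) *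
        conj (G (AddCircle.toCircle x : ℂ) - 1 - d * (AddCircle.toCircle x : ℂ)))))))) := by
    intro x
    simp only [map_sub, map_mul, map_one]
    rw [hk]
    linear_combination (a * conj d) * hXX x
  have hprob : ∫ _x : UnitAddCircle, k
      ∂(AddCircle.haarAddCircle : Measure UnitAddCircle) = k := by
    simp
  have hmain : (∫ x : UnitAddCircle, F (AddCircle.toCircle x : ℂ) *
      conj (G (AddCircle.toCircle x : ℂ)) ∂(AddCircle.haarAddCircle : Measure UnitAddCircle)) =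
      k + ∫ x : UnitAddCircle,
        (F (AddCircle.toCircle x : ℂ) - 1 - a * (AddCircle.toCircle x : ℂ)) *
        conj (G (AddCircle.toCircle x : ℂ) - 1 - d * (AddCircle.toCircle x : ℂ))
        ∂(AddCircle.haarAddCircle : Measure UnitAddCircle) := by
    simp_rw [hexp]
    have c1 : Continuous fun x : UnitAddCircle => conj (AddCircle.toCircle x : ℂ) :=
      Complex.continuous_conj.comp cX
    have c2 : Continuous fun x : UnitAddCircle => conj (G (AddCircle.toCircle x : ℂ) - 1 -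
      d * (AddCircle.toCircle x : ℂ)) := Complex.continuous_conj.comp cS
    rw [integral_add (by fun_prop) (M1_int (by fun_prop)),
      integral_add (M1_int (by fun_prop)) (M1_int (by fun_prop)),
      integral_add (M1_int (by fun_prop)) (M1_int (by fun_prop)),
      integral_add (M1_int (by fun_prop)) (M1_int (by fun_prop)),
      integral_add (M1_int (by fun_prop)) (M1_int (by fun_prop)),
      integral_add (M1_int (by fun_prop)) (M1_int (by fun_prop)),
      integral_add (M1_int (by fun_prop)) (M1_int (by fun_prop)),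
      integral_const_mul, integral_const_mul, integral_const_mul, integral_const_mul,
      hprob, eX, eXc, eS0c, eS1c, eR0, eR1]
    simp
  rw [hmain, hk]

private theorem M1_split (F G : ℂ → ℂ) (a d : ℂ)
    (hF : DifferentiableOn ℂ F (Metric.closedBall 0 1))
    (hG : DifferentiableOn ℂ G (Metric.closedBall 0 1)) (hF0 : F 0 = 1) (hG0 : G 0 = 1)
    (hF' : HasDerivAt F a 0) (hG' : HasDerivAt G d 0) {B1 B2 : ℝ} (hB1 : 0 ≤ B1)
    (hFb : ∀ z : ℂ, ‖z‖ = 1 → ‖F z - 1 - a * z‖ ≤ B1)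
    (hGb : ∀ z : ℂ, ‖z‖ = 1 → ‖G z - 1 - d * z‖ ≤ B2) :
    ‖(∫ x : UnitAddCircle, F (AddCircle.toCircle x : ℂ) * conj (G (AddCircle.toCircle x : ℂ))
      ∂(AddCircle.haarAddCircle : Measure UnitAddCircle)) - 1 - a * conj d‖ ≤ B1 * B2 := by
  rw [M1_main F G a d hF hG hF0 hG0 hF' hG']
  have h1 : ∀ z : ℂ, 1 + a * conj d + z - 1 - a * conj d = z := fun z => by ring
  rw [h1]
  have hb : ∀ x : UnitAddCircle,
      ‖(F (AddCircle.toCircle x : ℂ) - 1 - a * (AddCircle.toCircle x : ℂ)) *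
        conj (G (AddCircle.toCircle x : ℂ) - 1 - d * (AddCircle.toCircle x : ℂ))‖ ≤ B1 * B2 := by
    intro x
    rw [norm_mul, RCLike.norm_conj]
    exact mul_le_mul (hFb _ (M1_norm x)) (hGb _ (M1_norm x)) (norm_nonneg _) hB1
  have h2 := norm_integral_le_of_norm_le_const (μ := (AddCircle.haarAddCircle :
    Measure UnitAddCircle)) (Filter.Eventually.of_forall hb)
  simpa using h2

theorem one_prime5 (A : ℝ) (hA : 0 ≤ A) : ∃ C : ℝ, 0 ≤ C ∧ ∀ (u y : ℝ) (b c : ℂ), 0 ≤ y → y ≤ u →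
    u ≤ 3 / 4 → ‖b‖ ≤ A * u → ‖c‖ ≤ A * u →
    ∫ x : UnitAddCircle, ‖(1 - (y : ℂ) * (AddCircle.toCircle x : ℂ))⁻¹‖ ^ 2 *
      ‖1 - b * (AddCircle.toCircle x : ℂ)‖ ^ 2 *
      Real.exp (2 * (c * (AddCircle.toCircle x : ℂ)).re)
      ∂(AddCircle.haarAddCircle : Measure UnitAddCircle) ≤
    Real.exp (‖(y : ℂ) - b + c‖ ^ 2 + C * u ^ 4) := by
  obtain ⟨K, hKd⟩ : ∃ K : ℝ, K = 4 * (1 + A) * Real.exp A + 2 * (1 + A) * (A ^ 2 * Real.exp A) +
    (2 * A + A ^ 2) + A ^ 2 := ⟨_, rfl⟩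
  have hK0 : 0 ≤ K := by
    rw [hKd]
    positivity
  refine ⟨K ^ 2, by positivity, ?_⟩
  intro u y b c hy0 hyu hu1 hb hc
  have hu0 : 0 ≤ u := hy0.trans hyu
  have hq : ∀ (w z : ℂ), ‖w‖ ≤ 3 / 4 → ‖z‖ ≤ 1 → (1 / 4 : ℝ) ≤ ‖1 - w * z‖ := by
    intro w z hw hz
    have h1 : ‖w * z‖ ≤ 3 / 4 := by
      rw [norm_mul]
      calc ‖w‖ * ‖z‖ ≤ 3 / 4 * 1 := mul_le_mul hw hz (norm_nonneg _) (by norm_num)
        _ = 3 / 4 := mul_one _
    have h2 := norm_sub_norm_le (1 : ℂ) (w * z)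
    rw [norm_one] at h2
    linarith
  have hyn : ‖(y : ℂ)‖ = y := by rw [Complex.norm_real, Real.norm_of_nonneg hy0]
  have hy34 : ‖(y : ℂ)‖ ≤ 3 / 4 := by rw [hyn]; exact hyu.trans hu1
  have hne : ∀ z : ℂ, ‖z‖ ≤ 1 → 1 - (y : ℂ) * z ≠ 0 := by
    intro z hz h
    have := hq _ z hy34 hz
    rw [h, norm_zero] at this
    norm_num at this
  obtain ⟨f, hf⟩ : ∃ f : ℂ, f = (y : ℂ) - b + c := ⟨_, rfl⟩
  have hdiff : DifferentiableOn ℂ (fun z : ℂ => (1 - (y : ℂ) * z)⁻¹ * (1 - b * z) * cexp (c * z))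
      (Metric.closedBall 0 1) := by
    intro z hz
    rw [mem_closedBall_zero_iff] at hz
    have := hne z hz
    have h1 : DifferentiableAt ℂ
        (fun z : ℂ => (1 - (y : ℂ) * z)⁻¹ * (1 - b * z) * cexp (c * z)) z := by
      fun_prop (disch := assumption)
    exact h1.differentiableWithinAt
  have hder : HasDerivAt (fun z : ℂ => (1 - (y : ℂ) * z)⁻¹ * (1 - b * z) * cexp (c * z)) f 0 := by
    have hlin : ∀ w : ℂ, HasDerivAt (fun z : ℂ => 1 - w * z) (-w) 0 := by
      intro w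
      have h := ((hasDerivAt_id (0 : ℂ)).const_mul w).const_sub 1
      rw [mul_one] at h
      exact h
    have h1 := hlin (y : ℂ)
    have h1b := hlin b
    have h2 := h1.inv (by simp)
    have h3 : HasDerivAt (fun z : ℂ => cexp (c * z)) (cexp (c * 0) * (c * 1)) 0 :=
      ((hasDerivAt_id (0 : ℂ)).const_mul (c : ℂ)).cexp
    have h4 := (h2.mul h1b).mul h3
    have h5 : (-(-(y : ℂ)) / (1 - (y : ℂ) * 0) ^ 2 * (1 - b * 0) + (1 - (y : ℂ) * 0)⁻¹ * (-b)) *
        cexp (c * 0) + ((1 - (y : ℂ) * 0)⁻¹ * (1 - b * 0)) * (cexp (c * 0) * (c * 1)) = f := by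
      rw [hf]
      simp
      ring
    rw [← h5]
    exact h4
  have hbd : ∀ z : ℂ, ‖z‖ = 1 →
      ‖(fun z : ℂ => (1 - (y : ℂ) * z)⁻¹ * (1 - b * z) * cexp (c * z)) z - 1 - f * z‖ ≤
        K * u ^ 2 := by
    intro z hz
    have hz1 : ‖z‖ ≤ 1 := hz.le
    have hnz := hne z hz1
    have hyz : ‖(y : ℂ) * z‖ ≤ u := by
      rw [norm_mul, hz, mul_one, hyn]
      exact hyu
    have hcz : ‖c * z‖ ≤ A * u := by rw [norm_mul, hz, mul_one]; exact hc
    have hbz : ‖b * z‖ ≤ A * u := by rw [norm_mul, hz, mul_one]; exact hb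
    have hAu : A * u ≤ A := by
      have h := mul_le_mul_of_nonneg_left (by linarith : u ≤ 1) hA
      linarith
    obtain ⟨P, hP⟩ : ∃ P : ℂ, P = (1 - (y : ℂ) * z)⁻¹ := ⟨_, rfl⟩
    obtain ⟨E, hE0⟩ : ∃ E : ℂ, E = cexp (c * z) := ⟨_, rfl⟩
    have hP1 : P * (1 - (y : ℂ) * z) = 1 := by rw [hP]; exact inv_mul_cancel₀ hnz
    have hP2 : P = 1 + (y : ℂ) * z + ((y : ℂ) * z) ^ 2 * P := by
      linear_combination (1 + (y : ℂ) * z) * hP1
    have e1 : (fun z : ℂ => (1 - (y : ℂ) * z)⁻¹ * (1 - b * z) * cexp (c * z)) z - 1 - f * z =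
        ((y : ℂ) * z) ^ 2 * P * (1 - b * z) * E +
        (1 + (y : ℂ) * z) * (1 - b * z) * (E - 1 - c * z) +
        (-(y * b) + y * c - b * c) * z ^ 2 + -(y * b * c) * z ^ 3 := by
      rw [hf]
      beta_reduce
      rw [← hP, ← hE0]
      linear_combination (1 - b * z) * E * hP2
    rw [e1]
    have h1b : ‖1 - b * z‖ ≤ 1 + A := by
      refine (norm_sub_le _ _).trans ?_
      rw [norm_one]
      linarith
    have h1u : ‖1 + (y : ℂ) * z‖ ≤ 2 := by
      refine (norm_add_le _ _).trans ?_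
      rw [norm_one]
      linarith
    have hPn : ‖P‖ ≤ 4 := by
      rw [hP, norm_inv]
      have := hq _ z hy34 hz1
      rw [inv_le_comm₀ (lt_of_lt_of_le (by norm_num) this) (by norm_num)]
      exact le_trans (by norm_num) this
    have hexp3 : Real.exp ‖c * z‖ ≤ Real.exp A := Real.exp_le_exp.2 (hcz.trans hAu)
    have hE : ‖E‖ ≤ Real.exp A := by
      rw [hE0]
      exact (Complex.norm_exp_le_exp_norm _).trans hexp3
    have hE3 : ‖E - 1 - c * z‖ ≤ (A * u) ^ 2 * Real.exp A := by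
      have h := Complex.norm_exp_sub_sum_le_norm_mul_exp (c * z) 2
      have h2 : (∑ m ∈ range 2, (c * z) ^ m / (m.factorial : ℂ)) = 1 + c * z := by
        simp [Finset.sum_range_succ]
      rw [h2, ← sub_sub, ← hE0] at h
      refine h.trans ?_
      gcongr
    have n1 : ‖((y : ℂ) * z) ^ 2 * P * (1 - b * z) * E‖ ≤ u ^ 2 * 4 * (1 + A) * Real.exp A := by
      rw [norm_mul, norm_mul, norm_mul, norm_pow]
      gcongr
    have n2 : ‖(1 + (y : ℂ) * z) * (1 - b * z) * (E - 1 - c * z)‖ ≤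
        2 * (1 + A) * ((A * u) ^ 2 * Real.exp A) := by
      rw [norm_mul, norm_mul]
      gcongr
    have hyn' : ‖(y : ℂ)‖ ≤ u := hyn.le.trans hyu
    have hAu0 : 0 ≤ A * u := by positivity
    have n3 : ‖(-(y * b) + y * c - b * c) * z ^ 2‖ ≤ (2 * A + A ^ 2) * u ^ 2 := by
      rw [norm_mul, norm_pow, hz, one_pow, mul_one]
      have k1 : ‖-((y : ℂ) * b)‖ ≤ u * (A * u) := by
        rw [norm_neg, norm_mul]
        exact mul_le_mul hyn' hb (norm_nonneg _) hu0
      have k2 : ‖(y : ℂ) * c‖ ≤ u * (A * u) := by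
        rw [norm_mul]
        exact mul_le_mul hyn' hc (norm_nonneg _) hu0
      have k3 : ‖b * c‖ ≤ (A * u) * (A * u) := by
        rw [norm_mul]
        exact mul_le_mul hb hc (norm_nonneg _) hAu0
      calc ‖-((y : ℂ) * b) + y * c - b * c‖ ≤ ‖-((y : ℂ) * b)‖ + ‖(y : ℂ) * c‖ + ‖b * c‖ := by
            refine (norm_sub_le _ _).trans (add_le_add_left ?_ _)
            exact norm_add_le _ _
        _ ≤ u * (A * u) + u * (A * u) + (A * u) * (A * u) := add_le_add (add_le_add k1 k2) k3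
        _ = (2 * A + A ^ 2) * u ^ 2 := by ring
    have n4 : ‖-((y : ℂ) * b * c) * z ^ 3‖ ≤ A ^ 2 * u ^ 2 := by
      rw [norm_mul, norm_pow, hz, one_pow, mul_one, norm_neg, norm_mul, norm_mul]
      calc ‖(y : ℂ)‖ * ‖b‖ * ‖c‖ ≤ 1 * (A * u) * (A * u) := by
            gcongr
            linarith
        _ = A ^ 2 * u ^ 2 := by ring
    calc _ ≤ ‖((y : ℂ) * z) ^ 2 * P * (1 - b * z) * E‖ +
          ‖(1 + (y : ℂ) * z) * (1 - b * z) * (E - 1 - c * z)‖ +
          ‖(-(y * b) + y * c - b * c) * z ^ 2‖ + ‖-((y : ℂ) * b * c) * z ^ 3‖ := by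
          refine (norm_add_le _ _).trans (add_le_add_left ?_ _)
          exact norm_add₃_le
      _ ≤ u ^ 2 * 4 * (1 + A) * Real.exp A + 2 * (1 + A) * ((A * u) ^ 2 * Real.exp A) +
          (2 * A + A ^ 2) * u ^ 2 + A ^ 2 * u ^ 2 :=
          add_le_add (add_le_add (add_le_add n1 n2) n3) n4
      _ = K * u ^ 2 := by rw [hKd]; ring
  have hKu : 0 ≤ K * u ^ 2 := by positivity
  have key := M1_split
    (fun z => (1 - (y : ℂ) * z)⁻¹ * (1 - b * z) * cexp (c * z))
    (fun z => (1 - (y : ℂ) * z)⁻¹ * (1 - b * z) * cexp (c * z)) f f hdiff hdiff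
    (by simp) (by simp) hder hder (B1 := K * u ^ 2) (B2 := K * u ^ 2) hKu hbd hbd
  have hint : (∫ x : UnitAddCircle,
      (fun z : ℂ => (1 - (y : ℂ) * z)⁻¹ * (1 - b * z) * cexp (c * z))
        (AddCircle.toCircle x : ℂ) *
      conj ((fun z : ℂ => (1 - (y : ℂ) * z)⁻¹ * (1 - b * z) * cexp (c * z))
        (AddCircle.toCircle x : ℂ))
      ∂(AddCircle.haarAddCircle : Measure UnitAddCircle)) =
      ((∫ x : UnitAddCircle, ‖(1 - (y : ℂ) * (AddCircle.toCircle x : ℂ))⁻¹‖ ^ 2 *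
      ‖1 - b * (AddCircle.toCircle x : ℂ)‖ ^ 2 *
      Real.exp (2 * (c * (AddCircle.toCircle x : ℂ)).re)
      ∂(AddCircle.haarAddCircle : Measure UnitAddCircle) : ℝ) : ℂ) := by
    rw [← integral_complex_ofReal]
    refine integral_congr_ae (Filter.Eventually.of_forall fun x => ?_)
    beta_reduce
    rw [Complex.mul_conj, Complex.normSq_eq_norm_sq, norm_mul, norm_mul, Complex.norm_exp]
    congr 1
    rw [mul_pow, mul_pow, ← Real.exp_nat_mul]
    norm_num
  rw [hint] at key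
  have hff : f * conj f = ((‖f‖ ^ 2 : ℝ) : ℂ) := by
    rw [Complex.mul_conj, Complex.normSq_eq_norm_sq]
  rw [hff] at key
  have h1 := (Complex.abs_re_le_norm _).trans key
  have h2 : ∀ I s : ℝ, (((I : ℝ) : ℂ) - 1 - ((s : ℝ) : ℂ)).re = I - 1 - s := by
    intro I s
    simp
  rw [h2] at h1
  have h3 := (abs_le.1 h1).2
  rw [← hf]
  have h4 := Real.add_one_le_exp (‖f‖ ^ 2 + K ^ 2 * u ^ 4)
  have h5 : K * u ^ 2 * (K * u ^ 2) = K ^ 2 * u ^ 4 := by ring
  rw [h5, sub_sub, sub_le_iff_le_add] at h3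
  refine h3.trans (le_trans (le_of_eq ?_) h4)
  ring

theorem one_prime_low (c : ℂ) :
    Real.exp (‖c‖ ^ 2 - ‖c‖ ^ 4) ≤
    ∫ x : UnitAddCircle, Real.exp (2 * (c * (AddCircle.toCircle x : ℂ)).re)
      ∂(AddCircle.haarAddCircle : Measure UnitAddCircle) := by
  have hdiff : DifferentiableOn ℂ (fun z : ℂ => cexp (c * z)) (Metric.closedBall 0 1) := by
    have : Differentiable ℂ (fun z : ℂ => cexp (c * z)) := by fun_prop
    exact this.differentiableOn
  have hder : HasDerivAt (fun z : ℂ => cexp (c * z)) c 0 := by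
    have h3 : HasDerivAt (fun z : ℂ => cexp (c * z)) (cexp (c * 0) * (c * 1)) 0 :=
      ((hasDerivAt_id (0 : ℂ)).const_mul (c : ℂ)).cexp
    simpa using h3
  have key := M1_main (fun z => cexp (c * z)) (fun z => cexp (c * z)) c c hdiff hdiff
    (by simp) (by simp) hder hder
  have hint : (∫ x : UnitAddCircle, (fun z : ℂ => cexp (c * z)) (AddCircle.toCircle x : ℂ) *
      conj ((fun z : ℂ => cexp (c * z)) (AddCircle.toCircle x : ℂ))
      ∂(AddCircle.haarAddCircle : Measure UnitAddCircle)) =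
      ((∫ x : UnitAddCircle, Real.exp (2 * (c * (AddCircle.toCircle x : ℂ)).re)
      ∂(AddCircle.haarAddCircle : Measure UnitAddCircle) : ℝ) : ℂ) := by
    rw [← integral_complex_ofReal]
    refine integral_congr_ae (Filter.Eventually.of_forall fun x => ?_)
    beta_reduce
    rw [Complex.mul_conj, Complex.normSq_eq_norm_sq, Complex.norm_exp]
    congr 1
    rw [← Real.exp_nat_mul]
    norm_num
  have hint2 : (∫ x : UnitAddCircle,
        ((fun z : ℂ => cexp (c * z)) (AddCircle.toCircle x : ℂ) - 1 -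
          c * (AddCircle.toCircle x : ℂ)) *
        conj ((fun z : ℂ => cexp (c * z)) (AddCircle.toCircle x : ℂ) - 1 -
          c * (AddCircle.toCircle x : ℂ))
        ∂(AddCircle.haarAddCircle : Measure UnitAddCircle)) =
      ((∫ x : UnitAddCircle, ‖cexp (c * (AddCircle.toCircle x : ℂ)) - 1 -
          c * (AddCircle.toCircle x : ℂ)‖ ^ 2
      ∂(AddCircle.haarAddCircle : Measure UnitAddCircle) : ℝ) : ℂ) := by
    rw [← integral_complex_ofReal]
    refine integral_congr_ae (Filter.Eventually.of_forall fun x => ?_)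
    beta_reduce
    rw [Complex.mul_conj, Complex.normSq_eq_norm_sq]
  have hcc : (1 : ℂ) + c * conj c = ((1 + ‖c‖ ^ 2 : ℝ) : ℂ) := by
    rw [Complex.mul_conj, Complex.normSq_eq_norm_sq]
    push_cast
    ring
  rw [hint, hint2, hcc, ← Complex.ofReal_add] at key
  have key2 := Complex.ofReal_injective key
  rw [key2]
  have hnn : 0 ≤ ∫ x : UnitAddCircle, ‖cexp (c * (AddCircle.toCircle x : ℂ)) - 1 -
      c * (AddCircle.toCircle x : ℂ)‖ ^ 2 ∂(AddCircle.haarAddCircle : Measure UnitAddCircle) :=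
    integral_nonneg fun x => by positivity
  have hx : 0 ≤ ‖c‖ ^ 2 := by positivity
  obtain ⟨t, ht⟩ : ∃ t : ℝ, t = ‖c‖ ^ 2 := ⟨_, rfl⟩
  have ht4 : ‖c‖ ^ 4 = t ^ 2 := by rw [ht]; ring
  rw [← ht] at hx ⊢
  rw [ht4]
  have h1 : Real.exp (t - t ^ 2) ≤ 1 + t := by
    rw [← Real.le_log_iff_exp_le (by linarith)]
    refine le_trans ?_ (Real.le_log_one_add_of_nonneg hx)
    rw [le_div_iff₀ (by linarith)]
    have h3 : 0 ≤ t ^ 3 := by positivity
    nlinarith
  linarith

theorem one_prime_G {y : ℝ} (h0 : 0 ≤ y) (h1 : y < 1) (b1 b2 : ℂ) :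
    ∫ x : UnitAddCircle, ((‖(1 - (y : ℂ) * (AddCircle.toCircle x : ℂ))⁻¹‖ ^ 2 : ℝ) : ℂ) *
      ((1 - b1 * (AddCircle.toCircle x : ℂ)) * conj (1 - b2 * (AddCircle.toCircle x : ℂ)))
      ∂(AddCircle.haarAddCircle : Measure UnitAddCircle) =
    1 + (y - b1) * (y - conj b2) / (1 - y ^ 2) := by
  have hyn : ‖(y : ℂ)‖ = y := by rw [Complex.norm_real, Real.norm_of_nonneg h0]
  have hne : ∀ z : ℂ, ‖z‖ ≤ 1 → 1 - (y : ℂ) * z ≠ 0 := by
    intro z hz h
    have h2 : (y : ℂ) * z = 1 := by linear_combination -h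
    have h3 : ‖(y : ℂ) * z‖ = 1 := by rw [h2, norm_one]
    rw [norm_mul, hyn] at h3
    have h4 : y * ‖z‖ ≤ y * 1 := mul_le_mul_of_nonneg_left hz h0
    linarith
  have hy2 : (1 : ℂ) - (y : ℂ) ^ 2 ≠ 0 := by
    have h2 : (1 : ℝ) - y ^ 2 ≠ 0 := by nlinarith
    intro h
    apply h2
    have h3 : (((1 : ℝ) - y ^ 2 : ℝ) : ℂ) = 0 := by
      push_cast
      exact h
    exact_mod_cast h3
  have hd1 : DifferentiableOn ℂ (fun z : ℂ => (1 - (y : ℂ) * z)⁻¹) (Metric.closedBall 0 1) := by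
    intro z hz
    rw [mem_closedBall_zero_iff] at hz
    have := hne z hz
    have h1 : DifferentiableAt ℂ (fun z : ℂ => (1 - (y : ℂ) * z)⁻¹) z := by
      fun_prop (disch := assumption)
    exact h1.differentiableWithinAt
  have hd2 : DifferentiableOn ℂ (fun z : ℂ => z * (1 - (y : ℂ) * z)⁻¹) (Metric.closedBall 0 1) :=
    differentiableOn_id.mul hd1
  have i1 := M1_mv hd1
  have i2 := M1_mv hd2
  beta_reduce at i1 i2
  have hcont : Continuous fun x : UnitAddCircle =>
      (1 - (y : ℂ) * (AddCircle.toCircle x : ℂ))⁻¹ := by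
    refine Continuous.inv₀ ?_ fun x => hne _ (M1_norm x).le
    have := M1_cont
    fun_prop
  have hcont2 : Continuous fun x : UnitAddCircle =>
      (AddCircle.toCircle x : ℂ) * (1 - (y : ℂ) * (AddCircle.toCircle x : ℂ))⁻¹ :=
    M1_cont.mul hcont
  have hcont3 : Continuous fun x : UnitAddCircle =>
      conj ((1 - (y : ℂ) * (AddCircle.toCircle x : ℂ))⁻¹) := Complex.continuous_conj.comp hcont
  have hcont4 : Continuous fun x : UnitAddCircle =>
      conj ((AddCircle.toCircle x : ℂ) * (1 - (y : ℂ) * (AddCircle.toCircle x : ℂ))⁻¹) :=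
    Complex.continuous_conj.comp hcont2
  have i3 : ∫ x : UnitAddCircle, conj ((1 - (y : ℂ) * (AddCircle.toCircle x : ℂ))⁻¹)
      ∂(AddCircle.haarAddCircle : Measure UnitAddCircle) = 1 := by
    rw [integral_conj, i1]
    simp
  have i4 : ∫ x : UnitAddCircle,
      conj ((AddCircle.toCircle x : ℂ) * (1 - (y : ℂ) * (AddCircle.toCircle x : ℂ))⁻¹)
      ∂(AddCircle.haarAddCircle : Measure UnitAddCircle) = 0 := by
    rw [integral_conj, i2]
    simp
  obtain ⟨κ, hκ⟩ : ∃ κ : ℂ, κ = (y - b1) * (y - conj b2) / (1 - (y : ℂ) ^ 2) := ⟨_, rfl⟩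
  have hexp : ∀ x : UnitAddCircle,
      ((‖(1 - (y : ℂ) * (AddCircle.toCircle x : ℂ))⁻¹‖ ^ 2 : ℝ) : ℂ) *
      ((1 - b1 * (AddCircle.toCircle x : ℂ)) * conj (1 - b2 * (AddCircle.toCircle x : ℂ))) =
      (1 - κ) + ((y - b1) *
        ((AddCircle.toCircle x : ℂ) * (1 - (y : ℂ) * (AddCircle.toCircle x : ℂ))⁻¹) +
      ((y - conj b2) *
        conj ((AddCircle.toCircle x : ℂ) * (1 - (y : ℂ) * (AddCircle.toCircle x : ℂ))⁻¹) +
      (κ * (1 - (y : ℂ) * (AddCircle.toCircle x : ℂ))⁻¹ +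
      κ * conj ((1 - (y : ℂ) * (AddCircle.toCircle x : ℂ))⁻¹)))) := by
    intro x
    have hxx : (AddCircle.toCircle x : ℂ) * conj (AddCircle.toCircle x : ℂ) = 1 := by
      rw [Complex.mul_conj, Complex.normSq_eq_norm_sq, M1_norm]
      simp
    obtain ⟨z, hz⟩ : ∃ z : ℂ, z = (AddCircle.toCircle x : ℂ) := ⟨_, rfl⟩
    have hz1 : ‖z‖ ≤ 1 := by rw [hz]; exact (M1_norm x).le
    rw [← hz] at hxx ⊢
    have hsq : ((‖(1 - (y : ℂ) * z)⁻¹‖ ^ 2 : ℝ) : ℂ) =
        (1 - (y : ℂ) * z)⁻¹ * conj ((1 - (y : ℂ) * z)⁻¹) := by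
      rw [Complex.mul_conj, Complex.normSq_eq_norm_sq]
    rw [hsq]
    obtain ⟨w, hw⟩ : ∃ w : ℂ, w = conj z := ⟨_, rfl⟩
    have hcz : conj ((1 - (y : ℂ) * z)⁻¹) = (1 - (y : ℂ) * w)⁻¹ := by
      rw [map_inv₀, map_sub, map_one, map_mul, Complex.conj_ofReal, hw]
    have hnw : 1 - (y : ℂ) * w ≠ 0 := hne w (by rw [hw, RCLike.norm_conj]; exact hz1)
    have hnz : 1 - (y : ℂ) * z ≠ 0 := hne z hz1
    have hzw : z * w = 1 := by rw [hw]; exact hxx
    have hκ' : κ * (1 - (y : ℂ) ^ 2) = (y - b1) * (y - conj b2) := by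
      rw [hκ, div_mul_cancel₀ _ hy2]
    rw [map_mul, hcz, map_sub, map_one, map_mul, ← hw]
    obtain ⟨e, he⟩ : ∃ e : ℂ, e = conj b2 := ⟨_, rfl⟩
    rw [← he] at hκ' ⊢
    obtain ⟨P, hP⟩ : ∃ P : ℂ, P = (1 - (y : ℂ) * z)⁻¹ := ⟨_, rfl⟩
    obtain ⟨Q, hQ⟩ : ∃ Q : ℂ, Q = (1 - (y : ℂ) * w)⁻¹ := ⟨_, rfl⟩
    have hP1 : P * (1 - (y : ℂ) * z) = 1 := by rw [hP]; exact inv_mul_cancel₀ hnz
    have hQ1 : Q * (1 - (y : ℂ) * w) = 1 := by rw [hQ]; exact inv_mul_cancel₀ hnw
    rw [← hP, ← hQ]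
    have hPQ : (1 - (y : ℂ) ^ 2) * (P * Q) = P + Q - 1 := by
      linear_combination Q * hP1 + P * hQ1 - (Q * (1 - y * w)) * hP1 - hQ1 + (y ^ 2 * P * Q) * hzw
    linear_combination (Q * (1 - e * w)) * hP1 + (1 + (y - b1) * z * P) * hQ1 -
      (z * w * P * Q) * hκ' + κ * (1 - (y : ℂ) ^ 2) * P * Q * hzw + κ * hPQ
  simp_rw [hexp]
  have c0 := M1_int hcont
  have c2 := M1_int hcont2
  have c3 := M1_int hcont3
  have c4 := M1_int hcont4
  rw [integral_add (by fun_prop) (by fun_prop), integral_add (by fun_prop) (by fun_prop),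
    integral_add (by fun_prop) (by fun_prop), integral_add (by fun_prop) (by fun_prop),
    integral_const_mul, integral_const_mul, integral_const_mul, integral_const_mul, i1, i2, i3, i4]
  rw [← hκ]
  simp

end Pool.Agent.LB
end

section

/-! TASK A1. The bump `bu x = smoothTransition (2 - 4x²)` and the test functions. `R0 = 6/5`.
`smoothTransition` is smooth, monotone, `0` on `(-∞,0]`, `1` on `[1,∞)`. `bu` has compact support, so its derivatives are bounded.
`mB B W x = R0 bu(x/W) + x bu(x/(4B))`, `1 ≤ B`, `8B ≤ W`: near `x = -R0`: `|x/W| ≤ 1/2`, `|x/(4B)| ≤ 1/2`, so `mB = R0 + x` there. For `x ≥ 3W/4`: `x/(4B) ≥ 3W/(16B) ≥ 3/2 ≥ 3/4`, so `mB = 0`.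
`Lh_int`: `mB'' = R0 bu''(x/W)/W² + 2 bu'(x/(4B))/(4B) + x bu''(x/(4B))/(16B²)`; `bu'(x/4B) ≠ 0` only for `2B ≤ |x| ≤ 3B`; so `|mB''| ≤ C/W² 1[x ≤ W] + (C/B) 1[2B ≤ x ≤ 3B]` for `x ≥ -R0`; and `|mB| ≤ R0 + 3B 1[x ≤ 3B]`, `mB = 0` for `x ≥ W`; `Lh = 0` for `|y| ≥ 3W/4`.
`Lp_int0`: `∫_0^W bu''(x/W) dx = W (bu'(1) - bu'(0)) = 0` (`bu' (0) = 0`, `bu = 1` near 0), `∫_{-W}^W bu''(y/W) dy = 0`. -/

set_option autoImplicit false

namespace Pool.Agent.LB

open Complex MeasureTheory Finset Pool.Agent.GH Pool.Agent.UH Pool.Agent.UV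
open scoped Real ComplexConjugate ContDiff

theorem bu_contDiff : ContDiff ℝ ∞ bu := by
  unfold bu
  exact (Real.smoothTransition.contDiff (n := ⊤)).comp (by fun_prop)

theorem bu_mem (x : ℝ) : 0 ≤ bu x ∧ bu x ≤ 1 :=
  ⟨Real.smoothTransition.nonneg _, Real.smoothTransition.le_one _⟩

theorem bu_one {x : ℝ} (hx : |x| ≤ 1 / 2) : bu x = 1 := by
  unfold bu
  apply Real.smoothTransition.one_of_one_le
  have h1 : x ^ 2 ≤ (1 / 2) ^ 2 := sq_le_sq' (by linarith [abs_le.1 hx]) (by linarith [abs_le.1 hx])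
  nlinarith

theorem bu_zero {x : ℝ} (hx : 3 / 4 ≤ |x|) : bu x = 0 := by
  unfold bu
  apply Real.smoothTransition.zero_of_nonpos
  have h1 : (3 / 4 : ℝ) ^ 2 ≤ |x| ^ 2 := pow_le_pow_left₀ (by norm_num) hx 2
  rw [sq_abs] at h1
  nlinarith

theorem bu_even (x : ℝ) : bu (-x) = bu x := by
  unfold bu
  rw [neg_sq]

theorem bu_anti : AntitoneOn bu (Set.Ici 0) := by
  intro x hx y hy hxy
  unfold bu
  apply Real.smoothTransition.monotone
  have h1 : x ^ 2 ≤ y ^ 2 := pow_le_pow_left₀ hx hxy 2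
  linarith

private lemma A1_supp : HasCompactSupport bu := by
  refine HasCompactSupport.intro (isCompact_Icc : IsCompact (Set.Icc (-1 : ℝ) 1)) ?_
  intro x hx
  apply bu_zero
  by_contra h
  push Not at h
  rw [abs_lt] at h
  exact hx ⟨by linarith [h.1], by linarith [h.2]⟩

private lemma A1_d1 : ContDiff ℝ ∞ (deriv bu) := (contDiff_infty_iff_deriv.1 bu_contDiff).2

private lemma A1_d2 : ContDiff ℝ ∞ (deriv (deriv bu)) := (contDiff_infty_iff_deriv.1 A1_d1).2

private lemma A1_bound1 : ∃ C : ℝ, ∀ x : ℝ, |deriv bu x| ≤ C :=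
  A1_supp.deriv.exists_bound_of_continuous A1_d1.continuous

private lemma A1_bound2 : ∃ C : ℝ, ∀ x : ℝ, |deriv (deriv bu) x| ≤ C :=
  A1_supp.deriv.deriv.exists_bound_of_continuous A1_d2.continuous

theorem bu_bound : ∃ C : ℝ, 1 ≤ C ∧ ∀ x : ℝ, |deriv bu x| ≤ C ∧ |deriv (deriv bu) x| ≤ C := by
  obtain ⟨C1, h1⟩ := A1_bound1
  obtain ⟨C2, h2⟩ := A1_bound2
  refine ⟨max 1 (max C1 C2), le_max_left _ _, fun x => ⟨?_, ?_⟩⟩
  · exact (h1 x).trans ((le_max_left _ _).trans (le_max_right _ _))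
  · exact (h2 x).trans ((le_max_right _ _).trans (le_max_right _ _))

/-- The derivatives vanish where the bump is locally constant. -/
private lemma A1_flat {u : ℝ} (hu : |u| < 1 / 2 ∨ 3 / 4 < |u|) :
    deriv bu u = 0 ∧ deriv (deriv bu) u = 0 := by
  have key : ∀ c : ℝ, ∀ s : Set ℝ, IsOpen s → u ∈ s → (∀ v ∈ s, bu v = c) →
      deriv bu u = 0 ∧ deriv (deriv bu) u = 0 := by
    intro c s hs hus hc
    have h1 : ∀ v ∈ s, deriv bu v = 0 := by
      intro v hv
      have h2 : bu =ᶠ[nhds v] fun _ => c :=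
        Filter.eventuallyEq_of_mem (hs.mem_nhds hv) (fun w hw => hc w hw)
      rw [h2.deriv_eq, deriv_const]
    refine ⟨h1 u hus, ?_⟩
    have h3 : deriv bu =ᶠ[nhds u] fun _ => (0 : ℝ) :=
      Filter.eventuallyEq_of_mem (hs.mem_nhds hus) (fun w hw => h1 w hw)
    rw [h3.deriv_eq, deriv_const]
  rcases hu with hu | hu
  · exact key 1 {v | |v| < 1 / 2} (isOpen_lt continuous_abs continuous_const) hu
      (fun v hv => bu_one (le_of_lt hv))
  · exact key 0 {v | 3 / 4 < |v|} (isOpen_lt continuous_const continuous_abs) hu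
      (fun v hv => bu_zero (le_of_lt hv))

private lemma A1_cont : Continuous bu := bu_contDiff.continuous

theorem be0_mem : 1 ≤ be0 ∧ be0 ≤ 3 / 2 := by
  have hi : ∀ a b : ℝ, IntervalIntegrable bu volume a b := fun a b => A1_cont.intervalIntegrable a b
  have hz : ∀ a b : ℝ, a ≤ b → (∀ x ∈ Set.Icc a b, 3 / 4 ≤ |x|) → ∫ x in a..b, bu x = 0 := by
    intro a b hab h
    have h1 : ∫ x in a..b, bu x = ∫ x in a..b, (0 : ℝ) := by
      apply intervalIntegral.integral_congr
      intro x hx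
      rw [Set.uIcc_of_le hab] at hx
      exact bu_zero (h x hx)
    rw [h1, intervalIntegral.integral_zero]
  have h1 : be0 = (∫ x in (-1 : ℝ)..(-(3 / 4)), bu x) + ((∫ x in (-(3 / 4) : ℝ)..(3 / 4), bu x) +
      ∫ x in (3 / 4 : ℝ)..1, bu x) := by
    rw [intervalIntegral.integral_add_adjacent_intervals (hi _ _) (hi _ _),
      intervalIntegral.integral_add_adjacent_intervals (hi _ _) (hi _ _)]
    rfl
  have h2 : ∫ x in (-1 : ℝ)..(-(3 / 4)), bu x = 0 := by
    apply hz _ _ (by norm_num)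
    intro x hx
    rw [abs_of_nonpos (by linarith [hx.2])]
    linarith [hx.2]
  have h3 : ∫ x in (3 / 4 : ℝ)..1, bu x = 0 := by
    apply hz _ _ (by norm_num)
    intro x hx
    rw [abs_of_nonneg (by linarith [hx.1])]
    exact hx.1
  rw [h2, h3, zero_add, add_zero] at h1
  constructor
  · have h4 : ∫ x in (-(1 / 2) : ℝ)..(1 / 2), bu x = 1 := by
      have h5 : ∫ x in (-(1 / 2) : ℝ)..(1 / 2), bu x = ∫ x in (-(1 / 2) : ℝ)..(1 / 2), (1 : ℝ) := by
        apply intervalIntegral.integral_congr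
        intro x hx
        rw [Set.uIcc_of_le (by norm_num)] at hx
        exact bu_one (abs_le.2 ⟨by linarith [hx.1], hx.2⟩)
      rw [h5, intervalIntegral.integral_const]
      norm_num
    rw [h1, ← h4]
    refine intervalIntegral.integral_mono_interval (by norm_num) (by norm_num) (by norm_num) ?_
      (hi _ _)
    exact Filter.Eventually.of_forall fun x => (bu_mem x).1
  · rw [h1]
    have h6 : ∫ x in (-(3 / 4) : ℝ)..(3 / 4), bu x ≤ ∫ x in (-(3 / 4) : ℝ)..(3 / 4), (1 : ℝ) := by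
      refine intervalIntegral.integral_mono_on (by norm_num) (hi _ _) (by simp) ?_
      intro x _
      exact (bu_mem x).2
    refine h6.trans ?_
    rw [intervalIntegral.integral_const]
    norm_num

theorem be0_scale {W : ℝ} (hW : 0 < W) : ∫ y in (-W)..W, bu (y / W) = be0 * W := by
  rw [intervalIntegral.integral_comp_div (fun u => bu u) hW.ne', neg_div, div_self hW.ne', smul_eq_mul,
    mul_comm]
  rfl

theorem mB_contDiff (B W : ℝ) : ContDiff ℝ ∞ (mB B W) := by
  have h1 : ContDiff ℝ ∞ fun x : ℝ => bu (x / W) := bu_contDiff.comp (contDiff_id.div_const W)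
  have h2 : ContDiff ℝ ∞ fun x : ℝ => bu (x / (4 * B)) :=
    bu_contDiff.comp (contDiff_id.div_const (4 * B))
  exact (contDiff_const.mul h1).add (contDiff_id.mul h2)

private lemma A1_left {B W : ℝ} (hB : 1 ≤ B) (hW : 8 * B ≤ W) {x : ℝ} (hx : |x| ≤ 2) :
    mB B W x = R0 + x := by
  have hW0 : 0 < W := by linarith
  have hB0 : 0 < 4 * B := by linarith
  have h1 : |x / W| ≤ 1 / 2 := by
    rw [abs_div, abs_of_pos hW0, div_le_iff₀ hW0]
    linarith
  have h2 : |x / (4 * B)| ≤ 1 / 2 := by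
    rw [abs_div, abs_of_pos hB0, div_le_iff₀ hB0]
    linarith
  unfold mB
  rw [bu_one h1, bu_one h2, mul_one, mul_one]

theorem mB_left {B W : ℝ} (hB : 1 ≤ B) (hW : 8 * B ≤ W) :
    mB B W (-R0) = 0 ∧ deriv (mB B W) (-R0) = 1 := by
  have hR : R0 = 6 / 5 := rfl
  have hR2 : |(-R0 : ℝ)| < 2 := by
    rw [hR]
    norm_num [abs_of_pos]
  constructor
  · rw [A1_left hB hW hR2.le]
    ring
  · have h1 : mB B W =ᶠ[nhds (-R0)] fun x => R0 + x := by
      refine Filter.eventuallyEq_of_mem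
        ((isOpen_lt continuous_abs continuous_const).mem_nhds hR2) (fun x hx => ?_)
      exact A1_left hB hW (le_of_lt hx)
    rw [h1.deriv_eq]
    simp

private lemma A1_right {B W : ℝ} (hB : 1 ≤ B) (hW : 8 * B ≤ W) {x : ℝ} (hx : 3 / 4 * W < x) :
    mB B W x = 0 := by
  have hW0 : 0 < W := by linarith
  have hB0 : 0 < 4 * B := by linarith
  have hx0 : 0 < x := by nlinarith
  have h1 : 3 / 4 ≤ |x / W| := by
    rw [abs_of_pos (by positivity), le_div_iff₀ hW0]
    linarith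
  have h2 : 3 / 4 ≤ |x / (4 * B)| := by
    rw [abs_of_pos (by positivity), le_div_iff₀ hB0]
    linarith
  unfold mB
  rw [bu_zero h1, bu_zero h2, mul_zero, mul_zero, add_zero]

theorem mB_right {B W : ℝ} (hB : 1 ≤ B) (hW : 8 * B ≤ W) {x : ℝ} (hx : 3 / 4 * W < x) :
    mB B W x = 0 ∧ deriv (mB B W) x = 0 := by
  refine ⟨A1_right hB hW hx, ?_⟩
  have h1 : mB B W =ᶠ[nhds x] fun _ => 0 := by
    refine Filter.eventuallyEq_of_mem
      ((isOpen_lt continuous_const continuous_id).mem_nhds hx) (fun y hy => ?_)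
    exact A1_right hB hW hy
  rw [h1.deriv_eq, deriv_const]

theorem mB_ge {B W : ℝ} (hB : 1 ≤ B) (hW : 8 * B ≤ W) {x : ℝ} (hx : -R0 ≤ x) :
    0 ≤ mB B W x ∧ (0 ≤ x → R0 * bu (x / W) ≤ mB B W x) := by
  have hR : R0 = 6 / 5 := rfl
  have h1 : 0 ≤ x → R0 * bu (x / W) ≤ mB B W x := by
    intro h0
    unfold mB
    have := mul_nonneg h0 (bu_mem (x / (4 * B))).1
    linarith
  refine ⟨?_, h1⟩
  rcases le_total 0 x with h0 | h0
  · refine le_trans ?_ (h1 h0)
    exact mul_nonneg (by rw [hR]; norm_num) (bu_mem _).1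
  · rw [A1_left hB hW (abs_le.2 ⟨by rw [hR] at hx; linarith, by linarith⟩)]
    linarith

private lemma A1_m2 (B W : ℝ) : ContDiff ℝ ∞ (deriv (deriv (mB B W))) :=
  (contDiff_infty_iff_deriv.1 (contDiff_infty_iff_deriv.1 (mB_contDiff B W)).2).2

theorem Lh_continuous (B W : ℝ) : Continuous (fun q : ℝ × ℝ => Lh B W q.1 q.2) := by
  unfold Lh
  have h1 := (A1_m2 B W).continuous
  have h2 := (mB_contDiff B W).continuous
  have h3 := A1_cont
  have h4 := A1_d2.continuous
  exact ((h1.comp continuous_fst).mul (h3.comp (continuous_snd.div_const W))).add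
    ((h2.comp continuous_fst).mul ((h4.comp (continuous_snd.div_const W)).div_const (W ^ 2)))

theorem Lp_continuous (W : ℝ) : Continuous (fun q : ℝ × ℝ => Lp W q.1 q.2) := by
  unfold Lp
  have h3 := A1_cont
  have h4 := A1_d2.continuous
  exact (((h4.comp (continuous_fst.div_const W)).mul (h3.comp (continuous_snd.div_const W))).add
    ((h3.comp (continuous_fst.div_const W)).mul (h4.comp (continuous_snd.div_const W)))).div_const
      (W ^ 2)

private lemma A1_hd (x : ℝ) : HasDerivAt bu (deriv bu x) x :=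
  (bu_contDiff.differentiable (by simp)).differentiableAt.hasDerivAt

private lemma A1_hd1 (x : ℝ) : HasDerivAt (deriv bu) (deriv (deriv bu) x) x :=
  (A1_d1.differentiable (by simp)).differentiableAt.hasDerivAt

private lemma A1_scale {f f' : ℝ → ℝ} (h : ∀ x, HasDerivAt f (f' x) x) (c x : ℝ) :
    HasDerivAt (fun x => f (x / c)) (f' (x / c) / c) x := by
  have h1 : HasDerivAt (fun x : ℝ => x / c) (1 / c) x := (hasDerivAt_id x).div_const c
  have h2 := (h (x / c)).comp x h1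
  have h3 : f' (x / c) * (1 / c) = f' (x / c) / c := by ring
  rw [h3] at h2
  exact h2

private lemma A1_deriv (B W x : ℝ) : deriv (mB B W) x =
    R0 * (deriv bu (x / W) / W) + (bu (x / (4 * B)) + x * (deriv bu (x / (4 * B)) / (4 * B))) := by
  have h1 := A1_scale A1_hd W x
  have h2 := A1_scale A1_hd (4 * B) x
  have h3 : HasDerivAt (mB B W) (R0 * (deriv bu (x / W) / W) +
      (1 * bu (x / (4 * B)) + x * (deriv bu (x / (4 * B)) / (4 * B)))) x :=
    (h1.const_mul R0).add ((hasDerivAt_id x).mul h2)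
  rw [h3.deriv, one_mul]

private lemma A1_deriv2 (B W x : ℝ) : deriv (deriv (mB B W)) x =
    R0 * (deriv (deriv bu) (x / W) / W / W) + (deriv bu (x / (4 * B)) / (4 * B) +
      (deriv bu (x / (4 * B)) / (4 * B) + x * (deriv (deriv bu) (x / (4 * B)) / (4 * B) / (4 * B)))) := by
  have h0 : deriv (mB B W) = fun x => R0 * (deriv bu (x / W) / W) +
      (bu (x / (4 * B)) + x * (deriv bu (x / (4 * B)) / (4 * B))) := funext fun x => A1_deriv B W x
  have h1 := (A1_scale A1_hd1 W x).div_const W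
  have h2 := A1_scale A1_hd (4 * B) x
  have h4 := (A1_scale A1_hd1 (4 * B) x).div_const (4 * B)
  have h3 : HasDerivAt (fun x => R0 * (deriv bu (x / W) / W) +
      (bu (x / (4 * B)) + x * (deriv bu (x / (4 * B)) / (4 * B))))
      (R0 * (deriv (deriv bu) (x / W) / W / W) + (deriv bu (x / (4 * B)) / (4 * B) +
      (1 * (deriv bu (x / (4 * B)) / (4 * B)) +
        x * (deriv (deriv bu) (x / (4 * B)) / (4 * B) / (4 * B))))) x :=
    (h1.const_mul R0).add (h2.add ((hasDerivAt_id x).mul h4))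
  rw [h0, h3.deriv, one_mul]

private lemma A1_m2_le {C : ℝ} (hC : 1 ≤ C) (hb : ∀ x : ℝ, |deriv bu x| ≤ C ∧ |deriv (deriv bu) x| ≤ C)
    {B W x : ℝ} (hB : 1 ≤ B) (hW : 8 * B ≤ W) (hx : -R0 ≤ x) :
    |deriv (deriv (mB B W)) x| ≤ 6 / 5 * C / W ^ 2 +
      (if 2 * B ≤ x ∧ x ≤ 3 * B then C / B else 0) := by
  have hR : R0 = 6 / 5 := rfl
  have hB0 : 0 < B := by linarith
  have hW0 : 0 < W := by linarith
  have h4B : (0 : ℝ) < 4 * B := by linarith
  rw [A1_deriv2]
  set p := deriv (deriv bu) (x / W) with hp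
  set q := deriv bu (x / (4 * B)) with hq
  set r := deriv (deriv bu) (x / (4 * B)) with hr
  have h1 : |R0 * (p / W / W)| ≤ 6 / 5 * C / W ^ 2 := by
    have h2 : R0 * (p / W / W) = 6 / 5 * p / W ^ 2 := by
      rw [hR]
      field_simp
    rw [h2, abs_div, abs_mul, abs_of_pos (by positivity : (0 : ℝ) < W ^ 2),
      abs_of_pos (by norm_num : (0 : ℝ) < 6 / 5)]
    exact div_le_div_of_nonneg_right (mul_le_mul_of_nonneg_left (hb _).2 (by norm_num))
      (by positivity)
  have h5 : |q / (4 * B) + (q / (4 * B) + x * (r / (4 * B) / (4 * B)))| ≤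
      (if 2 * B ≤ x ∧ x ≤ 3 * B then C / B else 0) := by
    split_ifs with h
    · have hx0 : 0 < x := by linarith [h.1]
      have h6 : |q / (4 * B)| ≤ C / (4 * B) := by
        rw [abs_div, abs_of_pos h4B]
        exact div_le_div_of_nonneg_right (hb _).1 h4B.le
      have h7 : |x * (r / (4 * B) / (4 * B))| ≤ 3 * B * (C / (4 * B) / (4 * B)) := by
        rw [abs_mul, abs_of_pos hx0, abs_div, abs_div, abs_of_pos h4B]
        refine mul_le_mul h.2 ?_ (by positivity) (by linarith)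
        exact div_le_div_of_nonneg_right (div_le_div_of_nonneg_right (hb _).2 h4B.le) h4B.le
      have h8 : C / (4 * B) + (C / (4 * B) + 3 * B * (C / (4 * B) / (4 * B))) ≤ C / B := by
        have h9 : C / (4 * B) + (C / (4 * B) + 3 * B * (C / (4 * B) / (4 * B))) =
            11 / 16 * (C / B) := by
          field_simp
          ring
        rw [h9]
        have : 0 ≤ C / B := by positivity
        linarith
      exact (abs_add_le _ _).trans ((add_le_add h6 ((abs_add_le _ _).trans (add_le_add h6 h7))).trans h8)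
    · have h6 : |x / (4 * B)| < 1 / 2 ∨ 3 / 4 < |x / (4 * B)| := by
        rw [abs_div, abs_of_pos h4B, div_lt_iff₀ h4B, lt_div_iff₀ h4B]
        by_cases h7 : 2 * B ≤ x
        · right
          have h8 : 3 * B < x := by
            by_contra h9
            exact h ⟨h7, not_lt.1 h9⟩
          rw [abs_of_pos (by linarith)]
          linarith
        · left
          push Not at h7
          rw [abs_lt]
          rw [hR] at hx
          constructor <;> linarith
      obtain ⟨h7, h8⟩ := A1_flat h6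
      rw [hq, hr, h7, h8]
      simp
  exact (abs_add_le _ _).trans (add_le_add h1 h5)

private lemma A1_m_le {B W x : ℝ} (hB : 1 ≤ B) (hx : -R0 ≤ x) :
    |mB B W x| ≤ 6 / 5 + (if x ≤ 3 * B then 3 * B else 0) := by
  have hR : R0 = 6 / 5 := rfl
  have h4B : (0 : ℝ) < 4 * B := by linarith
  unfold mB
  have h1 : |R0 * bu (x / W)| ≤ 6 / 5 := by
    rw [abs_mul, hR, abs_of_nonneg (bu_mem _).1, abs_of_pos (by norm_num : (0 : ℝ) < 6 / 5)]
    have := (bu_mem (x / W)).2
    linarith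
  have h2 : |x * bu (x / (4 * B))| ≤ (if x ≤ 3 * B then 3 * B else 0) := by
    split_ifs with h
    · rw [abs_mul, abs_of_nonneg (bu_mem _).1]
      have h3 : |x| ≤ 3 * B := by
        rw [abs_le]
        rw [hR] at hx
        constructor <;> linarith
      calc |x| * bu (x / (4 * B)) ≤ 3 * B * 1 :=
            mul_le_mul h3 (bu_mem _).2 (bu_mem _).1 (by linarith)
        _ = 3 * B := mul_one _
    · push Not at h
      have h3 : bu (x / (4 * B)) = 0 := by
        apply bu_zero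
        rw [abs_div, abs_of_pos h4B, le_div_iff₀ h4B, abs_of_pos (by linarith)]
        linarith
      rw [h3, mul_zero, abs_zero]
  exact (abs_add_le _ _).trans (add_le_add h1 h2)

private lemma A1_Lh_le {C : ℝ} (hC : 1 ≤ C) (hb : ∀ x : ℝ, |deriv bu x| ≤ C ∧ |deriv (deriv bu) x| ≤ C)
    {B W x : ℝ} (hB : 1 ≤ B) (hW : 8 * B ≤ W) (hx : -R0 ≤ x) (y : ℝ) :
    |Lh B W x y| ≤ (if 2 * B ≤ x ∧ x ≤ 3 * B then 3 * C / B else 0) +
      (if x ≤ 3 * B then 3 * C * B / W ^ 2 else 0) + 3 * C / W ^ 2 := by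
  have hB0 : 0 < B := by linarith
  have hW0 : 0 < W := by linarith
  have h1 := A1_m2_le hC hb hB hW hx
  have h2 := A1_m_le (W := W) hB hx
  unfold Lh
  have h3 : |deriv (deriv (mB B W)) x * bu (y / W)| ≤ 6 / 5 * C / W ^ 2 +
      (if 2 * B ≤ x ∧ x ≤ 3 * B then C / B else 0) := by
    rw [abs_mul, abs_of_nonneg (bu_mem _).1]
    calc |deriv (deriv (mB B W)) x| * bu (y / W) ≤ |deriv (deriv (mB B W)) x| * 1 :=
          mul_le_mul_of_nonneg_left (bu_mem _).2 (abs_nonneg _)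
      _ = |deriv (deriv (mB B W)) x| := mul_one _
      _ ≤ _ := h1
  have h4 : |mB B W x * (deriv (deriv bu) (y / W) / W ^ 2)| ≤
      (6 / 5 + (if x ≤ 3 * B then 3 * B else 0)) * (C / W ^ 2) := by
    rw [abs_mul]
    refine mul_le_mul h2 ?_ (abs_nonneg _) ?_
    · rw [abs_div, abs_of_pos (by positivity : (0 : ℝ) < W ^ 2)]
      exact div_le_div_of_nonneg_right (hb _).2 (by positivity)
    · split_ifs <;> linarith
  refine (abs_add_le _ _).trans ((add_le_add h3 h4).trans ?_)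
  have h5 : (0 : ℝ) ≤ C / W ^ 2 := by positivity
  have h6 : (if 2 * B ≤ x ∧ x ≤ 3 * B then C / B else 0) ≤
      (if 2 * B ≤ x ∧ x ≤ 3 * B then 3 * C / B else 0) := by
    split_ifs
    · exact div_le_div_of_nonneg_right (by linarith) hB0.le
    · exact le_rfl
  have h7 : (if x ≤ 3 * B then 3 * B else 0) * (C / W ^ 2) =
      (if x ≤ 3 * B then 3 * C * B / W ^ 2 else 0) := by
    split_ifs
    · ring
    · ring
  have h8 : 6 / 5 * C / W ^ 2 + 6 / 5 * (C / W ^ 2) ≤ 3 * C / W ^ 2 := by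
    have h9 : 3 * C / W ^ 2 = 3 * (C / W ^ 2) := by ring
    have h10 : 6 / 5 * C / W ^ 2 = 6 / 5 * (C / W ^ 2) := by ring
    rw [h9, h10]
    linarith
  rw [add_mul, h7]
  linarith

private lemma A1_meas (a b c : ℝ) : MeasurableSet {z : ℂ | a ≤ z.re ∧ z.re ≤ b ∧ |z.im| ≤ c} :=
  (measurableSet_le measurable_const Complex.measurable_re).inter
    ((measurableSet_le Complex.measurable_re measurable_const).inter
      (measurableSet_le (continuous_abs.measurable.comp Complex.measurable_im) measurable_const))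

theorem Lh_int : ∃ C : ℝ, 1 ≤ C ∧ ∀ B W : ℝ, 1 ≤ B → 8 * B ≤ W → ∀ Φ : ℂ → ENNReal, Measurable Φ →
    ∫⁻ z in {z : ℂ | -R0 ≤ z.re ∧ z.re ≤ W ∧ |z.im| ≤ W}, Φ z * ENNReal.ofReal |Lh B W z.re z.im| ≤
    ENNReal.ofReal (C / B) * (∫⁻ z in {z : ℂ | 2 * B ≤ z.re ∧ z.re ≤ 3 * B ∧ |z.im| ≤ W}, Φ z) +
    ENNReal.ofReal (C * B / W ^ 2) *
      (∫⁻ z in {z : ℂ | -R0 ≤ z.re ∧ z.re ≤ 3 * B ∧ |z.im| ≤ W}, Φ z) +
    ENNReal.ofReal (C / W ^ 2) * (∫⁻ z in {z : ℂ | -R0 ≤ z.re ∧ z.re ≤ W ∧ |z.im| ≤ W}, Φ z) := by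
  obtain ⟨C, hC, hb⟩ := bu_bound
  refine ⟨3 * C, by linarith, fun B W hB hW Φ hΦ => ?_⟩
  set S1 : Set ℂ := {z : ℂ | 2 * B ≤ z.re ∧ z.re ≤ 3 * B ∧ |z.im| ≤ W} with hS1
  set S2 : Set ℂ := {z : ℂ | -R0 ≤ z.re ∧ z.re ≤ 3 * B ∧ |z.im| ≤ W} with hS2
  set S3 : Set ℂ := {z : ℂ | -R0 ≤ z.re ∧ z.re ≤ W ∧ |z.im| ≤ W} with hS3
  have m1 : MeasurableSet S1 := A1_meas _ _ _
  have m2 : MeasurableSet S2 := A1_meas _ _ _
  have m3 : MeasurableSet S3 := A1_meas _ _ _
  have hB0 : 0 < B := by linarith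
  have hW0 : 0 < W := by linarith
  have hm : Measurable fun a : ℂ => ENNReal.ofReal (3 * C / B) * S1.indicator Φ a +
      ENNReal.ofReal (3 * C * B / W ^ 2) * S2.indicator Φ a :=
    ((hΦ.indicator m1).const_mul _).add ((hΦ.indicator m2).const_mul _)
  rw [← lintegral_indicator m3, ← lintegral_indicator m1, ← lintegral_indicator m2,
    ← lintegral_indicator m3, ← lintegral_const_mul _ (hΦ.indicator m1),
    ← lintegral_const_mul _ (hΦ.indicator m2), ← lintegral_const_mul _ (hΦ.indicator m3),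
    ← lintegral_add_left ((hΦ.indicator m1).const_mul _), ← lintegral_add_left hm]
  refine lintegral_mono fun z => ?_
  by_cases hz : z ∈ S3
  · rw [Set.indicator_of_mem hz, Set.indicator_of_mem hz]
    have h1 := A1_Lh_le hC hb hB hW hz.1 z.im
    have h2 : ENNReal.ofReal |Lh B W z.re z.im| ≤
        ENNReal.ofReal (if 2 * B ≤ z.re ∧ z.re ≤ 3 * B then 3 * C / B else 0) +
        ENNReal.ofReal (if z.re ≤ 3 * B then 3 * C * B / W ^ 2 else 0) +
        ENNReal.ofReal (3 * C / W ^ 2) :=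
      (ENNReal.ofReal_le_ofReal h1).trans (ENNReal.ofReal_add_le.trans
        (add_le_add_left ENNReal.ofReal_add_le _))
    refine (mul_le_mul_right h2 (Φ z)).trans (le_of_eq ?_)
    have e1 : Φ z * ENNReal.ofReal (if 2 * B ≤ z.re ∧ z.re ≤ 3 * B then 3 * C / B else 0) =
        ENNReal.ofReal (3 * C / B) * S1.indicator Φ z := by
      by_cases h : 2 * B ≤ z.re ∧ z.re ≤ 3 * B
      · have h3 : z ∈ S1 := ⟨h.1, h.2, hz.2.2⟩
        rw [if_pos h, Set.indicator_of_mem h3, mul_comm]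
      · have h3 : z ∉ S1 := fun h4 => h ⟨h4.1, h4.2.1⟩
        rw [if_neg h, Set.indicator_of_notMem h3, ENNReal.ofReal_zero, mul_zero, mul_zero]
    have e2 : Φ z * ENNReal.ofReal (if z.re ≤ 3 * B then 3 * C * B / W ^ 2 else 0) =
        ENNReal.ofReal (3 * C * B / W ^ 2) * S2.indicator Φ z := by
      by_cases h : z.re ≤ 3 * B
      · have h3 : z ∈ S2 := ⟨hz.1, h, hz.2.2⟩
        rw [if_pos h, Set.indicator_of_mem h3, mul_comm]
      · have h3 : z ∉ S2 := fun h4 => h h4.2.1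
        rw [if_neg h, Set.indicator_of_notMem h3, ENNReal.ofReal_zero, mul_zero, mul_zero]
    rw [mul_add, mul_add, e1, e2, mul_comm (Φ z)]
  · rw [Set.indicator_of_notMem hz]
    exact zero_le

theorem Lp_le : ∃ C : ℝ, 1 ≤ C ∧ ∀ W x y : ℝ, 1 ≤ W → |Lp W x y| ≤ C / W ^ 2 := by
  obtain ⟨C, hC, hb⟩ := bu_bound
  refine ⟨2 * C, by linarith, fun W x y hW => ?_⟩
  have hW0 : 0 < W := by linarith
  unfold Lp
  rw [abs_div, abs_of_pos (by positivity : (0 : ℝ) < W ^ 2)]
  refine div_le_div_of_nonneg_right ?_ (by positivity)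
  have h1 : ∀ u v : ℝ, |deriv (deriv bu) u * bu v| ≤ C := by
    intro u v
    rw [abs_mul, abs_of_nonneg (bu_mem _).1]
    calc |deriv (deriv bu) u| * bu v ≤ C * 1 :=
          mul_le_mul (hb _).2 (bu_mem _).2 (bu_mem _).1 (by linarith)
      _ = C := mul_one _
  have h2 := h1 (x / W) (y / W)
  have h3 := h1 (y / W) (x / W)
  rw [mul_comm] at h3
  refine (abs_add_le _ _).trans ?_
  linarith

private lemma A1_int2 (a b : ℝ) : ∫ u in a..b, deriv (deriv bu) u = deriv bu b - deriv bu a :=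
  intervalIntegral.integral_deriv_eq_sub (fun x _ => (A1_hd1 x).differentiableAt)
    (A1_d2.continuous.intervalIntegrable _ _)

theorem Lp_int0 {W : ℝ} (hW : 0 < W) : ∫ y in (-W)..W, ∫ x in (0 : ℝ)..W, Lp W x y = 0 := by
  have z0 : deriv bu 0 = 0 := (A1_flat (Or.inl (by simp))).1
  have z1 : deriv bu 1 = 0 := (A1_flat (Or.inr (by norm_num))).1
  have z2 : deriv bu (-1) = 0 := (A1_flat (Or.inr (by norm_num))).1
  have c2 := A1_d2.continuous
  have h1 : ∫ x in (0 : ℝ)..W, deriv (deriv bu) (x / W) = 0 := by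
    rw [intervalIntegral.integral_comp_div (fun u => deriv (deriv bu) u) hW.ne', zero_div,
      div_self hW.ne', A1_int2, z0, z1]
    simp
  have h2 : ∫ y in (-W)..W, deriv (deriv bu) (y / W) = 0 := by
    rw [intervalIntegral.integral_comp_div (fun u => deriv (deriv bu) u) hW.ne', neg_div,
      div_self hW.ne', A1_int2, z2, z1]
    simp
  have h3 : ∀ y : ℝ, ∫ x in (0 : ℝ)..W, Lp W x y =
      ((∫ x in (0 : ℝ)..W, bu (x / W)) / W ^ 2) * deriv (deriv bu) (y / W) := by
    intro y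
    unfold Lp
    rw [intervalIntegral.integral_div, intervalIntegral.integral_add,
      intervalIntegral.integral_mul_const, intervalIntegral.integral_mul_const, h1]
    · ring
    · exact ((c2.comp (continuous_id.div_const W)).mul continuous_const).intervalIntegrable _ _
    · exact ((A1_cont.comp (continuous_id.div_const W)).mul continuous_const).intervalIntegrable _ _
  simp only [h3]
  rw [intervalIntegral.integral_const_mul, h2, mul_zero]

end Pool.Agent.LB
end

section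

/-! TASK A2. Green's formula on a rectangle for a product test function. For fixed `y`: integrate by parts twice in `x` (`intervalIntegral.integral_mul_deriv_eq_deriv_mul` or the derivative of `m gx - m' g`):
 `∫_a^X m gxx dx = -m(a) gx(a,y) + m'(a) g(a,y) + ∫_a^X m'' g dx` (as `m X = m' X = 0`). For fixed `x` the same in `y`: `∫ b gyy dy = ∫ b'' g dy` (all boundary terms vanish). Fubini for continuous functions on the rectangle (`intervalIntegral_integral_swap`-like, `MeasureTheory.integral_integral_swap` / `intervalIntegral.integral_interchange...`). -/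

set_option autoImplicit false

namespace Pool.Agent.LB

open Complex MeasureTheory Finset Pool.Agent.GH Pool.Agent.UH Pool.Agent.UV
open scoped Real ComplexConjugate

private lemma A2_one {u : ℝ → ℝ} (hu : ContDiff ℝ 2 u) {c d : ℝ} (hcd : c ≤ d) {f f1 f2 : ℝ → ℝ}
    (k0 : ContinuousOn f (Set.Icc c d)) (k2 : ContinuousOn f2 (Set.Icc c d))
    (h1 : ∀ x ∈ Set.Icc c d, HasDerivAt f (f1 x) x)
    (h2 : ∀ x ∈ Set.Icc c d, HasDerivAt f1 (f2 x) x) :
    ∫ x in c..d, u x * f2 x = u d * f1 d - deriv u d * f d - (u c * f1 c - deriv u c * f c) +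
      ∫ x in c..d, deriv (deriv u) x * f x := by
  have hu' : ContDiff ℝ (1 + 1) u := by
    rw [one_add_one_eq_two]
    exact hu
  have hu1 : ContDiff ℝ 1 (deriv u) := ((contDiff_succ_iff_deriv (n := 1)).1 hu').2.2
  have hd1 : ∀ x, HasDerivAt u (deriv u x) x := fun x =>
    ((hu.differentiable (by norm_num)) x).hasDerivAt
  have hd2 : ∀ x, HasDerivAt (deriv u) (deriv (deriv u) x) x := fun x =>
    ((hu1.differentiable (by norm_num)) x).hasDerivAt
  have hc2 : Continuous (deriv (deriv u)) := hu1.continuous_deriv (by norm_num)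
  have hIcc : Set.uIcc c d = Set.Icc c d := Set.uIcc_of_le hcd
  have e1 : IntervalIntegrable (fun x => u x * f2 x) volume c d := by
    refine ContinuousOn.intervalIntegrable ?_
    rw [hIcc]
    exact hu.continuous.continuousOn.mul k2
  have e2 : IntervalIntegrable (fun x => deriv (deriv u) x * f x) volume c d := by
    refine ContinuousOn.intervalIntegrable ?_
    rw [hIcc]
    exact hc2.continuousOn.mul k0
  have key : ∫ x in c..d, (u x * f2 x - deriv (deriv u) x * f x) =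
      (u d * f1 d - deriv u d * f d) - (u c * f1 c - deriv u c * f c) := by
    refine intervalIntegral.integral_eq_sub_of_hasDerivAt
      (f := fun x => u x * f1 x - deriv u x * f x) ?_ (e1.sub e2)
    intro x hx
    rw [hIcc] at hx
    have h := ((hd1 x).mul (h2 x hx)).sub ((hd2 x).mul (h1 x hx))
    refine h.congr_deriv ?_
    ring
  rw [intervalIntegral.integral_sub e1 e2] at key
  linarith

private lemma A2_int {f : ℝ → ℝ → ℝ} {a X Y : ℝ}
    (hf : ContinuousOn (fun q : ℝ × ℝ => f q.1 q.2) (Set.Icc a X ×ˢ Set.Icc (-Y) Y)) :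
    Integrable (fun q : ℝ × ℝ => f q.1 q.2)
      ((volume.restrict (Set.Ioc a X)).prod (volume.restrict (Set.Ioc (-Y) Y))) := by
  rw [Measure.prod_restrict, ← Measure.volume_eq_prod]
  have h1 : IntegrableOn (fun q : ℝ × ℝ => f q.1 q.2) (Set.Icc a X ×ˢ Set.Icc (-Y) Y) volume :=
    hf.integrableOn_compact (isCompact_Icc.prod isCompact_Icc)
  exact h1.mono_set (Set.prod_mono Set.Ioc_subset_Icc_self Set.Ioc_subset_Icc_self)

private lemma A2_swap {f : ℝ → ℝ → ℝ} {a X Y : ℝ} (haX : a ≤ X) (hY : 0 ≤ Y)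
    (hf : ContinuousOn (fun q : ℝ × ℝ => f q.1 q.2) (Set.Icc a X ×ˢ Set.Icc (-Y) Y)) :
    ∫ y in (-Y)..Y, ∫ x in a..X, f x y = ∫ x in a..X, ∫ y in (-Y)..Y, f x y := by
  have hY' : -Y ≤ Y := by linarith
  simp only [intervalIntegral.integral_of_le haX, intervalIntegral.integral_of_le hY']
  exact (integral_integral_swap (A2_int hf)).symm

private lemma A2_ii {f : ℝ → ℝ → ℝ} {a X Y : ℝ} (haX : a ≤ X) (hY : 0 ≤ Y)
    (hf : ContinuousOn (fun q : ℝ × ℝ => f q.1 q.2) (Set.Icc a X ×ˢ Set.Icc (-Y) Y)) :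
    IntervalIntegrable (fun y => ∫ x in a..X, f x y) volume (-Y) Y := by
  have hY' : -Y ≤ Y := by linarith
  rw [intervalIntegrable_iff_integrableOn_Ioc_of_le hY']
  simp only [intervalIntegral.integral_of_le haX]
  exact (A2_int hf).integral_prod_right

private lemma A2_sx {f : ℝ → ℝ → ℝ} {a X Y : ℝ}
    (hf : ContinuousOn (fun q : ℝ × ℝ => f q.1 q.2) (Set.Icc a X ×ˢ Set.Icc (-Y) Y)) {y : ℝ}
    (hy : y ∈ Set.Icc (-Y) Y) : ContinuousOn (fun x => f x y) (Set.Icc a X) := by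
  have h : ContinuousOn (fun x : ℝ => ((x, y) : ℝ × ℝ)) (Set.Icc a X) :=
    (Continuous.prodMk continuous_id continuous_const).continuousOn
  exact hf.comp h fun x hx => ⟨hx, hy⟩

private lemma A2_sy {f : ℝ → ℝ → ℝ} {a X Y : ℝ}
    (hf : ContinuousOn (fun q : ℝ × ℝ => f q.1 q.2) (Set.Icc a X ×ˢ Set.Icc (-Y) Y)) {x : ℝ}
    (hx : x ∈ Set.Icc a X) : ContinuousOn (fun y => f x y) (Set.Icc (-Y) Y) := by
  have h : ContinuousOn (fun y : ℝ => ((x, y) : ℝ × ℝ)) (Set.Icc (-Y) Y) :=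
    (Continuous.prodMk continuous_const continuous_id).continuousOn
  exact hf.comp h fun y hy => ⟨hx, hy⟩

theorem green_rect {m b : ℝ → ℝ} (hm : ContDiff ℝ 2 m) (hb : ContDiff ℝ 2 b) {a X Y : ℝ}
    (haX : a ≤ X) (hY : 0 ≤ Y) (hmX : m X = 0) (hmX' : deriv m X = 0) (hbY : b Y = 0)
    (hbY' : deriv b Y = 0) (hbY1 : b (-Y) = 0) (hbY1' : deriv b (-Y) = 0)
    {g gx gxx gy gyy : ℝ → ℝ → ℝ}
    (c0 : ContinuousOn (fun q : ℝ × ℝ => g q.1 q.2) (Set.Icc a X ×ˢ Set.Icc (-Y) Y))
    (c1 : ContinuousOn (fun q : ℝ × ℝ => gx q.1 q.2) (Set.Icc a X ×ˢ Set.Icc (-Y) Y))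
    (c2 : ContinuousOn (fun q : ℝ × ℝ => gxx q.1 q.2) (Set.Icc a X ×ˢ Set.Icc (-Y) Y))
    (c3 : ContinuousOn (fun q : ℝ × ℝ => gy q.1 q.2) (Set.Icc a X ×ˢ Set.Icc (-Y) Y))
    (c4 : ContinuousOn (fun q : ℝ × ℝ => gyy q.1 q.2) (Set.Icc a X ×ˢ Set.Icc (-Y) Y))
    (h1 : ∀ x ∈ Set.Icc a X, ∀ y ∈ Set.Icc (-Y) Y, HasDerivAt (fun x => g x y) (gx x y) x)
    (h2 : ∀ x ∈ Set.Icc a X, ∀ y ∈ Set.Icc (-Y) Y, HasDerivAt (fun x => gx x y) (gxx x y) x)
    (h3 : ∀ x ∈ Set.Icc a X, ∀ y ∈ Set.Icc (-Y) Y, HasDerivAt (fun y => g x y) (gy x y) y)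
    (h4 : ∀ x ∈ Set.Icc a X, ∀ y ∈ Set.Icc (-Y) Y, HasDerivAt (fun y => gy x y) (gyy x y) y) :
    ∫ y in (-Y)..Y, ∫ x in a..X, m x * b y * (gxx x y + gyy x y) =
      (∫ y in (-Y)..Y, ∫ x in a..X,
        g x y * (deriv (deriv m) x * b y + m x * deriv (deriv b) y)) -
      m a * (∫ y in (-Y)..Y, b y * gx a y) + deriv m a * ∫ y in (-Y)..Y, b y * g a y := by
  have hY' : -Y ≤ Y := by linarith
  have hIx : Set.uIcc a X = Set.Icc a X := Set.uIcc_of_le haX
  have hIy : Set.uIcc (-Y) Y = Set.Icc (-Y) Y := Set.uIcc_of_le hY'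
  have hm' : ContDiff ℝ (1 + 1) m := by
    rw [one_add_one_eq_two]
    exact hm
  have hb' : ContDiff ℝ (1 + 1) b := by
    rw [one_add_one_eq_two]
    exact hb
  have cm2 : Continuous (deriv (deriv m)) :=
    ((contDiff_succ_iff_deriv (n := 1)).1 hm').2.2.continuous_deriv (by norm_num)
  have cb2 : Continuous (deriv (deriv b)) :=
    ((contDiff_succ_iff_deriv (n := 1)).1 hb').2.2.continuous_deriv (by norm_num)
  have fm : Continuous (fun q : ℝ × ℝ => m q.1) := hm.continuous.comp continuous_fst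
  have fb : Continuous (fun q : ℝ × ℝ => b q.2) := hb.continuous.comp continuous_snd
  have fm2 : Continuous (fun q : ℝ × ℝ => deriv (deriv m) q.1) := cm2.comp continuous_fst
  have fb2 : Continuous (fun q : ℝ × ℝ => deriv (deriv b) q.2) := cb2.comp continuous_snd
  have k1 : ContinuousOn (fun q : ℝ × ℝ => (fun x y => m x * b y * gxx x y) q.1 q.2)
      (Set.Icc a X ×ˢ Set.Icc (-Y) Y) := (fm.mul fb).continuousOn.mul c2
  have k2 : ContinuousOn (fun q : ℝ × ℝ => (fun x y => m x * b y * gyy x y) q.1 q.2)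
      (Set.Icc a X ×ˢ Set.Icc (-Y) Y) := (fm.mul fb).continuousOn.mul c4
  have k3 : ContinuousOn (fun q : ℝ × ℝ => (fun x y => g x y * (deriv (deriv m) x * b y)) q.1 q.2)
      (Set.Icc a X ×ˢ Set.Icc (-Y) Y) := c0.mul (fm2.mul fb).continuousOn
  have k4 : ContinuousOn (fun q : ℝ × ℝ => (fun x y => g x y * (m x * deriv (deriv b) y)) q.1 q.2)
      (Set.Icc a X ×ˢ Set.Icc (-Y) Y) := c0.mul (fm.mul fb2).continuousOn
  have haI : a ∈ Set.Icc a X := ⟨le_rfl, haX⟩
  have j1 : IntervalIntegrable (fun y => b y * gx a y) volume (-Y) Y := by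
    refine ContinuousOn.intervalIntegrable ?_
    rw [hIy]
    exact hb.continuous.continuousOn.mul (A2_sy c1 haI)
  have j2 : IntervalIntegrable (fun y => b y * g a y) volume (-Y) Y := by
    refine ContinuousOn.intervalIntegrable ?_
    rw [hIy]
    exact hb.continuous.continuousOn.mul (A2_sy c0 haI)
  have e0 : ∫ y in (-Y)..Y, ∫ x in a..X, m x * b y * (gxx x y + gyy x y) =
      (∫ y in (-Y)..Y, ∫ x in a..X, m x * b y * gxx x y) +
      ∫ y in (-Y)..Y, ∫ x in a..X, m x * b y * gyy x y := by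
    rw [← intervalIntegral.integral_add (A2_ii haX hY k1) (A2_ii haX hY k2)]
    refine intervalIntegral.integral_congr fun y hy => ?_
    rw [hIy] at hy
    rw [← intervalIntegral.integral_add]
    · refine intervalIntegral.integral_congr fun x _ => ?_
      ring
    · exact ContinuousOn.intervalIntegrable (by rw [hIx]; exact A2_sx (f := fun x y => m x * b y * gxx x y) k1 hy)
    · exact ContinuousOn.intervalIntegrable (by rw [hIx]; exact A2_sx (f := fun x y => m x * b y * gyy x y) k2 hy)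
  have e1 : ∫ y in (-Y)..Y, ∫ x in a..X, m x * b y * gxx x y =
      (∫ y in (-Y)..Y, ∫ x in a..X, g x y * (deriv (deriv m) x * b y)) -
      m a * (∫ y in (-Y)..Y, b y * gx a y) + deriv m a * ∫ y in (-Y)..Y, b y * g a y := by
    rw [← intervalIntegral.integral_const_mul, ← intervalIntegral.integral_const_mul,
      ← intervalIntegral.integral_sub (A2_ii haX hY k3) (j1.const_mul _),
      ← intervalIntegral.integral_add ((A2_ii haX hY k3).sub (j1.const_mul _)) (j2.const_mul _)]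
    refine intervalIntegral.integral_congr fun y hy => ?_
    rw [hIy] at hy
    have h := A2_one hm haX (A2_sx c0 hy) (A2_sx c2 hy) (fun x hx => h1 x hx y hy)
      (fun x hx => h2 x hx y hy)
    rw [hmX, hmX'] at h
    have s1 : ∫ x in a..X, m x * b y * gxx x y = b y * ∫ x in a..X, m x * gxx x y := by
      rw [← intervalIntegral.integral_const_mul]
      refine intervalIntegral.integral_congr fun x _ => ?_
      ring
    have s2 : ∫ x in a..X, g x y * (deriv (deriv m) x * b y) =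
        b y * ∫ x in a..X, deriv (deriv m) x * g x y := by
      rw [← intervalIntegral.integral_const_mul]
      refine intervalIntegral.integral_congr fun x _ => ?_
      ring
    rw [s1, s2, h]
    ring
  have e2 : ∫ y in (-Y)..Y, ∫ x in a..X, m x * b y * gyy x y =
      ∫ y in (-Y)..Y, ∫ x in a..X, g x y * (m x * deriv (deriv b) y) := by
    rw [A2_swap haX hY k2, A2_swap haX hY k4]
    refine intervalIntegral.integral_congr fun x hx => ?_
    rw [hIx] at hx
    have h := A2_one hb hY' (A2_sy c0 hx) (A2_sy c4 hx) (fun y hy => h3 x hx y hy)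
      (fun y hy => h4 x hx y hy)
    rw [hbY, hbY', hbY1, hbY1'] at h
    have s1 : ∫ y in (-Y)..Y, m x * b y * gyy x y = m x * ∫ y in (-Y)..Y, b y * gyy x y := by
      rw [← intervalIntegral.integral_const_mul]
      refine intervalIntegral.integral_congr fun y _ => ?_
      ring
    have s2 : ∫ y in (-Y)..Y, g x y * (m x * deriv (deriv b) y) =
        m x * ∫ y in (-Y)..Y, deriv (deriv b) y * g x y := by
      rw [← intervalIntegral.integral_const_mul]
      refine intervalIntegral.integral_congr fun y _ => ?_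
      ring
    rw [s1, s2, h]
    ring
  have e3 : ∫ y in (-Y)..Y, ∫ x in a..X,
        g x y * (deriv (deriv m) x * b y + m x * deriv (deriv b) y) =
      (∫ y in (-Y)..Y, ∫ x in a..X, g x y * (deriv (deriv m) x * b y)) +
      ∫ y in (-Y)..Y, ∫ x in a..X, g x y * (m x * deriv (deriv b) y) := by
    rw [← intervalIntegral.integral_add (A2_ii haX hY k3) (A2_ii haX hY k4)]
    refine intervalIntegral.integral_congr fun y hy => ?_
    rw [hIy] at hy
    rw [← intervalIntegral.integral_add]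
    · refine intervalIntegral.integral_congr fun x _ => ?_
      ring
    · exact ContinuousOn.intervalIntegrable (by rw [hIx]; exact A2_sx (f := fun x y => g x y * (deriv (deriv m) x * b y)) k3 hy)
    · exact ContinuousOn.intervalIntegrable (by rw [hIx]; exact A2_sx (f := fun x y => g x y * (m x * deriv (deriv b) y)) k4 hy)
  rw [e0, e1, e2, e3]
  ring

end Pool.Agent.LB
end

section

/-! TASK A4. The regularised inequality. `g1 = gL f1 ε`, `g2 = 2 gL f2 ε`, `Δ` = sum of the two second derivatives (`reg_log`): `Δ g1 ≥ 0`, `Δ g2 ≥ 0`. `b(y) = bu(y/W)`.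
(i) `green_rect` with `m = mB B W`, `a = -R0`, `X = Y = W`, `g = g1 + g2`: `mB(-R0) = 0`, `mB'(-R0) = 1`: `∫∫_{x ≥ -R0} mB b Δ(g1+g2) = ∫∫ (g1+g2) Lh + ∫ b(y) (g1+g2)(-R0,y) dy`.
(ii) `green_rect` with `m(x) = bu(x/W)`, `a = 0` (`m(0) = 1`, `m'(0) = 0`), `g = g1`: `∫∫_{x≥0} bu(x/W) b Δg1 = ∫∫_{x ≥ 0} g1 Lp - ∫ b(y) ∂_x g1(0,y) dy`.
(iii) `mB ≥ R0 bu(x/W)` for `x ≥ 0`, `mB ≥ 0` for `x ≥ -R0`, so `R0 ∫∫_{x≥0} bu b Δg1 ≤ ∫∫_{x≥-R0} mB b Δ(g1+g2)`. Divide by `R0`.
(`Lh B W x y = mB'' b + mB b''`, `b'' = bu''(y/W)/W²`: `deriv` of compositions.) -/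

set_option autoImplicit false

namespace Pool.Agent.LB

open Complex MeasureTheory Finset Pool.Agent.GH Pool.Agent.UH Pool.Agent.UV
open scoped Real ComplexConjugate

/-- The rectangle `-R0 ≤ x ≤ W`, `|y| ≤ W`. -/
def QW (W : ℝ) : Set ℂ := {z | -R0 ≤ z.re ∧ z.re ≤ W ∧ |z.im| ≤ W}

private lemma A4_scale {φ : ℝ → ℝ} (h : Differentiable ℝ φ) (W : ℝ) :
    deriv (fun y : ℝ => φ (y / W)) = fun y => deriv φ (y / W) / W := by
  funext y
  have h1 : HasDerivAt (fun y : ℝ => y / W) (1 / W) y := (hasDerivAt_id y).div_const W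
  have h2 : HasDerivAt (fun y : ℝ => φ (y / W)) (deriv φ (y / W) * (1 / W)) y :=
    (h (y / W)).hasDerivAt.comp y h1
  rw [h2.deriv]
  ring

private lemma A4_scale2 {φ : ℝ → ℝ} (h : Differentiable ℝ φ) (h' : Differentiable ℝ (deriv φ))
    (W : ℝ) :
    deriv (deriv (fun y : ℝ => φ (y / W))) = fun y => deriv (deriv φ) (y / W) / W ^ 2 := by
  rw [A4_scale h W]
  funext y
  have h1 : HasDerivAt (fun y : ℝ => y / W) (1 / W) y := (hasDerivAt_id y).div_const W
  have h3 : HasDerivAt (deriv φ) (deriv (deriv φ) (y / W)) (y / W) := (h' (y / W)).hasDerivAt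
  have h4 := h3.comp y h1
  have h2 : HasDerivAt (fun y : ℝ => deriv φ (y / W)) (deriv (deriv φ) (y / W) * (1 / W)) y :=
    h4
  rw [(h2.div_const W).deriv]
  ring

private lemma A4_bu_diff : Differentiable ℝ bu ∧ Differentiable ℝ (deriv bu) := by
  have h : ContDiff ℝ 2 bu := contDiff_infty.1 bu_contDiff 2
  have h2 : ContDiff ℝ (1 + 1) bu := by
    rw [one_add_one_eq_two]
    exact h
  refine ⟨h.differentiable (by norm_num), ?_⟩
  exact (contDiff_succ_iff_deriv.1 h2).2.2.differentiable (by norm_num)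

private lemma A4_bu_deriv_zero {x : ℝ} (hx : 3 / 4 < |x|) : deriv bu x = 0 := by
  have h : bu =ᶠ[nhds x] fun _ => (0 : ℝ) := by
    have h1 : ∀ᶠ y in nhds x, 3 / 4 < |y| := continuous_abs.continuousAt.eventually_const_lt hx
    filter_upwards [h1] with y hy
    exact bu_zero hy.le
  rw [h.deriv_eq, deriv_const]

private lemma A4_bu_deriv_zero' : deriv bu 0 = 0 := by
  have h : bu =ᶠ[nhds 0] fun _ => (1 : ℝ) := by
    have h1 : ∀ᶠ y in nhds (0 : ℝ), |y| < 1 / 2 :=
      continuous_abs.continuousAt.eventually_lt_const (by norm_num)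
    filter_upwards [h1] with y hy
    exact bu_one hy.le
  rw [h.deriv_eq, deriv_const]

private lemma A4_int {F : ℝ × ℝ → ℝ} {a X c d : ℝ} (haX : a ≤ X) (hcd : c ≤ d)
    (hF : ContinuousOn F (Set.Icc a X ×ˢ Set.Icc c d)) :
    IntervalIntegrable (fun y => ∫ x in a..X, F (x, y)) volume c d := by
  rw [intervalIntegrable_iff_integrableOn_Ioc_of_le hcd]
  have h1 : IntegrableOn F (Set.Icc a X ×ˢ Set.Icc c d) volume :=
    hF.integrableOn_compact (isCompact_Icc.prod isCompact_Icc)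
  have h2 : IntegrableOn F (Set.Ioc a X ×ˢ Set.Ioc c d) (volume.prod volume) :=
    h1.mono_set (Set.prod_mono Set.Ioc_subset_Icc_self Set.Ioc_subset_Icc_self)
  have h3 : Integrable F ((volume.restrict (Set.Ioc a X)).prod (volume.restrict (Set.Ioc c d))) := by
    rw [Measure.prod_restrict]
    exact h2
  have h4 := h3.integral_prod_right
  refine h4.congr (Filter.Eventually.of_forall fun y => ?_)
  exact (intervalIntegral.integral_of_le haX).symm

private lemma A4_cont_x {F : ℝ × ℝ → ℝ} {a X c d y : ℝ} (hy : y ∈ Set.Icc c d)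
    (hF : ContinuousOn F (Set.Icc a X ×ˢ Set.Icc c d)) :
    ContinuousOn (fun x => F (x, y)) (Set.Icc a X) := by
  have h : ContinuousOn (fun x : ℝ => (x, y)) (Set.Icc a X) :=
    (Continuous.prodMk_left y).continuousOn
  exact hF.comp h fun x hx => ⟨hx, hy⟩

theorem det_reg {f1 f2 : ℂ → ℂ} {B W ε : ℝ} (hB : 1 ≤ B) (hW : 8 * B ≤ W) (hε : 0 < ε)
    (hf1 : AnalyticOnNhd ℂ f1 (QW W)) (hf2 : AnalyticOnNhd ℂ f2 (QW W)) :
    (∫ y in (-W)..W, ∫ x in (0 : ℝ)..W, gL f1 ε x y * Lp W x y) -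
      1 / R0 * ((∫ y in (-W)..W, ∫ x in (-R0)..W, (gL f1 ε x y + 2 * gL f2 ε x y) * Lh B W x y) +
        ∫ y in (-W)..W, bu (y / W) * (gL f1 ε (-R0) y + 2 * gL f2 ε (-R0) y)) ≤
    ∫ y in (-W)..W, bu (y / W) * gLx f1 ε 0 y := by
  have hR : 0 < R0 := by unfold R0; norm_num
  have hW8 : 8 ≤ W := by linarith
  have hW0 : 0 < W := by linarith
  have hWW : -W ≤ W := by linarith
  have hRW : -R0 ≤ W := by linarith
  -- the data of the regularised logarithms
  have hdata : ∀ f : ℂ → ℂ, AnalyticOnNhd ℂ f (QW W) →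
      ∃ gxx gy gyy : ℝ → ℝ → ℝ,
        ContinuousOn (fun q : ℝ × ℝ => gL f ε q.1 q.2) (Set.Icc (-R0) W ×ˢ Set.Icc (-W) W) ∧
        ContinuousOn (fun q : ℝ × ℝ => gLx f ε q.1 q.2) (Set.Icc (-R0) W ×ˢ Set.Icc (-W) W) ∧
        ContinuousOn (fun q : ℝ × ℝ => gxx q.1 q.2) (Set.Icc (-R0) W ×ˢ Set.Icc (-W) W) ∧
        ContinuousOn (fun q : ℝ × ℝ => gy q.1 q.2) (Set.Icc (-R0) W ×ˢ Set.Icc (-W) W) ∧
        ContinuousOn (fun q : ℝ × ℝ => gyy q.1 q.2) (Set.Icc (-R0) W ×ˢ Set.Icc (-W) W) ∧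
        ∀ x ∈ Set.Icc (-R0) W, ∀ y ∈ Set.Icc (-W) W,
          HasDerivAt (fun x => gL f ε x y) (gLx f ε x y) x ∧
          HasDerivAt (fun x => gLx f ε x y) (gxx x y) x ∧
          HasDerivAt (fun y => gL f ε x y) (gy x y) y ∧
          HasDerivAt (fun y => gy x y) (gyy x y) y ∧
          0 ≤ gxx x y + gyy x y := by
    intro f hf
    have hU : IsOpen {z : ℂ | AnalyticAt ℂ f z} := isOpen_analyticAt ℂ f
    have hd : DifferentiableOn ℂ f {z : ℂ | AnalyticAt ℂ f z} := fun z hz =>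
      (AnalyticAt.differentiableAt hz).differentiableWithinAt
    obtain ⟨gxx, gy, gyy, c0, c1, c2, c3, c4, h⟩ := reg_log hU hd hε
    have hmem : ∀ x ∈ Set.Icc (-R0) W, ∀ y ∈ Set.Icc (-W) W,
        ((x : ℂ) + y * I) ∈ {z : ℂ | AnalyticAt ℂ f z} := by
      intro x hx y hy
      apply hf
      refine ⟨?_, ?_, ?_⟩
      · simpa using hx.1
      · simpa using hx.2
      · have : |y| ≤ W := abs_le.2 hy
        simpa using this
    have hsub : Set.Icc (-R0) W ×ˢ Set.Icc (-W) W ⊆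
        {q : ℝ × ℝ | ((q.1 : ℂ) + q.2 * I) ∈ {z : ℂ | AnalyticAt ℂ f z}} :=
      fun q hq => hmem q.1 hq.1 q.2 hq.2
    refine ⟨gxx, gy, gyy, c0.mono hsub, c1.mono hsub, c2.mono hsub, c3.mono hsub, c4.mono hsub,
      fun x hx y hy => ?_⟩
    obtain ⟨d1, d2, d3, d4, d5⟩ := h x y (hmem x hx y hy)
    refine ⟨d1, d2, d3, d4, ?_⟩
    rw [d5]
    positivity
  obtain ⟨axx, ay, ayy, a0, a1, a2, a3, a4, ad⟩ := hdata f1 hf1
  obtain ⟨cxx, cy, cyy, c0, c1, c2, c3, c4, cd⟩ := hdata f2 hf2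
  -- the bump
  have hbu2 : ContDiff ℝ 2 bu := contDiff_infty.1 bu_contDiff 2
  have hm : ContDiff ℝ 2 (mB B W) := contDiff_infty.1 (mB_contDiff B W) 2
  obtain ⟨hbd, hbd'⟩ := A4_bu_diff
  obtain ⟨b, hb⟩ : ∃ b : ℝ → ℝ, b = fun y => bu (y / W) := ⟨_, rfl⟩
  have hbc : ContDiff ℝ 2 b := by
    rw [hb]
    exact hbu2.comp (contDiff_id.div_const W)
  have e1 : W / W = 1 := div_self hW0.ne'
  have e2 : -W / W = -1 := by rw [neg_div, e1]
  have hbW : b W = 0 := by
    rw [hb]
    show bu (W / W) = 0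
    rw [e1]
    exact bu_zero (by norm_num)
  have hbmW : b (-W) = 0 := by
    rw [hb]
    show bu (-W / W) = 0
    rw [e2]
    exact bu_zero (by norm_num)
  have hbder : deriv b = fun y => deriv bu (y / W) / W := by
    rw [hb]
    exact A4_scale hbd W
  have hbder2 : deriv (deriv b) = fun y => deriv (deriv bu) (y / W) / W ^ 2 := by
    rw [hb]
    exact A4_scale2 hbd hbd' W
  have hbW' : deriv b W = 0 := by
    rw [hbder]
    show deriv bu (W / W) / W = 0
    rw [e1, A4_bu_deriv_zero (by norm_num), zero_div]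
  have hbmW' : deriv b (-W) = 0 := by
    rw [hbder]
    show deriv bu (-W / W) / W = 0
    rw [e2, A4_bu_deriv_zero (by norm_num), zero_div]
  have hb0 : b 0 = 1 := by
    rw [hb]
    show bu (0 / W) = 1
    rw [zero_div]
    exact bu_one (by norm_num)
  have hb0' : deriv b 0 = 0 := by
    rw [hbder]
    show deriv bu (0 / W) / W = 0
    rw [zero_div, A4_bu_deriv_zero', zero_div]
  have hbn : ∀ y, 0 ≤ b y := by
    intro y
    rw [hb]
    exact (bu_mem _).1
  have hLh : ∀ x y, deriv (deriv (mB B W)) x * b y + mB B W x * deriv (deriv b) y =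
      Lh B W x y := by
    intro x y
    rw [hbder2, hb]
    rfl
  have hLp : ∀ x y, deriv (deriv b) x * b y + b x * deriv (deriv b) y = Lp W x y := by
    intro x y
    rw [hbder2, hb]
    unfold Lp
    ring
  have hmW := mB_right hB hW (x := W) (by linarith)
  have hm0 := mB_left hB hW
  -- Green's formula for the whole rectangle
  have G1 : ∫ y in (-W)..W, ∫ x in (-R0)..W,
      mB B W x * b y * ((axx x y + 2 * cxx x y) + (ayy x y + 2 * cyy x y)) =
      (∫ y in (-W)..W, ∫ x in (-R0)..W, (gL f1 ε x y + 2 * gL f2 ε x y) * Lh B W x y) +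
        ∫ y in (-W)..W, b y * (gL f1 ε (-R0) y + 2 * gL f2 ε (-R0) y) := by
    have h := green_rect (m := mB B W) (b := b) hm hbc (a := -R0) (X := W) (Y := W) hRW hW0.le
      hmW.1 hmW.2 hbW hbW' hbmW hbmW'
      (g := fun x y => gL f1 ε x y + 2 * gL f2 ε x y)
      (gx := fun x y => gLx f1 ε x y + 2 * gLx f2 ε x y)
      (gxx := fun x y => axx x y + 2 * cxx x y)
      (gy := fun x y => ay x y + 2 * cy x y)
      (gyy := fun x y => ayy x y + 2 * cyy x y)
      (a0.add (continuousOn_const.mul c0)) (a1.add (continuousOn_const.mul c1))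
      (a2.add (continuousOn_const.mul c2)) (a3.add (continuousOn_const.mul c3))
      (a4.add (continuousOn_const.mul c4))
      (fun x hx y hy => (ad x hx y hy).1.add ((cd x hx y hy).1.const_mul 2))
      (fun x hx y hy => (ad x hx y hy).2.1.add ((cd x hx y hy).2.1.const_mul 2))
      (fun x hx y hy => (ad x hx y hy).2.2.1.add ((cd x hx y hy).2.2.1.const_mul 2))
      (fun x hx y hy => (ad x hx y hy).2.2.2.1.add ((cd x hx y hy).2.2.2.1.const_mul 2))
    simp only [hLh, hm0.1, hm0.2, zero_mul, sub_zero, one_mul] at h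
    exact h
  have hIcc : Set.Icc (0 : ℝ) W ⊆ Set.Icc (-R0) W := Set.Icc_subset_Icc_left (by linarith)
  have hK : Set.Icc (0 : ℝ) W ×ˢ Set.Icc (-W) W ⊆ Set.Icc (-R0) W ×ˢ Set.Icc (-W) W :=
    Set.prod_mono hIcc subset_rfl
  have G2 : ∫ y in (-W)..W, ∫ x in (0 : ℝ)..W, b x * b y * (axx x y + ayy x y) =
      (∫ y in (-W)..W, ∫ x in (0 : ℝ)..W, gL f1 ε x y * Lp W x y) -
        ∫ y in (-W)..W, b y * gLx f1 ε 0 y := by
    have h := green_rect (m := b) (b := b) hbc hbc (a := 0) (X := W) (Y := W) hW0.le hW0.le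
      hbW hbW' hbW hbW' hbmW hbmW'
      (g := gL f1 ε) (gx := gLx f1 ε) (gxx := axx) (gy := ay) (gyy := ayy)
      (a0.mono hK) (a1.mono hK) (a2.mono hK) (a3.mono hK) (a4.mono hK)
      (fun x hx y hy => (ad x (hIcc hx) y hy).1)
      (fun x hx y hy => (ad x (hIcc hx) y hy).2.1)
      (fun x hx y hy => (ad x (hIcc hx) y hy).2.2.1)
      (fun x hx y hy => (ad x (hIcc hx) y hy).2.2.2.1)
    simp only [hLp, hb0, hb0', zero_mul, add_zero, one_mul] at h
    exact h
  -- comparison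
  have hbcont : Continuous b := hbc.continuous
  have hmcont : Continuous (mB B W) := hm.continuous
  have hF1 : ContinuousOn (fun q : ℝ × ℝ => mB B W q.1 * b q.2 *
      ((axx q.1 q.2 + 2 * cxx q.1 q.2) + (ayy q.1 q.2 + 2 * cyy q.1 q.2)))
      (Set.Icc (-R0) W ×ˢ Set.Icc (-W) W) := by
    refine ContinuousOn.mul ?_ ((a2.add (continuousOn_const.mul c2)).add
      (a4.add (continuousOn_const.mul c4)))
    exact ((hmcont.comp continuous_fst).mul (hbcont.comp continuous_snd)).continuousOn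
  have hF2 : ContinuousOn (fun q : ℝ × ℝ => b q.1 * b q.2 * (axx q.1 q.2 + ayy q.1 q.2))
      (Set.Icc (0 : ℝ) W ×ˢ Set.Icc (-W) W) := by
    refine ContinuousOn.mul ?_ ((a2.mono hK).add (a4.mono hK))
    exact ((hbcont.comp continuous_fst).mul (hbcont.comp continuous_snd)).continuousOn
  have hcmp : R0 * (∫ y in (-W)..W, ∫ x in (0 : ℝ)..W, b x * b y * (axx x y + ayy x y)) ≤
      ∫ y in (-W)..W, ∫ x in (-R0)..W,
        mB B W x * b y * ((axx x y + 2 * cxx x y) + (ayy x y + 2 * cyy x y)) := by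
    rw [← intervalIntegral.integral_const_mul]
    refine intervalIntegral.integral_mono_on hWW ((A4_int hW0.le hWW hF2).const_mul R0)
      (A4_int hRW hWW hF1) fun y hy => ?_
    have k1 := A4_cont_x hy hF1
    have k2 := A4_cont_x hy hF2
    have k0 : ContinuousOn (fun x => mB B W x * b y *
        ((axx x y + 2 * cxx x y) + (ayy x y + 2 * cyy x y))) (Set.Icc (-R0) 0) :=
      k1.mono (Set.Icc_subset_Icc_right hW0.le)
    have k3 : ContinuousOn (fun x => mB B W x * b y *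
        ((axx x y + 2 * cxx x y) + (ayy x y + 2 * cyy x y))) (Set.Icc 0 W) := k1.mono hIcc
    have i0 : IntervalIntegrable (fun x => mB B W x * b y *
        ((axx x y + 2 * cxx x y) + (ayy x y + 2 * cyy x y))) volume (-R0) 0 :=
      k0.intervalIntegrable_of_Icc (by linarith)
    have i1 : IntervalIntegrable (fun x => mB B W x * b y *
        ((axx x y + 2 * cxx x y) + (ayy x y + 2 * cyy x y))) volume 0 W :=
      k3.intervalIntegrable_of_Icc hW0.le
    have i2 : IntervalIntegrable (fun x => b x * b y * (axx x y + ayy x y)) volume 0 W :=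
      k2.intervalIntegrable_of_Icc hW0.le
    rw [← intervalIntegral.integral_add_adjacent_intervals i0 i1,
      ← intervalIntegral.integral_const_mul]
    have j0 : 0 ≤ ∫ x in (-R0)..0, mB B W x * b y *
        ((axx x y + 2 * cxx x y) + (ayy x y + 2 * cyy x y)) := by
      refine intervalIntegral.integral_nonneg (by linarith) fun x hx => ?_
      have hx' : x ∈ Set.Icc (-R0) W := ⟨hx.1, hx.2.trans hW0.le⟩
      have d1 := (ad x hx' y hy).2.2.2.2
      have d2 := (cd x hx' y hy).2.2.2.2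
      have d3 := (mB_ge hB hW hx.1).1
      have d4 : 0 ≤ (axx x y + 2 * cxx x y) + (ayy x y + 2 * cyy x y) := by linarith
      exact mul_nonneg (mul_nonneg d3 (hbn y)) d4
    have j1 : ∫ x in (0 : ℝ)..W, R0 * (b x * b y * (axx x y + ayy x y)) ≤
        ∫ x in (0 : ℝ)..W, mB B W x * b y *
          ((axx x y + 2 * cxx x y) + (ayy x y + 2 * cyy x y)) := by
      refine intervalIntegral.integral_mono_on hW0.le (i2.const_mul R0) i1 fun x hx => ?_
      have hx' : x ∈ Set.Icc (-R0) W := hIcc hx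
      have d1 := (ad x hx' y hy).2.2.2.2
      have d2 := (cd x hx' y hy).2.2.2.2
      obtain ⟨d3, d5⟩ := mB_ge hB hW hx'.1
      have d6 : R0 * b x ≤ mB B W x := by
        rw [hb]
        exact d5 hx.1
      have d4 : axx x y + ayy x y ≤ (axx x y + 2 * cxx x y) + (ayy x y + 2 * cyy x y) := by
        linarith
      have d7 : 0 ≤ b x := hbn x
      calc R0 * (b x * b y * (axx x y + ayy x y)) =
            (R0 * b x) * b y * (axx x y + ayy x y) := by ring
        _ ≤ mB B W x * b y * (axx x y + ayy x y) :=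
            mul_le_mul_of_nonneg_right (mul_le_mul_of_nonneg_right d6 (hbn y)) d1
        _ ≤ _ := mul_le_mul_of_nonneg_left d4 (mul_nonneg d3 (hbn y))
    linarith
  rw [G1, G2] at hcmp
  have hbe : ∀ y, bu (y / W) = b y := fun y => by rw [hb]
  simp only [hbe]
  have hfin := div_le_div_of_nonneg_right hcmp hR.le
  rw [mul_div_cancel_left₀ _ hR.ne'] at hfin
  have hdiv : ((∫ y in (-W)..W, ∫ x in (-R0)..W,
      (gL f1 ε x y + 2 * gL f2 ε x y) * Lh B W x y) +
        ∫ y in (-W)..W, b y * (gL f1 ε (-R0) y + 2 * gL f2 ε (-R0) y)) / R0 =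
      1 / R0 * ((∫ y in (-W)..W, ∫ x in (-R0)..W,
      (gL f1 ε x y + 2 * gL f2 ε x y) * Lh B W x y) +
        ∫ y in (-W)..W, b y * (gL f1 ε (-R0) y + 2 * gL f2 ε (-R0) y)) := by
    rw [div_eq_mul_inv, one_div, mul_comm]
  rw [hdiv] at hfin
  linarith

end Pool.Agent.LB
end

section

/-! TASK A6. Counting by the argument. `b(y) = bu(y/W)`, zero for `|y| ≥ 3W/4 =: c`. Let `z_1 < ... < z_n` be the points of `Z` in `(-c, c)`, `z_0 = -c`, `z_{n+1} = c`. On an open gap `(z_i, z_{i+1})` `Y` takes values in the slit plane, `A(y) = Complex.arg (Y y)` is `C¹` there with `A' = Im(Y'/Y)` (`Complex.log` is differentiable on the slit plane, `arg = Im log`), `|A| ≤ π`.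
Integration by parts on `[u,v] ⊂ (z_i, z_{i+1})`: `∫_u^v b A' = b(v)A(v) - b(u)A(u) - ∫_u^v b' A ≤ π(b(u) + b(v)) + π ∫_u^v |b'|`; let `u ↓ z_i`, `v ↑ z_{i+1}` (`b A'` is continuous on the closed interval as `Y ≠ 0`). Sum over the gaps: `≤ 2π ∑ b(z_i) + π ∫_{-c}^c |b'|` (`b(±c) = 0`), and `∫ |b'| = 2 (b(0) - b(c)) = 2` since `b` is even and antitone on `[0,∞)`. Total `≤ 2π(1 + ∑_{y ∈ Z} b(y))`.
(Induction on the number of points of `Z` in the interval is convenient: claim for `-c ≤ u ≤ v ≤ c`: `∫_u^v b A' ≤ π(b(u)+b(v)) + π∫_u^v|b'| + 2π ∑_{z ∈ Z, u < z < v} b(z)`.) -/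

set_option autoImplicit false

namespace Pool.Agent.LB

open Complex MeasureTheory Finset Pool.Agent.GH Pool.Agent.UH Pool.Agent.UV
open scoped Real ComplexConjugate

private theorem A6_gap {Y Y' : ℝ → ℂ} {b b' g G V : ℝ → ℝ}
    (hb : ∀ y, HasDerivAt b (b' y) y) (hb0 : ∀ y, 0 ≤ b y)
    (hG : ∀ y, HasDerivAt G (g y) y) (hV : ∀ y, HasDerivAt V |b' y| y)
    {u v : ℝ} (huv : u < v)
    (hY : ∀ y ∈ Set.Ioo u v, HasDerivAt Y (Y' y) y)
    (hg : ∀ y ∈ Set.Ioo u v, g y = b y * (Y' y / Y y).im)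
    (hs : ∀ y ∈ Set.Ioo u v, Y y ∈ Complex.slitPlane) :
    G v - G u ≤ π * (b u + b v) + π * (V v - V u) := by
  have hder : ∀ x ∈ Set.Ioo u v, HasDerivAt (fun x => G x - π * V x - b x * (Y x).arg)
      (g x - π * |b' x| - (b' x * (Y x).arg + b x * (Y' x / Y x).im)) x := by
    intro x hx
    have h1 : HasDerivAt (fun t => (Y t).arg) (Y' x / Y x).im x := by
      have h2 := (hY x hx).clog_real (hs x hx)
      have h3 := (Complex.imCLM.hasFDerivAt (x := Complex.log (Y x))).comp_hasDerivAt x h2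
      have h4 : (fun t => (Y t).arg) = (Complex.imCLM ∘ fun t => Complex.log (Y t)) := by
        funext t
        simp [Complex.log_im]
      rw [h4]
      simpa using h3
    exact ((hG x).sub ((hV x).const_mul π)).sub ((hb x).mul h1)
  have hle : ∀ x ∈ Set.Ioo u v,
      (g x - π * |b' x| - (b' x * (Y x).arg + b x * (Y' x / Y x).im)) ≤ 0 := by
    intro x hx
    rw [hg x hx]
    have h1 : |b' x * (Y x).arg| ≤ |b' x| * π := by
      rw [abs_mul]
      exact mul_le_mul_of_nonneg_left (Complex.abs_arg_le_pi _) (abs_nonneg _)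
    have h2 := neg_abs_le (b' x * (Y x).arg)
    nlinarith
  have hanti : AntitoneOn (fun x => G x - π * V x - b x * (Y x).arg) (Set.Ioo u v) := by
    apply antitoneOn_of_deriv_nonpos (convex_Ioo u v)
    · intro x hx
      exact (hder x hx).continuousAt.continuousWithinAt
    · intro x hx
      rw [interior_Ioo] at hx
      exact (hder x hx).differentiableAt.differentiableWithinAt
    · intro x hx
      rw [interior_Ioo] at hx
      rw [(hder x hx).deriv]
      exact hle x hx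
  have hGc : Continuous G := continuous_iff_continuousAt.mpr (fun y => (hG y).continuousAt)
  have hVc : Continuous V := continuous_iff_continuousAt.mpr (fun y => (hV y).continuousAt)
  have hbc : Continuous b := continuous_iff_continuousAt.mpr (fun y => (hb y).continuousAt)
  have hlim : Filter.Tendsto (fun δ : ℝ => G (v - δ) - G (u + δ) - π * (b (u + δ) + b (v - δ)) -
      π * (V (v - δ) - V (u + δ))) (nhdsWithin 0 (Set.Ioi 0))
      (nhds (G v - G u - π * (b u + b v) - π * (V v - V u))) := by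
    have hcont : Continuous (fun δ : ℝ => G (v - δ) - G (u + δ) - π * (b (u + δ) + b (v - δ)) -
      π * (V (v - δ) - V (u + δ))) := by fun_prop
    have h := hcont.tendsto 0
    simp only [sub_zero, add_zero] at h
    exact h.mono_left nhdsWithin_le_nhds
  have hev : ∀ᶠ δ : ℝ in nhdsWithin 0 (Set.Ioi 0), G (v - δ) - G (u + δ) -
      π * (b (u + δ) + b (v - δ)) - π * (V (v - δ) - V (u + δ)) ≤ 0 := by
    have hmem : Set.Ioo (0 : ℝ) ((v - u) / 2) ∈ nhdsWithin (0 : ℝ) (Set.Ioi 0) :=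
      Ioo_mem_nhdsGT (by linarith)
    filter_upwards [hmem] with δ hδ
    have hδ1 := hδ.1
    have hδ2 := hδ.2
    have h := hanti (a := u + δ) (b := v - δ) ⟨by linarith, by linarith⟩
      ⟨by linarith, by linarith⟩ (by linarith)
    simp only at h
    have h1 : b (v - δ) * (Y (v - δ)).arg ≤ π * b (v - δ) := by
      have := (abs_le.mp (Complex.abs_arg_le_pi (Y (v - δ)))).2
      nlinarith [hb0 (v - δ)]
    have h2 : -(π * b (u + δ)) ≤ b (u + δ) * (Y (u + δ)).arg := by
      have := (abs_le.mp (Complex.abs_arg_le_pi (Y (u + δ)))).1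
      nlinarith [hb0 (u + δ)]
    linarith
  have hfin := le_of_tendsto hlim hev
  linarith

private theorem A6_ind {b G V : ℝ → ℝ} {c : ℝ} (Z : Finset ℝ)
    (hgap : ∀ u v : ℝ, u < v → -c ≤ u → v ≤ c → (∀ y ∈ Set.Ioo u v, y ∉ Z) →
      G v - G u ≤ π * (b u + b v) + π * (V v - V u)) (n : ℕ) :
    ∀ u v : ℝ, u < v → -c ≤ u → v ≤ c → (Z.filter (fun z => u < z ∧ z < v)).card = n →
      G v - G u ≤ π * (b u + b v) + π * (V v - V u) +
        2 * π * ∑ z ∈ Z.filter (fun z => u < z ∧ z < v), b z := by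
  induction n using Nat.strong_induction_on with
  | _ n ih =>
    intro u v huv hu hv hcard
    by_cases hne : (Z.filter (fun z => u < z ∧ z < v)).Nonempty
    · obtain ⟨z0, hz0⟩ := hne
      have hz0' := (Finset.mem_filter.mp hz0).2
      have hzZ := (Finset.mem_filter.mp hz0).1
      have hS : Z.filter (fun z => u < z ∧ z < v) =
          insert z0 (Z.filter (fun z => u < z ∧ z < z0) ∪ Z.filter (fun z => z0 < z ∧ z < v)) := by
        ext z
        simp only [Finset.mem_filter, Finset.mem_insert, Finset.mem_union]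
        constructor
        · rintro ⟨h1, h2, h3⟩
          rcases lt_trichotomy z z0 with h | h | h
          · exact Or.inr (Or.inl ⟨h1, h2, h⟩)
          · exact Or.inl h
          · exact Or.inr (Or.inr ⟨h1, h, h3⟩)
        · rintro (h | h | h)
          · rw [h]
            exact ⟨hzZ, hz0'⟩
          · exact ⟨h.1, h.2.1, lt_trans h.2.2 hz0'.2⟩
          · exact ⟨h.1, lt_trans hz0'.1 h.2.1, h.2.2⟩
      have hnot : z0 ∉ Z.filter (fun z => u < z ∧ z < z0) ∪ Z.filter (fun z => z0 < z ∧ z < v) := by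
        simp only [Finset.mem_filter, Finset.mem_union]
        rintro (h | h)
        · exact lt_irrefl _ h.2.2
        · exact lt_irrefl _ h.2.1
      have hdisj : Disjoint (Z.filter (fun z => u < z ∧ z < z0))
          (Z.filter (fun z => z0 < z ∧ z < v)) := by
        rw [Finset.disjoint_left]
        intro z h1 h2
        exact lt_asymm (Finset.mem_filter.mp h1).2.2 (Finset.mem_filter.mp h2).2.1
      have hcardeq : (Z.filter (fun z => u < z ∧ z < z0)).card +
          (Z.filter (fun z => z0 < z ∧ z < v)).card + 1 = n := by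
        rw [← hcard, hS, Finset.card_insert_of_notMem hnot, Finset.card_union_of_disjoint hdisj]
      have h1 := ih _ (by omega) u z0 hz0'.1 hu (le_trans hz0'.2.le hv) rfl
      have h2 := ih (Z.filter (fun z => z0 < z ∧ z < v)).card (by omega) z0 v hz0'.2
        (le_trans hu hz0'.1.le) hv rfl
      rw [hS, Finset.sum_insert hnot, Finset.sum_union hdisj]
      linarith
    · rw [Finset.not_nonempty_iff_eq_empty] at hne
      rw [hne, Finset.sum_empty, mul_zero, add_zero]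
      apply hgap u v huv hu hv
      intro y hy hyZ
      have : y ∈ Z.filter (fun z => u < z ∧ z < v) := Finset.mem_filter.mpr ⟨hyZ, hy⟩
      rw [hne] at this
      exact absurd this (Finset.notMem_empty _)

private theorem A6_bu_hasDerivAt (x : ℝ) : HasDerivAt bu (deriv bu x) x :=
  ((bu_contDiff.differentiable (by simp)) x).hasDerivAt

private theorem A6_bu_cont : Continuous bu := bu_contDiff.continuous

private theorem A6_dbu_cont : Continuous (deriv bu) := bu_contDiff.continuous_deriv (by simp)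

private theorem A6_dbu_nonpos {x : ℝ} (hx : 0 ≤ x) : deriv bu x ≤ 0 := by
  have h := bu_anti.derivWithin_nonpos (x := x)
  rwa [(A6_bu_hasDerivAt x).differentiableAt.derivWithin (uniqueDiffOn_Ici (0 : ℝ) x hx)] at h

private theorem A6_dbu_nonneg {x : ℝ} (hx : x ≤ 0) : 0 ≤ deriv bu x := by
  have h1 : deriv bu x = - deriv bu (-x) := by
    have h2 : (fun y : ℝ => bu (-y)) = bu := by
      funext y
      exact bu_even y
    conv_lhs => rw [← h2]
    rw [deriv_comp_neg]
  rw [h1]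
  have := A6_dbu_nonpos (x := -x) (by linarith)
  linarith

theorem crossing {Y Y' : ℝ → ℂ} {W : ℝ} (hW : 0 < W)
    (hY : ∀ y ∈ Set.Icc (-W) W, HasDerivAt Y (Y' y) y) (hc : ContinuousOn Y' (Set.Icc (-W) W))
    (h0 : ∀ y ∈ Set.Icc (-W) W, Y y ≠ 0) (Z : Finset ℝ)
    (hZ : ∀ y : ℝ, |y| < 3 / 4 * W → Y y ∉ Complex.slitPlane → y ∈ Z) :
    ∫ y in (-W)..W, bu (y / W) * (Y' y / Y y).im ≤ 2 * π * (1 + ∑ y ∈ Z, bu (y / W)) := by
  obtain ⟨c, hcdef⟩ : ∃ c : ℝ, c = 3 / 4 * W := ⟨_, rfl⟩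
  have hc0 : 0 < c := by rw [hcdef]; linarith
  have hcW : c < W := by rw [hcdef]; linarith
  obtain ⟨b, hbdef⟩ : ∃ b : ℝ → ℝ, b = fun y => bu (y / W) := ⟨_, rfl⟩
  obtain ⟨b', hb'def⟩ : ∃ b' : ℝ → ℝ, b' = fun y => deriv bu (y / W) / W := ⟨_, rfl⟩
  obtain ⟨g, hgdef⟩ : ∃ g : ℝ → ℝ, g = fun y => b y * (Y' y / Y y).im := ⟨_, rfl⟩
  have hb : ∀ y, HasDerivAt b (b' y) y := by
    intro y
    have h1 : HasDerivAt (fun y : ℝ => y / W) (1 / W) y := (hasDerivAt_id y).div_const W
    have h2 := (A6_bu_hasDerivAt (y / W)).comp y h1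
    rw [hbdef, hb'def]
    simp only
    have h3 : deriv bu (y / W) / W = deriv bu (y / W) * (1 / W) := by ring
    rw [h3]
    exact h2
  have hb0 : ∀ y, 0 ≤ b y := by
    intro y
    rw [hbdef]
    exact (bu_mem _).1
  have hbz : ∀ y, c ≤ |y| → b y = 0 := by
    intro y hy
    rw [hbdef]
    apply bu_zero
    rw [abs_div, abs_of_pos hW, le_div_iff₀ hW, ← hcdef]
    exact hy
  have hbc : Continuous b := continuous_iff_continuousAt.mpr (fun y => (hb y).continuousAt)
  have hb'c : Continuous b' := by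
    rw [hb'def]
    exact (A6_dbu_cont.comp (continuous_id.div_const W)).div_const W
  have hgz : ∀ y, c ≤ |y| → g y = 0 := by
    intro y hy
    rw [hgdef]
    simp only
    rw [hbz y hy, zero_mul]
  have hgon : ContinuousOn g (Set.Icc (-W) W) := by
    rw [hgdef]
    apply hbc.continuousOn.mul
    apply Complex.continuous_im.comp_continuousOn
    apply hc.div _ h0
    intro y hy
    exact (hY y hy).continuousAt.continuousWithinAt
  have hg : Continuous g := by
    rw [continuous_iff_continuousAt]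
    intro y
    by_cases hy : |y| < W
    · have hy' := abs_lt.mp hy
      exact hgon.continuousAt (Icc_mem_nhds hy'.1 hy'.2)
    · have hopen : {t : ℝ | c < |t|} ∈ nhds y :=
        (isOpen_lt continuous_const continuous_abs).mem_nhds (by
          simp only [Set.mem_setOf_eq]
          linarith)
      have hEq : g =ᶠ[nhds y] (fun _ => (0 : ℝ)) := by
        filter_upwards [hopen] with t ht
        exact hgz t (le_of_lt ht)
      exact (continuousAt_const).congr hEq.symm
  obtain ⟨G, hGdef⟩ : ∃ G : ℝ → ℝ, G = fun y => ∫ t in (0 : ℝ)..y, g t := ⟨_, rfl⟩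
  obtain ⟨V, hVdef⟩ : ∃ V : ℝ → ℝ, V = fun y => ∫ t in (0 : ℝ)..y, |b' t| := ⟨_, rfl⟩
  have hG : ∀ y, HasDerivAt G (g y) y := by
    intro y
    rw [hGdef]
    exact (Continuous.integral_hasStrictDerivAt hg 0 y).hasDerivAt
  have hb'ac : Continuous (fun t => |b' t|) := continuous_abs.comp hb'c
  have hV : ∀ y, HasDerivAt V |b' y| y := by
    intro y
    rw [hVdef]
    exact (Continuous.integral_hasStrictDerivAt hb'ac 0 y).hasDerivAt
  have hgap : ∀ u v : ℝ, u < v → -c ≤ u → v ≤ c → (∀ y ∈ Set.Ioo u v, y ∉ Z) →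
      G v - G u ≤ π * (b u + b v) + π * (V v - V u) := by
    intro u v huv hu hv hno
    apply A6_gap hb hb0 hG hV huv (Y := Y) (Y' := Y')
    · intro y hy
      exact hY y ⟨by linarith [hy.1], by linarith [hy.2]⟩
    · intro y hy
      rw [hgdef]
    · intro y hy
      by_contra hcon
      apply hno y hy
      apply hZ y _ hcon
      rw [← hcdef, abs_lt]
      exact ⟨by linarith [hy.1], by linarith [hy.2]⟩
  have hmain := A6_ind (b := b) (G := G) (V := V) Z hgap _ (-c) c (by linarith) (le_refl _)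
    (le_refl _) rfl
  have hbc1 : b c = 0 := hbz c (le_abs_self c)
  have hbc2 : b (-c) = 0 := hbz (-c) (by rw [abs_neg]; exact le_abs_self c)
  have hb01 : b 0 ≤ 1 := by
    rw [hbdef]
    exact (bu_mem _).2
  have hV1 : V c - V 0 ≤ 1 := by
    have h1 : ∫ t in (0 : ℝ)..c, |b' t| = V c - V 0 :=
      intervalIntegral.integral_eq_sub_of_hasDerivAt (fun x _ => hV x)
        (hb'ac.intervalIntegrable _ _)
    have h2 : ∫ t in (0 : ℝ)..c, |b' t| = ∫ t in (0 : ℝ)..c, - b' t := by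
      apply intervalIntegral.integral_congr
      intro t ht
      rw [Set.uIcc_of_le hc0.le] at ht
      simp only
      apply abs_of_nonpos
      rw [hb'def]
      exact div_nonpos_of_nonpos_of_nonneg (A6_dbu_nonpos (div_nonneg ht.1 hW.le)) hW.le
    have h3 : ∫ t in (0 : ℝ)..c, - b' t = (- b c) - (- b 0) :=
      intervalIntegral.integral_eq_sub_of_hasDerivAt (f := fun x => - b x)
        (fun x _ => (hb x).neg) (hb'c.neg.intervalIntegrable _ _)
    rw [← h1, h2, h3, hbc1]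
    linarith
  have hV2 : V 0 - V (-c) ≤ 1 := by
    have h1 : ∫ t in (-c)..(0 : ℝ), |b' t| = V 0 - V (-c) :=
      intervalIntegral.integral_eq_sub_of_hasDerivAt (fun x _ => hV x)
        (hb'ac.intervalIntegrable _ _)
    have h2 : ∫ t in (-c)..(0 : ℝ), |b' t| = ∫ t in (-c)..(0 : ℝ), b' t := by
      apply intervalIntegral.integral_congr
      intro t ht
      rw [Set.uIcc_of_le (by linarith)] at ht
      simp only
      apply abs_of_nonneg
      rw [hb'def]
      exact div_nonneg (A6_dbu_nonneg (div_nonpos_of_nonpos_of_nonneg ht.2 hW.le)) hW.le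
    have h3 : ∫ t in (-c)..(0 : ℝ), b' t = b 0 - b (-c) :=
      intervalIntegral.integral_eq_sub_of_hasDerivAt (fun x _ => hb x)
        (hb'c.intervalIntegrable _ _)
    rw [← h1, h2, h3, hbc2]
    linarith
  have hGW : G W - G c = 0 := by
    have h1 : ∫ t in c..W, g t = G W - G c :=
      intervalIntegral.integral_eq_sub_of_hasDerivAt (fun x _ => hG x)
        (hg.intervalIntegrable _ _)
    have h2 : ∫ t in c..W, g t = ∫ t in c..W, (0 : ℝ) := by
      apply intervalIntegral.integral_congr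
      intro t ht
      rw [Set.uIcc_of_le hcW.le] at ht
      exact hgz t (le_trans ht.1 (le_abs_self t))
    rw [← h1, h2, intervalIntegral.integral_zero]
  have hGW' : G (-c) - G (-W) = 0 := by
    have h1 : ∫ t in (-W)..(-c), g t = G (-c) - G (-W) :=
      intervalIntegral.integral_eq_sub_of_hasDerivAt (fun x _ => hG x)
        (hg.intervalIntegrable _ _)
    have h2 : ∫ t in (-W)..(-c), g t = ∫ t in (-W)..(-c), (0 : ℝ) := by
      apply intervalIntegral.integral_congr
      intro t ht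
      rw [Set.uIcc_of_le (by linarith)] at ht
      exact hgz t (le_trans (by linarith [ht.2]) (neg_le_abs t))
    rw [← h1, h2, intervalIntegral.integral_zero]
  have hGtot : ∫ y in (-W)..W, bu (y / W) * (Y' y / Y y).im = G W - G (-W) := by
    have h1 : ∫ t in (-W)..W, g t = G W - G (-W) :=
      intervalIntegral.integral_eq_sub_of_hasDerivAt (fun x _ => hG x)
        (hg.intervalIntegrable _ _)
    rw [← h1, hgdef, hbdef]
  rw [hGtot]
  have hsum : ∑ z ∈ Z.filter (fun z => -c < z ∧ z < c), b z ≤ ∑ y ∈ Z, bu (y / W) := by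
    have : ∑ y ∈ Z, bu (y / W) = ∑ y ∈ Z, b y := by rw [hbdef]
    rw [this]
    exact Finset.sum_le_sum_of_subset_of_nonneg (Finset.filter_subset _ _) (fun y _ _ => hb0 y)
  have hpi := Real.pi_pos
  have h5 : π * (V c - V (-c)) ≤ π * 2 := mul_le_mul_of_nonneg_left (by linarith) hpi.le
  have h6 : 2 * π * ∑ z ∈ Z.filter (fun z => -c < z ∧ z < c), b z ≤
      2 * π * ∑ y ∈ Z, bu (y / W) := mul_le_mul_of_nonneg_left hsum (by positivity)
  rw [hbc1, hbc2] at hmain
  nlinarith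

end Pool.Agent.LB
end
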