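import Pool.Agent.Lib.MP_69b2e4_nt.Mg.G024
import Pool.Agent.Lib.MP_69b2e4_nt.UV.R6
import Pool.Agent.Lib.MP_69b2e4_nt.LB.C0
import Pool.Agent.Lib.MP_69b2e4_nt.LB.F1
import Pool.Agent.Lib.MP_69b2e4_nt.Mg.G023
import Pool.Agent.Lib.MP_69b2e4_nt.Mg.G015

section

/-! TASK M6. Sums over primes. Write `L = log T ≥ 1000`, `v = log p/L`.
`ps_min`: COPY `R6_core` of UV/R6.lean (it is private): `∑_{p<M} min 2 (a v)/p ≤ C + 2 log(2Ba)` with `log M ≤ B L`, `B = 3` (`(M:ℝ) ≤ T²` gives `log M ≤ 2L`; the case `M < 2` is trivial).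
`ps_x1`, `ps_x2`: dyadically in `v`: for `v ∈ (V/2, V]`, `V ≤ 1` (`p ≤ T`), `∑ 1/p ≤ C` (`mertens_inv`) or `∑ log p/p` over `(y, z]` is `≤ log(z/y) + C` (`mertens_log`) and partial summation. Simplest: `∑_{p ≤ T} (log p/L) p^{-1} e^{-x v}`: split into intervals `v ∈ ((k-1)/(3+x), k/(3+x)]`, `k ≥ 1`, on which `∑ log p/(pL) ≤ 1/(3+x) + C/L` and `e^{-xv} ≤ e^{3v} e^{-(3+x)v} ≤ e^3 e^{-(k-1)}`.
 The number of `k` is `≤ 4 + x`; but the terms with `C/L` must be summed with the factor `e^{-(k-1)}`: total `(3+x)(e^3 ∑_k e^{-(k-1)} (1/(3+x) + C/L)) ≤ C'` since `3+x ≤ 30 L`. For the square: `((3+x) v)² e^{-2xv}/p = ((3+x)v e^{-xv}) · ((3+x) v e^{-xv}/p)` and `(3+x) v e^{-xv} ≤ e^3` for `0 ≤ v ≤ 1` (`t e^{-t} ≤ 1`).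
`ps_P`: `∑_{p∈P} log p/p ≤ θ^5 L + C ≤ ..`: `mertens_log` from `1` to `⌊exp(θ^5 L)⌋₊`; the claim has `+ C/log T`. -/

set_option autoImplicit false

namespace Pool.Agent.LB

open Complex MeasureTheory Finset Pool.Agent.GH Pool.Agent.UH Pool.Agent.UV
open scoped Real ComplexConjugate

private theorem M6_core {C1 C2 : ℝ} (hC1 : 0 ≤ C1) (hC2 : 0 ≤ C2)
    (h1 : ∀ y z : ℕ, 2 ≤ y → y ≤ z →
      |∑ p ∈ (Finset.Ioc y z).filter Nat.Prime, 1 / (p : ℝ) - Real.log (Real.log z / Real.log y)| ≤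
      C1 / Real.log y)
    (h2 : ∀ y z : ℕ, 1 ≤ y → y ≤ z →
      |∑ p ∈ (Finset.Ioc y z).filter Nat.Prime, Real.log p / p - (Real.log z - Real.log y)| ≤ C2)
    (M : ℕ) (hM : 2 ≤ M) (Y a B : ℝ) (hY : 0 < Y) (ha : 1 ≤ a) (hB1 : 1 ≤ B) (hMY : Real.log M ≤ B * Y) :
    ∑ p ∈ Nat.primesBelow M, min 2 (a * (Real.log p / Y)) / p ≤
      1 + C2 / Real.log 2 + 2 * (C1 / Real.log 2) + 2 * Real.log (2 * B * a) := by
  have hl2 : 0 < Real.log 2 := Real.log_pos (by norm_num)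
  have ha0 : 0 < a := by linarith
  have hfnn : ∀ p : ℕ, 0 ≤ min 2 (a * (Real.log p / Y)) / (p : ℝ) := by
    intro p
    have : 0 ≤ Real.log (p : ℝ) := Real.log_natCast_nonneg p
    apply div_nonneg
    · apply le_min (by norm_num)
      positivity
    · exact Nat.cast_nonneg _
  have hf2 : ∀ p : ℕ, min 2 (a * (Real.log p / Y)) / (p : ℝ) ≤ 2 * (1 / (p : ℝ)) := by
    intro p
    rw [mul_one_div]
    exact div_le_div_of_nonneg_right (min_le_left _ _) (Nat.cast_nonneg _)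
  have hlogM : 0 < Real.log (M : ℝ) := Real.log_pos (by
    have : (2 : ℝ) ≤ M := by exact_mod_cast hM
    linarith)
  by_cases hX : Y / a < Real.log 2
  · have hsub : Nat.primesBelow M ⊆ insert 2 ((Finset.Ioc 2 M).filter Nat.Prime) := by
      intro p hp
      rw [Nat.mem_primesBelow] at hp
      rw [Finset.mem_insert, Finset.mem_filter, Finset.mem_Ioc]
      have := hp.2.two_le
      by_cases h : p = 2
      · exact Or.inl h
      · exact Or.inr ⟨⟨by omega, by omega⟩, hp.2⟩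
    have hni : 2 ∉ (Finset.Ioc 2 M).filter Nat.Prime := by
      rw [Finset.mem_filter, Finset.mem_Ioc]
      omega
    have hm := (abs_le.1 (h1 2 M le_rfl hM)).2
    have hlog : Real.log (Real.log M / Real.log (2 : ℕ)) ≤ Real.log (2 * B * a) := by
      apply Real.log_le_log
      · have : (0 : ℝ) < Real.log (2 : ℕ) := by exact_mod_cast hl2
        positivity
      · have h3 : Y < Real.log 2 * a := (div_lt_iff₀ ha0).1 hX
        have h4 : Real.log ((2 : ℕ) : ℝ) = Real.log 2 := by norm_num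
        rw [h4, div_le_iff₀ hl2]
        have h6 : B * Y ≤ B * (Real.log 2 * a) := mul_le_mul_of_nonneg_left h3.le (by linarith)
        have h7 : 0 ≤ B * (Real.log 2 * a) := by positivity
        linarith
    have h4 : Real.log ((2 : ℕ) : ℝ) = Real.log 2 := by norm_num
    rw [h4] at hm
    rw [h4] at hlog
    have hc2 : 0 ≤ C2 / Real.log 2 := by positivity
    calc ∑ p ∈ Nat.primesBelow M, min 2 (a * (Real.log p / Y)) / (p : ℝ)
        ≤ ∑ p ∈ insert 2 ((Finset.Ioc 2 M).filter Nat.Prime), min 2 (a * (Real.log p / Y)) / (p : ℝ) :=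
          Finset.sum_le_sum_of_subset_of_nonneg hsub (fun p _ _ => hfnn p)
      _ ≤ ∑ p ∈ insert 2 ((Finset.Ioc 2 M).filter Nat.Prime), 2 * (1 / (p : ℝ)) :=
          Finset.sum_le_sum (fun p _ => hf2 p)
      _ = 1 + 2 * ∑ p ∈ (Finset.Ioc 2 M).filter Nat.Prime, 1 / (p : ℝ) := by
          rw [Finset.sum_insert hni, Finset.mul_sum]
          norm_num
      _ ≤ 1 + C2 / Real.log 2 + 2 * (C1 / Real.log 2) + 2 * Real.log (2 * B * a) := by
          linarith
  · push Not at hX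
    have hXpos : 0 < Y / a := by positivity
    have hexp2 : (2 : ℝ) ≤ Real.exp (Y / a) := by
      calc (2 : ℝ) = Real.exp (Real.log 2) := (Real.exp_log (by norm_num)).symm
        _ ≤ Real.exp (Y / a) := Real.exp_le_exp.2 hX
    have hz2 : 2 ≤ ⌊Real.exp (Y / a)⌋₊ := Nat.le_floor (by exact_mod_cast hexp2)
    have hzle : (⌊Real.exp (Y / a)⌋₊ : ℝ) ≤ Real.exp (Y / a) := Nat.floor_le (Real.exp_pos _).le
    have hzge : Real.exp (Y / a) < (⌊Real.exp (Y / a)⌋₊ : ℝ) + 1 := Nat.lt_floor_add_one _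
    generalize ⌊Real.exp (Y / a)⌋₊ = z at hz2 hzle hzge
    have hz2' : (2 : ℝ) ≤ z := by exact_mod_cast hz2
    have hlz : Real.log z ≤ Y / a := by
      rw [Real.log_le_iff_le_exp (by linarith)]
      exact hzle
    have hlz2 : Real.log 2 ≤ Real.log z := Real.log_le_log (by norm_num) hz2'
    have hlzX : Y / a / 2 ≤ Real.log z := by
      by_cases h : Y / a ≤ 2 * Real.log 2
      · linarith
      · push Not at h
        have h3 : Real.exp (Y / a) / 2 ≤ z := by linarith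
        have h4 : Y / a - Real.log 2 ≤ Real.log z := by
          have h5 := Real.log_le_log (by positivity) h3
          rw [Real.log_div (Real.exp_pos _).ne' (by norm_num), Real.log_exp] at h5
          exact h5
        linarith
    have hlzpos : 0 < Real.log z := by linarith
    have hsub : Nat.primesBelow M ⊆ ((Finset.Ioc 1 z).filter Nat.Prime) ∪
        ((Finset.Ioc z (max z M)).filter Nat.Prime) := by
      intro p hp
      rw [Nat.mem_primesBelow] at hp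
      rw [Finset.mem_union, Finset.mem_filter, Finset.mem_filter, Finset.mem_Ioc, Finset.mem_Ioc]
      have := hp.2.two_le
      by_cases h : p ≤ z
      · exact Or.inl ⟨⟨by omega, h⟩, hp.2⟩
      · exact Or.inr ⟨⟨by omega, le_trans (by omega) (le_max_right _ _)⟩, hp.2⟩
    have hdisj : Disjoint ((Finset.Ioc 1 z).filter Nat.Prime)
        ((Finset.Ioc z (max z M)).filter Nat.Prime) := by
      rw [Finset.disjoint_left]
      intro p hp hp'
      rw [Finset.mem_filter, Finset.mem_Ioc] at hp hp'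
      omega
    have hA : ∑ p ∈ (Finset.Ioc 1 z).filter Nat.Prime, min 2 (a * (Real.log p / Y)) / (p : ℝ) ≤
        1 + C2 / Real.log 2 := by
      have hm := (abs_le.1 (h2 1 z le_rfl (by omega))).2
      have h3 : ∑ p ∈ (Finset.Ioc 1 z).filter Nat.Prime, min 2 (a * (Real.log p / Y)) / (p : ℝ) ≤
          (a / Y) * ∑ p ∈ (Finset.Ioc 1 z).filter Nat.Prime, Real.log p / (p : ℝ) := by
        rw [Finset.mul_sum]
        apply Finset.sum_le_sum
        intro p _
        calc min 2 (a * (Real.log p / Y)) / (p : ℝ) ≤ (a * (Real.log p / Y)) / (p : ℝ) :=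
              div_le_div_of_nonneg_right (min_le_right _ _) (Nat.cast_nonneg _)
          _ = (a / Y) * (Real.log p / (p : ℝ)) := by ring
      have h4 : ∑ p ∈ (Finset.Ioc 1 z).filter Nat.Prime, Real.log p / (p : ℝ) ≤ Y / a + C2 := by
        have h5 : Real.log ((1 : ℕ) : ℝ) = 0 := by simp
        rw [h5] at hm
        linarith
      have h6 : (a / Y) * (Y / a + C2) = 1 + C2 / (Y / a) := by
        field_simp
      have h7 : C2 / (Y / a) ≤ C2 / Real.log 2 := div_le_div_of_nonneg_left hC2 hl2 hX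
      have h8 : (a / Y) * ∑ p ∈ (Finset.Ioc 1 z).filter Nat.Prime, Real.log p / (p : ℝ) ≤
          (a / Y) * (Y / a + C2) := mul_le_mul_of_nonneg_left h4 (by positivity)
      linarith
    have hB : ∑ p ∈ (Finset.Ioc z (max z M)).filter Nat.Prime,
        min 2 (a * (Real.log p / Y)) / (p : ℝ) ≤ 2 * (C1 / Real.log 2) + 2 * Real.log (2 * B * a) := by
      have hm := (abs_le.1 (h1 z (max z M) hz2 (le_max_left _ _))).2
      have h3 : ∑ p ∈ (Finset.Ioc z (max z M)).filter Nat.Prime,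
          min 2 (a * (Real.log p / Y)) / (p : ℝ) ≤
          2 * ∑ p ∈ (Finset.Ioc z (max z M)).filter Nat.Prime, 1 / (p : ℝ) := by
        rw [Finset.mul_sum]
        exact Finset.sum_le_sum (fun p _ => hf2 p)
      have h4 : Real.log ((max z M : ℕ) : ℝ) ≤ B * Y := by
        rcases le_total z M with h | h
        · rw [max_eq_right h]
          exact hMY
        · rw [max_eq_left h]
          have : Y / a ≤ Y := div_le_self hY.le ha
          nlinarith
      have h4' : 0 < Real.log ((max z M : ℕ) : ℝ) := by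
        apply lt_of_lt_of_le hlzpos
        apply Real.log_le_log (by linarith)
        exact_mod_cast le_max_left z M
      have h5 : Real.log (Real.log ((max z M : ℕ) : ℝ) / Real.log z) ≤ Real.log (2 * B * a) := by
        apply Real.log_le_log (by positivity)
        rw [div_le_iff₀ hlzpos]
        have h6 : 2 * B * a * (Y / a / 2) = B * Y := by
          field_simp
        have h7 : 2 * B * a * (Y / a / 2) ≤ 2 * B * a * Real.log z :=
          mul_le_mul_of_nonneg_left hlzX (by positivity)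
        linarith
      have h6 : C1 / Real.log z ≤ C1 / Real.log 2 := div_le_div_of_nonneg_left hC1 hl2 hlz2
      linarith
    calc ∑ p ∈ Nat.primesBelow M, min 2 (a * (Real.log p / Y)) / (p : ℝ)
        ≤ ∑ p ∈ ((Finset.Ioc 1 z).filter Nat.Prime) ∪
          ((Finset.Ioc z (max z M)).filter Nat.Prime), min 2 (a * (Real.log p / Y)) / (p : ℝ) :=
          Finset.sum_le_sum_of_subset_of_nonneg hsub (fun p _ _ => hfnn p)
      _ = ∑ p ∈ (Finset.Ioc 1 z).filter Nat.Prime, min 2 (a * (Real.log p / Y)) / (p : ℝ) +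
          ∑ p ∈ (Finset.Ioc z (max z M)).filter Nat.Prime,
            min 2 (a * (Real.log p / Y)) / (p : ℝ) := Finset.sum_union hdisj
      _ ≤ 1 + C2 / Real.log 2 + 2 * (C1 / Real.log 2) + 2 * Real.log (2 * B * a) := by linarith


theorem ps_min : ∃ C : ℝ, 0 ≤ C ∧ ∀ (T a : ℝ) (M : ℕ), Real.exp 1000 ≤ T → 1 ≤ a → (M : ℝ) ≤ T ^ 2 →
    ∑ p ∈ Nat.primesBelow M, min 2 (a * (Real.log p / Real.log T)) / (p : ℝ) ≤ C + 2 * Real.log a := by
  obtain ⟨C1, hC1, h1⟩ := mertens_inv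
  obtain ⟨C2, hC2, h2⟩ := mertens_log
  have hl2 : 0 < Real.log 2 := Real.log_pos (by norm_num)
  have hl4 : 0 < Real.log 4 := Real.log_pos (by norm_num)
  refine ⟨1 + C2 / Real.log 2 + 2 * (C1 / Real.log 2) + 2 * Real.log 4, by positivity, ?_⟩
  intro T a M hT ha hM
  have hTpos : 0 < T := lt_of_lt_of_le (Real.exp_pos _) hT
  have hlT : 1000 ≤ Real.log T := (Real.le_log_iff_exp_le hTpos).2 hT
  have hla : 0 ≤ Real.log a := Real.log_nonneg ha
  rcases Nat.lt_or_ge M 2 with hM2 | hM2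
  · have h0 : Nat.primesBelow M = ∅ := by
      ext p
      rw [Nat.mem_primesBelow]
      constructor
      · rintro ⟨h3, h4⟩
        have := h4.two_le
        omega
      · intro h3
        exact absurd h3 (Finset.notMem_empty p)
    rw [h0, Finset.sum_empty]
    positivity
  · have hMY : Real.log (M : ℝ) ≤ 2 * Real.log T := by
      have h3 : Real.log (M : ℝ) ≤ Real.log (T ^ 2) := by
        apply Real.log_le_log _ hM
        have : (2 : ℝ) ≤ M := by exact_mod_cast hM2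
        linarith
      rw [Real.log_pow] at h3
      push_cast at h3
      exact h3
    have h3 := M6_core hC1 hC2 h1 h2 M hM2 (Real.log T) a 2 (by linarith) ha (by norm_num) hMY
    have h4 : Real.log (2 * 2 * a) = Real.log 4 + Real.log a := by
      rw [← Real.log_mul (by norm_num) (by linarith)]
      norm_num
    rw [h4] at h3
    linarith

/-- the primes with `log p ∈ [α, α + δ]` -/
private theorem M6_class {C2 : ℝ}
    (h2 : ∀ y z : ℕ, 1 ≤ y → y ≤ z →
      |∑ p ∈ (Finset.Ioc y z).filter Nat.Prime, Real.log p / p - (Real.log z - Real.log y)| ≤ C2)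
    (F : Finset ℕ) (α δ : ℝ) (hα : 0 ≤ α) (hδ : 0 ≤ δ)
    (hF : ∀ p ∈ F, p.Prime ∧ α ≤ Real.log p ∧ Real.log p ≤ α + δ) :
    ∑ p ∈ F, Real.log p / (p : ℝ) ≤ δ + 2 + C2 := by
  have he1 : 1 ≤ Real.exp α := Real.one_le_exp hα
  have hy1 : 1 ≤ ⌊Real.exp α⌋₊ := Nat.le_floor (by exact_mod_cast he1)
  have hyz : ⌊Real.exp α⌋₊ ≤ ⌊Real.exp (α + δ)⌋₊ :=
    Nat.floor_le_floor (Real.exp_le_exp.2 (by linarith))
  have hm := (abs_le.1 (h2 _ _ hy1 hyz)).2
  have hz : Real.log (⌊Real.exp (α + δ)⌋₊ : ℝ) ≤ α + δ := by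
    rw [Real.log_le_iff_le_exp (by exact_mod_cast lt_of_lt_of_le hy1 hyz)]
    exact Nat.floor_le (Real.exp_pos _).le
  have hy : α - Real.log 2 ≤ Real.log (⌊Real.exp α⌋₊ : ℝ) := by
    have h3 : Real.exp α / 2 ≤ (⌊Real.exp α⌋₊ : ℝ) := by
      have h4 := Nat.lt_floor_add_one (Real.exp α)
      have h5 : (1 : ℝ) ≤ (⌊Real.exp α⌋₊ : ℝ) := by exact_mod_cast hy1
      linarith
    have h5 := Real.log_le_log (by positivity) h3
    rw [Real.log_div (Real.exp_pos _).ne' (by norm_num), Real.log_exp] at h5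
    exact h5
  have hl2 : Real.log 2 < 0.6931471808 := Real.log_two_lt_d9
  have hsub : F ⊆ insert ⌊Real.exp α⌋₊ ((Finset.Ioc ⌊Real.exp α⌋₊ ⌊Real.exp (α + δ)⌋₊).filter Nat.Prime) := by
    intro p hp
    obtain ⟨hp1, hp2, hp3⟩ := hF p hp
    have hp0 : (0 : ℝ) < p := by exact_mod_cast hp1.pos
    have h3 : Real.exp α ≤ p := (Real.le_log_iff_exp_le hp0).1 hp2
    have h4 : (p : ℝ) ≤ Real.exp (α + δ) := (Real.log_le_iff_le_exp hp0).1 hp3
    have h5 : ⌊Real.exp α⌋₊ ≤ p := Nat.floor_le_of_le h3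
    have h6 : p ≤ ⌊Real.exp (α + δ)⌋₊ := Nat.le_floor h4
    rw [Finset.mem_insert, Finset.mem_filter, Finset.mem_Ioc]
    rcases Nat.eq_or_lt_of_le h5 with h7 | h7
    · exact Or.inl h7.symm
    · exact Or.inr ⟨⟨h7, h6⟩, hp1⟩
  have hnn : ∀ p : ℕ, 0 ≤ Real.log p / (p : ℝ) := fun p =>
    div_nonneg (Real.log_natCast_nonneg p) (Nat.cast_nonneg _)
  have hone : ∀ p : ℕ, Real.log p / (p : ℝ) ≤ 1 := by
    intro p
    rcases Nat.eq_zero_or_pos p with h | h
    · rw [h]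
      simp
    · have h0 : (0 : ℝ) < p := by exact_mod_cast h
      rw [div_le_one h0]
      have := Real.log_le_sub_one_of_pos h0
      linarith
  have hni : ⌊Real.exp α⌋₊ ∉ (Finset.Ioc ⌊Real.exp α⌋₊ ⌊Real.exp (α + δ)⌋₊).filter Nat.Prime := by
    rw [Finset.mem_filter, Finset.mem_Ioc]
    omega
  calc ∑ p ∈ F, Real.log p / (p : ℝ)
      ≤ ∑ p ∈ insert ⌊Real.exp α⌋₊
          ((Finset.Ioc ⌊Real.exp α⌋₊ ⌊Real.exp (α + δ)⌋₊).filter Nat.Prime), Real.log p / (p : ℝ) :=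
        Finset.sum_le_sum_of_subset_of_nonneg hsub fun p _ _ => hnn p
    _ = Real.log (⌊Real.exp α⌋₊ : ℝ) / (⌊Real.exp α⌋₊ : ℝ) +
          ∑ p ∈ (Finset.Ioc ⌊Real.exp α⌋₊ ⌊Real.exp (α + δ)⌋₊).filter Nat.Prime,
            Real.log p / (p : ℝ) := Finset.sum_insert hni
    _ ≤ δ + 2 + C2 := by
        have := hone ⌊Real.exp α⌋₊
        linarith

theorem ps_x1 : ∃ C : ℝ, 0 ≤ C ∧ ∀ (T x : ℝ) (M : ℕ), Real.exp 1000 ≤ T → -2 ≤ x →
    x ≤ 20 * Real.log T → (M : ℝ) ≤ T →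
    ∑ p ∈ Nat.primesBelow M, (3 + x) * (Real.log p / Real.log T) *
      Real.exp (-(x * (Real.log p / Real.log T))) / (p : ℝ) ≤ C := by
  obtain ⟨C2, hC2, h2⟩ := mertens_log
  refine ⟨2 * (Real.exp 3 * (1 + 21 * (2 + C2))), by positivity, ?_⟩
  intro T x M hT hx hx2 hM
  have hTpos : 0 < T := lt_of_lt_of_le (Real.exp_pos _) hT
  have hlT : 1000 ≤ Real.log T := (Real.le_log_iff_exp_le hTpos).2 hT
  have hL0 : 0 < Real.log T := by linarith
  have h3x : 0 < 3 + x := by linarith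
  have hv0 : ∀ p : ℕ, 0 ≤ Real.log p / Real.log T := fun p =>
    div_nonneg (Real.log_natCast_nonneg p) hL0.le
  have hv1 : ∀ p ∈ Nat.primesBelow M, Real.log p / Real.log T ≤ 1 := by
    intro p hp
    rw [Nat.mem_primesBelow] at hp
    rw [div_le_one hL0]
    apply Real.log_le_log (by exact_mod_cast hp.2.pos)
    have : (p : ℝ) ≤ M := by exact_mod_cast hp.1.le
    linarith
  have hmaps : ∀ p ∈ Nat.primesBelow M, ⌊(3 + x) * (Real.log p / Real.log T)⌋₊ ∈
      range (⌊3 + x⌋₊ + 1) := by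
    intro p hp
    rw [Finset.mem_range, Nat.lt_add_one_iff]
    apply Nat.floor_le_floor
    have := hv1 p hp
    nlinarith
  rw [← Finset.sum_fiberwise_of_maps_to hmaps]
  have hcl : ∀ j ∈ range (⌊3 + x⌋₊ + 1),
      ∑ p ∈ (Nat.primesBelow M).filter (fun p : ℕ => ⌊(3 + x) * (Real.log p / Real.log T)⌋₊ = j),
        (3 + x) * (Real.log p / Real.log T) *
          Real.exp (-(x * (Real.log p / Real.log T))) / (p : ℝ) ≤
      (Real.exp 3 * (1 + 21 * (2 + C2))) * (1 / 2 : ℝ) ^ j := by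
    intro j _
    have hF : ∀ p ∈ (Nat.primesBelow M).filter
        (fun p : ℕ => ⌊(3 + x) * (Real.log p / Real.log T)⌋₊ = j),
        p.Prime ∧ (j : ℝ) * (Real.log T / (3 + x)) ≤ Real.log p ∧
          Real.log p ≤ (j : ℝ) * (Real.log T / (3 + x)) + Real.log T / (3 + x) := by
      intro p hp
      rw [Finset.mem_filter, Nat.mem_primesBelow] at hp
      have hnn : 0 ≤ (3 + x) * (Real.log p / Real.log T) := mul_nonneg h3x.le (hv0 p)
      have h4 : (j : ℝ) ≤ (3 + x) * (Real.log p / Real.log T) := by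
        rw [← hp.2]
        exact Nat.floor_le hnn
      have h5 : (3 + x) * (Real.log p / Real.log T) < (j : ℝ) + 1 := by
        rw [← hp.2]
        exact Nat.lt_floor_add_one _
      refine ⟨hp.1.2, ?_, ?_⟩
      · rw [mul_div_assoc', div_le_iff₀ h3x]
        rw [mul_div_assoc', le_div_iff₀ hL0] at h4
        linarith
      · have h6 : (j : ℝ) * (Real.log T / (3 + x)) + Real.log T / (3 + x) =
            ((j : ℝ) + 1) * Real.log T / (3 + x) := by ring
        rw [h6, le_div_iff₀ h3x]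
        rw [mul_div_assoc', div_lt_iff₀ hL0] at h5
        linarith
    have hsum := M6_class h2 _ ((j : ℝ) * (Real.log T / (3 + x))) (Real.log T / (3 + x))
      (by positivity) (by positivity) hF
    have hpow : Real.exp (-(j : ℝ)) ≤ (1 / 2 : ℝ) ^ j := by
      have h4 : Real.exp (-(j : ℝ)) = Real.exp (-1) ^ j := by
        rw [← Real.exp_nat_mul]
        congr 1
        ring
      rw [h4]
      apply pow_le_pow_left₀ (Real.exp_pos _).le
      rw [Real.exp_neg, ← one_div]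
      apply one_div_le_one_div_of_le (by norm_num)
      have := Real.add_one_le_exp (1 : ℝ)
      linarith
    have hterm : ∀ p ∈ (Nat.primesBelow M).filter
        (fun p : ℕ => ⌊(3 + x) * (Real.log p / Real.log T)⌋₊ = j),
        (3 + x) * (Real.log p / Real.log T) *
          Real.exp (-(x * (Real.log p / Real.log T))) / (p : ℝ) ≤
        ((3 + x) / Real.log T * (Real.exp 3 * (1 / 2 : ℝ) ^ j)) * (Real.log p / (p : ℝ)) := by
      intro p hp
      rw [Finset.mem_filter] at hp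
      have h4 : (j : ℝ) ≤ (3 + x) * (Real.log p / Real.log T) := by
        rw [← hp.2]
        exact Nat.floor_le (mul_nonneg h3x.le (hv0 p))
      have h5 := hv1 p hp.1
      have h6 : Real.exp (-(x * (Real.log p / Real.log T))) ≤ Real.exp 3 * (1 / 2 : ℝ) ^ j := by
        calc Real.exp (-(x * (Real.log p / Real.log T))) ≤ Real.exp (3 + -(j : ℝ)) := by
              apply Real.exp_le_exp.2
              nlinarith
          _ = Real.exp 3 * Real.exp (-(j : ℝ)) := Real.exp_add _ _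
          _ ≤ Real.exp 3 * (1 / 2 : ℝ) ^ j := mul_le_mul_of_nonneg_left hpow (Real.exp_pos _).le
      have h7 : (3 + x) * (Real.log p / Real.log T) *
          Real.exp (-(x * (Real.log p / Real.log T))) / (p : ℝ) =
          ((3 + x) / Real.log T * (Real.log p / (p : ℝ))) *
            Real.exp (-(x * (Real.log p / Real.log T))) := by ring
      have h8 : 0 ≤ (3 + x) / Real.log T * (Real.log p / (p : ℝ)) :=
        mul_nonneg (by positivity) (div_nonneg (Real.log_natCast_nonneg p) (Nat.cast_nonneg _))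
      calc (3 + x) * (Real.log p / Real.log T) *
            Real.exp (-(x * (Real.log p / Real.log T))) / (p : ℝ)
          = ((3 + x) / Real.log T * (Real.log p / (p : ℝ))) *
            Real.exp (-(x * (Real.log p / Real.log T))) := h7
        _ ≤ ((3 + x) / Real.log T * (Real.log p / (p : ℝ))) * (Real.exp 3 * (1 / 2 : ℝ) ^ j) :=
            mul_le_mul_of_nonneg_left h6 h8
        _ = ((3 + x) / Real.log T * (Real.exp 3 * (1 / 2 : ℝ) ^ j)) * (Real.log p / (p : ℝ)) := by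
            ring
    have hq : (3 + x) / Real.log T ≤ 21 := by
      rw [div_le_iff₀ hL0]
      linarith
    have hq2 : (3 + x) / Real.log T * (Real.log T / (3 + x) + 2 + C2) ≤ 1 + 21 * (2 + C2) := by
      have h4 : (3 + x) / Real.log T * (Real.log T / (3 + x) + 2 + C2) =
          1 + (3 + x) / Real.log T * (2 + C2) := by
        field_simp
        ring
      rw [h4]
      have := mul_le_mul_of_nonneg_right hq (show 0 ≤ 2 + C2 by linarith)
      linarith
    calc ∑ p ∈ (Nat.primesBelow M).filter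
            (fun p : ℕ => ⌊(3 + x) * (Real.log p / Real.log T)⌋₊ = j),
          (3 + x) * (Real.log p / Real.log T) *
            Real.exp (-(x * (Real.log p / Real.log T))) / (p : ℝ)
        ≤ ∑ p ∈ (Nat.primesBelow M).filter
            (fun p : ℕ => ⌊(3 + x) * (Real.log p / Real.log T)⌋₊ = j),
          ((3 + x) / Real.log T * (Real.exp 3 * (1 / 2 : ℝ) ^ j)) * (Real.log p / (p : ℝ)) :=
          Finset.sum_le_sum hterm
      _ = ((3 + x) / Real.log T * (Real.exp 3 * (1 / 2 : ℝ) ^ j)) *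
          ∑ p ∈ (Nat.primesBelow M).filter
            (fun p : ℕ => ⌊(3 + x) * (Real.log p / Real.log T)⌋₊ = j), Real.log p / (p : ℝ) := by
          rw [Finset.mul_sum]
      _ ≤ ((3 + x) / Real.log T * (Real.exp 3 * (1 / 2 : ℝ) ^ j)) *
          (Real.log T / (3 + x) + 2 + C2) := mul_le_mul_of_nonneg_left hsum (by positivity)
      _ = (Real.exp 3 * (1 / 2 : ℝ) ^ j) *
          ((3 + x) / Real.log T * (Real.log T / (3 + x) + 2 + C2)) := by ring
      _ ≤ (Real.exp 3 * (1 / 2 : ℝ) ^ j) * (1 + 21 * (2 + C2)) :=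
          mul_le_mul_of_nonneg_left hq2 (by positivity)
      _ = (Real.exp 3 * (1 + 21 * (2 + C2))) * (1 / 2 : ℝ) ^ j := by ring
  refine (Finset.sum_le_sum hcl).trans ?_
  rw [← Finset.mul_sum]
  have hg := sum_geometric_two_le (⌊3 + x⌋₊ + 1)
  have hK : 0 ≤ Real.exp 3 * (1 + 21 * (2 + C2)) := by positivity
  have := mul_le_mul_of_nonneg_left hg hK
  linarith

theorem ps_x2 : ∃ C : ℝ, 0 ≤ C ∧ ∀ (T x : ℝ) (M : ℕ), Real.exp 1000 ≤ T → -2 ≤ x →
    x ≤ 20 * Real.log T → (M : ℝ) ≤ T →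
    ∑ p ∈ Nat.primesBelow M, ((3 + x) * (Real.log p / Real.log T) *
      Real.exp (-(x * (Real.log p / Real.log T)))) ^ 2 / (p : ℝ) ≤ C := by
  obtain ⟨C, hC, h⟩ := ps_x1
  refine ⟨Real.exp 3 * C, by positivity, ?_⟩
  intro T x M hT hx hx2 hM
  have hTpos : 0 < T := lt_of_lt_of_le (Real.exp_pos _) hT
  have hlT : 1000 ≤ Real.log T := (Real.le_log_iff_exp_le hTpos).2 hT
  have hL0 : 0 < Real.log T := by linarith
  have h3x : 0 < 3 + x := by linarith
  refine le_trans ?_ (mul_le_mul_of_nonneg_left (h T x M hT hx hx2 hM) (Real.exp_pos 3).le)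
  rw [Finset.mul_sum]
  apply Finset.sum_le_sum
  intro p hp
  rw [Nat.mem_primesBelow] at hp
  have hv0 : 0 ≤ Real.log p / Real.log T := div_nonneg (Real.log_natCast_nonneg p) hL0.le
  have hv1 : Real.log p / Real.log T ≤ 1 := by
    rw [div_le_one hL0]
    apply Real.log_le_log (by exact_mod_cast hp.2.pos)
    have : (p : ℝ) ≤ M := by exact_mod_cast hp.1.le
    linarith
  generalize Real.log p / Real.log T = v at hv0 hv1
  have hg0 : 0 ≤ (3 + x) * v * Real.exp (-(x * v)) := by positivity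
  have hg : (3 + x) * v * Real.exp (-(x * v)) ≤ Real.exp 3 := by
    have h4 : (3 + x) * v ≤ Real.exp ((3 + x) * v) := by
      have := Real.add_one_le_exp ((3 + x) * v)
      linarith
    calc (3 + x) * v * Real.exp (-(x * v)) ≤ Real.exp ((3 + x) * v) * Real.exp (-(x * v)) :=
          mul_le_mul_of_nonneg_right h4 (Real.exp_pos _).le
      _ = Real.exp ((3 + x) * v + -(x * v)) := (Real.exp_add _ _).symm
      _ ≤ Real.exp 3 := by
          apply Real.exp_le_exp.2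
          nlinarith
  have hp0 : (0 : ℝ) < p := by exact_mod_cast hp.2.pos
  rw [mul_div_assoc']
  apply div_le_div_of_nonneg_right _ hp0.le
  rw [sq]
  exact mul_le_mul_of_nonneg_right hg hg0

theorem ps_P : ∃ C : ℝ, 0 ≤ C ∧ ∀ {S : BS} {Ct θ D1 : ℝ} {N0 : ℕ}, TG S Ct θ D1 N0 →
    ∑ p ∈ S.P, (Real.log p / Real.log S.T) / (p : ℝ) ≤ θ ^ 5 + C / Real.log S.T := by
  obtain ⟨C2, hC2, h2⟩ := mertens_log
  refine ⟨2 + C2, by linarith, ?_⟩
  intro S Ct θ D1 N0 hS
  have hT := hS.T_ge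
  have hTpos : 0 < S.T := lt_of_lt_of_le (Real.exp_pos _) hT
  have hlT : 1000 ≤ Real.log S.T := (Real.le_log_iff_exp_le hTpos).2 hT
  have hL0 : 0 < Real.log S.T := by linarith
  have hth := hS.th_pos
  have hsum := M6_class h2 S.P 0 (θ ^ 5 * Real.log S.T) le_rfl (by positivity) (by
    intro p hp
    obtain ⟨h3, h4⟩ := P_prime hS hp
    exact ⟨h3, Real.log_natCast_nonneg p, by linarith⟩)
  have h5 : ∑ p ∈ S.P, (Real.log p / Real.log S.T) / (p : ℝ) =
      (∑ p ∈ S.P, Real.log p / (p : ℝ)) / Real.log S.T := by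
    rw [Finset.sum_div]
    refine Finset.sum_congr rfl fun p _ => ?_
    rw [div_right_comm]
  rw [h5]
  calc (∑ p ∈ S.P, Real.log p / (p : ℝ)) / Real.log S.T
      ≤ (θ ^ 5 * Real.log S.T + 2 + C2) / Real.log S.T :=
        div_le_div_of_nonneg_right hsum hL0.le
    _ = θ ^ 5 + (2 + C2) / Real.log S.T := by
        field_simp
        ring

end Pool.Agent.LB
end

section

/-! TASK L3. The quadratic form as a double integral over the frequencies. `L = log T`, `η = -2α/L`: `Zt (primesBelow M) (1/2 - η/2) = Zt (..) (1/2 + α/L)`, `wa (η/2) w q = w q (q1/q2)^{-α/L}`: for `b = true` the inner sum is `∑_n β(n) n^{-1/2-α/L} XX n = DPo T β (nX (α/L) v)`, for `b = false` `conj` of `∑ β(n) n^{-1/2+α/L} XX n = DPo T β (nX (-α/L) v)`; so with `z = sgn b α/L`: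
 `BB = ∫ ‖Zt‖² ‖DPo T (be ..)(nX z)‖²`, `DPo T (be T r c d) χ = (c MO 0 T χ + d MO 1 T χ) RT S lam χ` (`DPo_bt`, linearity), `c MO 0 + d MO 1` at `nX z v` `= ∫ φ(ξ) ∏_{q<M}(1 - bb b α T ξ q X_q) dξ` (`MO_pf`, `MO_eq` with `p = pf c d`, `s0 = α+1`; `pf c d u = 0` for `u ≥ 9/20`).
So `BB = ∫∫ φ(ξ1) conj φ(ξ2) E[‖Zt‖² ∏(1 - bb ξ1 X) conj ∏(1 - bb ξ2 X) ‖RT(nX z)‖²]` (Fubini: everything is bounded and continuous, `φ` integrable: `‖bb‖ ≤ p^{-1/2}`-like bound `bz_le`: `Re z + (α+1)/L ≥ 0`).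
Independence (`indep_blocks` with the two blocks `S.P` and `primesBelow M \\ S.P`, `indep_primes`): `‖Zt (primesBelow M)‖²` is the product over the two sets; `RT` depends on `S.P` only (`RT_nX`); the primes outside `S.P` give `one_prime_G` with `y = yv α T p` (`0 ≤ y < 1`, `b1 = bb ξ1 p`, `b2 = bb ξ2 p`), the block `S.P` gives `PhP`. -/

set_option autoImplicit false

namespace Pool.Agent.LB

open Complex MeasureTheory Finset Pool.Agent.GH Pool.Agent.UH Pool.Agent.UV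
open scoped Real ComplexConjugate


theorem bb_le {b : Bool} {α T : ℝ} (hα : 0 < α) (hT : Real.exp 1 ≤ T) (ξ : ℝ) {p : ℕ} (hp : p.Prime) :
    ‖bb b α T ξ p‖ ≤ (p : ℝ) ^ (-(1 / 2) : ℝ) ∧ 0 ≤ yv α T p ∧ yv α T p < 1 ∧
    yv α T p ≤ (p : ℝ) ^ (-(1 / 2) : ℝ) := by
  have hT1 : 1 < T := lt_of_lt_of_le (by have := Real.add_one_lt_exp (one_ne_zero); linarith) hT
  have hL : 0 < Real.log T := Real.log_pos hT1
  have hαL : 0 < α / Real.log T := by positivity
  have hp1 : (1 : ℝ) ≤ p := by exact_mod_cast hp.one_lt.le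
  refine ⟨?_, ?_, ?_, ?_⟩
  · unfold bb
    refine bz_le hT1 ?_ ξ hp
    rw [Complex.ofReal_re]
    cases b with
    | true =>
      have h1 : sgn true * α / Real.log T + (α + 1) / Real.log T = (2 * α + 1) / Real.log T := by
        unfold sgn
        rw [if_pos rfl]
        ring
      rw [h1]
      positivity
    | false =>
      have h1 : sgn false * α / Real.log T + (α + 1) / Real.log T = 1 / Real.log T := by
        unfold sgn
        rw [if_neg Bool.false_ne_true]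
        ring
      rw [h1]
      positivity
  · unfold yv
    positivity
  · unfold yv
    exact rpow_neg_lt_one hp.two_le (by positivity)
  · unfold yv
    refine Real.rpow_le_rpow_of_exponent_le hp1 ?_
    linarith

theorem bb_continuous (b : Bool) (α T : ℝ) (p : ℕ) : Continuous fun ξ : ℝ => bb b α T ξ p := by
  unfold bb
  exact bz_continuous _ _ _ _

private theorem L3_nX (x : ℝ) (v : Om) {n : ℕ} (hn : n ≠ 0) :
    nX ((x : ℝ) : ℂ) v n = (((n : ℝ) ^ (-(1 / 2 + x)) : ℝ) : ℂ) * XX v n := by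
  rw [nX_apply _ v hn, Complex.ofReal_cpow (Nat.cast_nonneg n)]
  push_cast
  rfl

private theorem L3_sum (b : Bool) {α T : ℝ} (β : ℕ → ℝ) (v : Om) :
    ‖∑ q ∈ Fb b T, wa (-(2 * α / Real.log T) / 2) (wb β) q * XX v q.1 * conj (XX v q.2)‖ =
    ‖DPo T β (nX ((sgn b * α / Real.log T : ℝ) : ℂ) v)‖ := by
  classical
  have hGT : ∀ n ∈ GT T, n ≠ 0 := by
    intro n hn
    have := (Finset.mem_Icc.1 hn).1
    omega
  cases b with
  | true =>
    congr 1
    unfold Fb DPo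
    rw [Finset.sum_image]
    · refine Finset.sum_congr rfl fun n hn => ?_
      have hn0 := hGT n hn
      have hnR : (0 : ℝ) < n := by exact_mod_cast Nat.pos_of_ne_zero hn0
      rw [L3_nX _ v hn0]
      have h1 : wa (-(2 * α / Real.log T) / 2) (wb β) (qs true n) =
          ((β n * (n : ℝ) ^ (-(1 / 2 + sgn true * α / Real.log T)) : ℝ) : ℂ) := by
        show ((β (n * 1) * ((n * 1 : ℕ) : ℝ) ^ (-(1 / 2) : ℝ) : ℝ) : ℂ) *
          ((((n : ℝ) / ((1 : ℕ) : ℝ)) ^ (-(2 * α / Real.log T) / 2) : ℝ) : ℂ) = _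
        rw [← Complex.ofReal_mul, mul_one, Nat.cast_one, div_one, mul_assoc, ← Real.rpow_add hnR]
        congr 3
        unfold sgn
        rw [if_pos rfl]
        ring
      rw [h1]
      show _ * XX v n * conj (XX v 1) = _
      rw [map_one, map_one]
      push_cast
      ring
    · intro n _ m _ h
      exact (Prod.mk.inj h).1
  | false =>
    rw [← RCLike.norm_conj (DPo T β (nX ((sgn false * α / Real.log T : ℝ) : ℂ) v))]
    congr 1
    unfold Fb DPo
    rw [Finset.sum_image, map_sum]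
    · refine Finset.sum_congr rfl fun n hn => ?_
      have hn0 := hGT n hn
      have hnR : (0 : ℝ) < n := by exact_mod_cast Nat.pos_of_ne_zero hn0
      rw [L3_nX _ v hn0]
      have h1 : wa (-(2 * α / Real.log T) / 2) (wb β) (qs false n) =
          ((β n * (n : ℝ) ^ (-(1 / 2 + sgn false * α / Real.log T)) : ℝ) : ℂ) := by
        show ((β (1 * n) * ((1 * n : ℕ) : ℝ) ^ (-(1 / 2) : ℝ) : ℝ) : ℂ) *
          (((((1 : ℕ) : ℝ) / (n : ℝ)) ^ (-(2 * α / Real.log T) / 2) : ℝ) : ℂ) = _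
        rw [← Complex.ofReal_mul, one_mul, Nat.cast_one, one_div (n : ℝ), Real.inv_rpow hnR.le,
          ← Real.rpow_neg hnR.le, mul_assoc, ← Real.rpow_add hnR]
        congr 3
        unfold sgn
        rw [if_neg Bool.false_ne_true]
        ring
      rw [h1]
      show _ * XX v 1 * conj (XX v n) = _
      rw [map_mul, map_mul, Complex.conj_ofReal, Complex.conj_ofReal, map_one]
      push_cast
      ring
    · intro n _ m _ h
      exact (Prod.mk.inj h).2

private theorem L3_BB (b : Bool) {α T : ℝ} (β : ℕ → ℝ) (M : ℕ) :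
    BB M (Fb b T) (wb β) (-(2 * α / Real.log T)) =
    ∫ v, ‖Zt (Nat.primesBelow M) (1 / 2 + α / Real.log T) v‖ ^ 2 *
      ‖DPo T β (nX ((sgn b * α / Real.log T : ℝ) : ℂ) v)‖ ^ 2 ∂mu := by
  unfold BB
  refine integral_congr_ae (Filter.Eventually.of_forall fun v => ?_)
  show ‖Zt (Nat.primesBelow M) (1 / 2 - -(2 * α / Real.log T) / 2) v‖ ^ 2 *
    ‖∑ q ∈ Fb b T, wa (-(2 * α / Real.log T) / 2) (wb β) q * XX v q.1 * conj (XX v q.2)‖ ^ 2 = _
  have e1 : 1 / 2 - -(2 * α / Real.log T) / 2 = 1 / 2 + α / Real.log T := by ring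
  rw [e1, L3_sum b β v]

private theorem L3_DPo {S : BS} {Ct θ D1 lam : ℝ} {N0 : ℕ} (hS : TG S Ct θ D1 N0) {r : ℕ → ℝ}
    (hr : Rp S lam θ r) (c d : ℝ) (χ : ℕ →*₀ ℂ) :
    DPo S.T (be S.T r c d) χ = (c * MO 0 S.T χ + d * MO 1 S.T χ) * RT S lam χ := by
  rw [add_mul, mul_assoc, mul_assoc, ← DPo_bt hS hr 0 χ, ← DPo_bt hS hr 1 χ]
  unfold DPo
  rw [Finset.mul_sum, Finset.mul_sum, ← Finset.sum_add_distrib]
  refine Finset.sum_congr rfl fun n _ => ?_
  unfold be
  push_cast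
  ring

/-- Fubini -/
private theorem L3_fub {g : Om → ℂ} (hg : Continuous g) {ψ : ℝ → ℂ} (hψ : Continuous ψ)
    (hψi : Integrable ψ) {Q : Om × ℝ → ℂ} (hQ : Continuous Q) {C : ℝ} (hC : ∀ x, ‖Q x‖ ≤ C) :
    ∫ v, (g v * ∫ ξ : ℝ, ψ ξ * Q (v, ξ)) ∂mu = ∫ ξ : ℝ, ψ ξ * ∫ v, g v * Q (v, ξ) ∂mu := by
  obtain ⟨D, hD⟩ := exists_bound_of_continuous hg
  have hD0 : 0 ≤ D := (norm_nonneg _).trans (hD fun _ => 0)
  have hint : Integrable (Function.uncurry fun (v : Om) (ξ : ℝ) => g v * (ψ ξ * Q (v, ξ)))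
      (mu.prod volume) := by
    have h1 : Integrable (fun x : Om × ℝ => (1 : ℝ) * (D * C * ‖ψ x.2‖)) (mu.prod volume) := by
      have h2 : Integrable (fun _ : Om => (1 : ℝ)) mu := integrable_const _
      exact h2.mul_prod (hψi.norm.const_mul (D * C))
    refine Integrable.mono' h1 ?_ (Filter.Eventually.of_forall fun x => ?_)
    · refine Continuous.aestronglyMeasurable ?_
      show Continuous fun x : Om × ℝ => g x.1 * (ψ x.2 * Q (x.1, x.2))
      exact (hg.comp continuous_fst).mul ((hψ.comp continuous_snd).mul hQ)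
    · show ‖g x.1 * (ψ x.2 * Q (x.1, x.2))‖ ≤ 1 * (D * C * ‖ψ x.2‖)
      rw [norm_mul, norm_mul, one_mul]
      have h3 : ‖g x.1‖ * ‖Q (x.1, x.2)‖ ≤ D * C :=
        mul_le_mul (hD _) (hC _) (norm_nonneg _) hD0
      calc ‖g x.1‖ * (‖ψ x.2‖ * ‖Q (x.1, x.2)‖) = (‖g x.1‖ * ‖Q (x.1, x.2)‖) * ‖ψ x.2‖ := by ring
        _ ≤ D * C * ‖ψ x.2‖ := mul_le_mul_of_nonneg_right h3 (norm_nonneg _)
  calc ∫ v, (g v * ∫ ξ : ℝ, ψ ξ * Q (v, ξ)) ∂mu
      = ∫ v, (∫ ξ : ℝ, g v * (ψ ξ * Q (v, ξ))) ∂mu := by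
        refine integral_congr_ae (Filter.Eventually.of_forall fun v => ?_)
        show g v * ∫ ξ : ℝ, ψ ξ * Q (v, ξ) = ∫ ξ : ℝ, g v * (ψ ξ * Q (v, ξ))
        rw [integral_const_mul]
    _ = ∫ ξ : ℝ, (∫ v, g v * (ψ ξ * Q (v, ξ)) ∂mu) := integral_integral_swap hint
    _ = ∫ ξ : ℝ, ψ ξ * ∫ v, g v * Q (v, ξ) ∂mu := by
        refine integral_congr_ae (Filter.Eventually.of_forall fun ξ => ?_)
        show ∫ v, g v * (ψ ξ * Q (v, ξ)) ∂mu = ψ ξ * ∫ v, g v * Q (v, ξ) ∂mu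
        rw [← integral_const_mul]
        refine integral_congr_ae (Filter.Eventually.of_forall fun v => ?_)
        show g v * (ψ ξ * Q (v, ξ)) = ψ ξ * (g v * Q (v, ξ))
        ring

/-- the expectation for fixed frequencies -/
private theorem L3_exp {S : BS} {Ct θ D1 lam : ℝ} {N0 : ℕ} (hS : TG S Ct θ D1 N0) (b : Bool) {α : ℝ}
    (hα : 0 < α) {M : ℕ} (hM : S.T ^ (9 / 20 : ℝ) ≤ M) (ξ1 ξ2 : ℝ) :
    ∫ v, ((((‖Zt (Nat.primesBelow M) (1 / 2 + α / Real.log S.T) v‖ ^ 2 *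
      ‖RT S lam (nX ((sgn b * α / Real.log S.T : ℝ) : ℂ) v)‖ ^ 2 : ℝ)) : ℂ) *
      (∏ p ∈ Nat.primesBelow M, (1 - bb b α S.T ξ1 p * X p v))) *
      conj (∏ p ∈ Nat.primesBelow M, (1 - bb b α S.T ξ2 p * X p v)) ∂mu =
    (∏ p ∈ Nat.primesBelow M \ S.P, Gp b α S.T ξ1 ξ2 p) * PhP S lam b α ξ1 ξ2 := by
  classical
  have hT1 : 1 < S.T := lt_of_lt_of_le (by
    have := Real.add_one_lt_exp (show (1000 : ℝ) ≠ 0 by norm_num)
    linarith) hS.T_ge
  have hTe : Real.exp 1 ≤ S.T := le_trans (Real.exp_le_exp.2 (by norm_num)) hS.T_ge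
  have hL : 0 < Real.log S.T := Real.log_pos hT1
  have hσ : 0 < 1 / 2 + α / Real.log S.T := by positivity
  have hPM : S.P ⊆ Nat.primesBelow M := by
    refine P_lt hS (le_trans ?_ hM)
    exact Real.rpow_le_rpow_of_exponent_le hT1.le (by norm_num)
  obtain ⟨U, hU⟩ : ∃ U : Finset ℕ, U = Nat.primesBelow M \ S.P := ⟨_, rfl⟩
  have hUp : ∀ p ∈ U, p.Prime := by
    intro p hp
    rw [hU] at hp
    exact Nat.prime_of_mem_primesBelow (Finset.mem_sdiff.1 hp).1
  have hPp : ∀ p ∈ S.P, p.Prime := fun p hp => Nat.prime_of_mem_primesBelow (hPM hp)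
  have hsplit : ∀ f : ℕ → ℂ, ∏ p ∈ Nat.primesBelow M, f p = (∏ p ∈ U, f p) * ∏ p ∈ S.P, f p := by
    intro f
    rw [hU, Finset.prod_sdiff hPM]
  -- the two functions
  obtain ⟨f0, hf0⟩ : ∃ f0 : Om → ℂ, f0 = fun w =>
      (((‖Zt S.P (1 / 2 + α / Real.log S.T) w‖ ^ 2 *
      ‖RT S lam (nX ((sgn b * α / Real.log S.T : ℝ) : ℂ) w)‖ ^ 2 : ℝ)) : ℂ) *
    ((∏ p ∈ S.P, (1 - bb b α S.T ξ1 p * X p w)) *
      conj (∏ p ∈ S.P, (1 - bb b α S.T ξ2 p * X p w))) := ⟨_, rfl⟩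
  obtain ⟨gp, hgp⟩ : ∃ gp : ℕ → UnitAddCircle → ℂ, gp = fun p x =>
      ((‖(1 - (yv α S.T p : ℂ) * (AddCircle.toCircle x : ℂ))⁻¹‖ ^ 2 : ℝ) : ℂ) *
      ((1 - bb b α S.T ξ1 p * (AddCircle.toCircle x : ℂ)) *
        conj (1 - bb b α S.T ξ2 p * (AddCircle.toCircle x : ℂ))) := ⟨_, rfl⟩
  obtain ⟨f1, hf1⟩ : ∃ f1 : Om → ℂ, f1 = fun w => ∏ p ∈ U, gp p (w p) := ⟨_, rfl⟩
  have hprod : ∀ v : Om, ((((‖Zt (Nat.primesBelow M) (1 / 2 + α / Real.log S.T) v‖ ^ 2 *
      ‖RT S lam (nX ((sgn b * α / Real.log S.T : ℝ) : ℂ) v)‖ ^ 2 : ℝ)) : ℂ) *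
      (∏ p ∈ Nat.primesBelow M, (1 - bb b α S.T ξ1 p * X p v))) *
      conj (∏ p ∈ Nat.primesBelow M, (1 - bb b α S.T ξ2 p * X p v)) = f0 v * f1 v := by
    intro v
    have hZ : Zt (Nat.primesBelow M) (1 / 2 + α / Real.log S.T) v =
        Zt U (1 / 2 + α / Real.log S.T) v * Zt S.P (1 / 2 + α / Real.log S.T) v := by
      unfold Zt
      exact hsplit _
    have h1 : f1 v = ((‖Zt U (1 / 2 + α / Real.log S.T) v‖ ^ 2 : ℝ) : ℂ) *
        ((∏ p ∈ U, (1 - bb b α S.T ξ1 p * X p v)) *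
          conj (∏ p ∈ U, (1 - bb b α S.T ξ2 p * X p v))) := by
      rw [hf1, hgp]
      show ∏ p ∈ U, (((‖(1 - (yv α S.T p : ℂ) * X p v)⁻¹‖ ^ 2 : ℝ) : ℂ) *
        ((1 - bb b α S.T ξ1 p * X p v) * conj (1 - bb b α S.T ξ2 p * X p v))) = _
      rw [Finset.prod_mul_distrib, Finset.prod_mul_distrib, map_prod]
      congr 1
      unfold Zt
      rw [norm_prod, ← Finset.prod_pow, Complex.ofReal_prod]
      rfl
    rw [hZ, hsplit, hsplit, h1, hf0, norm_mul, mul_pow, map_mul]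
    push_cast
    ring
  have hcX : ∀ p : ℕ, Continuous (X p) := continuous_X
  have hcf0 : Continuous f0 := by
    rw [hf0]
    refine Continuous.mul ?_ ?_
    · refine Complex.continuous_ofReal.comp ?_
      refine Continuous.mul ?_ ?_
      · exact ((continuous_Zt S.P hPp hσ).norm).pow 2
      · refine Continuous.pow (Continuous.norm ?_) 2
        unfold RT
        refine continuous_finsetProd _ fun j _ => ?_
        exact (continuous_Ex _).comp (continuous_const.mul (continuous_PX _ _))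
    · refine Continuous.mul ?_ (Complex.continuous_conj.comp ?_)
      · exact continuous_finsetProd _ fun p _ => continuous_const.sub (continuous_const.mul (hcX p))
      · exact continuous_finsetProd _ fun p _ => continuous_const.sub (continuous_const.mul (hcX p))
  have hyv : ∀ p ∈ U, 0 ≤ yv α S.T p ∧ yv α S.T p < 1 := fun p hp =>
    ⟨(bb_le (b := b) hα hTe ξ1 (hUp p hp)).2.1, (bb_le (b := b) hα hTe ξ1 (hUp p hp)).2.2.1⟩
  have hcgp : ∀ p ∈ U, Continuous (gp p) := by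
    intro p hp
    have hc : Continuous (fun x : UnitAddCircle => (AddCircle.toCircle x : ℂ)) :=
      continuous_subtype_val.comp AddCircle.continuous_toCircle
    rw [hgp]
    refine Continuous.mul ?_ ?_
    · refine Complex.continuous_ofReal.comp (Continuous.pow (Continuous.norm ?_) 2)
      refine Continuous.inv₀ (continuous_const.sub (continuous_const.mul hc)) fun x h => ?_
      have h2 : (yv α S.T p : ℂ) * (AddCircle.toCircle x : ℂ) = 1 := by linear_combination -h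
      have h3 := congrArg (fun z : ℂ => ‖z‖) h2
      simp only [norm_mul, Complex.norm_real, norm_one] at h3
      rw [Circle.norm_coe, mul_one, Real.norm_of_nonneg (hyv p hp).1] at h3
      exact absurd h3 (hyv p hp).2.ne
    · refine Continuous.mul ?_ (Complex.continuous_conj.comp ?_)
      · exact continuous_const.sub (continuous_const.mul hc)
      · exact continuous_const.sub (continuous_const.mul hc)
  have hcf1 : Continuous f1 := by
    rw [hf1]
    exact continuous_finsetProd _ fun p hp => (hcgp p hp).comp (continuous_apply p)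
  -- independence
  have hI := indep_blocks (𝕜 := ℂ) (range 2) (fun i => if i = 0 then S.P else U)
    (by
      intro i hi j hj hij
      have hi2 := Finset.mem_range.1 hi
      have hj2 := Finset.mem_range.1 hj
      have hd : Disjoint S.P U := by
        rw [hU]
        exact Finset.disjoint_sdiff
      show Disjoint (if i = 0 then S.P else U) (if j = 0 then S.P else U)
      by_cases h0 : i = 0
      · rw [if_pos h0, if_neg (by omega)]
        exact hd
      · have hj0 : j = 0 := by omega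
        rw [if_neg h0, if_pos hj0]
        exact hd.symm)
    (fun i => if i = 0 then f0 else f1)
    (by
      intro i _
      show Measurable (if i = 0 then f0 else f1)
      split_ifs
      · exact hcf0.measurable
      · exact hcf1.measurable)
    (by
      intro i _ w w' hww
      by_cases h0 : i = 0
      · have hww2 : ∀ p ∈ S.P, w p = w' p := by
          intro p hp
          refine hww p ?_
          show p ∈ (if i = 0 then S.P else U)
          rw [if_pos h0]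
          exact hp
        have hX : ∀ p ∈ S.P, X p w = X p w' := by
          intro p hp
          unfold X
          rw [hww2 p hp]
        show (if i = 0 then f0 else f1) w = (if i = 0 then f0 else f1) w'
        rw [if_pos h0, hf0]
        show (((‖Zt S.P (1 / 2 + α / Real.log S.T) w‖ ^ 2 *
            ‖RT S lam (nX ((sgn b * α / Real.log S.T : ℝ) : ℂ) w)‖ ^ 2 : ℝ)) : ℂ) *
          ((∏ p ∈ S.P, (1 - bb b α S.T ξ1 p * X p w)) *
            conj (∏ p ∈ S.P, (1 - bb b α S.T ξ2 p * X p w))) =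
          (((‖Zt S.P (1 / 2 + α / Real.log S.T) w'‖ ^ 2 *
            ‖RT S lam (nX ((sgn b * α / Real.log S.T : ℝ) : ℂ) w')‖ ^ 2 : ℝ)) : ℂ) *
          ((∏ p ∈ S.P, (1 - bb b α S.T ξ1 p * X p w')) *
            conj (∏ p ∈ S.P, (1 - bb b α S.T ξ2 p * X p w')))
        have e1 : Zt S.P (1 / 2 + α / Real.log S.T) w = Zt S.P (1 / 2 + α / Real.log S.T) w' := by
          unfold Zt
          exact Finset.prod_congr rfl fun p hp => by rw [hX p hp]
        have e2 : RT S lam (nX ((sgn b * α / Real.log S.T : ℝ) : ℂ) w) =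
            RT S lam (nX ((sgn b * α / Real.log S.T : ℝ) : ℂ) w') := by
          rw [RT_nX hS, RT_nX hS]
          refine Finset.prod_congr rfl fun j hj => ?_
          congr 1
          refine Finset.sum_congr rfl fun p hp => ?_
          rw [hX p (Finset.mem_biUnion.2 ⟨j, hj, hp⟩)]
        have e3 : ∀ ξ : ℝ, (∏ p ∈ S.P, (1 - bb b α S.T ξ p * X p w)) =
            ∏ p ∈ S.P, (1 - bb b α S.T ξ p * X p w') := fun ξ =>
          Finset.prod_congr rfl fun p hp => by rw [hX p hp]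
        rw [e1, e2, e3, e3]
      · show (if i = 0 then f0 else f1) w = (if i = 0 then f0 else f1) w'
        rw [if_neg h0, hf1]
        show ∏ p ∈ U, gp p (w p) = ∏ p ∈ U, gp p (w' p)
        refine Finset.prod_congr rfl fun p hp => ?_
        have h2 : w p = w' p := by
          refine hww p ?_
          show p ∈ (if i = 0 then S.P else U)
          rw [if_neg h0]
          exact hp
        rw [h2])
  have hI2 : ∫ v, f0 v * f1 v ∂mu = (∫ v, f0 v ∂mu) * ∫ v, f1 v ∂mu := by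
    have h1 : ∀ v : Om, ∏ i ∈ range 2, (fun i => if i = 0 then f0 else f1) i v = f0 v * f1 v := by
      intro v
      rw [Finset.prod_range_succ, Finset.prod_range_one]
      rfl
    have h2 : ∏ i ∈ range 2, ∫ v, (fun i => if i = 0 then f0 else f1) i v ∂mu =
        (∫ v, f0 v ∂mu) * ∫ v, f1 v ∂mu := by
      rw [Finset.prod_range_succ, Finset.prod_range_one]
      rfl
    rw [← h2, ← hI]
    exact integral_congr_ae (Filter.Eventually.of_forall fun v => (h1 v).symm)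
  have h3 : ∫ v, f1 v ∂mu = ∏ p ∈ U, Gp b α S.T ξ1 ξ2 p := by
    rw [hf1]
    rw [indep_primes U gp (fun p hp => (hcgp p hp).measurable)]
    refine Finset.prod_congr rfl fun p hp => ?_
    rw [hgp]
    have h4 := one_prime_G (hyv p hp).1 (hyv p hp).2 (bb b α S.T ξ1 p) (bb b α S.T ξ2 p)
    show ∫ x : UnitAddCircle, ((‖(1 - (yv α S.T p : ℂ) * (AddCircle.toCircle x : ℂ))⁻¹‖ ^ 2 : ℝ) : ℂ) *
      ((1 - bb b α S.T ξ1 p * (AddCircle.toCircle x : ℂ)) *
        conj (1 - bb b α S.T ξ2 p * (AddCircle.toCircle x : ℂ)))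
      ∂(AddCircle.haarAddCircle : Measure UnitAddCircle) = _
    rw [h4]
    unfold Gp
    rfl
  have h5 : ∫ v, f0 v ∂mu = PhP S lam b α ξ1 ξ2 := by
    rw [hf0]
    rfl
  calc _ = ∫ v, f0 v * f1 v ∂mu :=
        integral_congr_ae (Filter.Eventually.of_forall fun v => hprod v)
    _ = _ := by rw [hI2, h3, h5, ← hU, mul_comm]

theorem BB_double {S : BS} {Ct θ D1 lam : ℝ} {N0 : ℕ} (hS : TG S Ct θ D1 N0) {r : ℕ → ℝ}
    (hr : Rp S lam θ r) (b : Bool) {α : ℝ} (hα : 0 < α) (c d : ℝ) {φ : ℝ → ℂ} (hφ : Continuous φ)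
    (hφi : ∀ m : ℕ, Integrable (fun ξ : ℝ => (1 + |ξ|) ^ m * ‖φ ξ‖))
    (hF : ∀ u : ℝ, 0 ≤ u → ((pf c d u : ℝ) : ℂ) =
      (Real.exp (-((α + 1) * u)) : ℂ) * ∫ ξ : ℝ, φ ξ * cexp (2 * π * u * ξ * I))
    {M : ℕ} (hM : S.T ^ (9 / 20 : ℝ) ≤ M) :
    ((BB M (Fb b S.T) (wb (be S.T r c d)) (-(2 * α / Real.log S.T)) : ℝ) : ℂ) =
    ∫ ξ1 : ℝ, ∫ ξ2 : ℝ, φ ξ1 * conj (φ ξ2) *
      ((∏ p ∈ Nat.primesBelow M \ S.P, Gp b α S.T ξ1 ξ2 p) * PhP S lam b α ξ1 ξ2) := by
  classical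
  have hT1 : 1 < S.T := lt_of_lt_of_le (by
    have := Real.add_one_lt_exp (show (1000 : ℝ) ≠ 0 by norm_num)
    linarith) hS.T_ge
  have hTe : Real.exp 1 ≤ S.T := le_trans (Real.exp_le_exp.2 (by norm_num)) hS.T_ge
  have hT3 : Real.exp 3 ≤ S.T := le_trans (Real.exp_le_exp.2 (by norm_num)) hS.T_ge
  have hL : 0 < Real.log S.T := Real.log_pos hT1
  have hσ : 0 < 1 / 2 + α / Real.log S.T := by positivity
  have hφi0 : Integrable φ := by
    have h1 := hφi 0
    simp only [pow_zero, one_mul] at h1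
    exact (integrable_norm_iff hφ.aestronglyMeasurable).1 h1
  -- the Euler products
  obtain ⟨Pr, hPr⟩ : ∃ Pr : Om × ℝ → ℂ, Pr = fun x =>
      ∏ p ∈ Nat.primesBelow M, (1 - bb b α S.T x.2 p * X p x.1) := ⟨_, rfl⟩
  have hPrc : Continuous Pr := by
    rw [hPr]
    refine continuous_finsetProd _ fun p _ => ?_
    exact continuous_const.sub (((bb_continuous b α S.T p).comp continuous_snd).mul
      ((continuous_X p).comp continuous_fst))
  obtain ⟨C, hC⟩ : ∃ C : ℝ, ∀ x, ‖Pr x‖ ≤ C := by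
    refine ⟨∏ p ∈ Nat.primesBelow M, (1 + (p : ℝ) ^ (-(1 / 2) : ℝ)), fun x => ?_⟩
    rw [hPr]
    show ‖∏ p ∈ Nat.primesBelow M, (1 - bb b α S.T x.2 p * X p x.1)‖ ≤ _
    rw [norm_prod]
    refine Finset.prod_le_prod (fun p _ => norm_nonneg _) fun p hp => ?_
    have hpp := Nat.prime_of_mem_primesBelow hp
    calc ‖1 - bb b α S.T x.2 p * X p x.1‖ ≤ ‖(1 : ℂ)‖ + ‖bb b α S.T x.2 p * X p x.1‖ :=
          norm_sub_le _ _
      _ = 1 + ‖bb b α S.T x.2 p‖ := by rw [norm_one, norm_mul, norm_X, mul_one]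
      _ ≤ _ := by
          have := (bb_le (b := b) hα hTe x.2 hpp).1
          linarith
  have hC0 : 0 ≤ C := (norm_nonneg _).trans (hC (fun _ => 0, 0))
  -- the mollifier
  obtain ⟨A, hA⟩ : ∃ A : Om → ℂ, A = fun v =>
      ∑ n ∈ Finset.Icc 1 ⌊S.T ^ (9 / 20 : ℝ)⌋₊, ((((ArithmeticFunction.moebius n : ℤ) : ℝ) *
      pf c d (Real.log n / Real.log S.T) : ℝ) : ℂ) * nX ((sgn b * α / Real.log S.T : ℝ) : ℂ) v n :=
    ⟨_, rfl⟩
  have hAc : Continuous A := by
    rw [hA]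
    exact continuous_finsetSum _ fun n _ => continuous_const.mul (continuous_nX _ n)
  have hAe : ∀ v, A v = ∫ ξ : ℝ, φ ξ * Pr (v, ξ) := by
    intro v
    rw [hA, hPr]
    exact MO_eq (pf c d) (fun u hu => by unfold pf; rw [Pf_zero hu]; ring) (α + 1) φ hφ hφi hF hT3 hM
      ((sgn b * α / Real.log S.T : ℝ) : ℂ) v
  have hAD : ∀ v, DPo S.T (be S.T r c d) (nX ((sgn b * α / Real.log S.T : ℝ) : ℂ) v) =
      A v * RT S lam (nX ((sgn b * α / Real.log S.T : ℝ) : ℂ) v) := by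
    intro v
    rw [L3_DPo hS hr, MO_pf, hA]
  -- the weight
  obtain ⟨H, hH⟩ : ∃ H : Om → ℂ, H = fun v =>
      (((‖Zt (Nat.primesBelow M) (1 / 2 + α / Real.log S.T) v‖ ^ 2 *
      ‖RT S lam (nX ((sgn b * α / Real.log S.T : ℝ) : ℂ) v)‖ ^ 2 : ℝ)) : ℂ) := ⟨_, rfl⟩
  have hHc : Continuous H := by
    rw [hH]
    refine Complex.continuous_ofReal.comp ?_
    refine Continuous.mul ?_ ?_
    · exact ((continuous_Zt _ (fun p hp => Nat.prime_of_mem_primesBelow hp) hσ).norm).pow 2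
    · refine Continuous.pow (Continuous.norm ?_) 2
      unfold RT
      refine continuous_finsetProd _ fun j _ => ?_
      exact (continuous_Ex _).comp (continuous_const.mul (continuous_PX _ _))
  have hcjc : ∀ {f : Om → ℂ}, Continuous f → Continuous fun v => conj (f v) := fun hf =>
    Complex.continuous_conj.comp hf
  rw [L3_BB b (be S.T r c d) M, ← integral_complex_ofReal]
  calc ∫ v, ((‖Zt (Nat.primesBelow M) (1 / 2 + α / Real.log S.T) v‖ ^ 2 *
      ‖DPo S.T (be S.T r c d) (nX ((sgn b * α / Real.log S.T : ℝ) : ℂ) v)‖ ^ 2 : ℝ) : ℂ) ∂mu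
      = ∫ v, ((H v * conj (A v)) * ∫ ξ : ℝ, φ ξ * Pr (v, ξ)) ∂mu := by
        refine integral_congr_ae (Filter.Eventually.of_forall fun v => ?_)
        show ((‖Zt (Nat.primesBelow M) (1 / 2 + α / Real.log S.T) v‖ ^ 2 *
          ‖DPo S.T (be S.T r c d) (nX ((sgn b * α / Real.log S.T : ℝ) : ℂ) v)‖ ^ 2 : ℝ) : ℂ) =
          (H v * conj (A v)) * ∫ ξ : ℝ, φ ξ * Pr (v, ξ)
        rw [← hAe v, hAD v, norm_mul, mul_pow, hH]
        show _ = ((((‖Zt (Nat.primesBelow M) (1 / 2 + α / Real.log S.T) v‖ ^ 2 *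
          ‖RT S lam (nX ((sgn b * α / Real.log S.T : ℝ) : ℂ) v)‖ ^ 2 : ℝ)) : ℂ) * conj (A v)) * A v
        have h1 : conj (A v) * A v = ((‖A v‖ ^ 2 : ℝ) : ℂ) := by
          rw [mul_comm, Complex.mul_conj']
          push_cast
          rfl
        rw [mul_assoc _ (conj (A v)), h1]
        push_cast
        ring
    _ = ∫ ξ1 : ℝ, φ ξ1 * ∫ v, (H v * conj (A v)) * Pr (v, ξ1) ∂mu :=
        L3_fub (hHc.mul (hcjc hAc)) hφ hφi0 hPrc hC
    _ = ∫ ξ1 : ℝ, ∫ ξ2 : ℝ, φ ξ1 * conj (φ ξ2) *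
      ((∏ p ∈ Nat.primesBelow M \ S.P, Gp b α S.T ξ1 ξ2 p) * PhP S lam b α ξ1 ξ2) := by
        refine integral_congr_ae (Filter.Eventually.of_forall fun ξ1 => ?_)
        show φ ξ1 * ∫ v, (H v * conj (A v)) * Pr (v, ξ1) ∂mu = ∫ ξ2 : ℝ, φ ξ1 * conj (φ ξ2) *
          ((∏ p ∈ Nat.primesBelow M \ S.P, Gp b α S.T ξ1 ξ2 p) * PhP S lam b α ξ1 ξ2)
        have hPc1 : Continuous fun v : Om => Pr (v, ξ1) :=
          hPrc.comp (continuous_id.prodMk continuous_const)
        have h1 : ∫ v, (H v * conj (A v)) * Pr (v, ξ1) ∂mu =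
            ∫ v, ((H v * Pr (v, ξ1)) * ∫ ξ : ℝ, conj (φ ξ) * conj (Pr (v, ξ))) ∂mu := by
          refine integral_congr_ae (Filter.Eventually.of_forall fun v => ?_)
          show (H v * conj (A v)) * Pr (v, ξ1) =
            (H v * Pr (v, ξ1)) * ∫ ξ : ℝ, conj (φ ξ) * conj (Pr (v, ξ))
          have h2 : conj (A v) = ∫ ξ : ℝ, conj (φ ξ) * conj (Pr (v, ξ)) := by
            rw [hAe v, ← integral_conj]
            refine integral_congr_ae (Filter.Eventually.of_forall fun ξ => ?_)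
            show conj (φ ξ * Pr (v, ξ)) = _
            rw [map_mul]
          rw [← h2]
          ring
        have h3 : Integrable fun ξ => conj (φ ξ) := by
          refine (integrable_norm_iff (Complex.continuous_conj.comp hφ).aestronglyMeasurable).1 ?_
          refine hφi0.norm.congr (Filter.Eventually.of_forall fun ξ => ?_)
          show ‖φ ξ‖ = ‖conj (φ ξ)‖
          rw [RCLike.norm_conj]
        have h4 := L3_fub (g := fun v => H v * Pr (v, ξ1)) (hHc.mul hPc1)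
          (ψ := fun ξ => conj (φ ξ)) (Complex.continuous_conj.comp hφ) h3
          (Q := fun x => conj (Pr x)) (Complex.continuous_conj.comp hPrc) (C := C)
          (fun x => by rw [RCLike.norm_conj]; exact hC x)
        rw [h1, h4, ← integral_const_mul]
        refine integral_congr_ae (Filter.Eventually.of_forall fun ξ2 => ?_)
        show φ ξ1 * (conj (φ ξ2) * ∫ v, (H v * Pr (v, ξ1)) * conj (Pr (v, ξ2)) ∂mu) =
          φ ξ1 * conj (φ ξ2) *
          ((∏ p ∈ Nat.primesBelow M \ S.P, Gp b α S.T ξ1 ξ2 p) * PhP S lam b α ξ1 ξ2)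
        rw [← L3_exp hS b hα hM ξ1 ξ2, ← mul_assoc, hH, hPr]

end Pool.Agent.LB
end

section

/-! TASK P1. The polynomials. `RT_dp`: UV/P1b.lean and UV/P2.lean: for one block, `PS R χ` is a polynomial in one character (`isP2_left`: `IsP2 N 1 N`, as `∑_{p ∈ R} 1/p ≤ N`), powers and truncated exponential: `IsP2 (N^l) 1 (∑_{i≤l} (|κ| N)^i/i! ) ≤ e^{|κ|} N^l` (copy `P1b_Ex`, which needs `|al| ≤ 1`; for general `κ` the constant is `∑ |κ|^i N^i/i! ≤ N^l e^{|κ|}` since `N ≥ 1`);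
 product over the blocks (`isP2_prod`): `exp ∑ (l_j log N_j + |κ|) ≤ T^{7θ³}` if `|κ| ≤ Ct` (`TG.len`).
`MO_dp`: `isP2_left`, `am_le`, harmonic sum `≤ 1 + log T`. `DP_dp`: the `k`-th power; `log p/p ≤ 1`, at most `L` ... crude: `∑_{p ≤ y} log p/p ≤ ∑_{n ≤ y} 1/n · log y ≤ (1+log T)²`. -/

set_option autoImplicit false

namespace Pool.Agent.LB

open Complex MeasureTheory Finset Pool.Agent.GH Pool.Agent.UH Pool.Agent.UV
open scoped Real ComplexConjugate

private theorem P1_pow {Q1 Q2 B : ℝ} {g : (ℕ →*₀ ℂ) → (ℕ →*₀ ℂ) → ℂ} (hg : IsP2 Q1 Q2 B g)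
    (i : ℕ) : IsP2 (Q1 ^ i) (Q2 ^ i) (B ^ i) (fun χ χ' => g χ χ' ^ i) := by
  induction i with
  | zero =>
    have h := isP2_const 1
    simpa using h
  | succ i ih =>
    have h := IsP2.mul ih hg
    simpa only [pow_succ] using h

private theorem P1_smul {Q1 Q2 B : ℝ} {g : (ℕ →*₀ ℂ) → (ℕ →*₀ ℂ) → ℂ} (hg : IsP2 Q1 Q2 B g)
    (c : ℂ) : IsP2 Q1 Q2 (‖c‖ * B) (fun χ χ' => c * g χ χ') := by
  have h := IsP2.mul (isP2_const c) hg
  rw [one_mul, one_mul] at h
  exact h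

private theorem P1_Ex {Q1 Q2 B : ℝ} (h1 : 1 ≤ Q1) (h2 : 1 ≤ Q2)
    {x : (ℕ →*₀ ℂ) → (ℕ →*₀ ℂ) → ℂ} (hx : IsP2 Q1 Q2 B x) (l : ℕ) (al : ℝ) :
    IsP2 (Q1 ^ l) (Q2 ^ l) (∑ i ∈ range (l + 1), |al| ^ i * B ^ i / (i.factorial : ℝ))
      (fun χ χ' => Ex l (al * x χ χ')) := by
  have hterm : ∀ i : ℕ, IsP2 (Q1 ^ i) (Q2 ^ i) (|al| ^ i * B ^ i / (i.factorial : ℝ))
      (fun χ χ' => (al * x χ χ') ^ i / (i.factorial : ℂ)) := by
    intro i
    have h := P1_smul (P1_pow hx i) ((al : ℂ) ^ i / (i.factorial : ℂ))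
    have h1 : ‖(al : ℂ) ^ i / (i.factorial : ℂ)‖ * B ^ i ≤ |al| ^ i * B ^ i / (i.factorial : ℝ) := by
      rw [norm_div, norm_pow, Complex.norm_real, Real.norm_eq_abs, Complex.norm_natCast,
        div_mul_eq_mul_div]
    have h2 := h.mono (le_refl _) (le_refl _) h1
    have h3 : (fun χ χ' : ℕ →*₀ ℂ => (al : ℂ) ^ i / (i.factorial : ℂ) * x χ χ' ^ i) =
        fun χ χ' => (al * x χ χ') ^ i / (i.factorial : ℂ) := by
      funext χ χ'
      ring
    rw [h3] at h2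
    exact h2
  induction l with
  | zero =>
    have h := hterm 0
    have h3 : (fun χ χ' : ℕ →*₀ ℂ => Ex 0 (al * x χ χ')) =
        fun χ χ' => (al * x χ χ') ^ 0 / ((0 : ℕ).factorial : ℂ) := by
      funext χ χ'
      unfold Ex
      rw [Finset.sum_range_one]
    rw [h3, Finset.sum_range_one]
    exact h
  | succ l ih =>
    have h := IsP2.add (ih.mono (pow_le_pow_right₀ h1 (Nat.le_succ l))
      (pow_le_pow_right₀ h2 (Nat.le_succ l)) (le_refl _)) (hterm (l + 1))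
    have h3 : (fun χ χ' : ℕ →*₀ ℂ => Ex (l + 1) (al * x χ χ')) =
        fun χ χ' => Ex l (al * x χ χ') + (al * x χ χ') ^ (l + 1) / ((l + 1).factorial : ℂ) := by
      funext χ χ'
      unfold Ex
      rw [Finset.sum_range_succ (n := l + 1)]
    rw [h3, Finset.sum_range_succ (n := l + 1)]
    exact h

/-- The truncated exponential of `κ x`, for any `κ`. -/
private theorem P1_Ex' {Q1 B : ℝ} (h1 : 1 ≤ Q1) (hB : 1 ≤ B)
    {x : (ℕ →*₀ ℂ) → (ℕ →*₀ ℂ) → ℂ} (hx : IsP2 Q1 1 B x) (l : ℕ) (al : ℝ) :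
    IsP2 (Q1 ^ l) 1 (B ^ l * Real.exp |al|) (fun χ χ' => Ex l (al * x χ χ')) := by
  have h := P1_Ex h1 le_rfl hx l al
  rw [one_pow] at h
  refine h.mono (le_refl _) (le_refl _) ?_
  have k1 : ∑ i ∈ range (l + 1), |al| ^ i * B ^ i / (i.factorial : ℝ) ≤
      ∑ i ∈ range (l + 1), B ^ l * (|al| ^ i / (i.factorial : ℝ)) := by
    refine Finset.sum_le_sum fun i hi => ?_
    rw [← mul_div_assoc, mul_comm (|al| ^ i)]
    refine div_le_div_of_nonneg_right ?_ (Nat.cast_nonneg _)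
    refine mul_le_mul_of_nonneg_right ?_ (by positivity)
    exact pow_le_pow_right₀ hB (Nat.lt_succ_iff.mp (Finset.mem_range.mp hi))
  rw [← Finset.mul_sum] at k1
  have k2 := Real.sum_le_exp_of_nonneg (abs_nonneg al) (l + 1)
  have k4 : (0 : ℝ) ≤ B ^ l := by positivity
  exact k1.trans (mul_le_mul_of_nonneg_left k2 k4)

/-- One block. -/
private theorem P1_PS (R : Finset ℕ) {N : ℝ} (hN : 1 ≤ N) (hR : ∀ p ∈ R, p ≠ 0 ∧ (p : ℝ) ≤ N) :
    IsP2 N 1 N (fun χ _ => PS R χ) := by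
  have h := isP2_left R (fun _ => (1 : ℂ)) hR
  have hcard : (R.card : ℝ) ≤ N := by
    have k1 : R ⊆ Finset.Icc 1 ⌊N⌋₊ := by
      intro p hp
      rw [Finset.mem_Icc]
      exact ⟨Nat.one_le_iff_ne_zero.mpr (hR p hp).1,
        (Nat.le_floor_iff (by linarith)).mpr (hR p hp).2⟩
    have k2 := Finset.card_le_card k1
    rw [Nat.card_Icc, Nat.add_sub_cancel] at k2
    exact (Nat.cast_le.mpr k2).trans (Nat.floor_le (by linarith))
  have k3 : ∑ p ∈ R, ‖(1 : ℂ)‖ / (p : ℝ) ≤ N := by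
    refine le_trans ?_ hcard
    have k4 : ∑ p ∈ R, ‖(1 : ℂ)‖ / (p : ℝ) ≤ ∑ _p ∈ R, (1 : ℝ) := by
      refine Finset.sum_le_sum fun p hp => ?_
      rw [norm_one]
      have hp1 : (1 : ℝ) ≤ p := by exact_mod_cast Nat.one_le_iff_ne_zero.mpr (hR p hp).1
      exact div_le_self zero_le_one hp1
    rw [Finset.sum_const, nsmul_eq_mul, mul_one] at k4
    exact k4
  have e : (fun (χ : ℕ →*₀ ℂ) (_ : ℕ →*₀ ℂ) => ∑ n ∈ R, (1 : ℂ) * χ n) = fun χ _ => PS R χ := by
    funext χ _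
    unfold PS
    exact Finset.sum_congr rfl fun p _ => one_mul _
  rw [e] at h
  exact h.mono le_rfl le_rfl k3

private theorem P1_block {S : BS} {Ct θ D1 : ℝ} {N0 : ℕ} (hS : TG S Ct θ D1 N0) {j : ℕ}
    (hj : j ≤ S.J) : IsP2 (S.N j) 1 (S.N j) (fun χ _ => PS (S.R j) χ) :=
  P1_PS (S.R j) (hS.N_ge j hj) fun p hp =>
    ⟨(hS.prime j hj p hp).1.ne_zero, (hS.prime j hj p hp).2⟩

private theorem P1_pow_le {S : BS} {Ct θ D1 : ℝ} {N0 : ℕ} (hS : TG S Ct θ D1 N0) {j : ℕ}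
    (hj : j ≤ S.J) : S.N j ^ S.l j = Real.exp ((S.l j : ℝ) * Real.log (S.N j)) := by
  have := hS.N_ge j hj
  rw [← Real.log_pow, Real.exp_log (pow_pos (by linarith) _)]

private theorem P1_prod {S : BS} {Ct θ D1 : ℝ} {N0 : ℕ} (hS : TG S Ct θ D1 N0) {g : ℕ → ℝ}
    (h0 : ∀ j ≤ S.J, 0 ≤ g j) (h1 : ∀ j ≤ S.J, g j ≤ Real.exp ((S.l j : ℝ) * Real.log (S.N j) + Ct)) :
    ∏ j ∈ range (S.J + 1), g j ≤ S.T ^ (7 * θ ^ 3) := by
  have hT : 0 < S.T := (Real.exp_pos 1000).trans_le hS.T_ge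
  calc ∏ j ∈ range (S.J + 1), g j
      ≤ ∏ j ∈ range (S.J + 1), Real.exp ((S.l j : ℝ) * Real.log (S.N j) + Ct) := by
        refine Finset.prod_le_prod (fun j hj => h0 j ?_) fun j hj => h1 j ?_
        · exact Nat.lt_succ_iff.1 (Finset.mem_range.1 hj)
        · exact Nat.lt_succ_iff.1 (Finset.mem_range.1 hj)
    _ = Real.exp (∑ j ∈ range (S.J + 1), ((S.l j : ℝ) * Real.log (S.N j) + Ct)) := (Real.exp_sum _ _).symm
    _ ≤ Real.exp (7 * θ ^ 3 * Real.log S.T) := Real.exp_le_exp.2 hS.len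
    _ = S.T ^ (7 * θ ^ 3) := by rw [Real.rpow_def_of_pos hT, mul_comm]

theorem RT_dp {S : BS} {Ct θ D1 : ℝ} {N0 : ℕ} (hS : TG S Ct θ D1 N0) {κ : ℝ} (hκ : |κ| ≤ Ct) :
    IsP2 (S.T ^ (7 * θ ^ 3)) 1 (S.T ^ (7 * θ ^ 3)) (fun χ _ => RT S κ χ) := by
  have hCt := hS.Ct_ge
  have h1 := isP2_prod (S.J + 1) (fun j => S.N j ^ S.l j) (fun _ => 1)
    (fun j => S.N j ^ S.l j * Real.exp |κ|)
    (fun j χ _ => Ex (S.l j) ((κ : ℂ) * PS (S.R j) χ)) (by
      intro j hj
      have hj' : j ≤ S.J := Nat.lt_succ_iff.1 hj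
      have hN := hS.N_ge j hj'
      exact P1_Ex' hN hN (P1_block hS hj') (S.l j) κ)
  rw [Finset.prod_const_one] at h1
  refine h1.mono ?_ le_rfl ?_
  · refine P1_prod hS (fun j hj => ?_) fun j hj => ?_
    · have := hS.N_ge j hj
      positivity
    · rw [P1_pow_le hS hj]
      exact Real.exp_le_exp.2 (by linarith)
  · refine P1_prod hS (fun j hj => ?_) fun j hj => ?_
    · have := hS.N_ge j hj
      positivity
    · rw [P1_pow_le hS hj, ← Real.exp_add]
      exact Real.exp_le_exp.2 (by linarith)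

/-- The harmonic sum. -/
private theorem P1_harm {y : ℝ} (hy : 1 ≤ y) : ∑ n ∈ Finset.Icc 1 ⌊y⌋₊, 1 / (n : ℝ) ≤ 1 + Real.log y := by
  have h1 := harmonic_floor_le_one_add_log y hy
  rw [harmonic_eq_sum_Icc] at h1
  push_cast at h1
  refine le_trans (le_of_eq ?_) h1
  exact Finset.sum_congr rfl fun n _ => one_div _

private theorem P1_bound {y A : ℝ} (hy : 1 ≤ y) (hA : 0 ≤ A) (a : ℕ → ℂ)
    (ha : ∀ n ∈ Finset.Icc 1 ⌊y⌋₊, ‖a n‖ ≤ A) :
    ∑ n ∈ Finset.Icc 1 ⌊y⌋₊, ‖a n‖ / (n : ℝ) ≤ A * (1 + Real.log y) := by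
  refine le_trans ?_ (mul_le_mul_of_nonneg_left (P1_harm hy) hA)
  rw [Finset.mul_sum]
  refine Finset.sum_le_sum fun n hn => ?_
  rw [div_eq_mul_one_div]
  exact mul_le_mul_of_nonneg_right (ha n hn) (by positivity)

private theorem P1_mem {y : ℝ} (hy : 1 ≤ y) : ∀ n ∈ Finset.Icc 1 ⌊y⌋₊, n ≠ 0 ∧ (n : ℝ) ≤ y := by
  intro n hn
  rw [Finset.mem_Icc] at hn
  exact ⟨by omega, (Nat.le_floor_iff (by linarith)).1 hn.2⟩

theorem MO_dp {T : ℝ} (hT : Real.exp 1 ≤ T) (i : ℕ) :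
    IsP2 (T ^ (9 / 20 : ℝ)) 1 (1 + Real.log T) (fun χ _ => MO i T χ) := by
  have hT1 : 1 < T := (Real.one_lt_exp_iff.2 one_pos).trans_le hT
  have hy : 1 ≤ T ^ (9 / 20 : ℝ) := Real.one_le_rpow hT1.le (by norm_num)
  have hyT : T ^ (9 / 20 : ℝ) ≤ T := by
    calc T ^ (9 / 20 : ℝ) ≤ T ^ (1 : ℝ) := Real.rpow_le_rpow_of_exponent_le hT1.le (by norm_num)
      _ = T := Real.rpow_one T
  have h0 := isP2_left (Finset.Icc 1 ⌊T ^ (9 / 20 : ℝ)⌋₊) (fun n => ((am i T n : ℝ) : ℂ)) (P1_mem hy)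
  refine h0.mono le_rfl le_rfl ?_
  have h1 := P1_bound hy zero_le_one (fun n => ((am i T n : ℝ) : ℂ)) (by
      intro n hn
      rw [Complex.norm_real, Real.norm_eq_abs]
      exact am_le hT1 (((P1_mem hy n hn).2).trans hyT))
  have hlog : Real.log (T ^ (9 / 20 : ℝ)) ≤ Real.log T := Real.log_le_log (by linarith) hyT
  linarith

theorem DP_dp {T : ℝ} (hT : Real.exp 1 ≤ T) (k : ℕ) :
    IsP2 (T ^ ((k : ℝ) / 500)) 1 ((1 + Real.log T) ^ (2 * k)) (fun χ _ => DP T χ ^ k) := by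
  have hT1 : 1 < T := (Real.one_lt_exp_iff.2 one_pos).trans_le hT
  have hy : 1 ≤ T ^ (1 / 500 : ℝ) := Real.one_le_rpow hT1.le (by norm_num)
  have hyT : T ^ (1 / 500 : ℝ) ≤ T := by
    calc T ^ (1 / 500 : ℝ) ≤ T ^ (1 : ℝ) := Real.rpow_le_rpow_of_exponent_le hT1.le (by norm_num)
      _ = T := Real.rpow_one T
  have hlog : Real.log (T ^ (1 / 500 : ℝ)) ≤ Real.log T := Real.log_le_log (by linarith) hyT
  have hlog0 : 0 ≤ Real.log (T ^ (1 / 500 : ℝ)) := Real.log_nonneg hy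
  have hsub : (Finset.Icc 1 ⌊T ^ (1 / 500 : ℝ)⌋₊).filter Nat.Prime ⊆ Finset.Icc 1 ⌊T ^ (1 / 500 : ℝ)⌋₊ :=
    Finset.filter_subset _ _
  have h0 := isP2_left ((Finset.Icc 1 ⌊T ^ (1 / 500 : ℝ)⌋₊).filter Nat.Prime)
    (fun p => (Real.log p : ℂ)) fun n hn => P1_mem hy n (hsub hn)
  have h1 := P1_bound hy hlog0 (fun p => (Real.log p : ℂ)) (by
      intro n hn
      obtain ⟨hn0, hny⟩ := P1_mem hy n hn
      have hn1 : (1 : ℝ) ≤ n := by exact_mod_cast Nat.one_le_iff_ne_zero.2 hn0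
      rw [Complex.norm_real, Real.norm_of_nonneg (Real.log_nonneg hn1)]
      exact Real.log_le_log (by linarith) hny)
  have h2 : ∑ n ∈ (Finset.Icc 1 ⌊T ^ (1 / 500 : ℝ)⌋₊).filter Nat.Prime,
      ‖(Real.log n : ℂ)‖ / (n : ℝ) ≤ (1 + Real.log T) ^ 2 := by
    calc ∑ n ∈ (Finset.Icc 1 ⌊T ^ (1 / 500 : ℝ)⌋₊).filter Nat.Prime, ‖(Real.log n : ℂ)‖ / (n : ℝ)
        ≤ ∑ n ∈ Finset.Icc 1 ⌊T ^ (1 / 500 : ℝ)⌋₊, ‖(Real.log n : ℂ)‖ / (n : ℝ) :=
          Finset.sum_le_sum_of_subset_of_nonneg hsub fun n _ _ => by positivity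
      _ ≤ Real.log (T ^ (1 / 500 : ℝ)) * (1 + Real.log (T ^ (1 / 500 : ℝ))) := h1
      _ ≤ (1 + Real.log T) ^ 2 := by nlinarith
  have h3 := P1_pow (h0.mono le_rfl le_rfl h2) k
  rw [one_pow, ← pow_mul] at h3
  have e : (T ^ (1 / 500 : ℝ)) ^ k = T ^ ((k : ℝ) / 500) := by
    rw [← Real.rpow_natCast, ← Real.rpow_mul (by linarith)]
    congr 1
    ring
  rw [e] at h3
  exact h3

theorem PS_dp {S : BS} {Ct θ D1 : ℝ} {N0 : ℕ} (hS : TG S Ct θ D1 N0) {j : ℕ} (hj : j ≤ S.J) :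
    IsP2 (S.T ^ (7 * θ ^ 3)) 1 (S.T ^ (7 * θ ^ 3)) (fun χ _ => PS (S.R j) χ ^ S.l j) := by
  have h := P1_pow (P1_block hS hj) (S.l j)
  rw [one_pow] at h
  have hCt := hS.Ct_ge
  have hT : 0 < S.T := (Real.exp_pos 1000).trans_le hS.T_ge
  have hnn : ∀ i ∈ range (S.J + 1), 0 ≤ (S.l i : ℝ) * Real.log (S.N i) + Ct := by
    intro i hi
    have h1 := Real.log_nonneg (hS.N_ge i (Nat.lt_succ_iff.1 (Finset.mem_range.1 hi)))
    have h2 : (0 : ℝ) ≤ (S.l i : ℝ) * Real.log (S.N i) := mul_nonneg (Nat.cast_nonneg _) h1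
    linarith
  have hle : S.N j ^ S.l j ≤ S.T ^ (7 * θ ^ 3) := by
    rw [P1_pow_le hS hj, Real.rpow_def_of_pos hT]
    refine Real.exp_le_exp.2 ?_
    have h1 := Finset.single_le_sum hnn (Finset.mem_range.2 (Nat.lt_succ_iff.2 hj))
    have h2 := hS.len
    have h3 : Real.log S.T * (7 * θ ^ 3) = 7 * θ ^ 3 * Real.log S.T := mul_comm _ _
    linarith
  exact h.mono hle le_rfl hle

end Pool.Agent.LB
end

section

/-! TASK X4. Moments of the prime polynomial in the random model. `L = log T`, `x = L Re z`, `v = log p/L`. Let `ζ_ = (3+x) DP(nX z)/L = ∑_{p ≤ T^{1/500}} (3+x) v p^{-(1/2+z)} X_p`.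
`|ζ_|^{2k} ≤ (2k)! e^{|ζ_|}` and `e^{|ζ_|} ≤ ∑_{ω ∈ {1,-1,i,-i}} e^{2 Re(ω ζ_)}` (`|ζ_| ≤ 2 max(|Re|,|Im|)`). For each `ω`: `full5` with `A = 21 + lam`, `M = ⌈T^{1/10}⌉₊` (`P_lt`), `y = b = 0`, `s_p = ω (3+x) v p^{-(1/2+z)}` for `p ≤ T^{1/500}` (and `0` otherwise), `‖s_p‖ ≤ (3+x) v e^{-xv} u ≤ e³ u` (`0 ≤ v ≤ 1`, `t e^{-t} ≤ 1`),
`c_p = lam u`. Exponent: `‖s + c 1_P‖² ≤ lam²/p 1_P + 2 lam u‖s_p‖ + ‖s_p‖²`, sums of the last two `≤ C` (`ps_x1`, `ps_x2` for `M ≤ T`). So `E |ζ_|^{2k} ‖RT‖² ≤ K Lam`, divide by `(3+x)^{2k}`. -/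

set_option autoImplicit false

namespace Pool.Agent.LB

open Complex MeasureTheory Finset Pool.Agent.GH Pool.Agent.UH Pool.Agent.UV
open scoped Real ComplexConjugate

private theorem X4_exp (a : ℂ) (k : ℕ) : ‖a‖ ^ (2 * k) ≤ ((2 * k).factorial : ℝ) *
    (Real.exp (2 * (1 * a).re) + Real.exp (2 * (-1 * a).re) + Real.exp (2 * (I * a).re) +
      Real.exp (2 * (-I * a).re)) := by
  have h1 := Real.pow_div_factorial_le_exp ‖a‖ (norm_nonneg a) (2 * k)
  have hf : (0 : ℝ) < ((2 * k).factorial : ℝ) := by exact_mod_cast Nat.factorial_pos _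
  rw [div_le_iff₀ hf] at h1
  have h2 : Real.exp ‖a‖ ≤ Real.exp (2 * (1 * a).re) + Real.exp (2 * (-1 * a).re) +
      Real.exp (2 * (I * a).re) + Real.exp (2 * (-I * a).re) := by
    have e1 : (1 * a).re = a.re := by simp
    have e2 : (-1 * a).re = -a.re := by simp
    have e3 : (I * a).re = -a.im := by simp
    have e4 : (-I * a).re = a.im := by simp
    rw [e1, e2, e3, e4]
    have h3 := Complex.norm_le_abs_re_add_abs_im a
    have p1 := Real.exp_pos (2 * a.re)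
    have p2 := Real.exp_pos (2 * -a.re)
    have p3 := Real.exp_pos (2 * -a.im)
    have p4 := Real.exp_pos (2 * a.im)
    rcases le_total |a.im| |a.re| with h | h
    · rcases abs_cases a.re with ⟨h5, _⟩ | ⟨h5, _⟩
      · have := Real.exp_le_exp.2 (show ‖a‖ ≤ 2 * a.re by rw [h5] at h h3; linarith)
        linarith
      · have := Real.exp_le_exp.2 (show ‖a‖ ≤ 2 * -a.re by rw [h5] at h h3; linarith)
        linarith
    · rcases abs_cases a.im with ⟨h5, _⟩ | ⟨h5, _⟩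
      · have := Real.exp_le_exp.2 (show ‖a‖ ≤ 2 * a.im by rw [h5] at h h3; linarith)
        linarith
      · have := Real.exp_le_exp.2 (show ‖a‖ ≤ 2 * -a.im by rw [h5] at h h3; linarith)
        linarith
  calc ‖a‖ ^ (2 * k) ≤ Real.exp ‖a‖ * ((2 * k).factorial : ℝ) := h1
    _ = ((2 * k).factorial : ℝ) * Real.exp ‖a‖ := mul_comm _ _
    _ ≤ _ := mul_le_mul_of_nonneg_left h2 hf.le

private theorem X4_te {x v : ℝ} (_hx : -2 ≤ x) (_hv : 0 ≤ v) (hv1 : v ≤ 1) :
    (3 + x) * v * Real.exp (-(x * v)) ≤ 21 := by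
  have h1 : (3 + x) * v ≤ Real.exp ((3 + x) * v) := by
    have := Real.add_one_le_exp ((3 + x) * v)
    linarith
  have h2 : (3 + x) * v * Real.exp (-(x * v)) ≤ Real.exp ((3 + x) * v) * Real.exp (-(x * v)) :=
    mul_le_mul_of_nonneg_right h1 (Real.exp_pos _).le
  rw [← Real.exp_add] at h2
  have h3 : Real.exp ((3 + x) * v + -(x * v)) ≤ Real.exp 3 :=
    Real.exp_le_exp.2 (by nlinarith)
  have h4 : Real.exp 3 ≤ 21 := by
    have h5 : Real.exp 3 = Real.exp 1 ^ 3 := by rw [← Real.exp_nat_mul]; norm_num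
    have h6 := Real.exp_one_lt_d9
    have h7 := Real.exp_pos 1
    rw [h5]
    calc Real.exp 1 ^ 3 ≤ 2.7182818286 ^ 3 := pow_le_pow_left₀ h7.le h6.le 3
      _ ≤ 21 := by norm_num
  linarith

private theorem X4_norm (z : ℂ) {L : ℝ} (hL : 0 < L) {p : ℕ} (hp : p.Prime) :
    ‖(p : ℂ) ^ (-(1 / 2 + z))‖ = (p : ℝ) ^ (-(1 / 2) : ℝ) *
      Real.exp (-(L * z.re * (Real.log p / L))) := by
  rw [Complex.norm_natCast_cpow_of_pos hp.pos]
  have h1 : (-(1 / 2 + z)).re = -(1 / 2) + -z.re := by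
    simp only [neg_re, add_re, div_ofNat_re, one_re]
    ring
  have hp0 : (0 : ℝ) < p := by exact_mod_cast hp.pos
  rw [h1, Real.rpow_add hp0]
  congr 1
  rw [Real.rpow_def_of_pos hp0]
  congr 1
  field_simp

private theorem X4_om (lam : ℝ) (h0 : 0 < lam) : ∃ C0 K : ℝ, 1 ≤ K ∧
    ∀ {S : BS} {Ct θ D1 : ℝ} {N0 : ℕ}, TG S Ct θ D1 N0 → C0 ≤ Ct → ∀ z : ℂ,
    -2 ≤ Real.log S.T * z.re → z.re ≤ 20 → ∀ ω : ℂ, ‖ω‖ = 1 →
    ∫ w, Real.exp (2 * (ω * (((3 + Real.log S.T * z.re : ℝ) : ℂ) *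
      (DP S.T (nX z w) / (Real.log S.T : ℝ)))).re) * ‖RT S lam (nX 0 w)‖ ^ 2 ∂mu ≤
      K * Lam S lam := by
  classical
  obtain ⟨C0, K, hK, H⟩ := full5 (21 + lam) (by linarith)
  obtain ⟨c1, hc1, H1⟩ := ps_x1
  obtain ⟨c2, hc2, H2⟩ := ps_x2
  refine ⟨C0, K * Real.exp (c2 + 2 * lam * c1), ?_, ?_⟩
  · have : 1 ≤ Real.exp (c2 + 2 * lam * c1) := Real.one_le_exp (by positivity)
    nlinarith
  intro S Ct θ D1 N0 hS hCt z hz1 hz2 ω hω
  have hT := hS.T_ge
  set T : ℝ := S.T with hTdef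
  have hT0 : 0 < T := lt_of_lt_of_le (Real.exp_pos _) hT
  have hL : 1000 ≤ Real.log T := by rwa [Real.le_log_iff_exp_le hT0]
  set L : ℝ := Real.log T with hLdef
  have hL0 : 0 < L := by linarith
  set x : ℝ := L * z.re with hxdef
  have hx2 : x ≤ 20 * L := by rw [hxdef]; nlinarith
  have hx3 : 0 < 3 + x := by linarith
  set M : ℕ := ⌈T ^ (1 / 10 : ℝ)⌉₊ with hMdef
  have hM1 : T ^ (1 / 10 : ℝ) ≤ M := Nat.le_ceil _
  have hPM : S.P ⊆ Nat.primesBelow M := P_lt hS hM1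
  have hTe : T = Real.exp L := by rw [hLdef, Real.exp_log hT0]
  have hT10 : T ^ (1 / 10 : ℝ) = Real.exp (L / 10) := by
    rw [Real.rpow_def_of_pos hT0, ← hLdef]; congr 1; ring
  have hT500 : T ^ (1 / 500 : ℝ) = Real.exp (L / 500) := by
    rw [Real.rpow_def_of_pos hT0, ← hLdef]; congr 1; ring
  have hMT : (M : ℝ) ≤ T := by
    have h1 : (M : ℝ) < T ^ (1 / 10 : ℝ) + 1 := Nat.ceil_lt_add_one (by positivity)
    have h2 : 2 * Real.exp (L / 10) ≤ Real.exp L := by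
      have h3 : Real.exp L = Real.exp (9 * L / 10) * Real.exp (L / 10) := by
        rw [← Real.exp_add]; congr 1; ring
      rw [h3]
      apply mul_le_mul_of_nonneg_right _ (Real.exp_pos _).le
      have := Real.add_one_le_exp (9 * L / 10)
      linarith
    have h4 : 1 ≤ Real.exp (L / 10) := Real.one_le_exp (by positivity)
    rw [hT10] at h1
    rw [hTe]
    linarith
  set F : Finset ℕ := (Finset.Icc 1 ⌊T ^ (1 / 500 : ℝ)⌋₊).filter Nat.Prime with hF
  have hFp : ∀ p ∈ F, p.Prime ∧ Real.log p ≤ L / 500 := by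
    intro p hp
    rw [hF, Finset.mem_filter, Finset.mem_Icc] at hp
    refine ⟨hp.2, ?_⟩
    have h1 : (p : ℝ) ≤ T ^ (1 / 500 : ℝ) := (Nat.le_floor_iff (by positivity)).1 hp.1.2
    rw [hT500] at h1
    have hp0 : (0 : ℝ) < p := by exact_mod_cast hp.2.pos
    rwa [Real.log_le_iff_le_exp hp0]
  have hFM : F ⊆ Nat.primesBelow M := by
    intro p hp
    obtain ⟨hp1, hp2⟩ := hFp p hp
    have hp0 : (0 : ℝ) < p := by exact_mod_cast hp1.pos
    rw [Nat.mem_primesBelow]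
    refine ⟨?_, hp1⟩
    have h1 : (p : ℝ) < M := by
      refine lt_of_lt_of_le ?_ hM1
      rw [hT10, ← Real.log_lt_iff_lt_exp hp0]
      linarith
    exact_mod_cast h1
  set s : ℕ → ℂ := fun p => if p ∈ F then
    ω * (((3 + x : ℝ) : ℂ) * ((Real.log p / L : ℝ) : ℂ)) * (p : ℂ) ^ (-(1 / 2 + z)) else 0 with hs
  set c : ℕ → ℂ := fun p => (lam : ℂ) * (p : ℂ) ^ (-(1 / 2 + (0 : ℂ))) with hc
  set f : ℕ → ℝ := fun p => (3 + x) * (Real.log p / L) * Real.exp (-(x * (Real.log p / L))) with hf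
  have hlog : ∀ p : ℕ, 0 ≤ Real.log p / L := fun p =>
    div_nonneg (Real.log_natCast_nonneg p) hL0.le
  have hf0 : ∀ p, 0 ≤ f p := fun p => by
    have := hlog p
    rw [hf]
    positivity
  have hsn : ∀ p ∈ F, ‖s p‖ = f p * (p : ℝ) ^ (-(1 / 2) : ℝ) := by
    intro p hp
    have h1 : s p = ω * (((3 + x : ℝ) : ℂ) * ((Real.log p / L : ℝ) : ℂ)) *
        (p : ℂ) ^ (-(1 / 2 + z)) := by rw [hs]; exact if_pos hp
    rw [h1, norm_mul, norm_mul, hω, one_mul, norm_mul, Complex.norm_real, Complex.norm_real,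
      Real.norm_of_nonneg hx3.le, Real.norm_of_nonneg (hlog p), X4_norm z hL0 (hFp p hp).1]
    rw [hf]
    ring
  have hsn' : ∀ p, p ∉ F → s p = 0 := fun p hp => by rw [hs]; exact if_neg hp
  have hcn : ∀ p : ℕ, p.Prime → ‖c p‖ = lam * (p : ℝ) ^ (-(1 / 2) : ℝ) := by
    intro p hp
    rw [hc]
    dsimp only
    rw [norm_mul, Complex.norm_real, Real.norm_of_nonneg h0.le, X4_norm 0 hL0 hp]
    simp
  have key := H hS hCt M hPM (fun _ => 0) (fun _ => 0) s c (by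
    intro p hp
    have hpp := (Nat.mem_primesBelow.1 hp).2
    have hu : 0 ≤ (p : ℝ) ^ (-(1 / 2) : ℝ) := by positivity
    refine ⟨le_rfl, hu, by rw [norm_zero]; positivity, ?_, fun _ => ?_⟩
    · by_cases hpF : p ∈ F
      · rw [hsn p hpF]
        apply mul_le_mul_of_nonneg_right _ hu
        have h1 : Real.log p / L ≤ 1 := by
          rw [div_le_one hL0]
          have := (hFp p hpF).2
          linarith
        have := X4_te hz1 (hlog p) h1
        rw [hf]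
        dsimp only
        linarith
      · rw [hsn' p hpF, norm_zero]
        positivity
    · rw [hcn p hpp]
      apply mul_le_mul_of_nonneg_right _ hu
      linarith)
  have hexp : ∑ p ∈ Nat.primesBelow M,
      ‖((0 : ℝ) : ℂ) - 0 + s p + (if p ∈ S.P then c p else 0)‖ ^ 2 ≤
      lam ^ 2 * ∑ p ∈ S.P, 1 / (p : ℝ) + (c2 + 2 * lam * c1) := by
    have h1 : ∀ p ∈ Nat.primesBelow M,
        ‖((0 : ℝ) : ℂ) - 0 + s p + (if p ∈ S.P then c p else 0)‖ ^ 2 ≤
        (if p ∈ S.P then lam ^ 2 * (1 / (p : ℝ)) else 0) + (f p ^ 2 / p + 2 * lam * (f p / p)) := by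
      intro p hp
      have hpp := (Nat.mem_primesBelow.1 hp).2
      have hp0 : (0 : ℝ) < p := by exact_mod_cast hpp.pos
      have hu0 : 0 ≤ (p : ℝ) ^ (-(1 / 2) : ℝ) := by positivity
      have hu : (p : ℝ) ^ (-(1 / 2) : ℝ) * (p : ℝ) ^ (-(1 / 2) : ℝ) = 1 / p := by
        rw [← Real.rpow_add hp0]
        norm_num
        rw [Real.rpow_neg_one]
      have hsl : ‖s p‖ ≤ f p * (p : ℝ) ^ (-(1 / 2) : ℝ) := by
        by_cases hpF : p ∈ F
        · exact (hsn p hpF).le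
        · rw [hsn' p hpF, norm_zero]
          exact mul_nonneg (hf0 p) hu0
      have hfp := hf0 p
      have h2 : ((0 : ℝ) : ℂ) - 0 + s p + (if p ∈ S.P then c p else 0) =
        s p + (if p ∈ S.P then c p else 0) := by simp
      rw [h2]
      by_cases hpP : p ∈ S.P
      · rw [if_pos hpP, if_pos hpP]
        have h3 : ‖s p + c p‖ ≤ (f p + lam) * (p : ℝ) ^ (-(1 / 2) : ℝ) := by
          refine (norm_add_le _ _).trans ?_
          rw [hcn p hpp]
          linarith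
        calc ‖s p + c p‖ ^ 2 ≤ ((f p + lam) * (p : ℝ) ^ (-(1 / 2) : ℝ)) ^ 2 :=
              pow_le_pow_left₀ (norm_nonneg _) h3 2
          _ = (f p + lam) ^ 2 * ((p : ℝ) ^ (-(1 / 2) : ℝ) * (p : ℝ) ^ (-(1 / 2) : ℝ)) := by ring
          _ = _ := by rw [hu]; ring
          _ ≤ _ := le_rfl
      · rw [if_neg hpP, if_neg hpP, add_zero, zero_add]
        calc ‖s p‖ ^ 2 ≤ (f p * (p : ℝ) ^ (-(1 / 2) : ℝ)) ^ 2 :=
              pow_le_pow_left₀ (norm_nonneg _) hsl 2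
          _ = f p ^ 2 * ((p : ℝ) ^ (-(1 / 2) : ℝ) * (p : ℝ) ^ (-(1 / 2) : ℝ)) := by ring
          _ = f p ^ 2 / p := by rw [hu]; ring
          _ ≤ _ := by
            have : 0 ≤ 2 * lam * (f p / p) := by positivity
            linarith
    refine (Finset.sum_le_sum h1).trans ?_
    rw [Finset.sum_add_distrib, Finset.sum_add_distrib, ← Finset.mul_sum]
    have e1 : ∑ p ∈ Nat.primesBelow M, (if p ∈ S.P then lam ^ 2 * (1 / (p : ℝ)) else 0) =
        lam ^ 2 * ∑ p ∈ S.P, 1 / (p : ℝ) := by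
      rw [← Finset.sum_filter, Finset.mul_sum]
      apply Finset.sum_congr _ fun _ _ => rfl
      ext p
      rw [Finset.mem_filter]
      exact ⟨fun h => h.2, fun h => ⟨hPM h, h⟩⟩
    have e2 := H2 T x M hT hz1 hx2 hMT
    have e3 := H1 T x M hT hz1 hx2 hMT
    have e4 : ∑ p ∈ Nat.primesBelow M, f p ^ 2 / (p : ℝ) ≤ c2 := e2
    have e5 : ∑ p ∈ Nat.primesBelow M, f p / (p : ℝ) ≤ c1 := e3
    have e6 : 2 * lam * ∑ p ∈ Nat.primesBelow M, f p / (p : ℝ) ≤ 2 * lam * c1 :=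
      mul_le_mul_of_nonneg_left e5 (by positivity)
    rw [e1]
    linarith
  have hint : ∀ w, (∏ p ∈ Nat.primesBelow M, ‖(1 - (((fun _ => 0) p : ℝ) : ℂ) * X p w)⁻¹‖ ^ 2) *
      (∏ p ∈ Nat.primesBelow M, ‖1 - (fun _ => 0) p * X p w‖ ^ 2) *
      Real.exp (2 * (∑ p ∈ Nat.primesBelow M, s p * X p w).re) *
      (∏ j ∈ range (S.J + 1), ‖Ex (S.l j) (∑ p ∈ S.R j, c p * X p w)‖ ^ 2) =
      Real.exp (2 * (ω * (((3 + x : ℝ) : ℂ) *
      (DP T (nX z w) / (L : ℝ)))).re) * ‖RT S lam (nX 0 w)‖ ^ 2 := by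
    intro w
    rw [RT_nX hS, norm_prod, ← Finset.prod_pow]
    have h1 : ∑ p ∈ Nat.primesBelow M, s p * X p w = ω * (((3 + x : ℝ) : ℂ) *
        (DP T (nX z w) / (L : ℝ))) := by
      rw [← Finset.sum_subset hFM (fun p _ hp => by rw [hsn' p hp, zero_mul])]
      unfold DP
      rw [← hF, Finset.sum_div, Finset.mul_sum, Finset.mul_sum]
      refine Finset.sum_congr rfl fun p hp => ?_
      have hpp := (hFp p hp).1
      rw [nX_apply z w hpp.ne_zero, XX_prime w hpp]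
      have h2 : s p = ω * (((3 + x : ℝ) : ℂ) * ((Real.log p / L : ℝ) : ℂ)) *
        (p : ℂ) ^ (-(1 / 2 + z)) := by rw [hs]; exact if_pos hp
      rw [h2]
      push_cast
      ring
    rw [h1]
    simp [hc]
  rw [← integral_congr_ae (Filter.Eventually.of_forall hint)]
  refine key.trans ?_
  unfold Lam
  rw [mul_assoc, ← Real.exp_add]
  apply mul_le_mul_of_nonneg_left _ (by linarith)
  apply Real.exp_le_exp.2
  rw [add_comm (c2 + 2 * lam * c1)]
  exact hexp

private theorem X4_four {f1 f2 f3 f4 : Om → ℝ} (h1 : Integrable f1 mu) (h2 : Integrable f2 mu)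
    (h3 : Integrable f3 mu) (h4 : Integrable f4 mu) :
    ∫ w, (f1 w + f2 w + f3 w + f4 w) ∂mu =
      ∫ w, f1 w ∂mu + ∫ w, f2 w ∂mu + ∫ w, f3 w ∂mu + ∫ w, f4 w ∂mu := by
  rw [integral_add (f := fun w => f1 w + f2 w + f3 w) ((h1.add h2).add h3) h4,
    integral_add (f := fun w => f1 w + f2 w) (h1.add h2) h3, integral_add h1 h2]

private theorem X4_cDP (T : ℝ) (z : ℂ) : Continuous fun w => DP T (nX z w) := by
  unfold DP
  exact continuous_finsetSum _ fun p _ => continuous_const.mul (continuous_nX z p)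

private theorem X4_cRT (S : BS) (lam : ℝ) (z : ℂ) : Continuous fun w => RT S lam (nX z w) := by
  unfold RT PS
  refine continuous_finsetProd _ fun j _ => (continuous_Ex _).comp ?_
  exact continuous_const.mul (continuous_finsetSum _ fun p _ => continuous_nX z p)

theorem XR4 (lam : ℝ) (h0 : 0 < lam) (k : ℕ) : ∃ C0 K : ℝ, 1 ≤ K ∧
    ∀ {S : BS} {Ct θ D1 : ℝ} {N0 : ℕ}, TG S Ct θ D1 N0 → C0 ≤ Ct → ∀ z : ℂ,
    -2 ≤ Real.log S.T * z.re → z.re ≤ 20 →
    ∫ w, ‖DP S.T (nX z w) / (Real.log S.T : ℝ)‖ ^ (2 * k) * ‖RT S lam (nX 0 w)‖ ^ 2 ∂mu ≤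
      K * Lam S lam / (3 + Real.log S.T * z.re) ^ (2 * k) := by
  obtain ⟨C0, K, hK, H⟩ := X4_om lam h0
  have hf : (1 : ℝ) ≤ ((2 * k).factorial : ℝ) := by
    exact_mod_cast Nat.factorial_pos _
  refine ⟨C0, ((2 * k).factorial : ℝ) * (4 * K), by nlinarith, ?_⟩
  intro S Ct θ D1 N0 hS hCt z hz1 hz2
  have hx3 : 0 < 3 + Real.log S.T * z.re := by linarith
  have hLam : 0 ≤ Lam S lam := (Real.exp_pos _).le
  set x : ℝ := 3 + Real.log S.T * z.re with hx
  set Z : Om → ℂ := fun w => (x : ℂ) * (DP S.T (nX z w) / (Real.log S.T : ℝ)) with hZ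
  set R : Om → ℝ := fun w => ‖RT S lam (nX 0 w)‖ ^ 2 with hR
  have hcZ : Continuous Z := continuous_const.mul ((X4_cDP S.T z).div_const _)
  have hcR : Continuous R := (X4_cRT S lam 0).norm.pow 2
  have hR0 : ∀ w, 0 ≤ R w := fun w => by positivity
  have hi : ∀ ω : ℂ, Integrable (fun w => Real.exp (2 * (ω * Z w).re) * R w) mu := fun ω =>
    integrable_of_continuous ((Real.continuous_exp.comp (continuous_const.mul
      (Complex.continuous_re.comp (continuous_const.mul hcZ)))).mul hcR)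
  have hb : ∀ ω : ℂ, ‖ω‖ = 1 → ∫ w, Real.exp (2 * (ω * Z w).re) * R w ∂mu ≤ K * Lam S lam :=
    fun ω hω => H hS hCt z hz1 hz2 ω hω
  have b1 := hb 1 (by simp)
  have b2 := hb (-1) (by simp)
  have b3 := hb I (by simp)
  have b4 := hb (-I) (by simp)
  rw [le_div_iff₀ (by positivity), mul_comm, ← integral_const_mul]
  have h1 : ∀ w, x ^ (2 * k) * (‖DP S.T (nX z w) / (Real.log S.T : ℝ)‖ ^ (2 * k) * R w) =
      ‖Z w‖ ^ (2 * k) * R w := by
    intro w
    rw [hZ]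
    dsimp only
    rw [norm_mul, Complex.norm_real, Real.norm_of_nonneg hx3.le, mul_pow]
    ring
  have h2 : ∫ w, x ^ (2 * k) * (‖DP S.T (nX z w) / (Real.log S.T : ℝ)‖ ^ (2 * k) * R w) ∂mu ≤
      ∫ w, ((2 * k).factorial : ℝ) * (Real.exp (2 * (1 * Z w).re) * R w +
        Real.exp (2 * (-1 * Z w).re) * R w + Real.exp (2 * (I * Z w).re) * R w +
        Real.exp (2 * (-I * Z w).re) * R w) ∂mu := by
    apply integral_mono
    · apply integrable_of_continuous
      exact continuous_const.mul ((((X4_cDP S.T z).div_const _).norm.pow _).mul hcR)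
    · exact (((((hi 1).add (hi (-1))).add (hi I)).add (hi (-I))).const_mul _)
    · intro w
      dsimp only
      rw [h1]
      calc ‖Z w‖ ^ (2 * k) * R w ≤ _ * R w :=
            mul_le_mul_of_nonneg_right (X4_exp (Z w) k) (hR0 w)
        _ = _ := by ring
  refine h2.trans ?_
  rw [integral_const_mul, X4_four (hi 1) (hi (-1)) (hi I) (hi (-I)), mul_assoc]
  apply mul_le_mul_of_nonneg_left _ (by linarith)
  linarith

end Pool.Agent.LB
end
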