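import Pool.Agent.Lib.MP_69b2e4_nt.Mg.G027
import Pool.Agent.Lib.MP_69b2e4_nt.LB.F3
import Pool.Agent.Lib.MP_69b2e4_nt.Mg.G028
import Pool.Agent.Lib.MP_69b2e4_nt.Mg.G017
import Pool.Agent.Lib.MP_69b2e4_nt.LB.C0
import Pool.Agent.Lib.MP_69b2e4_nt.Mg.G024
import Pool.Agent.Lib.MP_69b2e4_nt.Mg.G040

section

/-! TASK X1. The random side of the mollified moment. Write `L = log T`, `u = p^{-1/2}`, `v = log p/L`.
`XR_cs` (COPY `R8_gen`, UV/R8.lean, with the power `m` instead of 14): Cauchy-Schwarz and Fubini in the frequency.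
`XR1_xi`: `full5` with `A = max 1 (3 lam)`, `y_p = u`, `b_p = bz 6 T ξ z1 p` (`bz_le`: `Re z1 + 6/L ≥ 0`), `s = 0`, `c_p = lam p^{-(1/2+z2)}` (`RT_nX`; `Zt R (1/2) w = ∏ (1 - u X_p)⁻¹`). For `p ∈ P`: `|Re z2| log p ≤ 2θ²/7 ≤ 1`, so `‖c_p‖ ≤ lam u e^{|Re z2| log p}`,
 `‖c_p‖² ≤ lam²/p + 8 lam² |Re z2| log p/p`, and `∑_P |Re z2| log p/p ≤ (2/(7θ³)) (θ^5 + C/L) ≤ C'` (`ps_P`; `θ³ L ≥ 10/7` from `TG.len` and `Ct ≥ 10`). With `‖u - b_p‖ ≤ D_p u`, `D_p = min 2 (a v)`, `a = 6 + 7|ξ| + 6` (`bz_sub`, `L‖z1‖ ≤ 6`):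
 `‖u - b + c‖² ≤ ‖c‖² + (6 lam + 2) D_p/p` on `P`, `≤ 2 D_p/p` off `P`; `∑_{p<M} D_p/p ≤ C + 2 log a` (`ps_min`). So the bound is `K Lam exp((6lam+2)(C + 2 log(12+7|ξ|))) ≤ K' Lam (1+|ξ|)^m`, `m = ⌈12 lam + 4⌉₊`.
`XR1`: `MO i T (nX z1 w) = ∫ φ(ξ) ∏ (1 - bz X)` (`MO_eq` with `p u = u^i Pf u` and `fourier_kernel5 i 6`, `am`), `XR_cs`. The functions are continuous in `(w, ξ)` and bounded (`‖bz‖ ≤ 1`). -/

set_option autoImplicit false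

namespace Pool.Agent.LB

open Complex MeasureTheory Finset Pool.Agent.GH Pool.Agent.UH Pool.Agent.UV
open scoped Real ComplexConjugate

private lemma X1_cs {φ g : ℝ → ℂ} (hφ : Continuous φ) (hi : Integrable (fun ξ => ‖φ ξ‖))
    (hg : Continuous g) {B : ℝ} (hB : ∀ ξ, ‖g ξ‖ ≤ B) :
    ‖∫ ξ, φ ξ * g ξ‖ ^ 2 ≤ (∫ ξ, ‖φ ξ‖) * ∫ ξ, ‖φ ξ‖ * ‖g ξ‖ ^ 2 := by
  have hB0 : 0 ≤ B := (norm_nonneg _).trans (hB 0)
  have i1 : Integrable (fun ξ => ‖φ ξ‖ * ‖g ξ‖) := by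
    refine (hi.mul_const B).mono' (by fun_prop) (Filter.Eventually.of_forall fun ξ => ?_)
    rw [Real.norm_of_nonneg (by positivity)]
    exact mul_le_mul_of_nonneg_left (hB ξ) (norm_nonneg _)
  have i2 : Integrable (fun ξ => ‖φ ξ‖ * ‖g ξ‖ ^ 2) := by
    refine (hi.mul_const (B ^ 2)).mono' (by fun_prop) (Filter.Eventually.of_forall fun ξ => ?_)
    rw [Real.norm_of_nonneg (by positivity)]
    exact mul_le_mul_of_nonneg_left (pow_le_pow_left₀ (norm_nonneg _) (hB ξ) 2) (norm_nonneg _)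
  have h1 : ‖∫ ξ, φ ξ * g ξ‖ ≤ ∫ ξ, ‖φ ξ‖ * ‖g ξ‖ := by
    refine (norm_integral_le_integral_norm _).trans (le_of_eq ?_)
    simp only [norm_mul]
  have h2 : ∀ t : ℝ, 0 ≤ (∫ ξ, ‖φ ξ‖) * (t * t) + (-(2 * ∫ ξ, ‖φ ξ‖ * ‖g ξ‖)) * t +
      ∫ ξ, ‖φ ξ‖ * ‖g ξ‖ ^ 2 := by
    intro t
    have h3 : 0 ≤ ∫ ξ, ‖φ ξ‖ * (t - ‖g ξ‖) ^ 2 :=
      integral_nonneg fun ξ => by positivity
    have h4 : ∫ ξ, ‖φ ξ‖ * (t - ‖g ξ‖) ^ 2 =
        ∫ ξ, (‖φ ξ‖ * (t * t) - (2 * t) * (‖φ ξ‖ * ‖g ξ‖) + ‖φ ξ‖ * ‖g ξ‖ ^ 2) := by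
      congr 1
      funext ξ
      ring
    have e1 : Integrable (fun ξ => ‖φ ξ‖ * (t * t) - (2 * t) * (‖φ ξ‖ * ‖g ξ‖)) :=
      (hi.mul_const _).sub (i1.const_mul _)
    rw [h4, integral_add e1 i2, integral_sub (hi.mul_const _) (i1.const_mul _),
      integral_mul_const, integral_const_mul] at h3
    linarith
  have h5 := discrim_le_zero h2
  unfold discrim at h5
  have h6 : (∫ ξ, ‖φ ξ‖ * ‖g ξ‖) ^ 2 ≤ (∫ ξ, ‖φ ξ‖) * ∫ ξ, ‖φ ξ‖ * ‖g ξ‖ ^ 2 := by nlinarith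
  exact (pow_le_pow_left₀ (norm_nonneg _) h1 2).trans h6

/-- Cauchy-Schwarz and Fubini for an integral over the frequency. -/
theorem XR_cs {φ : ℝ → ℂ} (hφ : Continuous φ) (m : ℕ)
    (hφi : Integrable (fun ξ : ℝ => (1 + |ξ|) ^ m * ‖φ ξ‖)) {g : ℝ → Om → ℂ}
    (hg : Continuous (fun q : Om × ℝ => g q.2 q.1)) {B : ℝ} (hB : ∀ ξ w, ‖g ξ w‖ ≤ B)
    {Y : Om → ℝ} (hY : Continuous Y) (hY0 : ∀ w, 0 ≤ Y w) {E : ℝ}
    (hE : ∀ ξ : ℝ, ∫ w, Y w * ‖g ξ w‖ ^ 2 ∂mu ≤ E * (1 + |ξ|) ^ m) :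
    ∫ w, Y w * ‖∫ ξ : ℝ, φ ξ * g ξ w‖ ^ 2 ∂mu ≤
      (∫ ξ, ‖φ ξ‖) * (E * ∫ ξ : ℝ, (1 + |ξ|) ^ m * ‖φ ξ‖) := by
  have hi : Integrable (fun ξ => ‖φ ξ‖) := by
    refine hφi.mono' (by fun_prop) (Filter.Eventually.of_forall fun ξ => ?_)
    rw [Real.norm_of_nonneg (norm_nonneg _)]
    have h1 : (1 : ℝ) ≤ (1 + |ξ|) ^ m := one_le_pow₀ (by linarith [abs_nonneg ξ])
    exact le_mul_of_one_le_left (norm_nonneg _) h1
  let F : Om → ℝ → ℝ := fun w ξ => ‖φ ξ‖ * (Y w * ‖g ξ w‖ ^ 2)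
  have hF0 : ∀ w ξ, 0 ≤ F w ξ := by
    intro w ξ
    have := hY0 w
    positivity
  have hFc : Continuous (Function.uncurry F) := by
    have h5 : Continuous fun q : Om × ℝ => Y q.1 := hY.comp continuous_fst
    have h6 : Continuous fun q : Om × ℝ => ‖φ q.2‖ := (hφ.comp continuous_snd).norm
    exact h6.mul (h5.mul (hg.norm.pow 2))
  obtain ⟨B2, hB2⟩ := exists_bound_of_continuous hY
  have hFi : Integrable (Function.uncurry F) (mu.prod volume) := by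
    have h1 : Integrable (fun q : Om × ℝ => ‖φ q.2‖) (mu.prod volume) := hi.comp_snd mu
    refine (h1.mul_const (B2 * B ^ 2)).mono' hFc.aestronglyMeasurable
      (Filter.Eventually.of_forall fun q => ?_)
    have h0 : 0 ≤ Function.uncurry F q := hF0 q.1 q.2
    rw [Real.norm_of_nonneg h0]
    change ‖φ q.2‖ * (Y q.1 * ‖g q.2 q.1‖ ^ 2) ≤ _
    refine mul_le_mul_of_nonneg_left ?_ (norm_nonneg _)
    have e2 : ‖g q.2 q.1‖ ^ 2 ≤ B ^ 2 := pow_le_pow_left₀ (norm_nonneg _) (hB _ _) 2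
    have e3 : Y q.1 ≤ B2 := (le_abs_self _).trans (hB2 q.1)
    exact mul_le_mul e3 e2 (by positivity) ((hY0 q.1).trans e3)
  have hpt : ∀ w, Y w * ‖∫ ξ : ℝ, φ ξ * g ξ w‖ ^ 2 ≤ (∫ ξ, ‖φ ξ‖) * ∫ ξ, F w ξ := by
    intro w
    have hgc : Continuous fun ξ : ℝ => g ξ w := by
      have h1 : Continuous fun ξ : ℝ => ((w, ξ) : Om × ℝ) := by fun_prop
      exact hg.comp h1
    have h1 := X1_cs hφ hi hgc (fun ξ => hB ξ w)
    have h2 : ∫ ξ, F w ξ = Y w * ∫ ξ, ‖φ ξ‖ * ‖g ξ w‖ ^ 2 := by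
      rw [← integral_const_mul]
      congr 1
      funext ξ
      change ‖φ ξ‖ * (Y w * ‖g ξ w‖ ^ 2) = _
      ring
    rw [h2]
    have h4 := mul_le_mul_of_nonneg_left h1 (hY0 w)
    calc _ ≤ _ := h4
      _ = _ := by ring
  have hA : 0 ≤ ∫ ξ, ‖φ ξ‖ := integral_nonneg fun ξ => norm_nonneg _
  calc _ ≤ ∫ w, ((∫ ξ, ‖φ ξ‖) * (∫ ξ, F w ξ)) ∂mu := by
        refine integral_mono_of_nonneg (Filter.Eventually.of_forall fun w => ?_)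
          (hFi.integral_prod_left.const_mul _) (Filter.Eventually.of_forall hpt)
        exact mul_nonneg (hY0 w) (sq_nonneg _)
    _ = (∫ ξ, ‖φ ξ‖) * (∫ w, (∫ ξ, F w ξ) ∂mu) := by rw [integral_const_mul]
    _ = (∫ ξ, ‖φ ξ‖) * (∫ ξ, (∫ w, F w ξ ∂mu)) := by rw [integral_integral_swap hFi]
    _ ≤ (∫ ξ, ‖φ ξ‖) * (∫ ξ : ℝ, E * ((1 + |ξ|) ^ m * ‖φ ξ‖)) := by
        refine mul_le_mul_of_nonneg_left ?_ hA
        refine integral_mono_of_nonneg (Filter.Eventually.of_forall fun ξ => ?_)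
          (hφi.const_mul _) (Filter.Eventually.of_forall fun ξ => ?_)
        · exact integral_nonneg fun w => hF0 w ξ
        · change ∫ w, ‖φ ξ‖ * (Y w * ‖g ξ w‖ ^ 2) ∂mu ≤ _
          rw [integral_const_mul]
          have h1 := mul_le_mul_of_nonneg_left (hE ξ) (norm_nonneg (φ ξ))
          linarith
    _ = (∫ ξ, ‖φ ξ‖) * (E * ∫ ξ : ℝ, (1 + |ξ|) ^ m * ‖φ ξ‖) := by rw [integral_const_mul]

private theorem X1_sq (p : ℕ) : ((p : ℝ) ^ (-(1 / 2) : ℝ)) ^ 2 = 1 / (p : ℝ) := by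
  rw [← Real.rpow_natCast, ← Real.rpow_mul (Nat.cast_nonneg p)]
  rw [show (-(1 / 2) : ℝ) * ((2 : ℕ) : ℝ) = -1 by norm_num, Real.rpow_neg_one, one_div]

/-- `10 ≤ 7 θ³ log T` -/
private theorem X1_len {S : BS} {Ct θ D1 : ℝ} {N0 : ℕ} (hS : TG S Ct θ D1 N0) :
    10 ≤ 7 * θ ^ 3 * Real.log S.T := by
  refine hS.Ct_ge.trans (le_trans ?_ hS.len)
  have h1 : ∀ j ∈ range (S.J + 1), 0 ≤ (S.l j : ℝ) * Real.log (S.N j) + Ct := by
    intro j hj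
    have h2 : 0 ≤ Real.log (S.N j) := Real.log_nonneg (hS.N_ge j (by
      rw [Finset.mem_range] at hj
      omega))
    have h3 := hS.Ct_ge
    have h4 : 0 ≤ (S.l j : ℝ) * Real.log (S.N j) := mul_nonneg (Nat.cast_nonneg _) h2
    linarith
  refine le_trans ?_ (Finset.single_le_sum h1 (Finset.mem_range.2 (Nat.succ_pos S.J)))
  have h2 : 0 ≤ Real.log (S.N 0) := Real.log_nonneg (hS.N_ge 0 (Nat.zero_le _))
  have h4 : 0 ≤ (S.l 0 : ℝ) * Real.log (S.N 0) := mul_nonneg (Nat.cast_nonneg _) h2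
  linarith

private theorem X1_L {S : BS} {Ct θ D1 : ℝ} {N0 : ℕ} (hS : TG S Ct θ D1 N0) :
    1000 ≤ Real.log S.T ∧ 0 < S.T ∧ 1 < S.T := by
  have hT0 : 0 < S.T := lt_of_lt_of_le (Real.exp_pos _) hS.T_ge
  have h1 : 1000 ≤ Real.log S.T := by
    rw [Real.le_log_iff_exp_le hT0]
    exact hS.T_ge
  refine ⟨h1, hT0, ?_⟩
  have h2 := Real.add_one_le_exp (1000 : ℝ)
  have h3 := hS.T_ge
  linarith

/-- the size of the coefficients of the tilt -/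
private theorem X1_c {S : BS} {Ct θ D1 : ℝ} {N0 : ℕ} (hS : TG S Ct θ D1 N0) {lam : ℝ}
    (h0 : 0 < lam) {z2 : ℂ} (hz2 : |z2.re| ≤ 2 / (7 * θ ^ 3 * Real.log S.T)) {p : ℕ}
    (hp : p ∈ S.P) : ‖(lam : ℂ) * (p : ℂ) ^ (-(1 / 2 + z2))‖ ≤ 3 * lam * (p : ℝ) ^ (-(1 / 2) : ℝ) ∧
      ‖(lam : ℂ) * (p : ℂ) ^ (-(1 / 2 + z2))‖ ^ 2 ≤ lam ^ 2 * (1 / (p : ℝ)) +
        4 * lam ^ 2 * (|z2.re| * Real.log S.T) * ((Real.log p / Real.log S.T) / (p : ℝ)) := by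
  obtain ⟨hL, hT0, hT1⟩ := X1_L hS
  obtain ⟨hpp, hlog⟩ := P_prime hS hp
  have hp0 : (0 : ℝ) < p := by exact_mod_cast hpp.pos
  have hp1 : (1 : ℝ) ≤ p := by exact_mod_cast hpp.one_lt.le
  have hlog0 : 0 ≤ Real.log p := Real.log_nonneg hp1
  have hth := hS.th_pos
  have ht : |z2.re| * Real.log p ≤ 1 / 4 := by
    have h1 : |z2.re| * Real.log p ≤ 2 / (7 * θ ^ 3 * Real.log S.T) * (θ ^ 5 * Real.log S.T) :=
      mul_le_mul hz2 hlog hlog0 (by positivity)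
    have h2 : 2 / (7 * θ ^ 3 * Real.log S.T) * (θ ^ 5 * Real.log S.T) = 2 / 7 * θ ^ 2 := by
      have : Real.log S.T ≠ 0 := by linarith
      field_simp
    have h3 : θ ^ 2 ≤ (1 / 100 : ℝ) ^ 2 := pow_le_pow_left₀ hth.le hS.th_le 2
    rw [h2] at h1
    norm_num at h3
    linarith
  have ht0 : 0 ≤ |z2.re| * Real.log p := mul_nonneg (abs_nonneg _) hlog0
  have hn : ‖(lam : ℂ) * (p : ℂ) ^ (-(1 / 2 + z2))‖ =
      lam * (p : ℝ) ^ (-(1 / 2) : ℝ) * Real.exp (-(z2.re * Real.log p)) := by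
    rw [norm_mul, Complex.norm_real, Real.norm_of_nonneg h0.le,
      Complex.norm_natCast_cpow_of_pos hpp.pos]
    have h1 : (-(1 / 2 + z2)).re = (-(1 / 2) : ℝ) + -z2.re := by
      simp
      ring
    rw [h1, Real.rpow_add hp0, mul_assoc]
    congr 2
    rw [Real.rpow_def_of_pos hp0]
    congr 1
    ring
  have hle : Real.exp (-(z2.re * Real.log p)) ≤ Real.exp (|z2.re| * Real.log p) := by
    refine Real.exp_le_exp.2 ?_
    have := neg_abs_le z2.re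
    nlinarith
  have hle2 : Real.exp (2 * (|z2.re| * Real.log p)) ≤ 1 + 4 * (|z2.re| * Real.log p) := by
    have h1 := Real.exp_bound_div_one_sub_of_interval
      (x := 2 * (|z2.re| * Real.log p)) (by linarith) (by linarith)
    refine h1.trans ?_
    rw [div_le_iff₀ (by linarith)]
    nlinarith
  have he3 : Real.exp (|z2.re| * Real.log p) ≤ 3 := by
    have h1 : Real.exp (|z2.re| * Real.log p) ≤ Real.exp 1 := Real.exp_le_exp.2 (by linarith)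
    have := Real.exp_one_lt_d9
    linarith
  have hu : 0 ≤ (p : ℝ) ^ (-(1 / 2) : ℝ) := by positivity
  constructor
  · rw [hn]
    calc lam * (p : ℝ) ^ (-(1 / 2) : ℝ) * Real.exp (-(z2.re * Real.log p)) ≤
          lam * (p : ℝ) ^ (-(1 / 2) : ℝ) * 3 :=
          mul_le_mul_of_nonneg_left (hle.trans he3) (by positivity)
      _ = _ := by ring
  · rw [hn, mul_pow, mul_pow, X1_sq, ← Real.exp_nat_mul]
    have h2 : Real.exp (((2 : ℕ) : ℝ) * -(z2.re * Real.log p)) ≤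
        1 + 4 * (|z2.re| * Real.log p) := by
      refine le_trans (Real.exp_le_exp.2 ?_) hle2
      have := neg_abs_le z2.re
      push_cast
      nlinarith
    calc lam ^ 2 * (1 / (p : ℝ)) * Real.exp (((2 : ℕ) : ℝ) * -(z2.re * Real.log p)) ≤
          lam ^ 2 * (1 / (p : ℝ)) * (1 + 4 * (|z2.re| * Real.log p)) :=
          mul_le_mul_of_nonneg_left h2 (by positivity)
      _ = _ := by
          have : Real.log S.T ≠ 0 := by linarith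
          field_simp

theorem XR1_xi (lam : ℝ) (h0 : 0 < lam) : ∃ (C0 K : ℝ) (m : ℕ), 1 ≤ K ∧
    ∀ {S : BS} {Ct θ D1 : ℝ} {N0 : ℕ}, TG S Ct θ D1 N0 → C0 ≤ Ct → ∀ M : ℕ,
    S.T ^ (9 / 20 : ℝ) ≤ M → (M : ℝ) ≤ S.T ^ 2 → ∀ z1 z2 : ℂ, ‖z1‖ ≤ 6 / Real.log S.T →
    |z2.re| ≤ 2 / (7 * θ ^ 3 * Real.log S.T) → ∀ ξ : ℝ,
    ∫ w, ‖Zt (Nat.primesBelow M) (1 / 2) w‖ ^ 2 *
      (∏ p ∈ Nat.primesBelow M, ‖1 - bz 6 S.T ξ z1 p * X p w‖ ^ 2) *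
      ‖RT S lam (nX z2 w)‖ ^ 2 ∂mu ≤ K * Lam S lam * (1 + |ξ|) ^ m := by
  classical
  obtain ⟨A, hA⟩ : ∃ A : ℝ, A = max 1 (3 * lam) := ⟨_, rfl⟩
  have hA1 : 1 ≤ A := hA ▸ le_max_left _ _
  have hA2 : 3 * lam ≤ A := hA ▸ le_max_right _ _
  obtain ⟨C0, K5, hK5, h5⟩ := full5 A (by linarith)
  obtain ⟨C1, hC10, hC1⟩ := ps_min
  obtain ⟨C2, hC20, hC2⟩ := ps_P
  have h12 : (1 : ℝ) ≤ (12 : ℝ) ^ (2 * (6 * lam + 2)) :=
    Real.one_le_rpow (by norm_num) (by positivity)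
  have hexp : 1 ≤ Real.exp (4 * lam ^ 2 * (1 + C2) + (6 * lam + 2) * C1) :=
    Real.one_le_exp (by positivity)
  refine ⟨C0, K5 * Real.exp (4 * lam ^ 2 * (1 + C2) + (6 * lam + 2) * C1) *
    (12 : ℝ) ^ (2 * (6 * lam + 2)), ⌈2 * (6 * lam + 2)⌉₊, ?_, ?_⟩
  · exact one_le_mul_of_one_le_of_one_le (one_le_mul_of_one_le_of_one_le hK5 hexp) h12
  intro S Ct θ D1 N0 hS hC M hM1 hM2 z1 z2 hz1 hz2 ξ
  obtain ⟨hL, hT0, hT1⟩ := X1_L hS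
  have hth := hS.th_pos
  have hPM : S.P ⊆ Nat.primesBelow M := by
    refine P_lt hS (le_trans ?_ hM1)
    exact Real.rpow_le_rpow_of_exponent_le hT1.le (by norm_num)
  have hz : 0 ≤ z1.re + 6 / Real.log S.T := by
    have h1 := (abs_le.1 ((Complex.abs_re_le_norm z1).trans hz1)).1
    linarith
  obtain ⟨c, hc⟩ : ∃ c : ℕ → ℂ, ∀ p, c p = (lam : ℂ) * (p : ℂ) ^ (-(1 / 2 + z2)) := ⟨_, fun _ => rfl⟩
  obtain ⟨b, hb⟩ : ∃ b : ℕ → ℂ, ∀ p, b p = bz 6 S.T ξ z1 p := ⟨_, fun _ => rfl⟩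
  have hkey := h5 hS hC M hPM (fun p => (p : ℝ) ^ (-(1 / 2) : ℝ)) b (fun _ => 0) c (by
    intro p hp
    have hpp := (Nat.mem_primesBelow.1 hp).2
    have hu : 0 ≤ (p : ℝ) ^ (-(1 / 2) : ℝ) := by positivity
    refine ⟨hu, le_rfl, ?_, ?_, ?_⟩
    · rw [hb]
      refine (bz_le hT1 hz ξ hpp).trans ?_
      exact le_mul_of_one_le_left hu hA1
    · rw [norm_zero]
      positivity
    · intro hpP
      rw [hc]
      refine (X1_c hS h0 hz2 hpP).1.trans ?_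
      exact mul_le_mul_of_nonneg_right hA2 hu)
  have hLHS : ∀ w, ‖Zt (Nat.primesBelow M) (1 / 2) w‖ ^ 2 *
      (∏ p ∈ Nat.primesBelow M, ‖1 - bz 6 S.T ξ z1 p * X p w‖ ^ 2) *
      ‖RT S lam (nX z2 w)‖ ^ 2 =
      (∏ p ∈ Nat.primesBelow M, ‖(1 - (((p : ℝ) ^ (-(1 / 2) : ℝ) : ℝ) : ℂ) * X p w)⁻¹‖ ^ 2) *
      (∏ p ∈ Nat.primesBelow M, ‖1 - b p * X p w‖ ^ 2) *
      Real.exp (2 * (∑ p ∈ Nat.primesBelow M, (0 : ℂ) * X p w).re) *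
      (∏ j ∈ range (S.J + 1), ‖Ex (S.l j) (∑ p ∈ S.R j, c p * X p w)‖ ^ 2) := by
    intro w
    have e1 : ‖Zt (Nat.primesBelow M) (1 / 2) w‖ ^ 2 =
        ∏ p ∈ Nat.primesBelow M, ‖(1 - (((p : ℝ) ^ (-(1 / 2) : ℝ) : ℝ) : ℂ) * X p w)⁻¹‖ ^ 2 := by
      unfold Zt
      rw [norm_prod, Finset.prod_pow]
    have e2 : Real.exp (2 * (∑ p ∈ Nat.primesBelow M, (0 : ℂ) * X p w).re) = 1 := by
      simp
    have e3 : ‖RT S lam (nX z2 w)‖ ^ 2 =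
        ∏ j ∈ range (S.J + 1), ‖Ex (S.l j) (∑ p ∈ S.R j, c p * X p w)‖ ^ 2 := by
      rw [RT_nX hS, norm_prod, Finset.prod_pow]
      simp_rw [hc]
    rw [e1, e2, e3, mul_one]
    simp_rw [hb]
  simp_rw [hLHS]
  refine hkey.trans ?_
  -- the exponent
  obtain ⟨a, ha⟩ : ∃ a : ℝ, a = 12 + 7 * |ξ| := ⟨_, rfl⟩
  have hξ := abs_nonneg ξ
  have ha1 : 1 ≤ a := by
    rw [ha]
    linarith
  obtain ⟨Dp, hDp⟩ : ∃ Dp : ℕ → ℝ, ∀ p, Dp p = min 2 (a * (Real.log p / Real.log S.T)) :=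
    ⟨_, fun _ => rfl⟩
  have hDp0 : ∀ p ∈ Nat.primesBelow M, 0 ≤ Dp p ∧ Dp p ≤ 2 := by
    intro p hp
    have hpp := (Nat.mem_primesBelow.1 hp).2
    have hp1 : (1 : ℝ) ≤ p := by exact_mod_cast hpp.one_lt.le
    have hlog0 : 0 ≤ Real.log p := Real.log_nonneg hp1
    rw [hDp]
    refine ⟨le_min (by norm_num) ?_, min_le_left _ _⟩
    have : 0 ≤ Real.log p / Real.log S.T := div_nonneg hlog0 (by linarith)
    nlinarith
  have hyb : ∀ p ∈ Nat.primesBelow M, ‖(((p : ℝ) ^ (-(1 / 2) : ℝ) : ℝ) : ℂ) - b p‖ ≤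
      Dp p * (p : ℝ) ^ (-(1 / 2) : ℝ) := by
    intro p hp
    have hpp := (Nat.mem_primesBelow.1 hp).2
    have hp1 : (1 : ℝ) ≤ p := by exact_mod_cast hpp.one_lt.le
    have hlog0 : 0 ≤ Real.log p := Real.log_nonneg hp1
    rw [hb, hDp]
    refine (bz_sub hT1 hz ξ hpp).trans ?_
    refine mul_le_mul_of_nonneg_right ?_ (by positivity)
    refine min_le_min le_rfl ?_
    refine mul_le_mul_of_nonneg_right ?_ (div_nonneg hlog0 (by linarith))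
    have h1 : Real.log S.T * ‖z1‖ ≤ 6 := by
      have := mul_le_mul_of_nonneg_left hz1 (show 0 ≤ Real.log S.T by linarith)
      rwa [mul_div_cancel₀ _ (by linarith : Real.log S.T ≠ 0)] at this
    have h2 : |(6 : ℝ)| = 6 := abs_of_pos (by norm_num)
    rw [ha, h2]
    linarith
  have hterm : ∀ p ∈ Nat.primesBelow M,
      ‖(((p : ℝ) ^ (-(1 / 2) : ℝ) : ℝ) : ℂ) - b p + 0 + (if p ∈ S.P then c p else 0)‖ ^ 2 ≤
      (if p ∈ S.P then ‖c p‖ ^ 2 else 0) + (6 * lam + 2) * (Dp p / (p : ℝ)) := by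
    intro p hp
    have hpp := (Nat.mem_primesBelow.1 hp).2
    have hp0 : (0 : ℝ) < p := by exact_mod_cast hpp.pos
    obtain ⟨hD0, hD2⟩ := hDp0 p hp
    have hu : 0 ≤ (p : ℝ) ^ (-(1 / 2) : ℝ) := by positivity
    have h1 := hyb p hp
    rw [add_zero]
    have hsq : (Dp p * (p : ℝ) ^ (-(1 / 2) : ℝ)) ^ 2 ≤ 2 * (Dp p / (p : ℝ)) := by
      rw [mul_pow, X1_sq]
      have : Dp p ^ 2 ≤ 2 * Dp p := by nlinarith
      calc Dp p ^ 2 * (1 / (p : ℝ)) ≤ 2 * Dp p * (1 / (p : ℝ)) :=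
            mul_le_mul_of_nonneg_right this (by positivity)
        _ = _ := by ring
    have hDpp : 0 ≤ Dp p / (p : ℝ) := div_nonneg hD0 hp0.le
    by_cases hpP : p ∈ S.P
    · rw [if_pos hpP, if_pos hpP]
      have h2 := (X1_c hS h0 hz2 hpP).1
      rw [← hc] at h2
      have h3 : ‖(((p : ℝ) ^ (-(1 / 2) : ℝ) : ℝ) : ℂ) - b p + c p‖ ≤
          Dp p * (p : ℝ) ^ (-(1 / 2) : ℝ) + ‖c p‖ := (norm_add_le _ _).trans (by linarith)
      have h4 : Dp p * (p : ℝ) ^ (-(1 / 2) : ℝ) * ‖c p‖ ≤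
          Dp p * (p : ℝ) ^ (-(1 / 2) : ℝ) * (3 * lam * (p : ℝ) ^ (-(1 / 2) : ℝ)) :=
        mul_le_mul_of_nonneg_left h2 (by positivity)
      have h5 : Dp p * (p : ℝ) ^ (-(1 / 2) : ℝ) * (3 * lam * (p : ℝ) ^ (-(1 / 2) : ℝ)) =
          3 * lam * (Dp p / (p : ℝ)) := by
        calc _ = 3 * lam * (Dp p * ((p : ℝ) ^ (-(1 / 2) : ℝ)) ^ 2) := by ring
          _ = _ := by
            rw [X1_sq]
            ring
      calc ‖(((p : ℝ) ^ (-(1 / 2) : ℝ) : ℝ) : ℂ) - b p + c p‖ ^ 2 ≤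
            (Dp p * (p : ℝ) ^ (-(1 / 2) : ℝ) + ‖c p‖) ^ 2 := pow_le_pow_left₀ (norm_nonneg _) h3 2
        _ = (Dp p * (p : ℝ) ^ (-(1 / 2) : ℝ)) ^ 2 +
            2 * (Dp p * (p : ℝ) ^ (-(1 / 2) : ℝ) * ‖c p‖) + ‖c p‖ ^ 2 := by ring
        _ ≤ 2 * (Dp p / (p : ℝ)) + 2 * (3 * lam * (Dp p / (p : ℝ))) + ‖c p‖ ^ 2 := by linarith
        _ = _ := by ring
    · rw [if_neg hpP, if_neg hpP, add_zero, zero_add]
      calc ‖(((p : ℝ) ^ (-(1 / 2) : ℝ) : ℝ) : ℂ) - b p‖ ^ 2 ≤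
            (Dp p * (p : ℝ) ^ (-(1 / 2) : ℝ)) ^ 2 := pow_le_pow_left₀ (norm_nonneg _) h1 2
        _ ≤ 2 * (Dp p / (p : ℝ)) := hsq
        _ ≤ _ := by nlinarith
  have hsum1 : ∑ p ∈ Nat.primesBelow M, (if p ∈ S.P then ‖c p‖ ^ 2 else 0) ≤
      lam ^ 2 * (∑ p ∈ S.P, 1 / (p : ℝ)) + 4 * lam ^ 2 * (1 + C2) := by
    rw [← Finset.sum_filter]
    have hf : (Nat.primesBelow M).filter (fun p => p ∈ S.P) = S.P := by
      ext p
      rw [Finset.mem_filter]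
      exact ⟨fun h => h.2, fun h => ⟨hPM h, h⟩⟩
    rw [hf]
    have hx0 : 0 ≤ |z2.re| * Real.log S.T := mul_nonneg (abs_nonneg _) (by linarith)
    have hx : |z2.re| * Real.log S.T ≤ 2 / (7 * θ ^ 3) := by
      have h1 := mul_le_mul_of_nonneg_right hz2 (show 0 ≤ Real.log S.T by linarith)
      have h2 : 2 / (7 * θ ^ 3 * Real.log S.T) * Real.log S.T = 2 / (7 * θ ^ 3) := by
        have : Real.log S.T ≠ 0 := by linarith
        field_simp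
      rwa [h2] at h1
    have hlen := X1_len hS
    have hb3 : (|z2.re| * Real.log S.T) * (θ ^ 5 + C2 / Real.log S.T) ≤ 1 + C2 := by
      have h1 : (|z2.re| * Real.log S.T) * (θ ^ 5 + C2 / Real.log S.T) ≤
          2 / (7 * θ ^ 3) * (θ ^ 5 + C2 / Real.log S.T) :=
        mul_le_mul_of_nonneg_right hx (by positivity)
      have h2 : 2 / (7 * θ ^ 3) * (θ ^ 5 + C2 / Real.log S.T) =
          2 / 7 * θ ^ 2 + 2 * C2 / (7 * θ ^ 3 * Real.log S.T) := by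
        have : Real.log S.T ≠ 0 := by linarith
        field_simp
      have h3 : θ ^ 2 ≤ (1 / 100 : ℝ) ^ 2 := pow_le_pow_left₀ hth.le hS.th_le 2
      have h4 : 2 * C2 / (7 * θ ^ 3 * Real.log S.T) ≤ 2 * C2 / 10 :=
        div_le_div_of_nonneg_left (by positivity) (by norm_num) hlen
      norm_num at h3
      rw [h2] at h1
      linarith
    calc ∑ p ∈ S.P, ‖c p‖ ^ 2 ≤ ∑ p ∈ S.P, (lam ^ 2 * (1 / (p : ℝ)) +
          4 * lam ^ 2 * (|z2.re| * Real.log S.T) * ((Real.log p / Real.log S.T) / (p : ℝ))) := by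
          refine Finset.sum_le_sum fun p hp => ?_
          rw [hc]
          exact (X1_c hS h0 hz2 hp).2
      _ = lam ^ 2 * (∑ p ∈ S.P, 1 / (p : ℝ)) + 4 * lam ^ 2 * ((|z2.re| * Real.log S.T) *
          ∑ p ∈ S.P, (Real.log p / Real.log S.T) / (p : ℝ)) := by
          rw [Finset.sum_add_distrib, ← Finset.mul_sum, ← Finset.mul_sum]
          ring
      _ ≤ lam ^ 2 * (∑ p ∈ S.P, 1 / (p : ℝ)) + 4 * lam ^ 2 * (1 + C2) := by
          refine add_le_add le_rfl (mul_le_mul_of_nonneg_left ?_ (by positivity))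
          exact (mul_le_mul_of_nonneg_left (hC2 hS) hx0).trans hb3
  have hsum2 : ∑ p ∈ Nat.primesBelow M, Dp p / (p : ℝ) ≤ C1 + 2 * Real.log a := by
    simp_rw [hDp]
    exact hC1 S.T a M hS.T_ge ha1 hM2
  have hsum : ∑ p ∈ Nat.primesBelow M,
      ‖(((p : ℝ) ^ (-(1 / 2) : ℝ) : ℝ) : ℂ) - b p + 0 + (if p ∈ S.P then c p else 0)‖ ^ 2 ≤
      lam ^ 2 * (∑ p ∈ S.P, 1 / (p : ℝ)) + (4 * lam ^ 2 * (1 + C2) + (6 * lam + 2) * C1) +
        Real.log a * (2 * (6 * lam + 2)) := by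
    refine (Finset.sum_le_sum hterm).trans ?_
    rw [Finset.sum_add_distrib, ← Finset.mul_sum]
    have h1 := mul_le_mul_of_nonneg_left hsum2 (show 0 ≤ 6 * lam + 2 by positivity)
    nlinarith
  have hapos : 0 < a := by linarith
  have hfin : Real.exp (Real.log a * (2 * (6 * lam + 2))) ≤
      (12 : ℝ) ^ (2 * (6 * lam + 2)) * (1 + |ξ|) ^ ⌈2 * (6 * lam + 2)⌉₊ := by
    rw [← Real.rpow_def_of_pos hapos]
    have h1 : a ≤ 12 * (1 + |ξ|) := by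
      rw [ha]
      linarith
    calc a ^ (2 * (6 * lam + 2)) ≤ (12 * (1 + |ξ|)) ^ (2 * (6 * lam + 2)) :=
          Real.rpow_le_rpow hapos.le h1 (by positivity)
      _ = (12 : ℝ) ^ (2 * (6 * lam + 2)) * (1 + |ξ|) ^ (2 * (6 * lam + 2)) :=
          Real.mul_rpow (by norm_num) (by positivity)
      _ ≤ (12 : ℝ) ^ (2 * (6 * lam + 2)) * (1 + |ξ|) ^ ⌈2 * (6 * lam + 2)⌉₊ := by
          refine mul_le_mul_of_nonneg_left ?_ (by positivity)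
          rw [← Real.rpow_natCast]
          exact Real.rpow_le_rpow_of_exponent_le (by linarith) (Nat.le_ceil _)
  calc K5 * Real.exp (∑ p ∈ Nat.primesBelow M,
      ‖(((p : ℝ) ^ (-(1 / 2) : ℝ) : ℝ) : ℂ) - b p + 0 + (if p ∈ S.P then c p else 0)‖ ^ 2) ≤
        K5 * Real.exp (lam ^ 2 * (∑ p ∈ S.P, 1 / (p : ℝ)) +
          (4 * lam ^ 2 * (1 + C2) + (6 * lam + 2) * C1) + Real.log a * (2 * (6 * lam + 2))) :=
        mul_le_mul_of_nonneg_left (Real.exp_le_exp.2 hsum) (by linarith)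
    _ = K5 * (Lam S lam * Real.exp (4 * lam ^ 2 * (1 + C2) + (6 * lam + 2) * C1) *
          Real.exp (Real.log a * (2 * (6 * lam + 2)))) := by
        rw [Real.exp_add, Real.exp_add]
        rfl
    _ ≤ K5 * (Lam S lam * Real.exp (4 * lam ^ 2 * (1 + C2) + (6 * lam + 2) * C1) *
          ((12 : ℝ) ^ (2 * (6 * lam + 2)) * (1 + |ξ|) ^ ⌈2 * (6 * lam + 2)⌉₊)) := by
        refine mul_le_mul_of_nonneg_left ?_ (by linarith)
        refine mul_le_mul_of_nonneg_left hfin ?_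
        exact mul_nonneg (Real.exp_pos _).le (Real.exp_pos _).le
    _ = _ := by ring

private theorem X1_one (lam : ℝ) (i : ℕ) {C0 K' : ℝ} {m : ℕ} (hK' : 1 ≤ K')
    (hxi : ∀ {S : BS} {Ct θ D1 : ℝ} {N0 : ℕ}, TG S Ct θ D1 N0 → C0 ≤ Ct → ∀ M : ℕ,
    S.T ^ (9 / 20 : ℝ) ≤ M → (M : ℝ) ≤ S.T ^ 2 → ∀ z1 z2 : ℂ, ‖z1‖ ≤ 6 / Real.log S.T →
    |z2.re| ≤ 2 / (7 * θ ^ 3 * Real.log S.T) → ∀ ξ : ℝ,
    ∫ w, ‖Zt (Nat.primesBelow M) (1 / 2) w‖ ^ 2 *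
      (∏ p ∈ Nat.primesBelow M, ‖1 - bz 6 S.T ξ z1 p * X p w‖ ^ 2) *
      ‖RT S lam (nX z2 w)‖ ^ 2 ∂mu ≤ K' * Lam S lam * (1 + |ξ|) ^ m) : ∃ K : ℝ, 1 ≤ K ∧
    ∀ {S : BS} {Ct θ D1 : ℝ} {N0 : ℕ}, TG S Ct θ D1 N0 → C0 ≤ Ct → ∀ M : ℕ,
    S.T ^ (9 / 20 : ℝ) ≤ M → (M : ℝ) ≤ S.T ^ 2 → ∀ z1 z2 : ℂ,
    ‖z1‖ ≤ 6 / Real.log S.T → |z2.re| ≤ 2 / (7 * θ ^ 3 * Real.log S.T) →
    ∫ w, ‖Zt (Nat.primesBelow M) (1 / 2) w‖ ^ 2 * ‖MO i S.T (nX z1 w)‖ ^ 2 *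
      ‖RT S lam (nX z2 w)‖ ^ 2 ∂mu ≤ K * Lam S lam := by
  obtain ⟨φ, hφ, hφi, hF⟩ := fourier_kernel5 i 6
  set A : ℝ := ∫ ξ, ‖φ ξ‖ with hA
  set A8 : ℝ := ∫ ξ : ℝ, (1 + |ξ|) ^ m * ‖φ ξ‖ with hA8
  refine ⟨max 1 (A * (K' * A8)), le_max_left _ _, ?_⟩
  intro S Ct θ D1 N0 hS hC M hM1 hM2 z1 z2 hz1 hz2
  obtain ⟨hL, hT0, hT1⟩ := X1_L hS
  have hT3 : Real.exp 3 ≤ S.T := (Real.exp_le_exp.2 (by norm_num)).trans hS.T_ge
  have hz : 0 ≤ z1.re + 6 / Real.log S.T := by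
    have h1 := (abs_le.1 ((Complex.abs_re_le_norm z1).trans hz1)).1
    linarith
  have hMO : ∀ w, MO i S.T (nX z1 w) = ∫ ξ : ℝ, φ ξ *
      ∏ q ∈ Nat.primesBelow M, (1 - bz 6 S.T ξ z1 q * X q w) := by
    intro w
    exact MO_eq (fun u => u ^ i * Pf u) (fun u hu => by
      change u ^ i * Pf u = 0
      rw [Pf_zero hu, mul_zero]) 6 φ hφ hφi hF hT3 hM1 z1 w
  have hpr : ∀ p ∈ Nat.primesBelow M, p.Prime := fun p hp => (Nat.mem_primesBelow.1 hp).2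
  have hcZ := continuous_Zt (Nat.primesBelow M) hpr (σ := 1 / 2) (by norm_num)
  have hcR : Continuous fun w => RT S lam (nX z2 w) := by
    unfold RT
    refine continuous_finsetProd _ fun j _ => ?_
    have h1 : Continuous fun w : Om => PS (S.R j) (nX z2 w) := continuous_PX (S.R j) z2
    exact (continuous_Ex (S.l j)).comp (continuous_const.mul h1)
  have hLam : 0 ≤ Lam S lam := (Real.exp_pos _).le
  have key := XR_cs hφ m (hφi m)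
    (g := fun ξ w => ∏ p ∈ Nat.primesBelow M, (1 - bz 6 S.T ξ z1 p * X p w))
    (B := 2 ^ (Nat.primesBelow M).card)
    (Y := fun w => ‖Zt (Nat.primesBelow M) (1 / 2) w‖ ^ 2 * ‖RT S lam (nX z2 w)‖ ^ 2)
    (E := K' * Lam S lam) (by
      refine continuous_finsetProd _ fun p hp => ?_
      have h2 : Continuous fun q : Om × ℝ => bz 6 S.T q.2 z1 p :=
        (bz_continuous 6 S.T z1 p).comp continuous_snd
      have h3 : Continuous fun q : Om × ℝ => X p q.1 := (continuous_X p).comp continuous_fst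
      exact continuous_const.sub (h2.mul h3)) (by
      intro ξ w
      rw [norm_prod, ← Finset.prod_const]
      refine Finset.prod_le_prod (fun _ _ => norm_nonneg _) fun p hp => ?_
      calc ‖1 - bz 6 S.T ξ z1 p * X p w‖ ≤ ‖(1 : ℂ)‖ + ‖bz 6 S.T ξ z1 p * X p w‖ :=
            norm_sub_le _ _
        _ ≤ 1 + 1 := by
          rw [norm_one, norm_mul, norm_X, mul_one]
          have h1 := bz_le hT1 hz ξ (hpr p hp)
          have h2 := (rpow_neg_lt_one (hpr p hp).two_le (show (0 : ℝ) < 1 / 2 by norm_num)).le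
          linarith
        _ = 2 := by norm_num)
    ((hcZ.norm.pow 2).mul (hcR.norm.pow 2)) (fun w => by positivity) (by
      intro ξ
      have h1 := hxi hS hC M hM1 hM2 z1 z2 hz1 hz2 ξ
      refine le_trans (le_of_eq ?_) h1
      congr 1
      funext w
      rw [norm_prod, ← Finset.prod_pow]
      ring)
  calc _ = ∫ w, ‖Zt (Nat.primesBelow M) (1 / 2) w‖ ^ 2 * ‖RT S lam (nX z2 w)‖ ^ 2 *
      ‖∫ ξ : ℝ, φ ξ * ∏ p ∈ Nat.primesBelow M, (1 - bz 6 S.T ξ z1 p * X p w)‖ ^ 2 ∂mu := by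
        congr 1
        funext w
        rw [hMO w]
        ring
    _ ≤ A * (K' * Lam S lam * A8) := key
    _ = A * (K' * A8) * Lam S lam := by ring
    _ ≤ _ := mul_le_mul_of_nonneg_right (le_max_right _ _) hLam

theorem XR1 (lam : ℝ) (h0 : 0 < lam) : ∃ C0 K : ℝ, 1 ≤ K ∧
    ∀ {S : BS} {Ct θ D1 : ℝ} {N0 : ℕ}, TG S Ct θ D1 N0 → C0 ≤ Ct → ∀ M : ℕ,
    S.T ^ (9 / 20 : ℝ) ≤ M → (M : ℝ) ≤ S.T ^ 2 → ∀ i ≤ 1, ∀ z1 z2 : ℂ,
    ‖z1‖ ≤ 6 / Real.log S.T → |z2.re| ≤ 2 / (7 * θ ^ 3 * Real.log S.T) →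
    ∫ w, ‖Zt (Nat.primesBelow M) (1 / 2) w‖ ^ 2 * ‖MO i S.T (nX z1 w)‖ ^ 2 *
      ‖RT S lam (nX z2 w)‖ ^ 2 ∂mu ≤ K * Lam S lam := by
  obtain ⟨C0, K', m, hK', hxi⟩ := XR1_xi lam h0
  obtain ⟨K0, hK0, h0'⟩ := X1_one lam 0 hK' hxi
  obtain ⟨K1, hK1, h1'⟩ := X1_one lam 1 hK' hxi
  refine ⟨C0, max K0 K1, hK0.trans (le_max_left _ _), ?_⟩
  intro S Ct θ D1 N0 hS hC M hM1 hM2 i hi z1 z2 hz1 hz2
  have hLam : 0 ≤ Lam S lam := (Real.exp_pos _).le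
  have hi' : i = 0 ∨ i = 1 := by omega
  rcases hi' with rfl | rfl
  · exact (h0' hS hC M hM1 hM2 z1 z2 hz1 hz2).trans
      (mul_le_mul_of_nonneg_right (le_max_left _ _) hLam)
  · exact (h1' hS hC M hM1 hM2 z1 z2 hz1 hz2).trans
      (mul_le_mul_of_nonneg_right (le_max_right _ _) hLam)

end Pool.Agent.LB
end

section

/-! TASK CB. Crude bounds with the random quadratic form. `wa 0 w = w`; for `b = true` `∑_{q ∈ Fb} wb β q XX q.1 conj(XX q.2) = ∑_{n ∈ GT} β(n) n^{-1/2} XX n = DPo T β (nX 0 w)`, for `b = false` its complex conjugate (`β` real). So `BB (M2 T) (Fb b T) (wb β) 0 = ∫ ‖Zt (primesBelow (M2 T)) (1/2)‖² ‖DPo T β (nX 0)‖²`.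
`BB_bt`: `DPo_bt`, `XR1` with `z1 = z2 = 0`, `M = M2 T` (`T^{9/20} ≤ M2 T ≤ T²`).
`BB_bt2`: `DPo_bt2`: `DPo T (bt2 T r) (nX 0 w) = MO 0 T (nX 0 w) · R'(w)`, `R'(w) = ∑ r(n)(log n/L) n^{-1/2} XX n = -(1/L) (d/dz) RT S lam (nX z w)` at `z = 0` (`Rp.eq`, a finite sum, entire in `z`). Cauchy on `|z| = ρ = 1/(7θ³L)`: `‖R'‖² ≤ (Lρ)^{-2} (1/2π)∫_0^{2π} ‖RT S lam (nX (ρe^{iϑ}) w)‖² dϑ`, `(Lρ)^{-2} = 49θ^6`; Fubini and `XR1` with `z2 = ρe^{iϑ}` (`|Re z2| ≤ 2/(7θ³L)`).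
`BB_be`: `‖cA+dB‖² ≤ 2c²‖A‖²+2d²‖B‖²` (`DPo` is linear in the coefficients).
`wa_sum`: `∑_{q ∈ Fb} ‖wa (-1/2) (wb β) q‖ = ∑_{n ∈ GT} |β n|/n` for `b = true`, `= ∑ |β n|` for `b = false`; `bt_l1`; `T^{-e0 b} ∑² ≤ T^{9/20 + 1/100}` resp. `T^{-9/20 + 457/500} = T^{232/500}`; both `≤ T^{12/25}`. -/

set_option autoImplicit false

namespace Pool.Agent.LB

open Complex MeasureTheory Finset Pool.Agent.GH Pool.Agent.UH Pool.Agent.UV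
open scoped Real ComplexConjugate

private theorem CB_inj (b : Bool) : Function.Injective (qs b) := by
  intro m n h
  cases b
  · simpa [qs] using h
  · simpa [qs] using h

private theorem CB_sum {E : Type*} [AddCommMonoid E] (b : Bool) (T : ℝ) (f : ℕ × ℕ → E) :
    ∑ q ∈ Fb b T, f q = ∑ n ∈ GT T, f (qs b n) := by
  unfold Fb
  exact Finset.sum_image fun m _ n _ h => CB_inj b h

private theorem CB_ne {T : ℝ} {n : ℕ} (hn : n ∈ GT T) : n ≠ 0 := by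
  unfold GT at hn
  rw [Finset.mem_Icc] at hn
  omega

private theorem CB_half (n : ℕ) : (((n : ℝ) ^ (-(1 / 2) : ℝ) : ℝ) : ℂ) = (n : ℂ) ^ (-(1 / 2 + 0) : ℂ) := by
  rw [Complex.ofReal_cpow (Nat.cast_nonneg n)]
  push_cast
  rw [add_zero]

theorem BB_eq (b : Bool) (M : ℕ) (T : ℝ) (β : ℕ → ℝ) : BB M (Fb b T) (wb β) 0 =
    ∫ v, ‖Zt (Nat.primesBelow M) (1 / 2) v‖ ^ 2 * ‖DPo T β (nX 0 v)‖ ^ 2 ∂mu := by
  unfold BB
  refine integral_congr_ae (Filter.Eventually.of_forall fun v => ?_)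
  beta_reduce
  rw [zero_div, sub_zero, CB_sum]
  congr 2
  cases b
  · have h : ∑ n ∈ GT T, wa 0 (wb β) (qs false n) * XX v (qs false n).1 *
        conj (XX v (qs false n).2) = conj (DPo T β (nX 0 v)) := by
      unfold DPo
      rw [map_sum]
      refine Finset.sum_congr rfl fun n hn => ?_
      have hn0 := CB_ne hn
      rw [map_mul, Complex.conj_ofReal, nX_apply 0 v hn0, map_mul, ← CB_half, Complex.conj_ofReal]
      unfold wa wb qs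
      simp only [Bool.false_eq_true, if_false, Real.rpow_zero, Complex.ofReal_one, mul_one, map_one,
        one_mul, Complex.ofReal_mul]
      ring
    rw [h, Complex.norm_conj]
  · have h : ∑ n ∈ GT T, wa 0 (wb β) (qs true n) * XX v (qs true n).1 *
        conj (XX v (qs true n).2) = DPo T β (nX 0 v) := by
      unfold DPo
      refine Finset.sum_congr rfl fun n hn => ?_
      have hn0 := CB_ne hn
      rw [nX_apply 0 v hn0, ← CB_half]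
      unfold wa wb qs
      simp only [if_true, Real.rpow_zero, Complex.ofReal_one, mul_one, map_one,
        Complex.ofReal_mul]
      ring
    rw [h]

private theorem CB_T {S : BS} {Ct θ D1 : ℝ} {N0 : ℕ} (hS : TG S Ct θ D1 N0) :
    1 < S.T ∧ 0 < Real.log S.T ∧ S.T ^ (9 / 20 : ℝ) ≤ (M2 S.T : ℝ) ∧ (M2 S.T : ℝ) ≤ S.T ^ 2 := by
  have hT := hS.T_ge
  have h1 : 1 < S.T := lt_of_lt_of_le (by rw [Real.one_lt_exp_iff]; norm_num) hT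
  have h2 : 2 ≤ S.T := by
    have := Real.add_one_le_exp (1000 : ℝ)
    linarith
  refine ⟨h1, Real.log_pos h1, ?_, ?_⟩
  · have h3 : S.T ^ (9 / 20 : ℝ) ≤ S.T := by
      calc S.T ^ (9 / 20 : ℝ) ≤ S.T ^ (1 : ℝ) := Real.rpow_le_rpow_of_exponent_le h1.le (by norm_num)
        _ = S.T := Real.rpow_one _
    have h4 : S.T ^ 2 - 1 < (M2 S.T : ℝ) := by
      have := Nat.lt_floor_add_one (S.T ^ 2)
      unfold M2
      linarith
    nlinarith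
  · unfold M2
    exact Nat.floor_le (sq_nonneg _)

private theorem CB_Zt (M : ℕ) : Continuous (fun v : Om => ‖Zt (Nat.primesBelow M) (1 / 2) v‖ ^ 2) :=
  (continuous_Zt _ (fun _ hp => Nat.prime_of_mem_primesBelow hp) (by norm_num)).norm.pow 2

private theorem CB_MO (i : ℕ) (T : ℝ) (z : ℂ) : Continuous (fun v : Om => MO i T (nX z v)) := by
  unfold MO
  exact continuous_finsetSum _ fun n _ => continuous_const.mul (continuous_nX z n)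

private theorem CB_RT (S : BS) (κ : ℝ) (z : ℂ) : Continuous (fun v : Om => RT S κ (nX z v)) := by
  unfold RT PS
  refine continuous_finsetProd _ fun j _ => (continuous_Ex _).comp (continuous_const.mul ?_)
  exact continuous_finsetSum _ fun n _ => continuous_nX z n

private theorem CB_th {θ L : ℝ} (hθ : 0 < θ) (hL : 0 < L) : |(0 : ℂ).re| ≤ 2 / (7 * θ ^ 3 * L) := by
  rw [Complex.zero_re, abs_zero]
  positivity

theorem BB_be (lam : ℝ) (h0 : 0 < lam) : ∃ C0 K : ℝ, 1 ≤ K ∧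
    ∀ {S : BS} {Ct θ D1 : ℝ} {N0 : ℕ}, TG S Ct θ D1 N0 → C0 ≤ Ct → ∀ r : ℕ → ℝ, Rp S lam θ r →
    ∀ (b : Bool) (c d : ℝ), |c| ≤ 10 → |d| ≤ 10 →
    BB (M2 S.T) (Fb b S.T) (wb (be S.T r c d)) 0 ≤ K * Lam S lam := by
  obtain ⟨C0, K, hK, H⟩ := XR1 lam h0
  refine ⟨C0, 400 * K, by linarith, ?_⟩
  intro S Ct θ D1 N0 hS hC r hr b c d hc hd
  obtain ⟨hT1, hL, hM1, hM2⟩ := CB_T hS
  rw [BB_eq]
  have hz : ‖(0 : ℂ)‖ ≤ 6 / Real.log S.T := by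
    rw [norm_zero]
    positivity
  have A0 := H hS hC (M2 S.T) hM1 hM2 0 (by norm_num) 0 0 hz (CB_th hS.th_pos hL)
  have A1 := H hS hC (M2 S.T) hM1 hM2 1 le_rfl 0 0 hz (CB_th hS.th_pos hL)
  have e1 : ∀ v, DPo S.T (be S.T r c d) (nX 0 v) =
      (c * MO 0 S.T (nX 0 v) + d * MO 1 S.T (nX 0 v)) * RT S lam (nX 0 v) := by
    intro v
    have g1 := DPo_bt hS hr 0 (nX 0 v)
    have g2 := DPo_bt hS hr 1 (nX 0 v)
    have g3 : DPo S.T (be S.T r c d) (nX 0 v) =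
        c * DPo S.T (bt 0 S.T r) (nX 0 v) + d * DPo S.T (bt 1 S.T r) (nX 0 v) := by
      unfold DPo be
      rw [Finset.mul_sum, Finset.mul_sum, ← Finset.sum_add_distrib]
      refine Finset.sum_congr rfl fun n _ => ?_
      push_cast
      ring
    rw [g3, g1, g2]
    ring
  have hc2 : c ^ 2 ≤ 100 := by
    have := sq_abs c
    nlinarith [abs_nonneg c]
  have hd2 : d ^ 2 ≤ 100 := by
    have := sq_abs d
    nlinarith [abs_nonneg d]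
  have cZ := CB_Zt (M2 S.T)
  have i0 : Integrable (fun v => ‖Zt (Nat.primesBelow (M2 S.T)) (1 / 2) v‖ ^ 2 *
      ‖MO 0 S.T (nX 0 v)‖ ^ 2 * ‖RT S lam (nX 0 v)‖ ^ 2) mu :=
    integrable_of_continuous ((cZ.mul ((CB_MO 0 S.T 0).norm.pow 2)).mul ((CB_RT S lam 0).norm.pow 2))
  have i1 : Integrable (fun v => ‖Zt (Nat.primesBelow (M2 S.T)) (1 / 2) v‖ ^ 2 *
      ‖MO 1 S.T (nX 0 v)‖ ^ 2 * ‖RT S lam (nX 0 v)‖ ^ 2) mu :=
    integrable_of_continuous ((cZ.mul ((CB_MO 1 S.T 0).norm.pow 2)).mul ((CB_RT S lam 0).norm.pow 2))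
  have cD : Continuous (fun v => DPo S.T (be S.T r c d) (nX 0 v)) := by
    unfold DPo
    exact continuous_finsetSum _ fun n _ => continuous_const.mul (continuous_nX 0 n)
  have iD : Integrable (fun v => ‖Zt (Nat.primesBelow (M2 S.T)) (1 / 2) v‖ ^ 2 *
      ‖DPo S.T (be S.T r c d) (nX 0 v)‖ ^ 2) mu :=
    integrable_of_continuous (cZ.mul (cD.norm.pow 2))
  calc ∫ v, ‖Zt (Nat.primesBelow (M2 S.T)) (1 / 2) v‖ ^ 2 *
        ‖DPo S.T (be S.T r c d) (nX 0 v)‖ ^ 2 ∂mu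
      ≤ ∫ v, (200 * (‖Zt (Nat.primesBelow (M2 S.T)) (1 / 2) v‖ ^ 2 *
          ‖MO 0 S.T (nX 0 v)‖ ^ 2 * ‖RT S lam (nX 0 v)‖ ^ 2) +
          200 * (‖Zt (Nat.primesBelow (M2 S.T)) (1 / 2) v‖ ^ 2 *
          ‖MO 1 S.T (nX 0 v)‖ ^ 2 * ‖RT S lam (nX 0 v)‖ ^ 2)) ∂mu := by
        refine integral_mono iD ((i0.const_mul 200).add (i1.const_mul 200)) fun v => ?_
        beta_reduce
        rw [e1, norm_mul, mul_pow]
        set Z := ‖Zt (Nat.primesBelow (M2 S.T)) (1 / 2) v‖ ^ 2 with hZ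
        have hZ0 : 0 ≤ Z := sq_nonneg _
        set R := ‖RT S lam (nX 0 v)‖ ^ 2 with hR
        have hR0 : 0 ≤ R := sq_nonneg _
        have h1 : ‖(c : ℂ) * MO 0 S.T (nX 0 v) + d * MO 1 S.T (nX 0 v)‖ ^ 2 ≤
            200 * ‖MO 0 S.T (nX 0 v)‖ ^ 2 + 200 * ‖MO 1 S.T (nX 0 v)‖ ^ 2 := by
          have h2 := norm_add_le ((c : ℂ) * MO 0 S.T (nX 0 v)) (d * MO 1 S.T (nX 0 v))
          rw [norm_mul, norm_mul, Complex.norm_real, Complex.norm_real, Real.norm_eq_abs,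
            Real.norm_eq_abs] at h2
          have h3 : ‖(c : ℂ) * MO 0 S.T (nX 0 v) + d * MO 1 S.T (nX 0 v)‖ ^ 2 ≤
              (|c| * ‖MO 0 S.T (nX 0 v)‖ + |d| * ‖MO 1 S.T (nX 0 v)‖) ^ 2 :=
            pow_le_pow_left₀ (norm_nonneg _) h2 2
          have h4 : (|c| * ‖MO 0 S.T (nX 0 v)‖ + |d| * ‖MO 1 S.T (nX 0 v)‖) ^ 2 ≤
              2 * c ^ 2 * ‖MO 0 S.T (nX 0 v)‖ ^ 2 + 2 * d ^ 2 * ‖MO 1 S.T (nX 0 v)‖ ^ 2 := by
            rw [← sq_abs c, ← sq_abs d]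
            nlinarith [sq_nonneg (|c| * ‖MO 0 S.T (nX 0 v)‖ - |d| * ‖MO 1 S.T (nX 0 v)‖)]
          have h5 : 2 * c ^ 2 * ‖MO 0 S.T (nX 0 v)‖ ^ 2 ≤ 200 * ‖MO 0 S.T (nX 0 v)‖ ^ 2 :=
            mul_le_mul_of_nonneg_right (by linarith) (sq_nonneg _)
          have h6 : 2 * d ^ 2 * ‖MO 1 S.T (nX 0 v)‖ ^ 2 ≤ 200 * ‖MO 1 S.T (nX 0 v)‖ ^ 2 :=
            mul_le_mul_of_nonneg_right (by linarith) (sq_nonneg _)
          linarith
        calc Z * (‖(c : ℂ) * MO 0 S.T (nX 0 v) + d * MO 1 S.T (nX 0 v)‖ ^ 2 * R)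
            ≤ Z * ((200 * ‖MO 0 S.T (nX 0 v)‖ ^ 2 + 200 * ‖MO 1 S.T (nX 0 v)‖ ^ 2) * R) :=
              mul_le_mul_of_nonneg_left (mul_le_mul_of_nonneg_right h1 hR0) hZ0
          _ = _ := by ring
    _ = 200 * (∫ v, ‖Zt (Nat.primesBelow (M2 S.T)) (1 / 2) v‖ ^ 2 *
          ‖MO 0 S.T (nX 0 v)‖ ^ 2 * ‖RT S lam (nX 0 v)‖ ^ 2 ∂mu) +
          200 * ∫ v, ‖Zt (Nat.primesBelow (M2 S.T)) (1 / 2) v‖ ^ 2 *
          ‖MO 1 S.T (nX 0 v)‖ ^ 2 * ‖RT S lam (nX 0 v)‖ ^ 2 ∂mu := by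
        rw [integral_add (i0.const_mul 200) (i1.const_mul 200), integral_const_mul,
          integral_const_mul]
    _ ≤ 400 * K * Lam S lam := by linarith

/-- The character with a purely imaginary shift. -/
private theorem CB_shift {B : ℝ} (ξ : ℝ) (w : Om) {n : ℕ} (hn : n ≠ 0) :
    nX (-(2 * π * ξ / B * I)) w n =
      cexp (2 * π * (Real.log n / B : ℝ) * ξ * I) * nX 0 w n := by
  have hn' : (n : ℂ) ≠ 0 := by exact_mod_cast hn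
  rw [nX_apply _ w hn, nX_apply _ w hn]
  have h1 : (-(1 / 2 + -(2 * π * ξ / B * I)) : ℂ) = (2 * π * ξ / B * I) + -(1 / 2 + 0) := by ring
  rw [h1, Complex.cpow_add _ _ hn', Complex.cpow_def_of_ne_zero hn' (2 * π * ξ / B * I)]
  have h2 : Complex.log (n : ℂ) = ((Real.log n : ℝ) : ℂ) := (Complex.natCast_log).symm
  rw [h2]
  have h3 : ((Real.log n : ℝ) : ℂ) * (2 * π * ξ / B * I) =
      2 * π * ((Real.log n / B : ℝ) : ℂ) * ξ * I := by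
    push_cast
    ring
  rw [h3]
  ring

private theorem CB_norm (ξ B : ℝ) (w : Om) {n : ℕ} (hn : n ≠ 0) :
    ‖nX (-(2 * π * ξ / B * I)) w n‖ ≤ 1 := by
  rw [norm_nX _ w hn]
  have hre : (-(2 * π * ξ / B * I) : ℂ).re = 0 := by
    have h1 : (-(2 * π * ξ / B * I) : ℂ) = ((-(2 * π * ξ / B) : ℝ) : ℂ) * I := by
      push_cast
      ring
    rw [h1, Complex.re_ofReal_mul, Complex.I_re, mul_zero]
  rw [hre]
  have hn1 : (1 : ℝ) ≤ n := by exact_mod_cast Nat.one_le_iff_ne_zero.2 hn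
  exact Real.rpow_le_one_of_one_le_of_nonpos hn1 (by norm_num)

private theorem CB_cont {S : BS} {lam θ B : ℝ} {r : ℕ → ℝ} (hr : Rp S lam θ r) :
    Continuous (fun q : Om × ℝ => RT S lam (nX (-(2 * π * q.2 / B * I)) q.1)) := by
  have h1 : (fun q : Om × ℝ => RT S lam (nX (-(2 * π * q.2 / B * I)) q.1)) =
      fun q => ∑ n ∈ Finset.Icc 1 ⌊S.T ^ (1 / 100 : ℝ)⌋₊,
        (r n : ℂ) * (cexp (2 * π * (Real.log n / B : ℝ) * q.2 * I) * nX 0 q.1 n) := by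
    funext q
    rw [hr.eq]
    refine Finset.sum_congr rfl fun n hn => ?_
    rw [Finset.mem_Icc] at hn
    rw [CB_shift q.2 q.1 (by omega)]
  rw [h1]
  refine continuous_finsetSum _ fun n _ => continuous_const.mul ?_
  refine Continuous.mul ?_ ((continuous_nX 0 n).comp continuous_fst)
  fun_prop

private theorem CB_bd {S : BS} {lam θ : ℝ} {r : ℕ → ℝ} (hr : Rp S lam θ r) (B ξ : ℝ) (w : Om) :
    ‖RT S lam (nX (-(2 * π * ξ / B * I)) w)‖ ≤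
      ∑ n ∈ Finset.Icc 1 ⌊S.T ^ (1 / 100 : ℝ)⌋₊, |r n| := by
  rw [hr.eq]
  refine norm_sum_le_of_le _ fun n hn => ?_
  rw [Finset.mem_Icc] at hn
  rw [norm_mul, Complex.norm_real, Real.norm_eq_abs]
  have := CB_norm ξ B w (n := n) (by omega)
  exact mul_le_of_le_one_right (abs_nonneg _) this

private theorem CB_rep {S : BS} {Ct θ D1 lam : ℝ} {N0 : ℕ} (hS : TG S Ct θ D1 N0) {r : ℕ → ℝ}
    (hr : Rp S lam θ r) {φ : ℝ → ℂ} (hφ : Continuous φ) (hφi : Integrable fun ξ : ℝ => ‖φ ξ‖)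
    (hF : ∀ u : ℝ, 0 ≤ u → ((u ^ 1 * Pf u : ℝ) : ℂ) =
      (Real.exp (-(0 * u)) : ℂ) * ∫ ξ : ℝ, φ ξ * cexp (2 * π * u * ξ * I)) (w : Om) :
    ∑ n ∈ Finset.Icc 1 ⌊S.T ^ (1 / 100 : ℝ)⌋₊, ((r n * (Real.log n / Real.log S.T) : ℝ) : ℂ) *
      nX 0 w n = ((3500 * θ ^ 3 : ℝ) : ℂ) *
      ∫ ξ : ℝ, φ ξ * RT S lam (nX (-(2 * π * ξ / ((3500 * θ ^ 3 * Real.log S.T : ℝ) : ℂ) * I)) w) := by
  obtain ⟨hT1, hL, -, -⟩ := CB_T hS
  have hθ := hS.th_pos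
  set B : ℝ := 3500 * θ ^ 3 * Real.log S.T with hB
  have hB0 : 0 < B := by positivity
  have hφI : Integrable φ := by
    refine (MeasureTheory.integrable_norm_iff hφ.aestronglyMeasurable).1 hφi
  have hexp : ∀ u ξ : ℝ, ‖cexp (2 * π * u * ξ * I)‖ = 1 := by
    intro u ξ
    have h1 : (2 * π * u * ξ * I : ℂ) = ((2 * π * u * ξ : ℝ) : ℂ) * I := by
      push_cast
      ring
    rw [h1, Complex.norm_exp_ofReal_mul_I]
  have hint : ∀ u : ℝ, Integrable (fun ξ : ℝ => φ ξ * cexp (2 * π * u * ξ * I)) := by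
    intro u
    refine hφi.mono' ?_ (Filter.Eventually.of_forall fun ξ => ?_)
    · have : Continuous (fun ξ : ℝ => φ ξ * cexp (2 * π * u * ξ * I)) := by fun_prop
      exact this.aestronglyMeasurable
    · rw [norm_mul, hexp, mul_one]
  have h1 : ∀ ξ : ℝ, φ ξ * RT S lam (nX (-(2 * π * ξ / (B : ℂ) * I)) w) =
      ∑ n ∈ Finset.Icc 1 ⌊S.T ^ (1 / 100 : ℝ)⌋₊, ((r n : ℂ) * nX 0 w n) *
        (φ ξ * cexp (2 * π * (Real.log n / B : ℝ) * ξ * I)) := by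
    intro ξ
    rw [hr.eq, Finset.mul_sum]
    refine Finset.sum_congr rfl fun n hn => ?_
    rw [Finset.mem_Icc] at hn
    rw [CB_shift ξ w (by omega)]
    ring
  simp_rw [h1]
  rw [integral_finsetSum _ fun n _ => (hint _).const_mul _, Finset.mul_sum]
  refine Finset.sum_congr rfl fun n hn => ?_
  rw [Finset.mem_Icc] at hn
  rw [integral_const_mul]
  have hn0 : n ≠ 0 := by omega
  have hn1 : (1 : ℝ) ≤ n := by exact_mod_cast hn.1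
  by_cases hrn : r n = 0
  · rw [hrn]
    simp
  · obtain ⟨-, hle⟩ := hr.supp n hrn
    have hl0 : 0 ≤ Real.log n := Real.log_nonneg hn1
    have hl1 : Real.log n ≤ 7 * θ ^ 3 * Real.log S.T := by
      have := Real.log_le_log (by linarith) hle
      rwa [Real.log_rpow (by linarith)] at this
    have hu0 : 0 ≤ Real.log n / B := by positivity
    have hu1 : Real.log n / B ≤ 1 / 500 := by
      rw [div_le_iff₀ hB0, hB]
      linarith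
    have h2 := hF (Real.log n / B) hu0
    rw [Pf_one hu1, zero_mul, neg_zero, Real.exp_zero, Complex.ofReal_one, one_mul, pow_one,
      mul_one] at h2
    rw [← h2]
    have h3 : r n * (Real.log n / Real.log S.T) = 3500 * θ ^ 3 * (r n * (Real.log n / B)) := by
      rw [hB]
      field_simp
    rw [h3]
    push_cast
    ring

private theorem CB_fin {F Y : Om → ℝ} {R : Om → ℂ} {c E : ℝ} (h : ∀ v, F v = c ^ 2 * (Y v * ‖R v‖ ^ 2))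
    (hcs : ∫ w, Y w * ‖R w‖ ^ 2 ∂mu ≤ E) : ∫ v, F v ∂mu ≤ c ^ 2 * E := by
  have h1 : ∫ v, F v ∂mu = ∫ v, c ^ 2 * (Y v * ‖R v‖ ^ 2) ∂mu :=
    integral_congr_ae (Filter.Eventually.of_forall h)
  rw [h1, integral_const_mul]
  exact mul_le_mul_of_nonneg_left hcs (sq_nonneg _)

/-- The shifts. -/
private noncomputable def CB_z (B ξ : ℝ) : ℂ := -(2 * π * ξ / B * I)

private theorem CB_z_re (B ξ : ℝ) : (CB_z B ξ).re = 0 := by
  have h1 : CB_z B ξ = ((-(2 * π * ξ / B) : ℝ) : ℂ) * I := by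
    unfold CB_z
    push_cast
    ring
  rw [h1, Complex.re_ofReal_mul, Complex.I_re, mul_zero]

private theorem CB_cs {lam K : ℝ} {φ : ℝ → ℂ} (hφ : Continuous φ)
    (hφi : ∀ m : ℕ, Integrable (fun ξ : ℝ => (1 + |ξ|) ^ m * ‖φ ξ‖))
    {S : BS} {Ct θ D1 : ℝ} {N0 : ℕ} (hS : TG S Ct θ D1 N0) {r : ℕ → ℝ} (hr : Rp S lam θ r) (B : ℝ)
    (H : ∀ z2 : ℂ, |z2.re| ≤ 2 / (7 * θ ^ 3 * Real.log S.T) →
      ∫ w, ‖Zt (Nat.primesBelow (M2 S.T)) (1 / 2) w‖ ^ 2 * ‖MO 0 S.T (nX 0 w)‖ ^ 2 *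
      ‖RT S lam (nX z2 w)‖ ^ 2 ∂mu ≤ K * Lam S lam) :
    ∫ w, (‖Zt (Nat.primesBelow (M2 S.T)) (1 / 2) w‖ ^ 2 * ‖MO 0 S.T (nX 0 w)‖ ^ 2) *
      ‖∫ ξ : ℝ, φ ξ * RT S lam (nX (CB_z B ξ) w)‖ ^ 2 ∂mu ≤
      (∫ ξ, ‖φ ξ‖) * (K * Lam S lam * ∫ ξ : ℝ, ‖φ ξ‖) := by
  obtain ⟨hT1, hL, -, -⟩ := CB_T hS
  have hθ := hS.th_pos
  have hE : ∀ ξ : ℝ, ∫ w, (‖Zt (Nat.primesBelow (M2 S.T)) (1 / 2) w‖ ^ 2 *
      ‖MO 0 S.T (nX 0 w)‖ ^ 2) * ‖RT S lam (nX (CB_z B ξ) w)‖ ^ 2 ∂mu ≤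
      K * Lam S lam * (1 + |ξ|) ^ 0 := by
    intro ξ
    rw [pow_zero, mul_one]
    refine H _ ?_
    rw [CB_z_re, abs_zero]
    positivity
  have hY : Continuous (fun w : Om => ‖Zt (Nat.primesBelow (M2 S.T)) (1 / 2) w‖ ^ 2 *
      ‖MO 0 S.T (nX 0 w)‖ ^ 2) := (CB_Zt _).mul ((CB_MO 0 S.T 0).norm.pow 2)
  have hg : Continuous (fun q : Om × ℝ => RT S lam (nX (CB_z B q.2) q.1)) := CB_cont hr
  have hb : ∀ (ξ : ℝ) (w : Om), ‖RT S lam (nX (CB_z B ξ) w)‖ ≤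
      ∑ n ∈ Finset.Icc 1 ⌊S.T ^ (1 / 100 : ℝ)⌋₊, |r n| := fun ξ w => CB_bd hr B ξ w
  have hcs := XR_cs hφ 0 (hφi 0) (g := fun ξ w => RT S lam (nX (CB_z B ξ) w)) hg hb
    (Y := fun w => ‖Zt (Nat.primesBelow (M2 S.T)) (1 / 2) w‖ ^ 2 * ‖MO 0 S.T (nX 0 w)‖ ^ 2)
    hY (fun w => mul_nonneg (sq_nonneg _) (sq_nonneg _)) hE
  have e0 : ∫ ξ : ℝ, (1 + |ξ|) ^ 0 * ‖φ ξ‖ = ∫ ξ : ℝ, ‖φ ξ‖ := by
    refine integral_congr_ae (Filter.Eventually.of_forall fun ξ => ?_)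
    beta_reduce
    rw [pow_zero, one_mul]
  rw [e0] at hcs
  exact hcs

theorem BB_bt2 (lam : ℝ) (h0 : 0 < lam) : ∃ C0 K : ℝ, 1 ≤ K ∧
    ∀ {S : BS} {Ct θ D1 : ℝ} {N0 : ℕ}, TG S Ct θ D1 N0 → C0 ≤ Ct → ∀ r : ℕ → ℝ, Rp S lam θ r →
    ∀ b : Bool, BB (M2 S.T) (Fb b S.T) (wb (bt2 S.T r)) 0 ≤ K * θ ^ 6 * Lam S lam := by
  obtain ⟨C0, K, hK, H⟩ := XR1 lam h0
  obtain ⟨φ, hφ, hφi, hF⟩ := fourier_kernel5 1 0
  have hφi0 : Integrable (fun ξ : ℝ => ‖φ ξ‖) := by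
    have := hφi 0
    simpa only [pow_zero, one_mul] using this
  have hA0 : 0 ≤ ∫ ξ, ‖φ ξ‖ := integral_nonneg fun ξ => norm_nonneg _
  refine ⟨C0, 1 + 3500 ^ 2 * ((∫ ξ, ‖φ ξ‖) * (K * ∫ ξ, ‖φ ξ‖)), ?_, ?_⟩
  · have : 0 ≤ 3500 ^ 2 * ((∫ ξ, ‖φ ξ‖) * (K * ∫ ξ, ‖φ ξ‖)) := by positivity
    linarith
  intro S Ct θ D1 N0 hS hC r hr b
  obtain ⟨hT1, hL, hM1, hM2⟩ := CB_T hS
  have hθ := hS.th_pos
  have hLam : 0 < Lam S lam := Real.exp_pos _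
  have hz : ‖(0 : ℂ)‖ ≤ 6 / Real.log S.T := by
    rw [norm_zero]
    positivity
  have hcs := CB_cs hφ hφi hS hr (3500 * θ ^ 3 * Real.log S.T) (K := K)
    (fun z2 hz2 => H hS hC (M2 S.T) hM1 hM2 0 (by norm_num) 0 z2 hz hz2)
  have e1 : ∀ v, ‖Zt (Nat.primesBelow (M2 S.T)) (1 / 2) v‖ ^ 2 *
      ‖DPo S.T (bt2 S.T r) (nX 0 v)‖ ^ 2 = (3500 * θ ^ 3) ^ 2 *
      ((‖Zt (Nat.primesBelow (M2 S.T)) (1 / 2) v‖ ^ 2 * ‖MO 0 S.T (nX 0 v)‖ ^ 2) *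
      ‖∫ ξ : ℝ, φ ξ * RT S lam (nX (CB_z (3500 * θ ^ 3 * Real.log S.T) ξ) v)‖ ^ 2) := by
    intro v
    have g1 := CB_rep hS hr hφ hφi0 hF v
    rw [DPo_bt2 hS hr, g1, norm_mul, norm_mul, Complex.norm_real,
      Real.norm_of_nonneg (by positivity)]
    unfold CB_z
    ring
  have h6 : (0 : ℝ) ≤ θ ^ 6 * Lam S lam := by positivity
  rw [BB_eq]
  refine (CB_fin e1 hcs).trans ?_
  generalize (∫ ξ, ‖φ ξ‖) = A at hA0 ⊢
  calc (3500 * θ ^ 3) ^ 2 * (A * (K * Lam S lam * A))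
      = 3500 ^ 2 * (A * (K * A)) * (θ ^ 6 * Lam S lam) := by ring
    _ ≤ (1 + 3500 ^ 2 * (A * (K * A))) * (θ ^ 6 * Lam S lam) :=
        mul_le_mul_of_nonneg_right (by linarith) h6
    _ = (1 + 3500 ^ 2 * (A * (K * A))) * θ ^ 6 * Lam S lam := by ring

private theorem CB_wa (b : Bool) (β : ℕ → ℝ) {n : ℕ} (hn : n ≠ 0) :
    ‖wa (-1 / 2) (wb β) (qs b n)‖ = if b then |β n| / n else |β n| := by
  have hn0 : (0 : ℝ) < n := by exact_mod_cast Nat.pos_of_ne_zero hn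
  have h1 : (n : ℝ) ^ (-(1 / 2) : ℝ) * (n : ℝ) ^ (-1 / 2 : ℝ) = (n : ℝ)⁻¹ := by
    rw [← Real.rpow_add hn0, ← Real.rpow_neg_one]
    norm_num
  have h2 : (n : ℝ) ^ (-(1 / 2) : ℝ) * (1 / (n : ℝ)) ^ (-1 / 2 : ℝ) = 1 := by
    rw [one_div (n : ℝ), Real.inv_rpow hn0.le, ← Real.rpow_neg hn0.le, ← Real.rpow_add hn0]
    norm_num
  cases b
  · unfold wa wb qs
    simp only [Bool.false_eq_true, if_false, one_mul, Nat.cast_one]
    rw [norm_mul, Complex.norm_real, Complex.norm_real, Real.norm_eq_abs, Real.norm_eq_abs,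
      abs_mul, abs_of_nonneg (Real.rpow_nonneg hn0.le _),
      abs_of_nonneg (Real.rpow_nonneg (by positivity) _), mul_assoc, h2, mul_one]
  · unfold wa wb qs
    simp only [if_true, mul_one, Nat.cast_one, div_one]
    rw [norm_mul, Complex.norm_real, Complex.norm_real, Real.norm_eq_abs, Real.norm_eq_abs,
      abs_mul, abs_of_nonneg (Real.rpow_nonneg hn0.le _),
      abs_of_nonneg (Real.rpow_nonneg hn0.le _), mul_assoc, h1, div_eq_mul_inv]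

/-- The two sums. -/
private theorem CB_l1 {S : BS} {Ct θ D1 lam : ℝ} {N0 : ℕ} (hS : TG S Ct θ D1 N0) {r : ℕ → ℝ}
    (hr : Rp S lam θ r) {β : ℕ → ℝ}
    (hβ : β = bt2 S.T r ∨ ∃ c d : ℝ, |c| ≤ 10 ∧ |d| ≤ 10 ∧ β = be S.T r c d) :
    ∑ n ∈ GT S.T, |β n| ≤ 20 * S.T ^ (457 / 1000 : ℝ) ∧
    ∑ n ∈ GT S.T, |β n| / (n : ℝ) ≤ 20 * ((1 + Real.log S.T) * S.T ^ (7 * θ ^ 3)) := by
  obtain ⟨hT1, hL, -, -⟩ := CB_T hS
  obtain ⟨a1, a2, a3, a4⟩ := bt_l1 hS hr (i := 0) (by norm_num)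
  obtain ⟨b1, -, b3, -⟩ := bt_l1 hS hr (i := 1) le_rfl
  have p1 : 0 ≤ S.T ^ (457 / 1000 : ℝ) := by positivity
  have p2 : 0 ≤ (1 + Real.log S.T) * S.T ^ (7 * θ ^ 3) := by positivity
  rcases hβ with rfl | ⟨c, d, hc, hd, rfl⟩
  · exact ⟨by linarith, by linarith⟩
  · have h1 : ∀ n, |be S.T r c d n| ≤ 10 * |bt 0 S.T r n| + 10 * |bt 1 S.T r n| := by
      intro n
      unfold be
      refine (abs_add_le _ _).trans ?_
      rw [abs_mul, abs_mul]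
      exact add_le_add (mul_le_mul_of_nonneg_right hc (abs_nonneg _))
        (mul_le_mul_of_nonneg_right hd (abs_nonneg _))
    constructor
    · calc ∑ n ∈ GT S.T, |be S.T r c d n|
          ≤ ∑ n ∈ GT S.T, (10 * |bt 0 S.T r n| + 10 * |bt 1 S.T r n|) :=
            Finset.sum_le_sum fun n _ => h1 n
        _ = 10 * ∑ n ∈ GT S.T, |bt 0 S.T r n| + 10 * ∑ n ∈ GT S.T, |bt 1 S.T r n| := by
            rw [Finset.sum_add_distrib, Finset.mul_sum, Finset.mul_sum]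
        _ ≤ 20 * S.T ^ (457 / 1000 : ℝ) := by linarith
    · calc ∑ n ∈ GT S.T, |be S.T r c d n| / (n : ℝ)
          ≤ ∑ n ∈ GT S.T, (10 * (|bt 0 S.T r n| / (n : ℝ)) + 10 * (|bt 1 S.T r n| / (n : ℝ))) := by
            refine Finset.sum_le_sum fun n _ => ?_
            have := div_le_div_of_nonneg_right (h1 n) (Nat.cast_nonneg (α := ℝ) n)
            refine this.trans (le_of_eq ?_)
            ring
        _ = 10 * ∑ n ∈ GT S.T, |bt 0 S.T r n| / (n : ℝ) +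
              10 * ∑ n ∈ GT S.T, |bt 1 S.T r n| / (n : ℝ) := by
            rw [Finset.sum_add_distrib, Finset.mul_sum, Finset.mul_sum]
        _ ≤ 20 * ((1 + Real.log S.T) * S.T ^ (7 * θ ^ 3)) := by linarith

private theorem CB_big {x : ℝ} (hx : 10 ^ 7 ≤ x) : 400 * (1 + x) ^ 2 ≤ Real.exp (x / 100) := by
  have h1 : 20 * (1 + x) ≤ (1 + x / 400) ^ 2 := by nlinarith
  have h2 : 1 + x / 400 ≤ Real.exp (x / 400) := by
    have := Real.add_one_le_exp (x / 400)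
    linarith
  have h3 : (1 + x / 400) ^ 4 ≤ Real.exp (x / 400) ^ 4 :=
    pow_le_pow_left₀ (by linarith) h2 4
  have h4 : Real.exp (x / 400) ^ 4 = Real.exp (x / 100) := by
    rw [← Real.exp_nat_mul]
    congr 1
    push_cast
    ring
  have h5 : (20 * (1 + x)) ^ 2 ≤ ((1 + x / 400) ^ 2) ^ 2 := pow_le_pow_left₀ (by linarith) h1 2
  rw [← h4]
  nlinarith

theorem wa_sum : ∃ T0 : ℝ, ∀ {S : BS} {Ct θ D1 lam : ℝ} {N0 : ℕ}, TG S Ct θ D1 N0 → T0 ≤ S.T →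
    ∀ r : ℕ → ℝ, Rp S lam θ r → ∀ (b : Bool) (β : ℕ → ℝ),
    (β = bt2 S.T r ∨ ∃ c d : ℝ, |c| ≤ 10 ∧ |d| ≤ 10 ∧ β = be S.T r c d) →
    S.T ^ (-e0 b) * (∑ q ∈ Fb b S.T, ‖wa (-1 / 2) (wb β) q‖) ^ 2 ≤ S.T ^ (12 / 25 : ℝ) := by
  refine ⟨Real.exp (10 ^ 7), ?_⟩
  intro S Ct θ D1 lam N0 hS hT r hr b β hβ
  obtain ⟨hT1, hL, -, -⟩ := CB_T hS
  have hT0 : 0 < S.T := by linarith
  have hLbig : 10 ^ 7 ≤ Real.log S.T := by
    rw [Real.le_log_iff_exp_le hT0]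
    exact hT
  obtain ⟨s1, s2⟩ := CB_l1 hS hr hβ
  have hE : 400 * (1 + Real.log S.T) ^ 2 ≤ S.T ^ (1 / 100 : ℝ) := by
    have h1 := CB_big hLbig
    rw [Real.rpow_def_of_pos hT0]
    have h2 : Real.log S.T * (1 / 100) = Real.log S.T / 100 := by ring
    rw [h2]
    exact h1
  have h400 : 400 ≤ S.T ^ (1 / 100 : ℝ) := by nlinarith
  rw [CB_sum]
  cases b
  · have e1 : ∑ n ∈ GT S.T, ‖wa (-1 / 2) (wb β) (qs false n)‖ = ∑ n ∈ GT S.T, |β n| := by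
      refine Finset.sum_congr rfl fun n hn => ?_
      rw [CB_wa false β (CB_ne hn)]
      simp
    rw [e1]
    have hs : 0 ≤ ∑ n ∈ GT S.T, |β n| := Finset.sum_nonneg fun n _ => abs_nonneg _
    have he : -e0 false = -(9 / 20) := by
      unfold e0
      simp
    rw [he]
    have hp : 0 ≤ S.T ^ (-(9 / 20) : ℝ) := by positivity
    calc S.T ^ (-(9 / 20) : ℝ) * (∑ n ∈ GT S.T, |β n|) ^ 2
        ≤ S.T ^ (-(9 / 20) : ℝ) * (20 * S.T ^ (457 / 1000 : ℝ)) ^ 2 :=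
          mul_le_mul_of_nonneg_left (pow_le_pow_left₀ hs s1 2) hp
      _ = 400 * (S.T ^ (-(9 / 20) : ℝ) * (S.T ^ (457 / 1000 : ℝ) * S.T ^ (457 / 1000 : ℝ))) := by
          ring
      _ = 400 * S.T ^ (464 / 1000 : ℝ) := by
          rw [← Real.rpow_add hT0, ← Real.rpow_add hT0]
          norm_num
      _ ≤ S.T ^ (1 / 100 : ℝ) * S.T ^ (464 / 1000 : ℝ) :=
          mul_le_mul_of_nonneg_right h400 (by positivity)
      _ = S.T ^ (474 / 1000 : ℝ) := by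
          rw [← Real.rpow_add hT0]
          norm_num
      _ ≤ S.T ^ (12 / 25 : ℝ) := Real.rpow_le_rpow_of_exponent_le hT1.le (by norm_num)
  · have e1 : ∑ n ∈ GT S.T, ‖wa (-1 / 2) (wb β) (qs true n)‖ = ∑ n ∈ GT S.T, |β n| / (n : ℝ) := by
      refine Finset.sum_congr rfl fun n hn => ?_
      rw [CB_wa true β (CB_ne hn)]
      simp
    rw [e1]
    have hs : 0 ≤ ∑ n ∈ GT S.T, |β n| / (n : ℝ) := Finset.sum_nonneg fun n _ => by positivity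
    have he : -e0 true = 9 / 20 := by
      unfold e0
      simp
    rw [he]
    have hp : 0 ≤ S.T ^ (9 / 20 : ℝ) := by positivity
    have hθ3 : 7 * θ ^ 3 ≤ 1 / 1000 := by
      have h1 := hS.th_pos
      have h2 := hS.th_le
      have h3 : θ ^ 3 ≤ (1 / 100) ^ 3 := pow_le_pow_left₀ h1.le h2 3
      norm_num at h3
      linarith
    have ht : S.T ^ (7 * θ ^ 3) ≤ S.T ^ (1 / 1000 : ℝ) :=
      Real.rpow_le_rpow_of_exponent_le hT1.le hθ3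
    have s3 : ∑ n ∈ GT S.T, |β n| / (n : ℝ) ≤ 20 * ((1 + Real.log S.T) * S.T ^ (1 / 1000 : ℝ)) := by
      have := mul_le_mul_of_nonneg_left ht (show 0 ≤ 1 + Real.log S.T by linarith)
      linarith
    calc S.T ^ (9 / 20 : ℝ) * (∑ n ∈ GT S.T, |β n| / (n : ℝ)) ^ 2
        ≤ S.T ^ (9 / 20 : ℝ) * (20 * ((1 + Real.log S.T) * S.T ^ (1 / 1000 : ℝ))) ^ 2 :=
          mul_le_mul_of_nonneg_left (pow_le_pow_left₀ hs s3 2) hp
      _ = (400 * (1 + Real.log S.T) ^ 2) *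
            (S.T ^ (9 / 20 : ℝ) * (S.T ^ (1 / 1000 : ℝ) * S.T ^ (1 / 1000 : ℝ))) := by ring
      _ ≤ S.T ^ (1 / 100 : ℝ) *
            (S.T ^ (9 / 20 : ℝ) * (S.T ^ (1 / 1000 : ℝ) * S.T ^ (1 / 1000 : ℝ))) :=
          mul_le_mul_of_nonneg_right hE (by positivity)
      _ = S.T ^ (462 / 1000 : ℝ) := by
          rw [← Real.rpow_add hT0, ← Real.rpow_add hT0, ← Real.rpow_add hT0]
          norm_num
      _ ≤ S.T ^ (12 / 25 : ℝ) := Real.rpow_le_rpow_of_exponent_le hT1.le (by norm_num)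

end Pool.Agent.LB
end
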