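import Pool.Agent.Lib.MP_69b2e4_nt.Mg.G042
import Pool.Agent.Lib.MP_69b2e4_nt.UV.Defs

section

/-! TASK TC. The diagonal on a bounded range for `M = M1 T = ⌊T^{1/5}⌋ + 1`: `dg2` of GH/DG2.lean without its (unused) hypothesis `θ ≤ 1/10`.
COPY GH/DG2.lean (private lemmas) and put `θ = 1/5` (the hypothesis `θ ≤ 1/10` should be used nowhere, or only as `θ ≤ 1`). -/

set_option autoImplicit false

namespace Pool.Agent.UH

open Complex MeasureTheory Finset Pool.Agent.GH
open scoped Real ComplexConjugate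

private theorem TC_scale {c : ℝ} (hc : 0 < c) (g : ℝ → ENNReal) (hg : Measurable g) :
    ∫⁻ x, g (c * x) = ENNReal.ofReal c⁻¹ * ∫⁻ u, g u := by
  have h1 : ∫⁻ x, g (c * x) = ∫⁻ u, g u ∂(Measure.map (fun x => c * x) volume) := by
    rw [lintegral_map hg (measurable_const_mul c)]
  rw [h1, Real.map_volume_mul_left hc.ne', lintegral_smul_measure, abs_of_pos (inv_pos.mpr hc)]
  rfl

open Classical in
private theorem TC_dg2 : ∃ C : ℝ, 1 ≤ C ∧ ∀ θ : ℝ, 0 < θ → θ ≤ 1 → ∃ T0 : ℝ, 1 ≤ T0 ∧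
    ∀ T ρ : ℝ, T0 ≤ T → 0 < ρ →
    ∑' r : ℕ, (if Rough (Mof θ T) r then ∫⁻ x in Set.Ioc (1 : ℝ) (T ^ 2), ENNReal.ofReal
      (Real.exp (-2 * π * (ρ * r * x) ^ 2 * Real.sin (1 / T))) else 0) ≤
    ENNReal.ofReal (C * T ^ (1 / 2 : ℝ) / (θ * ρ)) := by
  obtain ⟨C, hC1, hC⟩ := rough_window
  refine ⟨1 + 4 * C, by linarith, fun θ hθ hθ1 => ⟨Real.exp 1, Real.one_le_exp (by norm_num), ?_⟩⟩
  intro T ρ hT hρ
  have hT1 : 1 ≤ T := le_trans (Real.one_le_exp (by norm_num)) hT
  have hT0 : 0 < T := by linarith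
  have hlogT : 1 ≤ Real.log T := by
    rw [Real.le_log_iff_exp_le hT0]; exact hT
  obtain ⟨hs1, hs2, -⟩ := sin_bounds hT1
  set s := Real.sin (1 / T) with hs
  have hspos : 0 < s := lt_of_lt_of_le (by positivity) hs1
  set M := Mof θ T with hM
  have hTθ : 1 ≤ T ^ θ := Real.one_le_rpow hT1 hθ.le
  have hM2 : 2 ≤ M := by
    rw [hM, Mof]
    have : 1 ≤ ⌊T ^ θ⌋₊ := by
      rw [Nat.one_le_floor_iff]; exact hTθ
    omega
  have hMge : T ^ θ ≤ (M : ℝ) := by
    rw [hM, Mof]; push_cast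
    exact (Nat.lt_floor_add_one _).le
  have hlogM : θ * Real.log T ≤ Real.log M := by
    rw [← Real.log_rpow hT0]
    exact Real.log_le_log (by positivity) hMge
  have hlogMpos : 0 < Real.log M := lt_of_lt_of_le (by positivity) hlogM
  -- the function
  set f : ℝ → ENNReal := fun u => ENNReal.ofReal (Real.exp (-2 * π * u ^ 2 * s)) with hf
  have hfm : Measurable f := by
    rw [hf]; fun_prop
  set K : ℝ := (1 / ρ) * (1 + C * (2 * Real.log T + 2) / Real.log M) with hK
  have hK0 : 0 ≤ K := by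
    rw [hK]
    have : 0 ≤ C := by linarith
    positivity
  -- each term
  have hterm : ∀ r : ℕ, (if Rough M r then ∫⁻ x in Set.Ioc (1 : ℝ) (T ^ 2), ENNReal.ofReal
      (Real.exp (-2 * π * (ρ * r * x) ^ 2 * s)) else 0) =
      ∫⁻ u, (if Rough M r ∧ u ∈ Set.Ioc (ρ * r) (ρ * r * T ^ 2) then
        ENNReal.ofReal (1 / (ρ * r)) else 0) * f u := by
    intro r
    by_cases hr : Rough M r
    · have hr0 : 0 < (r : ℝ) := by
        have := hr.1
        exact_mod_cast Nat.pos_of_ne_zero this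
      have hc : 0 < ρ * r := by positivity
      rw [if_pos hr]
      have e1 : ∫⁻ x in Set.Ioc (1 : ℝ) (T ^ 2), ENNReal.ofReal
          (Real.exp (-2 * π * (ρ * r * x) ^ 2 * s)) =
          ∫⁻ x, (Set.Ioc (ρ * r) (ρ * r * T ^ 2)).indicator f (ρ * r * x) := by
        rw [← lintegral_indicator measurableSet_Ioc]
        refine lintegral_congr fun x => ?_
        have hiff : x ∈ Set.Ioc (1 : ℝ) (T ^ 2) ↔ ρ * r * x ∈ Set.Ioc (ρ * r) (ρ * r * T ^ 2) := by
          simp only [Set.mem_Ioc]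
          constructor
          · rintro ⟨h1, h2⟩
            exact ⟨by nlinarith, by nlinarith⟩
          · rintro ⟨h1, h2⟩
            refine ⟨?_, ?_⟩
            · by_contra hcon
              push Not at hcon
              nlinarith
            · exact le_of_mul_le_mul_left h2 hc
        by_cases hx : x ∈ Set.Ioc (1 : ℝ) (T ^ 2)
        · rw [Set.indicator_of_mem hx, Set.indicator_of_mem (hiff.mp hx)]
        · rw [Set.indicator_of_notMem hx, Set.indicator_of_notMem (fun h => hx (hiff.mpr h))]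
      rw [e1, TC_scale hc _ (hfm.indicator measurableSet_Ioc), ← lintegral_const_mul]
      · refine lintegral_congr fun u => ?_
        by_cases hu : u ∈ Set.Ioc (ρ * r) (ρ * r * T ^ 2)
        · rw [Set.indicator_of_mem hu, if_pos ⟨hr, hu⟩, one_div]
        · rw [Set.indicator_of_notMem hu, if_neg (fun h => hu h.2)]; simp
      · exact hfm.indicator measurableSet_Ioc
    · rw [if_neg hr]
      simp [hr]
  rw [tsum_congr hterm, ← lintegral_tsum]
  swap
  · intro r
    refine Measurable.aemeasurable (Measurable.mul ?_ hfm)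
    by_cases hr : Rough M r
    · simp only [hr, true_and]
      exact Measurable.ite measurableSet_Ioc measurable_const measurable_const
    · simp [hr]
  -- pointwise bound
  have hpt : ∀ u : ℝ, ∑' r : ℕ, (if Rough M r ∧ u ∈ Set.Ioc (ρ * r) (ρ * r * T ^ 2) then
        ENNReal.ofReal (1 / (ρ * r)) else 0) * f u ≤
        (Set.Ioi (0:ℝ)).indicator (fun u => ENNReal.ofReal K * f u) u := by
    intro u
    rw [ENNReal.tsum_mul_right]
    by_cases hu : 0 < u
    · rw [Set.indicator_of_mem (show u ∈ Set.Ioi (0:ℝ) from hu)]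
      refine mul_le_mul_left ?_ _
      refine ENNReal.summable.tsum_le_of_sum_le ?_
      intro F
      rw [← Finset.sum_filter, ← ENNReal.ofReal_sum_of_nonneg]
      · refine ENNReal.ofReal_le_ofReal ?_
        have h1 : ∑ r ∈ F with Rough M r ∧ u ∈ Set.Ioc (ρ * r) (ρ * r * T ^ 2), 1 / (ρ * (r:ℝ)) =
            (1 / ρ) * ∑ r ∈ F with Rough M r ∧ u ∈ Set.Ioc (ρ * r) (ρ * r * T ^ 2), 1 / (r:ℝ) := by
          rw [Finset.mul_sum]
          refine Finset.sum_congr rfl fun r _ => ?_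
          rw [one_div_mul_one_div]
        rw [h1, hK]
        refine mul_le_mul_of_nonneg_left ?_ (by positivity)
        have h2 := hC M (u / (ρ * T ^ 2)) (u / ρ)
          (F.filter fun r => Rough M r ∧ u ∈ Set.Ioc (ρ * r) (ρ * r * T ^ 2)) hM2 (by positivity) ?_ ?_
        · refine h2.trans_eq ?_
          have : u / ρ / (u / (ρ * T ^ 2)) = T ^ 2 := by
            field_simp
          rw [this, Real.log_pow]
          push_cast
          ring
        · refine div_le_div_of_nonneg_left hu.le hρ ?_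
          nlinarith [one_le_pow₀ hT1 (n := 2)]
        · intro r hr
          rw [Finset.mem_filter] at hr
          obtain ⟨-, hr, h3, h4⟩ := hr
          refine ⟨?_, ?_, hr⟩
          · rw [div_le_iff₀ (by positivity)]
            linarith
          · rw [le_div_iff₀ hρ]
            linarith
      · intro r _
        positivity
    · rw [Set.indicator_of_notMem (by simpa using hu)]
      have : ∑' r : ℕ, (if Rough M r ∧ u ∈ Set.Ioc (ρ * r) (ρ * r * T ^ 2) then
        ENNReal.ofReal (1 / (ρ * r)) else 0) = 0 := by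
        rw [ENNReal.tsum_eq_zero]
        intro r
        rw [if_neg]
        rintro ⟨hr, h1, -⟩
        have : 0 ≤ ρ * (r:ℝ) := by positivity
        linarith
      rw [this]; simp
  refine (lintegral_mono hpt).trans ?_
  rw [lintegral_indicator measurableSet_Ioi, lintegral_const_mul _ hfm]
  have hgauss : ∫⁻ u in Set.Ioi (0:ℝ), f u = ENNReal.ofReal (√(π / (2 * π * s)) / 2) := by
    rw [← integral_gaussian_Ioi]
    have hint : Integrable (fun x : ℝ => Real.exp (-(2 * π * s) * x ^ 2)) :=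
      integrable_exp_neg_mul_sq (by positivity)
    rw [ofReal_integral_eq_lintegral_ofReal hint.integrableOn
      (Filter.Eventually.of_forall fun x => (Real.exp_pos _).le)]
    refine lintegral_congr fun u => ?_
    have : -2 * π * u ^ 2 * s = -(2 * π * s) * u ^ 2 := by ring
    rw [hf]
    simp only [this]
  rw [hgauss, ← ENNReal.ofReal_mul hK0]
  refine ENNReal.ofReal_le_ofReal ?_
  -- final estimate
  have hsq : √(π / (2 * π * s)) / 2 ≤ T ^ (1 / 2 : ℝ) := by
    have h1 : π / (2 * π * s) ≤ T := by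
      have : π / (2 * π * s) = 1 / (2 * s) := by
        field_simp
      rw [this, div_le_iff₀ (by positivity)]
      rw [div_le_iff₀ (by positivity)] at hs1
      linarith
    have h2 : √(π / (2 * π * s)) ≤ √T := Real.sqrt_le_sqrt h1
    rw [← Real.sqrt_eq_rpow]
    have : 0 ≤ √(π / (2 * π * s)) := Real.sqrt_nonneg _
    linarith
  have hKle : K ≤ (1 + 4 * C) / (θ * ρ) := by
    rw [hK]
    have h1 : C * (2 * Real.log T + 2) / Real.log M ≤ 4 * C / θ := by
      rw [div_le_div_iff₀ hlogMpos hθ]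
      have h3 : C * (2 * Real.log T + 2) ≤ 4 * C * Real.log T := by nlinarith
      calc C * (2 * Real.log T + 2) * θ ≤ 4 * C * Real.log T * θ := by
            exact mul_le_mul_of_nonneg_right h3 hθ.le
        _ = 4 * C * (θ * Real.log T) := by ring
        _ ≤ 4 * C * Real.log M := by
            refine mul_le_mul_of_nonneg_left hlogM (by linarith)
    have h2 : (1:ℝ) ≤ 1 / θ := by
      rw [le_div_iff₀ hθ]; linarith
    calc 1 / ρ * (1 + C * (2 * Real.log T + 2) / Real.log M) ≤ 1 / ρ * (1 / θ + 4 * C / θ) := by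
          refine mul_le_mul_of_nonneg_left (by linarith) (by positivity)
      _ = (1 + 4 * C) / (θ * ρ) := by
          field_simp
  calc K * (√(π / (2 * π * s)) / 2) ≤ (1 + 4 * C) / (θ * ρ) * T ^ (1 / 2 : ℝ) :=
        mul_le_mul hKle hsq (by positivity) (hK0.trans hKle)
    _ = (1 + 4 * C) * T ^ (1 / 2 : ℝ) / (θ * ρ) := by ring

open Classical in
theorem dg3 : ∃ C T0 : ℝ, 1 ≤ C ∧ 1 ≤ T0 ∧ ∀ T ρ : ℝ, T0 ≤ T → 0 < ρ →
    ∑' r : ℕ, (if Rough (Mof (1 / 5) T) r then ∫⁻ x in Set.Ioc (1 : ℝ) (T ^ 2), ENNReal.ofReal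
      (Real.exp (-2 * π * (ρ * r * x) ^ 2 * Real.sin (1 / T))) else 0) ≤
    ENNReal.ofReal (C * T ^ (1 / 2 : ℝ) / ρ) := by
  obtain ⟨C, hC1, hC⟩ := TC_dg2
  obtain ⟨T0, hT0, h⟩ := hC (1 / 5) (by norm_num) (by norm_num)
  refine ⟨5 * C, T0, by linarith, hT0, fun T ρ hT hρ => (h T ρ hT hρ).trans_eq ?_⟩
  congr 1
  field_simp

end Pool.Agent.UH
end

section

/-! TASK TE. The tail `y > 2 log T` with longer weights: `r2_tail` of GH/R2.lean with the new exponents (and `a = 0`).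
COPY `R2_ratio`, `R2_gg`, `r2_tail` from GH/R2.lean and change the exponents: in `R2_gg` `a, b ≤ T^{159/1000}`, the bound becomes `2 T^{159/2000} e^{-y/2}`; the condition needed is `2 T^{318/1000} ≤ T` (for `T ≥ 16`: `16^{682/1000} ≥ 2`), where the
old proof has `T^{1/50}`; then `‖GG‖ ≤ T^{80/1000} · 2 T^{159/2000} e^{-y/2} = 2 T^{319/2000} e^{-y/2}`, and `∫_{2 log T}^∞ 4 T^{319/1000} e^{-y} dy = 4 T^{319/1000} T^{-2} ≤ 1` for `T ≥ 16`
(one may also keep the old, weaker way with `e^{y/2} e^{-y}`). `R2_exp_int`, `R2_exp_exp` can be cited. -/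

set_option autoImplicit false

namespace Pool.Agent.UH

open Complex MeasureTheory Finset Pool.Agent.GH
open scoped Real ComplexConjugate

theorem TE_ratio {T a b : ℝ} (hT : 1 ≤ T) (ha : 1 ≤ a) (hb : 1 ≤ b) (ha' : a ≤ T ^ (159 / 1000 : ℝ)) :
    (a / b) ^ (1 / 2 : ℝ) ≤ T ^ (159 / 2000 : ℝ) := by
  have h1 : a / b ≤ T ^ (159 / 1000 : ℝ) := (div_le_self (by linarith) hb).trans ha'
  calc (a / b) ^ (1 / 2 : ℝ) ≤ (T ^ (159 / 1000 : ℝ)) ^ (1 / 2 : ℝ) :=
        Real.rpow_le_rpow (by positivity) h1 (by norm_num)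
    _ = T ^ (159 / 2000 : ℝ) := by rw [← Real.rpow_mul (by linarith)]; norm_num

theorem TE_gg {T : ℝ} (hT : 16 ≤ T) {a b : ℝ} (ha : 1 ≤ a) (hb : 1 ≤ b)
    (ha' : a ≤ T ^ (159 / 1000 : ℝ)) (hb' : b ≤ T ^ (159 / 1000 : ℝ)) {y : ℝ} (hy : 2 * Real.log T < y) :
    ‖gg T (y + (Real.log a - Real.log b))‖ ≤ 2 * T ^ (159 / 2000 : ℝ) * Real.exp (-y / 2) := by
  have hT1 : 1 ≤ T := by linarith
  have hT0 : 0 < T := by linarith
  have ha0 : 0 < a := by linarith
  have hb0 : 0 < b := by linarith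
  have hsin := (sin_bounds hT1).1
  have hey : T ^ 2 ≤ Real.exp y := by
    calc T ^ 2 = Real.exp (2 * Real.log T) := by rw [two_mul, Real.exp_add, Real.exp_log hT0, sq]
      _ ≤ Real.exp y := Real.exp_le_exp.mpr hy.le
  have hey16 : 16 ≤ Real.exp y := by nlinarith
  have hey0 := Real.exp_pos y
  have e1 : Real.exp (2 * (y + (Real.log a - Real.log b))) = Real.exp y ^ 2 * (a / b) ^ 2 := by
    rw [← Real.log_div ha0.ne' hb0.ne', mul_add, Real.exp_add, two_mul, Real.exp_add, two_mul,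
      Real.exp_add, Real.exp_log (div_pos ha0 hb0)]
    ring
  -- the lower bound for the real part
  have hba : (b / a) ≤ T ^ (159 / 1000 : ℝ) := (div_le_self hb0.le ha).trans hb'
  have hab : 1 / T ^ (318 / 1000 : ℝ) ≤ (a / b) ^ 2 := by
    have h1 : T ^ (318 / 1000 : ℝ) = (T ^ (159 / 1000 : ℝ)) ^ 2 := by
      rw [← Real.rpow_natCast, ← Real.rpow_mul hT0.le]; norm_num
    rw [h1, div_pow, div_le_div_iff₀ (by positivity) (by positivity), one_mul]
    calc b ^ 2 ≤ (T ^ (159 / 1000 : ℝ)) ^ 2 := pow_le_pow_left₀ hb0.le hb' 2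
      _ ≤ a ^ 2 * (T ^ (159 / 1000 : ℝ)) ^ 2 := by
          have : (1 : ℝ) ≤ a ^ 2 := one_le_pow₀ ha
          nlinarith [sq_nonneg (T ^ (159 / 1000 : ℝ))]
  have hT49 : 2 * T ^ (318 / 1000 : ℝ) ≤ T := by
    have h1 : T ^ (318 / 1000 : ℝ) * T ^ (682 / 1000 : ℝ) = T := by
      rw [← Real.rpow_add hT0]; norm_num
    have h2 : (2 : ℝ) ≤ T ^ (682 / 1000 : ℝ) := by
      calc (2 : ℝ) ≤ (16 : ℝ) ^ (1 / 4 : ℝ) := by
            rw [show (16 : ℝ) = 2 ^ (4 : ℝ) by norm_num, ← Real.rpow_mul (by norm_num)]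
            norm_num
        _ ≤ (16 : ℝ) ^ (682 / 1000 : ℝ) := Real.rpow_le_rpow_of_exponent_le (by norm_num) (by norm_num)
        _ ≤ T ^ (682 / 1000 : ℝ) := Real.rpow_le_rpow (by norm_num) hT (by norm_num)
    have h3 : 0 < T ^ (318 / 1000 : ℝ) := by positivity
    nlinarith
  have hmain : Real.exp y ≤ Real.exp (2 * (y + (Real.log a - Real.log b))) * Real.sin (1 / T) := by
    rw [e1]
    have h50 : 0 < T ^ (318 / 1000 : ℝ) := by positivity
    calc Real.exp y = Real.exp y * 1 := (mul_one _).symm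
      _ ≤ Real.exp y * (T ^ 2 * (1 / T ^ (318 / 1000 : ℝ)) * (1 / (2 * T))) := by
          refine mul_le_mul_of_nonneg_left ?_ hey0.le
          rw [show T ^ 2 * (1 / T ^ (318 / 1000 : ℝ)) * (1 / (2 * T)) = T / (2 * T ^ (318 / 1000 : ℝ)) by
            field_simp]
          rw [le_div_iff₀ (by positivity), one_mul]
          exact hT49
      _ ≤ Real.exp y * (Real.exp y * (a / b) ^ 2 * Real.sin (1 / T)) := by
          gcongr
      _ = _ := by ring
  have hl := gg_large hT1 (y := y + (Real.log a - Real.log b)) (by linarith)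
  refine hl.trans ?_
  have e2 : Real.exp ((y + (Real.log a - Real.log b)) / 2) = Real.exp (y / 2) * (a / b) ^ (1 / 2 : ℝ) := by
    rw [← Real.log_div ha0.ne' hb0.ne', add_div, Real.exp_add, Real.rpow_def_of_pos (div_pos ha0 hb0)]
    congr 2
    ring
  have e3 : Real.exp (-(y + (Real.log a - Real.log b)) / 2) =
      Real.exp (-y / 2) * (b / a) ^ (1 / 2 : ℝ) := by
    rw [Real.rpow_def_of_pos (div_pos hb0 ha0), Real.log_div hb0.ne' ha0.ne', ← Real.exp_add]
    congr 1
    ring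
  rw [e2, e3]
  have r1 := TE_ratio hT1 ha hb ha'
  have r2 := TE_ratio hT1 hb ha hb'
  have hee : Real.exp (-(Real.exp (2 * (y + (Real.log a - Real.log b))) * Real.sin (1 / T))) ≤
      Real.exp (-Real.exp y) := Real.exp_le_exp.mpr (by linarith)
  have h8 := R2_exp_exp hey16
  have e4 : Real.exp (y / 2) = Real.exp y * Real.exp (-y / 2) := by
    rw [← Real.exp_add]; congr 1; ring
  calc 4 * (Real.exp (y / 2) * (a / b) ^ (1 / 2 : ℝ)) *
        Real.exp (-(Real.exp (2 * (y + (Real.log a - Real.log b))) * Real.sin (1 / T))) +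
        Real.exp (-y / 2) * (b / a) ^ (1 / 2 : ℝ)
      ≤ 4 * (Real.exp (y / 2) * T ^ (159 / 2000 : ℝ)) * Real.exp (-Real.exp y) +
        Real.exp (-y / 2) * T ^ (159 / 2000 : ℝ) := by gcongr
    _ = T ^ (159 / 2000 : ℝ) * Real.exp (-y / 2) * (4 * (Real.exp y * Real.exp (-Real.exp y)) + 1) := by
        rw [e4]; ring
    _ ≤ T ^ (159 / 2000 : ℝ) * Real.exp (-y / 2) * 2 := by
        refine mul_le_mul_of_nonneg_left (by linarith) (by positivity)
    _ = _ := by ring

theorem r3_tail : ∃ T0 : ℝ, 1 ≤ T0 ∧ ∀ (T : ℝ) (F : Finset (ℕ × ℕ)) (w : ℕ × ℕ → ℂ), T0 ≤ T →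
    (∀ q ∈ F, q.1 ≠ 0 ∧ q.2 ≠ 0) →
    (∀ q ∈ F, (q.1 : ℝ) ≤ T ^ (159 / 1000 : ℝ) ∧ (q.2 : ℝ) ≤ T ^ (159 / 1000 : ℝ)) →
    ∑ q ∈ F, ‖w q‖ ≤ T ^ (80 / 1000 : ℝ) →
    ∫⁻ y in Set.Ioi (2 * Real.log T), ENNReal.ofReal (‖GG T F w y‖ ^ 2) ≤ 1 := by
  refine ⟨64, by norm_num, ?_⟩
  intro T F w hT hF hsz hl
  have hT1 : 1 ≤ T := by linarith
  have hT0 : 0 < T := by linarith
  have hlogT : 0 ≤ Real.log T := Real.log_nonneg hT1
  have hGG : ∀ y ∈ Set.Ioi (2 * Real.log T), ‖GG T F w y‖ ≤ 2 * T ^ (319 / 2000 : ℝ) * Real.exp (-y / 2) := by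
    intro y hy
    unfold GG
    calc ‖∑ q ∈ F, w q * gg T (y + (Real.log q.1 - Real.log q.2))‖
        ≤ ∑ q ∈ F, ‖w q‖ * (2 * T ^ (159 / 2000 : ℝ) * Real.exp (-y / 2)) := by
          refine (norm_sum_le _ _).trans (Finset.sum_le_sum fun q hq => ?_)
          rw [norm_mul]
          refine mul_le_mul_of_nonneg_left ?_ (norm_nonneg _)
          exact TE_gg (by linarith) (by exact_mod_cast Nat.one_le_iff_ne_zero.mpr (hF q hq).1)
            (by exact_mod_cast Nat.one_le_iff_ne_zero.mpr (hF q hq).2) (hsz q hq).1 (hsz q hq).2 hy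
      _ = (∑ q ∈ F, ‖w q‖) * (2 * T ^ (159 / 2000 : ℝ) * Real.exp (-y / 2)) := by rw [Finset.sum_mul]
      _ ≤ T ^ (80 / 1000 : ℝ) * (2 * T ^ (159 / 2000 : ℝ) * Real.exp (-y / 2)) := by gcongr
      _ = 2 * (T ^ (80 / 1000 : ℝ) * T ^ (159 / 2000 : ℝ)) * Real.exp (-y / 2) := by ring
      _ = _ := by rw [← Real.rpow_add hT0]; norm_num
  have hpt : ∀ y ∈ Set.Ioi (2 * Real.log T), ENNReal.ofReal (‖GG T F w y‖ ^ 2) ≤
      ENNReal.ofReal (4 * T ^ (319 / 1000 : ℝ)) * ENNReal.ofReal (Real.exp (-y / 2)) := by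
    intro y hy
    rw [← ENNReal.ofReal_mul (by positivity)]
    apply ENNReal.ofReal_le_ofReal
    have hy0 : 0 < y := lt_of_le_of_lt (by positivity) hy
    have h1 : Real.exp (-y / 2) ≤ 1 := Real.exp_le_one_iff.mpr (by linarith)
    have h2 : ‖GG T F w y‖ ^ 2 ≤ (2 * T ^ (319 / 2000 : ℝ) * Real.exp (-y / 2)) ^ 2 :=
      pow_le_pow_left₀ (norm_nonneg _) (hGG y hy) 2
    calc ‖GG T F w y‖ ^ 2
        ≤ (2 * T ^ (319 / 2000 : ℝ) * Real.exp (-y / 2)) ^ 2 := h2
      _ = 4 * (T ^ (319 / 2000 : ℝ)) ^ 2 * (Real.exp (-y / 2) * Real.exp (-y / 2)) := by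
          ring
      _ ≤ 4 * (T ^ (319 / 2000 : ℝ)) ^ 2 * (1 * Real.exp (-y / 2)) := by gcongr
      _ = 4 * T ^ (319 / 1000 : ℝ) * Real.exp (-y / 2) := by
          rw [one_mul, ← Real.rpow_natCast, ← Real.rpow_mul hT0.le]
          norm_num
  calc ∫⁻ y in Set.Ioi (2 * Real.log T), ENNReal.ofReal (‖GG T F w y‖ ^ 2)
      ≤ ∫⁻ y in Set.Ioi (2 * Real.log T),
        ENNReal.ofReal (4 * T ^ (319 / 1000 : ℝ)) * ENNReal.ofReal (Real.exp (-y / 2)) :=
        setLIntegral_mono' measurableSet_Ioi hpt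
    _ = ENNReal.ofReal (4 * T ^ (319 / 1000 : ℝ)) * ENNReal.ofReal (2 * Real.exp (-(2 * Real.log T) / 2)) := by
        rw [lintegral_const_mul' _ _ ENNReal.ofReal_ne_top, R2_exp_int]
    _ ≤ 1 := by
        rw [← ENNReal.ofReal_mul (by positivity), ENNReal.ofReal_le_one]
        have h1 : Real.exp (-(2 * Real.log T) / 2) = T⁻¹ := by
          rw [show -(2 * Real.log T) / 2 = -Real.log T by ring, Real.exp_neg, Real.exp_log hT0]
        rw [h1]
        have h2 : T ^ (319 / 1000 : ℝ) * T ^ (681 / 1000 : ℝ) = T := by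
          rw [← Real.rpow_add hT0]; norm_num
        have h3 : (8 : ℝ) ≤ T ^ (681 / 1000 : ℝ) := by
          calc (8 : ℝ) = (64 : ℝ) ^ (1 / 2 : ℝ) := by
                rw [show (64 : ℝ) = 2 ^ (6 : ℝ) by norm_num, ← Real.rpow_mul (by norm_num)]
                norm_num
            _ ≤ (64 : ℝ) ^ (681 / 1000 : ℝ) := Real.rpow_le_rpow_of_exponent_le (by norm_num) (by norm_num)
            _ ≤ T ^ (681 / 1000 : ℝ) := Real.rpow_le_rpow (by norm_num) hT (by norm_num)
        have h4 : 0 < T ^ (319 / 1000 : ℝ) := by positivity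
        rw [show 4 * T ^ (319 / 1000 : ℝ) * (2 * T⁻¹) = 8 * T ^ (319 / 1000 : ℝ) / T by
          rw [div_eq_mul_inv]; ring]
        rw [div_le_one hT0]
        nlinarith

end Pool.Agent.UH
end

section

/-! TASK DG. The diagonal on the range `(x0, x0 T²]` for `M = MM T = ⌊T^{1/2}⌋ + 1`.
First for `x0 = 1`: COPY the private lemma `TC_dg2` of UH/TC.lean (valid for all `0 < θ ≤ 1`) and put `θ = 1/2`. Then scaling: for `x0 > 0` substitute `x = x0 x'`:
`∫_{(x0, x0 T²]} exp(-2π(ρ r x)² s) dx = x0 ∫_{(1, T²]} exp(-2π((ρ x0) r x')² s) dx'` (`s = sin(1/T)`), so the sum is `x0` times the sum for `ρ x0` instead of `ρ` and the range `(1, T²]`: at most `x0 C T^{1/2}/(θ ρ x0) = (2C) T^{1/2}/ρ`.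
(The scaling of a `lintegral`: `TC_scale` in the same file, with indicator functions, or `MeasureTheory.Measure.setLIntegral...`; every measurable `g ≥ 0`: `∫⁻ x, g (c x) = ofReal c⁻¹ ∫⁻ g`.) -/

set_option autoImplicit false

namespace Pool.Agent.UV

open Complex MeasureTheory Finset Pool.Agent.GH
open scoped Real ComplexConjugate

private theorem DG_scale {c : ℝ} (hc : 0 < c) (g : ℝ → ENNReal) (hg : Measurable g) :
    ∫⁻ x, g (c * x) = ENNReal.ofReal c⁻¹ * ∫⁻ u, g u := by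
  have h1 : ∫⁻ x, g (c * x) = ∫⁻ u, g u ∂(Measure.map (fun x => c * x) volume) := by
    rw [lintegral_map hg (measurable_const_mul c)]
  rw [h1, Real.map_volume_mul_left hc.ne', lintegral_smul_measure, abs_of_pos (inv_pos.mpr hc)]
  rfl

open Classical in
private theorem DG_dg2 : ∃ C : ℝ, 1 ≤ C ∧ ∀ θ : ℝ, 0 < θ → θ ≤ 1 → ∃ T0 : ℝ, 1 ≤ T0 ∧
    ∀ T ρ : ℝ, T0 ≤ T → 0 < ρ →
    ∑' r : ℕ, (if Rough (Mof θ T) r then ∫⁻ x in Set.Ioc (1 : ℝ) (T ^ 2), ENNReal.ofReal
      (Real.exp (-2 * π * (ρ * r * x) ^ 2 * Real.sin (1 / T))) else 0) ≤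
    ENNReal.ofReal (C * T ^ (1 / 2 : ℝ) / (θ * ρ)) := by
  obtain ⟨C, hC1, hC⟩ := rough_window
  refine ⟨1 + 4 * C, by linarith, fun θ hθ hθ1 => ⟨Real.exp 1, Real.one_le_exp (by norm_num), ?_⟩⟩
  intro T ρ hT hρ
  have hT1 : 1 ≤ T := le_trans (Real.one_le_exp (by norm_num)) hT
  have hT0 : 0 < T := by linarith
  have hlogT : 1 ≤ Real.log T := by
    rw [Real.le_log_iff_exp_le hT0]; exact hT
  obtain ⟨hs1, hs2, -⟩ := sin_bounds hT1
  set s := Real.sin (1 / T) with hs
  have hspos : 0 < s := lt_of_lt_of_le (by positivity) hs1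
  set M := Mof θ T with hM
  have hTθ : 1 ≤ T ^ θ := Real.one_le_rpow hT1 hθ.le
  have hM2 : 2 ≤ M := by
    rw [hM, Mof]
    have : 1 ≤ ⌊T ^ θ⌋₊ := by
      rw [Nat.one_le_floor_iff]; exact hTθ
    omega
  have hMge : T ^ θ ≤ (M : ℝ) := by
    rw [hM, Mof]; push_cast
    exact (Nat.lt_floor_add_one _).le
  have hlogM : θ * Real.log T ≤ Real.log M := by
    rw [← Real.log_rpow hT0]
    exact Real.log_le_log (by positivity) hMge
  have hlogMpos : 0 < Real.log M := lt_of_lt_of_le (by positivity) hlogM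
  -- the function
  set f : ℝ → ENNReal := fun u => ENNReal.ofReal (Real.exp (-2 * π * u ^ 2 * s)) with hf
  have hfm : Measurable f := by
    rw [hf]; fun_prop
  set K : ℝ := (1 / ρ) * (1 + C * (2 * Real.log T + 2) / Real.log M) with hK
  have hK0 : 0 ≤ K := by
    rw [hK]
    have : 0 ≤ C := by linarith
    positivity
  -- each term
  have hterm : ∀ r : ℕ, (if Rough M r then ∫⁻ x in Set.Ioc (1 : ℝ) (T ^ 2), ENNReal.ofReal
      (Real.exp (-2 * π * (ρ * r * x) ^ 2 * s)) else 0) =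
      ∫⁻ u, (if Rough M r ∧ u ∈ Set.Ioc (ρ * r) (ρ * r * T ^ 2) then
        ENNReal.ofReal (1 / (ρ * r)) else 0) * f u := by
    intro r
    by_cases hr : Rough M r
    · have hr0 : 0 < (r : ℝ) := by
        have := hr.1
        exact_mod_cast Nat.pos_of_ne_zero this
      have hc : 0 < ρ * r := by positivity
      rw [if_pos hr]
      have e1 : ∫⁻ x in Set.Ioc (1 : ℝ) (T ^ 2), ENNReal.ofReal
          (Real.exp (-2 * π * (ρ * r * x) ^ 2 * s)) =
          ∫⁻ x, (Set.Ioc (ρ * r) (ρ * r * T ^ 2)).indicator f (ρ * r * x) := by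
        rw [← lintegral_indicator measurableSet_Ioc]
        refine lintegral_congr fun x => ?_
        have hiff : x ∈ Set.Ioc (1 : ℝ) (T ^ 2) ↔ ρ * r * x ∈ Set.Ioc (ρ * r) (ρ * r * T ^ 2) := by
          simp only [Set.mem_Ioc]
          constructor
          · rintro ⟨h1, h2⟩
            exact ⟨by nlinarith, by nlinarith⟩
          · rintro ⟨h1, h2⟩
            refine ⟨?_, ?_⟩
            · by_contra hcon
              push Not at hcon
              nlinarith
            · exact le_of_mul_le_mul_left h2 hc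
        by_cases hx : x ∈ Set.Ioc (1 : ℝ) (T ^ 2)
        · rw [Set.indicator_of_mem hx, Set.indicator_of_mem (hiff.mp hx)]
        · rw [Set.indicator_of_notMem hx, Set.indicator_of_notMem (fun h => hx (hiff.mpr h))]
      rw [e1, DG_scale hc _ (hfm.indicator measurableSet_Ioc), ← lintegral_const_mul]
      · refine lintegral_congr fun u => ?_
        by_cases hu : u ∈ Set.Ioc (ρ * r) (ρ * r * T ^ 2)
        · rw [Set.indicator_of_mem hu, if_pos ⟨hr, hu⟩, one_div]
        · rw [Set.indicator_of_notMem hu, if_neg (fun h => hu h.2)]; simp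
      · exact hfm.indicator measurableSet_Ioc
    · rw [if_neg hr]
      simp [hr]
  rw [tsum_congr hterm, ← lintegral_tsum]
  swap
  · intro r
    refine Measurable.aemeasurable (Measurable.mul ?_ hfm)
    by_cases hr : Rough M r
    · simp only [hr, true_and]
      exact Measurable.ite measurableSet_Ioc measurable_const measurable_const
    · simp [hr]
  -- pointwise bound
  have hpt : ∀ u : ℝ, ∑' r : ℕ, (if Rough M r ∧ u ∈ Set.Ioc (ρ * r) (ρ * r * T ^ 2) then
        ENNReal.ofReal (1 / (ρ * r)) else 0) * f u ≤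
        (Set.Ioi (0:ℝ)).indicator (fun u => ENNReal.ofReal K * f u) u := by
    intro u
    rw [ENNReal.tsum_mul_right]
    by_cases hu : 0 < u
    · rw [Set.indicator_of_mem (show u ∈ Set.Ioi (0:ℝ) from hu)]
      refine mul_le_mul_left ?_ _
      refine ENNReal.summable.tsum_le_of_sum_le ?_
      intro F
      rw [← Finset.sum_filter, ← ENNReal.ofReal_sum_of_nonneg]
      · refine ENNReal.ofReal_le_ofReal ?_
        have h1 : ∑ r ∈ F with Rough M r ∧ u ∈ Set.Ioc (ρ * r) (ρ * r * T ^ 2), 1 / (ρ * (r:ℝ)) =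
            (1 / ρ) * ∑ r ∈ F with Rough M r ∧ u ∈ Set.Ioc (ρ * r) (ρ * r * T ^ 2), 1 / (r:ℝ) := by
          rw [Finset.mul_sum]
          refine Finset.sum_congr rfl fun r _ => ?_
          rw [one_div_mul_one_div]
        rw [h1, hK]
        refine mul_le_mul_of_nonneg_left ?_ (by positivity)
        have h2 := hC M (u / (ρ * T ^ 2)) (u / ρ)
          (F.filter fun r => Rough M r ∧ u ∈ Set.Ioc (ρ * r) (ρ * r * T ^ 2)) hM2 (by positivity) ?_ ?_
        · refine h2.trans_eq ?_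
          have : u / ρ / (u / (ρ * T ^ 2)) = T ^ 2 := by
            field_simp
          rw [this, Real.log_pow]
          push_cast
          ring
        · refine div_le_div_of_nonneg_left hu.le hρ ?_
          nlinarith [one_le_pow₀ hT1 (n := 2)]
        · intro r hr
          rw [Finset.mem_filter] at hr
          obtain ⟨-, hr, h3, h4⟩ := hr
          refine ⟨?_, ?_, hr⟩
          · rw [div_le_iff₀ (by positivity)]
            linarith
          · rw [le_div_iff₀ hρ]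
            linarith
      · intro r _
        positivity
    · rw [Set.indicator_of_notMem (by simpa using hu)]
      have : ∑' r : ℕ, (if Rough M r ∧ u ∈ Set.Ioc (ρ * r) (ρ * r * T ^ 2) then
        ENNReal.ofReal (1 / (ρ * r)) else 0) = 0 := by
        rw [ENNReal.tsum_eq_zero]
        intro r
        rw [if_neg]
        rintro ⟨hr, h1, -⟩
        have : 0 ≤ ρ * (r:ℝ) := by positivity
        linarith
      rw [this]; simp
  refine (lintegral_mono hpt).trans ?_
  rw [lintegral_indicator measurableSet_Ioi, lintegral_const_mul _ hfm]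
  have hgauss : ∫⁻ u in Set.Ioi (0:ℝ), f u = ENNReal.ofReal (√(π / (2 * π * s)) / 2) := by
    rw [← integral_gaussian_Ioi]
    have hint : Integrable (fun x : ℝ => Real.exp (-(2 * π * s) * x ^ 2)) :=
      integrable_exp_neg_mul_sq (by positivity)
    rw [ofReal_integral_eq_lintegral_ofReal hint.integrableOn
      (Filter.Eventually.of_forall fun x => (Real.exp_pos _).le)]
    refine lintegral_congr fun u => ?_
    have : -2 * π * u ^ 2 * s = -(2 * π * s) * u ^ 2 := by ring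
    rw [hf]
    simp only [this]
  rw [hgauss, ← ENNReal.ofReal_mul hK0]
  refine ENNReal.ofReal_le_ofReal ?_
  -- final estimate
  have hsq : √(π / (2 * π * s)) / 2 ≤ T ^ (1 / 2 : ℝ) := by
    have h1 : π / (2 * π * s) ≤ T := by
      have : π / (2 * π * s) = 1 / (2 * s) := by
        field_simp
      rw [this, div_le_iff₀ (by positivity)]
      rw [div_le_iff₀ (by positivity)] at hs1
      linarith
    have h2 : √(π / (2 * π * s)) ≤ √T := Real.sqrt_le_sqrt h1
    rw [← Real.sqrt_eq_rpow]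
    have : 0 ≤ √(π / (2 * π * s)) := Real.sqrt_nonneg _
    linarith
  have hKle : K ≤ (1 + 4 * C) / (θ * ρ) := by
    rw [hK]
    have h1 : C * (2 * Real.log T + 2) / Real.log M ≤ 4 * C / θ := by
      rw [div_le_div_iff₀ hlogMpos hθ]
      have h3 : C * (2 * Real.log T + 2) ≤ 4 * C * Real.log T := by nlinarith
      calc C * (2 * Real.log T + 2) * θ ≤ 4 * C * Real.log T * θ := by
            exact mul_le_mul_of_nonneg_right h3 hθ.le
        _ = 4 * C * (θ * Real.log T) := by ring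
        _ ≤ 4 * C * Real.log M := by
            refine mul_le_mul_of_nonneg_left hlogM (by linarith)
    have h2 : (1:ℝ) ≤ 1 / θ := by
      rw [le_div_iff₀ hθ]; linarith
    calc 1 / ρ * (1 + C * (2 * Real.log T + 2) / Real.log M) ≤ 1 / ρ * (1 / θ + 4 * C / θ) := by
          refine mul_le_mul_of_nonneg_left (by linarith) (by positivity)
      _ = (1 + 4 * C) / (θ * ρ) := by
          field_simp
  calc K * (√(π / (2 * π * s)) / 2) ≤ (1 + 4 * C) / (θ * ρ) * T ^ (1 / 2 : ℝ) :=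
        mul_le_mul hKle hsq (by positivity) (hK0.trans hKle)
    _ = (1 + 4 * C) * T ^ (1 / 2 : ℝ) / (θ * ρ) := by ring

open Classical in
theorem dg4 : ∃ C T0 : ℝ, 1 ≤ C ∧ 1 ≤ T0 ∧ ∀ T ρ x0 : ℝ, T0 ≤ T → 0 < ρ → 0 < x0 →
    ∑' r : ℕ, (if Rough (MM T) r then ∫⁻ x in Set.Ioc x0 (x0 * T ^ 2), ENNReal.ofReal
      (Real.exp (-2 * π * (ρ * r * x) ^ 2 * Real.sin (1 / T))) else 0) ≤
    ENNReal.ofReal (C * T ^ (1 / 2 : ℝ) / ρ) := by
  obtain ⟨C, hC1, hC⟩ := DG_dg2
  obtain ⟨T0, hT0, h⟩ := hC (1 / 2) (by norm_num) (by norm_num)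
  refine ⟨2 * C, T0, by linarith, hT0, fun T ρ x0 hT hρ hx0 => ?_⟩
  have h1 := h T (ρ * x0) hT (by positivity)
  have hterm : ∀ r : ℕ, (if Rough (MM T) r then ∫⁻ x in Set.Ioc x0 (x0 * T ^ 2), ENNReal.ofReal
      (Real.exp (-2 * π * (ρ * r * x) ^ 2 * Real.sin (1 / T))) else 0) =
      ENNReal.ofReal x0 * (if Rough (Mof (1 / 2) T) r then ∫⁻ x in Set.Ioc (1 : ℝ) (T ^ 2),
        ENNReal.ofReal (Real.exp (-2 * π * (ρ * x0 * r * x) ^ 2 * Real.sin (1 / T))) else 0) := by
    intro r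
    by_cases hr : Rough (MM T) r
    · have hr' : Rough (Mof (1 / 2) T) r := hr
      rw [if_pos hr, if_pos hr']
      have hm : Measurable fun x : ℝ => ENNReal.ofReal
          (Real.exp (-2 * π * (ρ * x0 * r * x) ^ 2 * Real.sin (1 / T))) := by fun_prop
      rw [← lintegral_indicator measurableSet_Ioc, ← lintegral_indicator measurableSet_Ioc]
      have h2 := DG_scale (c := x0⁻¹) (by positivity) _ (hm.indicator (measurableSet_Ioc (a := (1 : ℝ))
        (b := T ^ 2)))
      rw [inv_inv] at h2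
      rw [← h2]
      refine lintegral_congr fun x => ?_
      have hiff : x ∈ Set.Ioc x0 (x0 * T ^ 2) ↔ x0⁻¹ * x ∈ Set.Ioc (1 : ℝ) (T ^ 2) := by
        simp only [Set.mem_Ioc]
        rw [← div_eq_inv_mul, lt_div_iff₀ hx0, div_le_iff₀ hx0, one_mul, mul_comm (T ^ 2) x0]
      by_cases hx : x ∈ Set.Ioc x0 (x0 * T ^ 2)
      · rw [Set.indicator_of_mem hx, Set.indicator_of_mem (hiff.mp hx)]
        have e : ρ * x0 * r * (x0⁻¹ * x) = ρ * r * x := by
          field_simp
        rw [e]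
      · rw [Set.indicator_of_notMem hx, Set.indicator_of_notMem (fun h => hx (hiff.mpr h))]
    · have hr' : ¬ Rough (Mof (1 / 2) T) r := hr
      rw [if_neg hr, if_neg hr', mul_zero]
  rw [tsum_congr hterm, ENNReal.tsum_mul_left]
  refine (mul_le_mul_right h1 _).trans_eq ?_
  rw [← ENNReal.ofReal_mul hx0.le]
  congr 1
  field_simp

end Pool.Agent.UV
end
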