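import Pool.Agent.Lib.MP_69b2e4_nt.UV.CN
import Pool.Agent.Lib.MP_69b2e4_nt.UV.Defs
import Pool.Agent.Lib.MP_69b2e4_nt.Mg.G040
import Pool.Agent.Lib.MP_69b2e4_nt.GH.OffSum
import Pool.Agent.Lib.MP_69b2e4_nt.Mg.G016
import Pool.Agent.Lib.MP_69b2e4_nt.Mg.G009
import Pool.Agent.Lib.MP_69b2e4_nt.Mg.G042

section

/-! TASK OS. The off-diagonal sum, with any lower limit `x0` and any denominators `≤ D` (compare GH/OffSum.lean: its facts about `cs`, `cs_pos`, `cs_inj`, `sin_bounds` are reusable).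
Put `c_k = ‖cs M F w k.1‖`, `u_k = k.1 k.2`, `s = sin (1/T) ≥ 1/(2T)`, `cos (1/T) ≥ cos 1 ≥ 1/2`. If `cs M F w ρ ≠ 0` then `ρ > 0` and `ρ q.2 = l q.1` for some `q ∈ F` and a natural `l` (definition of `cs`), so `den ρ ∣ q.2`, `den ρ ≤ D`, `ρ ≥ 1/D`. On the support (`Rough M k.2`, `cs M F w k.1 ≠ 0`) the map
`k ↦ k.1 k.2 ∈ ℚ` is injective (`cs_inj`), and `den (k.1 k.2) ∣ den k.1`, so `≤ D`.
The kernel `K(k,k')` is symmetric, `c_k c_{k'} ≤ (c_k² + c_{k'}²)/2`, so the double sum is at most `∑_k c_k² ∑_{k'} K(k,k')` (exchange: `ENNReal.tsum_comm`), over `k'` in the support with `u_{k'} ≠ u_k`.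
Fix `k`; `u_k = a/b`, `u_{k'} = a'/b'` reduced (`b, b' ≤ D`), `j = |a b' - a' b| ≥ 1`. Then `|u² - u'²| = (j/(b b')) (u + u') ≥ j u/(b b')`, so
`K ≤ 4 b b' e^{-π(u²+u'²) x0²/(2T)} / (j u x0)` (`2/(π cos) ≤ 4/π ≤ 2`; factor 4 is generous). And `1/j = j^κ/j^{1+κ}`, `j ≤ b b' (u+u') ≤ D² (u+u')`. With `v = u x0/T^{1/2}`, `z = (u+u') x0/T^{1/2}`, `(u²+u'²) x0²/T ≥ z²/2`, `≥ v²`: `e^{-π(u²+u'²)x0²/(2T)} ≤ e^{-π z²/8} e^{-π v²/4}`
and `t^κ e^{-π t²/8} ≤ 1` for `t > 0`, `0 < κ ≤ 1` (for `t ≤ 1` clear, for `t ≥ 1` `t^κ ≤ t ≤ e^{πt²/8}·…`: max of `t e^{-πt²/8}` is `(4/π)^{1/2} e^{-1/2} ≤ 1`). Hence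
`(u+u')^κ e^{-πz²/8} ≤ (T^{1/2}/x0)^κ`, `e^{-πv²/4} ≤ v^{-κ} = (T^{1/2}/(u x0))^κ`, and
`K(k,k') ≤ (4 D²/(x0)) · u^{-1-κ} (T^{1/2}/x0)^{2κ} D^{2κ} · (b b'/D²) j^{-1-κ}`. Sum over `k'` by `count` (`u_{k'} ↦ (num, den)` is injective; `b' ≤ D`): `∑ b b' j^{-1-κ} ≤ b D K (D/b + 1) ≤ 2 K D²`. So `∑_{k'} K(k,k') ≤ 8 K D² x0^{-1} D^{2κ} (T/x0²)^κ u_k^{-1-κ}`.
Finally `∑_k c_k² u_k^{-1-κ} = ∑_ρ ‖cs ρ‖² ρ^{-1-κ} ∑_{r rough} r^{-1-κ} ≤ ζ(1+κ) D^κ ∑_ρ ‖cs ρ‖² ρ^{-1} ≤ ζ(1+κ) D^κ BB M F w 0` (`bessel` with `η = 0`; `ρ ≥ 1/D`). Total `≤ C D² x0^{-1} (D³ T x0^{-2})^κ BB ≤ C D² x0^{-1} T^{6κ} BB` (`D ≤ T`, `x0 ≥ T⁻¹`). -/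

set_option autoImplicit false

namespace Pool.Agent.UV

open Complex MeasureTheory Finset Pool.Agent.GH
open scoped Real ComplexConjugate

private theorem OS_tsum_le {α β : Type} (P : α → Prop) [DecidablePred P] (f : α → ENNReal) (g : β → ENNReal) (φ : α → β)
    (hφ : ∀ x y, P x → P y → φ x = φ y → x = y) (h : ∀ x, P x → f x ≤ g (φ x)) :
    ∑' x, (if P x then f x else 0) ≤ ∑' y, g y := by
  have e1 : (fun x => if P x then f x else 0) = (Set.indicator {x | P x} f) := by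
    funext x
    by_cases hx : P x
    · rw [if_pos hx, Set.indicator_of_mem (show x ∈ {x | P x} from hx)]
    · rw [if_neg hx, Set.indicator_of_notMem (show x ∉ {x | P x} from hx)]
  rw [e1, ← tsum_subtype {x | P x} f]
  calc ∑' x : {x | P x}, f x ≤ ∑' x : {x | P x}, g (φ x) := ENNReal.tsum_le_tsum fun x => h x x.2
    _ ≤ ∑' y, g y := ENNReal.tsum_comp_le_tsum_of_injective
        (f := fun x : {x | P x} => φ x) (fun x y hxy => Subtype.ext (hφ x y x.2 y.2 hxy)) g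

private theorem OS_rpow {t κ : ℝ} (ht : 0 ≤ t) (h0 : 0 < κ) (h1 : κ ≤ 1) : t ^ κ ≤ Real.exp t := by
  rcases le_total t 1 with h | h
  · exact (Real.rpow_le_one ht h h0.le).trans (Real.one_le_exp ht)
  · calc t ^ κ ≤ t ^ (1 : ℝ) := Real.rpow_le_rpow_of_exponent_le h h1
      _ = t := Real.rpow_one t
      _ ≤ Real.exp t := by linarith [Real.add_one_le_exp t]

/-- The kernel. -/
private noncomputable def OS_K (T x0 u u' : ℝ) : ℝ :=
  2 * Real.exp (-π * (u ^ 2 + u' ^ 2) * x0 ^ 2 * Real.sin (1 / T)) /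
          (π * |u ^ 2 - u' ^ 2| * x0 * Real.cos (1 / T))

private theorem OS_K_symm (T x0 u u' : ℝ) : OS_K T x0 u u' = OS_K T x0 u' u := by
  unfold OS_K
  rw [add_comm (u ^ 2), abs_sub_comm]

private theorem OS_cos {T : ℝ} (hT : 1 ≤ T) : 1 / 2 ≤ Real.cos (1 / T) := by
  have hT0 : 0 < T := by linarith
  have hTinv : 1 / T ≤ 1 := by rw [div_le_one hT0]; exact hT
  have hTpos : 0 < 1 / T := by positivity
  have hpi := Real.pi_gt_three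
  rw [← Real.cos_pi_div_three]
  apply Real.cos_le_cos_of_nonneg_of_le_pi hTpos.le (by linarith) (by linarith)

private theorem OS_sin {T : ℝ} (hT : 1 ≤ T) : 2 / T ≤ π * Real.sin (1 / T) := by
  have hT0 : 0 < T := by linarith
  have hTinv : 1 / T ≤ 1 := by rw [div_le_one hT0]; exact hT
  have hTpos : 0 < 1 / T := by positivity
  have hpi := Real.pi_gt_three
  have h := Real.mul_le_sin hTpos.le (by linarith)
  calc 2 / T = π * (2 / π * (1 / T)) := by field_simp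
    _ ≤ _ := mul_le_mul_of_nonneg_left h Real.pi_pos.le

private theorem OS_K_nonneg {T x0 : ℝ} (hT : 1 ≤ T) (hx : 0 < x0) (u u' : ℝ) : 0 ≤ OS_K T x0 u u' := by
  have h1 := OS_cos hT
  have h2 : 0 ≤ Real.cos (1 / T) := by linarith
  unfold OS_K
  positivity

private theorem OS_point {κ T x0 : ℝ} (hκ : 0 < κ) (hκ1 : κ ≤ 1) (hT : 1 ≤ T) (hx : 0 < x0)
    {D a b a' b' : ℕ} (ha : 1 ≤ a) (hb : 1 ≤ b) (ha' : 1 ≤ a') (hb' : 1 ≤ b') (hbD : b ≤ D)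
    (hbD' : b' ≤ D) (hne : a * b' ≠ a' * b) :
    OS_K T x0 ((a : ℝ) / b) ((a' : ℝ) / b') ≤
      (2 * b * D * ((D : ℝ) ^ 2) ^ κ * (T / x0 ^ 2) ^ κ / x0 * ((a : ℝ) / b) ^ (-(1 + κ))) *
        |(a : ℝ) * b' - a' * b| ^ (-(1 + κ)) := by
  have hT0 : 0 < T := by linarith
  have ha1 : (1 : ℝ) ≤ a := by exact_mod_cast ha
  have ha1' : (1 : ℝ) ≤ a' := by exact_mod_cast ha'
  have hb1 : (1 : ℝ) ≤ b := by exact_mod_cast hb
  have hb1' : (1 : ℝ) ≤ b' := by exact_mod_cast hb'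
  have hbR : (b : ℝ) ≤ D := by exact_mod_cast hbD
  have hbR' : (b' : ℝ) ≤ D := by exact_mod_cast hbD'
  have hb0 : (0 : ℝ) < b := by linarith
  have hb0' : (0 : ℝ) < b' := by linarith
  have hD0 : (0 : ℝ) < D := by linarith
  set u : ℝ := (a : ℝ) / b with hu
  set u' : ℝ := (a' : ℝ) / b' with hu'
  have hu0 : 0 < u := by positivity
  have hu0' : 0 < u' := by positivity
  set j : ℝ := |(a : ℝ) * b' - a' * b| with hj
  have hju : |u - u'| = j / (b * b') := by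
    have h1 : u - u' = ((a : ℝ) * b' - a' * b) / (b * b') := by
      rw [hu, hu']
      field_simp
    rw [h1, abs_div, abs_of_pos (by positivity : (0 : ℝ) < b * b')]
  have hj0 : 0 < j := by
    rw [hj]
    apply abs_pos.mpr
    intro h
    apply hne
    have h2 : (a : ℝ) * b' = a' * b := by linarith
    exact_mod_cast h2
  set σ : ℝ := u + u' with hσ
  have hσ0 : 0 < σ := by positivity
  have hsq : |u ^ 2 - u' ^ 2| = j / (b * b') * σ := by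
    have e : u ^ 2 - u' ^ 2 = (u - u') * (u + u') := by ring
    rw [e, abs_mul, hju, abs_of_pos (by linarith : 0 < u + u')]
  set z : ℝ := σ ^ 2 * x0 ^ 2 / T with hz
  have hz0 : 0 ≤ z := by positivity
  have hcos := OS_cos hT
  have hsin := OS_sin hT
  have hpi := Real.pi_gt_three
  have hexp : Real.exp (-π * (u ^ 2 + u' ^ 2) * x0 ^ 2 * Real.sin (1 / T)) ≤ Real.exp (-z) := by
    apply Real.exp_le_exp.mpr
    have h1 : σ ^ 2 / 2 ≤ u ^ 2 + u' ^ 2 := by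
      rw [hσ]; nlinarith [sq_nonneg (u - u')]
    have h2 : z ≤ (u ^ 2 + u' ^ 2) * x0 ^ 2 * (π * Real.sin (1 / T)) := by
      calc z = σ ^ 2 / 2 * x0 ^ 2 * (2 / T) := by rw [hz]; field_simp
        _ ≤ (u ^ 2 + u' ^ 2) * x0 ^ 2 * (π * Real.sin (1 / T)) := by
          apply mul_le_mul _ hsin (by positivity) (by positivity)
          exact mul_le_mul_of_nonneg_right h1 (by positivity)
    linarith
  have hden : j / (b * b') * σ * x0 ≤ π * |u ^ 2 - u' ^ 2| * x0 * Real.cos (1 / T) := by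
    rw [hsq]
    have h1 : 1 ≤ π * Real.cos (1 / T) := by nlinarith
    have h2 : 0 ≤ j / (b * b') * σ * x0 := by positivity
    nlinarith
  have hdpos : 0 < j / (b * b') * σ * x0 := by positivity
  have hE : 0 < Real.exp (-z) := Real.exp_pos _
  have hstep1 : OS_K T x0 u u' ≤ 2 * Real.exp (-z) / (j / (b * b') * σ * x0) := by
    unfold OS_K
    exact div_le_div₀ (by positivity) (by linarith) hdpos hden
  set A : ℝ := ((D : ℝ) ^ 2) ^ κ with hA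
  set B : ℝ := (T / x0 ^ 2) ^ κ with hB
  have hA0 : 0 < A := by positivity
  have hB0 : 0 < B := by positivity
  have huκ : 0 < u ^ κ := Real.rpow_pos_of_pos hu0 _
  have hjκ : 0 < j ^ κ := Real.rpow_pos_of_pos hj0 _
  have hprod : Real.exp (-z) * (u ^ κ * j ^ κ) ≤ A * B := by
    have h1 : u ^ κ ≤ σ ^ κ := Real.rpow_le_rpow hu0.le (by linarith) hκ.le
    have h2 : j ^ κ ≤ ((D : ℝ) ^ 2 * σ) ^ κ := by
      apply Real.rpow_le_rpow hj0.le _ hκ.le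
      have h3 : j = |u - u'| * (b * b') := by rw [hju]; field_simp
      rw [h3, mul_comm]
      have h4 : |u - u'| ≤ σ := by
        rw [abs_le]; constructor <;> linarith
      have h5 : (b : ℝ) * b' ≤ (D : ℝ) ^ 2 := by rw [sq]; exact mul_le_mul hbR hbR' hb0'.le hD0.le
      exact mul_le_mul h5 h4 (abs_nonneg _) (by positivity)
    have h6 : σ ^ κ * ((D : ℝ) ^ 2 * σ) ^ κ = A * (z ^ κ * B) := by
      rw [hA, hB, ← Real.mul_rpow hσ0.le (by positivity), ← Real.mul_rpow hz0 (by positivity),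
        ← Real.mul_rpow (by positivity) (by positivity)]
      congr 1
      rw [hz]
      field_simp
    have h7 : Real.exp (-z) * z ^ κ ≤ 1 := by
      have h8 := OS_rpow hz0 hκ hκ1
      calc Real.exp (-z) * z ^ κ ≤ Real.exp (-z) * Real.exp z := mul_le_mul_of_nonneg_left h8 hE.le
        _ = 1 := by rw [← Real.exp_add, neg_add_cancel, Real.exp_zero]
    calc Real.exp (-z) * (u ^ κ * j ^ κ) ≤ Real.exp (-z) * (σ ^ κ * ((D : ℝ) ^ 2 * σ) ^ κ) := by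
          apply mul_le_mul_of_nonneg_left _ hE.le
          exact mul_le_mul h1 h2 hjκ.le (Real.rpow_nonneg hσ0.le _)
      _ = (Real.exp (-z) * z ^ κ) * (A * B) := by rw [h6]; ring
      _ ≤ 1 * (A * B) := mul_le_mul_of_nonneg_right h7 (by positivity)
      _ = A * B := one_mul _
  have eu : u ^ (-(1 + κ)) = (u * u ^ κ)⁻¹ := by
    rw [Real.rpow_neg hu0.le, Real.rpow_add hu0, Real.rpow_one]
  have ej : j ^ (-(1 + κ)) = (j * j ^ κ)⁻¹ := by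
    rw [Real.rpow_neg hj0.le, Real.rpow_add hj0, Real.rpow_one]
  rw [eu, ej]
  refine hstep1.trans ?_
  have hfin : 2 * Real.exp (-z) / (j / (b * b') * σ * x0) =
      (2 * b / x0) * (b' * (Real.exp (-z) / (j * σ))) := by
    field_simp
  have hfin2 : (2 * b * D * A * B / x0 * (u * u ^ κ)⁻¹) * (j * j ^ κ)⁻¹ =
      (2 * b / x0) * (D * (A * B * ((u * u ^ κ)⁻¹ * (j * j ^ κ)⁻¹))) := by
    ring
  rw [hfin, hfin2]
  apply mul_le_mul_of_nonneg_left _ (by positivity)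
  apply mul_le_mul hbR' _ (by positivity) hD0.le
  rw [← mul_inv, ← div_eq_mul_inv, div_le_div_iff₀ (by positivity) (by positivity)]
  calc Real.exp (-z) * (u * u ^ κ * (j * j ^ κ)) = (Real.exp (-z) * (u ^ κ * j ^ κ)) * (j * u) := by ring
    _ ≤ (A * B) * (j * σ) := by
      apply mul_le_mul hprod _ (by positivity) (by positivity)
      exact mul_le_mul_of_nonneg_left (by linarith) hj0.le

/-- The facts on the support. -/
private theorem OS_supp {M D : ℕ} {F : Finset (ℕ × ℕ)} {w : ℕ × ℕ → ℂ}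
    (hF : ∀ q ∈ F, q.1 ∈ Nat.smoothNumbers M ∧ q.2 ∈ Nat.smoothNumbers M) (hD : ∀ q ∈ F, q.2 ≤ D)
    {ρ : ℚ} {r : ℕ} (h : cs M F w ρ ≠ 0) (hr : Rough M r) :
    0 < ρ * r ∧ 1 ≤ (ρ * r).num.natAbs ∧ 1 ≤ (ρ * r).den ∧ (ρ * r).den ≤ D ∧
      ((ρ : ℝ) * r) = ((ρ * r).num.natAbs : ℝ) / ((ρ * r).den : ℝ) := by
  classical
  have hpos := (cs_pos hF h).1
  have hr0 : (0 : ℚ) < r := by exact_mod_cast Nat.pos_of_ne_zero hr.1
  have hq0 : 0 < ρ * r := mul_pos hpos hr0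
  have hnum : 0 < (ρ * r).num := Rat.num_pos.mpr hq0
  have hab : ((ρ * r).num.natAbs : ℤ) = (ρ * r).num := Int.natAbs_of_nonneg hnum.le
  refine ⟨hq0, ?_, (ρ * r).pos, ?_, ?_⟩
  · have := Int.natAbs_pos.mpr hnum.ne'
    exact this
  · unfold cs at h
    obtain ⟨q, hq, hq'⟩ := Finset.exists_ne_zero_of_sum_ne_zero h
    by_cases hl : ∃ l ∈ Nat.smoothNumbers M, (l : ℚ) * q.1 = ρ * q.2
    · obtain ⟨l, -, hl⟩ := hl
      have hq2 : (q.2 : ℚ) ≠ 0 := by exact_mod_cast Nat.ne_zero_of_mem_smoothNumbers (hF q hq).2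
      have e1 : ρ * r = (((l * q.1 * r : ℕ) : ℤ) : ℚ) / (((q.2 : ℕ) : ℤ) : ℚ) := by
        rw [eq_div_iff (by exact_mod_cast hq2)]
        push_cast
        rw [hl]
        ring
      have h1 := Rat.den_dvd ((l * q.1 * r : ℕ) : ℤ) ((q.2 : ℕ) : ℤ)
      rw [Rat.divInt_eq_div, ← e1] at h1
      have h2 : (ρ * r).den ∣ q.2 := by exact_mod_cast h1
      exact (Nat.le_of_dvd (Nat.pos_of_ne_zero (Nat.ne_zero_of_mem_smoothNumbers (hF q hq).2)) h2).trans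
        (hD q hq)
    · rw [if_neg hl] at hq'
      exact absurd rfl hq'
  · have e2 : ((ρ * r : ℚ) : ℝ) = ((ρ * r).num : ℝ) / ((ρ * r).den : ℝ) := Rat.cast_def _
    have e3 : ((ρ * r).num : ℝ) = ((ρ * r).num.natAbs : ℝ) := by
      rw [Nat.cast_natAbs, abs_of_pos hnum]
    rw [e3] at e2
    rw [← e2]
    push_cast
    rfl

private theorem OS_rho {M D : ℕ} {F : Finset (ℕ × ℕ)} {w : ℕ × ℕ → ℂ}
    (hF : ∀ q ∈ F, q.1 ∈ Nat.smoothNumbers M ∧ q.2 ∈ Nat.smoothNumbers M) (hD : ∀ q ∈ F, q.2 ≤ D)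
    {ρ : ℚ} (h : cs M F w ρ ≠ 0) : 0 < (ρ : ℝ) ∧ (1 : ℝ) ≤ ρ * D := by
  have h1 : Rough M 1 := ⟨one_ne_zero, fun p hp hd => absurd (Nat.dvd_one.mp hd) hp.one_lt.ne'⟩
  obtain ⟨a1, a2, a3, a4, a5⟩ := OS_supp hF hD h h1
  rw [Nat.cast_one, mul_one] at a1 a2 a3 a4 a5
  rw [Nat.cast_one, mul_one] at a5
  have a1' : 0 < (ρ : ℝ) := by exact_mod_cast a1
  refine ⟨a1', ?_⟩
  have b1 : (1 : ℝ) ≤ ρ.num.natAbs := by exact_mod_cast a2
  have b2 : (1 : ℝ) ≤ ρ.den := by exact_mod_cast a3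
  have b3 : (ρ.den : ℝ) ≤ D := by exact_mod_cast a4
  have b4 : (ρ : ℝ) * ρ.den = ρ.num.natAbs := by
    rw [a5]
    field_simp
  nlinarith

open Classical in
private theorem OS_row {κ K T x0 : ℝ} (hκ : 0 < κ) (hκ1 : κ ≤ 1) (hK : 1 ≤ K)
    (hcount : ∀ a b D : ℕ, 1 ≤ b → Nat.Coprime a b →
      ∑' v : ℕ × ℕ, (if 1 ≤ v.2 ∧ v.2 ≤ D ∧ a * v.2 ≠ v.1 * b then
        ENNReal.ofReal (|(a : ℝ) * v.2 - v.1 * b| ^ (-(1 + κ))) else 0) ≤
      ENNReal.ofReal (K * ((D : ℝ) / b + 1))) (hT : 1 ≤ T) (hx : 0 < x0)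
    {M D : ℕ} {F : Finset (ℕ × ℕ)} {w : ℕ × ℕ → ℂ}
    (hF : ∀ q ∈ F, q.1 ∈ Nat.smoothNumbers M ∧ q.2 ∈ Nat.smoothNumbers M) (hD : ∀ q ∈ F, q.2 ≤ D)
    {k : ℚ × ℕ} (hk : cs M F w k.1 ≠ 0) (hr : Rough M k.2) :
    ∑' k' : ℚ × ℕ, (if Rough M k'.2 ∧ cs M F w k'.1 ≠ 0 ∧ k.1 * k.2 ≠ k'.1 * k'.2 then
      ENNReal.ofReal (OS_K T x0 ((k.1 : ℝ) * k.2) ((k'.1 : ℝ) * k'.2)) else 0) ≤
      ENNReal.ofReal (4 * K * (D : ℝ) ^ 2 * ((D : ℝ) ^ 2) ^ κ * (T / x0 ^ 2) ^ κ / x0 *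
        ((k.1 : ℝ) * k.2) ^ (-(1 + κ))) := by
  obtain ⟨c1, c2, c3, c4, c5⟩ := OS_supp hF hD hk hr
  set a : ℕ := (k.1 * k.2).num.natAbs with ha
  set b : ℕ := (k.1 * k.2).den with hb
  have hT0 : 0 < T := by linarith
  have hcop : Nat.Coprime a b := (k.1 * k.2).reduced
  set Cb : ℝ := 2 * b * D * ((D : ℝ) ^ 2) ^ κ * (T / x0 ^ 2) ^ κ / x0 * ((a : ℝ) / b) ^ (-(1 + κ))
    with hCb
  have hb0 : (1 : ℝ) ≤ b := by exact_mod_cast c3
  have ha0 : (1 : ℝ) ≤ a := by exact_mod_cast c2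
  have hbD : (b : ℝ) ≤ D := by exact_mod_cast c4
  have hCb0 : 0 ≤ Cb := by rw [hCb]; positivity
  have h1 : ∑' k' : ℚ × ℕ, (if Rough M k'.2 ∧ cs M F w k'.1 ≠ 0 ∧ k.1 * k.2 ≠ k'.1 * k'.2 then
      ENNReal.ofReal (OS_K T x0 ((k.1 : ℝ) * k.2) ((k'.1 : ℝ) * k'.2)) else 0) ≤
      ∑' v : ℕ × ℕ, ENNReal.ofReal Cb * (if 1 ≤ v.2 ∧ v.2 ≤ D ∧ a * v.2 ≠ v.1 * b then
        ENNReal.ofReal (|(a : ℝ) * v.2 - v.1 * b| ^ (-(1 + κ))) else 0) := by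
    refine OS_tsum_le (fun k' : ℚ × ℕ => Rough M k'.2 ∧ cs M F w k'.1 ≠ 0 ∧ k.1 * k.2 ≠ k'.1 * k'.2)
      (fun k' : ℚ × ℕ => ENNReal.ofReal (OS_K T x0 ((k.1 : ℝ) * k.2) ((k'.1 : ℝ) * k'.2)))
      (fun v : ℕ × ℕ => ENNReal.ofReal Cb * (if 1 ≤ v.2 ∧ v.2 ≤ D ∧ a * v.2 ≠ v.1 * b then
        ENNReal.ofReal (|(a : ℝ) * v.2 - v.1 * b| ^ (-(1 + κ))) else 0))
      (fun k' : ℚ × ℕ => ((k'.1 * k'.2).num.natAbs, (k'.1 * k'.2).den)) ?_ ?_
    · intro y y' hy hy' hyy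
      obtain ⟨d1, -, -, -, -⟩ := OS_supp hF hD hy.2.1 hy.1
      obtain ⟨d1', -, -, -, -⟩ := OS_supp hF hD hy'.2.1 hy'.1
      have h2 := (Prod.mk.inj hyy).1
      have h3 := (Prod.mk.inj hyy).2
      have h4 : y.1 * y.2 = y'.1 * y'.2 := by
        apply Rat.ext _ h3
        rw [← Int.natAbs_of_nonneg (Rat.num_pos.mpr d1).le, ← Int.natAbs_of_nonneg (Rat.num_pos.mpr d1').le, h2]
      have h5 := cs_inj hF hy.2.1 hy'.2.1 hy.1 hy'.1 h4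
      exact Prod.ext h5.1 h5.2
    · intro y hy
      obtain ⟨d1, d2, d3, d4, d5⟩ := OS_supp hF hD hy.2.1 hy.1
      have hne : a * (y.1 * y.2).den ≠ (y.1 * y.2).num.natAbs * b := by
        intro h
        apply hy.2.2
        have h6 : ((k.1 : ℝ) * k.2) = ((y.1 : ℝ) * y.2) := by
          rw [c5, d5]
          have e3 : (1 : ℝ) ≤ ((y.1 * y.2).den : ℝ) := by exact_mod_cast d3
          rw [div_eq_div_iff (by linarith) (by linarith)]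
          exact_mod_cast h
        exact_mod_cast h6
      show ENNReal.ofReal (OS_K T x0 ((k.1 : ℝ) * k.2) ((y.1 : ℝ) * y.2)) ≤
        ENNReal.ofReal Cb * (if 1 ≤ (y.1 * y.2).den ∧ (y.1 * y.2).den ≤ D ∧
          a * (y.1 * y.2).den ≠ (y.1 * y.2).num.natAbs * b then
          ENNReal.ofReal (|(a : ℝ) * ((y.1 * y.2).den : ℕ) - ((y.1 * y.2).num.natAbs : ℕ) * b| ^ (-(1 + κ))) else 0)
      rw [if_pos ⟨d3, d4, hne⟩, ← ENNReal.ofReal_mul hCb0]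
      apply ENNReal.ofReal_le_ofReal
      rw [c5, d5]
      exact OS_point hκ hκ1 hT hx c2 c3 d2 d3 c4 d4 hne
  refine h1.trans ?_
  rw [ENNReal.tsum_mul_left]
  refine (mul_le_mul_right (hcount a b D c3 hcop) _).trans ?_
  rw [← ENNReal.ofReal_mul hCb0]
  apply ENNReal.ofReal_le_ofReal
  rw [hCb, c5]
  have hX : 0 ≤ D * ((D : ℝ) ^ 2) ^ κ * (T / x0 ^ 2) ^ κ / x0 * ((a : ℝ) / b) ^ (-(1 + κ)) := by positivity
  have e4 : 2 * b * D * ((D : ℝ) ^ 2) ^ κ * (T / x0 ^ 2) ^ κ / x0 * ((a : ℝ) / b) ^ (-(1 + κ)) *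
      (K * ((D : ℝ) / b + 1)) = (D * ((D : ℝ) ^ 2) ^ κ * (T / x0 ^ 2) ^ κ / x0 * ((a : ℝ) / b) ^ (-(1 + κ))) *
        (2 * K * (D + b)) := by
    field_simp
  have e5 : 4 * K * (D : ℝ) ^ 2 * ((D : ℝ) ^ 2) ^ κ * (T / x0 ^ 2) ^ κ / x0 * ((a : ℝ) / b) ^ (-(1 + κ)) =
      (D * ((D : ℝ) ^ 2) ^ κ * (T / x0 ^ 2) ^ κ / x0 * ((a : ℝ) / b) ^ (-(1 + κ))) * (4 * K * D) := by
    ring
  rw [e4, e5]
  apply mul_le_mul_of_nonneg_left _ hX
  nlinarith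

open Classical in
theorem off_sum4 {κ : ℝ} (hκ : 0 < κ) (hκ1 : κ ≤ 1) : ∃ C : ℝ, 1 ≤ C ∧
    ∀ (T x0 : ℝ) (M D : ℕ) (F : Finset (ℕ × ℕ)) (w : ℕ × ℕ → ℂ), 2 ≤ T → T⁻¹ ≤ x0 → 1 ≤ D →
    (D : ℝ) ≤ T → (∀ q ∈ F, q.1 ∈ Nat.smoothNumbers M ∧ q.2 ∈ Nat.smoothNumbers M) →
    (∀ q ∈ F, q.2 ≤ D) →
    ∑' k : ℚ × ℕ, ∑' k' : ℚ × ℕ, (if Rough M k.2 ∧ Rough M k'.2 ∧ k.1 * k.2 ≠ k'.1 * k'.2 then
      ENNReal.ofReal (‖cs M F w k.1‖ * ‖cs M F w k'.1‖ *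
        (2 * Real.exp (-π * (((k.1 : ℝ) * k.2) ^ 2 + ((k'.1 : ℝ) * k'.2) ^ 2) * x0 ^ 2 *
            Real.sin (1 / T)) /
          (π * |((k.1 : ℝ) * k.2) ^ 2 - ((k'.1 : ℝ) * k'.2) ^ 2| * x0 * Real.cos (1 / T)))) else 0) ≤
      ENNReal.ofReal (C * (D : ℝ) ^ 2 * T ^ (6 * κ) / x0 * BB M F w 0) := by
  obtain ⟨K, hK1, hcount⟩ := count hκ
  obtain ⟨Z, hZdef⟩ : ∃ Z : ℝ, Z = ∑' r : ℕ, (r : ℝ) ^ (-(1 + κ)) := ⟨_, rfl⟩
  have hsum : Summable (fun r : ℕ => (r : ℝ) ^ (-(1 + κ))) := Real.summable_nat_rpow.mpr (by linarith)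
  have hZ : ∑' r : ℕ, ENNReal.ofReal ((r : ℝ) ^ (-(1 + κ))) = ENNReal.ofReal Z := by
    rw [hZdef, ENNReal.ofReal_tsum_of_nonneg (fun _ => by positivity) hsum]
  have hZ0 : 0 ≤ Z := by rw [hZdef]; exact tsum_nonneg fun _ => by positivity
  refine ⟨4 * K * Z + 1, by nlinarith, ?_⟩
  intro T x0 M D F w hT hx0 hD1 hDT hF hFD
  have hT1 : 1 ≤ T := by linarith
  have hT0 : 0 < T := by linarith
  have hx : 0 < x0 := lt_of_lt_of_le (by positivity) hx0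
  have hD0 : (1 : ℝ) ≤ D := by exact_mod_cast hD1
  -- symmetrization
  obtain ⟨T1, hT1def⟩ : ∃ T1 : ℚ × ℕ → ℚ × ℕ → ENNReal, T1 = fun k k' : ℚ × ℕ =>
      if Rough M k.2 ∧ cs M F w k.1 ≠ 0 ∧ Rough M k'.2 ∧ cs M F w k'.1 ≠ 0 ∧ k.1 * k.2 ≠ k'.1 * k'.2 then
        ENNReal.ofReal (‖cs M F w k.1‖ ^ 2 / 2 * OS_K T x0 ((k.1 : ℝ) * k.2) ((k'.1 : ℝ) * k'.2)) else 0 := ⟨_, rfl⟩
  have hpt : ∀ k k' : ℚ × ℕ, (if Rough M k.2 ∧ Rough M k'.2 ∧ k.1 * k.2 ≠ k'.1 * k'.2 then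
      ENNReal.ofReal (‖cs M F w k.1‖ * ‖cs M F w k'.1‖ *
        (2 * Real.exp (-π * (((k.1 : ℝ) * k.2) ^ 2 + ((k'.1 : ℝ) * k'.2) ^ 2) * x0 ^ 2 *
            Real.sin (1 / T)) /
          (π * |((k.1 : ℝ) * k.2) ^ 2 - ((k'.1 : ℝ) * k'.2) ^ 2| * x0 * Real.cos (1 / T)))) else 0) ≤
      T1 k k' + T1 k' k := by
    intro k k'
    by_cases hc : Rough M k.2 ∧ Rough M k'.2 ∧ k.1 * k.2 ≠ k'.1 * k'.2
    · rw [if_pos hc]
      by_cases h1 : cs M F w k.1 = 0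
      · rw [h1, norm_zero, zero_mul, zero_mul, ENNReal.ofReal_zero]
        exact zero_le
      by_cases h2 : cs M F w k'.1 = 0
      · rw [h2, norm_zero, mul_zero, zero_mul, ENNReal.ofReal_zero]
        exact zero_le
      rw [hT1def]
      show _ ≤ (if _ then _ else _) + (if _ then _ else _)
      rw [if_pos ⟨hc.1, h1, hc.2.1, h2, hc.2.2⟩, if_pos ⟨hc.2.1, h2, hc.1, h1, hc.2.2.symm⟩]
      have hK0 := OS_K_nonneg hT1 hx ((k.1 : ℝ) * k.2) ((k'.1 : ℝ) * k'.2)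
      have hK0' := OS_K_nonneg hT1 hx ((k'.1 : ℝ) * k'.2) ((k.1 : ℝ) * k.2)
      rw [← ENNReal.ofReal_add (by positivity) (by positivity), OS_K_symm T x0 ((k'.1 : ℝ) * k'.2)]
      apply ENNReal.ofReal_le_ofReal
      have e1 : (2 * Real.exp (-π * (((k.1 : ℝ) * k.2) ^ 2 + ((k'.1 : ℝ) * k'.2) ^ 2) * x0 ^ 2 *
            Real.sin (1 / T)) /
          (π * |((k.1 : ℝ) * k.2) ^ 2 - ((k'.1 : ℝ) * k'.2) ^ 2| * x0 * Real.cos (1 / T))) =
          OS_K T x0 ((k.1 : ℝ) * k.2) ((k'.1 : ℝ) * k'.2) := rfl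
      rw [e1, ← add_mul]
      apply mul_le_mul_of_nonneg_right _ hK0
      nlinarith [sq_nonneg (‖cs M F w k.1‖ - ‖cs M F w k'.1‖)]
    · rw [if_neg hc]
      exact zero_le
  have hsym : ∑' k : ℚ × ℕ, ∑' k' : ℚ × ℕ, (T1 k k' + T1 k' k) = 2 * ∑' k : ℚ × ℕ, ∑' k' : ℚ × ℕ, T1 k k' := by
    simp_rw [ENNReal.tsum_add]
    rw [ENNReal.tsum_comm (f := fun k k' => T1 k' k), two_mul]
  obtain ⟨W, hW⟩ : ∃ W : ℝ, W = 4 * K * (D : ℝ) ^ 2 * ((D : ℝ) ^ 2) ^ κ * (T / x0 ^ 2) ^ κ / x0 := ⟨_, rfl⟩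
  have hW0 : 0 ≤ W := by rw [hW]; positivity
  have hrow : ∀ k : ℚ × ℕ, ∑' k' : ℚ × ℕ, T1 k k' ≤
      (if Rough M k.2 ∧ cs M F w k.1 ≠ 0 then
        ENNReal.ofReal (‖cs M F w k.1‖ ^ 2 / 2) * ENNReal.ofReal (W * ((k.1 : ℝ) * k.2) ^ (-(1 + κ))) else 0) := by
    intro k
    by_cases hk : Rough M k.2 ∧ cs M F w k.1 ≠ 0
    · rw [if_pos hk]
      have e1 : ∀ k' : ℚ × ℕ, T1 k k' = ENNReal.ofReal (‖cs M F w k.1‖ ^ 2 / 2) *
          (if Rough M k'.2 ∧ cs M F w k'.1 ≠ 0 ∧ k.1 * k.2 ≠ k'.1 * k'.2 then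
            ENNReal.ofReal (OS_K T x0 ((k.1 : ℝ) * k.2) ((k'.1 : ℝ) * k'.2)) else 0) := by
        intro k'
        rw [hT1def]
        show (if _ then _ else _) = _
        by_cases hc : Rough M k'.2 ∧ cs M F w k'.1 ≠ 0 ∧ k.1 * k.2 ≠ k'.1 * k'.2
        · rw [if_pos ⟨hk.1, hk.2, hc⟩, if_pos hc, ENNReal.ofReal_mul (by positivity)]
        · rw [if_neg (fun h => hc h.2.2), if_neg hc, mul_zero]
      simp_rw [e1]
      rw [ENNReal.tsum_mul_left]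
      refine mul_le_mul_right ?_ _
      rw [hW]
      exact OS_row hκ hκ1 hK1 hcount hT1 hx hF hFD hk.2 hk.1
    · rw [if_neg hk]
      have e1 : ∀ k' : ℚ × ℕ, T1 k k' = 0 := by
        intro k'
        rw [hT1def]
        show (if _ then _ else _) = _
        rw [if_neg (fun h => hk ⟨h.1, h.2.1⟩)]
      simp_rw [e1]
      rw [tsum_zero]
  -- the diagonal sum
  have hdiag : ∀ k : ℚ × ℕ, 2 * (if Rough M k.2 ∧ cs M F w k.1 ≠ 0 then
        ENNReal.ofReal (‖cs M F w k.1‖ ^ 2 / 2) * ENNReal.ofReal (W * ((k.1 : ℝ) * k.2) ^ (-(1 + κ))) else 0) ≤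
      ENNReal.ofReal (W * (D : ℝ) ^ κ) * (ENNReal.ofReal (‖cs M F w k.1‖ ^ 2 * (k.1 : ℝ) ^ (-1 + (0 : ℝ))) *
        ENNReal.ofReal ((k.2 : ℝ) ^ (-(1 + κ)))) := by
    intro k
    by_cases hk : Rough M k.2 ∧ cs M F w k.1 ≠ 0
    · rw [if_pos hk]
      obtain ⟨hρ0, hρD⟩ := OS_rho hF hFD hk.2
      have hr0 : (0 : ℝ) < k.2 := by exact_mod_cast Nat.pos_of_ne_zero hk.1.1
      have e2 : (2 : ENNReal) = ENNReal.ofReal 2 := by norm_num
      rw [e2, ← ENNReal.ofReal_mul (by positivity), ← ENNReal.ofReal_mul (by norm_num),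
        ← ENNReal.ofReal_mul (by positivity), ← ENNReal.ofReal_mul (by positivity)]
      apply ENNReal.ofReal_le_ofReal
      have e3 : ((k.1 : ℝ) * k.2) ^ (-(1 + κ)) = (k.1 : ℝ) ^ (-1 + (0 : ℝ)) * (k.1 : ℝ) ^ (-κ) * (k.2 : ℝ) ^ (-(1 + κ)) := by
        rw [Real.mul_rpow hρ0.le hr0.le, ← Real.rpow_add hρ0]
        congr 2
        ring
      have e4 : (k.1 : ℝ) ^ (-κ) ≤ (D : ℝ) ^ κ := by
        rw [Real.rpow_neg hρ0.le, inv_le_iff_one_le_mul₀ (Real.rpow_pos_of_pos hρ0 _),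
          ← Real.mul_rpow (by positivity) hρ0.le, mul_comm]
        exact Real.one_le_rpow hρD hκ.le
      rw [e3]
      have hX : 0 ≤ W * ‖cs M F w k.1‖ ^ 2 * (k.1 : ℝ) ^ (-1 + (0 : ℝ)) * (k.2 : ℝ) ^ (-(1 + κ)) := by positivity
      calc 2 * (‖cs M F w k.1‖ ^ 2 / 2 * (W * ((k.1 : ℝ) ^ (-1 + (0 : ℝ)) * (k.1 : ℝ) ^ (-κ) * (k.2 : ℝ) ^ (-(1 + κ)))))
          = (W * ‖cs M F w k.1‖ ^ 2 * (k.1 : ℝ) ^ (-1 + (0 : ℝ)) * (k.2 : ℝ) ^ (-(1 + κ))) * (k.1 : ℝ) ^ (-κ) := by ring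
        _ ≤ (W * ‖cs M F w k.1‖ ^ 2 * (k.1 : ℝ) ^ (-1 + (0 : ℝ)) * (k.2 : ℝ) ^ (-(1 + κ))) * (D : ℝ) ^ κ :=
          mul_le_mul_of_nonneg_left e4 hX
        _ = _ := by ring
    · rw [if_neg hk, mul_zero]
      exact zero_le
  have hprodsum : ∑' k : ℚ × ℕ, (ENNReal.ofReal (‖cs M F w k.1‖ ^ 2 * (k.1 : ℝ) ^ (-1 + (0 : ℝ))) *
        ENNReal.ofReal ((k.2 : ℝ) ^ (-(1 + κ)))) ≤ ENNReal.ofReal (BB M F w 0) * ENNReal.ofReal Z := by
    rw [ENNReal.tsum_prod (f := fun (ρ : ℚ) (r : ℕ) => ENNReal.ofReal (‖cs M F w ρ‖ ^ 2 * (ρ : ℝ) ^ (-1 + (0 : ℝ))) *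
        ENNReal.ofReal ((r : ℝ) ^ (-(1 + κ))))]
    simp_rw [ENNReal.tsum_mul_left, hZ, ENNReal.tsum_mul_right]
    exact mul_le_mul_left (bessel (η := 0) le_rfl (by norm_num) hF) _
  calc ∑' k : ℚ × ℕ, ∑' k' : ℚ × ℕ, (if Rough M k.2 ∧ Rough M k'.2 ∧ k.1 * k.2 ≠ k'.1 * k'.2 then
      ENNReal.ofReal (‖cs M F w k.1‖ * ‖cs M F w k'.1‖ *
        (2 * Real.exp (-π * (((k.1 : ℝ) * k.2) ^ 2 + ((k'.1 : ℝ) * k'.2) ^ 2) * x0 ^ 2 *
            Real.sin (1 / T)) /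
          (π * |((k.1 : ℝ) * k.2) ^ 2 - ((k'.1 : ℝ) * k'.2) ^ 2| * x0 * Real.cos (1 / T)))) else 0)
      ≤ ∑' k : ℚ × ℕ, ∑' k' : ℚ × ℕ, (T1 k k' + T1 k' k) :=
        ENNReal.tsum_le_tsum fun k => ENNReal.tsum_le_tsum fun k' => hpt k k'
    _ = 2 * ∑' k : ℚ × ℕ, ∑' k' : ℚ × ℕ, T1 k k' := hsym
    _ = ∑' k : ℚ × ℕ, 2 * ∑' k' : ℚ × ℕ, T1 k k' := by rw [ENNReal.tsum_mul_left]
    _ ≤ ∑' k : ℚ × ℕ, ENNReal.ofReal (W * (D : ℝ) ^ κ) * (ENNReal.ofReal (‖cs M F w k.1‖ ^ 2 * (k.1 : ℝ) ^ (-1 + (0 : ℝ))) *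
        ENNReal.ofReal ((k.2 : ℝ) ^ (-(1 + κ)))) :=
        ENNReal.tsum_le_tsum fun k => (mul_le_mul_right (hrow k) 2).trans (hdiag k)
    _ ≤ ENNReal.ofReal (W * (D : ℝ) ^ κ) * (ENNReal.ofReal (BB M F w 0) * ENNReal.ofReal Z) := by
        rw [ENNReal.tsum_mul_left]
        exact mul_le_mul_right hprodsum _
    _ = ENNReal.ofReal (W * (D : ℝ) ^ κ * Z) * ENNReal.ofReal (BB M F w 0) := by
        rw [ENNReal.ofReal_mul (by positivity : 0 ≤ W * (D : ℝ) ^ κ)]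
        ring
    _ ≤ ENNReal.ofReal ((4 * K * Z + 1) * (D : ℝ) ^ 2 * T ^ (6 * κ) / x0) * ENNReal.ofReal (BB M F w 0) := by
        refine mul_le_mul_left (ENNReal.ofReal_le_ofReal ?_) _
        have h1 : ((D : ℝ) ^ 2) ^ κ * (T / x0 ^ 2) ^ κ * (D : ℝ) ^ κ ≤ T ^ (6 * κ) := by
          rw [← Real.mul_rpow (by positivity) (by positivity), ← Real.mul_rpow (by positivity) (by positivity),
            Real.rpow_mul hT0.le]
          apply Real.rpow_le_rpow (by positivity) _ hκ.le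
          have h2 : x0⁻¹ ≤ T := by
            rw [inv_le_comm₀ hx hT0]
            exact hx0
          have h3 : 0 < x0⁻¹ := by positivity
          have h4 : (D : ℝ) ^ 2 * (T / x0 ^ 2) * D = (D : ℝ) ^ 3 * T * (x0⁻¹) ^ 2 := by
            field_simp
          rw [h4]
          have h5 : (6 : ℝ) = ((6 : ℕ) : ℝ) := by norm_num
          rw [h5, Real.rpow_natCast]
          calc (D : ℝ) ^ 3 * T * (x0⁻¹) ^ 2 ≤ T ^ 3 * T * T ^ 2 := by
                apply mul_le_mul _ (pow_le_pow_left₀ h3.le h2 2) (by positivity) (by positivity)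
                exact mul_le_mul_of_nonneg_right (pow_le_pow_left₀ (by linarith) hDT 3) hT0.le
            _ = T ^ 6 := by ring
        have h6 : W * (D : ℝ) ^ κ * Z = (4 * K * Z) * ((D : ℝ) ^ 2 / x0) *
            (((D : ℝ) ^ 2) ^ κ * (T / x0 ^ 2) ^ κ * (D : ℝ) ^ κ) := by
          rw [hW]
          ring
        rw [h6]
        have h7 : (4 * K * Z + 1) * (D : ℝ) ^ 2 * T ^ (6 * κ) / x0 = (4 * K * Z + 1) * ((D : ℝ) ^ 2 / x0) * T ^ (6 * κ) := by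
          ring
        rw [h7]
        apply mul_le_mul _ h1 (by positivity) (by positivity)
        apply mul_le_mul_of_nonneg_right (by linarith) (by positivity)
    _ = _ := by
        rw [← ENNReal.ofReal_mul (by positivity)]

end Pool.Agent.UV
end

section

/-! TASK HL. The mean square of `GG` on `log x0 < y ≤ log x0 + 2 log T`. (Template: the proof of `r2` in GH/R2.lean, which is the case `x0 = 1`.)
`GG_sq_le` (used in `r2`): `‖GG T F w y‖² ≤ 8 e^y ‖SS T F w (e^y)‖² + 2 e^{-y} (∑ ‖wa (-1/2) w q‖)²`. Substitution `x = e^y` (as `R2_subst`, now for `Ioc (log x0) (log x0 + 2 log T)` and `Ioc x0 (x0 T²)`):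
`∫ e^y ‖SS(e^y)‖² dy = ∫_{(x0, x0T²]} ‖SS‖²`, and `∫_{y > log x0} 2 e^{-y} A² dy = 2A²/x0` (`A = ∑ ‖wa (-1/2) w q‖`). By `off_diag4` (`X = x0 T²`, `M = MM T`) the integral of `‖SS‖²` is at most
diagonal `≤ C T^{1/2} ∑_ρ ‖cs ρ‖²/ρ ≤ C T^{1/2} BB` (`dg4`, `bessel` with `η = 0`, exactly as in `r2`) plus `off_sum4` with the exponent `κ/12`: `C_κ D² T^{κ/2} x0^{-1} BB ≤ C_κ T^{-κ/2} T^{1/2} BB ≤ T^{1/2} BB` for `T ≥ T0(κ)`, by the hypothesis `D² T^κ ≤ x0 T^{1/2}`.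
So the constant is `8(C+1)` with the absolute `C` of `dg4`. -/

set_option autoImplicit false

namespace Pool.Agent.UV

open Complex MeasureTheory Finset Pool.Agent.GH
open scoped Real ComplexConjugate

private theorem HL_subst {T x0 : ℝ} (hT : 1 ≤ T) (hx0 : 0 < x0) (f : ℝ → ENNReal) :
    ∫⁻ y in Set.Ioc (Real.log x0) (Real.log x0 + 2 * Real.log T),
      ENNReal.ofReal (Real.exp y) * f (Real.exp y) = ∫⁻ x in Set.Ioc x0 (x0 * T ^ 2), f x := by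
  have hT0 : 0 < T := by linarith
  have h1 : Real.exp '' Set.Ioc (Real.log x0) (Real.log x0 + 2 * Real.log T) =
      Set.Ioc x0 (x0 * T ^ 2) := by
    ext x
    constructor
    · rintro ⟨y, hy, rfl⟩
      refine ⟨(Real.log_lt_iff_lt_exp hx0).mp hy.1, ?_⟩
      calc Real.exp y ≤ Real.exp (Real.log x0 + 2 * Real.log T) := Real.exp_le_exp.mpr hy.2
        _ = x0 * T ^ 2 := by
          rw [Real.exp_add, Real.exp_log hx0, two_mul, Real.exp_add, Real.exp_log hT0, sq]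
    · rintro ⟨hx1, hx2⟩
      have hx : 0 < x := by linarith
      refine ⟨Real.log x, ⟨Real.log_lt_log hx0 hx1, ?_⟩, Real.exp_log hx⟩
      calc Real.log x ≤ Real.log (x0 * T ^ 2) := Real.log_le_log hx hx2
        _ = Real.log x0 + 2 * Real.log T := by
          rw [Real.log_mul hx0.ne' (by positivity), Real.log_pow]
          norm_num
  rw [← h1, lintegral_image_eq_lintegral_abs_deriv_mul measurableSet_Ioc
    (fun x _ => (Real.hasDerivAt_exp x).hasDerivWithinAt) (Real.exp_injective.injOn)]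
  refine lintegral_congr fun y => ?_
  rw [abs_of_pos (Real.exp_pos y)]

private theorem HL_exp_int (c : ℝ) : ∫⁻ y in Set.Ioi c, ENNReal.ofReal (Real.exp (-y)) =
    ENNReal.ofReal (Real.exp (-c)) := by
  have hint : IntegrableOn (fun y : ℝ => Real.exp (-y)) (Set.Ioi c) := by
    have := exp_neg_integrableOn_Ioi c one_pos
    simpa using this
  rw [← ofReal_integral_eq_lintegral_ofReal hint
    (Filter.Eventually.of_forall fun x => (Real.exp_pos _).le), integral_exp_neg_Ioi]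

theorem half_main : ∃ C : ℝ, 1 ≤ C ∧ ∀ κ : ℝ, 0 < κ → κ ≤ 1 → ∃ T0 : ℝ, 2 ≤ T0 ∧
    ∀ (T x0 : ℝ) (D : ℕ) (F : Finset (ℕ × ℕ)) (w : ℕ × ℕ → ℂ), T0 ≤ T → T⁻¹ ≤ x0 → 1 ≤ D →
    (D : ℝ) ≤ T → (D : ℝ) ^ 2 * T ^ κ ≤ x0 * T ^ (1 / 2 : ℝ) →
    (∀ q ∈ F, q.1 ∈ Nat.smoothNumbers (MM T) ∧ q.2 ∈ Nat.smoothNumbers (MM T)) →
    (∀ q ∈ F, q.2 ≤ D) →
    ∫⁻ y in Set.Ioc (Real.log x0) (Real.log x0 + 2 * Real.log T), ENNReal.ofReal (‖GG T F w y‖ ^ 2) ≤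
    ENNReal.ofReal (C * T ^ (1 / 2 : ℝ) * BB (MM T) F w 0 +
      2 * (∑ q ∈ F, ‖wa (-1 / 2) w q‖) ^ 2 / x0) := by
  classical
  obtain ⟨C, T1, hC, hT1, H⟩ := dg4
  refine ⟨8 * (C + 1), by linarith, ?_⟩
  intro κ hκ hκ1
  obtain ⟨K, hK1, hoff⟩ := off_sum4 (κ := κ / 12) (by positivity) (by linarith)
  refine ⟨max (max 2 T1) (K ^ (2 / κ)), (le_max_left _ _).trans (le_max_left _ _), ?_⟩
  intro T x0 D F w hT hx0 hD hDT hDκ hsm hFD
  have hT2 : 2 ≤ T := ((le_max_left _ _).trans (le_max_left _ _)).trans hT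
  have hTT1 : T1 ≤ T := ((le_max_right _ _).trans (le_max_left _ _)).trans hT
  have hTK : K ^ (2 / κ) ≤ T := (le_max_right _ _).trans hT
  have hT' : 1 ≤ T := by linarith
  have hT0 : 0 < T := by linarith
  have hx0pos : 0 < x0 := (inv_pos.mpr hT0).trans_le hx0
  have hF : ∀ q ∈ F, q.1 ≠ 0 ∧ q.2 ≠ 0 := fun q hq =>
    ⟨Nat.ne_zero_of_mem_smoothNumbers (hsm q hq).1, Nat.ne_zero_of_mem_smoothNumbers (hsm q hq).2⟩
  have hlogT : 0 ≤ Real.log T := Real.log_nonneg hT'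
  set M := MM T with hM
  set A := ∑ q ∈ F, ‖wa (-1 / 2) w q‖ with hA
  have hBB : 0 ≤ BB M F w 0 := by
    unfold BB
    exact integral_nonneg fun v => by positivity
  -- the off-diagonal part
  have hKT : K ≤ T ^ (κ / 2) := by
    have hK0 : 0 ≤ K := by linarith
    calc K = (K ^ (2 / κ)) ^ (κ / 2) := by
          rw [← Real.rpow_mul hK0]
          rw [show 2 / κ * (κ / 2) = 1 by field_simp]
          rw [Real.rpow_one]
      _ ≤ T ^ (κ / 2) := Real.rpow_le_rpow (Real.rpow_nonneg hK0 _) hTK (by positivity)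
  have hoffb : K * (D : ℝ) ^ 2 * T ^ (6 * (κ / 12)) / x0 * BB M F w 0 ≤
      T ^ (1 / 2 : ℝ) * BB M F w 0 := by
    refine mul_le_mul_of_nonneg_right ?_ hBB
    rw [div_le_iff₀ hx0pos]
    have e1 : T ^ (6 * (κ / 12)) = T ^ (κ / 2) := by
      congr 1
      ring
    have e2 : T ^ (κ / 2) * T ^ (κ / 2) = T ^ κ := by
      rw [← Real.rpow_add hT0]
      congr 1
      ring
    rw [e1]
    calc K * (D : ℝ) ^ 2 * T ^ (κ / 2) ≤ T ^ (κ / 2) * (D : ℝ) ^ 2 * T ^ (κ / 2) := by gcongr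
      _ = (D : ℝ) ^ 2 * T ^ κ := by rw [← e2]; ring
      _ ≤ x0 * T ^ (1 / 2 : ℝ) := hDκ
      _ = T ^ (1 / 2 : ℝ) * x0 := mul_comm _ _
  -- the mean square of the theta part
  have hdiag : ∫⁻ x in Set.Ioc x0 (x0 * T ^ 2), ENNReal.ofReal (‖SS T F w x‖ ^ 2) ≤
      ENNReal.ofReal ((C + 1) * T ^ (1 / 2 : ℝ) * BB M F w 0) := by
    have hX : x0 ≤ x0 * T ^ 2 := le_mul_of_one_le_right hx0pos.le (one_le_pow₀ hT')
    refine (off_diag4 T x0 (x0 * T ^ 2) M F w hT' hx0pos hX hsm).trans ?_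
    rw [show (C + 1) * T ^ (1 / 2 : ℝ) * BB M F w 0 =
      C * T ^ (1 / 2 : ℝ) * BB M F w 0 + T ^ (1 / 2 : ℝ) * BB M F w 0 by ring,
      ENNReal.ofReal_add (by positivity) (by positivity)]
    refine add_le_add ?_ ((hoff T x0 M D F w hT2 hx0 hD hDT hsm hFD).trans
      (ENNReal.ofReal_le_ofReal hoffb))
    rw [ENNReal.tsum_prod (f := fun (ρ : ℚ) (r : ℕ) => if Rough M r then
      ENNReal.ofReal (‖cs M F w ρ‖ ^ 2) * ∫⁻ x in Set.Ioc x0 (x0 * T ^ 2), ENNReal.ofReal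
          (Real.exp (-2 * π * ((ρ : ℝ) * r * x) ^ 2 * Real.sin (1 / T))) else 0)]
    have hb := bessel (M := M) (F := F) (w := w) (η := 0) le_rfl (by norm_num) hsm
    calc ∑' (ρ : ℚ) (r : ℕ), (if Rough M r then
          ENNReal.ofReal (‖cs M F w ρ‖ ^ 2) * ∫⁻ x in Set.Ioc x0 (x0 * T ^ 2), ENNReal.ofReal
          (Real.exp (-2 * π * ((ρ : ℝ) * r * x) ^ 2 * Real.sin (1 / T))) else 0)
        ≤ ∑' ρ : ℚ, ENNReal.ofReal (C * T ^ (1 / 2 : ℝ)) *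
            ENNReal.ofReal (‖cs M F w ρ‖ ^ 2 * (ρ : ℝ) ^ (-1 + 0 : ℝ)) := by
          refine ENNReal.tsum_le_tsum fun ρ => ?_
          by_cases hρ : cs M F w ρ = 0
          · simp [hρ]
          · have hρ0 : 0 < ρ := (cs_pos hsm hρ).1
            have hρ1 : (0 : ℝ) < ρ := by exact_mod_cast hρ0
            have h2 := H T ρ x0 hTT1 hρ1 hx0pos
            have h3 : ∀ r : ℕ, (if Rough M r then
                ENNReal.ofReal (‖cs M F w ρ‖ ^ 2) * ∫⁻ x in Set.Ioc x0 (x0 * T ^ 2), ENNReal.ofReal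
                (Real.exp (-2 * π * ((ρ : ℝ) * r * x) ^ 2 * Real.sin (1 / T))) else 0) =
                ENNReal.ofReal (‖cs M F w ρ‖ ^ 2) * (if Rough M r then
                ∫⁻ x in Set.Ioc x0 (x0 * T ^ 2), ENNReal.ofReal
                (Real.exp (-2 * π * ((ρ : ℝ) * r * x) ^ 2 * Real.sin (1 / T))) else 0) := by
              intro r
              split_ifs
              · rfl
              · rw [mul_zero]
            simp_rw [h3]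
            rw [ENNReal.tsum_mul_left]
            calc ENNReal.ofReal (‖cs M F w ρ‖ ^ 2) * _
                ≤ ENNReal.ofReal (‖cs M F w ρ‖ ^ 2) *
                  ENNReal.ofReal (C * T ^ (1 / 2 : ℝ) / ρ) := by
                  gcongr
              _ = ENNReal.ofReal (C * T ^ (1 / 2 : ℝ)) *
                ENNReal.ofReal (‖cs M F w ρ‖ ^ 2 * (ρ : ℝ) ^ (-1 + 0 : ℝ)) := by
                  rw [← ENNReal.ofReal_mul (by positivity), ← ENNReal.ofReal_mul (by positivity)]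
                  congr 1
                  rw [add_zero, Real.rpow_neg_one]
                  field_simp
      _ = ENNReal.ofReal (C * T ^ (1 / 2 : ℝ)) *
            ∑' ρ : ℚ, ENNReal.ofReal (‖cs M F w ρ‖ ^ 2 * (ρ : ℝ) ^ (-1 + 0 : ℝ)) :=
          ENNReal.tsum_mul_left
      _ ≤ ENNReal.ofReal (C * T ^ (1 / 2 : ℝ)) * ENNReal.ofReal (BB M F w 0) := by
          gcongr
      _ = ENNReal.ofReal (C * T ^ (1 / 2 : ℝ) * BB M F w 0) :=
          (ENNReal.ofReal_mul (by positivity)).symm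
  -- the reduction
  have hpt : ∀ y : ℝ, ENNReal.ofReal (‖GG T F w y‖ ^ 2) ≤
      8 * (ENNReal.ofReal (Real.exp y) * ENNReal.ofReal (‖SS T F w (Real.exp y)‖ ^ 2)) +
        ENNReal.ofReal (2 * A ^ 2) * ENNReal.ofReal (Real.exp (-y)) := by
    intro y
    have h1 := GG_sq_le hT' F w hF y
    calc ENNReal.ofReal (‖GG T F w y‖ ^ 2)
        ≤ ENNReal.ofReal (8 * (Real.exp y * ‖SS T F w (Real.exp y)‖ ^ 2) +
            2 * A ^ 2 * Real.exp (-y)) :=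
          ENNReal.ofReal_le_ofReal (h1.trans_eq (by rw [← hA]; ring))
      _ = _ := by
          rw [ENNReal.ofReal_add (by positivity) (by positivity), ENNReal.ofReal_mul (by norm_num),
            ENNReal.ofReal_mul (by positivity), ENNReal.ofReal_mul (p := 2 * A ^ 2) (by positivity),
            ENNReal.ofReal_ofNat]
  have hA2 : (0 : ℝ) ≤ 2 * A ^ 2 := by positivity
  calc ∫⁻ y in Set.Ioc (Real.log x0) (Real.log x0 + 2 * Real.log T), ENNReal.ofReal (‖GG T F w y‖ ^ 2)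
      ≤ ∫⁻ y in Set.Ioc (Real.log x0) (Real.log x0 + 2 * Real.log T),
        (8 * (ENNReal.ofReal (Real.exp y) * ENNReal.ofReal (‖SS T F w (Real.exp y)‖ ^ 2)) +
        ENNReal.ofReal (2 * A ^ 2) * ENNReal.ofReal (Real.exp (-y))) := lintegral_mono hpt
    _ = 8 * (∫⁻ x in Set.Ioc x0 (x0 * T ^ 2), ENNReal.ofReal (‖SS T F w x‖ ^ 2)) +
        ENNReal.ofReal (2 * A ^ 2) * ∫⁻ y in Set.Ioc (Real.log x0) (Real.log x0 + 2 * Real.log T),
          ENNReal.ofReal (Real.exp (-y)) := by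
        rw [lintegral_add_right _ (by fun_prop), lintegral_const_mul' _ _ (by norm_num),
          HL_subst hT' hx0pos (fun x => ENNReal.ofReal (‖SS T F w x‖ ^ 2)),
          lintegral_const_mul' _ _ ENNReal.ofReal_ne_top]
    _ ≤ 8 * ENNReal.ofReal ((C + 1) * T ^ (1 / 2 : ℝ) * BB M F w 0) +
        ENNReal.ofReal (2 * A ^ 2) * ENNReal.ofReal (Real.exp (-Real.log x0)) := by
        refine add_le_add ?_ ?_
        · gcongr
        · refine mul_le_mul_right ?_ _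
          rw [← HL_exp_int]
          exact lintegral_mono_set Set.Ioc_subset_Ioi_self
    _ = ENNReal.ofReal (8 * (C + 1) * T ^ (1 / 2 : ℝ) * BB M F w 0 + 2 * A ^ 2 / x0) := by
        rw [Real.exp_neg, Real.exp_log hx0pos, ← ENNReal.ofReal_mul hA2, ← div_eq_mul_inv,
          show (8 : ENNReal) = ENNReal.ofReal 8 by rw [ENNReal.ofReal_ofNat],
          ← ENNReal.ofReal_mul (by norm_num), ← ENNReal.ofReal_add (by positivity) (by positivity)]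
        congr 2
        ring

end Pool.Agent.UV
end
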