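import Pool.Agent.Lib.MP_69b2e4_nt.UV.Defs
import Pool.Agent.Lib.MP_69b2e4_nt.Mg.G042
import Pool.Agent.Lib.MP_69b2e4_nt.Mg.G018

section

/-! TASK TL. The tail `y > log x0 + 2 log T`. (Compare `r2_tail` in GH/R2.lean.) Let `Y1 = log x0 + 2 log T`, so `e^{Y1} = x0 T² ≥ D T` (hypothesis `D ≤ x0 T`).
For `q ∈ F`, `y > Y1`, `y' = y + log q.1 - log q.2`: `e^{y'} = e^y q.1/q.2 ≥ e^y/D ≥ T ≥ 1`, so `y' ≥ 0` and `gg_large` (used in `R2_gg`) gives `‖gg T y'‖ ≤ 4 e^{y'/2} exp(-(e^{2y'} s)) + e^{-y'/2}`, `s = sin(1/T) ≥ 1/(2T)`. Here `e^{2y'} s ≥ e^{y'} T/(2T) = e^{y'}/2`,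
and `4 e^{y'/2} e^{-e^{y'}/2} ≤ 8 e^{-y'/2}` (`z e^{-z/2} ≤ 1 ≤ 2` for `z = e^{y'} ≥ 1`: the maximum of `z e^{-z/2}` is `2/e`). So `‖gg T y'‖ ≤ 9 e^{-y'/2} = 9 e^{-y/2} (q.2/q.1)^{1/2}` and `‖GG T F w y‖ ≤ 9 e^{-y/2} A`, `A = ∑ ‖wa (-1/2) w q‖`.
With `|a| ≤ 1/4`: `∫_{y > Y1} e^{2ay} 81 e^{-y} A² dy ≤ 81 A² · 2 · e^{-(1-2a) Y1} ≤ 162 A² (x0T²)^{-(1-2a)}`, and `(x0T²)^{-(1-2a)} = x0^{-1} T^{-2} (x0T²)^{2a} ≤ x0^{-1}` because `1 ≤ x0 T² ≤ T³` and `(T³)^{2|a|} ≤ T^{3/2} ≤ T²`. So the tail is at most `162 A²/x0`. -/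

set_option autoImplicit false

namespace Pool.Agent.UV

open Complex MeasureTheory Finset Pool.Agent.GH
open scoped Real ComplexConjugate

private theorem TL_int (b c : ℝ) (hb : 0 < b) :
    ∫⁻ y in Set.Ioi c, ENNReal.ofReal (Real.exp (-(b * y))) = ENNReal.ofReal (Real.exp (-(b * c)) / b) := by
  have hd : ∀ x ∈ Set.Ici c, HasDerivAt (fun y => -(1 / b) * Real.exp (-(b * y))) (Real.exp (-(b * x))) x := by
    intro x _
    have h1 : HasDerivAt (fun y : ℝ => -(b * y)) (-(b * 1)) x := ((hasDerivAt_id x).const_mul b).neg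
    have h2 := (h1.exp).const_mul (-(1 / b))
    refine h2.congr_deriv ?_
    field_simp
  have hn : ∀ x ∈ Set.Ioi c, 0 ≤ Real.exp (-(b * x)) := fun x _ => (Real.exp_pos _).le
  have ht : Filter.Tendsto (fun y : ℝ => -(1 / b) * Real.exp (-(b * y))) Filter.atTop (nhds 0) := by
    have h1 : Filter.Tendsto (fun y : ℝ => -(b * y)) Filter.atTop Filter.atBot :=
      Filter.tendsto_neg_atTop_atBot.comp (Filter.tendsto_id.const_mul_atTop hb)
    have h2 := (Real.tendsto_exp_atBot.comp h1).const_mul (-(1 / b))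
    rw [mul_zero] at h2
    exact h2
  have hint := integrableOn_Ioi_deriv_of_nonneg' hd hn ht
  have hval := integral_Ioi_of_hasDerivAt_of_nonneg' hd hn ht
  rw [← ofReal_integral_eq_lintegral_ofReal hint
    ((ae_restrict_mem measurableSet_Ioi).mono fun x hx => hn x hx), hval]
  congr 1
  ring

private theorem TL_gg {T : ℝ} (hT : 2 ≤ T) {y' : ℝ} (hz : T ≤ Real.exp y') :
    ‖gg T y'‖ ≤ 9 * Real.exp (-y' / 2) := by
  have hT1 : 1 ≤ T := by linarith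
  have hT0 : 0 < T := by linarith
  have hsin := (sin_bounds hT1).1
  have hz0 := Real.exp_pos y'
  have e1 : Real.exp (2 * y') = Real.exp y' * Real.exp y' := by
    rw [two_mul, Real.exp_add]
  have hlow : Real.exp y' / 2 ≤ Real.exp (2 * y') * Real.sin (1 / T) := by
    rw [e1]
    calc Real.exp y' / 2 = Real.exp y' * T * (1 / (2 * T)) := by field_simp
      _ ≤ Real.exp y' * Real.exp y' * Real.sin (1 / T) := by gcongr
  have hl := gg_large hT1 (y := y') (by linarith)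
  refine hl.trans ?_
  have h1 : Real.exp y' * Real.exp (-(Real.exp y' / 2)) ≤ 2 := by
    have h2 := Real.add_one_le_exp (Real.exp y' / 2)
    rw [Real.exp_neg, ← div_eq_mul_inv, div_le_iff₀ (Real.exp_pos _)]
    linarith
  have e4 : Real.exp (y' / 2) = Real.exp y' * Real.exp (-y' / 2) := by
    rw [← Real.exp_add]
    congr 1
    ring
  have h3 : Real.exp (-(Real.exp (2 * y') * Real.sin (1 / T))) ≤ Real.exp (-(Real.exp y' / 2)) :=
    Real.exp_le_exp.mpr (by linarith)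
  calc 4 * Real.exp (y' / 2) * Real.exp (-(Real.exp (2 * y') * Real.sin (1 / T))) + Real.exp (-y' / 2)
      ≤ 4 * Real.exp (y' / 2) * Real.exp (-(Real.exp y' / 2)) + Real.exp (-y' / 2) := by gcongr
    _ = Real.exp (-y' / 2) * (4 * (Real.exp y' * Real.exp (-(Real.exp y' / 2))) + 1) := by
        rw [e4]
        ring
    _ ≤ Real.exp (-y' / 2) * 9 := by
        refine mul_le_mul_of_nonneg_left (by linarith) (Real.exp_pos _).le
    _ = _ := by ring

theorem half_tail : ∃ T0 : ℝ, 2 ≤ T0 ∧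
    ∀ (T x0 a : ℝ) (D : ℕ) (F : Finset (ℕ × ℕ)) (w : ℕ × ℕ → ℂ), T0 ≤ T → T⁻¹ ≤ x0 → x0 ≤ T →
    |a| ≤ 1 / 4 → 1 ≤ D → (D : ℝ) ≤ x0 * T → (∀ q ∈ F, q.1 ≠ 0 ∧ q.2 ≠ 0 ∧ q.2 ≤ D) →
    ∫⁻ y in Set.Ioi (Real.log x0 + 2 * Real.log T),
      ENNReal.ofReal (Real.exp (2 * a * y) * ‖GG T F w y‖ ^ 2) ≤
    ENNReal.ofReal (162 * (∑ q ∈ F, ‖wa (-1 / 2) w q‖) ^ 2 / x0) := by
  refine ⟨2, le_rfl, ?_⟩
  intro T x0 a D F w hT hx0 hx1 ha hD hDx hF
  have hT0 : 0 < T := by linarith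
  have hT1 : 1 ≤ T := by linarith
  have hx00 : 0 < x0 := (inv_pos.mpr hT0).trans_le hx0
  have hlogT : 0 ≤ Real.log T := Real.log_nonneg hT1
  obtain ⟨Y1, hY1⟩ : ∃ Y1, Y1 = Real.log x0 + 2 * Real.log T := ⟨_, rfl⟩
  rw [← hY1]
  have hY1e : Real.exp Y1 = x0 * (T * T) := by
    rw [hY1, Real.exp_add, Real.exp_log hx00, two_mul, Real.exp_add, Real.exp_log hT0]
  have hlx : Real.log x0 ≤ Real.log T := Real.log_le_log hx00 hx1
  have hlx2 : -Real.log T ≤ Real.log x0 := by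
    rw [← Real.log_inv]
    exact Real.log_le_log (inv_pos.mpr hT0) hx0
  obtain ⟨A, hA⟩ : ∃ A, A = ∑ q ∈ F, ‖wa (-1 / 2) w q‖ := ⟨_, rfl⟩
  have hA0 : 0 ≤ A := hA ▸ Finset.sum_nonneg fun _ _ => norm_nonneg _
  rw [← hA]
  have hGG : ∀ y ∈ Set.Ioi Y1, ‖GG T F w y‖ ≤ 9 * Real.exp (-y / 2) * A := by
    intro y hy
    have hey : x0 * (T * T) ≤ Real.exp y := by
      rw [← hY1e]
      exact Real.exp_le_exp.mpr (le_of_lt hy)
    unfold GG
    rw [hA, Finset.mul_sum]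
    refine (norm_sum_le _ _).trans (Finset.sum_le_sum fun q hq => ?_)
    have ha1 : (1 : ℝ) ≤ q.1 := by exact_mod_cast Nat.one_le_iff_ne_zero.mpr (hF q hq).1
    have hb1 : (1 : ℝ) ≤ q.2 := by exact_mod_cast Nat.one_le_iff_ne_zero.mpr (hF q hq).2.1
    have hbD : (q.2 : ℝ) ≤ D := by exact_mod_cast (hF q hq).2.2
    have ha0 : (0 : ℝ) < q.1 := by linarith
    have hb0 : (0 : ℝ) < q.2 := by linarith
    have hz : T ≤ Real.exp (y + (Real.log q.1 - Real.log q.2)) := by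
      rw [← Real.log_div ha0.ne' hb0.ne', Real.exp_add, Real.exp_log (div_pos ha0 hb0)]
      have h1 : T * q.2 ≤ Real.exp y * q.1 := by
        calc T * q.2 ≤ T * (x0 * T) := by gcongr; linarith
          _ = x0 * (T * T) := by ring
          _ ≤ Real.exp y := hey
          _ ≤ Real.exp y * q.1 := le_mul_of_one_le_right (Real.exp_pos _).le ha1
      rw [mul_div_assoc', le_div_iff₀ hb0]
      exact h1
    have hg := TL_gg hT hz
    have e3 : Real.exp (-(y + (Real.log q.1 - Real.log q.2)) / 2) =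
        Real.exp (-y / 2) * ((q.1 : ℝ) / q.2) ^ (-1 / 2 : ℝ) := by
      rw [Real.rpow_def_of_pos (div_pos ha0 hb0), Real.log_div ha0.ne' hb0.ne', ← Real.exp_add]
      congr 1
      ring
    rw [e3] at hg
    have hwa : ‖wa (-1 / 2) w q‖ = ‖w q‖ * ((q.1 : ℝ) / q.2) ^ (-1 / 2 : ℝ) := by
      unfold wa
      rw [norm_mul, Complex.norm_real, Real.norm_eq_abs, abs_of_nonneg (by positivity)]
    rw [norm_mul, hwa]
    calc ‖w q‖ * ‖gg T (y + (Real.log q.1 - Real.log q.2))‖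
        ≤ ‖w q‖ * (9 * (Real.exp (-y / 2) * ((q.1 : ℝ) / q.2) ^ (-1 / 2 : ℝ))) :=
          mul_le_mul_of_nonneg_left hg (norm_nonneg _)
      _ = 9 * Real.exp (-y / 2) * (‖w q‖ * ((q.1 : ℝ) / q.2) ^ (-1 / 2 : ℝ)) := by ring
  have hb : 1 / 2 ≤ 1 - 2 * a := by
    have := (abs_le.mp ha).2
    linarith
  have hb0 : 0 < 1 - 2 * a := by linarith
  have hpt : ∀ y ∈ Set.Ioi Y1, ENNReal.ofReal (Real.exp (2 * a * y) * ‖GG T F w y‖ ^ 2) ≤
      ENNReal.ofReal (81 * A ^ 2) * ENNReal.ofReal (Real.exp (-((1 - 2 * a) * y))) := by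
    intro y hy
    rw [← ENNReal.ofReal_mul (by positivity)]
    apply ENNReal.ofReal_le_ofReal
    have h2 : ‖GG T F w y‖ ^ 2 ≤ (9 * Real.exp (-y / 2) * A) ^ 2 :=
      pow_le_pow_left₀ (norm_nonneg _) (hGG y hy) 2
    calc Real.exp (2 * a * y) * ‖GG T F w y‖ ^ 2
        ≤ Real.exp (2 * a * y) * (9 * Real.exp (-y / 2) * A) ^ 2 := by gcongr
      _ = 81 * A ^ 2 * (Real.exp (2 * a * y) * (Real.exp (-y / 2) * Real.exp (-y / 2))) := by ring
      _ = 81 * A ^ 2 * Real.exp (-((1 - 2 * a) * y)) := by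
          rw [← Real.exp_add, ← Real.exp_add]
          congr 2
          ring
  calc ∫⁻ y in Set.Ioi Y1, ENNReal.ofReal (Real.exp (2 * a * y) * ‖GG T F w y‖ ^ 2)
      ≤ ∫⁻ y in Set.Ioi Y1,
        ENNReal.ofReal (81 * A ^ 2) * ENNReal.ofReal (Real.exp (-((1 - 2 * a) * y))) :=
        setLIntegral_mono' measurableSet_Ioi hpt
    _ = ENNReal.ofReal (81 * A ^ 2) *
        ENNReal.ofReal (Real.exp (-((1 - 2 * a) * Y1)) / (1 - 2 * a)) := by
        rw [lintegral_const_mul' _ _ ENNReal.ofReal_ne_top, TL_int _ _ hb0]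
    _ ≤ _ := by
        rw [← ENNReal.ofReal_mul (by positivity)]
        apply ENNReal.ofReal_le_ofReal
        have h1 : Real.exp (-((1 - 2 * a) * Y1)) ≤ 1 / x0 := by
          have h3 : 1 / x0 = Real.exp (-Real.log x0) := by
            rw [Real.exp_neg, Real.exp_log hx00, one_div]
          rw [h3]
          apply Real.exp_le_exp.mpr
          have h4 : 2 * a * Y1 ≤ 2 * Real.log T := by
            have h5 : 0 ≤ Y1 := by linarith
            have h6 : Y1 ≤ 3 * Real.log T := by linarith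
            have h7 : 2 * a ≤ 1 / 2 := by linarith
            calc 2 * a * Y1 ≤ 1 / 2 * Y1 := mul_le_mul_of_nonneg_right h7 h5
              _ ≤ 2 * Real.log T := by linarith
          have h8 : -((1 - 2 * a) * Y1) = 2 * a * Y1 - Y1 := by ring
          rw [h8]
          linarith
        have h2 : Real.exp (-((1 - 2 * a) * Y1)) / (1 - 2 * a) ≤ 2 * (1 / x0) := by
          rw [div_le_iff₀ hb0]
          have h9 : 0 < 1 / x0 := by positivity
          nlinarith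
        calc 81 * A ^ 2 * (Real.exp (-((1 - 2 * a) * Y1)) / (1 - 2 * a))
            ≤ 81 * A ^ 2 * (2 * (1 / x0)) := mul_le_mul_of_nonneg_left h2 (by positivity)
          _ = 162 * A ^ 2 / x0 := by ring

end Pool.Agent.UV
end

section

/-! TASK HF. The mean square over the whole half line, with the factor `e^{2ay}`, `|a| ≤ A/log T`. Split `(log x0, ∞) = (log x0, log x0 + 2 log T] ∪ (log x0 + 2 log T, ∞)`. On the first part `|y| ≤ 3 log T` (`|log x0| ≤ log T`), so `e^{2ay} ≤ e^{6A}`, and `half_main` applies; the second part is `half_tail`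
(`|a| ≤ 1/4` for `T ≥ T0(A)`). `C = C(half_main) + 164`; `e^{6A} ≥ 1`. -/

set_option autoImplicit false

namespace Pool.Agent.UV

open Complex MeasureTheory Finset Pool.Agent.GH Pool.Agent.UH
open scoped Real ComplexConjugate

theorem half_full : ∃ C : ℝ, 1 ≤ C ∧ ∀ κ A : ℝ, 0 < κ → κ ≤ 1 → 0 ≤ A → ∃ T0 : ℝ, 2 ≤ T0 ∧
    ∀ (T x0 a : ℝ) (D : ℕ) (F : Finset (ℕ × ℕ)) (w : ℕ × ℕ → ℂ), T0 ≤ T → |a| ≤ A / Real.log T →
    T⁻¹ ≤ x0 → x0 ≤ T → 1 ≤ D → (D : ℝ) ≤ T → (D : ℝ) ≤ x0 * T →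
    (D : ℝ) ^ 2 * T ^ κ ≤ x0 * T ^ (1 / 2 : ℝ) →
    (∀ q ∈ F, q.1 ∈ Nat.smoothNumbers (MM T) ∧ q.2 ∈ Nat.smoothNumbers (MM T)) →
    (∀ q ∈ F, q.2 ≤ D) →
    ∫⁻ y in Set.Ioi (Real.log x0), ENNReal.ofReal (Real.exp (2 * a * y) * ‖GG T F w y‖ ^ 2) ≤
    ENNReal.ofReal (Real.exp (6 * A) * (C * T ^ (1 / 2 : ℝ) * BB (MM T) F w 0 +
      C * (∑ q ∈ F, ‖wa (-1 / 2) w q‖) ^ 2 / x0)) := by
  obtain ⟨C1, hC1, hm⟩ := half_main
  obtain ⟨T2, hT2, ht⟩ := half_tail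
  refine ⟨C1 + 164, by linarith, ?_⟩
  intro κ A hκ hκ1 hA
  obtain ⟨T1, hT1, hm⟩ := hm κ hκ hκ1
  refine ⟨max (max T1 T2) (Real.exp (4 * A)), hT1.trans ((le_max_left _ _).trans (le_max_left _ _)), ?_⟩
  intro T x0 a D F w hT ha hx0 hx0T hD hDT hDx hDκ hF hFD
  have hTT1 : T1 ≤ T := ((le_max_left _ _).trans (le_max_left _ _)).trans hT
  have hTT2 : T2 ≤ T := ((le_max_right _ _).trans (le_max_left _ _)).trans hT
  have hTA : Real.exp (4 * A) ≤ T := (le_max_right _ _).trans hT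
  have hT0 : 2 ≤ T := hT1.trans hTT1
  have hTpos : 0 < T := by linarith
  have hx0pos : 0 < x0 := (inv_pos.mpr hTpos).trans_le hx0
  set lT : ℝ := Real.log T with hlT
  have hlTpos : 0 < lT := Real.log_pos (by linarith)
  have hlTA : 4 * A ≤ lT := by
    rw [hlT, Real.le_log_iff_exp_le hTpos]
    exact hTA
  have ha4 : |a| ≤ 1 / 4 := by
    refine ha.trans ?_
    rw [div_le_iff₀ hlTpos]
    linarith
  have hlx1 : -lT ≤ Real.log x0 := by
    have := Real.log_le_log (inv_pos.mpr hTpos) hx0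
    rwa [Real.log_inv] at this
  have hlx2 : Real.log x0 ≤ lT := Real.log_le_log hx0pos hx0T
  set S : ℝ := ∑ q ∈ F, ‖wa (-1 / 2) w q‖ with hS
  set Y1 : ℝ := Real.log x0 + 2 * lT with hY1
  have h1 := hm T x0 D F w hTT1 hx0 hD hDT hDκ hF hFD
  have h2 := ht T x0 a D F w hTT2 hx0 hx0T ha4 hD hDx (fun q hq =>
    ⟨Nat.ne_zero_of_mem_smoothNumbers (hF q hq).1, Nat.ne_zero_of_mem_smoothNumbers (hF q hq).2, hFD q hq⟩)
  rw [← hY1] at h1 h2
  have hunion : Set.Ioi (Real.log x0) ⊆ Set.Ioc (Real.log x0) Y1 ∪ Set.Ioi Y1 := by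
    intro y hy
    rcases le_or_gt y Y1 with h | h
    · exact Or.inl ⟨hy, h⟩
    · exact Or.inr h
  have h3 : ∫⁻ y in Set.Ioc (Real.log x0) Y1, ENNReal.ofReal (Real.exp (2 * a * y) * ‖GG T F w y‖ ^ 2) ≤
      ENNReal.ofReal (Real.exp (6 * A)) *
        ∫⁻ y in Set.Ioc (Real.log x0) Y1, ENNReal.ofReal (‖GG T F w y‖ ^ 2) := by
    rw [← lintegral_const_mul' _ _ ENNReal.ofReal_ne_top]
    refine setLIntegral_mono' measurableSet_Ioc fun y hy => ?_
    rw [← ENNReal.ofReal_mul (Real.exp_pos _).le]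
    refine ENNReal.ofReal_le_ofReal (mul_le_mul_of_nonneg_right (Real.exp_le_exp.mpr ?_) (sq_nonneg _))
    have hy1 : |y| ≤ 3 * lT := by
      rw [abs_le]
      constructor
      · linarith [hy.1]
      · linarith [hy.2]
    have h4 : a * y ≤ A / lT * (3 * lT) := by
      calc a * y ≤ |a * y| := le_abs_self _
        _ = |a| * |y| := abs_mul a y
        _ ≤ A / lT * (3 * lT) := mul_le_mul ha hy1 (abs_nonneg _) (div_nonneg hA hlTpos.le)
    have h5 : A / lT * (3 * lT) = 3 * A := by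
      field_simp
    linarith
  have hBB : 0 ≤ BB (MM T) F w 0 := by
    unfold BB
    exact integral_nonneg fun v => mul_nonneg (sq_nonneg _) (sq_nonneg _)
  have hexp : 1 ≤ Real.exp (6 * A) := Real.one_le_exp (by linarith)
  have hTp : 0 ≤ T ^ (1 / 2 : ℝ) := Real.rpow_nonneg hTpos.le _
  have hSx : 0 ≤ S ^ 2 / x0 := div_nonneg (sq_nonneg _) hx0pos.le
  calc ∫⁻ y in Set.Ioi (Real.log x0), ENNReal.ofReal (Real.exp (2 * a * y) * ‖GG T F w y‖ ^ 2)
      ≤ ∫⁻ y in Set.Ioc (Real.log x0) Y1 ∪ Set.Ioi Y1,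
          ENNReal.ofReal (Real.exp (2 * a * y) * ‖GG T F w y‖ ^ 2) := lintegral_mono_set hunion
    _ ≤ (∫⁻ y in Set.Ioc (Real.log x0) Y1, ENNReal.ofReal (Real.exp (2 * a * y) * ‖GG T F w y‖ ^ 2)) +
          ∫⁻ y in Set.Ioi Y1, ENNReal.ofReal (Real.exp (2 * a * y) * ‖GG T F w y‖ ^ 2) :=
        lintegral_union_le _ _ _
    _ ≤ ENNReal.ofReal (Real.exp (6 * A)) * ENNReal.ofReal (C1 * T ^ (1 / 2 : ℝ) * BB (MM T) F w 0 +
          2 * S ^ 2 / x0) + ENNReal.ofReal (162 * S ^ 2 / x0) := by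
        exact add_le_add (h3.trans (mul_le_mul_right h1 _)) h2
    _ = ENNReal.ofReal (Real.exp (6 * A) * (C1 * T ^ (1 / 2 : ℝ) * BB (MM T) F w 0 +
          2 * S ^ 2 / x0) + 162 * S ^ 2 / x0) := by
        rw [← ENNReal.ofReal_mul (Real.exp_pos _).le, ← ENNReal.ofReal_add]
        · have : 0 ≤ C1 := by linarith
          have h6 : 0 ≤ C1 * T ^ (1 / 2 : ℝ) * BB (MM T) F w 0 := by positivity
          have h7 : 0 ≤ 2 * S ^ 2 / x0 := by rw [mul_div_assoc]; positivity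
          positivity
        · rw [mul_div_assoc]; positivity
    _ ≤ _ := by
        refine ENNReal.ofReal_le_ofReal ?_
        have h6 : 0 ≤ T ^ (1 / 2 : ℝ) * BB (MM T) F w 0 := mul_nonneg hTp hBB
        have h7 : 162 * S ^ 2 / x0 ≤ Real.exp (6 * A) * (162 * S ^ 2 / x0) := by
          have : 0 ≤ 162 * S ^ 2 / x0 := by rw [mul_div_assoc]; positivity
          nlinarith
        have h8 : Real.exp (6 * A) * (C1 * T ^ (1 / 2 : ℝ) * BB (MM T) F w 0 + 2 * S ^ 2 / x0) +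
            Real.exp (6 * A) * (162 * S ^ 2 / x0) ≤
            Real.exp (6 * A) * ((C1 + 164) * T ^ (1 / 2 : ℝ) * BB (MM T) F w 0 +
              (C1 + 164) * S ^ 2 / x0) := by
          rw [← mul_add]
          refine mul_le_mul_of_nonneg_left ?_ (Real.exp_pos _).le
          rw [mul_div_assoc, mul_div_assoc, mul_div_assoc, mul_assoc, mul_assoc]
          have h9 : 0 ≤ C1 * (S ^ 2 / x0) := mul_nonneg (by linarith) hSx
          nlinarith
        linarith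

end Pool.Agent.UV
end
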