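import Pool.Agent.Lib.MP_69b2e4_nt.UH.TA
import Pool.Agent.Lib.MP_69b2e4_nt.Mg.G040
import Pool.Agent.Lib.MP_69b2e4_nt.Mg.G043
import Pool.Agent.Lib.MP_69b2e4_nt.Mg.G009
import Pool.Agent.Lib.MP_69b2e4_nt.UH.Defs
import Pool.Agent.Lib.MP_69b2e4_nt.Mg.G042
import Pool.Agent.Lib.MP_69b2e4_nt.Mg.G001
import Pool.Agent.Lib.MP_69b2e4_nt.Mg.G039
import Pool.Agent.Lib.MP_69b2e4_nt.Mg.G019
import Pool.Agent.Lib.MP_69b2e4_nt.Mg.G015

section

/-! TASK TB. The mean square of the theta series with longer weights: `off_diag` of GH/Off.lean with the exponents of `off_sum2`.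
COPY GH/Off.lean (its lemmas are private; it is short) and replace `off_sum` by `off_sum2`, the exponents `1/100, 1/100, 1/10` by `159/1000, 80/1000, 499/1000`. Nothing else changes. -/

set_option autoImplicit false

namespace Pool.Agent.UH

open Complex MeasureTheory Finset Pool.Agent.GH
open scoped Real ComplexConjugate

private theorem TB_om (T : ℝ) : om T = (Real.sin (1 / T) : ℝ) + (Real.cos (1 / T) : ℝ) * I := by
  unfold om ang
  rw [Complex.exp_mul_I, ← Complex.ofReal_cos, ← Complex.ofReal_sin, Real.cos_pi_div_two_sub,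
    Real.sin_pi_div_two_sub]

private theorem TB_norm (T r : ℝ) :
    ‖cexp (-π * ((r : ℝ) : ℂ) * om T)‖ = Real.exp (-π * r * Real.sin (1 / T)) := by
  rw [Complex.norm_exp, TB_om]
  congr 1
  have h : -(π : ℂ) * ((r : ℝ) : ℂ) * (((Real.sin (1 / T) : ℝ) : ℂ) +
      ((Real.cos (1 / T) : ℝ) : ℂ) * I) =
      ((-π * r * Real.sin (1 / T) : ℝ) : ℂ) + ((-π * r * Real.cos (1 / T) : ℝ) : ℂ) * I := by
    push_cast; ring
  rw [h]
  simp only [Complex.add_re, Complex.ofReal_re, Complex.mul_re, Complex.I_re, Complex.ofReal_im,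
    Complex.I_im]
  ring

private theorem TB_prod (T u u' x : ℝ) :
    cexp (-π * ((u * x) ^ 2 : ℝ) * om T) * conj (cexp (-π * ((u' * x) ^ 2 : ℝ) * om T)) =
    cexp (-(((π * (u ^ 2 + u' ^ 2) * Real.sin (1 / T) : ℝ) : ℂ) +
      ((π * (u ^ 2 - u' ^ 2) * Real.cos (1 / T) : ℝ) : ℂ) * I) * (x ^ 2 : ℝ)) := by
  rw [← Complex.exp_conj, ← Complex.exp_add, TB_om]
  congr 1
  simp only [map_mul, map_neg, map_add, Complex.conj_ofReal, Complex.conj_I]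
  push_cast
  ring

open Classical in
private noncomputable def TB_a (M : ℕ) (F : Finset (ℕ × ℕ)) (w : ℕ × ℕ → ℂ) (k : ℚ × ℕ) : ℂ :=
  if Rough M k.2 then cs M F w k.1 else 0

private noncomputable def TB_u (k : ℚ × ℕ) : ℝ := (k.1 : ℝ) * k.2

private noncomputable def TB_f (T : ℝ) (M : ℕ) (F : Finset (ℕ × ℕ)) (w : ℕ × ℕ → ℂ) (k : ℚ × ℕ)
    (x : ℝ) : ℂ :=
  TB_a M F w k * cexp (-π * ((TB_u k * x) ^ 2 : ℝ) * om T)

private theorem TB_cont (T : ℝ) (M : ℕ) (F : Finset (ℕ × ℕ)) (w : ℕ × ℕ → ℂ) (k : ℚ × ℕ) :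
    Continuous (TB_f T M F w k) := by
  unfold TB_f
  fun_prop

/-- the off-diagonal term -/
private theorem TB_term {T : ℝ} (hT : 1 ≤ T) {M : ℕ} {F : Finset (ℕ × ℕ)} {w : ℕ × ℕ → ℂ} {X : ℝ}
    (hX : 1 ≤ X)
    (hF : ∀ q ∈ F, q.1 ∈ Nat.smoothNumbers M ∧ q.2 ∈ Nat.smoothNumbers M) {k k' : ℚ × ℕ}
    (hk : k ≠ k') (ha : TB_a M F w k ≠ 0) (ha' : TB_a M F w k' ≠ 0) :
    (Rough M k.2 ∧ Rough M k'.2 ∧ k.1 * k.2 ≠ k'.1 * k'.2) ∧
    ‖∫ x in (1 : ℝ)..X, TB_f T M F w k x * conj (TB_f T M F w k' x)‖ ≤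
      ‖cs M F w k.1‖ * ‖cs M F w k'.1‖ *
        (2 * Real.exp (-π * (((k.1 : ℝ) * k.2) ^ 2 + ((k'.1 : ℝ) * k'.2) ^ 2) * Real.sin (1 / T)) /
          (π * |((k.1 : ℝ) * k.2) ^ 2 - ((k'.1 : ℝ) * k'.2) ^ 2| * Real.cos (1 / T))) := by
  have hr : Rough M k.2 := by
    by_contra h; exact ha (by simp [TB_a, h])
  have hr' : Rough M k'.2 := by
    by_contra h; exact ha' (by simp [TB_a, h])
  have hae : TB_a M F w k = cs M F w k.1 := by simp [TB_a, hr]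
  have hae' : TB_a M F w k' = cs M F w k'.1 := by simp [TB_a, hr']
  rw [hae] at ha
  rw [hae'] at ha'
  have hne : k.1 * k.2 ≠ k'.1 * k'.2 := by
    intro he
    obtain ⟨h1, h2⟩ := cs_inj hF ha ha' hr hr' he
    exact hk (Prod.ext h1 h2)
  refine ⟨⟨hr, hr', hne⟩, ?_⟩
  have hpos : (0 : ℝ) < (k.1 : ℝ) * k.2 := by
    have h1 := (cs_pos hF ha).1
    have h2 : 0 < k.2 := Nat.pos_of_ne_zero hr.1
    have h3 : (0 : ℝ) < (k.1 : ℝ) := by exact_mod_cast h1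
    have h4 : (0 : ℝ) < (k.2 : ℝ) := by exact_mod_cast h2
    positivity
  have hpos' : (0 : ℝ) < (k'.1 : ℝ) * k'.2 := by
    have h1 := (cs_pos hF ha').1
    have h2 : 0 < k'.2 := Nat.pos_of_ne_zero hr'.1
    have h3 : (0 : ℝ) < (k'.1 : ℝ) := by exact_mod_cast h1
    have h4 : (0 : ℝ) < (k'.2 : ℝ) := by exact_mod_cast h2
    positivity
  have hne' : (k.1 : ℝ) * k.2 ≠ (k'.1 : ℝ) * k'.2 := by
    intro h; exact hne (by exact_mod_cast h)
  have hsq : ((k.1 : ℝ) * k.2) ^ 2 - ((k'.1 : ℝ) * k'.2) ^ 2 ≠ 0 := by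
    intro h
    apply hne'
    have : ((k.1 : ℝ) * k.2) ^ 2 = ((k'.1 : ℝ) * k'.2) ^ 2 := by linarith
    exact (pow_left_inj₀ hpos.le hpos'.le two_ne_zero).mp this
  have hT0 : 0 < T := by linarith
  have h1T : 0 < 1 / T := by positivity
  have h1T1 : 1 / T ≤ 1 := by rw [div_le_one hT0]; exact hT
  have hpi := Real.pi_gt_three
  have hcos : 0 < Real.cos (1 / T) := Real.cos_pos_of_mem_Ioo ⟨by linarith, by linarith⟩
  have hsin : 0 ≤ Real.sin (1 / T) := Real.sin_nonneg_of_nonneg_of_le_pi h1T.le (by linarith)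
  have hint : ∀ x : ℝ, TB_f T M F w k x * conj (TB_f T M F w k' x) =
      (cs M F w k.1 * conj (cs M F w k'.1)) *
        cexp (-(((π * (((k.1 : ℝ) * k.2) ^ 2 + ((k'.1 : ℝ) * k'.2) ^ 2) * Real.sin (1 / T) : ℝ) : ℂ) +
      ((π * (((k.1 : ℝ) * k.2) ^ 2 - ((k'.1 : ℝ) * k'.2) ^ 2) * Real.cos (1 / T) : ℝ) : ℂ) * I) *
        (x ^ 2 : ℝ)) := by
    intro x
    rw [← TB_prod T ((k.1 : ℝ) * k.2) ((k'.1 : ℝ) * k'.2) x]
    unfold TB_f TB_u
    rw [hae, hae', map_mul]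
    ring
  simp_rw [hint]
  rw [intervalIntegral.integral_const_mul, norm_mul, norm_mul, RCLike.norm_conj]
  refine mul_le_mul_of_nonneg_left ?_ (by positivity)
  have h := osc (c := π * (((k.1 : ℝ) * k.2) ^ 2 + ((k'.1 : ℝ) * k'.2) ^ 2) * Real.sin (1 / T))
    (d := π * (((k.1 : ℝ) * k.2) ^ 2 - ((k'.1 : ℝ) * k'.2) ^ 2) * Real.cos (1 / T)) (X := X)
    (by positivity) (by
      refine mul_ne_zero (mul_ne_zero Real.pi_ne_zero hsq) hcos.ne') hX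
  refine h.trans (le_of_eq ?_)
  rw [abs_mul, abs_mul, abs_of_pos Real.pi_pos, abs_of_pos hcos]
  congr 3
  ring

open Classical in
theorem off_diag2 : ∃ T0 : ℝ, 1 ≤ T0 ∧ ∀ (T : ℝ) (M : ℕ) (F : Finset (ℕ × ℕ)) (w : ℕ × ℕ → ℂ) (X : ℝ),
    T0 ≤ T → 1 ≤ X → (∀ q ∈ F, q.1 ∈ Nat.smoothNumbers M ∧ q.2 ∈ Nat.smoothNumbers M) →
    (∀ q ∈ F, (q.1 : ℝ) ≤ T ^ (159 / 1000 : ℝ) ∧ (q.2 : ℝ) ≤ T ^ (159 / 1000 : ℝ)) →
    ∑ q ∈ F, ‖w q‖ ≤ T ^ (80 / 1000 : ℝ) →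
    ∫⁻ x in Set.Ioc 1 X, ENNReal.ofReal (‖SS T F w x‖ ^ 2) ≤
      (∑' k : ℚ × ℕ, if Rough M k.2 then ENNReal.ofReal (‖cs M F w k.1‖ ^ 2) *
        ∫⁻ x in Set.Ioc 1 X, ENNReal.ofReal
          (Real.exp (-2 * π * ((k.1 : ℝ) * k.2 * x) ^ 2 * Real.sin (1 / T))) else 0) +
      ENNReal.ofReal (T ^ (499 / 1000 : ℝ)) := by
  obtain ⟨T0, hT0, hoff⟩ := off_sum2
  refine ⟨T0, hT0, fun T M F w X hT hX hF hQ hl => ?_⟩
  have hT1 : 1 ≤ T := hT0.trans hT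
  have hoff' := hoff T M F w hT hF hQ hl
  set off : ℚ × ℕ → ℚ × ℕ → ENNReal := fun k k' =>
    (if Rough M k.2 ∧ Rough M k'.2 ∧ k.1 * k.2 ≠ k'.1 * k'.2 then
      ENNReal.ofReal (‖cs M F w k.1‖ * ‖cs M F w k'.1‖ *
        (2 * Real.exp (-π * (((k.1 : ℝ) * k.2) ^ 2 + ((k'.1 : ℝ) * k'.2) ^ 2) * Real.sin (1 / T)) /
          (π * |((k.1 : ℝ) * k.2) ^ 2 - ((k'.1 : ℝ) * k'.2) ^ 2| * Real.cos (1 / T)))) else 0)
    with hoffdef
  set dg : ℚ × ℕ → ENNReal := fun k => if Rough M k.2 then ENNReal.ofReal (‖cs M F w k.1‖ ^ 2) *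
        ∫⁻ x in Set.Ioc 1 X, ENNReal.ofReal
          (Real.exp (-2 * π * ((k.1 : ℝ) * k.2 * x) ^ 2 * Real.sin (1 / T))) else 0 with hdg
  have hterm : ∀ k k' : ℚ × ℕ,
      ENNReal.ofReal ‖∫ x in (1 : ℝ)..X, TB_f T M F w k x * conj (TB_f T M F w k' x)‖ ≤
        (if k = k' then dg k else 0) + off k k' := by
    intro k k'
    by_cases hkk : k = k'
    · subst hkk
      refine le_trans ?_ le_self_add
      rw [if_pos rfl]
      rw [intervalIntegral.integral_of_le hX]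
      have h1 : ENNReal.ofReal ‖∫ x in Set.Ioc 1 X, TB_f T M F w k x * conj (TB_f T M F w k x)‖ ≤
          ∫⁻ x in Set.Ioc 1 X, ‖TB_f T M F w k x * conj (TB_f T M F w k x)‖ₑ := by
        rw [ofReal_norm]
        exact enorm_integral_le_lintegral_enorm _
      refine h1.trans ?_
      by_cases hr : Rough M k.2
      · rw [hdg]
        simp only [if_pos hr]
        rw [← lintegral_const_mul' _ _ ENNReal.ofReal_ne_top]
        refine lintegral_mono fun x => ?_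
        rw [← ENNReal.ofReal_mul (by positivity), ← ofReal_norm]
        refine ENNReal.ofReal_le_ofReal (le_of_eq ?_)
        rw [norm_mul, RCLike.norm_conj]
        unfold TB_f TB_u
        rw [norm_mul, TB_norm]
        have hae : TB_a M F w k = cs M F w k.1 := by simp [TB_a, hr]
        rw [hae]
        have : Real.exp (-2 * π * ((k.1 : ℝ) * k.2 * x) ^ 2 * Real.sin (1 / T)) =
            Real.exp (-π * ((k.1 : ℝ) * k.2 * x) ^ 2 * Real.sin (1 / T)) *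
            Real.exp (-π * ((k.1 : ℝ) * k.2 * x) ^ 2 * Real.sin (1 / T)) := by
          rw [← Real.exp_add]; congr 1; ring
        rw [this]; ring
      · have : ∀ x, TB_f T M F w k x = 0 := by intro x; simp [TB_f, TB_a, hr]
        simp [this]
    · rw [if_neg hkk, zero_add]
      by_cases ha : TB_a M F w k = 0
      · have : ∀ x, TB_f T M F w k x = 0 := by intro x; simp [TB_f, ha]
        simp [this]
      by_cases ha' : TB_a M F w k' = 0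
      · have : ∀ x, TB_f T M F w k' x = 0 := by intro x; simp [TB_f, ha']
        simp [this]
      obtain ⟨h1, h2⟩ := TB_term hT1 hX hF hkk ha ha'
      rw [hoffdef]
      simp only [if_pos h1]
      exact ENNReal.ofReal_le_ofReal h2
  -- finite sums
  have hfin : ∀ K : Finset (ℚ × ℕ),
      ∫⁻ x in Set.Ioc 1 X, ENNReal.ofReal (‖∑ k ∈ K, TB_f T M F w k x‖ ^ 2) ≤
        (∑' k, dg k) + ENNReal.ofReal (T ^ (499 / 1000 : ℝ)) := by
    intro K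
    have hcont : Continuous fun x => ∑ k ∈ K, TB_f T M F w k x :=
      continuous_finsetSum _ fun k _ => TB_cont T M F w k
    have hintg : IntegrableOn (fun x => ‖∑ k ∈ K, TB_f T M F w k x‖ ^ 2) (Set.Ioc 1 X) := by
      have : IntegrableOn (fun x => ‖∑ k ∈ K, TB_f T M F w k x‖ ^ 2) (Set.Icc 1 X) :=
        (hcont.norm.pow 2).continuousOn.integrableOn_Icc
      exact this.mono_set Set.Ioc_subset_Icc_self
    have hexp : ∀ x, ((‖∑ k ∈ K, TB_f T M F w k x‖ ^ 2 : ℝ) : ℂ) =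
        ∑ k ∈ K, ∑ k' ∈ K, TB_f T M F w k x * conj (TB_f T M F w k' x) := by
      intro x
      rw [← Complex.normSq_eq_norm_sq, ← Complex.mul_conj, map_sum, Finset.sum_mul_sum]
    have hI : ∫ x in Set.Ioc 1 X, ‖∑ k ∈ K, TB_f T M F w k x‖ ^ 2 ≤
        ∑ k ∈ K, ∑ k' ∈ K, ‖∫ x in (1 : ℝ)..X, TB_f T M F w k x * conj (TB_f T M F w k' x)‖ := by
      have h1 : ((∫ x in Set.Ioc 1 X, ‖∑ k ∈ K, TB_f T M F w k x‖ ^ 2 : ℝ) : ℂ) =
          ∑ k ∈ K, ∑ k' ∈ K, ∫ x in (1 : ℝ)..X, TB_f T M F w k x * conj (TB_f T M F w k' x) := by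
        rw [← integral_complex_ofReal]
        simp_rw [hexp]
        rw [← intervalIntegral.integral_of_le hX]
        have hii : ∀ k k', IntervalIntegrable (fun x => TB_f T M F w k x * conj (TB_f T M F w k' x))
            volume 1 X := by
          intro k k'
          apply Continuous.intervalIntegrable
          exact (TB_cont T M F w k).mul (Complex.continuous_conj.comp (TB_cont T M F w k'))
        rw [intervalIntegral.integral_finsetSum]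
        · refine Finset.sum_congr rfl fun k _ => ?_
          rw [intervalIntegral.integral_finsetSum]
          intro k' _
          exact hii k k'
        · intro k _
          have : (fun x => ∑ k' ∈ K, TB_f T M F w k x * conj (TB_f T M F w k' x)) =
              ∑ k' ∈ K, fun x => TB_f T M F w k x * conj (TB_f T M F w k' x) := by
            funext x; simp
          apply Continuous.intervalIntegrable
          exact continuous_finsetSum _ fun k' _ =>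
            (TB_cont T M F w k).mul (Complex.continuous_conj.comp (TB_cont T M F w k'))
      have h2 : 0 ≤ ∫ x in Set.Ioc 1 X, ‖∑ k ∈ K, TB_f T M F w k x‖ ^ 2 :=
        integral_nonneg fun x => by positivity
      have h3 : ∫ x in Set.Ioc 1 X, ‖∑ k ∈ K, TB_f T M F w k x‖ ^ 2 =
          ‖((∫ x in Set.Ioc 1 X, ‖∑ k ∈ K, TB_f T M F w k x‖ ^ 2 : ℝ) : ℂ)‖ := by
        rw [Complex.norm_real, Real.norm_of_nonneg h2]
      rw [h3, h1]
      refine (norm_sum_le _ _).trans (Finset.sum_le_sum fun k _ => norm_sum_le _ _)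
    have hle : ∫⁻ x in Set.Ioc 1 X, ENNReal.ofReal (‖∑ k ∈ K, TB_f T M F w k x‖ ^ 2) =
        ENNReal.ofReal (∫ x in Set.Ioc 1 X, ‖∑ k ∈ K, TB_f T M F w k x‖ ^ 2) := by
      rw [ofReal_integral_eq_lintegral_ofReal hintg (Filter.Eventually.of_forall fun x => by positivity)]
    rw [hle]
    refine (ENNReal.ofReal_le_ofReal hI).trans ?_
    rw [ENNReal.ofReal_sum_of_nonneg (fun k _ => Finset.sum_nonneg fun k' _ => norm_nonneg _)]
    have h4 : ∀ k ∈ K, ENNReal.ofReal (∑ k' ∈ K,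
        ‖∫ x in (1 : ℝ)..X, TB_f T M F w k x * conj (TB_f T M F w k' x)‖) ≤
        dg k + ∑ k' ∈ K, off k k' := by
      intro k hk
      rw [ENNReal.ofReal_sum_of_nonneg (fun k' _ => norm_nonneg _)]
      refine (Finset.sum_le_sum fun k' _ => hterm k k').trans ?_
      rw [Finset.sum_add_distrib, Finset.sum_ite_eq, if_pos hk]
    refine (Finset.sum_le_sum h4).trans ?_
    rw [Finset.sum_add_distrib]
    refine add_le_add (ENNReal.sum_le_tsum K) ?_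
    refine le_trans ?_ hoff'
    refine (Finset.sum_le_sum fun k _ => ENNReal.sum_le_tsum (f := off k) K).trans ?_
    exact ENNReal.sum_le_tsum K
  obtain ⟨K, hK⟩ := Filter.exists_seq_tendsto (Filter.atTop : Filter (Finset (ℚ × ℕ)))
  have hlim : ∀ x ∈ Set.Ioc (1 : ℝ) X, Filter.Tendsto
      (fun n => ENNReal.ofReal (‖∑ k ∈ K n, TB_f T M F w k x‖ ^ 2)) Filter.atTop
      (nhds (ENNReal.ofReal (‖SS T F w x‖ ^ 2))) := by
    intro x hx
    have h1 := (hasSum_SS hT1 hF (x := x) (w := w) (by linarith [hx.1])).2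
    have h2 : HasSum (fun k => TB_f T M F w k x) (SS T F w x) := by
      have he : (fun k => TB_f T M F w k x) = fun k : ℚ × ℕ => if Rough M k.2 then
          cs M F w k.1 * cexp (-π * (((k.1 : ℝ) * k.2 * x) ^ 2 : ℝ) * om T) else 0 := by
        funext k
        unfold TB_f TB_a TB_u
        split_ifs
        · rfl
        · simp
      rw [he]
      exact h1
    have h3 := h2.comp hK
    exact ENNReal.tendsto_ofReal ((h3.norm).pow 2)
  calc ∫⁻ x in Set.Ioc 1 X, ENNReal.ofReal (‖SS T F w x‖ ^ 2)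
      = ∫⁻ x in Set.Ioc 1 X, Filter.liminf
          (fun n => ENNReal.ofReal (‖∑ k ∈ K n, TB_f T M F w k x‖ ^ 2)) Filter.atTop :=
        setLIntegral_congr_fun measurableSet_Ioc fun x hx => (hlim x hx).liminf_eq.symm
    _ ≤ Filter.liminf (fun n => ∫⁻ x in Set.Ioc 1 X,
          ENNReal.ofReal (‖∑ k ∈ K n, TB_f T M F w k x‖ ^ 2)) Filter.atTop := by
        refine lintegral_liminf_le fun n => ?_
        refine ENNReal.measurable_ofReal.comp ?_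
        exact ((continuous_finsetSum _ fun k _ => TB_cont T M F w k).norm.pow 2).measurable
    _ ≤ Filter.liminf (fun _ : ℕ => (∑' k, dg k) + ENNReal.ofReal (T ^ (499 / 1000 : ℝ)))
          Filter.atTop :=
        Filter.liminf_le_liminf (Filter.Eventually.of_forall fun n => hfin (K n))
    _ = _ := Filter.liminf_const _

end Pool.Agent.UH
end

section

/-! TASK TD. The mean square of `GG` on `0 < y ≤ 2 log T`, with longer weights: `r2` of GH/R2.lean with `θ = 1/5` and the new exponents.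
COPY the relevant part of GH/R2.lean (`R2_ratio`, `R2_wa`, `R2_subst`, `R2_small`, `r2`; `R2_subst` is not private and can be cited after importing GH.R2, but the others carry the exponent `1/100`).
Changes: `off_diag` → `off_diag2`, `dg2` → `dg3` (`θ = 1/5`, `M = Mof (1/5) T = M1 T`), `R2_wa`: `∑ ‖wa (-1/2) w q‖ ≤ T^{159/2000} T^{80/1000} = T^{319/2000} =: W`,
and the last step: `8 (C T^{1/2} BB + T^{499/1000}) + 2 W² (2 log T) ≤ 8 C T^{1/2} BB + T^{4995/10000}` for `T ≥ T0` (`W² = T^{319/1000}`, `log T ≤ T^{1/10}` eventually, `9 ≤ T^{5/10000}` eventually: use `tendsto_rpow_atTop`,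
`isLittleO_log_rpow_atTop`). -/

set_option autoImplicit false

namespace Pool.Agent.UH

open Complex MeasureTheory Finset Pool.Agent.GH
open scoped Real ComplexConjugate

private theorem TD_ratio {T a b : ℝ} (hT : 1 ≤ T) (ha : 1 ≤ a) (hb : 1 ≤ b)
    (ha' : a ≤ T ^ (159 / 1000 : ℝ)) : (a / b) ^ (1 / 2 : ℝ) ≤ T ^ (159 / 2000 : ℝ) := by
  have h1 : a / b ≤ T ^ (159 / 1000 : ℝ) := (div_le_self (by linarith) hb).trans ha'
  calc (a / b) ^ (1 / 2 : ℝ) ≤ (T ^ (159 / 1000 : ℝ)) ^ (1 / 2 : ℝ) :=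
        Real.rpow_le_rpow (by positivity) h1 (by norm_num)
    _ = T ^ (159 / 2000 : ℝ) := by rw [← Real.rpow_mul (by linarith)]; norm_num

private theorem TD_wa {T : ℝ} (hT : 1 ≤ T) {F : Finset (ℕ × ℕ)} {w : ℕ × ℕ → ℂ}
    (hF : ∀ q ∈ F, q.1 ≠ 0 ∧ q.2 ≠ 0)
    (hsz : ∀ q ∈ F, (q.1 : ℝ) ≤ T ^ (159 / 1000 : ℝ) ∧ (q.2 : ℝ) ≤ T ^ (159 / 1000 : ℝ))
    (hl : ∑ q ∈ F, ‖w q‖ ≤ T ^ (80 / 1000 : ℝ)) :
    ∑ q ∈ F, ‖wa (-1 / 2) w q‖ ≤ T ^ (319 / 2000 : ℝ) := by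
  have h1 : ∀ q ∈ F, ‖wa (-1 / 2) w q‖ ≤ ‖w q‖ * T ^ (159 / 2000 : ℝ) := by
    intro q hq
    have ha : (1 : ℝ) ≤ q.1 := by exact_mod_cast Nat.one_le_iff_ne_zero.mpr (hF q hq).1
    have hb : (1 : ℝ) ≤ q.2 := by exact_mod_cast Nat.one_le_iff_ne_zero.mpr (hF q hq).2
    unfold wa
    rw [norm_mul, Complex.norm_real, Real.norm_eq_abs, abs_of_nonneg (by positivity)]
    refine mul_le_mul_of_nonneg_left ?_ (norm_nonneg _)
    have h2 : ((q.1 : ℝ) / q.2) ^ (-1 / 2 : ℝ) = ((q.2 : ℝ) / q.1) ^ (1 / 2 : ℝ) := by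
      rw [show (-1 / 2 : ℝ) = -(1 / 2) by norm_num, Real.rpow_neg (by positivity),
        ← Real.inv_rpow (by positivity), inv_div]
    rw [h2]
    exact TD_ratio hT hb ha (hsz q hq).2
  calc ∑ q ∈ F, ‖wa (-1 / 2) w q‖ ≤ ∑ q ∈ F, ‖w q‖ * T ^ (159 / 2000 : ℝ) := Finset.sum_le_sum h1
    _ = (∑ q ∈ F, ‖w q‖) * T ^ (159 / 2000 : ℝ) := by rw [Finset.sum_mul]
    _ ≤ T ^ (80 / 1000 : ℝ) * T ^ (159 / 2000 : ℝ) := by gcongr
    _ = T ^ (319 / 2000 : ℝ) := by rw [← Real.rpow_add (by linarith)]; norm_num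

private theorem TD_small : ∃ T0 : ℝ, 1 ≤ T0 ∧ ∀ T : ℝ, T0 ≤ T →
    8 * T ^ (499 / 1000 : ℝ) + 2 * (T ^ (319 / 2000 : ℝ)) ^ 2 * (2 * Real.log T) ≤
      T ^ (4995 / 10000 : ℝ) := by
  have hlim := tendsto_rpow_atTop (by norm_num : (0 : ℝ) < 5 / 10000)
  obtain ⟨T1, hT1⟩ := (hlim.eventually_ge_atTop (9 : ℝ)).exists_forall_of_atTop
  have hlog := (isLittleO_log_rpow_atTop (by norm_num : (0 : ℝ) < 1 / 10)).bound
    (by norm_num : (0 : ℝ) < 1 / 4)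
  obtain ⟨T2, hT2⟩ := hlog.exists_forall_of_atTop
  refine ⟨max 1 (max T1 T2), le_max_left _ _, fun T hT => ?_⟩
  have h1 : 1 ≤ T := (le_max_left _ _).trans hT
  have h0 : 0 < T := by linarith
  have h2 := hT1 T (((le_max_left _ _).trans (le_max_right _ _)).trans hT)
  have h3 := hT2 T (((le_max_right _ _).trans (le_max_right _ _)).trans hT)
  have hl0 : 0 ≤ Real.log T := Real.log_nonneg h1
  rw [Real.norm_of_nonneg hl0, Real.norm_of_nonneg (by positivity)] at h3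
  have e1 : (T ^ (319 / 2000 : ℝ)) ^ 2 = T ^ (319 / 1000 : ℝ) := by
    rw [← Real.rpow_natCast, ← Real.rpow_mul h0.le]; norm_num
  have e2 : T ^ (4995 / 10000 : ℝ) = T ^ (499 / 1000 : ℝ) * T ^ (5 / 10000 : ℝ) := by
    rw [← Real.rpow_add h0]; norm_num
  have e3 : T ^ (319 / 1000 : ℝ) * T ^ (1 / 10 : ℝ) ≤ T ^ (499 / 1000 : ℝ) := by
    rw [← Real.rpow_add h0]
    exact Real.rpow_le_rpow_of_exponent_le h1 (by norm_num)
  have p1 : 0 < T ^ (319 / 1000 : ℝ) := by positivity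
  have p2 : 0 < T ^ (499 / 1000 : ℝ) := by positivity
  rw [e1, e2]
  have h4 : 2 * T ^ (319 / 1000 : ℝ) * (2 * Real.log T) ≤ T ^ (319 / 1000 : ℝ) * T ^ (1 / 10 : ℝ) := by
    nlinarith
  nlinarith

theorem r3 : ∃ C T0 : ℝ, 1 ≤ C ∧ 1 ≤ T0 ∧ ∀ (T : ℝ) (F : Finset (ℕ × ℕ)) (w : ℕ × ℕ → ℂ), T0 ≤ T →
    (∀ q ∈ F, q.1 ∈ Nat.smoothNumbers (M1 T) ∧ q.2 ∈ Nat.smoothNumbers (M1 T)) →
    (∀ q ∈ F, (q.1 : ℝ) ≤ T ^ (159 / 1000 : ℝ) ∧ (q.2 : ℝ) ≤ T ^ (159 / 1000 : ℝ)) →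
    ∑ q ∈ F, ‖w q‖ ≤ T ^ (80 / 1000 : ℝ) →
    ∫⁻ y in Set.Ioc (0 : ℝ) (2 * Real.log T), ENNReal.ofReal (‖GG T F w y‖ ^ 2) ≤
    ENNReal.ofReal (C * T ^ (1 / 2 : ℝ) * BB (M1 T) F w 0 + T ^ (4995 / 10000 : ℝ)) := by
  classical
  obtain ⟨C, T2, hC, hT2, H2⟩ := dg3
  obtain ⟨T1, hT1, H1⟩ := off_diag2
  obtain ⟨T3, hT3, H3⟩ := TD_small
  refine ⟨8 * C, max (max T1 T2) T3, by linarith, le_max_of_le_left (le_max_of_le_left hT1), ?_⟩
  intro T F w hT hsm hsz hl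
  have hTa : T1 ≤ T := (le_max_left _ _).trans ((le_max_left _ _).trans hT)
  have hTb : T2 ≤ T := (le_max_right _ _).trans ((le_max_left _ _).trans hT)
  have hTc : T3 ≤ T := (le_max_right _ _).trans hT
  have hT' : 1 ≤ T := hT1.trans hTa
  have hT0 : 0 < T := by linarith
  have hF : ∀ q ∈ F, q.1 ≠ 0 ∧ q.2 ≠ 0 := fun q hq =>
    ⟨Nat.ne_zero_of_mem_smoothNumbers (hsm q hq).1, Nat.ne_zero_of_mem_smoothNumbers (hsm q hq).2⟩
  have hlogT : 0 ≤ Real.log T := Real.log_nonneg hT'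
  obtain ⟨M, hM⟩ : ∃ M : ℕ, M = M1 T := ⟨_, rfl⟩
  have hM' : Mof (1 / 5) T = M := hM.symm
  rw [← hM] at hsm ⊢
  set W := T ^ (319 / 2000 : ℝ) with hW
  have hWa : ∑ q ∈ F, ‖wa (-1 / 2) w q‖ ≤ W := TD_wa hT' hF hsz hl
  have hWn : 0 ≤ ∑ q ∈ F, ‖wa (-1 / 2) w q‖ := Finset.sum_nonneg fun _ _ => norm_nonneg _
  have hBB : 0 ≤ BB M F w 0 := by
    unfold BB
    exact integral_nonneg fun v => by positivity
  -- the diagonal
  have hdiag : ∫⁻ x in Set.Ioc 1 (T ^ 2), ENNReal.ofReal (‖SS T F w x‖ ^ 2) ≤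
      ENNReal.ofReal (C * T ^ (1 / 2 : ℝ) * BB M F w 0 + T ^ (499 / 1000 : ℝ)) := by
    refine (H1 T M F w (T ^ 2) hTa (one_le_pow₀ hT') hsm hsz hl).trans ?_
    rw [ENNReal.ofReal_add (by positivity) (by positivity)]
    refine add_le_add ?_ le_rfl
    rw [ENNReal.tsum_prod (f := fun (ρ : ℚ) (r : ℕ) => if Rough M r then
      ENNReal.ofReal (‖cs M F w ρ‖ ^ 2) * ∫⁻ x in Set.Ioc 1 (T ^ 2), ENNReal.ofReal
          (Real.exp (-2 * π * ((ρ : ℝ) * r * x) ^ 2 * Real.sin (1 / T))) else 0)]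
    have hb := bessel (M := M) (F := F) (w := w) (η := 0) le_rfl (by norm_num) hsm
    calc ∑' (ρ : ℚ) (r : ℕ), (if Rough M r then
          ENNReal.ofReal (‖cs M F w ρ‖ ^ 2) * ∫⁻ x in Set.Ioc 1 (T ^ 2), ENNReal.ofReal
          (Real.exp (-2 * π * ((ρ : ℝ) * r * x) ^ 2 * Real.sin (1 / T))) else 0)
        ≤ ∑' ρ : ℚ, ENNReal.ofReal (C * T ^ (1 / 2 : ℝ)) *
            ENNReal.ofReal (‖cs M F w ρ‖ ^ 2 * (ρ : ℝ) ^ (-1 + 0 : ℝ)) := by
          refine ENNReal.tsum_le_tsum fun ρ => ?_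
          by_cases hρ : cs M F w ρ = 0
          · simp [hρ]
          · have hρ0 : 0 < ρ := (cs_pos hsm hρ).1
            have hρ1 : (0 : ℝ) < ρ := by exact_mod_cast hρ0
            have h2 := H2 T ρ hTb hρ1
            rw [hM'] at h2
            have h3 : ∀ r : ℕ, (if Rough M r then
                ENNReal.ofReal (‖cs M F w ρ‖ ^ 2) * ∫⁻ x in Set.Ioc 1 (T ^ 2), ENNReal.ofReal
                (Real.exp (-2 * π * ((ρ : ℝ) * r * x) ^ 2 * Real.sin (1 / T))) else 0) =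
                ENNReal.ofReal (‖cs M F w ρ‖ ^ 2) * (if Rough M r then
                ∫⁻ x in Set.Ioc 1 (T ^ 2), ENNReal.ofReal
                (Real.exp (-2 * π * ((ρ : ℝ) * r * x) ^ 2 * Real.sin (1 / T))) else 0) := by
              intro r
              split_ifs
              · rfl
              · rw [mul_zero]
            simp_rw [h3]
            rw [ENNReal.tsum_mul_left]
            calc ENNReal.ofReal (‖cs M F w ρ‖ ^ 2) * _
                ≤ ENNReal.ofReal (‖cs M F w ρ‖ ^ 2) *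
                  ENNReal.ofReal (C * T ^ (1 / 2 : ℝ) / ρ) := by
                  gcongr
              _ = ENNReal.ofReal (C * T ^ (1 / 2 : ℝ)) *
                ENNReal.ofReal (‖cs M F w ρ‖ ^ 2 * (ρ : ℝ) ^ (-1 + 0 : ℝ)) := by
                  rw [← ENNReal.ofReal_mul (by positivity), ← ENNReal.ofReal_mul (by positivity)]
                  congr 1
                  rw [add_zero, Real.rpow_neg_one]
                  field_simp
      _ = ENNReal.ofReal (C * T ^ (1 / 2 : ℝ)) *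
            ∑' ρ : ℚ, ENNReal.ofReal (‖cs M F w ρ‖ ^ 2 * (ρ : ℝ) ^ (-1 + 0 : ℝ)) :=
          ENNReal.tsum_mul_left
      _ ≤ ENNReal.ofReal (C * T ^ (1 / 2 : ℝ)) * ENNReal.ofReal (BB M F w 0) := by
          gcongr
      _ = ENNReal.ofReal (C * T ^ (1 / 2 : ℝ) * BB M F w 0) :=
          (ENNReal.ofReal_mul (by positivity)).symm
  -- the reduction
  have hpt : ∀ y ∈ Set.Ioc (0 : ℝ) (2 * Real.log T), ENNReal.ofReal (‖GG T F w y‖ ^ 2) ≤
      8 * (ENNReal.ofReal (Real.exp y) * ENNReal.ofReal (‖SS T F w (Real.exp y)‖ ^ 2)) +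
        ENNReal.ofReal (2 * W ^ 2) := by
    intro y hy
    have h1 := GG_sq_le hT' F w hF y
    have h2 : 2 * Real.exp (-y) * (∑ q ∈ F, ‖wa (-1 / 2) w q‖) ^ 2 ≤ 2 * W ^ 2 := by
      have h3 : Real.exp (-y) ≤ 1 := Real.exp_le_one_iff.mpr (by linarith [hy.1])
      have h4 : (∑ q ∈ F, ‖wa (-1 / 2) w q‖) ^ 2 ≤ W ^ 2 := pow_le_pow_left₀ hWn hWa 2
      calc 2 * Real.exp (-y) * (∑ q ∈ F, ‖wa (-1 / 2) w q‖) ^ 2 ≤ 2 * 1 * W ^ 2 := by gcongr
        _ = 2 * W ^ 2 := by ring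
    calc ENNReal.ofReal (‖GG T F w y‖ ^ 2)
        ≤ ENNReal.ofReal (8 * (Real.exp y * ‖SS T F w (Real.exp y)‖ ^ 2) + 2 * W ^ 2) :=
          ENNReal.ofReal_le_ofReal (by linarith)
      _ = _ := by
          rw [ENNReal.ofReal_add (by positivity) (by positivity), ENNReal.ofReal_mul (by norm_num),
            ENNReal.ofReal_mul (by positivity), ENNReal.ofReal_ofNat]
  calc ∫⁻ y in Set.Ioc (0 : ℝ) (2 * Real.log T), ENNReal.ofReal (‖GG T F w y‖ ^ 2)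
      ≤ ∫⁻ y in Set.Ioc (0 : ℝ) (2 * Real.log T),
        (8 * (ENNReal.ofReal (Real.exp y) * ENNReal.ofReal (‖SS T F w (Real.exp y)‖ ^ 2)) +
        ENNReal.ofReal (2 * W ^ 2)) := setLIntegral_mono' measurableSet_Ioc hpt
    _ = 8 * (∫⁻ x in Set.Ioc 1 (T ^ 2), ENNReal.ofReal (‖SS T F w x‖ ^ 2)) +
        ENNReal.ofReal (2 * W ^ 2) * ENNReal.ofReal (2 * Real.log T) := by
        rw [lintegral_add_right _ measurable_const, lintegral_const_mul' _ _ (by norm_num),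
          R2_subst hT' (fun x => ENNReal.ofReal (‖SS T F w x‖ ^ 2)), lintegral_const,
          Measure.restrict_apply_univ, Real.volume_Ioc, sub_zero]
    _ ≤ 8 * ENNReal.ofReal (C * T ^ (1 / 2 : ℝ) * BB M F w 0 + T ^ (499 / 1000 : ℝ)) +
        ENNReal.ofReal (2 * W ^ 2) * ENNReal.ofReal (2 * Real.log T) := by gcongr
    _ = ENNReal.ofReal (8 * (C * T ^ (1 / 2 : ℝ) * BB M F w 0 + T ^ (499 / 1000 : ℝ)) +
        2 * W ^ 2 * (2 * Real.log T)) := by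
        have hD : 0 ≤ C * T ^ (1 / 2 : ℝ) * BB M F w 0 + T ^ (499 / 1000 : ℝ) := by positivity
        generalize C * T ^ (1 / 2 : ℝ) * BB M F w 0 + T ^ (499 / 1000 : ℝ) = D at hD ⊢
        have hW2 : 0 ≤ 2 * W ^ 2 := by positivity
        have hlT : 0 ≤ 2 * Real.log T := by positivity
        rw [ENNReal.ofReal_add (p := 8 * D) (by positivity) (by positivity),
          ENNReal.ofReal_mul (p := 8) (by norm_num),
          ENNReal.ofReal_mul (p := 2 * W ^ 2) hW2, ENNReal.ofReal_ofNat]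
    _ ≤ _ := by
        apply ENNReal.ofReal_le_ofReal
        have hs := H3 T hTc
        have e1 : 8 * C * T ^ (1 / 2 : ℝ) * BB M F w 0 =
          8 * (C * T ^ (1 / 2 : ℝ) * BB M F w 0) := by ring
        rw [e1]
        linarith

end Pool.Agent.UH
end

section

/-! TASK TF. The twisted second moment of zeta. (Template: the proof of `hfun` in GH/Fun.lean.)
Step 1 (Hermitian weights). Let `F` be symmetric (`q ∈ F → q.swap ∈ F`), `w` Hermitian (`Herm F w`), the numbers `M1 T`-smooth and `≤ T^{159/1000}`, `∑ ‖w q‖ ≤ T^{80/1000}`. By `zeta_le_xi` (`a = 0`), `shift_planch` (`a = 0`, `wa 0 w = w`, cf. `PW_wa_zero` in GH/PW.lean), and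
`r3`, `r3_tail` (split `(0,∞) = (0, 2 log T] ∪ (2 log T, ∞)`): `∫_T^{3T} |ζ(1/2+it)|² |WW F w t|² dt ≤ C² T^{1/2} ∫ ‖xi‖² ‖WW‖² ≤ C² T^{1/2} 4π (C' T^{1/2} BB (M1 T) F w 0 + T^{4995/10000} + 1) ≤ C'' (T BB + T^{9996/10000})`.
Step 2 (decomposition). `g = ∑_{q∈F} c_q χ(q.1) conj χ(q.2)`. Put `F' = F ∪ F.image swap`, `c̃ = c` on `F` and `0` elsewhere, `r_q = (q.1 q.2)^{-1/2}` and
`w1 q = r_q (c̃ q + c̃ q.swap)/2`, `w2 q = -i r_q (c̃ q - c̃ q.swap)/2`. Both are Hermitian, `∑ ‖w_i‖ ≤ ∑ |c_q| r_q ≤ T^{80/1000}`.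
For `χ = nC (1/2 + t i)`: `χ(m) conj χ(n) = r_{(m,n)} e^{it(log n - log m)}`, so `WW F' w1 t = Re g(χ)`, `WW F' w2 t = Im g(χ)` (both are real numbers: each is `(g ± conj g)/2` up to `1/i`), hence `|g|² = |WW F' w1|² + |WW F' w2|²`.
For `χ = nX 0 v`: in the same way `∑ wa 0 w_i q XX v q.1 conj (XX v q.2)` is `Re g`, `Im g`, so `BB (M1 T) F' w1 0 + BB (M1 T) F' w2 0 = ∫ ‖Zt (1/2 - 0/2)‖² ‖g (nX 0 v)‖²`.
(Everything is integrable: continuous functions on a compact space; `continuous_Zt`, `continuous_dp2`, `integrable_of_continuous`.) Add the two estimates of Step 1. -/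

set_option autoImplicit false

namespace Pool.Agent.UH

open Complex MeasureTheory Finset Pool.Agent.GH
open scoped Real ComplexConjugate

private lemma TF_wa_zero (w : ℕ × ℕ → ℂ) : wa 0 w = w := by
  funext q
  unfold wa
  rw [Real.rpow_zero]
  simp

/-- Step 1. -/
private lemma TF_step1 : ∃ C T0 : ℝ, 1 ≤ C ∧ 2 ≤ T0 ∧ ∀ (T : ℝ) (F : Finset (ℕ × ℕ)) (w : ℕ × ℕ → ℂ), T0 ≤ T →
    Herm F w →
    (∀ q ∈ F, q.1 ∈ Nat.smoothNumbers (M1 T) ∧ q.2 ∈ Nat.smoothNumbers (M1 T)) →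
    (∀ q ∈ F, (q.1 : ℝ) ≤ T ^ (159 / 1000 : ℝ) ∧ (q.2 : ℝ) ≤ T ^ (159 / 1000 : ℝ)) →
    ∑ q ∈ F, ‖w q‖ ≤ T ^ (80 / 1000 : ℝ) →
    ∫⁻ t in Set.Icc T (3 * T), ENNReal.ofReal (‖riemannZeta (1 / 2 + t * I)‖ ^ 2 * ‖WW F w t‖ ^ 2) ≤
    ENNReal.ofReal (C * (T * BB (M1 T) F w 0 + T ^ (9996 / 10000 : ℝ))) := by
  obtain ⟨C1, hC1, hz⟩ := zeta_le_xi
  obtain ⟨C2, T1, hC2, hT1, hr⟩ := r3
  obtain ⟨T2, hT2, ht⟩ := r3_tail
  refine ⟨8 * π * C1 ^ 2 * C2, max (max T1 T2) 2, ?_, le_max_right _ _, ?_⟩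
  · have h1 : 1 ≤ C1 ^ 2 := one_le_pow₀ hC1
    have h2 : 1 ≤ π := by linarith [Real.pi_gt_three]
    nlinarith [mul_le_mul h1 hC2 (by norm_num) (by positivity), mul_pos Real.pi_pos (by positivity : 0 < C1 ^ 2 * C2)]
  intro T F w hT hH hS hQ hl1
  have hTT1 : T1 ≤ T := (le_max_left _ _).trans ((le_max_left _ _).trans hT)
  have hTT2 : T2 ≤ T := (le_max_right _ _).trans ((le_max_left _ _).trans hT)
  have hT2' : 2 ≤ T := (le_max_right _ _).trans hT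
  have hT0 : 0 < T := by linarith
  have hm := hr T F w hTT1 hS hQ hl1
  have htl := ht T F w hTT2 (fun q hq => ⟨(hH.1 q hq).1, (hH.1 q hq).2.1⟩) hQ hl1
  have hlog : 0 < Real.log T := Real.log_pos (by linarith)
  have hBB : 0 ≤ BB (M1 T) F w 0 := by
    unfold BB
    exact integral_nonneg fun v => by positivity
  have hsplit : Set.Ioi (0 : ℝ) = Set.Ioc 0 (2 * Real.log T) ∪ Set.Ioi (2 * Real.log T) :=
    (Set.Ioc_union_Ioi_eq_Ioi (by linarith)).symm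
  have hdisj : Disjoint (Set.Ioc 0 (2 * Real.log T)) (Set.Ioi (2 * Real.log T)) := by
    rw [Set.disjoint_left]
    intro x hx hx'
    exact absurd hx.2 (not_le.mpr hx')
  have hhalf : ∫⁻ y in Set.Ioi (0 : ℝ), ENNReal.ofReal (‖GG T F w y‖ ^ 2) ≤
      ENNReal.ofReal (C2 * T ^ (1 / 2 : ℝ) * BB (M1 T) F w 0 + T ^ (4995 / 10000 : ℝ) + 1) := by
    rw [hsplit, lintegral_union measurableSet_Ioi hdisj, ENNReal.ofReal_add (by positivity)
      zero_le_one, ENNReal.ofReal_one]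
    exact add_le_add hm htl
  have hs := shift_planch (T := T) (by linarith) (a := 0) (by norm_num) F w hH
  simp only [neg_zero, mul_zero, zero_mul, Real.exp_zero, one_mul, TF_wa_zero] at hs
  calc ∫⁻ t in Set.Icc T (3 * T), ENNReal.ofReal (‖riemannZeta (1 / 2 + t * I)‖ ^ 2 *
        ‖WW F w t‖ ^ 2)
      ≤ ∫⁻ t in Set.Icc T (3 * T), ENNReal.ofReal ((C1 * T ^ (1 / 4 : ℝ)) ^ 2) *
          ENNReal.ofReal (‖xi T 0 t‖ ^ 2 * ‖WW F w t‖ ^ 2) := by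
        refine setLIntegral_mono' measurableSet_Icc fun t h => ?_
        rw [← ENNReal.ofReal_mul (by positivity)]
        apply ENNReal.ofReal_le_ofReal
        have h7 := hz T 0 t hT2' (by norm_num) h.1 h.2
        rw [Complex.ofReal_zero, add_zero, abs_zero, zero_div, add_zero] at h7
        calc ‖riemannZeta (1 / 2 + t * I)‖ ^ 2 * ‖WW F w t‖ ^ 2
            ≤ (C1 * T ^ (1 / 4 : ℝ) * ‖xi T 0 t‖) ^ 2 * ‖WW F w t‖ ^ 2 := by
              refine mul_le_mul_of_nonneg_right ?_ (by positivity)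
              exact pow_le_pow_left₀ (norm_nonneg _) h7 2
          _ = _ := by ring
    _ ≤ ∫⁻ t : ℝ, ENNReal.ofReal ((C1 * T ^ (1 / 4 : ℝ)) ^ 2) *
          ENNReal.ofReal (‖xi T 0 t‖ ^ 2 * ‖WW F w t‖ ^ 2) :=
        setLIntegral_le_lintegral _ _
    _ = ENNReal.ofReal ((C1 * T ^ (1 / 4 : ℝ)) ^ 2) * ∫⁻ t : ℝ,
          ENNReal.ofReal (‖xi T 0 t‖ ^ 2 * ‖WW F w t‖ ^ 2) := by
        rw [lintegral_const_mul' _ _ ENNReal.ofReal_ne_top]
    _ ≤ ENNReal.ofReal ((C1 * T ^ (1 / 4 : ℝ)) ^ 2) * (ENNReal.ofReal (2 * π) *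
          (ENNReal.ofReal (C2 * T ^ (1 / 2 : ℝ) * BB (M1 T) F w 0 + T ^ (4995 / 10000 : ℝ) + 1) +
          ENNReal.ofReal (C2 * T ^ (1 / 2 : ℝ) * BB (M1 T) F w 0 + T ^ (4995 / 10000 : ℝ) + 1))) := by
        refine mul_le_mul_right (hs.trans ?_) _
        exact mul_le_mul_right (add_le_add hhalf hhalf) _
    _ = ENNReal.ofReal ((C1 * T ^ (1 / 4 : ℝ)) ^ 2 * (2 * π *
          ((C2 * T ^ (1 / 2 : ℝ) * BB (M1 T) F w 0 + T ^ (4995 / 10000 : ℝ) + 1) +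
          (C2 * T ^ (1 / 2 : ℝ) * BB (M1 T) F w 0 + T ^ (4995 / 10000 : ℝ) + 1)))) := by
        rw [← ENNReal.ofReal_add (by positivity) (by positivity),
          ← ENNReal.ofReal_mul (by positivity), ← ENNReal.ofReal_mul (by positivity)]
    _ ≤ _ := by
        apply ENNReal.ofReal_le_ofReal
        have hsq : (C1 * T ^ (1 / 4 : ℝ)) ^ 2 = C1 ^ 2 * T ^ (1 / 2 : ℝ) := by
          rw [mul_pow, ← Real.rpow_natCast (T ^ (1 / 4 : ℝ)) 2, ← Real.rpow_mul hT0.le]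
          norm_num
        have hTT : T ^ (1 / 2 : ℝ) * T ^ (1 / 2 : ℝ) = T := by
          rw [← Real.rpow_add hT0]; norm_num
        have hTa : T ^ (1 / 2 : ℝ) * T ^ (4995 / 10000 : ℝ) ≤ T ^ (9996 / 10000 : ℝ) := by
          rw [← Real.rpow_add hT0]
          exact Real.rpow_le_rpow_of_exponent_le (by linarith) (by norm_num)
        have hTb : T ^ (1 / 2 : ℝ) ≤ T ^ (9996 / 10000 : ℝ) :=
          Real.rpow_le_rpow_of_exponent_le (by linarith) (by norm_num)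
        rw [hsq]
        set Y := BB (M1 T) F w 0 with hY
        have e1 : C1 ^ 2 * T ^ (1 / 2 : ℝ) * (2 * π *
            ((C2 * T ^ (1 / 2 : ℝ) * Y + T ^ (4995 / 10000 : ℝ) + 1) +
            (C2 * T ^ (1 / 2 : ℝ) * Y + T ^ (4995 / 10000 : ℝ) + 1))) =
            4 * π * C1 ^ 2 * C2 * ((T ^ (1 / 2 : ℝ) * T ^ (1 / 2 : ℝ)) * Y) +
            4 * π * C1 ^ 2 * (T ^ (1 / 2 : ℝ) * T ^ (4995 / 10000 : ℝ)) +
            4 * π * C1 ^ 2 * T ^ (1 / 2 : ℝ) := by ring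
        rw [e1, hTT]
        have i1 : 4 * π * C1 ^ 2 * (T ^ (1 / 2 : ℝ) * T ^ (4995 / 10000 : ℝ)) ≤
            4 * π * C1 ^ 2 * T ^ (9996 / 10000 : ℝ) := mul_le_mul_of_nonneg_left hTa (by positivity)
        have i2 : 4 * π * C1 ^ 2 * T ^ (1 / 2 : ℝ) ≤
            4 * π * C1 ^ 2 * T ^ (9996 / 10000 : ℝ) := mul_le_mul_of_nonneg_left hTb (by positivity)
        have i3 : 8 * π * C1 ^ 2 * T ^ (9996 / 10000 : ℝ) ≤
            8 * π * C1 ^ 2 * T ^ (9996 / 10000 : ℝ) * C2 := le_mul_of_one_le_right (by positivity) hC2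
        have i4 : 0 ≤ 4 * π * C1 ^ 2 * C2 * (T * Y) := by positivity
        have e2 : 8 * π * C1 ^ 2 * C2 * (T * Y + T ^ (9996 / 10000 : ℝ)) =
            4 * π * C1 ^ 2 * C2 * (T * Y) + 4 * π * C1 ^ 2 * C2 * (T * Y) +
            8 * π * C1 ^ 2 * T ^ (9996 / 10000 : ℝ) * C2 := by ring
        rw [e2]
        linarith

/-- The coefficients extended by zero. -/
private noncomputable def TF_ct (F : Finset (ℕ × ℕ)) (c : ℕ × ℕ → ℝ) (q : ℕ × ℕ) : ℝ :=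
  if q ∈ F then c q else 0

/-- The symmetric support. -/
private def TF_F (F : Finset (ℕ × ℕ)) : Finset (ℕ × ℕ) := F ∪ F.image Prod.swap

private lemma TF_mem_swap {F : Finset (ℕ × ℕ)} {q : ℕ × ℕ} (hq : q ∈ TF_F F) : q.swap ∈ TF_F F := by
  unfold TF_F at hq ⊢
  rw [Finset.mem_union, Finset.mem_image] at hq ⊢
  rcases hq with h | ⟨p, hp, rfl⟩
  · exact Or.inr ⟨q, h, rfl⟩
  · left
    rw [Prod.swap_swap]
    exact hp

private lemma TF_mem_cases {F : Finset (ℕ × ℕ)} {P : ℕ → Prop} (h : ∀ q ∈ F, P q.1 ∧ P q.2)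
    {q : ℕ × ℕ} (hq : q ∈ TF_F F) : P q.1 ∧ P q.2 := by
  unfold TF_F at hq
  rw [Finset.mem_union, Finset.mem_image] at hq
  rcases hq with h1 | ⟨p, hp, rfl⟩
  · exact h q h1
  · exact ⟨(h p hp).2, (h p hp).1⟩

private lemma TF_swap_sum {M : Type} [AddCommMonoid M] (F : Finset (ℕ × ℕ)) (f : ℕ × ℕ → M) :
    ∑ q ∈ TF_F F, f q.swap = ∑ q ∈ TF_F F, f q :=
  Finset.sum_nbij' Prod.swap Prod.swap (fun _ hq => TF_mem_swap hq) (fun _ hq => TF_mem_swap hq)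
    (fun q _ => Prod.swap_swap q) (fun q _ => Prod.swap_swap q) (fun _ _ => rfl)

private lemma TF_sum_ct (F : Finset (ℕ × ℕ)) (c : ℕ × ℕ → ℝ) (Φ : ℕ × ℕ → ℂ) :
    ∑ q ∈ TF_F F, (TF_ct F c q : ℂ) * Φ q = ∑ q ∈ F, (c q : ℂ) * Φ q := by
  symm
  have h1 : ∑ q ∈ F, (c q : ℂ) * Φ q = ∑ q ∈ F, (TF_ct F c q : ℂ) * Φ q := by
    refine Finset.sum_congr rfl fun q hq => ?_
    unfold TF_ct
    rw [if_pos hq]
  rw [h1]
  refine Finset.sum_subset Finset.subset_union_left fun q _ hq => ?_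
  unfold TF_ct
  rw [if_neg hq, Complex.ofReal_zero, zero_mul]

private lemma TF_conj_ct (F : Finset (ℕ × ℕ)) (c : ℕ × ℕ → ℝ) (Φ : ℕ × ℕ → ℂ)
    (hΦ : ∀ q, Φ q.swap = conj (Φ q)) :
    ∑ q ∈ TF_F F, (TF_ct F c q.swap : ℂ) * Φ q = conj (∑ q ∈ F, (c q : ℂ) * Φ q) := by
  rw [← TF_sum_ct F c Φ, map_sum, ← TF_swap_sum F (fun q => conj ((TF_ct F c q : ℂ) * Φ q))]
  refine Finset.sum_congr rfl fun q _ => ?_
  rw [map_mul, Complex.conj_ofReal, hΦ, Complex.conj_conj]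

private lemma TF_re (F : Finset (ℕ × ℕ)) (c : ℕ × ℕ → ℝ) (Φ : ℕ × ℕ → ℂ)
    (hΦ : ∀ q, Φ q.swap = conj (Φ q)) :
    ∑ q ∈ TF_F F, (((TF_ct F c q + TF_ct F c q.swap) / 2 : ℝ) : ℂ) * Φ q =
      (((∑ q ∈ F, (c q : ℂ) * Φ q).re : ℝ) : ℂ) := by
  have h1 : ∀ q, (((TF_ct F c q + TF_ct F c q.swap) / 2 : ℝ) : ℂ) * Φ q =
      1 / 2 * ((TF_ct F c q : ℂ) * Φ q) + 1 / 2 * ((TF_ct F c q.swap : ℂ) * Φ q) := by
    intro q
    push_cast
    ring
  rw [Finset.sum_congr rfl fun q _ => h1 q, Finset.sum_add_distrib, ← Finset.mul_sum,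
    ← Finset.mul_sum, TF_sum_ct, TF_conj_ct F c Φ hΦ, Complex.re_eq_add_conj]
  ring

private lemma TF_im (F : Finset (ℕ × ℕ)) (c : ℕ × ℕ → ℝ) (Φ : ℕ × ℕ → ℂ)
    (hΦ : ∀ q, Φ q.swap = conj (Φ q)) :
    ∑ q ∈ TF_F F, -I * (((TF_ct F c q - TF_ct F c q.swap) / 2 : ℝ) : ℂ) * Φ q =
      (((∑ q ∈ F, (c q : ℂ) * Φ q).im : ℝ) : ℂ) := by
  have h1 : ∀ q, -I * (((TF_ct F c q - TF_ct F c q.swap) / 2 : ℝ) : ℂ) * Φ q =
      -I / 2 * ((TF_ct F c q : ℂ) * Φ q) - -I / 2 * ((TF_ct F c q.swap : ℂ) * Φ q) := by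
    intro q
    push_cast
    ring
  rw [Finset.sum_congr rfl fun q _ => h1 q, Finset.sum_sub_distrib, ← Finset.mul_sum,
    ← Finset.mul_sum, TF_sum_ct, TF_conj_ct F c Φ hΦ, Complex.im_eq_sub_conj]
  have hI : (I : ℂ) ≠ 0 := Complex.I_ne_zero
  field_simp
  ring_nf
  rw [Complex.I_sq]
  ring

/-- The factor `(m n)^(-1/2)`. -/
private noncomputable def TF_r (q : ℕ × ℕ) : ℝ := ((q.1 : ℝ) * q.2) ^ (-(1 / 2) : ℝ)

private lemma TF_r_swap (q : ℕ × ℕ) : TF_r q.swap = TF_r q := by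
  unfold TF_r
  rw [Prod.fst_swap, Prod.snd_swap, mul_comm]

private lemma TF_r_nonneg (q : ℕ × ℕ) : 0 ≤ TF_r q := by
  unfold TF_r
  positivity

private noncomputable def TF_w1 (F : Finset (ℕ × ℕ)) (c : ℕ × ℕ → ℝ) (q : ℕ × ℕ) : ℂ :=
  (((TF_ct F c q + TF_ct F c q.swap) / 2 : ℝ) : ℂ) * (TF_r q : ℂ)

private noncomputable def TF_w2 (F : Finset (ℕ × ℕ)) (c : ℕ × ℕ → ℝ) (q : ℕ × ℕ) : ℂ :=
  -I * (((TF_ct F c q - TF_ct F c q.swap) / 2 : ℝ) : ℂ) * (TF_r q : ℂ)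

private lemma TF_w1_swap (F : Finset (ℕ × ℕ)) (c : ℕ × ℕ → ℝ) (q : ℕ × ℕ) :
    TF_w1 F c q.swap = conj (TF_w1 F c q) := by
  unfold TF_w1
  rw [Prod.swap_swap, TF_r_swap, map_mul, Complex.conj_ofReal, Complex.conj_ofReal, add_comm]

private lemma TF_w2_swap (F : Finset (ℕ × ℕ)) (c : ℕ × ℕ → ℝ) (q : ℕ × ℕ) :
    TF_w2 F c q.swap = conj (TF_w2 F c q) := by
  unfold TF_w2
  rw [Prod.swap_swap, TF_r_swap, map_mul, map_mul, Complex.conj_ofReal, Complex.conj_ofReal,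
    map_neg, Complex.conj_I]
  push_cast
  ring

private lemma TF_abs_sum {F : Finset (ℕ × ℕ)} {c : ℕ × ℕ → ℝ} {B : ℝ}
    (hB : ∑ q ∈ F, |c q| * TF_r q ≤ B) :
    ∑ q ∈ TF_F F, (|TF_ct F c q| + |TF_ct F c q.swap|) / 2 * TF_r q ≤ B := by
  have h1 : ∑ q ∈ TF_F F, |TF_ct F c q| * TF_r q = ∑ q ∈ F, |c q| * TF_r q := by
    symm
    have h1 : ∑ q ∈ F, |c q| * TF_r q = ∑ q ∈ F, |TF_ct F c q| * TF_r q := by
      refine Finset.sum_congr rfl fun q hq => ?_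
      unfold TF_ct
      rw [if_pos hq]
    rw [h1]
    refine Finset.sum_subset Finset.subset_union_left fun q _ hq => ?_
    unfold TF_ct
    rw [if_neg hq, abs_zero, zero_mul]
  have h2 : ∑ q ∈ TF_F F, |TF_ct F c q.swap| * TF_r q = ∑ q ∈ F, |c q| * TF_r q := by
    rw [← h1, ← TF_swap_sum F (fun q => |TF_ct F c q| * TF_r q)]
    refine Finset.sum_congr rfl fun q _ => ?_
    rw [TF_r_swap]
  have h3 : ∀ q, (|TF_ct F c q| + |TF_ct F c q.swap|) / 2 * TF_r q =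
      1 / 2 * (|TF_ct F c q| * TF_r q) + 1 / 2 * (|TF_ct F c q.swap| * TF_r q) := by
    intro q
    ring
  rw [Finset.sum_congr rfl fun q _ => h3 q, Finset.sum_add_distrib, ← Finset.mul_sum,
    ← Finset.mul_sum, h1, h2]
  linarith

private lemma TF_w1_norm (F : Finset (ℕ × ℕ)) (c : ℕ × ℕ → ℝ) (q : ℕ × ℕ) :
    ‖TF_w1 F c q‖ ≤ (|TF_ct F c q| + |TF_ct F c q.swap|) / 2 * TF_r q := by
  unfold TF_w1
  rw [norm_mul, Complex.norm_real, Complex.norm_real, Real.norm_eq_abs,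
    Real.norm_of_nonneg (TF_r_nonneg q)]
  refine mul_le_mul_of_nonneg_right ?_ (TF_r_nonneg q)
  rw [abs_div, abs_two]
  have := abs_add_le (TF_ct F c q) (TF_ct F c q.swap)
  linarith

private lemma TF_w2_norm (F : Finset (ℕ × ℕ)) (c : ℕ × ℕ → ℝ) (q : ℕ × ℕ) :
    ‖TF_w2 F c q‖ ≤ (|TF_ct F c q| + |TF_ct F c q.swap|) / 2 * TF_r q := by
  unfold TF_w2
  rw [norm_mul, norm_mul, norm_neg, Complex.norm_I, one_mul, Complex.norm_real, Complex.norm_real,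
    Real.norm_eq_abs, Real.norm_of_nonneg (TF_r_nonneg q)]
  refine mul_le_mul_of_nonneg_right ?_ (TF_r_nonneg q)
  rw [abs_div, abs_two]
  have := abs_sub (TF_ct F c q) (TF_ct F c q.swap)
  linarith

private lemma TF_nC (s : ℂ) {n : ℕ} (hn : n ≠ 0) : nC s n = cexp ((Real.log n : ℂ) * (-s)) := by
  rw [nC_apply s hn, Complex.cpow_def_of_ne_zero (by exact_mod_cast hn)]
  congr 2
  exact (Complex.natCast_log).symm

private lemma TF_r_exp {q : ℕ × ℕ} (h1 : q.1 ≠ 0) (h2 : q.2 ≠ 0) :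
    (TF_r q : ℂ) = cexp ((Real.log q.1 + Real.log q.2 : ℂ) * (-(1 / 2))) := by
  have hp1 : (0 : ℝ) < q.1 := by exact_mod_cast Nat.pos_of_ne_zero h1
  have hp2 : (0 : ℝ) < q.2 := by exact_mod_cast Nat.pos_of_ne_zero h2
  unfold TF_r
  rw [Real.rpow_def_of_pos (by positivity), Real.log_mul hp1.ne' hp2.ne']
  push_cast
  rfl

/-- The kernel on the critical line. -/
private noncomputable def TF_Pl (t : ℝ) (q : ℕ × ℕ) : ℂ :=
  (TF_r q : ℂ) * cexp ((t * (Real.log q.2 - Real.log q.1) : ℝ) * I)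

private lemma TF_Pl_swap (t : ℝ) (q : ℕ × ℕ) : TF_Pl t q.swap = conj (TF_Pl t q) := by
  unfold TF_Pl
  rw [TF_r_swap, map_mul, Complex.conj_ofReal, ← Complex.exp_conj, map_mul, Complex.conj_ofReal,
    Complex.conj_I, Prod.fst_swap, Prod.snd_swap]
  congr 2
  push_cast
  ring

private lemma TF_Pl_eq (t : ℝ) {q : ℕ × ℕ} (h1 : q.1 ≠ 0) (h2 : q.2 ≠ 0) :
    TF_Pl t q = nC (1 / 2 + t * I) q.1 * conj (nC (1 / 2 + t * I) q.2) := by
  unfold TF_Pl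
  rw [TF_nC _ h1, TF_nC _ h2, TF_r_exp h1 h2, ← Complex.exp_conj, ← Complex.exp_add,
    ← Complex.exp_add]
  congr 1
  simp only [map_mul, Complex.conj_ofReal, map_add, map_neg, map_div₀, map_one,
    map_ofNat, Complex.conj_I]
  push_cast
  ring

/-- The kernel of the random model. -/
private noncomputable def TF_Pr (v : Om) (q : ℕ × ℕ) : ℂ :=
  (TF_r q : ℂ) * (XX v q.1 * conj (XX v q.2))

private lemma TF_Pr_swap (v : Om) (q : ℕ × ℕ) : TF_Pr v q.swap = conj (TF_Pr v q) := by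
  unfold TF_Pr
  rw [TF_r_swap, map_mul, map_mul, Complex.conj_ofReal, Complex.conj_conj, Prod.fst_swap,
    Prod.snd_swap]
  ring

private lemma TF_Pr_eq (v : Om) {q : ℕ × ℕ} (h1 : q.1 ≠ 0) (h2 : q.2 ≠ 0) :
    TF_Pr v q = nX 0 v q.1 * conj (nX 0 v q.2) := by
  change TF_Pr v q = (nC (1 / 2 + 0) q.1 * XX v q.1) * conj (nC (1 / 2 + 0) q.2 * XX v q.2)
  unfold TF_Pr
  rw [TF_nC _ h1, TF_nC _ h2, TF_r_exp h1 h2, map_mul, ← Complex.exp_conj]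
  have e : ∀ x y z u : ℂ, (cexp x * y) * (cexp z * u) = cexp (x + z) * (y * u) := by
    intro x y z u
    rw [Complex.exp_add]; ring
  rw [e]
  congr 2
  simp only [map_mul, Complex.conj_ofReal, map_neg, map_div₀, map_one,
    map_ofNat, add_zero]
  ring

theorem twist : ∃ C T0 : ℝ, 1 ≤ C ∧ 2 ≤ T0 ∧ ∀ (T : ℝ) (g : (ℕ →*₀ ℂ) → ℂ), T0 ≤ T →
    IsDP2 (Nat.smoothNumbers (M1 T)) (T ^ (159 / 1000 : ℝ)) (T ^ (80 / 1000 : ℝ)) g →
    ∫⁻ t in Set.Icc T (3 * T), ENNReal.ofReal (‖riemannZeta (1 / 2 + t * I)‖ ^ 2 *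
        ‖g (nC (1 / 2 + t * I))‖ ^ 2) ≤
    ENNReal.ofReal (C * (T * (∫ w, ‖Zt (Nat.primesBelow (M1 T)) (1 / 2) w‖ ^ 2 *
      ‖g (nX 0 w)‖ ^ 2 ∂mu) + T ^ (9996 / 10000 : ℝ))) := by
  obtain ⟨C, T0, hC, hT0, h1⟩ := TF_step1
  refine ⟨2 * C, T0, by linarith, hT0, ?_⟩
  intro T g hT hg
  have hT2 : 2 ≤ T := hT0.trans hT
  have hTpos : 0 < T := by linarith
  have hgc := continuous_dp2 hg 0
  obtain ⟨F, c, g1, g2, g3⟩ := hg
  have g2' : ∑ q ∈ F, |c q| * TF_r q ≤ T ^ (80 / 1000 : ℝ) := g2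
  have hH : ∀ w : ℕ × ℕ → ℂ, (∀ q, w q.swap = conj (w q)) → Herm (TF_F F) w := by
    intro w hw
    refine ⟨fun q hq => ?_, fun q _ => hw q⟩
    have := TF_mem_cases (P := fun n => n ≠ 0) (fun q hq => ⟨(g1 q hq).1, (g1 q hq).2.1⟩) hq
    exact ⟨this.1, this.2, TF_mem_swap hq⟩
  have hS : ∀ q ∈ TF_F F, q.1 ∈ Nat.smoothNumbers (M1 T) ∧ q.2 ∈ Nat.smoothNumbers (M1 T) :=
    fun q hq => TF_mem_cases (P := fun n => n ∈ Nat.smoothNumbers (M1 T))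
      (fun q hq => ⟨(g1 q hq).2.2.1, (g1 q hq).2.2.2.1⟩) hq
  have hQ : ∀ q ∈ TF_F F, (q.1 : ℝ) ≤ T ^ (159 / 1000 : ℝ) ∧ (q.2 : ℝ) ≤ T ^ (159 / 1000 : ℝ) :=
    fun q hq => TF_mem_cases (P := fun n => (n : ℝ) ≤ T ^ (159 / 1000 : ℝ))
      (fun q hq => ⟨(g1 q hq).2.2.2.2.1, (g1 q hq).2.2.2.2.2⟩) hq
  have hl := TF_abs_sum g2'
  have k1 := h1 T (TF_F F) (TF_w1 F c) hT (hH _ (TF_w1_swap F c)) hS hQ
    ((Finset.sum_le_sum fun q _ => TF_w1_norm F c q).trans hl)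
  have k2 := h1 T (TF_F F) (TF_w2 F c) hT (hH _ (TF_w2_swap F c)) hS hQ
    ((Finset.sum_le_sum fun q _ => TF_w2_norm F c q).trans hl)
  -- the critical line
  have hgl : ∀ t : ℝ, g (nC (1 / 2 + t * I)) = ∑ q ∈ F, (c q : ℂ) * TF_Pl t q := by
    intro t
    rw [g3]
    refine Finset.sum_congr rfl fun q hq => ?_
    rw [TF_Pl_eq t (g1 q hq).1 (g1 q hq).2.1, mul_assoc]
  have hW1 : ∀ t : ℝ, WW (TF_F F) (TF_w1 F c) t = (((g (nC (1 / 2 + t * I))).re : ℝ) : ℂ) := by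
    intro t
    rw [hgl, ← TF_re F c (TF_Pl t) (TF_Pl_swap t)]
    unfold WW
    refine Finset.sum_congr rfl fun q _ => ?_
    unfold TF_w1 TF_Pl
    ring
  have hW2 : ∀ t : ℝ, WW (TF_F F) (TF_w2 F c) t = (((g (nC (1 / 2 + t * I))).im : ℝ) : ℂ) := by
    intro t
    rw [hgl, ← TF_im F c (TF_Pl t) (TF_Pl_swap t)]
    unfold WW
    refine Finset.sum_congr rfl fun q _ => ?_
    unfold TF_w2 TF_Pl
    ring
  have hnorm : ∀ z : ℂ, ‖z‖ ^ 2 = ‖((z.re : ℝ) : ℂ)‖ ^ 2 + ‖((z.im : ℝ) : ℂ)‖ ^ 2 := by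
    intro z
    rw [Complex.norm_real, Complex.norm_real, Real.norm_eq_abs, Real.norm_eq_abs, sq_abs, sq_abs,
      ← Complex.normSq_eq_norm_sq, Complex.normSq_apply]
    ring
  have hsum : ∀ t : ℝ, ENNReal.ofReal (‖riemannZeta (1 / 2 + t * I)‖ ^ 2 *
      ‖g (nC (1 / 2 + t * I))‖ ^ 2) =
      ENNReal.ofReal (‖riemannZeta (1 / 2 + t * I)‖ ^ 2 * ‖WW (TF_F F) (TF_w1 F c) t‖ ^ 2) +
      ENNReal.ofReal (‖riemannZeta (1 / 2 + t * I)‖ ^ 2 * ‖WW (TF_F F) (TF_w2 F c) t‖ ^ 2) := by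
    intro t
    rw [← ENNReal.ofReal_add (by positivity) (by positivity), hW1, hW2, hnorm (g _)]
    congr 1
    ring
  have hzc : Continuous fun t : ℝ => riemannZeta (1 / 2 + t * I) := by
    rw [continuous_iff_continuousAt]
    intro t
    have hne : (1 / 2 + (t : ℂ) * I) ≠ 1 := by
      intro h
      have := congrArg Complex.re h
      simp at this
    exact ContinuousAt.comp (g := riemannZeta) (f := fun t : ℝ => (1 / 2 + (t : ℂ) * I))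
      (differentiableAt_riemannZeta hne).continuousAt
      (by fun_prop : Continuous fun t : ℝ => (1 / 2 + (t : ℂ) * I)).continuousAt
  have hWc : Continuous fun t : ℝ => WW (TF_F F) (TF_w1 F c) t := by
    unfold WW
    fun_prop
  have hmeas : Measurable fun t : ℝ =>
      ENNReal.ofReal (‖riemannZeta (1 / 2 + t * I)‖ ^ 2 * ‖WW (TF_F F) (TF_w1 F c) t‖ ^ 2) :=
    (ENNReal.continuous_ofReal.comp ((hzc.norm.pow 2).mul (hWc.norm.pow 2))).measurable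
  -- the random model
  have hgr : ∀ v : Om, g (nX 0 v) = ∑ q ∈ F, (c q : ℂ) * TF_Pr v q := by
    intro v
    rw [g3]
    refine Finset.sum_congr rfl fun q hq => ?_
    rw [TF_Pr_eq v (g1 q hq).1 (g1 q hq).2.1, mul_assoc]
  have hR1 : ∀ v : Om, ∑ q ∈ TF_F F, wa (0 / 2) (TF_w1 F c) q * XX v q.1 * conj (XX v q.2) =
      (((g (nX 0 v)).re : ℝ) : ℂ) := by
    intro v
    rw [hgr, ← TF_re F c (TF_Pr v) (TF_Pr_swap v), zero_div, TF_wa_zero]
    refine Finset.sum_congr rfl fun q _ => ?_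
    unfold TF_w1 TF_Pr
    ring
  have hR2 : ∀ v : Om, ∑ q ∈ TF_F F, wa (0 / 2) (TF_w2 F c) q * XX v q.1 * conj (XX v q.2) =
      (((g (nX 0 v)).im : ℝ) : ℂ) := by
    intro v
    rw [hgr, ← TF_im F c (TF_Pr v) (TF_Pr_swap v), zero_div, TF_wa_zero]
    refine Finset.sum_congr rfl fun q _ => ?_
    unfold TF_w2 TF_Pr
    ring
  have hZc : Continuous (Zt (Nat.primesBelow (M1 T)) (1 / 2)) :=
    continuous_Zt _ (fun p hp => Nat.prime_of_mem_primesBelow hp) (by norm_num)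
  have hBB : BB (M1 T) (TF_F F) (TF_w1 F c) 0 + BB (M1 T) (TF_F F) (TF_w2 F c) 0 =
      ∫ w, ‖Zt (Nat.primesBelow (M1 T)) (1 / 2) w‖ ^ 2 * ‖g (nX 0 w)‖ ^ 2 ∂mu := by
    unfold BB
    simp only [hR1, hR2]
    rw [zero_div, sub_zero, ← integral_add]
    · refine integral_congr_ae (Filter.Eventually.of_forall fun v => ?_)
      beta_reduce
      rw [hnorm (g (nX 0 v))]
      ring
    · apply integrable_of_continuous
      exact (hZc.norm.pow 2).mul ((Complex.continuous_ofReal.comp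
        (Complex.continuous_re.comp hgc)).norm.pow 2)
    · apply integrable_of_continuous
      exact (hZc.norm.pow 2).mul ((Complex.continuous_ofReal.comp
        (Complex.continuous_im.comp hgc)).norm.pow 2)
  rw [← hBB]
  have hp1 : 0 ≤ BB (M1 T) (TF_F F) (TF_w1 F c) 0 := by
    unfold BB
    exact integral_nonneg fun v => by positivity
  have hp2 : 0 ≤ BB (M1 T) (TF_F F) (TF_w2 F c) 0 := by
    unfold BB
    exact integral_nonneg fun v => by positivity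
  have hCp : 0 < C := by linarith
  simp only [hsum]
  rw [lintegral_add_left hmeas]
  refine (add_le_add k1 k2).trans ?_
  rw [← ENNReal.ofReal_add (by positivity) (by positivity)]
  apply ENNReal.ofReal_le_ofReal
  have : 0 ≤ C * (T * (BB (M1 T) (TF_F F) (TF_w1 F c) 0 + BB (M1 T) (TF_F F) (TF_w2 F c) 0)) := by
    positivity
  linarith

end Pool.Agent.UH
end

section

/-! TASK TW. The twisted second moment of zeta, length `T^{1/2-2κ}`, with a shift `|a| ≤ A/log T`. (Compare the proof of `twist` in UH/TF.lean.)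
`g = ∑_{q∈F} c_q χ(q.1) χ'(q.2)`. On the line: `g (nC (1/2+ti)) (nC (1/2-ti)) = WW F w t` with `w q = c_q (q.1 q.2)^{-1/2}` (`nC_apply`; `WW` has `e^{it(log q.2 - log q.1)}`). In the random model `g (nX (-a) v) (cj (nX a v)) = ∑ wa a w q XX v q.1 conj(XX v q.2)`
(`nX_apply`: `nX z v n = n^{-(1/2+z)} XX v n`), so `∫ ‖Zt (primesBelow (MM T)) (1/2)‖² ‖g ..‖² = BB (MM T) F (wa a w) 0` (unfold `BB`, `wa (0/2) w' = w'`; compare `PW_wa_zero`).
All `q.1, q.2 ≤ T^{1/2} < MM T`, so they are `MM T`-smooth (`Nat.mem_smoothNumbers_of_lt` or similar).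
`zeta_le_xi`: `∫_T^{3T} ‖ζ(1/2+a+it)‖² ‖WW‖² ≤ C² T^{1/2+|a|} ∫ ‖xi‖² ‖WW‖²`, `T^{|a|} ≤ e^A`. `planch4` with `y0 = -(1/2-κ) log T`. Write `w' = wa a w`; `T^{|a|} ≤ e^A` and `(m/n)^a ≤ e^A` for `m, n ≤ T`.
Part 1: `x0 = e^{y0} = T^{-1/2+κ}`, `D = ⌊T^{κ/8}⌋` (`≥ 1`), `(F, w')`: `half_full` with the exponent `κ/2` (`D² T^{κ/2} ≤ T^{κ/4+κ/2} ≤ T^κ = x0 T^{1/2}`; `D ≤ x0 T`).
`∑ ‖wa (-1/2) w' q‖ ≤ e^A ∑ |c_q| (q.1q.2)^{-1/2} (q.2/q.1)^{1/2} = e^A ∑ |c_q|/q.1 ≤ e^A B`, so the extra terms are `≤ C e^{8A} B²/x0 = C T^{κ/4+1/2-κ} ≤ T^{1/2-κ/2}·C`.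
Part 2: `x0 = T^{1/2-κ}`, `D = ⌊T^{1/2-2κ}⌋`, `(F.image swap, wst w')`: now `q.2` is the old `q.1 ≤ D`; `half_full` with `-a`, exponent `κ/2`: `D² T^{κ/2} ≤ T^{1-4κ+κ/2} ≤ T^{1-κ} = x0 T^{1/2}`; `∑ ‖wa (-1/2) (wst w') q‖ ≤ e^A ∑ |c_q| (q.1q.2)^{-1/2}(q.1/q.2)^{1/2} = e^A ∑ |c_q|/q.2 ≤ e^A ∑ |c_q| ≤ e^A T^{1/2-2κ} B`, extra terms
`≤ C e^{8A} T^{1-4κ+κ/4} T^{-1/2+κ} ≤ C T^{1/2-κ/2}`; `BB_wst`. Total: `C T^{1/2} (T^{1/2} BB + T^{1/2-κ/2}) ≤ C (T BB + T^{1-κ/4})`. -/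

set_option autoImplicit false

namespace Pool.Agent.UV

open Complex MeasureTheory Finset Pool.Agent.GH Pool.Agent.UH
open scoped Real ComplexConjugate

private lemma TW_log_exp {n : ℕ} (hn : n ≠ 0) (s : ℂ) : (n : ℂ) ^ s = cexp ((Real.log n : ℂ) * s) := by
  rw [Complex.cpow_def_of_ne_zero (by exact_mod_cast hn)]
  congr 2
  exact (Complex.natCast_log).symm

/-- The factor `(m n)^(-1/2)`. -/
private noncomputable def TW_r (q : ℕ × ℕ) : ℝ := ((q.1 : ℝ) * q.2) ^ (-(1 / 2) : ℝ)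

private lemma TW_r_nonneg (q : ℕ × ℕ) : 0 ≤ TW_r q := by
  unfold TW_r
  positivity

private lemma TW_r_exp {q : ℕ × ℕ} (h1 : q.1 ≠ 0) (h2 : q.2 ≠ 0) :
    (TW_r q : ℂ) = cexp ((Real.log q.1 + Real.log q.2 : ℂ) * (-(1 / 2))) := by
  have hp1 : (0 : ℝ) < q.1 := by exact_mod_cast Nat.pos_of_ne_zero h1
  have hp2 : (0 : ℝ) < q.2 := by exact_mod_cast Nat.pos_of_ne_zero h2
  unfold TW_r
  rw [Real.rpow_def_of_pos (by positivity), Real.log_mul hp1.ne' hp2.ne']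
  push_cast
  rfl

private noncomputable def TW_w (c : ℕ × ℕ → ℂ) (q : ℕ × ℕ) : ℂ := c q * (TW_r q : ℂ)

private lemma TW_line (c : ℕ × ℕ → ℂ) (t : ℝ) {q : ℕ × ℕ} (h1 : q.1 ≠ 0) (h2 : q.2 ≠ 0) :
    c q * nC (1 / 2 + t * I) q.1 * nC (1 / 2 - t * I) q.2 =
      TW_w c q * cexp ((t * (Real.log q.2 - Real.log q.1) : ℝ) * I) := by
  unfold TW_w
  rw [nC_apply _ h1, nC_apply _ h2, TW_log_exp h1, TW_log_exp h2, TW_r_exp h1 h2, mul_assoc, mul_assoc,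
    ← Complex.exp_add, ← Complex.exp_add]
  congr 2
  push_cast
  ring

private lemma TW_pow_exp (a : ℝ) {q : ℕ × ℕ} (h1 : q.1 ≠ 0) (h2 : q.2 ≠ 0) :
    ((((q.1 : ℝ) / q.2) ^ a : ℝ) : ℂ) = cexp ((Real.log q.1 - Real.log q.2 : ℂ) * a) := by
  have hp1 : (0 : ℝ) < q.1 := by exact_mod_cast Nat.pos_of_ne_zero h1
  have hp2 : (0 : ℝ) < q.2 := by exact_mod_cast Nat.pos_of_ne_zero h2
  rw [Real.rpow_def_of_pos (div_pos hp1 hp2), Real.log_div hp1.ne' hp2.ne']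
  push_cast
  rfl

private lemma TW_rand (c : ℕ × ℕ → ℂ) (a : ℝ) (v : Om) {q : ℕ × ℕ} (h1 : q.1 ≠ 0) (h2 : q.2 ≠ 0) :
    c q * nX (-a) v q.1 * cj (nX a v) q.2 = wa a (TW_w c) q * XX v q.1 * conj (XX v q.2) := by
  have h3 : cj (nX a v) q.2 = conj (nX a v q.2) := rfl
  have h4 : conj (cexp ((Real.log q.2 : ℂ) * (-(1 / 2 + a)))) = cexp ((Real.log q.2 : ℂ) * (-(1 / 2 + a))) := by
    rw [← Complex.exp_conj]
    congr 1
    simp only [map_mul, map_neg, map_add, Complex.conj_ofReal, map_div₀, map_one, map_ofNat]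
  rw [h3, nX_apply _ v h1, nX_apply _ v h2, TW_log_exp h1, TW_log_exp h2, map_mul, h4]
  unfold wa TW_w
  rw [TW_pow_exp a h1 h2, TW_r_exp h1 h2]
  have h5 : cexp ((Real.log q.1 : ℂ) * (-(1 / 2 + -a))) * cexp ((Real.log q.2 : ℂ) * (-(1 / 2 + a))) =
      cexp ((Real.log q.1 + Real.log q.2 : ℂ) * (-(1 / 2))) * cexp ((Real.log q.1 - Real.log q.2 : ℂ) * a) := by
    rw [← Complex.exp_add, ← Complex.exp_add]
    congr 1
    ring
  calc c q * (cexp ((Real.log q.1 : ℂ) * (-(1 / 2 + -a))) * XX v q.1) *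
        (cexp ((Real.log q.2 : ℂ) * (-(1 / 2 + a))) * conj (XX v q.2)) =
      c q * (cexp ((Real.log q.1 : ℂ) * (-(1 / 2 + -a))) * cexp ((Real.log q.2 : ℂ) * (-(1 / 2 + a)))) *
        XX v q.1 * conj (XX v q.2) := by ring
    _ = _ := by rw [h5]; ring

private lemma TW_ratio {T a A : ℝ} (hT : 1 < T) (_hA : 0 ≤ A) (ha : |a| ≤ A / Real.log T) {q : ℕ × ℕ}
    (h1 : q.1 ≠ 0) (h2 : q.2 ≠ 0) (h3 : (q.1 : ℝ) ≤ T) (h4 : (q.2 : ℝ) ≤ T) :
    ((q.1 : ℝ) / q.2) ^ a ≤ Real.exp A := by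
  have hp1 : (1 : ℝ) ≤ q.1 := by exact_mod_cast Nat.pos_of_ne_zero h1
  have hp2 : (1 : ℝ) ≤ q.2 := by exact_mod_cast Nat.pos_of_ne_zero h2
  have hlog : 0 < Real.log T := Real.log_pos hT
  rw [Real.rpow_def_of_pos (by positivity), Real.log_div (by positivity) (by positivity)]
  apply Real.exp_le_exp.mpr
  have l1 := Real.log_nonneg hp1
  have l2 := Real.log_nonneg hp2
  have l3 := Real.log_le_log (by positivity) h3
  have l4 := Real.log_le_log (by positivity) h4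
  have h5 : |Real.log q.1 - Real.log q.2| ≤ Real.log T := by
    rw [abs_le]
    constructor <;> linarith
  calc (Real.log q.1 - Real.log q.2) * a ≤ |(Real.log q.1 - Real.log q.2) * a| := le_abs_self _
    _ = |Real.log q.1 - Real.log q.2| * |a| := abs_mul _ _
    _ ≤ Real.log T * (A / Real.log T) := mul_le_mul h5 ha (abs_nonneg _) hlog.le
    _ = A := mul_div_cancel₀ _ hlog.ne'

private lemma TW_inv1 {q : ℕ × ℕ} (h1 : q.1 ≠ 0) (h2 : q.2 ≠ 0) :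
    TW_r q * ((q.1 : ℝ) / q.2) ^ (-1 / 2 : ℝ) = 1 / q.1 := by
  have hp1 : (0 : ℝ) < q.1 := by exact_mod_cast Nat.pos_of_ne_zero h1
  have hp2 : (0 : ℝ) < q.2 := by exact_mod_cast Nat.pos_of_ne_zero h2
  unfold TW_r
  have e1 : (-(1 / 2) : ℝ) = -1 / 2 := by norm_num
  rw [e1, ← Real.mul_rpow (by positivity) (by positivity)]
  have e2 : (q.1 : ℝ) * q.2 * (q.1 / q.2) = (q.1 : ℝ) ^ (2 : ℝ) := by
    rw [Real.rpow_two]
    field_simp
  rw [e2, ← Real.rpow_mul hp1.le]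
  norm_num
  rw [Real.rpow_neg_one]

private lemma TW_inv2 {q : ℕ × ℕ} (h1 : q.1 ≠ 0) (h2 : q.2 ≠ 0) :
    TW_r q * ((q.2 : ℝ) / q.1) ^ (-1 / 2 : ℝ) = 1 / q.2 := by
  have h := TW_inv1 (q := q.swap) h2 h1
  have e : TW_r q.swap = TW_r q := by
    unfold TW_r
    rw [Prod.fst_swap, Prod.snd_swap, mul_comm]
  rw [e, Prod.fst_swap, Prod.snd_swap] at h
  exact h

private lemma TW_norm1 {T a A : ℝ} (hT : 1 < T) (hA : 0 ≤ A) (ha : |a| ≤ A / Real.log T) (c : ℕ × ℕ → ℂ)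
    {q : ℕ × ℕ} (h1 : q.1 ≠ 0) (h2 : q.2 ≠ 0) (h3 : (q.1 : ℝ) ≤ T) (h4 : (q.2 : ℝ) ≤ T) :
    ‖wa (-1 / 2) (wa a (TW_w c)) q‖ ≤ Real.exp A * (‖c q‖ / q.1) := by
  have hr := TW_ratio hT hA ha h1 h2 h3 h4
  unfold wa TW_w
  rw [norm_mul, norm_mul, norm_mul, Complex.norm_real, Complex.norm_real, Complex.norm_real,
    Real.norm_of_nonneg (TW_r_nonneg q), Real.norm_of_nonneg (by positivity), Real.norm_of_nonneg (by positivity)]
  calc ‖c q‖ * TW_r q * ((q.1 : ℝ) / q.2) ^ a * ((q.1 : ℝ) / q.2) ^ (-1 / 2 : ℝ) =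
      ((q.1 : ℝ) / q.2) ^ a * (‖c q‖ * (TW_r q * ((q.1 : ℝ) / q.2) ^ (-1 / 2 : ℝ))) := by ring
    _ = ((q.1 : ℝ) / q.2) ^ a * (‖c q‖ / q.1) := by rw [TW_inv1 h1 h2]; ring
    _ ≤ Real.exp A * (‖c q‖ / q.1) := mul_le_mul_of_nonneg_right hr (by positivity)

private lemma TW_norm2 {T a A Q : ℝ} (hT : 1 < T) (hA : 0 ≤ A) (ha : |a| ≤ A / Real.log T) (c : ℕ × ℕ → ℂ)
    {q : ℕ × ℕ} (h1 : q.1 ≠ 0) (h2 : q.2 ≠ 0) (h3 : (q.1 : ℝ) ≤ T) (h4 : (q.2 : ℝ) ≤ T)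
    (hQ : (q.1 : ℝ) ≤ Q) :
    ‖wa (-1 / 2) (wst (wa a (TW_w c))) q.swap‖ ≤ Real.exp A * (Q * (‖c q‖ / q.1)) := by
  have hr := TW_ratio hT hA ha h1 h2 h3 h4
  have hp1 : (0 : ℝ) < q.1 := by exact_mod_cast Nat.pos_of_ne_zero h1
  have hp2 : (1 : ℝ) ≤ q.2 := by exact_mod_cast Nat.pos_of_ne_zero h2
  unfold wa wst TW_w
  rw [Prod.fst_swap, Prod.snd_swap, Prod.swap_swap, norm_mul, Complex.norm_conj, norm_mul, norm_mul,
    Complex.norm_real, Complex.norm_real, Complex.norm_real,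
    Real.norm_of_nonneg (TW_r_nonneg q), Real.norm_of_nonneg (by positivity), Real.norm_of_nonneg (by positivity)]
  calc ‖c q‖ * TW_r q * ((q.1 : ℝ) / q.2) ^ a * ((q.2 : ℝ) / q.1) ^ (-1 / 2 : ℝ) =
      ((q.1 : ℝ) / q.2) ^ a * (‖c q‖ * (TW_r q * ((q.2 : ℝ) / q.1) ^ (-1 / 2 : ℝ))) := by ring
    _ = ((q.1 : ℝ) / q.2) ^ a * (‖c q‖ / q.2) := by rw [TW_inv2 h1 h2]; ring
    _ ≤ Real.exp A * (‖c q‖ / q.2) := mul_le_mul_of_nonneg_right hr (by positivity)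
    _ ≤ Real.exp A * (Q * (‖c q‖ / q.1)) := by
        refine mul_le_mul_of_nonneg_left ?_ (Real.exp_pos _).le
        calc ‖c q‖ / (q.2 : ℝ) ≤ ‖c q‖ := div_le_self (norm_nonneg _) hp2
          _ = (q.1 : ℝ) * (‖c q‖ / q.1) := by field_simp
          _ ≤ Q * (‖c q‖ / q.1) := mul_le_mul_of_nonneg_right hQ (by positivity)

private lemma TW_smooth {T : ℝ} {n : ℕ} (hn : n ≠ 0) (h : (n : ℝ) ≤ T ^ (1 / 2 : ℝ)) :
    n ∈ Nat.smoothNumbers (MM T) := by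
  apply Nat.mem_smoothNumbers_of_lt (Nat.pos_of_ne_zero hn)
  unfold MM Mof
  exact Nat.lt_succ_of_le (Nat.le_floor h)

theorem twist4 {κ A : ℝ} (hκ : 0 < κ) (hκ1 : κ ≤ 1 / 8) (hA : 0 ≤ A) : ∃ C T0 : ℝ, 1 ≤ C ∧ 2 ≤ T0 ∧
    ∀ (T a : ℝ) (g : (ℕ →*₀ ℂ) → (ℕ →*₀ ℂ) → ℂ), T0 ≤ T → |a| ≤ A / Real.log T →
    IsP2 (T ^ (1 / 2 - 2 * κ)) (T ^ (κ / 8)) (T ^ (κ / 8)) g →
    ∫⁻ t in Set.Icc T (3 * T), ENNReal.ofReal (‖riemannZeta (1 / 2 + a + t * I)‖ ^ 2 *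
        ‖g (nC (1 / 2 + t * I)) (nC (1 / 2 - t * I))‖ ^ 2) ≤
    ENNReal.ofReal (C * (T * (∫ v, ‖Zt (Nat.primesBelow (MM T)) (1 / 2) v‖ ^ 2 *
      ‖g (nX (-a) v) (cj (nX a v))‖ ^ 2 ∂mu) + T ^ (1 - κ / 4))) := by
  obtain ⟨C1, hC1, hz⟩ := zeta_le_xi
  obtain ⟨C2, hC2, hf⟩ := half_full
  obtain ⟨T1, hT1, hf⟩ := hf (κ / 2) A (by linarith) (by linarith) hA
  refine ⟨4 * π * C1 ^ 2 * C2 * Real.exp (9 * A), max (max T1 (Real.exp (4 * A))) 2, ?_, le_max_right _ _, ?_⟩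
  · have h1 : 1 ≤ C1 ^ 2 := one_le_pow₀ hC1
    have h2 : 1 ≤ 4 * π := by linarith [Real.pi_gt_three]
    have h3 : 1 ≤ Real.exp (9 * A) := Real.one_le_exp (by linarith)
    exact one_le_mul_of_one_le_of_one_le (one_le_mul_of_one_le_of_one_le
      (one_le_mul_of_one_le_of_one_le h2 h1) hC2) h3
  intro T a g hT ha hg
  have hTT1 : T1 ≤ T := (le_max_left _ _).trans ((le_max_left _ _).trans hT)
  have hTA : Real.exp (4 * A) ≤ T := (le_max_right _ _).trans ((le_max_left _ _).trans hT)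
  have hT2 : 2 ≤ T := (le_max_right _ _).trans hT
  have hT0 : 0 < T := by linarith
  have hT1' : 1 < T := by linarith
  have hlog : 0 < Real.log T := Real.log_pos hT1'
  have hlogA : 4 * A ≤ Real.log T := by
    rw [← Real.log_exp (4 * A)]
    exact Real.log_le_log (Real.exp_pos _) hTA
  have ha4 : |a| ≤ 1 / 4 := by
    refine ha.trans ?_
    rw [div_le_iff₀ hlog]
    linarith
  have hTa : T ^ |a| ≤ Real.exp A := by
    rw [Real.rpow_def_of_pos hT0]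
    apply Real.exp_le_exp.mpr
    calc Real.log T * |a| ≤ Real.log T * (A / Real.log T) := mul_le_mul_of_nonneg_left ha hlog.le
      _ = A := mul_div_cancel₀ _ hlog.ne'
  obtain ⟨F, c, hF, hB, hgc⟩ := hg
  set w := TW_w c with hw
  have hne : ∀ q ∈ F, q.1 ≠ 0 ∧ q.2 ≠ 0 := fun q hq => ⟨(hF q hq).1, (hF q hq).2.1⟩
  have hTpow : ∀ e : ℝ, e ≤ 1 → T ^ e ≤ T := fun e he => by
    calc T ^ e ≤ T ^ (1 : ℝ) := Real.rpow_le_rpow_of_exponent_le hT1'.le he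
      _ = T := Real.rpow_one T
  have hq1 : ∀ q ∈ F, (q.1 : ℝ) ≤ T ^ (1 / 2 - 2 * κ) := fun q hq => (hF q hq).2.2.1
  have hq2 : ∀ q ∈ F, (q.2 : ℝ) ≤ T ^ (κ / 8) := fun q hq => (hF q hq).2.2.2
  have hq1T : ∀ q ∈ F, (q.1 : ℝ) ≤ T := fun q hq => (hq1 q hq).trans (hTpow _ (by linarith))
  have hq2T : ∀ q ∈ F, (q.2 : ℝ) ≤ T := fun q hq => (hq2 q hq).trans (hTpow _ (by linarith))
  have hs1 : ∀ q ∈ F, q.1 ∈ Nat.smoothNumbers (MM T) := fun q hq => TW_smooth (hne q hq).1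
    ((hq1 q hq).trans (Real.rpow_le_rpow_of_exponent_le hT1'.le (by linarith)))
  have hs2 : ∀ q ∈ F, q.2 ∈ Nat.smoothNumbers (MM T) := fun q hq => TW_smooth (hne q hq).2
    ((hq2 q hq).trans (Real.rpow_le_rpow_of_exponent_le hT1'.le (by linarith)))
  -- the polynomial on the critical line
  have hline : ∀ t : ℝ, g (nC (1 / 2 + t * I)) (nC (1 / 2 - t * I)) = WW F w t := by
    intro t
    rw [hgc]
    unfold WW
    exact Finset.sum_congr rfl fun q hq => TW_line c t (hne q hq).1 (hne q hq).2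
  -- the polynomial in the random model
  have hBB : BB (MM T) F (wa a w) 0 = ∫ v, ‖Zt (Nat.primesBelow (MM T)) (1 / 2) v‖ ^ 2 *
      ‖g (nX (-a) v) (cj (nX a v))‖ ^ 2 ∂mu := by
    unfold BB
    have e0 : (1 / 2 - 0 / 2 : ℝ) = 1 / 2 := by norm_num
    rw [e0]
    congr 1
    funext v
    congr 3
    rw [hgc]
    refine Finset.sum_congr rfl fun q hq => ?_
    rw [hw, TW_rand c a v (hne q hq).1 (hne q hq).2]
    have e1 : wa (0 / 2) (wa a (TW_w c)) q = wa a (TW_w c) q := by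
      conv_lhs => unfold wa
      rw [zero_div, Real.rpow_zero, Complex.ofReal_one, mul_one]
      rfl
    rw [e1]
  have hBB0 : 0 ≤ BB (MM T) F (wa a w) 0 := by
    rw [hBB]
    exact integral_nonneg fun v => by positivity
  rw [← hBB]
  set Y := BB (MM T) F (wa a w) 0 with hY
  -- part 1
  have hx0 : Real.log (T ^ (-(1 / 2 - κ))) = -(1 / 2 - κ) * Real.log T := Real.log_rpow hT0 _
  have hx0' : Real.log (T ^ (1 / 2 - κ)) = (1 / 2 - κ) * Real.log T := Real.log_rpow hT0 _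
  have hTinv : T⁻¹ = T ^ (-1 : ℝ) := (Real.rpow_neg_one T).symm
  have hmul : ∀ e e' : ℝ, T ^ e * T ^ e' = T ^ (e + e') := fun e e' => (Real.rpow_add hT0 e e').symm
  have hmulT : ∀ e : ℝ, T ^ e * T = T ^ (e + 1) := fun e => by
    rw [Real.rpow_add hT0, Real.rpow_one]
  have hone : ∀ e : ℝ, 0 ≤ e → (1 : ℝ) ≤ T ^ e := fun e he => Real.one_le_rpow hT1'.le he
  have hsq : ∀ e : ℝ, (T ^ e) ^ 2 = T ^ (2 * e) := fun e => by
    rw [← Real.rpow_natCast (T ^ e) 2, ← Real.rpow_mul hT0.le]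
    congr 1
    push_cast
    ring
  have hmono : ∀ e e' : ℝ, e ≤ e' → T ^ e ≤ T ^ e' := fun e e' h =>
    Real.rpow_le_rpow_of_exponent_le hT1'.le h
  have hpart1 : ∫⁻ y in Set.Ioi (-(1 / 2 - κ) * Real.log T),
      ENNReal.ofReal (Real.exp (2 * a * y) * ‖GG T F (wa a w) y‖ ^ 2) ≤
      ENNReal.ofReal (Real.exp (8 * A) * C2 * (T ^ (1 / 2 : ℝ) * Y + T ^ (1 / 2 - κ / 4))) := by
    rw [← hx0]
    have hfl : ((⌊T ^ (κ / 8)⌋₊ : ℕ) : ℝ) ≤ T ^ (κ / 8) := Nat.floor_le (by positivity)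
    have h := hf T (T ^ (-(1 / 2 - κ))) a ⌊T ^ (κ / 8)⌋₊ F (wa a w) hTT1 ha
      (by rw [hTinv]; exact hmono _ _ (by linarith)) (hTpow _ (by linarith))
      (Nat.le_floor (by rw [Nat.cast_one]; exact hone _ (by linarith)))
      (hfl.trans (hTpow _ (by linarith)))
      (by rw [hmulT]; exact hfl.trans (hmono _ _ (by linarith)))
      (by
        calc ((⌊T ^ (κ / 8)⌋₊ : ℕ) : ℝ) ^ 2 * T ^ (κ / 2) ≤ (T ^ (κ / 8)) ^ 2 * T ^ (κ / 2) := by
              gcongr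
          _ = T ^ (2 * (κ / 8) + κ / 2) := by rw [hsq, hmul]
          _ ≤ T ^ (-(1 / 2 - κ) + 1 / 2) := hmono _ _ (by linarith)
          _ = _ := by rw [hmul])
      (fun q hq => ⟨hs1 q hq, hs2 q hq⟩) (fun q hq => Nat.le_floor (hq2 q hq))
    refine h.trans (ENNReal.ofReal_le_ofReal ?_)
    have hsum : ∑ q ∈ F, ‖wa (-1 / 2) (wa a w) q‖ ≤ Real.exp A * T ^ (κ / 8) := by
      calc ∑ q ∈ F, ‖wa (-1 / 2) (wa a w) q‖ ≤ ∑ q ∈ F, Real.exp A * (‖c q‖ / q.1) :=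
            Finset.sum_le_sum fun q hq => TW_norm1 hT1' hA ha c (hne q hq).1 (hne q hq).2
              (hq1T q hq) (hq2T q hq)
        _ = Real.exp A * ∑ q ∈ F, ‖c q‖ / q.1 := by rw [Finset.mul_sum]
        _ ≤ _ := mul_le_mul_of_nonneg_left hB (Real.exp_pos _).le
    have hsum2 : (∑ q ∈ F, ‖wa (-1 / 2) (wa a w) q‖) ^ 2 ≤ Real.exp (2 * A) * T ^ (κ / 4) := by
      calc (∑ q ∈ F, ‖wa (-1 / 2) (wa a w) q‖) ^ 2 ≤ (Real.exp A * T ^ (κ / 8)) ^ 2 :=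
            pow_le_pow_left₀ (Finset.sum_nonneg fun _ _ => norm_nonneg _) hsum 2
        _ = _ := by
            rw [mul_pow, hsq, ← Real.exp_nat_mul]
            congr 2
            ring
    have hdiv : (∑ q ∈ F, ‖wa (-1 / 2) (wa a w) q‖) ^ 2 / T ^ (-(1 / 2 - κ)) ≤
        Real.exp (2 * A) * T ^ (1 / 2 - κ / 4) := by
      rw [div_le_iff₀ (by positivity), mul_assoc, hmul]
      exact hsum2.trans (mul_le_mul_of_nonneg_left (hmono _ _ (by linarith)) (Real.exp_pos _).le)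
    have hE : Real.exp (8 * A) = Real.exp (6 * A) * Real.exp (2 * A) := by
      rw [← Real.exp_add]; congr 1; ring
    have hE1 : 1 ≤ Real.exp (2 * A) := Real.one_le_exp (by linarith)
    rw [hE]
    calc Real.exp (6 * A) * (C2 * T ^ (1 / 2 : ℝ) * Y +
          C2 * (∑ q ∈ F, ‖wa (-1 / 2) (wa a w) q‖) ^ 2 / T ^ (-(1 / 2 - κ)))
        = Real.exp (6 * A) * C2 * (T ^ (1 / 2 : ℝ) * Y +
          (∑ q ∈ F, ‖wa (-1 / 2) (wa a w) q‖) ^ 2 / T ^ (-(1 / 2 - κ))) := by ring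
      _ ≤ Real.exp (6 * A) * C2 * (Real.exp (2 * A) * (T ^ (1 / 2 : ℝ) * Y) +
          Real.exp (2 * A) * T ^ (1 / 2 - κ / 4)) := by
          refine mul_le_mul_of_nonneg_left (add_le_add ?_ hdiv) (by positivity)
          exact le_mul_of_one_le_left (by positivity) hE1
      _ = _ := by ring
  have hpart2 : ∫⁻ y in Set.Ioi ((1 / 2 - κ) * Real.log T),
      ENNReal.ofReal (Real.exp (2 * (-a) * y) * ‖GG T (F.image Prod.swap) (wst (wa a w)) y‖ ^ 2) ≤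
      ENNReal.ofReal (Real.exp (8 * A) * C2 * (T ^ (1 / 2 : ℝ) * Y + T ^ (1 / 2 - κ / 4))) := by
    rw [← hx0']
    have hfl : ((⌊T ^ (1 / 2 - 2 * κ)⌋₊ : ℕ) : ℝ) ≤ T ^ (1 / 2 - 2 * κ) := Nat.floor_le (by positivity)
    have h := hf T (T ^ (1 / 2 - κ)) (-a) ⌊T ^ (1 / 2 - 2 * κ)⌋₊ (F.image Prod.swap) (wst (wa a w))
      hTT1 (by rw [abs_neg]; exact ha)
      (by rw [hTinv]; exact hmono _ _ (by linarith)) (hTpow _ (by linarith))
      (Nat.le_floor (by rw [Nat.cast_one]; exact hone _ (by linarith)))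
      (hfl.trans (hTpow _ (by linarith)))
      (by rw [hmulT]; exact hfl.trans (hmono _ _ (by linarith)))
      (by
        calc ((⌊T ^ (1 / 2 - 2 * κ)⌋₊ : ℕ) : ℝ) ^ 2 * T ^ (κ / 2) ≤
              (T ^ (1 / 2 - 2 * κ)) ^ 2 * T ^ (κ / 2) := by gcongr
          _ = T ^ (2 * (1 / 2 - 2 * κ) + κ / 2) := by rw [hsq, hmul]
          _ ≤ T ^ (1 / 2 - κ + 1 / 2) := hmono _ _ (by linarith)
          _ = _ := by rw [hmul])
      (by
        intro q hq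
        obtain ⟨p, hp, rfl⟩ := Finset.mem_image.mp hq
        exact ⟨hs2 p hp, hs1 p hp⟩)
      (by
        intro q hq
        obtain ⟨p, hp, rfl⟩ := Finset.mem_image.mp hq
        exact Nat.le_floor (hq1 p hp))
    refine h.trans (ENNReal.ofReal_le_ofReal ?_)
    rw [BB_wst]
    have hsum : ∑ q ∈ F.image Prod.swap, ‖wa (-1 / 2) (wst (wa a w)) q‖ ≤
        Real.exp A * T ^ (1 / 2 - 2 * κ + κ / 8) := by
      rw [Finset.sum_image fun x _ y _ h => Prod.swap_injective h]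
      calc ∑ q ∈ F, ‖wa (-1 / 2) (wst (wa a w)) q.swap‖ ≤
            ∑ q ∈ F, Real.exp A * (T ^ (1 / 2 - 2 * κ) * (‖c q‖ / q.1)) :=
            Finset.sum_le_sum fun q hq => TW_norm2 hT1' hA ha c (hne q hq).1 (hne q hq).2
              (hq1T q hq) (hq2T q hq) (hq1 q hq)
        _ = Real.exp A * (T ^ (1 / 2 - 2 * κ) * ∑ q ∈ F, ‖c q‖ / q.1) := by
            rw [Finset.mul_sum, Finset.mul_sum]
        _ ≤ Real.exp A * (T ^ (1 / 2 - 2 * κ) * T ^ (κ / 8)) := by gcongr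
        _ = _ := by rw [hmul]
    have hsum2 : (∑ q ∈ F.image Prod.swap, ‖wa (-1 / 2) (wst (wa a w)) q‖) ^ 2 ≤
        Real.exp (2 * A) * T ^ (2 * (1 / 2 - 2 * κ + κ / 8)) := by
      calc (∑ q ∈ F.image Prod.swap, ‖wa (-1 / 2) (wst (wa a w)) q‖) ^ 2 ≤
            (Real.exp A * T ^ (1 / 2 - 2 * κ + κ / 8)) ^ 2 :=
            pow_le_pow_left₀ (Finset.sum_nonneg fun _ _ => norm_nonneg _) hsum 2
        _ = _ := by
            rw [mul_pow, hsq, ← Real.exp_nat_mul]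
            congr 2
    have hdiv : (∑ q ∈ F.image Prod.swap, ‖wa (-1 / 2) (wst (wa a w)) q‖) ^ 2 / T ^ (1 / 2 - κ) ≤
        Real.exp (2 * A) * T ^ (1 / 2 - κ / 4) := by
      rw [div_le_iff₀ (by positivity), mul_assoc, hmul]
      exact hsum2.trans (mul_le_mul_of_nonneg_left (hmono _ _ (by linarith)) (Real.exp_pos _).le)
    have hE : Real.exp (8 * A) = Real.exp (6 * A) * Real.exp (2 * A) := by
      rw [← Real.exp_add]; congr 1; ring
    have hE1 : 1 ≤ Real.exp (2 * A) := Real.one_le_exp (by linarith)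
    rw [hE]
    calc Real.exp (6 * A) * (C2 * T ^ (1 / 2 : ℝ) * Y +
          C2 * (∑ q ∈ F.image Prod.swap, ‖wa (-1 / 2) (wst (wa a w)) q‖) ^ 2 / T ^ (1 / 2 - κ))
        = Real.exp (6 * A) * C2 * (T ^ (1 / 2 : ℝ) * Y +
          (∑ q ∈ F.image Prod.swap, ‖wa (-1 / 2) (wst (wa a w)) q‖) ^ 2 / T ^ (1 / 2 - κ)) := by ring
      _ ≤ Real.exp (6 * A) * C2 * (Real.exp (2 * A) * (T ^ (1 / 2 : ℝ) * Y) +
          Real.exp (2 * A) * T ^ (1 / 2 - κ / 4)) := by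
          refine mul_le_mul_of_nonneg_left (add_le_add ?_ hdiv) (by positivity)
          exact le_mul_of_one_le_left (by positivity) hE1
      _ = _ := by ring
  have hpl := planch4 (T := T) hT1'.le (a := a) (by linarith) F w hne (-(1 / 2 - κ) * Real.log T)
  have e3 : -(-(1 / 2 - κ) * Real.log T) = (1 / 2 - κ) * Real.log T := by ring
  rw [e3] at hpl
  have e4 : ∀ y : ℝ, -(2 * a * y) = 2 * (-a) * y := fun y => by ring
  simp only [e4] at hpl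
  set Z := Real.exp (8 * A) * C2 * (T ^ (1 / 2 : ℝ) * Y + T ^ (1 / 2 - κ / 4)) with hZ
  have hZ0 : 0 ≤ Z := by positivity
  calc ∫⁻ t in Set.Icc T (3 * T), ENNReal.ofReal (‖riemannZeta (1 / 2 + a + t * I)‖ ^ 2 *
        ‖g (nC (1 / 2 + t * I)) (nC (1 / 2 - t * I))‖ ^ 2)
      ≤ ∫⁻ t in Set.Icc T (3 * T), ENNReal.ofReal ((C1 * T ^ (1 / 4 + |a| / 2)) ^ 2) *
          ENNReal.ofReal (‖xi T a t‖ ^ 2 * ‖WW F w t‖ ^ 2) := by
        refine setLIntegral_mono' measurableSet_Icc fun t h => ?_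
        rw [← ENNReal.ofReal_mul (by positivity), hline]
        apply ENNReal.ofReal_le_ofReal
        have h7 := hz T a t hT2 ha4 h.1 h.2
        calc ‖riemannZeta (1 / 2 + a + t * I)‖ ^ 2 * ‖WW F w t‖ ^ 2
            ≤ (C1 * T ^ (1 / 4 + |a| / 2) * ‖xi T a t‖) ^ 2 * ‖WW F w t‖ ^ 2 := by
              refine mul_le_mul_of_nonneg_right ?_ (by positivity)
              exact pow_le_pow_left₀ (norm_nonneg _) h7 2
          _ = _ := by ring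
    _ ≤ ∫⁻ t : ℝ, ENNReal.ofReal ((C1 * T ^ (1 / 4 + |a| / 2)) ^ 2) *
          ENNReal.ofReal (‖xi T a t‖ ^ 2 * ‖WW F w t‖ ^ 2) :=
        setLIntegral_le_lintegral _ _
    _ = ENNReal.ofReal ((C1 * T ^ (1 / 4 + |a| / 2)) ^ 2) * ∫⁻ t : ℝ,
          ENNReal.ofReal (‖xi T a t‖ ^ 2 * ‖WW F w t‖ ^ 2) := by
        rw [lintegral_const_mul' _ _ ENNReal.ofReal_ne_top]
    _ ≤ ENNReal.ofReal ((C1 * T ^ (1 / 4 + |a| / 2)) ^ 2) * (ENNReal.ofReal (2 * π) *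
          (ENNReal.ofReal Z + ENNReal.ofReal Z)) := by
        refine mul_le_mul_right (hpl.trans ?_) _
        exact mul_le_mul_right (add_le_add hpart1 hpart2) _
    _ = ENNReal.ofReal ((C1 * T ^ (1 / 4 + |a| / 2)) ^ 2 * (2 * π * (Z + Z))) := by
        rw [← ENNReal.ofReal_add hZ0 hZ0, ← ENNReal.ofReal_mul (by positivity),
          ← ENNReal.ofReal_mul (by positivity)]
    _ ≤ _ := by
        apply ENNReal.ofReal_le_ofReal
        have hs : (C1 * T ^ (1 / 4 + |a| / 2)) ^ 2 = C1 ^ 2 * (T ^ (1 / 2 : ℝ) * T ^ |a|) := by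
          rw [mul_pow, hsq, hmul]
          congr 2
          ring
        have hE : Real.exp (9 * A) = Real.exp A * Real.exp (8 * A) := by
          rw [← Real.exp_add]; congr 1; ring
        have hTT : T ^ (1 / 2 : ℝ) * T ^ (1 / 2 : ℝ) = T := by
          rw [hmul]; norm_num
        rw [hs, hE]
        calc C1 ^ 2 * (T ^ (1 / 2 : ℝ) * T ^ |a|) * (2 * π * (Z + Z))
            ≤ C1 ^ 2 * (T ^ (1 / 2 : ℝ) * Real.exp A) * (2 * π * (Z + Z)) := by gcongr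
          _ = 4 * π * C1 ^ 2 * C2 * (Real.exp A * Real.exp (8 * A)) *
              ((T ^ (1 / 2 : ℝ) * T ^ (1 / 2 : ℝ)) * Y + T ^ (1 / 2 : ℝ) * T ^ (1 / 2 - κ / 4)) := by
              rw [hZ]; ring
          _ = _ := by
              have e5 : (1 / 2 : ℝ) + (1 / 2 - κ / 4) = 1 - κ / 4 := by ring
              rw [hTT, hmul, e5]

end Pool.Agent.UV
end
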