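import Mathlib
import Pool.Agent.Lib.MP_69b2e4_nt.Mg.G002
import Pool.Agent.Lib.MP_69b2e4_nt.UV.Defs

section

/-! TASK Z4. Summation over the heights. Let `X = 5 T0/2`. For `T ≥ 2` and `Z` as in the conclusion, `L = log T`:
zeros with `Im ρ ≤ X`: they lie in the finite set of all zeros with `0 < Re < 1`, `0 < Im ≤ X` (finite: see `zeros_finite` in Pool/Agent/Results/MP_69b2e4_nt/NegativeMoments.lean: `IsCompact.inter_riemannZetaZeros_finite`), so their sum is at most a constant `K0 ≤ K0/(2 (log 2)^κ) · T L^κ`.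
The others (`T > X`): for `j ≥ 0` let `T_j = (2/5) T/2^j`, so `[5T_j/4, 5T_j/2] = [T/2^{j+1}, T/2^j]`. Each `ρ ∈ Z` with `Im ρ > X` lies in exactly one range `T/2^{j+1} < Im ρ ≤ T/2^j` (`j = ⌊logb 2 (T/Im ρ)⌋₊`), and then `T/2^j ≥ Im ρ > X`, i.e. `T_j ≥ T0`. The hypothesis gives
`≤ C T_j (log T_j)^κ ≤ C 2^{-j} T L^κ` (`1 ≤ T_j ≤ T`; `T0 ≥ e`). Sum over `j`: `≤ 2 C T L^κ` (`Finset.sum_fiberwise_of_maps_to` into `range (n+1)`, geometric sum). -/

set_option autoImplicit false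

namespace Pool.Agent.UH

open Complex MeasureTheory Finset
open scoped Real ComplexConjugate

theorem heights {g : ℂ → ℝ} (hg : ∀ ρ, 0 ≤ g ρ) {κ C T0 : ℝ} (hκ : 0 ≤ κ) (hC : 0 ≤ C)
    (hT0 : Real.exp 1 ≤ T0) {P : ℂ → Prop}
    (hb : ∀ (T : ℝ) (Z : Finset ℂ), T0 ≤ T →
      (∀ ρ ∈ Z, P ρ ∧ riemannZeta ρ = 0 ∧ 0 < ρ.re ∧ ρ.re < 1 ∧ 5 * T / 4 ≤ ρ.im ∧ ρ.im ≤ 5 * T / 2) →
      ∑ ρ ∈ Z, g ρ ≤ C * (T * Real.log T ^ κ)) :
    ∃ C' : ℝ, 1 ≤ C' ∧ ∀ (T : ℝ) (Z : Finset ℂ), 2 ≤ T →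
      (∀ ρ ∈ Z, P ρ ∧ riemannZeta ρ = 0 ∧ 0 < ρ.re ∧ ρ.re < 1 ∧ 0 < ρ.im ∧ ρ.im ≤ T) →
      ∑ ρ ∈ Z, g ρ ≤ C' * (T * Real.log T ^ κ) := by
  classical
  have he : (2 : ℝ) < Real.exp 1 := by
    have := Real.exp_one_gt_d9
    linarith
  set X : ℝ := 5 * T0 / 2 with hX
  have hfin : {ρ : ℂ | riemannZeta ρ = 0 ∧ 0 < ρ.re ∧ ρ.re < 1 ∧ 0 < ρ.im ∧ ρ.im ≤ X}.Finite := by
    have hc : IsCompact (Set.Icc (0 : ℝ) 1 ×ℂ Set.Icc (0 : ℝ) X) :=
      isCompact_Icc.reProdIm isCompact_Icc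
    refine hc.inter_riemannZetaZeros_finite.subset ?_
    rintro ρ ⟨h0, h1, h2, h3, h4⟩
    exact ⟨⟨⟨h1.le, h2.le⟩, ⟨h3.le, h4⟩⟩, h0⟩
  set K0 : ℝ := ∑ ρ ∈ hfin.toFinset, g ρ with hK0
  have hK00 : 0 ≤ K0 := Finset.sum_nonneg fun ρ _ => hg ρ
  have hl2 : 0 < Real.log 2 := Real.log_pos (by norm_num)
  have hl2k : 0 < Real.log 2 ^ κ := Real.rpow_pos_of_pos hl2 κ
  refine ⟨1 + K0 / (2 * Real.log 2 ^ κ) + 2 * C, ?_, ?_⟩
  · have : 0 ≤ K0 / (2 * Real.log 2 ^ κ) := by positivity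
    linarith
  intro T Z hT hZ
  have hT0' : 0 < T := by linarith
  have hL : Real.log 2 ≤ Real.log T := Real.log_le_log (by norm_num) hT
  have hLk : Real.log 2 ^ κ ≤ Real.log T ^ κ := Real.rpow_le_rpow hl2.le hL hκ
  have hLk0 : 0 < Real.log T ^ κ := hl2k.trans_le hLk
  have hTL : 0 < T * Real.log T ^ κ := by positivity
  set Z1 := Z.filter fun ρ => ρ.im ≤ X with hZ1
  set Z2 := Z.filter fun ρ => ¬ ρ.im ≤ X with hZ2
  have hsplit : ∑ ρ ∈ Z, g ρ = ∑ ρ ∈ Z1, g ρ + ∑ ρ ∈ Z2, g ρ :=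
    (Finset.sum_filter_add_sum_filter_not Z (fun ρ => ρ.im ≤ X) g).symm
  have h1 : ∑ ρ ∈ Z1, g ρ ≤ K0 / (2 * Real.log 2 ^ κ) * (T * Real.log T ^ κ) := by
    have e1 : ∑ ρ ∈ Z1, g ρ ≤ K0 := by
      refine Finset.sum_le_sum_of_subset_of_nonneg ?_ fun ρ _ _ => hg ρ
      intro ρ hρ
      rw [hZ1, Finset.mem_filter] at hρ
      rw [Set.Finite.mem_toFinset]
      obtain ⟨-, a1, a2, a3, a4, -⟩ := hZ ρ hρ.1
      exact ⟨a1, a2, a3, a4, hρ.2⟩
    have e2 : K0 ≤ K0 / (2 * Real.log 2 ^ κ) * (T * Real.log T ^ κ) := by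
      have e3 : 2 * Real.log 2 ^ κ ≤ T * Real.log T ^ κ :=
        mul_le_mul hT hLk hl2k.le hT0'.le
      calc K0 = K0 / (2 * Real.log 2 ^ κ) * (2 * Real.log 2 ^ κ) := by
            field_simp
        _ ≤ _ := mul_le_mul_of_nonneg_left e3 (by positivity)
    exact e1.trans e2
  have hex : ∀ ρ : ℂ, ∃ n : ℕ, ρ ∈ Z2 → (2 : ℝ) ^ n ≤ T / ρ.im ∧ T / ρ.im < 2 ^ (n + 1) := by
    intro ρ
    by_cases hρ : ρ ∈ Z2
    · have hρ' := hρ
      rw [hZ2, Finset.mem_filter] at hρ'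
      obtain ⟨-, -, -, -, a4, a5⟩ := hZ ρ hρ'.1
      obtain ⟨n, hn1, hn2⟩ := exists_nat_pow_near (x := T / ρ.im) (y := 2)
        ((one_le_div a4).2 a5) (by norm_num)
      exact ⟨n, fun _ => ⟨hn1, hn2⟩⟩
    · exact ⟨0, fun h => absurd h hρ⟩
  choose j hj using hex
  have h2 : ∑ ρ ∈ Z2, g ρ ≤ 2 * C * (T * Real.log T ^ κ) := by
    rw [← Finset.sum_fiberwise_of_maps_to (s := Z2) (t := Z2.image j) (g := j)
      (fun ρ hρ => Finset.mem_image_of_mem j hρ) g]
    have hfib : ∀ n ∈ Z2.image j, ∑ ρ ∈ Z2.filter (fun ρ => j ρ = n), g ρ ≤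
        (1 / 2 : ℝ) ^ n * (C * (T * Real.log T ^ κ)) := by
      intro n hn
      rw [Finset.mem_image] at hn
      obtain ⟨ρ₀, hρ₀, hjn⟩ := hn
      have h2n : (0 : ℝ) < 2 ^ n := by positivity
      set Tj : ℝ := 2 / 5 * (T / 2 ^ n) with hTj
      have hρ₀' := hρ₀
      rw [hZ2, Finset.mem_filter] at hρ₀'
      obtain ⟨-, -, -, -, b4, b5⟩ := hZ ρ₀ hρ₀'.1
      have hlt : X < ρ₀.im := not_le.1 hρ₀'.2
      have e1 : ρ₀.im ≤ T / 2 ^ n := by
        have := (hj ρ₀ hρ₀).1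
        rw [hjn, le_div_iff₀ b4] at this
        rw [le_div_iff₀ h2n]
        linarith
      have hTjT0 : T0 ≤ Tj := by
        rw [hTj]
        have : X < T / 2 ^ n := hlt.trans_le e1
        rw [hX] at this
        linarith
      have e2 := hb Tj (Z2.filter fun ρ => j ρ = n) hTjT0 (by
        intro ρ hρ
        rw [Finset.mem_filter] at hρ
        have hρ2 := hρ.1
        rw [hZ2, Finset.mem_filter] at hρ2
        obtain ⟨a0, a1, a2, a3, a4, a5⟩ := hZ ρ hρ2.1
        have c1 := hj ρ hρ.1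
        rw [hρ.2] at c1
        refine ⟨a0, a1, a2, a3, ?_, ?_⟩
        · have c2 := c1.2
          rw [div_lt_iff₀ a4] at c2
          have c3 : T / 2 ^ n < 2 * ρ.im := by
            rw [div_lt_iff₀ h2n]
            calc T < 2 ^ (n + 1) * ρ.im := c2
              _ = 2 * ρ.im * 2 ^ n := by ring
          rw [hTj]
          linarith
        · have c2 := c1.1
          rw [le_div_iff₀ a4] at c2
          have c3 : ρ.im ≤ T / 2 ^ n := by
            rw [le_div_iff₀ h2n]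
            linarith
          rw [hTj]
          linarith)
      have e3 : Tj ≤ T / 2 ^ n := by
        have : 0 < T / 2 ^ n := by positivity
        rw [hTj]
        linarith
      have e4 : T / 2 ^ n ≤ T := div_le_self hT0'.le (one_le_pow₀ (by norm_num))
      have hTj1 : 1 ≤ Tj := by linarith
      have e5 : Real.log Tj ^ κ ≤ Real.log T ^ κ :=
        Real.rpow_le_rpow (Real.log_nonneg hTj1) (Real.log_le_log (by linarith) (e3.trans e4)) hκ
      have e6 : Tj * Real.log Tj ^ κ ≤ T / 2 ^ n * Real.log T ^ κ :=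
        mul_le_mul e3 e5 (Real.rpow_nonneg (Real.log_nonneg hTj1) _) (by positivity)
      calc ∑ ρ ∈ Z2.filter (fun ρ => j ρ = n), g ρ ≤ C * (Tj * Real.log Tj ^ κ) := e2
        _ ≤ C * (T / 2 ^ n * Real.log T ^ κ) := mul_le_mul_of_nonneg_left e6 hC
        _ = (1 / 2 : ℝ) ^ n * (C * (T * Real.log T ^ κ)) := by
          rw [one_div, inv_pow]
          field_simp
    calc ∑ n ∈ Z2.image j, ∑ ρ ∈ Z2.filter (fun ρ => j ρ = n), g ρ ≤
          ∑ n ∈ Z2.image j, (1 / 2 : ℝ) ^ n * (C * (T * Real.log T ^ κ)) := Finset.sum_le_sum hfib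
      _ = (∑ n ∈ Z2.image j, (1 / 2 : ℝ) ^ n) * (C * (T * Real.log T ^ κ)) := by
          rw [Finset.sum_mul]
      _ ≤ 2 * (C * (T * Real.log T ^ κ)) := by
          apply mul_le_mul_of_nonneg_right _ (by positivity)
          have := Summable.sum_le_tsum (Z2.image j) (fun n _ => by positivity)
            summable_geometric_two
          rwa [tsum_geometric_two] at this
      _ = 2 * C * (T * Real.log T ^ κ) := by ring
  rw [hsplit]
  nlinarith

end Pool.Agent.UH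
end

section

/-! TASK B4. Convexity of the mean values of products (Gabriel). COPY UH/B4.lean (there one function `‖Φ‖^q`); write `v(s) = ‖f s‖^p ‖g s‖^q ‖k s‖^r`, `0 ≤ v(s) ≤ K^{p+q+r} e^{-(p+q+r)|t|}`, continuous, `n(σ) = ∫ v(σ+it) dt`. For real `c` the function `e^{cσ} v(s) = ‖f s e^{cs/p}‖^p ‖g s‖^q ‖k s‖^r` has the
sub-mean value property by `submean3`, so `n_c(σ) = e^{cσ} n(σ)` satisfies `n_c(σ) ≤ (2π)^{-1} ∫ n_c(σ + ρ cos θ) dθ`; maximum principle and the choice of `c` (`e^{c(B-A)} = a0/b0`) as in UH/B4. -/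

set_option autoImplicit false

namespace Pool.Agent.UV

open Complex MeasureTheory Finset
open scoped Real ComplexConjugate

private theorem B4_int {q : ℝ} (hq : 0 < q) : Integrable (fun t : ℝ => Real.exp (-(q * |t|))) := by
  have h1 : Integrable (fun t : ℝ => (1 + 2 / q ^ 2) * (1 + t ^ 2)⁻¹) :=
    integrable_inv_one_add_sq.const_mul _
  refine h1.mono' (by fun_prop) (Filter.Eventually.of_forall fun t => ?_)
  rw [Real.norm_of_nonneg (Real.exp_pos _).le, Real.exp_neg]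
  have h2 : 0 ≤ q * |t| := by positivity
  have h3 := Real.quadratic_le_exp_of_nonneg h2
  have h4 : (0 : ℝ) < 1 + t ^ 2 := by positivity
  rw [← div_eq_mul_inv, inv_eq_one_div, div_le_div_iff₀ (Real.exp_pos _) h4, one_mul]
  have h5 : (q * |t|) ^ 2 = q ^ 2 * t ^ 2 := by rw [mul_pow, sq_abs]
  have h6 : 1 + q ^ 2 * t ^ 2 / 2 ≤ Real.exp (q * |t|) := by
    rw [← h5]
    linarith
  have h7 : 1 ≤ Real.exp (q * |t|) := by
    have : 0 ≤ q ^ 2 * t ^ 2 / 2 := by positivity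
    linarith
  have h8 : t ^ 2 ≤ 2 / q ^ 2 * Real.exp (q * |t|) := by
    have h9 : 2 / q ^ 2 * (q ^ 2 * t ^ 2 / 2) = t ^ 2 := by
      field_simp
    calc t ^ 2 = 2 / q ^ 2 * (q ^ 2 * t ^ 2 / 2) := h9.symm
      _ ≤ 2 / q ^ 2 * Real.exp (q * |t|) :=
        mul_le_mul_of_nonneg_left (by linarith) (by positivity)
  linarith

/-- the properties of the function `v` which are used -/
private structure B4_H (v : ℂ → ℝ) (A B M Q : ℝ) : Prop where
  q : 0 < Q
  m : 0 ≤ M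
  pos : ∀ s, 0 ≤ v s
  cont : ∀ s : ℂ, A ≤ s.re → s.re ≤ B → ContinuousAt v s
  bd : ∀ s : ℂ, A ≤ s.re → s.re ≤ B → v s ≤ M * Real.exp (-(Q * |s.im|))
  mean : ∀ (c : ℂ) (R : ℝ), 0 < R → (∀ z ∈ Metric.closedBall c R, A ≤ z.re ∧ z.re ≤ B) →
    v c ≤ Real.circleAverage v c R

private theorem B4_bd {v : ℂ → ℝ} {A B M Q : ℝ} (H : B4_H v A B M Q)
    {σ t : ℝ} (h1 : A ≤ σ) (h2 : σ ≤ B) :
    v (σ + t * I) ≤ M * Real.exp (-(Q * |t|)) := by
  have hre : ((σ : ℂ) + t * I).re = σ := by simp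
  have him : ((σ : ℂ) + t * I).im = t := by simp
  have h3 := H.bd (σ + t * I) (by rw [hre]; exact h1) (by rw [hre]; exact h2)
  rw [him] at h3
  exact h3

private theorem B4_cont {v : ℂ → ℝ} {A B M Q : ℝ} (H : B4_H v A B M Q)
    {σ t : ℝ} (h1 : A ≤ σ) (h2 : σ ≤ B) :
    ContinuousAt v (σ + t * I) := by
  have hre : ((σ : ℂ) + t * I).re = σ := by simp
  exact H.cont (σ + t * I) (by rw [hre]; exact h1) (by rw [hre]; exact h2)

private theorem B4_intv {v : ℂ → ℝ} {A B M Q : ℝ} (H : B4_H v A B M Q) {s : ℝ} (hs1 : A ≤ s)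
    (hs2 : s ≤ B) : Integrable (fun t : ℝ => v (s + t * I)) := by
  refine ((B4_int H.q).const_mul M).mono' ?_ (Filter.Eventually.of_forall fun t => ?_)
  · apply Continuous.aestronglyMeasurable
    rw [continuous_iff_continuousAt]
    intro t
    have h4 := B4_cont H (t := t) hs1 hs2
    exact ContinuousAt.comp (f := fun t : ℝ => ((s : ℂ) + t * I))
      (g := v) h4 (by apply Continuous.continuousAt; fun_prop)
  · rw [Real.norm_of_nonneg (H.pos _)]
    exact B4_bd H hs1 hs2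

private theorem B4_step {v : ℂ → ℝ} {A B M Q : ℝ} (H : B4_H v A B M Q)
    {σ r : ℝ} (hr : 0 < r) (h1 : A ≤ σ - r) (h2 : σ + r ≤ B) :
    ∫ t : ℝ, v (σ + t * I) ≤
      (2 * π)⁻¹ * ∫ θ in (0 : ℝ)..(2 * π), ∫ t : ℝ, v (((σ + r * Real.cos θ : ℝ) : ℂ) + t * I) := by
  have hstr : ∀ θ : ℝ, A ≤ σ + r * Real.cos θ ∧ σ + r * Real.cos θ ≤ B := by
    intro θ
    have h3 := Real.neg_one_le_cos θ
    have h4 := Real.cos_le_one θ
    constructor <;> nlinarith
  have hpi : (0 : ℝ) < 2 * π := by positivity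
  set G : ℝ → ℝ → ℝ := fun t θ =>
    v (((σ + r * Real.cos θ : ℝ) : ℂ) + ((t + r * Real.sin θ : ℝ) : ℂ) * I) with hG
  have hGc : Continuous (fun x : ℝ × ℝ => G x.1 x.2) := by
    rw [continuous_iff_continuousAt]
    rintro ⟨t, θ⟩
    have h3 := B4_cont H (t := t + r * Real.sin θ) (hstr θ).1 (hstr θ).2
    have h4 : ContinuousAt (fun x : ℝ × ℝ => (((σ + r * Real.cos x.2 : ℝ) : ℂ) +
        ((x.1 + r * Real.sin x.2 : ℝ) : ℂ) * I)) (t, θ) := by
      apply Continuous.continuousAt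
      fun_prop
    exact ContinuousAt.comp (f := fun x : ℝ × ℝ => (((σ + r * Real.cos x.2 : ℝ) : ℂ) +
        ((x.1 + r * Real.sin x.2 : ℝ) : ℂ) * I)) (g := v) h3 h4
  have hGb : ∀ t θ, ‖G t θ‖ ≤ M * Real.exp (Q * r) * Real.exp (-(Q * |t|)) := by
    intro t θ
    rw [Real.norm_of_nonneg (H.pos _)]
    refine (B4_bd H (t := t + r * Real.sin θ) (hstr θ).1 (hstr θ).2).trans ?_
    rw [mul_assoc, ← Real.exp_add]
    refine mul_le_mul_of_nonneg_left (Real.exp_le_exp.2 ?_) H.m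
    have h3 : |t| ≤ |t + r * Real.sin θ| + r := by
      have h4 : |t| ≤ |t + r * Real.sin θ| + |r * Real.sin θ| := by
        have := abs_sub (t + r * Real.sin θ) (r * Real.sin θ)
        simpa using this
      have h5 : |r * Real.sin θ| ≤ r := by
        rw [abs_mul, abs_of_pos hr]
        have := Real.abs_sin_le_one θ
        nlinarith
      linarith
    have hq := H.q
    nlinarith
  have hGi : Integrable (fun x : ℝ × ℝ => G x.1 x.2)
      ((volume : Measure ℝ).prod (volume.restrict (Set.Ioc (0 : ℝ) (2 * π)))) := by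
    have h3 : Integrable (fun x : ℝ × ℝ => (M * Real.exp (Q * r) * Real.exp (-(Q * |x.1|))) * 1)
        ((volume : Measure ℝ).prod (volume.restrict (Set.Ioc (0 : ℝ) (2 * π)))) :=
      Integrable.mul_prod (f := fun t : ℝ => M * Real.exp (Q * r) * Real.exp (-(Q * |t|)))
        (g := fun _ : ℝ => (1 : ℝ)) ((B4_int H.q).const_mul _) (integrable_const 1)
    refine h3.mono' hGc.aestronglyMeasurable (Filter.Eventually.of_forall fun x => ?_)
    rw [mul_one]
    exact hGb x.1 x.2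
  have hpt : ∀ t : ℝ, v (σ + t * I) ≤
      (2 * π)⁻¹ * ∫ θ in Set.Ioc (0 : ℝ) (2 * π), G t θ := by
    intro t
    have h3 := H.mean (σ + t * I) r hr (by
      intro z hz
      have h4 : |(z - (σ + t * I)).re| ≤ r := (Complex.abs_re_le_norm _).trans
        (by rw [Metric.mem_closedBall, dist_eq_norm] at hz; exact hz)
      have h5 : (z - (σ + t * I)).re = z.re - σ := by simp
      rw [h5, abs_le] at h4
      exact ⟨by linarith [h4.1], by linarith [h4.2]⟩)
    rw [Real.circleAverage_def, intervalIntegral.integral_of_le hpi.le, smul_eq_mul] at h3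
    refine h3.trans (le_of_eq ?_)
    congr 1
    refine integral_congr_ae (Filter.Eventually.of_forall fun θ => ?_)
    show v (circleMap (σ + t * I) r θ) = G t θ
    have h6 : circleMap (σ + t * I) r θ = ((σ + r * Real.cos θ : ℝ) : ℂ) +
        ((t + r * Real.sin θ : ℝ) : ℂ) * I := by
      rw [circleMap, Complex.exp_mul_I]
      push_cast
      ring
    rw [h6]
  have hi1 : Integrable (fun t : ℝ => v (σ + t * I)) := by
    have h3 := hstr (π / 2)
    rw [Real.cos_pi_div_two, mul_zero, add_zero] at h3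
    exact B4_intv H h3.1 h3.2
  calc ∫ t : ℝ, v (σ + t * I)
      ≤ ∫ t : ℝ, (2 * π)⁻¹ * ∫ θ in Set.Ioc (0 : ℝ) (2 * π), G t θ :=
        integral_mono hi1 (hGi.integral_prod_left.const_mul _) hpt
    _ = (2 * π)⁻¹ * ∫ t : ℝ, ∫ θ in Set.Ioc (0 : ℝ) (2 * π), G t θ := by
        rw [integral_const_mul]
    _ = (2 * π)⁻¹ * ∫ θ in Set.Ioc (0 : ℝ) (2 * π), ∫ t : ℝ, G t θ := by
        rw [integral_integral_swap hGi]
    _ = _ := by
        rw [intervalIntegral.integral_of_le hpi.le]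
        congr 1
        refine integral_congr_ae (Filter.Eventually.of_forall fun θ => ?_)
        show ∫ t : ℝ, G t θ = ∫ t : ℝ, v (((σ + r * Real.cos θ : ℝ) : ℂ) + t * I)
        exact integral_add_right_eq_self
          (fun t : ℝ => v (((σ + r * Real.cos θ : ℝ) : ℂ) + (t : ℂ) * I)) (r * Real.sin θ)

private theorem B4_contn {v : ℂ → ℝ} {A B M Q : ℝ} (H : B4_H v A B M Q) :
    ContinuousOn (fun σ : ℝ => ∫ t : ℝ, v (σ + t * I)) (Set.Icc A B) := by
  refine continuousOn_of_dominated (bound := fun t => M * Real.exp (-(Q * |t|))) ?_ ?_ ?_ ?_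
  · intro σ hσ
    apply Continuous.aestronglyMeasurable
    rw [continuous_iff_continuousAt]
    intro t
    have h4 := B4_cont H (t := t) hσ.1 hσ.2
    exact ContinuousAt.comp (f := fun t : ℝ => ((σ : ℂ) + t * I))
      (g := v) h4 (by apply Continuous.continuousAt; fun_prop)
  · intro σ hσ
    refine Filter.Eventually.of_forall fun t => ?_
    rw [Real.norm_of_nonneg (H.pos _)]
    exact B4_bd H hσ.1 hσ.2
  · exact (B4_int H.q).const_mul _
  · refine Filter.Eventually.of_forall fun t => ?_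
    intro σ hσ
    have h4 := B4_cont H (t := t) hσ.1 hσ.2
    exact (ContinuousAt.comp (f := fun σ : ℝ => ((σ : ℂ) + t * I))
      (g := v) h4
      (by apply Continuous.continuousAt; fun_prop)).continuousWithinAt

private theorem B4_avg (a r : ℝ) :
    ∫ θ in (0 : ℝ)..(2 * π), (a + r * Real.cos θ) ^ 2 = 2 * π * a ^ 2 + π * r ^ 2 := by
  have h1 : ∀ θ : ℝ, (a + r * Real.cos θ) ^ 2 =
      a ^ 2 + 2 * a * r * Real.cos θ + r ^ 2 * Real.cos θ ^ 2 := fun θ => by ring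
  simp_rw [h1]
  rw [intervalIntegral.integral_add (by apply Continuous.intervalIntegrable; fun_prop)
      (by apply Continuous.intervalIntegrable; fun_prop),
    intervalIntegral.integral_add (by apply Continuous.intervalIntegrable; fun_prop)
      (by apply Continuous.intervalIntegrable; fun_prop),
    intervalIntegral.integral_const_mul, intervalIntegral.integral_const_mul, integral_cos,
    integral_cos_sq]
  simp [Real.sin_two_pi]
  ring

private theorem B4_max {v : ℂ → ℝ} {A B M Q : ℝ} (H : B4_H v A B M Q)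
    {σ : ℝ} (h1 : A ≤ σ) (h2 : σ ≤ B) :
    ∫ t : ℝ, v (σ + t * I) ≤
      max (∫ t : ℝ, v (A + t * I)) (∫ t : ℝ, v (B + t * I)) := by
  set n : ℝ → ℝ := fun σ => ∫ t : ℝ, v (σ + t * I) with hn
  have hnc : ContinuousOn n (Set.Icc A B) := B4_contn H
  have key : ∀ ε : ℝ, 0 < ε → ∀ s ∈ Set.Icc A B, n s + ε * s ^ 2 ≤
      max (n A + ε * A ^ 2) (n B + ε * B ^ 2) := by
    intro ε hε s hs
    have hhc : ContinuousOn (fun s => n s + ε * s ^ 2) (Set.Icc A B) :=
      hnc.add (by fun_prop)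
    obtain ⟨s0, hs0, hmax⟩ := isCompact_Icc.exists_isMaxOn ⟨s, hs⟩ hhc
    have hm : ∀ s ∈ Set.Icc A B, n s + ε * s ^ 2 ≤ n s0 + ε * s0 ^ 2 := fun s hs => hmax hs
    refine (hm s hs).trans ?_
    by_cases hA : s0 = A
    · rw [hA]; exact le_max_left _ _
    by_cases hB : s0 = B
    · rw [hB]; exact le_max_right _ _
    exfalso
    have hA' : A < s0 := lt_of_le_of_ne hs0.1 (Ne.symm hA)
    have hB' : s0 < B := lt_of_le_of_ne hs0.2 hB
    set r := min (s0 - A) (B - s0) with hrdef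
    have hr : 0 < r := lt_min (by linarith) (by linarith)
    have hr1 : A ≤ s0 - r := by
      have := min_le_left (s0 - A) (B - s0)
      linarith
    have hr2 : s0 + r ≤ B := by
      have := min_le_right (s0 - A) (B - s0)
      linarith
    have hstr : ∀ θ : ℝ, s0 + r * Real.cos θ ∈ Set.Icc A B := by
      intro θ
      have h3 := Real.neg_one_le_cos θ
      have h4 := Real.cos_le_one θ
      constructor <;> nlinarith
    have hstep := B4_step H hr hr1 hr2
    have hpi : (0 : ℝ) < 2 * π := by positivity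
    have hle : ∫ θ in (0 : ℝ)..(2 * π), n (s0 + r * Real.cos θ) ≤
        ∫ θ in (0 : ℝ)..(2 * π), ((n s0 + ε * s0 ^ 2) - ε * (s0 + r * Real.cos θ) ^ 2) := by
      refine intervalIntegral.integral_mono_on hpi.le ?_ ?_ ?_
      · apply Continuous.intervalIntegrable
        exact hnc.comp_continuous (by fun_prop) hstr
      · apply Continuous.intervalIntegrable
        fun_prop
      · intro θ _
        have := hm _ (hstr θ)
        linarith
    rw [intervalIntegral.integral_sub (by apply Continuous.intervalIntegrable; fun_prop)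
        (by apply Continuous.intervalIntegrable; fun_prop),
      intervalIntegral.integral_const, intervalIntegral.integral_const_mul, B4_avg,
      smul_eq_mul, sub_zero] at hle
    have hstep' : n s0 ≤ (2 * π)⁻¹ * ∫ θ in (0 : ℝ)..(2 * π), n (s0 + r * Real.cos θ) := hstep
    have h5 : (2 * π)⁻¹ * ∫ θ in (0 : ℝ)..(2 * π), n (s0 + r * Real.cos θ) ≤
        (2 * π)⁻¹ * (2 * π * (n s0 + ε * s0 ^ 2) - ε * (2 * π * s0 ^ 2 + π * r ^ 2)) :=
      mul_le_mul_of_nonneg_left hle (by positivity)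
    have h6 : (2 * π)⁻¹ * (2 * π * (n s0 + ε * s0 ^ 2) - ε * (2 * π * s0 ^ 2 + π * r ^ 2)) =
        n s0 - ε * r ^ 2 / 2 := by
      have := Real.pi_ne_zero
      field_simp
      ring
    have h7 : 0 < ε * r ^ 2 / 2 := by positivity
    linarith
  refine le_of_forall_pos_le_add fun δ hδ => ?_
  have hε : 0 < δ / (A ^ 2 + B ^ 2 + 1) := by positivity
  have h3 := key _ hε σ ⟨h1, h2⟩
  have h4 : δ / (A ^ 2 + B ^ 2 + 1) * A ^ 2 ≤ δ := by
    rw [div_mul_eq_mul_div, div_le_iff₀ (by positivity)]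
    nlinarith [sq_nonneg A, sq_nonneg B]
  have h5 : δ / (A ^ 2 + B ^ 2 + 1) * B ^ 2 ≤ δ := by
    rw [div_mul_eq_mul_div, div_le_iff₀ (by positivity)]
    nlinarith [sq_nonneg A, sq_nonneg B]
  have h6 : 0 ≤ δ / (A ^ 2 + B ^ 2 + 1) * σ ^ 2 := by positivity
  have h7 : max (n A + δ / (A ^ 2 + B ^ 2 + 1) * A ^ 2)
      (n B + δ / (A ^ 2 + B ^ 2 + 1) * B ^ 2) ≤ max (n A) (n B) + δ :=
    max_le (add_le_add (le_max_left _ _) h4) (add_le_add (le_max_right _ _) h5)
  have h8 : n σ ≤ max (n A) (n B) + δ := by linarith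
  exact h8

/-- the convexity for a function all of whose exponential weights have the properties -/
private theorem B4_main {v : ℂ → ℝ} {A B : ℝ} (hAB : A < B)
    (H : ∀ κ : ℝ, ∃ M Q : ℝ, B4_H (fun s => Real.exp (κ * s.re) * v s) A B M Q)
    {σ : ℝ} (h1 : A ≤ σ) (h2 : σ ≤ B) :
    ∫⁻ t : ℝ, ENNReal.ofReal (v (σ + t * I)) ≤
      (∫⁻ t : ℝ, ENNReal.ofReal (v (A + t * I))) ^ ((B - σ) / (B - A)) *
      (∫⁻ t : ℝ, ENNReal.ofReal (v (B + t * I))) ^ ((σ - A) / (B - A)) := by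
  obtain ⟨M0, Q0, H0'⟩ := H 0
  have H0 : B4_H v A B M0 Q0 := by
    have : (fun s : ℂ => Real.exp (0 * s.re) * v s) = v := by
      funext s
      rw [zero_mul, Real.exp_zero, one_mul]
    rw [this] at H0'
    exact H0'
  set n : ℝ → ℝ := fun σ => ∫ t : ℝ, v (σ + t * I) with hn
  have hn0 : ∀ s, 0 ≤ n s := fun s => integral_nonneg fun t => H0.pos _
  have hlin : ∀ s : ℝ, A ≤ s → s ≤ B →
      ∫⁻ t : ℝ, ENNReal.ofReal (v (s + t * I)) = ENNReal.ofReal (n s) := by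
    intro s hs1 hs2
    exact (ofReal_integral_eq_lintegral_ofReal (B4_intv H0 hs1 hs2)
      (Filter.Eventually.of_forall fun t => H0.pos _)).symm
  have hBA : 0 < B - A := by linarith
  -- the weighted maximum principle
  have hk : ∀ κ : ℝ, Real.exp (κ * σ) * n σ ≤
      max (Real.exp (κ * A) * n A) (Real.exp (κ * B) * n B) := by
    intro κ
    obtain ⟨M, Q, Hk⟩ := H κ
    have hnk : ∀ s : ℝ, ∫ t : ℝ, (fun s : ℂ => Real.exp (κ * s.re) * v s) (s + t * I) =
        Real.exp (κ * s) * n s := by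
      intro s
      rw [hn]
      show _ = Real.exp (κ * s) * ∫ t : ℝ, v (s + t * I)
      rw [← integral_const_mul]
      refine integral_congr_ae (Filter.Eventually.of_forall fun t => ?_)
      show Real.exp (κ * ((s : ℂ) + t * I).re) * v (s + t * I) = Real.exp (κ * s) * v (s + t * I)
      have : ((s : ℂ) + t * I).re = s := by simp
      rw [this]
    have h3 := B4_max Hk h1 h2
    rw [hnk σ, hnk A, hnk B] at h3
    exact h3
  -- approximations
  have happ : ∀ ε : ℝ, 0 < ε → n σ ≤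
      (n A + ε) ^ ((B - σ) / (B - A)) * (n B + ε) ^ ((σ - A) / (B - A)) := by
    intro ε hε
    have ha : 0 < n A + ε := by have := hn0 A; linarith
    have hbb : 0 < n B + ε := by have := hn0 B; linarith
    set κ : ℝ := (Real.log (n A + ε) - Real.log (n B + ε)) / (B - A) with hkdef
    have hkk : κ * (B - A) = Real.log (n A + ε) - Real.log (n B + ε) := by
      rw [hkdef]
      field_simp
    have h3 := hk κ
    have h4 : Real.exp (κ * B) * (n B + ε) = Real.exp (κ * A) * (n A + ε) := by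
      have h5 : Real.exp (κ * B) = Real.exp (κ * A) * ((n A + ε) / (n B + ε)) := by
        have h6 : (n A + ε) / (n B + ε) = Real.exp (κ * (B - A)) := by
          rw [hkk, Real.exp_sub, Real.exp_log ha, Real.exp_log hbb]
        rw [h6, ← Real.exp_add]
        congr 1
        ring
      rw [h5]
      field_simp
    have h7 : Real.exp (κ * σ) * n σ ≤ Real.exp (κ * A) * (n A + ε) := by
      refine h3.trans (max_le ?_ ?_)
      · exact mul_le_mul_of_nonneg_left (by linarith) (Real.exp_pos _).le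
      · rw [← h4]
        exact mul_le_mul_of_nonneg_left (by linarith) (Real.exp_pos _).le
    have h8 : n σ ≤ Real.exp (-(κ * (σ - A))) * (n A + ε) := by
      have h9 : Real.exp (-(κ * σ)) * (Real.exp (κ * σ) * n σ) ≤
          Real.exp (-(κ * σ)) * (Real.exp (κ * A) * (n A + ε)) :=
        mul_le_mul_of_nonneg_left h7 (Real.exp_pos _).le
      rw [← mul_assoc, ← Real.exp_add, neg_add_cancel, Real.exp_zero, one_mul, ← mul_assoc,
        ← Real.exp_add] at h9
      refine h9.trans (le_of_eq ?_)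
      congr 2
      ring
    refine h8.trans (le_of_eq ?_)
    have h11 : Real.exp (-(κ * (σ - A))) * (n A + ε) =
        Real.exp (-(κ * (σ - A)) + Real.log (n A + ε)) := by
      rw [Real.exp_add, Real.exp_log ha]
    rw [h11, Real.rpow_def_of_pos ha, Real.rpow_def_of_pos hbb, ← Real.exp_add]
    congr 1
    have h10 : κ * (σ - A) = (Real.log (n A + ε) - Real.log (n B + ε)) *
        ((σ - A) / (B - A)) := by
      rw [← hkk]
      field_simp
    rw [h10]
    field_simp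
    ring
  have hlim : n σ ≤ n A ^ ((B - σ) / (B - A)) * n B ^ ((σ - A) / (B - A)) := by
    have he1 : 0 ≤ (B - σ) / (B - A) := div_nonneg (by linarith) hBA.le
    have he2 : 0 ≤ (σ - A) / (B - A) := div_nonneg (by linarith) hBA.le
    have hc : Filter.Tendsto (fun ε : ℝ => (n A + ε) ^ ((B - σ) / (B - A)) *
        (n B + ε) ^ ((σ - A) / (B - A))) (nhdsWithin 0 (Set.Ioi 0))
        (nhds (n A ^ ((B - σ) / (B - A)) * n B ^ ((σ - A) / (B - A)))) := by
      have h3 : Continuous (fun ε : ℝ => (n A + ε) ^ ((B - σ) / (B - A)) *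
          (n B + ε) ^ ((σ - A) / (B - A))) :=
        ((continuous_const.add continuous_id).rpow_const fun _ => Or.inr he1).mul
          ((continuous_const.add continuous_id).rpow_const fun _ => Or.inr he2)
      have h4 := h3.tendsto 0
      simp only [add_zero] at h4
      exact h4.mono_left nhdsWithin_le_nhds
    exact ge_of_tendsto hc (Filter.eventually_of_mem self_mem_nhdsWithin happ)
  rw [hlin σ h1 h2, hlin A le_rfl hAB.le, hlin B hAB.le le_rfl,
    ENNReal.ofReal_rpow_of_nonneg (hn0 A) (div_nonneg (by linarith) hBA.le),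
    ENNReal.ofReal_rpow_of_nonneg (hn0 B) (div_nonneg (by linarith) hBA.le),
    ← ENNReal.ofReal_mul (Real.rpow_nonneg (hn0 A) _)]
  exact ENNReal.ofReal_le_ofReal hlim

private theorem B4_pow {x K t p : ℝ} (hx : 0 ≤ x) (hK : 0 ≤ K) (hp : 0 < p)
    (h : x ≤ K * Real.exp (-t)) : x ^ p ≤ K ^ p * Real.exp (-(p * t)) := by
  have h4 := Real.rpow_le_rpow hx h hp.le
  refine h4.trans (le_of_eq ?_)
  rw [Real.mul_rpow hK (Real.exp_pos _).le, ← Real.exp_mul]
  congr 2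
  ring

theorem gabriel3 {f g k : ℂ → ℂ} {A B p q r K : ℝ} (hAB : A < B) (hp : 0 < p) (hq : 0 < q) (hr : 0 < r)
    (hd : ∀ s : ℂ, A ≤ s.re → s.re ≤ B → AnalyticAt ℂ f s ∧ AnalyticAt ℂ g s ∧ AnalyticAt ℂ k s)
    (hb : ∀ s : ℂ, A ≤ s.re → s.re ≤ B → ‖f s‖ ≤ K * Real.exp (-|s.im|) ∧
      ‖g s‖ ≤ K * Real.exp (-|s.im|) ∧ ‖k s‖ ≤ K * Real.exp (-|s.im|))
    {σ : ℝ} (h1 : A ≤ σ) (h2 : σ ≤ B) :
    ∫⁻ t : ℝ, ENNReal.ofReal (‖f (σ + t * I)‖ ^ p * ‖g (σ + t * I)‖ ^ q * ‖k (σ + t * I)‖ ^ r) ≤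
      (∫⁻ t : ℝ, ENNReal.ofReal (‖f (A + t * I)‖ ^ p * ‖g (A + t * I)‖ ^ q *
        ‖k (A + t * I)‖ ^ r)) ^ ((B - σ) / (B - A)) *
      (∫⁻ t : ℝ, ENNReal.ofReal (‖f (B + t * I)‖ ^ p * ‖g (B + t * I)‖ ^ q *
        ‖k (B + t * I)‖ ^ r)) ^ ((σ - A) / (B - A)) := by
  have hK : 0 ≤ K := by
    have h3 := (hb (A : ℂ) (by simp) (by simpa using hAB.le)).1
    have h4 : |(A : ℂ).im| = 0 := by simp
    rw [h4, neg_zero, Real.exp_zero, mul_one] at h3
    exact (norm_nonneg _).trans h3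
  refine B4_main (v := fun s => ‖f s‖ ^ p * ‖g s‖ ^ q * ‖k s‖ ^ r) hAB ?_ h1 h2
  intro κ
  refine ⟨Real.exp (|κ| * (|A| + |B|)) * (K ^ p * K ^ q * K ^ r), p + q + r, ?_⟩
  have hpos : ∀ s : ℂ, 0 ≤ ‖f s‖ ^ p * ‖g s‖ ^ q * ‖k s‖ ^ r := fun s => by positivity
  refine ⟨by positivity, by positivity, fun s => ?_, fun s hs1 hs2 => ?_, fun s hs1 hs2 => ?_,
    fun c R hR hc => ?_⟩
  · exact mul_nonneg (Real.exp_pos _).le (hpos s)
  · obtain ⟨hf, hg, hk⟩ := hd s hs1 hs2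
    refine ContinuousAt.mul (by apply Continuous.continuousAt; fun_prop) ?_
    exact ((hf.continuousAt.norm.rpow_const (Or.inr hp.le)).mul
      (hg.continuousAt.norm.rpow_const (Or.inr hq.le))).mul
      (hk.continuousAt.norm.rpow_const (Or.inr hr.le))
  · obtain ⟨hf, hg, hk⟩ := hb s hs1 hs2
    have e1 := B4_pow (norm_nonneg _) hK hp hf
    have e2 := B4_pow (norm_nonneg _) hK hq hg
    have e3 := B4_pow (norm_nonneg _) hK hr hk
    have e4 : Real.exp (κ * s.re) ≤ Real.exp (|κ| * (|A| + |B|)) := by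
      rw [Real.exp_le_exp]
      refine (le_abs_self _).trans ?_
      rw [abs_mul]
      refine mul_le_mul_of_nonneg_left ?_ (abs_nonneg _)
      rw [abs_le]
      constructor
      · have := neg_abs_le A
        have := abs_nonneg B
        linarith
      · have := le_abs_self B
        have := abs_nonneg A
        linarith
    calc Real.exp (κ * s.re) * (‖f s‖ ^ p * ‖g s‖ ^ q * ‖k s‖ ^ r)
        ≤ Real.exp (|κ| * (|A| + |B|)) * ((K ^ p * Real.exp (-(p * |s.im|))) *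
          (K ^ q * Real.exp (-(q * |s.im|))) * (K ^ r * Real.exp (-(r * |s.im|)))) := by
          gcongr
      _ = Real.exp (|κ| * (|A| + |B|)) * (K ^ p * K ^ q * K ^ r) *
          (Real.exp (-(p * |s.im|)) * Real.exp (-(q * |s.im|)) * Real.exp (-(r * |s.im|))) := by ring
      _ = Real.exp (|κ| * (|A| + |B|)) * (K ^ p * K ^ q * K ^ r) *
          Real.exp (-((p + q + r) * |s.im|)) := by
          rw [← Real.exp_add, ← Real.exp_add]
          congr 2
          ring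
  · have hfun : (fun s : ℂ => Real.exp (κ * s.re) * (‖f s‖ ^ p * ‖g s‖ ^ q * ‖k s‖ ^ r)) =
        fun s : ℂ => ‖f s * Complex.exp ((κ / p : ℝ) * s)‖ ^ p * ‖g s‖ ^ q * ‖k s‖ ^ r := by
      funext s
      have e1 : ‖Complex.exp ((κ / p : ℝ) * s)‖ ^ p = Real.exp (κ * s.re) := by
        rw [Complex.norm_exp, ← Real.exp_mul]
        congr 1
        have : (((κ / p : ℝ) : ℂ) * s).re = κ / p * s.re := by
          rw [Complex.re_ofReal_mul]
        rw [this]
        field_simp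
      rw [norm_mul, Real.mul_rpow (norm_nonneg _) (norm_nonneg _), e1]
      ring
    have e2 := submean3 (f := fun s => f s * Complex.exp ((κ / p : ℝ) * s)) (g := g) (k := k) (c := c)
      hR hp hq hr
      (fun z hz => ((hd z (hc z hz).1 (hc z hz).2).1).mul (by fun_prop))
      (fun z hz => (hd z (hc z hz).1 (hc z hz).2).2.1)
      (fun z hz => (hd z (hc z hz).1 (hc z hz).2).2.2)
    have e3 : Real.exp (κ * c.re) * (‖f c‖ ^ p * ‖g c‖ ^ q * ‖k c‖ ^ r) =
        ‖f c * Complex.exp ((κ / p : ℝ) * c)‖ ^ p * ‖g c‖ ^ q * ‖k c‖ ^ r := congrFun hfun c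
    rw [hfun]
    show Real.exp (κ * c.re) * (‖f c‖ ^ p * ‖g c‖ ^ q * ‖k c‖ ^ r) ≤ _
    rw [e3]
    exact e2

end Pool.Agent.UV
end

section

/-! TASK P1. Calculus of `IsP2`, first part (compare `IsDP.mul` in GH/Basic.lean and UH/D1.lean: same bookkeeping).
* `const`: `F = {(1,1)}`. `add`: union of the supports, coefficients extended by zero. `mono`: trivial.
* `mul`: the product of the two sums over `F × F'`; push forward to pairs `(m m', n n')` (`Finset.image`, `c(r) = ∑` over the fibre); `χ`, `χ'` are multiplicative, `1/(m m')` is multiplicative (`B ≥ 0` follows from `hg` as a sum of nonnegative terms; `B' ≥ 0` too).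
* `cj`, `nC`: `conj (n^{-s}) = n^{-conj s}` for naturals `n ≥ 1`. -/

set_option autoImplicit false

namespace Pool.Agent.UV

open Complex MeasureTheory Finset Pool.Agent.GH Pool.Agent.UH
open scoped Real ComplexConjugate

theorem cj_apply (χ : ℕ →*₀ ℂ) (n : ℕ) : cj χ n = conj (χ n) := rfl

theorem cj_nC (s : ℂ) : cj (nC s) = nC (conj s) := by
  ext n
  rcases eq_or_ne n 0 with rfl | hn
  · simp only [map_zero]
  · rw [cj_apply, nC_apply s hn, nC_apply _ hn]
    have h0 : ((n : ℂ)).arg ≠ Real.pi := by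
      rw [Complex.natCast_arg]
      exact Real.pi_pos.ne
    have h1 := Complex.cpow_conj (n : ℂ) (-s) h0
    rw [Complex.conj_natCast] at h1
    rw [← h1, map_neg]

theorem cj_nC_line (t : ℝ) : nC (1 / 2 - t * I) = cj (nC (1 / 2 + t * I)) := by
  rw [cj_nC]
  congr 1
  simp only [map_add, map_mul, map_div₀, map_one, Complex.conj_ofReal, Complex.conj_I]
  rw [show (starRingEnd ℂ) 2 = 2 from Complex.conj_ofNat 2]
  ring

theorem nX_mul_nC (z h : ℂ) (v : Om) : nX z v * nC h = nX (z + h) v := by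
  ext n
  change nC (1 / 2 + z) n * XX v n * nC h n = nC (1 / 2 + (z + h)) n * XX v n
  rcases eq_or_ne n 0 with rfl | hn
  · simp only [map_zero, mul_zero]
  · have hn' : (n : ℂ) ≠ 0 := by exact_mod_cast hn
    have h1 : (-(1 / 2 + (z + h)) : ℂ) = -(1 / 2 + z) + -h := by ring
    rw [nC_apply _ hn, nC_apply _ hn, nC_apply _ hn, h1, Complex.cpow_add _ _ hn']
    ring

theorem nC_mul_nC (z h : ℂ) : nC z * nC h = nC (z + h) := by
  ext n
  change nC z n * nC h n = nC (z + h) n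
  rcases eq_or_ne n 0 with rfl | hn
  · simp only [map_zero, mul_zero]
  · have hn' : (n : ℂ) ≠ 0 := by exact_mod_cast hn
    have h1 : (-(z + h) : ℂ) = -z + -h := by ring
    rw [nC_apply _ hn, nC_apply _ hn, nC_apply _ hn, h1, Complex.cpow_add _ _ hn']

theorem IsP2.nonneg {Q1 Q2 B : ℝ} {g : (ℕ →*₀ ℂ) → (ℕ →*₀ ℂ) → ℂ} (hg : IsP2 Q1 Q2 B g) : 0 ≤ B := by
  obtain ⟨F, c, -, h2, -⟩ := hg
  exact le_trans (Finset.sum_nonneg fun q _ => by positivity) h2

theorem IsP2.mono {Q1 Q2 B Q1' Q2' B' : ℝ} {g : (ℕ →*₀ ℂ) → (ℕ →*₀ ℂ) → ℂ} (hg : IsP2 Q1 Q2 B g)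
    (h1 : Q1 ≤ Q1') (h2 : Q2 ≤ Q2') (h3 : B ≤ B') : IsP2 Q1' Q2' B' g := by
  obtain ⟨F, c, g1, g2, g3⟩ := hg
  exact ⟨F, c, fun q hq => ⟨(g1 q hq).1, (g1 q hq).2.1, (g1 q hq).2.2.1.trans h1,
    (g1 q hq).2.2.2.trans h2⟩, g2.trans h3, g3⟩

theorem isP2_const (c : ℂ) : IsP2 1 1 ‖c‖ (fun _ _ => c) := by
  refine ⟨{(1, 1)}, fun _ => c, ?_, ?_, fun χ χ' => ?_⟩
  · intro q hq
    rw [Finset.mem_singleton] at hq
    subst hq
    simp
  · simp
  · simp

theorem IsP2.mul {Q1 Q2 B Q1' Q2' B' : ℝ} {g g' : (ℕ →*₀ ℂ) → (ℕ →*₀ ℂ) → ℂ} (hg : IsP2 Q1 Q2 B g)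
    (hg' : IsP2 Q1' Q2' B' g') : IsP2 (Q1 * Q1') (Q2 * Q2') (B * B') (fun χ χ' => g χ χ' * g' χ χ') := by
  classical
  have hB := hg.nonneg
  obtain ⟨F, c, h1, h2, h3⟩ := hg
  obtain ⟨F', c', g1, g2, g3⟩ := hg'
  refine ⟨(F ×ˢ F').image fun r => (r.1.1 * r.2.1, r.1.2 * r.2.2),
    fun n => ∑ r ∈ (F ×ˢ F').filter (fun r => (r.1.1 * r.2.1, r.1.2 * r.2.2) = n), c r.1 * c' r.2,
    ?_, ?_, ?_⟩
  · intro n hn
    obtain ⟨r, hr, rfl⟩ := Finset.mem_image.mp hn
    obtain ⟨hr1, hr2⟩ := Finset.mem_product.mp hr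
    obtain ⟨a1, a2, a3, a4⟩ := h1 _ hr1
    obtain ⟨b1, b2, b3, b4⟩ := g1 _ hr2
    refine ⟨mul_ne_zero a1 b1, mul_ne_zero a2 b2, ?_, ?_⟩
    · push_cast
      exact mul_le_mul a3 b3 (Nat.cast_nonneg _) ((Nat.cast_nonneg _).trans a3)
    · push_cast
      exact mul_le_mul a4 b4 (Nat.cast_nonneg _) ((Nat.cast_nonneg _).trans a4)
  · calc ∑ n ∈ (F ×ˢ F').image (fun r => (r.1.1 * r.2.1, r.1.2 * r.2.2)),
          ‖∑ r ∈ (F ×ˢ F').filter (fun r => (r.1.1 * r.2.1, r.1.2 * r.2.2) = n), c r.1 * c' r.2‖ / (n.1 : ℝ)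
        ≤ ∑ n ∈ (F ×ˢ F').image (fun r => (r.1.1 * r.2.1, r.1.2 * r.2.2)),
          ∑ r ∈ (F ×ˢ F').filter (fun r => (r.1.1 * r.2.1, r.1.2 * r.2.2) = n),
            ‖c r.1‖ / (r.1.1 : ℝ) * (‖c' r.2‖ / (r.2.1 : ℝ)) := by
          refine Finset.sum_le_sum fun n _ => ?_
          refine (div_le_div_of_nonneg_right (norm_sum_le _ _) (Nat.cast_nonneg _)).trans ?_
          rw [Finset.sum_div]
          refine (Finset.sum_congr rfl fun r hr => ?_).le
          rw [← (Finset.mem_filter.mp hr).2, norm_mul]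
          push_cast
          rw [mul_div_mul_comm]
      _ = ∑ r ∈ F ×ˢ F', ‖c r.1‖ / (r.1.1 : ℝ) * (‖c' r.2‖ / (r.2.1 : ℝ)) :=
          Finset.sum_fiberwise_of_maps_to (fun r hr => Finset.mem_image_of_mem _ hr) _
      _ = (∑ q ∈ F, ‖c q‖ / (q.1 : ℝ)) * ∑ q ∈ F', ‖c' q‖ / (q.1 : ℝ) := by
          rw [Finset.sum_product, Finset.sum_mul_sum]
      _ ≤ B * B' := mul_le_mul h2 g2 (Finset.sum_nonneg fun q _ => by positivity) hB
  · intro χ χ'
    beta_reduce
    rw [h3, g3, Finset.sum_mul_sum, ← Finset.sum_product']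
    rw [← Finset.sum_fiberwise_of_maps_to
      (t := (F ×ˢ F').image fun r => (r.1.1 * r.2.1, r.1.2 * r.2.2))
      (g := fun r => (r.1.1 * r.2.1, r.1.2 * r.2.2)) (fun r hr => Finset.mem_image_of_mem _ hr)]
    refine Finset.sum_congr rfl fun n _ => ?_
    rw [Finset.sum_mul, Finset.sum_mul]
    refine Finset.sum_congr rfl fun r hr => ?_
    rw [← (Finset.mem_filter.mp hr).2, map_mul, map_mul]
    ring

private theorem P1_sum {E : Type*} [AddCommMonoid E] {F F' : Finset (ℕ × ℕ)} (hF : F ⊆ F')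
    {f : ℕ × ℕ → E} : ∑ q ∈ F', (if q ∈ F then f q else 0) = ∑ q ∈ F, f q := by
  rw [Finset.sum_ite_mem, Finset.inter_eq_right.2 hF]

theorem IsP2.add {Q1 Q2 B B' : ℝ} {g g' : (ℕ →*₀ ℂ) → (ℕ →*₀ ℂ) → ℂ} (hg : IsP2 Q1 Q2 B g)
    (hg' : IsP2 Q1 Q2 B' g') : IsP2 Q1 Q2 (B + B') (fun χ χ' => g χ χ' + g' χ χ') := by
  classical
  obtain ⟨F, c, h1, h2, h3⟩ := hg
  obtain ⟨F', c', g1, g2, g3⟩ := hg'
  refine ⟨F ∪ F', fun q => (if q ∈ F then c q else 0) + (if q ∈ F' then c' q else 0), ?_, ?_, ?_⟩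
  · intro q hq
    rcases Finset.mem_union.1 hq with h | h
    · exact h1 q h
    · exact g1 q h
  · calc ∑ q ∈ F ∪ F', ‖(if q ∈ F then c q else 0) + (if q ∈ F' then c' q else 0)‖ / (q.1 : ℝ)
        ≤ ∑ q ∈ F ∪ F', ((if q ∈ F then ‖c q‖ / (q.1 : ℝ) else 0) +
            (if q ∈ F' then ‖c' q‖ / (q.1 : ℝ) else 0)) := by
          refine Finset.sum_le_sum fun q _ => ?_
          refine (div_le_div_of_nonneg_right (norm_add_le _ _) (Nat.cast_nonneg _)).trans ?_
          rw [add_div]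
          refine (add_le_add ?_ ?_)
          · split_ifs <;> simp
          · split_ifs <;> simp
      _ = ∑ q ∈ F, ‖c q‖ / (q.1 : ℝ) + ∑ q ∈ F', ‖c' q‖ / (q.1 : ℝ) := by
          rw [Finset.sum_add_distrib, P1_sum Finset.subset_union_left, P1_sum Finset.subset_union_right]
      _ ≤ B + B' := add_le_add h2 g2
  · intro χ χ'
    beta_reduce
    rw [h3, g3, ← P1_sum (F := F) (F' := F ∪ F') Finset.subset_union_left,
      ← P1_sum (F := F') (F' := F ∪ F') Finset.subset_union_right, ← Finset.sum_add_distrib]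
    refine Finset.sum_congr rfl fun q _ => ?_
    split_ifs <;> ring

end Pool.Agent.UV
end
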