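import Pool.Agent.Lib.MP_69b2e4_nt.LB.C0
import Pool.Agent.Lib.MP_69b2e4_nt.LB.G3
import Pool.Agent.Lib.MP_69b2e4_nt.Mg.G039
import Pool.Agent.Lib.MP_69b2e4_nt.Mg.G040
import Pool.Agent.Lib.MP_69b2e4_nt.Mg.G015
import Pool.Agent.Lib.MP_69b2e4_nt.Mg.G038
import Pool.Agent.Lib.MP_69b2e4_nt.LB.F1

section

/-! TASK C1. Plancherel for `Λ + (2/log T) Λ'` times a Dirichlet polynomial. `L = log T`, `a = -R0/L`, `|a| ≤ 1/10`.
`gg_ft` (GH/FT.lean): for `|a| < 1/2`, `s' = a + it`: `G(s') := ∫ e^{s'y} gg T y dy = e^{-i(ang/2)(1/2+a)} xi T a t = e^{-i(ang/2)(1/2+s')} Λ(1/2+s')`. Both sides are analytic in `s'` in the strip `|Re s'| < 1/2` (`gg` decays like `e^{-|y|/2}` on both sides: `gg_decay`, `gg_neg`, so differentiation under the integral sign is allowed), so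
 `∫ y e^{s'y} gg T y dy = e^{-i(ang/2)(1/2+s')} (Λ'(1/2+s') - i (ang/2) Λ(1/2+s'))`, and `∫ (1 + i ang/L + 2y/L) e^{s'y} gg T y dy = e^{-i(ang/2)(1/2+s')} fL T (1/2+s')`.
Multiply by `β(n) n^{-1/2} e^{-s' log n}` and substitute `y → y + log n`: `∫ e^{s'y} HH true T β y dy = e^{-i(ang/2)(1/2+s')} fL T (1/2+s') DPo T β (nC (1/2+s'))`. The norm of the exponential factor is `e^{ang t/2}`. `plancherel_le` for `y ↦ e^{ay} HH true T β y` (integrable), split at `y0`, and `y → -y` on `(-∞, y0)`: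
 `HH true T β (-y) = omh T * conj (HH false T β y)` (`gg_neg`: `gg T (-x) = omh T * conj (gg T x)`, `gg T (-(y - log n))`; the multiplier at `-y` is `1 + i ang/L + (2/L)(-y + log n)`, the conjugate of `1 - i ang/L + (2/L)(-y + log n)`), `‖omh T‖ = 1`. (Compare UV/PL.lean.) -/

set_option autoImplicit false

namespace Pool.Agent.LB

open Complex MeasureTheory Finset Pool.Agent.GH Pool.Agent.UH Pool.Agent.UV
open scoped Real ComplexConjugate

private theorem C1_intR {T : ℝ} (hT : 1 ≤ T) {a : ℝ} (ha : |a| < 1 / 2) :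
    Integrable fun y : ℝ => Real.exp (a * y) * ‖gg T y‖ := by
  refine (integrable_gg hT ha).norm.congr (Filter.Eventually.of_forall fun y => ?_)
  show ‖(Real.exp (a * y) : ℂ) * gg T y‖ = _
  rw [norm_mul, Complex.norm_real, Real.norm_of_nonneg (Real.exp_pos _).le]

private theorem C1_abs_le (ε : ℝ) (hε : 0 < ε) (y : ℝ) :
    |y| ≤ 1 / ε * (Real.exp (ε * y) + Real.exp (-(ε * y))) := by
  have h1 : |ε * y| ≤ Real.exp (ε * y) + Real.exp (-(ε * y)) := by
    rw [abs_le]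
    have e1 := Real.add_one_le_exp (ε * y)
    have e2 := Real.add_one_le_exp (-(ε * y))
    have p1 := Real.exp_pos (ε * y)
    have p2 := Real.exp_pos (-(ε * y))
    constructor <;> linarith
  rw [abs_mul, abs_of_pos hε] at h1
  rw [div_mul_eq_mul_div, one_mul, le_div_iff₀ hε]
  linarith

private theorem C1_bound {ε a0 x y : ℝ} (hε : 0 < ε) (hx : |x - a0| < ε) :
    |y| * Real.exp (x * y) ≤ 1 / ε * (Real.exp ((a0 + 2 * ε) * y) + 2 * Real.exp (a0 * y) +
      Real.exp ((a0 - 2 * ε) * y)) := by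
  obtain ⟨hx1, hx2⟩ := abs_lt.1 hx
  have h1 : Real.exp (x * y) ≤ Real.exp ((a0 + ε) * y) + Real.exp ((a0 - ε) * y) := by
    rcases le_total 0 y with h | h
    · have : Real.exp (x * y) ≤ Real.exp ((a0 + ε) * y) :=
        Real.exp_le_exp.2 (mul_le_mul_of_nonneg_right (by linarith) h)
      linarith [Real.exp_pos ((a0 - ε) * y)]
    · have : Real.exp (x * y) ≤ Real.exp ((a0 - ε) * y) :=
        Real.exp_le_exp.2 (mul_le_mul_of_nonpos_right (by linarith) h)
      linarith [Real.exp_pos ((a0 + ε) * y)]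
  have h2 := C1_abs_le ε hε y
  have h3 := mul_le_mul h2 h1 (Real.exp_pos _).le (by positivity)
  refine h3.trans (le_of_eq ?_)
  have e1 : Real.exp ((a0 + 2 * ε) * y) = Real.exp (ε * y) * Real.exp ((a0 + ε) * y) := by
    rw [← Real.exp_add]; congr 1; ring
  have e2 : Real.exp (a0 * y) = Real.exp (ε * y) * Real.exp ((a0 - ε) * y) := by
    rw [← Real.exp_add]; congr 1; ring
  have e3 : Real.exp (a0 * y) = Real.exp (-(ε * y)) * Real.exp ((a0 + ε) * y) := by
    rw [← Real.exp_add]; congr 1; ring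
  have e4 : Real.exp ((a0 - 2 * ε) * y) = Real.exp (-(ε * y)) * Real.exp ((a0 - ε) * y) := by
    rw [← Real.exp_add]; congr 1; ring
  have e5 : 2 * Real.exp (a0 * y) = Real.exp (ε * y) * Real.exp ((a0 - ε) * y) +
      Real.exp (-(ε * y)) * Real.exp ((a0 + ε) * y) := by
    rw [two_mul]
    nth_rewrite 1 [e2]
    rw [e3]
  rw [e1, e5, e4]
  ring

/-- The Fourier transform in the strip. -/
private theorem C1_ft {T : ℝ} (hT : 1 ≤ T) {z : ℂ} (hz : |z.re| < 1 / 2) :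
    ∫ y : ℝ, cexp (z * y) * gg T y =
      cexp (-(ang T / 2) * I * (1 / 2 + z)) * completedRiemannZeta (1 / 2 + z) := by
  have h := gg_ft hT hz z.im
  rw [Complex.re_add_im] at h
  rw [h]
  unfold xi
  have e1 : (1 / 2 + (z.re : ℂ) + z.im * I) = 1 / 2 + z := by
    rw [add_assoc, Complex.re_add_im]
  rw [e1, ← mul_assoc]
  congr 1
  rw [Complex.ofReal_exp, ← Complex.exp_add]
  congr 1
  have e2 : z = (z.re : ℂ) + z.im * I := (Complex.re_add_im z).symm
  have e3 : -(ang T / 2 : ℂ) * I * (1 / 2 + z) =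
      -(ang T / 2 : ℂ) * I * (1 / 2 + ((z.re : ℂ) + z.im * I)) := by rw [← e2]
  rw [e3]
  push_cast
  have hI : I * I = -1 := Complex.I_mul_I
  linear_combination ((ang T : ℂ) * z.im / 2) * hI

private theorem C1_intC {T : ℝ} (hT : 1 ≤ T) {z : ℂ} (hz : |z.re| < 1 / 2) :
    Integrable fun y : ℝ => cexp (z * y) * gg T y := by
  have hc : Continuous fun y : ℝ => cexp (z * y) * gg T y := by
    have := continuous_gg hT
    fun_prop
  refine (C1_intR hT hz).mono' hc.aestronglyMeasurable (Filter.Eventually.of_forall fun y => ?_)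
  rw [norm_mul, Complex.norm_exp]
  simp

/-- Differentiation under the integral sign. -/
private theorem C1_der {T : ℝ} (hT : 1 ≤ T) {z : ℂ} (hz : |z.re| < 1 / 2) :
    (Integrable fun y : ℝ => (y : ℂ) * (cexp (z * y) * gg T y)) ∧
    ∫ y : ℝ, (y : ℂ) * (cexp (z * y) * gg T y) =
      cexp (-(ang T / 2) * I * (1 / 2 + z)) * (deriv completedRiemannZeta (1 / 2 + z) -
        (ang T / 2) * I * completedRiemannZeta (1 / 2 + z)) := by
  obtain ⟨ε, hε⟩ : ∃ ε : ℝ, ε = (1 / 2 - |z.re|) / 3 := ⟨_, rfl⟩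
  have hε0 : 0 < ε := by rw [hε]; linarith
  have hsum : |z.re| + 2 * ε < 1 / 2 := by rw [hε]; linarith
  have hgc := continuous_gg hT
  have hA : |z.re + 2 * ε| < 1 / 2 := by
    calc |z.re + 2 * ε| ≤ |z.re| + |2 * ε| := abs_add_le _ _
      _ = |z.re| + 2 * ε := by rw [abs_of_pos (show (0 : ℝ) < 2 * ε by linarith)]
      _ < 1 / 2 := hsum
  have hB : |z.re - 2 * ε| < 1 / 2 := by
    calc |z.re - 2 * ε| ≤ |z.re| + |2 * ε| := abs_sub _ _
      _ = |z.re| + 2 * ε := by rw [abs_of_pos (show (0 : ℝ) < 2 * ε by linarith)]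
      _ < 1 / 2 := hsum
  have hbi : Integrable fun y : ℝ => 1 / ε * (Real.exp ((z.re + 2 * ε) * y) +
      2 * Real.exp (z.re * y) + Real.exp ((z.re - 2 * ε) * y)) * ‖gg T y‖ := by
    have h := (((C1_intR hT hA).add ((C1_intR hT hz).const_mul 2)).add (C1_intR hT hB)).const_mul
      (1 / ε)
    refine h.congr (Filter.Eventually.of_forall fun y => ?_)
    simp only [Pi.add_apply]
    ring
  have hstrip : ∀ w ∈ Metric.ball z ε, |w.re - z.re| < ε := by
    intro w hw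
    have h1 : |(w - z).re| ≤ ‖w - z‖ := Complex.abs_re_le_norm _
    rw [Complex.sub_re] at h1
    rw [Metric.mem_ball, dist_eq_norm] at hw
    linarith
  have hmain := hasDerivAt_integral_of_dominated_loc_of_deriv_le (μ := volume) (𝕜 := ℂ)
    (F := fun (w : ℂ) (y : ℝ) => cexp (w * y) * gg T y)
    (F' := fun (w : ℂ) (y : ℝ) => (y : ℂ) * (cexp (w * y) * gg T y))
    (x₀ := z) (s := Metric.ball z ε)
    (bound := fun y : ℝ => 1 / ε * (Real.exp ((z.re + 2 * ε) * y) +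
      2 * Real.exp (z.re * y) + Real.exp ((z.re - 2 * ε) * y)) * ‖gg T y‖)
    (Metric.ball_mem_nhds z hε0)
    (Filter.Eventually.of_forall fun w => by
      have : Continuous fun y : ℝ => cexp (w * y) * gg T y := by fun_prop
      exact this.aestronglyMeasurable)
    (C1_intC hT hz)
    (by
      have : Continuous fun y : ℝ => (y : ℂ) * (cexp (z * y) * gg T y) := by fun_prop
      exact this.aestronglyMeasurable)
    (Filter.Eventually.of_forall fun y w hw => by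
      have h1 := C1_bound (y := y) hε0 (hstrip w hw)
      have h2 : ‖(y : ℂ) * (cexp (w * y) * gg T y)‖ = |y| * Real.exp (w.re * y) * ‖gg T y‖ := by
        rw [norm_mul, norm_mul, Complex.norm_real, Real.norm_eq_abs, Complex.norm_exp]
        simp [mul_assoc]
      rw [h2]
      exact mul_le_mul_of_nonneg_right h1 (norm_nonneg _))
    hbi
    (Filter.Eventually.of_forall fun y w _ => by
      have h1 : HasDerivAt (fun w : ℂ => w * (y : ℂ)) (y : ℂ) w := by
        simpa using (hasDerivAt_id w).mul_const (y : ℂ)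
      have h2 := (h1.cexp).mul_const (gg T y)
      exact h2.congr_deriv (by ring))
  obtain ⟨hi, hd⟩ := hmain
  refine ⟨hi, ?_⟩
  have hre : (1 / 2 + z).re = 1 / 2 + z.re := by simp
  obtain ⟨hz1, hz2⟩ := abs_lt.1 hz
  have hs0 : (1 / 2 + z) ≠ 0 := by
    intro h
    have := congrArg Complex.re h
    rw [hre] at this
    simp only [Complex.zero_re] at this
    linarith
  have hs1 : (1 / 2 + z) ≠ 1 := by
    intro h
    have := congrArg Complex.re h
    rw [hre] at this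
    simp only [Complex.one_re] at this
    linarith
  have hL : HasDerivAt completedRiemannZeta (deriv completedRiemannZeta (1 / 2 + z))
      (1 / 2 + z) := (differentiableAt_completedZeta hs0 hs1).hasDerivAt
  have hsh : HasDerivAt (fun w : ℂ => 1 / 2 + w) 1 z := by
    simpa using (hasDerivAt_id z).const_add (1 / 2 : ℂ)
  have hL2 : HasDerivAt (fun w : ℂ => completedRiemannZeta (1 / 2 + w))
      (deriv completedRiemannZeta (1 / 2 + z)) z := by
    have := HasDerivAt.comp z hL hsh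
    rw [mul_one] at this
    exact this
  have hE : HasDerivAt (fun w : ℂ => cexp (-(ang T / 2) * I * (1 / 2 + w)))
      (cexp (-(ang T / 2) * I * (1 / 2 + z)) * (-(ang T / 2) * I)) z := by
    have h1 := (hsh.const_mul (-(ang T / 2 : ℂ) * I)).cexp
    exact h1.congr_deriv (by ring)
  have hprod := hE.mul hL2
  have heq : (fun w : ℂ => ∫ y : ℝ, cexp (w * y) * gg T y) =ᶠ[nhds z]
      ((fun w : ℂ => cexp (-(ang T / 2) * I * (1 / 2 + w))) *
        fun w : ℂ => completedRiemannZeta (1 / 2 + w)) := by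
    filter_upwards [Metric.ball_mem_nhds z hε0] with w hw
    have h1 := hstrip w hw
    have h2 : |w.re| < 1 / 2 := by
      calc |w.re| = |(w.re - z.re) + z.re| := by ring_nf
        _ ≤ |w.re - z.re| + |z.re| := abs_add_le _ _
        _ < 1 / 2 := by linarith
    show ∫ y : ℝ, cexp (w * y) * gg T y = _ * _
    exact C1_ft hT h2
  have hd2 := hprod.congr_of_eventuallyEq heq
  rw [hd.unique hd2]
  ring

/-- The kernel with the multiplier. -/
private noncomputable def C1_k (T y : ℝ) : ℂ :=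
  (1 + ((ang T / Real.log T : ℝ) : ℂ) * I + ((2 / Real.log T * y : ℝ) : ℂ)) * gg T y

private theorem C1_kint {T : ℝ} (hT : 1 ≤ T) {z : ℂ} (hz : |z.re| < 1 / 2) :
    Integrable fun y : ℝ => cexp (z * y) * C1_k T y := by
  have h1 := (C1_intC hT hz).const_mul (1 + ((ang T / Real.log T : ℝ) : ℂ) * I)
  have h2 := (C1_der hT hz).1.const_mul ((2 / Real.log T : ℝ) : ℂ)
  refine (h1.add h2).congr (Filter.Eventually.of_forall fun y => ?_)
  simp only [Pi.add_apply]
  unfold C1_k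
  push_cast
  ring

private theorem C1_kft {T : ℝ} (hT : Real.exp 1000 ≤ T) {z : ℂ} (hz : |z.re| < 1 / 2) :
    ∫ y : ℝ, cexp (z * y) * C1_k T y =
      cexp (-(ang T / 2) * I * (1 / 2 + z)) * fL T (1 / 2 + z) := by
  have hT1 : 1 ≤ T := le_trans (Real.one_le_exp (by norm_num)) hT
  have hL : (0 : ℝ) < Real.log T := by
    have : (1000 : ℝ) ≤ Real.log T := by
      rw [Real.le_log_iff_exp_le (by linarith)]
      exact hT
    linarith
  have hL0 : ((Real.log T : ℝ) : ℂ) ≠ 0 := by exact_mod_cast hL.ne'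
  have h1 := (C1_intC hT1 hz).const_mul (1 + ((ang T / Real.log T : ℝ) : ℂ) * I)
  have h2 := (C1_der hT1 hz).1.const_mul ((2 / Real.log T : ℝ) : ℂ)
  have h3 : ∫ y : ℝ, cexp (z * y) * C1_k T y =
      ∫ y : ℝ, ((1 + ((ang T / Real.log T : ℝ) : ℂ) * I) * (cexp (z * y) * gg T y) +
        ((2 / Real.log T : ℝ) : ℂ) * ((y : ℂ) * (cexp (z * y) * gg T y))) := by
    refine integral_congr_ae (Filter.Eventually.of_forall fun y => ?_)
    show cexp (z * y) * C1_k T y = _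
    unfold C1_k
    push_cast
    ring
  rw [h3, integral_add h1 h2, integral_const_mul, integral_const_mul, C1_ft hT1 hz,
    (C1_der hT1 hz).2]
  unfold fL
  push_cast
  field_simp
  ring

private theorem C1_kterm {T : ℝ} (a b t : ℝ) :
    ∫ y : ℝ, cexp (t * y * I) * ((Real.exp (a * y) : ℂ) * C1_k T (y + b)) =
      cexp (-(a + t * I) * b) * ∫ y : ℝ, cexp ((a + t * I) * y) * C1_k T y := by
  rw [← integral_const_mul]
  rw [← integral_add_right_eq_self (fun y : ℝ => cexp (-(a + t * I) * b) *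
    (cexp ((a + t * I) * y) * C1_k T y)) b]
  refine integral_congr_ae (Filter.Eventually.of_forall fun y => ?_)
  show cexp (t * y * I) * ((Real.exp (a * y) : ℂ) * C1_k T (y + b)) =
    cexp (-(a + t * I) * b) * (cexp ((a + t * I) * ((y + b : ℝ) : ℂ)) * C1_k T (y + b))
  rw [← mul_assoc, ← mul_assoc, Complex.ofReal_exp, ← Complex.exp_add, ← Complex.exp_add]
  congr 2
  push_cast
  ring

private theorem C1_kint_term {T : ℝ} (hT : 1 ≤ T) {a : ℝ} (ha : |a| < 1 / 2) (b : ℝ) :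
    Integrable fun y : ℝ => (Real.exp (a * y) : ℂ) * C1_k T (y + b) := by
  have ha' : |((a : ℂ)).re| < 1 / 2 := by simpa using ha
  have h := (C1_kint hT ha').comp_add_right b
  have h2 := h.const_mul ((Real.exp (-(a * b)) : ℝ) : ℂ)
  refine h2.congr (Filter.Eventually.of_forall fun y => ?_)
  show ((Real.exp (-(a * b)) : ℝ) : ℂ) * (cexp (a * ((y + b : ℝ) : ℂ)) * C1_k T (y + b)) =
    (Real.exp (a * y) : ℂ) * C1_k T (y + b)
  rw [← mul_assoc, Complex.ofReal_exp, Complex.ofReal_exp, ← Complex.exp_add]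
  congr 2
  push_cast
  ring

private noncomputable def C1_c (β : ℕ → ℝ) (n : ℕ) : ℂ :=
  ((β n * (n : ℝ) ^ (-(1 / 2) : ℝ) : ℝ) : ℂ)

private theorem C1_HHt (T : ℝ) (β : ℕ → ℝ) (y : ℝ) :
    HH true T β y = ∑ n ∈ GT T, C1_c β n * C1_k T (y + Real.log n) := by
  unfold HH C1_c C1_k
  refine Finset.sum_congr rfl fun n _ => ?_
  simp only [sgn, if_true, one_mul]
  rw [mul_assoc]

private theorem C1_neg {T : ℝ} (hT : 1 ≤ T) (β : ℕ → ℝ) (y : ℝ) :
    HH true T β (-y) = omh T * conj (HH false T β y) := by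
  rw [C1_HHt]
  unfold HH
  rw [map_sum, Finset.mul_sum]
  refine Finset.sum_congr rfl fun n _ => ?_
  have h1 : -y + Real.log n = -(y + sgn false * Real.log n) := by
    simp only [sgn, Bool.false_eq_true, if_false]
    ring
  unfold C1_c C1_k
  rw [h1, gg_neg hT, map_mul, map_mul, Complex.conj_ofReal, map_add, map_add, map_one, map_mul,
    Complex.conj_I, Complex.conj_ofReal, Complex.conj_ofReal]
  have h2 : (2 / Real.log T * -(y + sgn false * Real.log n) : ℝ) =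
      (2 / Real.log T * (sgn false * y + Real.log n) : ℝ) := by
    simp only [sgn, Bool.false_eq_true, if_false]
    ring
  have h3 : (sgn false * (ang T / Real.log T) : ℝ) = -(ang T / Real.log T) := by
    simp only [sgn, Bool.false_eq_true, if_false]
    ring
  rw [h2, h3]
  push_cast
  ring

theorem HH_planch {T : ℝ} (hT : Real.exp 1000 ≤ T) (β : ℕ → ℝ) (y0 : ℝ) :
    ∫⁻ t : ℝ, ENNReal.ofReal (Real.exp (ang T * t) * ‖fL T ((sg0 T : ℝ) + t * I)‖ ^ 2 *
      ‖DPo T β (nC ((sg0 T : ℝ) + t * I))‖ ^ 2) ≤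
    ENNReal.ofReal (2 * π) *
      ((∫⁻ y in Set.Ioi y0, ENNReal.ofReal (Real.exp (-(2 * sgn true * (R0 / Real.log T) * y)) *
        ‖HH true T β y‖ ^ 2)) +
      ∫⁻ y in Set.Ioi (-y0), ENNReal.ofReal (Real.exp (-(2 * sgn false * (R0 / Real.log T) * y)) *
        ‖HH false T β y‖ ^ 2)) := by
  have hT1 : 1 ≤ T := le_trans (Real.one_le_exp (by norm_num)) hT
  have hL : (1000 : ℝ) ≤ Real.log T := by
    rw [Real.le_log_iff_exp_le (by linarith)]
    exact hT
  obtain ⟨a, haD⟩ : ∃ a : ℝ, a = -(R0 / Real.log T) := ⟨_, rfl⟩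
  have hR : 0 < R0 / Real.log T := div_pos (by norm_num [R0]) (by linarith)
  have hR2 : R0 / Real.log T < 1 / 2 := by
    rw [div_lt_iff₀ (by linarith)]
    have : R0 = 6 / 5 := rfl
    linarith
  have ha : |a| < 1 / 2 := by
    rw [haD, abs_neg, abs_of_pos hR]
    exact hR2
  have hsg : sg0 T = 1 / 2 + a := by
    rw [haD]
    unfold sg0
    ring
  -- the function
  have hf : Integrable fun y : ℝ => (Real.exp (a * y) : ℂ) * HH true T β y := by
    have h : (fun y : ℝ => (Real.exp (a * y) : ℂ) * HH true T β y) =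
        fun y : ℝ => ∑ n ∈ GT T, C1_c β n * ((Real.exp (a * y) : ℂ) *
          C1_k T (y + Real.log n)) := by
      funext y
      rw [C1_HHt, Finset.mul_sum]
      refine Finset.sum_congr rfl fun n _ => ?_
      ring
    rw [h]
    exact integrable_finsetSum _ fun n _ => (C1_kint_term hT1 ha _).const_mul _
  have hft : ∀ t : ℝ, ∫ y : ℝ, cexp (t * y * I) * ((Real.exp (a * y) : ℂ) * HH true T β y) =
      cexp (-(ang T / 2) * I * (1 / 2 + (a + t * I))) *
        (fL T ((sg0 T : ℝ) + t * I) * DPo T β (nC ((sg0 T : ℝ) + t * I))) := by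
    intro t
    have h : (fun y : ℝ => cexp (t * y * I) * ((Real.exp (a * y) : ℂ) * HH true T β y)) =
        fun y : ℝ => ∑ n ∈ GT T, C1_c β n * (cexp (t * y * I) * ((Real.exp (a * y) : ℂ) *
          C1_k T (y + Real.log n))) := by
      funext y
      rw [C1_HHt, Finset.mul_sum, Finset.mul_sum]
      refine Finset.sum_congr rfl fun n _ => ?_
      ring
    have hzr : |((a : ℂ) + t * I).re| < 1 / 2 := by simpa using ha
    have hs : (1 / 2 + ((a : ℂ) + t * I)) = ((sg0 T : ℝ) : ℂ) + t * I := by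
      rw [hsg]
      push_cast
      ring
    rw [h, integral_finsetSum]
    · unfold DPo
      rw [Finset.mul_sum, Finset.mul_sum]
      refine Finset.sum_congr rfl fun n hn => ?_
      rw [integral_const_mul, C1_kterm, C1_kft hT hzr, hs]
      have hn1 : 1 ≤ n := (Finset.mem_Icc.1 hn).1
      have hn0 : (0 : ℝ) < n := by exact_mod_cast hn1
      rw [nC_apply _ (by omega)]
      have hc : C1_c β n * cexp (-(a + t * I) * (Real.log n : ℝ)) =
          (β n : ℂ) * (n : ℂ) ^ (-(((sg0 T : ℝ) : ℂ) + t * I)) := by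
        unfold C1_c
        have hnC : (n : ℂ) ≠ 0 := by exact_mod_cast hn0.ne'
        rw [Complex.cpow_def_of_ne_zero hnC, Real.rpow_def_of_pos hn0, ← hs]
        rw [← Complex.natCast_log]
        push_cast
        rw [mul_assoc, ← Complex.exp_add]
        congr 2
        ring
      calc C1_c β n * (cexp (-(a + t * I) * (Real.log n : ℝ)) *
            (cexp (-(ang T / 2) * I * (((sg0 T : ℝ) : ℂ) + t * I)) *
              fL T (((sg0 T : ℝ) : ℂ) + t * I)))
          = (C1_c β n * cexp (-(a + t * I) * (Real.log n : ℝ))) *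
            (cexp (-(ang T / 2) * I * (((sg0 T : ℝ) : ℂ) + t * I)) *
              fL T (((sg0 T : ℝ) : ℂ) + t * I)) := by ring
        _ = _ := by rw [hc]; ring
    · intro n _
      refine Integrable.const_mul ?_ _
      refine ((C1_kint_term hT1 ha (Real.log n)).bdd_mul (c := 1) ?_ ?_)
      · exact (by fun_prop : Continuous fun y : ℝ => cexp (t * y * I)).aestronglyMeasurable
      · refine Filter.Eventually.of_forall fun y => ?_
        have : (t * y * I : ℂ) = ((t * y : ℝ) : ℂ) * I := by push_cast; ring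
        rw [this, Complex.norm_exp_ofReal_mul_I]
  have hnexp : ∀ t : ℝ, ‖cexp (-(ang T / 2) * I * (1 / 2 + ((a : ℂ) + t * I)))‖ ^ 2 =
      Real.exp (ang T * t) := by
    intro t
    rw [Complex.norm_exp, ← Real.exp_nat_mul]
    congr 1
    simp
    ring
  have hpl := plancherel_le _ hf
  have h1 : ∀ t : ℝ, Real.exp (ang T * t) * ‖fL T ((sg0 T : ℝ) + t * I)‖ ^ 2 *
      ‖DPo T β (nC ((sg0 T : ℝ) + t * I))‖ ^ 2 =
      ‖∫ y : ℝ, cexp (t * y * I) * ((Real.exp (a * y) : ℂ) * HH true T β y)‖ ^ 2 := by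
    intro t
    rw [hft t, norm_mul, mul_pow, hnexp, norm_mul, mul_pow, mul_assoc]
  simp_rw [h1]
  refine hpl.trans ?_
  gcongr
  have h2 : ∀ y : ℝ, ‖(Real.exp (a * y) : ℂ) * HH true T β y‖ ^ 2 =
      Real.exp (2 * a * y) * ‖HH true T β y‖ ^ 2 := by
    intro y
    rw [norm_mul, mul_pow, Complex.norm_real, Real.norm_eq_abs, abs_of_pos (Real.exp_pos _),
      ← Real.exp_nat_mul]
    congr 2
    push_cast; ring
  simp_rw [h2]
  rw [← lintegral_add_compl _ (measurableSet_Ioi (a := y0))]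
  have hst : ∀ y : ℝ, -(2 * sgn true * (R0 / Real.log T) * y) = 2 * a * y := by
    intro y
    rw [haD]
    simp only [sgn, if_true]
    ring
  have hsf : ∀ y : ℝ, -(2 * sgn false * (R0 / Real.log T) * y) = 2 * a * (-y) := by
    intro y
    rw [haD]
    simp only [sgn, Bool.false_eq_true, if_false]
    ring
  simp_rw [hst, hsf]
  refine add_le_add le_rfl ?_
  rw [Set.compl_Ioi]
  have h3 : ∫⁻ y in Set.Iic y0, ENNReal.ofReal (Real.exp (2 * a * y) * ‖HH true T β y‖ ^ 2) =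
      ∫⁻ y in Set.Ici (-y0), ENNReal.ofReal (Real.exp (2 * a * (-y)) *
        ‖HH true T β (-y)‖ ^ 2) := by
    have hmp : MeasurePreserving (fun x : ℝ => -x) volume volume :=
      Measure.measurePreserving_neg volume
    have he : MeasurableEmbedding (fun x : ℝ => -x) := (MeasurableEquiv.neg ℝ).measurableEmbedding
    have := hmp.setLIntegral_comp_preimage_emb he
      (fun y => ENNReal.ofReal (Real.exp (2 * a * y) * ‖HH true T β y‖ ^ 2)) (Set.Iic y0)
    rw [← this]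
    congr 2
    ext x
    simp only [Set.mem_preimage, Set.mem_Iic, Set.mem_Ici]
    exact neg_le
  rw [h3, setLIntegral_congr Ioi_ae_eq_Ici.symm]
  refine lintegral_mono fun y => ?_
  rw [C1_neg hT1, norm_mul, norm_omh, one_mul, Complex.norm_conj]

end Pool.Agent.LB
end

section

/-! TASK G4. The Fourier transform of the weight. For `0 < σ`, `om T = e^{i ang}` (`Re om = sin(1/T) > 0`): `f(y) = 2 e^{σy} exp(-π e^{2y} om T)` has
 `∫ e^{ity} f(y) dy = 2 ∫_0^∞ x^{σ+it-1} exp(-π x² om) dx = (π om)^{-(σ+it)/2} Γ((σ+it)/2) = om^{-(σ+it)/2} Gammaℝ(σ+it)` (`Mellin1_gamma` with `a = (σ+it)/2`, substitution `x² = u`), and `‖om^{-(σ+it)/2}‖² = e^{ang t}`. So `Kw T t = ‖∫ e^{ity} f(y) dy‖²`, `σ = sg0 T`.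
`Kw_ft`: `f` is integrable and square integrable, Plancherel as an identity: `∫ Kw(t) e^{iut} dt = 2π ∫ f(y+u) conj f(y) dy`, hmm sign: by Fourier inversion (`f` and its transform are Schwartz-like: `Kw^{1/2}` decays exponentially, so the transform of `f` is integrable: `MeasureTheory.Integrable.fourierInv_fourier_eq`) : `∫ F(t) conj(F(t)) e^{iut} dt` with `F(t) = ∫ e^{ity} f(y) dy`: insert the conjugate of the integral for `conj F`, Fubini (`F` is integrable), and inversion `∫ F(t) e^{it(u-y)} dt = 2π f(y-u)`: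
 `= 2π ∫ conj(f(y)) f(y-u) dy = 8π e^{-σu} ∫ e^{2σy} exp(-π e^{2y}(conj om + e^{-2u} om)) dy = 4π e^{-σu} (π(conj om + e^{-2u} om))^{-σ} Γ(σ)` (`Mellin1_gamma`). For `u = 0`: `conj om + om = 2 sin(1/T)`: `Kt T`.
 Norm: `‖conj om + e^{-2u} om‖ ≥ |Im| = |1 - e^{-2u}| cos(1/T) ≥ |1 - e^{-2u}|/2`, and `e^{-σu}|1-e^{-2u}|^{-σ} = |e^u - e^{-u}|^{-σ} ≤ (2|u|)^{-σ}`; `Γ(σ) ≤ C` for `σ ∈ [2/5,1/2]`, `|u|^{-σ} ≤ 1 + 1/|u|`.
`Kt_bounds`: `1/(2T) ≤ sin(1/T) ≤ 1/T` (`sin_bounds`), `T^{sg0} = T^{1/2} e^{-6/5}`. `Kt_lim`: `(2π sin(1/T))^{-sg0 T}/√T → (2π)^{-1/2} e^{-6/5}`, `Γ(sg0 T) → Γ(1/2) = √π`. -/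

set_option autoImplicit false

namespace Pool.Agent.LB

open Complex MeasureTheory Finset Pool.Agent.GH Pool.Agent.UH Pool.Agent.UV
open scoped Real ComplexConjugate

/-! ### The Mellin transform of the Gaussian -/

private theorem G4_real {s b : ℝ} (hs : -1 < s) (hb : 0 < b) :
    IntegrableOn (fun x : ℝ => x ^ s * Real.exp (-(b * x))) (Set.Ioi 0) := by
  have := integrableOn_rpow_mul_exp_neg_mul_rpow (p := 1) hs one_pos hb
  refine this.congr_fun (fun x hx => ?_) measurableSet_Ioi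
  simp only [Real.rpow_one, neg_mul]

private theorem G4_meas (a r : ℂ) :
    AEStronglyMeasurable (fun t : ℝ => (t : ℂ) ^ (a - 1) * cexp (-(r * t)))
      (volume.restrict (Set.Ioi 0)) := by
  refine ContinuousOn.aestronglyMeasurable ?_ measurableSet_Ioi
  refine ContinuousOn.mul ?_ (by fun_prop)
  intro t ht
  have ht' : (t : ℂ) ∈ slitPlane := by
    rw [Complex.ofReal_mem_slitPlane]; exact ht
  exact ((continuousAt_id (x := (t : ℂ))).cpow continuousAt_const ht').comp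
    (f := fun t : ℝ => (t : ℂ)) (x := t) (Complex.continuous_ofReal.continuousAt)
    |>.continuousWithinAt

private theorem G4_norm (a r : ℂ) {t : ℝ} (ht : 0 < t) :
    ‖(t : ℂ) ^ (a - 1) * cexp (-(r * t))‖ = t ^ (a.re - 1) * Real.exp (-(r.re * t)) := by
  rw [norm_mul, Complex.norm_cpow_eq_rpow_re_of_pos ht, Complex.norm_exp]
  simp

private theorem G4_int {a r : ℂ} (ha : 0 < a.re) (hr : 0 < r.re) :
    IntegrableOn (fun t : ℝ => (t : ℂ) ^ (a - 1) * cexp (-(r * t))) (Set.Ioi 0) := by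
  refine Integrable.mono' (G4_real (s := a.re - 1) (by linarith) hr) (G4_meas a r) ?_
  refine (ae_restrict_iff' measurableSet_Ioi).mpr (Filter.Eventually.of_forall fun t ht => ?_)
  exact (G4_norm a r ht).le

private theorem G4_fun (r : ℂ) : (fun x : ℝ => cexp (-(r * (x : ℂ) ^ 2))) =
    fun t : ℝ => (fun u : ℝ => cexp (-(r * u))) (t ^ (2 : ℝ)) := by
  ext x
  simp only [Real.rpow_two, Complex.ofReal_pow]

private theorem G4_half (s : ℂ) : (s / ((2 : ℝ) : ℂ)).re = s.re / 2 := by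
  rw [Complex.div_ofReal_re]

private theorem G4_conv {r s : ℂ} (hr : 0 < r.re) (hs : 0 < s.re) :
    MellinConvergent (fun x : ℝ => cexp (-(r * (x : ℂ) ^ 2))) s := by
  rw [G4_fun, MellinConvergent.comp_rpow (f := fun u : ℝ => cexp (-(r * u))) (two_ne_zero)]
  exact G4_int (by rw [G4_half]; linarith) hr

private theorem G4_mellin {r s : ℂ} (hr : 0 < r.re) (hs : 0 < s.re) :
    mellin (fun x : ℝ => cexp (-(r * (x : ℂ) ^ 2))) s = 1 / 2 * (r ^ (-(s / 2)) * Complex.Gamma (s / 2)) := by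
  rw [G4_fun, mellin_comp_rpow (fun u : ℝ => cexp (-(r * u)))]
  have h1 := Mellin1_gamma (a := s / 2) (r := r) (by
    rw [show (s / 2) = s / ((2 : ℝ) : ℂ) by norm_num, G4_half]; linarith) hr
  have h2 : mellin (fun u : ℝ => cexp (-(r * u))) (s / ((2 : ℝ) : ℂ)) =
      r ^ (-(s / 2)) * Complex.Gamma (s / 2) := by
    rw [← h1]
    unfold mellin
    norm_num
  rw [h2]
  rw [Complex.real_smul]
  norm_num

private theorem G4_mul_cpow {z : ℂ} (hz : 0 < z.re) {x : ℝ} (hx : 0 < x) (a : ℂ) :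
    ((x : ℂ) * z) ^ a = (x : ℂ) ^ a * z ^ a := by
  have hz0 : z ≠ 0 := by
    rintro rfl
    simp at hz
  have hx0 : (x : ℂ) ≠ 0 := by exact_mod_cast hx.ne'
  rw [Complex.cpow_def_of_ne_zero (mul_ne_zero hx0 hz0), Complex.log_ofReal_mul hx hz0,
    Complex.cpow_def_of_ne_zero hx0, Complex.cpow_def_of_ne_zero hz0, ← Complex.exp_add,
    Complex.ofReal_log hx.le, add_mul]

/-! ### The function whose square is the weight -/

private theorem G4_T1 {T : ℝ} (hT : Real.exp 1000 ≤ T) : 1 ≤ T := by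
  have h := Real.add_one_le_exp (1000 : ℝ)
  linarith

private theorem G4_omre {T : ℝ} (hT : Real.exp 1000 ≤ T) : 0 < (om T).re := by
  rw [om_re]
  have h1 := (sin_bounds (G4_T1 hT)).1
  have : 0 < 1 / (2 * T) := by have := G4_T1 hT; positivity
  linarith

/-- the Mellin transform of `exp (-π om x²)` on the line, times `2` -/
private noncomputable def G4_A (T t : ℝ) : ℂ :=
  om T ^ (-(((sg0 T : ℝ) + t * I) / 2)) * Gammaℝ ((sg0 T : ℝ) + t * I)

private theorem G4_pim {T : ℝ} (hT : Real.exp 1000 ≤ T) : 0 < ((π : ℂ) * om T).re := by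
  rw [Complex.re_ofReal_mul]
  exact mul_pos Real.pi_pos (G4_omre hT)

private theorem G4_mA {T : ℝ} (hT : Real.exp 1000 ≤ T) (t : ℝ) :
    mellin (fun x : ℝ => cexp (-(((π : ℂ) * om T) * (x : ℂ) ^ 2))) ((sg0 T : ℝ) + t * I) =
      1 / 2 * G4_A T t := by
  have hσ := (sg0_mem hT).1
  rw [G4_mellin (G4_pim hT) (by simp; linarith), G4_mul_cpow (G4_omre hT) Real.pi_pos]
  unfold G4_A
  rw [Complex.Gammaℝ_def]
  rw [neg_div]
  ring

private theorem G4_omlog {T : ℝ} (hT : Real.exp 1000 ≤ T) : Complex.log (om T) = (ang T : ℂ) * I := by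
  have h1 := G4_T1 hT
  have h2 : 1 / T ≤ 1 := by rw [div_le_one (by linarith)]; exact h1
  have h3 : 0 ≤ 1 / T := by positivity
  have h4 := Real.pi_gt_three
  rw [one_div] at h2 h3
  unfold om
  rw [Complex.log_exp]
  · simp [ang]; linarith
  · simp [ang]; linarith

private theorem G4_om0 (T : ℝ) : om T ≠ 0 := by
  unfold om; exact Complex.exp_ne_zero _

private theorem G4_A_sq {T : ℝ} (hT : Real.exp 1000 ≤ T) (t : ℝ) : ‖G4_A T t‖ ^ 2 = Kw T t := by
  unfold G4_A Kw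
  rw [norm_mul, mul_pow, mul_comm]
  congr 1
  rw [Complex.cpow_def_of_ne_zero (G4_om0 T), G4_omlog hT, Complex.norm_exp, ← Real.exp_nat_mul]
  congr 1
  simp
  ring

private theorem G4_A_cont {T : ℝ} (hT : Real.exp 1000 ≤ T) : Continuous (G4_A T) := by
  have hσ := (sg0_mem hT).1
  unfold G4_A
  refine Continuous.mul ?_ ?_
  · exact Continuous.const_cpow (by fun_prop) (Or.inl (G4_om0 T))
  · rw [continuous_iff_continuousAt]
    intro t
    have hre : 0 < ((sg0 T : ℝ) + t * I : ℂ).re := by simp; linarith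
    have h0 := (Complex.differentiable_Gammaℝ_inv.continuous.continuousAt
      (x := ((sg0 T : ℝ) + t * I : ℂ))).inv₀ (inv_ne_zero (Complex.Gammaℝ_ne_zero_of_re_pos hre))
    have h1 : ContinuousAt Gammaℝ ((sg0 T : ℝ) + t * I) := by
      refine h0.congr (Filter.Eventually.of_forall fun s => ?_)
      show ((Gammaℝ s)⁻¹)⁻¹ = Gammaℝ s
      exact inv_inv _
    exact ContinuousAt.comp (f := fun t : ℝ => ((sg0 T : ℝ) + t * I : ℂ)) h1 (by fun_prop)

private theorem G4_expabs {q : ℝ} (hq : 0 < q) : Integrable (fun t : ℝ => Real.exp (-(q * |t|))) := by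
  have h1 : Integrable (fun t : ℝ => (1 + 2 / q ^ 2) * (1 + t ^ 2)⁻¹) :=
    integrable_inv_one_add_sq.const_mul _
  refine h1.mono' (by fun_prop) (Filter.Eventually.of_forall fun t => ?_)
  rw [Real.norm_of_nonneg (Real.exp_pos _).le, Real.exp_neg]
  have h2 : 0 ≤ q * |t| := by positivity
  have h3 := Real.quadratic_le_exp_of_nonneg h2
  have h4 : (0 : ℝ) < 1 + t ^ 2 := by positivity
  rw [← div_eq_mul_inv, inv_eq_one_div, div_le_div_iff₀ (Real.exp_pos _) h4, one_mul]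
  have h5 : (q * |t|) ^ 2 = q ^ 2 * t ^ 2 := by rw [mul_pow, sq_abs]
  have h6 : 1 + q ^ 2 * t ^ 2 / 2 ≤ Real.exp (q * |t|) := by
    rw [← h5]
    linarith
  have h7 : 1 ≤ Real.exp (q * |t|) := by
    have : 0 ≤ q ^ 2 * t ^ 2 / 2 := by positivity
    linarith
  have h8 : t ^ 2 ≤ 2 / q ^ 2 * Real.exp (q * |t|) := by
    have h9 : 2 / q ^ 2 * (q ^ 2 * t ^ 2 / 2) = t ^ 2 := by
      field_simp
    calc t ^ 2 = 2 / q ^ 2 * (q ^ 2 * t ^ 2 / 2) := h9.symm
      _ ≤ 2 / q ^ 2 * Real.exp (q * |t|) :=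
        mul_le_mul_of_nonneg_left (by linarith) (by positivity)
  linarith

private theorem G4_Kw_le : ∃ C : ℝ, 1 ≤ C ∧ ∀ T t : ℝ, Real.exp 1000 ≤ T →
    Kw T t ≤ C * Real.exp (-((1 / T) * |t|)) := by
  obtain ⟨C, hC, h⟩ := Kw_le
  refine ⟨C, hC, fun T t hT => (h T t hT).1.trans ?_⟩
  have h1 : (1 + |t|) ^ (-(1 / 2) : ℝ) ≤ 1 :=
    Real.rpow_le_one_of_one_le_of_nonpos (by linarith [abs_nonneg t]) (by norm_num)
  have h2 : (-(|t| / T)) = -((1 / T) * |t|) := by ring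
  rw [h2]
  have h3 := (Real.exp_pos (-((1 / T) * |t|))).le
  have h4 : C * (1 + |t|) ^ (-(1 / 2) : ℝ) ≤ C := mul_le_of_le_one_right (by linarith) h1
  exact mul_le_mul_of_nonneg_right h4 h3

private theorem G4_Kw_int {T : ℝ} (hT : Real.exp 1000 ≤ T) : Integrable (Kw T) := by
  obtain ⟨C, hC, h⟩ := G4_Kw_le
  have hT0 : 0 < T := by linarith [G4_T1 hT]
  refine Integrable.mono' ((G4_expabs (q := 1 / T) (by positivity)).const_mul C)
    (Kw_continuous hT).aestronglyMeasurable (Filter.Eventually.of_forall fun t => ?_)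
  rw [Real.norm_of_nonneg (Kw_pos hT t).le]
  exact h T t hT

private theorem G4_A_int {T : ℝ} (hT : Real.exp 1000 ≤ T) : Integrable (G4_A T) := by
  obtain ⟨C, hC, h⟩ := G4_Kw_le
  have hT0 : 0 < T := by linarith [G4_T1 hT]
  refine Integrable.mono' ((G4_expabs (q := 1 / (2 * T)) (by positivity)).const_mul C)
    (G4_A_cont hT).aestronglyMeasurable (Filter.Eventually.of_forall fun t => ?_)
  have h1 := h T t hT
  rw [← G4_A_sq hT t] at h1
  have h2 : (C * Real.exp (-(1 / (2 * T) * |t|))) ^ 2 = C ^ 2 * Real.exp (-((1 / T) * |t|)) := by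
    rw [mul_pow, ← Real.exp_nat_mul]
    congr 2
    push_cast
    field_simp
  have h3 : C * Real.exp (-((1 / T) * |t|)) ≤ C ^ 2 * Real.exp (-((1 / T) * |t|)) := by
    have := (Real.exp_pos (-((1 / T) * |t|))).le
    nlinarith
  refine abs_le_of_sq_le_sq' ?_ (by positivity) |>.2
  rw [h2]
  linarith

/-! ### Mellin inversion -/

private theorem G4_inv {T : ℝ} (hT : Real.exp 1000 ≤ T) {x : ℝ} (hx : 0 < x) :
    ∫ t : ℝ, (x : ℂ) ^ (-((sg0 T : ℂ) + t * I)) * G4_A T t =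
      4 * π * cexp (-(((π : ℂ) * om T) * (x : ℂ) ^ 2)) := by
  have hσ := (sg0_mem hT).1
  have h1 := mellinInv_mellin_eq (sg0 T) (fun x : ℝ => cexp (-(((π : ℂ) * om T) * (x : ℂ) ^ 2))) hx
    (G4_conv (G4_pim hT) (by simp; linarith)) (by
      have h2 := (G4_A_int hT).const_mul (1 / 2 : ℂ)
      refine h2.congr (Filter.Eventually.of_forall fun t => ?_)
      exact (G4_mA hT t).symm) (Continuous.continuousAt (by fun_prop))
  unfold mellinInv at h1
  have h3 : ∫ y : ℝ, (x : ℂ) ^ (-((sg0 T : ℂ) + y * I)) •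
      mellin (fun x : ℝ => cexp (-(((π : ℂ) * om T) * (x : ℂ) ^ 2))) ((sg0 T : ℂ) + y * I) =
      1 / 2 * ∫ t : ℝ, (x : ℂ) ^ (-((sg0 T : ℂ) + t * I)) * G4_A T t := by
    rw [← integral_const_mul]
    refine integral_congr_ae (Filter.Eventually.of_forall fun t => ?_)
    show _ • _ = _
    rw [G4_mA hT t, smul_eq_mul]
    ring
  rw [h3] at h1
  rw [← h1, Complex.real_smul]
  have hpi : (π : ℂ) ≠ 0 := by exact_mod_cast Real.pi_ne_zero
  generalize (∫ t : ℝ, (x : ℂ) ^ (-((sg0 T : ℂ) + t * I)) * G4_A T t) = J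
  push_cast
  field_simp
  norm_num

/-- the Gaussian -/
private noncomputable def G4_f (T x : ℝ) : ℂ := cexp (-(((π : ℂ) * om T) * (x : ℂ) ^ 2))

/-- the integrand of the Mellin transform at `σ` -/
private noncomputable def G4_h (T x : ℝ) : ℂ := (x : ℂ) ^ ((sg0 T : ℂ) - 1) * G4_f T x

private theorem G4_h_int {T : ℝ} (hT : Real.exp 1000 ≤ T) : IntegrableOn (G4_h T) (Set.Ioi 0) := by
  have hσ := (sg0_mem hT).1
  have h1 := G4_conv (s := (sg0 T : ℂ)) (G4_pim hT) (by simp; linarith)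
  exact h1

private theorem G4_cpow_log {x : ℝ} (hx : 0 < x) (a : ℂ) : (x : ℂ) ^ a = cexp ((Real.log x : ℝ) * a) := by
  rw [Complex.cpow_def_of_ne_zero (by exact_mod_cast hx.ne'), Complex.ofReal_log hx.le]

private theorem G4_conj_h {T : ℝ} (t : ℝ) {x : ℝ} (hx : 0 < x) :
    conj ((x : ℂ) ^ (((sg0 T : ℂ) + t * I) - 1) * G4_f T x) =
      cexp ((-(t * Real.log x) : ℝ) * I) * conj (G4_h T x) := by
  unfold G4_h
  rw [map_mul, map_mul, ← mul_assoc]
  congr 1
  rw [G4_cpow_log hx, G4_cpow_log hx, ← Complex.exp_conj, ← Complex.exp_conj, ← Complex.exp_add]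
  congr 1
  simp only [map_mul, map_sub, map_add, map_one, Complex.conj_ofReal, Complex.conj_I]
  push_cast
  ring

private theorem G4_conj_A {T : ℝ} (hT : Real.exp 1000 ≤ T) (t : ℝ) :
    conj (G4_A T t) = 2 * ∫ x : ℝ in Set.Ioi 0, cexp ((-(t * Real.log x) : ℝ) * I) * conj (G4_h T x) := by
  have h1 := G4_mA hT t
  have h2 : G4_A T t = 2 * mellin (fun x : ℝ => cexp (-(((π : ℂ) * om T) * (x : ℂ) ^ 2)))
      ((sg0 T : ℝ) + t * I) := by rw [h1]; ring
  rw [h2, map_mul]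
  have h3 : conj (2 : ℂ) = 2 := Complex.conj_ofNat 2
  rw [h3]
  congr 1
  unfold mellin
  rw [← integral_conj]
  refine setIntegral_congr_fun measurableSet_Ioi fun x hx => ?_
  exact G4_conj_h (T := T) t hx

private theorem G4_flip {μ : Measure ℝ} [SFinite μ] {f g : ℝ → ℂ} (hf : Integrable f) (hg : Integrable g μ) :
    ∫ t : ℝ, f t * ∫ x : ℝ, cexp ((-(t * Real.log x) : ℝ) * I) * g x ∂μ =
      ∫ x : ℝ, g x * (∫ t : ℝ, cexp ((-(t * Real.log x) : ℝ) * I) * f t) ∂μ := by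
  have hint : Integrable (Function.uncurry fun (t x : ℝ) => cexp ((-(t * Real.log x) : ℝ) * I) * (f t * g x))
      (volume.prod μ) := by
    have h1 := hf.mul_prod hg
    refine Integrable.bdd_mul (c := 1) h1 (Measurable.aestronglyMeasurable (by fun_prop))
      (ae_of_all _ fun z => (Complex.norm_exp_ofReal_mul_I _).le)
  calc ∫ t : ℝ, f t * ∫ x : ℝ, cexp ((-(t * Real.log x) : ℝ) * I) * g x ∂μ
      = ∫ t : ℝ, ∫ x : ℝ, cexp ((-(t * Real.log x) : ℝ) * I) * (f t * g x) ∂μ := by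
        congr 1
        ext t
        rw [← integral_const_mul]
        congr 1
        ext x
        ring
    _ = ∫ x : ℝ, (∫ t : ℝ, cexp ((-(t * Real.log x) : ℝ) * I) * (f t * g x)) ∂μ := integral_integral_swap hint
    _ = ∫ x : ℝ, g x * (∫ t : ℝ, cexp ((-(t * Real.log x) : ℝ) * I) * f t) ∂μ := by
        congr 1
        ext x
        rw [← integral_const_mul]
        congr 1
        ext t
        ring

private theorem G4_inner {T : ℝ} (hT : Real.exp 1000 ≤ T) (u : ℝ) {x : ℝ} (hx : 0 < x) :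
    ∫ t : ℝ, cexp ((-(t * Real.log x) : ℝ) * I) * (G4_A T t * cexp ((u * t : ℝ) * I)) =
      ((x * Real.exp (-u) : ℝ) : ℂ) ^ (sg0 T : ℂ) * (4 * π * G4_f T (x * Real.exp (-u))) := by
  have hx' : 0 < x * Real.exp (-u) := mul_pos hx (Real.exp_pos _)
  have h1 := G4_inv hT hx'
  unfold G4_f
  rw [← h1, ← integral_const_mul]
  refine integral_congr_ae (Filter.Eventually.of_forall fun t => ?_)
  beta_reduce
  rw [← mul_assoc (((x * Real.exp (-u) : ℝ) : ℂ) ^ (sg0 T : ℂ)), G4_cpow_log hx', G4_cpow_log hx', ← Complex.exp_add,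
    Real.log_mul hx.ne' (Real.exp_pos _).ne', Real.log_exp]
  rw [show cexp ((-(t * Real.log x) : ℝ) * I) * (G4_A T t * cexp ((u * t : ℝ) * I)) =
    (cexp ((-(t * Real.log x) : ℝ) * I) * cexp ((u * t : ℝ) * I)) * G4_A T t by ring, ← Complex.exp_add]
  congr 2
  push_cast
  ring

/-- the complex number in the Gaussian integral -/
private noncomputable def G4_r (T u : ℝ) : ℂ := conj (om T) + (Real.exp (-(2 * u)) : ℂ) * om T

private theorem G4_r_re {T : ℝ} (hT : Real.exp 1000 ≤ T) (u : ℝ) : 0 < (G4_r T u).re := by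
  unfold G4_r
  rw [Complex.add_re, Complex.conj_re, Complex.re_ofReal_mul]
  have h1 := G4_omre hT
  have h2 := mul_pos (Real.exp_pos (-(2 * u))) h1
  linarith

private theorem G4_main {T : ℝ} (hT : Real.exp 1000 ≤ T) (u : ℝ) :
    ∫ t : ℝ, (Kw T t : ℂ) * cexp ((u * t : ℝ) * I) =
      4 * π * (Real.exp (-(sg0 T * u)) : ℂ) * (((π : ℂ) * G4_r T u) ^ (-(sg0 T : ℂ)) * Complex.Gamma (sg0 T : ℂ)) := by
  have hσ := (sg0_mem hT).1
  have hσ0 : (sg0 T : ℂ) ≠ 0 := by
    have : sg0 T ≠ 0 := by linarith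
    exact_mod_cast this
  have h1 : ∀ t : ℝ, (Kw T t : ℂ) * cexp ((u * t : ℝ) * I) =
      2 * ((G4_A T t * cexp ((u * t : ℝ) * I)) *
        ∫ x : ℝ in Set.Ioi 0, cexp ((-(t * Real.log x) : ℝ) * I) * conj (G4_h T x)) := by
    intro t
    have h2 := G4_conj_A hT t
    have h3 : (Kw T t : ℂ) = G4_A T t * conj (G4_A T t) := by
      rw [Complex.mul_conj, ← G4_A_sq hT t, Complex.normSq_eq_norm_sq]
    rw [h3, h2]
    ring
  simp_rw [h1]
  rw [integral_const_mul]
  have hAi : Integrable fun t : ℝ => G4_A T t * cexp ((u * t : ℝ) * I) := by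
    have h4 := (G4_A_int hT)
    have h5 : Integrable fun t : ℝ => cexp ((u * t : ℝ) * I) * G4_A T t := by
      refine Integrable.bdd_mul (c := 1) h4 (Continuous.aestronglyMeasurable (by fun_prop))
        (ae_of_all _ fun z => (Complex.norm_exp_ofReal_mul_I _).le)
    refine h5.congr (Filter.Eventually.of_forall fun t => ?_)
    exact mul_comm _ _
  have hhi : Integrable (fun x => conj (G4_h T x)) (volume.restrict (Set.Ioi 0)) := by
    have := G4_h_int hT
    exact (Complex.conjCLE.toContinuousLinearMap.integrable_comp this)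
  rw [G4_flip hAi hhi]
  have h6 : ∫ x : ℝ in Set.Ioi 0, conj (G4_h T x) *
        (∫ t : ℝ, cexp ((-(t * Real.log x) : ℝ) * I) * (G4_A T t * cexp ((u * t : ℝ) * I))) =
      ∫ x : ℝ in Set.Ioi 0, (4 * π * (Real.exp (-(sg0 T * u)) : ℂ)) *
        ((x : ℂ) ^ ((2 * sg0 T : ℂ) - 1) • cexp (-(((π : ℂ) * G4_r T u) * (x : ℂ) ^ 2))) := by
    refine setIntegral_congr_fun measurableSet_Ioi fun x hx => ?_
    have hx : (0 : ℝ) < x := hx
    show _ * _ = _
    rw [G4_inner hT u hx]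
    have hx' : 0 < x * Real.exp (-u) := mul_pos hx (Real.exp_pos _)
    unfold G4_h G4_f
    rw [G4_cpow_log hx', G4_cpow_log hx, smul_eq_mul, map_mul, ← Complex.exp_conj, ← Complex.exp_conj,
      G4_cpow_log hx, Real.log_mul hx.ne' (Real.exp_pos _).ne', Real.log_exp]
    rw [show ∀ a b c d : ℂ, a * b * (c * (4 * π * d)) = 4 * π * (a * b * c * d) by intros; ring,
      show ∀ a b c : ℂ, 4 * π * a * (b * c) = 4 * π * (a * b * c) by intros; ring]
    congr 1
    rw [Complex.ofReal_exp, ← Complex.exp_add, ← Complex.exp_add, ← Complex.exp_add, ← Complex.exp_add,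
      ← Complex.exp_add]
    congr 1
    have h7 : (((x * Real.exp (-u) : ℝ) : ℂ)) ^ 2 = (x : ℂ) ^ 2 * (Real.exp (-(2 * u)) : ℂ) := by
      rw [Complex.ofReal_mul, mul_pow, ← Complex.ofReal_pow (Real.exp (-u)), ← Real.exp_nat_mul]
      congr 3
      push_cast
      ring
    rw [h7]
    unfold G4_r
    simp only [map_mul, map_sub, map_neg, map_one, map_pow, Complex.conj_ofReal]
    push_cast
    ring
  rw [h6, integral_const_mul]
  have h8 := G4_mellin (r := (π : ℂ) * G4_r T u) (s := 2 * sg0 T) (by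
    rw [Complex.re_ofReal_mul]; exact mul_pos Real.pi_pos (G4_r_re hT u)) (by simp; linarith)
  unfold mellin at h8
  rw [h8]
  rw [show -(2 * (sg0 T : ℂ) / 2) = -(sg0 T : ℂ) by ring, show (2 * (sg0 T : ℂ) / 2) = (sg0 T : ℂ) by ring]
  ring

private theorem G4_gam : ∃ c C : ℝ, 0 < c ∧ 1 ≤ C ∧ ∀ σ : ℝ, 2 / 5 ≤ σ → σ ≤ 1 / 2 →
    c ≤ Real.Gamma σ ∧ Real.Gamma σ ≤ C := by
  have hcont : ContinuousOn Real.Gamma (Set.Icc (2 / 5) (1 / 2)) := by
    intro x hx
    refine (Real.differentiableAt_Gamma fun m hm => ?_).continuousAt.continuousWithinAt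
    have h1 := hx.1
    have h2 : (0 : ℝ) ≤ m := Nat.cast_nonneg m
    linarith
  have hne : (Set.Icc (2 / 5 : ℝ) (1 / 2)).Nonempty := ⟨2 / 5, le_rfl, by norm_num⟩
  obtain ⟨x, hx, hmin⟩ := isCompact_Icc.exists_isMinOn hne hcont
  obtain ⟨y, hy, hmax⟩ := isCompact_Icc.exists_isMaxOn hne hcont
  refine ⟨Real.Gamma x, max 1 (Real.Gamma y), Real.Gamma_pos_of_pos (by linarith [hx.1]), le_max_left _ _,
    fun σ h1 h2 => ⟨hmin ⟨h1, h2⟩, (hmax ⟨h1, h2⟩ : _).trans (le_max_right _ _)⟩⟩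

private theorem G4_sin_pos {T : ℝ} (hT : Real.exp 1000 ≤ T) : 0 < Real.sin (1 / T) := by
  have := G4_omre hT
  rwa [om_re] at this

private theorem G4_rpow {T : ℝ} (hT : Real.exp 1000 ≤ T) :
    T ^ (sg0 T) = T ^ (1 / 2 : ℝ) * Real.exp (-(6 / 5)) := by
  have hT0 : 0 < T := by linarith [G4_T1 hT]
  have hlog : 0 < Real.log T := by
    have : (1000 : ℝ) ≤ Real.log T := by
      rw [Real.le_log_iff_exp_le hT0]; exact hT
    linarith
  rw [Real.rpow_def_of_pos hT0, Real.rpow_def_of_pos hT0, ← Real.exp_add]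
  congr 1
  unfold sg0 R0
  field_simp
  ring

theorem Kw_int {T : ℝ} (hT : Real.exp 1000 ≤ T) : Integrable (Kw T) ∧ ∫ t, Kw T t = Kt T := by
  refine ⟨G4_Kw_int hT, ?_⟩
  have h1 := G4_main hT 0
  have h2 : ∫ t : ℝ, (Kw T t : ℂ) * cexp (((0 : ℝ) * t : ℝ) * I) = ((∫ t, Kw T t : ℝ) : ℂ) := by
    rw [← integral_complex_ofReal]
    refine integral_congr_ae (Filter.Eventually.of_forall fun t => ?_)
    simp
  rw [h2] at h1
  have hs := G4_sin_pos hT
  have h3 : (π : ℂ) * G4_r T 0 = ((2 * π * Real.sin (1 / T) : ℝ) : ℂ) := by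
    unfold G4_r
    rw [mul_zero, neg_zero, Real.exp_zero, Complex.ofReal_one, one_mul, add_comm, Complex.add_conj, om_re]
    push_cast
    ring
  apply Complex.ofReal_injective
  rw [h1, h3, mul_zero, neg_zero, Real.exp_zero, Complex.Gamma_ofReal]
  unfold Kt
  rw [show (-(sg0 T : ℂ)) = ((-(sg0 T) : ℝ) : ℂ) by push_cast; rfl,
    ← Complex.ofReal_cpow (by positivity)]
  push_cast
  ring

theorem Kw_ft : ∃ C : ℝ, 1 ≤ C ∧ ∀ T u : ℝ, Real.exp 1000 ≤ T → u ≠ 0 →
    ‖∫ t : ℝ, (Kw T t : ℂ) * cexp ((u * t : ℝ) * I)‖ ≤ C * (1 + 1 / |u|) := by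
  obtain ⟨c, C, hc, hC, hΓ⟩ := G4_gam
  refine ⟨4 * π * C, ?_, fun T u hT hu => ?_⟩
  · have := Real.pi_gt_three
    nlinarith
  have hσ := sg0_mem hT
  have hσ0 : 0 < sg0 T := by linarith [hσ.1]
  rw [G4_main hT u]
  have hr := G4_r_re hT u
  have hr0 : G4_r T u ≠ 0 := by
    intro h0
    rw [h0] at hr
    simp at hr
  have hrn : 0 < ‖G4_r T u‖ := norm_pos_iff.2 hr0
  have hu0 : 0 < |u| := abs_pos.2 hu
  -- the lower bound
  have hlow : |u| ≤ Real.exp u * ‖G4_r T u‖ := by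
    have h1 : ‖(Real.exp u : ℂ) * G4_r T u‖ = Real.exp u * ‖G4_r T u‖ := by
      rw [norm_mul, Complex.norm_real, Real.norm_of_nonneg (Real.exp_pos u).le]
    rw [← h1]
    refine le_trans ?_ (Complex.abs_im_le_norm _)
    have h2 : ((Real.exp u : ℂ) * G4_r T u).im = (Real.exp (-u) - Real.exp u) * Real.cos (1 / T) := by
      unfold G4_r
      rw [Complex.im_ofReal_mul, Complex.add_im, Complex.conj_im, Complex.im_ofReal_mul, om_im]
      have h3 : Real.exp u * Real.exp (-(2 * u)) = Real.exp (-u) := by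
        rw [← Real.exp_add]; congr 1; ring
      rw [← h3]
      ring
    rw [h2, abs_mul]
    have hcos := (sin_bounds (G4_T1 hT)).2.2
    rw [abs_of_nonneg (by linarith : (0 : ℝ) ≤ Real.cos (1 / T))]
    have h4 : 2 * |u| ≤ |Real.exp (-u) - Real.exp u| := by
      have h5 : |Real.exp (-u) - Real.exp u| = 2 * |Real.sinh u| := by
        rw [Real.sinh_eq, abs_sub_comm, abs_div, abs_of_pos (two_pos : (0 : ℝ) < 2)]
        ring
      rw [h5, Real.abs_sinh]
      have h6 := Real.self_le_sinh_iff.2 (abs_nonneg u)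
      linarith
    have h7 : 0 ≤ |Real.exp (-u) - Real.exp u| := abs_nonneg _
    nlinarith
  have hpr : (π : ℂ) * G4_r T u ≠ 0 := mul_ne_zero (by exact_mod_cast Real.pi_ne_zero) hr0
  have h8 : ‖((π : ℂ) * G4_r T u) ^ (-(sg0 T : ℂ))‖ = (π * ‖G4_r T u‖) ^ (-(sg0 T)) := by
    rw [show (-(sg0 T : ℂ)) = ((-(sg0 T) : ℝ) : ℂ) by push_cast; rfl, Complex.norm_cpow_real, norm_mul,
      Complex.norm_real, Real.norm_of_nonneg Real.pi_pos.le]
  have h9 : ‖(Real.exp (-(sg0 T * u)) : ℂ)‖ = Real.exp u ^ (-(sg0 T)) := by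
    rw [Complex.norm_real, Real.norm_of_nonneg (Real.exp_pos _).le, ← Real.exp_mul]
    congr 1
    ring
  have h10 : ‖Complex.Gamma (sg0 T : ℂ)‖ = Real.Gamma (sg0 T) := by
    rw [Complex.Gamma_ofReal, Complex.norm_real, Real.norm_of_nonneg (Real.Gamma_pos_of_pos hσ0).le]
  have h11 : ‖(4 * π : ℂ)‖ = 4 * π := by
    rw [show (4 * π : ℂ) = ((4 * π : ℝ) : ℂ) by push_cast; rfl, Complex.norm_real,
      Real.norm_of_nonneg (by positivity)]
  rw [norm_mul, norm_mul, h11, h9, norm_mul, h8, h10]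
  have h12 : Real.exp u ^ (-(sg0 T)) * (π * ‖G4_r T u‖) ^ (-(sg0 T)) =
      π ^ (-(sg0 T)) * (Real.exp u * ‖G4_r T u‖) ^ (-(sg0 T)) := by
    rw [← Real.mul_rpow (Real.exp_pos u).le (by positivity), ← Real.mul_rpow Real.pi_pos.le (by positivity)]
    congr 1
    ring
  have h13 : π ^ (-(sg0 T)) ≤ 1 :=
    Real.rpow_le_one_of_one_le_of_nonpos (by linarith [Real.pi_gt_three]) (by linarith)
  have h14 : (Real.exp u * ‖G4_r T u‖) ^ (-(sg0 T)) ≤ |u| ^ (-(sg0 T)) :=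
    Real.rpow_le_rpow_of_nonpos hu0 hlow (by linarith)
  have h15 : |u| ^ (-(sg0 T)) ≤ 1 + 1 / |u| := by
    rcases le_total 1 |u| with h | h
    · have h16 : |u| ^ (-(sg0 T)) ≤ 1 := Real.rpow_le_one_of_one_le_of_nonpos h (by linarith)
      have : 0 ≤ 1 / |u| := by positivity
      linarith
    · have h16 : |u| ^ (-(sg0 T)) ≤ |u| ^ (-(1 : ℝ)) :=
        Real.rpow_le_rpow_of_exponent_ge hu0 h (by linarith [hσ.2])
      rw [Real.rpow_neg_one] at h16
      rw [one_div]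
      linarith
  have h17 : 0 ≤ (Real.exp u * ‖G4_r T u‖) ^ (-(sg0 T)) := by positivity
  have h18 : 0 ≤ π ^ (-(sg0 T)) := by positivity
  have h19 := (hΓ (sg0 T) hσ.1 hσ.2.le).2
  have h20 : 0 ≤ 1 + 1 / |u| := by positivity
  calc 4 * π * Real.exp u ^ (-(sg0 T)) * ((π * ‖G4_r T u‖) ^ (-(sg0 T)) * Real.Gamma (sg0 T))
      = 4 * π * (Real.exp u ^ (-(sg0 T)) * (π * ‖G4_r T u‖) ^ (-(sg0 T))) * Real.Gamma (sg0 T) := by ring
    _ = 4 * π * (π ^ (-(sg0 T)) * (Real.exp u * ‖G4_r T u‖) ^ (-(sg0 T))) * Real.Gamma (sg0 T) := by rw [h12]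
    _ ≤ 4 * π * (1 * (1 + 1 / |u|)) * C := by
        have := Real.Gamma_pos_of_pos hσ0
        gcongr
        exact h14.trans h15
    _ = 4 * π * C * (1 + 1 / |u|) := by ring

theorem Kt_bounds : ∃ c C : ℝ, 0 < c ∧ 1 ≤ C ∧ ∀ T : ℝ, Real.exp 1000 ≤ T →
    c * T ^ (1 / 2 : ℝ) ≤ Kt T ∧ Kt T ≤ C * T ^ (1 / 2 : ℝ) := by
  obtain ⟨c, C, hc, hC, hΓ⟩ := G4_gam
  refine ⟨4 * π * c * ((2 * π) ^ (-(1 / 2) : ℝ) * Real.exp (-(6 / 5))), 4 * π * C, by positivity, ?_,
    fun T hT => ?_⟩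
  · have := Real.pi_gt_three
    nlinarith
  have hσ := sg0_mem hT
  have hσ0 : 0 < sg0 T := by linarith [hσ.1]
  have hT1 := G4_T1 hT
  have hT0 : 0 < T := by linarith
  have hs := G4_sin_pos hT
  obtain ⟨hs1, hs2, -⟩ := sin_bounds hT1
  have hTσ := G4_rpow hT
  have hpi := Real.pi_gt_three
  have hg := hΓ (sg0 T) hσ.1 hσ.2.le
  have hexp : (0 : ℝ) < Real.exp (-(6 / 5)) := Real.exp_pos _
  unfold Kt
  constructor
  · have h1 : (2 * π) ^ (-(1 / 2) : ℝ) * (T ^ (1 / 2 : ℝ) * Real.exp (-(6 / 5))) ≤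
        (2 * π * Real.sin (1 / T)) ^ (-(sg0 T)) := by
      rw [← hTσ]
      have h2 : (2 * π * (1 / T)) ^ (-(sg0 T)) ≤ (2 * π * Real.sin (1 / T)) ^ (-(sg0 T)) := by
        refine Real.rpow_le_rpow_of_nonpos (by positivity) ?_ (by linarith)
        exact mul_le_mul_of_nonneg_left hs2 (by positivity)
      have h5 : (2 * π * (1 / T)) ^ (-(sg0 T)) = (2 * π) ^ (-(sg0 T)) * T ^ (sg0 T) := by
        rw [Real.mul_rpow (x := 2 * π) (y := 1 / T) (by positivity) (by positivity), one_div,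
          Real.inv_rpow hT0.le, Real.rpow_neg hT0.le (sg0 T), inv_inv]
      refine le_trans ?_ h2
      rw [h5]
      refine mul_le_mul_of_nonneg_right ?_ (by positivity)
      refine Real.rpow_le_rpow_of_exponent_le (by linarith) (by linarith [hσ.2])
    calc 4 * π * c * ((2 * π) ^ (-(1 / 2) : ℝ) * Real.exp (-(6 / 5))) * T ^ (1 / 2 : ℝ)
        = 4 * π * c * ((2 * π) ^ (-(1 / 2) : ℝ) * (T ^ (1 / 2 : ℝ) * Real.exp (-(6 / 5)))) := by ring
      _ ≤ 4 * π * Real.Gamma (sg0 T) * (2 * π * Real.sin (1 / T)) ^ (-(sg0 T)) := by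
          have := hg.1
          gcongr
  · have h1 : (2 * π * Real.sin (1 / T)) ^ (-(sg0 T)) ≤ T ^ (1 / 2 : ℝ) := by
      have h2 : (2 * π * Real.sin (1 / T)) ^ (-(sg0 T)) ≤ (1 / T) ^ (-(sg0 T)) := by
        refine Real.rpow_le_rpow_of_nonpos (by positivity) ?_ (by linarith)
        have h3 : 1 / (2 * T) = 1 / T * (1 / 2) := by field_simp
        rw [h3] at hs1
        have : 0 < 1 / T := by positivity
        nlinarith
      refine h2.trans ?_
      rw [one_div, Real.inv_rpow hT0.le, Real.rpow_neg hT0.le, inv_inv]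
      exact Real.rpow_le_rpow_of_exponent_le hT1 hσ.2.le
    have h6 := hg.2
    have h7 := Real.Gamma_pos_of_pos hσ0
    gcongr

theorem Kt_lim : Filter.Tendsto (fun T : ℝ => Kt T / T ^ (1 / 2 : ℝ)) Filter.atTop
    (nhds (2 * √2 * π * Real.exp (-(6 / 5)))) := by
  have hev : ∀ᶠ T : ℝ in Filter.atTop, Real.exp 1000 ≤ T := Filter.eventually_ge_atTop _
  have hsg : Filter.Tendsto sg0 Filter.atTop (nhds (1 / 2)) := by
    have h1 : Filter.Tendsto (fun T : ℝ => 1 / 2 - R0 / Real.log T) Filter.atTop (nhds (1 / 2 - 0)) := by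
      refine tendsto_const_nhds.sub ?_
      exact tendsto_const_nhds.div_atTop Real.tendsto_log_atTop
    rw [sub_zero] at h1
    exact h1
  have hsin : Filter.Tendsto (fun T : ℝ => T * Real.sin (1 / T)) Filter.atTop (nhds 1) := by
    have h1 : Filter.Tendsto (fun x : ℝ => Real.sin x / x) (nhdsWithin 0 {0}ᶜ) (nhds 1) := by
      have h2 := (Real.hasDerivAt_sin 0)
      rw [Real.cos_zero, hasDerivAt_iff_tendsto_slope_zero] at h2
      refine h2.congr fun x => ?_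
      rw [zero_add, Real.sin_zero, sub_zero, smul_eq_mul]
      rw [div_eq_inv_mul]
    have h3 : Filter.Tendsto (fun T : ℝ => 1 / T) Filter.atTop (nhdsWithin 0 {0}ᶜ) := by
      rw [tendsto_nhdsWithin_iff]
      refine ⟨tendsto_const_nhds.div_atTop Filter.tendsto_id, ?_⟩
      filter_upwards [Filter.eventually_gt_atTop (0 : ℝ)] with T hT
      simp only [Set.mem_compl_iff, Set.mem_singleton_iff]
      positivity
    refine (h1.comp h3).congr' ?_
    filter_upwards [Filter.eventually_gt_atTop (0 : ℝ)] with T hT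
    simp only [Function.comp_apply]
    field_simp
  have hΓ0 : ContinuousAt Real.Gamma (1 / 2) := by
    refine (Real.differentiableAt_Gamma fun m hm => ?_).continuousAt
    have h2 : (0 : ℝ) ≤ m := Nat.cast_nonneg m
    linarith
  have hΓ : Filter.Tendsto (fun T : ℝ => Real.Gamma (sg0 T)) Filter.atTop (nhds (Real.Gamma (1 / 2))) :=
    hΓ0.tendsto.comp hsg
  have hpow : Filter.Tendsto (fun T : ℝ => (2 * π * (T * Real.sin (1 / T))) ^ (-(sg0 T))) Filter.atTop
      (nhds ((2 * π * 1) ^ (-(1 / 2) : ℝ))) := by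
    refine Filter.Tendsto.rpow (tendsto_const_nhds.mul hsin) hsg.neg (Or.inl ?_)
    positivity
  have hlim := ((tendsto_const_nhds (x := 4 * π)).mul (hΓ.mul hpow)).mul
    (tendsto_const_nhds (x := Real.exp (-(6 / 5))))
  have hval : 4 * π * (Real.Gamma (1 / 2) * (2 * π * 1) ^ (-(1 / 2) : ℝ)) * Real.exp (-(6 / 5)) =
      2 * √2 * π * Real.exp (-(6 / 5)) := by
    congr 1
    rw [Real.Gamma_one_half_eq, mul_one, Real.rpow_neg (by positivity), ← Real.sqrt_eq_rpow,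
      Real.sqrt_mul (by norm_num) π]
    have h1 : √π ≠ 0 := (Real.sqrt_pos.2 Real.pi_pos).ne'
    have h2 : √2 ≠ 0 := (Real.sqrt_pos.2 two_pos).ne'
    field_simp
    rw [Real.sq_sqrt (by norm_num)]
    norm_num
  rw [hval] at hlim
  refine hlim.congr' ?_
  filter_upwards [hev] with T hT
  have hT0 : 0 < T := by linarith [G4_T1 hT]
  have hs := G4_sin_pos hT
  have hTσ := G4_rpow hT
  unfold Kt
  have h1 : (2 * π * (T * Real.sin (1 / T))) ^ (-(sg0 T)) =
      (2 * π * Real.sin (1 / T)) ^ (-(sg0 T)) * (T ^ (1 / 2 : ℝ) * Real.exp (-(6 / 5)))⁻¹ := by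
    rw [← hTσ, ← Real.rpow_neg hT0.le, ← Real.mul_rpow (by positivity) hT0.le]
    congr 1
    ring
  rw [h1]
  have h2 : T ^ (1 / 2 : ℝ) ≠ 0 := (Real.rpow_pos_of_pos hT0 _).ne'
  have h3 : Real.exp (-(6 / 5)) ≠ 0 := (Real.exp_pos _).ne'
  field_simp

end Pool.Agent.LB
end

section

/-! TASK L7. The double integral of the limit. `β(ξ) = bx b α ξ = β0 - 2πiξ`, `β0 = sgn b α + α + 1`, `Re β ≥ 1`. `1/(β(ξ1) + conj β(ξ2)) = ∫_0^∞ e^{-β(ξ1)x} conj(e^{-β(ξ2) x}) dx`; Fubini (`∫∫∫ ‖φφ‖ (1+|ξ1|)(1+|ξ2|) e^{-2x} < ∞`):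
 `∫∫ φ(ξ1) conj φ(ξ2) Gl = (1/2α) ∫_0^∞ |F(x)|² dx`, `F(x) = ∫ φ(ξ)(α + β(ξ)) e^{-β(ξ)x} dξ`. For `x ≥ 0`: `∫ φ(ξ) e^{-β(ξ)x} dξ = e^{-β0 x} ∫ φ e^{2πixξ} = e^{-sgn b α x} p(x)`, `p = pf c d` (`hF`); differentiate in `x > 0` (under the integral sign, moments of `φ` are finite): `∫ φ β e^{-βx} = -(e^{-sgn α x} p)'`. So `F(x) = e^{-sgn α x}((α + sgn α) p(x) - p'(x))` for `x > 0`.
`b = false`: `|F|² = e^{2αx} p'^2`. `b = true`: `|F|² = e^{-2αx}(2αp - p')²`, `(1/2α)∫_0^∞ = ∫ e^{-2αx}(2αp² - 2pp') + (1/2α)∫ e^{-2αx}p'^2 = p(0)² + (1/2α) ∫ e^{-2αx} p'^2` (`(e^{-2αx}p²)' = e^{-2αx}(2pp' - 2αp²)`). `p(0) = c`, `p = 0` for `x ≥ 9/20`. -/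

set_option autoImplicit false

namespace Pool.Agent.LB

open Complex MeasureTheory Finset Pool.Agent.GH Pool.Agent.UH Pool.Agent.UV
open scoped Real ComplexConjugate

/-- the real part of the exponent -/
private noncomputable def L7_b0 (b : Bool) (α : ℝ) : ℝ := sgn b * α + α + 1

private theorem L7_b0_ge (b : Bool) {α : ℝ} (hα : 0 < α) : 1 ≤ L7_b0 b α := by
  unfold L7_b0 sgn
  cases b
  · simp
  · simp
    linarith

private theorem L7_bx (b : Bool) (α ξ : ℝ) : bx b α ξ = ((L7_b0 b α : ℝ) : ℂ) - 2 * π * ξ * I := by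
  unfold bx L7_b0
  push_cast
  ring

private theorem L7_bx_re (b : Bool) (α ξ : ℝ) : (bx b α ξ).re = L7_b0 b α := by
  rw [L7_bx]
  simp

private theorem L7_bx_norm (b : Bool) {α : ℝ} (hα : 0 < α) (ξ : ℝ) :
    ‖(α : ℂ) + bx b α ξ‖ ≤ (α + L7_b0 b α + 2 * π) * (1 + |ξ|) := by
  have h1 := L7_b0_ge b hα
  have hpi := Real.pi_pos
  rw [L7_bx]
  have h2 : ‖(α : ℂ) + (((L7_b0 b α : ℝ) : ℂ) - 2 * π * ξ * I)‖ ≤ α + L7_b0 b α + 2 * π * |ξ| := by
    have e1 : (α : ℂ) + (((L7_b0 b α : ℝ) : ℂ) - 2 * π * ξ * I) =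
        ((α + L7_b0 b α : ℝ) : ℂ) - ((2 * π * ξ : ℝ) : ℂ) * I := by
      push_cast
      ring
    rw [e1]
    refine (norm_sub_le _ _).trans ?_
    rw [norm_mul, Complex.norm_I, mul_one, Complex.norm_real, Complex.norm_real, Real.norm_eq_abs,
      Real.norm_eq_abs, abs_of_nonneg (by linarith), abs_mul, abs_of_pos (by positivity)]
  refine h2.trans ?_
  have h3 := abs_nonneg ξ
  nlinarith

private theorem L7_bx_cont (b : Bool) (α : ℝ) : Continuous (fun ξ : ℝ => bx b α ξ) := by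
  unfold bx
  fun_prop

private theorem L7_den (b : Bool) {α : ℝ} (hα : 0 < α) (ξ1 ξ2 : ℝ) :
    2 ≤ (bx b α ξ1 + conj (bx b α ξ2)).re := by
  have h1 := L7_b0_ge b hα
  rw [Complex.add_re, Complex.conj_re, L7_bx_re, L7_bx_re]
  linarith

private theorem L7_den_ne (b : Bool) {α : ℝ} (hα : 0 < α) (ξ1 ξ2 : ℝ) :
    bx b α ξ1 + conj (bx b α ξ2) ≠ 0 := by
  intro h
  have h1 := L7_den b hα ξ1 ξ2
  rw [h] at h1
  simp at h1
  linarith

theorem Gl_le (b : Bool) {α : ℝ} (hα : 0 < α) : ∃ K : ℝ, 1 ≤ K ∧ ∀ ξ1 ξ2 : ℝ,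
    ‖Gl b α ξ1 ξ2‖ ≤ K * (1 + |ξ1|) * (1 + |ξ2|) := by
  refine ⟨1 + (α + L7_b0 b α + 2 * π) ^ 2 / (4 * α), ?_, ?_⟩
  · have : 0 ≤ (α + L7_b0 b α + 2 * π) ^ 2 / (4 * α) := by positivity
    linarith
  intro ξ1 ξ2
  have h1 := L7_bx_norm b hα ξ1
  have h2 := L7_bx_norm b hα ξ2
  have h3 := L7_den b hα ξ1 ξ2
  have hb := L7_b0_ge b hα
  have hpi := Real.pi_pos
  have h4 : 2 ≤ ‖bx b α ξ1 + conj (bx b α ξ2)‖ := h3.trans (Complex.re_le_norm _)
  have h5 : ‖(α : ℂ) + conj (bx b α ξ2)‖ = ‖(α : ℂ) + bx b α ξ2‖ := by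
    have : (α : ℂ) + conj (bx b α ξ2) = conj ((α : ℂ) + bx b α ξ2) := by
      rw [map_add, Complex.conj_ofReal]
    rw [this, Complex.norm_conj]
  unfold Gl
  rw [norm_div, norm_mul, h5, norm_mul, norm_mul, Complex.norm_real, Real.norm_eq_abs, abs_of_pos hα]
  have h6 : ‖(2:ℂ)‖ = 2 := by simp
  rw [h6]
  rw [div_le_iff₀ (by positivity)]
  have h7 : ‖(α : ℂ) + bx b α ξ1‖ * ‖(α : ℂ) + bx b α ξ2‖ ≤
      ((α + L7_b0 b α + 2 * π) * (1 + |ξ1|)) * ((α + L7_b0 b α + 2 * π) * (1 + |ξ2|)) :=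
    mul_le_mul h1 h2 (norm_nonneg _) (by positivity)
  refine h7.trans ?_
  have h8 : (α + L7_b0 b α + 2 * π) ^ 2 ≤
      (1 + (α + L7_b0 b α + 2 * π) ^ 2 / (4 * α)) * (4 * α) := by
    have : (1 + (α + L7_b0 b α + 2 * π) ^ 2 / (4 * α)) * (4 * α) =
        4 * α + (α + L7_b0 b α + 2 * π) ^ 2 := by
      field_simp
    rw [this]
    linarith
  have h9 : 4 * α ≤ 2 * α * ‖bx b α ξ1 + conj (bx b α ξ2)‖ := by nlinarith
  have h10 : 0 ≤ (1 + |ξ1|) * (1 + |ξ2|) := by positivity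
  have h11 : 0 ≤ 1 + (α + L7_b0 b α + 2 * π) ^ 2 / (4 * α) := by positivity
  have h12 := mul_le_mul_of_nonneg_left h9 h11
  have h13 := mul_le_mul_of_nonneg_right (h8.trans h12) h10
  calc ((α + L7_b0 b α + 2 * π) * (1 + |ξ1|)) * ((α + L7_b0 b α + 2 * π) * (1 + |ξ2|))
      = (α + L7_b0 b α + 2 * π) ^ 2 * ((1 + |ξ1|) * (1 + |ξ2|)) := by ring
    _ ≤ _ := h13
    _ = _ := by ring

theorem Gl_continuous (b : Bool) {α : ℝ} (hα : 0 < α) :
    Continuous (fun q : ℝ × ℝ => Gl b α q.1 q.2) := by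
  have h1 : Continuous (fun q : ℝ × ℝ => bx b α q.1) := (L7_bx_cont b α).comp continuous_fst
  have h2 : Continuous (fun q : ℝ × ℝ => bx b α q.2) := (L7_bx_cont b α).comp continuous_snd
  have h3 : Continuous (fun q : ℝ × ℝ => conj (bx b α q.2)) := Complex.continuous_conj.comp h2
  unfold Gl
  refine Continuous.div ((continuous_const.add h1).mul (continuous_const.add h3))
    (continuous_const.mul (h1.add h3)) ?_
  intro q
  have h4 := L7_den_ne b hα q.1 q.2
  have h5 : (2 * (α : ℂ)) ≠ 0 := by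
    have : (α : ℂ) ≠ 0 := by exact_mod_cast hα.ne'
    simpa using this
  exact mul_ne_zero h5 h4

private noncomputable def L7_H (b : Bool) (α : ℝ) (φ : ℝ → ℂ) (ξ x : ℝ) : ℂ :=
  φ ξ * (α + bx b α ξ) * cexp (-(bx b α ξ) * x)

private theorem L7_exp_norm (b : Bool) (α ξ x : ℝ) :
    ‖cexp (-(bx b α ξ) * x)‖ = Real.exp (-(L7_b0 b α * x)) := by
  rw [Complex.norm_exp]
  congr 1
  rw [Complex.mul_re, Complex.neg_re, L7_bx_re]
  simp

private theorem L7_exp_le (b : Bool) {α : ℝ} (hα : 0 < α) (ξ : ℝ) {x : ℝ} (hx : 0 ≤ x) :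
    ‖cexp (-(bx b α ξ) * x)‖ ≤ Real.exp (-x) := by
  rw [L7_exp_norm]
  apply Real.exp_le_exp.2
  have := L7_b0_ge b hα
  nlinarith

private theorem L7_H_norm (b : Bool) {α : ℝ} (hα : 0 < α) (φ : ℝ → ℂ) (ξ : ℝ) {x : ℝ} (hx : 0 ≤ x) :
    ‖L7_H b α φ ξ x‖ ≤ (α + L7_b0 b α + 2 * π) * ((1 + |ξ|) ^ 1 * ‖φ ξ‖) * Real.exp (-x) := by
  have hb := L7_b0_ge b hα
  have hpi := Real.pi_pos
  unfold L7_H
  rw [norm_mul, norm_mul]
  have h1 := L7_bx_norm b hα ξ
  have h2 := L7_exp_le b hα ξ hx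
  have h3 : ‖φ ξ‖ * ‖(α : ℂ) + bx b α ξ‖ ≤ ‖φ ξ‖ * ((α + L7_b0 b α + 2 * π) * (1 + |ξ|)) :=
    mul_le_mul_of_nonneg_left h1 (norm_nonneg _)
  have h4 := mul_le_mul h3 h2 (norm_nonneg _) (by positivity)
  calc ‖φ ξ‖ * ‖(α : ℂ) + bx b α ξ‖ * ‖cexp (-(bx b α ξ) * x)‖ ≤
      ‖φ ξ‖ * ((α + L7_b0 b α + 2 * π) * (1 + |ξ|)) * Real.exp (-x) := h4
    _ = _ := by ring

private theorem L7_H_cont (b : Bool) (α : ℝ) {φ : ℝ → ℂ} (hφ : Continuous φ) :
    Continuous (fun q : ℝ × ℝ => L7_H b α φ q.1 q.2) := by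
  unfold L7_H
  have h1 : Continuous (fun q : ℝ × ℝ => bx b α q.1) := (L7_bx_cont b α).comp continuous_fst
  have h2 : Continuous (fun q : ℝ × ℝ => φ q.1) := hφ.comp continuous_fst
  fun_prop

private theorem L7_G (b : Bool) {α : ℝ} {c d : ℝ} {φ : ℝ → ℂ}
    (hF : ∀ u : ℝ, 0 ≤ u → ((pf c d u : ℝ) : ℂ) =
      (Real.exp (-((α + 1) * u)) : ℂ) * ∫ ξ : ℝ, φ ξ * cexp (2 * π * u * ξ * I))
    {x : ℝ} (hx : 0 ≤ x) : ∫ ξ : ℝ, φ ξ * cexp (-(bx b α ξ) * x) =
      ((Real.exp (-(sgn b * α * x)) * pf c d x : ℝ) : ℂ) := by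
  have h1 : ∀ ξ : ℝ, φ ξ * cexp (-(bx b α ξ) * x) =
      ((Real.exp (-(L7_b0 b α * x)) : ℝ) : ℂ) * (φ ξ * cexp (2 * π * x * ξ * I)) := by
    intro ξ
    rw [L7_bx]
    have h2 : -(((L7_b0 b α : ℝ) : ℂ) - 2 * π * ξ * I) * x =
        ((-(L7_b0 b α * x) : ℝ) : ℂ) + 2 * π * x * ξ * I := by
      push_cast
      ring
    rw [h2, Complex.exp_add, Complex.ofReal_exp]
    ring
  simp only [h1]
  rw [integral_const_mul]
  have h3 : (∫ ξ : ℝ, φ ξ * cexp (2 * π * x * ξ * I)) =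
      ((Real.exp ((α + 1) * x) * pf c d x : ℝ) : ℂ) := by
    rw [Complex.ofReal_mul, hF x hx, ← mul_assoc, ← Complex.ofReal_mul, ← Real.exp_add]
    simp
  rw [h3, ← Complex.ofReal_mul]
  congr 1
  rw [← mul_assoc, ← Real.exp_add]
  congr 2
  unfold L7_b0
  ring

private theorem L7_int0 (b : Bool) {α : ℝ} (hα : 0 < α) {φ : ℝ → ℂ} (hφ : Continuous φ)
    (hφi : ∀ m : ℕ, Integrable (fun ξ : ℝ => (1 + |ξ|) ^ m * ‖φ ξ‖)) {x : ℝ} (hx : 0 ≤ x) :
    Integrable (fun ξ : ℝ => φ ξ * cexp (-(bx b α ξ) * x)) := by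
  refine (hφi 0).mono' ?_ (Filter.Eventually.of_forall fun ξ => ?_)
  · have h1 := L7_bx_cont b α
    exact Continuous.aestronglyMeasurable (by fun_prop)
  · rw [norm_mul]
    have h2 := L7_exp_le b hα ξ hx
    have h3 : Real.exp (-x) ≤ 1 := Real.exp_le_one_iff.2 (by linarith)
    have h4 := mul_le_mul_of_nonneg_left (h2.trans h3) (norm_nonneg (φ ξ))
    simp only [pow_zero, one_mul]
    linarith

private theorem L7_dG (b : Bool) {α : ℝ} (hα : 0 < α) {φ : ℝ → ℂ} (hφ : Continuous φ)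
    (hφi : ∀ m : ℕ, Integrable (fun ξ : ℝ => (1 + |ξ|) ^ m * ‖φ ξ‖)) {x : ℝ} (hx : 0 < x) :
    Integrable (fun ξ : ℝ => φ ξ * (-(bx b α ξ)) * cexp (-(bx b α ξ) * x)) ∧
    HasDerivAt (fun x : ℝ => ∫ ξ : ℝ, φ ξ * cexp (-(bx b α ξ) * x))
      (∫ ξ : ℝ, φ ξ * (-(bx b α ξ)) * cexp (-(bx b α ξ) * x)) x := by
  have hb := L7_b0_ge b hα
  have hpi := Real.pi_pos
  have h1 := L7_bx_cont b α
  have hs : Set.Ioi (0:ℝ) ∈ nhds x := Ioi_mem_nhds hx
  refine hasDerivAt_integral_of_dominated_loc_of_deriv_le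
    (F := fun (x : ℝ) (ξ : ℝ) => φ ξ * cexp (-(bx b α ξ) * x))
    (F' := fun (x : ℝ) (ξ : ℝ) => φ ξ * (-(bx b α ξ)) * cexp (-(bx b α ξ) * x))
    (bound := fun ξ => (L7_b0 b α + 2 * π) * ((1 + |ξ|) ^ 1 * ‖φ ξ‖)) hs ?_ ?_ ?_ ?_ ?_ ?_
  · exact Filter.Eventually.of_forall fun y => Continuous.aestronglyMeasurable (by fun_prop)
  · exact L7_int0 b hα hφ hφi hx.le
  · exact Continuous.aestronglyMeasurable (by fun_prop)
  · refine Filter.Eventually.of_forall fun ξ y hy => ?_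
    have hy0 : (0:ℝ) ≤ y := le_of_lt hy
    rw [norm_mul, norm_mul, norm_neg]
    have e1 : ‖bx b α ξ‖ ≤ (L7_b0 b α + 2 * π) * (1 + |ξ|) := by
      rw [L7_bx]
      have e2 : ((L7_b0 b α : ℝ) : ℂ) - 2 * π * ξ * I =
          ((L7_b0 b α : ℝ) : ℂ) - ((2 * π * ξ : ℝ) : ℂ) * I := by
        push_cast
        ring
      rw [e2]
      refine (norm_sub_le _ _).trans ?_
      rw [norm_mul, Complex.norm_I, mul_one, Complex.norm_real, Complex.norm_real,
        Real.norm_eq_abs, Real.norm_eq_abs, abs_of_nonneg (by linarith : 0 ≤ L7_b0 b α), abs_mul,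
        abs_of_pos (by positivity : (0:ℝ) < 2 * π)]
      have e3 := abs_nonneg ξ
      nlinarith
    have e4 := (L7_exp_le b hα ξ hy0).trans (Real.exp_le_one_iff.2 (by linarith))
    have e5 := mul_le_mul (mul_le_mul_of_nonneg_left e1 (norm_nonneg (φ ξ))) e4 (norm_nonneg _)
      (by positivity)
    refine e5.trans (le_of_eq ?_)
    ring
  · exact (hφi 1).const_mul _
  · refine Filter.Eventually.of_forall fun ξ y _ => ?_
    have e1 : HasDerivAt (fun y : ℝ => -(bx b α ξ) * (y : ℂ)) (-(bx b α ξ)) y := by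
      simpa using (Complex.ofRealCLM.hasDerivAt (x := y)).const_mul (-(bx b α ξ))
    have e2 := (e1.cexp).const_mul (φ ξ)
    refine e2.congr_deriv ?_
    ring

private theorem L7_Fx (b : Bool) {α : ℝ} (hα : 0 < α) {c d : ℝ} {φ : ℝ → ℂ} (hφ : Continuous φ)
    (hφi : ∀ m : ℕ, Integrable (fun ξ : ℝ => (1 + |ξ|) ^ m * ‖φ ξ‖))
    (hF : ∀ u : ℝ, 0 ≤ u → ((pf c d u : ℝ) : ℂ) =
      (Real.exp (-((α + 1) * u)) : ℂ) * ∫ ξ : ℝ, φ ξ * cexp (2 * π * u * ξ * I))
    {x : ℝ} (hx : 0 < x) : ∫ ξ : ℝ, L7_H b α φ ξ x =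
      ((Real.exp (-(sgn b * α * x)) * ((α + sgn b * α) * pf c d x - deriv (pf c d) x) : ℝ) : ℂ) := by
  obtain ⟨hi, hd⟩ := L7_dG b hα hφ hφi hx
  have hd2 : HasDerivAt (fun x : ℝ => ∫ ξ : ℝ, φ ξ * cexp (-(bx b α ξ) * x))
      ((Real.exp (-(sgn b * α * x)) * (-(sgn b * α)) * pf c d x +
        Real.exp (-(sgn b * α * x)) * deriv (pf c d) x : ℝ) : ℂ) x := by
    have e1 : HasDerivAt (fun x : ℝ => Real.exp (-(sgn b * α * x)) * pf c d x)
        (Real.exp (-(sgn b * α * x)) * (-(sgn b * α)) * pf c d x +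
        Real.exp (-(sgn b * α * x)) * deriv (pf c d) x) x := by
      have e2 : HasDerivAt (fun x : ℝ => -(sgn b * α * x)) (-(sgn b * α)) x := by
        simpa using ((hasDerivAt_id x).const_mul (sgn b * α)).fun_neg
      have e3 : HasDerivAt (pf c d) (deriv (pf c d) x) x :=
        ((pf_contDiff c d).differentiable (by simp)).differentiableAt.hasDerivAt
      exact e2.exp.mul e3
    refine HasDerivAt.congr_of_eventuallyEq e1.ofReal_comp ?_
    filter_upwards [Ioi_mem_nhds hx] with y hy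
    exact L7_G b hF (le_of_lt hy)
  have he := hd.unique hd2
  have hsplit : ∀ ξ : ℝ, L7_H b α φ ξ x = (α : ℂ) * (φ ξ * cexp (-(bx b α ξ) * x)) -
      φ ξ * (-(bx b α ξ)) * cexp (-(bx b α ξ) * x) := by
    intro ξ
    unfold L7_H
    ring
  simp only [hsplit]
  rw [integral_sub ((L7_int0 b hα hφ hφi hx.le).const_mul _) hi, integral_const_mul, he,
    L7_G b hF hx.le]
  push_cast
  ring

private theorem L7_two (b : Bool) {α : ℝ} (hα : 0 < α) (φ : ℝ → ℂ) (ξ1 ξ2 : ℝ) :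
    φ ξ1 * conj (φ ξ2) * Gl b α ξ1 ξ2 =
      (1 / (2 * α) : ℂ) * ∫ x in Set.Ioi (0:ℝ), L7_H b α φ ξ1 x * conj (L7_H b α φ ξ2 x) := by
  have hden := L7_den_ne b hα ξ1 ξ2
  have hα' : (α : ℂ) ≠ 0 := by exact_mod_cast hα.ne'
  have h1 : ∀ x : ℝ, L7_H b α φ ξ1 x * conj (L7_H b α φ ξ2 x) =
      (φ ξ1 * conj (φ ξ2) * ((α + bx b α ξ1) * (α + conj (bx b α ξ2)))) *
        cexp (-(bx b α ξ1 + conj (bx b α ξ2)) * x) := by
    intro x
    unfold L7_H
    simp only [map_mul, map_add, Complex.conj_ofReal, ← Complex.exp_conj, map_neg]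
    have : -(bx b α ξ1 + conj (bx b α ξ2)) * (x : ℂ) =
        -(bx b α ξ1) * x + -(conj (bx b α ξ2)) * x := by ring
    rw [this, Complex.exp_add]
    ring
  simp only [h1]
  rw [integral_const_mul, integral_exp_mul_complex_Ioi]
  · unfold Gl
    simp only [Complex.ofReal_zero, mul_zero, Complex.exp_zero]
    field_simp
  · rw [Complex.neg_re]
    have := L7_den b hα ξ1 ξ2
    linarith

private theorem L7_exp_int : Integrable (fun x : ℝ => Real.exp (-x)) (volume.restrict (Set.Ioi 0)) := by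
  have := integrableOn_exp_neg_Ioi 0
  exact this

private theorem L7_swap2 (b : Bool) {α : ℝ} (hα : 0 < α) {φ : ℝ → ℂ} (hφ : Continuous φ)
    (hφi : ∀ m : ℕ, Integrable (fun ξ : ℝ => (1 + |ξ|) ^ m * ‖φ ξ‖)) (ξ1 : ℝ) :
    ∫ ξ2 : ℝ, ∫ x in Set.Ioi (0:ℝ), L7_H b α φ ξ1 x * conj (L7_H b α φ ξ2 x) =
      ∫ x in Set.Ioi (0:ℝ), L7_H b α φ ξ1 x * conj (∫ ξ2 : ℝ, L7_H b α φ ξ2 x) := by
  have hb := L7_b0_ge b hα
  have hpi := Real.pi_pos
  obtain ⟨K, hK⟩ : ∃ K, K = α + L7_b0 b α + 2 * π := ⟨_, rfl⟩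
  have hK0 : 0 ≤ K := by rw [hK]; positivity
  have hcont : Continuous (fun q : ℝ × ℝ => L7_H b α φ q.1 q.2) := L7_H_cont b α hφ
  rw [integral_integral_swap]
  · apply integral_congr_ae
    refine Filter.Eventually.of_forall fun x => ?_
    simp only []
    rw [integral_const_mul, integral_conj]
  · have h1 : Integrable (fun q : ℝ × ℝ => (K * ((1 + |q.1|) ^ 1 * ‖φ q.1‖)) *
        ((K * ((1 + |ξ1|) ^ 1 * ‖φ ξ1‖)) * Real.exp (-q.2)))
        (volume.prod (volume.restrict (Set.Ioi (0:ℝ)))) :=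
      ((hφi 1).const_mul K).mul_prod (L7_exp_int.const_mul _)
    refine h1.mono' ?_ ?_
    · refine Continuous.aestronglyMeasurable ?_
      have e1 : Continuous (fun q : ℝ × ℝ => L7_H b α φ ξ1 q.2) :=
        hcont.comp (continuous_const.prodMk continuous_snd)
      exact e1.mul (Complex.continuous_conj.comp hcont)
    · have hae : ∀ᵐ q : ℝ × ℝ ∂(volume.prod (volume.restrict (Set.Ioi (0:ℝ)))), q.2 ∈ Set.Ioi (0:ℝ) := by
        have := Measure.quasiMeasurePreserving_snd (μ := (volume : Measure ℝ))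
          (ν := (volume.restrict (Set.Ioi (0:ℝ)) : Measure ℝ))
        exact this.ae (ae_restrict_mem measurableSet_Ioi)
      filter_upwards [hae] with q hq
      have hq0 : 0 ≤ q.2 := le_of_lt hq
      simp only [Function.uncurry]
      rw [norm_mul, Complex.norm_conj]
      have e1 := L7_H_norm b hα φ ξ1 hq0
      have e2 := L7_H_norm b hα φ q.1 hq0
      rw [← hK] at e1 e2
      have e3 : Real.exp (-q.2) ≤ 1 := Real.exp_le_one_iff.2 (by linarith)
      have e4 : K * ((1 + |q.1|) ^ 1 * ‖φ q.1‖) * Real.exp (-q.2) ≤ K * ((1 + |q.1|) ^ 1 * ‖φ q.1‖) :=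
        mul_le_of_le_one_right (by positivity) e3
      have e5 := mul_le_mul e1 (e2.trans e4) (norm_nonneg _) (by positivity)
      refine e5.trans (le_of_eq ?_)
      ring

private theorem L7_swap1 (b : Bool) {α : ℝ} (hα : 0 < α) {c d : ℝ} {φ : ℝ → ℂ} (hφ : Continuous φ)
    (hφi : ∀ m : ℕ, Integrable (fun ξ : ℝ => (1 + |ξ|) ^ m * ‖φ ξ‖))
    (hF : ∀ u : ℝ, 0 ≤ u → ((pf c d u : ℝ) : ℂ) =
      (Real.exp (-((α + 1) * u)) : ℂ) * ∫ ξ : ℝ, φ ξ * cexp (2 * π * u * ξ * I)) :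
    ∫ ξ1 : ℝ, ∫ x in Set.Ioi (0:ℝ), L7_H b α φ ξ1 x * conj (∫ ξ2 : ℝ, L7_H b α φ ξ2 x) =
      ∫ x in Set.Ioi (0:ℝ), (((Real.exp (-(sgn b * α * x)) *
        ((α + sgn b * α) * pf c d x - deriv (pf c d) x)) ^ 2 : ℝ) : ℂ) := by
  have hb := L7_b0_ge b hα
  have hpi := Real.pi_pos
  obtain ⟨K, hK⟩ : ∃ K, K = α + L7_b0 b α + 2 * π := ⟨_, rfl⟩
  have hK0 : 0 ≤ K := by rw [hK]; positivity
  have hcont : Continuous (fun q : ℝ × ℝ => L7_H b α φ q.1 q.2) := L7_H_cont b α hφ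
  obtain ⟨R, hR⟩ : ∃ R : ℝ → ℝ, R = fun x => Real.exp (-(sgn b * α * x)) *
        ((α + sgn b * α) * pf c d x - deriv (pf c d) x) := ⟨_, rfl⟩
  have hRc : Continuous R := by
    rw [hR]
    have e1 : Continuous (pf c d) := (pf_contDiff c d).continuous
    have e2 : Continuous (deriv (pf c d)) := (pf_contDiff c d).continuous_deriv (by simp)
    fun_prop
  have hFx : ∀ x ∈ Set.Ioi (0:ℝ), (∫ ξ : ℝ, L7_H b α φ ξ x) = ((R x : ℝ) : ℂ) := by
    intro x hx
    rw [hR]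
    exact L7_Fx b hα hφ hφi hF hx
  -- replace the inner integral
  have h0 : ∀ ξ1 : ℝ, (∫ x in Set.Ioi (0:ℝ), L7_H b α φ ξ1 x * conj (∫ ξ2 : ℝ, L7_H b α φ ξ2 x)) =
      ∫ x in Set.Ioi (0:ℝ), L7_H b α φ ξ1 x * ((R x : ℝ) : ℂ) := by
    intro ξ1
    apply setIntegral_congr_fun measurableSet_Ioi
    intro x hx
    simp only []
    rw [hFx x hx, Complex.conj_ofReal]
  simp only [h0]
  have hI1 : (∫ ξ : ℝ, (1 + |ξ|) ^ 1 * ‖φ ξ‖) = ∫ ξ : ℝ, (1 + |ξ|) ^ 1 * ‖φ ξ‖ := rfl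
  obtain ⟨N, hN⟩ : ∃ N, N = ∫ ξ : ℝ, K * ((1 + |ξ|) ^ 1 * ‖φ ξ‖) := ⟨_, rfl⟩
  have hN0 : 0 ≤ N := by
    rw [hN]
    exact integral_nonneg fun ξ => by positivity
  have hRle : ∀ x ∈ Set.Ioi (0:ℝ), |R x| ≤ N := by
    intro x hx
    have hx0 : (0:ℝ) ≤ x := le_of_lt hx
    have e1 : |R x| = ‖∫ ξ : ℝ, L7_H b α φ ξ x‖ := by
      rw [hFx x hx, Complex.norm_real, Real.norm_eq_abs]
    rw [e1, hN]
    refine norm_integral_le_of_norm_le ((hφi 1).const_mul K) (Filter.Eventually.of_forall fun ξ => ?_)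
    have e2 := L7_H_norm b hα φ ξ hx0
    rw [← hK] at e2
    refine e2.trans ?_
    exact mul_le_of_le_one_right (by positivity) (Real.exp_le_one_iff.2 (by linarith))
  rw [integral_integral_swap]
  · apply setIntegral_congr_fun measurableSet_Ioi
    intro x hx
    simp only []
    rw [integral_mul_const, hFx x hx, ← Complex.ofReal_mul]
    congr 1
    rw [hR]
    ring
  · have h1 : Integrable (fun q : ℝ × ℝ => (K * ((1 + |q.1|) ^ 1 * ‖φ q.1‖)) *
        (N * Real.exp (-q.2)))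
        (volume.prod (volume.restrict (Set.Ioi (0:ℝ)))) :=
      ((hφi 1).const_mul K).mul_prod (L7_exp_int.const_mul _)
    refine h1.mono' ?_ ?_
    · refine Continuous.aestronglyMeasurable ?_
      exact hcont.mul (Complex.continuous_ofReal.comp (hRc.comp continuous_snd))
    · have hae : ∀ᵐ q : ℝ × ℝ ∂(volume.prod (volume.restrict (Set.Ioi (0:ℝ)))), q.2 ∈ Set.Ioi (0:ℝ) := by
        have := Measure.quasiMeasurePreserving_snd (μ := (volume : Measure ℝ))
          (ν := (volume.restrict (Set.Ioi (0:ℝ)) : Measure ℝ))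
        exact this.ae (ae_restrict_mem measurableSet_Ioi)
      filter_upwards [hae] with q hq
      have hq0 : 0 ≤ q.2 := le_of_lt hq
      simp only [Function.uncurry]
      rw [norm_mul, Complex.norm_real, Real.norm_eq_abs]
      have e2 := L7_H_norm b hα φ q.1 hq0
      rw [← hK] at e2
      have e5 := mul_le_mul e2 (hRle q.2 hq) (abs_nonneg _) (by positivity)
      refine e5.trans (le_of_eq ?_)
      ring

private theorem L7_pf_zero (c d : ℝ) {x : ℝ} (hx : 9 / 20 ≤ x) :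
    pf c d x = 0 ∧ deriv (pf c d) x = 0 := by
  constructor
  · unfold pf
    rw [Pf_zero hx]
    ring
  · rw [pf_deriv, Pf_zero hx, (Pf_deriv x).deriv, rho_zero (Or.inr hx)]
    simp

private theorem L7_final (b : Bool) {α : ℝ} (hα : 0 < α) (c d : ℝ) :
    1 / (2 * α) * ∫ x in Set.Ioi (0:ℝ), (Real.exp (-(sgn b * α * x)) *
        ((α + sgn b * α) * pf c d x - deriv (pf c d) x)) ^ 2 = Xi b α c d := by
  have e1 : Continuous (pf c d) := (pf_contDiff c d).continuous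
  have e2 : Continuous (deriv (pf c d)) := (pf_contDiff c d).continuous_deriv (by simp)
  have hd : ∀ x, HasDerivAt (pf c d) (deriv (pf c d) x) x := fun x =>
    ((pf_contDiff c d).differentiable (by simp)).differentiableAt.hasDerivAt
  have h1 : (∫ x in Set.Ioi (0:ℝ), (Real.exp (-(sgn b * α * x)) *
        ((α + sgn b * α) * pf c d x - deriv (pf c d) x)) ^ 2) =
      ∫ x in (0:ℝ)..1, (Real.exp (-(sgn b * α * x)) *
        ((α + sgn b * α) * pf c d x - deriv (pf c d) x)) ^ 2 := by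
    rw [intervalIntegral.integral_of_le zero_le_one]
    refine (setIntegral_eq_of_subset_of_forall_diff_eq_zero measurableSet_Ioi
      (fun x hx => hx.1) ?_)
    intro x hx
    have hx1 : 1 < x := by
      by_contra h
      exact hx.2 ⟨hx.1, not_lt.1 h⟩
    obtain ⟨p0, p1⟩ := L7_pf_zero c d (x := x) (by linarith)
    rw [p0, p1]
    simp
  rw [h1]
  have hα2 : 2 * α ≠ 0 := by positivity
  unfold Xi
  cases b with
  | false =>
    simp only [sgn, Bool.false_eq_true, if_false, zero_add]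
    congr 1
    apply intervalIntegral.integral_congr
    intro x _
    simp only []
    rw [mul_pow, ← Real.exp_nat_mul]
    have e3 : ((2:ℕ):ℝ) * -(-1 * α * x) = -(2 * -1 * α * x) := by
      push_cast
      ring
    rw [e3]
    ring
  | true =>
    simp only [sgn, if_true]
    have hp0 : pf c d 0 = c := by
      unfold pf
      rw [Pf_one (by norm_num)]
      ring
    have hp1 : pf c d 1 = 0 := (L7_pf_zero c d (by norm_num)).1
    -- the antiderivative
    have hder : ∀ x, HasDerivAt (fun x => Real.exp (-(2 * 1 * α * x)) * pf c d x ^ 2)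
        (Real.exp (-(2 * 1 * α * x)) * (2 * pf c d x * deriv (pf c d) x - 2 * α * pf c d x ^ 2)) x := by
      intro x
      have e3 : HasDerivAt (fun x : ℝ => -(2 * 1 * α * x)) (-(2 * 1 * α)) x := by
        simpa using ((hasDerivAt_id x).const_mul (2 * 1 * α)).fun_neg
      have e4 := e3.exp.mul ((hd x).fun_pow 2)
      refine e4.congr_deriv ?_
      push_cast
      ring
    have hc1 : Continuous (fun x => Real.exp (-(2 * 1 * α * x)) *
        (2 * pf c d x * deriv (pf c d) x - 2 * α * pf c d x ^ 2)) := by fun_prop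
    have hc2 : Continuous (fun x => Real.exp (-(2 * 1 * α * x)) * deriv (pf c d) x ^ 2) := by fun_prop
    have h2 : (∫ x in (0:ℝ)..1, Real.exp (-(2 * 1 * α * x)) *
        (2 * pf c d x * deriv (pf c d) x - 2 * α * pf c d x ^ 2)) = -c ^ 2 := by
      rw [intervalIntegral.integral_eq_sub_of_hasDerivAt (fun x _ => hder x)
        (hc1.intervalIntegrable _ _), hp0, hp1]
      simp
    have h3 : (∫ x in (0:ℝ)..1, (Real.exp (-(1 * α * x)) *
        ((α + 1 * α) * pf c d x - deriv (pf c d) x)) ^ 2) =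
        (∫ x in (0:ℝ)..1, -(2 * α) * (Real.exp (-(2 * 1 * α * x)) *
          (2 * pf c d x * deriv (pf c d) x - 2 * α * pf c d x ^ 2)) +
          Real.exp (-(2 * 1 * α * x)) * deriv (pf c d) x ^ 2) := by
      apply intervalIntegral.integral_congr
      intro x _
      simp only []
      rw [mul_pow, ← Real.exp_nat_mul]
      have e3 : ((2:ℕ):ℝ) * -(1 * α * x) = -(2 * 1 * α * x) := by
        push_cast
        ring
      rw [e3]
      ring
    rw [h3, intervalIntegral.integral_add ((hc1.const_mul _).intervalIntegrable _ _)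
      (hc2.intervalIntegrable _ _), intervalIntegral.integral_const_mul, h2]
    field_simp

theorem Gl_int (b : Bool) {α : ℝ} (hα : 0 < α) (c d : ℝ) {φ : ℝ → ℂ} (hφ : Continuous φ)
    (hφi : ∀ m : ℕ, Integrable (fun ξ : ℝ => (1 + |ξ|) ^ m * ‖φ ξ‖))
    (hF : ∀ u : ℝ, 0 ≤ u → ((pf c d u : ℝ) : ℂ) =
      (Real.exp (-((α + 1) * u)) : ℂ) * ∫ ξ : ℝ, φ ξ * cexp (2 * π * u * ξ * I)) :
    ∫ ξ1 : ℝ, ∫ ξ2 : ℝ, φ ξ1 * conj (φ ξ2) * Gl b α ξ1 ξ2 = ((Xi b α c d : ℝ) : ℂ) := by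
  simp only [L7_two b hα φ, integral_const_mul]
  simp only [L7_swap2 b hα hφ hφi]
  rw [L7_swap1 b hα hφ hφi hF, integral_complex_ofReal, ← L7_final b hα c d]
  push_cast
  ring

end Pool.Agent.LB
end
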