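import Pool.Agent.Lib.MP_69b2e4_nt.Mg.G024
import Pool.Agent.Lib.MP_69b2e4_nt.Mg.G025
import Pool.Agent.Lib.MP_69b2e4_nt.Mg.G037
import Pool.Agent.Lib.MP_69b2e4_nt.LB.T1
import Pool.Agent.Lib.MP_69b2e4_nt.Mg.G028
import Pool.Agent.Lib.MP_69b2e4_nt.LB.G3

section

/-! TASK MA1. The total tilted mass. `RT S lam (nC (1/2+it)) = ∑ r(n) n^{-1/2-it}` (`rp_exists`), so `uu = ∑_{m,n} r(m) r(n) (mn)^{-1/2} (n/m)^{it}`; `ER = ∑ r(n)²/n` (`sum_sq`, `nX 0 w n = n^{-1/2} XX w n`).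
`∫ Kw uu = Kt ER + ∑_{m≠n} r(m) r(n)(mn)^{-1/2} ∫ Kw(t) (n/m)^{it} dt`, by `Kw_int`, `Kw_ft` with `|log(n/m)| ≥ 1/(2 T^{7θ³})`: the off-diagonal part is at most `(∑|r|)² C (1 + 2 T^{7θ³}) ≤ T^{1/10}` (`Rp.l1`, `7θ³ ≤ 7/10^6`), and `Kt ER ≥ c √T` (`Kt_bounds`, `ER_bounds`, `one_le_Lam`). -/

set_option autoImplicit false

namespace Pool.Agent.LB

open Complex MeasureTheory Finset Pool.Agent.GH Pool.Agent.UH Pool.Agent.UV
open scoped Real ComplexConjugate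

private theorem MA1_int {T : ℝ} (hT : Real.exp 1000 ≤ T) (u : ℝ) :
    Integrable (fun t : ℝ => (Kw T t : ℂ) * cexp ((u * t : ℝ) * I)) := by
  have h1 := (Kw_int hT).1.ofReal (𝕜 := ℂ)
  refine h1.mono (h1.aestronglyMeasurable.mul ?_) (Filter.Eventually.of_forall fun t => ?_)
  · exact (by fun_prop : Continuous fun t : ℝ => cexp ((u * t : ℝ) * I)).aestronglyMeasurable
  · rw [norm_mul, Complex.norm_exp_ofReal_mul_I, mul_one]
    exact le_rfl

private theorem MA1_term (r : ℕ → ℝ) {n : ℕ} (hn : n ≠ 0) (t : ℝ) :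
    (r n : ℂ) * nC (1 / 2 + t * I) n =
      ((r n * (n : ℝ) ^ (-(1 / 2) : ℝ) : ℝ) : ℂ) * cexp ((-(Real.log n * t) : ℝ) * I) := by
  have hn0 : (n : ℂ) ≠ 0 := by exact_mod_cast hn
  have hnr : (0 : ℝ) < n := by exact_mod_cast Nat.pos_of_ne_zero hn
  rw [nC_apply _ hn, Complex.cpow_def_of_ne_zero hn0, ← Complex.natCast_log,
    Real.rpow_def_of_pos hnr, Complex.ofReal_mul, Complex.ofReal_exp, mul_assoc,
    ← Complex.exp_add]
  congr 2
  push_cast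
  ring

private theorem MA1_gap {m n : ℕ} (hm : m ≠ 0) (h : m < n) :
    1 / (n : ℝ) ≤ Real.log n - Real.log m := by
  have hmr : (0 : ℝ) < m := by exact_mod_cast Nat.pos_of_ne_zero hm
  have hnr : (0 : ℝ) < n := hmr.trans (by exact_mod_cast h)
  have h1 : (m : ℝ) + 1 ≤ n := by exact_mod_cast h
  have h2 := Real.one_sub_inv_le_log_of_pos (div_pos hnr hmr)
  rw [Real.log_div hnr.ne' hmr.ne'] at h2
  refine le_trans ?_ h2
  rw [inv_div, div_le_iff₀ hnr]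
  have : (1 - (m : ℝ) / n) * n = n - m := by field_simp
  rw [this]
  linarith

private theorem MA1_gap' {m n : ℕ} {Q : ℝ} (hm : m ≠ 0) (hn : n ≠ 0) (hmn : m ≠ n) (hmQ : (m : ℝ) ≤ Q)
    (hnQ : (n : ℝ) ≤ Q) : 1 / |Real.log n - Real.log m| ≤ Q := by
  have hmr : (0 : ℝ) < m := by exact_mod_cast Nat.pos_of_ne_zero hm
  have hnr : (0 : ℝ) < n := by exact_mod_cast Nat.pos_of_ne_zero hn
  have key : ∀ k : ℕ, 0 < (k : ℝ) → (k : ℝ) ≤ Q → 1 / (k : ℝ) ≤ |Real.log n - Real.log m| →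
      1 / |Real.log n - Real.log m| ≤ Q := by
    intro k hk hkQ h
    have h1 : 0 < 1 / (k : ℝ) := by positivity
    calc 1 / |Real.log n - Real.log m| ≤ 1 / (1 / (k : ℝ)) := one_div_le_one_div_of_le h1 h
      _ = k := by rw [one_div_one_div]
      _ ≤ Q := hkQ
  rcases lt_or_gt_of_ne hmn with h | h
  · exact key n hnr hnQ ((MA1_gap hm h).trans (le_abs_self _))
  · have h2 := MA1_gap hn h
    exact key m hmr hmQ (h2.trans ((le_abs_self _).trans (le_of_eq (abs_sub_comm _ _))))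

private theorem MA1_expand {S : BS} {θ lam : ℝ} {r : ℕ → ℝ} (hr : Rp S lam θ r) (t : ℝ) :
    ((Kw S.T t * uu S lam t : ℝ) : ℂ) =
      ∑ m ∈ Finset.Icc 1 ⌊S.T ^ (1 / 100 : ℝ)⌋₊, ∑ n ∈ Finset.Icc 1 ⌊S.T ^ (1 / 100 : ℝ)⌋₊,
        ((r m * (m : ℝ) ^ (-(1 / 2) : ℝ) * (r n * (n : ℝ) ^ (-(1 / 2) : ℝ)) : ℝ) : ℂ) *
          ((Kw S.T t : ℂ) * cexp (((Real.log n - Real.log m) * t : ℝ) * I)) := by
  have h1 : RT S lam (nC (1 / 2 + t * I)) = ∑ n ∈ Finset.Icc 1 ⌊S.T ^ (1 / 100 : ℝ)⌋₊,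
      ((r n * (n : ℝ) ^ (-(1 / 2) : ℝ) : ℝ) : ℂ) * cexp ((-(Real.log n * t) : ℝ) * I) := by
    rw [hr.eq]
    refine Finset.sum_congr rfl fun n hn => ?_
    exact MA1_term r (by have := (Finset.mem_Icc.1 hn).1; omega) t
  have h2 : ((uu S lam t : ℝ) : ℂ) =
      ∑ m ∈ Finset.Icc 1 ⌊S.T ^ (1 / 100 : ℝ)⌋₊, ∑ n ∈ Finset.Icc 1 ⌊S.T ^ (1 / 100 : ℝ)⌋₊,
        ((r m * (m : ℝ) ^ (-(1 / 2) : ℝ) * (r n * (n : ℝ) ^ (-(1 / 2) : ℝ)) : ℝ) : ℂ) *
          cexp (((Real.log n - Real.log m) * t : ℝ) * I) := by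
    unfold uu
    rw [Complex.ofReal_pow, ← Complex.mul_conj', h1, map_sum, Finset.sum_mul_sum]
    refine Finset.sum_congr rfl fun m _ => Finset.sum_congr rfl fun n _ => ?_
    rw [map_mul, Complex.conj_ofReal, ← Complex.exp_conj, map_mul, Complex.conj_ofReal,
      Complex.conj_I, mul_mul_mul_comm, ← Complex.exp_add, ← Complex.ofReal_mul]
    congr 2
    push_cast
    ring
  rw [Complex.ofReal_mul, h2, Finset.mul_sum]
  refine Finset.sum_congr rfl fun m _ => ?_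
  rw [Finset.mul_sum]
  refine Finset.sum_congr rfl fun n _ => ?_
  ring

private theorem MA1_ER {S : BS} {θ lam : ℝ} {r : ℕ → ℝ} (hr : Rp S lam θ r) :
    ER S lam = ∑ n ∈ Finset.Icc 1 ⌊S.T ^ (1 / 100 : ℝ)⌋₊,
      (r n * (n : ℝ) ^ (-(1 / 2) : ℝ)) * (r n * (n : ℝ) ^ (-(1 / 2) : ℝ)) := by
  have h1 : ER S lam = ∫ w, ‖∑ n ∈ Finset.Icc 1 ⌊S.T ^ (1 / 100 : ℝ)⌋₊,
      ((r n : ℂ) * (n : ℂ) ^ (-(1 / 2 + (0 : ℂ)))) * XX w n‖ ^ 2 ∂mu := by
    unfold ER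
    refine integral_congr_ae (Filter.Eventually.of_forall fun w => ?_)
    simp only
    rw [hr.eq]
    congr 2
    refine Finset.sum_congr rfl fun n hn => ?_
    rw [nX_apply 0 w (by have := (Finset.mem_Icc.1 hn).1; omega), mul_assoc]
  rw [h1, sum_sq _ (fun n hn => by have := (Finset.mem_Icc.1 hn).1; omega)]
  refine Finset.sum_congr rfl fun n hn => ?_
  have hn1 : 1 ≤ n := (Finset.mem_Icc.1 hn).1
  rw [norm_mul, Complex.norm_real, Complex.norm_natCast_cpow_of_pos (by omega), Real.norm_eq_abs,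
    mul_pow, sq_abs]
  have e1 : (-(1 / 2 + (0 : ℂ))).re = -(1 / 2) := by simp
  rw [e1]
  ring

theorem mass_total (lam : ℝ) (h0 : 0 < lam) : ∃ C0 : ℝ, ∀ {Ct θ D1 : ℝ} {N0 : ℕ}, C0 ≤ Ct →
    ∃ T0 : ℝ, ∀ {S : BS}, TG S Ct θ D1 N0 → T0 ≤ S.T →
    ENNReal.ofReal (99 / 100 * (Kt S.T * ER S lam)) ≤
      ∫⁻ t : ℝ, ENNReal.ofReal (Kw S.T t * uu S lam t) := by
  obtain ⟨C1, c2, K2, hc2, hK2, hER⟩ := ER_bounds lam h0
  obtain ⟨C, hC1, hC⟩ := Kw_ft
  obtain ⟨c1, C3, hc1, hC3, hKt⟩ := Kt_bounds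
  refine ⟨max C1 lam, fun {Ct θ D1 N0} hCt => ⟨(200 * C / (c1 * c2)) ^ 4, fun {S} hS hT0 => ?_⟩⟩
  have hCt1 : C1 ≤ Ct := (le_max_left _ _).trans hCt
  have hCt2 : lam ≤ Ct := (le_max_right _ _).trans hCt
  have hT := hS.T_ge
  have hT1 : 1 ≤ S.T := by
    have := Real.add_one_le_exp (1000 : ℝ)
    linarith
  have hTpos : 0 < S.T := by linarith
  obtain ⟨r, hr⟩ := rp_exists hS (lam := lam) (by rw [abs_of_pos h0]; exact hCt2)
  obtain ⟨F, hF⟩ : ∃ F : Finset ℕ, F = Finset.Icc 1 ⌊S.T ^ (1 / 100 : ℝ)⌋₊ := ⟨_, rfl⟩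
  obtain ⟨a, ha⟩ : ∃ a : ℕ → ℝ, a = fun n : ℕ => r n * (n : ℝ) ^ (-(1 / 2) : ℝ) := ⟨_, rfl⟩
  have hexp : ∀ t, ((Kw S.T t * uu S lam t : ℝ) : ℂ) = ∑ m ∈ F, ∑ n ∈ F, ((a m * a n : ℝ) : ℂ) *
      ((Kw S.T t : ℂ) * cexp (((Real.log n - Real.log m) * t : ℝ) * I)) := by
    intro t
    rw [MA1_expand hr t, hF, ha]
  have hERa : ER S lam = ∑ n ∈ F, a n * a n := by
    rw [MA1_ER hr, hF, ha]
  have hintC : Integrable (fun t : ℝ => ((Kw S.T t * uu S lam t : ℝ) : ℂ)) := by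
    have e : (fun t : ℝ => ((Kw S.T t * uu S lam t : ℝ) : ℂ)) = fun t => ∑ m ∈ F, ∑ n ∈ F,
        ((a m * a n : ℝ) : ℂ) * ((Kw S.T t : ℂ) * cexp (((Real.log n - Real.log m) * t : ℝ) * I)) := by
      funext t; exact hexp t
    rw [e]
    refine integrable_finsetSum _ fun m _ => integrable_finsetSum _ fun n _ => ?_
    exact (MA1_int hT _).const_mul _
  have hint : Integrable (fun t : ℝ => Kw S.T t * uu S lam t) := by
    have := hintC.re
    simpa using this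
  have hI : ((∫ t, Kw S.T t * uu S lam t : ℝ) : ℂ) = ∑ m ∈ F, ∑ n ∈ F, ((a m * a n : ℝ) : ℂ) *
      ∫ t : ℝ, (Kw S.T t : ℂ) * cexp (((Real.log n - Real.log m) * t : ℝ) * I) := by
    rw [← integral_complex_ofReal]
    rw [integral_congr_ae (Filter.Eventually.of_forall fun t => hexp t)]
    rw [integral_finsetSum _ fun m _ => integrable_finsetSum _ fun n _ =>
      (MA1_int hT _).const_mul _]
    refine Finset.sum_congr rfl fun m _ => ?_
    rw [integral_finsetSum _ fun n _ => (MA1_int hT _).const_mul _]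
    refine Finset.sum_congr rfl fun n _ => ?_
    rw [integral_const_mul]
  have hKE : ((Kt S.T * ER S lam : ℝ) : ℂ) = ∑ m ∈ F, ∑ n ∈ F,
      if m = n then ((a m * a n : ℝ) : ℂ) * (Kt S.T : ℂ) else 0 := by
    rw [hERa, Finset.mul_sum, Complex.ofReal_sum]
    refine Finset.sum_congr rfl fun m hm => ?_
    rw [Finset.sum_ite_eq, if_pos hm]
    push_cast
    ring
  -- the size of the support
  have hθ : 7 * θ ^ 3 ≤ 1 / 100 := by
    have h1 := hS.th_pos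
    have h2 := hS.th_le
    have h3 : θ ^ 3 ≤ (1 / 100) ^ 3 := pow_le_pow_left₀ h1.le h2 3
    norm_num at h3
    linarith
  have hQ : S.T ^ (7 * θ ^ 3) ≤ S.T ^ (1 / 100 : ℝ) := Real.rpow_le_rpow_of_exponent_le hT1 hθ
  have hQ1 : 1 ≤ S.T ^ (1 / 100 : ℝ) := Real.one_le_rpow hT1 (by norm_num)
  have haS : ∀ n, a n ≠ 0 → n ≠ 0 ∧ (n : ℝ) ≤ S.T ^ (1 / 100 : ℝ) := by
    intro n hn
    have hrn : r n ≠ 0 := by
      intro h
      apply hn
      rw [ha]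
      simp only
      rw [h, zero_mul]
    exact ⟨(hr.supp n hrn).1, (hr.supp n hrn).2.trans hQ⟩
  have hal1 : ∑ n ∈ F, |a n| ≤ S.T ^ (1 / 100 : ℝ) := by
    refine le_trans ?_ (hr.l1.trans hQ)
    rw [hF]
    refine Finset.sum_le_sum fun n hn => ?_
    have hn1 : 1 ≤ n := (Finset.mem_Icc.1 hn).1
    have hn1r : (1 : ℝ) ≤ n := by exact_mod_cast hn1
    rw [ha]
    simp only
    rw [abs_mul, abs_of_nonneg (by positivity : (0 : ℝ) ≤ (n : ℝ) ^ (-(1 / 2) : ℝ))]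
    have h1 : (n : ℝ) ^ (-(1 / 2) : ℝ) ≤ 1 := Real.rpow_le_one_of_one_le_of_nonpos hn1r (by norm_num)
    calc |r n| * (n : ℝ) ^ (-(1 / 2) : ℝ) ≤ |r n| * 1 := mul_le_mul_of_nonneg_left h1 (abs_nonneg _)
      _ = |r n| := mul_one _
  have hdiff : ‖((∫ t, Kw S.T t * uu S lam t : ℝ) : ℂ) - ((Kt S.T * ER S lam : ℝ) : ℂ)‖ ≤
      (2 * C * S.T ^ (1 / 100 : ℝ)) * (S.T ^ (1 / 100 : ℝ) * S.T ^ (1 / 100 : ℝ)) := by
    rw [hI, hKE, ← Finset.sum_sub_distrib]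
    have hterm : ∀ m ∈ F, ∀ n ∈ F, ‖((a m * a n : ℝ) : ℂ) *
        (∫ t : ℝ, (Kw S.T t : ℂ) * cexp (((Real.log n - Real.log m) * t : ℝ) * I)) -
        (if m = n then ((a m * a n : ℝ) : ℂ) * (Kt S.T : ℂ) else 0)‖ ≤
        (2 * C * S.T ^ (1 / 100 : ℝ)) * (|a m| * |a n|) := by
      intro m _ n _
      rcases eq_or_ne m n with hmn | hmn
      · subst hmn
        rw [if_pos rfl, sub_self]
        have e1 : (∫ t : ℝ, (Kw S.T t : ℂ) * cexp (((0 : ℝ) * t : ℝ) * I)) = (Kt S.T : ℂ) := by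
          have e2 : (fun t : ℝ => (Kw S.T t : ℂ) * cexp (((0 : ℝ) * t : ℝ) * I)) =
              fun t : ℝ => ((Kw S.T t : ℝ) : ℂ) := by
            funext t
            simp
          rw [e2, integral_complex_ofReal, (Kw_int hT).2]
        rw [e1, sub_self, norm_zero]
        positivity
      · rw [if_neg hmn, sub_zero, norm_mul, Complex.norm_real, Real.norm_eq_abs, abs_mul]
        by_cases hz : a m = 0 ∨ a n = 0
        · rcases hz with hz | hz <;> simp [hz]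
        · rw [not_or] at hz
          obtain ⟨hm0, hmQ⟩ := haS m hz.1
          obtain ⟨hn0, hnQ⟩ := haS n hz.2
          have h1 := MA1_gap' hm0 hn0 hmn hmQ hnQ
          have hu : Real.log n - Real.log m ≠ 0 := by
            intro h
            rcases lt_or_gt_of_ne hmn with h3 | h3
            · have := MA1_gap hm0 h3
              have hnr : (0 : ℝ) < n := by exact_mod_cast Nat.pos_of_ne_zero hn0
              have : 0 < 1 / (n : ℝ) := by positivity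
              linarith
            · have := MA1_gap hn0 h3
              have hmr : (0 : ℝ) < m := by exact_mod_cast Nat.pos_of_ne_zero hm0
              have : 0 < 1 / (m : ℝ) := by positivity
              linarith
          have h2 := hC S.T (Real.log n - Real.log m) hT hu
          have h3 : C * (1 + 1 / |Real.log n - Real.log m|) ≤ 2 * C * S.T ^ (1 / 100 : ℝ) := by
            nlinarith
          calc |a m| * |a n| * ‖∫ t : ℝ, (Kw S.T t : ℂ) *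
                cexp (((Real.log n - Real.log m) * t : ℝ) * I)‖ ≤
                |a m| * |a n| * (2 * C * S.T ^ (1 / 100 : ℝ)) :=
                mul_le_mul_of_nonneg_left (h2.trans h3) (by positivity)
            _ = _ := by ring
    calc ‖∑ m ∈ F, (∑ n ∈ F, ((a m * a n : ℝ) : ℂ) *
        (∫ t : ℝ, (Kw S.T t : ℂ) * cexp (((Real.log n - Real.log m) * t : ℝ) * I)) -
        ∑ n ∈ F, (if m = n then ((a m * a n : ℝ) : ℂ) * (Kt S.T : ℂ) else 0))‖ ≤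
        ∑ m ∈ F, ∑ n ∈ F, (2 * C * S.T ^ (1 / 100 : ℝ)) * (|a m| * |a n|) := by
          refine (norm_sum_le _ _).trans (Finset.sum_le_sum fun m hm => ?_)
          rw [← Finset.sum_sub_distrib]
          exact (norm_sum_le _ _).trans (Finset.sum_le_sum fun n hn => hterm m hm n hn)
      _ = (2 * C * S.T ^ (1 / 100 : ℝ)) * ((∑ m ∈ F, |a m|) * ∑ n ∈ F, |a n|) := by
          rw [Finset.sum_mul_sum, Finset.mul_sum]
          exact Finset.sum_congr rfl fun m _ => by rw [Finset.mul_sum]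
      _ ≤ _ := by
          have h1 : (∑ m ∈ F, |a m|) * (∑ n ∈ F, |a n|) ≤ S.T ^ (1 / 100 : ℝ) * S.T ^ (1 / 100 : ℝ) :=
            mul_le_mul hal1 hal1 (Finset.sum_nonneg fun n _ => abs_nonneg _) (by positivity)
          exact mul_le_mul_of_nonneg_left h1 (by positivity)
  -- comparison
  have hER1 : c2 ≤ ER S lam := by
    have h1 := (hER hS hCt1).1
    have h2 := one_le_Lam S lam
    nlinarith
  have hKE1 : c1 * S.T ^ (1 / 2 : ℝ) * c2 ≤ Kt S.T * ER S lam := by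
    have h1 := (hKt S.T hT).1
    exact mul_le_mul h1 hER1 hc2.le (le_trans (by positivity) h1)
  have hbig : (2 * C * S.T ^ (1 / 100 : ℝ)) * (S.T ^ (1 / 100 : ℝ) * S.T ^ (1 / 100 : ℝ)) ≤
      1 / 100 * (Kt S.T * ER S lam) := by
    refine le_trans ?_ (mul_le_mul_of_nonneg_left hKE1 (by norm_num))
    have hD : 0 < 200 * C / (c1 * c2) := by positivity
    have h1 : 200 * C / (c1 * c2) ≤ S.T ^ (1 / 4 : ℝ) := by
      have e1 : ((200 * C / (c1 * c2)) ^ 4) ^ (1 / 4 : ℝ) = 200 * C / (c1 * c2) := by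
        have := Real.pow_rpow_inv_natCast hD.le (n := 4) (by norm_num)
        norm_num at this ⊢
        exact this
      rw [← e1]
      exact Real.rpow_le_rpow (by positivity) hT0 (by norm_num)
    rw [div_le_iff₀ (by positivity)] at h1
    have h2 : S.T ^ (1 / 100 : ℝ) * S.T ^ (1 / 100 : ℝ) * S.T ^ (1 / 100 : ℝ) ≤ S.T ^ (1 / 4 : ℝ) := by
      rw [← Real.rpow_add hTpos, ← Real.rpow_add hTpos]
      exact Real.rpow_le_rpow_of_exponent_le hT1 (by norm_num)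
    have h3 : S.T ^ (1 / 2 : ℝ) = S.T ^ (1 / 4 : ℝ) * S.T ^ (1 / 4 : ℝ) := by
      rw [← Real.rpow_add hTpos]; norm_num
    rw [h3]
    have h4 : 0 < S.T ^ (1 / 4 : ℝ) := by positivity
    calc (2 * C * S.T ^ (1 / 100 : ℝ)) * (S.T ^ (1 / 100 : ℝ) * S.T ^ (1 / 100 : ℝ)) =
          2 * C * (S.T ^ (1 / 100 : ℝ) * S.T ^ (1 / 100 : ℝ) * S.T ^ (1 / 100 : ℝ)) := by ring
      _ ≤ 2 * C * S.T ^ (1 / 4 : ℝ) := mul_le_mul_of_nonneg_left h2 (by positivity)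
      _ = 1 / 100 * (200 * C * S.T ^ (1 / 4 : ℝ)) := by ring
      _ ≤ 1 / 100 * ((S.T ^ (1 / 4 : ℝ) * (c1 * c2)) * S.T ^ (1 / 4 : ℝ)) := by
          refine mul_le_mul_of_nonneg_left ?_ (by norm_num)
          exact mul_le_mul_of_nonneg_right h1 h4.le
      _ = _ := by ring
  have hfin : 99 / 100 * (Kt S.T * ER S lam) ≤ ∫ t, Kw S.T t * uu S lam t := by
    rw [← Complex.ofReal_sub, Complex.norm_real, Real.norm_eq_abs] at hdiff
    have := (abs_le.1 (hdiff.trans hbig)).1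
    linarith
  calc ENNReal.ofReal (99 / 100 * (Kt S.T * ER S lam)) ≤
        ENNReal.ofReal (∫ t, Kw S.T t * uu S lam t) := ENNReal.ofReal_le_ofReal hfin
    _ = _ := by
        rw [ofReal_integral_eq_lintegral_ofReal hint (Filter.Eventually.of_forall fun t => ?_)]
        unfold Kw uu
        positivity

end Pool.Agent.LB
end

section

/-! TASK MA2. The tilted mass outside `Dm η T = [ηT, T/η]`. `L = log T`. The constant `K` does not depend on `η`.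
(a) `t ≤ T^{1/10}`: `uu ≤ (∑ |r(n)| n^{-1/2})² ≤ T^{14θ³} ≤ T^{1/100}` (`rp_exists`), `∫_{-∞}^{T^{1/10}} Kw ≤ C + C T^{1/20}` (`Kw_le`); total `≤ T^{1/10}`.
(b) `X ≥ T^{1/10}`: `∫_X^{3X} uu ≤ 2X ER + 4 T^{28θ³} ≤ 3X K Lam` for `T ≥ T0` (`mean4` of UV/MV.lean with `RT_dp`, `Q2 = 1`; `ER_bounds`), `Kw ≤ C X^{-1/2}` there. `[T^{1/10}, ηT]` is covered by the intervals `[3^{-k-1} ηT, 3^{-k} ηT]`, `k ≥ 0`: total `≤ K Lam ∑_k C (3^{-k} ηT)^{1/2} ≤ K' √η √T Lam`.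
(c) `t ≥ T/η`: intervals `[3^k T/η, 3^{k+1} T/η]`: `Kw ≤ C X^{-1/2} e^{-X/T}`, total `≤ K Lam √(T/η) ∑_k 3^{k/2} exp(-3^k/η) ≤ K' √T Lam e^{-1/(2η)} ≤ K'' √η √T Lam`. -/

set_option autoImplicit false

namespace Pool.Agent.LB

open Complex MeasureTheory Finset Pool.Agent.GH Pool.Agent.UH Pool.Agent.UV
open scoped Real ComplexConjugate

private lemma MA2_T {S : BS} {Ct θ D1 : ℝ} {N0 : ℕ} (hS : TG S Ct θ D1 N0) : 1 ≤ S.T :=
  (Real.one_le_exp (by norm_num)).trans hS.T_ge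

private lemma MA2_th {S : BS} {Ct θ D1 : ℝ} {N0 : ℕ} (hS : TG S Ct θ D1 N0) :
    0 ≤ 7 * θ ^ 3 ∧ 28 * θ ^ 3 ≤ 1 / 100 := by
  have h1 := hS.th_pos
  have h2 := hS.th_le
  have h3 : θ ^ 3 ≤ (1 / 100) ^ 3 := pow_le_pow_left₀ h1.le h2 3
  have h4 : 0 < θ ^ 3 := pow_pos h1 3
  constructor
  · linarith
  · norm_num at h3
    linarith

private lemma MA2_cont {S : BS} {Ct θ D1 : ℝ} {N0 : ℕ} (hS : TG S Ct θ D1 N0) (lam : ℝ) :
    Continuous (uu S lam) :=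
  uu_continuous S lam fun j hj p hp => (hS.prime j hj p hp).1.ne_zero

/-- The mean value over `[X, 3X]`. -/
private lemma MA2_mean {S : BS} {Ct θ D1 lam K1 : ℝ} {N0 : ℕ} (hS : TG S Ct θ D1 N0)
    (hl : |lam| ≤ Ct) (hK : 1 ≤ K1) (hER : ER S lam ≤ K1 * Lam S lam) {X : ℝ}
    (hX : S.T ^ (1 / 10 : ℝ) ≤ 3 * X) :
    ∫⁻ t in Set.Icc X (3 * X), ENNReal.ofReal (uu S lam t) ≤
      ENNReal.ofReal (14 * K1 * X * Lam S lam) := by
  have hT1 := MA2_T hS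
  have hT0 : 0 < S.T := by linarith
  obtain ⟨hth1, hth2⟩ := MA2_th hS
  have hY1 : 1 ≤ S.T ^ (1 / 10 : ℝ) := Real.one_le_rpow hT1 (by norm_num)
  have hX0 : 0 < X := by linarith
  have hL := one_le_Lam S lam
  have hc := MA2_cont hS lam
  have hQ : 1 ≤ S.T ^ (7 * θ ^ 3) := Real.one_le_rpow hT1 hth1
  have hm := mean4 (RT_dp hS hl) hQ le_rfl hX0.le
  have hm' : ∫ t in X..(3 * X), uu S lam t ≤ 2 * X * ER S lam +
      4 * (S.T ^ (7 * θ ^ 3)) ^ 2 * 1 * (S.T ^ (7 * θ ^ 3)) ^ 2 := hm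
  have hQ4 : (S.T ^ (7 * θ ^ 3)) ^ 2 * (S.T ^ (7 * θ ^ 3)) ^ 2 = S.T ^ (28 * θ ^ 3) := by
    rw [← pow_add, ← Real.rpow_natCast (S.T ^ (7 * θ ^ 3)), ← Real.rpow_mul hT0.le]
    congr 1
    push_cast
    ring
  have hQ5 : S.T ^ (28 * θ ^ 3) ≤ S.T ^ (1 / 10 : ℝ) :=
    Real.rpow_le_rpow_of_exponent_le hT1 (by linarith)
  have h1 : ∫ t in X..(3 * X), uu S lam t ≤ 14 * K1 * X * Lam S lam := by
    have e1 : 4 * (S.T ^ (7 * θ ^ 3)) ^ 2 * 1 * (S.T ^ (7 * θ ^ 3)) ^ 2 =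
        4 * S.T ^ (28 * θ ^ 3) := by
      rw [← hQ4]
      ring
    rw [e1] at hm'
    have e2 : 2 * X * ER S lam ≤ 2 * X * (K1 * Lam S lam) :=
      mul_le_mul_of_nonneg_left hER (by linarith)
    have e3 : X ≤ X * (K1 * Lam S lam) := by
      have : 1 ≤ K1 * Lam S lam := by nlinarith
      nlinarith
    nlinarith
  rw [← ofReal_integral_eq_lintegral_ofReal (hc.integrableOn_Icc)
    (Filter.Eventually.of_forall fun t => sq_nonneg _)]
  refine ENNReal.ofReal_le_ofReal ?_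
  rw [integral_Icc_eq_integral_Ioc, ← intervalIntegral.integral_of_le (by linarith)]
  exact h1

/-- One piece. -/
private lemma MA2_piece {S : BS} {Ct θ D1 lam K1 : ℝ} {N0 : ℕ} (hS : TG S Ct θ D1 N0)
    (hl : |lam| ≤ Ct) (hK : 1 ≤ K1) (hER : ER S lam ≤ K1 * Lam S lam) {X M : ℝ}
    (hM : 0 ≤ M) (hMK : ∀ t ∈ Set.Icc X (3 * X), Kw S.T t ≤ M) :
    ∫⁻ t in Set.Icc X (3 * X) ∩ Set.Ici (S.T ^ (1 / 10 : ℝ)),
      ENNReal.ofReal (Kw S.T t * uu S lam t) ≤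
      ENNReal.ofReal (14 * K1 * Lam S lam * (M * X)) := by
  by_cases hX : S.T ^ (1 / 10 : ℝ) ≤ 3 * X
  · calc ∫⁻ t in Set.Icc X (3 * X) ∩ Set.Ici (S.T ^ (1 / 10 : ℝ)),
        ENNReal.ofReal (Kw S.T t * uu S lam t)
        ≤ ∫⁻ t in Set.Icc X (3 * X), ENNReal.ofReal (Kw S.T t * uu S lam t) :=
          lintegral_mono_set Set.inter_subset_left
      _ ≤ ∫⁻ t in Set.Icc X (3 * X), ENNReal.ofReal M * ENNReal.ofReal (uu S lam t) := by
          refine setLIntegral_mono' measurableSet_Icc fun t ht => ?_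
          rw [← ENNReal.ofReal_mul hM]
          exact ENNReal.ofReal_le_ofReal (mul_le_mul_of_nonneg_right (hMK t ht) (sq_nonneg _))
      _ = ENNReal.ofReal M * ∫⁻ t in Set.Icc X (3 * X), ENNReal.ofReal (uu S lam t) := by
          refine lintegral_const_mul' _ _ ENNReal.ofReal_ne_top
      _ ≤ ENNReal.ofReal M * ENNReal.ofReal (14 * K1 * X * Lam S lam) := by
          gcongr
          exact MA2_mean hS hl hK hER hX
      _ = ENNReal.ofReal (14 * K1 * Lam S lam * (M * X)) := by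
          rw [← ENNReal.ofReal_mul hM]
          congr 1
          ring
  · push Not at hX
    have he : Set.Icc X (3 * X) ∩ Set.Ici (S.T ^ (1 / 10 : ℝ)) = ∅ := by
      ext t
      simp only [Set.mem_inter_iff, Set.mem_Icc, Set.mem_Ici, Set.mem_empty_iff_false, iff_false,
        not_and, not_le]
      intro h
      exact lt_of_le_of_lt h.2 hX
    rw [he]
    simp

private lemma MA2_geom {A : ℝ} (hA : 0 ≤ A) :
    ∑' k : ℕ, ENNReal.ofReal (A * (3 / 5 : ℝ) ^ k) = ENNReal.ofReal (A * (5 / 2)) := by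
  have h1 : Summable fun k : ℕ => A * (3 / 5 : ℝ) ^ k :=
    (summable_geometric_of_lt_one (by norm_num) (by norm_num)).mul_left A
  rw [← ENNReal.ofReal_tsum_of_nonneg (fun k => by positivity) h1, tsum_mul_left,
    tsum_geometric_of_lt_one (by norm_num) (by norm_num)]
  norm_num

private lemma MA2_sqrt3 (k : ℕ) : ((3 : ℝ) ^ k) ^ (-(1 / 2) : ℝ) ≤ (3 / 5) ^ k := by
  have h1 : ((3 : ℝ) ^ k) ^ (-(1 / 2) : ℝ) = ((3 : ℝ) ^ (-(1 / 2) : ℝ)) ^ k := by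
    rw [← Real.rpow_natCast, ← Real.rpow_natCast, ← Real.rpow_mul (by norm_num),
      ← Real.rpow_mul (by norm_num), mul_comm]
  rw [h1]
  refine pow_le_pow_left₀ (by positivity) ?_ k
  rw [Real.rpow_neg (by norm_num), ← Real.sqrt_eq_rpow]
  have h2 : (5 / 3 : ℝ) ≤ √3 := Real.le_sqrt_of_sq_le (by norm_num)
  rw [inv_le_comm₀ (by positivity) (by norm_num)]
  norm_num at h2 ⊢
  exact h2

/-- The part near `0`. -/
private lemma MA2_a {S : BS} {Ct θ D1 lam C1 : ℝ} {N0 : ℕ} (hS : TG S Ct θ D1 N0)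
    (hl : |lam| ≤ Ct) (hC1 : 1 ≤ C1)
    (hKw : ∀ T t : ℝ, Real.exp 1000 ≤ T →
      Kw T t ≤ C1 * (1 + |t|) ^ (-(1 / 2) : ℝ) * Real.exp (-(|t| / T)) ∧
      (t ≤ 0 → Kw T t ≤ C1 * Real.exp (-|t|))) :
    ∫⁻ t in Set.Iic (S.T ^ (1 / 10 : ℝ)), ENNReal.ofReal (Kw S.T t * uu S lam t) ≤
      ENNReal.ofReal (2 * C1 * S.T ^ (11 / 100 : ℝ)) := by
  have hT1 := MA2_T hS
  have hT0 : 0 < S.T := by linarith
  obtain ⟨hth1, hth2⟩ := MA2_th hS
  obtain ⟨r, hr⟩ := rp_exists hS hl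
  have hu : ∀ t : ℝ, uu S lam t ≤ S.T ^ (1 / 100 : ℝ) := by
    intro t
    have h1 : ‖RT S lam (nC (1 / 2 + t * I))‖ ≤ S.T ^ (7 * θ ^ 3) := by
      rw [hr.eq]
      refine (norm_sum_le _ _).trans ((Finset.sum_le_sum fun n hn => ?_).trans hr.l1)
      have hn1 : 1 ≤ n := (Finset.mem_Icc.1 hn).1
      rw [norm_mul, Complex.norm_real, Real.norm_eq_abs, nC_apply _ (by omega)]
      have h2 : ‖(n : ℂ) ^ (-(1 / 2 + t * I))‖ ≤ 1 := by
        rw [Complex.norm_natCast_cpow_of_pos (by omega)]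
        refine Real.rpow_le_one_of_one_le_of_nonpos (by exact_mod_cast hn1) ?_
        simp
      exact mul_le_of_le_one_right (abs_nonneg _) h2
    have h3 : uu S lam t ≤ (S.T ^ (7 * θ ^ 3)) ^ 2 := pow_le_pow_left₀ (norm_nonneg _) h1 2
    refine h3.trans ?_
    rw [← Real.rpow_natCast, ← Real.rpow_mul hT0.le]
    refine Real.rpow_le_rpow_of_exponent_le hT1 ?_
    push_cast
    linarith
  set U : ℝ := S.T ^ (1 / 100 : ℝ) with hU
  have hU0 : 0 < U := Real.rpow_pos_of_pos hT0 _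
  set Y : ℝ := S.T ^ (1 / 10 : ℝ) with hY
  have hY1 : 1 ≤ Y := Real.one_le_rpow hT1 (by norm_num)
  have hUY : U * Y = S.T ^ (11 / 100 : ℝ) := by
    rw [hU, hY, ← Real.rpow_add hT0]
    norm_num
  have hsub : Set.Iic Y ⊆ Set.Iic 0 ∪ Set.Icc 0 Y := by
    intro t ht
    rcases le_or_gt t 0 with h | h
    · exact Or.inl h
    · exact Or.inr ⟨h.le, ht⟩
  have h1 : ∫⁻ t in Set.Iic (0 : ℝ), ENNReal.ofReal (Kw S.T t * uu S lam t) ≤
      ENNReal.ofReal (C1 * U) := by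
    calc ∫⁻ t in Set.Iic (0 : ℝ), ENNReal.ofReal (Kw S.T t * uu S lam t)
        ≤ ∫⁻ t in Set.Iic (0 : ℝ), ENNReal.ofReal (C1 * U) * ENNReal.ofReal (Real.exp t) := by
          refine setLIntegral_mono' measurableSet_Iic fun t ht => ?_
          rw [← ENNReal.ofReal_mul (by positivity)]
          refine ENNReal.ofReal_le_ofReal ?_
          have h2 := (hKw S.T t hS.T_ge).2 ht
          rw [abs_of_nonpos ht, neg_neg] at h2
          calc Kw S.T t * uu S lam t ≤ (C1 * Real.exp t) * U :=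
                mul_le_mul h2 (hu t) (sq_nonneg _) (by positivity)
            _ = C1 * U * Real.exp t := by ring
      _ = ENNReal.ofReal (C1 * U) * ∫⁻ t in Set.Iic (0 : ℝ), ENNReal.ofReal (Real.exp t) :=
          lintegral_const_mul' _ _ ENNReal.ofReal_ne_top
      _ = ENNReal.ofReal (C1 * U) := by
          rw [← ofReal_integral_eq_lintegral_ofReal (integrableOn_exp_Iic 0)
            (Filter.Eventually.of_forall fun t => (Real.exp_pos t).le), integral_exp_Iic_zero]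
          simp
  have h2 : ∫⁻ t in Set.Icc 0 Y, ENNReal.ofReal (Kw S.T t * uu S lam t) ≤
      ENNReal.ofReal (C1 * U * Y) := by
    calc ∫⁻ t in Set.Icc 0 Y, ENNReal.ofReal (Kw S.T t * uu S lam t)
        ≤ ∫⁻ t in Set.Icc 0 Y, ENNReal.ofReal (C1 * U) := by
          refine setLIntegral_mono' measurableSet_Icc fun t ht => ?_
          refine ENNReal.ofReal_le_ofReal ?_
          have h3 := (hKw S.T t hS.T_ge).1
          have h4 : (1 + |t|) ^ (-(1 / 2) : ℝ) ≤ 1 :=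
            Real.rpow_le_one_of_one_le_of_nonpos (by linarith [abs_nonneg t]) (by norm_num)
          have h5 : Real.exp (-(|t| / S.T)) ≤ 1 := by
            rw [Real.exp_le_one_iff]
            have : 0 ≤ |t| / S.T := by positivity
            linarith
          have h6 : Kw S.T t ≤ C1 := by
            refine h3.trans ?_
            have h7 : 0 ≤ (1 + |t|) ^ (-(1 / 2) : ℝ) := by positivity
            calc C1 * (1 + |t|) ^ (-(1 / 2) : ℝ) * Real.exp (-(|t| / S.T))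
                ≤ C1 * 1 * 1 := by gcongr
              _ = C1 := by ring
          exact mul_le_mul h6 (hu t) (sq_nonneg _) (by linarith)
      _ = ENNReal.ofReal (C1 * U * Y) := by
          rw [setLIntegral_const, Real.volume_Icc, sub_zero, ← ENNReal.ofReal_mul (by positivity)]
  calc ∫⁻ t in Set.Iic Y, ENNReal.ofReal (Kw S.T t * uu S lam t)
      ≤ ∫⁻ t in Set.Iic 0 ∪ Set.Icc 0 Y, ENNReal.ofReal (Kw S.T t * uu S lam t) :=
        lintegral_mono_set hsub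
    _ ≤ (∫⁻ t in Set.Iic (0 : ℝ), ENNReal.ofReal (Kw S.T t * uu S lam t)) +
        ∫⁻ t in Set.Icc 0 Y, ENNReal.ofReal (Kw S.T t * uu S lam t) := lintegral_union_le _ _ _
    _ ≤ ENNReal.ofReal (C1 * U) + ENNReal.ofReal (C1 * U * Y) := add_le_add h1 h2
    _ = ENNReal.ofReal (C1 * U + C1 * U * Y) := by
        rw [ENNReal.ofReal_add (by positivity) (by positivity)]
    _ ≤ ENNReal.ofReal (2 * C1 * S.T ^ (11 / 100 : ℝ)) := by
        refine ENNReal.ofReal_le_ofReal ?_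
        rw [← hUY]
        have : C1 * U ≤ C1 * U * Y := le_mul_of_one_le_right (by positivity) hY1
        linarith

/-- The part below `ηT`. -/
private lemma MA2_b {S : BS} {Ct θ D1 lam C1 K1 η : ℝ} {N0 : ℕ} (hS : TG S Ct θ D1 N0)
    (hl : |lam| ≤ Ct) (hC1 : 1 ≤ C1) (hK : 1 ≤ K1) (hER : ER S lam ≤ K1 * Lam S lam)
    (hη : 0 < η)
    (hKw : ∀ T t : ℝ, Real.exp 1000 ≤ T →
      Kw T t ≤ C1 * (1 + |t|) ^ (-(1 / 2) : ℝ) * Real.exp (-(|t| / T)) ∧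
      (t ≤ 0 → Kw T t ≤ C1 * Real.exp (-|t|))) :
    ∫⁻ t in Set.Icc (S.T ^ (1 / 10 : ℝ)) (η * S.T), ENNReal.ofReal (Kw S.T t * uu S lam t) ≤
      ENNReal.ofReal (35 * C1 * K1 * Lam S lam * (η * S.T) ^ (1 / 2 : ℝ)) := by
  have hT1 := MA2_T hS
  have hT0 : 0 < S.T := by linarith
  have hY1 : 1 ≤ S.T ^ (1 / 10 : ℝ) := Real.one_le_rpow hT1 (by norm_num)
  have hL := one_le_Lam S lam
  set b : ℝ := η * S.T with hb
  have hb0 : 0 < b := mul_pos hη hT0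
  have hsub : Set.Icc (S.T ^ (1 / 10 : ℝ)) b ⊆ ⋃ k : ℕ,
      (Set.Icc (b / 3 ^ (k + 1)) (3 * (b / 3 ^ (k + 1))) ∩ Set.Ici (S.T ^ (1 / 10 : ℝ))) := by
    intro t ht
    have ht0 : 0 < t := by linarith [ht.1]
    obtain ⟨k, hk1, hk2⟩ := exists_nat_pow_near (x := b / t) (y := 3)
      ((one_le_div ht0).2 ht.2) (by norm_num)
    refine Set.mem_iUnion.2 ⟨k, ⟨?_, ?_⟩, ht.1⟩
    · rw [div_le_iff₀ (by positivity)]
      rw [div_lt_iff₀ ht0] at hk2
      linarith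
    · have h3 : 3 * (b / 3 ^ (k + 1)) = b / 3 ^ k := by
        rw [pow_succ]
        field_simp
      rw [h3, le_div_iff₀ (by positivity)]
      rw [le_div_iff₀ ht0] at hk1
      linarith
  calc ∫⁻ t in Set.Icc (S.T ^ (1 / 10 : ℝ)) b, ENNReal.ofReal (Kw S.T t * uu S lam t)
      ≤ ∫⁻ t in ⋃ k : ℕ, (Set.Icc (b / 3 ^ (k + 1)) (3 * (b / 3 ^ (k + 1))) ∩
          Set.Ici (S.T ^ (1 / 10 : ℝ))), ENNReal.ofReal (Kw S.T t * uu S lam t) :=
        lintegral_mono_set hsub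
    _ ≤ ∑' k : ℕ, ∫⁻ t in (Set.Icc (b / 3 ^ (k + 1)) (3 * (b / 3 ^ (k + 1))) ∩
          Set.Ici (S.T ^ (1 / 10 : ℝ))), ENNReal.ofReal (Kw S.T t * uu S lam t) :=
        lintegral_iUnion_le _ _
    _ ≤ ∑' k : ℕ, ENNReal.ofReal ((14 * C1 * K1 * Lam S lam * b ^ (1 / 2 : ℝ)) *
          (3 / 5) ^ k) := by
        refine ENNReal.tsum_le_tsum fun k => ?_
        set X : ℝ := b / 3 ^ (k + 1) with hX
        have hX0 : 0 < X := by positivity
        have hXp : 0 ≤ X ^ (-(1 / 2) : ℝ) := by positivity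
        refine (MA2_piece hS hl hK hER (X := X) (M := C1 * X ^ (-(1 / 2) : ℝ))           (by positivity) ?_).trans ?_
        · intro t ht
          have ht0 : 0 < t := lt_of_lt_of_le hX0 ht.1
          have h3 := (hKw S.T t hS.T_ge).1
          rw [abs_of_pos ht0] at h3
          have h4 : (1 + t) ^ (-(1 / 2) : ℝ) ≤ X ^ (-(1 / 2) : ℝ) :=
            Real.rpow_le_rpow_of_nonpos hX0 (by linarith [ht.1]) (by norm_num)
          have h5 : Real.exp (-(t / S.T)) ≤ 1 := by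
            rw [Real.exp_le_one_iff]
            have : 0 ≤ t / S.T := by positivity
            linarith
          refine h3.trans ?_
          calc C1 * (1 + t) ^ (-(1 / 2) : ℝ) * Real.exp (-(t / S.T))
              ≤ C1 * X ^ (-(1 / 2) : ℝ) * 1 := by gcongr
            _ = C1 * X ^ (-(1 / 2) : ℝ) := by ring
        · refine ENNReal.ofReal_le_ofReal ?_
          have h6 : X ^ (-(1 / 2) : ℝ) * X = X ^ (1 / 2 : ℝ) := by
            nth_rewrite 2 [← Real.rpow_one X]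
            rw [← Real.rpow_add hX0]
            norm_num
          have h7 : X ^ (1 / 2 : ℝ) ≤ b ^ (1 / 2 : ℝ) * (3 / 5) ^ k := by
            have h8 : X ^ (1 / 2 : ℝ) = b ^ (1 / 2 : ℝ) * ((3 : ℝ) ^ (k + 1)) ^ (-(1 / 2) : ℝ) := by
              rw [hX, div_eq_mul_inv, Real.mul_rpow hb0.le (by positivity),
                Real.inv_rpow (by positivity), ← Real.rpow_neg (by positivity)]
            rw [h8]
            refine mul_le_mul_of_nonneg_left ((MA2_sqrt3 (k + 1)).trans ?_) (by positivity)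
            rw [pow_succ]
            have : (0 : ℝ) < (3 / 5) ^ k := by positivity
            linarith
          calc 14 * K1 * Lam S lam * (C1 * X ^ (-(1 / 2) : ℝ) * X)
              = 14 * C1 * K1 * Lam S lam * (X ^ (-(1 / 2) : ℝ) * X) := by ring
            _ = 14 * C1 * K1 * Lam S lam * X ^ (1 / 2 : ℝ) := by rw [h6]
            _ ≤ 14 * C1 * K1 * Lam S lam * (b ^ (1 / 2 : ℝ) * (3 / 5) ^ k) := by gcongr
            _ = (14 * C1 * K1 * Lam S lam * b ^ (1 / 2 : ℝ)) * (3 / 5) ^ k := by ring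
    _ = ENNReal.ofReal ((14 * C1 * K1 * Lam S lam * b ^ (1 / 2 : ℝ)) * (5 / 2)) :=
        MA2_geom (by positivity)
    _ = ENNReal.ofReal (35 * C1 * K1 * Lam S lam * b ^ (1 / 2 : ℝ)) := by
        congr 1
        ring

/-- The part above `T/η`. -/
private lemma MA2_c {S : BS} {Ct θ D1 lam C1 K1 η : ℝ} {N0 : ℕ} (hS : TG S Ct θ D1 N0)
    (hl : |lam| ≤ Ct) (hC1 : 1 ≤ C1) (hK : 1 ≤ K1) (hER : ER S lam ≤ K1 * Lam S lam)
    (hη : 0 < η) (hη1 : η ≤ 1)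
    (hKw : ∀ T t : ℝ, Real.exp 1000 ≤ T →
      Kw T t ≤ C1 * (1 + |t|) ^ (-(1 / 2) : ℝ) * Real.exp (-(|t| / T)) ∧
      (t ≤ 0 → Kw T t ≤ C1 * Real.exp (-|t|))) :
    ∫⁻ t in Set.Ici (S.T / η), ENNReal.ofReal (Kw S.T t * uu S lam t) ≤
      ENNReal.ofReal (35 * C1 * K1 * Lam S lam * (η * S.T) ^ (1 / 2 : ℝ)) := by
  have hT1 := MA2_T hS
  have hT0 : 0 < S.T := by linarith
  have hYT : S.T ^ (1 / 10 : ℝ) ≤ S.T := by
    conv_rhs => rw [← Real.rpow_one S.T]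
    exact Real.rpow_le_rpow_of_exponent_le hT1 (by norm_num)
  have hL := one_le_Lam S lam
  set b : ℝ := S.T / η with hb
  have hb0 : 0 < b := div_pos hT0 hη
  have hTb : S.T ≤ b := by
    rw [hb, le_div_iff₀ hη]
    nlinarith
  have hsub : Set.Ici b ⊆ ⋃ k : ℕ,
      (Set.Icc (b * 3 ^ k) (3 * (b * 3 ^ k)) ∩ Set.Ici (S.T ^ (1 / 10 : ℝ))) := by
    intro t ht
    have ht' : b ≤ t := ht
    obtain ⟨k, hk1, hk2⟩ := exists_nat_pow_near (x := t / b) (y := 3)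
      ((one_le_div hb0).2 ht') (by norm_num)
    refine Set.mem_iUnion.2 ⟨k, ⟨?_, ?_⟩, ?_⟩
    · rw [le_div_iff₀ hb0] at hk1
      linarith
    · rw [div_lt_iff₀ hb0, pow_succ] at hk2
      linarith
    · exact (hYT.trans hTb).trans ht'
  calc ∫⁻ t in Set.Ici b, ENNReal.ofReal (Kw S.T t * uu S lam t)
      ≤ ∫⁻ t in ⋃ k : ℕ, (Set.Icc (b * 3 ^ k) (3 * (b * 3 ^ k)) ∩
          Set.Ici (S.T ^ (1 / 10 : ℝ))), ENNReal.ofReal (Kw S.T t * uu S lam t) :=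
        lintegral_mono_set hsub
    _ ≤ ∑' k : ℕ, ∫⁻ t in (Set.Icc (b * 3 ^ k) (3 * (b * 3 ^ k)) ∩
          Set.Ici (S.T ^ (1 / 10 : ℝ))), ENNReal.ofReal (Kw S.T t * uu S lam t) :=
        lintegral_iUnion_le _ _
    _ ≤ ∑' k : ℕ, ENNReal.ofReal ((14 * C1 * K1 * Lam S lam * (η * S.T) ^ (1 / 2 : ℝ)) *
          (3 / 5) ^ k) := by
        refine ENNReal.tsum_le_tsum fun k => ?_
        set X : ℝ := b * 3 ^ k with hX
        have hX0 : 0 < X := by positivity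
        have hXp : 0 ≤ X ^ (-(1 / 2) : ℝ) := by positivity
        refine (MA2_piece hS hl hK hER (X := X)
          (M := C1 * X ^ (-(1 / 2) : ℝ) * (S.T / X)) (by positivity) ?_).trans ?_
        · intro t ht
          have ht0 : 0 < t := lt_of_lt_of_le hX0 ht.1
          have h3 := (hKw S.T t hS.T_ge).1
          rw [abs_of_pos ht0] at h3
          have h4 : (1 + t) ^ (-(1 / 2) : ℝ) ≤ X ^ (-(1 / 2) : ℝ) :=
            Real.rpow_le_rpow_of_nonpos hX0 (by linarith [ht.1]) (by norm_num)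
          have h5 : Real.exp (-(t / S.T)) ≤ S.T / X := by
            have h6 : X / S.T ≤ t / S.T := div_le_div_of_nonneg_right ht.1 hT0.le
            have h7 : t / S.T + 1 ≤ Real.exp (t / S.T) := Real.add_one_le_exp _
            rw [Real.exp_neg, ← inv_div X S.T]
            refine inv_anti₀ (by positivity) ?_
            linarith
          refine h3.trans ?_
          gcongr
        · refine ENNReal.ofReal_le_ofReal ?_
          have h7 : X ^ (-(1 / 2) : ℝ) * S.T ≤ (η * S.T) ^ (1 / 2 : ℝ) * (3 / 5) ^ k := by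
            have h8 : X ^ (-(1 / 2) : ℝ) = b ^ (-(1 / 2) : ℝ) * ((3 : ℝ) ^ k) ^ (-(1 / 2) : ℝ) := by
              rw [hX, Real.mul_rpow hb0.le (by positivity)]
            have h9 : b ^ (-(1 / 2) : ℝ) * S.T = (η * S.T) ^ (1 / 2 : ℝ) := by
              rw [hb, Real.div_rpow hT0.le hη.le, Real.rpow_neg hη.le, div_inv_eq_mul,
                Real.mul_rpow hη.le hT0.le, mul_comm _ (η ^ (1 / 2 : ℝ)), mul_assoc]
              congr 1
              nth_rewrite 2 [← Real.rpow_one S.T]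
              rw [← Real.rpow_add hT0]
              norm_num
            rw [h8]
            calc b ^ (-(1 / 2) : ℝ) * ((3 : ℝ) ^ k) ^ (-(1 / 2) : ℝ) * S.T
                = (b ^ (-(1 / 2) : ℝ) * S.T) * ((3 : ℝ) ^ k) ^ (-(1 / 2) : ℝ) := by ring
              _ = (η * S.T) ^ (1 / 2 : ℝ) * ((3 : ℝ) ^ k) ^ (-(1 / 2) : ℝ) := by rw [h9]
              _ ≤ (η * S.T) ^ (1 / 2 : ℝ) * (3 / 5) ^ k :=
                mul_le_mul_of_nonneg_left (MA2_sqrt3 k) (by positivity)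
          have e1 : C1 * X ^ (-(1 / 2) : ℝ) * (S.T / X) * X = C1 * (X ^ (-(1 / 2) : ℝ) * S.T) := by
            field_simp
          rw [e1]
          calc 14 * K1 * Lam S lam * (C1 * (X ^ (-(1 / 2) : ℝ) * S.T))
              = 14 * C1 * K1 * Lam S lam * (X ^ (-(1 / 2) : ℝ) * S.T) := by ring
            _ ≤ 14 * C1 * K1 * Lam S lam * ((η * S.T) ^ (1 / 2 : ℝ) * (3 / 5) ^ k) := by gcongr
            _ = (14 * C1 * K1 * Lam S lam * (η * S.T) ^ (1 / 2 : ℝ)) * (3 / 5) ^ k := by ring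
    _ = ENNReal.ofReal ((14 * C1 * K1 * Lam S lam * (η * S.T) ^ (1 / 2 : ℝ)) * (5 / 2)) :=
        MA2_geom (by positivity)
    _ = ENNReal.ofReal (35 * C1 * K1 * Lam S lam * (η * S.T) ^ (1 / 2 : ℝ)) := by
        congr 1
        ring

theorem mass_out (lam : ℝ) (h0 : 0 < lam) : ∃ C0 K : ℝ, 1 ≤ K ∧ ∀ η : ℝ, 0 < η → η ≤ 1 →
    ∀ {Ct θ D1 : ℝ} {N0 : ℕ}, C0 ≤ Ct → ∃ T0 : ℝ, ∀ {S : BS}, TG S Ct θ D1 N0 → T0 ≤ S.T →
    ∫⁻ t in (Dm η S.T)ᶜ, ENNReal.ofReal (Kw S.T t * uu S lam t) ≤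
      ENNReal.ofReal (K * η ^ (1 / 2 : ℝ) * (S.T ^ (1 / 2 : ℝ) * Lam S lam)) := by
  obtain ⟨C1, hC1, hKw⟩ := Kw_le
  obtain ⟨C0, c, K1, hc, hK1, hER⟩ := ER_bounds lam h0
  refine ⟨max C0 lam, 70 * C1 * K1 + 1, by nlinarith, fun η hη hη1 => ?_⟩
  intro Ct θ D1 N0 hCt
  refine ⟨(2 * C1 / η ^ (1 / 2 : ℝ)) ^ 4, fun {S} hS hT => ?_⟩
  have hl : |lam| ≤ Ct := by
    rw [abs_of_pos h0]
    exact (le_max_right _ _).trans hCt
  have hE := (hER hS ((le_max_left _ _).trans hCt)).2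
  have hT1 := MA2_T hS
  have hT0 : 0 < S.T := by linarith
  have hL := one_le_Lam S lam
  have hη2 : 0 < η ^ (1 / 2 : ℝ) := Real.rpow_pos_of_pos hη _
  have hηT : (η * S.T) ^ (1 / 2 : ℝ) = η ^ (1 / 2 : ℝ) * S.T ^ (1 / 2 : ℝ) :=
    Real.mul_rpow hη.le hT0.le
  have hA := MA2_a hS hl hC1 hKw
  have hB := MA2_b hS hl hC1 hK1 hE hη hKw
  have hC := MA2_c hS hl hC1 hK1 hE hη hη1 hKw
  have hA' : 2 * C1 * S.T ^ (11 / 100 : ℝ) ≤ η ^ (1 / 2 : ℝ) * S.T ^ (1 / 2 : ℝ) * Lam S lam := by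
    have h1 : 2 * C1 / η ^ (1 / 2 : ℝ) ≤ S.T ^ (1 / 4 : ℝ) := by
      have h2 : ((2 * C1 / η ^ (1 / 2 : ℝ)) ^ 4) ^ (1 / 4 : ℝ) ≤ S.T ^ (1 / 4 : ℝ) :=
        Real.rpow_le_rpow (by positivity) hT (by norm_num)
      rw [← Real.rpow_natCast, ← Real.rpow_mul (by positivity)] at h2
      norm_num at h2
      norm_num
      exact h2
    rw [div_le_iff₀ hη2] at h1
    have h3 : S.T ^ (1 / 4 : ℝ) * S.T ^ (11 / 100 : ℝ) ≤ S.T ^ (1 / 2 : ℝ) := by
      rw [← Real.rpow_add hT0]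
      exact Real.rpow_le_rpow_of_exponent_le hT1 (by norm_num)
    have h4 : 0 ≤ S.T ^ (11 / 100 : ℝ) := by positivity
    calc 2 * C1 * S.T ^ (11 / 100 : ℝ)
        ≤ S.T ^ (1 / 4 : ℝ) * η ^ (1 / 2 : ℝ) * S.T ^ (11 / 100 : ℝ) := by gcongr
      _ = η ^ (1 / 2 : ℝ) * (S.T ^ (1 / 4 : ℝ) * S.T ^ (11 / 100 : ℝ)) := by ring
      _ ≤ η ^ (1 / 2 : ℝ) * S.T ^ (1 / 2 : ℝ) := by gcongr
      _ ≤ η ^ (1 / 2 : ℝ) * S.T ^ (1 / 2 : ℝ) * Lam S lam :=
        le_mul_of_one_le_right (by positivity) hL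
  have hsub : (Dm η S.T)ᶜ ⊆ (Set.Iic (S.T ^ (1 / 10 : ℝ)) ∪
      Set.Icc (S.T ^ (1 / 10 : ℝ)) (η * S.T)) ∪ Set.Ici (S.T / η) := by
    intro t ht
    rcases le_or_gt t (S.T ^ (1 / 10 : ℝ)) with h | h
    · exact Or.inl (Or.inl h)
    rcases le_or_gt t (η * S.T) with h' | h'
    · exact Or.inl (Or.inr ⟨h.le, h'⟩)
    rcases le_or_gt (S.T / η) t with h'' | h''
    · exact Or.inr h''
    · exact absurd ⟨h'.le, h''.le⟩ ht
  calc ∫⁻ t in (Dm η S.T)ᶜ, ENNReal.ofReal (Kw S.T t * uu S lam t)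
      ≤ ∫⁻ t in (Set.Iic (S.T ^ (1 / 10 : ℝ)) ∪
          Set.Icc (S.T ^ (1 / 10 : ℝ)) (η * S.T)) ∪ Set.Ici (S.T / η),
          ENNReal.ofReal (Kw S.T t * uu S lam t) := lintegral_mono_set hsub
    _ ≤ (∫⁻ t in (Set.Iic (S.T ^ (1 / 10 : ℝ)) ∪ Set.Icc (S.T ^ (1 / 10 : ℝ)) (η * S.T)),
          ENNReal.ofReal (Kw S.T t * uu S lam t)) +
        ∫⁻ t in Set.Ici (S.T / η), ENNReal.ofReal (Kw S.T t * uu S lam t) :=
        lintegral_union_le _ _ _
    _ ≤ ((∫⁻ t in Set.Iic (S.T ^ (1 / 10 : ℝ)), ENNReal.ofReal (Kw S.T t * uu S lam t)) +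
        ∫⁻ t in Set.Icc (S.T ^ (1 / 10 : ℝ)) (η * S.T), ENNReal.ofReal (Kw S.T t * uu S lam t)) +
        ∫⁻ t in Set.Ici (S.T / η), ENNReal.ofReal (Kw S.T t * uu S lam t) :=
        add_le_add (lintegral_union_le _ _ _) le_rfl
    _ ≤ (ENNReal.ofReal (2 * C1 * S.T ^ (11 / 100 : ℝ)) +
        ENNReal.ofReal (35 * C1 * K1 * Lam S lam * (η * S.T) ^ (1 / 2 : ℝ))) +
        ENNReal.ofReal (35 * C1 * K1 * Lam S lam * (η * S.T) ^ (1 / 2 : ℝ)) :=
        add_le_add (add_le_add hA hB) hC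
    _ = ENNReal.ofReal (2 * C1 * S.T ^ (11 / 100 : ℝ) +
          35 * C1 * K1 * Lam S lam * (η * S.T) ^ (1 / 2 : ℝ) +
          35 * C1 * K1 * Lam S lam * (η * S.T) ^ (1 / 2 : ℝ)) := by
        rw [ENNReal.ofReal_add (by positivity) (by positivity),
          ENNReal.ofReal_add (by positivity) (by positivity)]
    _ ≤ ENNReal.ofReal ((70 * C1 * K1 + 1) * η ^ (1 / 2 : ℝ) *
          (S.T ^ (1 / 2 : ℝ) * Lam S lam)) := by
        refine ENNReal.ofReal_le_ofReal ?_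
        rw [hηT]
        calc 2 * C1 * S.T ^ (11 / 100 : ℝ) +
              35 * C1 * K1 * Lam S lam * (η ^ (1 / 2 : ℝ) * S.T ^ (1 / 2 : ℝ)) +
              35 * C1 * K1 * Lam S lam * (η ^ (1 / 2 : ℝ) * S.T ^ (1 / 2 : ℝ))
            ≤ η ^ (1 / 2 : ℝ) * S.T ^ (1 / 2 : ℝ) * Lam S lam +
              35 * C1 * K1 * Lam S lam * (η ^ (1 / 2 : ℝ) * S.T ^ (1 / 2 : ℝ)) +
              35 * C1 * K1 * Lam S lam * (η ^ (1 / 2 : ℝ) * S.T ^ (1 / 2 : ℝ)) := by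
              linarith
          _ = (70 * C1 * K1 + 1) * η ^ (1 / 2 : ℝ) * (S.T ^ (1 / 2 : ℝ) * Lam S lam) := by ring

end Pool.Agent.LB
end
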