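import Pool.Agent.Lib.MP_69b2e4_nt.LB.T1
import Pool.Agent.Lib.MP_69b2e4_nt.Mg.G028
import Pool.Agent.Lib.MP_69b2e4_nt.Mg.G024
import Pool.Agent.Lib.MP_69b2e4_nt.Mg.G034

section

/-! TASK T7. Mean values of Dirichlet polynomials with the tilt. `L = log T`.
`TDM`: `mean5` with `g(χ) = (DP T (χ nC (z/L)))^k RT S lam χ` (the shift has real part `≥ -2/L`: coefficients `≤ e²` times as large; as in T5 directly with `isP2_left` and products), `Q ≤ T^{k/500 + 7θ³}`, `B ≤ (e²(1+L)²)^k T^{7θ³}`; `‖g‖² = ‖DP‖^{2k} ‖RT‖²`; `XR4`; `k ≤ 3`: `Q² B² ≤ T^{1/10} L^{..} ≤ T/(3 + 20 L)^6` for `T ≥ T0`.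
 Divide by `L^{2k}`.
`TMass`: `mean5` with `g = RT S lam`, `ER_bounds`.
`TBad`: on `¬Gd` some `j ≤ J` has `1 < 8(lam+2)‖P_j‖/l_j`, so the indicator is `≤ ∑_j (8(lam+2)‖P_j‖/l_j)^{2 l_j}`; for each `j` `mean5` with `g(χ) = RT S lam χ (8(lam+2)/l_j)^{l_j} PS (R j) χ ^ l_j` (`PS_dp`, `RT_dp`; the factor `(8(lam+2)/l_j)^{l_j} ≤ (8(lam+2))^{l_j} ≤ e^{Ct·..}`: absorb it using `x^l ≤ exp(8(lam+2)·..)`: `(a/l)^l ≤ e^{a/e} ≤ e^{a}`), so `Q² B² ≤ T^{1/10}`; the number of blocks is `≤ L` (`TG.len`);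
 sum over `j`: `full5_bad`, and `T^{1/10} L ≤ 2^{-N0} T` for `T ≥ T0` (which may depend on `N0`). -/

set_option autoImplicit false

namespace Pool.Agent.LB

open Complex MeasureTheory Finset Pool.Agent.GH Pool.Agent.UH Pool.Agent.UV
open scoped Real ComplexConjugate

private theorem T7_big (c : ℝ) (n : ℕ) : ∃ T0 : ℝ, ∀ T : ℝ, T0 ≤ T →
    c * (1 + Real.log T) ^ n ≤ T ^ (1 / 10 : ℝ) := by
  have h1 := (Real.isLittleO_pow_log_id_atTop (n := n)).comp_tendsto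
    (tendsto_rpow_atTop (show (0 : ℝ) < 1 / 10 by norm_num))
  have hc : (0 : ℝ) < 1 / (|c| * 20 ^ n + 1) := by positivity
  have h2 := (h1.bound hc).and (Filter.eventually_ge_atTop (Real.exp 1))
  obtain ⟨T0, hT0⟩ := Filter.eventually_atTop.mp h2
  refine ⟨T0, fun T hT => ?_⟩
  obtain ⟨h3, h4⟩ := hT0 T hT
  have hTpos : 0 < T := lt_of_lt_of_le (Real.exp_pos 1) h4
  have hL : 1 ≤ Real.log T := by
    have := Real.log_le_log (Real.exp_pos 1) h4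
    rwa [Real.log_exp] at this
  simp only [Function.comp_apply, id_eq] at h3
  rw [Real.log_rpow hTpos] at h3
  have h5 : 0 < T ^ (1 / 10 : ℝ) := by positivity
  rw [Real.norm_of_nonneg (by positivity), Real.norm_of_nonneg h5.le] at h3
  calc c * (1 + Real.log T) ^ n ≤ |c| * (2 * Real.log T) ^ n := by
        apply mul_le_mul (le_abs_self c) _ (by positivity) (abs_nonneg c)
        exact pow_le_pow_left₀ (by linarith) (by linarith) n
    _ = |c| * 20 ^ n * (1 / 10 * Real.log T) ^ n := by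
        rw [mul_assoc, ← mul_pow]
        congr 2
        ring
    _ ≤ |c| * 20 ^ n * (1 / (|c| * 20 ^ n + 1) * T ^ (1 / 10 : ℝ)) :=
        mul_le_mul_of_nonneg_left h3 (by positivity)
    _ = (|c| * 20 ^ n) / (|c| * 20 ^ n + 1) * T ^ (1 / 10 : ℝ) := by ring
    _ ≤ 1 * T ^ (1 / 10 : ℝ) := by
        apply mul_le_mul_of_nonneg_right _ h5.le
        rw [div_le_one (by positivity)]
        linarith
    _ = T ^ (1 / 10 : ℝ) := one_mul _

private theorem T7_pow {Q1 Q2 B : ℝ} {g : (ℕ →*₀ ℂ) → (ℕ →*₀ ℂ) → ℂ} (hg : IsP2 Q1 Q2 B g)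
    (i : ℕ) : IsP2 (Q1 ^ i) (Q2 ^ i) (B ^ i) (fun χ χ' => g χ χ' ^ i) := by
  induction i with
  | zero =>
    have h := isP2_const 1
    simpa using h
  | succ i ih =>
    have h := IsP2.mul ih hg
    simpa only [pow_succ] using h

private theorem T7_dp {T : ℝ} (hT : Real.exp 1000 ≤ T) {h : ℂ}
    (hh : -(2 / Real.log T) ≤ h.re) :
    IsP2 (T ^ (1 / 500 : ℝ)) 1 (Real.exp 2 * (1 + Real.log T) ^ 2)
      (fun χ _ => DP T (χ * nC h)) := by
  have hT0 : 0 < T := lt_of_lt_of_le (Real.exp_pos _) hT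
  have hL : 1000 ≤ Real.log T := by
    have := Real.log_le_log (Real.exp_pos 1000) hT
    rwa [Real.log_exp] at this
  have hT1 : 1 ≤ T := le_trans (Real.one_le_exp (by norm_num)) hT
  set y : ℝ := T ^ (1 / 500 : ℝ) with hy
  have hy1 : 1 ≤ y := Real.one_le_rpow hT1 (by norm_num)
  have hyT : y ≤ T := by
    calc y ≤ T ^ (1 : ℝ) := Real.rpow_le_rpow_of_exponent_le hT1 (by norm_num)
      _ = T := Real.rpow_one T
  set F : Finset ℕ := (Finset.Icc 1 ⌊y⌋₊).filter Nat.Prime with hF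
  have hFm : ∀ n ∈ F, n ≠ 0 ∧ (n : ℝ) ≤ y := by
    intro n hn
    obtain ⟨h1, h2⟩ := Finset.mem_filter.mp hn
    rw [Finset.mem_Icc] at h1
    exact ⟨by omega, (Nat.le_floor_iff (by linarith)).mp h1.2⟩
  have hP := isP2_left F (fun n => (Real.log n : ℂ) * nC h n) hFm
  have hfun : (fun χ _ => ∑ n ∈ F, (Real.log n : ℂ) * nC h n * χ n :
      (ℕ →*₀ ℂ) → (ℕ →*₀ ℂ) → ℂ) = (fun χ _ => DP T (χ * nC h)) := by
    funext χ χ'
    unfold DP
    refine Finset.sum_congr rfl fun n _ => ?_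
    change _ = (Real.log n : ℂ) * (χ n * nC h n)
    ring
  rw [hfun] at hP
  refine hP.mono le_rfl le_rfl ?_
  have hterm : ∀ n ∈ F, ‖(Real.log n : ℂ) * nC h n‖ / (n : ℝ) ≤
      Real.log T * Real.exp 2 * ((n : ℝ))⁻¹ := by
    intro n hn
    obtain ⟨h1, h2⟩ := hFm n hn
    have hn1 : (1 : ℝ) ≤ n := by exact_mod_cast Nat.one_le_iff_ne_zero.mpr h1
    have hln : Real.log n ≤ Real.log T := Real.log_le_log (by linarith) (h2.trans hyT)
    have hln0 : 0 ≤ Real.log n := Real.log_nonneg hn1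
    rw [div_eq_mul_inv, norm_mul, Complex.norm_real, Real.norm_of_nonneg hln0, norm_nC h h1]
    apply mul_le_mul_of_nonneg_right _ (by positivity)
    apply mul_le_mul hln _ (by positivity) (by linarith)
    rw [Real.rpow_def_of_pos (by linarith)]
    apply Real.exp_le_exp.mpr
    have h3 : -h.re ≤ 2 / Real.log T := by linarith
    calc Real.log n * -h.re ≤ Real.log n * (2 / Real.log T) :=
          mul_le_mul_of_nonneg_left h3 hln0
      _ ≤ Real.log T * (2 / Real.log T) :=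
          mul_le_mul_of_nonneg_right hln (by positivity)
      _ = 2 := by field_simp
  refine (Finset.sum_le_sum hterm).trans ?_
  rw [← Finset.mul_sum]
  have h4 : ∑ n ∈ F, ((n : ℝ))⁻¹ ≤ 1 + Real.log T := by
    calc ∑ n ∈ F, ((n : ℝ))⁻¹ ≤ ∑ n ∈ Finset.Icc 1 ⌊y⌋₊, ((n : ℝ))⁻¹ :=
          Finset.sum_le_sum_of_subset_of_nonneg (Finset.filter_subset _ _)
            (fun n _ _ => by positivity)
      _ = ((harmonic ⌊y⌋₊ : ℚ) : ℝ) := by
          rw [harmonic_eq_sum_Icc]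
          push_cast
          rfl
      _ ≤ 1 + Real.log y := harmonic_floor_le_one_add_log y hy1
      _ ≤ 1 + Real.log T := by
          have := Real.log_le_log (by linarith) hyT
          linarith
  have he : 0 < Real.exp 2 := Real.exp_pos 2
  calc Real.log T * Real.exp 2 * ∑ n ∈ F, ((n : ℝ))⁻¹
      ≤ Real.log T * Real.exp 2 * (1 + Real.log T) :=
        mul_le_mul_of_nonneg_left h4 (by positivity)
    _ ≤ (1 + Real.log T) * Real.exp 2 * (1 + Real.log T) := by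
        apply mul_le_mul_of_nonneg_right _ (by linarith)
        apply mul_le_mul_of_nonneg_right _ he.le
        linarith
    _ = Real.exp 2 * (1 + Real.log T) ^ 2 := by ring

private theorem T7_one {S : BS} {Ct θ D1 : ℝ} {N0 : ℕ} (hS : TG S Ct θ D1 N0) : 1 ≤ S.T :=
  le_trans (Real.one_le_exp (by norm_num)) hS.T_ge

private theorem T7_log {S : BS} {Ct θ D1 : ℝ} {N0 : ℕ} (hS : TG S Ct θ D1 N0) :
    1000 ≤ Real.log S.T := by
  have := Real.log_le_log (Real.exp_pos 1000) hS.T_ge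
  rwa [Real.log_exp] at this

private theorem T7_th {S : BS} {Ct θ D1 : ℝ} {N0 : ℕ} (hS : TG S Ct θ D1 N0) :
    0 ≤ 7 * θ ^ 3 ∧ 7 * θ ^ 3 ≤ 1 / 10000 := by
  have h1 := hS.th_pos
  have h2 := hS.th_le
  refine ⟨by positivity, ?_⟩
  have h3 : θ ^ 3 ≤ (1 / 100) ^ 3 := pow_le_pow_left₀ h1.le h2 3
  linarith

/-- the tilt is bounded by a power -/
private theorem T7_Tth {S : BS} {Ct θ D1 : ℝ} {N0 : ℕ} (hS : TG S Ct θ D1 N0) (n : ℕ) :
    (S.T ^ (7 * θ ^ 3)) ^ n ≤ S.T ^ ((n : ℝ) / 10000) := by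
  have h1 := T7_one hS
  obtain ⟨h2, h3⟩ := T7_th hS
  rw [← Real.rpow_natCast, ← Real.rpow_mul (by linarith)]
  apply Real.rpow_le_rpow_of_exponent_le h1
  calc 7 * θ ^ 3 * (n : ℝ) ≤ 1 / 10000 * n := mul_le_mul_of_nonneg_right h3 (Nat.cast_nonneg n)
    _ = (n : ℝ) / 10000 := by ring

private theorem T7_alg (A B E M : ℝ) (k : ℕ) :
    (A ^ k * B) ^ 2 * ((E * M ^ 2) ^ k * B) ^ 2 * (30 * M) ^ (2 * k) =
      A ^ (2 * k) * (B ^ 4 * (E ^ (2 * k) * 30 ^ (2 * k) * M ^ (6 * k))) := by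
  ring

theorem TDM (lam η : ℝ) (h0 : 0 < lam) (h1 : 0 < η) (h2 : η ≤ 1) (k : ℕ) (hk : k ≤ 3) :
    ∃ C0 K : ℝ, 1 ≤ K ∧
    ∀ {Ct θ D1 : ℝ} {N0 : ℕ}, C0 ≤ Ct → ∃ T0 : ℝ, ∀ {S : BS}, TG S Ct θ D1 N0 → T0 ≤ S.T →
    ∀ z : ℂ, -2 ≤ z.re → z.re ≤ 20 * Real.log S.T →
    ∫⁻ t in Dm η S.T, ENNReal.ofReal (‖DP S.T (nC (pt S.T t z)) / (Real.log S.T : ℝ)‖ ^ (2 * k) *
      uu S lam t) ≤
    ENNReal.ofReal (K * (S.T * Lam S lam) / (3 + z.re) ^ (2 * k)) := by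
  obtain ⟨C5, hC5, hmean⟩ := mean5 η h1 h2
  obtain ⟨C4, K4, hK4, hX⟩ := XR4 lam h0 k
  obtain ⟨T1, hT1⟩ := T7_big ((Real.exp 2) ^ (2 * k) * 30 ^ (2 * k)) (6 * k)
  refine ⟨max C4 lam, C5 * (K4 + 1), by nlinarith, ?_⟩
  intro Ct θ D1 N0 hCt
  refine ⟨T1, ?_⟩
  intro S hS hST z hz1 hz2
  have hC4 : C4 ≤ Ct := (le_max_left _ _).trans hCt
  have hlam : |lam| ≤ Ct := by
    rw [abs_of_pos h0]
    exact (le_max_right _ _).trans hCt
  have hT := T7_one hS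
  have hTpos : 0 < S.T := by linarith
  have hL := T7_log hS
  set L : ℝ := Real.log S.T with hLdef
  have hLpos : 0 < L := by linarith
  have hzre : (z / (L : ℂ)).re = z.re / L := by
    rw [Complex.div_ofReal_re]
  have hh : -(2 / L) ≤ (z / (L : ℂ)).re := by
    rw [hzre, neg_eq_neg_one_mul, ← mul_div_assoc]
    apply div_le_div_of_nonneg_right _ hLpos.le
    linarith
  -- the polynomial
  set g : (ℕ →*₀ ℂ) → ℂ := fun χ => DP S.T (χ * nC (z / (L : ℂ))) ^ k * RT S lam χ with hg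
  have hgP : IsP2 ((S.T ^ (1 / 500 : ℝ)) ^ k * S.T ^ (7 * θ ^ 3)) 1
      ((Real.exp 2 * (1 + L) ^ 2) ^ k * S.T ^ (7 * θ ^ 3)) (fun χ _ => g χ) := by
    have a1 := T7_pow (T7_dp hS.T_ge hh) k
    have a2 := RT_dp hS hlam
    have a3 := IsP2.mul a1 a2
    rw [one_pow, one_mul] at a3
    exact a3
  have hQ1 : 1 ≤ (S.T ^ (1 / 500 : ℝ)) ^ k * S.T ^ (7 * θ ^ 3) := by
    have b1 : 1 ≤ S.T ^ (1 / 500 : ℝ) := Real.one_le_rpow hT (by norm_num)
    have b2 : 1 ≤ S.T ^ (7 * θ ^ 3) := Real.one_le_rpow hT (T7_th hS).1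
    exact one_le_mul_of_one_le_of_one_le (one_le_pow₀ b1) b2
  have hm := hmean hQ1 hT hgP
  -- the random side
  have hx1 : -2 ≤ L * (z / (L : ℂ)).re := by
    rw [hzre, mul_div_cancel₀ _ hLpos.ne']
    exact hz1
  have hx2 : (z / (L : ℂ)).re ≤ 20 := by
    rw [hzre, div_le_iff₀ hLpos]
    exact hz2
  have hr := hX hS hC4 (z / (L : ℂ)) hx1 hx2
  rw [show L * (z / (L : ℂ)).re = z.re by rw [hzre, mul_div_cancel₀ _ hLpos.ne']] at hr
  have hint : ∫ v, ‖g (nX 0 v)‖ ^ 2 ∂mu = L ^ (2 * k) *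
      ∫ w, ‖DP S.T (nX (z / (L : ℂ)) w) / (L : ℝ)‖ ^ (2 * k) * ‖RT S lam (nX 0 w)‖ ^ 2 ∂mu := by
    rw [← integral_const_mul]
    congr 1
    funext w
    rw [hg]
    beta_reduce
    rw [nX_mul_nC, zero_add, norm_mul, mul_pow, norm_pow, norm_div, Complex.norm_real,
      Real.norm_of_nonneg hLpos.le, div_pow, ← pow_mul, mul_comm k 2]
    field_simp
  -- the line
  have hline : ∀ t : ℝ, ‖DP S.T (nC (pt S.T t z)) / (L : ℝ)‖ ^ (2 * k) * uu S lam t =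
      (L ^ (2 * k))⁻¹ * ‖g (nC (1 / 2 + t * I))‖ ^ 2 := by
    intro t
    rw [hg]
    beta_reduce
    rw [nC_mul_nC, norm_mul, mul_pow, norm_pow, norm_div, Complex.norm_real,
      Real.norm_of_nonneg hLpos.le, div_pow, ← pow_mul, mul_comm k 2]
    unfold uu pt
    rw [← hLdef]
    field_simp
  have hLk : 0 < L ^ (2 * k) := by positivity
  have hLam := one_le_Lam S lam
  have hx3 : 1 ≤ 3 + z.re := by linarith
  have hxk : 0 < (3 + z.re) ^ (2 * k) := by positivity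
  calc ∫⁻ t in Dm η S.T, ENNReal.ofReal (‖DP S.T (nC (pt S.T t z)) / (L : ℝ)‖ ^ (2 * k) *
      uu S lam t) = ∫⁻ t in Dm η S.T, ENNReal.ofReal ((L ^ (2 * k))⁻¹) *
        ENNReal.ofReal (‖g (nC (1 / 2 + t * I))‖ ^ 2) := by
        congr 1
        funext t
        rw [hline t, ENNReal.ofReal_mul (by positivity)]
    _ = ENNReal.ofReal ((L ^ (2 * k))⁻¹) *
        ∫⁻ t in Dm η S.T, ENNReal.ofReal (‖g (nC (1 / 2 + t * I))‖ ^ 2) :=
        lintegral_const_mul' _ _ ENNReal.ofReal_ne_top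
    _ ≤ ENNReal.ofReal ((L ^ (2 * k))⁻¹) * ENNReal.ofReal (C5 * (S.T *
        (∫ v, ‖g (nX 0 v)‖ ^ 2 ∂mu) + ((S.T ^ (1 / 500 : ℝ)) ^ k * S.T ^ (7 * θ ^ 3)) ^ 2 *
          ((Real.exp 2 * (1 + L) ^ 2) ^ k * S.T ^ (7 * θ ^ 3)) ^ 2)) := by
        gcongr
    _ = ENNReal.ofReal ((L ^ (2 * k))⁻¹ * (C5 * (S.T *
        (∫ v, ‖g (nX 0 v)‖ ^ 2 ∂mu) + ((S.T ^ (1 / 500 : ℝ)) ^ k * S.T ^ (7 * θ ^ 3)) ^ 2 *
          ((Real.exp 2 * (1 + L) ^ 2) ^ k * S.T ^ (7 * θ ^ 3)) ^ 2))) := by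
        rw [← ENNReal.ofReal_mul (by positivity)]
    _ ≤ ENNReal.ofReal (C5 * (K4 + 1) * (S.T * Lam S lam) / (3 + z.re) ^ (2 * k)) := by
        apply ENNReal.ofReal_le_ofReal
        rw [hint]
        -- the error term
        have e1 : ((S.T ^ (1 / 500 : ℝ)) ^ k * S.T ^ (7 * θ ^ 3)) ^ 2 *
            ((Real.exp 2 * (1 + L) ^ 2) ^ k * S.T ^ (7 * θ ^ 3)) ^ 2 * (3 + z.re) ^ (2 * k) ≤
            S.T := by
          have f1 : (3 + z.re) ^ (2 * k) ≤ (30 * (1 + L)) ^ (2 * k) := by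
            apply pow_le_pow_left₀ (by linarith)
            linarith
          have f2 : (S.T ^ (1 / 500 : ℝ)) ^ (2 * k) ≤ S.T ^ (6 / 500 : ℝ) := by
            rw [← Real.rpow_natCast, ← Real.rpow_mul hTpos.le]
            apply Real.rpow_le_rpow_of_exponent_le hT
            have : ((2 * k : ℕ) : ℝ) ≤ 6 := by
              have : 2 * k ≤ 6 := by omega
              exact_mod_cast this
            linarith
          have f3 := T7_Tth hS 4
          have f4 := hT1 S.T hST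
          have f5 : S.T ^ (6 / 500 : ℝ) * (S.T ^ (((4 : ℕ) : ℝ) / 10000) * S.T ^ (1 / 10 : ℝ)) ≤
              S.T := by
            rw [← Real.rpow_add hTpos, ← Real.rpow_add hTpos]
            calc S.T ^ (6 / 500 + (((4 : ℕ) : ℝ) / 10000 + 1 / 10) : ℝ) ≤ S.T ^ (1 : ℝ) := by
                  apply Real.rpow_le_rpow_of_exponent_le hT
                  norm_num
              _ = S.T := Real.rpow_one _
          calc ((S.T ^ (1 / 500 : ℝ)) ^ k * S.T ^ (7 * θ ^ 3)) ^ 2 *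
              ((Real.exp 2 * (1 + L) ^ 2) ^ k * S.T ^ (7 * θ ^ 3)) ^ 2 * (3 + z.re) ^ (2 * k)
              ≤ ((S.T ^ (1 / 500 : ℝ)) ^ k * S.T ^ (7 * θ ^ 3)) ^ 2 *
              ((Real.exp 2 * (1 + L) ^ 2) ^ k * S.T ^ (7 * θ ^ 3)) ^ 2 *
                (30 * (1 + L)) ^ (2 * k) := mul_le_mul_of_nonneg_left f1 (by positivity)
            _ = (S.T ^ (1 / 500 : ℝ)) ^ (2 * k) * ((S.T ^ (7 * θ ^ 3)) ^ 4 *
                ((Real.exp 2) ^ (2 * k) * 30 ^ (2 * k) * (1 + L) ^ (6 * k))) :=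
                T7_alg _ _ _ _ k
            _ ≤ S.T ^ (6 / 500 : ℝ) * (S.T ^ (((4 : ℕ) : ℝ) / 10000) * S.T ^ (1 / 10 : ℝ)) := by
                gcongr
            _ ≤ S.T := f5
        have e2 : (L ^ (2 * k))⁻¹ * (C5 * (S.T *
            (L ^ (2 * k) * ∫ w, ‖DP S.T (nX (z / (L : ℂ)) w) / (L : ℝ)‖ ^ (2 * k) *
              ‖RT S lam (nX 0 w)‖ ^ 2 ∂mu))) ≤
            C5 * K4 * (S.T * Lam S lam) / (3 + z.re) ^ (2 * k) := by
          calc (L ^ (2 * k))⁻¹ * (C5 * (S.T *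
            (L ^ (2 * k) * ∫ w, ‖DP S.T (nX (z / (L : ℂ)) w) / (L : ℝ)‖ ^ (2 * k) *
              ‖RT S lam (nX 0 w)‖ ^ 2 ∂mu))) = C5 * S.T *
              ∫ w, ‖DP S.T (nX (z / (L : ℂ)) w) / (L : ℝ)‖ ^ (2 * k) *
              ‖RT S lam (nX 0 w)‖ ^ 2 ∂mu := by
                field_simp
            _ ≤ C5 * S.T * (K4 * Lam S lam / (3 + z.re) ^ (2 * k)) :=
                mul_le_mul_of_nonneg_left hr (by positivity)
            _ = C5 * K4 * (S.T * Lam S lam) / (3 + z.re) ^ (2 * k) := by ring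
        have e3 : (L ^ (2 * k))⁻¹ * (C5 * (((S.T ^ (1 / 500 : ℝ)) ^ k * S.T ^ (7 * θ ^ 3)) ^ 2 *
            ((Real.exp 2 * (1 + L) ^ 2) ^ k * S.T ^ (7 * θ ^ 3)) ^ 2)) ≤
            C5 * (S.T * Lam S lam) / (3 + z.re) ^ (2 * k) := by
          rw [le_div_iff₀ hxk]
          have g1 : (L ^ (2 * k))⁻¹ ≤ 1 := inv_le_one_of_one_le₀ (one_le_pow₀ (by linarith))
          have g2 : 0 ≤ C5 := by linarith
          calc (L ^ (2 * k))⁻¹ * (C5 * (((S.T ^ (1 / 500 : ℝ)) ^ k * S.T ^ (7 * θ ^ 3)) ^ 2 *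
            ((Real.exp 2 * (1 + L) ^ 2) ^ k * S.T ^ (7 * θ ^ 3)) ^ 2)) * (3 + z.re) ^ (2 * k)
              = (L ^ (2 * k))⁻¹ * (C5 * (((S.T ^ (1 / 500 : ℝ)) ^ k * S.T ^ (7 * θ ^ 3)) ^ 2 *
            ((Real.exp 2 * (1 + L) ^ 2) ^ k * S.T ^ (7 * θ ^ 3)) ^ 2 *
              (3 + z.re) ^ (2 * k))) := by ring
            _ ≤ 1 * (C5 * (S.T * Lam S lam)) := by
                apply mul_le_mul g1 _ (by positivity) zero_le_one
                apply mul_le_mul_of_nonneg_left _ g2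
                calc _ ≤ S.T := e1
                  _ = S.T * 1 := (mul_one _).symm
                  _ ≤ S.T * Lam S lam := mul_le_mul_of_nonneg_left hLam hTpos.le
            _ = C5 * (S.T * Lam S lam) := one_mul _
        calc (L ^ (2 * k))⁻¹ * (C5 * (S.T *
            (L ^ (2 * k) * ∫ w, ‖DP S.T (nX (z / (L : ℂ)) w) / (L : ℝ)‖ ^ (2 * k) *
              ‖RT S lam (nX 0 w)‖ ^ 2 ∂mu) +
            ((S.T ^ (1 / 500 : ℝ)) ^ k * S.T ^ (7 * θ ^ 3)) ^ 2 *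
            ((Real.exp 2 * (1 + L) ^ 2) ^ k * S.T ^ (7 * θ ^ 3)) ^ 2)) =
            (L ^ (2 * k))⁻¹ * (C5 * (S.T *
            (L ^ (2 * k) * ∫ w, ‖DP S.T (nX (z / (L : ℂ)) w) / (L : ℝ)‖ ^ (2 * k) *
              ‖RT S lam (nX 0 w)‖ ^ 2 ∂mu))) +
            (L ^ (2 * k))⁻¹ * (C5 * (((S.T ^ (1 / 500 : ℝ)) ^ k * S.T ^ (7 * θ ^ 3)) ^ 2 *
            ((Real.exp 2 * (1 + L) ^ 2) ^ k * S.T ^ (7 * θ ^ 3)) ^ 2)) := by ring
          _ ≤ C5 * K4 * (S.T * Lam S lam) / (3 + z.re) ^ (2 * k) +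
              C5 * (S.T * Lam S lam) / (3 + z.re) ^ (2 * k) := add_le_add e2 e3
          _ = C5 * (K4 + 1) * (S.T * Lam S lam) / (3 + z.re) ^ (2 * k) := by ring

theorem TMass (lam η : ℝ) (h0 : 0 < lam) (h1 : 0 < η) (h2 : η ≤ 1) : ∃ C0 K : ℝ, 1 ≤ K ∧
    ∀ {Ct θ D1 : ℝ} {N0 : ℕ}, C0 ≤ Ct → ∃ T0 : ℝ, ∀ {S : BS}, TG S Ct θ D1 N0 → T0 ≤ S.T →
    ∫⁻ t in Dm η S.T, ENNReal.ofReal (uu S lam t) ≤ ENNReal.ofReal (K * (S.T * Lam S lam)) := by
  obtain ⟨C5, hC5, hmean⟩ := mean5 η h1 h2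
  obtain ⟨C4, c, K4, hc, hK4, hE⟩ := ER_bounds lam h0
  refine ⟨max C4 lam, C5 * (K4 + 1), by nlinarith, ?_⟩
  intro Ct θ D1 N0 hCt
  refine ⟨0, ?_⟩
  intro S hS _
  have hC4 : C4 ≤ Ct := (le_max_left _ _).trans hCt
  have hlam : |lam| ≤ Ct := by
    rw [abs_of_pos h0]
    exact (le_max_right _ _).trans hCt
  have hT := T7_one hS
  have hTpos : 0 < S.T := by linarith
  have b2 : 1 ≤ S.T ^ (7 * θ ^ 3) := Real.one_le_rpow hT (T7_th hS).1
  have hm := hmean b2 hT (RT_dp hS hlam)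
  have hr := (hE hS hC4).2
  have hLam := one_le_Lam S lam
  have f3 := T7_Tth hS 4
  have f5 : S.T ^ (((4 : ℕ) : ℝ) / 10000) ≤ S.T := by
    calc S.T ^ (((4 : ℕ) : ℝ) / 10000) ≤ S.T ^ (1 : ℝ) := by
          apply Real.rpow_le_rpow_of_exponent_le hT
          norm_num
      _ = S.T := Real.rpow_one _
  refine hm.trans (ENNReal.ofReal_le_ofReal ?_)
  have hr' : ∫ v, ‖RT S lam (nX 0 v)‖ ^ 2 ∂mu ≤ K4 * Lam S lam := hr
  have f6 : (S.T ^ (7 * θ ^ 3)) ^ 2 * (S.T ^ (7 * θ ^ 3)) ^ 2 ≤ S.T * Lam S lam := by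
    calc (S.T ^ (7 * θ ^ 3)) ^ 2 * (S.T ^ (7 * θ ^ 3)) ^ 2 = (S.T ^ (7 * θ ^ 3)) ^ 4 := by ring
      _ ≤ S.T := f3.trans f5
      _ = S.T * 1 := (mul_one _).symm
      _ ≤ S.T * Lam S lam := mul_le_mul_of_nonneg_left hLam hTpos.le
  have f7 : S.T * (∫ v, ‖RT S lam (nX 0 v)‖ ^ 2 ∂mu) ≤ S.T * (K4 * Lam S lam) :=
    mul_le_mul_of_nonneg_left hr' hTpos.le
  calc C5 * (S.T * (∫ v, ‖RT S lam (nX 0 v)‖ ^ 2 ∂mu) +
      (S.T ^ (7 * θ ^ 3)) ^ 2 * (S.T ^ (7 * θ ^ 3)) ^ 2) ≤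
      C5 * (S.T * (K4 * Lam S lam) + S.T * Lam S lam) :=
        mul_le_mul_of_nonneg_left (add_le_add f7 f6) (by linarith)
    _ = C5 * (K4 + 1) * (S.T * Lam S lam) := by ring

/-- `(a/l)^l ≤ e^a` -/
private theorem T7_div {a : ℝ} (ha : 0 ≤ a) (l : ℕ) :
    (a / l) ^ l ≤ Real.exp a := by
  have h1 : (0 : ℝ) < (l.factorial : ℝ) := by exact_mod_cast Nat.factorial_pos l
  have h2 : ((l.factorial : ℕ) : ℝ) ≤ (l : ℝ) ^ l := by exact_mod_cast Nat.factorial_le_pow l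
  rw [div_pow]
  calc a ^ l / (l : ℝ) ^ l ≤ a ^ l / (l.factorial : ℝ) :=
        div_le_div_of_nonneg_left (by positivity) h1 h2
    _ ≤ Real.exp a := Real.pow_div_factorial_le_exp a ha l

theorem TBad (lam η : ℝ) (h0 : 0 < lam) (h1 : 0 < η) (h2 : η ≤ 1) : ∃ C0 K : ℝ, 1 ≤ K ∧
    ∀ {Ct θ D1 : ℝ} {N0 : ℕ}, C0 ≤ Ct → ∃ T0 : ℝ, ∀ {S : BS}, TG S Ct θ D1 N0 → T0 ≤ S.T →
    ∫⁻ t in {t | t ∈ Dm η S.T ∧ ¬ Gd S lam t}, ENNReal.ofReal (uu S lam t) ≤
      ENNReal.ofReal (K * (2 : ℝ)⁻¹ ^ N0 * (S.T * Lam S lam)) := by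
  obtain ⟨C5, hC5, hmean⟩ := mean5 η h1 h2
  obtain ⟨C4, K4, hK4, hX⟩ := full5_bad lam h0
  refine ⟨max C4 lam, C5 * (K4 + 1), by nlinarith, ?_⟩
  intro Ct θ D1 N0 hCt
  obtain ⟨T1, hT1⟩ := T7_big ((Real.exp (8 * (lam + 2))) ^ 2 * 2 ^ N0) 1
  refine ⟨T1, ?_⟩
  intro S hS hST
  have hC4 : C4 ≤ Ct := (le_max_left _ _).trans hCt
  have hlam : |lam| ≤ Ct := by
    rw [abs_of_pos h0]
    exact (le_max_right _ _).trans hCt
  have hT := T7_one hS
  have hTpos : 0 < S.T := by linarith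
  have hL := T7_log hS
  set a : ℝ := 8 * (lam + 2) with ha
  have hapos : 0 < a := by positivity
  have b2 : 1 ≤ S.T ^ (7 * θ ^ 3) := Real.one_le_rpow hT (T7_th hS).1
  -- the polynomials
  set g : ℕ → (ℕ →*₀ ℂ) → ℂ := fun j χ =>
    RT S lam χ * ((((a / S.l j) ^ S.l j : ℝ) : ℂ) * PS (S.R j) χ ^ S.l j) with hg
  have hgP : ∀ j ≤ S.J, IsP2 (S.T ^ (7 * θ ^ 3) * S.T ^ (7 * θ ^ 3)) 1
      (S.T ^ (7 * θ ^ 3) * (Real.exp a * S.T ^ (7 * θ ^ 3))) (fun χ _ => g j χ) := by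
    intro j hj
    have a1 := RT_dp hS hlam
    have a2 := PS_dp hS hj
    have a3 := IsP2.mul (isP2_const (((a / S.l j) ^ S.l j : ℝ) : ℂ)) a2
    have a4 := IsP2.mul a1 a3
    rw [one_mul, one_mul, one_mul] at a4
    refine a4.mono le_rfl le_rfl ?_
    apply mul_le_mul_of_nonneg_left _ (by positivity)
    apply mul_le_mul_of_nonneg_right _ (by positivity)
    rw [Complex.norm_real, Real.norm_of_nonneg (by positivity)]
    exact T7_div hapos.le _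
  have hQ1 : 1 ≤ S.T ^ (7 * θ ^ 3) * S.T ^ (7 * θ ^ 3) := one_le_mul_of_one_le_of_one_le b2 b2
  set e : ℝ := (S.T ^ (7 * θ ^ 3) * S.T ^ (7 * θ ^ 3)) ^ 2 *
    (S.T ^ (7 * θ ^ 3) * (Real.exp a * S.T ^ (7 * θ ^ 3))) ^ 2 with he
  have he0 : 0 ≤ e := by positivity
  -- the number of blocks
  have hJ : ((S.J : ℝ) + 1) ≤ Real.log S.T := by
    have k1 := hS.len
    have k2 : ∑ j ∈ range (S.J + 1), (1 : ℝ) ≤
        ∑ j ∈ range (S.J + 1), ((S.l j : ℝ) * Real.log (S.N j) + Ct) := by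
      apply Finset.sum_le_sum
      intro j hj
      have hj' : j ≤ S.J := by
        rw [Finset.mem_range] at hj; omega
      have k3 := Real.log_nonneg (hS.N_ge j hj')
      have k4 : 0 ≤ (S.l j : ℝ) * Real.log (S.N j) := by positivity
      have k5 := hS.Ct_ge
      linarith
    rw [Finset.sum_const, Finset.card_range, nsmul_eq_mul, mul_one] at k2
    push_cast at k2
    have k6 := (T7_th hS).2
    have k7 : 7 * θ ^ 3 * Real.log S.T ≤ 1 / 10000 * Real.log S.T :=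
      mul_le_mul_of_nonneg_right k6 (by linarith)
    linarith
  have hLam := one_le_Lam S lam
  -- error terms
  have herr : ((S.J : ℝ) + 1) * e ≤ (2 : ℝ)⁻¹ ^ N0 * (S.T * Lam S lam) := by
    have f3 := T7_Tth hS 8
    have f4 := hT1 S.T hST
    rw [pow_one] at f4
    have f5 : S.T ^ (((8 : ℕ) : ℝ) / 10000) * S.T ^ (1 / 10 : ℝ) ≤ S.T := by
      rw [← Real.rpow_add hTpos]
      calc S.T ^ ((((8 : ℕ) : ℝ) / 10000 + 1 / 10) : ℝ) ≤ S.T ^ (1 : ℝ) := by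
            apply Real.rpow_le_rpow_of_exponent_le hT
            norm_num
        _ = S.T := Real.rpow_one _
    have f6 : 2 ^ N0 * (((S.J : ℝ) + 1) * e) ≤ S.T := by
      calc 2 ^ N0 * (((S.J : ℝ) + 1) * e) = (S.T ^ (7 * θ ^ 3)) ^ 8 *
            ((Real.exp a) ^ 2 * 2 ^ N0 * ((S.J : ℝ) + 1)) := by
            rw [he]
            ring
        _ ≤ S.T ^ (((8 : ℕ) : ℝ) / 10000) * S.T ^ (1 / 10 : ℝ) := by
            apply mul_le_mul f3 _ (by positivity) (by positivity)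
            refine le_trans ?_ f4
            apply mul_le_mul_of_nonneg_left _ (by positivity)
            linarith
        _ ≤ S.T := f5
    have f7 : ((S.J : ℝ) + 1) * e ≤ (2 : ℝ)⁻¹ ^ N0 * S.T := by
      rw [inv_pow, inv_mul_eq_div, le_div_iff₀ (by positivity)]
      linarith
    refine f7.trans ?_
    apply mul_le_mul_of_nonneg_left _ (by positivity)
    exact le_mul_of_one_le_right hTpos.le hLam
  -- the random side
  have hint : ∀ j, ∫ v, ‖g j (nX 0 v)‖ ^ 2 ∂mu = ∫ w, ‖RT S lam (nX 0 w)‖ ^ 2 *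
      (8 * (lam + 2) * ‖PX (S.R j) 0 w‖ / S.l j) ^ (2 * S.l j) ∂mu := by
    intro j
    congr 1
    funext w
    rw [hg]
    beta_reduce
    rw [norm_mul, norm_mul, Complex.norm_real, Real.norm_of_nonneg (by positivity), norm_pow,
      ← mul_pow, mul_pow, ← pow_mul]
    unfold PX
    rw [← ha, mul_comm (S.l j) 2]
    congr 2
    ring
  -- the line
  have hcont : ∀ j ≤ S.J, Continuous fun t : ℝ => g j (nC (1 / 2 + t * I)) :=
    fun j hj => (hgP j hj).continuous_line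
  have hpt : ∀ t : ℝ, t ∈ {t | t ∈ Dm η S.T ∧ ¬ Gd S lam t} → ENNReal.ofReal (uu S lam t) ≤
      ∑ j ∈ range (S.J + 1), ENNReal.ofReal (‖g j (nC (1 / 2 + t * I))‖ ^ 2) := by
    rintro t ⟨-, ht⟩
    unfold Gd at ht
    push Not at ht
    obtain ⟨j, hj, hj2⟩ := ht
    have hl := (hS.l_ge j hj).2
    have hl0 : (0 : ℝ) < S.l j := by exact_mod_cast hl
    have hx : 1 ≤ a / S.l j * ‖PS (S.R j) (nC (1 / 2 + t * I))‖ := by
      rw [div_lt_iff₀ hapos] at hj2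
      rw [div_mul_eq_mul_div, le_div_iff₀ hl0]
      linarith
    have h3 : ENNReal.ofReal (uu S lam t) ≤ ENNReal.ofReal (‖g j (nC (1 / 2 + t * I))‖ ^ 2) := by
      apply ENNReal.ofReal_le_ofReal
      rw [hg]
      beta_reduce
      rw [norm_mul, norm_mul, Complex.norm_real, Real.norm_of_nonneg (by positivity), norm_pow,
        ← mul_pow, mul_pow, ← pow_mul]
      unfold uu
      exact le_mul_of_one_le_right (by positivity) (one_le_pow₀ hx)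
    refine h3.trans ?_
    exact Finset.single_le_sum
      (f := fun j => ENNReal.ofReal (‖g j (nC (1 / 2 + t * I))‖ ^ 2))
      (fun _ _ => zero_le) (Finset.mem_range.mpr (by omega))
  have hmeas : ∀ j ∈ range (S.J + 1), Measurable fun t : ℝ =>
      ENNReal.ofReal (‖g j (nC (1 / 2 + t * I))‖ ^ 2) := by
    intro j hj
    have hj' : j ≤ S.J := by
      rw [Finset.mem_range] at hj; omega
    exact (ENNReal.continuous_ofReal.comp ((hcont j hj').norm.pow 2)).measurable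
  calc ∫⁻ t in {t | t ∈ Dm η S.T ∧ ¬ Gd S lam t}, ENNReal.ofReal (uu S lam t)
      ≤ ∫⁻ t in {t | t ∈ Dm η S.T ∧ ¬ Gd S lam t},
        ∑ j ∈ range (S.J + 1), ENNReal.ofReal (‖g j (nC (1 / 2 + t * I))‖ ^ 2) :=
        setLIntegral_mono_ae (Finset.measurable_sum _ hmeas).aemeasurable
          (Filter.Eventually.of_forall hpt)
    _ ≤ ∫⁻ t in Dm η S.T,
        ∑ j ∈ range (S.J + 1), ENNReal.ofReal (‖g j (nC (1 / 2 + t * I))‖ ^ 2) :=
        lintegral_mono_set fun t ht => ht.1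
    _ = ∑ j ∈ range (S.J + 1), ∫⁻ t in Dm η S.T,
        ENNReal.ofReal (‖g j (nC (1 / 2 + t * I))‖ ^ 2) := lintegral_finsetSum _ hmeas
    _ ≤ ∑ j ∈ range (S.J + 1), ENNReal.ofReal (C5 * (S.T *
        (∫ v, ‖g j (nX 0 v)‖ ^ 2 ∂mu) + e)) := by
        apply Finset.sum_le_sum
        intro j hj
        have hj' : j ≤ S.J := by
          rw [Finset.mem_range] at hj; omega
        exact hmean hQ1 hT (hgP j hj')
    _ = ENNReal.ofReal (∑ j ∈ range (S.J + 1), C5 * (S.T *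
        (∫ v, ‖g j (nX 0 v)‖ ^ 2 ∂mu) + e)) := by
        rw [ENNReal.ofReal_sum_of_nonneg]
        intro j _
        have : 0 ≤ ∫ v, ‖g j (nX 0 v)‖ ^ 2 ∂mu := integral_nonneg fun v => by positivity
        positivity
    _ ≤ ENNReal.ofReal (C5 * (K4 + 1) * (2 : ℝ)⁻¹ ^ N0 * (S.T * Lam S lam)) := by
        apply ENNReal.ofReal_le_ofReal
        rw [← Finset.mul_sum, Finset.sum_add_distrib, ← Finset.mul_sum, Finset.sum_const,
          Finset.card_range, nsmul_eq_mul]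
        push_cast
        have hr := hX hS hC4
        have hr2 : ∑ j ∈ range (S.J + 1), ∫ v, ‖g j (nX 0 v)‖ ^ 2 ∂mu ≤
            K4 * (2 : ℝ)⁻¹ ^ N0 * Lam S lam := by
          rw [Finset.sum_congr rfl fun j _ => hint j]
          exact hr
        have hr3 := mul_le_mul_of_nonneg_left hr2 hTpos.le
        calc C5 * (S.T * ∑ j ∈ range (S.J + 1), ∫ v, ‖g j (nX 0 v)‖ ^ 2 ∂mu +
            ((S.J : ℝ) + 1) * e) ≤
            C5 * (S.T * (K4 * (2 : ℝ)⁻¹ ^ N0 * Lam S lam) +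
              (2 : ℝ)⁻¹ ^ N0 * (S.T * Lam S lam)) :=
              mul_le_mul_of_nonneg_left (add_le_add hr3 herr) (by linarith)
          _ = C5 * (K4 + 1) * (2 : ℝ)⁻¹ ^ N0 * (S.T * Lam S lam) := by ring

end Pool.Agent.LB
end

section

/-! TASK MA3. The tilted mass of the good set. The whole line is `EE ∪ (Dm)ᶜ ∪ {t ∈ Dm, ¬ Gd}`. `mass_total`, `mass_out`, and on `Dm`: `Kw ≤ C_η T^{-1/2}` (`Kw_dm`), so the bad part is at most `C_η T^{-1/2} K 2^{-N0} T Lam` (`TBad`). `Kt ER ≥ c √T Lam` (`Kt_bounds`, `ER_bounds`): choose `η0` with `K √η0 ≤ c/200`, then `N00 = N00(η)` with `C_η K 2^{-N00} ≤ c/200`.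
All integrands are measurable (`uu_continuous`, `Kw_continuous`; the primes of the blocks are `≠ 0`). The last statement: `T^{1/2} Lam ≤ C Kt ER`. -/

set_option autoImplicit false

namespace Pool.Agent.LB

open Complex MeasureTheory Finset Pool.Agent.GH Pool.Agent.UH Pool.Agent.UV
open scoped Real ComplexConjugate

private theorem MA3_m0 (lam : ℝ) (h0 : 0 < lam) : ∃ C0 c C : ℝ, 0 < c ∧ 1 ≤ C ∧
    ∀ {S : BS} {Ct θ D1 : ℝ} {N0 : ℕ}, TG S Ct θ D1 N0 → C0 ≤ Ct →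
    c * (S.T ^ (1 / 2 : ℝ) * Lam S lam) ≤ Kt S.T * ER S lam ∧
    Kt S.T * ER S lam ≤ C * (S.T ^ (1 / 2 : ℝ) * Lam S lam) := by
  obtain ⟨c1, C1, hc1, hC1, hK⟩ := Kt_bounds
  obtain ⟨C0, c2, K2, hc2, hK2, hE⟩ := ER_bounds lam h0
  refine ⟨C0, c1 * c2, C1 * K2, by positivity, by nlinarith, ?_⟩
  intro S Ct θ D1 N0 hS hC
  obtain ⟨hE1, hE2⟩ := hE hS hC
  obtain ⟨hK1, hK2'⟩ := hK S.T hS.T_ge
  have hT : 0 < S.T := (Real.exp_pos _).trans_le hS.T_ge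
  have hTp : 0 < S.T ^ (1 / 2 : ℝ) := Real.rpow_pos_of_pos hT _
  have hL : 0 < Lam S lam := Real.exp_pos _
  have hE0 : 0 ≤ ER S lam := le_trans (by positivity) hE1
  constructor
  · calc c1 * c2 * (S.T ^ (1 / 2 : ℝ) * Lam S lam)
        = (c1 * S.T ^ (1 / 2 : ℝ)) * (c2 * Lam S lam) := by ring
      _ ≤ Kt S.T * ER S lam :=
          mul_le_mul hK1 hE1 (by positivity) (le_trans (by positivity) hK1)
  · calc Kt S.T * ER S lam ≤ (C1 * S.T ^ (1 / 2 : ℝ)) * (K2 * Lam S lam) :=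
          mul_le_mul hK2' hE2 hE0 (by positivity)
      _ = _ := by ring

theorem mass_lower (lam : ℝ) (h0 : 0 < lam) : ∃ η0 : ℝ, 0 < η0 ∧ η0 ≤ 1 ∧ ∀ η : ℝ, 0 < η → η ≤ η0 →
    ∃ (N00 : ℕ) (C0 : ℝ), ∀ {Ct θ D1 : ℝ} {N0 : ℕ}, C0 ≤ Ct → N00 ≤ N0 →
    ∃ T0 : ℝ, ∀ {S : BS}, TG S Ct θ D1 N0 → T0 ≤ S.T →
    ENNReal.ofReal (98 / 100 * (Kt S.T * ER S lam)) ≤
      ∫⁻ t in EE S lam η, ENNReal.ofReal (Kw S.T t * uu S lam t) := by
  obtain ⟨Cm, c, _, hc, _, hm⟩ := MA3_m0 lam h0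
  obtain ⟨Ca, ha⟩ := mass_total lam h0
  obtain ⟨Cb, K1, hK1, hb⟩ := mass_out lam h0
  have hq : 0 < c / (200 * K1) := by positivity
  refine ⟨min 1 ((c / (200 * K1)) ^ 2), lt_min one_pos (by positivity), min_le_left _ _, ?_⟩
  intro η hη hη0
  have hη1 : η ≤ 1 := hη0.trans (min_le_left _ _)
  have hη2 : K1 * η ^ (1 / 2 : ℝ) ≤ c / 200 := by
    have h1 : η ^ (1 / 2 : ℝ) ≤ c / (200 * K1) := by
      calc η ^ (1 / 2 : ℝ) ≤ ((c / (200 * K1)) ^ 2) ^ (1 / 2 : ℝ) :=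
            Real.rpow_le_rpow hη.le (hη0.trans (min_le_right _ _)) (by norm_num)
        _ = c / (200 * K1) := by
            rw [← Real.sqrt_eq_rpow, Real.sqrt_sq hq.le]
    calc K1 * η ^ (1 / 2 : ℝ) ≤ K1 * (c / (200 * K1)) :=
          mul_le_mul_of_nonneg_left h1 (by linarith)
      _ = c / 200 := by
          have : K1 ≠ 0 := by linarith
          field_simp
  obtain ⟨_, C3, T3, _, hC3, hw⟩ := Kw_dm η hη hη1
  obtain ⟨Cd, K2, hK2, hd⟩ := TBad lam η h0 hη hη1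
  obtain ⟨N00, hN00⟩ : ∃ N00 : ℕ, (2 : ℝ)⁻¹ ^ N00 < c / (200 * (C3 * K2)) :=
    exists_pow_lt_of_lt_one (by positivity) (by norm_num)
  refine ⟨N00, max (max Cm Ca) (max Cb Cd), ?_⟩
  intro Ct θ D1 N0 hCt hN0
  have hCm : Cm ≤ Ct := (le_max_left _ _).trans ((le_max_left _ _).trans hCt)
  have hCa : Ca ≤ Ct := (le_max_right _ _).trans ((le_max_left _ _).trans hCt)
  have hCb : Cb ≤ Ct := (le_max_left _ _).trans ((le_max_right _ _).trans hCt)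
  have hCd : Cd ≤ Ct := (le_max_right _ _).trans ((le_max_right _ _).trans hCt)
  obtain ⟨Ta, ha'⟩ := ha (Ct := Ct) (θ := θ) (D1 := D1) (N0 := N0) hCa
  obtain ⟨Tb, hb'⟩ := hb η hη hη1 (Ct := Ct) (θ := θ) (D1 := D1) (N0 := N0) hCb
  obtain ⟨Td, hd'⟩ := hd (Ct := Ct) (θ := θ) (D1 := D1) (N0 := N0) hCd
  refine ⟨max (max Ta Tb) (max Td T3), ?_⟩
  intro S hS hT0
  have hTa : Ta ≤ S.T := (le_max_left _ _).trans ((le_max_left _ _).trans hT0)
  have hTb : Tb ≤ S.T := (le_max_right _ _).trans ((le_max_left _ _).trans hT0)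
  have hTd : Td ≤ S.T := (le_max_left _ _).trans ((le_max_right _ _).trans hT0)
  have hT3 : T3 ≤ S.T := (le_max_right _ _).trans ((le_max_right _ _).trans hT0)
  have hT : 0 < S.T := (Real.exp_pos _).trans_le hS.T_ge
  have hTp : 0 < S.T ^ (1 / 2 : ℝ) := Real.rpow_pos_of_pos hT _
  have hL : 0 < Lam S lam := Real.exp_pos _
  have hR : ∀ j ≤ S.J, ∀ p ∈ S.R j, p ≠ 0 := fun j hj p hp => (hS.prime j hj p hp).1.ne_zero
  have hm1 := (hm hS hCm).1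
  have hm0 : 0 ≤ Kt S.T * ER S lam := le_trans (by positivity) hm1
  have hEm := EE_measurable S lam η hR
  have hsub : EE S lam η ⊆ Dm η S.T := fun t ht => ht.1
  -- the bad set
  have hBm : MeasurableSet {t | t ∈ Dm η S.T ∧ ¬ Gd S lam t} := by
    have : {t | t ∈ Dm η S.T ∧ ¬ Gd S lam t} = Dm η S.T \ EE S lam η := by
      ext t
      constructor
      · rintro ⟨h1, h2⟩
        exact ⟨h1, fun h3 => h2 h3.2⟩
      · rintro ⟨h1, h2⟩
        exact ⟨h1, fun h3 => h2 ⟨h1, h3⟩⟩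
    rw [this]
    exact measurableSet_Icc.diff hEm
  have hBad : ∫⁻ t in {t | t ∈ Dm η S.T ∧ ¬ Gd S lam t},
      ENNReal.ofReal (Kw S.T t * uu S lam t) ≤
      ENNReal.ofReal (1 / 200 * (Kt S.T * ER S lam)) := by
    have h1 : ∫⁻ t in {t | t ∈ Dm η S.T ∧ ¬ Gd S lam t},
        ENNReal.ofReal (Kw S.T t * uu S lam t) ≤
        ∫⁻ t in {t | t ∈ Dm η S.T ∧ ¬ Gd S lam t},
          ENNReal.ofReal (C3 * S.T ^ (-(1 / 2) : ℝ)) * ENNReal.ofReal (uu S lam t) := by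
      refine setLIntegral_mono' hBm ?_
      rintro t ⟨ht, _⟩
      have hu : 0 ≤ uu S lam t := by unfold uu; positivity
      rw [← ENNReal.ofReal_mul (by positivity)]
      refine ENNReal.ofReal_le_ofReal (mul_le_mul_of_nonneg_right ?_ hu)
      refine (hw S.T t hT3 ?_).2
      rw [Dm, Set.mem_Icc] at ht ⊢
      refine ⟨le_trans ?_ ht.1, ht.2.trans ?_⟩
      · nlinarith
      · exact div_le_div_of_nonneg_left hT.le (by linarith) (by linarith)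
    rw [lintegral_const_mul' _ _ ENNReal.ofReal_ne_top] at h1
    refine h1.trans ((mul_le_mul_right (hd' hS hTd) _).trans ?_)
    rw [← ENNReal.ofReal_mul (by positivity)]
    refine ENNReal.ofReal_le_ofReal ?_
    have h2 : S.T ^ (-(1 / 2) : ℝ) * S.T = S.T ^ (1 / 2 : ℝ) := by
      nth_rewrite 2 [← Real.rpow_one S.T]
      rw [← Real.rpow_add hT]
      norm_num
    have h3 : (2 : ℝ)⁻¹ ^ N0 ≤ c / (200 * (C3 * K2)) := by
      refine le_trans ?_ hN00.le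
      exact pow_le_pow_of_le_one (by norm_num) (by norm_num) hN0
    have h4 : C3 * K2 * (2 : ℝ)⁻¹ ^ N0 ≤ c / 200 := by
      calc C3 * K2 * (2 : ℝ)⁻¹ ^ N0 ≤ C3 * K2 * (c / (200 * (C3 * K2))) :=
            mul_le_mul_of_nonneg_left h3 (by positivity)
        _ = c / 200 := by
            have : C3 ≠ 0 := by linarith
            have : K2 ≠ 0 := by linarith
            field_simp
    calc C3 * S.T ^ (-(1 / 2) : ℝ) * (K2 * (2 : ℝ)⁻¹ ^ N0 * (S.T * Lam S lam))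
        = (C3 * K2 * (2 : ℝ)⁻¹ ^ N0) * ((S.T ^ (-(1 / 2) : ℝ) * S.T) * Lam S lam) := by ring
      _ = (C3 * K2 * (2 : ℝ)⁻¹ ^ N0) * (S.T ^ (1 / 2 : ℝ) * Lam S lam) := by rw [h2]
      _ ≤ (c / 200) * (S.T ^ (1 / 2 : ℝ) * Lam S lam) :=
          mul_le_mul_of_nonneg_right h4 (by positivity)
      _ = 1 / 200 * (c * (S.T ^ (1 / 2 : ℝ) * Lam S lam)) := by ring
      _ ≤ 1 / 200 * (Kt S.T * ER S lam) := by linarith
  have hOut : ∫⁻ t in (Dm η S.T)ᶜ, ENNReal.ofReal (Kw S.T t * uu S lam t) ≤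
      ENNReal.ofReal (1 / 200 * (Kt S.T * ER S lam)) := by
    refine (hb' hS hTb).trans (ENNReal.ofReal_le_ofReal ?_)
    calc K1 * η ^ (1 / 2 : ℝ) * (S.T ^ (1 / 2 : ℝ) * Lam S lam)
        ≤ (c / 200) * (S.T ^ (1 / 2 : ℝ) * Lam S lam) :=
          mul_le_mul_of_nonneg_right hη2 (by positivity)
      _ = 1 / 200 * (c * (S.T ^ (1 / 2 : ℝ) * Lam S lam)) := by ring
      _ ≤ 1 / 200 * (Kt S.T * ER S lam) := by linarith
  have hcov : ∫⁻ t : ℝ, ENNReal.ofReal (Kw S.T t * uu S lam t) ≤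
      (∫⁻ t in EE S lam η, ENNReal.ofReal (Kw S.T t * uu S lam t)) +
      ((∫⁻ t in (Dm η S.T)ᶜ, ENNReal.ofReal (Kw S.T t * uu S lam t)) +
        ∫⁻ t in {t | t ∈ Dm η S.T ∧ ¬ Gd S lam t},
          ENNReal.ofReal (Kw S.T t * uu S lam t)) := by
    have huniv : (Set.univ : Set ℝ) =
        EE S lam η ∪ ((Dm η S.T)ᶜ ∪ {t | t ∈ Dm η S.T ∧ ¬ Gd S lam t}) := by
      ext t
      constructor
      · intro _
        by_cases h1 : t ∈ Dm η S.T
        · by_cases h2 : Gd S lam t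
          · exact Or.inl ⟨h1, h2⟩
          · exact Or.inr (Or.inr ⟨h1, h2⟩)
        · exact Or.inr (Or.inl h1)
      · intro _
        exact Set.mem_univ _
    calc ∫⁻ t : ℝ, ENNReal.ofReal (Kw S.T t * uu S lam t)
        = ∫⁻ t in (Set.univ : Set ℝ), ENNReal.ofReal (Kw S.T t * uu S lam t) := by
          rw [setLIntegral_univ]
      _ ≤ _ := by
          rw [huniv]
          exact (lintegral_union_le _ _ _).trans
            (add_le_add le_rfl (lintegral_union_le _ _ _))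
  have hfin : ENNReal.ofReal (99 / 100 * (Kt S.T * ER S lam)) ≤
      (∫⁻ t in EE S lam η, ENNReal.ofReal (Kw S.T t * uu S lam t)) +
        ENNReal.ofReal (1 / 100 * (Kt S.T * ER S lam)) := by
    refine (ha' hS hTa).trans (hcov.trans (add_le_add le_rfl ?_))
    refine (add_le_add hOut hBad).trans ?_
    rw [← ENNReal.ofReal_add (by positivity) (by positivity)]
    refine ENNReal.ofReal_le_ofReal ?_
    linarith
  have hsub2 : ENNReal.ofReal (98 / 100 * (Kt S.T * ER S lam)) =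
      ENNReal.ofReal (99 / 100 * (Kt S.T * ER S lam)) -
        ENNReal.ofReal (1 / 100 * (Kt S.T * ER S lam)) := by
    rw [← ENNReal.ofReal_sub _ (by positivity)]
    congr 1
    ring
  rw [hsub2]
  exact tsub_le_iff_right.2 hfin

theorem m0_bounds (lam : ℝ) (h0 : 0 < lam) : ∃ C0 c C : ℝ, 0 < c ∧ 1 ≤ C ∧
    ∀ {S : BS} {Ct θ D1 : ℝ} {N0 : ℕ}, TG S Ct θ D1 N0 → C0 ≤ Ct →
    c * (S.T ^ (1 / 2 : ℝ) * Lam S lam) ≤ Kt S.T * ER S lam ∧
    Kt S.T * ER S lam ≤ C * (S.T ^ (1 / 2 : ℝ) * Lam S lam) :=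
  MA3_m0 lam h0

end Pool.Agent.LB
end
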