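import Pool.Agent.Lib.MP_69b2e4_nt.Mg.G029
import Pool.Agent.Lib.MP_69b2e4_nt.LB.T1
import Pool.Agent.Lib.MP_69b2e4_nt.Mg.G028
import Pool.Agent.Lib.MP_69b2e4_nt.Mg.G024

section

/-! TASK X2. Two crude random moments. Notation of X1; `Dθ = D1 + 5 log(1/θ)`.
`XR2`: `M = ⌈T^{1/2}⌉₊`. For each `ξ`: `full5` with `y = 0`, `b_p = bz 6 T ξ z p` (`Re z ≥ -6/L`), `s = 0`, `c_p = (lam+1) u`. On `P`: `‖-b + c‖ = ‖lam u + (u - b)‖ ≤ (lam + D_p) u`, so `‖..‖² ≤ lam²/p + (2lam+2) D_p/p` (`D_p ≤ 2`), `D_p = min 2 (a v)`, `a = 6 + 7|ξ| + L‖z‖`; off `P`: `‖b‖² ≤ 1/p`, sum `≤ Dθ` (`TG.out`).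
 `∑ D_p/p ≤ C + 2 log a` (`ps_min`), so the bound is `K e^{Dθ} a^{4lam+4} Lam ≤ K' e^{Dθ} (1+L‖z‖)^k (1+|ξ|)^k Lam`, `k = ⌈4lam+4⌉₊`. Then `MO_eq`, `XR_cs`.
`XR3`: `full5` with `y = u`, `b = s = 0`, `c_p = (lam-1) p^{-(1/2+z)}`. On `P`: `‖p^{-z} - 1‖ ≤ 2 min 2 (L‖z‖ v)` (`|Re z| log p ≤ 6θ^5 ≤ 1/100`; `‖e^{ζ}-1‖ ≤ ‖ζ‖ e^{|Re ζ|}` and `≤ 2 + small`), so `‖u + c‖ ≤ (lam + 2|lam-1| D_p) u`, `D_p = min 2 (a v)`, `a = 1 + L‖z‖`,
 squares: `≤ lam²/p + K(lam) D_p/p`; off `P`: `1/p`, sum `≤ Dθ`. -/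

set_option autoImplicit false

namespace Pool.Agent.LB

open Complex MeasureTheory Finset Pool.Agent.GH Pool.Agent.UH Pool.Agent.UV
open scoped Real ComplexConjugate

private lemma X2_two {p : ℕ} (hp : p.Prime) : (p : ℝ) ^ (-(1 / 2) : ℝ) ≤ 1 := by
  have h2 : (1 : ℝ) ≤ p := by exact_mod_cast hp.one_le
  exact Real.rpow_le_one_of_one_le_of_nonpos h2 (by norm_num)

private lemma X2_usq {p : ℕ} (hp : p.Prime) : ((p : ℝ) ^ (-(1 / 2) : ℝ)) ^ 2 = 1 / (p : ℝ) := by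
  have h2 : (0 : ℝ) < p := by exact_mod_cast hp.pos
  rw [← Real.rpow_natCast, ← Real.rpow_mul h2.le]
  norm_num
  rw [Real.rpow_neg_one]

private lemma X2_sum {S : BS} {Ct θ D1 : ℝ} {N0 : ℕ} (hS : TG S Ct θ D1 N0) {M : ℕ}
    (hP : S.P ⊆ Nat.primesBelow M) (hM2 : (M : ℝ) ≤ S.T ^ 2) {C a κ lam : ℝ}
    (hC : ∑ p ∈ Nat.primesBelow M, min 2 (a * (Real.log p / Real.log S.T)) / (p : ℝ) ≤
      C + 2 * Real.log a) (ha : 1 ≤ a) (hκ : 0 ≤ κ) (f : ℕ → ℝ)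
    (h1 : ∀ p ∈ S.P, f p ≤ lam ^ 2 * (1 / (p : ℝ)) +
      κ * (min 2 (a * (Real.log p / Real.log S.T)) / (p : ℝ)))
    (h2 : ∀ p ∈ Nat.primesBelow M \ S.P, f p ≤ 1 / (p : ℝ)) :
    ∑ p ∈ Nat.primesBelow M, f p ≤ lam ^ 2 * ∑ p ∈ S.P, 1 / (p : ℝ) + κ * (C + 2 * Real.log a) +
      (D1 + 5 * Real.log (1 / θ)) := by
  classical
  have hT : Real.exp 1000 ≤ S.T := hS.T_ge
  have hL : 0 ≤ Real.log S.T := by
    refine Real.log_nonneg ?_
    have h3 : (1 : ℝ) ≤ Real.exp 1000 := Real.one_le_exp (by norm_num)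
    linarith
  have e1 : ∑ p ∈ Nat.primesBelow M, f p = ∑ p ∈ Nat.primesBelow M \ S.P, f p + ∑ p ∈ S.P, f p :=
    (Finset.sum_sdiff hP).symm
  have e2 : ∑ p ∈ Nat.primesBelow M \ S.P, f p ≤ D1 + 5 * Real.log (1 / θ) :=
    (Finset.sum_le_sum h2).trans (hS.out M hM2)
  have e3 : ∑ p ∈ S.P, f p ≤ lam ^ 2 * ∑ p ∈ S.P, 1 / (p : ℝ) +
      κ * ∑ p ∈ S.P, min 2 (a * (Real.log p / Real.log S.T)) / (p : ℝ) := by
    refine (Finset.sum_le_sum h1).trans (le_of_eq ?_)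
    rw [Finset.sum_add_distrib, Finset.mul_sum, Finset.mul_sum]
  have e4 : ∑ p ∈ S.P, min 2 (a * (Real.log p / Real.log S.T)) / (p : ℝ) ≤
      ∑ p ∈ Nat.primesBelow M, min 2 (a * (Real.log p / Real.log S.T)) / (p : ℝ) := by
    refine Finset.sum_le_sum_of_subset_of_nonneg hP fun p hp _ => ?_
    have hpp : p.Prime := (Nat.mem_primesBelow.1 hp).2
    have h3 : (1 : ℝ) ≤ p := by exact_mod_cast hpp.one_le
    have h4 : 0 ≤ Real.log p / Real.log S.T := div_nonneg (Real.log_nonneg h3) hL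
    have h5 : 0 ≤ min 2 (a * (Real.log p / Real.log S.T)) := le_min (by norm_num) (by positivity)
    positivity
  have e5 := mul_le_mul_of_nonneg_left (e4.trans hC) hκ
  linarith

private lemma X2_exp {S : BS} {lam K κ C a Dt : ℝ} {k : ℕ} (hK : 0 ≤ K) (ha : 1 ≤ a)
    (hκk : 2 * κ ≤ k) {s : ℝ}
    (hs : s ≤ lam ^ 2 * ∑ p ∈ S.P, 1 / (p : ℝ) + κ * (C + 2 * Real.log a) + Dt) :
    K * Real.exp s ≤ K * Real.exp (κ * C) * a ^ k * Real.exp Dt * Lam S lam := by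
  have h0 : 0 < a := by linarith
  have h1 : 0 ≤ Real.log a := Real.log_nonneg ha
  have h2 : Real.exp (2 * κ * Real.log a) ≤ a ^ k := by
    have h3 : 2 * κ * Real.log a ≤ k * Real.log a := mul_le_mul_of_nonneg_right hκk h1
    refine (Real.exp_le_exp.2 h3).trans (le_of_eq ?_)
    rw [Real.exp_nat_mul, Real.exp_log h0]
  have h4 : Real.exp s ≤ Real.exp (κ * C) * a ^ k * Real.exp Dt * Lam S lam := by
    calc Real.exp s ≤ Real.exp (lam ^ 2 * ∑ p ∈ S.P, 1 / (p : ℝ) + κ * (C + 2 * Real.log a) + Dt) :=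
          Real.exp_le_exp.2 hs
      _ = Real.exp (κ * C) * Real.exp (2 * κ * Real.log a) * Real.exp Dt * Lam S lam := by
          unfold Lam
          rw [← Real.exp_add, ← Real.exp_add, ← Real.exp_add]
          congr 1
          ring
      _ ≤ _ := by
          have h5 : 0 < Lam S lam := Real.exp_pos _
          gcongr
  calc K * Real.exp s ≤ K * (Real.exp (κ * C) * a ^ k * Real.exp Dt * Lam S lam) :=
        mul_le_mul_of_nonneg_left h4 hK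
    _ = _ := by ring

/-- The common constants of the block system. -/
private lemma X2_T {S : BS} {Ct θ D1 : ℝ} {N0 : ℕ} (hS : TG S Ct θ D1 N0) :
    1 < S.T ∧ 1000 ≤ Real.log S.T ∧ Real.exp 3 ≤ S.T := by
  have hT : Real.exp 1000 ≤ S.T := hS.T_ge
  have h1 : (1 : ℝ) < Real.exp 1000 := Real.one_lt_exp_iff.2 (by norm_num)
  have h2 : Real.exp 3 ≤ Real.exp 1000 := Real.exp_le_exp.2 (by norm_num)
  refine ⟨by linarith, ?_, by linarith⟩
  rw [Real.le_log_iff_exp_le (by linarith)]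
  exact hT

private lemma X2_cpow {p : ℕ} (hp : p.Prime) (z : ℂ) : (p : ℂ) ^ (-(1 / 2 + z)) =
    (((p : ℝ) ^ (-(1 / 2) : ℝ) : ℝ) : ℂ) * cexp (-(z * (Real.log p : ℝ))) := by
  have h0 : (p : ℂ) ≠ 0 := by exact_mod_cast hp.ne_zero
  have h1 : (0 : ℝ) ≤ p := Nat.cast_nonneg p
  rw [neg_add, Complex.cpow_add _ _ h0, Complex.ofReal_cpow h1]
  congr 1
  · push_cast
    ring_nf
  · rw [Complex.cpow_def_of_ne_zero h0, Complex.natCast_log]
    congr 1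
    ring

private lemma X2_e1 : Real.exp (1 / 100) ≤ 2 := by
  have h1 := Real.exp_bound' (x := 1 / 100) (by norm_num) (by norm_num) (n := 1) (by norm_num)
  norm_num [Finset.sum_range_succ, Nat.factorial] at h1
  norm_num
  linarith

private lemma X2_sub {ζ : ℂ} (h : |ζ.re| ≤ 1 / 100) {x : ℝ} (hx : ‖ζ‖ ≤ x) :
    ‖cexp ζ - 1‖ ≤ 3 * min 2 x := by
  have hn : ‖cexp ζ‖ ≤ 2 := by
    rw [Complex.norm_exp]
    exact (Real.exp_le_exp.2 ((le_abs_self _).trans h)).trans X2_e1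
  have h3 : ‖cexp ζ - 1‖ ≤ 3 := by
    have := norm_sub_le (cexp ζ) 1
    rw [norm_one] at this
    linarith
  rcases le_total ‖ζ‖ 1 with h1 | h1
  · have h2 := Complex.norm_exp_sub_one_le h1
    rcases le_total 2 x with h4 | h4
    · rw [min_eq_left h4]
      linarith
    · rw [min_eq_right h4]
      have := norm_nonneg ζ
      linarith
  · rcases le_total 2 x with h4 | h4
    · rw [min_eq_left h4]
      linarith
    · rw [min_eq_right h4]
      linarith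

private lemma X2_cRT {S : BS} {Ct θ D1 : ℝ} {N0 : ℕ} (hS : TG S Ct θ D1 N0) (κ : ℝ) (z : ℂ) :
    Continuous fun w : Om => ‖RT S κ (nX z w)‖ ^ 2 := by
  refine (Continuous.norm ?_).pow 2
  have h : (fun w : Om => RT S κ (nX z w)) = fun w => ∏ j ∈ range (S.J + 1),
      Ex (S.l j) (∑ p ∈ S.R j, (κ * (p : ℂ) ^ (-(1 / 2 + z))) * X p w) := by
    funext w
    exact RT_nX hS κ z w
  rw [h]
  refine continuous_finsetProd _ fun j _ => (continuous_Ex _).comp ?_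
  exact continuous_finsetSum _ fun p _ => continuous_const.mul (continuous_X p)

theorem XR2 (lam : ℝ) (h0 : 0 < lam) : ∃ (C0 K : ℝ) (k : ℕ), 1 ≤ K ∧
    ∀ {S : BS} {Ct θ D1 : ℝ} {N0 : ℕ}, TG S Ct θ D1 N0 → C0 ≤ Ct → ∀ z : ℂ,
    -(6 / Real.log S.T) ≤ z.re →
    ∫ w, ‖MO 0 S.T (nX z w)‖ ^ 2 * ‖RT S (lam + 1) (nX 0 w)‖ ^ 2 ∂mu ≤
      K * Real.exp (D1 + 5 * Real.log (1 / θ)) * (1 + Real.log S.T * ‖z‖) ^ k * Lam S lam := by
  obtain ⟨φ, hφ, hφi, hF⟩ := fourier_kernel5 0 6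
  obtain ⟨C0, K0, hK0, hfull⟩ := full5 (lam + 1) (by linarith)
  obtain ⟨C, hC0, hC⟩ := ps_min
  set k : ℕ := ⌈4 * lam + 4⌉₊ with hk
  have hkk : 2 * (2 * lam + 2) ≤ (k : ℝ) := by
    have := Nat.le_ceil (4 * lam + 4)
    rw [← hk] at this
    linarith
  set A : ℝ := ∫ ξ, ‖φ ξ‖ with hA
  set A8 : ℝ := ∫ ξ : ℝ, (1 + |ξ|) ^ k * ‖φ ξ‖ with hA8
  refine ⟨C0, max 1 (A * (K0 * Real.exp ((2 * lam + 2) * C) * 7 ^ k) * A8), k,
    le_max_left _ _, ?_⟩
  intro S Ct θ D1 N0 hS hCt z hz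
  obtain ⟨hT1, hL, hT3⟩ := X2_T hS
  have hT0 : 0 < S.T := by linarith
  set L := Real.log S.T with hLdef
  set M : ℕ := ⌈S.T⌉₊ with hMdef
  have hMT : S.T ≤ (M : ℝ) := Nat.le_ceil _
  have hM1 : S.T ^ (9 / 20 : ℝ) ≤ M :=
    (Real.rpow_le_rpow_of_exponent_le hT1.le (by norm_num : (9 / 20 : ℝ) ≤ 1)).trans
      (by rw [Real.rpow_one]; exact hMT)
  have hM0 : S.T ^ (1 / 10 : ℝ) ≤ M :=
    (Real.rpow_le_rpow_of_exponent_le hT1.le (by norm_num : (1 / 10 : ℝ) ≤ 1)).trans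
      (by rw [Real.rpow_one]; exact hMT)
  have hM2 : (M : ℝ) ≤ S.T ^ 2 := by
    have h1 : (M : ℝ) < S.T + 1 := Nat.ceil_lt_add_one hT0.le
    have h2 : (2 : ℝ) ≤ S.T := by
      have h3 : (3 : ℝ) + 1 ≤ Real.exp 3 := Real.add_one_le_exp 3
      linarith
    nlinarith
  have hP := P_lt hS hM0
  have hpr : ∀ p ∈ Nat.primesBelow M, p.Prime := fun p hp => (Nat.mem_primesBelow.1 hp).2
  have hz' : 0 ≤ z.re + 6 / Real.log S.T := by
    have := hz
    linarith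
  have hMO : ∀ w, MO 0 S.T (nX z w) = ∫ ξ : ℝ, φ ξ *
      ∏ q ∈ Nat.primesBelow M, (1 - bz 6 S.T ξ z q * X q w) := by
    intro w
    have h1 := MO_eq (fun u => u ^ 0 * Pf u) (fun u hu => by
      rw [Pf_zero hu, mul_zero]) 6 φ hφ hφi (fun u hu => hF u hu) hT3 hM1 z w
    rw [← h1]
    rfl
  have hbz : ∀ (ξ : ℝ), ∀ p ∈ Nat.primesBelow M, ‖bz 6 S.T ξ z p‖ ≤ (p : ℝ) ^ (-(1 / 2) : ℝ) :=
    fun ξ p hp => bz_le hT1 hz' ξ (hpr p hp)
  set Dt : ℝ := D1 + 5 * Real.log (1 / θ) with hDt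
  have hLam : 0 < Lam S lam := Real.exp_pos _
  have hLz : 0 ≤ L * ‖z‖ := by positivity
  set E : ℝ := K0 * Real.exp ((2 * lam + 2) * C) * 7 ^ k * (1 + L * ‖z‖) ^ k * Real.exp Dt *
    Lam S lam with hE
  have hxi : ∀ ξ : ℝ, ∫ w, ‖RT S (lam + 1) (nX 0 w)‖ ^ 2 *
      ‖∏ q ∈ Nat.primesBelow M, (1 - bz 6 S.T ξ z q * X q w)‖ ^ 2 ∂mu ≤ E * (1 + |ξ|) ^ k := by
    intro ξ
    set a : ℝ := |(6 : ℝ)| + 7 * |ξ| + L * ‖z‖ with ha
    have hξ : 0 ≤ |ξ| := abs_nonneg ξ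
    have h6 : |(6 : ℝ)| = 6 := abs_of_pos (by norm_num)
    have ha1 : 1 ≤ a := by
      rw [ha, h6]
      linarith
    have ha7 : a ≤ 7 * (1 + |ξ|) * (1 + L * ‖z‖) := by
      rw [ha, h6]
      nlinarith [mul_nonneg hξ hLz]
    set c : ℕ → ℂ := fun p => ((lam + 1 : ℝ) : ℂ) * (p : ℂ) ^ (-(1 / 2 + (0 : ℂ))) with hc
    have hcp : ∀ p : ℕ, p.Prime → c p = ((lam + 1 : ℝ) : ℂ) * (((p : ℝ) ^ (-(1 / 2) : ℝ) : ℝ) : ℂ) := by
      intro p hp
      rw [hc]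
      beta_reduce
      rw [X2_cpow hp 0, zero_mul, neg_zero, Complex.exp_zero, mul_one]
    have hcn : ∀ p : ℕ, p.Prime → ‖c p‖ = (lam + 1) * (p : ℝ) ^ (-(1 / 2) : ℝ) := by
      intro p hp
      rw [hcp p hp, norm_mul, Complex.norm_real, Complex.norm_real, Real.norm_of_nonneg (by linarith),
        Real.norm_of_nonneg (by positivity)]
    have h1 := hfull hS hCt M hP (fun _ => 0) (fun p => bz 6 S.T ξ z p) (fun _ => 0) c (by
      intro p hp
      have hu : 0 ≤ (p : ℝ) ^ (-(1 / 2) : ℝ) := by positivity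
      have hlu : (p : ℝ) ^ (-(1 / 2) : ℝ) ≤ (lam + 1) * (p : ℝ) ^ (-(1 / 2) : ℝ) := by nlinarith
      refine ⟨le_rfl, hu, (hbz ξ p hp).trans hlu, ?_, fun _ => (hcn p (hpr p hp)).le⟩
      rw [norm_zero]
      linarith)
    have h2 : ∫ w, ‖RT S (lam + 1) (nX 0 w)‖ ^ 2 *
      ‖∏ q ∈ Nat.primesBelow M, (1 - bz 6 S.T ξ z q * X q w)‖ ^ 2 ∂mu =
      ∫ w, (∏ p ∈ Nat.primesBelow M, ‖(1 - (((fun _ => 0 : ℕ → ℝ) p : ℝ) : ℂ) * X p w)⁻¹‖ ^ 2) *
      (∏ p ∈ Nat.primesBelow M, ‖1 - bz 6 S.T ξ z p * X p w‖ ^ 2) *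
      Real.exp (2 * (∑ p ∈ Nat.primesBelow M, (fun _ => 0 : ℕ → ℂ) p * X p w).re) *
      (∏ j ∈ range (S.J + 1), ‖Ex (S.l j) (∑ p ∈ S.R j, c p * X p w)‖ ^ 2) ∂mu := by
      congr 1
      funext w
      rw [RT_nX hS (lam + 1) 0 w, norm_prod, norm_prod, ← Finset.prod_pow, ← Finset.prod_pow]
      have e1 : ∏ p ∈ Nat.primesBelow M,
          ‖(1 - (((fun _ => 0 : ℕ → ℝ) p : ℝ) : ℂ) * X p w)⁻¹‖ ^ 2 = 1 := by
        refine Finset.prod_eq_one fun p _ => ?_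
        simp
      have e2 : ∑ p ∈ Nat.primesBelow M, (fun _ => 0 : ℕ → ℂ) p * X p w = 0 := by
        refine Finset.sum_eq_zero fun p _ => ?_
        simp
      rw [e1, e2, Complex.zero_re, mul_zero, Real.exp_zero, one_mul, mul_one, mul_comm]
    rw [h2]
    refine h1.trans ?_
    have hsum := X2_sum (lam := lam) hS hP hM2 (hC S.T a M hS.T_ge ha1 hM2) ha1
      (by linarith : 0 ≤ 2 * lam + 2)
      (fun p => ‖(((fun _ => 0 : ℕ → ℝ) p : ℝ) : ℂ) - bz 6 S.T ξ z p + (fun _ => 0 : ℕ → ℂ) p +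
        (if p ∈ S.P then c p else 0)‖ ^ 2) (by
        intro p hp
        have hpp : p.Prime := (P_prime hS hp).1
        have hu : 0 ≤ (p : ℝ) ^ (-(1 / 2) : ℝ) := by positivity
        have hb := bz_sub hT1 hz' ξ hpp
        rw [← hLdef, ← ha] at hb
        set D : ℝ := min 2 (a * (Real.log p / L)) with hD
        have hlp : 0 ≤ Real.log p := Real.log_nonneg (by exact_mod_cast hpp.one_le)
        have hD0 : 0 ≤ D := le_min (by norm_num) (by positivity)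
        have hD2 : D ≤ 2 := min_le_left _ _
        beta_reduce
        rw [if_pos hp, hcp p hpp]
        have e1 : (((0 : ℝ) : ℂ) - bz 6 S.T ξ z p + 0 +
            ((lam + 1 : ℝ) : ℂ) * (((p : ℝ) ^ (-(1 / 2) : ℝ) : ℝ) : ℂ)) =
            (lam : ℂ) * (((p : ℝ) ^ (-(1 / 2) : ℝ) : ℝ) : ℂ) +
            ((((p : ℝ) ^ (-(1 / 2) : ℝ) : ℝ) : ℂ) - bz 6 S.T ξ z p) := by
          push_cast
          ring
        rw [e1]
        have e2 : ‖(lam : ℂ) * (((p : ℝ) ^ (-(1 / 2) : ℝ) : ℝ) : ℂ) +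
            ((((p : ℝ) ^ (-(1 / 2) : ℝ) : ℝ) : ℂ) - bz 6 S.T ξ z p)‖ ≤
            (lam + D) * (p : ℝ) ^ (-(1 / 2) : ℝ) := by
          refine (norm_add_le _ _).trans ?_
          rw [norm_mul, Complex.norm_real, Complex.norm_real, Real.norm_of_nonneg h0.le,
            Real.norm_of_nonneg hu]
          linarith
        calc _ ≤ ((lam + D) * (p : ℝ) ^ (-(1 / 2) : ℝ)) ^ 2 :=
              pow_le_pow_left₀ (norm_nonneg _) e2 2
          _ = (lam + D) ^ 2 * (1 / (p : ℝ)) := by rw [mul_pow, X2_usq hpp]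
          _ ≤ (lam ^ 2 + (2 * lam + 2) * D) * (1 / (p : ℝ)) := by
              refine mul_le_mul_of_nonneg_right ?_ (by positivity)
              nlinarith
          _ = _ := by ring) (by
        intro p hp
        rw [Finset.mem_sdiff] at hp
        beta_reduce
        rw [if_neg hp.2]
        have e1 : (((0 : ℝ) : ℂ) - bz 6 S.T ξ z p + 0 + 0) = -bz 6 S.T ξ z p := by
          push_cast
          ring
        rw [e1, norm_neg, ← X2_usq (hpr p hp.1)]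
        exact pow_le_pow_left₀ (norm_nonneg _) (hbz ξ p hp.1) 2)
    have h3 := X2_exp (K := K0) (k := k) (by linarith) ha1 hkk hsum
    refine h3.trans ?_
    have h4 : a ^ k ≤ 7 ^ k * (1 + L * ‖z‖) ^ k * (1 + |ξ|) ^ k := by
      rw [← mul_pow, ← mul_pow]
      refine pow_le_pow_left₀ (by linarith) ?_ k
      linarith
    calc K0 * Real.exp ((2 * lam + 2) * C) * a ^ k * Real.exp (D1 + 5 * Real.log (1 / θ)) * Lam S lam
        ≤ K0 * Real.exp ((2 * lam + 2) * C) * (7 ^ k * (1 + L * ‖z‖) ^ k * (1 + |ξ|) ^ k) *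
          Real.exp (D1 + 5 * Real.log (1 / θ)) * Lam S lam := by
          gcongr
      _ = E * (1 + |ξ|) ^ k := by
          rw [hE]
          ring
  have key := XR_cs hφ k (hφi k)
    (g := fun ξ w => ∏ q ∈ Nat.primesBelow M, (1 - bz 6 S.T ξ z q * X q w))
    (B := 2 ^ (Nat.primesBelow M).card)
    (Y := fun w => ‖RT S (lam + 1) (nX 0 w)‖ ^ 2) (E := E) (by
      refine continuous_finsetProd _ fun p hp => ?_
      have h2 : Continuous fun q : Om × ℝ => bz 6 S.T q.2 z p :=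
        (bz_continuous 6 S.T z p).comp continuous_snd
      have h3 : Continuous fun q : Om × ℝ => X p q.1 := (continuous_X p).comp continuous_fst
      exact continuous_const.sub (h2.mul h3)) (by
      intro ξ w
      rw [norm_prod, ← Finset.prod_const]
      refine Finset.prod_le_prod (fun _ _ => norm_nonneg _) fun p hp => ?_
      calc ‖1 - bz 6 S.T ξ z p * X p w‖ ≤ ‖(1 : ℂ)‖ + ‖bz 6 S.T ξ z p * X p w‖ :=
            norm_sub_le _ _
        _ ≤ 1 + 1 := by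
          rw [norm_one, norm_mul, norm_X, mul_one]
          have h1 := hbz ξ p hp
          have h2 := X2_two (hpr p hp)
          linarith
        _ = 2 := by norm_num)
    (X2_cRT hS (lam + 1) 0) (fun w => sq_nonneg _) hxi
  have hA0 : 0 ≤ A := integral_nonneg fun ξ => norm_nonneg _
  have hA80 : 0 ≤ A8 := integral_nonneg fun ξ => by positivity
  calc ∫ w, ‖MO 0 S.T (nX z w)‖ ^ 2 * ‖RT S (lam + 1) (nX 0 w)‖ ^ 2 ∂mu
      = ∫ w, ‖RT S (lam + 1) (nX 0 w)‖ ^ 2 * ‖∫ ξ : ℝ, φ ξ *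
        ∏ q ∈ Nat.primesBelow M, (1 - bz 6 S.T ξ z q * X q w)‖ ^ 2 ∂mu := by
        congr 1
        funext w
        rw [hMO w, mul_comm]
    _ ≤ A * (E * A8) := key
    _ = (A * (K0 * Real.exp ((2 * lam + 2) * C) * 7 ^ k) * A8) * Real.exp Dt *
        (1 + L * ‖z‖) ^ k * Lam S lam := by
        rw [hE]
        ring
    _ ≤ max 1 (A * (K0 * Real.exp ((2 * lam + 2) * C) * 7 ^ k) * A8) * Real.exp Dt *
        (1 + L * ‖z‖) ^ k * Lam S lam := by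
        have := le_max_right 1 (A * (K0 * Real.exp ((2 * lam + 2) * C) * 7 ^ k) * A8)
        gcongr

theorem XR3 (lam : ℝ) (h0 : 0 < lam) : ∃ (C0 K : ℝ) (k : ℕ), 1 ≤ K ∧
    ∀ {S : BS} {Ct θ D1 : ℝ} {N0 : ℕ}, TG S Ct θ D1 N0 → C0 ≤ Ct → ∀ M : ℕ,
    S.T ^ (9 / 20 : ℝ) ≤ M → (M : ℝ) ≤ S.T ^ 2 → ∀ z : ℂ, |z.re| ≤ 6 / Real.log S.T →
    ∫ w, ‖Zt (Nat.primesBelow M) (1 / 2) w‖ ^ 2 * ‖RT S (lam - 1) (nX z w)‖ ^ 2 ∂mu ≤
      K * Real.exp (D1 + 5 * Real.log (1 / θ)) * (1 + Real.log S.T * ‖z‖) ^ k * Lam S lam := by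
  set κ0 : ℝ := 6 * lam * |lam - 1| + 18 * |lam - 1| ^ 2 with hκ0
  have hκ00 : 0 ≤ κ0 := by positivity
  obtain ⟨C0, K0, hK0, hfull⟩ := full5 (2 * |lam - 1|) (by positivity)
  obtain ⟨C, hC0, hC⟩ := ps_min
  set k : ℕ := ⌈2 * κ0⌉₊ with hk
  have hkk : 2 * κ0 ≤ (k : ℝ) := Nat.le_ceil _
  refine ⟨C0, K0 * Real.exp (κ0 * C), k, ?_, ?_⟩
  · have h1 : 1 ≤ Real.exp (κ0 * C) := Real.one_le_exp (by positivity)
    nlinarith
  intro S Ct θ D1 N0 hS hCt M hM1 hM2 z hz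
  obtain ⟨hT1, hL, hT3⟩ := X2_T hS
  have hT0 : 0 < S.T := by linarith
  set L := Real.log S.T with hLdef
  have hL0 : 0 < L := by linarith
  have hM0 : S.T ^ (1 / 10 : ℝ) ≤ M :=
    (Real.rpow_le_rpow_of_exponent_le hT1.le (by norm_num : (1 / 10 : ℝ) ≤ 9 / 20)).trans hM1
  have hP := P_lt hS hM0
  have hpr : ∀ p ∈ Nat.primesBelow M, p.Prime := fun p hp => (Nat.mem_primesBelow.1 hp).2
  set a : ℝ := 1 + L * ‖z‖ with ha
  have hLz : 0 ≤ L * ‖z‖ := by positivity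
  have ha1 : 1 ≤ a := by
    rw [ha]
    linarith
  set c : ℕ → ℂ := fun p => ((lam - 1 : ℝ) : ℂ) * (p : ℂ) ^ (-(1 / 2 + z)) with hc
  have hcp : ∀ p : ℕ, p.Prime → c p = ((lam - 1 : ℝ) : ℂ) * ((((p : ℝ) ^ (-(1 / 2) : ℝ) : ℝ) : ℂ) *
      cexp (-(z * (Real.log p : ℝ)))) := by
    intro p hp
    rw [hc]
    beta_reduce
    rw [X2_cpow hp z]
  have hth5 : 6 * θ ^ 5 ≤ 1 / 100 := by
    have h1 : θ ^ 5 ≤ (1 / 100 : ℝ) ^ 5 := pow_le_pow_left₀ hS.th_pos.le hS.th_le 5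
    norm_num at h1 ⊢
    linarith
  have hre : ∀ p ∈ S.P, |(-(z * (Real.log p : ℝ))).re| ≤ 1 / 100 := by
    intro p hp
    obtain ⟨hpp, hlp⟩ := P_prime hS hp
    have hlp0 : 0 ≤ Real.log p := Real.log_nonneg (by exact_mod_cast hpp.one_le)
    rw [Complex.neg_re, abs_neg, Complex.re_mul_ofReal, abs_mul, abs_of_nonneg hlp0]
    calc |z.re| * Real.log p ≤ 6 / L * (θ ^ 5 * L) := mul_le_mul hz hlp hlp0 (by positivity)
      _ = 6 * θ ^ 5 := by
          field_simp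
      _ ≤ _ := hth5
  have h1 := hfull hS hCt M hP (fun p => (p : ℝ) ^ (-(1 / 2) : ℝ)) (fun _ => 0) (fun _ => 0) c (by
    intro p hp
    have hu : 0 ≤ (p : ℝ) ^ (-(1 / 2) : ℝ) := by positivity
    refine ⟨hu, le_rfl, ?_, ?_, fun hpP => ?_⟩
    · rw [norm_zero]
      positivity
    · rw [norm_zero]
      positivity
    · rw [hcp p (hpr p hp), norm_mul, norm_mul, Complex.norm_real, Complex.norm_real,
        Real.norm_of_nonneg hu, Complex.norm_exp, Real.norm_eq_abs]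
      have e1 : Real.exp (-(z * (Real.log p : ℝ))).re ≤ 2 :=
        (Real.exp_le_exp.2 ((le_abs_self _).trans (hre p hpP))).trans X2_e1
      calc |lam - 1| * ((p : ℝ) ^ (-(1 / 2) : ℝ) * Real.exp (-(z * (Real.log p : ℝ))).re)
          ≤ |lam - 1| * ((p : ℝ) ^ (-(1 / 2) : ℝ) * 2) := by gcongr
        _ = _ := by ring)
  have h2 : ∫ w, ‖Zt (Nat.primesBelow M) (1 / 2) w‖ ^ 2 * ‖RT S (lam - 1) (nX z w)‖ ^ 2 ∂mu =
      ∫ w, (∏ p ∈ Nat.primesBelow M,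
        ‖(1 - (((fun p : ℕ => (p : ℝ) ^ (-(1 / 2) : ℝ)) p : ℝ) : ℂ) * X p w)⁻¹‖ ^ 2) *
      (∏ p ∈ Nat.primesBelow M, ‖1 - (fun _ => 0 : ℕ → ℂ) p * X p w‖ ^ 2) *
      Real.exp (2 * (∑ p ∈ Nat.primesBelow M, (fun _ => 0 : ℕ → ℂ) p * X p w).re) *
      (∏ j ∈ range (S.J + 1), ‖Ex (S.l j) (∑ p ∈ S.R j, c p * X p w)‖ ^ 2) ∂mu := by
    congr 1
    funext w
    rw [RT_nX hS (lam - 1) z w, norm_prod, ← Finset.prod_pow]
    have e0 : ‖Zt (Nat.primesBelow M) (1 / 2) w‖ ^ 2 = ∏ p ∈ Nat.primesBelow M,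
        ‖(1 - (((fun p : ℕ => (p : ℝ) ^ (-(1 / 2) : ℝ)) p : ℝ) : ℂ) * X p w)⁻¹‖ ^ 2 := by
      unfold Zt
      rw [norm_prod, ← Finset.prod_pow]
    have e1 : ∏ p ∈ Nat.primesBelow M, ‖1 - (fun _ => 0 : ℕ → ℂ) p * X p w‖ ^ 2 = 1 := by
      refine Finset.prod_eq_one fun p _ => ?_
      simp
    have e2 : ∑ p ∈ Nat.primesBelow M, (fun _ => 0 : ℕ → ℂ) p * X p w = 0 := by
      refine Finset.sum_eq_zero fun p _ => ?_
      simp
    rw [e0, e1, e2, Complex.zero_re, mul_zero, Real.exp_zero, mul_one, mul_one]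
  rw [h2]
  refine h1.trans ?_
  have hsum := X2_sum (lam := lam) hS hP hM2 (hC S.T a M hS.T_ge ha1 hM2) ha1 hκ00
    (fun p => ‖(((fun p : ℕ => (p : ℝ) ^ (-(1 / 2) : ℝ)) p : ℝ) : ℂ) - (fun _ => 0 : ℕ → ℂ) p +
      (fun _ => 0 : ℕ → ℂ) p + (if p ∈ S.P then c p else 0)‖ ^ 2) (by
      intro p hp
      obtain ⟨hpp, hlpT⟩ := P_prime hS hp
      have hu : 0 ≤ (p : ℝ) ^ (-(1 / 2) : ℝ) := by positivity
      have hlp : 0 ≤ Real.log p := Real.log_nonneg (by exact_mod_cast hpp.one_le)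
      rw [← hLdef]
      set D : ℝ := min 2 (a * (Real.log p / L)) with hD
      have hD0 : 0 ≤ D := le_min (by norm_num) (by positivity)
      have hD2 : D ≤ 2 := min_le_left _ _
      have hζ : ‖-(z * (Real.log p : ℝ))‖ ≤ a * (Real.log p / L) := by
        rw [norm_neg, norm_mul, Complex.norm_real, Real.norm_of_nonneg hlp, ha]
        have e3 : (1 + L * ‖z‖) * (Real.log p / L) = Real.log p / L + ‖z‖ * Real.log p := by
          field_simp
        rw [e3]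
        have e4 : 0 ≤ Real.log p / L := by positivity
        linarith
      have hes := X2_sub (hre p hp) hζ
      rw [← hD] at hes
      beta_reduce
      rw [if_pos hp, hcp p hpp]
      have e1 : ((((p : ℝ) ^ (-(1 / 2) : ℝ) : ℝ) : ℂ) - 0 + 0 +
          ((lam - 1 : ℝ) : ℂ) * ((((p : ℝ) ^ (-(1 / 2) : ℝ) : ℝ) : ℂ) *
            cexp (-(z * (Real.log p : ℝ))))) =
          (((p : ℝ) ^ (-(1 / 2) : ℝ) : ℝ) : ℂ) * ((lam : ℂ) +
            ((lam - 1 : ℝ) : ℂ) * (cexp (-(z * (Real.log p : ℝ))) - 1)) := by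
        push_cast
        ring
      rw [e1]
      have e2 : ‖(((p : ℝ) ^ (-(1 / 2) : ℝ) : ℝ) : ℂ) * ((lam : ℂ) +
            ((lam - 1 : ℝ) : ℂ) * (cexp (-(z * (Real.log p : ℝ))) - 1))‖ ≤
          (p : ℝ) ^ (-(1 / 2) : ℝ) * (lam + |lam - 1| * (3 * D)) := by
        rw [norm_mul, Complex.norm_real, Real.norm_of_nonneg hu]
        refine mul_le_mul_of_nonneg_left ?_ hu
        refine (norm_add_le _ _).trans ?_
        rw [norm_mul, Complex.norm_real, Complex.norm_real, Real.norm_of_nonneg h0.le,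
          Real.norm_eq_abs]
        have := mul_le_mul_of_nonneg_left hes (abs_nonneg (lam - 1))
        linarith
      calc _ ≤ ((p : ℝ) ^ (-(1 / 2) : ℝ) * (lam + |lam - 1| * (3 * D))) ^ 2 :=
            pow_le_pow_left₀ (norm_nonneg _) e2 2
        _ = (lam + |lam - 1| * (3 * D)) ^ 2 * (1 / (p : ℝ)) := by
            rw [mul_pow, X2_usq hpp, mul_comm]
        _ ≤ (lam ^ 2 + κ0 * D) * (1 / (p : ℝ)) := by
            refine mul_le_mul_of_nonneg_right ?_ (by positivity)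
            have e5 : |lam - 1| ^ 2 * (D * D) ≤ |lam - 1| ^ 2 * (2 * D) :=
              mul_le_mul_of_nonneg_left (by nlinarith) (by positivity)
            rw [hκ0]
            nlinarith
        _ = _ := by ring) (by
      intro p hp
      rw [Finset.mem_sdiff] at hp
      have hu : 0 ≤ (p : ℝ) ^ (-(1 / 2) : ℝ) := by positivity
      beta_reduce
      rw [if_neg hp.2, sub_zero, add_zero, add_zero, Complex.norm_real, Real.norm_of_nonneg hu,
        X2_usq (hpr p hp.1)])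
  have h3 := X2_exp (K := K0) (k := k) (by linarith) ha1 hkk hsum
  refine h3.trans (le_of_eq ?_)
  ring

end Pool.Agent.LB
end

section

/-! TASK T5. Two crude moments with growth in the offset. `L = log T`, `Dθ = D1 + 5 log(1/θ)`, `pt T t z = 1/2 + it + z/L`.
`TX2`: `mean5` with `g(χ) = MO 0 T (χ nC (z/L)) · RT S (lam+1) χ`. NOTE: for `Re z > 0` the shift only makes the coefficients smaller: `χ ↦ MO 0 T (χ nC h)` has the coefficients `am 0 T n · n^{-h}`, `|n^{-h}| ≤ n^{2/L} ≤ e²` for `Re h ≥ -2/L`, so `IsP2 (T^{9/20}) 1 (e² (1+L))` by `isP2_left` directly (do not use `IsP2.shift`).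
 `Q = T^{9/20+7θ³}`, `B = e²(1+L) T^{7θ³}`, `Q² B² ≤ T ≤ T Lam` for `T ≥ T0`. Random side: `XR2` with `z/L`.
`TX3`: for `T ≥ T0` and `|y| ≤ 2L²` substitute `t' = t + y/L ∈ Dm (η/2) T`: `twist5` for `η/2`, `A = 2`, `a = -2/L`, `g(χ) = RT S (lam-1) (χ nC (-iy/L))` (`IsP2.shift` with purely imaginary shifts does not change the bounds), `XR3` with `z = 2/L - iy/L`. -/

set_option autoImplicit false

namespace Pool.Agent.LB

open Complex MeasureTheory Finset Pool.Agent.GH Pool.Agent.UH Pool.Agent.UV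
open scoped Real ComplexConjugate

private theorem T5_logT {S : BS} {Ct θ D1 : ℝ} {N0 : ℕ} (hS : TG S Ct θ D1 N0) :
    1000 ≤ Real.log S.T ∧ 1 ≤ S.T := by
  have h1 : 1000 ≤ Real.log S.T := by
    have := Real.log_le_log (Real.exp_pos 1000) hS.T_ge
    rwa [Real.log_exp] at this
  exact ⟨h1, (Real.one_le_exp (by norm_num)).trans hS.T_ge⟩

private theorem T5_rpow {T x : ℝ} (hT : 0 < T) : T ^ x = Real.exp (x * Real.log T) := by
  rw [Real.rpow_def_of_pos hT, mul_comm]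

/-- The harmonic sum. -/
private theorem T5_harm {y : ℝ} (hy : 1 ≤ y) : ∑ n ∈ Finset.Icc 1 ⌊y⌋₊, 1 / (n : ℝ) ≤ 1 + Real.log y := by
  have h1 := harmonic_floor_le_one_add_log y hy
  rw [harmonic_eq_sum_Icc] at h1
  push_cast at h1
  refine le_trans (le_of_eq ?_) h1
  exact Finset.sum_congr rfl fun n _ => one_div _

private theorem T5_bound {y A : ℝ} (hy : 1 ≤ y) (hA : 0 ≤ A) (a : ℕ → ℂ)
    (ha : ∀ n ∈ Finset.Icc 1 ⌊y⌋₊, ‖a n‖ ≤ A) :
    ∑ n ∈ Finset.Icc 1 ⌊y⌋₊, ‖a n‖ / (n : ℝ) ≤ A * (1 + Real.log y) := by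
  refine le_trans ?_ (mul_le_mul_of_nonneg_left (T5_harm hy) hA)
  rw [Finset.mul_sum]
  refine Finset.sum_le_sum fun n hn => ?_
  rw [div_eq_mul_one_div]
  exact mul_le_mul_of_nonneg_right (ha n hn) (by positivity)

private theorem T5_mem {y : ℝ} (hy : 1 ≤ y) : ∀ n ∈ Finset.Icc 1 ⌊y⌋₊, n ≠ 0 ∧ (n : ℝ) ≤ y := by
  intro n hn
  rw [Finset.mem_Icc] at hn
  exact ⟨by omega, (Nat.le_floor_iff (by linarith)).1 hn.2⟩

private theorem T5_MO {T : ℝ} (hT : Real.exp 1 ≤ T) {h : ℂ} (hh : -(2 / Real.log T) ≤ h.re) :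
    IsP2 (T ^ (9 / 20 : ℝ)) 1 (Real.exp 2 * (1 + Real.log T)) (fun χ _ => MO 0 T (χ * nC h)) := by
  have hT1 : 1 < T := (Real.one_lt_exp_iff.2 one_pos).trans_le hT
  have hTp : 0 < T := by linarith
  have hL0 : 0 < Real.log T := Real.log_pos hT1
  have hy : 1 ≤ T ^ (9 / 20 : ℝ) := Real.one_le_rpow hT1.le (by norm_num)
  have hyT : T ^ (9 / 20 : ℝ) ≤ T := by
    calc T ^ (9 / 20 : ℝ) ≤ T ^ (1 : ℝ) := Real.rpow_le_rpow_of_exponent_le hT1.le (by norm_num)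
      _ = T := Real.rpow_one T
  have h0 := isP2_left (Finset.Icc 1 ⌊T ^ (9 / 20 : ℝ)⌋₊)
    (fun n => ((am 0 T n : ℝ) : ℂ) * nC h n) (T5_mem hy)
  have hfun : (fun (χ _ : ℕ →*₀ ℂ) => MO 0 T (χ * nC h)) = fun χ _ =>
      ∑ n ∈ Finset.Icc 1 ⌊T ^ (9 / 20 : ℝ)⌋₊, ((am 0 T n : ℝ) : ℂ) * nC h n * χ n := by
    funext χ _
    unfold MO
    refine Finset.sum_congr rfl fun n _ => ?_
    have e1 : (χ * nC h) n = χ n * nC h n := rfl
    rw [e1]
    ring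
  rw [hfun]
  refine h0.mono le_rfl le_rfl ?_
  have h1 := T5_bound hy (Real.exp_pos 2).le (fun n => ((am 0 T n : ℝ) : ℂ) * nC h n) (by
      intro n hn
      obtain ⟨hn0, hny⟩ := T5_mem hy n hn
      have hnT : (n : ℝ) ≤ T := hny.trans hyT
      have hn1 : (1 : ℝ) ≤ n := by exact_mod_cast Nat.one_le_iff_ne_zero.mpr hn0
      rw [norm_mul, Complex.norm_real, Real.norm_eq_abs, norm_nC h hn0]
      calc |am 0 T n| * (n : ℝ) ^ (-h.re) ≤ 1 * Real.exp 2 := by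
            refine mul_le_mul (am_le hT1 hnT) ?_ (by positivity) zero_le_one
            calc (n : ℝ) ^ (-h.re) ≤ (n : ℝ) ^ (2 / Real.log T) :=
                  Real.rpow_le_rpow_of_exponent_le hn1 (by linarith)
              _ ≤ T ^ (2 / Real.log T) :=
                  Real.rpow_le_rpow (by positivity) hnT (by positivity)
              _ = Real.exp 2 := by
                  rw [T5_rpow hTp]
                  congr 1
                  field_simp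
        _ = Real.exp 2 := one_mul _)
  have hlog : Real.log (T ^ (9 / 20 : ℝ)) ≤ Real.log T := Real.log_le_log (by linarith) hyT
  refine h1.trans (mul_le_mul_of_nonneg_left (by linarith) (Real.exp_pos 2).le)

private theorem T5_poly {T L : ℝ} (hTp : 0 < T) (hL : L = Real.log T) (hLb : 10000000000 ≤ L) :
    (1 + L) * Real.exp 4 ≤ T ^ (1 / 3200 : ℝ) := by
  rw [T5_rpow hTp, ← hL]
  have q1 : Real.exp 4 ≤ 81 := by
    have := Real.exp_one_lt_d9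
    have h3 : Real.exp 1 ≤ 3 := by linarith
    calc Real.exp 4 = Real.exp 1 ^ 4 := by rw [← Real.exp_nat_mul]; norm_num
      _ ≤ 3 ^ 4 := pow_le_pow_left₀ (Real.exp_pos 1).le h3 4
      _ = 81 := by norm_num
  have q2 : (1 / 3200 * L) ^ 2 / 2 ≤ Real.exp (1 / 3200 * L) := by
    have := Real.quadratic_le_exp_of_nonneg (x := 1 / 3200 * L) (by linarith)
    nlinarith
  refine le_trans ?_ q2
  have q3 : (1 + L) * Real.exp 4 ≤ (1 + L) * 81 := mul_le_mul_of_nonneg_left q1 (by linarith)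
  have q4 : 10000000000 * L ≤ L * L := mul_le_mul_of_nonneg_right hLb (by linarith)
  have q5 : (1 / 3200 * L) ^ 2 / 2 = L * L / 20480000 := by ring
  rw [q5]
  linarith

private theorem T5_D {S : BS} {Ct θ D1 : ℝ} {N0 : ℕ} (hS : TG S Ct θ D1 N0) :
    1 ≤ Real.exp (D1 + 5 * Real.log (1 / θ)) := by
  apply Real.one_le_exp
  have h1 := hS.D1_nonneg
  have h2 := hS.th_pos
  have h3 := hS.th_le
  have h4 : 0 ≤ Real.log (1 / θ) := by
    apply Real.log_nonneg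
    rw [le_div_iff₀ h2]
    linarith
  linarith

theorem TX2 (lam η : ℝ) (h0 : 0 < lam) (h1 : 0 < η) (h2 : η ≤ 1) : ∃ (C0 K : ℝ) (k : ℕ), 1 ≤ K ∧
    ∀ {Ct θ D1 : ℝ} {N0 : ℕ}, C0 ≤ Ct → ∃ T0 : ℝ, ∀ {S : BS}, TG S Ct θ D1 N0 → T0 ≤ S.T →
    ∀ z : ℂ, -2 ≤ z.re →
    ∫⁻ t in Dm η S.T, ENNReal.ofReal (‖MO 0 S.T (nC (pt S.T t z))‖ ^ 2 *
      ‖RT S (lam + 1) (nC (1 / 2 + t * I))‖ ^ 2) ≤
    ENNReal.ofReal (K * Real.exp (D1 + 5 * Real.log (1 / θ)) * (1 + ‖z‖) ^ k *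
      (S.T * Lam S lam)) := by
  obtain ⟨C, hC, hme⟩ := mean5 η h1 h2
  obtain ⟨C0', K', k, hK', hX⟩ := XR2 lam h0
  refine ⟨max C0' (lam + 1), C * (K' + 1), k, by nlinarith, ?_⟩
  intro Ct θ D1 N0 hCt
  refine ⟨Real.exp 10000000000, ?_⟩
  intro S hS hTe z hz
  have hCt1 : C0' ≤ Ct := (le_max_left _ _).trans hCt
  have hCt2 : lam + 1 ≤ Ct := (le_max_right _ _).trans hCt
  obtain ⟨-, hT1⟩ := T5_logT hS
  obtain ⟨L, hL⟩ : ∃ L : ℝ, L = Real.log S.T := ⟨_, rfl⟩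
  have hTp : 0 < S.T := by linarith
  have hLb : 10000000000 ≤ L := by
    have := Real.log_le_log (Real.exp_pos _) hTe
    rwa [Real.log_exp, ← hL] at this
  have hL0 : 0 < L := by linarith
  have hTe1 : Real.exp 1 ≤ S.T := (Real.exp_le_exp.mpr (by norm_num)).trans hTe
  have hθ := hS.th_pos
  have hθ1 := hS.th_le
  have hθ3 : θ ^ 3 ≤ 1 / 1000000 := by
    calc θ ^ 3 ≤ (1 / 100) ^ 3 := pow_le_pow_left₀ hθ.le hθ1 3
      _ = _ := by norm_num
  have hθ3p : 0 < θ ^ 3 := by positivity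
  have hLam := one_le_Lam S lam
  have hD := T5_D hS
  obtain ⟨h, hh⟩ : ∃ h : ℂ, h = z / (Real.log S.T : ℝ) := ⟨_, rfl⟩
  have hhre : h.re = z.re / L := by
    rw [hh, ← hL, Complex.div_ofReal_re]
  have hhn : L * ‖h‖ = ‖z‖ := by
    rw [hh, ← hL, norm_div, Complex.norm_real, Real.norm_of_nonneg hL0.le]
    field_simp
  have hh2 : -(2 / Real.log S.T) ≤ h.re := by
    rw [hhre, ← hL, neg_le_iff_add_nonneg, ← add_div]
    apply div_nonneg _ hL0.le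
    linarith
  have hh6 : -(6 / Real.log S.T) ≤ h.re := by
    refine le_trans ?_ hh2
    rw [← hL]
    apply neg_le_neg
    gcongr
    norm_num
  have hM := T5_MO hTe1 hh2
  have hR := RT_dp hS (κ := lam + 1) (by rw [abs_of_pos (by linarith)]; exact hCt2)
  have hMR := hM.mul hR
  have hg : IsP2 (S.T ^ (9 / 20 : ℝ) * S.T ^ (7 * θ ^ 3)) 1
      (Real.exp 2 * (1 + Real.log S.T) * S.T ^ (7 * θ ^ 3))
      (fun χ _ => MO 0 S.T (χ * nC h) * RT S (lam + 1) χ) :=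
    hMR.mono le_rfl (by norm_num) le_rfl
  have hQ1 : 1 ≤ S.T ^ (9 / 20 : ℝ) * S.T ^ (7 * θ ^ 3) := by
    rw [← Real.rpow_add hTp]
    exact Real.one_le_rpow hT1 (by positivity)
  have hfin := hme hQ1 hT1 hg
  have hQB : (S.T ^ (9 / 20 : ℝ) * S.T ^ (7 * θ ^ 3)) ^ 2 *
      (Real.exp 2 * (1 + Real.log S.T) * S.T ^ (7 * θ ^ 3)) ^ 2 ≤ S.T := by
    have e3 := T5_poly hTp hL hLb
    have e4 : (1 + L) * Real.exp 2 ≤ S.T ^ (1 / 3200 : ℝ) := by
      refine le_trans ?_ e3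
      apply mul_le_mul_of_nonneg_left _ (by linarith)
      exact Real.exp_le_exp.mpr (by norm_num)
    rw [← hL, ← mul_pow]
    calc (S.T ^ (9 / 20 : ℝ) * S.T ^ (7 * θ ^ 3) *
          (Real.exp 2 * (1 + L) * S.T ^ (7 * θ ^ 3))) ^ 2
        ≤ (S.T ^ (9 / 20 : ℝ) * S.T ^ (1 / 3200 : ℝ) *
          (S.T ^ (1 / 3200 : ℝ) * S.T ^ (1 / 3200 : ℝ))) ^ 2 := by
          have q1 : S.T ^ (7 * θ ^ 3) ≤ S.T ^ (1 / 3200 : ℝ) :=
            Real.rpow_le_rpow_of_exponent_le hT1 (by linarith)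
          have q2 : Real.exp 2 * (1 + L) ≤ S.T ^ (1 / 3200 : ℝ) := by
            rw [mul_comm]
            exact e4
          gcongr
      _ = S.T ^ (2 * (9 / 20 + 1 / 3200 + (1 / 3200 + 1 / 3200)) : ℝ) := by
          rw [← Real.rpow_add hTp, ← Real.rpow_add hTp, ← Real.rpow_add hTp, ← Real.rpow_natCast,
            ← Real.rpow_mul hTp.le]
          congr 1
          push_cast
          ring
      _ ≤ S.T ^ (1 : ℝ) := Real.rpow_le_rpow_of_exponent_le hT1 (by norm_num)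
      _ = S.T := Real.rpow_one _
  have hE : ∫ v, ‖MO 0 S.T (nX 0 v * nC h) * RT S (lam + 1) (nX 0 v)‖ ^ 2 ∂mu ≤
      K' * Real.exp (D1 + 5 * Real.log (1 / θ)) * (1 + ‖z‖) ^ k * Lam S lam := by
    have h3 := hX hS hCt1 h hh6
    rw [← hL, hhn] at h3
    refine le_trans (le_of_eq ?_) h3
    congr 1
    funext v
    rw [nX_mul_nC, zero_add, norm_mul, mul_pow]
  refine le_trans (le_of_eq ?_) (hfin.trans (ENNReal.ofReal_le_ofReal ?_))
  · refine lintegral_congr fun t => ?_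
    rw [nC_mul_nC, norm_mul, mul_pow, hh]
    rfl
  · have hz1 : 1 ≤ (1 + ‖z‖) ^ k := one_le_pow₀ (by linarith [norm_nonneg z])
    obtain ⟨U, hU⟩ : ∃ U : ℝ, U = Real.exp (D1 + 5 * Real.log (1 / θ)) * (1 + ‖z‖) ^ k := ⟨_, rfl⟩
    have hU1 : 1 ≤ U := by
      rw [hU]
      exact one_le_mul_of_one_le_of_one_le hD hz1
    have q2 : S.T ≤ U * (S.T * Lam S lam) := by
      have q3 : S.T * 1 ≤ S.T * Lam S lam := mul_le_mul_of_nonneg_left hLam hTp.le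
      have q4 : 1 * (S.T * Lam S lam) ≤ U * (S.T * Lam S lam) :=
        mul_le_mul_of_nonneg_right hU1 (by positivity)
      linarith
    calc C * (S.T * (∫ v, ‖MO 0 S.T (nX 0 v * nC h) * RT S (lam + 1) (nX 0 v)‖ ^ 2 ∂mu) +
          (S.T ^ (9 / 20 : ℝ) * S.T ^ (7 * θ ^ 3)) ^ 2 *
          (Real.exp 2 * (1 + Real.log S.T) * S.T ^ (7 * θ ^ 3)) ^ 2)
        ≤ C * (S.T * (K' * Real.exp (D1 + 5 * Real.log (1 / θ)) * (1 + ‖z‖) ^ k * Lam S lam) +
          U * (S.T * Lam S lam)) := by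
          apply mul_le_mul_of_nonneg_left _ (by linarith)
          refine add_le_add (mul_le_mul_of_nonneg_left hE hTp.le) (hQB.trans q2)
      _ = C * (K' + 1) * Real.exp (D1 + 5 * Real.log (1 / θ)) * (1 + ‖z‖) ^ k *
          (S.T * Lam S lam) := by
          rw [hU]
          ring

theorem TX3 (lam η : ℝ) (h0 : 0 < lam) (h1 : 0 < η) (h2 : η ≤ 1) : ∃ (C0 K : ℝ) (k : ℕ), 1 ≤ K ∧
    ∀ {Ct θ D1 : ℝ} {N0 : ℕ}, C0 ≤ Ct → ∃ T0 : ℝ, ∀ {S : BS}, TG S Ct θ D1 N0 → T0 ≤ S.T →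
    ∀ y : ℝ, |y| ≤ 2 * Real.log S.T ^ 2 →
    ∫⁻ t in Dm η S.T, ENNReal.ofReal (‖riemannZeta ((1 / 2 - 2 / Real.log S.T : ℝ) +
        (t + y / Real.log S.T : ℝ) * I)‖ ^ 2 *
      ‖RT S (lam - 1) (nC (1 / 2 + t * I))‖ ^ 2) ≤
    ENNReal.ofReal (K * Real.exp (D1 + 5 * Real.log (1 / θ)) * (1 + |y|) ^ k *
      (S.T * Lam S lam)) := by
  obtain ⟨C, T0', hC, htw⟩ := twist5 (η / 2) 2 (by positivity) (by linarith) (by norm_num)
  obtain ⟨C0', K', k, hK', hX⟩ := XR3 lam h0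
  refine ⟨max C0' (lam + 1), C * (K' * 3 ^ k + 1), k, ?_, ?_⟩
  · have : 1 ≤ K' * 3 ^ k := one_le_mul_of_one_le_of_one_le hK' (one_le_pow₀ (by norm_num))
    nlinarith
  intro Ct θ D1 N0 hCt
  refine ⟨max T0' (max (Real.exp 10000000000) (Real.exp (100 / η))), ?_⟩
  intro S hS hT y hy
  have hCt1 : C0' ≤ Ct := (le_max_left _ _).trans hCt
  have hCt2 : lam + 1 ≤ Ct := (le_max_right _ _).trans hCt
  have hT0 : T0' ≤ S.T := (le_max_left _ _).trans hT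
  have hTe : Real.exp 10000000000 ≤ S.T := (le_max_left _ _).trans ((le_max_right _ _).trans hT)
  have hTη : Real.exp (100 / η) ≤ S.T := (le_max_right _ _).trans ((le_max_right _ _).trans hT)
  obtain ⟨-, hT1⟩ := T5_logT hS
  obtain ⟨L, hL⟩ : ∃ L : ℝ, L = Real.log S.T := ⟨_, rfl⟩
  have hTp : 0 < S.T := by linarith
  have hLb : 10000000000 ≤ L := by
    have := Real.log_le_log (Real.exp_pos _) hTe
    rwa [Real.log_exp, ← hL] at this
  have hLη : 100 / η ≤ L := by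
    have := Real.log_le_log (Real.exp_pos _) hTη
    rwa [Real.log_exp, ← hL] at this
  have hL0 : 0 < L := by linarith
  have hθ := hS.th_pos
  have hθ1 := hS.th_le
  have hθ3 : θ ^ 3 ≤ 1 / 1000000 := by
    calc θ ^ 3 ≤ (1 / 100) ^ 3 := pow_le_pow_left₀ hθ.le hθ1 3
      _ = _ := by norm_num
  have hθ3p : 0 < θ ^ 3 := by positivity
  have hLam := one_le_Lam S lam
  have hD := T5_D hS
  rw [← hL] at hy
  obtain ⟨v, hv⟩ : ∃ v : ℝ, v = y / L := ⟨_, rfl⟩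
  have hvL : L * v = y := by
    rw [hv]
    field_simp
  have hvb : |v| ≤ 2 * L := by
    rw [hv, abs_div, abs_of_pos hL0, div_le_iff₀ hL0]
    calc |y| ≤ 2 * L ^ 2 := hy
      _ = 2 * L * L := by ring
  -- `2 L ≤ η T / 2`
  have hTL : 2 * L ≤ η * S.T / 2 := by
    have q1 : S.T = Real.exp L := by
      rw [hL, Real.exp_log hTp]
    have q2 : L ^ 2 / 2 ≤ Real.exp L := by
      have := Real.quadratic_le_exp_of_nonneg (x := L) hL0.le
      nlinarith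
    rw [div_le_iff₀ h1] at hLη
    rw [q1]
    have q3 : η * (L ^ 2 / 2) ≤ η * Real.exp L := mul_le_mul_of_nonneg_left q2 h1.le
    have q4 : 100 * L ≤ L * η * L := mul_le_mul_of_nonneg_right hLη hL0.le
    have q5 : η * (L ^ 2 / 2) = L * η * L / 2 := by ring
    rw [q5] at q3
    linarith
  obtain ⟨a, ha⟩ : ∃ a : ℝ, a = -(2 / L) := ⟨_, rfl⟩
  obtain ⟨h, hh⟩ : ∃ h : ℂ, h = -(v * I) := ⟨_, rfl⟩
  have hhre : h.re = 0 := by
    rw [hh]
    simp
  have hR := (RT_dp hS (κ := lam - 1) (by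
    rw [abs_le]
    constructor <;> linarith [hS.Ct_ge])).shift
    (Real.one_le_rpow hT1 (by positivity)) le_rfl h 0
  have hg : IsP2 (S.T ^ (47 / 100 : ℝ)) 1 (S.T ^ (1 / 1600 : ℝ))
      (fun χ _ => RT S (lam - 1) (χ * nC h)) := by
    refine hR.mono ?_ le_rfl ?_
    · exact Real.rpow_le_rpow_of_exponent_le hT1 (by linarith)
    · rw [hhre, abs_zero, Real.rpow_zero, Real.one_rpow, mul_one, mul_one]
      exact Real.rpow_le_rpow_of_exponent_le hT1 (by linarith)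
  obtain ⟨E, hEd⟩ : ∃ E : ℝ, E = K' * Real.exp (D1 + 5 * Real.log (1 / θ)) *
    (3 ^ k * (1 + |y|) ^ k) * Lam S lam := ⟨_, rfl⟩
  have hE : ∀ M : ℕ, S.T ^ (9 / 20 : ℝ) ≤ M → (M : ℝ) ≤ S.T ^ 2 →
      ∫ w, ‖Zt (Nat.primesBelow M) (1 / 2) w‖ ^ 2 *
        ‖RT S (lam - 1) (nX (-a) w * nC h)‖ ^ 2 ∂mu ≤ E := by
    intro M hM1 hM2
    have h3 := hX hS hCt1 M hM1 hM2 (-a + h) ?_
    · refine le_trans (le_of_eq ?_) (h3.trans ?_)
      · congr 1
        funext w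
        rw [nX_mul_nC]
      · rw [hEd, ← mul_pow, ← hL]
        have q1 : L * ‖-(a : ℂ) + h‖ ≤ 2 + |y| := by
          calc L * ‖-(a : ℂ) + h‖ ≤ L * (‖-(a : ℂ)‖ + ‖h‖) :=
                mul_le_mul_of_nonneg_left (norm_add_le _ _) hL0.le
            _ = L * |a| + L * |v| := by
                rw [norm_neg, Complex.norm_real, Real.norm_eq_abs, hh, norm_neg, norm_mul,
                  Complex.norm_I, mul_one, Complex.norm_real, Real.norm_eq_abs]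
                ring
            _ = 2 + |y| := by
                rw [ha, abs_neg, abs_of_pos (by positivity), ← hvL, abs_mul, abs_of_pos hL0]
                field_simp
        have q2 : (1 + L * ‖-(a : ℂ) + h‖) ^ k ≤ (3 * (1 + |y|)) ^ k := by
          apply pow_le_pow_left₀ (by positivity)
          linarith [abs_nonneg y]
        gcongr
    · rw [Complex.add_re, hhre, add_zero, Complex.neg_re, Complex.ofReal_re, ha, neg_neg,
        abs_of_pos (by positivity), ← hL]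
      gcongr
      norm_num
  have hE0 : 0 ≤ E := by
    rw [hEd]
    have : 0 ≤ Lam S lam := by linarith
    positivity
  have hfin := htw hT0 (a := a) (by
    rw [← hL, ha, abs_neg, abs_of_pos (by positivity)]) hg hE0 hE
  have hDm : MeasurableSet (Dm η S.T) := measurableSet_Icc
  have hDm2 : MeasurableSet (Dm (η / 2) S.T) := measurableSet_Icc
  obtain ⟨F, hF⟩ : ∃ F : ℝ → ENNReal, F = fun t : ℝ =>
    ENNReal.ofReal (‖riemannZeta (1 / 2 + a + t * I)‖ ^ 2 *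
      ‖RT S (lam - 1) (nC (1 / 2 + t * I) * nC h)‖ ^ 2) := ⟨_, rfl⟩
  have hFt : ∀ t : ℝ, ENNReal.ofReal (‖riemannZeta ((1 / 2 - 2 / Real.log S.T : ℝ) +
        (t + y / Real.log S.T : ℝ) * I)‖ ^ 2 *
      ‖RT S (lam - 1) (nC (1 / 2 + t * I))‖ ^ 2) = F (t + v) := by
    intro t
    rw [hF]
    beta_reduce
    rw [nC_mul_nC, ← hL, ← hv]
    have q1 : (1 / 2 : ℂ) + a + ((t + v : ℝ) : ℂ) * I =
        ((1 / 2 - 2 / L : ℝ) : ℂ) + ((t + v : ℝ) : ℂ) * I := by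
      rw [ha]
      push_cast
      ring
    have q3 : 1 / 2 + ((t + v : ℝ) : ℂ) * I + h = 1 / 2 + t * I := by
      rw [hh]
      push_cast
      ring
    rw [q1, q3]
  have hstep : ∫⁻ t in Dm η S.T, F (t + v) ≤ ∫⁻ t in Dm (η / 2) S.T, F t := by
    have h5 : ∫⁻ t in Dm (η / 2) S.T, F t =
        ∫⁻ t, (Dm (η / 2) S.T).indicator F (t + v) := by
      rw [lintegral_add_right_eq_self, lintegral_indicator hDm2]
    rw [h5, ← lintegral_indicator hDm]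
    refine lintegral_mono fun t => ?_
    by_cases htm : t ∈ Dm η S.T
    · have htm2 : t + v ∈ Dm (η / 2) S.T := by
        rw [abs_le] at hvb
        have k1 : η * S.T ≤ t := htm.1
        have k2 : t ≤ S.T / η := htm.2
        have k3 : S.T / (η / 2) = 2 * (S.T / η) := by field_simp
        have k4 : η * S.T / 2 ≤ S.T / η := by
          rw [le_div_iff₀ h1]
          nlinarith
        refine ⟨?_, ?_⟩
        · linarith [hvb.1]
        · rw [k3]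
          linarith [hvb.2]
      rw [Set.indicator_of_mem htm, Set.indicator_of_mem htm2]
    · rw [Set.indicator_of_notMem htm]
      exact zero_le
  have hFF : ∫⁻ t in Dm (η / 2) S.T, F t ≤
      ENNReal.ofReal (C * (S.T * E + S.T ^ (399 / 400 : ℝ))) := by
    rw [hF]
    exact hfin
  simp only [hFt]
  refine hstep.trans (hFF.trans (ENNReal.ofReal_le_ofReal ?_))
  have q1 : S.T ^ (399 / 400 : ℝ) ≤ S.T := by
    calc S.T ^ (399 / 400 : ℝ) ≤ S.T ^ (1 : ℝ) :=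
          Real.rpow_le_rpow_of_exponent_le hT1 (by norm_num)
      _ = S.T := Real.rpow_one _
  have hz1 : 1 ≤ (1 + |y|) ^ k := one_le_pow₀ (by linarith [abs_nonneg y])
  obtain ⟨U, hU⟩ : ∃ U : ℝ, U = Real.exp (D1 + 5 * Real.log (1 / θ)) * (1 + |y|) ^ k := ⟨_, rfl⟩
  have hU1 : 1 ≤ U := by
    rw [hU]
    exact one_le_mul_of_one_le_of_one_le hD hz1
  have q2 : S.T ≤ U * (S.T * Lam S lam) := by
    have q3 : S.T * 1 ≤ S.T * Lam S lam := mul_le_mul_of_nonneg_left hLam hTp.le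
    have q4 : 1 * (S.T * Lam S lam) ≤ U * (S.T * Lam S lam) :=
      mul_le_mul_of_nonneg_right hU1 (by positivity)
    linarith
  calc C * (S.T * E + S.T ^ (399 / 400 : ℝ))
      ≤ C * (S.T * E + U * (S.T * Lam S lam)) := by
        apply mul_le_mul_of_nonneg_left _ (by linarith)
        linarith
    _ = C * (K' * 3 ^ k + 1) * Real.exp (D1 + 5 * Real.log (1 / θ)) * (1 + |y|) ^ k *
        (S.T * Lam S lam) := by
        rw [hU, hEd]
        ring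

end Pool.Agent.LB
end
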