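import Pool.Agent.Lib.MP_69b2e4_nt.UH.Defs
import Pool.Agent.Lib.MP_69b2e4_nt.Mg.G041
import Pool.Agent.Lib.MP_69b2e4_nt.Mg.G016
import Pool.Agent.Lib.MP_69b2e4_nt.Mg.G004
import Pool.Agent.Lib.MP_69b2e4_nt.Mg.G037

section

/-! TASK R6. A prime number sum. Put `A = 8(1+|ξ|) ≥ 8`, `Y = log (yT T) = (79/500) log T`, `m = log (M1 T) ≤ (1/5) log T + log 2 ≤ 2 Y` (for `T ≥ T0`).
Small primes (`log p ≤ Y/A`): `∑ A log p/(p Y) ≤ (A/Y)(Y/A + C') ≤ 1 + C'/log 2` by `mertens_log` with `z = ⌊e^{Y/A}⌋` (if `Y/A < log 2` there are no such primes; otherwise `A/Y ≤ 1/log 2`).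
Large primes (`log p > Y/A`, `p < M1`): `∑ 2/p`. If `Y/A ≥ 2 log 2` put `z0 = ⌊e^{Y/A}⌋`, `log z0 ≥ Y/(2A)`; `mertens_inv`: `∑_{z0 < p < M1} 1/p ≤ log(m/log z0) + C'/log z0 ≤ log(4A) + C'/log 2`. If `Y/A < 2 log 2`: `∑_{p < M1} 1/p ≤ 1/2 + log(m/log 2) + C'/log 2`
and `m ≤ 2Y ≤ 4 A log 2`. In both cases `∑ ≤ log A + C''`, so the large primes contribute at most `2 log(1+|ξ|) + C'''`. -/

set_option autoImplicit false

namespace Pool.Agent.UH

open Complex MeasureTheory Finset Pool.Agent.GH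
open scoped Real ComplexConjugate

/-- the weight of a prime for the frequency `ξ` -/
noncomputable def dp (T ξ : ℝ) (p : ℕ) : ℝ :=
  min 2 (8 * (1 + |ξ|) * (Real.log p / Real.log (yT T)))

private theorem R6_core {C1 C2 : ℝ} (hC1 : 0 ≤ C1) (hC2 : 0 ≤ C2)
    (h1 : ∀ y z : ℕ, 2 ≤ y → y ≤ z →
      |∑ p ∈ (Finset.Ioc y z).filter Nat.Prime, 1 / (p : ℝ) - Real.log (Real.log z / Real.log y)| ≤
      C1 / Real.log y)
    (h2 : ∀ y z : ℕ, 1 ≤ y → y ≤ z →
      |∑ p ∈ (Finset.Ioc y z).filter Nat.Prime, Real.log p / p - (Real.log z - Real.log y)| ≤ C2)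
    (M : ℕ) (hM : 2 ≤ M) (Y a : ℝ) (hY : 0 < Y) (ha : 1 ≤ a) (hMY : Real.log M ≤ 2 * Y) :
    ∑ p ∈ Nat.primesBelow M, min 2 (a * (Real.log p / Y)) / p ≤
      1 + C2 / Real.log 2 + 2 * (C1 / Real.log 2) + 2 * Real.log (4 * a) := by
  have hl2 : 0 < Real.log 2 := Real.log_pos (by norm_num)
  have ha0 : 0 < a := by linarith
  have hfnn : ∀ p : ℕ, 0 ≤ min 2 (a * (Real.log p / Y)) / (p : ℝ) := by
    intro p
    have : 0 ≤ Real.log (p : ℝ) := Real.log_natCast_nonneg p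
    apply div_nonneg
    · apply le_min (by norm_num)
      positivity
    · exact Nat.cast_nonneg _
  have hf2 : ∀ p : ℕ, min 2 (a * (Real.log p / Y)) / (p : ℝ) ≤ 2 * (1 / (p : ℝ)) := by
    intro p
    rw [mul_one_div]
    exact div_le_div_of_nonneg_right (min_le_left _ _) (Nat.cast_nonneg _)
  have hlogM : 0 < Real.log (M : ℝ) := Real.log_pos (by
    have : (2 : ℝ) ≤ M := by exact_mod_cast hM
    linarith)
  by_cases hX : Y / a < Real.log 2
  · have hsub : Nat.primesBelow M ⊆ insert 2 ((Finset.Ioc 2 M).filter Nat.Prime) := by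
      intro p hp
      rw [Nat.mem_primesBelow] at hp
      rw [Finset.mem_insert, Finset.mem_filter, Finset.mem_Ioc]
      have := hp.2.two_le
      by_cases h : p = 2
      · exact Or.inl h
      · exact Or.inr ⟨⟨by omega, by omega⟩, hp.2⟩
    have hni : 2 ∉ (Finset.Ioc 2 M).filter Nat.Prime := by
      rw [Finset.mem_filter, Finset.mem_Ioc]
      omega
    have hm := (abs_le.1 (h1 2 M le_rfl hM)).2
    have hlog : Real.log (Real.log M / Real.log (2 : ℕ)) ≤ Real.log (4 * a) := by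
      apply Real.log_le_log
      · have : (0 : ℝ) < Real.log (2 : ℕ) := by exact_mod_cast hl2
        positivity
      · have h3 : Y < Real.log 2 * a := (div_lt_iff₀ ha0).1 hX
        have h4 : Real.log ((2 : ℕ) : ℝ) = Real.log 2 := by norm_num
        rw [h4, div_le_iff₀ hl2]
        nlinarith
    have h4 : Real.log ((2 : ℕ) : ℝ) = Real.log 2 := by norm_num
    rw [h4] at hm
    rw [h4] at hlog
    have hc2 : 0 ≤ C2 / Real.log 2 := by positivity
    calc ∑ p ∈ Nat.primesBelow M, min 2 (a * (Real.log p / Y)) / (p : ℝ)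
        ≤ ∑ p ∈ insert 2 ((Finset.Ioc 2 M).filter Nat.Prime), min 2 (a * (Real.log p / Y)) / (p : ℝ) :=
          Finset.sum_le_sum_of_subset_of_nonneg hsub (fun p _ _ => hfnn p)
      _ ≤ ∑ p ∈ insert 2 ((Finset.Ioc 2 M).filter Nat.Prime), 2 * (1 / (p : ℝ)) :=
          Finset.sum_le_sum (fun p _ => hf2 p)
      _ = 1 + 2 * ∑ p ∈ (Finset.Ioc 2 M).filter Nat.Prime, 1 / (p : ℝ) := by
          rw [Finset.sum_insert hni, Finset.mul_sum]
          norm_num
      _ ≤ 1 + C2 / Real.log 2 + 2 * (C1 / Real.log 2) + 2 * Real.log (4 * a) := by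
          linarith
  · push Not at hX
    have hXpos : 0 < Y / a := by positivity
    have hexp2 : (2 : ℝ) ≤ Real.exp (Y / a) := by
      calc (2 : ℝ) = Real.exp (Real.log 2) := (Real.exp_log (by norm_num)).symm
        _ ≤ Real.exp (Y / a) := Real.exp_le_exp.2 hX
    have hz2 : 2 ≤ ⌊Real.exp (Y / a)⌋₊ := Nat.le_floor (by exact_mod_cast hexp2)
    have hzle : (⌊Real.exp (Y / a)⌋₊ : ℝ) ≤ Real.exp (Y / a) := Nat.floor_le (Real.exp_pos _).le
    have hzge : Real.exp (Y / a) < (⌊Real.exp (Y / a)⌋₊ : ℝ) + 1 := Nat.lt_floor_add_one _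
    generalize ⌊Real.exp (Y / a)⌋₊ = z at hz2 hzle hzge
    have hz2' : (2 : ℝ) ≤ z := by exact_mod_cast hz2
    have hlz : Real.log z ≤ Y / a := by
      rw [Real.log_le_iff_le_exp (by linarith)]
      exact hzle
    have hlz2 : Real.log 2 ≤ Real.log z := Real.log_le_log (by norm_num) hz2'
    have hlzX : Y / a / 2 ≤ Real.log z := by
      by_cases h : Y / a ≤ 2 * Real.log 2
      · linarith
      · push Not at h
        have h3 : Real.exp (Y / a) / 2 ≤ z := by linarith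
        have h4 : Y / a - Real.log 2 ≤ Real.log z := by
          have h5 := Real.log_le_log (by positivity) h3
          rw [Real.log_div (Real.exp_pos _).ne' (by norm_num), Real.log_exp] at h5
          exact h5
        linarith
    have hlzpos : 0 < Real.log z := by linarith
    have hsub : Nat.primesBelow M ⊆ ((Finset.Ioc 1 z).filter Nat.Prime) ∪
        ((Finset.Ioc z (max z M)).filter Nat.Prime) := by
      intro p hp
      rw [Nat.mem_primesBelow] at hp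
      rw [Finset.mem_union, Finset.mem_filter, Finset.mem_filter, Finset.mem_Ioc, Finset.mem_Ioc]
      have := hp.2.two_le
      by_cases h : p ≤ z
      · exact Or.inl ⟨⟨by omega, h⟩, hp.2⟩
      · exact Or.inr ⟨⟨by omega, le_trans (by omega) (le_max_right _ _)⟩, hp.2⟩
    have hdisj : Disjoint ((Finset.Ioc 1 z).filter Nat.Prime)
        ((Finset.Ioc z (max z M)).filter Nat.Prime) := by
      rw [Finset.disjoint_left]
      intro p hp hp'
      rw [Finset.mem_filter, Finset.mem_Ioc] at hp hp'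
      omega
    have hA : ∑ p ∈ (Finset.Ioc 1 z).filter Nat.Prime, min 2 (a * (Real.log p / Y)) / (p : ℝ) ≤
        1 + C2 / Real.log 2 := by
      have hm := (abs_le.1 (h2 1 z le_rfl (by omega))).2
      have h3 : ∑ p ∈ (Finset.Ioc 1 z).filter Nat.Prime, min 2 (a * (Real.log p / Y)) / (p : ℝ) ≤
          (a / Y) * ∑ p ∈ (Finset.Ioc 1 z).filter Nat.Prime, Real.log p / (p : ℝ) := by
        rw [Finset.mul_sum]
        apply Finset.sum_le_sum
        intro p _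
        calc min 2 (a * (Real.log p / Y)) / (p : ℝ) ≤ (a * (Real.log p / Y)) / (p : ℝ) :=
              div_le_div_of_nonneg_right (min_le_right _ _) (Nat.cast_nonneg _)
          _ = (a / Y) * (Real.log p / (p : ℝ)) := by ring
      have h4 : ∑ p ∈ (Finset.Ioc 1 z).filter Nat.Prime, Real.log p / (p : ℝ) ≤ Y / a + C2 := by
        have h5 : Real.log ((1 : ℕ) : ℝ) = 0 := by simp
        rw [h5] at hm
        linarith
      have h6 : (a / Y) * (Y / a + C2) = 1 + C2 / (Y / a) := by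
        field_simp
      have h7 : C2 / (Y / a) ≤ C2 / Real.log 2 := div_le_div_of_nonneg_left hC2 hl2 hX
      have h8 : (a / Y) * ∑ p ∈ (Finset.Ioc 1 z).filter Nat.Prime, Real.log p / (p : ℝ) ≤
          (a / Y) * (Y / a + C2) := mul_le_mul_of_nonneg_left h4 (by positivity)
      linarith
    have hB : ∑ p ∈ (Finset.Ioc z (max z M)).filter Nat.Prime,
        min 2 (a * (Real.log p / Y)) / (p : ℝ) ≤ 2 * (C1 / Real.log 2) + 2 * Real.log (4 * a) := by
      have hm := (abs_le.1 (h1 z (max z M) hz2 (le_max_left _ _))).2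
      have h3 : ∑ p ∈ (Finset.Ioc z (max z M)).filter Nat.Prime,
          min 2 (a * (Real.log p / Y)) / (p : ℝ) ≤
          2 * ∑ p ∈ (Finset.Ioc z (max z M)).filter Nat.Prime, 1 / (p : ℝ) := by
        rw [Finset.mul_sum]
        exact Finset.sum_le_sum (fun p _ => hf2 p)
      have h4 : Real.log ((max z M : ℕ) : ℝ) ≤ 2 * Y := by
        rcases le_total z M with h | h
        · rw [max_eq_right h]
          exact hMY
        · rw [max_eq_left h]
          have : Y / a ≤ Y := div_le_self hY.le ha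
          linarith
      have h4' : 0 < Real.log ((max z M : ℕ) : ℝ) := by
        apply lt_of_lt_of_le hlzpos
        apply Real.log_le_log (by linarith)
        exact_mod_cast le_max_left z M
      have h5 : Real.log (Real.log ((max z M : ℕ) : ℝ) / Real.log z) ≤ Real.log (4 * a) := by
        apply Real.log_le_log (by positivity)
        rw [div_le_iff₀ hlzpos]
        have h6 : 4 * a * (Y / a / 2) = 2 * Y := by
          field_simp
          ring
        have h7 : 4 * a * (Y / a / 2) ≤ 4 * a * Real.log z :=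
          mul_le_mul_of_nonneg_left hlzX (by positivity)
        linarith
      have h6 : C1 / Real.log z ≤ C1 / Real.log 2 := div_le_div_of_nonneg_left hC1 hl2 hlz2
      linarith
    calc ∑ p ∈ Nat.primesBelow M, min 2 (a * (Real.log p / Y)) / (p : ℝ)
        ≤ ∑ p ∈ ((Finset.Ioc 1 z).filter Nat.Prime) ∪
          ((Finset.Ioc z (max z M)).filter Nat.Prime), min 2 (a * (Real.log p / Y)) / (p : ℝ) :=
          Finset.sum_le_sum_of_subset_of_nonneg hsub (fun p _ _ => hfnn p)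
      _ = ∑ p ∈ (Finset.Ioc 1 z).filter Nat.Prime, min 2 (a * (Real.log p / Y)) / (p : ℝ) +
          ∑ p ∈ (Finset.Ioc z (max z M)).filter Nat.Prime,
            min 2 (a * (Real.log p / Y)) / (p : ℝ) := Finset.sum_union hdisj
      _ ≤ 1 + C2 / Real.log 2 + 2 * (C1 / Real.log 2) + 2 * Real.log (4 * a) := by linarith

theorem sum_dp : ∃ C T0 : ℝ, 0 ≤ C ∧ ∀ T ξ : ℝ, T0 ≤ T →
    ∑ p ∈ Nat.primesBelow (M1 T), dp T ξ p / p ≤ C + 2 * Real.log (1 + |ξ|) := by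
  obtain ⟨C1, hC1, h1⟩ := mertens_inv
  obtain ⟨C2, hC2, h2⟩ := mertens_log
  have hl2 : 0 < Real.log 2 := Real.log_pos (by norm_num)
  have hl32 : 0 < Real.log 32 := Real.log_pos (by norm_num)
  refine ⟨1 + C2 / Real.log 2 + 2 * (C1 / Real.log 2) + 2 * Real.log 32, Real.exp 10,
    by positivity, ?_⟩
  intro T ξ hT
  have hTpos : 0 < T := lt_of_lt_of_le (Real.exp_pos _) hT
  have hT1 : 1 ≤ T := le_trans (Real.one_le_exp (by norm_num)) hT
  have hlT : 10 ≤ Real.log T := (Real.le_log_iff_exp_le hTpos).2 hT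
  have hY : Real.log (yT T) = 79 / 500 * Real.log T := by
    unfold yT
    rw [Real.log_rpow hTpos]
  have hYpos : 0 < Real.log (yT T) := by rw [hY]; linarith
  have hpow1 : 1 ≤ T ^ (1 / 5 : ℝ) := Real.one_le_rpow hT1 (by norm_num)
  have hM2 : 2 ≤ M1 T := by
    unfold M1 Mof
    have : 1 ≤ ⌊T ^ (1 / 5 : ℝ)⌋₊ := Nat.le_floor (by exact_mod_cast hpow1)
    omega
  have hMle : ((M1 T : ℕ) : ℝ) ≤ 2 * T ^ (1 / 5 : ℝ) := by
    unfold M1 Mof
    push_cast
    have := Nat.floor_le (show 0 ≤ T ^ (1 / 5 : ℝ) by positivity)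
    linarith
  have hMY : Real.log ((M1 T : ℕ) : ℝ) ≤ 2 * Real.log (yT T) := by
    have h3 : Real.log ((M1 T : ℕ) : ℝ) ≤ Real.log (2 * T ^ (1 / 5 : ℝ)) := by
      apply Real.log_le_log _ hMle
      have : (2 : ℝ) ≤ ((M1 T : ℕ) : ℝ) := by exact_mod_cast hM2
      linarith
    rw [Real.log_mul (by norm_num) (by positivity), Real.log_rpow hTpos] at h3
    rw [hY]
    have h4 : Real.log 2 < 0.6931471808 := Real.log_two_lt_d9
    linarith
  have hξ : 0 ≤ |ξ| := abs_nonneg ξ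
  have h3 := R6_core hC1 hC2 h1 h2 (M1 T) hM2 (Real.log (yT T)) (8 * (1 + |ξ|)) hYpos
    (by linarith) hMY
  have h4 : Real.log (4 * (8 * (1 + |ξ|))) = Real.log 32 + Real.log (1 + |ξ|) := by
    rw [← Real.log_mul (by norm_num) (by linarith)]
    congr 1
    ring
  rw [h4] at h3
  unfold dp
  linarith

end Pool.Agent.UH
end

section

/-! TASK R3. The expectation over one block. (COPY UH/R3.lean and extend it.) Notation `u_p = p^{-1/2} ≤ 3/4`, `x = (∑ e_p X_p + ∑ e'_p conj X_p)/2`, `c_p = (e_p + conj e'_p)/2`, so `Re x = Re ∑ c_p X_p`; `s = sR R = ∑ 1/p`.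
`main_block4`: `‖Zt‖² V e^{2 al Re x}` is a product over `p ∈ R`; `indep_primes` and `one_prime4` (`‖c_p‖ ≤ 4u_p`): the expectation is `≤ exp(∑ ‖u_p - b_p + d_p + al c_p‖² + C ∑ p^{-2})`.
`block4`: `norm_Ex_le_mul` (GH/ExBound, valid for complex arguments; check its exact form): `‖Ex l (al x)‖ ≤ e^{al Re x}(1 + 2^{-l} e^{3|x|})` or with another constant in the exponent, so `‖Ex‖² ≤ e^{2 al Re x}(1 + 3·2^{-l} e^{6‖x‖})`. The first term is `main_block4`.
For the second, pointwise `‖(1-z)⁻¹‖² ≤ exp(2 Re z + 16‖z‖²)` for `‖z‖ ≤ 3/4`, `‖1-z‖² ≤ exp(-2 Re z + ‖z‖²)`, so `‖Zt‖² V ≤ exp(Re ∑ 2(u_p - b_p + d_p) X_p + 33 s)`, `‖x‖ ≤ (‖∑ e_p X_p‖ + ‖∑ conj(e'_p) X_p‖)/2`, and by Cauchy-Schwarz / Hoelder (or `abc ≤ (a³+b³+c³)/3`)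
everything reduces to `lin_exp` (UH/R2) and to exponential moments `E exp(c ‖∑ a_p X_p‖) ≤ 4 exp(c² ∑ ‖a_p‖²)`-type bounds: from `lin_exp`, because `e^{c‖y‖} ≤ e^{2c|Re y|} + e^{2c|Im y|} ≤ sum of four exponentials of real parts` (`‖y‖ ≤ |Re y| + |Im y| ≤ 2 max`).
All sums `∑ ‖a_p‖² ≤ C s`. So the second term is at most `3·2^{-l} exp(C(s+1))`, and `exp(∑‖..‖² + C∑p^{-2}) ≥ 1`. -/

set_option autoImplicit false

namespace Pool.Agent.UV

open Complex MeasureTheory Finset Pool.Agent.GH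
open scoped Real ComplexConjugate

private theorem R3_u {p : ℕ} (hp : p.Prime) :
    0 ≤ (p : ℝ) ^ (-(1 / 2) : ℝ) ∧ (p : ℝ) ^ (-(1 / 2) : ℝ) ≤ 3 / 4 ∧
      ((p : ℝ) ^ (-(1 / 2) : ℝ)) ^ 2 = 1 / (p : ℝ) ∧
      ((p : ℝ) ^ (-(1 / 2) : ℝ)) ^ 4 = (p : ℝ) ^ (-2 : ℝ) := by
  have hp0 : (0 : ℝ) < p := by exact_mod_cast hp.pos
  have hp2 : (2 : ℝ) ≤ p := by exact_mod_cast hp.two_le
  have h0 : 0 ≤ (p : ℝ) ^ (-(1 / 2) : ℝ) := Real.rpow_nonneg hp0.le _
  have h2 : ((p : ℝ) ^ (-(1 / 2) : ℝ)) ^ 2 = 1 / (p : ℝ) := by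
    rw [← Real.rpow_natCast, ← Real.rpow_mul hp0.le]
    have : (-(1 / 2) : ℝ) * ((2 : ℕ) : ℝ) = -1 := by norm_num
    rw [this, Real.rpow_neg_one, one_div]
  have h4 : ((p : ℝ) ^ (-(1 / 2) : ℝ)) ^ 4 = (p : ℝ) ^ (-2 : ℝ) := by
    rw [← Real.rpow_natCast, ← Real.rpow_mul hp0.le]
    have : (-(1 / 2) : ℝ) * ((4 : ℕ) : ℝ) = -2 := by norm_num
    rw [this]
  refine ⟨h0, ?_, h2, h4⟩
  have h5 : 1 / (p : ℝ) ≤ 1 / 2 := one_div_le_one_div_of_le (by norm_num) hp2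
  nlinarith

private theorem R3_circ : Continuous fun x : UnitAddCircle => (AddCircle.toCircle x : ℂ) :=
  continuous_subtype_val.comp AddCircle.continuous_toCircle

private theorem R3_inv (z : ℂ) (hz : ‖z‖ ≤ 3 / 4) :
    ‖(1 - z)⁻¹‖ ^ 2 ≤ Real.exp (2 * z.re + 72 * ‖z‖ ^ 2) := by
  have h1 : ‖1 - z‖ ^ 2 = 1 - 2 * z.re + ‖z‖ ^ 2 := by
    rw [← Complex.normSq_eq_norm_sq, ← Complex.normSq_eq_norm_sq, Complex.normSq_apply,
      Complex.normSq_apply]
    simp only [Complex.sub_re, Complex.one_re, Complex.sub_im, Complex.one_im]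
    ring
  have hr0 := norm_nonneg z
  have ha := abs_le.mp (Complex.abs_re_le_norm z)
  rw [norm_inv, inv_pow, h1]
  set r := ‖z‖ with hr
  set a := z.re with haa
  have hy : 1 / 16 ≤ 1 - 2 * a + r ^ 2 := by nlinarith
  have hy0 : 0 < 1 - 2 * a + r ^ 2 := by linarith
  have h2 := Real.add_one_le_exp ((1 - 2 * a + r ^ 2)⁻¹ - 1)
  rw [sub_add_cancel] at h2
  refine h2.trans (Real.exp_le_exp.mpr ?_)
  rw [sub_le_iff_le_add, inv_eq_one_div, div_le_iff₀ hy0]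
  have h3 : a ^ 2 ≤ r ^ 2 := sq_le_sq' ha.1 ha.2
  have h4 : (0 : ℝ) ≤ r ^ 2 := sq_nonneg r
  have h5 : 72 * r ^ 2 * (1 / 16) ≤ 72 * r ^ 2 * (1 - 2 * a + r ^ 2) :=
    mul_le_mul_of_nonneg_left hy (by positivity)
  nlinarith [mul_nonneg h4 (by linarith : (0 : ℝ) ≤ 3 / 4 - a)]

private theorem R3_lin (z : ℂ) :
    ‖1 - z‖ ^ 2 ≤ Real.exp (-(2 * z.re) + ‖z‖ ^ 2) := by
  have h1 : ‖1 - z‖ ^ 2 = 1 - 2 * z.re + ‖z‖ ^ 2 := by
    rw [← Complex.normSq_eq_norm_sq, ← Complex.normSq_eq_norm_sq, Complex.normSq_apply,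
      Complex.normSq_apply]
    simp only [Complex.sub_re, Complex.one_re, Complex.sub_im, Complex.one_im]
    ring
  have h2 := Real.add_one_le_exp (-(2 * z.re) + ‖z‖ ^ 2)
  rw [h1]
  linarith

private theorem R3_re (R : Finset ℕ) (e e' : ℕ → ℂ) (w : Om) :
    (((∑ p ∈ R, e p * X p w) + ∑ p ∈ R, e' p * conj (X p w)) / 2).re =
      ∑ p ∈ R, (((e p + conj (e' p)) / 2) * X p w).re := by
  have h0 : ((∑ p ∈ R, e p * X p w) + ∑ p ∈ R, e' p * conj (X p w)) / 2 =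
      ∑ p ∈ R, ((e p * X p w) / 2 + (e' p * conj (X p w)) / 2) := by
    rw [← Finset.sum_add_distrib, Finset.sum_div]
    exact Finset.sum_congr rfl fun p _ => by ring
  rw [h0, Complex.re_sum]
  refine Finset.sum_congr rfl fun p _ => ?_
  have h1 : (e' p * conj (X p w) / 2).re = (conj (e' p) * X p w / 2).re := by
    rw [← Complex.conj_re (e' p * conj (X p w) / 2)]
    congr 1
    rw [map_div₀, map_mul, Complex.conj_conj, map_ofNat]
  have h2 : ((e p + conj (e' p)) / 2) * X p w =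
      e p * X p w / 2 + conj (e' p) * X p w / 2 := by ring
  rw [Complex.add_re, h1, h2, Complex.add_re]

private theorem R3_prod (R : Finset ℕ) (b d e e' : ℕ → ℂ) (al : ℝ) (w : Om) :
    ‖Zt R (1 / 2) w‖ ^ 2 * (∏ p ∈ R, ‖1 - b p * X p w‖ ^ 2) *
      (∏ p ∈ R, ‖(1 - d p * X p w)⁻¹‖ ^ 2) *
      Real.exp (2 * (al * (((∑ p ∈ R, e p * X p w) + ∑ p ∈ R, e' p * conj (X p w)) / 2).re)) =
    ∏ p ∈ R, (‖(1 - (((p : ℝ) ^ (-(1 / 2) : ℝ) : ℝ) : ℂ) * (AddCircle.toCircle (w p) : ℂ))⁻¹‖ ^ 2 *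
      ‖1 - b p * (AddCircle.toCircle (w p) : ℂ)‖ ^ 2 *
      ‖(1 - d p * (AddCircle.toCircle (w p) : ℂ))⁻¹‖ ^ 2 *
      Real.exp (2 * (al * (((e p + conj (e' p)) / 2) * (AddCircle.toCircle (w p) : ℂ)).re))) := by
  rw [Finset.prod_mul_distrib, Finset.prod_mul_distrib, Finset.prod_mul_distrib]
  have h1 : ‖Zt R (1 / 2) w‖ ^ 2 =
      ∏ p ∈ R, ‖(1 - (((p : ℝ) ^ (-(1 / 2) : ℝ) : ℝ) : ℂ) *
        (AddCircle.toCircle (w p) : ℂ))⁻¹‖ ^ 2 := by
    unfold Zt
    rw [norm_prod, ← Finset.prod_pow]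
    rfl
  have h2 : Real.exp (2 * (al * (((∑ p ∈ R, e p * X p w) +
        ∑ p ∈ R, e' p * conj (X p w)) / 2).re)) =
      ∏ p ∈ R, Real.exp (2 * (al * (((e p + conj (e' p)) / 2) *
        (AddCircle.toCircle (w p) : ℂ)).re)) := by
    rw [← Real.exp_sum, R3_re, Finset.mul_sum, Finset.mul_sum]
    rfl
  rw [h1, h2]
  rfl

private theorem R3_contG (R : Finset ℕ) (b d : ℕ → ℂ) (hR : ∀ p ∈ R, p.Prime)
    (hd : ∀ p ∈ R, ‖d p‖ ≤ (p : ℝ) ^ (-(1 / 2) : ℝ)) :
    Continuous fun w => ‖Zt R (1 / 2) w‖ ^ 2 * (∏ p ∈ R, ‖1 - b p * X p w‖ ^ 2) *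
      (∏ p ∈ R, ‖(1 - d p * X p w)⁻¹‖ ^ 2) := by
  refine (((continuous_norm.comp (continuous_Zt R hR (by norm_num))).pow 2).mul ?_).mul ?_
  · refine continuous_finsetProd _ fun p _ => ?_
    exact (continuous_norm.comp
      (continuous_const.sub (continuous_const.mul (continuous_X p)))).pow 2
  · refine continuous_finsetProd _ fun p hp => ?_
    refine (continuous_norm.comp ((continuous_const.sub
      (continuous_const.mul (continuous_X p))).inv₀ fun w h0 => ?_)).pow 2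
    have h1 : d p * X p w = 1 := (sub_eq_zero.1 h0).symm
    have h2 : ‖d p * X p w‖ = ‖d p‖ := by rw [norm_mul, norm_X, mul_one]
    rw [h1, norm_one] at h2
    have h3 := (hd p hp).trans (R3_u (hR p hp)).2.1
    linarith

private theorem R3_bound (R : Finset ℕ) (b d : ℕ → ℂ) (hR : ∀ p ∈ R, p.Prime)
    (hb : ∀ p ∈ R, ‖b p‖ ≤ (p : ℝ) ^ (-(1 / 2) : ℝ))
    (hd : ∀ p ∈ R, ‖d p‖ ≤ (p : ℝ) ^ (-(1 / 2) : ℝ)) (w : Om) :
    ‖Zt R (1 / 2) w‖ ^ 2 * (∏ p ∈ R, ‖1 - b p * X p w‖ ^ 2) *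
      (∏ p ∈ R, ‖(1 - d p * X p w)⁻¹‖ ^ 2) ≤
      Real.exp ((∑ p ∈ R, (2 * ((((p : ℝ) ^ (-(1 / 2) : ℝ) : ℝ) : ℂ) - b p + d p)) *
        X p w).re + 145 * sR R) := by
  have h1 : ‖Zt R (1 / 2) w‖ ^ 2 * (∏ p ∈ R, ‖1 - b p * X p w‖ ^ 2) *
      (∏ p ∈ R, ‖(1 - d p * X p w)⁻¹‖ ^ 2) =
      ∏ p ∈ R, (‖(1 - (((p : ℝ) ^ (-(1 / 2) : ℝ) : ℝ) : ℂ) * X p w)⁻¹‖ ^ 2 *
        ‖1 - b p * X p w‖ ^ 2 * ‖(1 - d p * X p w)⁻¹‖ ^ 2) := by
    rw [Finset.prod_mul_distrib, Finset.prod_mul_distrib]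
    congr 2
    unfold Zt
    rw [norm_prod, ← Finset.prod_pow]
  rw [h1]
  have h2 : (∑ p ∈ R, (2 * ((((p : ℝ) ^ (-(1 / 2) : ℝ) : ℝ) : ℂ) - b p + d p)) * X p w).re +
        145 * sR R = ∑ p ∈ R, (((2 * ((((p : ℝ) ^ (-(1 / 2) : ℝ) : ℝ) : ℂ) - b p + d p)) *
          X p w).re + 145 * (1 / (p : ℝ))) := by
    rw [Complex.re_sum, Finset.sum_add_distrib, sR, Finset.mul_sum]
  rw [h2, Real.exp_sum]
  refine Finset.prod_le_prod (fun p _ => by positivity) fun p hp => ?_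
  obtain ⟨hu0, hu1, hu2, -⟩ := R3_u (hR p hp)
  set u := (p : ℝ) ^ (-(1 / 2) : ℝ) with hu
  have hn : ‖(u : ℂ) * X p w‖ = u := by
    rw [norm_mul, norm_X, mul_one, Complex.norm_real, Real.norm_of_nonneg hu0]
  have hn2 : ‖b p * X p w‖ = ‖b p‖ := by
    rw [norm_mul, norm_X, mul_one]
  have hn3 : ‖d p * X p w‖ = ‖d p‖ := by
    rw [norm_mul, norm_X, mul_one]
  have k1 := R3_inv ((u : ℂ) * X p w) (by rw [hn]; exact hu1)
  have k2 := R3_lin (b p * X p w)
  have k3 := R3_inv (d p * X p w) (by rw [hn3]; exact (hd p hp).trans hu1)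
  rw [hn] at k1
  rw [hn2] at k2
  rw [hn3] at k3
  refine (mul_le_mul (mul_le_mul k1 k2 (by positivity) (Real.exp_pos _).le) k3 (by positivity)
    (by positivity)).trans ?_
  rw [← Real.exp_add, ← Real.exp_add]
  refine Real.exp_le_exp.mpr ?_
  have h3 : ‖b p‖ ^ 2 ≤ u ^ 2 := pow_le_pow_left₀ (norm_nonneg _) (hb p hp) 2
  have h3' : ‖d p‖ ^ 2 ≤ u ^ 2 := pow_le_pow_left₀ (norm_nonneg _) (hd p hp) 2
  have h4 : ((2 * ((u : ℂ) - b p + d p)) * X p w).re =
      2 * ((u : ℂ) * X p w).re - 2 * (b p * X p w).re + 2 * (d p * X p w).re := by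
    have : (2 * ((u : ℂ) - b p + d p)) * X p w =
      ((2 : ℝ) : ℂ) * ((u : ℂ) * X p w) - ((2 : ℝ) : ℂ) * (b p * X p w) +
        ((2 : ℝ) : ℂ) * (d p * X p w) := by
      push_cast; ring
    rw [this, Complex.add_re, Complex.sub_re, Complex.re_ofReal_mul 2 ((u : ℂ) * X p w),
      Complex.re_ofReal_mul 2 (b p * X p w), Complex.re_ofReal_mul 2 (d p * X p w)]
  rw [h4, ← hu2]
  linarith

private theorem R3_ex (l : ℕ) (al : ℝ) (Y : ℂ) (hal : |al| ≤ 1) :
    ‖Ex l (al * Y)‖ ^ 2 ≤ Real.exp (2 * (al * Y.re)) +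
      3 * (2 : ℝ)⁻¹ ^ l * (Real.exp (2 * (al * Y.re)) * Real.exp (6 * ‖Y‖)) := by
  have h1 := norm_Ex_le_mul l ((al : ℂ) * Y)
  rw [Complex.norm_exp, Complex.re_ofReal_mul] at h1
  set y := ‖Y‖ with hy
  have hy0 : 0 ≤ y := norm_nonneg _
  have h2 : ‖(al : ℂ) * Y‖ ≤ y := by
    rw [norm_mul, Complex.norm_real, Real.norm_eq_abs]
    calc |al| * ‖Y‖ ≤ 1 * ‖Y‖ := mul_le_mul_of_nonneg_right hal (norm_nonneg _)
      _ = y := one_mul _
  have h3 : Real.exp (3 * ‖(al : ℂ) * Y‖) ≤ Real.exp (3 * y) :=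
    Real.exp_le_exp.mpr (by linarith)
  set q : ℝ := (2 : ℝ)⁻¹ ^ l with hq
  have hq0 : 0 < q := by positivity
  have hq1 : q ≤ 1 := pow_le_one₀ (by norm_num) (by norm_num)
  set E := Real.exp (al * Y.re) with hE
  set Z := Real.exp (3 * y) with hZ
  have hE0 : 0 < E := Real.exp_pos _
  have hZ1 : 1 ≤ Z := Real.one_le_exp (by linarith)
  have e1 : Real.exp (2 * (al * Y.re)) = E ^ 2 := by
    rw [hE, ← Real.exp_nat_mul]; congr 1
  have e2 : Real.exp (6 * y) = Z ^ 2 := by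
    rw [hZ, ← Real.exp_nat_mul]; congr 1; push_cast; ring
  rw [e1, e2]
  have h4 : ‖Ex l (al * Y)‖ ≤ E * (1 + q * Z) := by
    refine h1.trans (mul_le_mul_of_nonneg_left ?_ hE0.le)
    linarith [mul_le_mul_of_nonneg_left h3 hq0.le]
  have h5 : ‖Ex l (al * Y)‖ ^ 2 ≤ (E * (1 + q * Z)) ^ 2 :=
    pow_le_pow_left₀ (norm_nonneg _) h4 2
  refine h5.trans ?_
  have h6 : (1 + q * Z) ^ 2 ≤ 1 + 3 * q * Z ^ 2 := by
    have a1 : q * Z ≤ q * Z ^ 2 := by
      apply mul_le_mul_of_nonneg_left _ hq0.le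
      nlinarith
    have a2 : q ^ 2 * Z ^ 2 ≤ q * Z ^ 2 := by
      apply mul_le_mul_of_nonneg_right _ (by positivity)
      nlinarith
    nlinarith
  calc (E * (1 + q * Z)) ^ 2 = E ^ 2 * (1 + q * Z) ^ 2 := by ring
    _ ≤ E ^ 2 * (1 + 3 * q * Z ^ 2) := mul_le_mul_of_nonneg_left h6 (by positivity)
    _ = _ := by ring

private theorem R3_add2 {f g : Om → ℝ} (hf : Integrable f mu) (hg : Integrable g mu) :
    Integrable (fun w => f w + g w) mu ∧ ∫ w, (f w + g w) ∂mu = ∫ w, f w ∂mu + ∫ w, g w ∂mu :=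
  ⟨hf.add hg, integral_add hf hg⟩

private theorem R3_contS (R : Finset ℕ) (a : ℕ → ℂ) :
    Continuous fun w => ∑ p ∈ R, a p * X p w :=
  continuous_finsetSum _ fun p _ => continuous_const.mul (continuous_X p)

/-- Exponential moments of the norm of a linear form. -/
private theorem R3_mom (R : Finset ℕ) (a : ℕ → ℂ) (c : ℝ) :
    ∫ w, Real.exp (c * ‖∑ p ∈ R, a p * X p w‖) ∂mu ≤
      4 * Real.exp (4 * c ^ 2 * ∑ p ∈ R, ‖a p‖ ^ 2) := by
  have hdir : ∀ κ : ℂ, ‖κ‖ ≤ 1 →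
      Integrable (fun w => Real.exp ((∑ p ∈ R, (2 * c * κ * a p) * X p w).re)) mu ∧
      ∫ w, Real.exp ((∑ p ∈ R, (2 * c * κ * a p) * X p w).re) ∂mu ≤
        Real.exp (4 * c ^ 2 * ∑ p ∈ R, ‖a p‖ ^ 2) := by
    intro κ hκ
    refine ⟨integrable_of_continuous (Real.continuous_exp.comp
      (Complex.continuous_re.comp (R3_contS R _))), ?_⟩
    refine (UH.lin_exp R fun p => 2 * c * κ * a p).trans (Real.exp_le_exp.mpr ?_)
    rw [Finset.mul_sum]
    refine Finset.sum_le_sum fun p _ => ?_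
    rw [norm_mul, norm_mul, norm_mul, Complex.norm_ofNat, Complex.norm_real, Real.norm_eq_abs]
    have h1 : (2 * |c| * ‖κ‖ * ‖a p‖) ^ 2 = 4 * c ^ 2 * ‖a p‖ ^ 2 * ‖κ‖ ^ 2 := by
      rw [mul_pow, mul_pow, mul_pow, sq_abs]; ring
    rw [h1]
    have h2 : ‖κ‖ ^ 2 ≤ 1 := pow_le_one₀ (norm_nonneg _) hκ
    calc 4 * c ^ 2 * ‖a p‖ ^ 2 * ‖κ‖ ^ 2 ≤ 4 * c ^ 2 * ‖a p‖ ^ 2 * 1 :=
          mul_le_mul_of_nonneg_left h2 (by positivity)
      _ = _ := mul_one _
  obtain ⟨i1, b1⟩ := hdir 1 (by simp)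
  obtain ⟨i2, b2⟩ := hdir (-1) (by simp)
  obtain ⟨i3, b3⟩ := hdir I (by simp)
  obtain ⟨i4, b4⟩ := hdir (-I) (by simp)
  have hc : Continuous fun w => Real.exp (c * ‖∑ p ∈ R, a p * X p w‖) :=
    Real.continuous_exp.comp (continuous_const.mul (continuous_norm.comp (R3_contS R a)))
  have hpt : ∀ w, Real.exp (c * ‖∑ p ∈ R, a p * X p w‖) ≤
      ((Real.exp ((∑ p ∈ R, (2 * c * 1 * a p) * X p w).re) +
        Real.exp ((∑ p ∈ R, (2 * c * (-1) * a p) * X p w).re)) +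
        Real.exp ((∑ p ∈ R, (2 * c * I * a p) * X p w).re)) +
        Real.exp ((∑ p ∈ R, (2 * c * (-I) * a p) * X p w).re) := by
    intro w
    set y := ∑ p ∈ R, a p * X p w with hy
    have hs : ∀ κ : ℂ, ∑ p ∈ R, (2 * c * κ * a p) * X p w = ((2 * c : ℝ) : ℂ) * (κ * y) := by
      intro κ
      rw [hy, Finset.mul_sum, Finset.mul_sum]
      refine Finset.sum_congr rfl fun p _ => ?_
      push_cast
      ring
    rw [hs, hs, hs, hs, Complex.re_ofReal_mul, Complex.re_ofReal_mul, Complex.re_ofReal_mul,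
      Complex.re_ofReal_mul]
    have r1 : ((1 : ℂ) * y).re = y.re := by simp
    have r2 : ((-1 : ℂ) * y).re = -y.re := by simp
    have r3 : (I * y).re = -y.im := by simp
    have r4 : (-I * y).re = y.im := by simp
    rw [r1, r2, r3, r4]
    have hn : ‖y‖ ≤ |y.re| + |y.im| := Complex.norm_le_abs_re_add_abs_im y
    have p1 := Real.exp_pos (2 * c * y.re)
    have p2 := Real.exp_pos (2 * c * -y.re)
    have p3 := Real.exp_pos (2 * c * -y.im)
    have p4 := Real.exp_pos (2 * c * y.im)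
    rcases le_or_gt 0 c with h0 | h0
    · rcases le_total |y.re| |y.im| with h | h
      · have h5 : c * ‖y‖ ≤ 2 * c * |y.im| := by nlinarith
        rcases abs_choice y.im with h6 | h6
        · rw [h6] at h5
          linarith [Real.exp_le_exp.mpr h5]
        · rw [h6] at h5
          linarith [Real.exp_le_exp.mpr h5]
      · have h5 : c * ‖y‖ ≤ 2 * c * |y.re| := by nlinarith
        rcases abs_choice y.re with h6 | h6
        · rw [h6] at h5
          linarith [Real.exp_le_exp.mpr h5]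
        · rw [h6] at h5
          linarith [Real.exp_le_exp.mpr h5]
    · have h5 : c * ‖y‖ ≤ 0 := mul_nonpos_of_nonpos_of_nonneg h0.le (norm_nonneg _)
      have h6 : Real.exp (c * ‖y‖) ≤ 1 := Real.exp_le_one_iff.mpr h5
      rcases le_total 0 y.re with h | h
      · have : 0 ≤ 2 * c * -y.re := by nlinarith
        linarith [Real.one_le_exp this]
      · have : 0 ≤ 2 * c * y.re := by nlinarith
        linarith [Real.one_le_exp this]
  refine (integral_mono (integrable_of_continuous hc) (((i1.add i2).add i3).add i4) hpt).trans ?_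
  have e4 : ∫ w, (((Real.exp ((∑ p ∈ R, (2 * c * 1 * a p) * X p w).re) +
        Real.exp ((∑ p ∈ R, (2 * c * (-1) * a p) * X p w).re)) +
        Real.exp ((∑ p ∈ R, (2 * c * I * a p) * X p w).re)) +
        Real.exp ((∑ p ∈ R, (2 * c * (-I) * a p) * X p w).re)) ∂mu =
      ((∫ w, Real.exp ((∑ p ∈ R, (2 * c * 1 * a p) * X p w).re) ∂mu +
        ∫ w, Real.exp ((∑ p ∈ R, (2 * c * (-1) * a p) * X p w).re) ∂mu) +
        ∫ w, Real.exp ((∑ p ∈ R, (2 * c * I * a p) * X p w).re) ∂mu) +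
        ∫ w, Real.exp ((∑ p ∈ R, (2 * c * (-I) * a p) * X p w).re) ∂mu := by
    obtain ⟨j1, s1⟩ := R3_add2 i1 i2
    obtain ⟨j2, s2⟩ := R3_add2 j1 i3
    obtain ⟨j3, s3⟩ := R3_add2 j2 i4
    rw [s3, s2, s1]
  refine le_trans (le_of_eq e4) ?_
  linarith

theorem main_block4 : ∃ C : ℝ, 0 ≤ C ∧ ∀ (R : Finset ℕ) (b d e e' : ℕ → ℂ) (al : ℝ),
    (∀ p ∈ R, p.Prime) → (∀ p ∈ R, ‖b p‖ ≤ (p : ℝ) ^ (-(1 / 2) : ℝ)) →
    (∀ p ∈ R, ‖d p‖ ≤ (p : ℝ) ^ (-(1 / 2) : ℝ)) → (∀ p ∈ R, ‖e p‖ ≤ 4 * (p : ℝ) ^ (-(1 / 2) : ℝ)) →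
    (∀ p ∈ R, ‖e' p‖ ≤ 4 * (p : ℝ) ^ (-(1 / 2) : ℝ)) → |al| ≤ 1 →
    ∫ w, ‖Zt R (1 / 2) w‖ ^ 2 * (∏ p ∈ R, ‖1 - b p * X p w‖ ^ 2) *
      (∏ p ∈ R, ‖(1 - d p * X p w)⁻¹‖ ^ 2) *
      Real.exp (2 * (al * (((∑ p ∈ R, e p * X p w) + ∑ p ∈ R, e' p * conj (X p w)) / 2).re)) ∂mu ≤
    Real.exp (∑ p ∈ R, ‖(((p : ℝ) ^ (-(1 / 2) : ℝ) : ℝ) : ℂ) - b p + d p +
        al * ((e p + conj (e' p)) / 2)‖ ^ 2 + C * ∑ p ∈ R, (p : ℝ) ^ (-2 : ℝ)) := by
  obtain ⟨C, hC0, hC⟩ := one_prime4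
  refine ⟨C, hC0, fun R b d e e' al hR hb hd he he' hal => ?_⟩
  simp_rw [R3_prod R b d e e' al]
  rw [indep_primes (𝕜 := ℝ) R (fun p x =>
    ‖(1 - (((p : ℝ) ^ (-(1 / 2) : ℝ) : ℝ) : ℂ) * (AddCircle.toCircle x : ℂ))⁻¹‖ ^ 2 *
      ‖1 - b p * (AddCircle.toCircle x : ℂ)‖ ^ 2 *
      ‖(1 - d p * (AddCircle.toCircle x : ℂ))⁻¹‖ ^ 2 *
      Real.exp (2 * (al * (((e p + conj (e' p)) / 2) * (AddCircle.toCircle x : ℂ)).re)))
    (fun p _ => by
      have hm := R3_circ.measurable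
      refine Measurable.mul (Measurable.mul (Measurable.mul ?_ ?_) ?_) ?_
      · exact ((measurable_const.sub (measurable_const.mul hm)).inv).norm.pow_const 2
      · exact (measurable_const.sub (measurable_const.mul hm)).norm.pow_const 2
      · exact ((measurable_const.sub (measurable_const.mul hm)).inv).norm.pow_const 2
      · exact Real.measurable_exp.comp (measurable_const.mul
          (measurable_const.mul (Complex.measurable_re.comp (measurable_const.mul hm)))))]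
  have hc : ∀ p ∈ R, ‖(e p + conj (e' p)) / 2‖ ≤ 4 * (p : ℝ) ^ (-(1 / 2) : ℝ) := by
    intro p hp
    rw [norm_div, Complex.norm_ofNat]
    have h1 := norm_add_le (e p) (conj (e' p))
    rw [Complex.norm_conj] at h1
    have h2 := he p hp
    have h3 := he' p hp
    linarith
  have hle : ∀ p ∈ R, ∫ x, ‖(1 - (((p : ℝ) ^ (-(1 / 2) : ℝ) : ℝ) : ℂ) *
      (AddCircle.toCircle x : ℂ))⁻¹‖ ^ 2 * ‖1 - b p * (AddCircle.toCircle x : ℂ)‖ ^ 2 *
      ‖(1 - d p * (AddCircle.toCircle x : ℂ))⁻¹‖ ^ 2 *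
      Real.exp (2 * (al * (((e p + conj (e' p)) / 2) * (AddCircle.toCircle x : ℂ)).re))
      ∂(AddCircle.haarAddCircle : Measure UnitAddCircle) ≤
      Real.exp (‖(((p : ℝ) ^ (-(1 / 2) : ℝ) : ℝ) : ℂ) - b p + d p +
        al * ((e p + conj (e' p)) / 2)‖ ^ 2 +
        C * ((p : ℝ) ^ (-(1 / 2) : ℝ)) ^ 4) := fun p hp =>
    hC _ al (b p) (d p) _ (R3_u (hR p hp)).1 (R3_u (hR p hp)).2.1 hal (hb p hp) (hd p hp)
      (hc p hp)
  refine (Finset.prod_le_prod (fun p _ => integral_nonneg fun x => by positivity) hle).trans ?_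
  rw [← Real.exp_sum]
  refine Real.exp_le_exp.mpr (le_of_eq ?_)
  rw [Finset.sum_add_distrib, Finset.mul_sum]
  congr 1
  exact Finset.sum_congr rfl fun p hp => by rw [(R3_u (hR p hp)).2.2.2]

theorem block4 : ∃ C : ℝ, 0 ≤ C ∧ ∀ (R : Finset ℕ) (b d e e' : ℕ → ℂ) (al : ℝ) (l : ℕ),
    (∀ p ∈ R, p.Prime) → (∀ p ∈ R, ‖b p‖ ≤ (p : ℝ) ^ (-(1 / 2) : ℝ)) →
    (∀ p ∈ R, ‖d p‖ ≤ (p : ℝ) ^ (-(1 / 2) : ℝ)) → (∀ p ∈ R, ‖e p‖ ≤ 4 * (p : ℝ) ^ (-(1 / 2) : ℝ)) →
    (∀ p ∈ R, ‖e' p‖ ≤ 4 * (p : ℝ) ^ (-(1 / 2) : ℝ)) → |al| ≤ 1 →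
    ∫ w, ‖Zt R (1 / 2) w‖ ^ 2 * (∏ p ∈ R, ‖1 - b p * X p w‖ ^ 2) *
      (∏ p ∈ R, ‖(1 - d p * X p w)⁻¹‖ ^ 2) *
      ‖Ex l (al * (((∑ p ∈ R, e p * X p w) + ∑ p ∈ R, e' p * conj (X p w)) / 2))‖ ^ 2 ∂mu ≤
    Real.exp (∑ p ∈ R, ‖(((p : ℝ) ^ (-(1 / 2) : ℝ) : ℝ) : ℂ) - b p + d p +
        al * ((e p + conj (e' p)) / 2)‖ ^ 2 + C * ∑ p ∈ R, (p : ℝ) ^ (-2 : ℝ)) *
      (1 + (2 : ℝ)⁻¹ ^ l * Real.exp (C * (sR R + 1))) := by
  obtain ⟨C1, hC10, hC1⟩ := main_block4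
  refine ⟨C1 + 17000, by positivity, fun R b d e e' al l hR hb hd he he' hal => ?_⟩
  have hmain := hC1 R b d e e' al hR hb hd he he' hal
  have hs0 : 0 ≤ sR R := Finset.sum_nonneg fun p _ => by positivity
  set Y : Om → ℂ := fun w =>
    ((∑ p ∈ R, e p * X p w) + ∑ p ∈ R, e' p * conj (X p w)) / 2 with hY
  set A : Om → ℂ := fun w => ∑ p ∈ R, e p * X p w with hA
  set A' : Om → ℂ := fun w => ∑ p ∈ R, conj (e' p) * X p w with hA'
  set G : Om → ℝ := fun w => ‖Zt R (1 / 2) w‖ ^ 2 * (∏ p ∈ R, ‖1 - b p * X p w‖ ^ 2) *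
      (∏ p ∈ R, ‖(1 - d p * X p w)⁻¹‖ ^ 2) with hG
  have hGc : Continuous G := R3_contG R b d hR hd
  have hG0 : ∀ w, 0 ≤ G w := fun w => by
    simp only [hG]
    exact mul_nonneg (mul_nonneg (by positivity) (Finset.prod_nonneg fun p _ => by positivity))
      (Finset.prod_nonneg fun p _ => by positivity)
  have hYc : Continuous Y := by
    refine ((R3_contS R e).add ?_).div_const 2
    exact continuous_finsetSum _ fun p _ =>
      continuous_const.mul (Complex.continuous_conj.comp (continuous_X p))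
  have hYn : ∀ w, ‖Y w‖ ≤ (‖A w‖ + ‖A' w‖) / 2 := by
    intro w
    have h1 : ‖∑ p ∈ R, e' p * conj (X p w)‖ = ‖A' w‖ := by
      rw [← Complex.norm_conj (∑ p ∈ R, e' p * conj (X p w)), map_sum]
      congr 1
      exact Finset.sum_congr rfl fun p _ => by simp
    simp only [hY]
    rw [norm_div, Complex.norm_ofNat]
    have h2 := norm_add_le (∑ p ∈ R, e p * X p w) (∑ p ∈ R, e' p * conj (X p w))
    rw [h1] at h2
    have h3 : ‖A w‖ = ‖∑ p ∈ R, e p * X p w‖ := rfl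
    rw [h3]
    linarith
  have hEc : Continuous fun w => Real.exp (2 * (al * (Y w).re)) :=
    Real.continuous_exp.comp (continuous_const.mul (continuous_const.mul
      (Complex.continuous_re.comp hYc)))
  have hNc : Continuous fun w => Real.exp (6 * ‖Y w‖) :=
    Real.continuous_exp.comp (continuous_const.mul (continuous_norm.comp hYc))
  have hA16 : Continuous fun w => Real.exp (16 * ‖A w‖) :=
    Real.continuous_exp.comp (continuous_const.mul (continuous_norm.comp (R3_contS R _)))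
  have hA16' : Continuous fun w => Real.exp (16 * ‖A' w‖) :=
    Real.continuous_exp.comp (continuous_const.mul (continuous_norm.comp (R3_contS R _)))
  have hXc : Continuous fun w => ‖Ex l (al * Y w)‖ ^ 2 := by
    have h1 : Continuous fun x : ℂ => Ex l x := by
      unfold Ex
      exact continuous_finsetSum _ fun i _ => (continuous_id.pow i).div_const _
    exact (continuous_norm.comp (h1.comp (continuous_const.mul hYc))).pow 2
  set a : ℕ → ℂ := fun p => 4 * ((((p : ℝ) ^ (-(1 / 2) : ℝ) : ℝ) : ℂ) - b p + d p) with ha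
  have hLc : Continuous fun w => Real.exp ((∑ p ∈ R, a p * X p w).re) :=
    Real.continuous_exp.comp (Complex.continuous_re.comp (R3_contS R a))
  have hsq : ∀ f : ℕ → ℂ, (∀ p ∈ R, ‖f p‖ ≤ 4 * (p : ℝ) ^ (-(1 / 2) : ℝ)) →
      ∑ p ∈ R, ‖f p‖ ^ 2 ≤ 16 * sR R := by
    intro f hf
    rw [sR, Finset.mul_sum]
    refine Finset.sum_le_sum fun p hp => ?_
    rw [← (R3_u (hR p hp)).2.2.1]
    have := pow_le_pow_left₀ (norm_nonneg _) (hf p hp) 2
    nlinarith
  -- the second term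
  have hsec : ∫ w, G w * (Real.exp (2 * (al * (Y w).re)) * Real.exp (6 * ‖Y w‖)) ∂mu ≤
      5 / 2 * Real.exp (17000 * sR R) := by
    have hpt : ∀ w, G w * (Real.exp (2 * (al * (Y w).re)) * Real.exp (6 * ‖Y w‖)) ≤
        Real.exp (145 * sR R) * (1 / 2 * Real.exp ((∑ p ∈ R, a p * X p w).re) +
          (1 / 4 * Real.exp (16 * ‖A w‖) + 1 / 4 * Real.exp (16 * ‖A' w‖))) := by
      intro w
      have b1 := R3_bound R b d hR hb hd w
      rw [Real.exp_add] at b1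
      set L := (∑ p ∈ R, (2 * ((((p : ℝ) ^ (-(1 / 2) : ℝ) : ℝ) : ℂ) - b p + d p)) *
        X p w).re with hL
      have hL2 : (∑ p ∈ R, a p * X p w).re = L + L := by
        have : ∑ p ∈ R, a p * X p w = ((2 : ℝ) : ℂ) * (∑ p ∈ R,
            (2 * ((((p : ℝ) ^ (-(1 / 2) : ℝ) : ℝ) : ℂ) - b p + d p)) * X p w) := by
          rw [Finset.mul_sum]
          refine Finset.sum_congr rfl fun p _ => ?_
          simp only [ha]
          push_cast
          ring
        rw [this, Complex.re_ofReal_mul, hL]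
        ring
      rw [hL2, Real.exp_add]
      have b2 : Real.exp (2 * (al * (Y w).re)) * Real.exp (6 * ‖Y w‖) ≤
          Real.exp (4 * ‖A w‖) * Real.exp (4 * ‖A' w‖) := by
        rw [← Real.exp_add, ← Real.exp_add]
        refine Real.exp_le_exp.mpr ?_
        have c1 : al * (Y w).re ≤ ‖Y w‖ := by
          calc al * (Y w).re ≤ |al * (Y w).re| := le_abs_self _
            _ = |al| * |(Y w).re| := abs_mul _ _
            _ ≤ 1 * ‖Y w‖ := mul_le_mul hal (Complex.abs_re_le_norm _)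
                (abs_nonneg _) (by norm_num)
            _ = ‖Y w‖ := one_mul _
        linarith [hYn w]
      have e16 : Real.exp (16 * ‖A w‖) = (Real.exp (4 * ‖A w‖) ^ 2) ^ 2 := by
        rw [← pow_mul, ← Real.exp_nat_mul]; congr 1; push_cast; ring
      have e16' : Real.exp (16 * ‖A' w‖) = (Real.exp (4 * ‖A' w‖) ^ 2) ^ 2 := by
        rw [← pow_mul, ← Real.exp_nat_mul]; congr 1; push_cast; ring
      rw [e16, e16']
      have p1 : 0 < Real.exp L := Real.exp_pos _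
      set x1 := Real.exp (4 * ‖A w‖) with hx1
      set x2 := Real.exp (4 * ‖A' w‖) with hx2
      have p2 : 0 < x1 := Real.exp_pos _
      have p2' : 0 < x2 := Real.exp_pos _
      have p3 : 0 < Real.exp (145 * sR R) := Real.exp_pos _
      calc G w * (Real.exp (2 * (al * (Y w).re)) * Real.exp (6 * ‖Y w‖))
          ≤ (Real.exp L * Real.exp (145 * sR R)) * (x1 * x2) :=
            mul_le_mul b1 b2 (by positivity) (by positivity)
        _ = Real.exp (145 * sR R) * (Real.exp L * (x1 * x2)) := by ring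
        _ ≤ _ := by
          apply mul_le_mul_of_nonneg_left _ p3.le
          have q1 : Real.exp L * (x1 * x2) ≤ 1 / 2 * (Real.exp L * Real.exp L) +
              1 / 2 * (x1 ^ 2 * x2 ^ 2) := by
            nlinarith [sq_nonneg (Real.exp L - x1 * x2)]
          have q2 : x1 ^ 2 * x2 ^ 2 ≤ 1 / 2 * (x1 ^ 2) ^ 2 + 1 / 2 * (x2 ^ 2) ^ 2 := by
            nlinarith [sq_nonneg (x1 ^ 2 - x2 ^ 2)]
          linarith
    have iL := integrable_of_continuous hLc
    have iA := integrable_of_continuous hA16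
    have iA' := integrable_of_continuous hA16'
    have hint : ∫ w, G w * (Real.exp (2 * (al * (Y w).re)) *
        Real.exp (6 * ‖Y w‖)) ∂mu ≤
        ∫ w, Real.exp (145 * sR R) * (1 / 2 * Real.exp ((∑ p ∈ R, a p * X p w).re) +
          (1 / 4 * Real.exp (16 * ‖A w‖) + 1 / 4 * Real.exp (16 * ‖A' w‖))) ∂mu :=
      integral_mono (integrable_of_continuous (hGc.mul (hEc.mul hNc)))
        (((iL.const_mul (1 / 2)).add ((iA.const_mul (1 / 4)).add (iA'.const_mul (1 / 4)))).const_mul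
          _) hpt
    refine hint.trans ?_
    have hsplit : ∫ w, (1 / 2 * Real.exp ((∑ p ∈ R, a p * X p w).re) +
          (1 / 4 * Real.exp (16 * ‖A w‖) + 1 / 4 * Real.exp (16 * ‖A' w‖))) ∂mu =
        1 / 2 * ∫ w, Real.exp ((∑ p ∈ R, a p * X p w).re) ∂mu +
          (1 / 4 * ∫ w, Real.exp (16 * ‖A w‖) ∂mu +
            1 / 4 * ∫ w, Real.exp (16 * ‖A' w‖) ∂mu) := by
      obtain ⟨j1, s1⟩ := R3_add2 (iA.const_mul (1 / 4)) (iA'.const_mul (1 / 4))
      obtain ⟨j2, s2⟩ := R3_add2 (iL.const_mul (1 / 2)) j1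
      rw [s2, s1, integral_const_mul, integral_const_mul, integral_const_mul]
    rw [integral_const_mul, hsplit]
    have hl := UH.lin_exp R a
    have hl2 : ∑ p ∈ R, ‖a p‖ ^ 2 ≤ 144 * sR R := by
      rw [sR, Finset.mul_sum]
      refine Finset.sum_le_sum fun p hp => ?_
      obtain ⟨hu0, hu1, hu2, -⟩ := R3_u (hR p hp)
      simp only [ha]
      rw [norm_mul, Complex.norm_ofNat, ← hu2]
      have c1 : ‖(((p : ℝ) ^ (-(1 / 2) : ℝ) : ℝ) : ℂ) - b p + d p‖ ≤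
          3 * (p : ℝ) ^ (-(1 / 2) : ℝ) := by
        refine (norm_add_le _ _).trans ?_
        have c3 := norm_sub_le (((p : ℝ) ^ (-(1 / 2) : ℝ) : ℝ) : ℂ) (b p)
        rw [Complex.norm_real, Real.norm_of_nonneg hu0] at c3
        linarith [hb p hp, hd p hp]
      have c2 : (4 * ‖(((p : ℝ) ^ (-(1 / 2) : ℝ) : ℝ) : ℂ) - b p + d p‖) ^ 2 ≤
          (4 * (3 * (p : ℝ) ^ (-(1 / 2) : ℝ))) ^ 2 :=
        pow_le_pow_left₀ (by positivity) (by linarith) 2
      refine c2.trans (le_of_eq ?_)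
      ring
    have hl3 : ∫ w, Real.exp ((∑ p ∈ R, a p * X p w).re) ∂mu ≤
        Real.exp (16384 * sR R) := by
      refine hl.trans (Real.exp_le_exp.mpr (hl2.trans ?_))
      nlinarith
    have hm3 : ∫ w, Real.exp (16 * ‖A w‖) ∂mu ≤ 4 * Real.exp (16384 * sR R) := by
      refine (R3_mom R e 16).trans (mul_le_mul_of_nonneg_left (Real.exp_le_exp.mpr ?_)
        (by norm_num))
      have := hsq e he
      nlinarith
    have hm3' : ∫ w, Real.exp (16 * ‖A' w‖) ∂mu ≤ 4 * Real.exp (16384 * sR R) := by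
      refine (R3_mom R (fun p => conj (e' p)) 16).trans
        (mul_le_mul_of_nonneg_left (Real.exp_le_exp.mpr ?_) (by norm_num))
      have := hsq (fun p => conj (e' p)) (fun p hp => by
        rw [Complex.norm_conj]; exact he' p hp)
      nlinarith
    have he : Real.exp (16529 * sR R) =
        Real.exp (145 * sR R) * Real.exp (16384 * sR R) := by
      rw [← Real.exp_add]; congr 1; ring
    have hle : Real.exp (16529 * sR R) ≤ Real.exp (17000 * sR R) :=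
      Real.exp_le_exp.mpr (by nlinarith)
    have p3 : 0 < Real.exp (145 * sR R) := Real.exp_pos _
    calc Real.exp (145 * sR R) * (1 / 2 * ∫ w, Real.exp ((∑ p ∈ R, a p * X p w).re) ∂mu +
          (1 / 4 * ∫ w, Real.exp (16 * ‖A w‖) ∂mu +
            1 / 4 * ∫ w, Real.exp (16 * ‖A' w‖) ∂mu))
        ≤ Real.exp (145 * sR R) * (5 / 2 * Real.exp (16384 * sR R)) := by
          apply mul_le_mul_of_nonneg_left _ p3.le
          linarith
      _ = 5 / 2 * Real.exp (16529 * sR R) := by rw [he]; ring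
      _ ≤ _ := by linarith
  -- the sum
  have htot : ∫ w, G w * ‖Ex l (al * Y w)‖ ^ 2 ∂mu ≤
      ∫ w, G w * Real.exp (2 * (al * (Y w).re)) ∂mu + 3 * (2 : ℝ)⁻¹ ^ l *
        ∫ w, G w * (Real.exp (2 * (al * (Y w).re)) * Real.exp (6 * ‖Y w‖)) ∂mu := by
    have i1 : Integrable (fun w => G w * Real.exp (2 * (al * (Y w).re))) mu :=
      integrable_of_continuous (hGc.mul hEc)
    have i2 : Integrable (fun w => 3 * (2 : ℝ)⁻¹ ^ l *
        (G w * (Real.exp (2 * (al * (Y w).re)) * Real.exp (6 * ‖Y w‖)))) mu :=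
      integrable_of_continuous (continuous_const.mul (hGc.mul (hEc.mul hNc)))
    rw [← integral_const_mul, ← integral_add i1 i2]
    refine integral_mono (integrable_of_continuous (hGc.mul hXc))
      (integrable_of_continuous ((hGc.mul hEc).add (continuous_const.mul
        (hGc.mul (hEc.mul hNc))))) fun w => ?_
    have b1 := R3_ex l al (Y w) hal
    have b2 := mul_le_mul_of_nonneg_left b1 (hG0 w)
    simp only
    linarith
  refine htot.trans ?_
  set q : ℝ := (2 : ℝ)⁻¹ ^ l with hq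
  have hq0 : 0 < q := by positivity
  set S : ℝ := ∑ p ∈ R, ‖(((p : ℝ) ^ (-(1 / 2) : ℝ) : ℝ) : ℂ) - b p + d p +
        al * ((e p + conj (e' p)) / 2)‖ ^ 2 with hS
  set V : ℝ := ∑ p ∈ R, (p : ℝ) ^ (-2 : ℝ) with hV
  have hS0 : 0 ≤ S := Finset.sum_nonneg fun p _ => by positivity
  have hV0 : 0 ≤ V := Finset.sum_nonneg fun p _ => Real.rpow_nonneg (Nat.cast_nonneg p) _
  have k1 : Real.exp (S + C1 * V) ≤ Real.exp (S + (C1 + 17000) * V) := by
    refine Real.exp_le_exp.mpr ?_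
    nlinarith
  have k2 : 1 ≤ Real.exp (S + (C1 + 17000) * V) := by
    refine Real.one_le_exp ?_
    have := mul_nonneg (by positivity : (0 : ℝ) ≤ C1 + 17000) hV0
    linarith
  have k3 : 15 / 2 * Real.exp (17000 * sR R) ≤
      Real.exp ((C1 + 17000) * (sR R + 1)) := by
    have c1 : (15 / 2 : ℝ) ≤ Real.exp (17000 : ℝ) := by
      have := Real.add_one_le_exp (17000 : ℝ)
      linarith
    have c2 : Real.exp ((C1 + 17000) * (sR R + 1)) =
        Real.exp (17000 : ℝ) * Real.exp ((C1 + 17000) * (sR R + 1) - 17000) := by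
      rw [← Real.exp_add]; congr 1; ring
    rw [c2]
    refine mul_le_mul c1 (Real.exp_le_exp.mpr ?_) (Real.exp_pos _).le (Real.exp_pos _).le
    nlinarith [mul_nonneg hC10 hs0]
  set W := Real.exp ((C1 + 17000) * (sR R + 1)) with hW
  have hW0 : 0 < W := Real.exp_pos _
  set M := Real.exp (S + (C1 + 17000) * V) with hM
  have k4 : 3 * q * ∫ w, G w * (Real.exp (2 * (al * (Y w).re)) *
      Real.exp (6 * ‖Y w‖)) ∂mu ≤ q * W := by
    calc 3 * q * ∫ w, G w * (Real.exp (2 * (al * (Y w).re)) *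
          Real.exp (6 * ‖Y w‖)) ∂mu
        ≤ 3 * q * (5 / 2 * Real.exp (17000 * sR R)) :=
          mul_le_mul_of_nonneg_left hsec (by positivity)
      _ = q * (15 / 2 * Real.exp (17000 * sR R)) := by ring
      _ ≤ q * W := mul_le_mul_of_nonneg_left k3 hq0.le
  have k5 : q * W ≤ M * (q * W) := by
    nlinarith [mul_pos hq0 hW0]
  calc ∫ w, G w * Real.exp (2 * (al * (Y w).re)) ∂mu + 3 * q *
        ∫ w, G w * (Real.exp (2 * (al * (Y w).re)) * Real.exp (6 * ‖Y w‖)) ∂mu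
      ≤ M + M * (q * W) := add_le_add (hmain.trans k1) (k4.trans k5)
    _ = M * (1 + q * W) := by ring

end Pool.Agent.UV
end
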