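import Pool.Agent.Lib.MP_69b2e4_nt.LB.G5
import Pool.Agent.Lib.MP_69b2e4_nt.GH.Final
import Pool.Agent.Lib.MP_69b2e4_nt.Mg.G024
import Pool.Agent.Lib.MP_69b2e4_nt.LB.A5
import Pool.Agent.Lib.MP_69b2e4_nt.Mg.G023
import Pool.Agent.Lib.MP_69b2e4_nt.LB.G3
import Pool.Agent.Lib.MP_69b2e4_nt.LB.F1

section

/-! TASK A7. The critical line. `L = log T > 0`, `t = t0 + y/L > 0`, `s = 1/2 + it = pt T t0 (iy)`, `q = exp (x0 S t0)`. `VV = fL/(2 Gammaℝ s)` (`fL_eq`), `ch s = Gammaℝ(1-s)/Gammaℝ(s)`, `Gammaℝ(1-s) = conj Gammaℝ(s)` as `1 - s = conj s`.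
So `VV²/ch = fL²/(4 Gammaℝ(s) Gammaℝ(1-s)) = (a + ib)²/(4‖Gammaℝ s‖²)`, `a = Re Λ(s)` (`Λ(s) = a` real), `ib = (2/L) Λ'(s)` (purely imaginary): `Lam_real`. `Y = Vd/ch = (a+ib)²/(4‖Γ‖²) + δ²q²`. `Y ∉ slitPlane` means `Re Y ≤ 0`, `Im Y = 0`: `ab = 0`, `a² - b² ≤ -4δ²q²‖Γ‖² < 0`, so `b ≠ 0`, `a = 0`, `Λ(s) = 0`, `ζ(s) = 0` (`Λ = Gammaℝ ζ`), `‖VV‖ = |b|/(2‖Γ‖) ≥ δ q`, and `VV = ζ'/L` (`VV_zero`). If `Vd = 0` then `Y = 0` and there is equality.
`ZL_mem`: `line_finite` (GH/Final.lean). -/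

set_option autoImplicit false

namespace Pool.Agent.LB

open Complex MeasureTheory Finset Pool.Agent.GH Pool.Agent.UH Pool.Agent.UV
open scoped Real ComplexConjugate

theorem ZL_mem (H g : ℝ) : g ∈ ZL H ↔ riemannZeta (1 / 2 + g * I) = 0 ∧ 0 < g ∧ g ≤ H := by
  have hfin : {g : ℝ | riemannZeta (1 / 2 + g * I) = 0 ∧ 0 < g ∧ g ≤ H}.Finite := by
    refine (line_finite H).subset ?_
    rintro g ⟨h1, h2, h3⟩
    exact ⟨h2, h3, h1⟩
  unfold ZL
  rw [dif_pos hfin, Set.Finite.mem_toFinset]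
  rfl

private theorem A7_conj (s : ℂ) : Gammaℝ (conj s) = conj (Gammaℝ s) := by
  rw [Gammaℝ_def, Gammaℝ_def, map_mul, ← Complex.Gamma_conj]
  have h1 : conj (s / 2) = conj s / 2 := by
    rw [map_div₀]
    congr 1
    exact Complex.conj_ofNat 2
  have h2 : conj (-s / 2) = -conj s / 2 := by
    rw [map_div₀, map_neg]
    congr 1
    exact Complex.conj_ofNat 2
  rw [h1, ← h2, Complex.cpow_conj _ _ (by
    rw [Complex.arg_ofReal_of_nonneg Real.pi_pos.le]
    exact Real.pi_pos.ne), Complex.conj_ofReal]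

private theorem A7_conj_line (t : ℝ) : 1 - (1 / 2 + t * I : ℂ) = conj (1 / 2 + t * I : ℂ) := by
  apply Complex.ext
  · simp
    norm_num
  · simp

private theorem A7_pt {T t0 y : ℝ} :
    pt T t0 (y * I) = 1 / 2 + ((t0 + y / Real.log T : ℝ) : ℂ) * I := by
  unfold pt
  push_cast
  ring

private theorem A7_im (t : ℝ) : (1 / 2 + t * I : ℂ).im = t := by simp

private theorem A7_re (A B : ℝ) : ((A : ℂ) + (B : ℂ) * I).re = A := by simp

private theorem A7_im2 (A B : ℝ) : ((A : ℂ) + (B : ℂ) * I).im = B := by simp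

/-- `Y` in terms of real numbers -/
private theorem A7_Y {S : BS} {δ t0 y : ℝ} (hT : 1 < S.T) (ht : 0 < t0 + y / Real.log S.T) :
    ∃ a b G : ℝ, 0 < G ∧
      completedRiemannZeta (1 / 2 + (t0 + y / Real.log S.T : ℝ) * I) = (a : ℂ) ∧
      G = ‖Gammaℝ (1 / 2 + (t0 + y / Real.log S.T : ℝ) * I)‖ ∧
      VV S.T (1 / 2 + (t0 + y / Real.log S.T : ℝ) * I) * (2 * Gammaℝ (1 / 2 + (t0 + y / Real.log S.T : ℝ) * I)) =
        (a : ℂ) + b * I ∧
      (Vd S δ t0 (y * I) / ch (pt S.T t0 (y * I))).re =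
        (a ^ 2 - b ^ 2) / (4 * G ^ 2) + δ ^ 2 * Real.exp (2 * x0 S t0) ∧
      (Vd S δ t0 (y * I) / ch (pt S.T t0 (y * I))).im = (2 * a * b) / (4 * G ^ 2) := by
  obtain ⟨t, htd⟩ : ∃ t : ℝ, t = t0 + y / Real.log S.T := ⟨_, rfl⟩
  rw [A7_pt, ← htd]
  rw [← htd] at ht
  obtain ⟨s, hs⟩ : ∃ s : ℂ, s = 1 / 2 + (t : ℂ) * I := ⟨_, rfl⟩
  have hsim : s.im ≠ 0 := by rw [hs, A7_im]; exact ht.ne'
  obtain ⟨hr1, hr2⟩ := Lam_real t
  rw [← hs] at hr1 hr2 ⊢
  have hL : 0 < Real.log S.T := Real.log_pos hT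
  refine ⟨(completedRiemannZeta s).re, 2 / Real.log S.T * (deriv completedRiemannZeta s).im,
    ‖Gammaℝ s‖, norm_pos_iff.2 (GR_ne hsim), ?_, rfl, ?_, ?_⟩
  · apply Complex.ext
    · rfl
    · rw [hr1]; rfl
  · have h1 := fL_eq S.T hsim
    have h2 : fL S.T s = (((completedRiemannZeta s).re : ℝ) : ℂ) +
        ((2 / Real.log S.T * (deriv completedRiemannZeta s).im : ℝ) : ℂ) * I := by
      unfold fL
      apply Complex.ext
      · simp [hr2]
      · simp [hr1]
    rw [← h2, h1]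
    ring
  · -- the value of `Y`
    obtain ⟨a, ha⟩ : ∃ a : ℝ, a = (completedRiemannZeta s).re := ⟨_, rfl⟩
    obtain ⟨b, hb⟩ : ∃ b : ℝ, b = 2 / Real.log S.T * (deriv completedRiemannZeta s).im := ⟨_, rfl⟩
    have h1 := fL_eq S.T hsim
    have h2 : fL S.T s = (a : ℂ) + b * I := by
      unfold fL
      rw [ha, hb]
      apply Complex.ext
      · simp [hr2]
      · simp [hr1]
    have hG := GR_ne hsim
    have hGc : Gammaℝ (1 - s) = conj (Gammaℝ s) := by
      rw [hs, A7_conj_line, A7_conj]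
    have hGc0 : conj (Gammaℝ s) ≠ 0 := by
      rw [Ne, map_eq_zero]; exact hG
    have hV : VV S.T s = ((a : ℂ) + b * I) / (2 * Gammaℝ s) := by
      rw [← h2, h1]
      field_simp
    have hpt : pt S.T t0 (y * I) = s := by rw [A7_pt, ← htd, hs]
    have hY : Vd S δ t0 (y * I) / ch s =
        ((((a ^ 2 - b ^ 2) / (4 * ‖Gammaℝ s‖ ^ 2) + δ ^ 2 * Real.exp (2 * x0 S t0) : ℝ)) : ℂ) +
          (((2 * a * b) / (4 * ‖Gammaℝ s‖ ^ 2) : ℝ) : ℂ) * I := by
      have hn : ((‖Gammaℝ s‖ : ℝ) : ℂ) ^ 2 = Gammaℝ s * conj (Gammaℝ s) := by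
        rw [Complex.mul_conj, Complex.normSq_eq_norm_sq]
        push_cast
        rfl
      unfold Vd
      rw [hpt, hV]
      unfold ch
      rw [hGc]
      push_cast
      rw [hn]
      field_simp
      ring_nf
      rw [I_sq]
      ring
    rw [hY, ← ha, ← hb]
    exact ⟨A7_re _ _, A7_im2 _ _⟩

theorem cross_zero {S : BS} {δ t0 y : ℝ} (hT : 1 < S.T) (hδ : 0 < δ)
    (ht : 0 < t0 + y / Real.log S.T)
    (h : Vd S δ t0 (y * I) / ch (pt S.T t0 (y * I)) ∉ Complex.slitPlane) :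
    riemannZeta (1 / 2 + (t0 + y / Real.log S.T : ℝ) * I) = 0 ∧
    δ * Real.log S.T * Real.exp (x0 S t0) ≤
      ‖deriv riemannZeta (1 / 2 + (t0 + y / Real.log S.T : ℝ) * I)‖ ∧
    (Vd S δ t0 (y * I) = 0 → ‖deriv riemannZeta (1 / 2 + (t0 + y / Real.log S.T : ℝ) * I)‖ =
      δ * Real.log S.T * Real.exp (x0 S t0)) := by
  obtain ⟨a, b, G, hG0, hLa, hG, hVV, hre, him⟩ := A7_Y (S := S) (δ := δ) hT ht
  rw [Complex.mem_slitPlane_iff, not_or, not_lt, not_not, hre, him] at h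
  obtain ⟨h1, h2⟩ := h
  have hL : 0 < Real.log S.T := Real.log_pos hT
  have hq : Real.exp (2 * x0 S t0) = Real.exp (x0 S t0) ^ 2 := by
    rw [← Real.exp_nat_mul]; norm_num
  obtain ⟨q, hqd⟩ : ∃ q : ℝ, q = Real.exp (x0 S t0) := ⟨_, rfl⟩
  have hq0 : 0 < q := by rw [hqd]; exact Real.exp_pos _
  rw [hq, ← hqd] at h1 hre
  rw [← hqd]
  have h4 : 0 < 4 * G ^ 2 := by positivity
  have h3 : a * b = 0 := by
    rw [div_eq_zero_iff] at h2
    rcases h2 with h2 | h2
    · linarith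
    · exact absurd h2 h4.ne'
  have h5 : a ^ 2 - b ^ 2 + δ ^ 2 * q ^ 2 * (4 * G ^ 2) ≤ 0 := by
    have h6 := mul_le_mul_of_nonneg_right h1 h4.le
    rw [add_mul, div_mul_cancel₀ _ h4.ne', zero_mul] at h6
    exact h6
  have hpos : 0 < δ ^ 2 * q ^ 2 * (4 * G ^ 2) := by positivity
  have hb : b ≠ 0 := by
    rintro rfl
    nlinarith [sq_nonneg a]
  have ha : a = 0 := by
    rcases mul_eq_zero.1 h3 with h7 | h7
    · exact h7
    · exact absurd h7 hb
  obtain ⟨s, hs⟩ : ∃ s : ℂ, s = 1 / 2 + ((t0 + y / Real.log S.T : ℝ) : ℂ) * I := ⟨_, rfl⟩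
  rw [← hs] at hLa hG hVV ⊢
  have hsim : s.im ≠ 0 := by rw [hs, A7_im]; exact ht.ne'
  have hs0 : s ≠ 0 := by
    rintro h0
    rw [h0] at hsim
    exact hsim rfl
  have hz : riemannZeta s = 0 := by
    rw [riemannZeta_def_of_ne_zero hs0, hLa, ha]
    simp
  have hVz := VV_zero S.T hz
  have hnV : ‖VV S.T s‖ * (2 * G) = |b| := by
    have h7 := congrArg norm hVV
    rw [ha, norm_mul, norm_mul, ← hG] at h7
    simpa using h7
  have hnd : ‖deriv riemannZeta s‖ = Real.log S.T * ‖VV S.T s‖ := by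
    rw [hVz, norm_div, Complex.norm_real, Real.norm_of_nonneg hL.le]
    field_simp
  refine ⟨hz, ?_, ?_⟩
  · rw [hnd]
    have h8 : (δ * q) * (2 * G) ≤ ‖VV S.T s‖ * (2 * G) := by
      rw [hnV]
      apply le_of_sq_le_sq _ (abs_nonneg b)
      rw [sq_abs, ha] at *
      nlinarith
    have h9 : δ * q ≤ ‖VV S.T s‖ := le_of_mul_le_mul_right h8 (by positivity)
    nlinarith
  · intro hV0
    rw [hV0, zero_div] at hre
    have h10 : 0 = (a ^ 2 - b ^ 2) / (4 * G ^ 2) + δ ^ 2 * q ^ 2 := hre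
    have h11 : a ^ 2 - b ^ 2 + δ ^ 2 * q ^ 2 * (4 * G ^ 2) = 0 := by
      field_simp at h10
      linarith
    have h12 : ‖VV S.T s‖ * (2 * G) = (δ * q) * (2 * G) := by
      rw [hnV]
      have h13 : |b| ^ 2 = ((δ * q) * (2 * G)) ^ 2 := by
        rw [sq_abs]
        rw [ha] at h11
        linear_combination -h11
      exact (pow_left_inj₀ (abs_nonneg b) (by positivity) two_ne_zero).1 h13
    have h14 : ‖VV S.T s‖ = δ * q := mul_right_cancel₀ (by positivity) h12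
    rw [hnd, h14]
    ring

/-- The derivative of the curve. -/
theorem curve_deriv {S : BS} {δ t0 y : ℝ} (hT : 1 < S.T) (ht : 0 < t0 + y / Real.log S.T)
    (h : Vd S δ t0 (y * I) ≠ 0) : ∃ Y' : ℂ,
    HasDerivAt (fun y : ℝ => Vd S δ t0 (y * I) / ch (pt S.T t0 (y * I))) Y' y ∧
    (Y' / (Vd S δ t0 (y * I) / ch (pt S.T t0 (y * I)))).im =
      (deriv (Vd S δ t0) (y * I) / Vd S δ t0 (y * I)).re +
        2 * (psiR (pt S.T t0 (y * I))).re / Real.log S.T := by
  have hL : 0 < Real.log S.T := Real.log_pos hT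
  have hLc : ((Real.log S.T : ℝ) : ℂ) ≠ 0 := by exact_mod_cast hL.ne'
  obtain ⟨s, hs⟩ : ∃ s : ℂ, s = pt S.T t0 (y * I) := ⟨_, rfl⟩
  have hs2 : s = 1 / 2 + ((t0 + y / Real.log S.T : ℝ) : ℂ) * I := by rw [hs, A7_pt]
  have hsim : s.im ≠ 0 := by rw [hs2, A7_im]; exact ht.ne'
  have hch := (ch_an hsim).differentiableAt
  have hc0 := ch_ne hsim
  have hVV := (VV_an S.T hsim).differentiableAt
  -- the affine map
  have hp : HasDerivAt (pt S.T t0) (1 / ((Real.log S.T : ℝ) : ℂ)) (y * I) := by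
    unfold pt
    exact ((hasDerivAt_id (y * I : ℂ)).div_const _).const_add _
  have hchp : HasDerivAt (fun z => ch (pt S.T t0 z)) (deriv ch s * (1 / ((Real.log S.T : ℝ) : ℂ)))
      (y * I) := by
    have h1 : HasDerivAt ch (deriv ch s) (pt S.T t0 (y * I)) := by rw [← hs]; exact hch.hasDerivAt
    exact h1.comp (y * I : ℂ) hp
  have hVVp : DifferentiableAt ℂ (fun z => VV S.T (pt S.T t0 z)) (y * I) := by
    have h1 : HasDerivAt (VV S.T) (deriv (VV S.T) s) (pt S.T t0 (y * I)) := by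
      rw [← hs]; exact hVV.hasDerivAt
    exact (h1.comp (y * I : ℂ) hp).differentiableAt
  have hVd : DifferentiableAt ℂ (Vd S δ t0) (y * I) := by
    unfold Vd
    exact (hVVp.pow 2).add (hchp.differentiableAt.const_mul _)
  have hI : HasDerivAt (fun x : ℝ => (x : ℂ) * I) I y := by
    have h1 := (Complex.ofRealCLM.hasDerivAt (x := y)).mul_const I
    simpa using h1
  have h1 : HasDerivAt (fun x : ℝ => Vd S δ t0 (x * I)) (deriv (Vd S δ t0) (y * I) * I) y :=
    HasDerivAt.comp (h₂ := Vd S δ t0) y hVd.hasDerivAt hI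
  have h2 : HasDerivAt (fun x : ℝ => ch (pt S.T t0 (x * I)))
      (deriv ch s * (1 / ((Real.log S.T : ℝ) : ℂ)) * I) y :=
    HasDerivAt.comp (h₂ := fun z => ch (pt S.T t0 z)) y hchp hI
  have h3 := h1.div h2 (by rw [← hs]; exact hc0)
  refine ⟨_, h3, ?_⟩
  rw [← hs]
  have hld : deriv ch s = ch s * ((-(2 * (psiR s).re) : ℝ) : ℂ) := by
    have h4 := ch_logDeriv (t := t0 + y / Real.log S.T) ht.ne'
    rw [← hs2] at h4
    rw [← h4, logDeriv_apply]
    field_simp
  rw [hld]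
  have h5 : (deriv (Vd S δ t0) (y * I) * I * ch s -
      Vd S δ t0 (y * I) * (ch s * ((-(2 * (psiR s).re) : ℝ) : ℂ) *
        (1 / ((Real.log S.T : ℝ) : ℂ)) * I)) / ch s ^ 2 / (Vd S δ t0 (y * I) / ch s) =
      (deriv (Vd S δ t0) (y * I) / Vd S δ t0 (y * I) +
        ((2 * (psiR s).re / Real.log S.T : ℝ) : ℂ)) * I := by
    push_cast
    field_simp
    ring
  rw [h5]
  simp

end Pool.Agent.LB
end

section

/-! TASK A9. Generic `δ`. For every `g ∈ ZL H` and every `t0` there is exactly one `δ` with `‖ζ'(1/2+ig)‖ = δ L e^{x0(t0)}` (`L > 0`), so the measurable set `{(δ, t0) | ∃ g ∈ ZL H, ..}` (`x0` is continuous, `x0_continuous`) has null sections in `δ`, hence is null for the product measure, hence for almost every `δ` the section in `t0` is null; there is such a `δ` in `[δ0/2, δ0]` (positive measure). -/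

set_option autoImplicit false

namespace Pool.Agent.LB

open Complex MeasureTheory Finset Pool.Agent.GH Pool.Agent.UH Pool.Agent.UV
open scoped Real ComplexConjugate

theorem generic {S : BS} {Ct θ D1 : ℝ} {N0 : ℕ} (hS : TG S Ct θ D1 N0) {δ0 : ℝ} (h0 : 0 < δ0) (H : ℝ) :
    ∃ δ : ℝ, δ0 / 2 ≤ δ ∧ δ ≤ δ0 ∧ ∀ᵐ t0 : ℝ, ∀ g ∈ ZL H, ‖deriv riemannZeta (1 / 2 + g * I)‖ ≠
      δ * Real.log S.T * Real.exp (x0 S t0) := by
  have hT0 : (0 : ℝ) < S.T := lt_of_lt_of_le (Real.exp_pos 1000) hS.T_ge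
  have hT1 : 1 < S.T := lt_of_lt_of_le (Real.one_lt_exp_iff.mpr (by norm_num)) hS.T_ge
  have hL : 0 < Real.log S.T := Real.log_pos hT1
  have hx0 : Continuous (x0 S) := x0_continuous S fun j hj p hp => (hS.prime j hj p hp).1.ne_zero
  set a : ℝ → ℝ := fun g => ‖deriv riemannZeta (1 / 2 + g * I)‖ with ha
  have hmeas : MeasurableSet {x : ℝ × ℝ | ∀ g ∈ ZL H,
      a g ≠ x.2 * Real.log S.T * Real.exp (x0 S x.1)} := by
    have e : {x : ℝ × ℝ | ∀ g ∈ ZL H, a g ≠ x.2 * Real.log S.T * Real.exp (x0 S x.1)} =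
        ⋂ g ∈ ZL H, {x : ℝ × ℝ | a g ≠ x.2 * Real.log S.T * Real.exp (x0 S x.1)} := by
      ext x
      simp only [Set.mem_ofPred_eq, Set.mem_iInter]
    rw [e]
    refine Finset.measurableSet_biInter _ fun g _ => ?_
    refine IsOpen.measurableSet ?_
    refine isOpen_ne_fun continuous_const ?_
    exact (continuous_snd.mul continuous_const).mul
      (Real.continuous_exp.comp (hx0.comp continuous_fst))
  have h1 : ∀ᵐ t0 : ℝ, ∀ᵐ δ : ℝ, ∀ g ∈ ZL H,
      a g ≠ δ * Real.log S.T * Real.exp (x0 S t0) := by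
    refine Filter.Eventually.of_forall fun t0 => ?_
    have hnull : volume (((ZL H).image fun g => a g / (Real.log S.T * Real.exp (x0 S t0)) :
        Finset ℝ) : Set ℝ) = 0 := Finset.measure_zero _ _
    refine measure_mono_null ?_ hnull
    intro δ hδ
    simp only [Set.mem_compl_iff, Set.mem_ofPred_eq, not_forall, not_not] at hδ
    obtain ⟨g, hg, hg'⟩ := hδ
    rw [Finset.mem_coe, Finset.mem_image]
    refine ⟨g, hg, ?_⟩
    have hE : 0 < Real.exp (x0 S t0) := Real.exp_pos _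
    rw [hg']
    field_simp
  have h2 : ∀ᵐ δ : ℝ, ∀ᵐ t0 : ℝ, ∀ g ∈ ZL H,
      a g ≠ δ * Real.log S.T * Real.exp (x0 S t0) :=
    (Measure.ae_ae_comm (p := fun t0 δ : ℝ => ∀ g ∈ ZL H,
      a g ≠ δ * Real.log S.T * Real.exp (x0 S t0)) hmeas).mp h1
  by_contra hcon
  have h3 : volume (Set.Icc (δ0 / 2) δ0) = 0 := by
    refine measure_mono_null ?_ (ae_iff.mp h2)
    intro δ hδ
    exact fun h4 => hcon ⟨δ, hδ.1, hδ.2, h4⟩
  rw [Real.volume_Icc] at h3
  have h5 := ENNReal.ofReal_eq_zero.mp h3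
  linarith

end Pool.Agent.LB
end

section

/-! TASK A8. The inequality for one window. `L = log T`, `T ≥ T0(η, B, W, ε)`: for `|z.im| ≤ W`, `-R0 ≤ z.re ≤ W`: `Im (pt T t0 z) = t0 + z.im/L ≥ 1`, so `Vd`, `MO` are analytic in `z` on a neighbourhood of `QW W` (`VV_an`, `ch_an`, `MO_an` composed with the affine map `pt`).
- `Vd(iy) ≠ 0` for `|y| ≤ W`: otherwise `Y = Vd/ch = 0 ∉ slitPlane`, so by `cross_zero` `g = t0 + y/L` is in `ZL (2T/η)` and `‖ζ'‖ = δ L e^{x0}`, excluded by `hg`.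
- `MO` is not identically zero on `QW W`: the entire function `s ↦ MO 0 T (nC s)` (`MO_an`) would vanish identically, but it tends to `am 0 T 1 = 1` for `s → +∞`.
- `crossing` with `Y y = Vd(iy)/ch(pt(iy))`, `Z` = the image of the set of good `g ∈ ZL` under `g ↦ L(g - t0)` (`cross_zero` and `hg`: the inequality `≤` is strict): `∫ bu(y/W) Im(Y'/Y) ≤ 2π(1 + Ng)`. `curve_deriv`: `Im(Y'/Y) = Re(Vd'/Vd) + 2 Re psiR/L`, and `2 Re psiR/L ≥ 1 - ε` for `T ≥ T0` (`psiR_pt`). (Continuity of `Y'`: `Y` is analytic in `y`.) So `-∫ bu Re(Vd'/Vd) ≥ (1-ε) be0 W - 2π(1+Ng)`.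
- `det_ineq` with `f1 = Vd`, `f2 = MO`, `c1 = 29/10`, `κ = 2 x0`; `f1 f2² = Gz`. `ENNReal.ofReal (a) ≤ ofReal(2π Ng) + ofReal(a - 2π Ng)`. -/

set_option autoImplicit false

namespace Pool.Agent.LB

open Complex MeasureTheory Finset Pool.Agent.GH Pool.Agent.UH Pool.Agent.UV
open scoped Real ComplexConjugate

private lemma A8_im (T t : ℝ) (z : ℂ) : (pt T t z).im = t + z.im / Real.log T := by
  unfold pt
  rw [Complex.add_im, Complex.add_im, Complex.div_ofReal_im, Complex.im_ofReal_mul, Complex.I_im]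
  norm_num

private lemma A8_re (T t : ℝ) (z : ℂ) : (pt T t z).re = 1 / 2 + z.re / Real.log T := by
  unfold pt
  rw [Complex.add_re, Complex.add_re, Complex.div_ofReal_re, Complex.re_ofReal_mul, Complex.I_re]
  norm_num

private lemma A8_pt_diff (T t : ℝ) : Differentiable ℂ (pt T t) := by
  unfold pt
  fun_prop

private lemma A8_pt_an (T t : ℝ) (z : ℂ) : AnalyticAt ℂ (pt T t) z := (A8_pt_diff T t).analyticAt z

private lemma A8_Vd_an {S : BS} {δ t0 : ℝ} {z : ℂ} (h : (pt S.T t0 z).im ≠ 0) :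
    AnalyticAt ℂ (Vd S δ t0) z := by
  unfold Vd
  have h1 : AnalyticAt ℂ (fun z => VV S.T (pt S.T t0 z)) z := (VV_an S.T h).comp (A8_pt_an S.T t0 z)
  have h2 : AnalyticAt ℂ (fun z => ch (pt S.T t0 z)) z := (ch_an h).comp (A8_pt_an S.T t0 z)
  exact (h1.pow 2).add (analyticAt_const.mul h2)

private lemma A8_F_an {S : BS} {δ t0 : ℝ} {z : ℂ} (h : (pt S.T t0 z).im ≠ 0) :
    AnalyticAt ℂ (fun z => Vd S δ t0 z / ch (pt S.T t0 z)) z := by
  have h2 : AnalyticAt ℂ (fun z => ch (pt S.T t0 z)) z := (ch_an h).comp (A8_pt_an S.T t0 z)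
  exact (A8_Vd_an h).div h2 (ch_ne h)

private lemma A8_MO_ne {T : ℝ} (hT : 1 < T) : ∃ s : ℂ, MO 0 T (nC s) ≠ 0 := by
  obtain ⟨N, hN⟩ : ∃ N : ℕ, N = ⌊T ^ (9 / 20 : ℝ)⌋₊ := ⟨_, rfl⟩
  refine ⟨((N + 1 : ℕ) : ℂ), ?_⟩
  unfold MO
  rw [← hN]
  have hT0 : 0 ≤ T ^ (9 / 20 : ℝ) := Real.rpow_nonneg (by linarith) _
  have hTT : T ^ (9 / 20 : ℝ) ≤ T := by
    calc T ^ (9 / 20 : ℝ) ≤ T ^ (1 : ℝ) := Real.rpow_le_rpow_of_exponent_le hT.le (by norm_num)
      _ = T := Real.rpow_one T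
  have hN1 : 1 ≤ N := by
    rw [hN]
    refine Nat.le_floor ?_
    rw [Nat.cast_one]
    exact Real.one_le_rpow hT.le (by norm_num)
  have ha1 : am 0 T 1 = 1 := by
    unfold am
    rw [Pf_one (by simp)]
    simp
  have hn : ∀ n ∈ Finset.Icc 2 N, ‖((am 0 T n : ℝ) : ℂ) * nC ((N + 1 : ℕ) : ℂ) n‖ ≤ (1 / 2 : ℝ) ^ (N + 1) := by
    intro n hn
    rw [Finset.mem_Icc] at hn
    have hnT : (n : ℝ) ≤ T := by
      have h1 : (n : ℝ) ≤ (N : ℝ) := by exact_mod_cast hn.2
      have h2 : (N : ℝ) ≤ T ^ (9 / 20 : ℝ) := by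
        rw [hN]
        exact Nat.floor_le hT0
      linarith
    have h3 := am_le hT (i := 0) hnT
    rw [norm_mul, Complex.norm_real, Real.norm_eq_abs, norm_nC _ (by omega)]
    have h4 : (n : ℝ) ^ (-(((N + 1 : ℕ) : ℂ)).re) ≤ (1 / 2 : ℝ) ^ (N + 1) := by
      rw [Complex.natCast_re, Real.rpow_neg (by positivity), Real.rpow_natCast, one_div, inv_pow]
      refine inv_anti₀ (by positivity) ?_
      refine pow_le_pow_left₀ (by norm_num) ?_ _
      exact_mod_cast hn.1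
    calc |am 0 T n| * (n : ℝ) ^ (-(((N + 1 : ℕ) : ℂ)).re) ≤ 1 * (1 / 2 : ℝ) ^ (N + 1) := by
          gcongr
      _ = _ := one_mul _
  have hsplit : ∑ n ∈ Finset.Icc 1 N, ((am 0 T n : ℝ) : ℂ) * nC ((N + 1 : ℕ) : ℂ) n =
      1 + ∑ n ∈ Finset.Icc 2 N, ((am 0 T n : ℝ) : ℂ) * nC ((N + 1 : ℕ) : ℂ) n := by
    rw [← Finset.insert_Icc_add_one_left_eq_Icc hN1, Finset.sum_insert (by simp), ha1, map_one]
    push_cast
    rw [one_mul]
  rw [hsplit]
  intro h
  have h5 : ‖∑ n ∈ Finset.Icc 2 N, ((am 0 T n : ℝ) : ℂ) * nC ((N + 1 : ℕ) : ℂ) n‖ ≤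
      (N : ℝ) * (1 / 2 : ℝ) ^ (N + 1) := by
    refine (norm_sum_le _ _).trans ((Finset.sum_le_sum hn).trans ?_)
    rw [Finset.sum_const, nsmul_eq_mul]
    refine mul_le_mul_of_nonneg_right ?_ (by positivity)
    have : (Finset.Icc 2 N).card ≤ N := by
      rw [Nat.card_Icc]
      omega
    exact_mod_cast this
  have h6 : ∑ n ∈ Finset.Icc 2 N, ((am 0 T n : ℝ) : ℂ) * nC ((N + 1 : ℕ) : ℂ) n = -1 := by
    linear_combination h
  rw [h6, norm_neg, norm_one] at h5
  have h7 : (N : ℝ) < 2 ^ (N + 1) := by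
    have h8 : N < 2 ^ (N + 1) := lt_trans (Nat.lt_succ_self N) Nat.lt_two_pow_self
    exact_mod_cast h8
  rw [one_div, inv_pow, ← div_eq_mul_inv, le_div_iff₀ (by positivity)] at h5
  linarith

private lemma A8_MO_ne2 {T t0 W : ℝ} (hT : 1 < T) (hW : 0 < W) :
    ∃ z ∈ QW W, MO 0 T (nC (pt T t0 z)) ≠ 0 := by
  by_contra hcon
  push Not at hcon
  obtain ⟨s, hs⟩ := A8_MO_ne hT
  have hL : Real.log T ≠ 0 := (Real.log_pos hT).ne'
  have hd : Differentiable ℂ (fun z => MO 0 T (nC (pt T t0 z))) :=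
    (MO_an 0 T).comp (A8_pt_diff T t0)
  have han : AnalyticOnNhd ℂ (fun z => MO 0 T (nC (pt T t0 z))) Set.univ := fun z _ => hd.analyticAt z
  have hR : 0 < R0 := by unfold R0; norm_num
  have hev : (fun z => MO 0 T (nC (pt T t0 z))) =ᶠ[nhds 0] 0 := by
    have h1 : {z : ℂ | -R0 < z.re ∧ z.re < W ∧ |z.im| < W} ∈ nhds (0 : ℂ) := by
      refine IsOpen.mem_nhds ?_ ⟨by simp [hR], by simp [hW], by simp [hW]⟩
      exact (isOpen_lt continuous_const Complex.continuous_re).inter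
        ((isOpen_lt Complex.continuous_re continuous_const).inter
          (isOpen_lt Complex.continuous_im.abs continuous_const))
    filter_upwards [h1] with z hz
    exact hcon z ⟨hz.1.le, hz.2.1.le, hz.2.2.le⟩
  have h2 := han.eqOn_zero_of_preconnected_of_eventuallyEq_zero isPreconnected_univ (Set.mem_univ 0) hev
    (Set.mem_univ ((s - 1 / 2 - t0 * I) * (Real.log T : ℝ)))
  have h3 : pt T t0 ((s - 1 / 2 - t0 * I) * (Real.log T : ℝ)) = s := by
    unfold pt
    have : ((Real.log T : ℝ) : ℂ) ≠ 0 := Complex.ofReal_ne_zero.2 hL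
    field_simp
    ring
  simp only [h3] at h2
  exact hs h2

private lemma A8_sum {S : BS} {δ W H t0 : ℝ} (hT : 1 < S.T) :
    ∃ Z : Finset ℝ, (∀ y : ℝ, (t0 + y / Real.log S.T) ∈ ZL H →
      δ * Real.log S.T * Real.exp (x0 S t0) <
        ‖deriv riemannZeta (1 / 2 + (t0 + y / Real.log S.T : ℝ) * I)‖ → y ∈ Z) ∧
      ∑ y ∈ Z, bu (y / W) = Ng S δ W H t0 := by
  classical
  have hL : Real.log S.T ≠ 0 := (Real.log_pos hT).ne'
  refine ⟨((ZL H).filter fun g : ℝ => δ * Real.log S.T * Real.exp (x0 S t0) <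
    ‖deriv riemannZeta (1 / 2 + g * I)‖).image fun g : ℝ => Real.log S.T * (g - t0), ?_, ?_⟩
  · intro y hy hy2
    rw [Finset.mem_image]
    refine ⟨t0 + y / Real.log S.T, Finset.mem_filter.2 ⟨hy, hy2⟩, ?_⟩
    field_simp
    ring
  · rw [Finset.sum_image, Finset.sum_filter]
    · unfold Ng
      refine Finset.sum_congr rfl fun g _ => ?_
      split_ifs <;> rfl
    · intro a _ b _ h
      have h1 := mul_left_cancel₀ hL h
      linarith

theorem window (η B W ε : ℝ) (h1 : 0 < η) (h2 : η ≤ 1) (hB : 1 ≤ B) (hW : 8 * B ≤ W) (hε : 0 < ε) :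
    ∃ T0 : ℝ, ∀ {S : BS} {Ct θ D1 : ℝ} {N0 : ℕ}, TG S Ct θ D1 N0 → T0 ≤ S.T → ∀ δ t0 : ℝ, 0 < δ →
    t0 ∈ Dm η S.T →
    (∀ g ∈ ZL (2 * S.T / η), ‖deriv riemannZeta (1 / 2 + g * I)‖ ≠
      δ * Real.log S.T * Real.exp (x0 S t0)) →
    ENNReal.ofReal ((1 - ε - (Real.log (29 / 10) - 1) / R0) * (be0 * W) - 2 * π) ≤
    ENNReal.ofReal (2 * π * Ng S δ W (2 * S.T / η) t0) +
    ENNReal.ofReal (1 / (R0 * (29 / 10))) * (∫⁻ y in Set.Icc (-W) W,
        ENNReal.ofReal (bu (y / W) * ‖Gz S δ t0 (-(R0 : ℂ) + y * I)‖)) +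
    ENNReal.ofReal (1 / R0) * (∫⁻ z in QW W,
        ENNReal.ofReal (|Real.log ‖Gz S δ t0 z‖| * |Lh B W z.re z.im|)) +
    ∫⁻ z in {z : ℂ | 0 ≤ z.re ∧ z.re ≤ W ∧ |z.im| ≤ W},
        ENNReal.ofReal (|Real.log ‖Vd S δ t0 z‖ - 2 * x0 S t0| * |Lp W z.re z.im|) := by
  obtain ⟨C, T1, hC, hpsi⟩ := psiR_pt η h1 h2
  refine ⟨max T1 (max (Real.exp W) (Real.exp (2 * C / ε))), ?_⟩
  intro S Ct θ D1 N0 hTG hT δ t0 hδ ht0 hg
  have hT1 : T1 ≤ S.T := (le_max_left _ _).trans hT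
  have hT2 : Real.exp W ≤ S.T := ((le_max_left _ _).trans (le_max_right _ _)).trans hT
  have hT3 : Real.exp (2 * C / ε) ≤ S.T := ((le_max_right _ _).trans (le_max_right _ _)).trans hT
  have hTpos : 0 < S.T := (Real.exp_pos W).trans_le hT2
  have hW0 : 0 < W := by linarith
  have hR : 0 < R0 := by unfold R0; norm_num
  have hR2 : R0 ≤ W := by unfold R0; linarith
  have hLW : W ≤ Real.log S.T := by
    rw [← Real.log_exp W]
    exact Real.log_le_log (Real.exp_pos W) hT2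
  have hLC : 2 * C / ε ≤ Real.log S.T := by
    rw [← Real.log_exp (2 * C / ε)]
    exact Real.log_le_log (Real.exp_pos _) hT3
  have hL0 : 0 < Real.log S.T := by linarith
  have hL8 : 8 ≤ Real.log S.T := by linarith
  have hT1' : 1 < S.T := by
    by_contra hcon
    push Not at hcon
    have := Real.log_nonpos hTpos.le hcon
    linarith
  have hpt : ∀ z ∈ QW W, 1 ≤ (pt S.T t0 z).im ∧
      ‖psiR (pt S.T t0 z) / (Real.log S.T : ℝ) - 1 / 2‖ ≤ C / Real.log S.T := by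
    intro z hz
    refine hpsi S.T t0 z hT1 ht0 ?_ ?_
    · refine (abs_le.2 ⟨?_, ?_⟩ : |z.re| ≤ W).trans (by linarith)
      · linarith [hz.1]
      · exact hz.2.1
    · refine hz.2.2.trans ?_
      nlinarith
  have hptne : ∀ z ∈ QW W, (pt S.T t0 z).im ≠ 0 := fun z hz => by
    have := (hpt z hz).1
    linarith
  have hseg : ∀ y ∈ Set.Icc (-W) W, (y : ℂ) * I ∈ QW W := by
    intro y hy
    have k1 : ((y : ℂ) * I).re = 0 := by simp
    have k2 : ((y : ℂ) * I).im = y := by simp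
    refine ⟨?_, ?_, ?_⟩
    · rw [k1]; linarith
    · rw [k1]; linarith
    · rw [k2]; exact abs_le.2 hy
  have himy : ∀ y : ℝ, (pt S.T t0 (y * I)).im = t0 + y / Real.log S.T := by
    intro y
    rw [A8_im]
    simp
  have hpos : ∀ y ∈ Set.Icc (-W) W, 0 < t0 + y / Real.log S.T := by
    intro y hy
    have := (hpt _ (hseg y hy)).1
    rw [himy] at this
    linarith
  have hub : ∀ y ∈ Set.Icc (-W) W, t0 + y / Real.log S.T ≤ 2 * S.T / η := by
    intro y hy
    have k1 : y / Real.log S.T ≤ 1 := by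
      rw [div_le_one hL0]
      linarith [hy.2]
    have k2 : 1 ≤ S.T / η := by
      rw [le_div_iff₀ h1]
      linarith
    have k3 := ht0.2
    have k4 : 2 * S.T / η = S.T / η + S.T / η := by ring
    rw [k4]
    linarith
  -- `Vd` does not vanish on the segment
  have hVne : ∀ y ∈ Set.Icc (-W) W, Vd S δ t0 (y * I) ≠ 0 := by
    intro y hy h0
    have k1 := cross_zero (S := S) (δ := δ) (t0 := t0) (y := y) hT1' hδ (hpos y hy)
      (by rw [h0, zero_div]; exact Complex.zero_notMem_slitPlane)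
    refine hg _ ((ZL_mem _ _).2 ⟨k1.1, hpos y hy, hub y hy⟩) ?_
    exact k1.2.2 h0
  have hVan : ∀ z ∈ QW W, AnalyticAt ℂ (Vd S δ t0) z := fun z hz => A8_Vd_an (hptne z hz)
  -- the curve
  obtain ⟨F, hF⟩ : ∃ F : ℂ → ℂ, F = fun z => Vd S δ t0 z / ch (pt S.T t0 z) := ⟨_, rfl⟩
  have hFan : ∀ z ∈ QW W, AnalyticAt ℂ F z := fun z hz => by
    rw [hF]
    exact A8_F_an (hptne z hz)
  have hYd : ∀ y ∈ Set.Icc (-W) W, HasDerivAt (fun y : ℝ => F (y * I)) (deriv F (y * I) * I) y := by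
    intro y hy
    have k1 : HasDerivAt (fun y : ℝ => (y : ℂ) * I) I y := by
      simpa using (Complex.ofRealCLM.hasDerivAt (x := y)).mul_const I
    exact (hFan _ (hseg y hy)).differentiableAt.hasDerivAt.comp y k1
  have hcI : Continuous fun y : ℝ => (y : ℂ) * I := by fun_prop
  have hYc : ContinuousOn (fun y : ℝ => deriv F (y * I) * I) (Set.Icc (-W) W) := by
    intro y hy
    refine ContinuousAt.continuousWithinAt ?_
    refine ContinuousAt.mul ?_ continuousAt_const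
    exact ContinuousAt.comp (f := fun y : ℝ => (y : ℂ) * I) (g := deriv F)
      (hFan _ (hseg y hy)).deriv.continuousAt hcI.continuousAt
  have hYn : ∀ y ∈ Set.Icc (-W) W, F (y * I) ≠ 0 := by
    intro y hy
    rw [hF]
    exact div_ne_zero (hVne y hy) (ch_ne (hptne _ (hseg y hy)))
  obtain ⟨Z, hZ1, hZ2⟩ := A8_sum (S := S) (δ := δ) (W := W) (H := 2 * S.T / η) (t0 := t0) hT1'
  have hcross := crossing hW0 hYd hYc hYn Z (by
    intro y hy hy2
    have hyI : y ∈ Set.Icc (-W) W := by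
      rw [abs_lt] at hy
      exact ⟨by linarith [hy.1], by linarith [hy.2]⟩
    rw [hF] at hy2
    have k1 := cross_zero (S := S) (δ := δ) (t0 := t0) (y := y) hT1' hδ (hpos y hyI) hy2
    have k2 : t0 + y / Real.log S.T ∈ ZL (2 * S.T / η) := (ZL_mem _ _).2 ⟨k1.1, hpos y hyI, hub y hyI⟩
    exact hZ1 y k2 (lt_of_le_of_ne k1.2.1 (hg _ k2).symm))
  rw [hZ2] at hcross
  have hb1 : Continuous fun y : ℝ => bu (y / W) := bu_contDiff.continuous.comp (by fun_prop)
  have huI : Set.uIcc (-W) W = Set.Icc (-W) W := Set.uIcc_of_le (by linarith)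
  have hVc : ContinuousOn (fun y : ℝ => bu (y / W) *
      (deriv (Vd S δ t0) (y * I) / Vd S δ t0 (y * I)).re) (Set.Icc (-W) W) := by
    refine hb1.continuousOn.mul ?_
    refine Complex.continuous_re.comp_continuousOn ?_
    refine ContinuousOn.div ?_ ?_ hVne
    · intro y hy
      exact (ContinuousAt.comp (f := fun y : ℝ => (y : ℂ) * I) (g := deriv (Vd S δ t0))
        (hVan _ (hseg y hy)).deriv.continuousAt hcI.continuousAt).continuousWithinAt
    · intro y hy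
      exact (ContinuousAt.comp (f := fun y : ℝ => (y : ℂ) * I) (g := Vd S δ t0)
        (hVan _ (hseg y hy)).continuousAt hcI.continuousAt).continuousWithinAt
  have hFc : ContinuousOn (fun y : ℝ => bu (y / W) * (deriv F (y * I) * I / F (y * I)).im)
      (Set.Icc (-W) W) := by
    refine hb1.continuousOn.mul ?_
    refine Complex.continuous_im.comp_continuousOn ?_
    refine ContinuousOn.div hYc ?_ hYn
    intro y hy
    exact (ContinuousAt.comp (f := fun y : ℝ => (y : ℂ) * I) (g := F)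
      (hFan _ (hseg y hy)).continuousAt hcI.continuousAt).continuousWithinAt
  have hint : ∫ y in (-W)..W, bu (y / W) * (deriv (Vd S δ t0) (y * I) / Vd S δ t0 (y * I)).re ≤
      (∫ y in (-W)..W, bu (y / W) * (deriv F (y * I) * I / F (y * I)).im) - (1 - ε) * (be0 * W) := by
    rw [← be0_scale hW0, ← intervalIntegral.integral_const_mul, ← intervalIntegral.integral_sub]
    · refine intervalIntegral.integral_mono_on (by linarith) ?_ ?_ ?_
      · refine ContinuousOn.intervalIntegrable ?_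
        rw [huI]
        exact hVc
      · refine ContinuousOn.intervalIntegrable ?_
        rw [huI]
        exact hFc.sub (continuousOn_const.mul hb1.continuousOn)
      · intro y hy
        obtain ⟨Y', hY', hY2⟩ := curve_deriv (S := S) (δ := δ) (t0 := t0) (y := y) hT1' (hpos y hy)
          (hVne y hy)
        have k1 : Y' = deriv F (y * I) * I := by
          have k0 := hYd y hy
          rw [hF] at k0 ⊢
          exact hY'.unique k0
        have k2 : (deriv F (y * I) * I / F (y * I)).im = (deriv (Vd S δ t0) (y * I) / Vd S δ t0 (y * I)).re +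
            2 * (psiR (pt S.T t0 (y * I))).re / Real.log S.T := by
          rw [← hY2, k1, hF]
        have k3 := (hpt _ (hseg y hy)).2
        have k4 := (Complex.abs_re_le_norm _).trans k3
        rw [Complex.sub_re, Complex.div_ofReal_re, abs_le] at k4
        have k5 : ((1 / 2 : ℂ)).re = 1 / 2 := by norm_num
        rw [k5] at k4
        have k6 : C / Real.log S.T ≤ ε / 2 := by
          rw [div_le_iff₀ hL0]
          rw [div_le_iff₀ hε] at hLC
          linarith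
        have k7 : 1 - ε ≤ 2 * (psiR (pt S.T t0 (y * I))).re / Real.log S.T := by
          have : 2 * (psiR (pt S.T t0 (y * I))).re / Real.log S.T =
              2 * ((psiR (pt S.T t0 (y * I))).re / Real.log S.T) := by ring
          rw [this]
          linarith [k4.1]
        rw [k2]
        have k8 := (bu_mem (y / W)).1
        nlinarith
    · refine ContinuousOn.intervalIntegrable ?_
      rw [huI]
      exact hFc
    · exact (continuous_const.mul hb1).intervalIntegrable _ _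
  have hdet := det_ineq (f1 := Vd S δ t0) (f2 := fun z => MO 0 S.T (nC (pt S.T t0 z)))
    (κ := 2 * x0 S t0) (c1 := 29 / 10) hB hW (by norm_num) hVan
    (fun z _ => (((MO_an 0 S.T).comp (A8_pt_diff S.T t0)).analyticAt z))
    (fun y hy => hVne y (abs_le.1 hy)) (A8_MO_ne2 hT1' hW0)
  obtain ⟨D, hD⟩ : ∃ D, D = ∫ y in (-W)..W, bu (y / W) *
    (deriv (Vd S δ t0) (y * I) / Vd S δ t0 (y * I)).re := ⟨_, rfl⟩
  rw [← hD] at hdet hint
  have hnum : (1 - ε - (Real.log (29 / 10) - 1) / R0) * (be0 * W) - 2 * π ≤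
      2 * π * Ng S δ W (2 * S.T / η) t0 + (-D - 1 / R0 * ((Real.log (29 / 10) - 1) * (be0 * W))) := by
    have k1 : (1 - ε - (Real.log (29 / 10) - 1) / R0) * (be0 * W) =
        (1 - ε) * (be0 * W) - 1 / R0 * ((Real.log (29 / 10) - 1) * (be0 * W)) := by ring
    rw [k1]
    linarith
  refine (ENNReal.ofReal_le_ofReal hnum).trans ?_
  refine ENNReal.ofReal_add_le.trans ?_
  rw [add_assoc, add_assoc]
  refine add_le_add le_rfl ?_
  rw [← add_assoc]
  exact hdet

end Pool.Agent.LB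
end

section

/-! TASK Z5. From windows to zeros. `L = log T`, `t ∈ EE ⊆ Dm η T`, `q = e^{x0 S t}`. For a good `g` (`δ L q < ‖ζ'‖`): `1 ≤ (‖ζ'‖/(δ L q))^{2lam}`, so `uu(t) · 1 ≤ uu q^{-2lam} (‖ζ'‖/(δL))^{2lam} ≤ 4 (δL)^{-2lam} ‖ζ'‖^{2lam}` (`gd_uu`: `uu ≤ 4 e^{2 lam x0}`). So `Kw uu Ng ≤ C_η T^{-1/2} 4 (δL)^{-2lam} ∑_{g ∈ ZL H} ‖ζ'(1/2+ig)‖^{2lam} bu(L(g-t)/W)` (`Kw_dm`), and `∫ bu(L(g-t)/W) dt = be0 W/L ≤ 2W/L` (`be0_scale`, substitution). -/

set_option autoImplicit false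

namespace Pool.Agent.LB

open Complex MeasureTheory Finset Pool.Agent.GH Pool.Agent.UH Pool.Agent.UV
open scoped Real ComplexConjugate

theorem end_upper (lam η : ℝ) (h0 : 0 < lam) (h1 : 0 < η) (h2 : η ≤ 1) : ∃ C T0 : ℝ, 1 ≤ C ∧
    ∀ {S : BS} {Ct θ D1 : ℝ} {N0 : ℕ}, TG S Ct θ D1 N0 → T0 ≤ S.T → ∀ δ W H : ℝ, 0 < δ → 1 ≤ W →
    ∫⁻ t in EE S lam η, ENNReal.ofReal (Kw S.T t * uu S lam t * Ng S δ W H t) ≤
    ENNReal.ofReal (C * (W / Real.log S.T) * (δ * Real.log S.T) ^ (-(2 * lam)) *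
      (S.T ^ (-(1 / 2) : ℝ) * ∑ g ∈ ZL H, ‖deriv riemannZeta (1 / 2 + g * I)‖ ^ (2 * lam))) := by
  classical
  obtain ⟨c, C, T0, hc, hC, hK⟩ := Kw_dm η h1 h2
  refine ⟨8 * C, T0, by linarith, ?_⟩
  intro S Ct θ D1 N0 hS hT δ W H hδ hW
  have hLe : 1000 ≤ Real.log S.T := by
    have := Real.log_le_log (Real.exp_pos 1000) hS.T_ge
    rwa [Real.log_exp] at this
  have hTpos : 0 < S.T := lt_of_lt_of_le (Real.exp_pos _) hS.T_ge
  set L : ℝ := Real.log S.T with hLdef
  have hL : 0 < L := by linarith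
  have hWL : 0 < W / L := by positivity
  have hδL : 0 < δ * L := by positivity
  set D : ℝ → ℝ := fun g => ‖deriv riemannZeta (1 / 2 + g * I)‖ ^ (2 * lam) with hD
  have hD0 : ∀ g, 0 ≤ D g := fun g => by rw [hD]; positivity
  set a : ℝ → ℝ := fun g => C * S.T ^ (-(1 / 2) : ℝ) * (4 * (δ * L) ^ (-(2 * lam)) * D g) with ha
  have ha0 : ∀ g, 0 ≤ a g := fun g => by
    have := hD0 g
    rw [ha]; positivity
  set J : ℝ → Set ℝ := fun g => Set.Icc (g - W / L) (g + W / L) with hJ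
  have hpt : ∀ t : ℝ, t ∈ EE S lam η → ENNReal.ofReal (Kw S.T t * uu S lam t * Ng S δ W H t) ≤
      ∑ g ∈ ZL H, ENNReal.ofReal (a g) * (J g).indicator (fun _ => (1 : ENNReal)) t := by
    rintro t ⟨ht1, ht2⟩
    have htd : t ∈ Dm (η / 2) S.T := by
      obtain ⟨u1, u2⟩ := ht1
      refine ⟨le_trans ?_ u1, u2.trans ?_⟩
      · apply mul_le_mul_of_nonneg_right _ hTpos.le
        linarith
      · apply div_le_div_of_nonneg_left hTpos.le (by linarith) (by linarith)
    have hKw := (hK S.T t hT htd).2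
    have hKw0 := (Kw_pos hS.T_ge t).le
    have huu := (gd_uu hS h0 ht2).1
    have huu0 : 0 ≤ uu S lam t := by unfold uu; positivity
    have hterm : ∀ g : ℝ, 0 ≤ (if δ * L * Real.exp (x0 S t) <
        ‖deriv riemannZeta (1 / 2 + g * I)‖ then bu (L * (g - t) / W) else 0) := by
      intro g
      split_ifs
      · exact (bu_mem _).1
      · exact le_rfl
    unfold Ng
    rw [← hLdef, Finset.mul_sum, ENNReal.ofReal_sum_of_nonneg
      (fun g _ => mul_nonneg (mul_nonneg hKw0 huu0) (hterm g))]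
    apply Finset.sum_le_sum
    intro g _
    by_cases hg : t ∈ J g
    · rw [Set.indicator_of_mem hg, mul_one]
      apply ENNReal.ofReal_le_ofReal
      by_cases hcond : δ * L * Real.exp (x0 S t) < ‖deriv riemannZeta (1 / 2 + g * I)‖
      · rw [if_pos hcond]
        have k1 : Real.exp (2 * lam * x0 S t) ≤ (δ * L) ^ (-(2 * lam)) * D g := by
          have k2 : Real.exp (x0 S t) ≤ ‖deriv riemannZeta (1 / 2 + g * I)‖ / (δ * L) := by
            rw [le_div_iff₀ hδL]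
            linarith
          have k3 := Real.rpow_le_rpow (Real.exp_pos _).le k2 (show 0 ≤ 2 * lam by linarith)
          rw [Real.div_rpow (norm_nonneg _) hδL.le, ← Real.exp_mul] at k3
          rw [Real.rpow_neg hδL.le, inv_mul_eq_div, hD]
          rw [show 2 * lam * x0 S t = x0 S t * (2 * lam) by ring]
          exact k3
        calc Kw S.T t * uu S lam t * bu (L * (g - t) / W)
            ≤ (C * S.T ^ (-(1 / 2) : ℝ)) * (4 * Real.exp (2 * lam * x0 S t)) * 1 := by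
              apply mul_le_mul _ (bu_mem _).2 (bu_mem _).1 (by positivity)
              exact mul_le_mul hKw huu huu0 (by positivity)
          _ ≤ a g := by
              rw [mul_one, ha]
              beta_reduce
              apply mul_le_mul_of_nonneg_left _ (by positivity)
              linarith
      · rw [if_neg hcond, mul_zero]
        exact ha0 g
    · rw [Set.indicator_of_notMem hg, mul_zero]
      have hb : bu (L * (g - t) / W) = 0 := by
        apply bu_zero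
        have hgt : W / L < |g - t| := by
          by_contra hcon
          push Not at hcon
          apply hg
          rw [abs_le] at hcon
          exact ⟨by linarith [hcon.2], by linarith [hcon.1]⟩
        rw [abs_div, abs_mul, abs_of_pos hL, abs_of_pos (show 0 < W by linarith), le_div_iff₀
          (by linarith)]
        rw [div_lt_iff₀ hL] at hgt
        linarith
      rw [hb]
      simp
  have hmeas : ∀ g ∈ ZL H, Measurable fun t : ℝ =>
      ENNReal.ofReal (a g) * (J g).indicator (fun _ => (1 : ENNReal)) t := fun g _ =>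
    (measurable_const.indicator measurableSet_Icc).const_mul _
  calc ∫⁻ t in EE S lam η, ENNReal.ofReal (Kw S.T t * uu S lam t * Ng S δ W H t)
      ≤ ∫⁻ t in EE S lam η,
        ∑ g ∈ ZL H, ENNReal.ofReal (a g) * (J g).indicator (fun _ => (1 : ENNReal)) t :=
        setLIntegral_mono_ae (Finset.measurable_sum _ hmeas).aemeasurable
          (Filter.Eventually.of_forall hpt)
    _ ≤ ∫⁻ t, ∑ g ∈ ZL H, ENNReal.ofReal (a g) * (J g).indicator (fun _ => (1 : ENNReal)) t :=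
        setLIntegral_le_lintegral _ _
    _ = ∑ g ∈ ZL H, ∫⁻ t, ENNReal.ofReal (a g) * (J g).indicator (fun _ => (1 : ENNReal)) t :=
        lintegral_finsetSum _ hmeas
    _ = ∑ g ∈ ZL H, ENNReal.ofReal (a g * (2 * (W / L))) := by
        refine Finset.sum_congr rfl fun g _ => ?_
        rw [lintegral_const_mul' _ _ ENNReal.ofReal_ne_top,
          lintegral_indicator measurableSet_Icc, lintegral_const, Measure.restrict_apply_univ,
          one_mul, Real.volume_Icc, ENNReal.ofReal_mul (ha0 g)]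
        congr 2
        ring
    _ = ENNReal.ofReal (∑ g ∈ ZL H, a g * (2 * (W / L))) := by
        rw [ENNReal.ofReal_sum_of_nonneg]
        intro g _
        have := ha0 g
        positivity
    _ = ENNReal.ofReal (8 * C * (W / L) * (δ * L) ^ (-(2 * lam)) *
      (S.T ^ (-(1 / 2) : ℝ) * ∑ g ∈ ZL H, ‖deriv riemannZeta (1 / 2 + g * I)‖ ^ (2 * lam))) := by
        congr 1
        rw [Finset.mul_sum, Finset.mul_sum]
        refine Finset.sum_congr rfl fun g _ => ?_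
        rw [ha, hD]
        ring

end Pool.Agent.LB
end
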