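import Pool.Agent.Lib.MP_69b2e4_nt.Mg.G001
import Pool.Agent.Lib.MP_69b2e4_nt.Mg.G037
import Pool.Agent.Lib.MP_69b2e4_nt.Mg.G004

section

/-! TASK D2. The weights and the mollifier are short polynomials.
`W_dp`: each factor `j ≤ J` is `IsDP2 (smooth) (N_j^{l'_j}) (3 N_j^{l'_j})` (`isDP2_re_PS`, `isDP2_exR`; primes `< M1` and `1` are in `Nat.smoothNumbers (M1 T)`), multiply (`IsDP2.mul`, `smooth_mul` of GH/Basic, induction on the number of
factors): sizes `∏ N_j^{l'_j} ≤ exp(∑ l_j log N_j) ≤ T^{1/4000}`, `∏ 3 N_j^{l'_j} ≤ exp(∑ (l_j log N_j + 10)) ≤ T^{1/4000}` (`BGood.len`, `l'_j ≤ l_j`, `N_j ≥ 1`, `log 3 ≤ 10`).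
`Mo_dp`: for `T ≥ T0`: `|μ(n) Fm(..)| ≤ 1` (`Real.smoothTransition` is in `[0,1]`), `∑_{n ≤ y} n^{-1/2} ≤ 2 y^{1/2}`, `y = T^{79/500}`, so `B = 2 y^{1/2} = 2 T^{79/1000} ≤ T^{795/10000}`; every `1 ≤ n ≤ y ≤ T^{1/5}` is
`M1 T`-smooth (`n ≤ ⌊y⌋ < M1 T = ⌊T^{1/5}⌋ + 1`, so all prime factors are `< M1 T`: `Nat.mem_smoothNumbers'` or `Nat.mem_smoothNumbers_of_lt`).
`MoWp_dp`: the product: sizes `T^{79/500 + 1/4000} ≤ T^{159/1000}`, `B ≤ T^{795/10000 + 1/4000} ≤ T^{80/1000}`. -/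

set_option autoImplicit false

namespace Pool.Agent.UH

open Complex MeasureTheory Finset Pool.Agent.GH
open scoped Real ComplexConjugate

private theorem D2_one (M : ℕ) : 1 ∈ Nat.smoothNumbers M := by
  rw [Nat.mem_smoothNumbers]
  simp

/-- the partial products -/
private theorem D2_prod {S : BS} {lam C D : ℝ} {N0 : ℕ} (hS : BGood S lam C N0 D) {al : ℝ} (hal : |al| ≤ 1)
    (l' : ℕ → ℕ) : ∀ n ≤ S.J + 1,
    IsDP2 (Nat.smoothNumbers (M1 S.T)) (∏ j ∈ range n, S.N j ^ l' j) (∏ j ∈ range n, 3 * S.N j ^ l' j)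
      (fun χ => ((∏ j ∈ range n, ExR (l' j) (al * (PS (S.R j) χ).re) : ℝ) : ℂ)) := by
  have h1 : 1 ∈ Nat.smoothNumbers (M1 S.T) := D2_one _
  intro n
  induction n with
  | zero =>
    intro _
    have h := isDP2_const (Nat.smoothNumbers (M1 S.T)) h1 1
    simpa using h
  | succ n ih =>
    intro hn
    have hn' : n ≤ S.J := by omega
    have hN := hS.N_ge n hn'
    have hx : IsDP2 (Nat.smoothNumbers (M1 S.T)) (S.N n) (S.N n)
        (fun χ => (((PS (S.R n) χ).re : ℝ) : ℂ)) := by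
      refine isDP2_re_PS (S.R n) hN h1 fun p hp => ?_
      obtain ⟨hp1, hp2, hp3⟩ := hS.prime n hn' p hp
      exact ⟨Nat.mem_smoothNumbers_of_lt hp1.pos hp2, hp1.ne_zero, hp3⟩
    have h2 := (ih (by omega)).mul smooth_mul
      (isDP2_exR smooth_mul h1 hN hN hx (l' n) hal) (by positivity)
    simp only [prod_range_succ]
    have e : (fun χ : ℕ →*₀ ℂ => (((∏ j ∈ range n, ExR (l' j) (al * (PS (S.R j) χ).re)) *
        ExR (l' n) (al * (PS (S.R n) χ).re) : ℝ) : ℂ)) = fun χ =>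
        ((∏ j ∈ range n, ExR (l' j) (al * (PS (S.R j) χ).re) : ℝ) : ℂ) *
        ((ExR (l' n) (al * (PS (S.R n) χ).re) : ℝ) : ℂ) := by
      funext χ
      push_cast
      rfl
    rw [e]
    exact h2

/-- the size of the products -/
private theorem D2_size {S : BS} {lam C D : ℝ} {N0 : ℕ} (hS : BGood S lam C N0 D)
    {l' : ℕ → ℕ} (hl : ∀ j ≤ S.J, l' j ≤ S.l j) (c : ℝ) (hc : 0 ≤ c) (hc2 : c ≤ 3) :
    ∏ j ∈ range (S.J + 1), c * S.N j ^ l' j ≤ S.T ^ (1 / 4000 : ℝ) := by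
  have hT : 0 < S.T := lt_of_lt_of_le (Real.exp_pos 1) hS.T_ge
  have h3 : (3 : ℝ) ≤ Real.exp 10 := by
    have := Real.add_one_le_exp (10 : ℝ)
    linarith
  calc ∏ j ∈ range (S.J + 1), c * S.N j ^ l' j
      ≤ ∏ j ∈ range (S.J + 1), Real.exp ((S.l j : ℝ) * Real.log (S.N j) + 10) := by
        refine prod_le_prod (fun j hj => ?_) fun j hj => ?_
        · have hN := hS.N_ge j (by rw [mem_range] at hj; omega)
          positivity
        · have hj' : j ≤ S.J := by rw [mem_range] at hj; omega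
          have hN := hS.N_ge j hj'
          have hN0 : 0 < S.N j := by linarith
          rw [Real.exp_add, mul_comm]
          refine mul_le_mul ?_ (hc2.trans h3) hc (Real.exp_pos _).le
          calc S.N j ^ l' j ≤ S.N j ^ S.l j := pow_le_pow_right₀ hN (hl j hj')
            _ = Real.exp ((S.l j : ℝ) * Real.log (S.N j)) := by
              rw [Real.exp_nat_mul, Real.exp_log hN0]
    _ = Real.exp (∑ j ∈ range (S.J + 1), ((S.l j : ℝ) * Real.log (S.N j) + 10)) := by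
        rw [Real.exp_sum]
    _ ≤ Real.exp (Real.log S.T / 4000) := Real.exp_le_exp.2 hS.len
    _ = S.T ^ (1 / 4000 : ℝ) := by
        rw [Real.rpow_def_of_pos hT]
        congr 1
        ring

theorem W_dp {S : BS} {lam C D : ℝ} {N0 : ℕ} (hS : BGood S lam C N0 D) {al : ℝ} (hal : |al| ≤ 1)
    {l' : ℕ → ℕ} (hl : ∀ j ≤ S.J, l' j ≤ S.l j) :
    IsDP2 (Nat.smoothNumbers (M1 S.T)) (S.T ^ (1 / 4000 : ℝ)) (S.T ^ (1 / 4000 : ℝ))
      (fun χ => ((S.W al l' χ : ℝ) : ℂ)) := by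
  have h := D2_prod hS hal l' (S.J + 1) le_rfl
  refine h.mono (Set.Subset.refl _) ?_ (D2_size hS hl 3 (by norm_num) le_rfl)
  have h2 := D2_size hS hl 1 (by norm_num) (by norm_num)
  simpa using h2

theorem Wm_dp {S : BS} {lam C D : ℝ} {N0 : ℕ} (hS : BGood S lam C N0 D) :
    IsDP2 (Nat.smoothNumbers (M1 S.T)) (S.T ^ (1 / 4000 : ℝ)) (S.T ^ (1 / 4000 : ℝ))
      (fun χ => ((S.Wm lam χ : ℝ) : ℂ)) := by
  have h1 := hS.lam_pos
  have h2 := hS.lam_lt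
  refine W_dp hS (by rw [abs_le]; constructor <;> linarith) fun j hj => ?_
  exact (lm_bounds h1 h2 (hS.l_big j hj).1).2

theorem Wp_dp {S : BS} {lam C D : ℝ} {N0 : ℕ} (hS : BGood S lam C N0 D) :
    IsDP2 (Nat.smoothNumbers (M1 S.T)) (S.T ^ (1 / 4000 : ℝ)) (S.T ^ (1 / 4000 : ℝ))
      (fun χ => ((S.Wp lam χ : ℝ) : ℂ)) := by
  have h1 := hS.lam_pos
  have h2 := hS.lam_lt
  refine W_dp hS (by rw [abs_le]; constructor <;> linarith) fun j hj => ?_
  exact (lp_bounds h1 h2 (hS.l_big j hj).2).2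

/-- `∑_{n ≤ N} n^{-1/2} ≤ 2 √N` -/
private theorem D2_sum (N : ℕ) : ∑ n ∈ Finset.Icc 1 N, (n : ℝ) ^ (-(1 / 2) : ℝ) ≤ 2 * √N := by
  induction N with
  | zero => simp
  | succ N ih =>
    rw [Finset.sum_Icc_succ_top (by omega)]
    have h0 : (0 : ℝ) < ((N + 1 : ℕ) : ℝ) := by positivity
    have h1 : (((N + 1 : ℕ) : ℝ)) ^ (-(1 / 2) : ℝ) = (√((N + 1 : ℕ) : ℝ))⁻¹ := by
      rw [Real.rpow_neg h0.le, Real.sqrt_eq_rpow]
    have ha : 0 ≤ √(N : ℝ) := Real.sqrt_nonneg _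
    have hb : 0 < √((N + 1 : ℕ) : ℝ) := Real.sqrt_pos.2 h0
    have hab : √(N : ℝ) ≤ √((N + 1 : ℕ) : ℝ) := Real.sqrt_le_sqrt (by push_cast; linarith)
    have ha2 : √(N : ℝ) ^ 2 = N := Real.sq_sqrt (Nat.cast_nonneg N)
    have hb2 : √((N + 1 : ℕ) : ℝ) ^ 2 = N + 1 := by
      rw [Real.sq_sqrt h0.le]
      push_cast
      ring
    have h2 : (√((N + 1 : ℕ) : ℝ))⁻¹ ≤ 2 * (√((N + 1 : ℕ) : ℝ) - √(N : ℝ)) := by
      rw [inv_le_iff_one_le_mul₀ hb]
      nlinarith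
    rw [h1]
    linarith

private theorem D2_Fm (u : ℝ) : |Fm u| ≤ 1 := by
  unfold Fm
  rw [abs_le]
  constructor
  · have := Real.smoothTransition.nonneg (50 * (1 - u))
    linarith
  · exact Real.smoothTransition.le_one _

private theorem D2_mu (n : ℕ) : |((ArithmeticFunction.moebius n : ℤ) : ℝ)| ≤ 1 := by
  have := ArithmeticFunction.abs_moebius_le_one (n := n)
  exact_mod_cast this

theorem Mo_dp : ∃ T0 : ℝ, 1 ≤ T0 ∧ ∀ T : ℝ, T0 ≤ T →
    IsDP2 (Nat.smoothNumbers (M1 T)) (T ^ (79 / 500 : ℝ)) (T ^ (795 / 10000 : ℝ)) (Mo (yT T)) := by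
  refine ⟨2 ^ 2000, one_le_pow₀ (by norm_num), fun T hT => ?_⟩
  have hT1 : 1 ≤ T := le_trans (one_le_pow₀ (by norm_num)) hT
  have hT0 : 0 < T := lt_of_lt_of_le zero_lt_one hT1
  have hy1 : 1 ≤ T ^ (79 / 500 : ℝ) := Real.one_le_rpow hT1 (by norm_num)
  have hlt : ∀ n : ℕ, n ≤ ⌊yT T⌋₊ → n < M1 T := by
    intro n hn
    have h1 : ⌊yT T⌋₊ ≤ ⌊T ^ (1 / 5 : ℝ)⌋₊ := by
      refine Nat.floor_le_floor ?_
      exact Real.rpow_le_rpow_of_exponent_le hT1 (by norm_num)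
    unfold M1 Mof
    omega
  refine ⟨Finset.Icc 1 ⌊yT T⌋₊ ×ˢ {1}, fun q => ((ArithmeticFunction.moebius q.1 : ℤ) : ℝ) *
    Fm (Real.log q.1 / Real.log (yT T)), ?_, ?_, ?_⟩
  · rintro ⟨n, m⟩ hq
    rw [mem_product, mem_Icc, mem_singleton] at hq
    obtain ⟨⟨hn1, hn2⟩, hm⟩ := hq
    simp only at hn1 hn2 hm
    subst hm
    refine ⟨by omega, one_ne_zero, Nat.mem_smoothNumbers_of_lt (by omega) (hlt n hn2),
      D2_one _, ?_, ?_⟩
    · have h1 : (n : ℝ) ≤ ⌊yT T⌋₊ := by exact_mod_cast hn2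
      exact h1.trans (Nat.floor_le (by unfold yT; positivity))
    · simpa using hy1
  · rw [Finset.sum_product]
    simp only [sum_singleton, Nat.cast_one, mul_one]
    calc ∑ n ∈ Finset.Icc 1 ⌊yT T⌋₊, |((ArithmeticFunction.moebius n : ℤ) : ℝ) *
          Fm (Real.log n / Real.log (yT T))| * (n : ℝ) ^ (-(1 / 2) : ℝ)
        ≤ ∑ n ∈ Finset.Icc 1 ⌊yT T⌋₊, (n : ℝ) ^ (-(1 / 2) : ℝ) := by
          refine sum_le_sum fun n _ => ?_
          have h1 : |((ArithmeticFunction.moebius n : ℤ) : ℝ) *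
              Fm (Real.log n / Real.log (yT T))| ≤ 1 := by
            rw [abs_mul]
            exact mul_le_one₀ (D2_mu n) (abs_nonneg _) (D2_Fm _)
          exact mul_le_of_le_one_left (by positivity) h1
      _ ≤ 2 * √(⌊yT T⌋₊ : ℝ) := D2_sum _
      _ ≤ 2 * √(yT T) := by
          refine mul_le_mul_of_nonneg_left (Real.sqrt_le_sqrt ?_) (by norm_num)
          exact Nat.floor_le (by unfold yT; positivity)
      _ = 2 * T ^ (79 / 1000 : ℝ) := by
          unfold yT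
          rw [Real.sqrt_eq_rpow, ← Real.rpow_mul hT0.le]
          norm_num
      _ ≤ T ^ (1 / 2000 : ℝ) * T ^ (79 / 1000 : ℝ) := by
          refine mul_le_mul_of_nonneg_right ?_ (by positivity)
          have h2 : ((2 : ℝ) ^ 2000) ^ (1 / 2000 : ℝ) = 2 := by
            rw [← Real.rpow_natCast, ← Real.rpow_mul (by norm_num)]
            norm_num
          calc (2 : ℝ) = ((2 : ℝ) ^ 2000) ^ (1 / 2000 : ℝ) := h2.symm
            _ ≤ T ^ (1 / 2000 : ℝ) := Real.rpow_le_rpow (by positivity) hT (by norm_num)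
      _ = T ^ (795 / 10000 : ℝ) := by
          rw [← Real.rpow_add hT0]
          norm_num
  · intro χ
    unfold Mo
    rw [Finset.sum_product]
    simp only [sum_singleton, map_one, mul_one]
    refine sum_congr rfl fun n _ => ?_
    push_cast
    ring

theorem MoWp_dp : ∃ T0 : ℝ, 1 ≤ T0 ∧ ∀ {S : BS} {lam C D : ℝ} {N0 : ℕ}, T0 ≤ S.T →
    BGood S lam C N0 D → IsDP2 (Nat.smoothNumbers (M1 S.T)) (S.T ^ (159 / 1000 : ℝ))
      (S.T ^ (80 / 1000 : ℝ)) (fun χ => Mo (yT S.T) χ * ((S.Wp lam χ : ℝ) : ℂ)) := by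
  obtain ⟨T0, hT0, h⟩ := Mo_dp
  refine ⟨T0, hT0, ?_⟩
  intro S lam C D N0 hT hS
  have hT1 : 1 ≤ S.T := hT0.trans hT
  have hTp : 0 < S.T := by linarith
  refine ((h S.T hT).mul smooth_mul (Wp_dp hS) (by positivity)).mono (Set.Subset.refl _) ?_ ?_
  · rw [← Real.rpow_add hTp]
    exact Real.rpow_le_rpow_of_exponent_le hT1 (by norm_num)
  · rw [← Real.rpow_add hTp]
    exact Real.rpow_le_rpow_of_exponent_le hT1 (by norm_num)

end Pool.Agent.UH
end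

section

/-! TASK D4. Mean value of a short polynomial `g = ∑_{q∈F} c_q χ(q.1) conj χ(q.2)` (compare `mv0` in GH/MV0.lean).
On the line `g(nC(1/2+it)) = ∑_q w_q (q.2/q.1)^{it}` with `w_q = c_q (q.1 q.2)^{-1/2}`, `∑ |w_q| ≤ B`. Expand the square: `∑_{q,q'} w_q w_{q'} ∫_T^{3T} (q.2 q'.1/(q.1 q'.2))^{it} dt`. If `q.2 q'.1 = q.1 q'.2` the integral is `2T`;
otherwise it is at most `2/|log(q.2 q'.1/(q.1 q'.2))| ≤ 2 Q²` (two different naturals `a, b ≤ Q²`: `|log(a/b)| ≥ 1/max(a,b)`), total `≤ 2 Q² B²`.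
In the random model `g(nX 0 w) = ∑_q w_q XX(q.1) conj XX(q.2)` and `E[XX(q.1) conj XX(q.2) conj(XX(q'.1)) XX(q'.2)] = E[XX(q.1 q'.2) conj XX(q.2 q'.1)]` `= 1` if `q.1 q'.2 = q.2 q'.1` and `0` otherwise (`orth`). So
`E ‖g(nX 0 w)‖² = ∑ w_q w_{q'}` over the same pairs. -/

set_option autoImplicit false

namespace Pool.Agent.UH

open Complex MeasureTheory Finset Pool.Agent.GH
open scoped Real ComplexConjugate

private lemma D4_log {Q : ℝ} {m n : ℕ} (hm : m ≠ 0) (hn : n ≠ 0) (hmQ : (m : ℝ) ≤ Q)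
    (hnQ : (n : ℝ) ≤ Q) (h : m ≠ n) : 1 ≤ Q * |Real.log n - Real.log m| := by
  wlog hlt : m < n generalizing m n with H
  · have h1 := H hn hm hnQ hmQ h.symm (lt_of_le_of_ne (not_lt.1 hlt) h.symm)
    rw [abs_sub_comm] at h1
    exact h1
  have hm0 : (0 : ℝ) < m := by exact_mod_cast Nat.pos_of_ne_zero hm
  have hn0 : (0 : ℝ) < n := by exact_mod_cast Nat.pos_of_ne_zero hn
  have h2 : (m : ℝ) + 1 ≤ n := by exact_mod_cast hlt
  have h3 : 1 - ((n : ℝ) / m)⁻¹ ≤ Real.log ((n : ℝ) / m) :=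
    Real.one_sub_inv_le_log_of_pos (div_pos hn0 hm0)
  rw [Real.log_div hn0.ne' hm0.ne', inv_div] at h3
  have h4 : 1 / (n : ℝ) ≤ 1 - (m : ℝ) / n := by
    rw [div_le_iff₀ hn0, sub_mul, div_mul_cancel₀ _ hn0.ne']
    linarith
  have h5 : 1 / (n : ℝ) ≤ |Real.log n - Real.log m| := (h4.trans h3).trans (le_abs_self _)
  have h6 : 1 ≤ (n : ℝ) * |Real.log n - Real.log m| := by
    have := mul_le_mul_of_nonneg_left h5 hn0.le
    rwa [mul_one_div_cancel hn0.ne'] at this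
  exact h6.trans (mul_le_mul_of_nonneg_right hnQ (abs_nonneg _))

private lemma D4_osc {μ : ℝ} (hμ : μ ≠ 0) (a b : ℝ) :
    ‖∫ t in a..b, cexp (((μ : ℂ) * I) * t)‖ ≤ 2 / |μ| := by
  have hc : (μ : ℂ) * I ≠ 0 := mul_ne_zero (by exact_mod_cast hμ) I_ne_zero
  rw [integral_exp_mul_complex hc, norm_div, norm_mul, norm_I, mul_one, Complex.norm_real,
    Real.norm_eq_abs]
  refine div_le_div_of_nonneg_right ?_ (abs_nonneg _)
  refine (norm_sub_le _ _).trans ?_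
  have h1 : ∀ x : ℝ, ‖cexp ((μ : ℂ) * I * x)‖ = 1 := by
    intro x
    have h2 : (μ : ℂ) * I * x = ((μ * x : ℝ) : ℂ) * I := by
      push_cast
      ring
    rw [h2, Complex.norm_exp_ofReal_mul_I]
  rw [h1, h1]
  norm_num

private lemma D4_cpow {n : ℕ} (hn : n ≠ 0) (z : ℂ) :
    (n : ℂ) ^ (-(1 / 2 + z)) = (((n : ℝ) ^ (-(1 / 2) : ℝ) : ℝ) : ℂ) * (n : ℂ) ^ (-z) := by
  have hn0 : (n : ℂ) ≠ 0 := by exact_mod_cast hn
  rw [Complex.ofReal_cpow (Nat.cast_nonneg n)]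
  push_cast
  rw [neg_add, Complex.cpow_add _ _ hn0]

theorem mean2 {S : Set ℕ} {Q B : ℝ} {g : (ℕ →*₀ ℂ) → ℂ} (hg : IsDP2 S Q B g) (hQ : 1 ≤ Q)
    {T : ℝ} (hT : 0 ≤ T) :
    ∫ t in T..(3 * T), ‖g (nC (1 / 2 + t * I))‖ ^ 2 ≤
      2 * T * (∫ w, ‖g (nX 0 w)‖ ^ 2 ∂mu) + 4 * Q ^ 2 * B ^ 2 := by
  classical
  obtain ⟨F, c, h1, h2, h3⟩ := hg
  set k : ℕ × ℕ → ℝ := fun q => c q * ((q.1 : ℝ) * q.2) ^ (-(1 / 2) : ℝ) with hk
  have hkq : ∀ q : ℕ × ℕ, ((k q : ℝ) : ℂ) = (c q : ℂ) * ((((q.1 : ℝ) ^ (-(1 / 2) : ℝ) : ℝ) : ℂ) *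
      ((((q.2 : ℝ) ^ (-(1 / 2) : ℝ) : ℝ) : ℂ))) := by
    intro q
    rw [hk]
    beta_reduce
    rw [Real.mul_rpow (Nat.cast_nonneg _) (Nat.cast_nonneg _)]
    push_cast
    ring
  -- the mean value of the random model
  have hX : ((∫ w, ‖g (nX 0 w)‖ ^ 2 ∂mu : ℝ) : ℂ) =
      ∑ q ∈ F, ∑ r ∈ F, ((k q * k r : ℝ) : ℂ) * (if q.1 * r.2 = q.2 * r.1 then 1 else 0) := by
    have h4 : ∀ w : Om, g (nX 0 w) = ∑ q ∈ F, (k q : ℂ) * (XX w q.1 * conj (XX w q.2)) := by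
      intro w
      rw [h3]
      refine Finset.sum_congr rfl fun q hq => ?_
      obtain ⟨hq1, hq2, -⟩ := h1 q hq
      rw [nX_apply 0 w hq1, nX_apply 0 w hq2, D4_cpow hq1, D4_cpow hq2, hkq q]
      rw [neg_zero, Complex.cpow_zero, Complex.cpow_zero, mul_one, mul_one, map_mul,
        Complex.conj_ofReal]
      ring
    have h5 : ∀ w : Om, ((‖g (nX 0 w)‖ ^ 2 : ℝ) : ℂ) = ∑ q ∈ F, ∑ r ∈ F, ((k q * k r : ℝ) : ℂ) *
        (XX w (q.1 * r.2) * conj (XX w (q.2 * r.1))) := by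
      intro w
      rw [Complex.ofReal_pow, ← Complex.mul_conj', h4, map_sum, Finset.sum_mul_sum]
      refine Finset.sum_congr rfl fun q _ => Finset.sum_congr rfl fun r _ => ?_
      rw [map_mul, map_mul, map_mul, map_mul, Complex.conj_ofReal, Complex.conj_conj, map_mul]
      push_cast
      ring
    have hint : ∀ q r : ℕ × ℕ, Integrable (fun w : Om => ((k q * k r : ℝ) : ℂ) *
        (XX w (q.1 * r.2) * conj (XX w (q.2 * r.1)))) mu :=
      fun q r => integrable_of_continuous (continuous_const.mul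
        ((continuous_XX _).mul (Complex.continuous_conj.comp (continuous_XX _))))
    rw [← integral_complex_ofReal]
    simp_rw [h5]
    rw [integral_finsetSum _ (fun q _ => integrable_finsetSum _ fun r _ => hint q r)]
    refine Finset.sum_congr rfl fun q hq => ?_
    rw [integral_finsetSum _ (fun r _ => hint q r)]
    refine Finset.sum_congr rfl fun r hr => ?_
    rw [integral_const_mul, orth (mul_ne_zero (h1 q hq).1 (h1 r hr).2.1)
      (mul_ne_zero (h1 q hq).2.1 (h1 r hr).1)]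
  -- the values on the critical line
  set θ : ℕ × ℕ → ℝ := fun q => Real.log q.2 - Real.log q.1 with hθ
  have hnC : ∀ (n : ℕ) (t : ℝ), n ≠ 0 → nC (1 / 2 + t * I) n =
      (((n : ℝ) ^ (-(1 / 2) : ℝ) : ℝ) : ℂ) * cexp (((-Real.log n : ℝ) : ℂ) * I * t) := by
    intro n t hn
    have hn0 : (n : ℂ) ≠ 0 := by exact_mod_cast hn
    rw [nC_apply _ hn, D4_cpow hn, Complex.cpow_def_of_ne_zero hn0, ← Complex.natCast_log]
    congr 2
    push_cast
    ring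
  have hC : ∀ t : ℝ, g (nC (1 / 2 + t * I)) = ∑ q ∈ F, (k q : ℂ) * cexp ((θ q : ℂ) * I * t) := by
    intro t
    rw [h3]
    refine Finset.sum_congr rfl fun q hq => ?_
    obtain ⟨hq1, hq2, -⟩ := h1 q hq
    rw [hnC q.1 t hq1, hnC q.2 t hq2, map_mul, Complex.conj_ofReal, ← Complex.exp_conj, hkq q]
    have h5 : conj (((-Real.log q.2 : ℝ) : ℂ) * I * t) = ((Real.log q.2 : ℝ) : ℂ) * I * t := by
      rw [map_mul, map_mul, Complex.conj_ofReal, Complex.conj_I, Complex.conj_ofReal]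
      push_cast
      ring
    have h6 : (θ q : ℂ) * I * t = ((-Real.log q.1 : ℝ) : ℂ) * I * t +
        ((Real.log q.2 : ℝ) : ℂ) * I * t := by
      rw [hθ]
      push_cast
      ring
    rw [h5, h6, Complex.exp_add]
    ring
  have hsq : ∀ t : ℝ, ((‖g (nC (1 / 2 + t * I))‖ ^ 2 : ℝ) : ℂ) =
      ∑ q ∈ F, ∑ r ∈ F, ((k q * k r : ℝ) : ℂ) * cexp (((θ q - θ r : ℝ) : ℂ) * I * t) := by
    intro t
    rw [Complex.ofReal_pow, ← Complex.mul_conj', hC, map_sum, Finset.sum_mul_sum]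
    refine Finset.sum_congr rfl fun q _ => Finset.sum_congr rfl fun r _ => ?_
    rw [map_mul, Complex.conj_ofReal, ← Complex.exp_conj]
    have h5 : conj ((θ r : ℂ) * I * t) = -((θ r : ℂ) * I * t) := by
      rw [map_mul, map_mul, Complex.conj_ofReal, Complex.conj_I, Complex.conj_ofReal]
      ring
    have h6 : ((θ q - θ r : ℝ) : ℂ) * I * t = (θ q : ℂ) * I * t + -((θ r : ℂ) * I * t) := by
      push_cast
      ring
    rw [h5, h6, Complex.exp_add]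
    push_cast
    ring
  have hcont : ∀ q r : ℕ × ℕ, Continuous fun t : ℝ => ((k q * k r : ℝ) : ℂ) *
      cexp (((θ q - θ r : ℝ) : ℂ) * I * t) := by
    intro q r
    fun_prop
  have hint : ((∫ t in T..(3 * T), ‖g (nC (1 / 2 + t * I))‖ ^ 2 : ℝ) : ℂ) =
      ∑ q ∈ F, ∑ r ∈ F, ((k q * k r : ℝ) : ℂ) *
        ∫ t in T..(3 * T), cexp (((θ q - θ r : ℝ) : ℂ) * I * t) := by
    rw [← intervalIntegral.integral_ofReal]
    simp_rw [hsq]
    rw [intervalIntegral.integral_finsetSum]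
    · refine Finset.sum_congr rfl fun q _ => ?_
      rw [intervalIntegral.integral_finsetSum]
      · refine Finset.sum_congr rfl fun r _ => ?_
        rw [intervalIntegral.integral_const_mul]
      · intro r _
        exact (hcont q r).intervalIntegrable _ _
    · intro q _
      exact (continuous_finsetSum _ fun r _ => hcont q r).intervalIntegrable _ _
  have hB : 0 ≤ B := le_trans (Finset.sum_nonneg fun q _ =>
    mul_nonneg (abs_nonneg (c q)) (Real.rpow_nonneg (by positivity) _)) h2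
  have hkS : ∑ q ∈ F, |k q| ≤ B := by
    refine le_trans (le_of_eq ?_) h2
    refine Finset.sum_congr rfl fun q _ => ?_
    rw [hk]
    beta_reduce
    rw [abs_mul, abs_of_nonneg (Real.rpow_nonneg (by positivity) _)]
  have hkey : ‖((∫ t in T..(3 * T), ‖g (nC (1 / 2 + t * I))‖ ^ 2 : ℝ) : ℂ) -
      ((2 * T * ∫ w, ‖g (nX 0 w)‖ ^ 2 ∂mu : ℝ) : ℂ)‖ ≤ 2 * Q ^ 2 * B ^ 2 := by
    rw [hint, Complex.ofReal_mul, hX, Finset.mul_sum, ← Finset.sum_sub_distrib]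
    simp_rw [Finset.mul_sum, ← Finset.sum_sub_distrib]
    calc ‖∑ q ∈ F, ∑ r ∈ F, (((k q * k r : ℝ) : ℂ) *
          (∫ t in T..(3 * T), cexp (((θ q - θ r : ℝ) : ℂ) * I * t)) -
            ((2 * T : ℝ) : ℂ) * (((k q * k r : ℝ) : ℂ) *
              (if q.1 * r.2 = q.2 * r.1 then 1 else 0)))‖
        ≤ ∑ q ∈ F, ∑ r ∈ F, |k q| * |k r| * (2 * Q ^ 2) := by
          refine (norm_sum_le _ _).trans (Finset.sum_le_sum fun q hq => ?_)
          refine (norm_sum_le _ _).trans (Finset.sum_le_sum fun r hr => ?_)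
          have e0 : ((k q * k r : ℝ) : ℂ) *
              (∫ t in T..(3 * T), cexp (((θ q - θ r : ℝ) : ℂ) * I * t)) -
              ((2 * T : ℝ) : ℂ) * (((k q * k r : ℝ) : ℂ) *
              (if q.1 * r.2 = q.2 * r.1 then 1 else 0)) = ((k q * k r : ℝ) : ℂ) *
              ((∫ t in T..(3 * T), cexp (((θ q - θ r : ℝ) : ℂ) * I * t)) -
                ((2 * T : ℝ) : ℂ) * (if q.1 * r.2 = q.2 * r.1 then 1 else 0)) := by ring
          rw [e0, norm_mul, Complex.norm_real, Real.norm_eq_abs, abs_mul]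
          refine mul_le_mul_of_nonneg_left ?_ (mul_nonneg (abs_nonneg _) (abs_nonneg _))
          obtain ⟨hq1, hq2, -, -, hqQ1, hqQ2⟩ := h1 q hq
          obtain ⟨hr1, hr2, -, -, hrQ1, hrQ2⟩ := h1 r hr
          have hpos : ∀ n : ℕ, n ≠ 0 → (n : ℝ) ≠ 0 := fun n hn => by exact_mod_cast hn
          have hdiff : θ q - θ r = Real.log ((q.2 * r.1 : ℕ) : ℝ) - Real.log ((q.1 * r.2 : ℕ) : ℝ) := by
            rw [hθ]
            push_cast
            rw [Real.log_mul (hpos _ hq2) (hpos _ hr1), Real.log_mul (hpos _ hq1) (hpos _ hr2)]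
            ring
          by_cases hqr : q.1 * r.2 = q.2 * r.1
          · rw [if_pos hqr, mul_one]
            have h0 : θ q - θ r = 0 := by rw [hdiff, hqr, sub_self]
            rw [h0]
            simp only [Complex.ofReal_zero, zero_mul, Complex.exp_zero,
              intervalIntegral.integral_const, Complex.real_smul, mul_one]
            have h7 : (((3 * T - T : ℝ) : ℂ) - ((2 * T : ℝ) : ℂ)) = 0 := by
              push_cast
              ring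
            rw [h7, norm_zero]
            positivity
          · rw [if_neg hqr, mul_zero, sub_zero]
            have hb1 : ((q.1 * r.2 : ℕ) : ℝ) ≤ Q ^ 2 := by
              push_cast
              rw [sq]
              exact mul_le_mul hqQ1 hrQ2 (Nat.cast_nonneg _) (by linarith)
            have hb2 : ((q.2 * r.1 : ℕ) : ℝ) ≤ Q ^ 2 := by
              push_cast
              rw [sq]
              exact mul_le_mul hqQ2 hrQ1 (Nat.cast_nonneg _) (by linarith)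
            have h8 := D4_log (mul_ne_zero hq1 hr2) (mul_ne_zero hq2 hr1) hb1 hb2 hqr
            rw [← hdiff] at h8
            have h9 : 0 < |θ q - θ r| := by
              rcases (abs_nonneg (θ q - θ r)).eq_or_lt with h0 | h0
              · rw [← h0, mul_zero] at h8
                linarith
              · exact h0
            refine (D4_osc (abs_pos.1 h9) _ _).trans ?_
            rw [div_le_iff₀ h9]
            nlinarith
      _ = (∑ q ∈ F, |k q|) ^ 2 * (2 * Q ^ 2) := by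
          rw [sq (∑ q ∈ F, |k q|), Finset.sum_mul_sum, Finset.sum_mul]
          refine Finset.sum_congr rfl fun q _ => ?_
          rw [Finset.sum_mul]
      _ ≤ B ^ 2 * (2 * Q ^ 2) := by
          refine mul_le_mul_of_nonneg_right ?_ (by positivity)
          exact pow_le_pow_left₀ (Finset.sum_nonneg fun q _ => abs_nonneg _) hkS 2
      _ = 2 * Q ^ 2 * B ^ 2 := by ring
  rw [← Complex.ofReal_sub, Complex.norm_real, Real.norm_eq_abs] at hkey
  have h10 := (abs_le.1 hkey).2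
  have : 0 ≤ Q ^ 2 * B ^ 2 := by positivity
  linarith

end Pool.Agent.UH
end

section

/-! TASK R3. The expectation over one block. Notation `u_p = p^{-1/2} ≤ 3/4`, `P = PX R 0 w = ∑_{p∈R} u_p X_p` (`PX_eq` in GH/Basic), `x = Re P`, `s = sR R = ∑ 1/p = ∑ u_p²`, `Z = Zt R (1/2) w`, `V = ∏ ‖1 - b_p X_p‖²`.
`main_block`: `‖Z‖² V e^{2 al x} = ∏_{p∈R} ‖(1-u_pX_p)^{-1}‖² ‖1-b_pX_p‖² exp(2 al u_p Re X_p)`; `indep_primes` and `one_prime_b`: the expectation is `≤ exp(∑ ‖(1+al)u_p - b_p‖² + C ∑ u_p⁴)`, `u_p⁴ = p^{-2}`.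
`block_b`: `exR_eq`, `norm_Ex_le_mul` (GH/ExBound): `|ExR l (al x)| ≤ e^{al x}(1 + 2^{-l} e^{3|x|})` (`|al| ≤ 1`), so `ExR² ≤ e^{2 al x}(1 + 3·2^{-l} e^{6|x|})` (`(1+t)² ≤ 1 + 2t + t²`, `t ≤ 2^{-l}e^{3|x|}`, `t² ≤ 2^{-l} e^{6|x|}`).
Hence `LHS ≤ E[‖Z‖² V e^{2 al x}] + 3·2^{-l} E[‖Z‖² V e^{2 al x + 6|x|}]`. The first is `main_block`. For the second, pointwise `‖(1-uX)^{-1}‖² ≤ exp(2 Re(uX) + 16 u²)` and `‖1-bX‖² ≤ exp(-2Re(bX) + ‖b‖²)`
(`‖1-z‖² = 1 - 2 Re z + ‖z‖² ≤ exp(-2Re z + ‖z‖²)`; and `‖1-z‖^{-2}`, `‖z‖ ≤ 3/4`: `-log‖1-z‖² = 2 Re(z + z²/2 + ...) ≤ 2 Re z + ‖z‖²/(1-‖z‖) ≤ 2 Re z + 4‖z‖²`: e.g. from `Complex.norm_log_one_sub_inv_add...`, or: `‖1-z‖²exp(2Re z + 4‖z‖²) ≥ 1` by real calculus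
using `e^t ≥ 1+t`... any constant instead of 16 is fine). So `‖Z‖² V ≤ exp(Re ∑ 2(u_p - b_p) X_p + 17 s)`, and by Cauchy-Schwarz
`E[‖Z‖² V e^{2alx+6|x|}] ≤ e^{17 s} (E exp(Re ∑ 4(u_p-b_p)X_p))^{1/2} (E e^{16|x|})^{1/2} ≤ e^{17 s} e^{32 s} (4 e^{C' s})^{1/2}` (`lin_exp`, `‖4(u-b)‖² ≤ 64 u²`; `exp_moment 16` of GH/ExpMoment with `z = 0`). (Instead of Cauchy-Schwarz one can use `ab ≤ (a²+b²)/2`.)
Finally `exp(∑‖..‖² + C∑p^{-2}) ≥ 1`, so `LHS ≤ exp(∑ ‖(1+al)u_p-b_p‖² + C ∑ p^{-2}) (1 + 2^{-l} exp(C(s+1)))` for a suitable absolute `C`. -/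

set_option autoImplicit false

namespace Pool.Agent.UH

open Complex MeasureTheory Finset Pool.Agent.GH
open scoped Real ComplexConjugate

private theorem R3_u {p : ℕ} (hp : p.Prime) :
    0 ≤ (p : ℝ) ^ (-(1 / 2) : ℝ) ∧ (p : ℝ) ^ (-(1 / 2) : ℝ) ≤ 3 / 4 ∧
      ((p : ℝ) ^ (-(1 / 2) : ℝ)) ^ 2 = 1 / (p : ℝ) ∧
      ((p : ℝ) ^ (-(1 / 2) : ℝ)) ^ 4 = (p : ℝ) ^ (-2 : ℝ) := by
  have hp0 : (0 : ℝ) < p := by exact_mod_cast hp.pos
  have hp2 : (2 : ℝ) ≤ p := by exact_mod_cast hp.two_le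
  have h0 : 0 ≤ (p : ℝ) ^ (-(1 / 2) : ℝ) := Real.rpow_nonneg hp0.le _
  have h2 : ((p : ℝ) ^ (-(1 / 2) : ℝ)) ^ 2 = 1 / (p : ℝ) := by
    rw [← Real.rpow_natCast, ← Real.rpow_mul hp0.le]
    have : (-(1 / 2) : ℝ) * ((2 : ℕ) : ℝ) = -1 := by norm_num
    rw [this, Real.rpow_neg_one, one_div]
  have h4 : ((p : ℝ) ^ (-(1 / 2) : ℝ)) ^ 4 = (p : ℝ) ^ (-2 : ℝ) := by
    rw [← Real.rpow_natCast, ← Real.rpow_mul hp0.le]
    have : (-(1 / 2) : ℝ) * ((4 : ℕ) : ℝ) = -2 := by norm_num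
    rw [this]
  refine ⟨h0, ?_, h2, h4⟩
  have h5 : 1 / (p : ℝ) ≤ 1 / 2 := one_div_le_one_div_of_le (by norm_num) hp2
  nlinarith

private theorem R3_PX (R : Finset ℕ) (hR : ∀ p ∈ R, p.Prime) (w : Om) :
    PX R 0 w = ∑ p ∈ R, (((p : ℝ) ^ (-(1 / 2) : ℝ) : ℝ) : ℂ) * X p w := by
  rw [PX_eq R hR]
  refine Finset.sum_congr rfl fun p _ => ?_
  rw [Complex.ofReal_cpow (Nat.cast_nonneg p)]
  congr 2
  push_cast
  ring

private theorem R3_circ : Continuous fun x : UnitAddCircle => (AddCircle.toCircle x : ℂ) :=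
  continuous_subtype_val.comp AddCircle.continuous_toCircle

private theorem R3_prod (R : Finset ℕ) (b : ℕ → ℂ) (al : ℝ) (hR : ∀ p ∈ R, p.Prime) (w : Om) :
    ‖Zt R (1 / 2) w‖ ^ 2 * (∏ p ∈ R, ‖1 - b p * X p w‖ ^ 2) *
      Real.exp (2 * (al * (PX R 0 w).re)) =
    ∏ p ∈ R, (‖(1 - (((p : ℝ) ^ (-(1 / 2) : ℝ) : ℝ) : ℂ) * (AddCircle.toCircle (w p) : ℂ))⁻¹‖ ^ 2 *
      ‖1 - b p * (AddCircle.toCircle (w p) : ℂ)‖ ^ 2 *
      Real.exp (2 * (al * (p : ℝ) ^ (-(1 / 2) : ℝ) * (AddCircle.toCircle (w p) : ℂ).re))) := by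
  rw [Finset.prod_mul_distrib, Finset.prod_mul_distrib]
  have h1 : ‖Zt R (1 / 2) w‖ ^ 2 =
      ∏ p ∈ R, ‖(1 - (((p : ℝ) ^ (-(1 / 2) : ℝ) : ℝ) : ℂ) *
        (AddCircle.toCircle (w p) : ℂ))⁻¹‖ ^ 2 := by
    unfold Zt
    rw [norm_prod, ← Finset.prod_pow]
    rfl
  have h2 : Real.exp (2 * (al * (PX R 0 w).re)) =
      ∏ p ∈ R, Real.exp (2 * (al * (p : ℝ) ^ (-(1 / 2) : ℝ) *
        (AddCircle.toCircle (w p) : ℂ).re)) := by
    rw [← Real.exp_sum, R3_PX R hR, Complex.re_sum, Finset.mul_sum, Finset.mul_sum]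
    congr 1
    refine Finset.sum_congr rfl fun p _ => ?_
    rw [Complex.re_ofReal_mul]
    change 2 * (al * ((p : ℝ) ^ (-(1 / 2) : ℝ) * (AddCircle.toCircle (w p) : ℂ).re)) = _
    ring
  rw [h1, h2]
  rfl

private theorem R3_inv (z : ℂ) (hz : ‖z‖ ≤ 3 / 4) :
    ‖(1 - z)⁻¹‖ ^ 2 ≤ Real.exp (2 * z.re + 72 * ‖z‖ ^ 2) := by
  have h1 : ‖1 - z‖ ^ 2 = 1 - 2 * z.re + ‖z‖ ^ 2 := by
    rw [← Complex.normSq_eq_norm_sq, ← Complex.normSq_eq_norm_sq, Complex.normSq_apply,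
      Complex.normSq_apply]
    simp only [Complex.sub_re, Complex.one_re, Complex.sub_im, Complex.one_im]
    ring
  have hr0 := norm_nonneg z
  have ha := abs_le.mp (Complex.abs_re_le_norm z)
  rw [norm_inv, inv_pow, h1]
  set r := ‖z‖ with hr
  set a := z.re with haa
  have hy : 1 / 16 ≤ 1 - 2 * a + r ^ 2 := by nlinarith
  have hy0 : 0 < 1 - 2 * a + r ^ 2 := by linarith
  have h2 := Real.add_one_le_exp ((1 - 2 * a + r ^ 2)⁻¹ - 1)
  rw [sub_add_cancel] at h2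
  refine h2.trans (Real.exp_le_exp.mpr ?_)
  rw [sub_le_iff_le_add, inv_eq_one_div, div_le_iff₀ hy0]
  have h3 : a ^ 2 ≤ r ^ 2 := sq_le_sq' ha.1 ha.2
  have h4 : (0 : ℝ) ≤ r ^ 2 := sq_nonneg r
  have h5 : 72 * r ^ 2 * (1 / 16) ≤ 72 * r ^ 2 * (1 - 2 * a + r ^ 2) :=
    mul_le_mul_of_nonneg_left hy (by positivity)
  nlinarith [mul_nonneg h4 (by linarith : (0 : ℝ) ≤ 3 / 4 - a)]

private theorem R3_lin (z : ℂ) :
    ‖1 - z‖ ^ 2 ≤ Real.exp (-(2 * z.re) + ‖z‖ ^ 2) := by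
  have h1 : ‖1 - z‖ ^ 2 = 1 - 2 * z.re + ‖z‖ ^ 2 := by
    rw [← Complex.normSq_eq_norm_sq, ← Complex.normSq_eq_norm_sq, Complex.normSq_apply,
      Complex.normSq_apply]
    simp only [Complex.sub_re, Complex.one_re, Complex.sub_im, Complex.one_im]
    ring
  have h2 := Real.add_one_le_exp (-(2 * z.re) + ‖z‖ ^ 2)
  rw [h1]
  linarith

private theorem R3_contG (R : Finset ℕ) (b : ℕ → ℂ) (hR : ∀ p ∈ R, p.Prime) :
    Continuous fun w => ‖Zt R (1 / 2) w‖ ^ 2 * (∏ p ∈ R, ‖1 - b p * X p w‖ ^ 2) := by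
  refine ((continuous_norm.comp (continuous_Zt R hR (by norm_num))).pow 2).mul ?_
  refine continuous_finsetProd _ fun p _ => ?_
  exact (continuous_norm.comp (continuous_const.sub (continuous_const.mul (continuous_X p)))).pow 2

private theorem R3_bound (R : Finset ℕ) (b : ℕ → ℂ) (hR : ∀ p ∈ R, p.Prime)
    (hb : ∀ p ∈ R, ‖b p‖ ≤ (p : ℝ) ^ (-(1 / 2) : ℝ)) (w : Om) :
    ‖Zt R (1 / 2) w‖ ^ 2 * (∏ p ∈ R, ‖1 - b p * X p w‖ ^ 2) ≤
      Real.exp ((∑ p ∈ R, (2 * ((((p : ℝ) ^ (-(1 / 2) : ℝ) : ℝ) : ℂ) - b p)) * X p w).re +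
        73 * sR R) := by
  have h1 : ‖Zt R (1 / 2) w‖ ^ 2 * (∏ p ∈ R, ‖1 - b p * X p w‖ ^ 2) =
      ∏ p ∈ R, (‖(1 - (((p : ℝ) ^ (-(1 / 2) : ℝ) : ℝ) : ℂ) * X p w)⁻¹‖ ^ 2 *
        ‖1 - b p * X p w‖ ^ 2) := by
    rw [Finset.prod_mul_distrib]
    congr 1
    unfold Zt
    rw [norm_prod, ← Finset.prod_pow]
  rw [h1]
  have h2 : (∑ p ∈ R, (2 * ((((p : ℝ) ^ (-(1 / 2) : ℝ) : ℝ) : ℂ) - b p)) * X p w).re +
        73 * sR R = ∑ p ∈ R, (((2 * ((((p : ℝ) ^ (-(1 / 2) : ℝ) : ℝ) : ℂ) - b p)) * X p w).re +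
          73 * (1 / (p : ℝ))) := by
    rw [Complex.re_sum, Finset.sum_add_distrib, sR, Finset.mul_sum]
  rw [h2, Real.exp_sum]
  refine Finset.prod_le_prod (fun p _ => by positivity) fun p hp => ?_
  obtain ⟨hu0, hu1, hu2, -⟩ := R3_u (hR p hp)
  set u := (p : ℝ) ^ (-(1 / 2) : ℝ) with hu
  have hn : ‖(u : ℂ) * X p w‖ = u := by
    rw [norm_mul, norm_X, mul_one, Complex.norm_real, Real.norm_of_nonneg hu0]
  have hn2 : ‖b p * X p w‖ = ‖b p‖ := by
    rw [norm_mul, norm_X, mul_one]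
  have k1 := R3_inv ((u : ℂ) * X p w) (by rw [hn]; exact hu1)
  have k2 := R3_lin (b p * X p w)
  rw [hn] at k1
  rw [hn2] at k2
  refine (mul_le_mul k1 k2 (by positivity) (Real.exp_pos _).le).trans ?_
  rw [← Real.exp_add]
  refine Real.exp_le_exp.mpr ?_
  have h3 : ‖b p‖ ^ 2 ≤ u ^ 2 := pow_le_pow_left₀ (norm_nonneg _) (hb p hp) 2
  have h4 : ((2 * ((u : ℂ) - b p)) * X p w).re =
      2 * ((u : ℂ) * X p w).re - 2 * (b p * X p w).re := by
    have : (2 * ((u : ℂ) - b p)) * X p w =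
      ((2 : ℝ) : ℂ) * ((u : ℂ) * X p w) - ((2 : ℝ) : ℂ) * (b p * X p w) := by
      push_cast; ring
    rw [this, Complex.sub_re, Complex.re_ofReal_mul 2 ((u : ℂ) * X p w),
      Complex.re_ofReal_mul 2 (b p * X p w)]
  rw [h4, ← hu2]
  linarith

private theorem R3_exR (l : ℕ) (al x y : ℝ) (hal : |al| ≤ 1) (hxy : |x| ≤ y) :
    ExR l (al * x) ^ 2 ≤ Real.exp (2 * (al * x)) +
      3 * (2 : ℝ)⁻¹ ^ l * (Real.exp (2 * (al * x)) * Real.exp (6 * y)) := by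
  have h1 := norm_Ex_le_mul l ((al * x : ℝ) : ℂ)
  rw [exR_eq, Complex.norm_real, Complex.norm_exp, Complex.ofReal_re, Complex.norm_real,
    Real.norm_eq_abs, Real.norm_eq_abs] at h1
  have hy0 : 0 ≤ y := (abs_nonneg x).trans hxy
  have h2 : |al * x| ≤ y := by
    rw [abs_mul]
    calc |al| * |x| ≤ 1 * |x| := mul_le_mul_of_nonneg_right hal (abs_nonneg x)
      _ = |x| := one_mul _
      _ ≤ y := hxy
  have h3 : Real.exp (3 * |al * x|) ≤ Real.exp (3 * y) := Real.exp_le_exp.mpr (by linarith)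
  set q : ℝ := (2 : ℝ)⁻¹ ^ l with hq
  have hq0 : 0 < q := by positivity
  have hq1 : q ≤ 1 := pow_le_one₀ (by norm_num) (by norm_num)
  set E := Real.exp (al * x) with hE
  set Y := Real.exp (3 * y) with hY
  have hE0 : 0 < E := Real.exp_pos _
  have hY1 : 1 ≤ Y := Real.one_le_exp (by linarith)
  have e1 : Real.exp (2 * (al * x)) = E ^ 2 := by
    rw [hE, ← Real.exp_nat_mul]; congr 1
  have e2 : Real.exp (6 * y) = Y ^ 2 := by
    rw [hY, ← Real.exp_nat_mul]; congr 1; push_cast; ring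
  rw [e1, e2]
  have h4 : |ExR l (al * x)| ≤ E * (1 + q * Y) := by
    refine h1.trans (mul_le_mul_of_nonneg_left ?_ hE0.le)
    linarith [mul_le_mul_of_nonneg_left h3 hq0.le]
  have h5 : ExR l (al * x) ^ 2 ≤ (E * (1 + q * Y)) ^ 2 := by
    rw [← sq_abs]
    exact pow_le_pow_left₀ (abs_nonneg _) h4 2
  refine h5.trans ?_
  have h6 : (1 + q * Y) ^ 2 ≤ 1 + 3 * q * Y ^ 2 := by
    have a1 : q * Y ≤ q * Y ^ 2 := by
      apply mul_le_mul_of_nonneg_left _ hq0.le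
      nlinarith
    have a2 : q ^ 2 * Y ^ 2 ≤ q * Y ^ 2 := by
      apply mul_le_mul_of_nonneg_right _ (by positivity)
      nlinarith
    nlinarith
  calc (E * (1 + q * Y)) ^ 2 = E ^ 2 * (1 + q * Y) ^ 2 := by ring
    _ ≤ E ^ 2 * (1 + 3 * q * Y ^ 2) := mul_le_mul_of_nonneg_left h6 (by positivity)
    _ = _ := by ring

theorem main_block : ∃ C : ℝ, 0 ≤ C ∧ ∀ (R : Finset ℕ) (b : ℕ → ℂ) (al : ℝ), (∀ p ∈ R, p.Prime) →
    (∀ p ∈ R, ‖b p‖ ≤ (p : ℝ) ^ (-(1 / 2) : ℝ)) → |al| ≤ 1 →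
    ∫ w, ‖Zt R (1 / 2) w‖ ^ 2 * (∏ p ∈ R, ‖1 - b p * X p w‖ ^ 2) *
      Real.exp (2 * (al * (PX R 0 w).re)) ∂mu ≤
    Real.exp (∑ p ∈ R, ‖((((1 + al) * (p : ℝ) ^ (-(1 / 2) : ℝ) : ℝ)) : ℂ) - b p‖ ^ 2 +
      C * ∑ p ∈ R, (p : ℝ) ^ (-2 : ℝ)) := by
  obtain ⟨C, hC0, hC⟩ := one_prime_b
  refine ⟨C, hC0, fun R b al hR hb hal => ?_⟩
  simp_rw [R3_prod R b al hR]
  rw [indep_primes (𝕜 := ℝ) R (fun p x =>
    ‖(1 - (((p : ℝ) ^ (-(1 / 2) : ℝ) : ℝ) : ℂ) * (AddCircle.toCircle x : ℂ))⁻¹‖ ^ 2 *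
      ‖1 - b p * (AddCircle.toCircle x : ℂ)‖ ^ 2 *
      Real.exp (2 * (al * (p : ℝ) ^ (-(1 / 2) : ℝ) * (AddCircle.toCircle x : ℂ).re)))
    (fun p _ => by
      have hm := R3_circ.measurable
      refine Measurable.mul (Measurable.mul ?_ ?_) ?_
      · exact ((measurable_const.sub (measurable_const.mul hm)).inv).norm.pow_const 2
      · exact (measurable_const.sub (measurable_const.mul hm)).norm.pow_const 2
      · exact Real.measurable_exp.comp (measurable_const.mul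
          (measurable_const.mul (Complex.measurable_re.comp hm))))]
  have hle : ∀ p ∈ R, ∫ x, ‖(1 - (((p : ℝ) ^ (-(1 / 2) : ℝ) : ℝ) : ℂ) *
      (AddCircle.toCircle x : ℂ))⁻¹‖ ^ 2 * ‖1 - b p * (AddCircle.toCircle x : ℂ)‖ ^ 2 *
      Real.exp (2 * (al * (p : ℝ) ^ (-(1 / 2) : ℝ) * (AddCircle.toCircle x : ℂ).re))
      ∂(AddCircle.haarAddCircle : Measure UnitAddCircle) ≤
      Real.exp (‖(((1 + al) * (p : ℝ) ^ (-(1 / 2) : ℝ) : ℝ) : ℂ) - b p‖ ^ 2 +
        C * ((p : ℝ) ^ (-(1 / 2) : ℝ)) ^ 4) := fun p hp =>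
    hC _ al (b p) (R3_u (hR p hp)).1 (R3_u (hR p hp)).2.1 hal (hb p hp)
  refine (Finset.prod_le_prod (fun p _ => integral_nonneg fun x => by positivity) hle).trans ?_
  rw [← Real.exp_sum]
  refine Real.exp_le_exp.mpr (le_of_eq ?_)
  rw [Finset.sum_add_distrib, Finset.mul_sum]
  congr 1
  exact Finset.sum_congr rfl fun p hp => by rw [(R3_u (hR p hp)).2.2.2]

theorem block_b : ∃ C : ℝ, 0 ≤ C ∧ ∀ (R : Finset ℕ) (b : ℕ → ℂ) (al : ℝ) (l : ℕ), (∀ p ∈ R, p.Prime) →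
    (∀ p ∈ R, ‖b p‖ ≤ (p : ℝ) ^ (-(1 / 2) : ℝ)) → |al| ≤ 1 →
    ∫ w, ‖Zt R (1 / 2) w‖ ^ 2 * (∏ p ∈ R, ‖1 - b p * X p w‖ ^ 2) *
      ExR l (al * (PX R 0 w).re) ^ 2 ∂mu ≤
    Real.exp (∑ p ∈ R, ‖((((1 + al) * (p : ℝ) ^ (-(1 / 2) : ℝ) : ℝ)) : ℂ) - b p‖ ^ 2 +
      C * ∑ p ∈ R, (p : ℝ) ^ (-2 : ℝ)) * (1 + (2 : ℝ)⁻¹ ^ l * Real.exp (C * (sR R + 1))) := by
  obtain ⟨C1, hC10, hC1⟩ := main_block
  obtain ⟨C2, hC20, hC2⟩ := exp_moment 16 (by norm_num)
  refine ⟨C1 + (137 + C2), by positivity, fun R b al l hR hb hal => ?_⟩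
  have hmain := hC1 R b al hR hb hal
  have hmom := hC2 R 0 hR (fun p _ => by simp)
  have hs0 : 0 ≤ sR R := Finset.sum_nonneg fun p _ => by positivity
  set G : Om → ℝ := fun w => ‖Zt R (1 / 2) w‖ ^ 2 * (∏ p ∈ R, ‖1 - b p * X p w‖ ^ 2) with hG
  have hGc : Continuous G := R3_contG R b hR
  have hG0 : ∀ w, 0 ≤ G w := fun w => by
    simp only [hG]
    exact mul_nonneg (by positivity) (Finset.prod_nonneg fun p _ => by positivity)
  have hPc : Continuous fun w => (PX R 0 w).re :=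
    Complex.continuous_re.comp (continuous_PX R 0)
  have hEc : Continuous fun w => Real.exp (2 * (al * (PX R 0 w).re)) :=
    Real.continuous_exp.comp (continuous_const.mul (continuous_const.mul hPc))
  have hNc : Continuous fun w => Real.exp (6 * ‖PX R 0 w‖) :=
    Real.continuous_exp.comp (continuous_const.mul (continuous_norm.comp (continuous_PX R 0)))
  have hN16 : Continuous fun w => Real.exp (16 * ‖PX R 0 w‖) :=
    Real.continuous_exp.comp (continuous_const.mul (continuous_norm.comp (continuous_PX R 0)))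
  have hXc : Continuous fun w => ExR l (al * (PX R 0 w).re) ^ 2 :=
    ((continuous_exR l).comp (continuous_const.mul hPc)).pow 2
  set a : ℕ → ℂ := fun p => 4 * ((((p : ℝ) ^ (-(1 / 2) : ℝ) : ℝ) : ℂ) - b p) with ha
  have hLc : Continuous fun w => Real.exp ((∑ p ∈ R, a p * X p w).re) :=
    Real.continuous_exp.comp (Complex.continuous_re.comp
      (continuous_finsetSum _ fun p _ => continuous_const.mul (continuous_X p)))
  -- the second term
  have hsec : ∫ w, G w * (Real.exp (2 * (al * (PX R 0 w).re)) * Real.exp (6 * ‖PX R 0 w‖)) ∂mu ≤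
      5 / 2 * Real.exp ((137 + C2) * sR R) := by
    have hpt : ∀ w, G w * (Real.exp (2 * (al * (PX R 0 w).re)) * Real.exp (6 * ‖PX R 0 w‖)) ≤
        Real.exp (73 * sR R) * (1 / 2 * (Real.exp ((∑ p ∈ R, a p * X p w).re) +
          Real.exp (16 * ‖PX R 0 w‖))) := by
      intro w
      have b1 := R3_bound R b hR hb w
      rw [Real.exp_add] at b1
      set L := (∑ p ∈ R, (2 * ((((p : ℝ) ^ (-(1 / 2) : ℝ) : ℝ) : ℂ) - b p)) * X p w).re with hL
      have hL2 : (∑ p ∈ R, a p * X p w).re = L + L := by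
        have : ∑ p ∈ R, a p * X p w = ((2 : ℝ) : ℂ) * (∑ p ∈ R,
            (2 * ((((p : ℝ) ^ (-(1 / 2) : ℝ) : ℝ) : ℂ) - b p)) * X p w) := by
          rw [Finset.mul_sum]
          refine Finset.sum_congr rfl fun p _ => ?_
          simp only [ha]
          push_cast
          ring
        rw [this, Complex.re_ofReal_mul, hL]
        ring
      rw [hL2, Real.exp_add]
      have b2 : Real.exp (2 * (al * (PX R 0 w).re)) * Real.exp (6 * ‖PX R 0 w‖) ≤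
          Real.exp (8 * ‖PX R 0 w‖) := by
        rw [← Real.exp_add]
        refine Real.exp_le_exp.mpr ?_
        have c1 : al * (PX R 0 w).re ≤ ‖PX R 0 w‖ := by
          calc al * (PX R 0 w).re ≤ |al * (PX R 0 w).re| := le_abs_self _
            _ = |al| * |(PX R 0 w).re| := abs_mul _ _
            _ ≤ 1 * ‖PX R 0 w‖ := mul_le_mul hal (Complex.abs_re_le_norm _)
                (abs_nonneg _) (by norm_num)
            _ = ‖PX R 0 w‖ := one_mul _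
        linarith
      have e16 : Real.exp (16 * ‖PX R 0 w‖) =
          Real.exp (8 * ‖PX R 0 w‖) * Real.exp (8 * ‖PX R 0 w‖) := by
        rw [← Real.exp_add]; congr 1; ring
      rw [e16]
      have p1 : 0 < Real.exp L := Real.exp_pos _
      have p2 : 0 < Real.exp (8 * ‖PX R 0 w‖) := Real.exp_pos _
      have p3 : 0 < Real.exp (73 * sR R) := Real.exp_pos _
      calc G w * (Real.exp (2 * (al * (PX R 0 w).re)) * Real.exp (6 * ‖PX R 0 w‖))
          ≤ (Real.exp L * Real.exp (73 * sR R)) * Real.exp (8 * ‖PX R 0 w‖) :=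
            mul_le_mul b1 b2 (by positivity) (by positivity)
        _ = Real.exp (73 * sR R) * (Real.exp L * Real.exp (8 * ‖PX R 0 w‖)) := by ring
        _ ≤ _ := by
          apply mul_le_mul_of_nonneg_left _ p3.le
          nlinarith [sq_nonneg (Real.exp L - Real.exp (8 * ‖PX R 0 w‖))]
    have hint : ∫ w, G w * (Real.exp (2 * (al * (PX R 0 w).re)) *
        Real.exp (6 * ‖PX R 0 w‖)) ∂mu ≤
        ∫ w, Real.exp (73 * sR R) * (1 / 2 * (Real.exp ((∑ p ∈ R, a p * X p w).re) +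
          Real.exp (16 * ‖PX R 0 w‖))) ∂mu :=
      integral_mono (integrable_of_continuous (hGc.mul (hEc.mul hNc)))
        (integrable_of_continuous (continuous_const.mul (continuous_const.mul
          (hLc.add hN16)))) hpt
    refine hint.trans ?_
    rw [integral_const_mul, integral_const_mul, integral_add (integrable_of_continuous hLc)
      (integrable_of_continuous hN16)]
    have hl := lin_exp R a
    have hl2 : ∑ p ∈ R, ‖a p‖ ^ 2 ≤ 64 * sR R := by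
      rw [sR, Finset.mul_sum]
      refine Finset.sum_le_sum fun p hp => ?_
      obtain ⟨hu0, hu1, hu2, -⟩ := R3_u (hR p hp)
      simp only [ha]
      rw [norm_mul, Complex.norm_ofNat, ← hu2]
      have c1 : ‖(((p : ℝ) ^ (-(1 / 2) : ℝ) : ℝ) : ℂ) - b p‖ ≤
          2 * (p : ℝ) ^ (-(1 / 2) : ℝ) := by
        refine (norm_sub_le _ _).trans ?_
        rw [Complex.norm_real, Real.norm_of_nonneg hu0]
        linarith [hb p hp]
      have c2 : (4 * ‖(((p : ℝ) ^ (-(1 / 2) : ℝ) : ℝ) : ℂ) - b p‖) ^ 2 ≤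
          (4 * (2 * (p : ℝ) ^ (-(1 / 2) : ℝ))) ^ 2 :=
        pow_le_pow_left₀ (by positivity) (by linarith) 2
      refine c2.trans (le_of_eq ?_)
      ring
    have hl3 : ∫ w, Real.exp ((∑ p ∈ R, a p * X p w).re) ∂mu ≤
        Real.exp ((64 + C2) * sR R) := by
      refine hl.trans (Real.exp_le_exp.mpr (hl2.trans ?_))
      nlinarith [mul_nonneg hC20 hs0]
    have hm3 : ∫ w, Real.exp (16 * ‖PX R 0 w‖) ∂mu ≤ 4 * Real.exp ((64 + C2) * sR R) := by
      refine hmom.trans (mul_le_mul_of_nonneg_left (Real.exp_le_exp.mpr ?_) (by norm_num))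
      nlinarith [hs0]
    have he : Real.exp ((137 + C2) * sR R) =
        Real.exp (73 * sR R) * Real.exp ((64 + C2) * sR R) := by
      rw [← Real.exp_add]; congr 1; ring
    rw [he]
    have p3 : 0 < Real.exp (73 * sR R) := Real.exp_pos _
    calc Real.exp (73 * sR R) * (1 / 2 * (∫ w, Real.exp ((∑ p ∈ R, a p * X p w).re) ∂mu +
          ∫ w, Real.exp (16 * ‖PX R 0 w‖) ∂mu))
        ≤ Real.exp (73 * sR R) * (5 / 2 * Real.exp ((64 + C2) * sR R)) := by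
          apply mul_le_mul_of_nonneg_left _ p3.le
          linarith
      _ = _ := by ring
  -- the sum
  have htot : ∫ w, G w * ExR l (al * (PX R 0 w).re) ^ 2 ∂mu ≤
      ∫ w, G w * Real.exp (2 * (al * (PX R 0 w).re)) ∂mu + 3 * (2 : ℝ)⁻¹ ^ l *
        ∫ w, G w * (Real.exp (2 * (al * (PX R 0 w).re)) * Real.exp (6 * ‖PX R 0 w‖)) ∂mu := by
    have i1 : Integrable (fun w => G w * Real.exp (2 * (al * (PX R 0 w).re))) mu :=
      integrable_of_continuous (hGc.mul hEc)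
    have i2 : Integrable (fun w => 3 * (2 : ℝ)⁻¹ ^ l *
        (G w * (Real.exp (2 * (al * (PX R 0 w).re)) * Real.exp (6 * ‖PX R 0 w‖)))) mu :=
      integrable_of_continuous (continuous_const.mul (hGc.mul (hEc.mul hNc)))
    rw [← integral_const_mul, ← integral_add i1 i2]
    refine integral_mono (integrable_of_continuous (hGc.mul hXc))
      (integrable_of_continuous ((hGc.mul hEc).add (continuous_const.mul
        (hGc.mul (hEc.mul hNc))))) fun w => ?_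
    have b1 := R3_exR l al (PX R 0 w).re ‖PX R 0 w‖ hal (Complex.abs_re_le_norm _)
    have b2 := mul_le_mul_of_nonneg_left b1 (hG0 w)
    simp only
    linarith
  refine htot.trans ?_
  set q : ℝ := (2 : ℝ)⁻¹ ^ l with hq
  have hq0 : 0 < q := by positivity
  set S : ℝ := ∑ p ∈ R, ‖((((1 + al) * (p : ℝ) ^ (-(1 / 2) : ℝ) : ℝ)) : ℂ) - b p‖ ^ 2 with hS
  set V : ℝ := ∑ p ∈ R, (p : ℝ) ^ (-2 : ℝ) with hV
  have hS0 : 0 ≤ S := Finset.sum_nonneg fun p _ => by positivity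
  have hV0 : 0 ≤ V := Finset.sum_nonneg fun p _ => Real.rpow_nonneg (Nat.cast_nonneg p) _
  have k1 : Real.exp (S + C1 * V) ≤ Real.exp (S + (C1 + (137 + C2)) * V) := by
    refine Real.exp_le_exp.mpr ?_
    nlinarith [mul_nonneg (by positivity : (0 : ℝ) ≤ 137 + C2) hV0]
  have k2 : 1 ≤ Real.exp (S + (C1 + (137 + C2)) * V) := by
    refine Real.one_le_exp ?_
    have := mul_nonneg (by positivity : (0 : ℝ) ≤ C1 + (137 + C2)) hV0
    linarith
  have k3 : 15 / 2 * Real.exp ((137 + C2) * sR R) ≤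
      Real.exp ((C1 + (137 + C2)) * (sR R + 1)) := by
    have c1 : (15 / 2 : ℝ) ≤ Real.exp (137 : ℝ) := by
      have := Real.add_one_le_exp (137 : ℝ)
      linarith
    have c2 : Real.exp ((C1 + (137 + C2)) * (sR R + 1)) =
        Real.exp (137 : ℝ) * Real.exp ((C1 + (137 + C2)) * (sR R + 1) - 137) := by
      rw [← Real.exp_add]; congr 1; ring
    rw [c2]
    refine mul_le_mul c1 (Real.exp_le_exp.mpr ?_) (Real.exp_pos _).le (Real.exp_pos _).le
    nlinarith [mul_nonneg hC10 hs0]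
  set W := Real.exp ((C1 + (137 + C2)) * (sR R + 1)) with hW
  have hW0 : 0 < W := Real.exp_pos _
  set M := Real.exp (S + (C1 + (137 + C2)) * V) with hM
  have k4 : 3 * q * ∫ w, G w * (Real.exp (2 * (al * (PX R 0 w).re)) *
      Real.exp (6 * ‖PX R 0 w‖)) ∂mu ≤ q * W := by
    calc 3 * q * ∫ w, G w * (Real.exp (2 * (al * (PX R 0 w).re)) *
          Real.exp (6 * ‖PX R 0 w‖)) ∂mu
        ≤ 3 * q * (5 / 2 * Real.exp ((137 + C2) * sR R)) :=
          mul_le_mul_of_nonneg_left hsec (by positivity)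
      _ = q * (15 / 2 * Real.exp ((137 + C2) * sR R)) := by ring
      _ ≤ q * W := mul_le_mul_of_nonneg_left k3 hq0.le
  have k5 : q * W ≤ M * (q * W) := by
    nlinarith [mul_pos hq0 hW0]
  calc ∫ w, G w * Real.exp (2 * (al * (PX R 0 w).re)) ∂mu + 3 * q *
        ∫ w, G w * (Real.exp (2 * (al * (PX R 0 w).re)) * Real.exp (6 * ‖PX R 0 w‖)) ∂mu
      ≤ M + M * (q * W) := add_le_add (hmain.trans k1) (k4.trans k5)
    _ = M * (1 + q * W) := by ring

end Pool.Agent.UH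
end
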