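import Pool.Agent.Lib.MP_69b2e4_nt.UH.R7
import Pool.Agent.Lib.MP_69b2e4_nt.Mg.G003
import Pool.Agent.Lib.MP_69b2e4_nt.Mg.G008
import Pool.Agent.Lib.MP_69b2e4_nt.Mg.G017
import Pool.Agent.Lib.MP_69b2e4_nt.Mg.G015
import Pool.Agent.Lib.MP_69b2e4_nt.Mg.G016

section

/-! TASK R8. The expectation (b). `Mo_eq` (F2) for `y = yT T = T^{79/500} ≥ 2`, `M = M1 T ≥ T^{1/5} ≥ y` (`T ≥ T0`), with the `φ` of `fourier_kernel`. Cauchy-Schwarz: `‖∫ φ g‖² ≤ (∫ ‖φ‖)(∫ ‖φ‖ ‖g‖²)` for continuous bounded `g`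
(`g(ξ) = ∏ (1 - bx X_p)`, `‖g‖ ≤ 2^{#primes}`). Multiply by `‖Zt‖² Wp² ≥ 0`, integrate over `w` and exchange the integrals (the integrand is continuous in `(w, ξ)` and bounded by a constant times `‖φ(ξ)‖`; `mu` is a probability measure; `integral_integral_swap` or `lintegral` and Tonelli):
`E[‖Zt‖² ‖Mo‖² Wp²] ≤ (∫‖φ‖) ∫ ‖φ(ξ)‖ K (1+|ξ|)^8 (log T)^{lam²} dξ` by `exp_xi`. `‖φ‖` is integrable since `(1+|ξ|)^8 ≥ 1`. -/

set_option autoImplicit false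

namespace Pool.Agent.UH

open Complex MeasureTheory Finset Pool.Agent.GH
open scoped Real ComplexConjugate

private lemma R8_cs {φ g : ℝ → ℂ} (hφ : Continuous φ) (hi : Integrable (fun ξ => ‖φ ξ‖))
    (hg : Continuous g) {B : ℝ} (hB : ∀ ξ, ‖g ξ‖ ≤ B) :
    ‖∫ ξ, φ ξ * g ξ‖ ^ 2 ≤ (∫ ξ, ‖φ ξ‖) * ∫ ξ, ‖φ ξ‖ * ‖g ξ‖ ^ 2 := by
  have hB0 : 0 ≤ B := (norm_nonneg _).trans (hB 0)
  have i1 : Integrable (fun ξ => ‖φ ξ‖ * ‖g ξ‖) := by
    refine (hi.mul_const B).mono' (by fun_prop) (Filter.Eventually.of_forall fun ξ => ?_)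
    rw [Real.norm_of_nonneg (by positivity)]
    exact mul_le_mul_of_nonneg_left (hB ξ) (norm_nonneg _)
  have i2 : Integrable (fun ξ => ‖φ ξ‖ * ‖g ξ‖ ^ 2) := by
    refine (hi.mul_const (B ^ 2)).mono' (by fun_prop) (Filter.Eventually.of_forall fun ξ => ?_)
    rw [Real.norm_of_nonneg (by positivity)]
    exact mul_le_mul_of_nonneg_left (pow_le_pow_left₀ (norm_nonneg _) (hB ξ) 2) (norm_nonneg _)
  have h1 : ‖∫ ξ, φ ξ * g ξ‖ ≤ ∫ ξ, ‖φ ξ‖ * ‖g ξ‖ := by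
    refine (norm_integral_le_integral_norm _).trans (le_of_eq ?_)
    simp only [norm_mul]
  have h2 : ∀ t : ℝ, 0 ≤ (∫ ξ, ‖φ ξ‖) * (t * t) + (-(2 * ∫ ξ, ‖φ ξ‖ * ‖g ξ‖)) * t +
      ∫ ξ, ‖φ ξ‖ * ‖g ξ‖ ^ 2 := by
    intro t
    have h3 : 0 ≤ ∫ ξ, ‖φ ξ‖ * (t - ‖g ξ‖) ^ 2 :=
      integral_nonneg fun ξ => by positivity
    have h4 : ∫ ξ, ‖φ ξ‖ * (t - ‖g ξ‖) ^ 2 =
        ∫ ξ, (‖φ ξ‖ * (t * t) - (2 * t) * (‖φ ξ‖ * ‖g ξ‖) + ‖φ ξ‖ * ‖g ξ‖ ^ 2) := by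
      congr 1
      funext ξ
      ring
    have e1 : Integrable (fun ξ => ‖φ ξ‖ * (t * t) - (2 * t) * (‖φ ξ‖ * ‖g ξ‖)) :=
      (hi.mul_const _).sub (i1.const_mul _)
    rw [h4, integral_add e1 i2, integral_sub (hi.mul_const _) (i1.const_mul _),
      integral_mul_const, integral_const_mul] at h3
    linarith
  have h5 := discrim_le_zero h2
  unfold discrim at h5
  have h6 : (∫ ξ, ‖φ ξ‖ * ‖g ξ‖) ^ 2 ≤ (∫ ξ, ‖φ ξ‖) * ∫ ξ, ‖φ ξ‖ * ‖g ξ‖ ^ 2 := by nlinarith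
  exact (pow_le_pow_left₀ (norm_nonneg _) h1 2).trans h6

private lemma R8_bx {y ξ : ℝ} (hy : 1 ≤ y) {p : ℕ} (hp : 1 ≤ p) : ‖bx y ξ p‖ ≤ 1 := by
  unfold bx
  have hp' : (1 : ℝ) ≤ p := by exact_mod_cast hp
  rw [norm_mul, Complex.norm_exp, Complex.norm_real, Real.norm_of_nonneg (by positivity)]
  have h1 : (p : ℝ) ^ (-(1 / 2) : ℝ) ≤ 1 := Real.rpow_le_one_of_one_le_of_nonpos hp' (by norm_num)
  have h2 : Real.exp (-((1 - 2 * π * ξ * I) * ((Real.log p / Real.log y : ℝ) : ℂ))).re ≤ 1 := by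
    rw [Real.exp_le_one_iff]
    have h3 : (-((1 - 2 * π * ξ * I) * ((Real.log p / Real.log y : ℝ) : ℂ))).re =
        -(Real.log p / Real.log y) := by
      rw [Complex.neg_re, Complex.re_mul_ofReal]
      simp
    rw [h3]
    have : 0 ≤ Real.log p / Real.log y := div_nonneg (Real.log_nonneg hp') (Real.log_nonneg hy)
    linarith
  exact mul_le_one₀ h1 (Real.exp_pos _).le h2

private lemma R8_cbx (y : ℝ) (p : ℕ) : Continuous fun ξ : ℝ => bx y ξ p := by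
  unfold bx
  fun_prop

private lemma R8_cW (S : BS) (al : ℝ) (l : ℕ → ℕ) : Continuous fun w : Om => S.W al l (nX 0 w) := by
  unfold BS.W
  refine continuous_finsetProd _ fun j _ => ?_
  have h1 : Continuous fun w : Om => (PS (S.R j) (nX 0 w)).re :=
    Complex.continuous_re.comp (continuous_PX (S.R j) 0)
  unfold ExR
  fun_prop

private lemma R8_main {φ : ℝ → ℂ} (hφ : Continuous φ)
    (hφi : Integrable (fun ξ : ℝ => (1 + |ξ|) ^ 8 * ‖φ ξ‖)) {y : ℝ} (hy : 1 ≤ y) (M : ℕ)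
    {Y : Om → ℝ} (hY : Continuous Y) {E : ℝ}
    (hE : ∀ ξ : ℝ, ∫ w, ‖Zt (Nat.primesBelow M) (1 / 2) w‖ ^ 2 *
      (∏ p ∈ Nat.primesBelow M, ‖1 - bx y ξ p * X p w‖ ^ 2) * Y w ^ 2 ∂mu ≤ E * (1 + |ξ|) ^ 8) :
    ∫ w, ‖Zt (Nat.primesBelow M) (1 / 2) w‖ ^ 2 *
      ‖(∫ ξ : ℝ, φ ξ * ∏ p ∈ Nat.primesBelow M, (1 - bx y ξ p * X p w)) * ((Y w : ℝ) : ℂ)‖ ^ 2 ∂mu ≤
      (∫ ξ, ‖φ ξ‖) * (E * ∫ ξ : ℝ, (1 + |ξ|) ^ 8 * ‖φ ξ‖) := by
  have hi : Integrable (fun ξ => ‖φ ξ‖) := by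
    refine hφi.mono' (by fun_prop) (Filter.Eventually.of_forall fun ξ => ?_)
    rw [Real.norm_of_nonneg (norm_nonneg _)]
    have h1 : (1 : ℝ) ≤ (1 + |ξ|) ^ 8 := one_le_pow₀ (by linarith [abs_nonneg ξ])
    exact le_mul_of_one_le_left (norm_nonneg _) h1
  have hpr : ∀ p ∈ Nat.primesBelow M, p.Prime := fun p hp => (Nat.mem_primesBelow.1 hp).2
  have hcZ := continuous_Zt (Nat.primesBelow M) hpr (σ := 1 / 2) (by norm_num)
  have hfac : ∀ (ξ : ℝ) (w : Om), ∀ p ∈ Nat.primesBelow M, ‖1 - bx y ξ p * X p w‖ ≤ 2 := by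
    intro ξ w p hp
    calc ‖1 - bx y ξ p * X p w‖ ≤ ‖(1 : ℂ)‖ + ‖bx y ξ p * X p w‖ := norm_sub_le _ _
      _ ≤ 1 + 1 := by
        rw [norm_one, norm_mul, norm_X, mul_one]
        linarith [R8_bx (ξ := ξ) hy (hpr p hp).one_le]
      _ = 2 := by norm_num
  set N : ℕ := (Nat.primesBelow M).card with hN
  have hprod : ∀ (ξ : ℝ) (w : Om), ‖∏ p ∈ Nat.primesBelow M, (1 - bx y ξ p * X p w)‖ ≤ 2 ^ N := by
    intro ξ w
    rw [norm_prod, hN, ← Finset.prod_const]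
    exact Finset.prod_le_prod (fun _ _ => norm_nonneg _) (hfac ξ w)
  have hprod2 : ∀ (ξ : ℝ) (w : Om), ∏ p ∈ Nat.primesBelow M, ‖1 - bx y ξ p * X p w‖ ^ 2 =
      ‖∏ p ∈ Nat.primesBelow M, (1 - bx y ξ p * X p w)‖ ^ 2 := by
    intro ξ w
    rw [norm_prod, Finset.prod_pow]
  let F : Om → ℝ → ℝ := fun w ξ => ‖φ ξ‖ * (‖Zt (Nat.primesBelow M) (1 / 2) w‖ ^ 2 *
    (∏ p ∈ Nat.primesBelow M, ‖1 - bx y ξ p * X p w‖ ^ 2) * Y w ^ 2)
  have hF0 : ∀ w ξ, 0 ≤ F w ξ := by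
    intro w ξ
    have h1 : 0 ≤ ∏ p ∈ Nat.primesBelow M, ‖1 - bx y ξ p * X p w‖ ^ 2 :=
      Finset.prod_nonneg fun _ _ => by positivity
    positivity
  have hFc : Continuous (Function.uncurry F) := by
    have h1 : Continuous fun q : Om × ℝ => ∏ p ∈ Nat.primesBelow M,
        ‖1 - bx y q.2 p * X p q.1‖ ^ 2 := by
      refine continuous_finsetProd _ fun p _ => ?_
      have h2 : Continuous fun q : Om × ℝ => bx y q.2 p := (R8_cbx y p).comp continuous_snd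
      have h3 : Continuous fun q : Om × ℝ => X p q.1 := (continuous_X p).comp continuous_fst
      exact ((continuous_const.sub (h2.mul h3)).norm).pow 2
    have h4 : Continuous fun q : Om × ℝ => ‖Zt (Nat.primesBelow M) (1 / 2) q.1‖ ^ 2 :=
      ((hcZ.comp continuous_fst).norm).pow 2
    have h5 : Continuous fun q : Om × ℝ => Y q.1 ^ 2 := (hY.comp continuous_fst).pow 2
    have h6 : Continuous fun q : Om × ℝ => ‖φ q.2‖ := (hφ.comp continuous_snd).norm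
    exact h6.mul ((h4.mul h1).mul h5)
  obtain ⟨B1, hB1⟩ := exists_bound_of_continuous hcZ
  obtain ⟨B2, hB2⟩ := exists_bound_of_continuous hY
  have hFi : Integrable (Function.uncurry F) (mu.prod volume) := by
    have h1 : Integrable (fun q : Om × ℝ => ‖φ q.2‖) (mu.prod volume) := hi.comp_snd mu
    refine (h1.mul_const (B1 ^ 2 * (2 ^ N) ^ 2 * B2 ^ 2)).mono' hFc.aestronglyMeasurable
      (Filter.Eventually.of_forall fun q => ?_)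
    have h0 : 0 ≤ Function.uncurry F q := hF0 q.1 q.2
    rw [Real.norm_of_nonneg h0]
    change ‖φ q.2‖ * (‖Zt (Nat.primesBelow M) (1 / 2) q.1‖ ^ 2 *
      (∏ p ∈ Nat.primesBelow M, ‖1 - bx y q.2 p * X p q.1‖ ^ 2) * Y q.1 ^ 2) ≤ _
    refine mul_le_mul_of_nonneg_left ?_ (norm_nonneg _)
    rw [hprod2]
    have e1 : ‖Zt (Nat.primesBelow M) (1 / 2) q.1‖ ^ 2 ≤ B1 ^ 2 :=
      pow_le_pow_left₀ (norm_nonneg _) (hB1 _) 2
    have e2 : ‖∏ p ∈ Nat.primesBelow M, (1 - bx y q.2 p * X p q.1)‖ ^ 2 ≤ (2 ^ N) ^ 2 :=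
      pow_le_pow_left₀ (norm_nonneg _) (hprod _ _) 2
    have e3 : Y q.1 ^ 2 ≤ B2 ^ 2 := by
      have := hB2 q.1
      rw [Real.norm_eq_abs] at this
      rw [← sq_abs (Y q.1)]
      exact pow_le_pow_left₀ (abs_nonneg _) this 2
    exact mul_le_mul (mul_le_mul e1 e2 (by positivity) (by positivity)) e3 (by positivity)
      (by positivity)
  have hpt : ∀ w, ‖Zt (Nat.primesBelow M) (1 / 2) w‖ ^ 2 *
      ‖(∫ ξ : ℝ, φ ξ * ∏ p ∈ Nat.primesBelow M, (1 - bx y ξ p * X p w)) * ((Y w : ℝ) : ℂ)‖ ^ 2 ≤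
      (∫ ξ, ‖φ ξ‖) * ∫ ξ, F w ξ := by
    intro w
    have hgc : Continuous fun ξ : ℝ => ∏ p ∈ Nat.primesBelow M, (1 - bx y ξ p * X p w) :=
      continuous_finsetProd _ fun p _ => continuous_const.sub ((R8_cbx y p).mul continuous_const)
    have h1 := R8_cs hφ hi hgc (fun ξ => hprod ξ w)
    rw [norm_mul, mul_pow, Complex.norm_real, Real.norm_eq_abs, sq_abs]
    have h2 : ∫ ξ, F w ξ = (‖Zt (Nat.primesBelow M) (1 / 2) w‖ ^ 2 * Y w ^ 2) *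
        ∫ ξ, ‖φ ξ‖ * ‖∏ p ∈ Nat.primesBelow M, (1 - bx y ξ p * X p w)‖ ^ 2 := by
      rw [← integral_const_mul]
      congr 1
      funext ξ
      change ‖φ ξ‖ * (‖Zt (Nat.primesBelow M) (1 / 2) w‖ ^ 2 *
        (∏ p ∈ Nat.primesBelow M, ‖1 - bx y ξ p * X p w‖ ^ 2) * Y w ^ 2) = _
      rw [hprod2]
      ring
    rw [h2]
    have h3 : 0 ≤ ‖Zt (Nat.primesBelow M) (1 / 2) w‖ ^ 2 * Y w ^ 2 := by positivity
    have h4 := mul_le_mul_of_nonneg_left h1 h3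
    calc _ = (‖Zt (Nat.primesBelow M) (1 / 2) w‖ ^ 2 * Y w ^ 2) *
          ‖∫ ξ : ℝ, φ ξ * ∏ p ∈ Nat.primesBelow M, (1 - bx y ξ p * X p w)‖ ^ 2 := by ring
      _ ≤ _ := h4
      _ = _ := by ring
  have hA : 0 ≤ ∫ ξ, ‖φ ξ‖ := integral_nonneg fun ξ => norm_nonneg _
  calc _ ≤ ∫ w, ((∫ ξ, ‖φ ξ‖) * (∫ ξ, F w ξ)) ∂mu := by
        refine integral_mono_of_nonneg (Filter.Eventually.of_forall fun w => ?_)
          (hFi.integral_prod_left.const_mul _) (Filter.Eventually.of_forall hpt)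
        positivity
    _ = (∫ ξ, ‖φ ξ‖) * (∫ w, (∫ ξ, F w ξ) ∂mu) := by rw [integral_const_mul]
    _ = (∫ ξ, ‖φ ξ‖) * (∫ ξ, (∫ w, F w ξ ∂mu)) := by rw [integral_integral_swap hFi]
    _ ≤ (∫ ξ, ‖φ ξ‖) * (∫ ξ : ℝ, E * ((1 + |ξ|) ^ 8 * ‖φ ξ‖)) := by
        refine mul_le_mul_of_nonneg_left ?_ hA
        refine integral_mono_of_nonneg (Filter.Eventually.of_forall fun ξ => ?_)
          (hφi.const_mul _) (Filter.Eventually.of_forall fun ξ => ?_)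
        · exact integral_nonneg fun w => hF0 w ξ
        · change ∫ w, ‖φ ξ‖ * (‖Zt (Nat.primesBelow M) (1 / 2) w‖ ^ 2 *
            (∏ p ∈ Nat.primesBelow M, ‖1 - bx y ξ p * X p w‖ ^ 2) * Y w ^ 2) ∂mu ≤ _
          rw [integral_const_mul]
          have h1 := mul_le_mul_of_nonneg_left (hE ξ) (norm_nonneg (φ ξ))
          linarith
    _ = (∫ ξ, ‖φ ξ‖) * (E * ∫ ξ : ℝ, (1 + |ξ|) ^ 8 * ‖φ ξ‖) := by rw [integral_const_mul]

theorem exp_b : ∃ C0 : ℝ, ∀ D : ℝ, ∃ K T0 : ℝ, 1 ≤ K ∧ ∀ {S : BS} {lam C : ℝ} {N0 : ℕ}, C0 ≤ C →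
    T0 ≤ S.T → BGood S lam C N0 D →
    ∫ w, ‖Zt (Nat.primesBelow (M1 S.T)) (1 / 2) w‖ ^ 2 *
      ‖Mo (yT S.T) (nX 0 w) * ((S.Wp lam (nX 0 w) : ℝ) : ℂ)‖ ^ 2 ∂mu ≤
      K * Real.log S.T ^ (lam ^ 2) := by
  obtain ⟨φ, hφ, hφi, hF⟩ := fourier_kernel
  obtain ⟨C0, hC0⟩ := exp_xi
  refine ⟨C0, fun D => ?_⟩
  obtain ⟨K', T0, hK', hxi⟩ := hC0 D
  set A : ℝ := ∫ ξ, ‖φ ξ‖ with hA
  set A8 : ℝ := ∫ ξ : ℝ, (1 + |ξ|) ^ 8 * ‖φ ξ‖ with hA8
  refine ⟨max 1 (A * (K' * A8)), max T0 128, le_max_left _ _, ?_⟩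
  intro S lam C N0 hC hT hS
  have hT0 : T0 ≤ S.T := (le_max_left _ _).trans hT
  have hT1 : (128 : ℝ) ≤ S.T := (le_max_right _ _).trans hT
  have hTpos : 0 < S.T := by linarith
  have hy : 2 ≤ yT S.T := by
    unfold yT
    calc (2 : ℝ) = (2 ^ (500 / 79 : ℝ)) ^ (79 / 500 : ℝ) := by
          rw [← Real.rpow_mul (by norm_num)]
          norm_num
      _ ≤ S.T ^ (79 / 500 : ℝ) := by
          apply Real.rpow_le_rpow (by positivity) _ (by norm_num)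
          calc (2 : ℝ) ^ (500 / 79 : ℝ) ≤ 2 ^ (7 : ℝ) :=
                Real.rpow_le_rpow_of_exponent_le (by norm_num) (by norm_num)
            _ = 128 := by
                rw [show (7 : ℝ) = ((7 : ℕ) : ℝ) by norm_num, Real.rpow_natCast]
                norm_num
            _ ≤ S.T := hT1
  have hM : yT S.T ≤ (M1 S.T : ℝ) := by
    unfold yT M1 Mof
    have h1 : S.T ^ (79 / 500 : ℝ) ≤ S.T ^ (1 / 5 : ℝ) :=
      Real.rpow_le_rpow_of_exponent_le (by linarith) (by norm_num)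
    have h2 := Nat.lt_floor_add_one (S.T ^ (1 / 5 : ℝ))
    push_cast
    linarith
  have hMo : ∀ w, Mo (yT S.T) (nX 0 w) = ∫ ξ : ℝ, φ ξ *
      ∏ p ∈ Nat.primesBelow (M1 S.T), (1 - bx (yT S.T) ξ p * X p w) :=
    fun w => Mo_eq φ hφ hφi hF hy hM w
  have hL : 0 ≤ Real.log S.T ^ (lam ^ 2) := Real.rpow_nonneg (Real.log_nonneg (by linarith)) _
  have key := R8_main hφ hφi (y := yT S.T) (by linarith) (M1 S.T)
    (Y := fun w => S.Wp lam (nX 0 w)) (R8_cW S lam _) (E := K' * Real.log S.T ^ (lam ^ 2)) (by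
      intro ξ
      have h1 := hxi hC hT0 hS ξ
      linarith)
  calc _ = ∫ w, ‖Zt (Nat.primesBelow (M1 S.T)) (1 / 2) w‖ ^ 2 *
      ‖(∫ ξ : ℝ, φ ξ * ∏ p ∈ Nat.primesBelow (M1 S.T), (1 - bx (yT S.T) ξ p * X p w)) *
        ((S.Wp lam (nX 0 w) : ℝ) : ℂ)‖ ^ 2 ∂mu := by
        congr 1
        funext w
        rw [hMo w]
    _ ≤ A * (K' * Real.log S.T ^ (lam ^ 2) * A8) := key
    _ = A * (K' * A8) * Real.log S.T ^ (lam ^ 2) := by ring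
    _ ≤ _ := mul_le_mul_of_nonneg_right (le_max_right _ _) hL

end Pool.Agent.UH
end

section

/-! TASK A1. The three moments on the critical line. `L = log T ≥ 1`, so `T^{9996/10000} ≤ T ≤ T L^{lam²}`.
(a) `twist` with `g = Wm` (`Wm_dp`, `IsDP2.mono`: `T^{1/4000} ≤ T^{159/1000}, T^{80/1000}`) and `exp_a`. (b) `twist` with `g = Mo · Wp` (`MoWp_dp`) and `exp_b`.
(c) `mean2` with `g = Wp`, `Q = B = T^{1/4000}` (`4 Q² B² ≤ 4 T^{1/1000} ≤ 4T`), `exp_c`; convert the interval integral of the continuous nonnegative function to `∫⁻` over `Icc`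
(`ofReal_integral_eq_lintegral_ofReal`, `continuous_dp2_line`).
(`‖((W : ℝ) : ℂ)‖² = W²`.) `T0` is the maximum of the thresholds; the constant depends on `D`. -/

set_option autoImplicit false

namespace Pool.Agent.UH

open Complex MeasureTheory Finset Pool.Agent.GH
open scoped Real ComplexConjugate

private theorem A1_log {S : BS} {lam C D : ℝ} {N0 : ℕ} (hS : BGood S lam C N0 D) :
    1 ≤ S.T ∧ 1 ≤ Real.log S.T ∧ 1 ≤ Real.log S.T ^ (lam ^ 2) := by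
  have h1 : 1 ≤ Real.log S.T := by
    have := Real.log_le_log (Real.exp_pos 1) hS.T_ge
    rwa [Real.log_exp] at this
  have h2 : 1 ≤ S.T := (Real.one_le_exp (by norm_num)).trans hS.T_ge
  exact ⟨h2, h1, Real.one_le_rpow h1 (by positivity)⟩

private theorem A1_nrm (x : ℝ) : ‖((x : ℝ) : ℂ)‖ ^ 2 = x ^ 2 := by
  rw [Complex.norm_real, Real.norm_eq_abs, sq_abs]

private theorem A1_fin {S : BS} {lam C D : ℝ} {N0 : ℕ} (hS : BGood S lam C N0 D) {A K e : ℝ} (hA : 1 ≤ A)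
    (he : e ≤ K * Real.log S.T ^ (lam ^ 2)) :
    A * (S.T * e + S.T ^ (9996 / 10000 : ℝ)) ≤ A * (K + 1) * (S.T * Real.log S.T ^ (lam ^ 2)) := by
  obtain ⟨h1, -, h3⟩ := A1_log hS
  have h4 : S.T ^ (9996 / 10000 : ℝ) ≤ S.T := by
    calc S.T ^ (9996 / 10000 : ℝ) ≤ S.T ^ (1 : ℝ) := Real.rpow_le_rpow_of_exponent_le h1 (by norm_num)
      _ = S.T := Real.rpow_one _
  have h5 : S.T * e ≤ S.T * (K * Real.log S.T ^ (lam ^ 2)) := mul_le_mul_of_nonneg_left he (by linarith)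
  have h6 : S.T * 1 ≤ S.T * Real.log S.T ^ (lam ^ 2) := mul_le_mul_of_nonneg_left h3 (by linarith)
  have h7 : S.T * e + S.T ^ (9996 / 10000 : ℝ) ≤ (K + 1) * (S.T * Real.log S.T ^ (lam ^ 2)) := by
    linarith
  calc A * (S.T * e + S.T ^ (9996 / 10000 : ℝ)) ≤ A * ((K + 1) * (S.T * Real.log S.T ^ (lam ^ 2))) :=
        mul_le_mul_of_nonneg_left h7 (by linarith)
    _ = _ := by ring

theorem mom_a : ∃ C0 : ℝ, ∀ D : ℝ, ∃ K T0 : ℝ, 1 ≤ K ∧ ∀ {S : BS} {lam C : ℝ} {N0 : ℕ}, C0 ≤ C →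
    T0 ≤ S.T → BGood S lam C N0 D →
    ∫⁻ t in Set.Icc S.T (3 * S.T), ENNReal.ofReal (‖riemannZeta (1 / 2 + t * I)‖ ^ 2 *
      S.Wm lam (nC (1 / 2 + t * I)) ^ 2) ≤ ENNReal.ofReal (K * (S.T * Real.log S.T ^ (lam ^ 2))) := by
  obtain ⟨C0, h⟩ := exp_a
  obtain ⟨A, T0, hA, -, ht⟩ := twist
  refine ⟨C0, fun D => ?_⟩
  obtain ⟨K, hK, hE⟩ := h D
  refine ⟨A * (K + 1), T0, ?_, ?_⟩
  · nlinarith
  · intro S lam C N0 hC hT hS
    obtain ⟨h1, h2, h3⟩ := A1_log hS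
    have hdp := (Wm_dp hS).mono (subset_refl _)
      (Real.rpow_le_rpow_of_exponent_le h1 (by norm_num : (1 / 4000 : ℝ) ≤ 159 / 1000))
      (Real.rpow_le_rpow_of_exponent_le h1 (by norm_num : (1 / 4000 : ℝ) ≤ 80 / 1000))
    have h4 := ht S.T _ hT hdp
    simp only [A1_nrm] at h4
    refine h4.trans (ENNReal.ofReal_le_ofReal ?_)
    exact A1_fin hS hA (hE hC hS)

theorem mom_b : ∃ C0 : ℝ, ∀ D : ℝ, ∃ K T0 : ℝ, 1 ≤ K ∧ ∀ {S : BS} {lam C : ℝ} {N0 : ℕ}, C0 ≤ C →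
    T0 ≤ S.T → BGood S lam C N0 D →
    ∫⁻ t in Set.Icc S.T (3 * S.T), ENNReal.ofReal (‖riemannZeta (1 / 2 + t * I)‖ ^ 2 *
      ‖Mo (yT S.T) (nC (1 / 2 + t * I))‖ ^ 2 * S.Wp lam (nC (1 / 2 + t * I)) ^ 2) ≤
      ENNReal.ofReal (K * (S.T * Real.log S.T ^ (lam ^ 2))) := by
  obtain ⟨C0, h⟩ := exp_b
  obtain ⟨A, T0, hA, -, ht⟩ := twist
  obtain ⟨T1, -, hdp1⟩ := MoWp_dp
  refine ⟨C0, fun D => ?_⟩
  obtain ⟨K, T2, hK, hE⟩ := h D
  refine ⟨A * (K + 1), max (max T0 T1) T2, ?_, ?_⟩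
  · nlinarith
  · intro S lam C N0 hC hT hS
    have hT0 : T0 ≤ S.T := (le_max_left _ _).trans ((le_max_left _ _).trans hT)
    have hT1 : T1 ≤ S.T := (le_max_right _ _).trans ((le_max_left _ _).trans hT)
    have hT2 : T2 ≤ S.T := (le_max_right _ _).trans hT
    have hdp := hdp1 hT1 hS
    have h4 := ht S.T _ hT0 hdp
    have h5 : ∀ t : ℝ, ‖riemannZeta (1 / 2 + t * I)‖ ^ 2 *
        ‖Mo (yT S.T) (nC (1 / 2 + t * I)) * ((S.Wp lam (nC (1 / 2 + t * I)) : ℝ) : ℂ)‖ ^ 2 =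
        ‖riemannZeta (1 / 2 + t * I)‖ ^ 2 *
        ‖Mo (yT S.T) (nC (1 / 2 + t * I))‖ ^ 2 * S.Wp lam (nC (1 / 2 + t * I)) ^ 2 := by
      intro t
      rw [norm_mul, mul_pow, A1_nrm, mul_assoc]
    simp only [h5] at h4
    refine h4.trans (ENNReal.ofReal_le_ofReal ?_)
    exact A1_fin hS hA (hE hC hT2 hS)

theorem mom_c : ∃ C0 : ℝ, ∀ D : ℝ, ∃ K T0 : ℝ, 1 ≤ K ∧ ∀ {S : BS} {lam C : ℝ} {N0 : ℕ}, C0 ≤ C →
    T0 ≤ S.T → BGood S lam C N0 D →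
    ∫⁻ t in Set.Icc S.T (3 * S.T), ENNReal.ofReal (S.Wp lam (nC (1 / 2 + t * I)) ^ 2) ≤
      ENNReal.ofReal (K * (S.T * Real.log S.T ^ (lam ^ 2))) := by
  obtain ⟨C0, h⟩ := exp_c
  refine ⟨C0, fun D => ?_⟩
  obtain ⟨K, hK, hE⟩ := h D
  refine ⟨2 * K + 4, 0, by linarith, ?_⟩
  intro S lam C N0 hC _ hS
  obtain ⟨h1, h2, h3⟩ := A1_log hS
  have hT0 : 0 ≤ S.T := by linarith
  have hTT : S.T ≤ 3 * S.T := by linarith
  have hQ : (1 : ℝ) ≤ S.T ^ (1 / 4000 : ℝ) := Real.one_le_rpow h1 (by norm_num)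
  have h4 := mean2 (Wp_dp hS) hQ hT0
  simp only [A1_nrm] at h4
  have hc : Continuous fun t : ℝ => S.Wp lam (nC (1 / 2 + t * I)) ^ 2 := by
    have h0 : Continuous fun t : ℝ => ‖((S.Wp lam (nC (1 / 2 + t * I)) : ℝ) : ℂ)‖ ^ 2 :=
      (continuous_dp2_line (Wp_dp hS)).norm.pow 2
    simpa only [A1_nrm] using h0
  have h5 : ∫⁻ t in Set.Icc S.T (3 * S.T), ENNReal.ofReal (S.Wp lam (nC (1 / 2 + t * I)) ^ 2) =
      ENNReal.ofReal (∫ t in S.T..(3 * S.T), S.Wp lam (nC (1 / 2 + t * I)) ^ 2) := by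
    rw [intervalIntegral.integral_of_le hTT, ← integral_Icc_eq_integral_Ioc]
    refine (ofReal_integral_eq_lintegral_ofReal ?_ (Filter.Eventually.of_forall fun t => sq_nonneg _)).symm
    exact hc.continuousOn.integrableOn_Icc
  rw [h5]
  refine ENNReal.ofReal_le_ofReal (h4.trans ?_)
  have h6 : (S.T ^ (1 / 4000 : ℝ)) ^ 2 * (S.T ^ (1 / 4000 : ℝ)) ^ 2 ≤ S.T := by
    rw [← Real.rpow_natCast, ← Real.rpow_mul hT0, ← Real.rpow_add (by linarith)]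
    calc S.T ^ ((1 / 4000 : ℝ) * ((2 : ℕ) : ℝ) + (1 / 4000 : ℝ) * ((2 : ℕ) : ℝ)) ≤ S.T ^ (1 : ℝ) :=
          Real.rpow_le_rpow_of_exponent_le h1 (by norm_num)
      _ = S.T := Real.rpow_one _
  have h7 : S.T * (∫ w, S.Wp lam (nX 0 w) ^ 2 ∂mu) ≤ S.T * (K * Real.log S.T ^ (lam ^ 2)) :=
    mul_le_mul_of_nonneg_left (hE hC hS) hT0
  have h8 : S.T * 1 ≤ S.T * Real.log S.T ^ (lam ^ 2) := mul_le_mul_of_nonneg_left h3 hT0
  linarith

end Pool.Agent.UH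
end

section

/-! TASK A1. The moments with zeta on the critical line. `L = log T ≥ 1`, so `T^{1 - κ/4} ≤ T ≤ T L^{lam²}`. `κ := kp N = et N/4 ≤ 1/8`, `twist4` with this `κ` and `A = 1`. `MGW_dp` gives the admissibility of all polynomials (`Gx_one`, `Mx_one` for `i = 0`, `k = 0`). `W2_cj`, `cj_nC_line`: on the line
`W2 S al l' (nC (1/2+ti)) (nC (1/2-ti)) = S.W al l' (nC (1/2+ti))`. `lm lam (S.l j) ≤ S.l j` by `lm_bounds` (`BGood.l_big`), same for `lp`; `|lam - 1| ≤ 1`.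
`mom4_1`: `h = a + iv`, `|a|, |v| ≤ 1/L`. Substitute `t' = t + v ∈ [T, 3T]`: `ζ(1/2+h+it) = ζ(1/2+a+it')` and the weight is `g (nC (1/2+t'i)) (nC (1/2-t'i))` with `g χ χ' = W2 (χ * nC (-iv)) (χ' * nC (iv))` (`IsP2.shift` with purely imaginary shifts: same bounds, `nC_mul_nC`). `twist4` with `a`; the random side is
`W2 (nX (-a) v * nC (-iv)) (cj (nX a v) * nC (iv)) = W2 (nX (-h) v) (cj (nX (conj h) v))` (`nX_mul_nC`, `cj`), bounded by `exp4_1`.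
`mom4_3`: `twist4` with `a = 0` and `g χ χ' = Mx χ * Gx (χ * nC h) * W2 χ χ'` (`nC (1/2+h+ti) = nC (1/2+ti) * nC h`), random side `exp4b_3` (`nX 0 * nC h = nX h`). `mom4_4`: the same with `i = 0`, `k = N` and `exp4b_4`. -/

set_option autoImplicit false

namespace Pool.Agent.UV

open Complex MeasureTheory Finset Pool.Agent.GH Pool.Agent.UH
open scoped Real ComplexConjugate

private theorem A1_log4 {S : BS} {lam C D : ℝ} {N0 : ℕ} (hS : BGood S lam C N0 D) :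
    1 ≤ S.T ∧ 1 ≤ Real.log S.T ∧ 1 ≤ Real.log S.T ^ (lam ^ 2) := by
  have h1 : 1 ≤ Real.log S.T := by
    have := Real.log_le_log (Real.exp_pos 1) hS.T_ge
    rwa [Real.log_exp] at this
  have h2 : 1 ≤ S.T := (Real.one_le_exp (by norm_num)).trans hS.T_ge
  exact ⟨h2, h1, Real.one_le_rpow h1 (by positivity)⟩

private theorem A1_nrm4 (x : ℝ) : ‖((x : ℝ) : ℂ)‖ ^ 2 = x ^ 2 := by
  rw [Complex.norm_real, Real.norm_eq_abs, sq_abs]

private theorem A1_kp {N : ℕ} (hN : 1 ≤ N) : 0 < kp N ∧ kp N ≤ 1 / 8 := by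
  have h0 : (1 : ℝ) ≤ N := by exact_mod_cast hN
  unfold kp et
  constructor
  · positivity
  · rw [div_div, div_le_div_iff₀ (by positivity) (by norm_num)]
    nlinarith

private theorem A1_fin4 {S : BS} {lam C D : ℝ} {N0 N : ℕ} (hN : 1 ≤ N) (hS : BGood S lam C N0 D)
    {A K e : ℝ} (hA : 1 ≤ A) (he : e ≤ K * Real.log S.T ^ (lam ^ 2)) :
    A * (S.T * e + S.T ^ (1 - kp N / 4)) ≤ A * (K + 1) * (S.T * Real.log S.T ^ (lam ^ 2)) := by
  obtain ⟨h1, -, h3⟩ := A1_log4 hS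
  have h4 : S.T ^ (1 - kp N / 4) ≤ S.T := by
    calc S.T ^ (1 - kp N / 4) ≤ S.T ^ (1 : ℝ) :=
          Real.rpow_le_rpow_of_exponent_le h1 (by linarith [(A1_kp hN).1])
      _ = S.T := Real.rpow_one _
  have h5 : S.T * e ≤ S.T * (K * Real.log S.T ^ (lam ^ 2)) := mul_le_mul_of_nonneg_left he (by linarith)
  have h6 : S.T * 1 ≤ S.T * Real.log S.T ^ (lam ^ 2) := mul_le_mul_of_nonneg_left h3 (by linarith)
  have h7 : S.T * e + S.T ^ (1 - kp N / 4) ≤ (K + 1) * (S.T * Real.log S.T ^ (lam ^ 2)) := by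
    linarith
  calc A * (S.T * e + S.T ^ (1 - kp N / 4)) ≤ A * ((K + 1) * (S.T * Real.log S.T ^ (lam ^ 2))) :=
        mul_le_mul_of_nonneg_left h7 (by linarith)
    _ = _ := by ring

private theorem A1_lm {S : BS} {lam C D : ℝ} {N0 : ℕ} (hS : BGood S lam C N0 D) :
    |lam - 1| ≤ 1 ∧ ∀ j ≤ S.J, lm lam (S.l j) ≤ S.l j := by
  refine ⟨?_, fun j hj => (lm_bounds hS.lam_pos hS.lam_lt (hS.l_big j hj).1).2⟩
  rw [abs_le]
  constructor <;> linarith [hS.lam_pos, hS.lam_lt]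

private theorem A1_lp {S : BS} {lam C D : ℝ} {N0 : ℕ} (hS : BGood S lam C N0 D) :
    |lam| ≤ 1 ∧ ∀ j ≤ S.J, lp lam (S.l j) ≤ S.l j := by
  refine ⟨?_, fun j hj => (lp_bounds hS.lam_pos hS.lam_lt (hS.l_big j hj).2).2⟩
  rw [abs_le]
  constructor <;> linarith [hS.lam_pos, hS.lam_lt]

private theorem A1_cj_mul (χ χ' : ℕ →*₀ ℂ) : cj (χ * χ') = cj χ * cj χ' := by
  ext n
  change conj (χ n * χ' n) = conj (χ n) * conj (χ' n)
  exact map_mul _ _ _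

/-- On the line the weight in two characters is the weight. -/
private theorem A1_line (S : BS) (al : ℝ) (l' : ℕ → ℕ) (t : ℝ) :
    W2 S al l' (nC (1 / 2 + t * I)) (nC (1 / 2 - t * I)) =
      ((S.W al l' (nC (1 / 2 + t * I)) : ℝ) : ℂ) := by
  rw [cj_nC_line, W2_cj]

theorem mom4_1 (N : ℕ) (hN : 1 ≤ N) : ∃ C0 : ℝ, ∀ D : ℝ, ∃ K T0 : ℝ, 1 ≤ K ∧
    ∀ {S : BS} {lam C : ℝ} {N0 : ℕ}, C0 ≤ C → T0 ≤ S.T → BG S lam C N0 D (ep N) →
    ∀ h : ℂ, ‖h‖ ≤ 1 / Real.log S.T →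
    ∫⁻ t in Set.Icc (11 * S.T / 10) (29 * S.T / 10), ENNReal.ofReal
      (‖riemannZeta (1 / 2 + t * I + h)‖ ^ 2 * S.Wm lam (nC (1 / 2 + t * I)) ^ 2) ≤
      ENNReal.ofReal (K * (S.T * Real.log S.T ^ (lam ^ 2))) := by
  obtain ⟨C0, h⟩ := exp4_1
  obtain ⟨hk0, hk1⟩ := A1_kp hN
  obtain ⟨A, T0, hA, -, ht⟩ := twist4 hk0 hk1 (zero_le_one (α := ℝ))
  obtain ⟨T1, -, hdp1⟩ := MGW_dp N hN
  refine ⟨C0, fun D => ?_⟩
  obtain ⟨K, T2, hK, hE⟩ := h D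
  refine ⟨A * (K + 1), max (max T0 T1) (max T2 10), ?_, ?_⟩
  · nlinarith
  · intro S lam C N0 hC hT hS hh hhn
    have hT0 : T0 ≤ S.T := (le_max_left _ _).trans ((le_max_left _ _).trans hT)
    have hT1 : T1 ≤ S.T := (le_max_right _ _).trans ((le_max_left _ _).trans hT)
    have hT2 : T2 ≤ S.T := (le_max_left _ _).trans ((le_max_right _ _).trans hT)
    have hT10 : 10 ≤ S.T := (le_max_right _ _).trans ((le_max_right _ _).trans hT)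
    obtain ⟨h1, h2, h3⟩ := A1_log4 hS.1
    obtain ⟨hal, hl'⟩ := A1_lm hS.1
    set a : ℝ := hh.re with ha
    set v : ℝ := hh.im with hv
    have hhv : hh = a + v * I := (Complex.re_add_im hh).symm
    have hL0 : 1 / Real.log S.T ≤ 1 := by
      rw [div_le_one (by linarith)]
      exact h2
    have haL : |a| ≤ 1 / Real.log S.T := (Complex.abs_re_le_norm hh).trans hhn
    have hvL : |v| ≤ 1 := ((Complex.abs_im_le_norm hh).trans hhn).trans hL0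
    have hdp := hdp1 hT1 hS 0 0 (by omega) 0 (by simp; positivity) (lam - 1) hal
      (fun j => lm lam (S.l j)) hl'
    have hfun : (fun (χ χ' : ℕ →*₀ ℂ) => Mx N (yy N S.T 0) χ * Gx N (yy N S.T 0) (χ * nC 0) *
        W2 S (lam - 1) (fun j => lm lam (S.l j)) χ χ') =
        W2 S (lam - 1) (fun j => lm lam (S.l j)) := by
      funext χ χ'
      rw [Gx_one hN, Mx_one hN, one_mul, one_mul]
    rw [hfun] at hdp
    have hQ1 : (1 : ℝ) ≤ S.T ^ (1 / 2 - 2 * kp N) := Real.one_le_rpow h1 (by linarith)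
    have hQ2 : (1 : ℝ) ≤ S.T ^ (kp N / 8) := Real.one_le_rpow h1 (by linarith)
    have hsh := hdp.shift hQ1 hQ2 (-(v * I)) (v * I)
    have hre1 : (-((v : ℂ) * I)).re = 0 := by simp
    have hre2 : ((v : ℂ) * I).re = 0 := by simp
    rw [hre1, hre2, abs_zero, Real.rpow_zero, Real.rpow_zero, mul_one, mul_one] at hsh
    have htw := ht S.T a _ hT0 haL hsh
    have hrand : ∀ w : Om, W2 S (lam - 1) (fun j => lm lam (S.l j)) (nX (-a) w * nC (-(v * I)))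
        (cj (nX a w) * nC (v * I)) =
        W2 S (lam - 1) (fun j => lm lam (S.l j)) (nX (-hh) w) (cj (nX (conj hh) w)) := by
      intro w
      have e1 : nX (-a) w * nC (-(v * I)) = nX (-hh) w := by
        rw [nX_mul_nC, hhv]
        congr 1
        ring
      have e2 : cj (nX a w) * nC (v * I) = cj (nX (conj hh) w) := by
        have e3 : nC ((v : ℂ) * I) = cj (nC (-(v * I))) := by
          rw [cj_nC]
          congr 1
          simp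
        rw [e3, ← A1_cj_mul, nX_mul_nC, hhv]
        congr 2
        simp
      rw [e1, e2]
    simp only [hrand] at htw
    have hexp := hE hC hT2 hS hh hhn
    have hfin : ENNReal.ofReal (A * (S.T * (∫ w, ‖Zt (Nat.primesBelow (MM S.T)) (1 / 2) w‖ ^ 2 *
        ‖W2 S (lam - 1) (fun j => lm lam (S.l j)) (nX (-hh) w) (cj (nX (conj hh) w))‖ ^ 2 ∂mu) +
        S.T ^ (1 - kp N / 4))) ≤
        ENNReal.ofReal (A * (K + 1) * (S.T * Real.log S.T ^ (lam ^ 2))) :=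
      ENNReal.ofReal_le_ofReal (A1_fin4 hN hS.1 hA hexp)
    refine le_trans ?_ (htw.trans hfin)
    -- translation
    set F : ℝ → ENNReal := fun t => ENNReal.ofReal (‖riemannZeta (1 / 2 + a + t * I)‖ ^ 2 *
      ‖W2 S (lam - 1) (fun j => lm lam (S.l j)) (nC (1 / 2 + t * I) * nC (-(v * I)))
        (nC (1 / 2 - t * I) * nC (v * I))‖ ^ 2) with hF
    have hpt : ∀ t : ℝ, ENNReal.ofReal (‖riemannZeta (1 / 2 + t * I + hh)‖ ^ 2 *
        S.Wm lam (nC (1 / 2 + t * I)) ^ 2) = F (t + v) := by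
      intro t
      have e1 : (1 / 2 + (a : ℂ) + ((t + v : ℝ) : ℂ) * I) = 1 / 2 + t * I + hh := by
        rw [hhv]
        push_cast
        ring
      have e2 : nC (1 / 2 + ((t + v : ℝ) : ℂ) * I) * nC (-(v * I)) = nC (1 / 2 + t * I) := by
        rw [nC_mul_nC]
        congr 1
        push_cast
        ring
      have e3 : nC (1 / 2 - ((t + v : ℝ) : ℂ) * I) * nC (v * I) = nC (1 / 2 - t * I) := by
        rw [nC_mul_nC]
        congr 1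
        push_cast
        ring
      rw [hF]
      beta_reduce
      rw [e1, e2, e3, A1_line, A1_nrm4]
      rfl
    simp only [hpt]
    rw [← lintegral_indicator measurableSet_Icc]
    have h5 : ∫⁻ t in Set.Icc S.T (3 * S.T), F t =
        ∫⁻ t, (Set.Icc S.T (3 * S.T)).indicator F (t + v) := by
      rw [lintegral_add_right_eq_self, lintegral_indicator measurableSet_Icc]
    change _ ≤ ∫⁻ t in Set.Icc S.T (3 * S.T), F t
    rw [h5]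
    refine lintegral_mono fun t => ?_
    by_cases htm : t ∈ Set.Icc (11 * S.T / 10) (29 * S.T / 10)
    · have htm2 : t + v ∈ Set.Icc S.T (3 * S.T) := by
        rw [abs_le] at hvL
        constructor
        · linarith [htm.1, hvL.1]
        · linarith [htm.2, hvL.2]
      rw [Set.indicator_of_mem htm, Set.indicator_of_mem htm2]
    · rw [Set.indicator_of_notMem htm]
      exact zero_le

theorem mom4_3 (N : ℕ) (hN : 1 ≤ N) : ∃ C0 : ℝ, ∀ D : ℝ, ∃ K T0 : ℝ, 1 ≤ K ∧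
    ∀ {S : BS} {lam C : ℝ} {N0 : ℕ}, C0 ≤ C → T0 ≤ S.T → BG S lam C N0 D (ep N) →
    ∀ h : ℂ, ‖h‖ ≤ 1 / Real.log S.T → ∀ i k : ℕ, 1 ≤ i → 1 ≤ k → i + k ≤ N →
    ∫⁻ t in Set.Icc S.T (3 * S.T), ENNReal.ofReal (‖riemannZeta (1 / 2 + t * I)‖ ^ 2 *
      ‖Mx N (yy N S.T k) (nC (1 / 2 + t * I))‖ ^ 2 *
      ‖Gx N (yy N S.T i) (nC (1 / 2 + t * I + h))‖ ^ 2 * S.Wm lam (nC (1 / 2 + t * I)) ^ 2) ≤
      ENNReal.ofReal (K * (S.T * Real.log S.T ^ (lam ^ 2))) := by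
  obtain ⟨C0, h⟩ := exp4b_3 N hN
  obtain ⟨hk0, hk1⟩ := A1_kp hN
  obtain ⟨A, T0, hA, -, ht⟩ := twist4 hk0 hk1 (zero_le_one (α := ℝ))
  obtain ⟨T1, -, hdp1⟩ := MGW_dp N hN
  refine ⟨C0, fun D => ?_⟩
  obtain ⟨K, T2, hK, hE⟩ := h D
  refine ⟨A * (K + 1), max (max T0 T1) T2, ?_, ?_⟩
  · nlinarith
  · intro S lam C N0 hC hT hS hh hhn i k hi hk hik
    have hT0 : T0 ≤ S.T := (le_max_left _ _).trans ((le_max_left _ _).trans hT)
    have hT1 : T1 ≤ S.T := (le_max_right _ _).trans ((le_max_left _ _).trans hT)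
    have hT2 : T2 ≤ S.T := (le_max_right _ _).trans hT
    obtain ⟨h1, h2, h3⟩ := A1_log4 hS.1
    obtain ⟨hal, hl'⟩ := A1_lm hS.1
    have hre : |hh.re| ≤ 1 / Real.log S.T := (Complex.abs_re_le_norm hh).trans hhn
    have hdp := hdp1 hT1 hS i k hik hh hre (lam - 1) hal (fun j => lm lam (S.l j)) hl'
    have h0L : |(0 : ℝ)| ≤ 1 / Real.log S.T := by
      rw [abs_zero]
      positivity
    have htw := ht S.T 0 _ hT0 h0L hdp
    have hpt : ∀ t : ℝ, ‖riemannZeta (1 / 2 + ((0 : ℝ) : ℂ) + t * I)‖ ^ 2 *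
        ‖Mx N (yy N S.T k) (nC (1 / 2 + t * I)) *
          Gx N (yy N S.T i) (nC (1 / 2 + t * I) * nC hh) *
          W2 S (lam - 1) (fun j => lm lam (S.l j)) (nC (1 / 2 + t * I)) (nC (1 / 2 - t * I))‖ ^ 2 =
        ‖riemannZeta (1 / 2 + t * I)‖ ^ 2 *
      ‖Mx N (yy N S.T k) (nC (1 / 2 + t * I))‖ ^ 2 *
      ‖Gx N (yy N S.T i) (nC (1 / 2 + t * I + hh))‖ ^ 2 * S.Wm lam (nC (1 / 2 + t * I)) ^ 2 := by
      intro t
      rw [A1_line, nC_mul_nC, norm_mul, norm_mul, mul_pow, mul_pow, A1_nrm4, Complex.ofReal_zero,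
        add_zero]
      change _ = ‖riemannZeta (1 / 2 + t * I)‖ ^ 2 *
        ‖Mx N (yy N S.T k) (nC (1 / 2 + t * I))‖ ^ 2 *
        ‖Gx N (yy N S.T i) (nC (1 / 2 + t * I + hh))‖ ^ 2 *
        S.W (lam - 1) (fun j => lm lam (S.l j)) (nC (1 / 2 + t * I)) ^ 2
      ring
    have hrand : ∀ w : Om, Mx N (yy N S.T k) (nX (-((0 : ℝ) : ℂ)) w) *
          Gx N (yy N S.T i) (nX (-((0 : ℝ) : ℂ)) w * nC hh) *
          W2 S (lam - 1) (fun j => lm lam (S.l j)) (nX (-((0 : ℝ) : ℂ)) w)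
            (cj (nX ((0 : ℝ) : ℂ) w)) =
        Mx N (yy N S.T k) (nX 0 w) * Gx N (yy N S.T i) (nX hh w) *
      W2 S (lam - 1) (fun j => lm lam (S.l j)) (nX 0 w) (cj (nX 0 w)) := by
      intro w
      rw [Complex.ofReal_zero, neg_zero, nX_mul_nC, zero_add]
    simp only [hpt, hrand] at htw
    exact htw.trans (ENNReal.ofReal_le_ofReal
      (A1_fin4 hN hS.1 hA (hE hC hT2 hS hh hhn i k hi hk hik)))

theorem mom4_4 (N : ℕ) (hN : 1 ≤ N) : ∃ C0 : ℝ, ∀ D : ℝ, ∃ K T0 : ℝ, 1 ≤ K ∧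
    ∀ {S : BS} {lam C : ℝ} {N0 : ℕ}, C0 ≤ C → T0 ≤ S.T → BG S lam C N0 D (ep N) →
    ∫⁻ t in Set.Icc S.T (3 * S.T), ENNReal.ofReal (‖riemannZeta (1 / 2 + t * I)‖ ^ 2 *
      ‖Mx N (yy N S.T N) (nC (1 / 2 + t * I))‖ ^ 2 * S.Wp lam (nC (1 / 2 + t * I)) ^ 2) ≤
      ENNReal.ofReal (K * (S.T * Real.log S.T ^ (lam ^ 2))) := by
  obtain ⟨C0, h⟩ := exp4b_4 N hN
  obtain ⟨hk0, hk1⟩ := A1_kp hN
  obtain ⟨A, T0, hA, -, ht⟩ := twist4 hk0 hk1 (zero_le_one (α := ℝ))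
  obtain ⟨T1, -, hdp1⟩ := MGW_dp N hN
  refine ⟨C0, fun D => ?_⟩
  obtain ⟨K, T2, hK, hE⟩ := h D
  refine ⟨A * (K + 1), max (max T0 T1) T2, ?_, ?_⟩
  · nlinarith
  · intro S lam C N0 hC hT hS
    have hT0 : T0 ≤ S.T := (le_max_left _ _).trans ((le_max_left _ _).trans hT)
    have hT1 : T1 ≤ S.T := (le_max_right _ _).trans ((le_max_left _ _).trans hT)
    have hT2 : T2 ≤ S.T := (le_max_right _ _).trans hT
    obtain ⟨h1, h2, h3⟩ := A1_log4 hS.1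
    obtain ⟨hal, hl'⟩ := A1_lp hS.1
    have hre : |(0 : ℂ).re| ≤ 1 / Real.log S.T := by
      rw [Complex.zero_re, abs_zero]
      positivity
    have hdp := hdp1 hT1 hS 0 N (by omega) 0 hre lam hal (fun j => lp lam (S.l j)) hl'
    have hfun : (fun (χ χ' : ℕ →*₀ ℂ) => Mx N (yy N S.T N) χ * Gx N (yy N S.T 0) (χ * nC 0) *
        W2 S lam (fun j => lp lam (S.l j)) χ χ') =
        fun (χ χ' : ℕ →*₀ ℂ) => Mx N (yy N S.T N) χ *
          W2 S lam (fun j => lp lam (S.l j)) χ χ' := by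
      funext χ χ'
      rw [Gx_one hN, mul_one]
    rw [hfun] at hdp
    have h0L : |(0 : ℝ)| ≤ 1 / Real.log S.T := by
      rw [abs_zero]
      positivity
    have htw := ht S.T 0 _ hT0 h0L hdp
    have hpt : ∀ t : ℝ, ‖riemannZeta (1 / 2 + ((0 : ℝ) : ℂ) + t * I)‖ ^ 2 *
        ‖Mx N (yy N S.T N) (nC (1 / 2 + t * I)) *
          W2 S lam (fun j => lp lam (S.l j)) (nC (1 / 2 + t * I)) (nC (1 / 2 - t * I))‖ ^ 2 =
        ‖riemannZeta (1 / 2 + t * I)‖ ^ 2 *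
      ‖Mx N (yy N S.T N) (nC (1 / 2 + t * I))‖ ^ 2 * S.Wp lam (nC (1 / 2 + t * I)) ^ 2 := by
      intro t
      rw [A1_line, norm_mul, mul_pow, A1_nrm4, Complex.ofReal_zero, add_zero]
      change _ = ‖riemannZeta (1 / 2 + t * I)‖ ^ 2 *
        ‖Mx N (yy N S.T N) (nC (1 / 2 + t * I))‖ ^ 2 *
        S.W lam (fun j => lp lam (S.l j)) (nC (1 / 2 + t * I)) ^ 2
      ring
    have hrand : ∀ w : Om, Mx N (yy N S.T N) (nX (-((0 : ℝ) : ℂ)) w) *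
          W2 S lam (fun j => lp lam (S.l j)) (nX (-((0 : ℝ) : ℂ)) w)
            (cj (nX ((0 : ℝ) : ℂ) w)) =
        Mx N (yy N S.T N) (nX 0 w) *
      W2 S lam (fun j => lp lam (S.l j)) (nX 0 w) (cj (nX 0 w)) := by
      intro w
      rw [Complex.ofReal_zero, neg_zero]
    simp only [hpt, hrand] at htw
    exact htw.trans (ENNReal.ofReal_le_ofReal (A1_fin4 hN hS.1 hA (hE hC hT2 hS)))

end Pool.Agent.UV
end

section

/-! TASK A3. The moments without zeta on the critical line. `L = log T ≥ 1`. `W2_cj`, `cj_nC_line`: on the line `W2 S al l' (nC (1/2+ti)) (nC (1/2-ti)) = S.W al l' (nC (1/2+ti))`.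
`mom4_2`: `mean4` for `g χ χ' = Gx (χ * nC h) * W2 χ χ'` (`MGW_dp` with `k = 0`, `Mx_one`), `Q1 = T^{1/2-2κ}`, `Q2 = B = T^{κ/8}`, `κ = kp N`: `4 Q1² Q2 B² ≤ 4 T^{1-4κ+3κ/8} ≤ 4T ≤ 4 T L^{lam²}`; random side `exp4b_2` (`nX 0 * nC h = nX h`, `nC (1/2+ti+h) = nC (1/2+ti) * nC h`).
Convert the interval integral of the continuous nonnegative function to `∫⁻` over `Icc` (`ofReal_integral_eq_lintegral_ofReal`, `IsP2.continuous_line`). -/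

set_option autoImplicit false

namespace Pool.Agent.UV

open Complex MeasureTheory Finset Pool.Agent.GH Pool.Agent.UH
open scoped Real ComplexConjugate

private theorem A3_lm {lam : ℝ} {n : ℕ} (h0 : 0 < lam) (h1 : lam < 1) (h : 2 ≤ lam * n) :
    lm lam n ≤ n := by
  unfold lm
  have hx : 0 ≤ (1 - lam) * n / 2 := by
    have : 0 ≤ 1 - lam := by linarith
    positivity
  have h3 := Nat.ceil_lt_add_one hx
  have h4 : ((2 * ⌈(1 - lam) * n / 2⌉₊ : ℕ) : ℝ) < (n : ℝ) + 1 := by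
    push_cast
    nlinarith
  have h5 : 2 * ⌈(1 - lam) * n / 2⌉₊ < n + 1 := by exact_mod_cast h4
  omega

private theorem A3_nrm (x : ℝ) : ‖((x : ℝ) : ℂ)‖ ^ 2 = x ^ 2 := by
  rw [Complex.norm_real, Real.norm_eq_abs, sq_abs]

private theorem A3_kp (N : ℕ) : 0 < kp N ∧ kp N ≤ 1 / 8 := by
  unfold kp et
  have h : (0 : ℝ) ≤ N := Nat.cast_nonneg N
  refine ⟨by positivity, ?_⟩
  rw [div_div, div_le_div_iff₀ (by positivity) (by norm_num)]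
  nlinarith

theorem mom4_2 (N : ℕ) (hN : 1 ≤ N) : ∃ C0 : ℝ, ∀ D : ℝ, ∃ K T0 : ℝ, 1 ≤ K ∧
    ∀ {S : BS} {lam C : ℝ} {N0 : ℕ}, C0 ≤ C → T0 ≤ S.T → BG S lam C N0 D (ep N) →
    ∀ h : ℂ, ‖h‖ ≤ 1 / Real.log S.T → ∀ i : ℕ, 1 ≤ i → i ≤ N →
    ∫⁻ t in Set.Icc S.T (3 * S.T), ENNReal.ofReal
      (‖Gx N (yy N S.T i) (nC (1 / 2 + t * I + h))‖ ^ 2 * S.Wm lam (nC (1 / 2 + t * I)) ^ 2) ≤
      ENNReal.ofReal (K * (S.T * Real.log S.T ^ (lam ^ 2))) := by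
  obtain ⟨C0, hE0⟩ := exp4b_2 N hN
  obtain ⟨T1, hT1, hdp1⟩ := MGW_dp N hN
  refine ⟨C0, fun D => ?_⟩
  obtain ⟨K, T0, hK, hE⟩ := hE0 D
  refine ⟨2 * K + 4, max T0 T1, by linarith, ?_⟩
  intro S lam C N0 hC hT hS h hh i hi1 hiN
  have hTa : T0 ≤ S.T := (le_max_left _ _).trans hT
  have hTb : T1 ≤ S.T := (le_max_right _ _).trans hT
  have hG := hS.1
  have h1 : 1 ≤ Real.log S.T := by
    have := Real.log_le_log (Real.exp_pos 1) hG.T_ge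
    rwa [Real.log_exp] at this
  have h2 : 1 ≤ S.T := (Real.one_le_exp (by norm_num)).trans hG.T_ge
  have h3 : 1 ≤ Real.log S.T ^ (lam ^ 2) := Real.one_le_rpow h1 (by positivity)
  have hT0 : 0 ≤ S.T := by linarith
  have hTT : S.T ≤ 3 * S.T := by linarith
  obtain ⟨hk0, hk1⟩ := A3_kp N
  have hre : |h.re| ≤ 1 / Real.log S.T := (Complex.abs_re_le_norm h).trans hh
  have hal : |lam - 1| ≤ 1 := by
    have := hG.lam_pos
    have := hG.lam_lt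
    rw [abs_le]
    constructor <;> linarith
  have hdp0 := hdp1 hTb hS i 0 (by omega) h hre (lam - 1) hal (fun j => lm lam (S.l j))
    (fun j hj => A3_lm hG.lam_pos hG.lam_lt (hG.l_big j hj).1)
  have hdp : IsP2 (S.T ^ (1 / 2 - 2 * kp N)) (S.T ^ (kp N / 8)) (S.T ^ (kp N / 8))
      (fun χ χ' => Gx N (yy N S.T i) (χ * nC h) *
        W2 S (lam - 1) (fun j => lm lam (S.l j)) χ χ') := by
    simpa only [Mx_one hN, one_mul] using hdp0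
  have hQ1 : (1 : ℝ) ≤ S.T ^ (1 / 2 - 2 * kp N) := Real.one_le_rpow h2 (by linarith)
  have hQ2 : (1 : ℝ) ≤ S.T ^ (kp N / 8) := Real.one_le_rpow h2 (by linarith)
  have h4 := mean4 hdp hQ1 hQ2 hT0
  have hline : ∀ t : ℝ, ‖Gx N (yy N S.T i) (nC (1 / 2 + t * I) * nC h) *
      W2 S (lam - 1) (fun j => lm lam (S.l j)) (nC (1 / 2 + t * I)) (nC (1 / 2 - t * I))‖ ^ 2 =
      ‖Gx N (yy N S.T i) (nC (1 / 2 + t * I + h))‖ ^ 2 * S.Wm lam (nC (1 / 2 + t * I)) ^ 2 := by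
    intro t
    rw [cj_nC_line, W2_cj, nC_mul_nC, norm_mul, mul_pow, A3_nrm]
    rfl
  have hrand : ∀ v : Om, ‖Gx N (yy N S.T i) (nX 0 v * nC h) *
      W2 S (lam - 1) (fun j => lm lam (S.l j)) (nX 0 v) (cj (nX 0 v))‖ ^ 2 =
      ‖Gx N (yy N S.T i) (nX h v) *
      W2 S (lam - 1) (fun j => lm lam (S.l j)) (nX 0 v) (cj (nX 0 v))‖ ^ 2 := by
    intro v
    rw [nX_mul_nC, zero_add]
  simp only [hline, hrand] at h4
  have hc : Continuous fun t : ℝ => ‖Gx N (yy N S.T i) (nC (1 / 2 + t * I + h))‖ ^ 2 *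
      S.Wm lam (nC (1 / 2 + t * I)) ^ 2 := by
    have h0 : Continuous fun t : ℝ => ‖Gx N (yy N S.T i) (nC (1 / 2 + t * I) * nC h) *
        W2 S (lam - 1) (fun j => lm lam (S.l j)) (nC (1 / 2 + t * I)) (nC (1 / 2 - t * I))‖ ^ 2 :=
      hdp.continuous_line.norm.pow 2
    simpa only [hline] using h0
  have h5 : ∫⁻ t in Set.Icc S.T (3 * S.T), ENNReal.ofReal
      (‖Gx N (yy N S.T i) (nC (1 / 2 + t * I + h))‖ ^ 2 * S.Wm lam (nC (1 / 2 + t * I)) ^ 2) =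
      ENNReal.ofReal (∫ t in S.T..(3 * S.T),
        ‖Gx N (yy N S.T i) (nC (1 / 2 + t * I + h))‖ ^ 2 * S.Wm lam (nC (1 / 2 + t * I)) ^ 2) := by
    rw [intervalIntegral.integral_of_le hTT, ← integral_Icc_eq_integral_Ioc]
    refine (ofReal_integral_eq_lintegral_ofReal ?_ (Filter.Eventually.of_forall fun t => ?_)).symm
    · exact hc.continuousOn.integrableOn_Icc
    · positivity
  rw [h5]
  refine ENNReal.ofReal_le_ofReal (h4.trans ?_)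
  have h6 : (S.T ^ (1 / 2 - 2 * kp N)) ^ 2 * S.T ^ (kp N / 8) * (S.T ^ (kp N / 8)) ^ 2 ≤ S.T := by
    rw [← Real.rpow_natCast, ← Real.rpow_natCast, ← Real.rpow_mul hT0, ← Real.rpow_mul hT0,
      ← Real.rpow_add (by linarith), ← Real.rpow_add (by linarith)]
    calc S.T ^ ((1 / 2 - 2 * kp N) * ((2 : ℕ) : ℝ) + kp N / 8 + kp N / 8 * ((2 : ℕ) : ℝ))
        ≤ S.T ^ (1 : ℝ) :=
          Real.rpow_le_rpow_of_exponent_le h2 (by push_cast; linarith)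
      _ = S.T := Real.rpow_one _
  have h7 := mul_le_mul_of_nonneg_left (hE hC hTa hS h hh i hi1 hiN) hT0
  have h8 : S.T * 1 ≤ S.T * Real.log S.T ^ (lam ^ 2) := mul_le_mul_of_nonneg_left h3 hT0
  linarith

end Pool.Agent.UV
end
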