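import Pool.Agent.Lib.MP_69b2e4_nt.Mg.G001
import Pool.Agent.Lib.MP_69b2e4_nt.UV.F1

section

/-! TASK E3. The pointwise inequality for the whole weights: `1/4 ≤ (Wm²)^lam (Wp²)^{1-lam}` for every character, for good block systems with `N0 ≥ N0(lam)` (that of `pointwise`).
Proof. With `ε_j = (5/6)^{4 cc l_j}` (`cc = cc lam`): `(5/6)^4 ≤ 1/2`, so `ε_j ≤ 2^{-cc l_j}`, and by `BGood.trunc` (`sR ≥ 0`, so `exp(C(sR+1)) ≥ exp 3 ≥ 2`) `∑_j ε_j ≤ 1/2`.
For each `j ≤ J` put `x_j = Re PS (R j) χ`, `A_j = ExR (lm) ((lam-1) x_j) > 0`, `B_j = ExR (lp) (lam x_j) > 0` (even lengths); `A_j^lam B_j^{1-lam} ≥ 1 - ε_j ≥ 0` by `pointwise`.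
The product over `j` is `≥ ∏ (1-ε_j) ≥ 1 - ∑ ε_j ≥ 1/2` (`Finset.prod_one_sub...`: Mathlib `Finset.one_sub_sum_le_prod_one_sub` or induction), and
`(Wm²)^lam (Wp²)^{1-lam} = (∏_j A_j^lam B_j^{1-lam})²` (`Real.finsetProd_rpow`, `Real.mul_rpow`, everything positive). -/

set_option autoImplicit false

namespace Pool.Agent.UH

open Complex MeasureTheory Finset Pool.Agent.GH
open scoped Real ComplexConjugate

theorem weights_ge (lam : ℝ) (h0 : 0 < lam) (h1 : lam < 1) : ∃ N1 : ℕ, ∀ (S : BS) (C D : ℝ) (N0 : ℕ),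
    N1 ≤ N0 → BGood S lam C N0 D → ∀ χ : ℕ →*₀ ℂ,
    1 / 4 ≤ (S.Wm lam χ ^ 2) ^ lam * (S.Wp lam χ ^ 2) ^ (1 - lam) := by
  classical
  obtain ⟨N1, hN1⟩ := pointwise lam h0 h1
  refine ⟨N1, fun S C D N0 hN hB χ => ?_⟩
  have hcc : 0 ≤ cc lam := by
    unfold cc
    have : 0 ≤ min lam (1 - lam) := le_min h0.le (by linarith)
    linarith
  obtain ⟨A, hA⟩ : ∃ A : ℕ → ℝ, ∀ j, A j = ExR (lm lam (S.l j)) ((lam - 1) * (PS (S.R j) χ).re) :=
    ⟨_, fun _ => rfl⟩
  obtain ⟨B, hBd⟩ : ∃ B : ℕ → ℝ, ∀ j, B j = ExR (lp lam (S.l j)) (lam * (PS (S.R j) χ).re) :=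
    ⟨_, fun _ => rfl⟩
  obtain ⟨ε, hε⟩ : ∃ ε : ℕ → ℝ, ∀ j, ε j = (5 / 6 : ℝ) ^ (4 * cc lam * S.l j) := ⟨_, fun _ => rfl⟩
  have hA0 : ∀ j, 0 < A j := fun j => by rw [hA]; exact exR_pos (even_lm _ _) _
  have hB0 : ∀ j, 0 < B j := fun j => by rw [hBd]; exact exR_pos (even_lp _ _) _
  have hWm : S.Wm lam χ = ∏ j ∈ range (S.J + 1), A j := by
    unfold BS.Wm BS.W
    exact Finset.prod_congr rfl fun j _ => (hA j).symm
  have hWp : S.Wp lam χ = ∏ j ∈ range (S.J + 1), B j := by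
    unfold BS.Wp BS.W
    exact Finset.prod_congr rfl fun j _ => (hBd j).symm
  have hε0 : ∀ j, 0 ≤ ε j := fun j => by rw [hε]; positivity
  have hε1 : ∀ j, ε j ≤ 1 := by
    intro j
    rw [hε]
    exact Real.rpow_le_one (by norm_num) (by norm_num) (by positivity)
  have hεle : ∀ j ∈ range (S.J + 1), ε j ≤
      1 / 2 * ((2 : ℝ)⁻¹ ^ (cc lam * S.l j) * Real.exp (C * (sR (S.R j) + 1))) := by
    intro j _
    have hsR : 0 ≤ sR (S.R j) := by
      unfold sR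
      exact Finset.sum_nonneg fun p _ => by positivity
    have h2 : ε j ≤ (2 : ℝ)⁻¹ ^ (cc lam * S.l j) := by
      rw [hε, mul_assoc, Real.rpow_mul (by norm_num)]
      refine Real.rpow_le_rpow (by positivity) ?_ (by positivity)
      have : (5 / 6 : ℝ) ^ (4 : ℝ) = (5 / 6 : ℝ) ^ (4 : ℕ) := by
        rw [← Real.rpow_natCast]
        norm_num
      rw [this]
      norm_num
    have h3 : 2 ≤ Real.exp (C * (sR (S.R j) + 1)) := by
      have h4 : C * (sR (S.R j) + 1) + 1 ≤ Real.exp (C * (sR (S.R j) + 1)) := Real.add_one_le_exp _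
      have h5 : 3 ≤ C * (sR (S.R j) + 1) := by
        have := hB.C_ge
        nlinarith
      linarith
    have h6 : 0 ≤ (2 : ℝ)⁻¹ ^ (cc lam * S.l j) := by positivity
    nlinarith
  have hsum : ∑ j ∈ range (S.J + 1), ε j ≤ 1 / 2 := by
    have h2 := Finset.sum_le_sum hεle
    rw [← Finset.mul_sum] at h2
    have h3 := hB.trunc
    linarith
  have hprod : ∀ s : Finset ℕ, 1 - ∑ j ∈ s, ε j ≤ ∏ j ∈ s, (1 - ε j) := by
    intro s
    induction s using Finset.induction_on with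
    | empty => simp
    | insert a s ha ih =>
      rw [Finset.sum_insert ha, Finset.prod_insert ha]
      have h2 : 0 ≤ 1 - ε a := by have := hε1 a; linarith
      have h3 := mul_le_mul_of_nonneg_left ih h2
      have h4 : 0 ≤ ∑ j ∈ s, ε j := Finset.sum_nonneg fun j _ => hε0 j
      have h5 : 0 ≤ ε a * ∑ j ∈ s, ε j := mul_nonneg (hε0 a) h4
      linarith
  have hpt : ∀ j ∈ range (S.J + 1), 1 - ε j ≤ A j ^ lam * B j ^ (1 - lam) := by
    intro j hj
    have hj' : j ≤ S.J := by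
      rw [Finset.mem_range] at hj
      omega
    rw [hε, hA, hBd]
    exact hN1 (S.l j) (hN.trans (hB.l_ge j hj')) _
  have hmain : 1 / 2 ≤ ∏ j ∈ range (S.J + 1), (A j ^ lam * B j ^ (1 - lam)) := by
    calc (1 : ℝ) / 2 ≤ 1 - ∑ j ∈ range (S.J + 1), ε j := by linarith
      _ ≤ ∏ j ∈ range (S.J + 1), (1 - ε j) := hprod _
      _ ≤ ∏ j ∈ range (S.J + 1), (A j ^ lam * B j ^ (1 - lam)) :=
          Finset.prod_le_prod (fun j _ => by have := hε1 j; linarith) hpt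
  have hsq : ∀ (a e : ℝ), 0 < a → (a ^ 2) ^ e = (a ^ e) ^ 2 := by
    intro a e ha
    rw [← Real.rpow_natCast, ← Real.rpow_natCast, ← Real.rpow_mul ha.le, ← Real.rpow_mul ha.le,
      mul_comm]
  rw [hWm, hWp, hsq _ _ (Finset.prod_pos fun j _ => hA0 j), hsq _ _ (Finset.prod_pos fun j _ => hB0 j),
    ← Real.finsetProd_rpow _ _ (fun j _ => (hA0 j).le), ← Real.finsetProd_rpow _ _ (fun j _ => (hB0 j).le),
    ← mul_pow, ← Finset.prod_mul_distrib]
  have h7 := pow_le_pow_left₀ (by norm_num : (0 : ℝ) ≤ 1 / 2) hmain 2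
  linarith

end Pool.Agent.UH
end

section

/-! TASK B1. Far to the right. (Template: UH/B1.lean.) `η = et N`, `y = yy N T i = T^{iη}`, `Y = y^{1-1/N}`, so `Y^N = T^{i(N-1)η}`. All Dirichlet series converge absolutely for `Re s ≥ 2` (`zeta_eq_tsum_one_div_nat_cpow` or the one used in UH/B1; `nC_apply`).
`PP_far`: `Re (s+h) ≥ N + 5/2`. `i = 0`, `N ≥ 2`: `‖PP‖ ≤ ∑_{n≥1} n^{-2} ≤ 2`. `i ≥ 1`: `PP N T i (s+h) = ∑ a_n n^{-(s+h)}` with `a_n = Fd(log n/log y_{i+1}) - Fd(log n/log y_i)` resp. `1 - Fd(log n/log y_{N-1})`, `|a_n| ≤ 1` (`Fd_mem`), `a_n = 0` for `n ≤ Y` (`Fd_one`: `log n/log y_i ≤ 1 - 1/N`, and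
`log n/log y_{i+1} ≤ log n/log y_i`). So `‖PP‖ ≤ ∑_{n>Y} n^{-(N+5/2)} ≤ Y^{-N} ∑ n^{-2} ≤ 2 Y^{-N} = 2 T^{-i(N-1)η}`.
`AA_far`: `k = 0`: `1 ≤ 4`. `k ≥ 1`: `1 - ζ(s) M(s) = -∑_{n≥2} c_n n^{-s}`, `c_n = ∑_{d|n} μ(d) Fd(log d/log y) = 0` for `2 ≤ n ≤ Y` (all `d ≤ n ≤ Y` have `Fd = 1`), `|c_n| ≤ n`: `≤ ∑_{n>Y} n · n^{-(N+3)} ≤ Y^{-N} ∑ n^{-2} ≤ 2 Y^{-N}`. (`T ≥ e^{..}` only to have `log y > 0`.) -/

set_option autoImplicit false

namespace Pool.Agent.UV

open Complex MeasureTheory Finset Pool.Agent.GH Pool.Agent.UH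
open scoped Real ComplexConjugate

private noncomputable def B1_t (c : ℕ → ℂ) (y : ℝ) (n : ℕ) : ℂ :=
  if n ∈ Finset.Icc 1 ⌊y⌋₊ then c n else 0

private theorem B1_hasSum (c : ℕ → ℂ) (y : ℝ) (s : ℂ) :
    LSeriesHasSum (B1_t c y) s (∑ n ∈ Finset.Icc 1 ⌊y⌋₊, c n * nC s n) := by
  have e : ∑ n ∈ Finset.Icc 1 ⌊y⌋₊, c n * nC s n =
      ∑ n ∈ Finset.Icc 1 ⌊y⌋₊, LSeries.term (B1_t c y) s n := by
    refine Finset.sum_congr rfl fun n hn => ?_
    have hn0 : n ≠ 0 := by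
      have := (Finset.mem_Icc.mp hn).1
      omega
    rw [LSeries.term_of_ne_zero hn0, nC_apply s hn0, B1_t, if_pos hn, Complex.cpow_neg]
    rfl
  rw [e]
  refine hasSum_sum_of_ne_finset_zero fun n hn => ?_
  rcases eq_or_ne n 0 with rfl | hn0
  · simp
  · rw [LSeries.term_of_ne_zero hn0, B1_t, if_neg hn, zero_div]

private theorem B1_sq : ∑' n : ℕ, 1 / (n : ℝ) ^ 2 ≤ 2 := by
  rw [hasSum_zeta_two.tsum_eq]
  have h1 := Real.pi_lt_d2
  have h2 := Real.pi_pos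
  nlinarith

/-- the general bound: a Dirichlet series whose coefficients vanish below `Y` -/
private theorem B1_bound {a : ℕ → ℂ} {S : ℂ} {Y : ℝ} {N : ℕ} (hY : 0 < Y)
    (ha : HasSum a S) (h : ∀ n : ℕ, ‖a n‖ ≤ Y ^ (-(N : ℝ)) * (1 / (n : ℝ) ^ 2)) :
    ‖S‖ ≤ 2 * Y ^ (-(N : ℝ)) := by
  have hsum : Summable fun n : ℕ => Y ^ (-(N : ℝ)) * (1 / (n : ℝ) ^ 2) :=
    hasSum_zeta_two.summable.mul_left _
  have h3 := tsum_of_norm_bounded hsum.hasSum h
  rw [ha.tsum_eq] at h3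
  refine h3.trans ?_
  rw [tsum_mul_left, mul_comm]
  exact mul_le_mul_of_nonneg_right B1_sq (by positivity)

private theorem B1_pow {Y : ℝ} (hY : 0 < Y) {N : ℕ} {n : ℕ} (hn : Y ≤ n) :
    (n : ℝ) ^ (-(N : ℝ)) ≤ Y ^ (-(N : ℝ)) :=
  Real.rpow_le_rpow_of_nonpos hY hn (by
    have : (0 : ℝ) ≤ N := Nat.cast_nonneg N
    linarith)

private theorem B1_yy {N : ℕ} (hN : 2 ≤ N) {T : ℝ} (hT : Real.exp 1 ≤ T) (i : ℕ) :
    (yy N T i ^ (1 - 1 / (N : ℝ))) ^ (-(N : ℝ)) = T ^ (-((i : ℝ) * (N - 1) * et N)) := by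
  have hT0 : 0 < T := (Real.exp_pos 1).trans_le hT
  have hN0 : (N : ℝ) ≠ 0 := by
    have : (2 : ℝ) ≤ N := by exact_mod_cast hN
    linarith
  unfold yy
  rw [← Real.rpow_mul hT0.le, ← Real.rpow_mul hT0.le]
  congr 1
  field_simp

private theorem B1_et_pos (N : ℕ) : 0 < et N := by
  unfold et
  positivity

private theorem B1_yy_one {N : ℕ} {T : ℝ} (hT : Real.exp 1 ≤ T) {i : ℕ} (hi : 1 ≤ i) :
    1 < yy N T i := by
  have hT1 : 1 < T := lt_of_lt_of_le (Real.one_lt_exp_iff.mpr one_pos) hT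
  unfold yy
  refine Real.one_lt_rpow hT1 ?_
  have h1 : (1 : ℝ) ≤ i := by exact_mod_cast hi
  have := B1_et_pos N
  positivity

private theorem B1_le {N : ℕ} (hN : 2 ≤ N) {y : ℝ} (hy : 1 < y) {n : ℕ}
    (hn' : (n : ℝ) ≤ y ^ (1 - 1 / (N : ℝ))) : (n : ℝ) ≤ y := by
  refine hn'.trans ?_
  have h1 : (0 : ℝ) < 1 / N := by
    have : (2 : ℝ) ≤ N := by exact_mod_cast hN
    positivity
  calc y ^ (1 - 1 / (N : ℝ)) ≤ y ^ (1 : ℝ) :=
        Real.rpow_le_rpow_of_exponent_le hy.le (by linarith)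
    _ = y := Real.rpow_one y

private theorem B1_log {N : ℕ} {y : ℝ} (hy : 1 < y) {n : ℕ} (hn : n ≠ 0)
    (hn' : (n : ℝ) ≤ y ^ (1 - 1 / (N : ℝ))) : Real.log n / Real.log y ≤ 1 - 1 / (N : ℝ) := by
  have hn1 : (1 : ℝ) ≤ n := by exact_mod_cast Nat.one_le_iff_ne_zero.mpr hn
  rw [div_le_iff₀ (Real.log_pos hy)]
  calc Real.log n ≤ Real.log (y ^ (1 - 1 / (N : ℝ))) := Real.log_le_log (by linarith) hn'
    _ = (1 - 1 / (N : ℝ)) * Real.log y := Real.log_rpow (by linarith) _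

private theorem B1_mem {N : ℕ} (hN : 2 ≤ N) {y : ℝ} (hy : 1 < y) {n : ℕ} (hn : n ≠ 0)
    (hn' : (n : ℝ) ≤ y ^ (1 - 1 / (N : ℝ))) : n ∈ Finset.Icc 1 ⌊y⌋₊ := by
  rw [Finset.mem_Icc]
  exact ⟨Nat.one_le_iff_ne_zero.mpr hn, Nat.le_floor (B1_le hN hy hn')⟩

/-- the coefficients of the pieces, real version -/
private noncomputable def B1_r (N : ℕ) (y : ℝ) (n : ℕ) : ℝ :=
  if n ∈ Finset.Icc 1 ⌊y⌋₊ then Fd N (Real.log n / Real.log y) else 0

private theorem B1_r_mem (N : ℕ) (y : ℝ) (n : ℕ) : 0 ≤ B1_r N y n ∧ B1_r N y n ≤ 1 := by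
  unfold B1_r
  split_ifs
  · exact Fd_mem N _
  · exact ⟨le_refl _, zero_le_one⟩

private theorem B1_r_one {N : ℕ} (hN : 2 ≤ N) {y : ℝ} (hy : 1 < y) {n : ℕ} (hn : n ≠ 0)
    (hn' : (n : ℝ) ≤ y ^ (1 - 1 / (N : ℝ))) : B1_r N y n = 1 := by
  unfold B1_r
  rw [if_pos (B1_mem hN hy hn hn'), Fd_one (by omega) (B1_log hy hn hn')]

private theorem B1_G_hasSum (N : ℕ) (y : ℝ) (s : ℂ) :
    LSeriesHasSum (fun n => (B1_r N y n : ℂ)) s (Gx N y (nC s)) := by
  have h := B1_hasSum (fun n => (Fd N (Real.log n / Real.log y) : ℂ)) y s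
  have e : B1_t (fun n => (Fd N (Real.log n / Real.log y) : ℂ)) y = fun n => (B1_r N y n : ℂ) := by
    funext n
    unfold B1_t B1_r
    split_ifs
    · rfl
    · rw [Complex.ofReal_zero]
  rw [e] at h
  exact h

theorem PP_far (N : ℕ) (hN : 2 ≤ N) {T : ℝ} (hT : Real.exp 1 ≤ T) {i : ℕ} (hi : i < N) {s h : ℂ}
    (hs : s.re = N + 3) (hh : |h.re| ≤ 1 / 2) :
    ‖PP N T i (s + h)‖ ≤ 4 * T ^ (-((i : ℝ) * (N - 1) * et N)) := by
  have hT0 : 0 < T := (Real.exp_pos 1).trans_le hT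
  have hT1 : 1 < T := lt_of_lt_of_le (Real.one_lt_exp_iff.mpr one_pos) hT
  have hN2 : (2 : ℝ) ≤ N := by exact_mod_cast hN
  set z : ℂ := s + h with hz
  have hzre : (N : ℝ) + 5 / 2 ≤ z.re := by
    rw [hz, Complex.add_re, hs]
    have := (abs_le.1 hh).1
    linarith
  set Y : ℝ := yy N T i ^ (1 - 1 / (N : ℝ)) with hY
  have hyy0 : 0 < yy N T i := by
    unfold yy
    exact Real.rpow_pos_of_pos hT0 _
  have hY0 : 0 < Y := Real.rpow_pos_of_pos hyy0 _
  -- the two series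
  have h1 : LSeriesHasSum (fun n => ((if i + 1 = N then 1 else B1_r N (yy N T (i + 1)) n : ℝ) : ℂ)) z
      (if i + 1 = N then riemannZeta z else Gx N (yy N T (i + 1)) (nC z)) := by
    by_cases hc : i + 1 = N
    · simp only [hc, if_true, Complex.ofReal_one]
      exact LSeriesHasSum_one (by linarith)
    · simp only [hc, if_false]
      exact B1_G_hasSum N _ z
  have h2 : LSeriesHasSum (fun n => ((if i = 0 then 0 else B1_r N (yy N T i) n : ℝ) : ℂ)) z
      (if i = 0 then 0 else Gx N (yy N T i) (nC z)) := by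
    by_cases hc : i = 0
    · simp only [hc, if_true, Complex.ofReal_zero]
      have e : LSeries.term (fun _ : ℕ => (0 : ℂ)) z = fun _ => 0 := by
        funext n
        rcases eq_or_ne n 0 with rfl | hn0
        · simp
        · rw [LSeries.term_of_ne_zero hn0, zero_div]
      unfold LSeriesHasSum
      rw [e]
      exact hasSum_zero
    · simp only [hc, if_false]
      exact B1_G_hasSum N _ z
  have h3 := HasSum.sub h1 h2
  have h4 : ‖PP N T i z‖ ≤ 2 * Y ^ (-(N : ℝ)) := by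
    unfold PP
    refine B1_bound hY0 h3 fun n => ?_
    have hnn : 0 ≤ Y ^ (-(N : ℝ)) * (1 / (n : ℝ) ^ 2) := by positivity
    rcases eq_or_ne n 0 with rfl | hn0
    · simp
    have hn1 : (1 : ℝ) ≤ n := by exact_mod_cast Nat.one_le_iff_ne_zero.mpr hn0
    have hnpos : (0 : ℝ) < n := by linarith
    rw [LSeries.term_of_ne_zero hn0, LSeries.term_of_ne_zero hn0, ← sub_div, ← Complex.ofReal_sub,
      norm_div, Complex.norm_real, Complex.norm_natCast_cpow_of_pos (Nat.pos_of_ne_zero hn0)]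
    set a : ℝ := (if i + 1 = N then 1 else B1_r N (yy N T (i + 1)) n) -
      (if i = 0 then 0 else B1_r N (yy N T i) n) with ha
    have ha1 : ‖a‖ ≤ 1 := by
      have h5 : 0 ≤ (if i + 1 = N then 1 else B1_r N (yy N T (i + 1)) n) ∧
          (if i + 1 = N then 1 else B1_r N (yy N T (i + 1)) n) ≤ 1 := by
        split_ifs
        · exact ⟨zero_le_one, le_refl _⟩
        · exact B1_r_mem _ _ _
      have h6 : 0 ≤ (if i = 0 then 0 else B1_r N (yy N T i) n) ∧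
          (if i = 0 then 0 else B1_r N (yy N T i) n) ≤ 1 := by
        split_ifs
        · exact ⟨le_refl _, zero_le_one⟩
        · exact B1_r_mem _ _ _
      rw [Real.norm_eq_abs, abs_le]
      constructor
      · linarith [h5.1, h6.2]
      · linarith [h5.2, h6.1]
    have hcase : a = 0 ∨ Y ≤ n := by
      by_cases hle : Y ≤ n
      · exact Or.inr hle
      · left
        push Not at hle
        have hi0 : i ≠ 0 := by
          intro h0
          have h5 : Y = 1 := by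
            rw [hY, h0]
            unfold yy
            rw [Nat.cast_zero, zero_mul, Real.rpow_zero, Real.one_rpow]
          rw [h5] at hle
          linarith
        have hyi : 1 < yy N T i := B1_yy_one hT (Nat.one_le_iff_ne_zero.mpr hi0)
        have hyi1 : 1 < yy N T (i + 1) := B1_yy_one hT (by omega)
        have hmono : yy N T i ≤ yy N T (i + 1) := by
          unfold yy
          refine Real.rpow_le_rpow_of_exponent_le hT1.le ?_
          have := B1_et_pos N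
          push_cast
          nlinarith
        have h6 : B1_r N (yy N T i) n = 1 := B1_r_one hN hyi hn0 hle.le
        have h7 : B1_r N (yy N T (i + 1)) n = 1 := by
          refine B1_r_one hN hyi1 hn0 (hle.le.trans ?_)
          rw [hY]
          refine Real.rpow_le_rpow hyy0.le hmono ?_
          have h8 : 1 / (N : ℝ) ≤ 1 := by
            rw [div_le_one (by linarith)]
            linarith
          linarith
        rw [ha, if_neg hi0, h6, h7]
        split_ifs <;> ring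
    rcases hcase with h0 | hle
    · rw [h0, norm_zero, zero_div]
      exact hnn
    · calc ‖a‖ / (n : ℝ) ^ z.re ≤ 1 / (n : ℝ) ^ ((N : ℝ) + 2) := by
            refine div_le_div₀ zero_le_one ha1 (by positivity) ?_
            exact Real.rpow_le_rpow_of_exponent_le hn1 (by linarith)
        _ = (n : ℝ) ^ (-(N : ℝ)) * (1 / (n : ℝ) ^ 2) := by
            have h9 : (n : ℝ) ^ ((N : ℝ) + 2) = (n : ℝ) ^ (N : ℝ) * (n : ℝ) ^ 2 := by
              rw [← Real.rpow_natCast (n : ℝ) 2, ← Real.rpow_add hnpos]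
              norm_num
            rw [h9, Real.rpow_neg hnpos.le]
            field_simp
        _ ≤ Y ^ (-(N : ℝ)) * (1 / (n : ℝ) ^ 2) :=
            mul_le_mul_of_nonneg_right (B1_pow hY0 hle) (by positivity)
  rw [hY, B1_yy hN hT i] at h4
  have h5 : 0 < T ^ (-((i : ℝ) * (N - 1) * et N)) := Real.rpow_pos_of_pos hT0 _
  linarith

private noncomputable def B1_g (N : ℕ) (y : ℝ) : ℕ → ℂ :=
  B1_t (fun n => ((ArithmeticFunction.moebius n : ℤ) : ℂ) * (Fd N (Real.log n / Real.log y) : ℂ)) y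

private theorem B1_norm_g_le (N : ℕ) (y : ℝ) (n : ℕ) : ‖B1_g N y n‖ ≤ 1 := by
  unfold B1_g B1_t
  split_ifs
  · rw [norm_mul]
    have h1 : ‖((ArithmeticFunction.moebius n : ℤ) : ℂ)‖ ≤ 1 := by
      rw [Complex.norm_intCast]
      exact_mod_cast ArithmeticFunction.abs_moebius_le_one
    have h2 : ‖(Fd N (Real.log n / Real.log y) : ℂ)‖ ≤ 1 := by
      rw [Complex.norm_real, Real.norm_of_nonneg (Fd_mem N _).1]
      exact (Fd_mem N _).2
    calc _ ≤ (1 : ℝ) * 1 := mul_le_mul h1 h2 (norm_nonneg _) zero_le_one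
      _ = 1 := one_mul 1
  · simp

private theorem B1_g_eq {N : ℕ} (hN : 2 ≤ N) {y : ℝ} (hy : 1 < y) {n : ℕ} (hn : n ≠ 0)
    (hn' : (n : ℝ) ≤ y ^ (1 - 1 / (N : ℝ))) :
    B1_g N y n = ((ArithmeticFunction.moebius n : ℤ) : ℂ) := by
  unfold B1_g B1_t
  rw [if_pos (B1_mem hN hy hn hn')]
  show ((ArithmeticFunction.moebius n : ℤ) : ℂ) * (Fd N (Real.log n / Real.log y) : ℂ) = _
  rw [Fd_one (by omega) (B1_log hy hn hn'), Complex.ofReal_one, mul_one]

private theorem B1_conv_apply (N : ℕ) (y : ℝ) (n : ℕ) :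
    LSeries.convolution 1 (B1_g N y) n = ∑ d ∈ n.divisors, B1_g N y d := by
  rw [LSeries.convolution_def]
  simp only [Pi.one_apply, one_mul]
  exact Nat.sum_divisorsAntidiagonal' (f := fun _ b => B1_g N y b)

private theorem B1_conv_one {N : ℕ} (hN : 2 ≤ N) {y : ℝ} (hy : 1 < y) :
    LSeries.convolution 1 (B1_g N y) 1 = 1 := by
  rw [B1_conv_apply, Nat.divisors_one, Finset.sum_singleton, B1_g_eq hN hy one_ne_zero]
  · simp
  · rw [Nat.cast_one]
    refine Real.one_le_rpow hy.le ?_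
    have hN2 : (2 : ℝ) ≤ N := by exact_mod_cast hN
    have h8 : 1 / (N : ℝ) ≤ 1 := by
      rw [div_le_one (by linarith)]
      linarith
    linarith

private theorem B1_conv_zero {N : ℕ} (hN : 2 ≤ N) {y : ℝ} (hy : 1 < y) {n : ℕ} (hn : 2 ≤ n)
    (hn' : (n : ℝ) ≤ y ^ (1 - 1 / (N : ℝ))) : LSeries.convolution 1 (B1_g N y) n = 0 := by
  rw [B1_conv_apply]
  have h1 : ∑ d ∈ n.divisors, B1_g N y d
      = ∑ d ∈ n.divisors, ((ArithmeticFunction.moebius d : ℤ) : ℂ) := by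
    refine Finset.sum_congr rfl fun d hd => ?_
    have hdn := Nat.mem_divisors.mp hd
    have hd0 : d ≠ 0 := by
      rintro rfl
      exact hdn.2 (Nat.eq_zero_of_zero_dvd hdn.1)
    have hle : (d : ℝ) ≤ n := by exact_mod_cast Nat.le_of_dvd (by omega) hdn.1
    exact B1_g_eq hN hy hd0 (hle.trans hn')
  have h2 : ∑ d ∈ n.divisors, ArithmeticFunction.moebius d = 0 := by
    have h3 := ArithmeticFunction.coe_mul_zeta_apply (f := ArithmeticFunction.moebius) (x := n)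
    rw [ArithmeticFunction.moebius_mul_coe_zeta, ArithmeticFunction.one_apply_ne (by omega)] at h3
    exact h3.symm
  rw [h1, ← Int.cast_sum, h2, Int.cast_zero]

private theorem B1_norm_conv_le (N : ℕ) (y : ℝ) (n : ℕ) :
    ‖LSeries.convolution 1 (B1_g N y) n‖ ≤ n := by
  rw [B1_conv_apply]
  calc ‖∑ d ∈ n.divisors, B1_g N y d‖ ≤ ∑ d ∈ n.divisors, ‖B1_g N y d‖ := norm_sum_le _ _
    _ ≤ ∑ d ∈ n.divisors, (1 : ℝ) := Finset.sum_le_sum fun d _ => B1_norm_g_le N y d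
    _ = (n.divisors.card : ℝ) := by simp
    _ ≤ n := by exact_mod_cast Nat.card_divisors_le_self n

theorem AA_far (N : ℕ) (hN : 2 ≤ N) {T : ℝ} (hT : Real.exp 1 ≤ T) {k : ℕ} (hk : k ≤ N) {s : ℂ}
    (hs : s.re = N + 3) :
    ‖AA N T k s‖ ≤ 4 * T ^ (-((k : ℝ) * (N - 1) * et N)) := by
  have hT0 : 0 < T := (Real.exp_pos 1).trans_le hT
  have hN2 : (2 : ℝ) ≤ N := by exact_mod_cast hN
  rcases Nat.eq_zero_or_pos k with hk0 | hk0
  · unfold AA
    rw [if_pos hk0, hk0, Nat.cast_zero, zero_mul, zero_mul, neg_zero, Real.rpow_zero, norm_one]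
    norm_num
  set y := yy N T k with hydef
  have hy : 1 < y := B1_yy_one hT hk0
  have hy0 : 0 < y := by linarith
  set Y : ℝ := y ^ (1 - 1 / (N : ℝ)) with hY
  have hY0 : 0 < Y := Real.rpow_pos_of_pos hy0 _
  have hz : LSeriesHasSum 1 s (riemannZeta s) := LSeriesHasSum_one (by rw [hs]; linarith)
  have hg : LSeriesHasSum (B1_g N y) s (Mx N y (nC s)) := B1_hasSum _ y s
  have hc : LSeriesHasSum (LSeries.convolution 1 (B1_g N y)) s (riemannZeta s * Mx N y (nC s)) :=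
    hz.convolution hg
  have hd : HasSum (LSeries.term LSeries.delta s) 1 := by
    have e : LSeries.term LSeries.delta s = fun n => if n = 1 then (1 : ℂ) else 0 := by
      funext n
      exact LSeries.term_delta s n
    rw [e]
    exact hasSum_ite_eq 1 1
  have hsub := hd.sub hc
  have h4 : ‖AA N T k s‖ ≤ 2 * Y ^ (-(N : ℝ)) := by
    unfold AA
    rw [if_neg (by omega)]
    refine B1_bound hY0 hsub fun n => ?_
    have hnn : 0 ≤ Y ^ (-(N : ℝ)) * (1 / (n : ℝ) ^ 2) := by positivity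
    rcases eq_or_ne n 0 with rfl | hn0
    · simp
    rcases eq_or_ne n 1 with rfl | hn1
    · rw [LSeries.term_delta, if_pos rfl, LSeries.term_of_ne_zero one_ne_zero, B1_conv_one hN hy]
      simpa using hnn
    have hn2 : 2 ≤ n := by omega
    rw [LSeries.term_delta, if_neg hn1, zero_sub, norm_neg, LSeries.term_of_ne_zero hn0]
    by_cases hle : (n : ℝ) ≤ Y
    · rw [B1_conv_zero hN hy hn2 hle, zero_div, norm_zero]
      exact hnn
    · push Not at hle
      have hnpos : (0 : ℝ) < n := hY0.trans hle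
      rw [norm_div, Complex.norm_natCast_cpow_of_pos (Nat.pos_of_ne_zero hn0), hs]
      have h1 : (n : ℝ) ^ ((N : ℝ) + 3) = (n : ℝ) * ((n : ℝ) ^ (N : ℝ) * (n : ℝ) ^ 2) := by
        rw [← Real.rpow_natCast (n : ℝ) 2, ← Real.rpow_add hnpos]
        nth_rewrite 2 [← Real.rpow_one (n : ℝ)]
        rw [← Real.rpow_add hnpos]
        congr 1
        push_cast
        ring
      calc ‖LSeries.convolution 1 (B1_g N y) n‖ / (n : ℝ) ^ ((N : ℝ) + 3)
          ≤ (n : ℝ) / (n : ℝ) ^ ((N : ℝ) + 3) := by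
            gcongr
            exact B1_norm_conv_le N y n
        _ = (n : ℝ) ^ (-(N : ℝ)) * (1 / (n : ℝ) ^ 2) := by
            rw [h1, Real.rpow_neg hnpos.le]
            field_simp
        _ ≤ _ := mul_le_mul_of_nonneg_right (B1_pow hY0 hle.le) (by positivity)
  rw [hY, hydef, B1_yy hN hT k] at h4
  have h5 : 0 < T ^ (-((k : ℝ) * (N - 1) * et N)) := Real.rpow_pos_of_pos hT0 _
  linarith

end Pool.Agent.UV
end
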