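import Pool.Agent.Lib.MP_69b2e4_nt.UH.Defs
import Pool.Agent.Lib.MP_69b2e4_nt.GH.SysEx
import Pool.Agent.Lib.MP_69b2e4_nt.Mg.G007
import Pool.Agent.Lib.MP_69b2e4_nt.Mg.G010

section

/-! TASK S1. Existence of the block system (from the system of the library `GH`).
Use `SysEx_main` (GH/SysEx.lean; read its hypotheses; `sys_exists` at the end of that file shows how they are met for all large `T`: copy its choice of `T0`) with
`k = 1`, `p0 = 2`, and a small `θ` (chosen below) to get, for `T ≥ T0`, `Good (SysEx_S 1 θ T 2) C' c'` with `C' = 2 C / cc lam`; note that `(SysEx_S 1 θ T 2).l j = ⌈exp(j/2)/θ²⌉₊ ≥ (1 + j/2)/θ²` by definition.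
Put `S := ⟨T, SysEx_J T, R, l, N⟩` with `R, l, N` those of `SysEx_S 1 θ T 2`. Then with `L = log T`:
* `prime`: `p ∈ R j` has `log p ≤ θ^5 L`, so `p ≤ T^{θ^5} ≤ T^{1/5} < ⌊T^{1/5}⌋ + 1 = M1 T` (`θ ≤ 1/100`).
* `disj`, `N_ge`, `prime` (`p ≤ N j`): from `Good`. `T_ge`: `T0 ≥ e`.
* `l_ge`, `l_big`: `l_j ≥ 1/θ² ≥ N0`, `≥ 2/lam`, `≥ 2/(1-lam)` for `θ` small.
* `trunc`: write `g = cc lam > 0` (`g ≤ 1/8`). From `Good.trunc` (all terms are nonnegative, `θ ≤ 1`) each `j ≤ J` has `2^{-l_j} exp(C'(s_j+1)) ≤ 1`, `s_j = sR (R j)`; raise to the power `g/2`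
  (`C' g/2 = C`): `2^{-g l_j/2} exp(C(s_j+1)) ≤ 1`, so `2^{-g l_j} exp(C (s_j+1)) ≤ 2^{-g l_j/2}`, and `∑_j 2^{-g l_j/2} ≤ ∑_j 2^{-g(1+j/2)/(2θ²)} ≤ 1` for `θ` small
  (put `x = 2^{-g/(4θ²)} ≤ 1/2`: the sum is `≤ ∑_j x^{2+j} ≤ 1`).
* `len`: `Good.len` says `∑ (l_j log N_j + 1 + 10) ≤ L/4000`.
* `inn`: the blocks are disjoint sets of primes `≤ T`, so `∑_j s_j ≤ ∑_{p ≤ T} 1/p ≤ 1/2 + log(log T/log 2) + C''/log 2` (`mertens_inv` with `y = 2`, `z = ⌊T⌋`; `log z ≤ log T`).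
* `out`: a prime `p < M1 T` outside all blocks is `2` or has `log p > θ^5 L` (`Good.cover`), so the sum is `≤ 1/2 + ∑_{T^{θ^5} < p ≤ T^{1/5}} 1/p ≤ 1/2 + log(log ⌊T^{1/5}⌋ / log ⌊T^{θ^5}⌋) + C''/log ⌊T^{θ^5}⌋ ≤ D`
  (`log ⌊T^{θ^5}⌋ ≥ θ^5 L/2` for `T ≥ T0`). `D` may depend on `θ`, so on `lam, C, N0`. -/

set_option autoImplicit false

namespace Pool.Agent.UH

open Complex MeasureTheory Finset Pool.Agent.GH
open scoped Real ComplexConjugate

private lemma S1_sys (k C : ℝ) (p0 : ℕ) (hk : 0 < k) (hC : 0 ≤ C) (hp0 : 2 ≤ p0) :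
    ∃ θ0 : ℝ, 0 < θ0 ∧ ∀ θ : ℝ, 0 < θ → θ ≤ θ0 → ∃ c T0 : ℝ, 0 < c ∧ ∀ T : ℝ, T0 ≤ T →
      Good (SysEx_S k θ T p0) C c := by
  obtain ⟨C1, hC1, hm1⟩ := mertens_inv
  obtain ⟨C2, hC2, hm2⟩ := mertens_log
  have hlp0 : 0 < Real.log p0 := Real.log_pos (by exact_mod_cast (by omega : 1 < p0))
  have hlog2 : 0 < Real.log 2 := Real.log_pos (by norm_num)
  set C' : ℝ := max C1 C2 with hC'
  have hC'0 : 0 ≤ C' := hC1.trans (le_max_left _ _)
  have hm : ∀ y z : ℕ, 2 ≤ y → y ≤ z →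
      |∑ p ∈ (Finset.Ioc y z).filter Nat.Prime, 1 / (p : ℝ) -
        Real.log (Real.log z / Real.log y)| ≤ C' / Real.log y := by
    intro y z hy hz
    refine (hm1 y z hy hz).trans ?_
    have : 0 < Real.log y := Real.log_pos (by exact_mod_cast (by omega : 1 < y))
    exact div_le_div_of_nonneg_right (le_max_left _ _) this.le
  have hml : ∀ y z : ℕ, 1 ≤ y → y ≤ z →
      |∑ p ∈ (Finset.Ioc y z).filter Nat.Prime, Real.log p / p -
        (Real.log z - Real.log y)| ≤ C' := fun y z hy hz =>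
    (hm2 y z hy hz).trans (le_max_right _ _)
  refine ⟨min (1 / 100) (min (1 / (30 * (k + 1))) (min (Real.exp (-(3 * C)) / 20)
    (1 / (2000 * (11 * C + 1)) ^ 2))), ?_, ?_⟩
  · refine lt_min (by norm_num) (lt_min (by positivity) (lt_min (by positivity) (by positivity)))
  intro θ hθ hθ0
  have h1 : θ ≤ 1 / 100 := hθ0.trans (min_le_left _ _)
  have h2' : θ ≤ 1 / (30 * (k + 1)) := (hθ0.trans (min_le_right _ _)).trans (min_le_left _ _)
  have h3' : θ ≤ Real.exp (-(3 * C)) / 20 :=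
    ((hθ0.trans (min_le_right _ _)).trans (min_le_right _ _)).trans (min_le_left _ _)
  have h4 : θ ≤ 1 / (2000 * (11 * C + 1)) ^ 2 :=
    ((hθ0.trans (min_le_right _ _)).trans (min_le_right _ _)).trans (min_le_right _ _)
  have h2 : 800 * (k + 1) ^ 2 * θ ^ 2 ≤ 1 := by
    rw [le_div_iff₀ (by positivity)] at h2'
    have h5 : (θ * (30 * (k + 1))) ^ 2 ≤ 1 := pow_le_one₀ (by positivity) h2'
    have h6 : 0 ≤ (k + 1) ^ 2 * θ ^ 2 := by positivity
    nlinarith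
  have h3 : θ ^ 2 ≤ Real.exp (-(3 * C)) / 20 := by
    have : θ ^ 2 ≤ θ := by nlinarith
    linarith
  set D : ℝ := |Real.log (Real.log p0)| + C' / Real.log p0 with hD
  have hD0 : 0 ≤ D := by positivity
  set K : ℝ := 2 * Real.log 2 + 20 * C' + Real.log p0 with hK
  have hK0 : 0 < K := by positivity
  set X0 : ℝ := 1 + 2 * (C + 1) + |C * (D + 1) + Real.log (2 / θ ^ 2)| + D + 800 * (k + 1) ^ 2
    with hX0
  set ε : ℝ := min (θ ^ 5 / (3 * K)) (1 / (48000 * (k + 10))) with hε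
  have hε0 : 0 < ε := lt_min (by positivity) (by positivity)
  have hev1 : ∀ᶠ T : ℝ in Filter.atTop, X0 ≤ Real.log (Real.log T) :=
    (Real.tendsto_log_atTop.comp Real.tendsto_log_atTop).eventually_ge_atTop X0
  have hev2 : ∀ᶠ T : ℝ in Filter.atTop, 1 / θ ^ 10 ≤ Real.log T :=
    Real.tendsto_log_atTop.eventually_ge_atTop _
  have hev3 : ∀ᶠ T : ℝ in Filter.atTop, ‖Real.log (Real.log T) ^ 4‖ ≤ ε * ‖id (Real.log T)‖ :=
    Real.tendsto_log_atTop.eventually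
      ((Real.isLittleO_pow_log_id_atTop (n := 4)).bound hε0)
  obtain ⟨T0, hT0⟩ := Filter.eventually_atTop.1
    ((hev1.and hev2).and (hev3.and (Filter.eventually_ge_atTop (1 : ℝ))))
  refine ⟨_, T0, Real.exp_pos
    (-(k ^ 2 * (Real.log (2 * Real.log p0 / θ ^ 5) + C' / Real.log p0))), ?_⟩
  intro T hT
  obtain ⟨⟨ha, hb⟩, hc, hd⟩ := hT0 T hT
  have hL0 : 0 < Real.log T := lt_of_lt_of_le (by positivity) hb
  have hab := neg_abs_le (C * (D + 1) + Real.log (2 / θ ^ 2))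
  have hab' := le_abs_self (C * (D + 1) + Real.log (2 / θ ^ 2))
  have habn := abs_nonneg (C * (D + 1) + Real.log (2 / θ ^ 2))
  have hk8 : 0 ≤ 800 * (k + 1) ^ 2 := by positivity
  have hX1 : 1 ≤ Real.log (Real.log T) := by linarith
  have hc' : Real.log (Real.log T) ^ 4 ≤ ε * Real.log T := by
    rw [Real.norm_of_nonneg (by positivity), id, Real.norm_of_nonneg hL0.le] at hc
    exact hc
  refine SysEx_main k C C' D K (Real.log (Real.log T)) θ T p0 hk hC hC'0 hp0 hm hml hθ h1 h2 h3 h4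
    hD (by linarith) (by linarith) (by linarith) rfl hX1 (by linarith) (by linarith) (by linarith)
    (by linarith) hd hb ?_ ?_
  · have h5 : ε ≤ θ ^ 5 / (3 * K) := min_le_left _ _
    have h6 : Real.log (Real.log T) ^ 4 ≤ θ ^ 5 / (3 * K) * Real.log T :=
      hc'.trans (mul_le_mul_of_nonneg_right h5 hL0.le)
    calc 3 * K * Real.log (Real.log T) ^ 4 ≤ 3 * K * (θ ^ 5 / (3 * K) * Real.log T) :=
          mul_le_mul_of_nonneg_left h6 (by positivity)
      _ = θ ^ 5 * Real.log T := by field_simp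
  · have h5 : ε ≤ 1 / (48000 * (k + 10)) := min_le_right _ _
    have h6 : Real.log (Real.log T) ^ 4 ≤ 1 / (48000 * (k + 10)) * Real.log T :=
      hc'.trans (mul_le_mul_of_nonneg_right h5 hL0.le)
    calc 48000 * (k + 10) * Real.log (Real.log T) ^ 4 ≤
        48000 * (k + 10) * (1 / (48000 * (k + 10)) * Real.log T) :=
          mul_le_mul_of_nonneg_left h6 (by positivity)
      _ = Real.log T := by field_simp

private lemma S1_log_ge {x : ℝ} (hx : 2 * Real.log 2 ≤ x) :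
    x / 2 ≤ Real.log (⌊Real.exp x⌋₊ : ℝ) := by
  have h2 : 0 < Real.log 2 := Real.log_pos (by norm_num)
  have h1 : Real.exp x / 2 ≤ (⌊Real.exp x⌋₊ : ℝ) := by
    have h3 : Real.exp x < (⌊Real.exp x⌋₊ : ℝ) + 1 := Nat.lt_floor_add_one _
    have h4 : (2 : ℝ) ≤ Real.exp x := by
      rw [← Real.log_le_iff_le_exp (by norm_num)]; linarith
    linarith
  have h5 : Real.log (Real.exp x / 2) ≤ Real.log (⌊Real.exp x⌋₊ : ℝ) :=
    Real.log_le_log (by positivity) h1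
  rw [Real.log_div (Real.exp_pos x).ne' (by norm_num), Real.log_exp] at h5
  linarith

private lemma S1_rpow_eq (x : ℝ) : (2 : ℝ)⁻¹ ^ x = Real.exp (-(Real.log 2 * x)) := by
  rw [Real.rpow_def_of_pos (by norm_num), Real.log_inv]
  ring_nf

private lemma S1_pow_eq (m : ℕ) : (2 : ℝ)⁻¹ ^ m = Real.exp (-(Real.log 2 * m)) := by
  rw [← Real.rpow_natCast, Real.rpow_def_of_pos (by norm_num), Real.log_inv]
  ring_nf

private lemma S1_geom (n : ℕ) : ∑ j ∈ range n, (2 : ℝ)⁻¹ ^ j ≤ 2 := by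
  calc ∑ j ∈ range n, (2 : ℝ)⁻¹ ^ j ≤ ∑' j : ℕ, (2 : ℝ)⁻¹ ^ j :=
        (summable_geometric_of_lt_one (by norm_num) (by norm_num)).sum_le_tsum _
          (fun i _ => pow_nonneg (by norm_num) i)
    _ = (1 - (2 : ℝ)⁻¹)⁻¹ := tsum_geometric_of_lt_one (by norm_num) (by norm_num)
    _ = 2 := by norm_num

/-- The truncation sum. -/
private lemma S1_trunc {g C C' : ℝ} (hg : 0 < g) (hCC : C' * (g / 2) = C) (J : ℕ)
    (l : ℕ → ℕ) (s : ℕ → ℝ) (hl : ∀ j : ℕ, (2 : ℝ) + j ≤ g / 2 * l j)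
    (h : ∀ j ≤ J, (2 : ℝ)⁻¹ ^ (l j) * Real.exp (C' * (s j + 1)) ≤ 1) :
    ∑ j ∈ range (J + 1), (2 : ℝ)⁻¹ ^ (g * l j) * Real.exp (C * (s j + 1)) ≤ 1 := by
  have hlog2 : 0 < Real.log 2 := Real.log_pos (by norm_num)
  calc ∑ j ∈ range (J + 1), (2 : ℝ)⁻¹ ^ (g * l j) * Real.exp (C * (s j + 1))
      ≤ ∑ j ∈ range (J + 1), (1 / 4) * (2 : ℝ)⁻¹ ^ j := by
        refine sum_le_sum fun j hj => ?_
        have h1 := h j (Nat.lt_succ_iff.1 (mem_range.1 hj))
        rw [S1_pow_eq, ← Real.exp_add, Real.exp_le_one_iff] at h1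
        have h4 : (1 / 4 : ℝ) = Real.exp (-(Real.log 2 * 2)) := by
          rw [← S1_rpow_eq]; norm_num
        rw [S1_rpow_eq, S1_pow_eq, h4, ← Real.exp_add, ← Real.exp_add]
        apply Real.exp_le_exp.2
        have h5 : C * (s j + 1) ≤ g / 2 * (Real.log 2 * l j) := by
          have h6 : C' * (s j + 1) ≤ Real.log 2 * l j := by linarith
          have h7 := mul_le_mul_of_nonneg_left h6 (show (0 : ℝ) ≤ g / 2 by positivity)
          rw [← hCC]
          linarith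
        have h8 := mul_le_mul_of_nonneg_left (hl j) hlog2.le
        linarith
    _ ≤ 1 / 4 * 2 := by
        rw [← mul_sum]
        exact mul_le_mul_of_nonneg_left (S1_geom _) (by norm_num)
    _ ≤ 1 := by norm_num

theorem bs_exists (lam C : ℝ) (N0 : ℕ) (h0 : 0 < lam) (h1 : lam < 1) (hC : 3 ≤ C) :
    ∃ D T0 : ℝ, 0 ≤ D ∧ ∀ T : ℝ, T0 ≤ T → ∃ S : BS, S.T = T ∧ BGood S lam C N0 D := by
  have hlog2 : 0 < Real.log 2 := Real.log_pos (by norm_num)
  obtain ⟨C2, hC2, hm⟩ := mertens_inv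
  have hg0 : 0 < cc lam := by
    unfold cc
    have : 0 < min lam (1 - lam) := lt_min h0 (by linarith)
    linarith
  have hg1 : cc lam ≤ 1 := by
    unfold cc
    have : min lam (1 - lam) ≤ lam := min_le_left _ _
    linarith
  set g : ℝ := cc lam with hg
  set C' : ℝ := 2 * C / g with hC'
  have hC'0 : 0 ≤ C' := by positivity
  have hCC : C' * (g / 2) = C := by
    rw [hC']
    field_simp
  obtain ⟨θ0, hθ0, hsys⟩ := S1_sys 1 C' 2 one_pos hC'0 le_rfl
  set θ : ℝ := min θ0 (min (1 / (N0 + 1)) (min (lam / 2) (min ((1 - lam) / 2) (min (g / 4) (1 / 100)))))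
    with hθdef
  have hθ : 0 < θ := by
    refine lt_min hθ0 (lt_min (by positivity) (lt_min (by positivity) (lt_min (by linarith)
      (lt_min (by positivity) (by norm_num)))))
  have t0 : θ ≤ θ0 := min_le_left _ _
  have t1 : θ ≤ 1 / (N0 + 1) := (min_le_right _ _).trans (min_le_left _ _)
  have t2 : θ ≤ lam / 2 := (min_le_right _ _).trans ((min_le_right _ _).trans (min_le_left _ _))
  have t3 : θ ≤ (1 - lam) / 2 := (min_le_right _ _).trans ((min_le_right _ _).trans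
    ((min_le_right _ _).trans (min_le_left _ _)))
  have t4 : θ ≤ g / 4 := (min_le_right _ _).trans ((min_le_right _ _).trans
    ((min_le_right _ _).trans ((min_le_right _ _).trans (min_le_left _ _))))
  have t5 : θ ≤ 1 / 100 := (min_le_right _ _).trans ((min_le_right _ _).trans
    ((min_le_right _ _).trans ((min_le_right _ _).trans (min_le_right _ _))))
  have hθ1 : θ ≤ 1 := by linarith
  have hθsq : θ ^ 2 ≤ θ := by nlinarith
  obtain ⟨c, T0, hc, hgood⟩ := hsys θ hθ t0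
  have hθ5 : 0 < θ ^ 5 := by positivity
  have hθ5' : θ ^ 5 ≤ 1 / 5 := by
    have h2 : θ ^ 5 ≤ θ := by
      calc θ ^ 5 = θ ^ 4 * θ := by ring
        _ ≤ 1 * θ := by
          refine mul_le_mul_of_nonneg_right ?_ hθ.le
          exact pow_le_one₀ hθ.le hθ1
        _ = θ := one_mul θ
    linarith
  set D : ℝ := 1 / 2 + |Real.log (Real.log 2)| + C2 / Real.log 2 + |Real.log (2 / (5 * θ ^ 5))|
    with hD
  have hD0 : 0 ≤ D := by positivity
  refine ⟨D, max T0 (Real.exp 1), hD0, fun T hT => ?_⟩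
  have hG := hgood T ((le_max_left _ _).trans hT)
  have hTe : Real.exp 1 ≤ T := (le_max_right _ _).trans hT
  have hTpos : 0 < T := lt_of_lt_of_le (Real.exp_pos 1) hTe
  set S' : Sys := SysEx_S 1 θ T 2 with hS'
  have hL1 : 1 / θ ^ 10 ≤ Real.log T := hG.L_ge
  have hL0 : 0 < Real.log T := lt_of_lt_of_le (by positivity) hL1
  have hθL : 2 * Real.log 2 ≤ θ ^ 5 * Real.log T := by
    have h2 : (100 : ℝ) ≤ 1 / θ ^ 5 := by
      rw [le_div_iff₀ hθ5]
      have h3 : θ ^ 5 ≤ 1 / 100 := by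
        calc θ ^ 5 = θ ^ 4 * θ := by ring
          _ ≤ 1 * θ := by
            refine mul_le_mul_of_nonneg_right ?_ hθ.le
            exact pow_le_one₀ hθ.le hθ1
          _ ≤ 1 / 100 := by rw [one_mul]; exact t5
      linarith
    have h4 : 1 / θ ^ 5 ≤ θ ^ 5 * Real.log T := by
      have h5 := mul_le_mul_of_nonneg_left hL1 hθ5.le
      have h6 : θ ^ 5 * (1 / θ ^ 10) = 1 / θ ^ 5 := by field_simp
      rwa [h6] at h5
    have := Real.log_two_lt_d9
    linarith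
  have hlog5 : ∀ p : ℕ, 0 < p → Real.log p ≤ θ ^ 5 * Real.log T → p < M1 T := by
    intro p hp hlp
    unfold M1 Mof
    rw [Nat.lt_succ_iff, Nat.le_floor_iff (by positivity)]
    have hp' : (0 : ℝ) < p := by exact_mod_cast hp
    rw [← Real.log_le_log_iff hp' (by positivity), Real.log_rpow hTpos]
    have := mul_le_mul_of_nonneg_right hθ5' hL0.le
    linarith
  have hlj : ∀ j : ℕ, (1 + (j : ℝ) / 2) / θ ^ 2 ≤ (S'.l j : ℝ) := by
    intro j
    change _ ≤ ((⌈Real.exp ((j : ℝ) / 2) / θ ^ 2⌉₊ : ℕ) : ℝ)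
    refine le_trans ?_ (Nat.le_ceil _)
    apply div_le_div_of_nonneg_right _ (by positivity)
    have := Real.add_one_le_exp ((j : ℝ) / 2)
    linarith
  have hlj' : ∀ j : ℕ, 1 / θ ≤ (S'.l j : ℝ) := by
    intro j
    refine le_trans ?_ (hlj j)
    rw [div_le_div_iff₀ hθ (by positivity)]
    have hj : (0 : ℝ) ≤ j := Nat.cast_nonneg j
    nlinarith
  refine ⟨⟨T, S'.J, S'.R, S'.l, S'.N⟩, rfl, ?_⟩
  refine ⟨h0, h1, hC, hD0, hTe, ?_, hG.disj, hG.N_ge, ?_, ?_, ?_, ?_, ?_, ?_⟩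
  · -- prime
    intro j hj p hp
    obtain ⟨hp1, hp2, hp3, hp4⟩ := hG.prime j hj p hp
    exact ⟨hp1, hlog5 p hp1.pos hp3, hp4⟩
  · -- l_ge
    intro j _
    have h2 : (N0 : ℝ) ≤ S'.l j := by
      refine le_trans ?_ (hlj' j)
      rw [le_div_iff₀ hθ]
      rw [le_div_iff₀ (by positivity)] at t1
      nlinarith
    exact_mod_cast h2
  · -- l_big
    intro j _
    have h2 := hlj' j
    constructor
    · have h3 : lam * (1 / θ) ≤ lam * S'.l j := mul_le_mul_of_nonneg_left h2 h0.le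
      refine le_trans ?_ h3
      rw [mul_one_div, le_div_iff₀ hθ]
      linarith
    · have h3 : (1 - lam) * (1 / θ) ≤ (1 - lam) * S'.l j :=
        mul_le_mul_of_nonneg_left h2 (by linarith)
      refine le_trans ?_ h3
      rw [mul_one_div, le_div_iff₀ hθ]
      linarith
  · -- trunc
    refine S1_trunc hg0 hCC S'.J S'.l (fun j => sR (S'.R j)) ?_ ?_
    · intro j
      have h2 := mul_le_mul_of_nonneg_left (hlj j) (show (0 : ℝ) ≤ g / 2 by positivity)
      refine le_trans ?_ h2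
      rw [mul_div_assoc', le_div_iff₀ (by positivity)]
      have hj : (0 : ℝ) ≤ j := Nat.cast_nonneg j
      have h3 : θ ^ 2 ≤ g / 4 := hθsq.trans t4
      have h4 := mul_le_mul_of_nonneg_left h3 (show (0 : ℝ) ≤ 2 + j by positivity)
      linarith
    · intro j hj
      have h2 := hG.trunc
      have h3 : (2 : ℝ)⁻¹ ^ (S'.l j) * Real.exp (C' * (sR (S'.R j) + 1)) ≤
          ∑ j ∈ Finset.range (S'.J + 1), (2 : ℝ)⁻¹ ^ (S'.l j) * Real.exp (C' * (sR (S'.R j) + 1)) :=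
        Finset.single_le_sum (f := fun j =>
          (2 : ℝ)⁻¹ ^ (S'.l j) * Real.exp (C' * (sR (S'.R j) + 1)))
          (fun i _ => by positivity) (mem_range.2 (Nat.lt_succ_of_le hj))
      have h4 : S'.θ ^ 2 ≤ 1 := by
        change θ ^ 2 ≤ 1
        linarith
      exact h3.trans (h2.trans h4)
  · -- len
    have h2 := hG.len
    refine le_trans ?_ h2
    refine sum_le_sum fun j _ => ?_
    have h3 : 0 < S'.k := hG.k_pos
    linarith
  · -- inn
    have hdis : (↑(range (S'.J + 1)) : Set ℕ).PairwiseDisjoint S'.R := by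
      intro i hi j hj hij
      exact hG.disj i (Nat.lt_succ_iff.1 (mem_range.1 hi)) j (Nat.lt_succ_iff.1 (mem_range.1 hj)) hij
    have hsum : ∑ j ∈ range (S'.J + 1), sR (S'.R j) =
        ∑ p ∈ (range (S'.J + 1)).biUnion S'.R, 1 / (p : ℝ) := by
      rw [sum_biUnion hdis]
      rfl
    have hsub : (range (S'.J + 1)).biUnion S'.R ⊆ (Finset.Ioc 2 ⌊T⌋₊).filter Nat.Prime := by
      intro p hp
      obtain ⟨j, hj, hpj⟩ := mem_biUnion.1 hp
      obtain ⟨hp1, hp2, hp3, hp4⟩ := hG.prime j (Nat.lt_succ_iff.1 (mem_range.1 hj)) p hpj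
      rw [mem_filter, mem_Ioc]
      refine ⟨⟨hp2, ?_⟩, hp1⟩
      rw [Nat.le_floor_iff hTpos.le]
      have hp' : (0 : ℝ) < p := by exact_mod_cast hp1.pos
      rw [← Real.log_le_log_iff hp' hTpos]
      have h5 : Real.log p ≤ θ ^ 5 * Real.log T := hp3
      have := mul_le_mul_of_nonneg_right hθ5' hL0.le
      linarith
    have hT2 : 2 ≤ ⌊T⌋₊ := by
      rw [Nat.le_floor_iff hTpos.le]
      have := Real.exp_one_gt_d9
      push_cast
      linarith
    have h5 := (abs_le.1 (hm 2 ⌊T⌋₊ le_rfl hT2)).2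
    have h6 : ∑ p ∈ (range (S'.J + 1)).biUnion S'.R, 1 / (p : ℝ) ≤
        ∑ p ∈ (Finset.Ioc 2 ⌊T⌋₊).filter Nat.Prime, 1 / (p : ℝ) :=
      sum_le_sum_of_subset_of_nonneg hsub fun p _ _ => by positivity
    have hflT : (0 : ℝ) < Real.log (⌊T⌋₊ : ℝ) :=
      Real.log_pos (by exact_mod_cast (by omega : 1 < ⌊T⌋₊))
    have h7 : Real.log (Real.log (⌊T⌋₊ : ℝ) / Real.log ((2 : ℕ) : ℝ)) ≤
        Real.log (Real.log T) + |Real.log (Real.log 2)| := by
      have e2 : ((2 : ℕ) : ℝ) = 2 := by norm_num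
      rw [e2, Real.log_div hflT.ne' hlog2.ne']
      have h8 : Real.log (Real.log (⌊T⌋₊ : ℝ)) ≤ Real.log (Real.log T) := by
        apply Real.log_le_log hflT
        apply Real.log_le_log (by exact_mod_cast (by omega : 0 < ⌊T⌋₊))
        exact Nat.floor_le hTpos.le
      have h9 := neg_abs_le (Real.log (Real.log 2))
      linarith
    have h10 := abs_nonneg (Real.log (2 / (5 * θ ^ 5)))
    have e2 : ((2 : ℕ) : ℝ) = 2 := by norm_num
    rw [e2] at h5 h7
    change ∑ j ∈ range (S'.J + 1), sR (S'.R j) ≤ Real.log (Real.log T) + D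
    rw [hsum, hD]
    linarith
  · -- out
    set n0 : ℕ := ⌊Real.exp (θ ^ 5 * Real.log T)⌋₊ with hn0
    set z : ℕ := ⌊T ^ (1 / 5 : ℝ)⌋₊ with hz
    have hM : M1 T = z + 1 := rfl
    have hn0log : θ ^ 5 * Real.log T / 2 ≤ Real.log (n0 : ℝ) := S1_log_ge hθL
    have hn02 : 2 ≤ n0 := by
      rw [hn0, Nat.le_floor_iff (Real.exp_pos _).le, ← Real.log_le_iff_le_exp (by norm_num)]
      push_cast
      linarith
    have hn0z : n0 ≤ z := by
      apply Nat.floor_mono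
      rw [Real.rpow_def_of_pos hTpos]
      apply Real.exp_le_exp.2
      have := mul_le_mul_of_nonneg_right hθ5' hL0.le
      linarith
    have hsub : Nat.primesBelow (M1 T) \ (range (S'.J + 1)).biUnion S'.R ⊆
        insert 2 ((Finset.Ioc n0 z).filter Nat.Prime) := by
      intro p hp
      rw [mem_sdiff] at hp
      obtain ⟨hp1, hp2⟩ := hp
      rw [Nat.mem_primesBelow] at hp1
      obtain ⟨hp1, hpp⟩ := hp1
      rw [mem_insert]
      by_cases hp2' : p = 2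
      · exact Or.inl hp2'
      right
      rw [mem_filter, mem_Ioc]
      have h2p : 2 < p := lt_of_le_of_ne hpp.two_le (Ne.symm hp2')
      refine ⟨⟨?_, by rw [hM] at hp1; omega⟩, hpp⟩
      by_contra hlt
      rw [not_lt, hn0, Nat.le_floor_iff (Real.exp_pos _).le,
        ← Real.log_le_iff_le_exp (by exact_mod_cast hpp.pos)] at hlt
      obtain ⟨j, hj, hpj⟩ := hG.cover p hpp h2p hlt
      exact hp2 (mem_biUnion.2 ⟨j, mem_range.2 (Nat.lt_succ_of_le hj), hpj⟩)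
    have h5 := (abs_le.1 (hm n0 z hn02 hn0z)).2
    have h6 : ∑ p ∈ Nat.primesBelow (M1 T) \ (range (S'.J + 1)).biUnion S'.R, 1 / (p : ℝ) ≤
        ∑ p ∈ insert 2 ((Finset.Ioc n0 z).filter Nat.Prime), 1 / (p : ℝ) :=
      sum_le_sum_of_subset_of_nonneg hsub fun p _ _ => by positivity
    have h7 : ∑ p ∈ insert 2 ((Finset.Ioc n0 z).filter Nat.Prime), 1 / (p : ℝ) ≤
        1 / 2 + ∑ p ∈ (Finset.Ioc n0 z).filter Nat.Prime, 1 / (p : ℝ) := by
      rw [sum_insert]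
      · norm_num
      · rw [mem_filter, mem_Ioc]
        omega
    have hn0pos : 0 < Real.log (n0 : ℝ) := by
      have : 0 < θ ^ 5 * Real.log T / 2 := by positivity
      linarith
    have hzlog : Real.log (z : ℝ) ≤ Real.log T / 5 := by
      have hz1 : 0 < z := by omega
      have h8 : (z : ℝ) ≤ T ^ (1 / 5 : ℝ) := Nat.floor_le (by positivity)
      have h9 := Real.log_le_log (by exact_mod_cast hz1) h8
      rw [Real.log_rpow hTpos] at h9
      linarith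
    have hzpos : 0 < Real.log (z : ℝ) := Real.log_pos (by exact_mod_cast (by omega : 1 < z))
    have h8 : Real.log (Real.log z / Real.log n0) ≤ |Real.log (2 / (5 * θ ^ 5))| := by
      refine le_trans ?_ (le_abs_self _)
      apply Real.log_le_log (by positivity)
      rw [div_le_div_iff₀ hn0pos (by positivity)]
      have e1 : Real.log (z : ℝ) * (5 * θ ^ 5) ≤ Real.log T / 5 * (5 * θ ^ 5) :=
        mul_le_mul_of_nonneg_right hzlog (by positivity)
      linarith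
    have h9 : C2 / Real.log n0 ≤ C2 / Real.log 2 := by
      apply div_le_div_of_nonneg_left hC2 hlog2
      linarith
    have h10 := abs_nonneg (Real.log (Real.log 2))
    change ∑ p ∈ Nat.primesBelow (M1 T) \ (range (S'.J + 1)).biUnion S'.R, 1 / (p : ℝ) ≤ D
    rw [hD]
    linarith

end Pool.Agent.UH
end

section

/-! TASK A2. The main estimate (A*) on the critical line.
Case `lam < 1` (so `0 < lam < 1`; put `mu = a lam`, `lam + mu ≤ 1`). Choose `C = max 3 (C0 of mom_a, mom_b, mom_c)`, `N0 = N1` of `weights_ge`, `D` and `T0` from `bs_exists`, for `T ≥ T0` the system `S` with `S.T = T`.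
At `χ = nC (1/2+it)` write `z = |ζ(1/2+it)|²`, `m = |1 - ζ M|²`, `A = Wm², B = Wp²` (`A, B > 0`: even lengths; or only `≥ 0`). `weights_ge`: `1 ≤ 4 A^lam B^{1-lam}`, hence (everything `≥ 0`)
`|ff|^{2 lam} = z^lam m^{mu} ≤ 4 A^lam B^{1-lam} z^lam m^mu = 4 (z A)^lam (m B)^mu B^{1-lam-mu}` (`|ff| = |ζ| |1-ζM|^a`, `|ff|^{2lam} = (|ζ|²)^lam (|1-ζM|²)^{a lam}`).
Hölder's inequality with three functions and exponents `lam, mu, 1-lam-mu` summing to 1 (`ENNReal.lintegral_prod_norm_pow_le` with `Fin 3`, or twice `ENNReal.lintegral_mul_norm_pow_le`): the integral over `[T,3T]` is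
`≤ 4 (∫ zA)^lam (∫ mB)^mu (∫ B)^{1-lam-mu}`; `∫ zA ≤ K T L^{lam²}` (`mom_a`), `∫ B ≤ K T L^{lam²}` (`mom_c`), `m ≤ 2 + 2 |ζ|²|M|²`, so `∫ mB ≤ 2 ∫ B + 2 ∫ |ζ|²|M|² B ≤ 4K T L^{lam²}` (`mom_b`). Total `≤ 16 K T L^{lam²}`.
Case `lam = 1`: then `a = 0` (`(1+a) lam ≤ 1`), `ff = ζ`; `twist` with `g = 1` (`isDP2_const`, `mono`): `∫ |ζ|² ≤ C (T E‖Zt‖² + T)`, `E ‖Zt (primesBelow M1) (1/2)‖² = ∏ (1-1/p)^{-1} ≤ exp(∑ 1/p + 2 ∑ 1/p²) ≤ K log T`
(`main_block` with `b = 0`, `al = 0` gives `E ≤ exp(∑ 1/p + C ∑ p^{-2})`; `mertens_inv`: `∑_{p ≤ M1} 1/p ≤ log log T + C`). -/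

set_option autoImplicit false

namespace Pool.Agent.UH

open Complex MeasureTheory Finset Pool.Agent.GH
open scoped Real ComplexConjugate

private theorem A2_zeta : Continuous fun t : ℝ => riemannZeta (1 / 2 + t * I) := by
  refine continuous_iff_continuousAt.2 fun t => ?_
  have h1 : (1 / 2 + (t : ℂ) * I) ≠ 1 := by
    intro h
    have h2 := congrArg Complex.re h
    norm_num at h2
  exact ContinuousAt.comp (f := fun t : ℝ => (1 / 2 + (t : ℂ) * I)) (g := riemannZeta)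
    (differentiableAt_riemannZeta h1).continuousAt (by fun_prop)

private theorem A2_ff (a : ℕ) (T lam : ℝ) (s : ℂ) : ‖ff a T s‖ ^ (2 * lam) =
    (‖riemannZeta s‖ ^ 2) ^ lam * (‖1 - riemannZeta s * Mo (yT T) (nC s)‖ ^ 2) ^ (a * lam) := by
  unfold ff
  rw [norm_mul, norm_pow, Real.mul_rpow (norm_nonneg _) (pow_nonneg (norm_nonneg _) _),
    ← Real.rpow_natCast, ← Real.rpow_natCast, ← Real.rpow_natCast, ← Real.rpow_mul (norm_nonneg _),
    ← Real.rpow_mul (norm_nonneg _), ← Real.rpow_mul (norm_nonneg _)]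
  congr 2
  push_cast
  ring

private theorem A2_point {z m A B lam mu : ℝ} (hz : 0 ≤ z) (hm : 0 ≤ m) (hA : 0 ≤ A) (hB : 0 ≤ B)
    (hmu : 0 ≤ mu) (h1 : lam + mu ≤ 1) (h : 1 / 4 ≤ A ^ lam * B ^ (1 - lam)) :
    z ^ lam * m ^ mu ≤ 4 * ((z * A) ^ lam * (m * B) ^ mu * B ^ (1 - lam - mu)) := by
  have e1 : B ^ (1 - lam) = B ^ mu * B ^ (1 - lam - mu) := by
    rw [← Real.rpow_add_of_nonneg hB hmu (by linarith)]
    congr 1
    ring
  have e2 : 4 * ((z * A) ^ lam * (m * B) ^ mu * B ^ (1 - lam - mu)) =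
      (z ^ lam * m ^ mu) * (4 * (A ^ lam * B ^ (1 - lam))) := by
    rw [e1, Real.mul_rpow hz hA, Real.mul_rpow hm hB]
    ring
  rw [e2]
  refine le_mul_of_one_le_right (mul_nonneg (Real.rpow_nonneg hz _) (Real.rpow_nonneg hm _)) ?_
  linarith

private theorem A2_hoelder {f g h : ℝ → ℝ} {S : Set ℝ} (hf : Continuous f) (hg : Continuous g)
    (hh : Continuous h) (hf0 : ∀ t, 0 ≤ f t) (hg0 : ∀ t, 0 ≤ g t) (hh0 : ∀ t, 0 ≤ h t)
    {lam mu nu : ℝ} (h1 : 0 ≤ lam) (h2 : 0 ≤ mu) (h3 : 0 ≤ nu) (h4 : lam + mu + nu = 1)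
    {R : ENNReal} (i1 : ∫⁻ t in S, ENNReal.ofReal (f t) ≤ R) (i2 : ∫⁻ t in S, ENNReal.ofReal (g t) ≤ R)
    (i3 : ∫⁻ t in S, ENNReal.ofReal (h t) ≤ R) :
    ∫⁻ t in S, ENNReal.ofReal (4 * (f t ^ lam * g t ^ mu * h t ^ nu)) ≤ 4 * R := by
  have k1 : ∀ t, ENNReal.ofReal (4 * (f t ^ lam * g t ^ mu * h t ^ nu)) = 4 *
      ∏ i : Fin 3, (![fun t => ENNReal.ofReal (f t), fun t => ENNReal.ofReal (g t),
        fun t => ENNReal.ofReal (h t)] i t) ^ (![lam, mu, nu] i) := by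
    intro t
    rw [Fin.prod_univ_three, ENNReal.ofReal_mul (by norm_num),
      ENNReal.ofReal_mul (mul_nonneg (Real.rpow_nonneg (hf0 t) _) (Real.rpow_nonneg (hg0 t) _)),
      ENNReal.ofReal_mul (Real.rpow_nonneg (hf0 t) _), ← ENNReal.ofReal_rpow_of_nonneg (hf0 t) h1,
      ← ENNReal.ofReal_rpow_of_nonneg (hg0 t) h2, ← ENNReal.ofReal_rpow_of_nonneg (hh0 t) h3,
      show ENNReal.ofReal 4 = 4 by norm_num]
    rfl
  have m1 : Measurable fun t => ENNReal.ofReal (f t) := (ENNReal.continuous_ofReal.comp hf).measurable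
  have m2 : Measurable fun t => ENNReal.ofReal (g t) := (ENNReal.continuous_ofReal.comp hg).measurable
  have m3 : Measurable fun t => ENNReal.ofReal (h t) := (ENNReal.continuous_ofReal.comp hh).measurable
  simp_rw [k1]
  rw [lintegral_const_mul' _ _ (by norm_num)]
  refine mul_le_mul_right ?_ _
  refine (ENNReal.lintegral_prod_norm_pow_le (μ := volume.restrict S) univ (p := ![lam, mu, nu])
    (f := ![fun t => ENNReal.ofReal (f t), fun t => ENNReal.ofReal (g t),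
        fun t => ENNReal.ofReal (h t)]) ?_ ?_ ?_).trans ?_
  · intro i _
    fin_cases i
    · exact m1.aemeasurable
    · exact m2.aemeasurable
    · exact m3.aemeasurable
  · rw [Fin.sum_univ_three]
    exact h4
  · intro i _
    fin_cases i
    · exact h1
    · exact h2
    · exact h3
  · rw [Fin.prod_univ_three]
    show (∫⁻ t in S, ENNReal.ofReal (f t)) ^ lam * (∫⁻ t in S, ENNReal.ofReal (g t)) ^ mu *
      (∫⁻ t in S, ENNReal.ofReal (h t)) ^ nu ≤ R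
    calc _ ≤ R ^ lam * R ^ mu * R ^ nu := by gcongr
      _ = R := by
        rw [← ENNReal.rpow_add_of_nonneg _ _ h1 h2, ← ENNReal.rpow_add_of_nonneg _ _ (by linarith) h3, h4,
          ENNReal.rpow_one]

private theorem A2_lt (lam : ℝ) (a : ℕ) (h0 : 0 < lam) (h1 : (1 + a) * lam ≤ 1) (hl : lam < 1) :
    ∃ C T0 : ℝ, 1 ≤ C ∧ Real.exp 1 ≤ T0 ∧ ∀ T : ℝ, T0 ≤ T →
    ∫⁻ t in Set.Icc T (3 * T), ENNReal.ofReal (‖ff a T (1 / 2 + t * I)‖ ^ (2 * lam)) ≤
      ENNReal.ofReal (C * (T * Real.log T ^ (lam ^ 2))) := by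
  obtain ⟨Ca, hCa⟩ := mom_a
  obtain ⟨Cb, hCb⟩ := mom_b
  obtain ⟨Cc, hCc⟩ := mom_c
  obtain ⟨N1, hN1⟩ := weights_ge lam h0 hl
  obtain ⟨D, T1, -, hD⟩ := bs_exists lam (max 3 (max Ca (max Cb Cc))) N1 h0 hl (le_max_left _ _)
  obtain ⟨Ka, Ta, hKa, ha⟩ := hCa D
  obtain ⟨Kb, Tb, hKb, hb⟩ := hCb D
  obtain ⟨Kc, Tc, hKc, hc⟩ := hCc D
  obtain ⟨Tm, -, hMo⟩ := Mo_dp
  refine ⟨16 * (Ka + Kb + Kc), max (Real.exp 1) (max T1 (max Ta (max Tb (max Tc Tm)))), by linarith,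
    le_max_left _ _, ?_⟩
  intro T hT
  simp only [max_le_iff] at hT
  obtain ⟨he, hT1, hTa, hTb, hTc, hTm⟩ := hT
  obtain ⟨S, hST, hS⟩ := hD T hT1
  have q1 : Ca ≤ max 3 (max Ca (max Cb Cc)) := (le_max_left _ _).trans (le_max_right _ _)
  have q2 : Cb ≤ max 3 (max Ca (max Cb Cc)) :=
    ((le_max_left _ _).trans (le_max_right _ _)).trans (le_max_right _ _)
  have q3 : Cc ≤ max 3 (max Ca (max Cb Cc)) :=
    ((le_max_right _ _).trans (le_max_right _ _)).trans (le_max_right _ _)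
  have ia := ha q1 (by rw [hST]; exact hTa) hS
  have ib := hb q2 (by rw [hST]; exact hTb) hS
  have ic := hc q3 (by rw [hST]; exact hTc) hS
  have hdM := hMo T hTm
  have hw := hN1 S _ D N1 le_rfl hS
  have hWm := continuous_dp2_line (Wm_dp hS)
  have hWp := continuous_dp2_line (Wp_dp hS)
  rw [hST] at ia ib ic
  have hT0 : 0 < T := (Real.exp_pos 1).trans_le he
  have hL : 1 ≤ Real.log T := by
    rw [Real.le_log_iff_exp_le hT0]
    exact he
  set X : ℝ := T * Real.log T ^ (lam ^ 2) with hX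
  have hX0 : 0 ≤ X := mul_nonneg hT0.le (Real.rpow_nonneg (by linarith) _)
  clear_value X
  have hKb0 : 0 ≤ Kb := by linarith
  have hKc0 : 0 ≤ Kc := by linarith
  set z : ℝ → ℝ := fun t => ‖riemannZeta (1 / 2 + t * I)‖ ^ 2 with hz
  set M : ℝ → ℂ := fun t => Mo (yT T) (nC (1 / 2 + t * I)) with hM
  set m : ℝ → ℝ := fun t => ‖1 - riemannZeta (1 / 2 + t * I) * M t‖ ^ 2 with hm
  set A : ℝ → ℝ := fun t => S.Wm lam (nC (1 / 2 + t * I)) ^ 2 with hA
  set B : ℝ → ℝ := fun t => S.Wp lam (nC (1 / 2 + t * I)) ^ 2 with hB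
  have cz : Continuous z := A2_zeta.norm.pow 2
  have cM : Continuous M := continuous_dp2_line hdM
  have cm : Continuous m := (continuous_const.sub (A2_zeta.mul cM)).norm.pow 2
  have cA : Continuous A := by
    have h2 := (Complex.continuous_re.comp hWm).pow 2
    exact h2
  have cB : Continuous B := by
    have h2 := (Complex.continuous_re.comp hWp).pow 2
    exact h2
  have z0 : ∀ t, 0 ≤ z t := fun t => by positivity
  have m0 : ∀ t, 0 ≤ m t := fun t => by positivity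
  have A0 : ∀ t, 0 ≤ A t := fun t => by positivity
  have B0 : ∀ t, 0 ≤ B t := fun t => by positivity
  have hmu : 0 ≤ (a : ℝ) * lam := by positivity
  have hs : lam + a * lam ≤ 1 := by linarith
  have hK0 : 0 ≤ 4 * (Ka + Kb + Kc) * X := by
    have : 0 ≤ Ka + Kb + Kc := by linarith
    positivity
  -- the pointwise inequality
  have hpt : ∀ t : ℝ, ‖ff a T (1 / 2 + t * I)‖ ^ (2 * lam) ≤
      4 * ((z t * A t) ^ lam * (m t * B t) ^ (a * lam) * (B t) ^ (1 - lam - a * lam)) := by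
    intro t
    rw [A2_ff]
    exact A2_point (z0 t) (m0 t) (A0 t) (B0 t) hmu hs (hw _)
  have j1 : ∫⁻ t in Set.Icc T (3 * T), ENNReal.ofReal (z t * A t) ≤
      ENNReal.ofReal (4 * (Ka + Kb + Kc) * X) := by
    refine ia.trans (ENNReal.ofReal_le_ofReal ?_)
    nlinarith [mul_nonneg (sub_nonneg.2 hKa) hX0, mul_nonneg (sub_nonneg.2 hKb) hX0,
      mul_nonneg (sub_nonneg.2 hKc) hX0]
  have j3 : ∫⁻ t in Set.Icc T (3 * T), ENNReal.ofReal (B t) ≤
      ENNReal.ofReal (4 * (Ka + Kb + Kc) * X) := by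
    refine ic.trans (ENNReal.ofReal_le_ofReal ?_)
    nlinarith [mul_nonneg (sub_nonneg.2 hKa) hX0, mul_nonneg (sub_nonneg.2 hKb) hX0,
      mul_nonneg (sub_nonneg.2 hKc) hX0]
  have hmz : ∀ t, m t * B t ≤ 2 * B t + 2 * (z t * ‖M t‖ ^ 2 * B t) := by
    intro t
    have k1 : ‖1 - riemannZeta (1 / 2 + t * I) * M t‖ ≤ 1 + ‖riemannZeta (1 / 2 + t * I)‖ * ‖M t‖ := by
      refine (norm_sub_le _ _).trans ?_
      rw [norm_one, norm_mul]
    have k2 : m t ≤ 2 + 2 * (z t * ‖M t‖ ^ 2) := by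
      show ‖1 - riemannZeta (1 / 2 + t * I) * M t‖ ^ 2 ≤
        2 + 2 * (‖riemannZeta (1 / 2 + t * I)‖ ^ 2 * ‖M t‖ ^ 2)
      have k3 := pow_le_pow_left₀ (norm_nonneg _) k1 2
      refine k3.trans ?_
      nlinarith [sq_nonneg (1 - ‖riemannZeta (1 / 2 + t * I)‖ * ‖M t‖)]
    calc m t * B t ≤ (2 + 2 * (z t * ‖M t‖ ^ 2)) * B t := mul_le_mul_of_nonneg_right k2 (B0 t)
      _ = _ := by ring
  have j2 : ∫⁻ t in Set.Icc T (3 * T), ENNReal.ofReal (m t * B t) ≤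
      ENNReal.ofReal (4 * (Ka + Kb + Kc) * X) := by
    have k1 : ∀ t, ENNReal.ofReal (m t * B t) ≤
        2 * ENNReal.ofReal (B t) + 2 * ENNReal.ofReal (z t * ‖M t‖ ^ 2 * B t) := by
      intro t
      refine (ENNReal.ofReal_le_ofReal (hmz t)).trans (le_of_eq ?_)
      rw [ENNReal.ofReal_add (by have := B0 t; positivity)
        (by have := B0 t; have := z0 t; positivity), ENNReal.ofReal_mul (by norm_num),
        ENNReal.ofReal_mul (by norm_num)]
      norm_num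
    have mB : Measurable fun t => 2 * ENNReal.ofReal (B t) :=
      (ENNReal.continuous_ofReal.comp cB).measurable.const_mul _
    calc ∫⁻ t in Set.Icc T (3 * T), ENNReal.ofReal (m t * B t)
        ≤ ∫⁻ t in Set.Icc T (3 * T), (2 * ENNReal.ofReal (B t) +
          2 * ENNReal.ofReal (z t * ‖M t‖ ^ 2 * B t)) := lintegral_mono k1
      _ = 2 * (∫⁻ t in Set.Icc T (3 * T), ENNReal.ofReal (B t)) +
          2 * (∫⁻ t in Set.Icc T (3 * T), ENNReal.ofReal (z t * ‖M t‖ ^ 2 * B t)) := by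
        rw [lintegral_add_left mB, lintegral_const_mul' _ _ (by norm_num),
          lintegral_const_mul' _ _ (by norm_num)]
      _ ≤ 2 * ENNReal.ofReal (Kc * X) + 2 * ENNReal.ofReal (Kb * X) := by
        gcongr
      _ = ENNReal.ofReal (2 * (Kc * X) + 2 * (Kb * X)) := by
        rw [ENNReal.ofReal_add (by positivity) (by positivity),
          ENNReal.ofReal_mul (p := 2) (q := Kc * X) (by norm_num),
          ENNReal.ofReal_mul (p := 2) (q := Kb * X) (by norm_num)]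
        norm_num
      _ ≤ _ := by
        refine ENNReal.ofReal_le_ofReal ?_
        nlinarith [mul_nonneg (sub_nonneg.2 hKa) hX0, mul_nonneg (sub_nonneg.2 hKb) hX0,
          mul_nonneg (sub_nonneg.2 hKc) hX0]
  have hH := A2_hoelder (S := Set.Icc T (3 * T)) (cz.mul cA) (cm.mul cB) cB
    (fun t => mul_nonneg (z0 t) (A0 t)) (fun t => mul_nonneg (m0 t) (B0 t)) B0 h0.le hmu
    (sub_nonneg.2 (by linarith : (a : ℝ) * lam ≤ 1 - lam)) (by ring) j1 j2 j3
  refine (lintegral_mono fun t => ENNReal.ofReal_le_ofReal (hpt t)).trans (hH.trans (le_of_eq ?_))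
  rw [show (4 : ENNReal) = ENNReal.ofReal 4 by norm_num, ← ENNReal.ofReal_mul (by norm_num)]
  congr 1
  ring

private theorem A2_primes : ∃ K : ℝ, ∀ T : ℝ, Real.exp 10 ≤ T →
    ∑ p ∈ Nat.primesBelow (M1 T), 1 / (p : ℝ) ≤ K + Real.log (Real.log T) := by
  obtain ⟨C, hC, h⟩ := mertens_inv
  refine ⟨1 / 2 + C / Real.log 2 - Real.log (Real.log 2), fun T hT => ?_⟩
  have hT0 : 0 < T := (Real.exp_pos 10).trans_le hT
  have h10 : 10 ≤ Real.log T := by
    rw [Real.le_log_iff_exp_le hT0]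
    exact hT
  have hT1 : 1 ≤ T := (Real.one_le_exp (by norm_num)).trans hT
  have h2 : (2 : ℝ) ≤ T ^ (1 / 5 : ℝ) := by
    rw [← Real.exp_log hT0, ← Real.exp_mul]
    have h3 := Real.add_one_le_exp (Real.log T * (1 / 5))
    linarith
  have hz2 : 2 ≤ ⌊T ^ (1 / 5 : ℝ)⌋₊ := Nat.le_floor (by exact_mod_cast h2)
  have hM : M1 T = ⌊T ^ (1 / 5 : ℝ)⌋₊ + 1 := rfl
  rw [hM]
  generalize hz : ⌊T ^ (1 / 5 : ℝ)⌋₊ = z at *
  have hzT : (z : ℝ) ≤ T := by
    rw [← hz]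
    refine (Nat.floor_le (by positivity)).trans ?_
    calc T ^ (1 / 5 : ℝ) ≤ T ^ (1 : ℝ) := Real.rpow_le_rpow_of_exponent_le hT1 (by norm_num)
      _ = T := Real.rpow_one T
  have hsub : Nat.primesBelow (z + 1) ⊆ insert 2 ((Finset.Ioc 2 z).filter Nat.Prime) := by
    intro p hp
    rw [Nat.mem_primesBelow] at hp
    rw [mem_insert, mem_filter, mem_Ioc]
    have := hp.2.two_le
    rcases eq_or_lt_of_le this with h3 | h3
    · exact Or.inl h3.symm
    · exact Or.inr ⟨⟨h3, by omega⟩, hp.2⟩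
  have h3 : ∑ p ∈ Nat.primesBelow (z + 1), 1 / (p : ℝ) ≤
      ∑ p ∈ insert 2 ((Finset.Ioc 2 z).filter Nat.Prime), 1 / (p : ℝ) :=
    sum_le_sum_of_subset_of_nonneg hsub fun p _ _ => by positivity
  rw [sum_insert (by simp)] at h3
  have h4 := (abs_le.1 (h 2 z le_rfl hz2)).2
  have hl2 : 0 < Real.log 2 := Real.log_pos (by norm_num)
  have hzz : (2 : ℝ) ≤ z := by exact_mod_cast hz2
  have hlz : 0 < Real.log z := Real.log_pos (by linarith)
  have h5 : Real.log (Real.log z / Real.log 2) = Real.log (Real.log z) - Real.log (Real.log 2) :=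
    Real.log_div hlz.ne' hl2.ne'
  have h6 : Real.log (Real.log z) ≤ Real.log (Real.log T) :=
    Real.log_le_log hlz (Real.log_le_log (by linarith) hzT)
  push_cast at h3 h4
  linarith

private theorem A2_E : ∃ K : ℝ, 0 ≤ K ∧ ∀ T : ℝ, Real.exp 10 ≤ T →
    ∫ w, ‖Zt (Nat.primesBelow (M1 T)) (1 / 2) w‖ ^ 2 ∂mu ≤ K * Real.log T := by
  obtain ⟨C, hC, h⟩ := main_block
  obtain ⟨K, hK⟩ := A2_primes
  have hs : Summable fun n : ℕ => (n : ℝ) ^ (-2 : ℝ) := Real.summable_nat_rpow.2 (by norm_num)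
  refine ⟨Real.exp (K + C * ∑' n : ℕ, (n : ℝ) ^ (-2 : ℝ)), (Real.exp_pos _).le, fun T hT => ?_⟩
  have hT0 : 0 < T := (Real.exp_pos 10).trans_le hT
  have h10 : 10 ≤ Real.log T := by
    rw [Real.le_log_iff_exp_le hT0]
    exact hT
  have h1 := h (Nat.primesBelow (M1 T)) (fun _ => 0) 0
    (fun p hp => Nat.prime_of_mem_primesBelow hp) (fun p _ => by rw [norm_zero]; positivity) (by norm_num)
  have e1 : ∀ w, ‖Zt (Nat.primesBelow (M1 T)) (1 / 2) w‖ ^ 2 *
      (∏ p ∈ Nat.primesBelow (M1 T), ‖1 - (0 : ℂ) * X p w‖ ^ 2) *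
      Real.exp (2 * (0 * (PX (Nat.primesBelow (M1 T)) 0 w).re)) =
      ‖Zt (Nat.primesBelow (M1 T)) (1 / 2) w‖ ^ 2 := by
    intro w
    simp
  simp_rw [e1] at h1
  refine h1.trans ?_
  have e2 : ∑ p ∈ Nat.primesBelow (M1 T), ‖((((1 + 0) * (p : ℝ) ^ (-(1 / 2) : ℝ) : ℝ)) : ℂ) - 0‖ ^ 2 =
      ∑ p ∈ Nat.primesBelow (M1 T), 1 / (p : ℝ) := by
    refine sum_congr rfl fun p _ => ?_
    rw [sub_zero, Complex.norm_real, add_zero, one_mul, Real.norm_of_nonneg (by positivity),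
      ← Real.rpow_natCast, ← Real.rpow_mul (Nat.cast_nonneg p)]
    norm_num
    exact Real.rpow_neg_one _
  rw [e2]
  have h2 : ∑ p ∈ Nat.primesBelow (M1 T), (p : ℝ) ^ (-2 : ℝ) ≤ ∑' n : ℕ, (n : ℝ) ^ (-2 : ℝ) :=
    hs.sum_le_tsum _ fun n _ => by positivity
  have h3 := hK T hT
  calc Real.exp (∑ p ∈ Nat.primesBelow (M1 T), 1 / (p : ℝ) +
        C * ∑ p ∈ Nat.primesBelow (M1 T), (p : ℝ) ^ (-2 : ℝ))
      ≤ Real.exp ((K + C * ∑' n : ℕ, (n : ℝ) ^ (-2 : ℝ)) + Real.log (Real.log T)) := by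
        refine Real.exp_le_exp.2 ?_
        have := mul_le_mul_of_nonneg_left h2 hC
        linarith
    _ = _ := by rw [Real.exp_add, Real.exp_log (by linarith)]

private theorem A2_one : ∃ C T0 : ℝ, 1 ≤ C ∧ Real.exp 1 ≤ T0 ∧ ∀ T : ℝ, T0 ≤ T →
    ∫⁻ t in Set.Icc T (3 * T), ENNReal.ofReal (‖riemannZeta (1 / 2 + t * I)‖ ^ 2) ≤
      ENNReal.ofReal (C * (T * Real.log T)) := by
  obtain ⟨C, T0, hC, -, h⟩ := twist
  obtain ⟨K, hK0, hK⟩ := A2_E
  refine ⟨C * (K + 1), max (Real.exp 10) T0, by nlinarith,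
    (Real.exp_le_exp.2 (by norm_num)).trans (le_max_left _ _), fun T hT => ?_⟩
  have hTe : Real.exp 10 ≤ T := (le_max_left _ _).trans hT
  have hT0 : 0 < T := (Real.exp_pos 10).trans_le hTe
  have h10 : 10 ≤ Real.log T := by
    rw [Real.le_log_iff_exp_le hT0]
    exact hTe
  have hT1 : 1 ≤ T := (Real.one_le_exp (by norm_num)).trans hTe
  have hg : IsDP2 (Nat.smoothNumbers (M1 T)) (T ^ (159 / 1000 : ℝ)) (T ^ (80 / 1000 : ℝ))
      (fun _ => ((1 : ℝ) : ℂ)) := by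
    have h1 : 1 ∈ Nat.smoothNumbers (M1 T) := by
      rw [Nat.mem_smoothNumbers]
      simp
    refine (isDP2_const (Nat.smoothNumbers (M1 T)) h1 1).mono
      (Set.Subset.refl _) (Real.one_le_rpow hT1 (by norm_num)) ?_
    rw [abs_one]
    exact Real.one_le_rpow hT1 (by norm_num)
  have h1 := h T _ ((le_max_right _ _).trans hT) hg
  simp only [Complex.ofReal_one, norm_one, one_pow, mul_one] at h1
  refine h1.trans (ENNReal.ofReal_le_ofReal ?_)
  have h2 := hK T hTe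
  have h3 : T ^ (9996 / 10000 : ℝ) ≤ T := by
    calc T ^ (9996 / 10000 : ℝ) ≤ T ^ (1 : ℝ) := Real.rpow_le_rpow_of_exponent_le hT1 (by norm_num)
      _ = T := Real.rpow_one T
  have h4 : T ≤ T * Real.log T := le_mul_of_one_le_right hT0.le (by linarith)
  have h5 := mul_le_mul_of_nonneg_left h2 hT0.le
  rw [mul_assoc]
  refine mul_le_mul_of_nonneg_left ?_ (by linarith)
  nlinarith

theorem Astar (lam : ℝ) (a : ℕ) (h0 : 0 < lam) (h1 : (1 + a) * lam ≤ 1) : ∃ C T0 : ℝ, 1 ≤ C ∧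
    Real.exp 1 ≤ T0 ∧ ∀ T : ℝ, T0 ≤ T →
    ∫⁻ t in Set.Icc T (3 * T), ENNReal.ofReal (‖ff a T (1 / 2 + t * I)‖ ^ (2 * lam)) ≤
      ENNReal.ofReal (C * (T * Real.log T ^ (lam ^ 2))) := by
  rcases lt_or_eq_of_le (show lam ≤ 1 by nlinarith [Nat.cast_nonneg (α := ℝ) a]) with hl | hl
  · exact A2_lt lam a h0 h1 hl
  · subst hl
    have ha : a = 0 := by
      have h2 : (a : ℝ) ≤ 0 := by linarith
      exact Nat.cast_eq_zero.1 (le_antisymm h2 (Nat.cast_nonneg a))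
    subst ha
    obtain ⟨C, T0, hC, hT0, h⟩ := A2_one
    refine ⟨C, T0, hC, hT0, fun T hT => ?_⟩
    have e1 : ∀ t : ℝ, ‖ff 0 T (1 / 2 + t * I)‖ ^ (2 * 1 : ℝ) = ‖riemannZeta (1 / 2 + t * I)‖ ^ 2 := by
      intro t
      unfold ff
      rw [pow_zero, mul_one, mul_one]
      exact Real.rpow_natCast _ 2
    simp_rw [e1]
    rw [one_pow, Real.rpow_one]
    exact h T hT

end Pool.Agent.UH
end
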