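import Pool.Agent.Lib.MP_69b2e4_nt.Mg.G011
import Pool.Agent.Lib.MP_69b2e4_nt.UH.B2
import Pool.Agent.Lib.MP_69b2e4_nt.Mg.G002
import Pool.Agent.Lib.MP_69b2e4_nt.Mg.G001

section

/-! TASK B5. The averaged window on the critical line. Let `q = 2 lam`, `I = [5T/4-1, 5T/2+1] ⊆ [T,3T]` and for `t0 ∈ I` `PF t0 s = GF a T s · exp((s - i t0)²)`; on `Re s = 1/2`: `‖exp((s-it0)²)‖ = exp(1/4 - (t-t0)²)`.
By Tonelli the left side is `e^{q/4} ∫⁻_t ‖GF(1/2+it)‖^q K(t) dt`, `K(t) = ∫_I e^{-q(t-t0)²} dt0 ≤ ∫_ℝ = (π/q)^{1/2}`.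
Part `t ∈ [T,3T]`: `‖GF‖ ≤ ‖ff‖` (`GF_eq`, `norm_quot_le`), so it is at most `e^{q/4} (π/q)^{1/2} C T L^{lam²}` by `Astar`.
Part `t ∉ [T,3T]`: then `|t - t0| ≥ T/5` for all `t0 ∈ I` (`T ≥ 40`), so `(t-t0)² ≥ T²/50 + (t-t0)²/2`; `‖GF(1/2+it)‖^q ≤ (C T^a (1+|t|)^{a+1})^q` (`GF_growth`) and `1+|t| ≤ (1+|t0|)(1+|t-t0|) ≤ 4T (1+|t-t0|)`; so the part is at most
`e^{q/4} e^{-qT²/50} (C T^a (4T)^{a+1})^q ∫_I ∫_ℝ (1+|u|)^{(a+1)q} e^{-qu²/2} du dt0 ≤ C' T^{(2a+1)q + 1} e^{-qT²/50} ≤ 1` for `T ≥ T0`. And `1 ≤ T L^{lam²}`. -/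

set_option autoImplicit false

namespace Pool.Agent.UH

open Complex MeasureTheory Finset Pool.Agent.GH
open scoped Real ComplexConjugate

/-- the windowed function -/
noncomputable def PF (a : ℕ) (T t0 : ℝ) (s : ℂ) : ℂ := GF a T s * cexp ((s - t0 * I) ^ 2)

private theorem B5_norm (a : ℕ) (T t0 t : ℝ) :
    ‖PF a T t0 (((1 / 2 : ℝ) : ℂ) + t * I)‖ =
      ‖GF a T (((1 / 2 : ℝ) : ℂ) + t * I)‖ * Real.exp (1 / 4 - (t - t0) ^ 2) := by
  unfold PF
  rw [norm_mul, Complex.norm_exp]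
  congr 2
  have h : ((((1 / 2 : ℝ) : ℂ) + t * I - t0 * I) ^ 2) =
      ((1 / 4 - (t - t0) ^ 2 : ℝ) : ℂ) + ((t - t0 : ℝ) : ℂ) * I := by
    have hI : I ^ 2 = -1 := Complex.I_sq
    push_cast
    linear_combination ((t : ℂ) - t0) ^ 2 * hI
  rw [h, Complex.add_re, Complex.ofReal_re, Complex.re_ofReal_mul, Complex.I_re, mul_zero,
    add_zero]

private theorem B5_cont (a : ℕ) (T : ℝ) :
    Continuous fun t : ℝ => GF a T (((1 / 2 : ℝ) : ℂ) + t * I) := by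
  have h1 : ContinuousOn (GF a T) {s : ℂ | -1 < s.re} := (GF_diff a T).continuousOn
  rw [← continuousOn_univ]
  refine h1.comp (by fun_prop) ?_
  intro t _
  simp only [Set.mem_ofPred_eq, Complex.add_re, Complex.ofReal_re, Complex.mul_re, Complex.I_re,
    mul_zero, Complex.ofReal_im, Complex.I_im, mul_one, sub_self, add_zero]
  norm_num

private theorem B5_rpow {x : ℝ} (hx : 0 ≤ x) (y q : ℝ) :
    (x * Real.exp y) ^ q = x ^ q * Real.exp (y * q) := by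
  rw [Real.mul_rpow hx (Real.exp_pos _).le, ← Real.exp_mul]

private theorem B5_gauss {b : ℝ} (hb : 0 < b) (t : ℝ) :
    ∫⁻ t0 : ℝ, ENNReal.ofReal (Real.exp (-b * (t0 - t) ^ 2)) =
      ENNReal.ofReal (∫ u : ℝ, Real.exp (-b * u ^ 2)) := by
  rw [lintegral_sub_right_eq_self (fun u : ℝ => ENNReal.ofReal (Real.exp (-b * u ^ 2))) t]
  rw [ofReal_integral_eq_lintegral_ofReal (integrable_exp_neg_mul_sq hb)]
  exact Filter.Eventually.of_forall fun u => (Real.exp_pos _).le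

private theorem B5_decay (B s q : ℝ) (hB : 0 ≤ B) (hq : 0 < q) : ∃ T2 : ℝ, ∀ T : ℝ, T2 ≤ T →
    B * T ^ s * Real.exp (-(q * T ^ 2 / 50)) ≤ 1 := by
  have h1 := tendsto_rpow_mul_exp_neg_mul_atTop_nhds_zero s (q / 50) (by positivity)
  have h2 : Filter.Tendsto (fun x : ℝ => B * (x ^ s * Real.exp (-(q / 50) * x))) Filter.atTop
      (nhds (B * 0)) := h1.const_mul B
  rw [mul_zero] at h2
  have h3 := h2.eventually (ge_mem_nhds (show (0 : ℝ) < 1 by norm_num))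
  obtain ⟨T2, hT2⟩ := Filter.eventually_atTop.1 h3
  refine ⟨max T2 1, fun T hT => ?_⟩
  have hT1 : 1 ≤ T := (le_max_right _ _).trans hT
  refine le_trans ?_ (hT2 T ((le_max_left _ _).trans hT))
  rw [mul_assoc]
  refine mul_le_mul_of_nonneg_left ?_ hB
  refine mul_le_mul_of_nonneg_left ?_ (Real.rpow_nonneg (by linarith) _)
  refine Real.exp_le_exp.2 ?_
  have : T ≤ T ^ 2 := by nlinarith
  nlinarith

/-- the pointwise bound far away from the window -/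
private theorem B5_far {a : ℕ} {q C T t0 t : ℝ} (hq : 0 < q) (hC : 1 ≤ C) (hT : 40 ≤ T)
    (hg : ∀ s : ℂ, 1 / 2 ≤ s.re → s.re ≤ 50 →
      ‖GF a T s‖ ≤ C * T ^ a * (1 + |s.im|) ^ (a + 1))
    (ht0 : t0 ∈ Set.Icc (5 * T / 4 - 1) (5 * T / 2 + 1)) (ht : t ∉ Set.Icc T (3 * T)) :
    ‖GF a T (((1 / 2 : ℝ) : ℂ) + t * I)‖ ^ q * Real.exp ((1 / 4 - (t - t0) ^ 2) * q) ≤
      (Real.exp (q / 4) * (C * 4 ^ (a + 1)) ^ q * Real.exp (((a + 1) * q) ^ 2 / q) *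
        T ^ ((2 * a + 1) * q) * Real.exp (-(q * T ^ 2 / 50))) *
        Real.exp (-(q / 4) * (t - t0) ^ 2) := by
  have hT0 : 0 < T := by linarith
  set s : ℂ := ((1 / 2 : ℝ) : ℂ) + t * I with hs
  have hre : s.re = 1 / 2 := by
    rw [hs]
    simp
  have him : s.im = t := by
    rw [hs]
    simp
  have h1 : ‖GF a T s‖ ≤ C * T ^ a * (1 + |t|) ^ (a + 1) := by
    have := hg s (by rw [hre]) (by rw [hre]; norm_num)
    rwa [him] at this
  obtain ⟨h2, h3⟩ := ht0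
  have hu : T / 5 ≤ |t - t0| := by
    by_contra hcon
    push Not at hcon
    rw [abs_lt] at hcon
    refine ht ⟨?_, ?_⟩ <;> linarith [hcon.1, hcon.2]
  have hsq : T ^ 2 / 25 ≤ (t - t0) ^ 2 := by
    have h5 : (T / 5) ^ 2 ≤ |t - t0| ^ 2 := pow_le_pow_left₀ (by positivity) hu 2
    rw [sq_abs] at h5
    nlinarith
  have h6 : 1 + |t| ≤ 4 * T * (1 + |t - t0|) := by
    have h7 : |t| ≤ |t - t0| + |t0| := by
      have := abs_add_le (t - t0) t0
      rwa [sub_add_cancel] at this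
    have h8 : |t0| = t0 := abs_of_nonneg (by linarith)
    have h9 := abs_nonneg (t - t0)
    nlinarith
  have h10 : ‖GF a T s‖ ≤ (C * 4 ^ (a + 1)) * T ^ (2 * a + 1) * (1 + |t - t0|) ^ (a + 1) := by
    refine h1.trans ?_
    have h11 : (1 + |t|) ^ (a + 1) ≤ (4 * T * (1 + |t - t0|)) ^ (a + 1) :=
      pow_le_pow_left₀ (by positivity) h6 _
    calc C * T ^ a * (1 + |t|) ^ (a + 1) ≤ C * T ^ a * (4 * T * (1 + |t - t0|)) ^ (a + 1) :=
          mul_le_mul_of_nonneg_left h11 (by positivity)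
      _ = (C * 4 ^ (a + 1)) * T ^ (2 * a + 1) * (1 + |t - t0|) ^ (a + 1) := by
          rw [mul_pow, mul_pow]
          ring
  have h12 : ‖GF a T s‖ ^ q ≤
      (C * 4 ^ (a + 1)) ^ q * T ^ ((2 * a + 1) * q) * (1 + |t - t0|) ^ ((a + 1) * q) := by
    refine (Real.rpow_le_rpow (norm_nonneg _) h10 hq.le).trans (le_of_eq ?_)
    rw [Real.mul_rpow (by positivity) (by positivity), Real.mul_rpow (by positivity) (by positivity),
      ← Real.rpow_natCast T, ← Real.rpow_mul hT0.le, ← Real.rpow_natCast (1 + |t - t0|),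
      ← Real.rpow_mul (by positivity)]
    push_cast
    rfl
  have h13 : (1 + |t - t0|) ^ ((a + 1) * q) ≤
      Real.exp (((a + 1) * q) ^ 2 / q + q / 4 * (t - t0) ^ 2) := by
    have h14 : 1 + |t - t0| ≤ Real.exp |t - t0| := by
      have := Real.add_one_le_exp |t - t0|
      linarith
    have h15 : (0 : ℝ) ≤ (a + 1) * q := by positivity
    refine (Real.rpow_le_rpow (by positivity) h14 h15).trans ?_
    rw [← Real.exp_mul]
    refine Real.exp_le_exp.2 ?_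
    set u := |t - t0| with hu'
    have hu2 : (t - t0) ^ 2 = u ^ 2 := by rw [hu', sq_abs]
    rw [hu2]
    set w := ((a : ℝ) + 1) * q with hw
    have h16 : 0 ≤ q * (u / 2 - w / q) ^ 2 := by positivity
    have h17 : q * (u / 2 - w / q) ^ 2 = w ^ 2 / q + q / 4 * u ^ 2 - u * w := by
      field_simp
      ring
    linarith
  have h18 : Real.exp ((1 / 4 - (t - t0) ^ 2) * q) ≤
      Real.exp (q / 4) * Real.exp (-(q * T ^ 2 / 50)) * Real.exp (-(q / 2) * (t - t0) ^ 2) := by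
    rw [← Real.exp_add, ← Real.exp_add]
    refine Real.exp_le_exp.2 ?_
    nlinarith
  calc ‖GF a T s‖ ^ q * Real.exp ((1 / 4 - (t - t0) ^ 2) * q)
      ≤ ((C * 4 ^ (a + 1)) ^ q * T ^ ((2 * a + 1) * q) * (1 + |t - t0|) ^ ((a + 1) * q)) *
        (Real.exp (q / 4) * Real.exp (-(q * T ^ 2 / 50)) * Real.exp (-(q / 2) * (t - t0) ^ 2)) :=
        mul_le_mul h12 h18 (Real.exp_pos _).le (by positivity)
    _ ≤ ((C * 4 ^ (a + 1)) ^ q * T ^ ((2 * a + 1) * q) *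
        Real.exp (((a + 1) * q) ^ 2 / q + q / 4 * (t - t0) ^ 2)) *
        (Real.exp (q / 4) * Real.exp (-(q * T ^ 2 / 50)) * Real.exp (-(q / 2) * (t - t0) ^ 2)) := by
        refine mul_le_mul_of_nonneg_right ?_ (by positivity)
        exact mul_le_mul_of_nonneg_left h13 (by positivity)
    _ = (Real.exp (q / 4) * (C * 4 ^ (a + 1)) ^ q * Real.exp (((a + 1) * q) ^ 2 / q) *
        T ^ ((2 * a + 1) * q) * Real.exp (-(q * T ^ 2 / 50))) *
        (Real.exp (q / 4 * (t - t0) ^ 2) * Real.exp (-(q / 2) * (t - t0) ^ 2)) := by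
        rw [Real.exp_add]
        ring
    _ = _ := by
        rw [← Real.exp_add]
        congr 2
        ring

theorem left_line (lam : ℝ) (a : ℕ) (h0 : 0 < lam) (h1 : (1 + a) * lam ≤ 1) : ∃ C T0 : ℝ, 1 ≤ C ∧
    Real.exp 1 ≤ T0 ∧ ∀ T : ℝ, T0 ≤ T →
    ∫⁻ t0 in Set.Icc (5 * T / 4 - 1) (5 * T / 2 + 1), ∫⁻ t : ℝ,
      ENNReal.ofReal (‖PF a T t0 (((1 / 2 : ℝ) : ℂ) + t * I)‖ ^ (2 * lam)) ≤
      ENNReal.ofReal (C * (T * Real.log T ^ (lam ^ 2))) := by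
  obtain ⟨C1, T1, hC1, hT1, hA⟩ := Astar lam a h0 h1
  obtain ⟨C, hC, hg⟩ := GF_growth a
  set q : ℝ := 2 * lam with hq'
  have hq : 0 < q := by positivity
  set K0 : ℝ := ∫ u : ℝ, Real.exp (-q * u ^ 2) with hK0
  set K2 : ℝ := ∫ u : ℝ, Real.exp (-(q / 4) * u ^ 2) with hK2
  have hK0n : 0 ≤ K0 := integral_nonneg fun u => (Real.exp_pos _).le
  have hK2n : 0 ≤ K2 := integral_nonneg fun u => (Real.exp_pos _).le
  set B : ℝ := Real.exp (q / 4) * (C * 4 ^ (a + 1)) ^ q * Real.exp (((a + 1) * q) ^ 2 / q) * K2 * 2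
    with hB
  have hBn : 0 ≤ B := by positivity
  obtain ⟨T2, hT2⟩ := B5_decay B ((2 * a + 1) * q + 1) q hBn hq
  refine ⟨Real.exp (q / 4) * K0 * C1 + 1, max (max T1 40) T2, ?_, ?_, fun T hT => ?_⟩
  · have : 0 ≤ Real.exp (q / 4) * K0 * C1 := by positivity
    linarith
  · exact hT1.trans ((le_max_left _ _).trans (le_max_left _ _))
  have hTT1 : T1 ≤ T := ((le_max_left _ _).trans (le_max_left _ _)).trans hT
  have hT40 : 40 ≤ T := ((le_max_right _ _).trans (le_max_left _ _)).trans hT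
  have hTT2 : T2 ≤ T := (le_max_right _ _).trans hT
  have hT0 : 0 < T := by linarith
  have hcont := B5_cont a T
  have hgc : Continuous fun t : ℝ => ‖GF a T (((1 / 2 : ℝ) : ℂ) + t * I)‖ ^ q :=
    hcont.norm.rpow_const fun _ => Or.inr hq.le
  have hF : ∀ t0 t : ℝ, ‖PF a T t0 (((1 / 2 : ℝ) : ℂ) + t * I)‖ ^ q =
      ‖GF a T (((1 / 2 : ℝ) : ℂ) + t * I)‖ ^ q * Real.exp ((1 / 4 - (t - t0) ^ 2) * q) := by
    intro t0 t
    rw [B5_norm, B5_rpow (norm_nonneg _)]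
  simp only [hF]
  -- split the inner integral
  have hsplit : ∀ t0 : ℝ, ∫⁻ t : ℝ, ENNReal.ofReal (‖GF a T (((1 / 2 : ℝ) : ℂ) + t * I)‖ ^ q *
      Real.exp ((1 / 4 - (t - t0) ^ 2) * q)) =
      (∫⁻ t in Set.Icc T (3 * T), ENNReal.ofReal (‖GF a T (((1 / 2 : ℝ) : ℂ) + t * I)‖ ^ q *
      Real.exp ((1 / 4 - (t - t0) ^ 2) * q))) +
      ∫⁻ t in (Set.Icc T (3 * T))ᶜ, ENNReal.ofReal (‖GF a T (((1 / 2 : ℝ) : ℂ) + t * I)‖ ^ q *
      Real.exp ((1 / 4 - (t - t0) ^ 2) * q)) := fun t0 =>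
    (lintegral_add_compl _ measurableSet_Icc).symm
  -- the part near the window
  have hjoint : Continuous fun p : ℝ × ℝ =>
      ENNReal.ofReal (‖GF a T (((1 / 2 : ℝ) : ℂ) + p.2 * I)‖ ^ q *
      Real.exp ((1 / 4 - (p.2 - p.1) ^ 2) * q)) := by
    refine ENNReal.continuous_ofReal.comp ?_
    exact (hgc.comp continuous_snd).mul (by fun_prop)
  have hnear : ∫⁻ t0 in Set.Icc (5 * T / 4 - 1) (5 * T / 2 + 1), ∫⁻ t in Set.Icc T (3 * T),
      ENNReal.ofReal (‖GF a T (((1 / 2 : ℝ) : ℂ) + t * I)‖ ^ q *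
      Real.exp ((1 / 4 - (t - t0) ^ 2) * q)) ≤
      ENNReal.ofReal (Real.exp (q / 4) * K0 * C1 * (T * Real.log T ^ (lam ^ 2))) := by
    rw [lintegral_lintegral_swap (hjoint.aemeasurable)]
    have h2 : ∀ t : ℝ, ∫⁻ t0 in Set.Icc (5 * T / 4 - 1) (5 * T / 2 + 1),
        ENNReal.ofReal (‖GF a T (((1 / 2 : ℝ) : ℂ) + t * I)‖ ^ q *
        Real.exp ((1 / 4 - (t - t0) ^ 2) * q)) ≤
        ENNReal.ofReal (Real.exp (q / 4) * K0) *
          ENNReal.ofReal (‖ff a T (1 / 2 + t * I)‖ ^ q) := by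
      intro t
      have h3 : ‖GF a T (((1 / 2 : ℝ) : ℂ) + t * I)‖ ^ q ≤ ‖ff a T (1 / 2 + t * I)‖ ^ q := by
        refine Real.rpow_le_rpow (norm_nonneg _) ?_ hq.le
        have h4 : (((1 / 2 : ℝ) : ℂ) + t * I) = 1 / 2 + t * I := by
          push_cast
          rfl
        rw [h4]
        have hre : (1 / 2 + (t : ℂ) * I).re = 1 / 2 := by simp
        rw [GF_eq a T (s := 1 / 2 + (t : ℂ) * I)
          (fun h => by rw [h] at hre; norm_num at hre)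
          (fun h => by rw [h] at hre; norm_num at hre), norm_mul, norm_pow]
        have h5 : ‖(1 / 2 + (t : ℂ) * I - 1) / (1 / 2 + (t : ℂ) * I + 1)‖ ≤ 1 :=
          norm_quot_le (by rw [hre]; norm_num)
        calc _ ≤ 1 * ‖ff a T (1 / 2 + t * I)‖ :=
              mul_le_mul_of_nonneg_right (pow_le_one₀ (norm_nonneg _) h5) (norm_nonneg _)
          _ = _ := one_mul _
      calc ∫⁻ t0 in Set.Icc (5 * T / 4 - 1) (5 * T / 2 + 1),
          ENNReal.ofReal (‖GF a T (((1 / 2 : ℝ) : ℂ) + t * I)‖ ^ q *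
          Real.exp ((1 / 4 - (t - t0) ^ 2) * q))
          ≤ ∫⁻ t0 : ℝ, ENNReal.ofReal (‖GF a T (((1 / 2 : ℝ) : ℂ) + t * I)‖ ^ q *
          Real.exp ((1 / 4 - (t - t0) ^ 2) * q)) := setLIntegral_le_lintegral _ _
        _ = ∫⁻ t0 : ℝ, ENNReal.ofReal (Real.exp (q / 4) *
            ‖GF a T (((1 / 2 : ℝ) : ℂ) + t * I)‖ ^ q) *
            ENNReal.ofReal (Real.exp (-q * (t0 - t) ^ 2)) := by
            refine lintegral_congr fun t0 => ?_
            rw [← ENNReal.ofReal_mul (by positivity)]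
            congr 1
            have : Real.exp ((1 / 4 - (t - t0) ^ 2) * q) =
                Real.exp (q / 4) * Real.exp (-q * (t0 - t) ^ 2) := by
              rw [← Real.exp_add]
              congr 1
              ring
            rw [this]
            ring
        _ = ENNReal.ofReal (Real.exp (q / 4) * ‖GF a T (((1 / 2 : ℝ) : ℂ) + t * I)‖ ^ q) *
            ENNReal.ofReal K0 := by
            rw [lintegral_const_mul' _ _ ENNReal.ofReal_ne_top, B5_gauss hq]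
        _ = ENNReal.ofReal (Real.exp (q / 4) * K0) *
            ENNReal.ofReal (‖GF a T (((1 / 2 : ℝ) : ℂ) + t * I)‖ ^ q) := by
            rw [← ENNReal.ofReal_mul (by positivity), ← ENNReal.ofReal_mul (by positivity)]
            congr 1
            ring
        _ ≤ _ := by
            gcongr
    calc ∫⁻ t in Set.Icc T (3 * T), ∫⁻ t0 in Set.Icc (5 * T / 4 - 1) (5 * T / 2 + 1),
        ENNReal.ofReal (‖GF a T (((1 / 2 : ℝ) : ℂ) + t * I)‖ ^ q *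
        Real.exp ((1 / 4 - (t - t0) ^ 2) * q))
        ≤ ∫⁻ t in Set.Icc T (3 * T), ENNReal.ofReal (Real.exp (q / 4) * K0) *
          ENNReal.ofReal (‖ff a T (1 / 2 + t * I)‖ ^ q) := lintegral_mono h2
      _ = ENNReal.ofReal (Real.exp (q / 4) * K0) * ∫⁻ t in Set.Icc T (3 * T),
          ENNReal.ofReal (‖ff a T (1 / 2 + t * I)‖ ^ q) :=
          lintegral_const_mul' _ _ ENNReal.ofReal_ne_top
      _ ≤ ENNReal.ofReal (Real.exp (q / 4) * K0) *
          ENNReal.ofReal (C1 * (T * Real.log T ^ (lam ^ 2))) := by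
          gcongr
          exact hA T hTT1
      _ = _ := by
          rw [← ENNReal.ofReal_mul (by positivity)]
          congr 1
          ring
  -- the part far away
  have hfar : ∫⁻ t0 in Set.Icc (5 * T / 4 - 1) (5 * T / 2 + 1), ∫⁻ t in (Set.Icc T (3 * T))ᶜ,
      ENNReal.ofReal (‖GF a T (((1 / 2 : ℝ) : ℂ) + t * I)‖ ^ q *
      Real.exp ((1 / 4 - (t - t0) ^ 2) * q)) ≤ ENNReal.ofReal 1 := by
    set A : ℝ := Real.exp (q / 4) * (C * 4 ^ (a + 1)) ^ q * Real.exp (((a + 1) * q) ^ 2 / q) *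
        T ^ ((2 * a + 1) * q) * Real.exp (-(q * T ^ 2 / 50)) with hAdef
    have hAn : 0 ≤ A := by positivity
    have h2 : ∀ t0 ∈ Set.Icc (5 * T / 4 - 1) (5 * T / 2 + 1), ∫⁻ t in (Set.Icc T (3 * T))ᶜ,
        ENNReal.ofReal (‖GF a T (((1 / 2 : ℝ) : ℂ) + t * I)‖ ^ q *
        Real.exp ((1 / 4 - (t - t0) ^ 2) * q)) ≤ ENNReal.ofReal (A * K2) := by
      intro t0 ht0
      calc ∫⁻ t in (Set.Icc T (3 * T))ᶜ,
          ENNReal.ofReal (‖GF a T (((1 / 2 : ℝ) : ℂ) + t * I)‖ ^ q *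
          Real.exp ((1 / 4 - (t - t0) ^ 2) * q))
          ≤ ∫⁻ t in (Set.Icc T (3 * T))ᶜ, ENNReal.ofReal A *
            ENNReal.ofReal (Real.exp (-(q / 4) * (t - t0) ^ 2)) := by
            refine setLIntegral_mono' measurableSet_Icc.compl fun t ht => ?_
            rw [← ENNReal.ofReal_mul hAn]
            exact ENNReal.ofReal_le_ofReal
              (B5_far hq hC hT40 (hg T (by linarith)) ht0 ht)
        _ ≤ ∫⁻ t : ℝ, ENNReal.ofReal A *
            ENNReal.ofReal (Real.exp (-(q / 4) * (t - t0) ^ 2)) := setLIntegral_le_lintegral _ _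
        _ = ENNReal.ofReal (A * K2) := by
            rw [lintegral_const_mul' _ _ ENNReal.ofReal_ne_top, B5_gauss (by positivity),
              ← ENNReal.ofReal_mul hAn]
    calc ∫⁻ t0 in Set.Icc (5 * T / 4 - 1) (5 * T / 2 + 1), ∫⁻ t in (Set.Icc T (3 * T))ᶜ,
        ENNReal.ofReal (‖GF a T (((1 / 2 : ℝ) : ℂ) + t * I)‖ ^ q *
        Real.exp ((1 / 4 - (t - t0) ^ 2) * q))
        ≤ ∫⁻ _t0 in Set.Icc (5 * T / 4 - 1) (5 * T / 2 + 1), ENNReal.ofReal (A * K2) :=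
          setLIntegral_mono' measurableSet_Icc h2
      _ = ENNReal.ofReal (A * K2) * volume (Set.Icc (5 * T / 4 - 1) (5 * T / 2 + 1)) :=
          setLIntegral_const _ _
      _ ≤ ENNReal.ofReal (A * K2) * ENNReal.ofReal (2 * T) := by
          rw [Real.volume_Icc]
          gcongr
          linarith
      _ = ENNReal.ofReal (A * K2 * (2 * T)) := (ENNReal.ofReal_mul (by positivity)).symm
      _ ≤ ENNReal.ofReal 1 := by
          refine ENNReal.ofReal_le_ofReal ?_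
          refine le_trans (le_of_eq ?_) (hT2 T hTT2)
          rw [hAdef, hB, Real.rpow_add hT0, Real.rpow_one]
          ring
  calc ∫⁻ t0 in Set.Icc (5 * T / 4 - 1) (5 * T / 2 + 1), ∫⁻ t : ℝ,
      ENNReal.ofReal (‖GF a T (((1 / 2 : ℝ) : ℂ) + t * I)‖ ^ q *
      Real.exp ((1 / 4 - (t - t0) ^ 2) * q))
      = (∫⁻ t0 in Set.Icc (5 * T / 4 - 1) (5 * T / 2 + 1), ∫⁻ t in Set.Icc T (3 * T),
      ENNReal.ofReal (‖GF a T (((1 / 2 : ℝ) : ℂ) + t * I)‖ ^ q *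
      Real.exp ((1 / 4 - (t - t0) ^ 2) * q))) +
      ∫⁻ t0 in Set.Icc (5 * T / 4 - 1) (5 * T / 2 + 1), ∫⁻ t in (Set.Icc T (3 * T))ᶜ,
      ENNReal.ofReal (‖GF a T (((1 / 2 : ℝ) : ℂ) + t * I)‖ ^ q *
      Real.exp ((1 / 4 - (t - t0) ^ 2) * q)) := by
        simp only [hsplit]
        refine lintegral_add_left' ?_ _
        exact (hjoint.measurable.lintegral_prod_right' (ν := volume.restrict (Set.Icc T (3 * T)))).aemeasurable
    _ ≤ ENNReal.ofReal (Real.exp (q / 4) * K0 * C1 * (T * Real.log T ^ (lam ^ 2))) +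
        ENNReal.ofReal 1 := add_le_add hnear hfar
    _ = ENNReal.ofReal (Real.exp (q / 4) * K0 * C1 * (T * Real.log T ^ (lam ^ 2)) + 1) := by
        have hlog : 0 ≤ Real.log T := Real.log_nonneg (by linarith)
        exact (ENNReal.ofReal_add (by positivity) zero_le_one).symm
    _ ≤ _ := by
        refine ENNReal.ofReal_le_ofReal ?_
        have hlog : 1 ≤ Real.log T := by
          rw [Real.le_log_iff_exp_le hT0]
          exact hT1.trans hTT1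
        have h3 : (1 : ℝ) ≤ Real.log T ^ (lam ^ 2) := Real.one_le_rpow hlog (by positivity)
        have h4 : (1 : ℝ) ≤ T * Real.log T ^ (lam ^ 2) := by nlinarith
        nlinarith

end Pool.Agent.UH
end

section

/-! TASK B6. The mean values off the critical line. `q = 2 lam`, `I = [5T/4-1, 5T/2+1]`, `|I| ≤ 2T` (`T ≥ 3`), `L = log T ≥ 1`, `η = (σ - 1/2)/(99/2)`, `1 - η = (50-σ)/(99/2)`.
(1) For every `t0` `gabriel` applies to `PF a T t0` on `1/2 ≤ Re s ≤ 50`: analytic (`GF_diff`, open set), and `‖PF‖ ≤ C T^a (1+|t|)^{a+1} e^{2500 - (t-t0)²} ≤ K e^{-|t|}` with some `K = K(T, t0, a)` (`GF_growth`; `(1+|t|)^{a+1} e^{|t| - (t-t0)²}` is bounded in `t`).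
(2) `Re s = 50`: `‖GF‖ ≤ ‖ff‖ = ‖ζ‖ ‖1-ζM‖^a ≤ 2 (2 T^{-7277/1000})^a` (`GF_eq`, `norm_quot_le`, `norm_zeta_le_two`, `tail_bound`), so `n_{t0}(50) ≤ (2^{a+1})^q T^{-7.277 a q} e^{2500 q} (π/q)^{1/2} =: K1 T^{-7.277 a q}` for every `t0`.
(3) So `∫_I n_{t0}(σ) dt0 ≤ (K1 T^{-7.277aq})^η ∫_I n_{t0}(1/2)^{1-η} dt0 ≤ (K1 T^{-7.277aq})^η |I|^η (∫_I n_{t0}(1/2) dt0)^{1-η}` (Hölder, e.g. `ENNReal.lintegral_mul_norm_pow_le` with the constant function 1; `t0 ↦ n_{t0}(1/2)` is measurable by Tonelli)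
`≤ K1' T^{-7.277 a q η} (2T)^η (C T L^{lam²})^{1-η} ≤ C' T L^{lam²} T^{-(147/1000) a q (σ-1/2)}` (`left_line`; `7.277/49.5 ≥ 147/1000`, `L ≥ 1`).
(4) Lower bound: `∫_I n_{t0}(σ) dt0 ≥ ∫_{t∈I} ‖GF(σ+it)‖^q (∫_I e^{qσ² - q(t-t0)²} dt0) dt ≥ (1/52)^{(a+1)q} e^{-q} ∫_I ‖ff(σ+it)‖^q dt`: for `t ∈ I` one of `[t-1,t]`, `[t,t+1]` is contained in `I`; `‖GF‖ ≥ (1/52)^{a+1} ‖ff‖` (`norm_quot_ge`). -/

set_option autoImplicit false

namespace Pool.Agent.UH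

open Complex MeasureTheory Finset Pool.Agent.GH
open scoped Real ComplexConjugate ENNReal

private theorem B6_norm_exp (s : ℂ) (t0 : ℝ) :
    ‖cexp ((s - t0 * I) ^ 2)‖ = Real.exp (s.re ^ 2 - (s.im - t0) ^ 2) := by
  rw [Complex.norm_exp]
  congr 1
  rw [pow_two, Complex.mul_re]
  simp
  ring

private theorem B6_norm_PF (a : ℕ) (T t0 : ℝ) (s : ℂ) :
    ‖PF a T t0 s‖ = ‖GF a T s‖ * Real.exp (s.re ^ 2 - (s.im - t0) ^ 2) := by
  unfold PF
  rw [norm_mul, B6_norm_exp]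

private theorem B6_an (a : ℕ) (T t0 : ℝ) {s : ℂ} (hs : -1 < s.re) : AnalyticAt ℂ (PF a T t0) s := by
  have hopen : IsOpen {s : ℂ | -1 < s.re} := isOpen_lt continuous_const Complex.continuous_re
  have h1 : AnalyticAt ℂ (GF a T) s := (GF_diff a T).analyticAt (hopen.mem_nhds hs)
  have h2 : AnalyticAt ℂ (fun s : ℂ => cexp ((s - t0 * I) ^ 2)) s := by
    apply Differentiable.analyticAt
    fun_prop
  exact h1.mul h2

private theorem B6_bound (a : ℕ) (T t0 : ℝ) (hT : 1 ≤ T) : ∃ K : ℝ, ∀ s : ℂ, 1 / 2 ≤ s.re → s.re ≤ 50 →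
    ‖PF a T t0 s‖ ≤ K * Real.exp (-|s.im|) := by
  obtain ⟨C, hC1, hC⟩ := GF_growth a
  refine ⟨C * T ^ a * (((a + 1).factorial : ℝ) * Real.exp (2502 + 2 * |t0|)), fun s h1 h2 => ?_⟩
  rw [B6_norm_PF]
  have h3 := hC T hT s h1 h2
  have hx : (0 : ℝ) ≤ 1 + |s.im| := by positivity
  have h4 : (1 + |s.im|) ^ (a + 1) ≤ ((a + 1).factorial : ℝ) * Real.exp (1 + |s.im|) := by
    have := Real.pow_div_factorial_le_exp (1 + |s.im|) hx (a + 1)
    have hf : (0 : ℝ) < ((a + 1).factorial : ℝ) := by exact_mod_cast Nat.factorial_pos _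
    rw [div_le_iff₀ hf] at this
    linarith
  have h5 : Real.exp (1 + |s.im|) * Real.exp (s.re ^ 2 - (s.im - t0) ^ 2) ≤
      Real.exp (2502 + 2 * |t0|) * Real.exp (-|s.im|) := by
    rw [← Real.exp_add, ← Real.exp_add]
    apply Real.exp_le_exp.2
    have h6 : |s.im| ≤ |s.im - t0| + |t0| := by
      have := abs_add_le (s.im - t0) t0
      rwa [sub_add_cancel] at this
    have h7 : 2 * |s.im - t0| ≤ 1 + (s.im - t0) ^ 2 := by
      have := sq_nonneg (|s.im - t0| - 1)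
      rw [← sq_abs (s.im - t0)]
      nlinarith
    have h8 : s.re ^ 2 ≤ 2500 := by nlinarith
    linarith
  have hCT : 0 ≤ C * T ^ a := by positivity
  calc ‖GF a T s‖ * Real.exp (s.re ^ 2 - (s.im - t0) ^ 2)
      ≤ (C * T ^ a * (((a + 1).factorial : ℝ) * Real.exp (1 + |s.im|))) *
          Real.exp (s.re ^ 2 - (s.im - t0) ^ 2) := by
        refine mul_le_mul_of_nonneg_right (h3.trans ?_) (Real.exp_nonneg _)
        exact mul_le_mul_of_nonneg_left h4 hCT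
    _ = (C * T ^ a * ((a + 1).factorial : ℝ)) *
          (Real.exp (1 + |s.im|) * Real.exp (s.re ^ 2 - (s.im - t0) ^ 2)) := by ring
    _ ≤ (C * T ^ a * ((a + 1).factorial : ℝ)) *
          (Real.exp (2502 + 2 * |t0|) * Real.exp (-|s.im|)) := by
        exact mul_le_mul_of_nonneg_left h5 (by positivity)
    _ = _ := by ring

private theorem B6_gauss {q c : ℝ} (t0 : ℝ) (hq : 0 < q) (hc : 0 ≤ c) :
    ∫⁻ t : ℝ, ENNReal.ofReal (c * Real.exp (-q * (t - t0) ^ 2)) = ENNReal.ofReal (c * √(π / q)) := by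
  have h1 : ∫⁻ t : ℝ, ENNReal.ofReal (c * Real.exp (-q * (t - t0) ^ 2)) =
      ∫⁻ t : ℝ, ENNReal.ofReal (c * Real.exp (-q * t ^ 2)) :=
    lintegral_sub_right_eq_self (fun t : ℝ => ENNReal.ofReal (c * Real.exp (-q * t ^ 2))) t0
  rw [h1, ← ofReal_integral_eq_lintegral_ofReal ((integrable_exp_neg_mul_sq hq).const_mul c)
    (Filter.Eventually.of_forall fun t => by positivity), integral_const_mul, integral_gaussian]

private theorem B6_right (lam : ℝ) (a : ℕ) (h0 : 0 < lam) {T : ℝ} (hT : Real.exp 10 ≤ T) (t0 : ℝ) :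
    ∫⁻ t : ℝ, ENNReal.ofReal (‖PF a T t0 (((50 : ℝ) : ℂ) + t * I)‖ ^ (2 * lam)) ≤
      ENNReal.ofReal ((2 ^ (a + 1) : ℝ) ^ (2 * lam) * Real.exp (2500 * (2 * lam)) * √(π / (2 * lam)) *
        T ^ (-(7277 / 1000) * (a * (2 * lam)) : ℝ)) := by
  have hq : 0 < 2 * lam := by linarith
  have hT0 : 0 < T := (Real.exp_pos _).trans_le hT
  set c : ℝ := ((2 ^ (a + 1) : ℝ) ^ (2 * lam) * Real.exp (2500 * (2 * lam))) *
    T ^ (-(7277 / 1000) * (a * (2 * lam)) : ℝ) with hc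
  have hc0 : 0 ≤ c := by positivity
  have h1 : ∀ t : ℝ, ‖PF a T t0 (((50 : ℝ) : ℂ) + t * I)‖ ^ (2 * lam) ≤
      c * Real.exp (-(2 * lam) * (t - t0) ^ 2) := by
    intro t
    have hre : (((50 : ℝ) : ℂ) + t * I).re = 50 := by simp
    have him : (((50 : ℝ) : ℂ) + t * I).im = t := by simp
    have hne1 : ((50 : ℝ) : ℂ) + t * I ≠ 1 := by
      intro h; have := congrArg Complex.re h; rw [hre] at this; simp at this
    have hne2 : ((50 : ℝ) : ℂ) + t * I ≠ -1 := by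
      intro h; have := congrArg Complex.re h; rw [hre] at this; simp at this; linarith
    have hG : ‖GF a T (((50 : ℝ) : ℂ) + t * I)‖ ≤ 2 * (2 * T ^ (-(7277 / 1000) : ℝ)) ^ a := by
      rw [GF_eq a T hne1 hne2, norm_mul, norm_pow]
      have h2 := norm_quot_le (s := ((50 : ℝ) : ℂ) + t * I) (by rw [hre]; norm_num)
      have h3 : ‖ff a T (((50 : ℝ) : ℂ) + t * I)‖ ≤ 2 * (2 * T ^ (-(7277 / 1000) : ℝ)) ^ a := by
        unfold ff
        rw [norm_mul, norm_pow]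
        refine mul_le_mul (norm_zeta_le_two (by rw [hre]; norm_num)) ?_ (by positivity)
          (by norm_num)
        exact pow_le_pow_left₀ (norm_nonneg _) (tail_bound T hT _ hre) a
      calc ‖(((50 : ℝ) : ℂ) + t * I - 1) / (((50 : ℝ) : ℂ) + t * I + 1)‖ ^ (a + 1) *
            ‖ff a T (((50 : ℝ) : ℂ) + t * I)‖ ≤ 1 * ‖ff a T (((50 : ℝ) : ℂ) + t * I)‖ :=
            mul_le_mul_of_nonneg_right (pow_le_one₀ (norm_nonneg _) h2) (norm_nonneg _)
        _ ≤ _ := by rw [one_mul]; exact h3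
    rw [B6_norm_PF, hre, him]
    rw [Real.mul_rpow (norm_nonneg _) (Real.exp_nonneg _)]
    have h4 : ‖GF a T (((50 : ℝ) : ℂ) + t * I)‖ ^ (2 * lam) ≤
        (2 ^ (a + 1) : ℝ) ^ (2 * lam) * T ^ (-(7277 / 1000) * (a * (2 * lam)) : ℝ) := by
      refine (Real.rpow_le_rpow (norm_nonneg _) hG hq.le).trans (le_of_eq ?_)
      have h5 : 2 * (2 * T ^ (-(7277 / 1000) : ℝ)) ^ a =
          (2 ^ (a + 1) : ℝ) * (T ^ (-(7277 / 1000) : ℝ)) ^ a := by
        rw [mul_pow]; ring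
      rw [h5, Real.mul_rpow (by positivity) (by positivity)]
      congr 1
      rw [← Real.rpow_natCast, ← Real.rpow_mul hT0.le, ← Real.rpow_mul hT0.le]
      congr 1
      ring
    have h6 : Real.exp (50 ^ 2 - (t - t0) ^ 2) ^ (2 * lam) =
        Real.exp (2500 * (2 * lam)) * Real.exp (-(2 * lam) * (t - t0) ^ 2) := by
      rw [← Real.exp_mul, ← Real.exp_add]
      congr 1
      ring
    rw [h6, hc]
    calc ‖GF a T (((50 : ℝ) : ℂ) + t * I)‖ ^ (2 * lam) *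
          (Real.exp (2500 * (2 * lam)) * Real.exp (-(2 * lam) * (t - t0) ^ 2)) ≤
          ((2 ^ (a + 1) : ℝ) ^ (2 * lam) * T ^ (-(7277 / 1000) * (a * (2 * lam)) : ℝ)) *
          (Real.exp (2500 * (2 * lam)) * Real.exp (-(2 * lam) * (t - t0) ^ 2)) :=
          mul_le_mul_of_nonneg_right h4 (by positivity)
      _ = _ := by ring
  refine (lintegral_mono fun t => ENNReal.ofReal_le_ofReal (h1 t)).trans ?_
  rw [B6_gauss t0 hq hc0]
  apply ENNReal.ofReal_le_ofReal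
  apply le_of_eq
  rw [hc]
  ring

private theorem B6_cont (a : ℕ) (T : ℝ) {σ : ℝ} (hσ : -1 < σ) :
    Continuous (fun p : ℝ × ℝ => PF a T p.1 ((σ : ℂ) + p.2 * I)) := by
  have h1 : Continuous (fun p : ℝ × ℝ => GF a T ((σ : ℂ) + p.2 * I)) := by
    refine (GF_diff a T).continuousOn.comp_continuous (by fun_prop) fun p => ?_
    simpa using hσ
  unfold PF
  exact h1.mul (by fun_prop)

private theorem B6_meas (a : ℕ) (T : ℝ) {σ q : ℝ} (hσ : -1 < σ) (hq : 0 < q) :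
    Measurable (fun p : ℝ × ℝ => ENNReal.ofReal (‖PF a T p.1 ((σ : ℂ) + p.2 * I)‖ ^ q)) :=
  ((B6_cont a T hσ).norm.rpow_const fun _ => Or.inr hq.le).measurable.ennreal_ofReal

private theorem B6_holder {f : ℝ → ℝ≥0∞} (hf : Measurable f) (s : Set ℝ) {η θ : ℝ} (h0 : 0 ≤ η)
    (h1 : 0 ≤ θ) (h2 : θ + η = 1) :
    ∫⁻ x in s, f x ^ θ ≤ (∫⁻ x in s, f x) ^ θ * (volume s) ^ η := by
  have := ENNReal.lintegral_mul_norm_pow_le (μ := volume.restrict s) hf.aemeasurable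
    (aemeasurable_const (b := (1 : ℝ≥0∞))) h1 h0 h2
  simpa using this

private theorem B6_upper (lam : ℝ) (a : ℕ) (h0 : 0 < lam) {T : ℝ} (hT : Real.exp 10 ≤ T)
    {σ : ℝ} (h1 : 1 / 2 ≤ σ) (h2 : σ ≤ 50) (s : Set ℝ) :
    ∫⁻ t0 in s, ∫⁻ t : ℝ, ENNReal.ofReal (‖PF a T t0 ((σ : ℂ) + t * I)‖ ^ (2 * lam)) ≤
      ((∫⁻ t0 in s, ∫⁻ t : ℝ,
        ENNReal.ofReal (‖PF a T t0 (((1 / 2 : ℝ) : ℂ) + t * I)‖ ^ (2 * lam))) ^
          ((50 - σ) / (50 - 1 / 2)) * (volume s) ^ ((σ - 1 / 2) / (50 - 1 / 2))) *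
      ENNReal.ofReal ((2 ^ (a + 1) : ℝ) ^ (2 * lam) * Real.exp (2500 * (2 * lam)) *
        √(π / (2 * lam)) * T ^ (-(7277 / 1000) * (a * (2 * lam)) : ℝ)) ^
          ((σ - 1 / 2) / (50 - 1 / 2)) := by
  have hq : 0 < 2 * lam := by linarith
  have hT1 : 1 ≤ T := (Real.one_le_exp (by norm_num)).trans hT
  have hη : 0 ≤ (σ - 1 / 2) / (50 - 1 / 2) := div_nonneg (by linarith) (by norm_num)
  have hθ : 0 ≤ (50 - σ) / (50 - 1 / 2) := div_nonneg (by linarith) (by norm_num)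
  have hθη : (50 - σ) / (50 - 1 / 2) + (σ - 1 / 2) / (50 - 1 / 2) = 1 := by
    rw [← add_div, div_eq_one_iff_eq (by norm_num)]; ring
  set R : ℝ≥0∞ := ENNReal.ofReal ((2 ^ (a + 1) : ℝ) ^ (2 * lam) * Real.exp (2500 * (2 * lam)) *
        √(π / (2 * lam)) * T ^ (-(7277 / 1000) * (a * (2 * lam)) : ℝ)) with hR
  have hpt : ∀ t0 : ℝ, ∫⁻ t : ℝ, ENNReal.ofReal (‖PF a T t0 ((σ : ℂ) + t * I)‖ ^ (2 * lam)) ≤
      (∫⁻ t : ℝ, ENNReal.ofReal (‖PF a T t0 (((1 / 2 : ℝ) : ℂ) + t * I)‖ ^ (2 * lam))) ^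
        ((50 - σ) / (50 - 1 / 2)) * R ^ ((σ - 1 / 2) / (50 - 1 / 2)) := by
    intro t0
    obtain ⟨K, hK⟩ := B6_bound a T t0 hT1
    refine (gabriel (Φ := PF a T t0) (A := 1 / 2) (B := 50) (q := 2 * lam) (K := K)
      (by norm_num) hq (fun s hs _ => B6_an a T t0 (by linarith)) (fun s hs hs' => hK s hs hs')
      h1 h2).trans ?_
    gcongr
    exact B6_right lam a h0 hT t0
  refine (lintegral_mono fun t0 => hpt t0).trans ?_
  have hRtop : R ^ ((σ - 1 / 2) / (50 - 1 / 2)) ≠ ∞ :=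
    ENNReal.rpow_ne_top_of_nonneg hη ENNReal.ofReal_ne_top
  rw [lintegral_mul_const' _ _ hRtop]
  gcongr
  refine B6_holder ?_ s hη hθ hθη
  exact (B6_meas a T (by norm_num) hq).lintegral_prod_right'

private theorem B6_lower_pt (lam : ℝ) (a : ℕ) (h0 : 0 < lam) {T : ℝ} (hT : Real.exp 1 ≤ T)
    {σ : ℝ} (h1 : 1 / 2 ≤ σ) (h2 : σ ≤ 50) {t : ℝ}
    (ht : t ∈ Set.Icc (5 * T / 4 - 1) (5 * T / 2 + 1)) :
    ENNReal.ofReal (((1 / 52 : ℝ) ^ (a + 1) * Real.exp (-1)) ^ (2 * lam)) *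
      ENNReal.ofReal (‖ff a T (σ + t * I)‖ ^ (2 * lam)) ≤
    ∫⁻ t0 in Set.Icc (5 * T / 4 - 1) (5 * T / 2 + 1),
      ENNReal.ofReal (‖PF a T t0 ((σ : ℂ) + t * I)‖ ^ (2 * lam)) := by
  have hq : 0 < 2 * lam := by linarith
  have he : (2.7182818283 : ℝ) < Real.exp 1 := Real.exp_one_gt_d9
  have hT2 : (2.7 : ℝ) ≤ T := by linarith
  have hre : ((σ : ℂ) + t * I).re = σ := by simp
  have him : ((σ : ℂ) + t * I).im = t := by simp
  have ht1 : 1 ≤ t := by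
    have := ht.1
    linarith
  have hne1 : (σ : ℂ) + t * I ≠ 1 := by
    intro h; have := congrArg Complex.im h; rw [him] at this; simp at this; linarith
  have hne2 : (σ : ℂ) + t * I ≠ -1 := by
    intro h; have := congrArg Complex.im h; rw [him] at this; simp at this; linarith
  have hG : (1 / 52 : ℝ) ^ (a + 1) * ‖ff a T (σ + t * I)‖ ≤ ‖GF a T ((σ : ℂ) + t * I)‖ := by
    rw [GF_eq a T hne1 hne2, norm_mul, norm_pow]
    refine mul_le_mul_of_nonneg_right ?_ (norm_nonneg _)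
    exact pow_le_pow_left₀ (by norm_num) (norm_quot_ge (by rw [hre]; linarith)
      (by rw [hre]; exact h2) (by rw [him]; exact ht1)) _
  -- an interval of length one
  obtain ⟨u, hu, hJ⟩ : ∃ u : ℝ, (∀ x ∈ Set.Icc u (u + 1), (t - x) ^ 2 ≤ 1) ∧
      Set.Icc u (u + 1) ⊆ Set.Icc (5 * T / 4 - 1) (5 * T / 2 + 1) := by
    rcases le_total (t + 1) (5 * T / 2 + 1) with h | h
    · refine ⟨t, fun x hx => ?_, Set.Icc_subset_Icc ht.1 h⟩
      have h3 := hx.1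
      have h4 := hx.2
      nlinarith
    · refine ⟨t - 1, fun x hx => ?_, Set.Icc_subset_Icc (by linarith) ?_⟩
      · have h3 := hx.1
        have h4 := hx.2
        nlinarith
      · have := ht.2
        linarith
  calc ENNReal.ofReal (((1 / 52 : ℝ) ^ (a + 1) * Real.exp (-1)) ^ (2 * lam)) *
      ENNReal.ofReal (‖ff a T (σ + t * I)‖ ^ (2 * lam))
      = ∫⁻ _ in Set.Icc u (u + 1), ENNReal.ofReal (((1 / 52 : ℝ) ^ (a + 1) * Real.exp (-1)) ^ (2 * lam)) *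
        ENNReal.ofReal (‖ff a T (σ + t * I)‖ ^ (2 * lam)) := by
        rw [setLIntegral_const, Real.volume_Icc, add_sub_cancel_left, ENNReal.ofReal_one, mul_one]
    _ ≤ ∫⁻ t0 in Set.Icc u (u + 1), ENNReal.ofReal (‖PF a T t0 ((σ : ℂ) + t * I)‖ ^ (2 * lam)) := by
        refine setLIntegral_mono' measurableSet_Icc fun x hx => ?_
        rw [← ENNReal.ofReal_mul (by positivity), ← Real.mul_rpow (by positivity) (norm_nonneg _)]
        apply ENNReal.ofReal_le_ofReal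
        refine Real.rpow_le_rpow (by positivity) ?_ hq.le
        rw [B6_norm_PF, hre, him]
        have h5 : Real.exp (-1) ≤ Real.exp (σ ^ 2 - (t - x) ^ 2) := by
          apply Real.exp_le_exp.2
          have := hu x hx
          nlinarith [sq_nonneg σ]
        calc (1 / 52 : ℝ) ^ (a + 1) * Real.exp (-1) * ‖ff a T (σ + t * I)‖
            = ((1 / 52 : ℝ) ^ (a + 1) * ‖ff a T (σ + t * I)‖) * Real.exp (-1) := by ring
          _ ≤ ‖GF a T ((σ : ℂ) + t * I)‖ * Real.exp (σ ^ 2 - (t - x) ^ 2) :=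
            mul_le_mul hG h5 (Real.exp_nonneg _) (norm_nonneg _)
    _ ≤ _ := lintegral_mono_set hJ

private theorem B6_lower (lam : ℝ) (a : ℕ) (h0 : 0 < lam) {T : ℝ} (hT : Real.exp 1 ≤ T)
    {σ : ℝ} (h1 : 1 / 2 ≤ σ) (h2 : σ ≤ 50) :
    ENNReal.ofReal (((1 / 52 : ℝ) ^ (a + 1) * Real.exp (-1)) ^ (2 * lam)) *
      ∫⁻ t in Set.Icc (5 * T / 4 - 1) (5 * T / 2 + 1),
        ENNReal.ofReal (‖ff a T (σ + t * I)‖ ^ (2 * lam)) ≤
    ∫⁻ t0 in Set.Icc (5 * T / 4 - 1) (5 * T / 2 + 1), ∫⁻ t : ℝ,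
      ENNReal.ofReal (‖PF a T t0 ((σ : ℂ) + t * I)‖ ^ (2 * lam)) := by
  have hq : 0 < 2 * lam := by linarith
  rw [← lintegral_const_mul' _ _ ENNReal.ofReal_ne_top]
  rw [lintegral_lintegral_swap (B6_meas a T (by linarith) hq).aemeasurable]
  refine le_trans ?_ (setLIntegral_le_lintegral (Set.Icc (5 * T / 4 - 1) (5 * T / 2 + 1)) _)
  exact setLIntegral_mono' measurableSet_Icc fun t ht => B6_lower_pt lam a h0 hT h1 h2 ht

private theorem B6_numbers {lam K1 C1 T σ : ℝ} {a : ℕ} (h0 : 0 < lam) (hK : 0 ≤ K1) (hC : 1 ≤ C1)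
    (hT : Real.exp 1 ≤ T) (h1 : 1 / 2 ≤ σ) (h2 : σ ≤ 50) :
    (C1 * (T * Real.log T ^ (lam ^ 2))) ^ ((50 - σ) / (50 - 1 / 2)) *
      (2 * T) ^ ((σ - 1 / 2) / (50 - 1 / 2)) *
      (K1 * T ^ (-(7277 / 1000) * (a * (2 * lam)) : ℝ)) ^ ((σ - 1 / 2) / (50 - 1 / 2)) ≤
    (C1 * 2 * max 1 K1) * (T * Real.log T ^ (lam ^ 2)) *
      T ^ (-(2 * lam * a * (147 / 1000) * (σ - 1 / 2)) : ℝ) := by
  set η : ℝ := (σ - 1 / 2) / (50 - 1 / 2) with hηdef
  set θ : ℝ := (50 - σ) / (50 - 1 / 2) with hθdef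
  have hη : 0 ≤ η := div_nonneg (by linarith) (by norm_num)
  have hθ : 0 ≤ θ := div_nonneg (by linarith) (by norm_num)
  have hθη : θ + η = 1 := by
    rw [hηdef, hθdef, ← add_div, div_eq_one_iff_eq (by norm_num)]; ring
  have hη1 : η ≤ 1 := by linarith
  have hθ1 : θ ≤ 1 := by linarith
  have hT0 : 0 < T := (Real.exp_pos 1).trans_le hT
  have hT1 : 1 ≤ T := (Real.one_le_exp (by norm_num)).trans hT
  have hL : 1 ≤ Real.log T := by
    rw [← Real.log_exp 1]; exact Real.log_le_log (Real.exp_pos _) hT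
  have hL2 : 1 ≤ Real.log T ^ (lam ^ 2) := Real.one_le_rpow hL (sq_nonneg _)
  have e1 : (C1 * (T * Real.log T ^ (lam ^ 2))) ^ θ ≤ C1 * (T ^ θ * Real.log T ^ (lam ^ 2)) := by
    rw [Real.mul_rpow (by linarith) (by positivity), Real.mul_rpow hT0.le (by positivity)]
    refine mul_le_mul ?_ ?_ (by positivity) (by linarith)
    · calc C1 ^ θ ≤ C1 ^ (1 : ℝ) := Real.rpow_le_rpow_of_exponent_le hC hθ1
        _ = C1 := Real.rpow_one _
    · refine mul_le_mul_of_nonneg_left ?_ (by positivity)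
      calc (Real.log T ^ (lam ^ 2)) ^ θ ≤ (Real.log T ^ (lam ^ 2)) ^ (1 : ℝ) :=
            Real.rpow_le_rpow_of_exponent_le hL2 hθ1
        _ = _ := Real.rpow_one _
  have e2 : (2 * T) ^ η ≤ 2 * T ^ η := by
    rw [Real.mul_rpow (by norm_num) hT0.le]
    refine mul_le_mul_of_nonneg_right ?_ (by positivity)
    calc (2 : ℝ) ^ η ≤ 2 ^ (1 : ℝ) := Real.rpow_le_rpow_of_exponent_le (by norm_num) hη1
      _ = 2 := Real.rpow_one _
  have e3 : (K1 * T ^ (-(7277 / 1000) * (a * (2 * lam)) : ℝ)) ^ η ≤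
      max 1 K1 * T ^ (-(2 * lam * a * (147 / 1000) * (σ - 1 / 2)) : ℝ) := by
    rw [Real.mul_rpow hK (by positivity)]
    refine mul_le_mul ?_ ?_ (by positivity) (by positivity)
    · calc K1 ^ η ≤ (max 1 K1) ^ η := Real.rpow_le_rpow hK (le_max_right _ _) hη
        _ ≤ (max 1 K1) ^ (1 : ℝ) := Real.rpow_le_rpow_of_exponent_le (le_max_left _ _) hη1
        _ = _ := Real.rpow_one _
    · rw [← Real.rpow_mul hT0.le]
      apply Real.rpow_le_rpow_of_exponent_le hT1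
      have h3 : (147 / 1000 : ℝ) * (σ - 1 / 2) ≤ 7277 / 1000 * η := by
        rw [hηdef, ← mul_div_assoc, le_div_iff₀ (by norm_num)]
        nlinarith
      have h4 : 0 ≤ (a : ℝ) * (2 * lam) := by positivity
      nlinarith [mul_le_mul_of_nonneg_left h3 h4]
  calc _ ≤ (C1 * (T ^ θ * Real.log T ^ (lam ^ 2))) * (2 * T ^ η) *
        (max 1 K1 * T ^ (-(2 * lam * a * (147 / 1000) * (σ - 1 / 2)) : ℝ)) := by
        refine mul_le_mul (mul_le_mul e1 e2 (by positivity) (by positivity)) e3 ?_ ?_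
        · exact Real.rpow_nonneg (mul_nonneg hK (by positivity)) _
        · exact mul_nonneg (mul_nonneg (by linarith) (by positivity)) (by positivity)
    _ = (C1 * 2 * max 1 K1) * ((T ^ θ * T ^ η) * Real.log T ^ (lam ^ 2)) *
        T ^ (-(2 * lam * a * (147 / 1000) * (σ - 1 / 2)) : ℝ) := by ring
    _ = _ := by rw [← Real.rpow_add hT0, hθη, Real.rpow_one]

theorem offline (lam : ℝ) (a : ℕ) (h0 : 0 < lam) (h1 : (1 + a) * lam ≤ 1) : ∃ C T0 : ℝ, 1 ≤ C ∧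
    Real.exp 1 ≤ T0 ∧ ∀ T : ℝ, T0 ≤ T → ∀ σ : ℝ, 1 / 2 ≤ σ → σ ≤ 50 →
    ∫⁻ t in Set.Icc (5 * T / 4 - 1) (5 * T / 2 + 1), ENNReal.ofReal (‖ff a T (σ + t * I)‖ ^ (2 * lam)) ≤
      ENNReal.ofReal (C * (T * Real.log T ^ (lam ^ 2)) *
        T ^ (-(2 * lam * a * (147 / 1000) * (σ - 1 / 2)) : ℝ)) := by
  obtain ⟨C1, T1, hC1, hT1, hleft⟩ := left_line lam a h0 h1
  have hq : 0 < 2 * lam := by linarith
  set κ : ℝ := ((1 / 52 : ℝ) ^ (a + 1) * Real.exp (-1)) ^ (2 * lam) with hκ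
  set K1 : ℝ := (2 ^ (a + 1) : ℝ) ^ (2 * lam) * Real.exp (2500 * (2 * lam)) *
        √(π / (2 * lam)) with hK1
  have hκ0 : 0 < κ := by positivity
  have hK0 : 0 ≤ K1 := by positivity
  refine ⟨max 1 (κ⁻¹ * (C1 * 2 * max 1 K1)), max T1 (Real.exp 10), le_max_left _ _,
    hT1.trans (le_max_left _ _), fun T hT σ hσ1 hσ2 => ?_⟩
  have hTT1 : T1 ≤ T := (le_max_left _ _).trans hT
  have hT10 : Real.exp 10 ≤ T := (le_max_right _ _).trans hT
  have hTe : Real.exp 1 ≤ T := hT1.trans hTT1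
  have he : (2.7182818283 : ℝ) < Real.exp 1 := Real.exp_one_gt_d9
  have hTbig : (2.7 : ℝ) ≤ T := by linarith
  have hT0 : 0 < T := by linarith
  have hL : 1 ≤ Real.log T := by
    rw [← Real.log_exp 1]; exact Real.log_le_log (Real.exp_pos _) hTe
  have hη : 0 ≤ (σ - 1 / 2) / (50 - 1 / 2) := div_nonneg (by linarith) (by norm_num)
  have hθ : 0 ≤ (50 - σ) / (50 - 1 / 2) := div_nonneg (by linarith) (by norm_num)
  have hvol : volume (Set.Icc (5 * T / 4 - 1) (5 * T / 2 + 1)) ≤ ENNReal.ofReal (2 * T) := by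
    rw [Real.volume_Icc]
    exact ENNReal.ofReal_le_ofReal (by linarith)
  have hup := B6_upper lam a h0 hT10 hσ1 hσ2 (Set.Icc (5 * T / 4 - 1) (5 * T / 2 + 1))
  have hlow := B6_lower lam a h0 hTe hσ1 hσ2
  have hmid : ENNReal.ofReal κ * ∫⁻ t in Set.Icc (5 * T / 4 - 1) (5 * T / 2 + 1),
        ENNReal.ofReal (‖ff a T (σ + t * I)‖ ^ (2 * lam)) ≤
      ENNReal.ofReal ((C1 * 2 * max 1 K1) * (T * Real.log T ^ (lam ^ 2)) *
        T ^ (-(2 * lam * a * (147 / 1000) * (σ - 1 / 2)) : ℝ)) := by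
    refine (hlow.trans hup).trans ?_
    refine le_trans ?_ (ENNReal.ofReal_le_ofReal (B6_numbers (a := a) h0 hK0 hC1 hTe hσ1 hσ2))
    have hX : 0 ≤ C1 * (T * Real.log T ^ (lam ^ 2)) := by positivity
    have hKT : (0 : ℝ) ≤ K1 * T ^ (-(7277 / 1000) * (a * (2 * lam)) : ℝ) := by positivity
    have key : ENNReal.ofReal ((C1 * (T * Real.log T ^ (lam ^ 2))) ^ ((50 - σ) / (50 - 1 / 2)) *
      (2 * T) ^ ((σ - 1 / 2) / (50 - 1 / 2)) *
      (K1 * T ^ (-(7277 / 1000) * (a * (2 * lam)) : ℝ)) ^ ((σ - 1 / 2) / (50 - 1 / 2))) =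
      ENNReal.ofReal (C1 * (T * Real.log T ^ (lam ^ 2))) ^ ((50 - σ) / (50 - 1 / 2)) *
      ENNReal.ofReal (2 * T) ^ ((σ - 1 / 2) / (50 - 1 / 2)) *
      ENNReal.ofReal (K1 * T ^ (-(7277 / 1000) * (a * (2 * lam)) : ℝ)) ^
        ((σ - 1 / 2) / (50 - 1 / 2)) := by
      rw [ENNReal.ofReal_mul (by positivity), ENNReal.ofReal_mul (by positivity),
        ENNReal.ofReal_rpow_of_nonneg hX hθ,
        ENNReal.ofReal_rpow_of_nonneg (by positivity : (0 : ℝ) ≤ 2 * T) hη,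
        ENNReal.ofReal_rpow_of_nonneg hKT hη]
    rw [key]
    refine mul_le_mul_left (mul_le_mul' ?_ ?_) _
    · exact ENNReal.rpow_le_rpow (hleft T hTT1) hθ
    · exact ENNReal.rpow_le_rpow hvol hη
  have hfin : ∫⁻ t in Set.Icc (5 * T / 4 - 1) (5 * T / 2 + 1),
        ENNReal.ofReal (‖ff a T (σ + t * I)‖ ^ (2 * lam)) =
      ENNReal.ofReal κ⁻¹ * (ENNReal.ofReal κ * ∫⁻ t in Set.Icc (5 * T / 4 - 1) (5 * T / 2 + 1),
        ENNReal.ofReal (‖ff a T (σ + t * I)‖ ^ (2 * lam))) := by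
    rw [← mul_assoc, ← ENNReal.ofReal_mul (by positivity), inv_mul_cancel₀ hκ0.ne',
      ENNReal.ofReal_one, one_mul]
  rw [hfin]
  refine (mul_le_mul_right hmid (ENNReal.ofReal κ⁻¹)).trans ?_
  rw [← ENNReal.ofReal_mul (by positivity)]
  apply ENNReal.ofReal_le_ofReal
  have hnn : 0 ≤ (T * Real.log T ^ (lam ^ 2)) *
        T ^ (-(2 * lam * a * (147 / 1000) * (σ - 1 / 2)) : ℝ) := by positivity
  have hmax := le_max_right (1 : ℝ) (κ⁻¹ * (C1 * 2 * max 1 K1))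
  calc κ⁻¹ * ((C1 * 2 * max 1 K1) * (T * Real.log T ^ (lam ^ 2)) *
        T ^ (-(2 * lam * a * (147 / 1000) * (σ - 1 / 2)) : ℝ))
      = (κ⁻¹ * (C1 * 2 * max 1 K1)) * ((T * Real.log T ^ (lam ^ 2)) *
        T ^ (-(2 * lam * a * (147 / 1000) * (σ - 1 / 2)) : ℝ)) := by ring
    _ ≤ max 1 (κ⁻¹ * (C1 * 2 * max 1 K1)) * ((T * Real.log T ^ (lam ^ 2)) *
        T ^ (-(2 * lam * a * (147 / 1000) * (σ - 1 / 2)) : ℝ)) :=
        mul_le_mul_of_nonneg_right hmax hnn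
    _ = _ := by ring

end Pool.Agent.UH
end
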