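import Pool.Agent.Lib.MP_69b2e4_nt.Mg.G012
import Pool.Agent.Lib.MP_69b2e4_nt.Mg.G004
import Pool.Agent.Lib.MP_69b2e4_nt.Mg.G002

section

/-! TASK Z1. Zeros within `1/L` to the right of the critical line, `L = log T`, `q = 2 lam`, `δ = 1/(8L)`. `ff 0 T = ζ`.
First: for `1/2 - 3/(8L) ≤ x ≤ 50` the integral `N(x) = ∫⁻_{[5T/4-1, 5T/2+1]} ‖ζ(x+iy)‖^q dy` is `≤ C T L^{lam²}`: for `x ≥ 1/2` this is `offline` with `a = 0` (the last factor is 1); for `x < 1/2` `zeta_left`: `‖ζ(x+iy)‖ ≤ C y^{1/2-x} ‖ζ(1-x+iy)‖`,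
`y^{1/2-x} ≤ (3T)^{3/(8L)} ≤ e` (`log(3T) ≤ 2L`), and `1 - x ∈ [1/2, 1]`.
Each zero in question lies in a row `i = ⌊8L(Re ρ - 1/2)⌋ ∈ {0,...,8}` (`σ0 = 1/2 + i δ`, `σ0 ≤ Re ρ ≤ σ0 + δ`). `row` with `f = ζ = ff 0 T` (`ff_analytic`), `A = 5T/4`, `B = 5T/2`, `4δ ≤ 1`: the row contributes at most
`C δ^{-q-2} ∫_{x ∈ [σ0-3δ, σ0+4δ]} N(x) dx ≤ C δ^{-q-2} 7δ C' T L^{lam²}` (`x ≥ 1/2 - 3δ`), `δ^{-q-1} = (8L)^{q+1}`. Sum over 9 rows; `L^{q+1} L^{lam²} = L^{(lam+1)²}` (`(lam+1)² = lam² + 2lam + 1`; `Real.rpow_add`, `L > 0`). -/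

set_option autoImplicit false

namespace Pool.Agent.UH

open Complex MeasureTheory Finset Pool.Agent.GH
open scoped Real ComplexConjugate

/-- real form of `row`, for a function whose vertical integrals are bounded by `K` -/
private theorem Z1_rowR {q : ℝ} (hq : 0 < q) : ∃ C : ℝ, 1 ≤ C ∧
    ∀ (f : ℂ → ℂ) (σ0 δ A B K : ℝ) (Z : Finset ℂ),
    0 < δ → 8 * δ ≤ A → 0 ≤ K → (∀ s : ℂ, 0 < s.im → AnalyticAt ℂ f s) →
    (∀ ρ ∈ Z, f ρ = 0 ∧ σ0 ≤ ρ.re ∧ ρ.re ≤ σ0 + δ ∧ A ≤ ρ.im ∧ ρ.im ≤ B) →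
    (∀ x : ℝ, σ0 - 3 * δ ≤ x → x ≤ σ0 + 4 * δ → ∫⁻ y in Set.Icc (A - 4 * δ) (B + 4 * δ),
        ENNReal.ofReal (‖f (x + y * I)‖ ^ q) ≤ ENNReal.ofReal K) →
    ∑ ρ ∈ Z, ‖deriv f ρ‖ ^ q ≤ C * δ ^ (-(q + 1)) * K := by
  obtain ⟨C, hC1, hC⟩ := row hq
  refine ⟨7 * C, by linarith, ?_⟩
  intro f σ0 δ A B K Z hδ hA hK hf hZ hN
  have h1 := hC f σ0 δ A B Z hδ hA hf hZ
  have h2 : ∫⁻ x in Set.Icc (σ0 - 3 * δ) (σ0 + 4 * δ), ∫⁻ y in Set.Icc (A - 4 * δ) (B + 4 * δ),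
        ENNReal.ofReal (‖f (x + y * I)‖ ^ q) ≤ ENNReal.ofReal (K * (7 * δ)) := by
    calc ∫⁻ x in Set.Icc (σ0 - 3 * δ) (σ0 + 4 * δ), ∫⁻ y in Set.Icc (A - 4 * δ) (B + 4 * δ),
          ENNReal.ofReal (‖f (x + y * I)‖ ^ q)
        ≤ ∫⁻ x in Set.Icc (σ0 - 3 * δ) (σ0 + 4 * δ), ENNReal.ofReal K := by
          refine setLIntegral_mono' measurableSet_Icc ?_
          intro x hx
          exact hN x hx.1 hx.2
      _ = ENNReal.ofReal (K * (7 * δ)) := by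
          rw [setLIntegral_const, Real.volume_Icc, ← ENNReal.ofReal_mul hK]
          congr 2
          ring
  have h3 : ENNReal.ofReal (∑ ρ ∈ Z, ‖deriv f ρ‖ ^ q) ≤
      ENNReal.ofReal ((C * δ ^ (-q - 2)) * (K * (7 * δ))) := by
    rw [ENNReal.ofReal_sum_of_nonneg (fun ρ _ => by positivity),
      ENNReal.ofReal_mul (by positivity)]
    exact h1.trans (mul_le_mul' le_rfl h2)
  have h4 : (0 : ℝ) ≤ (C * δ ^ (-q - 2)) * (K * (7 * δ)) := by positivity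
  have h5 := (ENNReal.ofReal_le_ofReal_iff h4).1 h3
  refine h5.trans (le_of_eq ?_)
  have h6 : δ ^ (-(q + 1)) = δ ^ (-q - 2) * δ := by
    have : δ ^ (-q - 2) * δ = δ ^ (-q - 2) * δ ^ (1 : ℝ) := by rw [Real.rpow_one]
    rw [this, ← Real.rpow_add hδ]
    congr 1
    ring
  rw [h6]
  ring

theorem near_right (lam : ℝ) (h0 : 0 < lam) (h1 : lam ≤ 1) : ∃ C T0 : ℝ, 1 ≤ C ∧ Real.exp 1 ≤ T0 ∧
    ∀ (T : ℝ) (Z : Finset ℂ), T0 ≤ T →
    (∀ ρ ∈ Z, riemannZeta ρ = 0 ∧ 1 / 2 ≤ ρ.re ∧ ρ.re ≤ 1 / 2 + 1 / Real.log T ∧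
      5 * T / 4 ≤ ρ.im ∧ ρ.im ≤ 5 * T / 2) →
    ∑ ρ ∈ Z, ‖deriv riemannZeta ρ‖ ^ (2 * lam) ≤ C * (T * Real.log T ^ ((lam + 1) ^ 2)) := by
  classical
  obtain ⟨C₁, T₁, hC₁, hT₁, hoff⟩ := offline lam 0 h0 (by push_cast; linarith)
  obtain ⟨C₂, hC₂, hrow⟩ := Z1_rowR (q := 2 * lam) (by linarith)
  obtain ⟨C₃, hC₃, hzl⟩ := zeta_left
  have hE1 : (1 : ℝ) ≤ Real.exp 2 := Real.one_le_exp (by norm_num)
  have hCE : (1 : ℝ) ≤ C₃ * Real.exp 2 := by nlinarith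
  have hCEq : (1 : ℝ) ≤ (C₃ * Real.exp 2) ^ (2 * lam) := Real.one_le_rpow hCE (by linarith)
  refine ⟨9 * (C₂ * 8 ^ (2 * lam + 1) * ((C₃ * Real.exp 2) ^ (2 * lam) * C₁)), T₁, ?_, hT₁, ?_⟩
  · have h8 : (1 : ℝ) ≤ 8 ^ (2 * lam + 1) := Real.one_le_rpow (by norm_num) (by linarith)
    have : (1 : ℝ) ≤ C₂ * 8 ^ (2 * lam + 1) * ((C₃ * Real.exp 2) ^ (2 * lam) * C₁) := by
      have h9 : (1 : ℝ) ≤ C₂ * 8 ^ (2 * lam + 1) := by nlinarith
      have h10 : (1 : ℝ) ≤ (C₃ * Real.exp 2) ^ (2 * lam) * C₁ := by nlinarith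
      nlinarith
    linarith
  intro T Z hT hZ
  have hTe : Real.exp 1 ≤ T := hT₁.trans hT
  have hT0 : 0 < T := (Real.exp_pos 1).trans_le hTe
  have hT2 : 2 ≤ T := by
    have := Real.add_one_le_exp (1 : ℝ)
    linarith
  set L := Real.log T with hLdef
  have hL1 : 1 ≤ L := by
    rw [hLdef, Real.le_log_iff_exp_le hT0]
    exact hTe
  have hL0 : 0 < L := by linarith
  set K₀ := C₁ * (T * L ^ (lam ^ 2)) with hK₀
  have hK₀0 : 0 ≤ K₀ := by positivity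
  set K := (C₃ * Real.exp 2) ^ (2 * lam) * K₀ with hK
  have hK0 : 0 ≤ K := by positivity
  have hKK : K₀ ≤ K := by nlinarith
  have hffe : ff 0 T = riemannZeta := by
    funext s
    simp [ff]
  have hana : ∀ s : ℂ, 0 < s.im → AnalyticAt ℂ riemannZeta s := by
    intro s hs
    have := ff_analytic 0 T hs
    rwa [hffe] at this
  have hN0 : ∀ x : ℝ, 1 / 2 ≤ x → x ≤ 50 →
      ∫⁻ t in Set.Icc (5 * T / 4 - 1) (5 * T / 2 + 1),
        ENNReal.ofReal (‖riemannZeta (x + t * I)‖ ^ (2 * lam)) ≤ ENNReal.ofReal K₀ := by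
    intro x hx1 hx2
    have h := hoff T hT x hx1 hx2
    rw [hffe] at h
    have he : T ^ (-(2 * lam * ((0 : ℕ) : ℝ) * (147 / 1000) * (x - 1 / 2)) : ℝ) = 1 := by
      have : (-(2 * lam * ((0 : ℕ) : ℝ) * (147 / 1000) * (x - 1 / 2)) : ℝ) = 0 := by
        push_cast; ring
      rw [this, Real.rpow_zero]
    rw [he, mul_one] at h
    exact h
  have hN : ∀ x : ℝ, 1 / 2 - 3 / (8 * L) ≤ x → x ≤ 50 →
      ∫⁻ t in Set.Icc (5 * T / 4 - 1) (5 * T / 2 + 1),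
        ENNReal.ofReal (‖riemannZeta (x + t * I)‖ ^ (2 * lam)) ≤ ENNReal.ofReal K := by
    intro x hx1 hx2
    rcases le_or_gt (1 / 2) x with hx | hx
    · exact (hN0 x hx hx2).trans (ENNReal.ofReal_le_ofReal hKK)
    have h3L : 3 / (8 * L) ≤ 1 / 2 := by
      rw [div_le_iff₀ (by positivity)]
      linarith
    have hx0 : 0 ≤ x := by linarith
    have hpt : ∀ t ∈ Set.Icc (5 * T / 4 - 1) (5 * T / 2 + 1),
        ENNReal.ofReal (‖riemannZeta (x + t * I)‖ ^ (2 * lam)) ≤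
          ENNReal.ofReal ((C₃ * Real.exp 2) ^ (2 * lam)) *
            ENNReal.ofReal (‖riemannZeta (((1 - x : ℝ) : ℂ) + t * I)‖ ^ (2 * lam)) := by
      intro t ht
      have ht1 : 1 ≤ t := by linarith [ht.1]
      have ht3 : t ≤ 3 * T := by linarith [ht.2]
      have h5 := hzl x t hx0 hx.le ht1
      have h6 : t ^ (1 / 2 - x) ≤ Real.exp 2 := by
        calc t ^ (1 / 2 - x) ≤ (3 * T) ^ (1 / 2 - x) :=
              Real.rpow_le_rpow (by linarith) ht3 (by linarith)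
          _ ≤ (3 * T) ^ (3 / (8 * L)) :=
              Real.rpow_le_rpow_of_exponent_le (by linarith) (by linarith)
          _ = Real.exp (Real.log (3 * T) * (3 / (8 * L))) := by
              rw [Real.rpow_def_of_pos (by positivity)]
          _ ≤ Real.exp 2 := by
              apply Real.exp_le_exp.2
              rw [Real.log_mul (by norm_num) (by positivity)]
              have h7 : Real.log 3 ≤ 2 := by
                have := Real.log_le_sub_one_of_pos (show (0 : ℝ) < 3 by norm_num)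
                linarith
              rw [← mul_div_assoc, div_le_iff₀ (by positivity)]
              have : Real.log T = L := hLdef.symm
              rw [this]
              nlinarith
      rw [← ENNReal.ofReal_mul (by positivity)]
      apply ENNReal.ofReal_le_ofReal
      rw [← Real.mul_rpow (by positivity) (norm_nonneg _)]
      apply Real.rpow_le_rpow (norm_nonneg _) _ (by linarith)
      refine h5.trans ?_
      gcongr
    calc ∫⁻ t in Set.Icc (5 * T / 4 - 1) (5 * T / 2 + 1),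
          ENNReal.ofReal (‖riemannZeta (x + t * I)‖ ^ (2 * lam))
        ≤ ∫⁻ t in Set.Icc (5 * T / 4 - 1) (5 * T / 2 + 1),
            ENNReal.ofReal ((C₃ * Real.exp 2) ^ (2 * lam)) *
            ENNReal.ofReal (‖riemannZeta (((1 - x : ℝ) : ℂ) + t * I)‖ ^ (2 * lam)) :=
          setLIntegral_mono' measurableSet_Icc hpt
      _ = ENNReal.ofReal ((C₃ * Real.exp 2) ^ (2 * lam)) *
            ∫⁻ t in Set.Icc (5 * T / 4 - 1) (5 * T / 2 + 1),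
            ENNReal.ofReal (‖riemannZeta (((1 - x : ℝ) : ℂ) + t * I)‖ ^ (2 * lam)) :=
          lintegral_const_mul' _ _ ENNReal.ofReal_ne_top
      _ ≤ ENNReal.ofReal ((C₃ * Real.exp 2) ^ (2 * lam)) * ENNReal.ofReal K₀ :=
          mul_le_mul' le_rfl (hN0 (1 - x) (by linarith) (by linarith))
      _ = ENNReal.ofReal K := by rw [← ENNReal.ofReal_mul (by positivity)]
  -- the rows
  set δ := 1 / (8 * L) with hδ
  have hδ0 : 0 < δ := by positivity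
  have hδ8 : δ ≤ 1 / 8 := by
    rw [hδ]
    apply one_div_le_one_div_of_le (by norm_num)
    linarith
  let ii : ℂ → ℕ := fun ρ => ⌊(ρ.re - 1 / 2) / δ⌋₊
  have hii : ∀ ρ ∈ Z, ii ρ ∈ range 9 := by
    intro ρ hρ
    obtain ⟨-, h2, h3, -, -⟩ := hZ ρ hρ
    rw [Finset.mem_range]
    apply (Nat.floor_lt' (by norm_num)).2
    rw [div_lt_iff₀ hδ0]
    have : 1 / L = 8 * δ := by rw [hδ]; field_simp
    push_cast
    linarith
  have hiirow : ∀ ρ ∈ Z, 1 / 2 + ii ρ * δ ≤ ρ.re ∧ ρ.re ≤ 1 / 2 + ii ρ * δ + δ := by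
    intro ρ hρ
    obtain ⟨-, h2, h3, -, -⟩ := hZ ρ hρ
    have hx0 : 0 ≤ (ρ.re - 1 / 2) / δ := by
      apply div_nonneg _ hδ0.le
      linarith
    have h4 : (ii ρ : ℝ) ≤ (ρ.re - 1 / 2) / δ := Nat.floor_le hx0
    have h5 : (ρ.re - 1 / 2) / δ < (ii ρ : ℝ) + 1 := Nat.lt_floor_add_one _
    rw [le_div_iff₀ hδ0] at h4
    rw [div_lt_iff₀ hδ0] at h5
    constructor
    · linarith
    · nlinarith
  have hrowb : ∀ k ∈ range 9,
      ∑ ρ ∈ Z with ii ρ = k, ‖deriv riemannZeta ρ‖ ^ (2 * lam) ≤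
        C₂ * (8 * L) ^ (2 * lam + 1) * K := by
    intro k hk
    have hk8 : (k : ℝ) ≤ 8 := by
      have : k ≤ 8 := by
        have := Finset.mem_range.1 hk
        omega
      exact_mod_cast this
    have hk0 : (0 : ℝ) ≤ k := Nat.cast_nonneg k
    have h := hrow riemannZeta (1 / 2 + k * δ) δ (5 * T / 4) (5 * T / 2) K
      (Z.filter (fun ρ => ii ρ = k)) hδ0 (by linarith) hK0 hana ?_ ?_
    · refine h.trans (le_of_eq ?_)
      have h9 : δ ^ (-(2 * lam + 1)) = (8 * L) ^ (2 * lam + 1) := by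
        rw [hδ, one_div, Real.rpow_neg (by positivity), Real.inv_rpow (by positivity), inv_inv]
      rw [h9]
    · intro ρ hρ
      obtain ⟨hρZ, hρk⟩ := Finset.mem_filter.1 hρ
      obtain ⟨h2, -, -, h3, h4⟩ := hZ ρ hρZ
      obtain ⟨h5, h6⟩ := hiirow ρ hρZ
      rw [hρk] at h5 h6
      exact ⟨h2, h5, h6, h3, h4⟩
    · intro x hx1 hx2
      refine le_trans ?_ (hN x ?_ ?_)
      · apply lintegral_mono_set
        apply Set.Icc_subset_Icc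
        · linarith
        · linarith
      · have : 3 / (8 * L) = 3 * δ := by rw [hδ]; ring
        rw [this]
        nlinarith
      · nlinarith
  calc ∑ ρ ∈ Z, ‖deriv riemannZeta ρ‖ ^ (2 * lam)
      = ∑ k ∈ range 9, ∑ ρ ∈ Z with ii ρ = k,
          ‖deriv riemannZeta ρ‖ ^ (2 * lam) := (Finset.sum_fiberwise_of_maps_to hii _).symm
    _ ≤ ∑ k ∈ range 9, C₂ * (8 * L) ^ (2 * lam + 1) * K := Finset.sum_le_sum hrowb
    _ = 9 * (C₂ * 8 ^ (2 * lam + 1) * ((C₃ * Real.exp 2) ^ (2 * lam) * C₁)) *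
          (T * L ^ ((lam + 1) ^ 2)) := by
        have h5 : L ^ ((lam + 1) ^ 2) = L ^ (2 * lam + 1) * L ^ (lam ^ 2) := by
          rw [← Real.rpow_add hL0]
          congr 1
          ring
        rw [h5, hK, hK₀, Real.mul_rpow (by norm_num) hL0.le]
        simp only [Finset.sum_const, Finset.card_range, nsmul_eq_mul]
        push_cast
        ring

end Pool.Agent.UH
end

section

/-! TASK Z2. Zeros to the right at distance more than `1/L`, without the factor `T^{q(β-1/2)}`: dyadic rows. `L = log T`, `q = 2 lam`. For a zero `ρ` with `1/L < Re ρ - 1/2 < 1/2` let `j ≥ 0` be the integer with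
`2^j/L ≤ Re ρ - 1/2 < 2^{j+1}/L` (`j = ⌊logb 2 (L (Re ρ - 1/2))⌋₊`), `δ_j = 2^j/(8L)` (so `8 δ_j ≤ 1/2`), and `i ∈ {0,...,7}` with `σ0 = 1/2 + (8+i) δ_j ≤ Re ρ ≤ σ0 + δ_j`. `row` with `f = ff 0 T = ζ`, `A = 5T/4`, `B = 5T/2`, `4δ_j ≤ 1`; the strip `[σ0 - 3δ_j, σ0+4δ_j]` is in
`[1/2, 50]`, so `offline` with `a = 0` applies: the row contributes at most `C δ_j^{-q-2} 7 δ_j C' T L^{lam²} = C'' (8L)^{q+1} 2^{-j(q+1)} T L^{lam²}`. Sum over `i` (8 values) and over `j` (geometric series with ratio `2^{-(q+1)} ≤ 1/2`): `≤ 16 C'' (8L)^{q+1} T L^{lam²} = C''' T L^{(lam+1)²}`. -/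

set_option autoImplicit false

namespace Pool.Agent.UH

open Complex MeasureTheory Finset Pool.Agent.GH
open scoped Real ComplexConjugate

/-- real form of `row`, for a function whose vertical integrals are bounded by `K` -/
private theorem Z2_rowR {q : ℝ} (hq : 0 < q) : ∃ C : ℝ, 1 ≤ C ∧
    ∀ (f : ℂ → ℂ) (σ0 δ A B K : ℝ) (Z : Finset ℂ),
    0 < δ → 8 * δ ≤ A → 0 ≤ K → (∀ s : ℂ, 0 < s.im → AnalyticAt ℂ f s) →
    (∀ ρ ∈ Z, f ρ = 0 ∧ σ0 ≤ ρ.re ∧ ρ.re ≤ σ0 + δ ∧ A ≤ ρ.im ∧ ρ.im ≤ B) →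
    (∀ x : ℝ, σ0 - 3 * δ ≤ x → x ≤ σ0 + 4 * δ → ∫⁻ y in Set.Icc (A - 4 * δ) (B + 4 * δ),
        ENNReal.ofReal (‖f (x + y * I)‖ ^ q) ≤ ENNReal.ofReal K) →
    ∑ ρ ∈ Z, ‖deriv f ρ‖ ^ q ≤ C * δ ^ (-(q + 1)) * K := by
  obtain ⟨C, hC1, hC⟩ := row hq
  refine ⟨7 * C, by linarith, ?_⟩
  intro f σ0 δ A B K Z hδ hA hK hf hZ hN
  have h1 := hC f σ0 δ A B Z hδ hA hf hZ
  have h2 : ∫⁻ x in Set.Icc (σ0 - 3 * δ) (σ0 + 4 * δ), ∫⁻ y in Set.Icc (A - 4 * δ) (B + 4 * δ),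
        ENNReal.ofReal (‖f (x + y * I)‖ ^ q) ≤ ENNReal.ofReal (K * (7 * δ)) := by
    calc ∫⁻ x in Set.Icc (σ0 - 3 * δ) (σ0 + 4 * δ), ∫⁻ y in Set.Icc (A - 4 * δ) (B + 4 * δ),
          ENNReal.ofReal (‖f (x + y * I)‖ ^ q)
        ≤ ∫⁻ x in Set.Icc (σ0 - 3 * δ) (σ0 + 4 * δ), ENNReal.ofReal K := by
          refine setLIntegral_mono' measurableSet_Icc ?_
          intro x hx
          exact hN x hx.1 hx.2
      _ = ENNReal.ofReal (K * (7 * δ)) := by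
          rw [setLIntegral_const, Real.volume_Icc, ← ENNReal.ofReal_mul hK]
          congr 2
          ring
  have h3 : ENNReal.ofReal (∑ ρ ∈ Z, ‖deriv f ρ‖ ^ q) ≤
      ENNReal.ofReal ((C * δ ^ (-q - 2)) * (K * (7 * δ))) := by
    rw [ENNReal.ofReal_sum_of_nonneg (fun ρ _ => by positivity),
      ENNReal.ofReal_mul (by positivity)]
    exact h1.trans (mul_le_mul' le_rfl h2)
  have h4 : (0 : ℝ) ≤ (C * δ ^ (-q - 2)) * (K * (7 * δ)) := by positivity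
  have h5 := (ENNReal.ofReal_le_ofReal_iff h4).1 h3
  refine h5.trans (le_of_eq ?_)
  have h6 : δ ^ (-(q + 1)) = δ ^ (-q - 2) * δ := by
    have : δ ^ (-q - 2) * δ = δ ^ (-q - 2) * δ ^ (1 : ℝ) := by rw [Real.rpow_one]
    rw [this, ← Real.rpow_add hδ]
    congr 1
    ring
  rw [h6]
  ring

private theorem Z2_key (j : ℕ) {y : ℝ} (hy : 1 ≤ y) (hj : j = ⌊Real.logb 2 y⌋₊) :
    (2 : ℝ) ^ j ≤ y ∧ y < 2 ^ (j + 1) := by
  have hy0 : 0 < y := by linarith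
  have h0 : 0 ≤ Real.logb 2 y := Real.logb_nonneg (by norm_num) hy
  have h1 : (j : ℝ) ≤ Real.logb 2 y := by rw [hj]; exact Nat.floor_le h0
  have h2 : Real.logb 2 y < (j : ℝ) + 1 := by rw [hj]; exact Nat.lt_floor_add_one _
  constructor
  · have := (Real.le_logb_iff_rpow_le (by norm_num) hy0).1 h1
    rwa [Real.rpow_natCast] at this
  · have h3 : Real.logb 2 y < ((j + 1 : ℕ) : ℝ) := by push_cast; exact h2
    have := (Real.logb_lt_iff_lt_rpow (by norm_num) hy0).1 h3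
    rwa [Real.rpow_natCast] at this

theorem far_right (lam : ℝ) (h0 : 0 < lam) (h1 : lam ≤ 1) : ∃ C T0 : ℝ, 1 ≤ C ∧ Real.exp 1 ≤ T0 ∧
    ∀ (T : ℝ) (Z : Finset ℂ), T0 ≤ T →
    (∀ ρ ∈ Z, riemannZeta ρ = 0 ∧ 1 / 2 + 1 / Real.log T < ρ.re ∧ ρ.re < 1 ∧
      5 * T / 4 ≤ ρ.im ∧ ρ.im ≤ 5 * T / 2) →
    ∑ ρ ∈ Z, ‖deriv riemannZeta ρ‖ ^ (2 * lam) ≤ C * (T * Real.log T ^ ((lam + 1) ^ 2)) := by
  classical
  obtain ⟨C₁, T₁, hC₁, hT₁, hoff⟩ := offline lam 0 h0 (by push_cast; linarith)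
  obtain ⟨C₂, hC₂, hrow⟩ := Z2_rowR (q := 2 * lam) (by linarith)
  refine ⟨16 * (C₂ * 8 ^ (2 * lam + 1) * C₁), T₁, ?_, hT₁, ?_⟩
  · have h8 : (1 : ℝ) ≤ 8 ^ (2 * lam + 1) := Real.one_le_rpow (by norm_num) (by linarith)
    have : (1 : ℝ) ≤ C₂ * 8 ^ (2 * lam + 1) * C₁ := by
      have h9 : (1 : ℝ) ≤ C₂ * 8 ^ (2 * lam + 1) := by nlinarith
      nlinarith
    linarith
  intro T Z hT hZ
  have hTe : Real.exp 1 ≤ T := hT₁.trans hT
  have hT0 : 0 < T := (Real.exp_pos 1).trans_le hTe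
  have hT1 : 1 ≤ T := by
    have := Real.add_one_le_exp (1 : ℝ)
    linarith
  set L := Real.log T with hLdef
  have hL1 : 1 ≤ L := by
    rw [hLdef, Real.le_log_iff_exp_le hT0]
    exact hTe
  have hL0 : 0 < L := by linarith
  set K := C₁ * (T * L ^ (lam ^ 2)) with hK
  have hK0 : 0 ≤ K := by positivity
  have hffe : ff 0 T = riemannZeta := by
    funext s
    simp [ff]
  have hana : ∀ s : ℂ, 0 < s.im → AnalyticAt ℂ riemannZeta s := by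
    intro s hs
    have := ff_analytic 0 T hs
    rwa [hffe] at this
  have hN : ∀ x : ℝ, 1 / 2 ≤ x → x ≤ 50 →
      ∫⁻ t in Set.Icc (5 * T / 4 - 1) (5 * T / 2 + 1),
        ENNReal.ofReal (‖riemannZeta (x + t * I)‖ ^ (2 * lam)) ≤ ENNReal.ofReal K := by
    intro x hx1 hx2
    have h := hoff T hT x hx1 hx2
    rw [hffe] at h
    have he : T ^ (-(2 * lam * ((0 : ℕ) : ℝ) * (147 / 1000) * (x - 1 / 2)) : ℝ) = 1 := by
      have : (-(2 * lam * ((0 : ℕ) : ℝ) * (147 / 1000) * (x - 1 / 2)) : ℝ) = 0 := by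
        push_cast; ring
      rw [this, Real.rpow_zero]
    rw [he, mul_one] at h
    exact h
  -- the row indices
  let jj : ℂ → ℕ := fun ρ => ⌊Real.logb 2 (L * (ρ.re - 1 / 2))⌋₊
  let dd : ℕ → ℝ := fun j => 2 ^ j / (8 * L)
  let ii : ℂ → ℕ := fun ρ => ⌊(ρ.re - 1 / 2) / dd (jj ρ)⌋₊
  have hdd0 : ∀ j, 0 < dd j := fun j => by
    show (0 : ℝ) < 2 ^ j / (8 * L)
    positivity
  have hkey : ∀ ρ ∈ Z, 8 * dd (jj ρ) ≤ ρ.re - 1 / 2 ∧ ρ.re - 1 / 2 < 16 * dd (jj ρ) := by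
    intro ρ hρ
    obtain ⟨-, h2, -, -, -⟩ := hZ ρ hρ
    have h3 : 1 ≤ L * (ρ.re - 1 / 2) := by
      have : 1 / L < ρ.re - 1 / 2 := by linarith
      rw [div_lt_iff₀ hL0] at this
      linarith
    obtain ⟨h4, h5⟩ := Z2_key (jj ρ) h3 rfl
    constructor
    · have : 8 * dd (jj ρ) = 2 ^ (jj ρ) / L := by
        show 8 * (2 ^ (jj ρ) / (8 * L)) = 2 ^ (jj ρ) / L
        field_simp
      rw [this, div_le_iff₀ hL0]
      linarith
    · have : 16 * dd (jj ρ) = 2 ^ (jj ρ + 1) / L := by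
        show 16 * (2 ^ (jj ρ) / (8 * L)) = 2 ^ (jj ρ + 1) / L
        rw [pow_succ]
        field_simp
        ring
      rw [this, lt_div_iff₀ hL0]
      linarith
  have hii : ∀ ρ ∈ Z, ii ρ ∈ Finset.Icc 8 15 := by
    intro ρ hρ
    obtain ⟨h2, h3⟩ := hkey ρ hρ
    rw [Finset.mem_Icc]
    constructor
    · apply Nat.le_floor
      rw [le_div_iff₀ (hdd0 _)]
      push_cast
      exact h2
    · have : ii ρ < 16 := by
        apply (Nat.floor_lt' (by norm_num)).2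
        rw [div_lt_iff₀ (hdd0 _)]
        push_cast
        exact h3
      omega
  have hiirow : ∀ ρ ∈ Z, 1 / 2 + ii ρ * dd (jj ρ) ≤ ρ.re ∧
      ρ.re ≤ 1 / 2 + ii ρ * dd (jj ρ) + dd (jj ρ) := by
    intro ρ hρ
    obtain ⟨h2, h3⟩ := hkey ρ hρ
    have hx0 : 0 ≤ (ρ.re - 1 / 2) / dd (jj ρ) := by
      apply div_nonneg _ (hdd0 _).le
      have := hdd0 (jj ρ)
      linarith
    have h4 : (ii ρ : ℝ) ≤ (ρ.re - 1 / 2) / dd (jj ρ) := Nat.floor_le hx0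
    have h5 : (ρ.re - 1 / 2) / dd (jj ρ) < (ii ρ : ℝ) + 1 := Nat.lt_floor_add_one _
    rw [le_div_iff₀ (hdd0 _)] at h4
    rw [div_lt_iff₀ (hdd0 _)] at h5
    constructor
    · linarith
    · nlinarith
  set n := (Z.sup jj) + 1 with hn
  let key : ℂ → ℕ × ℕ := fun ρ => (jj ρ, ii ρ)
  have hmaps : ∀ ρ ∈ Z, key ρ ∈ (range n) ×ˢ (Finset.Icc 8 15) := by
    intro ρ hρ
    rw [Finset.mem_product]
    refine ⟨?_, hii ρ hρ⟩
    rw [Finset.mem_range, hn]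
    exact Nat.lt_succ_of_le (Finset.le_sup (f := jj) hρ)
  have hrowb : ∀ k ∈ (range n) ×ˢ (Finset.Icc 8 15),
      ∑ ρ ∈ Z with key ρ = k, ‖deriv riemannZeta ρ‖ ^ (2 * lam) ≤
        (C₂ * (8 * L) ^ (2 * lam + 1) * K) * (1 / 2) ^ k.1 := by
    intro k hk
    rcases Finset.eq_empty_or_nonempty (Z.filter (fun ρ => key ρ = k)) with hem | ⟨ρ₀, hρ₀⟩
    · rw [hem, Finset.sum_empty]
      positivity
    obtain ⟨hρ₀Z, hρ₀k⟩ := Finset.mem_filter.1 hρ₀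
    have hj₀ : jj ρ₀ = k.1 := by rw [← hρ₀k]
    have hi₀ : ii ρ₀ = k.2 := by rw [← hρ₀k]
    have hd16 : dd k.1 ≤ 1 / 16 := by
      have h2 := (hkey ρ₀ hρ₀Z).1
      have h3 := (hZ ρ₀ hρ₀Z).2.2.1
      rw [hj₀] at h2
      linarith
    have hi8 : 8 ≤ k.2 ∧ k.2 ≤ 15 := by
      have := hii ρ₀ hρ₀Z
      rw [hi₀, Finset.mem_Icc] at this
      exact this
    have hi8' : (8 : ℝ) ≤ k.2 := by exact_mod_cast hi8.1
    have hi15' : (k.2 : ℝ) ≤ 15 := by exact_mod_cast hi8.2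
    have hd0 := hdd0 k.1
    have h := hrow riemannZeta (1 / 2 + k.2 * dd k.1) (dd k.1) (5 * T / 4) (5 * T / 2) K
      (Z.filter (fun ρ => key ρ = k)) hd0 (by linarith) hK0 hana ?_ ?_
    · refine h.trans ?_
      have h8 : dd k.1 ^ (-(2 * lam + 1)) ≤ (8 * L) ^ (2 * lam + 1) * (1 / 2) ^ k.1 := by
        have h9 : dd k.1 ^ (-(2 * lam + 1)) = (8 * L) ^ (2 * lam + 1) *
            (((2 : ℝ) ^ k.1) ^ (2 * lam + 1))⁻¹ := by
          show ((2 : ℝ) ^ k.1 / (8 * L)) ^ (-(2 * lam + 1)) = _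
          rw [Real.rpow_neg (by positivity), Real.div_rpow (by positivity) (by positivity)]
          rw [inv_div, div_eq_mul_inv]
        rw [h9]
        apply mul_le_mul_of_nonneg_left _ (by positivity)
        rw [one_div, inv_pow]
        apply inv_anti₀ (by positivity)
        have h10 : (1 : ℝ) ≤ (2 : ℝ) ^ k.1 := one_le_pow₀ (by norm_num)
        calc (2 : ℝ) ^ k.1 = ((2 : ℝ) ^ k.1) ^ (1 : ℝ) := (Real.rpow_one _).symm
          _ ≤ ((2 : ℝ) ^ k.1) ^ (2 * lam + 1) :=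
            Real.rpow_le_rpow_of_exponent_le h10 (by linarith)
      calc C₂ * dd k.1 ^ (-(2 * lam + 1)) * K
          ≤ C₂ * ((8 * L) ^ (2 * lam + 1) * (1 / 2) ^ k.1) * K := by gcongr
        _ = (C₂ * (8 * L) ^ (2 * lam + 1) * K) * (1 / 2) ^ k.1 := by ring
    · intro ρ hρ
      obtain ⟨hρZ, hρk⟩ := Finset.mem_filter.1 hρ
      have hj : jj ρ = k.1 := by rw [← hρk]
      have hi : ii ρ = k.2 := by rw [← hρk]
      obtain ⟨h2, -, -, h3, h4⟩ := hZ ρ hρZ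
      obtain ⟨h5, h6⟩ := hiirow ρ hρZ
      rw [hj, hi] at h5 h6
      exact ⟨h2, h5, h6, h3, h4⟩
    · intro x hx1 hx2
      refine le_trans ?_ (hN x ?_ ?_)
      · apply lintegral_mono_set
        apply Set.Icc_subset_Icc
        · linarith
        · linarith
      · nlinarith
      · nlinarith
  calc ∑ ρ ∈ Z, ‖deriv riemannZeta ρ‖ ^ (2 * lam)
      = ∑ k ∈ (range n) ×ˢ (Finset.Icc 8 15), ∑ ρ ∈ Z with key ρ = k,
          ‖deriv riemannZeta ρ‖ ^ (2 * lam) := (Finset.sum_fiberwise_of_maps_to hmaps _).symm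
    _ ≤ ∑ k ∈ (range n) ×ˢ (Finset.Icc 8 15),
          (C₂ * (8 * L) ^ (2 * lam + 1) * K) * (1 / 2) ^ k.1 := Finset.sum_le_sum hrowb
    _ = 8 * (C₂ * (8 * L) ^ (2 * lam + 1) * K) * ∑ j ∈ range n, (1 / 2 : ℝ) ^ j := by
        rw [Finset.sum_product, Finset.mul_sum]
        apply Finset.sum_congr rfl
        intro j _
        simp only [Finset.sum_const, Nat.card_Icc, nsmul_eq_mul]
        norm_num
        ring
    _ ≤ 8 * (C₂ * (8 * L) ^ (2 * lam + 1) * K) * 2 := by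
        have : ∑ j ∈ range n, (1 / 2 : ℝ) ^ j ≤ 2 := by
          have h := geom_sum_eq (show (1 / 2 : ℝ) ≠ 1 by norm_num) n
          rw [h]
          have : (0 : ℝ) ≤ (1 / 2) ^ n := by positivity
          rw [div_le_iff_of_neg (by norm_num)]
          linarith
        gcongr
    _ = 16 * (C₂ * 8 ^ (2 * lam + 1) * C₁) * (T * L ^ ((lam + 1) ^ 2)) := by
        have h5 : L ^ ((lam + 1) ^ 2) = L ^ (2 * lam + 1) * L ^ (lam ^ 2) := by
          rw [← Real.rpow_add hL0]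
          congr 1
          ring
        rw [h5, hK, Real.mul_rpow (by norm_num) hL0.le]
        ring

end Pool.Agent.UH
end
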