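import Pool.Agent.Lib.MP_69b2e4_nt.Mg.G016
import Pool.Agent.Lib.MP_69b2e4_nt.UV.Defs

section

/-! TASK C3. Zeros in a row (a vertical strip of width `δ`). Template: UH/C3.lean. For an integer `k` let `Z_k = {ρ ∈ Z : ⌊ρ.im/δ⌋ = k}`, `c_k = σ0 + δ/2 + i(k+1/2)δ`; for `ρ ∈ Z_k` both coordinates of `ρ - c_k` are at most `δ/2`, so `‖ρ - c_k‖ ≤ δ`. `cluster4` with `r = δ`: the square of half side `2δ` around `c_k` is contained in
`[σ0 - 2δ, σ0 + 3δ] × [(k-3/2)δ, (k+5/2)δ]`, the square of half side `6δ` in the half plane `Im > 0` (`(k+1)δ > ρ.im ≥ A1 ≥ 8δ` if `Z_k` is nonempty, so `(k+1/2)δ - 6δ > 0`). Sum over the finitely many `k` with `Z_k ≠ ∅`: `∑_k ∫_{I_k} h ≤ 5 ∫_{[A1-3δ,B1+3δ]} h` with `I_k = [(k-3/2)δ, (k+5/2)δ] ⊆ [A1-3δ, B1+3δ]`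
(every `y` lies in at most 5 of the `I_k`). The finite sum over `k` has to be moved inside the integrals over `a, b, x`: everything is continuous on the relevant sets (as in UH/C3; or bound `∫⁻_y over I_k` by `∫⁻_y indicator`, and use `lintegral_finsetSum'`/`le_lintegral_add`-type superadditivity:
`∑_k ∫⁻ f_k ≤ ∫⁻ ∑_k f_k` holds for measurable `f_k`; superadditivity `∫⁻ f + ∫⁻ g ≤ ∫⁻ (f + g)` even holds without measurability: `MeasureTheory.le_lintegral_add`, so induction over the finite sum gives `∑ ∫⁻ ≤ ∫⁻ ∑` for ALL functions: this is the direction needed). -/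

set_option autoImplicit false

namespace Pool.Agent.UV

open Complex MeasureTheory Finset
open scoped Real ComplexConjugate

private lemma C3_sum_le {α ι : Type} [MeasurableSpace α] (μ : Measure α) (K : Finset ι)
    (f : ι → α → ENNReal) : ∑ k ∈ K, ∫⁻ x, f k x ∂μ ≤ ∫⁻ x, ∑ k ∈ K, f k x ∂μ := by
  classical
  induction K using Finset.induction_on with
  | empty => simp
  | insert k K hk ih =>
    rw [Finset.sum_insert hk]
    have h1 : ∫⁻ x, ∑ k' ∈ insert k K, f k' x ∂μ = ∫⁻ x, (f k x + ∑ k' ∈ K, f k' x) ∂μ :=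
      lintegral_congr fun x => by rw [Finset.sum_insert hk]
    rw [h1]
    exact (add_le_add_right ih _).trans (le_lintegral_add _ _)

private lemma C3_lift {α ι : Type} [MeasurableSpace α] (μ : Measure α) (K : Finset ι)
    (f : ι → α → ENNReal) (g : α → ENNReal) (h : ∀ x, ∑ k ∈ K, f k x ≤ 5 * g x) :
    ∑ k ∈ K, ∫⁻ x, f k x ∂μ ≤ 5 * ∫⁻ x, g x ∂μ := by
  rw [← lintegral_const_mul' _ _ (by norm_num)]
  exact (C3_sum_le μ K f).trans (lintegral_mono h)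

private lemma C3_card5 (K : Finset ℤ) (δ y : ℝ) (hδ : 0 < δ) :
    (K.filter (fun k : ℤ => y ∈ Set.Icc (((k : ℝ) - 3 / 2) * δ) (((k : ℝ) + 5 / 2) * δ))).card ≤ 5 := by
  have hsub : K.filter (fun k : ℤ => y ∈ Set.Icc (((k : ℝ) - 3 / 2) * δ) (((k : ℝ) + 5 / 2) * δ)) ⊆
      Finset.Icc ⌈y / δ - 5 / 2⌉ ⌊y / δ + 3 / 2⌋ := by
    intro k hk
    rw [Finset.mem_filter, Set.mem_Icc] at hk
    obtain ⟨-, h1, h2⟩ := hk
    rw [Finset.mem_Icc, Int.ceil_le, Int.le_floor]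
    constructor
    · have : y / δ ≤ (k : ℝ) + 5 / 2 := by rw [div_le_iff₀ hδ]; exact h2
      linarith
    · have : (k : ℝ) - 3 / 2 ≤ y / δ := by rw [le_div_iff₀ hδ]; exact h1
      linarith
  have h1 := Finset.card_le_card hsub
  rw [Int.card_Icc] at h1
  have h2 : (⌊y / δ + 3 / 2⌋ + 1 - ⌈y / δ - 5 / 2⌉) ≤ 5 := by
    have h3 : ((⌊y / δ + 3 / 2⌋ : ℤ) : ℝ) ≤ y / δ + 3 / 2 := Int.floor_le _
    have h4 : y / δ - 5 / 2 ≤ ((⌈y / δ - 5 / 2⌉ : ℤ) : ℝ) := Int.le_ceil _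
    have h5 : (((⌊y / δ + 3 / 2⌋ + 1 - ⌈y / δ - 5 / 2⌉) : ℤ) : ℝ) ≤ ((5 : ℤ) : ℝ) := by
      push_cast
      linarith
    exact_mod_cast h5
  have h3 : (⌊y / δ + 3 / 2⌋ + 1 - ⌈y / δ - 5 / 2⌉).toNat ≤ 5 := by omega
  exact h1.trans h3

private lemma C3_key (g : ℝ → ENNReal) (δ A B : ℝ) (hδ : 0 < δ) (K : Finset ℤ)
    (hK : ∀ k ∈ K, A ≤ ((k : ℝ) + 1) * δ ∧ (k : ℝ) * δ ≤ B) :
    ∑ k ∈ K, ∫⁻ y in Set.Icc (((k : ℝ) - 3 / 2) * δ) (((k : ℝ) + 5 / 2) * δ), g y ≤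
      5 * ∫⁻ y in Set.Icc (A - 3 * δ) (B + 3 * δ), g y := by
  have h1 : ∀ k : ℤ, ∫⁻ y in Set.Icc (((k : ℝ) - 3 / 2) * δ) (((k : ℝ) + 5 / 2) * δ), g y =
      ∫⁻ y, (Set.Icc (((k : ℝ) - 3 / 2) * δ) (((k : ℝ) + 5 / 2) * δ)).indicator g y := fun k => by
    rw [lintegral_indicator measurableSet_Icc]
  have h2 : ∫⁻ y in Set.Icc (A - 3 * δ) (B + 3 * δ), g y =
      ∫⁻ y, (Set.Icc (A - 3 * δ) (B + 3 * δ)).indicator g y := by
    rw [lintegral_indicator measurableSet_Icc]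
  rw [Finset.sum_congr rfl fun k _ => h1 k, h2]
  refine C3_lift volume K _ _ fun y => ?_
  have h3 : ∑ k ∈ K, (Set.Icc (((k : ℝ) - 3 / 2) * δ) (((k : ℝ) + 5 / 2) * δ)).indicator g y =
      ((K.filter (fun k : ℤ => y ∈ Set.Icc (((k : ℝ) - 3 / 2) * δ) (((k : ℝ) + 5 / 2) * δ))).card : ENNReal)
        * g y := by
    rw [← nsmul_eq_mul, ← Finset.sum_const, Finset.sum_filter]
    refine Finset.sum_congr rfl fun k _ => ?_
    rw [Set.indicator_apply]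
  rw [h3]
  by_cases hy : y ∈ Set.Icc (A - 3 * δ) (B + 3 * δ)
  · rw [Set.indicator_of_mem hy]
    have h6 : ((K.filter (fun k : ℤ => y ∈ Set.Icc (((k : ℝ) - 3 / 2) * δ) (((k : ℝ) + 5 / 2) * δ))).card
        : ENNReal) ≤ ((5 : ℕ) : ENNReal) := Nat.cast_le.2 (C3_card5 K δ y hδ)
    have h7 : ((5 : ℕ) : ENNReal) = 5 := by norm_num
    rw [h7] at h6
    gcongr
  · have h4 : K.filter (fun k : ℤ => y ∈ Set.Icc (((k : ℝ) - 3 / 2) * δ) (((k : ℝ) + 5 / 2) * δ)) = ∅ := by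
      rw [Finset.filter_eq_empty_iff]
      intro k hk hky
      apply hy
      obtain ⟨h5, h6⟩ := hK k hk
      rw [Set.mem_Icc] at hky ⊢
      constructor
      · have := hky.1
        nlinarith
      · have := hky.2
        nlinarith
    rw [h4]
    simp

theorem row4 {q r' : ℝ} (hq : 0 < q) (hr' : 0 < r') (n : ℕ) : ∃ C : ℝ, 1 ≤ C ∧
    ∀ (f : ℂ → ℂ) (P A : ℕ → ℂ → ℂ) (B : ℂ → ℂ) (σ0 δ A1 B1 : ℝ) (Z : Finset ℂ), 0 < δ → 8 * δ ≤ A1 →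
    (∀ z : ℂ, 0 < z.im → AnalyticAt ℂ f z ∧
      (∀ i < n, AnalyticAt ℂ (P i) z ∧ AnalyticAt ℂ (A i) z) ∧ AnalyticAt ℂ B z ∧
      f z = ∑ i ∈ range n, P i z) →
    (∀ ρ ∈ Z, f ρ = 0 ∧ (∀ i < n, ‖A i ρ‖ = 1) ∧ ‖B ρ‖ = 1 ∧ σ0 ≤ ρ.re ∧ ρ.re ≤ σ0 + δ ∧
      A1 ≤ ρ.im ∧ ρ.im ≤ B1) →
    ∑ ρ ∈ Z, ENNReal.ofReal (‖deriv f ρ‖ ^ q) ≤ ENNReal.ofReal (C * δ ^ (-q - 4)) *
      ∑ i ∈ range n, ∫⁻ a in Set.Icc (-(4 * δ)) (4 * δ), ∫⁻ b in Set.Icc (-(4 * δ)) (4 * δ),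
        ∫⁻ x in Set.Icc (σ0 - 2 * δ) (σ0 + 3 * δ), ∫⁻ y in Set.Icc (A1 - 3 * δ) (B1 + 3 * δ),
        ENNReal.ofReal (‖P i (x + y * I + (a + b * I))‖ ^ q * ‖A i (x + y * I)‖ ^ q *
          ‖B (x + y * I)‖ ^ r') := by
  obtain ⟨C, hC1, hC⟩ := cluster4 hq hr' n
  refine ⟨5 * C, by linarith, ?_⟩
  intro f P A B σ0 δ A1 B1 Z hδ hA hf hZ
  classical
  -- the integrand
  set G : ℕ → ℝ → ℝ → ℝ → ℝ → ENNReal := fun i a b x y =>
    ENNReal.ofReal (‖P i (x + y * I + (a + b * I))‖ ^ q * ‖A i (x + y * I)‖ ^ q *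
      ‖B (x + y * I)‖ ^ r') with hG
  -- the fibres
  set K : Finset ℤ := Z.image (fun ρ => ⌊ρ.im / δ⌋) with hKdef
  have hfl : ∀ ρ : ℂ, ((⌊ρ.im / δ⌋ : ℤ) : ℝ) * δ ≤ ρ.im ∧ ρ.im < (((⌊ρ.im / δ⌋ : ℤ) : ℝ) + 1) * δ := by
    intro ρ
    constructor
    · have := Int.floor_le (ρ.im / δ)
      rwa [le_div_iff₀ hδ] at this
    · have := Int.lt_floor_add_one (ρ.im / δ)
      rwa [div_lt_iff₀ hδ] at this
  have hK : ∀ k ∈ K, A1 ≤ ((k : ℝ) + 1) * δ ∧ (k : ℝ) * δ ≤ B1 := by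
    intro k hk
    rw [hKdef, Finset.mem_image] at hk
    obtain ⟨ρ, hρ, rfl⟩ := hk
    obtain ⟨-, -, -, -, -, h4, h5⟩ := hZ ρ hρ
    obtain ⟨h6, h7⟩ := hfl ρ
    exact ⟨by linarith, by linarith⟩
  have hsum : ∑ ρ ∈ Z, ENNReal.ofReal (‖deriv f ρ‖ ^ q) =
      ∑ k ∈ K, ∑ ρ ∈ Z.filter (fun ρ => ⌊ρ.im / δ⌋ = k), ENNReal.ofReal (‖deriv f ρ‖ ^ q) := by
    rw [Finset.sum_fiberwise_of_maps_to]
    intro ρ hρ
    exact Finset.mem_image_of_mem _ hρ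
  have hfib : ∀ k ∈ K, ∑ ρ ∈ Z.filter (fun ρ => ⌊ρ.im / δ⌋ = k), ENNReal.ofReal (‖deriv f ρ‖ ^ q) ≤
      ENNReal.ofReal (C * δ ^ (-q - 4)) * ∑ i ∈ range n,
        ∫⁻ a in Set.Icc (-(4 * δ)) (4 * δ), ∫⁻ b in Set.Icc (-(4 * δ)) (4 * δ),
        ∫⁻ x in Set.Icc (σ0 - 2 * δ) (σ0 + 3 * δ),
        ∫⁻ y in Set.Icc (((k : ℝ) - 3 / 2) * δ) (((k : ℝ) + 5 / 2) * δ), G i a b x y := by
    intro k hk
    obtain ⟨hkA, hkB⟩ := hK k hk
    set c : ℂ := ⟨σ0 + δ / 2, ((k : ℝ) + 1 / 2) * δ⟩ with hc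
    have h1 := hC f P A B c δ (Z.filter (fun ρ => ⌊ρ.im / δ⌋ = k)) hδ
      (by
        intro z _ hz
        apply hf
        have h2 := (abs_le.1 hz).1
        simp only [hc] at h2
        nlinarith)
      (by
        intro ρ hρ
        rw [Finset.mem_filter] at hρ
        obtain ⟨h3, h4⟩ := hρ
        obtain ⟨h5, hA1, hB1, h6, h7, h8, h9⟩ := hZ ρ h3
        obtain ⟨h10, h11⟩ := hfl ρ
        rw [h4] at h10 h11
        refine ⟨?_, h5, hA1, hB1⟩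
        have h12 := Complex.norm_le_abs_re_add_abs_im (ρ - c)
        have h13 : |(ρ - c).re| ≤ δ / 2 := by
          rw [Complex.sub_re, abs_le]
          simp only [hc]
          constructor <;> linarith
        have h14 : |(ρ - c).im| ≤ δ / 2 := by
          rw [Complex.sub_im, abs_le]
          simp only [hc]
          constructor <;> nlinarith
        linarith)
    refine h1.trans ?_
    refine mul_le_mul_right (Finset.sum_le_sum fun i _ => ?_) _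
    have e1 : c.im - 2 * δ = ((k : ℝ) - 3 / 2) * δ := by simp only [hc]; ring
    have e2 : c.im + 2 * δ = ((k : ℝ) + 5 / 2) * δ := by simp only [hc]; ring
    rw [e1, e2]
    have e3 : Set.Icc (c.re - 2 * δ) (c.re + 2 * δ) ⊆ Set.Icc (σ0 - 2 * δ) (σ0 + 3 * δ) := by
      apply Set.Icc_subset_Icc
      · simp only [hc]; linarith
      · simp only [hc]; linarith
    refine lintegral_mono fun a => lintegral_mono fun b => ?_
    exact lintegral_mono_set e3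
  rw [hsum]
  refine (Finset.sum_le_sum hfib).trans ?_
  rw [← Finset.mul_sum, Finset.sum_comm]
  have hi : ∀ i ∈ range n, ∑ k ∈ K,
      ∫⁻ a in Set.Icc (-(4 * δ)) (4 * δ), ∫⁻ b in Set.Icc (-(4 * δ)) (4 * δ),
        ∫⁻ x in Set.Icc (σ0 - 2 * δ) (σ0 + 3 * δ),
        ∫⁻ y in Set.Icc (((k : ℝ) - 3 / 2) * δ) (((k : ℝ) + 5 / 2) * δ), G i a b x y ≤
      5 * ∫⁻ a in Set.Icc (-(4 * δ)) (4 * δ), ∫⁻ b in Set.Icc (-(4 * δ)) (4 * δ),
        ∫⁻ x in Set.Icc (σ0 - 2 * δ) (σ0 + 3 * δ),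
        ∫⁻ y in Set.Icc (A1 - 3 * δ) (B1 + 3 * δ), G i a b x y := by
    intro i _
    refine C3_lift _ K _ _ fun a => ?_
    refine C3_lift _ K _ _ fun b => ?_
    refine C3_lift _ K _ _ fun x => ?_
    exact C3_key (G i a b x) δ A1 B1 hδ K hK
  refine (mul_le_mul_right (Finset.sum_le_sum hi) _).trans (le_of_eq ?_)
  have h7 : ENNReal.ofReal (5 * C * δ ^ (-q - 4)) = ENNReal.ofReal (C * δ ^ (-q - 4)) * 5 := by
    rw [mul_assoc, ENNReal.ofReal_mul (by norm_num), mul_comm]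
    norm_num
  rw [h7, mul_assoc, ← Finset.mul_sum]

end Pool.Agent.UV
end

section

/-! TASK KA. `ka N = (N-1)²/((N+1)(N+5/2)) → 1` as `N → ∞`: e.g. `ka N ≥ 1 - 6/N` for `N ≥ 2` (`(N-1)² N ≥ (N-6)(N+1)(N+5/2)`), so any `N ≥ 2` with `6/N < 1 - om` works. -/

set_option autoImplicit false

namespace Pool.Agent.UV

open Complex MeasureTheory Finset Pool.Agent.GH Pool.Agent.UH
open scoped Real ComplexConjugate

theorem ka_large {om : ℝ} (hom : om < 1) : ∃ N : ℕ, 2 ≤ N ∧ om < ka N := by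
  obtain ⟨M, hM⟩ := exists_nat_gt (6 / (1 - om))
  refine ⟨M + 2, by omega, ?_⟩
  have h1 : 0 < 1 - om := by linarith
  have hM0 : (0 : ℝ) ≤ (M : ℝ) := Nat.cast_nonneg _
  have h6 : 6 < (M : ℝ) * (1 - om) := by
    rwa [div_lt_iff₀ h1] at hM
  unfold ka
  push_cast
  set x : ℝ := (M : ℝ) + 2 with hx
  have hx2 : 2 ≤ x := by linarith
  have h7 : 6 < x * (1 - om) := by nlinarith
  rw [lt_div_iff₀ (by positivity)]
  have h8 : om * x < x - 6 := by nlinarith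
  have h9 : (x - 6) * ((x + 1) * (x + 5 / 2)) ≤ (x - 1) ^ 2 * x := by nlinarith
  have h10 : 0 < (x + 1) * (x + 5 / 2) := by positivity
  have h11 : om * x * ((x + 1) * (x + 5 / 2)) < (x - 1) ^ 2 * x :=
    lt_of_lt_of_le (mul_lt_mul_of_pos_right h8 h10) h9
  have h12 : om * ((x + 1) * (x + 5 / 2)) * x < (x - 1) ^ 2 * x := by
    calc om * ((x + 1) * (x + 5 / 2)) * x = om * x * ((x + 1) * (x + 5 / 2)) := by ring
      _ < _ := h11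
  exact lt_of_mul_lt_mul_right h12 (by linarith)

end Pool.Agent.UV
end
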