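import Pool.Agent.Lib.MP_69b2e4_nt.LB.C0
import Pool.Agent.Lib.MP_69b2e4_nt.Mg.G024
import Pool.Agent.Lib.MP_69b2e4_nt.Mg.G038
import Pool.Agent.Lib.MP_69b2e4_nt.Mg.G018

section

/-! TASK C2. Algebra of the sums of translates. `L = log T`.
`GG_wb`: `Fb b T` is the injective image of `GT T` under `qs b`, `q.1 q.2 = n`, `log q.1 - log q.2 = sgn b log n`.
`HH_split`: the multiplier is `(1 + sgn 2y/L + i sgn ang/L) + 2 log n/L`, and `bt 0 (log n/L) = bt 1 + bt2` (`bt_log`), `be T r 1 0 = bt 0`, `be T r 0 1 = bt 1`.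
`HH_frozen`: with `A = GG (be 1 0)`, `D = GG (bt2)` and `GG (be c 2) = c A + 2 GG(be 0 1)` (linearity, `cs_lin`-like): `HH = GG(be (1 + 2 sgn η) 2) + E`, `E = (2 sgn (y/L - η) + i sgn ang/L) A + 2 D`, `‖E‖² ≤ 2 (2h + 2/L)² ‖A‖² + 8‖D‖²` (`0 ≤ ang ≤ 2`), `‖x + E‖² ≤ (1+κ)‖x‖² + (1+1/κ)‖E‖²`.
`cs_lin`, `fcs_lin`: both are linear in the weights.
`HH_tail`: for `y > L` and `n ∈ GT T`: `y' = y + sgn log n ≥ y - (23/50) L ≥ (27/50) y ≥ 0`, `e^{2y'} sin(1/T) ≥ e^{1.08 y}/(2T) ≥ T^{2/25}/2` is large: `gg_large` gives `‖gg T y'‖ ≤ 4 e^{y'/2} exp(-e^{2y'} sin(1/T)) + e^{-y'/2} ≤ 5 e^{-y'/2} = 5 e^{-y/2} n^{-sgn/2}`; so `‖HH‖ ≤ 5 e^{-y/2} (4 + 2y/L + 2) ∑ |β n| n^{-1/2} n^{-sgn/2}`, `∑ = ∑ ‖wa (-1/2) (wb β) q‖`; integrate `e^{2(R0/L) y} e^{-y} (6 + 2y/L)²` over `y > L`: `≤ C T^{-1}`. -/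

set_option autoImplicit false

namespace Pool.Agent.LB

open Complex MeasureTheory Finset Pool.Agent.GH Pool.Agent.UH Pool.Agent.UV
open scoped Real ComplexConjugate

/-- `qs b` is injective. -/
private theorem C2_inj (b : Bool) : Function.Injective (qs b) := by
  intro m n h
  cases b
  · exact congrArg Prod.snd h
  · exact congrArg Prod.fst h

private theorem C2_mem {b : Bool} {T : ℝ} {q : ℕ × ℕ} (hq : q ∈ Fb b T) :
    1 ≤ q.1 ∧ 1 ≤ q.2 ∧ (q.2 ≤ ⌊T ^ (23 / 50 : ℝ)⌋₊ ∨ q.2 = 1) := by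
  obtain ⟨n, hn, rfl⟩ := Finset.mem_image.mp hq
  obtain ⟨h1, h2⟩ := Finset.mem_Icc.mp hn
  cases b
  · exact ⟨le_rfl, h1, Or.inl h2⟩
  · exact ⟨h1, le_rfl, Or.inr rfl⟩

theorem GG_wb (b : Bool) (T : ℝ) (β : ℕ → ℝ) (y : ℝ) : GG T (Fb b T) (wb β) y =
    ∑ n ∈ GT T, ((β n * (n : ℝ) ^ (-(1 / 2) : ℝ) : ℝ) : ℂ) * gg T (y + sgn b * Real.log n) := by
  unfold GG Fb
  rw [Finset.sum_image fun m _ n _ h => C2_inj b h]
  refine Finset.sum_congr rfl fun n _ => ?_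
  cases b
  · simp [wb, qs, sgn]
  · simp [wb, qs, sgn]

private theorem C2_lin (b : Bool) (T : ℝ) (r : ℕ → ℝ) (c d y : ℝ) :
    GG T (Fb b T) (wb (be T r c d)) y = c * GG T (Fb b T) (wb (be T r 1 0)) y +
      d * GG T (Fb b T) (wb (be T r 0 1)) y := by
  rw [GG_wb, GG_wb, GG_wb, Finset.mul_sum, Finset.mul_sum, ← Finset.sum_add_distrib]
  refine Finset.sum_congr rfl fun n _ => ?_
  unfold be
  push_cast
  ring

theorem HH_split (b : Bool) (T : ℝ) (r : ℕ → ℝ) (y : ℝ) : HH b T (bt 0 T r) y =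
    ((1 + sgn b * (2 * y / Real.log T) : ℝ) + (sgn b * (ang T / Real.log T) : ℝ) * I) *
      GG T (Fb b T) (wb (be T r 1 0)) y +
    2 * GG T (Fb b T) (wb (be T r 0 1)) y + 2 * GG T (Fb b T) (wb (bt2 T r)) y := by
  rw [GG_wb, GG_wb, GG_wb, Finset.mul_sum, Finset.mul_sum, Finset.mul_sum,
    ← Finset.sum_add_distrib, ← Finset.sum_add_distrib]
  unfold HH
  refine Finset.sum_congr rfl fun n _ => ?_
  have h1 : ((bt 0 T r n : ℝ) : ℂ) * ((Real.log n : ℝ) / (Real.log T : ℝ)) =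
      ((bt 1 T r n : ℝ) : ℂ) + ((bt2 T r n : ℝ) : ℂ) := by
    rw [← Complex.ofReal_div, ← Complex.ofReal_mul, bt_log, Complex.ofReal_add]
  unfold be
  push_cast
  push_cast at h1
  linear_combination (2 * (((n : ℝ) ^ (-(1 / 2) : ℝ) : ℝ) : ℂ) *
    gg T (y + sgn b * Real.log n)) * h1

theorem HH_frozen {b : Bool} {T κ η h y : ℝ} (hT : Real.exp 1000 ≤ T) (r : ℕ → ℝ) (hκ : 0 < κ)
    (h0 : 0 ≤ h) (h1 : η * Real.log T ≤ y) (h2 : y ≤ (η + h) * Real.log T) :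
    ‖HH b T (bt 0 T r) y‖ ^ 2 ≤
      (1 + κ) * ‖GG T (Fb b T) (wb (be T r (1 + 2 * sgn b * η) 2)) y‖ ^ 2 +
      (1 + 1 / κ) * (8 * (h + 1 / Real.log T) ^ 2 * ‖GG T (Fb b T) (wb (be T r 1 0)) y‖ ^ 2 +
        8 * ‖GG T (Fb b T) (wb (bt2 T r)) y‖ ^ 2) := by
  have hL : 1000 ≤ Real.log T := by
    rw [Real.le_log_iff_exp_le (lt_of_lt_of_le (Real.exp_pos _) hT)]
    exact hT
  obtain ⟨L, hLdef⟩ : ∃ L, L = Real.log T := ⟨_, rfl⟩
  have hT0 : 0 < T := lt_of_lt_of_le (Real.exp_pos _) hT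
  have hT1 : 1 ≤ T := le_trans (by
    have := Real.add_one_le_exp (1000 : ℝ)
    linarith) hT
  have hang0 : 0 ≤ ang T := by
    unfold ang
    have h1 : 1 / T ≤ 1 := by
      rw [div_le_one hT0]
      exact hT1
    have := Real.pi_gt_three
    linarith
  have hang2 : ang T ≤ 2 := by
    unfold ang
    have h1 : 0 ≤ 1 / T := by positivity
    have := Real.pi_lt_d2
    linarith
  rw [HH_split]
  have hlin := C2_lin b T r (1 + 2 * sgn b * η) 2 y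
  obtain ⟨A, hA⟩ : ∃ A, A = GG T (Fb b T) (wb (be T r 1 0)) y := ⟨_, rfl⟩
  obtain ⟨B, hB⟩ : ∃ B, B = GG T (Fb b T) (wb (be T r 0 1)) y := ⟨_, rfl⟩
  obtain ⟨D, hD⟩ : ∃ D, D = GG T (Fb b T) (wb (bt2 T r)) y := ⟨_, rfl⟩
  obtain ⟨x, hx⟩ : ∃ x, x = GG T (Fb b T) (wb (be T r (1 + 2 * sgn b * η) 2)) y := ⟨_, rfl⟩
  obtain ⟨a, ha⟩ : ∃ a, a = ang T := ⟨_, rfl⟩
  rw [← hA, ← hB, ← hx] at hlin
  rw [← hA, ← hB, ← hD, ← hx, ← hLdef, ← ha]
  rw [← ha] at hang0 hang2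
  rw [← hLdef] at hL h1 h2
  have hL0 : 0 < L := by linarith
  obtain ⟨c, hc⟩ : ∃ c : ℂ, c = ((sgn b * (2 * (y / L - η)) : ℝ) : ℂ) + ((sgn b * (a / L) : ℝ) : ℂ) * I :=
    ⟨_, rfl⟩
  have hsg : sgn b ^ 2 = 1 := by cases b <;> simp [sgn]
  have hu0 : 0 ≤ y / L - η := by
    rw [sub_nonneg, le_div_iff₀ hL0]
    exact h1
  have hu1 : y / L - η ≤ h := by
    rw [sub_le_iff_le_add, div_le_iff₀ hL0]
    linarith
  have hal0 : 0 ≤ a / L := by positivity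
  have hal1 : a / L ≤ 2 * (1 / L) := by
    rw [mul_one_div]
    exact div_le_div_of_nonneg_right hang2 hL0.le
  have hiL : 0 ≤ 1 / L := by positivity
  have hcn : ‖c‖ ^ 2 ≤ 4 * (h + 1 / L) ^ 2 := by
    rw [hc, Complex.sq_norm, Complex.normSq_add_mul_I]
    have e1 : (sgn b * (2 * (y / L - η))) ^ 2 = 4 * (y / L - η) ^ 2 := by
      rw [mul_pow, hsg]
      ring
    have e2 : (sgn b * (a / L)) ^ 2 = (a / L) ^ 2 := by
      rw [mul_pow, hsg]
      ring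
    rw [e1, e2]
    have e3 : (y / L - η) ^ 2 ≤ h ^ 2 := pow_le_pow_left₀ hu0 hu1 2
    have e4 : (a / L) ^ 2 ≤ (2 * (1 / L)) ^ 2 := pow_le_pow_left₀ hal0 hal1 2
    nlinarith [mul_nonneg h0 hiL]
  have hE : ((1 + sgn b * (2 * y / L) : ℝ) + (sgn b * (a / L) : ℝ) * I) * A + 2 * B + 2 * D =
      x + (c * A + 2 * D) := by
    rw [hlin, hc]
    push_cast
    ring
  rw [hE]
  have hEn : ‖c * A + 2 * D‖ ^ 2 ≤ 8 * (h + 1 / L) ^ 2 * ‖A‖ ^ 2 + 8 * ‖D‖ ^ 2 := by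
    have e1 : ‖c * A + 2 * D‖ ≤ ‖c‖ * ‖A‖ + 2 * ‖D‖ := by
      refine (norm_add_le _ _).trans ?_
      rw [norm_mul, norm_mul]
      simp
    have e2 : ‖c * A + 2 * D‖ ^ 2 ≤ (‖c‖ * ‖A‖ + 2 * ‖D‖) ^ 2 :=
      pow_le_pow_left₀ (norm_nonneg _) e1 2
    have e3 : ‖c‖ ^ 2 * ‖A‖ ^ 2 ≤ 4 * (h + 1 / L) ^ 2 * ‖A‖ ^ 2 :=
      mul_le_mul_of_nonneg_right hcn (by positivity)
    nlinarith [sq_nonneg (‖c‖ * ‖A‖ - 2 * ‖D‖)]
  obtain ⟨z, hz⟩ : ∃ z, z = c * A + 2 * D := ⟨_, rfl⟩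
  rw [← hz] at hEn ⊢
  have hxz : ‖x + z‖ ^ 2 ≤ (1 + κ) * ‖x‖ ^ 2 + (1 + 1 / κ) * ‖z‖ ^ 2 := by
    have e1 : ‖x + z‖ ^ 2 ≤ (‖x‖ + ‖z‖) ^ 2 := pow_le_pow_left₀ (norm_nonneg _) (norm_add_le _ _) 2
    have e2 : 2 * (‖x‖ * ‖z‖) ≤ κ * ‖x‖ ^ 2 + 1 / κ * ‖z‖ ^ 2 := by
      have e3 : 0 ≤ (κ * ‖x‖ - ‖z‖) ^ 2 / κ := by positivity
      have e4 : (κ * ‖x‖ - ‖z‖) ^ 2 / κ = κ * ‖x‖ ^ 2 - 2 * (‖x‖ * ‖z‖) + 1 / κ * ‖z‖ ^ 2 := by
        field_simp
        ring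
      linarith
    nlinarith
  refine hxz.trans ?_
  have hk : 0 ≤ 1 + 1 / κ := by positivity
  have := mul_le_mul_of_nonneg_left hEn hk
  linarith

theorem cs_lin (M : ℕ) (b : Bool) (T : ℝ) (r : ℕ → ℝ) (c d : ℝ) (ρ : ℚ) :
    cs M (Fb b T) (wb (be T r c d)) ρ = c * cs M (Fb b T) (wb (be T r 1 0)) ρ +
      d * cs M (Fb b T) (wb (be T r 0 1)) ρ := by
  unfold cs
  rw [Finset.mul_sum, Finset.mul_sum, ← Finset.sum_add_distrib]
  refine Finset.sum_congr rfl fun q _ => ?_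
  split_ifs
  · unfold wa wb be
    push_cast
    ring
  · ring

theorem fcs_lin (b : Bool) (T : ℝ) (r : ℕ → ℝ) (c d : ℝ) (ρ : ℚ) :
    Sc b T r c d ρ = c * Sc b T r 1 0 ρ + d * Sc b T r 0 1 ρ := by
  unfold Sc fcs
  rw [Finset.mul_sum, Finset.mul_sum, ← Finset.sum_add_distrib]
  refine Finset.sum_congr rfl fun q _ => ?_
  split_ifs
  · unfold wa wb be
    push_cast
    ring
  · ring

/-- For `ρ ≤ T^{24/25}` all the integers `l` are `M2 T`-smooth. -/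
theorem cs_eq_fcs {b : Bool} {T : ℝ} (hT : Real.exp 1000 ≤ T) (β : ℕ → ℝ) {ρ : ℚ}
    (hρ : (ρ : ℝ) ≤ T ^ (24 / 25 : ℝ)) :
    cs (M2 T) (Fb b T) (wb β) ρ = fcs (Fb b T) (wb β) ρ := by
  have hT0 : 0 < T := lt_of_lt_of_le (Real.exp_pos _) hT
  have hT2 : 2 ≤ T := le_trans (by
    have := Real.add_one_le_exp (1000 : ℝ)
    linarith) hT
  have hT1 : 1 ≤ T := by linarith
  unfold cs fcs
  refine Finset.sum_congr rfl fun q hq => ?_
  obtain ⟨h1, h2, h3⟩ := C2_mem hq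
  have hiff : (∃ l ∈ Nat.smoothNumbers (M2 T), (l : ℚ) * q.1 = ρ * q.2) ↔
      ∃ l : ℕ, l ≠ 0 ∧ (l : ℚ) * q.1 = ρ * q.2 := by
    constructor
    · rintro ⟨l, hl, h⟩
      exact ⟨l, Nat.ne_zero_of_mem_smoothNumbers hl, h⟩
    · rintro ⟨l, hl, h⟩
      refine ⟨l, Nat.mem_smoothNumbers_of_lt (Nat.pos_of_ne_zero hl) ?_, h⟩
      have hR : (l : ℝ) * q.1 = (ρ : ℝ) * q.2 := by exact_mod_cast congrArg (fun z : ℚ => (z : ℝ)) h
      have hq1 : (1 : ℝ) ≤ q.1 := by exact_mod_cast h1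
      have hl0 : (0 : ℝ) ≤ l := Nat.cast_nonneg l
      have hq2 : (q.2 : ℝ) ≤ T ^ (23 / 50 : ℝ) := by
        rcases h3 with h3 | h3
        · exact (Nat.cast_le.mpr h3).trans (Nat.floor_le (by positivity))
        · rw [h3, Nat.cast_one]
          exact Real.one_le_rpow hT1 (by norm_num)
      have h4 : (l : ℝ) ≤ T ^ (24 / 25 : ℝ) * T ^ (23 / 50 : ℝ) := by
        calc (l : ℝ) ≤ l * q.1 := le_mul_of_one_le_right hl0 hq1
          _ = (ρ : ℝ) * q.2 := hR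
          _ ≤ T ^ (24 / 25 : ℝ) * q.2 := mul_le_mul_of_nonneg_right hρ (Nat.cast_nonneg _)
          _ ≤ T ^ (24 / 25 : ℝ) * T ^ (23 / 50 : ℝ) :=
            mul_le_mul_of_nonneg_left hq2 (by positivity)
      rw [← Real.rpow_add hT0] at h4
      have h5 : T ^ (24 / 25 + 23 / 50 : ℝ) ≤ T ^ (3 / 2 : ℝ) :=
        Real.rpow_le_rpow_of_exponent_le hT1 (by norm_num)
      have h6 : T ^ (3 / 2 : ℝ) + 1 ≤ T ^ 2 := by
        have e1 : T ^ (3 / 2 : ℝ) * T ^ (1 / 2 : ℝ) = T ^ 2 := by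
          rw [← Real.rpow_add hT0, ← Real.rpow_natCast]
          norm_num
        have e2 : (2 : ℝ) ≤ T ^ (1 / 2 : ℝ) := by
          have e3 : ((4 : ℝ)) ^ (1 / 2 : ℝ) ≤ T ^ (1 / 2 : ℝ) := by
            refine Real.rpow_le_rpow (by norm_num) ?_ (by norm_num)
            have := Real.add_one_le_exp (1000 : ℝ)
            linarith
          have e4 : (4 : ℝ) ^ (1 / 2 : ℝ) = 2 := by
            rw [show (4 : ℝ) = 2 ^ (2 : ℝ) by norm_num, ← Real.rpow_mul (by norm_num)]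
            norm_num
          linarith
        have e5 : (1 : ℝ) ≤ T ^ (3 / 2 : ℝ) := Real.one_le_rpow hT1 (by norm_num)
        nlinarith
      have h7 : T ^ 2 < (M2 T : ℝ) + 1 := Nat.lt_floor_add_one _
      have h8 : (l : ℝ) < M2 T := by linarith
      exact_mod_cast h8
  by_cases hc : ∃ l : ℕ, l ≠ 0 ∧ (l : ℚ) * q.1 = ρ * q.2
  · rw [if_pos hc, if_pos (hiff.mpr hc)]
  · rw [if_neg hc, if_neg fun h => hc (hiff.mp h)]

/-- The coefficients vanish for small `ρ`. -/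
theorem cs_small {b : Bool} {T : ℝ} (hT : Real.exp 1000 ≤ T) (β : ℕ → ℝ) {M : ℕ} {ρ : ℚ}
    (hρ : (ρ : ℝ) < T ^ (-(23 / 50) : ℝ)) :
    cs M (Fb b T) (wb β) ρ = 0 ∧ fcs (Fb b T) (wb β) ρ = 0 := by
  have hT0 : 0 < T := lt_of_lt_of_le (Real.exp_pos _) hT
  have hT1 : 1 ≤ T := le_trans (by
    have := Real.add_one_le_exp (1000 : ℝ)
    linarith) hT
  have key : ∀ q ∈ Fb b T, ¬ ∃ l : ℕ, l ≠ 0 ∧ (l : ℚ) * q.1 = ρ * q.2 := by
    rintro q hq ⟨l, hl, h⟩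
    obtain ⟨h1, h2, h3⟩ := C2_mem hq
    have hR : (l : ℝ) * q.1 = (ρ : ℝ) * q.2 := by exact_mod_cast congrArg (fun z : ℚ => (z : ℝ)) h
    have hq1 : (1 : ℝ) ≤ q.1 := by exact_mod_cast h1
    have hq2' : (0 : ℝ) < q.2 := by exact_mod_cast h2
    have hl1 : (1 : ℝ) ≤ l := by exact_mod_cast Nat.one_le_iff_ne_zero.mpr hl
    have hq2 : (q.2 : ℝ) ≤ T ^ (23 / 50 : ℝ) := by
      rcases h3 with h3 | h3
      · exact (Nat.cast_le.mpr h3).trans (Nat.floor_le (by positivity))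
      · rw [h3, Nat.cast_one]
        exact Real.one_le_rpow hT1 (by norm_num)
    have h4 : (1 : ℝ) ≤ (ρ : ℝ) * q.2 := by
      rw [← hR]
      nlinarith
    have h5 : (ρ : ℝ) * q.2 < T ^ (-(23 / 50) : ℝ) * q.2 := mul_lt_mul_of_pos_right hρ hq2'
    have h6 : T ^ (-(23 / 50) : ℝ) * q.2 ≤ T ^ (-(23 / 50) : ℝ) * T ^ (23 / 50 : ℝ) :=
      mul_le_mul_of_nonneg_left hq2 (by positivity)
    rw [← Real.rpow_add hT0] at h6
    norm_num at h6
    linarith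
  constructor
  · unfold cs
    refine Finset.sum_eq_zero fun q hq => ?_
    rw [if_neg]
    rintro ⟨l, hl, h⟩
    exact key q hq ⟨l, Nat.ne_zero_of_mem_smoothNumbers hl, h⟩
  · unfold fcs
    refine Finset.sum_eq_zero fun q hq => ?_
    rw [if_neg]
    rintro ⟨l, hl, h⟩
    exact key q hq ⟨l, hl, h⟩

private theorem C2_gg {T : ℝ} (hT : Real.exp 1000 ≤ T) {y v : ℝ} (hy : Real.log T < y)
    (hv : 27 / 50 * y ≤ v) : ‖gg T v‖ ≤ 5 * Real.exp (-v / 2) := by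
  have hT0 : 0 < T := lt_of_lt_of_le (Real.exp_pos _) hT
  have hT1 : 1 ≤ T := le_trans (by
    have := Real.add_one_le_exp (1000 : ℝ)
    linarith) hT
  have hL : 1000 ≤ Real.log T := by
    rw [Real.le_log_iff_exp_le hT0]
    exact hT
  have hv1 : 540 ≤ v := by linarith
  have hTv : T ≤ Real.exp (50 / 27 * v) := by
    rw [← Real.log_le_iff_le_exp hT0]
    linarith
  have hs := (sin_bounds hT1).1
  have h1 : v ≤ Real.exp (2 * v) * Real.sin (1 / T) := by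
    have e1 : Real.exp (2 * v) * (1 / (2 * T)) ≤ Real.exp (2 * v) * Real.sin (1 / T) :=
      mul_le_mul_of_nonneg_left hs (Real.exp_pos _).le
    have e2 : Real.exp (2 * v) * (1 / (2 * Real.exp (50 / 27 * v))) ≤
        Real.exp (2 * v) * (1 / (2 * T)) := by
      gcongr
    have e3 : Real.exp (2 * v) * (1 / (2 * Real.exp (50 / 27 * v))) = Real.exp (4 / 27 * v) / 2 := by
      rw [show (2 : ℝ) * v = 4 / 27 * v + 50 / 27 * v by ring, Real.exp_add]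
      field_simp
    have e4 : (4 / 27 * v) ^ 2 / 2 ≤ Real.exp (4 / 27 * v) := by
      have := Real.quadratic_le_exp_of_nonneg (x := 4 / 27 * v) (by positivity)
      nlinarith
    nlinarith
  have h2 := gg_large hT1 (y := v) (by linarith)
  refine h2.trans ?_
  have h3 : Real.exp (v / 2) * Real.exp (-(Real.exp (2 * v) * Real.sin (1 / T))) ≤
      Real.exp (-v / 2) := by
    rw [← Real.exp_add, Real.exp_le_exp]
    linarith
  linarith

private theorem C2_exp_log {n : ℕ} (hn : 1 ≤ n) (b : Bool) (y : ℝ) :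
    Real.exp (-(y + sgn b * Real.log n) / 2) = Real.exp (-y / 2) * ((n : ℝ) ^ (-(sgn b) / 2)) := by
  have h0 : (0 : ℝ) < n := by exact_mod_cast hn
  rw [Real.rpow_def_of_pos h0, ← Real.exp_add]
  congr 1
  ring

private theorem C2_wa (b : Bool) (β : ℕ → ℝ) {n : ℕ} (hn : 1 ≤ n) :
    ‖wa (-1 / 2) (wb β) (qs b n)‖ = |β n * (n : ℝ) ^ (-(1 / 2) : ℝ)| * ((n : ℝ) ^ (-(sgn b) / 2)) := by
  have h0 : (0 : ℝ) < n := by exact_mod_cast hn
  unfold wa
  rw [norm_mul]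
  cases b
  · have h1 : (((qs false n).1 : ℝ) / ((qs false n).2 : ℝ)) ^ (-1 / 2 : ℝ) = (n : ℝ) ^ (-(sgn false) / 2) := by
      simp only [qs, sgn]
      norm_num
      rw [← Real.rpow_neg_one, ← Real.rpow_mul h0.le]
      norm_num
    rw [h1]
    have h2 : wb β (qs false n) = ((β n * (n : ℝ) ^ (-(1 / 2) : ℝ) : ℝ) : ℂ) := by simp [wb, qs]
    rw [h2, Complex.norm_real, Complex.norm_real, Real.norm_eq_abs, Real.norm_eq_abs,
      abs_of_nonneg (a := (n : ℝ) ^ (-(sgn false) / 2)) (by positivity)]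
  · have h1 : (((qs true n).1 : ℝ) / ((qs true n).2 : ℝ)) ^ (-1 / 2 : ℝ) = (n : ℝ) ^ (-(sgn true) / 2) := by
      simp [qs, sgn]
    rw [h1]
    have h2 : wb β (qs true n) = ((β n * (n : ℝ) ^ (-(1 / 2) : ℝ) : ℝ) : ℂ) := by simp [wb, qs]
    rw [h2, Complex.norm_real, Complex.norm_real, Real.norm_eq_abs, Real.norm_eq_abs,
      abs_of_nonneg (a := (n : ℝ) ^ (-(sgn true) / 2)) (by positivity)]

private theorem C2_sgn (b : Bool) : -1 ≤ sgn b ∧ sgn b ≤ 1 ∧ |sgn b| = 1 := by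
  cases b <;> simp [sgn]

private theorem C2_HH {T : ℝ} (hT : Real.exp 1000 ≤ T) (b : Bool) (β : ℕ → ℝ) {y : ℝ}
    (hy : Real.log T < y) : ‖HH b T β y‖ ≤ 5 * Real.exp (-y / 2) * (4 + 2 * (y / Real.log T)) *
      ∑ q ∈ Fb b T, ‖wa (-1 / 2) (wb β) q‖ := by
  have hT0 : 0 < T := lt_of_lt_of_le (Real.exp_pos _) hT
  have hT1 : 1 ≤ T := le_trans (by
    have := Real.add_one_le_exp (1000 : ℝ)
    linarith) hT
  have hL : 1000 ≤ Real.log T := by
    rw [Real.le_log_iff_exp_le hT0]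
    exact hT
  obtain ⟨hs1, hs2, hs3⟩ := C2_sgn b
  have hang0 : 0 ≤ ang T := by
    unfold ang
    have h1 : 1 / T ≤ 1 := by
      rw [div_le_one hT0]
      exact hT1
    have := Real.pi_gt_three
    linarith
  have hang2 : ang T ≤ 2 := by
    unfold ang
    have h1 : 0 ≤ 1 / T := by positivity
    have := Real.pi_lt_d2
    linarith
  unfold Fb
  rw [Finset.sum_image fun m _ n _ h => C2_inj b h, Finset.mul_sum]
  unfold HH
  refine (norm_sum_le _ _).trans (Finset.sum_le_sum fun n hn => ?_)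
  obtain ⟨hn1, hn2⟩ := Finset.mem_Icc.mp hn
  have hn0 : (0 : ℝ) < n := by exact_mod_cast hn1
  have hnT : (n : ℝ) ≤ T ^ (23 / 50 : ℝ) :=
    (Nat.cast_le.mpr hn2).trans (Nat.floor_le (by positivity))
  have hlog0 : 0 ≤ Real.log n := Real.log_natCast_nonneg n
  have hlog1 : Real.log n ≤ 23 / 50 * Real.log T := by
    rw [← Real.log_rpow hT0]
    exact Real.log_le_log hn0 hnT
  obtain ⟨L, hLdef⟩ : ∃ L, L = Real.log T := ⟨_, rfl⟩
  rw [← hLdef] at hL hlog1 ⊢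
  have hL0 : 0 < L := by linarith
  rw [← hLdef] at hy
  obtain ⟨l, hl⟩ : ∃ l, l = Real.log n := ⟨_, rfl⟩
  rw [← hl] at hlog0 hlog1
  have hsl : -l ≤ sgn b * l ∧ sgn b * l ≤ l := by
    constructor <;> nlinarith
  have hg : ‖gg T (y + sgn b * Real.log n)‖ ≤
      5 * (Real.exp (-y / 2) * ((n : ℝ) ^ (-(sgn b) / 2))) := by
    rw [← C2_exp_log hn1]
    refine C2_gg hT (y := y) (by rw [← hLdef]; exact hy) ?_
    rw [← hl]
    linarith [hsl.1]
  have hm : ‖(1 + ((sgn b * (ang T / L) : ℝ) : ℂ) * I + ((2 / L * (sgn b * y + Real.log n) : ℝ) : ℂ))‖ ≤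
      4 + 2 * (y / L) := by
    have e1 : ‖(1 + ((sgn b * (ang T / L) : ℝ) : ℂ) * I + ((2 / L * (sgn b * y + Real.log n) : ℝ) : ℂ))‖ ≤
        1 + |sgn b * (ang T / L)| + |2 / L * (sgn b * y + Real.log n)| := by
      refine (norm_add_le _ _).trans (add_le_add ((norm_add_le _ _).trans ?_) ?_)
      · rw [norm_one, norm_mul, Complex.norm_I, mul_one, Complex.norm_real, Real.norm_eq_abs]
      · rw [Complex.norm_real, Real.norm_eq_abs]
    refine e1.trans ?_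
    have e2 : |sgn b * (ang T / L)| ≤ 1 := by
      rw [abs_mul, hs3, one_mul, abs_of_nonneg (by positivity), div_le_one hL0]
      linarith
    have e3 : |2 / L * (sgn b * y + Real.log n)| ≤ 2 * (y / L) + 2 := by
      rw [abs_mul, abs_of_nonneg (by positivity : (0 : ℝ) ≤ 2 / L)]
      have e4 : |sgn b * y + Real.log n| ≤ y + L := by
        rw [← hl]
        refine (abs_add_le _ _).trans ?_
        rw [abs_mul, hs3, one_mul, abs_of_nonneg (by linarith : (0 : ℝ) ≤ y), abs_of_nonneg hlog0]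
        linarith
      calc 2 / L * |sgn b * y + Real.log n| ≤ 2 / L * (y + L) :=
            mul_le_mul_of_nonneg_left e4 (by positivity)
        _ = 2 * (y / L) + 2 := by field_simp
    linarith
  rw [norm_mul, norm_mul, C2_wa b β hn1, Complex.norm_real, Real.norm_eq_abs]
  have hy0 : 0 ≤ y / L := div_nonneg (by linarith) hL0.le
  calc |β n * (n : ℝ) ^ (-(1 / 2) : ℝ)| *
      ‖(1 + ((sgn b * (ang T / L) : ℝ) : ℂ) * I + ((2 / L * (sgn b * y + Real.log n) : ℝ) : ℂ))‖ *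
      ‖gg T (y + sgn b * Real.log n)‖ ≤ |β n * (n : ℝ) ^ (-(1 / 2) : ℝ)| * (4 + 2 * (y / L)) *
        (5 * (Real.exp (-y / 2) * ((n : ℝ) ^ (-(sgn b) / 2)))) := by gcongr
    _ = _ := by ring

private theorem C2_weight {L y s : ℝ} (hL : 1000 ≤ L) (hy : L < y) (hs : -1 ≤ s) :
    Real.exp (-(2 * s * (R0 / L) * y)) * (5 * Real.exp (-y / 2) * (4 + 2 * (y / L))) ^ 2 ≤
      900 * Real.exp (12 / 5) * Real.exp (-L / 2) * Real.exp (-(1 / 2) * y) := by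
  have hL0 : 0 < L := by linarith
  obtain ⟨d, hd⟩ : ∃ d, d = (y - L) / L := ⟨_, rfl⟩
  have hd0 : 0 ≤ d := by
    rw [hd]
    exact div_nonneg (by linarith) hL0.le
  have hyL : y / L = 1 + d := by
    rw [hd]
    field_simp
    ring
  have hdL : 1000 * d ≤ y - L := by
    have h1 : d * L = y - L := by
      rw [hd]
      field_simp
    nlinarith
  have h1 : Real.exp (-(2 * s * (R0 / L) * y)) ≤ Real.exp (12 / 5 + 12 / 5 * d) := by
    rw [Real.exp_le_exp]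
    have e1 : -(2 * s * (R0 / L) * y) = -s * (12 / 5 * (y / L)) := by
      unfold R0
      ring
    rw [e1, hyL]
    nlinarith
  have h2 : (4 + 2 * (y / L)) ^ 2 ≤ 36 * Real.exp (2 * d) := by
    rw [hyL]
    have e1 : 1 + d ≤ Real.exp d := by
      have := Real.add_one_le_exp d
      linarith
    have e2 : Real.exp (2 * d) = Real.exp d ^ 2 := by
      rw [← Real.exp_nat_mul]
      norm_num
    rw [e2]
    have e3 : 4 + 2 * (1 + d) ≤ 6 * Real.exp d := by linarith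
    calc (4 + 2 * (1 + d)) ^ 2 ≤ (6 * Real.exp d) ^ 2 := pow_le_pow_left₀ (by positivity) e3 2
      _ = 36 * Real.exp d ^ 2 := by ring
  have h3 : (5 * Real.exp (-y / 2) * (4 + 2 * (y / L))) ^ 2 =
      25 * Real.exp (-y) * (4 + 2 * (y / L)) ^ 2 := by
    have e1 : Real.exp (-y / 2) ^ 2 = Real.exp (-y) := by
      rw [← Real.exp_nat_mul]
      congr 1
      push_cast
      ring
    rw [mul_pow, mul_pow, e1]
    ring
  rw [h3]
  calc Real.exp (-(2 * s * (R0 / L) * y)) * (25 * Real.exp (-y) * (4 + 2 * (y / L)) ^ 2) ≤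
      Real.exp (12 / 5 + 12 / 5 * d) * (25 * Real.exp (-y) * (36 * Real.exp (2 * d))) := by gcongr
    _ = 900 * Real.exp (12 / 5) * Real.exp (12 / 5 * d + -y + 2 * d) := by
        rw [Real.exp_add, Real.exp_add, Real.exp_add]
        ring
    _ ≤ 900 * Real.exp (12 / 5) * Real.exp (-L / 2 + -(1 / 2) * y) := by
        refine mul_le_mul_of_nonneg_left (Real.exp_le_exp.mpr ?_) (by positivity)
        linarith
    _ = _ := by
        rw [Real.exp_add]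
        ring

theorem HH_tail : ∃ C T0 : ℝ, 1 ≤ C ∧ ∀ (b : Bool) (T : ℝ) (β : ℕ → ℝ), T0 ≤ T →
    ∫⁻ y in Set.Ioi (Real.log T), ENNReal.ofReal
      (Real.exp (-(2 * sgn b * (R0 / Real.log T) * y)) * ‖HH b T β y‖ ^ 2) ≤
    ENNReal.ofReal (C / T * (∑ q ∈ Fb b T, ‖wa (-1 / 2) (wb β) q‖) ^ 2) := by
  refine ⟨1800 * Real.exp (12 / 5), Real.exp 1000, ?_, fun b T β hT => ?_⟩
  · have := Real.add_one_le_exp (12 / 5 : ℝ)
    linarith
  have hT0 : 0 < T := lt_of_lt_of_le (Real.exp_pos _) hT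
  have hL : 1000 ≤ Real.log T := by
    rw [Real.le_log_iff_exp_le hT0]
    exact hT
  obtain ⟨S₀, hS⟩ : ∃ S₀, S₀ = ∑ q ∈ Fb b T, ‖wa (-1 / 2) (wb β) q‖ := ⟨_, rfl⟩
  have hS0 : 0 ≤ S₀ := by
    rw [hS]
    exact Finset.sum_nonneg fun _ _ => norm_nonneg _
  rw [← hS]
  obtain ⟨L, hLdef⟩ : ∃ L, L = Real.log T := ⟨_, rfl⟩
  have hTL : T = Real.exp L := by rw [hLdef, Real.exp_log hT0]
  have hint : IntegrableOn (fun y : ℝ => 900 * Real.exp (12 / 5) * Real.exp (-L / 2) * S₀ ^ 2 *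
      Real.exp (-(1 / 2) * y)) (Set.Ioi L) :=
    (integrableOn_exp_mul_Ioi (by norm_num) L).const_mul _
  have hval : ∫ y in Set.Ioi L, 900 * Real.exp (12 / 5) * Real.exp (-L / 2) * S₀ ^ 2 *
      Real.exp (-(1 / 2) * y) = 1800 * Real.exp (12 / 5) / T * S₀ ^ 2 := by
    rw [integral_const_mul, integral_exp_mul_Ioi (by norm_num) L, hTL]
    have e1 : Real.exp (-L / 2) * Real.exp (-(1 / 2) * L) = (Real.exp L)⁻¹ := by
      rw [← Real.exp_add, ← Real.exp_neg]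
      congr 1
      ring
    have e2 : 900 * Real.exp (12 / 5) * Real.exp (-L / 2) * S₀ ^ 2 *
        (-Real.exp (-(1 / 2) * L) / -(1 / 2)) = 1800 * Real.exp (12 / 5) *
        (Real.exp (-L / 2) * Real.exp (-(1 / 2) * L)) * S₀ ^ 2 := by ring
    rw [e2, e1]
    ring
  rw [← hLdef, ← hval, ofReal_integral_eq_lintegral_ofReal hint
    (Filter.Eventually.of_forall fun y => by positivity)]
  refine setLIntegral_mono' measurableSet_Ioi fun y hy => ENNReal.ofReal_le_ofReal ?_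
  have hy' : L < y := hy
  have h1 := C2_HH hT b β (y := y) (by rw [← hLdef]; exact hy')
  rw [← hLdef, ← hS] at h1
  have h2 : ‖HH b T β y‖ ^ 2 ≤ (5 * Real.exp (-y / 2) * (4 + 2 * (y / L))) ^ 2 * S₀ ^ 2 := by
    rw [← mul_pow]
    exact pow_le_pow_left₀ (norm_nonneg _) h1 2
  have h3 := C2_weight (s := sgn b) (by rw [hLdef]; exact hL) hy' (C2_sgn b).1
  calc Real.exp (-(2 * sgn b * (R0 / L) * y)) * ‖HH b T β y‖ ^ 2 ≤
      Real.exp (-(2 * sgn b * (R0 / L) * y)) *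
        ((5 * Real.exp (-y / 2) * (4 + 2 * (y / L))) ^ 2 * S₀ ^ 2) := by gcongr
    _ = (Real.exp (-(2 * sgn b * (R0 / L) * y)) *
        (5 * Real.exp (-y / 2) * (4 + 2 * (y / L))) ^ 2) * S₀ ^ 2 := by ring
    _ ≤ (900 * Real.exp (12 / 5) * Real.exp (-L / 2) * Real.exp (-(1 / 2) * y)) * S₀ ^ 2 := by gcongr
    _ = _ := by ring

end Pool.Agent.LB
end

section

/-! TASK C3. The mean square of one piece, sharp. Template: UV/HL.lean (`half_main`). `L = log T`, `M = M2 T = ⌊T²⌋`, `F = Fb b T`, `w = wb β`, `x0 = T^η1`, `X = T^η2`.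
`GG_sq_sharp`: `GG T F w y = 2 e^{y/2} SS T F w (e^y) - e^{-y/2} omh T ∑_q wa (-1/2) w q` (definitions; see `GG_sq_le` in GH), `(u+v)² ≤ (1+κ)u² + (1+1/κ)v²`.
`piece`: `∫_{η1 L}^{η2 L} 4 e^y ‖SS(e^y)‖² dy = 4 ∫_{(x0,X]} ‖SS(x)‖² dx` (`HL_subst`-like), `∫ e^{-y} dy ≤ T^{-η1}`. `off_diag4` (all `n ∈ GT T` are `M`-smooth since `n ≤ T^{23/50} < M`): diagonal terms `k = (ρ, r)`:
 `r = 1`: the main term (`∫_{(x0,X]} = Jp/4`). `r ≠ 1` rough: `r ≥ M ≥ T²/2`; if `cs ≠ 0` then `ρ x0 ≥ T^{-1/2}` (`b = true`: `ρ = l n ≥ 1`, `x0 ≥ T^{-9/20}`; `b = false`: `ρ ≥ T^{-23/50}` by `cs_small`, `x0 ≥ T^{9/20}`). With `u = ρ r x ≥ r T^{-1/2}`, `2πu² sin(1/T) ≥ πu²/T ≥ π r²/(2T²) + πu²/(2T)`: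
 `∫_{x0}^∞ 4e^{-2π(ρrx)² sin(1/T)} dx ≤ (1/(ρ r)) 8√T e^{-r²/T²}`, and `∑_{r ≥ T²/2} (8√T/r) e^{-r²/T²} ≤ 1` for `T ≥ T0`; so this part is at most `∑_ρ ‖cs ρ‖² ρ^{-1} ≤ BB M F w 0` (`bessel`, `η = 0`).
 off-diagonal: `off_sum4` with `κ' = 1/1200`, `D = 1` for `b = true` (`q.2 = 1`), `D = ⌊T^{23/50}⌋₊` for `b = false`: `C D² T^{1/200}/x0 BB ≤ C T^{47/100 + 1/200} BB ≤ T^{12/25} BB/8` (`b = true`: `T^{9/20+1/200}`; `b = false`: `D²/x0 ≤ T^{23/25 - 9/20} = T^{47/100}`).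
 Total: `(1+κ)` times everything. -/

set_option autoImplicit false

namespace Pool.Agent.LB

open Complex MeasureTheory Finset Pool.Agent.GH Pool.Agent.UH Pool.Agent.UV
open scoped Real ComplexConjugate

theorem GG_sq_sharp {T : ℝ} {F : Finset (ℕ × ℕ)} {w : ℕ × ℕ → ℂ} {κ y : ℝ} (hT : 1 ≤ T) (hκ : 0 < κ)
    (hF : ∀ q ∈ F, q.1 ≠ 0 ∧ q.2 ≠ 0) :
    ‖GG T F w y‖ ^ 2 ≤ (1 + κ) * (4 * Real.exp y * ‖SS T F w (Real.exp y)‖ ^ 2) +
      (1 + 1 / κ) * (Real.exp (-y) * (∑ q ∈ F, ‖wa (-1 / 2) w q‖) ^ 2) := by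
  rw [GG_eq hT F w hF y]
  obtain ⟨A, hA⟩ : ∃ A : ℂ, A = 2 * (Real.exp (y / 2) : ℂ) * SS T F w (Real.exp y) := ⟨_, rfl⟩
  obtain ⟨B, hB⟩ : ∃ B : ℂ, B = (Real.exp (-y / 2) : ℂ) * omh T * ∑ q ∈ F, wa (-1 / 2) w q := ⟨_, rfl⟩
  rw [← hA, ← hB]
  have nA : ‖A‖ = 2 * Real.exp (y / 2) * ‖SS T F w (Real.exp y)‖ := by
    rw [hA, norm_mul, norm_mul, Complex.norm_real, Real.norm_eq_abs, abs_of_pos (Real.exp_pos _)]
    norm_num
  have nomh : ‖omh T‖ = 1 := by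
    unfold omh
    have : -((ang T : ℂ) / 2) * I = ((-(ang T / 2) : ℝ) : ℂ) * I := by push_cast; ring
    rw [this, Complex.norm_exp_ofReal_mul_I]
  have nB : ‖B‖ ≤ Real.exp (-y / 2) * ∑ q ∈ F, ‖wa (-1 / 2) w q‖ := by
    rw [hB, norm_mul, norm_mul, Complex.norm_real, Real.norm_eq_abs, abs_of_pos (Real.exp_pos _),
      nomh, mul_one]
    exact mul_le_mul_of_nonneg_left (norm_sum_le _ _) (Real.exp_pos _).le
  have hsub : ‖A - B‖ ≤ ‖A‖ + ‖B‖ := norm_sub_le _ _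
  have h1 : ‖A - B‖ ^ 2 ≤ (1 + κ) * ‖A‖ ^ 2 + (1 + 1 / κ) * ‖B‖ ^ 2 := by
    have h2 : ‖A - B‖ ^ 2 ≤ (‖A‖ + ‖B‖) ^ 2 := pow_le_pow_left₀ (norm_nonneg _) hsub 2
    refine h2.trans ?_
    have h3 : 0 ≤ (κ * ‖A‖ - ‖B‖) ^ 2 / κ := by positivity
    have h4 : (1 + κ) * ‖A‖ ^ 2 + (1 + 1 / κ) * ‖B‖ ^ 2 - (‖A‖ + ‖B‖) ^ 2 =
        (κ * ‖A‖ - ‖B‖) ^ 2 / κ := by
      field_simp
      ring
    linarith
  have h2 : ‖A‖ ^ 2 = 4 * Real.exp y * ‖SS T F w (Real.exp y)‖ ^ 2 := by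
    rw [nA, mul_pow, mul_pow, ← Real.exp_nat_mul]
    congr 1
    rw [show ((2 : ℕ) : ℝ) * (y / 2) = y by push_cast; ring]
    norm_num
  have h3 : ‖B‖ ^ 2 ≤ Real.exp (-y) * (∑ q ∈ F, ‖wa (-1 / 2) w q‖) ^ 2 := by
    have := pow_le_pow_left₀ (norm_nonneg _) nB 2
    refine this.trans (le_of_eq ?_)
    rw [mul_pow, ← Real.exp_nat_mul]
    congr 2
    push_cast; ring
  refine h1.trans ?_
  rw [h2]
  have h5 : 0 ≤ 1 + 1 / κ := by positivity
  have h6 := mul_le_mul_of_nonneg_left h3 h5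
  linarith

private theorem C3_tail {T x0 X ρ : ℝ} {r : ℕ} (hT : 2 ≤ T) (hx0 : 0 < x0) (hρ : 0 < ρ)
    (hρx : T⁻¹ ≤ ρ * x0) (hr : T ^ 2 / 2 ≤ r) :
    ∫⁻ x in Set.Ioc x0 X, ENNReal.ofReal
      (Real.exp (-2 * π * (ρ * r * x) ^ 2 * Real.sin (1 / T))) ≤
    ENNReal.ofReal (67026 / T ^ 3 / ρ * (1 / (r : ℝ) ^ 2)) := by
  have hT0 : 0 < T := by linarith
  have hr0 : (0:ℝ) < r := lt_of_lt_of_le (by positivity) hr
  have hsin := (sin_bounds (T := T) (by linarith)).1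
  refine (lintegral_mono_set Set.Ioc_subset_Ioi_self).trans ?_
  have hpt : ∀ x ∈ Set.Ioi x0, ENNReal.ofReal
      (Real.exp (-2 * π * (ρ * r * x) ^ 2 * Real.sin (1 / T))) ≤
      ENNReal.ofReal (720 * T ^ 6 / (ρ * r) ^ 12 * x ^ (-12 : ℝ)) := by
    intro x hx
    have hx1 : 0 < x := hx0.trans hx
    apply ENNReal.ofReal_le_ofReal
    obtain ⟨z, hz⟩ : ∃ z, z = (ρ * r * x) ^ 2 / T := ⟨_, rfl⟩
    have hz0 : 0 < z := by rw [hz]; positivity
    have h1 : -2 * π * (ρ * r * x) ^ 2 * Real.sin (1 / T) ≤ -z := by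
      have h2 : z ≤ 2 * π * (ρ * r * x) ^ 2 * (1 / (2 * T)) := by
        rw [hz]
        have h3 : 2 * π * (ρ * r * x) ^ 2 * (1 / (2 * T)) = π * ((ρ * r * x) ^ 2 / T) := by
          field_simp
        rw [h3]
        have h4 : 0 ≤ (ρ * r * x) ^ 2 / T := by positivity
        nlinarith [Real.pi_gt_three]
      have h5 : 2 * π * (ρ * r * x) ^ 2 * (1 / (2 * T)) ≤ 2 * π * (ρ * r * x) ^ 2 * Real.sin (1 / T) :=
        mul_le_mul_of_nonneg_left hsin (by positivity)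
      linarith
    refine (Real.exp_le_exp.2 h1).trans ?_
    have h6 := Real.pow_div_factorial_le_exp (x := z) hz0.le 6
    rw [Real.exp_neg]
    have h7 : (Real.exp z)⁻¹ ≤ (z ^ 6 / (Nat.factorial 6 : ℕ))⁻¹ := inv_anti₀ (by positivity) h6
    refine h7.trans (le_of_eq ?_)
    have h8 : x ^ (-12 : ℝ) = (x ^ 12)⁻¹ := by
      rw [Real.rpow_neg hx1.le]
      congr 1
      exact_mod_cast Real.rpow_natCast x 12
    rw [h8, hz]
    have h9 : ((Nat.factorial 6 : ℕ) : ℝ) = 720 := by norm_num [Nat.factorial]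
    rw [h9]
    field_simp
  refine (setLIntegral_mono' measurableSet_Ioi hpt).trans ?_
  rw [← ofReal_integral_eq_lintegral_ofReal]
  · rw [integral_const_mul, integral_Ioi_rpow_of_lt (by norm_num) hx0]
    apply ENNReal.ofReal_le_ofReal
    have h8 : -x0 ^ ((-12 : ℝ) + 1) / (-12 + 1) = (x0 ^ 11)⁻¹ / 11 := by
      have e1 : ((-12 : ℝ) + 1) = -11 := by norm_num
      rw [e1, Real.rpow_neg hx0.le]
      have e2 : x0 ^ (11 : ℝ) = x0 ^ 11 := by exact_mod_cast Real.rpow_natCast x0 11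
      rw [e2]
      ring
    rw [h8]
    have e3 : 720 * T ^ 6 / (ρ * r) ^ 12 * ((x0 ^ 11)⁻¹ / 11) =
        720 / 11 * T ^ 6 / ρ * (1 / (r : ℝ) ^ 2) * ((r : ℝ) ^ 10)⁻¹ * ((ρ * x0) ^ 11)⁻¹ := by
      field_simp
    rw [e3]
    have e4 : ((ρ * x0) ^ 11)⁻¹ ≤ T ^ 11 := by
      have e5 : (T⁻¹) ^ 11 ≤ (ρ * x0) ^ 11 := pow_le_pow_left₀ (by positivity) hρx 11
      have e6 := inv_anti₀ (by positivity) e5
      rwa [inv_pow, inv_inv] at e6
    have e5 : ((r : ℝ) ^ 10)⁻¹ ≤ 1024 / T ^ 20 := by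
      have e6 : (T ^ 2 / 2) ^ 10 ≤ (r : ℝ) ^ 10 := pow_le_pow_left₀ (by positivity) hr 10
      have e7 := inv_anti₀ (by positivity) e6
      refine e7.trans (le_of_eq ?_)
      field_simp
      norm_num
    have e6 : 0 ≤ 720 / 11 * T ^ 6 / ρ * (1 / (r : ℝ) ^ 2) := by positivity
    have e7 := mul_le_mul (mul_le_mul_of_nonneg_left e5 e6) e4 (by positivity) (by positivity)
    refine e7.trans ?_
    have e8 : 720 / 11 * T ^ 6 / ρ * (1 / (r : ℝ) ^ 2) * (1024 / T ^ 20) * T ^ 11 =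
        (720 * 1024 / 11) / T ^ 3 / ρ * (1 / (r : ℝ) ^ 2) := by
      field_simp
    rw [e8]
    apply mul_le_mul_of_nonneg_right _ (by positivity)
    apply div_le_div_of_nonneg_right _ hρ.le
    apply div_le_div_of_nonneg_right _ (by positivity)
    norm_num
  · exact (integrableOn_Ioi_rpow_of_lt (by norm_num) hx0).const_mul _
  · refine (ae_restrict_iff' measurableSet_Ioi).2 (Filter.Eventually.of_forall fun x hx => ?_)
    have hx1 : 0 < x := hx0.trans hx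
    simp only [Pi.zero_apply]
    positivity

private theorem C3_subst {a c : ℝ} (ha : 0 < a) (hc : 0 < c) (f : ℝ → ENNReal) :
    ∫⁻ y in Set.Ioc (Real.log a) (Real.log c),
      ENNReal.ofReal (Real.exp y) * f (Real.exp y) = ∫⁻ x in Set.Ioc a c, f x := by
  have h1 : Real.exp '' Set.Ioc (Real.log a) (Real.log c) = Set.Ioc a c := by
    ext x
    constructor
    · rintro ⟨y, hy, rfl⟩
      exact ⟨(Real.log_lt_iff_lt_exp ha).mp hy.1, (Real.le_log_iff_exp_le hc).1 hy.2⟩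
    · rintro ⟨hx1, hx2⟩
      have hx : 0 < x := by linarith
      exact ⟨Real.log x, ⟨Real.log_lt_log ha hx1, Real.log_le_log hx hx2⟩, Real.exp_log hx⟩
  rw [← h1, lintegral_image_eq_lintegral_abs_deriv_mul measurableSet_Ioc
    (fun x _ => (Real.hasDerivAt_exp x).hasDerivWithinAt) (Real.exp_injective.injOn)]
  refine lintegral_congr fun y => ?_
  rw [abs_of_pos (Real.exp_pos y)]

private theorem C3_exp_int (c : ℝ) : ∫⁻ y in Set.Ioi c, ENNReal.ofReal (Real.exp (-y)) =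
    ENNReal.ofReal (Real.exp (-c)) := by
  have hint : IntegrableOn (fun y : ℝ => Real.exp (-y)) (Set.Ioi c) := by
    have := exp_neg_integrableOn_Ioi c one_pos
    simpa using this
  rw [← ofReal_integral_eq_lintegral_ofReal hint
    (Filter.Eventually.of_forall fun x => (Real.exp_pos _).le), integral_exp_neg_Ioi]

private theorem C3_Fb {b : Bool} {T : ℝ} {q : ℕ × ℕ} (hq : q ∈ Fb b T) :
    ∃ n ∈ GT T, q = qs b n := by
  unfold Fb at hq
  rw [Finset.mem_image] at hq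
  obtain ⟨n, hn, h⟩ := hq
  exact ⟨n, hn, h.symm⟩

private theorem C3_smooth {b : Bool} {T : ℝ} (hT : Real.exp 1000 ≤ T) :
    ∀ q ∈ Fb b T, q.1 ∈ Nat.smoothNumbers (M2 T) ∧ q.2 ∈ Nat.smoothNumbers (M2 T) := by
  intro q hq
  obtain ⟨n, hn, rfl⟩ := C3_Fb hq
  have hT0 : 0 < T := (Real.exp_pos _).trans_le hT
  have hT1 : 2 ≤ T := by
    have := Real.add_one_le_exp (1000:ℝ)
    linarith
  have h1 : (1:ℕ) ∈ Nat.smoothNumbers (M2 T) := ⟨one_ne_zero, by simp⟩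
  have h2 : n ∈ Nat.smoothNumbers (M2 T) := by
    unfold GT at hn
    rw [Finset.mem_Icc] at hn
    apply Nat.mem_smoothNumbers_of_lt (by omega)
    have h3 : (n : ℝ) ≤ T ^ (23 / 50 : ℝ) :=
      (Nat.le_floor_iff (by positivity)).1 hn.2
    have h4 : T ^ (23 / 50 : ℝ) ≤ T := by
      have := Real.rpow_le_rpow_of_exponent_le (by linarith : (1:ℝ) ≤ T) (by norm_num : (23 / 50 : ℝ) ≤ 1)
      rwa [Real.rpow_one] at this
    have h5 : ((n + 1 : ℕ) : ℝ) ≤ T ^ 2 := by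
      push_cast
      nlinarith
    have h6 : n + 1 ≤ M2 T := by
      unfold M2
      exact Nat.le_floor h5
    omega
  unfold qs
  split_ifs
  · exact ⟨h2, h1⟩
  · exact ⟨h1, h2⟩

private theorem C3_rough {T : ℝ} (hT : 2 ≤ T) {r : ℕ} (hr : Rough (M2 T) r) (h1 : r ≠ 1) :
    T ^ 2 / 2 ≤ (r : ℝ) := by
  obtain ⟨p, hp, hpr⟩ := Nat.exists_prime_and_dvd h1
  have h2 : M2 T ≤ p := hr.2 p hp hpr
  have h3 : p ≤ r := Nat.le_of_dvd (Nat.pos_of_ne_zero hr.1) hpr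
  have h4 : T ^ 2 < M2 T + 1 := by
    unfold M2
    exact Nat.lt_floor_add_one _
  have h5 : (M2 T : ℝ) ≤ r := by exact_mod_cast h2.trans h3
  nlinarith

private theorem C3_zeta2 : ∑' r : ℕ, ENNReal.ofReal (1 / (r : ℝ) ^ 2) ≤ ENNReal.ofReal 2 := by
  have h1 := hasSum_zeta_two
  rw [← ENNReal.ofReal_tsum_of_nonneg (fun _ => by positivity) h1.summable, h1.tsum_eq]
  apply ENNReal.ofReal_le_ofReal
  have h2 := Real.pi_lt_d2
  have h3 := Real.pi_pos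
  nlinarith

/-- the diagonal terms for one `ρ` -/
private theorem C3_diag {b : Bool} {T : ℝ} (hT : Real.exp 1000 ≤ T) (β : ℕ → ℝ) {η1 η2 : ℝ}
    (h0 : e0 b ≤ η1) (ρ : ℚ) :
    ∑' r : ℕ, (open Classical in if Rough (M2 T) r then
      ENNReal.ofReal (‖cs (M2 T) (Fb b T) (wb β) ρ‖ ^ 2) * ∫⁻ x in Set.Ioc (T ^ η1) (T ^ η2),
        ENNReal.ofReal (Real.exp (-2 * π * ((ρ : ℝ) * r * x) ^ 2 * Real.sin (1 / T))) else 0) ≤
    ENNReal.ofReal (‖cs (M2 T) (Fb b T) (wb β) ρ‖ ^ 2) * (∫⁻ x in Set.Ioc (T ^ η1) (T ^ η2),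
        ENNReal.ofReal (Real.exp (-2 * π * ((ρ : ℝ) * x) ^ 2 * Real.sin (1 / T)))) +
    ENNReal.ofReal (134052 / T ^ 3) *
      ENNReal.ofReal (‖cs (M2 T) (Fb b T) (wb β) ρ‖ ^ 2 * (ρ : ℝ) ^ (-1 + 0 : ℝ)) := by
  classical
  have hT0 : 0 < T := (Real.exp_pos _).trans_le hT
  have hT2 : 2 ≤ T := by
    have := Real.add_one_le_exp (1000:ℝ)
    linarith
  obtain ⟨c, hc⟩ : ∃ c, c = cs (M2 T) (Fb b T) (wb β) ρ := ⟨_, rfl⟩
  rw [← hc]
  by_cases hc0 : c = 0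
  · simp [hc0]
  · rw [hc] at hc0
    have hρ0 : 0 < ρ := (cs_pos (C3_smooth hT) hc0).1
    have hρ1 : (0 : ℝ) < ρ := by exact_mod_cast hρ0
    have hρ2 : T ^ (-(23 / 50) : ℝ) ≤ (ρ : ℝ) := by
      by_contra h
      push Not at h
      exact hc0 (cs_small hT β h).1
    have hx0 : 0 < T ^ η1 := Real.rpow_pos_of_pos hT0 _
    have he0 : -(9 / 20) ≤ η1 := by
      refine le_trans ?_ h0
      unfold e0
      split_ifs <;> norm_num
    have hρx : T⁻¹ ≤ ρ * T ^ η1 := by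
      have e1 : T ^ (-(9 / 20) : ℝ) ≤ T ^ η1 :=
        Real.rpow_le_rpow_of_exponent_le (by linarith) he0
      have e2 : T ^ (-(23 / 50) : ℝ) * T ^ (-(9 / 20) : ℝ) ≤ ρ * T ^ η1 :=
        mul_le_mul hρ2 e1 (by positivity) hρ1.le
      refine le_trans ?_ e2
      rw [← Real.rpow_add hT0, ← Real.rpow_neg_one]
      exact Real.rpow_le_rpow_of_exponent_le (by linarith) (by norm_num)
    have hpt : ∀ r : ℕ, (if Rough (M2 T) r then
        ENNReal.ofReal (‖c‖ ^ 2) * ∫⁻ x in Set.Ioc (T ^ η1) (T ^ η2),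
          ENNReal.ofReal (Real.exp (-2 * π * ((ρ : ℝ) * r * x) ^ 2 * Real.sin (1 / T))) else 0) ≤
        (if r = 1 then ENNReal.ofReal (‖c‖ ^ 2) * (∫⁻ x in Set.Ioc (T ^ η1) (T ^ η2),
          ENNReal.ofReal (Real.exp (-2 * π * ((ρ : ℝ) * x) ^ 2 * Real.sin (1 / T)))) else 0) +
        ENNReal.ofReal (‖c‖ ^ 2) * ENNReal.ofReal (67026 / T ^ 3 / ρ) *
          ENNReal.ofReal (1 / (r : ℝ) ^ 2) := by
      intro r
      by_cases h1 : r = 1
      · subst h1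
        rw [if_pos rfl]
        split_ifs
        · refine le_trans (le_of_eq ?_) le_self_add
          simp only [Nat.cast_one, mul_one]
        · exact zero_le
      · by_cases hR : Rough (M2 T) r
        · rw [if_pos hR, if_neg h1, zero_add, mul_assoc, ← ENNReal.ofReal_mul (by positivity)]
          exact mul_le_mul_right (C3_tail hT2 hx0 hρ1 hρx (C3_rough hT2 hR h1)) _
        · rw [if_neg hR]
          exact zero_le
    refine (ENNReal.tsum_le_tsum hpt).trans ?_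
    rw [ENNReal.tsum_add, tsum_ite_eq, ENNReal.tsum_mul_left]
    refine add_le_add le_rfl ?_
    refine (mul_le_mul_right C3_zeta2 _).trans (le_of_eq ?_)
    rw [← ENNReal.ofReal_mul (by positivity), ← ENNReal.ofReal_mul (by positivity),
      ← ENNReal.ofReal_mul (by positivity)]
    congr 1
    rw [add_zero, Real.rpow_neg_one]
    field_simp
    ring

private theorem C3_Jp {T η1 η2 : ℝ} (hT : 1 ≤ T) (h : η1 ≤ η2) (ρ : ℝ) :
    4 * ∫⁻ x in Set.Ioc (T ^ η1) (T ^ η2),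
      ENNReal.ofReal (Real.exp (-2 * π * (ρ * x) ^ 2 * Real.sin (1 / T))) =
    ENNReal.ofReal (Jp T η1 η2 ρ) := by
  have h1 : T ^ η1 ≤ T ^ η2 := Real.rpow_le_rpow_of_exponent_le hT h
  have hc : Continuous (fun x : ℝ => Real.exp (-2 * π * (ρ * x) ^ 2 * Real.sin (1 / T))) := by fun_prop
  unfold Jp
  rw [intervalIntegral.integral_const_mul, ENNReal.ofReal_mul (by norm_num), ENNReal.ofReal_ofNat,
    intervalIntegral.integral_of_le h1, ofReal_integral_eq_lintegral_ofReal]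
  · exact (hc.integrableOn_Icc).mono_set Set.Ioc_subset_Icc_self
  · exact Filter.Eventually.of_forall fun x => (Real.exp_pos _).le

theorem piece (κ : ℝ) (hκ : 0 < κ) (hκ1 : κ ≤ 1) : ∃ T0 : ℝ, ∀ (b : Bool) (T : ℝ) (β : ℕ → ℝ)
    (η1 η2 : ℝ), T0 ≤ T → e0 b ≤ η1 → η1 ≤ η2 → η2 ≤ 1 →
    ∫⁻ y in Set.Ioc (η1 * Real.log T) (η2 * Real.log T),
      ENNReal.ofReal (‖GG T (Fb b T) (wb β) y‖ ^ 2) ≤
    ENNReal.ofReal (1 + κ) * (∑' ρ : ℚ, if 0 < ρ then ENNReal.ofReal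
      (‖cs (M2 T) (Fb b T) (wb β) ρ‖ ^ 2 * Jp T η1 η2 ρ) else 0) +
    ENNReal.ofReal (T ^ (12 / 25 : ℝ) * BB (M2 T) (Fb b T) (wb β) 0 +
      (1 + 1 / κ) * (T ^ (-η1) * (∑ q ∈ Fb b T, ‖wa (-1 / 2) (wb β) q‖) ^ 2)) := by
  classical
  obtain ⟨K, hK1, hoff⟩ := off_sum4 (κ := 1 / 1200) (by norm_num) (by norm_num)
  refine ⟨max (Real.exp 1000) ((16 * K) ^ 200), ?_⟩
  intro b T β η1 η2 hT h0 h1 h2
  have hTe : Real.exp 1000 ≤ T := (le_max_left _ _).trans hT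
  have hTK : (16 * K) ^ 200 ≤ T := (le_max_right _ _).trans hT
  have hT0 : 0 < T := (Real.exp_pos _).trans_le hTe
  have hT1001 : 1001 ≤ T := by
    have := Real.add_one_le_exp (1000:ℝ)
    linarith
  have hT2 : 2 ≤ T := by linarith
  have hT1 : 1 ≤ T := by linarith
  have hx0 : 0 < T ^ η1 := Real.rpow_pos_of_pos hT0 _
  have hX : T ^ η1 ≤ T ^ η2 := Real.rpow_le_rpow_of_exponent_le hT1 h1
  have hsm := C3_smooth (b := b) hTe
  obtain ⟨M, hM⟩ : ∃ M, M = M2 T := ⟨_, rfl⟩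
  obtain ⟨F, hF⟩ : ∃ F, F = Fb b T := ⟨_, rfl⟩
  obtain ⟨w, hw⟩ : ∃ w, w = wb β := ⟨_, rfl⟩
  obtain ⟨A, hA⟩ : ∃ A, A = ∑ q ∈ Fb b T, ‖wa (-1 / 2) (wb β) q‖ := ⟨_, rfl⟩
  have hF0 : ∀ q ∈ F, q.1 ≠ 0 ∧ q.2 ≠ 0 := by
    intro q hq
    rw [hF] at hq
    exact ⟨Nat.ne_zero_of_mem_smoothNumbers (hsm q hq).1, Nat.ne_zero_of_mem_smoothNumbers (hsm q hq).2⟩
  have hBB : 0 ≤ BB M F w 0 := by
    unfold BB
    exact integral_nonneg fun v => by positivity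
  have he0 : -(9 / 20) ≤ η1 := by
    refine le_trans ?_ h0
    unfold e0
    split_ifs <;> norm_num
  -- the off-diagonal part
  have hKT : 16 * K ≤ T ^ (1 / 200 : ℝ) := by
    have hK0 : 0 ≤ 16 * K := by linarith
    have e1 : ((16 * K) ^ 200 : ℝ) ^ (1 / 200 : ℝ) = 16 * K := by
      have e2 : ((16 * K) ^ 200 : ℝ) = (16 * K) ^ (200 : ℝ) := by
        exact_mod_cast (Real.rpow_natCast (16 * K) 200).symm
      rw [e2, ← Real.rpow_mul hK0]
      norm_num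
    rw [← e1]
    exact Real.rpow_le_rpow (by positivity) hTK (by norm_num)
  obtain ⟨D, hD⟩ : ∃ D : ℕ, D = if b then 1 else ⌊T ^ (23 / 50 : ℝ)⌋₊ := ⟨_, rfl⟩
  have hfl : (1:ℕ) ≤ ⌊T ^ (23 / 50 : ℝ)⌋₊ := by
    rw [Nat.one_le_floor_iff]
    exact Real.one_le_rpow hT1 (by norm_num)
  have hfl2 : (⌊T ^ (23 / 50 : ℝ)⌋₊ : ℝ) ≤ T ^ (23 / 50 : ℝ) := Nat.floor_le (by positivity)
  have hD1 : 1 ≤ D := by
    rw [hD]
    split_ifs
    · exact le_rfl
    · exact hfl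
  have hDT : (D : ℝ) ≤ T := by
    rw [hD]
    split_ifs
    · simpa using hT1
    · refine hfl2.trans ?_
      have := Real.rpow_le_rpow_of_exponent_le hT1 (by norm_num : (23 / 50 : ℝ) ≤ 1)
      rwa [Real.rpow_one] at this
  have hFD : ∀ q ∈ F, q.2 ≤ D := by
    intro q hq
    rw [hF] at hq
    obtain ⟨n, hn, rfl⟩ := C3_Fb hq
    unfold GT at hn
    rw [Finset.mem_Icc] at hn
    rw [hD]
    unfold qs
    split_ifs
    · exact le_rfl
    · exact hn.2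
  have hDx : (D : ℝ) ^ 2 * T ^ (6 * (1 / 1200) : ℝ) / T ^ η1 ≤ T ^ (95 / 200 : ℝ) := by
    have e1 : (6 * (1 / 1200) : ℝ) = 1 / 200 := by norm_num
    rw [e1, div_le_iff₀ hx0, ← Real.rpow_add hT0]
    cases b with
    | true =>
      simp only [if_true] at hD
      rw [hD]
      simp only [Nat.cast_one, one_pow, one_mul]
      apply Real.rpow_le_rpow_of_exponent_le hT1
      linarith
    | false =>
      simp only [Bool.false_eq_true, if_false] at hD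
      have e2 : (D : ℝ) ^ 2 ≤ T ^ (184 / 200 : ℝ) := by
        rw [hD]
        have e3 := pow_le_pow_left₀ (by positivity) hfl2 2
        refine e3.trans (le_of_eq ?_)
        rw [← Real.rpow_natCast, ← Real.rpow_mul hT0.le]
        norm_num
      have e4 : e0 false = 9 / 20 := by simp [e0]
      rw [e4] at h0
      refine (mul_le_mul_of_nonneg_right e2 (by positivity)).trans ?_
      rw [← Real.rpow_add hT0]
      apply Real.rpow_le_rpow_of_exponent_le hT1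
      linarith
  have hTinv : T⁻¹ ≤ T ^ η1 := by
    rw [← Real.rpow_neg_one]
    exact Real.rpow_le_rpow_of_exponent_le hT1 (by linarith)
  have hoffb : K * (D : ℝ) ^ 2 * T ^ (6 * (1 / 1200) : ℝ) / T ^ η1 * BB M F w 0 ≤
      T ^ (12 / 25 : ℝ) * BB M F w 0 / 16 := by
    have e1 : K * (D : ℝ) ^ 2 * T ^ (6 * (1 / 1200) : ℝ) / T ^ η1 =
        K * ((D : ℝ) ^ 2 * T ^ (6 * (1 / 1200) : ℝ) / T ^ η1) := by ring
    rw [e1]
    have e2 : K * ((D : ℝ) ^ 2 * T ^ (6 * (1 / 1200) : ℝ) / T ^ η1) ≤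
        T ^ (1 / 200 : ℝ) / 16 * T ^ (95 / 200 : ℝ) :=
      mul_le_mul (by linarith) hDx (by positivity) (by positivity)
    have e3 : T ^ (1 / 200 : ℝ) / 16 * T ^ (95 / 200 : ℝ) = T ^ (12 / 25 : ℝ) / 16 := by
      have : T ^ (1 / 200 : ℝ) * T ^ (95 / 200 : ℝ) = T ^ (12 / 25 : ℝ) := by
        rw [← Real.rpow_add hT0]
        norm_num
      rw [← this]
      ring
    rw [e3] at e2
    have e4 := mul_le_mul_of_nonneg_right e2 hBB
    refine e4.trans (le_of_eq ?_)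
    ring
  have hbes := bessel (M := M) (F := F) (w := w) (η := 0) le_rfl (by norm_num)
    (by rw [hF, hM]; exact hsm)
  -- the mean square of the theta part
  have hdiag : 4 * ∫⁻ x in Set.Ioc (T ^ η1) (T ^ η2), ENNReal.ofReal (‖SS T F w x‖ ^ 2) ≤
      (∑' ρ : ℚ, if 0 < ρ then ENNReal.ofReal (‖cs M F w ρ‖ ^ 2 * Jp T η1 η2 ρ) else 0) +
        ENNReal.ofReal (T ^ (12 / 25 : ℝ) * BB M F w 0 / 2) := by
    have e0 := off_diag4 T (T ^ η1) (T ^ η2) M F w hT1 hx0 hX (by rw [hF, hM]; exact hsm)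
    refine (mul_le_mul_right e0 4).trans ?_
    rw [mul_add]
    have e1 := (hoff T (T ^ η1) M D F w hT2 hTinv hD1 hDT (by rw [hF, hM]; exact hsm) hFD).trans
      (ENNReal.ofReal_le_ofReal hoffb)
    have e2 : 4 * (∑' k : ℚ × ℕ, if Rough M k.2 then ENNReal.ofReal (‖cs M F w k.1‖ ^ 2) *
        ∫⁻ x in Set.Ioc (T ^ η1) (T ^ η2), ENNReal.ofReal
          (Real.exp (-2 * π * ((k.1 : ℝ) * k.2 * x) ^ 2 * Real.sin (1 / T))) else 0) ≤
        (∑' ρ : ℚ, if 0 < ρ then ENNReal.ofReal (‖cs M F w ρ‖ ^ 2 * Jp T η1 η2 ρ) else 0) +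
        ENNReal.ofReal (T ^ (12 / 25 : ℝ) * BB M F w 0 / 4) := by
      rw [ENNReal.tsum_prod (f := fun (ρ : ℚ) (r : ℕ) => if Rough M r then
        ENNReal.ofReal (‖cs M F w ρ‖ ^ 2) * ∫⁻ x in Set.Ioc (T ^ η1) (T ^ η2), ENNReal.ofReal
          (Real.exp (-2 * π * ((ρ : ℝ) * r * x) ^ 2 * Real.sin (1 / T))) else 0)]
      have e3 : ∀ ρ : ℚ, (∑' r : ℕ, (if Rough M r then
        ENNReal.ofReal (‖cs M F w ρ‖ ^ 2) * ∫⁻ x in Set.Ioc (T ^ η1) (T ^ η2), ENNReal.ofReal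
          (Real.exp (-2 * π * ((ρ : ℝ) * r * x) ^ 2 * Real.sin (1 / T))) else 0)) ≤
          ENNReal.ofReal (‖cs M F w ρ‖ ^ 2) * (∫⁻ x in Set.Ioc (T ^ η1) (T ^ η2),
            ENNReal.ofReal (Real.exp (-2 * π * ((ρ : ℝ) * x) ^ 2 * Real.sin (1 / T)))) +
          ENNReal.ofReal (134052 / T ^ 3) *
            ENNReal.ofReal (‖cs M F w ρ‖ ^ 2 * (ρ : ℝ) ^ (-1 + 0 : ℝ)) := by
        intro ρ
        rw [hM, hF, hw]
        exact C3_diag hTe β h0 ρ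
      refine (mul_le_mul_right (ENNReal.tsum_le_tsum e3) 4).trans ?_
      rw [ENNReal.tsum_add, mul_add, ENNReal.tsum_mul_left, ← ENNReal.tsum_mul_left]
      refine add_le_add ?_ ?_
      · refine ENNReal.tsum_le_tsum fun ρ => ?_
        by_cases hc0 : cs M F w ρ = 0
        · simp [hc0]
        · have hρ0 : 0 < ρ := (cs_pos (by rw [hF, hM]; exact hsm) hc0).1
          rw [if_pos hρ0, ENNReal.ofReal_mul (by positivity), ← C3_Jp hT1 h1 ρ]
          apply le_of_eq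
          ring
      · refine (mul_le_mul_right (mul_le_mul_right hbes _) 4).trans ?_
        have e4 : (4 : ENNReal) = ENNReal.ofReal 4 := by rw [ENNReal.ofReal_ofNat]
        rw [e4, ← ENNReal.ofReal_mul (by positivity), ← ENNReal.ofReal_mul (by norm_num)]
        apply ENNReal.ofReal_le_ofReal
        have e5 : 134052 / T ^ 3 ≤ 1 / 16 := by
          rw [div_le_div_iff₀ (by positivity) (by norm_num)]
          have e6 : (1001:ℝ) ^ 3 ≤ T ^ 3 := pow_le_pow_left₀ (by norm_num) hT1001 3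
          norm_num at e6
          linarith
        have e6 : (1:ℝ) ≤ T ^ (12 / 25 : ℝ) := Real.one_le_rpow hT1 (by norm_num)
        have e7 : 134052 / T ^ 3 * BB M F w 0 ≤ 1 / 16 * BB M F w 0 :=
          mul_le_mul_of_nonneg_right e5 hBB
        have e8 : 1 * BB M F w 0 ≤ T ^ (12 / 25 : ℝ) * BB M F w 0 :=
          mul_le_mul_of_nonneg_right e6 hBB
        linarith
    refine (add_le_add e2 (mul_le_mul_right e1 4)).trans ?_
    have e4 : (4 : ENNReal) = ENNReal.ofReal 4 := by rw [ENNReal.ofReal_ofNat]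
    rw [e4, ← ENNReal.ofReal_mul (by norm_num), add_assoc,
      ← ENNReal.ofReal_add (by positivity) (by positivity)]
    refine add_le_add le_rfl (ENNReal.ofReal_le_ofReal (le_of_eq ?_))
    ring
  -- the reduction
  have hκ2 : (0:ℝ) ≤ 1 + 1 / κ := by positivity
  have hpt : ∀ y : ℝ, ENNReal.ofReal (‖GG T F w y‖ ^ 2) ≤
      ENNReal.ofReal (1 + κ) * (4 * (ENNReal.ofReal (Real.exp y) *
        ENNReal.ofReal (‖SS T F w (Real.exp y)‖ ^ 2))) +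
        ENNReal.ofReal ((1 + 1 / κ) * A ^ 2) * ENNReal.ofReal (Real.exp (-y)) := by
    intro y
    have e1 := GG_sq_sharp (F := F) (w := w) (y := y) hT1 hκ hF0
    have e2 : (∑ q ∈ F, ‖wa (-1 / 2) w q‖) = A := by rw [hA, hF, hw]
    rw [e2] at e1
    calc ENNReal.ofReal (‖GG T F w y‖ ^ 2)
        ≤ ENNReal.ofReal ((1 + κ) * (4 * (Real.exp y * ‖SS T F w (Real.exp y)‖ ^ 2)) +
            (1 + 1 / κ) * A ^ 2 * Real.exp (-y)) :=
          ENNReal.ofReal_le_ofReal (e1.trans_eq (by ring))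
      _ = _ := by
          rw [ENNReal.ofReal_add (by positivity) (by positivity),
            ENNReal.ofReal_mul (p := 1 + κ) (by positivity), ENNReal.ofReal_mul (by norm_num),
            ENNReal.ofReal_mul (by positivity),
            ENNReal.ofReal_mul (p := (1 + 1 / κ) * A ^ 2) (by positivity),
            ENNReal.ofReal_ofNat]
  have hlog1 : η1 * Real.log T = Real.log (T ^ η1) := (Real.log_rpow hT0 _).symm
  have hlog2 : η2 * Real.log T = Real.log (T ^ η2) := (Real.log_rpow hT0 _).symm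
  rw [← hM, ← hF, ← hw] 
  have hAe : (∑ q ∈ F, ‖wa (-1 / 2) w q‖) = A := by rw [hA, hF, hw]
  rw [hAe]
  rw [hlog1, hlog2]
  refine (lintegral_mono hpt).trans ?_
  rw [lintegral_add_right _ (by fun_prop), lintegral_const_mul' _ _ ENNReal.ofReal_ne_top,
    lintegral_const_mul' _ _ (by norm_num),
    C3_subst hx0 (Real.rpow_pos_of_pos hT0 _) (fun x => ENNReal.ofReal (‖SS T F w x‖ ^ 2)),
    lintegral_const_mul' _ _ ENNReal.ofReal_ne_top]
  have hexp : (∫⁻ y in Set.Ioc (Real.log (T ^ η1)) (Real.log (T ^ η2)),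
      ENNReal.ofReal (Real.exp (-y))) ≤ ENNReal.ofReal (T ^ (-η1)) := by
    refine (lintegral_mono_set Set.Ioc_subset_Ioi_self).trans ?_
    rw [C3_exp_int, Real.exp_neg, Real.exp_log hx0, Real.rpow_neg hT0.le]
  refine (add_le_add (mul_le_mul_right hdiag _) (mul_le_mul_right hexp _)).trans ?_
  rw [mul_add, add_assoc]
  refine add_le_add le_rfl ?_
  rw [← ENNReal.ofReal_mul (by positivity), ← ENNReal.ofReal_mul (by positivity),
    ← ENNReal.ofReal_add (by positivity) (by positivity)]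
  apply ENNReal.ofReal_le_ofReal
  have e1 : 0 ≤ T ^ (12 / 25 : ℝ) * BB M F w 0 := by positivity
  have e2 : (1 + κ) * (T ^ (12 / 25 : ℝ) * BB M F w 0 / 2) ≤ T ^ (12 / 25 : ℝ) * BB M F w 0 := by
    nlinarith
  have e3 : (1 + 1 / κ) * A ^ 2 * T ^ (-η1) = (1 + 1 / κ) * (T ^ (-η1) * A ^ 2) := by ring
  rw [e3]
  linarith

end Pool.Agent.LB
end
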