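import Pool.Agent.Lib.MP_69b2e4_nt.LB.F1
import Pool.Agent.Lib.MP_69b2e4_nt.LB.Defs
import Pool.Agent.Lib.MP_69b2e4_nt.Mg.G040

section

/-! TASK F2. The cut-off functions as superpositions of exponentials, all moments. COPY UV/F1.lean (`fourier_kernel4`): let `G(u) = e^{s0 u} smoothTransition(u+1) u^i Pf u`: smooth, supported in `[-1, 9/20]`, and `u^i Pf u = e^{-s0 u} G(u)` for `u ≥ 0`. `φ = 𝓕 G` is a Schwartz function: all moments are finite, and `G(u) = ∫ φ(ξ) e^{2πiuξ} dξ`. -/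

set_option autoImplicit false

namespace Pool.Agent.LB

open Complex MeasureTheory Finset Pool.Agent.GH Pool.Agent.UH Pool.Agent.UV
open scoped Real ComplexConjugate ContDiff

/-- the smooth function with compact support -/
private noncomputable def F2_G (P : ℝ → ℝ) (s0 : ℝ) (u : ℝ) : ℂ :=
  ((Real.exp (s0 * u) * (Real.smoothTransition (u + 1) * P u) : ℝ) : ℂ)

private lemma F2_contDiff {P : ℝ → ℝ} (hP : ContDiff ℝ ∞ P) (s0 : ℝ) : ContDiff ℝ ∞ (F2_G P s0) := by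
  have h1 : ContDiff ℝ ∞ (fun u : ℝ => Real.exp (s0 * u) *
      (Real.smoothTransition (u + 1) * P u)) := by
    refine ContDiff.mul ?_ (ContDiff.mul ?_ hP)
    · exact Real.contDiff_exp.comp (contDiff_const.mul contDiff_id)
    · exact Real.smoothTransition.contDiff.comp (contDiff_id.add contDiff_const)
  exact Complex.ofRealCLM.contDiff.comp h1

private lemma F2_supp {P : ℝ → ℝ} (h0 : ∀ x : ℝ, 9 / 20 ≤ x → P x = 0) (s0 : ℝ) :
    HasCompactSupport (F2_G P s0) := by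
  refine HasCompactSupport.intro (K := Set.Icc (-1) 1) isCompact_Icc ?_
  intro u hu
  rw [Set.mem_Icc, not_and_or, not_le, not_le] at hu
  unfold F2_G
  rcases hu with hu | hu
  · rw [Real.smoothTransition.zero_of_nonpos (by linarith : u + 1 ≤ 0)]
    simp
  · rw [h0 u (by linarith)]
    simp

open scoped FourierTransform SchwartzMap in
private theorem F2_gen {P : ℝ → ℝ} (hP : ContDiff ℝ ∞ P) (h0 : ∀ x : ℝ, 9 / 20 ≤ x → P x = 0) (s0 : ℝ) :
    ∃ φ : ℝ → ℂ, Continuous φ ∧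
    (∀ m : ℕ, Integrable (fun ξ : ℝ => (1 + |ξ|) ^ m * ‖φ ξ‖)) ∧
    ∀ u : ℝ, 0 ≤ u → ((P u : ℝ) : ℂ) =
      (Real.exp (-(s0 * u)) : ℂ) * ∫ ξ : ℝ, φ ξ * cexp (2 * π * u * ξ * I) := by
  set S : 𝓢(ℝ, ℂ) := (F2_supp h0 s0).toSchwartzMap (F2_contDiff hP s0) with hS
  have hSc : (S : ℝ → ℂ) = F2_G P s0 := rfl
  have hF : ((𝓕 S : 𝓢(ℝ, ℂ)) : ℝ → ℂ) = 𝓕 (F2_G P s0) := by
    rw [SchwartzMap.fourier_coe, hSc]
  refine ⟨𝓕 (F2_G P s0), ?_, ?_, ?_⟩
  · rw [← hF]; exact (𝓕 S).continuous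
  · intro m
    rw [← hF]
    have h1 : ∀ k : ℕ, Integrable (fun ξ : ℝ => ‖ξ‖ ^ k * ‖(𝓕 S) ξ‖) := fun k =>
      (𝓕 S).integrable_pow_mul volume k
    have h2 : (fun ξ : ℝ => (1 + |ξ|) ^ m * ‖(𝓕 S) ξ‖) =
        fun ξ : ℝ => ∑ k ∈ range (m + 1), ((Nat.choose m k : ℕ) : ℝ) * (‖ξ‖ ^ k * ‖(𝓕 S) ξ‖) := by
      funext ξ
      rw [add_comm 1 |ξ|, add_pow, Finset.sum_mul]
      refine Finset.sum_congr rfl fun k _ => ?_
      rw [Real.norm_eq_abs]
      ring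
    rw [h2]
    exact integrable_finsetSum _ fun k _ => (h1 k).const_mul _
  · intro u hu
    have hint : Integrable (𝓕 (F2_G P s0)) := by rw [← hF]; exact (𝓕 S).integrable
    have hint0 : Integrable (F2_G P s0) := by rw [← hSc]; exact S.integrable
    have hinv := Continuous.fourierInv_fourier_eq (h := (F2_contDiff hP s0).continuous) hint0 hint
    have h3 : F2_G P s0 u = ∫ ξ : ℝ, 𝓕 (F2_G P s0) ξ * cexp (2 * π * u * ξ * I) := by
      have h4 := congrFun hinv u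
      rw [← h4, Real.fourierInv_eq']
      refine integral_congr_ae (Filter.Eventually.of_forall fun ξ => ?_)
      simp only [smul_eq_mul, RCLike.inner_apply, conj_trivial]
      rw [mul_comm]
      congr 2
      push_cast
      ring
    rw [← h3]
    unfold F2_G
    rw [Real.smoothTransition.one_of_one_le (by linarith : 1 ≤ u + 1)]
    rw [← Complex.ofReal_mul, ← mul_assoc, ← Real.exp_add]
    simp

theorem fourier_kernel5 (i : ℕ) (s0 : ℝ) : ∃ φ : ℝ → ℂ, Continuous φ ∧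
    (∀ m : ℕ, Integrable (fun ξ : ℝ => (1 + |ξ|) ^ m * ‖φ ξ‖)) ∧
    ∀ u : ℝ, 0 ≤ u → ((u ^ i * Pf u : ℝ) : ℂ) =
      (Real.exp (-(s0 * u)) : ℂ) * ∫ ξ : ℝ, φ ξ * cexp (2 * π * u * ξ * I) := by
  refine F2_gen (P := fun u : ℝ => u ^ i * Pf u) ((contDiff_id.pow i).mul Pf_contDiff) ?_ s0
  intro x hx
  rw [Pf_zero hx, mul_zero]

/-- The same for `pf c d`. (Linear combination of the cases `i = 0, 1`.) -/
theorem fourier_kernel_pf (c d s0 : ℝ) : ∃ φ : ℝ → ℂ, Continuous φ ∧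
    (∀ m : ℕ, Integrable (fun ξ : ℝ => (1 + |ξ|) ^ m * ‖φ ξ‖)) ∧
    ∀ u : ℝ, 0 ≤ u → ((pf c d u : ℝ) : ℂ) =
      (Real.exp (-(s0 * u)) : ℂ) * ∫ ξ : ℝ, φ ξ * cexp (2 * π * u * ξ * I) := by
  refine F2_gen (P := pf c d) (pf_contDiff c d) ?_ s0
  intro x hx
  unfold pf
  rw [Pf_zero hx]
  ring

end Pool.Agent.LB
end

section

/-! TASK L1. Parseval for the coefficients. `bessel` (GH/Bessel.lean) proves `≤` for `0 ≤ η ≤ 1/4`; here equality for every `η ≤ 1/4`, also negative.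
`σ = 1/2 - η/2 > 0`. `Z(v) = ∑_{l smooth} l^{-σ} XX v l` absolutely convergent, uniformly in `v` (see `Bessel_Z`). So `Φ(v) = Z(v) ∑_q wa (η/2) w q XX q1 conj(XX q2) = ∑_{(l,q)} l^{-σ} wa (η/2) w q XX (l q1) conj(XX q2)`, an absolutely convergent (uniformly) double series, and `∫ ‖Φ‖² = ∑_{(l,q),(l',q')} .. ∫ XX(l q1 q2') conj(XX (l' q1' q2))` (Fubini for absolutely convergent sums)
 `= ∑ over pairs with l q1 q2' = l' q1' q2`, i.e. `l q1/q2 = l' q1'/q2' = ρ`: `= ∑_ρ |∑_{(l,q): l q1/q2 = ρ} l^{-σ} wa (η/2) w q|²`, and `l^{-σ} (q1/q2)^{η/2} = ρ^{-1/2+η/2} (q1/q2)^{1/2}`: `= ∑_ρ ρ^{-1+η} ‖cs M F w ρ‖²`.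
(Alternatively: Bessel gives `≤`; equality holds because `Φ` is the uniform limit of finite combinations of the orthonormal functions `e_ρ`.) `laplace`: for every `ρ` `cs M F w ρ = fcs F w ρ` for all large `M` (finitely many `l`), `‖cs M F w ρ‖, ‖fcs F w ρ‖ ≤ D(ρ) := ∑_q [∃ l ≠ 0, l q1 = ρ q2] ‖wa (1/2) w q‖`, and `∑_ρ D(ρ)² ρ^{-1+η} ≤ C ∑_q ∑_l (l q1/q2)^{-1+η} < ∞` for `η < 0` (`D(ρ)` is bounded, and `D(ρ) ≠ 0` only for `ρ = l q1/q2`); dominated convergence for sums (`tendsto_tsum_of_dominated_convergence`). -/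

set_option autoImplicit false

namespace Pool.Agent.LB

open Complex MeasureTheory Finset Pool.Agent.GH Pool.Agent.UH Pool.Agent.UV
open scoped Real ComplexConjugate

open Classical in
private theorem L1_Z {M : ℕ} {σ : ℝ} (hσ : 0 < σ) {A B : ℕ} (hA : A ≠ 0) (hB : B ≠ 0) :
    ∫ v, Zt (Nat.primesBelow M) σ v * (XX v A * conj (XX v B)) ∂mu =
      if ∃ l ∈ Nat.smoothNumbers M, l * A = B then ((((B : ℝ) / A) ^ (-σ) : ℝ) : ℂ) else 0 := by
  -- the completely multiplicative function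
  have hfn : ∀ (v : Om) (n : ℕ), n ≠ 0 → (nC (σ : ℂ) * XX v) n = (((n : ℝ) ^ (-σ) : ℝ) : ℂ) * XX v n := by
    intro v n hn
    change nC (σ : ℂ) n * XX v n = _
    rw [nC_apply _ hn, Complex.ofReal_cpow (Nat.cast_nonneg n)]
    push_cast
    rfl
  have hnorm : ∀ (v : Om) (n : ℕ), n ≠ 0 → ‖(nC (σ : ℂ) * XX v) n‖ = (n : ℝ) ^ (-σ) := by
    intro v n hn
    rw [hfn v n hn, norm_mul, norm_XX v hn, mul_one, Complex.norm_real,
      Real.norm_of_nonneg (by positivity)]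
  have hlt : ∀ (v : Om) {p : ℕ}, p.Prime → ‖(nC (σ : ℂ) * XX v) p‖ < 1 := by
    intro v p hp
    rw [hnorm v p hp.ne_zero]
    exact rpow_neg_lt_one hp.two_le hσ
  have hEP : ∀ v : Om, Summable (fun m : Nat.smoothNumbers M => ‖(nC (σ : ℂ) * XX v) m‖) ∧
      HasSum (fun m : Nat.smoothNumbers M => (nC (σ : ℂ) * XX v) m)
        (∏ p ∈ Nat.primesBelow M, (1 - (nC (σ : ℂ) * XX v) p)⁻¹) := fun v =>
    EulerProduct.summable_and_hasSum_smoothNumbers_prod_primesBelow_geometric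
      (f := (nC (σ : ℂ) * XX v).toMonoidHom) (fun {p} hp => hlt v hp) M
  have hZ : ∀ v : Om, Zt (Nat.primesBelow M) σ v = ∑' m : Nat.smoothNumbers M, (nC (σ : ℂ) * XX v) m := by
    intro v
    rw [(hEP v).2.tsum_eq]
    unfold Zt
    refine Finset.prod_congr rfl fun p hp => ?_
    have hpp : p.Prime := Nat.prime_of_mem_primesBelow hp
    rw [hfn v p hpp.ne_zero, XX_prime v hpp]
  have hsum0 : Summable fun m : Nat.smoothNumbers M => ((m : ℕ) : ℝ) ^ (-σ) := by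
    obtain ⟨v⟩ : Nonempty Om := ⟨fun _ => 0⟩
    refine (hEP v).1.congr fun m => ?_
    exact hnorm v m (Nat.ne_zero_of_mem_smoothNumbers m.2)
  -- the terms
  have hterm : ∀ (m : Nat.smoothNumbers M) (v : Om),
      (nC (σ : ℂ) * XX v) m * (XX v A * conj (XX v B)) =
      ((((m : ℕ) : ℝ) ^ (-σ) : ℝ) : ℂ) * (XX v ((m : ℕ) * A) * conj (XX v B)) := by
    intro m v
    rw [hfn v m (Nat.ne_zero_of_mem_smoothNumbers m.2), map_mul]
    ring
  have hcont : ∀ m : Nat.smoothNumbers M,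
      Continuous fun v => (nC (σ : ℂ) * XX v) m * (XX v A * conj (XX v B)) := by
    intro m
    have : (fun v => (nC (σ : ℂ) * XX v) m * (XX v A * conj (XX v B))) = fun v =>
      ((((m : ℕ) : ℝ) ^ (-σ) : ℝ) : ℂ) * (XX v ((m : ℕ) * A) * conj (XX v B)) := by
      funext v; exact hterm m v
    rw [this]
    exact continuous_const.mul ((continuous_XX _).mul
      (Complex.continuous_conj.comp (continuous_XX _)))
  have hint : ∀ m : Nat.smoothNumbers M,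
      Integrable (fun v => (nC (σ : ℂ) * XX v) m * (XX v A * conj (XX v B))) mu :=
    fun m => integrable_of_continuous (hcont m)
  have hnt : ∀ (m : Nat.smoothNumbers M) (v : Om),
      ‖(nC (σ : ℂ) * XX v) m * (XX v A * conj (XX v B))‖ = ((m : ℕ) : ℝ) ^ (-σ) := by
    intro m v
    rw [norm_mul, norm_mul, hnorm v m (Nat.ne_zero_of_mem_smoothNumbers m.2), norm_XX v hA,
      RCLike.norm_conj, norm_XX v hB, mul_one, mul_one]
  have hsum1 : Summable fun m : Nat.smoothNumbers M =>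
      ∫ v, ‖(nC (σ : ℂ) * XX v) m * (XX v A * conj (XX v B))‖ ∂mu := by
    refine hsum0.congr fun m => ?_
    simp_rw [hnt m]
    simp
  have hHS := hasSum_integral_of_summable_integral_norm hint hsum1
  have hL : ∫ v, Zt (Nat.primesBelow M) σ v * (XX v A * conj (XX v B)) ∂mu =
      ∫ v, ∑' m : Nat.smoothNumbers M, (nC (σ : ℂ) * XX v) m * (XX v A * conj (XX v B)) ∂mu := by
    refine integral_congr_ae (Filter.Eventually.of_forall fun v => ?_)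
    show Zt (Nat.primesBelow M) σ v * (XX v A * conj (XX v B)) = _
    rw [hZ v]
    exact tsum_mul_right.symm
  rw [hL, ← hHS.tsum_eq]
  have hval : ∀ m : Nat.smoothNumbers M,
      ∫ v, (nC (σ : ℂ) * XX v) m * (XX v A * conj (XX v B)) ∂mu =
      if (m : ℕ) * A = B then ((((m : ℕ) : ℝ) ^ (-σ) : ℝ) : ℂ) else 0 := by
    intro m
    simp_rw [hterm m]
    rw [integral_const_mul, orth (mul_ne_zero (Nat.ne_zero_of_mem_smoothNumbers m.2) hA) hB]
    split_ifs <;> simp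
  simp_rw [hval]
  split_ifs with h
  · obtain ⟨l, hl, hlAB⟩ := h
    rw [tsum_eq_single (⟨l, hl⟩ : Nat.smoothNumbers M)]
    · rw [if_pos hlAB]
      congr 2
      rw [← hlAB]
      have : (A : ℝ) ≠ 0 := by exact_mod_cast hA
      push_cast
      field_simp
    · intro m hm
      rw [if_neg]
      intro h2
      apply hm
      apply Subtype.ext
      exact Nat.eq_of_mul_eq_mul_right (Nat.pos_of_ne_zero hA) (h2.trans hlAB.symm)
  · have : ∀ m : Nat.smoothNumbers M, (if (m : ℕ) * A = B then ((((m : ℕ) : ℝ) ^ (-σ) : ℝ) : ℂ) else 0) = 0 := by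
      intro m
      rw [if_neg]
      intro h2
      exact h ⟨m, m.2, h2⟩
    simp_rw [this]
    simp

/-- the character of a positive rational number -/
private noncomputable def L1_e (ρ : ℚ) (v : Om) : ℂ := XX v ρ.num.natAbs * conj (XX v ρ.den)

private theorem L1_num {ρ : ℚ} (hρ : 0 < ρ) : ρ.num.natAbs ≠ 0 ∧ (ρ.num.natAbs : ℚ) = ρ * ρ.den := by
  have h1 : 0 < ρ.num := Rat.num_pos.2 hρ
  refine ⟨by omega, ?_⟩
  rw [Rat.mul_den_eq_num]
  have h : ((ρ.num.natAbs : ℤ) : ℚ) = (ρ.num : ℚ) := by rw [Int.natAbs_of_nonneg h1.le]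
  rw [← h, Int.cast_natCast]

private theorem L1_cont (ρ : ℚ) : Continuous (L1_e ρ) := by
  unfold L1_e
  exact (continuous_XX _).mul (Complex.continuous_conj.comp (continuous_XX _))

private theorem L1_orth {ρ ρ' : ℚ} (hρ : 0 < ρ) (hρ' : 0 < ρ') :
    ∫ v, L1_e ρ v * conj (L1_e ρ' v) ∂mu = if ρ = ρ' then 1 else 0 := by
  obtain ⟨h1, h2⟩ := L1_num hρ
  obtain ⟨h3, h4⟩ := L1_num hρ'
  have e1 : ∀ v, L1_e ρ v * conj (L1_e ρ' v) =
      XX v (ρ.num.natAbs * ρ'.den) * conj (XX v (ρ'.num.natAbs * ρ.den)) := by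
    intro v
    unfold L1_e
    simp only [map_mul, Complex.conj_conj]
    ring
  simp_rw [e1]
  rw [orth (mul_ne_zero h1 ρ'.den_nz) (mul_ne_zero h3 ρ.den_nz)]
  have hd : (ρ.den : ℚ) ≠ 0 := by exact_mod_cast ρ.den_nz
  have hd' : (ρ'.den : ℚ) ≠ 0 := by exact_mod_cast ρ'.den_nz
  by_cases h : ρ = ρ'
  · subst h
    rw [if_pos rfl, if_pos rfl]
  · rw [if_neg h, if_neg]
    intro h5
    have h6 : ((ρ.num.natAbs * ρ'.den : ℕ) : ℚ) = ((ρ'.num.natAbs * ρ.den : ℕ) : ℚ) := by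
      exact_mod_cast h5
    push_cast at h6
    rw [h2, h4] at h6
    apply h
    have h7 : (ρ - ρ') * (ρ.den * ρ'.den) = 0 := by linear_combination h6
    rcases mul_eq_zero.1 h7 with h8 | h8
    · linarith
    · exact absurd h8 (mul_ne_zero hd hd')

/-- the function `Φ` -/
private noncomputable def L1_P (M : ℕ) (F : Finset (ℕ × ℕ)) (w : ℕ × ℕ → ℂ) (η : ℝ) (v : Om) : ℂ :=
  Zt (Nat.primesBelow M) (1 / 2 - η / 2) v * ∑ q ∈ F, wa (η / 2) w q * XX v q.1 * conj (XX v q.2)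

private theorem L1_Pcont (M : ℕ) (F : Finset (ℕ × ℕ)) (w : ℕ × ℕ → ℂ) {η : ℝ} (h1 : η ≤ 1 / 4) :
    Continuous (L1_P M F w η) := by
  unfold L1_P
  refine (continuous_Zt _ (fun p hp => Nat.prime_of_mem_primesBelow hp) (by linarith)).mul ?_
  refine continuous_finsetSum _ fun q _ => ?_
  exact (continuous_const.mul (continuous_XX _)).mul (Complex.continuous_conj.comp (continuous_XX _))

private theorem L1_coef {M : ℕ} {F : Finset (ℕ × ℕ)} {w : ℕ × ℕ → ℂ} {η : ℝ} (h1 : η ≤ 1 / 4)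
    (hF : ∀ q ∈ F, q.1 ∈ Nat.smoothNumbers M ∧ q.2 ∈ Nat.smoothNumbers M) {ρ : ℚ} (hρ : 0 < ρ) :
    ∫ v, L1_P M F w η v * conj (L1_e ρ v) ∂mu =
      (((ρ : ℝ) ^ (-(1 / 2 - η / 2)) : ℝ) : ℂ) * cs M F w ρ := by
  classical
  obtain ⟨ha, hab⟩ := L1_num hρ
  have hb : ρ.den ≠ 0 := ρ.den_nz
  have hbQ : (ρ.den : ℚ) ≠ 0 := by exact_mod_cast hb
  have hσ : 0 < 1 / 2 - η / 2 := by linarith
  have e1 : ∀ v, L1_P M F w η v * conj (L1_e ρ v) =
      ∑ q ∈ F, wa (η / 2) w q * (Zt (Nat.primesBelow M) (1 / 2 - η / 2) v *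
        (XX v (q.1 * ρ.den) * conj (XX v (q.2 * ρ.num.natAbs)))) := by
    intro v
    unfold L1_P L1_e
    rw [Finset.mul_sum, Finset.sum_mul]
    refine Finset.sum_congr rfl fun q _ => ?_
    simp only [map_mul, Complex.conj_conj]
    ring
  simp_rw [e1]
  rw [integral_finsetSum]
  · unfold cs
    rw [Finset.mul_sum]
    refine Finset.sum_congr rfl fun q hq => ?_
    have hq1 : q.1 ≠ 0 := Nat.ne_zero_of_mem_smoothNumbers (hF q hq).1
    have hq2 : q.2 ≠ 0 := Nat.ne_zero_of_mem_smoothNumbers (hF q hq).2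
    rw [integral_const_mul, L1_Z hσ (mul_ne_zero hq1 hb) (mul_ne_zero hq2 ha)]
    have hiff : (∃ l ∈ Nat.smoothNumbers M, l * (q.1 * ρ.den) = q.2 * ρ.num.natAbs) ↔
        ∃ l ∈ Nat.smoothNumbers M, (l : ℚ) * q.1 = ρ * q.2 := by
      constructor
      · rintro ⟨l, hl, h⟩
        refine ⟨l, hl, ?_⟩
        have h2 : ((l * (q.1 * ρ.den) : ℕ) : ℚ) = ((q.2 * ρ.num.natAbs : ℕ) : ℚ) := by rw [h]
        push_cast at h2
        rw [hab] at h2
        have h3 : ((l : ℚ) * q.1) * ρ.den = (ρ * q.2) * ρ.den := by linear_combination h2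
        exact mul_right_cancel₀ hbQ h3
      · rintro ⟨l, hl, h⟩
        refine ⟨l, hl, ?_⟩
        have h2 : ((l * (q.1 * ρ.den) : ℕ) : ℚ) = ((q.2 * ρ.num.natAbs : ℕ) : ℚ) := by
          push_cast
          rw [hab]
          linear_combination ρ.den * h
        exact_mod_cast h2
    simp only [hiff]
    split_ifs with h
    · unfold wa
      have hq1R : (0 : ℝ) < q.1 := by exact_mod_cast Nat.pos_of_ne_zero hq1
      have hq2R : (0 : ℝ) < q.2 := by exact_mod_cast Nat.pos_of_ne_zero hq2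
      have hbR : (0 : ℝ) < ρ.den := by exact_mod_cast Nat.pos_of_ne_zero hb
      have hρR : (0 : ℝ) < ρ := by exact_mod_cast hρ
      have haR : (ρ.num.natAbs : ℝ) = ρ * ρ.den := by exact_mod_cast hab
      have h3 : (((q.2 * ρ.num.natAbs : ℕ) : ℝ) / ((q.1 * ρ.den : ℕ) : ℝ)) = ρ / (q.1 / q.2) := by
        push_cast
        rw [haR]
        field_simp
      rw [h3]
      have hrr : (0 : ℝ) < (q.1 : ℝ) / q.2 := by positivity
      have h4 : (((q.1 : ℝ) / q.2) ^ (η / 2)) * (((ρ : ℝ) / (q.1 / q.2)) ^ (-(1 / 2 - η / 2))) =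
          (ρ : ℝ) ^ (-(1 / 2 - η / 2)) * ((q.1 : ℝ) / q.2) ^ (1 / 2 : ℝ) := by
        rw [Real.div_rpow hρR.le hrr.le, mul_comm, div_mul_eq_mul_div, mul_div_assoc,
          ← Real.rpow_sub hrr]
        congr 2
        ring
      have h5 := congrArg (fun x : ℝ => (x : ℂ)) h4
      simp only [Complex.ofReal_mul] at h5
      linear_combination w q * h5
    · simp
  · intro q _
    refine integrable_of_continuous (continuous_const.mul ?_)
    refine (continuous_Zt _ (fun p hp => Nat.prime_of_mem_primesBelow hp) hσ).mul ?_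
    exact (continuous_XX _).mul (Complex.continuous_conj.comp (continuous_XX _))


/-- the distance to a finite combination of characters -/
private theorem L1_dist {Φ : Om → ℂ} (hΦ : Continuous Φ) (K : Finset ℚ) (hK : ∀ ρ ∈ K, 0 < ρ)
    (c d : ℚ → ℂ) (hc : ∀ ρ ∈ K, ∫ v, Φ v * conj (L1_e ρ v) ∂mu = c ρ) :
    ∫ v, ‖Φ v - ∑ ρ ∈ K, d ρ * L1_e ρ v‖ ^ 2 ∂mu =
      ∫ v, ‖Φ v‖ ^ 2 ∂mu - ∑ ρ ∈ K, ‖c ρ‖ ^ 2 + ∑ ρ ∈ K, ‖c ρ - d ρ‖ ^ 2 := by
  classical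
  obtain ⟨S, hS⟩ : ∃ S : Om → ℂ, S = fun v => ∑ ρ ∈ K, d ρ * L1_e ρ v := ⟨_, rfl⟩
  have hScont : Continuous S := by
    rw [hS]
    exact continuous_finsetSum _ fun ρ _ => continuous_const.mul (L1_cont ρ)
  have hcj : ∀ {f : Om → ℂ}, Continuous f → Continuous fun v => conj (f v) := fun hf =>
    Complex.continuous_conj.comp hf
  have i1 : ∫ v, Φ v * conj (S v) ∂mu = ∑ ρ ∈ K, conj (d ρ) * c ρ := by
    have : ∀ v, Φ v * conj (S v) = ∑ ρ ∈ K, conj (d ρ) * (Φ v * conj (L1_e ρ v)) := by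
      intro v
      rw [hS]
      simp only [map_sum, map_mul, Finset.mul_sum]
      refine Finset.sum_congr rfl fun ρ _ => ?_
      ring
    simp_rw [this]
    rw [integral_finsetSum]
    · refine Finset.sum_congr rfl fun ρ hρ => ?_
      rw [integral_const_mul, hc ρ hρ]
    · intro ρ _
      exact integrable_of_continuous (continuous_const.mul (hΦ.mul (hcj (L1_cont ρ))))
  have i2 : ∫ v, S v * conj (S v) ∂mu = ∑ ρ ∈ K, d ρ * conj (d ρ) := by
    have : ∀ v, S v * conj (S v) = ∑ ρ ∈ K, ∑ ρ' ∈ K,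
        (d ρ * conj (d ρ')) * (L1_e ρ v * conj (L1_e ρ' v)) := by
      intro v
      rw [hS]
      simp only [map_sum, map_mul, Finset.sum_mul_sum]
      refine Finset.sum_congr rfl fun ρ _ => Finset.sum_congr rfl fun ρ' _ => ?_
      ring
    simp_rw [this]
    rw [integral_finsetSum]
    · refine Finset.sum_congr rfl fun ρ hρ => ?_
      rw [integral_finsetSum]
      · have : ∀ ρ' ∈ K, ∫ v, (d ρ * conj (d ρ')) * (L1_e ρ v * conj (L1_e ρ' v)) ∂mu =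
            if ρ = ρ' then d ρ * conj (d ρ') else 0 := by
          intro ρ' hρ'
          rw [integral_const_mul, L1_orth (hK ρ hρ) (hK ρ' hρ')]
          split_ifs <;> simp
        rw [Finset.sum_congr rfl this, Finset.sum_ite_eq, if_pos hρ]
      · intro ρ' _
        exact integrable_of_continuous (continuous_const.mul
          ((L1_cont ρ).mul (hcj (L1_cont ρ'))))
    · intro ρ _
      refine integrable_finsetSum _ fun ρ' _ => ?_
      exact integrable_of_continuous (continuous_const.mul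
          ((L1_cont ρ).mul (hcj (L1_cont ρ'))))
  have i3 : ∫ v, S v * conj (Φ v) ∂mu = ∑ ρ ∈ K, d ρ * conj (c ρ) := by
    have h1 : ∀ v, S v * conj (Φ v) = conj (Φ v * conj (S v)) := by
      intro v
      rw [map_mul, Complex.conj_conj, mul_comm]
    simp_rw [h1]
    rw [integral_conj, i1, map_sum]
    refine Finset.sum_congr rfl fun ρ _ => ?_
    rw [map_mul, Complex.conj_conj]
  have i4 : ∫ v, Φ v * conj (Φ v) ∂mu = ((∫ v, ‖Φ v‖ ^ 2 ∂mu : ℝ) : ℂ) := by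
    rw [← integral_complex_ofReal]
    refine integral_congr_ae (Filter.Eventually.of_forall fun v => ?_)
    show Φ v * conj (Φ v) = ((‖Φ v‖ ^ 2 : ℝ) : ℂ)
    rw [Complex.mul_conj, Complex.normSq_eq_norm_sq]
  have i5 : ∫ v, (Φ v - S v) * conj (Φ v - S v) ∂mu = ((∫ v, ‖Φ v - S v‖ ^ 2 ∂mu : ℝ) : ℂ) := by
    rw [← integral_complex_ofReal]
    refine integral_congr_ae (Filter.Eventually.of_forall fun v => ?_)
    show (Φ v - S v) * conj (Φ v - S v) = ((‖Φ v - S v‖ ^ 2 : ℝ) : ℂ)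
    rw [Complex.mul_conj, Complex.normSq_eq_norm_sq]
  have g1 : Integrable (fun v => Φ v * conj (Φ v)) mu := integrable_of_continuous (hΦ.mul (hcj hΦ))
  have g2 : Integrable (fun v => Φ v * conj (S v)) mu :=
    integrable_of_continuous (hΦ.mul (hcj hScont))
  have g3 : Integrable (fun v => S v * conj (Φ v)) mu :=
    integrable_of_continuous (hScont.mul (hcj hΦ))
  have g4 : Integrable (fun v => S v * conj (S v)) mu :=
    integrable_of_continuous (hScont.mul (hcj hScont))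
  have i6 : ∫ v, (Φ v - S v) * conj (Φ v - S v) ∂mu =
      ∫ v, Φ v * conj (Φ v) ∂mu - ∫ v, Φ v * conj (S v) ∂mu - ∫ v, S v * conj (Φ v) ∂mu +
        ∫ v, S v * conj (S v) ∂mu := by
    have g12 : Integrable (fun v => Φ v * conj (Φ v) - Φ v * conj (S v)) mu := g1.sub g2
    have g123 : Integrable (fun v => Φ v * conj (Φ v) - Φ v * conj (S v) - S v * conj (Φ v)) mu :=
      g12.sub g3
    rw [← integral_sub g1 g2, ← integral_sub g12 g3, ← integral_add g123 g4]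
    refine integral_congr_ae (Filter.Eventually.of_forall fun v => ?_)
    simp only [map_sub]
    ring
  rw [i5, i4, i1, i3, i2] at i6
  have i7 : ((∫ v, ‖Φ v - S v‖ ^ 2 ∂mu : ℝ) : ℂ) =
      ((∫ v, ‖Φ v‖ ^ 2 ∂mu - ∑ ρ ∈ K, ‖c ρ‖ ^ 2 + ∑ ρ ∈ K, ‖c ρ - d ρ‖ ^ 2 : ℝ) : ℂ) := by
    rw [i6]
    have h1 : ((∑ ρ ∈ K, ‖c ρ‖ ^ 2 : ℝ) : ℂ) = ∑ ρ ∈ K, c ρ * conj (c ρ) := by
      push_cast
      refine Finset.sum_congr rfl fun ρ _ => ?_
      rw [Complex.mul_conj']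
    have h2 : ((∑ ρ ∈ K, ‖c ρ - d ρ‖ ^ 2 : ℝ) : ℂ) = ∑ ρ ∈ K, (c ρ - d ρ) * conj (c ρ - d ρ) := by
      push_cast
      refine Finset.sum_congr rfl fun ρ _ => ?_
      rw [Complex.mul_conj']
    rw [Complex.ofReal_add, Complex.ofReal_sub, h1, h2]
    have h3 : ∑ ρ ∈ K, (c ρ - d ρ) * conj (c ρ - d ρ) = ∑ ρ ∈ K, c ρ * conj (c ρ) -
        ∑ ρ ∈ K, conj (d ρ) * c ρ - ∑ ρ ∈ K, d ρ * conj (c ρ) + ∑ ρ ∈ K, d ρ * conj (d ρ) := by
      rw [← Finset.sum_sub_distrib, ← Finset.sum_sub_distrib, ← Finset.sum_add_distrib]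
      refine Finset.sum_congr rfl fun ρ _ => ?_
      rw [map_sub]
      ring
    rw [h3]
    ring
  have i8 := Complex.ofReal_injective i7
  rw [← i8, hS]

/-- uniform approximation of the Euler product -/
private theorem L1_approx {M : ℕ} {σ : ℝ} (hσ : 0 < σ) {ε : ℝ} (hε : 0 < ε) :
    ∃ t : Finset (Nat.smoothNumbers M), ∀ v : Om, ‖Zt (Nat.primesBelow M) σ v -
      ∑ m ∈ t, ((((m : ℕ) : ℝ) ^ (-σ) : ℝ) : ℂ) * XX v m‖ < ε := by
  have hfn : ∀ (v : Om) (n : ℕ), n ≠ 0 → (nC (σ : ℂ) * XX v) n = (((n : ℝ) ^ (-σ) : ℝ) : ℂ) * XX v n := by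
    intro v n hn
    change nC (σ : ℂ) n * XX v n = _
    rw [nC_apply _ hn, Complex.ofReal_cpow (Nat.cast_nonneg n)]
    push_cast
    rfl
  have hnorm : ∀ (v : Om) (n : ℕ), n ≠ 0 → ‖(nC (σ : ℂ) * XX v) n‖ = (n : ℝ) ^ (-σ) := by
    intro v n hn
    rw [hfn v n hn, norm_mul, norm_XX v hn, mul_one, Complex.norm_real,
      Real.norm_of_nonneg (by positivity)]
  have hlt : ∀ (v : Om) {p : ℕ}, p.Prime → ‖(nC (σ : ℂ) * XX v) p‖ < 1 := by
    intro v p hp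
    rw [hnorm v p hp.ne_zero]
    exact rpow_neg_lt_one hp.two_le hσ
  have hEP : ∀ v : Om, Summable (fun m : Nat.smoothNumbers M => ‖(nC (σ : ℂ) * XX v) m‖) ∧
      HasSum (fun m : Nat.smoothNumbers M => (nC (σ : ℂ) * XX v) m)
        (∏ p ∈ Nat.primesBelow M, (1 - (nC (σ : ℂ) * XX v) p)⁻¹) := fun v =>
    EulerProduct.summable_and_hasSum_smoothNumbers_prod_primesBelow_geometric
      (f := (nC (σ : ℂ) * XX v).toMonoidHom) (fun {p} hp => hlt v hp) M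
  have hZ : ∀ v : Om, Zt (Nat.primesBelow M) σ v =
      ∑' m : Nat.smoothNumbers M, ((((m : ℕ) : ℝ) ^ (-σ) : ℝ) : ℂ) * XX v m := by
    intro v
    have h1 : (∑' m : Nat.smoothNumbers M, ((((m : ℕ) : ℝ) ^ (-σ) : ℝ) : ℂ) * XX v m) =
        ∑' m : Nat.smoothNumbers M, (nC (σ : ℂ) * XX v) m :=
      tsum_congr fun m => (hfn v m (Nat.ne_zero_of_mem_smoothNumbers m.2)).symm
    rw [h1, (hEP v).2.tsum_eq]
    unfold Zt
    refine Finset.prod_congr rfl fun p hp => ?_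
    have hpp : p.Prime := Nat.prime_of_mem_primesBelow hp
    rw [hfn v p hpp.ne_zero, XX_prime v hpp]
  have hsum0 : Summable fun m : Nat.smoothNumbers M => ((m : ℕ) : ℝ) ^ (-σ) := by
    obtain ⟨v⟩ : Nonempty Om := ⟨fun _ => 0⟩
    refine (hEP v).1.congr fun m => ?_
    exact hnorm v m (Nat.ne_zero_of_mem_smoothNumbers m.2)
  have hU := tendstoUniformly_tsum (f := fun (m : Nat.smoothNumbers M) (v : Om) =>
      ((((m : ℕ) : ℝ) ^ (-σ) : ℝ) : ℂ) * XX v m) hsum0 (fun m v => by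
    rw [norm_mul, norm_XX v (Nat.ne_zero_of_mem_smoothNumbers m.2), mul_one, Complex.norm_real,
      Real.norm_of_nonneg (by positivity)])
  rw [Metric.tendstoUniformly_iff] at hU
  obtain ⟨t, ht⟩ := (hU ε hε).exists
  refine ⟨t, fun v => ?_⟩
  have h2 := ht v
  rw [dist_eq_norm] at h2
  rw [hZ v]
  exact h2

/-- a quotient of integers -/
private theorem L1_quot {a b : ℕ} (ha : a ≠ 0) (hb : b ≠ 0) (v : Om) :
    XX v a * conj (XX v b) = L1_e ((a : ℚ) / b) v := by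
  have ha' : (0 : ℚ) < a := by exact_mod_cast Nat.pos_of_ne_zero ha
  have hb' : (0 : ℚ) < b := by exact_mod_cast Nat.pos_of_ne_zero hb
  obtain ⟨h1, h2⟩ := L1_num (ρ := (a : ℚ) / b) (by positivity)
  have h3 : ((a : ℚ) / b).num.natAbs * b = a * ((a : ℚ) / b).den := by
    have h4 : ((((a : ℚ) / b).num.natAbs * b : ℕ) : ℚ) = ((a * ((a : ℚ) / b).den : ℕ) : ℚ) := by
      push_cast
      rw [h2]
      field_simp
    exact_mod_cast h4
  have h5 := congrArg (XX v) h3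
  rw [map_mul, map_mul] at h5
  have hden : ((a : ℚ) / b).den ≠ 0 := ((a : ℚ) / b).den_nz
  have h6 : XX v b * conj (XX v b) = 1 := by
    rw [Complex.mul_conj', norm_XX v hb]
    simp
  have h7 : XX v ((a : ℚ) / b).den * conj (XX v ((a : ℚ) / b).den) = 1 := by
    rw [Complex.mul_conj', norm_XX v hden]
    simp
  unfold L1_e
  linear_combination (-(conj (XX v b)) * conj (XX v ((a : ℚ) / b).den)) * h5 +
    (XX v ((a : ℚ) / b).num.natAbs * conj (XX v ((a : ℚ) / b).den)) * h6 -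
    (XX v a * conj (XX v b)) * h7

private theorem L1_hasSum {M : ℕ} {F : Finset (ℕ × ℕ)} {w : ℕ × ℕ → ℂ} {η : ℝ} (h1 : η ≤ 1 / 4)
    (hF : ∀ q ∈ F, q.1 ∈ Nat.smoothNumbers M ∧ q.2 ∈ Nat.smoothNumbers M) :
    HasSum (fun ρ : ℚ => if 0 < ρ then ‖cs M F w ρ‖ ^ 2 * (ρ : ℝ) ^ (-1 + η) else 0)
      (BB M F w η) := by
  classical
  have hσ : 0 < 1 / 2 - η / 2 := by linarith
  have hBB : BB M F w η = ∫ v, ‖L1_P M F w η v‖ ^ 2 ∂mu := by
    unfold BB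
    refine integral_congr_ae (Filter.Eventually.of_forall fun v => ?_)
    show _ = ‖L1_P M F w η v‖ ^ 2
    unfold L1_P
    rw [norm_mul, mul_pow]
  obtain ⟨c, hc⟩ : ∃ c : ℚ → ℂ, c = fun ρ : ℚ => (((ρ : ℝ) ^ (-(1 / 2 - η / 2)) : ℝ) : ℂ) * cs M F w ρ :=
    ⟨_, rfl⟩
  have hcn : ∀ ρ : ℚ, 0 < ρ → ‖c ρ‖ ^ 2 = ‖cs M F w ρ‖ ^ 2 * (ρ : ℝ) ^ (-1 + η) := by
    intro ρ hρ
    have hρ0 : (0 : ℝ) < ρ := by exact_mod_cast hρ
    rw [hc]
    show ‖(((ρ : ℝ) ^ (-(1 / 2 - η / 2)) : ℝ) : ℂ) * cs M F w ρ‖ ^ 2 = _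
    rw [norm_mul, mul_pow, Complex.norm_real, Real.norm_of_nonneg (by positivity), mul_comm]
    congr 1
    rw [← Real.rpow_natCast, ← Real.rpow_mul hρ0.le]
    congr 1
    push_cast
    ring
  have hci : ∀ ρ : ℚ, 0 < ρ → ∫ v, L1_P M F w η v * conj (L1_e ρ v) ∂mu = c ρ := by
    intro ρ hρ
    rw [L1_coef h1 hF hρ, hc]
  have hsum : ∀ K : Finset ℚ, (∑ ρ ∈ K, (if 0 < ρ then ‖cs M F w ρ‖ ^ 2 * (ρ : ℝ) ^ (-1 + η) else 0)) =
      ∑ ρ ∈ K.filter (fun ρ => 0 < ρ), ‖c ρ‖ ^ 2 := by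
    intro K
    rw [Finset.sum_filter]
    refine Finset.sum_congr rfl fun ρ _ => ?_
    split_ifs with h
    · rw [hcn ρ h]
    · rfl
  refine hasSum_of_isLUB_of_nonneg _ (fun ρ => ?_) ⟨?_, ?_⟩
  · split_ifs with h
    · have hρ0 : (0 : ℝ) < ρ := by exact_mod_cast h
      positivity
    · exact le_rfl
  · rintro _ ⟨K, rfl⟩
    show (∑ ρ ∈ K, (if 0 < ρ then ‖cs M F w ρ‖ ^ 2 * (ρ : ℝ) ^ (-1 + η) else 0)) ≤ _
    rw [hsum K, hBB]
    have h3 := L1_dist (L1_Pcont M F w h1) (K.filter (fun ρ => 0 < ρ))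
      (fun ρ hρ => (Finset.mem_filter.1 hρ).2) c c
      (fun ρ hρ => hci ρ (Finset.mem_filter.1 hρ).2)
    have h4 : 0 ≤ ∫ v, ‖L1_P M F w η v - ∑ ρ ∈ K.filter (fun ρ => 0 < ρ), c ρ * L1_e ρ v‖ ^ 2 ∂mu :=
      integral_nonneg fun v => by positivity
    have h5 : ∑ ρ ∈ K.filter (fun ρ => 0 < ρ), ‖c ρ - c ρ‖ ^ 2 = 0 := by
      simp
    rw [h3, h5] at h4
    linarith
  · intro B hB
    rw [mem_upperBounds] at hB
    -- the polynomial is bounded
    obtain ⟨G, hG⟩ : ∃ G : Om → ℂ, G = fun v => ∑ q ∈ F, wa (η / 2) w q * XX v q.1 * conj (XX v q.2) :=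
      ⟨_, rfl⟩
    have hGc : Continuous G := by
      rw [hG]
      refine continuous_finsetSum _ fun q _ => ?_
      exact (continuous_const.mul (continuous_XX _)).mul (Complex.continuous_conj.comp (continuous_XX _))
    obtain ⟨C, hC⟩ := exists_bound_of_continuous hGc
    have hC0 : 0 ≤ C := (norm_nonneg _).trans (hC fun _ => 0)
    refine le_of_forall_pos_le_add fun ε hε => ?_
    obtain ⟨δ, hδ, hδε⟩ : ∃ δ : ℝ, 0 < δ ∧ (δ * C) ^ 2 ≤ ε := by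
      refine ⟨Real.sqrt ε / (C + 1), by positivity, ?_⟩
      have h2 : Real.sqrt ε / (C + 1) * C ≤ Real.sqrt ε := by
        rw [div_mul_eq_mul_div, div_le_iff₀ (by positivity)]
        nlinarith [Real.sqrt_nonneg ε]
      calc (Real.sqrt ε / (C + 1) * C) ^ 2 ≤ Real.sqrt ε ^ 2 :=
            pow_le_pow_left₀ (by positivity) h2 2
        _ = ε := Real.sq_sqrt hε.le
    obtain ⟨t, ht⟩ := L1_approx (M := M) hσ hδ
    -- the finite set of rationals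
    obtain ⟨g, hg⟩ : ∃ g : Nat.smoothNumbers M × (ℕ × ℕ) → ℚ,
        g = fun x => (((x.1 : ℕ) * x.2.1 : ℕ) : ℚ) / x.2.2 := ⟨_, rfl⟩
    obtain ⟨K, hK⟩ : ∃ K : Finset ℚ, K = (t ×ˢ F).image g := ⟨_, rfl⟩
    have hKpos : ∀ ρ ∈ K, 0 < ρ := by
      intro ρ hρ
      rw [hK] at hρ
      obtain ⟨x, hx, rfl⟩ := Finset.mem_image.1 hρ
      obtain ⟨hx1, hx2⟩ := Finset.mem_product.1 hx
      have e1 : (0 : ℚ) < ((x.1 : ℕ) : ℚ) := by
        exact_mod_cast Nat.pos_of_ne_zero (Nat.ne_zero_of_mem_smoothNumbers x.1.2)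
      have e2 : (0 : ℚ) < x.2.1 := by
        exact_mod_cast Nat.pos_of_ne_zero (Nat.ne_zero_of_mem_smoothNumbers (hF _ hx2).1)
      have e3 : (0 : ℚ) < x.2.2 := by
        exact_mod_cast Nat.pos_of_ne_zero (Nat.ne_zero_of_mem_smoothNumbers (hF _ hx2).2)
      rw [hg]
      show 0 < (((x.1 : ℕ) * x.2.1 : ℕ) : ℚ) / x.2.2
      push_cast
      positivity
    obtain ⟨d, hd⟩ : ∃ d : ℚ → ℂ, d = fun ρ => ∑ x ∈ (t ×ˢ F).filter (fun x => g x = ρ),
        ((((x.1 : ℕ) : ℝ) ^ (-(1 / 2 - η / 2)) : ℝ) : ℂ) * wa (η / 2) w x.2 := ⟨_, rfl⟩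
    have hcomb : ∀ v : Om, (∑ m ∈ t, ((((m : ℕ) : ℝ) ^ (-(1 / 2 - η / 2)) : ℝ) : ℂ) * XX v m) * G v =
        ∑ ρ ∈ K, d ρ * L1_e ρ v := by
      intro v
      rw [hG]
      show (∑ m ∈ t, ((((m : ℕ) : ℝ) ^ (-(1 / 2 - η / 2)) : ℝ) : ℂ) * XX v m) *
        (∑ q ∈ F, wa (η / 2) w q * XX v q.1 * conj (XX v q.2)) = _
      rw [Finset.sum_mul_sum, ← Finset.sum_product']
      rw [← Finset.sum_fiberwise_of_maps_to (t := K) (g := g)
        (fun x hx => by rw [hK]; exact Finset.mem_image_of_mem _ hx)]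
      refine Finset.sum_congr rfl fun ρ _ => ?_
      rw [hd]
      show _ = (∑ x ∈ (t ×ˢ F).filter (fun x => g x = ρ),
        ((((x.1 : ℕ) : ℝ) ^ (-(1 / 2 - η / 2)) : ℝ) : ℂ) * wa (η / 2) w x.2) * L1_e ρ v
      rw [Finset.sum_mul]
      refine Finset.sum_congr rfl fun x hx => ?_
      obtain ⟨hx0, hxρ⟩ := Finset.mem_filter.1 hx
      obtain ⟨hx1, hx2⟩ := Finset.mem_product.1 hx0
      have e1 := Nat.ne_zero_of_mem_smoothNumbers x.1.2
      have e2 := Nat.ne_zero_of_mem_smoothNumbers (hF _ hx2).1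
      have e3 := Nat.ne_zero_of_mem_smoothNumbers (hF _ hx2).2
      rw [← hxρ, hg]
      show _ = _ * L1_e ((((x.1 : ℕ) * x.2.1 : ℕ) : ℚ) / x.2.2) v
      rw [← L1_quot (mul_ne_zero e1 e2) e3 v, map_mul]
      ring
    have h3 := L1_dist (L1_Pcont M F w h1) K hKpos c d (fun ρ hρ => hci ρ (hKpos ρ hρ))
    have h4 : 0 ≤ ∑ ρ ∈ K, ‖c ρ - d ρ‖ ^ 2 := Finset.sum_nonneg fun ρ _ => by positivity
    have h5 : ∫ v, ‖L1_P M F w η v - ∑ ρ ∈ K, d ρ * L1_e ρ v‖ ^ 2 ∂mu ≤ ε := by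
      have h6 : ∀ v, ‖L1_P M F w η v - ∑ ρ ∈ K, d ρ * L1_e ρ v‖ ^ 2 ≤ ε := by
        intro v
        refine le_trans ?_ hδε
        refine pow_le_pow_left₀ (norm_nonneg _) ?_ 2
        rw [← hcomb v]
        have h7 : L1_P M F w η v = Zt (Nat.primesBelow M) (1 / 2 - η / 2) v * G v := by
          rw [hG]
          rfl
        rw [h7, ← sub_mul, norm_mul]
        exact mul_le_mul (ht v).le (hC v) (norm_nonneg _) hδ.le
      have h8 : Continuous fun v => ‖L1_P M F w η v - ∑ ρ ∈ K, d ρ * L1_e ρ v‖ ^ 2 := by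
        refine (Continuous.norm ((L1_Pcont M F w h1).sub ?_)).pow 2
        exact continuous_finsetSum _ fun ρ _ => continuous_const.mul (L1_cont ρ)
      calc ∫ v, ‖L1_P M F w η v - ∑ ρ ∈ K, d ρ * L1_e ρ v‖ ^ 2 ∂mu
          ≤ ∫ _v : Om, ε ∂mu := integral_mono (integrable_of_continuous h8)
            (integrable_const _) h6
        _ = ε := by simp
    rw [h3] at h5
    have h9 : ∑ ρ ∈ K, ‖c ρ‖ ^ 2 ≤ B := by
      have h10 := hB _ ⟨K, rfl⟩
      have h11 : K.filter (fun ρ => 0 < ρ) = K := Finset.filter_true_of_mem hKpos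
      have h12 := hsum K
      rw [h11] at h12
      rw [← h12]
      exact h10
    rw [hBB]
    linarith

theorem parseval {M : ℕ} {F : Finset (ℕ × ℕ)} {w : ℕ × ℕ → ℂ} {η : ℝ} (h1 : η ≤ 1 / 4)
    (hF : ∀ q ∈ F, q.1 ∈ Nat.smoothNumbers M ∧ q.2 ∈ Nat.smoothNumbers M) :
    Summable (fun ρ : ℚ => if 0 < ρ then ‖cs M F w ρ‖ ^ 2 * (ρ : ℝ) ^ (-1 + η) else 0) ∧
    ∑' ρ : ℚ, (if 0 < ρ then ‖cs M F w ρ‖ ^ 2 * (ρ : ℝ) ^ (-1 + η) else 0) = BB M F w η :=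
  ⟨(L1_hasSum h1 hF).summable, (L1_hasSum h1 hF).tsum_eq⟩

open Classical in
/-- the summability for one pair -/
private theorem L1_pair {q : ℕ × ℕ} (h1 : q.1 ≠ 0) (h2 : q.2 ≠ 0) {η : ℝ} (hη : η < 0) :
    Summable (fun ρ : ℚ => if ∃ l : ℕ, l ≠ 0 ∧ (l : ℚ) * q.1 = ρ * q.2 then
      (ρ : ℝ) ^ (-1 + η) else 0) := by
  have e1 : (0 : ℚ) < q.1 := by exact_mod_cast Nat.pos_of_ne_zero h1
  have e2 : (0 : ℚ) < q.2 := by exact_mod_cast Nat.pos_of_ne_zero h2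
  have e1R : (0 : ℝ) < q.1 := by exact_mod_cast Nat.pos_of_ne_zero h1
  have e2R : (0 : ℝ) < q.2 := by exact_mod_cast Nat.pos_of_ne_zero h2
  have hinj : Function.Injective (fun n : ℕ => ((n + 1 : ℕ) : ℚ) * q.1 / q.2) := by
    intro n n' h
    have h3 : ((n + 1 : ℕ) : ℚ) * q.1 / q.2 = ((n' + 1 : ℕ) : ℚ) * q.1 / q.2 := h
    have h4 : ((n + 1 : ℕ) : ℚ) = ((n' + 1 : ℕ) : ℚ) := by
      field_simp at h3
      exact h3
    have h5 : n + 1 = n' + 1 := by exact_mod_cast h4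
    omega
  rw [← Function.Injective.summable_iff hinj]
  · have hfun : ((fun ρ : ℚ => if ∃ l : ℕ, l ≠ 0 ∧ (l : ℚ) * q.1 = ρ * q.2 then
        (ρ : ℝ) ^ (-1 + η) else 0) ∘ fun n : ℕ => ((n + 1 : ℕ) : ℚ) * q.1 / q.2) =
        fun n : ℕ => ((q.1 : ℝ) / q.2) ^ (-1 + η) * ((n + 1 : ℕ) : ℝ) ^ (-1 + η) := by
      funext n
      show (if ∃ l : ℕ, l ≠ 0 ∧ (l : ℚ) * q.1 = (((n + 1 : ℕ) : ℚ) * q.1 / q.2) * q.2 then
        (((((n + 1 : ℕ) : ℚ) * q.1 / q.2 : ℚ) : ℝ)) ^ (-1 + η) else 0) = _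
      rw [if_pos ⟨n + 1, n.succ_ne_zero, by field_simp⟩]
      rw [← Real.mul_rpow (by positivity) (by positivity)]
      congr 1
      push_cast
      ring
    rw [hfun]
    refine Summable.mul_left _ ?_
    have h3 : Summable (fun n : ℕ => (n : ℝ) ^ (-1 + η)) :=
      Real.summable_nat_rpow.2 (by linarith)
    exact (summable_nat_add_iff 1).2 h3
  · intro ρ hρ
    rw [if_neg]
    rintro ⟨l, hl, h⟩
    apply hρ
    obtain ⟨n, rfl⟩ := Nat.exists_eq_succ_of_ne_zero hl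
    refine ⟨n, ?_⟩
    show ((n + 1 : ℕ) : ℚ) * q.1 / q.2 = ρ
    rw [div_eq_iff e2.ne']
    exact h

theorem laplace {F : Finset (ℕ × ℕ)} {w : ℕ × ℕ → ℂ} {η : ℝ} (h1 : η < 0)
    (hF : ∀ q ∈ F, q.1 ≠ 0 ∧ q.2 ≠ 0) :
    Summable (fun ρ : ℚ => if 0 < ρ then ‖fcs F w ρ‖ ^ 2 * (ρ : ℝ) ^ (-1 + η) else 0) ∧
    Filter.Tendsto (fun M : ℕ => BB M F w η) Filter.atTop
      (nhds (∑' ρ : ℚ, if 0 < ρ then ‖fcs F w ρ‖ ^ 2 * (ρ : ℝ) ^ (-1 + η) else 0)) := by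
  classical
  -- the bound
  obtain ⟨bd, hbd⟩ : ∃ bd : ℚ → ℝ, bd = fun ρ : ℚ => (F.card : ℝ) * ∑ q ∈ F,
      ‖wa (1 / 2) w q‖ ^ 2 * (if ∃ l : ℕ, l ≠ 0 ∧ (l : ℚ) * q.1 = ρ * q.2 then
      (ρ : ℝ) ^ (-1 + η) else 0) := ⟨_, rfl⟩
  have hbds : Summable bd := by
    rw [hbd]
    refine Summable.mul_left _ (summable_sum fun q hq => ?_)
    refine Summable.mul_left _ ?_
    exact L1_pair (hF q hq).1 (hF q hq).2 h1
  -- the general estimate
  have hgen : ∀ (P : ℕ × ℕ → Prop) (ρ : ℚ), 0 < ρ →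
      (∀ q ∈ F, P q → ∃ l : ℕ, l ≠ 0 ∧ (l : ℚ) * q.1 = ρ * q.2) →
      ‖∑ q ∈ F, if P q then wa (1 / 2) w q else 0‖ ^ 2 * (ρ : ℝ) ^ (-1 + η) ≤ bd ρ := by
    intro P ρ hρ hP
    have hρ0 : (0 : ℝ) < ρ := by exact_mod_cast hρ
    have h2 : ‖∑ q ∈ F, if P q then wa (1 / 2) w q else 0‖ ^ 2 ≤
        (F.card : ℝ) * ∑ q ∈ F, ‖if P q then wa (1 / 2) w q else 0‖ ^ 2 := by
      calc ‖∑ q ∈ F, if P q then wa (1 / 2) w q else 0‖ ^ 2
          ≤ (∑ q ∈ F, ‖if P q then wa (1 / 2) w q else 0‖) ^ 2 :=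
            pow_le_pow_left₀ (norm_nonneg _) (norm_sum_le _ _) 2
        _ ≤ _ := sq_sum_le_card_mul_sum_sq
    rw [hbd]
    show _ ≤ (F.card : ℝ) * ∑ q ∈ F,
      ‖wa (1 / 2) w q‖ ^ 2 * (if ∃ l : ℕ, l ≠ 0 ∧ (l : ℚ) * q.1 = ρ * q.2 then
      (ρ : ℝ) ^ (-1 + η) else 0)
    calc ‖∑ q ∈ F, if P q then wa (1 / 2) w q else 0‖ ^ 2 * (ρ : ℝ) ^ (-1 + η)
        ≤ ((F.card : ℝ) * ∑ q ∈ F, ‖if P q then wa (1 / 2) w q else 0‖ ^ 2) * (ρ : ℝ) ^ (-1 + η) :=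
          mul_le_mul_of_nonneg_right h2 (by positivity)
      _ = (F.card : ℝ) * ∑ q ∈ F, ‖if P q then wa (1 / 2) w q else 0‖ ^ 2 * (ρ : ℝ) ^ (-1 + η) := by
          rw [mul_assoc, Finset.sum_mul]
      _ ≤ _ := by
          refine mul_le_mul_of_nonneg_left (Finset.sum_le_sum fun q hq => ?_) (Nat.cast_nonneg _)
          by_cases hq1 : P q
          · rw [if_pos hq1, if_pos (hP q hq hq1)]
          · rw [if_neg hq1]
            have h3 : (0 : ℝ) ≤ if ∃ l : ℕ, l ≠ 0 ∧ (l : ℚ) * q.1 = ρ * q.2 then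
                (ρ : ℝ) ^ (-1 + η) else 0 := by
              split_ifs
              · positivity
              · exact le_rfl
            rw [norm_zero]
            have h4 : 0 ≤ ‖wa (1 / 2) w q‖ ^ 2 := by positivity
            have h5 := mul_nonneg h4 h3
            simpa using h5
  have hbd0 : ∀ ρ : ℚ, 0 < ρ → 0 ≤ bd ρ := by
    intro ρ hρ
    have hρ0 : (0 : ℝ) < ρ := by exact_mod_cast hρ
    have h2 := hgen (fun _ => False) ρ hρ (fun q _ h => absurd h not_false)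
    refine le_trans ?_ h2
    positivity
  have hneg : ∀ ρ : ℚ, 0 ≤ bd ρ := by
    intro ρ
    rcases lt_or_ge 0 ρ with hρ | hρ
    · exact hbd0 ρ hρ
    · rw [hbd]
      show 0 ≤ (F.card : ℝ) * ∑ q ∈ F,
        ‖wa (1 / 2) w q‖ ^ 2 * (if ∃ l : ℕ, l ≠ 0 ∧ (l : ℚ) * q.1 = ρ * q.2 then
        (ρ : ℝ) ^ (-1 + η) else 0)
      refine mul_nonneg (Nat.cast_nonneg _) (Finset.sum_nonneg fun q hq => ?_)
      rw [if_neg]
      · simp
      · rintro ⟨l, hl, h⟩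
        have e0 : (0 : ℚ) < l := by exact_mod_cast Nat.pos_of_ne_zero hl
        have e1 : (0 : ℚ) < q.1 := by exact_mod_cast Nat.pos_of_ne_zero (hF q hq).1
        have e2 : (0 : ℚ) < q.2 := by exact_mod_cast Nat.pos_of_ne_zero (hF q hq).2
        have h3 := mul_pos e0 e1
        have h4 := mul_nonpos_of_nonpos_of_nonneg hρ e2.le
        linarith
  have hfb : ∀ ρ : ℚ, ‖(if 0 < ρ then ‖fcs F w ρ‖ ^ 2 * (ρ : ℝ) ^ (-1 + η) else 0)‖ ≤ bd ρ := by
    intro ρ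
    split_ifs with h
    · have hρ0 : (0 : ℝ) < ρ := by exact_mod_cast h
      rw [Real.norm_of_nonneg (by positivity)]
      exact hgen (fun q => ∃ l : ℕ, l ≠ 0 ∧ (l : ℚ) * q.1 = ρ * q.2) ρ h (fun q _ hq => hq)
    · rw [norm_zero]
      exact hneg ρ
  have hMb : ∀ (M : ℕ) (ρ : ℚ), ‖(if 0 < ρ then ‖cs M F w ρ‖ ^ 2 * (ρ : ℝ) ^ (-1 + η) else 0)‖ ≤
      bd ρ := by
    intro M ρ
    split_ifs with h
    · have hρ0 : (0 : ℝ) < ρ := by exact_mod_cast h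
      rw [Real.norm_of_nonneg (by positivity)]
      exact hgen (fun q => ∃ l ∈ Nat.smoothNumbers M, (l : ℚ) * q.1 = ρ * q.2) ρ h
        (fun q _ ⟨l, hl, hl'⟩ => ⟨l, Nat.ne_zero_of_mem_smoothNumbers hl, hl'⟩)
    · rw [norm_zero]
      exact hneg ρ
  refine ⟨Summable.of_norm_bounded hbds hfb, ?_⟩
  have hsm : ∀ l : ℕ, l ≠ 0 → ∀ᶠ M : ℕ in Filter.atTop, l ∈ Nat.smoothNumbers M := by
    intro l hl
    filter_upwards [Filter.eventually_gt_atTop l] with M hM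
    rw [Nat.mem_smoothNumbers]
    refine ⟨hl, fun p hp => ?_⟩
    exact lt_of_le_of_lt (Nat.le_of_mem_primeFactorsList hp) hM
  have hpt : ∀ ρ : ℚ, Filter.Tendsto (fun M : ℕ =>
      (if 0 < ρ then ‖cs M F w ρ‖ ^ 2 * (ρ : ℝ) ^ (-1 + η) else 0)) Filter.atTop
      (nhds (if 0 < ρ then ‖fcs F w ρ‖ ^ 2 * (ρ : ℝ) ^ (-1 + η) else 0)) := by
    intro ρ
    have h2 : ∀ᶠ M : ℕ in Filter.atTop, ∀ q ∈ F,
        ((∃ l ∈ Nat.smoothNumbers M, (l : ℚ) * q.1 = ρ * q.2) ↔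
          ∃ l : ℕ, l ≠ 0 ∧ (l : ℚ) * q.1 = ρ * q.2) := by
      rw [Filter.eventually_all_finset]
      intro q _
      by_cases h3 : ∃ l : ℕ, l ≠ 0 ∧ (l : ℚ) * q.1 = ρ * q.2
      · obtain ⟨l, hl, hlq⟩ := h3
        filter_upwards [hsm l hl] with M hM
        exact ⟨fun _ => ⟨l, hl, hlq⟩, fun _ => ⟨l, hM, hlq⟩⟩
      · refine Filter.Eventually.of_forall fun M => ?_
        constructor
        · rintro ⟨l, hl, hlq⟩
          exact ⟨l, Nat.ne_zero_of_mem_smoothNumbers hl, hlq⟩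
        · intro h4
          exact absurd h4 h3
    refine tendsto_const_nhds.congr' ?_
    filter_upwards [h2] with M hM
    have h3 : cs M F w ρ = fcs F w ρ := by
      unfold cs fcs
      refine Finset.sum_congr rfl fun q hq => ?_
      by_cases h4 : ∃ l : ℕ, l ≠ 0 ∧ (l : ℚ) * q.1 = ρ * q.2
      · rw [if_pos h4, if_pos ((hM q hq).2 h4)]
      · rw [if_neg h4, if_neg (fun h5 => h4 ((hM q hq).1 h5))]
    rw [h3]
  have hT := tendsto_tsum_of_dominated_convergence hbds hpt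
    (Filter.Eventually.of_forall hMb)
  refine hT.congr' ?_
  have h5 : ∀ᶠ M : ℕ in Filter.atTop, ∀ q ∈ F,
      q.1 ∈ Nat.smoothNumbers M ∧ q.2 ∈ Nat.smoothNumbers M := by
    rw [Filter.eventually_all_finset]
    intro q hq
    exact (hsm _ (hF q hq).1).and (hsm _ (hF q hq).2)
  filter_upwards [h5] with M hM
  exact (parseval (by linarith) hM).2

end Pool.Agent.LB
end
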