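import Pool.Agent.Lib.MP_69b2e4_nt.Mg.G028
import Pool.Agent.Lib.MP_69b2e4_nt.Mg.G024
import Pool.Agent.Lib.MP_69b2e4_nt.Mg.G041

section

/-! TASK L4. The expectation over the primes of the blocks (Schwarz lemma). `L = log T`, `z = sgn b α/L`, `y_p = yv α T p = p^{-1/2-α/L}` fixed. For `τ ∈ ℂ` put `b_p(τ,ξ) = y_p exp(-τ (sgn b α + 1 - 2πiξ) log p/L)` (so `b_p(0) = y_p`, `b_p(1,ξ) = bb b α T ξ p`: `bb = p^{-1/2} exp(-(sgn b α + α + 1 - 2πiξ) log p/L)`), `c_p(τ) = lam p^{-1/2} exp(-τ sgn b α log p/L)`,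
 `h(τ,ξ,w) = ∏_{p∈P} (1 - y_p X_p)⁻¹ (1 - b_p(τ,ξ) X_p) ∏_j Ex (l_j) (∑_{p ∈ R j} c_p(τ) X_p)`, `Φ(τ) = ∫ h(τ,ξ1,w) conj(h(conj τ,ξ2,w)) dμ`. `Φ` is entire in `τ`, `Φ(1) = PhP S lam b α ξ1 ξ2` (`RT_nX`), `Φ(0) = ∫ ‖RT S lam (nX 0)‖² = ER`.
Bound: `a = |sgn b α| + 1 + 7|ξ1| + 7|ξ2| + α`, `ρ0 = 1/(4 a θ^5)`. For `|τ| ≤ ρ0`, `p ∈ P`: `|τ| a log p/L ≤ 1/4` (`P_prime`), so `‖b_p‖ ≤ 2p^{-1/2}`, `‖y_p - b_p‖ ≤ 2|τ| a (log p/L) p^{-1/2}`, `‖c_p‖ ≤ 2 lam p^{-1/2}`, `‖c_p‖² ≤ lam²/p (1 + 4|τ| a log p/L)`. `full5` with `A = 2 lam + 2`, `M = ⌈T^{1/10}⌉₊`, `y, b` on `P` as above and `0` outside `P`, `s = 0`: `∫ ‖h(τ,ξ)‖² ≤ K exp(∑_P (‖c_p‖² + 2‖c_p‖‖y_p-b_p‖ + ‖y_p - b_p‖²)) ≤ K Lam exp(C |τ| a ∑_P (log p/L)/p) ≤ K' Lam` since `∑_P (log p/L)/p ≤ θ^5 + C/L ≤ 2θ^5` (`ps_P`, `T ≥ T0(θ)`).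
So `‖Φ‖ ≤ K' Lam` on the disc `|τ| ≤ ρ0`. If `ρ0 > 2`: `‖Φ(1) - Φ(0)‖ ≤ 2K' Lam/ρ0·2 ≤ K'' a θ^5 Lam` (Schwarz lemma `Complex.dist_le_div_mul_dist_of_mapsTo_ball`, or Cauchy estimate for `Φ'` on `|τ| ≤ 1`).
If `ρ0 ≤ 2`, i.e. `8 a θ^5 ≥ 1`: trivial bound `‖Φ(1)‖ ≤ K Lam (1+|ξ1|+|ξ2|)^m`: Cauchy-Schwarz and `full5` at `τ = 1`: `‖y_p - b_p‖ ≤ min 2 (a log p/L) p^{-1/2}` and `ps_min` (`∑ min 2 (a v)/p ≤ C + 2 log a`), as in X1; multiply by `8 a θ^5 ≥ 1`. `PhP_le` is this trivial bound. -/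

set_option autoImplicit false

namespace Pool.Agent.LB

open Complex MeasureTheory Finset Pool.Agent.GH Pool.Agent.UH Pool.Agent.UV
open scoped Real ComplexConjugate

/-- Finite sums of exponentials in `τ` whose coefficients are continuous functions. -/
def L4EC (H : ℂ → Om → ℂ) : Prop :=
  ∃ (ι : Type) (_ : Fintype ι) (m : ι → ℂ) (G : ι → Om → ℂ), (∀ k, Continuous (G k)) ∧
    ∀ τ w, H τ w = ∑ k, cexp (τ * m k) * G k w

theorem L4EC.single (m : ℂ) {G : Om → ℂ} (hG : Continuous G) :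
    L4EC (fun τ w => cexp (τ * m) * G w) :=
  ⟨Unit, inferInstance, fun _ => m, fun _ => G, fun _ => hG, fun τ w => by simp⟩

theorem L4EC.const {G : Om → ℂ} (hG : Continuous G) : L4EC (fun _ w => G w) := by
  have h := L4EC.single 0 hG
  simpa using h

theorem L4EC.add {H H' : ℂ → Om → ℂ} (h : L4EC H) (h' : L4EC H') :
    L4EC (fun τ w => H τ w + H' τ w) := by
  obtain ⟨ι, hι, m, G, hG, e⟩ := h
  obtain ⟨κ, hκ, m', G', hG', e'⟩ := h'
  refine ⟨ι ⊕ κ, inferInstance, Sum.elim m m', Sum.elim G G', ?_, ?_⟩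
  · rintro (k | k)
    exacts [hG k, hG' k]
  · intro τ w
    beta_reduce
    rw [e, e', Fintype.sum_sum_type]
    rfl

theorem L4EC.mul {H H' : ℂ → Om → ℂ} (h : L4EC H) (h' : L4EC H') :
    L4EC (fun τ w => H τ w * H' τ w) := by
  obtain ⟨ι, hι, m, G, hG, e⟩ := h
  obtain ⟨κ, hκ, m', G', hG', e'⟩ := h'
  refine ⟨ι × κ, inferInstance, fun k => m k.1 + m' k.2, fun k w => G k.1 w * G' k.2 w,
    fun k => (hG k.1).mul (hG' k.2), ?_⟩
  intro τ w
  beta_reduce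
  rw [e, e', Finset.sum_mul_sum, Fintype.sum_prod_type]
  refine Finset.sum_congr rfl fun i _ => Finset.sum_congr rfl fun j _ => ?_
  rw [mul_add, Complex.exp_add]
  ring

theorem L4EC.sum {α : Type} (s : Finset α) {H : α → ℂ → Om → ℂ} (h : ∀ i ∈ s, L4EC (H i)) :
    L4EC (fun τ w => ∑ i ∈ s, H i τ w) := by
  classical
  induction s using Finset.induction_on with
  | empty => simpa using L4EC.const (G := fun _ => (0 : ℂ)) continuous_const
  | insert a s ha ih =>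
    simp only [Finset.sum_insert ha]
    exact (h a (Finset.mem_insert_self _ _)).add
      (ih fun i hi => h i (Finset.mem_insert_of_mem hi))

theorem L4EC.prod {α : Type} (s : Finset α) {H : α → ℂ → Om → ℂ} (h : ∀ i ∈ s, L4EC (H i)) :
    L4EC (fun τ w => ∏ i ∈ s, H i τ w) := by
  classical
  induction s using Finset.induction_on with
  | empty => simpa using L4EC.const (G := fun _ => (1 : ℂ)) continuous_const
  | insert a s ha ih =>
    simp only [Finset.prod_insert ha]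
    exact (h a (Finset.mem_insert_self _ _)).mul
      (ih fun i hi => h i (Finset.mem_insert_of_mem hi))

theorem L4EC.pow {H : ℂ → Om → ℂ} (h : L4EC H) (n : ℕ) : L4EC (fun τ w => H τ w ^ n) := by
  induction n with
  | zero => simpa using L4EC.const (G := fun _ => (1 : ℂ)) continuous_const
  | succ n ih =>
    simp only [pow_succ]
    exact ih.mul h

theorem L4EC.conj {H : ℂ → Om → ℂ} (h : L4EC H) : L4EC (fun τ w => conj (H (conj τ) w)) := by
  obtain ⟨ι, hι, m, G, hG, e⟩ := h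
  refine ⟨ι, hι, fun k => conj (m k), fun k w => conj (G k w),
    fun k => Complex.continuous_conj.comp (hG k), ?_⟩
  intro τ w
  beta_reduce
  rw [e, map_sum]
  refine Finset.sum_congr rfl fun k _ => ?_
  rw [map_mul, ← Complex.exp_conj, map_mul, Complex.conj_conj]

theorem L4EC.continuous {H : ℂ → Om → ℂ} (h : L4EC H) (τ : ℂ) : Continuous (H τ) := by
  obtain ⟨ι, hι, m, G, hG, e⟩ := h
  have h1 : H τ = fun w => ∑ k, cexp (τ * m k) * G k w := funext fun w => e τ w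
  rw [h1]
  exact continuous_finsetSum _ fun k _ => continuous_const.mul (hG k)

theorem L4EC.differentiable {H : ℂ → Om → ℂ} (h : L4EC H) :
    Differentiable ℂ (fun τ => ∫ w, H τ w ∂mu) := by
  obtain ⟨ι, hι, m, G, hG, e⟩ := h
  have h1 : (fun τ => ∫ w, H τ w ∂mu) = fun τ => ∑ k, cexp (τ * m k) * ∫ w, G k w ∂mu := by
    funext τ
    have h2 : (fun w => H τ w) = fun w => ∑ k, cexp (τ * m k) * G k w := funext fun w => e τ w
    rw [h2, integral_finsetSum]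
    · exact Finset.sum_congr rfl fun k _ => integral_const_mul _ _
    · intro k _
      exact (integrable_of_continuous (hG k)).const_mul _
  rw [h1]
  fun_prop

/-! ### The functions -/

noncomputable def L4b (b : Bool) (α T ξ : ℝ) (τ : ℂ) (p : ℕ) : ℂ :=
  (yv α T p : ℂ) *
    cexp (τ * (-((sgn b * α + 1 - 2 * π * ξ * I) * ((Real.log p / Real.log T : ℝ) : ℂ))))

noncomputable def L4c (lam : ℝ) (b : Bool) (α T : ℝ) (τ : ℂ) (p : ℕ) : ℂ :=
  ((lam * (p : ℝ) ^ (-(1 / 2) : ℝ) : ℝ) : ℂ) *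
    cexp (τ * (-((sgn b * α * (Real.log p / Real.log T) : ℝ) : ℂ)))

noncomputable def L4g (S : BS) (α : ℝ) (β c : ℕ → ℂ) (w : Om) : ℂ :=
  Zt S.P (1 / 2 + α / Real.log S.T) w * (∏ p ∈ S.P, (1 - β p * X p w)) *
    ∏ j ∈ range (S.J + 1), Ex (S.l j) (∑ p ∈ S.R j, c p * X p w)

noncomputable def L4h (S : BS) (lam : ℝ) (b : Bool) (α ξ : ℝ) (τ : ℂ) (w : Om) : ℂ :=
  L4g S α (L4b b α S.T ξ τ) (L4c lam b α S.T τ) w

section

variable {S : BS} {Ct θ D1 : ℝ} {N0 : ℕ}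

theorem L4_L (hS : TG S Ct θ D1 N0) : 1000 ≤ Real.log S.T := by
  have h := Real.log_le_log (Real.exp_pos _) hS.T_ge
  rwa [Real.log_exp] at h

theorem L4_T (hS : TG S Ct θ D1 N0) : 0 < S.T := lt_of_lt_of_le (Real.exp_pos _) hS.T_ge

theorem L4_Zt_cont (hS : TG S Ct θ D1 N0) {α : ℝ} (hα : 0 < α) :
    Continuous (Zt S.P (1 / 2 + α / Real.log S.T)) := by
  refine continuous_Zt _ (fun p hp => (P_prime hS hp).1) ?_
  have := L4_L hS
  positivity

theorem L4_EC (hS : TG S Ct θ D1 N0) (lam : ℝ) (b : Bool) {α : ℝ} (hα : 0 < α) (ξ : ℝ) :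
    L4EC (L4h S lam b α ξ) := by
  unfold L4h L4g
  refine ((L4EC.const (L4_Zt_cont hS hα)).mul ?_).mul ?_
  · refine L4EC.prod _ fun p _ => ?_
    have h1 : L4EC (fun τ w => L4b b α S.T ξ τ p * X p w) := by
      have h2 := L4EC.single (-((sgn b * α + 1 - 2 * π * ξ * I) *
        ((Real.log p / Real.log S.T : ℝ) : ℂ)))
        (G := fun w => (yv α S.T p : ℂ) * X p w) (continuous_const.mul (continuous_X p))
      refine Eq.mp ?_ h2
      congr 1
      funext τ w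
      unfold L4b
      ring
    have h3 : L4EC (fun τ w => (1 : ℂ) + (-1 : ℂ) * (L4b b α S.T ξ τ p * X p w)) :=
      (L4EC.const continuous_const).add ((L4EC.const continuous_const).mul h1)
    refine Eq.mp ?_ h3
    congr 1
    funext τ w
    ring
  · refine L4EC.prod _ fun j _ => ?_
    have h1 : L4EC (fun τ w => ∑ p ∈ S.R j, L4c lam b α S.T τ p * X p w) := by
      refine L4EC.sum _ fun p _ => ?_
      have h2 := L4EC.single (-((sgn b * α * (Real.log p / Real.log S.T) : ℝ) : ℂ))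
        (G := fun w => ((lam * (p : ℝ) ^ (-(1 / 2) : ℝ) : ℝ) : ℂ) * X p w)
        (continuous_const.mul (continuous_X p))
      refine Eq.mp ?_ h2
      congr 1
      funext τ w
      unfold L4c
      ring
    unfold Ex
    refine L4EC.sum _ fun i _ => ?_
    have h3 := (h1.pow i).mul (L4EC.const (G := fun _ => ((i.factorial : ℂ))⁻¹) continuous_const)
    refine Eq.mp ?_ h3
    congr 1

/-- the bound by `full5` -/
theorem L4_full (A : ℝ) (hA : 0 ≤ A) : ∃ C0 K : ℝ, 1 ≤ K ∧ ∀ {S : BS} {Ct θ D1 : ℝ} {N0 : ℕ},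
    TG S Ct θ D1 N0 → C0 ≤ Ct → ∀ (α : ℝ), 0 < α → ∀ (β c : ℕ → ℂ),
    (∀ p ∈ S.P, ‖β p‖ ≤ A * (p : ℝ) ^ (-(1 / 2) : ℝ) ∧ ‖c p‖ ≤ A * (p : ℝ) ^ (-(1 / 2) : ℝ)) →
    ∫ w, ‖L4g S α β c w‖ ^ 2 ∂mu ≤
    K * Real.exp (∑ p ∈ S.P, ‖(yv α S.T p : ℂ) - β p + c p‖ ^ 2) := by
  classical
  obtain ⟨C0, K, hK, hf⟩ := full5 A hA
  refine ⟨C0, K, hK, ?_⟩
  intro S Ct θ D1 N0 hS hC α hα β c hbc
  have hL := L4_L hS
  have hT1 : Real.exp 1 ≤ S.T :=
    le_trans (Real.exp_le_exp.mpr (by norm_num)) hS.T_ge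
  obtain ⟨M, hM⟩ : ∃ M : ℕ, S.P ⊆ Nat.primesBelow M :=
    ⟨⌈S.T ^ (1 / 10 : ℝ)⌉₊, P_lt hS (Nat.le_ceil _)⟩
  have h := hf hS hC M hM (fun p => if p ∈ S.P then yv α S.T p else 0)
    (fun p => if p ∈ S.P then β p else 0) (fun _ => 0) c (by
      intro p hp
      have hpp : p.Prime := Nat.prime_of_mem_primesBelow hp
      have hu : (0 : ℝ) ≤ (p : ℝ) ^ (-(1 / 2) : ℝ) := by positivity
      by_cases hpP : p ∈ S.P
      · rw [if_pos hpP, if_pos hpP]
        obtain ⟨-, h1, -, h3⟩ := bb_le (b := true) hα hT1 0 hpp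
        refine ⟨h1, h3, (hbc p hpP).1, ?_, fun _ => (hbc p hpP).2⟩
        rw [norm_zero]
        positivity
      · rw [if_neg hpP, if_neg hpP]
        refine ⟨le_refl _, hu, ?_, ?_, fun h => absurd h hpP⟩
        · rw [norm_zero]; positivity
        · rw [norm_zero]; positivity)
  have e1 : ∀ w, (∏ p ∈ Nat.primesBelow M,
      ‖(1 - ((if p ∈ S.P then yv α S.T p else 0 : ℝ) : ℂ) * X p w)⁻¹‖ ^ 2) *
      (∏ p ∈ Nat.primesBelow M, ‖1 - (if p ∈ S.P then β p else 0) * X p w‖ ^ 2) *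
      Real.exp (2 * (∑ p ∈ Nat.primesBelow M, (0 : ℂ) * X p w).re) *
      (∏ j ∈ range (S.J + 1), ‖Ex (S.l j) (∑ p ∈ S.R j, c p * X p w)‖ ^ 2) =
      ‖L4g S α β c w‖ ^ 2 := by
    intro w
    have a1 : ∏ p ∈ Nat.primesBelow M,
        ‖(1 - ((if p ∈ S.P then yv α S.T p else 0 : ℝ) : ℂ) * X p w)⁻¹‖ ^ 2 =
        ‖Zt S.P (1 / 2 + α / Real.log S.T) w‖ ^ 2 := by
      rw [Zt, norm_prod, ← Finset.prod_pow]
      symm
      rw [← Finset.prod_subset hM]
      · refine Finset.prod_congr rfl fun p hp => ?_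
        rw [if_pos hp]
        rfl
      · intro p _ hp
        rw [if_neg hp]
        simp
    have a2 : ∏ p ∈ Nat.primesBelow M, ‖1 - (if p ∈ S.P then β p else 0) * X p w‖ ^ 2 =
        ‖∏ p ∈ S.P, (1 - β p * X p w)‖ ^ 2 := by
      rw [norm_prod, ← Finset.prod_pow]
      symm
      rw [← Finset.prod_subset hM]
      · refine Finset.prod_congr rfl fun p hp => ?_
        rw [if_pos hp]
      · intro p _ hp
        rw [if_neg hp]
        simp
    have a3 : ∑ p ∈ Nat.primesBelow M, (0 : ℂ) * X p w = 0 :=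
      Finset.sum_eq_zero fun p _ => zero_mul _
    rw [a1, a2, a3]
    simp only [L4g, norm_mul, norm_prod, mul_pow, ← Finset.prod_pow, Complex.zero_re, mul_zero,
      Real.exp_zero, mul_one]
  have e2 : ∑ p ∈ Nat.primesBelow M, ‖((if p ∈ S.P then yv α S.T p else 0 : ℝ) : ℂ) -
      (if p ∈ S.P then β p else 0) + 0 + (if p ∈ S.P then c p else 0)‖ ^ 2 =
      ∑ p ∈ S.P, ‖(yv α S.T p : ℂ) - β p + c p‖ ^ 2 := by
    symm
    rw [← Finset.sum_subset hM]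
    · refine Finset.sum_congr rfl fun p hp => ?_
      rw [if_pos hp, if_pos hp, if_pos hp, add_zero]
    · intro p _ hp
      rw [if_neg hp, if_neg hp, if_neg hp]
      simp
  simp only [e1, e2] at h
  exact h


theorem L4_u_pos {p : ℕ} (hp : p.Prime) : 0 < (p : ℝ) ^ (-(1 / 2) : ℝ) :=
  Real.rpow_pos_of_pos (by exact_mod_cast hp.pos) _

theorem L4_u_sq {p : ℕ} (hp : p.Prime) : ((p : ℝ) ^ (-(1 / 2) : ℝ)) ^ 2 = 1 / (p : ℝ) := by
  have h0 : (0 : ℝ) < p := by exact_mod_cast hp.pos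
  rw [← Real.rpow_natCast, ← Real.rpow_mul h0.le]
  norm_num
  rw [Real.rpow_neg_one]

theorem L4_yv {T α : ℝ} {p : ℕ} (hp : p.Prime) :
    yv α T p = (p : ℝ) ^ (-(1 / 2) : ℝ) * Real.exp (-(α * (Real.log p / Real.log T))) := by
  have h0 : (0 : ℝ) < p := by exact_mod_cast hp.pos
  rw [yv, Real.rpow_def_of_pos h0, Real.rpow_def_of_pos h0, ← Real.exp_add]
  congr 1
  ring

theorem L4b_one {T α ξ : ℝ} {b : Bool} {p : ℕ} (hp : p.Prime) :
    L4b b α T ξ 1 p = bb b α T ξ p := by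
  rw [L4b, bb, bz, L4_yv hp, Complex.ofReal_mul, Complex.ofReal_exp, mul_assoc, ← Complex.exp_add]
  congr 2
  push_cast
  ring

theorem L4b_zero {T α ξ : ℝ} {b : Bool} {p : ℕ} : L4b b α T ξ 0 p = (yv α T p : ℂ) := by
  rw [L4b, zero_mul, Complex.exp_zero, mul_one]

theorem L4c_one {T α lam : ℝ} {b : Bool} {p : ℕ} (hp : p.Prime) :
    L4c lam b α T 1 p = lam * (p : ℂ) ^ (-(1 / 2 + ((sgn b * α / Real.log T : ℝ) : ℂ))) := by
  have h0 : (p : ℂ) ≠ 0 := by exact_mod_cast hp.ne_zero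
  have h1 : (0 : ℝ) < p := by exact_mod_cast hp.pos
  rw [L4c, Complex.ofReal_mul, mul_assoc, Real.rpow_def_of_pos h1, Complex.ofReal_exp,
    ← Complex.exp_add, Complex.cpow_def_of_ne_zero h0, ← Complex.natCast_log]
  congr 2
  push_cast
  ring

theorem L4c_zero {T α lam : ℝ} {b : Bool} {p : ℕ} (hp : p.Prime) :
    L4c lam b α T 0 p = lam * (p : ℂ) ^ (-(1 / 2 + (0 : ℂ))) := by
  have h0 : (p : ℂ) ≠ 0 := by exact_mod_cast hp.ne_zero
  have h1 : (0 : ℝ) < p := by exact_mod_cast hp.pos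
  rw [L4c, Complex.ofReal_mul, mul_assoc, Real.rpow_def_of_pos h1, Complex.ofReal_exp,
    ← Complex.exp_add, Complex.cpow_def_of_ne_zero h0, ← Complex.natCast_log]
  congr 2
  push_cast
  ring

theorem L4_R_prime (hS : TG S Ct θ D1 N0) {j : ℕ} (hj : j ∈ range (S.J + 1)) {p : ℕ}
    (hp : p ∈ S.R j) : p.Prime :=
  (hS.prime j (Nat.lt_succ_iff.mp (Finset.mem_range.mp hj)) p hp).1

theorem L4h_one (hS : TG S Ct θ D1 N0) (lam : ℝ) (b : Bool) (α ξ : ℝ) (w : Om) :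
    L4h S lam b α ξ 1 w = Zt S.P (1 / 2 + α / Real.log S.T) w *
      (∏ p ∈ S.P, (1 - bb b α S.T ξ p * X p w)) *
      RT S lam (nX ((sgn b * α / Real.log S.T : ℝ) : ℂ) w) := by
  rw [L4h, L4g, RT_nX hS]
  congr 1
  · congr 1
    refine Finset.prod_congr rfl fun p hp => ?_
    rw [L4b_one (P_prime hS hp).1]
  · refine Finset.prod_congr rfl fun j hj => ?_
    congr 1
    refine Finset.sum_congr rfl fun p hp => ?_
    rw [L4c_one (L4_R_prime hS hj hp)]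

theorem L4h_zero (hS : TG S Ct θ D1 N0) (lam : ℝ) (b : Bool) {α : ℝ} (hα : 0 < α) (ξ : ℝ)
    (w : Om) : L4h S lam b α ξ 0 w = RT S lam (nX 0 w) := by
  have hL := L4_L hS
  have h1 : Zt S.P (1 / 2 + α / Real.log S.T) w * (∏ p ∈ S.P, (1 - L4b b α S.T ξ 0 p * X p w)) =
      1 := by
    rw [Zt, ← Finset.prod_mul_distrib]
    refine Finset.prod_eq_one fun p hp => ?_
    rw [L4b_zero, yv]
    refine inv_mul_cancel₀ ?_
    exact Zt_factor_ne_zero (P_prime hS hp).1.two_le (by positivity) w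
  rw [L4h, L4g, h1, one_mul, RT_nX hS]
  refine Finset.prod_congr rfl fun j hj => ?_
  congr 1
  refine Finset.sum_congr rfl fun p hp => ?_
  rw [L4c_zero (L4_R_prime hS hj hp)]

/-- the function of `τ` -/
noncomputable def L4F (S : BS) (lam : ℝ) (b : Bool) (α ξ1 ξ2 : ℝ) (τ : ℂ) : ℂ :=
  ∫ w, L4h S lam b α ξ1 τ w * conj (L4h S lam b α ξ2 (conj τ) w) ∂mu

theorem L4F_diff (hS : TG S Ct θ D1 N0) (lam : ℝ) (b : Bool) {α : ℝ} (hα : 0 < α) (ξ1 ξ2 : ℝ) :
    Differentiable ℂ (L4F S lam b α ξ1 ξ2) := by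
  unfold L4F
  exact ((L4_EC hS lam b hα ξ1).mul (L4_EC hS lam b hα ξ2).conj).differentiable

theorem L4F_one (hS : TG S Ct θ D1 N0) (lam : ℝ) (b : Bool) (α ξ1 ξ2 : ℝ) :
    L4F S lam b α ξ1 ξ2 1 = PhP S lam b α ξ1 ξ2 := by
  unfold L4F PhP
  congr 1
  funext w
  rw [map_one, L4h_one hS, L4h_one hS]
  simp only [map_mul, Complex.ofReal_mul, Complex.ofReal_pow, ← Complex.mul_conj']
  ring

theorem L4F_zero (hS : TG S Ct θ D1 N0) (lam : ℝ) (b : Bool) {α : ℝ} (hα : 0 < α) (ξ1 ξ2 : ℝ) :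
    L4F S lam b α ξ1 ξ2 0 = (ER S lam : ℂ) := by
  unfold L4F ER
  rw [← integral_complex_ofReal]
  congr 1
  funext w
  rw [map_zero, L4h_zero hS lam b hα, L4h_zero hS lam b hα, Complex.mul_conj']
  push_cast
  rfl

theorem L4F_bound (hS : TG S Ct θ D1 N0) (lam : ℝ) (b : Bool) {α : ℝ} (hα : 0 < α) (ξ1 ξ2 : ℝ)
    (τ : ℂ) {B : ℝ} (h1 : ∫ w, ‖L4h S lam b α ξ1 τ w‖ ^ 2 ∂mu ≤ B)
    (h2 : ∫ w, ‖L4h S lam b α ξ2 (conj τ) w‖ ^ 2 ∂mu ≤ B) : ‖L4F S lam b α ξ1 ξ2 τ‖ ≤ B := by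
  have c1 := (L4_EC hS lam b hα ξ1).continuous τ
  have c2 := (L4_EC hS lam b hα ξ2).continuous (conj τ)
  unfold L4F
  calc ‖∫ w, L4h S lam b α ξ1 τ w * conj (L4h S lam b α ξ2 (conj τ) w) ∂mu‖
      ≤ ∫ w, ‖L4h S lam b α ξ1 τ w * conj (L4h S lam b α ξ2 (conj τ) w)‖ ∂mu :=
        norm_integral_le_integral_norm _
    _ ≤ ∫ w, (1 / 2 * ‖L4h S lam b α ξ1 τ w‖ ^ 2 +
          1 / 2 * ‖L4h S lam b α ξ2 (conj τ) w‖ ^ 2) ∂mu := by
        refine integral_mono (integrable_of_continuous ?_) (integrable_of_continuous ?_) ?_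
        · exact (c1.mul (Complex.continuous_conj.comp c2)).norm
        · exact (continuous_const.mul (c1.norm.pow 2)).add (continuous_const.mul (c2.norm.pow 2))
        · intro w
          beta_reduce
          rw [norm_mul, RCLike.norm_conj]
          nlinarith [sq_nonneg (‖L4h S lam b α ξ1 τ w‖ - ‖L4h S lam b α ξ2 (conj τ) w‖)]
    _ = 1 / 2 * ∫ w, ‖L4h S lam b α ξ1 τ w‖ ^ 2 ∂mu +
          1 / 2 * ∫ w, ‖L4h S lam b α ξ2 (conj τ) w‖ ^ 2 ∂mu := by
        have i1 : Integrable (fun w => 1 / 2 * ‖L4h S lam b α ξ1 τ w‖ ^ 2) mu :=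
          integrable_of_continuous (continuous_const.mul (c1.norm.pow 2))
        have i2 : Integrable (fun w => 1 / 2 * ‖L4h S lam b α ξ2 (conj τ) w‖ ^ 2) mu :=
          integrable_of_continuous (continuous_const.mul (c2.norm.pow 2))
        rw [integral_add i1 i2, integral_const_mul, integral_const_mul]
    _ ≤ B := by linarith


/-! ### The numbers -/

theorem L4_sq {u lam D E B y' : ℝ} {x c : ℂ} (hD : 0 ≤ D)
    (hE : 0 ≤ E) (hB : D + E ≤ B) (hy : u ^ 2 = y') (hx : ‖x‖ ≤ D * u)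
    (hc : ‖c‖ ≤ (lam + E) * u) :
    ‖x + c‖ ^ 2 ≤ lam ^ 2 * y' + (2 * lam + B) * ((D + E) * y') := by
  have h1 : ‖x + c‖ ≤ (lam + (D + E)) * u := by
    calc ‖x + c‖ ≤ ‖x‖ + ‖c‖ := norm_add_le _ _
      _ ≤ D * u + (lam + E) * u := add_le_add hx hc
      _ = (lam + (D + E)) * u := by ring
  calc ‖x + c‖ ^ 2 ≤ ((lam + (D + E)) * u) ^ 2 := pow_le_pow_left₀ (norm_nonneg _) h1 2
    _ = (lam ^ 2 + 2 * lam * (D + E) + (D + E) * (D + E)) * y' := by rw [← hy]; ring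
    _ ≤ (lam ^ 2 + 2 * lam * (D + E) + B * (D + E)) * y' := by
        have hy0 : 0 ≤ y' := by rw [← hy]; positivity
        have : (D + E) * (D + E) ≤ B * (D + E) := mul_le_mul_of_nonneg_right hB (by linarith)
        exact mul_le_mul_of_nonneg_right (by linarith) hy0
    _ = lam ^ 2 * y' + (2 * lam + B) * ((D + E) * y') := by ring

theorem L4_v (hS : TG S Ct θ D1 N0) {p : ℕ} (hp : p ∈ S.P) :
    0 ≤ Real.log p / Real.log S.T ∧ Real.log p / Real.log S.T ≤ θ ^ 5 := by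
  have hL := L4_L hS
  obtain ⟨h1, h2⟩ := P_prime hS hp
  have h3 : 0 ≤ Real.log p := Real.log_natCast_nonneg p
  refine ⟨by positivity, ?_⟩
  rw [div_le_iff₀ (by linarith)]
  exact h2

theorem L4_abs_sgn (b : Bool) : |sgn b| = 1 := by
  cases b <;> simp [sgn]

theorem L4_sgn_le (b : Bool) {α : ℝ} (hα : 0 < α) : |sgn b * α| = α := by
  rw [abs_mul, L4_abs_sgn, one_mul, abs_of_pos hα]

/-- small `τ` -/
theorem L4_small (hS : TG S Ct θ D1 N0) {lam : ℝ} (h0 : 0 < lam) (b : Bool) {α : ℝ} (hα : 0 < α)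
    {ξ a : ℝ} (ha : α + 1 + 7 * |ξ| ≤ a) {τ : ℂ} {p : ℕ} (hp : p ∈ S.P)
    (ht : ‖τ‖ * a * (Real.log p / Real.log S.T) ≤ 1 / 4) :
    ‖(yv α S.T p : ℂ) - L4b b α S.T ξ τ p‖ ≤
      2 * (‖τ‖ * a * (Real.log p / Real.log S.T)) * (p : ℝ) ^ (-(1 / 2) : ℝ) ∧
    ‖L4c lam b α S.T τ p‖ ≤
      (lam + lam * (2 * (‖τ‖ * a * (Real.log p / Real.log S.T)))) * (p : ℝ) ^ (-(1 / 2) : ℝ) := by
  obtain ⟨hv0, hv1⟩ := L4_v hS hp
  have hpp := (P_prime hS hp).1
  set v := Real.log p / Real.log S.T with hv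
  set t := ‖τ‖ * a * v with ht'
  have hu := L4_u_pos hpp
  set u := (p : ℝ) ^ (-(1 / 2) : ℝ) with hu'
  have hξ : 0 ≤ |ξ| := abs_nonneg _
  have ha0 : 0 ≤ a := by linarith
  have ht0 : 0 ≤ t := by positivity
  have hT1 : Real.exp 1 ≤ S.T :=
    le_trans (Real.exp_le_exp.mpr (by norm_num)) hS.T_ge
  obtain ⟨-, y0, -, y1⟩ := bb_le (b := true) hα hT1 0 hpp
  constructor
  · have e1 : (yv α S.T p : ℂ) - L4b b α S.T ξ τ p = -((yv α S.T p : ℂ) *
        (cexp (τ * (-((sgn b * α + 1 - 2 * π * ξ * I) * (v : ℂ)))) - 1)) := by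
      rw [L4b]
      ring
    have e2 : ‖τ * (-((sgn b * α + 1 - 2 * π * ξ * I) * (v : ℂ)))‖ ≤ t := by
      rw [norm_mul, norm_neg, norm_mul, Complex.norm_real, Real.norm_of_nonneg hv0, ht', ← mul_assoc]
      refine mul_le_mul_of_nonneg_right (mul_le_mul_of_nonneg_left ?_ (norm_nonneg _)) hv0
      calc ‖(sgn b : ℂ) * α + 1 - 2 * π * ξ * I‖ ≤ ‖(sgn b : ℂ) * α + 1‖ + ‖2 * π * ξ * I‖ :=
            norm_sub_le _ _
        _ ≤ (‖(sgn b : ℂ) * α‖ + ‖(1 : ℂ)‖) + ‖2 * π * ξ * I‖ := by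
            gcongr
            exact norm_add_le _ _
        _ = α + 1 + 2 * π * |ξ| := by
            rw [← Complex.ofReal_mul, Complex.norm_real, Real.norm_eq_abs, L4_sgn_le b hα, norm_one]
            congr 1
            rw [norm_mul, norm_mul, norm_mul, Complex.norm_real, Complex.norm_real, Complex.norm_I,
              Complex.norm_two, Real.norm_of_nonneg Real.pi_pos.le, Real.norm_eq_abs, mul_one]
        _ ≤ a := by nlinarith [Real.pi_lt_d2]
    rw [e1, norm_neg, norm_mul, Complex.norm_real, Real.norm_of_nonneg y0]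
    calc yv α S.T p * ‖cexp (τ * (-((sgn b * α + 1 - 2 * π * ξ * I) * (v : ℂ)))) - 1‖
        ≤ u * (2 * t) := by
          refine mul_le_mul y1 ?_ (norm_nonneg _) hu.le
          refine (Complex.norm_exp_sub_one_le (e2.trans (by linarith))).trans ?_
          linarith
      _ = 2 * t * u := by ring
  · have e2 : ‖τ * (-((sgn b * α * v : ℝ) : ℂ))‖ ≤ t := by
      rw [norm_mul, norm_neg, Complex.norm_real, Real.norm_eq_abs, abs_mul, L4_sgn_le b hα,
        abs_of_nonneg hv0, ht', ← mul_assoc]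
      refine mul_le_mul_of_nonneg_right (mul_le_mul_of_nonneg_left ?_ (norm_nonneg _)) hv0
      linarith
    have e3 : ‖cexp (τ * (-((sgn b * α * v : ℝ) : ℂ)))‖ ≤ 1 + 2 * t := by
      have h1 := Complex.norm_exp_sub_one_le (e2.trans (by linarith))
      have h2 : cexp (τ * (-((sgn b * α * v : ℝ) : ℂ))) =
          1 + (cexp (τ * (-((sgn b * α * v : ℝ) : ℂ))) - 1) := by ring
      rw [h2]
      refine (norm_add_le _ _).trans ?_
      rw [norm_one]
      linarith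
    rw [L4c, norm_mul, Complex.norm_real, Real.norm_of_nonneg (by positivity)]
    calc lam * u * ‖cexp (τ * (-((sgn b * α * v : ℝ) : ℂ)))‖ ≤ lam * u * (1 + 2 * t) :=
          mul_le_mul_of_nonneg_left e3 (by positivity)
      _ = (lam + lam * (2 * t)) * u := by ring

/-- `τ = 1` -/
theorem L4_one (hS : TG S Ct θ D1 N0) {lam : ℝ} (h0 : 0 < lam) (b : Bool) {α : ℝ} (hα : 0 < α)
    {ξ a : ℝ} (ha : 2 * α + 1 + 7 * |ξ| ≤ a) {p : ℕ} (hp : p ∈ S.P) :
    ‖(yv α S.T p : ℂ) - L4b b α S.T ξ 1 p‖ ≤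
      2 * (min 2 (a * (Real.log p / Real.log S.T))) * (p : ℝ) ^ (-(1 / 2) : ℝ) ∧
    ‖L4c lam b α S.T 1 p‖ ≤
      (lam + lam * (α * Real.exp α * (Real.log p / Real.log S.T))) *
        (p : ℝ) ^ (-(1 / 2) : ℝ) := by
  obtain ⟨hv0, hv1⟩ := L4_v hS hp
  have hpp := (P_prime hS hp).1
  have hL := L4_L hS
  have hv2 : Real.log p / Real.log S.T ≤ 1 := by
    refine hv1.trans ?_
    exact pow_le_one₀ hS.th_pos.le (hS.th_le.trans (by norm_num))
  set v := Real.log p / Real.log S.T with hv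
  have hu := L4_u_pos hpp
  have hξ : 0 ≤ |ξ| := abs_nonneg _
  have hT : 1 < S.T := by
    have := hS.T_ge
    have h1 : (1 : ℝ) < Real.exp 1000 := by
      rw [Real.one_lt_exp_iff]
      norm_num
    linarith
  constructor
  · have hz : 0 ≤ (((sgn b * α / Real.log S.T : ℝ) : ℂ)).re + (α + 1) / Real.log S.T := by
      rw [Complex.ofReal_re, ← add_div]
      refine div_nonneg ?_ (by linarith)
      have := neg_abs_le (sgn b * α)
      rw [L4_sgn_le b hα] at this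
      linarith
    have h1 := bz_sub hT hz ξ hpp
    have h2 : ‖(((p : ℝ) ^ (-(1 / 2) : ℝ) : ℝ) : ℂ) - (yv α S.T p : ℂ)‖ ≤
        min 2 (a * v) * (p : ℝ) ^ (-(1 / 2) : ℝ) := by
      rw [L4_yv hpp, ← hv]
      set u := (p : ℝ) ^ (-(1 / 2) : ℝ) with hu'
      have e1 : ((u : ℝ) : ℂ) - ((u * Real.exp (-(α * v)) : ℝ) : ℂ) =
          ((u * (1 - Real.exp (-(α * v))) : ℝ) : ℂ) := by
        push_cast
        ring
      have hav : 0 ≤ α * v := by positivity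
      have e2 : 0 ≤ 1 - Real.exp (-(α * v)) := by
        have : Real.exp (-(α * v)) ≤ 1 := by rw [Real.exp_le_one_iff]; linarith
        linarith
      have e3 : 1 - Real.exp (-(α * v)) ≤ min 2 (a * v) := by
        refine le_min ?_ ?_
        · have := Real.exp_pos (-(α * v)); linarith
        · have := Real.add_one_le_exp (-(α * v))
          have h3 : α * v ≤ a * v := mul_le_mul_of_nonneg_right (by linarith) hv0
          linarith
      rw [e1, Complex.norm_real, Real.norm_of_nonneg (by positivity), mul_comm]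
      exact mul_le_mul_of_nonneg_right e3 hu.le
    have h3 : min 2 ((|α + 1| + 7 * |ξ| + Real.log S.T * ‖((sgn b * α / Real.log S.T : ℝ) : ℂ)‖) *
        v) ≤ min 2 (a * v) := by
      refine min_le_min_left _ (mul_le_mul_of_nonneg_right ?_ hv0)
      rw [Complex.norm_real, Real.norm_eq_abs, abs_div, L4_sgn_le b hα,
        abs_of_pos (by linarith : 0 < Real.log S.T), mul_div_cancel₀ _ (by linarith),
        abs_of_pos (by linarith : 0 < α + 1)]
      linarith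
    rw [L4b_one hpp, bb]
    calc ‖(yv α S.T p : ℂ) - bz (α + 1) S.T ξ ((sgn b * α / Real.log S.T : ℝ) : ℂ) p‖
        ≤ ‖(((p : ℝ) ^ (-(1 / 2) : ℝ) : ℝ) : ℂ) - (yv α S.T p : ℂ)‖ +
          ‖(((p : ℝ) ^ (-(1 / 2) : ℝ) : ℝ) : ℂ) -
            bz (α + 1) S.T ξ ((sgn b * α / Real.log S.T : ℝ) : ℂ) p‖ := by
          rw [norm_sub_rev (((p : ℝ) ^ (-(1 / 2) : ℝ) : ℝ) : ℂ) (yv α S.T p : ℂ)]
          exact norm_sub_le_norm_sub_add_norm_sub _ _ _
      _ ≤ min 2 (a * v) * (p : ℝ) ^ (-(1 / 2) : ℝ) + min 2 (a * v) * (p : ℝ) ^ (-(1 / 2) : ℝ) :=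
          add_le_add h2 (h1.trans (mul_le_mul_of_nonneg_right h3 hu.le))
      _ = 2 * min 2 (a * v) * (p : ℝ) ^ (-(1 / 2) : ℝ) := by ring
  · set u := (p : ℝ) ^ (-(1 / 2) : ℝ) with hu'
    have hav : 0 ≤ α * v := by positivity
    have e3 : ‖cexp (1 * (-((sgn b * α * v : ℝ) : ℂ)))‖ ≤ 1 + α * Real.exp α * v := by
      rw [one_mul, ← Complex.ofReal_neg, ← Complex.ofReal_exp, Complex.norm_real,
        Real.norm_of_nonneg (Real.exp_pos _).le]
      have h1 : -(sgn b * α * v) ≤ α * v := by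
        have := neg_abs_le (sgn b * α)
        rw [L4_sgn_le b hα] at this
        nlinarith
      refine (Real.exp_le_exp.mpr h1).trans ?_
      -- exp x ≤ 1 + x exp x
      have h2 := Real.add_one_le_exp (-(α * v))
      have h3 : Real.exp (α * v) ≤ Real.exp α :=
        Real.exp_le_exp.mpr (by nlinarith)
      have h4 : Real.exp (α * v) * Real.exp (-(α * v)) = 1 := by
        rw [← Real.exp_add]; simp
      have h5 := Real.exp_pos (α * v)
      have h6 : Real.exp (α * v) * (-(α * v) + 1) ≤ Real.exp (α * v) * Real.exp (-(α * v)) :=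
        mul_le_mul_of_nonneg_left h2 h5.le
      rw [h4] at h6
      have h7 : Real.exp (α * v) * (α * v) ≤ Real.exp α * (α * v) :=
        mul_le_mul_of_nonneg_right h3 hav
      nlinarith
    rw [L4c, norm_mul, Complex.norm_real, Real.norm_of_nonneg (by positivity)]
    calc lam * u * ‖cexp (1 * (-((sgn b * α * v : ℝ) : ℂ)))‖ ≤
          lam * u * (1 + α * Real.exp α * v) :=
          mul_le_mul_of_nonneg_left e3 (by positivity)
      _ = (lam + lam * (α * Real.exp α * v)) * u := by ring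


theorem L4_ps_P : ∃ C : ℝ, 0 ≤ C ∧ ∀ {S : BS} {Ct θ D1 : ℝ} {N0 : ℕ}, TG S Ct θ D1 N0 →
    ∑ p ∈ S.P, (Real.log p / Real.log S.T) / (p : ℝ) ≤ θ ^ 5 + C / Real.log S.T := ps_P

/-- the sum of the `1/p` -/
theorem L4_Lam (S : BS) (lam : ℝ) (x : ℝ) (f : ℕ → ℝ) (hf : ∑ p ∈ S.P, f p ≤ x) :
    Real.exp (∑ p ∈ S.P, (lam ^ 2 * (1 / (p : ℝ)) + f p)) ≤ Real.exp x * Lam S lam := by
  rw [Lam, ← Real.exp_add]
  refine Real.exp_le_exp.mpr ?_
  rw [Finset.sum_add_distrib, ← Finset.mul_sum]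
  linarith

/-- the bound on the disc -/
theorem L4_disc (lam : ℝ) (h0 : 0 < lam) (α : ℝ) (hα : 0 < α) : ∃ C0 K CP : ℝ, 1 ≤ K ∧ 0 ≤ CP ∧
    ∀ {S : BS} {Ct θ D1 : ℝ} {N0 : ℕ}, TG S Ct θ D1 N0 → C0 ≤ Ct →
    CP / θ ^ 5 ≤ Real.log S.T → ∀ (b : Bool) (ξ a : ℝ), α + 1 + 7 * |ξ| ≤ a →
    ∀ τ : ℂ, ‖τ‖ * a * θ ^ 5 ≤ 1 / 4 →
    ∫ w, ‖L4h S lam b α ξ τ w‖ ^ 2 ∂mu ≤ K * Lam S lam := by
  obtain ⟨C0, K, hK, hf⟩ := L4_full (2 * lam + 2) (by positivity)
  obtain ⟨CP, hCP, hP⟩ := ps_P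
  set B := (1 + lam) / 2 with hB
  set x := (2 * lam + B) * (2 * (1 + lam) * (1 / 2)) with hx
  have hx0 : 0 ≤ x := by positivity
  refine ⟨C0, K * Real.exp x, CP, ?_, hCP, ?_⟩
  · have : 1 ≤ Real.exp x := Real.one_le_exp hx0
    nlinarith
  intro S Ct θ D1 N0 hS hC hL b ξ a ha τ hτ
  have hLp := L4_L hS
  have hθ5 : 0 < θ ^ 5 := pow_pos hS.th_pos 5
  have hξ : 0 ≤ |ξ| := abs_nonneg _
  have ha0 : 0 ≤ a := by linarith
  have hCL : CP / Real.log S.T ≤ θ ^ 5 := by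
    rw [div_le_iff₀ (by linarith)]
    rw [div_le_iff₀ hθ5] at hL
    linarith
  have ht : ∀ p ∈ S.P, ‖τ‖ * a * (Real.log p / Real.log S.T) ≤ 1 / 4 := by
    intro p hp
    refine le_trans ?_ hτ
    exact mul_le_mul_of_nonneg_left (L4_v hS hp).2 (by positivity)
  have ht0 : ∀ p ∈ S.P, 0 ≤ ‖τ‖ * a * (Real.log p / Real.log S.T) := by
    intro p hp
    have := (L4_v hS hp).1
    positivity
  have h1 := hf hS hC α hα (L4b b α S.T ξ τ) (L4c lam b α S.T τ) (by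
    intro p hp
    obtain ⟨s1, s2⟩ := L4_small hS h0 b hα ha hp (ht p hp)
    have hpp := (P_prime hS hp).1
    have hu := L4_u_pos hpp
    have hT1 : Real.exp 1 ≤ S.T :=
      le_trans (Real.exp_le_exp.mpr (by norm_num)) hS.T_ge
    obtain ⟨-, y0, -, y1⟩ := bb_le (b := true) hα hT1 0 hpp
    constructor
    · have e1 : L4b b α S.T ξ τ p = (yv α S.T p : ℂ) - ((yv α S.T p : ℂ) - L4b b α S.T ξ τ p) := by
        ring
      rw [e1]
      refine (norm_sub_le _ _).trans ?_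
      rw [Complex.norm_real, Real.norm_of_nonneg y0]
      calc yv α S.T p + ‖(yv α S.T p : ℂ) - L4b b α S.T ξ τ p‖
          ≤ (p : ℝ) ^ (-(1 / 2) : ℝ) + 2 * (‖τ‖ * a * (Real.log p / Real.log S.T)) *
            (p : ℝ) ^ (-(1 / 2) : ℝ) := add_le_add y1 s1
        _ ≤ (p : ℝ) ^ (-(1 / 2) : ℝ) + 2 * (1 / 4) * (p : ℝ) ^ (-(1 / 2) : ℝ) := by
            gcongr
            exact ht p hp
        _ ≤ (2 * lam + 2) * (p : ℝ) ^ (-(1 / 2) : ℝ) := by nlinarith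
    · refine s2.trans ?_
      refine mul_le_mul_of_nonneg_right ?_ hu.le
      nlinarith [ht p hp])
  refine h1.trans ?_
  rw [mul_assoc]
  refine mul_le_mul_of_nonneg_left ?_ (by linarith)
  refine le_trans (Real.exp_le_exp.mpr (Finset.sum_le_sum fun p hp => ?_))
    (L4_Lam S lam x (fun p => (2 * lam + B) * ((2 * (‖τ‖ * a * (Real.log p / Real.log S.T)) +
      lam * (2 * (‖τ‖ * a * (Real.log p / Real.log S.T)))) * (1 / (p : ℝ)))) ?_)
  · obtain ⟨s1, s2⟩ := L4_small hS h0 b hα ha hp (ht p hp)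
    have h2 := ht0 p hp
    have h3 := ht p hp
    refine L4_sq (by positivity) (by positivity) ?_ (L4_u_sq (P_prime hS hp).1) s1 s2
    rw [hB]
    nlinarith
  · have e1 : ∀ p ∈ S.P, (2 * lam + B) * ((2 * (‖τ‖ * a * (Real.log p / Real.log S.T)) +
        lam * (2 * (‖τ‖ * a * (Real.log p / Real.log S.T)))) * (1 / (p : ℝ))) =
        ((2 * lam + B) * (2 * (1 + lam) * (‖τ‖ * a))) *
          ((Real.log p / Real.log S.T) / (p : ℝ)) := by
      intro p _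
      ring
    rw [Finset.sum_congr rfl e1, ← Finset.mul_sum]
    calc ((2 * lam + B) * (2 * (1 + lam) * (‖τ‖ * a))) *
          ∑ p ∈ S.P, (Real.log p / Real.log S.T) / (p : ℝ)
        ≤ ((2 * lam + B) * (2 * (1 + lam) * (‖τ‖ * a))) * (2 * θ ^ 5) := by
          refine mul_le_mul_of_nonneg_left ?_ (by positivity)
          linarith [hP hS]
      _ = (2 * lam + B) * (2 * (1 + lam) * (2 * (‖τ‖ * a * θ ^ 5))) := by ring
      _ ≤ x := by
          rw [hx]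
          gcongr
          linarith

/-- the bound at `τ = 1` -/
theorem L4_triv (lam : ℝ) (h0 : 0 < lam) (α : ℝ) (hα : 0 < α) : ∃ (C0 K : ℝ) (m : ℕ), 1 ≤ K ∧
    ∀ {S : BS} {Ct θ D1 : ℝ} {N0 : ℕ}, TG S Ct θ D1 N0 → C0 ≤ Ct →
    ∀ (b : Bool) (ξ a : ℝ), 2 * α + 1 + 7 * |ξ| ≤ a →
    ∫ w, ‖L4h S lam b α ξ 1 w‖ ^ 2 ∂mu ≤ K * a ^ m * Lam S lam := by
  set A := lam + lam * (α * Real.exp α) + 5 with hA
  obtain ⟨C0, K, hK, hf⟩ := L4_full A (by positivity)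
  obtain ⟨CP, hCP, hP⟩ := ps_P
  obtain ⟨Cm, hCm, hm⟩ := ps_min
  set B := 4 + lam * (α * Real.exp α) with hB
  set m := ⌈(2 * lam + B) * 4⌉₊ with hmd
  set x := (2 * lam + B) * (2 * Cm + lam * (α * Real.exp α) * (1 + CP)) with hx
  have hx0 : 0 ≤ x := by positivity
  refine ⟨C0, K * Real.exp x, m, ?_, ?_⟩
  · have : 1 ≤ Real.exp x := Real.one_le_exp hx0
    nlinarith
  intro S Ct θ D1 N0 hS hC b ξ a ha
  have hLp := L4_L hS
  have hθ := hS.th_pos
  have hξ : 0 ≤ |ξ| := abs_nonneg _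
  have ha0 : 1 ≤ a := by linarith
  have hθ5 : θ ^ 5 ≤ 1 := pow_le_one₀ hθ.le (hS.th_le.trans (by norm_num))
  have h1 := hf hS hC α hα (L4b b α S.T ξ 1) (L4c lam b α S.T 1) (by
    intro p hp
    obtain ⟨s1, s2⟩ := L4_one hS h0 b hα ha hp
    have hpp := (P_prime hS hp).1
    have hu := L4_u_pos hpp
    obtain ⟨v0, v1⟩ := L4_v hS hp
    have hT1 : Real.exp 1 ≤ S.T :=
      le_trans (Real.exp_le_exp.mpr (by norm_num)) hS.T_ge
    obtain ⟨-, y0, -, y1⟩ := bb_le (b := true) hα hT1 0 hpp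
    constructor
    · have e1 : L4b b α S.T ξ 1 p = (yv α S.T p : ℂ) - ((yv α S.T p : ℂ) - L4b b α S.T ξ 1 p) := by
        ring
      rw [e1]
      refine (norm_sub_le _ _).trans ?_
      rw [Complex.norm_real, Real.norm_of_nonneg y0]
      calc yv α S.T p + ‖(yv α S.T p : ℂ) - L4b b α S.T ξ 1 p‖
          ≤ (p : ℝ) ^ (-(1 / 2) : ℝ) + 2 * (min 2 (a * (Real.log p / Real.log S.T))) *
            (p : ℝ) ^ (-(1 / 2) : ℝ) := add_le_add y1 s1
        _ ≤ (p : ℝ) ^ (-(1 / 2) : ℝ) + 2 * 2 * (p : ℝ) ^ (-(1 / 2) : ℝ) := by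
            gcongr
            exact min_le_left _ _
        _ = 5 * (p : ℝ) ^ (-(1 / 2) : ℝ) := by ring
        _ ≤ A * (p : ℝ) ^ (-(1 / 2) : ℝ) := by
            refine mul_le_mul_of_nonneg_right ?_ hu.le
            rw [hA]
            have : 0 ≤ lam + lam * (α * Real.exp α) := by positivity
            linarith
    · refine s2.trans (mul_le_mul_of_nonneg_right ?_ hu.le)
      rw [hA]
      have : lam * (α * Real.exp α * (Real.log p / Real.log S.T)) ≤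
          lam * (α * Real.exp α * 1) := by
        gcongr
        exact v1.trans hθ5
      linarith)
  refine h1.trans ?_
  rw [mul_assoc, mul_assoc]
  refine mul_le_mul_of_nonneg_left ?_ (by linarith)
  have hmul : Real.exp x * (a ^ m * Lam S lam) ≥
      Real.exp (x + (2 * lam + B) * 4 * Real.log a) * Lam S lam := by
    rw [Real.exp_add, mul_assoc]
    refine mul_le_mul_of_nonneg_left ?_ (Real.exp_pos _).le
    refine mul_le_mul_of_nonneg_right ?_ (Real.exp_pos _).le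
    have e1 : Real.exp ((2 * lam + B) * 4 * Real.log a) = a ^ ((2 * lam + B) * 4) := by
      rw [Real.rpow_def_of_pos (by linarith), mul_comm]
    rw [e1, ← Real.rpow_natCast]
    exact Real.rpow_le_rpow_of_exponent_le ha0 (Nat.le_ceil _)
  refine le_trans ?_ hmul
  refine le_trans (Real.exp_le_exp.mpr (Finset.sum_le_sum fun p hp => ?_))
    (L4_Lam S lam (x + (2 * lam + B) * 4 * Real.log a)
      (fun p => (2 * lam + B) * ((2 * (min 2 (a * (Real.log p / Real.log S.T))) +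
      lam * (α * Real.exp α * (Real.log p / Real.log S.T))) * (1 / (p : ℝ)))) ?_)
  · obtain ⟨s1, s2⟩ := L4_one hS h0 b hα ha hp
    obtain ⟨v0, v1⟩ := L4_v hS hp
    refine L4_sq ?_ (by positivity) ?_ (L4_u_sq (P_prime hS hp).1) s1 s2
    · have : 0 ≤ min 2 (a * (Real.log p / Real.log S.T)) := le_min (by norm_num) (by positivity)
      linarith
    · rw [hB]
      have h3 : min 2 (a * (Real.log p / Real.log S.T)) ≤ 2 := min_le_left _ _
      have h4 : lam * (α * Real.exp α * (Real.log p / Real.log S.T)) ≤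
          lam * (α * Real.exp α * 1) := by
        gcongr
        exact v1.trans hθ5
      linarith
  · have e1 : ∀ p ∈ S.P, (2 * lam + B) * ((2 * (min 2 (a * (Real.log p / Real.log S.T))) +
        lam * (α * Real.exp α * (Real.log p / Real.log S.T))) * (1 / (p : ℝ))) =
        (2 * lam + B) * 2 * (min 2 (a * (Real.log p / Real.log S.T)) / (p : ℝ)) +
        (2 * lam + B) * (lam * (α * Real.exp α)) *
          ((Real.log p / Real.log S.T) / (p : ℝ)) := by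
      intro p _
      ring
    rw [Finset.sum_congr rfl e1, Finset.sum_add_distrib, ← Finset.mul_sum, ← Finset.mul_sum]
    have hT := L4_T hS
    have hMT : (⌈S.T ^ (1 / 10 : ℝ)⌉₊ : ℝ) ≤ S.T ^ 2 := by
      have hT2 : 2 ≤ S.T := by
        have h2 := hS.T_ge
        have h3 := Real.add_one_le_exp (1000 : ℝ)
        linarith
      have h4 : S.T ^ (1 / 10 : ℝ) ≤ S.T := by
        have := Real.rpow_le_rpow_of_exponent_le (x := S.T) (by linarith)
          (by norm_num : (1 / 10 : ℝ) ≤ 1)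
        rwa [Real.rpow_one] at this
      have h5 := (Nat.ceil_lt_add_one (Real.rpow_nonneg hT.le (1 / 10 : ℝ))).le
      nlinarith
    have hsub : S.P ⊆ Nat.primesBelow ⌈S.T ^ (1 / 10 : ℝ)⌉₊ := P_lt hS (Nat.le_ceil _)
    have h2 : ∑ p ∈ S.P, min 2 (a * (Real.log p / Real.log S.T)) / (p : ℝ) ≤
        Cm + 2 * Real.log a := by
      refine le_trans (Finset.sum_le_sum_of_subset_of_nonneg hsub fun p _ _ => ?_)
        (hm S.T a _ hS.T_ge ha0 hMT)
      have h3 : 0 ≤ Real.log p := Real.log_natCast_nonneg p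
      have : 0 ≤ min 2 (a * (Real.log p / Real.log S.T)) := le_min (by norm_num) (by positivity)
      positivity
    have h3 : ∑ p ∈ S.P, (Real.log p / Real.log S.T) / (p : ℝ) ≤ 1 + CP := by
      refine (hP hS).trans ?_
      have : CP / Real.log S.T ≤ CP := div_le_self hCP (by linarith)
      linarith
    calc (2 * lam + B) * 2 * ∑ p ∈ S.P, min 2 (a * (Real.log p / Real.log S.T)) / (p : ℝ) +
          (2 * lam + B) * (lam * (α * Real.exp α)) *
            ∑ p ∈ S.P, (Real.log p / Real.log S.T) / (p : ℝ)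
        ≤ (2 * lam + B) * 2 * (Cm + 2 * Real.log a) +
          (2 * lam + B) * (lam * (α * Real.exp α)) * (1 + CP) := by
          refine add_le_add (mul_le_mul_of_nonneg_left h2 (by positivity))
            (mul_le_mul_of_nonneg_left h3 (by positivity))
      _ = x + (2 * lam + B) * 4 * Real.log a := by rw [hx]; ring

theorem L4_Xi (α ξ1 ξ2 : ℝ) (hα : 0 < α) :
    2 * α + 1 + 7 * |ξ1| ≤ (2 * α + 8) * (1 + |ξ1| + |ξ2|) ∧
    2 * α + 1 + 7 * |ξ2| ≤ (2 * α + 8) * (1 + |ξ1| + |ξ2|) ∧ 1 ≤ 1 + |ξ1| + |ξ2| := by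
  have h1 : 0 ≤ |ξ1| := abs_nonneg _
  have h2 : 0 ≤ |ξ2| := abs_nonneg _
  have h3 := mul_nonneg hα.le h1
  have h4 := mul_nonneg hα.le h2
  refine ⟨?_, ?_, by linarith⟩ <;> nlinarith

end

theorem PhP_le (lam : ℝ) (h0 : 0 < lam) (b : Bool) (α : ℝ) (hα : 0 < α) : ∃ (C0 K : ℝ) (m : ℕ),
    1 ≤ K ∧ ∀ {Ct θ D1 : ℝ} {N0 : ℕ}, C0 ≤ Ct → ∃ T0 : ℝ, ∀ {S : BS}, TG S Ct θ D1 N0 → T0 ≤ S.T →
    ∀ ξ1 ξ2 : ℝ, ‖PhP S lam b α ξ1 ξ2‖ ≤ K * (1 + |ξ1| + |ξ2|) ^ m * Lam S lam := by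
  obtain ⟨C0, K, m, hK, hf⟩ := L4_triv lam h0 α hα
  refine ⟨C0, K * (2 * α + 8) ^ m, m, ?_, ?_⟩
  · have : 1 ≤ (2 * α + 8) ^ m := one_le_pow₀ (by linarith)
    nlinarith
  intro Ct θ D1 N0 hC
  refine ⟨0, fun {S} hS _ ξ1 ξ2 => ?_⟩
  obtain ⟨x1, x2, x3⟩ := L4_Xi α ξ1 ξ2 hα
  rw [← L4F_one hS]
  refine L4F_bound hS lam b hα ξ1 ξ2 1 ?_ ?_
  · refine (hf hS hC b ξ1 _ x1).trans (le_of_eq ?_)
    rw [mul_pow]
    ring
  · rw [map_one]
    refine (hf hS hC b ξ2 _ x2).trans (le_of_eq ?_)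
    rw [mul_pow]
    ring

theorem PhP_sub (lam : ℝ) (h0 : 0 < lam) (b : Bool) (α : ℝ) (hα : 0 < α) : ∃ (C0 K : ℝ) (m : ℕ),
    1 ≤ K ∧ ∀ {Ct θ D1 : ℝ} {N0 : ℕ}, C0 ≤ Ct → ∃ T0 : ℝ, ∀ {S : BS}, TG S Ct θ D1 N0 → T0 ≤ S.T →
    ∀ ξ1 ξ2 : ℝ, ‖PhP S lam b α ξ1 ξ2 - (ER S lam : ℂ)‖ ≤
      K * θ ^ 5 * (1 + |ξ1| + |ξ2|) ^ m * Lam S lam := by
  obtain ⟨C1, K1, m, hK1, hf1⟩ := PhP_le lam h0 b α hα
  obtain ⟨C2, K2, CP, hK2, hCP, hf2⟩ := L4_disc lam h0 α hα
  obtain ⟨C3, c3, K3, -, hK3, hf3⟩ := ER_bounds lam h0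
  set κ := 2 * α + 8 with hκ
  refine ⟨max C1 (max C2 C3), 12 * K2 * κ + 8 * κ * (K1 + K3), m + 1, ?_, ?_⟩
  · have : 1 ≤ K2 * κ := by nlinarith
    have : 0 ≤ 8 * κ * (K1 + K3) := by positivity
    linarith
  intro Ct θ D1 N0 hC
  have hC1 : C1 ≤ Ct := (le_max_left _ _).trans hC
  have hC2 : C2 ≤ Ct := (le_max_left _ _).trans ((le_max_right _ _).trans hC)
  have hC3 : C3 ≤ Ct := (le_max_right _ _).trans ((le_max_right _ _).trans hC)
  obtain ⟨T1, hT1⟩ := hf1 (θ := θ) (D1 := D1) (N0 := N0) hC1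
  refine ⟨max T1 (Real.exp (CP / θ ^ 5)), fun {S} hS hT ξ1 ξ2 => ?_⟩
  obtain ⟨x1, x2, x3⟩ := L4_Xi α ξ1 ξ2 hα
  have hθ := hS.th_pos
  have hθ5 : 0 < θ ^ 5 := pow_pos hθ 5
  have hLam : 1 ≤ Lam S lam := one_le_Lam S lam
  have hLT : CP / θ ^ 5 ≤ Real.log S.T := by
    rw [Real.le_log_iff_exp_le (L4_T hS)]
    exact (le_max_right _ _).trans hT
  set Ξ := 1 + |ξ1| + |ξ2| with hΞ
  set a := κ * Ξ with ha
  have ha0 : 1 ≤ a := by
    rw [ha]
    nlinarith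
  have hξ1 : 0 ≤ |ξ1| := abs_nonneg _
  have hξ2 : 0 ≤ |ξ2| := abs_nonneg _
  rcases le_or_gt (8 * a * θ ^ 5) 1 with h8 | h8
  · -- Schwarz lemma
    set ρ := 1 / (4 * a * θ ^ 5) with hρ
    have hρ2 : 2 ≤ ρ := by
      rw [hρ, le_div_iff₀ (by positivity)]
      linarith
    have hball : ∀ τ ∈ Metric.ball (0 : ℂ) ρ,
        ‖L4F S lam b α ξ1 ξ2 τ‖ ≤ K2 * Lam S lam := by
      intro τ hτ
      rw [mem_ball_zero_iff] at hτ
      have h1 : ‖τ‖ * a * θ ^ 5 ≤ 1 / 4 := by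
        have h2 : ‖τ‖ * (4 * a * θ ^ 5) ≤ ρ * (4 * a * θ ^ 5) :=
          mul_le_mul_of_nonneg_right hτ.le (by positivity)
        rw [hρ, one_div, inv_mul_cancel₀ (by positivity)] at h2
        linarith
      refine L4F_bound hS lam b hα ξ1 ξ2 τ ?_ ?_
      · exact hf2 hS hC2 hLT b ξ1 a (by linarith) τ h1
      · refine hf2 hS hC2 hLT b ξ2 a (by linarith) (conj τ) ?_
        rwa [RCLike.norm_conj]
    have hmaps : Set.MapsTo (L4F S lam b α ξ1 ξ2) (Metric.ball (0 : ℂ) ρ)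
        (Metric.closedBall (L4F S lam b α ξ1 ξ2 0) (3 * (K2 * Lam S lam))) := by
      intro τ hτ
      rw [Metric.mem_closedBall, dist_eq_norm]
      have h1 := hball τ hτ
      have h2 := hball 0 (Metric.mem_ball_self (by linarith))
      have h3 : 0 < K2 * Lam S lam := by positivity
      have h4 := norm_sub_le (L4F S lam b α ξ1 ξ2 τ) (L4F S lam b α ξ1 ξ2 0)
      linarith
    have h1 : (1 : ℂ) ∈ Metric.ball (0 : ℂ) ρ := by
      rw [mem_ball_zero_iff, norm_one]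
      linarith
    have h2 := Complex.dist_le_div_mul_dist_of_mapsTo_ball
      (L4F_diff hS lam b hα ξ1 ξ2).differentiableOn hmaps h1
    rw [L4F_one hS, L4F_zero hS lam b hα, dist_eq_norm, dist_zero_right, norm_one, mul_one] at h2
    refine h2.trans ?_
    have e1 : 3 * (K2 * Lam S lam) / ρ = 12 * K2 * κ * θ ^ 5 * Ξ * Lam S lam := by
      rw [hρ, ha]
      field_simp
      ring
    rw [e1]
    have h3 : Ξ ≤ Ξ ^ (m + 1) := le_self_pow₀ x3 (Nat.succ_ne_zero m)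
    have h4 : 12 * K2 * κ ≤ 12 * K2 * κ + 8 * κ * (K1 + K3) := by
      have : 0 ≤ 8 * κ * (K1 + K3) := by positivity
      linarith
    gcongr
  · have h1 := hT1 hS ((le_max_left _ _).trans hT) ξ1 ξ2
    have h2 := (hf3 hS hC3).2
    have hER : 0 ≤ ER S lam := integral_nonneg fun w => by positivity
    have h3 : ‖PhP S lam b α ξ1 ξ2 - (ER S lam : ℂ)‖ ≤ (K1 + K3) * Ξ ^ m * Lam S lam := by
      refine (norm_sub_le _ _).trans ?_
      rw [Complex.norm_real, Real.norm_of_nonneg hER]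
      have h5 : 1 ≤ Ξ ^ m := one_le_pow₀ x3
      have h6 : K3 * Lam S lam ≤ K3 * Ξ ^ m * Lam S lam := by
        have : K3 * 1 ≤ K3 * Ξ ^ m := mul_le_mul_of_nonneg_left h5 (by linarith)
        have := mul_le_mul_of_nonneg_right this (by linarith : 0 ≤ Lam S lam)
        linarith
      linarith
    refine h3.trans ?_
    have h7 : (K1 + K3) * Ξ ^ m * Lam S lam ≤
        (K1 + K3) * Ξ ^ m * Lam S lam * (8 * a * θ ^ 5) := by
      refine le_mul_of_one_le_right ?_ h8.le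
      positivity
    refine h7.trans ?_
    have e1 : (K1 + K3) * Ξ ^ m * Lam S lam * (8 * a * θ ^ 5) =
        (8 * κ * (K1 + K3)) * θ ^ 5 * Ξ ^ (m + 1) * Lam S lam := by
      rw [ha, pow_succ]
      ring
    rw [e1]
    have h4 : 8 * κ * (K1 + K3) ≤ 12 * K2 * κ + 8 * κ * (K1 + K3) := by
      have : 0 ≤ 12 * K2 * κ := by positivity
      linarith
    gcongr

theorem PhP_continuous {S : BS} {Ct θ D1 : ℝ} {N0 : ℕ} (hS : TG S Ct θ D1 N0) (lam : ℝ) (b : Bool)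
    {α : ℝ} (hα : 0 < α) : Continuous (fun q : ℝ × ℝ => PhP S lam b α q.1 q.2) := by
  unfold PhP
  have hRT : Continuous (fun w => RT S lam (nX ((sgn b * α / Real.log S.T : ℝ) : ℂ) w)) := by
    have : (fun w => RT S lam (nX ((sgn b * α / Real.log S.T : ℝ) : ℂ) w)) =
        fun w => ∏ j ∈ range (S.J + 1), Ex (S.l j) (∑ p ∈ S.R j,
          (lam * (p : ℂ) ^ (-(1 / 2 + ((sgn b * α / Real.log S.T : ℝ) : ℂ)))) * X p w) :=
      funext fun w => RT_nX hS lam _ w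
    rw [this]
    refine continuous_finsetProd _ fun j _ => (continuous_Ex _).comp ?_
    exact continuous_finsetSum _ fun p _ => continuous_const.mul (continuous_X p)
  have hZ := L4_Zt_cont hS hα
  have h1 : Continuous (fun r : (ℝ × ℝ) × Om =>
      ∏ p ∈ S.P, (1 - bb b α S.T r.1.1 p * X p r.2)) := by
    refine continuous_finsetProd _ fun p _ => continuous_const.sub (Continuous.mul ?_ ?_)
    · exact (bb_continuous b α S.T p).comp (continuous_fst.comp continuous_fst)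
    · exact (continuous_X p).comp continuous_snd
  have h2 : Continuous (fun r : (ℝ × ℝ) × Om =>
      ∏ p ∈ S.P, (1 - bb b α S.T r.1.2 p * X p r.2)) := by
    refine continuous_finsetProd _ fun p _ => continuous_const.sub (Continuous.mul ?_ ?_)
    · exact (bb_continuous b α S.T p).comp (continuous_snd.comp continuous_fst)
    · exact (continuous_X p).comp continuous_snd
  have h3 : Continuous (fun w : Om => ‖Zt S.P (1 / 2 + α / Real.log S.T) w‖ ^ 2 *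
      ‖RT S lam (nX ((sgn b * α / Real.log S.T : ℝ) : ℂ) w)‖ ^ 2) :=
    (hZ.norm.pow 2).mul (hRT.norm.pow 2)
  have h4 : Continuous (fun r : (ℝ × ℝ) × Om =>
      (((‖Zt S.P (1 / 2 + α / Real.log S.T) r.2‖ ^ 2 *
      ‖RT S lam (nX ((sgn b * α / Real.log S.T : ℝ) : ℂ) r.2)‖ ^ 2 : ℝ)) : ℂ)) :=
    Complex.continuous_ofReal.comp (h3.comp continuous_snd)
  have h5 : Continuous (fun r : (ℝ × ℝ) × Om =>
      conj (∏ p ∈ S.P, (1 - bb b α S.T r.1.2 p * X p r.2))) :=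
    Complex.continuous_conj.comp h2
  have hF := h4.mul (h1.mul h5)
  have h := continuous_parametric_integral_of_continuous (μ := mu)
    (f := fun (q : ℝ × ℝ) (w : Om) =>
      (((‖Zt S.P (1 / 2 + α / Real.log S.T) w‖ ^ 2 *
      ‖RT S lam (nX ((sgn b * α / Real.log S.T : ℝ) : ℂ) w)‖ ^ 2 : ℝ)) : ℂ) *
    ((∏ p ∈ S.P, (1 - bb b α S.T q.1 p * X p w)) *
      conj (∏ p ∈ S.P, (1 - bb b α S.T q.2 p * X p w)))) hF isCompact_univ
  simpa only [Measure.restrict_univ] using h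

end Pool.Agent.LB
end

section

/-! TASK L5. Bounds for the products of the `Gp`. `L = log T`, `v = log p/L`, `y = yv`, `b_j = bb ξ_j`. `y - b_j = p^{-1/2}(e^{-αv} - e^{-β_j v})`, `β_j = sgn b α + α + 1 - 2πiξ_j`, `Re β_j ≥ 1`. So `‖y - b_j‖ ≤ p^{-1/2} min 2 (a v)` with `a = 2α + 2 + 7|ξ1| + 7|ξ2|` (`Re ≥ 0`: `‖e^{-x} - e^{-z}‖ ≤ ‖x - z‖`), and `‖y - b_j‖ ≤ 2 p^{-1/2} e^{-α' v}`, `α' = min α 1`. `1 - y² ≥ 1/2`. `‖Gp - 1‖ ≤ 2‖y-b_1‖‖y-b_2‖`.
`prod_le`: `‖∏_{p∈R} Gp‖ ≤ exp(∑_{p∈R} ‖Gp - 1‖)`; primes `p ≤ T²`: `2·2·min 2 (a v)/p`, sum `≤ 4(C + 2 log a)` (`ps_min` with `M = ⌊T²⌋₊`; the prime `p ≤ T²` itself is `< M+1`: treat `p = M` separately, or use `ps_min` up to `⌊T²⌋₊` and one more term); primes `p > T²`: `8 e^{-2α' v}/p`, in the ranges `T^k < p ≤ T^{k+1}`, `k ≥ 2`: `∑ 1/p ≤ C` (`mertens_inv`), so the sum is `≤ 8C ∑_k e^{-2α' k}`.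
`prod_P`: for `p ∈ P` `v ≤ θ^5`: `‖Gp - 1‖ ≤ 2a² v²/p ≤ 2a²θ^5 v/p`, so `x := ∑_P ‖Gp - 1‖ ≤ 2a²θ^5 (θ^5 + C/L) ≤ 4a²θ^{10}` (`ps_P`, `T ≥ T0(θ)`). If `x ≤ 1`: `‖∏ - 1‖ ≤ e^x - 1 ≤ 2x`; if `x > 1`: `‖∏ - 1‖ ≤ ‖∏‖ + 1 ≤ (prod_le + 1) x`. -/

set_option autoImplicit false

namespace Pool.Agent.LB

open Complex MeasureTheory Finset Pool.Agent.GH Pool.Agent.UH Pool.Agent.UV
open scoped Real ComplexConjugate

private lemma L5_sgn (b : Bool) : |sgn b| = 1 ∧ -1 ≤ sgn b := by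
  cases b <;> simp [sgn]

private lemma L5_usq {p : ℕ} (hp : p.Prime) : ((p : ℝ) ^ (-(1 / 2) : ℝ)) ^ 2 = 1 / (p : ℝ) := by
  have h2 : (0 : ℝ) < p := by exact_mod_cast hp.pos
  rw [← Real.rpow_natCast, ← Real.rpow_mul h2.le]
  norm_num
  rw [Real.rpow_neg_one]

private lemma L5_y {α T : ℝ} {p : ℕ} (hp : p.Prime) : yv α T p =
    (p : ℝ) ^ (-(1 / 2) : ℝ) * Real.exp (-(α * (Real.log p / Real.log T))) := by
  have h2 : (0 : ℝ) < p := by exact_mod_cast hp.pos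
  unfold yv
  rw [neg_add, Real.rpow_add h2]
  congr 1
  rw [Real.rpow_def_of_pos h2]
  congr 1
  ring

private lemma L5_dist {b : Bool} {α T : ℝ} (hα : 0 < α) (hT : Real.exp 1000 ≤ T) (ξ : ℝ) {p : ℕ}
    (hp : p.Prime) {a : ℝ} (ha : 3 * α + 1 + 7 * |ξ| ≤ a) :
    ‖(yv α T p : ℂ) - bb b α T ξ p‖ ≤
      2 * min 2 (a * (Real.log p / Real.log T)) * (p : ℝ) ^ (-(1 / 2) : ℝ) := by
  have hT1 : 1 < T := lt_of_lt_of_le (Real.one_lt_exp_iff.2 (by norm_num)) hT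
  have hL : 0 < Real.log T := Real.log_pos hT1
  obtain ⟨hs1, hs2⟩ := L5_sgn b
  set L := Real.log T with hLd
  set u : ℝ := (p : ℝ) ^ (-(1 / 2) : ℝ) with hu
  have hu0 : 0 ≤ u := by positivity
  have hlp : 0 ≤ Real.log p := Real.log_nonneg (by exact_mod_cast hp.one_le)
  have hv : 0 ≤ Real.log p / L := by positivity
  have hξ : 0 ≤ |ξ| := abs_nonneg ξ
  have hz : 0 ≤ (((sgn b * α / L : ℝ) : ℂ)).re + (α + 1) / L := by
    rw [Complex.ofReal_re, ← add_div]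
    refine div_nonneg ?_ hL.le
    nlinarith
  have h1 := bz_sub (s0 := α + 1) hT1 (z := ((sgn b * α / L : ℝ) : ℂ)) hz ξ hp
  have hzn : Real.log T * ‖((sgn b * α / L : ℝ) : ℂ)‖ = α := by
    rw [Complex.norm_real, Real.norm_eq_abs, abs_div, abs_mul, hs1, abs_of_pos hα, abs_of_pos hL,
      ← hLd]
    field_simp
  rw [hzn, abs_of_pos (by linarith : 0 < α + 1), ← hu, ← hLd] at h1
  have h2 : min 2 ((α + 1 + 7 * |ξ| + α) * (Real.log p / L)) ≤ min 2 (a * (Real.log p / L)) := by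
    refine min_le_min le_rfl (mul_le_mul_of_nonneg_right ?_ hv)
    linarith
  have h3 : ‖(yv α T p : ℂ) - (u : ℂ)‖ ≤ min 2 (a * (Real.log p / L)) * u := by
    rw [← Complex.ofReal_sub, Complex.norm_real, L5_y hp, ← hu, ← hLd, Real.norm_eq_abs]
    have e1 : u * Real.exp (-(α * (Real.log p / L))) - u =
        -(u * (1 - Real.exp (-(α * (Real.log p / L))))) := by ring
    have e2 : Real.exp (-(α * (Real.log p / L))) ≤ 1 := by
      rw [Real.exp_le_one_iff]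
      have : 0 ≤ α * (Real.log p / L) := by positivity
      linarith
    have e3 : 0 < Real.exp (-(α * (Real.log p / L))) := Real.exp_pos _
    rw [e1, abs_neg, abs_of_nonneg (mul_nonneg hu0 (by linarith)), mul_comm]
    refine mul_le_mul_of_nonneg_right (le_min (by linarith) ?_) hu0
    have e4 := Real.add_one_le_exp (-(α * (Real.log p / L)))
    have e5 : α * (Real.log p / L) ≤ a * (Real.log p / L) :=
      mul_le_mul_of_nonneg_right (by linarith) hv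
    linarith
  have h4 : ‖(u : ℂ) - bb b α T ξ p‖ ≤ min 2 (a * (Real.log p / L)) * u := by
    unfold bb
    exact h1.trans (mul_le_mul_of_nonneg_right h2 hu0)
  calc ‖(yv α T p : ℂ) - bb b α T ξ p‖ = ‖((yv α T p : ℂ) - (u : ℂ)) + ((u : ℂ) - bb b α T ξ p)‖ := by
        congr 1
        ring
    _ ≤ ‖(yv α T p : ℂ) - (u : ℂ)‖ + ‖(u : ℂ) - bb b α T ξ p‖ := norm_add_le _ _
    _ ≤ _ := by linarith

private lemma L5_dec {b : Bool} {α T : ℝ} (hα : 0 < α) (hT : Real.exp 1000 ≤ T) (ξ : ℝ) {p : ℕ}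
    (hp : p.Prime) :
    ‖(yv α T p : ℂ) - bb b α T ξ p‖ ≤
      2 * Real.exp (-(min α 1 * (Real.log p / Real.log T))) * (p : ℝ) ^ (-(1 / 2) : ℝ) := by
  have hT1 : 1 < T := lt_of_lt_of_le (Real.one_lt_exp_iff.2 (by norm_num)) hT
  have hL : 0 < Real.log T := Real.log_pos hT1
  obtain ⟨hs1, hs2⟩ := L5_sgn b
  have hlp : 0 ≤ Real.log p := Real.log_nonneg (by exact_mod_cast hp.one_le)
  have hv : 0 ≤ Real.log p / Real.log T := by positivity
  have hu0 : 0 ≤ (p : ℝ) ^ (-(1 / 2) : ℝ) := by positivity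
  have h1 : ‖(yv α T p : ℂ)‖ ≤
      Real.exp (-(min α 1 * (Real.log p / Real.log T))) * (p : ℝ) ^ (-(1 / 2) : ℝ) := by
    rw [Complex.norm_real, L5_y hp, Real.norm_of_nonneg (by positivity), mul_comm]
    refine mul_le_mul_of_nonneg_right (Real.exp_le_exp.2 ?_) hu0
    have := mul_le_mul_of_nonneg_right (min_le_left α 1) hv
    linarith
  have h2 : ‖bb b α T ξ p‖ ≤
      Real.exp (-(min α 1 * (Real.log p / Real.log T))) * (p : ℝ) ^ (-(1 / 2) : ℝ) := by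
    unfold bb bz
    rw [norm_mul, Complex.norm_real, Real.norm_of_nonneg hu0, Complex.norm_exp, mul_comm]
    refine mul_le_mul_of_nonneg_right (Real.exp_le_exp.2 ?_) hu0
    have e1 : (-((((sgn b * α / Real.log T : ℝ) : ℂ) +
        (((α + 1 : ℝ) : ℂ) - 2 * π * ξ * I) / (Real.log T : ℝ)) * (Real.log p : ℝ))).re =
        -((sgn b * α + α + 1) * (Real.log p / Real.log T)) := by
      rw [Complex.neg_re, Complex.re_mul_ofReal, Complex.add_re, Complex.ofReal_re,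
        Complex.div_ofReal_re, Complex.sub_re, Complex.ofReal_re]
      have e2 : (2 * π * ξ * I : ℂ).re = 0 := by
        have e3 : (2 * π * ξ * I : ℂ) = ((2 * π * ξ : ℝ) : ℂ) * I := by push_cast; ring
        rw [e3, Complex.re_ofReal_mul, Complex.I_re, mul_zero]
      rw [e2]
      field_simp
      ring
    rw [e1]
    have e4 : min α 1 ≤ sgn b * α + α + 1 := by
      have := min_le_right α 1
      nlinarith
    have := mul_le_mul_of_nonneg_right e4 hv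
    linarith
  calc ‖(yv α T p : ℂ) - bb b α T ξ p‖ ≤ ‖(yv α T p : ℂ)‖ + ‖bb b α T ξ p‖ := norm_sub_le _ _
    _ ≤ _ := by linarith

private lemma L5_G {b : Bool} {α T : ℝ} (hα : 0 < α) (hT : Real.exp 1000 ≤ T) (ξ1 ξ2 : ℝ) {p : ℕ}
    (hp : p.Prime) {A : ℝ} (hA : 0 ≤ A)
    (h1 : ‖(yv α T p : ℂ) - bb b α T ξ1 p‖ ≤ 2 * A * (p : ℝ) ^ (-(1 / 2) : ℝ))
    (h2 : ‖(yv α T p : ℂ) - bb b α T ξ2 p‖ ≤ 2 * A * (p : ℝ) ^ (-(1 / 2) : ℝ)) :
    ‖Gp b α T ξ1 ξ2 p - 1‖ ≤ 8 * A ^ 2 * (1 / (p : ℝ)) := by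
  have hT1 : 1 < T := lt_of_lt_of_le (Real.one_lt_exp_iff.2 (by norm_num)) hT
  have hL : 0 < Real.log T := Real.log_pos hT1
  have hlp : 0 ≤ Real.log p := Real.log_nonneg (by exact_mod_cast hp.one_le)
  have hu0 : 0 ≤ (p : ℝ) ^ (-(1 / 2) : ℝ) := by positivity
  have hp2 : (2 : ℝ) ≤ p := by exact_mod_cast hp.two_le
  have hy0 : 0 ≤ yv α T p := by
    rw [L5_y hp]
    positivity
  have hyu : yv α T p ≤ (p : ℝ) ^ (-(1 / 2) : ℝ) := by
    rw [L5_y hp]
    refine mul_le_of_le_one_right hu0 ?_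
    rw [Real.exp_le_one_iff]
    have : 0 ≤ α * (Real.log p / Real.log T) := by positivity
    linarith
  have hy2 : yv α T p ^ 2 ≤ 1 / 2 := by
    calc yv α T p ^ 2 ≤ ((p : ℝ) ^ (-(1 / 2) : ℝ)) ^ 2 := pow_le_pow_left₀ hy0 hyu 2
      _ = 1 / (p : ℝ) := L5_usq hp
      _ ≤ 1 / 2 := one_div_le_one_div_of_le (by norm_num) hp2
  have hc : ‖(yv α T p : ℂ) - conj (bb b α T ξ2 p)‖ = ‖(yv α T p : ℂ) - bb b α T ξ2 p‖ := by
    rw [← Complex.norm_conj ((yv α T p : ℂ) - bb b α T ξ2 p), map_sub, Complex.conj_ofReal]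
  have hd : ‖(1 - yv α T p ^ 2 : ℂ)‖ = 1 - yv α T p ^ 2 := by
    have e1 : (1 - yv α T p ^ 2 : ℂ) = ((1 - yv α T p ^ 2 : ℝ) : ℂ) := by push_cast; ring
    rw [e1, Complex.norm_real, Real.norm_of_nonneg (by linarith)]
  unfold Gp
  rw [add_sub_cancel_left, norm_div, norm_mul, hc, hd, div_le_iff₀ (by linarith)]
  have h3 : ‖(yv α T p : ℂ) - bb b α T ξ1 p‖ * ‖(yv α T p : ℂ) - bb b α T ξ2 p‖ ≤
      (2 * A * (p : ℝ) ^ (-(1 / 2) : ℝ)) * (2 * A * (p : ℝ) ^ (-(1 / 2) : ℝ)) :=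
    mul_le_mul h1 h2 (norm_nonneg _) (by positivity)
  have h4 : (2 * A * (p : ℝ) ^ (-(1 / 2) : ℝ)) * (2 * A * (p : ℝ) ^ (-(1 / 2) : ℝ)) =
      4 * A ^ 2 * (1 / (p : ℝ)) := by
    rw [← L5_usq hp]
    ring
  have h5 : 0 ≤ 8 * A ^ 2 * (1 / (p : ℝ)) := by positivity
  calc _ ≤ 4 * A ^ 2 * (1 / (p : ℝ)) := h3.trans h4.le
    _ = 8 * A ^ 2 * (1 / (p : ℝ)) * (1 / 2) := by ring
    _ ≤ 8 * A ^ 2 * (1 / (p : ℝ)) * (1 - yv α T p ^ 2) :=
        mul_le_mul_of_nonneg_left (by linarith) h5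

/-- The primes between `T ^ k` and `T ^ (k+1)`. -/
private lemma L5_range : ∃ C : ℝ, 0 ≤ C ∧ ∀ (T : ℝ) (k : ℕ) (F : Finset ℕ), Real.exp 1000 ≤ T →
    1 ≤ k → (∀ p ∈ F, p.Prime ∧ T ^ k ≤ (p : ℝ) ∧ (p : ℝ) ≤ T ^ (k + 1)) →
    ∑ p ∈ F, 1 / (p : ℝ) ≤ C := by
  obtain ⟨C, hC0, hC⟩ := mertens_log
  refine ⟨C + 2, by linarith, ?_⟩
  intro T k F hT hk hF
  have hTe : (1001 : ℝ) ≤ T := by
    have h1 := Real.add_one_le_exp (1000 : ℝ)
    linarith
  have hT0 : 0 < T := by linarith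
  have hL : 1000 ≤ Real.log T := by
    rw [Real.le_log_iff_exp_le hT0]
    exact hT
  have hTk : T ≤ T ^ k := by
    calc T = T ^ 1 := (pow_one T).symm
      _ ≤ T ^ k := pow_le_pow_right₀ (by linarith) hk
  have hTk1 : T ^ k ≤ T ^ (k + 1) := pow_le_pow_right₀ (by linarith) (by omega)
  set y : ℕ := ⌈T ^ k⌉₊ - 1 with hy
  set z : ℕ := ⌊T ^ (k + 1)⌋₊ with hz
  have hceil1 : T ^ k ≤ (⌈T ^ k⌉₊ : ℝ) := Nat.le_ceil _
  have hceil2 : 1 ≤ ⌈T ^ k⌉₊ := Nat.one_le_ceil_iff.2 (by linarith)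
  have hycast : (y : ℝ) = (⌈T ^ k⌉₊ : ℝ) - 1 := by
    rw [hy, Nat.cast_sub hceil2]
    push_cast
    ring
  have hylt : (y : ℝ) < T ^ k := by
    have := Nat.ceil_lt_add_one (by linarith : 0 ≤ T ^ k)
    rw [hycast]
    linarith
  have hy2 : T ^ k / 2 ≤ y := by
    rw [hycast]
    linarith
  have hy1 : 1 ≤ y := by
    have : (1 : ℝ) ≤ y := by linarith
    exact_mod_cast this
  have hyz : y ≤ z := by
    refine Nat.le_floor ?_
    linarith
  have hzle : (z : ℝ) ≤ T ^ (k + 1) := Nat.floor_le (by positivity)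
  have hz1 : (1 : ℝ) ≤ z := by
    have : (y : ℝ) ≤ z := by exact_mod_cast hyz
    have h2 : (1 : ℝ) ≤ y := by exact_mod_cast hy1
    linarith
  have hm := hC y z hy1 hyz
  have hsub : F ⊆ (Finset.Ioc y z).filter Nat.Prime := by
    intro p hp
    obtain ⟨hpp, hp1, hp2⟩ := hF p hp
    rw [Finset.mem_filter, Finset.mem_Ioc]
    refine ⟨⟨?_, Nat.le_floor hp2⟩, hpp⟩
    have : (y : ℝ) < p := by linarith
    exact_mod_cast this
  have h1 : ∑ p ∈ F, Real.log p / (p : ℝ) ≤ Real.log z - Real.log y + C := by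
    have h2 : ∑ p ∈ F, Real.log p / (p : ℝ) ≤
        ∑ p ∈ (Finset.Ioc y z).filter Nat.Prime, Real.log p / (p : ℝ) := by
      refine Finset.sum_le_sum_of_subset_of_nonneg hsub fun p hp _ => ?_
      have hpp : p.Prime := (Finset.mem_filter.1 hp).2
      have : 0 ≤ Real.log p := Real.log_nonneg (by exact_mod_cast hpp.one_le)
      positivity
    have h3 := (abs_le.1 hm).2
    linarith
  have h4 : Real.log z ≤ (k + 1) * Real.log T := by
    calc Real.log z ≤ Real.log (T ^ (k + 1)) := Real.log_le_log (by linarith) hzle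
      _ = _ := by
        rw [Real.log_pow]
        push_cast
        ring
  have h5 : k * Real.log T - 1 ≤ Real.log y := by
    have h6 : Real.log (T ^ k / 2) ≤ Real.log y := Real.log_le_log (by positivity) hy2
    rw [Real.log_div (by positivity) (by norm_num), Real.log_pow] at h6
    have := Real.log_two_lt_d9
    linarith
  have h7 : ∑ p ∈ F, 1 / (p : ℝ) ≤ ∑ p ∈ F, (Real.log p / (p : ℝ)) / Real.log T := by
    refine Finset.sum_le_sum fun p hp => ?_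
    obtain ⟨hpp, hp1, hp2⟩ := hF p hp
    have hp0 : (0 : ℝ) < p := by exact_mod_cast hpp.pos
    have h8 : Real.log T ≤ Real.log p := Real.log_le_log hT0 (hTk.trans hp1)
    rw [le_div_iff₀ (by linarith), div_mul_eq_mul_div, one_mul]
    exact div_le_div_of_nonneg_right h8 hp0.le
  rw [← Finset.sum_div] at h7
  refine h7.trans ?_
  rw [div_le_iff₀ (by linarith)]
  nlinarith

private lemma L5_tail (r : ℝ) (hr : 0 < r) : ∃ C : ℝ, 0 ≤ C ∧ ∀ (T : ℝ) (F : Finset ℕ),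
    Real.exp 1000 ≤ T → (∀ p ∈ F, p.Prime ∧ T ≤ (p : ℝ)) →
    ∑ p ∈ F, Real.exp (-(r * (Real.log p / Real.log T))) * (1 / (p : ℝ)) ≤ C := by
  classical
  obtain ⟨C, hC0, hC⟩ := L5_range
  set q : ℝ := Real.exp (-r) with hq
  have hq0 : 0 < q := Real.exp_pos _
  have hq1 : q < 1 := by
    rw [hq, Real.exp_lt_one_iff]
    linarith
  refine ⟨C / (1 - q), div_nonneg hC0 (by linarith), ?_⟩
  intro T F hT hF
  have hT1 : 1 < T := lt_of_lt_of_le (Real.one_lt_exp_iff.2 (by norm_num)) hT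
  have hT0 : 0 < T := by linarith
  have hL : 0 < Real.log T := Real.log_pos hT1
  set kk : ℕ → ℕ := fun p => ⌊Real.log p / Real.log T⌋₊ with hkk
  set N : ℕ := F.sup kk + 1 with hN
  have hmaps : ∀ p ∈ F, kk p ∈ range N := by
    intro p hp
    rw [Finset.mem_range, hN, Nat.lt_succ_iff]
    exact Finset.le_sup hp
  rw [← Finset.sum_fiberwise_of_maps_to hmaps]
  have h1 : ∀ k ∈ range N, ∑ p ∈ F with kk p = k,
      Real.exp (-(r * (Real.log p / Real.log T))) * (1 / (p : ℝ)) ≤ q ^ k * C := by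
    intro k _
    rcases Nat.eq_zero_or_pos k with hk0 | hk1
    · subst hk0
      have he : F.filter (fun p => kk p = 0) = ∅ := by
        rw [Finset.filter_eq_empty_iff]
        intro p hp hkp
        obtain ⟨hpp, hpT⟩ := hF p hp
        have h2 : 1 ≤ Real.log p / Real.log T := by
          rw [le_div_iff₀ hL, one_mul]
          exact Real.log_le_log hT0 hpT
        have h3 : 1 ≤ kk p := Nat.le_floor (by exact_mod_cast h2)
        omega
      rw [he, Finset.sum_empty]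
      positivity
    · have h2 : ∀ p ∈ F.filter (fun p => kk p = k),
          Real.exp (-(r * (Real.log p / Real.log T))) * (1 / (p : ℝ)) ≤ q ^ k * (1 / (p : ℝ)) := by
        intro p hp
        obtain ⟨hpF, hpk⟩ := Finset.mem_filter.1 hp
        obtain ⟨hpp, hpT⟩ := hF p hpF
        have h3 : (k : ℝ) ≤ Real.log p / Real.log T := by
          rw [← hpk]
          refine Nat.floor_le (div_nonneg (Real.log_nonneg ?_) hL.le)
          exact_mod_cast hpp.one_le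
        refine mul_le_mul_of_nonneg_right ?_ (by positivity)
        rw [hq, ← Real.exp_nat_mul]
        refine Real.exp_le_exp.2 ?_
        have := mul_le_mul_of_nonneg_left h3 hr.le
        linarith
      refine (Finset.sum_le_sum h2).trans ?_
      rw [← Finset.mul_sum]
      refine mul_le_mul_of_nonneg_left (hC T k _ hT hk1 ?_) (by positivity)
      intro p hp
      obtain ⟨hpF, hpk⟩ := Finset.mem_filter.1 hp
      obtain ⟨hpp, hpT⟩ := hF p hpF
      have hp0 : (0 : ℝ) < p := by exact_mod_cast hpp.pos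
      have hnn : 0 ≤ Real.log p / Real.log T :=
        div_nonneg (Real.log_nonneg (by exact_mod_cast hpp.one_le)) hL.le
      have h3 : (k : ℝ) ≤ Real.log p / Real.log T := by
        rw [← hpk]
        exact Nat.floor_le hnn
      have h4 : Real.log p / Real.log T < k + 1 := by
        rw [← hpk]
        exact Nat.lt_floor_add_one _
      rw [le_div_iff₀ hL] at h3
      rw [div_lt_iff₀ hL] at h4
      refine ⟨hpp, ?_, ?_⟩
      · rw [← Real.log_le_log_iff (by positivity) hp0, Real.log_pow]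
        exact h3
      · rw [← Real.log_le_log_iff hp0 (by positivity), Real.log_pow]
        push_cast
        exact h4.le
  refine (Finset.sum_le_sum h1).trans ?_
  rw [← Finset.sum_mul]
  have h5 : (1 - q) * ∑ k ∈ range N, q ^ k = 1 - q ^ N := mul_neg_geom_sum q N
  have h6 : ∑ k ∈ range N, q ^ k ≤ 1 / (1 - q) := by
    rw [le_div_iff₀ (by linarith), mul_comm, h5]
    have : 0 < q ^ N := by positivity
    linarith
  calc (∑ k ∈ range N, q ^ k) * C ≤ 1 / (1 - q) * C := mul_le_mul_of_nonneg_right h6 hC0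
    _ = _ := by ring

private lemma L5_sum (b : Bool) (α : ℝ) (hα : 0 < α) : ∃ C : ℝ, 0 ≤ C ∧
    ∀ (T : ℝ) (R : Finset ℕ) (ξ1 ξ2 a : ℝ), Real.exp 1000 ≤ T → (∀ p ∈ R, p.Prime) →
    3 * α + 1 + 7 * |ξ1| + 7 * |ξ2| ≤ a →
    ∑ p ∈ R, ‖Gp b α T ξ1 ξ2 p - 1‖ ≤ C + 32 * Real.log a := by
  classical
  obtain ⟨C1, hC1, hps⟩ := ps_min
  have hα' : 0 < min α 1 := lt_min hα one_pos
  obtain ⟨C2, hC2, htail⟩ := L5_tail (2 * min α 1) (by linarith)
  refine ⟨16 * C1 + 8 * C2, by linarith, ?_⟩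
  intro T R ξ1 ξ2 a hT hR ha
  have hTe : (1001 : ℝ) ≤ T := by
    have h1 := Real.add_one_le_exp (1000 : ℝ)
    linarith
  have hT1 : 1 < T := by linarith
  have hL : 0 < Real.log T := Real.log_pos hT1
  have hξ1 : 0 ≤ |ξ1| := abs_nonneg _
  have hξ2 : 0 ≤ |ξ2| := abs_nonneg _
  have ha1 : 1 ≤ a := by linarith
  set M0 : ℕ := ⌊T ^ 2⌋₊ with hM0
  have hM0T : (M0 : ℝ) ≤ T ^ 2 := Nat.floor_le (by positivity)
  have hTM0 : T ≤ (M0 : ℝ) := by
    have h1 := Nat.lt_floor_add_one (T ^ 2)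
    rw [← hM0] at h1
    nlinarith
  rw [← Finset.sum_filter_add_sum_filter_not R (fun p => p < M0)]
  have h1 : ∑ p ∈ R with p < M0, ‖Gp b α T ξ1 ξ2 p - 1‖ ≤ 16 * (C1 + 2 * Real.log a) := by
    have h2 : ∀ p ∈ R.filter (fun p => p < M0), ‖Gp b α T ξ1 ξ2 p - 1‖ ≤
        16 * (min 2 (a * (Real.log p / Real.log T)) / (p : ℝ)) := by
      intro p hp
      obtain ⟨hpR, hpM⟩ := Finset.mem_filter.1 hp
      have hpp := hR p hpR
      have hlp : 0 ≤ Real.log p := Real.log_nonneg (by exact_mod_cast hpp.one_le)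
      set D : ℝ := min 2 (a * (Real.log p / Real.log T)) with hD
      have hD0 : 0 ≤ D := le_min (by norm_num) (by positivity)
      have hD2 : D ≤ 2 := min_le_left _ _
      have h3 := L5_G (b := b) hα hT ξ1 ξ2 hpp hD0 (L5_dist hα hT ξ1 hpp (by linarith))
        (L5_dist hα hT ξ2 hpp (by linarith))
      have hp0 : (0 : ℝ) < p := by exact_mod_cast hpp.pos
      calc _ ≤ 8 * D ^ 2 * (1 / (p : ℝ)) := h3
        _ ≤ 8 * (2 * D) * (1 / (p : ℝ)) := by
          refine mul_le_mul_of_nonneg_right ?_ (by positivity)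
          nlinarith
        _ = _ := by ring
    refine (Finset.sum_le_sum h2).trans ?_
    rw [← Finset.mul_sum]
    refine mul_le_mul_of_nonneg_left ?_ (by norm_num)
    refine le_trans ?_ (hps T a M0 hT ha1 hM0T)
    refine Finset.sum_le_sum_of_subset_of_nonneg ?_ ?_
    · intro p hp
      obtain ⟨hpR, hpM⟩ := Finset.mem_filter.1 hp
      exact Nat.mem_primesBelow.2 ⟨hpM, hR p hpR⟩
    · intro p hp _
      have hpp : p.Prime := (Nat.mem_primesBelow.1 hp).2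
      have hlp : 0 ≤ Real.log p := Real.log_nonneg (by exact_mod_cast hpp.one_le)
      have hD0 : 0 ≤ min 2 (a * (Real.log p / Real.log T)) := le_min (by norm_num) (by positivity)
      positivity
  have h4 : ∑ p ∈ R with ¬ p < M0, ‖Gp b α T ξ1 ξ2 p - 1‖ ≤ 8 * C2 := by
    have h2 : ∀ p ∈ R.filter (fun p => ¬ p < M0), ‖Gp b α T ξ1 ξ2 p - 1‖ ≤
        8 * (Real.exp (-(2 * min α 1 * (Real.log p / Real.log T))) * (1 / (p : ℝ))) := by
      intro p hp
      obtain ⟨hpR, hpM⟩ := Finset.mem_filter.1 hp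
      have hpp := hR p hpR
      have h3 := L5_G (b := b) hα hT ξ1 ξ2 hpp (Real.exp_pos _).le (L5_dec hα hT ξ1 hpp)
        (L5_dec hα hT ξ2 hpp)
      refine h3.trans (le_of_eq ?_)
      rw [← Real.exp_nat_mul]
      have e1 : ((2 : ℕ) : ℝ) * -(min α 1 * (Real.log p / Real.log T)) =
          -(2 * min α 1 * (Real.log p / Real.log T)) := by
        push_cast
        ring
      rw [e1]
      ring
    refine (Finset.sum_le_sum h2).trans ?_
    rw [← Finset.mul_sum]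
    refine mul_le_mul_of_nonneg_left (htail T _ hT ?_) (by norm_num)
    intro p hp
    obtain ⟨hpR, hpM⟩ := Finset.mem_filter.1 hp
    refine ⟨hR p hpR, hTM0.trans ?_⟩
    exact_mod_cast not_lt.1 hpM
  linarith

private lemma L5_a {α : ℝ} (hα : 0 < α) (ξ1 ξ2 : ℝ) :
    3 * α + 1 + 7 * |ξ1| + 7 * |ξ2| ≤ (3 * α + 7) * (1 + |ξ1| + |ξ2|) := by
  have h1 : 0 ≤ |ξ1| := abs_nonneg _
  have h2 : 0 ≤ |ξ2| := abs_nonneg _
  nlinarith [mul_nonneg hα.le h1, mul_nonneg hα.le h2]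

private lemma L5_expb {C a : ℝ} (ha : 1 ≤ a) :
    Real.exp (C + 32 * Real.log a) = Real.exp C * a ^ 32 := by
  have h0 : 0 < a := by linarith
  have h1 : 32 * Real.log a = ((32 : ℕ) : ℝ) * Real.log a := by norm_num
  rw [Real.exp_add, h1, Real.exp_nat_mul, Real.exp_log h0]

theorem prod_le (b : Bool) (α : ℝ) (hα : 0 < α) : ∃ (K : ℝ) (m : ℕ), 1 ≤ K ∧
    ∀ (T : ℝ) (M : ℕ) (R : Finset ℕ) (ξ1 ξ2 : ℝ), Real.exp 1000 ≤ T → R ⊆ Nat.primesBelow M →
    ‖∏ p ∈ R, Gp b α T ξ1 ξ2 p‖ ≤ K * (1 + |ξ1| + |ξ2|) ^ m := by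
  obtain ⟨C, hC0, hC⟩ := L5_sum b α hα
  refine ⟨Real.exp C * (3 * α + 7) ^ 32, 32, ?_, ?_⟩
  · have h1 : 1 ≤ Real.exp C := Real.one_le_exp hC0
    have h2 : (1 : ℝ) ≤ (3 * α + 7) ^ 32 := one_le_pow₀ (by linarith)
    exact one_le_mul_of_one_le_of_one_le h1 h2
  intro T M R ξ1 ξ2 hT hR
  have h1 : 0 ≤ |ξ1| := abs_nonneg _
  have h2 : 0 ≤ |ξ2| := abs_nonneg _
  set a : ℝ := (3 * α + 7) * (1 + |ξ1| + |ξ2|) with ha
  have ha1 : 1 ≤ a := by
    have := L5_a hα ξ1 ξ2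
    linarith
  have hs := hC T R ξ1 ξ2 a hT (fun p hp => (Nat.mem_primesBelow.1 (hR hp)).2) (L5_a hα ξ1 ξ2)
  have h3 : ‖∏ p ∈ R, Gp b α T ξ1 ξ2 p‖ ≤ Real.exp (∑ p ∈ R, ‖Gp b α T ξ1 ξ2 p - 1‖) := by
    rw [norm_prod, Real.exp_sum]
    refine Finset.prod_le_prod (fun _ _ => norm_nonneg _) fun p _ => ?_
    have e1 : ‖Gp b α T ξ1 ξ2 p‖ ≤ ‖Gp b α T ξ1 ξ2 p - 1‖ + 1 := by
      have e2 := norm_add_le (Gp b α T ξ1 ξ2 p - 1) 1
      rwa [sub_add_cancel, norm_one] at e2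
    exact e1.trans (Real.add_one_le_exp _)
  calc _ ≤ _ := h3
    _ ≤ Real.exp (C + 32 * Real.log a) := Real.exp_le_exp.2 hs
    _ = Real.exp C * a ^ 32 := L5_expb ha1
    _ = _ := by
      rw [ha, mul_pow, mul_assoc]

theorem prod_P (b : Bool) (α : ℝ) (hα : 0 < α) : ∃ (K : ℝ) (m : ℕ), 1 ≤ K ∧
    ∀ {Ct θ D1 : ℝ} {N0 : ℕ}, 0 < θ → ∃ T0 : ℝ, ∀ {S : BS}, TG S Ct θ D1 N0 → T0 ≤ S.T →
    ∀ ξ1 ξ2 : ℝ, ‖∏ p ∈ S.P, Gp b α S.T ξ1 ξ2 p - 1‖ ≤ K * θ ^ 5 * (1 + |ξ1| + |ξ2|) ^ m := by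
  obtain ⟨C, hC0, hC⟩ := L5_sum b α hα
  obtain ⟨C3, hC3, hP⟩ := ps_P
  refine ⟨8 * (1 + C3) * Real.exp C * (3 * α + 7) ^ 34, 34, ?_, ?_⟩
  · have h1 : 1 ≤ Real.exp C := Real.one_le_exp hC0
    have h2 : (1 : ℝ) ≤ (3 * α + 7) ^ 34 := one_le_pow₀ (by linarith)
    have h3 : 1 ≤ 8 * (1 + C3) * Real.exp C :=
      one_le_mul_of_one_le_of_one_le (by linarith) h1
    exact one_le_mul_of_one_le_of_one_le h3 h2
  intro Ct θ D1 N0 hθ
  refine ⟨0, ?_⟩
  intro S hS _ ξ1 ξ2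
  have hT := hS.T_ge
  have hT1 : 1 < S.T := lt_of_lt_of_le (Real.one_lt_exp_iff.2 (by norm_num)) hT
  have hL : 1000 ≤ Real.log S.T := by
    rw [Real.le_log_iff_exp_le (by linarith)]
    exact hT
  have h1 : 0 ≤ |ξ1| := abs_nonneg _
  have h2 : 0 ≤ |ξ2| := abs_nonneg _
  set a : ℝ := (3 * α + 7) * (1 + |ξ1| + |ξ2|) with ha
  have ha3 := L5_a hα ξ1 ξ2
  rw [← ha] at ha3
  have ha1 : 1 ≤ a := by linarith
  have hpr : ∀ p ∈ S.P, p.Prime := fun p hp => (P_prime hS hp).1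
  set x : ℝ := ∑ p ∈ S.P, ‖Gp b α S.T ξ1 ξ2 p - 1‖ with hx
  have hx0 : 0 ≤ x := Finset.sum_nonneg fun _ _ => norm_nonneg _
  have hs : x ≤ C + 32 * Real.log a := hC S.T S.P ξ1 ξ2 a hT hpr ha3
  have hx1 : x ≤ 8 * (1 + C3) * a ^ 2 * θ ^ 5 := by
    have h3 : ∀ p ∈ S.P, ‖Gp b α S.T ξ1 ξ2 p - 1‖ ≤
        8 * a ^ 2 * θ ^ 5 * ((Real.log p / Real.log S.T) / (p : ℝ)) := by
      intro p hp
      obtain ⟨hpp, hlpT⟩ := P_prime hS hp
      have hlp : 0 ≤ Real.log p := Real.log_nonneg (by exact_mod_cast hpp.one_le)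
      set v : ℝ := Real.log p / Real.log S.T with hv
      have hv0 : 0 ≤ v := by positivity
      have hvθ : v ≤ θ ^ 5 := by
        rw [hv, div_le_iff₀ (by linarith)]
        exact hlpT
      have hA1 := L5_dist (b := b) hα hT ξ1 hpp (a := a) (by linarith)
      have hA2 := L5_dist (b := b) hα hT ξ2 hpp (a := a) (by linarith)
      have hu0 : 0 ≤ (p : ℝ) ^ (-(1 / 2) : ℝ) := by positivity
      have hmin : min 2 (a * v) ≤ a * v := min_le_right _ _
      have hb : 2 * min 2 (a * v) * (p : ℝ) ^ (-(1 / 2) : ℝ) ≤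
          2 * (a * v) * (p : ℝ) ^ (-(1 / 2) : ℝ) := by gcongr
      have h4 := L5_G (b := b) hα hT ξ1 ξ2 hpp (by positivity : 0 ≤ a * v) (hA1.trans hb) (hA2.trans hb)
      have hp0 : (0 : ℝ) < p := by exact_mod_cast hpp.pos
      calc _ ≤ 8 * (a * v) ^ 2 * (1 / (p : ℝ)) := h4
        _ = 8 * a ^ 2 * (v * (v / (p : ℝ))) := by ring
        _ ≤ 8 * a ^ 2 * (θ ^ 5 * (v / (p : ℝ))) := by gcongr
        _ = _ := by ring
    have h5 := hP hS
    have h6 : θ ^ 5 + C3 / Real.log S.T ≤ 1 + C3 := by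
      have e1 : θ ^ 5 ≤ 1 := pow_le_one₀ hθ.le (by linarith [hS.th_le])
      have e2 : C3 / Real.log S.T ≤ C3 := div_le_self hC3 (by linarith)
      linarith
    calc x ≤ ∑ p ∈ S.P, 8 * a ^ 2 * θ ^ 5 * ((Real.log p / Real.log S.T) / (p : ℝ)) :=
          Finset.sum_le_sum h3
      _ = 8 * a ^ 2 * θ ^ 5 * ∑ p ∈ S.P, (Real.log p / Real.log S.T) / (p : ℝ) := by
          rw [Finset.mul_sum]
      _ ≤ 8 * a ^ 2 * θ ^ 5 * (1 + C3) :=
          mul_le_mul_of_nonneg_left (h5.trans h6) (by positivity)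
      _ = _ := by ring
  have h7 : ‖∏ p ∈ S.P, Gp b α S.T ξ1 ξ2 p - 1‖ ≤ Real.exp x - 1 := by
    have e1 := Finset.norm_prod_one_add_sub_one_le S.P (fun p => Gp b α S.T ξ1 ξ2 p - 1)
    simpa using e1
  have h8 : Real.exp x - 1 ≤ x * Real.exp x := by
    have e1 := Real.add_one_le_exp (-x)
    have e2 : 0 < Real.exp x := Real.exp_pos x
    have e3 : Real.exp (-x) * Real.exp x = 1 := by
      rw [← Real.exp_add]
      simp
    nlinarith
  have h9 : Real.exp x ≤ Real.exp C * a ^ 32 := by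
    rw [← L5_expb ha1]
    exact Real.exp_le_exp.2 hs
  calc _ ≤ x * Real.exp x := h7.trans h8
    _ ≤ (8 * (1 + C3) * a ^ 2 * θ ^ 5) * (Real.exp C * a ^ 32) :=
        mul_le_mul hx1 h9 (Real.exp_pos x).le (by positivity)
    _ = _ := by
      rw [ha]
      generalize 3 * α + 7 = A
      generalize 1 + |ξ1| + |ξ2| = B
      ring

end Pool.Agent.LB
end

section

/-! TASK L6. The limit of the Euler products. `L = log T`, `y = p^{-1/2-α/L}`, `b1 = p^{-1/2-β1/L}`, `conj b2 = p^{-1/2-β2'/L}`, `β1 = bx b α ξ1`, `β2' = conj (bx b α ξ2)`, `Re ≥ 1`. Put `A = y b1`, `B = y conj b2`, `D = b1 conj b2`, `Y = y²` (`A B = Y D`), all of norm `≤ 1/p ≤ 1/2`.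
`Gp = (1 - A - B + D)/(1 - Y)`, so `Gp = [(1-A)(1-B)/((1-Y)(1-D))] Cp`, `Cp = (1-A-B+D)(1-D)/((1-A)(1-B))`, `Cp - 1 = (D(A+B-D) - AB)/((1-A)(1-B))`, `‖Cp - 1‖ ≤ 16 p^{-2}`, and for fixed `p`, `T → ∞`: `A, B, D → 1/p`, so `Cp → 1`.
`∏_{p<M} (1-Y)⁻¹ → ζ(1+2α/L)`, `∏ (1-D)⁻¹ → ζ(1+(β1+β2')/L)`, `∏ (1-A)⁻¹ → ζ(1+(α+β1)/L)`, `∏ (1-B)⁻¹ → ζ(1+(α+β2')/L)` (`riemannZeta_eulerProduct`, real parts `> 1`; `riemannZeta_ne_zero_of_one_lt_re`), `∏_{p<M} Cp → C_T` (absolutely convergent product), `‖C_T - 1‖ ≤ exp(∑_p ‖Cp - 1‖) - 1 → 0` for `T → ∞` (dominated convergence of sums).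
So `Ga T ξ1 ξ2 = ζ(1+2α/L) ζ(1+(β1+β2')/L)/(ζ(1+(α+β1)/L) ζ(1+(α+β2')/L)) C_T`, and `x ζ(1+x) → 1` for `x → 0` (`riemannZeta_residue_one`): the limit for `T → ∞` is `(α+β1)(α+β2')/(2α(β1+β2')) = Gl b α ξ1 ξ2`. -/

set_option autoImplicit false

namespace Pool.Agent.LB

open Complex MeasureTheory Finset Pool.Agent.GH Pool.Agent.UH Pool.Agent.UV
open scoped Real ComplexConjugate

private noncomputable def L6E (c : ℂ) (T : ℝ) (p : ℕ) : ℂ :=
  cexp (-((1 + c / (Real.log T : ℝ)) * (Real.log p : ℝ)))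

private theorem L6E_cpow (c : ℂ) (T : ℝ) {p : ℕ} (hp : p ≠ 0) :
    (p : ℂ) ^ (-(1 + c / (Real.log T : ℝ))) = L6E c T p := by
  rw [Complex.cpow_def_of_ne_zero (by exact_mod_cast hp), L6E, ← Complex.natCast_log]
  congr 1; ring

private theorem L6E_norm {c : ℂ} {T : ℝ} (hL : 0 < Real.log T) (hc : 0 ≤ c.re) {p : ℕ}
    (hp : p.Prime) : ‖L6E c T p‖ ≤ 1 / p := by
  have hp0 : (0 : ℝ) < p := by exact_mod_cast hp.pos
  have hp1 : (1 : ℝ) ≤ p := by exact_mod_cast hp.one_lt.le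
  have hlp : 0 ≤ Real.log p := Real.log_nonneg hp1
  rw [L6E, Complex.norm_exp]
  have h1 : (-((1 + c / (Real.log T : ℝ)) * (Real.log p : ℝ))).re =
      -((1 + c.re / Real.log T) * Real.log p) := by
    rw [Complex.neg_re, Complex.re_mul_ofReal, Complex.add_re, Complex.div_ofReal_re,
      Complex.one_re]
  rw [h1]
  have h2 : (1 : ℝ) / p = Real.exp (-Real.log p) := by
    rw [Real.exp_neg, Real.exp_log hp0, one_div]
  rw [h2]
  apply Real.exp_le_exp.mpr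
  have h3 : 0 ≤ c.re / Real.log T := by positivity
  nlinarith

private theorem L6_inv (c : ℂ) :
    Filter.Tendsto (fun T : ℝ => c / (Real.log T : ℂ)) Filter.atTop (nhds 0) := by
  have h1 : Filter.Tendsto (fun T : ℝ => (Real.log T)⁻¹) Filter.atTop (nhds 0) :=
    tendsto_inv_atTop_zero.comp Real.tendsto_log_atTop
  have h2 : Filter.Tendsto (fun T : ℝ => (((Real.log T)⁻¹ : ℝ) : ℂ)) Filter.atTop
      (nhds ((0 : ℝ) : ℂ)) := (Complex.continuous_ofReal.tendsto 0).comp h1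
  have h3 := h2.const_mul c
  simp only [Complex.ofReal_zero, mul_zero] at h3
  refine h3.congr fun T => ?_
  push_cast
  rw [div_eq_mul_inv]

private theorem L6E_tendsto (c : ℂ) {p : ℕ} (hp : p.Prime) :
    Filter.Tendsto (fun T : ℝ => L6E c T p) Filter.atTop (nhds (1 / (p : ℂ))) := by
  have hp0 : (0 : ℝ) < p := by exact_mod_cast hp.pos
  have h1 := (((L6_inv c).const_add 1).mul_const ((Real.log p : ℝ) : ℂ)).neg.cexp
  have h2 : cexp (-((1 + 0) * ((Real.log p : ℝ) : ℂ))) = 1 / (p : ℂ) := by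
    rw [add_zero, one_mul, Complex.exp_neg, ← Complex.ofReal_exp, Real.exp_log hp0, one_div]
    simp
  rw [h2] at h1
  exact h1

private theorem L6_zeta {c : ℂ} (hc : c ≠ 0) :
    Filter.Tendsto (fun T : ℝ => (c / (Real.log T : ℝ)) * riemannZeta (1 + c / (Real.log T : ℝ)))
      Filter.atTop (nhds 1) := by
  have h1 : Filter.Tendsto (fun T : ℝ => 1 + c / (Real.log T : ℂ)) Filter.atTop
      (nhdsWithin 1 {1}ᶜ) := by
    rw [tendsto_nhdsWithin_iff]
    refine ⟨by simpa using (L6_inv c).const_add 1, ?_⟩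
    filter_upwards [Filter.eventually_gt_atTop 1] with T hT
    have hL : Real.log T ≠ 0 := (Real.log_pos hT).ne'
    have : c / (Real.log T : ℂ) ≠ 0 := div_ne_zero hc (by exact_mod_cast hL)
    simpa using this
  refine (riemannZeta_residue_one.comp h1).congr fun T => ?_
  simp only [Function.comp]
  ring_nf

/-- The correction term. -/
private noncomputable def L6f (a b d : ℂ) (T : ℝ) (p : ℕ) : ℂ :=
  open Classical in
  if p.Prime then (L6E d T p * (L6E a T p + L6E b T p - L6E d T p) - L6E a T p * L6E b T p) /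
    ((1 - L6E a T p) * (1 - L6E b T p)) else 0

private theorem L6_half {c : ℂ} {T : ℝ} (hL : 0 < Real.log T) (hc : 0 ≤ c.re) {p : ℕ}
    (hp : p.Prime) : 1 / 2 ≤ ‖1 - L6E c T p‖ := by
  have h1 := L6E_norm hL hc hp
  have h2 : (1 : ℝ) / p ≤ 1 / 2 := by
    have : (2 : ℝ) ≤ p := by exact_mod_cast hp.two_le
    exact one_div_le_one_div_of_le (by norm_num) this
  have h3 : ‖(1 : ℂ)‖ - ‖L6E c T p‖ ≤ ‖1 - L6E c T p‖ := norm_sub_norm_le _ _
  rw [norm_one] at h3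
  linarith

private theorem L6f_bound {a b d : ℂ} {T : ℝ} (hL : 0 < Real.log T) (ha : 0 ≤ a.re)
    (hb : 0 ≤ b.re) (hd : 0 ≤ d.re) (p : ℕ) : ‖L6f a b d T p‖ ≤ 16 * (1 / (p : ℝ) ^ 2) := by
  unfold L6f
  split_ifs with hp
  · have hp0 : (0 : ℝ) < p := by exact_mod_cast hp.pos
    set x : ℝ := 1 / (p : ℝ) with hx
    have hx0 : 0 < x := by positivity
    have A := L6E_norm hL ha hp
    have B := L6E_norm hL hb hp
    have D := L6E_norm hL hd hp
    have hA := L6_half hL ha hp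
    have hB := L6_half hL hb hp
    have hnum : ‖L6E d T p * (L6E a T p + L6E b T p - L6E d T p) - L6E a T p * L6E b T p‖ ≤
        4 * x ^ 2 := by
      have h1 : ‖L6E a T p + L6E b T p - L6E d T p‖ ≤ 3 * x := by
        calc _ ≤ ‖L6E a T p + L6E b T p‖ + ‖L6E d T p‖ := norm_sub_le _ _
          _ ≤ ‖L6E a T p‖ + ‖L6E b T p‖ + ‖L6E d T p‖ := by gcongr; exact norm_add_le _ _
          _ ≤ 3 * x := by linarith
      calc _ ≤ ‖L6E d T p * (L6E a T p + L6E b T p - L6E d T p)‖ +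
            ‖L6E a T p * L6E b T p‖ := norm_sub_le _ _
        _ = ‖L6E d T p‖ * ‖L6E a T p + L6E b T p - L6E d T p‖ +
            ‖L6E a T p‖ * ‖L6E b T p‖ := by rw [norm_mul, norm_mul]
        _ ≤ x * (3 * x) + x * x := by gcongr
        _ = 4 * x ^ 2 := by ring
    have hden : 1 / 4 ≤ ‖(1 - L6E a T p) * (1 - L6E b T p)‖ := by
      rw [norm_mul]
      nlinarith
    rw [norm_div]
    calc _ ≤ 4 * x ^ 2 / (1 / 4) := by gcongr
      _ = 16 * (1 / (p : ℝ) ^ 2) := by rw [hx]; ring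
  · rw [norm_zero]; positivity

private theorem L6f_summable : Summable fun p : ℕ => (16 : ℝ) * (1 / (p : ℝ) ^ 2) :=
  ((Real.summable_one_div_nat_pow (p := 2)).mpr one_lt_two).mul_left 16

private theorem L6f_tendsto (a b d : ℂ) (p : ℕ) :
    Filter.Tendsto (fun T : ℝ => L6f a b d T p) Filter.atTop (nhds 0) := by
  unfold L6f
  split_ifs with hp
  · have hA := L6E_tendsto a hp
    have hB := L6E_tendsto b hp
    have hD := L6E_tendsto d hp
    have hne : (1 : ℂ) - 1 / (p : ℂ) ≠ 0 := by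
      have h1 : (p : ℂ) ≠ 0 := by exact_mod_cast hp.ne_zero
      have h2 : (p : ℂ) ≠ 1 := by exact_mod_cast hp.one_lt.ne'
      rw [sub_ne_zero]
      intro h
      apply h2
      field_simp at h
      exact h
    have h := ((hD.mul ((hA.add hB).sub hD)).sub (hA.mul hB)).div
      ((hA.const_sub 1).mul (hB.const_sub 1)) (mul_ne_zero hne hne)
    have h0 : (1 / (p : ℂ) * (1 / (p : ℂ) + 1 / (p : ℂ) - 1 / (p : ℂ)) -
        1 / (p : ℂ) * (1 / (p : ℂ))) / ((1 - 1 / (p : ℂ)) * (1 - 1 / (p : ℂ))) = 0 := by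
      rw [div_eq_zero_iff]; left; ring
    rw [h0] at h
    exact h
  · exact tendsto_const_nhds

private theorem L6C_tendsto {a b d : ℂ} (ha : 0 ≤ a.re) (hb : 0 ≤ b.re) (hd : 0 ≤ d.re) :
    Filter.Tendsto (fun T : ℝ => ∏' p : ℕ, (1 + L6f a b d T p)) Filter.atTop (nhds 1) := by
  have h := tendsto_tprod_one_add_of_dominated_convergence (𝓕 := (Filter.atTop : Filter ℝ))
    (f := fun T p => L6f a b d T p) (g := fun _ : ℕ => (0 : ℂ)) L6f_summable
    (fun p => L6f_tendsto a b d p) (by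
      filter_upwards [Filter.eventually_gt_atTop 1] with T hT p
      exact L6f_bound (Real.log_pos hT) ha hb hd p)
  simpa using h

private theorem L6C_prod {a b d : ℂ} {T : ℝ} (hL : 0 < Real.log T) (ha : 0 ≤ a.re)
    (hb : 0 ≤ b.re) (hd : 0 ≤ d.re) :
    Filter.Tendsto (fun M : ℕ => ∏ p ∈ Nat.primesBelow M, (1 + L6f a b d T p)) Filter.atTop
      (nhds (∏' p : ℕ, (1 + L6f a b d T p))) := by
  have h1 : Summable fun p : ℕ => ‖L6f a b d T p‖ :=
    Summable.of_nonneg_of_le (fun _ => norm_nonneg _)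
      (fun p => L6f_bound hL ha hb hd p) L6f_summable
  have h2 := (multipliable_one_add_of_summable h1).hasProd.tendsto_prod_nat
  refine h2.congr fun M => ?_
  rw [Nat.primesBelow, Finset.prod_filter]
  refine Finset.prod_congr rfl fun p _ => ?_
  split_ifs with hp
  · rfl
  · simp [L6f, hp]

private theorem L6_yv {α T : ℝ} {p : ℕ} (hp : p.Prime) : ((yv α T p : ℝ) : ℂ) =
    cexp (-((1 / 2 + α / (Real.log T : ℝ)) * (Real.log p : ℝ))) := by
  have hp0 : (0 : ℝ) < p := by exact_mod_cast hp.pos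
  rw [yv, Real.rpow_def_of_pos hp0, Complex.ofReal_exp]
  congr 1
  push_cast
  ring

private theorem L6_bb {b : Bool} {α T ξ : ℝ} {p : ℕ} (hp : p.Prime) : bb b α T ξ p =
    cexp (-((1 / 2 + bx b α ξ / (Real.log T : ℝ)) * (Real.log p : ℝ))) := by
  have hp0 : (0 : ℝ) < p := by exact_mod_cast hp.pos
  rw [bb, bz, Real.rpow_def_of_pos hp0, Complex.ofReal_exp, ← Complex.exp_add]
  congr 1
  unfold bx
  push_cast
  ring

private theorem L6_bbc {b : Bool} {α T ξ : ℝ} {p : ℕ} (hp : p.Prime) :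
    conj (bb b α T ξ p) =
    cexp (-((1 / 2 + conj (bx b α ξ) / (Real.log T : ℝ)) * (Real.log p : ℝ))) := by
  rw [L6_bb hp, ← Complex.exp_conj]
  congr 1
  simp only [map_neg, map_mul, map_add, map_div₀, Complex.conj_ofReal, map_one, map_ofNat]

private theorem L6_Gp {b : Bool} {α T : ℝ} (hα : 0 < α) (hL : 0 < Real.log T) (ξ1 ξ2 : ℝ)
    (h1 : 0 ≤ (α + bx b α ξ1 : ℂ).re) (h2 : 0 ≤ (α + conj (bx b α ξ2) : ℂ).re)
    (h3 : 0 ≤ (bx b α ξ1 + conj (bx b α ξ2) : ℂ).re)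
    {p : ℕ} (hp : p.Prime) :
    Gp b α T ξ1 ξ2 p = (1 - L6E (2 * α) T p)⁻¹ *
      (1 - L6E (bx b α ξ1 + conj (bx b α ξ2)) T p)⁻¹ /
      ((1 - L6E (α + bx b α ξ1) T p)⁻¹ * (1 - L6E (α + conj (bx b α ξ2)) T p)⁻¹) *
      (1 + L6f (α + bx b α ξ1) (α + conj (bx b α ξ2)) (bx b α ξ1 + conj (bx b α ξ2)) T p) := by
  have hY : ((yv α T p : ℝ) : ℂ) ^ 2 = L6E (2 * α) T p := by
    rw [L6_yv hp, L6E, ← Complex.exp_nat_mul]
    congr 1; push_cast; ring
  have hA : ((yv α T p : ℝ) : ℂ) * bb b α T ξ1 p = L6E (α + bx b α ξ1) T p := by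
    rw [L6_yv hp, L6_bb hp, L6E, ← Complex.exp_add]
    congr 1; ring
  have hB : ((yv α T p : ℝ) : ℂ) * conj (bb b α T ξ2 p) =
      L6E (α + conj (bx b α ξ2)) T p := by
    rw [L6_yv hp, L6_bbc hp, L6E, ← Complex.exp_add]
    congr 1; ring
  have hD : bb b α T ξ1 p * conj (bb b α T ξ2 p) =
      L6E (bx b α ξ1 + conj (bx b α ξ2)) T p := by
    rw [L6_bb hp, L6_bbc hp, L6E, ← Complex.exp_add]
    congr 1; ring
  have nz : ∀ {c : ℂ}, 0 ≤ c.re → 1 - L6E c T p ≠ 0 := by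
    intro c hc h
    have := L6_half hL hc hp
    rw [h, norm_zero] at this
    linarith
  have nY : 1 - L6E (2 * α) T p ≠ 0 := nz (by simp; positivity)
  have nA := nz h1
  have nB := nz h2
  have nD := nz h3
  have hG : Gp b α T ξ1 ξ2 p = (1 - L6E (α + bx b α ξ1) T p - L6E (α + conj (bx b α ξ2)) T p +
      L6E (bx b α ξ1 + conj (bx b α ξ2)) T p) / (1 - L6E (2 * α) T p) := by
    rw [Gp, hY, ← hA, ← hB, ← hD]
    have : 1 - L6E (2 * α) T p ≠ 0 := nY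
    rw [eq_div_iff this, add_mul, div_mul_cancel₀ _ this, ← hY]
    ring
  rw [hG]
  unfold L6f
  rw [if_pos hp]
  field_simp
  ring

private theorem L6_re {b : Bool} {α : ℝ} (hα : 0 < α) (ξ : ℝ) : 1 ≤ (bx b α ξ).re := by
  have : (bx b α ξ).re = sgn b * α + α + 1 := by
    simp [bx]
  rw [this]
  cases b
  · simp [sgn]
  · simp [sgn]; linarith

theorem prod_lim (b : Bool) (α : ℝ) (hα : 0 < α) : ∃ Ga : ℝ → ℝ → ℝ → ℂ,
    (∀ T ξ1 ξ2 : ℝ, Real.exp 1000 ≤ T → Filter.Tendsto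
      (fun M : ℕ => ∏ p ∈ Nat.primesBelow M, Gp b α T ξ1 ξ2 p) Filter.atTop (nhds (Ga T ξ1 ξ2))) ∧
    ∀ ξ1 ξ2 : ℝ, Filter.Tendsto (fun T : ℝ => Ga T ξ1 ξ2) Filter.atTop (nhds (Gl b α ξ1 ξ2)) := by
  refine ⟨fun T ξ1 ξ2 => riemannZeta (1 + 2 * α / (Real.log T : ℝ)) *
      riemannZeta (1 + (bx b α ξ1 + conj (bx b α ξ2)) / (Real.log T : ℝ)) /
      (riemannZeta (1 + (α + bx b α ξ1) / (Real.log T : ℝ)) *
        riemannZeta (1 + (α + conj (bx b α ξ2)) / (Real.log T : ℝ))) *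
      ∏' p : ℕ, (1 + L6f (α + bx b α ξ1) (α + conj (bx b α ξ2))
        (bx b α ξ1 + conj (bx b α ξ2)) T p), fun T ξ1 ξ2 hT => ?_, fun ξ1 ξ2 => ?_⟩
  · have hL : 0 < Real.log T := by
      apply Real.log_pos
      exact lt_of_lt_of_le (Real.one_lt_exp_iff.mpr (by norm_num)) hT
    have r1 := L6_re (b := b) hα ξ1
    have r2 := L6_re (b := b) hα ξ2
    have e1 : (0 : ℝ) < (α + bx b α ξ1 : ℂ).re := by
      rw [Complex.add_re, Complex.ofReal_re]; linarith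
    have e2 : (0 : ℝ) < (α + conj (bx b α ξ2) : ℂ).re := by
      rw [Complex.add_re, Complex.ofReal_re, Complex.conj_re]; linarith
    have e3 : (0 : ℝ) < (bx b α ξ1 + conj (bx b α ξ2) : ℂ).re := by
      rw [Complex.add_re, Complex.conj_re]; linarith
    have e4 : (0 : ℝ) < (2 * α : ℂ).re := by simp; positivity
    have gt1 : ∀ {c : ℂ}, 0 < c.re → 1 < (1 + c / (Real.log T : ℝ)).re := by
      intro c hc
      rw [Complex.add_re, Complex.div_ofReal_re, Complex.one_re]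
      have : 0 < c.re / Real.log T := by positivity
      linarith
    have hz : ∀ {c : ℂ}, 0 < c.re → Filter.Tendsto
        (fun M : ℕ => ∏ p ∈ Nat.primesBelow M, (1 - L6E c T p)⁻¹) Filter.atTop
        (nhds (riemannZeta (1 + c / (Real.log T : ℝ)))) := by
      intro c hc
      refine (riemannZeta_eulerProduct (gt1 hc)).congr fun M => ?_
      refine Finset.prod_congr rfl fun p hp => ?_
      rw [L6E_cpow c T (Nat.prime_of_mem_primesBelow hp).ne_zero]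
    have hnz : ∀ {c : ℂ}, 0 < c.re → riemannZeta (1 + c / (Real.log T : ℝ)) ≠ 0 := fun hc =>
      riemannZeta_ne_zero_of_one_lt_re (gt1 hc)
    have hC := L6C_prod hL e1.le e2.le e3.le
    have hlim := (((hz e4).mul (hz e3)).div ((hz e1).mul (hz e2))
      (mul_ne_zero (hnz e1) (hnz e2))).mul hC
    refine hlim.congr fun M => ?_
    simp only [Pi.div_apply]
    rw [← Finset.prod_mul_distrib, ← Finset.prod_mul_distrib, ← Finset.prod_div_distrib,
      ← Finset.prod_mul_distrib]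
    refine Finset.prod_congr rfl fun p hp => ?_
    exact (L6_Gp hα hL ξ1 ξ2 e1.le e2.le e3.le (Nat.prime_of_mem_primesBelow hp)).symm
  · have r1 := L6_re (b := b) hα ξ1
    have r2 := L6_re (b := b) hα ξ2
    have e1 : (0 : ℝ) < (α + bx b α ξ1 : ℂ).re := by
      rw [Complex.add_re, Complex.ofReal_re]; linarith
    have e2 : (0 : ℝ) < (α + conj (bx b α ξ2) : ℂ).re := by
      rw [Complex.add_re, Complex.ofReal_re, Complex.conj_re]; linarith
    have e3 : (0 : ℝ) < (bx b α ξ1 + conj (bx b α ξ2) : ℂ).re := by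
      rw [Complex.add_re, Complex.conj_re]; linarith
    have e4 : (0 : ℝ) < (2 * α : ℂ).re := by simp; positivity
    have ne : ∀ {c : ℂ}, 0 < c.re → c ≠ 0 := by
      rintro c hc rfl; simp at hc
    have hC := L6C_tendsto e1.le e2.le e3.le
    have h4 := L6_zeta (ne e4)
    have h3 := L6_zeta (ne e3)
    have h1 := L6_zeta (ne e1)
    have h2 := L6_zeta (ne e2)
    have hlim := (((h4.mul h3).div (h1.mul h2) (by norm_num)).mul_const
      (Gl b α ξ1 ξ2)).mul hC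
    simp only [mul_one, div_one, one_mul] at hlim
    refine hlim.congr' ?_
    filter_upwards [Filter.eventually_gt_atTop 1] with T hT
    have hL : (Real.log T : ℂ) ≠ 0 := by exact_mod_cast (Real.log_pos hT).ne'
    have n1 := ne e1
    have n2 := ne e2
    have n3 := ne e3
    have n4 : (α : ℂ) ≠ 0 := by exact_mod_cast hα.ne'
    have hLr := Real.log_pos hT
    have gt1 : ∀ {c : ℂ}, 0 < c.re → 1 < (1 + c / (Real.log T : ℝ)).re := by
      intro c hc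
      rw [Complex.add_re, Complex.div_ofReal_re, Complex.one_re]
      have : 0 < c.re / Real.log T := by positivity
      linarith
    have z1 := riemannZeta_ne_zero_of_one_lt_re (gt1 e1)
    have z2 := riemannZeta_ne_zero_of_one_lt_re (gt1 e2)
    congr 1
    simp only [Pi.div_apply]
    unfold Gl
    generalize riemannZeta (1 + (α + bx b α ξ1) / (Real.log T : ℝ)) = Z1 at *
    generalize riemannZeta (1 + (α + conj (bx b α ξ2)) / (Real.log T : ℝ)) = Z2 at *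
    generalize riemannZeta (1 + (bx b α ξ1 + conj (bx b α ξ2)) / (Real.log T : ℝ)) = Z3 at *
    generalize riemannZeta (1 + 2 * α / (Real.log T : ℝ)) = Z4 at *
    field_simp

private theorem L6_bb_cont (b : Bool) (α T : ℝ) (p : ℕ) : Continuous fun ξ : ℝ => bb b α T ξ p := by
  unfold bb
  exact bz_continuous _ _ _ _

/-- The averaged form: `limsup_M` of the mean error tends to 0. (Dominated convergence, twice:
`prod_le` dominates everything by `K (1+|ξ1|+|ξ2|)^m ≤ K (1+|ξ1|)^m (1+|ξ2|)^m`.) -/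
theorem prod_avg (b : Bool) (α : ℝ) (hα : 0 < α) {φ : ℝ → ℂ} (hφ : Continuous φ)
    (hφi : ∀ m : ℕ, Integrable (fun ξ : ℝ => (1 + |ξ|) ^ m * ‖φ ξ‖)) (ε : ℝ) (hε : 0 < ε) :
    ∃ T0 : ℝ, ∀ T : ℝ, T0 ≤ T → ∀ᶠ M : ℕ in Filter.atTop,
    ∫ q : ℝ × ℝ, ‖φ q.1‖ * ‖φ q.2‖ *
      ‖∏ p ∈ Nat.primesBelow M, Gp b α T q.1 q.2 p - Gl b α q.1 q.2‖ ≤ ε := by
  obtain ⟨Ga, hGa, hGl⟩ := prod_lim b α hα
  obtain ⟨K, m, hK, hbd⟩ := prod_le b α hα
  -- the dominating function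
  set bd : ℝ × ℝ → ℝ := fun q =>
    (2 * K) * (((1 + |q.1|) ^ m * ‖φ q.1‖) * ((1 + |q.2|) ^ m * ‖φ q.2‖)) with hbddef
  have hbdi : Integrable bd := ((hφi m).mul_prod (hφi m)).const_mul (2 * K)
  have hpoly : ∀ x y : ℝ, (1 + |x| + |y|) ^ m ≤ (1 + |x|) ^ m * (1 + |y|) ^ m := by
    intro x y
    rw [← mul_pow]
    apply pow_le_pow_left₀ (by positivity)
    nlinarith [mul_nonneg (abs_nonneg x) (abs_nonneg y)]
  have hP : ∀ (T : ℝ) (M : ℕ) (x y : ℝ), Real.exp 1000 ≤ T →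
      ‖∏ p ∈ Nat.primesBelow M, Gp b α T x y p‖ ≤ K * ((1 + |x|) ^ m * (1 + |y|) ^ m) :=
    fun T M x y hT => (hbd T M _ x y hT (Finset.Subset.refl _)).trans
      (mul_le_mul_of_nonneg_left (hpoly x y) (by linarith))
  have hGab : ∀ (T x y : ℝ), Real.exp 1000 ≤ T →
      ‖Ga T x y‖ ≤ K * ((1 + |x|) ^ m * (1 + |y|) ^ m) := fun T x y hT =>
    le_of_tendsto (hGa T x y hT).norm (Filter.Eventually.of_forall fun M => hP T M x y hT)
  have hGlb : ∀ (x y : ℝ), ‖Gl b α x y‖ ≤ K * ((1 + |x|) ^ m * (1 + |y|) ^ m) := fun x y =>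
    le_of_tendsto (hGl x y).norm (by
      filter_upwards [Filter.eventually_ge_atTop (Real.exp 1000)] with T hT
      exact hGab T x y hT)
  have hdom : ∀ (x y : ℝ) (z w : ℂ), ‖z‖ ≤ K * ((1 + |x|) ^ m * (1 + |y|) ^ m) →
      ‖w‖ ≤ K * ((1 + |x|) ^ m * (1 + |y|) ^ m) →
      ‖‖φ x‖ * ‖φ y‖ * ‖z - w‖‖ ≤ bd (x, y) := by
    intro x y z w hz hw
    rw [Real.norm_eq_abs, abs_of_nonneg (by positivity)]
    have h1 : ‖z - w‖ ≤ 2 * (K * ((1 + |x|) ^ m * (1 + |y|) ^ m)) :=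
      (norm_sub_le _ _).trans (by linarith)
    calc _ ≤ ‖φ x‖ * ‖φ y‖ * (2 * (K * ((1 + |x|) ^ m * (1 + |y|) ^ m))) :=
          mul_le_mul_of_nonneg_left h1 (by positivity)
      _ = bd (x, y) := by simp only [hbddef]; ring
  -- measurability
  have mGp : ∀ (T : ℝ) (M : ℕ), Real.exp 1000 ≤ T →
      Continuous fun q : ℝ × ℝ => ∏ p ∈ Nat.primesBelow M, Gp b α T q.1 q.2 p := by
    intro T M hT
    refine continuous_finsetProd _ fun p _ => ?_
    unfold Gp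
    have c1 : Continuous fun q : ℝ × ℝ => bb b α T q.1 p :=
      (L6_bb_cont b α T p).comp continuous_fst
    have c2 : Continuous fun q : ℝ × ℝ => conj (bb b α T q.2 p) :=
      Complex.continuous_conj.comp ((L6_bb_cont b α T p).comp continuous_snd)
    exact continuous_const.add (((continuous_const.sub c1).mul
      (continuous_const.sub c2)).div_const _)
  have mGl : Continuous fun q : ℝ × ℝ => Gl b α q.1 q.2 := by
    have hbx : Continuous fun x : ℝ => bx b α x := by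
      unfold bx; fun_prop
    have c1 : Continuous fun q : ℝ × ℝ => bx b α q.1 := hbx.comp continuous_fst
    have c2 : Continuous fun q : ℝ × ℝ => conj (bx b α q.2) :=
      Complex.continuous_conj.comp (hbx.comp continuous_snd)
    unfold Gl
    refine ((continuous_const.add c1).mul (continuous_const.add c2)).div
      (continuous_const.mul (c1.add c2)) fun q h => ?_
    have h4 : (2 * (α : ℂ)) ≠ 0 := by
      have : (α : ℂ) ≠ 0 := by exact_mod_cast hα.ne'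
      exact mul_ne_zero two_ne_zero this
    rcases mul_eq_zero.mp h with h5 | h5
    · exact h4 h5
    · have h6 := congrArg Complex.re h5
      rw [Complex.add_re, Complex.conj_re, Complex.zero_re] at h6
      have r1 := L6_re (b := b) hα q.1
      have r2 := L6_re (b := b) hα q.2
      linarith
  have mφ : Continuous fun q : ℝ × ℝ => ‖φ q.1‖ * ‖φ q.2‖ :=
    (hφ.comp continuous_fst).norm.mul (hφ.comp continuous_snd).norm
  have mGa : ∀ T : ℝ, Real.exp 1000 ≤ T →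
      AEStronglyMeasurable (fun q : ℝ × ℝ => Ga T q.1 q.2) := fun T hT =>
    aestronglyMeasurable_of_tendsto_ae (Filter.atTop : Filter ℕ)
      (fun M => (mGp T M hT).aestronglyMeasurable)
      (Filter.Eventually.of_forall fun q => hGa T q.1 q.2 hT)
  -- the limit `T → ∞`
  have hT : Filter.Tendsto (fun T : ℝ => ∫ q : ℝ × ℝ, ‖φ q.1‖ * ‖φ q.2‖ *
      ‖Ga T q.1 q.2 - Gl b α q.1 q.2‖) Filter.atTop (nhds (∫ _q : ℝ × ℝ, (0 : ℝ))) := by
    refine tendsto_integral_filter_of_dominated_convergence bd ?_ ?_ hbdi ?_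
    · filter_upwards [Filter.eventually_ge_atTop (Real.exp 1000)] with T hT
      exact mφ.aestronglyMeasurable.mul ((mGa T hT).sub mGl.aestronglyMeasurable).norm
    · filter_upwards [Filter.eventually_ge_atTop (Real.exp 1000)] with T hT
      exact Filter.Eventually.of_forall fun q =>
        hdom q.1 q.2 _ _ (hGab T q.1 q.2 hT) (hGlb q.1 q.2)
    · refine Filter.Eventually.of_forall fun q => ?_
      have h1 := ((hGl q.1 q.2).sub_const (Gl b α q.1 q.2)).norm.const_mul (‖φ q.1‖ * ‖φ q.2‖)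
      simpa using h1
  rw [integral_zero] at hT
  obtain ⟨T1, hT1⟩ := Filter.eventually_atTop.mp (hT.eventually (gt_mem_nhds hε))
  refine ⟨max T1 (Real.exp 1000), fun T hT2 => ?_⟩
  have hTe : Real.exp 1000 ≤ T := (le_max_right _ _).trans hT2
  have hlt := hT1 T ((le_max_left _ _).trans hT2)
  have hM : Filter.Tendsto (fun M : ℕ => ∫ q : ℝ × ℝ, ‖φ q.1‖ * ‖φ q.2‖ *
      ‖∏ p ∈ Nat.primesBelow M, Gp b α T q.1 q.2 p - Gl b α q.1 q.2‖) Filter.atTop
      (nhds (∫ q : ℝ × ℝ, ‖φ q.1‖ * ‖φ q.2‖ * ‖Ga T q.1 q.2 - Gl b α q.1 q.2‖)) := by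
    refine tendsto_integral_filter_of_dominated_convergence bd ?_ ?_ hbdi ?_
    · refine Filter.Eventually.of_forall fun M => ?_
      exact (mφ.mul ((mGp T M hTe).sub mGl).norm).aestronglyMeasurable
    · exact Filter.Eventually.of_forall fun M => Filter.Eventually.of_forall fun q =>
        hdom q.1 q.2 _ _ (hP T M q.1 q.2 hTe) (hGlb q.1 q.2)
    · exact Filter.Eventually.of_forall fun q =>
        ((hGa T q.1 q.2 hTe).sub_const _).norm.const_mul _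
  exact (hM.eventually (gt_mem_nhds hlt)).mono fun M h => h.le

end Pool.Agent.LB
end
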