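import Pool.Agent.Lib.MP_69b2e4_nt.Mg.G027
import Pool.Agent.Lib.MP_69b2e4_nt.Mg.G030
import Pool.Agent.Lib.MP_69b2e4_nt.Mg.G025
import Pool.Agent.Lib.MP_69b2e4_nt.Mg.G026

section

/-! TASK L8. The Laplace transforms. `Ψ(v) = e^{-2αv}`: `lS b T r c d Ψ ρ = ρ^{-1-2α/L} ‖Sc ρ‖²` (`ρ^{-2α/L} = e^{-2α log ρ/L}`), so `laplace` with `η = -2α/L < 0` gives summability and `LS = lim_M BB M (Fb b T)(wb (be ..)) (-2α/L)`. `φ` from `fourier_kernel_pf c d (α+1)`. For large `M` (`BB_double`):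
 `BB - ER Xi = ∫∫ φ(ξ1) conj φ(ξ2) [Π' PhP - ER Gl]` (`Gl_int`), `Π' = ∏_{primesBelow M \\ P} Gp`, and
 `‖Π' PhP - ER Gl‖ ≤ ‖Π'‖‖PhP - ER‖ + ER ‖Π' - Π‖ + ER ‖Π - Gl‖`, `Π = ∏_{primesBelow M} Gp = Π' ∏_{P} Gp` (`P ⊆ primesBelow M`, `P_lt`), `‖Π' - Π‖ = ‖Π'‖‖1 - ∏_P Gp‖`.
 By `prod_le`, `PhP_sub`, `prod_P`: the first two are `≤ K θ^5 (1+|ξ1|+|ξ2|)^m Lam` (`ER ≤ K Lam`, `ER_bounds`), integrated `≤ K' θ^5 Lam ≤ ε Lam/2` for `θ ≤ θ1`; the third: `prod_avg` with `ε/(4K)`. -/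

set_option autoImplicit false

namespace Pool.Agent.LB

open Complex MeasureTheory Finset Pool.Agent.GH Pool.Agent.UH Pool.Agent.UV
open scoped Real ComplexConjugate

private lemma L8_w (a b : ℝ) (m : ℕ) : (1 + |a| + |b|) ^ m ≤ (1 + |a|) ^ m * (1 + |b|) ^ m := by
  rw [← mul_pow]
  apply pow_le_pow_left₀ (by positivity)
  nlinarith [mul_nonneg (abs_nonneg a) (abs_nonneg b)]

private lemma L8_w2 (a b : ℝ) : (1 + |a|) * (1 + |b|) ≤ (1 + |a| + |b|) ^ 2 := by
  nlinarith [mul_nonneg (abs_nonneg a) (abs_nonneg b), abs_nonneg a, abs_nonneg b,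
    sq_nonneg (|a|), sq_nonneg (|b|)]

private lemma L8_dom {φ : ℝ → ℂ}
    (hφi : ∀ m : ℕ, Integrable (fun ξ : ℝ => (1 + |ξ|) ^ m * ‖φ ξ‖)) (m : ℕ) :
    Integrable (fun q : ℝ × ℝ => ((1 + |q.1|) ^ m * ‖φ q.1‖) * ((1 + |q.2|) ^ m * ‖φ q.2‖)) :=
  (hφi m).mul_prod (hφi m)

private lemma L8_le {φ : ℝ → ℂ} {h : ℝ × ℝ → ℂ} {K : ℝ} {m : ℕ} {q : ℝ × ℝ}
    (hK0 : 0 ≤ K) (hK : ‖h q‖ ≤ K * (1 + |q.1| + |q.2|) ^ m) :
    ‖φ q.1‖ * ‖φ q.2‖ * ‖h q‖ ≤
      K * (((1 + |q.1|) ^ m * ‖φ q.1‖) * ((1 + |q.2|) ^ m * ‖φ q.2‖)) := by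
  have h1 : ‖h q‖ ≤ K * ((1 + |q.1|) ^ m * (1 + |q.2|) ^ m) :=
    hK.trans (mul_le_mul_of_nonneg_left (L8_w _ _ _) hK0)
  calc ‖φ q.1‖ * ‖φ q.2‖ * ‖h q‖
      ≤ ‖φ q.1‖ * ‖φ q.2‖ * (K * ((1 + |q.1|) ^ m * (1 + |q.2|) ^ m)) :=
        mul_le_mul_of_nonneg_left h1 (by positivity)
    _ = _ := by ring

private lemma L8_intR {φ : ℝ → ℂ} (hφ : Continuous φ)
    (hφi : ∀ m : ℕ, Integrable (fun ξ : ℝ => (1 + |ξ|) ^ m * ‖φ ξ‖)) {h : ℝ × ℝ → ℂ}
    (hh : Continuous h) {K : ℝ} {m : ℕ} (hK0 : 0 ≤ K)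
    (hK : ∀ q, ‖h q‖ ≤ K * (1 + |q.1| + |q.2|) ^ m) :
    Integrable (fun q : ℝ × ℝ => ‖φ q.1‖ * ‖φ q.2‖ * ‖h q‖) := by
  have hd := (L8_dom hφi m).const_mul K
  refine Integrable.mono' hd (Continuous.aestronglyMeasurable ?_) (Filter.Eventually.of_forall ?_)
  · exact ((hφ.comp continuous_fst).norm.mul (hφ.comp continuous_snd).norm).mul hh.norm
  · intro q
    rw [Real.norm_of_nonneg (by positivity)]
    exact L8_le hK0 (hK q)

private lemma L8_int {φ : ℝ → ℂ} (hφ : Continuous φ)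
    (hφi : ∀ m : ℕ, Integrable (fun ξ : ℝ => (1 + |ξ|) ^ m * ‖φ ξ‖)) {h : ℝ × ℝ → ℂ}
    (hh : Continuous h) {K : ℝ} {m : ℕ} (hK0 : 0 ≤ K)
    (hK : ∀ q, ‖h q‖ ≤ K * (1 + |q.1| + |q.2|) ^ m) :
    Integrable (fun q : ℝ × ℝ => φ q.1 * conj (φ q.2) * h q) := by
  refine Integrable.mono' (L8_intR hφ hφi hh hK0 hK) (Continuous.aestronglyMeasurable ?_)
    (Filter.Eventually.of_forall ?_)
  · exact ((hφ.comp continuous_fst).mul
      (Complex.continuous_conj.comp (hφ.comp continuous_snd))).mul hh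
  · intro q
    rw [norm_mul, norm_mul, RCLike.norm_conj]

private lemma L8_pt {P' Ph Q G : ℂ} {E : ℝ} (hE : 0 ≤ E) :
    ‖P' * Ph - E * G‖ ≤ ‖P'‖ * ‖Ph - E‖ + E * (‖P'‖ * ‖Q - 1‖) + E * ‖P' * Q - G‖ := by
  have h1 : P' * Ph - E * G = P' * (Ph - E) - E * (P' * (Q - 1)) + E * (P' * Q - G) := by ring
  rw [h1]
  have hE' : ‖(E : ℂ)‖ = E := by
    rw [Complex.norm_real, Real.norm_of_nonneg hE]
  refine (norm_add_le _ _).trans ?_
  refine add_le_add ((norm_sub_le _ _).trans (le_of_eq ?_)) (le_of_eq ?_)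
  · rw [norm_mul, norm_mul, norm_mul, hE']
  · rw [norm_mul, hE']

private lemma L8_Gp_cont (b : Bool) (α T : ℝ) (R : Finset ℕ) :
    Continuous (fun q : ℝ × ℝ => ∏ p ∈ R, Gp b α T q.1 q.2 p) := by
  apply continuous_finset_prod
  intro p _
  unfold Gp
  have h1 : Continuous (fun q : ℝ × ℝ => bb b α T q.1 p) :=
    (bb_continuous b α T p).comp continuous_fst
  have h2 : Continuous (fun q : ℝ × ℝ => conj (bb b α T q.2 p)) :=
    Complex.continuous_conj.comp ((bb_continuous b α T p).comp continuous_snd)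
  exact continuous_const.add (((continuous_const.sub h1).mul (continuous_const.sub h2)).div_const _)

private lemma L8_Fb {b : Bool} {T : ℝ} : ∀ q ∈ Fb b T, q.1 ≠ 0 ∧ q.2 ≠ 0 := by
  intro q hq
  unfold Fb at hq
  rw [Finset.mem_image] at hq
  obtain ⟨n, hn, rfl⟩ := hq
  unfold GT at hn
  rw [Finset.mem_Icc] at hn
  unfold qs
  cases b
  · simp
    omega
  · simp
    omega

private lemma L8_lS {b : Bool} {T : ℝ} {r : ℕ → ℝ} {c d α : ℝ} :
    (fun ρ : ℚ => if 0 < ρ then ‖fcs (Fb b T) (wb (be T r c d)) ρ‖ ^ 2 *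
      (ρ : ℝ) ^ (-1 + -(2 * α / Real.log T)) else 0) =
    lS b T r c d (fun v => Real.exp (-(2 * α * v))) := by
  funext ρ
  unfold lS Sc
  by_cases h : 0 < ρ
  · rw [if_pos h, if_pos h]
    have h1 : (0 : ℝ) < (ρ : ℝ) := by exact_mod_cast h
    rw [Real.rpow_add h1, Real.rpow_neg_one, Real.rpow_def_of_pos h1]
    have h2 : Real.log ρ * -(2 * α / Real.log T) = -(2 * α * (Real.log ρ / Real.log T)) := by ring
    rw [h2]
    ring
  · rw [if_neg h, if_neg h]

theorem LIM (lam : ℝ) (h0 : 0 < lam) (b : Bool) (α : ℝ) (hα : 0 < α) (c d ε : ℝ) (hε : 0 < ε) :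
    ∃ C0 θ1 : ℝ, 0 < θ1 ∧ ∀ {Ct θ D1 : ℝ} {N0 : ℕ}, C0 ≤ Ct → 0 < θ → θ ≤ θ1 → ∃ T0 : ℝ,
    ∀ {S : BS}, TG S Ct θ D1 N0 → T0 ≤ S.T → ∀ r : ℕ → ℝ, Rp S lam θ r →
    Summable (lS b S.T r c d (fun v => Real.exp (-(2 * α * v)))) ∧
    |LS b S.T r c d (fun v => Real.exp (-(2 * α * v))) - ER S lam * Xi b α c d| ≤
      ε * Lam S lam := by
  obtain ⟨φ, hφ, hφi, hF⟩ := fourier_kernel_pf c d (α + 1)
  obtain ⟨C1, cE, KE, hcE, hKE, hER⟩ := ER_bounds lam h0
  obtain ⟨C2, K2, m2, hK2, hsub⟩ := PhP_sub lam h0 b α hα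
  obtain ⟨C3, K3, m3, hK3, hle⟩ := PhP_le lam h0 b α hα
  obtain ⟨K4, m4, hK4, hprod⟩ := prod_le b α hα
  obtain ⟨K5, m5, hK5, hP⟩ := prod_P b α hα
  obtain ⟨K7, hK7, hGl⟩ := Gl_le b hα
  obtain ⟨T1, hT1⟩ := prod_avg b α hα hφ hφi (ε / (2 * KE)) (by positivity)
  obtain ⟨m6, hm6⟩ : ∃ m6, m6 = m2 + m4 + m5 := ⟨_, rfl⟩
  obtain ⟨K6, hK6⟩ : ∃ K6, K6 = K4 * K2 + KE * (K4 * K5) := ⟨_, rfl⟩
  obtain ⟨ID, hID⟩ : ∃ ID, ID = ∫ q : ℝ × ℝ,
    ((1 + |q.1|) ^ m6 * ‖φ q.1‖) * ((1 + |q.2|) ^ m6 * ‖φ q.2‖) := ⟨_, rfl⟩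
  have hID0 : 0 ≤ ID := by
    rw [hID]
    exact integral_nonneg (fun q => by positivity)
  have hK60 : 0 ≤ K6 := by
    rw [hK6]
    positivity
  refine ⟨max C1 (max C2 C3), min 1 (ε / (2 * (K6 * ID + 1))), lt_min one_pos (by positivity), ?_⟩
  intro Ct θ D1 N0 hCt hθ hθ1
  obtain ⟨T2, hT2⟩ := hsub (Ct := Ct) (θ := θ) (D1 := D1) (N0 := N0)
    (((le_max_left _ _).trans (le_max_right _ _)).trans hCt)
  obtain ⟨T3, hT3⟩ := hle (Ct := Ct) (θ := θ) (D1 := D1) (N0 := N0)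
    (((le_max_right _ _).trans (le_max_right _ _)).trans hCt)
  obtain ⟨T4, hT4⟩ := hP (Ct := Ct) (θ := θ) (D1 := D1) (N0 := N0) hθ
  refine ⟨max T1 (max T2 (max T3 T4)), ?_⟩
  intro S hS hT r hr
  have hTa : T1 ≤ S.T := (le_max_left _ _).trans hT
  have hTb : T2 ≤ S.T := ((le_max_left _ _).trans (le_max_right _ _)).trans hT
  have hTc : T3 ≤ S.T := (((le_max_left _ _).trans (le_max_right _ _)).trans
    (le_max_right _ _)).trans hT
  have hTd : T4 ≤ S.T := (((le_max_right _ _).trans (le_max_right _ _)).trans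
    (le_max_right _ _)).trans hT
  have hTe : Real.exp 1000 ≤ S.T := hS.T_ge
  have hL : 0 < Real.log S.T := by
    have h1 : Real.log (Real.exp 1000) ≤ Real.log S.T := Real.log_le_log (Real.exp_pos _) hTe
    rw [Real.log_exp] at h1
    linarith
  have hη : -(2 * α / Real.log S.T) < 0 := by
    have : 0 < 2 * α / Real.log S.T := by positivity
    linarith
  have hlap := laplace (F := Fb b S.T) (w := wb (be S.T r c d)) hη L8_Fb
  rw [L8_lS] at hlap
  refine ⟨hlap.1, ?_⟩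
  have hLam : 1 ≤ Lam S lam := one_le_Lam S lam
  obtain ⟨hE1, hE2⟩ := hER hS ((le_max_left _ _).trans hCt)
  have hE0 : 0 ≤ ER S lam := le_trans (by positivity) hE1
  have hlim : Filter.Tendsto (fun M : ℕ => |BB M (Fb b S.T) (wb (be S.T r c d))
      (-(2 * α / Real.log S.T)) - ER S lam * Xi b α c d|) Filter.atTop
      (nhds |LS b S.T r c d (fun v => Real.exp (-(2 * α * v))) - ER S lam * Xi b α c d|) :=
    (hlap.2.sub_const _).abs
  refine le_of_tendsto hlim ?_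
  filter_upwards [Filter.eventually_ge_atTop ⌈S.T ^ (9 / 20 : ℝ)⌉₊,
    Filter.eventually_ge_atTop ⌈S.T ^ (1 / 10 : ℝ)⌉₊, hT1 S.T hTa] with M hM1 hM2 hM3
  have hM1' : S.T ^ (9 / 20 : ℝ) ≤ M := (Nat.le_ceil _).trans (by exact_mod_cast hM1)
  have hM2' : S.T ^ (1 / 10 : ℝ) ≤ M := (Nat.le_ceil _).trans (by exact_mod_cast hM2)
  have hPM : S.P ⊆ Nat.primesBelow M := P_lt hS hM2'
  have hdbl := BB_double hS hr b hα c d hφ hφi hF hM1'
  have hglint := Gl_int b hα c d hφ hφi hF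
  -- the functions
  obtain ⟨P', hP'⟩ : ∃ P' : ℝ × ℝ → ℂ, P' = fun q =>
    ∏ p ∈ Nat.primesBelow M \ S.P, Gp b α S.T q.1 q.2 p := ⟨_, rfl⟩
  obtain ⟨Q', hQ'⟩ : ∃ Q' : ℝ × ℝ → ℂ, Q' = fun q => ∏ p ∈ S.P, Gp b α S.T q.1 q.2 p := ⟨_, rfl⟩
  obtain ⟨Ph, hPh⟩ : ∃ Ph : ℝ × ℝ → ℂ, Ph = fun q => PhP S lam b α q.1 q.2 := ⟨_, rfl⟩
  obtain ⟨G, hG⟩ : ∃ G : ℝ × ℝ → ℂ, G = fun q => Gl b α q.1 q.2 := ⟨_, rfl⟩
  have cP' : Continuous P' := by
    rw [hP']
    exact L8_Gp_cont b α S.T _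
  have cQ' : Continuous Q' := by
    rw [hQ']
    exact L8_Gp_cont b α S.T _
  have cPh : Continuous Ph := by
    rw [hPh]
    exact PhP_continuous hS lam b hα
  have cG : Continuous G := by
    rw [hG]
    exact Gl_continuous b hα
  have bP' : ∀ q, ‖P' q‖ ≤ K4 * (1 + |q.1| + |q.2|) ^ m4 := by
    intro q
    rw [hP']
    exact hprod S.T M _ q.1 q.2 hTe Finset.sdiff_subset
  have bPQ : ∀ q, ‖P' q * Q' q‖ ≤ K4 * (1 + |q.1| + |q.2|) ^ m4 := by
    intro q
    rw [hP', hQ']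
    show ‖(∏ p ∈ Nat.primesBelow M \ S.P, Gp b α S.T q.1 q.2 p) *
      ∏ p ∈ S.P, Gp b α S.T q.1 q.2 p‖ ≤ _
    rw [Finset.prod_sdiff hPM]
    exact hprod S.T M _ q.1 q.2 hTe (Finset.Subset.refl _)
  have bPh : ∀ q, ‖Ph q‖ ≤ K3 * (1 + |q.1| + |q.2|) ^ m3 * Lam S lam := by
    intro q
    rw [hPh]
    exact hT3 hS hTc q.1 q.2
  have bsub : ∀ q, ‖Ph q - (ER S lam : ℂ)‖ ≤
      K2 * θ ^ 5 * (1 + |q.1| + |q.2|) ^ m2 * Lam S lam := by
    intro q
    rw [hPh]
    exact hT2 hS hTb q.1 q.2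
  have bQ : ∀ q, ‖Q' q - 1‖ ≤ K5 * θ ^ 5 * (1 + |q.1| + |q.2|) ^ m5 := by
    intro q
    rw [hQ']
    exact hT4 hS hTd q.1 q.2
  have bG : ∀ q, ‖G q‖ ≤ K7 * (1 + |q.1| + |q.2|) ^ 2 := by
    intro q
    rw [hG]
    refine (hGl q.1 q.2).trans ?_
    rw [mul_assoc]
    exact mul_le_mul_of_nonneg_left (L8_w2 _ _) (by linarith)
  -- the two integrals
  have i1 : Integrable (fun q : ℝ × ℝ => φ q.1 * conj (φ q.2) * (P' q * Ph q)) := by
    refine L8_int hφ hφi (cP'.mul cPh) (K := K4 * K3 * Lam S lam) (m := m4 + m3)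
      (by positivity) ?_
    intro q
    rw [norm_mul]
    refine (mul_le_mul (bP' q) (bPh q) (norm_nonneg _) (by positivity)).trans (le_of_eq ?_)
    rw [pow_add]
    ring
  have i2 : Integrable (fun q : ℝ × ℝ => φ q.1 * conj (φ q.2) * ((ER S lam : ℂ) * G q)) := by
    refine L8_int hφ hφi (continuous_const.mul cG) (K := ER S lam * K7) (m := 2)
      (by positivity) ?_
    intro q
    rw [norm_mul, Complex.norm_real, Real.norm_of_nonneg hE0, mul_assoc]
    exact mul_le_mul_of_nonneg_left (bG q) hE0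
  have i3 : Integrable (fun q : ℝ × ℝ => ‖φ q.1‖ * ‖φ q.2‖ * ‖P' q * Q' q - G q‖) := by
    refine L8_intR hφ hφi ((cP'.mul cQ').sub cG) (K := K4 + K7) (m := m4 + 2)
      (by positivity) ?_
    intro q
    have hw : 1 ≤ 1 + |q.1| + |q.2| := by
      have := abs_nonneg q.1
      have := abs_nonneg q.2
      linarith
    refine (norm_sub_le _ _).trans ?_
    have e1 : (1 + |q.1| + |q.2|) ^ m4 ≤ (1 + |q.1| + |q.2|) ^ (m4 + 2) :=
      pow_le_pow_right₀ hw (by omega)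
    have e2 : (1 + |q.1| + |q.2|) ^ 2 ≤ (1 + |q.1| + |q.2|) ^ (m4 + 2) :=
      pow_le_pow_right₀ hw (by omega)
    have e3 := (bPQ q).trans (mul_le_mul_of_nonneg_left e1 (by linarith : (0 : ℝ) ≤ K4))
    have e4 := (bG q).trans (mul_le_mul_of_nonneg_left e2 (by linarith : (0 : ℝ) ≤ K7))
    rw [add_mul]
    exact add_le_add e3 e4
  have j1 : ((BB M (Fb b S.T) (wb (be S.T r c d)) (-(2 * α / Real.log S.T)) : ℝ) : ℂ) =
      ∫ q : ℝ × ℝ, φ q.1 * conj (φ q.2) * (P' q * Ph q) := by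
    rw [hdbl, Measure.volume_eq_prod, integral_prod _ i1]
    rw [hP', hPh]
  have j2 : ((ER S lam * Xi b α c d : ℝ) : ℂ) =
      ∫ q : ℝ × ℝ, φ q.1 * conj (φ q.2) * ((ER S lam : ℂ) * G q) := by
    rw [Measure.volume_eq_prod, integral_prod _ i2, Complex.ofReal_mul, ← hglint,
      ← integral_const_mul]
    congr 1
    funext ξ1
    rw [← integral_const_mul]
    congr 1
    funext ξ2
    rw [hG]
    ring
  have j3 : ‖((BB M (Fb b S.T) (wb (be S.T r c d)) (-(2 * α / Real.log S.T)) -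
      ER S lam * Xi b α c d : ℝ) : ℂ)‖ ≤ ε * Lam S lam := by
    rw [Complex.ofReal_sub, j1, j2, ← integral_sub i1 i2]
    refine (norm_integral_le_integral_norm _).trans ?_
    have hdom : Integrable (fun q : ℝ × ℝ => K6 * θ ^ 5 * Lam S lam *
        (((1 + |q.1|) ^ m6 * ‖φ q.1‖) * ((1 + |q.2|) ^ m6 * ‖φ q.2‖)) +
        KE * Lam S lam * (‖φ q.1‖ * ‖φ q.2‖ * ‖P' q * Q' q - G q‖)) :=
      ((L8_dom hφi m6).const_mul _).add (i3.const_mul _)
    have hmono : ∫ q : ℝ × ℝ, ‖φ q.1 * conj (φ q.2) * (P' q * Ph q) -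
        φ q.1 * conj (φ q.2) * ((ER S lam : ℂ) * G q)‖ ≤
        ∫ q : ℝ × ℝ, (K6 * θ ^ 5 * Lam S lam *
        (((1 + |q.1|) ^ m6 * ‖φ q.1‖) * ((1 + |q.2|) ^ m6 * ‖φ q.2‖)) +
        KE * Lam S lam * (‖φ q.1‖ * ‖φ q.2‖ * ‖P' q * Q' q - G q‖)) := by
      refine integral_mono (i1.sub i2).norm hdom ?_
      intro q
      have hw : 1 ≤ 1 + |q.1| + |q.2| := by
        have := abs_nonneg q.1
        have := abs_nonneg q.2
        linarith
      have hw0 : 0 ≤ 1 + |q.1| + |q.2| := by linarith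
      show ‖φ q.1 * conj (φ q.2) * (P' q * Ph q) -
        φ q.1 * conj (φ q.2) * ((ER S lam : ℂ) * G q)‖ ≤ _
      rw [← mul_sub, norm_mul, norm_mul, RCLike.norm_conj]
      have hpt := L8_pt (P' := P' q) (Ph := Ph q) (Q := Q' q) (G := G q) hE0
      have s1 : ‖P' q‖ * ‖Ph q - (ER S lam : ℂ)‖ ≤
          K4 * K2 * θ ^ 5 * Lam S lam * (1 + |q.1| + |q.2|) ^ m6 := by
        have t1 := mul_le_mul (bP' q) (bsub q) (norm_nonneg _) (by positivity)
        refine t1.trans ?_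
        have t2 : (1 + |q.1| + |q.2|) ^ (m4 + m2) ≤ (1 + |q.1| + |q.2|) ^ m6 :=
          pow_le_pow_right₀ hw (by omega)
        calc K4 * (1 + |q.1| + |q.2|) ^ m4 *
              (K2 * θ ^ 5 * (1 + |q.1| + |q.2|) ^ m2 * Lam S lam)
            = K4 * K2 * θ ^ 5 * Lam S lam * (1 + |q.1| + |q.2|) ^ (m4 + m2) := by
              rw [pow_add]
              ring
          _ ≤ _ := mul_le_mul_of_nonneg_left t2 (by positivity)
      have s2 : ER S lam * (‖P' q‖ * ‖Q' q - 1‖) ≤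
          KE * (K4 * K5) * θ ^ 5 * Lam S lam * (1 + |q.1| + |q.2|) ^ m6 := by
        have t1 := mul_le_mul (bP' q) (bQ q) (norm_nonneg _) (by positivity)
        have t3 := mul_le_mul hE2 t1 (by positivity) (by positivity)
        refine t3.trans ?_
        have t2 : (1 + |q.1| + |q.2|) ^ (m4 + m5) ≤ (1 + |q.1| + |q.2|) ^ m6 :=
          pow_le_pow_right₀ hw (by omega)
        calc KE * Lam S lam * (K4 * (1 + |q.1| + |q.2|) ^ m4 *
              (K5 * θ ^ 5 * (1 + |q.1| + |q.2|) ^ m5))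
            = KE * (K4 * K5) * θ ^ 5 * Lam S lam * (1 + |q.1| + |q.2|) ^ (m4 + m5) := by
              rw [pow_add]
              ring
          _ ≤ _ := mul_le_mul_of_nonneg_left t2 (by positivity)
      have s3 : ER S lam * ‖P' q * Q' q - G q‖ ≤ KE * Lam S lam * ‖P' q * Q' q - G q‖ :=
        mul_le_mul_of_nonneg_right hE2 (norm_nonneg _)
      have s4 : ‖P' q * Ph q - (ER S lam : ℂ) * G q‖ ≤
          K6 * θ ^ 5 * Lam S lam * (1 + |q.1| + |q.2|) ^ m6 +
          KE * Lam S lam * ‖P' q * Q' q - G q‖ := by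
        refine hpt.trans ?_
        have s5 : K6 * θ ^ 5 * Lam S lam * (1 + |q.1| + |q.2|) ^ m6 =
            K4 * K2 * θ ^ 5 * Lam S lam * (1 + |q.1| + |q.2|) ^ m6 +
            KE * (K4 * K5) * θ ^ 5 * Lam S lam * (1 + |q.1| + |q.2|) ^ m6 := by
          rw [hK6]
          ring
        rw [s5]
        exact add_le_add (add_le_add s1 s2) s3
      have s6 : (1 + |q.1| + |q.2|) ^ m6 ≤ (1 + |q.1|) ^ m6 * (1 + |q.2|) ^ m6 := L8_w _ _ _
      have s7 : 0 ≤ K6 * θ ^ 5 * Lam S lam := by positivity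
      have s8 : ‖P' q * Ph q - (ER S lam : ℂ) * G q‖ ≤
          K6 * θ ^ 5 * Lam S lam * ((1 + |q.1|) ^ m6 * (1 + |q.2|) ^ m6) +
          KE * Lam S lam * ‖P' q * Q' q - G q‖ :=
        s4.trans (add_le_add (mul_le_mul_of_nonneg_left s6 s7) le_rfl)
      calc ‖φ q.1‖ * ‖φ q.2‖ * ‖P' q * Ph q - (ER S lam : ℂ) * G q‖
          ≤ ‖φ q.1‖ * ‖φ q.2‖ * (K6 * θ ^ 5 * Lam S lam *
            ((1 + |q.1|) ^ m6 * (1 + |q.2|) ^ m6) +
            KE * Lam S lam * ‖P' q * Q' q - G q‖) :=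
            mul_le_mul_of_nonneg_left s8 (by positivity)
        _ = _ := by ring
    refine hmono.trans ?_
    rw [integral_add ((L8_dom hφi m6).const_mul _) (i3.const_mul _), integral_const_mul,
      integral_const_mul, ← hID]
    have hM3' : ∫ q : ℝ × ℝ, ‖φ q.1‖ * ‖φ q.2‖ * ‖P' q * Q' q - G q‖ ≤ ε / (2 * KE) := by
      refine le_trans (le_of_eq ?_) hM3
      congr 1
      funext q
      rw [hP', hQ', hG]
      show ‖φ q.1‖ * ‖φ q.2‖ * ‖(∏ p ∈ Nat.primesBelow M \ S.P, Gp b α S.T q.1 q.2 p) *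
        (∏ p ∈ S.P, Gp b α S.T q.1 q.2 p) - Gl b α q.1 q.2‖ = _
      rw [Finset.prod_sdiff hPM]
    have u1 : KE * Lam S lam * ∫ q : ℝ × ℝ, ‖φ q.1‖ * ‖φ q.2‖ * ‖P' q * Q' q - G q‖ ≤
        ε / 2 * Lam S lam := by
      refine (mul_le_mul_of_nonneg_left hM3' (by positivity)).trans (le_of_eq ?_)
      field_simp
    have hθ2 : θ ≤ ε / (2 * (K6 * ID + 1)) := hθ1.trans (min_le_right _ _)
    have hθ3 : θ ≤ 1 := hθ1.trans (min_le_left _ _)
    have hθ5 : θ ^ 5 ≤ θ := by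
      have := pow_le_pow_of_le_one hθ.le hθ3 (by norm_num : 1 ≤ 5)
      rw [pow_one] at this
      exact this
    have u3 : K6 * ID * θ ^ 5 ≤ ε / 2 := by
      have v1 : θ ^ 5 ≤ ε / (2 * (K6 * ID + 1)) := hθ5.trans hθ2
      have v0 : 0 ≤ K6 * ID := mul_nonneg hK60 hID0
      have v2 : K6 * ID * θ ^ 5 ≤ (K6 * ID + 1) * (ε / (2 * (K6 * ID + 1))) :=
        mul_le_mul (by linarith) v1 (by positivity) (by linarith)
      refine v2.trans (le_of_eq ?_)
      have v3 : K6 * ID + 1 ≠ 0 := by linarith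
      field_simp
    have u2 : K6 * θ ^ 5 * Lam S lam * ID ≤ ε / 2 * Lam S lam := by
      calc K6 * θ ^ 5 * Lam S lam * ID = (K6 * ID * θ ^ 5) * Lam S lam := by ring
        _ ≤ _ := mul_le_mul_of_nonneg_right u3 (by linarith)
    linarith
  rw [Complex.norm_real, Real.norm_eq_abs] at j3
  exact j3

end Pool.Agent.LB
end

section

/-! TASK L9. From Laplace transforms to continuous weights (Weierstrass). `Sc b T r c d ρ = 0` unless `v = log ρ/L ≥ -23/50` (`cs_small`). Let `u = e^{-2v} ∈ (0, e]` for `v ≥ -1/2`. `ψ(u) = Ψ(v)/u`, `ψ(0) = 0`, is continuous on `[0, e]` (`Ψ(v) = 0` for `v ≥ 955/1000`, i.e. near `u = 0`); Weierstrass: a polynomial `Q(u) = ∑_{j<J} a_j u^j` with `|ψ - Q| ≤ ε'` on `[0,e]`, so `|Ψ(v) - ∑_j a_j e^{-2(j+1)v}| ≤ ε' e^{-2v}` for `v ≥ -1/2`.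
So `|LS Ψ - ∑ a_j LS(e^{-2(j+1)v})| ≤ ε' LS(e^{-2v})` (everything is summable: `LIM`; `lS Ψ` has finite support or is dominated), and `LIM` with `α = j+1` and a small `ε''` for each of the finitely many `j`.
On the other side: `Mu'(Ψ) = (if b then c² Ψ(0) else 0) + ∫_{v > -1} Ψ(v) dn b c d v dv` (over `(-1, ∞)`): `Mu'(e^{-2αv}) = Xi b α c d` (Fubini: `b = true`: `∫_0^∞ e^{-2αv} ∫_0^v p'² = (1/2α)∫ p'(x)² e^{-2αx} dx`; `b = false`: `∫ p'(x)² ∫_{v ≥ -x} e^{-2αv} dv dx = (1/2α)∫ p'(x)² e^{2αx} dx`, `p' = 0` outside `[0, 9/20]`, so `dn = 0` for `v ≤ -9/20`), `Mu'(Ψ) = Mu b c d Ψ` (`Ψ = 0` for `v ≥ 955/1000`), `dn ≥ 0`, so `|Mu'(Ψ) - ∑ a_j Xi b (j+1) c d| ≤ ε' Xi b 1 c d`. And `ER ≤ K Lam` (`ER_bounds`). -/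

set_option autoImplicit false

namespace Pool.Agent.LB

open Complex MeasureTheory Finset Pool.Agent.GH Pool.Agent.UH Pool.Agent.UV
open scoped Real ComplexConjugate


/-! #### Laplace side: polynomial approximation -/

private theorem L9_approx (Ψ : ℝ → ℝ) (hΨ : Continuous Ψ)
    (hΨ0 : ∀ v : ℝ, 955 / 1000 ≤ v → Ψ v = 0) (ε : ℝ) (hε : 0 < ε) :
    ∃ (J : ℕ) (a : ℕ → ℝ), ∀ v : ℝ, -1 ≤ v →
      |Ψ v - ∑ j ∈ Finset.range (J + 1), a j * Real.exp (-(2 * ((j : ℝ) + 1) * v))| ≤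
        ε * Real.exp (-(2 * 1 * v)) := by
  set δ : ℝ := Real.exp (-(191 / 100)) with hδ
  have hδpos : 0 < δ := Real.exp_pos _
  set ψ : ℝ → ℝ := fun u => Ψ (-Real.log (max u δ) / 2) / max u δ with hψ
  have hmax : ∀ u : ℝ, 0 < max u δ := fun u => lt_of_lt_of_le hδpos (le_max_right _ _)
  have hψc : Continuous ψ := by
    have h1 : Continuous fun u : ℝ => max u δ := continuous_id.max continuous_const
    have h2 : Continuous fun u : ℝ => Real.log (max u δ) :=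
      h1.log fun u => (hmax u).ne'
    exact (hΨ.comp (h2.neg.div_const 2)).div h1 fun u => (hmax u).ne'
  obtain ⟨p, hp⟩ := exists_polynomial_near_of_continuousOn 0 (Real.exp 2) ψ hψc.continuousOn ε hε
  refine ⟨p.natDegree, fun j => p.coeff j, fun v hv => ?_⟩
  set u : ℝ := Real.exp (-(2 * 1 * v)) with hu
  have hupos : 0 < u := Real.exp_pos _
  have hule : u ≤ Real.exp 2 := by
    apply Real.exp_le_exp.mpr; linarith
  have h3 := hp u ⟨hupos.le, hule⟩
  have h4 : ψ u * u = Ψ v := by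
    simp only [hψ]
    rcases le_total δ u with h | h
    · rw [max_eq_left h, div_mul_cancel₀ _ hupos.ne', hu, Real.log_exp]
      congr 1; ring
    · rw [max_eq_right h]
      have h5 : 955 / 1000 ≤ v := by
        have := Real.exp_le_exp.mp h
        linarith
      have h6 : Ψ (-Real.log δ / 2) = 0 := by
        apply hΨ0
        rw [hδ, Real.log_exp]; norm_num
      rw [h6, hΨ0 v h5]; simp
  have h5 : p.eval u * u = ∑ j ∈ Finset.range (p.natDegree + 1),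
      p.coeff j * Real.exp (-(2 * ((j : ℝ) + 1) * v)) := by
    rw [Polynomial.eval_eq_sum_range, Finset.sum_mul]
    refine Finset.sum_congr rfl fun j _ => ?_
    rw [mul_assoc, ← pow_succ, hu, ← Real.exp_nat_mul]
    congr 2; push_cast; ring
  rw [← h4, ← h5, ← sub_mul, abs_mul, abs_of_pos hupos, abs_sub_comm]
  exact mul_le_mul_of_nonneg_right h3.le hupos.le

/-! #### The functional -/

private theorem L9_pc (c d : ℝ) : Continuous fun x => deriv (pf c d) x ^ 2 := by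
  have h := pf_contDiff c d
  exact (h.continuous_deriv (by simp)).pow 2

private theorem L9_dn_true (c d v : ℝ) :
    dn true c d v = ∫ x in (0 : ℝ)..(max v 0), deriv (pf c d) x ^ 2 := by
  unfold dn
  simp only [if_true]
  split_ifs with h
  · rw [max_eq_right h]; simp
  · rw [max_eq_left (le_of_lt (not_le.mp h))]

private theorem L9_dn_false (c d v : ℝ) :
    dn false c d v = ∫ x in (max (-v) 0)..(1 : ℝ), deriv (pf c d) x ^ 2 := by
  unfold dn
  simp

private theorem L9_dn_cont (b : Bool) (c d : ℝ) : Continuous (dn b c d) := by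
  have hc := L9_pc c d
  have hprim : Continuous fun y : ℝ => ∫ x in (0 : ℝ)..y, deriv (pf c d) x ^ 2 :=
    intervalIntegral.continuous_primitive (fun a b => hc.intervalIntegrable a b) 0
  cases b
  · have h1 : dn false c d = fun v => (∫ x in (0 : ℝ)..1, deriv (pf c d) x ^ 2) -
        ∫ x in (0 : ℝ)..(max (-v) 0), deriv (pf c d) x ^ 2 := by
      funext v
      rw [L9_dn_false, intervalIntegral.integral_interval_sub_left] <;>
        exact hc.intervalIntegrable _ _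
    rw [h1]
    exact continuous_const.sub (hprim.comp (continuous_neg.max continuous_const))
  · have h1 : dn true c d = fun v => ∫ x in (0 : ℝ)..(max v 0), deriv (pf c d) x ^ 2 := by
      funext v; rw [L9_dn_true]
    rw [h1]
    exact hprim.comp (continuous_id.max continuous_const)

private theorem L9_dn_nonneg (b : Bool) (c d v : ℝ) (hv : -1 ≤ v) : 0 ≤ dn b c d v := by
  cases b
  · rw [L9_dn_false]
    exact intervalIntegral.integral_nonneg (max_le (by linarith) (by norm_num))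
      fun x _ => sq_nonneg _
  · rw [L9_dn_true]
    exact intervalIntegral.integral_nonneg (le_max_right _ _) fun x _ => sq_nonneg _

/-- The extended functional. -/
private noncomputable def L9M (b : Bool) (c d : ℝ) (f : ℝ → ℝ) : ℝ :=
  Mu b c d f + (∫ x in (0 : ℝ)..1, deriv (pf c d) x ^ 2) * ∫ v in Set.Ioi (1 : ℝ), f v

private theorem L9_ii (b : Bool) (c d : ℝ) {f : ℝ → ℝ} (hf : Continuous f) :
    IntervalIntegrable (fun v => f v * dn b c d v) volume (-1) 1 :=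
  (hf.mul (L9_dn_cont b c d)).intervalIntegrable _ _

private theorem L9M_add (b : Bool) (c d : ℝ) {f g : ℝ → ℝ} (hf : Continuous f)
    (hf2 : IntegrableOn f (Set.Ioi 1)) (hg : Continuous g) (hg2 : IntegrableOn g (Set.Ioi 1)) :
    L9M b c d (fun v => f v + g v) = L9M b c d f + L9M b c d g := by
  unfold L9M Mu
  have h1 : ∫ v in (-1 : ℝ)..1, (f v + g v) * dn b c d v =
      (∫ v in (-1 : ℝ)..1, f v * dn b c d v) + ∫ v in (-1 : ℝ)..1, g v * dn b c d v := by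
    rw [← intervalIntegral.integral_add (L9_ii b c d hf) (L9_ii b c d hg)]
    congr 1; funext v; ring
  have h2 : ∫ v in Set.Ioi (1 : ℝ), (f v + g v) =
      (∫ v in Set.Ioi (1 : ℝ), f v) + ∫ v in Set.Ioi (1 : ℝ), g v :=
    integral_add hf2 hg2
  rw [h1, h2]
  split_ifs <;> ring

private theorem L9M_smul (b : Bool) (c d : ℝ) (a : ℝ) (f : ℝ → ℝ) :
    L9M b c d (fun v => a * f v) = a * L9M b c d f := by
  unfold L9M Mu
  have h1 : ∫ v in (-1 : ℝ)..1, (a * f v) * dn b c d v =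
      a * ∫ v in (-1 : ℝ)..1, f v * dn b c d v := by
    rw [← intervalIntegral.integral_const_mul]
    congr 1; funext v; ring
  have h2 : ∫ v in Set.Ioi (1 : ℝ), a * f v = a * ∫ v in Set.Ioi (1 : ℝ), f v :=
    integral_const_mul _ _
  rw [h1, h2]
  split_ifs <;> ring

private theorem L9M_nonneg (b : Bool) (c d : ℝ) {f : ℝ → ℝ}
    (h : ∀ v : ℝ, -1 ≤ v → 0 ≤ f v) : 0 ≤ L9M b c d f := by
  unfold L9M Mu
  have h1 : 0 ≤ ∫ v in (-1 : ℝ)..1, f v * dn b c d v :=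
    intervalIntegral.integral_nonneg (by norm_num)
      fun v hv => mul_nonneg (h v hv.1) (L9_dn_nonneg b c d v hv.1)
  have h2 : 0 ≤ ∫ v in Set.Ioi (1 : ℝ), f v :=
    setIntegral_nonneg measurableSet_Ioi fun v hv => h v (by linarith [Set.mem_Ioi.mp hv])
  have h3 : 0 ≤ ∫ x in (0 : ℝ)..1, deriv (pf c d) x ^ 2 :=
    intervalIntegral.integral_nonneg (by norm_num) fun x _ => sq_nonneg _
  have h4 : 0 ≤ (if b then c ^ 2 * f 0 else 0) := by
    split_ifs
    · exact mul_nonneg (sq_nonneg _) (h 0 (by norm_num))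
    · exact le_rfl
  positivity

private theorem L9_exp_int {α : ℝ} (hα : 0 < α) :
    IntegrableOn (fun v : ℝ => Real.exp (-(2 * α * v))) (Set.Ioi 1) := by
  have := integrableOn_exp_mul_Ioi (a := -(2 * α)) (by linarith) 1
  refine this.congr_fun (fun v _ => ?_) measurableSet_Ioi
  show Real.exp (-(2 * α) * v) = _
  congr 1; ring

private theorem L9_exp_cont (α : ℝ) : Continuous fun v : ℝ => Real.exp (-(2 * α * v)) := by
  fun_prop

private theorem L9_tail {α : ℝ} (hα : 0 < α) :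
    ∫ v in Set.Ioi (1 : ℝ), Real.exp (-(2 * α * v)) = Real.exp (-(2 * α)) / (2 * α) := by
  have h := integral_exp_mul_Ioi (a := -(2 * α)) (by linarith) 1
  have h2 : ∫ v in Set.Ioi (1 : ℝ), Real.exp (-(2 * α * v)) =
      ∫ v in Set.Ioi (1 : ℝ), Real.exp (-(2 * α) * v) := by
    congr 1; funext v; congr 1; ring
  rw [h2, h, mul_one, neg_div_neg_eq]

private theorem L9_parts {β : ℝ} (hβ : β ≠ 0) {q F : ℝ → ℝ} (hq : Continuous q)
    (hF : ∀ x, HasDerivAt F (q x) x) (a b : ℝ) :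
    ∫ v in a..b, Real.exp (β * v) * F v =
      (Real.exp (β * b) * F b - Real.exp (β * a) * F a) / β -
        1 / β * ∫ v in a..b, Real.exp (β * v) * q v := by
  have hFc : Continuous F := continuous_iff_continuousAt.mpr fun x => (hF x).continuousAt
  have hE : ∀ x, HasDerivAt (fun v => Real.exp (β * v) / β) (Real.exp (β * x)) x := by
    intro x
    have h1 : HasDerivAt (fun v : ℝ => β * v) β x := by
      simpa using (hasDerivAt_id x).const_mul β
    have h2 := h1.exp.div_const β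
    rwa [mul_div_assoc, div_self hβ, mul_one] at h2
  have hec : Continuous fun v : ℝ => Real.exp (β * v) := by fun_prop
  have h := intervalIntegral.integral_mul_deriv_eq_deriv_mul (a := a) (b := b)
    (fun x _ => hF x) (fun x _ => hE x) (hq.intervalIntegrable _ _)
    (hec.intervalIntegrable _ _)
  have h1 : ∫ v in a..b, Real.exp (β * v) * F v = ∫ v in a..b, F v * Real.exp (β * v) := by
    congr 1; funext v; ring
  have h2 : ∫ v in a..b, q v * (Real.exp (β * v) / β) =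
      1 / β * ∫ v in a..b, Real.exp (β * v) * q v := by
    rw [← intervalIntegral.integral_const_mul]
    congr 1; funext v; ring
  rw [h1, h, h2]
  ring

private theorem L9M_exp (b : Bool) (c d : ℝ) {α : ℝ} (hα : 0 < α) :
    L9M b c d (fun v => Real.exp (-(2 * α * v))) = Xi b α c d := by
  have hq := L9_pc c d
  set q : ℝ → ℝ := fun x => deriv (pf c d) x ^ 2 with hqdef
  have hii : ∀ a b : ℝ, IntervalIntegrable q volume a b := fun a b => hq.intervalIntegrable _ _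
  have hα2 : (2 * α) ≠ 0 := by positivity
  unfold L9M Mu Xi
  rw [L9_tail hα]
  have hec : Continuous fun v : ℝ => Real.exp (-(2 * α * v)) := by fun_prop
  have hsplit : ∀ b : Bool, ∫ v in (-1 : ℝ)..1, Real.exp (-(2 * α * v)) * dn b c d v =
      (∫ v in (-1 : ℝ)..0, Real.exp (-(2 * α * v)) * dn b c d v) +
        ∫ v in (0 : ℝ)..1, Real.exp (-(2 * α * v)) * dn b c d v := by
    intro b
    rw [intervalIntegral.integral_add_adjacent_intervals] <;>
      exact (hec.mul (L9_dn_cont b c d)).intervalIntegrable _ _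
  rw [hsplit]
  cases b
  · -- `b = false`
    have hI0 : ∫ v in (0 : ℝ)..1, Real.exp (-(2 * α * v)) * dn false c d v =
        (∫ x in (0 : ℝ)..1, q x) * ((1 - Real.exp (-(2 * α))) / (2 * α)) := by
      have h1 : ∫ v in (0 : ℝ)..1, Real.exp (-(2 * α * v)) * dn false c d v =
          ∫ v in (0 : ℝ)..1, (∫ x in (0 : ℝ)..1, q x) * Real.exp (-(2 * α) * v) := by
        refine intervalIntegral.integral_congr fun v hv => ?_
        rw [Set.uIcc_of_le (by norm_num)] at hv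
        show Real.exp (-(2 * α * v)) * dn false c d v = _
        rw [L9_dn_false, max_eq_right (by linarith [hv.1]), mul_comm]
        congr 2; ring
      rw [h1, intervalIntegral.integral_const_mul]
      congr 1
      have h3 := L9_parts (β := -(2 * α)) (by simpa using hα.ne') (q := fun _ => (0 : ℝ))
        (F := fun _ => (1 : ℝ)) continuous_const (fun x => hasDerivAt_const x (1 : ℝ)) 0 1
      simp only [mul_one, mul_zero, Real.exp_zero, intervalIntegral.integral_zero, sub_zero] at h3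
      rw [h3]
      field_simp
      ring
    have hI1 : ∫ v in (-1 : ℝ)..0, Real.exp (-(2 * α * v)) * dn false c d v =
        -(∫ x in (0 : ℝ)..1, q x) / (2 * α) +
          1 / (2 * α) * ∫ x in (0 : ℝ)..1, Real.exp (2 * α * x) * q x := by
      have h1 : ∫ v in (-1 : ℝ)..0, Real.exp (-(2 * α * v)) * dn false c d v =
          ∫ w in (0 : ℝ)..1, Real.exp (2 * α * w) * ∫ x in w..(1 : ℝ), q x := by
        have h2 := intervalIntegral.integral_comp_neg (a := -1) (b := 0)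
          (fun w : ℝ => Real.exp (2 * α * w) * ∫ x in w..(1 : ℝ), q x)
        rw [neg_zero, neg_neg] at h2
        rw [← h2]
        refine intervalIntegral.integral_congr fun v hv => ?_
        rw [Set.uIcc_of_le (by norm_num)] at hv
        show Real.exp (-(2 * α * v)) * dn false c d v = _
        rw [L9_dn_false, max_eq_left (by linarith [hv.2])]
        congr 2; ring
      have hder : ∀ x, HasDerivAt (fun w : ℝ => ∫ x in w..(1 : ℝ), q x) (-q x) x := fun x =>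
        intervalIntegral.integral_hasDerivAt_left (hii _ _)
          (hq.stronglyMeasurableAtFilter _ _) hq.continuousAt
      have h3 := L9_parts (β := 2 * α) hα2 (q := fun x => -q x)
        (F := fun w : ℝ => ∫ x in w..(1 : ℝ), q x) hq.neg hder 0 1
      rw [h1, h3]
      simp only [intervalIntegral.integral_same, mul_zero, mul_neg,
        intervalIntegral.integral_neg, Real.exp_zero, one_mul]
      ring
    rw [hI0, hI1]
    have h5 : ∫ x in (0 : ℝ)..1, Real.exp (-(2 * sgn false * α * x)) * deriv (pf c d) x ^ 2 =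
        ∫ x in (0 : ℝ)..1, Real.exp (2 * α * x) * q x := by
      congr 1; funext x
      simp only [sgn, hqdef]
      congr 2; simp
    rw [h5]
    simp only [Bool.false_eq_true, if_false]
    field_simp
    ring
  · -- `b = true`
    have hI1 : ∫ v in (-1 : ℝ)..0, Real.exp (-(2 * α * v)) * dn true c d v = 0 := by
      have h1 : ∫ v in (-1 : ℝ)..0, Real.exp (-(2 * α * v)) * dn true c d v =
          ∫ v in (-1 : ℝ)..0, (0 : ℝ) := by
        refine intervalIntegral.integral_congr fun v hv => ?_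
        rw [Set.uIcc_of_le (by norm_num)] at hv
        show Real.exp (-(2 * α * v)) * dn true c d v = 0
        rw [L9_dn_true, max_eq_right hv.2]; simp
      rw [h1]; simp
    have hI0 : ∫ v in (0 : ℝ)..1, Real.exp (-(2 * α * v)) * dn true c d v =
        -(Real.exp (-(2 * α)) * ∫ x in (0 : ℝ)..1, q x) / (2 * α) +
          1 / (2 * α) * ∫ x in (0 : ℝ)..1, Real.exp (-(2 * α * x)) * q x := by
      have h1 : ∫ v in (0 : ℝ)..1, Real.exp (-(2 * α * v)) * dn true c d v =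
          ∫ v in (0 : ℝ)..1, Real.exp (-(2 * α) * v) * ∫ x in (0 : ℝ)..v, q x := by
        refine intervalIntegral.integral_congr fun v hv => ?_
        rw [Set.uIcc_of_le (by norm_num)] at hv
        show Real.exp (-(2 * α * v)) * dn true c d v = _
        rw [L9_dn_true, max_eq_left hv.1]
        congr 2; ring
      have hder : ∀ x, HasDerivAt (fun w : ℝ => ∫ x in (0 : ℝ)..w, q x) (q x) x := fun x =>
        intervalIntegral.integral_hasDerivAt_right (hii _ _)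
          (hq.stronglyMeasurableAtFilter _ _) hq.continuousAt
      have h3 := L9_parts (β := -(2 * α)) (by simpa using hα.ne') (q := q)
        (F := fun w : ℝ => ∫ x in (0 : ℝ)..w, q x) hq hder 0 1
      have h4 : ∫ x in (0 : ℝ)..1, Real.exp (-(2 * α) * x) * q x =
          ∫ x in (0 : ℝ)..1, Real.exp (-(2 * α * x)) * q x := by
        congr 1; funext x; congr 2; ring
      rw [h1, h3, h4]
      simp only [intervalIntegral.integral_same, mul_zero, mul_one, sub_zero]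
      field_simp
      ring
    rw [hI0, hI1]
    have h5 : ∫ x in (0 : ℝ)..1, Real.exp (-(2 * sgn true * α * x)) * deriv (pf c d) x ^ 2 =
        ∫ x in (0 : ℝ)..1, Real.exp (-(2 * α * x)) * q x := by
      congr 1; funext x
      simp only [sgn, hqdef]
      congr 2; simp
    rw [h5]
    simp only [if_true, mul_zero, neg_zero, Real.exp_zero, mul_one]
    ring

/-! #### Assembly -/

private theorem L9_fin (lam : ℝ) (h0 : 0 < lam) (b : Bool) (c d ε : ℝ) (hε : 0 < ε) (J : ℕ) :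
    ∃ C0 θ1 : ℝ, 0 < θ1 ∧ ∀ {Ct θ D1 : ℝ} {N0 : ℕ}, C0 ≤ Ct → 0 < θ → θ ≤ θ1 → ∃ T0 : ℝ,
    ∀ {S : BS}, TG S Ct θ D1 N0 → T0 ≤ S.T → ∀ r : ℕ → ℝ, Rp S lam θ r → ∀ j < J,
    Summable (lS b S.T r c d (fun v => Real.exp (-(2 * ((j : ℝ) + 1) * v)))) ∧
    |LS b S.T r c d (fun v => Real.exp (-(2 * ((j : ℝ) + 1) * v))) -
      ER S lam * Xi b ((j : ℝ) + 1) c d| ≤ ε * Lam S lam := by
  induction J with
  | zero => exact ⟨0, 1, one_pos, fun _ _ _ => ⟨0, fun _ _ _ _ j hj => absurd hj (by omega)⟩⟩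
  | succ J ih =>
    obtain ⟨C0, θ1, hθ1, H⟩ := ih
    obtain ⟨C0', θ1', hθ1', H'⟩ := LIM lam h0 b ((J : ℝ) + 1) (by positivity) c d ε hε
    refine ⟨max C0 C0', min θ1 θ1', lt_min hθ1 hθ1', fun {Ct θ D1 N0} hC hθ hθ2 => ?_⟩
    obtain ⟨T0, hT0⟩ := H (Ct := Ct) (D1 := D1) (N0 := N0) (le_trans (le_max_left _ _) hC) hθ
      (hθ2.trans (min_le_left _ _))
    obtain ⟨T0', hT0'⟩ := H' (Ct := Ct) (D1 := D1) (N0 := N0) (le_trans (le_max_right _ _) hC) hθ
      (hθ2.trans (min_le_right _ _))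
    refine ⟨max T0 T0', fun {S} hS hT r hr j hj => ?_⟩
    rcases Nat.lt_succ_iff_lt_or_eq.mp hj with h | h
    · exact hT0 hS (le_trans (le_max_left _ _) hT) r hr j h
    · subst h
      exact hT0' hS (le_trans (le_max_right _ _) hT) r hr

private theorem L9M_sum (b : Bool) (c d : ℝ) (a : ℕ → ℝ) (J : ℕ) :
    L9M b c d (fun v => ∑ j ∈ Finset.range J, a j * Real.exp (-(2 * ((j : ℝ) + 1) * v))) =
      ∑ j ∈ Finset.range J, a j * Xi b ((j : ℝ) + 1) c d := by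
  induction J with
  | zero =>
    simp only [Finset.range_zero, Finset.sum_empty]
    have := L9M_smul b c d 0 (fun _ => (0 : ℝ))
    simpa using this
  | succ J ih =>
    have h1 : (fun v : ℝ => ∑ j ∈ Finset.range (J + 1),
        a j * Real.exp (-(2 * ((j : ℝ) + 1) * v))) =
        fun v => (∑ j ∈ Finset.range J, a j * Real.exp (-(2 * ((j : ℝ) + 1) * v))) +
          a J * Real.exp (-(2 * ((J : ℝ) + 1) * v)) := by
      funext v; rw [Finset.sum_range_succ]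
    rw [h1, L9M_add b c d ?_ ?_ ?_ ?_, ih, Finset.sum_range_succ, L9M_smul,
      L9M_exp b c d (by positivity)]
    · exact continuous_finsetSum _ fun j _ => by fun_prop
    · exact integrable_finsetSum _ fun j _ => (L9_exp_int (by positivity)).const_mul _
    · fun_prop
    · exact (L9_exp_int (by positivity)).const_mul _

private theorem L9M_Psi (b : Bool) (c d : ℝ) {Ψ : ℝ → ℝ}
    (hΨ0 : ∀ v : ℝ, 955 / 1000 ≤ v → Ψ v = 0) : L9M b c d Ψ = Mu b c d Ψ := by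
  unfold L9M
  have : ∫ v in Set.Ioi (1 : ℝ), Ψ v = 0 :=
    setIntegral_eq_zero_of_forall_eq_zero fun v hv =>
      hΨ0 v (by have := Set.mem_Ioi.mp hv; linarith)
  rw [this]; simp

private theorem L9_Mu (b : Bool) (c d ε : ℝ) {Ψ : ℝ → ℝ} (hΨ : Continuous Ψ)
    (hΨ0 : ∀ v : ℝ, 955 / 1000 ≤ v → Ψ v = 0) {J : ℕ} {a : ℕ → ℝ}
    (h : ∀ v : ℝ, -1 ≤ v →
      |Ψ v - ∑ j ∈ Finset.range J, a j * Real.exp (-(2 * ((j : ℝ) + 1) * v))| ≤
        ε * Real.exp (-(2 * 1 * v))) :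
    |Mu b c d Ψ - ∑ j ∈ Finset.range J, a j * Xi b ((j : ℝ) + 1) c d| ≤ ε * Xi b 1 c d := by
  set s : ℝ → ℝ := fun v => ∑ j ∈ Finset.range J, a j * Real.exp (-(2 * ((j : ℝ) + 1) * v))
    with hs
  have hsc : Continuous s := continuous_finsetSum _ fun j _ => by fun_prop
  have hsi : IntegrableOn s (Set.Ioi 1) :=
    integrable_finsetSum _ fun j _ => (L9_exp_int (by positivity)).const_mul _
  have hΨi : IntegrableOn Ψ (Set.Ioi 1) := by
    refine (integrableOn_zero (μ := volume) (s := Set.Ioi (1 : ℝ))).congr_fun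
      (fun v hv => ?_) measurableSet_Ioi
    exact (hΨ0 v (by have := Set.mem_Ioi.mp hv; linarith)).symm
  set e : ℝ → ℝ := fun v => Real.exp (-(2 * 1 * v)) with he
  have hec : Continuous e := L9_exp_cont 1
  have hei : IntegrableOn e (Set.Ioi 1) := L9_exp_int one_pos
  have hdiff : L9M b c d (fun v => Ψ v + (-1) * s v) = Mu b c d Ψ -
      ∑ j ∈ Finset.range J, a j * Xi b ((j : ℝ) + 1) c d := by
    rw [L9M_add b c d hΨ hΨi (hsc.const_mul _) (hsi.const_mul _), L9M_smul, L9M_Psi b c d hΨ0,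
      hs, L9M_sum]
    ring
  have hfc : Continuous fun v => Ψ v + (-1) * s v := hΨ.add (hsc.const_mul _)
  have hfi : IntegrableOn (fun v => Ψ v + (-1) * s v) (Set.Ioi 1) :=
    hΨi.add (hsi.const_mul (-1))
  have hM1 : L9M b c d (fun v => ε * e v) = ε * Xi b 1 c d := by
    rw [L9M_smul, he, L9M_exp b c d one_pos]
  rw [← hdiff, ← hM1, abs_le]
  constructor
  · have h1 := L9M_nonneg b c d (f := fun v => (ε * e v) + (Ψ v + (-1) * s v)) fun v hv => by
      have := (abs_le.mp (h v hv)).1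
      simp only [hs, he]
      linarith
    rw [L9M_add b c d (hec.const_mul _) (hei.const_mul _) hfc hfi] at h1
    linarith
  · have h1 := L9M_nonneg b c d (f := fun v => (ε * e v) + (-1) * (Ψ v + (-1) * s v))
      fun v hv => by
        have := (abs_le.mp (h v hv)).2
        simp only [hs, he]
        linarith
    rw [L9M_add b c d (hec.const_mul _) (hei.const_mul _) (hfc.const_mul _)
      (hfi.const_mul _), L9M_smul b c d (-1) (fun v => Ψ v + (-1) * s v)] at h1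
    linarith

private theorem L9_LS {b : Bool} {T : ℝ} (hT : Real.exp 1000 ≤ T) (r : ℕ → ℝ) (c d ε : ℝ)
    {Ψ : ℝ → ℝ} {J : ℕ} {a : ℕ → ℝ}
    (h : ∀ v : ℝ, -1 ≤ v →
      |Ψ v - ∑ j ∈ Finset.range (J + 1), a j * Real.exp (-(2 * ((j : ℝ) + 1) * v))| ≤
        ε * Real.exp (-(2 * 1 * v)))
    (hs : ∀ j < J + 1,
      Summable (lS b T r c d (fun v => Real.exp (-(2 * ((j : ℝ) + 1) * v))))) :
    Summable (lS b T r c d Ψ) ∧
    |LS b T r c d Ψ - ∑ j ∈ Finset.range (J + 1),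
      a j * LS b T r c d (fun v => Real.exp (-(2 * ((j : ℝ) + 1) * v)))| ≤
      ε * LS b T r c d (fun v => Real.exp (-(2 * 1 * v))) := by
  have hs0 : Summable (lS b T r c d (fun v => Real.exp (-(2 * 1 * v)))) := by
    have := hs 0 (by omega)
    simpa using this
  have hTpos : 0 < T := lt_of_lt_of_le (Real.exp_pos _) hT
  have hlog : 0 < Real.log T := by
    apply Real.log_pos
    exact lt_of_lt_of_le (Real.one_lt_exp_iff.mpr (by norm_num)) hT
  -- pointwise bound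
  have hpt : ∀ ρ : ℚ, |lS b T r c d Ψ ρ - ∑ j ∈ Finset.range (J + 1),
      a j * lS b T r c d (fun v => Real.exp (-(2 * ((j : ℝ) + 1) * v))) ρ| ≤
      ε * lS b T r c d (fun v => Real.exp (-(2 * 1 * v))) ρ := by
    intro ρ
    unfold lS
    by_cases hρ : 0 < ρ
    · simp only [hρ, if_true]
      have hρ' : (0 : ℝ) < (ρ : ℝ) := by exact_mod_cast hρ
      rcases lt_or_ge (ρ : ℝ) (T ^ (-(23 / 50) : ℝ)) with h1 | h1
      · have h2 : Sc b T r c d ρ = 0 := (cs_small hT (be T r c d) (M := 0) h1).2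
        rw [h2]; simp
      · have h3 : -1 ≤ Real.log ρ / Real.log T := by
          rw [le_div_iff₀ hlog]
          have h4 := Real.log_le_log (Real.rpow_pos_of_pos hTpos _) h1
          rw [Real.log_rpow hTpos] at h4
          nlinarith
        have h5 := h _ h3
        set v := Real.log ρ / Real.log T with hv
        have h6 : (ρ : ℝ)⁻¹ * Ψ v * ‖Sc b T r c d ρ‖ ^ 2 - ∑ j ∈ Finset.range (J + 1),
            a j * ((ρ : ℝ)⁻¹ * Real.exp (-(2 * ((j : ℝ) + 1) * v)) * ‖Sc b T r c d ρ‖ ^ 2) =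
            ((ρ : ℝ)⁻¹ * ‖Sc b T r c d ρ‖ ^ 2) * (Ψ v - ∑ j ∈ Finset.range (J + 1),
              a j * Real.exp (-(2 * ((j : ℝ) + 1) * v))) := by
          rw [mul_sub, Finset.mul_sum]
          congr 1
          · ring
          · exact Finset.sum_congr rfl fun j _ => by ring
        have h7 : 0 ≤ (ρ : ℝ)⁻¹ * ‖Sc b T r c d ρ‖ ^ 2 := by positivity
        rw [h6, abs_mul, abs_of_nonneg h7]
        calc _ ≤ ((ρ : ℝ)⁻¹ * ‖Sc b T r c d ρ‖ ^ 2) * (ε * Real.exp (-(2 * 1 * v))) :=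
              mul_le_mul_of_nonneg_left h5 h7
          _ = _ := by ring
    · simp [hρ]
  have hsum : Summable fun ρ => ∑ j ∈ Finset.range (J + 1),
      a j * lS b T r c d (fun v => Real.exp (-(2 * ((j : ℝ) + 1) * v))) ρ :=
    summable_sum fun j hj => (hs j (Finset.mem_range.mp hj)).mul_left _
  have hdiff : Summable fun ρ => lS b T r c d Ψ ρ - ∑ j ∈ Finset.range (J + 1),
      a j * lS b T r c d (fun v => Real.exp (-(2 * ((j : ℝ) + 1) * v))) ρ :=
    Summable.of_norm_bounded (hs0.mul_left ε) fun ρ => by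
      rw [Real.norm_eq_abs]; exact hpt ρ
  have hΨs : Summable (lS b T r c d Ψ) := by
    have := hdiff.add hsum
    simpa using this
  refine ⟨hΨs, ?_⟩
  have h8 : LS b T r c d Ψ - ∑ j ∈ Finset.range (J + 1),
      a j * LS b T r c d (fun v => Real.exp (-(2 * ((j : ℝ) + 1) * v))) =
      ∑' ρ, (lS b T r c d Ψ ρ - ∑ j ∈ Finset.range (J + 1),
        a j * lS b T r c d (fun v => Real.exp (-(2 * ((j : ℝ) + 1) * v))) ρ) := by
    rw [hΨs.tsum_sub hsum, Summable.tsum_finsetSum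
      (fun j hj => (hs j (Finset.mem_range.mp hj)).mul_left _)]
    unfold LS
    congr 1
    exact Finset.sum_congr rfl fun j _ => by rw [tsum_mul_left]
  rw [h8]
  unfold LS
  rw [← tsum_mul_left, ← Real.norm_eq_abs]
  exact tsum_of_norm_bounded (hs0.mul_left ε).hasSum fun ρ => by
    rw [Real.norm_eq_abs]; exact hpt ρ

theorem WC (lam : ℝ) (h0 : 0 < lam) (b : Bool) (c d ε : ℝ) (hε : 0 < ε) (Ψ : ℝ → ℝ)
    (hΨ : Continuous Ψ) (hΨ0 : ∀ v : ℝ, 955 / 1000 ≤ v → Ψ v = 0) :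
    ∃ C0 θ1 : ℝ, 0 < θ1 ∧ ∀ {Ct θ D1 : ℝ} {N0 : ℕ}, C0 ≤ Ct → 0 < θ → θ ≤ θ1 → ∃ T0 : ℝ,
    ∀ {S : BS}, TG S Ct θ D1 N0 → T0 ≤ S.T → ∀ r : ℕ → ℝ, Rp S lam θ r →
    Summable (lS b S.T r c d Ψ) ∧
    |LS b S.T r c d Ψ - ER S lam * Mu b c d Ψ| ≤ ε * Lam S lam := by
  obtain ⟨CE, cE, K, hcE, hK, hER⟩ := ER_bounds lam h0
  have hXi0 : 0 ≤ Xi b 1 c d := by
    rw [← L9M_exp b c d one_pos]
    exact L9M_nonneg b c d fun v _ => (Real.exp_pos _).le
  set X0 : ℝ := Xi b 1 c d with hX0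
  set ε1 : ℝ := ε / (4 * (K * X0 + 1)) with hε1
  have hKX : 0 < K * X0 + 1 := by positivity
  have hε1pos : 0 < ε1 := by positivity
  obtain ⟨J, a, ha⟩ := L9_approx Ψ hΨ hΨ0 ε1 hε1pos
  set A : ℝ := ∑ j ∈ Finset.range (J + 1), |a j| with hA
  have hA0 : 0 ≤ A := Finset.sum_nonneg fun _ _ => abs_nonneg _
  set ε2 : ℝ := min 1 (ε / (4 * (A + 1))) with hε2
  have hε2pos : 0 < ε2 := lt_min one_pos (by positivity)
  obtain ⟨C0, θ1, hθ1, H⟩ := L9_fin lam h0 b c d ε2 hε2pos (J + 1)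
  refine ⟨max C0 CE, θ1, hθ1, fun {Ct θ D1 N0} hC hθ hθ2 => ?_⟩
  obtain ⟨T0, hT0⟩ := H (Ct := Ct) (D1 := D1) (N0 := N0) (le_trans (le_max_left _ _) hC) hθ hθ2
  refine ⟨T0, fun {S} hS hT r hr => ?_⟩
  have hj := hT0 hS hT r hr
  obtain ⟨hE1, hE2⟩ := hER hS (le_trans (le_max_right _ _) hC)
  have hLam : 0 ≤ Lam S lam := le_trans zero_le_one (one_le_Lam S lam)
  have hER0 : 0 ≤ ER S lam := le_trans (by positivity) hE1
  obtain ⟨hsum, hLS⟩ := L9_LS (b := b) hS.T_ge r c d ε1 ha fun j hj' => (hj j hj').1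
  refine ⟨hsum, ?_⟩
  have hMu := L9_Mu b c d ε1 hΨ hΨ0 ha
  have h1 : |LS b S.T r c d (fun v => Real.exp (-(2 * 1 * v))) - ER S lam * X0| ≤
      ε2 * Lam S lam := by
    have := (hj 0 (by omega)).2
    simpa using this
  have h2 : |(∑ j ∈ Finset.range (J + 1),
      a j * LS b S.T r c d (fun v => Real.exp (-(2 * ((j : ℝ) + 1) * v)))) -
      ER S lam * ∑ j ∈ Finset.range (J + 1), a j * Xi b ((j : ℝ) + 1) c d| ≤
      A * (ε2 * Lam S lam) := by
    rw [Finset.mul_sum, ← Finset.sum_sub_distrib, hA, Finset.sum_mul]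
    refine (Finset.abs_sum_le_sum_abs _ _).trans (Finset.sum_le_sum fun j hj' => ?_)
    have h3 : a j * LS b S.T r c d (fun v => Real.exp (-(2 * ((j : ℝ) + 1) * v))) -
        ER S lam * (a j * Xi b ((j : ℝ) + 1) c d) =
        a j * (LS b S.T r c d (fun v => Real.exp (-(2 * ((j : ℝ) + 1) * v))) -
          ER S lam * Xi b ((j : ℝ) + 1) c d) := by ring
    rw [h3, abs_mul]
    exact mul_le_mul_of_nonneg_left (hj j (Finset.mem_range.mp hj')).2 (abs_nonneg _)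
  set X := LS b S.T r c d Ψ
  set Y := ∑ j ∈ Finset.range (J + 1),
      a j * LS b S.T r c d (fun v => Real.exp (-(2 * ((j : ℝ) + 1) * v)))
  set Z := ∑ j ∈ Finset.range (J + 1), a j * Xi b ((j : ℝ) + 1) c d
  set L0 := LS b S.T r c d (fun v => Real.exp (-(2 * 1 * v)))
  set E := ER S lam
  set Λ := Lam S lam
  have h4 : |E * Z - E * Mu b c d Ψ| ≤ E * (ε1 * X0) := by
    rw [← mul_sub, abs_mul, abs_of_nonneg hER0, abs_sub_comm]
    exact mul_le_mul_of_nonneg_left hMu hER0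
  have h5 : |X - E * Mu b c d Ψ| ≤ |X - Y| + |Y - E * Z| + |E * Z - E * Mu b c d Ψ| := by
    have e1 : X - E * Mu b c d Ψ = (X - Y) + (Y - E * Z) + (E * Z - E * Mu b c d Ψ) := by ring
    rw [e1]
    exact (abs_add_le _ _).trans (add_le_add_left (abs_add_le _ _) _)
  have h6 : L0 ≤ K * Λ * X0 + Λ := by
    have h7 := (abs_le.mp h1).2
    have h8 : ε2 * Λ ≤ 1 * Λ := mul_le_mul_of_nonneg_right (min_le_left _ _) hLam
    have h9 : E * X0 ≤ K * Λ * X0 := mul_le_mul_of_nonneg_right hE2 hXi0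
    linarith
  have h7 : ε1 * L0 ≤ ε / 4 * Λ := by
    calc ε1 * L0 ≤ ε1 * (K * Λ * X0 + Λ) := mul_le_mul_of_nonneg_left h6 hε1pos.le
      _ = ε / 4 * Λ := by rw [hε1]; field_simp
  have h8 : A * (ε2 * Λ) ≤ ε / 4 * Λ := by
    have h9 : A * ε2 ≤ ε / 4 := by
      calc A * ε2 ≤ (A + 1) * (ε / (4 * (A + 1))) :=
            mul_le_mul (by linarith) (min_le_right _ _) hε2pos.le (by linarith)
        _ = ε / 4 := by field_simp
    calc A * (ε2 * Λ) = (A * ε2) * Λ := by ring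
      _ ≤ _ := mul_le_mul_of_nonneg_right h9 hLam
  have h9 : E * (ε1 * X0) ≤ ε / 4 * Λ := by
    have h10 : K * X0 * ε1 ≤ ε / 4 := by
      calc K * X0 * ε1 ≤ (K * X0 + 1) * ε1 :=
            mul_le_mul_of_nonneg_right (by linarith) hε1pos.le
        _ = ε / 4 := by rw [hε1]; field_simp
    calc E * (ε1 * X0) ≤ K * Λ * (ε1 * X0) :=
          mul_le_mul_of_nonneg_right hE2 (by positivity)
      _ = (K * X0 * ε1) * Λ := by ring
      _ ≤ _ := mul_le_mul_of_nonneg_right h10 hLam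
  have h10 : 0 ≤ ε / 4 * Λ := by positivity
  linarith

end Pool.Agent.LB
end
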