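import Pool.Agent.Lib.MP_69b2e4_nt.LB.C0
import Pool.Agent.Lib.MP_69b2e4_nt.LB.F1

section

/-! TASK N2. The constants, reduction. `R0 = 6/5`, `P = Pf`, `deriv (pf c d) x = (c + d x) P' + d P` (`pf_deriv`).
For fixed `v`, `x`, with `α = 1 + sgn b (1-2v)`: `α² (pf 1 0)'² + α[(pf 1 1)'² - (pf 1 (-1))'²] + 4 (pf 0 1)'² = α² P'² + 4α P' (xP' + P) + 4 (xP'+P)² = (αP' + 2xP' + 2P)²`. `b = true`: `α = 2 - 2v`: `= 4((1-v+x)P' + P)²`. `b = false`: `α = 2v`: `= 4((v+x)P'+P)²`. (All functions continuous, integrals over bounded intervals: linearity.)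
`Ps true v = e^{-R0} e^{2R0 v} cu true v`, `Ps false v = e^{R0} e^{-2R0 v} cu false v = e^{-R0} e^{2R0(1-v)} cu false v`. The point masses: `1·Ps1 true 0 + 1·Ps2 true 0 - 1·Ps2 true 0 + 0 = 4 Ps true 0 = 4e^{-R0}` (`cu true 0 = 1`).
`b = true`: `w = v - x ∈ [0, 1]`, `cu true v ≤ 1` and `= 0` for `v ≥ 955/1000`, so for each `x ∈ [0, 9/20]` the `w`-integral is at most `∫_0^{955/1000 - x} Jn x w dw`. `b = false`: `w = 1 - v - x`, `v ≥ -x`, so `w ≤ 1`, and `cu false v = 0` for `v ≥ 55/1000`, so at most `∫_{945/1000 - x}^1 Jn x w dw`. (`P = P' = 0` for `x ≥ 9/20`, so `x ∈ [0, 9/20]`.) Exchange the order of integration (continuous functions, bounded regions; e.g. extend by indicator functions). Sum: `∫_0^1 + ∫_{945/1000-x}^{955/1000-x}`. -/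

set_option autoImplicit false

namespace Pool.Agent.LB

open Complex MeasureTheory Finset Pool.Agent.GH Pool.Agent.UH Pool.Agent.UV
open scoped Real ComplexConjugate

/-- The integrand of the constant. -/
noncomputable def Jn (x w : ℝ) : ℝ :=
  Real.exp (12 / 5 * (w + x)) * ((1 - w) * deriv Pf x + Pf x) ^ 2

/-- The region of integration. -/
private noncomputable def N2_ind (b : Bool) (v x : ℝ) : ℝ :=
  if b then (if x ≤ v then 1 else 0) else (if -v < x then 1 else 0)

private theorem N2_ind_nonneg (b : Bool) (v x : ℝ) : 0 ≤ N2_ind b v x := by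
  unfold N2_ind; cases b <;> simp <;> split_ifs <;> norm_num

private theorem N2_ind_le (b : Bool) (v x : ℝ) : N2_ind b v x ≤ 1 := by
  unfold N2_ind; cases b <;> simp <;> split_ifs <;> norm_num

private theorem N2_ind_meas (b : Bool) : Measurable (fun z : ℝ × ℝ => N2_ind b z.1 z.2) := by
  unfold N2_ind
  cases b
  · simp only [Bool.false_eq_true, if_false]
    exact Measurable.ite (measurableSet_lt measurable_fst.neg measurable_snd)
      measurable_const measurable_const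
  · simp only [if_true]
    exact Measurable.ite (measurableSet_le measurable_snd measurable_fst)
      measurable_const measurable_const

private theorem N2_dPf_cont : Continuous (deriv Pf) :=
  Pf_contDiff.continuous_deriv (by simp)

private theorem N2_dPf_zero {x : ℝ} (hx : 9 / 20 ≤ x) : deriv Pf x = 0 := by
  rw [(Pf_deriv x).deriv, rho_zero (Or.inr hx)]; simp

private theorem N2_dpf_cont (c d : ℝ) : Continuous (deriv (pf c d)) :=
  (pf_contDiff c d).continuous_deriv (by simp)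

private theorem N2_dpf_zero (c d : ℝ) {x : ℝ} (hx : 9 / 20 ≤ x) : deriv (pf c d) x = 0 := by
  rw [pf_deriv, N2_dPf_zero hx, Pf_zero hx]; simp

/-- The product measure. -/
private noncomputable def N2_pi : Measure (ℝ × ℝ) :=
  (volume.restrict (Set.Ioc (-1 : ℝ) 1)).prod (volume.restrict (Set.Ioc (0 : ℝ) (9 / 20)))

private theorem N2_int (b : Bool) {H : ℝ × ℝ → ℝ} (hH : Continuous H) :
    Integrable (fun z : ℝ × ℝ => N2_ind b z.1 z.2 * H z) N2_pi := by
  have hmeas : Measurable (fun z : ℝ × ℝ => N2_ind b z.1 z.2 * H z) :=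
    (N2_ind_meas b).mul hH.measurable
  obtain ⟨C, hC⟩ := ((isCompact_Icc (a := (-1 : ℝ)) (b := 1)).prod
    (isCompact_Icc (a := (0 : ℝ)) (b := 9 / 20))).exists_bound_of_continuousOn hH.continuousOn
  have : IsFiniteMeasure N2_pi := by unfold N2_pi; infer_instance
  refine Integrable.of_bound hmeas.aestronglyMeasurable C ?_
  have hpi : N2_pi =
      (volume.prod volume).restrict (Set.Ioc (-1 : ℝ) 1 ×ˢ Set.Ioc (0 : ℝ) (9 / 20)) := by
    unfold N2_pi; rw [Measure.prod_restrict]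
  rw [hpi]
  refine (ae_restrict_iff' (measurableSet_Ioc.prod measurableSet_Ioc)).2 (ae_of_all _ ?_)
  rintro ⟨v, x⟩ ⟨hv, hx⟩
  have h1 := hC (v, x) ⟨⟨hv.1.le, hv.2⟩, ⟨hx.1.le, hx.2⟩⟩
  rw [norm_mul]
  have h2 : ‖N2_ind b v x‖ ≤ 1 := by
    rw [Real.norm_of_nonneg (N2_ind_nonneg b v x)]; exact N2_ind_le b v x
  calc ‖N2_ind b v x‖ * ‖H (v, x)‖ ≤ 1 * C :=
        mul_le_mul h2 h1 (norm_nonneg _) zero_le_one
    _ = C := one_mul C

/-- The density as an integral over `(0, 9/20]`. -/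
private theorem N2_dn (b : Bool) (c d : ℝ) {v : ℝ} (hv : v ∈ Set.Ioc (-1 : ℝ) 1) :
    dn b c d v = ∫ x in Set.Ioc (0 : ℝ) (9 / 20), N2_ind b v x * deriv (pf c d) x ^ 2 := by
  cases b
  · have h1 : max (-v) 0 ≤ 1 := max_le (by linarith [hv.1]) zero_le_one
    unfold dn
    simp only [Bool.false_eq_true, if_false]
    rw [intervalIntegral.integral_of_le h1, ← integral_indicator measurableSet_Ioc,
      ← integral_indicator measurableSet_Ioc]
    congr 1
    funext x
    unfold N2_ind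
    simp only [Bool.false_eq_true, if_false, Set.indicator_apply, Set.mem_Ioc, max_lt_iff]
    by_cases hx : 9 / 20 ≤ x
    · rw [N2_dpf_zero c d hx]; simp
    · push Not at hx
      by_cases h0 : 0 < x
      · by_cases h2 : -v < x
        · rw [if_pos ⟨⟨h2, h0⟩, by linarith⟩, if_pos ⟨h0, hx.le⟩, if_pos h2, one_mul]
        · rw [if_neg (fun h => h2 h.1.1), if_pos ⟨h0, hx.le⟩, if_neg h2, zero_mul]
      · rw [if_neg (fun h => h0 h.1.2), if_neg (fun h => h0 h.1)]
  · unfold dn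
    simp only [if_true]
    by_cases hv0 : v ≤ 0
    · rw [if_pos hv0]
      symm
      apply setIntegral_eq_zero_of_forall_eq_zero
      intro x hx
      have : ¬ x ≤ v := not_le.2 (lt_of_le_of_lt hv0 hx.1)
      unfold N2_ind
      simp only [if_true]
      rw [if_neg this, zero_mul]
    · push Not at hv0
      rw [if_neg (not_le.2 hv0), intervalIntegral.integral_of_le hv0.le,
        ← integral_indicator measurableSet_Ioc, ← integral_indicator measurableSet_Ioc]
      congr 1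
      funext x
      unfold N2_ind
      simp only [if_true, Set.indicator_apply, Set.mem_Ioc]
      by_cases hx : 9 / 20 ≤ x
      · rw [N2_dpf_zero c d hx]; simp
      · push Not at hx
        by_cases h0 : 0 < x
        · by_cases h2 : x ≤ v
          · rw [if_pos ⟨h0, h2⟩, if_pos ⟨h0, hx.le⟩, if_pos h2, one_mul]
          · rw [if_neg (fun h => h2 h.2), if_pos ⟨h0, hx.le⟩, if_neg h2, zero_mul]
        · rw [if_neg (fun h => h0 h.1), if_neg (fun h => h0 h.1)]

private theorem N2_mu (b : Bool) (c d : ℝ) {Ψ : ℝ → ℝ} (hΨ : Continuous Ψ) :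
    ∫ v in (-1 : ℝ)..1, Ψ v * dn b c d v =
      ∫ z, N2_ind b z.1 z.2 * (Ψ z.1 * deriv (pf c d) z.2 ^ 2) ∂N2_pi := by
  have hH : Continuous (fun z : ℝ × ℝ => Ψ z.1 * deriv (pf c d) z.2 ^ 2) :=
    (hΨ.comp continuous_fst).mul (((N2_dpf_cont c d).comp continuous_snd).pow 2)
  have hi := N2_int b hH
  unfold N2_pi at hi ⊢
  rw [integral_prod _ hi, intervalIntegral.integral_of_le (by norm_num)]
  refine setIntegral_congr_fun measurableSet_Ioc (fun v hv => ?_)
  change Ψ v * dn b c d v = ∫ x in Set.Ioc (0 : ℝ) (9 / 20),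
    N2_ind b v x * (Ψ v * deriv (pf c d) x ^ 2)
  rw [N2_dn b c d hv, ← integral_const_mul]
  congr 1
  funext x
  ring

private theorem N2_cu_cont (b : Bool) : Continuous (cu b) := by
  unfold cu
  exact (Real.smoothTransition.continuous).comp (by fun_prop)

private theorem N2_Ps_cont (b : Bool) : Continuous (Ps b) := by
  unfold Ps
  exact (by fun_prop : Continuous fun v : ℝ => Real.exp (-(2 * R0 * sgn b * (1 / 2 - v)))).mul
    (N2_cu_cont b)

private theorem N2_Ps1_cont (b : Bool) : Continuous (Ps1 b) := by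
  unfold Ps1
  exact (N2_Ps_cont b).mul (by fun_prop)

private theorem N2_Ps2_cont (b : Bool) : Continuous (Ps2 b) := by
  unfold Ps2
  exact (N2_Ps_cont b).mul (by fun_prop)

/-- The quadratic form. -/
private noncomputable def N2_Q (b : Bool) (v x : ℝ) : ℝ :=
  Ps b v * ((1 + sgn b * (1 - 2 * v)) * deriv Pf x + 2 * x * deriv Pf x + 2 * Pf x) ^ 2

private theorem N2_Q_cont (b : Bool) : Continuous (fun z : ℝ × ℝ => N2_Q b z.1 z.2) := by
  unfold N2_Q
  have h1 : Continuous (fun z : ℝ × ℝ => Ps b z.1) := (N2_Ps_cont b).comp continuous_fst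
  have h2 : Continuous (fun z : ℝ × ℝ => deriv Pf z.2) := N2_dPf_cont.comp continuous_snd
  have h3 : Continuous (fun z : ℝ × ℝ => Pf z.2) := Pf_contDiff.continuous.comp continuous_snd
  fun_prop

private theorem N2_four {μ : Measure (ℝ × ℝ)} {f1 f2 f3 f4 F : ℝ × ℝ → ℝ}
    (i1 : Integrable f1 μ) (i2 : Integrable f2 μ) (i3 : Integrable f3 μ) (i4 : Integrable f4 μ)
    (h : ∀ z, F z = f1 z + f2 z - f3 z + 4 * f4 z) :
    ∫ z, F z ∂μ = (∫ z, f1 z ∂μ) + (∫ z, f2 z ∂μ) - (∫ z, f3 z ∂μ) + 4 * ∫ z, f4 z ∂μ := by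
  have i12 : Integrable (fun z => f1 z + f2 z) μ := i1.add i2
  have i123 : Integrable (fun z => f1 z + f2 z - f3 z) μ := i12.sub i3
  have i44 : Integrable (fun z => 4 * f4 z) μ := i4.const_mul 4
  have e1 : ∫ z, F z ∂μ = ∫ z, (f1 z + f2 z - f3 z + 4 * f4 z) ∂μ := by
    congr 1; funext z; exact h z
  rw [e1, integral_add i123 i44, integral_sub i12 i3, integral_add i1 i2, integral_const_mul]

private theorem N2_Qc (b : Bool) : Qc b = (if b then 4 * Ps true 0 else 0) +
    ∫ z, N2_ind b z.1 z.2 * N2_Q b z.1 z.2 ∂N2_pi := by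
  have hc : ∀ (c d : ℝ) {Ψ : ℝ → ℝ} (hΨ : Continuous Ψ), Continuous
      (fun z : ℝ × ℝ => Ψ z.1 * deriv (pf c d) z.2 ^ 2) := fun c d Ψ hΨ =>
    (hΨ.comp continuous_fst).mul (((N2_dpf_cont c d).comp continuous_snd).pow 2)
  have i1 := N2_int b (hc 1 0 (N2_Ps1_cont b))
  have i2 := N2_int b (hc 1 1 (N2_Ps2_cont b))
  have i3 := N2_int b (hc 1 (-1) (N2_Ps2_cont b))
  have i4 := N2_int b (hc 0 1 (N2_Ps_cont b))
  have key : ∫ z, N2_ind b z.1 z.2 * N2_Q b z.1 z.2 ∂N2_pi =
      (∫ z, N2_ind b z.1 z.2 * (Ps1 b z.1 * deriv (pf 1 0) z.2 ^ 2) ∂N2_pi) +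
      (∫ z, N2_ind b z.1 z.2 * (Ps2 b z.1 * deriv (pf 1 1) z.2 ^ 2) ∂N2_pi) -
      (∫ z, N2_ind b z.1 z.2 * (Ps2 b z.1 * deriv (pf 1 (-1)) z.2 ^ 2) ∂N2_pi) +
      4 * (∫ z, N2_ind b z.1 z.2 * (Ps b z.1 * deriv (pf 0 1) z.2 ^ 2) ∂N2_pi) := by
    refine N2_four i1 i2 i3 i4 (fun z => ?_)
    unfold N2_Q Ps1 Ps2
    simp only [pf_deriv]
    ring
  unfold Qc Mu
  rw [N2_mu b 1 0 (N2_Ps1_cont b), N2_mu b 1 1 (N2_Ps2_cont b), N2_mu b 1 (-1) (N2_Ps2_cont b),
    N2_mu b 0 1 (N2_Ps_cont b), key]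
  cases b
  · simp only [Bool.false_eq_true, if_false]; ring
  · simp only [if_true]
    have h : Ps1 true 0 = 4 * Ps true 0 := by
      unfold Ps1; simp only [sgn, if_true]; ring
    rw [h]; ring

/-- The comparison for fixed `x`. -/
private theorem N2_key {f g : ℝ → ℝ} {l r : ℝ} (hl : -1 < l) (hr : r ≤ 1) (hlr : l ≤ r)
    (hf : IntegrableOn f (Set.Ioc (-1 : ℝ) 1)) (hg : Continuous g)
    (h0 : ∀ v, v ∉ Set.Icc l r → f v ≤ 0) (h1 : ∀ v ∈ Set.Icc l r, f v ≤ g v) :
    ∫ v in Set.Ioc (-1 : ℝ) 1, f v ≤ ∫ v in l..r, g v := by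
  have e : ∫ v in l..r, g v = ∫ v in Set.Ioc (-1 : ℝ) 1, (Set.Icc l r).indicator g v := by
    rw [setIntegral_indicator measurableSet_Icc]
    have : Set.Ioc (-1 : ℝ) 1 ∩ Set.Icc l r = Set.Icc l r := by
      apply Set.inter_eq_right.2
      intro v hv
      exact ⟨lt_of_lt_of_le hl hv.1, hv.2.trans hr⟩
    rw [this, integral_Icc_eq_integral_Ioc, intervalIntegral.integral_of_le hlr]
  rw [e]
  refine setIntegral_mono hf ?_ ?_
  · have : IntegrableOn g (Set.Ioc (-1 : ℝ) 1) :=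
      (hg.integrableOn_Icc (a := -1) (b := 1)).mono_set Set.Ioc_subset_Icc_self
    exact this.indicator measurableSet_Icc
  · intro v
    by_cases hv : v ∈ Set.Icc l r
    · rw [Set.indicator_of_mem hv]; exact h1 v hv
    · rw [Set.indicator_of_notMem hv]; exact h0 v hv

private theorem N2_cu_le (b : Bool) (v : ℝ) : cu b v ≤ 1 := by
  unfold cu; exact Real.smoothTransition.le_one _

private theorem N2_cu_nonneg (b : Bool) (v : ℝ) : 0 ≤ cu b v := by
  unfold cu; exact Real.smoothTransition.nonneg _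

private theorem N2_Jn_cont : Continuous (Function.uncurry Jn) := by
  have h : Function.uncurry Jn = fun z : ℝ × ℝ =>
      Real.exp (12 / 5 * (z.2 + z.1)) * ((1 - z.2) * deriv Pf z.1 + Pf z.1) ^ 2 := by
    funext z; rfl
  rw [h]
  have h2 : Continuous (fun z : ℝ × ℝ => deriv Pf z.1) := N2_dPf_cont.comp continuous_fst
  have h3 : Continuous (fun z : ℝ × ℝ => Pf z.1) := Pf_contDiff.continuous.comp continuous_fst
  fun_prop

private theorem N2_Jn_cont1 (x : ℝ) : Continuous (Jn x) := by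
  have := N2_Jn_cont.comp (Continuous.prodMk (continuous_const (y := x)) continuous_id)
  exact this

/-- The inner integral, first part. -/
private theorem N2_inner_true {x : ℝ} (hx : x ∈ Set.Ioc (0 : ℝ) (9 / 20)) :
    ∫ v in Set.Ioc (-1 : ℝ) 1, N2_ind true v x * N2_Q true v x ≤
      4 * Real.exp (-(6 / 5)) * ∫ w in (0 : ℝ)..(955 / 1000 - x), Jn x w := by
  have hc : Continuous fun v : ℝ => 4 * Real.exp (-(6 / 5)) * Jn x (v - x) :=
    continuous_const.mul ((N2_Jn_cont1 x).comp (continuous_id.sub continuous_const))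
  have e : 4 * Real.exp (-(6 / 5)) * ∫ w in (0 : ℝ)..(955 / 1000 - x), Jn x w =
      ∫ v in x..(955 / 1000), 4 * Real.exp (-(6 / 5)) * Jn x (v - x) := by
    rw [intervalIntegral.integral_const_mul, intervalIntegral.integral_comp_sub_right, sub_self]
  rw [e]
  refine N2_key (by linarith [hx.1]) (by norm_num) (by linarith [hx.2]) ?_ hc ?_ ?_
  · have hQ : Continuous fun v : ℝ => N2_Q true v x :=
      (N2_Q_cont true).comp (Continuous.prodMk continuous_id (continuous_const (y := x)))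
    have hQ' : IntegrableOn (fun v : ℝ => N2_Q true v x) (Set.Ioc (-1 : ℝ) 1) :=
      (hQ.integrableOn_Icc (a := -1) (b := 1)).mono_set Set.Ioc_subset_Icc_self
    have hm : Measurable fun v : ℝ => N2_ind true v x :=
      (N2_ind_meas true).comp (measurable_id.prodMk measurable_const)
    refine hQ'.bdd_mul (c := 1) hm.aestronglyMeasurable (ae_of_all _ fun v => ?_)
    rw [Real.norm_of_nonneg (N2_ind_nonneg true v x)]; exact N2_ind_le true v x
  · intro v hv
    unfold N2_ind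
    simp only [if_true]
    by_cases h : x ≤ v
    · have h2 : 955 / 1000 < v := by
        by_contra h3
        exact hv ⟨h, not_lt.1 h3⟩
      have : cu true v = 0 := by
        unfold cu
        apply Real.smoothTransition.zero_of_nonpos
        simp only [if_true]
        linarith
      unfold N2_Q Ps
      rw [this]; simp
    · rw [if_neg h, zero_mul]
  · intro v hv
    unfold N2_ind
    simp only [if_true]
    rw [if_pos hv.1, one_mul]
    unfold N2_Q Ps Jn
    simp only [sgn, if_true, R0]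
    have e1 : Real.exp (-(2 * (6 / 5) * 1 * (1 / 2 - v))) =
        Real.exp (-(6 / 5)) * Real.exp (12 / 5 * (v - x + x)) := by
      rw [← Real.exp_add]; congr 1; ring
    rw [e1]
    have hcu := N2_cu_le true v
    have hp : 0 ≤ Real.exp (-(6 / 5)) * Real.exp (12 / 5 * (v - x + x)) *
        (4 * ((1 - (v - x)) * deriv Pf x + Pf x) ^ 2) := by positivity
    calc Real.exp (-(6 / 5)) * Real.exp (12 / 5 * (v - x + x)) * cu true v *
        ((1 + 1 * (1 - 2 * v)) * deriv Pf x + 2 * x * deriv Pf x + 2 * Pf x) ^ 2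
        = cu true v * (Real.exp (-(6 / 5)) * Real.exp (12 / 5 * (v - x + x)) *
        (4 * ((1 - (v - x)) * deriv Pf x + Pf x) ^ 2)) := by ring
      _ ≤ 1 * (Real.exp (-(6 / 5)) * Real.exp (12 / 5 * (v - x + x)) *
        (4 * ((1 - (v - x)) * deriv Pf x + Pf x) ^ 2)) :=
          mul_le_mul_of_nonneg_right hcu hp
      _ = _ := by ring

/-- The inner integral, second part. -/
private theorem N2_inner_false {x : ℝ} (hx : x ∈ Set.Ioc (0 : ℝ) (9 / 20)) :
    ∫ v in Set.Ioc (-1 : ℝ) 1, N2_ind false v x * N2_Q false v x ≤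
      4 * Real.exp (-(6 / 5)) * ∫ w in (945 / 1000 - x)..1, Jn x w := by
  have hc : Continuous fun v : ℝ => 4 * Real.exp (-(6 / 5)) * Jn x (1 - x - v) :=
    continuous_const.mul ((N2_Jn_cont1 x).comp (continuous_const.sub continuous_id))
  have e : 4 * Real.exp (-(6 / 5)) * ∫ w in (945 / 1000 - x)..1, Jn x w =
      ∫ v in (-x)..(55 / 1000), 4 * Real.exp (-(6 / 5)) * Jn x (1 - x - v) := by
    rw [intervalIntegral.integral_const_mul, intervalIntegral.integral_comp_sub_left]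
    congr 2
    · ring
    · ring
  rw [e]
  refine N2_key (by linarith [hx.2]) (by norm_num) (by linarith [hx.1]) ?_ hc ?_ ?_
  · have hQ : Continuous fun v : ℝ => N2_Q false v x :=
      (N2_Q_cont false).comp (Continuous.prodMk continuous_id (continuous_const (y := x)))
    have hQ' : IntegrableOn (fun v : ℝ => N2_Q false v x) (Set.Ioc (-1 : ℝ) 1) :=
      (hQ.integrableOn_Icc (a := -1) (b := 1)).mono_set Set.Ioc_subset_Icc_self
    have hm : Measurable fun v : ℝ => N2_ind false v x :=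
      (N2_ind_meas false).comp (measurable_id.prodMk measurable_const)
    refine hQ'.bdd_mul (c := 1) hm.aestronglyMeasurable (ae_of_all _ fun v => ?_)
    rw [Real.norm_of_nonneg (N2_ind_nonneg false v x)]; exact N2_ind_le false v x
  · intro v hv
    unfold N2_ind
    simp only [Bool.false_eq_true, if_false]
    by_cases h : -v < x
    · have h2 : 55 / 1000 < v := by
        by_contra h3
        exact hv ⟨by linarith, not_lt.1 h3⟩
      have : cu false v = 0 := by
        unfold cu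
        apply Real.smoothTransition.zero_of_nonpos
        simp only [Bool.false_eq_true, if_false]
        linarith
      unfold N2_Q Ps
      rw [this]; simp
    · rw [if_neg h, zero_mul]
  · intro v hv
    have hQ0 : 0 ≤ N2_Q false v x := by
      unfold N2_Q Ps
      have := N2_cu_nonneg false v
      positivity
    have hi : N2_ind false v x * N2_Q false v x ≤ N2_Q false v x := by
      calc N2_ind false v x * N2_Q false v x ≤ 1 * N2_Q false v x :=
            mul_le_mul_of_nonneg_right (N2_ind_le false v x) hQ0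
        _ = _ := one_mul _
    refine hi.trans ?_
    unfold N2_Q Ps Jn
    simp only [sgn, Bool.false_eq_true, if_false, R0]
    have e1 : Real.exp (-(2 * (6 / 5) * -1 * (1 / 2 - v))) =
        Real.exp (-(6 / 5)) * Real.exp (12 / 5 * (1 - x - v + x)) := by
      rw [← Real.exp_add]; congr 1; ring
    rw [e1]
    have hcu := N2_cu_le false v
    have hp : 0 ≤ Real.exp (-(6 / 5)) * Real.exp (12 / 5 * (1 - x - v + x)) *
        (4 * ((1 - (1 - x - v)) * deriv Pf x + Pf x) ^ 2) := by positivity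
    calc Real.exp (-(6 / 5)) * Real.exp (12 / 5 * (1 - x - v + x)) * cu false v *
        ((1 + -1 * (1 - 2 * v)) * deriv Pf x + 2 * x * deriv Pf x + 2 * Pf x) ^ 2
        = cu false v * (Real.exp (-(6 / 5)) * Real.exp (12 / 5 * (1 - x - v + x)) *
        (4 * ((1 - (1 - x - v)) * deriv Pf x + Pf x) ^ 2)) := by ring
      _ ≤ 1 * (Real.exp (-(6 / 5)) * Real.exp (12 / 5 * (1 - x - v + x)) *
        (4 * ((1 - (1 - x - v)) * deriv Pf x + Pf x) ^ 2)) :=
          mul_le_mul_of_nonneg_right hcu hp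
      _ = _ := by ring

private theorem N2_move_cont {l r : ℝ → ℝ} (hl : Continuous l) (hr : Continuous r) :
    Continuous fun x : ℝ => ∫ w in (l x)..(r x), Jn x w := by
  have h1 := intervalIntegral.continuous_parametric_intervalIntegral_of_continuous
    (μ := volume) (a₀ := 0) N2_Jn_cont hl
  have h2 := intervalIntegral.continuous_parametric_intervalIntegral_of_continuous
    (μ := volume) (a₀ := 0) N2_Jn_cont hr
  have e : (fun x : ℝ => ∫ w in (l x)..(r x), Jn x w) =
      fun x => (∫ w in (0 : ℝ)..(r x), Jn x w) - ∫ w in (0 : ℝ)..(l x), Jn x w := by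
    funext x
    rw [intervalIntegral.integral_interval_sub_left
      ((N2_Jn_cont1 x).intervalIntegrable _ _) ((N2_Jn_cont1 x).intervalIntegrable _ _)]
  rw [e]
  exact h2.sub h1

private theorem N2_outer (b : Bool) {l r : ℝ → ℝ} (hl : Continuous l) (hr : Continuous r)
    (h : ∀ x ∈ Set.Ioc (0 : ℝ) (9 / 20),
      ∫ v in Set.Ioc (-1 : ℝ) 1, N2_ind b v x * N2_Q b v x ≤
        4 * Real.exp (-(6 / 5)) * ∫ w in (l x)..(r x), Jn x w) :
    ∫ z, N2_ind b z.1 z.2 * N2_Q b z.1 z.2 ∂N2_pi ≤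
      4 * Real.exp (-(6 / 5)) * ∫ x in (0 : ℝ)..(9 / 20), ∫ w in (l x)..(r x), Jn x w := by
  have hi := N2_int b (N2_Q_cont b)
  unfold N2_pi at hi ⊢
  rw [integral_prod_symm _ hi, intervalIntegral.integral_of_le (by norm_num), ← integral_const_mul]
  refine setIntegral_mono_on hi.integral_prod_right ?_ measurableSet_Ioc (fun x hx => h x hx)
  have hc : Continuous fun x : ℝ => 4 * Real.exp (-(6 / 5)) * ∫ w in (l x)..(r x), Jn x w :=
    continuous_const.mul (N2_move_cont hl hr)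
  exact (hc.integrableOn_Icc (a := 0) (b := 9 / 20)).mono_set Set.Ioc_subset_Icc_self

theorem Qc_le : Qc true + Qc false ≤ 4 * Real.exp (-(6 / 5)) *
    (1 + ∫ x in (0 : ℝ)..(9 / 20), ((∫ w in (0 : ℝ)..1, Jn x w) +
      ∫ w in (945 / 1000 - x)..(955 / 1000 - x), Jn x w)) := by
  have ht := N2_outer true (l := fun _ => 0) (r := fun x => 955 / 1000 - x) continuous_const
    (by fun_prop) (fun x hx => N2_inner_true hx)
  have hf := N2_outer false (l := fun x => 945 / 1000 - x) (r := fun _ => 1) (by fun_prop)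
    continuous_const (fun x hx => N2_inner_false hx)
  have c1 : Continuous fun x : ℝ => ∫ w in (0 : ℝ)..(955 / 1000 - x), Jn x w :=
    N2_move_cont (l := fun _ => 0) (r := fun x => 955 / 1000 - x) continuous_const (by fun_prop)
  have c2 : Continuous fun x : ℝ => ∫ w in (945 / 1000 - x)..1, Jn x w :=
    N2_move_cont (l := fun x => 945 / 1000 - x) (r := fun _ => 1) (by fun_prop) continuous_const
  have hP : Ps true 0 ≤ Real.exp (-(6 / 5)) := by
    unfold Ps
    simp only [sgn, if_true, R0]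
    have e1 : -(2 * (6 / 5) * 1 * (1 / 2 - 0)) = (-(6 / 5) : ℝ) := by ring
    rw [e1]
    calc Real.exp (-(6 / 5)) * cu true 0 ≤ Real.exp (-(6 / 5)) * 1 :=
          mul_le_mul_of_nonneg_left (N2_cu_le true 0) (Real.exp_pos _).le
      _ = _ := mul_one _
  have hsum : (∫ x in (0 : ℝ)..(9 / 20), ∫ w in (0 : ℝ)..(955 / 1000 - x), Jn x w) +
      (∫ x in (0 : ℝ)..(9 / 20), ∫ w in (945 / 1000 - x)..1, Jn x w) =
      ∫ x in (0 : ℝ)..(9 / 20), ((∫ w in (0 : ℝ)..1, Jn x w) +
      ∫ w in (945 / 1000 - x)..(955 / 1000 - x), Jn x w) := by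
    rw [← intervalIntegral.integral_add (c1.intervalIntegrable _ _) (c2.intervalIntegrable _ _)]
    congr 1
    funext x
    have hJ : ∀ a b : ℝ, IntervalIntegrable (Jn x) volume a b :=
      fun a b => (N2_Jn_cont1 x).intervalIntegrable a b
    rw [← intervalIntegral.integral_add_adjacent_intervals (hJ 0 (945 / 1000 - x))
        (hJ (945 / 1000 - x) (955 / 1000 - x)),
      ← intervalIntegral.integral_add_adjacent_intervals (hJ 0 (945 / 1000 - x))
        (hJ (945 / 1000 - x) 1)]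
    ring
  rw [N2_Qc true, N2_Qc false, ← hsum]
  simp only [if_true, Bool.false_eq_true, if_false]
  linarith

end Pool.Agent.LB
end

section

/-! TASK N3. The constants, numerics. `a = 12/5`, `P = Pf`, `P(0) = 1`, `P(9/20) = 0`, `0 ≤ P ≤ 1`, `P ≤ (25/11)(9/20 - x)`, `-25/11 ≤ P' ≤ 0`.
`A0 = ∫_0^1 e^{aw} = (e^a-1)/a`, `A1 = ∫_0^1 e^{aw}(1-w) = (e^a-1-a)/a²`, `E2 = ∫_0^1 e^{aw}(1-w)² = 2(e^a-1-a-a²/2)/a³`. `∫_0^1 Jn x w dw = e^{ax}(E2 P'² + 2A1 P P' + A0 P²)`.
`∫_0^{9/20} e^{ax} 2PP' = -1 - a ∫ e^{ax}P²` (integration by parts), `A0 - aA1 = 1`, so `∫∫ Jn = E2 ∫ e^{ax}P'² - A1 + ∫ e^{ax}P²`. `∫ e^{ax}P'² ≤ (25/11) ∫ e^{ax}(-P') = (25/11)(1 + a∫ e^{ax}P)`.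
`P ≤ 1` on `[0, 1/100]`, `P ≤ U = (25/11)(9/20-x)` on `[1/100, 9/20]`: with `∫ e^{ax}(9/20-x)` and `∫ e^{ax}(9/20-x)²` in closed form: `I1 = ∫ e^{ax}P ≤ (e^{.024}-1)/2.4 + (25/11)[e^{1.08}/a² - (.44/a + 1/a²)e^{.024}] ≤ .34107`, `I2 = ∫ e^{ax}P² ≤ (e^{.024}-1)/2.4 + (25/11)²[-(.44)² e^{.024}/a + (2/a)(e^{1.08}/a² - (.44/a+1/a²)e^{.024})] ≤ .21013`.
Numbers: `e^{2.4} = 11.02317638`, `e^{1.08} = 2.94467955`, `e^{.024} = 1.02429032`; `A1 = 1.323469`, `E2 = .686224`. Total `1 - 1.323469 + .21013 + .686224·2.272728·(1 + 2.4·.34107) ≤ 2.7231`. (Interval bounds with 5 correct digits suffice.)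
Overlap: `w + x ≤ .955`, `e^{2.4·.955} = e^{2.292} ≤ 9.8949`, `1 - w = 1 - (w+x) + x ≤ .055 + x ≤ .505`, `(1-w)P' + P` lies in `[-.505·25/11, 1] ⊂ [-1.1478, 1]`, square `≤ 1.3175`; the interval in `w` has length `1/100`, in `x` `9/20`: `≤ .0045·9.8949·1.3175 ≤ .05867`. Sum `≤ 2.7818 ≤ 279/100`. (`1-w ≥ 0` also there, `w ≥ .945 - .45 ≥ 0`.) -/

set_option autoImplicit false

namespace Pool.Agent.LB

open Complex MeasureTheory Finset Pool.Agent.GH Pool.Agent.UH Pool.Agent.UV
open scoped Real ComplexConjugate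

/-- the antiderivative in `w` -/
private noncomputable def N3_F (x w : ℝ) : ℝ :=
  Real.exp (12 / 5 * (w + x)) * (((1 - w) * deriv Pf x + Pf x) ^ 2 * (5 / 12) +
    2 * deriv Pf x * ((1 - w) * deriv Pf x + Pf x) * (5 / 12) ^ 2 +
    2 * deriv Pf x ^ 2 * (5 / 12) ^ 3)

private theorem N3_hasDeriv (x w : ℝ) : HasDerivAt (N3_F x) (Jn x w) w := by
  have h1 : HasDerivAt (fun w : ℝ => 12 / 5 * (w + x)) (12 / 5 * 1) w :=
    ((hasDerivAt_id w).add_const x).const_mul (12 / 5)
  have h2 := h1.exp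
  have h3 : HasDerivAt (fun w : ℝ => (1 - w) * deriv Pf x + Pf x) ((-1) * deriv Pf x) w :=
    ((((hasDerivAt_id w).const_sub 1)).mul_const (deriv Pf x)).add_const (Pf x)
  have h4 := (((h3.pow 2).mul_const (5 / 12)).add
    ((h3.const_mul (2 * deriv Pf x)).mul_const ((5 / 12) ^ 2))).add_const
      (2 * deriv Pf x ^ 2 * (5 / 12) ^ 3)
  have h5 := h2.mul h4
  have e1 : (fun w : ℝ => Real.exp (12 / 5 * (w + x)) *
      (((1 - w) * deriv Pf x + Pf x) ^ 2 * (5 / 12) +
    2 * deriv Pf x * ((1 - w) * deriv Pf x + Pf x) * (5 / 12) ^ 2 +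
    2 * deriv Pf x ^ 2 * (5 / 12) ^ 3)) = N3_F x := rfl
  refine (h5.congr_of_eventuallyEq (Filter.Eventually.of_forall fun w => ?_)).congr_deriv ?_
  · simp only [N3_F, Pi.mul_apply, Pi.add_apply, Pi.pow_apply]
  · simp only [Pi.add_apply, Pi.pow_apply]
    unfold Jn
    push_cast
    ring

private theorem N3_cont_w (x : ℝ) : Continuous fun w => Jn x w := by
  unfold Jn
  fun_prop

private theorem N3_inner (x a b : ℝ) : ∫ w in a..b, Jn x w = N3_F x b - N3_F x a :=
  intervalIntegral.integral_eq_sub_of_hasDerivAt (fun w _ => N3_hasDeriv x w)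
    ((N3_cont_w x).intervalIntegrable _ _)

private theorem N3_cP : Continuous Pf := Pf_contDiff.continuous

private theorem N3_cP' : Continuous (deriv Pf) :=
  Pf_contDiff.continuous_deriv (by exact_mod_cast le_top)

private theorem N3_cF {g : ℝ → ℝ} (hg : Continuous g) : Continuous fun x => N3_F x (g x) := by
  have h1 := N3_cP
  have h2 := N3_cP'
  unfold N3_F
  fun_prop

/-- `E2`, `A1`, `A0` -/
private noncomputable def N3_E2 : ℝ := 2 * (Real.exp (12 / 5) - 157 / 25) * (5 / 12) ^ 3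

private noncomputable def N3_A1 : ℝ := (Real.exp (12 / 5) - 17 / 5) * (5 / 12) ^ 2

private theorem N3_inner1 (x : ℝ) : ∫ w in (0 : ℝ)..1, Jn x w =
    N3_E2 * (Real.exp (12 / 5 * x) * deriv Pf x ^ 2) +
    N3_A1 * (Real.exp (12 / 5 * x) * (2 * Pf x * deriv Pf x) +
      12 / 5 * Real.exp (12 / 5 * x) * Pf x ^ 2) + Real.exp (12 / 5 * x) * Pf x ^ 2 := by
  rw [N3_inner]
  unfold N3_F N3_E2 N3_A1
  rw [show (12 / 5 * (1 + x) : ℝ) = 12 / 5 + 12 / 5 * x by ring, Real.exp_add, zero_add]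
  ring

private theorem N3_e24 : Real.exp (12 / 5) ≤ 110232 / 10000 := by
  have h1 : Real.exp (2 / 5) ≤ 1491825 / 1000000 := by
    refine (Real.exp_bound' (by norm_num) (by norm_num) (n := 8) (by norm_num)).trans ?_
    norm_num [Finset.sum_range_succ, Nat.factorial]
  have h2 : Real.exp (12 / 5) = Real.exp (2 / 5) ^ 6 := by
    rw [← Real.exp_nat_mul]
    norm_num
  rw [h2]
  calc Real.exp (2 / 5) ^ 6 ≤ (1491825 / 1000000) ^ 6 :=
        pow_le_pow_left₀ (Real.exp_pos _).le h1 6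
    _ ≤ 110232 / 10000 := by norm_num

private theorem N3_e24' : 628 / 100 ≤ Real.exp (12 / 5) := by
  have h1 := Real.sum_le_exp_of_nonneg (x := 12 / 5) (by norm_num) 5
  refine le_trans ?_ h1
  norm_num [Finset.sum_range_succ, Nat.factorial]

private theorem N3_e108 : Real.exp (27 / 25) ≤ 29447 / 10000 := by
  have h1 : Real.exp (27 / 50) ≤ 171601 / 100000 := by
    refine (Real.exp_bound' (by norm_num) (by norm_num) (n := 8) (by norm_num)).trans ?_
    norm_num [Finset.sum_range_succ, Nat.factorial]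
  have h2 : Real.exp (27 / 25) = Real.exp (27 / 50) ^ 2 := by
    rw [← Real.exp_nat_mul]
    norm_num
  rw [h2]
  calc Real.exp (27 / 50) ^ 2 ≤ (171601 / 100000) ^ 2 :=
        pow_le_pow_left₀ (Real.exp_pos _).le h1 2
    _ ≤ 29447 / 10000 := by norm_num

private theorem N3_e024 : 102429 / 100000 ≤ Real.exp (3 / 125) ∧
    Real.exp (3 / 125) ≤ 102430 / 100000 := by
  constructor
  · have h1 := Real.sum_le_exp_of_nonneg (x := 3 / 125) (by norm_num) 4
    refine le_trans ?_ h1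
    norm_num [Finset.sum_range_succ, Nat.factorial]
  · refine (Real.exp_bound' (by norm_num) (by norm_num) (n := 4) (by norm_num)).trans ?_
    norm_num [Finset.sum_range_succ, Nat.factorial]

/-- the boundary function -/
private noncomputable def N3_W (x : ℝ) : ℝ :=
  N3_A1 * (Real.exp (12 / 5 * x) * Pf x ^ 2) - 25 / 11 * N3_E2 * (Real.exp (12 / 5 * x) * Pf x)

private theorem N3_dP (x : ℝ) : HasDerivAt Pf (deriv Pf x) x :=
  (Pf_contDiff.differentiable (by simp)).differentiableAt.hasDerivAt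

private theorem N3_dE (x : ℝ) : HasDerivAt (fun x : ℝ => Real.exp (12 / 5 * x))
    (12 / 5 * Real.exp (12 / 5 * x)) x := by
  have h1 : HasDerivAt (fun x : ℝ => 12 / 5 * x) (12 / 5 * 1) x :=
    (hasDerivAt_id x).const_mul (12 / 5)
  refine h1.exp.congr_deriv ?_
  ring

private noncomputable def N3_W' (x : ℝ) : ℝ :=
  N3_A1 * (12 / 5 * Real.exp (12 / 5 * x) * Pf x ^ 2 +
    Real.exp (12 / 5 * x) * (2 * Pf x * deriv Pf x)) -
  25 / 11 * N3_E2 * (12 / 5 * Real.exp (12 / 5 * x) * Pf x +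
    Real.exp (12 / 5 * x) * deriv Pf x)

private theorem N3_dW (x : ℝ) : HasDerivAt N3_W (N3_W' x) x := by
  have h1 := ((N3_dE x).mul ((N3_dP x).pow 2)).const_mul N3_A1
  have h2 := ((N3_dE x).mul (N3_dP x)).const_mul (25 / 11 * N3_E2)
  have h3 := h1.sub h2
  refine (h3.congr_of_eventuallyEq (Filter.Eventually.of_forall fun w => ?_)).congr_deriv ?_
  · simp only [N3_W, Pi.mul_apply, Pi.sub_apply, Pi.pow_apply]
  · simp only [Pi.pow_apply]
    unfold N3_W'
    push_cast
    ring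

private theorem N3_cW' : Continuous N3_W' := by
  have h1 := N3_cP
  have h2 := N3_cP'
  unfold N3_W'
  fun_prop

private theorem N3_E2_nonneg : 0 ≤ N3_E2 := by
  have := N3_e24'
  unfold N3_E2
  have h : 0 ≤ Real.exp (12 / 5) - 157 / 25 := by linarith
  positivity

private noncomputable def N3_ps (x : ℝ) : ℝ :=
  Real.exp (12 / 5 * x) * Pf x ^ 2 + 60 / 11 * N3_E2 * (Real.exp (12 / 5 * x) * Pf x)

private theorem N3_cps : Continuous N3_ps := by
  have h1 := N3_cP
  unfold N3_ps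
  fun_prop

private theorem N3_step1 : ∫ x in (0 : ℝ)..(9 / 20), (∫ w in (0 : ℝ)..1, Jn x w) ≤
    (-N3_A1 + 25 / 11 * N3_E2) + ∫ x in (0 : ℝ)..(9 / 20), N3_ps x := by
  have h1 : ∫ x in (0 : ℝ)..(9 / 20), N3_W' x = -N3_A1 + 25 / 11 * N3_E2 := by
    rw [intervalIntegral.integral_eq_sub_of_hasDerivAt (fun x _ => N3_dW x)
      (N3_cW'.intervalIntegrable _ _)]
    unfold N3_W
    rw [Pf_zero le_rfl, Pf_one (by norm_num), show (12 / 5 * 0 : ℝ) = 0 by norm_num,
      Real.exp_zero]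
    ring
  rw [← h1, ← intervalIntegral.integral_add (N3_cW'.intervalIntegrable _ _)
    (N3_cps.intervalIntegrable _ _)]
  have hc : Continuous fun x => ∫ w in (0 : ℝ)..1, Jn x w := by
    have e : (fun x => ∫ w in (0 : ℝ)..1, Jn x w) = fun x => N3_F x 1 - N3_F x 0 := by
      funext x
      exact N3_inner x 0 1
    rw [e]
    exact (N3_cF continuous_const).sub (N3_cF continuous_const)
  apply intervalIntegral.integral_mono_on (by norm_num) (hc.intervalIntegrable _ _)
    ((N3_cW'.add N3_cps).intervalIntegrable _ _)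
  intro x _
  rw [N3_inner1]
  have h2 := Pf_slope x
  have h3 : Real.exp (12 / 5 * x) * deriv Pf x ^ 2 ≤
      -(25 / 11) * (Real.exp (12 / 5 * x) * deriv Pf x) := by
    have h4 : deriv Pf x ^ 2 ≤ -(25 / 11) * deriv Pf x := by nlinarith [h2.1, h2.2]
    calc Real.exp (12 / 5 * x) * deriv Pf x ^ 2 ≤
        Real.exp (12 / 5 * x) * (-(25 / 11) * deriv Pf x) :=
          mul_le_mul_of_nonneg_left h4 (Real.exp_pos _).le
      _ = _ := by ring
  have h5 := mul_le_mul_of_nonneg_left h3 N3_E2_nonneg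
  change _ ≤ N3_W' x + N3_ps x
  unfold N3_W' N3_ps
  linarith

private noncomputable def N3_g1 (x : ℝ) : ℝ :=
  (1 + 60 / 11 * N3_E2) * (5 / 12) * Real.exp (12 / 5 * x)

private noncomputable def N3_g2 (x : ℝ) : ℝ :=
  Real.exp (12 / 5 * x) * ((25 / 11) ^ 2 * ((9 / 20 - x) ^ 2 * (5 / 12) +
    2 * (9 / 20 - x) * (5 / 12) ^ 2 + 2 * (5 / 12) ^ 3) +
    60 / 11 * N3_E2 * (25 / 11 * ((9 / 20 - x) * (5 / 12) + (5 / 12) ^ 2)))

private theorem N3_dg1 (x : ℝ) : HasDerivAt N3_g1
    ((1 + 60 / 11 * N3_E2) * Real.exp (12 / 5 * x)) x := by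
  have h := (N3_dE x).const_mul ((1 + 60 / 11 * N3_E2) * (5 / 12))
  refine h.congr_deriv ?_
  ring

private theorem N3_dg2 (x : ℝ) : HasDerivAt N3_g2
    (Real.exp (12 / 5 * x) * ((25 / 11 * (9 / 20 - x)) ^ 2 +
      60 / 11 * N3_E2 * (25 / 11 * (9 / 20 - x)))) x := by
  have h1 : HasDerivAt (fun x : ℝ => 9 / 20 - x) (-1) x := (hasDerivAt_id x).const_sub (9 / 20)
  have h2 : HasDerivAt (fun x : ℝ => (25 / 11 : ℝ) ^ 2 * ((9 / 20 - x) ^ 2 * (5 / 12) +
    2 * (9 / 20 - x) * (5 / 12) ^ 2 + 2 * (5 / 12) ^ 3) +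
    60 / 11 * N3_E2 * (25 / 11 * ((9 / 20 - x) * (5 / 12) + (5 / 12) ^ 2)))
    ((25 / 11 : ℝ) ^ 2 * ((2 * (9 / 20 - x) * (-1)) * (5 / 12) + 2 * (-1) * (5 / 12) ^ 2) +
      60 / 11 * N3_E2 * (25 / 11 * ((-1) * (5 / 12)))) x := by
    have a1 : HasDerivAt (fun x : ℝ => (9 / 20 - x) ^ 2) (2 * (9 / 20 - x) * (-1)) x := by
      have := h1.pow 2
      refine this.congr_deriv ?_
      push_cast
      ring
    have a2 := ((a1.mul_const (5 / 12)).add ((h1.const_mul 2).mul_const ((5 / 12) ^ 2))).add_const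
      (2 * (5 / 12) ^ 3)
    have a3 := a2.const_mul ((25 / 11 : ℝ) ^ 2)
    have a4 := (((h1.mul_const (5 / 12)).add_const ((5 / 12) ^ 2)).const_mul (25 / 11)).const_mul
      (60 / 11 * N3_E2)
    exact a3.add a4
  have h3 := (N3_dE x).mul h2
  refine h3.congr_deriv ?_
  ring

private theorem N3_step2 : ∫ x in (0 : ℝ)..(9 / 20), N3_ps x ≤
    (N3_g1 (1 / 100) - N3_g1 0) + (N3_g2 (9 / 20) - N3_g2 (1 / 100)) := by
  have hE := N3_E2_nonneg
  have h1 : ∫ x in (0 : ℝ)..(1 / 100), (1 + 60 / 11 * N3_E2) * Real.exp (12 / 5 * x) =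
      N3_g1 (1 / 100) - N3_g1 0 :=
    intervalIntegral.integral_eq_sub_of_hasDerivAt (fun x _ => N3_dg1 x)
      (Continuous.intervalIntegrable (by fun_prop) _ _)
  have h2 : ∫ x in (1 / 100 : ℝ)..(9 / 20), Real.exp (12 / 5 * x) *
      ((25 / 11 * (9 / 20 - x)) ^ 2 + 60 / 11 * N3_E2 * (25 / 11 * (9 / 20 - x))) =
      N3_g2 (9 / 20) - N3_g2 (1 / 100) :=
    intervalIntegral.integral_eq_sub_of_hasDerivAt (fun x _ => N3_dg2 x)
      (Continuous.intervalIntegrable (by fun_prop) _ _)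
  rw [← intervalIntegral.integral_add_adjacent_intervals (b := 1 / 100)
    (N3_cps.intervalIntegrable _ _) (N3_cps.intervalIntegrable _ _), ← h1, ← h2]
  apply add_le_add
  · apply intervalIntegral.integral_mono_on (by norm_num) (N3_cps.intervalIntegrable _ _)
      (Continuous.intervalIntegrable (by fun_prop) _ _)
    intro x _
    obtain ⟨p0, p1⟩ := Pf_mem x
    have he := (Real.exp_pos (12 / 5 * x)).le
    have q1 : Pf x ^ 2 ≤ 1 := pow_le_one₀ p0 p1
    have q2 := mul_le_mul_of_nonneg_left q1 he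
    have q3 := mul_le_mul_of_nonneg_left p1 he
    have q4 := mul_le_mul_of_nonneg_left q3 (show 0 ≤ 60 / 11 * N3_E2 by positivity)
    unfold N3_ps
    linarith
  · apply intervalIntegral.integral_mono_on (by norm_num) (N3_cps.intervalIntegrable _ _)
      (Continuous.intervalIntegrable (by fun_prop) _ _)
    intro x hx
    obtain ⟨p0, p1⟩ := Pf_mem x
    have he := (Real.exp_pos (12 / 5 * x)).le
    have q0 := Pf_le hx.2
    have q1 : Pf x ^ 2 ≤ (25 / 11 * (9 / 20 - x)) ^ 2 := pow_le_pow_left₀ p0 q0 2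
    have q2 := mul_le_mul_of_nonneg_left q1 he
    have q3 := mul_le_mul_of_nonneg_left q0 he
    have q4 := mul_le_mul_of_nonneg_left q3 (show 0 ≤ 60 / 11 * N3_E2 by positivity)
    unfold N3_ps
    linarith

theorem Jn_main : ∫ x in (0 : ℝ)..(9 / 20), (∫ w in (0 : ℝ)..1, Jn x w) ≤ 1725 / 1000 := by
  have h1 := N3_step1
  have h2 := N3_step2
  have e1 := N3_e24
  have e2 := N3_e24'
  have e3 := N3_e108
  obtain ⟨e4, e5⟩ := N3_e024
  have hE := N3_E2_nonneg
  have hE2 : N3_E2 ≤ 68624 / 100000 := by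
    unfold N3_E2
    linarith
  have hAE : -N3_A1 + 25 / 11 * N3_E2 ≤ 236137 / 1000000 := by
    unfold N3_A1 N3_E2
    linarith
  have g1 : N3_g1 (1 / 100) - N3_g1 0 ≤ 4803 / 100000 := by
    unfold N3_g1
    rw [show (12 / 5 * (1 / 100) : ℝ) = 3 / 125 by norm_num, mul_zero, Real.exp_zero]
    have a1 : (1 + 60 / 11 * N3_E2) * (5 / 12) * Real.exp (3 / 125) -
        (1 + 60 / 11 * N3_E2) * (5 / 12) * 1 =
        (1 + 60 / 11 * N3_E2) * (5 / 12) * (Real.exp (3 / 125) - 1) := by ring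
    rw [a1]
    calc (1 + 60 / 11 * N3_E2) * (5 / 12) * (Real.exp (3 / 125) - 1)
        ≤ (1 + 60 / 11 * (68624 / 100000)) * (5 / 12) * (102430 / 100000 - 1) := by
          apply mul_le_mul _ (by linarith) (by linarith) (by positivity)
          linarith
      _ ≤ 4803 / 100000 := by norm_num
  have g2 : N3_g2 (9 / 20) - N3_g2 (1 / 100) ≤ 143887 / 100000 := by
    unfold N3_g2
    rw [show (12 / 5 * (1 / 100) : ℝ) = 3 / 125 by norm_num,
      show (12 / 5 * (9 / 20) : ℝ) = 27 / 25 by norm_num]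
    set Y := Real.exp (27 / 25)
    set Z := Real.exp (3 / 125)
    have b1 : Y * (5 / 12) ^ 2 - Z * ((9 / 20 - 1 / 100) * (5 / 12) + (5 / 12) ^ 2) ≤
        14562 / 100000 := by
      norm_num
      linarith
    have b2 : 60 / 11 * N3_E2 * (25 / 11 * (Y * (5 / 12) ^ 2 -
        Z * ((9 / 20 - 1 / 100) * (5 / 12) + (5 / 12) ^ 2))) ≤
        60 / 11 * (68624 / 100000) * (25 / 11 * (14562 / 100000)) := by
      calc 60 / 11 * N3_E2 * (25 / 11 * (Y * (5 / 12) ^ 2 -
          Z * ((9 / 20 - 1 / 100) * (5 / 12) + (5 / 12) ^ 2))) ≤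
          60 / 11 * N3_E2 * (25 / 11 * (14562 / 100000)) := by
            apply mul_le_mul_of_nonneg_left _ (by positivity)
            linarith
        _ ≤ _ := by
            apply mul_le_mul_of_nonneg_right _ (by norm_num)
            linarith
    have b3 : (25 / 11 : ℝ) ^ 2 * (Y * (2 * (5 / 12) ^ 3) - Z * ((9 / 20 - 1 / 100) ^ 2 * (5 / 12) +
        2 * (9 / 20 - 1 / 100) * (5 / 12) ^ 2 + 2 * (5 / 12) ^ 3)) ≤ 200015 / 1000000 := by
      norm_num
      linarith
    have b4 : Y * ((25 / 11) ^ 2 * ((9 / 20 - 9 / 20) ^ 2 * (5 / 12) +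
        2 * (9 / 20 - 9 / 20) * (5 / 12) ^ 2 + 2 * (5 / 12) ^ 3) +
        60 / 11 * N3_E2 * (25 / 11 * ((9 / 20 - 9 / 20) * (5 / 12) + (5 / 12) ^ 2))) -
      Z * ((25 / 11) ^ 2 * ((9 / 20 - 1 / 100) ^ 2 * (5 / 12) +
        2 * (9 / 20 - 1 / 100) * (5 / 12) ^ 2 + 2 * (5 / 12) ^ 3) +
        60 / 11 * N3_E2 * (25 / 11 * ((9 / 20 - 1 / 100) * (5 / 12) + (5 / 12) ^ 2))) =
      (25 / 11 : ℝ) ^ 2 * (Y * (2 * (5 / 12) ^ 3) - Z * ((9 / 20 - 1 / 100) ^ 2 * (5 / 12) +
        2 * (9 / 20 - 1 / 100) * (5 / 12) ^ 2 + 2 * (5 / 12) ^ 3)) +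
      60 / 11 * N3_E2 * (25 / 11 * (Y * (5 / 12) ^ 2 -
        Z * ((9 / 20 - 1 / 100) * (5 / 12) + (5 / 12) ^ 2))) := by ring
    rw [b4]
    have b5 := add_le_add b3 b2
    refine b5.trans ?_
    norm_num
  linarith

theorem Jn_over : ∫ x in (0 : ℝ)..(9 / 20), (∫ w in (945 / 1000 - x)..(955 / 1000 - x), Jn x w) ≤
    6 / 100 := by
  have he : Real.exp (12 / 5 * (955 / 1000)) ≤ 10 := by
    have h1 : Real.exp (573 / 1000) ≤ 1774 / 1000 := by
      refine (Real.exp_bound' (by norm_num) (by norm_num) (n := 6) (by norm_num)).trans ?_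
      norm_num [Finset.sum_range_succ, Nat.factorial]
    have h2 : Real.exp (12 / 5 * (955 / 1000)) = Real.exp (573 / 1000) ^ 4 := by
      rw [← Real.exp_nat_mul]
      norm_num
    rw [h2]
    calc Real.exp (573 / 1000) ^ 4 ≤ (1774 / 1000) ^ 4 :=
          pow_le_pow_left₀ (Real.exp_pos _).le h1 4
      _ ≤ 10 := by norm_num
  have hin : ∀ x ∈ Set.uIoc (0 : ℝ) (9 / 20),
      ‖∫ w in (945 / 1000 - x)..(955 / 1000 - x), Jn x w‖ ≤ 13175 / 1000 * (1 / 100) := by
    intro x hx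
    rw [Set.uIoc_of_le (by norm_num)] at hx
    have h1 : ∀ w ∈ Set.uIoc (945 / 1000 - x) (955 / 1000 - x), ‖Jn x w‖ ≤ 13175 / 1000 := by
      intro w hw
      rw [Set.uIoc_of_le (by linarith)] at hw
      obtain ⟨p0, p1⟩ := Pf_mem x
      obtain ⟨s1, s2⟩ := Pf_slope x
      have hw1 : 0 ≤ 1 - w := by linarith [hw.2, hx.1]
      have hw2 : 1 - w ≤ 505 / 1000 := by linarith [hw.1, hx.2]
      have q1 : (1 - w) * deriv Pf x ≤ 0 := mul_nonpos_of_nonneg_of_nonpos hw1 s2
      have q2 : -(11478 / 10000) ≤ (1 - w) * deriv Pf x := by nlinarith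
      have q3 : ((1 - w) * deriv Pf x + Pf x) ^ 2 ≤ 13175 / 10000 := by
        have r1 : -(11478 / 10000) ≤ (1 - w) * deriv Pf x + Pf x := by linarith
        have r2 : (1 - w) * deriv Pf x + Pf x ≤ 11478 / 10000 := by linarith
        have := sq_le_sq' r1 r2
        refine this.trans ?_
        norm_num
      have q4 : Real.exp (12 / 5 * (w + x)) ≤ 10 := by
        refine le_trans (Real.exp_le_exp.mpr ?_) he
        linarith [hw.2]
      unfold Jn
      rw [Real.norm_of_nonneg (by positivity)]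
      calc Real.exp (12 / 5 * (w + x)) * ((1 - w) * deriv Pf x + Pf x) ^ 2 ≤
          10 * (13175 / 10000) := mul_le_mul q4 q3 (by positivity) (by norm_num)
        _ = 13175 / 1000 := by norm_num
    have h2 := intervalIntegral.norm_integral_le_of_norm_le_const h1
    refine h2.trans (le_of_eq ?_)
    rw [show (955 / 1000 - x) - (945 / 1000 - x) = (1 / 100 : ℝ) by ring,
      abs_of_pos (by norm_num)]
  have h3 := intervalIntegral.norm_integral_le_of_norm_le_const hin
  refine (le_abs_self _).trans (h3.trans ?_)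
  rw [sub_zero, abs_of_pos (by norm_num)]
  norm_num

theorem NU : Qc true + Qc false ≤ 4 * Real.exp (-(6 / 5)) * (279 / 100) := by
  refine Qc_le.trans ?_
  apply mul_le_mul_of_nonneg_left _ (by positivity)
  have c1 : Continuous fun x => ∫ w in (0 : ℝ)..1, Jn x w := by
    have e : (fun x => ∫ w in (0 : ℝ)..1, Jn x w) = fun x => N3_F x 1 - N3_F x 0 := by
      funext x
      exact N3_inner x 0 1
    rw [e]
    exact (N3_cF continuous_const).sub (N3_cF continuous_const)
  have c2 : Continuous fun x => ∫ w in (945 / 1000 - x)..(955 / 1000 - x), Jn x w := by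
    have e : (fun x => ∫ w in (945 / 1000 - x)..(955 / 1000 - x), Jn x w) =
        fun x => N3_F x (955 / 1000 - x) - N3_F x (945 / 1000 - x) := by
      funext x
      exact N3_inner x _ _
    rw [e]
    exact (N3_cF (by fun_prop)).sub (N3_cF (by fun_prop))
  rw [intervalIntegral.integral_add (c1.intervalIntegrable _ _) (c2.intervalIntegrable _ _)]
  have h1 := Jn_main
  have h2 := Jn_over
  linarith

end Pool.Agent.LB
end
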