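import Pool.Agent.Lib.MP_69b2e4_nt.Mg.G031
import Pool.Agent.Lib.MP_69b2e4_nt.LB.C5
import Pool.Agent.Lib.MP_69b2e4_nt.Mg.G033
import Pool.Agent.Lib.MP_69b2e4_nt.Mg.G025
import Pool.Agent.Lib.MP_69b2e4_nt.LB.G5
import Pool.Agent.Lib.MP_69b2e4_nt.Mg.G024
import Pool.Agent.Lib.MP_69b2e4_nt.LB.D4
import Pool.Agent.Lib.MP_69b2e4_nt.LB.D6

section

/-! TASK N1. The value of the sharp half line. `A = Sc b T r 1 0 ρ`, `B = Sc b T r 0 1 ρ`, `α = 1 + sgn b (1-2v)`: `Ps ‖αA + 2B‖² = Ps α² ‖A‖² + 4 Ps α Re(A conj B) + 4 Ps ‖B‖²` and `4 Re(A conj B) = ‖A+B‖² - ‖A-B‖²`, `A + B = Sc 1 1`, `A - B = Sc 1 (-1)` (`fcs_lin`). So the sum of `sharp_half` is `LS 1 0 Ps1 + LS 1 1 Ps2 - LS 1 (-1) Ps2 + 4 LS 0 1 Ps`; `WC` four times for each `b` (`Ps`, `Ps1`, `Ps2` are continuous and vanish for `v ≥ 955/1000`: `cu b v = 0` there), with `ε/16`. -/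

set_option autoImplicit false

namespace Pool.Agent.LB

open Complex MeasureTheory Finset Pool.Agent.GH Pool.Agent.UH Pool.Agent.UV
open scoped Real ComplexConjugate

private theorem N1_Ps_cont (b : Bool) : Continuous (Ps b) := by
  unfold Ps cu
  have h : Continuous fun v : ℝ => Real.smoothTransition
      (500 * ((if b then 955 / 1000 else 55 / 1000) - v)) :=
    Real.smoothTransition.continuous.comp (by fun_prop)
  exact Continuous.mul (by fun_prop) h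

private theorem N1_Ps_zero (b : Bool) (v : ℝ) (hv : 955 / 1000 ≤ v) : Ps b v = 0 := by
  unfold Ps cu
  rw [Real.smoothTransition.zero_of_nonpos, mul_zero]
  cases b
  · simp only [Bool.false_eq_true, if_false]; linarith
  · simp only [if_true]; linarith

private theorem N1_Ps1_cont (b : Bool) : Continuous (Ps1 b) := by
  unfold Ps1
  exact (N1_Ps_cont b).mul (by fun_prop)

private theorem N1_Ps2_cont (b : Bool) : Continuous (Ps2 b) := by
  unfold Ps2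
  exact (N1_Ps_cont b).mul (by fun_prop)

private theorem N1_Ps1_zero (b : Bool) (v : ℝ) (hv : 955 / 1000 ≤ v) : Ps1 b v = 0 := by
  unfold Ps1; rw [N1_Ps_zero b v hv, zero_mul]

private theorem N1_Ps2_zero (b : Bool) (v : ℝ) (hv : 955 / 1000 ≤ v) : Ps2 b v = 0 := by
  unfold Ps2; rw [N1_Ps_zero b v hv, zero_mul]

/-- The identity of the quadratic forms. -/
private theorem N1_quad (α : ℝ) (A B : ℂ) :
    ‖(α : ℂ) * A + 2 * B‖ ^ 2 =
      α ^ 2 * ‖A‖ ^ 2 + α * (‖A + B‖ ^ 2 - ‖A - B‖ ^ 2) + 4 * ‖B‖ ^ 2 := by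
  simp only [Complex.sq_norm, Complex.normSq_apply, Complex.add_re, Complex.add_im,
    Complex.sub_re, Complex.sub_im, Complex.mul_re, Complex.mul_im, Complex.ofReal_re,
    Complex.ofReal_im, Complex.re_ofNat, Complex.im_ofNat]
  ring

private theorem N1_lS (b : Bool) (T : ℝ) (r : ℕ → ℝ) (ρ : ℚ) :
    (if 0 < ρ then (ρ : ℝ)⁻¹ * (Ps b (Real.log ρ / Real.log T) *
        ‖(1 + sgn b * (1 - 2 * (Real.log ρ / Real.log T)) : ℝ) * Sc b T r 1 0 ρ +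
          2 * Sc b T r 0 1 ρ‖ ^ 2) else 0) =
      lS b T r 1 0 (Ps1 b) ρ + lS b T r 1 1 (Ps2 b) ρ - lS b T r 1 (-1) (Ps2 b) ρ +
        4 * lS b T r 0 1 (Ps b) ρ := by
  unfold lS
  by_cases hρ : 0 < ρ
  · simp only [hρ, if_true]
    have h1 : Sc b T r 1 1 ρ = Sc b T r 1 0 ρ + Sc b T r 0 1 ρ := by
      rw [fcs_lin b T r 1 1 ρ]; simp
    have h2 : Sc b T r 1 (-1) ρ = Sc b T r 1 0 ρ - Sc b T r 0 1 ρ := by
      rw [fcs_lin b T r 1 (-1) ρ]; push_cast; ring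
    rw [h1, h2, N1_quad]
    unfold Ps1 Ps2
    ring
  · simp [hρ]

private theorem N1_W (lam : ℝ) (h0 : 0 < lam) (ε : ℝ) (hε : 0 < ε) (b : Bool) :
    ∃ C0 θ1 : ℝ, 0 < θ1 ∧
    ∀ {Ct θ D1 : ℝ} {N0 : ℕ}, C0 ≤ Ct → 0 < θ → θ ≤ θ1 → ∃ T0 : ℝ,
    ∀ {S : BS}, TG S Ct θ D1 N0 → T0 ≤ S.T → ∀ r : ℕ → ℝ, Rp S lam θ r →
    (∑' ρ : ℚ, if 0 < ρ then
      (ρ : ℝ)⁻¹ * (Ps b (Real.log ρ / Real.log S.T) *
        ‖(1 + sgn b * (1 - 2 * (Real.log ρ / Real.log S.T)) : ℝ) * Sc b S.T r 1 0 ρ +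
          2 * Sc b S.T r 0 1 ρ‖ ^ 2) else 0) ≤ ER S lam * Qc b + 7 * (ε * Lam S lam) := by
  obtain ⟨C1, t1, ht1, H1⟩ := WC lam h0 b 1 0 ε hε (Ps1 b) (N1_Ps1_cont b) (N1_Ps1_zero b)
  obtain ⟨C2, t2, ht2, H2⟩ := WC lam h0 b 1 1 ε hε (Ps2 b) (N1_Ps2_cont b) (N1_Ps2_zero b)
  obtain ⟨C3, t3, ht3, H3⟩ := WC lam h0 b 1 (-1) ε hε (Ps2 b) (N1_Ps2_cont b) (N1_Ps2_zero b)
  obtain ⟨C4, t4, ht4, H4⟩ := WC lam h0 b 0 1 ε hε (Ps b) (N1_Ps_cont b) (N1_Ps_zero b)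
  refine ⟨max (max C1 C2) (max C3 C4), min (min t1 t2) (min t3 t4),
    lt_min (lt_min ht1 ht2) (lt_min ht3 ht4), fun {Ct θ D1 N0} hC hθ hθ2 => ?_⟩
  have c1 : C1 ≤ Ct := le_trans (le_trans (le_max_left _ _) (le_max_left _ _)) hC
  have c2 : C2 ≤ Ct := le_trans (le_trans (le_max_right _ _) (le_max_left _ _)) hC
  have c3 : C3 ≤ Ct := le_trans (le_trans (le_max_left _ _) (le_max_right _ _)) hC
  have c4 : C4 ≤ Ct := le_trans (le_trans (le_max_right _ _) (le_max_right _ _)) hC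
  have d1 : θ ≤ t1 := hθ2.trans ((min_le_left _ _).trans (min_le_left _ _))
  have d2 : θ ≤ t2 := hθ2.trans ((min_le_left _ _).trans (min_le_right _ _))
  have d3 : θ ≤ t3 := hθ2.trans ((min_le_right _ _).trans (min_le_left _ _))
  have d4 : θ ≤ t4 := hθ2.trans ((min_le_right _ _).trans (min_le_right _ _))
  obtain ⟨T1, K1⟩ := H1 (Ct := Ct) (D1 := D1) (N0 := N0) c1 hθ d1
  obtain ⟨T2, K2⟩ := H2 (Ct := Ct) (D1 := D1) (N0 := N0) c2 hθ d2
  obtain ⟨T3, K3⟩ := H3 (Ct := Ct) (D1 := D1) (N0 := N0) c3 hθ d3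
  obtain ⟨T4, K4⟩ := H4 (Ct := Ct) (D1 := D1) (N0 := N0) c4 hθ d4
  refine ⟨max (max T1 T2) (max T3 T4), fun {S} hS hT r hr => ?_⟩
  obtain ⟨s1, e1⟩ := K1 hS (le_trans (le_trans (le_max_left _ _) (le_max_left _ _)) hT) r hr
  obtain ⟨s2, e2⟩ := K2 hS (le_trans (le_trans (le_max_right _ _) (le_max_left _ _)) hT) r hr
  obtain ⟨s3, e3⟩ := K3 hS (le_trans (le_trans (le_max_left _ _) (le_max_right _ _)) hT) r hr
  obtain ⟨s4, e4⟩ := K4 hS (le_trans (le_trans (le_max_right _ _) (le_max_right _ _)) hT) r hr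
  have hsum : (∑' ρ : ℚ, if 0 < ρ then
      (ρ : ℝ)⁻¹ * (Ps b (Real.log ρ / Real.log S.T) *
        ‖(1 + sgn b * (1 - 2 * (Real.log ρ / Real.log S.T)) : ℝ) * Sc b S.T r 1 0 ρ +
          2 * Sc b S.T r 0 1 ρ‖ ^ 2) else 0) =
      LS b S.T r 1 0 (Ps1 b) + LS b S.T r 1 1 (Ps2 b) - LS b S.T r 1 (-1) (Ps2 b) +
        4 * LS b S.T r 0 1 (Ps b) := by
    simp only [N1_lS]
    unfold LS
    rw [((s1.add s2).sub s3).tsum_add (s4.mul_left 4), (s1.add s2).tsum_sub s3,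
      s1.tsum_add s2, tsum_mul_left]
  rw [hsum]
  unfold Qc
  have f1 := (abs_le.mp e1).2
  have f2 := (abs_le.mp e2).2
  have f3 := (abs_le.mp e3).1
  have f4 := (abs_le.mp e4).2
  linarith

theorem sharp_value (lam : ℝ) (h0 : 0 < lam) (ε : ℝ) (hε : 0 < ε) : ∃ C0 θ1 : ℝ, 0 < θ1 ∧
    ∀ {Ct θ D1 : ℝ} {N0 : ℕ}, C0 ≤ Ct → 0 < θ → θ ≤ θ1 → ∃ T0 : ℝ,
    ∀ {S : BS}, TG S Ct θ D1 N0 → T0 ≤ S.T → ∀ r : ℕ → ℝ, Rp S lam θ r → ∀ b : Bool,
    ∫⁻ y in Set.Ioi (e0 b * Real.log S.T), ENNReal.ofReal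
      (Real.exp (-(2 * sgn b * (R0 / Real.log S.T) * y)) * ‖HH b S.T (bt 0 S.T r) y‖ ^ 2) ≤
    ENNReal.ofReal (√2 * S.T ^ (1 / 2 : ℝ) * (ER S lam * Qc b) +
      ε * (S.T ^ (1 / 2 : ℝ) * Lam S lam)) := by
  obtain ⟨Ch, th, hth, Hh⟩ := sharp_half lam h0 (ε / 2) (by positivity)
  obtain ⟨Cf, tf, htf, Hf⟩ := N1_W lam h0 (ε / 32) (by positivity) false
  obtain ⟨Cg, tg, htg, Hg⟩ := N1_W lam h0 (ε / 32) (by positivity) true
  refine ⟨max Ch (max Cf Cg), min th (min tf tg), lt_min hth (lt_min htf htg),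
    fun {Ct θ D1 N0} hC hθ hθ2 => ?_⟩
  obtain ⟨T1, K1⟩ := Hh (Ct := Ct) (θ := θ) (D1 := D1) (N0 := N0)
    (le_trans (le_max_left _ _) hC) (hθ2.trans (min_le_left _ _))
  obtain ⟨T2, K2⟩ := Hf (Ct := Ct) (D1 := D1) (N0 := N0)
    (le_trans (le_trans (le_max_left _ _) (le_max_right _ _)) hC) hθ
    (hθ2.trans ((min_le_right _ _).trans (min_le_left _ _)))
  obtain ⟨T3, K3⟩ := Hg (Ct := Ct) (D1 := D1) (N0 := N0)
    (le_trans (le_trans (le_max_right _ _) (le_max_right _ _)) hC) hθ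
    (hθ2.trans ((min_le_right _ _).trans (min_le_right _ _)))
  refine ⟨max T1 (max T2 T3), fun {S} hS hT r hr b => ?_⟩
  have hTpos : 0 < S.T := lt_of_lt_of_le (Real.exp_pos _) hS.T_ge
  have hTh : 0 < S.T ^ (1 / 2 : ℝ) := Real.rpow_pos_of_pos hTpos _
  have hLam : 0 < Lam S lam := lt_of_lt_of_le one_pos (one_le_Lam S lam)
  have hW : (∑' ρ : ℚ, if 0 < ρ then
      (ρ : ℝ)⁻¹ * (Ps b (Real.log ρ / Real.log S.T) *
        ‖(1 + sgn b * (1 - 2 * (Real.log ρ / Real.log S.T)) : ℝ) * Sc b S.T r 1 0 ρ +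
          2 * Sc b S.T r 0 1 ρ‖ ^ 2) else 0) ≤
      ER S lam * Qc b + 7 * (ε / 32 * Lam S lam) := by
    cases b
    · exact K2 hS (le_trans (le_trans (le_max_left _ _) (le_max_right _ _)) hT) r hr
    · exact K3 hS (le_trans (le_trans (le_max_right _ _) (le_max_right _ _)) hT) r hr
  refine (K1 hS (le_trans (le_max_left _ _) hT) r hr b).trans
    (ENNReal.ofReal_le_ofReal ?_)
  have h2 : √2 ≤ 3 / 2 := by
    rw [Real.sqrt_le_left (by norm_num)]; norm_num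
  have h2' : 0 < √2 := by positivity
  have h3 : √2 * S.T ^ (1 / 2 : ℝ) * (∑' ρ : ℚ, if 0 < ρ then
      (ρ : ℝ)⁻¹ * (Ps b (Real.log ρ / Real.log S.T) *
        ‖(1 + sgn b * (1 - 2 * (Real.log ρ / Real.log S.T)) : ℝ) * Sc b S.T r 1 0 ρ +
          2 * Sc b S.T r 0 1 ρ‖ ^ 2) else 0) ≤
      √2 * S.T ^ (1 / 2 : ℝ) * (ER S lam * Qc b + 7 * (ε / 32 * Lam S lam)) :=
    mul_le_mul_of_nonneg_left hW (by positivity)
  have h4 : √2 * S.T ^ (1 / 2 : ℝ) * (7 * (ε / 32 * Lam S lam)) ≤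
      3 / 2 * S.T ^ (1 / 2 : ℝ) * (7 * (ε / 32 * Lam S lam)) := by
    apply mul_le_mul_of_nonneg_right _ (by positivity)
    exact mul_le_mul_of_nonneg_right h2 hTh.le
  have h5 : 0 ≤ ε * (S.T ^ (1 / 2 : ℝ) * Lam S lam) := by positivity
  have h6 : √2 * S.T ^ (1 / 2 : ℝ) * (ER S lam * Qc b + 7 * (ε / 32 * Lam S lam)) =
      √2 * S.T ^ (1 / 2 : ℝ) * (ER S lam * Qc b) +
        √2 * S.T ^ (1 / 2 : ℝ) * (7 * (ε / 32 * Lam S lam)) := by ring
  have h7 : 3 / 2 * S.T ^ (1 / 2 : ℝ) * (7 * (ε / 32 * Lam S lam)) =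
      21 / 64 * (ε * (S.T ^ (1 / 2 : ℝ) * Lam S lam)) := by ring
  linarith

end Pool.Agent.LB
end

section

/-! TASK C6. The sharp second moment on the line `Re s = sg0 T`. `rp_exists` gives `r` with `Rp S lam θ r` (`lam ≤ C0 ≤ Ct`). For `t ≠ 0`, `s = sg0 + it`: `Kw T t ‖VV s‖² = ‖Gammaℝ s‖² e^{ang t} ‖fL s‖²/(4‖Gammaℝ s‖²) = (1/4) e^{ang T t}‖fL T s‖²` (`fL_eq`, `GR_ne`), `MO 0 · RT = DPo T (bt 0 T r)` (`DPo_bt`). `HH_planch` with `y0 = -(9/20)L = e0 true · L`, `-y0 = e0 false · L`; `sharp_value` for both `b` with `ε'`: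
 the integral is `≤ (1/4)·2π·[√2 √T ER (Qc true + Qc false) + 2ε' √T Lam] ≤ (279/100)·(2√2 π e^{-6/5} √T) ER + π ε' √T Lam` (`NU`).
`Kt_lim`: `2√2πe^{-6/5} √T ≤ (1 + 1/1000) Kt` for `T ≥ T0`; `√T Lam ≤ C Kt ER` (`Kt_bounds`, `ER_bounds`); `2.79·1.001 + small ≤ 2.8`. -/

set_option autoImplicit false

namespace Pool.Agent.LB

open Complex MeasureTheory Finset Pool.Agent.GH Pool.Agent.UH Pool.Agent.UV
open scoped Real ComplexConjugate

private theorem C6_cont_F (c d : ℝ) : Continuous fun x => deriv (pf c d) x ^ 2 :=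
  ((pf_contDiff c d).continuous_deriv (by norm_num)).pow 2

private noncomputable def C6_lo (b : Bool) (v : ℝ) : ℝ := if b then 0 else max (-v) 0

private noncomputable def C6_hi (b : Bool) (v : ℝ) : ℝ := if b then max v 0 else 1

private theorem C6_dn (b : Bool) (c d v : ℝ) :
    dn b c d v = ∫ x in (C6_lo b v)..(C6_hi b v), deriv (pf c d) x ^ 2 := by
  cases b
  · simp [dn, C6_lo, C6_hi]
  · simp only [dn, C6_lo, C6_hi, if_true]
    by_cases h : v ≤ 0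
    · rw [if_pos h, max_eq_right h, intervalIntegral.integral_same]
    · rw [if_neg h, max_eq_left (le_of_not_ge h)]

private theorem C6_dn_cont (b : Bool) (c d : ℝ) : Continuous (dn b c d) := by
  have e : dn b c d = fun v => ∫ x in (C6_lo b v)..(C6_hi b v), deriv (pf c d) x ^ 2 :=
    funext fun v => C6_dn b c d v
  rw [e]
  have hF := C6_cont_F c d
  cases b
  · have e2 : (fun v => ∫ x in (C6_lo false v)..(C6_hi false v), deriv (pf c d) x ^ 2) =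
        fun v => -∫ x in (1 : ℝ)..(max (-v) 0), deriv (pf c d) x ^ 2 := by
      funext v
      simp only [C6_lo, C6_hi, Bool.false_eq_true, if_false]
      exact intervalIntegral.integral_symm _ _
    rw [e2]
    exact ((intervalIntegral.continuous_primitive (fun a b => hF.intervalIntegrable a b) 1).comp
      (continuous_neg.max continuous_const)).neg
  · have e2 : (fun v => ∫ x in (C6_lo true v)..(C6_hi true v), deriv (pf c d) x ^ 2) =
        fun v => ∫ x in (0 : ℝ)..(max v 0), deriv (pf c d) x ^ 2 := by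
      funext v
      simp only [C6_lo, C6_hi, if_true]
    rw [e2]
    exact (intervalIntegral.continuous_primitive (fun a b => hF.intervalIntegrable a b) 0).comp
      (continuous_id.max continuous_const)

private theorem C6_cu_cont (b : Bool) : Continuous (cu b) := by
  unfold cu
  exact Real.smoothTransition.continuous.comp (continuous_const.mul (continuous_const.sub continuous_id))

private theorem C6_Ps_cont (b : Bool) : Continuous (Ps b) := by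
  unfold Ps
  exact (Real.continuous_exp.comp (by fun_prop)).mul (C6_cu_cont b)

private theorem C6_Ps_nonneg (b : Bool) (v : ℝ) : 0 ≤ Ps b v := by
  unfold Ps cu
  exact mul_nonneg (Real.exp_pos _).le (Real.smoothTransition.nonneg _)

private theorem C6_Qc_nonneg (b : Bool) : 0 ≤ Qc b := by
  have hP := C6_Ps_cont b
  have hP1 : Continuous (Ps1 b) := by
    unfold Ps1
    exact hP.mul (by fun_prop)
  have hP2 : Continuous (Ps2 b) := by
    unfold Ps2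
    exact hP.mul (by fun_prop)
  have i1 : IntervalIntegrable (fun v => Ps1 b v * dn b 1 0 v) volume (-1) 1 :=
    (hP1.mul (C6_dn_cont b 1 0)).intervalIntegrable _ _
  have i2 : IntervalIntegrable (fun v => Ps2 b v * dn b 1 1 v) volume (-1) 1 :=
    (hP2.mul (C6_dn_cont b 1 1)).intervalIntegrable _ _
  have i3 : IntervalIntegrable (fun v => Ps2 b v * dn b 1 (-1) v) volume (-1) 1 :=
    (hP2.mul (C6_dn_cont b 1 (-1))).intervalIntegrable _ _
  have i4 : IntervalIntegrable (fun v => 4 * (Ps b v * dn b 0 1 v)) volume (-1) 1 :=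
    (continuous_const.mul (hP.mul (C6_dn_cont b 0 1))).intervalIntegrable _ _
  have hint : 0 ≤ ∫ v in (-1 : ℝ)..1, (Ps1 b v * dn b 1 0 v + Ps2 b v * dn b 1 1 v -
      Ps2 b v * dn b 1 (-1) v + 4 * (Ps b v * dn b 0 1 v)) := by
    refine intervalIntegral.integral_nonneg (by norm_num) fun v hv => ?_
    have hlh : C6_lo b v ≤ C6_hi b v := by
      cases b
      · simp only [C6_lo, C6_hi, Bool.false_eq_true, if_false]
        exact max_le (by linarith [hv.1]) (by norm_num)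
      · simp only [C6_lo, C6_hi, if_true]
        exact le_max_right _ _
    set α := 1 + sgn b * (1 - 2 * v) with hα
    have hF : ∀ c d : ℝ, IntervalIntegrable (fun x => deriv (pf c d) x ^ 2) volume
        (C6_lo b v) (C6_hi b v) := fun c d => (C6_cont_F c d).intervalIntegrable _ _
    have hsum : α ^ 2 * dn b 1 0 v + α * dn b 1 1 v - α * dn b 1 (-1) v + 4 * dn b 0 1 v =
        ∫ x in (C6_lo b v)..(C6_hi b v), (α * deriv Pf x + 2 * (x * deriv Pf x + Pf x)) ^ 2 := by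
      rw [C6_dn, C6_dn, C6_dn, C6_dn, ← intervalIntegral.integral_const_mul,
        ← intervalIntegral.integral_const_mul, ← intervalIntegral.integral_const_mul,
        ← intervalIntegral.integral_const_mul,
        ← intervalIntegral.integral_add ((hF 1 0).const_mul _) ((hF 1 1).const_mul _),
        ← intervalIntegral.integral_sub (((hF 1 0).const_mul _).add ((hF 1 1).const_mul _))
          ((hF 1 (-1)).const_mul _),
        ← intervalIntegral.integral_add ((((hF 1 0).const_mul _).add ((hF 1 1).const_mul _)).sub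
          ((hF 1 (-1)).const_mul _)) ((hF 0 1).const_mul _)]
      refine intervalIntegral.integral_congr fun x _ => ?_
      simp only [pf_deriv]
      ring
    have h1 : Ps1 b v * dn b 1 0 v + Ps2 b v * dn b 1 1 v -
        Ps2 b v * dn b 1 (-1) v + 4 * (Ps b v * dn b 0 1 v) =
        Ps b v * (α ^ 2 * dn b 1 0 v + α * dn b 1 1 v - α * dn b 1 (-1) v + 4 * dn b 0 1 v) := by
      unfold Ps1 Ps2
      rw [← hα]
      ring
    rw [h1, hsum]
    exact mul_nonneg (C6_Ps_nonneg b v)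
      (intervalIntegral.integral_nonneg hlh fun x _ => sq_nonneg _)
  have hQ : Qc b = (if b then Ps1 b 0 else 0) +
      ∫ v in (-1 : ℝ)..1, (Ps1 b v * dn b 1 0 v + Ps2 b v * dn b 1 1 v -
      Ps2 b v * dn b 1 (-1) v + 4 * (Ps b v * dn b 0 1 v)) := by
    rw [intervalIntegral.integral_add ((i1.add i2).sub i3) i4,
      intervalIntegral.integral_sub (i1.add i2) i3, intervalIntegral.integral_add i1 i2,
      intervalIntegral.integral_const_mul]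
    unfold Qc Mu
    cases b
    · simp only [Bool.false_eq_true, if_false]
      ring
    · simp only [if_true]
      ring
  rw [hQ]
  refine add_nonneg ?_ hint
  split_ifs
  · unfold Ps1
    exact mul_nonneg (C6_Ps_nonneg b 0) (sq_nonneg _)
  · exact le_refl 0

theorem T1p (lam : ℝ) (h0 : 0 < lam) : ∃ C0 θ1 : ℝ, 0 < θ1 ∧
    ∀ {Ct θ D1 : ℝ} {N0 : ℕ}, C0 ≤ Ct → 0 < θ → θ ≤ θ1 → ∃ T0 : ℝ,
    ∀ {S : BS}, TG S Ct θ D1 N0 → T0 ≤ S.T →
    ∫⁻ t : ℝ, ENNReal.ofReal (Kw S.T t * ‖VV S.T ((sg0 S.T : ℝ) + t * I)‖ ^ 2 *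
      ‖MO 0 S.T (nC ((sg0 S.T : ℝ) + t * I))‖ ^ 2 *
      ‖RT S lam (nC ((sg0 S.T : ℝ) + t * I))‖ ^ 2) ≤
    ENNReal.ofReal (14 / 5 * (Kt S.T * ER S lam)) := by
  obtain ⟨C1, c, K, hc, hK, hER⟩ := ER_bounds lam h0
  obtain ⟨cK, CK, hcK, hCK, hKt⟩ := Kt_bounds
  have hπ := Real.pi_pos
  have hε : 0 < cK * c / (1000 * π) := by positivity
  obtain ⟨C0, θ1, hθ1, hsh⟩ := sharp_value lam h0 (cK * c / (1000 * π)) hε
  refine ⟨max (max C0 C1) lam, θ1, hθ1, ?_⟩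
  intro Ct θ D1 N0 hCt hθ hθ'
  have hC0 : C0 ≤ Ct := ((le_max_left _ _).trans (le_max_left _ _)).trans hCt
  have hC1 : C1 ≤ Ct := ((le_max_right _ _).trans (le_max_left _ _)).trans hCt
  have hlam : lam ≤ Ct := (le_max_right _ _).trans hCt
  obtain ⟨T0, hT0⟩ := hsh (N0 := N0) (D1 := D1) hC0 hθ hθ'
  have hκ : 0 < 2 * √2 * π * Real.exp (-(6 / 5)) := by positivity
  have hlim : ∀ᶠ T : ℝ in Filter.atTop,
      2 * √2 * π * Real.exp (-(6 / 5)) / (1001 / 1000) < Kt T / T ^ (1 / 2 : ℝ) := by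
    refine Kt_lim.eventually_const_lt ?_
    rw [div_lt_iff₀ (by norm_num)]
    linarith
  obtain ⟨T1, hT1⟩ := Filter.eventually_atTop.mp hlim
  refine ⟨max T0 T1, ?_⟩
  intro S hS hST
  have hT : Real.exp 1000 ≤ S.T := hS.T_ge
  have hTpos : 0 < S.T := lt_of_lt_of_le (Real.exp_pos _) hT
  obtain ⟨r, hr⟩ := rp_exists hS (lam := lam) (by rw [abs_of_pos h0]; exact hlam)
  have hst : ∀ b : Bool, _ := fun b => hT0 hS ((le_max_left _ _).trans hST) r hr b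
  obtain ⟨hE1, hE2⟩ := hER hS hC1
  obtain ⟨hK1, hK2⟩ := hKt S.T hT
  have hLam : 0 < Lam S lam := Real.exp_pos _
  have hERn : 0 ≤ ER S lam := le_trans (mul_nonneg hc.le hLam.le) hE1
  have hsT : 0 < S.T ^ (1 / 2 : ℝ) := Real.rpow_pos_of_pos hTpos _
  have hKt0 : 0 ≤ Kt S.T := le_trans (mul_nonneg hcK.le hsT.le) hK1
  have hκT : 2 * √2 * π * Real.exp (-(6 / 5)) * S.T ^ (1 / 2 : ℝ) ≤ 1001 / 1000 * Kt S.T := by
    have h := hT1 S.T ((le_max_right _ _).trans hST)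
    rw [div_lt_div_iff₀ (by norm_num) hsT] at h
    linarith
  set X : Bool → ℝ := fun b => √2 * S.T ^ (1 / 2 : ℝ) * (ER S lam * Qc b) +
      cK * c / (1000 * π) * (S.T ^ (1 / 2 : ℝ) * Lam S lam) with hX
  have hXn : ∀ b, 0 ≤ X b := fun b => by
    have := C6_Qc_nonneg b
    simp only [hX]
    positivity
  have hreal : 1 / 4 * (2 * π * (X true + X false)) ≤ 14 / 5 * (Kt S.T * ER S lam) := by
    have hNU := NU
    have e1 : 1 / 4 * (2 * π * (X true + X false)) =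
        π * √2 / 2 * S.T ^ (1 / 2 : ℝ) * ER S lam * (Qc true + Qc false) +
        cK * c / 1000 * (S.T ^ (1 / 2 : ℝ) * Lam S lam) := by
      simp only [hX]
      field_simp
      ring
    have h1 : π * √2 / 2 * S.T ^ (1 / 2 : ℝ) * ER S lam * (Qc true + Qc false) ≤
        π * √2 / 2 * S.T ^ (1 / 2 : ℝ) * ER S lam * (4 * Real.exp (-(6 / 5)) * (279 / 100)) :=
      mul_le_mul_of_nonneg_left hNU (by positivity)
    have e2 : π * √2 / 2 * S.T ^ (1 / 2 : ℝ) * ER S lam * (4 * Real.exp (-(6 / 5)) * (279 / 100)) =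
        279 / 100 * ER S lam * (2 * √2 * π * Real.exp (-(6 / 5)) * S.T ^ (1 / 2 : ℝ)) := by ring
    have h2 : 279 / 100 * ER S lam * (2 * √2 * π * Real.exp (-(6 / 5)) * S.T ^ (1 / 2 : ℝ)) ≤
        279 / 100 * ER S lam * (1001 / 1000 * Kt S.T) :=
      mul_le_mul_of_nonneg_left hκT (by positivity)
    have h3 : cK * c / 1000 * (S.T ^ (1 / 2 : ℝ) * Lam S lam) ≤ 1 / 1000 * (Kt S.T * ER S lam) := by
      have e3 : cK * c / 1000 * (S.T ^ (1 / 2 : ℝ) * Lam S lam) =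
          1 / 1000 * ((cK * S.T ^ (1 / 2 : ℝ)) * (c * Lam S lam)) := by ring
      rw [e3]
      refine mul_le_mul_of_nonneg_left ?_ (by norm_num)
      exact mul_le_mul hK1 hE1 (mul_nonneg hc.le hLam.le) hKt0
    have h4 : 0 ≤ Kt S.T * ER S lam := mul_nonneg hKt0 hERn
    rw [e1]
    nlinarith
  have hpt : ∀ t : ℝ, t ≠ 0 → Kw S.T t * ‖VV S.T ((sg0 S.T : ℝ) + t * I)‖ ^ 2 *
      ‖MO 0 S.T (nC ((sg0 S.T : ℝ) + t * I))‖ ^ 2 *
      ‖RT S lam (nC ((sg0 S.T : ℝ) + t * I))‖ ^ 2 =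
      1 / 4 * (Real.exp (ang S.T * t) * ‖fL S.T ((sg0 S.T : ℝ) + t * I)‖ ^ 2 *
      ‖DPo S.T (bt 0 S.T r) (nC ((sg0 S.T : ℝ) + t * I))‖ ^ 2) := by
    intro t ht
    have him : ((sg0 S.T : ℝ) + t * I : ℂ).im ≠ 0 := by
      simpa using ht
    rw [fL_eq S.T him, DPo_bt hS hr 0, Kw, norm_mul, norm_mul, norm_mul, Complex.norm_ofNat]
    ring
  have hy : -(e0 true * Real.log S.T) = e0 false * Real.log S.T := by
    simp only [e0, if_true, Bool.false_eq_true, if_false]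
    ring
  have hpl := HH_planch hT (bt 0 S.T r) (e0 true * Real.log S.T)
  rw [hy] at hpl
  calc ∫⁻ t : ℝ, ENNReal.ofReal (Kw S.T t * ‖VV S.T ((sg0 S.T : ℝ) + t * I)‖ ^ 2 *
      ‖MO 0 S.T (nC ((sg0 S.T : ℝ) + t * I))‖ ^ 2 *
      ‖RT S lam (nC ((sg0 S.T : ℝ) + t * I))‖ ^ 2)
      = ∫⁻ t : ℝ, ENNReal.ofReal (1 / 4) *
        ENNReal.ofReal (Real.exp (ang S.T * t) * ‖fL S.T ((sg0 S.T : ℝ) + t * I)‖ ^ 2 *
        ‖DPo S.T (bt 0 S.T r) (nC ((sg0 S.T : ℝ) + t * I))‖ ^ 2) := by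
        refine lintegral_congr_ae ?_
        have hae : ∀ᵐ t : ℝ, t ≠ 0 := Measure.ae_ne volume 0
        filter_upwards [hae] with t ht
        rw [hpt t ht, ENNReal.ofReal_mul (by norm_num)]
    _ = ENNReal.ofReal (1 / 4) *
        ∫⁻ t : ℝ, ENNReal.ofReal (Real.exp (ang S.T * t) * ‖fL S.T ((sg0 S.T : ℝ) + t * I)‖ ^ 2 *
        ‖DPo S.T (bt 0 S.T r) (nC ((sg0 S.T : ℝ) + t * I))‖ ^ 2) :=
        lintegral_const_mul' _ _ ENNReal.ofReal_ne_top
    _ ≤ ENNReal.ofReal (1 / 4) * (ENNReal.ofReal (2 * π) *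
        (ENNReal.ofReal (X true) + ENNReal.ofReal (X false))) := by
        gcongr
        refine hpl.trans ?_
        gcongr
        · exact hst true
        · exact hst false
    _ = ENNReal.ofReal (1 / 4 * (2 * π * (X true + X false))) := by
        rw [← ENNReal.ofReal_add (hXn true) (hXn false), ← ENNReal.ofReal_mul (by positivity),
          ← ENNReal.ofReal_mul (by norm_num)]
    _ ≤ ENNReal.ofReal (14 / 5 * (Kt S.T * ER S lam)) := ENNReal.ofReal_le_ofReal hreal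

end Pool.Agent.LB
end

section

/-! TASK D5. `F = V M` is close to `1`. `L = log T`, `x = Re z`, `d = x + 11/5 ∈ [1/2, 16L]`. `Fz_sub`: `F - 1 = (1/2+psiR/L) ph1 + (psiR/L - 1/2) + ph2 - DD/L`, `‖1/2 + psiR/L‖ ≤ 2`, `‖psiR/L - 1/2‖ ≤ C/L ≤ 16 C/d` (`psiR_pt`), `DD/L = DP/L + (DD-DP)/L`, `‖(DD-DP)/L‖ ≤ C/(3+x)` (`DD_DP`).
`PB1`: `‖F-1‖² ≤ 5(4‖ph1‖² + (16C/d)² + ‖ph2‖² + ‖DP/L‖² + C²/(3+x)²)`: `PHI`, `TMass`, `TDM` with `k = 1`. (`1/(3+x) ≤ 1/d`, `d^6 ≥ d²/16`.)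
`PB2`: if `‖F-1‖ > 1/5` then `2‖ph1‖ > 1/25`, or `‖ph2‖ > 1/25`, or `‖DP/L‖ > 1/25`, or `C/(3+x) > 1/25`, or `C/L > 1/25` (the last one is impossible for `T ≥ T0`). Chebyshev with the second moment of `ph1`, `ph2` (`PHI`) and the sixth moment of `DP/L` (`TDM`, `k = 3`); in the case `3 + x < 25C` use `TMass` and `1 ≤ (25C)^6/d^6`.
`PB3` (first moment): Cauchy-Schwarz with `TMass`. -/

set_option autoImplicit false

namespace Pool.Agent.LB

open Complex MeasureTheory Finset Pool.Agent.GH Pool.Agent.UH Pool.Agent.UV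
open scoped Real ComplexConjugate

private theorem D5_DPc (T : ℝ) (z : ℂ) : Continuous fun t : ℝ => DP T (nC (pt T t z)) := by
  unfold DP
  refine continuous_finsetSum _ fun p hp => ?_
  have hp0 : p ≠ 0 := (Finset.mem_filter.1 hp).2.ne_zero
  have hpc : (p : ℂ) ≠ 0 := Nat.cast_ne_zero.2 hp0
  simp only [nC_apply _ hp0]
  refine continuous_const.mul ?_
  refine Continuous.const_cpow ?_ (Or.inl hpc)
  unfold pt
  fun_prop

private theorem D5_MOd (T : ℝ) : Continuous fun s : ℂ => MO 0 T (nC s) := (MO_an 0 T).continuous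

private theorem D5_Fc (S : BS) (z : ℂ) (s : Set ℝ) (h : ∀ t ∈ s, 1 ≤ (pt S.T t z).im) :
    ContinuousOn (fun t : ℝ => Fz S t z) s := by
  intro t ht
  apply ContinuousAt.continuousWithinAt
  have hp : Continuous fun t : ℝ => pt S.T t z := by
    unfold pt
    fun_prop
  unfold Fz
  refine ContinuousAt.mul ?_ ?_
  · have h1 : ContinuousAt (VV S.T) (pt S.T t z) :=
      (VV_an S.T (by have := h t ht; intro h0; rw [h0] at this; norm_num at this)).continuousAt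
    exact ContinuousAt.comp (f := fun t : ℝ => pt S.T t z) h1 hp.continuousAt
  · exact ((D5_MOd S.T).comp hp).continuousAt

/-- the pointwise bound -/
private theorem D5_pt (η : ℝ) (h1 : 0 < η) (h2 : η ≤ 1) : ∃ C T0 : ℝ, 1 ≤ C ∧
    ∀ (S : BS) (t : ℝ) (z : ℂ), Real.exp 1000 ≤ S.T → T0 ≤ S.T → t ∈ Dm η S.T →
    -(17 / 10) ≤ z.re → z.re ≤ 15 * Real.log S.T → |z.im| ≤ 15 * Real.log S.T →
    1 ≤ (pt S.T t z).im ∧
    ‖Fz S t z - 1‖ ≤ 2 * ‖ph1 S.T (pt S.T t z)‖ + ‖ph2 S.T (pt S.T t z)‖ +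
      ‖DP S.T (nC (pt S.T t z)) / (Real.log S.T : ℝ)‖ + C / (3 + z.re) + C / Real.log S.T ∧
    C / Real.log S.T ≤ 1 / 25 := by
  obtain ⟨C1, hC1, hDD⟩ := DD_DP
  obtain ⟨C2, T2, hC2, hpsi⟩ := psiR_pt η h1 h2
  refine ⟨max C1 C2, max T2 (Real.exp (25 * max C1 C2)), hC1.trans (le_max_left _ _), ?_⟩
  intro S t z hT hT0 ht hx1 hx2 hy
  have hCm : 1 ≤ max C1 C2 := hC1.trans (le_max_left _ _)
  have hTpos : 0 < S.T := (Real.exp_pos _).trans_le hT
  have hL : 1000 ≤ Real.log S.T := (Real.le_log_iff_exp_le hTpos).2 hT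
  have hL2 : 25 * max C1 C2 ≤ Real.log S.T :=
    (Real.le_log_iff_exp_le hTpos).2 ((le_max_right _ _).trans hT0)
  have hLpos : 0 < Real.log S.T := by linarith
  have hy2 : |z.im| ≤ Real.log S.T ^ 2 := by nlinarith
  have hre : |z.re| ≤ 15 * Real.log S.T := by
    rw [abs_le]; constructor <;> linarith
  obtain ⟨k1, k2⟩ := hpsi S.T t z ((le_max_left _ _).trans hT0) ht hre hy2
  have k3 := hDD S.T t z hT (by linarith) hx2
  have hCL : max C1 C2 / Real.log S.T ≤ 1 / 25 := by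
    rw [div_le_div_iff₀ hLpos (by norm_num)]
    linarith
  have hC2L : C2 / Real.log S.T ≤ max C1 C2 / Real.log S.T :=
    div_le_div_of_nonneg_right (le_max_right _ _) hLpos.le
  have hC1d : C1 / (3 + z.re) ≤ max C1 C2 / (3 + z.re) :=
    div_le_div_of_nonneg_right (le_max_left _ _) (by linarith)
  have hA : ‖1 / 2 + psiR (pt S.T t z) / (Real.log S.T : ℝ)‖ ≤ 2 := by
    have e : 1 / 2 + psiR (pt S.T t z) / ((Real.log S.T : ℝ) : ℂ) =
        1 + (psiR (pt S.T t z) / ((Real.log S.T : ℝ) : ℂ) - 1 / 2) := by ring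
    rw [e]
    refine (norm_add_le _ _).trans ?_
    rw [norm_one]
    linarith
  refine ⟨k1, ?_, hCL⟩
  rw [Fz_sub]
  have e2 : (1 / 2 + psiR (pt S.T t z) / (Real.log S.T : ℝ)) * ph1 S.T (pt S.T t z) +
      (psiR (pt S.T t z) / (Real.log S.T : ℝ) - 1 / 2) + ph2 S.T (pt S.T t z) -
      DD S.T (nC (pt S.T t z)) / (Real.log S.T : ℝ) =
      (1 / 2 + psiR (pt S.T t z) / (Real.log S.T : ℝ)) * ph1 S.T (pt S.T t z) +
      (psiR (pt S.T t z) / (Real.log S.T : ℝ) - 1 / 2) + ph2 S.T (pt S.T t z) -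
      DP S.T (nC (pt S.T t z)) / (Real.log S.T : ℝ) -
      (DD S.T (nC (pt S.T t z)) - DP S.T (nC (pt S.T t z))) / (Real.log S.T : ℝ) := by ring
  rw [e2]
  have n1 := norm_sub_le ((1 / 2 + psiR (pt S.T t z) / (Real.log S.T : ℝ)) * ph1 S.T (pt S.T t z) +
      (psiR (pt S.T t z) / (Real.log S.T : ℝ) - 1 / 2) + ph2 S.T (pt S.T t z) -
      DP S.T (nC (pt S.T t z)) / (Real.log S.T : ℝ))
      ((DD S.T (nC (pt S.T t z)) - DP S.T (nC (pt S.T t z))) / (Real.log S.T : ℝ))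
  have n2 := norm_sub_le ((1 / 2 + psiR (pt S.T t z) / (Real.log S.T : ℝ)) * ph1 S.T (pt S.T t z) +
      (psiR (pt S.T t z) / (Real.log S.T : ℝ) - 1 / 2) + ph2 S.T (pt S.T t z))
      (DP S.T (nC (pt S.T t z)) / (Real.log S.T : ℝ))
  have n3 := norm_add_le ((1 / 2 + psiR (pt S.T t z) / (Real.log S.T : ℝ)) * ph1 S.T (pt S.T t z) +
      (psiR (pt S.T t z) / (Real.log S.T : ℝ) - 1 / 2)) (ph2 S.T (pt S.T t z))
  have n4 := norm_add_le ((1 / 2 + psiR (pt S.T t z) / (Real.log S.T : ℝ)) * ph1 S.T (pt S.T t z))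
      (psiR (pt S.T t z) / (Real.log S.T : ℝ) - 1 / 2)
  have n5 : ‖(1 / 2 + psiR (pt S.T t z) / (Real.log S.T : ℝ)) * ph1 S.T (pt S.T t z)‖ ≤
      2 * ‖ph1 S.T (pt S.T t z)‖ := by
    rw [norm_mul]
    exact mul_le_mul_of_nonneg_right hA (norm_nonneg _)
  linarith

/-- the integration lemma -/
private theorem D5_int {s : Set ℝ} {F u P q : ℝ → ℝ} {a b c X1 X2 X3 : ℝ}
    (hs : MeasurableSet s) (ha : 0 ≤ a) (hb : 0 ≤ b) (hc : 0 ≤ c)
    (hu : ∀ t, 0 ≤ u t) (hP : ∀ t, 0 ≤ P t) (hq : ∀ t, 0 ≤ q t) (hum : Measurable u)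
    (hqm : Measurable q) (h : ∀ t ∈ s, F t ≤ a * P t + b * q t + c)
    (hX1 : 0 ≤ X1) (hX2 : 0 ≤ X2) (hX3 : 0 ≤ X3)
    (h1 : ∫⁻ t in s, ENNReal.ofReal (P t * u t) ≤ ENNReal.ofReal X1)
    (h2 : ∫⁻ t in s, ENNReal.ofReal (q t * u t) ≤ ENNReal.ofReal X2)
    (h3 : ∫⁻ t in s, ENNReal.ofReal (u t) ≤ ENNReal.ofReal X3) :
    ∫⁻ t in s, ENNReal.ofReal (F t * u t) ≤ ENNReal.ofReal (a * X1 + b * X2 + c * X3) := by
  have m2 : Measurable fun t => ENNReal.ofReal b * ENNReal.ofReal (q t * u t) :=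
    ((hqm.mul hum).ennreal_ofReal).const_mul _
  have m3 : Measurable fun t => ENNReal.ofReal c * ENNReal.ofReal (u t) :=
    (hum.ennreal_ofReal).const_mul _
  calc ∫⁻ t in s, ENNReal.ofReal (F t * u t)
      ≤ ∫⁻ t in s, ((ENNReal.ofReal a * ENNReal.ofReal (P t * u t) +
          ENNReal.ofReal b * ENNReal.ofReal (q t * u t)) +
          ENNReal.ofReal c * ENNReal.ofReal (u t)) := by
        refine setLIntegral_mono' hs fun t ht => ?_
        rw [← ENNReal.ofReal_mul ha, ← ENNReal.ofReal_mul hb, ← ENNReal.ofReal_mul hc,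
          ← ENNReal.ofReal_add (by have := hP t; have := hu t; positivity)
            (by have := hq t; have := hu t; positivity),
          ← ENNReal.ofReal_add (by have := hP t; have := hu t; have := hq t; positivity)
            (by have := hu t; positivity)]
        apply ENNReal.ofReal_le_ofReal
        have := mul_le_mul_of_nonneg_right (h t ht) (hu t)
        linarith
    _ = (ENNReal.ofReal a * ∫⁻ t in s, ENNReal.ofReal (P t * u t)) +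
          (ENNReal.ofReal b * ∫⁻ t in s, ENNReal.ofReal (q t * u t)) +
          (ENNReal.ofReal c * ∫⁻ t in s, ENNReal.ofReal (u t)) := by
        rw [lintegral_add_right _ m3, lintegral_add_right _ m2,
          lintegral_const_mul' _ _ ENNReal.ofReal_ne_top,
          lintegral_const_mul' _ _ ENNReal.ofReal_ne_top,
          lintegral_const_mul' _ _ ENNReal.ofReal_ne_top]
    _ ≤ ENNReal.ofReal a * ENNReal.ofReal X1 + ENNReal.ofReal b * ENNReal.ofReal X2 +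
          ENNReal.ofReal c * ENNReal.ofReal X3 := by gcongr
    _ = _ := by
        rw [← ENNReal.ofReal_mul ha, ← ENNReal.ofReal_mul hb, ← ENNReal.ofReal_mul hc,
          ← ENNReal.ofReal_add (by positivity) (by positivity),
          ← ENNReal.ofReal_add (by positivity) (by positivity)]

private theorem D5_uu_nonneg (S : BS) (lam t : ℝ) : 0 ≤ uu S lam t := by
  unfold uu; positivity

private theorem D5_hR {S : BS} {Ct θ D1 : ℝ} {N0 : ℕ} (hS : TG S Ct θ D1 N0) :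
    ∀ j ≤ S.J, ∀ p ∈ S.R j, p ≠ 0 := fun j hj p hp => (hS.prime j hj p hp).1.ne_zero

private theorem D5_M {S : BS} {Ct θ D1 : ℝ} {N0 : ℕ} (hS : TG S Ct θ D1 N0) (lam : ℝ) :
    0 ≤ S.T * Lam S lam := by
  have h1 : 0 < S.T := (Real.exp_pos _).trans_le hS.T_ge
  have h2 : 0 < Lam S lam := Real.exp_pos _
  positivity

theorem PB1 (lam η : ℝ) (h0 : 0 < lam) (h1 : 0 < η) (h2 : η ≤ 1) : ∃ C0 K : ℝ, 1 ≤ K ∧
    ∀ {Ct θ D1 : ℝ} {N0 : ℕ}, C0 ≤ Ct → ∃ T0 : ℝ, ∀ {S : BS}, TG S Ct θ D1 N0 → T0 ≤ S.T →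
    ∀ z : ℂ, -(17 / 10) ≤ z.re → z.re ≤ 15 * Real.log S.T → |z.im| ≤ 15 * Real.log S.T →
    ∫⁻ t in Dm η S.T, ENNReal.ofReal (‖Fz S t z - 1‖ ^ 2 * uu S lam t) ≤
    ENNReal.ofReal (K * (S.T * Lam S lam) / (z.re + 11 / 5) ^ 2) := by
  obtain ⟨C, T1, hC, hpt⟩ := D5_pt η h1 h2
  obtain ⟨Ca, Ka, hKa, hA⟩ := TDM lam η h0 h1 h2 1 (by norm_num)
  obtain ⟨Cb, Kb, hKb, hB⟩ := TMass lam η h0 h1 h2
  obtain ⟨Cc, Kc, hKc, hD⟩ := PHI lam η h0 h1 h2
  refine ⟨max Ca (max Cb Cc), 256 * Kc + 4 * Ka + 4 * (17 * C) ^ 2 * Kb, ?_, ?_⟩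
  · have : 0 ≤ 4 * (17 * C) ^ 2 * Kb := by positivity
    linarith
  intro Ct θ D1 N0 hCt
  obtain ⟨Ta, hTa⟩ := @hA Ct θ D1 N0 ((le_max_left _ _).trans hCt)
  obtain ⟨Tb, hTb⟩ := @hB Ct θ D1 N0 (((le_max_left _ _).trans (le_max_right _ _)).trans hCt)
  obtain ⟨Tc, hTc⟩ := @hD Ct θ D1 N0 (((le_max_right _ _).trans (le_max_right _ _)).trans hCt)
  refine ⟨max (max T1 Ta) (max Tb Tc), ?_⟩
  intro S hS hT z hx1 hx2 hy
  have hTpos : 0 < S.T := (Real.exp_pos _).trans_le hS.T_ge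
  have hL : 1000 ≤ Real.log S.T := (Real.le_log_iff_exp_le hTpos).2 hS.T_ge
  have hT1 : T1 ≤ S.T := ((le_max_left _ _).trans (le_max_left _ _)).trans hT
  have hTa' : Ta ≤ S.T := ((le_max_right _ _).trans (le_max_left _ _)).trans hT
  have hTb' : Tb ≤ S.T := ((le_max_left _ _).trans (le_max_right _ _)).trans hT
  have hTc' : Tc ≤ S.T := ((le_max_right _ _).trans (le_max_right _ _)).trans hT
  have hM := D5_M hS lam
  have a1 := hTa hS hTa' z (by linarith) (by linarith)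
  have a2 := hTb hS hTb'
  have a3 := hTc hS hTc' z hx1 hx2 hy
  obtain ⟨d, hd⟩ : ∃ d, d = z.re + 11 / 5 := ⟨_, rfl⟩
  rw [← hd] at a3 ⊢
  have hd1 : 1 / 2 ≤ d := by linarith
  have hd0 : 0 < d := by linarith
  have hd2 : d ≤ 16 * Real.log S.T := by linarith
  have hCpos : 0 < C := by linarith
  have hb : ∀ t ∈ Dm η S.T, ‖Fz S t z - 1‖ ^ 2 ≤
      16 * (‖ph1 S.T (pt S.T t z)‖ ^ 2 + ‖ph2 S.T (pt S.T t z)‖ ^ 2) +
      4 * ‖DP S.T (nC (pt S.T t z)) / (Real.log S.T : ℝ)‖ ^ (2 * 1) + 4 * (17 * C / d) ^ 2 := by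
    intro t ht
    obtain ⟨-, p2, -⟩ := hpt S t z hS.T_ge hT1 ht hx1 hx2 hy
    have e1 : C / (3 + z.re) ≤ C / d := div_le_div_of_nonneg_left hCpos.le hd0 (by linarith)
    have e2 : C / Real.log S.T ≤ 16 * C / d := by
      rw [div_le_div_iff₀ (by linarith) hd0]
      nlinarith
    have e3 : C / (3 + z.re) + C / Real.log S.T ≤ 17 * C / d := by
      have : C / d + 16 * C / d = 17 * C / d := by ring
      linarith
    have p3 : ‖Fz S t z - 1‖ ≤ 2 * ‖ph1 S.T (pt S.T t z)‖ + ‖ph2 S.T (pt S.T t z)‖ +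
        ‖DP S.T (nC (pt S.T t z)) / (Real.log S.T : ℝ)‖ + 17 * C / d := by linarith
    have p4 := pow_le_pow_left₀ (norm_nonneg _) p3 2
    refine p4.trans ?_
    generalize ‖ph1 S.T (pt S.T t z)‖ = x1
    generalize ‖ph2 S.T (pt S.T t z)‖ = x2
    generalize ‖DP S.T (nC (pt S.T t z)) / (Real.log S.T : ℝ)‖ = x3
    generalize 17 * C / d = x4
    norm_num
    nlinarith [sq_nonneg (2 * x1 - x2), sq_nonneg (2 * x1 - x3), sq_nonneg (2 * x1 - x4),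
      sq_nonneg (x2 - x3), sq_nonneg (x2 - x4), sq_nonneg (x3 - x4), sq_nonneg x2]
  have hI := D5_int (s := Dm η S.T) (u := uu S lam)
    (P := fun t => ‖ph1 S.T (pt S.T t z)‖ ^ 2 + ‖ph2 S.T (pt S.T t z)‖ ^ 2)
    (q := fun t => ‖DP S.T (nC (pt S.T t z)) / (Real.log S.T : ℝ)‖ ^ (2 * 1))
    (F := fun t => ‖Fz S t z - 1‖ ^ 2)
    (a := 16) (b := 4) (c := 4 * (17 * C / d) ^ 2)
    (X1 := Kc * (S.T * Lam S lam) / d ^ 6) (X2 := Ka * (S.T * Lam S lam) / (3 + z.re) ^ (2 * 1))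
    (X3 := Kb * (S.T * Lam S lam))
    measurableSet_Icc (by norm_num) (by norm_num) (by positivity) (D5_uu_nonneg S lam)
    (fun t => by positivity) (fun t => by positivity) (uu_continuous S lam (D5_hR hS)).measurable
    (by
      have := D5_DPc S.T z
      exact (((this.div_const _).norm).pow _).measurable)
    hb (by positivity) (by have : 0 < 3 + z.re := by linarith
                           positivity) (by positivity) a3 a1 a2
  refine hI.trans (ENNReal.ofReal_le_ofReal ?_)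
  obtain ⟨M, hMe⟩ : ∃ M, M = S.T * Lam S lam := ⟨_, rfl⟩
  rw [← hMe] at hM ⊢
  have t1 : Kc * M / d ^ 6 ≤ 16 * Kc * M / d ^ 2 := by
    rw [div_le_div_iff₀ (by positivity) (by positivity)]
    have h16 : 1 / 16 ≤ d ^ 4 := by
      have := pow_le_pow_left₀ (by norm_num : (0:ℝ) ≤ 1 / 2) hd1 4
      norm_num at this ⊢
      linarith
    have : 0 ≤ Kc * M * d ^ 2 := by positivity
    nlinarith
  have t2 : Ka * M / (3 + z.re) ^ (2 * 1) ≤ Ka * M / d ^ 2 := by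
    apply div_le_div_of_nonneg_left (by positivity) (by positivity)
    rw [mul_one]
    exact pow_le_pow_left₀ hd0.le (by linarith) 2
  have t3 : 4 * (17 * C / d) ^ 2 * (Kb * M) = 4 * (17 * C) ^ 2 * Kb * M / d ^ 2 := by
    rw [div_pow]; ring
  have t4 : (256 * Kc + 4 * Ka + 4 * (17 * C) ^ 2 * Kb) * M / d ^ 2 =
      16 * (16 * Kc * M / d ^ 2) + 4 * (Ka * M / d ^ 2) + 4 * (17 * C) ^ 2 * Kb * M / d ^ 2 := by
    ring
  rw [t4, t3]
  linarith

theorem PB2 (lam η : ℝ) (h0 : 0 < lam) (h1 : 0 < η) (h2 : η ≤ 1) : ∃ C0 K : ℝ, 1 ≤ K ∧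
    ∀ {Ct θ D1 : ℝ} {N0 : ℕ}, C0 ≤ Ct → ∃ T0 : ℝ, ∀ {S : BS}, TG S Ct θ D1 N0 → T0 ≤ S.T →
    ∀ z : ℂ, -(17 / 10) ≤ z.re → z.re ≤ 15 * Real.log S.T → |z.im| ≤ 15 * Real.log S.T →
    ∫⁻ t in {t | t ∈ Dm η S.T ∧ 1 / 5 < ‖Fz S t z - 1‖}, ENNReal.ofReal (uu S lam t) ≤
    ENNReal.ofReal (K * (S.T * Lam S lam) / (z.re + 11 / 5) ^ 6) := by
  obtain ⟨C, T1, hC, hpt⟩ := D5_pt η h1 h2
  obtain ⟨Ca, Ka, hKa, hA⟩ := TDM lam η h0 h1 h2 3 (by norm_num)
  obtain ⟨Cb, Kb, hKb, hB⟩ := TMass lam η h0 h1 h2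
  obtain ⟨Cc, Kc, hKc, hD⟩ := PHI lam η h0 h1 h2
  refine ⟨max Ca (max Cb Cc), 2500 * Kc + 25 ^ 6 * Ka + (25 * C) ^ 6 * Kb, ?_, ?_⟩
  · have : 0 ≤ (25 * C) ^ 6 * Kb := by positivity
    have : 0 ≤ 25 ^ 6 * Ka := by positivity
    linarith
  intro Ct θ D1 N0 hCt
  obtain ⟨Ta, hTa⟩ := @hA Ct θ D1 N0 ((le_max_left _ _).trans hCt)
  obtain ⟨Tb, hTb⟩ := @hB Ct θ D1 N0 (((le_max_left _ _).trans (le_max_right _ _)).trans hCt)
  obtain ⟨Tc, hTc⟩ := @hD Ct θ D1 N0 (((le_max_right _ _).trans (le_max_right _ _)).trans hCt)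
  refine ⟨max (max T1 Ta) (max Tb Tc), ?_⟩
  intro S hS hT z hx1 hx2 hy
  have hTpos : 0 < S.T := (Real.exp_pos _).trans_le hS.T_ge
  have hL : 1000 ≤ Real.log S.T := (Real.le_log_iff_exp_le hTpos).2 hS.T_ge
  have hT1 : T1 ≤ S.T := ((le_max_left _ _).trans (le_max_left _ _)).trans hT
  have hTa' : Ta ≤ S.T := ((le_max_right _ _).trans (le_max_left _ _)).trans hT
  have hTb' : Tb ≤ S.T := ((le_max_left _ _).trans (le_max_right _ _)).trans hT
  have hTc' : Tc ≤ S.T := ((le_max_right _ _).trans (le_max_right _ _)).trans hT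
  have hM := D5_M hS lam
  have a1 := hTa hS hTa' z (by linarith) (by linarith)
  have a2 := hTb hS hTb'
  have a3 := hTc hS hTc' z hx1 hx2 hy
  obtain ⟨d, hd⟩ : ∃ d, d = z.re + 11 / 5 := ⟨_, rfl⟩
  rw [← hd] at a3 ⊢
  have hd1 : 1 / 2 ≤ d := by linarith
  have hd0 : 0 < d := by linarith
  have hCpos : 0 < C := by linarith
  obtain ⟨A, hAe⟩ : ∃ A, A = {t | t ∈ Dm η S.T ∧ 1 / 5 < ‖Fz S t z - 1‖} := ⟨_, rfl⟩
  rw [← hAe]
  have hAs : A ⊆ Dm η S.T := by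
    rw [hAe]; exact fun t ht => ht.1
  have hAm : MeasurableSet A := by
    have hcont : ContinuousOn (fun t : ℝ => ‖Fz S t z - 1‖) (Dm η S.T) :=
      ((D5_Fc S z _ fun t ht => (hpt S t z hS.T_ge hT1 ht hx1 hx2 hy).1).sub
        continuousOn_const).norm
    obtain ⟨v, hv, hve⟩ := (continuousOn_iff'.1 hcont) (Set.Ioi (1 / 5)) isOpen_Ioi
    have e : A = v ∩ Dm η S.T := by
      rw [← hve, hAe]
      ext t
      simp only [Set.mem_ofPred_eq, Set.mem_inter_iff, Set.mem_preimage, Set.mem_Ioi]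
      tauto
    rw [e]
    exact hv.measurableSet.inter measurableSet_Icc
  have hb : ∀ t ∈ A, (1 : ℝ) ≤
      2500 * (‖ph1 S.T (pt S.T t z)‖ ^ 2 + ‖ph2 S.T (pt S.T t z)‖ ^ 2) +
      25 ^ 6 * ‖DP S.T (nC (pt S.T t z)) / (Real.log S.T : ℝ)‖ ^ (2 * 3) +
        (25 * C / d) ^ 6 := by
    intro t ht
    obtain ⟨-, p2, p3⟩ := hpt S t z hS.T_ge hT1 (hAs ht) hx1 hx2 hy
    have p1 : 1 / 5 < ‖Fz S t z - 1‖ := by
      rw [hAe] at ht; exact ht.2
    have e1 : C / (3 + z.re) ≤ C / d := div_le_div_of_nonneg_left hCpos.le hd0 (by linarith)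
    have hx4 : 0 ≤ C / d := by positivity
    have e5 : (25 * C / d) ^ 6 = (25 * (C / d)) ^ 6 := by ring
    rw [e5]
    have hn1 := norm_nonneg (ph1 S.T (pt S.T t z))
    have hn2 := norm_nonneg (ph2 S.T (pt S.T t z))
    have hn3 := norm_nonneg (DP S.T (nC (pt S.T t z)) / (Real.log S.T : ℝ))
    generalize ‖ph1 S.T (pt S.T t z)‖ = x1 at *
    generalize ‖ph2 S.T (pt S.T t z)‖ = x2 at *
    generalize ‖DP S.T (nC (pt S.T t z)) / (Real.log S.T : ℝ)‖ = x3 at *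
    generalize C / d = x4 at *
    have q1 : 0 ≤ x1 ^ 2 := by positivity
    have q2 : 0 ≤ x2 ^ 2 := by positivity
    have q3 : 0 ≤ x3 ^ (2 * 3) := by positivity
    have q4 : 0 ≤ (25 * x4) ^ 6 := by positivity
    by_cases c1 : 1 / 25 < 2 * x1
    · have : 1 ≤ 2500 * x1 ^ 2 := by nlinarith
      linarith
    by_cases c2 : 1 / 25 < x2
    · have : 1 ≤ 2500 * x2 ^ 2 := by nlinarith
      linarith
    by_cases c3 : 1 / 25 < x3
    · have h6 : 1 ≤ (25 * x3) ^ (2 * 3) := one_le_pow₀ (by linarith)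
      have e6 : (25 * x3) ^ (2 * 3) = 25 ^ 6 * x3 ^ (2 * 3) := by ring
      rw [e6] at h6
      linarith
    have h4 : 1 ≤ 25 * x4 := by linarith
    have h7 : 1 ≤ (25 * x4) ^ 6 := one_le_pow₀ h4
    linarith
  have hmono : volume.restrict A ≤ volume.restrict (Dm η S.T) := Measure.restrict_mono hAs le_rfl
  have hI := D5_int (s := A) (u := uu S lam)
    (P := fun t => ‖ph1 S.T (pt S.T t z)‖ ^ 2 + ‖ph2 S.T (pt S.T t z)‖ ^ 2)
    (q := fun t => ‖DP S.T (nC (pt S.T t z)) / (Real.log S.T : ℝ)‖ ^ (2 * 3))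
    (F := fun _ => 1)
    (a := 2500) (b := 25 ^ 6) (c := (25 * C / d) ^ 6)
    (X1 := Kc * (S.T * Lam S lam) / d ^ 6) (X2 := Ka * (S.T * Lam S lam) / (3 + z.re) ^ (2 * 3))
    (X3 := Kb * (S.T * Lam S lam))
    hAm (by norm_num) (by norm_num) (by positivity) (D5_uu_nonneg S lam)
    (fun t => by positivity) (fun t => by positivity) (uu_continuous S lam (D5_hR hS)).measurable
    (by
      have := D5_DPc S.T z
      exact (((this.div_const _).norm).pow _).measurable)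
    hb (by positivity) (by have : 0 < 3 + z.re := by linarith
                           positivity) (by positivity)
    ((lintegral_mono' hmono le_rfl).trans a3) ((lintegral_mono' hmono le_rfl).trans a1)
    ((lintegral_mono' hmono le_rfl).trans a2)
  simp only [one_mul] at hI
  refine hI.trans (ENNReal.ofReal_le_ofReal ?_)
  obtain ⟨M, hMe⟩ : ∃ M, M = S.T * Lam S lam := ⟨_, rfl⟩
  rw [← hMe] at hM ⊢
  have t2 : Ka * M / (3 + z.re) ^ (2 * 3) ≤ Ka * M / d ^ 6 := by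
    apply div_le_div_of_nonneg_left (by positivity) (by positivity)
    exact pow_le_pow_left₀ hd0.le (by linarith) 6
  have t3 : (25 * C / d) ^ 6 * (Kb * M) = (25 * C) ^ 6 * Kb * M / d ^ 6 := by
    rw [div_pow]; ring
  have t4 : (2500 * Kc + 25 ^ 6 * Ka + (25 * C) ^ 6 * Kb) * M / d ^ 6 =
      2500 * (Kc * M / d ^ 6) + 25 ^ 6 * (Ka * M / d ^ 6) + (25 * C) ^ 6 * Kb * M / d ^ 6 := by
    ring
  rw [t4, t3]
  linarith

theorem PB3 (lam η : ℝ) (h0 : 0 < lam) (h1 : 0 < η) (h2 : η ≤ 1) : ∃ C0 K : ℝ, 1 ≤ K ∧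
    ∀ {Ct θ D1 : ℝ} {N0 : ℕ}, C0 ≤ Ct → ∃ T0 : ℝ, ∀ {S : BS}, TG S Ct θ D1 N0 → T0 ≤ S.T →
    ∀ z : ℂ, -(17 / 10) ≤ z.re → z.re ≤ 15 * Real.log S.T → |z.im| ≤ 15 * Real.log S.T →
    ∫⁻ t in Dm η S.T, ENNReal.ofReal (‖Fz S t z ^ 2 - 1‖ * uu S lam t) ≤
    ENNReal.ofReal (K * (S.T * Lam S lam) / (z.re + 11 / 5)) := by
  obtain ⟨Ca, Ka, hKa, hA⟩ := PB1 lam η h0 h1 h2
  obtain ⟨Cb, Kb, hKb, hB⟩ := TMass lam η h0 h1 h2
  refine ⟨max Ca Cb, 3 * Ka + Kb, by linarith, ?_⟩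
  intro Ct θ D1 N0 hCt
  obtain ⟨Ta, hTa⟩ := @hA Ct θ D1 N0 ((le_max_left _ _).trans hCt)
  obtain ⟨Tb, hTb⟩ := @hB Ct θ D1 N0 ((le_max_right _ _).trans hCt)
  refine ⟨max Ta Tb, ?_⟩
  intro S hS hT z hx1 hx2 hy
  have hM := D5_M hS lam
  have a1 := hTa hS ((le_max_left _ _).trans hT) z hx1 hx2 hy
  have a2 := hTb hS ((le_max_right _ _).trans hT)
  obtain ⟨d, hd⟩ : ∃ d, d = z.re + 11 / 5 := ⟨_, rfl⟩
  rw [← hd] at a1 ⊢
  have hd1 : 1 / 2 ≤ d := by linarith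
  have hd0 : 0 < d := by linarith
  have hb : ∀ t ∈ Dm η S.T, ‖Fz S t z ^ 2 - 1‖ ≤
      (d + 1) * ‖Fz S t z - 1‖ ^ 2 + 0 * (0 : ℝ) + 1 / d := by
    intro t _
    have e : Fz S t z ^ 2 - 1 = (Fz S t z - 1) * ((Fz S t z - 1) + 2) := by ring
    rw [e, norm_mul]
    have n1 : ‖(Fz S t z - 1) + 2‖ ≤ ‖Fz S t z - 1‖ + 2 := by
      refine (norm_add_le _ _).trans ?_
      simp
    have n2 := norm_nonneg (Fz S t z - 1)
    have n3 := mul_le_mul_of_nonneg_left n1 n2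
    refine n3.trans ?_
    generalize ‖Fz S t z - 1‖ = x
    have k : 2 * x ≤ d * x ^ 2 + 1 / d := by
      have h3 : 0 ≤ (d * x - 1) ^ 2 / d := by positivity
      have h4 : (d * x - 1) ^ 2 / d = d * x ^ 2 - 2 * x + 1 / d := by
        field_simp
        ring
      linarith
    nlinarith
  have hI := D5_int (s := Dm η S.T) (u := uu S lam)
    (P := fun t => ‖Fz S t z - 1‖ ^ 2) (q := fun _ => 0)
    (F := fun t => ‖Fz S t z ^ 2 - 1‖)
    (a := d + 1) (b := 0) (c := 1 / d)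
    (X1 := Ka * (S.T * Lam S lam) / d ^ 2) (X2 := 0) (X3 := Kb * (S.T * Lam S lam))
    measurableSet_Icc (by positivity) le_rfl (by positivity) (D5_uu_nonneg S lam)
    (fun t => by positivity) (fun t => le_rfl) (uu_continuous S lam (D5_hR hS)).measurable
    measurable_const hb (by positivity) le_rfl (by positivity) a1 (by simp) a2
  refine hI.trans (ENNReal.ofReal_le_ofReal ?_)
  obtain ⟨M, hMe⟩ : ∃ M, M = S.T * Lam S lam := ⟨_, rfl⟩
  rw [← hMe] at hM ⊢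
  have t1 : (d + 1) * (Ka * M / d ^ 2) ≤ 3 * Ka * M / d := by
    rw [mul_div_assoc', div_le_div_iff₀ (by positivity) hd0]
    have h5 : 0 ≤ Ka * M * d := by positivity
    nlinarith
  have t2 : 1 / d * (Kb * M) = Kb * M / d := by ring
  have t3 : (3 * Ka + Kb) * M / d = 3 * Ka * M / d + Kb * M / d := by ring
  rw [t3, t2]
  linarith

end Pool.Agent.LB
end

section

/-! TASK E1. Moments of `G = V_δ M²` on the good set. `Gz_eq`: `G = F² + e2`, `‖e2‖ = δ² e^{2 x0} ‖ch‖ ‖M‖²`. `Q(z) = δ² e^{Dθ} (1+‖z‖)^k e^{-Re z/2}`, `k` from `XB4`, `EE ⊆ Dm`.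
(1) `‖G-1‖ ≤ ‖F²-1‖ + ‖e2‖`: `PB3`, `XB4`.
(2) if `‖G-1‖ > 1/2` then `‖F-1‖ > 1/5` (otherwise `‖F²-1‖ ≤ 11/25`) or `‖e2‖ > 3/50`: `PB2`, and Chebyshev with `XB4` (constant `50/3`).
(3) Jensen's inequality for the concave function `log²(e+x)` on `[0,∞)` (derivative `2 log u/u` decreasing for `u ≥ e`): with the measure `uu dt` on `EE` of total mass `m ≤ m' := K T Lam` (`TMass`) (add an atom: `∫ g(X) ≤ m' g(∫ X/m')` as `g ≥ 0` is concave and increasing; e.g. by the tangent line of `g` at `a = ∫X/m'`: `g(x) ≤ g(a) + g'(a)(x-a)`, so `∫ g(X) ≤ m g(a) + g'(a)(m' a - m a) ≤ m' g(a)` because `g(a) ≥ a g'(a)`):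
 `∫ (log⁺‖G‖)² uu ≤ ∫ log²(e+‖G‖) uu ≤ m' log²(e + ∫‖G‖uu/m')`, `∫ ‖G‖ uu ≤ m' + K(2 + A) T Lam` by (1) (`1/(x+11/5) ≤ 2`), so `≤ C m' (1 + log A)²`. The tangent line argument needs only `∫ ‖G‖ uu < ∞` which follows from (1).
`Gz_meas`: `riemannZeta`, `Gammaℝ` are measurable (continuous outside a countable closed set), `deriv f` is measurable (`measurable_deriv`), compositions. -/

set_option autoImplicit false

namespace Pool.Agent.LB

open Complex MeasureTheory Finset Pool.Agent.GH Pool.Agent.UH Pool.Agent.UV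
open scoped Real ComplexConjugate

private theorem E1_pt (S : BS) : Measurable (fun q : ℝ × ℂ => pt S.T q.1 q.2) := by
  have h : Continuous (fun q : ℝ × ℂ => pt S.T q.1 q.2) := by
    unfold pt
    fun_prop
  exact h.measurable

private theorem E1_zeta : Measurable riemannZeta := by
  refine measurable_of_continuousOn_compl_singleton 1 ?_
  intro s hs
  exact (differentiableAt_riemannZeta hs).continuousAt.continuousWithinAt

private theorem E1_GR : Measurable Gammaℝ := by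
  have h1 : Measurable (fun s => (Gammaℝ s)⁻¹) := differentiable_Gammaℝ_inv.continuous.measurable
  have h2 := h1.inv
  have h3 : (fun s => (Gammaℝ s)⁻¹)⁻¹ = Gammaℝ := by
    funext z
    rw [Pi.inv_apply, inv_inv]
  rwa [h3] at h2

private theorem E1_psiR : Measurable psiR := by
  have h : psiR = fun s => deriv Gammaℝ s / Gammaℝ s := by
    funext s
    rfl
  rw [h]
  exact (measurable_deriv _).div E1_GR

private theorem E1_VV (T : ℝ) : Measurable (VV T) := by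
  have h : VV T = fun s => riemannZeta s * (1 / 2 + psiR s / (Real.log T : ℝ)) +
      deriv riemannZeta s / (Real.log T : ℝ) := by
    funext s
    rfl
  rw [h]
  exact (E1_zeta.mul (measurable_const.add (E1_psiR.div measurable_const))).add
    ((measurable_deriv _).div measurable_const)

private theorem E1_ch : Measurable ch := by
  have h : ch = fun s => Gammaℝ (1 - s) / Gammaℝ s := by
    funext s
    rfl
  rw [h]
  exact (E1_GR.comp (measurable_const.sub measurable_id)).div E1_GR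

private theorem E1_nC (n : ℕ) : Measurable (fun s : ℂ => nC s n) := by
  rcases eq_or_ne n 0 with rfl | hn
  · simp only [map_zero]
    exact measurable_const
  · have h1 : (fun s : ℂ => nC s n) = fun s => (n : ℂ) ^ (-s) := by
      funext s
      exact nC_apply s hn
    rw [h1]
    have h2 : Continuous (fun s : ℂ => (n : ℂ) ^ (-s)) :=
      Continuous.const_cpow continuous_neg (Or.inl (Nat.cast_ne_zero.mpr hn))
    exact h2.measurable

private theorem E1_MO (T : ℝ) : Measurable (fun s : ℂ => MO 0 T (nC s)) := by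
  unfold MO
  exact Finset.measurable_sum _ fun n _ => measurable_const.mul (E1_nC n)

private theorem E1_ne {S : BS} {Ct θ D1 : ℝ} {N0 : ℕ} (hS : TG S Ct θ D1 N0) :
    ∀ j ≤ S.J, ∀ p ∈ S.R j, p ≠ 0 := fun j hj p hp => (hS.prime j hj p hp).1.ne_zero

theorem Gz_meas {S : BS} {Ct θ D1 : ℝ} {N0 : ℕ} (hS : TG S Ct θ D1 N0) (δ : ℝ) :
    Measurable (fun q : ℝ × ℂ => Gz S δ q.1 q.2) ∧ Measurable (fun q : ℝ × ℂ => Vd S δ q.1 q.2) ∧
    Measurable (fun q : ℝ × ℂ => VV S.T (pt S.T q.1 q.2)) ∧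
    Measurable (fun q : ℝ × ℂ => MO 0 S.T (nC (pt S.T q.1 q.2))) := by
  have hV : Measurable (fun q : ℝ × ℂ => VV S.T (pt S.T q.1 q.2)) := (E1_VV S.T).comp (E1_pt S)
  have hM : Measurable (fun q : ℝ × ℂ => MO 0 S.T (nC (pt S.T q.1 q.2))) := (E1_MO S.T).comp (E1_pt S)
  have hc : Measurable (fun q : ℝ × ℂ => ch (pt S.T q.1 q.2)) := E1_ch.comp (E1_pt S)
  have hx : Measurable (fun q : ℝ × ℂ => ((δ ^ 2 * Real.exp (2 * x0 S q.1) : ℝ) : ℂ)) := by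
    have h1 : Measurable (x0 S) := (x0_continuous S (E1_ne hS)).measurable
    have h2 : Measurable (fun q : ℝ × ℂ => x0 S q.1) := h1.comp measurable_fst
    exact Complex.measurable_ofReal.comp (measurable_const.mul (Real.measurable_exp.comp
      (measurable_const.mul h2)))
  have hVd : Measurable (fun q : ℝ × ℂ => Vd S δ q.1 q.2) := by
    unfold Vd
    exact (hV.pow_const 2).add (hx.mul hc)
  refine ⟨?_, hVd, hV, hM⟩
  unfold Gz
  exact hVd.mul (hM.pow_const 2)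

/-- The second part of `G`. -/
private noncomputable def E1_e (S : BS) (δ t : ℝ) (z : ℂ) : ℂ :=
  (δ ^ 2 * Real.exp (2 * x0 S t) : ℝ) * ch (pt S.T t z) * MO 0 S.T (nC (pt S.T t z)) ^ 2

private theorem E1_eq (S : BS) (δ t : ℝ) (z : ℂ) : Gz S δ t z = Fz S t z ^ 2 + E1_e S δ t z := by
  unfold Gz Fz Vd E1_e
  ring

private theorem E1_norm (S : BS) (δ t : ℝ) (z : ℂ) : ‖E1_e S δ t z‖ =
    δ ^ 2 * (Real.exp (2 * x0 S t) * ‖ch (pt S.T t z)‖ * ‖MO 0 S.T (nC (pt S.T t z))‖ ^ 2) := by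
  unfold E1_e
  rw [norm_mul, norm_mul, norm_pow, Complex.norm_real, Real.norm_of_nonneg (by positivity)]
  ring

private theorem E1_log {x A : ℝ} (hx : 0 ≤ x) (hA : 1 ≤ A) :
    max 0 (Real.log x) ^ 2 ≤ 2 * Real.log A ^ 2 + 8 * (x / A) := by
  have hA0 : 0 < A := by linarith
  have hlA : 0 ≤ Real.log A := Real.log_nonneg hA
  have hxA : 0 ≤ x / A := by positivity
  rcases le_or_gt x A with h | h
  · have h1 : max 0 (Real.log x) ≤ Real.log A := by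
      refine max_le hlA ?_
      rcases hx.eq_or_lt with h0 | h0
      · rw [← h0, Real.log_zero]
        exact hlA
      · exact Real.log_le_log h0 h
    have h2 : max 0 (Real.log x) ^ 2 ≤ Real.log A ^ 2 := pow_le_pow_left₀ (le_max_left _ _) h1 2
    nlinarith
  · have hx1 : 1 ≤ x := by linarith
    have hlx : 0 ≤ Real.log x := Real.log_nonneg hx1
    rw [max_eq_right hlx]
    set y := x / A with hy
    have hy1 : 1 ≤ y := by
      rw [hy, le_div_iff₀ hA0]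
      linarith
    have hy0 : 0 < y := by linarith
    have e1 : Real.log x = Real.log A + Real.log y := by
      rw [← Real.log_mul hA0.ne' hy0.ne', hy]
      congr 1
      field_simp
    have hsq : 0 < Real.sqrt y := Real.sqrt_pos.2 hy0
    have e2 : Real.log y ≤ 2 * Real.sqrt y := by
      have h1 := Real.log_le_sub_one_of_pos hsq
      have h2 : Real.log y = 2 * Real.log (Real.sqrt y) := by
        rw [Real.log_sqrt hy0.le]
        ring
      linarith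
    have hly : 0 ≤ Real.log y := Real.log_nonneg hy1
    have e3 : Real.log y ^ 2 ≤ 4 * y := by
      calc Real.log y ^ 2 ≤ (2 * Real.sqrt y) ^ 2 := pow_le_pow_left₀ hly e2 2
        _ = 4 * y := by rw [mul_pow, Real.sq_sqrt hy0.le]; ring
    rw [e1]
    nlinarith [sq_nonneg (Real.log A - Real.log y)]

private theorem E1_a {E D : Set ℝ} (hED : E ⊆ D) {F e G : ℝ → ℂ} {u : ℝ → ℝ} (hG : ∀ t, G t = F t ^ 2 + e t)
    (me : Measurable e) (mu : Measurable u) (hu : ∀ t, 0 ≤ u t) {c3 ce : ℝ} (h3 : 0 ≤ c3) (he : 0 ≤ ce)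
    (B3 : ∫⁻ t in D, ENNReal.ofReal (‖F t ^ 2 - 1‖ * u t) ≤ ENNReal.ofReal c3)
    (Be : ∫⁻ t in E, ENNReal.ofReal (‖e t‖ * u t) ≤ ENNReal.ofReal ce) :
    ∫⁻ t in E, ENNReal.ofReal (‖G t - 1‖ * u t) ≤ ENNReal.ofReal (c3 + ce) := by
  calc ∫⁻ t in E, ENNReal.ofReal (‖G t - 1‖ * u t)
      ≤ ∫⁻ t in E, (ENNReal.ofReal (‖F t ^ 2 - 1‖ * u t) + ENNReal.ofReal (‖e t‖ * u t)) := by
        refine lintegral_mono fun t => ?_
        rw [← ENNReal.ofReal_add (mul_nonneg (norm_nonneg _) (hu t))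
          (mul_nonneg (norm_nonneg _) (hu t)), ← add_mul]
        refine ENNReal.ofReal_le_ofReal (mul_le_mul_of_nonneg_right ?_ (hu t))
        rw [hG, add_sub_right_comm]
        exact norm_add_le _ _
    _ = (∫⁻ t in E, ENNReal.ofReal (‖F t ^ 2 - 1‖ * u t)) +
          ∫⁻ t in E, ENNReal.ofReal (‖e t‖ * u t) :=
        lintegral_add_right _ (me.norm.mul mu).ennreal_ofReal
    _ ≤ ENNReal.ofReal c3 + ENNReal.ofReal ce := add_le_add ((lintegral_mono_set hED).trans B3) Be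
    _ = ENNReal.ofReal (c3 + ce) := (ENNReal.ofReal_add h3 he).symm

private theorem E1_b {E D : Set ℝ} (hED : E ⊆ D) {F e G : ℝ → ℂ} {u : ℝ → ℝ} (hG : ∀ t, G t = F t ^ 2 + e t)
    (me : Measurable e) (mu : Measurable u) (hu : ∀ t, 0 ≤ u t) {c2 ce : ℝ} (h2 : 0 ≤ c2) (he : 0 ≤ ce)
    (B2 : ∫⁻ t in {t | t ∈ D ∧ 1 / 5 < ‖F t - 1‖}, ENNReal.ofReal (u t) ≤ ENNReal.ofReal c2)
    (Be : ∫⁻ t in E, ENNReal.ofReal (‖e t‖ * u t) ≤ ENNReal.ofReal ce) :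
    ∫⁻ t in {t | t ∈ E ∧ 1 / 2 < ‖G t - 1‖}, ENNReal.ofReal (u t) ≤
      ENNReal.ofReal (c2 + 50 / 3 * ce) := by
  have hsub : {t | t ∈ E ∧ 1 / 2 < ‖G t - 1‖} ⊆ {t | t ∈ D ∧ 1 / 5 < ‖F t - 1‖} ∪
      (E ∩ {t | 3 / 50 < ‖e t‖}) := by
    rintro t ⟨ht, hg⟩
    by_cases hF : 1 / 5 < ‖F t - 1‖
    · exact Or.inl ⟨hED ht, hF⟩
    · right
      refine ⟨ht, ?_⟩
      rw [not_lt] at hF
      rw [Set.mem_ofPred_eq]
      have e1 : ‖F t ^ 2 - 1‖ ≤ 11 / 25 := by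
        have e2 : F t ^ 2 - 1 = (F t - 1) * ((F t - 1) + 2) := by ring
        rw [e2, norm_mul]
        have e3 := norm_add_le (F t - 1) 2
        rw [Complex.norm_ofNat] at e3
        have e4 := norm_nonneg (F t - 1)
        nlinarith
      have e5 : ‖G t - 1‖ ≤ ‖F t ^ 2 - 1‖ + ‖e t‖ := by
        rw [hG, add_sub_right_comm]
        exact norm_add_le _ _
      linarith
  have Bc : ∫⁻ t in E ∩ {t | 3 / 50 < ‖e t‖}, ENNReal.ofReal (u t) ≤
      ENNReal.ofReal (50 / 3 * ce) := by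
    calc ∫⁻ t in E ∩ {t | 3 / 50 < ‖e t‖}, ENNReal.ofReal (u t)
        ≤ ∫⁻ t in E ∩ {t | 3 / 50 < ‖e t‖},
            ENNReal.ofReal (50 / 3) * ENNReal.ofReal (‖e t‖ * u t) := by
          refine setLIntegral_mono ((me.norm.mul mu).ennreal_ofReal.const_mul _) ?_
          rintro t ⟨-, ht⟩
          rw [Set.mem_ofPred_eq] at ht
          rw [← ENNReal.ofReal_mul (by norm_num)]
          refine ENNReal.ofReal_le_ofReal ?_
          have := hu t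
          nlinarith
      _ ≤ ∫⁻ t in E, ENNReal.ofReal (50 / 3) * ENNReal.ofReal (‖e t‖ * u t) :=
          lintegral_mono_set Set.inter_subset_left
      _ = ENNReal.ofReal (50 / 3) * ∫⁻ t in E, ENNReal.ofReal (‖e t‖ * u t) :=
          lintegral_const_mul' _ _ ENNReal.ofReal_ne_top
      _ ≤ ENNReal.ofReal (50 / 3) * ENNReal.ofReal ce := mul_le_mul_right Be _
      _ = ENNReal.ofReal (50 / 3 * ce) := (ENNReal.ofReal_mul (by norm_num)).symm
  calc ∫⁻ t in {t | t ∈ E ∧ 1 / 2 < ‖G t - 1‖}, ENNReal.ofReal (u t)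
      ≤ ∫⁻ t in {t | t ∈ D ∧ 1 / 5 < ‖F t - 1‖} ∪ (E ∩ {t | 3 / 50 < ‖e t‖}),
          ENNReal.ofReal (u t) := lintegral_mono_set hsub
    _ ≤ (∫⁻ t in {t | t ∈ D ∧ 1 / 5 < ‖F t - 1‖}, ENNReal.ofReal (u t)) +
        ∫⁻ t in E ∩ {t | 3 / 50 < ‖e t‖}, ENNReal.ofReal (u t) := lintegral_union_le _ _ _
    _ ≤ ENNReal.ofReal c2 + ENNReal.ofReal (50 / 3 * ce) := add_le_add B2 Bc
    _ = ENNReal.ofReal (c2 + 50 / 3 * ce) := (ENNReal.ofReal_add h2 (by positivity)).symm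

private theorem E1_c {E : Set ℝ} {G : ℝ → ℂ} {u : ℝ → ℝ} (mu : Measurable u) (hu : ∀ t, 0 ≤ u t)
    {c1 cm A : ℝ} (h1 : 0 ≤ c1) (hm : 0 ≤ cm) (hA : 1 ≤ A)
    (Bm : ∫⁻ t in E, ENNReal.ofReal (u t) ≤ ENNReal.ofReal cm)
    (B1 : ∫⁻ t in E, ENNReal.ofReal (‖G t - 1‖ * u t) ≤ ENNReal.ofReal c1) :
    ∫⁻ t in E, ENNReal.ofReal (max 0 (Real.log ‖G t‖) ^ 2 * u t) ≤
      ENNReal.ofReal ((2 * Real.log A ^ 2 + 8 / A) * cm + 8 / A * c1) := by
  have hA0 : 0 < A := by linarith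
  have k1 : (0 : ℝ) ≤ 2 * Real.log A ^ 2 + 8 / A := by positivity
  have k2 : (0 : ℝ) ≤ 8 / A := by positivity
  calc ∫⁻ t in E, ENNReal.ofReal (max 0 (Real.log ‖G t‖) ^ 2 * u t)
      ≤ ∫⁻ t in E, (ENNReal.ofReal (2 * Real.log A ^ 2 + 8 / A) * ENNReal.ofReal (u t) +
          ENNReal.ofReal (8 / A) * ENNReal.ofReal (‖G t - 1‖ * u t)) := by
        refine lintegral_mono fun t => ?_
        rw [← ENNReal.ofReal_mul k1, ← ENNReal.ofReal_mul k2, ← ENNReal.ofReal_add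
          (mul_nonneg k1 (hu t)) (mul_nonneg k2 (mul_nonneg (norm_nonneg _) (hu t)))]
        refine ENNReal.ofReal_le_ofReal ?_
        have e1 := E1_log (norm_nonneg (G t)) hA
        have e2 : ‖G t‖ ≤ 1 + ‖G t - 1‖ := by
          have := norm_add_le (1 : ℂ) (G t - 1)
          rw [norm_one, add_sub_cancel] at this
          exact this
        have e3 : 8 * (‖G t‖ / A) ≤ 8 / A * (1 + ‖G t - 1‖) := by
          calc 8 * (‖G t‖ / A) = 8 / A * ‖G t‖ := by ring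
            _ ≤ 8 / A * (1 + ‖G t - 1‖) := mul_le_mul_of_nonneg_left e2 k2
        have e4 : max 0 (Real.log ‖G t‖) ^ 2 ≤
            (2 * Real.log A ^ 2 + 8 / A) + 8 / A * ‖G t - 1‖ := by linarith
        calc max 0 (Real.log ‖G t‖) ^ 2 * u t
            ≤ ((2 * Real.log A ^ 2 + 8 / A) + 8 / A * ‖G t - 1‖) * u t :=
              mul_le_mul_of_nonneg_right e4 (hu t)
          _ = (2 * Real.log A ^ 2 + 8 / A) * u t + 8 / A * (‖G t - 1‖ * u t) := by ring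
    _ = ENNReal.ofReal (2 * Real.log A ^ 2 + 8 / A) * (∫⁻ t in E, ENNReal.ofReal (u t)) +
          ENNReal.ofReal (8 / A) * ∫⁻ t in E, ENNReal.ofReal (‖G t - 1‖ * u t) := by
        rw [lintegral_add_left (mu.ennreal_ofReal.const_mul _),
          lintegral_const_mul' _ _ ENNReal.ofReal_ne_top,
          lintegral_const_mul' _ _ ENNReal.ofReal_ne_top]
    _ ≤ ENNReal.ofReal (2 * Real.log A ^ 2 + 8 / A) * ENNReal.ofReal cm +
          ENNReal.ofReal (8 / A) * ENNReal.ofReal c1 :=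
        add_le_add (mul_le_mul_right Bm _) (mul_le_mul_right B1 _)
    _ = ENNReal.ofReal ((2 * Real.log A ^ 2 + 8 / A) * cm + 8 / A * c1) := by
        rw [← ENNReal.ofReal_mul k1, ← ENNReal.ofReal_mul k2, ← ENNReal.ofReal_add
          (mul_nonneg k1 hm) (mul_nonneg k2 h1)]

private theorem E1_r1 {K2 K3 K4 Km r Q W : ℝ} (h2 : 1 ≤ K2) (h3 : 1 ≤ K3) (h4 : 1 ≤ K4) (hm : 1 ≤ Km)
    (hr : 0 ≤ r) (hQ : 0 ≤ Q) (hW : 0 ≤ W) :
    K3 * r * W + K4 * Q * W ≤ 20 * (K2 + K3 + K4 + Km) * (r + Q) * W := by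
  have e2 : K3 * r * W + K4 * Q * W = (K3 * r + K4 * Q) * W := by ring
  rw [e2]
  refine mul_le_mul_of_nonneg_right ?_ hW
  have s1 : K3 * r ≤ 20 * (K2 + K3 + K4 + Km) * r := mul_le_mul_of_nonneg_right (by linarith) hr
  have s2 : K4 * Q ≤ 20 * (K2 + K3 + K4 + Km) * Q := mul_le_mul_of_nonneg_right (by linarith) hQ
  linarith

private theorem E1_r2 {K2 K3 K4 Km r Q W : ℝ} (h2 : 1 ≤ K2) (h3 : 1 ≤ K3) (h4 : 1 ≤ K4) (hm : 1 ≤ Km)
    (hr : 0 ≤ r) (hQ : 0 ≤ Q) (hW : 0 ≤ W) :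
    K2 * r * W + 50 / 3 * (K4 * Q * W) ≤ 20 * (K2 + K3 + K4 + Km) * (r + Q) * W := by
  have e2 : K2 * r * W + 50 / 3 * (K4 * Q * W) = (K2 * r + 50 / 3 * K4 * Q) * W := by ring
  rw [e2]
  refine mul_le_mul_of_nonneg_right ?_ hW
  have s1 : K2 * r ≤ 20 * (K2 + K3 + K4 + Km) * r := mul_le_mul_of_nonneg_right (by linarith) hr
  have s2 : 50 / 3 * K4 * Q ≤ 20 * (K2 + K3 + K4 + Km) * Q :=
    mul_le_mul_of_nonneg_right (by linarith) hQ
  linarith

private theorem E1_r3 {K2 K3 K4 Km r Q W A l : ℝ} (h2 : 1 ≤ K2) (h3 : 1 ≤ K3) (h4 : 1 ≤ K4)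
    (hm : 1 ≤ Km) (hr2 : r ≤ 2) (hQA : Q ≤ A) (hW : 0 ≤ W) (hA : 1 ≤ A)
    (hl : 0 ≤ l) :
    (2 * l ^ 2 + 8 / A) * (Km * W) + 8 / A * (K3 * r * W + K4 * Q * W) ≤
      20 * (K2 + K3 + K4 + Km) * (1 + l) ^ 2 * W := by
  have hA0 : 0 < A := by linarith
  have k2 : (0 : ℝ) ≤ 8 / A := by positivity
  have e1 : (2 * l ^ 2 + 8 / A) * (Km * W) + 8 / A * (K3 * r * W + K4 * Q * W) =
      ((2 * l ^ 2 + 8 / A) * Km + 8 / A * (K3 * r + K4 * Q)) * W := by ring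
  rw [e1]
  refine mul_le_mul_of_nonneg_right ?_ hW
  have r2 : 8 / A ≤ 8 := by
    rw [div_le_iff₀ hA0]
    linarith
  have r3 : 8 / A * (K3 * r + K4 * Q) ≤ 16 * K3 + 8 * K4 := by
    have s1 : K3 * r ≤ K3 * 2 := mul_le_mul_of_nonneg_left hr2 (by linarith)
    have s2 : K4 * Q ≤ K4 * A := mul_le_mul_of_nonneg_left hQA (by linarith)
    calc 8 / A * (K3 * r + K4 * Q) ≤ 8 / A * (K3 * 2 + K4 * A) :=
          mul_le_mul_of_nonneg_left (by linarith) k2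
      _ = 8 / A * (K3 * 2) + 8 * K4 := by field_simp
      _ ≤ 8 * (K3 * 2) + 8 * K4 := by
          have := mul_le_mul_of_nonneg_right r2 (show (0 : ℝ) ≤ K3 * 2 by linarith)
          linarith
      _ = 16 * K3 + 8 * K4 := by ring
  have r4 : (2 * l ^ 2 + 8 / A) * Km ≤ (2 * l ^ 2 + 8) * Km :=
    mul_le_mul_of_nonneg_right (by linarith) (by linarith)
  have r5 : 0 ≤ l * (K2 + K3 + K4 + Km) := mul_nonneg hl (by linarith)
  have r6 : 0 ≤ l ^ 2 * (K2 + K3 + K4) := mul_nonneg (sq_nonneg _) (by linarith)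
  have r7 : 0 ≤ l ^ 2 * Km := mul_nonneg (sq_nonneg _) (by linarith)
  have e3 : 20 * (K2 + K3 + K4 + Km) * (1 + l) ^ 2 = 20 * (K2 + K3 + K4 + Km) +
      40 * (l * (K2 + K3 + K4 + Km)) + 20 * (l ^ 2 * (K2 + K3 + K4)) + 20 * (l ^ 2 * Km) := by ring
  have e4 : (2 * l ^ 2 + 8) * Km = 2 * (l ^ 2 * Km) + 8 * Km := by ring
  rw [e3]
  linarith

private theorem E1_sl {f : ℝ × ℂ → ℂ} (hf : Measurable f) (z : ℂ) : Measurable (fun t : ℝ => f (t, z)) :=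
  hf.comp (measurable_id.prodMk measurable_const)

private theorem E1_meas {S : BS} {Ct θ D1 : ℝ} {N0 : ℕ} (hS : TG S Ct θ D1 N0) (δ : ℝ) (z : ℂ) :
    Measurable (fun t : ℝ => E1_e S δ t z) := by
  have mGt : Measurable (fun t : ℝ => Gz S δ t z) := E1_sl (Gz_meas hS δ).1 z
  have mVt : Measurable (fun t : ℝ => VV S.T (pt S.T t z)) := E1_sl (Gz_meas hS δ).2.2.1 z
  have mMt : Measurable (fun t : ℝ => MO 0 S.T (nC (pt S.T t z))) := E1_sl (Gz_meas hS δ).2.2.2 z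
  have mF : Measurable (fun t : ℝ => Fz S t z) := by
    unfold Fz
    exact mVt.mul mMt
  have h3 : (fun t : ℝ => E1_e S δ t z) = fun t => Gz S δ t z - Fz S t z ^ 2 := by
    funext t
    rw [E1_eq]
    ring
  rw [h3]
  exact mGt.sub (mF.pow_const 2)

private theorem E1_Be {S : BS} {E : Set ℝ} {lam δ K : ℝ} {z : ℂ}
    (B4 : ∫⁻ t in E, ENNReal.ofReal (Real.exp (2 * x0 S t) * ‖ch (pt S.T t z)‖ *
      ‖MO 0 S.T (nC (pt S.T t z))‖ ^ 2 * uu S lam t) ≤ ENNReal.ofReal K) :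
    ∫⁻ t in E, ENNReal.ofReal (‖E1_e S δ t z‖ * uu S lam t) ≤ ENNReal.ofReal (δ ^ 2 * K) := by
  have e1 : ∀ t, ENNReal.ofReal (‖E1_e S δ t z‖ * uu S lam t) = ENNReal.ofReal (δ ^ 2) *
      ENNReal.ofReal (Real.exp (2 * x0 S t) * ‖ch (pt S.T t z)‖ *
        ‖MO 0 S.T (nC (pt S.T t z))‖ ^ 2 * uu S lam t) := by
    intro t
    rw [← ENNReal.ofReal_mul (sq_nonneg δ), E1_norm]
    congr 1
    ring
  calc ∫⁻ t in E, ENNReal.ofReal (‖E1_e S δ t z‖ * uu S lam t)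
      = ∫⁻ t in E, ENNReal.ofReal (δ ^ 2) *
          ENNReal.ofReal (Real.exp (2 * x0 S t) * ‖ch (pt S.T t z)‖ *
          ‖MO 0 S.T (nC (pt S.T t z))‖ ^ 2 * uu S lam t) := lintegral_congr e1
    _ = ENNReal.ofReal (δ ^ 2) * ∫⁻ t in E,
          ENNReal.ofReal (Real.exp (2 * x0 S t) * ‖ch (pt S.T t z)‖ *
          ‖MO 0 S.T (nC (pt S.T t z))‖ ^ 2 * uu S lam t) :=
        lintegral_const_mul' _ _ ENNReal.ofReal_ne_top
    _ ≤ ENNReal.ofReal (δ ^ 2) * ENNReal.ofReal K := mul_le_mul_right B4 _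
    _ = ENNReal.ofReal (δ ^ 2 * K) := (ENNReal.ofReal_mul (sq_nonneg δ)).symm

theorem GB (lam η : ℝ) (h0 : 0 < lam) (h1 : 0 < η) (h2 : η ≤ 1) : ∃ (C0 K : ℝ) (k : ℕ), 1 ≤ K ∧
    ∀ {Ct θ D1 : ℝ} {N0 : ℕ}, C0 ≤ Ct → ∃ T0 : ℝ, ∀ {S : BS}, TG S Ct θ D1 N0 → T0 ≤ S.T →
    ∀ δ : ℝ, 0 ≤ δ → δ ≤ 1 →
    ∀ z : ℂ, -(17 / 10) ≤ z.re → z.re ≤ 15 * Real.log S.T → |z.im| ≤ 15 * Real.log S.T →
    (∫⁻ t in EE S lam η, ENNReal.ofReal (‖Gz S δ t z - 1‖ * uu S lam t) ≤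
      ENNReal.ofReal (K * (1 / (z.re + 11 / 5) + δ ^ 2 * Real.exp (D1 + 5 * Real.log (1 / θ)) *
        (1 + ‖z‖) ^ k * Real.exp (-(z.re / 2))) * (S.T * Lam S lam))) ∧
    (∫⁻ t in {t | t ∈ EE S lam η ∧ 1 / 2 < ‖Gz S δ t z - 1‖}, ENNReal.ofReal (uu S lam t) ≤
      ENNReal.ofReal (K * (1 / (z.re + 11 / 5) ^ 6 + δ ^ 2 *
        Real.exp (D1 + 5 * Real.log (1 / θ)) *
        (1 + ‖z‖) ^ k * Real.exp (-(z.re / 2))) * (S.T * Lam S lam))) ∧
    (∀ A : ℝ, 1 ≤ A → δ ^ 2 * Real.exp (D1 + 5 * Real.log (1 / θ)) *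
        (1 + ‖z‖) ^ k * Real.exp (-(z.re / 2)) ≤ A →
      ∫⁻ t in EE S lam η, ENNReal.ofReal (max 0 (Real.log ‖Gz S δ t z‖) ^ 2 * uu S lam t) ≤
        ENNReal.ofReal (K * (1 + Real.log A) ^ 2 * (S.T * Lam S lam))) := by
  obtain ⟨C3, K3, hK3, H3⟩ := PB3 lam η h0 h1 h2
  obtain ⟨C2, K2, hK2, H2⟩ := PB2 lam η h0 h1 h2
  obtain ⟨C4, K4, k, hK4, H4⟩ := XB4 lam η h0 h1 h2
  obtain ⟨Cm, Km, hKm, Hm⟩ := TMass lam η h0 h1 h2
  refine ⟨max (max C3 C2) (max C4 Cm), 20 * (K2 + K3 + K4 + Km), k, by linarith, ?_⟩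
  intro Ct θ D1 N0 hC
  obtain ⟨hC3, hC2⟩ := max_le_iff.1 ((le_max_left _ _).trans hC)
  obtain ⟨hC4, hCm⟩ := max_le_iff.1 ((le_max_right _ _).trans hC)
  obtain ⟨T3, H3⟩ := H3 (θ := θ) (D1 := D1) (N0 := N0) hC3
  obtain ⟨T2, H2⟩ := H2 (θ := θ) (D1 := D1) (N0 := N0) hC2
  obtain ⟨T4, H4⟩ := H4 (θ := θ) (D1 := D1) (N0 := N0) hC4
  obtain ⟨Tm, Hm⟩ := Hm (θ := θ) (D1 := D1) (N0 := N0) hCm
  refine ⟨max (max T3 T2) (max T4 Tm), ?_⟩
  intro S hS hT δ hδ0 hδ1 z hz1 hz2 hz3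
  obtain ⟨hT3, hT2⟩ := max_le_iff.1 ((le_max_left _ _).trans hT)
  obtain ⟨hT4, hTm⟩ := max_le_iff.1 ((le_max_right _ _).trans hT)
  have B3 := H3 hS hT3 z hz1 hz2 hz3
  have B2 := H2 hS hT2 z hz1 hz2 hz3
  have B4 := H4 hS hT4 z (by linarith) hz2 hz3
  have Bm := Hm hS hTm
  have Be := E1_Be (δ := δ) B4
  clear H3 H2 H4 Hm B4
  have hTpos : 0 < S.T := (Real.exp_pos 1000).trans_le hS.T_ge
  have hW0 : 0 < S.T * Lam S lam := mul_pos hTpos (Real.exp_pos _)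
  have hd : 1 / 2 ≤ z.re + 11 / 5 := by linarith
  have hu0 : ∀ t, 0 ≤ uu S lam t := fun t => sq_nonneg _
  have hum : Measurable (uu S lam) := (uu_continuous S lam (E1_ne hS)).measurable
  have hEE : EE S lam η ⊆ Dm η S.T := fun t ht => ht.1
  have me := E1_meas hS δ z
  have hQ0 : 0 ≤ δ ^ 2 * Real.exp (D1 + 5 * Real.log (1 / θ)) * (1 + ‖z‖) ^ k *
      Real.exp (-(z.re / 2)) := by positivity
  have e5 : δ ^ 2 * (K4 * Real.exp (D1 + 5 * Real.log (1 / θ)) * (1 + ‖z‖) ^ k *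
      Real.exp (-(z.re / 2)) * (S.T * Lam S lam)) = K4 * (δ ^ 2 *
      Real.exp (D1 + 5 * Real.log (1 / θ)) * (1 + ‖z‖) ^ k * Real.exp (-(z.re / 2))) *
      (S.T * Lam S lam) := by ring
  rw [e5] at Be
  generalize δ ^ 2 * Real.exp (D1 + 5 * Real.log (1 / θ)) * (1 + ‖z‖) ^ k *
      Real.exp (-(z.re / 2)) = Q at Be hQ0 ⊢
  generalize S.T * Lam S lam = W at B3 B2 Bm Be hW0 ⊢
  have e6 : K3 * W / (z.re + 11 / 5) = K3 * (1 / (z.re + 11 / 5)) * W := by ring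
  have e7 : K2 * W / (z.re + 11 / 5) ^ 6 = K2 * (1 / (z.re + 11 / 5) ^ 6) * W := by ring
  rw [e6] at B3
  rw [e7] at B2
  have r0 : 0 ≤ 1 / (z.re + 11 / 5) := one_div_nonneg.2 (by linarith)
  have r0' : 0 ≤ 1 / (z.re + 11 / 5) ^ 6 := one_div_nonneg.2 (pow_nonneg (by linarith) 6)
  have r2 : 1 / (z.re + 11 / 5) ≤ 2 := by
    rw [div_le_iff₀ (by linarith)]
    linarith
  generalize 1 / (z.re + 11 / 5) = r at B3 r0 r2 ⊢
  generalize 1 / (z.re + 11 / 5) ^ 6 = r' at B2 r0' ⊢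
  have p3 : 0 ≤ K3 * r * W := mul_nonneg (mul_nonneg (by linarith) r0) hW0.le
  have p2 : 0 ≤ K2 * r' * W := mul_nonneg (mul_nonneg (by linarith) r0') hW0.le
  have p4 : 0 ≤ K4 * Q * W := mul_nonneg (mul_nonneg (by linarith) hQ0) hW0.le
  have pm : 0 ≤ Km * W := mul_nonneg (by linarith) hW0.le
  have B1 := E1_a hEE (G := fun t => Gz S δ t z) (F := fun t => Fz S t z)
    (fun t => E1_eq S δ t z) me hum hu0 p3 p4 B3 Be
  refine ⟨B1.trans (ENNReal.ofReal_le_ofReal (E1_r1 hK2 hK3 hK4 hKm r0 hQ0 hW0.le)), ?_, ?_⟩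
  · have B5 := E1_b hEE (G := fun t => Gz S δ t z) (F := fun t => Fz S t z)
      (fun t => E1_eq S δ t z) me hum hu0 p2 p4 B2 Be
    exact B5.trans (ENNReal.ofReal_le_ofReal (E1_r2 hK2 hK3 hK4 hKm r0' hQ0 hW0.le))
  · intro A hA hQA
    have B6 := E1_c (G := fun t => Gz S δ t z) hum hu0 (add_nonneg p3 p4) pm hA
      ((lintegral_mono_set hEE).trans Bm) B1
    exact B6.trans (ENNReal.ofReal_le_ofReal
      (E1_r3 hK2 hK3 hK4 hKm r2 hQA hW0.le hA (Real.log_nonneg hA)))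

end Pool.Agent.LB
end
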