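import Pool.Agent.Lib.MP_69b2e4_nt.Mg.G040
import Pool.Agent.Lib.MP_69b2e4_nt.GH.RM1
import Pool.Agent.Lib.MP_69b2e4_nt.Mg.G041
import Pool.Agent.Lib.MP_69b2e4_nt.Mg.G038
import Pool.Agent.Lib.MP_69b2e4_nt.Mg.G049

section

/-! TASK BV. The quadratic form of `V` and of `V_c`.
By `Zt_parts` and the product structure of `V` (`f (nX z w)`: `PS (S.R j) (nX z w) = PX (S.R j) z w`), the integrand of `BF S.M S.V σ z` is a product over the blocks and `blocks_expect` applies. Blocks: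
small: `∫ ‖Zt R0 σ‖²` (`rm1` with `a = 0`, `l = 0`, `Ex 0 = 1`); coarse: `rm1` with `a = al`, `(1-2al)² = k²`; fine: `rm1` with `a = 1/2`, `(1-2a)² = 0`.
`BF_V_le`: `σ = 1/2-η/2`, `z = η/2` real, `δ = η/2`, `0 ≤ η ≤ 1/(θL)`; for `p < M` `log p ≤ log(T^θ+1) ≤ θL + 1`, so `δ log p ≤ 1`; `σ ≥ 1/4`. The sum of the errors:
`∑_{p<M} (p^{-3/2} + δ log p/p) ≤ 3 + (1/(2θL)) 2θL = 4` (`logp`). Small block: `sR R0 ≤ p0`, so it is at most a constant depending on `k, p0`. Coarse: `∏ (1 + 2^{-l_j} e^{C'(s_j+1)}) ≤ exp(∑) ≤ e` by `trunc` when `C ≥ C'` (`C'` of `rm1`).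
Fine: `1 + 2^{-lf} e^{C'(s_f+1)} ≤ 2` (`truncf`). Total `≤ C1 exp(k² ∑_j s_j) = C1 Lam`.
`BF_Vc_le`: `σ = 1/2`, `‖z‖ ≤ 5h`, `δ = 5h = 5θ^{-3}/L` on the small and coarse blocks: `δ log p ≤ 5 θ² ≤ 1`, `∑_j ∑_{R_j} δ log p/p ≤ 10 θ²` (`logc`); small block as before. Fine block: only `‖Zt Rf (1/2)‖²`: `rm1` with `a = 0`, `l = 0`, `δ = 0`: at most
`exp(s_f + C')(1 + exp(C'(s_f+1)))`, `s_f ≤ 5 log(1/θ)`: a constant depending on `θ, k`. The constant `C1` may depend on `θ`. -/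

set_option autoImplicit false

namespace Pool.Agent.GH

open Complex MeasureTheory Finset
open scoped Real ComplexConjugate

private theorem bv_Z : ∃ Z : ℝ, 0 ≤ Z ∧
    ∀ R : Finset ℕ, ∑ p ∈ R, (p : ℝ) ^ (-(3 / 2 : ℝ)) ≤ Z := by
  have hs : Summable (fun n : ℕ => (n : ℝ) ^ (-(3 / 2 : ℝ))) :=
    Real.summable_nat_rpow.2 (by norm_num)
  exact ⟨∑' n : ℕ, (n : ℝ) ^ (-(3 / 2 : ℝ)), tsum_nonneg fun n => by positivity,
    fun R => hs.sum_le_tsum R fun n _ => by positivity⟩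

private theorem bv_prod (n : ℕ) (f g x : ℕ → ℝ) (hf : ∀ j < n, 0 ≤ f j)
    (h : ∀ j < n, f j ≤ Real.exp (g j) * (1 + x j)) :
    ∏ j ∈ Finset.range n, f j ≤
      Real.exp (∑ j ∈ Finset.range n, g j + ∑ j ∈ Finset.range n, x j) := by
  rw [← Finset.sum_add_distrib, Real.exp_sum]
  refine Finset.prod_le_prod (fun j hj => hf j (Finset.mem_range.1 hj)) fun j hj => ?_
  refine (h j (Finset.mem_range.1 hj)).trans ?_
  rw [Real.exp_add]
  refine mul_le_mul_of_nonneg_left ?_ (Real.exp_pos _).le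
  rw [add_comm]
  exact Real.add_one_le_exp _

private theorem bv_Ex0 (x : ℂ) : Ex 0 x = 1 := by
  unfold Ex
  simp

private theorem bv_small : ∃ Cz : ℝ, 0 ≤ Cz ∧ ∀ (R : Finset ℕ) (σ δ s E : ℝ),
    (∀ p ∈ R, p.Prime) → 1 / 4 ≤ σ → |σ - 1 / 2| ≤ δ → (∀ p ∈ R, δ * Real.log p ≤ 1) →
    sR R ≤ s → eR R δ ≤ E →
    ∫ w, ‖Zt R σ w‖ ^ 2 ∂mu ≤ Real.exp (s + Cz * E) * (1 + Real.exp (Cz * (s + 1))) := by
  obtain ⟨Cz, hCz, h⟩ := rm1 0 le_rfl
  refine ⟨Cz, hCz, ?_⟩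
  intro R σ δ s E hR hσ1 hσ2 hδ hs hE
  have hδ0 : 0 ≤ δ := (abs_nonneg _).trans hσ2
  have h1 := h R 0 σ δ 0 0 hR hσ1 hσ2 (by rw [norm_zero]; exact hδ0) (by rw [norm_zero]; exact hδ0) hδ
  simp only [bv_Ex0, norm_one, one_pow, mul_one, pow_zero, one_mul, mul_zero, sub_zero] at h1
  refine h1.trans ?_
  have h2 : Real.exp (sR R + Cz * eR R δ) ≤ Real.exp (s + Cz * E) :=
    Real.exp_le_exp.2 (add_le_add hs (mul_le_mul_of_nonneg_left hE hCz))
  have h3 : Real.exp (Cz * (sR R + 1)) ≤ Real.exp (Cz * (s + 1)) :=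
    Real.exp_le_exp.2 (mul_le_mul_of_nonneg_left (by linarith) hCz)
  have h4 := Real.exp_pos (Cz * (sR R + 1))
  exact mul_le_mul h2 (by linarith) (by linarith) (Real.exp_pos _).le

private theorem bv_coarse (k : ℝ) (hk : 0 < k) : ∃ Ca : ℝ, 0 ≤ Ca ∧
    ∀ (S : Sys) (C c σ δ E : ℝ) (z : ℂ), S.k = k → Good S C c → Ca ≤ C → 1 / 4 ≤ σ →
    |σ - 1 / 2| ≤ δ → ‖z‖ ≤ δ → (∀ j ≤ S.J, ∀ p ∈ S.R j, δ * Real.log p ≤ 1) →
    ∑ j ∈ Finset.range (S.J + 1), eR (S.R j) δ ≤ E →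
    ∏ j ∈ Finset.range (S.J + 1), ∫ w, ‖Zt (S.R j) σ w‖ ^ 2 *
      ‖Ex (S.l j) (-S.al * PX (S.R j) (-z) w)‖ ^ 2 *
      ‖Ex (S.l j) (-S.al * PX (S.R j) (conj z) w)‖ ^ 2 ∂mu ≤ S.Lam * Real.exp (Ca * E + 1) := by
  obtain ⟨Ca, hCa, h⟩ := rm1 ((k + 1) / 2) (by positivity)
  refine ⟨Ca, hCa, ?_⟩
  intro S C c σ δ E z hSk hS hC hσ1 hσ2 hz hδ hE
  have hal : S.al = (k + 1) / 2 := by unfold Sys.al; rw [hSk]
  rw [hal]
  refine (bv_prod (S.J + 1) _ (fun j => k ^ 2 * sR (S.R j) + Ca * eR (S.R j) δ)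
    (fun j => (2 : ℝ)⁻¹ ^ (S.l j) * Real.exp (Ca * (sR (S.R j) + 1)))
    (fun j _ => integral_nonneg fun w => by positivity) fun j hj => ?_).trans ?_
  · have h1 := h (S.R j) (S.l j) σ δ (-z) (conj z) (fun p hp => (hS.prime j (by omega) p hp).1)
      hσ1 hσ2 (by rw [norm_neg]; exact hz) (by rw [RCLike.norm_conj]; exact hz)
      (hδ j (by omega))
    have h2 : (1 - 2 * ((k + 1) / 2)) ^ 2 = k ^ 2 := by ring
    rw [h2] at h1
    exact h1
  · rw [Finset.sum_add_distrib, ← Finset.mul_sum, ← Finset.mul_sum]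
    unfold Sys.Lam
    rw [hSk, ← Real.exp_add]
    apply Real.exp_le_exp.2
    have h3 : ∑ j ∈ Finset.range (S.J + 1), (2 : ℝ)⁻¹ ^ (S.l j) *
        Real.exp (Ca * (sR (S.R j) + 1)) ≤ 1 := by
      refine le_trans (Finset.sum_le_sum fun j _ => ?_) (hS.trunc.trans ?_)
      · refine mul_le_mul_of_nonneg_left (Real.exp_le_exp.2 ?_) (by positivity)
        have hs : 0 ≤ sR (S.R j) := Finset.sum_nonneg fun p _ => by positivity
        exact mul_le_mul_of_nonneg_right hC (by linarith)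
      · exact pow_le_one₀ hS.θ_pos.le (by linarith [hS.θ_le])
    have h4 := mul_le_mul_of_nonneg_left hE hCa
    linarith

private theorem bv_split {S : Sys} {C c : ℝ} (hS : Good S C c) {σ : ℝ} (hσ : 0 < σ) (z : ℂ)
    (gx : Om → ℝ) (hgx : Continuous gx)
    (hd : ∀ w w' : Om, (∀ p ∈ S.Rf, w p = w' p) → gx w = gx w') :
    ∫ w, ‖Zt (Nat.primesBelow S.M) σ w‖ ^ 2 * ‖S.Vc (nX (-z) w)‖ ^ 2 *
      ‖S.Vc (nX (conj z) w)‖ ^ 2 * gx w ∂mu =
    (∫ w, ‖Zt S.R0 σ w‖ ^ 2 ∂mu) * (∏ j ∈ Finset.range (S.J + 1), ∫ w, ‖Zt (S.R j) σ w‖ ^ 2 *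
      ‖Ex (S.l j) (-S.al * PX (S.R j) (-z) w)‖ ^ 2 *
      ‖Ex (S.l j) (-S.al * PX (S.R j) (conj z) w)‖ ^ 2 ∂mu) *
      ∫ w, ‖Zt S.Rf σ w‖ ^ 2 * gx w ∂mu := by
  have hR0 : ∀ p ∈ S.R0, p.Prime := fun p hp => by
    unfold Sys.R0 at hp
    exact (Nat.mem_primesBelow.1 (Finset.mem_filter.1 hp).1).2
  have hRf : ∀ p ∈ S.Rf, p.Prime := fun p hp => by
    unfold Sys.Rf at hp
    exact (Nat.mem_primesBelow.1 (Finset.mem_filter.1 hp).1).2
  have hRj : ∀ j ≤ S.J, ∀ p ∈ S.R j, p.Prime := fun j hj p hp => (hS.prime j hj p hp).1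
  have hc : ∀ j ≤ S.J, Continuous fun w => ‖Zt (S.R j) σ w‖ ^ 2 *
      ‖Ex (S.l j) (-S.al * PX (S.R j) (-z) w)‖ ^ 2 *
      ‖Ex (S.l j) (-S.al * PX (S.R j) (conj z) w)‖ ^ 2 := by
    intro j hj
    refine ((((continuous_Zt _ (hRj j hj) hσ).norm.pow 2).mul ?_).mul ?_)
    · exact (((continuous_Ex _).comp (continuous_const.mul (continuous_PX _ _))).norm.pow 2)
    · exact (((continuous_Ex _).comp (continuous_const.mul (continuous_PX _ _))).norm.pow 2)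
  rw [← blocks_expect hS (fun w => ‖Zt S.R0 σ w‖ ^ 2) (fun w => ‖Zt S.Rf σ w‖ ^ 2 * gx w)
    (fun j w => ‖Zt (S.R j) σ w‖ ^ 2 *
      ‖Ex (S.l j) (-S.al * PX (S.R j) (-z) w)‖ ^ 2 *
      ‖Ex (S.l j) (-S.al * PX (S.R j) (conj z) w)‖ ^ 2)
    ((continuous_Zt _ hR0 hσ).norm.pow 2).measurable
    (((continuous_Zt _ hRf hσ).norm.pow 2).mul hgx).measurable
    (fun j hj => (hc j hj).measurable)
    (fun w w' h => by rw [depends_Zt σ h])
    (fun w w' h => by rw [depends_Zt σ h, hd w w' h])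
    (fun j hj w w' h => by
      rw [depends_Zt σ h, depends_PX (hRj j hj) (-z) h, depends_PX (hRj j hj) (conj z) h])]
  refine integral_congr_ae (Filter.Eventually.of_forall fun w => ?_)
  have h1 : ∀ z : ℂ, ‖S.Vc (nX z w)‖ ^ 2 =
      ∏ j ∈ Finset.range (S.J + 1), ‖Ex (S.l j) (-S.al * PX (S.R j) z w)‖ ^ 2 := by
    intro z
    unfold Sys.Vc
    rw [norm_prod, ← Finset.prod_pow]
    rfl
  beta_reduce
  rw [h1, h1, Zt_parts hS, norm_mul, norm_mul, norm_prod, mul_pow, mul_pow, ← Finset.prod_pow,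
    Finset.prod_mul_distrib, Finset.prod_mul_distrib]
  ring

private theorem bv_prime_lt {S : Sys} {C c : ℝ} (hS : Good S C c) {p : ℕ} (hp0 : 0 < p)
    (hp : p < S.M) : Real.log p ≤ S.θ * S.L := by
  have hT : 0 < S.T := lt_of_lt_of_le one_pos hS.T_ge
  have h1 : p ≤ ⌊S.T ^ S.θ⌋₊ := by
    unfold Sys.M Mof at hp
    omega
  have h2 : (p : ℝ) ≤ S.T ^ S.θ := (Nat.cast_le.2 h1).trans (Nat.floor_le (by positivity))
  have h3 := Real.log_le_log (by exact_mod_cast hp0) h2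
  rw [Real.log_rpow hT] at h3
  exact h3

private theorem bv_L {S : Sys} {C c : ℝ} (hS : Good S C c) : 1000 ≤ S.θ * S.L := by
  have h1 : S.θ ^ 9 ≤ (1 / 100) ^ 9 := pow_le_pow_left₀ hS.θ_pos.le hS.θ_le 9
  have h2 : 0 < S.θ ^ 9 := pow_pos hS.θ_pos 9
  have hθ := hS.θ_pos
  calc (1000 : ℝ) ≤ 1 / S.θ ^ 9 := by
        rw [le_div_iff₀ h2]
        calc 1000 * S.θ ^ 9 ≤ 1000 * (1 / 100) ^ 9 := mul_le_mul_of_nonneg_left h1 (by norm_num)
          _ ≤ 1 := by norm_num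
    _ = S.θ * (1 / S.θ ^ 10) := by field_simp
    _ ≤ S.θ * S.L := mul_le_mul_of_nonneg_left hS.L_ge hθ.le

private theorem bv_sR0 {S : Sys} : sR S.R0 ≤ S.p0 := by
  have h1 : S.R0 ⊆ Finset.Icc 1 S.p0 := by
    intro p hp
    unfold Sys.R0 at hp
    rw [Finset.mem_filter] at hp
    rw [Finset.mem_Icc]
    exact ⟨(Nat.mem_primesBelow.1 hp.1).2.one_le, hp.2⟩
  calc sR S.R0 ≤ ∑ p ∈ S.R0, (1 : ℝ) := by
        unfold sR
        refine Finset.sum_le_sum fun p hp => ?_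
        have h2 := (Finset.mem_Icc.1 (h1 hp)).1
        have h3 : (1 : ℝ) ≤ p := by exact_mod_cast h2
        rw [div_le_one (by linarith)]
        exact h3
    _ = (S.R0.card : ℝ) := by simp
    _ ≤ S.p0 := by
        have h2 := Finset.card_le_card h1
        rw [Nat.card_Icc, Nat.add_sub_cancel] at h2
        exact_mod_cast h2

private theorem bv_eR_nonneg {R : Finset ℕ} (hR : ∀ p ∈ R, p.Prime) {δ : ℝ} (hδ : 0 ≤ δ) :
    0 ≤ eR R δ := Finset.sum_nonneg fun p hp => by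
  have hlog : 0 ≤ Real.log p := Real.log_nonneg (by exact_mod_cast (hR p hp).one_le)
  positivity

theorem BF_V_le (k : ℝ) (p0 : ℕ) : ∃ C0 C1 : ℝ, 0 < C1 ∧ ∀ (S : Sys) (C c η : ℝ), S.k = k → S.p0 = p0 →
    Good S C c → C0 ≤ C → 0 ≤ η → η ≤ 1 / (S.θ * S.L) →
    BF S.M S.V (1 / 2 - η / 2) ((η / 2 : ℝ) : ℂ) ≤ C1 * S.Lam := by
  by_cases hk : 0 < k
  swap
  · exact ⟨0, 1, one_pos, fun S C c η h1 _ h3 => absurd (h1 ▸ h3.k_pos) hk⟩
  obtain ⟨Z, hZ0, hZ⟩ := bv_Z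
  obtain ⟨Cz, hCz, hsmall⟩ := bv_small
  obtain ⟨Ca, hCa, hcoarse⟩ := bv_coarse k hk
  obtain ⟨Ch, hCh, hfine⟩ := rm1 (1 / 2) (by norm_num)
  refine ⟨max Ca Ch, (Real.exp ((p0 : ℝ) + Cz * (Z + 1)) * (1 + Real.exp (Cz * (p0 + 1)))) *
    Real.exp (Ca * (Z + 1) + 1) * (Real.exp (Ch * (Z + 1)) * 2), by positivity, ?_⟩
  intro S C c η hSk hSp hS hC hη0 hη1
  have hθL := bv_L hS
  have hη2 : η ≤ 1 / 1000 := hη1.trans (one_div_le_one_div_of_le (by norm_num) hθL)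
  have hσ1 : (1 : ℝ) / 4 ≤ 1 / 2 - η / 2 := by linarith
  have hσ2 : |1 / 2 - η / 2 - 1 / 2| ≤ η / 2 := by
    rw [show (1 : ℝ) / 2 - η / 2 - 1 / 2 = -(η / 2) by ring, abs_neg, abs_of_nonneg (by positivity)]
  have hδ0 : 0 ≤ η / 2 := by positivity
  have hzn : ‖((η / 2 : ℝ) : ℂ)‖ ≤ η / 2 := by
    rw [Complex.norm_real, Real.norm_of_nonneg hδ0]
  have hδlog : ∀ p : ℕ, 0 < p → p < S.M → η / 2 * Real.log p ≤ 1 := by
    intro p hp0 hp
    have h1 := bv_prime_lt hS hp0 hp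
    calc η / 2 * Real.log p ≤ η / 2 * (S.θ * S.L) := mul_le_mul_of_nonneg_left h1 hδ0
      _ ≤ (1 / (S.θ * S.L)) / 2 * (S.θ * S.L) := by
          refine mul_le_mul_of_nonneg_right ?_ (by linarith)
          linarith
      _ = 1 / 2 := by
          have hx0 : S.θ * S.L ≠ 0 := by linarith
          generalize S.θ * S.L = x at hx0 ⊢
          field_simp
      _ ≤ 1 := by norm_num
  have hmem0 : ∀ p ∈ S.R0, p.Prime ∧ p < S.M := fun p hp => by
    unfold Sys.R0 at hp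
    have := Nat.mem_primesBelow.1 (Finset.mem_filter.1 hp).1
    exact ⟨this.2, this.1⟩
  have hmemf : ∀ p ∈ S.Rf, p.Prime ∧ p < S.M := fun p hp => by
    unfold Sys.Rf at hp
    have := Nat.mem_primesBelow.1 (Finset.mem_filter.1 hp).1
    exact ⟨this.2, this.1⟩
  -- the total error
  have htot : eR (Nat.primesBelow S.M) (η / 2) ≤ Z + 1 := by
    unfold eR
    rw [Finset.sum_add_distrib, ← Finset.mul_sum]
    refine add_le_add (hZ _) ?_
    calc η / 2 * ∑ p ∈ Nat.primesBelow S.M, Real.log p / p ≤ η / 2 * (2 * S.θ * S.L) :=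
          mul_le_mul_of_nonneg_left hS.logp hδ0
      _ = η * (S.θ * S.L) := by ring
      _ ≤ 1 / (S.θ * S.L) * (S.θ * S.L) := mul_le_mul_of_nonneg_right hη1 (by linarith)
      _ = 1 := by
          have hx0 : S.θ * S.L ≠ 0 := by linarith
          generalize S.θ * S.L = x at hx0 ⊢
          field_simp
  have hparts : eR (Nat.primesBelow S.M) (η / 2) = eR S.R0 (η / 2) +
      (∑ j ∈ Finset.range (S.J + 1), eR (S.R j) (η / 2)) + eR S.Rf (η / 2) := sum_parts hS _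
  have e0 := bv_eR_nonneg (fun p hp => (hmem0 p hp).1) hδ0
  have ef := bv_eR_nonneg (fun p hp => (hmemf p hp).1) hδ0
  have ej : 0 ≤ ∑ j ∈ Finset.range (S.J + 1), eR (S.R j) (η / 2) :=
    Finset.sum_nonneg fun j hj => bv_eR_nonneg
      (fun p hp => (hS.prime j (by rw [Finset.mem_range] at hj; omega) p hp).1) hδ0
  have b0 : eR S.R0 (η / 2) ≤ Z + 1 := by linarith
  have bf : eR S.Rf (η / 2) ≤ Z + 1 := by linarith
  have bj : ∑ j ∈ Finset.range (S.J + 1), eR (S.R j) (η / 2) ≤ Z + 1 := by linarith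
  -- the blocks
  have hs0 : sR S.R0 ≤ (p0 : ℝ) := by
    rw [← hSp]
    exact bv_sR0
  have I0 := hsmall S.R0 (1 / 2 - η / 2) (η / 2) p0 (Z + 1) (fun p hp => (hmem0 p hp).1) hσ1 hσ2
    (fun p hp => hδlog p (hmem0 p hp).1.pos (hmem0 p hp).2) hs0 b0
  have hcoarseM : ∀ j ≤ S.J, ∀ p ∈ S.R j, η / 2 * Real.log p ≤ 1 := by
    intro j hj p hp
    obtain ⟨h1, h2, h3, h4⟩ := hS.prime j hj p hp
    have hθ := hS.θ_pos
    have hθ1 := hS.θ_le
    have hL0 : 0 < S.L := by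
      by_contra hcon
      have : S.θ * S.L ≤ 0 := mul_nonpos_of_nonneg_of_nonpos hθ.le (not_lt.1 hcon)
      linarith
    have h5 : Real.log p ≤ S.θ * S.L := by
      refine h3.trans (mul_le_mul_of_nonneg_right ?_ hL0.le)
      calc S.θ ^ 5 = S.θ ^ 4 * S.θ := by ring
        _ ≤ 1 * S.θ := mul_le_mul_of_nonneg_right (pow_le_one₀ hθ.le (by linarith)) hθ.le
        _ = S.θ := one_mul _
    calc η / 2 * Real.log p ≤ η / 2 * (S.θ * S.L) := mul_le_mul_of_nonneg_left h5 hδ0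
      _ ≤ (1 / (S.θ * S.L)) / 2 * (S.θ * S.L) := by
          refine mul_le_mul_of_nonneg_right ?_ (by linarith)
          linarith
      _ = 1 / 2 := by
          have hx0 : S.θ * S.L ≠ 0 := by linarith
          generalize S.θ * S.L = x at hx0 ⊢
          field_simp
      _ ≤ 1 := by norm_num
  have Ij := hcoarse S C c (1 / 2 - η / 2) (η / 2) (Z + 1) ((η / 2 : ℝ) : ℂ) hSk hS
    ((le_max_left _ _).trans hC) hσ1 hσ2 hzn hcoarseM bj
  have If : ∫ w, ‖Zt S.Rf (1 / 2 - η / 2) w‖ ^ 2 *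
      (‖Ex S.lf (-((1 / 2 : ℝ) : ℂ) * PX S.Rf (-((η / 2 : ℝ) : ℂ)) w)‖ ^ 2 *
      ‖Ex S.lf (-((1 / 2 : ℝ) : ℂ) * PX S.Rf (conj ((η / 2 : ℝ) : ℂ)) w)‖ ^ 2) ∂mu ≤
      Real.exp (Ch * (Z + 1)) * 2 := by
    have h1 := hfine S.Rf S.lf (1 / 2 - η / 2) (η / 2) (-((η / 2 : ℝ) : ℂ))
      (conj ((η / 2 : ℝ) : ℂ)) (fun p hp => (hmemf p hp).1) hσ1 hσ2 (by rw [norm_neg]; exact hzn)
      (by rw [RCLike.norm_conj]; exact hzn) (fun p hp => hδlog p (hmemf p hp).1.pos (hmemf p hp).2)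
    simp_rw [mul_assoc] at h1 ⊢
    refine h1.trans ?_
    have h2 : ((1 : ℝ) - 2 * (1 / 2)) ^ 2 * sR S.Rf + Ch * eR S.Rf (η / 2) ≤ Ch * (Z + 1) := by
      have := mul_le_mul_of_nonneg_left bf hCh
      norm_num
      exact this
    have hsf : 0 ≤ sR S.Rf := Finset.sum_nonneg fun p _ => by positivity
    have h3 : (1 : ℝ) + (2 : ℝ)⁻¹ ^ S.lf * Real.exp (Ch * (sR S.Rf + 1)) ≤ 2 := by
      have h4 : (2 : ℝ)⁻¹ ^ S.lf * Real.exp (Ch * (sR S.Rf + 1)) ≤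
          (2 : ℝ)⁻¹ ^ S.lf * Real.exp (C * (sR S.Rf + 1)) := by
        refine mul_le_mul_of_nonneg_left (Real.exp_le_exp.2 ?_) (by positivity)
        exact mul_le_mul_of_nonneg_right ((le_max_right _ _).trans hC) (by linarith)
      have := hS.truncf
      linarith
    exact mul_le_mul (Real.exp_le_exp.2 h2) h3 (by positivity) (Real.exp_pos _).le
  have hsplit := bv_split hS (σ := 1 / 2 - η / 2) (by linarith) ((η / 2 : ℝ) : ℂ)
    (fun w => ‖Ex S.lf (-((1 / 2 : ℝ) : ℂ) * PX S.Rf (-((η / 2 : ℝ) : ℂ)) w)‖ ^ 2 *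
      ‖Ex S.lf (-((1 / 2 : ℝ) : ℂ) * PX S.Rf (conj ((η / 2 : ℝ) : ℂ)) w)‖ ^ 2)
    ((((continuous_Ex _).comp (continuous_const.mul (continuous_PX _ _))).norm.pow 2).mul
      (((continuous_Ex _).comp (continuous_const.mul (continuous_PX _ _))).norm.pow 2))
    (fun w w' h => by
      rw [depends_PX (fun p hp => (hmemf p hp).1) (-((η / 2 : ℝ) : ℂ)) h,
        depends_PX (fun p hp => (hmemf p hp).1) (conj ((η / 2 : ℝ) : ℂ)) h])
  have hBF : BF S.M S.V (1 / 2 - η / 2) ((η / 2 : ℝ) : ℂ) =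
      ∫ w, ‖Zt (Nat.primesBelow S.M) (1 / 2 - η / 2) w‖ ^ 2 *
      ‖S.Vc (nX (-((η / 2 : ℝ) : ℂ)) w)‖ ^ 2 * ‖S.Vc (nX (conj ((η / 2 : ℝ) : ℂ)) w)‖ ^ 2 *
      (‖Ex S.lf (-((1 / 2 : ℝ) : ℂ) * PX S.Rf (-((η / 2 : ℝ) : ℂ)) w)‖ ^ 2 *
      ‖Ex S.lf (-((1 / 2 : ℝ) : ℂ) * PX S.Rf (conj ((η / 2 : ℝ) : ℂ)) w)‖ ^ 2) ∂mu := by
    unfold BF
    refine integral_congr_ae (Filter.Eventually.of_forall fun w => ?_)
    have h1 : ∀ z : ℂ, ‖S.V (nX z w)‖ ^ 2 = ‖S.Vc (nX z w)‖ ^ 2 *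
        ‖Ex S.lf (-((1 / 2 : ℝ) : ℂ) * PX S.Rf z w)‖ ^ 2 := by
      intro z
      unfold Sys.V
      rw [norm_mul, mul_pow]
      rfl
    beta_reduce
    rw [h1, h1]
    ring
  rw [hBF, hsplit]
  have hI0 : 0 ≤ ∫ w, ‖Zt S.R0 (1 / 2 - η / 2) w‖ ^ 2 ∂mu := integral_nonneg fun w => by positivity
  have hIf : 0 ≤ ∫ w, ‖Zt S.Rf (1 / 2 - η / 2) w‖ ^ 2 *
      (‖Ex S.lf (-((1 / 2 : ℝ) : ℂ) * PX S.Rf (-((η / 2 : ℝ) : ℂ)) w)‖ ^ 2 *
      ‖Ex S.lf (-((1 / 2 : ℝ) : ℂ) * PX S.Rf (conj ((η / 2 : ℝ) : ℂ)) w)‖ ^ 2) ∂mu :=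
    integral_nonneg fun w => by positivity
  have hIj : 0 ≤ ∏ j ∈ Finset.range (S.J + 1), ∫ w, ‖Zt (S.R j) (1 / 2 - η / 2) w‖ ^ 2 *
      ‖Ex (S.l j) (-S.al * PX (S.R j) (-((η / 2 : ℝ) : ℂ)) w)‖ ^ 2 *
      ‖Ex (S.l j) (-S.al * PX (S.R j) (conj ((η / 2 : ℝ) : ℂ)) w)‖ ^ 2 ∂mu :=
    Finset.prod_nonneg fun j _ => integral_nonneg fun w => by positivity
  have hLam : 0 < S.Lam := Real.exp_pos _
  calc _ ≤ (Real.exp ((p0 : ℝ) + Cz * (Z + 1)) * (1 + Real.exp (Cz * (p0 + 1)))) *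
        (S.Lam * Real.exp (Ca * (Z + 1) + 1)) * (Real.exp (Ch * (Z + 1)) * 2) :=
        mul_le_mul (mul_le_mul I0 Ij hIj (by positivity)) If hIf (by positivity)
    _ = _ := by ring

theorem BF_Vc_le (k : ℝ) (p0 : ℕ) : ∃ C0 : ℝ, ∀ θ : ℝ, 0 < θ → ∃ C1 : ℝ, 0 < C1 ∧
    ∀ (S : Sys) (C c : ℝ) (z : ℂ), S.k = k → S.p0 = p0 → S.θ = θ →
    Good S C c → C0 ≤ C → ‖z‖ ≤ 5 * S.h → BF S.M S.Vc (1 / 2) z ≤ C1 * S.Lam := by
  by_cases hk : 0 < k
  swap
  · exact ⟨0, fun θ _ => ⟨1, one_pos, fun S C c z h1 _ _ h3 => absurd (h1 ▸ h3.k_pos) hk⟩⟩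
  obtain ⟨Z, hZ0, hZ⟩ := bv_Z
  obtain ⟨Cz, hCz, hsmall⟩ := bv_small
  obtain ⟨Ca, hCa, hcoarse⟩ := bv_coarse k hk
  refine ⟨Ca, fun θ hθ => ⟨(Real.exp ((p0 : ℝ) + Cz * Z) * (1 + Real.exp (Cz * (p0 + 1)))) *
    Real.exp (Ca * (Z + 1) + 1) * (Real.exp (5 * Real.log (1 / θ) + Cz * Z) *
      (1 + Real.exp (Cz * (5 * Real.log (1 / θ) + 1)))), by positivity, ?_⟩⟩
  intro S C c z hSk hSp hSθ hS hC hz
  have hθL := bv_L hS
  have hL0 : 0 < S.L := by
    by_contra hcon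
    have : S.θ * S.L ≤ 0 := mul_nonpos_of_nonneg_of_nonpos hS.θ_pos.le (not_lt.1 hcon)
    linarith
  have hθ0 := hS.θ_pos
  have hθ1 := hS.θ_le
  have hh : S.h = 1 / (S.θ ^ 3 * S.L) := by
    unfold Sys.h Sys.A
    field_simp
  have hh0 : 0 ≤ 5 * S.h := by
    rw [hh]
    positivity
  have hmem0 : ∀ p ∈ S.R0, p.Prime := fun p hp => by
    unfold Sys.R0 at hp
    exact (Nat.mem_primesBelow.1 (Finset.mem_filter.1 hp).1).2
  have hmemf : ∀ p ∈ S.Rf, p.Prime := fun p hp => by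
    unfold Sys.Rf at hp
    exact (Nat.mem_primesBelow.1 (Finset.mem_filter.1 hp).1).2
  have hE0 : ∀ R : Finset ℕ, eR R 0 ≤ Z := by
    intro R
    unfold eR
    simp only [zero_mul, add_zero]
    exact hZ R
  have hs0 : sR S.R0 ≤ (p0 : ℝ) := by
    rw [← hSp]
    exact bv_sR0
  have hσ2 : |(1 : ℝ) / 2 - 1 / 2| ≤ 0 := by norm_num
  have I0 := hsmall S.R0 (1 / 2) 0 p0 Z hmem0 (by norm_num) hσ2 (fun p _ => by simp) hs0 (hE0 _)
  have hsf : sR S.Rf ≤ 5 * Real.log (1 / θ) := by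
    rw [← hSθ]
    exact hS.sf
  have If := hsmall S.Rf (1 / 2) 0 (5 * Real.log (1 / θ)) Z hmemf (by norm_num) hσ2
    (fun p _ => by simp) hsf (hE0 _)
  have hcM : ∀ j ≤ S.J, ∀ p ∈ S.R j, 5 * S.h * Real.log p ≤ 1 := by
    intro j hj p hp
    obtain ⟨h1, h2, h3, h4⟩ := hS.prime j hj p hp
    calc 5 * S.h * Real.log p ≤ 5 * S.h * (S.θ ^ 5 * S.L) := mul_le_mul_of_nonneg_left h3 hh0
      _ = 5 * S.θ ^ 2 := by
          rw [hh]
          field_simp
      _ ≤ 1 := by nlinarith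
  have hEj : ∑ j ∈ Finset.range (S.J + 1), eR (S.R j) (5 * S.h) ≤ Z + 1 := by
    unfold eR
    simp_rw [Finset.sum_add_distrib, ← Finset.mul_sum]
    refine add_le_add ?_ ?_
    · have hdis : ∀ i ∈ Finset.range (S.J + 1), ∀ j ∈ Finset.range (S.J + 1), i ≠ j →
          Disjoint (S.R i) (S.R j) := fun i hi j hj hij =>
        hS.disj i (by rw [Finset.mem_range] at hi; omega) j (by rw [Finset.mem_range] at hj; omega) hij
      rw [← Finset.sum_biUnion hdis]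
      exact hZ _
    · calc 5 * S.h * ∑ j ∈ Finset.range (S.J + 1), ∑ p ∈ S.R j, Real.log p / p
          ≤ 5 * S.h * (2 * S.θ ^ 5 * S.L) := mul_le_mul_of_nonneg_left hS.logc hh0
        _ = 10 * S.θ ^ 2 := by
            rw [hh]
            field_simp
            ring
        _ ≤ 1 := by nlinarith
  have Ij := hcoarse S C c (1 / 2) (5 * S.h) (Z + 1) z hSk hS hC (by norm_num)
    (by rw [sub_self, abs_zero]; exact hh0) hz hcM hEj
  have hsplit := bv_split hS (σ := 1 / 2) (by norm_num) z (fun _ => 1) continuous_const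
    (fun w w' h => rfl)
  simp only [mul_one] at hsplit
  unfold BF
  rw [hsplit]
  have hIf0 : 0 ≤ ∫ w, ‖Zt S.Rf (1 / 2) w‖ ^ 2 ∂mu := integral_nonneg fun w => by positivity
  have hIj : 0 ≤ ∏ j ∈ Finset.range (S.J + 1), ∫ w, ‖Zt (S.R j) (1 / 2) w‖ ^ 2 *
      ‖Ex (S.l j) (-S.al * PX (S.R j) (-z) w)‖ ^ 2 *
      ‖Ex (S.l j) (-S.al * PX (S.R j) (conj z) w)‖ ^ 2 ∂mu :=
    Finset.prod_nonneg fun j _ => integral_nonneg fun w => by positivity
  have hLam : 0 < S.Lam := Real.exp_pos _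
  calc _ ≤ (Real.exp ((p0 : ℝ) + Cz * Z) * (1 + Real.exp (Cz * (p0 + 1)))) *
        (S.Lam * Real.exp (Ca * (Z + 1) + 1)) * (Real.exp (5 * Real.log (1 / θ) + Cz * Z) *
      (1 + Real.exp (Cz * (5 * Real.log (1 / θ) + 1)))) :=
        mul_le_mul (mul_le_mul I0 Ij hIj (by positivity)) If hIf0 (by positivity)
    _ = _ := by ring

end Pool.Agent.GH
end

section

/-! TASK DG1. The diagonal with the window weight.
Notation: `L = log T`, `h = A/L ≤ 1`, `M = Mof θ T` (so `log M ≥ θ L`), `s = sin(1/T) ≥ 1/(2T)`.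
`KK h (log x) ≤ KK h j` for `e^j ≤ x < e^(j+1)`; for each `j` the sum over the rough `r ≠ 1` of
`∫_{e^j ≤ x < e^(j+1)} e^{-2π(ρ r x)² s} dx` is at most `(1/ρ) (C/log M) ∫_{u>0} e^{-2πu² s} du` (substitution `u = ρ r x`, Tonelli,
`rough_block`), and `∑_j KK h j ≤ 15 h`. The term `r = 1`: `KK h (log x) ≤ 5/(4θ²L²) + 5h² 1_{x < T^{2θ}}`. -/

set_option autoImplicit false

namespace Pool.Agent.GH

open Complex MeasureTheory Finset
open scoped Real ComplexConjugate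

theorem DG1_KK_nonneg (h y : ℝ) : 0 ≤ KK h y := by
  unfold KK
  positivity

theorem DG1_KK_le {h y z : ℝ} (hy : 0 ≤ y) (hyz : y ≤ z) : KK h z ≤ KK h y := by
  unfold KK
  have h1 : y ^ 2 ≤ z ^ 2 := pow_le_pow_left₀ hy hyz 2
  apply div_le_div_of_nonneg_left (by positivity) (by positivity)
  have := mul_le_mul_of_nonneg_left h1 (sq_nonneg h)
  linarith

theorem DG1_KK_sum {h : ℝ} (h0 : 0 < h) (h1 : h ≤ 1) :
    ∑' j : ℕ, ENNReal.ofReal (KK h j) ≤ ENNReal.ofReal (15 * h) := by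
  have key : ∀ N : ℕ, ∑ j ∈ Finset.range (N + 1), KK h j ≤
      5 * h ^ 2 + 10 * h * (1 - 1 / (1 + h * N)) := by
    intro N
    induction N with
    | zero =>
      simp [KK]
    | succ N ih =>
      rw [Finset.sum_range_succ]
      have hN : (0 : ℝ) ≤ N := Nat.cast_nonneg N
      have e1 : 0 < 1 + h * N := by positivity
      have e2 : 0 < 1 + h * (N + 1 : ℝ) := by positivity
      have e3 : KK h ((N + 1 : ℕ) : ℝ) ≤
          10 * h * (1 / (1 + h * N) - 1 / (1 + h * (N + 1 : ℝ))) := by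
        unfold KK
        push_cast
        have e4 : 10 * h * (1 / (1 + h * N) - 1 / (1 + h * (N + 1 : ℝ))) =
            10 * h ^ 2 / ((1 + h * N) * (1 + h * (N + 1 : ℝ))) := by
          field_simp
          ring
        rw [e4, div_le_div_iff₀ (by positivity) (by positivity)]
        have e5 : (1 + h * N) * (1 + h * (N + 1 : ℝ)) ≤ 2 * (1 + h ^ 2 * (N + 1 : ℝ) ^ 2) := by
          have e6 : 1 + h * N ≤ 1 + h * (N + 1 : ℝ) := by nlinarith
          have e7 := mul_le_mul_of_nonneg_right e6 e2.le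
          nlinarith [sq_nonneg (1 - h * (N + 1 : ℝ))]
        nlinarith [mul_le_mul_of_nonneg_left e5 (sq_nonneg h)]
      push_cast at e3 ⊢
      linarith
  refine ENNReal.tsum_le_of_sum_range_le fun n => ?_
  rw [← ENNReal.ofReal_sum_of_nonneg (s := Finset.range n) (f := fun j : ℕ => KK h j)
    fun j _ => DG1_KK_nonneg h j]
  apply ENNReal.ofReal_le_ofReal
  have e0 : ∑ j ∈ Finset.range n, KK h j ≤ ∑ j ∈ Finset.range (n + 1), KK h j := by
    rw [Finset.sum_range_succ]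
    linarith [DG1_KK_nonneg h n]
  have e1 := key n
  have e2 : 0 < 1 / (1 + h * (n : ℝ)) := by positivity
  nlinarith

/-- The Gaussian integral. -/
theorem DG1_gauss {T ρ : ℝ} (hT : 1 ≤ T) (hρ : 0 < ρ) :
    ∫⁻ x in Set.Ioi (0 : ℝ), ENNReal.ofReal
      (Real.exp (-2 * π * (ρ * x) ^ 2 * Real.sin (1 / T))) ≤
    ENNReal.ofReal (T ^ (1 / 2 : ℝ) / ρ) := by
  obtain ⟨hs, -, -⟩ := sin_bounds hT
  set s := Real.sin (1 / T) with hsdef
  have hT0 : 0 < T := by linarith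
  have hs0 : 0 < s := lt_of_lt_of_le (by positivity) hs
  have hb : 0 < 2 * π * ρ ^ 2 * s := by positivity
  have e1 : ∀ x : ℝ, Real.exp (-2 * π * (ρ * x) ^ 2 * s) =
      Real.exp (-(2 * π * ρ ^ 2 * s) * x ^ 2) := by
    intro x
    congr 1
    ring
  simp_rw [e1]
  rw [← ofReal_integral_eq_lintegral_ofReal
    ((integrable_exp_neg_mul_sq hb).restrict) (Filter.Eventually.of_forall fun x => (Real.exp_pos _).le),
    integral_gaussian_Ioi]
  apply ENNReal.ofReal_le_ofReal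
  have e2 : √(π / (2 * π * ρ ^ 2 * s)) ≤ √(T / ρ ^ 2) := by
    apply Real.sqrt_le_sqrt
    rw [div_le_div_iff₀ hb (by positivity)]
    have e3 : 1 ≤ 2 * T * s := by
      rw [div_le_iff₀ (by positivity)] at hs
      linarith
    have hπ := Real.pi_pos
    have : 0 ≤ π * ρ ^ 2 := by positivity
    nlinarith
  rw [Real.sqrt_div' _ (sq_nonneg ρ), Real.sqrt_sq hρ.le] at e2
  have e4 : 0 ≤ √(π / (2 * π * ρ ^ 2 * s)) := Real.sqrt_nonneg _
  rw [← Real.sqrt_eq_rpow]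
  linarith

/-- Scaling. -/
theorem DG1_scale {a : ℝ} (ha : 0 < a) (g : ℝ → ENNReal) (hg : Measurable g) :
    ∫⁻ x, g (a * x) = ENNReal.ofReal (1 / a) * ∫⁻ u, g u := by
  have h1 := Real.map_volume_mul_left ha.ne'
  have h2 : ∫⁻ x, g (a * x) = ∫⁻ u, g u ∂(Measure.map (a * ·) volume) :=
    (lintegral_map hg (measurable_const_mul a)).symm
  rw [h2, h1, lintegral_smul_measure, abs_of_pos (inv_pos.2 ha), one_div]
  rfl

theorem DG1_block {C : ℝ} (hC1 : 1 ≤ C)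
    (hC : ∀ (M : ℕ) (x : ℝ) (F : Finset ℕ), 2 ≤ M → 0 < x →
    (∀ r ∈ F, x < (r : ℝ) ∧ (r : ℝ) ≤ Real.exp 1 * x ∧ r ≠ 1 ∧ Rough M r) →
    ∑ r ∈ F, 1 / (r : ℝ) ≤ C / Real.log M) {M : ℕ} (hM : 2 ≤ M) {ρ s c : ℝ} (hρ : 0 < ρ)
    (hc : 0 < c) :
    (open Classical in ∑' r : ℕ, (if Rough M r ∧ r ≠ 1 then
      ∫⁻ x in Set.Ico c (Real.exp 1 * c), ENNReal.ofReal
        (Real.exp (-2 * π * (ρ * r * x) ^ 2 * s)) else 0)) ≤
    ENNReal.ofReal (C / Real.log M / ρ) *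
      ∫⁻ u in Set.Ioi (0 : ℝ), ENNReal.ofReal (Real.exp (-2 * π * (1 * u) ^ 2 * s)) := by
  classical
  have hM0 : 0 < Real.log M := Real.log_pos (by exact_mod_cast hM)
  let E : ℝ → ENNReal := fun u => ENNReal.ofReal (Real.exp (-2 * π * (1 * u) ^ 2 * s))
  have hE : Measurable E := by
    apply ENNReal.measurable_ofReal.comp
    apply Continuous.measurable
    fun_prop
  let t : ℕ → ℝ → ENNReal := fun r u =>
    (if (Rough M r ∧ r ≠ 1) ∧ u ∈ Set.Ico (ρ * r * c) (ρ * r * (Real.exp 1 * c)) then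
      ENNReal.ofReal (1 / (ρ * r)) else 0) * E u
  have ht : ∀ r, Measurable (t r) := by
    intro r
    refine Measurable.mul ?_ hE
    exact Measurable.ite ((MeasurableSet.const _).inter measurableSet_Ico) measurable_const
      measurable_const
  have hterm : ∀ r : ℕ, (if Rough M r ∧ r ≠ 1 then
      ∫⁻ x in Set.Ico c (Real.exp 1 * c), ENNReal.ofReal
        (Real.exp (-2 * π * (ρ * r * x) ^ 2 * s)) else 0) = ∫⁻ u, t r u := by
    intro r
    by_cases hr : Rough M r ∧ r ≠ 1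
    · rw [if_pos hr]
      have hr0 : (0 : ℝ) < r := by
        have := hr.1.1
        positivity
      have ha : 0 < ρ * r := by positivity
      let g : ℝ → ENNReal := fun u =>
        (Set.Ico (ρ * r * c) (ρ * r * (Real.exp 1 * c))).indicator E u
      have hg : Measurable g := hE.indicator measurableSet_Ico
      have e1 : ∫⁻ x in Set.Ico c (Real.exp 1 * c), ENNReal.ofReal
        (Real.exp (-2 * π * (ρ * r * x) ^ 2 * s)) = ∫⁻ x, g (ρ * r * x) := by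
        rw [← lintegral_indicator measurableSet_Ico]
        refine lintegral_congr fun x => ?_
        by_cases hx : x ∈ Set.Ico c (Real.exp 1 * c)
        · rw [Set.indicator_of_mem hx]
          have hx' : ρ * r * x ∈ Set.Ico (ρ * r * c) (ρ * r * (Real.exp 1 * c)) :=
            ⟨mul_le_mul_of_nonneg_left hx.1 ha.le, mul_lt_mul_of_pos_left hx.2 ha⟩
          show _ = Set.indicator _ E _
          rw [Set.indicator_of_mem hx']
          simp only [E, one_mul]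
        · rw [Set.indicator_of_notMem hx]
          have hx' : ρ * r * x ∉ Set.Ico (ρ * r * c) (ρ * r * (Real.exp 1 * c)) := fun h =>
            hx ⟨le_of_mul_le_mul_left h.1 ha, lt_of_mul_lt_mul_left h.2 ha.le⟩
          show _ = Set.indicator _ E _
          rw [Set.indicator_of_notMem hx']
      rw [e1, DG1_scale ha g hg, ← lintegral_const_mul _ hg]
      refine lintegral_congr fun u => ?_
      show _ * Set.indicator _ E u = _
      by_cases hu : u ∈ Set.Ico (ρ * r * c) (ρ * r * (Real.exp 1 * c))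
      · rw [Set.indicator_of_mem hu]
        simp only [t]
        rw [if_pos ⟨hr, hu⟩]
      · rw [Set.indicator_of_notMem hu]
        simp only [t]
        rw [if_neg (fun h => hu h.2), mul_zero, zero_mul]
    · rw [if_neg hr]
      have : t r = fun _ => 0 := by
        funext u
        simp only [t]
        rw [if_neg (fun h => hr h.1), zero_mul]
      rw [this, lintegral_zero]
  simp_rw [hterm]
  rw [← lintegral_tsum fun r => (ht r).aemeasurable, ← lintegral_const_mul _ hE,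
    ← lintegral_indicator measurableSet_Ioi]
  refine lintegral_mono fun u => ?_
  by_cases hu : u ∈ Set.Ioi (0 : ℝ)
  · rw [Set.indicator_of_mem hu]
    simp only [t]
    rw [ENNReal.tsum_mul_right]
    refine mul_le_mul_left ?_ _
    rw [ENNReal.tsum_eq_iSup_sum]
    refine iSup_le fun F => ?_
    rw [← Finset.sum_filter, ← ENNReal.ofReal_sum_of_nonneg fun r _ => by positivity]
    apply ENNReal.ofReal_le_ofReal
    have hu0 : 0 < u := hu
    have hx : 0 < u / (ρ * (Real.exp 1 * c)) := by positivity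
    have e1 := hC M (u / (ρ * (Real.exp 1 * c))) (F.filter fun r => (Rough M r ∧ r ≠ 1) ∧
      u ∈ Set.Ico (ρ * r * c) (ρ * r * (Real.exp 1 * c))) hM hx (by
      intro r hr
      obtain ⟨-, ⟨hr1, hr2⟩, hr3⟩ := Finset.mem_filter.1 hr
      refine ⟨?_, ?_, hr2, hr1⟩
      · rw [div_lt_iff₀ (by positivity)]
        have := hr3.2
        nlinarith
      · have e2 : Real.exp 1 * (u / (ρ * (Real.exp 1 * c))) = u / (ρ * c) := by
          field_simp
        rw [e2, le_div_iff₀ (by positivity)]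
        have := hr3.1
        nlinarith)
    have e2 : ∀ r : ℕ, 1 / (ρ * (r : ℝ)) = (1 / r) / ρ := by
      intro r
      rw [mul_comm ρ, div_div]
    simp_rw [e2]
    rw [← Finset.sum_div]
    exact div_le_div_of_nonneg_right e1 hρ.le
  · rw [Set.indicator_of_notMem hu]
    have : ∀ r : ℕ, t r u = 0 := by
      intro r
      simp only [t]
      rw [if_neg, zero_mul]
      rintro ⟨⟨h1, -⟩, h2⟩
      apply hu
      have h3 : (0 : ℝ) < r := by
        have := h1.1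
        positivity
      exact lt_of_lt_of_le (by positivity) h2.1
    simp_rw [this]
    rw [tsum_zero]

/-- Decomposition of the integral into blocks. -/
theorem DG1_decomp {h : ℝ} (f : ℝ → ℝ) (hf : ∀ x, 0 ≤ f x) :
    ∫⁻ x in Set.Ioi (1 : ℝ), ENNReal.ofReal (f x * KK h (Real.log x)) ≤
    ∑' j : ℕ, ENNReal.ofReal (KK h j) *
      ∫⁻ x in Set.Ico (Real.exp j) (Real.exp 1 * Real.exp j), ENNReal.ofReal (f x) := by
  have hsub : Set.Ioi (1 : ℝ) ⊆ ⋃ j : ℕ, Set.Ico (Real.exp j) (Real.exp 1 * Real.exp j) := by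
    intro x hx
    have hx1 : (1 : ℝ) < x := hx
    have hx0 : 0 < x := by linarith
    have hl : 0 ≤ Real.log x := Real.log_nonneg hx1.le
    rw [Set.mem_iUnion]
    refine ⟨⌊Real.log x⌋₊, ?_, ?_⟩
    · rw [← Real.le_log_iff_exp_le hx0]
      exact Nat.floor_le hl
    · rw [← Real.exp_add, ← Real.log_lt_iff_lt_exp hx0, add_comm]
      exact Nat.lt_floor_add_one _
  refine (lintegral_mono_set hsub).trans ((lintegral_iUnion_le _ _).trans ?_)
  refine ENNReal.tsum_le_tsum fun j => ?_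
  rw [← lintegral_const_mul' _ _ ENNReal.ofReal_ne_top]
  refine setLIntegral_mono' measurableSet_Ico fun x hx => ?_
  rw [← ENNReal.ofReal_mul (DG1_KK_nonneg h j), mul_comm]
  apply ENNReal.ofReal_le_ofReal
  have hx0 : 0 < x := lt_of_lt_of_le (Real.exp_pos _) hx.1
  refine mul_le_mul_of_nonneg_right (DG1_KK_le (Nat.cast_nonneg j) ?_) (hf x)
  rw [Real.le_log_iff_exp_le hx0]
  exact hx.1

theorem DG1_min {a b η : ℝ} (ha : 0 < a) (hb : 0 < b) (h0 : 0 ≤ η) (h1 : η ≤ 1) :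
    min a b ≤ a ^ η * b ^ (1 - η) := by
  rcases le_total a b with h | h
  · rw [min_eq_left h]
    calc a = a ^ η * a ^ (1 - η) := by
          rw [← Real.rpow_add ha, add_sub_cancel, Real.rpow_one]
      _ ≤ a ^ η * b ^ (1 - η) :=
        mul_le_mul_of_nonneg_left (Real.rpow_le_rpow ha.le h (by linarith)) (by positivity)
  · rw [min_eq_right h]
    calc b = b ^ η * b ^ (1 - η) := by
          rw [← Real.rpow_add hb, add_sub_cancel, Real.rpow_one]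
      _ ≤ a ^ η * b ^ (1 - η) :=
        mul_le_mul_of_nonneg_right (Real.rpow_le_rpow hb.le h h0) (by positivity)

/-- The term `r = 1`. -/
theorem DG1_one {θ A T ρ : ℝ} (hθ : 0 < θ) (hA : 1 ≤ A) (hT : 1 < T) (hL : 1 ≤ θ * Real.log T)
    (hρ : 0 < ρ) :
    ∫⁻ x in Set.Ioi (1 : ℝ), ENNReal.ofReal (Real.exp (-2 * π * (ρ * x) ^ 2 * Real.sin (1 / T)) *
      KK (A / Real.log T) (Real.log x)) ≤
    ENNReal.ofReal (5 / (4 * (θ * Real.log T) ^ 2)) * ENNReal.ofReal (T ^ (1 / 2 : ℝ) / ρ) +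
    ENNReal.ofReal (5 * (A / Real.log T) ^ 2) * ENNReal.ofReal (T ^ (1 / 2 : ℝ) / ρ *
      (Real.exp (2 - 1 / (2 * θ)) * ρ ^ (1 / (θ * Real.log T)))) := by
  have hT0 : 0 < T := by linarith
  have hL0 : 0 < Real.log T := Real.log_pos hT
  set L := Real.log T with hLdef
  set h := A / L with hh
  have hh0 : 0 < h := by positivity
  set E : ℝ → ENNReal := fun x => ENNReal.ofReal
    (Real.exp (-2 * π * (ρ * x) ^ 2 * Real.sin (1 / T))) with hE
  have hEm : Measurable E := by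
    apply ENNReal.measurable_ofReal.comp
    apply Continuous.measurable
    fun_prop
  have hpt : ∀ x ∈ Set.Ioi (1 : ℝ), ENNReal.ofReal
      (Real.exp (-2 * π * (ρ * x) ^ 2 * Real.sin (1 / T)) * KK h (Real.log x)) ≤
      ENNReal.ofReal (5 / (4 * (θ * L) ^ 2)) * E x + ENNReal.ofReal (5 * h ^ 2) *
        (Set.Ioc (0 : ℝ) (T ^ (2 * θ))).indicator E x := by
    intro x hx
    have hx1 : (1 : ℝ) < x := hx
    have hx0 : 0 < x := by linarith
    have hlx : 0 ≤ Real.log x := Real.log_nonneg hx1.le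
    rw [mul_comm, ENNReal.ofReal_mul (DG1_KK_nonneg _ _)]
    by_cases hxT : x ≤ T ^ (2 * θ)
    · rw [Set.indicator_of_mem (show x ∈ Set.Ioc (0 : ℝ) (T ^ (2 * θ)) from ⟨hx0, hxT⟩)]
      refine le_trans ?_ le_add_self
      refine mul_le_mul_left (ENNReal.ofReal_le_ofReal ?_) _
      unfold KK
      apply div_le_self (by positivity)
      nlinarith [mul_nonneg (sq_nonneg h) (sq_nonneg (Real.log x))]
    · refine le_trans ?_ le_self_add
      refine mul_le_mul_left (ENNReal.ofReal_le_ofReal ?_) _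
      push Not at hxT
      have e1 : 2 * θ * L ≤ Real.log x := by
        have := Real.log_le_log (by positivity) hxT.le
        rwa [Real.log_rpow hT0] at this
      have e2 : 0 < θ * L := by positivity
      unfold KK
      rw [div_le_div_iff₀ (by positivity) (by positivity)]
      have e3 : (2 * θ * L) ^ 2 ≤ Real.log x ^ 2 := pow_le_pow_left₀ (by positivity) e1 2
      nlinarith [mul_le_mul_of_nonneg_left e3 (sq_nonneg h)]
  refine (setLIntegral_mono' measurableSet_Ioi hpt).trans ?_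
  rw [lintegral_add_left (hEm.const_mul _), lintegral_const_mul _ hEm,
    lintegral_const_mul _ (hEm.indicator measurableSet_Ioc)]
  have hsub : Set.Ioi (1 : ℝ) ⊆ Set.Ioi 0 := Set.Ioi_subset_Ioi zero_le_one
  have hG := DG1_gauss hT.le hρ
  refine add_le_add (mul_le_mul_right ((lintegral_mono_set hsub).trans hG) _)
    (mul_le_mul_right ?_ _)
  -- the bounded range
  have e1 : ∫⁻ x in Set.Ioi (1 : ℝ), (Set.Ioc (0 : ℝ) (T ^ (2 * θ))).indicator E x ≤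
      ENNReal.ofReal (T ^ (2 * θ)) := by
    calc ∫⁻ x in Set.Ioi (1 : ℝ), (Set.Ioc (0 : ℝ) (T ^ (2 * θ))).indicator E x
        ≤ ∫⁻ x, (Set.Ioc (0 : ℝ) (T ^ (2 * θ))).indicator E x := setLIntegral_le_lintegral _ _
      _ = ∫⁻ x in Set.Ioc (0 : ℝ) (T ^ (2 * θ)), E x := lintegral_indicator measurableSet_Ioc _
      _ ≤ ∫⁻ x in Set.Ioc (0 : ℝ) (T ^ (2 * θ)), 1 := by
          refine lintegral_mono fun x => ?_
          show ENNReal.ofReal _ ≤ 1
          rw [← ENNReal.ofReal_one]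
          apply ENNReal.ofReal_le_ofReal
          rw [Real.exp_le_one_iff]
          obtain ⟨hs, -, -⟩ := sin_bounds hT.le
          have hs0 : 0 < Real.sin (1 / T) := lt_of_lt_of_le (by positivity) hs
          have : 0 ≤ 2 * π * (ρ * x) ^ 2 * Real.sin (1 / T) := by positivity
          linarith
      _ = ENNReal.ofReal (T ^ (2 * θ)) := by
          rw [setLIntegral_const, one_mul, Real.volume_Ioc, sub_zero]
  have e2 : ∫⁻ x in Set.Ioi (1 : ℝ), (Set.Ioc (0 : ℝ) (T ^ (2 * θ))).indicator E x ≤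
      ENNReal.ofReal (T ^ (1 / 2 : ℝ) / ρ) := by
    refine (lintegral_mono fun x => Set.indicator_le_self _ _ x).trans ?_
    exact (lintegral_mono_set hsub).trans hG
  have ha : 0 < T ^ (2 * θ) := by positivity
  have hb : 0 < T ^ (1 / 2 : ℝ) / ρ := by positivity
  refine (le_min e1 e2).trans ?_
  rw [← ENNReal.ofReal_min]
  apply ENNReal.ofReal_le_ofReal
  have hη0 : 0 ≤ 1 / (θ * L) := by positivity
  have hη1 : 1 / (θ * L) ≤ 1 := by
    rw [div_le_one (by positivity)]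
    exact hL
  refine (DG1_min ha hb hη0 hη1).trans (le_of_eq ?_)
  have e3 : (T ^ (1 / 2 : ℝ) / ρ) ^ (1 - 1 / (θ * L)) =
      (T ^ (1 / 2 : ℝ) / ρ) * ((T ^ (1 / 2 : ℝ) / ρ) ^ (1 / (θ * L)))⁻¹ := by
    rw [Real.rpow_sub hb, Real.rpow_one, div_eq_mul_inv]
  rw [e3, Real.div_rpow (by positivity) hρ.le, ← Real.rpow_mul hT0.le, ← Real.rpow_mul hT0.le]
  have e4 : T ^ (2 * θ * (1 / (θ * L))) = Real.exp 2 := by
    rw [Real.rpow_def_of_pos hT0]
    congr 1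
    field_simp
    exact hLdef.symm
  have e5 : T ^ (1 / 2 * (1 / (θ * L))) = Real.exp (1 / (2 * θ)) := by
    rw [Real.rpow_def_of_pos hT0]
    congr 1
    field_simp
    exact hLdef.symm
  rw [e4, e5, Real.exp_sub, inv_div]
  ring

open Classical in
theorem dg1 : ∃ C : ℝ, 1 ≤ C ∧ ∀ θ A : ℝ, 0 < θ → θ ≤ 1 / 10 → 1 ≤ A → ∃ T0 : ℝ, 1 ≤ T0 ∧
    ∀ T ρ : ℝ, T0 ≤ T → 0 < ρ →
    ∑' r : ℕ, (if Rough (Mof θ T) r then ∫⁻ x in Set.Ioi (1 : ℝ), ENNReal.ofReal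
      (Real.exp (-2 * π * (ρ * r * x) ^ 2 * Real.sin (1 / T)) * KK (A / Real.log T) (Real.log x)) else 0) ≤
    ENNReal.ofReal (C * (A / Real.log T) ^ 2 * T ^ (1 / 2 : ℝ) / ρ *
      (1 / (θ * A) + 1 / (θ * A) ^ 2 + Real.exp (2 - 1 / (2 * θ)) * ρ ^ (1 / (θ * Real.log T)))) := by
  obtain ⟨C, hC1, hC⟩ := rough_block
  refine ⟨15 * C, by linarith, fun θ A hθ _ hA => ⟨Real.exp (A + 1 / θ), ?_, ?_⟩⟩
  · apply Real.one_le_exp
    positivity
  intro T ρ hT hρ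
  have hT0 : 0 < T := lt_of_lt_of_le (Real.exp_pos _) hT
  have hL : A + 1 / θ ≤ Real.log T := (Real.le_log_iff_exp_le hT0).2 hT
  have hθ' : 0 < 1 / θ := by positivity
  have hL0 : 0 < Real.log T := by linarith
  have hLA : A ≤ Real.log T := by linarith
  have hLθ : 1 ≤ θ * Real.log T := by
    have e1 : 1 / θ ≤ Real.log T := by linarith
    rw [div_le_iff₀ hθ] at e1
    linarith
  have hT1 : 1 < T := by
    by_contra hcon
    push Not at hcon
    have := Real.log_nonpos hT0.le hcon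
    linarith
  set L := Real.log T with hLdef
  set h := A / L with hh
  have hh0 : 0 < h := by positivity
  have hh1 : h ≤ 1 := by
    rw [hh, div_le_one hL0]
    exact hLA
  set M := Mof θ T with hMdef
  have hMT : T ^ θ ≤ M := by
    rw [hMdef]
    unfold Mof
    push_cast
    exact (Nat.lt_floor_add_one _).le
  have hMlog : θ * L ≤ Real.log M := by
    have := Real.log_le_log (by positivity) hMT
    rwa [Real.log_rpow hT0] at this
  have hM2 : 2 ≤ M := by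
    rw [hMdef]
    unfold Mof
    have : 1 ≤ ⌊T ^ θ⌋₊ := by
      rw [Nat.one_le_floor_iff]
      exact Real.one_le_rpow hT1.le hθ.le
    omega
  have hM0 : 0 < Real.log M := by linarith
  -- the two parts
  have hsplit : ∀ r : ℕ, (if Rough M r then ∫⁻ x in Set.Ioi (1 : ℝ), ENNReal.ofReal
      (Real.exp (-2 * π * (ρ * r * x) ^ 2 * Real.sin (1 / T)) * KK h (Real.log x)) else 0) ≤
      (if r = 1 then ∫⁻ x in Set.Ioi (1 : ℝ), ENNReal.ofReal
      (Real.exp (-2 * π * (ρ * x) ^ 2 * Real.sin (1 / T)) * KK h (Real.log x)) else 0) +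
      ∑' j : ℕ, ENNReal.ofReal (KK h j) * (if Rough M r ∧ r ≠ 1 then
        ∫⁻ x in Set.Ico (Real.exp j) (Real.exp 1 * Real.exp j), ENNReal.ofReal
          (Real.exp (-2 * π * (ρ * r * x) ^ 2 * Real.sin (1 / T))) else 0) := by
    intro r
    by_cases hr1 : r = 1
    · subst hr1
      rw [if_pos rfl]
      refine le_trans ?_ le_self_add
      split_ifs
      · simp
      · exact zero_le
    · by_cases hr : Rough M r
      · rw [if_pos hr, if_neg hr1, zero_add]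
        simp only [hr, hr1, ne_eq, not_false_eq_true, and_self, if_true]
        exact DG1_decomp _ fun x => (Real.exp_pos _).le
      · rw [if_neg hr]
        exact zero_le
  refine (ENNReal.tsum_le_tsum hsplit).trans ?_
  rw [ENNReal.tsum_add, tsum_ite_eq, ENNReal.tsum_comm]
  simp_rw [ENNReal.tsum_mul_left]
  have hG := DG1_gauss hT1.le (one_pos)
  have hsum : ∑' j : ℕ, ENNReal.ofReal (KK h j) * ∑' r : ℕ, (if Rough M r ∧ r ≠ 1 then
        ∫⁻ x in Set.Ico (Real.exp j) (Real.exp 1 * Real.exp j), ENNReal.ofReal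
          (Real.exp (-2 * π * (ρ * r * x) ^ 2 * Real.sin (1 / T))) else 0) ≤
      ENNReal.ofReal (15 * h) * (ENNReal.ofReal (C / Real.log M / ρ) *
        ENNReal.ofReal (T ^ (1 / 2 : ℝ) / 1)) := by
    calc _ ≤ ∑' j : ℕ, ENNReal.ofReal (KK h j) * (ENNReal.ofReal (C / Real.log M / ρ) *
        ENNReal.ofReal (T ^ (1 / 2 : ℝ) / 1)) := by
          refine ENNReal.tsum_le_tsum fun j => mul_le_mul_right ?_ _
          refine (DG1_block hC1 hC hM2 hρ (Real.exp_pos _)).trans ?_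
          exact mul_le_mul_right hG _
      _ = (∑' j : ℕ, ENNReal.ofReal (KK h j)) * (ENNReal.ofReal (C / Real.log M / ρ) *
        ENNReal.ofReal (T ^ (1 / 2 : ℝ) / 1)) := ENNReal.tsum_mul_right
      _ ≤ _ := mul_le_mul_left (DG1_KK_sum hh0 hh1) _
  refine (add_le_add (DG1_one hθ hA hT1 hLθ hρ) hsum).trans ?_
  rw [← ENNReal.ofReal_mul (by positivity), ← ENNReal.ofReal_mul (by positivity),
    ← ENNReal.ofReal_mul (by positivity), ← ENNReal.ofReal_mul (by positivity),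
    ← ENNReal.ofReal_add (by positivity) (by positivity),
    ← ENNReal.ofReal_add (by positivity) (by positivity)]
  apply ENNReal.ofReal_le_ofReal
  have hCp : 0 < C := by linarith
  set G := T ^ (1 / 2 : ℝ) with hGdef
  have hG0 : 0 < G := by positivity
  set Y := Real.exp (2 - 1 / (2 * θ)) * ρ ^ (1 / (θ * L)) with hY
  have hY0 : 0 < Y := by positivity
  have e1 : 5 / (4 * (θ * L) ^ 2) * (G / ρ) ≤ 15 * C * h ^ 2 * G / ρ * (1 / (θ * A) ^ 2) := by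
    have : 15 * C * h ^ 2 * G / ρ * (1 / (θ * A) ^ 2) = 15 * C / (θ * L) ^ 2 * (G / ρ) := by
      rw [hh]
      field_simp
    rw [this]
    refine mul_le_mul_of_nonneg_right ?_ (by positivity)
    rw [div_le_div_iff₀ (by positivity) (by positivity)]
    have : 0 < (θ * L) ^ 2 := by positivity
    nlinarith
  have e2 : 5 * h ^ 2 * (G / ρ * Y) ≤ 15 * C * h ^ 2 * G / ρ * Y := by
    have : 15 * C * h ^ 2 * G / ρ * Y = 15 * C * h ^ 2 * (G / ρ * Y) := by ring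
    rw [this]
    refine mul_le_mul_of_nonneg_right ?_ (by positivity)
    nlinarith [sq_nonneg h]
  have e3 : 15 * h * (C / Real.log M / ρ * (G / 1)) ≤ 15 * C * h ^ 2 * G / ρ * (1 / (θ * A)) := by
    have : 15 * C * h ^ 2 * G / ρ * (1 / (θ * A)) = 15 * h * (C / (θ * L) / ρ * (G / 1)) := by
      rw [hh]
      field_simp
    rw [this]
    refine mul_le_mul_of_nonneg_left ?_ (by positivity)
    refine mul_le_mul_of_nonneg_right ?_ (by positivity)
    refine div_le_div_of_nonneg_right ?_ hρ.le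
    exact div_le_div_of_nonneg_left hCp.le (by positivity) hMlog
  have e4 : 15 * C * h ^ 2 * G / ρ * (1 / (θ * A) + 1 / (θ * A) ^ 2 + Y) =
      15 * C * h ^ 2 * G / ρ * (1 / (θ * A)) + 15 * C * h ^ 2 * G / ρ * (1 / (θ * A) ^ 2) +
      15 * C * h ^ 2 * G / ρ * Y := by ring
  rw [e4]
  linarith

end Pool.Agent.GH
end

section

/-! TASK R1. The window mean square of `GG`.
Proof. Let `h = A/log T`. `GG_sq_le` and the substitution `x = e^y` (`dy = dx/x`): `∫_{y>0} 8 e^y ‖SS(e^y)‖² KK h y dy = 8 ∫_{x>1} ‖SS x‖² KK h (log x) dx`, and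
`∫_{y>0} 2e^{-y} (∑‖wa (-1/2) w q‖)² KK h y dy ≤ 10 h² (T^{1/100} · T^{1/200})²` (`(q2/q1)^{1/2} ≤ T^{1/200}`). By `window_diag` the main part is at most `8` times
`∑_{ρ,r} ‖cs ρ‖² ∫ .. + 5h² T^{1/10}`; sum over `r` first (`ENNReal.tsum_prod`) and use `dg1` for each `ρ > 0` (`cs ρ = 0` for `ρ ≤ 0` by `cs_pos`):
`≤ ∑_ρ ‖cs ρ‖² C h² T^{1/2} ρ^{-1} (1/(θA) + 1/(θA)² + e^{2-1/(2θ)} ρ^{η})`, `η = 1/(θ log T)`, and `bessel` for `0` and `η` gives the claim (constants: take `T0` such that all errors are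
at most `h² T^{1/4}`). -/

set_option autoImplicit false

namespace Pool.Agent.GH

open Complex MeasureTheory Finset
open scoped Real ComplexConjugate

private theorem R1_KK_nonneg (h y : ℝ) : 0 ≤ KK h y := by
  unfold KK
  positivity

private theorem R1_KK_le (h y : ℝ) : KK h y ≤ 5 * h ^ 2 := by
  unfold KK
  exact div_le_self (by positivity) (by nlinarith [sq_nonneg (h * y)])

private theorem R1_KK_meas (h : ℝ) : Measurable (KK h) := by
  unfold KK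
  fun_prop

/-- Substitution `x = e^y`. -/
private theorem R1_subst (G : ℝ → ℝ) :
    ∫⁻ y in Set.Ioi (0 : ℝ), ENNReal.ofReal (Real.exp y * G (Real.exp y)) =
      ∫⁻ x in Set.Ioi (1 : ℝ), ENNReal.ofReal (G x) := by
  have himg : Real.exp '' Set.Ioi (0 : ℝ) = Set.Ioi 1 := by
    ext x
    simp only [Set.mem_image, Set.mem_Ioi]
    constructor
    · rintro ⟨y, hy, rfl⟩
      exact Real.one_lt_exp_iff.2 hy
    · intro hx
      exact ⟨Real.log x, Real.log_pos hx, Real.exp_log (by linarith)⟩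
  have h1 := lintegral_image_eq_lintegral_abs_deriv_mul (s := Set.Ioi (0 : ℝ)) (f := Real.exp)
    (f' := Real.exp) measurableSet_Ioi (fun x _ => (Real.hasDerivAt_exp x).hasDerivWithinAt)
    Real.exp_injective.injOn (fun x => ENNReal.ofReal (G x))
  rw [himg] at h1
  rw [h1]
  refine lintegral_congr fun y => ?_
  rw [abs_of_pos (Real.exp_pos y), ENNReal.ofReal_mul (Real.exp_pos y).le]

private theorem R1_tail (T : ℝ) (hT : 1 ≤ T) (F : Finset (ℕ × ℕ)) (w : ℕ × ℕ → ℂ)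
    (h0 : ∀ q ∈ F, q.1 ≠ 0 ∧ q.2 ≠ 0)
    (hQ : ∀ q ∈ F, (q.1 : ℝ) ≤ T ^ (1 / 100 : ℝ) ∧ (q.2 : ℝ) ≤ T ^ (1 / 100 : ℝ))
    (hw : ∑ q ∈ F, ‖w q‖ ≤ T ^ (1 / 100 : ℝ)) :
    (∑ q ∈ F, ‖wa (-1 / 2) w q‖) ^ 2 ≤ T ^ (1 / 4 : ℝ) := by
  have hTp : 0 < T := by linarith
  have h1 : ∀ q ∈ F, ‖wa (-1 / 2) w q‖ ≤ ‖w q‖ * T ^ (1 / 200 : ℝ) := by
    intro q hq
    unfold wa
    rw [norm_mul, Complex.norm_real]
    refine mul_le_mul_of_nonneg_left ?_ (norm_nonneg _)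
    have hq1 : (1 : ℝ) ≤ q.1 := by exact_mod_cast Nat.one_le_iff_ne_zero.2 (h0 q hq).1
    have hq2 : (1 : ℝ) ≤ q.2 := by exact_mod_cast Nat.one_le_iff_ne_zero.2 (h0 q hq).2
    have hpos : (0 : ℝ) < (q.1 : ℝ) / q.2 := div_pos (by linarith) (by linarith)
    rw [Real.norm_of_nonneg (Real.rpow_nonneg hpos.le _),
      show (-1 / 2 : ℝ) = -(1 / 2) by norm_num, Real.rpow_neg hpos.le,
      ← Real.inv_rpow hpos.le, inv_div]
    have h2 : (q.2 : ℝ) / q.1 ≤ T ^ (1 / 100 : ℝ) :=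
      (div_le_self (by linarith) hq1).trans (hQ q hq).2
    calc ((q.2 : ℝ) / q.1) ^ (1 / 2 : ℝ) ≤ (T ^ (1 / 100 : ℝ)) ^ (1 / 2 : ℝ) :=
          Real.rpow_le_rpow (div_nonneg (by linarith) (by linarith)) h2 (by norm_num)
      _ = T ^ (1 / 200 : ℝ) := by
          rw [← Real.rpow_mul hTp.le]
          norm_num
  have h2 : ∑ q ∈ F, ‖wa (-1 / 2) w q‖ ≤ T ^ (1 / 100 : ℝ) * T ^ (1 / 200 : ℝ) := by
    calc ∑ q ∈ F, ‖wa (-1 / 2) w q‖ ≤ ∑ q ∈ F, ‖w q‖ * T ^ (1 / 200 : ℝ) :=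
          Finset.sum_le_sum h1
      _ = (∑ q ∈ F, ‖w q‖) * T ^ (1 / 200 : ℝ) := by rw [Finset.sum_mul]
      _ ≤ _ := mul_le_mul_of_nonneg_right hw (by positivity)
  rw [← Real.rpow_add hTp] at h2
  calc (∑ q ∈ F, ‖wa (-1 / 2) w q‖) ^ 2 ≤ (T ^ (1 / 100 + 1 / 200 : ℝ)) ^ 2 :=
        pow_le_pow_left₀ (Finset.sum_nonneg fun _ _ => norm_nonneg _) h2 2
    _ = T ^ (3 / 100 : ℝ) := by
        rw [← Real.rpow_natCast, ← Real.rpow_mul hTp.le]
        norm_num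
    _ ≤ T ^ (1 / 4 : ℝ) := Real.rpow_le_rpow_of_exponent_le hT (by norm_num)

open Classical in
/-- The diagonal sum. -/
private theorem R1_diag {C η : ℝ} (hC : 0 ≤ C) (hη0 : 0 ≤ η) (hη1 : η ≤ 1 / 4)
    {M : ℕ} {F : Finset (ℕ × ℕ)} {w : ℕ × ℕ → ℂ} (J : ℝ → ℕ → ENNReal)
    (a E : ℝ) (ha : 0 ≤ a) (hE : 0 ≤ E)
    (hF : ∀ q ∈ F, q.1 ∈ Nat.smoothNumbers M ∧ q.2 ∈ Nat.smoothNumbers M)
    (hJ : ∀ ρ : ℝ, 0 < ρ → ∑' r : ℕ, (if Rough M r then J ρ r else 0) ≤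
      ENNReal.ofReal (C / ρ * (a + E * ρ ^ η))) :
    (∑' k : ℚ × ℕ, if Rough M k.2 then ENNReal.ofReal (‖cs M F w k.1‖ ^ 2) * J (k.1 : ℝ) k.2
      else 0) ≤ ENNReal.ofReal (C * (a * BB M F w 0 + E * BB M F w η)) := by
  have hBB : ∀ η : ℝ, 0 ≤ BB M F w η := fun η => by
    unfold BB
    exact integral_nonneg fun v => by positivity
  have h1 : (∑' k : ℚ × ℕ, if Rough M k.2 then ENNReal.ofReal (‖cs M F w k.1‖ ^ 2) *
      J (k.1 : ℝ) k.2 else 0) = ∑' ρ : ℚ, ENNReal.ofReal (‖cs M F w ρ‖ ^ 2) *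
        ∑' r : ℕ, (if Rough M r then J (ρ : ℝ) r else 0) := by
    rw [ENNReal.tsum_prod (f := fun (ρ : ℚ) (r : ℕ) => if Rough M r then
      ENNReal.ofReal (‖cs M F w ρ‖ ^ 2) * J (ρ : ℝ) r else 0)]
    refine tsum_congr fun ρ => ?_
    rw [← ENNReal.tsum_mul_left]
    refine tsum_congr fun r => ?_
    split_ifs <;> simp
  rw [h1]
  have h2 : ∀ ρ : ℚ, ENNReal.ofReal (‖cs M F w ρ‖ ^ 2) *
      ∑' r : ℕ, (if Rough M r then J (ρ : ℝ) r else 0) ≤
      ENNReal.ofReal (C * a) * ENNReal.ofReal (‖cs M F w ρ‖ ^ 2 * (ρ : ℝ) ^ (-1 + (0 : ℝ))) +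
      ENNReal.ofReal (C * E) * ENNReal.ofReal (‖cs M F w ρ‖ ^ 2 * (ρ : ℝ) ^ (-1 + η)) := by
    intro ρ
    by_cases hρ : cs M F w ρ = 0
    · rw [hρ]
      simp
    · have hρ0 : (0 : ℝ) < ρ := by exact_mod_cast (cs_pos hF hρ).1
      calc ENNReal.ofReal (‖cs M F w ρ‖ ^ 2) *
            ∑' r : ℕ, (if Rough M r then J (ρ : ℝ) r else 0)
          ≤ ENNReal.ofReal (‖cs M F w ρ‖ ^ 2) *
            ENNReal.ofReal (C / ρ * (a + E * (ρ : ℝ) ^ η)) := mul_le_mul_right (hJ ρ hρ0) _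
        _ = ENNReal.ofReal (‖cs M F w ρ‖ ^ 2 * (C / ρ * (a + E * (ρ : ℝ) ^ η))) :=
            (ENNReal.ofReal_mul (by positivity)).symm
        _ = ENNReal.ofReal (C * a * (‖cs M F w ρ‖ ^ 2 * (ρ : ℝ) ^ (-1 + (0 : ℝ))) +
            C * E * (‖cs M F w ρ‖ ^ 2 * (ρ : ℝ) ^ (-1 + η))) := by
            congr 1
            rw [Real.rpow_add hρ0, Real.rpow_add hρ0, Real.rpow_neg_one, Real.rpow_zero]
            field_simp
        _ = _ := by
            rw [ENNReal.ofReal_add (by positivity) (by positivity),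
              ENNReal.ofReal_mul (p := C * a) (by positivity),
              ENNReal.ofReal_mul (p := C * E) (by positivity)]
  calc ∑' ρ : ℚ, ENNReal.ofReal (‖cs M F w ρ‖ ^ 2) *
        ∑' r : ℕ, (if Rough M r then J (ρ : ℝ) r else 0)
      ≤ ∑' ρ : ℚ, (ENNReal.ofReal (C * a) *
          ENNReal.ofReal (‖cs M F w ρ‖ ^ 2 * (ρ : ℝ) ^ (-1 + (0 : ℝ))) +
        ENNReal.ofReal (C * E) * ENNReal.ofReal (‖cs M F w ρ‖ ^ 2 * (ρ : ℝ) ^ (-1 + η))) :=
        ENNReal.tsum_le_tsum h2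
    _ = ENNReal.ofReal (C * a) *
          ∑' ρ : ℚ, ENNReal.ofReal (‖cs M F w ρ‖ ^ 2 * (ρ : ℝ) ^ (-1 + (0 : ℝ))) +
        ENNReal.ofReal (C * E) *
          ∑' ρ : ℚ, ENNReal.ofReal (‖cs M F w ρ‖ ^ 2 * (ρ : ℝ) ^ (-1 + η)) := by
        rw [ENNReal.tsum_add, ENNReal.tsum_mul_left, ENNReal.tsum_mul_left]
    _ ≤ ENNReal.ofReal (C * a) * ENNReal.ofReal (BB M F w 0) +
        ENNReal.ofReal (C * E) * ENNReal.ofReal (BB M F w η) :=
        add_le_add (mul_le_mul_right (bessel le_rfl (by norm_num) hF) _)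
          (mul_le_mul_right (bessel hη0 hη1 hF) _)
    _ = ENNReal.ofReal (C * (a * BB M F w 0 + E * BB M F w η)) := by
        rw [← ENNReal.ofReal_mul (by positivity), ← ENNReal.ofReal_mul (by positivity),
          ← ENNReal.ofReal_add]
        · congr 1
          ring
        · exact mul_nonneg (by positivity) (hBB 0)
        · exact mul_nonneg (by positivity) (hBB η)

theorem r1 : ∃ C : ℝ, 1 ≤ C ∧ ∀ θ A : ℝ, 0 < θ → θ ≤ 1 / 10 → 1 ≤ A → ∃ T0 : ℝ, 1 ≤ T0 ∧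
    ∀ (T : ℝ) (F : Finset (ℕ × ℕ)) (w : ℕ × ℕ → ℂ), T0 ≤ T →
    (∀ q ∈ F, q.1 ∈ Nat.smoothNumbers (Mof θ T) ∧ q.2 ∈ Nat.smoothNumbers (Mof θ T)) →
    (∀ q ∈ F, (q.1 : ℝ) ≤ T ^ (1 / 100 : ℝ) ∧ (q.2 : ℝ) ≤ T ^ (1 / 100 : ℝ)) →
    ∑ q ∈ F, ‖w q‖ ≤ T ^ (1 / 100 : ℝ) →
    ∫⁻ y in Set.Ioi (0 : ℝ), ENNReal.ofReal (‖GG T F w y‖ ^ 2 * KK (A / Real.log T) y) ≤
    ENNReal.ofReal (C * ((A / Real.log T) ^ 2 * T ^ (1 / 2 : ℝ) *
      ((1 / (θ * A) + 1 / (θ * A) ^ 2) * BB (Mof θ T) F w 0 +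
        Real.exp (2 - 1 / (2 * θ)) * BB (Mof θ T) F w (1 / (θ * Real.log T))) +
      (A / Real.log T) ^ 2 * T ^ (1 / 4 : ℝ))) := by
  classical
  obtain ⟨C, hC1, hC⟩ := dg1
  obtain ⟨T1, hT1, hwd⟩ := window_diag
  refine ⟨8 * C + 50, by linarith, ?_⟩
  intro θ A hθ hθ' hA
  obtain ⟨T2, hT2, hdg⟩ := hC θ A hθ hθ' hA
  refine ⟨max (max T1 T2) (Real.exp (4 / θ)), le_max_of_le_left (le_max_of_le_left hT1), ?_⟩
  intro T F w hT hF hQ hw
  have hTT1 : T1 ≤ T := le_trans (le_trans (le_max_left _ _) (le_max_left _ _)) hT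
  have hTT2 : T2 ≤ T := le_trans (le_trans (le_max_right _ _) (le_max_left _ _)) hT
  have hTe : Real.exp (4 / θ) ≤ T := le_trans (le_max_right _ _) hT
  have hT0 : 1 ≤ T := hT1.trans hTT1
  have hTp : 0 < T := by linarith
  have hlog : 4 / θ ≤ Real.log T := by
    rw [Real.le_log_iff_exp_le hTp]
    exact hTe
  have hlogp : 0 < Real.log T := lt_of_lt_of_le (by positivity) hlog
  set h := A / Real.log T with hh
  have hhp : 0 < h := div_pos (by linarith) hlogp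
  set M := Mof θ T with hM
  have h0 : ∀ q ∈ F, q.1 ≠ 0 ∧ q.2 ≠ 0 := fun q hq =>
    ⟨Nat.ne_zero_of_mem_smoothNumbers (hF q hq).1, Nat.ne_zero_of_mem_smoothNumbers (hF q hq).2⟩
  set B := ∑ q ∈ F, ‖wa (-1 / 2) w q‖ with hB
  have hBle : B ^ 2 ≤ T ^ (1 / 4 : ℝ) := R1_tail T hT0 F w h0 hQ hw
  set η := 1 / (θ * Real.log T) with hη
  have hη0 : 0 ≤ η := by positivity
  have hη1 : η ≤ 1 / 4 := by
    rw [hη]
    refine one_div_le_one_div_of_le (by norm_num) ?_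
    rw [div_le_iff₀ hθ] at hlog
    linarith
  -- step 1
  have hstep1 : ∫⁻ y in Set.Ioi (0 : ℝ), ENNReal.ofReal (‖GG T F w y‖ ^ 2 * KK h y) ≤
      (∫⁻ y in Set.Ioi (0 : ℝ), ENNReal.ofReal (Real.exp y *
        (8 * (‖SS T F w (Real.exp y)‖ ^ 2 * KK h (Real.log (Real.exp y)))))) +
      ∫⁻ y in Set.Ioi (0 : ℝ), ENNReal.ofReal (10 * h ^ 2 * B ^ 2) *
        ENNReal.ofReal (Real.exp (-y)) := by
    rw [← lintegral_add_right _ (by fun_prop)]
    refine lintegral_mono fun y => ?_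
    rw [← ENNReal.ofReal_mul (by positivity), ← ENNReal.ofReal_add
      (mul_nonneg (Real.exp_pos _).le (mul_nonneg (by norm_num)
        (mul_nonneg (by positivity) (R1_KK_nonneg _ _)))) (by positivity)]
    refine ENNReal.ofReal_le_ofReal ?_
    rw [Real.log_exp]
    have h2 := GG_sq_le hT0 F w h0 y
    have h3 := R1_KK_nonneg h y
    have h4 := R1_KK_le h y
    calc ‖GG T F w y‖ ^ 2 * KK h y ≤ (8 * Real.exp y * ‖SS T F w (Real.exp y)‖ ^ 2 +
          2 * Real.exp (-y) * B ^ 2) * KK h y := mul_le_mul_of_nonneg_right h2 h3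
      _ = Real.exp y * (8 * (‖SS T F w (Real.exp y)‖ ^ 2 * KK h y)) +
          2 * Real.exp (-y) * B ^ 2 * KK h y := by ring
      _ ≤ Real.exp y * (8 * (‖SS T F w (Real.exp y)‖ ^ 2 * KK h y)) +
          2 * Real.exp (-y) * B ^ 2 * (5 * h ^ 2) := by
          gcongr
      _ = _ := by ring
  rw [R1_subst (fun x => 8 * (‖SS T F w x‖ ^ 2 * KK h (Real.log x)))] at hstep1
  have h8 : ∫⁻ x in Set.Ioi (1 : ℝ), ENNReal.ofReal (8 * (‖SS T F w x‖ ^ 2 * KK h (Real.log x))) =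
      ENNReal.ofReal 8 *
        ∫⁻ x in Set.Ioi (1 : ℝ), ENNReal.ofReal (‖SS T F w x‖ ^ 2 * KK h (Real.log x)) := by
    rw [← lintegral_const_mul' _ _ ENNReal.ofReal_ne_top]
    refine lintegral_congr fun x => ?_
    rw [ENNReal.ofReal_mul (by norm_num)]
  rw [h8, lintegral_const_mul' _ _ ENNReal.ofReal_ne_top] at hstep1
  have hexp : ∫⁻ y in Set.Ioi (0 : ℝ), ENNReal.ofReal (Real.exp (-y)) = 1 := by
    rw [← ofReal_integral_eq_lintegral_ofReal (integrableOn_exp_neg_Ioi 0)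
      (Filter.Eventually.of_forall fun y => (Real.exp_pos _).le), integral_exp_neg_Ioi_zero,
      ENNReal.ofReal_one]
  rw [hexp, mul_one] at hstep1
  have hwd1 := hwd T M F w h hTT1 hhp hF hQ hw
  have hdiag := R1_diag (C := C * h ^ 2 * T ^ (1 / 2 : ℝ)) (η := η)
    (by positivity) hη0 hη1
    (M := M) (F := F) (w := w) (fun ρ r => ∫⁻ x in Set.Ioi (1 : ℝ), ENNReal.ofReal
      (Real.exp (-2 * π * (ρ * r * x) ^ 2 * Real.sin (1 / T)) * KK h (Real.log x)))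
    (1 / (θ * A) + 1 / (θ * A) ^ 2) (Real.exp (2 - 1 / (2 * θ))) (by positivity)
    (by positivity) hF (fun ρ hρ => hdg T ρ hTT2 hρ)
  refine hstep1.trans ?_
  have hBB : ∀ η : ℝ, 0 ≤ BB M F w η := fun η => by
    unfold BB
    exact integral_nonneg fun v => by positivity
  have hBB0 := hBB 0
  have hBBη := hBB η
  calc ENNReal.ofReal 8 *
        (∫⁻ x in Set.Ioi (1 : ℝ), ENNReal.ofReal (‖SS T F w x‖ ^ 2 * KK h (Real.log x))) +
        ENNReal.ofReal (10 * h ^ 2 * B ^ 2)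
      ≤ ENNReal.ofReal 8 * (ENNReal.ofReal (C * h ^ 2 * T ^ (1 / 2 : ℝ) *
          ((1 / (θ * A) + 1 / (θ * A) ^ 2) * BB M F w 0 +
            Real.exp (2 - 1 / (2 * θ)) * BB M F w η)) +
          ENNReal.ofReal (5 * h ^ 2 * T ^ (1 / 10 : ℝ))) +
        ENNReal.ofReal (10 * h ^ 2 * B ^ 2) := by
        refine add_le_add (mul_le_mul_right ?_ _) le_rfl
        exact hwd1.trans (add_le_add hdiag le_rfl)
    _ = ENNReal.ofReal (8 * (C * h ^ 2 * T ^ (1 / 2 : ℝ) *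
          ((1 / (θ * A) + 1 / (θ * A) ^ 2) * BB M F w 0 +
            Real.exp (2 - 1 / (2 * θ)) * BB M F w η) + 5 * h ^ 2 * T ^ (1 / 10 : ℝ)) +
        10 * h ^ 2 * B ^ 2) := by
        rw [← ENNReal.ofReal_add (by positivity) (by positivity),
          ← ENNReal.ofReal_mul (by norm_num), ← ENNReal.ofReal_add (by positivity)
          (by positivity)]
    _ ≤ _ := by
        refine ENNReal.ofReal_le_ofReal ?_
        have h5 : T ^ (1 / 10 : ℝ) ≤ T ^ (1 / 4 : ℝ) :=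
          Real.rpow_le_rpow_of_exponent_le hT0 (by norm_num)
        set Z := (1 / (θ * A) + 1 / (θ * A) ^ 2) * BB M F w 0 +
            Real.exp (2 - 1 / (2 * θ)) * BB M F w η with hZ
        have hZ0 : 0 ≤ Z := by positivity
        have h6 : 0 ≤ h ^ 2 * T ^ (1 / 2 : ℝ) * Z := by positivity
        have h7 : h ^ 2 * T ^ (1 / 10 : ℝ) ≤ h ^ 2 * T ^ (1 / 4 : ℝ) :=
          mul_le_mul_of_nonneg_left h5 (by positivity)
        have h8 : h ^ 2 * B ^ 2 ≤ h ^ 2 * T ^ (1 / 4 : ℝ) :=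
          mul_le_mul_of_nonneg_left hBle (by positivity)
        have h9 : 0 ≤ h ^ 2 * T ^ (1 / 4 : ℝ) := by positivity
        have h10 : 0 ≤ C * (h ^ 2 * T ^ (1 / 4 : ℝ)) := by positivity
        nlinarith

end Pool.Agent.GH
end
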